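import Mathlib

namespace Pool.Agent.Tav

open Module

section RK

variable {Ω : Type*} [Field Ω] {A : Type*} [CommRing A] [Algebra Ω A]

theorem finrank_mul_le' (V W : Submodule Ω A) [FiniteDimensional Ω V] [FiniteDimensional Ω W] :
    finrank Ω ↥(V * W) ≤ finrank Ω V * finrank Ω W := by
  rw [← Submodule.mulMap_range, ← Module.finrank_tensorProduct]
  exact LinearMap.finrank_range_le _

instance fd_mul (V W : Submodule Ω A) [FiniteDimensional Ω V] [FiniteDimensional Ω W] :
    FiniteDimensional Ω ↥(V * W) := by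
  rw [← Submodule.mulMap_range]
  infer_instance

variable {M : Type*}

/-- the family `u` is independent over every graded piece `R a` -/
def Ind (R : M → Submodule Ω A) {κ : Type*} [Fintype κ] (u : κ → A) : Prop :=
  ∀ a, ∀ g : κ → A, (∀ j, g j ∈ R a) → ∑ j, g j * u j = 0 → ∀ j, g j = 0

theorem Ind.lower {R : M → Submodule Ω A} {κ : Type*} [Fintype κ] {u : κ → A} (h : Ind R u)
    {U : Submodule Ω A} (hu : ∀ j, u j ∈ U) (a : M) [FiniteDimensional Ω U]
    [FiniteDimensional Ω (R a)] :
    Fintype.card κ * finrank Ω (R a) ≤ finrank Ω ↥(U * R a) := by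
  classical
  let φ : (κ → R a) →ₗ[Ω] ↥(U * R a) :=
    { toFun := fun g => ⟨∑ j, (g j : A) * u j, Submodule.sum_mem _ fun j _ => by
        rw [mul_comm (g j : A)]; exact Submodule.mul_mem_mul (hu j) (g j).2⟩
      map_add' := fun g g' => by
        ext; simp [add_mul, Finset.sum_add_distrib]
      map_smul' := fun c g => by
        ext; simp [Finset.smul_sum] }
  have hφ : Function.Injective φ := by
    rw [injective_iff_map_eq_zero]
    intro g hg
    have h0 : ∑ j, (g j : A) * u j = 0 := congrArg Subtype.val hg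
    funext j
    exact Subtype.ext (h a (fun j => g j) (fun j => (g j).2) h0 j)
  have := LinearMap.finrank_le_finrank_of_injective hφ
  rwa [Module.finrank_pi_fintype, Finset.sum_const, Finset.card_univ, smul_eq_mul] at this

variable [AddCommMonoid M]

/-- a maximal independent family in `U` and a common denominator -/
theorem exists_ind [Nontrivial A] (R : M → Submodule Ω A) (hone : (1 : A) ∈ R 0)
    (hmul : ∀ a b, R a * R b ≤ R (a + b))
    (hdom : ∀ a b, ∀ f ∈ R a, ∀ g ∈ R b, f * g = 0 → f = 0 ∨ g = 0)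
    (U : Submodule Ω A) [FiniteDimensional Ω U] :
    ∃ (r : ℕ) (u : Fin r → A), (∀ j, u j ∈ U) ∧ Ind R u ∧
      ∃ e, ∃ f ∈ R e, f ≠ 0 ∧ ∀ x ∈ U, f * x ∈ Submodule.span Ω (Set.range u) * R e := by
  classical
  let p : ℕ → Prop := fun r => ∃ u : Fin r → A, (∀ j, u j ∈ U) ∧ Ind R u
  have hb : ∀ r, p r → r ≤ finrank Ω U := by
    rintro r ⟨u, hu, hi⟩
    have hl : LinearIndependent Ω (fun j => (⟨u j, hu j⟩ : U)) := by
      rw [Fintype.linearIndependent_iff]
      intro c hc j
      have h0 : ∑ j, (c j • (1 : A)) * u j = 0 := by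
        have := congrArg Subtype.val hc
        simpa using this
      have := hi 0 (fun j => c j • (1 : A)) (fun j => Submodule.smul_mem _ _ hone) h0 j
      simpa using this
    simpa using hl.fintype_card_le_finrank
  have h0 : p 0 := ⟨Fin.elim0, fun j => j.elim0, fun _ _ _ _ j => j.elim0⟩
  obtain ⟨r, ⟨u, hu, hi⟩, hmax⟩ : ∃ r, p r ∧ ¬ p (r + 1) :=
    ⟨Nat.findGreatest p (finrank Ω U), Nat.findGreatest_spec (Nat.zero_le _) h0, fun h =>
      Nat.findGreatest_is_greatest (P := p) (n := finrank Ω U) (Nat.lt_succ_self _) (hb _ h) h⟩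
  refine ⟨r, u, hu, hi, ?_⟩
  set V := Submodule.span Ω (Set.range u) with hV
  have one : ∀ x ∈ U, ∃ e, ∃ f ∈ R e, f ≠ 0 ∧ f * x ∈ V * R e := by
    intro x hx
    by_contra hn
    refine hmax ⟨Fin.cons x u, fun j => Fin.cases (by simpa using hx) (by simpa using hu) j, ?_⟩
    intro a g hg hs
    rw [Fin.sum_univ_succ] at hs
    simp only [Fin.cons_zero, Fin.cons_succ] at hs
    have hg0 : g 0 = 0 := by
      by_contra hne
      refine hn ⟨a, g 0, hg 0, hne, ?_⟩
      rw [eq_neg_of_add_eq_zero_left hs]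
      refine Submodule.neg_mem _ (Submodule.sum_mem _ fun j _ => ?_)
      rw [mul_comm (g j.succ)]
      exact Submodule.mul_mem_mul (Submodule.subset_span ⟨j, rfl⟩) (hg _)
    rw [hg0, zero_mul, zero_add] at hs
    exact fun j => Fin.cases hg0 (fun j => hi a (fun j => g j.succ) (fun j => hg _) hs j) j
  have step : ∀ {e b : M} {y g : A}, y ∈ V * R e → g ∈ R b → y * g ∈ V * R (e + b) := by
    intro e b y g hy hg
    have : V * R e * R b ≤ V * R (e + b) := by
      rw [mul_assoc]; exact mul_le_mul_right (hmul e b) V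
    exact this (Submodule.mul_mem_mul hy hg)
  have all : ∀ S : Finset A, (∀ x ∈ S, x ∈ U) →
      ∃ e, ∃ f ∈ R e, f ≠ 0 ∧ ∀ x ∈ S, f * x ∈ V * R e := by
    intro S
    induction S using Finset.induction_on with
    | empty => exact fun _ => ⟨0, 1, hone, one_ne_zero, by simp⟩
    | insert y S _ ih =>
      intro hS
      obtain ⟨e, f, hf, hf0, hfS⟩ := ih fun x hx => hS x (Finset.mem_insert_of_mem hx)
      obtain ⟨b, g, hg, hg0, hgy⟩ := one y (hS y (Finset.mem_insert_self _ _))
      refine ⟨e + b, f * g, hmul e b (Submodule.mul_mem_mul hf hg),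
        fun h => (hdom e b f hf g hg h).elim hf0 hg0, fun x hx => ?_⟩
      rcases Finset.mem_insert.1 hx with rfl | hx
      · have := step hgy hf
        rwa [add_comm b e, mul_comm _ f, ← mul_assoc] at this
      · have := step (hfS x hx) hg
        rwa [mul_right_comm] at this
  obtain ⟨S, hS⟩ : U.FG := (Submodule.fg_iff_finiteDimensional U).2 inferInstance
  obtain ⟨e, f, hf, hf0, hfS⟩ := all S fun x hx => hS ▸ Submodule.subset_span hx
  refine ⟨e, f, hf, hf0, fun x hx => ?_⟩
  rw [← hS] at hx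
  induction hx using Submodule.span_induction with
  | mem x hx => exact hfS x hx
  | zero => simp
  | add x y _ _ hx hy => rw [mul_add]; exact Submodule.add_mem _ hx hy
  | smul c x _ hx => rw [mul_smul_comm]; exact Submodule.smul_mem _ _ hx

/-- upper bound from a denominator -/
theorem upper_of_den (R : M → Submodule Ω A) [∀ a, FiniteDimensional Ω (R a)]
    (hmul : ∀ a b, R a * R b ≤ R (a + b))
    (hdom : ∀ a b, ∀ f ∈ R a, ∀ g ∈ R b, f * g = 0 → f = 0 ∨ g = 0)
    (U V : Submodule Ω A) [FiniteDimensional Ω U] [FiniteDimensional Ω V]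
    {e : M} {f : A} (hf : f ∈ R e) (hf0 : f ≠ 0) (hx : ∀ x ∈ U, f * x ∈ V * R e) (a : M) :
    finrank Ω ↥(U * R (e + a)) + finrank Ω U * finrank Ω (R a) ≤
      (finrank Ω V + finrank Ω U) * finrank Ω (R (e + a)) := by
  let W : Submodule Ω A := (R a).map (LinearMap.mulLeft Ω f)
  have hWB : W ≤ R (e + a) := by
    rintro _ ⟨g, hg, rfl⟩
    exact hmul e a (Submodule.mul_mem_mul hf hg)
  have hW : finrank Ω W = finrank Ω (R a) := by
    have hinj : Function.Injective ((LinearMap.mulLeft Ω f).domRestrict (R a)) := by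
      rw [injective_iff_map_eq_zero]
      intro g hg
      exact Subtype.ext ((hdom e a f hf g g.2 hg).resolve_left hf0)
    have := LinearMap.finrank_range_of_inj hinj
    rwa [LinearMap.range_domRestrict] at this
  obtain ⟨Q, hQ⟩ := Submodule.exists_isCompl W
  let C : Submodule Ω A := Q ⊓ R (e + a)
  have : FiniteDimensional Ω C := Submodule.finiteDimensional_of_le inf_le_right
  have hsup : W ⊔ C = R (e + a) := by
    rw [← sup_inf_assoc_of_le Q hWB, hQ.sup_eq_top, top_inf_eq]
  have hinf : W ⊓ C = ⊥ := by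
    rw [← inf_assoc, hQ.inf_eq_bot, bot_inf_eq]
  have hd : finrank Ω (R (e + a)) = finrank Ω (R a) + finrank Ω C := by
    have := Submodule.finrank_sup_add_finrank_inf_eq W C
    rw [hsup, hinf, finrank_bot, add_zero, hW] at this
    exact this
  have hle : U * R (e + a) ≤ V * R (e + a) ⊔ U * C := by
    conv_lhs => rw [← hsup, Submodule.mul_sup]
    refine sup_le_sup_right ?_ _
    rw [Submodule.mul_le]
    rintro x hxU _ ⟨g, hg, rfl⟩
    have h1 : V * R e * R a ≤ V * R (e + a) := by
      rw [mul_assoc]; exact mul_le_mul_right (hmul e a) V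
    have := h1 (Submodule.mul_mem_mul (hx x hxU) hg)
    rwa [mul_comm f x, mul_assoc] at this
  have h1 := Submodule.finrank_mono hle
  have h2 := Submodule.finrank_add_le_finrank_add_finrank (V * R (e + a)) (U * C)
  have h3 := finrank_mul_le' V (R (e + a))
  have h4 := finrank_mul_le' U C
  rw [add_mul]
  rw [hd] at h3 ⊢
  nlinarith

/-- RK, numerical core -/
theorem rk_core (R : M → Submodule Ω A) [∀ a, FiniteDimensional Ω (R a)] (hone : (1 : A) ∈ R 0)
    (hmul : ∀ a b, R a * R b ≤ R (a + b))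
    (hdom : ∀ a b, ∀ f ∈ R a, ∀ g ∈ R b, f * g = 0 → f = 0 ∨ g = 0)
    (U : Submodule Ω A) [FiniteDimensional Ω U] :
    ∃ (r : ℕ) (u : Fin r → A) (e : M), (∀ j, u j ∈ U) ∧ Ind R u ∧ ∀ a,
      r * finrank Ω (R a) ≤ finrank Ω ↥(U * R a) ∧
      finrank Ω ↥(U * R (e + a)) + finrank Ω U * finrank Ω (R a) ≤
        (r + finrank Ω U) * finrank Ω (R (e + a)) := by
  rcases subsingleton_or_nontrivial A with hA | hA
  · refine ⟨0, Fin.elim0, 0, fun j => j.elim0, fun _ _ _ _ j => j.elim0, fun a => ?_⟩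
    have hz : ∀ W : Submodule Ω A, finrank Ω W = 0 := fun W => finrank_zero_of_subsingleton
    simp [hz]
  obtain ⟨r, u, hu, hi, e, f, hf, hf0, hx⟩ := exists_ind R hone hmul hdom U
  refine ⟨r, u, e, hu, hi, fun a => ⟨by simpa using hi.lower hu a, ?_⟩⟩
  have : FiniteDimensional Ω (Submodule.span Ω (Set.range u)) :=
    FiniteDimensional.span_of_finite Ω (Set.finite_range u)
  have h1 := upper_of_den R hmul hdom U _ hf hf0 hx a
  have h2 : finrank Ω (Submodule.span Ω (Set.range u)) ≤ r := by
    simpa [Set.finrank] using finrank_range_le_card (R := Ω) u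
  exact h1.trans (Nat.mul_le_mul_right _ (Nat.add_le_add_right h2 _))

end RK

section IRR

open MvPolynomial

/-- IRR: no relevant zero, then all monomials of large degree in every block lie in `J` -/
theorem irr_monomial {Ω : Type*} [Field Ω] [IsAlgClosed Ω] {σ ι : Type*} [Finite σ] [Finite ι]
    (w : σ → ι) (J : Ideal (MvPolynomial σ Ω))
    (h : ∀ x : σ → Ω, (∀ f ∈ J, eval x f = 0) → ∃ i, ∀ s, w s = i → x s = 0) :
    ∃ N : ℕ, ∀ m : σ →₀ ℕ, (∀ i, N ≤ Finsupp.mapDomain w m i) → ∀ c, monomial m c ∈ J := by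
  classical
  have := Fintype.ofFinite σ
  have := Fintype.ofFinite ι
  have key : ∀ t : ι → σ, ∃ k : ℕ, (∀ i, w (t i) = i) →
      (∏ i, (X (t i) : MvPolynomial σ Ω)) ^ k ∈ J := by
    intro t
    by_cases ht : ∀ i, w (t i) = i
    · have hrad : (∏ i, (X (t i) : MvPolynomial σ Ω)) ∈ J.radical := by
        rw [← vanishingIdeal_zeroLocus_eq_radical (K := Ω), mem_vanishingIdeal_iff]
        intro x hx
        obtain ⟨i, hi⟩ := h x (fun f hf => by simpa using hx f hf)
        rw [map_prod]
        exact Finset.prod_eq_zero (Finset.mem_univ i) (by simp [hi _ (ht i)])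
      obtain ⟨k, hk⟩ := hrad
      exact ⟨k, fun _ => hk⟩
    · exact ⟨0, fun h' => absurd h' ht⟩
  choose k hk using key
  let K := Finset.univ.sup k
  refine ⟨K * Fintype.card σ + 1, fun m hm c => ?_⟩
  have ex : ∀ i, ∃ s, w s = i ∧ K ≤ m s := by
    intro i
    by_contra hn
    push Not at hn
    have h1 := hm i
    have h2 : Finsupp.mapDomain w m i = ∑ s, if w s = i then m s else 0 := by
      rw [Finsupp.mapDomain, Finsupp.sum_apply, Finsupp.sum_fintype _ _ (by simp)]
      simp [Finsupp.single_apply]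
    have h3 : (∑ s, if w s = i then m s else 0) ≤ ∑ _s : σ, K := by
      refine Finset.sum_le_sum fun s _ => ?_
      split_ifs with hs
      · exact (hn s hs).le
      · exact Nat.zero_le _
    rw [Finset.sum_const, Finset.card_univ, smul_eq_mul, mul_comm] at h3
    omega
  choose t ht hK using ex
  have hinj : Function.Injective t := fun i j hij => by rw [← ht i, hij, ht j]
  have hmem : (∏ i, (X (t i) : MvPolynomial σ Ω)) ^ K ∈ J :=
    Ideal.pow_mem_of_pow_mem J (hk t ht) (Finset.le_sup (f := k) (Finset.mem_univ t))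
  have hmon : (∏ i, (X (t i) : MvPolynomial σ Ω)) ^ K =
      monomial (∑ i, Finsupp.single (t i) K) 1 := by
    rw [← Finset.prod_pow, monomial_sum_one]
    exact Finset.prod_congr rfl fun i _ => X_pow_eq_monomial
  have hle : (∑ i, Finsupp.single (t i) K) ≤ m := by
    intro s
    rw [Finsupp.finsetSum_apply]
    by_cases hs : ∃ i, t i = s
    · obtain ⟨i, rfl⟩ := hs
      rw [Finset.sum_eq_single i (fun j _ hj => Finsupp.single_eq_of_ne' (hinj.ne hj)) (by simp)]
      simpa using hK i
    · push Not at hs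
      rw [Finset.sum_eq_zero fun j _ => Finsupp.single_eq_of_ne' (hs j)]
      exact Nat.zero_le _
  have : monomial m c = monomial (m - ∑ i, Finsupp.single (t i) K) c *
      (∏ i, (X (t i) : MvPolynomial σ Ω)) ^ K := by
    rw [hmon, monomial_mul, tsub_add_cancel_of_le hle, mul_one]
  rw [this]
  exact J.mul_mem_left _ hmem

/-- IRR for forms: a polynomial all of whose monomials have large block degrees lies in `J` -/
theorem irr {Ω : Type*} [Field Ω] [IsAlgClosed Ω] {σ ι : Type*} [Finite σ] [Finite ι]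
    (w : σ → ι) (J : Ideal (MvPolynomial σ Ω))
    (h : ∀ x : σ → Ω, (∀ f ∈ J, eval x f = 0) → ∃ i, ∀ s, w s = i → x s = 0) :
    ∃ N : ℕ, ∀ f : MvPolynomial σ Ω,
      (∀ m ∈ f.support, ∀ i, N ≤ Finsupp.mapDomain w m i) → f ∈ J := by
  obtain ⟨N, hN⟩ := irr_monomial w J h
  refine ⟨N, fun f hf => ?_⟩
  rw [f.as_sum]
  exact J.sum_mem fun m hm => hN m (hf m hm) _

end IRR

end Pool.Agent.Tav
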