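import Pool.Agent.P.MP_2ce3e7_ag.Tav.HIdeal
import Pool.Agent.P.MP_2ce3e7_ag.Tav.RK

namespace Pool.Agent.Tav

open Module MvPolynomial Function

variable {Ω : Type} [Field Ω] {A : Type} [CommRing A] [Algebra Ω A]

section Rank

variable {M : Type*}

/-- `U` has rank `r` over the graded ring with pieces `R` -/
def IsRk (R : M → Submodule Ω A) (U : Submodule Ω A) (r : ℕ) : Prop :=
  ∃ u : Fin r → A, (∀ j, u j ∈ U) ∧ Ind R u ∧
    ∀ x ∈ U, ∃ e, ∃ f ∈ R e, f ≠ 0 ∧ f * x ∈ Submodule.span Ω (Set.range u) * R e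

/-- no zero divisors among the pieces -/
def NoZD (R : M → Submodule Ω A) : Prop :=
  ∀ a b, ∀ f ∈ R a, ∀ g ∈ R b, f * g = 0 → f = 0 ∨ g = 0

theorem isRk_one {R : M → Submodule Ω A} {U : Submodule Ω A} {u : A} (hu : u ∈ U)
    (hreg : ∀ a, ∀ g ∈ R a, g * u = 0 → g = 0)
    (h : ∀ x ∈ U, ∃ e, ∃ f ∈ R e, f ≠ 0 ∧ ∃ g ∈ R e, f * x = g * u) : IsRk R U 1 := by
  refine ⟨fun _ => u, fun _ => hu, fun a g hg hs j => ?_, fun x hx => ?_⟩
  · rw [Fin.sum_univ_one] at hs
    rw [Subsingleton.elim j 0]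
    exact hreg a _ (hg 0) hs
  · obtain ⟨e, f, hf, hf0, g, hg, hfg⟩ := h x hx
    refine ⟨e, f, hf, hf0, ?_⟩
    rw [hfg, mul_comm g]
    exact Submodule.mul_mem_mul (Submodule.subset_span ⟨0, rfl⟩) hg

theorem IsRk.transfer {M' : Type*} {R : M → Submodule Ω A} {R' : M' → Submodule Ω A}
    {U : Submodule Ω A} {r : ℕ} (h : IsRk R U r) (up : ∀ a, ∃ a', R a ≤ R' a')
    (down : ∀ a', ∃ (a : M) (g l : A), (∀ y ∈ R' a', g * y = 0 → y = 0) ∧
      (∀ z ∈ U * R a, l * z = 0 → z = 0) ∧ ∀ y ∈ R' a', ∃ y' ∈ R a, g * y = l * y') :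
    IsRk R' U r := by
  obtain ⟨u, hu, hi, hd⟩ := h
  refine ⟨u, hu, fun a' c hc hs j => ?_, fun x hx => ?_⟩
  · obtain ⟨a, g, l, hg, hl, hy⟩ := down a'
    choose y hy1 hy2 using fun j => hy (c j) (hc j)
    have h1 : l * ∑ j, y j * u j = 0 := by
      rw [Finset.mul_sum, ← mul_zero g, ← hs, Finset.mul_sum]
      exact Finset.sum_congr rfl fun j _ => by rw [← mul_assoc, ← hy2, mul_assoc]
    have h2 := hl _ (Submodule.sum_mem _ fun j _ => by
      rw [mul_comm (y j)]; exact Submodule.mul_mem_mul (hu j) (hy1 j)) h1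
    exact hg _ (hc j) (by rw [hy2, hi a y hy1 h2 j, mul_zero])
  · obtain ⟨e, f, hf, hf0, hx⟩ := hd x hx
    obtain ⟨e', he⟩ := up e
    exact ⟨e', f, he hf, hf0, mul_le_mul_right he _ hx⟩

variable [AddCommMonoid M]

theorem exists_isRk [Nontrivial A] (R : M → Submodule Ω A) (hone : (1 : A) ∈ R 0)
    (hmul : ∀ a b, R a * R b ≤ R (a + b)) (hdom : NoZD R)
    (U : Submodule Ω A) [FiniteDimensional Ω U] : ∃ r, IsRk R U r := by
  obtain ⟨r, u, hu, hi, e, f, hf, hf0, hx⟩ := exists_ind R hone hmul hdom U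
  exact ⟨r, u, hu, hi, fun x h => ⟨e, f, hf, hf0, hx x h⟩⟩

theorem exists_den [Nontrivial A] (R : M → Submodule Ω A) (hone : (1 : A) ∈ R 0)
    (hmul : ∀ a b, R a * R b ≤ R (a + b)) (hdom : NoZD R)
    (U V : Submodule Ω A) [FiniteDimensional Ω U]
    (one : ∀ x ∈ U, ∃ e, ∃ f ∈ R e, f ≠ 0 ∧ f * x ∈ V * R e) :
    ∃ e, ∃ f ∈ R e, f ≠ 0 ∧ ∀ x ∈ U, f * x ∈ V * R e := by
  classical
  have step : ∀ {e b : M} {y g : A}, y ∈ V * R e → g ∈ R b → y * g ∈ V * R (e + b) := by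
    intro e b y g hy hg
    have : V * R e * R b ≤ V * R (e + b) := by
      rw [mul_assoc]; exact mul_le_mul_right (hmul e b) V
    exact this (Submodule.mul_mem_mul hy hg)
  have all : ∀ S : Finset A, (∀ x ∈ S, x ∈ U) →
      ∃ e, ∃ f ∈ R e, f ≠ 0 ∧ ∀ x ∈ S, f * x ∈ V * R e := by
    intro S
    induction S using Finset.induction_on with
    | empty => exact fun _ => ⟨0, 1, hone, one_ne_zero, by simp⟩
    | insert y S _ ih =>
      intro hS
      obtain ⟨e, f, hf, hf0, hfS⟩ := ih fun x hx => hS x (Finset.mem_insert_of_mem hx)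
      obtain ⟨b, g, hg, hg0, hgy⟩ := one y (hS y (Finset.mem_insert_self _ _))
      refine ⟨e + b, f * g, hmul e b (Submodule.mul_mem_mul hf hg),
        fun h => (hdom e b f hf g hg h).elim hf0 hg0, fun x hx => ?_⟩
      rcases Finset.mem_insert.1 hx with rfl | hx
      · have := step hgy hf
        rwa [add_comm b e, mul_comm _ f, ← mul_assoc] at this
      · have := step (hfS x hx) hg
        rwa [mul_right_comm] at this
  obtain ⟨S, hS⟩ : U.FG := (Submodule.fg_iff_finiteDimensional U).2 inferInstance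
  obtain ⟨e, f, hf, hf0, hfS⟩ := all S fun x hx => hS ▸ Submodule.subset_span hx
  refine ⟨e, f, hf, hf0, fun x hx => ?_⟩
  rw [← hS] at hx
  induction hx using Submodule.span_induction with
  | mem x hx => exact hfS x hx
  | zero => simp
  | add x y _ _ hx hy => rw [mul_add]; exact Submodule.add_mem _ hx hy
  | smul c x _ hx => rw [mul_smul_comm]; exact Submodule.smul_mem _ _ hx

theorem IsRk.sandwich {R : M → Submodule Ω A} [∀ a, FiniteDimensional Ω (R a)]
    (hone : (1 : A) ∈ R 0) (hmul : ∀ a b, R a * R b ≤ R (a + b)) (hdom : NoZD R)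
    {U : Submodule Ω A} [FiniteDimensional Ω U] {r : ℕ} (h : IsRk R U r) :
    ∃ e, ∀ a, r * finrank Ω (R a) ≤ finrank Ω ↥(U * R a) ∧
      finrank Ω ↥(U * R (e + a)) + finrank Ω U * finrank Ω (R a) ≤
        (r + finrank Ω U) * finrank Ω (R (e + a)) := by
  rcases subsingleton_or_nontrivial A with hA | hA
  · have hz : ∀ W : Submodule Ω A, finrank Ω W = 0 := fun W => finrank_zero_of_subsingleton
    exact ⟨0, fun a => by simp [hz]⟩
  obtain ⟨u, hu, hi, hd⟩ := h
  obtain ⟨e, f, hf, hf0, hx⟩ := exists_den R hone hmul hdom U _ hd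
  refine ⟨e, fun a => ⟨by simpa using hi.lower hu a, ?_⟩⟩
  have : FiniteDimensional Ω (Submodule.span Ω (Set.range u)) :=
    FiniteDimensional.span_of_finite Ω (Set.finite_range u)
  have h1 := upper_of_den R hmul hdom U _ hf hf0 hx a
  have h2 : finrank Ω (Submodule.span Ω (Set.range u)) ≤ r := by
    simpa [Set.finrank] using finrank_range_le_card (R := Ω) u
  exact h1.trans (Nat.mul_le_mul_right _ (Nat.add_le_add_right h2 _))

end Rank

theorem finrank_le_of_rat {W W' : Submodule Ω A} [FiniteDimensional Ω W'] {g l : A}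
    (hg : ∀ x ∈ W, g * x = 0 → x = 0) (h : ∀ x ∈ W, ∃ y ∈ W', g * x = l * y) :
    finrank Ω W ≤ finrank Ω W' := by
  have hinj : Injective ((LinearMap.mulLeft Ω g).domRestrict W) := by
    rw [injective_iff_map_eq_zero]
    intro x hx
    exact Subtype.ext (hg x x.2 hx)
  rw [← LinearMap.finrank_range_of_inj hinj]
  refine le_trans (Submodule.finrank_mono ?_) (Submodule.finrank_map_le (LinearMap.mulLeft Ω l) W')
  rintro _ ⟨x, rfl⟩
  obtain ⟨y, hy, e⟩ := h x x.2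
  exact ⟨y, hy, e.symm⟩

section Num

variable {ι κ : Type}

theorem Dg.prod {T : Finset κ} {P : κ → MvPolynomial ι ℚ} {n : κ → ℤ}
    (h : ∀ k ∈ T, Dg (P k) (n k)) : Dg (∏ k ∈ T, P k) (∑ k ∈ T, n k) := by
  classical
  induction T using Finset.induction_on with
  | empty => simpa using dg_C (ι := ι) 1
  | insert k T hk ih =>
    rw [Finset.prod_insert hk, Finset.sum_insert hk]
    exact (h k (Finset.mem_insert_self _ _)).mul
      (ih fun j hj => h j (Finset.mem_insert_of_mem hj))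

theorem Dg.aeval_lin {Q : MvPolynomial κ ℚ} {n : ℤ} (h : Dg Q n) {g : κ → MvPolynomial ι ℚ}
    (hg : ∀ j, Dg (g j) 1) : Dg (aeval g Q) n := by
  rw [Q.as_sum, map_sum]
  refine Dg.sum fun s hs => ?_
  have hs' : (s.degree : ℤ) ≤ n := not_lt.1 fun hc => mem_support_iff.1 hs (h s hc)
  rw [aeval_monomial, algebraMap_eq]
  refine Dg.C_mul (Dg.mono (Dg.prod fun j _ => (hg j).pow (s j)) ?_) _
  refine le_trans (le_of_eq ?_) hs'
  rw [Finsupp.degree_apply]
  simp

theorem evN_killCompl {f : κ → ι} (hi : Injective f) (a : κ → ℕ) (p : MvPolynomial ι ℚ) :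
    evN a (killCompl hi p) = evN (extend f a 0) p := by
  rw [evN, killCompl, eval_aev, evN]
  congr 2
  funext i
  by_cases h : i ∈ Set.range f
  · obtain ⟨j, rfl⟩ := h
    rw [dif_pos ⟨j, rfl⟩, Equiv.ofInjective_symm_apply, eval_X, hi.extend_apply]
  · rw [dif_neg h, extend_apply' _ _ _ h]
    simp

theorem degree_mapDomain' (f : κ → ι) (s : κ →₀ ℕ) : (s.mapDomain f).degree = s.degree := by
  induction s using Finsupp.induction_linear with
  | zero => simp
  | add a b ha hb => rw [Finsupp.mapDomain_add, map_add, map_add, ha, hb]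
  | single a k => rw [Finsupp.mapDomain_single, Finsupp.degree_single, Finsupp.degree_single]

theorem dg_of_sandwich [Fintype κ] {h hU : (κ → ℕ) → ℚ} {Q P : MvPolynomial κ ℚ} {n : ℤ}
    (hQ : EvP h Q) (hP : EvP hU P) (dQ : Dg Q n) {r N : ℚ} {e : κ → ℕ}
    (h1 : ∀ a, r * h a ≤ hU a) (h2 : ∀ a, hU (e + a) + N * h a ≤ (r + N) * h (e + a)) :
    Dg (P - C r * Q) (n - 1) := by
  have key : Dg (sh (fun i => (e i : ℚ)) (P - C r * Q)) (n - 1) := by
    refine ((dQ.sh_sub fun i => (e i : ℚ)).C_mul N).of_abs_le ?_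
    refine ((Lg.and hQ (Lg.add hQ e)).and (Lg.add hP e)).mono fun d hd => ?_
    rw [evN_sh, map_sub, map_mul, map_mul, map_sub, evN_sh, evN_C, evN_C, hd.1.1, hd.1.2, hd.2,
      add_comm d e, abs_of_nonneg (sub_nonneg.2 (h1 _))]
    linarith [h2 d]
  have := key.sh fun i => -(e i : ℚ)
  have e1 : ((fun i => -(e i : ℚ)) + fun i => (e i : ℚ)) = 0 := funext fun i => by simp
  rwa [sh_sh, e1, sh_zero] at this

theorem vec_ind [Fintype ι] [DecidableEq ι] {p : (ι → ℕ) → Prop} (h0 : p 0)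
    (hs : ∀ i m, p m → p (m + Pi.single i 1)) (m : ι → ℕ) : p m := by
  generalize hk : ∑ i, m i = k
  induction k generalizing m with
  | zero =>
    have : m = 0 := funext fun i => Finset.sum_eq_zero_iff.1 hk i (Finset.mem_univ i)
    exact this ▸ h0
  | succ k ih =>
    obtain ⟨i, -, hi⟩ := Finset.exists_ne_zero_of_sum_ne_zero (s := Finset.univ) (f := m)
      (by rw [hk]; exact Nat.succ_ne_zero k)
    have e : m = (m - Pi.single i 1) + Pi.single i 1 := funext fun j => by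
      by_cases h : j = i
      · subst h; simp; omega
      · simp [h]
    rw [e]
    refine hs i _ (ih _ ?_)
    rw [e] at hk
    simp only [Pi.add_apply, Finset.sum_add_distrib, Finset.sum_pi_single', Finset.mem_univ,
      if_true] at hk
    omega

end Num

section Fam

variable {ι κ : Type} [Fintype ι] [Fintype κ]

/-- the piece of degree `d` of the ring generated by the family `L` -/
def pw (L : ι → Submodule Ω A) (d : ι → ℕ) : Submodule Ω A := ∏ i, L i ^ d i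

/-- its dimension -/
noncomputable abbrev hw (L : ι → Submodule Ω A) : (ι → ℕ) → ℚ := fun d => (hf L d : ℚ)

theorem hw_eq (L : ι → Submodule Ω A) (d : ι → ℕ) : hw L d = finrank Ω (pw L d) := rfl

theorem pw_zero (L : ι → Submodule Ω A) : pw L 0 = 1 := by simp [pw]

theorem one_mem_pw (L : ι → Submodule Ω A) : (1 : A) ∈ pw L 0 := by
  rw [pw_zero]; exact Submodule.one_le.1 le_rfl

theorem pw_add (L : ι → Submodule Ω A) (a b : ι → ℕ) : pw L (a + b) = pw L a * pw L b := by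
  simp [pw, pow_add, Finset.prod_mul_distrib]

theorem pw_single [DecidableEq ι] (L : ι → Submodule Ω A) (i : ι) (k : ℕ) :
    pw L (Pi.single i k) = L i ^ k := by
  rw [pw, Finset.prod_eq_single i (fun j _ hj => by simp [hj]) (by simp)]
  simp

theorem pw_extend (L : ι → Submodule Ω A) {f : κ → ι} (hi : Injective f) (a : κ → ℕ) :
    pw L (extend f a 0) = pw (L ∘ f) a :=
  (Fintype.prod_of_injective f hi _ _ (fun i hi => by rw [extend_apply' _ _ _ hi]; simp)
    fun j => by rw [hi.extend_apply]; rfl).symm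

instance fd_pw (L : ι → Submodule Ω A) [∀ i, FiniteDimensional Ω (L i)] (d : ι → ℕ) :
    FiniteDimensional Ω (pw L d) := by
  classical
  induction d using vec_ind with
  | h0 => rw [pw_zero, Submodule.one_eq_span]; infer_instance
  | hs i m ih => rw [pw_add, pw_single, pow_one]; infer_instance

instance fd_comp (L : ι → Submodule Ω A) [h : ∀ i, FiniteDimensional Ω (L i)] (f : κ → ι) (j : κ) :
    FiniteDimensional Ω ((L ∘ f) j) := h (f j)

theorem NoZD.comp {L : ι → Submodule Ω A} (h : NoZD (pw L)) {f : κ → ι} (hi : Injective f) :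
    NoZD (pw (L ∘ f)) := fun a b x hx y hy =>
  h _ _ x (by rwa [pw_extend L hi]) y (by rwa [pw_extend L hi])

theorem evP_zero_of_subsingleton [Subsingleton A] {L : ι → Submodule Ω A} {P : MvPolynomial ι ℚ}
    (hP : EvP (hw L) P) : P = 0 :=
  eq_zero_of_lg (Lg.mono hP fun d hd => by
    rw [hd, hw_eq, finrank_zero_of_subsingleton, Nat.cast_zero])

/-- reindexing along a bijection -/
theorem EvP.reindex {L : ι → Submodule Ω A} {P : MvPolynomial ι ℚ} (hP : EvP (hw L) P)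
    (e : κ ≃ ι) : EvP (hw (L ∘ e)) (rename e.symm P) := by
  obtain ⟨N, hN⟩ := hP
  refine ⟨N, fun d hd => ?_⟩
  have h1 : extend e d 0 = d ∘ e.symm := funext fun i => by
    obtain ⟨j, rfl⟩ := e.surjective i
    rw [e.injective.extend_apply]; simp
  have h2 : evN (d ∘ e.symm) P = hw L (d ∘ e.symm) := hN _ fun i => hd _
  change evN d _ = _
  rw [hw_eq, ← pw_extend L e.injective, h1, ← hw_eq, ← h2, evN, eval_rename]
  rfl

/-- RK: the top coefficients supported on a subfamily -/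
theorem rk_coeff (L : ι → Submodule Ω A) [∀ i, FiniteDimensional Ω (L i)] {f : κ → ι}
    (hi : Injective f) (hdom : NoZD (pw (L ∘ f))) {P : MvPolynomial ι ℚ} {Q : MvPolynomial κ ℚ}
    (hP : EvP (hw L) P) (hQ : EvP (hw (L ∘ f)) Q) {n : ℤ} (dP : Dg P n) (dQ : Dg Q n) :
    ∃ N : ℕ, ∀ m : ι → ℕ, (∀ i, i ∉ Set.range f → N ≤ m i) →
      ∀ r, IsRk (pw (L ∘ f)) (pw L m) r →
        ∀ α : κ →₀ ℕ, n ≤ α.degree → coeff (α.mapDomain f) P = r * coeff α Q := by
  obtain ⟨N, hN⟩ : ∃ N : ℕ, ∀ d : ι → ℕ, (∀ i, N ≤ d i) → evN d P = hw L d := hP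
  refine ⟨N, fun m hm r hr α hα => ?_⟩
  obtain ⟨e, he⟩ := hr.sandwich (one_mem_pw _) (fun a b => (pw_add _ a b).ge) hdom
  have hP' : EvP (fun a => (finrank Ω ↥(pw L m * pw (L ∘ f) a) : ℚ))
      (killCompl hi (sh (fun i => (m i : ℚ)) P)) := by
    refine ⟨N, fun a ha => ?_⟩
    change evN a _ = (finrank Ω ↥(pw L m * pw (L ∘ f) a) : ℚ)
    rw [evN_killCompl, evN_sh, hN, hw_eq, pw_add, pw_extend L hi, mul_comm]
    intro i
    by_cases h : i ∈ Set.range f
    · obtain ⟨j, rfl⟩ := h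
      rw [Pi.add_apply, hi.extend_apply]
      exact (ha j).trans (Nat.le_add_right _ _)
    · exact (hm i h).trans (Nat.le_add_left _ _)
  have key := dg_of_sandwich (r := r) (N := finrank Ω (pw L m)) (e := e) hQ hP' dQ
    (fun a => by rw [hw_eq]; exact_mod_cast (he a).1) (fun a => by
      rw [hw_eq, hw_eq]; exact_mod_cast (he a).2) α (by omega)
  rwa [coeff_sub, sub_eq_zero, coeff_C_mul, coeff_killCompl,
    dP.coeff_sh _ (by rwa [degree_mapDomain'])] at key

/-- `W` is rational over the family `B`, with a chart of multidegree `e` -/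
def RatAt (B : κ → Submodule Ω A) (W : Submodule Ω A) (e : κ → ℕ) : Prop :=
  ∃ g ∈ pw B e, ∃ l ∈ W, g ≠ 0 ∧ l ≠ 0 ∧ ∀ x ∈ W, ∃ y ∈ pw B e, g * x = l * y

/-- `W` is rational over the family `B` -/
def RatOver (B : κ → Submodule Ω A) (W : Submodule Ω A) : Prop := ∃ e, RatAt B W e

theorem rat_mul {W W' V V' : Submodule Ω A} {g l g' l' : A}
    (h : ∀ x ∈ W, ∃ y ∈ V, g * x = l * y) (h' : ∀ x ∈ W', ∃ y ∈ V', g' * x = l' * y) :
    ∀ x ∈ W * W', ∃ y ∈ V * V', g * g' * x = l * l' * y := by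
  intro x hx
  refine Submodule.mul_induction_on hx (fun a ha b hb => ?_) ?_
  · obtain ⟨y, hy, e⟩ := h a ha
    obtain ⟨y', hy', e'⟩ := h' b hb
    exact ⟨y * y', Submodule.mul_mem_mul hy hy', by
      rw [mul_mul_mul_comm, e, e', mul_mul_mul_comm]⟩
  · rintro a b ⟨y, hy, e⟩ ⟨y', hy', e'⟩
    exact ⟨y + y', Submodule.add_mem _ hy hy', by rw [mul_add, e, e', mul_add]⟩

theorem rat_refl (V : Submodule Ω A) : ∀ x ∈ V, ∃ y ∈ V, (1 : A) * x = 1 * y :=
  fun x hx => ⟨x, hx, rfl⟩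

/-- spans: it is enough to check the generators -/
theorem rat_span {s : Set A} {V : Submodule Ω A} {g l : A}
    (h : ∀ x ∈ s, ∃ y ∈ V, g * x = l * y) :
    ∀ x ∈ Submodule.span Ω s, ∃ y ∈ V, g * x = l * y := by
  intro x hx
  induction hx using Submodule.span_induction with
  | mem x hx => exact h x hx
  | zero => exact ⟨0, V.zero_mem, by simp⟩
  | add a b _ _ ha hb =>
    obtain ⟨y, hy, e⟩ := ha
    obtain ⟨y', hy', e'⟩ := hb
    exact ⟨y + y', V.add_mem hy hy', by rw [mul_add, e, e', mul_add]⟩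
  | smul c a _ ha =>
    obtain ⟨y, hy, e⟩ := ha
    exact ⟨c • y, V.smul_mem c hy, by rw [mul_smul_comm, e, mul_smul_comm]⟩

theorem RatOver.mono {κ' : Type} [Fintype κ'] {B : κ' → Submodule Ω A} {g : κ → κ'}
    (hg : Injective g) {W : Submodule Ω A} (h : RatOver (B ∘ g) W) : RatOver B W := by
  obtain ⟨e, h⟩ := h
  refine ⟨extend g e 0, ?_⟩
  rwa [RatAt, pw_extend B hg]

theorem ratOver_self {B : κ → Submodule Ω A} (j : κ) (h : B j ≠ ⊥) : RatOver B (B j) := by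
  classical
  obtain ⟨l, hl, h0⟩ := Submodule.exists_mem_ne_zero_of_ne_bot h
  refine ⟨Pi.single j 1, ?_⟩
  rw [RatAt, pw_single, pow_one]
  exact ⟨l, hl, l, hl, h0, h0, fun x hx => ⟨x, hx, rfl⟩⟩

theorem ratAt_pw [Nontrivial A] {L : ι → Submodule Ω A} (hL : NoZD (pw L))
    {B : κ → Submodule Ω A} (hB : NoZD (pw B)) (e : ι → κ → ℕ) (m : ι → ℕ)
    (h : ∀ i, m i ≠ 0 → RatAt B (L i) (e i)) : RatAt B (pw L m) (∑ i, m i • e i) := by
  classical
  induction m using vec_ind with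
  | h0 =>
    simp only [Pi.zero_apply, zero_smul, Finset.sum_const_zero]
    exact ⟨1, one_mem_pw B, 1, one_mem_pw L, one_ne_zero, one_ne_zero, by
      rw [pw_zero, pw_zero]; exact rat_refl _⟩
  | hs i m ih =>
    obtain ⟨g, hg, l, hl, g0, l0, hx⟩ := ih fun j hj => h j (by rw [Pi.add_apply]; omega)
    obtain ⟨g', hg', l', hl', g0', l0', hx'⟩ := h i (by simp)
    have e1 : ∑ j, (m + Pi.single i 1 : ι → ℕ) j • e j = ∑ j, m j • e j + e i := by
      simp only [Pi.add_apply, add_smul, Finset.sum_add_distrib]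
      rw [Finset.sum_eq_single i (f := fun j => (Pi.single i 1 : ι → ℕ) j • e j)
        (fun j _ hj => by simp [hj]) (by simp)]
      simp
    have hl1 : l' ∈ pw L (Pi.single i 1) := by rwa [pw_single, pow_one]
    rw [e1, RatAt, pw_add, pw_add, pw_single, pow_one]
    exact ⟨g * g', Submodule.mul_mem_mul hg hg', l * l', Submodule.mul_mem_mul hl hl',
      fun hc => (hB _ _ g hg g' hg' hc).elim g0 g0',
      fun hc => (hL _ _ l hl l' hl1 hc).elim l0 l0', rat_mul hx hx'⟩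

theorem pw_split [DecidableEq ι] (L : ι → Submodule Ω A) {f : κ → ι} (hi : Injective f)
    [DecidablePred (· ∈ Set.range f)] (d : ι → ℕ) :
    pw L d = pw L (fun i => if i ∈ Set.range f then 0 else d i) * pw (L ∘ f) (d ∘ f) := by
  rw [← pw_extend L hi, ← pw_add]
  congr 1
  funext i
  by_cases h : i ∈ Set.range f
  · obtain ⟨j, rfl⟩ := h
    rw [Pi.add_apply, hi.extend_apply, if_pos ⟨j, rfl⟩, zero_add]; rfl
  · rw [Pi.add_apply, extend_apply' _ _ _ h, if_neg h]; simp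

/-- rational members do not raise the degree -/
theorem dg_of_rat (L : ι → Submodule Ω A) [∀ i, FiniteDimensional Ω (L i)] {f : κ → ι}
    (hi : Injective f) (hL : NoZD (pw L)) (hrat : ∀ i, i ∉ Set.range f → RatOver (L ∘ f) (L i))
    {P : MvPolynomial ι ℚ} {Q : MvPolynomial κ ℚ} (hP : EvP (hw L) P) (hQ : EvP (hw (L ∘ f)) Q)
    {n : ℤ} (dQ : Dg Q n) : Dg P n := by
  classical
  rcases subsingleton_or_nontrivial A with hA | hA
  · rw [evP_zero_of_subsingleton hP]; exact dg_zero n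
  have ex : ∀ i, ∃ e, i ∉ Set.range f → RatAt (L ∘ f) (L i) e := fun i => by
    by_cases h : i ∈ Set.range f
    · exact ⟨0, fun h' => absurd h h'⟩
    · exact (hrat i h).imp fun _ he _ => he
  choose e he using ex
  let s : (ι → ℕ) → κ → ℕ := fun d =>
    (∑ i, (if i ∈ Set.range f then 0 else d i) • e i) + d ∘ f
  let g : κ → MvPolynomial ι ℚ := fun j =>
    (∑ i, C (if i ∈ Set.range f then 0 else (e i j : ℚ)) * X i) + X (f j)
  have hg : ∀ j, Dg (g j) 1 := fun j =>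
    (Dg.sum fun i _ => (dg_X i).C_mul _).add (dg_X _)
  have hev : ∀ d, evN d (aeval g Q) = evN (s d) Q := fun d => by
    rw [evN, eval_aev, evN]
    congr 2
    funext j
    simp only [g, s, map_add, map_sum, map_mul, eval_C, eval_X, Pi.add_apply, Finset.sum_apply,
      Pi.smul_apply, smul_eq_mul, comp_apply]
    push_cast
    congr 1
    refine Finset.sum_congr rfl fun i _ => ?_
    split_ifs <;> simp [mul_comm]
  have hQ' : EvP (fun d => hw (L ∘ f) (s d)) (aeval g Q) := by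
    obtain ⟨N, hN⟩ : ∃ N : ℕ, ∀ d : κ → ℕ, (∀ i, N ≤ d i) → evN d Q = hw (L ∘ f) d := hQ
    exact ⟨N, fun d hd => (hev d).trans (hN _ fun j => (hd (f j)).trans (Nat.le_add_left _ _))⟩
  refine hP.dg_of_le hQ' (dQ.aeval_lin hg) (Lg.of_forall fun d => ⟨Nat.cast_nonneg _, ?_⟩)
  obtain ⟨u, hu, l, -, u0, -, hx⟩ := ratAt_pw hL (hL.comp hi) e
    (fun i => if i ∈ Set.range f then 0 else d i) fun i h => he i fun h' => h (if_pos h')
  have h1 := rat_mul hx (rat_refl (pw (L ∘ f) (d ∘ f)))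
  rw [← pw_split L hi, ← pw_add, mul_one, mul_one] at h1
  rw [hw_eq, hw_eq, Nat.cast_le]
  refine finrank_le_of_rat (fun x hx h0 => ?_) h1
  rw [← pw_extend L hi] at hu
  exact (hL _ _ u hu x hx h0).resolve_left u0

theorem isRk_one_of_rat {L : ι → Submodule Ω A} {f : κ → ι} (hi : Injective f)
    (hL : NoZD (pw L)) {m : ι → ℕ} (h : RatOver (L ∘ f) (pw L m)) :
    IsRk (pw (L ∘ f)) (pw L m) 1 := by
  obtain ⟨e, g, hg, l, hl, g0, l0, hx⟩ := h
  refine isRk_one hl (fun a y hy h0 => ?_) fun x hx' => ?_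
  · rw [← pw_extend L hi] at hy
    exact (hL _ _ y hy l hl h0).resolve_right l0
  · obtain ⟨y, hy, e1⟩ := hx x hx'
    exact ⟨e, g, hg, g0, y, hy, by rw [e1, mul_comm]⟩

/-- FG: rational members can be forgotten -/
theorem fg_coeff (L : ι → Submodule Ω A) [∀ i, FiniteDimensional Ω (L i)] {f : κ → ι}
    (hi : Injective f) (hL : NoZD (pw L)) (hrat : ∀ i, i ∉ Set.range f → RatOver (L ∘ f) (L i))
    {P : MvPolynomial ι ℚ} {Q : MvPolynomial κ ℚ} (hP : EvP (hw L) P) (hQ : EvP (hw (L ∘ f)) Q)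
    {n : ℤ} (dQ : Dg Q n) (α : κ →₀ ℕ) (hα : n ≤ α.degree) :
    coeff (α.mapDomain f) P = coeff α Q := by
  classical
  rcases subsingleton_or_nontrivial A with hA | hA
  · rw [evP_zero_of_subsingleton hP, evP_zero_of_subsingleton hQ]; rfl
  obtain ⟨N, hN⟩ := rk_coeff L hi (hL.comp hi) hP hQ (dg_of_rat L hi hL hrat hP hQ dQ) dQ
  have ex : ∀ i, ∃ e, i ∉ Set.range f → RatAt (L ∘ f) (L i) e := fun i => by
    by_cases h : i ∈ Set.range f
    · exact ⟨0, fun h' => absurd h h'⟩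
    · exact (hrat i h).imp fun _ he _ => he
  choose e he using ex
  have h1 := hN (fun i => if i ∈ Set.range f then 0 else N) (fun i h => by rw [if_neg h]) 1
    (isRk_one_of_rat hi hL ⟨_, ratAt_pw hL (hL.comp hi) e _
      fun i h => he i fun h' => h (if_pos h')⟩) α hα
  rwa [Nat.cast_one, one_mul] at h1

/-- the rank does not see rational members of the base family -/
theorem IsRk.add_rat [Nontrivial A] {κ₀ : Type} [Fintype κ₀] {L : ι → Submodule Ω A} {f : κ → ι}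
    (hi : Injective f) {g : κ₀ → κ} (hg : Injective g) (hL : NoZD (pw L))
    (hrat : ∀ k, k ∉ Set.range g → RatOver (L ∘ f ∘ g) (L (f k))) {m : ι → ℕ} {r : ℕ}
    (h : IsRk (pw (L ∘ f ∘ g)) (pw L m) r) : IsRk (pw (L ∘ f)) (pw L m) r := by
  classical
  refine h.transfer (fun a => ⟨extend g a 0, (pw_extend (L ∘ f) hg a).ge⟩) fun a' => ?_
  have ex : ∀ k, ∃ e, k ∉ Set.range g → RatAt (L ∘ f ∘ g) (L (f k)) e := fun k => by
    by_cases h : k ∈ Set.range g
    · exact ⟨0, fun h' => absurd h h'⟩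
    · exact (hrat k h).imp fun _ he _ => he
  choose e he using ex
  obtain ⟨u, hu, l, hl, u0, l0, hx⟩ := ratAt_pw (hL.comp hi) (hL.comp (hi.comp hg)) e
    (fun k => if k ∈ Set.range g then 0 else a' k) fun k h => he k fun h' => h (if_pos h')
  have h1 := rat_mul hx (rat_refl (pw (L ∘ f ∘ g) (a' ∘ g)))
  rw [← pw_add, mul_one, mul_one] at h1
  refine ⟨_, u, l, fun y hy h0 => ?_, fun z hz h0 => ?_, by
    rw [pw_split (L ∘ f) hg a']; exact h1⟩
  · rw [← pw_extend L (hi.comp hg)] at hu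
    rw [← pw_extend L hi] at hy
    exact (hL _ _ u hu y hy h0).resolve_left u0
  · rw [← pw_extend L (hi.comp hg), ← pw_add] at hz
    rw [← pw_extend L hi] at hl
    exact (hL _ _ l hl z hz h0).resolve_left l0

/-- for a base of full dimension the rank is constant in large degree -/
theorem rk_const [Nontrivial A] (L : ι → Submodule Ω A) [∀ i, FiniteDimensional Ω (L i)]
    {f : κ → ι} (hi : Injective f) (hdom : NoZD (pw (L ∘ f))) {P : MvPolynomial ι ℚ}
    {Q : MvPolynomial κ ℚ} (hP : EvP (hw L) P) (hQ : EvP (hw (L ∘ f)) Q) {n : ℤ} (dP : Dg P n)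
    (dQ : Dg Q n) (hn : ¬ Dg Q (n - 1)) :
    ∃ r N : ℕ, ∀ m : ι → ℕ, (∀ i, i ∉ Set.range f → N ≤ m i) →
      IsRk (pw (L ∘ f)) (pw L m) r ∧ ∀ r', IsRk (pw (L ∘ f)) (pw L m) r' → r' = r := by
  obtain ⟨N, hN⟩ := rk_coeff L hi hdom hP hQ dP dQ
  simp only [Dg, not_forall] at hn
  obtain ⟨α, hα, h0⟩ := hn
  have ex := fun m => exists_isRk (pw (L ∘ f)) (one_mem_pw _) (fun a b => (pw_add _ a b).ge) hdom
    (pw L m)
  obtain ⟨r, hr⟩ := ex fun _ => N
  have uq : ∀ m : ι → ℕ, (∀ i, i ∉ Set.range f → N ≤ m i) →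
      ∀ r', IsRk (pw (L ∘ f)) (pw L m) r' → r' = r := fun m hm r' hr' => by
    have h1 := hN m hm r' hr' α (by omega)
    rw [hN _ (fun _ _ => le_rfl) r hr α (by omega)] at h1
    exact_mod_cast (mul_right_cancel₀ h0 h1).symm
  refine ⟨r, N, fun m hm => ⟨?_, uq m hm⟩⟩
  obtain ⟨r', hr'⟩ := ex m
  exact uq m hm r' hr' ▸ hr'

instance fd_elim (L : ι → Submodule Ω A) (B : κ → Submodule Ω A)
    [∀ i, FiniteDimensional Ω (L i)] [∀ j, FiniteDimensional Ω (B j)] (i : ι ⊕ κ) :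
    FiniteDimensional Ω (Sum.elim L B i : Submodule Ω A) :=
  match i with
  | .inl i => inferInstanceAs (FiniteDimensional Ω (L i))
  | .inr j => inferInstanceAs (FiniteDimensional Ω (B j))

/-- PUSH: one number `r` serves all families rational over the base `B` -/
theorem push_coeff' {ι₀ κ₀ : Type} [Fintype ι₀] [Fintype κ₀] (L0 : ι₀ → Submodule Ω A)
    (B : κ₀ → Submodule Ω A) [∀ i, FiniteDimensional Ω (L0 i)] [∀ j, FiniteDimensional Ω (B j)]
    {P0 : MvPolynomial (ι₀ ⊕ κ₀) ℚ} {Q0 : MvPolynomial κ₀ ℚ} (hP0 : EvP (hw (Sum.elim L0 B)) P0)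
    (hQ0 : EvP (hw B) Q0) {n : ℤ} (dP0 : Dg P0 n) (dQ0 : Dg Q0 n) :
    ∃ r : ℕ, (Nontrivial A → NoZD (pw B) → ¬ Dg Q0 (n - 1) →
      ∃ N : ℕ, ∀ m : ι₀ → ℕ, (∀ i, N ≤ m i) → IsRk (pw B) (pw L0 m) r) ∧
      ∀ (ι κ : Type) [Fintype ι] [Fintype κ] (L : ι → Submodule Ω A)
      [∀ i, FiniteDimensional Ω (L i)] (h : ι₀ → ι) (f : κ → ι) (g : κ₀ → κ),
      Injective h → Injective f → Injective g → L ∘ h = L0 → L ∘ f ∘ g = B →
      (∀ i, i ∈ Set.range h ↔ i ∉ Set.range f) → NoZD (pw L) →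
      (∀ k, k ∉ Set.range g → RatOver B (L (f k))) →
      ∀ (P : MvPolynomial ι ℚ) (Q : MvPolynomial κ ℚ), EvP (hw L) P → EvP (hw (L ∘ f)) Q →
        Dg P n ∧ Dg Q n ∧
          ∀ α : κ →₀ ℕ, n ≤ α.degree → coeff (α.mapDomain f) P = r * coeff α Q := by
  have key : ∃ r : ℕ, Nontrivial A → NoZD (pw B) → ¬ Dg Q0 (n - 1) →
      ∃ N : ℕ, ∀ m : ι₀ → ℕ, (∀ i, N ≤ m i) → IsRk (pw B) (pw L0 m) r := by
    by_cases hc : Nontrivial A ∧ NoZD (pw B) ∧ ¬ Dg Q0 (n - 1)
    · obtain ⟨hA, hB, hn⟩ := hc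
      obtain ⟨r, N, hN⟩ := rk_const (Sum.elim L0 B) Sum.inr_injective hB hP0 hQ0 dP0 dQ0 hn
      refine ⟨r, fun _ _ _ => ⟨N, fun m hm => ?_⟩⟩
      have := (hN (extend Sum.inl m 0) fun i hi => by
        cases i with
        | inl i => rw [Sum.inl_injective.extend_apply]; exact hm i
        | inr j => exact absurd ⟨j, rfl⟩ hi).1
      rwa [pw_extend _ Sum.inl_injective] at this
    · exact ⟨0, fun h1 h2 h3 => absurd ⟨h1, h2, h3⟩ hc⟩
  obtain ⟨r, hr⟩ := key
  refine ⟨r, hr, fun ι κ _ _ L _ h f g hh hi hg e0 eB hc hL hrat P Q hP hQ => ?_⟩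
  subst e0 eB
  have hinj : Injective (Sum.elim h (f ∘ g)) :=
    hh.sumElim (hi.comp hg) fun a b e => (hc _).1 ⟨a, rfl⟩ ⟨g b, e.symm⟩
  have e1 : L ∘ Sum.elim h (f ∘ g) = Sum.elim (L ∘ h) (L ∘ f ∘ g) := by
    funext i; cases i <;> rfl
  have dQ' : ∀ k : ℤ, Dg Q0 k → Dg Q k := fun k =>
    dg_of_rat (L ∘ f) hg (hL.comp hi) hrat hQ hQ0
  have dP : Dg P n := by
    refine dg_of_rat L hinj hL (fun i hi' => ?_) hP (by rw [e1]; exact hP0) dP0
    have h1 : i ∈ Set.range f := by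
      by_contra h2
      obtain ⟨a, rfl⟩ := (hc i).2 h2
      exact hi' ⟨Sum.inl a, rfl⟩
    obtain ⟨k, rfl⟩ := h1
    refine RatOver.mono Sum.inr_injective (hrat k ?_)
    rintro ⟨j, rfl⟩
    exact hi' ⟨Sum.inr j, rfl⟩
  refine ⟨dP, dQ' n dQ0, fun α hα => ?_⟩
  rcases subsingleton_or_nontrivial A with hA | hA
  · rw [evP_zero_of_subsingleton hP, evP_zero_of_subsingleton hQ]; simp
  obtain ⟨N, hN⟩ := rk_coeff L hi (hL.comp hi) hP hQ dP (dQ' n dQ0)
  by_cases hn : Dg Q0 (n - 1)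
  · obtain ⟨r', hr'⟩ := exists_isRk (pw (L ∘ f)) (one_mem_pw _) (fun a b => (pw_add _ a b).ge)
      (hL.comp hi) (pw L fun _ => N)
    rw [hN _ (fun _ _ => le_rfl) r' hr' α hα, dQ' _ hn α (by omega), mul_zero, mul_zero]
  · obtain ⟨N', hN'⟩ := hr hA (hL.comp (hi.comp hg)) hn
    have h1 := hN' (fun _ => max N N') fun _ => le_max_right _ _
    rw [← pw_extend L hh] at h1
    refine hN _ (fun i hi' => ?_) r (h1.add_rat hi hg hL hrat) α hα
    obtain ⟨a, rfl⟩ := (hc i).2 hi'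
    rw [hh.extend_apply]
    exact le_max_left _ _

/-- PUSH, short form: one number `r` serves all families rational over the base `B` -/
theorem push_coeff {ι₀ κ₀ : Type} [Fintype ι₀] [Fintype κ₀] (L0 : ι₀ → Submodule Ω A)
    (B : κ₀ → Submodule Ω A) [∀ i, FiniteDimensional Ω (L0 i)] [∀ j, FiniteDimensional Ω (B j)]
    {P0 : MvPolynomial (ι₀ ⊕ κ₀) ℚ} {Q0 : MvPolynomial κ₀ ℚ} (hP0 : EvP (hw (Sum.elim L0 B)) P0)
    (hQ0 : EvP (hw B) Q0) {n : ℤ} (dP0 : Dg P0 n) (dQ0 : Dg Q0 n) :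
    ∃ r : ℕ, ∀ (ι κ : Type) [Fintype ι] [Fintype κ] (L : ι → Submodule Ω A)
      [∀ i, FiniteDimensional Ω (L i)] (h : ι₀ → ι) (f : κ → ι) (g : κ₀ → κ),
      Injective h → Injective f → Injective g → L ∘ h = L0 → L ∘ f ∘ g = B →
      (∀ i, i ∈ Set.range h ↔ i ∉ Set.range f) → NoZD (pw L) →
      (∀ k, k ∉ Set.range g → RatOver B (L (f k))) →
      ∀ (P : MvPolynomial ι ℚ) (Q : MvPolynomial κ ℚ), EvP (hw L) P → EvP (hw (L ∘ f)) Q →
        Dg P n ∧ Dg Q n ∧
          ∀ α : κ →₀ ℕ, n ≤ α.degree → coeff (α.mapDomain f) P = r * coeff α Q :=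
  (push_coeff' L0 B hP0 hQ0 dP0 dQ0).imp fun _ h => h.2

end Fam

end Pool.Agent.Tav
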