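import Pool.Agent.P.MP_2ce3e7_ag.Tav.GDefs
import Pool.Agent.P.MP_2ce3e7_ag.Tav.RKc

/-! Basic facts on linear systems: pieces, pull-back, scaling, reindexing, regularity. -/

set_option autoImplicit false

noncomputable section

namespace Pool.Agent.Tav

open MvPolynomial Module

variable {Ω : Type} [Field Ω] {T Y : Type} {β γ ν κ : Type}
  [Fintype β] [Fintype γ] [Fintype ν] [Fintype κ]

theorem pc_eq_pw (B : β → LS Ω T) (d : β → ℕ) : pc B d = pw (fun i => (B i).sp) d := rfl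

instance fd_pc (B : β → LS Ω T) (d : β → ℕ) : FiniteDimensional Ω (pc B d) :=
  fd_pw (fun i => (B i).sp) d

theorem pc_zero (B : β → LS Ω T) : pc B 0 = 1 := pw_zero _

theorem one_mem_pc (B : β → LS Ω T) : (1 : T → Ω) ∈ pc B 0 := one_mem_pw _

theorem pc_add (B : β → LS Ω T) (a b : β → ℕ) : pc B (a + b) = pc B a * pc B b := pw_add _ a b

theorem mul_mem_pc {B : β → LS Ω T} {a b : β → ℕ} {f g : T → Ω} (hf : f ∈ pc B a)
    (hg : g ∈ pc B b) : f * g ∈ pc B (a + b) := by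
  rw [pc_add]
  exact Submodule.mul_mem_mul hf hg

theorem pc_single [DecidableEq β] (B : β → LS Ω T) (i : β) (k : ℕ) :
    pc B (Pi.single i k) = (B i).sp ^ k := pw_single _ i k

theorem pc_elim (B : β → LS Ω T) (W : ν → LS Ω T) (d : β ⊕ ν → ℕ) :
    pc (Sum.elim B W) d = pc B (d ∘ Sum.inl) * pc W (d ∘ Sum.inr) := by
  simp only [pc, Fintype.prod_sum_type]
  rfl

theorem pc_comp [DecidableEq β] (B : β → LS Ω T) (g : κ → β) (d : κ → ℕ) :
    pc (B ∘ g) d = pc B (fib g d) := by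
  unfold pc
  rw [← Finset.prod_fiberwise Finset.univ g]
  refine Finset.prod_congr rfl fun i _ => ?_
  rw [fib, ← Finset.prod_pow_eq_pow_sum]
  exact Finset.prod_congr rfl fun k hk => by
    rw [Function.comp_apply, (Finset.mem_filter.1 hk).2]

theorem pc_nv (B : β → LS Ω T) (d : β → ℕ) (t : T) : ∃ u ∈ pc B d, u t ≠ 0 := by
  classical
  induction d using vec_ind with
  | h0 => exact ⟨1, one_mem_pc B, one_ne_zero⟩
  | hs i m ih =>
    obtain ⟨u, hu, h⟩ := ih
    obtain ⟨v, hv, h'⟩ := (B i).nv t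
    refine ⟨u * v, mul_mem_pc hu ?_, mul_ne_zero h h'⟩
    rwa [pc_single, pow_one]

theorem evP_pL (B : β → LS Ω T) : EvP (fun d => (finrank Ω (pc B d) : ℚ)) (pL B) :=
  evP_pf fun i => (B i).sp

theorem pL_congr {T' : Type} {B : β → LS Ω T} {B' : β → LS Ω T'}
    (h : Lg fun d => finrank Ω (pc B d) = finrank Ω (pc B' d)) : pL B = pL B' := hP_congr h

theorem map_prod_pow {A A' ι : Type} [CommRing A] [CommRing A'] [Algebra Ω A] [Algebra Ω A']
    [Fintype ι] (φ : A →ₐ[Ω] A') (L : ι → Submodule Ω A) (d : ι → ℕ) :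
    (∏ i, L i ^ d i).map φ.toLinearMap = ∏ i, (L i).map φ.toLinearMap ^ d i := by
  have := map_prod (Submodule.mapHom φ) (fun i => L i ^ d i) Finset.univ
  simp only [map_pow] at this
  exact this

theorem pc_pb (j : T → Y) (C : γ → LS Ω Y) (d : γ → ℕ) :
    pc (fun i => (C i).pb j) d = (pc C d).map (pbA Ω j).toLinearMap :=
  (map_prod_pow (pbA Ω j) (fun i => (C i).sp) d).symm

theorem pb_mem_pc (j : T → Y) {C : γ → LS Ω Y} {d : γ → ℕ} {u : Y → Ω} (hu : u ∈ pc C d) :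
    pbA Ω j u ∈ pc (fun i => (C i).pb j) d := by
  rw [pc_pb]
  exact ⟨u, hu, rfl⟩

theorem LS.ext' {V V' : LS Ω T} (h : V.sp = V'.sp) : V = V' := by
  cases V
  cases V'
  cases h
  rfl

theorem LS.mem_pb {j : T → Y} {V : LS Ω Y} {u : T → Ω} :
    u ∈ (V.pb j).sp ↔ ∃ v ∈ V.sp, pbA Ω j v = u := Iff.rfl

theorem LS.pb_pb {Z : Type} (i : Z → T) (j : T → Y) (V : LS Ω Y) :
    (V.pb j).pb i = V.pb (j ∘ i) := LS.ext' (Submodule.map_comp _ _ _).symm

theorem LS.pb_id (V : LS Ω T) : V.pb id = V := LS.ext' (Submodule.map_id _)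

theorem LS.pb_co {s : Type} [Finite s] (j : T → Y) (p : Y → s → Ω) (hp : ∀ y, p y ≠ 0) :
    (LS.co p hp).pb j = LS.co (fun t => p (j t)) fun t => hp (j t) := by
  refine LS.ext' ?_
  change Submodule.map _ (Submodule.span Ω _) = Submodule.span Ω _
  rw [Submodule.map_span, ← Set.range_comp]
  rfl

theorem LS.pb_one (j : T → Y) : (LS.one Ω Y).pb j = LS.one Ω T :=
  LS.ext' (Submodule.map_one (pbA Ω j))

omit [Fintype β] in
theorem LS.pb_blk {σ : Type} [Finite σ] (w : σ → β) (x : Y → σ → Ω)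
    (hx : ∀ t b, ∃ v, w v = b ∧ x t v ≠ 0) (j : T → Y) (b : β) :
    (LS.blk w x hx b).pb j = LS.blk w (fun t => x (j t)) (fun t => hx (j t)) b := by
  refine LS.ext' ?_
  change Submodule.map _ (Submodule.span Ω _) = Submodule.span Ω _
  rw [Submodule.map_span, ← Set.image_comp]
  rfl

theorem LS.mem_co {s : Type} [Finite s] (p : T → s → Ω) (hp : ∀ t, p t ≠ 0) (i : s) :
    (fun t => p t i) ∈ (LS.co p hp).sp := Submodule.subset_span ⟨i, rfl⟩

theorem LS.sim_co {s : Type} [Finite s] {p q : T → s → Ω} (hp : ∀ t, p t ≠ 0) (hq : ∀ t, q t ≠ 0)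
    (h : ∀ t, ∃ c : Ω, q t = c • p t) : (LS.co p hp).Sim (LS.co q hq) := by
  choose c hc using h
  refine ⟨c, fun t h0 => hq t (by rw [hc t, h0, zero_smul]), ?_⟩
  change Submodule.span Ω _ = Submodule.map _ (Submodule.span Ω _)
  rw [Submodule.map_span, ← Set.range_comp]
  congr 2
  funext i t
  rw [hc t]
  rfl

theorem LS.Sim.refl (V : LS Ω T) : V.Sim V :=
  ⟨1, fun _ => one_ne_zero, by rw [LinearMap.mulLeft_one, Submodule.map_id]⟩

theorem LS.Sim.symm {V V' : LS Ω T} (h : V.Sim V') : V'.Sim V := by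
  obtain ⟨l, hl, e⟩ := h
  refine ⟨l⁻¹, fun t => inv_ne_zero (hl t), ?_⟩
  have h1 : l⁻¹ * l = 1 := funext fun t => inv_mul_cancel₀ (hl t)
  rw [e, ← Submodule.map_comp, ← LinearMap.mulLeft_mul, h1, LinearMap.mulLeft_one,
    Submodule.map_id]

theorem LS.Sim.trans {V V' V'' : LS Ω T} (h : V.Sim V') (h' : V'.Sim V'') : V.Sim V'' := by
  obtain ⟨l, hl, e⟩ := h
  obtain ⟨l', hl', e'⟩ := h'
  refine ⟨l' * l, fun t => mul_ne_zero (hl' t) (hl t), ?_⟩
  rw [e', e, ← Submodule.map_comp, ← LinearMap.mulLeft_mul]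

theorem LS.Sim.pb {V V' : LS Ω Y} (h : V.Sim V') (j : T → Y) : (V.pb j).Sim (V'.pb j) := by
  obtain ⟨l, hl, e⟩ := h
  refine ⟨pbA Ω j l, fun t => hl (j t), ?_⟩
  change Submodule.map _ V'.sp = Submodule.map _ (Submodule.map _ V.sp)
  rw [e, ← Submodule.map_comp, ← Submodule.map_comp]
  rfl

theorem map_mulLeft_eq {A : Type} [CommRing A] [Algebra Ω A] (U : Submodule Ω A) (l : A) :
    U.map (LinearMap.mulLeft Ω l) = Submodule.span Ω {l} * U := by
  ext x
  rw [Submodule.mem_span_singleton_mul, Submodule.mem_map]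
  rfl

theorem finrank_map_unit (U : Submodule Ω (T → Ω)) {l : T → Ω} (hl : ∀ t, l t ≠ 0) :
    finrank Ω (U.map (LinearMap.mulLeft Ω l)) = finrank Ω U := by
  refine (Submodule.equivMapOfInjective _ ?_ U).finrank_eq.symm
  intro x y h
  funext t
  exact mul_left_cancel₀ (hl t) (congrFun h t)

theorem pc_sim {B B' : β → LS Ω T} (h : ∀ i, (B i).Sim (B' i)) (d : β → ℕ) :
    ∃ l : T → Ω, (∀ t, l t ≠ 0) ∧ pc B' d = (pc B d).map (LinearMap.mulLeft Ω l) := by
  classical
  induction d using vec_ind with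
  | h0 => exact ⟨1, fun _ => one_ne_zero, by
      rw [LinearMap.mulLeft_one, Submodule.map_id, pc_zero, pc_zero]⟩
  | hs i m ih =>
    obtain ⟨l, hl, e⟩ := ih
    obtain ⟨l', hl', e'⟩ := h i
    refine ⟨l * l', fun t => mul_ne_zero (hl t) (hl' t), ?_⟩
    rw [pc_add, pc_add, pc_single, pc_single, pow_one, pow_one, e, e', map_mulLeft_eq,
      map_mulLeft_eq, map_mulLeft_eq, mul_mul_mul_comm, Submodule.span_mul_span,
      Set.singleton_mul_singleton]

theorem pL_sim {B B' : β → LS Ω T} (h : ∀ i, (B i).Sim (B' i)) : pL B = pL B' :=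
  pL_congr (Lg.of_forall fun d => by
    obtain ⟨l, hl, e⟩ := pc_sim h d
    rw [e, finrank_map_unit _ hl])

theorem mix_sim {B B' : β → LS Ω T} {W W' : ν → LS Ω T} (h : ∀ i, (B i).Sim (B' i))
    (h' : ∀ i, (W i).Sim (W' i)) : mix B W = mix B' W' := by
  unfold mix
  rw [pL_sim (B' := Sum.elim B' W')]
  rintro (i | i)
  exacts [h i, h' i]

omit [Fintype β] in
theorem slots_inl (b : β) : slots β ν (Sum.inl b) = 0 := by
  classical
  simp [slots, Finsupp.finsetSum_apply]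

omit [Fintype β] in
theorem slots_inr (j : ν) : slots β ν (Sum.inr j) = 1 := by
  classical
  simp [slots, Finsupp.finsetSum_apply, Finsupp.single_apply]

omit [Fintype β] in
theorem degree_slots : (slots β ν).degree = Fintype.card ν := by
  simp [slots, map_sum, Finsupp.degree_single]

omit [Fintype β] in
theorem mapDomain_slots {ι : Type} (g : β ⊕ ν → ι) :
    (slots β ν).mapDomain g = ∑ j : ν, Finsupp.single (g (Sum.inr j)) 1 := by
  rw [slots, Finsupp.mapDomain_finsetSum]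
  simp only [Finsupp.mapDomain_single]

theorem mix_eq_nc (B : β → LS Ω T) (W : ν → LS Ω T) :
    mix B W = nc (slots β ν) (pL (Sum.elim B W)) := by
  have : ((slots β ν).prod fun _ k => k.factorial) = 1 := by
    refine Finset.prod_eq_one ?_
    rintro (b | j) _
    · rw [slots_inl]; rfl
    · rw [slots_inr]; rfl
  rw [nc_apply, this, Nat.cast_one, one_mul, mix]

theorem nc_pL_comp (B : β → LS Ω T) {g : κ → β} (hg : Function.Surjective g) (s : κ →₀ ℕ) :
    nc s (pL (B ∘ g)) = nc (s.mapDomain g) (pL B) := by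
  classical
  exact nc_pf_comp (fun i => (B i).sp) hg s

theorem dg_pL_comp {B : β → LS Ω T} {n : ℤ} (h : Dg (pL B) n) {g : κ → β}
    (hg : Function.Surjective g) : Dg (pL (B ∘ g)) n := fun s hs => nc_eq_zero.1 (by
  rw [nc_pL_comp B hg, nc_eq_zero]
  exact h _ (by rwa [degree_mapDomain']))

/-- repeated slots -/
theorem mix_comp (B : β → LS Ω T) (V : κ → LS Ω T) {g : ν → κ} (hg : Function.Surjective g) :
    mix B (V ∘ g) = nc (∑ j : ν, Finsupp.single (Sum.inr (g j)) 1) (pL (Sum.elim B V)) := by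
  have e : Sum.elim B (V ∘ g) = Sum.elim B V ∘ Sum.map id g := by
    funext i
    cases i <;> rfl
  rw [mix_eq_nc, e, nc_pL_comp _ (Function.surjective_id.sumMap hg), mapDomain_slots]
  rfl

theorem mix_equiv (B : β → LS Ω T) (W : ν → LS Ω T) (e : κ ≃ ν) : mix B (W ∘ e) = mix B W := by
  rw [mix_comp B W e.surjective, mix_eq_nc, slots,
    e.sum_comp fun j => Finsupp.single (Sum.inr j : β ⊕ ν) 1]

theorem mix_surj_base (B : β → LS Ω T) (W : ν → LS Ω T) {g : γ → β} (hg : Function.Surjective g) :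
    mix (B ∘ g) W = mix B W := by
  have e : Sum.elim (B ∘ g) W = Sum.elim B W ∘ Sum.map g id := by
    funext i
    cases i <;> rfl
  rw [mix_eq_nc, e, nc_pL_comp _ (hg.sumMap Function.surjective_id), mapDomain_slots, mix_eq_nc]
  rfl

theorem mix_equiv_base (B : β → LS Ω T) (W : ν → LS Ω T) (e : γ ≃ β) :
    mix (B ∘ e) W = mix B W := mix_surj_base B W e.surjective

/-- slots taken from the base -/
theorem mix_self (B : β → LS Ω T) (g : ν → β) :
    mix B (B ∘ g) = nc (∑ j : ν, Finsupp.single (g j) 1) (pL B) := by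
  have e : Sum.elim B (B ∘ g) = B ∘ Sum.elim id g := by
    funext i
    cases i <;> rfl
  rw [mix_eq_nc, e, nc_pL_comp _ (fun b => ⟨Sum.inl b, rfl⟩), mapDomain_slots]
  rfl

theorem Reg.self (B : β → LS Ω T) (i : β) : Reg B (B i) := by
  classical
  exact fun _ => ⟨Pi.single i 1, 1, one_ne_zero, fun u hu => by rwa [one_mul, pc_single, pow_one]⟩

theorem Reg.one (B : β → LS Ω T) : Reg B (LS.one Ω T) :=
  fun _ => ⟨0, 1, one_ne_zero, fun u hu => by rwa [one_mul, pc_zero]⟩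

theorem Reg.of_le {B : β → LS Ω T} {V : LS Ω T} {e : β → ℕ} (h : V.sp ≤ pc B e) : Reg B V :=
  fun _ => ⟨e, 1, one_ne_zero, fun u hu => by rw [one_mul]; exact h hu⟩

theorem Reg.sim {B : β → LS Ω T} {V V' : LS Ω T} (h : Reg B V) (e : V.Sim V') : Reg B V' := by
  obtain ⟨l, hl, e⟩ := e
  intro t
  obtain ⟨a, m, hm, h⟩ := h t
  refine ⟨a, m * l⁻¹, mul_ne_zero hm (inv_ne_zero (hl t)), ?_⟩
  rw [e]
  rintro _ ⟨u, hu, rfl⟩
  have h1 : l⁻¹ * l = 1 := funext fun t => inv_mul_cancel₀ (hl t)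
  rw [LinearMap.mulLeft_apply, mul_assoc, ← mul_assoc l⁻¹, h1, one_mul]
  exact h u hu

/-- a whole piece of a regular family is given by forms in the base near a point -/
theorem reg_pc {B : β → LS Ω T} {C : γ → LS Ω T} (h : ∀ k, Reg B (C k)) (t : T) (d : γ → ℕ) :
    ∃ (e : β → ℕ) (lam : T → Ω), lam t ≠ 0 ∧ ∀ u ∈ pc C d, lam * u ∈ pc B e := by
  classical
  induction d using vec_ind with
  | h0 => exact ⟨0, 1, one_ne_zero, fun u hu => by rwa [one_mul, pc_zero, ← pc_zero C]⟩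
  | hs i m ih =>
    obtain ⟨e, l, hl, h1⟩ := ih
    obtain ⟨e', l', hl', h2⟩ := h i t
    refine ⟨e + e', l * l', mul_ne_zero hl hl', fun u hu => ?_⟩
    rw [pc_add, pc_single, pow_one] at hu
    refine Submodule.mul_induction_on hu (fun a ha b hb => ?_) fun a b ha hb => ?_
    · rw [mul_mul_mul_comm]
      exact mul_mem_pc (h1 a ha) (h2 b hb)
    · rw [mul_add]
      exact Submodule.add_mem _ ha hb

theorem Reg.trans {B : β → LS Ω T} {C : γ → LS Ω T} {V : LS Ω T} (h : ∀ k, Reg B (C k))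
    (h' : Reg C V) : Reg B V := by
  intro t
  obtain ⟨d, m, hm, h1⟩ := h' t
  obtain ⟨e, l, hl, h2⟩ := reg_pc h t d
  exact ⟨e, l * m, mul_ne_zero hl hm, fun u hu => by rw [mul_assoc]; exact h2 _ (h1 u hu)⟩

theorem Reg.pb {C : γ → LS Ω Y} {V : LS Ω Y} (h : Reg C V) (j : T → Y) :
    Reg (fun i => (C i).pb j) (V.pb j) := by
  intro t
  obtain ⟨e, l, hl, h1⟩ := h (j t)
  refine ⟨e, pbA Ω j l, hl, ?_⟩
  rintro _ ⟨u, hu, rfl⟩
  have := pb_mem_pc j (h1 u hu)
  rwa [map_mul] at this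

theorem Reg.inl {B : β → LS Ω T} (W : ν → LS Ω T) {V : LS Ω T} (h : Reg B V) :
    Reg (Sum.elim B W) V := Reg.trans (fun k => Reg.self (Sum.elim B W) (Sum.inl k)) h

theorem Reg.inr (B : β → LS Ω T) {W : ν → LS Ω T} {V : LS Ω T} (h : Reg W V) :
    Reg (Sum.elim B W) V := Reg.trans (fun k => Reg.self (Sum.elim B W) (Sum.inr k)) h

omit [Fintype ν] [Fintype κ] in
theorem reg_elim {B : β → LS Ω T} {W : ν → LS Ω T} {V : κ → LS Ω T} (h : ∀ k, Reg B (W k))
    (h' : ∀ k, Reg B (V k)) : ∀ k, Reg B (Sum.elim W V k) := by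
  rintro (k | k)
  exacts [h k, h' k]

omit [Fintype ν] in
theorem reg_update [DecidableEq ν] {B : β → LS Ω T} {W : ν → LS Ω T} {V : LS Ω T}
    (h : ∀ k, Reg B (W k)) (h' : Reg B V) (i k : ν) : Reg B (Function.update W i V k) := by
  by_cases hk : k = i
  · subst hk
    rwa [Function.update_self]
  · rw [Function.update_of_ne hk]
    exact h k

theorem aeval_fun {σ : Type} (x : T → σ → Ω) (G : MvPolynomial σ Ω) :
    aeval (fun v t => x t v) G = fun t => eval (x t) G := by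
  induction G using MvPolynomial.induction_on with
  | C a => funext t; simp
  | add p q hp hq => funext t; simp [hp, hq]
  | mul_X p i hp => funext t; simp [hp]

theorem pc_blk [DecidableEq β] {σ : Type} [Finite σ] (w : σ → β) (x : T → σ → Ω)
    (hx : ∀ t b, ∃ v, w v = b ∧ x t v ≠ 0) (d : β → ℕ) :
    pc (LS.blk w x hx) d = (Sd Ω w d).map (aeval fun v t => x t v).toLinearMap :=
  (map_Sd _ d).symm

theorem mem_pc_blk [DecidableEq β] {σ : Type} [Finite σ] {w : σ → β} {x : T → σ → Ω}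
    {hx : ∀ t b, ∃ v, w v = b ∧ x t v ≠ 0} {d : β → ℕ} {u : T → Ω} :
    u ∈ pc (LS.blk w x hx) d ↔ ∃ G ∈ Sd Ω w d, (fun t => eval (x t) G) = u := by
  rw [pc_blk, Submodule.mem_map]
  refine exists_congr fun G => and_congr_right fun _ => ?_
  rw [AlgHom.toLinearMap_apply, aeval_fun]

/-- a chart of forms that does not vanish at the point -/
theorem Reg.of_chart [DecidableEq β] {σ s : Type} [Finite σ] [Finite s] (w : σ → β) (x : T → σ → Ω)
    (hx : ∀ t b, ∃ v, w v = b ∧ x t v ≠ 0) (p : T → s → Ω) (hp : ∀ t, p t ≠ 0)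
    (h : ∀ t₀, ∃ (e : β → ℕ) (G : s → MvPolynomial σ Ω), (∀ i, G i ∈ Sd Ω w e) ∧
      (∃ i, eval (x t₀) (G i) ≠ 0) ∧
      ∀ t i i', eval (x t) (G i) * p t i' = eval (x t) (G i') * p t i) :
    Reg (LS.blk w x hx) (LS.co p hp) := by
  intro t₀
  obtain ⟨e, G, hG, ⟨i₀, h0⟩, hm⟩ := h t₀
  choose k hk using fun t => Function.ne_iff.1 (hp t)
  have hk' : ∀ t, p t (k t) ≠ 0 := hk
  have key : ∀ t i, eval (x t) (G (k t)) / p t (k t) * p t i = eval (x t) (G i) := fun t i => by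
    rw [div_mul_eq_mul_div, hm t (k t) i, mul_div_assoc, div_self (hk' t), mul_one]
  refine ⟨e, fun t => eval (x t) (G (k t)) / p t (k t), fun hz => h0 ?_, fun u hu => ?_⟩
  · rw [← key t₀ i₀]
    simp only at hz
    rw [hz, zero_mul]
  · induction hu using Submodule.span_induction with
    | mem y hy =>
      obtain ⟨i, rfl⟩ := hy
      refine mem_pc_blk.2 ⟨G i, hG i, funext fun t => ?_⟩
      rw [Pi.mul_apply]
      exact (key t i).symm
    | zero => rw [mul_zero]; exact Submodule.zero_mem _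
    | add a b _ _ ha hb => rw [mul_add]; exact Submodule.add_mem _ ha hb
    | smul c a _ ha => rw [mul_smul_comm]; exact Submodule.smul_mem _ c ha

/-- a family that is regular over a domain has no zero divisors -/
theorem Dom.of_reg {B : β → LS Ω T} {C : γ → LS Ω T} (h : Dom B) (hC : ∀ k, Reg B (C k)) :
    Dom C := by
  intro a b f hf g hg hfg
  by_contra hc
  rw [not_or] at hc
  obtain ⟨t, ht⟩ := Function.ne_iff.1 hc.1
  obtain ⟨t', ht'⟩ := Function.ne_iff.1 hc.2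
  obtain ⟨e, l, hl, h1⟩ := reg_pc hC t a
  obtain ⟨e', l', hl', h2⟩ := reg_pc hC t' b
  rcases h e e' _ (h1 f hf) _ (h2 g hg) (by rw [mul_mul_mul_comm, hfg, mul_zero]) with h0 | h0
  · exact mul_ne_zero hl ht (congrFun h0 t)
  · exact mul_ne_zero hl' ht' (congrFun h0 t')

theorem Dom.ext {B : β → LS Ω T} {W : ν → LS Ω T} (h : Dom B) (hW : ∀ k, Reg B (W k)) :
    Dom (Sum.elim B W) := h.of_reg (reg_elim (Reg.self B) hW)

theorem Src.mono {B : β → LS Ω T} {n m : ℕ} (h : Src B n) (hm : n ≤ m) : Src B m :=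
  ⟨h.ne, h.dom, h.dg.mono (Nat.cast_le.2 hm)⟩

end Pool.Agent.Tav
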