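import Pool.Agent.P.MP_2ce3e7_ag.Tav.Par
import Pool.Agent.P.MP_2ce3e7_ag.Tav.GBase

/-! From the definitions of the statement to linear systems. -/

set_option autoImplicit false

noncomputable section

namespace Pool.Agent.Tav

open MvPolynomial Module Function

variable {K T U σ τ ι : Type} [Field K] [Fintype σ] [Fintype τ] [Fintype ι]

theorem hp_eq_pf (L : ι → Submodule K (T → K)) : hp L = pf L := by
  unfold hp pf hP
  congr 1
  funext P
  refine propext (Filter.eventually_atTop.trans ⟨fun ⟨a, h⟩ => ?_, fun ⟨N, h⟩ => ?_⟩)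
  · exact ⟨Finset.univ.sup a, fun d hd => h d fun i =>
      (Finset.le_sup (Finset.mem_univ i)).trans (hd i)⟩
  · exact ⟨fun _ => N, fun d hd => h d hd⟩

omit [Fintype σ] in
theorem hx_unit {p : T → σ → K} (hp : ∀ t, p t ≠ 0) :
    ∀ t (b : Unit), ∃ v, (fun _ : σ => ()) v = b ∧ p t v ≠ 0 := fun t _ =>
  (Function.ne_iff.1 (hp t)).imp fun _ h => ⟨rfl, h⟩

theorem blk_unit {p : T → σ → K} (hp : ∀ t, p t ≠ 0) (b : Unit) :
    LS.blk (fun _ : σ => ()) p (hx_unit hp) b = LS.co p hp := by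
  refine LS.ext' (congrArg (Submodule.span K) ?_)
  ext u
  exact ⟨fun ⟨l, _, h⟩ => ⟨l, h⟩, fun ⟨l, h⟩ => ⟨l, rfl, h⟩⟩

omit [Fintype σ] in
theorem Par.bPar {x y : σ → K} : Par x y ↔ BPar (fun _ : σ => ()) x y :=
  ⟨fun ⟨c, hc, h⟩ => ⟨fun _ => c, fun _ => hc.ne_zero, fun l => congrFun h l⟩,
    fun ⟨c, hc, h⟩ => ⟨c (), (hc ()).isUnit, funext h⟩⟩

theorem Rg.reg {B : ι → LS K T} {V : LS K T} : Rg (fun i => (B i).sp) V.sp ↔ Reg B V :=
  forall_congr' fun _ => exists_congr fun _ => exists_congr fun _ =>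
    and_congr isUnit_iff_ne_zero Iff.rfl

theorem Mor.reg {p : T → σ → K} {q : U → τ → K} (hp : ∀ t, p t ≠ 0) (hq : ∀ t, q t ≠ 0)
    {f : T → U} (h : Mor p q f) : Reg (fun _ : Unit => LS.co p hp) ((LS.co q hq).pb f) := by
  rw [LS.pb_co]
  have h1 : Reg (fun _ : Fin 1 => LS.co p hp) (LS.co (fun t => q (f t)) fun t => hq (f t)) := by
    refine Rg.reg.1 ?_
    have e : (fun _ : Fin 1 => (LS.co p hp).sp) = ![crd p] :=
      funext fun i => by rw [Subsingleton.elim i 0]; rfl
    rw [e]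
    exact h
  exact Reg.trans (fun _ => Reg.self (fun _ : Unit => LS.co p hp) ()) h1

theorem dg_const {κ : Type} [Fintype κ] [Unique κ] (V : LS K T) (n : ℤ) :
    Dg (pL fun _ : κ => V) n ↔ Dg (pL fun _ : Unit => V) n :=
  ⟨fun h => dg_pL_comp h (g := fun _ : Unit => default) fun _ => ⟨(), Subsingleton.elim _ _⟩,
    fun h => dg_pL_comp h (g := fun _ : κ => ()) fun _ => ⟨default, rfl⟩⟩

variable {G : Type} [AddCommGroup G] {p : G → σ → K} {g : ℕ}

omit [AddCommGroup G] in
theorem dm_eq (hp : ∀ t, p t ≠ 0) (Z : Set G) : dm p Z =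
    (pL fun _ : Fin 1 => (LS.co p hp).pb (Subtype.val : Z → G)).totalDegree := by
  rw [dm, hp_eq_pf, LS.pb_co]
  congr 2
  funext i
  rw [Subsingleton.elim i 0]
  rfl

omit [AddCommGroup G] in
theorem dm_le_iff (hp : ∀ t, p t ≠ 0) (Z : Set G) (j : ℕ) :
    dm p Z ≤ j ↔ Dg (pL fun _ : Unit => (LS.co p hp).pb (Subtype.val : Z → G)) j := by
  rw [dm_eq hp, ← dg_iff, dg_const]

theorem AV.cl' [Infinite K] (h : AV p g) : Cl (fun _ : σ => ()) p := h.cl_blk _

omit [AddCommGroup G] in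
theorem pL_univ {κ : Type} [Fintype κ] (B : κ → LS K G) :
    pL (fun i => (B i).pb (Subtype.val : ↥(Set.univ : Set G) → G)) = pL B := by
  refine pL_congr (Lg.of_forall fun d => ?_)
  rw [pc_pb]
  refine (Submodule.equivMapOfInjective _ (fun u v h => ?_) _).finrank_eq.symm
  exact funext fun t => congrFun h ⟨t, trivial⟩

theorem AV.tdeg (h : AV p g) : (pL fun _ : Fin 1 => LS.co p h.ne).totalDegree = g := by
  rw [← pL_univ, ← dm_eq h.ne, h.dim]

omit [AddCommGroup G] in
theorem form_of_pc (hp : ∀ t, p t ≠ 0) {a : Unit → ℕ} {f : G → K}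
    (hf : f ∈ pc (fun _ : Unit => LS.co p hp) a) :
    ∃ F : MvPolynomial σ K, (∀ t, eval (p t) F = f t) ∧
      ∀ (c : K) t, eval (c • p t) F = c ^ a () * f t := by
  have e : (fun _ : Unit => LS.co p hp) = LS.blk (fun _ : σ => ()) p (hx_unit hp) :=
    funext fun b => (blk_unit hp b).symm
  rw [e] at hf
  obtain ⟨F, h1, h2⟩ := (map_Sd (β := fun _ : σ => ()) (fun v t => p t v) a).ge hf
  have h3 : ∀ t, eval (p t) F = f t := fun t => by
    rw [← h2]
    clear h1 h2
    induction F using MvPolynomial.induction_on with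
    | C c => simp
    | add a b ha hb => simp [ha, hb]
    | mul_X a v ha => simp [ha]
  refine ⟨F, h3, fun c t => ?_⟩
  rw [← h3, F.as_sum, map_sum, map_sum, Finset.mul_sum]
  refine Finset.sum_congr rfl fun m hm => ?_
  have h5 := congrFun (h1 (mem_support_iff.1 hm)) ()
  rw [weight_wN] at h5
  rw [eval_monomial, eval_monomial, Finsupp.prod_fintype _ _ fun _ => pow_zero _,
    Finsupp.prod_fintype _ _ fun _ => pow_zero _, ← h5]
  simp only [Pi.smul_apply, smul_eq_mul, mul_pow, Finset.prod_mul_distrib,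
    Finset.prod_pow_eq_pow_sum, Finset.filter_true]
  ring

theorem AV.src (h : AV p g) : Src (fun _ : Unit => LS.co p h.ne) g := by
  refine ⟨⟨0⟩, fun a b f hf f' hf' h0 => ?_, ?_⟩
  · obtain ⟨F, h1, h2⟩ := form_of_pc h.ne hf
    obtain ⟨F', h1', h2'⟩ := form_of_pc h.ne hf'
    have hm : F * F' ∈ idl p := by
      rintro _ ⟨c, t, rfl⟩
      have := congrFun h0 t
      rw [Pi.mul_apply, Pi.zero_apply] at this
      change eval (c • p t) (F * F') = 0
      rw [map_mul, h2, h2', mul_mul_mul_comm, this, mul_zero]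
    refine (h.irr.mem_or_mem hm).imp (fun e => funext fun t => ?_) fun e => funext fun t => ?_
    · rw [← h1]
      exact e _ ⟨1, t, (one_smul _ _).symm⟩
    · rw [← h1']
      exact e _ ⟨1, t, (one_smul _ _).symm⟩
  · rw [← dg_const (κ := Fin 1), dg_iff, h.tdeg]

theorem AV.top (h : AV p g) :
    mix (fun _ : Unit => LS.co p h.ne) (fun _ : Fin g => LS.co p h.ne) ≠ 0 := by
  have e := mix_self (fun _ : Unit => LS.co p h.ne) fun _ : Fin g => ()
  have e2 : ∑ _j : Fin g, Finsupp.single () 1 = Finsupp.single () g := by simp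
  rw [e2] at e
  intro h0
  have h1 : coeff (Finsupp.single () g) (pL fun _ : Unit => LS.co p h.ne) = 0 :=
    nc_eq_zero.1 (e.symm.trans h0)
  have h2 : Dg (pL fun _ : Unit => LS.co p h.ne) ((g : ℤ) - 1) := fun s hs => by
    have e3 : s = Finsupp.single () s.degree := by
      ext
      simp [Finsupp.degree_eq_sum]
    by_cases h3 : s.degree = g
    · rw [e3, h3, h1]
    · exact h.src.dg s (by omega)
  rcases Nat.eq_zero_or_pos g with rfl | hg
  · obtain ⟨N, hN⟩ := evP_pL fun _ : Unit => LS.co p h.ne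
    have h3 := hN (fun _ => N) fun _ => le_rfl
    rw [h2.eq_zero (by omega), map_zero] at h3
    obtain ⟨u, hu, h4⟩ := pc_nv (fun _ : Unit => LS.co p h.ne) (fun _ => N) 0
    rw [Submodule.finrank_eq_zero.1 (Nat.cast_eq_zero.1 h3.symm), Submodule.mem_bot] at hu
    exact h4 (congrFun hu 0)
  · have e4 : (g : ℤ) - 1 = ((g - 1 : ℕ) : ℤ) := by omega
    rw [e4, ← dg_const (κ := Fin 1), dg_iff, h.tdeg] at h2
    omega

theorem AV.sub' (h : AV p g) :
    Reg (prodB (fun _ : Unit => LS.co p h.ne) fun _ : Unit => LS.co p h.ne)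
      ((LS.co p h.ne).pb fun t : G × G => t.1 - t.2) := by
  have h1 : Reg ![(LS.co p h.ne).pb Prod.fst, (LS.co p h.ne).pb Prod.snd]
      ((LS.co p h.ne).pb fun t : G × G => t.1 - t.2) := by
    refine Rg.reg.1 ?_
    have e : (fun i => ((![(LS.co p h.ne).pb Prod.fst, (LS.co p h.ne).pb Prod.snd] :
        Fin 2 → LS K (G × G)) i).sp) = ![crd fun t : G × G => p t.1, crd fun t => p t.2] := by
      funext i
      fin_cases i <;> simp [LS.pb_co] <;> rfl
    rw [e, LS.pb_co]
    exact h.sub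
  refine Reg.trans (fun k => ?_) h1
  fin_cases k
  · exact Reg.self (prodB (fun _ : Unit => LS.co p h.ne) fun _ : Unit => LS.co p h.ne) (.inl ())
  · exact Reg.self (prodB (fun _ : Unit => LS.co p h.ne) fun _ : Unit => LS.co p h.ne) (.inr ())

/-- MERGE -/
theorem pair_eq_mix (hp : ∀ t, p t ≠ 0) (hg : g ≠ 0) (Z W : Set G) :
    (g.factorial : ℚ) * pair p g Z W =
      mix (prodB (fun _ : Unit => (LS.co p hp).pb (Subtype.val : Z → G))
        fun _ : Unit => (LS.co p hp).pb (Subtype.val : W → G))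
        fun _ : Fin g => (LS.co p hp).pb fun t : Z × W => t.1.1 - t.2.1 := by
  let A : Fin 3 → LS K (Z × W) := ![(LS.co p hp).pb fun t => t.1.1,
    (LS.co p hp).pb fun t => t.2.1, (LS.co p hp).pb fun t => t.1.1 - t.2.1]
  let e : (Unit ⊕ Unit) ⊕ Fin g → Fin 3 := Sum.elim (Sum.elim (fun _ => 0) fun _ => 1) fun _ => 2
  have he : Surjective e := fun i => by
    fin_cases i
    · exact ⟨.inl (.inl ()), rfl⟩
    · exact ⟨.inl (.inr ()), rfl⟩
    · exact ⟨.inr ⟨0, Nat.pos_of_ne_zero hg⟩, rfl⟩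
  have e1 : Sum.elim (prodB (fun _ : Unit => (LS.co p hp).pb (Subtype.val : Z → G))
      fun _ : Unit => (LS.co p hp).pb (Subtype.val : W → G))
      (fun _ : Fin g => (LS.co p hp).pb fun t : Z × W => t.1.1 - t.2.1) = A ∘ e := by
    funext k
    rcases k with (_ | _) | _
    · exact LS.pb_pb _ _ _
    · exact LS.pb_pb _ _ _
    · rfl
  have e2 : ∑ j : Fin g, Finsupp.single (e (Sum.inr j)) 1 = Finsupp.single 2 g := by simp [e]
  have e3 : pL A = Tav.hp ![crd fun t : Z × W => p t.1, crd fun t => p t.2,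
      crd fun t => p (t.1 - t.2)] := by
    rw [hp_eq_pf, pL]
    congr 1
    funext i
    fin_cases i <;> simp [A, LS.pb_co] <;> rfl
  rw [mix_eq_nc, e1, nc_pL_comp A he, mapDomain_slots, e2, nc_apply, e3, pair,
    Finsupp.prod_single_index rfl]

end Pool.Agent.Tav
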