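import Pool.Agent.P.MP_2ce3e7_ag.Tav.DetA

set_option autoImplicit false

namespace Pool.Agent.Tav.Det

section cx
variable {Γ J : Type*} [Fintype Γ]

theorem prod_upd [DecidableEq Γ] (ρ : Γ) (τ : ℂ) :
    ∏ σ, Function.update (fun _ : Γ => (1 : ℂ)) ρ τ σ = τ := by
  rw [Finset.prod_update_of_mem (Finset.mem_univ ρ)]
  simp

theorem PF.upd [DecidableEq Γ] [Fintype J] {F : (Γ → J → ℂ) → ℂ} (hF : PF F) (z : Γ → J → ℂ)
    (ρ : Γ) : Differentiable ℂ (fun x : J → ℂ => F (Function.update z ρ x)) := by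
  refine hF.diff.comp (differentiable_pi.2 fun σ => ?_)
  by_cases h : σ = ρ
  · subst h
    simp only [Function.update_self]
    exact differentiable_id
  · simp only [Function.update_of_ne h]
    exact differentiable_const _

theorem upd_smul [DecidableEq Γ] {F : (Γ → J → ℂ) → ℂ}
    (h : ∀ (t : Γ → ℂ) z, F (fun ρ j => t ρ * z ρ j) = (∏ ρ, t ρ) * F z) (z : Γ → J → ℂ) (ρ : Γ)
    (τ : ℂ) (x : J → ℂ) : F (Function.update z ρ (τ • x)) = τ * F (Function.update z ρ x) := by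
  have := h (Function.update (fun _ => 1) ρ τ) (Function.update z ρ x)
  rw [prod_upd] at this
  rw [← this]
  congr 1
  funext σ j
  by_cases e : σ = ρ
  · subst e; simp
  · simp [Function.update_of_ne e]

theorem upd_add [DecidableEq Γ] [Fintype J] {F : (Γ → J → ℂ) → ℂ} (hF : PF F)
    (h : ∀ (t : Γ → ℂ) z, F (fun ρ j => t ρ * z ρ j) = (∏ ρ, t ρ) * F z) (z : Γ → J → ℂ) (ρ : Γ)
    (x y : J → ℂ) : F (Function.update z ρ (x + y)) =
      F (Function.update z ρ x) + F (Function.update z ρ y) :=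
  add_of_hom (fun x => F (Function.update z ρ x)) (hF.upd z ρ 0) (upd_smul h z ρ) x y

/-- a polynomial function of multidegree (1,...,1) is multilinear -/
noncomputable def ml [Fintype J] (F : (Γ → J → ℂ) → ℂ) (hF : PF F)
    (h : ∀ (t : Γ → ℂ) z, F (fun ρ j => t ρ * z ρ j) = (∏ ρ, t ρ) * F z) :
    MultilinearMap ℂ (fun _ : Γ => J → ℂ) ℂ where
  toFun := F
  map_update_add' := fun z ρ x y => upd_add hF h z ρ x y
  map_update_smul' := fun z ρ τ x => upd_smul h z ρ τ x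

theorem expand [DecidableEq Γ] [Fintype J] [DecidableEq J] {F : (Γ → J → ℂ) → ℂ} (hF : PF F)
    (h : ∀ (t : Γ → ℂ) z, F (fun ρ j => t ρ * z ρ j) = (∏ ρ, t ρ) * F z) (z : Γ → J → ℂ) :
    F z = ∑ K : Γ → J, F (fun ρ => Pi.single (K ρ) 1) * ∏ ρ, z ρ (K ρ) := by
  have e : z = fun ρ => ∑ j, z ρ j • (Pi.single j 1 : J → ℂ) := by
    funext ρ i
    simp [Finset.sum_apply, Pi.single_apply]
  have h1 := (ml F hF h).map_sum (fun ρ j => z ρ j • (Pi.single j 1 : J → ℂ))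
  rw [← e] at h1
  refine Eq.trans h1 (Finset.sum_congr rfl fun K _ => ?_)
  rw [(ml F hF h).map_smul_univ, smul_eq_mul, mul_comm]
  rfl

/-- complex monomial -/
noncomputable def monC [DecidableEq Γ] (S : Finset Γ) (a b : Γ → ℂ) : ℂ :=
  (∏ ρ ∈ Sᶜ, a ρ) * ∏ ρ ∈ S, b ρ

theorem monC_pt [DecidableEq Γ] (S T : Finset Γ) :
    monC T (fun ρ => if ρ ∈ S then 0 else 1) (fun ρ => if ρ ∈ S then 1 else 0) =
      if T = S then 1 else 0 := by
  unfold monC
  split_ifs with h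
  · subst h
    rw [Finset.prod_eq_one, Finset.prod_eq_one, one_mul]
    · intro ρ h; simp [h]
    · intro ρ h; simp [Finset.mem_compl.1 h]
  · by_cases h1 : T ⊆ S
    · obtain ⟨ρ, hS, hT⟩ := Finset.exists_of_ssubset (Finset.ssubset_iff_subset_ne.2 ⟨h1, h⟩)
      rw [Finset.prod_eq_zero (Finset.mem_compl.2 hT) (by simp [hS]), zero_mul]
    · obtain ⟨ρ, hT, hS⟩ := Finset.not_subset.1 h1
      rw [Finset.prod_eq_zero hT (by simp [hS]), mul_zero]

theorem PF.mon [DecidableEq Γ] (p : Finset Γ → ℂ) (i j : J) :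
    PF (fun z : Γ → J → ℂ => ∑ S, p S * monC S (fun ρ => z ρ i) (fun ρ => z ρ j)) :=
  PF.sum _ fun _ _ => (PF.const _).mul
    ((PF.prod _ fun ρ _ => PF.var ρ i).mul (PF.prod _ fun ρ _ => PF.var ρ j))

theorem sum_pt [DecidableEq Γ] (p : Finset Γ → ℂ) (S : Finset Γ) :
    ∑ T, p T * monC T (fun ρ => if ρ ∈ S then 0 else 1) (fun ρ => if ρ ∈ S then 1 else 0) =
      p S := by
  simp [monC_pt]

/-- two rows: exchange of the rows at the characters in `S` -/
theorem swap [DecidableEq Γ] [Fintype J] (F : (Γ → J → ℂ) → (Γ → J → ℂ) → ℂ)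
    (hF : PF (fun z : Γ → J ⊕ J → ℂ => F (fun ρ j => z ρ (.inl j)) (fun ρ j => z ρ (.inr j))))
    (h0 : ∀ (t : Γ → ℂ) u v, F (fun ρ j => t ρ * u ρ j) v = (∏ ρ, t ρ) * F u v)
    (h1 : ∀ (t : Γ → ℂ) u v, F u (fun ρ j => t ρ * v ρ j) = (∏ ρ, t ρ) * F u v)
    (he : ∀ u v, F (u + v) v = F u v) (S : Finset Γ) (u v : Γ → J → ℂ) :
    F (S.piecewise v u) (S.piecewise u v) = (-1) ^ S.card * F u v := by
  have pl : ∀ v, PF (fun u => F u v) := fun v =>
    hF.comp (fun u ρ => Sum.elim (u ρ) (v ρ)) fun ρ j => by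
      cases j with
      | inl j => exact PF.var ρ j
      | inr j => exact PF.const _
  have pr : ∀ u, PF (fun v => F u v) := fun u =>
    hF.comp (fun v ρ => Sum.elim (u ρ) (v ρ)) fun ρ j => by
      cases j with
      | inl j => exact PF.const _
      | inr j => exact PF.var ρ j
  have sh : ∀ (t : Γ → Unit → ℂ) u v, F (fun ρ j => u ρ j + t ρ () * v ρ j) v = F u v := by
    intro t u v
    have p1 : PF (fun t : Γ → Unit → ℂ => F (fun ρ j => u ρ j + t ρ () * v ρ j) v) :=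
      (pl v).comp _ fun ρ j => (PF.const _).add ((PF.var ρ ()).mul (PF.const _))
    have p2 : PF (fun t : Γ → Unit → ℂ => ∏ ρ, t ρ ()) := PF.prod _ fun ρ _ => PF.var ρ ()
    refine sub_eq_zero.1 ((p1.sub (PF.const (F u v))).zero_of_mul p2 (fun _ _ => 1) (by simp) ?_ t)
    intro t
    have a1 := h1 (fun ρ => t ρ ()) (fun ρ j => u ρ j + t ρ () * v ρ j) v
    have a2 := he u (fun ρ j => t ρ () * v ρ j)
    have a3 := h1 (fun ρ => t ρ ()) u v
    have a4 : F (fun ρ j => u ρ j + t ρ () * v ρ j) (fun ρ j => t ρ () * v ρ j) =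
        F u (fun ρ j => t ρ () * v ρ j) := a2
    linear_combination a4 - a1 + a3
  have al : ∀ u v ρ x y, F (Function.update u ρ (x + y)) v =
      F (Function.update u ρ x) v + F (Function.update u ρ y) v := fun u v ρ x y =>
    upd_add (pl v) (fun t z => h0 t z v) u ρ x y
  have ar : ∀ u v ρ x y, F u (Function.update v ρ (x + y)) =
      F u (Function.update v ρ x) + F u (Function.update v ρ y) := fun u v ρ x y =>
    upd_add (pr u) (fun t z => h1 t u z) v ρ x y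
  have alt : ∀ u v ρ y, F (Function.update u ρ y) (Function.update v ρ y) = 0 := by
    intro u v ρ y
    have a1 := sh (fun σ _ => if σ = ρ then 1 else 0) u (Function.update v ρ y)
    have a2 := al u (Function.update v ρ y) ρ (u ρ) y
    rw [Function.update_eq_self] at a2
    have e : (fun σ j => u σ j + (if σ = ρ then 1 else 0) * Function.update v ρ y σ j) =
        Function.update u ρ (u ρ + y) := by
      funext σ j
      by_cases e : σ = ρ
      · subst e; simp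
      · simp [e]
    rw [e] at a1
    linear_combination a1 - a2
  have anti : ∀ u v ρ, F (Function.update u ρ (v ρ)) (Function.update v ρ (u ρ)) = -F u v := by
    intro u v ρ
    have a1 := alt u v ρ (u ρ + v ρ)
    rw [al, ar, ar, alt, alt, Function.update_eq_self, Function.update_eq_self] at a1
    linear_combination a1
  induction S using Finset.induction_on with
  | empty => simp
  | insert a S ha ih =>
    have := anti (S.piecewise v u) (S.piecewise u v) a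
    rw [Finset.piecewise_eq_of_notMem _ _ _ ha, Finset.piecewise_eq_of_notMem _ _ _ ha] at this
    rw [Finset.piecewise_insert, Finset.piecewise_insert, this, ih, Finset.card_insert_of_notMem ha]
    ring

end cx

section lat
variable {Λ Γ J : Type*} [CommRing Λ] [Fintype Γ]

theorem hom_ext (b : Module.Basis Γ ℤ Λ) {χ : Γ → Λ →+* ℂ} (hχ : Function.Injective χ)
    {F : (Γ → J → ℂ) → ℂ} (hF : PF F) (A : J → Prop) [DecidablePred A]
    (h : ∀ c m, nm χ c ≠ 0 →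
      F (ev χ fun j => if A j then c * m j else m j) = nm χ c * F (ev χ m))
    (t : Γ → ℂ) (z : Γ → J → ℂ) :
    F (fun ρ j => if A j then t ρ * z ρ j else z ρ j) = (∏ ρ, t ρ) * F z := by
  have s1 : ∀ c, nm χ c ≠ 0 → ∀ z : Γ → J → ℂ,
      F (fun ρ j => if A j then χ ρ c * z ρ j else z ρ j) = nm χ c * F z := by
    intro c hc z
    refine dense_eq b hχ (F := fun z => F (fun ρ j => if A j then χ ρ c * z ρ j else z ρ j))
      (G := fun z => nm χ c * F z) (hF.comp _ fun ρ j => ?_) ((PF.const _).mul hF) (fun m => ?_) z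
    · by_cases e : A j
      · simpa [e] using (PF.const (χ ρ c)).mul (PF.var ρ j)
      · simpa [e] using PF.var ρ j
    · rw [← h c m hc]
      congr 1
      funext ρ j
      by_cases e : A j <;> simp [ev, e]
  refine dense_off b hχ (J := Unit)
    (F := fun t => F (fun ρ j => if A j then t ρ () * z ρ j else z ρ j))
    (G := fun t => (∏ ρ, t ρ ()) * F z) (hF.comp _ fun ρ j => ?_)
    ((PF.prod _ fun ρ _ => PF.var ρ ()).mul (PF.const _)) (fun m hm => s1 (m ()) (hm ()) z)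
    (fun ρ _ => t ρ)
  by_cases e : A j
  · simpa [e] using (PF.var ρ ()).mul (PF.const (z ρ j))
  · simpa [e] using PF.const (Γ := Γ) (J := Unit) (z ρ j)

variable [DecidableEq Γ]

/-- ONE, any number of columns -/
theorem one_row [Fintype J] [DecidableEq J] (b : Module.Basis Γ ℤ Λ) {χ : Γ → Λ →+* ℂ}
    (hχ : Function.Injective χ) (D : (J → Λ) → ℂ) (hD : IsPol D)
    (h : ∀ c m, nm χ c ≠ 0 → D (fun j => c * m j) = nm χ c * D m) :
    ∃ coef : (Γ → J) → ℂ, ∀ m, D m = ∑ K, coef K * ∏ ρ, χ ρ (m (K ρ)) := by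
  obtain ⟨F, hF, e⟩ := ext b hχ hD
  have h1 := hom_ext b hχ hF (fun _ => True) (fun c m hc => by simpa [← e] using h c m hc)
  refine ⟨fun K => F (fun ρ => Pi.single (K ρ) 1), fun m => ?_⟩
  rw [e]
  exact expand hF (fun t z => by simpa using h1 t z) _

/-- the monomial `a_(S^c) b_S` -/
noncomputable def mon (χ : Γ → Λ →+* ℂ) (S : Finset Γ) (a b : Λ) : ℂ :=
  (∏ ρ ∈ Sᶜ, χ ρ a) * ∏ ρ ∈ S, χ ρ b

theorem mon_neg (χ : Γ → Λ →+* ℂ) (S : Finset Γ) (a b : Λ) :
    mon χ S a (-b) = (-1) ^ S.card * mon χ S a b := by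
  simp only [mon, map_neg, Finset.prod_neg]
  ring

theorem mon_mul_left (χ : Γ → Λ →+* ℂ) (S : Finset Γ) (c a b : Λ) :
    mon χ S (a * c) b = (∏ ρ ∈ Sᶜ, χ ρ c) * mon χ S a b := by
  simp only [mon, map_mul, Finset.prod_mul_distrib]
  ring

theorem mon_mul_right (χ : Γ → Λ →+* ℂ) (S : Finset Γ) (c a b : Λ) :
    mon χ S a (b * c) = (∏ ρ ∈ S, χ ρ c) * mon χ S a b := by
  simp only [mon, map_mul, Finset.prod_mul_distrib]
  ring

theorem mon_one (χ : Γ → Λ →+* ℂ) (S : Finset Γ) : mon χ S 1 1 = 1 := by simp [mon]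

/-- ONE -/
theorem one (b : Module.Basis Γ ℤ Λ) {χ : Γ → Λ →+* ℂ} (hχ : Function.Injective χ)
    (D : Λ → Λ → ℂ) (hD : IsPol fun x : Λ × Λ => D x.1 x.2)
    (h : ∀ c x y, nm χ c ≠ 0 → D (c * x) (c * y) = nm χ c * D x y) :
    ∃ p : Finset Γ → ℂ, ∀ x y, D x y = ∑ S, p S * mon χ S x y := by
  have hD' : IsPol fun m : Bool → Λ => D (m false) (m true) :=
    hD.comp ((Pi.evalAddMonoidHom (fun _ : Bool => Λ) false).prod
      (Pi.evalAddMonoidHom (fun _ : Bool => Λ) true))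
  obtain ⟨coef, hc⟩ := one_row b hχ _ hD' (fun c m hc => h c _ _ hc)
  let E : Finset Γ ≃ (Γ → Bool) :=
    { toFun := fun S ρ => decide (ρ ∈ S)
      invFun := fun K => Finset.univ.filter fun ρ => K ρ = true
      left_inv := fun S => by ext ρ; simp
      right_inv := fun K => by funext ρ; simp }
  refine ⟨fun S => coef (E S), fun x y => ?_⟩
  have := hc (fun j => if j then y else x)
  simp only [Bool.false_eq_true, if_false, if_true] at this
  rw [this, ← E.sum_comp]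
  refine Finset.sum_congr rfl fun S _ => ?_
  congr 1
  rw [mon, mul_comm, ← Finset.prod_mul_prod_compl S]
  congr 1
  · exact Finset.prod_congr rfl fun ρ h => by simp [E, h]
  · exact Finset.prod_congr rfl fun ρ h => by simp [E, Finset.mem_compl.1 h]

/-- uniqueness of the coefficients -/
theorem uniq (b : Module.Basis Γ ℤ Λ) {χ : Γ → Λ →+* ℂ} (hχ : Function.Injective χ)
    (p q : Finset Γ → ℂ) (h : ∀ x y, nm χ x ≠ 0 → nm χ y ≠ 0 →
      ∑ S, p S * mon χ S x y = ∑ S, q S * mon χ S x y) : p = q := by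
  funext S
  have := dense_off b hχ (PF.mon p false true) (PF.mon q false true)
    (fun m hm => h _ _ (hm false) (hm true))
    (fun ρ j => if j then (if ρ ∈ S then 1 else 0) else (if ρ ∈ S then 0 else 1))
  simp only [Bool.false_eq_true, if_false, if_true] at this
  rwa [sum_pt, sum_pt] at this

theorem mon_indep (b : Module.Basis Γ ℤ Λ) {χ : Γ → Λ →+* ℂ} (hχ : Function.Injective χ) :
    LinearIndependent ℂ fun (S : Finset Γ) (x : {x : Λ × Λ // nm χ x.1 ≠ 0 ∧ nm χ x.2 ≠ 0}) =>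
      mon χ S x.1.1 x.1.2 := by
  refine Fintype.linearIndependent_iff.2 fun c hc S => ?_
  have := uniq b hχ c 0 fun x y hx hy => by
    simpa [Finset.sum_apply] using congrFun hc ⟨(x, y), hx, hy⟩
  exact congrFun this S

/-- the laws of a two-row degree function -/
structure Two (χ : Γ → Λ →+* ℂ) (D : (J → Λ) → (J → Λ) → ℂ) : Prop where
  pol : IsPol fun x : (J → Λ) × (J → Λ) => D x.1 x.2
  left : ∀ c u v, nm χ c ≠ 0 → D (fun j => c * u j) v = nm χ c * D u v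
  right : ∀ c u v, nm χ c ≠ 0 → D u (fun j => c * v j) = nm χ c * D u v
  shear : ∀ u v, D (u + v) v = D u v

omit [DecidableEq Γ] in
theorem Two.comb {χ : Γ → Λ →+* ℂ} {A : Type*} (s : Finset A) (c : A → ℂ)
    {D : A → (J → Λ) → (J → Λ) → ℂ} (h : ∀ x, Two χ (D x)) :
    Two χ (fun u v => ∑ x ∈ s, c x * D x u v) where
  pol := IsPol.sum s fun x _ => (IsPol.const (c x)).mul (h x).pol
  left := fun a u v ha => by
    rw [Finset.mul_sum]
    exact Finset.sum_congr rfl fun x _ => by rw [(h x).left a u v ha]; ring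
  right := fun a u v ha => by
    rw [Finset.mul_sum]
    exact Finset.sum_congr rfl fun x _ => by rw [(h x).right a u v ha]; ring
  shear := fun u v => Finset.sum_congr rfl fun x _ => by rw [(h x).shear]

theorem Two.ext [Fintype J] (b : Module.Basis Γ ℤ Λ) {χ : Γ → Λ →+* ℂ}
    (hχ : Function.Injective χ) {D : (J → Λ) → (J → Λ) → ℂ} (h : Two χ D) :
    ∃ F : (Γ → J → ℂ) → (Γ → J → ℂ) → ℂ,
      PF (fun z : Γ → J ⊕ J → ℂ => F (fun ρ j => z ρ (.inl j)) (fun ρ j => z ρ (.inr j))) ∧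
      (∀ u v, D u v = F (ev χ u) (ev χ v)) ∧
      (∀ (t : Γ → ℂ) u v, F (fun ρ j => t ρ * u ρ j) v = (∏ ρ, t ρ) * F u v) ∧
      (∀ (t : Γ → ℂ) u v, F u (fun ρ j => t ρ * v ρ j) = (∏ ρ, t ρ) * F u v) ∧
      ∀ (S : Finset Γ) u v, F (S.piecewise v u) (S.piecewise u v) = (-1) ^ S.card * F u v := by
  have hD' : IsPol fun m : J ⊕ J → Λ => D (fun j => m (.inl j)) (fun j => m (.inr j)) :=
    h.pol.comp ((AddMonoidHom.mk' (fun (m : J ⊕ J → Λ) j => m (.inl j)) fun _ _ => rfl).prod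
      (AddMonoidHom.mk' (fun (m : J ⊕ J → Λ) j => m (.inr j)) fun _ _ => rfl))
  obtain ⟨G, hG, e⟩ := Det.ext b hχ hD'
  have eta : ∀ z : Γ → J ⊕ J → ℂ,
      (fun ρ => Sum.elim (fun j => z ρ (.inl j)) (fun j => z ρ (.inr j))) = z := by
    intro z
    funext ρ j
    cases j <;> rfl
  have pF : PF (fun z : Γ → J ⊕ J → ℂ =>
      G (fun ρ => Sum.elim (fun j => z ρ (.inl j)) (fun j => z ρ (.inr j)))) := by
    simpa only [eta] using hG
  have h0 : ∀ (t : Γ → ℂ) (u v : Γ → J → ℂ), G (fun ρ => Sum.elim (fun j => t ρ * u ρ j) (v ρ)) =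
      (∏ ρ, t ρ) * G (fun ρ => Sum.elim (u ρ) (v ρ)) := by
    intro t u v
    rw [← hom_ext b hχ hG (fun j => j.isLeft = true)
      (fun c m hc => by simpa [← e] using h.left c _ _ hc) t]
    congr 1
    funext ρ j
    cases j <;> simp
  have h1 : ∀ (t : Γ → ℂ) (u v : Γ → J → ℂ), G (fun ρ => Sum.elim (u ρ) (fun j => t ρ * v ρ j)) =
      (∏ ρ, t ρ) * G (fun ρ => Sum.elim (u ρ) (v ρ)) := by
    intro t u v
    rw [← hom_ext b hχ hG (fun j => j.isRight = true)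
      (fun c m hc => by simpa [← e] using h.right c _ _ hc) t]
    congr 1
    funext ρ j
    cases j <;> simp
  have he : ∀ u v : Γ → J → ℂ, G (fun ρ => Sum.elim ((u + v) ρ) (v ρ)) =
      G (fun ρ => Sum.elim (u ρ) (v ρ)) := by
    intro u v
    refine dense_eq b hχ (F := fun z : Γ → J ⊕ J → ℂ => G (fun ρ =>
      Sum.elim (fun j => z ρ (.inl j) + z ρ (.inr j)) (fun j => z ρ (.inr j)))) (G := G)
      (hG.comp _ fun ρ j => ?_) hG (fun m => ?_) (fun ρ => Sum.elim (u ρ) (v ρ))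
    · cases j with
      | inl j => exact (PF.var ρ _).add (PF.var ρ _)
      | inr j => exact PF.var ρ _
    · have a1 := e (Sum.elim (fun j => m (.inl j) + m (.inr j)) (fun j => m (.inr j)))
      have a2 := h.shear (fun j => m (.inl j)) (fun j => m (.inr j))
      rw [← e, ← a2]
      refine Eq.trans ?_ a1.symm
      congr 1
      funext ρ j
      cases j <;> simp [ev]
  refine ⟨fun u v => G (fun ρ => Sum.elim (u ρ) (v ρ)), pF, fun u v => ?_, h0, h1,
    swap (fun u v => G (fun ρ => Sum.elim (u ρ) (v ρ))) pF h0 h1 he⟩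
  refine Eq.trans (e (Sum.elim u v)) ?_
  congr 1
  funext ρ j
  cases j <;> rfl

/-- one coefficient seen by two matrices -/
theorem two_core (b : Module.Basis Γ ℤ Λ) {χ : Γ → Λ →+* ℂ} (hχ : Function.Injective χ)
    {D : (Fin 4 → Λ) → (Fin 4 → Λ) → ℂ} (h : Two χ D) {E1 E2 : (Γ → Fin 4 → ℂ) → ℂ}
    (p1 : PF E1) (p2 : PF E2)
    (h1 : ∀ m : Fin 4 → Λ, (∀ j, nm χ (m j) ≠ 0) →
      D ![m 0, m 1, 0, 0] ![0, 0, m 2, m 3] = E1 (ev χ m))
    (h2 : ∀ m : Fin 4 → Λ, (∀ j, nm χ (m j) ≠ 0) →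
      D ![m 0, 0, 0, m 1] ![0, m 3, m 2, 0] = E2 (ev χ m)) (S : Finset Γ) :
    E2 (fun ρ => if ρ ∈ S then ![0, 1, 0, 1] else ![1, 0, 1, 0]) =
      (-1) ^ S.card * E1 (fun ρ => if ρ ∈ S then ![0, 1, 0, 1] else ![1, 0, 1, 0]) := by
  obtain ⟨F, pF, e, -, -, sw⟩ := h.ext b hχ
  have q1 : PF (fun z : Γ → Fin 4 → ℂ =>
      F (fun ρ => ![z ρ 0, z ρ 1, 0, 0]) (fun ρ => ![0, 0, z ρ 2, z ρ 3])) :=
    pF.comp (fun z ρ => Sum.elim ![z ρ 0, z ρ 1, 0, 0] ![0, 0, z ρ 2, z ρ 3]) fun ρ j => by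
      rcases j with j | j <;> fin_cases j <;> first | exact PF.var ρ _ | exact PF.const _
  have q2 : PF (fun z : Γ → Fin 4 → ℂ =>
      F (fun ρ => ![z ρ 0, 0, 0, z ρ 1]) (fun ρ => ![0, z ρ 3, z ρ 2, 0])) :=
    pF.comp (fun z ρ => Sum.elim ![z ρ 0, 0, 0, z ρ 1] ![0, z ρ 3, z ρ 2, 0]) fun ρ j => by
      rcases j with j | j <;> fin_cases j <;> first | exact PF.var ρ _ | exact PF.const _
  have e1 := dense_off b hχ p1 q1 (fun m hm => by
    rw [← h1 m hm, e]
    congr 1 <;> funext ρ j <;> fin_cases j <;> simp [ev])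
  have e2 := dense_off b hχ p2 q2 (fun m hm => by
    rw [← h2 m hm, e]
    congr 1 <;> funext ρ j <;> fin_cases j <;> simp [ev])
  rw [e1, e2, ← sw]
  congr 1 <;> funext ρ j <;> by_cases hρ : ρ ∈ S <;> fin_cases j <;> simp [Finset.piecewise, hρ]

theorem pt_val (p q : Finset Γ → ℂ) (S : Finset Γ) (z : Γ → Fin 4 → ℂ)
    (hz : z = fun ρ => if ρ ∈ S then ![0, 1, 0, 1] else ![1, 0, 1, 0]) :
    (∑ T, p T * monC T (fun ρ => z ρ 0) (fun ρ => z ρ 1)) *
      (∑ T, q T * monC T (fun ρ => z ρ 2) (fun ρ => z ρ 3)) = p S * q S := by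
  have a0 : (fun ρ => z ρ 0) = fun ρ => if ρ ∈ S then 0 else 1 := by
    funext ρ; by_cases h : ρ ∈ S <;> simp [hz, h]
  have a1 : (fun ρ => z ρ 1) = fun ρ => if ρ ∈ S then 1 else 0 := by
    funext ρ; by_cases h : ρ ∈ S <;> simp [hz, h]
  have a2 : (fun ρ => z ρ 2) = fun ρ => if ρ ∈ S then 0 else 1 := by
    funext ρ; by_cases h : ρ ∈ S <;> simp [hz, h]
  have a3 : (fun ρ => z ρ 3) = fun ρ => if ρ ∈ S then 1 else 0 := by
    funext ρ; by_cases h : ρ ∈ S <;> simp [hz, h]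
  rw [a0, a1, a2, a3, sum_pt, sum_pt]

/-- TWO: columns Z, W, Z', W'; p1 = p(Z,W), p2 = p(Z',W'), p3 = p(Z,W'), p4 = p(Z',W) -/
theorem two (b : Module.Basis Γ ℤ Λ) {χ : Γ → Λ →+* ℂ} (hχ : Function.Injective χ)
    {D : (Fin 4 → Λ) → (Fin 4 → Λ) → ℂ} (h : Two χ D) (p1 p2 p3 p4 : Finset Γ → ℂ)
    (h1 : ∀ x y x' y', nm χ x ≠ 0 → nm χ y ≠ 0 → nm χ x' ≠ 0 → nm χ y' ≠ 0 →
      D ![x, y, 0, 0] ![0, 0, x', y'] = (∑ S, p1 S * mon χ S x y) * ∑ S, p2 S * mon χ S x' y')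
    (h2 : ∀ x y x' y', nm χ x ≠ 0 → nm χ y ≠ 0 → nm χ x' ≠ 0 → nm χ y' ≠ 0 →
      D ![x, 0, 0, y] ![0, y', x', 0] = (∑ S, p3 S * mon χ S x y) * ∑ S, p4 S * mon χ S x' y')
    (S : Finset Γ) : p1 S * p2 S = (-1) ^ S.card * (p3 S * p4 S) := by
  have := two_core b hχ h ((PF.mon p1 0 1).mul (PF.mon p2 2 3))
    ((PF.mon p3 0 1).mul (PF.mon p4 2 3))
    (fun m hm => h1 _ _ _ _ (hm 0) (hm 1) (hm 2) (hm 3))
    (fun m hm => h2 _ _ _ _ (hm 0) (hm 1) (hm 2) (hm 3)) S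
  rw [pt_val p1 p2 S _ rfl, pt_val p3 p4 S _ rfl] at this
  rw [this, ← mul_assoc, ← mul_pow]
  simp

/-- CANCEL -/
theorem cancel (b : Module.Basis Γ ℤ Λ) {χ : Γ → Λ →+* ℂ} (hχ : Function.Injective χ)
    {A I : Type*} [Fintype I] (φ : I → A → ℂ) (hφ : LinearIndependent ℂ φ)
    {D : A → (Fin 4 → Λ) → (Fin 4 → Λ) → ℂ} (h : ∀ a, Two χ (D a))
    (p : I → Finset Γ → ℂ) (p' : Finset Γ → ℂ) (r : Λ → Λ → Λ → Λ → I → ℂ)
    (h1 : ∀ a x y x' y', nm χ x ≠ 0 → nm χ y ≠ 0 → nm χ x' ≠ 0 → nm χ y' ≠ 0 →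
      D a ![x, y, 0, 0] ![0, 0, x', y'] =
        (∑ i, ∑ T, p i T * (φ i a * mon χ T x y)) * ∑ T, p' T * mon χ T x' y')
    (h2 : ∀ a x y x' y', nm χ x ≠ 0 → nm χ y ≠ 0 → nm χ x' ≠ 0 → nm χ y' ≠ 0 →
      D a ![x, 0, 0, y] ![0, y', x', 0] = ∑ i, r x y x' y' i * φ i a)
    (i0 : I) (T : Finset Γ) (hp : p i0 T ≠ 0) (hp' : p' T ≠ 0) :
    ∃ x y x' y', nm χ x ≠ 0 ∧ nm χ y ≠ 0 ∧ nm χ x' ≠ 0 ∧ nm χ y' ≠ 0 ∧ r x y x' y' i0 ≠ 0 := by
  classical
  by_contra hne
  push Not at hne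
  have ht := span_flip_eq_top_iff_linearIndependent.2 hφ
  have hm : (Pi.single i0 1 : I → ℂ) ∈ Submodule.span ℂ (Set.range (flip φ)) := by
    rw [ht]; trivial
  obtain ⟨c, hc⟩ := Finsupp.mem_span_range_iff_exists_finsupp.1 hm
  have hc' : ∀ i, ∑ a ∈ c.support, c a * φ i a = if i = i0 then 1 else 0 := fun i => by
    simpa [Finsupp.sum, Finset.sum_apply, flip, Pi.single_apply] using congrFun hc i
  have hl : ∀ w : I → ℂ, ∑ a ∈ c.support, c a * ∑ i, w i * φ i a = w i0 := by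
    intro w
    simp only [Finset.mul_sum]
    rw [Finset.sum_comm]
    calc ∑ i, ∑ a ∈ c.support, c a * (w i * φ i a) = ∑ i, w i * ∑ a ∈ c.support, c a * φ i a := by
          refine Finset.sum_congr rfl fun i _ => ?_
          rw [Finset.mul_sum]
          exact Finset.sum_congr rfl fun a _ => by ring
      _ = w i0 := by simp [hc']
  have := two b hχ (Two.comb c.support c h) (p i0) p' 0 0 (fun x y x' y' a1 a2 a3 a4 => ?_)
    (fun x y x' y' a1 a2 a3 a4 => ?_) T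
  · simp [hp, hp'] at this
  · rw [← hl (fun i => (∑ T, p i T * mon χ T x y) * ∑ T, p' T * mon χ T x' y')]
    refine Finset.sum_congr rfl fun a _ => ?_
    rw [h1 a x y x' y' a1 a2 a3 a4, Finset.sum_mul]
    congr 1
    refine Finset.sum_congr rfl fun i _ => ?_
    rw [mul_right_comm, Finset.sum_mul Finset.univ (fun T => p i T * mon χ T x y)]
    congr 1
    exact Finset.sum_congr rfl fun T _ => by ring
  · simp only [h2 _ x y x' y' a1 a2 a3 a4]
    rw [hl, hne x y x' y' a1 a2 a3 a4]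
    simp

end lat

end Pool.Agent.Tav.Det
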