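import Pool.Agent.P.MP_2ce3e7_ag.Tav.HPol

/-! Linear systems of functions on a set, and their mixed degrees. -/

set_option autoImplicit false

noncomputable section

namespace Pool.Agent.Tav

open MvPolynomial Module

/-- a finite-dimensional space of functions on `T` without common zero -/
structure LS (Ω T : Type) [Field Ω] where
  sp : Submodule Ω (T → Ω)
  fd : FiniteDimensional Ω sp
  nv : ∀ t, ∃ u ∈ sp, u t ≠ 0

variable {Ω : Type} [Field Ω] {T Y : Type} {β γ ν κ : Type}

instance LS.instFD (L : LS Ω T) : FiniteDimensional Ω L.sp := L.fd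

/-- composition with `j` -/
def pbA (Ω : Type) [Field Ω] (j : T → Y) : (Y → Ω) →ₐ[Ω] (T → Ω) :=
  AlgHom.pi fun t => Pi.evalAlgHom Ω (fun _ : Y => Ω) (j t)

@[simp] theorem pbA_apply (j : T → Y) (u : Y → Ω) (t : T) : pbA Ω j u t = u (j t) := rfl

/-- the span of the coordinates of a map to nonzero vectors -/
def LS.co {s : Type} [Finite s] (p : T → s → Ω) (hp : ∀ t, p t ≠ 0) : LS Ω T where
  sp := Submodule.span Ω (Set.range fun i t => p t i)
  fd := FiniteDimensional.span_of_finite Ω (Set.finite_range _)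
  nv t := by
    obtain ⟨i, hi⟩ := Function.ne_iff.1 (hp t)
    exact ⟨_, Submodule.subset_span ⟨i, rfl⟩, hi⟩

/-- the span of the coordinates in the block `b` -/
def LS.blk {σ : Type} [Finite σ] (w : σ → β) (x : T → σ → Ω)
    (hx : ∀ t b, ∃ v, w v = b ∧ x t v ≠ 0) (b : β) : LS Ω T where
  sp := Tav.blk Ω w (fun v t => x t v) b
  fd := FiniteDimensional.span_of_finite Ω (Set.toFinite _)
  nv t := by
    obtain ⟨v, hv, h⟩ := hx t b
    exact ⟨_, Submodule.subset_span ⟨v, hv, rfl⟩, h⟩

/-- the constants -/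
def LS.one (Ω T : Type) [Field Ω] : LS Ω T where
  sp := 1
  fd := by
    rw [Submodule.one_eq_span]
    exact FiniteDimensional.span_singleton Ω _
  nv _ := ⟨1, Submodule.one_le.1 le_rfl, one_ne_zero⟩

/-- pull-back along `j` -/
def LS.pb (j : T → Y) (L : LS Ω Y) : LS Ω T where
  sp := L.sp.map (pbA Ω j).toLinearMap
  fd := inferInstance
  nv t := by
    obtain ⟨u, hu, h⟩ := L.nv (j t)
    exact ⟨_, ⟨u, hu, rfl⟩, h⟩

/-- the piece of multidegree `d` -/
def pc [Fintype β] (B : β → LS Ω T) (d : β → ℕ) : Submodule Ω (T → Ω) := ∏ i, (B i).sp ^ d i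

/-- the Hilbert polynomial of a family -/
def pL [Fintype β] (B : β → LS Ω T) : MvPolynomial β ℚ := pf fun i => (B i).sp

/-- the exponent that is `1` at each slot and `0` on the base -/
def slots (β ν : Type) [Fintype ν] : β ⊕ ν →₀ ℕ := ∑ j : ν, Finsupp.single (Sum.inr j) 1

/-- the mixed degree of the slots `W` on `T` with the base `B` -/
def mix [Fintype β] [Fintype ν] (B : β → LS Ω T) (W : ν → LS Ω T) : ℚ :=
  coeff (slots β ν) (pL (Sum.elim B W))

/-- near every point `V` is given by forms in the base -/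
def Reg [Fintype β] (B : β → LS Ω T) (V : LS Ω T) : Prop :=
  ∀ t, ∃ (e : β → ℕ) (lam : T → Ω), lam t ≠ 0 ∧ ∀ u ∈ V.sp, lam * u ∈ pc B e

/-- no zero divisors among the pieces -/
def Dom [Fintype β] (B : β → LS Ω T) : Prop :=
  ∀ a b, ∀ f ∈ pc B a, ∀ g ∈ pc B b, f * g = 0 → f = 0 ∨ g = 0

/-- an irreducible source of dimension at most `n` -/
structure Src [Fintype β] (B : β → LS Ω T) (n : ℕ) : Prop where
  ne : Nonempty T
  dom : Dom B
  dg : Dg (pL B) n

/-- `U` generates the pieces of `V` from degree `d` to degree `d + e`, for large `d` -/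
def Bpf [Fintype κ] (V : κ → LS Ω T) (e : κ → ℕ) (U : Submodule Ω (T → Ω)) : Prop :=
  Lg fun d => U * pc V d = pc V (d + e)

/-- no form in the base `C` vanishes on the image of `j` -/
def Dense [Fintype γ] (j : T → Y) (C : γ → LS Ω Y) : Prop :=
  ∀ e, ∀ f ∈ pc C e, pbA Ω j f = 0 → f = 0

/-- the base of a product -/
def prodB {T₁ T₂ β₁ β₂ : Type} (B₁ : β₁ → LS Ω T₁) (B₂ : β₂ → LS Ω T₂) :
    β₁ ⊕ β₂ → LS Ω (T₁ × T₂) :=
  Sum.elim (fun i => (B₁ i).pb Prod.fst) fun i => (B₂ i).pb Prod.snd

/-- the two systems differ by a nowhere vanishing factor -/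
def LS.Sim (V V' : LS Ω T) : Prop :=
  ∃ lam : T → Ω, (∀ t, lam t ≠ 0) ∧ V'.sp = V.sp.map (LinearMap.mulLeft Ω lam)

/-- the conjugate of a system under an automorphism of the field -/
def LS.tw (s : Ω ≃+* Ω) (L : LS Ω T) : LS Ω T where
  sp :=
    { carrier := {u | (fun t => s.symm (u t)) ∈ L.sp}
      add_mem' := fun {a b} ha hb => by
        have := L.sp.add_mem ha hb
        simpa [Pi.add_def] using this
      zero_mem' := by
        have := L.sp.zero_mem
        simpa [Pi.zero_def] using this
      smul_mem' := fun c a ha => by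
        have := L.sp.smul_mem (s.symm c) ha
        simpa [Pi.smul_def] using this }
  fd := by
    obtain ⟨S, hS⟩ := (Submodule.fg_iff_finiteDimensional L.sp).2 L.fd
    refine (Submodule.fg_iff_finiteDimensional _).1 ?_
    rw [Submodule.fg_def]
    refine ⟨(fun u t => s (u t)) '' (S : Set (T → Ω)), S.finite_toSet.image _, le_antisymm ?_ ?_⟩
    · rw [Submodule.span_le]
      rintro _ ⟨u, hu, rfl⟩
      change (fun t => s.symm (s (u t))) ∈ L.sp
      simp only [RingEquiv.symm_apply_apply]
      exact hS ▸ Submodule.subset_span hu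
    · intro u hu
      have h1 : (fun t => s.symm (u t)) ∈ Submodule.span Ω (S : Set (T → Ω)) := hS.symm ▸ hu
      have key : ∀ v ∈ Submodule.span Ω (S : Set (T → Ω)), (fun t => s (v t)) ∈
          Submodule.span Ω ((fun u t => s (u t)) '' (S : Set (T → Ω))) := by
        intro v hv
        induction hv using Submodule.span_induction with
        | mem x hx => exact Submodule.subset_span ⟨x, hx, rfl⟩
        | zero =>
          have h0 : (fun t => s ((0 : T → Ω) t)) = 0 := funext fun t => map_zero s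
          rw [h0]
          exact Submodule.zero_mem _
        | add x y _ _ hx hy => simpa [Pi.add_def] using Submodule.add_mem _ hx hy
        | smul c x _ hx => simpa [Pi.smul_def] using Submodule.smul_mem _ (s c) hx
      simpa using key _ h1
  nv t := by
    obtain ⟨u, hu, h⟩ := L.nv t
    refine ⟨fun t => s (u t), ?_, by simpa using h⟩
    change (fun t => s.symm (s (u t))) ∈ L.sp
    simpa using hu

end Pool.Agent.Tav
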