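import Pool.Agent.P.MP_2ce3e7_ag.Tav.Stmt
import Pool.Agent.P.MP_2ce3e7_ag.Tav.GDefs
import Pool.Agent.P.MP_2ce3e7_ag.Tav.DetB

/-! Interface definitions: shapes, fibres, cycles, reduction data, tori. -/

set_option autoImplicit false

noncomputable section

namespace Pool.Agent.Tav

open MvPolynomial Module Function

/-- the ring, its characters, the coordinates `σ` in blocks `β`, and the slots `ν` -/
structure Sh where
  Λ : Type
  [ring : CommRing Λ]
  Γ : Type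
  [fΓ : Fintype Γ]
  [dΓ : DecidableEq Γ]
  bas : Basis Γ ℤ Λ
  χ : Γ → Λ →+* ℂ
  inj : Injective χ
  σ : Type
  [fσ : Fintype σ]
  β : Type
  [fβ : Fintype β]
  [dβ : DecidableEq β]
  w : σ → β
  ν : Type
  [fν : Fintype ν]
  [dν : DecidableEq ν]
  sl : ν → β
  card : Fintype.card Γ = 2 * Fintype.card ν

attribute [instance] Sh.ring Sh.fΓ Sh.dΓ Sh.fσ Sh.fβ Sh.dβ Sh.fν Sh.dν

/-- the dimension -/
abbrev Sh.n (s : Sh) : ℕ := Fintype.card s.ν

/-- proportional in each block, with nonzero factors -/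
def BPar {K σ β : Type} [Field K] (w : σ → β) (x y : σ → K) : Prop :=
  ∃ c : β → K, (∀ b, c b ≠ 0) ∧ ∀ l, x l = c (w l) * y l

/-- the image of `x` in the product of projective spaces is closed -/
def Cl {K T σ β : Type} [Field K] [DecidableEq β] (w : σ → β) (x : T → σ → K) : Prop :=
  ∀ y : σ → K, (∀ b, ∃ v, w v = b ∧ y v ≠ 0) →
    (∀ d, ∀ f ∈ Sd K w d, (∀ t, eval (x t) f = 0) → eval y f = 0) → ∃ t, BPar w y (x t)

/-- the parallelogram law for the system `H` on the group `G` -/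
def ParLaw {Ω G : Type} [Field Ω] [AddCommGroup G] (H : LS Ω G) : Prop :=
  ∃ (U : Submodule Ω (G × G → Ω)) (lam : G × G → Ω),
    Bpf ![H.pb Prod.fst, H.pb Prod.snd] ![2, 2] U ∧ (∀ t, lam t ≠ 0) ∧
    U = (pc ![H.pb fun t : G × G => t.1 + t.2, H.pb fun t : G × G => t.1 - t.2] ![1, 1]).map
      (LinearMap.mulLeft Ω lam)

/-- a module `G` with coordinates whose image is an abelian variety with action of `s.Λ` -/
structure Fib (Ω : Type) [Field Ω] (s : Sh) where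
  G : Type
  [grp : AddCommGroup G]
  [mod : Module s.Λ G]
  x : G → s.σ → Ω
  hx : ∀ t b, ∃ v, s.w v = b ∧ x t v ≠ 0
  cl : Cl s.w x
  src : Src (LS.blk s.w x hx) s.n
  top : mix (LS.blk s.w x hx) (LS.blk s.w x hx ∘ s.sl) ≠ 0
  sub : ∀ b, Reg (prodB (LS.blk s.w x hx) (LS.blk s.w x hx))
    ((LS.blk s.w x hx b).pb fun t : G × G => t.1 - t.2)
  smul : ∀ (a : s.Λ) b, Reg (LS.blk s.w x hx) ((LS.blk s.w x hx b).pb fun t => a • t)
  par : ∀ b, ParLaw (LS.blk s.w x hx b)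

attribute [instance] Fib.grp Fib.mod

namespace Fib

variable {Ω : Type} [Field Ω] {s : Sh} (F : Fib Ω s)

/-- the hyperplane systems -/
abbrev H : s.β → LS Ω F.G := LS.blk s.w F.x F.hx

/-- `u` is a regular map from the source with base `B` -/
def In {T β : Type} [Fintype β] (B : β → LS Ω T) (u : T → F.G) : Prop :=
  ∀ b, Reg B ((F.H b).pb u)

/-- degree of `u` times the degree of the fibre -/
def DD {T β : Type} [Fintype β] (B : β → LS Ω T) (u : T → F.G) : ℚ :=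
  mix B fun i => (F.H (s.sl i)).pb u

/-- the degree of `a` is its norm -/
def Deg : Prop :=
  ∀ a : s.Λ, (F.DD F.H (fun t => a • t) : ℂ) = Det.nm s.χ a * (F.DD F.H id : ℚ)

/-- `π` acts as the `Q`-th power map on coordinates -/
def Frob (π : s.Λ) (Q : ℕ) : Prop := ∀ t, BPar s.w (F.x (π • t)) (F.x t ^ Q)

/-- an irreducible source of dimension at most `j` with a regular map to the fibre -/
structure Cyc (j : ℕ) where
  T : Type
  β : Type
  [fβ : Fintype β]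
  B : β → LS Ω T
  z : T → F.G
  src : Src B j
  reg : F.In B z

attribute [instance] Cyc.fβ

variable {F} {j j' : ℕ}

/-- the degree of `a z + b w` on `Z × W` -/
def D (Z : F.Cyc j) (W : F.Cyc j') (a b : s.Λ) : ℚ :=
  F.DD (prodB Z.B W.B) fun t => a • Z.z t.1 + b • W.z t.2

/-- its coefficients -/
def pS (Z : F.Cyc j) (W : F.Cyc j') : Finset s.Γ → ℂ :=
  Classical.epsilon fun p => ∀ a b, (D Z W a b : ℂ) = ∑ S, p S * Det.mon s.χ S a b

variable (F)

/-- the class indexed by `S` is seen by algebraic cycles -/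
def AlgS (S : Finset s.Γ) : Prop :=
  ∃ j j', j + j' = s.n ∧ S.card = 2 * j' ∧ ∃ (Z : F.Cyc j) (W : F.Cyc j'), pS Z W S ≠ 0

/-- every Tate class for `π`, `q` is algebraic -/
def TateAlg (π : s.Λ) (q : ℕ) : Prop :=
  ∀ (S : Finset s.Γ) (j : ℕ), ∏ ρ ∈ S, s.χ ρ π = (q : ℂ) ^ j → F.AlgS S

end Fib

/-- the `Q`-th power map is an automorphism of `Ω`, and every element is periodic -/
def FrobF (Ω : Type) [Field Ω] (Q : ℕ) : Prop :=
  1 < Q ∧ (Q : Ω) = 0 ∧ (∃ fr : Ω ≃+* Ω, ∀ c, fr c = c ^ Q) ∧ ∀ c : Ω, ∃ m ≠ 0, c ^ Q ^ m = c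

/-- the span over a ring of the coordinates in the block `b` -/
def blkR {K T σ β : Type} [CommRing K] (w : σ → β) (x : T → σ → K) (b : β) :
    Submodule K (T → K) := crd fun t (l : {l // w l = b}) => x t l

/-- the fibre `B` is the reduction of the fibre `C` -/
structure Red {Ω : Type} [Field Ω] {R : ValuationSubring ℂ} (r : R →+* Ω) {s : Sh}
    (C : Fib ℂ s) (B : Fib Ω s) where
  x : C.G → s.σ → R
  hx : ∀ v l, C.x v l = x v l
  red : C.G →ₗ[s.Λ] B.G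
  onto : Surjective red
  hred : ∀ v, BPar s.w (B.x (red v)) fun l => r (x v l)
  flat : pL B.H = pL C.H
  row : ∀ (a b : s.Λ) (c : s.β),
    Rg (Sum.elim (blkR s.w fun t : C.G × C.G => x t.1) (blkR s.w fun t : C.G × C.G => x t.2))
      (blkR s.w (fun t : C.G × C.G => x (a • t.1 + b • t.2)) c)

/-- the fibre `C` is uniformised by the torus `V / Λ` -/
structure Tor {s : Sh} (C : Fib ℂ s) where
  V : Type
  [ng : NormedAddCommGroup V]
  [ns : NormedSpace ℂ V]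
  [fd : FiniteDimensional ℂ V]
  dim : finrank ℂ V = s.n
  Λ : Submodule ℤ V
  [disc : DiscreteTopology Λ]
  [lat : IsZLattice ℝ Λ]
  riem : Riem Λ
  act : s.Λ →+* (V →L[ℂ] V)
  keep : ∀ a, ∀ l ∈ Λ, act a l ∈ Λ
  u : V ≃+ C.G
  hu : ∀ a v, u (act a v) = a • u v
  φ : V → s.σ → ℂ
  hol : Differentiable ℂ φ
  hφ : ∀ v, BPar s.w (φ v) (C.x (u v))
  ker : ∀ v v', BPar s.w (φ v) (φ v') ↔ v - v' ∈ Λ
  imm : ∀ v dv (c : s.β → ℂ), (∀ l, fderiv ℂ φ v dv l = c (s.w l) * φ v l) → dv = 0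
  ξ : Basis s.Γ ℂ (V →L[ℝ] ℂ)
  eig : ∀ ρ a v, ξ ρ (act a v) = s.χ ρ a * ξ ρ v
  Φ : Finset s.Γ
  lin : ∀ ρ ∈ Φ, ∀ v, ξ ρ (Complex.I • v) = Complex.I * ξ ρ v
  anti : ∀ ρ ∉ Φ, ∀ v, ξ ρ (Complex.I • v) = -Complex.I * ξ ρ v

attribute [instance] Tor.ng Tor.ns Tor.fd Tor.disc Tor.lat

/-- all conjugates of `S` have half of their members in `Φ` -/
def Sh.Bal (s : Sh) (Φ S : Finset s.Γ) : Prop :=
  ∀ (a : ℂ ≃+* ℂ) (e : s.Γ → s.Γ), (∀ ρ c, s.χ (e ρ) c = a (s.χ ρ c)) →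
    2 * (S.filter fun ρ => e ρ ∈ Φ).card = S.card

/-- `S` is a pair of conjugate characters -/
def Sh.Bar (s : Sh) (S : Finset s.Γ) : Prop :=
  ∃ ρ ρ', (∀ c, s.χ ρ' c = star (s.χ ρ c)) ∧ ρ ≠ ρ' ∧ S = {ρ, ρ'}

/-- product of shapes -/
def Sh.pi {ι : Type} [Fintype ι] [DecidableEq ι] (s : ι → Sh) : Sh where
  Λ := ∀ i, (s i).Λ
  Γ := Σ i, (s i).Γ
  bas := Pi.basis fun i => (s i).bas
  χ ρ := ((s ρ.1).χ ρ.2).comp (Pi.evalRingHom _ ρ.1)
  inj := by
    rintro ⟨i, ρ⟩ ⟨i', ρ'⟩ h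
    have key : ∀ c : ∀ i, (s i).Λ, (s i).χ ρ (c i) = (s i').χ ρ' (c i') :=
      fun c => RingHom.congr_fun h c
    by_cases e : i = i'
    · subst e
      have : (s i).χ ρ = (s i).χ ρ' := RingHom.ext fun c => by
        simpa using key (Pi.single i c)
      rw [(s i).inj this]
    · have := key (Pi.single i 1)
      rw [Pi.single_eq_same, Pi.single_eq_of_ne (Ne.symm e), map_one, map_zero] at this
      exact absurd this one_ne_zero
  σ := Σ i, (s i).σ
  β := Σ i, (s i).β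
  w l := ⟨l.1, (s l.1).w l.2⟩
  ν := Σ i, (s i).ν
  sl l := ⟨l.1, (s l.1).sl l.2⟩
  card := by
    simp only [Fintype.card_sigma, Sh.card, Finset.mul_sum]

/-- the ring of diagonal endomorphisms -/
def EnR {g : ℕ} (Λ : Submodule ℤ (Fin g → ℂ)) : Subring (Fin g → ℂ) where
  carrier := En Λ
  mul_mem' := fun {a b} ha hb l hl => by rw [mul_assoc]; exact ha _ (hb l hl)
  one_mem' := fun l hl => by rwa [one_mul]
  add_mem' := fun {a b} ha hb l hl => by rw [add_mul]; exact Λ.add_mem (ha l hl) (hb l hl)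
  zero_mem' := fun l _ => by rw [zero_mul]; exact Λ.zero_mem
  neg_mem' := fun {a} ha l hl => by rw [neg_mul]; exact Λ.neg_mem (ha l hl)

/-- its characters -/
def chE {g : ℕ} (Λ : Submodule ℤ (Fin g → ℂ)) : Fin g ⊕ Fin g → EnR Λ →+* ℂ :=
  Sum.elim (fun i => (Pi.evalRingHom _ i).comp (EnR Λ).subtype)
    fun i => (starRingEnd ℂ).comp ((Pi.evalRingHom _ i).comp (EnR Λ).subtype)

end Pool.Agent.Tav
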