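import Pool.Agent.P.MP_2ce3e7_ag.Tav.SMod
import Pool.Agent.P.MP_2ce3e7_ag.Tav.Defs

/-! Rows of a model are regular over the valuation ring, in the form used by `Red`. -/

set_option autoImplicit false

noncomputable section

namespace Pool.Agent.Tav

open Function

theorem blkR_unit {K T σ : Type} [CommRing K] (x : T → σ → K) (c : Unit) :
    blkR (fun _ : σ => ()) x c = crd x := by
  unfold blkR crd
  congr 1
  ext u
  exact ⟨fun ⟨l, h⟩ => ⟨l.1, h⟩, fun ⟨l, h⟩ => ⟨⟨l, rfl⟩, h⟩⟩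

variable {Ω : Type} [Field Ω] {R : ValuationSubring ℂ} {r : R →+* Ω} {σ : Type} [Fintype σ]
  {g : ℕ}

theorem Model.row (X : Model r σ g) (hr : Surjective r) (a b : EnR X.Λ) (c : Unit) :
    Rg (Sum.elim (blkR (fun _ : σ => ()) fun t : (Fin g → ℂ) × (Fin g → ℂ) => X.x t.1)
        (blkR (fun _ : σ => ()) fun t : (Fin g → ℂ) × (Fin g → ℂ) => X.x t.2))
      (blkR (fun _ : σ => ())
        (fun t : (Fin g → ℂ) × (Fin g → ℂ) => X.x (a • t.1 + b • t.2)) c) := by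
  rw [blkR_unit]
  refine Tr.rg_add X hr (j := fun t : (Fin g → ℂ) × (Fin g → ℂ) => a.1 * t.1)
    (j' := fun t => b.1 * t.2) (Tr.rg_mul X a.2 ?_) (Tr.rg_mul X b.2 ?_)
  · rw [← blkR_unit _ ()]
    exact Tr.rg_self _ (Sum.inl ())
  · rw [← blkR_unit _ ()]
    exact Tr.rg_self _ (Sum.inr ())

end Pool.Agent.Tav
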