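import Pool.Agent.P.MP_2ce3e7_ag.Tav.GBase
import Pool.Agent.P.MP_2ce3e7_ag.Tav.RK

/-! Base point free systems. -/

set_option autoImplicit false

noncomputable section

namespace Pool.Agent.Tav

open MvPolynomial Module

variable {Ω : Type} [Field Ω] {T Y : Type} {β κ : Type} [Fintype β] [Fintype κ]

theorem Bpf.self (V : κ → LS Ω T) (e : κ → ℕ) : Bpf V e (pc V e) :=
  Lg.of_forall fun d => by
    rw [pc, pc, pc, ← Finset.prod_mul_distrib]
    exact Finset.prod_congr rfl fun i _ => by rw [Pi.add_apply, pow_add, mul_comm]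

theorem Bpf.pb {V : κ → LS Ω Y} {e : κ → ℕ} {U : Submodule Ω (Y → Ω)} (h : Bpf V e U) (j : T → Y) :
    Bpf (fun i => (V i).pb j) e (U.map (pbA Ω j).toLinearMap) :=
  Lg.mono h fun d hd => by rw [pc_pb, pc_pb, ← hd, Submodule.map_mul]

theorem bpf_aeval {σ : Type} (x : T → σ → Ω) (f : MvPolynomial σ Ω) :
    aeval (fun v t => x t v) f = fun t => eval (x t) f := by
  induction f using MvPolynomial.induction_on with
  | C a => exact funext fun t => by simp
  | add p q hp hq => rw [map_add, hp, hq]; exact funext fun t => by simp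
  | mul_X p v hp => rw [map_mul, hp]; exact funext fun t => by simp

/-- forms that generate all forms of large degree modulo the ideal of the points -/
theorem Bpf.of_lg [DecidableEq β] {σ s : Type} [Finite σ] [Finite s] (w : σ → β)
    (x : T → σ → Ω) (hx : ∀ t b, ∃ v, w v = b ∧ x t v ≠ 0) (e : β → ℕ)
    (F : s → MvPolynomial σ Ω) (hF : ∀ i, F i ∈ Sd Ω w e)
    (h : Lg fun d => ∀ f ∈ Sd Ω w d,
      f ∈ kerG Ω w (fun v t => x t v) ⊔ Ideal.span (Set.range F)) :
    Bpf (LS.blk w x hx) e (Submodule.span Ω (Set.range fun i t => eval (x t) (F i))) := by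
  cases nonempty_fintype s
  refine (Lg.add h e).mono fun d hd => ?_
  have e1 : ∀ a, pc (LS.blk w x hx) a = (Sd Ω w a).map (aeval fun v t => x t v).toLinearMap :=
    fun a => (map_Sd _ a).symm
  rw [e1, e1]
  apply le_antisymm
  · rw [Submodule.mul_le]
    rintro u hu _ ⟨g, hg, rfl⟩
    induction hu using Submodule.span_induction with
    | mem u hu =>
      obtain ⟨i, rfl⟩ := hu
      refine ⟨g * F i, IsWeightedHomogeneous.mul hg (hF i), ?_⟩
      rw [AlgHom.toLinearMap_apply, map_mul, mul_comm, bpf_aeval x (F i)]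
      rfl
    | zero => rw [zero_mul]; exact Submodule.zero_mem _
    | add a b _ _ ha hb => rw [add_mul]; exact Submodule.add_mem _ ha hb
    | smul c a _ ha => rw [smul_mul_assoc]; exact Submodule.smul_mem _ _ ha
  · rintro _ ⟨f, hf, rfl⟩
    obtain ⟨j, hj, y, hy, hs⟩ := Submodule.mem_sup.1 (hd f hf)
    obtain ⟨a, rfl⟩ := Ideal.mem_span_range_iff_exists_fun.1 hy
    have e2 := congrArg (weightedHomogeneousComponent (wN w) (d + e)) hs
    rw [map_add, map_sum, IsWeightedHomogeneous.weightedHomogeneousComponent_same hf] at e2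
    simp only [cmp_mul (hF _)] at e2
    rw [← e2, AlgHom.toLinearMap_apply, map_add, aeval_of_mem_kerG (grJ_kerG _ _ _ hj), zero_add,
      map_sum]
    refine Submodule.sum_mem _ fun i _ => ?_
    rw [mul_comm _ (F i), map_mul, bpf_aeval x (F i)]
    exact Submodule.mul_mem_mul (Submodule.subset_span (Set.mem_range_self i))
      (Submodule.mem_map_of_mem (weightedHomogeneousComponent_mem _ _ _))

omit [Fintype β] in
theorem bpf_weight [DecidableEq β] {σ : Type} [Finite σ] (w : σ → β) (m : σ →₀ ℕ) (i : β) :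
    Finsupp.mapDomain w m i = Finsupp.weight (wN w) m i := by
  induction m using Finsupp.induction_linear with
  | zero => simp
  | add a b ha hb => rw [Finsupp.mapDomain_add, map_add, Finsupp.add_apply, Pi.add_apply, ha, hb]
  | single v k =>
    rw [Finsupp.mapDomain_single, Finsupp.weight_single]
    by_cases h : w v = i
    · simp [wN, h]
    · simp [wN, Ne.symm h]

/-- forms without common zero on the closure -/
theorem Bpf.of_forms [IsAlgClosed Ω] [DecidableEq β] {σ s : Type} [Finite σ] [Finite s] (w : σ → β)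
    (x : T → σ → Ω) (hx : ∀ t b, ∃ v, w v = b ∧ x t v ≠ 0) (e : β → ℕ)
    (F : s → MvPolynomial σ Ω) (hF : ∀ i, F i ∈ Sd Ω w e)
    (h : ∀ y : σ → Ω, (∀ b, ∃ v, w v = b ∧ y v ≠ 0) →
      (∀ d, ∀ f ∈ Sd Ω w d, (∀ t, eval (x t) f = 0) → eval y f = 0) → ∃ i, eval y (F i) ≠ 0) :
    Bpf (LS.blk w x hx) e (Submodule.span Ω (Set.range fun i t => eval (x t) (F i))) := by
  obtain ⟨N, hN⟩ := irr w (kerG Ω w (fun v t => x t v) ⊔ Ideal.span (Set.range F)) fun y hy => by
    by_contra hc
    obtain ⟨i, hi⟩ := h y (fun b => by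
      by_contra h0
      exact hc ⟨b, fun v hv => not_not.1 fun h1 => h0 ⟨v, hv, h1⟩⟩) fun d f hf h0 =>
        hy f (Ideal.mem_sup_left ((mem_kerG hf).2 (by rw [bpf_aeval]; exact funext h0)))
    exact hi (hy _ (Ideal.mem_sup_right (Ideal.subset_span ⟨i, rfl⟩)))
  refine Bpf.of_lg w x hx e F hF ⟨N, fun d hd f hf => hN f fun m hm i => ?_⟩
  rw [bpf_weight, hf (mem_support_iff.1 hm)]
  exact hd i

/-- powers of the coordinates -/
theorem Bpf.pow {s : Type} [Finite s] (p : T → s → Ω) (hp : ∀ t, p t ≠ 0) (q : ℕ) :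
    Bpf (fun _ : Unit => LS.co p hp) (fun _ => q)
      (Submodule.span Ω (Set.range fun i t => p t i ^ q)) := by
  cases nonempty_fintype s
  have hx : ∀ t (b : Unit), ∃ v : s, (fun _ => ()) v = b ∧ p t v ≠ 0 := fun t b =>
    (Function.ne_iff.1 (hp t)).imp fun _ h => ⟨rfl, h⟩
  have e1 : (fun _ : Unit => LS.co p hp) = LS.blk (fun _ => ()) p hx := funext fun b =>
    LS.ext' (congrArg (Submodule.span Ω) (by ext u; simp [Set.mem_range]))
  have e2 : (fun i t => p t i ^ q) = fun i t => eval (p t) (X i ^ q : MvPolynomial s Ω) := by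
    simp
  rw [e1, e2]
  refine Bpf.of_lg _ p hx _ (fun i => X i ^ q) (fun i => ?_)
    ⟨Fintype.card s * q + 1, fun d hd f hf => Ideal.mem_sup_right ?_⟩
  · have := IsWeightedHomogeneous.pow (X_mem_Sd (Ω := Ω) (β := fun _ : s => ()) i) q
    have e3 : q • (Pi.single () 1 : Unit → ℕ) = fun _ => q := funext fun b => by simp
    rwa [e3] at this
  · rw [f.as_sum]
    refine Ideal.sum_mem _ fun m hm => ?_
    have h1 := congrFun (hf (mem_support_iff.1 hm)) ()
    rw [weight_wN] at h1
    obtain ⟨i, hi⟩ : ∃ i, q ≤ m i := by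
      by_contra hc
      have h2 : ∑ v, m v ≤ Fintype.card s * q :=
        (Finset.sum_le_card_nsmul _ _ q fun v _ => (not_le.1 fun h => hc ⟨v, h⟩).le).trans
          (by simp)
      have h3 := hd ()
      simp only [Finset.filter_true] at h1
      omega
    have e4 : m = (m - Finsupp.single i q) + Finsupp.single i q :=
      (tsub_add_cancel_of_le (Finsupp.single_le_iff.2 hi)).symm
    rw [e4, monomial_add_single]
    exact Ideal.mul_mem_left _ _ (Ideal.subset_span ⟨i, rfl⟩)

end Pool.Agent.Tav
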