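import Pool.Agent.P.MP_2ce3e7_ag.Tav.Defs
import Pool.Agent.P.MP_2ce3e7_ag.Tav.GBpf

/-! Closed images, base point freeness and the parallelogram law. -/

set_option autoImplicit false

noncomputable section

namespace Pool.Agent.Tav

open MvPolynomial Module

variable {Ω : Type} [Field Ω] {T σ β : Type}

theorem eval_bpar [DecidableEq β] [Fintype β] [Finite σ] {w : σ → β} {f : MvPolynomial σ Ω}
    {d : β → ℕ} (hf : f ∈ Sd Ω w d) (c : β → Ω) (y : σ → Ω) :
    eval (fun l => c (w l) * y l) f = (∏ b, c b ^ d b) * eval y f := by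
  cases nonempty_fintype σ
  rw [eval_eq', eval_eq', Finset.mul_sum]
  refine Finset.sum_congr rfl fun s hs => ?_
  have h1 : ∏ b, c b ^ d b = ∏ l, c (w l) ^ s l := by
    rw [← hf (mem_support_iff.1 hs), ← Finset.prod_fiberwise Finset.univ w]
    refine Finset.prod_congr rfl fun i _ => ?_
    rw [weight_wN, ← Finset.prod_pow_eq_pow_sum]
    exact Finset.prod_congr rfl fun v hv => by rw [(Finset.mem_filter.1 hv).2]
  simp only [mul_pow, Finset.prod_mul_distrib, h1]
  ring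

theorem BPar.eval_ne [DecidableEq β] [Fintype β] [Finite σ] {w : σ → β} {y z : σ → Ω}
    (h : BPar w y z) {f : MvPolynomial σ Ω} {d : β → ℕ} (hf : f ∈ Sd Ω w d) :
    eval y f = 0 ↔ eval z f = 0 := by
  obtain ⟨c, hc, e⟩ := h
  rw [funext e, eval_bpar hf, mul_eq_zero, or_iff_right]
  exact Finset.prod_ne_zero_iff.2 fun b _ => pow_ne_zero _ (hc b)

/-- on a closed image, a space of forms without common zero is base point free -/
theorem Bpf.of_cl [IsAlgClosed Ω] [DecidableEq β] [Fintype β] [Finite σ] {w : σ → β}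
    {x : T → σ → Ω} (hx : ∀ t b, ∃ v, w v = b ∧ x t v ≠ 0) (hc : Cl w x) {e : β → ℕ}
    {U : Submodule Ω (T → Ω)} (hU : U ≤ pc (LS.blk w x hx) e) (h0 : ∀ t, ∃ u ∈ U, u t ≠ 0) :
    Bpf (LS.blk w x hx) e U := by
  have : FiniteDimensional Ω U := Submodule.finiteDimensional_of_le hU
  let b := finBasis Ω U
  choose F hF hE using fun i => mem_pc_blk.1 (hU (b i).2)
  have e1 : U = Submodule.span Ω (Set.range fun i t => eval (x t) (F i)) := by
    rw [funext hE]
    have := congrArg (Submodule.map U.subtype) b.span_eq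
    rw [Submodule.map_span, Submodule.map_subtype_top, ← Set.range_comp] at this
    exact this.symm
  rw [e1]
  refine Bpf.of_forms w x hx e F hF fun y hy hz => ?_
  obtain ⟨t, ht⟩ := hc y hy hz
  by_contra hn
  obtain ⟨u, hu, h1⟩ := h0 t
  rw [e1] at hu
  refine h1 (Submodule.span_le (p := LinearMap.ker (LinearMap.proj t : (T → Ω) →ₗ[Ω] Ω)).2 ?_ hu)
  rintro _ ⟨i, rfl⟩
  exact (ht.eval_ne (hF i)).1 (not_not.1 fun h => hn ⟨i, h⟩)

theorem rename_mem_Sd {σ' β' : Type} [DecidableEq β] [DecidableEq β'] [Fintype β] {w : σ → β}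
    {w' : σ' → β'} (f : σ → σ') (g : β → β') (h : ∀ v, w' (f v) = g (w v))
    {F : MvPolynomial σ Ω} {d : β → ℕ} (hF : F ∈ Sd Ω w d) :
    rename f F ∈ Sd Ω w' (∑ b, Pi.single (g b) (d b)) := by
  classical
  intro s hs
  obtain ⟨u, rfl, hu⟩ := coeff_rename_ne_zero f F s hs
  rw [← hF hu]
  clear hs hu
  induction u using Finsupp.induction_linear with
  | zero => simp
  | add a b ha hb =>
    simp only [Finsupp.mapDomain_add, map_add, ha, hb, Pi.add_apply, Pi.single_add,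
      Finset.sum_add_distrib]
  | single v k =>
    rw [Finsupp.mapDomain_single, Finsupp.weight_single, Finsupp.weight_single,
      Finset.sum_eq_single (w v)]
    · simp [wN, h, ← Pi.single_smul]
    · intro b _ hb
      simp [wN, hb]
    · simp

/-- a point of the closure restricts to a point of the closure of a factor -/
theorem Cl.factor {σ' β' T' : Type} [DecidableEq β] [DecidableEq β'] [Fintype β] {w : σ → β}
    {x : T → σ → Ω} (hc : Cl w x) {w' : σ' → β'} {x' : T' → σ' → Ω} (f : σ → σ') (g : β → β')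
    (h : ∀ v, w' (f v) = g (w v)) (j : T' → T) (hj : ∀ t v, x' t (f v) = x (j t) v)
    {y : σ' → Ω} (hy : ∀ b, ∃ v, w v = b ∧ y (f v) ≠ 0)
    (hz : ∀ d, ∀ F ∈ Sd Ω w' d, (∀ t, eval (x' t) F = 0) → eval y F = 0) :
    ∃ t, BPar w (y ∘ f) (x t) :=
  hc _ hy fun d F hF h0 => by
    rw [← eval_rename]
    refine hz _ _ (rename_mem_Sd f g h hF) fun t => ?_
    rw [eval_rename, show x' t ∘ f = x (j t) from funext (hj t)]
    exact h0 _

theorem Cl.prod {T₁ T₂ σ₁ σ₂ β₁ β₂ : Type} [DecidableEq β₁] [DecidableEq β₂] [Fintype β₁]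
    [Fintype β₂] {w₁ : σ₁ → β₁} {w₂ : σ₂ → β₂} {x₁ : T₁ → σ₁ → Ω} {x₂ : T₂ → σ₂ → Ω}
    (h₁ : Cl w₁ x₁) (h₂ : Cl w₂ x₂) :
    Cl (Sum.map w₁ w₂) fun t : T₁ × T₂ => Sum.elim (x₁ t.1) (x₂ t.2) := by
  intro y hy hz
  obtain ⟨t, c, hc, e⟩ := h₁.factor Sum.inl Sum.inl (fun _ => rfl) Prod.fst (fun _ _ => rfl)
    (fun b => by
      obtain ⟨v | v, h1, h2⟩ := hy (Sum.inl b)
      · exact ⟨v, Sum.inl_injective h1, h2⟩
      · exact absurd h1 Sum.inr_ne_inl) hz
  obtain ⟨s, c', hc', e'⟩ := h₂.factor Sum.inr Sum.inr (fun _ => rfl) Prod.snd (fun _ _ => rfl)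
    (fun b => by
      obtain ⟨v | v, h1, h2⟩ := hy (Sum.inr b)
      · exact absurd h1 Sum.inl_ne_inr
      · exact ⟨v, Sum.inr_injective h1, h2⟩) hz
  refine ⟨(t, s), Sum.elim c c', ?_, ?_⟩
  · rintro (b | b)
    exacts [hc b, hc' b]
  · rintro (l | l)
    exacts [e l, e' l]

theorem Cl.pi {I : Type} {T σ β : I → Type} [DecidableEq I] [∀ i, DecidableEq (β i)]
    [∀ i, Fintype (β i)] {w : ∀ i, σ i → β i} {x : ∀ i, T i → σ i → Ω}
    (h : ∀ i, Cl (w i) (x i)) :
    Cl (fun l : Σ i, σ i => (⟨l.1, w l.1 l.2⟩ : Σ i, β i))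
      fun (t : ∀ i, T i) l => x l.1 (t l.1) l.2 := by
  intro y hy hz
  choose t c hc e using fun i => (h i).factor (Sigma.mk i) (Sigma.mk i) (fun _ => rfl)
    (fun t : ∀ i, T i => t i) (fun _ _ => rfl) (fun b => by
      obtain ⟨⟨j, v⟩, h1, h2⟩ := hy ⟨i, b⟩
      obtain ⟨rfl, h3⟩ := Sigma.mk.inj_iff.1 h1
      exact ⟨v, eq_of_heq h3, h2⟩) hz
  exact ⟨t, fun b => c b.1 b.2, fun b => hc b.1 b.2, fun l => e l.1 l.2⟩

/-- a polynomial that vanishes on the cone has components that vanish at the points -/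
theorem cmp_eval_zero [Infinite Ω] [Finite σ] [Unique β] {w : σ → β} {f : MvPolynomial σ Ω}
    {z : σ → Ω} (h : ∀ c : Ω, eval (c • z) f = 0) (d : β → ℕ) :
    eval z (weightedHomogeneousComponent (@wN σ β (Classical.decEq _) w) d f) = 0 := by
  let _ : DecidableEq β := Classical.decEq _
  classical
  obtain ⟨S, hS⟩ : ∃ S : Finset (β → ℕ), d ∈ S ∧
      ∑ e ∈ S, weightedHomogeneousComponent (wN w) e f = f := by
    have h1 := weightedHomogeneousComponent_finsupp (w := wN w) f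
    refine ⟨insert d h1.toFinset, Finset.mem_insert_self _ _, ?_⟩
    rw [← finsum_eq_sum_of_support_subset _ (fun e he => Finset.mem_coe.2
      (Finset.mem_insert_of_mem (h1.mem_toFinset.2 he)))]
    exact sum_weightedHomogeneousComponent _ f
  have key : ∑ e ∈ S, Polynomial.monomial (e default)
      (eval z (weightedHomogeneousComponent (wN w) e f)) = 0 := by
    refine Polynomial.funext fun c => ?_
    rw [Polynomial.eval_zero, ← h c, Polynomial.eval_finsetSum]
    conv_rhs => rw [← hS.2, map_sum]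
    refine Finset.sum_congr rfl fun e _ => ?_
    have := eval_bpar (weightedHomogeneousComponent_mem (wN w) f e) (fun _ => c) z
    rw [Fintype.prod_unique] at this
    rw [Polynomial.eval_monomial, mul_comm]
    exact this.symm
  have := congrArg (fun P => Polynomial.coeff P (d default)) key
  simp only [Polynomial.finsetSum_coeff, Polynomial.coeff_monomial, Polynomial.coeff_zero] at this
  rw [Finset.sum_eq_single d] at this
  · simpa using this
  · intro e _ he
    exact if_neg fun h => he (funext fun b => by rw [Unique.eq_default b]; exact h)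
  · exact fun h => absurd hS.1 h

variable {G : Type} [AddCommGroup G]

theorem AV.cl_blk [Infinite Ω] [Finite σ] [DecidableEq β] [Unique β] {p : G → σ → Ω} {g : ℕ}
    (h : AV p g) (w : σ → β) : Cl w p := by
  obtain rfl : ‹DecidableEq β› = Classical.decEq _ := Subsingleton.elim _ _
  let _ : DecidableEq β := Classical.decEq _
  intro y hy hz
  obtain ⟨t, c, hc, e⟩ := h.cl y (fun f hf => by
    have h1 := sum_weightedHomogeneousComponent (wN w) f
    rw [finsum_eq_sum _ (weightedHomogeneousComponent_finsupp (w := wN w) f)] at h1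
    rw [← h1, map_sum]
    exact Finset.sum_eq_zero fun d _ => hz d _ (weightedHomogeneousComponent_mem _ _ _) fun t =>
      cmp_eval_zero (fun c => hf _ ⟨c, t, rfl⟩) d) (by
    obtain ⟨v, -, hv⟩ := hy default
    exact fun h0 => hv (congrFun h0 v))
  exact ⟨t, fun _ => c, fun _ => hc.ne_zero, fun l => congrFun e l⟩

theorem ParLaw.pb {G' : Type} [AddCommGroup G'] {H : LS Ω G} (h : ParLaw H) (f : G' →+ G) :
    ParLaw (H.pb f) := by
  obtain ⟨U, lam, h1, h2, h3⟩ := h
  have e1 : (fun i => (![H.pb Prod.fst, H.pb Prod.snd] i).pb (Prod.map f f)) =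
      ![(H.pb f).pb Prod.fst, (H.pb f).pb Prod.snd] := funext fun i => by
    fin_cases i <;> simp only [Fin.zero_eta, Fin.mk_one, Matrix.cons_val_zero, Matrix.cons_val_one,
      LS.pb_pb] <;> rfl
  have e2 : (fun i => (![H.pb fun t : G × G => t.1 + t.2, H.pb fun t : G × G => t.1 - t.2] i).pb
      (Prod.map f f)) = ![(H.pb f).pb fun t : G' × G' => t.1 + t.2,
        (H.pb f).pb fun t : G' × G' => t.1 - t.2] := funext fun i => by
    fin_cases i <;> simp only [Fin.zero_eta, Fin.mk_one, Matrix.cons_val_zero, Matrix.cons_val_one,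
      LS.pb_pb] <;> congr 1 <;> funext t <;> simp
  refine ⟨U.map (pbA Ω (Prod.map f f)).toLinearMap, lam ∘ Prod.map f f, e1 ▸ h1.pb _,
    fun t => h2 _, ?_⟩
  rw [← e2, pc_pb, h3, ← Submodule.map_comp, ← Submodule.map_comp]
  rfl

/-- the parallelogram law from forms of bidegree `(2, 2)` -/
theorem ParLaw.of_law [IsAlgClosed Ω] [Finite σ] {p : G → σ → Ω} (hp : ∀ t, p t ≠ 0)
    (hc : Cl (fun _ => ()) p) (law : ∃ c : G × G → Ω, (∀ t, c t ≠ 0) ∧ ∀ i j,
      (c * fun t => p (t.1 + t.2) i * p (t.1 - t.2) j) ∈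
        (crd fun t : G × G => p t.1) ^ 2 * (crd fun t : G × G => p t.2) ^ 2) :
    ParLaw (LS.co p hp) := by
  obtain ⟨c, hc0, hl⟩ := law
  refine ⟨_, c, ?_, hc0, rfl⟩
  have hx : ∀ (t : G × G) (b : Unit ⊕ Unit), ∃ v, Sum.map (fun _ : σ => ()) (fun _ : σ => ()) v = b ∧
      Sum.elim (p t.1) (p t.2) v ≠ 0 := by
    rintro t (b | b)
    · obtain ⟨i, hi⟩ := Function.ne_iff.1 (hp t.1)
      exact ⟨Sum.inl i, rfl, hi⟩
    · obtain ⟨i, hi⟩ := Function.ne_iff.1 (hp t.2)
      exact ⟨Sum.inr i, rfl, hi⟩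
  have e1 : ∀ d : Unit ⊕ Unit → ℕ, pc (LS.blk _ _ hx) d =
      (crd fun t : G × G => p t.1) ^ d (Sum.inl ()) *
        (crd fun t : G × G => p t.2) ^ d (Sum.inr ()) := fun d => by
    rw [pc, Fintype.prod_sum_type, Fintype.prod_unique, Fintype.prod_unique]
    congr 2
    · refine congrArg (Submodule.span Ω) (Set.ext fun u => ⟨?_, ?_⟩)
      · rintro ⟨v | v, h1, rfl⟩
        exacts [⟨v, rfl⟩, absurd h1 Sum.inr_ne_inl]
      · rintro ⟨v, rfl⟩
        exact ⟨Sum.inl v, rfl, rfl⟩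
    · refine congrArg (Submodule.span Ω) (Set.ext fun u => ⟨?_, ?_⟩)
      · rintro ⟨v | v, h1, rfl⟩
        exacts [absurd h1 Sum.inl_ne_inr, ⟨v, rfl⟩]
      · rintro ⟨v, rfl⟩
        exact ⟨Sum.inr v, rfl, rfl⟩
  have e2 : ∀ (a b : G × G → G) (d : Fin 2 → ℕ), pc ![(LS.co p hp).pb a, (LS.co p hp).pb b] d =
      (crd fun t => p (a t)) ^ d 0 * (crd fun t => p (b t)) ^ d 1 := fun a b d => by
    rw [pc, Fin.prod_univ_two, LS.pb_co, LS.pb_co]
    rfl
  have hU : Bpf (LS.blk _ _ hx) (fun _ => 2) ((pc ![(LS.co p hp).pb fun t : G × G => t.1 + t.2,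
      (LS.co p hp).pb fun t : G × G => t.1 - t.2] ![1, 1]).map (LinearMap.mulLeft Ω c)) := by
    refine Bpf.of_cl hx (hc.prod hc) ?_ fun t => ?_
    · rw [e1, e2, Submodule.map_le_iff_le_comap]
      simp only [Matrix.cons_val_zero, Matrix.cons_val_one, pow_one]
      rw [crd, crd, Submodule.span_mul_span, Submodule.span_le]
      rintro _ ⟨_, ⟨i, rfl⟩, _, ⟨j, rfl⟩, rfl⟩
      exact hl i j
    · obtain ⟨u, hu, h1⟩ := pc_nv ![(LS.co p hp).pb fun t : G × G => t.1 + t.2,
        (LS.co p hp).pb fun t : G × G => t.1 - t.2] ![1, 1] t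
      exact ⟨_, ⟨u, hu, rfl⟩, mul_ne_zero (hc0 t) h1⟩
  obtain ⟨N, hN⟩ := hU
  refine ⟨N, fun d hd => ?_⟩
  have := hN (Sum.elim (fun _ => d 0) fun _ => d 1) (by rintro (b | b) <;> exact hd _)
  beta_reduce at this ⊢
  rw [e1, e1] at this
  rw [e2 Prod.fst, e2 Prod.fst]
  exact this

end Pool.Agent.Tav
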