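import Pool.Agent.P.MP_2ce3e7_ag.Tav.MSh
import Pool.Agent.P.MP_2ce3e7_ag.Tav.MAV
import Pool.Agent.P.MP_2ce3e7_ag.Tav.MRow
import Pool.Agent.P.MP_2ce3e7_ag.Tav.Par

set_option autoImplicit false

noncomputable section

namespace Pool.Agent.Tav

open MvPolynomial Module Function

section av
variable {K G σ : Type} [Field K] [Fintype σ] {p : G → σ → K}

theorem blk_unit' (hp : ∀ t, p t ≠ 0) :
    LS.blk (fun _ : σ => ()) p (hx_unit hp) = fun _ => LS.co p hp := funext (blk_unit hp)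

theorem pc_blk_unit (hp : ∀ t, p t ≠ 0) (d : Unit → ℕ) :
    pc (LS.blk (fun _ : σ => ()) p (hx_unit hp)) d = crd p ^ d () := by
  rw [blk_unit' hp, pc, Fintype.prod_unique]
  rfl

theorem pL_unit (hp' : ∀ t, p t ≠ 0) : pL (LS.blk (fun _ : σ => ()) p (hx_unit hp')) =
    mrg (fun _ : Unit => (0 : Fin 1)) (hp ![crd p]) := by
  rw [blk_unit' hp', hp_eq_pf]
  have : ∀ i, FiniteDimensional K (![crd p] i) := fun i => by
    rw [Subsingleton.elim i 0]
    exact (LS.co p hp').fd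
  exact pf_comp ![crd p] (g := fun _ : Unit => (0 : Fin 1)) fun i => ⟨(), Subsingleton.elim _ _⟩

end av

variable {Ω : Type} [Field Ω] {R : ValuationSubring ℂ} {r : R →+* Ω} {σ : Type} [Fintype σ]
  {g : ℕ}

theorem Model.rd_gen (X : Model r σ g) {T : Type} (j : T → Fin g → ℂ) :
    Rd R.subtype id 1 (crd fun t => X.x (j t)) (crd fun t l => (X.x (j t) l : ℂ)) :=
  Rd.crd fun t l => by simp

theorem Model.mor_gen (X : Model r σ g) (a : EnR X.Λ) :
    Mor (fun v l => (X.x v l : ℂ)) (fun v l => (X.x v l : ℂ)) (fun v => a • v) :=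
  Rg.reduce (r := R.subtype) surjective_id (m := fun _ => 1) (L := ![crd X.x])
    (fun i => by fin_cases i; exact X.rd_gen id) (fun _ _ => one_ne_zero)
    (y := fun v => X.x (a.1 * v)) (n := 1) (fun _ => one_ne_zero)
    (fun v l => (one_mul _).symm) (X.reg a.1 a.2)

theorem Model.law_gen (X : Model r σ g) :
    ∃ c : (Fin g → ℂ) × (Fin g → ℂ) → ℂ, (∀ t, c t ≠ 0) ∧ ∀ i j,
    (c * fun t => (X.x (t.1 + t.2) i : ℂ) * (X.x (t.1 - t.2) j : ℂ)) ∈
      (crd fun (t : (Fin g → ℂ) × (Fin g → ℂ)) l => (X.x t.1 l : ℂ)) ^ 2 *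
        (crd fun t l => (X.x t.2 l : ℂ)) ^ 2 := by
  obtain ⟨c, hc, h⟩ := X.law
  refine ⟨fun t => c t, fun t => ((hc t).map R.subtype).ne_zero, fun i j => ?_⟩
  obtain ⟨u, hu, e⟩ := (((X.rd_gen Prod.fst).pow 2).mul ((X.rd_gen Prod.snd).pow 2)) _ (h i j)
  have : u = (fun t => (c t : ℂ)) *
      fun t => (X.x (t.1 + t.2) i : ℂ) * (X.x (t.1 - t.2) j : ℂ) := by
    funext t
    simpa using e t
  exact this ▸ hu

/-- the generic fibre -/
@[reducible] def Model.fC (X : Model r σ g) : Fib ℂ X.sh where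
  G := Fin g → ℂ
  mod := inferInstanceAs (Module (EnR X.Λ) (Fin g → ℂ))
  x v l := X.x v l
  hx := hx_unit X.gen.ne
  cl := (X.gen.cl_blk _)
  src := by
    rw [blk_unit' X.gen.ne, X.sh_n]
    exact X.gen.src
  top := by
    rw [blk_unit' X.gen.ne]
    exact X.gen.top
  sub b := by
    rw [blk_unit' X.gen.ne]
    exact X.gen.sub'
  smul a b := by
    rw [blk_unit' X.gen.ne]
    exact Mor.reg X.gen.ne X.gen.ne (X.mor_gen a)
  par b := by
    rw [blk_unit' X.gen.ne]
    exact ParLaw.of_law X.gen.ne (X.gen.cl_blk _) X.law_gen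

/-- the special fibre -/
@[reducible] def Model.fB [IsAlgClosed Ω] (X : Model r σ g) : Fib Ω X.sh where
  G := X.B
  mod := X.modB
  x := X.p
  hx := hx_unit X.sp.ne
  cl := (X.sp.cl_blk _)
  src := by
    rw [blk_unit' X.sp.ne, X.sh_n]
    exact X.sp.src
  top := by
    rw [blk_unit' X.sp.ne]
    exact X.sp.top
  sub b := by
    rw [blk_unit' X.sp.ne]
    exact X.sp.sub'
  smul a b := by
    rw [blk_unit' X.sp.ne]
    exact Mor.reg X.sp.ne X.sp.ne (X.mor_smul a)
  par b := by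
    rw [blk_unit' X.sp.ne]
    exact ParLaw.of_law X.sp.ne (X.sp.cl_blk _) X.law_sp

/-- the reduction data -/
def Model.rd [IsAlgClosed Ω] (X : Model r σ g) (hr : Surjective r) : Red r X.fC X.fB where
  x := X.x
  hx _ _ := rfl
  red := { toFun := X.red, map_add' := X.red.map_add, map_smul' := X.red_smul }
  onto := X.onto
  hred v := Par.bPar.1 (X.hred v)
  flat := (pL_unit X.sp.ne).trans ((congrArg _ X.flat).trans (pL_unit X.gen.ne).symm)
  row := X.row hr

end Pool.Agent.Tav
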