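import Pool.Agent.P.MP_2ce3e7_ag.Tav.PiF
import Pool.Agent.P.MP_2ce3e7_ag.Tav.MFib

/-! The inputs of the last step. -/

set_option autoImplicit false

noncomputable section

namespace Pool.Agent.Tav.Ti

open MvPolynomial Module Function

/-- the exact parallelogram law -/
def Law {Ω G σ : Type} [Field Ω] [AddCommGroup G] (x : G → σ → Ω) : Prop :=
  ∃ c : G × G → Ω, (∀ t, c t ≠ 0) ∧ ∀ i j, (c * fun t => x (t.1 + t.2) i * x (t.1 - t.2) j) ∈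
    (crd fun t : G × G => x t.1) ^ 2 * (crd fun t : G × G => x t.2) ^ 2

/-- the coordinates separate the points -/
def FInj {Ω : Type} [Field Ω] {s : Sh} (B : Fib Ω s) : Prop :=
  ∀ t t', BPar s.w (B.x t) (B.x t') → t = t'

variable (k : Type) [Field k] [Fintype k]

/-- a second embedding with the law -/
def S_Cube : Prop :=
  ∀ {G τ : Type} [AddCommGroup G] [Fintype τ] {g : ℕ} (p : G → τ → AlgebraicClosure k),
    AV p g → (∀ y y', Par (p y) (p y') → y = y') →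
    ∃ (τ₁ : Type) (_ : Fintype τ₁) (h : G → τ₁ → AlgebraicClosure k), AV h g ∧
      (∀ y y', Par (h y) (h y') → y = y') ∧ Mor p h id ∧ Mor h p id ∧ Law h ∧
      ∀ F : G →+ G, (∀ y, Par (p (F y)) (p y ^ Fintype.card k)) →
        ∀ y, Par (h (F y)) (h y ^ Fintype.card k)

/-- a commutative ring of endomorphisms of full rank that contains Frobenius -/
def S_Fib : Prop :=
  ∀ {G τ : Type} [AddCommGroup G] [Fintype τ] {g : ℕ} (h : G → τ → AlgebraicClosure k)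
    (av : AV h g), (∀ y y', Par (h y) (h y') → y = y') → Law h → ∀ F : G →+ G,
    (∀ y, Par (h (F y)) (h y ^ Fintype.card k)) →
    ∃ (s : Sh) (B : Fib (AlgebraicClosure k) s) (ψ : G ≃+ B.G) (π : s.Λ) (_ : s.β), s.n = g ∧
      (∀ b, B.H b = (LS.co h av.ne).pb ψ.symm) ∧ FInj B ∧ (∀ y, ψ (F y) = π • ψ y) ∧ B.Deg ∧
      B.Frob π (Fintype.card k) ∧ ∀ ρ, ‖s.χ ρ π‖ ^ 2 = Fintype.card k

/-- a model with prescribed Weil numbers -/
def S_HM : Prop :=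
  ∀ (Γ : Type) [Fintype Γ] (al : Γ → ℂ) (P : Polynomial ℤ),
    P.map (Int.castRingHom ℂ) = ∏ ρ, (Polynomial.X - Polynomial.C (al ρ)) →
    (∀ ρ, ‖al ρ‖ ^ 2 = Fintype.card k) →
    ∃ (R : ValuationSubring ℂ) (r : R →+* AlgebraicClosure k) (_ : Surjective r) (σ : Type)
      (_ : Fintype σ) (g : ℕ) (X : Model r σ g) (π : EnR X.Λ) (ι : Type) (_ : Fintype ι)
      (_ : Nonempty ι) (e : (Σ _ : ι, Γ) ≃ Fin g ⊕ Fin g), (∀ x, chE X.Λ (e x) π = al x.2) ∧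
      X.Full (Fintype.card k) ∧ ∃ N ≠ 0, X.fB.Frob (π ^ N) (Fintype.card k ^ N)

/-- equal Weil numbers give an isogeny -/
def S_Isog : Prop :=
  ∀ {s s' : Sh} (B : Fib (AlgebraicClosure k) s) (B' : Fib (AlgebraicClosure k) s')
    (π : s.Λ) (π' : s'.Λ) (N : ℕ), N ≠ 0 → FInj B → FInj B' → B.Deg → B'.Deg →
    B.Frob π (Fintype.card k ^ N) → B'.Frob π' (Fintype.card k ^ N) →
    ∀ e : s.Γ ≃ s'.Γ, (∀ ρ, s'.χ (e ρ) π' = s.χ ρ π) →
    ∃ (ψ : B.G →+ B'.G) (φ : B'.G →+ B.G) (m : ℕ), m ≠ 0 ∧ B'.In B.H ψ ∧ B.In B'.H φ ∧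
      (∀ y, ψ (φ y) = m • y) ∧ (∀ x, φ (ψ x) = m • x) ∧ (∀ x, ψ (π • x) = π' • ψ x) ∧
      ∀ y, φ (π' • y) = π • φ y

end Pool.Agent.Tav.Ti
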