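import Pool.Agent.P.MP_2ce3e7_ag.Tav.CuMain
import Pool.Agent.P.MP_2ce3e7_ag.Tav.TiTopD

/-! The theorem of the cube in the form used by the last step. -/

set_option autoImplicit false

namespace Pool.Agent.Tav.Ti

theorem p_Cube (k : Type) [Field k] [Fintype k] : S_Cube k := fun _ h hi =>
  let ⟨τ, f, q, h1, h2, h3, h4, h5, h6⟩ := Cu.cube h
  ⟨τ, f, q, h1, h2 hi, h3, h4, h5, fun F => h6 F _⟩

end Pool.Agent.Tav.Ti
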