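import Pool.Agent.P.MP_2ce3e7_ag.Tav.G3Defs

/-! Orthogonality relation for theta functions with a sign on an integral lattice. -/

set_option autoImplicit false

open Complex Matrix
open scoped Real ComplexConjugate

namespace Pool.Agent.Tav.G3s

open Pool.Agent.Cmh Pool.Agent.Tav.Gd

noncomputable section

variable {ι : Type*} [Fintype ι] {M N N' : Submodule ℤ (ι → ℂ)} {χ : (ι → ℂ) → ℂ}
  {α : Type*} [Fintype α] {l : α → ι → ℂ} {f : (ι → ℂ) → ℂ}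

/-- a sign on an integral lattice that makes `χ m • U m` multiplicative -/
structure Sg (χ : (ι → ℂ) → ℂ) (M : Submodule ℤ (ι → ℂ)) : Prop where
  lat : IsLat M
  int : M ≤ du M
  sq : ∀ m ∈ M, χ m * χ m = 1
  co : ∀ m ∈ M, ∀ m' ∈ M, χ m * χ m' = ph m' m * χ (m + m')

/-- the theta functions of `M` for the sign `χ` -/
def Tc (χ : (ι → ℂ) → ℂ) (M : Submodule ℤ (ι → ℂ)) : Submodule ℂ ((ι → ℂ) → ℂ) where
  carrier := {f | Differentiable ℂ f ∧ ∀ m ∈ M, U m f = χ m • f}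
  zero_mem' := ⟨differentiable_const 0, fun m _ => by rw [map_zero, smul_zero]⟩
  add_mem' := by
    rintro f g ⟨hf, h1⟩ ⟨hg, h2⟩
    exact ⟨hf.add hg, fun m hm => by rw [map_add, h1 m hm, h2 m hm, smul_add]⟩
  smul_mem' := by
    rintro c f ⟨hf, h1⟩
    exact ⟨hf.const_smul c, fun m hm => by rw [map_smul, h1 m hm, smul_comm]⟩

lemma mem_Tc : f ∈ Tc χ M ↔ Differentiable ℂ f ∧ ∀ m ∈ M, U m f = χ m • f := Iff.rfl

lemma Tc_mono (h : N ≤ M) : Tc χ M ≤ Tc χ N := fun _ hf => ⟨hf.1, fun m hm => hf.2 m (h hm)⟩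

lemma Sg.mono (hM : Sg χ M) (hN : IsLat N) (h : N ≤ M) : Sg χ N :=
  ⟨hN, h.trans (hM.int.trans (du_anti h)), fun m hm => hM.sq m (h hm),
    fun m hm m' hm' => hM.co m (h hm) m' (h hm')⟩

lemma ph_sq {x y : ι → ℂ} (hx : x ∈ du M) (hy : y ∈ M) : ph x y * ph x y = 1 := by
  obtain ⟨k, hk⟩ := hx y hy
  exact ph_sq_int hk

lemma ph_sq' {x y : ι → ℂ} (hx : x ∈ du M) (hy : y ∈ M) : ph y x * ph y x = 1 := by
  rw [← ph_neg_left]; exact ph_sq (neg_mem hx) hy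

lemma Sg.two (hM : Sg χ M) {m : ι → ℂ} (hm : m ∈ M) : χ (2 • m) = 1 := by
  have := hM.co m hm m hm
  rw [hM.sq m hm, ph_self, one_mul] at this
  rw [two_nsmul, this]

lemma Sg.zero (hM : Sg χ M) : χ 0 = 1 := by simpa using hM.two (zero_mem M)

lemma Sg.neg (hM : Sg χ M) {m : ι → ℂ} (hm : m ∈ M) : χ (-m) * χ m = 1 := by
  rw [hM.co _ (neg_mem hm) m hm, ph_neg_right, ph_self, neg_add_cancel, hM.zero, one_mul]

lemma U_add_mem (hf : f ∈ Tc χ M) (x : ι → ℂ) {m : ι → ℂ} (hm : m ∈ M) :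
    U (x + m) f = (ph x m * χ m) • U x f := by
  rw [U_add, hf.2 m hm, map_smul, smul_smul]; rfl

lemma U_mem {x : ι → ℂ} (hx : x ∈ du M) (hf : f ∈ Tc χ M) : U x f ∈ Tc χ M := by
  refine ⟨U_diff x hf.1, fun m hm => ?_⟩
  obtain ⟨k, hk⟩ := hx m hm
  rw [← U_comm_int hk, hf.2 m hm, map_smul]

/-- twice the lattice -/
def db (M : Submodule ℤ (ι → ℂ)) : Submodule ℤ (ι → ℂ) := M.map (2 • LinearMap.id)

omit [Fintype ι] in
lemma mem_db {x : ι → ℂ} : x ∈ db M ↔ ∃ y ∈ M, 2 • y = x := Iff.rfl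

omit [Fintype ι] in
lemma db_le : db M ≤ M := fun _ hx => by
  obtain ⟨y, hy, rfl⟩ := mem_db.1 hx
  exact nsmul_mem hy 2

lemma ev_db (hM : IsLat M) (h : M ≤ du M) : Ev (db M) := by
  refine ⟨hM.of_com ⟨2, two_ne_zero, fun x hx => ⟨x, hx, rfl⟩,
    fun x hx => nsmul_mem (db_le hx) 2⟩, fun z hz y hy => ?_⟩
  obtain ⟨x, hx, rfl⟩ := mem_db.1 hz
  obtain ⟨k, hk⟩ := h hx y (db_le hy)
  exact ⟨k, by rw [Hm_nsmul_left, ← hk]; simp⟩

lemma Sg.th (hM : Sg χ M) (hf : f ∈ Tc χ M) : f ∈ Th (db M) := by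
  refine ⟨hf.1, fun z hz => ?_⟩
  obtain ⟨x, hx, rfl⟩ := mem_db.1 hz
  rw [hf.2 _ (nsmul_mem hx 2), hM.two hx, one_smul]

lemma char_sum (hl : IsReps N N' l) {x : ι → ℂ} (hx : x ∈ du N') (h : x ∉ du N) :
    ∑ a, ph (l a) x * ph (l a) x = 0 := by
  rw [mem_du] at h
  push Not at h
  obtain ⟨y, hy, h⟩ := h
  have e := (hl.add hy).sum_eq hl (fun w => ph w x * ph w x) fun w _ w' _ hw => by
    have h2 : ph w x = ph (w - w') x * ph w' x := by rw [← ph_add_left]; simp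
    rw [h2]; linear_combination (ph w' x * ph w' x) * ph_sq' hx hw
  have e2 : ∑ a, ph (l a + y) x * ph (l a + y) x =
      (ph y x * ph y x) * ∑ a, ph (l a) x * ph (l a) x := by
    rw [Finset.mul_sum]; exact Finset.sum_congr rfl fun a _ => by rw [ph_add_left]; ring
  have h3 : ph y x * ph y x ≠ 1 := by
    intro h3
    rw [ph, ← Complex.exp_add, Complex.exp_eq_one_iff] at h3
    obtain ⟨n, hn⟩ := h3
    refine h (-n) ?_
    have h4 : ((Hm y x).im : ℂ) = n := by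
      have : (2 * π * I : ℂ) ≠ 0 := by simp [Real.pi_ne_zero]
      apply mul_left_cancel₀ this; linear_combination hn
    rw [Hm_im_swap y x]; exact_mod_cast congrArg Neg.neg h4
  rw [e2] at e
  have : (ph y x * ph y x - 1) * ∑ a, ph (l a) x * ph (l a) x = 0 := by linear_combination e
  exact (mul_eq_zero.1 this).resolve_left (sub_ne_zero.2 h3)

omit [Fintype ι] in
lemma sum_ind {X : Type*} [AddCommMonoid X] (hl : IsReps N N' l) (F : (ι → ℂ) → X) {y : X}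
    (h0 : ∀ x ∈ N, x ∉ N' → F x = 0) (h1 : ∀ x ∈ N', F x = y) : ∑ a, F (l a) = y := by
  obtain ⟨a0, ha0, hu⟩ := hl.2 0 (zero_mem _)
  rw [Finset.sum_eq_single a0, h1 _ (by simpa using ha0)]
  · exact fun a _ ha => h0 _ (hl.1 a) fun h => ha (hu a (by simpa using h))
  · simp

section Proj

variable {β γ : Type*} [Fintype β] [Fintype γ] {r : β → ι → ℂ} {s : γ → ι → ℂ}

lemma card_eq (hN : IsLat N) (hN' : IsLat N') (hr : IsReps N N' r)
    (hs : IsReps (du N') (du N) s) : (Fintype.card β : ℂ) = Fintype.card γ := by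
  have e1 : ∑ c, ∑ b, ph (r b) (s c) * ph (r b) (s c) = Fintype.card β :=
    sum_ind hs (fun x => ∑ b, ph (r b) x * ph (r b) x) (fun x hx h => char_sum hr hx h)
      fun x hx => by simp [ph_sq' hx (hr.1 _)]
  have e2 : ∑ b, ∑ c, ph (r b) (s c) * ph (r b) (s c) = Fintype.card γ :=
    sum_ind hr (fun x => ∑ c, ph x (s c) * ph x (s c)) (fun x hx h => by
      simpa only [ph_neg_right] using char_sum hs (x := -x) (by rw [du_du hN]; exact neg_mem hx)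
        (by rw [du_du hN', neg_mem_iff]; exact h))
      fun x hx => by simp [ph_sq' (hs.1 _) hx]
  rw [← e1, Finset.sum_comm, e2]

/-- the sum of the operators `χ m • U m` over a family -/
def pj (χ : (ι → ℂ) → ℂ) (r : β → ι → ℂ) : ((ι → ℂ) → ℂ) →ₗ[ℂ] ((ι → ℂ) → ℂ) :=
  ∑ b, χ (r b) • U (r b)

lemma pj_apply (g : (ι → ℂ) → ℂ) : pj χ r g = ∑ b, χ (r b) • U (r b) g := by
  simp only [pj, LinearMap.sum_apply, LinearMap.smul_apply]

lemma pj_U (hM : Sg χ M) (hr : ∀ b, r b ∈ M) (hf : f ∈ Tc χ M) (x : ι → ℂ) :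
    pj χ r (U (-x) f) = (∑ b, ph (r b) x * ph (r b) x) • U (-x) f := by
  rw [pj_apply, Finset.sum_smul]
  refine Finset.sum_congr rfl fun b _ => ?_
  rw [U_U', add_comm, U_add_mem hf _ (hr b), ph_neg_left, smul_smul, smul_smul]
  congr 1
  linear_combination (ph (r b) x * ph (r b) x) * hM.sq _ (hr b)

lemma pj_mem (hM : Sg χ M) (hr : IsReps M (db M) r) (hf : f ∈ Th (db M)) :
    pj χ r f ∈ Tc χ M := by
  refine ⟨?_, fun m hm => ?_⟩
  · rw [pj_apply]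
    exact Differentiable.sum fun b _ => (U_diff _ hf.1).const_smul _
  · have e : ∑ b, χ (r b + m) • U (r b + m) f = ∑ b, χ (r b) • U (r b) f :=
      (hr.add hm).sum_eq hr (fun x => χ x • U x f) fun x _ y hy hw => by
        obtain ⟨a, ha, e⟩ := mem_db.1 hw
        obtain rfl : x = y + 2 • a := by rw [e]; abel
        have h1 := hM.co y hy _ (nsmul_mem ha 2)
        rw [hM.two ha, two_nsmul, ph_add_left, ph_sq (hM.int ha) hy, mul_one, one_mul] at h1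
        rw [Gd.U_add_mem hf y (mem_db.2 ⟨a, ha, rfl⟩), two_nsmul, ph_add_right, ph_sq (hM.int hy) ha,
          one_smul, h1]
    rw [pj_apply, map_sum]
    conv_rhs => rw [← e, Finset.smul_sum]
    refine Finset.sum_congr rfl fun b _ => ?_
    rw [map_smul, U_U', smul_smul, smul_smul, add_comm (r b) m]
    congr 1
    linear_combination (-χ (r b) * ph (r b) m) * hM.sq m hm +
      (χ m * ph (r b) m) * hM.co m hm _ (hr.1 b) + (χ m * χ (m + r b)) * ph_sq (hM.int (hr.1 b)) hm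

lemma U_conj (x m : ι → ℂ) (g : (ι → ℂ) → ℂ) :
    U (-x) (U m (U x g)) = (ph x m * ph x m) • U m g := by
  rw [U_U' m, map_smul, U_U', smul_smul, ph_neg_right, ph_add_right, ph_self, mul_one,
    show -x + (m + x) = m by abel]

end Proj

theorem exists_ne (hM : Sg χ M) : ∃ f ∈ Tc χ M, f ≠ 0 := by
  have hE := ev_db hM.lat hM.int
  obtain ⟨n, r, hr⟩ := exists_reps hM.lat hE.1 db_le
  obtain ⟨k, s, hs⟩ := exists_reps hE.1.du hM.lat.du (du_anti db_le)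
  obtain ⟨g, hg, h0⟩ := exists_Th_ne hE
  by_contra h
  push Not at h
  have e : ∑ c, U (-s c) (pj χ r (U (s c) g)) = (k : ℂ) • g := by
    simp only [pj_apply, map_sum, map_smul, U_conj]
    rw [Finset.sum_comm]
    refine sum_ind hr (fun x => ∑ c, χ x • (ph (s c) x * ph (s c) x) • U x g) (fun x hx h => ?_)
      fun x hx => ?_
    · rw [← Finset.smul_sum, ← Finset.sum_smul,
        char_sum hs (by rw [du_du hM.lat]; exact hx) (by rw [du_du hE.1]; exact h), zero_smul,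
        smul_zero]
    · obtain ⟨a, ha, e⟩ := mem_db.1 hx
      have : χ x = 1 := e ▸ hM.two ha
      simp [this, ph_sq (hs.1 _) hx, hg.2 x hx, Nat.cast_smul_eq_nsmul]
  simp only [fun c => h _ (pj_mem hM hr (U_mem_Th (hs.1 c) hg)), map_zero,
    Finset.sum_const_zero] at e
  have : k ≠ 0 := fun e => by subst e; exact hs.nonempty.elim Fin.elim0
  exact h0 ((smul_eq_zero.1 e.symm).resolve_left (Nat.cast_ne_zero.2 this))

lemma term_per (hM : Sg χ M) {X : Type*} [AddCommGroup X] [Module ℂ X]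
    (A : ((ι → ℂ) → ℂ) →ₗ[ℂ] ℂ) (B : ((ι → ℂ) → ℂ) →ₗ[ℂ] X) {f h : (ι → ℂ) → ℂ}
    (hf : f ∈ Tc χ M) (hh : h ∈ Tc χ M) {x y : ι → ℂ} (hy : y ∈ du M) (hw : x - y ∈ M) :
    A (U (-x) h) • B (U x f) = A (U (-y) h) • B (U y f) := by
  obtain ⟨m, hm, rfl⟩ : ∃ m ∈ M, x = y + m := ⟨x - y, hw, by abel⟩
  rw [neg_add, U_add_mem hh _ (neg_mem hm), U_add_mem hf _ hm, map_smul, map_smul, ph_neg_left,
    ph_neg_left, smul_eq_mul, smul_smul]
  congr 1
  linear_combination (A (U (-y) h) * ph y m * ph y m) * hM.neg hm + (A (U (-y) h)) * ph_sq hy hm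

/-- ORT -/
theorem ort (hM : Sg χ M) (hl : IsReps (du M) M l) : ∃ c : ℂ, c ^ 2 = Fintype.card α ∧
    ∀ (A : ((ι → ℂ) → ℂ) →ₗ[ℂ] ℂ), ∀ f ∈ Tc χ M, ∀ h ∈ Tc χ M,
      ∑ a, A (U (-l a) h) • U (l a) f = (c * A f) • h := by
  have hE := ev_db hM.lat hM.int
  obtain ⟨n, r, hr⟩ := exists_reps hM.lat hE.1 db_le
  obtain ⟨k, s, hs⟩ := exists_reps hE.1.du hM.lat.du (du_anti db_le)
  have hlr := hl.mul hr hM.int db_le
  obtain ⟨c, hc, H⟩ := Gd.ort hE (hs.mul hlr (du_anti db_le) (db_le.trans hM.int))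
  have hk : (n : ℂ) = k := by simpa using card_eq hM.lat hE.1 hr hs
  have hn : (n : ℂ) ≠ 0 := Nat.cast_ne_zero.2 fun e => by subst e; exact hr.nonempty.elim Fin.elim0
  refine ⟨c / n, ?_, fun A f hf h hh => ?_⟩
  · rw [div_pow, hc]
    simp only [Fintype.card_prod, Fintype.card_fin]
    push_cast
    rw [← hk]; field_simp
  have h1 : ∀ g ∈ Tc χ M, ∀ x ∈ du M, pj χ r (U (-x) g) = (n : ℂ) • U (-x) g := fun g hg x hx => by
    rw [pj_U hM hr.1 hg]; simp [ph_sq' hx (hr.1 _)]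
  have h2 : pj χ r f = (n : ℂ) • f := by simpa [U_zero] using h1 f hf 0 (zero_mem _)
  have e := H (A ∘ₗ pj χ r) f (hM.th hf) h (hM.th hh)
  rw [Fintype.sum_prod_type, LinearMap.comp_apply, h2, map_smul, smul_eq_mul, sum_ind hs
    (fun x => ∑ p : α × Fin n, (A ∘ₗ pj χ r) (U (-(x + (l p.1 + r p.2))) h) •
      U (x + (l p.1 + r p.2)) f) (y := ((n : ℂ) * n) • ∑ a, A (U (-l a) h) • U (l a) f)] at e
  · have : c * (n * A f) = (n * n) * (c / n * A f) := by field_simp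
    rw [this, mul_smul ((n : ℂ) * n)] at e
    exact smul_right_injective _ (mul_ne_zero hn hn) e
  · intro x hx hx'
    refine Finset.sum_eq_zero fun p _ => ?_
    have hp := hlr.1 p
    rw [LinearMap.comp_apply, pj_U hM hr.1 hh, char_sum hr (add_mem hx (du_anti db_le hp))
      fun h' => hx' (by simpa using sub_mem h' hp), zero_smul, map_zero, zero_smul]
  · intro x hx
    rw [Fintype.sum_prod_type, Finset.sum_comm]
    have h3 : ∀ b, ∑ a, (A ∘ₗ pj χ r) (U (-(x + (l a + r b))) h) • U (x + (l a + r b)) f =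
        (n : ℂ) • ∑ a, A (U (-l a) h) • U (l a) f := fun b => by
      have hb := add_mem hx (hM.int (hr.1 b))
      rw [← (hl.add hb).sum_eq hl (fun y => A (U (-y) h) • U y f) fun y _ z hz hw =>
        term_per hM A LinearMap.id hf hh hz hw, Finset.smul_sum]
      refine Finset.sum_congr rfl fun a _ => ?_
      rw [show x + (l a + r b) = l a + (x + r b) by abel, LinearMap.comp_apply,
        h1 h hh _ (add_mem (hl.1 a) hb), map_smul, smul_eq_mul, mul_smul]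
    simp only [h3]
    rw [Finset.sum_const, Finset.card_univ, Fintype.card_fin, ← Nat.cast_smul_eq_nsmul ℂ, smul_smul]

end

end Pool.Agent.Tav.G3s

namespace Pool.Agent.Tav.G3

open Pool.Agent.Cmh Pool.Agent.Tav.Gd

noncomputable section

variable {ι : Type*} [Fintype ι] [Om ι] {M : Submodule ℤ (ι → ℂ)} {α : Type*} [Fintype α]
  {l : α → ι → ℂ}

lemma In.sg (hM : In M) : G3s.Sg chi M :=
  ⟨hM.lat, hM.le_du, fun _ hm => hM.chi_sq hm, fun m hm m' hm' => by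
    rw [chi_add, G3s.ph_sq (hM.le_du (hM.st m hm)) hm']
    linear_combination (-chi m * chi m') * ph_swap m m'⟩

theorem exists_Tc_ne (hM : In M) : ∃ f ∈ Tc M, f ≠ 0 := G3s.exists_ne hM.sg

/-- ORT -/
theorem ort (hM : In M) (hl : IsReps (du M) M l) : ∃ c : ℂ, c ^ 2 = Fintype.card α ∧
    ∀ (A : ((ι → ℂ) → ℂ) →ₗ[ℂ] ℂ), ∀ f ∈ Tc M, ∀ h ∈ Tc M,
      ∑ a, A (U (-l a) h) • U (l a) f = (c * A f) • h := G3s.ort hM.sg hl

variable {Γ : Type*} [LinearOrderedCommGroupWithZero Γ] {v : Valuation ℂ Γ}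

/-- SPAN -/
theorem span (hM : Un v M) (hl : IsReps (du M) M l) (A : ((ι → ℂ) → ℂ) →ₗ[ℂ] ℂ)
    {f h : (ι → ℂ) → ℂ} (hf : f ∈ Tc M) (hh : h ∈ Tc M) (h0 : A f ≠ 0) :
    ∃ c : α → ℂ, (∀ a, v (c a) * v (A f) = v (A (U (-l a) h))) ∧ h = ∑ a, c a • U (l a) f := by
  obtain ⟨c, hc, H⟩ := ort hM.1 hl
  obtain ⟨n, hn, hn'⟩ := hM.2
  have h1 : v c = 1 := by
    have : v c ^ 2 = 1 := by rw [← map_pow, hc, val_card v hl hn hn']
    exact (pow_eq_one_iff_left two_ne_zero).1 this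
  have h2 : c ≠ 0 := fun e => by simp [e] at h1
  refine ⟨fun a => (c * A f)⁻¹ * A (U (-l a) h), fun a => ?_, ?_⟩
  · have : v (A f) ≠ 0 := by simpa using h0
    rw [map_mul, map_inv₀, map_mul, h1, one_mul, mul_comm, ← mul_assoc, mul_inv_cancel₀ this,
      one_mul]
  · simp only [mul_smul, ← Finset.smul_sum]
    rw [H A f hf h hh, smul_smul, inv_mul_cancel₀ (mul_ne_zero h2 h0), one_smul]

variable [DecidableEq ι] {A : Matrix ι ι ℂ}

lemma un_inf (hM : Un v M) (hA : IsUni A) (hm : Cm A) {n : ℕ} (hn : v n = 1)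
    (h1 : ∀ x ∈ M, n • A *ᵥ x ∈ M) (h2 : ∀ x ∈ M, n • Aᴴ *ᵥ x ∈ M) :
    Com M (mp Aᴴ M) ∧ Un v (M ⊓ mp Aᴴ M) ∧ du (M ⊓ mp Aᴴ M) = du M ⊔ mp Aᴴ (du M) := by
  have hn0 : n ≠ 0 := fun e => by simp [e] at hn
  have hc : Com M (mp Aᴴ M) := ⟨n, hn0, fun x hx => by
    rw [mem_mp_ct hA, mulVec_smul]; exact h1 x hx, fun x hx => by
    obtain ⟨y, hy, rfl⟩ := mem_mp.1 hx
    exact h2 y hy⟩
  have hd : du (M ⊓ mp Aᴴ M) = du M ⊔ mp Aᴴ (du M) := by rw [du_inf hM.1.lat hc, du_mp hA.ct]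
  obtain ⟨N, hN, hN'⟩ := hM.2
  refine ⟨hc, ⟨hM.1.mono (hM.1.lat.of_com ((Com.refl M).inf hc.symm).symm) inf_le_left
    (hM.1.st.inf fun x hx => ?_),
    n * N, by rw [Nat.cast_mul, map_mul, hn, hN, one_mul], fun x hx => ?_⟩, hd⟩
  · rw [mem_mp_ct hA] at hx ⊢
    rw [hm]
    exact hM.1.st _ hx
  rw [hd] at hx
  obtain ⟨a, ha, b, hb, rfl⟩ := Submodule.mem_sup.1 hx
  obtain ⟨y, hy, rfl⟩ := mem_mp.1 hb
  rw [smul_add, mul_smul, mul_smul]
  refine Submodule.add_mem _ ⟨nsmul_mem (hN' a ha) n, ?_⟩ ⟨?_, ?_⟩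
  · show _ ∈ mp Aᴴ M
    rw [mem_mp_ct hA, mulVec_smul]; exact h1 _ (hN' a ha)
  · rw [← mulVec_smul]; exact h2 _ (hN' y hy)
  · rw [← mulVec_smul, ← mulVec_smul]; exact mem_mp.2 ⟨_, nsmul_mem (hN' y hy) n, rfl⟩

/-- LIN: the pull-back of `F` is an integral combination of translates of `F` -/
theorem lin (hM : Un v M) (hA : IsUni A) (hm : Cm A) {n : ℕ} (hn : v n = 1)
    (h1 : ∀ x ∈ M, n • A *ᵥ x ∈ M) (h2 : ∀ x ∈ M, n • Aᴴ *ᵥ x ∈ M) {F : (ι → ℂ) → ℂ}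
    (hF : F ∈ Tc M) (Y : Submodule ℤ (ι → ℂ)) (hY : Y ≤ QQ M) (hd : du M ≤ Y)
    (hd' : mp Aᴴ (du M) ≤ Y) (hAY : ∀ y ∈ Y, A *ᵥ y ∈ Y) {w : ι → ℂ} (hw : w ∈ Y)
    (hmax : ∀ y ∈ Y, v (U y F 0) ≤ v (U w F 0)) (h0 : U w F 0 ≠ 0) :
    ∃ (m : ℕ) (l : Fin m → ι → ℂ) (c : Fin m → ℂ), (∀ a, l a ∈ du M ⊔ mp Aᴴ (du M)) ∧
      (∀ a, v (c a) ≤ 1) ∧ pb A F = ∑ a, c a • U (l a) F := by
  obtain ⟨hc, hU, he⟩ := un_inf hM hA hm hn h1 h2
  obtain ⟨m, l, hl⟩ := exists_reps hU.1.lat.du hU.1.lat hU.1.le_du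
  have hF' : pb A F ∈ Tc (M ⊓ mp Aᴴ M) :=
    pb_mem_Tc hA hm (fun x hx => (mem_mp_ct hA).1 hx.2) hF
  obtain ⟨c, hc1, hc2⟩ := span hU hl (evU 0 w) (Tc_mono inf_le_left hF) hF' h0
  refine ⟨m, l, c, fun a => he ▸ hl.1 a, fun a => ?_, hc2⟩
  have ha : -l a ∈ Y := neg_mem (sup_le hd hd' (he ▸ hl.1 a))
  have e := hc1 a
  rw [evU_apply, evU_apply, val_UU hM.1 (hY hw) (hY ha), U_pb hA, pb_apply, mulVec_zero] at e
  have h3 : v (U w F 0) ≠ 0 := by simpa using h0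
  have h4 := hmax _ (hAY _ (add_mem hw ha))
  rw [← e] at h4
  exact (mul_le_iff_le_one_left (zero_lt_iff.2 h3)).1 h4

end

end Pool.Agent.Tav.G3
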