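import Pool.Agent.P.MP_2ce3e7_ag.Tav.Stmt

/-! Normalisation of projective coordinates over a valuation ring. -/

set_option autoImplicit false

noncomputable section

namespace Pool.Agent.Tav.Nrm

open Set Function

variable {K : Type} [Field K] {R : ValuationSubring K} {T σ : Type}

/-- the span over `R` of the coordinate functions -/
def rs (R : ValuationSubring K) (φ : T → σ → K) : Submodule R (T → K) :=
  Submodule.span R (range fun l t => φ t l)

/-- `φ = n x` with `x` primitive -/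
structure Nm (φ : T → σ → K) (n : T → K) (x : T → σ → R) : Prop where
  ne : ∀ t, n t ≠ 0
  eq : ∀ t l, φ t l = n t * x t l
  prim : ∀ t, ∃ l, IsUnit (x t l)

theorem exists_nm [Finite σ] (R : ValuationSubring K) {φ : T → σ → K} (h : ∀ t, φ t ≠ 0) :
    ∃ (n : T → K) (x : T → σ → R), Nm φ n x := by
  have : ∀ t, ∃ l0, φ t l0 ≠ 0 ∧ ∀ l, φ t l / φ t l0 ∈ R := fun t => by
    obtain ⟨l1, h1⟩ := Function.ne_iff.1 (h t)
    have : Nonempty σ := ⟨l1⟩
    obtain ⟨l0, h0⟩ := Finite.exists_max fun l => R.valuation (φ t l)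
    have hne : R.valuation (φ t l0) ≠ 0 := fun e => h1 (by
      have := h0 l1
      rwa [e, le_zero_iff, map_eq_zero] at this)
    refine ⟨l0, (map_ne_zero _).1 hne, fun l => ?_⟩
    rw [← R.valuation_le_one_iff, map_div₀]
    exact div_le_one_of_le₀ (h0 l) zero_le
  choose l0 h0 h1 using this
  refine ⟨fun t => φ t (l0 t), fun t l => ⟨_, h1 t l⟩, h0, fun t l => ?_, fun t => ⟨l0 t, ?_⟩⟩
  · exact (mul_div_cancel₀ _ (h0 t)).symm
  · have : (⟨_, h1 t (l0 t)⟩ : R) = 1 := Subtype.ext (div_self (h0 t))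
    rw [this]
    exact isUnit_one

theorem Nm.comp {U : Type} {φ : T → σ → K} {n : T → K} {x : T → σ → R} (h : Nm φ n x)
    (j : U → T) : Nm (fun u => φ (j u)) (fun u => n (j u)) fun u => x (j u) :=
  ⟨fun _ => h.ne _, fun _ => h.eq _, fun _ => h.prim _⟩

theorem Nm.par {φ : T → σ → K} {n : T → K} {x : T → σ → R} (h : Nm φ n x) (t : T) :
    Par (φ t) fun l => (x t l : K) := ⟨n t, (h.ne t).isUnit, funext (h.eq t)⟩

theorem Nm.coe_ne {φ : T → σ → K} {n : T → K} {x : T → σ → R} (h : Nm φ n x) (t : T) :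
    (fun l => (x t l : K)) ≠ 0 := fun e => by
  obtain ⟨l, hl⟩ := h.prim t
  exact hl.ne_zero (Subtype.ext (congrFun e l))

theorem mem_of_mul {c : K} {u w : R} (hu : IsUnit u) (h : c * u = w) : c ∈ R := by
  obtain ⟨u', hu'⟩ := hu.exists_right_inv
  have : c = (w * u' : R) := by
    rw [MulMemClass.coe_mul, ← h, mul_assoc, ← MulMemClass.coe_mul, hu']
    simp
  rw [this]
  exact SetLike.coe_mem _

theorem unit_of_inv {c : K} (h0 : c ≠ 0) (h : c ∈ R) (h' : c⁻¹ ∈ R) : IsUnit (⟨c, h⟩ : R) :=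
  IsUnit.of_mul_eq_one ⟨_, h'⟩ (Subtype.ext (mul_inv_cancel₀ h0))

/-- primitive vectors that are proportional over `K` are proportional over `R` -/
theorem par_iff {x y : σ → R} (hx : ∃ l, IsUnit (x l)) (hy : ∃ l, IsUnit (y l)) :
    Par (fun l => (x l : K)) (fun l => (y l : K)) ↔ Par x y := by
  constructor
  · rintro ⟨c, hc, e⟩
    have e1 : ∀ l, c * y l = x l := fun l => (congrFun e l).symm
    obtain ⟨i, hi⟩ := hx
    obtain ⟨j, hj⟩ := hy
    refine ⟨⟨c, mem_of_mul hj (e1 j)⟩, unit_of_inv hc.ne_zero _ (mem_of_mul hi (w := y i) ?_),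
      funext fun l => Subtype.ext (e1 l).symm⟩
    rw [← e1, inv_mul_cancel_left₀ hc.ne_zero]
  · rintro ⟨c, hc, rfl⟩
    exact ⟨c, hc.map R.subtype, rfl⟩

theorem par_symm {A : Type} [CommRing A] {x y : σ → A} (h : Par x y) : Par y x := by
  obtain ⟨c, ⟨u, rfl⟩, rfl⟩ := h
  exact ⟨(u⁻¹ : Aˣ), Units.isUnit _, by rw [smul_smul, Units.inv_mul, one_smul]⟩

theorem par_trans {A : Type} [CommRing A] {x y z : σ → A} (h : Par x y) (h' : Par y z) :
    Par x z := by
  obtain ⟨c, hc, rfl⟩ := h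
  obtain ⟨d, hd, rfl⟩ := h'
  exact ⟨c * d, hc.mul hd, smul_smul _ _ _⟩

theorem Nm.par_iff {φ : T → σ → K} {n : T → K} {x : T → σ → R} (h : Nm φ n x) (t t' : T) :
    Par (x t) (x t') ↔ Par (φ t) (φ t') := by
  rw [← Nrm.par_iff (h.prim t) (h.prim t')]
  exact ⟨fun e => par_trans (par_trans (h.par t) e) (par_symm (h.par t')),
    fun e => par_trans (par_trans (par_symm (h.par t)) e) (h.par t')⟩

/-- every member of `M` is `ν` times a member of `M'` -/
def Dn (ν : T → K) (M : Submodule R (T → K)) (M' : Submodule R (T → R)) : Prop :=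
  ∀ w ∈ M, ∃ w' ∈ M', ∀ t, w t = ν t * w' t

theorem Dn.span {ν : T → K} {s : Set (T → K)} {M' : Submodule R (T → R)}
    (h : ∀ w ∈ s, ∃ w' ∈ M', ∀ t, w t = ν t * w' t) : Dn ν (Submodule.span R s) M' := by
  intro w hw
  induction hw using Submodule.span_induction with
  | mem x hx => exact h x hx
  | zero => exact ⟨0, M'.zero_mem, fun t => by simp⟩
  | add x y _ _ hx hy =>
    obtain ⟨x', hx', ex⟩ := hx
    obtain ⟨y', hy', ey⟩ := hy
    exact ⟨x' + y', M'.add_mem hx' hy', fun t => by simp [ex, ey, mul_add]⟩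
  | smul a x _ hx =>
    obtain ⟨x', hx', ex⟩ := hx
    refine ⟨a • x', M'.smul_mem a hx', fun t => ?_⟩
    change (a : K) * x t = ν t * ((a * x' t : R) : K)
    rw [ex, MulMemClass.coe_mul]
    ring

theorem Dn.mul {μ ν : T → K} {M N : Submodule R (T → K)} {M' N' : Submodule R (T → R)}
    (h : Dn μ M M') (h' : Dn ν N N') : Dn (μ * ν) (M * N) (M' * N') := by
  rw [Submodule.mul_def]
  refine Dn.span ?_
  rintro _ ⟨a, ha, b, hb, rfl⟩
  obtain ⟨a', ha', ea⟩ := h a ha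
  obtain ⟨b', hb', eb⟩ := h' b hb
  refine ⟨a' * b', Submodule.mul_mem_mul ha' hb', fun t => ?_⟩
  simp only [Pi.mul_apply, ea, eb, MulMemClass.coe_mul]
  ring

theorem Dn.one : Dn (R := R) (1 : T → K) 1 1 := by
  rw [Submodule.one_eq_span]
  refine Dn.span ?_
  rintro _ rfl
  exact ⟨1, Submodule.one_le.1 le_rfl, fun t => by simp⟩

theorem Dn.pow {ν : T → K} {M : Submodule R (T → K)} {M' : Submodule R (T → R)} (h : Dn ν M M')
    (d : ℕ) : Dn (ν ^ d) (M ^ d) (M' ^ d) := by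
  induction d with
  | zero => simpa using Dn.one
  | succ d ih => simpa only [pow_succ] using ih.mul h

theorem Nm.dn {φ : T → σ → K} {n : T → K} {x : T → σ → R} (h : Nm φ n x) :
    Dn n (rs R φ) (crd x) := Dn.span (by
  rintro _ ⟨l, rfl⟩
  exact ⟨fun t => x t l, Submodule.subset_span (mem_range_self l), fun t => h.eq t l⟩)

/-- If the coordinates of `ψ` lie in `M`, and at every point a member of `rs ψ` is a unit multiple
of `ν`, then the normalised coordinates of `ψ` lie in `M'` up to a unit. -/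
theorem chart {τ : Type} {ψ : T → τ → K} {m : T → K} {y : T → τ → R} (h : Nm ψ m y) {ν : T → K}
    (hν : ∀ t, ν t ≠ 0) {M : Submodule R (T → K)} {M' : Submodule R (T → R)} (hd : Dn ν M M')
    (h1 : ∀ l, (fun t => ψ t l) ∈ M) :
    ∃ c : T → R, (∀ t, (c t : K) = m t / ν t) ∧ (∀ l, (c * fun t => y t l) ∈ M') ∧
      ∀ t, (∃ w ∈ rs R ψ, ∃ u : R, IsUnit u ∧ w t = ν t * u) → IsUnit (c t) := by
  choose w hw e using fun l => hd _ (h1 l)
  have e1 : ∀ t l, m t / ν t * y t l = w l t := fun t l => by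
    rw [div_mul_eq_mul_div, ← h.eq, e, mul_div_cancel_left₀ _ (hν t)]
  have hc : ∀ t, m t / ν t ∈ R := fun t => by
    obtain ⟨l, hl⟩ := h.prim t
    exact mem_of_mul hl (e1 t l)
  refine ⟨fun t => ⟨_, hc t⟩, fun _ => rfl, fun l => ?_, ?_⟩
  · have : ((fun t => ⟨_, hc t⟩ : T → R) * fun t => y t l) = w l :=
      funext fun t => Subtype.ext (e1 t l)
    rw [this]
    exact hw l
  · rintro t ⟨z, hz, u, hu, ez⟩
    obtain ⟨z', -, ez'⟩ := h.dn z hz
    refine unit_of_inv (div_ne_zero (h.ne t) (hν t)) _ (mem_of_mul hu (w := z' t) ?_)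
    rw [inv_div, div_mul_eq_mul_div, ← ez, ez', mul_div_cancel_left₀ _ (h.ne t)]

theorem Nm.mul {τ : Type} {φ : T → σ → K} {n : T → K} {x : T → σ → R} (h : Nm φ n x)
    {ψ : T → τ → K} {m : T → K} {y : T → τ → R} (h' : Nm ψ m y) :
    Nm (fun t (l : σ × τ) => φ t l.1 * ψ t l.2) (n * m) fun t l => x t l.1 * y t l.2 where
  ne t := mul_ne_zero (h.ne t) (h'.ne t)
  eq t l := by
    rw [h.eq, h'.eq, MulMemClass.coe_mul, Pi.mul_apply]
    ring
  prim t := by
    obtain ⟨i, hi⟩ := h.prim t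
    obtain ⟨j, hj⟩ := h'.prim t
    exact ⟨(i, j), hi.mul hj⟩

theorem rs_mul {τ : Type} (φ : T → σ → K) (ψ : T → τ → K) :
    rs R φ * rs R ψ = rs R fun t (l : σ × τ) => φ t l.1 * ψ t l.2 := by
  rw [rs, rs, rs, Submodule.span_mul_span]
  congr 1
  ext w
  constructor
  · rintro ⟨_, ⟨i, rfl⟩, _, ⟨j, rfl⟩, rfl⟩
    exact ⟨(i, j), rfl⟩
  · rintro ⟨l, rfl⟩
    exact ⟨_, ⟨l.1, rfl⟩, _, ⟨l.2, rfl⟩, rfl⟩

/-- the field `law` from an exact law and its inverse -/
theorem Nm.law [AddCommGroup T] {φ : T → σ → K} {n : T → K} {x : T → σ → R} (h : Nm φ n x)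
    (law : ∀ i j, (fun t : T × T => φ (t.1 + t.2) i * φ (t.1 - t.2) j) ∈
      (rs R fun t : T × T => φ t.1) ^ 2 * (rs R fun t => φ t.2) ^ 2)
    (inv : ∀ i j, (fun t : T × T => φ t.1 i ^ 2 * φ t.2 j ^ 2) ∈
      (rs R fun t : T × T => φ (t.1 + t.2)) * rs R fun t => φ (t.1 - t.2)) :
    ∃ c : T × T → R, (∀ t, IsUnit (c t)) ∧ ∀ i j,
      (c * fun t => x (t.1 + t.2) i * x (t.1 - t.2) j) ∈
        (crd fun t => x t.1) ^ 2 * (crd fun t => x t.2) ^ 2 := by
  obtain ⟨c, -, h1, h2⟩ := chart ((h.comp fun t : T × T => t.1 + t.2).mul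
    (h.comp fun t : T × T => t.1 - t.2))
    (ν := (fun t : T × T => n t.1) ^ 2 * (fun t => n t.2) ^ 2)
    (fun t => mul_ne_zero (pow_ne_zero 2 (h.ne _)) (pow_ne_zero 2 (h.ne _)))
    (((h.comp Prod.fst).dn.pow 2).mul ((h.comp Prod.snd).dn.pow 2)) fun l => law l.1 l.2
  refine ⟨c, fun t => h2 t ?_, fun i j => h1 (i, j)⟩
  obtain ⟨i, hi⟩ := h.prim t.1
  obtain ⟨j, hj⟩ := h.prim t.2
  refine ⟨_, rs_mul (R := R) _ _ ▸ inv i j, x t.1 i ^ 2 * x t.2 j ^ 2, (hi.pow 2).mul (hj.pow 2), ?_⟩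
  simp only [h.eq, Pi.mul_apply, Pi.pow_apply, MulMemClass.coe_mul, SubmonoidClass.coe_pow]
  ring

/-- an identity over `R` is one over `K` -/
theorem rs_le (φ : T → σ → K) : rs R φ ≤ (crd φ).restrictScalars R :=
  Submodule.span_le.2 fun _ h => Submodule.subset_span h

theorem le_mul {M N : Submodule R (T → K)} {M' N' : Submodule K (T → K)}
    (h : M ≤ M'.restrictScalars R) (h' : N ≤ N'.restrictScalars R) :
    M * N ≤ (M' * N').restrictScalars R :=
  Submodule.mul_le.2 fun _ ha _ hb => Submodule.mul_mem_mul (h ha) (h' hb)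

theorem law_field {U : Type} (φ ψ : U → σ → K) :
    (rs R φ) ^ 2 * (rs R ψ) ^ 2 ≤ ((crd φ) ^ 2 * (crd ψ) ^ 2).restrictScalars R := by
  rw [pow_two, pow_two, pow_two, pow_two]
  exact le_mul (le_mul (rs_le _) (rs_le _)) (le_mul (rs_le _) (rs_le _))

end Pool.Agent.Tav.Nrm
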