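import Pool.Agent.P.MP_2ce3e7_ag.Tav.GrEnd
import Pool.Agent.P.MP_2ce3e7_ag.Tav.GrNrm
import Pool.Agent.P.MP_2ce3e7_ag.Tav.G3Ort

/-! Endomorphisms of the theta model of level nine are regular over the valuation ring. -/

set_option autoImplicit false

open Complex Set
open scoped Real ComplexConjugate

namespace Pool.Agent.Tav.G3

open Pool.Agent.Cmh
open Pool.Agent.Tav.GdEnd (sc mem_sc sc_le mem_du_sc com_sc pr U_pr pr_diff geom Hm_sum)
open Pool.Agent.Tav.GdEnd.Dat (nu nu_zero)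

noncomputable section

variable {ι : Type} [Fintype ι] [Om ι] {M : Submodule ℤ (ι → ℂ)}

omit [Fintype ι] in
lemma St.sc (h : St M) (k : ℕ) : St (sc k M) := fun x hx => by
  obtain ⟨m, hm, rfl⟩ := mem_sc.1 hx
  exact mem_sc.2 ⟨_, h m hm, (mul_smul_comm _ _ _).symm⟩

lemma In.sc (h : In M) {k : ℕ} (hk : k ≠ 0) : In (sc k M) :=
  h.mono (h.lat.of_com (com_sc hk)) (sc_le k) (h.st.sc k)

lemma Un.sc {Γ : Type*} [LinearOrderedCommGroupWithZero Γ] {v : Valuation ℂ Γ} (hM : Un v M)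
    {k : ℕ} (hk : v k = 1) : Un v (sc k M) := by
  have h0 : k ≠ 0 := fun e => by simp [e] at hk
  obtain ⟨hE, n, hn, h⟩ := hM
  refine ⟨hE.sc h0, k * (n * k), ?_, fun x hx => ?_⟩
  · push_cast; rw [map_mul, map_mul, hk, hn, one_mul, one_mul]
  · exact mem_sc.2 ⟨_, h _ (mem_du_sc.1 hx), by rw [mul_smul, mul_smul]⟩

lemma chi_prod {κ : Type} [Fintype κ] {b : κ → ι → ℂ} (hb : ∑ i, b i * star (b i) = 1)
    (y : ι → ℂ) : ∏ i, chi (b i * y) = chi y := by
  simp only [chi, Gd.ph, ← Complex.exp_sum, mul_left_comm om]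
  rw [← Finset.mul_sum, ← ofReal_sum, ← im_sum, Hm_sum hb]

/-- the data: a theta function with good reduction and normalised coordinates -/
structure Dat (R : ValuationSubring ℂ) (M : Submodule ℤ (ι → ℂ)) (f : (ι → ℂ) → ℂ) {σ : Type}
    (η : σ → ι → ℂ) (n : (ι → ℂ) → ℂ) (x : (ι → ℂ) → σ → R) : Prop where
  gf : Gf R.valuation M f
  mem : ∀ l, 9 • η l ∈ du M
  all : ∀ a, 9 • a ∈ du M → ∃ l, a - η l ∈ M
  nm : Nrm.Nm (fun z l => U (η l) f z) n x
  quad : ∀ s t, R.valuation (n (s + t)) * R.valuation (n (s - t)) =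
    R.valuation (n s) ^ 2 * R.valuation (n t) ^ 2

/-- a family of endomorphisms whose norms add up to `9 ^ k` -/
def Fam (M : Submodule ℤ (ι → ℂ)) (k : ℕ) {κ : Type} [Fintype κ] (b : κ → ι → ℂ) : Prop :=
  (∀ i, ∀ m ∈ M, b i * m ∈ M) ∧ ∑ i, b i * star (b i) = 9 ^ k

/-- theta functions of level `9 ^ k` with integral values are forms over `R` -/
def Ball (R : ValuationSubring ℂ) (M : Submodule ℤ (ι → ℂ)) (f : (ι → ℂ) → ℂ) {σ : Type}
    (η : σ → ι → ℂ) (k : ℕ) : Prop :=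
  ∀ h ∈ Tc (sc (3 ^ (k + 2)) M), (∀ a ∈ QQ M, R.valuation (U a h 0) ≤ 1) →
    (fun z => h (3 ^ k • z)) ∈ Submodule.span R (range fun l => U (η l) f) ^ 9 ^ k

section Fam

variable {k : ℕ} {κ : Type} {b : κ → ι → ℂ}

/-- the family divided by `3 ^ k` -/
def dvt (k : ℕ) (b : κ → ι → ℂ) (i : κ) : ι → ℂ := ((3 : ℂ) ^ k)⁻¹ • b i

omit [Fintype ι] [Om ι] in
lemma dvt_mul (i : κ) (z : ι → ℂ) : dvt k b i * (3 ^ k • z) = b i * z := by
  ext j
  rw [Pi.mul_apply, Pi.mul_apply, dvt, Pi.smul_apply, Pi.smul_apply, smul_eq_mul, nsmul_eq_mul]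
  push_cast
  field_simp

variable [Fintype κ]

omit [Fintype ι] [Om ι] in
lemma dvt_sum (hb : Fam M k b) : ∑ i, dvt k b i * star (dvt k b i) = 1 := by
  ext j
  have e := congrFun hb.2 j
  simp only [Finset.sum_apply, Pi.mul_apply, Pi.star_apply, Pi.pow_apply, Pi.ofNat_apply] at e
  have : ∀ i, (dvt k b i * star (dvt k b i)) j = ((9 : ℂ) ^ k)⁻¹ * (b i j * star (b i j)) :=
    fun i => by
      simp only [dvt, Pi.mul_apply, Pi.star_apply, Pi.smul_apply, smul_eq_mul, star_mul',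
        star_inv₀, star_pow, star_ofNat]
      rw [show (9 : ℂ) = 3 * 3 by norm_num, mul_pow]
      field_simp
  rw [Finset.sum_apply]
  simp only [this]
  rw [← Finset.mul_sum, e, inv_mul_cancel₀ (by simp), Pi.one_apply]

omit [Fintype ι] [Om ι] in
lemma dvt_qq (hb : Fam M k b) (i : κ) {a : ι → ℂ} (ha : a ∈ QQ M) : dvt k b i * a ∈ QQ M := by
  obtain ⟨j, hj, h⟩ := ha
  refine ⟨3 ^ k * j, by positivity, ?_⟩
  rw [← mul_smul_comm, mul_smul, dvt_mul]
  exact hb.1 i _ h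

end Fam

namespace Dat

variable {R : ValuationSubring ℂ} {f : (ι → ℂ) → ℂ} {σ : Type} {η : σ → ι → ℂ}
  {n : (ι → ℂ) → ℂ} {x : (ι → ℂ) → σ → R} (D : Dat R M f η n x)
include D

lemma eq (z : ι → ℂ) (l : σ) : U (η l) f z = n z * x z l := D.nm.eq z l

lemma val_U (z w : ι → ℂ) (l : σ) :
    R.valuation (U w (U (η l) f) z) = nu R n z w * R.valuation (x (z + w) l : ℂ) := by
  rw [U_apply w, D.eq, map_mul, map_mul, nu, GdEnd.ex, mul_assoc]

lemma val_le (z w : ι → ℂ) (l : σ) : R.valuation (U w (U (η l) f) z) ≤ nu R n z w := by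
  rw [D.val_U]
  exact mul_le_of_le_one_right' (R.valuation_le_one _)

lemma val_eq (z w : ι → ℂ) : ∃ l, R.valuation (U w (U (η l) f) z) = nu R n z w := by
  obtain ⟨l, hl⟩ := D.nm.prim (z + w)
  exact ⟨l, by rw [D.val_U, (R.valuation_eq_one_iff _).1 hl, mul_one]⟩

lemma nu_ne (z w : ι → ℂ) : nu R n z w ≠ 0 :=
  mul_ne_zero (by simp [GdEnd.ex]) (by simpa using D.nm.ne _)

lemma qq {a : ι → ℂ} {k : ℕ} (hk : k ≠ 0) (h : k • a ∈ du M) : a ∈ QQ M := D.gf.un.dv_QQ hk h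

lemma nu_one {w : ι → ℂ} (hw : w ∈ QQ M) : nu R n 0 w = 1 := by
  have hη : ∀ l, η l ∈ QQ M := fun l => D.qq (by norm_num) (D.mem l)
  apply le_antisymm
  · obtain ⟨l, hl⟩ := D.val_eq 0 w
    rw [← hl, val_UU D.gf.un.1 hw (hη l)]
    exact D.gf.le _ (add_mem hw (hη l))
  · obtain ⟨ξ, h1, h2⟩ := D.gf.one w hw
    obtain ⟨l, hl⟩ := D.all ξ (by
      rw [show (9 : ℕ) = 3 * 3 from rfl, mul_smul]; exact nsmul_mem h1 3)
    rw [show w + ξ = w + η l + (ξ - η l) by abel,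
      val_per D.gf.un.1 D.gf.mem (add_mem hw (hη l)) hl, ← val_UU D.gf.un.1 hw (hη l)] at h2
    rw [← h2]
    exact D.val_le 0 w l

lemma th9 (l : σ) : U (η l) f ∈ Tc (sc 9 M) :=
  U_mem_Tc (mem_du_sc.2 (D.mem l)) (Tc_mono (sc_le 9) D.gf.mem)

lemma nu_lat (z : ι → ℂ) {m : ι → ℂ} (hm : m ∈ M) : nu R n z (9 • m) = nu R n z 0 := by
  have h : ∀ l, R.valuation (U (9 • m) (U (η l) f) z) = R.valuation (U 0 (U (η l) f) z) :=
    fun l => by
      rw [U_zero, (D.th9 l).2 _ (mem_sc.2 ⟨m, hm, rfl⟩), Pi.smul_apply, smul_eq_mul, map_mul,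
        val_chi _ D.gf.un.1 (le_QQ (nsmul_mem hm 9)), one_mul]
  apply le_antisymm
  · obtain ⟨l, hl⟩ := D.val_eq z (9 • m)
    rw [← hl, h]; exact D.val_le _ _ l
  · obtain ⟨l, hl⟩ := D.val_eq z 0
    rw [← hl, ← h]; exact D.val_le _ _ l

lemma nu_par (z w w' : ι → ℂ) :
    nu R n z (w + w') * nu R n z (w - w') = nu R n z w ^ 2 * nu R n 0 w' ^ 2 := by
  have h := D.quad (z + w) w'
  have e := congrArg R.valuation (GdEnd.ex_par z w w')
  simp only [map_mul, map_pow] at e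
  simp only [nu, zero_add, mul_pow]
  rw [mul_mul_mul_comm, e, ← add_assoc, ← add_sub_assoc, h, mul_mul_mul_comm]

/-- the size is invariant under torsion points -/
lemma nu_eq (z : ι → ℂ) {w : ι → ℂ} (hw : w ∈ QQ M) : nu R n z w = R.valuation (n z) := by
  obtain ⟨k, hk, hm⟩ := id hw
  have := geom (a := fun j => nu R n z (j • w)) (fun j => D.nu_ne _ _) (fun j => by
    have e := D.nu_par z ((j + 1) • w) w
    rw [D.nu_one hw, one_pow, mul_one, ← succ_nsmul, succ_nsmul w j, add_sub_cancel_right] at e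
    rw [succ_nsmul w j]; exact e) (K := 9 * k) (by omega) (by
      simp only [zero_smul]; rw [mul_smul]; exact D.nu_lat z hm)
  simpa only [one_smul, zero_smul, nu_zero] using this

lemma n_zero : R.valuation (n 0) = 1 := by rw [← nu_zero, D.nu_one (zero_mem _)]

variable {k : ℕ} {κ : Type} [Fintype κ] {b : κ → ι → ℂ}

lemma pr_th (hb : Fam M k b) (l : κ → σ) :
    pr (dvt k b) (fun i => U (η (l i)) f) ∈ Tc (sc (3 ^ (k + 2)) M) := by
  refine ⟨pr_diff _ fun i => U_diff _ D.gf.mem.1, fun y hy => ?_⟩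
  have h : ∀ i, U (dvt k b i * y) (U (η (l i)) f) = chi (dvt k b i * y) • U (η (l i)) f :=
    fun i => by
      obtain ⟨m, hm, rfl⟩ := mem_sc.1 hy
      refine (D.th9 _).2 _ (mem_sc.2 ⟨_, hb.1 i m hm, ?_⟩)
      rw [pow_add, mul_smul, dvt_mul, mul_smul_comm]
      rfl
  rw [U_pr (dvt_sum hb), ← chi_prod (dvt_sum hb)]
  ext z
  simp only [h, pr, Pi.smul_apply, smul_eq_mul, Finset.prod_mul_distrib]

lemma pr_le (hb : Fam M k b) (l : κ → σ) {a : ι → ℂ} (ha : a ∈ QQ M) (t : ι → ℂ) :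
    R.valuation (U a (pr (dvt k b) fun i => U (η (l i)) f) (3 ^ k • t)) ≤
      ∏ i, R.valuation (n (b i * t)) := by
  rw [U_pr (dvt_sum hb), pr, map_prod]
  refine Finset.prod_le_prod' fun i _ => ?_
  rw [dvt_mul, ← D.nu_eq _ (dvt_qq hb i ha)]
  exact D.val_le _ _ _

lemma pr_le_one (hb : Fam M k b) (l : κ → σ) {a : ι → ℂ} (ha : a ∈ QQ M) :
    R.valuation (U a (pr (dvt k b) fun i => U (η (l i)) f) 0) ≤ 1 := by
  simpa [D.n_zero] using D.pr_le hb l ha 0

lemma pr_eq (t : ι → ℂ) : ∃ l : κ → σ, (∀ i, IsUnit (x (b i * t) (l i))) ∧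
    R.valuation (pr (dvt k b) (fun i => U (η (l i)) f) (3 ^ k • t)) =
      ∏ i, R.valuation (n (b i * t)) := by
  choose l hl using fun i => D.nm.prim (b i * t)
  refine ⟨l, hl, ?_⟩
  rw [pr, map_prod]
  refine Finset.prod_congr rfl fun i _ => ?_
  rw [dvt_mul, D.eq, map_mul, (R.valuation_eq_one_iff _).1 (hl i), mul_one]

lemma cmp {κ' : Type} [Fintype κ'] {b' : κ' → ι → ℂ} (hb : Fam M k b) (hb' : Fam M k b')
    (t : ι → ℂ) : ∏ i, R.valuation (n (b i * t)) ≤ ∏ i, R.valuation (n (b' i * t)) := by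
  have hu : Un R.valuation (sc (3 ^ (k + 2)) M) :=
    D.gf.un.sc (by push_cast; rw [map_pow, D.gf.three, one_pow])
  obtain ⟨N, r, hr⟩ := exists_reps hu.1.lat.du hu.1.lat hu.1.le_du
  have hq : ∀ a, r a ∈ QQ M := fun a => D.qq (by positivity) (mem_du_sc.1 (hr.1 a))
  obtain ⟨l, -, hl⟩ := D.pr_eq (k := k) (b := b) t
  obtain ⟨l', -, hl'⟩ := D.pr_eq (k := k) (b := b') 0
  simp only [smul_zero, mul_zero, D.n_zero, Finset.prod_const_one] at hl'
  obtain ⟨c, hc, e⟩ := span hu hr (LinearMap.proj 0) (D.pr_th hb' l') (D.pr_th hb l)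
    (fun e => by rw [LinearMap.proj_apply] at e; simp [e] at hl')
  rw [← hl, e, Finset.sum_apply]
  refine R.valuation.map_sum_le fun a _ => ?_
  have h1 := hc a
  rw [LinearMap.proj_apply, LinearMap.proj_apply, hl', mul_one] at h1
  rw [Pi.smul_apply, smul_eq_mul, map_mul, h1]
  exact (mul_le_of_le_one_left' (D.pr_le_one hb l (neg_mem (hq a)))).trans
    (D.pr_le hb' l' (hq a) t)

/-- the size is an exact quadratic form for the hermitian structure -/
lemma prod_eq (hb : Fam M k b) (t : ι → ℂ) :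
    ∏ i, R.valuation (n (b i * t)) = R.valuation (n t) ^ 9 ^ k := by
  have h1 : Fam M k fun _ : Fin (9 ^ k) => (1 : ι → ℂ) :=
    ⟨fun _ m hm => by rwa [one_mul], by simp⟩
  simpa using le_antisymm (D.cmp hb h1 t) (D.cmp h1 hb t)

/-- END -/
theorem reg (hB : Ball R M f η k) (hb : Fam M k b) (i0 : κ) : Mor x x (b i0 * ·) := by
  classical
  intro t
  obtain ⟨l, hl, -⟩ := D.pr_eq (k := k) (b := b) t
  let u : (ι → ℂ) → ℂ := fun z => (∏ i, n (b i * z)) / n z ^ 9 ^ k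
  have hu : ∀ z, R.valuation (u z) = 1 := fun z => by
    simp only [u, map_div₀, map_prod, map_pow, D.prod_eq hb]
    exact div_self (pow_ne_zero _ (by simpa using D.nm.ne z))
  let u' : (ι → ℂ) → R := fun z => ⟨u z, (R.valuation_le_one_iff _).1 (hu z).le⟩
  refine ⟨fun _ => 9 ^ k, fun z => u' z * ∏ i ∈ Finset.univ.erase i0, x (b i * z) (l i), ?_,
    fun w hw => ?_⟩
  · exact ((R.valuation_eq_one_iff _).2 (hu t)).mul (IsUnit.prod_iff.2 fun i _ => hl i)
  · rw [Fin.prod_univ_one, Matrix.cons_val_zero]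
    induction hw using Submodule.span_induction with
    | mem w hw =>
      obtain ⟨j, rfl⟩ := hw
      obtain ⟨y, hy, e⟩ := D.nm.dn.pow (9 ^ k) _ (hB _ (D.pr_th hb (Function.update l i0 j))
        fun a ha => D.pr_le_one hb _ ha)
      suffices h : (fun z => u' z * ∏ i ∈ Finset.univ.erase i0, x (b i * z) (l i)) *
          (fun z => x (b i0 * z) j) = y by rw [h]; exact hy
      ext z
      have e1 := e z
      simp only [pr, dvt_mul, D.eq, Finset.prod_mul_distrib, Pi.pow_apply] at e1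
      rw [← Finset.prod_erase_mul _ (fun i => (x (b i * z) (Function.update l i0 j i) : ℂ))
        (Finset.mem_univ i0), Function.update_self,
        Finset.prod_congr (s₁ := Finset.univ.erase i0) rfl (g := fun i => (x (b i * z) (l i) : ℂ))
          fun i hi => by rw [Function.update_of_ne (Finset.ne_of_mem_erase hi)]] at e1
      have := pow_ne_zero (9 ^ k) (D.nm.ne z)
      simp only [Pi.mul_apply, u', u]
      push_cast
      field_simp
      linear_combination e1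
    | zero => rw [mul_zero]; exact zero_mem _
    | add w w' _ _ ih ih' => rw [mul_add]; exact add_mem ih ih'
    | smul c w _ ih => rw [mul_smul_comm]; exact Submodule.smul_mem _ _ ih

end Dat

end

end Pool.Agent.Tav.G3
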