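import Pool.Agent.P.MP_2ce3e7_ag.Tav.GrEmb

/-! The embedding from a law of bidegree (3,3) with an extra factor. -/

set_option autoImplicit false

noncomputable section

namespace Pool.Agent.Tav.G3

open Complex Set Cmh GrEmb
open scoped Real

section law
variable {K V σ : Type} [CommRing K]

lemma eig_cube {t t' : V} {a : K} {A : Submodule K (V → K)} (hA : A ≤ eig t t' a) :
    A ^ 3 ≤ eig t t' (a * a * a) := by
  rw [pow_succ, pow_two]
  exact eig_mul (eig_mul hA hA) hA

/-- proportional points have proportional translates -/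
theorem par_add3 [AddCommGroup V] {p : V → σ → K} (h0 : ∀ v, ∃ l, IsUnit (p v l))
    {c : V × V → K} (hc : ∀ t, IsUnit (c t))
    (law : ∀ i j a b, (c * fun t : V × V =>
      p (t.1 + t.2) i * p (t.1 - t.2) j * (p t.1 a * p t.2 b)) ∈
      (crd fun t : V × V => p t.1) ^ 3 * (crd fun t : V × V => p t.2) ^ 3)
    {v v' : V} (h : Par (p v) (p v')) (y : V) : Par (p (v + y)) (p (v' + y)) := by
  obtain ⟨s, hs, h⟩ := h
  obtain ⟨j, hj⟩ := h0 (v - y)
  obtain ⟨a, ha⟩ := h0 v
  obtain ⟨b, hb⟩ := h0 y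
  obtain ⟨i0, hi⟩ := h0 (v + y)
  obtain ⟨e, he⟩ := (hc (v, y)).mul (hj.mul (ha.mul hb))
  have key : ∀ i, p (v + y) i =
      ↑e⁻¹ * (s * s * s * c (v', y) * p (v' - y) j * (p v' a * p y b)) * p (v' + y) i := fun i => by
    have h1 : c (v, y) * (p (v + y) i * p (v - y) j * (p v a * p y b)) = s * s * s * (1 * 1 * 1) *
        (c (v', y) * (p (v' + y) i * p (v' - y) j * (p v' a * p y b))) :=
      eig_mul (t := (v, y)) (t' := (v', y)) (eig_cube (crd_eig h))
        (eig_cube (crd_eig (one_smul _ _).symm)) (law i j a b)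
    linear_combination (↑e⁻¹ : K) * h1 - p (v + y) i * e.inv_mul + p (v + y) i * ↑e⁻¹ * he
  refine ⟨_, ?_, funext key⟩
  rw [key i0] at hi
  exact isUnit_of_mul_isUnit_left hi

end law

section der
variable {V σ : Type} [NormedAddCommGroup V] [NormedSpace ℂ V]

lemma dig_cube {T : Type} {γ : ℂ → T} {a : ℂ} {A : Submodule ℂ (T → ℂ)} (hA : A ≤ dig γ a) :
    A ^ 3 ≤ dig γ (a + a + a) := by
  rw [pow_succ, pow_two]
  exact dig_mul (dig_mul hA hA) hA

theorem der_add3 {g : σ → V → ℂ} (hd : ∀ l, Differentiable ℂ (g l)) (h0 : ∀ v, ∃ l, g l v ≠ 0)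
    (law : ∀ i j a b, (fun t : V × V =>
      g i (t.1 + t.2) * g j (t.1 - t.2) * (g a t.1 * g b t.2)) ∈
      (crd fun (t : V × V) l => g l t.1) ^ 3 * (crd fun (t : V × V) l => g l t.2) ^ 3)
    {v w : V} {s : ℂ} (h : ∀ l, fderiv ℂ (g l) v w = s * g l v) (z : V) :
    ∃ c : ℂ, ∀ l, fderiv ℂ (g l) z w = c * g l z := by
  obtain ⟨y, rfl⟩ : ∃ y, z = v + y := ⟨z - v, by abel⟩
  obtain ⟨j, hj⟩ := h0 (v - y)
  obtain ⟨a, ha⟩ := h0 v
  obtain ⟨b, hb⟩ := h0 y
  have h1 : (crd fun (t : V × V) l => g l t.1) ≤ dig (fun s : ℂ => (v + s • w, y)) s :=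
    Submodule.span_le.2 (by
      rintro _ ⟨l, rfl⟩
      show HasDerivAt _ (s * g l (v + (0 : ℂ) • w)) _
      rw [zero_smul, add_zero, ← h]
      exact line_der (hd l) v w)
  have h2 : (crd fun (t : V × V) l => g l t.2) ≤ dig (fun s : ℂ => (v + s • w, y)) 0 :=
    Submodule.span_le.2 (by
      rintro _ ⟨l, rfl⟩
      show HasDerivAt _ (0 * _) _
      rw [zero_mul]
      exact hasDerivAt_const (0 : ℂ) (g l y))
  refine ⟨s + s - fderiv ℂ (g j) (v - y) w / g j (v - y), fun i => ?_⟩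
  have h4 : HasDerivAt
      (fun s : ℂ => g i (v + s • w + y) * g j (v + s • w - y) * (g a (v + s • w) * g b y))
      ((s + s + s + (0 + 0 + 0)) * (g i (v + (0 : ℂ) • w + y) * g j (v + (0 : ℂ) • w - y) *
        (g a (v + (0 : ℂ) • w) * g b y))) 0 := dig_mul (dig_cube h1) (dig_cube h2) (law i j a b)
  have h5 := ((line_der (hd i) (v + y) w).mul (line_der (hd j) (v - y) w)).mul
    ((line_der (hd a) v w).mul_const (g b y))
  simp only [add_right_comm v _ y, add_sub_right_comm v] at h4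
  have h6 := h4.unique h5
  simp only [zero_smul, add_zero, Pi.mul_apply, h a] at h6
  have h7 : fderiv ℂ (g i) (v + y) w * g j (v - y) + g i (v + y) * fderiv ℂ (g j) (v - y) w =
      (s + s) * (g i (v + y) * g j (v - y)) :=
    mul_right_cancel₀ (mul_ne_zero ha hb) (by linear_combination -h6)
  field_simp
  linear_combination h7

end der

variable {ι σ : Type} [Fintype ι] {N : Submodule ℤ (ι → ℂ)}

/-- the embedding when translation keeps proportionality -/
theorem emb_of_add [Fintype σ] (hN : IsLat N) {g : σ → (ι → ℂ) → ℂ}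
    (hd : ∀ l, Differentiable ℂ (g l))
    (hU : ∀ η ∈ N, ∀ l, U η (g l) ∈ Submodule.span ℂ (range g)) (h0 : ∀ v, ∃ l, g l v ≠ 0)
    (h1 : ∀ v v', Par (fun l => g l v) (fun l => g l v') →
      ∀ y, Par (fun l => g l (v + y)) fun l => g l (v' + y))
    (h2 : ∀ v w (s : ℂ), (∀ l, fderiv ℂ (g l) v w = s * g l v) →
      ∀ z, ∃ c : ℂ, ∀ l, fderiv ℂ (g l) z w = c * g l z) :
    (∀ v w, Par (fun l => g l v) (fun l => g l w) → v - w ∈ du N) ∧
      ∀ v w (c : ℂ), fderiv ℂ (fun v l => g l v) v w = c • (fun l => g l v) → w = 0 := by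
  have hd' : ∀ f ∈ Submodule.span ℂ (range g), Differentiable ℂ f := fun f hf => by
    induction hf using Submodule.span_induction with
    | mem _ h => obtain ⟨l, rfl⟩ := h; exact hd l
    | zero => exact differentiable_const 0
    | add a b _ _ ha hb => exact ha.add hb
    | smul r a _ ha => exact ha.const_smul r
  have hU' : ∀ η ∈ N, ∀ f ∈ Submodule.span ℂ (range g), U η f ∈ Submodule.span ℂ (range g) :=
    fun η hη => (Submodule.span_le (p := (Submodule.span ℂ (range g)).comap (U η))).2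
      (by rintro _ ⟨l, rfl⟩; exact hU η hη l)
  have h0' : ∀ z, ∃ f ∈ Submodule.span ℂ (range g), f z ≠ 0 := fun z =>
    (h0 z).elim fun l hl => ⟨_, Submodule.subset_span ⟨l, rfl⟩, hl⟩
  refine ⟨fun v w h => mem_du_of_prop hN hd' hU' h0' fun z => ?_,
    fun v w c h => eq_zero_of_prop hN hd' hU' h0' fun z => ?_⟩
  · obtain ⟨c, -, hc⟩ := h1 v w h (z - w)
    refine ⟨c, fun f hf => ?_⟩
    have := crd_eig (p := fun v l => g l v) hc hf
    rw [show v + (z - w) = z + (v - w) by abel, add_sub_cancel] at this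
    exact this
  · obtain ⟨c', hc⟩ := h2 v w c (fun l => by
      have := congrFun h l
      rwa [fderiv_pi fun l => hd l v] at this) z
    refine ⟨c', fun f hf => ?_⟩
    induction hf using Submodule.span_induction with
    | mem _ h => obtain ⟨l, rfl⟩ := h; exact hc l
    | zero => simp
    | add a b ha' hb' ha hb =>
      rw [fderiv_add (hd' a ha' z) (hd' b hb' z), add_apply, ha, hb, Pi.add_apply, mul_add]
    | smul r a ha' ha =>
      rw [fderiv_const_smul (hd' a ha' z), smul_apply, ha, Pi.smul_apply, smul_eq_mul,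
        smul_eq_mul, mul_left_comm]

theorem emb3 [Fintype σ] (hN : IsLat N) {g : σ → (ι → ℂ) → ℂ} (hd : ∀ l, Differentiable ℂ (g l))
    (hU : ∀ η ∈ N, ∀ l, U η (g l) ∈ Submodule.span ℂ (range g)) (h0 : ∀ v, ∃ l, g l v ≠ 0)
    (law : ∀ i j a b, (fun t : (ι → ℂ) × (ι → ℂ) =>
      g i (t.1 + t.2) * g j (t.1 - t.2) * (g a t.1 * g b t.2)) ∈
      (crd fun (t : (ι → ℂ) × (ι → ℂ)) l => g l t.1) ^ 3 *
        (crd fun (t : (ι → ℂ) × (ι → ℂ)) l => g l t.2) ^ 3) :
    (∀ v w, Par (fun l => g l v) (fun l => g l w) → v - w ∈ du N) ∧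
      ∀ v w (c : ℂ), fderiv ℂ (fun v l => g l v) v w = c • (fun l => g l v) → w = 0 :=
  emb_of_add hN hd hU h0
    (fun _ _ h => par_add3 (p := fun v l => g l v) (c := 1)
      (fun v => (h0 v).imp fun _ h => h.isUnit) (fun _ => isUnit_one)
      (fun i j a b => by rw [one_mul]; exact law i j a b) h)
    fun _ _ _ h => der_add3 hd h0 law h

/-- the converse -/
theorem par_of_eig {g : σ → (ι → ℂ) → ℂ} {v w : ι → ℂ} {c : ℂ} (hc : c ≠ 0)
    (h : ∀ l, U (v - w) (g l) = c • g l) : Par (fun l => g l v) (fun l => g l w) := by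
  refine ⟨(cexp (-π * Hm w (v - w) - π * nq (v - w) / 2))⁻¹ * c,
    (mul_ne_zero (inv_ne_zero (exp_ne_zero _)) hc).isUnit, funext fun l => ?_⟩
  have := congrFun (h l) w
  rw [U_apply, add_sub_cancel, Pi.smul_apply, smul_eq_mul] at this
  rw [Pi.smul_apply, smul_eq_mul, mul_assoc, ← this, inv_mul_cancel_left₀ (exp_ne_zero _)]

end Pool.Agent.Tav.G3
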