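import Pool.Agent.P.MP_2ce3e7_ag.Tav.G3RR
import Pool.Agent.P.MP_2ce3e7_ag.Tav.G3Emb
import Pool.Agent.P.MP_2ce3e7_ag.Tav.GrNrm

/-! The exact law of bidegree (3,3) over the valuation ring, its inverse, the embedding. -/

set_option autoImplicit false

noncomputable section

namespace Pool.Agent.Tav.G3

open Complex Set Cmh
open Gd (ph U_U')
open GrLaw (span_comp scl mem_scl scl_le com_scl mem_du_scl)
open Nrm (rs Nm)
open scoped Real

variable {ι σ : Type} [Fintype ι] [Om ι] {Λ : Submodule ℤ (ι → ℂ)} {f : (ι → ℂ) → ℂ}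
  {R : ValuationSubring ℂ} {η : σ → ι → ℂ}

/-- `η` runs through the classes of a ninth of the dual lattice -/
def Qt (Λ : Submodule ℤ (ι → ℂ)) (η : σ → ι → ℂ) : Prop :=
  (∀ l, 9 • η l ∈ du Λ) ∧ ∀ a, 9 • a ∈ du Λ → ∃ l, a - η l ∈ Λ

lemma exists_Qt (hΛ : In Λ) : ∃ (n : ℕ) (η : Fin n → ι → ℂ), Qt Λ η := by
  have hc : Com (scl 9 Λ) Λ := com_scl (by norm_num)
  obtain ⟨n, l, hl⟩ := exists_reps (hΛ.lat.of_com hc.symm).du hΛ.lat
    fun x hx => mem_du_scl.2 (nsmul_mem (hΛ.le_du hx) 9)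
  exact ⟨n, l, fun a => mem_du_scl.1 (hl.1 a), fun a ha => (hl.2 a (mem_du_scl.2 ha)).exists⟩

lemma Qt.QQ (hη : Qt Λ η) (hΛ : In Λ) (l : σ) : η l ∈ QQ Λ := hΛ.Gk_QQ 4 (Gk_four.2 (hη.1 l))

omit [Om ι] in
lemma nine_of_three {x : ι → ℂ} (h : 3 • x ∈ du Λ) : 9 • x ∈ du Λ := by
  rw [show (9 : ℕ) = 3 * 3 from rfl, mul_smul]
  exact nsmul_mem h 3

lemma Gf.lab (h : Gf R.valuation Λ f) (hη : Qt Λ η) {a : ι → ℂ} (ha : 9 • a ∈ du Λ) :
    ∃ (l : σ) (u : ℂ), R.valuation u = 1 ∧ U a f = u • U (η l) f := by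
  obtain ⟨l, hl⟩ := hη.2 a ha
  refine ⟨l, ph (η l) (a - η l) * chi (a - η l), ?_, ?_⟩
  · rw [map_mul, val_ph _ h.un.1 (hη.QQ h.un.1 l) (le_QQ hl), val_chi _ h.un.1 (le_QQ hl), one_mul]
  · rw [← U_add_mem h.mem _ hl, add_sub_cancel]

lemma Gf.th9 (h : Gf R.valuation Λ f) {a : ι → ℂ} (ha : 9 • a ∈ du Λ) : U a f ∈ Tc (scl 9 Λ) :=
  U_mem_Tc (mem_du_scl.2 ha) (Tc_mono (scl_le 9) h.mem)

lemma Gf.lab_rs (h : Gf R.valuation Λ f) (hη : Qt Λ η) {a : ι → ℂ} (ha : a ∈ Gk 4 (du Λ))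
    {T : Type} (φ : T → ι → ℂ) : (fun t => U a f (φ t)) ∈ rs R fun t l => U (η l) f (φ t) := by
  obtain ⟨l, u, hu, e⟩ := h.lab hη (Gk_four.1 ha)
  refine mem_of_eq_of_mem (funext fun t => ?_) (Submodule.smul_mem _
    (⟨u, (R.valuation_le_one_iff _).1 hu.le⟩ : R) (Submodule.subset_span (mem_range_self l)))
  rw [e]; rfl

/-- the norm relation for `la` -/
theorem Gf.step_rs (h : Gf R.valuation Λ f) (hη : Qt Λ η) {u : ι → ℂ} (hu : Uw u) {ζ : ι → ℂ}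
    (hζ : ζ ∈ Gk 5 (du Λ)) {T : Type} (φ : T → ι → ℂ) :
    (fun t => U ζ f ((u - u * u) * φ t)) ∈ (rs R fun t l => U (η l) f (φ t)) ^ 3 := by
  refine mem_of_eq_of_mem (funext fun t => (one_mul _).symm)
    (span_comp (h.stepR hu (k := 4) (by norm_num) hζ) φ (fun _ => 1) fun ξ => ?_)
  rw [pow_three']
  refine mem_of_eq_of_mem (funext fun t => ?_) (Submodule.mul_mem_mul (Submodule.mul_mem_mul
    (h.lab_rs hη (ξ 0).2 φ) (h.lab_rs hη (ξ 1).2 φ)) (h.lab_rs hη (ξ 2).2 φ))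
  rw [one_mul, Fin.prod_univ_three]; rfl

omit [Fintype ι] in
lemma neg_la (x : ι → ℂ) : -((om * om - om * om * (om * om)) * x) = (om - om * om) * x :=
  funext fun a => by
    have := Om.eq a
    simp only [Pi.mul_apply, Pi.sub_apply, Pi.neg_apply]; grind

/-- LAW33 -/
theorem Gf.law33 (h : Gf R.valuation Λ f) (hη : Qt Λ η) (i j a b : σ) :
    (fun t : (ι → ℂ) × (ι → ℂ) => U (η i) f (t.1 + t.2) * U (η j) f (t.1 - t.2) *
      (U (η a) f t.1 * U (η b) f t.2)) ∈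
      (rs R fun (t : (ι → ℂ) × (ι → ℂ)) l => U (η l) f t.1) ^ 3 *
        (rs R fun (t : (ι → ℂ) × (ι → ℂ)) l => U (η l) f t.2) ^ 3 := by
  have hQ := hη.QQ h.un.1
  have hu : Uw (om * om : ι → ℂ) := Or.inr rfl
  have key := h.hadL hu.rot4 hu.sq.rot4 hu.S4_inv (b := ![η i, η j, η a, η b])
    (fun c => by fin_cases c <;> exact hQ _) (k := 5) (by norm_num)
    (hu.rot4.lv h.un.1.st.du fun c => by fin_cases c <;> exact Gk_four.2 (hη.1 _))
  refine mem_of_eq_of_mem (funext fun t => ?_) (span_comp key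
    (fun t : (ι → ℂ) × (ι → ℂ) => ![t.1 + t.2, t.1 - t.2, t.1, t.2]) (fun _ => 1) fun l => ?_)
  · simp only [Fin.prod_univ_four, Matrix.cons_val]
    ring
  · refine mem_of_eq_of_mem (funext fun t => ?_) (Submodule.smul_mem _
      (⟨_, mul_mem (h.memR (h.un.1.Gk_QQ _ (l 2).2)) (h.memR (h.un.1.Gk_QQ _ (l 3).2))⟩ : R)
      (Submodule.mul_mem_mul (h.step_rs hη (Or.inl rfl) (l 0).2 Prod.fst)
        (h.step_rs hη (Or.inl rfl) (l 1).2 Prod.snd)))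
    simp only [hu.S4_four, neg_la, Fin.prod_univ_four, Matrix.cons_val]
    show _ = U (l 2).1 f 0 * U (l 3).1 f 0 *
      (U (l 0).1 f ((om - om * om) * t.1) * U (l 1).1 f ((om - om * om) * t.2))
    ring

lemma two_span {T α β : Type} {F F' : T → ℂ} {G : α → T → ℂ} {G' : β → T → ℂ}
    {W : Submodule R (T × T → ℂ)} (hF : F ∈ Submodule.span R (range G))
    (hF' : F' ∈ Submodule.span R (range G'))
    (h : ∀ a b, (fun t : T × T => G a t.1 * G' b t.2) ∈ W) :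
    (fun t : T × T => F t.1 * F' t.2) ∈ W :=
  span_comp hF' Prod.snd (fun t => F t.1) fun b =>
    mem_of_eq_of_mem (funext fun _ => mul_comm _ _) (span_comp hF Prod.fst (fun t => G' b t.2)
      fun a => mem_of_eq_of_mem (funext fun _ => mul_comm _ _) (h a b))

/-- INV33 -/
theorem Gf.inv33 (h : Gf R.valuation Λ f) (hη : Qt Λ η) (i j : σ) :
    (fun t : (ι → ℂ) × (ι → ℂ) => U (η i) f t.1 ^ 3 * U (η j) f t.2 ^ 3) ∈
      (rs R fun (t : (ι → ℂ) × (ι → ℂ)) l => U (η l) f (t.1 + t.2)) *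
        (rs R fun (t : (ι → ℂ) × (ι → ℂ)) l => U (η l) f (t.1 - t.2)) *
        ((rs R fun (t : (ι → ℂ) × (ι → ℂ)) l => U (η l) f t.1) *
          rs R fun (t : (ι → ℂ) × (ι → ℂ)) l => U (η l) f t.2) := by
  have hu : Uw (om : ι → ℂ) := Or.inl rfl
  have hs := h.un.1.st.du
  obtain ⟨x, hx, h1⟩ := h.one 0 (zero_mem _)
  rw [zero_add] at h1
  have hx' : x ∈ Gk 3 (du Λ) := hs.Gk_mono (by norm_num) (Gk_two.2 hx)
  refine two_span (h.cubeR hu.sq (k := 3) (by norm_num) (Gk_four.2 (hη.1 i)))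
    (h.cubeR hu.sq (k := 3) (by norm_num) (Gk_four.2 (hη.1 j))) fun ζ ζ' => ?_
  have hb : ∀ c, ![ζ.1, ζ'.1, x, x] c ∈ Gk 3 (du Λ) := fun c => by
    fin_cases c
    exacts [ζ.2, ζ'.2, hx', hx']
  have key := h.hadL hu.rot4 hu.sq.rot4 hu.S4_inv (fun c => h.un.1.Gk_QQ 3 (hb c)) (k := 4)
    (by norm_num) (hu.rot4.lv hs hb)
  have h3 : R.valuation (U x f 0 * U x f 0)⁻¹ = 1 := by simp [h1]
  have h4 : U x f 0 * U x f 0 ≠ 0 := fun e => by simp [e] at h3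
  refine mem_of_eq_of_mem (funext fun t => ?_) (span_comp key
    (fun t : (ι → ℂ) × (ι → ℂ) => ![(om - om * om) * t.1, (om - om * om) * t.2, 0, 0])
    (fun _ => (U x f 0 * U x f 0)⁻¹) fun l => ?_)
  · simp only [neg_la, Fin.prod_univ_four, Matrix.cons_val]
    rw [mul_assoc _ (U x f 0), mul_comm _⁻¹, mul_inv_cancel_right₀ h4]
  · refine mem_of_eq_of_mem (funext fun t => ?_) (Submodule.smul_mem _
      (⟨_, (R.valuation_le_one_iff _).1 h3.le⟩ : R) (Submodule.mul_mem_mul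
        (Submodule.mul_mem_mul (h.lab_rs hη (l 0).2 fun t : (ι → ℂ) × (ι → ℂ) => t.1 + t.2)
          (h.lab_rs hη (l 1).2 fun t : (ι → ℂ) × (ι → ℂ) => t.1 - t.2))
        (Submodule.mul_mem_mul (h.lab_rs hη (l 2).2 Prod.fst) (h.lab_rs hη (l 3).2 Prod.snd))))
    simp only [hu.S4_two, Fin.prod_univ_four, Matrix.cons_val, mul_assoc]
    rfl

/-- at a rational point the normalised coordinates are integral, and one is a unit -/
theorem Gf.rat (h : Gf R.valuation Λ f) (hη : Qt Λ η) {a : ι → ℂ} (ha : a ∈ QQ Λ) :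
    (∀ l, R.valuation (U a (U (η l) f) 0) ≤ 1) ∧ ∃ l, R.valuation (U a (U (η l) f) 0) = 1 := by
  have hQ := hη.QQ h.un.1
  refine ⟨fun l => by rw [val_UU h.un.1 ha (hQ l)]; exact h.le _ (add_mem ha (hQ l)), ?_⟩
  obtain ⟨ξ, hξ, h1⟩ := h.one a ha
  obtain ⟨l, u, hu, h2⟩ := h.lab hη (nine_of_three hξ)
  refine ⟨l, ?_⟩
  rwa [← val_UU h.un.1 ha (h.un.1.Gk_QQ 2 (Gk_two.2 hξ)), h2, map_smul, Pi.smul_apply,
    smul_eq_mul, map_mul, hu, one_mul] at h1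

lemma rs_ker {T : Type} {φ : T → σ → ℂ} {t : T} (h : ∀ l, φ t l = 0) :
    ∀ w ∈ rs R φ, w t = 0 := fun _ hw =>
  (Submodule.span_le (p := LinearMap.ker (LinearMap.proj (R := R) t))).2
    (by rintro _ ⟨l, rfl⟩; exact h l) hw

lemma mul_ker {T : Type} {A B : Submodule R (T → ℂ)} {t : T} (h : ∀ w ∈ A, w t = 0) :
    ∀ w ∈ A * B, w t = 0 := fun _ hw => Submodule.mul_induction_on hw
  (fun p hp q _ => by rw [Pi.mul_apply, h p hp, zero_mul])
  fun p q hp hq => by rw [Pi.add_apply, hp, hq, add_zero]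

theorem Gf.ne (h : Gf R.valuation Λ f) (hη : Qt Λ η) (z : ι → ℂ) : ∃ l, U (η l) f z ≠ 0 := by
  have h1 : ∀ a ∈ QQ Λ, ∃ l, U (η l) f a ≠ 0 := fun a ha => by
    obtain ⟨l, hl⟩ := (h.rat hη ha).2
    refine ⟨l, fun e => ?_⟩
    rw [U_apply a, zero_add, e] at hl
    simp at hl
  by_contra hz
  push Not at hz
  obtain ⟨j, hj⟩ := h1 0 (zero_mem _)
  have h2 : ∀ a ∈ (QQ Λ : Set (ι → ℂ)), U (η j) f (z - a) = 0 := fun a ha => by
    obtain ⟨i, hi⟩ := h1 a ha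
    have h4 := mul_ker (t := (a, z - a)) (mul_ker (rs_ker fun l => by
      rw [add_sub_cancel]; exact hz l)) _ (h.inv33 hη i j)
    simpa [hi] using h4
  have h3 := Continuous.ext_on h.un.1.lat.dense_QQ
    ((U_diff (η j) h.mem.1).continuous.comp (continuous_const.sub continuous_id)) continuous_const h2
  exact hj (by simpa using congrFun h3 z)

/-- the law over the complex numbers -/
theorem Gf.lawC (h : Gf R.valuation Λ f) (hη : Qt Λ η) (i j a b : σ) :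
    (fun t : (ι → ℂ) × (ι → ℂ) => U (η i) f (t.1 + t.2) * U (η j) f (t.1 - t.2) *
      (U (η a) f t.1 * U (η b) f t.2)) ∈
      (crd fun (t : (ι → ℂ) × (ι → ℂ)) l => U (η l) f t.1) ^ 3 *
        (crd fun (t : (ι → ℂ) × (ι → ℂ)) l => U (η l) f t.2) ^ 3 := by
  have := h.law33 hη i j a b
  rw [pow_three', pow_three'] at this ⊢
  exact Nrm.le_mul (Nrm.le_mul (Nrm.le_mul (Nrm.rs_le _) (Nrm.rs_le _)) (Nrm.rs_le _))
    (Nrm.le_mul (Nrm.le_mul (Nrm.rs_le _) (Nrm.rs_le _)) (Nrm.rs_le _)) this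

/-- the embedding -/
theorem Gf.emb [Fintype σ] (h : Gf R.valuation Λ f) (hη : Qt Λ η) :
    (∀ v w, Par (fun l => U (η l) f v) (fun l => U (η l) f w) ↔ v - w ∈ scl 9 Λ) ∧
      ∀ v w (c : ℂ), fderiv ℂ (fun v l => U (η l) f v) v w = c • (fun l => U (η l) f v) →
        w = 0 := by
  have hL : IsLat (scl 9 Λ) := h.un.1.lat.of_com (com_scl (by norm_num)).symm
  obtain ⟨h1, h2⟩ := emb3 hL.du (g := fun l => U (η l) f) (fun l => U_diff _ h.mem.1)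
    (fun a ha l => by
      obtain ⟨l', u, -, e⟩ := h.lab hη (a := a + η l)
        (by rw [smul_add]; exact add_mem (mem_du_scl.1 ha) (hη.1 l))
      rw [U_U', e]
      exact Submodule.smul_mem _ _ (Submodule.smul_mem _ _ (Submodule.subset_span ⟨l', rfl⟩)))
    (h.ne hη) (h.lawC hη)
  exact ⟨fun v w => ⟨fun e => du_du hL ▸ h1 v w e,
    fun e => par_of_eig (chi_ne _) fun l => (h.th9 (hη.1 l)).2 _ e⟩, h2⟩

section Nm
variable {K T : Type} [Field K] {R : ValuationSubring K} [AddCommGroup T] {φ : T → σ → K}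
  {n : T → K} {x : T → σ → R}

/-- the normalised law of bidegree (3,3) from an exact law and its inverse -/
theorem nm_law33 (h : Nm φ n x)
    (law : ∀ i j a b, (fun t : T × T => φ (t.1 + t.2) i * φ (t.1 - t.2) j * (φ t.1 a * φ t.2 b)) ∈
      (rs R fun t : T × T => φ t.1) ^ 3 * (rs R fun t => φ t.2) ^ 3)
    (inv : ∀ i j, (fun t : T × T => φ t.1 i ^ 3 * φ t.2 j ^ 3) ∈
      (rs R fun t : T × T => φ (t.1 + t.2)) * (rs R fun t => φ (t.1 - t.2)) *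
        ((rs R fun t : T × T => φ t.1) * rs R fun t => φ t.2)) :
    ∃ c : T × T → R, (∀ t, IsUnit (c t)) ∧
      (∀ t, (c t : K) = n (t.1 + t.2) * n (t.1 - t.2) / (n t.1 ^ 2 * n t.2 ^ 2)) ∧ ∀ i j a b,
      (c * fun t => x (t.1 + t.2) i * x (t.1 - t.2) j * (x t.1 a * x t.2 b)) ∈
        (crd fun t => x t.1) ^ 3 * (crd fun t => x t.2) ^ 3 := by
  obtain ⟨c, h0, h1, h2⟩ := Nrm.chart (((h.comp fun t : T × T => t.1 + t.2).mul
    (h.comp fun t : T × T => t.1 - t.2)).mul ((h.comp Prod.fst).mul (h.comp Prod.snd)))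
    (ν := (fun t : T × T => n t.1) ^ 3 * (fun t => n t.2) ^ 3)
    (fun t => mul_ne_zero (pow_ne_zero 3 (h.ne _)) (pow_ne_zero 3 (h.ne _)))
    (((h.comp Prod.fst).dn.pow 3).mul ((h.comp Prod.snd).dn.pow 3))
    fun l => law l.1.1 l.1.2 l.2.1 l.2.2
  refine ⟨c, fun t => h2 t ?_, fun t => ?_, fun i j a b => h1 ((i, j), a, b)⟩
  · obtain ⟨i, hi⟩ := h.prim t.1
    obtain ⟨j, hj⟩ := h.prim t.2
    have := inv i j
    rw [Nrm.rs_mul, Nrm.rs_mul, Nrm.rs_mul] at this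
    refine ⟨_, this, x t.1 i ^ 3 * x t.2 j ^ 3, (hi.pow 3).mul (hj.pow 3), ?_⟩
    simp only [h.eq, Pi.mul_apply, Pi.pow_apply, MulMemClass.coe_mul, SubmonoidClass.coe_pow]
    ring
  · have := h.ne t.1
    have := h.ne t.2
    rw [h0]
    simp only [Pi.mul_apply, Pi.pow_apply]
    field_simp

end Nm

section
variable {n : (ι → ℂ) → ℂ} {x : (ι → ℂ) → σ → R}

/-- the law over the valuation ring -/
theorem Gf.lawR (h : Gf R.valuation Λ f) (hη : Qt Λ η) (hN : Nm (fun z l => U (η l) f z) n x) :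
    ∃ c : (ι → ℂ) × (ι → ℂ) → R, (∀ t, IsUnit (c t)) ∧
      (∀ t, (c t : ℂ) = n (t.1 + t.2) * n (t.1 - t.2) / (n t.1 ^ 2 * n t.2 ^ 2)) ∧ ∀ i j a b,
      (c * fun t => x (t.1 + t.2) i * x (t.1 - t.2) j * (x t.1 a * x t.2 b)) ∈
        (crd fun t => x t.1) ^ 3 * (crd fun t => x t.2) ^ 3 :=
  nm_law33 hN (h.law33 hη) (h.inv33 hη)

/-- QUAD -/
theorem Gf.quad (h : Gf R.valuation Λ f) (hη : Qt Λ η) (hN : Nm (fun z l => U (η l) f z) n x)
    (s t : ι → ℂ) : R.valuation (n (s + t)) * R.valuation (n (s - t)) =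
      R.valuation (n s) ^ 2 * R.valuation (n t) ^ 2 := by
  obtain ⟨c, hc, e, -⟩ := h.lawR hη hN
  have h1 := (R.valuation_eq_one_iff _).1 (hc (s, t))
  rw [e, map_div₀, map_mul, map_mul, map_pow, map_pow] at h1
  exact (div_eq_one_iff_eq (by simp [hN.ne])).1 h1

end

end Pool.Agent.Tav.G3
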