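import Pool.Agent.P.MP_2ce3e7_ag.Tav.GrNorm
import Pool.Agent.P.MP_2ce3e7_ag.Tav.G3Ort

/-! Integral theta functions of level a power of nine are integral forms in the coordinates. -/

set_option autoImplicit false
set_option linter.unusedSectionVars false

open Complex Matrix
open scoped Real ComplexConjugate

namespace Pool.Agent.Tav.G3

open Pool.Agent.Cmh Pool.Agent.Tav.Gd

noncomputable section

variable {ι : Type} [Fintype ι] [DecidableEq ι] {s : ι → ℂ}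

/-- the character table of the group of order three -/
def n3S (s : ℂ) : Fin 3 → Fin 3 → ℂ := ![![1, 1, 1], ![1, s, s ^ 2], ![1, s ^ 2, s]]

/-- the Fourier transform divided by `s - s ^ 2` -/
def n3T (s : ι → ℂ) : Matrix (Σ _ : Fin 3, ι) (Σ _ : Fin 3, ι) ℂ :=
  fun a b => if a.2 = b.2 then n3S (s a.2) a.1 b.1 * ((s a.2 ^ 2 - s a.2) / 3) else 0

lemma n3_cp (z : (Σ _ : Fin 3, ι) → ℂ) (k : Fin 3) (i : ι) :
    cp (n3T s *ᵥ z) k i = ∑ j, n3S (s i) k j * ((s i ^ 2 - s i) / 3) * cp z j i := by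
  simp [cp, n3T, mulVec, dotProduct, Fintype.sum_sigma]

lemma n3_ext {z w : (Σ _ : Fin 3, ι) → ℂ} (h : ∀ k i, cp z k i = cp w k i) : z = w :=
  funext fun a => h a.1 a.2

lemma n3_conj {t : ℂ} (h : t ^ 2 + t + 1 = 0) : conj t = t ^ 2 := by
  have h3 : t ^ 3 = 1 := by linear_combination (t - 1) * h
  have h1 : ‖t‖ = 1 := Complex.norm_eq_one_of_pow_eq_one h3 three_ne_zero
  have h2 : t * conj t = 1 := by rw [mul_conj, normSq_eq_norm_sq, h1]; simp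
  linear_combination t ^ 2 * h2 - conj t * h3

variable (hs : s ^ 2 + s + 1 = 0)
include hs

lemma n3_pt (i : ι) : s i ^ 2 + s i + 1 = 0 := congrFun hs i

lemma n3_sq : (s ^ 2) ^ 2 + s ^ 2 + 1 = 0 := by
  linear_combination (s ^ 2 - s + 1) * hs

lemma n3_four : (s ^ 2) ^ 2 = s := by
  linear_combination (s ^ 2 - s) * hs

lemma n3_ct : (n3T s)ᴴ = n3T (s ^ 2) := by
  ext ⟨a, i⟩ ⟨b, j⟩
  by_cases h : i = j
  · subst h
    have e := n3_pt hs i
    have e' := n3_conj e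
    fin_cases a <;> fin_cases b <;> simp [n3T, n3S, e']
  · simp [n3T, h, Ne.symm h]

lemma n3_inv (z : (Σ _ : Fin 3, ι) → ℂ) : n3T s *ᵥ (n3T (s ^ 2) *ᵥ z) = z := by
  refine n3_ext fun k i => ?_
  have e := n3_pt hs i
  simp only [n3_cp, Fin.sum_univ_three]
  fin_cases k <;> simp [n3S] <;> grind

lemma n3_uni : IsUni (n3T s) := by
  have h : ∀ {t : ι → ℂ}, t ^ 2 + t + 1 = 0 → n3T t * n3T (t ^ 2) = 1 := fun ht =>
    Matrix.toLin'.injective (LinearMap.ext fun z => by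
      rw [toLin'_apply, toLin'_apply, ← mulVec_mulVec, n3_inv ht, one_mulVec])
  refine ⟨?_, by rw [n3_ct hs, h hs]⟩
  have := h (n3_sq hs)
  rwa [n3_four hs, ← n3_ct hs] at this

lemma n3_three {N : Submodule ℤ (ι → ℂ)} (hN : ∀ x ∈ N, s * x ∈ N) {z : (Σ _ : Fin 3, ι) → ℂ}
    (hz : ∀ k, cp z k ∈ N) (k : Fin 3) : 3 • cp (n3T s *ᵥ z) k ∈ N := by
  have h : ∀ j, s * cp z j ∈ N ∧ s * (s * cp z j) ∈ N := fun j =>
    ⟨hN _ (hz j), hN _ (hN _ (hz j))⟩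
  have g : ∀ {x}, x ∈ N → s * (s * x) - s * x ∈ N := fun hx => sub_mem (hN _ (hN _ hx)) (hN _ hx)
  fin_cases k
  · refine (congrArg (· ∈ N) ?_).mp (g (add_mem (add_mem (hz 0) (hz 1)) (hz 2)))
    funext i
    simp [n3_cp, Fin.sum_univ_three, n3S]
    ring
  · refine (congrArg (· ∈ N) ?_).mp (g (add_mem (add_mem (hz 0) (h 1).1) (h 2).2))
    funext i
    simp [n3_cp, Fin.sum_univ_three, n3S]
    ring
  · refine (congrArg (· ∈ N) ?_).mp (g (add_mem (add_mem (hz 0) (h 1).2) (h 2).1))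
    funext i
    simp [n3_cp, Fin.sum_univ_three, n3S]
    ring

omit hs in
lemma n3_st2 {N : Submodule ℤ (ι → ℂ)} (hN : ∀ x ∈ N, s * x ∈ N) : ∀ x ∈ N, s ^ 2 * x ∈ N :=
  fun x hx => by rw [sq, mul_assoc]; exact hN _ (hN _ hx)

omit hs in
lemma n3_QQ {N : Submodule ℤ (ι → ℂ)} (hN : ∀ x ∈ N, s * x ∈ N) : ∀ x ∈ QQ N, s * x ∈ QQ N :=
  fun _ ⟨k, hk, h⟩ => ⟨k, hk, by rw [← mul_smul_comm]; exact hN _ h⟩

lemma n3_du {N : Submodule ℤ (ι → ℂ)} (hN : ∀ x ∈ N, s * x ∈ N) : ∀ x ∈ du N, s * x ∈ du N :=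
  fun x hx m hm => by
    have e : Hm (s * x) m = Hm x (s ^ 2 * m) := Finset.sum_congr rfl fun i _ => by
      have h := n3_pt hs i
      simp only [Pi.mul_apply, Pi.pow_apply, map_mul, map_pow, n3_conj h]
      grind
    rw [e]
    exact hx _ (n3_st2 hN m hm)

omit hs

variable {R : ValuationSubring ℂ} {Λ : Submodule ℤ (ι → ℂ)} {f : (ι → ℂ) → ℂ}

/-- the pull-back under the Fourier transform is an integral combination of translates -/
def Lin3 (R : ValuationSubring ℂ) (Λ : Submodule ℤ (ι → ℂ)) (f : (ι → ℂ) → ℂ) (s : ι → ℂ) : Prop :=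
  ∃ (m : ℕ) (l : Fin m → (Σ _ : Fin 3, ι) → ℂ) (c : Fin m → ℂ),
    (∀ a k, 3 • cp (l a) k ∈ du Λ) ∧ (∀ a, R.valuation (c a) ≤ 1) ∧
    pb (n3T s) (tp fun _ : Fin 3 => f) = ∑ a, c a • U (l a) (tp fun _ : Fin 3 => f)

/-- the cubic relations with integral coefficients -/
theorem Lin3.had (hs : s ^ 2 + s + 1 = 0) {m : ℕ} {l : Fin m → (Σ _ : Fin 3, ι) → ℂ}
    {c : Fin m → ℂ}
    (a3 : pb (n3T s) (tp fun _ : Fin 3 => f) = ∑ a, c a • U (l a) (tp fun _ : Fin 3 => f))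
    (w z : (Σ _ : Fin 3, ι) → ℂ) : ∏ k, U (cp w k) f (cp (n3T s *ᵥ z) k) =
      ∑ a, c a * ph (l a) (n3T (s ^ 2) *ᵥ w) *
        ∏ k, U (cp (n3T (s ^ 2) *ᵥ w) k + cp (l a) k) f (cp z k) := by
  have h := congrFun (congrArg (U (n3T (s ^ 2) *ᵥ w)) a3) z
  rw [U_pb (n3_uni hs), n3_inv hs, pb_apply, U_tp, map_sum, Finset.sum_apply] at h
  refine h.trans (Finset.sum_congr rfl fun a _ => ?_)
  rw [map_smul, U_U', U_tp, Pi.smul_apply, Pi.smul_apply, smul_eq_mul, smul_eq_mul, ← mul_assoc]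
  rfl

/-- one step of the norm argument -/
theorem Lin3.step (hs : s ^ 2 + s + 1 = 0) (h : Lin3 R Λ f s) (hΛ : ∀ x ∈ Λ, s * x ∈ Λ)
    (hq : du Λ ≤ QQ Λ) (hph : ∀ x ∈ QQ Λ, ∀ y ∈ QQ Λ, R.valuation (ph x y) = 1)
    {ζ ξ : ι → ℂ} (hζ : ζ ∈ QQ Λ) (h1 : 3 • ξ ∈ du Λ) (h2 : R.valuation (U (ζ + ξ) f 0) = 1)
    {T : Type} (y : T → ι → ℂ) {N : Submodule R (T → ℂ)}
    (hN : ∀ (e : ℤ) (b : ι → ℂ), 9 • (b - e • ((s - s ^ 2) * ζ)) ∈ du Λ →
      (fun t => U b f (y t)) ∈ N) :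
    (fun t => U ζ f ((s ^ 2 - s) * y t)) ∈ N ^ 3 := by
  obtain ⟨m, l, c, a1, a2, a3⟩ := h
  have hd := n3_du hs hΛ
  have hξ : ξ ∈ QQ Λ := nrm_QQ three_ne_zero (hq h1)
  obtain ⟨w, hw⟩ : ∃ w : (Σ _ : Fin 3, ι) → ℂ, w = mkv ![ζ, ζ + ξ, ζ + ξ] := ⟨_, rfl⟩
  have h0 : U (ζ + ξ) f 0 ≠ 0 := fun h => by simp [h] at h2
  have g : s * (3 • ξ) - s * (s * (3 • ξ)) ∈ du Λ := sub_mem (hd _ h1) (hd _ (hd _ h1))
  have hb : ∀ j, ∃ e : ℤ, 9 • (cp (n3T (s ^ 2) *ᵥ w) j - e • ((s - s ^ 2) * ζ)) ∈ du Λ := fun j => by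
    fin_cases j
    · refine ⟨1, (congrArg (· ∈ du Λ) ?_).mp (nsmul_mem g 2)⟩
      funext i
      have e := n3_pt hs i
      simp [n3_cp, Fin.sum_univ_three, n3S, hw]
      grind
    all_goals
      refine ⟨0, (congrArg (· ∈ du Λ) ?_).mp (neg_mem g)⟩
      funext i
      have e := n3_pt hs i
      simp [n3_cp, Fin.sum_univ_three, n3S, hw]
      grind
  have e : (fun t => U ζ f ((s ^ 2 - s) * y t)) = ∑ a, (c a * ph (l a) (n3T (s ^ 2) *ᵥ w) /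
      U (ζ + ξ) f 0 ^ 2) • ∏ j, fun t => U (cp (n3T (s ^ 2) *ᵥ w) j + cp (l a) j) f (y t) := by
    funext t
    have h := Lin3.had hs a3 w (mkv fun _ => y t)
    have b0 : cp (n3T s *ᵥ mkv fun _ => y t) 0 = (s ^ 2 - s) * y t := by
      funext i
      simp [n3_cp, Fin.sum_univ_three, n3S]
      ring
    have b1 : ∀ j : Fin 2, cp (n3T s *ᵥ mkv fun _ => y t) j.succ = 0 := fun j => by
      funext i
      have e := n3_pt hs i
      fin_cases j <;> simp [n3_cp, Fin.sum_univ_three, n3S] <;> grind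
    have b2 : ∀ j : Fin 2, cp w j.succ = ζ + ξ := fun j => by
      rw [hw]
      fin_cases j <;> rfl
    rw [Fin.prod_univ_succ, b0] at h
    simp only [b1, b2, Finset.prod_const, Finset.card_univ, Fintype.card_fin, cp_mkv] at h
    rw [show cp w 0 = ζ by rw [hw]; rfl] at h
    simp only [Finset.sum_apply, Pi.smul_apply, Finset.prod_apply, smul_eq_mul,
      div_mul_eq_mul_div, ← Finset.sum_div]
    rw [← h, mul_div_cancel_right₀ _ (pow_ne_zero 2 h0)]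
  rw [e]
  refine sum_mem fun a _ => nrm_smul ?_ ?_
  · have q1 : ∀ j, cp (l a) j ∈ QQ Λ := fun j => nrm_QQ three_ne_zero (hq (a1 a j))
    have q2 : ∀ j, cp (n3T (s ^ 2) *ᵥ w) j ∈ QQ Λ := fun j =>
      nrm_QQ three_ne_zero (n3_three (n3_sq hs) (n3_st2 (n3_QQ hΛ)) (fun k => by
        rw [hw]
        fin_cases k
        exacts [hζ, add_mem hζ hξ, add_mem hζ hξ]) j)
    have q3 : ph (l a) (n3T (s ^ 2) *ᵥ w) = ∏ j, ph (cp (l a) j) (cp (n3T (s ^ 2) *ᵥ w) j) := by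
      simp only [ph, Hm_cp, ← Complex.exp_sum, im_sum, ofReal_sum, Finset.mul_sum]
    rw [map_div₀, map_mul, map_pow, h2, one_pow, div_one, q3, map_prod,
      Finset.prod_eq_one fun j _ => hph _ (q1 j) _ (q2 j), mul_one]
    exact a2 a
  · have b : ∀ j, (fun t => U (cp (n3T (s ^ 2) *ᵥ w) j + cp (l a) j) f (y t)) ∈ N := fun j => by
      obtain ⟨e, he⟩ := hb j
      refine hN e _ ?_
      rw [add_sub_right_comm, smul_add]
      refine add_mem he ?_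
      rw [show 9 = 3 * 3 from rfl, mul_smul]
      exact nsmul_mem (a1 a j) _
    rw [Fin.prod_univ_three, pow_succ, sq]
    exact Submodule.mul_mem_mul (Submodule.mul_mem_mul (b 0) (b 1)) (b 2)

variable [Om ι] {σ : Type} {η : σ → ι → ℂ}

lemma n3_om : (om : ι → ℂ) ^ 2 + om + 1 = 0 := funext Om.eq

lemma n3_cm (s : ι → ℂ) : Cm (n3T s) := fun x => n3_ext fun k i => by
  rw [cp_om, Pi.mul_apply, n3_cp, n3_cp, Finset.mul_sum]
  exact Finset.sum_congr rfl fun j _ => by rw [cp_om, Pi.mul_apply]; ring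

lemma Gf.dq (hf : Gf R.valuation Λ f) : du Λ ≤ QQ Λ := hf.un.1.du_le_QQ (Com.refl Λ)

lemma Gf.qq (hf : Gf R.valuation Λ f) {x : ι → ℂ} {n : ℕ} (hn : n ≠ 0) (h : n • x ∈ du Λ) :
    x ∈ QQ Λ := nrm_QQ hn (hf.dq h)

theorem Gf.lin3 (hf : Gf R.valuation Λ f) (hs : s ^ 2 + s + 1 = 0) (hΛ : ∀ x ∈ Λ, s * x ∈ Λ) :
    Lin3 R Λ f s := by
  have hM : Un R.valuation (pl fun _ : Fin 3 => Λ) := un_pl fun _ => hf.un
  obtain ⟨ξ, h1, h2⟩ := hf.one 0 (zero_mem _)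
  rw [zero_add] at h2
  have hA : ∀ {t : ι → ℂ}, t ^ 2 + t + 1 = 0 → (∀ x ∈ Λ, t * x ∈ Λ) →
      ∀ y ∈ QQ (pl fun _ : Fin 3 => Λ), n3T t *ᵥ y ∈ QQ (pl fun _ : Fin 3 => Λ) :=
    fun ht h y hy => mem_QQ_pl.2 fun k =>
      nrm_QQ three_ne_zero (n3_three ht (n3_QQ h) (mem_QQ_pl.1 hy) k)
  have hd := hM.1.du_le_QQ (Com.refl _)
  have e : ∀ y : (Σ _ : Fin 3, ι) → ℂ, R.valuation (U y (Gd.tp fun _ : Fin 3 => f) 0) =
      ∏ k, R.valuation (U (cp y k) f 0) := fun y => by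
    rw [U_tp, Gd.tp, map_prod]
    rfl
  have e1 : R.valuation (U (mkv fun _ : Fin 3 => ξ) (Gd.tp fun _ : Fin 3 => f) 0) = 1 := by
    simp only [e, cp_mkv, h2, Finset.prod_const_one]
  obtain ⟨m, l, c, a1, a2, a3⟩ := lin hM (n3_uni hs) (n3_cm s) (n := 3) (by simpa using hf.three)
    (fun x hx k => n3_three hs hΛ hx k)
    (fun x hx k => by rw [n3_ct hs]; exact n3_three (n3_sq hs) (n3_st2 hΛ) hx k)
    (tp_mem fun _ => hf.mem) (QQ _) le_rfl hd (fun x hx => by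
      obtain ⟨y, hy, rfl⟩ := mem_mp.1 hx
      rw [n3_ct hs]
      exact hA (n3_sq hs) (n3_st2 hΛ) y (hd hy)) (hA hs hΛ) (w := mkv fun _ => ξ)
    (mem_QQ_pl.2 fun _ => hf.qq three_ne_zero h1) (fun y hy => by
      rw [e1, e]
      exact Finset.prod_le_one' fun k _ => hf.le _ (mem_QQ_pl.1 hy k))
    (fun h => by simp [h] at e1)
  refine ⟨m, l, c, fun a k => ?_, a2, a3⟩
  obtain ⟨x, hx, y, hy, h⟩ := Submodule.mem_sup.1 (a1 a)
  obtain ⟨u, hu, rfl⟩ := mem_mp.1 hy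
  rw [du_pl] at hx hu
  rw [← h, cp_add, smul_add, n3_ct hs]
  exact add_mem (nsmul_mem (hx k) 3) (n3_three (n3_sq hs) (n3_st2 (n3_du hs hΛ)) hu k)

lemma un_nrmL (h : Un R.valuation Λ) {n : ℕ} (hn : R.valuation n = 1) :
    Un R.valuation (nrmL n Λ) := by
  have h0 : n ≠ 0 := fun e => by simp [e] at hn
  obtain ⟨N, hN, hN'⟩ := h.2
  refine ⟨h.1.mono (h.1.lat.of_com (nrmL_com h0)) nrmL_le ?_, n * (N * n), by
    simp only [Nat.cast_mul, map_mul, hn, hN, one_mul], fun x hx => ?_⟩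
  · rintro _ ⟨m, hm, rfl⟩
    exact mem_nrmL.2 ⟨_, h.1.st m hm, (mul_smul_comm n _ m).symm⟩
  · exact mem_nrmL.2 ⟨_, hN' _ (du_nrmL.1 hx), by simp only [mul_smul]⟩

/-- expansion of a theta function of the lattice `n Λ` -/
theorem Gf.expand (hf : Gf R.valuation Λ f) {n : ℕ} (hn : R.valuation n = 1) {h : (ι → ℂ) → ℂ}
    (hh : h ∈ Tc (nrmL n Λ)) : ∃ (m : ℕ) (l : Fin m → ι → ℂ) (c : Fin m → ℂ),
      (∀ a, n • l a ∈ du Λ) ∧ (∀ a, ∃ τ ∈ QQ Λ, R.valuation (c a) = R.valuation (U τ h 0)) ∧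
      h = ∑ a, c a • U (l a) f := by
  have h0 : n ≠ 0 := fun e => by simp [e] at hn
  have hU := un_nrmL hf.un hn
  obtain ⟨m, l, hl⟩ := exists_reps hU.1.lat.du hU.1.lat hU.1.le_du
  obtain ⟨ξ, h1, h2⟩ := hf.one 0 (zero_mem _)
  rw [zero_add] at h2
  obtain ⟨c, c1, c2⟩ := span hU hl (evU 0 ξ) (Tc_mono nrmL_le hf.mem) hh
    (fun e => by simp [evU_apply] at e; simp [e] at h2)
  refine ⟨m, l, c, fun a => du_nrmL.1 (hl.1 a), fun a => ?_, c2⟩
  have b1 := hf.qq three_ne_zero h1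
  have b2 := neg_mem (hf.qq h0 (du_nrmL.1 (hl.1 a)))
  refine ⟨_, add_mem b1 b2, ?_⟩
  have := c1 a
  rwa [evU_apply, evU_apply, h2, mul_one, val_UU hf.un.1 b1 b2] at this

lemma Gf.val_pow (hf : Gf R.valuation Λ f) (k : ℕ) : R.valuation ((3 ^ k : ℕ) : ℂ) = 1 := by
  rw [Nat.cast_pow, map_pow, Nat.cast_ofNat, hf.three, one_pow]

omit [Om ι] in
/-- representatives of a ninth of the dual lattice -/
structure Rep9 (Λ : Submodule ℤ (ι → ℂ)) (η : σ → ι → ℂ) : Prop where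
  mem : ∀ l, 9 • η l ∈ du Λ
  ex : ∀ a, 9 • a ∈ du Λ → ∃ l, a - η l ∈ Λ

/-- NORM -/
theorem Gf.norm (hf : Gf R.valuation Λ f) (hη : Rep9 Λ η) (k : ℕ) : ∀ ζ : ι → ℂ,
    3 ^ (k + 2) • ζ ∈ du Λ → (fun z => U ζ f (3 ^ k • z)) ∈ AR R f η ^ 9 ^ k := by
  have hs := n3_om (ι := ι)
  have st : ∀ x ∈ Λ, om * x ∈ Λ := hf.un.1.st
  have vph : ∀ x ∈ QQ Λ, ∀ y ∈ QQ Λ, R.valuation (ph x y) = 1 := fun _ hx _ hy =>
    val_ph _ hf.un.1 hx hy
  have l1 := hf.lin3 hs st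
  have l2 := hf.lin3 (n3_sq hs) (n3_st2 st)
  have hd := n3_du hs st
  generalize (om : ι → ℂ) = s at hs st l1 l2 hd
  induction k with
  | zero =>
    intro ζ hζ
    obtain ⟨l, hl⟩ := hη.ex ζ hζ
    have h := U_add_mem hf.mem (η l) hl
    rw [add_sub_cancel] at h
    simp only [pow_zero, one_smul, pow_one]
    rw [show (fun z => U ζ f z) = U ζ f from rfl, h]
    refine nrm_smul ?_ (Submodule.subset_span ⟨l, rfl⟩)
    rw [map_mul, vph _ (hf.qq (by norm_num) (hη.mem l)) _ (le_QQ hl), val_chi _ hf.un.1 (le_QQ hl),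
      one_mul]
  | succ k ih =>
    intro ζ hζ
    have hq : ζ ∈ QQ Λ := hf.qq (pow_ne_zero _ three_ne_zero) hζ
    obtain ⟨ξ, h1, h2⟩ := hf.one ζ hq
    have e : (fun z => U ζ f (3 ^ (k + 1) • z)) =
        fun z => U ζ f ((s ^ 2 - s) * (((s ^ 2) ^ 2 - s ^ 2) * 3 ^ k • z)) := by
      refine funext fun z => congrArg (U ζ f) (funext fun i => ?_)
      have e := n3_pt hs i
      simp only [Pi.smul_apply, Pi.mul_apply, Pi.sub_apply, Pi.pow_apply]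
      simp only [nsmul_eq_mul]
      push_cast
      rw [pow_succ]
      grind
    rw [e, show 9 ^ (k + 1) = 9 ^ k * 3 * 3 by ring, pow_mul, pow_mul]
    refine l1.step hs st hf.dq vph hq h1 h2 _ fun e b hb => ?_
    have hbq : b ∈ QQ Λ := by
      have g := n3_QQ st _ hq
      have := add_mem (hf.qq (by norm_num) hb) (zsmul_mem (sub_mem g (n3_QQ st _ g)) e)
      refine (congrArg (· ∈ QQ Λ) ?_).mp this
      funext i
      simp
      ring
    obtain ⟨ξ', h3, h4⟩ := hf.one b hbq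
    refine l2.step (n3_sq hs) (n3_st2 st) hf.dq vph hbq h3 h4 _ fun e' b' hb' => ih _ ?_
    have := add_mem (add_mem (nsmul_mem hb' (3 ^ k)) (zsmul_mem (nsmul_mem
      (sub_mem (hd _ (hd _ hb)) (hd _ hb)) (3 ^ k)) e')) (zsmul_mem hζ (e * e'))
    refine (congrArg (· ∈ du Λ) ?_).mp this
    funext i
    have e := n3_pt hs i
    simp only [Pi.smul_apply, Pi.mul_apply, Pi.sub_apply, Pi.add_apply, Pi.pow_apply]
    simp only [nsmul_eq_mul, zsmul_eq_mul]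
    push_cast
    simp only [pow_succ (3 : ℂ)]
    grind

/-- BALL -/
theorem Gf.ball (hf : Gf R.valuation Λ f) (hη : Rep9 Λ η) (k : ℕ) {h : (ι → ℂ) → ℂ}
    (hh : h ∈ Tc (nrmL (3 ^ (k + 2)) Λ)) (hv : ∀ a ∈ QQ Λ, R.valuation (U a h 0) ≤ 1) :
    (fun z => h (3 ^ k • z)) ∈ AR R f η ^ 9 ^ k := by
  obtain ⟨m, l, c, a1, a2, a3⟩ := hf.expand (hf.val_pow _) hh
  have e : (fun z => h (3 ^ k • z)) = ∑ a, c a • fun z => U (l a) f (3 ^ k • z) := by
    funext z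
    rw [a3]
    simp only [Finset.sum_apply, Pi.smul_apply]
  rw [e]
  refine sum_mem fun a _ => nrm_smul ?_ (hf.norm hη k _ (a1 a))
  obtain ⟨τ, h1, h2⟩ := a2 a
  exact h2 ▸ hv τ h1

lemma AR_le {d : ℕ} {g : (ι → ℂ) → ℂ} (hg : g ∈ AR R f η ^ d) :
    g ∈ (crd fun z l => U (η l) f z) ^ d := by
  induction hg using Submodule.pow_induction_on_left' with
  | algebraMap r =>
    rw [pow_zero]
    exact Submodule.algebraMap_mem (r : ℂ)
  | add x y i _ _ hx hy => exact add_mem hx hy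
  | mem_mul u hu i x _ hx =>
    rw [pow_succ']
    refine Submodule.mul_mem_mul ?_ hx
    induction hu using Submodule.span_induction with
    | mem u hu => exact Submodule.subset_span hu
    | zero => exact zero_mem _
    | add _ _ _ _ a b => exact add_mem a b
    | smul c _ _ a => exact Submodule.smul_mem _ (c : ℂ) a

/-- BALL over the field -/
theorem Gf.ballC (hf : Gf R.valuation Λ f) (hη : Rep9 Λ η) (k : ℕ) {h : (ι → ℂ) → ℂ}
    (hh : h ∈ Tc (nrmL (3 ^ (k + 2)) Λ)) :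
    (fun z => h (3 ^ k • z)) ∈ (crd fun z l => U (η l) f z) ^ 9 ^ k := by
  obtain ⟨m, l, c, a1, -, a3⟩ := hf.expand (hf.val_pow _) hh
  have e : (fun z => h (3 ^ k • z)) = ∑ a, c a • fun z => U (l a) f (3 ^ k • z) := by
    funext z
    rw [a3]
    simp only [Finset.sum_apply, Pi.smul_apply]
  rw [e]
  exact sum_mem fun a _ => Submodule.smul_mem _ _ (AR_le (hf.norm hη k _ (a1 a)))

lemma nrmE_nsmul (n : ℕ) (z w : ι → ℂ) : nrmE (n • z) (n • w) = nrmE z w ^ n ^ 2 := by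
  have h : ((nq (n • w) : ℝ) : ℂ) = n * (n * nq w) := by
    rw [← Hm_self, Hm_nsmul_left, Hm_nsmul_right, Hm_self]
  rw [nrmE, nrmE, ← Complex.exp_nat_mul, Hm_nsmul_left, Hm_nsmul_right, h]
  congr 1
  push_cast
  ring

lemma nrmE_three (k : ℕ) (z w : ι → ℂ) : nrmE (3 ^ k • z) (3 ^ k • w) = nrmE z w ^ 9 ^ k := by
  rw [nrmE_nsmul, ← pow_mul, mul_comm, pow_mul]
  rfl

/-- forms of degree `d` are theta functions of level `d` -/
theorem Gf.level (hf : Gf R.valuation Λ f) (hη : Rep9 Λ η) {d : ℕ} {g : (ι → ℂ) → ℂ}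
    (hg : g ∈ AR R f η ^ d) : Differentiable ℂ g ∧
      ∀ m ∈ Λ, ∀ z, nrmE z (9 • m) ^ d * g (z + 9 • m) = chi (9 • m) ^ d * g z := by
  induction hg using Submodule.pow_induction_on_left' with
  | algebraMap r => exact ⟨differentiable_const _, fun _ _ _ => by simp⟩
  | add x y i _ _ hx hy => exact ⟨hx.1.add hy.1, fun m hm z => by
      rw [Pi.add_apply, mul_add, hx.2 m hm, hy.2 m hm, Pi.add_apply, mul_add]⟩
  | mem_mul u hu i x _ hx =>
    have h : u ∈ Tc (nrmL 9 Λ) := by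
      induction hu using Submodule.span_induction with
      | mem u hu =>
        obtain ⟨l, rfl⟩ := hu
        exact U_mem_Tc (du_nrmL.2 (hη.mem l)) (Tc_mono nrmL_le hf.mem)
      | zero => exact zero_mem _
      | add _ _ _ _ a b => exact add_mem a b
      | smul c _ _ a => exact Submodule.smul_mem _ (c : ℂ) a
    refine ⟨h.1.mul hx.1, fun m hm z => ?_⟩
    have e : nrmE z (9 • m) * u (z + 9 • m) = chi (9 • m) * u z :=
      congrFun (h.2 _ (mem_nrmL.2 ⟨m, hm, rfl⟩)) z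
    rw [Pi.mul_apply, Pi.mul_apply, pow_succ', mul_mul_mul_comm, e, hx.2 m hm z, pow_succ']
    ring

lemma n3_inv1 (k : ℕ) (z : ι → ℂ) : ((3 : ℂ) ^ k)⁻¹ • (3 ^ k • z) = z := by
  rw [← Nat.cast_smul_eq_nsmul ℂ, smul_smul]
  simp

lemma n3_inv2 (k : ℕ) (z : ι → ℂ) : 3 ^ k • (((3 : ℂ) ^ k)⁻¹ • z) = z := by
  rw [smul_comm, n3_inv1]

/-- rescaling a theta function of level `9 ^ k` -/
theorem resc (k : ℕ) {g : (ι → ℂ) → ℂ} (g1 : Differentiable ℂ g)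
    (g2 : ∀ m ∈ Λ, ∀ z, nrmE z (9 • m) ^ 9 ^ k * g (z + 9 • m) = chi (9 • m) ^ 9 ^ k * g z) :
    (fun z => g (((3 : ℂ) ^ k)⁻¹ • z)) ∈ Tc (nrmL (3 ^ (k + 2)) Λ) := by
  refine ⟨g1.comp (f := fun z : ι → ℂ => ((3 : ℂ) ^ k)⁻¹ • z) (by fun_prop), ?_⟩
  rintro _ ⟨m, hm, rfl⟩
  funext z
  have e : ((3 ^ (k + 2) : ℕ) • LinearMap.id (R := ℤ)) m = 3 ^ k • 9 • m := by
    rw [smul_smul, pow_add]
    rfl
  have e2 := g2 m hm (((3 : ℂ) ^ k)⁻¹ • z)
  rw [← nrmE_three, n3_inv2] at e2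
  rw [e, Pi.smul_apply, U_apply, smul_add, n3_inv1, chi_nsmul, ← pow_mul 3, mul_comm k, pow_mul 3]
  exact e2

/-- theta functions of level `9 ^ k` are forms of degree `9 ^ k` -/
theorem Gf.levC (hf : Gf R.valuation Λ f) (hη : Rep9 Λ η) (k : ℕ) {g : (ι → ℂ) → ℂ}
    (g1 : Differentiable ℂ g)
    (g2 : ∀ m ∈ Λ, ∀ z, nrmE z (9 • m) ^ 9 ^ k * g (z + 9 • m) = chi (9 • m) ^ 9 ^ k * g z) :
    g ∈ (crd fun z l => U (η l) f z) ^ 9 ^ k := by
  simpa only [n3_inv1] using hf.ballC hη k (resc k g1 g2)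

variable (hf : Gf R.valuation Λ f) (hη : Rep9 Λ η) {x : (ι → ℂ) → σ → R} {n : (ι → ℂ) → ℂ}
  (hx : ∀ t l, U (η l) f t = n t * x t l) (hu : ∀ t, ∃ l, IsUnit (x t l))
include hf hη hx hu

/-- the normalising factor at rational points -/
theorem Gf.val_n {w : ι → ℂ} (hs : w ∈ QQ Λ) : R.valuation (nrmE 0 w * n w) = 1 := by
  have hq : ∀ l, η l ∈ QQ Λ := fun l => hf.qq (by norm_num) (hη.mem l)
  have e : ∀ l, R.valuation (nrmE 0 w * n w) * R.valuation (x w l : ℂ) =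
      R.valuation (U (w + η l) f 0) := fun l => by
    rw [← val_UU hf.un.1 hs (hq l), ← map_mul, mul_assoc, ← hx, U_apply w, zero_add]
    rfl
  refine le_antisymm ?_ ?_
  · obtain ⟨l, hl⟩ := hu w
    have := e l
    rw [(R.valuation_eq_one_iff _).1 hl, mul_one] at this
    exact this ▸ hf.le _ (add_mem hs (hq l))
  · obtain ⟨ξ, h1, h2⟩ := hf.one w hs
    obtain ⟨l, hl⟩ := hη.ex ξ (by
      rw [show 9 = 3 * 3 from rfl, mul_smul]
      exact nsmul_mem h1 3)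
    have h3 := val_per (v := R.valuation) hf.un.1 hf.mem (add_mem hs (hq l)) hl 0
    rw [add_assoc, add_sub_cancel, h2, ← e] at h3
    rw [h3]
    exact mul_le_of_le_one_right' (R.valuation_le_one _)

/-- RED -/
theorem Gf.sat (hn : ∀ t, n t ≠ 0) (k : ℕ) : ∀ w ∈ crd x ^ 9 ^ k, (∀ t, ¬ IsUnit (w t)) →
    w ∈ IsLocalRing.maximalIdeal R • crd x ^ 9 ^ k := by
  intro w hw h0
  obtain ⟨g1, g2⟩ := hf.level hη (of_crd (φ := fun l => U (η l) f) hx hw)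
  have inv := n3_inv1 (ι := ι) k
  have inv' := n3_inv2 (ι := ι) k
  obtain ⟨h, hh⟩ : ∃ h : (ι → ℂ) → ℂ, h = fun z =>
    n (((3 : ℂ) ^ k)⁻¹ • z) ^ 9 ^ k * w (((3 : ℂ) ^ k)⁻¹ • z) := ⟨_, rfl⟩
  have h1 : ∀ z, h (3 ^ k • z) = n z ^ 9 ^ k * w z := fun z => by rw [hh]; simp only [inv]
  have h2 : ∀ z s, U (3 ^ k • s) h (3 ^ k • z) =
      nrmE z s ^ 9 ^ k * (n (z + s) ^ 9 ^ k * w (z + s)) := fun z s => by
    rw [U_apply, ← smul_add, h1, ← nrmE_three]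
    rfl
  obtain ⟨m, l, c, a1, a2, a3⟩ := hf.expand (hf.val_pow (k + 2)) (h := h) (hh ▸ resc k g1 g2)
  have hc : ∀ a, R.valuation (c a) < 1 := fun a => by
    obtain ⟨τ, t1, t2⟩ := a2 a
    have e := h2 0 (((3 : ℂ) ^ k)⁻¹ • τ)
    rw [inv', smul_zero, zero_add, ← mul_assoc, ← mul_pow] at e
    rw [t2, e, map_mul, map_pow, hf.val_n hη hx hu (nrm_QQ (pow_ne_zero k three_ne_zero)
      (by rwa [inv'])), one_pow, one_mul]
    exact (R.valuation_lt_one_iff _).1 (h0 _)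
  choose u u1 u2 using fun a => to_crd (φ := fun l => U (η l) f) hx (hf.norm hη k _ (a1 a))
  have e : w = ∑ a, (⟨c a, (R.valuation_le_one_iff _).1 (hc a).le⟩ : R) • u a := by
    funext t
    refine Subtype.ext (mul_left_cancel₀ (pow_ne_zero (9 ^ k) (hn t)) ?_)
    rw [← h1, a3]
    simp only [Finset.sum_apply, Pi.smul_apply, smul_eq_mul, AddSubmonoidClass.coe_finsetSum,
      MulMemClass.coe_mul, Finset.mul_sum, u2]
    exact Finset.sum_congr rfl fun a _ => mul_left_comm _ _ _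
  rw [e]
  exact sum_mem fun a _ => Submodule.smul_mem_smul ((R.valuation_lt_one_iff _).2 (hc a)) (u1 a)

/-- the ranks on both fibres agree in the degrees `9 ^ k` -/
theorem Gf.flat_pow (hn : ∀ t, n t ≠ 0) {Ω B : Type} [Field Ω] {r : R →+* Ω}
    (hr : Function.Surjective r) [Finite σ] {p : B → σ → Ω} {red : (ι → ℂ) → B}
    (h : Function.Surjective red) (hp : ∀ t, Par (p (red t)) fun l => r (x t l)) (k : ℕ) :
    Module.finrank Ω (crd p ^ 9 ^ k :) =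
      Module.finrank ℂ ((crd fun v l => (x v l : ℂ)) ^ 9 ^ k :) :=
  flat_at hr x h hp (hf.sat hη hx hu hn k)

end

end Pool.Agent.Tav.G3
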