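import Pool.Agent.P.MP_2ce3e7_ag.Tav.HIdeal

/-! The multigraded Hilbert polynomial and its top coefficients. -/

set_option autoImplicit false

noncomputable section

namespace Pool.Agent.Tav

open MvPolynomial Module

section Num
variable {ι κ : Type}

/-- the polynomial that agrees with `h` at all large vectors -/
def hP (h : (ι → ℕ) → ℕ) : MvPolynomial ι ℚ := Classical.epsilon (EvP fun d => (h d : ℚ))

theorem hP_spec {h : (ι → ℕ) → ℕ} (ex : ∃ P, EvP (fun d => (h d : ℚ)) P) :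
    EvP (fun d => (h d : ℚ)) (hP h) := Classical.epsilon_spec ex

theorem EvP.hP_eq {h : (ι → ℕ) → ℕ} {P : MvPolynomial ι ℚ} (e : EvP (fun d => (h d : ℚ)) P) :
    hP h = P := (hP_spec ⟨P, e⟩).unique e

theorem hP_congr {h h' : (ι → ℕ) → ℕ} (e : Lg fun d => h d = h' d) : hP h = hP h' := by
  unfold hP
  congr 1
  funext P
  exact propext ⟨fun hp => hp.congr (e.mono fun d hd => by rw [hd]),
    fun hp => hp.congr (e.mono fun d hd => by rw [hd])⟩

theorem evN_rename (f : ι → κ) (d : κ → ℕ) (P : MvPolynomial ι ℚ) :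
    evN d (rename f P) = evN (d ∘ f) P := eval_rename _ _ _

theorem Lg.comp {p : (ι → ℕ) → Prop} (h : Lg p) (f : ι → κ) : Lg fun d : κ → ℕ => p (d ∘ f) :=
  h.imp fun _ hN _ hd => hN _ fun i => hd (f i)

theorem EvP.rename {h : (ι → ℕ) → ℚ} {P : MvPolynomial ι ℚ} (e : EvP h P) (f : ι → κ) :
    EvP (fun d : κ → ℕ => h (d ∘ f)) (rename f P) :=
  (Lg.comp e f).mono fun d hd => by rw [evN_rename]; exact hd

theorem Dg.rename {P : MvPolynomial ι ℚ} {n : ℤ} (h : Dg P n) (f : ι → κ) :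
    Dg (rename f P) n := fun s hs => by
  classical
  by_contra hc
  obtain ⟨u, rfl, hu⟩ := coeff_rename_ne_zero f P s hc
  exact hu (h u (by rwa [Finsupp.degree_mapDomain] at hs))

/-- normalised coefficient -/
def nc (s : ι →₀ ℕ) : MvPolynomial ι ℚ →ₗ[ℚ] ℚ :=
  ((s.prod fun _ k => k.factorial : ℕ) : ℚ) • lcoeff ℚ s

theorem nc_apply (s : ι →₀ ℕ) (P : MvPolynomial ι ℚ) :
    nc s P = ((s.prod fun _ k => k.factorial : ℕ) : ℚ) * coeff s P := rfl

theorem nc_fac_pos (s : ι →₀ ℕ) : (0 : ℚ) < ((s.prod fun _ k => k.factorial : ℕ) : ℚ) :=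
  Nat.cast_pos.2 (Finset.prod_pos fun _ _ => Nat.factorial_pos _)

theorem nc_eq_zero {s : ι →₀ ℕ} {P : MvPolynomial ι ℚ} : nc s P = 0 ↔ coeff s P = 0 := by
  rw [nc_apply, mul_eq_zero, or_iff_right (nc_fac_pos s).ne']

theorem nc_zero (P : MvPolynomial ι ℚ) : nc 0 P = coeff 0 P := by simp [nc_apply]

theorem fac_succ (s : ι →₀ ℕ) (i : ι) : ((s + Finsupp.single i 1).prod fun _ k => k.factorial) =
    (s.prod fun _ k => k.factorial) * (s i + 1) := by
  classical
  have h : ∀ t : ι →₀ ℕ, (t.prod fun _ k => k.factorial) =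
      (t i).factorial * ((t.erase i).prod fun _ k => k.factorial) := fun t =>
    (Finsupp.mul_prod_erase' t i (fun _ k => k.factorial) fun _ => rfl).symm
  rw [h (s + Finsupp.single i 1), h s, Finsupp.erase_add, Finsupp.erase_single, add_zero,
    Finsupp.add_apply, Finsupp.single_eq_same, Nat.factorial_succ]
  ring

theorem nc_succ (s : ι →₀ ℕ) (i : ι) (P : MvPolynomial ι ℚ) :
    nc (s + Finsupp.single i 1) P = nc s (pderiv i P) := by
  rw [nc_apply, nc_apply, fac_succ, coeff_pderiv]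
  push_cast
  ring

theorem Dg.nc_sh [Fintype ι] {P : MvPolynomial ι ℚ} {n : ℤ} (h : Dg P n) (e : ι → ℚ)
    {s : ι →₀ ℕ} (hs : n ≤ (s.degree : ℤ)) : nc s (Tav.sh e P) = nc s P := by
  rw [nc_apply, nc_apply, h.coeff_sh e hs]

theorem Dg.nc_sh_sub [Fintype ι] {P : MvPolynomial ι ℚ} {n : ℤ} (h : Dg P n) (e : ι → ℚ)
    {s : ι →₀ ℕ} (hs : n ≤ (s.degree : ℤ) + 1) :
    nc s (Tav.sh e P - P) = ∑ i, e i * nc (s + Finsupp.single i 1) P := by
  rw [nc_apply, h.coeff_sh_sub e hs, Finset.mul_sum]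
  refine Finset.sum_congr rfl fun i _ => ?_
  rw [nc_apply, fac_succ]
  push_cast
  ring

theorem deg_induction {p : (ι →₀ ℕ) → Prop} (h0 : p 0)
    (h1 : ∀ s i, p s → p (s + Finsupp.single i 1)) (s : ι →₀ ℕ) : p s := by
  induction s using Finsupp.induction with
  | zero => exact h0
  | single_add i k s _ _ ih =>
    clear * - ih h1
    induction k with
    | zero => simpa using ih
    | succ k ik =>
      rw [Finsupp.single_add, add_right_comm]
      exact h1 _ _ ik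

variable [Fintype κ] [DecidableEq ι]

/-- merging the slots along `g` -/
def mrg (g : κ → ι) : MvPolynomial ι ℚ →ₐ[ℚ] MvPolynomial κ ℚ :=
  aeval fun i => ∑ k with g k = i, X k

/-- the sums of the entries of `d` over the fibres of `g` -/
def fib (g : κ → ι) (d : κ → ℕ) (i : ι) : ℕ := ∑ k with g k = i, d k

theorem evN_mrg (g : κ → ι) (d : κ → ℕ) (P : MvPolynomial ι ℚ) :
    evN d (mrg g P) = evN (fib g d) P := by
  rw [evN, mrg, eval_aev, evN]
  congr 2
  funext i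
  simp [fib]

theorem Lg.fib {p : (ι → ℕ) → Prop} (h : Lg p) {g : κ → ι} (hg : Function.Surjective g) :
    Lg fun d : κ → ℕ => p (fib g d) :=
  h.imp fun _ hN d hd => hN _ fun i => by
    obtain ⟨k, rfl⟩ := hg i
    exact (hd k).trans (Finset.single_le_sum (f := d) (fun _ _ => Nat.zero_le _) (by simp))

theorem EvP.mrg {h : (ι → ℕ) → ℚ} {P : MvPolynomial ι ℚ} (e : EvP h P) {g : κ → ι}
    (hg : Function.Surjective g) : EvP (fun d : κ → ℕ => h (Tav.fib g d)) (Tav.mrg g P) :=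
  (Lg.fib e hg).mono fun d hd => by rw [evN_mrg]; exact hd

theorem pderiv_mrg (g : κ → ι) (k : κ) (P : MvPolynomial ι ℚ) :
    pderiv k (mrg g P) = mrg g (pderiv (g k) P) := by
  classical
  induction P using MvPolynomial.induction_on with
  | C a => simp [mrg]
  | add p q hp hq => simp only [map_add, hp, hq]
  | mul_X p i hp =>
    have e : pderiv k (mrg g (X i)) = mrg g (pderiv (g k) (X i)) := by
      by_cases h : g k = i
      · simp [mrg, pderiv_X, Pi.single_apply, h]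
      · simp [mrg, pderiv_X, Pi.single_apply, h, Ne.symm h]
    rw [map_mul, pderiv_mul, pderiv_mul, map_add, map_mul, map_mul, hp, e]

theorem nc_mrg (g : κ → ι) (s : κ →₀ ℕ) (P : MvPolynomial ι ℚ) :
    nc s (mrg g P) = nc (s.mapDomain g) P := by
  induction s using deg_induction generalizing P with
  | h0 =>
    rw [Finsupp.mapDomain_zero, nc_zero, nc_zero]
    change constantCoeff (mrg g P) = constantCoeff P
    induction P using MvPolynomial.induction_on with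
    | C a => simp [mrg]
    | add p q hp hq => simp only [map_add, hp, hq]
    | mul_X p i _ => simp [mrg]
  | h1 s k ih =>
    rw [nc_succ, pderiv_mrg, ih, Finsupp.mapDomain_add, Finsupp.mapDomain_single, nc_succ]

theorem Dg.mrg {P : MvPolynomial ι ℚ} {n : ℤ} (h : Dg P n) (g : κ → ι) : Dg (Tav.mrg g P) n :=
  fun s hs => nc_eq_zero.1 (by
    rw [nc_mrg, nc_eq_zero]
    exact h _ (by rwa [Finsupp.degree_mapDomain]))

end Num

variable {Ω σ ι : Type} [Field Ω] [DecidableEq ι] [Fintype ι] [Finite σ] {β : σ → ι}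
  {J J' : Ideal (MvPolynomial σ Ω)}

/-- the Hilbert polynomial of the quotient by `J` -/
def pI (β : σ → ι) (J : Ideal (MvPolynomial σ Ω)) : MvPolynomial ι ℚ := hP (hI β J)

theorem evP_pI (hJ : GrJ β J) : EvP (fun d => (hI β J d : ℚ)) (pI β J) :=
  hP_spec (exists_evP_hI hJ)

omit [Fintype ι] in
theorem pI_congr (h : Lg fun d => ∀ f ∈ Sd Ω β d, f ∈ J ↔ f ∈ J') : pI β J = pI β J' :=
  hP_congr (h.mono fun _ hd => hI_congr hd)

omit [Fintype ι] [Finite σ] in
theorem pI_eq_zero (h : Lg fun d => ∀ f ∈ Sd Ω β d, f ∈ J) : pI β J = 0 :=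
  EvP.hP_eq (h.mono fun d hd => by simp [hI_eq_zero hd])

omit [Fintype ι] [Finite σ] in
theorem pI_top : pI β (⊤ : Ideal (MvPolynomial σ Ω)) = 0 :=
  pI_eq_zero (Lg.of_forall fun _ _ _ => trivial)

theorem lg_of_pI_eq_zero (hJ : GrJ β J) (h : pI β J = 0) : Lg fun d => ∀ f ∈ Sd Ω β d, f ∈ J :=
  Lg.mono (evP_pI hJ) fun d hd f hf => by
    rw [h, map_zero] at hd
    have h0 : hI β J d = 0 := Nat.cast_eq_zero.1 hd.symm
    exact mem_of_hI_eq (J' := ⊤) le_top (by omega) hf trivial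

/-- two nested ideals with the same polynomial agree in large degrees -/
theorem lg_of_pI_eq (hJ : GrJ β J) (hJ' : GrJ β J') (hl : J ≤ J') (h : pI β J = pI β J') :
    Lg fun d => ∀ f ∈ Sd Ω β d, f ∈ J ↔ f ∈ J' :=
  (Lg.and (evP_pI hJ) (evP_pI hJ')).mono fun d hd f hf => by
    have h0 : hI β J d = hI β J' d := Nat.cast_injective (R := ℚ) (hd.1.symm.trans (h ▸ hd.2))
    exact ⟨fun h1 => hl h1, mem_of_hI_eq hl h0.le hf⟩

theorem Dg.pI_lg {n : ℤ} (h : Dg (pI β J) n) (hJ : GrJ β J) (hJ' : GrJ β J')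
    (hl : Lg fun d => ∀ f ∈ Sd Ω β d, f ∈ J → f ∈ J') : Dg (pI β J') n :=
  (evP_pI hJ').dg_of_le (evP_pI hJ) h (hl.mono fun _ hd =>
    ⟨Nat.cast_nonneg _, Nat.cast_le.2 (hI_anti hd)⟩)

theorem Dg.pI_mono {n : ℤ} (h : Dg (pI β J) n) (hJ : GrJ β J) (hJ' : GrJ β J') (hl : J ≤ J') :
    Dg (pI β J') n := h.pI_lg hJ hJ' (Lg.of_forall fun _ _ _ hf => hl hf)

omit [DecidableEq ι] [Fintype ι] [Finite σ] in
theorem le_colon1 (J : Ideal (MvPolynomial σ Ω)) (f : MvPolynomial σ Ω) : J ≤ J.colon {f} :=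
  fun _ hg => mem_colon1.2 (J.mul_mem_right _ hg)

omit [DecidableEq ι] [Fintype ι] [Finite σ] in
theorem colon_prime (hJ : J.IsPrime) {f : MvPolynomial σ Ω} (hf : f ∉ J) : J.colon {f} = J :=
  le_antisymm (fun _ hg => (hJ.mem_or_mem (mem_colon1.1 hg)).resolve_right hf) (le_colon1 J f)

variable {f : MvPolynomial σ Ω} {e : ι → ℕ}

theorem pI_exact (hJ : GrJ β J) (hf : f ∈ Sd Ω β e) : pI β J =
    sh (fun i => -(e i : ℚ)) (pI β (J.colon {f})) + pI β (J ⊔ Ideal.span {f}) := by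
  have h1 := EvP.of_shift (h := fun d => (hI β J d : ℚ)) e
    (((evP_pI (hJ.colon hf)).add ((evP_pI (hJ.sup_span hf)).shift e)).congr
      (Lg.of_forall fun d => by rw [hI_exact hJ hf d, Nat.cast_add]))
  have e1 : ((fun i => -(e i : ℚ)) + fun i => (e i : ℚ)) = 0 := funext fun i => by simp
  rw [map_add, sh_sh, e1, sh_zero] at h1
  exact (evP_pI hJ).unique h1

/-- the top coefficients are additive -/
theorem nc_exact (hJ : GrJ β J) (hf : f ∈ Sd Ω β e) {n : ℤ} (h : Dg (pI β J) n) {s : ι →₀ ℕ}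
    (hs : n ≤ (s.degree : ℤ)) :
    nc s (pI β J) = nc s (pI β (J.colon {f})) + nc s (pI β (J ⊔ Ideal.span {f})) := by
  rw [pI_exact hJ hf, map_add, (h.pI_mono hJ (hJ.colon hf) (le_colon1 J f)).nc_sh _ hs]

theorem pI_cut (hJ : GrJ β J) (hf : f ∈ Sd Ω β e)
    (hc : Lg fun d => ∀ g ∈ Sd Ω β d, g * f ∈ J → g ∈ J) :
    pI β (J ⊔ Ideal.span {f}) = -(sh (fun i => -(e i : ℚ)) (pI β J) - pI β J) := by
  have h1 := pI_exact hJ hf
  rw [pI_congr (J := J.colon {f}) (J' := J) (hc.mono fun d hd g hg =>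
    ⟨fun h => hd g hg (mem_colon1.1 h), fun h => le_colon1 J f h⟩)] at h1
  rw [neg_sub, eq_sub_iff_add_eq, add_comm]
  exact h1.symm

/-- cutting by a form that is not a zero divisor lowers the dimension -/
theorem Dg.cut {n : ℤ} (h : Dg (pI β J) n) (hJ : GrJ β J) (hf : f ∈ Sd Ω β e)
    (hc : Lg fun d => ∀ g ∈ Sd Ω β d, g * f ∈ J → g ∈ J) :
    Dg (pI β (J ⊔ Ideal.span {f})) (n - 1) := by
  rw [pI_cut hJ hf hc]
  exact (h.sh_sub _).neg

/-- the top coefficients of a section -/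
theorem nc_cut (hJ : GrJ β J) (hf : f ∈ Sd Ω β e)
    (hc : Lg fun d => ∀ g ∈ Sd Ω β d, g * f ∈ J → g ∈ J) {n : ℤ} (h : Dg (pI β J) n)
    {s : ι →₀ ℕ} (hs : n ≤ (s.degree : ℤ) + 1) : nc s (pI β (J ⊔ Ideal.span {f})) =
      ∑ i, (e i : ℚ) * nc (s + Finsupp.single i 1) (pI β J) := by
  rw [pI_cut hJ hf hc, map_neg, h.nc_sh_sub _ hs, ← Finset.sum_neg_distrib]
  exact Finset.sum_congr rfl fun i _ => by ring

omit [Fintype ι] [Finite σ] in
theorem lg_prime (hJ : J.IsPrime) (hf : f ∉ J) :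
    Lg fun d => ∀ g ∈ Sd Ω β d, g * f ∈ J → g ∈ J :=
  Lg.of_forall fun _ _ _ h => (hJ.mem_or_mem h).resolve_right hf

section Alg
variable {A : Type} [CommRing A] [Algebra Ω A]

/-- the Hilbert polynomial of a family of subspaces -/
def pf (L : ι → Submodule Ω A) : MvPolynomial ι ℚ := hP (hf L)

omit [DecidableEq ι] in
theorem evP_pf (L : ι → Submodule Ω A) [∀ i, FiniteDimensional Ω (L i)] :
    EvP (fun d => (Tav.hf L d : ℚ)) (pf L) := hP_spec (exists_evP_hf L)

theorem pI_kerG (x : σ → A) : pI β (kerG Ω β x) = pf (blk Ω β x) :=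
  hP_congr (Lg.of_forall fun d => hI_kerG x d)

theorem pI_eq_pf (x : σ → A) (h : Lg fun d => ∀ f ∈ Sd Ω β d, f ∈ J ↔ aeval x f = 0) :
    pI β J = pf (blk Ω β x) := by
  rw [← pI_kerG]
  exact pI_congr (h.mono fun d hd f hf => (hd f hf).trans (mem_kerG hf).symm)

theorem hf_comp {κ : Type} [Fintype κ] (L : ι → Submodule Ω A) (g : κ → ι) (d : κ → ℕ) :
    Tav.hf (L ∘ g) d = Tav.hf L (fib g d) := by
  have : ∏ k, (L ∘ g) k ^ d k = ∏ i, L i ^ fib g d i := by
    rw [← Finset.prod_fiberwise Finset.univ g]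
    refine Finset.prod_congr rfl fun i _ => ?_
    rw [fib, ← Finset.prod_pow_eq_pow_sum]
    exact Finset.prod_congr rfl fun k hk => by
      rw [Function.comp_apply, (Finset.mem_filter.1 hk).2]
  rw [Tav.hf, Tav.hf, this]

/-- repeated members of a family -/
theorem pf_comp {κ : Type} [Fintype κ] (L : ι → Submodule Ω A) [∀ i, FiniteDimensional Ω (L i)]
    {g : κ → ι} (hg : Function.Surjective g) : pf (L ∘ g) = mrg g (pf L) :=
  EvP.hP_eq (((evP_pf L).mrg hg).congr (Lg.of_forall fun d => by rw [hf_comp]))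

theorem nc_pf_comp {κ : Type} [Fintype κ] (L : ι → Submodule Ω A)
    [∀ i, FiniteDimensional Ω (L i)] {g : κ → ι} (hg : Function.Surjective g) (s : κ →₀ ℕ) :
    nc s (pf (L ∘ g)) = nc (s.mapDomain g) (pf L) := by rw [pf_comp L hg, nc_mrg]

end Alg

end Pool.Agent.Tav
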