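import Pool.Agent.P.MP_2ce3e7_ag.Tav.Stmt

/-! Functions in the powers of a coordinate span are forms; charts; the action on the special
fibre; a power of `π` lifts a power of Frobenius. -/

set_option autoImplicit false

noncomputable section

namespace Pool.Agent.Tav.Pp

open MvPolynomial Set
open Function hiding eval

section Ring
variable {K : Type} [CommRing K] {T U σ τ : Type}

theorem par_refl (x : σ → K) : Par x x := ⟨1, isUnit_one, (one_smul _ _).symm⟩

theorem par_symm {x y : σ → K} (h : Par x y) : Par y x := by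
  obtain ⟨c, ⟨u, rfl⟩, rfl⟩ := h
  exact ⟨↑u⁻¹, Units.isUnit _, by rw [smul_smul, Units.inv_mul, one_smul]⟩

theorem par_trans {x y z : σ → K} (h : Par x y) (h' : Par y z) : Par x z := by
  obtain ⟨c, hc, rfl⟩ := h
  obtain ⟨d, hd, rfl⟩ := h'
  exact ⟨c * d, hc.mul hd, smul_smul _ _ _⟩

theorem par_pow {x y : σ → K} (h : Par x y) (n : ℕ) : Par (x ^ n) (y ^ n) := by
  obtain ⟨c, hc, rfl⟩ := h
  exact ⟨c ^ n, hc.pow n, smul_pow _ _ _⟩

theorem par_map {K' : Type} [CommRing K'] (f : K →+* K') {x y : σ → K} (h : Par x y) :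
    Par (fun l => f (x l)) fun l => f (y l) := by
  obtain ⟨c, hc, rfl⟩ := h
  exact ⟨f c, hc.map f, funext fun l => by simp⟩

/-- a polynomial as a function on `T` -/
def evA (p : T → σ → K) : MvPolynomial σ K →ₐ[K] T → K := aeval fun l t => p t l

theorem evA_apply (p : T → σ → K) (H : MvPolynomial σ K) (t : T) : evA p H t = eval (p t) H := by
  induction H using MvPolynomial.induction_on with
  | C a => simp [evA]
  | add f g hf hg => rw [map_add, map_add, Pi.add_apply, hf, hg]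
  | mul_X f l hf => rw [map_mul, map_mul, Pi.mul_apply, hf, eval_X, evA, aeval_X]

theorem crd_pow_eq (p : T → σ → K) (e : ℕ) :
    crd p ^ e = (homogeneousSubmodule σ K e).map (evA p).toLinearMap := by
  have h2 : crd p = (homogeneousSubmodule σ K 1).map (evA p).toLinearMap := by
    rw [homogeneousSubmodule_one_eq_span_X, Submodule.map_span, ← range_comp, crd]
    congr 2
    funext l
    simp [evA]
  rw [h2, ← Submodule.map_pow, homogeneousSubmodule_one_pow]

theorem mem_crd_pow (p : T → σ → K) (e : ℕ) (f : T → K) :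
    f ∈ crd p ^ e ↔ ∃ H : MvPolynomial σ K, H.IsHomogeneous e ∧ ∀ t, f t = eval (p t) H := by
  rw [crd_pow_eq, Submodule.mem_map]
  constructor
  · rintro ⟨H, hH, rfl⟩
    exact ⟨H, hH, evA_apply p H⟩
  · rintro ⟨H, hH, e⟩
    refine ⟨H, hH, funext fun t => ?_⟩
    rw [e, ← evA_apply]
    rfl

theorem eval_smul_hom {H : MvPolynomial σ K} {e : ℕ} (hH : H.IsHomogeneous e) (c : K)
    (z : σ → K) : eval (c • z) H = c ^ e * eval z H := by
  rw [eval_eq, eval_eq, Finset.mul_sum]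
  refine Finset.sum_congr rfl fun s hs => ?_
  rw [hH.degree_eq_sum_deg_support hs]
  simp only [Pi.smul_apply, smul_eq_mul, mul_pow, Finset.prod_mul_distrib,
    Finset.prod_pow_eq_pow_sum]
  ring

theorem par_eval {G : τ → MvPolynomial σ K} {e : ℕ} (hG : ∀ l, (G l).IsHomogeneous e)
    {x y : σ → K} (h : Par x y) : Par (fun l => eval x (G l)) fun l => eval y (G l) := by
  obtain ⟨c, hc, rfl⟩ := h
  exact ⟨c ^ e, hc.pow e, funext fun l => eval_smul_hom (hG l) c y⟩

/-- the chart of a regular map at a point -/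
theorem chart {p : T → σ → K} {q : U → τ → K} {f : T → U} (h : Mor p q f) (t₀ : T) :
    ∃ (e : ℕ) (c : T → K) (G : τ → MvPolynomial σ K), IsUnit (c t₀) ∧
      (∀ l, (G l).IsHomogeneous e) ∧ ∀ t l, eval (p t) (G l) = c t * q (f t) l := by
  obtain ⟨e, c, hc, h⟩ := h t₀
  have h1 : ∀ l, ∃ H : MvPolynomial σ K, H.IsHomogeneous (e 0) ∧
      ∀ t, c t * q (f t) l = eval (p t) H := fun l => by
    have := h (fun t => q (f t) l) (Submodule.subset_span ⟨l, rfl⟩)
    rw [Fin.prod_univ_one] at this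
    exact (mem_crd_pow p _ _).1 this
  choose G hG hG' using h1
  exact ⟨e 0, c, G, hc, hG, fun t l => (hG' l t).symm⟩

end Ring

section Field
variable {Ω : Type} [Field Ω] {T U σ τ : Type}

theorem par_ne {x y : σ → Ω} (h : Par x y) (hy : y ≠ 0) : x ≠ 0 := by
  obtain ⟨c, hc, rfl⟩ := h
  exact smul_ne_zero hc.ne_zero hy

/-- finitely many charts suffice -/
theorem charts [Finite σ] {p : T → σ → Ω} {q : U → τ → Ω} {f : T → U} (h : Mor p q f)
    (hq : ∀ u, q u ≠ 0) : ∃ (S : Finset T) (e : T → ℕ) (c : T → T → Ω)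
      (G : T → τ → MvPolynomial σ Ω), (∀ s l, (G s l).IsHomogeneous (e s)) ∧
      (∀ s t l, eval (p t) (G s l) = c s t * q (f t) l) ∧ ∀ t, ∃ s ∈ S, c s t ≠ 0 := by
  classical
  choose e c G hc hG hE using chart h
  obtain ⟨A, hA, hs⟩ := (Submodule.fg_span_iff_fg_span_finset_subset
    (R := MvPolynomial σ Ω) (range fun x : T × τ => G x.1 x.2)).1 (IsNoetherian.noetherian _)
  choose i hi using fun a : A => hA a.2
  refine ⟨Finset.univ.image fun a => (i a).1, e, c, G, hG, hE, fun t => ?_⟩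
  by_contra hn
  push Not at hn
  have h1 : Submodule.span (MvPolynomial σ Ω) (A : Set (MvPolynomial σ Ω)) ≤
      RingHom.ker (eval (p t)) := Submodule.span_le.2 fun a ha => by
    have h2 := hE (i ⟨a, ha⟩).1 t (i ⟨a, ha⟩).2
    rw [hn _ (Finset.mem_image.2 ⟨⟨a, ha⟩, Finset.mem_univ _, rfl⟩), zero_mul] at h2
    have h3 : G (i ⟨a, ha⟩).1 (i ⟨a, ha⟩).2 = a := hi ⟨a, ha⟩
    rwa [h3] at h2
  refine hq (f t) (funext fun l => ?_)
  rw [← hs] at h1
  have h4 : eval (p t) (G t l) = 0 := h1 (Submodule.subset_span ⟨(t, l), rfl⟩)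
  rw [hE] at h4
  exact (mul_eq_zero.1 h4).resolve_left (hc t).ne_zero

end Field

section Frob
variable {k : Type} [Field k] [Fintype k]

theorem frob_iter (n : ℕ) (z : AlgebraicClosure k) :
    (FiniteField.frobeniusAlgHom k (AlgebraicClosure k))^[n] z = z ^ Fintype.card k ^ n := by
  induction n with
  | zero => simp
  | succ n ih => rw [iterate_succ_apply', ih, pow_succ, pow_mul]; rfl

theorem exists_fix (a : AlgebraicClosure k) :
    ∃ e : ℕ, e ≠ 0 ∧ a ^ Fintype.card k ^ e = a := by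
  let φ := FiniteField.frobeniusAlgHom k (AlgebraicClosure k)
  have hi : IsIntegral k a := Algebra.IsIntegral.isIntegral a
  have hm : ∀ n, φ^[n] a ∈ (minpoly k a).rootSet (AlgebraicClosure k) := fun n => by
    induction n with
    | zero => exact Polynomial.mem_rootSet.2 ⟨minpoly.ne_zero hi, minpoly.aeval k a⟩
    | succ n ih =>
      rw [iterate_succ_apply']
      refine Polynomial.mem_rootSet.2 ⟨minpoly.ne_zero hi, ?_⟩
      rw [Polynomial.aeval_algHom_apply, (Polynomial.mem_rootSet.1 ih).2, map_zero]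
  obtain ⟨m, n, hmn, h⟩ := ((minpoly k a).rootSet_finite _).exists_lt_map_eq_of_forall_mem hm
  obtain ⟨d, rfl⟩ := Nat.exists_eq_add_of_lt hmn
  refine ⟨d + 1, d.succ_ne_zero, ?_⟩
  rw [add_assoc, iterate_add_apply] at h
  rw [← frob_iter]
  exact (φ.injective.iterate m h).symm

theorem exists_fix_fin (A : Finset (AlgebraicClosure k)) :
    ∃ e : ℕ, e ≠ 0 ∧ ∀ a ∈ A, a ^ Fintype.card k ^ e = a := by
  choose e he h using exists_fix (k := k)
  refine ⟨∏ a ∈ A, e a, Finset.prod_ne_zero_iff.2 fun a _ => he a, fun a ha => ?_⟩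
  obtain ⟨n, hn⟩ := Finset.dvd_prod_of_mem e ha
  rw [hn]
  clear hn
  induction n with
  | zero => simp
  | succ n ih => rw [Nat.mul_succ, pow_add, pow_mul, ih, h]

theorem eval_frob {σ : Type} {e : ℕ} {H : MvPolynomial σ (AlgebraicClosure k)}
    (h : ∀ a ∈ H.coeffs, a ^ Fintype.card k ^ e = a) (z : σ → AlgebraicClosure k) :
    eval (z ^ Fintype.card k ^ e) H = eval z H ^ Fintype.card k ^ e := by
  let φ := FiniteField.frobeniusAlgHom k (AlgebraicClosure k) ^ e
  have hφ : ∀ z, φ z = z ^ Fintype.card k ^ e := fun z => by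
    rw [AlgHom.coe_pow, frob_iter]
  rw [← hφ, eval_eq, eval_eq, map_sum]
  refine Finset.sum_congr rfl fun s hs => ?_
  rw [map_mul, map_prod, hφ, h _ (coeff_mem_coeffs s (mem_support_iff.1 hs))]
  simp only [hφ, Pi.pow_apply, ← pow_mul, mul_comm]

/-- a regular map commutes with a power of Frobenius -/
theorem mor_frob {T U σ τ : Type} [Finite σ] [Finite τ] {p : T → σ → AlgebraicClosure k}
    {q : U → τ → AlgebraicClosure k} {f : T → U} (h : Mor p q f) (hq : ∀ u, q u ≠ 0) :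
    ∃ e : ℕ, e ≠ 0 ∧ ∀ y y', Par (p y') (p y ^ Fintype.card k ^ e) →
      Par (q (f y')) (q (f y) ^ Fintype.card k ^ e) := by
  classical
  cases nonempty_fintype τ
  obtain ⟨S, d, c, G, hG, hE, hS⟩ := charts h hq
  obtain ⟨e, he, hA⟩ := exists_fix_fin (k := k)
    (S.biUnion fun s => Finset.univ.biUnion fun l => (G s l).coeffs)
  refine ⟨e, he, fun y y' hy => ?_⟩
  obtain ⟨s, hs, hc⟩ := hS y
  have h1 : Par (fun l => eval (p y') (G s l)) (q (f y) ^ Fintype.card k ^ e) := by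
    refine par_trans (par_eval (hG s) hy)
      ⟨c s y ^ Fintype.card k ^ e, (pow_ne_zero _ hc).isUnit, funext fun l => ?_⟩
    rw [eval_frob fun a ha => hA a (Finset.mem_biUnion.2 ⟨s, hs,
      Finset.mem_biUnion.2 ⟨l, Finset.mem_univ _, ha⟩⟩), hE, mul_pow]
    rfl
  have h2 : c s y' ≠ 0 := fun h0 => by
    obtain ⟨l, hl⟩ := ne_iff.1 (hq (f y))
    refine par_ne h1 (ne_iff.2 ⟨l, pow_ne_zero _ hl⟩) (funext fun l => ?_)
    rw [hE, h0, zero_mul]
    rfl
  exact par_trans (par_symm ⟨c s y', h2.isUnit, funext fun l => hE s y' l⟩) h1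

end Frob

section Mod
variable {Ω : Type} [Field Ω] {R : ValuationSubring ℂ} {r : R →+* Ω} {σ : Type} [Fintype σ] {g : ℕ}
  (X : Model r σ g)

theorem one_mem : (1 : Fin g → ℂ) ∈ En X.Λ := fun l hl => by rwa [one_mul]

theorem mul_mem {a b : Fin g → ℂ} (ha : a ∈ En X.Λ) (hb : b ∈ En X.Λ) : a * b ∈ En X.Λ :=
  fun l hl => by rw [mul_assoc]; exact ha _ (hb l hl)

theorem sub_mem {a b : Fin g → ℂ} (ha : a ∈ En X.Λ) (hb : b ∈ En X.Λ) : a - b ∈ En X.Λ :=
  fun l hl => by rw [sub_mul]; exact X.Λ.sub_mem (ha l hl) (hb l hl)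

theorem pow_mem {a : Fin g → ℂ} (ha : a ∈ En X.Λ) (n : ℕ) : a ^ n ∈ En X.Λ := by
  induction n with
  | zero => rw [pow_zero]; exact one_mem X
  | succ n ih => rw [pow_succ]; exact mul_mem X ih ha

theorem red_eq {v w : Fin g → ℂ} :
    X.red v = X.red w ↔ Par (fun l => r (X.x v l)) fun l => r (X.x w l) :=
  ⟨fun h => par_trans (par_symm (X.hred v)) (h ▸ X.hred w),
    fun h => X.inj _ _ (par_trans (X.hred v) (par_trans h (par_symm (X.hred w))))⟩

theorem red_ne (v : Fin g → ℂ) : (fun l => r (X.x v l)) ≠ 0 :=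
  par_ne (par_symm (X.hred v)) (X.sp.ne _)

omit [Fintype σ] in
theorem map_eval_r (z : σ → R) (H : MvPolynomial σ R) :
    r (eval z H) = eval (fun l => r (z l)) (map r H) := by
  rw [eval_map, ← eval₂_id, eval₂_comp_left, RingHom.comp_id]
  rfl

/-- the reduction of a chart -/
theorem chart_red {a : Fin g → ℂ} (ha : a ∈ En X.Λ) (v₀ : Fin g → ℂ) :
    ∃ (e : ℕ) (G : σ → MvPolynomial σ Ω), (∀ l, (G l).IsHomogeneous e) ∧
      (fun l => eval (X.p (X.red v₀)) (G l)) ≠ 0 ∧
      ∀ v, ∃ c : Ω, (fun l => eval (X.p (X.red v)) (G l)) = c • X.p (X.red (a * v)) := by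
  obtain ⟨e, c, G, hc, hG, hE⟩ := chart (X.reg a ha) v₀
  have h1 : ∀ v, ∃ u : Ω, IsUnit u ∧ (fun l => eval (X.p (X.red v)) (map r (G l))) =
      (u * r (c v)) • X.p (X.red (a * v)) := fun v => by
    obtain ⟨u, hu, e1⟩ := par_eval (fun l => (hG l).map r) (X.hred v)
    obtain ⟨u', hu', e2⟩ := par_symm (X.hred (a * v))
    refine ⟨u * u', hu.mul hu', funext fun l => ?_⟩
    have e3 := congrFun e1 l
    have e4 := congrFun e2 l
    simp only [Pi.smul_apply, smul_eq_mul] at e3 e4 ⊢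
    rw [e3, ← map_eval_r, hE, map_mul, e4]
    ring
  refine ⟨e, fun l => map r (G l), fun l => (hG l).map r, ?_, fun v => ?_⟩
  · obtain ⟨u, hu, e1⟩ := h1 v₀
    rw [e1]
    exact smul_ne_zero (hu.mul (hc.map r)).ne_zero (X.sp.ne _)
  · obtain ⟨u, -, e1⟩ := h1 v
    exact ⟨_, e1⟩

theorem red_mul {a : Fin g → ℂ} (ha : a ∈ En X.Λ) {v w : Fin g → ℂ} (h : X.red v = X.red w) :
    X.red (a * v) = X.red (a * w) := by
  obtain ⟨e, G, -, h0, hE⟩ := chart_red X ha v
  obtain ⟨c, hc⟩ := hE v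
  obtain ⟨d, hd⟩ := hE w
  rw [← h] at hd
  have hc0 : c ≠ 0 := fun h1 => h0 (by rw [hc, h1, zero_smul])
  have hd0 : d ≠ 0 := fun h1 => h0 (by rw [hd, h1, zero_smul])
  exact X.inj _ _ (par_trans (par_symm ⟨c, hc0.isUnit, hc⟩) ⟨d, hd0.isUnit, hd⟩)

/-- the reduction of an endomorphism exists and is regular -/
theorem exists_act {a : Fin g → ℂ} (ha : a ∈ En X.Λ) :
    ∃ f : X.B →+ X.B, (∀ v, f (X.red v) = X.red (a * v)) ∧ Mor X.p X.p f := by
  let s := surjInv X.onto
  have hs : ∀ b, X.red (s b) = b := surjInv_eq X.onto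
  let f : X.B →+ X.B := AddMonoidHom.mk' (fun b => X.red (a * s b)) fun b b' => by
    rw [← map_add, ← mul_add]
    exact red_mul X ha (by rw [map_add, hs, hs, hs])
  have hf : ∀ v, f (X.red v) = X.red (a * v) := fun v => red_mul X ha (hs _)
  refine ⟨f, hf, fun b₀ => ?_⟩
  obtain ⟨e, G, hG, h0, hE⟩ := chart_red X ha (s b₀)
  choose c hc using hE
  refine ⟨fun _ => e, fun b => c (s b),
    IsUnit.mk0 _ fun h1 : c (s b₀) = 0 => h0 (by rw [hc, h1, zero_smul]), fun w hw => ?_⟩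
  rw [Fin.prod_univ_one]
  induction hw using Submodule.span_induction with
  | mem w hw =>
    obtain ⟨l, rfl⟩ := hw
    refine (mem_crd_pow X.p e _).2 ⟨G l, hG l, fun b => ?_⟩
    have := congrFun (hc (s b)) l
    rw [hs] at this
    exact this.symm
  | zero => simp
  | add y z _ _ hy hz => rw [mul_add]; exact Submodule.add_mem _ hy hz
  | smul t y _ hy => rw [mul_smul_comm]; exact Submodule.smul_mem _ _ hy

theorem nsmul_onto {m : ℕ} (hm : m ≠ 0) (b : X.B) : ∃ b', m • b' = b := by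
  obtain ⟨v, rfl⟩ := X.onto b
  refine ⟨X.red ((m : ℂ)⁻¹ • v), ?_⟩
  rw [← map_nsmul, ← Nat.cast_smul_eq_nsmul ℂ, smul_inv_smul₀ (Nat.cast_ne_zero.2 hm)]

theorem eqv_iter {G : Type} {ψ : G → X.B} {F : G → G} {a : Fin g → ℂ} (h : X.Eqv ψ F a) (n : ℕ) :
    X.Eqv ψ F^[n] (a ^ n) := by
  induction n with
  | zero => intro y v hy; simpa using hy
  | succ n ih =>
    intro y v hy
    rw [iterate_succ_apply', pow_succ', mul_assoc]
    exact h _ _ (ih y v hy)

end Mod

theorem par_iter {K G τ : Type} [CommRing K] {p : G → τ → K} {F : G → G} {q : ℕ}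
    (h : ∀ y, Par (p (F y)) (p y ^ q)) (n : ℕ) (y : G) : Par (p (F^[n] y)) (p y ^ q ^ n) := by
  induction n with
  | zero => simpa using par_refl _
  | succ n ih =>
    rw [iterate_succ_apply', pow_succ, pow_mul]
    exact par_trans (h _) (par_pow ih q)

/-- a power of `π` lifts a power of Frobenius -/
theorem lf_of_eqv {k : Type} [Field k] [Fintype k] {G τ σ : Type} [Finite τ] [Fintype σ] {g : ℕ}
    {p : G → τ → AlgebraicClosure k} {F : G → G} (hF : ∀ y, Par (p (F y)) (p y ^ Fintype.card k))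
    {R : ValuationSubring ℂ} {r : R →+* AlgebraicClosure k} (X : Model r σ g) {ψ : G → X.B}
    (hψ : Mor p X.p ψ) (hs : Surjective ψ) {π : Fin g → ℂ} (h : X.Eqv ψ F π) :
    ∃ e : ℕ, e ≠ 0 ∧ ∀ v, Par (X.p (X.red (π ^ e * v))) (X.p (X.red v) ^ Fintype.card k ^ e) := by
  obtain ⟨e, he, h1⟩ := mor_frob hψ X.sp.ne
  refine ⟨e, he, fun v => ?_⟩
  obtain ⟨y, hy⟩ := hs (X.red v)
  have := h1 y _ (par_iter hF e y)
  rwa [eqv_iter X h e y v hy, hy] at this

end Pool.Agent.Tav.Pp
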