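import Pool.Agent.P.MP_2ce3e7_ag.Tav.GrLift
import Pool.Agent.P.MP_2ce3e7_ag.Tav.PPoly
import Pool.Agent.P.MP_2ce3e7_ag.Tav.HPol

/-! The special fibre of a group with a law of bidegree `(2,2)`. -/

set_option autoImplicit false

noncomputable section

namespace Pool.Agent.Tav.Fb

open MvPolynomial Set Pp
open Function hiding eval

section ring
variable {A V σ : Type} [CommRing A]

/-- forms of bidegree `(2,2)` -/
def Q22 (x : V → σ → A) : Submodule A (V × V → A) :=
  (crd fun t => x t.1) ^ 2 * (crd fun t => x t.2) ^ 2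

theorem Q22.slice {x : V → σ → A} {f : V × V → A} (hf : f ∈ Q22 x) (w : V) :
    ∃ H : MvPolynomial σ A, H.IsHomogeneous 2 ∧ ∀ v, f (v, w) = eval (x v) H := by
  refine Submodule.mul_induction_on hf (fun a ha b _ => ?_) ?_
  · obtain ⟨H, hH, e⟩ := (mem_crd_pow _ _ _).1 ha
    refine ⟨H * C (b (w, w)), by simpa using hH.mul (isHomogeneous_C σ _), fun v => ?_⟩
    obtain ⟨H', -, e'⟩ := (mem_crd_pow _ _ _).1 ‹b ∈ _›
    simp [e, e']
  · rintro a b ⟨H, hH, e⟩ ⟨H', hH', e'⟩
    exact ⟨H + H', hH.add hH', fun v => by simp [e, e']⟩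

/-- change of ring and of parameters -/
theorem Q22.map {A' U : Type} [CommRing A'] (r : A →+* A') (s : U → V) {x : V → σ → A}
    {f : V × V → A} (hf : f ∈ Q22 x) :
    (fun t : U × U => r (f (s t.1, s t.2))) ∈ Q22 fun u l => r (x (s u) l) := by
  refine Submodule.mul_induction_on hf (fun a ha b hb => ?_) fun a b ha hb => ?_
  · obtain ⟨H, hH, e⟩ := (mem_crd_pow _ _ _).1 ha
    obtain ⟨H', hH', e'⟩ := (mem_crd_pow _ _ _).1 hb
    have : (fun t : U × U => r ((a * b) (s t.1, s t.2))) =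
        (fun t : U × U => r (a (s t.1, s t.2))) * fun t : U × U => r (b (s t.1, s t.2)) := by
      funext t; simp
    rw [this]
    exact Submodule.mul_mem_mul
      ((mem_crd_pow _ _ _).2 ⟨_, hH.map r, fun t => by rw [e, Lft.ev_map]⟩)
      ((mem_crd_pow _ _ _).2 ⟨_, hH'.map r, fun t => by rw [e', Lft.ev_map]⟩)
  · have : (fun t : U × U => r ((a + b) (s t.1, s t.2))) =
        (fun t : U × U => r (a (s t.1, s t.2))) + fun t : U × U => r (b (s t.1, s t.2)) := by
      funext t; simp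
    rw [this]
    exact add_mem ha hb

variable [AddCommGroup V]

/-- the field `law` of a model -/
def Law (x : V → σ → A) : Prop :=
  ∃ c : V × V → A, (∀ t, IsUnit (c t)) ∧ ∀ i j,
    (c * fun t => x (t.1 + t.2) i * x (t.1 - t.2) j) ∈ Q22 x

theorem Law.map {A' : Type} [CommRing A'] (r : A →+* A') {x : V → σ → A} (h : Law x) :
    Law fun v l => r (x v l) := by
  obtain ⟨c, hc, h⟩ := h
  refine ⟨fun t => r (c t), fun t => (hc t).map r, fun i j => ?_⟩
  refine Set.mem_of_eq_of_mem ?_ (Q22.map r id (h i j))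
  funext t; simp

/-- translation in a chart -/
theorem Law.chart {x : V → σ → A} (h : Law x) (w : V) (j : σ) :
    ∃ (c : V → A) (H : σ → MvPolynomial σ A), (∀ v, IsUnit (c v)) ∧ (∀ i, (H i).IsHomogeneous 2) ∧
      ∀ v, (fun i => eval (x v) (H i)) = (c v * x (v - w) j) • x (v + w) := by
  obtain ⟨c, hc, h⟩ := h
  choose H hH e using fun i => Q22.slice (h i j) w
  refine ⟨fun v => c (v, w), H, fun v => hc _, hH, fun v => funext fun i => ?_⟩
  rw [← e]; simp only [Pi.mul_apply, Pi.smul_apply, smul_eq_mul]; ring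

end ring

section field
variable {Ω V σ : Type} [Field Ω] [AddCommGroup V] {y : V → σ → Ω}

theorem par_of_smul {a b : σ → Ω} {c d : Ω} (hc : c ≠ 0) (ha : a ≠ 0) (h : c • a = d • b) :
    Par a b := by
  have e : a = (c⁻¹ * d) • b := by rw [mul_smul, ← h, inv_smul_smul₀ hc]
  exact ⟨_, IsUnit.mk0 _ (fun h0 => ha (by rw [e, h0, zero_smul])), e⟩

theorem Law.par_add (h : Law y) (hy : ∀ v, y v ≠ 0) {v v' : V} (hv : Par (y v) (y v')) (w : V) :
    Par (y (v + w)) (y (v' + w)) := by
  obtain ⟨j, hj⟩ := ne_iff.1 (hy (v - w))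
  obtain ⟨c, H, hc, hH, e⟩ := h.chart w j
  obtain ⟨a, -, ha⟩ := par_eval hH hv
  rw [e, e, smul_smul] at ha
  exact par_of_smul (mul_ne_zero (hc v).ne_zero hj) (hy _) ha

theorem Law.sub (h : Law y) (hy : ∀ v, y v ≠ 0) :
    Rg ![crd fun t : V × V => y t.1, crd fun t => y t.2] (crd fun t => y (t.1 - t.2)) := by
  obtain ⟨c, hc, h⟩ := h
  intro t
  obtain ⟨i, hi⟩ := ne_iff.1 (hy (t.1 + t.2))
  refine ⟨![2, 2], c * fun t => y (t.1 + t.2) i,
    IsUnit.mk0 _ (mul_ne_zero (hc t).ne_zero hi), fun w hw => ?_⟩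
  rw [Fin.prod_univ_two]
  induction hw using Submodule.span_induction with
  | mem _ hl =>
    obtain ⟨j, rfl⟩ := hl
    rw [mul_assoc]
    exact h i j
  | zero => rw [mul_zero]; exact zero_mem _
  | add a b _ _ ha hb => rw [mul_add]; exact add_mem ha hb
  | smul a b _ hb => rw [mul_smul_comm]; exact Submodule.smul_mem _ _ hb

/-- a divisible group whose translations are continuous for a noetherian topology -/
theorem irred_of_div [TopologicalSpace V] [TopologicalSpace.NoetherianSpace V]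
    (hc : ∀ w : V, Continuous fun v => w + v) (hd : ∀ n : ℕ, n ≠ 0 → ∀ v : V, ∃ u, n • u = v) :
    IsIrreducible (univ : Set V) := by
  have _ : ContinuousConstVAdd V V := ⟨hc⟩
  open Pointwise in
  have hf : (AddAction.orbit V (irreducibleComponent (0 : V))).Finite := by
    refine TopologicalSpace.NoetherianSpace.finite_irreducibleComponents.subset ?_
    rintro _ ⟨w, rfl⟩
    have := preimage_mem_irreducibleComponents
      (irreducibleComponent_mem_irreducibleComponents (0 : V))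
      (Homeomorph.vadd (-w) : V ≃ₜ V).isOpenEmbedding
      ⟨0, mem_irreducibleComponent, w, by simp⟩
    convert this using 1
    ext v
    simp [Set.mem_vadd_set_iff_neg_vadd_mem]
  open Pointwise in
  have hs : ∀ v : V, v ∈ AddAction.stabilizer V (irreducibleComponent (0 : V)) := fun v => by
    obtain ⟨u, rfl⟩ := hd (AddAction.stabilizer V (irreducibleComponent (0 : V))).index (by
      rw [AddAction.index_stabilizer]
      exact ((Set.ncard_pos hf).2 ⟨_, AddAction.mem_orbit_self _⟩).ne') v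
    exact AddSubgroup.nsmul_index_mem _ u
  have : irreducibleComponent (0 : V) = univ := eq_univ_of_forall fun v => by
    have h1 := AddAction.mem_stabilizer_iff.1 (hs v)
    rw [← h1]
    exact ⟨0, mem_irreducibleComponent, by simp⟩
  exact this ▸ isIrreducible_irreducibleComponent

/-- the prime ideal of the line through `z` -/
def lin (z : σ → Ω) : PrimeSpectrum (MvPolynomial σ Ω) :=
  ⟨RingHom.ker (aeval fun l => Polynomial.C (z l) * Polynomial.X :
    MvPolynomial σ Ω →ₐ[Ω] Polynomial Ω).toRingHom, RingHom.ker_isPrime _⟩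

theorem mem_lin [Infinite Ω] (z : σ → Ω) (F : MvPolynomial σ Ω) :
    F ∈ (lin z).asIdeal ↔ ∀ c : Ω, eval (c • z) F = 0 := by
  have key : ∀ c : Ω, Polynomial.eval c
      (aeval (fun l => Polynomial.C (z l) * Polynomial.X) F) = eval (c • z) F := fun c => by
    induction F using MvPolynomial.induction_on with
    | C a => simp
    | add p q hp hq => simp [hp, hq]
    | mul_X p i hp => simp [hp, mul_comm c]
  refine ⟨fun h c => ?_, fun h => Polynomial.funext fun c => ?_⟩
  · have h' : aeval (fun l => Polynomial.C (z l) * Polynomial.X) F = 0 := h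
    rw [← key, h', Polynomial.eval_zero]
  · exact (key c).trans (by rw [h, Polynomial.eval_zero])

omit [AddCommGroup V] in
theorem mem_idl (y : V → σ → Ω) (F : MvPolynomial σ Ω) :
    F ∈ idl y ↔ ∀ v (c : Ω), eval (c • y v) F = 0 :=
  ⟨fun h v c => h _ ⟨c, v, rfl⟩, fun h _ ⟨c, v, e⟩ => e ▸ h v c⟩

omit [AddCommGroup V] in
theorem mem_idl_hom (y : V → σ → Ω) {F : MvPolynomial σ Ω} {e : ℕ} (hF : F.IsHomogeneous e) :
    F ∈ idl y ↔ ∀ v, eval (y v) F = 0 := by
  rw [mem_idl]
  exact ⟨fun h v => by simpa using h v 1, fun h v c => by rw [eval_smul_hom hF, h, mul_zero]⟩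

theorem not_mem_lin [Infinite Ω] {z : σ → Ω} {F : MvPolynomial σ Ω} :
    F ∉ (lin z).asIdeal ↔ ∃ e, eval z (homogeneousComponent e F) ≠ 0 := by
  have h1 : F ∈ (lin z).asIdeal ↔ F ∈ idl fun _ : Unit => z := by simp [mem_lin, mem_idl]
  rw [h1, ← not_forall_not, not_iff_not]
  simp only [not_not]
  refine ⟨fun h e => (mem_idl_hom _ (homogeneousComponent_isHomogeneous e F)).1
    (Lft.idl_hom _ h e) (), fun h => ?_⟩
  rw [← sum_homogeneousComponent F]
  exact Ideal.sum_mem _ fun e _ =>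
    (mem_idl_hom _ (homogeneousComponent_isHomogeneous e F)).2 fun _ => h e

/-- PRIME: a divisible group with a law is irreducible -/
theorem Law.irr [Infinite Ω] [Finite σ] (h : Law y) (hy : ∀ v, y v ≠ 0)
    (hd : ∀ n : ℕ, n ≠ 0 → ∀ v : V, ∃ u, n • u = v) : (idl y).IsPrime := by
  let _ : TopologicalSpace V := .induced (fun v => lin (y v)) inferInstance
  have hi : Topology.IsInducing fun v => lin (y v) := ⟨rfl⟩
  have _ := hi.noetherianSpace
  have h1 := (irred_of_div (fun w => ?_) hd).image _ hi.continuous.continuousOn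
  · rw [PrimeSpectrum.isIrreducible_iff_vanishingIdeal_isPrime] at h1
    have : idl y = PrimeSpectrum.vanishingIdeal ((fun v => lin (y v)) '' univ) :=
      Ideal.ext fun F => by simp [PrimeSpectrum.mem_vanishingIdeal, mem_lin, mem_idl]
    rwa [this]
  rw [hi.continuous_iff, PrimeSpectrum.isTopologicalBasis_basic_opens.continuous_iff]
  rintro _ ⟨F, rfl⟩
  rw [isOpen_iff_forall_mem_open]
  intro v hv
  obtain ⟨e, he⟩ := not_mem_lin.1 hv
  obtain ⟨j, hj⟩ := ne_iff.1 (hy (v - w))
  obtain ⟨c, H, hc, hH, hE⟩ := h.chart w j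
  have hG := (homogeneousComponent_isHomogeneous e F).aeval H hH
  have key : ∀ u, eval (y u) (aeval H (homogeneousComponent e F)) =
      (c u * y (u - w) j) ^ e * eval (y (w + u)) (homogeneousComponent e F) := fun u => by
    rw [add_comm w, ← eval_smul_hom (homogeneousComponent_isHomogeneous e F), ← hE,
      ← aeval_eq_eval, ← AlgHom.comp_apply, comp_aeval, aeval_eq_eval]
  have hm : ∀ u, aeval H (homogeneousComponent e F) ∉ (lin (y u)).asIdeal ↔
      eval (y u) (aeval H (homogeneousComponent e F)) ≠ 0 := fun u => by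
    rw [mem_lin, not_iff_not]
    exact ⟨fun h => by simpa using h 1, fun h c => by rw [eval_smul_hom hG, h, mul_zero]⟩
  refine ⟨(fun v => lin (y v)) ⁻¹' PrimeSpectrum.basicOpen (aeval H (homogeneousComponent e F)),
    fun u hu => not_mem_lin.2 ⟨e, ?_⟩,
    PrimeSpectrum.isOpen_basicOpen.preimage hi.continuous, (hm v).2 ?_⟩
  · exact right_ne_zero_of_mul (key u ▸ (hm u).1 hu)
  · rw [key]
    exact mul_ne_zero (pow_ne_zero _ (mul_ne_zero (hc v).ne_zero hj)) he

/-- the points with the same image as the origin -/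
def Law.ker (h : Law y) (hy : ∀ v, y v ≠ 0) : AddSubgroup V where
  carrier := {v | Par (y v) (y 0)}
  zero_mem' := par_refl _
  add_mem' {a b} ha hb := par_trans (by simpa using h.par_add hy ha b) hb
  neg_mem' {a} ha := par_symm (by simpa using h.par_add hy ha (-a))

theorem Law.par_iff (h : Law y) (hy : ∀ v, y v ≠ 0) (v w : V) :
    Par (y v) (y w) ↔ v - w ∈ h.ker hy :=
  ⟨fun e => show Par (y (v - w)) (y 0) by simpa [sub_eq_add_neg] using h.par_add hy e (-w),
    fun e => by simpa using h.par_add hy e w⟩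

section transfer
variable {T U : Type} {y : T → σ → Ω} {p : U → σ → Ω}

theorem idl_eq (h : ∀ t, ∃ u, Par (y t) (p u)) (h' : ∀ u, ∃ t, Par (p u) (y t)) :
    idl y = idl p := by
  have key : ∀ {T U : Type} {y : T → σ → Ω} {p : U → σ → Ω}, (∀ t, ∃ u, Par (y t) (p u)) →
      idl p ≤ idl y := fun h F hF => (mem_idl _ _).2 fun t c => by
    obtain ⟨u, a, -, e⟩ := h t
    rw [e, smul_smul]
    exact (mem_idl _ _).1 hF u _
  exact le_antisymm (key h') (key h)

theorem finrank_crd_pow (h : idl y = idl p) (d : ℕ) :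
    Module.finrank Ω (crd y ^ d :) = Module.finrank Ω (crd p ^ d :) := by
  have key : ∀ {T : Type} (y : T → σ → Ω), LinearMap.ker ((evA y).toLinearMap.domRestrict
      (homogeneousSubmodule σ Ω d)) = ((idl y).restrictScalars Ω).comap (Submodule.subtype _) :=
    fun y => Submodule.ext fun F => by
      refine Iff.trans ?_ (mem_idl_hom y F.2).symm
      simp [funext_iff, evA_apply]
  rw [crd_pow_eq, crd_pow_eq, ← LinearMap.range_domRestrict, ← LinearMap.range_domRestrict,
    ← (LinearMap.quotKerEquivRange _).finrank_eq, ← (LinearMap.quotKerEquivRange _).finrank_eq,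
    key, key, h]

theorem hp_eq (h : idl y = idl p) : hp ![crd y] = hp ![crd p] := by
  unfold hp
  congr 1
  funext P
  congr 1
  funext d
  rw [Fin.prod_univ_one, Fin.prod_univ_one, Matrix.cons_val_zero, Matrix.cons_val_zero,
    finrank_crd_pow h]

theorem dm_univ (p : U → σ → Ω) : dm p univ = (hp ![crd p]).totalDegree := by
  rw [dm, hp_eq (y := fun z : (univ : Set U) => p z) (p := p)
    (idl_eq (fun t => ⟨_, par_refl _⟩) fun u => ⟨⟨u, trivial⟩, par_refl _⟩)]

/-- equal Hilbert functions in infinitely many degrees give equal Hilbert polynomials -/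
theorem hp_eq_of_seq {K τ : Type} [Field K] [Finite σ] [Finite τ] (y : T → σ → Ω) (x : U → τ → K)
    (h : ∀ N, ∃ d, N ≤ d ∧ Module.finrank Ω (crd y ^ d :) = Module.finrank K (crd x ^ d :)) :
    hp ![crd y] = hp ![crd x] := by
  have key : ∀ {K T σ : Type} [Field K] [Finite σ] (x : T → σ → K), ∃ N, ∀ d : ℕ, N ≤ d →
      eval (fun _ => (d : ℚ)) (hp ![crd x]) = Module.finrank K (crd x ^ d :) := by
    intro K T σ _ _ x
    have _ : ∀ i, FiniteDimensional K (![crd x] i) := fun i => by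
      rw [Matrix.cons_val_fin_one]
      exact FiniteDimensional.span_of_finite K (finite_range _)
    obtain ⟨P, N, hN⟩ := exists_evP_hf ![crd x]
    have := Classical.epsilon_spec (p := fun P : MvPolynomial (Fin 1) ℚ =>
      ∀ᶠ d : Fin 1 → ℕ in Filter.atTop, eval (fun i => (d i : ℚ)) P =
        Module.finrank K (∏ i, ![crd x] i ^ d i : Submodule K (T → K)))
      ⟨P, Filter.eventually_atTop.2 ⟨fun _ => N, fun d hd => hN d hd⟩⟩
    obtain ⟨a, ha⟩ := Filter.eventually_atTop.1 this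
    refine ⟨a 0, fun d hd => ?_⟩
    have := ha (fun _ => d) fun i => by rwa [Subsingleton.elim i 0]
    rw [Fin.prod_univ_one] at this
    exact this
  obtain ⟨N, hN⟩ := key y
  obtain ⟨M, hM⟩ := key x
  refine funext_set (fun _ => {q : ℚ | eval (fun _ => q) (hp ![crd y]) =
    eval (fun _ => q) (hp ![crd x])}) (fun _ => ?_) fun q hq => ?_
  · refine Set.infinite_of_forall_exists_gt fun a => ?_
    obtain ⟨n, hn⟩ := exists_nat_gt a
    obtain ⟨d, hd, e⟩ := h (max n (max N M))
    refine ⟨d, ?_, hn.trans_le (Nat.cast_le.2 (by omega))⟩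
    rw [mem_ofPred_eq, hN d (by omega), hM d (by omega), e]
  · have : q = fun _ => q 0 := funext fun i => by rw [Subsingleton.elim i 0]
    rw [this]
    exact hq 0 trivial

end transfer

/-- the quotient by the kernel -/
theorem Law.quot (h : Law y) (hy : ∀ v, y v ≠ 0) :
    Law (fun b : V ⧸ h.ker hy => y b.out) ∧
    (∀ b b' : V ⧸ h.ker hy, Par (y b.out) (y b'.out) → b = b') ∧
    ∀ v, Par (y (QuotientAddGroup.mk v : V ⧸ h.ker hy).out) (y v) := by
  have h3 : ∀ v w : V, Par (y v) (y w) ↔ (v : V ⧸ h.ker hy) = w := fun v w => by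
    rw [h.par_iff hy, QuotientAddGroup.eq_iff_sub_mem]
  refine ⟨?_, fun b b' e => by simpa using (h3 _ _).1 e, fun v => (h3 _ _).2 (by simp)⟩
  obtain ⟨c, hc, hL⟩ := id h
  choose a ha ea using fun t : (V ⧸ h.ker hy) × (V ⧸ h.ker hy) =>
    (h3 (t.1.out + t.2.out) (t.1 + t.2).out).2 (by simp)
  choose b hb eb using fun t : (V ⧸ h.ker hy) × (V ⧸ h.ker hy) =>
    (h3 (t.1.out - t.2.out) (t.1 - t.2).out).2 (by simp)
  refine ⟨fun t => c (t.1.out, t.2.out) * (a t * b t), fun t => (hc _).mul ((ha t).mul (hb t)),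
    fun i j => ?_⟩
  refine Set.mem_of_eq_of_mem ?_ (Q22.map (RingHom.id Ω) (fun b : V ⧸ h.ker hy => b.out) (hL i j))
  funext t
  simp only [Pi.mul_apply, RingHom.id_apply, ea t, eb t, Pi.smul_apply, smul_eq_mul]
  ring

end field

/-- FIBRE -/
theorem exists_fibre {K Ω V σ : Type} [Field K] [IsAlgClosed K] [Field Ω] [Infinite Ω]
    [AddCommGroup V] [Fintype σ] {R : ValuationSubring K} {r : R →+* Ω} (hr : Surjective r)
    {g : ℕ} (x : V → σ → R) (hx : ∀ v, ∃ l, IsUnit (x v l))
    (gen : AV (fun v l => (x v l : K)) g) (law : Law x)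
    (hd : ∀ n : ℕ, n ≠ 0 → ∀ v : V, ∃ u, n • u = v)
    (flat : hp ![crd fun v l => r (x v l)] = hp ![crd fun v l => (x v l : K)]) :
    ∃ (B : Type) (_ : AddCommGroup B) (p : B → σ → Ω) (red : V →+ B),
      (∀ b b', Par (p b) (p b') → b = b') ∧ AV p g ∧ Surjective red ∧
      (∀ v, Par (p (red v)) fun l => r (x v l)) ∧
      hp ![crd p] = hp ![crd fun v l => (x v l : K)] ∧ Law p := by
  have hy : ∀ v, (fun l => r (x v l)) ≠ 0 := fun v h => by
    obtain ⟨l, hl⟩ := hx v
    exact (hl.map r).ne_zero (congrFun h l)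
  obtain ⟨h1, h2, h3⟩ := (law.map r).quot hy
  have hI := idl_eq (y := fun (b : V ⧸ (law.map r).ker hy) l => r (x b.out l))
    (p := fun v l => r (x v l)) (fun b => ⟨_, par_refl _⟩) fun v => ⟨_, par_symm (h3 v)⟩
  have hf := (hp_eq hI).trans flat
  refine ⟨V ⧸ (law.map r).ker hy, inferInstance, fun b l => r (x b.out l),
    QuotientAddGroup.mk' _, h2, ⟨fun _ => hy _, fun z hz h0 => ?_, ?_, ?_, h1.sub fun _ => hy _⟩,
    QuotientAddGroup.mk'_surjective _, h3, hf, h1⟩
  · obtain ⟨t, ht⟩ := Lft.cl_red hr x hx gen.cl gen.irr z (hI ▸ hz) h0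
    exact ⟨t, par_trans ht (par_symm (h3 t))⟩
  · exact hI ▸ (law.map r).irr hy hd
  · rw [dm_univ, hf, ← dm_univ, gen.dim]

/-- a model from its generic fibre -/
theorem exists_model {Ω σ : Type} [Field Ω] [Infinite Ω] [Fintype σ] {R : ValuationSubring ℂ}
    {r : R →+* Ω} (hr : Surjective r) {g : ℕ} (Λ : Submodule ℤ (Fin g → ℂ)) [DiscreteTopology Λ]
    (lat : IsZLattice ℝ Λ) (riem : Riem Λ) (cm : ∃ θ ∈ En Λ, Injective (Sum.elim θ (star θ)))
    (x : (Fin g → ℂ) → σ → R) (hx : ∀ v, ∃ l, IsUnit (x v l))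
    (hol : ∃ φ : (Fin g → ℂ) → σ → ℂ, Differentiable ℂ φ ∧ (∀ v, Par (φ v) fun l => x v l) ∧
      ∀ v w (c : ℂ), fderiv ℂ φ v w = c • φ v → w = 0)
    (ker : ∀ v w, Par (x v) (x w) ↔ v - w ∈ Λ) (gen : AV (fun v l => (x v l : ℂ)) g)
    (law : Law x) (reg : ∀ a ∈ En Λ, Mor x x (a * ·))
    (flat : hp ![crd fun v l => r (x v l)] = hp ![crd fun v l => (x v l : ℂ)]) :
    ∃ X : Model r σ g, X.Λ = Λ ∧ X.x = x ∧ Law X.p := by
  obtain ⟨B, _, p, red, h1, h2, h3, h4, h5, h6⟩ := exists_fibre hr x hx gen law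
    (fun n hn v => ⟨(n : ℂ)⁻¹ • v, by
      rw [← Nat.cast_smul_eq_nsmul ℂ, smul_inv_smul₀ (Nat.cast_ne_zero.2 hn)]⟩) flat
  exact ⟨⟨Λ, lat, riem, cm, x, hol, ker, gen, law, reg, B, p, h1, h2, red, h3, h4, h5⟩,
    rfl, rfl, h6⟩

end Pool.Agent.Tav.Fb
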