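import Pool.Agent.P.MP_2ce3e7_ag.Tav.G3L22
import Pool.Agent.P.MP_2ce3e7_ag.Tav.GrFib

/-! A model from a generic fibre whose Veronese images satisfy the law. -/

set_option autoImplicit false

noncomputable section

namespace Pool.Agent.Tav.G3

open Set Function Module Pool.Agent.Tav.Ver

section
variable {K T σ τ : Type} [CommRing K] {e : τ → σ}

theorem crd_idx (he : Surjective e) (y : T → σ → K) : (crd fun t k => y t (e k)) = crd y :=
  congrArg (Submodule.span K) (he.range_comp fun l t => y t l)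

theorem par_idx (he : Surjective e) {y z : σ → K} :
    Par (fun k => y (e k)) (fun k => z (e k)) ↔ Par y z :=
  exists_congr fun _ => and_congr_right fun _ =>
    ⟨fun h => funext (he.forall.2 (congrFun h)), fun h => funext fun k => congrFun h (e k)⟩

theorem law_idx [AddCommGroup T] (he : Surjective e) {y : T → σ → K} (h : Gn.Law y) :
    Gn.Law fun t k => y t (e k) := by
  obtain ⟨c, hc, h⟩ := h
  refine ⟨c, hc, fun i j => ?_⟩
  rw [crd_idx he fun t : T × T => y t.1, crd_idx he fun t : T × T => y t.2]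
  exact h _ _

theorem mor_idx (he : Surjective e) {y : T → σ → K} {f : T → T} (h : Mor y y f) :
    Mor (fun t k => y t (e k)) (fun t k => y t (e k)) f := by
  unfold Mor at h ⊢
  rwa [crd_idx he y, crd_idx he fun t => y (f t)]

end

theorem hol_idx {V σ τ : Type} [NormedAddCommGroup V] [NormedSpace ℂ V] [Fintype σ] [Fintype τ]
    {e : τ → σ} (he : Surjective e) {φ : V → σ → ℂ} (hd : Differentiable ℂ φ)
    (h : ∀ v w (c : ℂ), fderiv ℂ φ v w = c • φ v → w = 0) :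
    Differentiable ℂ (fun v k => φ v (e k)) ∧ ∀ v w (c : ℂ),
      fderiv ℂ (fun v k => φ v (e k)) v w = c • (fun k => φ v (e k)) → w = 0 := by
  have h1 : ∀ v, HasFDerivAt (fun v k => φ v (e k)) (ContinuousLinearMap.pi fun k =>
      (ContinuousLinearMap.proj (e k)).comp (fderiv ℂ φ v)) v := fun v =>
    hasFDerivAt_pi.2 fun k => hasFDerivAt_pi'.1 (hd v).hasFDerivAt (e k)
  refine ⟨fun v => (h1 v).differentiableAt, fun v w c hc =>
    h v w c (funext (he.forall.2 fun k => ?_))⟩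
  rw [(h1 v).fderiv] at hc
  exact congrFun hc k

/-- a model in Veronese coordinates -/
theorem model_ver {Ω σ : Type} [Field Ω] [Infinite Ω] [Fintype σ] {R : ValuationSubring ℂ}
    {r : R →+* Ω} (hr : Surjective r) {g : ℕ} (Λ : Submodule ℤ (Fin g → ℂ)) [DiscreteTopology Λ]
    (lat : IsZLattice ℝ Λ) (riem : Riem Λ) (cm : ∃ θ ∈ En Λ, Injective (Sum.elim θ (star θ)))
    (x : (Fin g → ℂ) → σ → R) (hx : ∀ v, ∃ l, IsUnit (x v l))
    (hol : ∃ φ : (Fin g → ℂ) → σ → ℂ, Differentiable ℂ φ ∧ (∀ v, Par (φ v) fun l => x v l) ∧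
      ∀ v w (c : ℂ), fderiv ℂ φ v w = c • φ v → w = 0)
    (ker : ∀ v w, Par (x v) (x w) ↔ v - w ∈ Λ)
    (law : ∃ m₀, ∀ m, m₀ ≤ m → Gn.Law fun v => ver m (x v))
    (reg : ∀ a ∈ En Λ, Mor x x (a * ·))
    (flat : ∀ N, ∃ d, N ≤ d ∧ finrank Ω ((crd fun v l => r (x v l)) ^ d :) =
      finrank ℂ ((crd fun v l => (x v l : ℂ)) ^ d :)) :
    ∃ (N : ℕ) (Y : Model r (Fin N) g), Y.Λ = Λ ∧ Gn.Law Y.p ∧
      ∃ (m : ℕ) (e : Fin N ≃ (Fin (m + 1) → σ)), Y.x = fun v k => ver (m + 1) (x v) (e k) := by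
  classical
  obtain ⟨m, law⟩ := law
  let e := (Fintype.equivFin (Fin (m + 1) → σ)).symm
  have he := e.surjective
  have hx' : ∀ v, ∃ k, IsUnit (ver (m + 1) (x v) (e k)) := fun v => by
    obtain ⟨l, hl⟩ := hx v
    obtain ⟨k, hk⟩ := he (ix m l l)
    exact ⟨k, by rw [hk, ver_ix]; exact hl.mul (hl.pow m)⟩
  have hol' : ∃ φ : (Fin g → ℂ) → _ → ℂ, Differentiable ℂ φ ∧
      (∀ v, Par (φ v) fun k => (ver (m + 1) (x v) (e k) : R)) ∧
      ∀ v w (c : ℂ), fderiv ℂ φ v w = c • φ v → w = 0 := by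
    obtain ⟨φ, h1, h2, h3⟩ := hol
    have h0 : ∀ v, φ v ≠ 0 := fun v h => by
      obtain ⟨c, hc, ec⟩ := h2 v
      obtain ⟨l, hl⟩ := hx v
      have := congrFun (h.symm.trans ec) l
      exact mul_ne_zero hc.ne_zero (fun h => hl.ne_zero (Subtype.ext h)) this.symm
    obtain ⟨h4, h5⟩ := hol_ver m h1 h0 h3
    obtain ⟨h6, h7⟩ := hol_idx he h4 h5
    refine ⟨_, h6, fun v => ?_, h7⟩
    exact (par_idx he).2 ((congrArg (Par _) (ver_map R.subtype (m + 1) (x v))).mpr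
      (par_ver (h2 v) (m + 1)))
  have ker' : ∀ v w, Par (fun k => ver (m + 1) (x v) (e k)) (fun k => ver (m + 1) (x w) (e k)) ↔
      v - w ∈ Λ := fun v w => (par_idx he).trans (Iff.trans
    ⟨fun h => (hx v).elim fun _ hl => par_of_ver hl h, fun h => par_ver h _⟩ (ker v w))
  have law' := law_idx he (law (m + 1) m.le_succ)
  have key : ∀ {K : Type} [Field K] (ρ : R →+* K),
      (crd fun v k => ρ (ver (m + 1) (x v) (e k))) = (crd fun v l => ρ (x v l)) ^ (m + 1) := by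
    intro K _ ρ
    rw [crd_idx he fun v s => ρ (ver (m + 1) (x v) s), ← crd_ver]
    exact congrArg crd (funext fun v => ver_map ρ _ _)
  obtain ⟨N, hN⟩ := flat_large _ _ flat
  obtain ⟨Y, h1, h2, h3⟩ := Fb.exists_model hr Λ lat riem cm (fun v k => ver (m + 1) (x v) (e k))
    hx' hol' ker' (Gn.av_model hx' hol'
      (fun v w => (Nrm.par_iff (hx' v) (hx' w)).trans (ker' v w)) law') law'
    (fun a ha => mor_idx he (mor_ver m hx (reg a ha)))
    (Fb.hp_eq_of_seq _ _ fun n => ⟨n + N, n.le_add_right N, by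
      have e2 : (crd fun v k => ((ver (m + 1) (x v) (e k) : R) : ℂ)) =
        (crd fun v l => (x v l : ℂ)) ^ (m + 1) := key R.subtype
      rw [key r, e2, ← pow_mul, ← pow_mul]
      exact hN _ (by nlinarith)⟩)
  exact ⟨_, Y, h1, h3, m, e, h2⟩

/-- a model from holomorphic coordinates with a law of bidegree (3,3) -/
theorem model_33 {Ω σ : Type} [Field Ω] [Infinite Ω] [Fintype σ] {R : ValuationSubring ℂ}
    {r : R →+* Ω} (hr : Surjective r) {g : ℕ} (Λ : Submodule ℤ (Fin g → ℂ)) [DiscreteTopology Λ]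
    (lat : IsZLattice ℝ Λ) (riem : Riem Λ) (cm : ∃ θ ∈ En Λ, Injective (Sum.elim θ (star θ)))
    {φ : (Fin g → ℂ) → σ → ℂ} {n : (Fin g → ℂ) → ℂ} {x : (Fin g → ℂ) → σ → R}
    (hN : Nrm.Nm φ n x) (hd : ∀ l, Differentiable ℂ fun v => φ v l)
    (imm : ∀ v w (c : ℂ), fderiv ℂ φ v w = c • φ v → w = 0)
    (ker : ∀ v w, Par (φ v) (φ w) ↔ v - w ∈ Λ)
    (quad : ∀ s t, R.valuation (n (s + t)) * R.valuation (n (s - t)) =
      R.valuation (n s) ^ 2 * R.valuation (n t) ^ 2)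
    (law : ∀ i j a b, (fun t : (Fin g → ℂ) × (Fin g → ℂ) =>
      φ (t.1 + t.2) i * φ (t.1 - t.2) j * (φ t.1 a * φ t.2 b)) ∈
        (crd fun t : (Fin g → ℂ) × (Fin g → ℂ) => φ t.1) ^ 3 * (crd fun t => φ t.2) ^ 3)
    (reg : ∀ a ∈ En Λ, Mor x x (a * ·))
    (flat : ∀ N, ∃ d, N ≤ d ∧ finrank Ω ((crd fun v l => r (x v l)) ^ d :) =
      finrank ℂ ((crd fun v l => (x v l : ℂ)) ^ d :)) :
    ∃ (N : ℕ) (Y : Model r (Fin N) g), Y.Λ = Λ ∧ Gn.Law Y.p ∧
      ∃ (m : ℕ) (e : Fin N ≃ (Fin (m + 1) → σ)), Y.x = fun v k => ver (m + 1) (x v) (e k) :=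
  model_ver hr Λ lat riem cm x hN.prim ⟨φ, differentiable_pi.2 hd, hN.par, imm⟩
    (fun v w => (hN.par_iff v w).trans (ker v w))
    (law22_of_33 hr hN (dm_of_diff hd) flat quad law) reg flat

end Pool.Agent.Tav.G3
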