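import Pool.Agent.P.MP_2ce3e7_ag.Tav.GrAsm
import Pool.Agent.P.MP_2ce3e7_ag.Tav.G3End
import Pool.Agent.P.MP_2ce3e7_ag.Tav.G3Law
import Pool.Agent.P.MP_2ce3e7_ag.Tav.G3Norm
import Pool.Agent.P.MP_2ce3e7_ag.Tav.G3VMod

/-! The model attached to a theta function of level nine with good reduction. -/

set_option autoImplicit false

open Complex Set Function

namespace Pool.Agent.Tav.G3

open Pool.Agent.Cmh
open Pool.Agent.Tav.GdEnd (sc en_sc)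

variable {g : ℕ} {M : Submodule ℤ (Fin g → ℂ)}

theorem riem_of_le (h : M ≤ du M) : Riem M := by
  refine ⟨Bim (Fin g), fun v => by simp [Bim_apply, Hm_self], fun l hl l' hl' => ?_,
    fun v w => ?_, fun v hv => ?_⟩
  · obtain ⟨k, hk⟩ := h hl l' hl'
    exact ⟨k, by rw [Bim_apply, hk]⟩
  · rw [Bim_apply, Bim_apply, Hm_smul_left, Hm_smul_right, ← mul_assoc]; simp
  · rw [Bim_apply, Hm_smul_left, Hm_self]
    simpa using lt_of_le_of_ne (nq_nonneg v) fun e => hv (nq_eq_zero e.symm)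

/-- ASM -/
theorem exists_model [Om (Fin g)] {Ω : Type} [Field Ω] [Infinite Ω] {R : ValuationSubring ℂ}
    {r : R →+* Ω} (hr : Surjective r) {f : (Fin g → ℂ) → ℂ} (h : Gf R.valuation M f)
    (cm : ∃ θ ∈ En M, Injective (Sum.elim θ (star θ)))
    (bal : ∀ a ∈ En M, ∃ d0 : ℕ, ∀ d ≥ d0, ∃ (n : ℕ) (b : Fin (n + 1) → Fin g → ℂ), b 0 = a ∧
      (∀ j, b j ∈ En M) ∧ ∀ i, ∑ j, b j i * star (b j i) = d) :
    ∃ (N : ℕ) (Y : Model r (Fin N) g), Y.Λ = sc 9 M ∧ En Y.Λ = En M ∧ Gn.Law Y.p := by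
  obtain ⟨N, η, hη⟩ := exists_Qt h.un.1
  obtain ⟨n, x, hN⟩ := Nrm.exists_nm R (φ := fun z l => U (η l) f z) fun z =>
    Function.ne_iff.2 (h.ne hη z)
  have D : Dat R M f η n x := ⟨h, hη.1, hη.2, hN, h.quad hη hN⟩
  have h9 : In (sc 9 M) := h.un.1.sc (by norm_num)
  have := h9.lat.1
  have e9 : En (sc 9 M) = En M := en_sc (by norm_num)
  obtain ⟨N', Y, h1, h2, -⟩ := model_33 hr (sc 9 M) h9.lat.zl (riem_of_le h9.le_du) (e9 ▸ cm) hN
    (fun l => U_diff _ h.mem.1) (h.emb hη).2 (h.emb hη).1 D.quad (h.lawC hη)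
    (fun a ha => by
      obtain ⟨d, hd⟩ := bal a (e9 ▸ ha)
      obtain ⟨m, b, rfl, hb, e⟩ := hd (9 ^ d) (Nat.lt_pow_self (by norm_num)).le
      refine D.reg (k := d) (fun w hw hv => h.ball ⟨hη.1, hη.2⟩ d hw hv) ⟨hb, ?_⟩ 0
      ext i
      rw [Finset.sum_apply]
      exact (e i).trans (by push_cast; rfl))
    fun K => ⟨9 ^ K, (Nat.lt_pow_self (by norm_num)).le,
      h.flat_pow ⟨hη.1, hη.2⟩ hN.eq hN.prim hN.ne hr surjective_id
        (fun t => ⟨1, isUnit_one, (one_smul _ _).symm⟩) K⟩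
  exact ⟨N', Y, h1, h1 ▸ e9, h2⟩

end Pool.Agent.Tav.G3
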