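import Pool.Agent.P.MP_2ce3e7_ag.Tav.G3Str

/-! The arithmetic endgame for cubic theta relations. -/

set_option autoImplicit false
set_option linter.unusedSectionVars false

open NumberField

namespace Pool.Agent.Tav.G3

open GR

variable {L Γ : Type*} [Field L] [NumberField L] [LinearOrderedCommGroupWithZero Γ]

/-- what the theta functions give -/
structure Ax (c : L ≃+* L) (om la : L) (D Λ : Submodule (𝓞 L) L) (good : ℕ → Prop) (p N : ℕ)
    (ν : L → Γ) : Prop where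
  hom : om ^ 2 + om + 1 = 0
  hla : la = om - om ^ 2
  cc : ∀ x, c (c x) = x
  im : ∃ de, de ≠ 0 ∧ c de = -de
  p0 : p ≠ 0
  g1 : ∀ n, n ≡ 1 [MOD p] → good n
  g3 : ∀ k, good (3 ^ k)
  le : Λ ≤ D
  o1 : (1 : L) ∈ Λ
  N0 : N ≠ 0
  hN : ∀ d ∈ D, IsIntegral ℤ (N * d)
  ne : ∀ x, ν x ≠ 0
  one : ν 0 = 1
  per : ∀ x k, 3 * k ∈ D → ν (x + k) = ν x
  par : ∀ x y, ν x ^ 3 * ν y ^ 3 ≤ ν (x + y) * ν (x + om * y) * ν (x + om ^ 2 * y)
  half : ∀ x, ∃ al, la ^ 3 * al ∈ D ∧ ν (la * x) ≤ ν (x + al) ^ 3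
  uni : ∀ (u : L) (n : ℕ), u * c u = 1 → good n → IsIntegral ℤ (n * u) →
    IsIntegral ℤ (n * c u) → ∀ a, ∃ k, 3 * k ∈ D ∧ ν (u * a) ≤ ν (a + c u * k)
  co : ∀ (b : L) (j K : ℕ), IsIntegral ℤ b → j < K →
    (∀ s, ν s = 1 → la ^ K * s ∈ D → b * s ∈ D) → ∀ y ∈ Λ, ν (c b * y / la ^ j) = 1

theorem intL_om {om : L} (h : om ^ 2 + om + 1 = 0) : IsIntegral ℤ om :=
  IsIntegral.of_pow (n := 3) (by norm_num) (by
    rw [show om ^ 3 = 1 by linear_combination (om - 1) * h]; exact isIntegral_one)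

theorem laL_sq {om la : L} (h : om ^ 2 + om + 1 = 0) (e : la = om - om ^ 2) : la ^ 2 = -3 := by
  rw [e]; linear_combination (om ^ 2 - 3 * om + 3) * h

theorem three_eq {a b c m : Γ} (hm : m ≠ 0) (ha : a ≤ m) (hb : b ≤ m) (hc : c ≤ m)
    (h : m ^ 3 ≤ a * b * c) : a = m := by
  refine ha.antisymm (le_of_mul_le_mul_right (a := m * m) ?_
    (zero_lt_iff.2 (mul_ne_zero hm hm)))
  calc m * (m * m) = m ^ 3 := by rw [pow_three]
    _ ≤ a * b * c := h
    _ ≤ a * m * m := mul_le_mul' (mul_le_mul' le_rfl hb) hc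
    _ = a * (m * m) := mul_assoc _ _ _

namespace Ax

variable {c : L ≃+* L} {om la : L} {D Λ : Submodule (𝓞 L) L} {good : ℕ → Prop} {p N : ℕ}
  {ν : L → Γ} (h : Ax c om la D Λ good p N ν)
include h

theorem d1 : (1 : L) ∈ D := h.le h.o1

theorem intD {a : L} (ha : IsIntegral ℤ a) : a ∈ D := by simpa using mulD ha h.d1

theorem pos (x : L) : 0 < ν x := zero_lt_iff.2 (h.ne x)

theorem io : IsIntegral ℤ om := intL_om h.hom

theorem il : IsIntegral ℤ la := h.hla ▸ h.io.sub (h.io.pow 2)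

theorem l2 : la ^ 2 = -3 := laL_sq h.hom h.hla

theorem l0 : la ≠ 0 := fun e => by
  have := h.l2
  rw [e] at this
  norm_num at this

theorem even (x : L) : ν (-x) = ν x := by
  have key : ∀ a, ν (-a) ≤ ν a := fun a => by
    obtain ⟨k, hk, hle⟩ := h.uni (-1) (3 ^ 0) (by simp) (h.g3 0)
      (by simpa using isIntegral_one.neg) (by simpa using isIntegral_one.neg) a
    rw [neg_one_mul, h.per a _ (by simpa using neg_mem hk)] at hle
    exact hle
  exact (key x).antisymm (by simpa using key (-x))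

theorem fin (x : L) {n : ℕ} (hn : n ≠ 0) : ((fun t => ν (x + t)) '' {t | n * t ∈ D}).Finite := by
  have hN : ((n * N : ℕ) : L) ≠ 0 := Nat.cast_ne_zero.2 (mul_ne_zero hn h.N0)
  have hN' : ((n * N : ℕ) : 𝓞 L) ≠ 0 := Nat.cast_ne_zero.2 (mul_ne_zero hn h.N0)
  have := Ideal.finiteQuotientOfFreeOfNeBot (Ideal.span {((n * N : ℕ) : 𝓞 L)})
    (fun e => hN' (Ideal.span_singleton_eq_bot.1 e))
  refine (Set.finite_range fun q : 𝓞 L ⧸ Ideal.span {((n * N : ℕ) : 𝓞 L)} =>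
    ν (x + (q.out : L) / (n * N : ℕ))).subset ?_
  rintro _ ⟨y, hy, rfl⟩
  obtain ⟨o, ho⟩ := exO (h.hN _ hy)
  obtain ⟨w, hw⟩ := Ideal.mem_span_singleton'.1 (Ideal.Quotient.eq.1
    (Ideal.Quotient.mk_out (Ideal.Quotient.mk (Ideal.span {((n * N : ℕ) : 𝓞 L)}) o)))
  refine ⟨Ideal.Quotient.mk _ o, ?_⟩
  have e := co_eq hw
  rw [co_mul, co_nat, co_sub, ho] at e
  show ν _ = ν _
  rw [← h.per (x + y) w (mulD int_three (h.intD w.isIntegral_coe)), add_assoc]
  congr 2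
  rw [div_eq_iff hN]
  push_cast at e ⊢
  linear_combination -e

theorem exists_n (x : L) : ∃ n : ℕ, n ≠ 0 ∧ n * x ∈ D := by
  obtain ⟨n, hn, hi⟩ := exists_den x
  exact ⟨n, hn, h.intD hi⟩

theorem mul_n {n : ℕ} {a t : L} (ha : IsIntegral ℤ a) (ht : n * t ∈ D) : n * (a * t) ∈ D := by
  rw [mul_left_comm]; exact mulD ha ht

theorem le_one (x : L) : ν x ≤ 1 := by
  obtain ⟨n, hn, hx⟩ := h.exists_n x
  obtain ⟨_, ⟨t, ht, rfl⟩, hm⟩ := Set.exists_max_image _ id (h.fin 0 hn) ⟨_, x, hx, rfl⟩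
  have hm' : ∀ y : L, n * y ∈ D → ν y ≤ ν t := fun y hy => by simpa using hm _ ⟨y, hy, rfl⟩
  have k : ∀ a, IsIntegral ℤ a → ν (t + a * t) ≤ ν t := fun a ha =>
    hm' _ (by rw [mul_add]; exact add_mem ht (h.mul_n ha ht))
  have h1 : ν t ^ 3 * ν t ^ 3 ≤ 1 * ν t ^ 3 := by
    rw [one_mul]
    refine (h.par t t).trans ?_
    rw [pow_three']
    exact mul_le_mul' (mul_le_mul' (by simpa using k 1 isIntegral_one) (k _ h.io))
      (k _ (h.io.pow 2))
  have h3 : ν t ^ 3 ≤ 1 := le_of_mul_le_mul_right h1 (pow_pos (h.pos _) _)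
  exact (hm' x hx).trans ((pow_le_one_iff (by norm_num)).1 h3)

theorem eq_one_iff {x : L} : ν x = 1 ↔ 1 ≤ ν x := ⟨fun e => e.ge, fun e => (h.le_one x).antisymm e⟩

theorem le_add (x y : L) : ν x ^ 3 * ν y ^ 3 ≤ ν (x + y) :=
  (h.par x y).trans ((mul_le_of_le_one_right' (h.le_one _)).trans
    (mul_le_of_le_one_right' (h.le_one _)))

/-- the subgroup where `ν = 1` -/
def S : AddSubgroup L where
  carrier := {x | ν x = 1}
  zero_mem' := h.one
  add_mem' := fun {x y} hx hy => h.eq_one_iff.2 (by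
    have := h.le_add x y
    rwa [show ν x = 1 from hx, show ν y = 1 from hy, one_pow, one_mul] at this)
  neg_mem' := fun {x} hx => (h.even x).trans hx

theorem inv (x : L) {y : L} (hy : ν y = 1) : ν (x + y) = ν x := by
  obtain ⟨n, hn, hx⟩ := h.exists_n y
  have om1 : ∀ s, ν s = 1 → ν (om * s) = 1 := fun s hs => by
    have := h.par 0 s
    rw [h.one, hs, one_pow, one_mul, zero_add, zero_add, zero_add, hs, one_mul] at this
    exact h.eq_one_iff.2 (this.trans (mul_le_of_le_one_right' (h.le_one _)))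
  obtain ⟨_, ⟨t, ⟨ht, hs⟩, rfl⟩, hm⟩ := Set.exists_max_image
    ((fun t => ν (x + t)) '' {t | n * t ∈ D ∧ t ∈ h.S}) id
    ((h.fin x hn).subset (Set.image_mono fun _ e => e.1)) ⟨_, 0, ⟨by simp, zero_mem _⟩, rfl⟩
  have hm' : ∀ s : L, n * s ∈ D → s ∈ h.S → ν (x + t + s) ≤ ν (x + t) := fun s h1 h2 => by
    rw [add_assoc]
    exact hm _ ⟨t + s, ⟨by rw [mul_add]; exact add_mem ht h1, add_mem hs h2⟩, rfl⟩
  have key : ∀ s : L, n * s ∈ D → s ∈ h.S → ν (x + s) = ν (x + t) := fun s h1 h2 => by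
    have a1 : n * (s - t) ∈ D := by rw [mul_sub]; exact sub_mem h1 ht
    have a2 : ν (s - t) = 1 := sub_mem h2 hs
    have a3 := h.par (x + t) (s - t)
    rw [a2, one_pow, mul_one] at a3
    have := three_eq (h.ne _) (hm' _ a1 a2) (hm' _ (h.mul_n h.io a1) (om1 _ a2))
      (hm' _ (h.mul_n (h.io.pow 2) a1) (by rw [sq, mul_assoc]; exact om1 _ (om1 _ a2))) a3
    rwa [add_add_sub_cancel] at this
  rw [key y hx hy, ← key 0 (by simp) (zero_mem _), add_zero]

theorem half9 (x : L) : ∃ al, 9 * al ∈ D ∧ ν (3 * x) ≤ ν (x + al) ^ 9 := by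
  obtain ⟨a1, h1, h2⟩ := h.half (la * x)
  obtain ⟨a2, h3, h4⟩ := h.half (x + a1 / la)
  have l4 : la ^ 4 = 9 := by rw [show 4 = 2 * 2 from rfl, pow_mul, h.l2]; norm_num
  have l0 := h.l0
  refine ⟨a1 / la + a2, ?_, ?_⟩
  · have := add_mem h1 (mulD h.il h3)
    rwa [show la ^ 3 * a1 + la * (la ^ 3 * a2) = 9 * (a1 / la + a2) by
      rw [← l4]; field_simp] at this
  · rw [← h.even, show -(3 * x) = la * (la * x) by linear_combination (-x) * h.l2, ← add_assoc,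
      show 9 = 3 * 3 from rfl, pow_mul]
    refine h2.trans (pow_le_pow_left' (le_of_eq_of_le ?_ h4) 3)
    rw [mul_add, mul_div_cancel₀ _ l0]

theorem co3 (b : L) (j K : ℕ) (hb : IsIntegral ℤ b) (hj : j < K)
    (hs : ∀ s, ν s = 1 → 3 ^ K * s ∈ D → b * s ∈ D) : ν (c b * 1 / 3 ^ j) = 1 := by
  have e : ∀ m : ℕ, (3 : L) ^ m = (-1) ^ m * la ^ (2 * m) := fun m => by
    rw [pow_mul, h.l2, ← mul_pow]; norm_num
  have i1 : ∀ m : ℕ, IsIntegral ℤ ((-1 : L) ^ m) := fun m => isIntegral_one.neg.pow m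
  have := h.co b (2 * j) (2 * K) hb (by omega) (fun s h1 h2 => hs s h1 (by
    rw [e, mul_assoc]; exact mulD (i1 K) h2)) _ (mulD (i1 j) h.o1)
  rwa [show c b * ((-1) ^ j * 1) / la ^ (2 * j) = c b * 1 / 3 ^ j by
    have l0 := h.l0
    rw [e j]
    rcases neg_one_pow_eq_or L j with q | q <;> rw [q] <;> field_simp] at this

theorem bound {μ : Γ} (h1 : μ ≤ 1) (hμ : ∀ y, 9 * y ∈ D → μ ≤ ν y) (y : L) : μ ^ 5 ≤ ν y := by
  have step : ∀ y, ν (3 * y) * μ ^ 9 ≤ ν y ^ 3 := fun y => by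
    obtain ⟨al, g1, g2⟩ := h.half9 y
    have h3 := h.le_add (y + al) (-al)
    rw [add_neg_cancel_right] at h3
    have h4 : μ ≤ ν (-al) := hμ _ (by simpa using neg_mem g1)
    calc ν (3 * y) * μ ^ 9 ≤ ν (y + al) ^ 9 * ν (-al) ^ 9 := mul_le_mul' g2 (pow_le_pow_left' h4 9)
      _ = (ν (y + al) ^ 3 * ν (-al) ^ 3) ^ 3 := by rw [mul_pow, ← pow_mul, ← pow_mul]
      _ ≤ _ := pow_le_pow_left' h3 3
  obtain ⟨n, hn, hx⟩ := h.exists_n y
  obtain ⟨_, ⟨t, ht, rfl⟩, hm⟩ := Set.exists_min_image _ id (h.fin 0 hn) ⟨_, y, hx, rfl⟩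
  have hm' : ∀ y : L, n * y ∈ D → ν t ≤ ν y := fun y hy => by simpa using hm _ ⟨y, hy, rfl⟩
  have h2 : ν t * μ ^ 9 ≤ ν t * ν t ^ 2 := by
    rw [← pow_succ']
    exact (mul_le_mul_left (hm' _ (h.mul_n int_three ht)) _).trans (step t)
  have h3 : (μ ^ 5) ^ 2 ≤ ν t ^ 2 := by
    rw [← pow_mul]
    exact (pow_le_pow_right_of_le_one' h1 (by norm_num)).trans
      (le_of_mul_le_mul_left h2 (h.pos _))
  exact (le_of_pow_le_pow_left₀ two_ne_zero zero_le h3).trans (hm' y hx)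

theorem hS {k : L} (hk : 3 * k ∈ D) : k ∈ h.S := by
  have := h.per 0 k hk
  rwa [zero_add, h.one] at this

theorem dS {d : L} (hd : d ∈ D) : d ∈ h.S := h.hS (mulD int_three hd)

theorem natS (n : ℕ) {s : L} (hs : s ∈ h.S) : n * s ∈ h.S := by
  rw [← nsmul_eq_mul]; exact nsmul_mem hs n

/-- the elements that keep `S` up to a denominator -/
def F : Subalgebra ℚ L where
  carrier := {x | ∃ m : ℕ, m ≠ 0 ∧ ∀ s ∈ h.S, m * x * s ∈ h.S}
  mul_mem' := by
    rintro x y ⟨m, hm, hx⟩ ⟨n, hn, hy⟩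
    refine ⟨m * n, mul_ne_zero hm hn, fun s hs => ?_⟩
    have := hx _ (hy s hs)
    rwa [show (m : L) * x * (n * y * s) = (m * n : ℕ) * (x * y) * s by push_cast; ring] at this
  add_mem' := by
    rintro x y ⟨m, hm, hx⟩ ⟨n, hn, hy⟩
    refine ⟨m * n, mul_ne_zero hm hn, fun s hs => ?_⟩
    have := add_mem (h.natS n (hx s hs)) (h.natS m (hy s hs))
    rwa [show (n : L) * (m * x * s) + m * (n * y * s) = (m * n : ℕ) * (x + y) * s by
      push_cast; ring] at this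
  algebraMap_mem' := fun q => ⟨q.den, q.den_nz, fun s hs => by
    have e : (q.den : L) * algebraMap ℚ L q = q.num := by
      rw [eq_ratCast]; exact_mod_cast Rat.den_mul_eq_num q
    rw [e, ← zsmul_eq_mul]; exact zsmul_mem hs _⟩

theorem inv_F {x : L} (hx : x ∈ h.F) : x⁻¹ ∈ h.F :=
  h.F.inv_mem_of_algebraic (x := ⟨x, hx⟩) (Algebra.IsAlgebraic.isAlgebraic _)

theorem im_F {d : L} (hd : IsIntegral ℤ d) (hc : c d = -d) : d ∈ h.F := by
  have hp : (p : L) ≠ 0 := Nat.cast_ne_zero.2 h.p0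
  have c1 : c (1 + p * d) = 1 + p * -d := by simp [hc]
  have c2 : c (1 + p * -d) = 1 + p * d := by simp [hc]
  have n1 : 1 + p * d ≠ 0 := fun e => by
    have e2 := c1
    rw [e, map_zero] at e2
    exact two_ne_zero (α := L) (by linear_combination e - e2)
  have n2 : 1 + p * -d ≠ 0 := fun e => n1 (by rw [← c2, e, map_zero])
  obtain ⟨n, hn, m1, i1⟩ := exists_one_mod h.p0 hd rfl n1
  obtain ⟨n', hn', m2, i2⟩ := exists_one_mod h.p0 hd.neg rfl n2
  have j1 : IsIntegral ℤ (1 + p * d) := isIntegral_one.add ((int_nat _).mul hd)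
  have j2 : IsIntegral ℤ (1 + p * -d) := isIntegral_one.add ((int_nat _).mul hd.neg)
  set u := (1 + p * d) / (1 + p * -d) with hu
  have cu : c u = (1 + p * -d) / (1 + p * d) := by rw [hu, map_div₀, c1, c2]
  have uu : c u * u = 1 := by rw [cu, hu, div_mul_div_cancel₀ n1, div_self n2]
  have k1 : IsIntegral ℤ ((n * n' : ℕ) * u) := by
    rw [show ((n * n' : ℕ) : L) * u = n * (1 + p * d) * (n' / (1 + p * -d)) by
      rw [hu]; push_cast; ring]
    exact ((int_nat _).mul j1).mul i2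
  have k2 : IsIntegral ℤ ((n * n' : ℕ) * c u) := by
    rw [show ((n * n' : ℕ) : L) * c u = n' * (1 + p * -d) * (n / (1 + p * d)) by
      rw [cu]; push_cast; ring]
    exact ((int_nat _).mul j2).mul i1
  have uF : u ∈ h.F := ⟨3 * (n * n'), by positivity, fun s hs => by
    obtain ⟨k, hk, hle⟩ := h.uni (c u) (n * n') (by rw [h.cc, uu]) (h.g1 _ (by simpa using m1.mul m2))
      k2 (by rwa [h.cc]) (u * s)
    rw [← mul_assoc, uu, one_mul, h.cc, show ν s = 1 from hs] at hle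
    have := sub_mem (h.natS (3 * (n * n')) (h.eq_one_iff.2 hle)) (h.dS (mulD k1 hk))
    rwa [show ((3 * (n * n') : ℕ) : L) * (u * s + u * k) - (n * n' : ℕ) * u * (3 * k) =
      (3 * (n * n') : ℕ) * u * s by push_cast; ring] at this⟩
  have e : d = (u - 1) * (u + 1)⁻¹ * (p : L)⁻¹ := by
    have e1 : u + 1 = 2 / (1 + p * -d) := by rw [hu, div_add_one n2]; congr 1; ring
    have e2 : u - 1 = 2 * p * d / (1 + p * -d) := by rw [hu, div_sub_one n2]; congr 1; ring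
    rw [e1, e2]
    generalize 1 + (p : L) * -d = z at n2
    field_simp
  rw [e]
  exact mul_mem (mul_mem (sub_mem uF (one_mem _)) (h.inv_F (add_mem uF (one_mem _))))
    (h.inv_F (natCast_mem _ _))

theorem mem_F (x : L) : x ∈ h.F := by
  have im : ∀ d, c d = -d → d ∈ h.F := fun d hc => by
    obtain ⟨n, hn, hi⟩ := exists_den d
    have hn' : (n : L) ≠ 0 := Nat.cast_ne_zero.2 hn
    have := mul_mem (h.inv_F (natCast_mem _ n)) (h.im_F hi (by simp [hc]))
    rwa [inv_mul_cancel_left₀ hn'] at this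
  obtain ⟨de, h0, hc⟩ := h.im
  have h1 := im ((x + c x) * de) (by rw [map_mul, map_add, h.cc, hc]; ring)
  have h2 := im (x - c x) (by rw [map_sub, h.cc]; ring)
  have := mul_mem (add_mem (mul_mem h1 (h.inv_F (im de hc))) h2) (h.inv_F (natCast_mem _ 2))
  rwa [show ((x + c x) * de * de⁻¹ + (x - c x)) * ((2 : ℕ) : L)⁻¹ = x by
    push_cast; field_simp; ring] at this

/-- three times the `3`-primary part of `S`, plus `D` -/
def T0 : AddSubgroup L where
  carrier := {t | ∃ s ∈ h.S, (∃ K : ℕ, 3 ^ K * s ∈ D) ∧ t - 3 * s ∈ D}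
  zero_mem' := ⟨0, zero_mem _, ⟨0, by simp⟩, by simp⟩
  add_mem' := by
    rintro t t' ⟨s, hs, ⟨K, hK⟩, ht⟩ ⟨s', hs', ⟨K', hK'⟩, ht'⟩
    refine ⟨s + s', add_mem hs hs', ⟨K + K', ?_⟩, ?_⟩
    · have := add_mem (mulD (int_three.pow K') hK) (mulD (int_three.pow K) hK')
      rwa [show (3 : L) ^ K' * (3 ^ K * s) + 3 ^ K * (3 ^ K' * s') = 3 ^ (K + K') * (s + s') by
        ring] at this
    · have := add_mem ht ht'
      rwa [show t - 3 * s + (t' - 3 * s') = t + t' - 3 * (s + s') by ring] at this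
  neg_mem' := by
    rintro t ⟨s, hs, ⟨K, hK⟩, ht⟩
    refine ⟨-s, neg_mem hs, ⟨K, by simpa using neg_mem hK⟩, ?_⟩
    have := neg_mem ht
    rwa [show -(t - 3 * s) = -t - 3 * -s by ring] at this

theorem two_T0 {s : L} (hs : s ∈ h.S) {K : ℕ} (hK : 3 ^ K * s ∈ D) : 3 * s ∈ h.T0 :=
  ⟨s, hs, ⟨K, hK⟩, by simp⟩

theorem D_T0 {d : L} (hd : d ∈ D) : d ∈ h.T0 := ⟨0, zero_mem _, ⟨0, by simp⟩, by simpa using hd⟩

theorem T0_S {t : L} (ht : t ∈ h.T0) : t ∈ h.S := by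
  obtain ⟨s, hs, -, h1⟩ := ht
  simpa using add_mem (h.dS h1) (h.natS 3 hs)

theorem T0_den {t : L} (ht : t ∈ h.T0) : ∃ K : ℕ, 3 ^ K * t ∈ D := by
  obtain ⟨s, -, ⟨K, hK⟩, h1⟩ := ht
  refine ⟨K, ?_⟩
  have := add_mem (mulD (int_three.pow K) h1) (mulD int_three hK)
  rwa [show (3 : L) ^ K * (t - 3 * s) + 3 * (3 ^ K * s) = 3 ^ K * t by ring] at this

theorem T0_two {t : L} (ht : t ∈ h.T0) : ∃ t' ∈ h.T0, t - 3 * t' ∈ D := by
  obtain ⟨s, hs, ⟨K, hK⟩, h1⟩ := ht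
  obtain ⟨al, h2, h3⟩ := h.half9 (s / 3)
  rw [mul_div_cancel₀ _ three_ne_zero, show ν s = 1 from hs, one_le_pow_iff (by norm_num)] at h3
  refine ⟨3 * (s / 3 + al), h.two_T0 (h.eq_one_iff.2 h3) (K := K + 2) ?_, ?_⟩
  · have := add_mem (mulD int_three hK) (mulD (int_three.pow K) h2)
    rwa [show 3 * (3 ^ K * s) + (3 : L) ^ K * (9 * al) = 3 ^ (K + 2) * (s / 3 + al) by
      ring] at this
  · have := sub_mem h1 h2
    rwa [show t - 3 * s - 9 * al = t - 3 * (3 * (s / 3 + al)) by ring] at this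

theorem T0_div (m : ℕ) (hm : m ≠ 0) : ∀ t ∈ h.T0, ∃ t' ∈ h.T0, t - m * t' ∈ D := by
  induction m using Nat.strong_induction_on with
  | _ m ih =>
    intro t ht
    by_cases ho : 3 ∣ m
    · obtain ⟨k, rfl⟩ := ho
      obtain ⟨t1, h1, h2⟩ := h.T0_two ht
      obtain ⟨t2, h3, h4⟩ := ih k (by omega) (by omega) t1 h1
      refine ⟨t2, h3, ?_⟩
      have := add_mem h2 (mulD int_three h4)
      rwa [show t - 3 * t1 + 3 * (t1 - k * t2) = t - (3 * k : ℕ) * t2 by push_cast; ring] at this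
    · obtain ⟨K, hK⟩ := h.T0_den ht
      obtain ⟨a, b, e⟩ : IsCoprime (m : ℤ) (3 ^ K) :=
        (Nat.isCoprime_iff_coprime.2
          ((Nat.prime_three.coprime_iff_not_dvd.2 ho).symm)).pow_right
      have e' : (a : L) * m + b * 3 ^ K = 1 := by exact_mod_cast e
      refine ⟨a * t, by rw [← zsmul_eq_mul]; exact zsmul_mem ht a, ?_⟩
      have := mulD (int_int b) hK
      rwa [show (b : L) * (3 ^ K * t) = t - m * (a * t) by linear_combination t * e'] at this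

theorem mul_T0 {a t : L} (ha : IsIntegral ℤ a) (ht : t ∈ h.T0) : a * t ∈ h.T0 := by
  obtain ⟨m, hm, hx⟩ := h.mem_F a
  obtain ⟨t', h1, h2⟩ := h.T0_div (3 * m) (by positivity) t ht
  obtain ⟨K, hK⟩ := h.T0_den h1
  refine ⟨m * a * t', hx _ (h.T0_S h1), ⟨K, ?_⟩, ?_⟩
  · have := mulD ((int_nat m).mul ha) hK
    rwa [show (m : L) * a * (3 ^ K * t') = 3 ^ K * (m * a * t') by ring] at this
  · have := mulD ha h2
    rwa [show a * (t - (3 * m : ℕ) * t') = a * t - 3 * (m * a * t') by push_cast; ring] at this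

/-- the quotient of `T0` by `D` in the sense of fractional ideals -/
def M0 : Submodule (𝓞 L) L where
  carrier := {x | ∀ d ∈ D, x * d ∈ h.T0}
  zero_mem' := fun d _ => by simp
  add_mem' := fun {x y} hx hy d hd => by rw [add_mul]; exact add_mem (hx d hd) (hy d hd)
  smul_mem' := fun r x hx d hd => by
    rw [Algebra.smul_def, mul_assoc]; exact h.mul_T0 r.isIntegral_coe (hx d hd)

theorem structure_S : ∃ (k : ℕ) (π β : 𝓞 L), k ≠ 0 ∧ π * β = 3 ^ k ∧ IsCoprime π β ∧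
    (∀ (m : ℕ), ∀ d ∈ D, d / (β : L) ^ m ∈ h.S) ∧
    ∀ (K : ℕ), ∀ s ∈ h.S, 3 ^ K * s ∈ D → 3 * (β : L) ^ K * s ∈ D := by
  have inM : ∀ t ∈ h.T0, ∀ a : L, (∀ e ∈ D, IsIntegral ℤ (a * e)) → a * t ∈ h.M0 :=
    fun t ht a ha d hd => by
      rw [mul_right_comm]; exact h.mul_T0 (ha d hd) ht
  obtain ⟨k, π, β, h1, h2, h3, h4, h5⟩ := struct3 h.M0 (fun d hd => by simpa using h.D_T0 hd)
    fun x hx => by
      have := pou h.d1 h.N0 h.hN (fun z => ∃ t ∈ h.M0, IsIntegral ℤ (x * z - 3 * t))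
        (by
          rintro z z' ⟨t, ht, hi⟩ ⟨t', ht', hi'⟩
          refine ⟨t + t', add_mem ht ht', ?_⟩
          have := hi.add hi'
          rwa [show x * z - 3 * t + (x * z' - 3 * t') = x * (z + z') - 3 * (t + t') by ring] at this)
        fun d hd a ha => by
          obtain ⟨t, ht, he⟩ := h.T0_two (hx d hd)
          refine ⟨a * t, inM t ht a ha, ?_⟩
          have := ha _ he
          rwa [show a * (x * d - 3 * t) = x * (d * a) - 3 * (a * t) by ring] at this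
      simpa using this
  refine ⟨k, π, β, h1, h2, h3, fun m d hd => h.T0_S ?_, fun K s hs hK => ?_⟩
  · simpa [div_eq_inv_mul] using h4 m d hd
  · have := pou h.d1 h.N0 h.hN (fun z => 3 * (β : L) ^ K * s * z ∈ D)
      (fun z z' hz hz' => by rw [mul_add]; exact add_mem hz hz') fun d hd a ha => by
        have h6 := h5 K _ (inM _ (h.two_T0 hs hK) a ha) (by
          have := ha _ (mulD int_three hK)
          rwa [show a * (3 * (3 ^ K * s)) = 3 ^ K * (a * (3 * s)) by ring] at this)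
        have := mulD h6 hd
        rwa [show (β : L) ^ K * (a * (3 * s)) * d = 3 * (β : L) ^ K * s * (d * a) by ring] at this
    simpa using this

/-- good reduction in tropical form -/
theorem eq_one (y : L) : ν y = 1 := by
  obtain ⟨k, π, β, k0, hk, cop, hβ, hK⟩ := h.structure_S
  have hL : (π : L) * β = 3 ^ k := by simpa only [co_mul, co_three, co_pow] using co_eq hk
  have π0 : (π : L) ≠ 0 := fun e => by rw [e, zero_mul] at hL; exact pow_ne_zero _ three_ne_zero hL.symm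
  have β0 : (β : L) ≠ 0 := fun e => by rw [e, mul_zero] at hL; exact pow_ne_zero _ three_ne_zero hL.symm
  obtain ⟨s, n, hn, hN⟩ := Nat.exists_eq_pow_mul_and_not_dvd h.N0 3 (by norm_num)
  let co : 𝓞 L →+* 𝓞 L := (RingOfIntegers.mapRingEquiv c).toRingHom
  have hco : ∀ a, (co a : L) = c a := fun _ => rfl
  have cc : ∀ a, co (co a) = a := fun a => RingOfIntegers.ext (by rw [hco, hco, h.cc])
  have h1 := h.co3 (3 * (β : L) ^ (s + 4)) (s + 3) (s + 4) (int_three.mul (β.isIntegral_coe.pow _))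
    (by omega) (fun t ht => hK _ t ht)
  have h2 := h.hN _ (hK (s + 3) _ h1 (by
    rw [mul_div_cancel₀ _ (pow_ne_zero _ three_ne_zero), mul_one]
    exact h.intD (int_c c (int_three.mul (β.isIntegral_coe.pow _)))))
  obtain ⟨o, ho⟩ := exO h2
  have h3 : (3 : 𝓞 L) ∣ n * (β ^ (s + 3) * co β ^ (s + 4)) := ⟨o, RingOfIntegers.ext (by
    simp only [co_nat, hco, ho, hN, map_mul, map_pow, map_ofNat]
    push_cast; field_simp; ring)⟩
  have h4 : IsCoprime (3 : 𝓞 L) n := by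
    simpa using (Nat.isCoprime_iff_coprime.2 (Nat.prime_three.coprime_iff_not_dvd.2 hn)).map
      (Int.castRingHom (𝓞 L))
  have h5 := pow_dvd_pow_of_dvd (h4.dvd_of_dvd_mul_left h3) k
  rw [← hk, mul_pow, ← pow_mul, ← pow_mul] at h5
  have h6 : π ∣ co β ^ ((s + 4) * k) :=
    cop.pow_right.dvd_of_dvd_mul_left ((Dvd.intro _ rfl).trans h5)
  have h7 : co π ∣ β ^ ((s + 4) * k) := by simpa [cc] using map_dvd co h6
  have h8 : IsCoprime (co π) π := (cop.pow_right.of_isCoprime_of_dvd_right h7).symm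
  have h9 : co π * co β = π * β := by rw [← map_mul, hk, map_pow, map_ofNat]
  obtain ⟨e, he⟩ : co π ∣ β := h8.dvd_of_dvd_mul_left ⟨_, h9.symm⟩
  have he' : (β : L) = c π * e := by simpa only [co_mul, hco] using co_eq he
  have h9' : c π * c β = 3 ^ k := by simpa only [co_mul, hco, hL] using co_eq h9
  have cπ : c (π : L) ≠ 0 := by simpa using π0
  set u := (c π / π : L) ^ 2 with hu
  have cu : c u = (π / c π : L) ^ 2 := by rw [hu, map_pow, map_div₀, h.cc]
  have small : ∀ al, 9 * al ∈ D → c u * al ∈ h.S := fun al hal => by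
    obtain ⟨k', rfl⟩ := Nat.exists_eq_succ_of_ne_zero k0
    have := hβ 4 _ (mulD ((e.isIntegral_coe.mul (int_three.pow k')).pow 2) hal)
    rwa [show ((e : L) * 3 ^ k') ^ 2 * (9 * al) / (β : L) ^ 4 = c u * al by
      have e0 : (π : L) = 3 ^ k'.succ / β := by rw [← hL]; field_simp
      have e1 : (e : L) = β / c π := by rw [he']; field_simp
      rw [cu, e1]
      generalize c (π : L) = z at cπ
      rw [e0, Nat.succ_eq_add_one]
      field_simp
      ring] at this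
  have uu : u * c u = 1 := by rw [cu, hu]; field_simp
  have dbl : ∀ a, ν (3 * (u * a)) ≤ ν a ^ 9 := fun a => by
    obtain ⟨al, g1, g2⟩ := h.half9 (u * a)
    obtain ⟨κ, g3, g4⟩ := h.uni u (3 ^ (2 * k)) uu (h.g3 _)
      (by
        rw [show ((3 ^ (2 * k) : ℕ) : L) * u = (β * c π) ^ 2 by
          push_cast; rw [hu, pow_mul', ← hL]; field_simp]
        exact (β.isIntegral_coe.mul (int_c c π.isIntegral_coe)).pow 2)
      (by
        rw [show ((3 ^ (2 * k) : ℕ) : L) * c u = (c β * π) ^ 2 by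
          push_cast; rw [cu, pow_mul', ← h9']; field_simp]
        exact ((int_c c β.isIntegral_coe).mul π.isIntegral_coe).pow 2) (a + c u * al)
    rw [mul_add, ← mul_assoc, uu, one_mul, h.inv _ (small κ (by
      have := mulD int_three g3
      rwa [← mul_assoc, show (3 : L) * 3 = 9 by norm_num] at this)),
      h.inv _ (small al g1)] at g4
    exact g2.trans (pow_le_pow_left' g4 9)
  obtain ⟨_, ⟨y0, hy0, rfl⟩, hμ⟩ :=
    Set.exists_min_image _ id (h.fin 0 (n := 9) (by norm_num)) ⟨_, 0, by simp, rfl⟩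
  have hμ' : ∀ y, 9 * y ∈ D → ν y0 ≤ ν y := fun y hy => by
    simpa using hμ _ ⟨y, by simpa using hy, rfl⟩
  have h10 : 1 * ν y0 ^ 5 ≤ ν y0 ^ 4 * ν y0 ^ 5 := by
    rw [one_mul, ← pow_add]
    exact (h.bound (h.le_one _) hμ' _).trans (dbl y0)
  have h11 : 1 ≤ ν y0 ^ 4 := le_of_mul_le_mul_right h10 (pow_pos (h.pos _) _)
  have h12 : 1 ≤ ν y0 := (one_le_pow_iff (by norm_num)).1 h11
  exact h.eq_one_iff.2 ((one_le_pow_of_one_le' h12 5).trans (h.bound (h.le_one _) hμ' y))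

end Ax

end Pool.Agent.Tav.G3
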