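import Pool.Agent.P.MP_2ce3e7_ag.Tav.GrHad

/-! Theta functions with the canonical semicharacter of a lattice over the Eisenstein integers. -/

set_option autoImplicit false

open Complex Matrix
open scoped Real ComplexConjugate

namespace Pool.Agent.Tav.G3

open Pool.Agent.Cmh Pool.Agent.Tav.Gd

noncomputable section

/-- a primitive cube root of unity in every coordinate -/
class Om (ι : Type*) where
  om : ι → ℂ
  eq : ∀ i, om i ^ 2 + om i + 1 = 0

export Om (om)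

instance omSigma {κ : Type*} {ι : κ → Type*} [∀ k, Om (ι k)] : Om (Σ k, ι k) :=
  ⟨fun s => om s.2, fun s => Om.eq s.2⟩

section Alg

variable {ι : Type*} [Om ι]

/-- the square root of `-3` -/
def la : ι → ℂ := om - om * om

lemma la_apply (i : ι) : la i = om i - om i * om i := rfl

lemma om_eq : (om * om + om + 1 : ι → ℂ) = 0 := funext fun i => by
  have := Om.eq i
  simp only [Pi.add_apply, Pi.mul_apply, Pi.one_apply, Pi.zero_apply]
  linear_combination this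

lemma om_cube (i : ι) : om i * om i * om i = 1 := by
  linear_combination (om i - 1) * Om.eq i

lemma om_ne (i : ι) : om i ≠ 0 := fun e => by simpa [e] using Om.eq i

lemma conj_om (i : ι) : conj (om i) = om i * om i := by
  have h := om_cube i
  have h1 : ‖om i‖ ^ 3 = 1 := by
    have := congrArg norm h
    rwa [norm_mul, norm_mul, norm_one, ← sq, ← pow_succ] at this
  have h2 : ‖om i‖ = 1 := (pow_eq_one_iff_of_nonneg (norm_nonneg _) three_ne_zero).1 h1
  have h3 : om i * conj (om i) = 1 := by rw [mul_conj, normSq_eq_norm_sq, h2]; simp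
  linear_combination (om i * om i) * h3 - conj (om i) * h

lemma la_sq (i : ι) : la i * la i = -3 := by
  rw [la_apply]
  linear_combination (om i * om i - 3 * om i + 3) * Om.eq i

lemma la_ne (i : ι) : la i ≠ 0 := fun e => by simpa [e] using la_sq i

lemma conj_la (i : ι) : conj (la i) = -la i := by
  rw [la_apply, map_sub, map_mul, conj_om]
  linear_combination (-om i) * om_cube i

lemma la_la (x : ι → ℂ) : la * (la * x) = -(3 • x) := funext fun i => by
  rw [Pi.mul_apply, Pi.mul_apply, Pi.neg_apply, Pi.smul_apply, nsmul_eq_mul, Nat.cast_ofNat]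
  linear_combination x i * la_sq i

/-- stable under the cube root of unity -/
def St (M : Submodule ℤ (ι → ℂ)) : Prop := ∀ x ∈ M, om * x ∈ M

lemma St.la {M : Submodule ℤ (ι → ℂ)} (h : St M) {x : ι → ℂ} (hx : x ∈ M) : la * x ∈ M := by
  rw [G3.la, sub_mul, mul_assoc]
  exact sub_mem (h _ hx) (h _ (h _ hx))

lemma St.QQ {M : Submodule ℤ (ι → ℂ)} (h : St M) : St (QQ M) := fun _ ⟨k, hk, hx⟩ =>
  ⟨k, hk, by rw [← mul_smul_comm]; exact h _ hx⟩

lemma St.dv {M : Submodule ℤ (ι → ℂ)} (h : St M) (n : ℕ) : St (dv n M) := fun x hx => by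
  rw [mem_dv, ← mul_smul_comm]; exact h _ hx

lemma St.inf {M N : Submodule ℤ (ι → ℂ)} (h : St M) (h' : St N) : St (M ⊓ N) := fun x hx =>
  ⟨h x hx.1, h' x hx.2⟩

end Alg

variable {ι : Type*} [Fintype ι] [Om ι] {M M' : Submodule ℤ (ι → ℂ)} {f : (ι → ℂ) → ℂ}

lemma Hm_om (x y : ι → ℂ) : Hm (om * x) y = Hm x (om * (om * y)) := by
  simp only [Hm, Pi.mul_apply, map_mul, conj_om]
  exact Finset.sum_congr rfl fun i _ => by
    linear_combination (-(om i * x i * conj (y i))) * om_cube i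

lemma Hm_om' (x y : ι → ℂ) : Hm x (om * y) = -Hm x y - Hm (om * x) y := by
  simp only [Hm, Pi.mul_apply, map_mul, conj_om, ← Finset.sum_neg_distrib,
    ← Finset.sum_sub_distrib]
  exact Finset.sum_congr rfl fun i _ => by linear_combination (x i * conj (y i)) * Om.eq i

lemma Hm_la (x y : ι → ℂ) : Hm (la * x) y = -Hm x (la * y) := by
  simp only [Hm, Pi.mul_apply, map_mul, conj_la, ← Finset.sum_neg_distrib]
  exact Finset.sum_congr rfl fun i _ => by ring

lemma St.du (h : St M) : St (du M) := fun x hx m hm => by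
  rw [Hm_om]; exact hx _ (h _ (h _ hm))

/-- the canonical semicharacter -/
def chi (x : ι → ℂ) : ℂ := ph (om * x) x

lemma chi_ne (x : ι → ℂ) : chi x ≠ 0 := ph_ne _ _

lemma chi_zero : chi (0 : ι → ℂ) = 1 := by simp [chi, ph_self]

lemma chi_neg (x : ι → ℂ) : chi (-x) = chi x := by
  rw [chi, chi, mul_neg, ph, ph, Hm_neg_left, Hm_neg_right, neg_neg]

lemma chi_add (x y : ι → ℂ) :
    chi (x + y) = chi x * chi y * (ph x y * (ph (om * x) y * ph (om * x) y)) := by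
  have h : ph (om * y) x = ph x y * ph (om * x) y := by
    rw [ph, ph, ph, Hm_im_swap x (om * y), Hm_om', ← Complex.exp_add]
    congr 1
    simp only [sub_im, neg_im]
    push_cast; ring
  rw [chi, mul_add, ph_add_left, ph_add_right, ph_add_right, h, chi, chi]
  ring

lemma chi_smul (c : ℝ) (x : ι → ℂ) :
    chi (c • x) = cexp (c ^ 2 * (π * I * (Hm (om * x) x).im)) := by
  rw [chi, mul_smul_comm, ph, Hm_rsmul_left, Hm_rsmul_right, ← mul_assoc, ← ofReal_mul,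
    im_ofReal_mul]
  congr 1
  push_cast; ring

lemma chi_nsmul (n : ℕ) (x : ι → ℂ) : chi (n • x) = chi x ^ (n ^ 2) := by
  rw [← Nat.cast_smul_eq_nsmul ℝ, chi_smul, chi, ph, ← Complex.exp_nat_mul]
  push_cast; rfl

/-- theta functions with the canonical semicharacter -/
def Tc (M : Submodule ℤ (ι → ℂ)) : Submodule ℂ ((ι → ℂ) → ℂ) where
  carrier := {f | Differentiable ℂ f ∧ ∀ m ∈ M, U m f = chi m • f}
  zero_mem' := ⟨differentiable_const 0, fun m _ => by simp⟩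
  add_mem' := by
    rintro f g ⟨hf, h1⟩ ⟨hg, h2⟩
    exact ⟨hf.add hg, fun m hm => by rw [map_add, h1 m hm, h2 m hm, smul_add]⟩
  smul_mem' := by
    rintro c f ⟨hf, h1⟩
    exact ⟨hf.const_smul c, fun m hm => by rw [map_smul, h1 m hm, smul_comm]⟩

/-- an integral lattice over the Eisenstein integers -/
structure In (M : Submodule ℤ (ι → ℂ)) : Prop where
  lat : IsLat M
  le_du : M ≤ du M
  st : St M

lemma In.mono (h : In M) (h1 : IsLat M') (h2 : M' ≤ M) (h3 : St M') : In M' :=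
  ⟨h1, h2.trans (h.le_du.trans (du_anti h2)), h3⟩

lemma In.com_du (h : In M) : Com M (du M) := h.lat.du.com_of_le h.lat h.le_du

lemma In.du_le_QQ (h : In M) (hc : Com M M') : du M' ≤ QQ M := by
  rw [h.com_du.QQ, hc.du.QQ]; exact le_QQ

lemma In.chi_sq (h : In M) {m : ι → ℂ} (hm : m ∈ M) : chi m * chi m = 1 := by
  obtain ⟨k, hk⟩ := h.le_du (h.st m hm) m hm
  exact ph_sq_int hk

lemma Tc_mono (h : M' ≤ M) : Tc M ≤ Tc M' := fun _ hf => ⟨hf.1, fun m hm => hf.2 m (h hm)⟩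

lemma U_mem_Tc {v : ι → ℂ} (hv : v ∈ du M) (hf : f ∈ Tc M) : U v f ∈ Tc M := by
  refine ⟨U_diff v hf.1, fun m hm => ?_⟩
  obtain ⟨k, hk⟩ := hv m hm
  rw [← U_comm_int hk, hf.2 m hm, map_smul]

lemma U_add_mem (hf : f ∈ Tc M) (x : ι → ℂ) {m : ι → ℂ} (hm : m ∈ M) :
    U (x + m) f = (ph x m * chi m) • U x f := by
  rw [U_add, hf.2 m hm, map_smul, smul_smul, ph]

/-- a matrix that commutes with the cube roots of unity -/
def Cm {κ : Type*} [Fintype κ] [Om κ] (A : Matrix ι κ ℂ) : Prop :=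
  ∀ x, A *ᵥ (om * x) = om * (A *ᵥ x)

lemma chi_uni {κ : Type*} [Fintype κ] [Om κ] [DecidableEq ι] [DecidableEq κ] {A : Matrix ι κ ℂ}
    (hA : IsUni A) (hc : Cm A) (x : κ → ℂ) : chi (A *ᵥ x) = chi x := by
  rw [chi, ← hc, ph, hA.hm, chi, ph]

lemma Cm.ct {κ : Type*} [Fintype κ] [Om κ] [DecidableEq ι] [DecidableEq κ] {A : Matrix ι κ ℂ}
    (hA : IsUni A) (hc : Cm A) : Cm Aᴴ := fun x => by
  rw [← hA.mulVec_ct x, ← hc, hA.ct_mulVec, hA.ct_mulVec]

lemma pb_mem_Tc {κ : Type*} [Fintype κ] [Om κ] [DecidableEq ι] [DecidableEq κ]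
    {A : Matrix ι κ ℂ} (hA : IsUni A) (hc : Cm A) {N : Submodule ℤ (κ → ℂ)}
    (h : ∀ x ∈ N, A *ᵥ x ∈ M) (hf : f ∈ Tc M) : pb A f ∈ Tc N :=
  ⟨pb_diff A hf.1, fun m hm => by rw [U_pb hA, hf.2 _ (h m hm), map_smul, chi_uni hA hc]⟩

section Val

variable {Γ : Type*} [LinearOrderedCommGroupWithZero Γ] (v : Valuation ℂ Γ)

lemma val_ph (hM : In M) {x y : ι → ℂ} (hx : x ∈ QQ M) (hy : y ∈ QQ M) : v (ph x y) = 1 := by
  obtain ⟨a, ha, hx⟩ := hx
  obtain ⟨b, hb, hy⟩ := hy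
  obtain ⟨k, hk⟩ := hM.le_du hx _ hy
  refine val_ph_rat v (mul_ne_zero ha hb) (k := k) ?_
  rw [Hm_nsmul_left, Hm_nsmul_right] at hk
  simp only [mul_im, natCast_re, natCast_im, zero_mul, add_zero] at hk
  push_cast; linarith

lemma val_chi (hM : In M) {x : ι → ℂ} (hx : x ∈ QQ M) : v (chi x) = 1 :=
  val_ph v hM (hM.st.QQ x hx) hx

/-- an integral lattice whose index in the dual lattice is a unit -/
def Un (M : Submodule ℤ (ι → ℂ)) : Prop := In M ∧ ∃ n : ℕ, v n = 1 ∧ ∀ x ∈ du M, n • x ∈ M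

variable {v}

lemma val_UU (hM : In M) {x y : ι → ℂ} (hx : x ∈ QQ M) (hy : y ∈ QQ M) (f : (ι → ℂ) → ℂ)
    (z : ι → ℂ) : v (U x (U y f) z) = v (U (x + y) f z) := by
  rw [U_U', Pi.smul_apply, smul_eq_mul, map_mul, val_ph v hM hy hx, one_mul]

lemma val_per (hM : In M) (hf : f ∈ Tc M) {x m : ι → ℂ} (hx : x ∈ QQ M)
    (hm : m ∈ M) (z : ι → ℂ) : v (U (x + m) f z) = v (U x f z) := by
  rw [U_add_mem hf x hm, Pi.smul_apply, smul_eq_mul, map_mul, map_mul,
    val_ph v hM hx (le_QQ hm), val_chi v hM (le_QQ hm), one_mul, one_mul]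

lemma Un.exists_n (h : Un v M) : ∃ n : ℕ, n ≠ 0 ∧ ∀ x ∈ du M, n • x ∈ M := by
  obtain ⟨n, hn, h⟩ := h.2
  exact ⟨n, fun e => by simp [e] at hn, h⟩

lemma Un.dv_QQ (h : Un v M) {k : ℕ} (hk : k ≠ 0) : dv k (du M) ≤ QQ M := fun x hx => by
  obtain ⟨n, hn, h⟩ := h.exists_n
  exact ⟨n * k, mul_ne_zero hn hk, by rw [mul_smul]; exact h _ hx⟩

lemma Un.lat_dv (h : Un v M) {k : ℕ} (hk : k ≠ 0) : IsLat (dv k (du M)) := by
  obtain ⟨n, hn, h'⟩ := h.exists_n
  exact isLat_of h.1.lat (h.1.le_du.trans (le_dv k)) (mul_ne_zero hn hk) fun y hy => by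
    rw [mul_smul]; exact h' _ hy

/-- a theta function with good reduction -/
structure Gf (v : Valuation ℂ Γ) (Λ : Submodule ℤ (ι → ℂ)) (f : (ι → ℂ) → ℂ) : Prop where
  un : Un v Λ
  three : v 3 = 1
  mem : f ∈ Tc Λ
  le : ∀ a ∈ QQ Λ, v (U a f 0) ≤ 1
  one : ∀ a ∈ QQ Λ, ∃ κ, 3 • κ ∈ du Λ ∧ v (U (a + κ) f 0) = 1

end Val

section Prod

variable {κ : Type*} [Fintype κ] {ι : κ → Type*} [∀ k, Fintype (ι k)] [∀ k, Om (ι k)]
  {M : ∀ k, Submodule ℤ (ι k → ℂ)} {f : ∀ k, (ι k → ℂ) → ℂ}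

omit [Fintype κ] [∀ k, Fintype (ι k)] in
lemma cp_om (z : (Σ k, ι k) → ℂ) (k : κ) : cp (om * z) k = om * cp z k := rfl

omit [Fintype κ] [∀ k, Fintype (ι k)] in
lemma cp_la (z : (Σ k, ι k) → ℂ) (k : κ) : cp (la * z) k = la * cp z k := rfl

lemma chi_cp (z : (Σ k, ι k) → ℂ) : chi z = ∏ k, chi (cp z k) := by
  simp only [chi, ph, ← Complex.exp_sum]
  rw [Hm_cp, im_sum, ofReal_sum, Finset.mul_sum]
  rfl

lemma tp_mem (hf : ∀ k, f k ∈ Tc (M k)) : tp f ∈ Tc (pl M) :=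
  ⟨tp_diff fun k => (hf k).1, fun m hm => by
    rw [U_tp, chi_cp]
    funext z
    simp only [tp, (hf _).2 _ (hm _), Pi.smul_apply, smul_eq_mul, Finset.prod_mul_distrib]⟩

lemma in_pl (hM : ∀ k, In (M k)) : In (pl M) :=
  ⟨isLat_pl fun k => (hM k).lat, fun x hx => by rw [du_pl]; exact fun k => (hM k).le_du (hx k),
    fun x hx k => (hM k).st _ (hx k)⟩

variable {Γ : Type*} [LinearOrderedCommGroupWithZero Γ] {v : Valuation ℂ Γ}

lemma un_pl (hM : ∀ k, Un v (M k)) : Un v (pl M) := by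
  classical
  refine ⟨in_pl fun k => (hM k).1, ?_⟩
  choose n hn h using fun k => (hM k).2
  refine ⟨∏ k, n k, by simp [hn], fun x hx k => ?_⟩
  rw [du_pl] at hx
  rw [← Finset.prod_erase_mul _ _ (Finset.mem_univ k)]
  rw [mul_smul]
  exact nsmul_mem (h k _ (hx k)) _

theorem Gf.tp (h3 : v 3 = 1) (h : ∀ k, Gf v (M k) (f k)) : Gf v (pl M) (tp f) := by
  refine ⟨un_pl fun k => (h k).un, h3, tp_mem fun k => (h k).mem, fun a ha => ?_, fun a ha => ?_⟩
  · rw [U_tp, Gd.tp, map_prod]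
    exact Finset.prod_le_one' fun k _ => (h k).le _ (mem_QQ_pl.1 ha k)
  · choose κ h1 h3 using fun k => (h k).one _ (mem_QQ_pl.1 ha k)
    refine ⟨mkv κ, by rw [du_pl]; exact h1, ?_⟩
    rw [U_tp, Gd.tp, map_prod]
    exact Finset.prod_eq_one fun k _ => h3 k

end Prod

end

end Pool.Agent.Tav.G3
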