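import Mathlib

/-! A Galois CM field with conjugation outside the decomposition group. -/

set_option autoImplicit false

namespace Pool.Agent.Tav.Glue

open Polynomial

/-- on the complex roots of `P`, conjugation is the polynomial `f` -/
def Cj (P f : ℚ[X]) : Prop := ∀ w : ℂ, aeval w P = 0 → star w = aeval w f

lemma Cj.root {P f : ℚ[X]} (_h : Cj P f) {w : ℂ} (hw : aeval w P = 0) : aeval (star w) P = 0 := by
  have := aeval_algHom_apply (Complex.conjAe.toAlgHom.restrictScalars ℚ) w P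
  rw [hw, map_zero] at this
  exact this

lemma cj_quad {p : ℕ} (hp : p ≠ 0) : Cj (X ^ 2 - X + C (p : ℚ)) (1 - X) := by
  intro w hw
  simp only [map_add, map_sub, map_pow, aeval_X, map_natCast, map_one] at hw ⊢
  have h1 := congrArg Complex.re hw
  have h2 := congrArg Complex.im hw
  simp [sq] at h1 h2
  have h3 : (1 : ℝ) ≤ p := by exact_mod_cast Nat.pos_of_ne_zero hp
  have h4 : w.im ≠ 0 := fun h => by
    rw [h] at h1
    nlinarith [sq_nonneg (w.re - 1 / 2)]
  have h5 : w.re = 1 / 2 := by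
    apply mul_left_cancel₀ h4
    linarith
  apply Complex.ext <;> simp [h5]
  norm_num

/-- Weil numbers -/
lemma cj_of_norm {P : ℚ[X]} {q : ℚ} (h0 : P.coeff 0 ≠ 0)
    (h : ∀ w : ℂ, aeval w P = 0 → w * star w = q) : ∃ f, Cj P f := by
  refine ⟨C (-q / P.coeff 0) * P.divX, fun w hw => ?_⟩
  have h1 := congrArg (aeval w) (X_mul_divX_add P)
  rw [hw] at h1
  simp only [map_add, map_mul, aeval_X, aeval_C, eq_ratCast] at h1 ⊢
  have h2 : ((P.coeff 0 : ℚ) : ℂ) ≠ 0 := by exact_mod_cast h0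
  have h3 := h w hw
  push_cast
  field_simp
  linear_combination star w * h1 - aeval w P.divX * h3

theorem exists_L (R : ValuationSubring ℂ) {p : ℕ} (hp : p ≠ 0) (hR : R.valuation p < 1)
    {ι : Type} [Fintype ι] (P f : ι → ℚ[X]) (hP : ∀ i, P i ≠ 0) (hf : ∀ i, Cj (P i) (f i)) :
    ∃ (L : IntermediateField ℚ ℂ) (_ : FiniteDimensional ℚ L) (_ : IsGalois ℚ L) (c : Gal(L/ℚ)),
      (∀ z, (c z : ℂ) = star (z : ℂ)) ∧ (∀ s, s * c = c * s) ∧
      (∃ z : L, (z : ℂ) ∈ R ∧ (c z : ℂ) ∉ R) ∧ ∀ i w, aeval w (P i) = 0 → w ∈ L := by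
  let P' : Option ι → ℚ[X] := fun o => o.elim (X ^ 2 - X + C (p : ℚ)) P
  let f' : Option ι → ℚ[X] := fun o => o.elim (1 - X) f
  have hq : (X ^ 2 - X + C (p : ℚ) : ℚ[X]) ≠ 0 := fun h => by
    have := congrArg (eval 0) h
    simp [hp] at this
  have hP' : ∀ o, P' o ≠ 0 := by
    rintro (_ | i)
    exacts [hq, hP i]
  have hf' : ∀ o, Cj (P' o) (f' o) := by
    rintro (_ | i)
    exacts [cj_quad hp, hf i]
  let Q : ℚ[X] := ∏ o, P' o
  have hQ : Q ≠ 0 := Finset.prod_ne_zero_iff.2 fun o _ => hP' o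
  have hr : ∀ w : ℂ, w ∈ Q.rootSet ℂ ↔ ∃ o, aeval w (P' o) = 0 := fun w => by
    rw [mem_rootSet_of_ne hQ, map_prod, Finset.prod_eq_zero_iff]
    simp
  let L : IntermediateField ℚ ℂ := IntermediateField.adjoin ℚ (Q.rootSet ℂ)
  have hs : Q.IsSplittingField ℚ L :=
    IntermediateField.adjoin_rootSet_isSplittingField (IsAlgClosed.splits _)
  have hfin : FiniteDimensional ℚ L := IsSplittingField.finiteDimensional L Q
  have hN : Normal ℚ L := Normal.of_isSplittingField Q
  have hG : IsGalois ℚ L := ⟨⟩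
  have hL : ∀ o w, aeval w (P' o) = 0 → w ∈ L := fun o w h =>
    IntermediateField.subset_adjoin _ _ ((hr w).2 ⟨o, h⟩)
  let c : Gal(L/ℚ) := (Complex.conjAe.restrictScalars ℚ).restrictNormal L
  have hc : ∀ z, (c z : ℂ) = star (z : ℂ) := fun z =>
    AlgEquiv.restrictNormal_commutes (Complex.conjAe.restrictScalars ℚ) L z
  refine ⟨L, hfin, hG, c, hc, fun s => ?_, ?_, fun i => hL (some i)⟩
  · have key : ∀ (o : Option ι) (z : L), aeval (z : ℂ) (P' o) = 0 → c z = aeval z (f' o) :=
      fun o z h => Subtype.ext (by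
        rw [hc, hf' o _ h]
        exact aeval_algHom_apply L.val z (f' o))
    apply AlgEquiv.coe_toAlgHom_injective
    refine IntermediateField.algHom_ext_of_eq_adjoin ℚ rfl fun w hw => ?_
    obtain ⟨o, ho⟩ := (hr w).1 hw
    have h1 : aeval (⟨w, hL o w ho⟩ : L) (P' o) = 0 :=
      Subtype.ext ((aeval_algHom_apply L.val (⟨w, hL o w ho⟩ : L) (P' o)).symm.trans ho)
    have h2 : aeval ((s ⟨w, hL o w ho⟩ : L) : ℂ) (P' o) = 0 := by
      refine (aeval_algHom_apply L.val (s ⟨w, hL o w ho⟩) (P' o)).trans ?_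
      rw [aeval_algHom_apply s, h1, map_zero, map_zero]
    show s (c ⟨w, hL o w ho⟩) = c (s ⟨w, hL o w ho⟩)
    rw [key o _ ho, key o _ h2, aeval_algHom_apply s]
  · obtain ⟨a, ha⟩ := IsAlgClosed.exists_aeval_eq_zero ℂ (X ^ 2 - X + C (p : ℚ)) (by
      have : (X ^ 2 - X + C (p : ℚ) : ℚ[X]).degree = 2 := by compute_degree!
      rw [this]
      norm_num)
    have hb := (cj_quad hp).root ha
    have h1 : star a = 1 - a := by simpa using cj_quad hp a ha
    have h2 : a * star a = p := by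
      rw [h1]
      simp only [map_add, map_sub, map_pow, aeval_X, map_natCast] at ha
      linear_combination -ha
    have key : ∀ a : ℂ, a ∈ L → a * star a = p → a + star a = 1 → R.valuation a < 1 →
        ∃ z : L, (z : ℂ) ∈ R ∧ (c z : ℂ) ∉ R := by
      intro a haL h2 h1 h
      have ha0 : a ≠ 0 := fun h0 => hp (by
        rw [h0, zero_mul] at h2
        exact_mod_cast h2.symm)
      have h3 : R.valuation (star a) = 1 := by
        rw [show star a = 1 - a by linear_combination h1]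
        exact Valuation.map_one_sub_of_lt _ h
      refine ⟨c ⟨a, haL⟩⁻¹, ?_, ?_⟩
      · rw [hc, ← R.valuation_le_one_iff]
        simp only [IntermediateField.coe_inv, star_inv₀, map_inv₀, h3, inv_one, le_refl]
      · rw [hc, hc, star_star, ← R.valuation_le_one_iff, IntermediateField.coe_inv, map_inv₀,
          inv_le_one₀ (zero_lt_iff.2 ((Valuation.ne_zero_iff _).2 ha0)), not_le]
        exact h
    by_cases h : R.valuation a < 1
    · exact key a (hL none a ha) h2 (by rw [h1]; ring) h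
    · refine key (star a) (hL none _ hb) (by rw [star_star, mul_comm, h2])
        (by rw [star_star, h1]; ring) (lt_of_not_ge fun k => ?_)
      have := mul_le_mul' (not_lt.1 h) k
      rw [mul_one, ← map_mul, h2] at this
      exact hR.not_ge this

end Pool.Agent.Tav.Glue
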