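import Pool.Agent.P.MP_2ce3e7_ag.Tav.EnR
import Pool.Agent.P.MP_2ce3e7_ag.Tav.GrGlue

/-! The field of eigenvalues of a lattice with complex multiplication. -/

set_option autoImplicit false

namespace Pool.Agent.Tav.Glue

open Polynomial Function

variable {g : ℕ} {Λ : Submodule ℤ (Fin g → ℂ)} [DiscreteTopology Λ] [IsZLattice ℝ Λ]
  {θ : Fin g → ℂ}

/-- every diagonal endomorphism is a rational polynomial of small degree in `θ` -/
theorem exists_poly (hθ : θ ∈ En Λ) (hi : Injective (Sum.elim θ (star θ))) {a : Fin g → ℂ}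
    (ha : a ∈ En Λ) : ∃ f : ℚ[X], f.degree < (g + g : ℕ) ∧ ∀ i, a i = aeval (θ i) f := by
  obtain ⟨hf, hle⟩ := EnR.finite_le Λ
  have hn : ¬ LinearIndependent ℤ fun o : Option (Fin (g + g)) =>
      o.elim (⟨a, ha⟩ : EnR Λ) fun k => (⟨θ, hθ⟩ : EnR Λ) ^ (k : ℕ) := fun h => by
    have := h.fintype_card_le_finrank
    rw [Fintype.card_option, Fintype.card_fin] at this
    omega
  obtain ⟨c, hc, o, ho⟩ := Fintype.not_linearIndependent_iff.1 hn
  rw [Fintype.sum_option] at hc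
  have h1 : ∀ ρ, (c none : ℂ) * Sum.elim a (star a) ρ +
      ∑ k : Fin (g + g), (c (some k) : ℂ) * Sum.elim θ (star θ) ρ ^ (k : ℕ) = 0 := fun ρ => by
    have := congrArg (chE Λ ρ) hc
    simp only [map_add, map_sum, map_zero, map_zsmul, map_pow, Option.elim] at this
    simpa only [zsmul_eq_mul, chE_eq] using this
  have h0 : c none ≠ 0 := fun h => by
    have := Matrix.eq_zero_of_forall_index_sum_mul_pow_eq_zero (v := fun k => (c (some k) : ℂ))
      (hi.comp finSumFinEquiv.symm.injective) fun j => by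
        simpa [h] using h1 (finSumFinEquiv.symm j)
    rcases o with _ | k
    · exact ho h
    · exact ho (Int.cast_eq_zero.1 (congrFun this k : (c (some k) : ℂ) = 0))
  refine ⟨∑ k : Fin (g + g), C (-(c (some k) : ℚ) / c none) * X ^ (k : ℕ), degree_sum_fin_lt _,
    fun i => ?_⟩
  have h2 : (c none : ℂ) ≠ 0 := by exact_mod_cast h0
  have h3 := h1 (.inl i)
  apply mul_left_cancel₀ h2
  rw [eq_neg_of_add_eq_zero_left (show (c none : ℂ) * a i + _ = 0 from h3), map_sum,
    Finset.mul_sum, ← Finset.sum_neg_distrib]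
  refine Finset.sum_congr rfl fun k _ => ?_
  simp only [map_mul, aeval_C, aeval_X_pow, eq_ratCast, Sum.elim_inl]
  push_cast
  field_simp

omit [DiscreteTopology Λ] [IsZLattice ℝ Λ] in
lemma aeval_star (w : ℂ) (f : ℚ[X]) : aeval (star w) f = star (aeval w f) :=
  aeval_algHom_apply (Complex.conjAe.toAlgHom.restrictScalars ℚ) w f

/-- the characteristic polynomial of `θ` -/
theorem exists_char (hθ : θ ∈ En Λ) (hi : Injective (Sum.elim θ (star θ))) :
    ∃ P : ℚ[X], P ≠ 0 ∧ ∀ w : ℂ, aeval w P = 0 ↔ w ∈ Set.range (Sum.elim θ (star θ)) := by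
  classical
  obtain ⟨f, hf, h⟩ := exists_poly hθ hi (a := θ ^ (g + g)) (pow_mem (S := EnR Λ) hθ _)
  have hm : (X ^ (g + g) - f).Monic := monic_X_pow_sub hf
  have hd : (X ^ (g + g) - f).natDegree = g + g := natDegree_eq_of_degree_eq_some (by
    rw [degree_sub_eq_left_of_degree_lt (by rwa [degree_X_pow]), degree_X_pow])
  have h1 : ∀ ρ, aeval (Sum.elim θ (star θ) ρ) (X ^ (g + g) - f) = 0 := by
    have h2 : ∀ i, aeval (θ i) (X ^ (g + g) - f) = 0 := fun i => by
      rw [map_sub, aeval_X_pow, ← h i, Pi.pow_apply, sub_self]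
    rintro (i | i)
    · exact h2 i
    · exact (aeval_star _ _).trans (by rw [h2, star_zero])
  refine ⟨_, hm.ne_zero, fun w => ⟨fun hw => ?_, by rintro ⟨ρ, rfl⟩; exact h1 ρ⟩⟩
  by_contra hn
  have h2 := card_le_degree_of_subset_roots (p := (X ^ (g + g) - f).map (algebraMap ℚ ℂ))
    (Z := insert w (Finset.univ.image (Sum.elim θ (star θ)))) fun x hx => by
      rw [mem_roots (hm.map _).ne_zero, IsRoot, eval_map_algebraMap]
      rcases Finset.mem_insert.1 (Finset.mem_def.2 hx) with rfl | hx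
      · exact hw
      · obtain ⟨ρ, -, rfl⟩ := Finset.mem_image.1 hx
        exact h1 ρ
  rw [Finset.card_insert_of_notMem (by simpa using hn), Finset.card_image_of_injective _ hi,
    hm.natDegree_map, hd] at h2
  simp at h2

/-- the head of `Model.Full` -/
theorem head (hθ : θ ∈ En Λ) (hi : Injective (Sum.elim θ (star θ))) {n : ℕ} (hn : n ≠ 0)
    (hs : n • star θ ∈ En Λ) (R : ValuationSubring ℂ) {p : ℕ} (hp : p ≠ 0)
    (hR : R.valuation p < 1) :
    ∃ (L : IntermediateField ℚ ℂ) (_ : FiniteDimensional ℚ L) (_ : IsGalois ℚ L) (c : Gal(L/ℚ)),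
      (∀ z, (c z : ℂ) = star (z : ℂ)) ∧ (∀ s, s * c = c * s) ∧
      (∃ z : L, (z : ℂ) ∈ R ∧ (c z : ℂ) ∉ R) ∧ ∀ a ∈ En Λ, ∀ i, a i ∈ L := by
  obtain ⟨P, hP, h⟩ := exists_char hθ hi
  obtain ⟨f, -, hf⟩ := exists_poly hθ hi hs
  have h0 : (n : ℂ) ≠ 0 := by exact_mod_cast hn
  have h1 : ∀ i, star (θ i) = aeval (θ i) (C (n : ℚ)⁻¹ * f) := fun i => by
    rw [map_mul, ← hf, aeval_C]
    simp [h0]
  obtain ⟨L, i1, i2, c, hc, hcen, hz, hL⟩ := exists_L R hp hR (fun _ : Unit => P)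
    (fun _ => C (n : ℚ)⁻¹ * f) (fun _ => hP) fun _ w hw => by
      obtain ⟨i | i, rfl⟩ := (h w).1 hw
      · exact h1 i
      · exact (congrArg star (h1 i)).trans (aeval_star _ _).symm
  refine ⟨L, i1, i2, c, hc, hcen, hz, fun a ha i => ?_⟩
  obtain ⟨f', -, hf'⟩ := exists_poly hθ hi ha
  rw [hf', show θ i = L.val ⟨θ i, hL () _ ((h _).2 ⟨.inl i, rfl⟩)⟩ from rfl, aeval_algHom_apply]
  exact Subtype.property _

end Pool.Agent.Tav.Glue
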