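import Pool.Agent.P.MP_2ce3e7_ag.Tav.GrLat
import Pool.Agent.P.MP_2ce3e7_ag.Tav.GrHead

/-! Integral lattices of a CM type whose index in the dual lattice is prime to `p`, any `p`. -/

set_option autoImplicit false

open NumberField

namespace Pool.Agent.Tav.G3

open Pool.Agent.Cmh Pool.Agent.Tav.Lt

variable {E : Type} [Field E] [NumberField E] [IsCMField E]

/-- the data of one CM type, the form is not doubled -/
structure One {Γ : Type*} [LinearOrderedCommGroupWithZero Γ] (v : Valuation ℂ Γ)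
    (Φ : Finset (E →+* ℂ)) where
  ρ : Φ → ℝ
  Lam : Submodule (𝓞 E) E
  D : Submodule (𝓞 E) E
  N : ℕ
  Λ : Submodule ℤ (Φ → ℂ)
  pos : ∀ φ, 0 < ρ φ
  one : 1 ∈ Lam
  int : ∀ x, IsIntegral ℤ x → x ∈ Lam
  le : Lam ≤ D
  hN : N ≠ 0
  den : ∀ x ∈ D, IsIntegral ℤ (N * x)
  lat : IsLat Λ
  le_du : Λ ≤ du Λ
  idx : ∃ n : ℕ, v n = 1 ∧ ∀ x ∈ du Λ, n • x ∈ Λ
  mem : ∀ z, z ∈ Λ ↔ ∃ x ∈ Lam, z = fun φ => ρ φ * φ.1 x
  mem_du : ∀ z, z ∈ du Λ ↔ ∃ x ∈ D, z = fun φ => ρ φ * φ.1 x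
  mem_QQ : ∀ z, z ∈ QQ Λ ↔ ∃ x : E, z = fun φ => ρ φ * φ.1 x

omit [NumberField E] [IsCMField E] in
/-- the lattice is stable under the integers -/
lemma One.mul_mem {Γ : Type*} [LinearOrderedCommGroupWithZero Γ] {v : Valuation ℂ Γ}
    {Φ : Finset (E →+* ℂ)} (X : One v Φ) {a : E} (ha : IsIntegral ℤ a) {z : Φ → ℂ}
    (hz : z ∈ X.Λ) : (fun φ : Φ => φ.1 a) * z ∈ X.Λ := by
  obtain ⟨x, hx, rfl⟩ := (X.mem z).1 hz
  refine (X.mem _).2 ⟨a * x, X.Lam.smul_mem (⟨a, ha⟩ : 𝓞 E) hx, ?_⟩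
  ext φ
  simp [mul_left_comm]

lemma isLat_rx {ι κ : Type} [Fintype ι] [Fintype κ] (e : κ ≃ ι) {M : Submodule ℤ (ι → ℂ)}
    (hM : IsLat M) : IsLat (rx e M) := by
  obtain ⟨_, _, A, hA, h⟩ := rx_eq e
  rw [h]
  exact hM.mp_uni hA

theorem exists_one [IsGalois ℚ E] {Γ : Type*} [LinearOrderedCommGroupWithZero Γ]
    (v : Valuation ℂ Γ) {p : ℕ} (hp : p.Prime) (hv : v p < 1) (j : E →+* ℂ)
    (hz : ∃ z, v (j z) ≤ 1 ∧ ¬ v (j (star z)) ≤ 1) {Φ : Finset (E →+* ℂ)}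
    (hΦ : ∀ ψ, ψ ∈ Φ ↔ ComplexEmbedding.conjugate ψ ∉ Φ) : Nonempty (One v Φ) := by
  obtain ⟨δ, i1, s1, n1, h1⟩ := cm_exists_delta hΦ
  have hd : Sk fun _ : Unit => δ := fun _ => ⟨s1, n1⟩
  obtain ⟨M, m1, m2, m3, m4, n, hn, m5⟩ := lat_alg hd (fun _ => i1) hp
    (exists_eps (v.comap j) hp (by simpa using hv)
      (c := (IsCMField.complexConj E).restrictScalars ℚ)
      (AlgEquiv.ext fun x => IsCMField.complexConj_apply_apply E x)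
      (fun s => AlgEquiv.ext fun x => j.injective
        ((map_star_emb (j.comp (s : E →+* E)) x).trans (map_star_emb j (s x)).symm)) hz)
  have hφ := isFrame_type hΦ
  obtain ⟨N, hN, m6, -⟩ := m2.trDu hd
  have he : ∀ x : Unit → E, emb (fun ψ : Φ => ψ.1) (fun _ => δ) x ∘ (Equiv.prodPUnit Φ).symm =
      fun φ => (rt (fun ψ : Φ => ψ.1) (fun _ => δ) (φ, ()) : ℝ) * φ.1 (x ()) := fun x => by
    ext φ
    have := (h1 φ.1).2.1 φ.2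
    exact (emb_eq_ty _ _ _).trans (by rw [ty, if_pos (by simpa using this)]; rfl)
  have key : ∀ (M' : Submodule ℤ (Unit → E)) (z : Φ → ℂ),
      z ∈ rx (Equiv.prodPUnit Φ).symm (embL (fun ψ : Φ => ψ.1) (fun _ => δ) M') ↔
      ∃ x : E, (fun _ => x) ∈ M' ∧
        z = fun φ => (rt (fun ψ : Φ => ψ.1) (fun _ => δ) (φ, ()) : ℝ) * φ.1 x := fun M' z =>
    ⟨by
      rintro ⟨_, ⟨x, hx, rfl⟩, rfl⟩
      exact ⟨x (), hx, he x⟩, by
      rintro ⟨x, hx, rfl⟩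
      exact ⟨_, ⟨_, hx, rfl⟩, he _⟩⟩
  have hdu : ∀ z, z ∈ du (rx (Equiv.prodPUnit Φ).symm (embL (fun ψ : Φ => ψ.1) (fun _ => δ) M)) ↔
      ∃ x : E, (fun _ => x) ∈ trDu (fun _ : Unit => δ) M ∧
        z = fun φ => (rt (fun ψ : Φ => ψ.1) (fun _ => δ) (φ, ()) : ℝ) * φ.1 x := fun z => by
    rw [du_rx, du_embL hφ hd m2]
    exact key _ z
  refine ⟨⟨fun φ => rt (fun ψ : Φ => ψ.1) (fun _ => δ) (φ, ()), toO M m3,
    toO _ (trDu_mul (dl := fun _ => δ) m3), N, _, fun φ => hd.rt_pos _,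
    m1 fun _ => isIntegral_one, fun x hx => m1 fun _ => hx, fun x hx => m4 hx, hN,
    fun x hx => ?_, isLat_rx (Equiv.prodPUnit Φ).symm (isLat_embL hφ hd m2), fun z hz => ?_,
    ⟨n, val_nat hp hv hn, fun z hz => ?_⟩, key M, hdu, fun z => ?_⟩⟩
  · simpa using m6 _ hx ()
  · obtain ⟨x, hx, rfl⟩ := (key M z).1 hz
    exact (hdu _).2 ⟨x, m4 hx, rfl⟩
  · obtain ⟨x, hx, rfl⟩ := (hdu z).1 hz
    refine (key M _).2 ⟨n • x, m5 _ hx, ?_⟩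
    ext φ
    simp [mul_left_comm]
  · rw [QQ_rx, QQ_embL _ _ m2, LinearMap.range_eq_map]
    exact (key ⊤ z).trans (by simp)

/-- LAT in the terms of `Model.Full` -/
theorem exists_one_L (L : IntermediateField ℚ ℂ) [FiniteDimensional ℚ L] [IsGalois ℚ L]
    {c : Gal(L/ℚ)} (hc : ∀ z, (c z : ℂ) = star (z : ℂ)) (hcen : ∀ s, s * c = c * s)
    (R : ValuationSubring ℂ) (hz : ∃ z : L, (z : ℂ) ∈ R ∧ (c z : ℂ) ∉ R) {p : ℕ} (hp : p.Prime)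
    (hv : R.valuation p < 1) {Φ : Finset (L →+* ℂ)}
    (hΦ : ∀ ψ, ψ ∈ Φ ↔ ComplexEmbedding.conjugate ψ ∉ Φ) : Nonempty (One R.valuation Φ) := by
  obtain ⟨z, h3, h4⟩ := hz
  have := isCM L hc hcen fun h => h4 (by rwa [h])
  refine exists_one R.valuation hp hv L.val.toRingHom ⟨z, (R.valuation_le_one_iff _).2 h3, ?_⟩ hΦ
  rw [star_eq L hc, R.valuation_le_one_iff]
  exact h4

open Polynomial Glue in
/-- the field of `exists_L` with a cube root of unity -/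
theorem exists_L (R : ValuationSubring ℂ) {p : ℕ} (hp : p ≠ 0) (hR : R.valuation p < 1)
    {ι : Type} [Fintype ι] (P f : ι → ℚ[X]) (hP : ∀ i, P i ≠ 0) (hf : ∀ i, Cj (P i) (f i)) :
    ∃ (L : IntermediateField ℚ ℂ) (_ : FiniteDimensional ℚ L) (_ : IsGalois ℚ L) (c : Gal(L/ℚ)),
      (∀ z, (c z : ℂ) = star (z : ℂ)) ∧ (∀ s, s * c = c * s) ∧
      (∃ z : L, (z : ℂ) ∈ R ∧ (c z : ℂ) ∉ R) ∧ (∃ w : L, w ^ 2 + w + 1 = 0) ∧
      ∀ i w, aeval w (P i) = 0 → w ∈ L := by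
  have hq : (X ^ 2 - X + C ((1 : ℕ) : ℚ) : ℚ[X]).degree = 2 := by compute_degree!
  obtain ⟨L, i1, i2, c, hc, hcen, hz, hL⟩ := Glue.exists_L R hp hR
    (fun o : Option ι => o.elim (X ^ 2 - X + C ((1 : ℕ) : ℚ)) P) (fun o => o.elim (1 - X) f)
    (by
      rintro (_ | i)
      exacts [ne_zero_of_degree_gt (n := 0) (hq ▸ by norm_num), hP i])
    (by
      rintro (_ | i)
      exacts [cj_quad one_ne_zero, hf i])
  obtain ⟨a, ha⟩ := IsAlgClosed.exists_aeval_eq_zero ℂ _ (hq.trans_ne (by norm_num))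
  refine ⟨L, i1, i2, c, hc, hcen, hz, ⟨-⟨a, hL none a ha⟩, Subtype.ext ?_⟩, fun i => hL (some i)⟩
  simp only [map_add, map_sub, map_pow, aeval_X, Nat.cast_one, map_one] at ha
  push_cast
  linear_combination ha

open Polynomial Glue Function in
/-- the head of `Model.Full` with a cube root of unity -/
theorem head {g : ℕ} {Λ : Submodule ℤ (Fin g → ℂ)} [DiscreteTopology Λ] [IsZLattice ℝ Λ]
    {θ : Fin g → ℂ} (hθ : θ ∈ En Λ) (hi : Injective (Sum.elim θ (star θ))) {n : ℕ} (hn : n ≠ 0)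
    (hs : n • star θ ∈ En Λ) (R : ValuationSubring ℂ) {p : ℕ} (hp : p ≠ 0)
    (hR : R.valuation p < 1) :
    ∃ (L : IntermediateField ℚ ℂ) (_ : FiniteDimensional ℚ L) (_ : IsGalois ℚ L) (c : Gal(L/ℚ)),
      (∀ z, (c z : ℂ) = star (z : ℂ)) ∧ (∀ s, s * c = c * s) ∧
      (∃ z : L, (z : ℂ) ∈ R ∧ (c z : ℂ) ∉ R) ∧ (∃ w : L, w ^ 2 + w + 1 = 0) ∧
      ∀ a ∈ En Λ, ∀ i, a i ∈ L := by
  obtain ⟨P, hP, h⟩ := exists_char hθ hi
  obtain ⟨f, -, hf⟩ := exists_poly hθ hi hs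
  have h0 : (n : ℂ) ≠ 0 := by exact_mod_cast hn
  have h1 : ∀ i, star (θ i) = aeval (θ i) (C (n : ℚ)⁻¹ * f) := fun i => by
    rw [map_mul, ← hf, aeval_C]
    simp [h0]
  obtain ⟨L, i1, i2, c, hc, hcen, hz, hw, hL⟩ := exists_L R hp hR (fun _ : Unit => P)
    (fun _ => C (n : ℚ)⁻¹ * f) (fun _ => hP) fun _ w hw => by
      obtain ⟨i | i, rfl⟩ := (h w).1 hw
      · exact h1 i
      · exact (congrArg star (h1 i)).trans (aeval_star _ _).symm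
  refine ⟨L, i1, i2, c, hc, hcen, hz, hw, fun a ha i => ?_⟩
  obtain ⟨f', -, hf'⟩ := exists_poly hθ hi ha
  rw [hf', show θ i = L.val ⟨θ i, hL () _ ((h _).2 ⟨.inl i, rfl⟩)⟩ from rfl, aeval_algHom_apply]
  exact Subtype.property _

end Pool.Agent.Tav.G3
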