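import Pool.Agent.P.MP_2ce3e7_ag.Tav.GrTyp
import Pool.Agent.P.MP_2ce3e7_ag.Tav.G3Lat
import Pool.Agent.P.MP_2ce3e7_ag.Tav.G3Defs

/-! The lattice of a finite list of CM types, with a cube root of unity. -/

set_option autoImplicit false

open NumberField Function

namespace Pool.Agent.Tav.G3

open Pool.Agent.Cmh Lt Typ
open Gd (cp pl tp)

variable {Γ : Type*} [LinearOrderedCommGroupWithZero Γ] {v : Valuation ℂ Γ}

/-- transport of the cube root of unity -/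
@[reducible] def omRx {ι κ : Type} [Om ι] (e : κ ≃ ι) : Om κ :=
  ⟨fun k => om (e k), fun k => Om.eq (e k)⟩

/-- the cube root of unity of a field -/
@[reducible] def omOf {E : Type} [Field E] {w : E} (hw : w ^ 2 + w + 1 = 0) {ι : Type}
    (φ : ι → E →+* ℂ) : Om ι :=
  ⟨fun i => φ i w, fun i => by simpa using congrArg (φ i) hw⟩

section

variable {ι κ : Type} [Fintype ι] [Fintype κ] [Om ι] [Om κ] (e : κ ≃ ι)
  (he : ∀ k, om (e k) = om k)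
include he

omit [Fintype ι] [Fintype κ] in
lemma om_rx (z : κ → ℂ) : (om * z) ∘ e.symm = om * z ∘ e.symm := funext fun i => by
  simp [← he]

lemma chi_rx (z : κ → ℂ) : chi z = chi (z ∘ e.symm) := by
  have h1 : ∀ x y : κ → ℂ, Hm (x ∘ e.symm) (y ∘ e.symm) = Hm x y := fun x y =>
    Equiv.sum_comp e.symm fun i => x i * (starRingEnd ℂ) (y i)
  rw [chi, chi, ← om_rx e he, Gd.ph, Gd.ph, h1]

lemma Un.rx {M : Submodule ℤ (ι → ℂ)} (h : Un v M) : Un v (rx e M) := by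
  obtain ⟨h1, n, hn, h2⟩ := h
  refine ⟨⟨isLat_rx e h1.lat, fun x hx => ?_, fun x hx => ?_⟩, n, hn, fun x hx => ?_⟩
  · rw [du_rx, mem_rx']
    exact h1.le_du (mem_rx'.1 hx)
  · rw [mem_rx', om_rx e he]
    exact h1.st _ (mem_rx'.1 hx)
  · rw [du_rx, mem_rx'] at hx
    exact mem_rx'.2 (h2 _ hx)

lemma Gf.rx {M : Submodule ℤ (ι → ℂ)} {f : (ι → ℂ) → ℂ} (h : Gf v M f) :
    Gf v (rx e M) fun z => f (z ∘ e.symm) := by
  refine ⟨h.un.rx e he, h.three,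
    ⟨h.mem.1.comp (differentiable_pi.2 fun i => differentiable_apply _), fun m hm => ?_⟩,
    fun a ha => ?_, fun a ha => ?_⟩
  · rw [U_rx, h.mem.2 _ (mem_rx'.1 hm), chi_rx e he]
    rfl
  · rw [QQ_rx, mem_rx'] at ha
    rw [U_rx]; exact h.le _ ha
  · rw [QQ_rx, mem_rx'] at ha
    obtain ⟨ξ, h1, h2⟩ := h.one _ ha
    have h3 : (ξ ∘ e) ∘ e.symm = ξ := by ext i; simp
    refine ⟨ξ ∘ e, by rw [du_rx]; exact ⟨_, h1, rfl⟩, ?_⟩
    rw [U_rx, show (a + ξ ∘ e) ∘ e.symm = a ∘ e.symm + (ξ ∘ e) ∘ e.symm from rfl, h3]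
    exact h2

end

lemma int_om {E : Type} [Field E] {w : E} (hw : w ^ 2 + w + 1 = 0) : IsIntegral ℤ w :=
  IsIntegral.of_pow (n := 3) (by norm_num) (by
    rw [show w ^ 3 = 1 by linear_combination (w - 1) * hw]
    exact isIntegral_one)

lemma One.un {E : Type} [Field E] {Φ : Finset (E →+* ℂ)} (X : One v Φ) {w : E}
    (hw : w ^ 2 + w + 1 = 0) [Om Φ] (ho : ∀ ψ : Φ, om ψ = ψ.1 w) : Un v X.Λ :=
  ⟨⟨X.lat, X.le_du, fun x hx => by
    rw [show (om : Φ → ℂ) = fun ψ => ψ.1 w from funext ho]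
    exact X.mul_mem (int_om hw) hx⟩, X.idx⟩

lemma en_one {E : Type} [Field E] [NumberField E] {Φ : Finset (E →+* ℂ)} (X : One v Φ)
    (hΦ : Φ.Nonempty) (a : Φ → ℂ) :
    (∀ l ∈ X.Λ, a * l ∈ X.Λ) ↔ ∃ b, IsIntegral ℤ b ∧ ∀ ψ, a ψ = ψ.1 b := by
  have hρ : ∀ ψ, (X.ρ ψ : ℂ) ≠ 0 := fun ψ => by exact_mod_cast (X.pos ψ).ne'
  constructor
  · intro h
    obtain ⟨y, -, hy⟩ := (X.mem _).1 (h _ ((X.mem _).2 ⟨1, X.one, rfl⟩))
    have h1 : ∀ ψ, a ψ = ψ.1 y := fun ψ => mul_left_cancel₀ (hρ ψ) (by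
      simpa [mul_comm] using congrFun hy ψ)
    refine ⟨y, ?_, h1⟩
    obtain ⟨ψ, hψ⟩ := hΦ
    have h2 : ∀ n : ℕ, y ^ n ∈ X.Lam := fun n => by
      induction n with
      | zero => simpa using X.one
      | succ n ih =>
        obtain ⟨x, hx, e⟩ := (X.mem _).1 (h _ ((X.mem _).2 ⟨_, ih, rfl⟩))
        have h3 := congrFun e ⟨ψ, hψ⟩
        simp only [Pi.mul_apply, h1] at h3
        rw [mul_left_comm, ← map_mul, ← pow_succ'] at h3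
        rwa [ψ.injective (mul_left_cancel₀ (hρ _) h3)]
    have h4 : IsAlmostIntegral (𝓞 E) y :=
      ⟨X.N, mem_nonZeroDivisors_of_ne_zero (Nat.cast_ne_zero.2 X.hN), fun n =>
        ⟨⟨_, X.den _ (X.le (h2 n))⟩, by simp [Algebra.smul_def]⟩⟩
    exact isIntegral_trans (A := 𝓞 E) y h4.isIntegral
  · rintro ⟨b, hb, h⟩ l hl
    rw [show a = fun ψ => ψ.1 b from funext h]
    exact X.mul_mem hb hl

variable (L : IntermediateField ℚ ℂ) [FiniteDimensional ℚ L] [IsGalois ℚ L] {c : Gal(L/ℚ)}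

/-- the lattice of a finite list of types -/
theorem exists_list (hc : ∀ z, (c z : ℂ) = star (z : ℂ)) (h3 : v 3 = 1) {w : L}
    (hw : w ^ 2 + w + 1 = 0)
    (H : ∀ Φ : Finset (L →+* ℂ), (∀ ψ, ψ ∈ Φ ↔ ComplexEmbedding.conjugate ψ ∉ Φ) →
      ∀ [Om Φ], (∀ ψ : Φ, om ψ = ψ.1 w) → ∃ (X : One v Φ) (f : _), Gf v X.Λ f)
    {T : Type} [Finite T] {Ψ : T → Set Gal(L/ℚ)}
    (hΨ : ∀ t s, c * s ∈ Ψ t ↔ s ∉ Ψ t) {g : ℕ} (e : Fin g ≃ Σ t, Ψ t) :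
    ∃ (_ : Om (Fin g)) (Λ : Submodule ℤ (Fin g → ℂ)) (f : (Fin g → ℂ) → ℂ), Gf v Λ f ∧
      En Λ = ES (fun i => (e i).1) fun i => (e i).2.1 := by
  classical
  have := Fintype.ofFinite T
  choose σ hσ using emb_eq L
  have hi : Injective σ := fun ψ ψ' h => RingHom.ext fun x => by rw [hσ, hσ, h]
  have hs : Surjective σ := fun s => ⟨L.val.toRingHom.comp s.toRingEquiv.toRingHom,
    AlgEquiv.ext fun x => Subtype.ext (hσ _ x).symm⟩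
  have hj : ∀ ψ, σ (ComplexEmbedding.conjugate ψ) = c * σ ψ := fun ψ =>
    AlgEquiv.ext fun x => Subtype.ext (by
      rw [← hσ, AlgEquiv.mul_apply, hc, ← hσ]; rfl)
  let F : T → Finset (L →+* ℂ) := fun t => Finset.univ.filter fun ψ => σ ψ ∈ Ψ t
  have hF : ∀ t ψ, ψ ∈ F t ↔ σ ψ ∈ Ψ t := fun t ψ => by simp [F]
  let _ : ∀ t, Om (F t) := fun t => omOf hw fun ψ => ψ.1
  choose X f hf using fun t => H (F t) (fun ψ => by rw [hF, hF, hj, hΨ, not_not]) fun _ => rfl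
  let u : (Σ t, F t) ≃ Σ t, Ψ t := Equiv.sigmaCongrRight fun t =>
    (Equiv.ofBijective σ ⟨hi, hs⟩).subtypeEquiv (hF t)
  let e' := e.trans u.symm
  have he : ∀ i, e i = u (e' i) := fun i => (u.apply_symm_apply _).symm
  let _ : Om (Fin g) := omRx e'
  refine ⟨_, rx e' (pl fun t => (X t).Λ), _, (Gf.tp h3 hf).rx e' fun _ => rfl, ?_⟩
  have hn : ∀ t, (F t).Nonempty := fun t => by
    by_cases h : (1 : Gal(L/ℚ)) ∈ Ψ t
    · obtain ⟨ψ, h1⟩ := hs 1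
      exact ⟨ψ, (hF _ _).2 (h1 ▸ h)⟩
    · obtain ⟨ψ, h1⟩ := hs (c * 1)
      exact ⟨ψ, (hF _ _).2 (h1 ▸ (hΨ t 1).2 h)⟩
  ext a
  rw [en_rx, en_pl]
  simp only [en_one _ (hn _)]
  constructor
  · intro h
    choose b h1 h2 using h
    refine ⟨b, h1, fun i => ?_⟩
    dsimp only
    rw [he]
    refine Eq.trans ?_ ((h2 (e' i).1 (e' i).2).trans (hσ _ _))
    exact congrArg a (e'.symm_apply_apply i).symm
  · rintro ⟨b, h1, h2⟩ t
    refine ⟨b t, h1 _, fun ψ => ?_⟩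
    show a (e'.symm ⟨t, ψ⟩) = _
    rw [h2, hσ]
    dsimp only
    rw [he, e'.apply_symm_apply]
    rfl

/-- good reduction for one field -/
def GR1 (R : ValuationSubring ℂ) {L : IntermediateField ℚ ℂ} (w : L) : Prop :=
  ∀ (Φ : Finset (L →+* ℂ)) (X : One R.valuation Φ), Φ.Nonempty → ∀ [Om Φ],
    (∀ ψ : Φ, om ψ = ψ.1 w) → ∃ f, Gf R.valuation X.Λ f

variable (hc : ∀ z, (c z : ℂ) = star (z : ℂ)) (hcen : ∀ s, s * c = c * s)
  (R : ValuationSubring ℂ) (hz : ∃ z : L, (z : ℂ) ∈ R ∧ (c z : ℂ) ∉ R) {p : ℕ} (hp : p.Prime)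
  (h3 : p ≠ 3) (hv : R.valuation p < 1) {w : L} (hw : w ^ 2 + w + 1 = 0) (GR : GR1 R w)

include hc hcen hz hp h3 hv hw GR

/-- any finite list of types, in the terms of `Model.Full` -/
theorem typ_list {T : Type} [Finite T] {Ψ : T → Set Gal(L/ℚ)}
    (hΨ : ∀ t s, c * s ∈ Ψ t ↔ s ∉ Ψ t) {g : ℕ} (e : Fin g ≃ Σ t, Ψ t) :
    ∃ (_ : Om (Fin g)) (Λ : Submodule ℤ (Fin g → ℂ)) (f : (Fin g → ℂ) → ℂ),
      Gf R.valuation Λ f ∧ En Λ = (ES (fun i => (e i).1) fun i => (e i).2.1) ∧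
      Ring0 L (En Λ) := by
  have h6 : R.valuation (3 : ℕ) = 1 :=
    val_nat hp hv fun h => h3 ((Nat.prime_dvd_prime_iff_eq hp Nat.prime_three).1 h)
  obtain ⟨o, Λ, f, h1, h2⟩ := exists_list L (v := R.valuation) hc (by simpa using h6) hw
    (fun Φ hΦ _ ho => by
      obtain ⟨X⟩ := exists_one_L L hc hcen R hz hp hv hΦ
      refine ⟨X, GR Φ X ?_ ho⟩
      by_cases h : L.val.toRingHom ∈ Φ
      · exact ⟨_, h⟩
      · exact ⟨_, not_not.1 (mt (hΦ _).2 h)⟩) hΨ e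
  exact ⟨o, Λ, f, h1, h2, h2 ▸ (idx_equiv hΨ e).ring0 L hc hcen⟩

/-- the universal lattice -/
theorem typ : ∃ (g : ℕ) (_ : Om (Fin g)) (Λ : Submodule ℤ (Fin g → ℂ)) (f : (Fin g → ℂ) → ℂ),
    Gf R.valuation Λ f ∧ Typ.Ring L c (En Λ) := by
  let T := {Ψ : Set Gal(L/ℚ) // ∀ s, c * s ∈ Ψ ↔ s ∉ Ψ}
  let e := (Finite.equivFin (Σ t : T, t.1)).symm
  obtain ⟨o, Λ, f, h4, h5, -⟩ := typ_list L hc hcen R hz hp h3 hv hw GR (fun t : T => t.2) e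
  exact ⟨_, o, Λ, f, h4, h5 ▸ (idx_equiv (fun t : T => t.2) e).ring L hc hcen
    fun Φ h => ⟨⟨Φ, h⟩, rfl⟩⟩

end Pool.Agent.Tav.G3
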