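import Pool.Agent.P.MP_2ce3e7_ag.Tav.GrCoreB

/-! The arithmetic endgame: a tropical theta function with complex multiplication is constant. -/

set_option autoImplicit false
set_option linter.unusedSectionVars false

open NumberField

namespace Pool.Agent.Tav.GR

variable {L Γ : Type*} [Field L] [NumberField L] [LinearOrderedCommGroupWithZero Γ]

/-- what the theta functions give -/
structure Ax (c : L ≃+* L) (D Λ : Submodule (𝓞 L) L) (good : ℕ → Prop) (p N : ℕ) (ν : L → Γ) :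
    Prop where
  cc : ∀ x, c (c x) = x
  im : ∃ de, de ≠ 0 ∧ c de = -de
  p0 : p ≠ 0
  g1 : ∀ n, n ≡ 1 [MOD p] → good n
  g2 : ∀ k, good (2 ^ k)
  le : Λ ≤ D
  o1 : (1 : L) ∈ Λ
  N0 : N ≠ 0
  hN : ∀ d ∈ D, IsIntegral ℤ (N * d)
  ne : ∀ x, ν x ≠ 0
  one : ν 0 = 1
  per : ∀ x k, 2 * k ∈ D → ν (x + k) = ν x
  par : ∀ x y, ν x ^ 2 * ν y ^ 2 ≤ ν (x + y) * ν (x - y)
  half : ∀ x, ∃ al, 4 * al ∈ D ∧ ν (2 * x) ≤ ν (x + al) ^ 4
  uni : ∀ (u : L) (n : ℕ), u * c u = 1 → good n → IsIntegral ℤ (n * u) →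
    IsIntegral ℤ (n * c u) → ∀ a, ∃ k, 2 * k ∈ D ∧ ν (u * a) ≤ ν (a + c u * k)
  co : ∀ (b : L) (j K : ℕ), IsIntegral ℤ b → j < K →
    (∀ s, ν s = 1 → 2 ^ K * s ∈ D → b * s ∈ D) → ∀ y ∈ Λ, ν (c b * y / 2 ^ j) = 1

/-- half of a module -/
def hf2 (D : Submodule (𝓞 L) L) : AddSubgroup L := D.toAddSubgroup.comap (AddMonoidHom.mulLeft 2)

theorem mem_hf2 {D : Submodule (𝓞 L) L} {k : L} : k ∈ hf2 D ↔ 2 * k ∈ D := Iff.rfl

/-- an integral element that is `1` modulo `p` divides a natural number that is `1` modulo `p` -/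
theorem exists_one_mod {p : ℕ} (hp : p ≠ 0) {a d : L} (hd : IsIntegral ℤ d) (ha : a = 1 + p * d)
    (h0 : a ≠ 0) : ∃ n : ℕ, n ≠ 0 ∧ n ≡ 1 [MOD p] ∧ IsIntegral ℤ (n / a) := by
  have key : ∀ t : ℕ, t ≠ 0 → IsIntegral ℤ (t / a) → ∃ n : ℕ, n.Coprime p ∧ n ≠ 0 ∧
      IsIntegral ℤ (n / a) := fun t => by
    induction t using Nat.strong_induction_on with
    | _ t ih =>
      intro ht hi
      by_cases h : t.Coprime p
      · exact ⟨t, h, ht, hi⟩
      obtain ⟨t', e1⟩ := Nat.gcd_dvd_left t p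
      obtain ⟨p', e2⟩ := Nat.gcd_dvd_right t p
      have g0 : 0 < t.gcd p := Nat.gcd_pos_of_pos_left _ (Nat.pos_of_ne_zero ht)
      have g1 : t.gcd p ≠ 1 := h
      generalize t.gcd p = g at e1 e2 g0 g1
      have t0 : t' ≠ 0 := fun e => ht (by rw [e1, e, mul_zero])
      refine ih t' ?_ t0 ?_
      · rw [e1]; exact lt_mul_of_one_lt_left (Nat.pos_of_ne_zero t0) (by omega)
      · have e : (t' : L) / a = t' - p' * d * (t / a) := by
          rw [e1, div_eq_iff h0, sub_mul, mul_assoc, div_mul_cancel₀ _ h0, ha, e2]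
          push_cast; ring
        rw [e]
        exact (int_nat _).sub (((int_nat _).mul hd).mul hi)
  obtain ⟨t, ht, hi⟩ := exists_den a⁻¹
  obtain ⟨n, h1, h2, h3⟩ := key t ht (by rwa [div_eq_mul_inv])
  obtain ⟨k, hk⟩ := Nat.exists_eq_succ_of_ne_zero (Nat.totient_pos.2 (Nat.pos_of_ne_zero hp)).ne'
  refine ⟨n ^ p.totient, pow_ne_zero _ h2, Nat.ModEq.pow_totient h1, ?_⟩
  rw [hk, pow_succ, Nat.cast_mul, mul_div_assoc]
  exact (int_nat _).mul h3

namespace Ax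

variable {c : L ≃+* L} {D Λ : Submodule (𝓞 L) L} {good : ℕ → Prop} {p N : ℕ} {ν : L → Γ}
  (h : Ax c D Λ good p N ν)
include h

theorem d1 : (1 : L) ∈ D := h.le h.o1

theorem intD {a : L} (ha : IsIntegral ℤ a) : a ∈ D := by simpa using mulD ha h.d1

theorem trop : Trop (hf2 D) ν where
  ne := h.ne
  one := h.one
  per := fun x _ hd => h.per x _ hd
  tor := fun x => by
    obtain ⟨n, hn, hi⟩ := exists_den x
    exact ⟨n, hn, mem_hf2.2 (mulD int_two (by rw [nsmul_eq_mul]; exact h.intD hi))⟩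
  par := h.par

theorem hS {k : L} (hk : 2 * k ∈ D) : k ∈ h.trop.S := h.trop.le_S (mem_hf2.2 hk)

theorem dS {d : L} (hd : d ∈ D) : d ∈ h.trop.S := h.hS (mulD int_two hd)

theorem natS (n : ℕ) {s : L} (hs : s ∈ h.trop.S) : n * s ∈ h.trop.S := by
  rw [← nsmul_eq_mul]; exact nsmul_mem hs n

/-- the elements that keep `S` up to a denominator -/
def F : Subalgebra ℚ L where
  carrier := {x | ∃ m : ℕ, m ≠ 0 ∧ ∀ s ∈ h.trop.S, m * x * s ∈ h.trop.S}
  mul_mem' := by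
    rintro x y ⟨m, hm, hx⟩ ⟨n, hn, hy⟩
    refine ⟨m * n, mul_ne_zero hm hn, fun s hs => ?_⟩
    have := hx _ (hy s hs)
    rwa [show (m : L) * x * (n * y * s) = (m * n : ℕ) * (x * y) * s by push_cast; ring] at this
  add_mem' := by
    rintro x y ⟨m, hm, hx⟩ ⟨n, hn, hy⟩
    refine ⟨m * n, mul_ne_zero hm hn, fun s hs => ?_⟩
    have := add_mem (h.natS n (hx s hs)) (h.natS m (hy s hs))
    rwa [show (n : L) * (m * x * s) + m * (n * y * s) = (m * n : ℕ) * (x + y) * s by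
      push_cast; ring] at this
  algebraMap_mem' := fun q => ⟨q.den, q.den_nz, fun s hs => by
    have e : (q.den : L) * algebraMap ℚ L q = q.num := by
      rw [eq_ratCast]; exact_mod_cast Rat.den_mul_eq_num q
    rw [e, ← zsmul_eq_mul]; exact zsmul_mem hs _⟩

theorem inv_F {x : L} (hx : x ∈ h.F) : x⁻¹ ∈ h.F :=
  h.F.inv_mem_of_algebraic (x := ⟨x, hx⟩) (Algebra.IsAlgebraic.isAlgebraic _)

theorem im_F {d : L} (hd : IsIntegral ℤ d) (hc : c d = -d) : d ∈ h.F := by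
  have hp : (p : L) ≠ 0 := Nat.cast_ne_zero.2 h.p0
  have c1 : c (1 + p * d) = 1 + p * -d := by simp [hc]
  have c2 : c (1 + p * -d) = 1 + p * d := by simp [hc]
  have n1 : 1 + p * d ≠ 0 := fun e => by
    have e2 := c1
    rw [e, map_zero] at e2
    exact two_ne_zero (α := L) (by linear_combination e - e2)
  have n2 : 1 + p * -d ≠ 0 := fun e => n1 (by rw [← c2, e, map_zero])
  obtain ⟨n, hn, m1, i1⟩ := exists_one_mod h.p0 hd rfl n1
  obtain ⟨n', hn', m2, i2⟩ := exists_one_mod h.p0 hd.neg rfl n2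
  have j1 : IsIntegral ℤ (1 + p * d) := isIntegral_one.add ((int_nat _).mul hd)
  have j2 : IsIntegral ℤ (1 + p * -d) := isIntegral_one.add ((int_nat _).mul hd.neg)
  set u := (1 + p * d) / (1 + p * -d) with hu
  have cu : c u = (1 + p * -d) / (1 + p * d) := by rw [hu, map_div₀, c1, c2]
  have uu : c u * u = 1 := by rw [cu, hu, div_mul_div_cancel₀ n1, div_self n2]
  have k1 : IsIntegral ℤ ((n * n' : ℕ) * u) := by
    rw [show ((n * n' : ℕ) : L) * u = n * (1 + p * d) * (n' / (1 + p * -d)) by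
      rw [hu]; push_cast; ring]
    exact ((int_nat _).mul j1).mul i2
  have k2 : IsIntegral ℤ ((n * n' : ℕ) * c u) := by
    rw [show ((n * n' : ℕ) : L) * c u = n' * (1 + p * -d) * (n / (1 + p * d)) by
      rw [cu]; push_cast; ring]
    exact ((int_nat _).mul j2).mul i1
  have uF : u ∈ h.F := ⟨2 * (n * n'), by positivity, fun s hs => by
    obtain ⟨k, hk, hle⟩ := h.uni (c u) (n * n') (by rw [h.cc, uu]) (h.g1 _ (by simpa using m1.mul m2))
      k2 (by rwa [h.cc]) (u * s)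
    rw [← mul_assoc, uu, one_mul, h.cc, show ν s = 1 from hs] at hle
    have := sub_mem (h.natS (2 * (n * n')) (h.trop.eq_one_iff.2 hle)) (h.dS (mulD k1 hk))
    rwa [show ((2 * (n * n') : ℕ) : L) * (u * s + u * k) - (n * n' : ℕ) * u * (2 * k) =
      (2 * (n * n') : ℕ) * u * s by push_cast; ring] at this⟩
  have e : d = (u - 1) * (u + 1)⁻¹ * (p : L)⁻¹ := by
    have e1 : u + 1 = 2 / (1 + p * -d) := by rw [hu, div_add_one n2]; congr 1; ring
    have e2 : u - 1 = 2 * p * d / (1 + p * -d) := by rw [hu, div_sub_one n2]; congr 1; ring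
    rw [e1, e2]
    generalize 1 + (p : L) * -d = z at n2
    field_simp
  rw [e]
  exact mul_mem (mul_mem (sub_mem uF (one_mem _)) (h.inv_F (add_mem uF (one_mem _))))
    (h.inv_F (natCast_mem _ _))

theorem mem_F (x : L) : x ∈ h.F := by
  have im : ∀ d, c d = -d → d ∈ h.F := fun d hc => by
    obtain ⟨n, hn, hi⟩ := exists_den d
    have hn' : (n : L) ≠ 0 := Nat.cast_ne_zero.2 hn
    have := mul_mem (h.inv_F (natCast_mem _ n)) (h.im_F hi (by simp [hc]))
    rwa [inv_mul_cancel_left₀ hn'] at this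
  obtain ⟨de, h0, hc⟩ := h.im
  have h1 := im ((x + c x) * de) (by rw [map_mul, map_add, h.cc, hc]; ring)
  have h2 := im (x - c x) (by rw [map_sub, h.cc]; ring)
  have := mul_mem (add_mem (mul_mem h1 (h.inv_F (im de hc))) h2) (h.inv_F (natCast_mem _ 2))
  rwa [show ((x + c x) * de * de⁻¹ + (x - c x)) * ((2 : ℕ) : L)⁻¹ = x by
    push_cast; field_simp; ring] at this

/-- twice the `2`-primary part of `S`, plus `D` -/
def T0 : AddSubgroup L where
  carrier := {t | ∃ s ∈ h.trop.S, (∃ K : ℕ, 2 ^ K * s ∈ D) ∧ t - 2 * s ∈ D}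
  zero_mem' := ⟨0, zero_mem _, ⟨0, by simp⟩, by simp⟩
  add_mem' := by
    rintro t t' ⟨s, hs, ⟨K, hK⟩, ht⟩ ⟨s', hs', ⟨K', hK'⟩, ht'⟩
    refine ⟨s + s', add_mem hs hs', ⟨K + K', ?_⟩, ?_⟩
    · have := add_mem (mulD (int_two.pow K') hK) (mulD (int_two.pow K) hK')
      rwa [show (2 : L) ^ K' * (2 ^ K * s) + 2 ^ K * (2 ^ K' * s') = 2 ^ (K + K') * (s + s') by
        ring] at this
    · have := add_mem ht ht'
      rwa [show t - 2 * s + (t' - 2 * s') = t + t' - 2 * (s + s') by ring] at this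
  neg_mem' := by
    rintro t ⟨s, hs, ⟨K, hK⟩, ht⟩
    refine ⟨-s, neg_mem hs, ⟨K, by simpa using neg_mem hK⟩, ?_⟩
    have := neg_mem ht
    rwa [show -(t - 2 * s) = -t - 2 * -s by ring] at this

theorem two_T0 {s : L} (hs : s ∈ h.trop.S) {K : ℕ} (hK : 2 ^ K * s ∈ D) : 2 * s ∈ h.T0 :=
  ⟨s, hs, ⟨K, hK⟩, by simp⟩

theorem D_T0 {d : L} (hd : d ∈ D) : d ∈ h.T0 := ⟨0, zero_mem _, ⟨0, by simp⟩, by simpa using hd⟩

theorem T0_S {t : L} (ht : t ∈ h.T0) : t ∈ h.trop.S := by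
  obtain ⟨s, hs, -, h1⟩ := ht
  simpa using add_mem (h.dS h1) (h.natS 2 hs)

theorem T0_den {t : L} (ht : t ∈ h.T0) : ∃ K : ℕ, 2 ^ K * t ∈ D := by
  obtain ⟨s, -, ⟨K, hK⟩, h1⟩ := ht
  refine ⟨K, ?_⟩
  have := add_mem (mulD (int_two.pow K) h1) (mulD int_two hK)
  rwa [show (2 : L) ^ K * (t - 2 * s) + 2 * (2 ^ K * s) = 2 ^ K * t by ring] at this

theorem T0_two {t : L} (ht : t ∈ h.T0) : ∃ t' ∈ h.T0, t - 2 * t' ∈ D := by
  obtain ⟨s, hs, ⟨K, hK⟩, h1⟩ := ht
  obtain ⟨al, h2, h3⟩ := h.half (s / 2)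
  rw [mul_div_cancel₀ _ two_ne_zero, show ν s = 1 from hs, one_le_pow_iff (by norm_num)] at h3
  refine ⟨2 * (s / 2 + al), h.two_T0 (h.trop.eq_one_iff.2 h3) (K := K + 2) ?_, ?_⟩
  · have := add_mem (mulD int_two hK) (mulD (int_two.pow K) h2)
    rwa [show 2 * (2 ^ K * s) + (2 : L) ^ K * (4 * al) = 2 ^ (K + 2) * (s / 2 + al) by
      ring] at this
  · have := sub_mem h1 h2
    rwa [show t - 2 * s - 4 * al = t - 2 * (2 * (s / 2 + al)) by ring] at this

theorem T0_div (m : ℕ) (hm : m ≠ 0) : ∀ t ∈ h.T0, ∃ t' ∈ h.T0, t - m * t' ∈ D := by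
  induction m using Nat.strong_induction_on with
  | _ m ih =>
    intro t ht
    rcases Nat.even_or_odd m with ⟨k, rfl⟩ | ho
    · obtain ⟨t1, h1, h2⟩ := h.T0_two ht
      obtain ⟨t2, h3, h4⟩ := ih k (by omega) (by omega) t1 h1
      refine ⟨t2, h3, ?_⟩
      have := add_mem h2 (mulD int_two h4)
      rwa [show t - 2 * t1 + 2 * (t1 - k * t2) = t - (k + k : ℕ) * t2 by push_cast; ring] at this
    · obtain ⟨K, hK⟩ := h.T0_den ht
      obtain ⟨a, b, e⟩ : IsCoprime (m : ℤ) (2 ^ K) :=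
        (Nat.isCoprime_iff_coprime.2 (Nat.coprime_two_right.2 ho)).pow_right
      have e' : (a : L) * m + b * 2 ^ K = 1 := by exact_mod_cast e
      refine ⟨a * t, by rw [← zsmul_eq_mul]; exact zsmul_mem ht a, ?_⟩
      have := mulD (int_int b) hK
      rwa [show (b : L) * (2 ^ K * t) = t - m * (a * t) by linear_combination t * e'] at this

theorem mul_T0 {a t : L} (ha : IsIntegral ℤ a) (ht : t ∈ h.T0) : a * t ∈ h.T0 := by
  obtain ⟨m, hm, hx⟩ := h.mem_F a
  obtain ⟨t', h1, h2⟩ := h.T0_div (2 * m) (by positivity) t ht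
  obtain ⟨K, hK⟩ := h.T0_den h1
  refine ⟨m * a * t', hx _ (h.T0_S h1), ⟨K, ?_⟩, ?_⟩
  · have := mulD ((int_nat m).mul ha) hK
    rwa [show (m : L) * a * (2 ^ K * t') = 2 ^ K * (m * a * t') by ring] at this
  · have := mulD ha h2
    rwa [show a * (t - (2 * m : ℕ) * t') = a * t - 2 * (m * a * t') by push_cast; ring] at this

/-- the quotient of `T0` by `D` in the sense of fractional ideals -/
def M0 : Submodule (𝓞 L) L where
  carrier := {x | ∀ d ∈ D, x * d ∈ h.T0}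
  zero_mem' := fun d _ => by simp
  add_mem' := fun {x y} hx hy d hd => by rw [add_mul]; exact add_mem (hx d hd) (hy d hd)
  smul_mem' := fun r x hx d hd => by
    rw [Algebra.smul_def, mul_assoc]; exact h.mul_T0 r.isIntegral_coe (hx d hd)

theorem structure_S : ∃ (k : ℕ) (π β : 𝓞 L), k ≠ 0 ∧ π * β = 2 ^ k ∧ IsCoprime π β ∧
    (∀ (m : ℕ), ∀ d ∈ D, d / (β : L) ^ m ∈ h.trop.S) ∧
    ∀ (K : ℕ), ∀ s ∈ h.trop.S, 2 ^ K * s ∈ D → 2 * (β : L) ^ K * s ∈ D := by
  have inM : ∀ t ∈ h.T0, ∀ a : L, (∀ e ∈ D, IsIntegral ℤ (a * e)) → a * t ∈ h.M0 :=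
    fun t ht a ha d hd => by
      rw [mul_right_comm]; exact h.mul_T0 (ha d hd) ht
  obtain ⟨k, π, β, h1, h2, h3, h4, h5⟩ := struct h.M0 (fun d hd => by simpa using h.D_T0 hd)
    fun x hx => by
      have := pou h.d1 h.N0 h.hN (fun z => ∃ t ∈ h.M0, IsIntegral ℤ (x * z - 2 * t))
        (by
          rintro z z' ⟨t, ht, hi⟩ ⟨t', ht', hi'⟩
          refine ⟨t + t', add_mem ht ht', ?_⟩
          have := hi.add hi'
          rwa [show x * z - 2 * t + (x * z' - 2 * t') = x * (z + z') - 2 * (t + t') by ring] at this)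
        fun d hd a ha => by
          obtain ⟨t, ht, he⟩ := h.T0_two (hx d hd)
          refine ⟨a * t, inM t ht a ha, ?_⟩
          have := ha _ he
          rwa [show a * (x * d - 2 * t) = x * (d * a) - 2 * (a * t) by ring] at this
      simpa using this
  refine ⟨k, π, β, h1, h2, h3, fun m d hd => h.T0_S ?_, fun K s hs hK => ?_⟩
  · simpa [div_eq_inv_mul] using h4 m d hd
  · have := pou h.d1 h.N0 h.hN (fun z => 2 * (β : L) ^ K * s * z ∈ D)
      (fun z z' hz hz' => by rw [mul_add]; exact add_mem hz hz') fun d hd a ha => by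
        have h6 := h5 K _ (inM _ (h.two_T0 hs hK) a ha) (by
          have := ha _ (mulD int_two hK)
          rwa [show a * (2 * (2 ^ K * s)) = 2 ^ K * (a * (2 * s)) by ring] at this)
        have := mulD h6 hd
        rwa [show (β : L) ^ K * (a * (2 * s)) * d = 2 * (β : L) ^ K * s * (d * a) by ring] at this
    simpa using this

theorem fin4 : (ν '' {y | 2 • y ∈ hf2 D}).Finite := by
  have hN : ((4 * N : ℕ) : L) ≠ 0 := Nat.cast_ne_zero.2 (mul_ne_zero (by norm_num) h.N0)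
  have hN' : ((4 * N : ℕ) : 𝓞 L) ≠ 0 := Nat.cast_ne_zero.2 (mul_ne_zero (by norm_num) h.N0)
  have := Ideal.finiteQuotientOfFreeOfNeBot (Ideal.span {((4 * N : ℕ) : 𝓞 L)})
    (by simpa using hN')
  refine (Set.finite_range fun q : 𝓞 L ⧸ Ideal.span {((4 * N : ℕ) : 𝓞 L)} =>
    ν ((q.out : L) / (4 * N : ℕ))).subset ?_
  rintro _ ⟨y, hy, rfl⟩
  obtain ⟨o, ho⟩ := exO (h.hN _ (mem_hf2.1 hy))
  obtain ⟨w, hw⟩ := Ideal.mem_span_singleton'.1
    (Ideal.Quotient.eq.1 (Ideal.Quotient.mk_out (Ideal.Quotient.mk (Ideal.span {((4 * N : ℕ) : 𝓞 L)}) o)))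
  refine ⟨Ideal.Quotient.mk _ o, ?_⟩
  have e := co_eq hw
  rw [co_mul, co_nat, co_sub, ho, nsmul_eq_mul] at e
  show ν _ = _
  rw [← h.per y w (mulD int_two (h.intD w.isIntegral_coe))]
  congr 1
  rw [div_eq_iff hN]
  push_cast at e ⊢
  linear_combination -e

/-- good reduction in tropical form -/
theorem eq_one (y : L) : ν y = 1 := by
  obtain ⟨k, π, β, k0, hk, cop, hβ, hK⟩ := h.structure_S
  have hL : (π : L) * β = 2 ^ k := by simpa only [co_mul, co_two, co_pow] using co_eq hk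
  have π0 : (π : L) ≠ 0 := fun e => by rw [e, zero_mul] at hL; exact pow_ne_zero _ two_ne_zero hL.symm
  have β0 : (β : L) ≠ 0 := fun e => by rw [e, mul_zero] at hL; exact pow_ne_zero _ two_ne_zero hL.symm
  obtain ⟨s, n, hn, hN⟩ := Nat.exists_eq_two_pow_mul_odd h.N0
  let co : 𝓞 L →+* 𝓞 L := (RingOfIntegers.mapRingEquiv c).toRingHom
  have hco : ∀ a, (co a : L) = c a := fun _ => rfl
  have cc : ∀ a, co (co a) = a := fun a => RingOfIntegers.ext (by rw [hco, hco, h.cc])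
  have h1 := h.co (2 * (β : L) ^ (s + 4)) (s + 3) (s + 4) (int_two.mul (β.isIntegral_coe.pow _))
    (by omega) (fun t ht => hK _ t ht) 1 h.o1
  have h2 := h.hN _ (hK (s + 3) _ h1 (by
    rw [mul_div_cancel₀ _ (pow_ne_zero _ two_ne_zero), mul_one]
    exact h.intD (int_c c (int_two.mul (β.isIntegral_coe.pow _)))))
  obtain ⟨o, ho⟩ := exO h2
  have h3 : (2 : 𝓞 L) ∣ n * (β ^ (s + 3) * co β ^ (s + 4)) := ⟨o, RingOfIntegers.ext (by
    simp only [co_nat, hco, ho, hN, map_mul, map_pow, map_ofNat]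
    push_cast; field_simp; ring)⟩
  have h4 : IsCoprime (2 : 𝓞 L) n := by
    simpa using (Nat.isCoprime_iff_coprime.2 (Nat.coprime_two_left.2 hn)).map
      (Int.castRingHom (𝓞 L))
  have h5 := pow_dvd_pow_of_dvd (h4.dvd_of_dvd_mul_left h3) k
  rw [← hk, mul_pow, ← pow_mul, ← pow_mul] at h5
  have h6 : π ∣ co β ^ ((s + 4) * k) :=
    cop.pow_right.dvd_of_dvd_mul_left ((Dvd.intro _ rfl).trans h5)
  have h7 : co π ∣ β ^ ((s + 4) * k) := by simpa [cc] using map_dvd co h6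
  have h8 : IsCoprime (co π) π := (cop.pow_right.of_isCoprime_of_dvd_right h7).symm
  have h9 : co π * co β = π * β := by rw [← map_mul, hk, map_pow, map_ofNat]
  obtain ⟨e, he⟩ : co π ∣ β := h8.dvd_of_dvd_mul_left ⟨_, h9.symm⟩
  have he' : (β : L) = c π * e := by simpa only [co_mul, hco] using co_eq he
  have h9' : c π * c β = 2 ^ k := by simpa only [co_mul, hco, hL] using co_eq h9
  have cπ : c (π : L) ≠ 0 := by simpa using π0
  set u := (c π / π : L) ^ 2 with hu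
  have cu : c u = (π / c π : L) ^ 2 := by rw [hu, map_pow, map_div₀, h.cc]
  have small : ∀ al, 4 * al ∈ D → c u * al ∈ h.trop.S := fun al hal => by
    obtain ⟨k', rfl⟩ := Nat.exists_eq_succ_of_ne_zero k0
    have := hβ 4 _ (mulD ((e.isIntegral_coe.mul (int_two.pow k')).pow 2) hal)
    rwa [show ((e : L) * 2 ^ k') ^ 2 * (4 * al) / (β : L) ^ 4 = c u * al by
      have e0 : (π : L) = 2 ^ k'.succ / β := by rw [← hL]; field_simp
      have e1 : (e : L) = β / c π := by rw [he']; field_simp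
      rw [cu, e1]
      generalize c (π : L) = z at cπ
      rw [e0, Nat.succ_eq_add_one]
      field_simp
      ring] at this
  have uu : u * c u = 1 := by rw [cu, hu]; field_simp
  have dbl : ∀ a, ν (2 * (u * a)) ≤ ν a ^ 4 := fun a => by
    obtain ⟨al, g1, g2⟩ := h.half (u * a)
    obtain ⟨κ, g3, g4⟩ := h.uni u (2 ^ (2 * k)) uu (h.g2 _)
      (by
        rw [show ((2 ^ (2 * k) : ℕ) : L) * u = (β * c π) ^ 2 by
          push_cast; rw [hu, pow_mul', ← hL]; field_simp]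
        exact (β.isIntegral_coe.mul (int_c c π.isIntegral_coe)).pow 2)
      (by
        rw [show ((2 ^ (2 * k) : ℕ) : L) * c u = (c β * π) ^ 2 by
          push_cast; rw [cu, pow_mul', ← h9']; field_simp]
        exact ((int_c c β.isIntegral_coe).mul π.isIntegral_coe).pow 2) (a + c u * al)
    rw [mul_add, ← mul_assoc, uu, one_mul, h.trop.inv _ (small κ (by
      have := mulD int_two g3
      rwa [← mul_assoc, show (2 : L) * 2 = 4 by norm_num] at this)),
      h.trop.inv _ (small al g1)] at g4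
    exact g2.trans (pow_le_pow_left' g4 4)
  have hh : Trop.Half (hf2 D) ν := fun y => by
    obtain ⟨al, g1, g2⟩ := h.half (y / 2)
    rw [mul_div_cancel₀ _ two_ne_zero] at g2
    refine ⟨_, mem_hf2.2 ?_, g2⟩
    rwa [show 2 * (2 • (y / 2 + al) - y) = 4 * al by rw [nsmul_eq_mul]; push_cast; ring]
  obtain ⟨_, ⟨y0, hy0, rfl⟩, hμ⟩ := Set.exists_min_image _ id h.fin4 ⟨_, 0, by simp, rfl⟩
  have hμ' : ∀ y, 2 • y ∈ hf2 D → ν y0 ≤ ν y := fun y hy => hμ _ ⟨y, hy, rfl⟩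
  have h10 : 1 * ν y0 ^ 4 ≤ ν y0 ^ 12 * ν y0 ^ 4 := by
    rw [one_mul, ← pow_add, show 12 + 4 = 4 * 4 from rfl, pow_mul]
    exact (h.trop.bound hh hμ' _).trans ((dbl _).trans (pow_le_pow_left' (dbl y0) 4))
  have h11 : 1 ≤ ν y0 ^ 12 := le_of_mul_le_mul_right h10 (pow_pos (h.trop.pos _) _)
  have h12 : 1 ≤ ν y0 := (one_le_pow_iff (by norm_num)).1 h11
  exact h.trop.eq_one_iff.2 ((one_le_pow_of_one_le' h12 4).trans (h.trop.bound hh hμ' y))

end Ax

end Pool.Agent.Tav.GR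

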