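import Pool.Agent.P.MP_2ce3e7_ag.Tav.GrTh
import Pool.Agent.P.MP_2ce3e7_ag.Tav.GrCoreC

/-! Good reduction of the theta functions of a lattice with complex multiplication. -/

set_option autoImplicit false

open Complex Matrix NumberField
open scoped Real ComplexConjugate

namespace Pool.Agent.Tav.Gd

open Pool.Agent.Cmh

noncomputable section

variable {Γ : Type*} [LinearOrderedCommGroupWithZero Γ] {v : Valuation ℂ Γ}

lemma val_int_le (k : ℤ) : v k ≤ 1 := by
  obtain ⟨n, rfl | rfl⟩ := k.eq_nat_or_neg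
  · simpa using val_nat_le v n
  · simpa using val_nat_le v n

lemma val_mod {p n : ℕ} (hv : v p < 1) (h : n ≡ 1 [MOD p]) : v n = 1 := by
  obtain ⟨k, hk⟩ := h.symm.dvd
  refine val_eq_one (y := 1) ?_ (map_one v)
  have : (n : ℂ) - 1 = p * k := by exact_mod_cast congrArg (Int.cast : ℤ → ℂ) hk
  rw [this, map_mul]
  exact (mul_le_of_le_one_right' (val_int_le k)).trans_lt hv

theorem exists_gf {L ι : Type*} [Field L] [NumberField L] [Fintype ι] [Nonempty ι]
    (φ : ι → L →+* ℂ) (ρ : ι → ℝ) (hρ : ∀ i, 0 < ρ i) (c : L ≃+* L)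
    (hc : ∀ i x, φ i (c x) = star (φ i x)) (hc1 : ∃ x, c x ≠ x) (Lam D : Submodule (𝓞 L) L)
    (N : ℕ) (Λ : Submodule ℤ (ι → ℂ)) (one : 1 ∈ Lam) (le : Lam ≤ D) (hN : N ≠ 0)
    (den : ∀ x ∈ D, IsIntegral ℤ (N * x)) (un : Un v Λ)
    (mem : ∀ z, z ∈ Λ ↔ ∃ x ∈ Lam, z = fun i => ρ i * φ i x)
    (mem_du : ∀ z, z ∈ du Λ ↔ ∃ x ∈ D, z = fun i => ρ i * φ i x)
    (mem_QQ : ∀ z, z ∈ QQ Λ ↔ ∃ x : L, z = fun i => ρ i * φ i x) {p : ℕ} (hp : p ≠ 0)
    (hv : v p < 1) (h2 : v 2 = 1) : ∃ f, Gf v Λ f := by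
  classical
  obtain ⟨f, h⟩ := exists_nm un h2
  let e : L →+ ι → ℂ :=
    { toFun := fun x i => ρ i * φ i x
      map_zero' := by ext i; simp
      map_add' := fun x y => by ext i; simp [mul_add] }
  have he : ∀ x i, e x i = ρ i * φ i x := fun _ _ => rfl
  obtain ⟨i0⟩ := ‹Nonempty ι›
  have inj : ∀ x y, e x = e y → x = y := fun x y hxy => (φ i0).injective
    (mul_left_cancel₀ (ofReal_ne_zero.2 (hρ i0).ne') (congrFun hxy i0))
  have eQ : ∀ x, e x ∈ QQ Λ := fun x => (mem_QQ _).2 ⟨x, rfl⟩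
  have eL : ∀ x ∈ Lam, e x ∈ Λ := fun x hx => (mem _).2 ⟨x, hx, rfl⟩
  have eD : ∀ x, e x ∈ du Λ ↔ x ∈ D := fun x =>
    ⟨fun hx => by
      obtain ⟨y, hy, e1⟩ := (mem_du _).1 hx
      rwa [inj x y e1], fun hx => (mem_du _).2 ⟨x, hx, rfl⟩⟩
  have eN : ∀ (n : ℕ) x, n • e x ∈ du Λ ↔ (n : L) * x ∈ D := fun n x => by
    rw [← map_nsmul, eD, nsmul_eq_mul]
  have dvQ : ∀ (n : ℕ), n ≠ 0 → ∀ z, n • z ∈ du Λ → ∃ x, (n : L) * x ∈ D ∧ z = e x :=
    fun n hn z hz => by
      obtain ⟨x, hx⟩ := (mem_QQ _).1 (un.dv_QQ hn hz)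
      exact ⟨x, (eN n x).1 (by rwa [hx] at hz), hx⟩
  have mulL : ∀ a : L, IsIntegral ℤ a → ∀ x ∈ Lam, a * x ∈ Lam := fun a ha x hx =>
    Lam.smul_mem (⟨a, ha⟩ : 𝓞 L) hx
  have dg : ∀ a x : L, diagonal (fun i => φ i a) *ᵥ e x = e (a * x) := fun a x => by
    ext i; simp only [mulVec_diagonal, he, map_mul]; ring
  have dgc : ∀ a : L, (diagonal fun i => φ i a)ᴴ = diagonal fun i => φ i (c a) := fun a => by
    rw [diagonal_conjTranspose]; congr 1; ext i; simp [hc]
  have ax : GR.Ax c D Lam (fun n => v n = 1) p N fun x => nu v Λ f (e x) :=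
    { cc := fun x => (φ i0).injective (by rw [hc, hc, star_star])
      im := by
        obtain ⟨x, hx⟩ := hc1
        refine ⟨c x - x, sub_ne_zero.2 hx, (φ i0).injective ?_⟩
        simp [hc]
      p0 := hp
      g1 := fun n hn => val_mod hv hn
      g2 := fun k => by simp [h2]
      le := le
      o1 := one
      N0 := hN
      hN := den
      ne := fun x => h.nu_ne (eQ x)
      one := by simpa using h.nu_zero
      per := fun x k hk => by
        simp only [map_add]
        exact h.nu_per (eQ x) ((eN 2 k).2 (by simpa using hk))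
      par := fun x y => by simpa only [map_add, map_sub] using h.nu_par (eQ x) (eQ y)
      half := fun x => by
        obtain ⟨α, h1, h3⟩ := h.nu_half (eQ x)
        obtain ⟨a, ha, rfl⟩ := dvQ 4 four_ne_zero α h1
        exact ⟨a, by simpa using ha, by simpa only [two_mul, map_add] using h3⟩
      uni := fun u n hu hn h1 h3 a => by
        have key : ∀ w : L, IsIntegral ℤ (n * w) → ∀ x ∈ Λ,
            n • diagonal (fun i => φ i w) *ᵥ x ∈ Λ := fun w hw x hx => by
          obtain ⟨y, hy, e1⟩ := (mem _).1 hx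
          rw [show x = e y from e1, dg, ← map_nsmul, nsmul_eq_mul, ← mul_assoc]
          exact eL _ (mulL _ hw y hy)
        have hA : IsUni (diagonal fun i => φ i u) := by
          constructor <;> rw [dgc, diagonal_mul_diagonal, ← diagonal_one] <;> congr 1 <;> ext i
          · rw [← map_mul, mul_comm, hu, map_one]
          · rw [← map_mul, hu, map_one]
        obtain ⟨κ, h4, h5⟩ := h.nu_uni hA hn (key u h1) (by rw [dgc]; exact key _ h3) (eQ a)
        obtain ⟨k, hk, rfl⟩ := dvQ 2 two_ne_zero κ h4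
        rw [dgc, dg, dg, ← map_add] at h5
        exact ⟨k, by simpa using hk, h5⟩
      co := fun b j K hb hj H y hy => by
        have hb' : IsIntegral ℤ (c b) := hb.map c.toRingHom.toIntAlgHom
        have := h.nu_co hj (eL _ (mulL _ hb' y hy)) fun s hs h1 => by
          obtain ⟨t, ht, rfl⟩ := dvQ (2 ^ K) (by positivity) s hs
          obtain ⟨k, hk⟩ := (eD _).2 (H t h1 (by simpa using ht)) _ (eL y hy)
          refine ⟨-k, ?_⟩
          rw [← dg, ← dgc, ← conjTranspose_conjTranspose (diagonal fun i => φ i b)ᴴ,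
            conjTranspose_conjTranspose, Hm_mulVec, conjTranspose_conjTranspose, dg, Hm_im_swap,
            hk, Int.cast_neg]
        have e1 : e (c b * y / 2 ^ j) = (2⁻¹ : ℂ) ^ j • e (c b * y) := by
          ext i
          simp only [he, map_div₀, map_pow, map_ofNat, Pi.smul_apply, smul_eq_mul, inv_pow]
          ring
        simpa only [e1] using this }
  refine ⟨f, h.gf fun a ha => ?_⟩
  obtain ⟨x, hx⟩ := (mem_QQ _).1 ha
  exact hx ▸ ax.eq_one x

end

end Pool.Agent.Tav.Gd
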