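import Pool.Agent.P.MP_2ce3e7_ag.Tav.GrTop
import Pool.Agent.P.MP_2ce3e7_ag.Tav.G3Gf
import Pool.Agent.P.MP_2ce3e7_ag.Tav.G3Asm

/-! Models exist in every residue characteristic. -/

set_option autoImplicit false

noncomputable section

namespace Pool.Agent.Tav.G3

open Function Pool.Agent.Cmh Pool.Agent.Tav.Top

section
variable (L : IntermediateField ℚ ℂ) [FiniteDimensional ℚ L] [IsGalois ℚ L]
  {c : Gal(L/ℚ)} (hc : ∀ z, (c z : ℂ) = star (z : ℂ)) (hcen : ∀ s, s * c = c * s)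
  {R : ValuationSubring ℂ} (hz : ∃ z : L, (z : ℂ) ∈ R ∧ (c z : ℂ) ∉ R)

include hc hcen hz

theorem mods_three {Ω : Type} [Field Ω] [Infinite Ω] {r : R →+* Ω} (hr : Surjective r) {p : ℕ}
    (hp : p.Prime) (h3 : p ≠ 3) (hv : R.valuation p < 1) (hw : ∃ w : L, w ^ 2 + w + 1 = 0) :
    Mods r L c := fun T _ Ψ hΨ g e => by
  obtain ⟨w, hw⟩ := hw
  obtain ⟨_, M, f, h1, h2, h4⟩ :=
    typ_list L hc hcen R hz hp h3 hv hw (gr1 L hc hcen R hp h3 hv hw) hΨ e
  obtain ⟨N, X, -, h5, -⟩ := exists_model hr h1 h4.cm h4.bal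
  exact ⟨_, _, X, h5.trans h2⟩

/-- every finite list of CM types has a model, in every residue characteristic -/
theorem mods_all {Ω : Type} [Field Ω] [Infinite Ω] {r : R →+* Ω} (hr : Surjective r) {p : ℕ}
    (hp : p.Prime) (hv : R.valuation p < 1) (hw : ∃ w : L, w ^ 2 + w + 1 = 0) : Mods r L c := by
  by_cases h3 : p = 3
  · intro T _ Ψ hΨ g e
    obtain ⟨N, X, h, -⟩ := Typ.list_model L hc hcen R hz hp (by omega) hv hr hΨ e
    exact ⟨_, _, X, h⟩
  · exact mods_three L hc hcen hz hr hp h3 hv hw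

theorem mods_fin {k : Type} [Field k] [Fintype k] {r : R →+* AlgebraicClosure k}
    (hr : Surjective r) (hw : ∃ w : L, w ^ 2 + w + 1 = 0) : Mods r L c := by
  obtain ⟨p, -, hp, -, -, hv⟩ := exists_char r
  exact mods_all L hc hcen hz hr hp hv hw

end

/-- `Full` holds when the ring of endomorphisms is rationally stable under conjugation -/
theorem full_of_star {k : Type} [Field k] [Fintype k] {R : ValuationSubring ℂ}
    {r : R →+* AlgebraicClosure k} {σ : Type} [Fintype σ] {g : ℕ} (sm : S_sm) (fr : S_frob)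
    (hr : Surjective r) (hR : Pl.Ext R) (X : Model r σ g)
    (hs : ∀ a ∈ En X.Λ, ∃ n : ℕ, n ≠ 0 ∧ n • star a ∈ En X.Λ) : X.Full (Fintype.card k) := by
  obtain ⟨θ, hθ, hi⟩ := X.cm
  obtain ⟨n, hn, h⟩ := hs θ hθ
  obtain ⟨p, -, hp, -, -, hv⟩ := exists_char r
  have := X.lat
  obtain ⟨L, i1, i2, c, hc, hcen, hz, hw, hL⟩ := head hθ hi hn h R hp.ne_zero hv
  exact full_of_L sm fr hr hR L hc hcen hz (mods_fin L hc hcen hz hr hw) X hL

end Pool.Agent.Tav.G3
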