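import Pool.Agent.P.MP_2ce3e7_ag.Tav.GrHM
import Pool.Agent.P.MP_2ce3e7_ag.Tav.G3Top

/-! Every Weil polynomial over every finite field has a model. -/

set_option autoImplicit false

namespace Pool.Agent.Tav.Ti

theorem s_hm_all (k : Type) [Field k] [Fintype k] : S_HM k :=
  HM.hm_mods k fun _ _ hr L _ _ _ hc hcc hz hw => G3.mods_fin L hc hcc hz hr hw

end Pool.Agent.Tav.Ti
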