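import Pool.Agent.P.MP_2ce3e7_ag.Tav.KComp
import Pool.Agent.P.MP_2ce3e7_ag.Tav.PPoly

/-! The Frobenius map on points: periodic points, components, orbits. -/

set_option autoImplicit false
set_option linter.unusedSectionVars false
set_option linter.unusedVariables false

noncomputable section

namespace Pool.Agent.Tav.K0

open MvPolynomial Module Function

section
variable {Ω : Type} [Field Ω] {T : Type} {β : Type} [Fintype β]

/-- what is used of Frobenius on a set of points -/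
structure FrS (B : β → LS Ω T) (F : T → T) : Prop where
  per : ∀ y, ∃ n, 0 < n ∧ F^[n] y = y
  tw : ∀ d, ∀ f ∈ pc B d, ∃ f' ∈ pc B d, ∀ y, f' (F y) = 0 ↔ f y = 0
  tw' : ∀ d, ∀ f' ∈ pc B d, ∃ f ∈ pc B d, ∀ y, f' (F y) = 0 ↔ f y = 0
  fin : ∀ Z, ∃ m, 0 < m ∧ F^[m] '' Z ⊆ cl B Z

variable {B : β → LS Ω T} {F : T → T} {Z a : Set T}

theorem FrS.bij (h : FrS B F) : Bijective F := by
  have h1 : periodicPts F = Set.univ := Set.eq_univ_of_forall fun y => h.per y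
  have h2 := bijOn_periodicPts (f := F)
  rw [h1] at h2
  exact Set.bijOn_univ.1 h2

theorem FrS.irr (h : FrS B F) (Z : Set T) : Irr B (F '' Z) ↔ Irr B Z := by
  refine and_congr Set.image_nonempty ⟨fun H a b f hf g hg hfg => ?_,
    fun H a b f hf g hg hfg => ?_⟩
  · obtain ⟨f', hf', e⟩ := h.tw a f hf
    obtain ⟨g', hg', e'⟩ := h.tw b g hg
    refine (H a b f' hf' g' hg' ?_).imp (fun H t ht => (e t).1 (H _ ⟨t, ht, rfl⟩))
      fun H t ht => (e' t).1 (H _ ⟨t, ht, rfl⟩)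
    rintro _ ⟨t, ht, rfl⟩
    rw [mul_eq_zero, e, e', ← mul_eq_zero]
    exact hfg t ht
  · obtain ⟨f', hf', e⟩ := h.tw' a f hf
    obtain ⟨g', hg', e'⟩ := h.tw' b g hg
    refine (H a b f' hf' g' hg' fun t ht => ?_).imp ?_ ?_
    · rw [mul_eq_zero, ← e, ← e', ← mul_eq_zero]
      exact hfg _ ⟨t, ht, rfl⟩
    · rintro H _ ⟨t, ht, rfl⟩
      exact (e t).2 (H t ht)
    · rintro H _ ⟨t, ht, rfl⟩
      exact (e' t).2 (H t ht)

theorem FrS.irr_iter (h : FrS B F) (hZ : Irr B Z) (n : ℕ) : Irr B (F^[n] '' Z) := by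
  induction n with
  | zero => simpa using hZ
  | succ n ih => rw [iterate_succ', Set.image_comp]; exact (h.irr _).2 ih

theorem FrS.cl_image (h : FrS B F) (Z : Set T) : F '' cl B Z ⊆ cl B (F '' Z) := by
  rintro _ ⟨t, ht, rfl⟩ d f' hf' h0
  obtain ⟨f, hf, e⟩ := h.tw' d f' hf'
  exact (e t).2 (ht d f hf fun z hz => (e z).1 (h0 _ ⟨z, hz, rfl⟩))

theorem FrS.cmp (h : FrS B F) (ha : F '' a = a) : F '' Z ∈ Cmp B a ↔ Z ∈ Cmp B a :=
  cmp_image (Equiv.ofBijective F h.bij) h.irr ha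

/-- sums over the components of a stable set are invariant -/
theorem FrS.sum_cmp (h : FrS B F) (ha : F '' a = a) {M : Type} [AddCommMonoid M]
    (φ : Set T → M) : ∑ Z ∈ (cmp_finite B a).toFinset, φ (F '' Z) =
      ∑ Z ∈ (cmp_finite B a).toFinset, φ Z := by
  refine Finset.sum_bij (fun Z _ => F '' Z) (fun Z hZ => ?_) (fun Z _ Z' _ e => ?_)
    (fun Z hZ => ?_) fun _ _ => rfl
  · rw [Set.Finite.mem_toFinset] at hZ ⊢
    exact (h.cmp ha).2 hZ
  · exact h.bij.1.image_injective e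
  · obtain ⟨Z, rfl⟩ := h.bij.2.image_surjective Z
    rw [Set.Finite.mem_toFinset] at hZ
    exact ⟨Z, (Set.Finite.mem_toFinset _).2 ((h.cmp ha).1 hZ), rfl⟩

theorem dg_cover {I : Type} [Fintype I] (C : I → Set T) (hC : ∀ t ∈ a, ∃ i, t ∈ C i) {n : ℤ}
    (hn : ∀ i, Dg (pL (res B (C i))) n) : Dg (pL (res B a)) n := by
  refine dg_union (U := fun i => ↥(a ∩ C i)) (fun i => Set.inclusion Set.inter_subset_left)
    (res B a) (fun t => ?_) fun i => ?_
  · obtain ⟨i, hi⟩ := hC t t.2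
    exact ⟨i, ⟨t, t.2, hi⟩, rfl⟩
  · rw [res_incl]
    exact dg_mono Set.inter_subset_right (hn i)

theorem pL_between {Z' : Set T} (h1 : Z ⊆ Z') (h2 : Z' ⊆ cl B Z) :
    pL (res B Z) = pL (res B Z') := by
  rw [← (dense_incl h1 h2).pL, res_incl]

/-- the orbit of an irreducible set -/
theorem FrS.orbit (h : FrS B F) (hZ : Irr B Z) {j : ℤ}
    (hj : ∀ n, Dg (pL (res B (F^[n] '' Z))) j) :
    ∃ a, F '' a = a ∧ Dg (pL (res B a)) j ∧ (Cmp B a).Nonempty ∧
      ∀ Z' ∈ Cmp B a, ∃ n, F^[n] '' Z ⊆ Z' ∧ Z' ⊆ cl B (F^[n] '' Z) := by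
  classical
  obtain ⟨m, hm, hF⟩ := h.fin Z
  have key : ∀ n, ∃ n' : Fin m, F^[n] '' Z ⊆ cl B (F^[n'] '' Z) := by
    intro n
    induction n with
    | zero => exact ⟨⟨0, hm⟩, sub_cl B _⟩
    | succ n ih =>
      obtain ⟨n', ih⟩ := ih
      have h1 : F^[n + 1] '' Z ⊆ cl B (F^[n' + 1] '' Z) := by
        rw [iterate_succ', iterate_succ', Set.image_comp, Set.image_comp]
        exact (Set.image_mono ih).trans (h.cl_image _)
      rcases Nat.lt_or_ge (n' + 1) m with h2 | h2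
      · exact ⟨⟨_, h2⟩, h1⟩
      · have h3 : (n' : ℕ) + 1 = m := le_antisymm n'.2 h2
        rw [h3] at h1
        exact ⟨⟨0, hm⟩, h1.trans (cl_sub (by simpa using hF))⟩
  have cov : ∀ t ∈ ⋃ n, F^[n] '' Z, ∃ n' : Fin m, t ∈ cl B (F^[n'] '' Z) := fun t ht => by
    obtain ⟨n, hn⟩ := Set.mem_iUnion.1 ht
    obtain ⟨n', h'⟩ := key n
    exact ⟨n', h' hn⟩
  refine ⟨⋃ n, F^[n] '' Z, Set.Subset.antisymm ?_ fun t ht => ?_,
    dg_cover (fun n' : Fin m => cl B (F^[n'] '' Z)) cov fun n' => ?_, ?_, fun Z' hZ' => ?_⟩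
  · rintro _ ⟨t, ht, rfl⟩
    obtain ⟨n, z, hz, rfl⟩ := Set.mem_iUnion.1 ht
    exact Set.mem_iUnion.2 ⟨n + 1, z, hz, iterate_succ_apply' F n z⟩
  · obtain ⟨n, z, hz, rfl⟩ := Set.mem_iUnion.1 ht
    obtain ⟨N, hN, e⟩ := h.per (F^[n] z)
    obtain ⟨N, rfl⟩ := Nat.exists_eq_succ_of_ne_zero hN.ne'
    refine ⟨F^[N + n] z, Set.mem_iUnion.2 ⟨N + n, z, hz, rfl⟩, ?_⟩
    rw [iterate_add_apply, ← iterate_succ_apply' F N, e]
  · rw [← pL_between (sub_cl B _) le_rfl]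
    exact hj n'
  · obtain ⟨t, ht⟩ := hZ.1
    obtain ⟨Z', hZ', -⟩ := cmp_cover B (⋃ n, F^[n] '' Z) (Set.mem_iUnion.2 ⟨0, t, ht, rfl⟩)
    exact ⟨Z', hZ'⟩
  · obtain ⟨_, hW, h1⟩ := hZ'.1.2.sub_cover
      (Finset.univ.image fun n' : Fin m => cl B (F^[n'] '' Z)) fun t ht => by
        obtain ⟨n', h'⟩ := cov t (hZ'.1.1 ht)
        exact ⟨_, Finset.mem_image_of_mem _ (Finset.mem_univ n'), h'⟩
    obtain ⟨n', -, rfl⟩ := Finset.mem_image.1 hW
    have h2 : Z' ⊆ cl B (F^[n'] '' Z) := h1.trans (cl_sub le_rfl)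
    have h3 : F^[n'] '' Z ⊆ (⋃ n, F^[n] '' Z) ∩ cl B (F^[n'] '' Z) :=
      Set.subset_inter (Set.subset_iUnion (fun n => F^[n] '' Z) n') (sub_cl B _)
    exact ⟨n', h3.trans (hZ'.2 ⟨Set.inter_subset_left,
      (h.irr_iter hZ n').between h3 Set.inter_subset_right⟩ (Set.subset_inter hZ'.1.1 h2)), h2⟩

end

section
variable {Ω : Type} [Field Ω] {G τ : Type} [Finite τ]

/-- the base given by one projective embedding -/
abbrev bs (p : G → τ → Ω) (hp : ∀ y, p y ≠ 0) : Unit → LS Ω G := fun _ => LS.co p hp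

theorem mem_pc_bs {p : G → τ → Ω} (hp : ∀ y, p y ≠ 0) (d : Unit → ℕ) (f : G → Ω) :
    f ∈ pc (bs p hp) d ↔
      ∃ H : MvPolynomial τ Ω, H.IsHomogeneous (d ()) ∧ ∀ t, f t = eval (p t) H := by
  rw [← Pp.mem_crd_pow, pc, Fintype.prod_unique]
  exact Iff.rfl

end

variable {k : Type} [Field k] [Fintype k] {G τ : Type} [Finite τ]
  {p : G → τ → AlgebraicClosure k} {F : G → G}

/-- the Frobenius automorphism of the algebraic closure -/
def frE (k : Type) [Field k] [Fintype k] : AlgebraicClosure k ≃+* AlgebraicClosure k :=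
  (FiniteField.frobeniusAlgEquivOfAlgebraic k (AlgebraicClosure k)).toRingEquiv

theorem frE_apply (x : AlgebraicClosure k) : frE k x = x ^ Fintype.card k := rfl

theorem eval_frE (z : τ → AlgebraicClosure k) (H : MvPolynomial τ (AlgebraicClosure k)) :
    eval (z ^ Fintype.card k) (map (frE k).toRingHom H) = frE k (eval z H) := by
  rw [eval_map, MvPolynomial.eval, coe_eval₂Hom]
  exact (eval₂_comp_left (frE k).toRingHom (RingHom.id _) z H).symm

theorem eval_par {z z' : τ → AlgebraicClosure k} (h : Par z z')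
    {H : MvPolynomial τ (AlgebraicClosure k)} {e : ℕ} (hH : H.IsHomogeneous e) :
    eval z H = 0 ↔ eval z' H = 0 := by
  obtain ⟨c, hc, rfl⟩ := h
  rw [Pp.eval_smul_hom hH, (hc.pow e).mul_right_eq_zero]

theorem frS (hp : ∀ y, p y ≠ 0) (hi : ∀ y y', Par (p y) (p y') → y = y')
    (hF : ∀ y, Par (p (F y)) (p y ^ Fintype.card k)) : FrS (bs p hp) F := by
  classical
  cases nonempty_fintype τ
  have tw : ∀ (H : MvPolynomial τ (AlgebraicClosure k)) e, H.IsHomogeneous e → ∀ y,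
      eval (p (F y)) (map (frE k).toRingHom H) = 0 ↔ eval (p y) H = 0 := fun H e hH y => by
    rw [eval_par (hF y) (hH.map _), eval_frE, map_eq_zero]
  refine ⟨fun y => ?_, fun d f hf => ?_, fun d f hf => ?_, fun Z => ?_⟩
  · obtain ⟨e, he, h⟩ := Pp.exists_fix_fin (Finset.univ.image (p y))
    refine ⟨e, Nat.pos_of_ne_zero he, hi _ _ ?_⟩
    have h1 := Pp.par_iter hF e y
    rwa [show p y ^ Fintype.card k ^ e = p y from
      _root_.funext fun l => h _ (Finset.mem_image_of_mem _ (Finset.mem_univ l))] at h1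
  · obtain ⟨H, hH, e⟩ := (mem_pc_bs hp d f).1 hf
    exact ⟨_, (mem_pc_bs hp d _).2 ⟨_, hH.map (frE k).toRingHom, fun _ => rfl⟩,
      fun y => by rw [e]; exact tw H _ hH y⟩
  · obtain ⟨H, hH, e⟩ := (mem_pc_bs hp d f).1 hf
    refine ⟨_, (mem_pc_bs hp d _).2 ⟨_, hH.map (frE k).symm.toRingHom, fun _ => rfl⟩, fun y => ?_⟩
    rw [e, ← tw _ _ (hH.map (frE k).symm.toRingHom) y, map_map]
    have : (frE k).toRingHom.comp (frE k).symm.toRingHom = RingHom.id _ :=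
      RingHom.ext fun x => (frE k).apply_symm_apply x
    rw [this, map_id]
  · let s : Set (MvPolynomial τ (AlgebraicClosure k)) :=
      {H | (∃ e, H.IsHomogeneous e) ∧ ∀ z ∈ Z, eval (p z) H = 0}
    obtain ⟨S, hS, hSs⟩ := (Submodule.fg_span_iff_fg_span_finset_subset s).1
      ((isNoetherianRing_iff_ideal_fg _).1 inferInstance (Ideal.span s))
    obtain ⟨e, he, h⟩ := Pp.exists_fix_fin (S.biUnion fun H => H.coeffs)
    refine ⟨e, Nat.pos_of_ne_zero he, ?_⟩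
    rintro _ ⟨z, hz, rfl⟩ d f hf h0
    obtain ⟨H, hH, e'⟩ := (mem_pc_bs hp d f).1 hf
    have h1 : H ∈ Submodule.span _ (S : Set (MvPolynomial τ (AlgebraicClosure k))) :=
      hSs ▸ Submodule.subset_span
        (show H ∈ s from ⟨⟨_, hH⟩, fun z hz => (e' z).symm.trans (h0 z hz)⟩)
    rw [e']
    refine (Ideal.span_le (I := RingHom.ker (MvPolynomial.eval (p (F^[e] z))))).2 (fun H' hH' => ?_) h1
    obtain ⟨⟨e₁, h2⟩, h3⟩ := hS hH'
    change MvPolynomial.eval _ H' = 0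
    rw [eval_par (Pp.par_iter hF e z) h2,
      Pp.eval_frob fun a ha => h a (Finset.mem_biUnion.2 ⟨H', hH', ha⟩), h3 z hz,
      zero_pow (pow_pos Fintype.card_pos e).ne']

end Pool.Agent.Tav.K0
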