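import Pool.Agent.P.MP_2ce3e7_ag.Tav.Defs
import Pool.Agent.P.MP_2ce3e7_ag.Tav.GBase

/-! A faithful representation of the right size has the characters as its eigenvalues. -/

set_option autoImplicit false

noncomputable section

namespace Pool.Agent.Tav.Eg

open Module Function Polynomial

section Alg

variable {Λ Γ A : Type} [CommRing Λ] [Fintype Γ] [Ring A] [Algebra ℂ A]

/-- a ring map extends to the product of copies of `ℂ` -/
theorem exists_ext (b : Basis Γ ℤ Λ) {χ : Γ → Λ →+* ℂ} (hχ : Injective χ) (V : Λ →+* A) :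
    ∃ Φ : (Γ → ℂ) →ₗ[ℂ] A, (∀ a, Φ (fun ρ => χ ρ a) = V a) ∧
      (∀ y z, Φ (y * z) = Φ y * Φ z) ∧
      (LinearIndependent ℂ (fun i => V (b i)) → Injective Φ) := by
  classical
  obtain ⟨B, hB, hB'⟩ := Det.exists_inv b χ hχ
  set X : Matrix Γ Γ ℂ := Matrix.of fun ρ i => χ ρ (b i) with hX
  let Φ : (Γ → ℂ) →ₗ[ℂ] A := Fintype.linearCombination ℂ (fun i => V (b i)) ∘ₗ B.mulVecLin
  have hΦ : ∀ c : Γ → ℂ, Φ (X.mulVec c) = ∑ i, c i • V (b i) := fun c => by
    simp only [Φ, LinearMap.comp_apply, Matrix.mulVecLin_apply, Matrix.mulVec_mulVec, hB,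
      Matrix.one_mulVec, Fintype.linearCombination_apply]
  have h1 : ∀ a, Φ (fun ρ => χ ρ a) = V a := fun a => by
    have e1 : (fun ρ => χ ρ a) = X.mulVec fun i => (b.repr a i : ℂ) := funext fun ρ => by
      rw [show χ ρ a = _ from Det.chi_repr b (χ ρ).toAddMonoidHom a]
      simp [hX, Matrix.mulVec, dotProduct, mul_comm]
    rw [e1, hΦ]
    conv_rhs => rw [← b.sum_repr a]
    rw [map_sum]
    exact Finset.sum_congr rfl fun i _ => by rw [map_zsmul, Int.cast_smul_eq_zsmul]
  have hsp : ∀ y : Γ → ℂ, y = ∑ i, B.mulVec y i • fun ρ => χ ρ (b i) := fun y => by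
    have : y = X.mulVec (B.mulVec y) := by rw [Matrix.mulVec_mulVec, hB', Matrix.one_mulVec]
    refine this.trans (funext fun ρ => ?_)
    simp [hX, Matrix.mulVec, dotProduct, mul_comm, Finset.sum_apply]
  refine ⟨Φ, h1, fun y z => ?_, fun hV => ?_⟩
  · rw [hsp y, hsp z]
    simp only [Finset.sum_mul, Finset.mul_sum, map_sum, smul_mul_assoc, mul_smul_comm, map_smul, h1]
    refine Finset.sum_congr rfl fun i _ => congrArg _ (Finset.sum_congr rfl fun k _ => ?_)
    rw [← map_mul, ← h1]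
    simp only [map_mul]
    rfl
  · refine (linearIndependent_iff_injective_fintypeLinearCombination.1 hV).comp fun y z h => ?_
    have := congrArg X.mulVec (show B.mulVec y = B.mulVec z from h)
    simpa only [Matrix.mulVec_mulVec, hB', Matrix.one_mulVec] using this

/-- EIG: a basis of common eigenvectors -/
theorem exists_basis {U : Type} [AddCommGroup U] [Module ℂ U] [FiniteDimensional ℂ U]
    (b : Basis Γ ℤ Λ) {χ : Γ → Λ →+* ℂ} (hχ : Injective χ) (V : Λ →+* End ℂ U)
    (hV : LinearIndependent ℂ fun i => V (b i)) (hd : finrank ℂ U = Fintype.card Γ) :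
    ∃ v : Basis Γ ℂ U, ∀ a ρ, V a (v ρ) = χ ρ a • v ρ := by
  classical
  obtain ⟨Φ, h1, h2, h3⟩ := exists_ext b hχ V
  have h4 : ∀ ρ, ∃ w, Φ (Pi.single ρ 1) w ≠ 0 := fun ρ => by
    by_contra hn
    push Not at hn
    have : Φ (Pi.single ρ 1) = Φ 0 := by
      rw [map_zero]
      exact LinearMap.ext hn
    simpa using congrFun (h3 hV this) ρ
  choose w hw using h4
  have h5 : ∀ y ρ, Φ y (Φ (Pi.single ρ 1) (w ρ)) = y ρ • Φ (Pi.single ρ 1) (w ρ) := fun y ρ => by
    have : y * Pi.single ρ 1 = y ρ • (Pi.single ρ 1 : Γ → ℂ) := funext fun σ => by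
      by_cases h : σ = ρ
      · subst h
        simp
      · simp [h]
    rw [← End.mul_apply, ← h2, this, map_smul, LinearMap.smul_apply]
  have hli : LinearIndependent ℂ fun ρ => Φ (Pi.single ρ 1) (w ρ) := by
    rw [Fintype.linearIndependent_iff]
    intro c hc σ
    have := congrArg (Φ (Pi.single σ 1)) hc
    rw [map_sum, map_zero, Finset.sum_eq_single σ (fun ρ _ h => by
      rw [map_smul, h5, Pi.single_eq_of_ne h, zero_smul, smul_zero]) (by simp),
      map_smul, h5, Pi.single_eq_same, one_smul] at this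
    exact (smul_eq_zero.1 this).resolve_right (hw σ)
  refine ⟨basisOfLinearIndependentOfCardEqFinrank' _ hli hd.symm, fun a ρ => ?_⟩
  rw [coe_basisOfLinearIndependentOfCardEqFinrank', ← h1, h5]

theorem charpoly_end {U : Type} [AddCommGroup U] [Module ℂ U] [FiniteDimensional ℂ U]
    (b : Basis Γ ℤ Λ) {χ : Γ → Λ →+* ℂ} (hχ : Injective χ) (V : Λ →+* End ℂ U)
    (hV : LinearIndependent ℂ fun i => V (b i)) (hd : finrank ℂ U = Fintype.card Γ) (a : Λ) :
    (V a).charpoly = ∏ ρ, (X - C (χ ρ a)) := by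
  classical
  obtain ⟨v, hv⟩ := exists_basis b hχ V hV hd
  have : LinearMap.toMatrix v v (V a) = Matrix.diagonal fun ρ => χ ρ a := by
    ext ρ σ
    rw [LinearMap.toMatrix_apply, hv, map_smul, Basis.repr_self, Matrix.diagonal_apply]
    by_cases h : ρ = σ
    · subst h
      simp
    · simp [h]
  rw [← LinearMap.charpoly_toMatrix (V a) v, this, Matrix.charpoly_diagonal]

variable {d : Type} [Fintype d] [DecidableEq d]

theorem indep_toLin {κ : Type} {M : κ → Matrix d d ℂ} (h : LinearIndependent ℂ M) :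
    LinearIndependent ℂ fun i => (Matrix.toLinAlgEquiv' (M i) : End ℂ (d → ℂ)) :=
  h.map' (Matrix.toLinAlgEquiv' (R := ℂ) (n := d)).toLinearEquiv.toLinearMap
    (LinearEquiv.ker _)

/-- EIG for matrices -/
theorem exists_diag (b : Basis Γ ℤ Λ) {χ : Γ → Λ →+* ℂ} (hχ : Injective χ)
    (V : Λ →+* Matrix d d ℂ) (hV : LinearIndependent ℂ fun i => V (b i))
    (hd : Fintype.card d = Fintype.card Γ) :
    ∃ (e : d ≃ Γ) (P Q : Matrix d d ℂ), P * Q = 1 ∧ Q * P = 1 ∧
      ∀ a, V a = P * Matrix.diagonal (fun i => χ (e i) a) * Q := by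
  obtain ⟨v, hv⟩ := exists_basis b hχ
    ((Matrix.toLinAlgEquiv' (R := ℂ) (n := d)).toRingEquiv.toRingHom.comp V) (indep_toLin hV)
    (by rw [finrank_fintype_fun_eq_card, hd])
  let e : d ≃ Γ := Fintype.equivOfCardEq hd
  let v' : Basis d ℂ (d → ℂ) := v.reindex e.symm
  have hv' : ∀ a i, (V a).mulVec (v' i) = χ (e i) a • v' i := fun a i => by
    have := hv a (e i)
    simpa [v', Matrix.toLinAlgEquiv'_apply] using this
  have hP : ∀ a, V a * (Pi.basisFun ℂ d).toMatrix v' =
      (Pi.basisFun ℂ d).toMatrix v' * Matrix.diagonal fun i => χ (e i) a := fun a => by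
    ext i k
    have := congrFun (hv' a k) i
    rw [Matrix.mul_diagonal, Matrix.mul_apply]
    simpa [Basis.toMatrix_apply, Matrix.mulVec, dotProduct, mul_comm] using this
  have h1 : (Pi.basisFun ℂ d).toMatrix v' * v'.toMatrix (Pi.basisFun ℂ d) = 1 := by
    rw [Basis.toMatrix_mul_toMatrix, Basis.toMatrix_self]
  refine ⟨e, _, v'.toMatrix (Pi.basisFun ℂ d), h1, by
    rw [Basis.toMatrix_mul_toMatrix, Basis.toMatrix_self], fun a => ?_⟩
  rw [← hP, mul_assoc, h1, mul_one]

theorem charpoly_mat (b : Basis Γ ℤ Λ) {χ : Γ → Λ →+* ℂ} (hχ : Injective χ)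
    (V : Λ →+* Matrix d d ℂ) (hV : LinearIndependent ℂ fun i => V (b i))
    (hd : Fintype.card d = Fintype.card Γ) (a : Λ) :
    (V a).charpoly = ∏ ρ, (X - C (χ ρ a)) := by
  rw [← charpoly_end b hχ
    ((Matrix.toLinAlgEquiv' (R := ℂ) (n := d)).toRingEquiv.toRingHom.comp V) (indep_toLin hV)
    (by rw [finrank_fintype_fun_eq_card, hd]) a]
  exact (Matrix.charpoly_toLin' (V a)).symm

/-- independence is kept by a change of fields -/
theorem indep_map {K L κ m n : Type} [Field K] [Field L] [Finite m] [Finite n] (j : K →+* L)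
    {M : κ → Matrix m n K} (h : LinearIndependent K M) :
    LinearIndependent L fun i => (M i).map j := by
  let _ := j.toAlgebra
  have h1 : LinearIndependent K fun i => fun x : m × n => M i x.1 x.2 :=
    h.map' (LinearEquiv.curry K K m n).symm.toLinearMap (LinearEquiv.ker _)
  have h2 := (linearIndependent_algebraMap_comp_iff (S := L)).2 h1
  exact h2.map' (LinearEquiv.curry L L m n).toLinearMap (LinearEquiv.ker _)

/-- EIG over any field with a map to `ℂ` -/
theorem charpoly_map {K : Type} [Field K] (j : K →+* ℂ) (b : Basis Γ ℤ Λ) {χ : Γ → Λ →+* ℂ}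
    (hχ : Injective χ) (V : Λ →+* End K (d → K)) (hV : LinearIndependent K fun i => V (b i))
    (hd : Fintype.card d = Fintype.card Γ) (a : Λ) :
    (V a).charpoly.map j = ∏ ρ, (X - C (χ ρ a)) := by
  let T := LinearMap.toMatrixAlgEquiv' (R := K) (n := d)
  have h1 : LinearIndependent K fun i => T (V (b i)) :=
    hV.map' T.toLinearEquiv.toLinearMap (LinearEquiv.ker _)
  rw [← charpoly_mat b hχ (j.mapMatrix.comp (T.toRingEquiv.toRingHom.comp V)) (indep_map j h1)
    hd a]
  change _ = ((T (V a)).map j).charpoly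
  rw [Matrix.charpoly_map]
  congr 1
  rw [← Matrix.charpoly_toLin']
  congr 1
  exact (Matrix.toLin'_toMatrix' (V a)).symm

theorem eq_zero_of_chi (b : Basis Γ ℤ Λ) {χ : Γ → Λ →+* ℂ} (hχ : Injective χ) {a : Λ}
    (h : ∀ ρ, χ ρ a = 0) : a = 0 := by
  classical
  obtain ⟨B, hB, -⟩ := Det.exists_inv b χ hχ
  have e1 : (Matrix.of fun ρ i => χ ρ (b i)).mulVec (fun i => (b.repr a i : ℂ)) = 0 :=
    funext fun ρ => by
      have := Det.chi_repr b (χ ρ).toAddMonoidHom a
      rw [Pi.zero_apply, ← h ρ, show χ ρ a = _ from this]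
      simp [Matrix.mulVec, dotProduct, mul_comm]
  have e2 := congrArg B.mulVec e1
  rw [Matrix.mulVec_mulVec, hB, Matrix.one_mulVec, Matrix.mulVec_zero] at e2
  refine b.ext_elem fun i => ?_
  rw [map_zero]
  exact Int.cast_eq_zero.1 (congrFun e2 i)

theorem eq_zero_of_nm (b : Basis Γ ℤ Λ) {χ : Γ → Λ →+* ℂ} (hχ : Injective χ) {a : Λ}
    (h : ∀ n : ℕ, Det.nm χ (n - a) = Det.nm χ n) : a = 0 := by
  have h1 : (∏ ρ, (X - C (χ ρ a)) : ℂ[X]) = X ^ Fintype.card Γ := by
    refine eq_of_infinite_eval_eq _ _ (Set.Infinite.mono ?_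
      (Set.infinite_range_of_injective (Nat.cast_injective (R := ℂ))))
    rintro _ ⟨n, rfl⟩
    have := h n
    simpa [Det.nm, eval_prod] using this
  refine eq_zero_of_chi b hχ fun ρ => ?_
  have h2 := congrArg (Polynomial.eval (χ ρ a)) h1
  rw [eval_prod, Finset.prod_eq_zero (Finset.mem_univ ρ) (by simp), eval_pow, eval_X] at h2
  exact pow_eq_zero_iff (Fintype.card_pos_iff.2 ⟨ρ⟩).ne' |>.1 h2.symm

end Alg

end Pool.Agent.Tav.Eg

namespace Pool.Agent.Tav

variable {Ω : Type} [Field Ω] {s : Sh}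

/-- the ring of a fibre acts faithfully -/
theorem Fib.faith (F : Fib Ω s) (hd : F.Deg) {a : s.Λ} (h : ∀ t : F.G, a • t = 0) : a = 0 := by
  refine Eg.eq_zero_of_nm s.bas s.inj fun n => ?_
  have h0 : ((F.DD F.H id : ℚ) : ℂ) ≠ 0 := by
    have : F.DD F.H id = mix F.H (F.H ∘ s.sl) := by
      unfold Fib.DD
      simp only [LS.pb_id]
      rfl
    rw [this]
    exact_mod_cast F.top
  have h1 := hd (n - a)
  have h2 : (fun t : F.G => ((n : s.Λ) - a) • t) = fun t => (n : s.Λ) • t :=
    funext fun t => by rw [sub_smul, h, sub_zero]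
  rw [h2, hd n] at h1
  exact (mul_right_cancel₀ h0 h1).symm

/-- a map of the ring that induces the action sends the basis to an independent family -/
theorem Fib.indep (F : Fib Ω s) (hd : F.Deg) {E : Type} [AddCommGroup E] (j : s.Λ →+ E)
    (h : ∀ a, j a = 0 → ∀ t : F.G, a • t = 0) : LinearIndependent ℤ fun i => j (s.bas i) :=
  s.bas.linearIndependent.map' j.toIntLinearMap
    (LinearMap.ker_eq_bot'.2 fun a ha => F.faith hd (h a ha))

end Pool.Agent.Tav
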