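import Pool.Agent.P.MP_2ce3e7_ag.Tav.TiDegDet

/-! A multiplicative polynomial law on a faithful commutative ring of full rank is the norm. -/

set_option autoImplicit false

noncomputable section

namespace Pool.Agent.Tav.DD

open Polynomial Det

variable {Λ Γ : Type} [CommRing Λ] [Fintype Γ]

theorem chi_ne_of_nzd (b : Module.Basis Γ ℤ Λ) (ψ : Λ →+* ℂ) {a : Λ}
    (ha : ∀ c, a * c = 0 → c = 0) : ψ a ≠ 0 := by
  intro h0
  have := Module.Finite.of_basis b
  obtain ⟨g, hg, hga⟩ := Algebra.IsIntegral.isIntegral (R := ℤ) a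
  obtain ⟨q, hq, hnd⟩ := exists_eq_pow_rootMultiplicity_mul_and_not_dvd g hg.ne_zero 0
  have hk : ∀ (k : ℕ) (c : Λ), a ^ k * c = 0 → c = 0 := by
    intro k
    induction k with
    | zero => intro c hc; simpa using hc
    | succ k ih => intro c hc; exact ih c (ha _ (by rw [← hc]; ring))
  have h1 : aeval a q = 0 := by
    refine hk (rootMultiplicity 0 g) _ ?_
    have : aeval a g = 0 := hga
    rw [hq] at this
    simpa using this
  have h2 := aeval_algHom_apply ψ.toIntAlgHom a q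
  rw [h1, map_zero, show ψ.toIntAlgHom a = algebraMap ℤ ℂ 0 by simpa using h0,
    aeval_algebraMap_apply, coe_aeval_eq_eval, eq_intCast, Int.cast_eq_zero] at h2
  exact hnd (dvd_iff_isRoot.2 h2)

variable {δ : Λ → ℤ}

theorem Law.cp_sep (h : Law δ (Fintype.card Γ)) (b : Module.Basis Γ ℤ Λ) {χ : Γ → Λ →+* ℂ}
    (hf : ∀ a, δ a ≠ 0 → ∀ ρ, χ ρ a ≠ 0) {θ : Λ} (hθ : Function.Injective fun ρ => χ ρ θ) :
    (δ (-θ) : ℂ) = nm χ (-θ) := by
  classical
  have := Module.Finite.of_basis b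
  obtain ⟨P, hm, hd, hv, hp⟩ := h.cp θ
  have hroot : ∀ ρ, aeval (χ ρ θ) P = 0 := by
    intro ρ
    have hi : IsIntegral ℤ (χ ρ θ) :=
      (Algebra.IsIntegral.isIntegral (R := ℤ) θ).map (χ ρ).toIntAlgHom
    have h1 : δ (aeval θ (minpoly ℤ (χ ρ θ))) = 0 := by
      by_contra hne
      exact hf _ hne ρ ((aeval_algHom_apply (χ ρ).toIntAlgHom θ _).symm.trans (minpoly.aeval ℤ _))
    have h2 := hp ℂ (minpoly ℤ (χ ρ θ))
    rw [h1, Int.cast_zero, eq_comm, Multiset.prod_eq_zero_iff] at h2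
    obtain ⟨y, hy, e⟩ := Multiset.mem_map.1 h2
    have hq : IsIntegral ℚ (χ ρ θ) := hi.tower_top
    have h3 : aeval y (minpoly ℚ (χ ρ θ)) = 0 := by
      rw [minpoly.isIntegrallyClosed_eq_field_fractions' ℚ hi, aeval_map_algebraMap, e]
    have h4 := minpoly.dvd ℚ y (mem_aroots.1 hy).2
    rw [← minpoly.eq_of_irreducible_of_monic (minpoly.irreducible hq) h3 (minpoly.monic hq)] at h4
    exact aeval_eq_zero_of_dvd_aeval_eq_zero h4 (minpoly.aeval ℚ _)
  have hle : Finset.univ.val.map (fun ρ => χ ρ θ) ≤ P.aroots ℂ := by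
    rw [Multiset.le_iff_subset (Finset.univ.nodup.map hθ)]
    intro x hx
    obtain ⟨ρ, -, rfl⟩ := Multiset.mem_map.1 hx
    exact mem_aroots.2 ⟨hm.ne_zero, hroot ρ⟩
  have he := Multiset.eq_of_le_of_card_le hle (by
    rw [aroots_def, ← (IsAlgClosed.splits _).natDegree_eq_card_roots, natDegree_map, hd]
    simp)
  have := hp ℂ (-X)
  rw [← he, Multiset.map_map, map_neg, aeval_X] at this
  rw [this, nm]
  exact congrArg _ (Multiset.map_congr rfl fun ρ _ => by simp)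

theorem Law.eq_nm' (h : Law δ (Fintype.card Γ)) (b : Module.Basis Γ ℤ Λ) {χ : Γ → Λ →+* ℂ}
    (hχ : Function.Injective χ) (hf : ∀ a, δ a ≠ 0 → ∀ ρ, χ ρ a ≠ 0) (a : Λ) :
    (δ a : ℂ) = nm χ a := by
  classical
  obtain ⟨F, hF, e⟩ := ext b hχ (h.pol.comp (Pi.evalAddMonoidHom (fun _ : Unit => Λ) ()))
  have hN : PF fun z : Γ → Unit → ℂ => ∏ ρ, z ρ () := PF.prod _ fun ρ _ => PF.var ρ ()
  have hD : PF fun z : Γ → Unit → ℂ => ∏ x ∈ Finset.univ.offDiag, (z x.1 () - z x.2 ()) :=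
    PF.prod _ fun x _ => (PF.var x.1 ()).sub (PF.var x.2 ())
  have key := (hF.sub hN).zero_of_mul hD (fun ρ _ => ((Fintype.equivFin Γ ρ : ℕ) : ℂ))
    (Finset.prod_ne_zero_iff.2 fun x hx => sub_ne_zero.2 fun e => (Finset.mem_offDiag.1 hx).2.2
      ((Fintype.equivFin Γ).injective (Fin.ext (by exact_mod_cast e))))
    (dense b hχ ((hF.sub hN).mul hD) fun m => by
      by_cases hi : Function.Injective fun ρ => χ ρ (-m ())
      · have := h.cp_sep b hf hi
        rw [neg_neg] at this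
        rw [← e m]
        exact mul_eq_zero_of_left (sub_eq_zero.2 this) _
      · obtain ⟨ρ, σ, h1, h2⟩ := Function.not_injective_iff.1 hi
        refine mul_eq_zero_of_right _ (Finset.prod_eq_zero (i := (ρ, σ))
          (Finset.mem_offDiag.2 ⟨Finset.mem_univ _, Finset.mem_univ _, h2⟩) ?_)
        simpa [ev, sub_eq_zero] using h1) (ev χ fun _ => a)
  rw [← e] at key
  exact sub_eq_zero.1 key

/-- the degree is the norm -/
theorem Law.eq_nm (h : Law δ (Fintype.card Γ)) (b : Module.Basis Γ ℤ Λ) {χ : Γ → Λ →+* ℂ}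
    (hχ : Function.Injective χ) (hf : ∀ a, δ a ≠ 0 → ∀ c, a * c = 0 → c = 0) (a : Λ) :
    (δ a : ℂ) = nm χ a :=
  h.eq_nm' b hχ (fun a ha ρ => chi_ne_of_nzd b (χ ρ) (hf a ha)) a

theorem Law.nm (b : Module.Basis Γ ℤ Λ) {χ : Γ → Λ →+* ℂ} (hχ : Function.Injective χ)
    (h : Law δ (Fintype.card Γ)) (hz : ∀ a c, δ a ≠ 0 → a * c = 0 → c = 0) (a : Λ) :
    (δ a : ℂ) = Det.nm χ a :=
  h.eq_nm b hχ (fun a ha c => hz a c ha) a

end Pool.Agent.Tav.DD
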