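import Mathlib

/-! A commutative ring of endomorphisms of full rank, from the isogeny theorem. -/

set_option autoImplicit false

noncomputable section

namespace Pool.Agent.Tav.Ti

open Matrix Function

variable {K : Type} [Field K]

/-- a polynomial in the entries that is nonzero on the span is nonzero on the group -/
theorem int_pt [CharZero K] {A m n : Type} [AddCommGroup A] (V : A →+ Matrix m n K)
    (f : MvPolynomial (m × n) K) {M : Matrix m n K} (hM : M ∈ Submodule.span K (Set.range V))
    (h : MvPolynomial.eval (fun p : m × n => M p.1 p.2) f ≠ 0) :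
    ∃ a, MvPolynomial.eval (fun p : m × n => V a p.1 p.2) f ≠ 0 := by
  classical
  obtain ⟨c, rfl⟩ := (Finsupp.mem_span_range_iff_exists_finsupp).1 hM
  let g : MvPolynomial A K := MvPolynomial.bind₁
    (fun p : m × n => ∑ a ∈ c.support, MvPolynomial.X a * MvPolynomial.C (V a p.1 p.2)) f
  have hg : ∀ x : A → K, MvPolynomial.eval x g =
      MvPolynomial.eval (fun p : m × n => (∑ a ∈ c.support, x a • V a) p.1 p.2) f := by
    intro x
    have := MvPolynomial.eval₂Hom_bind₁ (RingHom.id K) x
      (fun p : m × n => ∑ a ∈ c.support, MvPolynomial.X a * MvPolynomial.C (V a p.1 p.2)) f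
    refine this.trans ?_
    change MvPolynomial.eval _ f = _
    congr 2
    funext p
    simp [Matrix.sum_apply]
  by_contra hn
  push Not at hn
  have h0 : g = 0 := by
    refine MvPolynomial.funext_set (fun _ => Set.range (Int.cast : ℤ → K))
      (fun _ => Set.infinite_range_of_injective Int.cast_injective) fun x hx => ?_
    choose z hz using fun a => hx a (Set.mem_univ a)
    have e : ∑ a ∈ c.support, x a • V a = V (∑ a ∈ c.support, z a • a) := by
      rw [map_sum]
      refine Finset.sum_congr rfl fun a _ => ?_
      rw [map_zsmul, ← hz a, Int.cast_smul_eq_zsmul]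
    rw [hg, map_zero, e, hn]
  apply h
  have := hg c
  rw [h0, map_zero] at this
  exact this.symm

variable {d : Type} [Fintype d] [DecidableEq d]

omit [Fintype d] [DecidableEq d] in
theorem map_X (M : Matrix d d K) :
    (mvPolynomialX d d K).map (MvPolynomial.eval fun p : d × d => M p.1 p.2) = M := by
  ext i j
  simp [mvPolynomialX]

/-- INT -/
theorem exists_det_ne [CharZero K] {A : Type} [AddCommGroup A] (V : A →+ Matrix d d K)
    {M : Matrix d d K} (hM : M ∈ Submodule.span K (Set.range V)) (h : M.det ≠ 0) :
    ∃ a, (V a).det ≠ 0 := by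
  have key : ∀ N : Matrix d d K, MvPolynomial.eval (fun p : d × d => N p.1 p.2)
      (mvPolynomialX d d K).det = N.det := fun N => by
    rw [RingHom.map_det, RingHom.mapMatrix_apply, map_X]
  obtain ⟨a, ha⟩ := int_pt V (mvPolynomialX d d K).det hM (by rwa [key])
  exact ⟨a, by rwa [key] at ha⟩

theorem exists_sep [CharZero K] {A : Type} [AddCommGroup A] (V : A →+ Matrix d d K)
    {M : Matrix d d K} (hM : M ∈ Submodule.span K (Set.range V)) (h : M.charpoly.Separable) :
    ∃ a, (V a).charpoly.Separable := by
  let f := Polynomial.resultant (mvPolynomialX d d K).charpoly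
    (Polynomial.derivative (mvPolynomialX d d K).charpoly) (Fintype.card d) (Fintype.card d - 1)
  have key : ∀ N : Matrix d d K, MvPolynomial.eval (fun p : d × d => N p.1 p.2) f ≠ 0 ↔
      N.charpoly.Separable := fun N => by
    rw [← Polynomial.resultant_map_map, ← Polynomial.derivative_map, ← charpoly_map, map_X,
      Polynomial.separable_def, ← Polynomial.isUnit_resultant_iff_isCoprime (charpoly_monic N),
      isUnit_iff_ne_zero, Polynomial.natDegree_derivative, charpoly_natDegree_eq_dim]
  obtain ⟨a, ha⟩ := int_pt V f hM ((key M).2 h)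
  exact ⟨a, (key _).1 ha⟩

/-- a matrix killed by a separable polynomial is diagonalisable -/
theorem diag_of_sep [IsAlgClosed K] (M : Matrix d d K) {f : Polynomial K} (hf : f.Separable)
    (h : Polynomial.aeval M f = 0) :
    ∃ (P : Matrix d d K) (α : d → K), IsUnit P.det ∧ M * P = P * diagonal α := by
  have hs : Module.End.IsSemisimple (toLinAlgEquiv' M : Module.End K (d → K)) :=
    Module.End.isSemisimple_of_squarefree_aeval_eq_zero hf.squarefree (by
      rw [Polynomial.aeval_algEquiv]
      change toLinAlgEquiv' (Polynomial.aeval M f) = 0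
      rw [h, map_zero])
  have ht := hs.iSup_eigenspace_eq_top
  let S : Set (d → K) := {v | ∃ μ : K, M.mulVec v = μ • v}
  have hS : Submodule.span K S = ⊤ := by
    rw [eq_top_iff, ← ht]
    refine iSup_le fun μ v hv => Submodule.subset_span ⟨μ, ?_⟩
    simpa using Module.End.mem_eigenspace_iff.1 hv
  obtain ⟨b, hb, hsp, hli⟩ := exists_linearIndependent K S
  let B0 : Module.Basis b K (d → K) := Module.Basis.mk hli (by
    rw [Subtype.range_coe, hsp, hS])
  let e : b ≃ d := B0.indexEquiv (Pi.basisFun K d)
  let B := B0.reindex e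
  have hB : ∀ j, B j ∈ S := fun j => by
    simp only [B, B0, Module.Basis.reindex_apply, Module.Basis.mk_apply]
    exact hb (e.symm j).2
  choose α hα using hB
  refine ⟨(Pi.basisFun K d).toMatrix B, α, ?_, ?_⟩
  · exact (Pi.basisFun K d).isUnit_det B
  · ext i j
    have := congrFun (hα j) i
    simp only [mulVec, dotProduct, Pi.smul_apply, smul_eq_mul] at this
    simp only [mul_apply, Module.Basis.toMatrix_apply, Pi.basisFun_repr, this, diagonal_apply,
      mul_ite, mul_zero, Finset.sum_ite_eq', Finset.mem_univ, if_true]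
    ring

theorem charpoly_of_diag {M P : Matrix d d K} {α : d → K} (hP : IsUnit P.det)
    (h : M * P = P * diagonal α) : M.charpoly = ∏ i, (Polynomial.X - Polynomial.C (α i)) := by
  have : M = P * (diagonal α * P⁻¹) := by
    rw [← Matrix.mul_assoc, ← h, Matrix.mul_assoc, mul_nonsing_inv _ hP, Matrix.mul_one]
  rw [this, charpoly_mul_comm, Matrix.mul_assoc, nonsing_inv_mul _ hP, Matrix.mul_one,
    charpoly_diagonal]

theorem diag_of_comm {α : d → K} (hα : Injective α) {N : Matrix d d K}
    (h : N * diagonal α = diagonal α * N) : N = diagonal fun i => N i i := by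
  ext i j
  by_cases e : i = j
  · subst e
    simp
  · rw [diagonal_apply_ne _ e]
    have := congrFun (congrFun h i) j
    rw [mul_diagonal, diagonal_mul, mul_comm (α i), ← sub_eq_zero, ← mul_sub] at this
    exact (mul_eq_zero.1 this).resolve_right (sub_ne_zero.2 fun e' => e (hα e').symm)

variable {E : Type} [Ring E]

/-- an element that commutes with `F` and has distinct eigenvalues -/
theorem exists_theta [IsAlgClosed K] [CharZero K] (V : E →+* Matrix d d K) (F : E)
    (hF : ∃ (P : Matrix d d K) (α : d → K), IsUnit P.det ∧ V F * P = P * diagonal α)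
    (hTI : ∀ M, M * V F = V F * M → M ∈ Submodule.span K (V '' {a | a * F = F * a})) :
    ∃ (θ : E) (P : Matrix d d K) (α : d → K), θ * F = F * θ ∧ IsUnit P.det ∧ Injective α ∧
      V θ * P = P * diagonal α := by
  obtain ⟨P, α, hP, h⟩ := hF
  let β : d → K := fun i => ((Fintype.equivFin d i : ℕ) : K)
  have hβ : Injective β := fun i j e =>
    (Fintype.equivFin d).injective (Fin.ext (Nat.cast_injective (R := K) e))
  have hV : V F = P * diagonal α * P⁻¹ := by
    rw [← h, Matrix.mul_assoc, mul_nonsing_inv _ hP, Matrix.mul_one]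
  have hc : P * diagonal β * P⁻¹ * V F = V F * (P * diagonal β * P⁻¹) := by
    rw [hV]
    simp only [Matrix.mul_assoc, nonsing_inv_mul_cancel_left _ _ hP]
    rw [← Matrix.mul_assoc (diagonal β), ← Matrix.mul_assoc (diagonal α), diagonal_mul_diagonal,
      diagonal_mul_diagonal]
    simp only [mul_comm]
  let C := Subring.centralizer ({F} : Set E)
  let W : C →+ Matrix d d K := V.toAddMonoidHom.comp C.subtype.toAddMonoidHom
  have hW : Set.range W = V '' {a | a * F = F * a} := by
    ext M
    constructor
    · rintro ⟨a, rfl⟩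
      exact ⟨a, (a.2 F rfl).symm, rfl⟩
    · rintro ⟨a, ha, rfl⟩
      exact ⟨⟨a, fun b hb => by rw [Set.mem_singleton_iff.1 hb]; exact ha.symm⟩, rfl⟩
  obtain ⟨a, ha⟩ := exists_sep W (M := P * diagonal β * P⁻¹) (hW ▸ hTI _ hc) (by
    rw [charpoly_of_diag (α := β) hP (by
      rw [Matrix.mul_assoc, nonsing_inv_mul _ hP, Matrix.mul_one])]
    exact Polynomial.separable_prod_X_sub_C_iff.2 hβ)
  obtain ⟨Q, γ, hQ, hγ⟩ := diag_of_sep (W a) ha (aeval_self_charpoly _)
  refine ⟨a, Q, γ, (a.2 F rfl).symm, hQ, ?_, hγ⟩
  rw [charpoly_of_diag hQ hγ] at ha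
  exact Polynomial.separable_prod_X_sub_C_iff.1 ha

/-- the commutant of an element with distinct eigenvalues -/
theorem commutant [CharZero K] [Module.Finite ℤ E] (V : E →+* Matrix d d K) (hinj : Injective V)
    (hind : ∀ (n : ℕ) (a : Fin n → E), LinearIndependent ℤ a →
      LinearIndependent K fun i => V (a i))
    {θ : E} {P : Matrix d d K} {α : d → K} (hP : IsUnit P.det) (hα : Injective α)
    (h : V θ * P = P * diagonal α) :
    ∃ (χ : d → Subring.centralizer ({θ} : Set E) →+* K)
      (_ : Module.Basis d ℤ (Subring.centralizer ({θ} : Set E))), Injective χ ∧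
      (∀ a b : Subring.centralizer ({θ} : Set E), a * b = b * a) ∧
      ∀ a : Subring.centralizer ({θ} : Set E), V a * P = P * diagonal fun ρ => χ ρ a := by
  set L := Subring.centralizer ({θ} : Set E) with hL
  let c : E → Matrix d d K := fun a => P⁻¹ * V a * P
  have c1 : c 1 = 1 := by simp [c, nonsing_inv_mul _ hP]
  have cm : ∀ a b, c (a * b) = c a * c b := fun a b => by
    simp only [c, map_mul, Matrix.mul_assoc, mul_nonsing_inv_cancel_left _ _ hP]
  have ca : ∀ a b, c (a + b) = c a + c b := fun a b => by
    simp only [c, map_add, Matrix.mul_add, Matrix.add_mul]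
  have cV : ∀ a, V a * P = P * c a := fun a => by
    simp only [c, Matrix.mul_assoc, mul_nonsing_inv_cancel_left _ _ hP]
  have cθ : c θ = diagonal α := by
    simp only [c, Matrix.mul_assoc, h, nonsing_inv_mul_cancel_left _ _ hP]
  have cd : ∀ a : L, c a = diagonal fun i => c a i i := fun a =>
    diag_of_comm hα (by rw [← cθ, ← cm, ← cm, a.2 θ rfl])
  let χ : d → L →+* K := fun ρ =>
    { toFun := fun a => c a ρ ρ
      map_one' := by simp [c1]
      map_mul' := fun a b => by
        rw [Subring.coe_mul, cm, cd a, diagonal_mul]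
        simp
      map_zero' := by simp [c]
      map_add' := fun a b => by rw [Subring.coe_add, ca, Matrix.add_apply] }
  have hχ : ∀ a : L, V a * P = P * diagonal fun ρ => χ ρ a := fun a => by
    rw [cV]
    exact congrArg (P * ·) (cd a)
  let t : L := ⟨θ, fun b hb => by rw [Set.mem_singleton_iff.1 hb]⟩
  have ht : ∀ ρ, χ ρ t = α ρ := fun ρ => by
    change c θ ρ ρ = _
    rw [cθ, diagonal_apply_eq]
  have hV : ∀ a : L, V a = P * (diagonal fun ρ => χ ρ a) * P⁻¹ := fun a => by
    rw [← hχ, Matrix.mul_assoc, mul_nonsing_inv _ hP, Matrix.mul_one]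
  have hext : ∀ a b : L, (∀ ρ, χ ρ a = χ ρ b) → a = b := fun a b e =>
    Subtype.ext (hinj (by rw [hV, hV, funext e]))
  have : IsAddTorsionFree (Matrix d d K) := inferInstanceAs (IsAddTorsionFree (d → d → K))
  have : IsAddTorsionFree E := hinj.isAddTorsionFree V.toAddMonoidHom
  have : Module.Finite ℤ L :=
    Module.Finite.of_injective L.subtype.toAddMonoidHom.toIntLinearMap Subtype.val_injective
  have : IsAddTorsionFree L :=
    Subtype.val_injective.isAddTorsionFree L.subtype.toAddMonoidHom
  have : Module.Free ℤ L := inferInstance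
  have hr : Module.finrank ℤ L = Fintype.card d := by
    refine le_antisymm ?_ ?_
    · let b := Module.finBasis ℤ L
      have h1 := hind _ (fun i => (b i : E)) (b.linearIndependent.map'
        L.subtype.toAddMonoidHom.toIntLinearMap (LinearMap.ker_eq_bot.2 Subtype.val_injective))
      let T : (d → K) →ₗ[K] Matrix d d K :=
        { toFun := fun x => P * diagonal x * P⁻¹
          map_add' := fun x y => by
            rw [← Matrix.add_mul, ← Matrix.mul_add, diagonal_add]
            rfl
          map_smul' := fun r x => by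
            rw [diagonal_smul, Matrix.mul_smul, Matrix.smul_mul]
            rfl }
      have h2 : LinearIndependent K fun i ρ => χ ρ (b i) :=
        LinearIndependent.of_comp T (by
          have e : (⇑T ∘ fun i ρ => χ ρ (b i)) = fun i => V (b i) :=
            funext fun i => (hV (b i)).symm
          rw [e]
          exact h1)
      simpa using h2.fintype_card_le_finrank
    · have h3 : LinearIndependent ℤ fun i : Fin (Fintype.card d) => t ^ (i : ℕ) := by
        rw [Fintype.linearIndependent_iff]
        intro g hg
        let e := (Fintype.equivFin d).symm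
        have h4 := eq_zero_of_forall_index_sum_mul_pow_eq_zero (f := α ∘ e)
          (v := fun i => (g i : K)) (hα.comp e.injective) fun j => by
            have := congrArg (χ (e j)) hg
            simpa [map_sum, ht] using this
        intro i
        exact Int.cast_eq_zero.1 (congrFun h4 i)
      simpa using h3.fintype_card_le_finrank
  refine ⟨χ, (Module.finBasisOfFinrankEq ℤ L hr).reindex (Fintype.equivFin d).symm,
    fun ρ ρ' e => hα (by rw [← ht, ← ht, e]), fun a b => hext _ _ fun ρ => ?_, hχ⟩
  rw [map_mul, map_mul, mul_comm]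

/-- FIB -/
theorem fib [IsAlgClosed K] [CharZero K] [Module.Finite ℤ E] (V : E →+* Matrix d d K)
    (hinj : Injective V)
    (hind : ∀ (n : ℕ) (a : Fin n → E), LinearIndependent ℤ a →
      LinearIndependent K fun i => V (a i))
    (F : E) (hF : ∃ (P : Matrix d d K) (α : d → K), IsUnit P.det ∧ V F * P = P * diagonal α)
    (hTI : ∀ M, M * V F = V F * M → M ∈ Submodule.span K (V '' {a | a * F = F * a})) :
    ∃ (L : Subring E) (χ : d → L →+* K) (_ : Module.Basis d ℤ L) (P : Matrix d d K),
      F ∈ L ∧ Injective χ ∧ (∀ a b : L, a * b = b * a) ∧ IsUnit P.det ∧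
      (∀ a : L, V a * P = P * diagonal fun ρ => χ ρ a) ∧
      ∀ a : E, (∀ b ∈ L, a * b = b * a) → a ∈ L := by
  obtain ⟨θ, P, α, hθ, hP, hα, h⟩ := exists_theta V F hF hTI
  obtain ⟨χ, b, h1, h2, h3⟩ := commutant V hinj hind hP hα h
  refine ⟨_, χ, b, P, fun x hx => ?_, h1, h2, hP, h3, fun a ha x hx => ?_⟩
  · rw [Set.mem_singleton_iff.1 hx]
    exact hθ
  · rw [Set.mem_singleton_iff.1 hx]
    exact (ha θ fun y hy => by rw [Set.mem_singleton_iff.1 hy]).symm

end Pool.Agent.Tav.Ti
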