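import Pool.Agent.P.MP_2ce3e7_ag.Tav.HPol
import Pool.Agent.P.MP_2ce3e7_ag.Tav.RKc

namespace Pool.Agent.Tav

open Module MvPolynomial Function

variable {Ω : Type} [Field Ω] {A A' : Type} [CommRing A] [Algebra Ω A] [CommRing A'] [Algebra Ω A']
variable {ι κ : Type} [Fintype ι] [Fintype κ]

/-- image of a family under an algebra map -/
def mapF (φ : A →ₐ[Ω] A') (L : ι → Submodule Ω A) (i : ι) : Submodule Ω A' :=
  (L i).map φ.toLinearMap

instance fd_mapF (φ : A →ₐ[Ω] A') (L : ι → Submodule Ω A) [∀ i, FiniteDimensional Ω (L i)]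
    (i : ι) : FiniteDimensional Ω (mapF φ L i) := by
  unfold mapF; infer_instance

theorem pw_mapF (φ : A →ₐ[Ω] A') (L : ι → Submodule Ω A) (d : ι → ℕ) :
    pw (mapF φ L) d = (pw L d).map φ.toLinearMap := by
  classical
  induction d using vec_ind with
  | h0 => rw [pw_zero, pw_zero, Submodule.map_one]
  | hs i m ih =>
    rw [pw_add, pw_add, pw_single, pw_single, pow_one, pow_one, ih, Submodule.map_mul]; rfl

omit [Fintype ι] [Fintype κ] in
theorem mapF_elim (φ : A →ₐ[Ω] A') (L : ι → Submodule Ω A) (W : κ → Submodule Ω A) :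
    mapF φ (Sum.elim L W) = Sum.elim (mapF φ L) (mapF φ W) := by
  funext i; cases i <;> rfl

theorem hf_mapF_of_inj {φ : A →ₐ[Ω] A'} {L : ι → Submodule Ω A} {d : ι → ℕ}
    (h : ∀ x ∈ pw L d, φ x = 0 → x = 0) : hf (mapF φ L) d = hf L d := by
  change finrank Ω (pw (mapF φ L) d) = finrank Ω (pw L d)
  have hinj : Injective (φ.toLinearMap.domRestrict (pw L d)) := by
    rw [injective_iff_map_eq_zero]
    intro x hx
    exact Subtype.ext (h x x.2 hx)
  rw [pw_mapF, ← LinearMap.finrank_range_of_inj hinj, LinearMap.range_domRestrict]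

theorem pf_mapF_of_inj {φ : A →ₐ[Ω] A'} {L : ι → Submodule Ω A}
    (h : ∀ d, ∀ x ∈ pw L d, φ x = 0 → x = 0) : pf (mapF φ L) = pf L :=
  hP_congr (Lg.of_forall fun d => hf_mapF_of_inj (h d))

theorem Dg.pf_mapF {L : ι → Submodule Ω A} [∀ i, FiniteDimensional Ω (L i)] {n : ℤ}
    (h : Dg (pf L) n) (φ : A →ₐ[Ω] A') : Dg (pf (mapF φ L)) n :=
  (evP_pf _).dg_of_le (evP_pf L) h (Lg.of_forall fun d => ⟨Nat.cast_nonneg _, by
    rw [Nat.cast_le]
    change finrank Ω (pw (mapF φ L) d) ≤ finrank Ω (pw L d)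
    rw [pw_mapF]
    exact Submodule.finrank_map_le _ _⟩)

/-- a proper quotient of a graded domain has smaller degree -/
theorem Dg.pf_mapF_drop {L : ι → Submodule Ω A} [∀ i, FiniteDimensional Ω (L i)] {n : ℤ}
    (h : Dg (pf L) n) (hL : NoZD (pw L)) {φ : A →ₐ[Ω] A'} {e : ι → ℕ} {f : A} (he : f ∈ pw L e)
    (f0 : f ≠ 0) (hφ : φ f = 0) : Dg (pf (mapF φ L)) (n - 1) := by
  have key : Dg (Tav.sh (fun i => (e i : ℚ)) (pf (mapF φ L))) (n - 1) := by
    refine ((evP_pf (mapF φ L)).shift e).dg_of_le (((evP_pf L).shift e).sub (evP_pf L))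
      (h.sh_sub _) (Lg.of_forall fun d => ⟨Nat.cast_nonneg _, ?_⟩)
    have h1 := rank_map_add (pw L (d + e)) φ.toLinearMap
    have h2 : finrank Ω (pw L d) ≤
        finrank Ω (pw L (d + e) ⊓ LinearMap.ker φ.toLinearMap : Submodule Ω A) := by
      refine finrank_le_of_rat (g := f) (l := 1)
        (fun x hx h0 => (hL _ _ f he x hx h0).resolve_left f0) fun x hx => ⟨f * x, ⟨?_, ?_⟩, ?_⟩
      · rw [add_comm, pw_add]; exact Submodule.mul_mem_mul he hx
      · change φ (f * x) = 0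
        rw [map_mul, hφ, zero_mul]
      · rw [one_mul]
    rw [← pw_mapF] at h1
    change (finrank Ω (pw (mapF φ L) (d + e)) : ℚ) ≤
      (finrank Ω (pw L (d + e)) : ℚ) - (finrank Ω (pw L d) : ℚ)
    rw [le_sub_iff_add_le]
    exact_mod_cast (by omega)
  have := key.sh fun i => -(e i : ℚ)
  have e1 : ((fun i => -(e i : ℚ)) + fun i => (e i : ℚ)) = 0 := funext fun i => by simp
  rwa [sh_sh, e1, sh_zero] at this

omit [Fintype ι] [Fintype κ] in
theorem fac_mapDomain {f : κ → ι} (hi : Injective f) (α : κ →₀ ℕ) :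
    ((α.mapDomain f).prod fun _ k => k.factorial) = α.prod fun _ k => k.factorial :=
  Finsupp.prod_mapDomain_index_inj hi

omit [Fintype ι] [Fintype κ] in
theorem nc_of_coeff {f : κ → ι} (hi : Injective f) {α : κ →₀ ℕ} {P : MvPolynomial ι ℚ}
    {Q : MvPolynomial κ ℚ} {r : ℚ} (h : coeff (α.mapDomain f) P = r * coeff α Q) :
    nc (α.mapDomain f) P = r * nc α Q := by
  rw [nc_apply, nc_apply, fac_mapDomain hi, h]; ring

/-- rational members do not raise the degree -/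
theorem Dg.pf_rat (L : ι → Submodule Ω A) [∀ i, FiniteDimensional Ω (L i)] {f : κ → ι}
    (hi : Injective f) (hL : NoZD (pw L)) (hrat : ∀ i, i ∉ Set.range f → RatOver (L ∘ f) (L i))
    {n : ℤ} (dQ : Dg (pf (L ∘ f)) n) : Dg (pf L) n :=
  dg_of_rat L hi hL hrat (evP_pf L) (evP_pf _) dQ

/-- FG for `pf` -/
theorem coeff_pf_fg (L : ι → Submodule Ω A) [∀ i, FiniteDimensional Ω (L i)] {f : κ → ι}
    (hi : Injective f) (hL : NoZD (pw L)) (hrat : ∀ i, i ∉ Set.range f → RatOver (L ∘ f) (L i))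
    {n : ℤ} (dQ : Dg (pf (L ∘ f)) n) (α : κ →₀ ℕ) (hα : n ≤ α.degree) :
    coeff (α.mapDomain f) (pf L) = coeff α (pf (L ∘ f)) :=
  fg_coeff L hi hL hrat (evP_pf L) (evP_pf _) dQ α hα

theorem nc_pf_fg (L : ι → Submodule Ω A) [∀ i, FiniteDimensional Ω (L i)] {f : κ → ι}
    (hi : Injective f) (hL : NoZD (pw L)) (hrat : ∀ i, i ∉ Set.range f → RatOver (L ∘ f) (L i))
    {n : ℤ} (dQ : Dg (pf (L ∘ f)) n) (α : κ →₀ ℕ) (hα : n ≤ α.degree) :
    nc (α.mapDomain f) (pf L) = nc α (pf (L ∘ f)) := by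
  rw [nc_of_coeff hi (r := 1) (Q := pf (L ∘ f)) (by
    rw [one_mul]; exact coeff_pf_fg L hi hL hrat dQ α hα), one_mul]

theorem exists_ne_zero_pw [Nontrivial A] {L : ι → Submodule Ω A} (hL : NoZD (pw L)) (m : ι → ℕ)
    (h : ∀ i, m i ≠ 0 → L i ≠ ⊥) : ∃ u ∈ pw L m, u ≠ 0 := by
  classical
  induction m using vec_ind with
  | h0 => exact ⟨1, one_mem_pw L, one_ne_zero⟩
  | hs i m ih =>
    obtain ⟨u, hu, u0⟩ := ih fun j hj => h j (by rw [Pi.add_apply]; omega)
    obtain ⟨l, hl, l0⟩ := Submodule.exists_mem_ne_zero_of_ne_bot (h i (by simp))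
    have hl1 : l ∈ pw L (Pi.single i 1) := by rwa [pw_single, pow_one]
    exact ⟨u * l, by rw [pw_add]; exact Submodule.mul_mem_mul hu hl1,
      fun hc => (hL _ _ u hu l hl1 hc).elim u0 l0⟩

omit [Fintype ι] in
theorem RatOver.ne_bot {B : κ → Submodule Ω A} {W : Submodule Ω A} (h : RatOver B W) : W ≠ ⊥ := by
  obtain ⟨_, _, _, l, hl, _, l0, _⟩ := h
  rintro rfl
  exact l0 hl

/-- a subfamily has no larger degree when the other members are nonzero -/
theorem Dg.pf_sub (L : ι → Submodule Ω A) [∀ i, FiniteDimensional Ω (L i)] {f : κ → ι}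
    (hi : Injective f) (hL : NoZD (pw L)) (h0 : ∀ i, i ∉ Set.range f → L i ≠ ⊥)
    {n : ℤ} (dP : Dg (pf L) n) : Dg (pf (L ∘ f)) n := by
  classical
  rcases subsingleton_or_nontrivial A with hA | hA
  · rw [evP_zero_of_subsingleton (evP_pf (L ∘ f))]; exact dg_zero n
  obtain ⟨N, hN⟩ : ∃ N : ℕ, ∀ d : ι → ℕ, (∀ i, N ≤ d i) → evN d (pf L) = hw L d := evP_pf L
  let m : ι → ℕ := fun i => if i ∈ Set.range f then 0 else N
  obtain ⟨u, hu, u0⟩ := exists_ne_zero_pw hL m fun i h => h0 i fun h' => h (if_pos h')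
  have hP' : EvP (fun a => hw L (extend f a 0 + m))
      (killCompl hi (Tav.sh (fun i => (m i : ℚ)) (pf L))) := by
    refine ⟨N, fun a ha => ?_⟩
    change evN a _ = hw L _
    rw [evN_killCompl, evN_sh, hN]
    intro i
    by_cases h : i ∈ Set.range f
    · obtain ⟨j, rfl⟩ := h
      rw [Pi.add_apply, hi.extend_apply]
      exact (ha j).trans (Nat.le_add_right _ _)
    · rw [Pi.add_apply]
      exact (le_of_eq (if_neg h).symm).trans (Nat.le_add_left _ _)
  refine (evP_pf (L ∘ f)).dg_of_le hP' (fun s hs => ?_)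
    (Lg.of_forall fun a => ⟨Nat.cast_nonneg _, ?_⟩)
  · rw [coeff_killCompl]
    exact dP.sh _ _ (by rwa [degree_mapDomain'])
  · change (finrank Ω (pw (L ∘ f) a) : ℚ) ≤ finrank Ω (pw L (extend f a 0 + m))
    rw [Nat.cast_le, ← pw_extend L hi]
    exact finrank_le_of_rat (g := u) (l := 1)
      (fun x hx h => (hL _ _ u hu x hx h).resolve_left u0) fun x hx =>
      ⟨u * x, by rw [add_comm, pw_add]; exact Submodule.mul_mem_mul hu hx, (one_mul _).symm⟩

/-- injectivity on the pieces passes to rational members -/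
theorem inj_add_rat {φ : A →ₐ[Ω] A'} {L : ι → Submodule Ω A} {f : κ → ι} (hi : Injective f)
    (hL : NoZD (pw L)) (hL' : NoZD (pw (mapF φ L)))
    (hrat : ∀ i, i ∉ Set.range f → RatOver (L ∘ f) (L i))
    (h0 : ∀ i, i ∉ Set.range f → mapF φ L i ≠ ⊥)
    (h : ∀ d, ∀ x ∈ pw (L ∘ f) d, φ x = 0 → x = 0) : ∀ d, ∀ x ∈ pw L d, φ x = 0 → x = 0 := by
  classical
  rcases subsingleton_or_nontrivial A with hA | hA
  · exact fun _ x _ _ => Subsingleton.elim _ _
  have mem : ∀ {d x}, x ∈ pw L d → φ x ∈ pw (mapF φ L) d := fun hx => by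
    rw [pw_mapF]; exact ⟨_, hx, rfl⟩
  have hA' : Nontrivial A' := by
    by_contra hc
    rw [not_nontrivial_iff_subsingleton] at hc
    exact one_ne_zero (h 0 1 (one_mem_pw _) (Subsingleton.elim _ _))
  intro d x hx hx0
  have ex : ∀ i, ∃ e, i ∉ Set.range f → RatAt (L ∘ f) (L i) e := fun i => by
    by_cases h : i ∈ Set.range f
    · exact ⟨0, fun h' => absurd h h'⟩
    · exact (hrat i h).imp fun _ he _ => he
  choose e he using ex
  obtain ⟨g, hg, l, hl, g0, -, hy⟩ := ratAt_pw hL (hL.comp hi) e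
    (fun i => if i ∈ Set.range f then 0 else d i) fun i h => he i fun h' => h (if_pos h')
  have h1 := rat_mul hy (rat_refl (pw (L ∘ f) (d ∘ f)))
  rw [← pw_split L hi, ← pw_add, mul_one, mul_one] at h1
  have hg' := hg
  rw [← pw_extend L hi] at hg'
  have l0 : φ l ≠ 0 := by
    obtain ⟨u', hu', u0⟩ := exists_ne_zero_pw hL' (fun i => if i ∈ Set.range f then 0 else d i)
      fun i h => h0 i fun h' => h (if_pos h')
    have hu2 := hu'
    rw [pw_mapF] at hu2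
    obtain ⟨u, hu, rfl⟩ := hu2
    obtain ⟨y, -, e1⟩ := hy u hu
    intro hc
    have e2 : φ g * φ u = 0 := by rw [← map_mul, e1, map_mul, hc, zero_mul]
    exact (hL' _ _ _ (mem hg') _ hu' e2).elim (fun h2 => g0 (h _ g hg h2)) u0
  obtain ⟨y, hy', e1⟩ := h1 x hx
  have e2 : φ l * φ y = 0 := by rw [← map_mul, ← e1, map_mul, hx0, mul_zero]
  have hy2 := hy'
  rw [← pw_extend L hi] at hy2
  have y0 : y = 0 := h _ y hy' ((hL' _ _ _ (mem hl) _ (mem hy2) e2).resolve_left l0)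
  rw [y0, mul_zero] at e1
  exact (hL _ _ g hg' x hx e1).resolve_left g0

/-- MUL = PUSH along an algebra map -/
theorem mul_alg {ι₀ κ₀ : Type} [Fintype ι₀] [Fintype κ₀] (B : ι₀ → Submodule Ω A')
    (C : κ₀ → Submodule Ω A) [∀ i, FiniteDimensional Ω (B i)] [∀ j, FiniteDimensional Ω (C j)]
    (φ : A →ₐ[Ω] A') {n : ℤ} (dB : Dg (pf B) n) (dC : Dg (pf C) n) (hC : NoZD (pw C))
    (hBC : NoZD (pw (Sum.elim B (mapF φ C)))) (hrat : ∀ j, RatOver B (mapF φ C j)) :
    ∃ r : ℕ, ((∃ d, ∃ x ∈ pw C d, x ≠ 0 ∧ φ x = 0) → r = 0) ∧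
      ((∀ d, ∀ x ∈ pw C d, φ x = 0 → x = 0) → Nontrivial A' → ¬ Dg (pf C) (n - 1) →
        ∃ N : ℕ, ∀ m : ι₀ → ℕ, (∀ i, N ≤ m i) → IsRk (pw (mapF φ C)) (pw B m) r) ∧
      ∀ (ν : Type) [Fintype ν] (W : ν → Submodule Ω A) [∀ k, FiniteDimensional Ω (W k)],
        NoZD (pw (Sum.elim C W)) → NoZD (pw (Sum.elim B (Sum.elim (mapF φ C) (mapF φ W)))) →
        (∀ k, RatOver C (W k)) → (∀ k, RatOver (mapF φ C) (mapF φ W k)) →
        ∀ α : ν →₀ ℕ, n ≤ α.degree → coeff (α.mapDomain Sum.inr) (pf (Sum.elim B (mapF φ W))) =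
          r * coeff (α.mapDomain Sum.inr) (pf (Sum.elim C W)) := by
  have dP0 : Dg (pf (Sum.elim B (mapF φ C))) n :=
    Dg.pf_rat _ Sum.inl_injective hBC (fun i hi => by
      cases i with
      | inl i => exact absurd ⟨i, rfl⟩ hi
      | inr j => exact hrat j) dB
  obtain ⟨r, hr, H⟩ := push_coeff' B (mapF φ C) (evP_pf _) (evP_pf _) dP0 (dC.pf_mapF φ)
  have main : ∀ (ν : Type) [Fintype ν] (W : ν → Submodule Ω A) [∀ k, FiniteDimensional Ω (W k)],
      NoZD (pw (Sum.elim B (Sum.elim (mapF φ C) (mapF φ W)))) →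
      (∀ k, RatOver (mapF φ C) (mapF φ W k)) →
      ∀ α : ν →₀ ℕ, n ≤ α.degree → coeff (α.mapDomain Sum.inr) (pf (Sum.elim B (mapF φ W))) =
        r * coeff (α.mapDomain Sum.inr) (pf (Sum.elim (mapF φ C) (mapF φ W))) := by
    intro ν _ W _ hL hW α hα
    obtain ⟨dP, -, h1⟩ := H (ι₀ ⊕ κ₀ ⊕ ν) (κ₀ ⊕ ν) (Sum.elim B (Sum.elim (mapF φ C) (mapF φ W)))
      Sum.inl Sum.inr Sum.inl Sum.inl_injective Sum.inr_injective Sum.inl_injective rfl rfl
      (fun i => by cases i <;> simp) hL (fun k hk => by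
        cases k with
        | inl j => exact absurd ⟨j, rfl⟩ hk
        | inr k => exact hW k) _ _ (evP_pf _) (evP_pf _)
    have hinj : Injective (Sum.map id Sum.inr : ι₀ ⊕ ν → ι₀ ⊕ κ₀ ⊕ ν) :=
      Sum.map_injective.2 ⟨injective_id, Sum.inr_injective⟩
    have e1 : Sum.elim B (Sum.elim (mapF φ C) (mapF φ W)) ∘ Sum.map id Sum.inr =
        Sum.elim B (mapF φ W) := by
      funext i; cases i <;> rfl
    have hne : ∀ i, i ∉ Set.range (Sum.map id Sum.inr : ι₀ ⊕ ν → ι₀ ⊕ κ₀ ⊕ ν) →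
        ∃ j, i = Sum.inr (Sum.inl j) := by
      rintro (i | j | k) hi
      · exact absurd ⟨Sum.inl i, rfl⟩ hi
      · exact ⟨j, rfl⟩
      · exact absurd ⟨Sum.inr k, rfl⟩ hi
    have d2 := Dg.pf_sub _ hinj hL (fun i hi => by
      obtain ⟨j, rfl⟩ := hne i hi
      exact (hrat j).ne_bot) dP
    have h2 := coeff_pf_fg _ hinj hL (fun i hi => by
      obtain ⟨j, rfl⟩ := hne i hi
      rw [e1]
      exact RatOver.mono Sum.inl_injective (hrat j)) d2 (α.mapDomain Sum.inr)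
      (by rwa [degree_mapDomain'])
    have h3 := h1 (α.mapDomain Sum.inr) (by rwa [degree_mapDomain'])
    rw [← Finsupp.mapDomain_comp] at h2 h3
    rw [e1] at h2
    exact h2.symm.trans h3
  have hside : ∀ {ν : Type} (i : κ₀ ⊕ ν), i ∉ Set.range (Sum.inl : κ₀ → κ₀ ⊕ ν) →
      ∃ k, i = Sum.inr k := by
    rintro ν (j | k) hi
    · exact absurd ⟨j, rfl⟩ hi
    · exact ⟨k, rfl⟩
  by_cases hd : ∀ d, ∀ x ∈ pw C d, φ x = 0 → x = 0
  · refine ⟨r, fun ⟨d, x, hx, x0, h0⟩ => absurd (hd d x hx h0) x0, fun _ hA hn =>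
      hr hA (hBC.comp Sum.inr_injective) (by rwa [pf_mapF_of_inj hd]),
      fun ν _ W _ hCW hL hW hW' α hα => ?_⟩
    rw [main ν W hL hW' α hα, ← mapF_elim, pf_mapF_of_inj]
    refine inj_add_rat Sum.inl_injective hCW ?_ (fun i hi => ?_) (fun i hi => ?_) hd
    · rw [mapF_elim]; exact hL.comp Sum.inr_injective
    · obtain ⟨k, rfl⟩ := hside i hi
      exact hW k
    · obtain ⟨k, rfl⟩ := hside i hi
      exact (hW' k).ne_bot
  · refine ⟨0, fun _ => rfl, fun h => absurd h hd, fun ν _ W _ _ hL _ hW' α hα => ?_⟩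
    push Not at hd
    obtain ⟨d, x, hx, h0, x0⟩ := hd
    have d1 : Dg (pf (Sum.elim (mapF φ C) (mapF φ W))) (n - 1) :=
      Dg.pf_rat _ Sum.inl_injective (hL.comp Sum.inr_injective) (fun i hi => by
        obtain ⟨k, rfl⟩ := hside i hi
        exact hW' k) (dC.pf_mapF_drop hC hx x0 h0)
    rw [main ν W hL hW' α hα, d1 _ (by rw [degree_mapDomain']; omega), mul_zero, Nat.cast_zero,
      zero_mul]

end Pool.Agent.Tav
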