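import Pool.Agent.P.MP_2ce3e7_ag.Tav.GBase
import Pool.Agent.P.MP_2ce3e7_ag.Tav.RKm

noncomputable section

namespace Pool.Agent.Tav

open MvPolynomial Module

variable {Ω : Type} [Field Ω] {T Y : Type} {β γ ν κ : Type}
  [Fintype β] [Fintype γ] [Fintype ν] [Fintype κ]

omit [Fintype β] [Fintype ν] in
theorem sp_elim (B : β → LS Ω T) (W : ν → LS Ω T) :
    (fun i => (Sum.elim B W i).sp) = Sum.elim (fun i => (B i).sp) fun k => (W k).sp := by
  funext i; cases i <;> rfl

omit [Fintype γ] [Fintype ν] in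
theorem pb_elim (j : T → Y) (C : γ → LS Ω Y) (W : ν → LS Ω Y) :
    (fun i => (Sum.elim C W i).pb j) = Sum.elim (fun i => (C i).pb j) fun k => (W k).pb j := by
  funext i; cases i <;> rfl

theorem LS.ne_bot [Nonempty T] (V : LS Ω T) : V.sp ≠ ⊥ := by
  obtain ⟨u, hu, h⟩ := V.nv (Classical.arbitrary T)
  intro hc
  rw [hc, Submodule.mem_bot] at hu
  exact h (by rw [hu]; rfl)

theorem Reg.ratOver [Nonempty T] {B : β → LS Ω T} {V : LS Ω T} (h : Reg B V) :
    RatOver (fun i => (B i).sp) V.sp := by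
  obtain ⟨e, lam, h0, hl⟩ := h (Classical.arbitrary T)
  obtain ⟨l, hl1, l0⟩ := V.nv (Classical.arbitrary T)
  refine ⟨e, lam * l, hl l hl1, l, hl1, fun hc => mul_ne_zero h0 l0 (congrFun hc _),
    fun hc => l0 (congrFun hc _), fun x hx => ⟨lam * x, hl x hx, by ring⟩⟩

theorem reg_piece {C : γ → LS Ω Y} {W : ν → LS Ω Y} (hW : ∀ k, Reg C (W k)) (y : Y) (e : ν → ℕ) :
    ∃ (e' : γ → ℕ) (lam : Y → Ω), lam y ≠ 0 ∧ ∀ f ∈ pc W e, lam * f ∈ pc C e' := by
  classical
  induction e using vec_ind with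
  | h0 =>
    refine ⟨0, 1, one_ne_zero, fun f hf => ?_⟩
    have e1 : pc W 0 = pc C 0 := (pw_zero fun k => (W k).sp).trans (pw_zero fun k => (C k).sp).symm
    rwa [one_mul, ← e1]
  | hs i m ih =>
    obtain ⟨e1, l1, h1, H1⟩ := ih
    obtain ⟨e2, l2, h2, H2⟩ := hW i y
    refine ⟨e1 + e2, l1 * l2, mul_ne_zero h1 h2, fun f hf => ?_⟩
    have a1 : pc W (m + Pi.single i 1) = pc W m * (W i).sp := by
      have := pw_add (fun k => (W k).sp) m (Pi.single i 1)
      rwa [pw_single, pow_one] at this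
    have a2 : pc C (e1 + e2) = pc C e1 * pc C e2 := pw_add (fun k => (C k).sp) e1 e2
    rw [a1] at hf
    rw [a2]
    refine Submodule.mul_induction_on hf (fun a ha b hb => ?_) fun a b ha hb => ?_
    · rw [mul_mul_mul_comm]
      exact Submodule.mul_mem_mul (H1 a ha) (H2 b hb)
    · rw [mul_add]
      exact Submodule.add_mem _ ha hb

theorem Dom.comp {F : β → LS Ω T} (h : Dom F) {f : κ → β} (hf : Function.Injective f) :
    Dom (F ∘ f) := NoZD.comp (L := fun i => (F i).sp) h hf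

theorem Reg.elim_left {B : β → LS Ω T} (W : ν → LS Ω T) {V : LS Ω T} (h : Reg B V) :
    Reg (Sum.elim B W) V := Reg.trans (fun i => Reg.self (Sum.elim B W) (Sum.inl i)) h

theorem Reg.elim_right (B : β → LS Ω T) {W : ν → LS Ω T} {V : LS Ω T} (h : Reg W V) :
    Reg (Sum.elim B W) V := Reg.trans (fun i => Reg.self (Sum.elim B W) (Sum.inr i)) h

omit [Fintype β] [Fintype ν] in
theorem Reg.elim {C : γ → LS Ω T} {B : β → LS Ω T} {W : ν → LS Ω T} (hB : ∀ i, Reg C (B i))
    (hW : ∀ k, Reg C (W k)) (i : β ⊕ ν) : Reg C (Sum.elim B W i) := by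
  cases i with
  | inl i => exact hB i
  | inr k => exact hW k

/-- FG for a family and a subfamily -/
theorem coeff_pL_fg [Nonempty T] {F : β → LS Ω T} {f : κ → β} (hf : Function.Injective f)
    (hD : Dom F) (hr : ∀ i, i ∉ Set.range f → Reg (F ∘ f) (F i)) {n : ℤ} (dQ : Dg (pL (F ∘ f)) n)
    (α : κ →₀ ℕ) (hα : n ≤ α.degree) : coeff (α.mapDomain f) (pL F) = coeff α (pL (F ∘ f)) :=
  coeff_pf_fg (fun i => (F i).sp) hf hD (fun i hi => (hr i hi).ratOver) dQ α hα

theorem Src.ext {B : β → LS Ω T} {W : ν → LS Ω T} {n : ℕ} (h : Src B n) (hW : ∀ k, Reg B (W k)) :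
    Src (Sum.elim B W) n := by
  have := h.ne
  refine ⟨h.ne, h.dom.ext hW, Dg.pf_rat (fun i => (Sum.elim B W i).sp) Sum.inl_injective
    (h.dom.ext hW) (fun i hi => ?_) h.dg⟩
  cases i with
  | inl i => exact absurd ⟨i, rfl⟩ hi
  | inr k => exact (hW k).ratOver

theorem Src.comp {F : β → LS Ω T} {n : ℕ} (h : Src F n) {f : κ → β} (hf : Function.Injective f) :
    Src (F ∘ f) n :=
  have := h.ne
  ⟨h.ne, h.dom.comp hf, Dg.pf_sub (fun i => (F i).sp) hf h.dom (fun i _ => (F i).ne_bot) h.dg⟩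

/-- any family that is regular over a source is a source -/
theorem Src.of_reg {B : β → LS Ω T} {C : γ → LS Ω T} {n : ℕ} (h : Src B n)
    (hC : ∀ k, Reg B (C k)) : Src C n := (h.ext hC).comp Sum.inr_injective

omit [Fintype β] [Fintype γ] in
theorem mapDomain_slots_map (g : β → γ) : (slots β ν).mapDomain (Sum.map g id) = slots γ ν := by
  simp [slots, Finsupp.mapDomain_finsetSum, Finsupp.mapDomain_single]

omit [Fintype β] in
theorem mapDomain_inr_slots :
    (∑ j : ν, Finsupp.single j 1 : ν →₀ ℕ).mapDomain Sum.inr = slots β ν := by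
  simp [slots, Finsupp.mapDomain_finsetSum, Finsupp.mapDomain_single]

/-- VAN -/
theorem mix_zero {B : β → LS Ω T} {W : ν → LS Ω T} {n : ℕ} (h : Src B n) (hW : ∀ k, Reg B (W k))
    (hn : n < Fintype.card ν) : mix B W = 0 :=
  (h.ext hW).dg _ (by rw [degree_slots]; exact_mod_cast hn)

/-- FG: a member of a regular family whose exponent is zero can be forgotten -/
theorem nc_forget {B : β → LS Ω T} {W : ν → LS Ω T} {n : ℕ} (h : Src B n) (hW : ∀ k, Reg B (W k))
    {f : κ → ν} (hf : Function.Injective f) (s : β ⊕ κ →₀ ℕ) (hs : n ≤ s.degree) :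
    nc (s.mapDomain (Sum.map id f)) (pL (Sum.elim B W)) = nc s (pL (Sum.elim B (W ∘ f))) := by
  have := h.ne
  have hi : Function.Injective (Sum.map id f : β ⊕ κ → β ⊕ ν) :=
    Sum.map_injective.2 ⟨Function.injective_id, hf⟩
  have e1 : Sum.elim B W ∘ Sum.map id f = Sum.elim B (W ∘ f) := by
    funext i; cases i <;> rfl
  have h1 := coeff_pL_fg hi (h.dom.ext hW) (fun i _ => by
    rw [e1]
    exact (Reg.elim (Reg.self B) hW i).elim_left _)
    (by rw [e1]; exact (h.ext fun k => hW (f k)).dg) s (by exact_mod_cast hs)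
  rw [e1] at h1
  rw [nc_of_coeff hi (r := 1) (by rw [one_mul]; exact h1), one_mul]

theorem mix_ext_base {B : β → LS Ω T} {F : γ → LS Ω T} {W : ν → LS Ω T} {n : ℕ} (h : Src B n)
    {g : β → γ} (hg : Function.Injective g) (e : F ∘ g = B) (hF : ∀ k, Reg B (F k))
    (hW : ∀ k, Reg B (W k)) (hn : n ≤ Fintype.card ν) : mix F W = mix B W := by
  have := h.ne
  subst e
  have hi : Function.Injective (Sum.map g id : β ⊕ ν → γ ⊕ ν) :=
    Sum.map_injective.2 ⟨hg, Function.injective_id⟩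
  have e1 : Sum.elim F W ∘ Sum.map g id = Sum.elim (F ∘ g) W := by
    funext i; cases i <;> rfl
  have h1 := coeff_pL_fg hi (h.of_reg (Reg.elim hF hW)).dom (fun i _ => by
    rw [e1]
    exact (Reg.elim hF hW i).elim_left _)
    (by rw [e1]; exact (h.ext hW).dg) (slots β ν) (by rw [degree_slots]; exact_mod_cast hn)
  rwa [e1, mapDomain_slots_map] at h1

/-- two bases that are regular over each other give the same degrees -/
theorem mix_base {B : β → LS Ω T} {C : γ → LS Ω T} {W : ν → LS Ω T} {n : ℕ} (h : Src B n)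
    (hC : ∀ k, Reg B (C k)) (hB : ∀ i, Reg C (B i)) (hW : ∀ k, Reg B (W k))
    (hn : n ≤ Fintype.card ν) : mix B W = mix C W :=
  (mix_ext_base (F := Sum.elim B C) h Sum.inl_injective rfl (Reg.elim (Reg.self B) hC) hW
    hn).symm.trans
    (mix_ext_base (F := Sum.elim B C) (h.of_reg hC) Sum.inr_injective rfl
      (Reg.elim hB (Reg.self C)) (fun k => Reg.trans hB (hW k)) hn)

theorem Dense.of_surj {j : T → Y} (hj : Function.Surjective j) (C : γ → LS Ω Y) : Dense j C :=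
  fun _ f _ h => funext fun y => by
    obtain ⟨t, rfl⟩ := hj y
    exact congrFun h t

theorem Dense.ext {j : T → Y} {C : γ → LS Ω Y} (h : Dense j C) {W : ν → LS Ω Y}
    (hW : ∀ k, Reg C (W k)) : Dense j W := fun e f hf h0 => funext fun y => by
  obtain ⟨e', lam, hl, H⟩ := reg_piece hW y e
  have h1 := h e' _ (H f hf) (by rw [map_mul, h0, mul_zero])
  exact (mul_eq_zero.1 (congrFun h1 y)).resolve_left hl

theorem Dense.pL {j : T → Y} {C : γ → LS Ω Y} (h : Dense j C) :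
    pL (fun i => (C i).pb j) = pL C :=
  pf_mapF_of_inj (φ := pbA Ω j) (L := fun i => (C i).sp) h

theorem Dense.mix {j : T → Y} {C : γ → LS Ω Y} (h : Dense j C) {W : ν → LS Ω Y}
    (hW : ∀ k, Reg C (W k)) : mix (fun i => (C i).pb j) (fun k => (W k).pb j) = mix C W := by
  rw [Tav.mix, Tav.mix, ← pb_elim, (h.ext (Reg.elim (Reg.self C) hW)).pL]

theorem Dense.src {j : T → Y} {C : γ → LS Ω Y} (h : Dense j C) {n : ℕ} :
    Src (fun i => (C i).pb j) n ↔ Src C n := by
  have mem : ∀ {d x}, x ∈ pc C d → pbA Ω j x ∈ pc (fun i => (C i).pb j) d := fun hx => by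
    rw [pc_pb]; exact ⟨_, hx, rfl⟩
  constructor
  · intro s
    refine ⟨s.ne.map j, fun a b f hf g hg h0 => ?_, h.pL ▸ s.dg⟩
    exact (s.dom a b _ (mem hf) _ (mem hg) (by rw [← map_mul, h0, map_zero])).imp
      (h a f hf) (h b g hg)
  · intro s
    refine ⟨?_, fun a b f hf g hg h0 => ?_, h.pL.symm ▸ s.dg⟩
    · by_contra hc
      rw [not_nonempty_iff] at hc
      obtain ⟨y⟩ := s.ne
      exact one_ne_zero (congrFun (h 0 1 (one_mem_pw fun i => (C i).sp) (Subsingleton.elim _ _)) y)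
    · rw [pc_pb] at hf hg
      obtain ⟨f, hf, rfl⟩ := hf
      obtain ⟨g, hg, rfl⟩ := hg
      have h1 : f * g ∈ pc C (a + b) :=
        (pw_add (fun i => (C i).sp) a b).ge (Submodule.mul_mem_mul hf hg)
      have h2 := h _ _ h1 (by rw [map_mul]; exact h0)
      exact (s.dom a b f hf g hg h2).imp (fun e => by rw [e, map_zero]) fun e => by rw [e, map_zero]

/-- DROP -/
theorem Src.drop {j : T → Y} {C : γ → LS Ω Y} {n : ℕ} (h : Src C n) (hj : ¬ Dense j C) :
    Dg (pL fun i => (C i).pb j) (n - 1) := by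
  simp only [Dense, not_forall] at hj
  obtain ⟨e, f, hf, h0, f0⟩ := hj
  exact Dg.pf_mapF_drop (L := fun i => (C i).sp) h.dg h.dom hf f0 h0

theorem Dg.pL_pb {C : γ → LS Ω Y} {n : ℤ} (h : Dg (pL C) n) (j : T → Y) :
    Dg (pL fun i => (C i).pb j) n := Dg.pf_mapF (L := fun i => (C i).sp) h (pbA Ω j)

/-- MUL with the rank: `r` is the rank of the pieces of `B` over the ring of the image -/
theorem mix_mul_rk {B : β → LS Ω T} {C : γ → LS Ω Y} {n : ℕ} (hB : Src B n) (hC : Src C n)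
    (j : T → Y) (hj : ∀ k, Reg B ((C k).pb j)) :
    ∃ r : ℕ, (¬ Dense j C → r = 0) ∧
      (Dense j C → ¬ Dg (pL C) (n - 1) →
        0 < r ∧ Lg fun m => IsRk (pc fun k => (C k).pb j) (pc B m) r) ∧
      ∀ (ν : Type) [Fintype ν] (W : ν → LS Ω Y), (∀ k, Reg C (W k)) →
        ∀ α : ν →₀ ℕ, n ≤ α.degree →
          coeff (α.mapDomain Sum.inr) (pL (Sum.elim B fun k => (W k).pb j)) =
            r * coeff (α.mapDomain Sum.inr) (pL (Sum.elim C W)) := by
  have := hB.ne
  have := hC.ne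
  have hD : NoZD (pw (Sum.elim (fun i => (B i).sp) (mapF (pbA Ω j) fun k => (C k).sp))) := by
    have : NoZD (pw fun i => (Sum.elim B (fun k => (C k).pb j) i).sp) := hB.dom.ext hj
    rwa [sp_elim] at this
  obtain ⟨r, h0, h1, H⟩ := mul_alg (fun i => (B i).sp) (fun k => (C k).sp) (pbA Ω j) hB.dg hC.dg
    hC.dom hD fun k => (hj k).ratOver
  refine ⟨r, fun hn => h0 ?_, fun hd hn => ?_, fun ν _ W hW α hα => ?_⟩
  · simp only [Dense, not_forall] at hn
    obtain ⟨e, f, hf, h0, f0⟩ := hn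
    exact ⟨e, f, hf, f0, h0⟩
  · obtain ⟨N, hN⟩ := h1 hd inferInstance hn
    refine ⟨Nat.pos_of_ne_zero ?_, N, hN⟩
    rintro rfl
    obtain ⟨u, -, -, hx⟩ := hN (fun _ => N) fun _ => le_rfl
    obtain ⟨x, hx1, x0⟩ := exists_ne_zero_pw (L := fun i => (B i).sp) hB.dom (fun _ => N)
      fun i _ => (B i).ne_bot
    obtain ⟨e, f, hf, f0, h2⟩ := hx x hx1
    rw [Set.range_eq_empty, Submodule.span_empty, Submodule.bot_mul, Submodule.mem_bot] at h2
    have a1 := (pw_extend (Sum.elim (fun i => (B i).sp) (mapF (pbA Ω j) fun k => (C k).sp))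
      Sum.inr_injective e).ge hf
    have a2 := (pw_extend (Sum.elim (fun i => (B i).sp) (mapF (pbA Ω j) fun k => (C k).sp))
      Sum.inl_injective fun _ => N).ge hx1
    exact (hD _ _ f a1 x a2 h2).elim f0 x0
  · have d1 : NoZD (pw fun i => (Sum.elim C W i).sp) := hC.dom.ext hW
    have d2 : NoZD (pw fun i => (Sum.elim B (Sum.elim (fun k => (C k).pb j)
        fun k => (W k).pb j) i).sp) :=
      hB.dom.ext (Reg.elim hj fun k => Reg.trans hj ((hW k).pb j))
    rw [sp_elim] at d1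
    rw [sp_elim, sp_elim] at d2
    rw [pL, pL, sp_elim, sp_elim]
    exact H ν (fun k => (W k).sp) d1 d2 (fun k => (hW k).ratOver)
      (fun k => ((hW k).pb j).ratOver) α (by exact_mod_cast hα)

theorem mix_mul' {B : β → LS Ω T} {C : γ → LS Ω Y} {n : ℕ} (hB : Src B n) (hC : Src C n)
    (j : T → Y) (hj : ∀ k, Reg B ((C k).pb j)) :
    ∃ r : ℕ, (¬ Dense j C → r = 0) ∧
      (Dense j C → ¬ Dg (pL C) (n - 1) →
        0 < r ∧ Lg fun m => IsRk (pc fun k => (C k).pb j) (pc B m) r) ∧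
      ∀ (ν : Type) [Fintype ν] (W : ν → LS Ω Y), n ≤ Fintype.card ν → (∀ k, Reg C (W k)) →
        mix B (fun k => (W k).pb j) = r * mix C W := by
  obtain ⟨r, h0, h1, H⟩ := mix_mul_rk hB hC j hj
  refine ⟨r, h0, h1, fun ν _ W hn hW => ?_⟩
  have := H ν W hW (∑ k : ν, Finsupp.single k 1) (by simpa [map_sum] using hn)
  rwa [mapDomain_inr_slots, mapDomain_inr_slots] at this

theorem mix_mul {B : β → LS Ω T} {C : γ → LS Ω Y} {n : ℕ} (hB : Src B n) (hC : Src C n)
    (j : T → Y) (hj : ∀ k, Reg B ((C k).pb j)) :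
    ∃ r : ℕ, (¬ Dense j C → r = 0) ∧ ∀ (ν : Type) [Fintype ν] (W : ν → LS Ω Y),
      n ≤ Fintype.card ν → (∀ k, Reg C (W k)) →
      mix B (fun k => (W k).pb j) = r * mix C W :=
  (mix_mul' hB hC j hj).imp fun _ h => ⟨h.1, h.2.2⟩

end Pool.Agent.Tav
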