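import Pool.Agent.P.MP_2ce3e7_ag.Tav.HPol

/-! Base change, products and integrality for Hilbert polynomials. -/

set_option autoImplicit false

noncomputable section

namespace Pool.Agent.Tav

open MvPolynomial Module

section BC
variable {k Ω σ : Type} [Field k] [Field Ω] [Algebra k Ω]

/-- a linear form applied to the coefficients -/
def cfl (φ : Ω →ₗ[k] k) (F : MvPolynomial σ Ω) : MvPolynomial σ k :=
  ∑ s ∈ F.support, monomial s (φ (coeff s F))

theorem coeff_cfl (φ : Ω →ₗ[k] k) (F : MvPolynomial σ Ω) (s : σ →₀ ℕ) :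
    coeff s (cfl φ F) = φ (coeff s F) := by
  classical
  rw [cfl, coeff_sum]
  simp only [coeff_monomial]
  rw [Finset.sum_ite_eq']
  split_ifs with hs
  · rfl
  · rw [notMem_support_iff.1 hs, map_zero]

theorem cfl_add (φ : Ω →ₗ[k] k) (F G : MvPolynomial σ Ω) : cfl φ (F + G) = cfl φ F + cfl φ G :=
  MvPolynomial.ext _ _ fun s => by simp only [coeff_cfl, coeff_add, map_add]

theorem cfl_zero (φ : Ω →ₗ[k] k) : cfl φ (0 : MvPolynomial σ Ω) = 0 := by simp [cfl]

theorem cfl_sum (φ : Ω →ₗ[k] k) {κ : Type} (T : Finset κ) (F : κ → MvPolynomial σ Ω) :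
    cfl φ (∑ j ∈ T, F j) = ∑ j ∈ T, cfl φ (F j) :=
  MvPolynomial.ext _ _ fun s => by simp only [coeff_cfl, coeff_sum, map_sum]

theorem cfl_mul (φ : Ω →ₗ[k] k) (F : MvPolynomial σ Ω) (G : MvPolynomial σ k) :
    cfl φ (F * map (algebraMap k Ω) G) = cfl φ F * G := by
  classical
  refine MvPolynomial.ext _ _ fun s => ?_
  simp only [coeff_cfl, coeff_mul, map_sum, coeff_map]
  refine Finset.sum_congr rfl fun x _ => ?_
  rw [mul_comm, ← Algebra.smul_def, map_smul, smul_eq_mul, mul_comm]

theorem cfl_smul (φ : Ω →ₗ[k] k) (a : Ω) (G : MvPolynomial σ k) :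
    cfl φ (a • map (algebraMap k Ω) G) = φ a • G := by
  refine MvPolynomial.ext _ _ fun s => ?_
  rw [coeff_cfl, coeff_smul, coeff_smul, coeff_map, smul_eq_mul, mul_comm, ← Algebra.smul_def,
    map_smul, smul_eq_mul, smul_eq_mul, mul_comm]

theorem cfl_mem (φ : Ω →ₗ[k] k) {J : Ideal (MvPolynomial σ k)} {F : MvPolynomial σ Ω}
    (hF : F ∈ J.map (map (algebraMap k Ω))) : cfl φ F ∈ J := by
  have : ∀ H, cfl φ (H * F) ∈ J := by
    induction hF using Submodule.span_induction with
    | mem x hx =>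
      obtain ⟨G, hG, rfl⟩ := hx
      exact fun H => by rw [cfl_mul]; exact J.mul_mem_left _ hG
    | zero => exact fun H => by rw [mul_zero, cfl_zero]; exact J.zero_mem
    | add x y _ _ hx hy => exact fun H => by rw [mul_add, cfl_add]; exact J.add_mem (hx H) (hy H)
    | smul a x _ hx => exact fun H => by rw [smul_eq_mul, ← mul_assoc]; exact hx _
  simpa using this 1

theorem mem_of_cfl {W : Submodule Ω (MvPolynomial σ Ω)} {F : MvPolynomial σ Ω}
    (h : ∀ φ : Ω →ₗ[k] k, map (algebraMap k Ω) (cfl φ F) ∈ W) : F ∈ W := by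
  classical
  let b := Basis.ofVectorSpace k Ω
  have e : F = ∑ l ∈ F.support.biUnion fun s => (b.repr (coeff s F)).support,
      b l • map (algebraMap k Ω) (cfl (b.coord l) F) := by
    refine MvPolynomial.ext _ _ fun s => ?_
    simp only [coeff_sum, coeff_smul, coeff_map, coeff_cfl, Basis.coord_apply]
    by_cases hs : s ∈ F.support
    · conv_lhs => rw [← b.linearCombination_repr (coeff s F), Finsupp.linearCombination_apply]
      rw [Finsupp.sum_of_support_subset _ (Finset.subset_biUnion_of_mem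
        (fun s => (b.repr (coeff s F)).support) hs) (fun i a => a • b i) fun _ _ => zero_smul _ _]
      exact Finset.sum_congr rfl fun l _ => by rw [Algebra.smul_def, smul_eq_mul, mul_comm]
    · simp [notMem_support_iff.1 hs]
  rw [e]
  exact Submodule.sum_mem _ fun l _ => Submodule.smul_mem _ _ (h _)

theorem mem_map_iff_cfl {J : Ideal (MvPolynomial σ k)} {F : MvPolynomial σ Ω} :
    F ∈ J.map (map (algebraMap k Ω)) ↔ ∀ φ : Ω →ₗ[k] k, cfl φ F ∈ J :=
  ⟨fun h φ => cfl_mem φ h, fun h => mem_of_cfl (k := k)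
    (W := (J.map (map (algebraMap k Ω))).restrictScalars Ω) fun φ => Ideal.mem_map_of_mem _ (h φ)⟩

theorem rank_bc (U : Submodule k (MvPolynomial σ k)) [FiniteDimensional k U] :
    finrank Ω (Submodule.span Ω (map (algebraMap k Ω) '' (U : Set (MvPolynomial σ k)))) =
      finrank k U := by
  let b := finBasis k U
  have h1 : LinearIndependent Ω fun i => map (algebraMap k Ω) (b i : MvPolynomial σ k) := by
    rw [Fintype.linearIndependent_iff]
    intro a ha i
    refine (Module.forall_dual_apply_eq_zero_iff k (a i)).1 fun φ => ?_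
    have h2 := congrArg (cfl φ) ha
    rw [cfl_sum, cfl_zero] at h2
    simp only [cfl_smul] at h2
    refine Fintype.linearIndependent_iff.1 b.linearIndependent (fun i => φ (a i)) ?_ i
    exact Subtype.ext (by simpa using h2)
  have h2 : Submodule.span Ω (map (algebraMap k Ω) '' (U : Set (MvPolynomial σ k))) =
      Submodule.span Ω (Set.range fun i => map (algebraMap k Ω) (b i : MvPolynomial σ k)) := by
    refine le_antisymm (Submodule.span_le.2 ?_) (Submodule.span_mono ?_)
    · rintro _ ⟨G, hG, rfl⟩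
      have := congrArg Subtype.val (b.sum_repr ⟨G, hG⟩)
      rw [Submodule.coe_sum] at this
      change _ = G at this
      rw [← this, map_sum]
      refine Submodule.sum_mem _ fun i _ => ?_
      rw [Submodule.coe_smul, smul_eq_C_mul, map_mul, map_C, ← smul_eq_C_mul]
      exact Submodule.smul_mem _ _ (Submodule.subset_span ⟨i, rfl⟩)
    · rintro _ ⟨i, rfl⟩
      exact ⟨b i, (b i).2, rfl⟩
  rw [h2, finrank_span_eq_card h1, Fintype.card_fin]

end BC

section Hom
variable {k Ω σ ι : Type} [Field k] [Field Ω] [DecidableEq ι] {β : σ → ι}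

theorem map_mem_Sd (φ : k →+* Ω) {G : MvPolynomial σ k} {d : ι → ℕ} (h : G ∈ Sd k β d) :
    map φ G ∈ Sd Ω β d := fun s hs => h fun h0 => hs (by rw [coeff_map, h0, map_zero])

theorem cfl_mem_Sd [Algebra k Ω] (φ : Ω →ₗ[k] k) {F : MvPolynomial σ Ω} {d : ι → ℕ}
    (h : F ∈ Sd Ω β d) : cfl φ F ∈ Sd k β d :=
  fun s hs => h fun h0 => hs (by rw [coeff_cfl, h0, map_zero])

theorem comap_map_bc (φ : k →+* Ω) (J : Ideal (MvPolynomial σ k)) :
    (J.map (map φ)).comap (map φ) = J := by
  let _ := φ.toAlgebra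
  refine le_antisymm (fun G hG => ?_) Ideal.le_comap_map
  obtain ⟨ψ, hψ⟩ := Module.Projective.exists_dual_eq_one k (one_ne_zero (α := Ω))
  have h1 := cfl_mem ψ (J := J) hG
  have h2 := cfl_smul ψ (1 : Ω) G
  rw [one_smul, hψ, one_smul] at h2
  exact h2 ▸ h1

theorem cmp_map (φ : k →+* Ω) (d : ι → ℕ) (G : MvPolynomial σ k) :
    weightedHomogeneousComponent (wN β) d (map φ G) =
      map φ (weightedHomogeneousComponent (wN β) d G) := by
  classical
  refine MvPolynomial.ext _ _ fun s => ?_
  rw [coeff_weightedHomogeneousComponent, coeff_map, coeff_map,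
    coeff_weightedHomogeneousComponent]
  split_ifs
  · rfl
  · rw [map_zero]

theorem GrJ.comap_bc (φ : k →+* Ω) {J : Ideal (MvPolynomial σ Ω)} (h : GrJ β J) :
    GrJ β (J.comap (map φ : MvPolynomial σ k →+* MvPolynomial σ Ω)) := fun d G hG => by
  rw [Ideal.mem_comap, ← cmp_map]
  exact h d _ hG

theorem GrJ.map_bc (φ : k →+* Ω) {J : Ideal (MvPolynomial σ k)} (h : GrJ β J) :
    GrJ β (J.map (map φ : MvPolynomial σ k →+* MvPolynomial σ Ω)) := by
  classical
  let _ := φ.toAlgebra
  intro d F hF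
  refine mem_map_iff_cfl.2 fun ψ => ?_
  have e : cfl ψ (weightedHomogeneousComponent (wN β) d F) =
      weightedHomogeneousComponent (wN β) d (cfl ψ F) := MvPolynomial.ext _ _ fun s => by
    rw [coeff_cfl, coeff_weightedHomogeneousComponent, coeff_weightedHomogeneousComponent,
      coeff_cfl]
    split_ifs
    · rfl
    · rw [map_zero]
  rw [e]
  exact h d _ (cfl_mem ψ hF)

/-- the Hilbert function does not change under extension of the ground field -/
theorem hI_map [Finite σ] (φ : k →+* Ω) (J : Ideal (MvPolynomial σ k)) (d : ι → ℕ) :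
    hI β (J.map (map φ : MvPolynomial σ k →+* MvPolynomial σ Ω)) d = hI β J d := by
  let _ := φ.toAlgebra
  have key : ∀ I : Ideal (MvPolynomial σ k), finrank Ω (Sd Ω β d ⊓
      (I.map (map φ : MvPolynomial σ k →+* MvPolynomial σ Ω)).restrictScalars Ω : Submodule Ω _) =
      finrank k (Sd k β d ⊓ I.restrictScalars k : Submodule k _) := by
    intro I
    rw [← rank_bc (Ω := Ω) (Sd k β d ⊓ I.restrictScalars k)]
    refine congrArg (fun W : Submodule Ω (MvPolynomial σ Ω) => finrank Ω W) ?_
    refine le_antisymm (fun F hF => mem_of_cfl (k := k) fun ψ => Submodule.subset_span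
      (Set.mem_image_of_mem _ (Submodule.mem_inf.2 ⟨cfl_mem_Sd ψ hF.1, cfl_mem ψ hF.2⟩)))
      (Submodule.span_le.2 ?_)
    rintro _ ⟨G, hG, rfl⟩
    exact ⟨map_mem_Sd φ hG.1, Ideal.mem_map_of_mem _ hG.2⟩
  have h1 := hI_add (β := β) J d
  have h2 := hI_add (β := β) (J.map (map φ : MvPolynomial σ k →+* MvPolynomial σ Ω)) d
  have h3 := key ⊤
  rw [Ideal.map_top, Submodule.restrictScalars_top, Submodule.restrictScalars_top, inf_top_eq,
    inf_top_eq] at h3
  rw [key J] at h2
  omega

theorem pI_map [Finite σ] (φ : k →+* Ω) (J : Ideal (MvPolynomial σ k)) :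
    pI β (J.map (map φ : MvPolynomial σ k →+* MvPolynomial σ Ω)) = pI β J :=
  hP_congr (Lg.of_forall fun d => hI_map φ J d)

/-- top normalised coefficients are natural numbers -/
theorem nc_pI_nat [Finite σ] [Fintype ι] (s : ι →₀ ℕ) {J : Ideal (MvPolynomial σ Ω)}
    (hJ : GrJ β J) (h : Dg (pI β J) s.degree) : ∃ m : ℕ, nc s (pI β J) = m := by
  induction s using deg_induction generalizing J with
  | h0 =>
    obtain ⟨N, hN⟩ := evP_pI hJ
    refine ⟨hI β J fun _ => N, ?_⟩
    have e : pI β J = C (coeff 0 (pI β J)) :=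
      totalDegree_eq_zero_iff_eq_C.1 (Nat.le_zero.1 (dg_iff.1 h))
    have := hN (fun _ => N) fun _ => le_rfl
    rw [e, evN_C] at this
    rw [nc_zero]
    exact this
  | h1 s i ih =>
    induction J using (wellFounded_gt (α := Ideal (MvPolynomial σ Ω))).induction with
    | _ J ij =>
    by_cases h2 : ∀ v, β v = i → X v ∈ J
    · exact ⟨0, by rw [pI_eq_zero ⟨1, fun d hd f hf => mem_of_block h2 (hd i) hf⟩]; simp⟩
    · obtain ⟨v, rfl, hv⟩ : ∃ v, β v = i ∧ X v ∉ J := by
        by_contra hc
        exact h2 fun v hv => not_not.1 fun h => hc ⟨v, hv, h⟩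
      have hX := X_mem_Sd (Ω := Ω) (β := β) v
      by_cases hc : J.colon {X v} = J
      · have hl : Lg fun d => ∀ g ∈ Sd Ω β d, g * X v ∈ J → g ∈ J :=
          Lg.of_forall fun _ g _ hg => hc ▸ mem_colon1.2 hg
        have hd : ((s + Finsupp.single (β v) 1).degree : ℤ) = s.degree + 1 := by
          rw [map_add, Finsupp.degree_single]; simp
        obtain ⟨m, hm⟩ := ih (hJ.sup_span hX) ((h.cut hJ hX hl).mono (by omega))
        refine ⟨m, ?_⟩
        rw [← hm, nc_cut hJ hX hl h hd.le, Finset.sum_eq_single (β v)]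
        · simp
        · intro j _ hj
          simp [hj]
        · simp
      · obtain ⟨a, ha⟩ := ij _ (lt_of_le_of_ne (le_colon1 J _) (Ne.symm hc)) (hJ.colon hX)
          (h.pI_mono hJ (hJ.colon hX) (le_colon1 J _))
        obtain ⟨b, hb⟩ := ij _ (lt_of_le_of_ne le_sup_left fun e => hv (by
          rw [e]; exact Ideal.mem_sup_right (Ideal.mem_span_singleton_self _))) (hJ.sup_span hX)
          (h.pI_mono hJ (hJ.sup_span hX) le_sup_left)
        exact ⟨a + b, by rw [nc_exact hJ hX h le_rfl, ha, hb, Nat.cast_add]⟩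

omit [DecidableEq ι] in
theorem nc_pf_nat [Fintype ι] {A : Type} [CommRing A] [Algebra Ω A] (L : ι → Submodule Ω A)
    [∀ i, FiniteDimensional Ω (L i)] (s : ι →₀ ℕ) (h : Dg (pf L) s.degree) :
    ∃ m : ℕ, nc s (pf L) = m := by
  classical
  obtain ⟨x, hx⟩ := exists_blk L
  rw [← funext hx, ← pI_kerG] at h ⊢
  exact nc_pI_nat s (grJ_kerG x) h

end Hom

section Prod
variable {ι κ μ : Type}

theorem exists_top {P : MvPolynomial ι ℚ} {n : ℕ} (h : Dg P n) (h' : ¬ Dg P (n - 1)) :
    ∃ s : ι →₀ ℕ, s.degree = n ∧ nc s P ≠ 0 := by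
  by_contra hc
  refine h' fun s hs => ?_
  by_cases e : s.degree = n
  · exact nc_eq_zero.1 (not_not.1 fun h0 => hc ⟨s, e, h0⟩)
  · exact h s (by omega)

theorem nc_rename {f : ι → μ} (hf : Function.Injective f) (s : ι →₀ ℕ) (P : MvPolynomial ι ℚ) :
    nc (s.mapDomain f) (rename f P) = nc s P := by
  rw [nc_apply, nc_apply, coeff_rename_mapDomain f hf, Finsupp.prod_mapDomain_index_inj hf]

/-- normalised coefficients of a product in two disjoint sets of variables -/
theorem nc_mul_rename {f : ι → μ} {g : κ → μ} (hf : Function.Injective f)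
    (hg : Function.Injective g) (hd : ∀ i j, f i ≠ g j) (a : ι →₀ ℕ) (b : κ →₀ ℕ)
    (P : MvPolynomial ι ℚ) (Q : MvPolynomial κ ℚ) :
    nc (a.mapDomain f + b.mapDomain g) (rename f P * rename g Q) = nc a P * nc b Q := by
  classical
  have z : ∀ {ν : Type} (u : ν → μ) (m : μ) (R : MvPolynomial ν ℚ), (∀ j, m ≠ u j) →
      pderiv m (rename u R) = 0 := fun u m R h =>
    pderiv_eq_zero_of_notMem_vars fun hm => by
      obtain ⟨j, -, e⟩ := mem_vars_rename u R hm
      exact h j e.symm
  induction a using deg_induction generalizing P with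
  | h0 =>
    induction b using deg_induction generalizing Q with
    | h0 =>
      rw [Finsupp.mapDomain_zero, Finsupp.mapDomain_zero, add_zero, nc_zero, nc_zero, nc_zero]
      change constantCoeff _ = constantCoeff P * constantCoeff Q
      rw [map_mul, constantCoeff_rename, constantCoeff_rename]
    | h1 b j ih =>
      rw [Finsupp.mapDomain_add, Finsupp.mapDomain_single, ← add_assoc, nc_succ, nc_succ,
        pderiv_mul, z f (g j) P fun i => (hd i j).symm, zero_mul, zero_add,
        pderiv_rename hg, ih]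
  | h1 a i ih =>
    rw [Finsupp.mapDomain_add, Finsupp.mapDomain_single, add_right_comm, nc_succ, nc_succ,
      pderiv_mul, z g (f i) Q fun j => hd i j, mul_zero, add_zero, pderiv_rename hf, ih]

theorem EvP.prod {h : (ι → ℕ) → ℚ} {h' : (κ → ℕ) → ℚ} {P : MvPolynomial ι ℚ}
    {Q : MvPolynomial κ ℚ} (hP : EvP h P) (hQ : EvP h' Q) (f : ι → μ) (g : κ → μ) :
    EvP (fun d => h (d ∘ f) * h' (d ∘ g)) (MvPolynomial.rename f P * MvPolynomial.rename g Q) :=
  (hP.rename f).mul (hQ.rename g)

end Prod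

end Pool.Agent.Tav
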