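import Pool.Agent.P.MP_2ce3e7_ag.Tav.GBase
import Pool.Agent.P.MP_2ce3e7_ag.Tav.HBase

/-! Products of sources. -/

set_option autoImplicit false

noncomputable section

namespace Pool.Agent.Tav

open MvPolynomial Module

variable {Ω : Type} [Field Ω] {T₁ T₂ Y₁ Y₂ β₁ β₂ : Type}

/-- the external product of two spaces of functions -/
def bx (U : Submodule Ω (T₁ → Ω)) (V : Submodule Ω (T₂ → Ω)) : Submodule Ω (T₁ × T₂ → Ω) :=
  U.map (pbA Ω Prod.fst).toLinearMap * V.map (pbA Ω Prod.snd).toLinearMap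

theorem mem_bx {U : Submodule Ω (T₁ → Ω)} {V : Submodule Ω (T₂ → Ω)} {u : T₁ → Ω} {v : T₂ → Ω}
    (hu : u ∈ U) (hv : v ∈ V) : (fun t : T₁ × T₂ => u t.1 * v t.2) ∈ bx U V :=
  Submodule.mul_mem_mul (m := pbA Ω Prod.fst u) (n := pbA Ω Prod.snd v) ⟨u, hu, rfl⟩ ⟨v, hv, rfl⟩

theorem bx_le {U : Submodule Ω (T₁ → Ω)} {V : Submodule Ω (T₂ → Ω)}
    {W : Submodule Ω (T₁ × T₂ → Ω)}
    (h : ∀ u ∈ U, ∀ v ∈ V, (fun t : T₁ × T₂ => u t.1 * v t.2) ∈ W) : bx U V ≤ W := by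
  refine Submodule.mul_le.2 ?_
  rintro _ ⟨u, hu, rfl⟩ _ ⟨v, hv, rfl⟩
  exact h u hu v hv

theorem bx_left {U : Submodule Ω (T₁ → Ω)} {V : Submodule Ω (T₂ → Ω)} {f : T₁ × T₂ → Ω}
    (hf : f ∈ bx U V) (s : T₂) : (fun t => f (t, s)) ∈ U := by
  refine bx_le (W := U.comap (pbA Ω fun t => (t, s)).toLinearMap) (fun u hu v _ => ?_) hf
  have : (pbA Ω fun t => (t, s)) (fun t : T₁ × T₂ => u t.1 * v t.2) = v s • u :=
    funext fun t => mul_comm _ _
  rw [Submodule.mem_comap, AlgHom.toLinearMap_apply, this]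
  exact U.smul_mem _ hu

theorem bx_right {U : Submodule Ω (T₁ → Ω)} {V : Submodule Ω (T₂ → Ω)} {f : T₁ × T₂ → Ω}
    (hf : f ∈ bx U V) (s : T₁) : (fun t => f (s, t)) ∈ V := by
  refine bx_le (W := V.comap (pbA Ω fun t => (s, t)).toLinearMap) (fun u _ v hv => ?_) hf
  exact V.smul_mem (u s) hv

theorem rank_bx (U : Submodule Ω (T₁ → Ω)) (V : Submodule Ω (T₂ → Ω)) [FiniteDimensional Ω U]
    [FiniteDimensional Ω V] : finrank Ω (bx U V) = finrank Ω U * finrank Ω V := by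
  let a := finBasis Ω U
  let b := finBasis Ω V
  let w : Fin (finrank Ω U) × Fin (finrank Ω V) → T₁ × T₂ → Ω :=
    fun p t => (a p.1 : T₁ → Ω) t.1 * (b p.2 : T₂ → Ω) t.2
  have h1 : LinearIndependent Ω w := by
    rw [Fintype.linearIndependent_iff]
    intro c hc p
    have h2 : ∀ s : T₂, ∀ i, ∑ j, c (i, j) * (b j : T₂ → Ω) s = 0 := fun s =>
      Fintype.linearIndependent_iff.1 a.linearIndependent _ (Subtype.ext (funext fun t => by
        have := congrFun hc (t, s)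
        simp only [w, Finset.sum_apply, Pi.smul_apply, smul_eq_mul, Fintype.sum_prod_type,
          Pi.zero_apply] at this
        simp only [Submodule.coe_sum, Submodule.coe_smul, Finset.sum_apply, Pi.smul_apply,
          smul_eq_mul, Submodule.coe_zero, Pi.zero_apply, Finset.sum_mul]
        rw [← this]
        exact Finset.sum_congr rfl fun i _ => Finset.sum_congr rfl fun j _ => by ring))
    exact Fintype.linearIndependent_iff.1 b.linearIndependent (fun j => c (p.1, j))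
      (Subtype.ext (funext fun s => by simpa using h2 s p.1)) p.2
  have h2 : bx U V = Submodule.span Ω (Set.range w) := by
    refine le_antisymm (bx_le fun u hu v hv => ?_) (Submodule.span_le.2 ?_)
    · have e1 := congrArg Subtype.val (a.sum_repr ⟨u, hu⟩)
      have e2 := congrArg Subtype.val (b.sum_repr ⟨v, hv⟩)
      rw [Submodule.coe_sum] at e1 e2
      change _ = u at e1
      change _ = v at e2
      have : (fun t : T₁ × T₂ => u t.1 * v t.2) =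
          ∑ p, (a.repr ⟨u, hu⟩ p.1 * b.repr ⟨v, hv⟩ p.2) • w p := funext fun t => by
        conv_lhs => rw [← e1, ← e2]
        simp only [w, Finset.sum_apply, Pi.smul_apply, smul_eq_mul, Fintype.sum_prod_type,
          Submodule.coe_smul, Finset.sum_mul_sum]
        exact Finset.sum_congr rfl fun i _ => Finset.sum_congr rfl fun j _ => by ring
      rw [this]
      exact Submodule.sum_mem _ fun p _ => Submodule.smul_mem _ _ (Submodule.subset_span ⟨p, rfl⟩)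
    · rintro _ ⟨p, rfl⟩
      exact mem_bx (a p.1).2 (b p.2).2
  rw [h2, finrank_span_eq_card h1, Fintype.card_prod, Fintype.card_fin, Fintype.card_fin]

variable [Fintype β₁] [Fintype β₂]

theorem pc_prod (B₁ : β₁ → LS Ω T₁) (B₂ : β₂ → LS Ω T₂) (d : β₁ ⊕ β₂ → ℕ) :
    pc (prodB B₁ B₂) d = bx (pc B₁ (d ∘ Sum.inl)) (pc B₂ (d ∘ Sum.inr)) := by
  rw [bx, ← pc_pb, ← pc_pb, pc, Fintype.prod_sum_type]
  rfl

theorem gp_fd_pc {T β : Type} [Fintype β] (B : β → LS Ω T) (d : β → ℕ) :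
    FiniteDimensional Ω (pc B d) := by
  classical
  obtain ⟨x, hx⟩ := exists_blk fun i => (B i).sp
  have e := map_Sd (Ω := Ω) (β := Sigma.fst) x d
  rw [funext hx] at e
  rw [pc, ← e]
  infer_instance

theorem pL_prod (B₁ : β₁ → LS Ω T₁) (B₂ : β₂ → LS Ω T₂) :
    pL (prodB B₁ B₂) = rename Sum.inl (pL B₁) * rename Sum.inr (pL B₂) :=
  (evP_pL _).unique (((evP_pL B₁).prod (evP_pL B₂) Sum.inl Sum.inr).congr
    (Lg.of_forall fun d => by
      have := gp_fd_pc B₁ (d ∘ Sum.inl)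
      have := gp_fd_pc B₂ (d ∘ Sum.inr)
      rw [pc_prod, rank_bx, Nat.cast_mul]))

theorem Dom.prod {B₁ : β₁ → LS Ω T₁} {B₂ : β₂ → LS Ω T₂} (h₁ : Dom B₁) (h₂ : Dom B₂) :
    Dom (prodB B₁ B₂) := by
  intro a b f hf g hg hfg
  rw [pc_prod] at hf hg
  by_contra hc
  obtain ⟨⟨t, s⟩, h1⟩ := Function.ne_iff.1 (not_or.1 hc).1
  obtain ⟨⟨t', s'⟩, h2⟩ := Function.ne_iff.1 (not_or.1 hc).2
  have h3 : (fun y => f (t, y)) * (fun y => g (t', y)) ≠ 0 := fun h0 =>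
    (h₂ _ _ _ (bx_right hf t) _ (bx_right hg t') h0).elim (fun e => h1 (congrFun e s))
      fun e => h2 (congrFun e s')
  obtain ⟨y, hy⟩ := Function.ne_iff.1 h3
  obtain ⟨h4, h5⟩ := mul_ne_zero_iff.1 hy
  exact (h₁ _ _ _ (bx_left hf y) _ (bx_left hg y) (funext fun x => congrFun hfg (x, y))).elim
    (fun e => h4 (congrFun e t)) fun e => h5 (congrFun e t')

theorem Src.prod {B₁ : β₁ → LS Ω T₁} {B₂ : β₂ → LS Ω T₂} {n₁ n₂ : ℕ} (h₁ : Src B₁ n₁)
    (h₂ : Src B₂ n₂) : Src (prodB B₁ B₂) (n₁ + n₂) where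
  ne := ⟨(h₁.ne.some, h₂.ne.some)⟩
  dom := h₁.dom.prod h₂.dom
  dg := by
    rw [pL_prod, Nat.cast_add]
    exact (h₁.dg.rename _).mul (h₂.dg.rename _)

theorem gp_pL_equiv {T β γ : Type} [Fintype β] [Fintype γ] (B : β → LS Ω T) (e : γ ≃ β) :
    pL (B ∘ e) = rename e.symm (pL B) :=
  (evP_pL _).unique (((evP_pL B).rename e.symm).congr (Lg.of_forall fun d => by
    have : pc B (d ∘ e.symm) = pc (B ∘ e) d :=
      (Fintype.prod_equiv e _ _ fun i => by simp).symm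
    rw [this]))

theorem mix_prod {ν₁ ν₂ : Type} [Fintype ν₁] [Fintype ν₂]
    (B₁ : β₁ → LS Ω T₁) (B₂ : β₂ → LS Ω T₂) (W₁ : ν₁ → LS Ω T₁) (W₂ : ν₂ → LS Ω T₂) :
    mix (prodB B₁ B₂) (prodB W₁ W₂) = mix B₁ W₁ * mix B₂ W₂ := by
  let e := Equiv.sumSumSumComm β₁ β₂ ν₁ ν₂
  have h1 : Sum.elim (prodB B₁ B₂) (prodB W₁ W₂) =
      prodB (Sum.elim B₁ W₁) (Sum.elim B₂ W₂) ∘ e := by
    funext i
    rcases i with (i | i) | (i | i) <;> rfl
  have h2 : slots (β₁ ⊕ β₂) (ν₁ ⊕ ν₂) = ((slots β₁ ν₁).mapDomain Sum.inl +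
      (slots β₂ ν₂).mapDomain Sum.inr).mapDomain e.symm := by
    simp only [slots, Fintype.sum_sum_type, Finsupp.mapDomain_add, Finsupp.mapDomain_finsetSum,
      Finsupp.mapDomain_single]
    rfl
  rw [mix_eq_nc, mix_eq_nc, mix_eq_nc, h1, h2, gp_pL_equiv, nc_rename e.symm.injective, pL_prod,
    nc_mul_rename Sum.inl_injective Sum.inr_injective fun _ _ => Sum.inl_ne_inr]

theorem Reg.fst {B₁ : β₁ → LS Ω T₁} (B₂ : β₂ → LS Ω T₂) {V : LS Ω T₁} (h : Reg B₁ V) :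
    Reg (prodB B₁ B₂) (V.pb Prod.fst) :=
  Reg.trans (C := fun i => (B₁ i).pb Prod.fst) (fun i => Reg.self (prodB B₁ B₂) (Sum.inl i))
    (h.pb _)

theorem Reg.snd (B₁ : β₁ → LS Ω T₁) {B₂ : β₂ → LS Ω T₂} {V : LS Ω T₂} (h : Reg B₂ V) :
    Reg (prodB B₁ B₂) (V.pb Prod.snd) :=
  Reg.trans (C := fun i => (B₂ i).pb Prod.snd) (fun i => Reg.self (prodB B₁ B₂) (Sum.inr i))
    (h.pb _)

theorem Dense.prod {j₁ : T₁ → Y₁} {j₂ : T₂ → Y₂} {C₁ : β₁ → LS Ω Y₁} {C₂ : β₂ → LS Ω Y₂}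
    (h₁ : Dense j₁ C₁) (h₂ : Dense j₂ C₂) : Dense (Prod.map j₁ j₂) (prodB C₁ C₂) := by
  intro e f hf h0
  rw [pc_prod] at hf
  funext y
  refine congrFun (h₁ _ _ (bx_left hf y.2) (funext fun t => ?_)) y.1
  exact congrFun (h₂ _ _ (bx_right hf (j₁ t)) (funext fun s => congrFun h0 (t, s))) y.2

end Pool.Agent.Tav
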