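import Pool.Agent.P.MP_2ce3e7_ag.Tav.Slice
import Pool.Agent.P.MP_2ce3e7_ag.Tav.GMul
import Pool.Agent.P.MP_2ce3e7_ag.Tav.GProd

/-! Complete sources, closures of images, and the removal of slots by hyperplane sections. -/

set_option autoImplicit false

noncomputable section

namespace Pool.Agent.Tav

open MvPolynomial Module

attribute [local instance] MvPolynomial.weightedGradedAlgebra

variable {Ω : Type} [Field Ω] {T Y : Type} {β γ ν κ : Type}
  [Fintype β] [Fintype γ] [Fintype ν] [Fintype κ]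

/-- the image of `T` under the base `B` is closed -/
def Cmp (B : β → LS Ω T) : Prop :=
  ∃ (σ : Type) (_ : Finite σ) (_ : DecidableEq β) (w : σ → β) (x : σ → T → Ω),
    (∀ i, blk Ω w x i = (B i).sp) ∧ Sl.Cl w x

namespace Sl

variable {σ τ : Type} [DecidableEq β] {w : σ → β} {x : σ → T → Ω} {B : β → LS Ω T}

omit [Fintype β] [DecidableEq β] in
theorem blk_pb (h : ∀ i, blk Ω w x i = (B i).sp) (j : Y → T) (i : β) :
    blk Ω w (fun s t => x s (j t)) i = ((B i).pb j).sp := by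
  change _ = (B i).sp.map _
  rw [← h, blk, blk, Submodule.map_span, Set.image_image]
  rfl

theorem mem_pc [Finite σ] (h : ∀ i, blk Ω w x i = (B i).sp) {d : β → ℕ} {u : T → Ω} :
    u ∈ pc B d ↔ ∃ G ∈ Sd Ω w d, aeval x G = u := by
  have : pc B d = (Sd Ω w d).map (aeval x).toLinearMap := by
    rw [map_Sd]; simp only [h]; rfl
  rw [this]; rfl

omit [DecidableEq β] in
theorem pf_eq (h : ∀ i, blk Ω w x i = (B i).sp) : pf (blk Ω w x) = pL B := by
  rw [funext h]; rfl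

theorem prime_of_dom [Finite σ] (h : ∀ i, blk Ω w x i = (B i).sp) [Nonempty T] (hd : Dom B) :
    (kerG Ω w x).IsPrime := by
  classical
  refine Pr.detects_pi (Sd Ω w) _ (grJ_iff.1 (grJ_kerG x)) (fun ht => ?_) ?_
  · have := aeval_of_mem_kerG ((Ideal.eq_top_iff_one _).1 ht)
    rw [map_one] at this
    exact one_ne_zero this
  · intro d e f g hf hg hfg
    rw [mem_kerG hf, mem_kerG hg]
    refine hd d e _ ((mem_pc h).2 ⟨f, hf, rfl⟩) _ ((mem_pc h).2 ⟨g, hg, rfl⟩) ?_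
    rw [← map_mul]
    exact aeval_of_mem_kerG hfg

theorem dom_of_prime [Finite σ] (h : ∀ i, blk Ω w x i = (B i).sp) (hp : (kerG Ω w x).IsPrime) :
    Dom B := by
  intro a b f hf g hg hfg
  obtain ⟨F, hF, rfl⟩ := (mem_pc h).1 hf
  obtain ⟨G, hG, rfl⟩ := (mem_pc h).1 hg
  rw [← mem_kerG hF, ← mem_kerG hG]
  refine hp.mem_or_mem ((mem_kerG (IsWeightedHomogeneous.mul hF hG)).2 ?_)
  rw [map_mul, hfg]

omit [Fintype β] [DecidableEq β] in
theorem nz_of_blk (h : ∀ i, blk Ω w x i = (B i).sp) (t : T) : Nz w fun s => x s t := by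
  intro i
  by_contra hc
  obtain ⟨u, hu, h0⟩ := (B i).nv t
  rw [← h] at hu
  refine h0 ?_
  clear h0
  induction hu using Submodule.span_induction with
  | mem y hy =>
    obtain ⟨s, hs, rfl⟩ := hy
    by_contra h1
    exact hc ⟨s, hs, h1⟩
  | zero => rfl
  | add a b _ _ ha hb => simp [ha, hb]
  | smul c a _ ha => simp [ha]

omit [Fintype ν] in
theorem rg_of_reg [Finite σ] (h : ∀ i, blk Ω w x i = (B i).sp) {W : ν → LS Ω T} {v : τ → ν}
    {z : τ → T → Ω} (h' : ∀ k, blk Ω v z k = (W k).sp) (hW : ∀ k, Reg B (W k)) : Rg w x v z := by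
  refine ⟨nz_of_blk h', fun t => ?_⟩
  choose e lam h1 h2 using fun k => hW k t
  have h3 : ∀ j, ∃ G ∈ Sd Ω w (e (v j)), aeval x G = lam (v j) * z j := fun j =>
    (mem_pc h).1 (h2 _ _ (by rw [← h']; exact Submodule.subset_span ⟨j, rfl, rfl⟩))
  choose G hG using h3
  exact ⟨e, lam, G, h1, hG⟩

omit [Fintype β] [Fintype ν] [DecidableEq β] in
theorem blk_elim (h : ∀ i, blk Ω w x i = (B i).sp) {W : ν → LS Ω T} {v : τ → ν}
    {z : τ → T → Ω} (h' : ∀ k, blk Ω v z k = (W k).sp) (i : β ⊕ ν) :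
    blk Ω (Sum.map w v) (Sum.elim x z) i = (Sum.elim B W i).sp := by
  rcases i with i | k
  · rw [Sum.elim_inl, ← h, blk, blk]
    congr 1
    ext u
    simp
  · rw [Sum.elim_inr, ← h', blk, blk]
    congr 1
    ext u
    simp

omit [DecidableEq β] in
theorem exists_co (B : β → LS Ω T) : ∃ (σ : Type) (_ : Finite σ) (w : σ → β) (x : σ → T → Ω),
    ∀ i, blk Ω w x i = (B i).sp := by
  obtain ⟨x, hx⟩ := exists_blk (Ω := Ω) fun i => (B i).sp
  exact ⟨_, inferInstance, _, x, hx⟩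

end Sl

theorem Cmp.ext {B : β → LS Ω T} {W : ν → LS Ω T} (h : Cmp B) (hW : ∀ k, Reg B (W k)) :
    Cmp (Sum.elim B W) := by
  classical
  obtain ⟨σ, _, _, w, x, h1, h2⟩ := h
  obtain ⟨τ, _, v, z, h3⟩ := Sl.exists_co W
  exact ⟨σ ⊕ τ, inferInstance, inferInstance, _, _, Sl.blk_elim h1 h3,
    h2.graph (Sl.rg_of_reg h1 h3 hW)⟩

omit [Fintype β] in
theorem Cmp.prod {T₁ T₂ : Type} {B₁ : β → LS Ω T₁} {B₂ : γ → LS Ω T₂} (h₁ : Cmp B₁)
    (h₂ : Cmp B₂) : Cmp (prodB B₁ B₂) := by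
  obtain ⟨σ, _, _, w, x, h1, h2⟩ := h₁
  obtain ⟨τ, _, _, v, z, h3, h4⟩ := h₂
  have hb := Sl.blk_elim (Sl.blk_pb h1 (Prod.fst : T₁ × T₂ → T₁)) (Sl.blk_pb h3 Prod.snd)
  refine ⟨σ ⊕ τ, inferInstance, inferInstance, _, _, hb, Sl.nz_of_blk hb, fun y hy h => ?_⟩
  obtain ⟨t, c, ht⟩ := h2.2 (fun s => y (Sum.inl s)) (fun i => by
      obtain ⟨s | j, hs, h1⟩ := hy (Sum.inl i)
      · exact ⟨s, by simpa using hs, h1⟩
      · simp at hs) fun f hf => by
    refine Sl.GrJ.le_of_forms (J := RingHom.ker (eval fun s => y (Sum.inl s))) (grJ_kerG x)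
      (fun d g hg hk => ?_) hf
    have e : eval y (rename Sum.inl g) = eval (fun s => y (Sum.inl s)) g := eval_rename _ _ _
    rw [RingHom.mem_ker, ← e]
    refine h _ ((mem_kerG (Gr.hom_up w v hg)).2 ?_)
    funext t
    have := congrFun ((mem_kerG hg).1 hk) t.1
    rw [Sl.aeval_apply] at this ⊢
    exact (eval_rename _ _ _).trans this
  obtain ⟨t', c', ht'⟩ := h4.2 (fun s => y (Sum.inr s)) (fun i => by
      obtain ⟨s | j, hs, h1⟩ := hy (Sum.inr i)
      · simp at hs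
      · exact ⟨j, by simpa using hs, h1⟩) fun f hf => by
    refine Sl.GrJ.le_of_forms (J := RingHom.ker (eval fun s => y (Sum.inr s))) (grJ_kerG z)
      (fun d g hg hk => ?_) hf
    have e : eval y (rename Sum.inr g) = eval (fun s => y (Sum.inr s)) g := eval_rename _ _ _
    rw [RingHom.mem_ker, ← e]
    have hg' := Sl.aeval_mem_Sd (β' := Sum.map w v) hg (fun i => Pi.single (Sum.inr i) 1)
      (fun s => X (Sum.inr s)) fun s => X_mem_Sd (β := Sum.map w v) (Sum.inr s)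
    have e2 : aeval (fun s => X (Sum.inr s)) g = (rename Sum.inr g : MvPolynomial (σ ⊕ τ) Ω) :=
      (DFunLike.congr_fun (rename_eq_aeval (R := Ω) (Sum.inr : τ → σ ⊕ τ)) g).symm
    rw [e2] at hg'
    refine h _ ((mem_kerG hg').2 ?_)
    funext t
    have := congrFun ((mem_kerG hg).1 hk) t.2
    rw [Sl.aeval_apply] at this ⊢
    exact (eval_rename _ _ _).trans this
  refine ⟨(t, t'), Sum.elim c c', ?_⟩
  rintro (s | s)
  · exact ht s
  · exact ht' s

/-- the closure of the image of a map into a complete set -/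
theorem Cmp.closure {C : γ → LS Ω Y} (hC : Cmp C) (j : T → Y) :
    ∃ (U : Set Y) (h : ∀ t, j t ∈ U), Cmp (fun k => (C k).pb (Subtype.val : U → Y)) ∧
      Dense (fun t => (⟨j t, h t⟩ : U)) fun k => (C k).pb Subtype.val := by
  obtain ⟨σ, _, _, w, x, h1, h2⟩ := hC
  have key : ∀ (G : MvPolynomial σ Ω) t, aeval (fun s t => x s (j t)) G t = aeval x G (j t) :=
    fun G t => by rw [Sl.aeval_apply, Sl.aeval_apply]
  refine ⟨Sl.zs x (kerG Ω w fun s t => x s (j t)), fun t f hf => ?_,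
    ⟨σ, inferInstance, inferInstance, w, _, Sl.blk_pb h1 _, Sl.cl_zs h2 (grJ_kerG _) ?_⟩, ?_⟩
  · rw [← key, aeval_of_mem_kerG hf]; rfl
  · refine Sl.GrJ.le_of_forms (grJ_kerG x) fun d f hf h => ?_
    rw [mem_kerG hf] at h ⊢
    funext t
    rw [key, h]; rfl
  · intro e f hf h0
    obtain ⟨G, hG, rfl⟩ := (Sl.mem_pc (Sl.blk_pb h1 _)).1 hf
    refine (Sl.aeval_res _ x G).2 fun t ht => ht G ((mem_kerG hG).2 (funext fun t => ?_))
    have := congrFun h0 t
    rw [pbA_apply, Sl.aeval_apply] at this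
    rw [Sl.aeval_apply]
    exact this

theorem not_dg_neg [Nonempty T] (B : β → LS Ω T) {n : ℤ} (hn : n < 0) : ¬ Dg (pL B) n := by
  intro h
  obtain ⟨N, hN⟩ := evP_pL B
  have h1 := hN (fun _ => N) fun _ => le_rfl
  rw [h.eq_zero hn, map_zero] at h1
  obtain ⟨u, hu, h0⟩ := pc_nv B (fun _ => N) (Classical.arbitrary T)
  have h2 : pc B (fun _ => N) = ⊥ := Submodule.finrank_eq_zero.1 (Nat.cast_eq_zero.1 h1.symm)
  rw [h2, Submodule.mem_bot] at hu
  exact h0 (by rw [hu]; rfl)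

variable [IsAlgClosed Ω]

/-- the section by a member of the base -/
theorem slice_base {B : β → LS Ω T} {n : ℕ} (hc : Cmp B) (hs : Src B n) (i : β) {f : T → Ω}
    (hf : f ∈ (B i).sp) (h0 : f ≠ 0) : ∃ l : List (Set T),
      (∀ U ∈ l, U.Nonempty ∧ Dom (fun k => (B k).pb (Subtype.val : U → T)) ∧ ∀ t ∈ U, f t = 0) ∧
      ∀ (ν : Type) [Fintype ν] (W : ν → LS Ω T), (∀ k, Reg B (W k)) → n ≤ Fintype.card ν + 1 →
        nc (slots β ν + Finsupp.single (Sum.inl i) 1) (pL (Sum.elim B W)) =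
          (l.map fun U : Set T => mix (fun k => (B k).pb (Subtype.val : U → T))
            fun k => (W k).pb Subtype.val).sum := by
  obtain ⟨σ, _, _, w, x, h1, h2⟩ := hc
  have := hs.ne
  obtain ⟨F, hF, rfl⟩ := (Sl.mem_pc h1 (d := Pi.single i 1)).1 (by rwa [pc_single, pow_one])
  obtain ⟨l, a, b⟩ := Sl.slice h2 (Sl.prime_of_dom h1 hs.dom) hF h0
  refine ⟨l, fun U hU => ⟨?_, Sl.dom_of_prime (Sl.blk_pb h1 _) (a U hU).1, (a U hU).2.1⟩, ?_⟩
  · exact Set.nonempty_coe_sort.1 (Sl.nonempty_of_kerG (a U hU).1.ne_top)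
  · intro ν _ W hW hn
    classical
    obtain ⟨τ, _, v, z, h3⟩ := Sl.exists_co W
    have h4 := Sl.blk_elim h1 h3
    have := b τ ν v z (Sl.rg_of_reg h1 h3 hW) n (by rw [Sl.pf_eq h4]; exact (hs.ext hW).dg)
      (slots β ν) (by rw [degree_slots]; exact_mod_cast hn)
    rw [Sl.pf_eq h4, Finset.sum_eq_single i (fun k _ hk => by simp [hk]) (by simp)] at this
    simp only [Pi.single_eq_same, Nat.cast_one, one_mul] at this
    rw [this]
    congr 1
    refine List.map_congr_left fun U _ => ?_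
    rw [mix_eq_nc, ← pb_elim, ← Sl.pf_eq (Sl.blk_pb h4 _)]
    rfl

omit [IsAlgClosed Ω] [Fintype β] [Fintype γ] in
theorem prodB_pb_snd {T₁ T₂ : Type} (B₁ : β → LS Ω T₁) (B₂ : γ → LS Ω T₂) (j : Y → T₂) :
    (fun k => (prodB B₁ B₂ k).pb (Prod.map id j)) = prodB B₁ fun k => (B₂ k).pb j := by
  funext k
  rcases k with k | k <;> simp only [prodB, Sum.elim_inl, Sum.elim_inr, LS.pb_pb] <;> rfl

/-- one slot that comes from the second factor is removed -/
theorem cut_one {A T₁ T₂ : Type} (M : AddSubmonoid (A → ℚ)) {B₁ : β → LS Ω T₁}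
    {B₂ : γ → LS Ω T₂} {n₁ n₂ : ℕ} (c₁ : Cmp B₁) (c₂ : Cmp B₂) (s₁ : Src B₁ n₁) (s₂ : Src B₂ n₂)
    (W : A → ν → LS Ω (T₁ × T₂)) (hW : ∀ a k, Reg (prodB B₁ B₂) (W a k)) {V : LS Ω T₂}
    (hV : Reg B₂ V) (hn : n₁ + n₂ ≤ Fintype.card ν + 1)
    (H : ∀ (U : Set T₂) (m : ℕ), m + 1 = n₂ → Cmp (fun k => (B₂ k).pb (Subtype.val : U → T₂)) →
      Src (fun k => (B₂ k).pb (Subtype.val : U → T₂)) m →
      (fun a => mix (prodB B₁ fun k => (B₂ k).pb (Subtype.val : U → T₂))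
        fun k => (W a k).pb (Prod.map id Subtype.val)) ∈ M) :
    (fun a => mix (prodB B₁ B₂) (Sum.elim (W a) fun _ : Unit => V.pb Prod.snd)) ∈ M := by
  classical
  obtain ⟨t₁⟩ := s₁.ne
  obtain ⟨t₂⟩ := s₂.ne
  obtain ⟨f, hf, hf0⟩ := V.nv t₂
  have hV' : ∀ _ : Unit, Reg (prodB B₁ B₂) (V.pb Prod.snd) := fun _ => Reg.snd B₁ hV
  have sP := (s₁.prod s₂).ext hV'
  have hf' : pbA Ω Prod.snd f ∈
      (Sum.elim (prodB B₁ B₂) (fun _ : Unit => V.pb Prod.snd) (Sum.inr ())).sp := ⟨f, hf, rfl⟩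
  have hne : pbA Ω (Prod.snd : T₁ × T₂ → T₂) f ≠ 0 := fun h => hf0 (congrFun h (t₁, t₂))
  obtain ⟨l, a, b⟩ := slice_base ((c₁.prod c₂).ext hV') sP (Sum.inr ()) hf' hne
  have e1 : ∀ x, mix (prodB B₁ B₂) (Sum.elim (W x) fun _ : Unit => V.pb Prod.snd) =
      (l.map fun U : Set (T₁ × T₂) => mix (fun k => (Sum.elim (prodB B₁ B₂)
        (fun _ : Unit => V.pb Prod.snd) k).pb (Subtype.val : U → T₁ × T₂))
          fun k => (W x k).pb Subtype.val).sum := by
    intro x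
    refine Eq.trans ?_ (b ν (W x) (fun k => (hW x k).elim_left _) hn)
    let g : (β ⊕ γ) ⊕ (ν ⊕ Unit) → ((β ⊕ γ) ⊕ Unit) ⊕ ν :=
      Sum.elim (fun i => Sum.inl (Sum.inl i)) (Sum.elim Sum.inr fun u => Sum.inl (Sum.inr u))
    have hg : Function.Surjective g := by
      rintro ((i | u) | k)
      · exact ⟨Sum.inl i, rfl⟩
      · exact ⟨Sum.inr (Sum.inr u), rfl⟩
      · exact ⟨Sum.inr (Sum.inl k), rfl⟩
    have e : Sum.elim (prodB B₁ B₂) (Sum.elim (W x) fun _ : Unit => V.pb Prod.snd) =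
        Sum.elim (Sum.elim (prodB B₁ B₂) fun _ : Unit => V.pb Prod.snd) (W x) ∘ g := by
      funext i
      rcases i with i | k | u <;> rfl
    rw [mix_eq_nc, e, nc_pL_comp _ hg, mapDomain_slots, Fintype.sum_sum_type, slots]
    simp [g]
  simp only [e1]
  have e2 : ∀ (l : List (Set (T₁ × T₂))) (φ : Set (T₁ × T₂) → A → ℚ), (∀ U ∈ l, φ U ∈ M) →
      (fun x => (l.map fun U => φ U x).sum) ∈ M := by
    intro l φ h
    induction l with
    | nil => exact M.zero_mem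
    | cons U l ih =>
      exact M.add_mem (h U List.mem_cons_self) (ih fun U' hU => h U' (List.mem_cons_of_mem _ hU))
  refine e2 l _ fun U' hU' => ?_
  obtain ⟨hne', hdom, hz⟩ := a U' hU'
  have := hne'.to_subtype
  obtain ⟨U, hU, cU, dU⟩ := c₂.closure fun t : U' => t.1.2
  have : Nonempty U := ⟨⟨_, hU (Classical.arbitrary _)⟩⟩
  have nd : ¬ Dense (Subtype.val : U → T₂) B₂ := by
    intro h
    obtain ⟨e, lam, h1, h2⟩ := hV t₂
    have h3 := h e _ (h2 f hf) (dU e _ (pb_mem_pc _ (h2 f hf)) (funext fun t => by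
      have : f t.1.2 = 0 := hz t.1 t.2
      simp [this]))
    exact mul_ne_zero h1 hf0 (congrFun h3 t₂)
  have dg := s₂.drop nd
  obtain ⟨m, hm⟩ : ∃ m, m + 1 = n₂ := by
    rcases n₂ with _ | m
    · exact absurd dg (not_dg_neg _ (by simp))
    · exact ⟨m, rfl⟩
  have sU' : Src (fun i => (Sum.elim (prodB B₁ B₂) (fun _ : Unit => V.pb Prod.snd) i).pb
      (Subtype.val : U' → T₁ × T₂)) (n₁ + m) := by
    refine ⟨inferInstance, hdom, ?_⟩
    have := sP.drop (j := (Subtype.val : U' → T₁ × T₂)) fun h => hne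
      (h (Pi.single (Sum.inr ()) 1) _ (by rwa [pc_single, pow_one]) (funext fun t => hz t.1 t.2))
    refine this.mono ?_
    push_cast
    omega
  have rU : ∀ k, Reg (fun i => (Sum.elim (prodB B₁ B₂) (fun _ : Unit => V.pb Prod.snd) i).pb
      (Subtype.val : U' → T₁ × T₂)) ((prodB B₁ B₂ k).pb Subtype.val) := fun k =>
    Reg.self (fun i => (Sum.elim (prodB B₁ B₂) (fun _ : Unit => V.pb Prod.snd) i).pb
      (Subtype.val : U' → T₁ × T₂)) (Sum.inl k)
  have sU : Src (fun k => (B₂ k).pb (Subtype.val : U → T₂)) m := by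
    refine ⟨inferInstance, (dU.src.1 (sU'.of_reg fun k => ?_)).dom, dg.mono (by omega)⟩
    have := rU (Sum.inr k)
    simp only [prodB, Sum.elim_inr, LS.pb_pb] at this ⊢
    exact this
  obtain ⟨r, -, hr⟩ := mix_mul sU' (s₁.prod sU) (fun t : U' => (t.1.1, ⟨t.1.2, hU t⟩)) fun k => by
    rw [← prodB_pb_snd, LS.pb_pb]
    exact rU k
  have e3 : (fun x => mix (fun i => (Sum.elim (prodB B₁ B₂) (fun _ : Unit => V.pb Prod.snd) i).pb
      (Subtype.val : U' → T₁ × T₂)) fun k => (W x k).pb Subtype.val) =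
      r • fun x => mix (prodB B₁ fun k => (B₂ k).pb (Subtype.val : U → T₂))
        fun k => (W x k).pb (Prod.map id Subtype.val) := by
    funext x
    rw [Pi.smul_apply, nsmul_eq_mul, ← hr ν _ (by omega) fun k => by
      rw [← prodB_pb_snd]; exact (hW x k).pb _]
    simp only [LS.pb_pb]
    rfl
  rw [e3]
  exact M.nsmul_mem (H U m hm cU sU) r

/-- the slots that come from the second factor are removed -/
theorem cut_fin {A T₁ : Type} (M : AddSubmonoid (A → ℚ)) {B₁ : β → LS Ω T₁} {n₁ : ℕ}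
    (c₁ : Cmp B₁) (s₁ : Src B₁ n₁) (m : ℕ) : ∀ {T₂ : Type} {B₂ : γ → LS Ω T₂} {n₂ : ℕ}
    (_ : Cmp B₂) (_ : Src B₂ n₂) (W : A → ν → LS Ω (T₁ × T₂))
    (_ : ∀ a k, Reg (prodB B₁ B₂) (W a k)) (V : Fin m → LS Ω T₂) (_ : ∀ k, Reg B₂ (V k))
    (_ : n₁ + n₂ ≤ Fintype.card ν + m)
    (_ : ∀ (U : Type) (j : U → T₂) (n : ℕ), n + m = n₂ → Cmp (fun k => (B₂ k).pb j) →
      Src (fun k => (B₂ k).pb j) n →
      (fun a => mix (prodB B₁ fun k => (B₂ k).pb j) fun k => (W a k).pb (Prod.map id j)) ∈ M),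
    (fun a => mix (prodB B₁ B₂) (Sum.elim (W a) fun k => (V k).pb Prod.snd)) ∈ M := by
  induction m with
  | zero =>
    intro T₂ B₂ n₂ c₂ s₂ W hW V hV hn H
    have := H T₂ id n₂ rfl (by simpa only [LS.pb_id] using c₂) (by simpa only [LS.pb_id] using s₂)
    simp only [Prod.map_id, LS.pb_id] at this
    have e : ∀ a, mix (prodB B₁ B₂) (Sum.elim (W a) fun k => (V k).pb Prod.snd) =
        mix (prodB B₁ B₂) (W a) := fun a =>
      (mix_equiv _ _ (Equiv.sumEmpty ν (Fin 0)).symm).symm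
    simp only [e]
    exact this
  | succ m ih =>
    intro T₂ B₂ n₂ c₂ s₂ W hW V hV hn H
    have e : ∀ a, mix (prodB B₁ B₂) (Sum.elim (W a) fun k => (V k).pb Prod.snd) =
        mix (prodB B₁ B₂) (Sum.elim (Sum.elim (W a) fun k : Fin m => (V k.castSucc).pb Prod.snd)
          fun _ : Unit => (V (Fin.last m)).pb Prod.snd) := by
      intro a
      rw [← mix_equiv _ _ ((Equiv.sumAssoc ν (Fin m) Unit).trans ((Equiv.refl ν).sumCongr
        ((Equiv.optionEquivSumPUnit.{0, 0} (Fin m)).symm.trans finSuccEquivLast.symm)))]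
      congr 1
      funext i
      rcases i with (k | k) | u <;> simp
    simp only [e]
    refine cut_one M c₁ c₂ s₁ s₂ _ (fun a => Reg.elim (hW a) fun k => Reg.snd B₁ (hV _)) (hV _)
      (by rw [Fintype.card_sum, Fintype.card_fin]; omega) fun U n hn' cU sU => ?_
    have := ih cU sU (fun a k => (W a k).pb (Prod.map id Subtype.val))
      (fun a k => by rw [← prodB_pb_snd]; exact (hW a k).pb _)
      (fun k => (V k.castSucc).pb Subtype.val) (fun k => (hV _).pb _) (by omega)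
      fun U' j n' h1 h2 h3 => by
        have := H U' (Subtype.val ∘ j) n' (by omega) (by simpa only [LS.pb_pb] using h2)
          (by simpa only [LS.pb_pb] using h3)
        simp only [LS.pb_pb]
        exact this
    simp only [pb_elim, LS.pb_pb] at this ⊢
    exact this

/-- the slots that come from the second factor are removed -/
theorem cut_mem {A T₁ T₂ : Type} (M : AddSubmonoid (A → ℚ)) {B₁ : β → LS Ω T₁}
    {B₂ : γ → LS Ω T₂} {n₁ n₂ : ℕ} (c₁ : Cmp B₁) (c₂ : Cmp B₂) (s₁ : Src B₁ n₁) (s₂ : Src B₂ n₂)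
    (W : A → ν → LS Ω (T₁ × T₂)) (hW : ∀ a k, Reg (prodB B₁ B₂) (W a k)) (V : κ → LS Ω T₂)
    (hV : ∀ k, Reg B₂ (V k)) (hn : n₁ + n₂ ≤ Fintype.card ν + Fintype.card κ)
    (H : ∀ (U : Type) (j : U → T₂) (n : ℕ), n + Fintype.card κ = n₂ →
      Cmp (fun k => (B₂ k).pb j) → Src (fun k => (B₂ k).pb j) n →
      (fun a => mix (prodB B₁ fun k => (B₂ k).pb j) fun k => (W a k).pb (Prod.map id j)) ∈ M) :
    (fun a => mix (prodB B₁ B₂) (Sum.elim (W a) fun k => (V k).pb Prod.snd)) ∈ M := by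
  have := cut_fin M c₁ s₁ _ c₂ s₂ W hW (V ∘ (Fintype.equivFin κ).symm) (fun k => hV _) hn H
  have e : ∀ a, mix (prodB B₁ B₂) (Sum.elim (W a) fun k => (V k).pb Prod.snd) =
      mix (prodB B₁ B₂) (Sum.elim (W a) fun k => ((V ∘ (Fintype.equivFin κ).symm) k).pb Prod.snd) := by
    intro a
    rw [← mix_equiv _ _ ((Equiv.refl ν).sumCongr (Fintype.equivFin κ).symm)]
    congr 1
    funext i
    rcases i with k | k <;> rfl
  simp only [e]
  exact this

end Pool.Agent.Tav
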