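import Pool.Agent.P.MP_2ce3e7_ag.Tav.Par
import Pool.Agent.P.MP_2ce3e7_ag.Tav.SliceL

/-! The image of a complete source under a regular map is closed. -/

set_option autoImplicit false

noncomputable section

namespace Pool.Agent.Tav.Ti

open MvPolynomial Module

variable {Ω : Type} [Field Ω] {T Y : Type} {β γ κ τ : Type} [Fintype β] [Fintype γ] [Fintype κ]

omit [Fintype β] in
/-- a complete base comes from closed coordinates -/
theorem cmp_blk {B : β → LS Ω T} (h : Cmp B) : ∃ (σ : Type) (_ : Finite σ) (_ : DecidableEq β)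
    (w : σ → β) (x : T → σ → Ω) (hx : ∀ t b, ∃ v, w v = b ∧ x t v ≠ 0),
    LS.blk w x hx = B ∧ Cl w x := by
  obtain ⟨σ, _, _, w, x, h1, h2⟩ := h
  refine ⟨σ, inferInstance, inferInstance, w, fun t v => x v t, h2.1,
    funext fun i => LS.ext' (h1 i), fun y hy hz => ?_⟩
  obtain ⟨t, c, hc⟩ := h2.2 y hy fun f hf =>
    (Ideal.span_le (I := RingHom.ker (eval y))).2 (fun g hg => by
      obtain ⟨h0, d, hd⟩ := hg
      refine hz d g hd fun t => ?_
      rw [← Sl.aeval_apply, h0, Pi.zero_apply]) hf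
  refine ⟨t, c, fun b h0 => ?_, hc⟩
  obtain ⟨s, hs, h3⟩ := hy b
  exact h3 (by rw [hc, hs, h0, zero_mul])

omit [Fintype β] in
theorem cmp_of_cl [DecidableEq β] {σ : Type} [Finite σ] {w : σ → β} {x : T → σ → Ω}
    (hx : ∀ t b, ∃ v, w v = b ∧ x t v ≠ 0) (h : Cl w x) : Cmp (LS.blk w x hx) := by
  refine ⟨σ, inferInstance, inferInstance, w, fun v t => x t v, fun _ => rfl, hx, fun y hy hz => ?_⟩
  obtain ⟨t, c, -, hc⟩ := h y hy fun d f hf h0 => hz f ((mem_kerG hf).2 (funext fun t => by
    rw [Sl.aeval_apply]; exact h0 t))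
  exact ⟨t, c, hc⟩

variable [IsAlgClosed Ω]

theorem cmp_bpf {B : β → LS Ω T} (h : Cmp B) {e : β → ℕ} {U : Submodule Ω (T → Ω)}
    (hU : U ≤ pc B e) (h0 : ∀ t, ∃ u ∈ U, u t ≠ 0) : Bpf B e U := by
  obtain ⟨σ, _, _, w, x, hx, rfl, hc⟩ := cmp_blk h
  exact Bpf.of_cl hx hc hU h0

/-- IMG -/
theorem img [DecidableEq κ] [Finite τ] {B : β → LS Ω T} (hc : Cmp B) {v : τ → κ}
    {z : T → τ → Ω} (hz : ∀ t b, ∃ l, v l = b ∧ z t l ≠ 0)
    (hr : ∀ k, Reg B (LS.blk v z hz k)) : Cl v z := by
  classical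
  intro y hy h0
  by_contra hn
  choose l0 hl0 hy0 using hy
  let U' : Submodule Ω (MvPolynomial τ Ω) := Sd Ω v 1 ⊓ LinearMap.ker (aeval y).toLinearMap
  let ev : MvPolynomial τ Ω →ₐ[Ω] (T → Ω) := aeval fun l t => z t l
  have hev : ∀ F t, ev F t = eval (z t) F := fun F t => congrFun (aeval_fun z F) t
  have hpr : ∀ G : κ → MvPolynomial τ Ω, (∀ k, G k ∈ Sd Ω v (Pi.single k 1)) →
      ∏ k, G k ∈ Sd Ω v 1 := fun G hG => by
    have := IsWeightedHomogeneous.prod Finset.univ G (fun k => (Pi.single k 1 : κ → ℕ))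
      (w := wN v) fun k _ => hG k
    rwa [Finset.univ_sum_single] at this
  let e : β ⊕ κ → ℕ := Sum.elim 0 1
  have hpc : pc (Sum.elim B (LS.blk v z hz)) e = (Sd Ω v 1).map ev.toLinearMap := by
    rw [pc_elim, ← pc_blk v z hz]
    change pc B 0 * pc _ 1 = _
    rw [pc_zero, one_mul]
  have hX : ∀ k l, v l = k → (X l : MvPolynomial τ Ω) ∈ Sd Ω v (Pi.single k 1) :=
    fun k l h => h ▸ X_mem_Sd l
  obtain ⟨N, hN⟩ := cmp_bpf (hc.ext hr) (e := e) (U := U'.map ev.toLinearMap)
    (by rw [hpc]; exact Submodule.map_mono inf_le_left) fun t => by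
      choose m hm hm0 using hz t
      obtain ⟨l, hl⟩ : ∃ l, y (l0 (v l)) * z t l - y l * z t (l0 (v l)) ≠ 0 := by
        by_contra hc'
        push Not at hc'
        have h1 : ∀ k, z t (l0 k) ≠ 0 := fun k h1 => by
          have := hc' (m k)
          rw [hm, h1, mul_zero, sub_zero] at this
          exact mul_ne_zero (hy0 k) (hm0 k) this
        refine hn ⟨t, fun k => y (l0 k) / z t (l0 k), fun k => div_ne_zero (hy0 k) (h1 k),
          fun l => ?_⟩
        have := hc' l
        have h2 := h1 (v l)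
        field_simp
        linear_combination -this
      let G : κ → MvPolynomial τ Ω := fun k =>
        if k = v l then y (l0 (v l)) • X l - y l • X (l0 (v l)) else X (m k)
      refine ⟨ev (∏ k, G k), ⟨_, ⟨hpr G fun k => ?_, ?_⟩, rfl⟩, ?_⟩
      · simp only [G]
        split_ifs with h
        · exact Submodule.sub_mem _ (Submodule.smul_mem _ _ (hX k l h.symm))
            (Submodule.smul_mem _ _ (hX k _ (by rw [hl0, h])))
        · exact hX k _ (hm k)
      · change aeval y (∏ k, G k) = 0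
        rw [map_prod]
        refine Finset.prod_eq_zero (Finset.mem_univ (v l)) ?_
        simp [G, mul_comm]
      · rw [hev, map_prod]
        refine Finset.prod_ne_zero_iff.2 fun k _ => ?_
        simp only [G]
        split_ifs with h
        · simpa [smul_eval] using hl
        · simpa using hm0 k
  let V := pc (Sum.elim B (LS.blk v z hz)) fun _ => N
  have hV := hN (fun _ => N) fun _ => le_rfl
  let b := finBasis Ω V
  let L : MvPolynomial τ Ω := ∏ k, X (l0 k)
  have hL : L ∈ Sd Ω v 1 := hpr _ fun k => hX k _ (hl0 k)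
  have key : ∀ f ∈ U'.map ev.toLinearMap * V, ∃ F : Fin (finrank Ω V) → MvPolynomial τ Ω,
      (∀ j, F j ∈ U') ∧ f = ∑ j, ev (F j) * (b j : T → Ω) := by
    intro f hf
    refine Submodule.mul_induction_on hf ?_ ?_
    · rintro _ ⟨F, hF, rfl⟩ u hu
      refine ⟨fun j => b.repr ⟨u, hu⟩ j • F, fun j => U'.smul_mem _ hF, ?_⟩
      have := congrArg V.subtype (b.sum_repr ⟨u, hu⟩)
      rw [map_sum] at this
      change _ = u at this
      conv_lhs => rw [← this]
      rw [Finset.mul_sum]
      refine Finset.sum_congr rfl fun j _ => ?_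
      simp
    · rintro _ _ ⟨F, hF, rfl⟩ ⟨F', hF', rfl⟩
      exact ⟨F + F', fun j => U'.add_mem (hF j) (hF' j), by
        simp [add_mul, Finset.sum_add_distrib]⟩
  choose F hF hE using fun i => key (ev L * (b i : T → Ω)) (by
    rw [hV, pc_add, mul_comm (ev L)]
    exact Submodule.mul_mem_mul (b i).2 (by rw [hpc]; exact ⟨L, hL, rfl⟩))
  let A : Matrix (Fin (finrank Ω V)) (Fin (finrank Ω V)) (MvPolynomial τ Ω) :=
    Matrix.diagonal (fun _ => L) - Matrix.of F
  have hA : ∀ i j, A i j ∈ Sd Ω v 1 := fun i j => by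
    refine Submodule.sub_mem _ ?_ (hF i j).1
    rw [Matrix.diagonal_apply]
    split_ifs
    exacts [hL, Submodule.zero_mem _]
  have hd : A.det ∈ Sd Ω v (∑ _i : Fin (finrank Ω V), 1) := by
    rw [Matrix.det_apply]
    refine Submodule.sum_mem _ fun s _ => ?_
    rw [Units.smul_def]
    exact zsmul_mem (IsWeightedHomogeneous.prod Finset.univ (fun i => A (s i) i) (fun _ => 1)
      (w := wN v) fun i _ => hA _ _) _
  have h1 := h0 _ _ hd fun t => by
    rw [RingHom.map_det, ← Matrix.exists_mulVec_eq_zero_iff]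
    refine ⟨fun j => (b j : T → Ω) t, fun h => ?_, funext fun i => ?_⟩
    · obtain ⟨u, hu, h2⟩ := pc_nv (Sum.elim B (LS.blk v z hz)) (fun _ => N) t
      have := congrFun (congrArg V.subtype (b.sum_repr ⟨u, hu⟩)) t
      rw [map_sum, Finset.sum_apply] at this
      refine h2 (this.symm.trans (Finset.sum_eq_zero fun j _ => ?_))
      have h3 : (b j : T → Ω) t = 0 := congrFun h j
      simp [h3]
    · have := congrFun (hE i) t
      rw [Finset.sum_apply, Pi.mul_apply, hev] at this
      simp only [Pi.mul_apply, hev] at this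
      simp [A, Matrix.mulVec, dotProduct, Matrix.diagonal_apply, sub_mul, Finset.sum_sub_distrib,
        apply_ite (eval (z t)), this]
  have h2 : (eval y).mapMatrix A = Matrix.diagonal fun _ => eval y L := by
    ext i j
    have : eval y (F i j) = 0 := (hF i j).2
    simp [A, Matrix.diagonal_apply, apply_ite (eval y), this]
  rw [RingHom.map_det, h2, Matrix.det_diagonal] at h1
  refine Finset.prod_ne_zero_iff.2 (fun _ _ => ?_) h1
  rw [map_prod]
  exact Finset.prod_ne_zero_iff.2 fun k _ => by simpa using hy0 k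

/-- a regular family on a complete source is complete -/
theorem cmp_of_reg {B : β → LS Ω T} (hc : Cmp B) {W : κ → LS Ω T} (hr : ∀ k, Reg B (W k)) :
    Cmp W := by
  classical
  obtain ⟨σ, _, w, x, h⟩ := Sl.exists_co W
  have e : LS.blk w (fun t v => x v t) (Sl.nz_of_blk h) = W := funext fun i => LS.ext' (h i)
  rw [← e]
  exact cmp_of_cl _ (img hc (Sl.nz_of_blk h) (by rw [e]; exact hr))

/-- SURJ -/
theorem surj {B : β → LS Ω T} (hc : Cmp B) {C : γ → LS Ω Y} {j : T → Y}
    (hr : ∀ k, Reg B ((C k).pb j)) (hd : Dense j C)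
    (sep : ∀ y y', (∀ k, ∃ c : Ω, c ≠ 0 ∧ ∀ u ∈ (C k).sp, u y' = c * u y) → y = y') :
    Function.Surjective j := by
  classical
  obtain ⟨σ, _, w, x, h⟩ := Sl.exists_co C
  have hx := Sl.nz_of_blk h
  have e : LS.blk w (fun t v => x v t) hx = C := funext fun i => LS.ext' (h i)
  intro y
  obtain ⟨t, c, hc0, ht⟩ := img hc (v := w) (z := fun t v => x v (j t)) (fun t => hx (j t))
    (fun k => by rw [← LS.pb_blk w (fun t v => x v t) hx j k, e]; exact hr k)
    (fun v => x v y) (hx y) fun d f hf h0 => by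
      have h1 : (fun t => eval (fun v => x v t) f) ∈ pc C d := by
        rw [← e]; exact mem_pc_blk.2 ⟨f, hf, rfl⟩
      exact congrFun (hd d _ h1 (funext h0)) y
  refine ⟨t, sep _ _ fun k => ⟨c k, hc0 k, fun u hu => ?_⟩⟩
  rw [← h] at hu
  induction hu using Submodule.span_induction with
  | mem u hu =>
    obtain ⟨s, rfl, rfl⟩ := hu
    exact ht s
  | zero => simp
  | add u u' _ _ h1 h2 => rw [Pi.add_apply, Pi.add_apply, h1, h2, mul_add]
  | smul a u _ h1 => rw [Pi.smul_apply, Pi.smul_apply, h1, smul_eq_mul, smul_eq_mul, mul_left_comm]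

end Pool.Agent.Tav.Ti
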