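import Pool.Agent.P.MP_2ce3e7_ag.Tav.APush
import Pool.Agent.P.MP_2ce3e7_ag.Tav.MAV

/-! Descent of regular homomorphisms along a separable isogeny. -/

noncomputable section

namespace Pool.Agent.Tav.Qt

open MvPolynomial Module Function

variable {Ω : Type} [Field Ω] {T Y : Type} {β γ δ ν κ : Type}
  [Fintype β] [Fintype γ] [Fintype δ] [Fintype ν] [Fintype κ]

/-- an independent family is not larger than the rank -/
theorem card_le_rk {A : Type} [CommRing A] [Algebra Ω A] {L : γ → Submodule Ω A}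
    [∀ i, FiniteDimensional Ω (L i)] (hL : NoZD (pw L)) {n : ℤ} (d1 : Dg (pf L) n)
    (d2 : ¬ Dg (pf L) (n - 1)) {U : Submodule Ω A} [FiniteDimensional Ω U] {r : ℕ}
    (h : IsRk (pw L) U r) {u : κ → A} (hu : ∀ j, u j ∈ U) (hi : Ind (pw L) u) :
    Fintype.card κ ≤ r := by
  by_contra hc
  obtain ⟨e, he⟩ := h.sandwich (one_mem_pw _) (fun a b => (pw_add _ a b).ge) hL
  refine d2 ?_
  have key := dg_of_sandwich (h := hw L) (hU := hw L) (r := 0) (N := finrank Ω U) (e := e)
    (evP_pf L) (evP_pf L) d1 (fun a => by rw [zero_mul]; exact Nat.cast_nonneg _) fun a => by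
      have h1 := hi.lower hu (e + a)
      have h2 := (he a).2
      have h3 : (r + 1) * finrank Ω (pw L (e + a)) ≤ Fintype.card κ * finrank Ω (pw L (e + a)) :=
        Nat.mul_le_mul_right _ (not_le.1 hc)
      rw [hw_eq, hw_eq, zero_add]
      exact_mod_cast (by nlinarith)
  rwa [map_zero, zero_mul, sub_zero] at key

/-- regularity at one point -/
def RegAt (B : β → LS Ω T) (V : LS Ω T) (t : T) : Prop :=
  ∃ (e : β → ℕ) (lam : T → Ω), lam t ≠ 0 ∧ ∀ u ∈ V.sp, lam * u ∈ pc B e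

theorem regAt_pc {B : β → LS Ω T} {C : γ → LS Ω T} {t : T} (h : ∀ k, RegAt B (C k) t)
    (d : γ → ℕ) :
    ∃ (e : β → ℕ) (lam : T → Ω), lam t ≠ 0 ∧ ∀ u ∈ pc C d, lam * u ∈ pc B e := by
  classical
  induction d using vec_ind with
  | h0 => exact ⟨0, 1, one_ne_zero, fun u hu => by rwa [one_mul, pc_zero, ← pc_zero C]⟩
  | hs i m ih =>
    obtain ⟨e, l, hl, h1⟩ := ih
    obtain ⟨e', l', hl', h2⟩ := h i
    refine ⟨e + e', l * l', mul_ne_zero hl hl', fun u hu => ?_⟩
    rw [pc_add, pc_single, pow_one] at hu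
    refine Submodule.mul_induction_on hu (fun a ha b hb => ?_) fun a b ha hb => ?_
    · rw [mul_mul_mul_comm]
      exact mul_mem_pc (h1 a ha) (h2 b hb)
    · rw [mul_add]
      exact Submodule.add_mem _ ha hb

theorem RegAt.trans {B : β → LS Ω T} {C : γ → LS Ω T} {V : LS Ω T} {t : T}
    (h : ∀ k, RegAt B (C k) t) (h' : RegAt C V t) : RegAt B V t := by
  obtain ⟨d, m, hm, h1⟩ := h'
  obtain ⟨e, l, hl, h2⟩ := regAt_pc h d
  exact ⟨e, l * m, mul_ne_zero hl hm, fun u hu => by rw [mul_assoc]; exact h2 _ (h1 u hu)⟩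

theorem RegAt.pb {C : γ → LS Ω Y} {V : LS Ω Y} (j : T → Y) {t : T} (h : RegAt C V (j t)) :
    RegAt (fun i => (C i).pb j) (V.pb j) t := by
  obtain ⟨e, l, hl, h1⟩ := h
  refine ⟨e, pbA Ω j l, hl, ?_⟩
  rintro _ ⟨u, hu, rfl⟩
  have := pb_mem_pc j (h1 u hu)
  rwa [map_mul] at this

theorem mem_elim_left {C : γ → LS Ω T} (W : ν → LS Ω T) {e : γ → ℕ} {f : T → Ω}
    (hf : f ∈ pc C e) : f ∈ pc (Sum.elim C W) (Sum.elim e 0) := by
  rw [pc_elim, Sum.elim_comp_inl, Sum.elim_comp_inr, pc_zero, mul_one]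
  exact hf

theorem mem_elim_mul {C : γ → LS Ω T} {W : ν → LS Ω T} {e : γ → ℕ} {d : ν → ℕ} {f g : T → Ω}
    (hf : f ∈ pc C e) (hg : g ∈ pc W d) : f * g ∈ pc (Sum.elim C W) (Sum.elim e d) := by
  rw [pc_elim, Sum.elim_comp_inl, Sum.elim_comp_inr]
  exact Submodule.mul_mem_mul hf hg

theorem pc_one (V : LS Ω T) (m : ℕ) : pc (fun _ : Unit => V) (fun _ => m) = V.sp ^ m := by
  rw [pc, Fintype.prod_unique]

/-- a rational system is regular where the denominator does not vanish -/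
theorem regAt_of_rat {C : γ → LS Ω T} {V : LS Ω T} (hD : Dom (Sum.elim C fun _ : Unit => V))
    {e : γ → ℕ} {f l : T → Ω} (hl : l ∈ V.sp) (l0 : l ≠ 0)
    (h : ∀ x ∈ V.sp, ∃ y ∈ pc C e, f * x = l * y) {s : T} (hs : f s ≠ 0) : RegAt C V s := by
  choose! y hy1 hy2 using h
  choose w hw hw0 using V.nv
  have m1 : ∀ {x}, x ∈ V.sp → x ∈ pc (fun _ : Unit => V) fun _ => 1 := fun hx => by
    rwa [pc_one, pow_one]
  refine ⟨e, fun t => y (w t) t / w t t, div_ne_zero (fun h0 => ?_) (hw0 s), fun x hx => ?_⟩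
  · have := congrFun (hy2 _ (hw s)) s
    rw [Pi.mul_apply, Pi.mul_apply, h0, mul_zero] at this
    exact mul_ne_zero hs (hw0 s) this
  · have e1 : (fun t => y (w t) t / w t t) * x = y x := funext fun t => by
      have h1 : l * (y x * w t - y (w t) * x) = 0 := by
        rw [mul_sub, ← mul_assoc, ← mul_assoc, ← hy2 x hx, ← hy2 _ (hw t)]; ring
      have h2 := (hD _ _ l (by simpa using mem_elim_mul (one_mem_pc C) (m1 hl)) _
        (Submodule.sub_mem _ (mem_elim_mul (hy1 x hx) (m1 (hw t)))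
          (mem_elim_mul (hy1 _ (hw t)) (m1 hx))) h1).resolve_left l0
      have h3 := congrFun (sub_eq_zero.1 h2) t
      rw [Pi.mul_apply, Pi.mul_apply] at h3
      rw [Pi.mul_apply, div_mul_eq_mul_div, ← h3, mul_div_cancel_right₀ _ (hw0 t)]
    rw [e1]
    exact hy1 x hx

theorem exists_common [Nonempty T] {C : γ → LS Ω T} (hD : Dom C) {e : δ → γ → ℕ}
    {f : δ → T → Ω} (hf : ∀ d, f d ∈ pc C (e d)) (f0 : ∀ d, f d ≠ 0) : ∃ s, ∀ d, f d s ≠ 0 := by
  classical
  have key : ∀ S : Finset δ, ∏ d ∈ S, f d ∈ pc C (∑ d ∈ S, e d) ∧ ∏ d ∈ S, f d ≠ 0 := by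
    intro S
    induction S using Finset.induction_on with
    | empty => exact ⟨by simpa using one_mem_pc C, by simp⟩
    | insert d S hd ih =>
      rw [Finset.prod_insert hd, Finset.sum_insert hd]
      exact ⟨mul_mem_pc (hf d) ih.1, fun h => (hD _ _ _ (hf d) _ ih.1 h).elim (f0 d) ih.2⟩
  obtain ⟨s, hs⟩ := Function.ne_iff.1 (key Finset.univ).2
  rw [Finset.prod_apply] at hs
  exact ⟨s, fun d => Finset.prod_ne_zero_iff.1 hs d (Finset.mem_univ d)⟩

/-- forms in the base separate points -/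
def Sep (B : β → LS Ω T) : Prop := ∀ x y, x ≠ y → ∃ e, ∃ f ∈ pc B e, f x ≠ 0 ∧ f y = 0

theorem Sep.interp {B : β → LS Ω T} (h : Sep B) {x : κ → T} (hx : Injective x) :
    Lg fun m => ∃ u : κ → T → Ω, ∀ i, u i ∈ pc B m ∧ u i (x i) ≠ 0 ∧
      ∀ j, j ≠ i → u i (x j) = 0 := by
  classical
  have one : ∀ i (S : Finset κ), i ∉ S →
      ∃ e, ∃ f ∈ pc B e, f (x i) ≠ 0 ∧ ∀ j ∈ S, f (x j) = 0 := by
    intro i S
    induction S using Finset.induction_on with
    | empty => exact fun _ => ⟨0, 1, one_mem_pc B, one_ne_zero, by simp⟩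
    | insert j S _ ih =>
      intro hi
      rw [Finset.mem_insert, not_or] at hi
      obtain ⟨e, f, hf, f0, f1⟩ := ih hi.2
      obtain ⟨e', g, hg, g0, g1⟩ := h (x i) (x j) (hx.ne hi.1)
      refine ⟨e + e', f * g, mul_mem_pc hf hg, mul_ne_zero f0 g0, fun k hk => ?_⟩
      rcases Finset.mem_insert.1 hk with rfl | hk
      · exact mul_eq_zero_of_right _ g1
      · exact mul_eq_zero_of_left (f1 k hk) _
  have two : ∀ i, Lg fun m => ∃ f ∈ pc B m, f (x i) ≠ 0 ∧ ∀ j, j ≠ i → f (x j) = 0 := by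
    intro i
    obtain ⟨e, f, hf, f0, f1⟩ := one i (Finset.univ.erase i) (Finset.notMem_erase _ _)
    refine Lg.of_add e (Lg.of_forall fun d => ?_)
    obtain ⟨g, hg, g0⟩ := pc_nv B d (x i)
    exact ⟨g * f, mul_mem_pc hg hf, mul_ne_zero g0 f0, fun j hj =>
      mul_eq_zero_of_right _ (f1 j (Finset.mem_erase.2 ⟨hj, Finset.mem_univ j⟩))⟩
  refine (Lg.all two).mono fun m hm => ?_
  choose u h1 h2 h3 using hm
  exact ⟨u, fun i => ⟨h1 i, h2 i, h3 i⟩⟩

theorem sep_blk {σ : Type} [Finite σ] {w : σ → β} {x : T → σ → Ω}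
    (hx : ∀ t b, ∃ v, w v = b ∧ x t v ≠ 0) (hi : ∀ y y', BPar w (x y) (x y') → y = y') :
    Sep (LS.blk w x hx) := by
  classical
  intro y y' hne
  by_contra hn
  refine hne (hi y y' ?_)
  choose v hv hv0 using hx y'
  have key : ∀ l, x y l * x y' (v (w l)) = x y (v (w l)) * x y' l := by
    intro l
    by_contra hc
    refine hn ⟨Pi.single (w l) 1, x y' (v (w l)) • (fun t => x t l) -
      x y' l • fun t => x t (v (w l)), ?_, ?_, ?_⟩
    · rw [pc_single, pow_one]
      exact Submodule.sub_mem _ (Submodule.smul_mem _ _ (Submodule.subset_span ⟨l, rfl, rfl⟩))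
        (Submodule.smul_mem _ _ (Submodule.subset_span ⟨_, hv _, rfl⟩))
    · simp only [Pi.sub_apply, Pi.smul_apply, smul_eq_mul]
      rw [sub_ne_zero, mul_comm, mul_comm (x y' l)]
      exact hc
    · simp only [Pi.sub_apply, Pi.smul_apply, smul_eq_mul]
      ring
  refine ⟨fun b => x y (v b) / x y' (v b), fun b h0 => ?_, fun l => ?_⟩
  · obtain ⟨l, rfl, hl⟩ := hx y b
    have := key l
    rw [(div_eq_zero_iff.1 h0).resolve_right (hv0 _), zero_mul] at this
    exact mul_ne_zero hl (hv0 _) this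
  · rw [div_mul_eq_mul_div, ← key, mul_div_cancel_right₀ _ (hv0 _)]

theorem not_dg_of_mix {C : γ → LS Ω Y} {n : ℕ} (hC : Src C n) {W : ν → LS Ω Y}
    (hn : n ≤ Fintype.card ν) (hW : ∀ k, Reg C (W k)) (h0 : mix C W ≠ 0) :
    ¬ Dg (pL C) (n - 1) := fun h => by
  have := hC.ne
  refine h0 (Dg.pf_rat (fun i => (Sum.elim C W i).sp) Sum.inl_injective (hC.dom.ext hW)
    (fun i hi => ?_) h _ (by rw [degree_slots]; omega))
  cases i with
  | inl i => exact absurd ⟨i, rfl⟩ hi
  | inr k => exact (hW k).ratOver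

omit [Fintype γ] in
theorem regM_const (B : β → LS Ω T) (C : γ → LS Ω Y) (y : Y) : RegM B C fun _ => y := fun k =>
  Reg.of_le (e := 0) (by
    rintro _ ⟨u, -, rfl⟩
    rw [pc_zero, Submodule.mem_one]
    exact ⟨u y, rfl⟩)

section Grp

variable {G G₁ G₂ : Type} [AddCommGroup G] [AddCommGroup G₁] [AddCommGroup G₂]

/-- translations are regular -/
def Tr (B : β → LS Ω G) : Prop := ∀ a : G, RegM B B fun t => t + a

theorem tr_of_sub {B : β → LS Ω G} (h : RegM (prodB B B) B fun t : G × G => t.1 - t.2) : Tr B :=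
  fun a => by
    have := ((RegM.id B).pair (regM_const B B (-a))).comp h
    simpa [Function.comp_def] using this

/-- a homomorphism that is regular at one point is regular -/
theorem regM_of_regAt {C : γ → LS Ω G₁} {D : δ → LS Ω G₂} (tC : Tr C) (tD : Tr D)
    (h : G₁ →+ G₂) {s : G₁} (hs : ∀ d, RegAt C ((D d).pb h) s) : RegM C D h := by
  intro d t
  have e1 : (D d).pb h = ((D d).pb fun z => z + h (t - s)).pb (h ∘ fun x => x + (s - t)) := by
    rw [LS.pb_pb]
    congr 1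
    funext x
    simp only [Function.comp_apply, map_add, map_sub]
    abel
  rw [e1]
  refine RegAt.trans (C := fun k => (D k).pb (h ∘ fun x => x + (s - t))) (fun k => ?_)
    ((tD _ d).pb _ t)
  rw [← LS.pb_pb]
  refine RegAt.trans (fun i => tC (s - t) i t) (RegAt.pb _ ?_)
  rw [add_sub_cancel]
  exact hs k

theorem prod_mem_pc {B : β → LS Ω T} (j : κ → T → T) {m : β → ℕ} {u : κ → T → Ω}
    (hu : ∀ i, u i ∈ pc B m) : (∏ i, pbA Ω (j i) (u i)) ∈
      pc (fun p : κ × β => (B p.2).pb (j p.1)) fun p => m p.2 := by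
  classical
  rw [pc, Fintype.prod_prod_type]
  have key : ∀ S : Finset κ, (∏ i ∈ S, pbA Ω (j i) (u i)) ∈
      ∏ i ∈ S, pc (fun b => (B b).pb (j i)) m := by
    intro S
    induction S using Finset.induction_on with
    | empty => simpa using Submodule.one_le.1 (le_refl (1 : Submodule Ω (T → Ω)))
    | insert i S hi ih =>
      rw [Finset.prod_insert hi, Finset.prod_insert hi]
      exact Submodule.mul_mem_mul (pb_mem_pc _ (hu i)) ih
  exact key Finset.univ

/-- invariant pairs are dependent over the ring of the quotient -/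
theorem dep_of_card {B : β → LS Ω G} {C : γ → LS Ω G₁} {n : ℕ} (hB : Src B n) (hC : Src C n)
    {W : ν → LS Ω G₁} (hn : n ≤ Fintype.card ν) (hW : ∀ k, Reg C (W k)) (h0 : mix C W ≠ 0)
    (tB : Tr B) (sB : Sep B) (u : G →+ G₁) (hu : Surjective u) (ru : RegM B C u)
    [Finite u.ker] (hd : mix B (fun k => (W k).pb u) = Nat.card u.ker * mix C W)
    {V : LS Ω G₁} (hV : Reg B (V.pb u)) {x l : G₁ → Ω} (hx : x ∈ V.sp) (hl : l ∈ V.sp)
    (l0 : l ≠ 0) : ∃ e, ∃ f ∈ pc C e, f ≠ 0 ∧ ∃ y ∈ pc C e, f * x = l * y := by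
  classical
  have := Fintype.ofFinite u.ker
  have hden := Dense.of_surj hu C
  have hB' := hB.ext (W := fun _ : Unit => V.pb u) fun _ => hV
  obtain ⟨r, -, h1, h2⟩ := mix_mul' hB' hC u fun k => (ru k).inl _
  obtain ⟨-, hrk⟩ := h1 hden (not_dg_of_mix hC hn hW h0)
  have hr : r = Fintype.card u.ker := by
    have h3 := h2 ν W hn hW
    rw [mix_ext_base hB Sum.inl_injective rfl (reg_elim (Reg.self B) fun _ => hV)
      (fun k => ru.pull (hW k)) hn, hd, Nat.card_eq_fintype_card] at h3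
    exact_mod_cast (mul_right_cancel₀ h0 h3).symm
  obtain ⟨N, hN⟩ := hrk
  obtain ⟨N', hN'⟩ := sB.interp (x := fun k : u.ker => (k : G)) Subtype.val_injective
  obtain ⟨a, ha⟩ := hN' (fun _ => max N N') fun _ => le_max_right _ _
  have rk := hN (Sum.elim (fun _ => max N N') fun _ => N + 1) fun i => by
    cases i with
    | inl i => exact le_max_left _ _
    | inr i => exact Nat.le_succ _
  have hDV : Dom (Sum.elim C fun _ : Unit => V) := by
    refine ((Dense.of_surj hu _).src (n := n)).1 (hB.of_reg fun i => ?_) |>.dom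
    cases i with
    | inl i => exact ru i
    | inr i => exact hV
  by_contra hne
  have ind2 : ∀ e, ∀ f ∈ pc C e, ∀ y ∈ pc C e, f * (x * l ^ N) + y * (l * l ^ N) = 0 →
      f = 0 ∧ y = 0 := by
    intro e f hf y hy h
    have m1 : ∀ {z}, z ∈ V.sp → z ∈ pc (fun _ : Unit => V) fun _ => 1 := fun hz => by
      rwa [pc_one, pow_one]
    have hp : l ^ N ∈ pc (Sum.elim C fun _ : Unit => V) (Sum.elim 0 fun _ => N) := by
      simpa using mem_elim_mul (one_mem_pc C) (g := l ^ N) (W := fun _ : Unit => V)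
        (d := fun _ => N) (by rw [pc_one]; exact Submodule.pow_mem_pow _ hl N)
    have p0 : l ^ N ≠ 0 := by
      obtain ⟨s, hs⟩ := Function.ne_iff.1 l0
      exact Function.ne_iff.2 ⟨s, pow_ne_zero N hs⟩
    have h3 := (hDV _ _ _ (Submodule.add_mem _ (mem_elim_mul hf (m1 hx)) (mem_elim_mul hy (m1 hl)))
      _ hp (by rw [← h]; ring)).resolve_right p0
    have f0 : f = 0 := by
      by_contra f0
      exact hne ⟨e, f, hf, f0, -y, Submodule.neg_mem _ hy, by
        rw [eq_neg_of_add_eq_zero_left h3]; ring⟩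
    rw [f0, zero_mul, zero_add] at h3
    exact ⟨f0, (hDV _ _ _ (mem_elim_left _ hy) _
      (by simpa using mem_elim_mul (one_mem_pc C) (m1 hl)) h3).resolve_right l0⟩
  let z : Bool → G₁ → Ω := fun b => cond b (x * l ^ N) (l * l ^ N)
  have hz : ∀ b, z b ∈ pc (fun _ : Unit => V) fun _ => N + 1 := fun b => by
    rw [pc_one, pow_succ']
    cases b
    · exact Submodule.mul_mem_mul hl (Submodule.pow_mem_pow _ hl N)
    · exact Submodule.mul_mem_mul hx (Submodule.pow_mem_pow _ hl N)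
  let M : G → Matrix u.ker u.ker Ω := fun t i j => a i (t + j)
  have hdet : (fun t => (M t).det) ∈ pc (fun p : u.ker × β => (B p.2).pb fun t : G => t + (p.1 : G))
      fun _ => max N N' := by
    have e1 : (fun t => (M t).det) = ∑ s : Equiv.Perm u.ker,
        ((Equiv.Perm.sign s : ℤ) : Ω) • ∏ i : u.ker, pbA Ω (fun t => t + (i : G)) (a (s i)) := by
      funext t
      rw [Matrix.det_apply']
      simp [M]
    rw [e1]
    exact Submodule.sum_mem _ fun s _ => Submodule.smul_mem _ _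
      (prod_mem_pc (fun (i : u.ker) t => t + (i : G)) fun i => (ha (s i)).1)
  have det0 : (fun t => (M t).det) ≠ 0 := by
    refine Function.ne_iff.2 ⟨0, ?_⟩
    have : M 0 = Matrix.diagonal fun i => a i i := by
      ext i j
      by_cases h : i = j
      · subst h; simp [M]
      · simp [M, h, (ha i).2.2 j (Ne.symm h)]
    change (M 0).det ≠ 0
    rw [this, Matrix.det_diagonal]
    exact Finset.prod_ne_zero_iff.2 fun i _ => (ha i).2.1
  have hDF : Dom (Sum.elim (fun i => (Sum.elim C (fun _ : Unit => V) i).pb u)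
      fun p : u.ker × β => (B p.2).pb fun t : G => t + (p.1 : G)) := by
    refine hB.dom.of_reg (reg_elim (fun i => ?_) fun p => tB _ _)
    cases i with
    | inl i => exact ru i
    | inr i => exact hV
  have hle := card_le_rk (L := fun k => ((C k).pb u).sp) (κ := u.ker × Bool)
    (hden.src.2 hC).dom (hden.src.2 hC).dg (by
      have := not_dg_of_mix hC hn hW h0
      rwa [← hden.pL] at this) rk (u := fun p => a p.1 * pbA Ω u (z p.2))
    (fun p => mem_elim_mul (ha p.1).1 (pb_mem_pc u (hz p.2))) fun e g hg hs => by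
      have hg' : ∀ p, ∃ f ∈ pc C e, pbA Ω u f = g p := fun p => by
        have := hg p
        rw [← pc_eq_pw, pc_pb] at this
        exact this
      choose f hf hfg using hg'
      let c : u.ker → G₁ → Ω := fun i => f (i, true) * z true + f (i, false) * z false
      have hc : ∀ i, c i ∈ pc (Sum.elim C fun _ : Unit => V) (Sum.elim e fun _ => N + 1) :=
        fun i => Submodule.add_mem _ (mem_elim_mul (hf _) (hz _)) (mem_elim_mul (hf _) (hz _))
      have h3 : ∀ t, Matrix.vecMul (fun i => c i (u t)) (M t) = 0 := fun t => by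
        funext j
        have h4 := congrFun hs (t + j)
        have h5 : u (t + j) = u t := by rw [map_add, j.2, add_zero]
        rw [Finset.sum_apply, Fintype.sum_prod_type] at h4
        rw [Pi.zero_apply] at h4 ⊢
        rw [← h4, Matrix.vecMul, dotProduct]
        refine Finset.sum_congr rfl fun i _ => ?_
        simp only [Fintype.sum_bool, ← hfg, Pi.mul_apply, pbA_apply, h5, c, M, Pi.add_apply]
        ring
      have h6 : ∀ i, c i = 0 := fun i => by
        have h7 : pbA Ω u (c i) * (fun t => (M t).det) = 0 := funext fun t => by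
          by_cases h8 : (M t).det = 0
          · exact mul_eq_zero_of_right _ h8
          · exact mul_eq_zero_of_left
              (congrFun (Matrix.eq_zero_of_vecMul_eq_zero h8 (h3 t)) i) _
        have h9 := (hDF _ _ _ (mem_elim_left _ (pb_mem_pc u (hc i))) _
          (by simpa using mem_elim_mul (one_mem_pc _) hdet) h7).resolve_right det0
        exact Dense.of_surj hu _ _ _ (hc i) h9
      rintro ⟨i, b⟩
      have := ind2 e _ (hf (i, true)) _ (hf (i, false)) (h6 i)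
      rw [← hfg]
      cases b
      · rw [this.2, map_zero]
      · rw [this.1, map_zero]
  rw [Fintype.card_prod, Fintype.card_bool, hr] at hle
  have : 0 < Fintype.card u.ker := Fintype.card_pos
  omega

/-- QUOT -/
theorem quot {B : β → LS Ω G} {C : γ → LS Ω G₁} {D : δ → LS Ω G₂} {n : ℕ} (hB : Src B n)
    (hC : Src C n) {W : ν → LS Ω G₁} (hn : n ≤ Fintype.card ν) (hW : ∀ k, Reg C (W k))
    (h0 : mix C W ≠ 0) (tB : Tr B) (tC : Tr C) (tD : Tr D) (sB : Sep B) (u : G →+ G₁)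
    (hu : Surjective u) (ru : RegM B C u) [Finite u.ker]
    (hd : mix B (fun k => (W k).pb u) = Nat.card u.ker * mix C W) (h : G₁ →+ G₂)
    (rh : RegM B D (h ∘ u)) : RegM C D h := by
  have key : ∀ d, ∃ e, ∃ f ∈ pc C e, f ≠ 0 ∧ ∀ s, f s ≠ 0 → RegAt C ((D d).pb h) s := by
    intro d
    have hV : Reg B (((D d).pb h).pb u) := by rw [LS.pb_pb]; exact rh d
    obtain ⟨l, hl, l0⟩ := Submodule.exists_mem_ne_zero_of_ne_bot ((D d).pb h).ne_bot
    obtain ⟨e, f, hf, f0, hx⟩ := exists_den (pc C) (one_mem_pc C) (fun a b => (pc_add C a b).ge)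
      hC.dom ((D d).pb h).sp (Submodule.span Ω {l}) fun x hx => by
        obtain ⟨e, f, hf, f0, y, hy, e1⟩ := dep_of_card hB hC hn hW h0 tB sB u hu ru hd hV hx hl l0
        exact ⟨e, f, hf, f0, Submodule.mem_span_singleton_mul.2 ⟨y, hy, e1.symm⟩⟩
    have hDV : Dom (Sum.elim C fun _ : Unit => (D d).pb h) := by
      refine ((Dense.of_surj hu _).src (n := n)).1 (hB.of_reg fun i => ?_) |>.dom
      cases i with
      | inl i => exact ru i
      | inr i => exact hV
    refine ⟨e, f, hf, f0, fun s hs => regAt_of_rat (e := e) hDV hl l0 (fun x hx' => ?_) hs⟩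
    obtain ⟨y, hy, e1⟩ := Submodule.mem_span_singleton_mul.1 (hx x hx')
    exact ⟨y, hy, e1.symm⟩
  choose e f hf f0 H using key
  obtain ⟨s, hs⟩ := exists_common hC.dom hf f0
  exact regM_of_regAt tC tD h fun d => H d s (hs d)

/-- a map out of `G` that kills the kernel of an onto map factors -/
theorem exists_fac (u : G →+ G₁) (hu : Surjective u) (f : G →+ G₂) (hk : ∀ x, u x = 0 → f x = 0) :
    ∃ h : G₁ →+ G₂, ∀ x, h (u x) = f x :=
  ⟨u.liftOfRightInverse (surjInv hu) (rightInverse_surjInv hu) ⟨f, hk⟩, fun x =>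
    u.liftOfRightInverse_comp_apply _ _ _ x⟩

theorem quot_fac {B : β → LS Ω G} {C : γ → LS Ω G₁} {D : δ → LS Ω G₂} {n : ℕ} (hB : Src B n)
    (hC : Src C n) {W : ν → LS Ω G₁} (hn : n ≤ Fintype.card ν) (hW : ∀ k, Reg C (W k))
    (h0 : mix C W ≠ 0) (tB : Tr B) (tC : Tr C) (tD : Tr D) (sB : Sep B) (u : G →+ G₁)
    (hu : Surjective u) (ru : RegM B C u) [Finite u.ker]
    (hd : mix B (fun k => (W k).pb u) = Nat.card u.ker * mix C W) (f : G →+ G₂)
    (rf : RegM B D f) (hk : ∀ x, u x = 0 → f x = 0) :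
    ∃ h : G₁ →+ G₂, (∀ x, h (u x) = f x) ∧ RegM C D h := by
  obtain ⟨h, hh⟩ := exists_fac u hu f hk
  refine ⟨h, hh, quot hB hC hn hW h0 tB tC tD sB u hu ru hd h ?_⟩
  rwa [show h ∘ u = f from funext hh]

variable {σ σ₁ σ₂ : Type} [Fintype σ] [Fintype σ₁] [Fintype σ₂]

theorem mor_of_reg {U : Type} {p : T → σ → Ω} {q : U → σ₁ → Ω} (hp : ∀ t, p t ≠ 0)
    (hq : ∀ t, q t ≠ 0) {f : T → U}
    (h : Reg (fun _ : Unit => LS.co p hp) ((LS.co q hq).pb f)) : Mor p q f := by
  rw [LS.pb_co] at h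
  have h1 := Rg.reg.2 (Reg.trans (B := fun _ : Fin 1 => LS.co p hp)
    (fun _ => Reg.self (fun _ : Fin 1 => LS.co p hp) 0) h)
  have e : (fun _ : Fin 1 => (LS.co p hp).sp) = ![crd p] :=
    funext fun i => by rw [Subsingleton.elim i 0]; rfl
  rwa [e] at h1

theorem sep_co {p : T → σ → Ω} (hp : ∀ t, p t ≠ 0) (hi : ∀ y y', Par (p y) (p y') → y = y') :
    Sep fun _ : Unit => LS.co p hp := by
  have e : (fun _ : Unit => LS.co p hp) = LS.blk (fun _ : σ => ()) p (hx_unit hp) :=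
    funext fun b => (blk_unit hp b).symm
  rw [e]
  exact sep_blk _ fun y y' h => hi y y' (Par.bPar.2 h)

theorem tr_av {p : G → σ → Ω} {g : ℕ} (h : AV p g) : Tr fun _ : Unit => LS.co p h.ne :=
  tr_of_sub fun _ => h.sub'

/-- QUOT in the words of the statement -/
theorem quot_mor {p : G → σ → Ω} {p₁ : G₁ → σ₁ → Ω} {p₂ : G₂ → σ₂ → Ω} {g g₂ : ℕ} (hA : AV p g)
    (hA₁ : AV p₁ g) (hA₂ : AV p₂ g₂) (hi : ∀ y y', Par (p y) (p y') → y = y') (u : G →+ G₁)
    (hu : Surjective u) (ru : Mor p p₁ u) [Finite u.ker]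
    (hd : mix (fun _ : Unit => LS.co p hA.ne) (fun _ : Fin g => (LS.co p₁ hA₁.ne).pb u) =
      Nat.card u.ker * mix (fun _ : Unit => LS.co p₁ hA₁.ne) fun _ : Fin g => LS.co p₁ hA₁.ne)
    (f : G →+ G₂) (rf : Mor p p₂ f) (hk : ∀ x, u x = 0 → f x = 0) :
    ∃ h : G₁ →+ G₂, (∀ x, h (u x) = f x) ∧ Mor p₁ p₂ h := by
  obtain ⟨h, h1, h2⟩ := quot_fac (D := fun _ : Unit => LS.co p₂ hA₂.ne) hA.src hA₁.src
    (Fintype.card_fin g).ge (fun _ => Reg.self (fun _ : Unit => LS.co p₁ hA₁.ne) ()) hA₁.top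
    (tr_av hA) (tr_av hA₁) (tr_av hA₂) (sep_co hA.ne hi) u hu (fun _ => ru.reg hA.ne hA₁.ne) hd f
    (fun _ => rf.reg hA.ne hA₂.ne) hk
  exact ⟨h, h1, mor_of_reg hA₁.ne hA₂.ne (h2 ())⟩

end Grp

end Pool.Agent.Tav.Qt
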