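import Pool.Agent.P.MP_2ce3e7_ag.Tav.TiAb0
import Pool.Agent.P.MP_2ce3e7_ag.Tav.TiFib
import Pool.Agent.P.MP_2ce3e7_ag.Tav.TiImg
import Pool.Agent.P.MP_2ce3e7_ag.Tav.TiQuot
import Pool.Agent.P.MP_2ce3e7_ag.Tav.TiDegNm
import Pool.Agent.P.MP_2ce3e7_ag.Tav.MFib

/-! A fibre from a commutative ring of endomorphisms of full rank. -/

set_option autoImplicit false

noncomputable section

namespace Pool.Agent.Tav

open Module Function Polynomial

variable {Ω : Type} [Field Ω] {G σ β ν Λ Γ : Type} [AddCommGroup G] [Fintype β] [Fintype ν]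

namespace Ab0

variable {B : β → LS Ω G} {H : ν → LS Ω G}

theorem dg_ne_iff (h : Ab0 B H) (a : h.endR) : h.dg a ≠ 0 ↔ Dense a.1 B := by
  obtain ⟨r, h1, h2, h3⟩ := mix_mul' h.src h.src a.1 a.2
  have e : h.dg a = r := by exact_mod_cast h.dg_eq a (h3 ν H le_rfl h.regH)
  rw [e]
  exact ⟨fun h0 => by_contra fun hd => h0 (h1 hd),
    fun hd => (h2 hd (Qt.not_dg_of_mix h.src le_rfl h.regH h.pos)).1.ne'⟩

theorem dg_ne_of_surj (h : Ab0 B H) (a : h.endR) (ha : Surjective a.1) : h.dg a ≠ 0 :=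
  (h.dg_ne_iff a).2 (Dense.of_surj ha B)

theorem surj_of_dg [IsAlgClosed Ω] (h : Ab0 B H) (hc : Cmp B)
    (sep : ∀ y y', (∀ k, ∃ c : Ω, c ≠ 0 ∧ ∀ u ∈ (B k).sp, u y' = c * u y) → y = y')
    (a : h.endR) (ha : h.dg a ≠ 0) : Surjective a.1 :=
  Ti.surj hc a.2 ((h.dg_ne_iff a).1 ha) sep

/-- the degree is a multiplicative polynomial law -/
theorem law (h : Ab0 B H) {E : Type} [Ring E] [Module.Free ℤ E] [Module.Finite ℤ E]
    (φ : E →+* h.endR) : DD.Law (fun a => (h.dg (φ a) : ℤ)) (2 * Fintype.card ν) where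
  pol := by simpa using h.dg_isPol φ.toAddMonoidHom
  mul a b := by rw [map_mul, h.dg_mul, Nat.cast_mul]
  nat n := by rw [map_natCast, h.dg_natCast, Nat.cast_pow]

/-- on a commutative ring of full rank that acts faithfully, the degree is the norm -/
theorem dg_nm [IsAlgClosed Ω] [CommRing Λ] [Fintype Γ] (h : Ab0 B H) (hc : Cmp B)
    (sep : ∀ y y', (∀ k, ∃ c : Ω, c ≠ 0 ∧ ∀ u ∈ (B k).sp, u y' = c * u y) → y = y')
    (bas : Basis Γ ℤ Λ) {χ : Γ → Λ →+* ℂ} (hχ : Injective χ)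
    (hΓ : Fintype.card Γ = 2 * Fintype.card ν) (φ : Λ →+* h.endR) (hφ : Injective φ) (a : Λ) :
    (h.dg (φ a) : ℂ) = Det.nm χ a := by
  have := Module.Free.of_basis bas
  have := Module.Finite.of_basis bas
  have h1 := DD.Law.nm bas hχ (hΓ ▸ h.law φ) (fun a c ha e => hφ ?_) a
  · exact_mod_cast h1
  rw [map_zero]
  refine Subtype.ext (AddMonoidHom.ext fun y => ?_)
  obtain ⟨t, rfl⟩ := h.surj_of_dg hc sep (φ a) (by exact_mod_cast ha) y
  have h2 := congrArg (fun z => (φ z).1 t) ((mul_comm c a).trans e)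
  simp only [map_mul, map_zero] at h2
  exact h2

end Ab0

variable [Fintype σ] [DecidableEq β] [DecidableEq ν] {w : σ → β} {x : G → σ → Ω}
  {hx : ∀ t b, ∃ v, w v = b ∧ x t v ≠ 0} {sl : ν → β}

omit [AddCommGroup G] [Fintype β] [DecidableEq β] in
theorem sep_of_inj (hi : ∀ y y', BPar w (x y) (x y') → y = y') (y y' : G)
    (h : ∀ k, ∃ c : Ω, c ≠ 0 ∧ ∀ u ∈ (LS.blk w x hx k).sp, u y' = c * u y) : y = y' := by
  choose c hc h using h
  exact (hi y' y ⟨c, hc, fun l => h (w l) _ (Submodule.subset_span ⟨l, rfl, rfl⟩)⟩).symm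

section
variable [CommRing Λ] [Fintype Γ] [DecidableEq Γ] (bas : Basis Γ ℤ Λ) {χ : Γ → Λ →+* ℂ}
  (hχ : Injective χ) (hΓ : Fintype.card Γ = 2 * Fintype.card ν)

/-- the shape of a ring with characters and of coordinates in blocks -/
@[reducible] def mkSh (w : σ → β) (sl : ν → β) : Sh where
  Λ := Λ
  Γ := Γ
  bas := bas
  χ := χ
  inj := hχ
  σ := σ
  β := β
  w := w
  ν := ν
  sl := sl
  card := hΓ

/-- the fibre given by a group with coordinates and operators -/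
@[reducible] def mkFib [Module Λ G] (cl : Cl w x)
    (h : Ab0 (LS.blk w x hx) (LS.blk w x hx ∘ sl)) (par : ∀ b, ParLaw (LS.blk w x hx b))
    (hs : ∀ a : Λ, RegM (LS.blk w x hx) (LS.blk w x hx) fun t => a • t) :
    Fib Ω (mkSh bas hχ hΓ w sl) where
  G := G
  x := x
  hx := hx
  cl := cl
  src := h.src
  top := h.pos
  sub := h.sub
  smul := hs
  par := par

end

/-- the fibre of a faithful ring of regular operators of full rank has the norm as degree -/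
theorem mkFib_deg [IsAlgClosed Ω] [CommRing Λ] [Fintype Γ] [DecidableEq Γ] (bas : Basis Γ ℤ Λ)
    {χ : Γ → Λ →+* ℂ} (hχ : Injective χ) (hΓ : Fintype.card Γ = 2 * Fintype.card ν) [Module Λ G]
    (cl : Cl w x) (hi : ∀ y y', BPar w (x y) (x y') → y = y')
    (h : Ab0 (LS.blk w x hx) (LS.blk w x hx ∘ sl)) (par : ∀ b, ParLaw (LS.blk w x hx b))
    (hs : ∀ a : Λ, RegM (LS.blk w x hx) (LS.blk w x hx) fun t => a • t)
    (hf : ∀ a : Λ, (∀ t : G, a • t = 0) → a = 0) : (mkFib bas hχ hΓ cl h par hs).Deg := by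
  let φ : Λ →+* h.endR := (Module.toAddMonoidEnd Λ G).codRestrict _ hs
  exact Fib.deg_of_dg _ φ (fun _ _ => rfl)
    (h.dg_nm (Ti.cmp_of_cl hx cl) (sep_of_inj hi) bas hχ hΓ φ
      ((injective_iff_map_eq_zero φ).2 fun a ha => hf a fun t => congrArg (fun z => z.1 t) ha))

/-- the commutative ring of full rank, with the Weil numbers -/
theorem Ti.fib_weil {E : Type} [Ring E] [Module.Finite ℤ E] [Fintype Γ] [DecidableEq Γ]
    (V : E →+* Matrix Γ Γ ℂ) (hinj : Injective V)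
    (hind : ∀ (n : ℕ) (a : Fin n → E), LinearIndependent ℤ a →
      LinearIndependent ℂ fun i => V (a i))
    (F : E) {q : ℝ} {P : ℤ[X]} (hP : (P.map (algebraMap ℤ ℚ)).Separable) (h0 : aeval F P = 0)
    (hw : ∀ z : ℂ, aeval z P = 0 → Complex.normSq z = q)
    (hTI : ∀ M, M * V F = V F * M → M ∈ Submodule.span ℂ (V '' {a | a * F = F * a})) :
    ∃ (Λ : Type) (_ : CommRing Λ) (_ : Basis Γ ℤ Λ) (χ : Γ → Λ →+* ℂ) (φ : Λ →+* E) (π : Λ)
      (M : Matrix Γ Γ ℂ), Injective χ ∧ Injective φ ∧ φ π = F ∧ IsUnit M.det ∧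
      (∀ a, V (φ a) * M = M * Matrix.diagonal fun ρ => χ ρ a) ∧ ∀ ρ, ‖χ ρ π‖ ^ 2 = q := by
  have hd := Ti.diag_of_sep (V F) (f := (P.map (algebraMap ℤ ℚ)).map (algebraMap ℚ ℂ)) hP.map (by
    rw [Polynomial.map_map, show (algebraMap ℚ ℂ).comp (algebraMap ℤ ℚ) = algebraMap ℤ ℂ from
      RingHom.ext_int _ _, aeval_map_algebraMap]
    exact (aeval_algHom_apply V.toIntAlgHom F P).trans (by rw [h0, map_zero]))
  obtain ⟨L, χ, bas, M, h1, hχ, h2, h3, h4, -⟩ := Ti.fib V hinj hind F hd hTI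
  let _ : CommRing L := { (inferInstance : Ring L) with mul_comm := h2 }
  refine ⟨L, inferInstance, bas, χ, L.subtype, ⟨F, h1⟩, M, hχ, Subtype.val_injective, rfl, h3, h4,
    fun ρ => ?_⟩
  have h5 : aeval (⟨F, h1⟩ : L) P = 0 := Subtype.val_injective
    ((aeval_algHom_apply L.subtype.toIntAlgHom (⟨F, h1⟩ : L) P).symm.trans h0)
  rw [← Complex.normSq_eq_norm_sq]
  exact hw _ ((aeval_algHom_apply (χ ρ).toIntAlgHom _ P).trans (by rw [h5, map_zero]))

/-- FIB -/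
theorem exists_fib [IsAlgClosed Ω] [Fintype Γ] [DecidableEq Γ]
    (hΓ : Fintype.card Γ = 2 * Fintype.card ν) (cl : Cl w x)
    (hi : ∀ y y', BPar w (x y) (x y') → y = y') (h : Ab0 (LS.blk w x hx) (LS.blk w x hx ∘ sl))
    (par : ∀ b, ParLaw (LS.blk w x hx b)) {E : Type} [Ring E] [Module.Finite ℤ E]
    (i : E →+* AddMonoid.End G) (hi' : Injective i)
    (hr : ∀ a, RegM (LS.blk w x hx) (LS.blk w x hx) (i a))
    (V : E →+* Matrix Γ Γ ℂ) (hinj : Injective V)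
    (hind : ∀ (n : ℕ) (a : Fin n → E), LinearIndependent ℤ a →
      LinearIndependent ℂ fun i => V (a i))
    (F : E) {q : ℕ} (hF : ∀ t, BPar w (x (i F t)) (x t ^ q)) {P : ℤ[X]}
    (hP : (P.map (algebraMap ℤ ℚ)).Separable) (h0 : aeval F P = 0)
    (hw : ∀ z : ℂ, aeval z P = 0 → Complex.normSq z = q)
    (hTI : ∀ M, M * V F = V F * M → M ∈ Submodule.span ℂ (V '' {a | a * F = F * a})) :
    ∃ (Λ : Type) (_ : CommRing Λ) (_ : Module Λ G) (bas : Basis Γ ℤ Λ) (χ : Γ → Λ →+* ℂ)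
      (hχ : Injective χ) (hs : ∀ a : Λ, RegM (LS.blk w x hx) (LS.blk w x hx) fun t => a • t)
      (φ : Λ →+* E) (π : Λ) (M : Matrix Γ Γ ℂ),
      Injective φ ∧ (∀ a t, a • t = i (φ a) t) ∧ φ π = F ∧ IsUnit M.det ∧
      (∀ a, V (φ a) * M = M * Matrix.diagonal fun ρ => χ ρ a) ∧
      (mkFib bas hχ hΓ cl h par hs).Deg ∧ (mkFib bas hχ hΓ cl h par hs).Frob π q ∧
      ∀ ρ, ‖χ ρ π‖ ^ 2 = q := by
  obtain ⟨Λ, _, bas, χ, φ, π, M, hχ, h1, rfl, h3, h4, h5⟩ := Ti.fib_weil V hinj hind F hP h0 hw hTI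
  let _ : Module Λ G := Module.compHom G (i.comp φ)
  exact ⟨Λ, inferInstance, inferInstance, bas, χ, hχ, fun a => hr (φ a), φ, π, M, h1,
    fun _ _ => rfl, rfl, h3, h4, mkFib_deg bas hχ hΓ cl hi h par _ fun a ha =>
      h1 (hi' ((AddMonoidHom.ext ha).trans (map_zero (i.comp φ)).symm)), hF, h5⟩

end Pool.Agent.Tav
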