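import Pool.Agent.P.MP_2ce3e7_ag.Tav.TiACore
import Pool.Agent.P.MP_2ce3e7_ag.Tav.TiFibG
import Pool.Agent.P.MP_2ce3e7_ag.Tav.TiEig

/-! The commutative ring of operators of full rank that contains Frobenius. -/

set_option autoImplicit false
set_option linter.unusedSectionVars false

noncomputable section

namespace Pool.Agent.Tav

open MvPolynomial Module Function

variable {Ω : Type} [Field Ω] [IsAlgClosed Ω] {T γ : Type} [Fintype γ] {G G₁ G₂ : Type}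
  [AddCommGroup G] [AddCommGroup G₁] [AddCommGroup G₂] {fr : Ω ≃+* Ω} {Q : ℕ}

/-- the characteristic polynomial of a member of a ring with a full set of characters -/
theorem exists_poly {Λ Γ : Type} [CommRing Λ] [Fintype Γ] (b : Basis Γ ℤ Λ) {χ : Γ → Λ →+* ℂ}
    (hχ : Injective χ) (a : Λ) : ∃ P : Polynomial ℤ, P.Monic ∧
    P.map (Int.castRingHom ℂ) = ∏ ρ, (Polynomial.X - Polynomial.C (χ ρ a)) := by
  classical
  let V : Λ →+* Matrix Γ Γ ℂ :=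
    (Int.castRingHom ℂ).mapMatrix.comp (Algebra.leftMulMatrix b).toRingHom
  refine ⟨(Algebra.leftMulMatrix b a).charpoly, Matrix.charpoly_monic _,
    (Matrix.charpoly_map _ _).symm.trans (Eg.charpoly_mat b hχ V ?_ rfl a)⟩
  refine Fintype.linearIndependent_iff.2 fun c hc i => ?_
  have h1 : ∀ j, (V (b j)).mulVec (fun k => (b.repr 1 k : ℂ)) i = if j = i then 1 else 0 := by
    intro j
    have h2 := congrFun (Algebra.leftMulMatrix_mulVec_repr b (b j) 1) i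
    rw [mul_one, b.repr_self, Finsupp.single_apply] at h2
    have h3 := congrArg (Int.cast : ℤ → ℂ) h2
    simpa [V, Matrix.mulVec, dotProduct] using h3
  have h4 := congrArg (fun M => Matrix.mulVec M (fun k => (b.repr 1 k : ℂ)) i) hc
  simpa [Matrix.sum_mulVec, Matrix.smul_mulVec, h1] using h4

namespace Ab

theorem dd_eq (A : Ab Ω G) (a : A.End) : A.dd a.1 = A.ab0.dg a * A.deg := A.ab0.dM_eq a

theorem dg_nm (A : Ab Ω G) {Λ Γ : Type} [CommRing Λ] [Fintype Γ] (b : Basis Γ ℤ Λ)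
    {χ : Γ → Λ →+* ℂ} (hχ : Injective χ) (hΓ : Fintype.card Γ = 2 * A.n) (φ : Λ →+* A.End)
    (hφ : Injective φ) (a : Λ) : (A.ab0.dg (φ a) : ℂ) = Det.nm χ a :=
  A.ab0.dg_nm A.cmp (fun y y' h => A.sep y y' (h ())) b hχ (by rw [hΓ, Fintype.card_fin]) φ hφ a

/-- a faithful commutative ring of regular operators of full rank -/
theorem sys_of_inj (A : Ab Ω G) {Λ Γ : Type} [CommRing Λ] [Fintype Γ] (b : Basis Γ ℤ Λ)
    {χ : Γ → Λ →+* ℂ} (hχ : Injective χ) (hΓ : Fintype.card Γ = 2 * A.n) (φ : Λ →+* A.End)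
    (hφ : Injective φ) : A.Sys (A.End.subtype.comp φ) χ :=
  ⟨fun a => (φ a).2, ⟨b⟩, hχ, hΓ, fun a => by
    rw [← A.dg_nm b hχ hΓ φ hφ a]
    exact_mod_cast A.dd_eq (φ a)⟩

/-- FIB -/
theorem exists_sys (A : Ab Ω G) (hq : IsQ fr Q) {F : G →+ G} (h : A.Fr fr F) :
    ∃ (Λ : Type) (_ : CommRing Λ) (act : Λ →+* AddMonoid.End G) (χ : Fin (2 * A.n) → Λ →+* ℂ)
      (π : Λ), A.Sys act χ ∧ act π = F ∧ ∀ ρ, ‖χ ρ π‖ ^ 2 = Q := by
  obtain ⟨V, hV, ⟨P, α, hP, h1, h2⟩, hT⟩ := A.ti hq ⟨F, h.mem hq⟩ h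
  have := hV.fin
  obtain ⟨L, χ, b, M, h3, hχ, h4, h5, h6, -⟩ := Ti.fib V hV.inj hV.ind _ ⟨P, α, hP, h1⟩ hT
  let _ : CommRing L := { (inferInstance : Ring L) with mul_comm := h4 }
  refine ⟨L, inferInstance, _, χ, ⟨_, h3⟩,
    A.sys_of_inj b hχ hV.card L.subtype Subtype.val_injective, rfl, fun ρ => ?_⟩
  have h7 := congrArg (Polynomial.eval (χ ρ ⟨_, h3⟩))
    ((Ti.charpoly_of_diag hP h1).symm.trans (Ti.charpoly_of_diag h5 (h6 ⟨_, h3⟩)))
  simp only [Polynomial.eval_prod, Polynomial.eval_sub, Polynomial.eval_X, Polynomial.eval_C] at h7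
  obtain ⟨i, -, hi⟩ := Finset.prod_eq_zero_iff.1
    (h7.trans (Finset.prod_eq_zero (Finset.mem_univ ρ) (sub_self _)))
  rw [sub_eq_zero.1 hi, h2]

variable {A : Ab Ω G} {Λ Γ : Type} [CommRing Λ] [Fintype Γ] {act : Λ →+* AddMonoid.End G}
  {χ : Γ → Λ →+* ℂ}

theorem Sys.poly (h : A.Sys act χ) (a : Λ) : ∃ P : Polynomial ℤ,
    P.map (Int.castRingHom ℂ) = ∏ ρ, (Polynomial.X - Polynomial.C (χ ρ a)) :=
  (exists_poly h.bas.some h.inj a).imp fun _ h => h.2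

theorem Sys.faith (h : A.Sys act χ) : Injective act := by
  refine (injective_iff_map_eq_zero act).2 fun a ha =>
    Eg.eq_zero_of_nm h.bas.some h.inj fun n => ?_
  have h0 : ((A.deg : ℚ) : ℂ) ≠ 0 := Rat.cast_ne_zero.2 A.top
  refine mul_right_cancel₀ h0 ?_
  rw [← h.deg, ← h.deg, map_sub, ha, sub_zero]

theorem Sys.dg (h : A.Sys act χ) (a : Λ) : (A.ab0.dg ⟨act a, h.reg a⟩ : ℂ) = Det.nm χ a := by
  have h0 : ((A.deg : ℚ) : ℂ) ≠ 0 := Rat.cast_ne_zero.2 A.top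
  refine mul_right_cancel₀ h0 ?_
  rw [← h.deg]
  exact_mod_cast (A.dd_eq ⟨act a, h.reg a⟩).symm

end Ab

end Pool.Agent.Tav
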