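import Pool.Agent.P.MP_2ce3e7_ag.Tav.TiBr
import Pool.Agent.P.MP_2ce3e7_ag.Tav.TiASys
import Pool.Agent.P.MP_2ce3e7_ag.Tav.KFrob

/-! The fibre attached to an abelian variety over a finite field. -/

set_option autoImplicit false

noncomputable section

namespace Pool.Agent.Tav.Ti

open Module Function

theorem exists_isQ (k : Type) [Field k] [Fintype k] {N : ℕ} (hN : N ≠ 0) :
    ∃ fr, IsQ (Ω := AlgebraicClosure k) fr (Fintype.card k ^ N) := by
  have h1 : ∀ (e : ℕ) c, (K0.frE k ^ e) c = c ^ Fintype.card k ^ e := fun e c => by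
    induction e with
    | zero => simp
    | succ e ih => rw [pow_succ', RingAut.mul_apply, ih, K0.frE_apply, ← pow_mul, pow_succ]
  refine ⟨_, ⟨Nat.one_lt_pow hN Fintype.one_lt_card, ?_, ⟨_, h1 N⟩, fun c => ?_⟩, h1 N⟩
  · rw [Nat.cast_pow, ← map_natCast (algebraMap k (AlgebraicClosure k)),
      FiniteField.cast_card_eq_zero, map_zero, zero_pow hN]
  · obtain ⟨m, hm, h⟩ := Pp.exists_fix c
    refine ⟨m, hm, ?_⟩
    rw [← pow_mul, mul_comm, pow_mul]
    clear hN
    induction N with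
    | zero => simp
    | succ e ih => rw [pow_succ, pow_mul, ih, h]

theorem s_fib (k : Type) [Field k] [Fintype k] : S_Fib k := by
  intro G τ _ _ g p av hi hl F hF
  obtain ⟨fr, hq⟩ := exists_isQ k one_ne_zero
  rw [pow_one] at hq
  obtain ⟨A, rfl, h2, h3⟩ := av.exists_ab hi hl
  obtain ⟨Λ, _, act, χ, π, hS, rfl, hW⟩ := A.exists_sys hq (h3 fr _ F hq hF)
  let _ : Module Λ G := Module.compHom G act
  have hp := ParLaw.of_law av.ne (av.cl_blk _) hl
  have hi' : ∀ y y', BPar (fun _ : τ => ()) (p y) (p y') → y = y' := fun y y' e =>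
    hi y y' (Par.bPar.2 e)
  have hc : Fintype.card (Fin (2 * A.n)) = 2 * Fintype.card (Fin A.n) := by simp
  have par : ∀ b, ParLaw (LS.blk (fun _ : τ => ()) p (hx_unit av.ne) b) := fun b => by
    rw [blk_unit]; exact hp
  have hs : ∀ a : Λ, RegM (LS.blk (fun _ : τ => ()) p (hx_unit av.ne))
      (LS.blk (fun _ : τ => ()) p (hx_unit av.ne)) fun t => a • t := fun a => by
    rw [blk_unit' av.ne]; exact h2.mem_end.1 (hS.reg a)
  exact ⟨_, mkFib hS.bas.some hS.inj hc (av.cl_blk _) (av.ab0 hp.parL) par hs, AddEquiv.refl G, π,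
    (), Fintype.card_fin _, fun b => (blk_unit av.ne b).trans (LS.pb_id _).symm, hi',
    fun _ => rfl, mkFib_deg _ _ _ _ hi' _ _ _ fun a ha =>
      hS.faith ((AddMonoidHom.ext ha).trans (map_zero act).symm),
    fun t => Par.bPar.1 (hF t), hW⟩

end Pool.Agent.Tav.Ti
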