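import Pool.Agent.P.MP_2ce3e7_ag.Tav.TiAIsog
import Pool.Agent.P.MP_2ce3e7_ag.Tav.TiSFib

/-! The isogeny between two fibres with equal Weil numbers. -/

set_option autoImplicit false

noncomputable section

namespace Pool.Agent.Tav

open MvPolynomial Module Function

theorem Fib.isog {Ω : Type} [Field Ω] [IsAlgClosed Ω] {fr : Ω ≃+* Ω} {Q : ℕ} (hq : IsQ fr Q)
    {s s' : Sh}
    (B : Fib Ω s) (B' : Fib Ω s') {π : s.Λ} {π' : s'.Λ} (hi : Ti.FInj B) (hi' : Ti.FInj B')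
    (hd : B.Deg) (hd' : B'.Deg) (hπ : B.Frob π Q) (hπ' : B'.Frob π' Q) (e : s.Γ ≃ s'.Γ)
    (he : ∀ ρ, s'.χ (e ρ) π' = s.χ ρ π) :
    ∃ (ψ : B.G →+ B'.G) (φ : B'.G →+ B.G) (m : ℕ), m ≠ 0 ∧ B'.In B.H ψ ∧ B.In B'.H φ ∧
      (∀ y, ψ (φ y) = m • y) ∧ (∀ x, φ (ψ x) = m • x) ∧ (∀ x, ψ (π • x) = π' • ψ x) ∧
      ∀ y, φ (π' • y) = π • φ y := by
  obtain ⟨A, -, hA, h1, h2⟩ := B.exists_ab hi
  obtain ⟨A', -, hA', h1', h2'⟩ := B'.exists_ab hi'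
  obtain ⟨ψ, φ, m, hm, r1, r2, h⟩ :=
    Ab.isog2 (h2 hd) (h2' hd') e he hq (h1 fr Q π hq hπ) (h1' fr Q π' hq hπ')
  exact ⟨ψ, φ, m, hm, (RegM.comp (RegM.comp hA.2 r1) hA'.1 :),
    (RegM.comp (RegM.comp hA'.2 r2) hA.1 :), h⟩

theorem Ti.s_isog (k : Type) [Field k] [Fintype k] : Ti.S_Isog k :=
  fun B B' _ _ _ hN hi hi' hd hd' hπ hπ' e he =>
    Fib.isog (Ti.exists_isQ k hN).choose_spec B B' hi hi' hd hd' hπ hπ' e he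

end Pool.Agent.Tav
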