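import Pool.Agent.P.MP_2ce3e7_ag.Tav.TiTop
import Pool.Agent.P.MP_2ce3e7_ag.Tav.CuTi
import Pool.Agent.P.MP_2ce3e7_ag.Tav.TiSFib
import Pool.Agent.P.MP_2ce3e7_ag.Tav.TiSIsog
import Pool.Agent.P.MP_2ce3e7_ag.Tav.G3HM

/-! The strong Tate conjecture for every abelian variety over every finite field. -/

set_option autoImplicit false

namespace Pool.Agent.Tav.Ti

theorem all (k : Type) [Field k] [Fintype k] {G τ : Type} [AddCommGroup G] [Fintype τ]
    (j j' : ℕ) (p : G → τ → AlgebraicClosure k) (hA : AV p (j + j'))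
    (hi : ∀ y y', Par (p y) (p y') → y = y') (F : G →+ G)
    (hF : ∀ y, Par (p (F y)) (p y ^ Fintype.card k)) : Tate p F (Fintype.card k) j j' :=
  top (p_Cube k) (s_fib k) (s_hm_all k) (s_isog k) hA hi hF

end Pool.Agent.Tav.Ti
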