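import Pool.Agent.P.MP_2ce3e7_ag.Tav.DetB

set_option autoImplicit false

namespace Pool.Agent.Tav.Det

section can
variable {Λ Γ : Type*} [CommRing Λ] [Fintype Γ] [DecidableEq Γ]

/-- CANCEL inside one system: columns Z, W, Z', W'; `T ⊆ S` -/
theorem cancel2 (b : Module.Basis Γ ℤ Λ) {χ : Γ → Λ →+* ℂ} (hχ : Function.Injective χ)
    {D : (Fin 4 → Λ) → (Fin 4 → Λ) → ℂ} (h : Two χ D) (p1 p2 : Finset Γ → ℂ)
    (r : Λ → Λ → Λ → Λ → Finset Γ → ℂ)
    (h1 : ∀ x y x' y', nm χ x ≠ 0 → nm χ y ≠ 0 → nm χ x' ≠ 0 → nm χ y' ≠ 0 →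
      D ![x, y, 0, 0] ![0, 0, x', y'] = (∑ S, p1 S * mon χ S x y) * ∑ S, p2 S * mon χ S x' y')
    (h2 : ∀ x w x' w', nm χ x ≠ 0 → nm χ w ≠ 0 → nm χ x' ≠ 0 → nm χ w' ≠ 0 →
      ∀ a c, nm χ a ≠ 0 → nm χ c ≠ 0 →
      D ![a * x, c, 0, a * w] ![0, w', x', 0] = ∑ U, r x w x' w' U * mon χ U a c)
    (S T : Finset Γ) (hTS : T ⊆ S) (hp1 : p1 S ≠ 0) (hp2 : p2 T ≠ 0) :
    ∃ x w x' w', nm χ x ≠ 0 ∧ nm χ w ≠ 0 ∧ nm χ x' ≠ 0 ∧ nm χ w' ≠ 0 ∧
      r x w x' w' (S \ T) ≠ 0 := by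
  by_contra hne
  push Not at hne
  obtain ⟨F, pF, e, -, -, sw⟩ := h.ext b hχ
  have q1 : PF (fun z : Γ → Fin 4 → ℂ =>
      F (fun ρ => ![z ρ 0, z ρ 1, 0, 0]) (fun ρ => ![0, 0, z ρ 2, z ρ 3])) :=
    pF.comp (fun z ρ => Sum.elim ![z ρ 0, z ρ 1, 0, 0] ![0, 0, z ρ 2, z ρ 3]) fun ρ j => by
      rcases j with j | j <;> fin_cases j <;> first | exact PF.var ρ _ | exact PF.const _
  have e1 := dense_off b hχ ((PF.mon p1 0 1).mul (PF.mon p2 2 3)) q1 (fun m hm => by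
    refine Eq.trans (h1 _ _ _ _ (hm 0) (hm 1) (hm 2) (hm 3)).symm ?_
    rw [e]
    congr 1 <;> funext ρ j <;> fin_cases j <;> simp [ev])
    (fun ρ => ![if ρ ∈ S then 0 else 1, if ρ ∈ S then 1 else 0,
      if ρ ∈ T then 0 else 1, if ρ ∈ T then 1 else 0])
  simp only [Matrix.cons_val_zero, Matrix.cons_val_one, Matrix.cons_val] at e1
  rw [sum_pt, sum_pt] at e1
  have s1 : ∀ m : Fin 4 → Λ, (∀ j, nm χ (m j) ≠ 0) → ∀ z : Γ → Fin 2 → ℂ,
      F (fun ρ => ![z ρ 0 * χ ρ (m 0), z ρ 1, 0, z ρ 0 * χ ρ (m 1)])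
        (fun ρ => ![0, χ ρ (m 3), χ ρ (m 2), 0]) =
      ∑ U, r (m 0) (m 1) (m 2) (m 3) U * monC U (fun ρ => z ρ 0) (fun ρ => z ρ 1) := by
    intro m hm z
    refine dense_off b hχ (F := fun z : Γ → Fin 2 → ℂ =>
      F (fun ρ => ![z ρ 0 * χ ρ (m 0), z ρ 1, 0, z ρ 0 * χ ρ (m 1)])
        (fun ρ => ![0, χ ρ (m 3), χ ρ (m 2), 0]))
      (pF.comp (fun (z : Γ → Fin 2 → ℂ) ρ =>
        Sum.elim ![z ρ 0 * χ ρ (m 0), z ρ 1, 0, z ρ 0 * χ ρ (m 1)]
          ![0, χ ρ (m 3), χ ρ (m 2), 0]) fun ρ j => ?_) (PF.mon _ 0 1) (fun n hn => ?_) z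
    · rcases j with j | j <;> fin_cases j <;>
        first | exact PF.var ρ _ | exact PF.const _ | exact (PF.var ρ _).mul (PF.const _)
    · refine Eq.trans ?_ (h2 _ _ _ _ (hm 0) (hm 1) (hm 2) (hm 3) _ _ (hn 0) (hn 1))
      rw [e]
      congr 1 <;> funext ρ j <;> fin_cases j <;> simp [ev]
  have s2 := dense_off b hχ (F := fun z : Γ → Fin 4 → ℂ =>
      F (fun ρ => ![(if ρ ∈ S \ T then 0 else 1) * z ρ 0, if ρ ∈ S \ T then 1 else 0, 0,
        (if ρ ∈ S \ T then 0 else 1) * z ρ 1]) (fun ρ => ![0, z ρ 3, z ρ 2, 0]))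
    (pF.comp (fun (z : Γ → Fin 4 → ℂ) ρ =>
      Sum.elim ![(if ρ ∈ S \ T then 0 else 1) * z ρ 0, if ρ ∈ S \ T then 1 else 0, 0,
        (if ρ ∈ S \ T then 0 else 1) * z ρ 1] ![0, z ρ 3, z ρ 2, 0]) fun ρ j => by
      rcases j with j | j <;> fin_cases j <;>
        first | exact PF.var ρ _ | exact PF.const _ | exact (PF.const _).mul (PF.var ρ _))
    (PF.const 0) (fun m hm => by
      have := s1 m hm (fun ρ => ![if ρ ∈ S \ T then 0 else 1, if ρ ∈ S \ T then 1 else 0])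
      simp only [Matrix.cons_val_zero, Matrix.cons_val_one] at this
      rw [sum_pt, hne _ _ _ _ (hm 0) (hm 1) (hm 2) (hm 3)] at this
      exact this)
    (fun ρ => ![if ρ ∈ S then 0 else 1, if ρ ∈ T then 1 else 0,
      if ρ ∈ T then 0 else 1, if ρ ∈ T then 1 else 0])
  have s3 := sw T (fun ρ => ![if ρ ∈ S then 0 else 1, if ρ ∈ S then 1 else 0, 0, 0])
    (fun ρ => ![0, 0, if ρ ∈ T then 0 else 1, if ρ ∈ T then 1 else 0])
  rw [← e1] at s3
  have s4 : (-1 : ℂ) ^ T.card * (p1 S * p2 T) = 0 := by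
    rw [← s3]
    refine Eq.trans ?_ s2
    congr 1 <;> funext ρ j <;> by_cases hT : ρ ∈ T
    · fin_cases j <;> simp [Finset.piecewise, hT, hTS hT]
    · by_cases hS : ρ ∈ S <;> fin_cases j <;> simp [Finset.piecewise, hT, hS]
    · fin_cases j <;> simp [Finset.piecewise, hT, hTS hT]
    · fin_cases j <;> simp [Finset.piecewise, hT]
  simp [hp1, hp2] at s4

/-- TWO with the sign convention `x z - y w` -/
theorem two_neg (b : Module.Basis Γ ℤ Λ) {χ : Γ → Λ →+* ℂ} (hχ : Function.Injective χ)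
    {D : (Fin 4 → Λ) → (Fin 4 → Λ) → ℂ} (h : Two χ D) (p1 p2 p3 p4 : Finset Γ → ℂ)
    (h1 : ∀ x y x' y', nm χ x ≠ 0 → nm χ y ≠ 0 → nm χ x' ≠ 0 → nm χ y' ≠ 0 →
      D ![x, -y, 0, 0] ![0, 0, x', -y'] = (∑ S, p1 S * mon χ S x y) * ∑ S, p2 S * mon χ S x' y')
    (h2 : ∀ x y x' y', nm χ x ≠ 0 → nm χ y ≠ 0 → nm χ x' ≠ 0 → nm χ y' ≠ 0 →
      D ![x, 0, 0, -y] ![0, -y', x', 0] = (∑ S, p3 S * mon χ S x y) * ∑ S, p4 S * mon χ S x' y')
    (S : Finset Γ) : p1 S * p2 S = (-1) ^ S.card * (p3 S * p4 S) := by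
  have hn : ∀ y, nm χ y ≠ 0 → nm χ (-y) ≠ 0 := fun y hy => by
    simpa [nm, Finset.prod_ne_zero_iff] using hy
  have hs : ∀ (p : Finset Γ → ℂ) x y, ∑ S, p S * mon χ S x (-y) =
      ∑ S, ((-1) ^ S.card * p S) * mon χ S x y := fun p x y =>
    Finset.sum_congr rfl fun S _ => by rw [mon_neg]; ring
  have := two b hχ h (fun S => (-1) ^ S.card * p1 S) (fun S => (-1) ^ S.card * p2 S)
    (fun S => (-1) ^ S.card * p3 S) (fun S => (-1) ^ S.card * p4 S)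
    (fun x y x' y' a1 a2 a3 a4 => by
      rw [← hs, ← hs, ← h1 x (-y) x' (-y') a1 (hn _ a2) a3 (hn _ a4), neg_neg, neg_neg])
    (fun x y x' y' a1 a2 a3 a4 => by
      rw [← hs, ← hs, ← h2 x (-y) x' (-y') a1 (hn _ a2) a3 (hn _ a4), neg_neg, neg_neg]) S
  have h0 : ((-1 : ℂ) ^ S.card) * (-1) ^ S.card = 1 := by rw [← mul_pow]; simp
  linear_combination this - (p1 S * p2 S - (-1) ^ S.card * (p3 S * p4 S)) * h0

omit [DecidableEq Γ] in
theorem nm_ne_iff (χ : Γ → Λ →+* ℂ) (c : Λ) : nm χ c ≠ 0 ↔ ∀ ρ, χ ρ c ≠ 0 := by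
  simp [nm, Finset.prod_ne_zero_iff]

/-- transport of the coefficients along a multiplication on the right -/
theorem coef_right (b : Module.Basis Γ ℤ Λ) {χ : Γ → Λ →+* ℂ} (hχ : Function.Injective χ)
    (p q : Finset Γ → ℂ) (c : Λ) (r : ℂ) (h : ∀ x y, nm χ x ≠ 0 → nm χ y ≠ 0 →
      ∑ S, p S * mon χ S x (y * c) = r * ∑ S, q S * mon χ S x y) (S : Finset Γ) :
    (∏ ρ ∈ S, χ ρ c) * p S = r * q S :=
  congrFun (uniq b hχ (fun S => (∏ ρ ∈ S, χ ρ c) * p S) (fun S => r * q S) fun x y hx hy => by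
    have := h x y hx hy
    rw [Finset.mul_sum] at this
    simpa only [mon_mul_right, mul_assoc, mul_left_comm] using this) S

/-- transport of the coefficients along a multiplication on the left -/
theorem coef_left (b : Module.Basis Γ ℤ Λ) {χ : Γ → Λ →+* ℂ} (hχ : Function.Injective χ)
    (p q : Finset Γ → ℂ) (c : Λ) (r : ℂ) (h : ∀ x y, nm χ x ≠ 0 → nm χ y ≠ 0 →
      ∑ S, p S * mon χ S (x * c) y = r * ∑ S, q S * mon χ S x y) (S : Finset Γ) :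
    (∏ ρ ∈ Sᶜ, χ ρ c) * p S = r * q S :=
  congrFun (uniq b hχ (fun S => (∏ ρ ∈ Sᶜ, χ ρ c) * p S) (fun S => r * q S) fun x y hx hy => by
    have := h x y hx hy
    rw [Finset.mul_sum] at this
    simpa only [mon_mul_left, mul_assoc, mul_left_comm] using this) S

end can

section pi
variable {ι : Type*} {Λ Γ : ι → Type*} [∀ i, CommRing (Λ i)]

/-- the characters of a product ring -/
def chiPi (χ : ∀ i, Γ i → Λ i →+* ℂ) (x : Σ i, Γ i) : (∀ i, Λ i) →+* ℂ :=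
  (χ x.1 x.2).comp (Pi.evalRingHom Λ x.1)

@[simp] theorem chiPi_apply (χ : ∀ i, Γ i → Λ i →+* ℂ) (x : Σ i, Γ i) (c : ∀ i, Λ i) :
    chiPi χ x c = χ x.1 x.2 (c x.1) := rfl

theorem chiPi_inj {χ : ∀ i, Γ i → Λ i →+* ℂ} (h : ∀ i, Function.Injective (χ i)) :
    Function.Injective (chiPi χ) := by
  classical
  rintro ⟨i, ρ⟩ ⟨j, σ⟩ e
  have e1 : i = j := by
    by_contra hij
    have := DFunLike.congr_fun e (Pi.single i 1)
    simp [Pi.single_eq_of_ne (Ne.symm hij)] at this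
  subst e1
  congr 1
  refine h i (RingHom.ext fun x => ?_)
  simpa using DFunLike.congr_fun e (Pi.single i x)

variable [Fintype ι] [∀ i, Fintype (Γ i)]

theorem nm_pi (χ : ∀ i, Γ i → Λ i →+* ℂ) (c : ∀ i, Λ i) :
    nm (chiPi χ) c = ∏ i, nm (χ i) (c i) := by
  simp [nm, Fintype.prod_sigma]

variable [DecidableEq ι] [∀ i, DecidableEq (Γ i)]

theorem mon_pi (χ : ∀ i, Γ i → Λ i →+* ℂ) (S : ∀ i, Finset (Γ i)) (x y : ∀ i, Λ i) :
    mon (chiPi χ) (Finset.univ.sigma S) x y = ∏ i, mon (χ i) (S i) (x i) (y i) := by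
  have e : (Finset.univ.sigma S)ᶜ = Finset.univ.sigma fun i => (S i)ᶜ := by
    ext ⟨i, ρ⟩
    simp
  simp [mon, e, Finset.prod_sigma, Finset.prod_mul_distrib]

/-- subsets of a disjoint union -/
def sigEquiv (Γ : ι → Type*) [∀ i, Fintype (Γ i)] [∀ i, DecidableEq (Γ i)] :
    (∀ i, Finset (Γ i)) ≃ Finset (Σ i, Γ i) where
  toFun S := Finset.univ.sigma S
  invFun S i := Finset.univ.filter fun ρ => (⟨i, ρ⟩ : Σ i, Γ i) ∈ S
  left_inv S := by funext i; ext ρ; simp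
  right_inv S := by ext ⟨i, ρ⟩; simp

/-- DESC: factors on which the subset is empty are dropped -/
theorem desc (χ : ∀ i, Γ i → Λ i →+* ℂ) (k : ι) (b : Module.Basis (Γ k) ℤ (Λ k))
    (hχ : Function.Injective (χ k)) (p : Finset (Σ i, Γ i) → ℂ) (r : Finset (Γ k) → ℂ)
    (h : ∀ x y : Λ k, nm (χ k) x ≠ 0 → nm (χ k) y ≠ 0 →
      ∑ S, p S * mon (chiPi χ) S (Function.update 1 k x) (Pi.single k y) =
        ∑ U, r U * mon (χ k) U x y)
    (S : ∀ i, Finset (Γ i)) (hS : ∀ i, i ≠ k → S i = ∅) :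
    p (Finset.univ.sigma S) = r (S k) := by
  let E : Finset (Γ k) → ∀ i, Finset (Γ i) := fun U => Function.update (fun _ => ∅) k U
  have hE : Function.Injective E := fun U V e => by simpa [E] using congrFun e k
  have e1 : S = E (S k) := by
    funext i
    by_cases hi : i = k
    · subst hi; simp [E]
    · simp [E, Function.update_of_ne hi, hS i hi]
  have key := uniq b hχ (fun U => p (Finset.univ.sigma (E U))) r fun x y hx hy => by
    rw [← h x y hx hy, ← (sigEquiv Γ).sum_comp]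
    refine Fintype.sum_of_injective E hE _ _ (fun V hV => ?_) (fun U => ?_)
    · have : ∃ i, i ≠ k ∧ V i ≠ ∅ := by
        by_contra hc
        push Not at hc
        refine hV ⟨V k, ?_⟩
        funext i
        by_cases hi : i = k
        · subst hi; simp [E]
        · simp [E, Function.update_of_ne hi, hc i hi]
      obtain ⟨i, hi, hne⟩ := this
      obtain ⟨ρ, hρ⟩ := Finset.nonempty_iff_ne_empty.2 hne
      show p _ * mon (chiPi χ) (Finset.univ.sigma V) _ _ = 0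
      rw [mon_pi, Finset.prod_eq_zero (Finset.mem_univ i), mul_zero]
      rw [mon, Finset.prod_eq_zero hρ (by simp [Pi.single_eq_of_ne hi]), mul_zero]
    · show p _ * _ = p _ * mon (chiPi χ) (Finset.univ.sigma (E U)) _ _
      congr 1
      rw [mon_pi, Finset.prod_eq_single k]
      · simp [E]
      · intro i _ hi
        simp [E, Function.update_of_ne hi, mon]
      · simp
  rw [e1]
  simpa [E] using congrFun key (S k)

end pi

end Pool.Agent.Tav.Det
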