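import Pool.Agent.P.MP_2ce3e7_ag.Tav.AFib

set_option autoImplicit false

noncomputable section

namespace Pool.Agent.Tav

open MvPolynomial Module Function

variable {Ω : Type} [Field Ω] {s : Sh} {F : Fib Ω s} {j j' : ℕ}

/-- EXP for any source -/
theorem Fib.exp_src (hF : F.Deg) {T β : Type} [Fintype β] {B : β → LS Ω T} (hB : Src B s.n)
    {z w : T → F.G} (hz : F.In B z) (hw : F.In B w) : ∃ p : Finset s.Γ → ℂ, ∀ a b : s.Λ,
      (F.DD B (fun t => a • z t + b • w t) : ℂ) = ∑ S, p S * Det.mon s.χ S a b :=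
  (Fib.abS hF).exp s.bas s.inj hB hz hw

theorem Fib.two (hF : F.Deg) (h : j + j' = s.n) (Z Z' : F.Cyc j) (W W' : F.Cyc j')
    (S : Finset s.Γ) : Fib.pS Z W S * Fib.pS Z' W' S =
      (-1) ^ S.card * (Fib.pS Z W' S * Fib.pS Z' W S) := Fib.one hF h Z Z' W W' S

end Pool.Agent.Tav
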