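import Pool.Agent.P.MP_2ce3e7_ag.Tav.HodB
import Pool.Agent.P.MP_e12fcd_ag.Cmh.Main

/-! Balanced families of eigen-covectors are seen by stably algebraic classes. -/

set_option autoImplicit false

noncomputable section

open NumberField Module Set

namespace Pool.Agent.Tav.Hod

open Pool.Agent.Weil Pool.Agent.Weil.Gen Pool.Agent.Ferm Pool.Agent.Ferm.PureA ComplexEmbedding
  Pool.Agent.Cmh Pool.Agent.Cmh.FA

theorem salg_factor {V W : Type} [NormedAddCommGroup V] [NormedSpace ℂ V] [FiniteDimensional ℂ V]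
    [NormedAddCommGroup W] [NormedSpace ℂ W] [FiniteDimensional ℂ W] {Λ : Submodule ℤ V}
    {Λ' : Submodule ℤ W} (hf : IsFactor Λ Λ') {k : ℕ}
    (H : ∀ T : HomC W k, IsRationalClass Λ' T → IsHodgeType T →
      T ∈ SAlg (ratSpan Λ'.toAddSubgroup) (Fin k ⊕ Fin k)) {T : HomC V k}
    (hQ : IsRationalClass Λ T) (hH : IsHodgeType T) :
    T ∈ SAlg (ratSpan Λ.toAddSubgroup) (Fin k ⊕ Fin k) := by
  obtain ⟨f, g, N, hN, hf, hg, hgf⟩ := hf
  have h1 := H (T.compLinearMap (pull f))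
    (fun ξ hξ => hQ (fun a => pull f (ξ a)) fun a l hl => hξ a _ (hf l hl))
    fun ξ S hS hξ => hH (fun a => pull f (ξ a)) S hS fun a ha v => by
      change ξ a (f (Complex.I • v)) = Complex.I * ξ a (f v)
      rw [map_smul, hξ a ha]
  have h2 := SAlg.push (Q' := ratSpan Λ.toAddSubgroup) h1 g fun l ⟨r, hr, hl⟩ =>
    ⟨r, hr, by rw [← map_nsmul]; exact hg _ hl⟩
  have hN' : ((N : ℂ) ^ Fintype.card (Fin k ⊕ Fin k)) ≠ 0 := pow_ne_zero _ (Nat.cast_ne_zero.2 hN)
  have h3 : T = ((N : ℂ) ^ Fintype.card (Fin k ⊕ Fin k))⁻¹ •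
      (T.compLinearMap (pull f)).compLinearMap (pull g) := by
    ext ξ
    have h4 : (fun a => pull f (pull g (ξ a))) = fun a => (N : ℂ) • ξ a := by
      funext a
      ext v
      change ξ a (g (f v)) = (N : ℂ) * ξ a v
      rw [hgf, map_nsmul, nsmul_eq_mul]
    simp only [AlternatingMap.smul_apply, AlternatingMap.compLinearMap_apply, h4]
    rw [T.map_smul_univ, Finset.prod_const, Finset.card_univ, smul_smul, inv_mul_cancel₀ hN',
      one_smul]
  exact h3 ▸ Submodule.smul_mem _ _ h2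

theorem salg_cm {E : Type} [Field E] [NumberField E] [IsCMField E] [IsGalois ℚ E]
    (hpos : PosAll E) {τ₀ : E →+* ℂ} (hfour : Four τ₀) {I : Type} [Fintype I] (K : I → Type)
    [∀ i, Field (K i)] [∀ i, NumberField (K i)] (j : ∀ i, K i →+* E)
    (Φ : ∀ i, Finset (K i →+* ℂ)) (hΦ : ∀ i, IsCMType (Φ i)) {k : ℕ} (T : HomC (∀ i, Φ i → ℂ) k)
    (hQ : IsRationalClass (Submodule.pi Set.univ fun i => cmLat (Φ i)) T) (hH : IsHodgeType T) :
    T ∈ SAlg (ratSpan (Submodule.pi Set.univ fun i => cmLat (Φ i)).toAddSubgroup)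
      (Fin k ⊕ Fin k) := by
  classical
  have hL : IsLat (Submodule.pi univ fun i => cmLat (Φ i)).toAddSubgroup :=
    isLat_dpi (Λ := fun i => (cmLat (Φ i)).toAddSubgroup) fun i => isLat_cmLat (hΦ i)
  let A : I → Tor := fun i => rdB (hΦ i) (rd_pos hpos (j i) (hΦ i))
  choose B hB hs using fun i => rd_basis (hΦ i) (rd_pos hpos (j i) (hΦ i))
  obtain ⟨C, hC, hsC⟩ := exists_basis_pi A B hs
  have e0 : ratSpan (Submodule.pi univ fun i => cmLat (Φ i)).toAddSubgroup = (Tor.pi A).Q :=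
    ratSpan_dpi fun i => (cmLat (Φ i)).toAddSubgroup
  rw [e0]
  refine mem_salg_of_cls (A := Tor.pi A) C hsC T fun J hJ => ?_
  have lift : ∀ i (φ : K i →+* ℂ), ∃ j' : K i →+* E, τ₀.comp j' = φ := fun i φ => by
    obtain ⟨τ, rfl⟩ := rd_lift (j i) φ
    obtain ⟨σ, rfl⟩ := exists_comp_symm_eq_of_comp_eq (k := ℚ) τ₀ τ (Subsingleton.elim _ _)
    exact ⟨(σ.symm : E →+* E).comp (j i), rfl⟩
  choose j' hj' using fun a => lift (J a).1 (J a).2
  have h1 : ∀ a, cls (Tor.pi A) (ℂ ∙ C (J a)) = rdCl hpos τ₀ (rdInd (j' a) (Φ (J a).1)) := fun a => by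
    rw [rdCl_eq hpos τ₀ ((hΦ _).rdInd _), ← rd_cls (hΦ _) (rd_pos hpos (j _) (hΦ _)) _ _ (j' a)
      fun τ => mem_rdInd.1, hj']
    exact cls_line_of_map (isObj_line C hsC _) (rd_obj _ _ _) (C.ne_zero _) (prj_mem A _)
      (by rw [hC, hB])
  rw [Finset.sum_congr rfl fun a _ => h1 a]
  have le : ∀ τ : E →+* ℂ, {a | τ ∈ rdInd (j' a) (Φ (J a).1)}.ncard ≤ k := fun τ => by
    by_contra hlt
    refine rd_transfer hL hQ τ₀ τ _ (fun a => pull (prj A (J a).1) (rdXi _ (τ.comp (j' a))))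
      (fun a v hv => ?_) hJ (hH _ {a | τ ∈ rdInd (j' a) (Φ (J a).1)}.toFinset
        (by rw [← ncard_eq_toFinset_card']; omega) fun a ha v => ?_)
    · obtain ⟨x, hx⟩ := rd_mem_lat.1 (hv (J a).1 (mem_univ _))
      refine ⟨j' a x, ?_, ?_⟩
      · rw [hC, hB]
        change rdXi _ _ (v _) = _
        rw [hx, rdXi_emb (hΦ _), ← hj']
        rfl
      · change rdXi _ _ (v _) = _
        rw [hx, rdXi_emb (hΦ _)]
        rfl
    · rw [mem_toFinset] at ha
      rw [rdXi_of_mem (mem_rdInd.1 ha)]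
      rfl
  refine rdCl_sum hpos hfour _ (fun a => (hΦ _).rdInd _) fun τ => ?_
  have e1 : {a | conjugate τ ∈ rdInd (j' a) (Φ (J a).1)} = {a | τ ∈ rdInd (j' a) (Φ (J a).1)}ᶜ :=
    Set.ext fun a => by
      have := (hΦ (J a).1).rdInd (j' a) τ
      simp only [mem_ofPred_eq, mem_compl_iff]
      tauto
  have e2 := ncard_add_ncard_compl {a | τ ∈ rdInd (j' a) (Φ (J a).1)}
  have e3 := le (conjugate τ)
  have e4 := le τ
  rw [e1] at e3
  simp only [Nat.card_eq_fintype_card, Fintype.card_sum, Fintype.card_fin] at e2 ⊢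
  omega

variable {V : Type} [NormedAddCommGroup V] [NormedSpace ℂ V] [FiniteDimensional ℂ V]
  {Λ : Submodule ℤ V}

/-- Hodge classes of a torus with complex multiplication are stably algebraic -/
theorem salg_main (hΛ : IsLat Λ.toAddSubgroup) (hA : IsAbelian Λ) (hC : IsCM Λ) {k : ℕ}
    {T : HomC V k} (hQ : IsRationalClass Λ T) (hH : IsHodgeType T) :
    T ∈ SAlg (ratSpan Λ.toAddSubgroup) (Fin k ⊕ Fin k) := by
  have : DiscreteTopology Λ := hΛ.discreteTopology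
  have : IsZLattice ℝ Λ := by
    obtain ⟨n, b, hb⟩ := hΛ.exists_basis
    exact ⟨eq_top_iff.2 (b.span_eq ▸ Submodule.span_mono (range_subset_iff.2 (b_mem hb)))⟩
  obtain ⟨I, _, K, _, _, _, Φ, hΦ, hF⟩ := p_ST V Λ hA hC
  obtain ⟨E, _, _, _, _, h7, h3, hj⟩ := rd_field K
  obtain ⟨Pl, _, _, φ, v0, h0, hD⟩ := p_Dat E h7 h3
  have hO := p_AR E Pl φ v0 h0 hD
  exact salg_factor hF (salg_cm posAll (p_CY _ _ _ _ hO.act hO.fg hO.free hO.pd hO.coc E (φ v0)
    (nvp_of p_HD p_TH3 (fun _ _ _ _ _ _ _ _ _ _ hD ar _ ha _ hf => SmV.smV p_HD hD ar ha hf) p_Pure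
      p_NV E Pl φ v0 h0 hD hO)) K (fun i => (hj i).some) Φ hΦ) hQ hH

variable {R Γ : Type} [CommRing R] [Fintype Γ] {act : R →+* (V →L[ℂ] V)} {χ : Γ → R →+* ℂ}
  {Φ : Set Γ} {ξ : Basis Γ ℂ (Cov V)}

/-- a balanced family is seen by a stably algebraic class -/
theorem Eig.hod (h : Eig Λ act χ Φ ξ) (hA : IsAbelian Λ) {m : ℕ} {J : Fin m ⊕ Fin m → Γ}
    (hi : Function.Injective J) (hJ : Bal χ Φ J) :
    ∃ T ∈ SAlg (ratSpan Λ.toAddSubgroup) (Fin m ⊕ Fin m), T (fun a => ξ (J a)) ≠ 0 := by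
  obtain ⟨T, h1, h2, h3⟩ := h.exists_class hi hJ
  exact ⟨T, salg_main h.lat hA h.isCM h1 h2, h3⟩

/-- every conjugate of `S` has as many holomorphic as antiholomorphic members -/
def BalS (χ : Γ → R →+* ℂ) (Φ : Set Γ) (S : Set Γ) : Prop :=
  ∀ (σ : ℂ ≃+* ℂ) (s : Γ → Γ), (∀ ρ a, χ (s ρ) a = σ (χ ρ a)) →
    2 * {ρ | ρ ∈ S ∧ s ρ ∈ Φ}.ncard = S.ncard

omit [FiniteDimensional ℂ V] in
theorem Eig.ncard_type (h : Eig Λ act χ Φ ξ) : 2 * Φ.ncard = Fintype.card Γ := by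
  obtain ⟨s, hs⟩ := h.perm (starRingAut : ℂ ≃+* ℂ)
  have h1 : Φ = s '' Φᶜ := Set.ext fun ρ => by
    obtain ⟨ρ, rfl⟩ := s.surjective ρ
    rw [s.injective.mem_set_image, h.bar_iff (hs ρ), mem_compl_iff]
  have h2 := ncard_add_ncard_compl Φ
  have h3 := ncard_image_of_injective Φᶜ s.injective
  rw [← h1] at h3
  rw [Nat.card_eq_fintype_card] at h2
  omega

omit [FiniteDimensional ℂ V] in
theorem Eig.balS_compl (h : Eig Λ act χ Φ ξ) {S : Set Γ} (hS : BalS χ Φ S) : BalS χ Φ Sᶜ := by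
  intro σ s hs
  obtain ⟨t, ht⟩ := h.perm σ
  obtain rfl : s = t := h.uniq hs ht
  have h1 := hS σ t hs
  have h2 := ncard_add_ncard_compl S
  have h3 := h.ncard_type
  have h4 : (t ⁻¹' Φ).ncard = Φ.ncard := ncard_preimage_of_injective_subset_range t.injective
    (by rw [t.surjective.range_eq]; exact subset_univ _)
  have h5 : {ρ | ρ ∈ S ∧ t ρ ∈ Φ}.ncard + {ρ | ρ ∈ Sᶜ ∧ t ρ ∈ Φ}.ncard = (t ⁻¹' Φ).ncard := by
    rw [← ncard_union_eq (disjoint_left.2 fun ρ h1 h2 => h2.1 h1.1)]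
    exact congrArg _ (Set.ext fun ρ => by
      simp only [mem_union, mem_ofPred_eq, mem_compl_iff, mem_preimage]; tauto)
  rw [Nat.card_eq_fintype_card] at h2
  omega

omit [FiniteDimensional ℂ V] in
/-- a pair of complex conjugate characters is balanced -/
theorem Eig.balS_bar (h : Eig Λ act χ Φ ξ) (hA : IsAbelian Λ) {ρ ρ' : Γ}
    (hρ : ∀ a, χ ρ' a = (starRingEnd ℂ) (χ ρ a)) : BalS χ Φ {ρ, ρ'} := by
  intro σ s hs
  have h1 := h.bar_types hA hρ σ hs
  have hne : ρ ≠ ρ' := fun e => by rw [← e] at h1; tauto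
  rw [ncard_pair hne]
  by_cases h2 : s ρ ∈ Φ
  · rw [show {x | x ∈ ({ρ, ρ'} : Set Γ) ∧ s x ∈ Φ} = {ρ} from Set.ext fun x => by
      constructor
      · rintro ⟨rfl | rfl, h3⟩
        exacts [rfl, absurd h2 (h1.1 h3)]
      · rintro rfl
        exact ⟨Or.inl rfl, h2⟩, ncard_singleton]
  · rw [show {x | x ∈ ({ρ, ρ'} : Set Γ) ∧ s x ∈ Φ} = {ρ'} from Set.ext fun x => by
      constructor
      · rintro ⟨rfl | rfl, h3⟩
        exacts [absurd h3 h2, rfl]
      · rintro rfl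
        exact ⟨Or.inr rfl, h1.2 h2⟩, ncard_singleton]

omit [Fintype Γ] in
theorem BalS.bal {S : Set Γ} (hS : BalS χ Φ S) {m : ℕ} {J : Fin m ⊕ Fin m → Γ}
    (hi : Function.Injective J) (hJ : range J = S) : Bal χ Φ J := by
  intro σ s hs
  have h1 := hS σ s hs
  have h2 : S.ncard = m + m := by
    rw [← hJ, ← image_univ, ncard_image_of_injective _ hi, ncard_univ]; simp
  have h3 : {ρ | ρ ∈ S ∧ s ρ ∈ Φ} = J '' {a | s (J a) ∈ Φ} := Set.ext fun ρ => by
    constructor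
    · rintro ⟨h3, h4⟩
      obtain ⟨a, rfl⟩ := hJ.ge h3
      exact ⟨a, h4, rfl⟩
    · rintro ⟨a, h3, rfl⟩
      exact ⟨hJ.le ⟨a, rfl⟩, h3⟩
  rw [h3, ncard_image_of_injective _ hi] at h1
  omega

/-- a balanced set and its complement are seen by stably algebraic classes -/
theorem Eig.hodS (h : Eig Λ act χ Φ ξ) (hA : IsAbelian Λ) {S : Set Γ} (hS : BalS χ Φ S) :
    ∃ (m m' : ℕ) (e : (Fin m ⊕ Fin m) ⊕ (Fin m' ⊕ Fin m') ≃ Γ), m + m' = finrank ℂ V ∧
      range (fun a => e (.inl a)) = Sᶜ ∧ range (fun a => e (.inr a)) = S ∧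
      (∃ T ∈ SAlg (ratSpan Λ.toAddSubgroup) (Fin m ⊕ Fin m), T (fun a => ξ (e (.inl a))) ≠ 0) ∧
      ∃ T ∈ SAlg (ratSpan Λ.toAddSubgroup) (Fin m' ⊕ Fin m'), T (fun a => ξ (e (.inr a))) ≠ 0 := by
  classical
  have key : ∀ S : Set Γ, BalS χ Φ S → ∃ m, Nonempty (Fin m ⊕ Fin m ≃ S) := fun S hS =>
    ⟨_, Finite.card_eq.1 (by
      rw [Nat.card_coe_set_eq, ← hS (RingEquiv.refl ℂ) id fun _ _ => rfl, two_mul]
      simp only [Nat.card_eq_fintype_card, Fintype.card_sum, Fintype.card_fin]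
      rfl)⟩
  obtain ⟨m, ⟨e₁⟩⟩ := key _ (h.balS_compl hS)
  obtain ⟨m', ⟨e₂⟩⟩ := key _ hS
  let e : (Fin m ⊕ Fin m) ⊕ (Fin m' ⊕ Fin m') ≃ Γ :=
    (e₁.sumCongr e₂).trans ((Equiv.sumComm _ _).trans (Equiv.Set.sumCompl S))
  have r1 : range (fun a => e (.inl a)) = Sᶜ :=
    (e₁.surjective.range_comp Subtype.val).trans Subtype.range_coe
  have r2 : range (fun a => e (.inr a)) = S :=
    (e₂.surjective.range_comp Subtype.val).trans Subtype.range_coe
  have i1 : Function.Injective fun a => e (.inl a) := e.injective.comp Sum.inl_injective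
  have i2 : Function.Injective fun a => e (.inr a) := e.injective.comp Sum.inr_injective
  refine ⟨m, m', e, ?_, r1, r2, h.hod hA i1 ((h.balS_compl hS).bal i1 r1),
    h.hod hA i2 (hS.bal i2 r2)⟩
  have h1 := Fintype.card_congr e
  rw [h.card] at h1
  simp only [Fintype.card_sum, Fintype.card_fin] at h1
  omega

section Diag

variable {κ : Type} [Fintype κ]

/-- the action of a ring of diagonal matrices -/
def dAct (S : Subring (κ → ℂ)) : S →+* ((κ → ℂ) →L[ℂ] (κ → ℂ)) where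
  toFun a := ContinuousLinearMap.mul ℂ (κ → ℂ) a
  map_one' := by ext1; simp
  map_mul' _ _ := by ext1; simp [mul_assoc]
  map_zero' := by ext1; simp
  map_add' _ _ := by ext1; simp

theorem dAct_apply (S : Subring (κ → ℂ)) (a : S) (v : κ → ℂ) : dAct S a v = a.1 * v := rfl

/-- the characters of a ring of diagonal matrices -/
def dChi (S : Subring (κ → ℂ)) : κ ⊕ κ → S →+* ℂ :=
  Sum.elim (fun i => (Pi.evalRingHom _ i).comp S.subtype)
    fun i => (starRingEnd ℂ).comp ((Pi.evalRingHom _ i).comp S.subtype)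

omit [Fintype κ] in
theorem dChi_apply (S : Subring (κ → ℂ)) (ρ : κ ⊕ κ) (a : S) :
    dChi S ρ a = Sum.elim a.1 (star a.1) ρ := by cases ρ <;> rfl

theorem eig_diag {L : Submodule ℤ (κ → ℂ)} (hL : IsLat L.toAddSubgroup) (S : Subring (κ → ℂ))
    (hS : ∀ a ∈ S, ∀ l ∈ L, a * l ∈ L) (hθ : ∃ θ ∈ S, Function.Injective (Sum.elim θ (star θ))) :
    ∃ ξ : Basis (κ ⊕ κ) ℂ (Cov (κ → ℂ)), (∀ ρ v, ξ ρ v = Sum.elim v (star v) ρ) ∧
      Eig L (dAct S) (dChi S) (range Sum.inl) ξ := by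
  classical
  let y : κ ⊕ κ → Cov (κ → ℂ) := Sum.elim (fun i => hol (ContinuousLinearMap.proj i))
    fun i => anti (ContinuousLinearMap.proj i)
  have hy : ∀ ρ v, y ρ v = Sum.elim v (star v) ρ := fun ρ v => by cases ρ <;> rfl
  have h1 : LinearIndependent ℂ y := Fintype.linearIndependent_iff.2 fun g hg ρ => by
    have key : ∀ i (c : ℂ), g (.inl i) * c + g (.inr i) * (starRingEnd ℂ) c = 0 := fun i c => by
      simpa [hy, Pi.single_apply, apply_ite (starRingEnd ℂ)] using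
        DFunLike.congr_fun hg (Pi.single i c)
    rcases ρ with i | i
    · have h1 := key i 1
      have h2 := key i Complex.I
      rw [map_one] at h1
      rw [Complex.conj_I] at h2
      linear_combination (1 / 2 : ℂ) * h1 - (Complex.I / 2) * h2 +
        (g (.inl i) - g (.inr i)) / 2 * Complex.I_mul_I
    · have h1 := key i 1
      have h2 := key i Complex.I
      rw [map_one] at h1
      rw [Complex.conj_I] at h2
      linear_combination (1 / 2 : ℂ) * h1 + (Complex.I / 2) * h2 -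
        (g (.inl i) - g (.inr i)) / 2 * Complex.I_mul_I
  have h2 : ⊤ ≤ Submodule.span ℂ (range y) := fun η _ => by
    have : η = ∑ ρ, Sum.elim
        (fun i => (η (Pi.single i 1) - Complex.I * η (Pi.single i Complex.I)) / 2)
        (fun i => (η (Pi.single i 1) + Complex.I * η (Pi.single i Complex.I)) / 2) ρ • y ρ := by
      refine ContinuousLinearMap.ext fun v => ?_
      rw [sum_apply, Fintype.sum_sum_type, ← Finset.sum_add_distrib]
      conv_lhs => rw [← Finset.univ_sum_single v, map_sum]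
      refine Finset.sum_congr rfl fun i _ => ?_
      have e : (Pi.single i (v i) : κ → ℂ) =
          (v i).re • (Pi.single i 1 : κ → ℂ) + (v i).im • (Pi.single i Complex.I : κ → ℂ) := by
        funext l
        by_cases hl : l = i
        · subst hl; simp
        · simp [hl]
      have e1 := Complex.re_add_im (v i)
      have e2 : (starRingEnd ℂ) (v i) = (v i).re - (v i).im * Complex.I := by
        apply Complex.ext <;> simp
      rw [e, map_add, map_smul, map_smul]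
      simp only [smul_apply, hy, Sum.elim_inl, Sum.elim_inr, smul_eq_mul, Complex.real_smul,
        Pi.star_apply, RCLike.star_def, e2]
      linear_combination (η (Pi.single i 1) - Complex.I * η (Pi.single i Complex.I)) / 2 * e1 +
        (v i).im * η (Pi.single i Complex.I) * Complex.I_mul_I
    rw [this]
    exact Submodule.sum_mem _ fun p _ => Submodule.smul_mem _ _ (Submodule.subset_span ⟨p, rfl⟩)
  have h3 : ∀ ρ v, Basis.mk h1 h2 ρ v = Sum.elim v (star v) ρ := fun p v => by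
    rw [Basis.mk_apply, hy]
  obtain ⟨θ, hθS, hθ⟩ := hθ
  refine ⟨Basis.mk h1 h2, h3, hL, fun a => hS a a.2, fun ρ ρ' e => hθ ?_, fun ρ a v => ?_, ?_, ?_⟩
  · rw [← dChi_apply S ρ ⟨θ, hθS⟩, e, dChi_apply]
  · rw [h3, h3, dChi_apply, dAct_apply]
    cases ρ <;> simp
  · rintro _ ⟨i, rfl⟩ v
    simp [hy]
  · rintro (i | i) hi v
    · exact absurd ⟨i, rfl⟩ hi
    · simp [hy]

end Diag

end Pool.Agent.Tav.Hod
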