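import Pool.Agent.P.MP_2ce3e7_ag.Tav.CDeg
import Pool.Agent.P.MP_2ce3e7_ag.Tav.AMain
import Pool.Agent.P.MP_2ce3e7_ag.Tav.HodC
import Pool.Agent.P.MP_2ce3e7_ag.Tav.XLev

/-! Balanced sets of characters are seen by algebraic cycles of a uniformised fibre. -/

set_option autoImplicit false

noncomputable section

namespace Pool.Agent.Tav

open MvPolynomial Module Set Function MeasureTheory Pool.Agent.Weil
open Pool.Agent.TateX (exists_nice)

variable {s : Sh} {C : Fib ℂ s} (T : Tor C)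

theorem Tor.toEig : Hod.Eig T.Λ T.act s.χ T.Φ T.ξ :=
  ⟨T.isLat, T.keep, s.inj, T.eig, T.lin, T.anti⟩

theorem Sh.bal_iff {Φ S : Finset s.Γ} : s.Bal Φ S ↔ Hod.BalS s.χ (Φ : Set s.Γ) S := by
  refine forall₃_congr fun a e _ => ?_
  rw [ncard_coe_finset, ← ncard_coe_finset (S.filter _), Finset.coe_filter]
  rfl

theorem Tor.bal_bar {S : Finset s.Γ} (h : s.Bar S) : s.Bal T.Φ S := by
  obtain ⟨ρ, ρ', h1, -, rfl⟩ := h
  rw [Sh.bal_iff, Finset.coe_pair]
  exact T.toEig.balS_bar T.riem h1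

theorem Tor.alg_bal {S : Finset s.Γ} (hS : s.Bal T.Φ S) : C.AlgS S := by
  borelize T.V
  have := FiniteDimensional.complexToReal T.V
  let ν : Measure T.V := Measure.addHaar
  obtain ⟨m, m', e, hm, -, h2, ⟨A, hA, nA⟩, A', hA', nA'⟩ :=
    T.toEig.hodS T.riem (Sh.bal_iff.1 hS)
  obtain ⟨c, k, B, hc1, hB, nB⟩ := exists_nice T.isLat hA nA
  obtain ⟨c', k', B', hc2, hB', nB'⟩ := exists_nice T.isLat hA' nA'
  obtain ⟨PP, hP, hcv⟩ := T.emb.covers hc1
  obtain ⟨PP', hP', hcv'⟩ := T.emb.covers hc2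
  obtain ⟨κ, t, ht, H⟩ :=
    area_count ν T.isLat T.isLat T.isLat hm hcv hcv' hB hB' e T.ξ T.ξ T.ξ nB nB'
  have eS : (Finset.univ.image fun a => e (.inr a)) = S := by
    rw [← Finset.coe_inj, Finset.coe_image, Finset.coe_univ, image_univ, h2]
  rw [T.dim] at hm
  refine ⟨m, m', hm, ?_, ?_⟩
  · rw [← eS, Finset.card_image_of_injective _ fun _ _ h => Sum.inr_injective (e.injective h)]
    simp [two_mul]
  by_contra hcon
  push Not at hcon
  have key := Det.uniq s.bas s.inj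
    (fun S => κ * ∑ i : PP, ∑ j : PP', Fib.pS (T.cyc (hP i i.2)) (T.cyc (hP' j j.2)) S)
    (fun S => (C.DD C.H id : ℚ) * t S) fun a b _ _ => by
      choose r h3 h4 using fun (i : PP) (j : PP') => T.count ν (hP i i.2) (hP' j j.2) hm a b
      have h5 := H ((T.act a).coprod (T.act b)) (fun γ => s.χ γ a) (fun γ => s.χ γ b) r
        (fun l hl => T.Λ.add_mem (T.keep a _ hl.1) (T.keep b _ hl.2))
        (fun γ v w => by rw [ContinuousLinearMap.coprod_apply, map_add, T.eig, T.eig]) h4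
      simp only [mul_assoc, ← Finset.mul_sum, Finset.sum_mul]
      rw [show ∑ S, t S * Det.mon s.χ S a b = _ from h5.symm, mul_left_comm, Finset.sum_comm,
        Finset.mul_sum _ _ ((C.DD C.H id : ℚ) : ℂ)]
      congr 1
      refine Finset.sum_congr rfl fun i _ => ?_
      rw [Finset.sum_comm, Finset.mul_sum]
      refine Finset.sum_congr rfl fun j _ => ?_
      rw [← Fib.exp T.deg hm, h3, mul_comm]
      push_cast
      rfl
  have h6 := congrFun key S
  simp only [hcon, Finset.sum_const_zero, mul_zero] at h6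
  exact mul_ne_zero (Rat.cast_ne_zero.2 (Cy.dd_id C ▸ C.top)) (eS ▸ ht) h6.symm

theorem Tor.alg {s : Sh} {C : Fib ℂ s} (t : Tor C) {S : Finset s.Γ}
    (hS : s.Bal t.Φ S ∨ s.Bar S) : C.AlgS S := t.alg_bal (hS.elim id t.bal_bar)

end Pool.Agent.Tav
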