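import Pool.Agent.P.MP_2ce3e7_ag.Tav.GProd

/-! Finite products of sources. -/

set_option autoImplicit false

noncomputable section

namespace Pool.Agent.Tav

open MvPolynomial Module

variable {Ω : Type} [Field Ω]

section Split
variable {Z : Type} {m : Z × Z → Z} {A A' B B' : Submodule Ω (Z → Ω)}

theorem split_map (hA : ∀ a ∈ A, ∀ z, a (m z) = a z.1) (hB : ∀ b ∈ B, ∀ z, b (m z) = b z.2) :
    (A * B).map (pbA Ω m).toLinearMap = bx A B := by
  rw [Submodule.map_mul, bx]
  congr 1
  · exact Submodule.ext fun u => exists_congr fun a => and_congr_right fun ha => by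
      rw [show (pbA Ω m).toLinearMap a = (pbA Ω Prod.fst).toLinearMap a from funext (hA a ha)]
  · exact Submodule.ext fun u => exists_congr fun a => and_congr_right fun ha => by
      rw [show (pbA Ω m).toLinearMap a = (pbA Ω Prod.snd).toLinearMap a from funext (hB a ha)]

theorem pbA_inj {T Y : Type} {j : T → Y} (hj : Function.Surjective j) :
    Function.Injective (pbA Ω j).toLinearMap := fun u v h => funext fun y => by
  obtain ⟨t, rfl⟩ := hj y
  exact congrFun h t

theorem rank_pb {T Y : Type} {j : T → Y} (hj : Function.Surjective j) (U : Submodule Ω (Y → Ω)) :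
    finrank Ω (U.map (pbA Ω j).toLinearMap) = finrank Ω U :=
  (Submodule.equivMapOfInjective _ (pbA_inj hj) U).finrank_eq.symm

theorem nzd_bx {T₁ T₂ : Type} {U U' : Submodule Ω (T₁ → Ω)} {V V' : Submodule Ω (T₂ → Ω)}
    (h₁ : ∀ f ∈ U, ∀ g ∈ U', f * g = 0 → f = 0 ∨ g = 0)
    (h₂ : ∀ f ∈ V, ∀ g ∈ V', f * g = 0 → f = 0 ∨ g = 0) :
    ∀ f ∈ bx U V, ∀ g ∈ bx U' V', f * g = 0 → f = 0 ∨ g = 0 := by
  intro f hf g hg hfg
  by_contra hc
  obtain ⟨⟨t, s⟩, h1⟩ := Function.ne_iff.1 (not_or.1 hc).1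
  obtain ⟨⟨t', s'⟩, h2⟩ := Function.ne_iff.1 (not_or.1 hc).2
  have h3 : (fun y => f (t, y)) * (fun y => g (t', y)) ≠ 0 := fun h0 =>
    (h₂ _ (bx_right hf t) _ (bx_right hg t') h0).elim (fun e => h1 (congrFun e s))
      fun e => h2 (congrFun e s')
  obtain ⟨y, hy⟩ := Function.ne_iff.1 h3
  obtain ⟨h4, h5⟩ := mul_ne_zero_iff.1 hy
  exact (h₁ _ (bx_left hf y) _ (bx_left hg y) (funext fun x => congrFun hfg (x, y))).elim
    (fun e => h4 (congrFun e t)) fun e => h5 (congrFun e t')

end Split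

section Pi
variable {ι : Type} {T β ν : ι → Type}

/-- product over `S` of spaces pulled back from the factors -/
def bxS (S : Finset ι) (U : ∀ i, Submodule Ω (T i → Ω)) : Submodule Ω ((∀ i, T i) → Ω) :=
  ∏ i ∈ S, (U i).map (pbA Ω fun t : ∀ i, T i => t i).toLinearMap

theorem bxS_dep {S : Finset ι} {U : ∀ i, Submodule Ω (T i → Ω)} {f : (∀ i, T i) → Ω}
    (hf : f ∈ bxS S U) {t t' : ∀ i, T i} (h : ∀ i ∈ S, t i = t' i) : f t = f t' := by
  classical
  induction S using Finset.induction_on generalizing f with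
  | empty =>
    obtain ⟨c, rfl⟩ := Submodule.mem_one.1 hf
    rfl
  | insert j S hj ih =>
    rw [bxS, Finset.prod_insert hj] at hf
    refine Submodule.mul_induction_on hf ?_ fun a b ha hb => by rw [Pi.add_apply, ha, hb]; rfl
    rintro _ ⟨u, -, rfl⟩ g hg
    rw [Pi.mul_apply, Pi.mul_apply, ih hg fun i hi => h i (Finset.mem_insert_of_mem hi)]
    exact congrArg (fun y => u y * g t') (h j (Finset.mem_insert_self _ _))

variable [DecidableEq ι]

theorem bxS_insert {j : ι} {S : Finset ι} (hj : j ∉ S) (U : ∀ i, Submodule Ω (T i → Ω)) :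
    (bxS (insert j S) U).map (pbA Ω fun z : (∀ i, T i) × (∀ i, T i) =>
      Function.update z.2 j (z.1 j)).toLinearMap =
      bx ((U j).map (pbA Ω fun t : ∀ i, T i => t j).toLinearMap) (bxS S U) := by
  rw [bxS, Finset.prod_insert hj]
  refine split_map ?_ fun b hb z => bxS_dep hb fun i hi =>
    Function.update_of_ne (by rintro rfl; exact hj hi) _ _
  rintro _ ⟨u, -, rfl⟩ z
  simp

theorem upd_surj (j : ι) : Function.Surjective fun z : (∀ i, T i) × (∀ i, T i) =>
    Function.update z.2 j (z.1 j) := fun t => ⟨(t, t), Function.update_eq_self _ _⟩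

variable [∀ i, Nonempty (T i)]

theorem rank_bxS (S : Finset ι) (U : ∀ i, Submodule Ω (T i → Ω))
    [∀ i, FiniteDimensional Ω (U i)] :
    FiniteDimensional Ω (bxS S U) ∧ finrank Ω (bxS S U) = ∏ i ∈ S, finrank Ω (U i) := by
  induction S using Finset.induction_on with
  | empty =>
    rw [bxS, Finset.prod_empty, Finset.prod_empty, Submodule.one_eq_span]
    exact ⟨inferInstance, finrank_span_singleton one_ne_zero⟩
  | insert j S hj ih =>
    have := ih.1
    refine ⟨by rw [bxS, Finset.prod_insert hj]; exact fd_mul _ (bxS S U), ?_⟩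
    rw [← rank_pb (upd_surj j), bxS_insert hj, rank_bx, rank_pb (Function.surjective_eval j),
      Finset.prod_insert hj, ih.2]

theorem nzd_bxS (S : Finset ι) {U U' : ∀ i, Submodule Ω (T i → Ω)}
    (h : ∀ i, ∀ f ∈ U i, ∀ g ∈ U' i, f * g = 0 → f = 0 ∨ g = 0) :
    ∀ f ∈ bxS S U, ∀ g ∈ bxS S U', f * g = 0 → f = 0 ∨ g = 0 := by
  induction S using Finset.induction_on with
  | empty =>
    intro f hf g hg hfg
    obtain ⟨c, rfl⟩ := Submodule.mem_one.1 hf
    obtain ⟨c', rfl⟩ := Submodule.mem_one.1 hg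
    have : c * c' = 0 := congrFun hfg (Classical.arbitrary _)
    exact (mul_eq_zero.1 this).imp (fun e => by rw [e, map_zero]) fun e => by rw [e, map_zero]
  | insert j S hj ih =>
    intro f hf g hg hfg
    have h1 := Submodule.mem_map_of_mem (f := (pbA Ω fun z : (∀ i, T i) × (∀ i, T i) =>
      Function.update z.2 j (z.1 j)).toLinearMap) hf
    have h2 := Submodule.mem_map_of_mem (f := (pbA Ω fun z : (∀ i, T i) × (∀ i, T i) =>
      Function.update z.2 j (z.1 j)).toLinearMap) hg
    rw [bxS_insert hj] at h1 h2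
    refine (nzd_bx ?_ ih _ h1 _ h2 (funext fun z => congrFun hfg _)).imp
      (fun e => pbA_inj (upd_surj j) e) fun e => pbA_inj (upd_surj j) e
    rintro _ ⟨u, hu, rfl⟩ _ ⟨v, hv, rfl⟩ h0
    exact (h j u hu v hv (pbA_inj (Function.surjective_eval j) h0)).imp
      (fun e => by rw [e, map_zero]) fun e => by rw [e, map_zero]

omit [∀ i, Nonempty (T i)] [DecidableEq ι] in
theorem nc_rename_mul {κ μ : Type} {f : κ → μ} (hf : Function.Injective f) (a : κ →₀ ℕ)
    (t : μ →₀ ℕ) (ht : ∀ i, t (f i) = 0) (P : MvPolynomial κ ℚ) (Q : MvPolynomial μ ℚ)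
    (hQ : ∀ i, pderiv (f i) Q = 0) :
    nc (a.mapDomain f + t) (rename f P * Q) = nc a P * nc t Q := by
  classical
  induction a using deg_induction generalizing P with
  | h0 =>
    rw [Finsupp.mapDomain_zero, zero_add]
    clear hQ
    induction t using deg_induction generalizing Q with
    | h0 =>
      rw [nc_zero, nc_zero, nc_zero]
      change constantCoeff _ = constantCoeff P * constantCoeff Q
      rw [map_mul, constantCoeff_rename]
    | h1 t j ih =>
      have z : pderiv j (rename f P) = 0 := pderiv_eq_zero_of_notMem_vars fun hm => by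
        obtain ⟨i, -, rfl⟩ := mem_vars_rename f P hm
        simpa using ht i
      rw [nc_succ, nc_succ, pderiv_mul, z, zero_mul, zero_add]
      exact ih (fun i => (Nat.add_eq_zero_iff.1 (ht i)).1) _
  | h1 a i ih =>
    rw [Finsupp.mapDomain_add, Finsupp.mapDomain_single, add_right_comm, nc_succ, nc_succ,
      pderiv_mul, hQ, mul_zero, add_zero, pderiv_rename hf, ih]

omit [∀ i, Nonempty (T i)] in
theorem nc_prod_rename (S : Finset ι) (a : ∀ i, β i →₀ ℕ) (P : ∀ i, MvPolynomial (β i) ℚ) :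
    nc (∑ i ∈ S, (a i).mapDomain (Sigma.mk i)) (∏ i ∈ S, rename (Sigma.mk i) (P i)) =
      ∏ i ∈ S, nc (a i) (P i) := by
  classical
  induction S using Finset.induction_on with
  | empty => simp [nc_zero]
  | insert j S hj ih =>
    have hn : ∀ i ∈ S, ∀ (b : β j) (c : β i), (⟨i, c⟩ : Σ i, β i) ≠ ⟨j, b⟩ := fun i hi b c e =>
      hj ((Sigma.mk.inj_iff.1 e).1 ▸ hi)
    rw [Finset.sum_insert hj, Finset.prod_insert hj, Finset.prod_insert hj,
      nc_rename_mul sigma_mk_injective, ih]
    · intro b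
      rw [Finsupp.finsetSum_apply]
      exact Finset.sum_eq_zero fun i hi => Finsupp.mapDomain_of_notMem_range _ _ fun ⟨c, e⟩ =>
        hn i hi b c e
    · intro b
      refine Finset.prod_induction _ (fun Q => pderiv (⟨j, b⟩ : Σ i, β i) Q = 0)
        (fun p q hp hq => by rw [pderiv_mul, hp, hq]; simp) (by simp) fun i hi =>
        pderiv_eq_zero_of_notMem_vars fun hm => ?_
      obtain ⟨c, -, e⟩ := mem_vars_rename _ _ hm
      exact hn i hi b c e

/-- the base of a finite product -/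
def piB (B : ∀ i, β i → LS Ω (T i)) (b : Σ i, β i) : LS Ω (∀ i, T i) :=
  (B b.1 b.2).pb fun t => t b.1

variable [Fintype ι] [∀ i, Fintype (β i)] [∀ i, Fintype (ν i)]

omit [∀ i, Nonempty (T i)] [DecidableEq ι] in
theorem pc_pi (B : ∀ i, β i → LS Ω (T i)) (d : (Σ i, β i) → ℕ) :
    pc (piB B) d = bxS Finset.univ fun i => pc (B i) (d ∘ Sigma.mk i) := by
  rw [pc, Fintype.prod_sigma, bxS]
  exact Finset.prod_congr rfl fun i _ => by rw [← pc_pb]; rfl

theorem pL_pi (B : ∀ i, β i → LS Ω (T i)) :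
    pL (piB B) = ∏ i, rename (Sigma.mk i) (pL (B i)) :=
  (evP_pL _).unique ((Lg.all fun i => (evP_pL (B i)).rename (Sigma.mk i)).mono fun d hd => by
    beta_reduce
    rw [map_prod, pc_pi, (rank_bxS _ _).2, Nat.cast_prod]
    exact Finset.prod_congr rfl fun i _ => hd i)

theorem Dom.pi {B : ∀ i, β i → LS Ω (T i)} (h : ∀ i, Dom (B i)) : Dom (piB B) := by
  intro a b f hf g hg
  rw [pc_pi] at hf hg
  exact nzd_bxS _ (fun i => h i _ _) f hf g hg

theorem mix_pi (B : ∀ i, β i → LS Ω (T i)) (W : ∀ i, ν i → LS Ω (T i)) :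
    mix (piB B) (piB W) = ∏ i, mix (B i) (W i) := by
  let e := (Equiv.sigmaSumDistrib β ν).symm
  have h1 : Sum.elim (piB B) (piB W) = piB (fun i => Sum.elim (B i) (W i)) ∘ e := by
    funext i
    rcases i with i | i <;> rfl
  have h2 : slots (Σ i, β i) (Σ i, ν i) =
      (∑ i, (slots (β i) (ν i)).mapDomain (Sigma.mk i)).mapDomain e.symm := by
    simp only [slots, Fintype.sum_sigma, Finsupp.mapDomain_finsetSum, Finsupp.mapDomain_single]
    rfl
  simp only [mix_eq_nc]
  rw [h1, h2, gp_pL_equiv, nc_rename e.symm.injective, pL_pi, nc_prod_rename]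

omit [∀ i, Nonempty (T i)] in
theorem Src.pi {B : ∀ i, β i → LS Ω (T i)} {n : ι → ℕ} (h : ∀ i, Src (B i) (n i)) :
    Src (piB B) (∑ i, n i) := by
  have := fun i => (h i).ne
  refine ⟨inferInstance, Dom.pi fun i => (h i).dom, ?_⟩
  rw [pL_pi, Nat.cast_sum]
  refine Finset.induction_on (Finset.univ : Finset ι) (by simpa using dg_C 1) fun j S hj ih => ?_
  rw [Finset.prod_insert hj, Finset.sum_insert hj]
  exact ((h j).dg.rename _).mul ih

omit [∀ i, Nonempty (T i)] [DecidableEq ι] in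
theorem Reg.pi {B : ∀ i, β i → LS Ω (T i)} {i : ι} {V : LS Ω (T i)} (h : Reg (B i) V) :
    Reg (piB B) (V.pb fun t => t i) :=
  Reg.trans (C := fun b => (B i b).pb fun t : ∀ i, T i => t i)
    (fun b => Reg.self (piB B) ⟨i, b⟩) (h.pb _)

end Pi

end Pool.Agent.Tav
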