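import Pool.Agent.P.MP_2ce3e7_ag.Tav.Par
import Pool.Agent.P.MP_2ce3e7_ag.Tav.GPi

/-! Finite products of fibres. -/

set_option autoImplicit false

noncomputable section

namespace Pool.Agent.Tav

open MvPolynomial Module Function

variable {Ω ι : Type} [Field Ω] [Fintype ι] [DecidableEq ι] {s : ι → Sh}

omit [Fintype ι] [DecidableEq ι] in
theorem hx_pi (F : ∀ i, Fib Ω (s i)) (t : ∀ i, (F i).G) (b : Σ i, (s i).β) :
    ∃ v : Σ i, (s i).σ, (⟨v.1, (s v.1).w v.2⟩ : Σ i, (s i).β) = b ∧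
      (F v.1).x (t v.1) v.2 ≠ 0 := by
  obtain ⟨v, h1, h2⟩ := (F b.1).hx (t b.1) b.2
  exact ⟨⟨b.1, v⟩, by rw [h1], h2⟩

omit [DecidableEq ι] in
theorem blk_pi (F : ∀ i, Fib Ω (s i)) :
    LS.blk (fun l : Σ i, (s i).σ => (⟨l.1, (s l.1).w l.2⟩ : Σ i, (s i).β))
      (fun (t : ∀ i, (F i).G) l => (F l.1).x (t l.1) l.2) (hx_pi F) = piB fun i => (F i).H := by
  funext b
  refine LS.ext' ?_
  change Submodule.span Ω _ = (Submodule.span Ω _).map _
  rw [Submodule.map_span]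
  refine congrArg (Submodule.span Ω) (Set.ext fun u => ⟨?_, ?_⟩)
  · rintro ⟨⟨i, v⟩, rfl, rfl⟩
    exact ⟨_, ⟨v, rfl, rfl⟩, rfl⟩
  · rintro ⟨_, ⟨v, h, rfl⟩, rfl⟩
    exact ⟨⟨b.1, v⟩, Sigma.ext rfl (heq_of_eq h), rfl⟩

/-- product of fibres -/
@[reducible] def Fib.pi (F : ∀ i, Fib Ω (s i)) : Fib Ω (Sh.pi s) where
  G := ∀ i, (F i).G
  mod := inferInstanceAs (Module (∀ i, (s i).Λ) (∀ i, (F i).G))
  x t l := (F l.1).x (t l.1) l.2
  hx := hx_pi F
  cl := Cl.pi fun i => (F i).cl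
  src := by
    have h := Src.pi fun i => (F i).src
    rw [← Fintype.card_sigma, ← blk_pi F] at h
    exact h
  top := by
    have h : mix (piB fun i => (F i).H) (piB fun i => (F i).H ∘ (s i).sl) ≠ 0 := by
      rw [mix_pi]
      exact Finset.prod_ne_zero_iff.2 fun i _ => (F i).top
    have e : (piB fun i => (F i).H ∘ (s i).sl) = (piB fun i => (F i).H) ∘ (Sh.pi s).sl := rfl
    rw [e, ← blk_pi F] at h
    exact h
  sub b := by
    have h : Reg (prodB (piB fun i => (F i).H) (piB fun i => (F i).H))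
        ((piB (fun i => (F i).H) b).pb fun t : (∀ i, (F i).G) × (∀ i, (F i).G) => t.1 - t.2) := by
      have h1 := ((F b.1).sub b.2).pb
        fun t : (∀ i, (F i).G) × (∀ i, (F i).G) => (t.1 b.1, t.2 b.1)
      rw [LS.pb_pb] at h1
      rw [piB, LS.pb_pb]
      refine Reg.trans ?_ h1
      rintro (c | c)
      · have := Reg.self (prodB (piB fun i => (F i).H) (piB fun i => (F i).H)) (Sum.inl ⟨b.1, c⟩)
        simp only [prodB, Sum.elim_inl, piB, LS.pb_pb] at this ⊢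
        exact this
      · have := Reg.self (prodB (piB fun i => (F i).H) (piB fun i => (F i).H)) (Sum.inr ⟨b.1, c⟩)
        simp only [prodB, Sum.elim_inr, piB, LS.pb_pb] at this ⊢
        exact this
    rw [← blk_pi F] at h
    exact h
  smul a b := by
    have h : Reg (piB fun i => (F i).H)
        ((piB (fun i => (F i).H) b).pb fun (t : ∀ i, (F i).G) i => a i • t i) := by
      have h1 := Reg.pi (B := fun i => (F i).H) ((F b.1).smul (a b.1) b.2)
      rw [LS.pb_pb] at h1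
      rw [piB, LS.pb_pb]
      exact h1
    rw [← blk_pi F] at h
    exact h
  par b := by
    have h : ParLaw (piB (fun i => (F i).H) b) :=
      ((F b.1).par b.2).pb (Pi.evalAddMonoidHom (fun i => (F i).G) b.1)
    rw [← blk_pi F] at h
    exact h

theorem Fib.pi_H' (F : ∀ i, Fib Ω (s i)) : (Fib.pi F).H = piB fun i => (F i).H := blk_pi F

theorem Fib.pi_H (F : ∀ i, Fib Ω (s i)) (i : ι) (b : (s i).β) :
    (Fib.pi F).H ⟨i, b⟩ = ((F i).H b).pb fun t => t i := congrFun (blk_pi F) ⟨i, b⟩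

end Pool.Agent.Tav
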