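import Pool.Agent.P.MP_2ce3e7_ag.Tav.AFib
import Pool.Agent.P.MP_2ce3e7_ag.Tav.SliceL
import Pool.Agent.P.MP_2ce3e7_ag.Tav.PiF

/-! Cancellation of an algebraic class, and descent from a product to one factor. -/

set_option autoImplicit false

noncomputable section

namespace Pool.Agent.Tav

open MvPolynomial Module Function

namespace Fib

variable {Ω : Type} [Field Ω] {s : Sh} {F : Fib Ω s} {j j' : ℕ}

theorem cmp (F : Fib Ω s) : Cmp F.H := by
  refine ⟨s.σ, inferInstance, inferInstance, s.w, fun v t => F.x t v, fun _ => rfl, F.hx,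
    fun y hy h => ?_⟩
  obtain ⟨t, c, -, ht⟩ := F.cl y hy fun d f hf h0 =>
    h f ((mem_kerG hf).2 (funext fun t => by rw [Sl.aeval_apply]; exact h0 t))
  exact ⟨t, c, ht⟩

theorem Cyc.exists_cmp (Z : F.Cyc j) : ∃ (Z' : F.Cyc j) (i : Z.T → Z'.T), Cmp Z'.B ∧
    RegM Z.B Z'.B i ∧ ∀ t, Z'.z (i t) = Z.z t := by
  obtain ⟨U, h, c, d⟩ := F.cmp.closure Z.z
  have hr : RegM Z.B (fun b => (F.H b).pb (Subtype.val : U → F.G)) fun t => ⟨Z.z t, h t⟩ :=
    fun b => by rw [LS.pb_pb]; exact Z.reg b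
  exact ⟨⟨U, s.β, fun b => (F.H b).pb Subtype.val, Subtype.val, d.src.1 (Z.src.of_reg hr),
    RegM.restrict F.H Subtype.val⟩, _, c, hr, fun _ => rfl⟩

theorem AlgS.cmp (hd : F.Deg) {S : Finset s.Γ} (h : F.AlgS S) : ∃ j j', j + j' = s.n ∧
    S.card = 2 * j' ∧ ∃ (Z : F.Cyc j) (W : F.Cyc j'), Cmp Z.B ∧ Cmp W.B ∧ pS Z W S ≠ 0 := by
  obtain ⟨j, j', hj, hS, Z, W, h⟩ := h
  obtain ⟨Z', i, c, r, e⟩ := Z.exists_cmp
  obtain ⟨W', i', c', r', e'⟩ := W.exists_cmp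
  obtain ⟨a, ha⟩ := push_left hd hj Z Z' r e
  obtain ⟨b, hb⟩ := push_right hd hj W W' r' e'
  refine ⟨j, j', hj, hS, Z', W', c, c', fun h0 => h ?_⟩
  rw [ha, hb, h0, mul_zero, mul_zero]

/-- functions with an expansion in which the coefficient of `S` vanishes -/
def van (s : Sh) (S : Finset s.Γ) : AddSubmonoid (s.Λ × s.Λ → ℚ) where
  carrier := {φ | ∃ p : Finset s.Γ → ℂ, p S = 0 ∧
    ∀ a b, (φ (a, b) : ℂ) = ∑ U, p U * Det.mon s.χ U a b}
  zero_mem' := ⟨0, rfl, by simp⟩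
  add_mem' := by
    rintro φ ψ ⟨p, hp, h⟩ ⟨q, hq, h'⟩
    exact ⟨p + q, by simp [hp, hq], fun a b => by simp [h, h', add_mul, Finset.sum_add_distrib]⟩

theorem D_swap (hd : F.Deg) (hj : j + j' = s.n) (Z : F.Cyc j) (W : F.Cyc j') (a b : s.Λ) :
    D W Z b a = D Z W a b := by
  have he : RegM (prodB Z.B W.B) (prodB W.B Z.B) fun t => (t.2, t.1) :=
    (RegM.snd _ _).pair (RegM.fst _ _)
  have he' : RegM (prodB W.B Z.B) (prodB Z.B W.B) fun t => (t.2, t.1) :=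
    (RegM.snd _ _).pair (RegM.fst _ _)
  have h := abS hd
  have d := deg_of_inv (src_prod hj Z.src W.src) he he' rfl fun t => ⟨(t.2, t.1), rfl⟩
  have := h.dM_deg d (h.reg_add (h.reg_smul b (RegM.cfst (u := W.z) W.reg Z.B))
    (h.reg_smul a (RegM.csnd (u := Z.z) Z.reg W.B)))
  rw [one_mul] at this
  refine this.symm.trans ?_
  rw [D, DD_eq]
  congr 1
  funext t
  exact add_comm _ _

variable [IsAlgClosed Ω]

/-- CANCEL -/
theorem AlgS.cancel (hd : F.Deg) {S P : Finset s.Γ} (hS : F.AlgS S) (hP : F.AlgS P)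
    (hPS : P ⊆ S) : F.AlgS (S \ P) := by
  obtain ⟨j, j', hj, cS, Z, W, cZ, cW, h1⟩ := hS.cmp hd
  obtain ⟨i, i', hi, cP, Z', W', cZ', cW', h2⟩ := hP.cmp hd
  by_contra hn
  have h := abS hd
  have rZ : RegM Z.B F.H Z.z := Z.reg
  have rW : RegM W.B F.H W.z := W.reg
  have rZ' : RegM Z'.B F.H Z'.z := Z'.reg
  have rW' : RegM W'.B F.H W'.z := W'.reg
  have hC : Src (prodB (prodB Z.B W'.B) (prodB W.B Z'.B))
      (Fintype.card s.ν + Fintype.card s.ν) :=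
    ((Z.src.prod W'.src).prod (W.src.prod Z'.src)).mono (by unfold Sh.n at hj hi; omega)
  let u : Fin 4 → (Z.T × W'.T) × (W.T × Z'.T) → F.G := ![(Z.z ∘ Prod.fst) ∘ Prod.fst,
    (W.z ∘ Prod.fst) ∘ Prod.snd, (Z'.z ∘ Prod.snd) ∘ Prod.snd, (W'.z ∘ Prod.snd) ∘ Prod.fst]
  have hu : ∀ k, RegM (prodB (prodB Z.B W'.B) (prodB W.B Z'.B)) F.H (u k) := by
    intro k
    fin_cases k
    · exact (rZ.cfst _).cfst _
    · exact (rW.cfst _).csnd _
    · exact (rZ'.csnd _).csnd _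
    · exact (rW'.csnd _).cfst _
  have key : ∀ x w x' w' : s.Λ, ∃ p : Finset s.Γ → ℂ, p (S \ P) = 0 ∧ ∀ a c,
      (dM2 (prodB (prodB Z.B W'.B) (prodB W.B Z'.B)) (F.H ∘ s.sl)
        (∑ k, ![a * x, c, 0, a * w] k • u k) (∑ k, ![0, w', x', 0] k • u k) : ℂ) =
        ∑ U, p U * Det.mon s.χ U a c := by
    intro x w x' w'
    have r1 : RegM (prodB Z.B W'.B) F.H (x • Z.z ∘ Prod.fst + w • W'.z ∘ Prod.snd) :=
      h.reg_add (h.reg_smul x (rZ.cfst _)) (h.reg_smul w (rW'.csnd _))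
    have r2 : RegM (prodB W.B Z'.B) F.H (w' • W.z ∘ Prod.fst + x' • Z'.z ∘ Prod.snd) :=
      h.reg_add (h.reg_smul w' (rW.cfst _)) (h.reg_smul x' (rZ'.csnd _))
    obtain ⟨p, hp, hp2⟩ := cut_mem (van s (S \ P)) (cZ.prod cW') (cW.prod cZ')
      (Z.src.prod W'.src) (W.src.prod Z'.src)
      (fun a k => (F.H (s.sl k)).pb (a.1 • (x • Z.z ∘ Prod.fst + w • W'.z ∘ Prod.snd) ∘ Prod.fst +
        a.2 • (W.z ∘ Prod.fst) ∘ Prod.snd))
      (fun a k => h.reg_add (h.reg_smul a.1 (r1.cfst _)) (h.reg_smul a.2 ((rW.cfst _).csnd _)) _)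
      (fun k => (F.H (s.sl k)).pb (w' • W.z ∘ Prod.fst + x' • Z'.z ∘ Prod.snd)) (fun k => r2 _)
      (by unfold Sh.n at hj hi; omega) fun U g m hm _ sU => by
        let Z₁ : F.Cyc (j + i') := ⟨_, _, _, _, Z.src.prod W'.src, r1⟩
        let W₁ : F.Cyc m := ⟨U, _, _, (W.z ∘ Prod.fst) ∘ g, sU,
          (RegM.restrict _ g).comp (rW.cfst Z'.B)⟩
        have hm' : j + i' + m = s.n := by unfold Sh.n at *; omega
        refine ⟨pS Z₁ W₁, ?_, fun a c => ?_⟩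
        · by_contra h0
          refine hn ⟨_, _, hm', ?_, Z₁, W₁, h0⟩
          have := Finset.card_sdiff_add_card_eq_card hPS
          unfold Sh.n at *
          omega
        · rw [← exp hd hm']
          simp only [LS.pb_pb]
          rfl
    refine ⟨p, hp, fun a c => ?_⟩
    rw [← hp2, dM2]
    simp only [LS.pb_pb]
    congr 3 <;> funext k <;> congr 1 <;> funext t <;>
      simp [u, Fin.sum_univ_four, mul_smul, add_right_comm]
  choose r hr hr2 using key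
  obtain ⟨x, w, x', w', -, -, -, -, h3⟩ := Det.cancel2 s.bas s.inj (h.two s.bas hC u hu)
    (pS Z W) (pS Z' W') r (fun x y x' y' _ _ _ _ => by
      let e : (Z.T × W'.T) × (W.T × Z'.T) → (Z.T × W.T) × (Z'.T × W'.T) :=
        fun t => ((t.1.1, t.2.1), (t.2.2, t.1.2))
      let e' : (Z.T × W.T) × (Z'.T × W'.T) → (Z.T × W'.T) × (W.T × Z'.T) :=
        fun t => ((t.1.1, t.2.2), (t.1.2, t.2.1))
      have he : RegM (prodB (prodB Z.B W'.B) (prodB W.B Z'.B))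
          (prodB (prodB Z.B W.B) (prodB Z'.B W'.B)) e :=
        (((RegM.fst Z.B W'.B).cfst _).pair ((RegM.fst W.B Z'.B).csnd _)).pair
          (((RegM.snd W.B Z'.B).csnd _).pair ((RegM.snd Z.B W'.B).cfst _))
      have he' : RegM (prodB (prodB Z.B W.B) (prodB Z'.B W'.B))
          (prodB (prodB Z.B W'.B) (prodB W.B Z'.B)) e' :=
        (((RegM.fst Z.B W.B).cfst _).pair ((RegM.snd Z'.B W'.B).csnd _)).pair
          (((RegM.snd Z.B W.B).cfst _).pair ((RegM.fst Z'.B W'.B).csnd _))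
      have d := deg_of_inv hC he he' rfl fun t => ⟨e' t, rfl⟩
      have a1 := h.reg_add (h.reg_smul x (rZ.cfst W.B)) (h.reg_smul y (rW.csnd Z.B))
      have a2 := h.reg_add (h.reg_smul x' (rZ'.cfst W'.B)) (h.reg_smul y' (rW'.csnd Z'.B))
      have := h.dM2_deg d (a1.cfst (prodB Z'.B W'.B)) (a2.csnd (prodB Z.B W.B))
      rw [one_mul, dM2_prod] at this
      rw [← exp hd hj, ← exp hd hi, ← Rat.cast_mul]
      refine congrArg _ (Eq.trans ?_ this)
      congr 1 <;> funext t <;> simp [u, e, Fin.sum_univ_four])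
    (fun x w x' w' _ _ _ _ a c _ _ => hr2 x w x' w' a c) S P hPS h1 h2
  exact h3 (hr x w x' w')

/-- DESC -/
theorem AlgS.desc {ι : Type} [Fintype ι] [DecidableEq ι] {s : ι → Sh} {F : ∀ i, Fib Ω (s i)}
    (hd : (Fib.pi F).Deg) (k : ι) (hk : (F k).Deg) {S : ∀ i, Finset (s i).Γ}
    (h : (Fib.pi F).AlgS (Finset.univ.sigma S)) (hS : ∀ i, i ≠ k → S i = ∅) :
    (F k).AlgS (S k) := by
  obtain ⟨j, j', hj, cS, Z, W, cZ, cW, h1⟩ := h.cmp hd
  by_contra hn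
  have hin : ∀ {m : ℕ} (Y : (Fib.pi F).Cyc m) (i : ι), RegM Y.B (F i).H fun t => Y.z t i := by
    intro m Y i b
    have := Y.reg ⟨i, b⟩
    rwa [Fib.pi_H, LS.pb_pb] at this
  let e : (s k).ν ⊕ {l : (Sh.pi s).ν // l.1 ≠ k} → (Sh.pi s).ν :=
    Sum.elim (fun v => ⟨k, v⟩) Subtype.val
  have he : Bijective e := by
    constructor
    · rintro (v | l) (v' | l') h
      · rw [sigma_mk_injective (β := fun i => (s i).ν) h]
      · exact absurd (congrArg Sigma.fst h).symm l'.2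
      · exact absurd (congrArg Sigma.fst h) l.2
      · rw [Subtype.ext h]
    · rintro ⟨i, v⟩
      by_cases h : i = k
      · subst h
        exact ⟨Sum.inl v, rfl⟩
      · exact ⟨Sum.inr ⟨⟨i, v⟩, h⟩, rfl⟩
  have hc : (s k).n + Fintype.card {l : (Sh.pi s).ν // l.1 ≠ k} = (Sh.pi s).n := by
    rw [← Fintype.card_sum]
    exact Fintype.card_of_bijective he
  have cS' : (S k).card = 2 * j' := by
    rw [← cS]
    refine Eq.trans ?_ (Finset.card_sigma _ _).symm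
    rw [Finset.sum_eq_single k (fun i _ hi => by rw [hS i hi, Finset.card_empty]) (by simp)]
  have a := abS hk
  let W₁ : (F k).Cyc j' := ⟨W.T, W.β, W.B, fun t => W.z t k, W.src, hin W k⟩
  obtain ⟨p, hp, hp2⟩ := cut_mem (van (s k) (S k)) cW cZ W.src Z.src
    (fun c v => ((F k).H ((s k).sl v)).pb
      (c.2 • (fun t => W.z t k) ∘ Prod.fst + c.1 • (fun t => Z.z t k) ∘ Prod.snd))
    (fun c v => a.reg_add (a.reg_smul c.2 ((hin W k).cfst _)) (a.reg_smul c.1 ((hin Z k).csnd _)) _)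
    (fun l : {l : (Sh.pi s).ν // l.1 ≠ k} =>
      ((F l.1.1).H ((s l.1.1).sl l.1.2)).pb fun t => Z.z t l.1.1)
    (fun l => hin Z _ _) (by unfold Sh.n at *; omega) fun U g m hm _ sU => by
      let Z₁ : (F k).Cyc m := ⟨U, _, _, (fun t => Z.z t k) ∘ g, sU,
        (RegM.restrict _ g).comp (hin Z k)⟩
      have hm' : m + j' = (s k).n := by omega
      refine ⟨pS Z₁ W₁, ?_, fun x y => ?_⟩
      · by_contra h0
        exact hn ⟨_, _, hm', cS', Z₁, W₁, h0⟩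
      · rw [← exp hk hm', ← D_swap hk hm']
        simp only [LS.pb_pb]
        rfl
  refine h1 ((Det.desc (fun i => (s i).χ) k (s k).bas (s k).inj (pS Z W) p
    (fun x y _ _ => ?_) S hS).trans hp)
  rw [← hp2]
  refine (exp hd hj Z W _ _).symm.trans (congrArg _ ?_)
  rw [← D_swap hd hj, D, DD, ← mix_equiv _ _ (Equiv.ofBijective e he)]
  congr 1
  funext l
  rcases l with v | l
  · change ((Fib.pi F).H ⟨k, (s k).sl v⟩).pb _ = _
    rw [Fib.pi_H, LS.pb_pb, Sum.elim_inl]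
    congr 1
    funext t
    change (Pi.single k y : ∀ i, (s i).Λ) k • W.z t.1 k +
      update (1 : ∀ i, (s i).Λ) k x k • Z.z t.2 k = y • W.z t.1 k + x • Z.z t.2 k
    rw [Pi.single_eq_same, update_self]
  · change ((Fib.pi F).H ⟨l.1.1, (s l.1.1).sl l.1.2⟩).pb _ = _
    rw [Fib.pi_H, LS.pb_pb, Sum.elim_inr, LS.pb_pb]
    congr 1
    funext t
    change (Pi.single k y : ∀ i, (s i).Λ) l.1.1 • W.z t.1 l.1.1 +
      update (1 : ∀ i, (s i).Λ) k x l.1.1 • Z.z t.2 l.1.1 = Z.z t.2 l.1.1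
    rw [Pi.single_eq_of_ne l.2, update_of_ne l.2, zero_smul, zero_add, Pi.one_apply, one_smul]

end Fib

end Pool.Agent.Tav
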