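import Pool.Agent.P.MP_2ce3e7_ag.Tav.FTrans
import Pool.Agent.P.MP_2ce3e7_ag.Tav.MFib

/-! The conjugate of a universal model. -/

set_option autoImplicit false

noncomputable section

namespace Pool.Agent.Tav

open MvPolynomial Module Function

/-- the characters have their values in `L` -/
def Sh.InL (s : Sh) (L : IntermediateField ℚ ℂ) : Prop := ∀ ρ c, s.χ ρ c ∈ L

/-- the conjugate of the character `ρ` under `t` is a member of `Φ` -/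
def Sh.Hol {s : Sh} {L : IntermediateField ℚ ℂ} (hL : s.InL L) (Φ : Finset s.Γ) (t : Gal(L/ℚ))
    (ρ : s.Γ) : Prop := ∃ ρ' ∈ Φ, ∀ c, s.χ ρ' c = t ⟨s.χ ρ c, hL ρ c⟩

theorem Sh.exists_equiv {s : Sh} {L : IntermediateField ℚ ℂ} (hL : s.InL L) (u : Gal(L/ℚ)) :
    ∃ e : s.Γ ≃ s.Γ, ∀ ρ c, s.χ (e ρ) c = u ⟨s.χ ρ c, hL ρ c⟩ := by
  choose e he using fun ρ => s.exists_chi ((L.val : L →+* ℂ).comp ((u : L →+* L).comp
    ((s.χ ρ).codRestrict L.toSubfield (hL ρ))))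
  have h1 : ∀ ρ c, s.χ (e ρ) c = u ⟨s.χ ρ c, hL ρ c⟩ := fun ρ c => by rw [he]; rfl
  have hi : Injective e := fun ρ ρ' h => s.inj (RingHom.ext fun c => by
    have h2 := h1 ρ c
    rw [h, h1] at h2
    exact (congrArg Subtype.val (u.injective (Subtype.ext h2))).symm)
  exact ⟨Equiv.ofBijective e (Finite.injective_iff_bijective.1 hi), h1⟩

theorem Sh.eq_zero_of_chi (s : Sh) {c : s.Λ} (h : ∀ ρ, s.χ ρ c = 0) : c = 0 := by
  obtain ⟨B, hB, -⟩ := Det.exists_inv s.bas s.χ s.inj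
  have h1 : (Matrix.of fun ρ i => s.χ ρ (s.bas i)).mulVec (fun i => (s.bas.repr c i : ℂ)) = 0 := by
    funext ρ
    have := (Det.chi_repr s.bas (s.χ ρ).toAddMonoidHom c).symm.trans (h ρ)
    simpa [Matrix.mulVec, dotProduct, mul_comm] using this
  have h2 := congrArg B.mulVec h1
  rw [Matrix.mulVec_mulVec, hB, Matrix.one_mulVec, Matrix.mulVec_zero] at h2
  refine s.bas.repr.injective (Finsupp.ext fun i => ?_)
  simpa using congrFun h2 i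

theorem exists_smul_mem_range {M N κ : Type} [AddCommGroup M] [AddCommGroup N] [Fintype κ]
    (b : Basis κ ℤ M) (b' : Basis κ ℤ N) (f : M →+ N) (hf : Injective f) (y : N) :
    ∃ n : ℕ, n ≠ 0 ∧ ∃ x, f x = n • y := by
  have := Module.Free.of_basis b'
  have := Module.Finite.of_basis b'
  have h1 : finrank ℤ (LinearMap.range f.toIntLinearMap) = finrank ℤ N := by
    rw [LinearMap.finrank_range_of_inj hf, finrank_eq_card_basis b, finrank_eq_card_basis b']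
  have := Submodule.finiteQuotientOfFreeOfRankEq _ h1
  refine ⟨Nat.card (N ⧸ LinearMap.range f.toIntLinearMap), Nat.card_pos.ne', ?_⟩
  have h2 : (LinearMap.range f.toIntLinearMap).mkQ
      (Nat.card (N ⧸ LinearMap.range f.toIntLinearMap) • y) = 0 := by
    rw [map_nsmul, card_nsmul_eq_zero']
  exact (Submodule.Quotient.mk_eq_zero _).1 h2

/-- transport of the type along a map of rings that conjugates the characters -/
theorem Sh.hol_iff {s s' : Sh} {L : IntermediateField ℚ ℂ} (hL : s.InL L) (u : Gal(L/ℚ))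
    (i : s'.Γ ≃ s.Γ) (θ : s.Λ →+ s'.Λ)
    (hθ : ∀ ρ c, s'.χ ρ (θ c) = u ⟨s.χ (i ρ) c, hL _ c⟩) {e : s.Γ ≃ s.Γ}
    (he : ∀ ρ c, s.χ (e ρ) c = u ⟨s.χ ρ c, hL ρ c⟩) :
    ∃ hL' : s'.InL L, ∀ (Φ : Finset s'.Γ) t ρ,
      Sh.Hol hL' Φ t ρ ↔ Sh.Hol hL (Φ.map i.toEmbedding) (u⁻¹ * t) (e (i ρ)) := by
  have hi : Injective θ := by
    rw [injective_iff_map_eq_zero]
    intro c hc
    refine s.eq_zero_of_chi fun ρ => ?_
    have h1 := hθ (i.symm ρ) c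
    rw [hc, map_zero, eq_comm, ZeroMemClass.coe_eq_zero, map_eq_zero_iff _ u.injective] at h1
    simpa using congrArg Subtype.val h1
  have ex := exists_smul_mem_range (s.bas.reindex i.symm) s'.bas θ hi
  have hL' : s'.InL L := fun ρ c' => by
    obtain ⟨n, hn, c, hc⟩ := ex c'
    have h1 := hθ ρ c
    rw [hc, map_nsmul, nsmul_eq_mul] at h1
    rw [eq_div_of_mul_eq (Nat.cast_ne_zero.2 hn) ((mul_comm _ _).trans h1)]
    exact div_mem (Subtype.prop _) (natCast_mem L n)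
  have key : ∀ ρ c, (⟨s'.χ ρ (θ c), hL' ρ _⟩ : L) = ⟨s.χ (e (i ρ)) c, hL _ c⟩ := fun ρ c =>
    Subtype.ext ((hθ ρ c).trans (he _ c).symm)
  refine ⟨hL', fun Φ t ρ => ⟨?_, ?_⟩⟩
  · rintro ⟨ρ', h1, h2⟩
    refine ⟨i ρ', Finset.mem_map_of_mem _ h1, fun c => ?_⟩
    have h3 := h2 (θ c)
    rw [hθ, key] at h3
    rw [AlgEquiv.mul_apply, ← Subtype.ext h3]
    simp
  · rintro ⟨_, h0, h2⟩
    obtain ⟨ρ', h1, rfl⟩ := Finset.mem_map.1 h0
    refine ⟨ρ', h1, fun c' => ?_⟩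
    obtain ⟨n, hn, c, hc⟩ := ex c'
    have h3 : (⟨s.χ (i ρ') c, hL _ c⟩ : L) = (u⁻¹ * t) ⟨s.χ (e (i ρ)) c, hL _ c⟩ :=
      Subtype.ext (h2 c)
    have h4 := hθ ρ' c
    rw [h3, ← AlgEquiv.mul_apply, mul_inv_cancel_left, ← key] at h4
    have h5 : (⟨s'.χ ρ (θ c), hL' ρ _⟩ : L) = n • ⟨s'.χ ρ c', hL' ρ _⟩ :=
      Subtype.ext (by simp [hc])
    rw [h5, hc, map_nsmul, map_nsmul, nsmul_eq_mul, nsmul_eq_mul] at h4
    exact mul_left_cancel₀ (Nat.cast_ne_zero.2 hn) (by simpa using h4)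

variable {Ω : Type} [Field Ω] {R : ValuationSubring ℂ} {r : R →+* Ω} {σ : Type} [Fintype σ]
  {g : ℕ} {L : IntermediateField ℚ ℂ} {c : Gal(L/ℚ)}

theorem Model.inL (X : Model r σ g) (hL : ∀ a ∈ En X.Λ, ∀ i, a i ∈ L)
    (hc : ∀ z, (c z : ℂ) = star (z : ℂ)) : X.sh.InL L := by
  rintro (i | i) a
  · exact hL a.1 a.2 i
  · have := (c ⟨a.1 i, hL a.1 a.2 i⟩).2
    rwa [hc] at this

/-- the twist -/
theorem Model.Univ.tw [IsAlgClosed Ω] {Y : Model r σ g} {q : ℕ}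
    {hL : ∀ a ∈ En Y.Λ, ∀ i, a i ∈ L} (hU : Y.Univ q L c hL)
    (hc : ∀ z, (c z : ℂ) = star (z : ℂ)) (hcc : ∀ s, s * c = c * s) (h : Y.sh.InL L)
    (u : Gal(L/ℚ)) (hu : ∀ z : L, (u z : ℂ) ∈ R ↔ (z : ℂ) ∈ R) :
    ∃ (Y' : Model r σ g) (e : Fin g ⊕ Fin g ≃ Fin g ⊕ Fin g) (h' : Y'.sh.InL L),
      Y'.fB.Isg Y.fB e ∧
      ∀ Φ t ρ, Sh.Hol h' Φ t ρ ↔ Sh.Hol h Φ (u⁻¹ * t) (e ρ) := by
  obtain ⟨Y', ψ, hs, hm, hψ⟩ := hU.twist u hu
  obtain ⟨e, he⟩ := Sh.exists_equiv h u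
  let θ : EnR Y.Λ →+ EnR Y'.Λ :=
    { toFun := fun a => ⟨_, (hψ a.1 a.2).1⟩
      map_zero' := Subtype.ext (funext fun i => by
        change ((u ⟨0, _⟩ : L) : ℂ) = 0
        exact congrArg Subtype.val (map_zero u))
      map_add' := fun a b => Subtype.ext (funext fun i =>
        congrArg Subtype.val (map_add u ⟨a.1 i, hL _ a.2 i⟩ ⟨b.1 i, hL _ b.2 i⟩)) }
  have hθ : ∀ ρ a, Y'.sh.χ ρ (θ a) = u ⟨Y.sh.χ ρ a, h ρ a⟩ := by
    rintro (i | i) a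
    · rfl
    · have h1 : (⟨Y.sh.χ (.inr i) a, h _ a⟩ : L) = c ⟨a.1 i, hL _ a.2 i⟩ :=
        Subtype.ext (hc ⟨a.1 i, hL _ a.2 i⟩).symm
      rw [h1, ← AlgEquiv.mul_apply, hcc, AlgEquiv.mul_apply, hc]
      rfl
  obtain ⟨h', hh⟩ := Sh.hol_iff (s := Y.sh) (s' := Y'.sh) h u (Equiv.refl _) θ hθ he
  refine ⟨Y', e, h', ⟨ψ, θ, hs, fun b => ?_, fun a y => ?_, fun ρ a => (hθ ρ a).trans (he ρ a).symm⟩,
    fun Φ t ρ => by simpa using hh Φ t ρ⟩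
  · have h1 := hm.reg Y'.sp.ne Y.sp.ne
    have e1 : Y'.fB.H = fun _ : Unit => LS.co Y'.p Y'.sp.ne := funext (blk_unit Y'.sp.ne)
    have e2 : Y.fB.H b = LS.co Y.p Y.sp.ne := blk_unit Y.sp.ne b
    rw [e1, e2]
    exact h1
  · obtain ⟨w, rfl⟩ := Y'.onto y
    obtain ⟨v, hv⟩ := Y.onto (ψ (Y'.red w))
    rw [← hv]
    exact (congrArg ψ (Y'.red_smul (θ a) w).symm).trans
      (((hψ a.1 a.2).2 w v hv.symm).trans (Y.red_smul a v))

end Pool.Agent.Tav
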