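import Pool.Agent.P.MP_2ce3e7_ag.Tav.HNum

/-! Multigraded Hilbert functions are polynomial for large degrees. -/

set_option autoImplicit false

noncomputable section

namespace Pool.Agent.Tav

open MvPolynomial Module

variable {Ω σ ι : Type} [Field Ω] [DecidableEq ι]

attribute [local instance] MvPolynomial.weightedGradedAlgebra

/-- the multidegree of a variable of the block `β v` -/
def wN (β : σ → ι) (v : σ) : ι → ℕ := Pi.single (β v) 1

/-- forms of multidegree `d` -/
abbrev Sd (Ω : Type) [Field Ω] (β : σ → ι) (d : ι → ℕ) : Submodule Ω (MvPolynomial σ Ω) :=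
  weightedHomogeneousSubmodule Ω (wN β) d

/-- multigraded ideals -/
def GrJ (β : σ → ι) (J : Ideal (MvPolynomial σ Ω)) : Prop :=
  ∀ d, ∀ f ∈ J, weightedHomogeneousComponent (wN β) d f ∈ J

/-- the Hilbert function of the quotient by `J` -/
def hI (β : σ → ι) (J : Ideal (MvPolynomial σ Ω)) (d : ι → ℕ) : ℕ :=
  finrank Ω ((Sd Ω β d).map (Ideal.Quotient.mkₐ Ω J).toLinearMap)

variable {β : σ → ι}

theorem grJ_iff [DecidableEq (ι → ℕ)] {J : Ideal (MvPolynomial σ Ω)} : GrJ β J ↔ J.IsHomogeneous (Sd Ω β) := by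
  constructor
  · intro h d f hf
    have e : ((DirectSum.decompose (Sd Ω β) f d : Sd Ω β d) : MvPolynomial σ Ω) =
        weightedHomogeneousComponent (wN β) d f :=
      weightedDecomposition.decompose'_apply Ω (wN β) f d
    rw [e]
    exact h d f hf
  · intro h d f hf
    exact weightedHomogeneousComponent_mem_of_mem Ω (wN β) h hf d

theorem grJ_span {s : Set (MvPolynomial σ Ω)} (h : ∀ f ∈ s, ∃ d, f ∈ Sd Ω β d) :
    GrJ β (Ideal.span s) := by
  classical
  exact grJ_iff.2 (Ideal.homogeneous_span _ _ fun f hf => h f hf)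

theorem GrJ.sup {J J' : Ideal (MvPolynomial σ Ω)} (h : GrJ β J) (h' : GrJ β J') :
    GrJ β (J ⊔ J') := by
  classical
  exact grJ_iff.2 ((grJ_iff.1 h).sup (grJ_iff.1 h'))

theorem GrJ.inf {J J' : Ideal (MvPolynomial σ Ω)} (h : GrJ β J) (h' : GrJ β J') :
    GrJ β (J ⊓ J') := fun d f hf => ⟨h d f hf.1, h' d f hf.2⟩

theorem cmp_mul {f : MvPolynomial σ Ω} {e : ι → ℕ} (hf : f ∈ Sd Ω β e) (a : MvPolynomial σ Ω)
    (d : ι → ℕ) : weightedHomogeneousComponent (wN β) (d + e) (a * f) =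
      weightedHomogeneousComponent (wN β) d a * f := by
  classical
  have := DirectSum.coe_decompose_mul_add_of_right_mem (Sd Ω β) (a := a) (i := d) hf
  exact (weightedDecomposition.decompose'_apply Ω (wN β) (a * f) (d + e)).symm.trans
    (this.trans (congrArg (· * f) (weightedDecomposition.decompose'_apply Ω (wN β) a d)))

theorem mem_colon1 {J : Ideal (MvPolynomial σ Ω)} {f g : MvPolynomial σ Ω} :
    g ∈ J.colon {f} ↔ g * f ∈ J := by
  rw [Submodule.mem_colon_singleton, smul_eq_mul]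

theorem GrJ.colon {J : Ideal (MvPolynomial σ Ω)} (h : GrJ β J) {f : MvPolynomial σ Ω}
    {e : ι → ℕ} (hf : f ∈ Sd Ω β e) : GrJ β (J.colon {f}) := fun d g hg => by
  rw [mem_colon1] at hg ⊢
  rw [← cmp_mul hf]
  exact h _ _ hg

theorem GrJ.sup_span {J : Ideal (MvPolynomial σ Ω)} (h : GrJ β J) {f : MvPolynomial σ Ω}
    {e : ι → ℕ} (hf : f ∈ Sd Ω β e) : GrJ β (J ⊔ Ideal.span {f}) :=
  h.sup (grJ_span fun g hg => ⟨e, by rw [Set.mem_singleton_iff.1 hg]; exact hf⟩)

theorem X_mem_Sd (v : σ) : (X v : MvPolynomial σ Ω) ∈ Sd Ω β (Pi.single (β v) 1) :=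
  isWeightedHomogeneous_X Ω (wN β) v

theorem weight_wN [Fintype σ] (s : σ →₀ ℕ) (i : ι) :
    Finsupp.weight (wN β) s i = ∑ v with β v = i, s v := by
  rw [Finsupp.weight_eq_sum, Finset.sum_apply, Finset.sum_filter]
  refine Finset.sum_congr rfl fun v _ => ?_
  by_cases h : β v = i
  · simp [wN, h]
  · simp [wN, h, Ne.symm h]

instance fd_Sd [Finite σ] (d : ι → ℕ) : FiniteDimensional Ω (Sd Ω β d) := by
  classical
  cases nonempty_fintype σ
  have hfin : {s : σ →₀ ℕ | Finsupp.weight (wN β) s = d}.Finite := by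
    refine (Set.finite_Iic (Finsupp.equivFunOnFinite.symm fun v => d (β v))).subset fun s hs v => ?_
    have h1 : Finsupp.weight (wN β) s = d := hs
    change s v ≤ d (β v)
    rw [← h1, weight_wN]
    exact Finset.single_le_sum (f := fun v => s v) (fun _ _ => Nat.zero_le _) (by simp)
  have : Sd Ω β d ≤ Submodule.span Ω
      ((fun s => monomial s (1 : Ω)) '' {s : σ →₀ ℕ | Finsupp.weight (wN β) s = d}) := by
    intro f hf
    rw [f.as_sum]
    refine Submodule.sum_mem _ fun s hs => ?_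
    rw [← mul_one (coeff s f), ← smul_eq_mul, ← smul_monomial]
    exact Submodule.smul_mem _ _ (Submodule.subset_span ⟨s, hf (mem_support_iff.1 hs), rfl⟩)
  have := FiniteDimensional.span_of_finite Ω (hfin.image fun s => monomial s (1 : Ω))
  exact Submodule.finiteDimensional_of_le ‹_›

theorem rank_map_add {V W : Type} [AddCommGroup V] [Module Ω V] [AddCommGroup W] [Module Ω W]
    (U : Submodule Ω V) [FiniteDimensional Ω U] (p : V →ₗ[Ω] W) :
    finrank Ω (U.map p) + finrank Ω (U ⊓ LinearMap.ker p : Submodule Ω V) = finrank Ω U := by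
  have h1 := (p.domRestrict U).finrank_range_add_finrank_ker
  rw [LinearMap.range_domRestrict, LinearMap.ker_domRestrict] at h1
  rw [← h1, ← Submodule.finrank_map_subtype_eq U, Submodule.map_comap_subtype]

theorem rank_map_eq {V W W' : Type} [AddCommGroup V] [Module Ω V] [AddCommGroup W] [Module Ω W]
    [AddCommGroup W'] [Module Ω W'] (U : Submodule Ω V) [FiniteDimensional Ω U] (p : V →ₗ[Ω] W)
    (q : V →ₗ[Ω] W') (h : ∀ x ∈ U, p x = 0 ↔ q x = 0) :
    finrank Ω (U.map p) = finrank Ω (U.map q) := by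
  have e : U ⊓ LinearMap.ker p = U ⊓ LinearMap.ker q :=
    Submodule.ext fun x => and_congr_right (h x)
  have h1 := rank_map_add U p
  have h2 := rank_map_add U q
  rw [e] at h1
  omega

/-- the Hilbert function computed through any linear map with the right kernel -/
theorem hI_eq [Finite σ] {J : Ideal (MvPolynomial σ Ω)} {d : ι → ℕ} {W : Type} [AddCommGroup W]
    [Module Ω W] (q : MvPolynomial σ Ω →ₗ[Ω] W) (h : ∀ f ∈ Sd Ω β d, f ∈ J ↔ q f = 0) :
    hI β J d = finrank Ω ((Sd Ω β d).map q) :=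
  rank_map_eq _ _ _ fun f hf => Ideal.Quotient.eq_zero_iff_mem.trans (h f hf)

theorem hI_add [Finite σ] (J : Ideal (MvPolynomial σ Ω)) (d : ι → ℕ) :
    hI β J d + finrank Ω (Sd Ω β d ⊓ J.restrictScalars Ω : Submodule Ω _) =
      finrank Ω (Sd Ω β d) := by
  have e : LinearMap.ker (Ideal.Quotient.mkₐ Ω J).toLinearMap = J.restrictScalars Ω :=
    Submodule.ext fun f => Ideal.Quotient.eq_zero_iff_mem
  rw [← e]
  exact rank_map_add _ _

theorem hI_congr [Finite σ] {J J' : Ideal (MvPolynomial σ Ω)} {d : ι → ℕ}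
    (h : ∀ f ∈ Sd Ω β d, f ∈ J ↔ f ∈ J') : hI β J d = hI β J' d :=
  hI_eq _ fun f hf => (h f hf).trans Ideal.Quotient.eq_zero_iff_mem.symm

theorem hI_anti [Finite σ] {J J' : Ideal (MvPolynomial σ Ω)} {d : ι → ℕ}
    (h : ∀ f ∈ Sd Ω β d, f ∈ J → f ∈ J') : hI β J' d ≤ hI β J d := by
  have h1 := hI_add (β := β) J d
  have h2 := hI_add (β := β) J' d
  have h3 : finrank Ω (Sd Ω β d ⊓ J.restrictScalars Ω : Submodule Ω _) ≤
      finrank Ω (Sd Ω β d ⊓ J'.restrictScalars Ω : Submodule Ω _) :=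
    Submodule.finrank_mono fun f hf => ⟨hf.1, h f hf.1 hf.2⟩
  omega

theorem hI_eq_zero {J : Ideal (MvPolynomial σ Ω)} {d : ι → ℕ} (h : ∀ f ∈ Sd Ω β d, f ∈ J) :
    hI β J d = 0 := by
  have : (Sd Ω β d).map (Ideal.Quotient.mkₐ Ω J).toLinearMap = ⊥ := by
    rw [eq_bot_iff]
    rintro _ ⟨f, hf, rfl⟩
    exact Ideal.Quotient.eq_zero_iff_mem.2 (h f hf)
  rw [hI, this, finrank_bot]

theorem mem_of_hI_eq [Finite σ] {J J' : Ideal (MvPolynomial σ Ω)} {d : ι → ℕ} (hl : J ≤ J')
    (h : hI β J d ≤ hI β J' d) {f : MvPolynomial σ Ω} (hf : f ∈ Sd Ω β d) (hJ : f ∈ J') :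
    f ∈ J := by
  have h1 := hI_add (β := β) J d
  have h2 := hI_add (β := β) J' d
  have e : (Sd Ω β d ⊓ J.restrictScalars Ω : Submodule Ω _) = Sd Ω β d ⊓ J'.restrictScalars Ω :=
    Submodule.eq_of_le_of_finrank_le (fun g hg => ⟨hg.1, hl hg.2⟩) (by omega)
  have : f ∈ (Sd Ω β d ⊓ J'.restrictScalars Ω : Submodule Ω _) := ⟨hf, hJ⟩
  rw [← e] at this
  exact this.2

/-- the exact sequence of multiplication by a form -/
theorem hI_exact [Finite σ] {J : Ideal (MvPolynomial σ Ω)} (hJ : GrJ β J) {f : MvPolynomial σ Ω}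
    {e : ι → ℕ} (hf : f ∈ Sd Ω β e) (d : ι → ℕ) :
    hI β J (d + e) = hI β (J.colon {f}) d + hI β (J ⊔ Ideal.span {f}) (d + e) := by
  let m := (Ideal.Quotient.mkₐ Ω J).toLinearMap
  let p : (MvPolynomial σ Ω ⧸ J) →ₗ[Ω] (MvPolynomial σ Ω ⧸ (J ⊔ Ideal.span {f})) :=
    (Ideal.Quotient.factorₐ Ω (le_sup_left : J ≤ J ⊔ Ideal.span {f})).toLinearMap
  have h1 := rank_map_add ((Sd Ω β (d + e)).map m) p
  have h2 : ((Sd Ω β (d + e)).map m).map p =
      (Sd Ω β (d + e)).map (Ideal.Quotient.mkₐ Ω (J ⊔ Ideal.span {f})).toLinearMap := by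
    rw [← Submodule.map_comp]
    rfl
  have h3 : (Sd Ω β (d + e)).map m ⊓ LinearMap.ker p =
      (Sd Ω β d).map (m.comp (LinearMap.mulRight Ω f)) := by
    apply le_antisymm
    · rintro _ ⟨⟨g, hg, rfl⟩, hk⟩
      have hk' : g ∈ J ⊔ Ideal.span {f} := Ideal.Quotient.eq_zero_iff_mem.1 hk
      obtain ⟨j, hj, y, hy, hs⟩ := Submodule.mem_sup.1 hk'
      obtain ⟨a, rfl⟩ := Ideal.mem_span_singleton'.1 hy
      refine ⟨weightedHomogeneousComponent (wN β) d a, weightedHomogeneousComponent_mem _ _ _, ?_⟩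
      have e1 := congrArg (weightedHomogeneousComponent (wN β) (d + e)) hs
      rw [map_add, cmp_mul hf, IsWeightedHomogeneous.weightedHomogeneousComponent_same hg] at e1
      refine Ideal.Quotient.eq.2 ?_
      rw [← e1]
      simpa using J.neg_mem (hJ (d + e) j hj)
    · rintro _ ⟨g, hg, rfl⟩
      exact ⟨⟨g * f, IsWeightedHomogeneous.mul hg hf, rfl⟩, Ideal.Quotient.eq_zero_iff_mem.2
        (Ideal.mem_sup_right (Ideal.mem_span_singleton'.2 ⟨g, rfl⟩))⟩
  have h4 := hI_eq (β := β) (J := J.colon {f}) (d := d) (m.comp (LinearMap.mulRight Ω f))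
    fun g _ => mem_colon1.trans Ideal.Quotient.eq_zero_iff_mem.symm
  rw [h2, h3, ← h4] at h1
  exact h1.symm.trans (add_comm _ _)

theorem mem_of_block [Finite σ] {J : Ideal (MvPolynomial σ Ω)} {i : ι}
    (h : ∀ v, β v = i → X v ∈ J) {d : ι → ℕ} (hd : 0 < d i) {f : MvPolynomial σ Ω}
    (hf : f ∈ Sd Ω β d) : f ∈ J := by
  cases nonempty_fintype σ
  rw [f.as_sum]
  refine Ideal.sum_mem _ fun s hs => ?_
  have h1 : Finsupp.weight (wN β) s = d := hf (mem_support_iff.1 hs)
  rw [← h1, weight_wN] at hd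
  obtain ⟨v, hv, h2⟩ := Finset.exists_ne_zero_of_sum_ne_zero hd.ne'
  rw [← Finsupp.sub_add_single_one_cancel h2, monomial_add_single, pow_one]
  exact J.mul_mem_left _ (h v (Finset.mem_filter.1 hv).2)

/-- existence of the Hilbert polynomial -/
theorem exists_evP_hI [Finite σ] [Fintype ι] {J : Ideal (MvPolynomial σ Ω)} (hJ : GrJ β J) :
    ∃ P, EvP (fun d => (hI β J d : ℚ)) P := by
  induction J using (wellFounded_gt (α := Ideal (MvPolynomial σ Ω))).induction with
  | _ J ih =>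
  have cut : ∀ v, X v ∉ J → ∃ P, EvP (fun d => (hI β (J ⊔ Ideal.span {X v}) d : ℚ)) P :=
    fun v hv => ih _ (lt_of_le_of_ne le_sup_left fun e => hv (by
      rw [e]; exact Ideal.mem_sup_right (Ideal.mem_span_singleton_self _)))
      (hJ.sup_span (X_mem_Sd v))
  have hle : ∀ v, J ≤ J.colon {X v} := fun v g hg => mem_colon1.2 (J.mul_mem_right _ hg)
  by_cases h1 : ∃ v, X v ∉ J ∧ J.colon {X v} ≠ J
  · obtain ⟨v, hv, hc⟩ := h1
    obtain ⟨P, hP⟩ := ih _ (lt_of_le_of_ne (hle v) hc.symm) (hJ.colon (X_mem_Sd v))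
    obtain ⟨Q, hQ⟩ := cut v hv
    refine ⟨_, EvP.of_shift (Pi.single (β v) 1) ((hP.add (hQ.shift (Pi.single (β v) 1))).congr
      (Lg.of_forall fun d => ?_))⟩
    rw [hI_exact hJ (X_mem_Sd v) d, Nat.cast_add]
  · by_cases h2 : ∃ i, ∀ v, β v = i → X v ∈ J
    · obtain ⟨i, hi⟩ := h2
      refine ⟨0, 1, fun d hd => ?_⟩
      simp [hI_eq_zero fun f hf => mem_of_block hi (hd i) hf]
    · refine evP_of_diff fun i => ?_
      obtain ⟨v, rfl, hv⟩ : ∃ v, β v = i ∧ X v ∉ J := by
        by_contra hc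
        exact h2 ⟨i, fun v hv => not_not.1 fun h => hc ⟨v, hv, h⟩⟩
      have e : J.colon {X v} = J := not_not.1 fun h => h1 ⟨v, hv, h⟩
      obtain ⟨Q, hQ⟩ := cut v hv
      refine ⟨_, (hQ.shift (Pi.single (β v) 1)).congr (Lg.of_forall fun d => ?_)⟩
      rw [hI_exact hJ (X_mem_Sd v) d, e, Nat.cast_add]
      ring

section Alg
variable {A : Type} [CommRing A] [Algebra Ω A] [Fintype ι]

/-- the span of the generators of the block `i` -/
def blk (Ω : Type) [Field Ω] [Algebra Ω A] (β : σ → ι) (x : σ → A) (i : ι) : Submodule Ω A :=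
  Submodule.span Ω (x '' {v | β v = i})

theorem map_Sd [Finite σ] (x : σ → A) (d : ι → ℕ) :
    (Sd Ω β d).map (aeval x).toLinearMap = ∏ i, blk Ω β x i ^ d i := by
  cases nonempty_fintype σ
  apply le_antisymm
  · rintro _ ⟨f, hf, rfl⟩
    rw [f.as_sum, map_sum]
    refine Submodule.sum_mem _ fun s hs => ?_
    have h1 : Finsupp.weight (wN β) s = d := hf (mem_support_iff.1 hs)
    have h2 : ∏ i, blk Ω β x i ^ d i = ∏ v, blk Ω β x (β v) ^ s v := by
      rw [← Finset.prod_fiberwise Finset.univ β]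
      refine Finset.prod_congr rfl fun i _ => ?_
      rw [← h1, weight_wN, ← Finset.prod_pow_eq_pow_sum]
      exact Finset.prod_congr rfl fun v hv => by rw [(Finset.mem_filter.1 hv).2]
    have h3 : ∀ T : Finset σ, ∏ v ∈ T, x v ^ s v ∈ ∏ v ∈ T, blk Ω β x (β v) ^ s v := by
      classical
      intro T
      induction T using Finset.induction_on with
      | empty =>
        rw [Finset.prod_empty, Finset.prod_empty]
        exact Submodule.one_le.1 le_rfl
      | insert v T hv ih =>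
        rw [Finset.prod_insert hv, Finset.prod_insert hv]
        have hv : x v ∈ blk Ω β x (β v) := Submodule.subset_span ⟨v, rfl, rfl⟩
        exact Submodule.mul_mem_mul (Submodule.pow_mem_pow _ hv _) ih
    rw [h2, AlgHom.toLinearMap_apply, aeval_monomial, ← Algebra.smul_def,
      Finsupp.prod_fintype _ _ fun _ => pow_zero _]
    exact Submodule.smul_mem _ _ (h3 _)
  · have mul : ∀ a b, (Sd Ω β a).map (aeval x).toLinearMap * (Sd Ω β b).map (aeval x).toLinearMap ≤
        (Sd Ω β (a + b)).map (aeval x).toLinearMap := fun a b => by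
      rw [← Submodule.map_mul]
      exact Submodule.map_mono (weightedHomogeneousSubmodule_mul _ _ _)
    have one : (1 : Submodule Ω A) ≤ (Sd Ω β 0).map (aeval x).toLinearMap :=
      Submodule.one_le.2 ⟨1, isWeightedHomogeneous_one Ω _, map_one (aeval x)⟩
    have pw : ∀ i k, blk Ω β x i ^ k ≤ (Sd Ω β (Pi.single i k)).map (aeval x).toLinearMap := by
      intro i k
      induction k with
      | zero => simpa using one
      | succ k ih =>
        rw [pow_succ, Pi.single_add]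
        refine (mul_le_mul' ih (Submodule.span_le.2 ?_)).trans (mul _ _)
        rintro _ ⟨v, rfl, rfl⟩
        exact ⟨X v, X_mem_Sd v, aeval_X x v⟩
    have : ∀ T : Finset ι, ∏ i ∈ T, blk Ω β x i ^ d i ≤
        (Sd Ω β (∑ i ∈ T, Pi.single i (d i))).map (aeval x).toLinearMap := by
      intro T
      induction T using Finset.induction_on with
      | empty => simpa using one
      | insert i T hi ih =>
        rw [Finset.prod_insert hi, Finset.sum_insert hi]
        exact (mul_le_mul' (pw i _) ih).trans (mul _ _)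
    have h := this Finset.univ
    rwa [Finset.univ_sum_single] at h

/-- the ideal generated by the forms that vanish at `x` -/
def kerG (Ω : Type) [Field Ω] [Algebra Ω A] (β : σ → ι) (x : σ → A) : Ideal (MvPolynomial σ Ω) :=
  Ideal.span {f | aeval x f = 0 ∧ ∃ d, f ∈ Sd Ω β d}

omit [Fintype ι] in
theorem grJ_kerG (x : σ → A) : GrJ β (kerG Ω β x) := grJ_span fun _ hf => hf.2

omit [Fintype ι] in
theorem aeval_of_mem_kerG {x : σ → A} {f : MvPolynomial σ Ω} (h : f ∈ kerG Ω β x) :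
    aeval x f = 0 :=
  (Ideal.span_le (I := RingHom.ker (aeval x : MvPolynomial σ Ω →ₐ[Ω] A))).2 (fun _ hg => hg.1) h

omit [Fintype ι] in
theorem mem_kerG {x : σ → A} {f : MvPolynomial σ Ω} {d : ι → ℕ} (hf : f ∈ Sd Ω β d) :
    f ∈ kerG Ω β x ↔ aeval x f = 0 :=
  ⟨aeval_of_mem_kerG, fun h => Ideal.subset_span ⟨h, d, hf⟩⟩

theorem hI_kerG [Finite σ] (x : σ → A) (d : ι → ℕ) :
    hI β (kerG Ω β x) d = finrank Ω (∏ i, blk Ω β x i ^ d i : Submodule Ω A) := by
  rw [← map_Sd]
  exact hI_eq _ fun f hf => mem_kerG hf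

omit [DecidableEq ι] [Fintype ι] in
theorem exists_blk (L : ι → Submodule Ω A) [∀ i, FiniteDimensional Ω (L i)] :
    ∃ x : (Σ i, Fin (finrank Ω (L i))) → A, ∀ i, blk Ω Sigma.fst x i = L i := by
  refine ⟨fun v => finBasis Ω (L v.1) v.2, fun i => le_antisymm (Submodule.span_le.2 ?_) ?_⟩
  · rintro _ ⟨v, rfl, rfl⟩
    exact Subtype.prop _
  · intro y hy
    have := congrArg Subtype.val ((finBasis Ω (L i)).sum_repr ⟨y, hy⟩)
    rw [Submodule.coe_sum] at this
    change _ = y at this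
    rw [← this]
    exact Submodule.sum_mem _ fun j _ => Submodule.smul_mem _ _
      (Submodule.subset_span ⟨⟨i, j⟩, rfl, rfl⟩)

/-- Hilbert function of a family of subspaces -/
def hf (L : ι → Submodule Ω A) (d : ι → ℕ) : ℕ := finrank Ω (∏ i, L i ^ d i : Submodule Ω A)

omit [DecidableEq ι] in
theorem exists_evP_hf (L : ι → Submodule Ω A) [∀ i, FiniteDimensional Ω (L i)] :
    ∃ P, EvP (fun d => (hf L d : ℚ)) P := by
  classical
  obtain ⟨x, hx⟩ := exists_blk L
  obtain ⟨P, hP⟩ := exists_evP_hI (grJ_kerG (Ω := Ω) (β := Sigma.fst) x)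
  refine ⟨P, hP.congr (Lg.of_forall fun d => ?_)⟩
  rw [hI_kerG, funext hx, hf]

end Alg

end Pool.Agent.Tav
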