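import Pool.Agent.P.MP_2ce3e7_ag.Tav.Stmt
import Pool.Agent.P.MP_2ce3e7_ag.Tav.HIdeal

/-! Regular systems over a commutative ring; charts of forms. -/

set_option autoImplicit false

noncomputable section

namespace Pool.Agent.Tav.Tr

open MvPolynomial Set

variable {K T U σ τ ι κ : Type} [CommRing K]

theorem prod_pow_mono [Fintype ι] {L M : ι → Submodule K (T → K)} (h : ∀ i, L i ≤ M i)
    (e : ι → ℕ) : ∏ i, L i ^ e i ≤ ∏ i, M i ^ e i :=
  Finset.prod_le_prod' fun i _ => pow_le_pow_left' (h i) _

theorem prod_mem_prod {J : Type} (s : Finset J) {L : J → Submodule K (T → K)} {u : J → T → K}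
    (h : ∀ i ∈ s, u i ∈ L i) : ∏ i ∈ s, u i ∈ ∏ i ∈ s, L i := by
  classical
  induction s using Finset.induction_on with
  | empty =>
    rw [Finset.prod_empty, Finset.prod_empty]
    exact Submodule.one_le.1 le_rfl
  | insert v s hv ih =>
    rw [Finset.prod_insert hv, Finset.prod_insert hv]
    exact Submodule.mul_mem_mul (h v (Finset.mem_insert_self _ _))
      (ih fun i hi => h i (Finset.mem_insert_of_mem hi))

theorem rg_mono [Fintype ι] {L M : ι → Submodule K (T → K)} {W W' : Submodule K (T → K)}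
    (h : Rg L W) (hL : ∀ i, L i ≤ M i) (hW : W' ≤ W) : Rg M W' := fun t => by
  obtain ⟨e, c, hc, h⟩ := h t
  exact ⟨e, c, hc, fun w hw => prod_pow_mono hL e (h w (hW hw))⟩

theorem rg_self [Fintype ι] (L : ι → Submodule K (T → K)) (i : ι) : Rg L (L i) := fun _ => by
  classical
  refine ⟨Pi.single i 1, 1, isUnit_one, fun w hw => ?_⟩
  rw [one_mul, Finset.prod_eq_single i (fun j _ hj => by simp [hj]) (by simp)]
  simpa using hw

theorem rg_trans [Fintype ι] [Fintype κ] {L : ι → Submodule K (T → K)}
    {M : κ → Submodule K (T → K)} {W : Submodule K (T → K)} (h : ∀ k, Rg L (M k))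
    (h' : Rg M W) : Rg L W := fun t => by
  obtain ⟨e, c, hc, h'⟩ := h' t
  choose f d hd h using fun k => h k t
  refine ⟨fun i => ∑ k, f k i * e k, (∏ k, d k ^ e k) * c, ?_, fun w hw => ?_⟩
  · rw [Pi.mul_apply, Finset.prod_apply]
    exact (IsUnit.prod_univ_iff.2 fun k => (hd k).pow _).mul hc
  · have h1 : ∀ k, Submodule.span K {d k} * M k ≤ ∏ i, L i ^ f k i := fun k =>
      Submodule.mul_le.2 fun a ha b hb => by
        obtain ⟨r, rfl⟩ := Submodule.mem_span_singleton.1 ha
        rw [smul_mul_assoc]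
        exact Submodule.smul_mem _ _ (h k b hb)
    have h2 := prod_pow_mono h1 e
    simp only [mul_pow, Finset.prod_mul_distrib] at h2
    have h3 : ∏ k, (∏ i, L i ^ f k i) ^ e k = ∏ i, L i ^ ∑ k, f k i * e k := by
      simp only [← Finset.prod_pow, ← pow_mul]
      rw [Finset.prod_comm]
      exact Finset.prod_congr rfl fun i _ => Finset.prod_pow_eq_pow_sum _ _ _
    rw [← h3, mul_assoc]
    exact h2 (Submodule.mul_mem_mul (prod_mem_prod _ fun k _ =>
      Submodule.pow_mem_pow _ (Submodule.mem_span_singleton_self _) _) (h' w hw))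

/-- composition with `j` -/
def pb (K : Type) [CommRing K] (j : T → U) : (U → K) →ₐ[K] (T → K) :=
  AlgHom.pi fun t => Pi.evalAlgHom K (fun _ : U => K) (j t)

@[simp] theorem pb_apply (j : T → U) (u : U → K) (t : T) : pb K j u t = u (j t) := rfl

theorem map_crd (j : T → U) (p : U → σ → K) :
    (crd p).map (pb K j).toLinearMap = crd fun t => p (j t) := by
  rw [crd, Submodule.map_span, ← range_comp]
  rfl

theorem map_prod_pow [Fintype ι] (j : T → U) (L : ι → Submodule K (U → K)) (e : ι → ℕ) :
    (∏ i, L i ^ e i).map (pb K j).toLinearMap =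
      ∏ i, (L i).map (pb K j).toLinearMap ^ e i := by
  have := map_prod (Submodule.mapHom (pb K j)) (fun i => L i ^ e i) Finset.univ
  simp only [map_pow] at this
  exact this

theorem rg_pb [Fintype ι] {L : ι → Submodule K (U → K)} {W : Submodule K (U → K)} (h : Rg L W)
    (j : T → U) : Rg (fun i => (L i).map (pb K j).toLinearMap) (W.map (pb K j).toLinearMap) :=
  fun t => by
    obtain ⟨e, c, hc, h⟩ := h (j t)
    refine ⟨e, pb K j c, hc, ?_⟩
    rintro _ ⟨w, hw, rfl⟩
    rw [← map_prod_pow]
    exact ⟨c * w, h w hw, map_mul (pb K j) c w⟩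

theorem rg_crd_pb [Fintype ι] {s : ι → Type} {p : ∀ i, U → s i → K} {q : U → τ → K}
    (h : Rg (fun i => crd (p i)) (crd q)) (j : T → U) :
    Rg (fun i => crd fun t => p i (j t)) (crd fun t => q (j t)) := by
  simpa only [map_crd] using rg_pb h j

/-- a morphism can be applied to a regular map -/
theorem Mor_comp [Fintype ι] {L : ι → Submodule K (T → K)} {Y : Type} {p : U → σ → K}
    {q : Y → τ → K} {f : U → Y} (hf : Mor p q f) {j : T → U} (h : Rg L (crd fun t => p (j t))) :
    Rg L (crd fun t => q (f (j t))) := by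
  have h1 := rg_pb hf j
  rw [map_crd] at h1
  refine rg_trans (fun k => ?_) h1
  rw [Subsingleton.elim k 0, Matrix.cons_val_zero, map_crd]
  exact h

/-- a regular operation in two variables can be applied to two regular maps -/
theorem rg_comp2 [Fintype ι] {L : ι → Submodule K (T → K)} {Y : Type} {p : U → σ → K}
    {q : Y → τ → K} {f : U × U → Y}
    (hf : Rg ![crd fun t : U × U => p t.1, crd fun t => p t.2] (crd fun t => q (f t)))
    {j j' : T → U} (h : Rg L (crd fun t => p (j t))) (h' : Rg L (crd fun t => p (j' t))) :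
    Rg L (crd fun t => q (f (j t, j' t))) := by
  have h1 := rg_pb hf fun t => (j t, j' t)
  rw [map_crd] at h1
  refine rg_trans (fun k => ?_) h1
  fin_cases k
  · simpa [map_crd] using h
  · simpa [map_crd] using h'

theorem rg_const [Fintype ι] (L : ι → Submodule K (T → K)) (a : τ → K) :
    Rg L (crd fun _ : T => a) := fun _ => by
  refine ⟨0, 1, isUnit_one, fun w hw => ?_⟩
  simp only [Pi.zero_apply, pow_zero, Finset.prod_const_one, one_mul]
  refine Submodule.span_le.2 ?_ hw
  rintro _ ⟨l, rfl⟩
  exact Submodule.mem_one.2 ⟨a l, rfl⟩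

theorem rg_of_gen [Fintype ι] {L : ι → Submodule K (T → K)} {q : T → τ → K}
    (h : ∀ t, ∃ (e : ι → ℕ) (c : T → K), IsUnit (c t) ∧
      ∀ l, (c * fun t => q t l) ∈ ∏ i, L i ^ e i) : Rg L (crd q) := fun t => by
  obtain ⟨e, c, hc, h⟩ := h t
  refine ⟨e, c, hc, fun w hw => ?_⟩
  induction hw using Submodule.span_induction with
  | mem x hx => obtain ⟨l, rfl⟩ := hx; exact h l
  | zero => simp
  | add x y _ _ hx hy => rw [mul_add]; exact Submodule.add_mem _ hx hy
  | smul a x _ hx => rw [mul_smul_comm]; exact Submodule.smul_mem _ _ hx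

theorem aeval_pt (x : T → σ → K) (G : MvPolynomial σ K) (t : T) :
    aeval (fun v t => x t v) G t = eval (x t) G := by
  induction G using MvPolynomial.induction_on with
  | C a => simp
  | add p q hp hq => simp only [map_add, Pi.add_apply, hp, hq]
  | mul_X p s hp => simp only [map_mul, Pi.mul_apply, hp, aeval_X, eval_X]

variable [Fintype ι] [DecidableEq ι]

/-- members of a product of coordinate spaces are values of forms -/
theorem exists_form (w : σ → ι) (x : T → σ → K) {L : ι → Submodule K (T → K)}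
    (hL : ∀ i, L i ≤ Submodule.span K ((fun v t => x t v) '' {v | w v = i})) {e : ι → ℕ}
    {u : T → K} (hu : u ∈ ∏ i, L i ^ e i) :
    ∃ G : MvPolynomial σ K, IsWeightedHomogeneous (wN w) G e ∧ ∀ t, eval (x t) G = u t := by
  let S : (ι → ℕ) → Submodule K (T → K) := fun d =>
    (weightedHomogeneousSubmodule K (wN w) d).map (aeval fun v t => x t v).toLinearMap
  have mul : ∀ a b, S a * S b ≤ S (a + b) := fun a b => by
    rw [← Submodule.map_mul]
    exact Submodule.map_mono (weightedHomogeneousSubmodule_mul _ _ _)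
  have one : (1 : Submodule K (T → K)) ≤ S 0 :=
    Submodule.one_le.2 ⟨1, isWeightedHomogeneous_one K _, map_one (aeval fun v t => x t v)⟩
  have pw : ∀ i k, L i ^ k ≤ S (Pi.single i k) := by
    intro i k
    induction k with
    | zero => simpa using one
    | succ k ih =>
      rw [pow_succ, Pi.single_add]
      refine (mul_le_mul' ih ((hL i).trans (Submodule.span_le.2 ?_))).trans (mul _ _)
      rintro _ ⟨v, rfl, rfl⟩
      exact ⟨X v, isWeightedHomogeneous_X K (wN w) v, aeval_X _ v⟩
  have : ∀ s : Finset ι, ∏ i ∈ s, L i ^ e i ≤ S (∑ i ∈ s, Pi.single i (e i)) := by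
    intro s
    induction s using Finset.induction_on with
    | empty => simpa using one
    | insert i s hi ih =>
      rw [Finset.prod_insert hi, Finset.sum_insert hi]
      exact (mul_le_mul' (pw i _) ih).trans (mul _ _)
  have h := this Finset.univ
  rw [Finset.univ_sum_single] at h
  obtain ⟨G, hG, rfl⟩ := h hu
  exact ⟨G, hG, fun t => (aeval_pt x G t).symm⟩

/-- charts of a regular map -/
theorem exists_chart (w : σ → ι) (x : T → σ → K) {L : ι → Submodule K (T → K)}
    (hL : ∀ i, L i ≤ Submodule.span K ((fun v t => x t v) '' {v | w v = i})) {q : T → τ → K}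
    (h : Rg L (crd q)) (t₀ : T) : ∃ (e : ι → ℕ) (c : T → K) (G : τ → MvPolynomial σ K),
      IsUnit (c t₀) ∧ (∀ j, IsWeightedHomogeneous (wN w) (G j) e) ∧
      ∀ t j, eval (x t) (G j) = c t * q t j := by
  obtain ⟨e, c, hc, h⟩ := h t₀
  choose G h1 h2 using fun j =>
    exists_form w x hL (h _ (Submodule.subset_span (mem_range_self j)))
  exact ⟨e, c, G, hc, h1, fun t j => h2 j t⟩

end Pool.Agent.Tav.Tr
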