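import Pool.Agent.P.MP_2ce3e7_ag.Tav.PiF
import Pool.Agent.P.MP_2ce3e7_ag.Tav.SRg

/-! The product of reductions is a reduction. -/

set_option autoImplicit false

noncomputable section

namespace Pool.Agent.Tav

open MvPolynomial Module Function

namespace PiR

theorem blkR_pi {K T ι : Type} [CommRing K] {σ β : ι → Type} (w : ∀ i, σ i → β i)
    (y : T → (Σ i, σ i) → K) (i : ι) (b : β i) :
    blkR (fun l : Σ i, σ i => (⟨l.1, w l.1 l.2⟩ : Σ i, β i)) y ⟨i, b⟩ =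
      blkR (w i) (fun t l => y t ⟨i, l⟩) b := by
  refine congrArg (Submodule.span K) (Set.ext fun u => ⟨?_, ?_⟩)
  · rintro ⟨⟨⟨k, l⟩, e⟩, rfl⟩
    obtain ⟨rfl, e⟩ := Sigma.mk.inj e
    exact ⟨⟨l, eq_of_heq e⟩, rfl⟩
  · rintro ⟨⟨l, rfl⟩, rfl⟩
    exact ⟨⟨⟨i, l⟩, rfl⟩, rfl⟩

theorem blkR_pb {K T U σ β : Type} [CommRing K] (w : σ → β) (y : U → σ → K) (j : T → U)
    (b : β) : (blkR w y b).map (Tr.pb K j).toLinearMap = blkR w (fun t => y (j t)) b :=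
  Tr.map_crd j _

theorem rg_pi {K T ι : Type} [CommRing K] [Fintype ι] {σ β : ι → Type} [∀ i, Fintype (β i)]
    (w : ∀ i, σ i → β i) (x y z : T → (Σ i, σ i) → K) (i : ι) (c : β i) {U : Type} (j : T → U)
    {x' y' z' : U → σ i → K} (hx : ∀ t l, x t ⟨i, l⟩ = x' (j t) l)
    (hy : ∀ t l, y t ⟨i, l⟩ = y' (j t) l) (hz : ∀ t l, z t ⟨i, l⟩ = z' (j t) l)
    (h : Rg (Sum.elim (blkR (w i) x') (blkR (w i) y')) (blkR (w i) z' c)) :
    Rg (Sum.elim (blkR (fun l : Σ i, σ i => (⟨l.1, w l.1 l.2⟩ : Σ i, β i)) x)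
      (blkR (fun l : Σ i, σ i => (⟨l.1, w l.1 l.2⟩ : Σ i, β i)) y))
      (blkR (fun l : Σ i, σ i => (⟨l.1, w l.1 l.2⟩ : Σ i, β i)) z ⟨i, c⟩) := by
  have h1 := Tr.rg_pb h j
  rw [blkR_pb] at h1
  rw [blkR_pi]
  simp only [hz]
  refine Tr.rg_trans (fun k => ?_) h1
  rcases k with k | k
  · refine Tr.rg_mono (Tr.rg_self _ (Sum.inl ⟨i, k⟩)) (fun _ => le_rfl) (le_of_eq ?_)
    simp only [Sum.elim_inl, blkR_pb, blkR_pi, hx]
  · refine Tr.rg_mono (Tr.rg_self _ (Sum.inr ⟨i, k⟩)) (fun _ => le_rfl) (le_of_eq ?_)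
    simp only [Sum.elim_inr, blkR_pb, blkR_pi, hy]

/-- the componentwise linear map -/
def lin {ι : Type} {S G G' : ι → Type} [∀ i, CommRing (S i)] [∀ i, AddCommGroup (G i)]
    [∀ i, AddCommGroup (G' i)] [∀ i, Module (S i) (G i)] [∀ i, Module (S i) (G' i)]
    (f : ∀ i, G i →ₗ[S i] G' i) : (∀ i, G i) →ₗ[∀ i, S i] ∀ i, G' i where
  toFun v i := f i (v i)
  map_add' v v' := funext fun i => map_add (f i) (v i) (v' i)
  map_smul' a v := funext fun i => map_smul (f i) (a i) (v i)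

variable {Ω ι : Type} [Field Ω] [Fintype ι] [DecidableEq ι] {s : ι → Sh}

theorem pL_H (F : ∀ i, Fib Ω (s i)) :
    pL (Fib.pi F).H = ∏ i, rename (Sigma.mk i) (pL (F i).H) :=
  (congrArg pL (Fib.pi_H' F)).trans (pL_pi fun i => (F i).H)

end PiR

variable {Ω ι : Type} [Field Ω] [Fintype ι] [DecidableEq ι] {s : ι → Sh}
  {R : ValuationSubring ℂ} {r : R →+* Ω}

theorem Red.pi {C : ∀ i, Fib ℂ (s i)} {B : ∀ i, Fib Ω (s i)} (h : ∀ i, Red r (C i) (B i)) :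
    Nonempty (Red r (Fib.pi C) (Fib.pi B)) := by
  refine ⟨{
    x := fun v l => (h l.1).x (v l.1) l.2
    hx := fun v l => (h l.1).hx (v l.1) l.2
    red := PiR.lin fun i => (h i).red
    onto := fun y => ?_
    hred := fun v => ?_
    flat := ?_
    row := fun a b c => ?_ }⟩
  · choose v hv using fun i => (h i).onto (y i)
    exact ⟨v, funext hv⟩
  · choose c h1 h2 using fun i => (h i).hred (v i)
    exact ⟨fun b => c b.1 b.2, fun b => h1 _ _, fun l => h2 l.1 l.2⟩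
  · exact (PiR.pL_H B).trans ((Finset.prod_congr rfl fun i _ =>
      congrArg (rename (Sigma.mk i)) (h i).flat).trans (PiR.pL_H C).symm)
  · exact PiR.rg_pi (fun i => (s i).w) _ _ _ c.1 c.2
      (fun t : (∀ i, (C i).G) × ∀ i, (C i).G => (t.1 c.1, t.2 c.1)) (fun _ _ => rfl)
      (fun _ _ => rfl) (fun _ _ => rfl) ((h c.1).row (a c.1) (b c.1) c.2)

end Pool.Agent.Tav
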