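import Pool.Agent.P.MP_2ce3e7_ag.Tav.PiF

/-! The product of uniformised fibres is uniformised. -/

set_option autoImplicit false

noncomputable section

namespace Pool.Agent.Tav

open MvPolynomial Module Function

namespace PiT

variable {ι : Type} [Fintype ι] [DecidableEq ι] {W : ι → Type} [∀ i, NormedAddCommGroup (W i)]
  [∀ i, NormedSpace ℂ (W i)]

omit [DecidableEq ι] [∀ i, NormedSpace ℂ (W i)] in
theorem disc_pi (L : ∀ i, Submodule ℤ (W i)) [∀ i, DiscreteTopology (L i)] :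
    DiscreteTopology (Submodule.pi Set.univ L) :=
  DiscreteTopology.of_continuous_injective
    (f := fun (v : Submodule.pi Set.univ L) i => (⟨v.1 i, v.2 i trivial⟩ : L i))
    (continuous_pi fun i => ((continuous_apply i).comp continuous_subtype_val).subtype_mk _)
    fun _ _ e => Subtype.ext (funext fun i => congrArg Subtype.val (congrFun e i))

theorem span_pi (L : ∀ i, Submodule ℤ (W i))
    (h : ∀ i, Submodule.span ℝ (L i : Set (W i)) = ⊤) :
    Submodule.span ℝ (Submodule.pi Set.univ L : Set (∀ i, W i)) = ⊤ := by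
  refine eq_top_iff.2 fun v _ => ?_
  rw [← Finset.univ_sum_single v]
  refine Submodule.sum_mem _ fun i _ => ?_
  have h1 : v i ∈ Submodule.span ℝ (L i : Set (W i)) := h i ▸ Submodule.mem_top
  refine Submodule.span_mono ?_ (Submodule.apply_mem_span_image_of_mem_span
    (LinearMap.single ℝ W i) h1)
  rintro _ ⟨l, hl, rfl⟩ j -
  by_cases e : j = i
  · subst e
    simpa using hl
  · simp [Pi.single_eq_of_ne e]

omit [DecidableEq ι] in
theorem riem_pi {L : ∀ i, Submodule ℤ (W i)} (h : ∀ i, Riem (L i)) :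
    Riem (Submodule.pi Set.univ L) := by
  choose ψ h1 h2 h3 h4 using h
  refine ⟨∑ i, (ψ i).compl₁₂ (LinearMap.proj i) (LinearMap.proj i), fun v => by simp [h1],
    fun l hl l' hl' => ?_, fun v w => by simp [h3], fun v hv => ?_⟩
  · choose z hz using fun i => h2 i _ (hl i trivial) _ (hl' i trivial)
    exact ⟨∑ i, z i, by simp [hz]⟩
  · obtain ⟨i, hi⟩ := Function.ne_iff.1 hv
    simp only [LinearMap.sum_apply, LinearMap.compl₁₂_apply, LinearMap.proj_apply, Pi.smul_apply]
    refine Finset.sum_pos' (fun j _ => ?_) ⟨i, Finset.mem_univ _, h4 i _ hi⟩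
    by_cases hj : v j = 0
    · simp [hj]
    · exact (h4 j _ hj).le

/-- the componentwise action of a product of rings -/
def act {S : ι → Type} [∀ i, CommRing (S i)] (a : ∀ i, S i →+* (W i →L[ℂ] W i)) :
    (∀ i, S i) →+* ((∀ i, W i) →L[ℂ] ∀ i, W i) where
  toFun x := ContinuousLinearMap.pi fun i => (a i (x i)).comp (ContinuousLinearMap.proj i)
  map_one' := by ext; simp
  map_mul' _ _ := by ext; simp
  map_zero' := by ext; simp
  map_add' _ _ := by ext; simp

theorem cov_apply {V G : Type} [NormedAddCommGroup V] [NormedSpace ℂ V] [Fintype G]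
    (x : Basis G ℂ (V →L[ℝ] ℂ)) (η : V →L[ℝ] ℂ) (v : V) :
    η v = ∑ ρ, x.repr η ρ * x ρ v := by
  have := DFunLike.congr_fun (x.sum_repr η) v
  rw [sum_apply] at this
  exact this.symm

theorem basis_pi {G : ι → Type} [∀ i, Fintype (G i)] (x : ∀ i, Basis (G i) ℂ (W i →L[ℝ] ℂ)) :
    ∃ ξ : Basis (Σ i, G i) ℂ ((∀ i, W i) →L[ℝ] ℂ), ∀ p v, ξ p v = x p.1 p.2 (v p.1) := by
  let y : (Σ i, G i) → ((∀ i, W i) →L[ℝ] ℂ) :=
    fun p => (x p.1 p.2).comp (ContinuousLinearMap.proj p.1)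
  have hy : ∀ p v, y p v = x p.1 p.2 (v p.1) := fun _ _ => rfl
  have h1 : LinearIndependent ℂ y := Fintype.linearIndependent_iff.2 fun g hg p =>
    Fintype.linearIndependent_iff.1 (x p.1).linearIndependent (fun ρ => g ⟨p.1, ρ⟩)
      (ContinuousLinearMap.ext fun v => by
        have := DFunLike.congr_fun hg (Pi.single p.1 v)
        rw [sum_apply, Fintype.sum_sigma, Finset.sum_eq_single p.1] at this
        · simpa [hy] using this
        · exact fun i _ hi => Finset.sum_eq_zero fun ρ _ => by simp [hy, Pi.single_eq_of_ne hi]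
        · simp) p.2
  have h2 : ⊤ ≤ Submodule.span ℂ (Set.range y) := fun η _ => by
    have : η = ∑ p : Σ i, G i, (x p.1).repr (η.comp (ContinuousLinearMap.single ℝ W p.1)) p.2 •
        y p := by
      refine ContinuousLinearMap.ext fun v => ?_
      rw [sum_apply, Fintype.sum_sigma]
      conv_lhs => rw [← Finset.univ_sum_single v, map_sum]
      exact Finset.sum_congr rfl fun i _ =>
        cov_apply (x i) (η.comp (ContinuousLinearMap.single ℝ W i)) (v i)
    rw [this]
    exact Submodule.sum_mem _ fun p _ => Submodule.smul_mem _ _ (Submodule.subset_span ⟨p, rfl⟩)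
  exact ⟨Basis.mk h1 h2, fun p v => by rw [Basis.mk_apply, hy]⟩

omit [Fintype ι] [DecidableEq ι] in
theorem bpar_pi {K : Type} [Field K] {σ β : ι → Type} (w : ∀ i, σ i → β i)
    (x y : (Σ i, σ i) → K) :
    BPar (fun l : Σ i, σ i => (⟨l.1, w l.1 l.2⟩ : Σ i, β i)) x y ↔
      ∀ i, BPar (w i) (fun l => x ⟨i, l⟩) fun l => y ⟨i, l⟩ := by
  refine ⟨fun ⟨c, h1, h2⟩ i => ⟨fun b => c ⟨i, b⟩, fun b => h1 _, fun l => h2 ⟨i, l⟩⟩,
    fun h => ?_⟩
  choose c h1 h2 using h
  exact ⟨fun b => c b.1 b.2, fun b => h1 _ _, fun l => h2 l.1 l.2⟩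

omit [DecidableEq ι] in
theorem has_pi {σ : ι → Type} [∀ i, Fintype (σ i)] {φ : ∀ i, W i → σ i → ℂ}
    (h : ∀ i, Differentiable ℂ (φ i)) (v : ∀ i, W i) :
    HasFDerivAt (fun (v : ∀ i, W i) (l : Σ i, σ i) => φ l.1 (v l.1) l.2)
      (ContinuousLinearMap.pi fun l : Σ i, σ i => (ContinuousLinearMap.proj l.2).comp
        ((fderiv ℂ (φ l.1) (v l.1)).comp (ContinuousLinearMap.proj l.1))) v :=
  hasFDerivAt_pi.2 fun l => hasFDerivAt_pi'.1
    ((h l.1 (v l.1)).hasFDerivAt.comp v (hasFDerivAt_apply l.1 v)) l.2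

end PiT

variable {ι : Type} [Fintype ι] [DecidableEq ι] {s : ι → Sh}

theorem Tor.pi {C : ∀ i, Fib ℂ (s i)} (t : ∀ i, Tor (C i)) :
    ∃ t' : Tor (Fib.pi C), t'.Φ = Finset.univ.sigma fun i => (t i).Φ := by
  obtain ⟨ξ, hξ⟩ := PiT.basis_pi fun i => (t i).ξ
  have hd := PiT.has_pi fun i => (t i).hol
  have := PiT.disc_pi fun i => (t i).Λ
  refine ⟨{
    V := ∀ i, (t i).V
    dim := ?_
    Λ := Submodule.pi Set.univ fun i => (t i).Λ
    lat := ⟨PiT.span_pi _ fun i => (t i).lat.span_top⟩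
    riem := PiT.riem_pi fun i => (t i).riem
    act := PiT.act fun i => (t i).act
    keep := fun a l hl i _ => (t i).keep _ _ (hl i trivial)
    u := AddEquiv.piCongrRight fun i => (t i).u
    hu := fun a v => funext fun i => (t i).hu (a i) (v i)
    φ := fun v l => (t l.1).φ (v l.1) l.2
    hol := fun v => (hd v).differentiableAt
    hφ := fun v => (PiT.bpar_pi (fun i => (s i).w) _ _).2 fun i => (t i).hφ (v i)
    ker := fun v v' => (PiT.bpar_pi (fun i => (s i).w) _ _).trans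
      ⟨fun h i _ => ((t i).ker _ _).1 (h i), fun h i => ((t i).ker _ _).2 (h i trivial)⟩
    imm := fun v dv c h => funext fun i => (t i).imm (v i) (dv i) (fun b => c ⟨i, b⟩) fun l => ?_
    ξ := ξ
    eig := fun ρ a v => ?_
    Φ := Finset.univ.sigma fun i => (t i).Φ
    lin := fun ρ hρ v => ?_
    anti := fun ρ hρ v => ?_ }, rfl⟩
  · rw [Module.finrank_pi_fintype, Finset.sum_congr rfl fun i _ => (t i).dim]
    exact Fintype.card_sigma.symm
  · exact (congrFun (DFunLike.congr_fun (hd v).fderiv dv) ⟨i, l⟩).symm.trans (h ⟨i, l⟩)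
  · exact (hξ _ _).trans (((t ρ.1).eig ρ.2 (a ρ.1) (v ρ.1)).trans (congrArg _ (hξ ρ v).symm))
  · exact (hξ _ _).trans (((t ρ.1).lin ρ.2 (Finset.mem_sigma.1 hρ).2 (v ρ.1)).trans
      (congrArg _ (hξ ρ v).symm))
  · exact (hξ _ _).trans (((t ρ.1).anti ρ.2
      (fun h => hρ (Finset.mem_sigma.2 ⟨Finset.mem_univ _, h⟩)) (v ρ.1)).trans
      (congrArg _ (hξ ρ v).symm))

end Pool.Agent.Tav
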