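import Pool.Agent.P.MP_2ce3e7_ag.Tav.GrPt

/-! The ideal of a product of two schemes and additivity in each factor. -/

set_option autoImplicit false

noncomputable section

namespace Pool.Agent.Tav.Gr

open MvPolynomial Module TensorProduct

section Ring

variable {R σ ρ : Type} [CommRing R]

/-- the ideal of the product -/
def box (J : Ideal (MvPolynomial σ R)) (K : Ideal (MvPolynomial ρ R)) :
    Ideal (MvPolynomial (σ ⊕ ρ) R) :=
  J.map (rename Sum.inl : _ →ₐ[R] MvPolynomial (σ ⊕ ρ) R) ⊔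
    K.map (rename Sum.inr : _ →ₐ[R] MvPolynomial (σ ⊕ ρ) R)

theorem box_mono {J J' : Ideal (MvPolynomial σ R)} {K K' : Ideal (MvPolynomial ρ R)}
    (h : J ≤ J') (h' : K ≤ K') : box J K ≤ box J' K' :=
  sup_le_sup (Ideal.map_mono h) (Ideal.map_mono h')

theorem box_top_left (K : Ideal (MvPolynomial ρ R)) :
    box (⊤ : Ideal (MvPolynomial σ R)) K = ⊤ := by rw [box, Ideal.map_top, top_sup_eq]

theorem box_top_right (J : Ideal (MvPolynomial σ R)) :
    box J (⊤ : Ideal (MvPolynomial ρ R)) = ⊤ := by rw [box, Ideal.map_top, sup_top_eq]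

theorem box_sup_left (J : Ideal (MvPolynomial σ R)) (K : Ideal (MvPolynomial ρ R))
    (f : MvPolynomial σ R) :
    box (J ⊔ Ideal.span {f}) K = box J K ⊔ Ideal.span {rename Sum.inl f} := by
  rw [box, box, Ideal.map_sup, Ideal.map_span, Set.image_singleton, sup_right_comm]

theorem box_sup_right (J : Ideal (MvPolynomial σ R)) (K : Ideal (MvPolynomial ρ R))
    (f : MvPolynomial ρ R) :
    box J (K ⊔ Ideal.span {f}) = box J K ⊔ Ideal.span {rename Sum.inr f} := by
  rw [box, box, Ideal.map_sup, Ideal.map_span, Set.image_singleton, sup_assoc]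

theorem inl_mem_box {J : Ideal (MvPolynomial σ R)} (K : Ideal (MvPolynomial ρ R))
    {f : MvPolynomial σ R} (h : f ∈ J) : rename Sum.inl f ∈ box J K :=
  Ideal.mem_sup_left (Ideal.mem_map_of_mem _ h)

theorem inr_mem_box (J : Ideal (MvPolynomial σ R)) {K : Ideal (MvPolynomial ρ R)}
    {f : MvPolynomial ρ R} (h : f ∈ K) : rename Sum.inr f ∈ box J K :=
  Ideal.mem_sup_right (Ideal.mem_map_of_mem _ h)

/-- the map to the tensor product of the two quotients -/
def toTen (J : Ideal (MvPolynomial σ R)) (K : Ideal (MvPolynomial ρ R)) :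
    MvPolynomial (σ ⊕ ρ) R →ₐ[R] (MvPolynomial σ R ⧸ J) ⊗[R] (MvPolynomial ρ R ⧸ K) :=
  aeval (Sum.elim (fun s => Ideal.Quotient.mk J (X s) ⊗ₜ[R] (1 : MvPolynomial ρ R ⧸ K))
    fun r => (1 : MvPolynomial σ R ⧸ J) ⊗ₜ[R] Ideal.Quotient.mk K (X r))

theorem toTen_mul (J : Ideal (MvPolynomial σ R)) (K : Ideal (MvPolynomial ρ R))
    (a : MvPolynomial σ R) (b : MvPolynomial ρ R) :
    toTen J K (rename Sum.inl a * rename Sum.inr b) =
      Ideal.Quotient.mk J a ⊗ₜ Ideal.Quotient.mk K b := by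
  have h1 : (toTen J K).comp (rename Sum.inl) =
      Algebra.TensorProduct.includeLeft.comp (Ideal.Quotient.mkₐ R J) :=
    algHom_ext fun s => by simp [toTen]
  have h2 : (toTen J K).comp (rename Sum.inr) =
      Algebra.TensorProduct.includeRight.comp (Ideal.Quotient.mkₐ R K) :=
    algHom_ext fun s => by simp [toTen]
  have h3 := AlgHom.congr_fun h1 a
  have h4 := AlgHom.congr_fun h2 b
  simp only [AlgHom.comp_apply] at h3 h4
  rw [map_mul, h3, h4]
  simp

theorem mem_box {J : Ideal (MvPolynomial σ R)} {K : Ideal (MvPolynomial ρ R)}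
    {u : MvPolynomial (σ ⊕ ρ) R} : u ∈ box J K ↔ toTen J K u = 0 := by
  constructor
  · refine fun h => (sup_le (Ideal.map_le_iff_le_comap.2 fun a ha => ?_)
      (Ideal.map_le_iff_le_comap.2 fun b hb => ?_) : box J K ≤ RingHom.ker (toTen J K)) h
    · have := toTen_mul J K a 1
      rw [map_one, mul_one, Ideal.Quotient.eq_zero_iff_mem.2 ha, zero_tmul] at this
      exact this
    · have := toTen_mul J K 1 b
      rw [map_one, one_mul, Ideal.Quotient.eq_zero_iff_mem.2 hb, tmul_zero] at this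
      exact this
  · intro h
    let ψ : (MvPolynomial σ R ⧸ J) ⊗[R] (MvPolynomial ρ R ⧸ K) →ₐ[R]
        MvPolynomial (σ ⊕ ρ) R ⧸ box J K :=
      Algebra.TensorProduct.lift
        (Ideal.Quotient.liftₐ J ((Ideal.Quotient.mkₐ R (box J K)).comp (rename Sum.inl))
          fun a ha => Ideal.Quotient.eq_zero_iff_mem.2 (inl_mem_box K ha))
        (Ideal.Quotient.liftₐ K ((Ideal.Quotient.mkₐ R (box J K)).comp (rename Sum.inr))
          fun a ha => Ideal.Quotient.eq_zero_iff_mem.2 (inr_mem_box J ha))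
        fun _ _ => Commute.all _ _
    have e : ψ.comp (toTen J K) = Ideal.Quotient.mkₐ R (box J K) := algHom_ext fun z => by
      rcases z with s | r <;> simp [ψ, toTen]
    have := AlgHom.congr_fun e u
    rw [AlgHom.comp_apply, h, map_zero] at this
    exact Ideal.Quotient.eq_zero_iff_mem.1 this.symm

/-- linear maps out of the polynomial ring in two groups of variables -/
theorem lin_ext {V : Type} [AddCommGroup V] [Module R V] {p q : MvPolynomial (σ ⊕ ρ) R →ₗ[R] V}
    (h : ∀ a b, p (rename Sum.inl a * rename Sum.inr b) = q (rename Sum.inl a * rename Sum.inr b))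
    (u : MvPolynomial (σ ⊕ ρ) R) : p u = q u := by
  rw [u.as_sum, map_sum, map_sum]
  refine Finset.sum_congr rfl fun m _ => ?_
  have := h (monomial (m.comapDomain Sum.inl Sum.inl_injective.injOn) (coeff m u))
    (monomial (m.comapDomain Sum.inr Sum.inr_injective.injOn) 1)
  rwa [rename_monomial, rename_monomial, monomial_mul, mul_one, ← Finsupp.sumElim_eq_add,
    Finsupp.comapDomain_sumElim_comapDomain] at this

/-- multiplication by `f` embeds the quotient by the colon ideal -/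
def mulQ (J : Ideal (MvPolynomial σ R)) (f : MvPolynomial σ R) :
    (MvPolynomial σ R ⧸ J.colon {f}) →ₗ[R] MvPolynomial σ R ⧸ J :=
  (Submodule.liftQ (J.colon {f}) (J.mkQ ∘ₗ LinearMap.toSpanSingleton _ _ f)
    fun _ ha => (Submodule.Quotient.mk_eq_zero J).2
      (Submodule.mem_colon_singleton.1 ha)).restrictScalars R

theorem mulQ_mk (J : Ideal (MvPolynomial σ R)) (f a : MvPolynomial σ R) :
    mulQ J f (Ideal.Quotient.mk _ a) = Ideal.Quotient.mk J (a * f) := rfl

theorem mulQ_inj (J : Ideal (MvPolynomial σ R)) (f : MvPolynomial σ R) :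
    Function.Injective (mulQ J f) := by
  rw [injective_iff_map_eq_zero]
  intro x hx
  obtain ⟨a, rfl⟩ := Ideal.Quotient.mk_surjective x
  rw [mulQ_mk, Ideal.Quotient.eq_zero_iff_mem] at hx
  exact Ideal.Quotient.eq_zero_iff_mem.2 (Submodule.mem_colon_singleton.2 hx)

variable {ι ι' : Type} [DecidableEq ι] [DecidableEq ι']

theorem hom_inr (w : σ → ι) (w' : ρ → ι') {f : MvPolynomial ρ R} {d : ι' → ℕ}
    (hf : IsWeightedHomogeneous (bw w') f d) : IsWeightedHomogeneous (bw (Sum.map w w'))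
      (rename Sum.inr f : MvPolynomial (σ ⊕ ρ) R) (Sum.elim (0 : ι → ℕ) d) := by
  let φ : (ι' → ℕ) →+ (ι ⊕ ι' → ℕ) :=
    { toFun := fun d => Sum.elim (0 : ι → ℕ) d
      map_zero' := funext fun z => by rcases z with i | i <;> rfl
      map_add' := fun a b => funext fun z => by rcases z with i | i <;> rfl }
  rw [rename_eq_aeval]
  refine hom_aeval φ (fun r => ?_) hf
  have := isWeightedHomogeneous_X R (bw (Sum.map w w')) (Sum.inr r)
  rwa [bw_inr] at this

end Ring

variable {Ω σ ρ ι ι' : Type} [Field Ω]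

theorem box_colon_left (J : Ideal (MvPolynomial σ Ω)) (K : Ideal (MvPolynomial ρ Ω))
    (f : MvPolynomial σ Ω) : (box J K).colon {rename Sum.inl f} = box (J.colon {f}) K := by
  ext u
  have e := lin_ext (p := (toTen J K).toLinearMap ∘ₗ LinearMap.mulRight Ω (rename Sum.inl f))
    (q := (mulQ J f).rTensor _ ∘ₗ (toTen (J.colon {f}) K).toLinearMap) (fun a b => by
      simp only [LinearMap.comp_apply, LinearMap.mulRight_apply, AlgHom.toLinearMap_apply]
      rw [mul_right_comm, ← map_mul, toTen_mul, toTen_mul, LinearMap.rTensor_tmul, mulQ_mk]) u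
  simp only [LinearMap.comp_apply, LinearMap.mulRight_apply, AlgHom.toLinearMap_apply] at e
  rw [mem_colon1, mem_box, mem_box, e]
  exact map_eq_zero_iff _ (Module.Flat.rTensor_preserves_injective_linearMap _ (mulQ_inj J f))

theorem box_colon_right (J : Ideal (MvPolynomial σ Ω)) (K : Ideal (MvPolynomial ρ Ω))
    (f : MvPolynomial ρ Ω) : (box J K).colon {rename Sum.inr f} = box J (K.colon {f}) := by
  ext u
  have e := lin_ext (p := (toTen J K).toLinearMap ∘ₗ LinearMap.mulRight Ω (rename Sum.inr f))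
    (q := (mulQ K f).lTensor _ ∘ₗ (toTen J (K.colon {f})).toLinearMap) (fun a b => by
      simp only [LinearMap.comp_apply, LinearMap.mulRight_apply, AlgHom.toLinearMap_apply]
      rw [mul_assoc, ← map_mul, toTen_mul, toTen_mul, LinearMap.lTensor_tmul, mulQ_mk]) u
  simp only [LinearMap.comp_apply, LinearMap.mulRight_apply, AlgHom.toLinearMap_apply] at e
  rw [mem_colon1, mem_box, mem_box, e]
  exact map_eq_zero_iff _ (Module.Flat.lTensor_preserves_injective_linearMap _ (mulQ_inj K f))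

variable [DecidableEq ι] [DecidableEq ι'] {w : σ → ι} {w' : ρ → ι'}

theorem eq_core {J : Ideal (MvPolynomial σ Ω)} (h : GrJ w J) : J = core (bw w) J :=
  le_antisymm (le_core le_rfl fun u hu D => h D u hu) (core_le J)

theorem grJ_box {J : Ideal (MvPolynomial σ Ω)} {K : Ideal (MvPolynomial ρ Ω)} (h : GrJ w J)
    (h' : GrJ w' K) : GrJ (Sum.map w w') (box J K) := by
  rw [box, eq_core h, eq_core h', core, core, Ideal.map_span, Ideal.map_span]
  refine GrJ.sup (grJ_span ?_) (grJ_span ?_)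
  · rintro _ ⟨u, ⟨-, D, hD⟩, rfl⟩
    exact ⟨_, hom_up w w' hD⟩
  · rintro _ ⟨u, ⟨-, D, hD⟩, rfl⟩
    exact ⟨_, hom_inr w w' hD⟩

/-- `l` is a list of graded primes that computes every additive function of `J` -/
def Dev (w : σ → ι) (J : Ideal (MvPolynomial σ Ω)) (l : List (Ideal (MvPolynomial σ Ω))) : Prop :=
  (∀ P ∈ l, P.IsPrime ∧ GrJ w P ∧ J ≤ P) ∧ ∀ c : Ideal (MvPolynomial σ Ω) → ℚ, c ⊤ = 0 →
    (∀ (I : Ideal (MvPolynomial σ Ω)) (d : ι → ℕ) (f : MvPolynomial σ Ω), J ≤ I → GrJ w I →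
      IsWeightedHomogeneous (bw w) f d → c I = c (I.colon {f}) + c (I ⊔ Ideal.span {f})) →
    c J = (l.map c).sum

theorem exists_dev [Finite σ] [Finite ι] {J : Ideal (MvPolynomial σ Ω)} (hJ : GrJ w J) :
    ∃ l, Dev w J l := by
  obtain ⟨l, hl, H⟩ := Pr.poly_primes (wN w) J fun f hf d => hJ d f hf
  exact ⟨l, fun P hP => ⟨(hl P hP).1, fun d f hf => (hl P hP).2.1 f hf d, (hl P hP).2.2⟩,
    fun c h0 hs => H ℚ c h0 fun I d f hI hI' hf => hs I d f hI (fun d f hf => hI' f hf d) hf⟩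

variable {τ κ Ch : Type} [IsAlgClosed Ω] [Finite σ] [Finite ρ] [Finite τ] [Fintype ι]
  [Fintype ι'] [DecidableEq κ] [Fintype κ] {v : τ → κ}
  {J : Ideal (MvPolynomial σ Ω)} {K : Ideal (MvPolynomial ρ Ω)}

theorem Dev.gr {l : List (Ideal (MvPolynomial σ Ω))} (H : Dev w J l)
    {G : Ch → τ → MvPolynomial σ Ω} {e : Ch → κ → ι → ℕ} (hb : Bpf w v G J)
    (hG : ∀ c j, IsWeightedHomogeneous (bw w) (G c j) (e c (v j)))
    (h : ∀ c c' i j, v i = v j → G c' j * G c i - G c' i * G c j ∈ J) {n : ℤ}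
    (hn : Dg (pI (Sum.map w v) (gr w v G J)) n) {s : ι ⊕ κ →₀ ℕ} (hs : n ≤ (s.degree : ℤ)) :
    nc s (pI (Sum.map w v) (gr w v G J)) =
      (l.map fun P => nc s (pI (Sum.map w v) (gr w v G P))).sum := by
  refine H.2 (fun P => nc s (pI (Sum.map w v) (Gr.gr w v G P))) ?_ fun I d f hI hI' hf => ?_
  · rw [gr_top, pI_top, map_zero]
  · exact nc_gr_exact (hb.mono hI) hI' hG (fun c c' i j hij => hI (h c c' i j hij)) hf
      (hn.pI_mono (grJ_gr J) (grJ_gr I) (gr_mono hI)) hs

variable {G : Ch → τ → MvPolynomial (σ ⊕ ρ) Ω} {e : Ch → κ → ι ⊕ ι' → ℕ}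

theorem Dev.left {l : List (Ideal (MvPolynomial σ Ω))} (H : Dev w J l) (hK : GrJ w' K)
    (hb : Bpf (Sum.map w w') v G (box J K))
    (hG : ∀ c j, IsWeightedHomogeneous (bw (Sum.map w w')) (G c j) (e c (v j)))
    (h : ∀ c c' i j, v i = v j → G c' j * G c i - G c' i * G c j ∈ box J K) {n : ℤ}
    (hn : Dg (pI (Sum.map (Sum.map w w') v) (Gr.gr (Sum.map w w') v G (box J K))) n)
    {s : (ι ⊕ ι') ⊕ κ →₀ ℕ} (hs : n ≤ (s.degree : ℤ)) :
    nc s (pI (Sum.map (Sum.map w w') v) (Gr.gr (Sum.map w w') v G (box J K))) =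
      (l.map fun P =>
        nc s (pI (Sum.map (Sum.map w w') v) (Gr.gr (Sum.map w w') v G (box P K)))).sum := by
  refine H.2 (fun P => nc s (pI (Sum.map (Sum.map w w') v)
    (Gr.gr (Sum.map w w') v G (box P K)))) ?_ fun I d f hI hI' hf => ?_
  · rw [box_top_left, gr_top, pI_top, map_zero]
  · have hl : box J K ≤ box I K := box_mono hI le_rfl
    rw [← box_colon_left, box_sup_left]
    exact nc_gr_exact (hb.mono hl) (grJ_box hI' hK) hG
      (fun c c' i j hij => hl (h c c' i j hij)) (hom_up w w' hf)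
      (hn.pI_mono (grJ_gr _) (grJ_gr _) (gr_mono hl)) hs

theorem Dev.right {l : List (Ideal (MvPolynomial ρ Ω))} (H : Dev w' K l) (hJ : GrJ w J)
    (hb : Bpf (Sum.map w w') v G (box J K))
    (hG : ∀ c j, IsWeightedHomogeneous (bw (Sum.map w w')) (G c j) (e c (v j)))
    (h : ∀ c c' i j, v i = v j → G c' j * G c i - G c' i * G c j ∈ box J K) {n : ℤ}
    (hn : Dg (pI (Sum.map (Sum.map w w') v) (Gr.gr (Sum.map w w') v G (box J K))) n)
    {s : (ι ⊕ ι') ⊕ κ →₀ ℕ} (hs : n ≤ (s.degree : ℤ)) :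
    nc s (pI (Sum.map (Sum.map w w') v) (Gr.gr (Sum.map w w') v G (box J K))) =
      (l.map fun Q =>
        nc s (pI (Sum.map (Sum.map w w') v) (Gr.gr (Sum.map w w') v G (box J Q)))).sum := by
  refine H.2 (fun Q => nc s (pI (Sum.map (Sum.map w w') v)
    (Gr.gr (Sum.map w w') v G (box J Q)))) ?_ fun I d f hI hI' hf => ?_
  · rw [box_top_right, gr_top, pI_top, map_zero]
  · have hl : box J K ≤ box J I := box_mono le_rfl hI
    rw [← box_colon_right, box_sup_right]
    exact nc_gr_exact (hb.mono hl) (grJ_box hJ hI') hG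
      (fun c c' i j hij => hl (h c c' i j hij)) (hom_inr w w' hf)
      (hn.pI_mono (grJ_gr _) (grJ_gr _) (gr_mono hl)) hs

/-- the double sum over the two lists -/
theorem Dev.both {l : List (Ideal (MvPolynomial σ Ω))} {l' : List (Ideal (MvPolynomial ρ Ω))}
    (H : Dev w J l) (H' : Dev w' K l') (hK : GrJ w' K)
    (hb : Bpf (Sum.map w w') v G (box J K))
    (hG : ∀ c j, IsWeightedHomogeneous (bw (Sum.map w w')) (G c j) (e c (v j)))
    (h : ∀ c c' i j, v i = v j → G c' j * G c i - G c' i * G c j ∈ box J K) {n : ℤ}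
    (hn : Dg (pI (Sum.map (Sum.map w w') v) (Gr.gr (Sum.map w w') v G (box J K))) n)
    {s : (ι ⊕ ι') ⊕ κ →₀ ℕ} (hs : n ≤ (s.degree : ℤ)) :
    nc s (pI (Sum.map (Sum.map w w') v) (Gr.gr (Sum.map w w') v G (box J K))) =
      (l.map fun P => (l'.map fun Q =>
        nc s (pI (Sum.map (Sum.map w w') v) (Gr.gr (Sum.map w w') v G (box P Q)))).sum).sum := by
  rw [H.left hK hb hG h hn hs]
  refine congrArg List.sum (List.map_congr_left fun P hP => ?_)
  have hl : box J K ≤ box P K := box_mono (H.1 P hP).2.2 le_rfl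
  exact H'.right (H.1 P hP).2.1 (hb.mono hl) hG (fun c c' i j hij => hl (h c c' i j hij))
    (hn.pI_mono (grJ_gr _) (grJ_gr _) (gr_mono hl)) hs

end Pool.Agent.Tav.Gr
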