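import Mathlib

/-! Devissage of homogeneous ideals to homogeneous primes. -/

set_option autoImplicit false

open MvPolynomial

namespace Pool.Agent.Tav.Pr

section general

variable {A M τ : Type*} [CommRing A] [AddCancelCommMonoid M] [DecidableEq M]
  [SetLike τ A] [AddSubmonoidClass τ A] (𝒜 : M → τ) [GradedRing 𝒜]

theorem hom_colon {I : Ideal A} (hI : I.IsHomogeneous 𝒜) {d : M} {f : A} (hf : f ∈ 𝒜 d) :
    Ideal.IsHomogeneous 𝒜 (I.colon {f}) := by
  intro e g hg
  rw [Submodule.mem_colon_singleton, smul_eq_mul] at hg ⊢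
  rw [← DirectSum.coe_decompose_mul_add_of_right_mem 𝒜 hf]
  exact hI _ hg

theorem hom_sup {I : Ideal A} (hI : I.IsHomogeneous 𝒜) {d : M} {f : A} (hf : f ∈ 𝒜 d) :
    Ideal.IsHomogeneous 𝒜 (I ⊔ Ideal.span {f}) :=
  hI.sup (Ideal.homogeneous_span 𝒜 _ fun x hx => by
    rw [Set.mem_singleton_iff] at hx
    exact ⟨d, hx ▸ hf⟩)

theorem le_colon (I : Ideal A) (f : A) : I ≤ I.colon {f} := fun x hx => by
  rw [Submodule.mem_colon_singleton, smul_eq_mul]
  exact I.mul_mem_right _ hx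

/-- The grading detects primes on homogeneous elements. -/
def Detects : Prop :=
  ∀ I : Ideal A, I.IsHomogeneous 𝒜 → I ≠ ⊤ →
    (∀ (d e : M) (x y : A), x ∈ 𝒜 d → y ∈ 𝒜 e → x * y ∈ I → x ∈ I ∨ y ∈ I) → I.IsPrime

theorem induction_on [IsNoetherianRing A] (hd : Detects 𝒜) (motive : Ideal A → Prop)
    (top : motive ⊤) (prime : ∀ P : Ideal A, P.IsHomogeneous 𝒜 → P.IsPrime → motive P)
    (step : ∀ (I : Ideal A) (d : M) (f : A), I.IsHomogeneous 𝒜 → f ∈ 𝒜 d → f ∉ I →
      I < I.colon {f} → motive (I.colon {f}) → motive (I ⊔ Ideal.span {f}) → motive I)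
    (J : Ideal A) (hJ : J.IsHomogeneous 𝒜) : motive J := by
  induction J using IsNoetherian.induction with
  | _ I ih =>
    by_cases ht : I = ⊤
    · exact ht ▸ top
    by_cases hp : Ideal.IsPrime I
    · exact prime I hJ hp
    have h1 : ¬ ∀ (d e : M) (x y : A), x ∈ 𝒜 d → y ∈ 𝒜 e → x * y ∈ I → x ∈ I ∨ y ∈ I :=
      fun h => hp (hd I hJ ht h)
    push Not at h1
    obtain ⟨d, e, x, y, hx, hy, hxy, hxI, hyI⟩ := h1
    have hlt : I < I.colon {x} := by
      refine lt_of_le_of_ne (le_colon I x) fun h => hyI ?_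
      rw [h, Submodule.mem_colon_singleton, smul_eq_mul, mul_comm]
      exact hxy
    have hlt2 : I < I ⊔ Ideal.span {x} := by
      refine lt_of_le_of_ne le_sup_left fun h => hxI ?_
      rw [h]
      exact Ideal.mem_sup_right (Ideal.mem_span_singleton_self x)
    exact step I d x hJ hx hxI hlt (ih _ hlt (hom_colon 𝒜 hJ hx)) (ih _ hlt2 (hom_sup 𝒜 hJ hx))

/-- One list of homogeneous primes above `J`, each with a shift, computes every additive
invariant. The shift records the degrees of the elements used in the colon steps. -/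
theorem exists_primes_shift [IsNoetherianRing A] (hd : Detects 𝒜) (J : Ideal A)
    (hJ : J.IsHomogeneous 𝒜) :
    ∃ l : List (Ideal A × M), (∀ P ∈ l, P.1.IsPrime ∧ P.1.IsHomogeneous 𝒜 ∧ J ≤ P.1) ∧
      ∀ (N : Type) [AddCommMonoid N] (c : Ideal A → M → N), (∀ s, c ⊤ s = 0) →
        (∀ (I : Ideal A) (d s : M) (f : A), J ≤ I → I.IsHomogeneous 𝒜 → f ∈ 𝒜 d →
          c I s = c (I.colon {f}) (s + d) + c (I ⊔ Ideal.span {f}) s) →
        ∀ s, c J s = (l.map fun P => c P.1 (s + P.2)).sum := by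
  refine induction_on 𝒜 hd (fun J => ∃ l : List (Ideal A × M),
    (∀ P ∈ l, P.1.IsPrime ∧ P.1.IsHomogeneous 𝒜 ∧ J ≤ P.1) ∧
      ∀ (N : Type) [AddCommMonoid N] (c : Ideal A → M → N), (∀ s, c ⊤ s = 0) →
        (∀ (I : Ideal A) (d s : M) (f : A), J ≤ I → I.IsHomogeneous 𝒜 → f ∈ 𝒜 d →
          c I s = c (I.colon {f}) (s + d) + c (I ⊔ Ideal.span {f}) s) →
        ∀ s, c J s = (l.map fun P => c P.1 (s + P.2)).sum) ?_ ?_ ?_ J hJ
  · exact ⟨[], by simp, fun N _ c h0 _ s => by simp [h0]⟩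
  · intro P hP hp
    refine ⟨[(P, 0)], ?_, fun N _ c _ _ s => by simp⟩
    intro Q hQ
    rw [List.mem_singleton] at hQ
    subst hQ
    exact ⟨hp, hP, le_rfl⟩
  · rintro I d f hI hf - - ⟨l₁, a₁, b₁⟩ ⟨l₂, a₂, b₂⟩
    refine ⟨l₁.map (fun P => (P.1, d + P.2)) ++ l₂, ?_, fun N _ c h0 hs s => ?_⟩
    · intro P hP
      rw [List.mem_append] at hP
      rcases hP with hP | hP
      · obtain ⟨Q, hQ, rfl⟩ := List.mem_map.1 hP
        exact ⟨(a₁ Q hQ).1, (a₁ Q hQ).2.1, (le_colon I f).trans (a₁ Q hQ).2.2⟩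
      · exact ⟨(a₂ P hP).1, (a₂ P hP).2.1, le_sup_left.trans (a₂ P hP).2.2⟩
    · rw [hs I d s f le_rfl hI hf,
        b₁ N c h0 (fun I' d s g h => hs I' d s g ((le_colon I f).trans h)) (s + d),
        b₂ N c h0 (fun I' d s g h => hs I' d s g (le_sup_left.trans h)) s,
        List.map_append, List.sum_append, List.map_map]
      congr 2
      apply List.map_congr_left
      intro P _
      simp [add_assoc]

/-- One list of homogeneous primes above `J` computes every additive invariant. -/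
theorem exists_primes [IsNoetherianRing A] (hd : Detects 𝒜) (J : Ideal A)
    (hJ : J.IsHomogeneous 𝒜) :
    ∃ l : List (Ideal A), (∀ P ∈ l, P.IsPrime ∧ P.IsHomogeneous 𝒜 ∧ J ≤ P) ∧
      ∀ (N : Type) [AddCommMonoid N] (c : Ideal A → N), c ⊤ = 0 →
        (∀ (I : Ideal A) (d : M) (f : A), J ≤ I → I.IsHomogeneous 𝒜 → f ∈ 𝒜 d →
          c I = c (I.colon {f}) + c (I ⊔ Ideal.span {f})) →
        c J = (l.map c).sum := by
  obtain ⟨l, a, b⟩ := exists_primes_shift 𝒜 hd J hJ
  refine ⟨l.map Prod.fst, ?_, fun N _ c h0 hs => ?_⟩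
  · intro P hP
    obtain ⟨Q, hQ, rfl⟩ := List.mem_map.1 hP
    exact a Q hQ
  · rw [List.map_map]
    exact b N (fun I _ => c I) (fun _ => h0) (fun I d _ f h hI hf => hs I d f h hI hf) 0

theorem detects_of_order [LinearOrder M] [IsOrderedCancelAddMonoid M] : Detects 𝒜 := by
  intro I hI ht h
  have e : (inferInstance : DecidableEq M) = LinearOrder.toDecidableEq := Subsingleton.elim _ _
  subst e
  exact hI.isPrime_of_homogeneous_mem_or_mem ht fun ⟨d, hx⟩ ⟨e, hy⟩ hxy => h d e _ _ hx hy hxy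

end general

theorem detects_pi {A τ ι : Type*} [CommRing A] [Finite ι] [DecidableEq (ι → ℕ)]
    [SetLike τ A] [AddSubmonoidClass τ A] (𝒜 : (ι → ℕ) → τ) [GradedRing 𝒜] : Detects 𝒜 := by
  classical
  obtain ⟨o, ho⟩ := exists_wellFoundedLT ι
  exact @detects_of_order A (ι → ℕ) τ _ _ _ _ _ 𝒜 _
    (inferInstance : LinearOrder (Lex (ι → ℕ)))
    (inferInstance : IsOrderedCancelAddMonoid (Lex (ι → ℕ)))

section poly

variable {σ R M : Type*} [CommRing R] [AddCancelCommMonoid M]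

/-- `J` holds the components, for the weight `w`, of each of its members. -/
def Hom (w : σ → M) (J : Ideal (MvPolynomial σ R)) : Prop :=
  ∀ f ∈ J, ∀ d, weightedHomogeneousComponent w d f ∈ J

attribute [local instance] MvPolynomial.weightedGradedAlgebra

theorem hom_iff [DecidableEq M] (w : σ → M) (J : Ideal (MvPolynomial σ R)) :
    Hom w J ↔ J.IsHomogeneous (weightedHomogeneousSubmodule R w) := by
  constructor
  · intro h d f hf
    have := h f hf d
    rwa [← weightedDecomposition.decompose'_apply] at this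
  · intro h f hf d
    exact weightedHomogeneousComponent_mem_of_mem R w h hf d

theorem Hom.top (w : σ → M) : Hom w (⊤ : Ideal (MvPolynomial σ R)) := fun _ _ _ => trivial

theorem Hom.colon {w : σ → M} {J : Ideal (MvPolynomial σ R)} (h : Hom w J) {d : M}
    {f : MvPolynomial σ R} (hf : IsWeightedHomogeneous w f d) : Hom w (J.colon {f}) := by
  classical
  rw [hom_iff] at h ⊢
  exact hom_colon _ h (d := d) hf

theorem Hom.sup_span {w : σ → M} {J : Ideal (MvPolynomial σ R)} (h : Hom w J) {d : M}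
    {f : MvPolynomial σ R} (hf : IsWeightedHomogeneous w f d) :
    Hom w (J ⊔ Ideal.span {f}) := by
  classical
  rw [hom_iff] at h ⊢
  exact hom_sup _ h (d := d) hf

theorem Hom.sup {w : σ → M} {I J : Ideal (MvPolynomial σ R)} (hI : Hom w I) (hJ : Hom w J) :
    Hom w (I ⊔ J) := by
  classical
  rw [hom_iff] at hI hJ ⊢
  exact hI.sup hJ

theorem Hom.span {w : σ → M} {s : Set (MvPolynomial σ R)}
    (h : ∀ f ∈ s, ∃ d, IsWeightedHomogeneous w f d) : Hom w (Ideal.span s) := by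
  classical
  rw [hom_iff]
  exact Ideal.homogeneous_span _ _ fun x hx => h x hx

variable {ι : Type*} [Finite ι] [Finite σ] [IsNoetherianRing R]

omit [Finite σ] [IsNoetherianRing R] in
theorem Hom.isPrime {w : σ → ι → ℕ} {J : Ideal (MvPolynomial σ R)} (h : Hom w J) (ht : J ≠ ⊤)
    (hm : ∀ (d e : ι → ℕ) (x y : MvPolynomial σ R), IsWeightedHomogeneous w x d →
      IsWeightedHomogeneous w y e → x * y ∈ J → x ∈ J ∨ y ∈ J) : J.IsPrime := by
  classical
  rw [hom_iff] at h
  exact detects_pi _ J h ht hm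

theorem poly_induction (w : σ → ι → ℕ) (motive : Ideal (MvPolynomial σ R) → Prop)
    (top : motive ⊤) (prime : ∀ P, Hom w P → P.IsPrime → motive P)
    (step : ∀ (I : Ideal (MvPolynomial σ R)) (d : ι → ℕ) (f : MvPolynomial σ R), Hom w I →
      IsWeightedHomogeneous w f d → f ∉ I → I < I.colon {f} → motive (I.colon {f}) →
      motive (I ⊔ Ideal.span {f}) → motive I)
    (J : Ideal (MvPolynomial σ R)) (hJ : Hom w J) : motive J := by
  classical
  exact induction_on (weightedHomogeneousSubmodule R w) (detects_pi _) motive top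
    (fun P hP hp => prime P ((hom_iff w P).2 hP) hp)
    (fun I d f hI hf => step I d f ((hom_iff w I).2 hI) hf) J ((hom_iff w J).1 hJ)

theorem poly_primes_shift (w : σ → ι → ℕ) (J : Ideal (MvPolynomial σ R)) (hJ : Hom w J) :
    ∃ l : List (Ideal (MvPolynomial σ R) × (ι → ℕ)),
      (∀ P ∈ l, P.1.IsPrime ∧ Hom w P.1 ∧ J ≤ P.1) ∧
      ∀ (N : Type) [AddCommMonoid N] (c : Ideal (MvPolynomial σ R) → (ι → ℕ) → N),
        (∀ s, c ⊤ s = 0) →
        (∀ (I : Ideal (MvPolynomial σ R)) (d s : ι → ℕ) (f : MvPolynomial σ R), J ≤ I → Hom w I →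
          IsWeightedHomogeneous w f d →
          c I s = c (I.colon {f}) (s + d) + c (I ⊔ Ideal.span {f}) s) →
        ∀ s, c J s = (l.map fun P => c P.1 (s + P.2)).sum := by
  classical
  obtain ⟨l, a, b⟩ := exists_primes_shift (weightedHomogeneousSubmodule R w) (detects_pi _) J
    ((hom_iff w J).1 hJ)
  exact ⟨l, fun P hP => ⟨(a P hP).1, (hom_iff w _).2 (a P hP).2.1, (a P hP).2.2⟩,
    fun N _ c h0 hs => b N c h0 fun I d s f h hI hf => hs I d s f h ((hom_iff w I).2 hI) hf⟩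

theorem poly_primes (w : σ → ι → ℕ) (J : Ideal (MvPolynomial σ R)) (hJ : Hom w J) :
    ∃ l : List (Ideal (MvPolynomial σ R)), (∀ P ∈ l, P.IsPrime ∧ Hom w P ∧ J ≤ P) ∧
      ∀ (N : Type) [AddCommMonoid N] (c : Ideal (MvPolynomial σ R) → N), c ⊤ = 0 →
        (∀ (I : Ideal (MvPolynomial σ R)) (d : ι → ℕ) (f : MvPolynomial σ R), J ≤ I → Hom w I →
          IsWeightedHomogeneous w f d → c I = c (I.colon {f}) + c (I ⊔ Ideal.span {f})) →
        c J = (l.map c).sum := by
  classical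
  obtain ⟨l, a, b⟩ := exists_primes (weightedHomogeneousSubmodule R w) (detects_pi _) J
    ((hom_iff w J).1 hJ)
  exact ⟨l, fun P hP => ⟨(a P hP).1, (hom_iff w _).2 (a P hP).2.1, (a P hP).2.2⟩,
    fun N _ c h0 hs => b N c h0 fun I d f h hI hf => hs I d f h ((hom_iff w I).2 hI) hf⟩

end poly

end Pool.Agent.Tav.Pr
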