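import Pool.Agent.P.MP_2ce3e7_ag.Tav.Graph
import Pool.Agent.P.MP_2ce3e7_ag.Tav.HPol
import Pool.Agent.P.MP_2ce3e7_ag.Tav.Primes

/-! The Hilbert polynomial of a graph: points, dimension, additivity. -/

set_option autoImplicit false

noncomputable section

namespace Pool.Agent.Tav.Gr

open MvPolynomial Module

section Ring

variable {R A σ τ ι κ Ch : Type} [CommRing R] [CommRing A] [Algebra R A]

/-- substitution of forms into a form gives a form -/
theorem hom_aeval {M M' : Type} [AddCommMonoid M] [AddCommMonoid M'] {W : σ → M} {W' : τ → M'}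
    (φ : M →+ M') {g : σ → MvPolynomial τ R} (hg : ∀ s, IsWeightedHomogeneous W' (g s) (φ (W s)))
    {u : MvPolynomial σ R} {D : M} (hu : IsWeightedHomogeneous W u D) :
    IsWeightedHomogeneous W' (aeval g u) (φ D) := by
  rw [u.as_sum, map_sum]
  refine IsWeightedHomogeneous.sum _ _ _ fun m hm => ?_
  rw [← hu (mem_support_iff.1 hm), aeval_monomial, Finsupp.weight_apply, Finsupp.sum, map_sum,
    Finsupp.prod, ← zero_add (∑ s ∈ m.support, φ (m s • W s))]
  refine (isWeightedHomogeneous_C W' _).mul (IsWeightedHomogeneous.prod _ _ _ fun s _ => ?_)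
  rw [map_nsmul]
  exact (hg s).pow _

variable [DecidableEq ι] [DecidableEq κ]

/-- scaling the blocks of a point -/
theorem aeval_scale [Fintype ι] (β : σ → ι) (μ : ι → A) (x : σ → A) {u : MvPolynomial σ R}
    {D : ι → ℕ} (hu : IsWeightedHomogeneous (bw β) u D) :
    aeval (fun s => μ (β s) * x s) u = (∏ i, μ i ^ D i) * aeval x u := by
  have key : ∀ m : σ →₀ ℕ, (m.prod fun s k => μ (β s) ^ k) =
      ∏ i, μ i ^ Finsupp.weight (bw β) m i := by
    intro m
    induction m using Finsupp.induction_linear with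
    | zero => simp
    | add a b ha hb =>
      rw [Finsupp.prod_add_index' (fun _ => pow_zero _) fun _ _ _ => pow_add _ _ _, ha, hb,
        map_add, ← Finset.prod_mul_distrib]
      exact Finset.prod_congr rfl fun i _ => (pow_add _ _ _).symm
    | single s k =>
      rw [Finsupp.prod_single_index (h := fun s k => μ (β s) ^ k) (pow_zero _),
        Finsupp.weight_single, Finset.prod_eq_single (β s)]
      · simp [bw]
      · intro i _ hi
        simp [bw, hi]
      · intro h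
        exact absurd (Finset.mem_univ _) h
  rw [u.as_sum, map_sum, map_sum, Finset.mul_sum]
  refine Finset.sum_congr rfl fun m hm => ?_
  rw [← hu (mem_support_iff.1 hm), ← key, aeval_monomial, aeval_monomial, mul_left_comm,
    ← Finsupp.prod_mul]
  simp only [mul_pow]

/-- the degree of a form after substitution of a chart of degrees `e` -/
def dgE [Fintype κ] (e : κ → ι → ℕ) : (ι ⊕ κ → ℕ) →+ (ι → ℕ) where
  toFun D := (fun i => D (Sum.inl i)) + ∑ b, D (Sum.inr b) • e b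
  map_zero' := by
    funext i
    simp
  map_add' D E := by
    funext i
    simp only [Pi.add_apply, Finset.sum_apply, Pi.smul_apply, smul_eq_mul, add_mul,
      Finset.sum_add_distrib]
    ring

omit [DecidableEq ι] [DecidableEq κ] in
theorem dgE_apply [Fintype κ] (e : κ → ι → ℕ) (D : ι ⊕ κ → ℕ) (i : ι) :
    dgE e D i = D (Sum.inl i) + ∑ b, D (Sum.inr b) * e b i := by
  simp [dgE]

theorem hom_ev [Fintype κ] {w : σ → ι} {v : τ → κ} {g : τ → MvPolynomial σ R} {e : κ → ι → ℕ}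
    (hg : ∀ j, IsWeightedHomogeneous (bw w) (g j) (e (v j))) {u : MvPolynomial (σ ⊕ τ) R}
    {D : ι ⊕ κ → ℕ} (hu : IsWeightedHomogeneous (bw (Sum.map w v)) u D) :
    IsWeightedHomogeneous (bw w) (ev g u) (dgE e D) := by
  refine hom_aeval (dgE e) (fun z => ?_) hu
  rcases z with s | j
  · have : dgE e (bw (Sum.map w v) (Sum.inl s)) = bw w s := by
      funext i
      simp [dgE_apply, bw_inl]
    rw [this]
    exact isWeightedHomogeneous_X R _ s
  · have : dgE e (bw (Sum.map w v) (Sum.inr j)) = e (v j) := by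
      funext i
      simp [dgE_apply, bw, Pi.single_apply]
    rw [this]
    exact hg j

omit [DecidableEq ι] [DecidableEq κ] in
theorem aeval_ev (x : σ → A) (g : τ → MvPolynomial σ R) (u : MvPolynomial (σ ⊕ τ) R) :
    aeval x (ev g u) = aeval (Sum.elim x fun j => aeval x (g j)) u := by
  rw [ev, ← AlgHom.comp_apply, comp_aeval]
  congr 2
  funext z
  rcases z with s | j
  · exact aeval_X _ _
  · rfl

/-- value of a chart substitution at a point where the chart is a multiple of `p` -/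
theorem aeval_ev_scale [Fintype ι] [Fintype κ] {w : σ → ι} {v : τ → κ} (x : σ → A) (p : τ → A)
    (μ : κ → A) {g : τ → MvPolynomial σ R} (h : ∀ j, aeval x (g j) = μ (v j) * p j)
    {u : MvPolynomial (σ ⊕ τ) R} {D : ι ⊕ κ → ℕ}
    (hu : IsWeightedHomogeneous (bw (Sum.map w v)) u D) :
    aeval x (ev g u) = (∏ b, μ b ^ D (Sum.inr b)) * aeval (Sum.elim x p) u := by
  have h1 := aeval_scale (Sum.map w v) (Sum.elim (fun _ => (1 : A)) μ) (Sum.elim x p) hu
  rw [Fintype.prod_sum_type] at h1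
  simp only [Sum.elim_inl, Sum.elim_inr, one_pow, Finset.prod_const_one, one_mul] at h1
  rw [aeval_ev, ← h1]
  congr 2
  funext z
  rcases z with s | j
  · simp
  · simp [h]

end Ring

variable {Ω σ τ ι κ Ch T : Type} [Field Ω] [DecidableEq ι] [DecidableEq κ] [Fintype ι]
  [Fintype κ] {w : σ → ι} {v : τ → κ} {G : Ch → τ → MvPolynomial σ Ω} {e : Ch → κ → ι → ℕ}

omit [Fintype ι] in
theorem bw_eq_wN (β : σ → ι) : bw β = wN β := rfl

omit [Fintype ι] [Fintype κ] in
theorem grJ_gr (J : Ideal (MvPolynomial σ Ω)) : GrJ (Sum.map w v) (gr w v G J) :=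
  fun D _ hu => cmp_mem_gr hu D

omit [DecidableEq ι] [DecidableEq κ] [Fintype ι] [Fintype κ] in
/-- proportional vectors, block by block -/
theorem exists_scale (y p : τ → Ω) (h : ∀ i j, v i = v j → y i * p j = y j * p i)
    (h0 : ∀ b, ∃ j, v j = b ∧ p j ≠ 0) : ∃ μ : κ → Ω, ∀ j, y j = μ (v j) * p j := by
  choose i hi hne using h0
  refine ⟨fun b => y (i b) / p (i b), fun j => ?_⟩
  rw [div_mul_eq_mul_div, eq_div_iff (hne _)]
  exact (h _ _ (hi _)).symm

/-- a form lies in the graph ideal iff it vanishes on the graph -/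
theorem mem_gr_pt {J : Ideal (MvPolynomial σ Ω)} (x : T → σ → Ω) (p : T → τ → Ω)
    (hJ : ∀ f d, IsWeightedHomogeneous (bw w) f d → (f ∈ J ↔ ∀ t, eval (x t) f = 0))
    (hG : ∀ c j, IsWeightedHomogeneous (bw w) (G c j) (e c (v j)))
    (hp : ∀ t c i j, v i = v j → eval (x t) (G c i) * p t j = eval (x t) (G c j) * p t i)
    (h0 : ∀ t b, ∃ j, v j = b ∧ p t j ≠ 0)
    (hb : ∀ t, ∃ c, ∀ b, ∃ j, v j = b ∧ eval (x t) (G c j) ≠ 0)
    {u : MvPolynomial (σ ⊕ τ) Ω} {D : ι ⊕ κ → ℕ}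
    (hu : IsWeightedHomogeneous (bw (Sum.map w v)) u D) :
    u ∈ gr w v G J ↔ ∀ t, eval (Sum.elim (x t) (p t)) u = 0 := by
  choose μ hμ using fun t c => exists_scale (fun j => eval (x t) (G c j)) (p t) (hp t c) (h0 t)
  have key : ∀ t c, eval (x t) (ev (G c) u) =
      (∏ b, μ t c b ^ D (Sum.inr b)) * eval (Sum.elim (x t) (p t)) u := fun t c =>
    aeval_ev_scale (x t) (p t) (μ t c) (hμ t c) hu
  rw [mem_gr hu]
  constructor
  · intro h t
    obtain ⟨c, hc⟩ := hb t
    have h1 := (hJ _ _ (hom_ev (hG c) hu)).1 (h c) t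
    rw [key] at h1
    refine (mul_eq_zero.1 h1).resolve_left (Finset.prod_ne_zero_iff.2 fun b _ =>
      pow_ne_zero _ fun h2 => ?_)
    obtain ⟨j, rfl, hj⟩ := hc b
    exact hj (by rw [hμ t c j, h2, zero_mul])
  · intro h c
    exact (hJ _ _ (hom_ev (hG c) hu)).2 fun t => by rw [key, h t, mul_zero]

omit [DecidableEq ι] [DecidableEq κ] [Fintype ι] [Fintype κ] in
theorem aeval_fun (y : σ → T → Ω) (u : MvPolynomial σ Ω) (t : T) :
    aeval y u t = eval (fun s => y s t) u := by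
  induction u using MvPolynomial.induction_on with
  | C a => simp
  | add p q hp hq => simp only [map_add, Pi.add_apply, hp, hq]
  | mul_X p s hp => simp only [map_mul, Pi.mul_apply, hp, aeval_X, eval_X]

variable [Finite σ] [Finite τ]

/-- the Hilbert function of the graph ideal is that of the coordinate spaces -/
theorem hI_gr_pt {J : Ideal (MvPolynomial σ Ω)} (x : T → σ → Ω) (p : T → τ → Ω)
    (hJ : ∀ f d, IsWeightedHomogeneous (bw w) f d → (f ∈ J ↔ ∀ t, eval (x t) f = 0))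
    (hG : ∀ c j, IsWeightedHomogeneous (bw w) (G c j) (e c (v j)))
    (hp : ∀ t c i j, v i = v j → eval (x t) (G c i) * p t j = eval (x t) (G c j) * p t i)
    (h0 : ∀ t b, ∃ j, v j = b ∧ p t j ≠ 0)
    (hb : ∀ t, ∃ c, ∀ b, ∃ j, v j = b ∧ eval (x t) (G c j) ≠ 0) (D : ι ⊕ κ → ℕ) :
    hI (Sum.map w v) (gr w v G J) D =
      hf (blk Ω (Sum.map w v) fun z t => Sum.elim (x t) (p t) z) D := by
  rw [hf, ← hI_kerG]
  refine hI_congr fun u hu => ?_
  rw [mem_gr_pt x p hJ hG hp h0 hb hu, mem_kerG hu, funext_iff]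
  exact forall_congr' fun t => by rw [aeval_fun]; rfl

theorem pI_gr_pt {J : Ideal (MvPolynomial σ Ω)} (x : T → σ → Ω) (p : T → τ → Ω)
    (hJ : ∀ f d, IsWeightedHomogeneous (bw w) f d → (f ∈ J ↔ ∀ t, eval (x t) f = 0))
    (hG : ∀ c j, IsWeightedHomogeneous (bw w) (G c j) (e c (v j)))
    (hp : ∀ t c i j, v i = v j → eval (x t) (G c i) * p t j = eval (x t) (G c j) * p t i)
    (h0 : ∀ t b, ∃ j, v j = b ∧ p t j ≠ 0)
    (hb : ∀ t, ∃ c, ∀ b, ∃ j, v j = b ∧ eval (x t) (G c j) ≠ 0) :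
    pI (Sum.map w v) (gr w v G J) =
      pf (blk Ω (Sum.map w v) fun z t => Sum.elim (x t) (p t) z) :=
  hP_congr (Lg.of_forall fun D => hI_gr_pt x p hJ hG hp h0 hb D)

omit [Fintype ι] in
/-- the graph embeds into the product of the charts -/
theorem hI_gr_le [Fintype Ch] (J : Ideal (MvPolynomial σ Ω))
    (hG : ∀ c j, IsWeightedHomogeneous (bw w) (G c j) (e c (v j))) (D : ι ⊕ κ → ℕ) :
    hI (Sum.map w v) (gr w v G J) D ≤ ∑ c, hI w J (dgE (e c) D) := by
  let q : MvPolynomial (σ ⊕ τ) Ω →ₗ[Ω] (Ch → MvPolynomial σ Ω ⧸ J) :=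
    LinearMap.pi fun c => ((Ideal.Quotient.mkₐ Ω J).comp (ev (G c))).toLinearMap
  rw [hI_eq q fun u hu => (mem_gr hu).trans (by
    rw [funext_iff]
    exact forall_congr' fun c => Ideal.Quotient.eq_zero_iff_mem.symm)]
  let U : Ch → Submodule Ω (MvPolynomial σ Ω ⧸ J) := fun c =>
    (Sd Ω w (dgE (e c) D)).map (Ideal.Quotient.mkₐ Ω J).toLinearMap
  let r : (∀ c, U c) →ₗ[Ω] (Ch → MvPolynomial σ Ω ⧸ J) :=
    LinearMap.pi fun c => (U c).subtype.comp (LinearMap.proj c)
  have h1 : (Sd Ω (Sum.map w v) D).map q ≤ LinearMap.range r := by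
    rintro _ ⟨u, hu, rfl⟩
    exact ⟨fun c => ⟨_, ev (G c) u, hom_ev (hG c) hu, rfl⟩, rfl⟩
  refine (Submodule.finrank_mono h1).trans ((LinearMap.finrank_range_le r).trans ?_)
  rw [Module.finrank_pi_fintype]
  exact le_rfl

/-- the graph has at most the dimension of the base -/
theorem dg_gr [Finite Ch] {J : Ideal (MvPolynomial σ Ω)} (hJ : GrJ w J)
    (hG : ∀ c j, IsWeightedHomogeneous (bw w) (G c j) (e c (v j))) {n : ℤ}
    (h : Dg (pI w J) n) : Dg (pI (Sum.map w v) (gr w v G J)) n := by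
  cases nonempty_fintype Ch
  let l : Ch → ι → MvPolynomial (ι ⊕ κ) ℚ := fun c i =>
    X (Sum.inl i) + ∑ b, C (e c b i : ℚ) * X (Sum.inr b)
  have hl : ∀ c i, Dg (l c i) 1 := fun c i =>
    (dg_X _).add (Dg.sum fun b _ => (dg_X _).C_mul _)
  have h1 : ∀ c, Dg (aeval (l c) (pI w J)) n := by
    intro c
    rw [(pI w J).as_sum, map_sum]
    refine Dg.sum fun s hs => ?_
    have hs' : (s.degree : ℤ) ≤ n := not_lt.1 fun hc => mem_support_iff.1 hs (h s hc)
    rw [aeval_monomial, algebraMap_eq]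
    refine Dg.mono (Dg.C_mul ?_ _) hs'
    clear hs hs'
    induction s using deg_induction with
    | h0 => simpa using dg_C (ι := ι ⊕ κ) 1
    | h1 s i ih =>
      rw [Finsupp.prod_add_index' (h := fun i k => l c i ^ k) (fun _ => pow_zero _)
        fun _ _ _ => pow_add _ _ _, Finsupp.prod_single_index (h := fun i k => l c i ^ k)
        (pow_zero _), pow_one, map_add, Finsupp.degree_single]
      exact_mod_cast ih.mul (hl c i)
  have h2 : ∀ c D, evN D (aeval (l c) (pI w J)) = evN (dgE (e c) D) (pI w J) := by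
    intro c D
    rw [evN, eval_aev, evN]
    congr 2
    funext i
    simp [l, dgE_apply, mul_comm]
  obtain ⟨N, hN⟩ := evP_pI hJ
  have h3 : EvP (fun D => ((∑ c, hI w J (dgE (e c) D) : ℕ) : ℚ))
      (∑ c, aeval (l c) (pI w J)) := ⟨N, fun D hD => by
    beta_reduce
    rw [map_sum, Nat.cast_sum]
    refine Finset.sum_congr rfl fun c _ => (h2 c D).trans (hN _ fun i => ?_)
    rw [dgE_apply]
    exact (hD _).trans (Nat.le_add_right _ _)⟩
  exact (evP_pI (grJ_gr J)).dg_of_le h3 (Dg.sum fun c _ => h1 c) (Lg.of_forall fun D =>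
    ⟨Nat.cast_nonneg _, Nat.cast_le.2 (hI_gr_le J hG D)⟩)

variable [IsAlgClosed Ω]

theorem pI_gr_sup {J : Ideal (MvPolynomial σ Ω)} (hb : Bpf w v G J) (hJ : GrJ w J)
    (hG : ∀ c j, IsWeightedHomogeneous (bw w) (G c j) (e c (v j)))
    (h : ∀ c c' i j, v i = v j → G c' j * G c i - G c' i * G c j ∈ J)
    (J' : Ideal (MvPolynomial σ Ω)) : pI (Sum.map w v) (gr w v G (J ⊔ J')) =
      pI (Sum.map w v) (gr w v G J ⊔ J'.map (up (τ := τ))) := by
  obtain ⟨N, hN⟩ := gr_sup (J' := J') hb (fun f hf d => hJ d f hf) hG h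
  exact pI_congr ⟨N, fun D hD u hu => hN D (fun i => hD _) u hu⟩

theorem pI_gr_minors {J : Ideal (MvPolynomial σ Ω)} (hb : Bpf w v G J)
    (h : ∀ c c' i j, v i = v j → G c' j * G c i - G c' i * G c j ∈ J) :
    pI (Sum.map w v) (gr w v G J) = pI (Sum.map w v) (J.map (up (τ := τ)) ⊔ minors v G) := by
  obtain ⟨N, hN⟩ := gr_eq_minors hb h
  exact pI_congr ⟨N, fun D hD u hu => hN D (fun i => hD _) u hu⟩

/-- the exact sequence of a form on the base, seen on the graph -/
theorem pI_gr_exact {J : Ideal (MvPolynomial σ Ω)} (hb : Bpf w v G J) (hJ : GrJ w J)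
    (hG : ∀ c j, IsWeightedHomogeneous (bw w) (G c j) (e c (v j)))
    (h : ∀ c c' i j, v i = v j → G c' j * G c i - G c' i * G c j ∈ J)
    {f : MvPolynomial σ Ω} {d : ι → ℕ} (hf : IsWeightedHomogeneous (bw w) f d) :
    pI (Sum.map w v) (gr w v G J) =
      sh (fun z => -((Sum.elim d (0 : κ → ℕ) z : ℕ) : ℚ))
        (pI (Sum.map w v) (gr w v G (J.colon {f}))) +
      pI (Sum.map w v) (gr w v G (J ⊔ Ideal.span {f})) := by
  rw [pI_gr_sup hb hJ hG h, Ideal.map_span, Set.image_singleton, ← gr_colon hf]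
  exact pI_exact (grJ_gr J) (hom_up w v hf)

theorem nc_gr_exact {J : Ideal (MvPolynomial σ Ω)} (hb : Bpf w v G J) (hJ : GrJ w J)
    (hG : ∀ c j, IsWeightedHomogeneous (bw w) (G c j) (e c (v j)))
    (h : ∀ c c' i j, v i = v j → G c' j * G c i - G c' i * G c j ∈ J)
    {f : MvPolynomial σ Ω} {d : ι → ℕ} (hf : IsWeightedHomogeneous (bw w) f d) {n : ℤ}
    (hn : Dg (pI (Sum.map w v) (gr w v G J)) n) {s : ι ⊕ κ →₀ ℕ} (hs : n ≤ (s.degree : ℤ)) :
    nc s (pI (Sum.map w v) (gr w v G J)) =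
      nc s (pI (Sum.map w v) (gr w v G (J.colon {f}))) +
      nc s (pI (Sum.map w v) (gr w v G (J ⊔ Ideal.span {f}))) := by
  rw [pI_gr_sup hb hJ hG h, Ideal.map_span, Set.image_singleton, ← gr_colon hf]
  exact nc_exact (grJ_gr J) (hom_up w v hf) hn hs

omit [DecidableEq κ] [Fintype κ] [Finite τ] in
/-- one list of primes serves all systems of charts -/
theorem dev (J : Ideal (MvPolynomial σ Ω)) (hJ : GrJ w J) :
    ∃ l : List (Ideal (MvPolynomial σ Ω)), (∀ P ∈ l, P.IsPrime ∧ GrJ w P ∧ J ≤ P) ∧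
      ∀ (τ κ Ch : Type) [Finite τ] [DecidableEq κ] [Fintype κ] (v : τ → κ)
        (G : Ch → τ → MvPolynomial σ Ω) (e : Ch → κ → ι → ℕ), Bpf w v G J →
        (∀ c j, IsWeightedHomogeneous (bw w) (G c j) (e c (v j))) →
        (∀ c c' i j, v i = v j → G c' j * G c i - G c' i * G c j ∈ J) →
        ∀ (n : ℤ) (s : ι ⊕ κ →₀ ℕ), Dg (pI (Sum.map w v) (gr w v G J)) n → n ≤ (s.degree : ℤ) →
          nc s (pI (Sum.map w v) (gr w v G J)) =
            (l.map fun P => nc s (pI (Sum.map w v) (gr w v G P))).sum := by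
  obtain ⟨l, hl, H⟩ := Pr.poly_primes (wN w) J fun f hf d => hJ d f hf
  refine ⟨l, fun P hP => ⟨(hl P hP).1, fun d f hf => (hl P hP).2.1 f hf d, (hl P hP).2.2⟩, ?_⟩
  intro τ κ Ch _ _ _ v G e hb hG h n s hn hs
  refine H ℚ (fun P => nc s (pI (Sum.map w v) (gr w v G P))) ?_ fun I d f hI hI' hf => ?_
  · rw [gr_top, pI_top, map_zero]
  · exact nc_gr_exact (hb.mono hI) (fun d f hf => hI' f hf d) hG
      (fun c c' i j hij => hI (h c c' i j hij)) hf
      (hn.pI_mono (grJ_gr J) (grJ_gr I) (gr_mono hI)) hs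

end Pool.Agent.Tav.Gr
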