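import Pool.Agent.P.MP_2ce3e7_ag.Tav.Sp
import Pool.Agent.P.MP_2ce3e7_ag.Tav.GrPt
import Pool.Agent.P.MP_2ce3e7_ag.Tav.GDefs

/-! Ideals of families of points: products, points of a prime. -/

set_option autoImplicit false

noncomputable section

namespace Pool.Agent.Tav.Sp

open MvPolynomial

variable {K σ τ β γ T U : Type} [Field K] [DecidableEq β] [DecidableEq γ]

/-- `J` vanishes at the points `x t` and contains the forms that vanish there -/
structure IsI (w : σ → β) (x : T → σ → K) (J : Ideal (MvPolynomial σ K)) : Prop where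
  van : ∀ f ∈ J, ∀ t, eval (x t) f = 0
  mem : ∀ f d, f ∈ Sd K w d → (∀ t, eval (x t) f = 0) → f ∈ J

theorem IsI.iff {w : σ → β} {x : T → σ → K} {J : Ideal (MvPolynomial σ K)} (h : IsI w x J)
    (f : MvPolynomial σ K) (d : β → ℕ) (hf : IsWeightedHomogeneous (Gr.bw w) f d) :
    f ∈ J ↔ ∀ t, eval (x t) f = 0 := ⟨h.van f, h.mem f d hf⟩

theorem isI_kerG (w : σ → β) (x : T → σ → K) : IsI w x (kerG K w fun v t => x t v) :=
  ⟨fun f hf t => by
    have := congrFun (aeval_of_mem_kerG hf) t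
    rwa [Gr.aeval_fun] at this,
  fun f d hf h => (mem_kerG hf).2 (funext fun t => by rw [Gr.aeval_fun]; exact h t)⟩

theorem IsI.hI_eq [Finite σ] [Fintype β] {w : σ → β} {x : T → σ → K}
    {J : Ideal (MvPolynomial σ K)} (h : IsI w x J) (d : β → ℕ) :
    hI w J d = hf (blk K w fun v t => x t v) d := by
  rw [hf, ← hI_kerG]
  exact hI_congr fun f hf => (h.iff f d hf).trans ((isI_kerG w x).iff f d hf).symm

theorem IsI.pI_eq [Finite σ] [Fintype β] {w : σ → β} {x : T → σ → K}
    {J : Ideal (MvPolynomial σ K)} (h : IsI w x J) : pI w J = pf (blk K w fun v t => x t v) :=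
  hP_congr (Lg.of_forall h.hI_eq)

theorem weight_cl [Finite σ] [Finite τ] (w : σ → β) (v : τ → γ) (s : σ ⊕ τ →₀ ℕ) :
    Finsupp.weight (wN w) (s.comapDomain Sum.inl Sum.inl_injective.injOn) =
      (fun i => Finsupp.weight (wN (Sum.map w v)) s (Sum.inl i)) ∧
    Finsupp.weight (wN v) (s.comapDomain Sum.inr Sum.inr_injective.injOn) =
      fun i => Finsupp.weight (wN (Sum.map w v)) s (Sum.inr i) := by
  cases nonempty_fintype σ
  cases nonempty_fintype τ
  constructor <;> funext i <;> simp [weight_wN, Finset.sum_filter]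

theorem exists_decH [Finite σ] [Finite τ] {w : σ → β} {v : τ → γ} {F : MvPolynomial (σ ⊕ τ) K}
    {D : β ⊕ γ → ℕ} (hF : F ∈ Sd K (Sum.map w v) D) :
    ∃ (M : Finset (σ →₀ ℕ)) (h : (σ →₀ ℕ) → MvPolynomial τ K),
      F = ∑ m ∈ M, rename Sum.inl (monomial m (1 : K)) * rename Sum.inr (h m) ∧
      (∀ m ∈ M, Finsupp.weight (wN w) m = fun i => D (Sum.inl i)) ∧
      (∀ m, h m ∈ Sd K v fun i => D (Sum.inr i)) ∧ ∀ m ∉ M, h m = 0 := by
  classical
  let a : (σ ⊕ τ →₀ ℕ) → σ →₀ ℕ := fun s => s.comapDomain Sum.inl Sum.inl_injective.injOn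
  let b : (σ ⊕ τ →₀ ℕ) → τ →₀ ℕ := fun s => s.comapDomain Sum.inr Sum.inr_injective.injOn
  refine ⟨F.support.image a, fun m => ∑ s ∈ F.support with a s = m, monomial (b s) (coeff s F),
    ?_, ?_, fun m => Submodule.sum_mem _ fun s hs => ?_, fun m hm => ?_⟩
  · conv_lhs => rw [F.as_sum]
    rw [← Finset.sum_fiberwise_of_maps_to (fun s hs => Finset.mem_image_of_mem a hs)]
    refine Finset.sum_congr rfl fun m _ => ?_
    rw [map_sum, Finset.mul_sum]
    refine Finset.sum_congr rfl fun s hs => ?_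
    rw [← (Finset.mem_filter.1 hs).2, rename_monomial, rename_monomial, monomial_mul, one_mul,
      ← Finsupp.sumElim_eq_add, Finsupp.comapDomain_sumElim_comapDomain]
  · intro m hm
    obtain ⟨s, hs, rfl⟩ := Finset.mem_image.1 hm
    rw [(weight_cl w v s).1, hF (mem_support_iff.1 hs)]
  · refine isWeightedHomogeneous_monomial _ _ _ ?_
    rw [(weight_cl w v s).2, hF (mem_support_iff.1 (Finset.mem_filter.1 hs).1)]
  · refine Finset.sum_eq_zero fun s hs => (hm ?_).elim
    rw [← (Finset.mem_filter.1 hs).2]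
    exact Finset.mem_image_of_mem a (Finset.mem_filter.1 hs).1

theorem IsI.box [Finite σ] [Finite τ] {w : σ → β} {v : τ → γ} {x : T → σ → K} {y : U → τ → K}
    {J : Ideal (MvPolynomial σ K)} {J' : Ideal (MvPolynomial τ K)} (hJ : IsI w x J)
    (hJ' : IsI v y J') : IsI (Sum.map w v) (fun t : T × U => Sum.elim (x t.1) (y t.2))
      (J.map (rename Sum.inl : _ →ₐ[K] MvPolynomial (σ ⊕ τ) K) ⊔
        J'.map (rename Sum.inr : _ →ₐ[K] MvPolynomial (σ ⊕ τ) K)) := by
  classical
  constructor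
  · intro f hf t
    have : J.map (rename Sum.inl : _ →ₐ[K] MvPolynomial (σ ⊕ τ) K) ⊔
        J'.map (rename Sum.inr : _ →ₐ[K] MvPolynomial (σ ⊕ τ) K) ≤
        RingHom.ker (eval (Sum.elim (x t.1) (y t.2))) := by
      refine sup_le (Ideal.map_le_iff_le_comap.2 fun g hg => ?_)
        (Ideal.map_le_iff_le_comap.2 fun g hg => ?_)
      · rw [Ideal.mem_comap, RingHom.mem_ker, eval_rename]
        exact hJ.van g hg t.1
      · rw [Ideal.mem_comap, RingHom.mem_ker, eval_rename]
        exact hJ'.van g hg t.2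
    exact this hf
  intro F D hF h0
  obtain ⟨M, h, e, hM, hh, hz⟩ := exists_decH hF
  have hfd : FiniteDimensional K
      ↥(Sd K w (fun i => D (Sum.inl i)) ⊓ J.restrictScalars K : Submodule K _) :=
    Submodule.finiteDimensional_of_le inf_le_left
  obtain ⟨s, hs⟩ := (Submodule.fg_iff_finiteDimensional _).2 hfd
  obtain ⟨n, b, p, hb, hd, hsp⟩ := exists_piv (I := J) (fun a ha f hf => by
      have := J.mul_mem_left (C a⁻¹) hf
      rwa [← mul_assoc, ← map_mul, inv_mul_cancel₀ ha, map_one, one_mul] at this) s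
    fun f hf => (hs.le (Submodule.subset_span hf)).2
  have hco : ∀ (u : U) m, coeff m (∑ m ∈ M, monomial m (eval (y u) (h m))) =
      eval (y u) (h m) := by
    intro u m
    simp only [coeff_sum, coeff_monomial, Finset.sum_ite_eq']
    split_ifs with hm
    · rfl
    · rw [hz m hm, map_zero]
  have hJ2 : ∀ m, h m - ∑ i, C (coeff m (b i)) * h (p i) ∈ J' := by
    intro m
    refine hJ'.mem _ (fun i => D (Sum.inr i)) (Submodule.sub_mem _ (hh m)
      (Submodule.sum_mem _ fun i _ => ?_)) fun u => ?_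
    · rw [← smul_eq_C_mul]
      exact Submodule.smul_mem _ _ (hh _)
    · have h1 : ∑ m ∈ M, monomial m (eval (y u) (h m)) ∈ Sd K w fun i => D (Sum.inl i) :=
        Submodule.sum_mem _ fun m hm => isWeightedHomogeneous_monomial _ _ _ (hM m hm)
      have h2 := hJ.mem _ _ h1 fun t => by
        have := h0 (t, u)
        rw [e] at this
        simpa [eval_rename, eval_monomial, mul_comm] using this
      have h3 : ∑ m ∈ M, monomial m (eval (y u) (h m)) ∈ Submodule.span K (Set.range b) :=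
        Submodule.span_le.2 hsp (hs.ge ⟨h1, h2⟩)
      obtain ⟨c, hc⟩ := (Submodule.mem_span_range_iff_exists_fun K).1 h3
      have h4 : ∀ j, c j = eval (y u) (h (p j)) := fun j => by
        rw [← hco u, ← hc]
        simp [coeff_sum, hd]
      have h5 := congrArg (coeff m) hc
      rw [hco] at h5
      simp only [map_sub, map_sum, map_mul, eval_C]
      rw [← h5, coeff_sum, sub_eq_zero]
      exact Finset.sum_congr rfl fun i _ => by rw [coeff_smul, h4, smul_eq_mul, mul_comm]
  let M' := M ∪ Finset.univ.biUnion fun i => (b i).support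
  have e' : F = ∑ m ∈ M', rename Sum.inl (monomial m (1 : K)) *
      rename Sum.inr (h m - ∑ i, C (coeff m (b i)) * h (p i)) +
      ∑ i, rename Sum.inl (b i) * (rename Sum.inr (h (p i)) : MvPolynomial (σ ⊕ τ) K) := by
    have e1 : F = ∑ m ∈ M', rename Sum.inl (monomial m (1 : K)) * rename Sum.inr (h m) := by
      rw [e]
      exact Finset.sum_subset Finset.subset_union_left fun m _ hm => by
        rw [hz m hm, map_zero, mul_zero]
    have e2 : ∀ i, b i = ∑ m ∈ M', monomial m (coeff m (b i)) := fun i => by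
      conv_lhs => rw [(b i).as_sum]
      refine Finset.sum_subset (fun m hm => Finset.mem_union_right _
        (Finset.mem_biUnion.2 ⟨i, Finset.mem_univ _, hm⟩)) fun m _ hm => ?_
      rw [notMem_support_iff.1 hm, map_zero]
    simp only [map_sub, map_sum, map_mul, mul_sub, Finset.sum_sub_distrib, Finset.mul_sum,
      rename_C]
    rw [← e1, Finset.sum_comm, sub_add, eq_comm, sub_eq_self, sub_eq_zero]
    refine Finset.sum_congr rfl fun i _ => ?_
    conv_rhs => rw [e2 i, map_sum, Finset.sum_mul]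
    refine Finset.sum_congr rfl fun m _ => ?_
    rw [← mul_assoc, ← rename_C (σ := σ) Sum.inl, ← map_mul, mul_comm (monomial m 1),
      C_mul_monomial, mul_one]
  rw [e']
  exact Ideal.add_mem _ (Ideal.mem_sup_right (Ideal.sum_mem _ fun m _ =>
      Ideal.mul_mem_left _ _ (Ideal.mem_map_of_mem _ (hJ2 m))))
    (Ideal.mem_sup_left (Ideal.sum_mem _ fun i _ =>
      Ideal.mul_mem_right _ _ (Ideal.mem_map_of_mem _ (hb i))))

theorem eval_scale [Fintype β] (w : σ → β) (μ : β → K) (x : σ → K) {u : MvPolynomial σ K}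
    {d : β → ℕ} (hu : u ∈ Sd K w d) :
    eval (fun s => μ (w s) * x s) u = (∏ i, μ i ^ d i) * eval x u :=
  Gr.aeval_scale w μ x hu

/-- the points of `B` where `Q` vanishes -/
def zs (p : U → σ → K) (Q : Ideal (MvPolynomial σ K)) : Set U := {y | ∀ f ∈ Q, eval (p y) f = 0}

/-- every zero of `Q` with no vanishing block comes from a point of the family -/
def Cl (w : σ → β) (p : U → σ → K) (Q : Ideal (MvPolynomial σ K)) : Prop :=
  ∀ z : σ → K, (∀ b, ∃ v, w v = b ∧ z v ≠ 0) → (∀ f ∈ Q, eval z f = 0) →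
    ∃ (y : U) (μ : β → K), z = fun v => μ (w v) * p y v

omit [DecidableEq β] in
theorem Cl.mono {w : σ → β} {p : U → σ → K} {Q Q' : Ideal (MvPolynomial σ K)} (h : Cl w p Q)
    (hQ : Q ≤ Q') : Cl w p Q' := fun z hz h' => h z hz fun f hf => h' f (hQ hf)

theorem isI_zs [IsAlgClosed K] [Finite σ] [Fintype β] {w : σ → β} {p : U → σ → K}
    {Q : Ideal (MvPolynomial σ K)} (hQ : Q.IsPrime) (hg : GrJ w Q) (hc : Cl w p Q)
    (hr : ∀ b, ∃ v, w v = b ∧ X v ∉ Q) : IsI w (fun y : zs p Q => p y) Q := by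
  refine ⟨fun f hf y => y.2 f hf, fun f d hf h0 => ?_⟩
  choose v hv hX using hr
  have hm : ∏ b, (X (v b) : MvPolynomial σ K) ∉ Q := fun h => by
    obtain ⟨b, -, hb⟩ := (Ideal.IsPrime.prod_mem_iff (hp := hQ)).1 h
    exact hX b hb
  refine (hQ.mem_or_mem (x := f) ?_).resolve_right hm
  rw [← hQ.radical, ← vanishingIdeal_zeroLocus_eq_radical (K := K), mem_vanishingIdeal_iff]
  intro z hz
  change eval z _ = 0
  have hz' : ∀ g ∈ Q, eval z g = 0 := hz
  by_cases h1 : ∃ b, z (v b) = 0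
  · obtain ⟨b, hb⟩ := h1
    rw [map_mul, map_prod, Finset.prod_eq_zero (Finset.mem_univ b) (by simpa using hb), mul_zero]
  · have h2 : ∀ b, z (v b) ≠ 0 := fun b hb => h1 ⟨b, hb⟩
    obtain ⟨y, μ, rfl⟩ := hc z (fun b => ⟨v b, hv b, h2 b⟩) hz'
    have hμ : ∀ b, μ b ≠ 0 := fun b hb => h2 b (by simp only [hv b, hb, zero_mul])
    have hy : y ∈ zs p Q := fun g hg' => by
      obtain ⟨S, hS⟩ := Gr.sum_cmp (wN w) g
      rw [← hS, map_sum]
      refine Finset.sum_eq_zero fun d _ => ?_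
      have := hz' _ (hg d g hg')
      rw [eval_scale w μ _ (weightedHomogeneousComponent_isWeightedHomogeneous d g)] at this
      exact (mul_eq_zero.1 this).resolve_left
        (Finset.prod_ne_zero_iff.2 fun b _ => pow_ne_zero _ (hμ b))
    rw [map_mul, eval_scale w μ _ hf, h0 ⟨y, hy⟩, mul_zero, zero_mul]

theorem IsI.src [Finite σ] [Fintype β] {w : σ → β} {x : T → σ → K}
    {Q : Ideal (MvPolynomial σ K)} (h : IsI w x Q) (hQ : Q.IsPrime)
    (hx : ∀ t b, ∃ v, w v = b ∧ x t v ≠ 0) {n : ℕ} (hn : Dg (pI w Q) n) :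
    Src (LS.blk w x hx) n := by
  refine ⟨?_, fun a b f hf g hg hfg => ?_, ?_⟩
  · by_contra hT
    exact hQ.ne_top ((Ideal.eq_top_iff_one _).2 (h.mem 1 0 (isWeightedHomogeneous_one _ _)
      fun t => (hT ⟨t⟩).elim))
  · obtain ⟨F, hF, rfl⟩ := (map_Sd (β := w) (fun v t => x t v) a).ge hf
    obtain ⟨G, hG, rfl⟩ := (map_Sd (β := w) (fun v t => x t v) b).ge hg
    have h1 : F * G ∈ Q := h.mem _ (a + b) (IsWeightedHomogeneous.mul hF hG) fun t => by
      rw [← Gr.aeval_fun (fun v t => x t v), map_mul]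
      exact congrFun hfg t
    refine (hQ.mem_or_mem h1).imp (fun h2 => funext fun t => ?_) fun h2 => funext fun t => ?_
    · exact (Gr.aeval_fun _ _ t).trans (h.van _ h2 t)
    · exact (Gr.aeval_fun _ _ t).trans (h.van _ h2 t)
  · rw [h.pI_eq] at hn
    exact hn

end Pool.Agent.Tav.Sp
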