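import Pool.Agent.P.MP_2ce3e7_ag.Tav.SpG
import Pool.Agent.P.MP_2ce3e7_ag.Tav.SpI
import Pool.Agent.P.MP_2ce3e7_ag.Tav.Box

/-! Conservation of mixed degrees under reduction, on points. -/

set_option autoImplicit false

noncomputable section

namespace Pool.Agent.Tav.Sp

open MvPolynomial Pool.Agent.P.MP_3c83d0_ag Pool.Agent.TateX Function

variable {O L Ω σ τ β κ T B : Type} [CommRing O] [Field L] [Field Ω] {P : Place L Ω}
  {i : O →+* L} {r : O →+* Ω}

/-- `p` is the reduction of `x` along `red`, block by block -/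
structure Rd (r : O →+* Ω) (w : σ → β) (red : T → B) (x : T → σ → O) (p : B → σ → Ω) :
    Prop where
  par : ∀ t, ∃ μ : β → Ω, p (red t) = fun v => μ (w v) * r (x t v)
  ne : ∀ y b, ∃ v, w v = b ∧ p y v ≠ 0

/-- near every point the blocks of `y` are given by forms in `x` over `O` -/
def Ch [DecidableEq β] (w : σ → β) (v : τ → κ) (x : T → σ → O) (y : T → τ → O) : Prop :=
  ∀ t₀, ∃ (e : κ → β → ℕ) (G : τ → MvPolynomial σ O) (c : κ → T → O),
    (∀ j, IsWeightedHomogeneous (wN w) (G j) (e (v j))) ∧ (∀ k, IsUnit (c k t₀)) ∧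
      ∀ t j, eval (x t) (G j) = c (v j) t * y t j

/-- the Hilbert polynomial of the blocks of a family of points -/
def PP {K : Type} [Field K] [Fintype β] (w : σ → β) (x : T → σ → K) : MvPolynomial β ℚ :=
  pf (blk K w fun z t => x t z)

variable {w : σ → β} {v : τ → κ} {red : T → B} {x : T → σ → O} {p : B → σ → Ω}
  {y : T → τ → O} {q : B → τ → Ω}

theorem Rd.ne_r (h : Rd r w red x p) (t : T) (b : β) : ∃ s, w s = b ∧ r (x t s) ≠ 0 := by
  obtain ⟨μ, hμ⟩ := h.par t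
  obtain ⟨s, hs, h0⟩ := h.ne (red t) b
  rw [hμ] at h0
  exact ⟨s, hs, right_ne_zero_of_mul h0⟩

theorem Rd.ne_i (hP : ∀ a, P.To (i a) (r a)) (h : Rd r w red x p) (t : T) (b : β) :
    ∃ s, w s = b ∧ i (x t s) ≠ 0 :=
  (h.ne_r t b).imp fun _ hs => ⟨hs.1, (hP _).ne_zero hs.2⟩

theorem Rd.par' (h : Rd r w red x p) (t : T) :
    ∃ μ : β → Ω, (∀ b, μ b ≠ 0) ∧ p (red t) = fun v => μ (w v) * r (x t v) := by
  obtain ⟨μ, hμ⟩ := h.par t
  refine ⟨μ, fun b => ?_, hμ⟩
  obtain ⟨s, rfl, h0⟩ := h.ne (red t) b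
  rw [hμ] at h0
  exact left_ne_zero_of_mul h0

theorem Rd.prod {σ' β' T' B' : Type} {w' : σ' → β'} {red' : T' → B'} {x' : T' → σ' → O}
    {p' : B' → σ' → Ω} (h : Rd r w red x p) (h' : Rd r w' red' x' p') :
    Rd r (Sum.map w w') (Prod.map red red') (fun t => Sum.elim (x t.1) (x' t.2))
      fun t => Sum.elim (p t.1) (p' t.2) := by
  refine ⟨fun t => ?_, fun t b => ?_⟩
  · obtain ⟨μ, hμ⟩ := h.par t.1
    obtain ⟨μ', hμ'⟩ := h'.par t.2
    refine ⟨Sum.elim μ μ', funext fun s => ?_⟩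
    rcases s with s | s
    · exact congrFun hμ s
    · exact congrFun hμ' s
  · rcases b with b | b
    · obtain ⟨s, rfl, hs⟩ := h.ne t.1 b
      exact ⟨Sum.inl s, rfl, hs⟩
    · obtain ⟨s, rfl, hs⟩ := h'.ne t.2 b
      exact ⟨Sum.inr s, rfl, hs⟩

theorem Cl.box {σ' β' B' : Type} {w' : σ' → β'} {p' : B' → σ' → Ω} {J : Ideal (MvPolynomial σ Ω)}
    {J' : Ideal (MvPolynomial σ' Ω)} (h : Cl w p J) (h' : Cl w' p' J') :
    Cl (Sum.map w w') (fun t : B × B' => Sum.elim (p t.1) (p' t.2)) (Gr.box J J') := by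
  intro z hz h0
  obtain ⟨a, μ, e⟩ := h (z ∘ Sum.inl) (fun b => by
      obtain ⟨s | s, hs, h1⟩ := hz (Sum.inl b)
      · exact ⟨s, Sum.inl_injective hs, h1⟩
      · cases hs) fun f hf => by
    rw [← eval_rename]
    exact h0 _ (Gr.inl_mem_box _ hf)
  obtain ⟨a', μ', e'⟩ := h' (z ∘ Sum.inr) (fun b => by
      obtain ⟨s | s, hs, h1⟩ := hz (Sum.inr b)
      · cases hs
      · exact ⟨s, Sum.inr_injective hs, h1⟩) fun f hf => by
    rw [← eval_rename]
    exact h0 _ (Gr.inr_mem_box _ hf)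
  refine ⟨(a, a'), Sum.elim μ μ', funext fun s => ?_⟩
  rcases s with s | s
  · exact congrFun e s
  · exact congrFun e' s

theorem hom_map {A A' M : Type} [CommRing A] [CommRing A'] [AddCommMonoid M] (f : A →+* A')
    {W : σ → M} {G : MvPolynomial σ A} {d : M} (h : IsWeightedHomogeneous W G d) :
    IsWeightedHomogeneous W (map f G) d :=
  fun m hm => h fun h0 => hm (by rw [coeff_map, h0, map_zero])

theorem sum_filter {A : Type} (l : List A) (c : A → Prop) [DecidablePred c] (f : A → ℚ)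
    (h : ∀ a ∈ l, ¬ c a → f a = 0) : (l.map f).sum = ((l.filter fun a => c a).map f).sum := by
  induction l with
  | nil => rfl
  | cons a l ih =>
    have ih' := ih fun b hb => h b (List.mem_cons_of_mem _ hb)
    by_cases ha : c a
    · simp [ha, ih']
    · simp [ha, ih', h a List.mem_cons_self ha]

variable [DecidableEq β] [DecidableEq κ] [Fintype β] [Fintype κ] [Finite σ] [Finite τ]

omit [Fintype β] [Fintype κ] in
theorem pI_gr_irr {C : Type} (G : C → τ → MvPolynomial σ Ω) {K : Ideal (MvPolynomial σ Ω)}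
    (hK : GrJ w K) {b : β} (h : ∀ s, w s = b → X s ∈ K) :
    pI (Sum.map w v) (Gr.gr w v G K) = 0 := by
  refine pI_eq_zero ⟨1, fun d hd f hf => mem_of_block (i := Sum.inl b) ?_ (hd _) hf⟩
  rintro (s | s) hs
  · have := Gr.map_up_le_gr (v := v) (G := G) (fun f hf d => hK d f hf)
      (Ideal.mem_map_of_mem _ (h s (Sum.inl_injective hs)))
    rwa [rename_X] at this
  · cases hs

theorem core [IsAlgClosed Ω] (hP : ∀ a, P.To (i a) (r a)) (hred : Surjective red)
    (hx : Rd r w red x p) (hy : Rd r v red y q) (hc : Ch w v x y) :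
    ∃ (G' : T → τ → MvPolynomial σ Ω) (e : T → κ → β → ℕ),
      (∀ c j, IsWeightedHomogeneous (Gr.bw w) (G' c j) (e c (v j))) ∧
      (∀ K, Cl w p K → Gr.Bpf w v G' K) ∧
      (∀ (U : Type) (k : U → B) K, IsI w (fun u => p (k u)) K →
        pI (Sum.map w v) (Gr.gr w v G' K) =
          PP (Sum.map w v) fun u => Sum.elim (p (k u)) (q (k u))) ∧
      ∀ (Z : Type) (j : Z → T) J, IsI w (fun z s => i (x (j z) s)) J → GrJ w J →
        Cl w p (spI P J) →
        (∀ c c' a b, v a = v b → G' c' b * G' c a - G' c' a * G' c b ∈ spI P J) ∧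
        pI (Sum.map w v) (Gr.gr w v G' (spI P J)) = PP (Sum.map w v)
          fun t => Sum.elim (fun s => i (x (j t) s)) fun s => i (y (j t) s) := by
  choose e γ c hγ hu hev using hc
  have evi : ∀ t₀ t j, eval (fun s => i (x t s)) (map i (γ t₀ j)) =
      i (c t₀ (v j) t) * i (y t j) := fun t₀ t j => by
    rw [← map_mul, ← hev, map_eval]
    rfl
  have evr : ∀ t, ∃ A : T → κ → Ω, (∀ k, A t k ≠ 0) ∧ ∀ t₀ j,
      eval (p (red t)) (map r (γ t₀ j)) = A t₀ (v j) * q (red t) j := by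
    intro t
    obtain ⟨μ, hμ0, hμ⟩ := hx.par' t
    obtain ⟨ν, hν0, hν⟩ := hy.par' t
    refine ⟨fun t₀ k => (∏ b, μ b ^ e t₀ k b) * r (c t₀ k t) * (ν k)⁻¹, fun k => ?_,
      fun t₀ j => ?_⟩
    · exact mul_ne_zero (mul_ne_zero (Finset.prod_ne_zero_iff.2 fun b _ => pow_ne_zero _ (hμ0 b))
        ((hu t k).map r).ne_zero) (inv_ne_zero (hν0 k))
    · have h1 : eval (fun s => r (x t s)) (map r (γ t₀ j)) = r (c t₀ (v j) t) * r (y t j) := by
        rw [← map_mul, ← hev, map_eval]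
        rfl
      rw [hμ, hν, eval_scale w μ _ (hom_map r (hγ t₀ j)), h1]
      have := hν0 (v j)
      field_simp
  have hb' : ∀ a : B, ∃ t₀, ∀ k, ∃ j, v j = k ∧ eval (p a) (map r (γ t₀ j)) ≠ 0 := by
    intro a
    obtain ⟨t, rfl⟩ := hred a
    obtain ⟨A, hA0, hA⟩ := evr t
    refine ⟨t, fun k => ?_⟩
    obtain ⟨j, rfl, hj⟩ := hy.ne (red t) k
    exact ⟨j, rfl, by rw [hA]; exact mul_ne_zero (hA0 _) hj⟩
  have bpf : ∀ K, Cl w p K → Gr.Bpf w v (fun t₀ j => map r (γ t₀ j)) K := by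
    intro K hK z hz hz'
    obtain ⟨a, μ, rfl⟩ := hK z hz' hz
    obtain ⟨t₀, h0⟩ := hb' a
    refine ⟨t₀, fun k => (h0 k).imp fun j hj => ⟨hj.1, ?_⟩⟩
    rw [eval_scale w μ _ (hom_map r (hγ t₀ j))]
    refine mul_ne_zero (Finset.prod_ne_zero_iff.2 fun b _ => pow_ne_zero _ ?_) hj.2
    obtain ⟨s, rfl, hs⟩ := hz' b
    exact left_ne_zero_of_mul hs
  refine ⟨fun t₀ j => map r (γ t₀ j), e, fun t₀ j => hom_map r (hγ t₀ j), bpf,
    fun U k K hK => ?_, fun Z j J hJ hg hcl => ?_⟩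
  · refine Gr.pI_gr_pt (e := e) (fun u => p (k u)) (fun u => q (k u)) hK.iff
      (fun t₀ j => hom_map r (hγ t₀ j)) (fun u t₀ a b hab => ?_) (fun u => hy.ne (k u))
      fun u => hb' (k u)
    obtain ⟨t, ht⟩ := hred (k u)
    obtain ⟨A, -, hA⟩ := evr t
    rw [← ht, hA, hA, hab]
    ring
  · have hm : ∀ t₀ t₁ a b, v a = v b → map i (γ t₁ b) * map i (γ t₀ a) -
        map i (γ t₁ a) * map i (γ t₀ b) ∈ J := by
      intro t₀ t₁ a b hab
      refine hJ.mem _ (e t₁ (v b) + e t₀ (v b)) (Submodule.sub_mem _ ?_ ?_) fun z => ?_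
      · exact (hom_map i (hγ t₁ b)).mul (hab ▸ hom_map i (hγ t₀ a))
      · exact IsWeightedHomogeneous.mul (hab ▸ hom_map i (hγ t₁ a)) (hom_map i (hγ t₀ b))
      · rw [map_sub, map_mul, map_mul, evi, evi, evi, evi, hab]
        ring
    have hT : ∀ t₀ a, P.TP (map i (γ t₀ a)) (map r (γ t₀ a)) := fun t₀ a => TP_of i r hP _
    refine ⟨fun t₀ t₁ a b hab => mem_sp (hm t₀ t₁ a b hab)
      (TP_sub (TP_mul (hT _ _) (hT _ _)) (TP_mul (hT _ _) (hT _ _))), ?_⟩
    rw [pI_gr_sp hT (bpf _ hcl) hg (fun t₀ a => hom_map i (hγ t₀ a)) hm]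
    refine Gr.pI_gr_pt (e := e) (fun z s => i (x (j z) s)) (fun z s => i (y (j z) s)) hJ.iff
      (fun t₀ a => hom_map i (hγ t₀ a)) (fun z t₀ a b hab => ?_) (fun z => hy.ne_i hP (j z))
      fun z => ⟨j z, fun k => ?_⟩
    · rw [evi, evi, hab]
      ring
    · obtain ⟨a, rfl, ha⟩ := hy.ne_i hP (j z) k
      exact ⟨a, rfl, by rw [evi]; exact mul_ne_zero ((hu _ _).map i).ne_zero ha⟩

omit [DecidableEq κ] [Fintype κ] [Finite τ] [Fintype β] [Finite σ] in
theorem ker_le {Z : Type} (j : Z → T) :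
    (kerG L w fun s t => i (x t s)) ≤ kerG L w fun s z => i (x (j z) s) := by
  refine Ideal.span_le.2 ?_
  rintro f ⟨h, d, hd⟩
  refine (isI_kerG w fun z s => i (x (j z) s)).mem f d hd fun z => ?_
  exact (isI_kerG w fun t s => i (x t s)).van f ((mem_kerG hd).2 h) (j z)

/-- the whole fibres -/
theorem spec0 [IsAlgClosed Ω] (hP : ∀ a, P.To (i a) (r a)) (hred : Surjective red)
    (hx : Rd r w red x p) (hy : Rd r v red y q) (hc : Ch w v x y)
    (hcl : Cl w p (spI P (kerG L w fun s t => i (x t s))))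
    (hI : IsI w p (spI P (kerG L w fun s t => i (x t s)))) :
    PP (Sum.map w v) (fun t => Sum.elim (fun s => i (x t s)) fun s => i (y t s)) =
      PP (Sum.map w v) fun u => Sum.elim (p u) (q u) := by
  obtain ⟨G', e, -, -, h1, h2⟩ := core hP hred hx hy hc
  exact ((h2 T id _ (isI_kerG w fun t s => i (x t s)) (grJ_kerG _) hcl).2).symm.trans
    (h1 B id _ hI)

/-- no block of variables lies in `Q` -/
def Rel (w : σ → β) (Q : Ideal (MvPolynomial σ Ω)) : Prop := ∀ b, ∃ s, w s = b ∧ X s ∉ Q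

instance : DecidablePred (Rel (Ω := Ω) w) := Classical.decPred _

omit [DecidableEq β] [Fintype β] [Finite σ] in
theorem not_rel {Q : Ideal (MvPolynomial σ Ω)} (h : ¬ Rel w Q) : ∃ b, ∀ s, w s = b → X s ∈ Q := by
  unfold Rel at h
  push Not at h
  exact h

/-- the components of the reduction of a family of points -/
def SpL (P : Place L Ω) (w : σ → β) {Z : Type} (z : Z → σ → L) (p : B → σ → Ω)
    (l : List (Set B)) : Prop :=
  ∃ l', Gr.Dev w (spI P (kerG L w fun s t => z t s)) l' ∧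
    l = (l'.filter fun Q => Rel w Q).map (zs p)

omit [DecidableEq κ] [Fintype κ] [Finite τ] in
theorem exists_spL {Z : Type} (z : Z → σ → L) : ∃ l, SpL P w z p l := by
  obtain ⟨l', h⟩ := Gr.exists_dev (grJ_sp (P := P) (grJ_kerG (β := w) fun s t => z t s))
  exact ⟨_, l', h, rfl⟩

omit [DecidableEq κ] [Fintype κ] [Finite τ] in
theorem SpL.src [IsAlgClosed Ω] {Z : Type} {z : Z → σ → L} {l : List (Set B)}
    (h : SpL P w z p l) (hcl : Cl w p (spI P (kerG L w fun s t => z t s)))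
    (hne : ∀ y b, ∃ v, w v = b ∧ p y v ≠ 0) {n : ℕ} (hn : Dg (PP w z) n) :
    ∀ V ∈ l, Src (LS.blk w (fun y : V => p y) fun y => hne y) n := by
  obtain ⟨l', hD, rfl⟩ := h
  intro V hV
  obtain ⟨Q, hQ, rfl⟩ := List.mem_map.1 hV
  obtain ⟨hQ, hr⟩ := List.mem_filter.1 hQ
  obtain ⟨h1, h2, h3⟩ := hD.1 Q hQ
  refine (isI_zs h1 h2 (hcl.mono h3) (of_decide_eq_true hr : Rel w Q)).src h1 _ ?_
  refine Dg.pI_mono ?_ (grJ_sp (grJ_kerG _)) h2 h3
  rw [pI_sp (grJ_kerG _), (isI_kerG w z).pI_eq]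
  exact hn

/-- one source -/
theorem spec1 [IsAlgClosed Ω] (hP : ∀ a, P.To (i a) (r a)) (hred : Surjective red)
    (hx : Rd r w red x p) (hy : Rd r v red y q) (hc : Ch w v x y)
    (hcl : Cl w p (spI P (kerG L w fun s t => i (x t s)))) {Z : Type} (j : Z → T)
    {l : List (Set B)} (hl : SpL P w (fun z s => i (x (j z) s)) p l) {n : ℤ}
    (hn : Dg (PP (Sum.map w v)
      fun t => Sum.elim (fun s => i (x (j t) s)) fun s => i (y (j t) s)) n)
    {s : β ⊕ κ →₀ ℕ} (hs : n ≤ (s.degree : ℤ)) :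
    nc s (PP (Sum.map w v) fun t => Sum.elim (fun s => i (x (j t) s)) fun s => i (y (j t) s)) =
      (l.map fun V : Set B =>
        nc s (PP (Sum.map w v) fun u : V => Sum.elim (p u) (q u))).sum := by
  obtain ⟨G', e, hG, hb, h1, h2⟩ := core hP hred hx hy hc
  obtain ⟨l', hD, rfl⟩ := hl
  have hcl' := hcl.mono (sp_mono (ker_le j))
  obtain ⟨hm, h3⟩ := h2 Z j _ (isI_kerG w fun z s => i (x (j z) s)) (grJ_kerG _) hcl'
  rw [← h3] at hn ⊢
  rw [hD.gr (hb _ hcl') hG hm hn hs, sum_filter l' (Rel w), List.map_map]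
  · refine congrArg List.sum (List.map_congr_left fun Q hQ => ?_)
    obtain ⟨hQ, hr⟩ := List.mem_filter.1 hQ
    obtain ⟨a1, a2, a3⟩ := hD.1 Q hQ
    rw [h1 (zs p Q) Subtype.val Q (isI_zs a1 a2 (hcl'.mono a3) (of_decide_eq_true hr : Rel w Q))]
    rfl
  · intro Q hQ hr
    obtain ⟨b, hb⟩ := not_rel hr
    rw [pI_gr_irr G' (hD.1 Q hQ).2.1 hb, map_zero]

/-- two sources -/
theorem spec2 [IsAlgClosed Ω] {σ' β' T' B' : Type} [DecidableEq β'] [Fintype β'] [Finite σ']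
    {w' : σ' → β'} {red' : T' → B'} {x' : T' → σ' → O} {p' : B' → σ' → Ω}
    {y : T × T' → τ → O} {q : B × B' → τ → Ω} (hP : ∀ a, P.To (i a) (r a))
    (hred : Surjective red) (hred' : Surjective red') (hx : Rd r w red x p)
    (hx' : Rd r w' red' x' p') (hy : Rd r v (Prod.map red red') y q)
    (hc : Ch (Sum.map w w') v (fun t : T × T' => Sum.elim (x t.1) (x' t.2)) y)
    (hcl : Cl w p (spI P (kerG L w fun s t => i (x t s))))
    (hcl' : Cl w' p' (spI P (kerG L w' fun s t => i (x' t s)))) {Z Z' : Type} (j : Z → T)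
    (j' : Z' → T') {l : List (Set B)} {l' : List (Set B')}
    (hl : SpL P w (fun z s => i (x (j z) s)) p l)
    (hl' : SpL P w' (fun z s => i (x' (j' z) s)) p' l') {n : ℤ}
    (hn : Dg (PP (Sum.map (Sum.map w w') v) fun t : Z × Z' => Sum.elim
      (Sum.elim (fun s => i (x (j t.1) s)) fun s => i (x' (j' t.2) s))
      fun s => i (y (j t.1, j' t.2) s)) n)
    {s : (β ⊕ β') ⊕ κ →₀ ℕ} (hs : n ≤ (s.degree : ℤ)) :
    nc s (PP (Sum.map (Sum.map w w') v) fun t : Z × Z' => Sum.elim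
      (Sum.elim (fun s => i (x (j t.1) s)) fun s => i (x' (j' t.2) s))
      fun s => i (y (j t.1, j' t.2) s)) =
      (l.map fun V : Set B => (l'.map fun V' : Set B' => nc s (PP (Sum.map (Sum.map w w') v)
        fun u : V × V' => Sum.elim (Sum.elim (p u.1) (p' u.2)) (q (u.1, u.2)))).sum).sum := by
  obtain ⟨G', e, hG, hb, h1, h2⟩ := core hP (hred.prodMap hred') (hx.prod hx') hy hc
  obtain ⟨m, hD, rfl⟩ := hl
  obtain ⟨m', hD', rfl⟩ := hl'
  have c1 := hcl.mono (sp_mono (ker_le j))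
  have c2 := hcl'.mono (sp_mono (ker_le j'))
  have eb := sp_box (P := P) (kerG L w fun s z => i (x (j z) s))
    (kerG L w' fun s z => i (x' (j' z) s))
  have e0 : ∀ t : Z × Z', (fun s => i (Sum.elim (x (j t.1)) (x' (j' t.2)) s)) =
      Sum.elim (fun s => i (x (j t.1) s)) fun s => i (x' (j' t.2) s) :=
    fun t => funext fun s => by rcases s with s | s <;> rfl
  obtain ⟨hm, h3⟩ := h2 (Z × Z') (Prod.map j j') (Gr.box (kerG L w fun s z => i (x (j z) s))
      (kerG L w' fun s z => i (x' (j' z) s)))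
    (by
      have := (isI_kerG w fun z s => i (x (j z) s)).box (isI_kerG w' fun z s => i (x' (j' z) s))
      simp only [← e0] at this
      exact this)
    (Gr.grJ_box (grJ_kerG _) (grJ_kerG _)) (by rw [Gr.box, eb]; exact c1.box c2)
  simp only [Prod.map_fst, Prod.map_snd, e0] at h3
  rw [Gr.box, eb] at hm h3
  have h4 := hD.both hD' (grJ_sp (grJ_kerG _)) (hb _ (c1.box c2)) hG hm (h3 ▸ hn) hs
  refine (h3 ▸ h4 :).trans ?_
  rw [sum_filter m (Rel w), List.map_map]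
  · refine congrArg List.sum (List.map_congr_left fun Q hQ => ?_)
    obtain ⟨hQ, hr⟩ := List.mem_filter.1 hQ
    obtain ⟨a1, a2, a3⟩ := hD.1 Q hQ
    rw [sum_filter m' (Rel w'), comp_apply, List.map_map]
    · refine congrArg List.sum (List.map_congr_left fun Q' hQ' => ?_)
      obtain ⟨hQ', hr'⟩ := List.mem_filter.1 hQ'
      obtain ⟨b1, b2, b3⟩ := hD'.1 Q' hQ'
      rw [h1 (zs p Q × zs p' Q') (Prod.map Subtype.val Subtype.val) (Gr.box Q Q')
        ((isI_zs a1 a2 (c1.mono a3) (of_decide_eq_true hr : Rel w Q)).box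
          (isI_zs b1 b2 (c2.mono b3) (of_decide_eq_true hr' : Rel w' Q')))]
      rfl
    · intro Q' hQ' hr'
      obtain ⟨b, hb⟩ := not_rel hr'
      rw [pI_gr_irr (b := Sum.inr b) G' (Gr.grJ_box a2 (hD'.1 Q' hQ').2.1), map_zero]
      rintro (s | s) hs
      · cases hs
      · rw [← rename_X]
        exact Gr.inr_mem_box _ (hb s (Sum.inr_injective hs))
  · intro Q hQ hr
    obtain ⟨b, hb⟩ := not_rel hr
    refine List.sum_eq_zero fun a ha => ?_
    obtain ⟨Q', hQ', rfl⟩ := List.mem_map.1 ha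
    rw [pI_gr_irr (b := Sum.inl b) G' (Gr.grJ_box (hD.1 Q hQ).2.1 (hD'.1 Q' hQ').2.1), map_zero]
    rintro (s | s) hs
    · rw [← rename_X]
      exact Gr.inl_mem_box _ (hb s (Sum.inl_injective hs))
    · cases hs

end Pool.Agent.Tav.Sp
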