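import Pool.Agent.P.MP_2ce3e7_ag.Tav.Defs
import Pool.Agent.P.MP_2ce3e7_ag.Tav.SpP
import Pool.Agent.P.MP_2ce3e7_ag.Tav.SRg
import Pool.Agent.P.MP_2ce3e7_ag.Tav.GMul
import Pool.Agent.P.MP_2ce3e7_ag.Tav.GProd

/-! Degrees and algebraic classes pass from a fibre to its reduction. -/

set_option autoImplicit false

noncomputable section

namespace Pool.Agent.Tav

open MvPolynomial Pool.Agent.P.MP_3c83d0_ag Pool.Agent.TateX Function

namespace Sp

section ideals

variable {O L Ω σ β T B : Type} [CommRing O] [Field L] [Field Ω] {P : Place L Ω}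
  {i : O →+* L} {r : O →+* Ω} {w : σ → β} {red : T → B} {x : T → σ → O} {p : B → σ → Ω}
  [DecidableEq β]

theorem grJ_le {J K : Ideal (MvPolynomial σ Ω)} (hJ : GrJ w J)
    (h : ∀ d, ∀ f ∈ Sd Ω w d, f ∈ J → f ∈ K) : J ≤ K := fun f hf => by
  rw [← sum_weightedHomogeneousComponent (wN w) f]
  exact finsum_induction (fun g => g ∈ K) K.zero_mem (fun _ _ => K.add_mem)
    fun d => h d _ (weightedHomogeneousComponent_mem _ _ _) (hJ d f hf)

/-- `J` is the ideal of the points `p` in large degrees -/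
structure IsL (w : σ → β) (p : B → σ → Ω) (J : Ideal (MvPolynomial σ Ω)) : Prop where
  le : J ≤ kerG Ω w fun s u => p u s
  mem : Lg fun d => ∀ f ∈ Sd Ω w d, (f ∈ kerG Ω w fun s u => p u s) → f ∈ J

theorem IsL.cl [Fintype β] {J : Ideal (MvPolynomial σ Ω)} (h : IsL w p J) (hc : Tav.Cl w p) :
    Cl w p J := by
  intro z hz h0
  obtain ⟨N, hN⟩ := h.mem
  choose v hv hv0 using id hz
  have hm : (∏ b, X (v b) ^ N : MvPolynomial σ Ω) ∈ Sd Ω w (∑ b, N • wN w (v b)) :=
    IsWeightedHomogeneous.prod _ _ _ fun b _ => (isWeightedHomogeneous_X Ω (wN w) (v b)).pow N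
  obtain ⟨t, c, -, e⟩ := hc z hz fun d f hf hv' => by
    have h1 := h0 _ (hN (d + ∑ b, N • wN w (v b)) (fun b => by
        refine le_add_left ?_
        rw [Finset.sum_apply]
        refine le_trans ?_ (Finset.single_le_sum (fun _ _ => Nat.zero_le _) (Finset.mem_univ b))
        simp [wN, hv]) _ (IsWeightedHomogeneous.mul hf hm)
      ((isI_kerG w p).mem _ _ (IsWeightedHomogeneous.mul hf hm) fun t => by
        rw [map_mul, hv', zero_mul]))
    rw [map_mul, map_prod] at h1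
    refine (mul_eq_zero.1 h1).resolve_right (Finset.prod_ne_zero_iff.2 fun b _ => ?_)
    rw [map_pow, eval_X]
    exact pow_ne_zero _ (hv0 b)
  exact ⟨t, c, funext e⟩

theorem Rd.isL [Finite σ] [Fintype β] (hP : ∀ a, P.To (i a) (r a)) (hred : Surjective red)
    (hx : Rd r w red x p) (hfl : PP w p = PP w fun t s => i (x t s)) :
    IsL w p (spI P (kerG L w fun s t => i (x t s))) := by
  have hv : ∀ t, spI P (kerG L w fun s t => i (x t s)) ≤
      RingHom.ker (MvPolynomial.eval fun s => r (x t s)) := fun t => sp_le fun H hH => by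
    choose h1 h2 using fun s => hP (x t s)
    have e1 := map_eval P.O.subtype (fun s => (⟨_, h1 s⟩ : P.O)) H
    have e2 := map_eval P.ev (fun s => (⟨_, h1 s⟩ : P.O)) H
    have e3 : MvPolynomial.eval (fun s => (⟨_, h1 s⟩ : P.O)) H = 0 := Subtype.ext
      (e1.trans ((isI_kerG w fun t s => i (x t s)).van _ hH t))
    rw [e3, map_zero] at e2
    rw [RingHom.mem_ker, ← funext h2]
    exact e2.symm
  have hle : spI P (kerG L w fun s t => i (x t s)) ≤ kerG Ω w fun s u => p u s :=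
    grJ_le (grJ_sp (grJ_kerG _)) fun d f hf hJ => (isI_kerG w p).mem f d hf fun u => by
      obtain ⟨t, rfl⟩ := hred u
      obtain ⟨μ, hμ⟩ := hx.par t
      rw [hμ, eval_scale w μ _ hf, (RingHom.mem_ker.1 (hv t hJ) :), mul_zero]
  have h1 := evP_pI (grJ_sp (P := P) (grJ_kerG (β := w) fun s t => i (x t s)))
  have h2 := evP_pI (grJ_kerG (Ω := Ω) (β := w) fun s u => p u s)
  rw [pI_sp (grJ_kerG _), (isI_kerG w fun t s => i (x t s)).pI_eq] at h1
  rw [(isI_kerG w p).pI_eq] at h2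
  refine ⟨hle, (Lg.and h1 h2).mono fun d hd f hf h0 => mem_of_hI_eq hle ?_ hf h0⟩
  exact Nat.cast_le.1 (hd.1.symm.trans ((congrArg (evN d) hfl.symm).trans hd.2)).le

/-- the whole fibres -/
theorem spec0' [IsAlgClosed Ω] [Finite σ] [Fintype β] {τ κ : Type} [DecidableEq κ] [Fintype κ]
    [Finite τ] {v : τ → κ} {y : T → τ → O} {q : B → τ → Ω} (hP : ∀ a, P.To (i a) (r a))
    (hred : Surjective red) (hx : Rd r w red x p) (hy : Rd r v red y q) (hc : Ch w v x y)
    (hcl : Tav.Cl w p) (hI : IsL w p (spI P (kerG L w fun s t => i (x t s)))) :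
    PP (Sum.map w v) (fun t => Sum.elim (fun s => i (x t s)) fun s => i (y t s)) =
      PP (Sum.map w v) fun u => Sum.elim (p u) (q u) := by
  obtain ⟨G', e, hG, -, h1, h2⟩ := core hP hred hx hy hc
  refine ((h2 T id _ (isI_kerG w fun t s => i (x t s)) (grJ_kerG _) (hI.cl hcl)).2).symm.trans
    (Eq.trans (pI_congr ?_) (h1 B id _ (isI_kerG w p)))
  obtain ⟨N, hN⟩ := hI.mem
  refine ⟨N, fun D hD u hu => ?_⟩
  rw [Gr.mem_gr hu, Gr.mem_gr hu]
  refine forall_congr' fun c => ⟨fun h => hI.le h, hN _ (fun b => ?_) _ (Gr.hom_ev (hG c) hu)⟩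
  rw [Gr.dgE_apply]
  exact le_add_right (hD _)

end ideals

section blocks

variable {K σ τ β κ T : Type} [Field K]

theorem blk_inl (w : σ → β) (v : τ → κ) (x : T → σ → K) (y : T → τ → K) (b : β) :
    blk K (Sum.map w v) (fun z t => Sum.elim (x t) (y t) z) (Sum.inl b) =
      blk K w (fun z t => x t z) b := by
  refine congrArg (Submodule.span K) (Set.ext fun f => ⟨?_, ?_⟩)
  · rintro ⟨z | z, hz, rfl⟩
    · exact ⟨z, Sum.inl_injective hz, rfl⟩
    · cases hz
  · rintro ⟨z, rfl, rfl⟩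
    exact ⟨Sum.inl z, rfl, rfl⟩

theorem blk_inr (w : σ → β) (v : τ → κ) (x : T → σ → K) (y : T → τ → K) (b : κ) :
    blk K (Sum.map w v) (fun z t => Sum.elim (x t) (y t) z) (Sum.inr b) =
      blk K v (fun z t => y t z) b := by
  refine congrArg (Submodule.span K) (Set.ext fun f => ⟨?_, ?_⟩)
  · rintro ⟨z | z, hz, rfl⟩
    · cases hz
    · exact ⟨z, Sum.inr_injective hz, rfl⟩
  · rintro ⟨z, rfl, rfl⟩
    exact ⟨Sum.inr z, rfl, rfl⟩

/-- coordinates of the slots -/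
abbrev Sl (s : Sh) : Type := {z : s.ν × s.σ // s.w z.2 = s.sl z.1}

/-- the slot of a coordinate -/
abbrev sv (s : Sh) (z : Sl s) : s.ν := z.1.1

variable {s : Sh}

theorem blk_sl (x : T → s.σ → K) (k : s.ν) :
    blk K (sv s) (fun z t => x t z.1.2) k = blk K s.w (fun z t => x t z) (s.sl k) := by
  refine congrArg (Submodule.span K) (Set.ext fun f => ⟨?_, ?_⟩)
  · rintro ⟨z, rfl, rfl⟩
    exact ⟨z.1.2, z.2, rfl⟩
  · rintro ⟨z, hz, rfl⟩
    exact ⟨⟨(k, z), hz⟩, rfl, rfl⟩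

variable (F : Fib K s)

theorem pb_sp (u : T → F.G) (b : s.β) :
    ((F.H b).pb u).sp = blk K s.w (fun z t => F.x (u t) z) b := by
  rw [LS.pb_blk]
  rfl

theorem pp_one (u : F.G → F.G) :
    PP (Sum.map s.w (sv s)) (fun t => Sum.elim (F.x t) fun z => F.x (u t) z.1.2) =
      pL (Sum.elim F.H fun k => (F.H (s.sl k)).pb u) := by
  refine congrArg pf (funext ?_)
  rintro (b | k)
  · exact blk_inl _ _ _ _ b
  · exact ((blk_inr _ _ _ _ k).trans (blk_sl (fun t => F.x (u t)) k)).trans (pb_sp F u _).symm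

theorem pp_two {Z Z' : Type} (j : Z → F.G) (j' : Z' → F.G) (u : Z × Z' → F.G) :
    PP (Sum.map (Sum.map s.w s.w) (sv s)) (fun t : Z × Z' =>
      Sum.elim (Sum.elim (F.x (j t.1)) (F.x (j' t.2))) fun z => F.x (u t) z.1.2) =
      pL (Sum.elim (prodB (fun b => (F.H b).pb j) fun b => (F.H b).pb j')
        fun k => (F.H (s.sl k)).pb u) := by
  refine congrArg pf (funext ?_)
  rintro ((b | b) | k)
  · refine ((blk_inl _ _ _ _ _).trans (blk_inl _ _ _ _ b)).trans ?_
    exact (pb_sp F _ b).symm.trans (congrArg LS.sp (LS.pb_pb Prod.fst j (F.H b))).symm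
  · refine ((blk_inl _ _ _ _ _).trans (blk_inr _ _ _ _ b)).trans ?_
    exact (pb_sp F _ b).symm.trans (congrArg LS.sp (LS.pb_pb Prod.snd j' (F.H b))).symm
  · exact ((blk_inr _ _ _ _ k).trans (blk_sl (fun t => F.x (u t)) k)).trans (pb_sp F u _).symm

variable {F} [Fintype κ] {A : κ → LS K T} {u u' : T → F.G}

theorem in_smul (h : F.In A u) (a : s.Λ) : F.In A fun t => a • u t := fun b => by
  have := (F.smul a b).pb u
  rw [LS.pb_pb] at this
  exact Reg.trans h this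

theorem in_sub (h : F.In A u) (h' : F.In A u') : F.In A fun t => u t - u' t := fun b => by
  have := (F.sub b).pb fun t => (u t, u' t)
  rw [LS.pb_pb] at this
  refine Reg.trans ?_ this
  rintro (c | c)
  · exact (LS.pb_pb (fun t => (u t, u' t)) Prod.fst (F.H c)).symm ▸ h c
  · exact (LS.pb_pb (fun t => (u t, u' t)) Prod.snd (F.H c)).symm ▸ h' c

theorem in_row (h : F.In A u) (h' : F.In A u') (a b : s.Λ) :
    F.In A fun t => a • u t + b • u' t := by
  simpa only [neg_smul, sub_neg_eq_add] using in_sub (in_smul h a) (in_smul h' (-b))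

/-- an irreducible subset as a cycle -/
def cyc {j : ℕ} (V : Set F.G) (h : Src (fun b => (F.H b).pb (Subtype.val : V → F.G)) j) :
    F.Cyc j where
  T := V
  β := s.β
  B b := (F.H b).pb Subtype.val
  z := Subtype.val
  src := h
  reg b := Reg.self (fun b => (F.H b).pb (Subtype.val : V → F.G)) b

theorem src_pb {j : ℕ} (Z : F.Cyc j) : Src (fun b => (F.H b).pb Z.z) j := Z.src.of_reg Z.reg

theorem reg_row {Z Z' : Type} (j : Z → F.G) (j' : Z' → F.G) (a b : s.Λ) :
    F.In (prodB (fun b => (F.H b).pb j) fun b => (F.H b).pb j')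
      fun t => a • j t.1 + b • j' t.2 := by
  refine in_row (fun c => ?_) (fun c => ?_) a b
  · have := (Reg.self (fun b => (F.H b).pb j) c).fst fun b => (F.H b).pb j'
    rwa [LS.pb_pb] at this
  · have := Reg.snd (fun b => (F.H b).pb j) (Reg.self (fun b => (F.H b).pb j') c)
    rwa [LS.pb_pb] at this

/-- the base of a cycle can be replaced by the pulled-back hyperplane systems -/
theorem d_eq {j j' : ℕ} (hj : j + j' = s.n) (Z : F.Cyc j) (W : F.Cyc j') :
    ∃ m : ℕ, ∀ a b, Fib.D Z W a b =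
      m * F.DD (prodB (fun b => (F.H b).pb Z.z) fun b => (F.H b).pb W.z)
        fun t => a • Z.z t.1 + b • W.z t.2 := by
  obtain ⟨m, -, hm⟩ := mix_mul (Z.src.prod W.src) ((src_pb Z).prod (src_pb W)) id (by
    rintro (c | c) <;> rw [LS.pb_id]
    · exact (Z.reg c).fst W.B
    · exact Reg.snd Z.B (W.reg c))
  refine ⟨m, fun a b => ?_⟩
  have := hm s.ν _ hj.le fun k => reg_row Z.z W.z a b (s.sl k)
  simp only [LS.pb_id] at this
  exact this

end blocks

end Sp

open Sp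

variable {Ω : Type} [Field Ω] {R : ValuationSubring ℂ} {r : R →+* Ω} {s : Sh} {C : Fib ℂ s}
  {B : Fib Ω s} (ρ : Red r C B)

theorem Red.cx : C.x = fun t l => R.subtype (ρ.x t l) :=
  funext fun t => funext fun l => (ρ.hx t l).trans (R.subtype_apply _).symm

theorem Red.rd : Rd r s.w ρ.red ρ.x B.x :=
  ⟨fun t => by
    obtain ⟨c, -, h⟩ := ρ.hred t
    exact ⟨c, funext h⟩, B.hx⟩

theorem Red.rdS {T U : Type} {red : T → U} {u : T → C.G} {u' : U → B.G}
    (h : ∀ t, u' (red t) = ρ.red (u t)) :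
    Rd r (sv s) red (fun t z => ρ.x (u t) z.1.2) fun t z => B.x (u' t) z.1.2 := by
  refine ⟨fun t => ?_, fun t k => ?_⟩
  · obtain ⟨c, -, hc⟩ := ρ.hred (u t)
    refine ⟨fun k => c (s.sl k), funext fun z => ?_⟩
    rw [h, hc, z.2]
  · obtain ⟨l, hl, h0⟩ := B.hx (u' t) (s.sl k)
    exact ⟨⟨(k, l), hl⟩, rfl, h0⟩

theorem Red.ch {T σ β : Type} [Fintype β] [DecidableEq β] (w : σ → β) (x : T → σ → R)
    {L : β → Submodule R (T → R)}
    (hL : ∀ b, L b ≤ Submodule.span R ((fun v t => x t v) '' {v | w v = b})) {u : T → C.G}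
    (h : ∀ c, Rg L (blkR s.w (fun t => ρ.x (u t)) c)) :
    Ch w (sv s) x fun t z => ρ.x (u t) z.1.2 := fun t₀ => by
  choose e c G h1 h2 h3 using fun k => Tr.exists_chart w x hL (h (s.sl k)) t₀
  exact ⟨e, fun z => G z.1.1 ⟨z.1.2, z.2⟩, c, fun z => h2 _ _, h1, fun t z => h3 _ t _⟩

theorem Red.isL {P : Place ℂ Ω} (hP : ∀ a, P.To (R.subtype a) (r a)) :
    IsL s.w B.x (spI P (kerG ℂ s.w fun l t => R.subtype (ρ.x t l))) :=
  ρ.rd.isL hP ρ.onto (by
    rw [← ρ.cx]
    exact ρ.flat)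

theorem exists_place_R [IsAlgClosed Ω] (r : R →+* Ω) :
    ∃ P : Place ℂ Ω, ∀ a, P.To (R.subtype a) (r a) :=
  exists_place R.subtype r fun a h => by
    rw [show a = 0 from Subtype.ext h, map_zero]

include ρ in
/-- the degree of an operator is conserved -/
theorem Red.dd [IsAlgClosed Ω] (a : s.Λ) :
    B.DD B.H (fun t => a • t) = C.DD C.H fun t => a • t := by
  obtain ⟨P, hP⟩ := exists_place_R r
  have hrow : ∀ c, Rg (blkR s.w ρ.x) (blkR s.w (fun t => ρ.x (a • t)) c) := fun c => by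
    have h1 := Tr.rg_pb (ρ.row a 0 c) fun t => (t, t)
    rw [blkR, Tr.map_crd] at h1
    simp only [zero_smul, add_zero] at h1
    refine Tr.rg_trans ?_ h1
    rintro (b | b) <;> simp only [Sum.elim_inl, Sum.elim_inr, blkR, Tr.map_crd] <;>
      exact Tr.rg_self (blkR s.w ρ.x) b
  have := spec0' hP ρ.onto ρ.rd (ρ.rdS (u := fun t => a • t) (u' := fun t => a • t)
    fun t => (ρ.red.map_smul a t).symm) (ρ.ch s.w ρ.x (fun b => Submodule.span_mono (by
      rintro _ ⟨l, rfl⟩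
      exact ⟨l.1, l.2, rfl⟩)) hrow) B.cl (ρ.isL hP)
  rw [pp_one B fun t => a • t] at this
  unfold Fib.DD mix
  rw [← this, ← pp_one C fun t => a • t, ρ.cx]

include ρ in
theorem Red.deg' [IsAlgClosed Ω] (h : C.Deg) : B.Deg := fun a => by
  have e := ρ.dd 1
  simp only [one_smul] at e
  rw [ρ.dd a, h a]
  exact congrArg (fun q : ℚ => Det.nm s.χ a * (q : ℂ)) e.symm

theorem Red.exists_spL [IsAlgClosed Ω] {P : Place ℂ Ω} (hP : ∀ a, P.To (R.subtype a) (r a))
    {j : ℕ} (Z : C.Cyc j) : ∃ l, SpL P s.w (fun z l => R.subtype (ρ.x (Z.z z) l)) B.x l ∧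
      ∀ V ∈ l, Src (fun b => (B.H b).pb (Subtype.val : V → B.G)) j := by
  have hc := (ρ.isL hP).cl B.cl
  obtain ⟨l, hl⟩ := Sp.exists_spL (P := P) (w := s.w) (p := B.x)
    fun z l => R.subtype (ρ.x (Z.z z) l)
  refine ⟨l, hl, fun V hV => ?_⟩
  have := hl.src (hc.mono (sp_mono (ker_le Z.z))) B.hx (n := j) (by
    have h1 := (src_pb Z).dg
    have e : pL (fun b => (C.H b).pb Z.z) = PP s.w fun z l => R.subtype (ρ.x (Z.z z) l) := by
      refine congrArg pf (funext fun b => ?_)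
      rw [pb_sp, ρ.cx]
    rwa [e] at h1) V hV
  simpa only [LS.pb_blk] using this

theorem Red.ch2 (a b : s.Λ) : Ch (Sum.map s.w s.w) (sv s)
    (fun t : C.G × C.G => Sum.elim (ρ.x t.1) (ρ.x t.2)) fun t z => ρ.x (a • t.1 + b • t.2) z.1.2 :=
  ρ.ch (Sum.map s.w s.w) _ (by
    rintro (c | c) <;> refine Submodule.span_mono ?_ <;> rintro _ ⟨z, rfl⟩
    · exact ⟨Sum.inl z.1, congrArg Sum.inl z.2, rfl⟩
    · exact ⟨Sum.inr z.1, congrArg Sum.inr z.2, rfl⟩) (ρ.row a b)

theorem Red.rd2 (a b : s.Λ) : Rd r (sv s) (Prod.map ρ.red ρ.red)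
    (fun t z => ρ.x (a • t.1 + b • t.2) z.1.2) fun t z => B.x (a • t.1 + b • t.2) z.1.2 :=
  ρ.rdS (u := fun t : C.G × C.G => a • t.1 + b • t.2)
    (u' := fun t : B.G × B.G => a • t.1 + b • t.2) fun t => by simp

include ρ in
/-- cycles specialise to sums of cycles -/
theorem Red.spec' [IsAlgClosed Ω] {j j' : ℕ} (hj : j + j' = s.n) (Z : C.Cyc j) (W : C.Cyc j') :
    ∃ (m : ℕ) (l : List (B.Cyc j)) (l' : List (B.Cyc j')), ∀ a b, Fib.D Z W a b =
      m * (l.map fun V => (l'.map fun V' => Fib.D V V' a b).sum).sum := by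
  obtain ⟨P, hP⟩ := exists_place_R r
  have hc := (ρ.isL hP).cl B.cl
  obtain ⟨m, hm⟩ := d_eq hj Z W
  obtain ⟨l, hl, h1⟩ := ρ.exists_spL hP Z
  obtain ⟨l', hl', h2⟩ := ρ.exists_spL hP W
  refine ⟨m, l.pmap cyc h1, l'.pmap cyc h2, fun a b => ?_⟩
  rw [hm]
  refine congrArg (fun q : ℚ => m * q) ?_
  have e := pp_two C Z.z W.z fun t => a • Z.z t.1 + b • W.z t.2
  have hd := (((src_pb Z).prod (src_pb W)).ext fun k => reg_row Z.z W.z a b (s.sl k)).dg
  rw [← e, ρ.cx] at hd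
  have := spec2 hP ρ.onto ρ.onto ρ.rd ρ.rd (ρ.rd2 a b) (ρ.ch2 a b) hc hc Z.z W.z hl hl' hd
    (s := slots _ s.ν) (by rw [degree_slots, hj])
  rw [Fib.DD, mix_eq_nc, ← e, ρ.cx, this]
  simp only [List.map_pmap]
  rw [← List.pmap_eq_map h1]
  refine congrArg List.sum (List.pmap_congr_left _ fun V _ _ _ => ?_)
  rw [← List.pmap_eq_map h2]
  refine congrArg List.sum (List.pmap_congr_left _ fun V' _ _ _ => ?_)
  rw [Fib.D, Fib.DD, mix_eq_nc]
  exact congrArg _ (pp_two B Subtype.val Subtype.val fun t : V × V' => a • t.1.1 + b • t.2.1)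

end Pool.Agent.Tav
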