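import Pool.Agent.P.MP_2ce3e7_ag.Tav.AMain
import Pool.Agent.P.MP_2ce3e7_ag.Tav.SFib

set_option autoImplicit false

noncomputable section

namespace Pool.Agent.Tav

open MvPolynomial Module Function

variable {Ω : Type} [Field Ω] [IsAlgClosed Ω] {R : ValuationSubring ℂ} {r : R →+* Ω} {s : Sh}
  {C : Fib ℂ s} {B : Fib Ω s}

theorem Red.deg (h : Red r C B) (_hr : Surjective r) (hC : C.Deg) : B.Deg := h.deg' hC

/-- conservation of the degrees -/
theorem Red.spec (h : Red r C B) (_hr : Surjective r) {j j' : ℕ} (hj : j + j' = s.n)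
    (Z : C.Cyc j) (W : C.Cyc j') : ∃ (c : ℚ) (l : List (B.Cyc j)) (l' : List (B.Cyc j')),
      ∀ a b, Fib.D Z W a b =
        c * (l.map fun Z' => (l'.map fun W' => Fib.D Z' W' a b).sum).sum :=
  let ⟨m, l, l', e⟩ := h.spec' hj Z W
  ⟨m, l, l', e⟩

theorem Red.alg (h : Red r C B) (hr : Surjective r) (hC : C.Deg) {S : Finset s.Γ}
    (hS : C.AlgS S) : B.AlgS S := by
  obtain ⟨j, j', hj, hc, Z, W, h0⟩ := hS
  obtain ⟨c, l, l', e⟩ := h.spec hr hj Z W
  have hB := h.deg hr hC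
  by_contra hn
  have hz : ∀ (Z' : B.Cyc j) (W' : B.Cyc j'), Fib.pS Z' W' S = 0 := fun Z' W' =>
    by_contra fun h1 => hn ⟨j, j', hj, hc, Z', W', h1⟩
  have k1 : ∀ (Z' : B.Cyc j) (l' : List (B.Cyc j')), ∃ p : Finset s.Γ → ℂ, p S = 0 ∧ ∀ a b,
      (((l'.map fun W' => Fib.D Z' W' a b).sum : ℚ) : ℂ) = ∑ T, p T * Det.mon s.χ T a b := by
    intro Z' l'
    induction l' with
    | nil => exact ⟨0, rfl, fun a b => by simp⟩
    | cons W' l' ih =>
      obtain ⟨p, hp, ih⟩ := ih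
      refine ⟨Fib.pS Z' W' + p, by simp [hp, hz], fun a b => ?_⟩
      rw [List.map_cons, List.sum_cons, Rat.cast_add, ih, Fib.exp hB hj, ← Finset.sum_add_distrib]
      exact Finset.sum_congr rfl fun T _ => (add_mul _ _ _).symm
  have k2 : ∀ l : List (B.Cyc j), ∃ p : Finset s.Γ → ℂ, p S = 0 ∧ ∀ a b,
      (((l.map fun Z' => (l'.map fun W' => Fib.D Z' W' a b).sum).sum : ℚ) : ℂ) =
        ∑ T, p T * Det.mon s.χ T a b := by
    intro l
    induction l with
    | nil => exact ⟨0, rfl, fun a b => by simp⟩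
    | cons Z' l ih =>
      obtain ⟨p, hp, ih⟩ := ih
      obtain ⟨p', hp', e'⟩ := k1 Z' l'
      refine ⟨p' + p, by simp [hp, hp'], fun a b => ?_⟩
      rw [List.map_cons, List.sum_cons, Rat.cast_add, ih, e', ← Finset.sum_add_distrib]
      exact Finset.sum_congr rfl fun T _ => (add_mul _ _ _).symm
  obtain ⟨p, hp, e'⟩ := k2 l
  have := Fib.pS_unique hC hj Z W (p := fun T => c * p T) fun a b _ _ => by
    rw [e, Rat.cast_mul, e', Finset.mul_sum]
    exact Finset.sum_congr rfl fun T _ => (mul_assoc _ _ _).symm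
  exact h0 (by rw [this]; simp [hp])

end Pool.Agent.Tav
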