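import Pool.Agent.P.MP_2ce3e7_ag.Tav.FAsm
import Pool.Agent.P.MP_2ce3e7_ag.Tav.FCan
import Pool.Agent.P.MP_2ce3e7_ag.Tav.FTw
import Pool.Agent.P.MP_2ce3e7_ag.Tav.PiR
import Pool.Agent.P.MP_2ce3e7_ag.Tav.PiT
import Pool.Agent.P.MP_2ce3e7_ag.Tav.CMain
import Pool.Agent.P.MP_2ce3e7_ag.Tav.SMain

/-! Items: reductions of tori together with a set of characters. -/

set_option autoImplicit false

noncomputable section

namespace Pool.Agent.Tav

open Module Function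

variable {Ω : Type} [Field Ω] {R : ValuationSubring ℂ}

/-- logarithm of the valuation -/
def lgv (R : ValuationSubring ℂ) (z : ℂ) : Additive (R.ValueGroup)ˣ :=
  open Classical in
  if h : z = 0 then 0 else Additive.ofMul (Units.mk0 (R.valuation z) ((map_ne_zero _).2 h))

theorem lgv_mul {z w : ℂ} (hz : z ≠ 0) (hw : w ≠ 0) : lgv R (z * w) = lgv R z + lgv R w := by
  simp only [lgv, dif_neg hz, dif_neg hw, dif_neg (mul_ne_zero hz hw), ← ofMul_mul]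
  congr 1
  exact Units.ext (by simp)

theorem lgv_eq_zero {z : ℂ} (hz : z ≠ 0) : lgv R z = 0 ↔ R.valuation z = 1 := by
  simp only [lgv, dif_neg hz, ofMul_eq_zero, Units.ext_iff, Units.val_mk0, Units.val_one]

theorem lgv_prod {ι : Type} (S : Finset ι) (f : ι → ℂ) (h : ∀ i ∈ S, f i ≠ 0) :
    lgv R (∏ i ∈ S, f i) = ∑ i ∈ S, lgv R (f i) := by
  classical
  induction S using Finset.induction_on with
  | empty => simpa using (lgv_eq_zero (R := R) one_ne_zero).2 (map_one _)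
  | insert a S ha ih =>
    rw [Finset.prod_insert ha, Finset.sum_insert ha, lgv_mul (h a (Finset.mem_insert_self _ _))
      (Finset.prod_ne_zero_iff.2 fun i hi => h i (Finset.mem_insert_of_mem hi)),
      ih fun i hi => h i (Finset.mem_insert_of_mem hi)]

theorem lgv_pow {z : ℂ} (hz : z ≠ 0) (n : ℕ) : lgv R (z ^ n) = n • lgv R z := by
  have := lgv_prod (R := R) (Finset.range n) (fun _ => z) fun _ _ => hz
  simpa using this

theorem lgv_tf (m : ℤ) (a : Additive (R.ValueGroup)ˣ) (h : m • a = 0) : m = 0 ∨ a = 0 := by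
  by_cases hm : m = 0
  · exact Or.inl hm
  · refine Or.inr ?_
    have h1 : a.toMul ^ m = 1 := congrArg Additive.toMul h
    exact (IsMulTorsionFree.zpow_eq_one_iff_left hm).1 h1

theorem lgv_rule {L : IntermediateField ℚ ℂ} {ι : Type} (S : Finset ι) (f : ι → L) {Q j m : ℕ}
    (hQ : Q ≠ 0) (hm : m ≠ 0) (hS : S.card = 2 * j)
    (h : (∏ i ∈ S, (f i : ℂ)) ^ m = ((Q : ℂ) ^ j) ^ m) (t : Gal(L/ℚ)) :
    (2 : ℤ) • ∑ i ∈ S, lgv R (t (f i)) = (S.card : ℤ) • lgv R Q := by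
  have hQ' : (Q : ℂ) ≠ 0 := Nat.cast_ne_zero.2 hQ
  have h1 : (∏ i ∈ S, f i) ^ m = ((Q : L) ^ j) ^ m := Subtype.ext (by simpa using h)
  have h2 : (∏ i ∈ S, (t (f i) : ℂ)) ^ m = ((Q : ℂ) ^ j) ^ m := by
    have := congrArg (fun z => (t z : ℂ)) h1
    simpa using this
  have h3 : ∏ i ∈ S, (t (f i) : ℂ) ≠ 0 := fun h0 => by
    rw [h0, zero_pow hm] at h2
    exact pow_ne_zero _ (pow_ne_zero _ hQ') h2.symm
  have h4 := congrArg (lgv R) h2
  rw [lgv_pow h3, lgv_pow (pow_ne_zero _ hQ'), lgv_pow hQ',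
    lgv_prod _ _ (Finset.prod_ne_zero_iff.1 h3)] at h4
  have h5 := (lgv_tf (m : ℤ) (∑ i ∈ S, lgv R (t (f i)) - j • lgv R Q)
    (by rw [smul_sub, natCast_zsmul, natCast_zsmul, h4, sub_self])).resolve_left
      (Nat.cast_ne_zero.2 hm)
  rw [sub_eq_zero.1 h5, hS]
  push_cast
  module

section
variable {ι : Type} [Fintype ι] {Γ Γ' : ι → Type}

theorem mem_sg {S : ∀ k, Finset (Γ k)} {k : ι} {ρ : Γ k} :
    (⟨k, ρ⟩ : Σ k, Γ k) ∈ Finset.univ.sigma S ↔ ρ ∈ S k := by simp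

theorem sg_bal (S : ∀ k, Finset (Γ k)) (p : (Σ k, Γ k) → Prop) [DecidablePred p]
    (p' : ∀ k, Γ k → Prop) [∀ k, DecidablePred (p' k)] (h : ∀ k ρ, p ⟨k, ρ⟩ ↔ p' k ρ)
    (h2 : ∑ k, (2 * (((S k).filter (p' k)).card : ℤ) - (S k).card) = 0) :
    2 * ((Finset.univ.sigma S).filter p).card = (Finset.univ.sigma S).card := by
  have h3 : (Finset.univ.sigma S).filter p = Finset.univ.sigma fun k => (S k).filter (p' k) := by
    ext ⟨k, ρ⟩
    simp [h]
  rw [h3, Finset.card_sigma, Finset.card_sigma]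
  rw [Finset.sum_sub_distrib, ← Finset.mul_sum] at h2
  exact_mod_cast sub_eq_zero.1 h2

theorem sg_sub [DecidableEq ι] (S : ∀ k, Finset (Γ k)) (P : Finset ι) :
    (Finset.univ.sigma fun k => if k ∈ P then S k else ∅) ⊆ Finset.univ.sigma S := by
  rintro ⟨k, ρ⟩
  by_cases hk : k ∈ P <;> simp [hk]

theorem sg_diff [DecidableEq ι] [DecidableEq (Σ k, Γ k)] (S : ∀ k, Finset (Γ k)) (P : Finset ι) :
    (Finset.univ.sigma fun k => if k ∈ P then ∅ else S k) =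
      Finset.univ.sigma S \ (Finset.univ.sigma fun k => if k ∈ P then S k else ∅) := by
  ext ⟨k, ρ⟩
  by_cases hk : k ∈ P <;> simp [hk]

theorem sg_map (S : ∀ k, Finset (Γ k)) (e : ∀ k, Γ k ≃ Γ' k) :
    (Finset.univ.sigma fun k => (S k).map (e k).toEmbedding) =
      (Finset.univ.sigma S).map (Equiv.sigmaCongrRight e).toEmbedding := by
  ext ⟨k, ρ⟩
  simp only [Finset.mem_sigma, Finset.mem_univ, true_and, Finset.mem_map_equiv]
  rfl

end

/-- an item -/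
structure It (r : R →+* Ω) (L : IntermediateField ℚ ℂ) where
  s : Sh
  B : Fib Ω s
  Φ : Finset s.Γ
  cm : ∃ (C : Fib ℂ s) (_ : Red r C B) (t : Tor C), t.Φ = Φ
  hL : s.InL L
  bar : ∀ ρ ρ', (∀ a, s.χ ρ' a = star (s.χ ρ a)) → (ρ' ∈ Φ ↔ ρ ∉ Φ)
  π : s.Λ
  S : Finset s.Γ

variable {r : R →+* Ω} {L : IntermediateField ℚ ℂ}

theorem Sh.hol_of {s : Sh} (hL : s.InL L) (Φ : Finset s.Γ) (t : Gal(L/ℚ)) {ρ ρ' : s.Γ}
    (h : ∀ a, s.χ ρ' a = t ⟨s.χ ρ a, hL ρ a⟩) : Sh.Hol hL Φ t ρ ↔ ρ' ∈ Φ := by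
  refine ⟨?_, fun h1 => ⟨ρ', h1, h⟩⟩
  rintro ⟨ρ'', h1, h2⟩
  rwa [s.inj (RingHom.ext fun a => (h a).trans (h2 a).symm : s.χ ρ' = s.χ ρ'')]

namespace It

open Classical in
/-- the type function -/
def ty (i : It r L) (t : Gal(L/ℚ)) : ℤ := ∑ ρ ∈ i.S, if Sh.Hol i.hL i.Φ t ρ then 1 else -1

/-- the valuations -/
def val (i : It r L) (t : Gal(L/ℚ)) : Additive (R.ValueGroup)ˣ :=
  ∑ ρ ∈ i.S, lgv R (t ⟨i.s.χ ρ i.π, i.hL ρ _⟩)

/-- another set of characters -/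
abbrev st (i : It r L) (S : Finset i.s.Γ) : It r L := { i with S := S }

/-- isogeny of items -/
def Iso (j i : It r L) : Prop := ∃ e, j.B.Isg i.B e ∧ i.S = j.S.map e.toEmbedding

/-- algebraicity on the product -/
def AF (ι : Type) [Fintype ι] [DecidableEq ι] (it : ι → It r L) : Prop :=
  (Fib.pi fun k => (it k).B).AlgS (Finset.univ.sigma fun k => (it k).S)

theorem hol_conj (i : It r L) {c : Gal(L/ℚ)} (hc : ∀ z, (c z : ℂ) = star (z : ℂ))
    (t : Gal(L/ℚ)) (ρ : i.s.Γ) : Sh.Hol i.hL i.Φ (c * t) ρ ↔ ¬ Sh.Hol i.hL i.Φ t ρ := by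
  obtain ⟨e, he⟩ := Sh.exists_equiv i.hL t
  obtain ⟨e', he'⟩ := Sh.exists_equiv i.hL (c * t)
  rw [Sh.hol_of i.hL i.Φ _ (he ρ), Sh.hol_of i.hL i.Φ _ (he' ρ)]
  refine i.bar _ _ fun a => ?_
  rw [he, he', AlgEquiv.mul_apply, hc]

theorem ty_odd (i : It r L) {c : Gal(L/ℚ)} (hc : ∀ z, (c z : ℂ) = star (z : ℂ))
    (t : Gal(L/ℚ)) : i.ty (c * t) = - i.ty t := by
  rw [ty, ty, ← Finset.sum_neg_distrib]
  refine Finset.sum_congr rfl fun ρ _ => ?_
  by_cases h : Sh.Hol i.hL i.Φ t ρ <;> simp [i.hol_conj hc, h]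

open Classical in
theorem ty_eq (i : It r L) (t : Gal(L/ℚ)) :
    i.ty t = 2 * (i.S.filter fun ρ => Sh.Hol i.hL i.Φ t ρ).card - i.S.card := by
  rw [ty, Finset.sum_ite, ← Finset.card_filter_add_card_filter_not (s := i.S)
    (fun ρ => Sh.Hol i.hL i.Φ t ρ)]
  simp only [Finset.sum_const, nsmul_eq_mul]
  push_cast
  ring

theorem ty_wt (i : It r L) (t : Gal(L/ℚ)) : ∃ a b : ℕ, a + b = i.S.card ∧ i.ty t = a - b := by
  classical
  have h1 := i.ty_eq t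
  have h2 := Finset.card_filter_le i.S fun ρ => Sh.Hol i.hL i.Φ t ρ
  exact ⟨_, i.S.card - _, Nat.add_sub_cancel' h2, by rw [h1]; omega⟩

variable [IsAlgClosed Ω] {ι : Type} [Fintype ι] [DecidableEq ι]

theorem deg (i : It r L) (hr : Surjective r) : i.B.Deg := by
  obtain ⟨C, d, t, -⟩ := i.cm
  exact d.deg hr t.deg

omit [IsAlgClosed Ω] in
theorem pi_cm (it : ι → It r L) :
    ∃ (C : Fib ℂ (Sh.pi fun k => (it k).s)) (_ : Red r C (Fib.pi fun k => (it k).B)) (t : Tor C),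
      t.Φ = Finset.univ.sigma fun k => (it k).Φ := by
  choose C d t h using fun k => (it k).cm
  obtain ⟨d'⟩ := Red.pi d
  obtain ⟨t', h'⟩ := Tor.pi t
  exact ⟨_, d', t', h'.trans (congrArg Finset.univ.sigma (funext h))⟩

theorem pi_deg (it : ι → It r L) (hr : Surjective r) : (Fib.pi fun k => (it k).B).Deg := by
  obtain ⟨C, d, t, -⟩ := pi_cm it
  exact d.deg hr t.deg

theorem hodge [Normal ℚ L] (hr : Surjective r) (it : ι → It r L)
    (h : ∀ t, ∑ k, (it k).ty t = 0) : AF ι it := by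
  classical
  obtain ⟨C, d, t, ht⟩ := pi_cm it
  refine d.alg hr t.deg (t.alg (Or.inl fun a e he => ?_))
  let a' : ℂ ≃ₐ[ℚ] ℂ := { a with commutes' := fun q => by simp }
  let u : Gal(L/ℚ) := a'.restrictNormal L
  have hu : ∀ z : L, (u z : ℂ) = a z := fun z => a'.restrictNormal_commutes L z
  have h1 : ∀ k ρ, e ⟨k, ρ⟩ ∈ t.Φ ↔ Sh.Hol (it k).hL (it k).Φ u ρ := by
    intro k ρ
    obtain ⟨f, hf⟩ := Sh.exists_equiv (it k).hL u
    have h2 : e ⟨k, ρ⟩ = ⟨k, f ρ⟩ := (Sh.pi fun k => (it k).s).inj (RingHom.ext fun b =>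
      (he _ b).trans ((hf ρ (b k)).trans (hu _)).symm)
    rw [h2, ht, Sh.hol_of _ _ _ (hf ρ)]
    exact mem_sg
  have h2 := h u
  simp only [ty_eq] at h2
  exact @sg_bal ι _ _ (fun k => (it k).S) (fun ρ => e ρ ∈ t.Φ) (_) _ _ h1 h2

theorem cancel (hr : Surjective r) (it : ι → It r L) (P : Finset ι) (h : AF ι it)
    (h' : AF ι fun k => if k ∈ P then it k else (it k).st ∅) :
    AF ι fun k => if k ∈ P then (it k).st ∅ else it k := by
  have e1 : (fun k => if k ∈ P then it k else (it k).st ∅) =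
      fun k => (it k).st (if k ∈ P then (it k).S else ∅) := by
    funext k; split_ifs <;> rfl
  have e2 : (fun k => if k ∈ P then (it k).st ∅ else it k) =
      fun k => (it k).st (if k ∈ P then ∅ else (it k).S) := by
    funext k; split_ifs <;> rfl
  rw [e1] at h'
  rw [e2]
  exact (congrArg (Fib.pi fun k => (it k).B).AlgS (sg_diff (fun k => (it k).S) P)).mpr
    (Fib.AlgS.cancel (pi_deg it hr) h h' (sg_sub (fun k => (it k).S) P))

theorem trans (hr : Surjective r) (it it' : ι → It r L) (h : ∀ k, Iso (it k) (it' k))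
    (h' : AF ι it) : AF ι it' := by
  choose e he hS using h
  have h1 := (Fib.Isg.pi he).alg (fun j j' h Z W => Fib.exp (pi_deg it hr) h Z W) h'
  exact (congrArg (Fib.pi fun k => (it' k).B).AlgS ((congrArg Finset.univ.sigma (funext hS)).trans
    (sg_map (fun k => (it k).S) e))).mpr h1

theorem hval (hr : Surjective r) {Q : ℕ} (hQ : FrobF Ω Q) (it : ι → It r L)
    (h : ∀ k, (it k).B.Frob (it k).π Q) (h' : AF ι it) (t : Gal(L/ℚ)) :
    (2 : ℤ) • ∑ k, (it k).val t = ((∑ k, (it k).S.card : ℕ) : ℤ) • lgv R Q := by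
  have hF : (Fib.pi fun k => (it k).B).Frob (fun k => (it k).π) Q := by
    intro y
    choose c hc hc' using fun k => h k (y k)
    exact ⟨fun b => c b.1 b.2, fun b => hc _ _, fun l => hc' l.1 l.2⟩
  obtain ⟨j, hj, m, hm, h1⟩ := h'.fr (pi_deg it hr) hF hQ
  have h2 := lgv_rule (R := R) (Finset.univ.sigma fun k => (it k).S)
    (fun ρ => ⟨(it ρ.1).s.χ ρ.2 (it ρ.1).π, (it ρ.1).hL _ _⟩) (by have := hQ.1; omega) hm hj h1 t
  rwa [Finset.sum_sigma, Finset.card_sigma] at h2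

omit [IsAlgClosed Ω] in
theorem iso_refl (i : It r L) : Iso i i := ⟨Equiv.refl _, Fib.Isg.refl _, by simp⟩

theorem desc (hr : Surjective r) (it : ι → It r L) (k₀ : ι) (h : ∀ k, k ≠ k₀ → (it k).S = ∅)
    (h' : AF ι it) : (it k₀).B.AlgS (it k₀).S :=
  Fib.AlgS.desc (pi_deg it hr) k₀ ((it k₀).deg hr) h' h

theorem af_unit (hr : Surjective r) (i : It r L) (h : i.B.AlgS i.S) : AF Unit fun _ => i := by
  have h1 : i.B.Isg (Fib.pi fun _ : Unit => i.B) (Equiv.uniqueSigma fun _ : Unit => i.s.Γ).symm := by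
    refine ⟨AddMonoidHom.pi fun _ => AddMonoidHom.id _, fun a => a (), fun y => ⟨y (), rfl⟩,
      fun b => ?_, fun _ _ => rfl, fun _ _ => rfl⟩
    have h2 := Reg.self i.B.H b.2
    rw [← LS.pb_id (i.B.H b.2)] at h2
    have h3 : (Fib.pi fun _ : Unit => i.B).H b = _ := Fib.pi_H (fun _ : Unit => i.B) b.1 b.2
    rw [h3, LS.pb_pb]
    exact h2
  have h2 := h1.alg (fun j j' h Z W => Fib.exp (i.deg hr) h Z W) h
  refine (congrArg (Fib.pi fun _ : Unit => i.B).AlgS ?_).mpr h2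
  refine Finset.ext fun ρ => mem_sg.trans ?_
  exact (Finset.mem_map_equiv (f := (Equiv.uniqueSigma fun _ : Unit => i.s.Γ).symm)).symm

/-- the decomposition group -/
def dec (R : ValuationSubring ℂ) (L : IntermediateField ℚ ℂ) : Subgroup Gal(L/ℚ) where
  carrier := {s | ∀ z : L, (s z : ℂ) ∈ R ↔ (z : ℂ) ∈ R}
  one_mem' _ := Iff.rfl
  mul_mem' {a b} ha hb z := (ha (b z)).trans (hb z)
  inv_mem' {a} ha z := by
    have := ha (a⁻¹ z)
    rw [← AlgEquiv.mul_apply, mul_inv_cancel] at this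
    exact this.symm

/-- the assembly -/
theorem main [FiniteDimensional ℚ L] [IsGalois ℚ L] (hr : Surjective r) {Q : ℕ} (hQ : FrobF Ω Q)
    (hv : R.valuation (Q : ℂ) ≠ 1) {c : Gal(L/ℚ)} (hc : ∀ z, (c z : ℂ) = star (z : ℂ))
    (hcc : ∀ s, s * c = c * s) (hz : c ∉ dec R L) (Fu : It r L → Prop)
    (hFu : ∀ i, Fu i → i.S.card = 1 ∧ i.B.Frob i.π Q)
    (full : ∀ f, IsTy (c * ·) f → ∃ i, Fu i ∧ i.ty = f)
    (twist : ∀ i, Fu i → ∀ u ∈ dec R L, ∃ j : It r L, (∀ t, j.ty t = i.ty (u * t)) ∧ Iso j i)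
    (hst : ∀ i, Fu i → (∀ u ∈ dec R L, ∀ t, i.ty (u * t) = i.ty t) → ∀ t, i.ty t = -1 →
      i.val t = 0)
    (i : It r L) (hi : i.B.Frob i.π Q) {j m : ℕ} (hm : m ≠ 0) (hS : i.S.card = 2 * j)
    (h : (∏ ρ ∈ i.S, i.s.χ ρ i.π) ^ m = ((Q : ℂ) ^ j) ^ m) : i.B.AlgS i.S := by
  classical
  have hQ0 : Q ≠ 0 := by have := hQ.1; omega
  let I := {i : It r L // ∃ j : It r L, j.B.Frob j.π Q ∧ Iso (i.st ∅) (j.st ∅)}
  have ok : ∀ i : It r L, i.B.Frob i.π Q → ∃ j : It r L, j.B.Frob j.π Q ∧ Iso (i.st ∅) (j.st ∅) :=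
    fun i hi => ⟨i, hi, iso_refl _⟩
  have hc2 : c * c = 1 := AlgEquiv.ext fun z => Subtype.ext (by
    rw [AlgEquiv.mul_apply, hc, hc, star_star]; rfl)
  have key := fam_of_tate (X := Gal(L/ℚ)) (D := dec R L) (I := I) (lgv_tf (R := R)) (c * ·)
    (fun x => by simp only [← mul_assoc, hc2, one_mul])
    (fun u x => by
      change c * (u.1 * x) = u.1 * (c * x)
      rw [← mul_assoc, ← hcc, mul_assoc])
    (fun u x h => hz ((mul_right_cancel h : u.1 = c) ▸ u.2))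
    (fun i => i.1.S.card) (fun i => i.1.ty) (fun i => Fu i.1) (fun i => i.1.B.Frob i.1.π Q)
    (fun ι _ _ it => AF ι fun k => (it k).1) (fun i => ⟨i.1.st ∅, i.2⟩) (fun j i => Iso j.1 i.1)
    (fun _ => rfl) (fun i => i.1.ty_odd hc) (fun i => i.1.ty_wt) (fun i h => (hFu _ h).1)
    (fun i h => (hFu _ h).2)
    (fun f hf => by
      obtain ⟨i, h1, h2⟩ := full f hf
      exact ⟨⟨i, ok i (hFu i h1).2⟩, h1, h2⟩)
    (fun ι _ _ it h => hodge hr _ h)
    (fun ι _ _ it P h h' => by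
      simp only [apply_ite Subtype.val] at h' ⊢
      exact cancel hr _ P h h')
    (fun ι _ _ it it' h h' => trans hr _ _ h h') (fun i => iso_refl _)
    (fun i hi u => by
      obtain ⟨j, h1, e, h2, h3⟩ := twist i.1 hi u.1 u.2
      exact ⟨⟨j, i.1, (hFu _ hi).2, e, h2, by simp⟩, h1, e, h2, h3⟩)
    (fun i => by
      obtain ⟨j, h1, h2⟩ := i.2
      exact ⟨⟨j, ok j h1⟩, h1, h2⟩)
    (fun ι _ _ it k₀ h h' => af_unit hr _ (desc hr _ k₀ (fun k hk => by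
      have h1 := congrArg (fun i : I => i.1.S.card) (h k hk)
      exact Finset.card_eq_zero.1 h1.symm) h'))
    (fun i => i.1.val) (lgv R Q) (fun h => hv ((lgv_eq_zero (Nat.cast_ne_zero.2 hQ0)).1 h))
    (fun _ => rfl) (fun _ _ => rfl) (fun ι _ _ it h h' t => hval hr hQ _ h h' t)
    (fun i hi _ hs => hst i.1 hi fun u hu => hs ⟨u, hu⟩) ⟨i, ok i hi⟩ hi ⟨j, by
      change i.S.card = _
      omega⟩
    (lgv_rule i.S (fun ρ => ⟨i.s.χ ρ i.π, i.hL _ _⟩) hQ0 hm hS h)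
  exact desc hr (fun _ : Unit => i) () (fun k hk => absurd rfl hk) key

end It

end Pool.Agent.Tav
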