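import Pool.Agent.P.MP_2ce3e7_ag.Tav.Disc

/-! Kernels of endomorphisms of `V/Λ`, valuations of their eigenvalues, and the analytic meaning
of `tng`. -/

set_option autoImplicit false

noncomputable section

namespace Pool.Agent.Tav.Disc

open MvPolynomial Filter Topology Module

section Lat

variable {V : Type*} [NormedAddCommGroup V] [NormedSpace ℂ V] [FiniteDimensional ℂ V]

/-- the real determinant is the product of the eigenvalues on a full family of covectors -/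
theorem det_eq_prod {K : Type*} [Fintype K] (ξ : K → V →L[ℝ] ℂ) (hξ : LinearIndependent ℂ ξ)
    (hK : Fintype.card K = finrank ℝ V) (a : V →ₗ[ℝ] V) (α : K → ℂ)
    (ha : ∀ ρ v, ξ ρ (a v) = α ρ * ξ ρ v) : ((LinearMap.det a : ℝ) : ℂ) = ∏ ρ, α ρ := by
  classical
  let b : Basis K ℝ V := (Module.finBasisOfFinrankEq ℝ V hK.symm).reindex (Fintype.equivFin K).symm
  let X : Matrix K K ℂ := Matrix.of fun ρ j => ξ ρ (b j)
  let ev : (V →L[ℝ] ℂ) →ₗ[ℂ] K → ℂ :=
    { toFun := fun φ j => φ (b j), map_add' := fun _ _ => rfl, map_smul' := fun _ _ => rfl }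
  have hev : LinearMap.ker ev = ⊥ := LinearMap.ker_eq_bot'.2 fun φ h =>
    ContinuousLinearMap.coe_injective (b.ext fun j => congrFun h j)
  have hX : IsUnit X := Matrix.linearIndependent_rows_iff_isUnit.1 (hξ.map' ev hev)
  have h1 : X * (LinearMap.toMatrix b b a).map Complex.ofRealHom = Matrix.diagonal α * X := by
    ext ρ j
    rw [Matrix.diagonal_mul, Matrix.mul_apply]
    simp only [X, Matrix.of_apply, Matrix.map_apply, LinearMap.toMatrix_apply, ← ha]
    conv_rhs => rw [← b.sum_repr (a (b j)), map_sum]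
    refine Finset.sum_congr rfl fun i _ => ?_
    rw [map_smul, Complex.real_smul, mul_comm]
    rfl
  have h2 := congrArg Matrix.det h1
  rw [Matrix.det_mul, Matrix.det_mul, Matrix.det_diagonal, mul_comm, ← RingHom.mapMatrix_apply,
    ← RingHom.map_det, LinearMap.det_toMatrix] at h2
  exact mul_right_cancel₀ ((Matrix.isUnit_iff_isUnit_det X).1 hX).ne_zero h2

theorem det_nonneg (a : V →ₗ[ℂ] V) : 0 ≤ LinearMap.det (a.restrictScalars ℝ) := by
  rw [LinearMap.det_restrictScalars, Algebra.norm_complex_apply]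
  exact Complex.normSq_nonneg _

variable (Λ : Submodule ℤ V) [DiscreteTopology Λ] [IsZLattice ℝ Λ]

/-- the kernel of the endomorphism of `V/Λ` induced by `a` -/
def kerQ (a : V → V) : Set (V ⧸ Λ) := Λ.mkQ '' {v | a v ∈ Λ}

theorem card_kerQ_det (a : V →ₗ[ℝ] V) (h : ∀ l ∈ Λ, a l ∈ Λ) (hd : LinearMap.det a ≠ 0) :
    (Nat.card (kerQ Λ a) : ℝ) = |LinearMap.det a| := by
  classical
  let f : Λ →ₗ[ℤ] Λ := (a.restrictScalars ℤ).restrict h
  let b := Module.Free.chooseBasis ℤ Λ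
  have hdet : ((LinearMap.det f : ℤ) : ℝ) = LinearMap.det a := by
    rw [← LinearMap.det_toMatrix b, ← LinearMap.det_toMatrix (b.ofZLatticeBasis ℝ Λ),
      ← eq_intCast (Int.castRingHom ℝ), RingHom.map_det]
    congr 1
    ext i j
    simp only [RingHom.mapMatrix_apply, Matrix.map_apply, LinearMap.toMatrix_apply, eq_intCast,
      Basis.ofZLatticeBasis_apply, ← Basis.ofZLatticeBasis_repr_apply ℝ Λ b]
    rfl
  let e := LinearMap.equivOfDetNeZero a hd
  have he : ∀ v, e v = a v := fun v => rfl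
  have hf : Function.Injective f := fun x y hxy =>
    Subtype.ext (e.injective (congrArg Subtype.val hxy))
  have h1 := Submodule.natAbs_det_equiv (LinearMap.range f) (LinearEquiv.ofInjective f hf)
  have h2 : (LinearMap.range f).subtype ∘ₗ AddMonoidHom.toIntLinearMap
      ((LinearEquiv.ofInjective f hf : Λ ≃ₗ[ℤ] LinearMap.range f) : Λ →+ LinearMap.range f) = f :=
    LinearMap.ext fun _ => rfl
  rw [h2] at h1
  let g : Λ →ₗ[ℤ] V ⧸ Λ := Λ.mkQ ∘ₗ (e.symm.toLinearMap.restrictScalars ℤ) ∘ₗ Λ.subtype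
  have hg : LinearMap.ker g = LinearMap.range f := by
    ext l
    rw [LinearMap.mem_ker, LinearMap.mem_range]
    change Λ.mkQ (e.symm l) = 0 ↔ _
    rw [Submodule.mkQ_apply, Submodule.Quotient.mk_eq_zero]
    refine ⟨fun hl => ⟨⟨_, hl⟩, Subtype.ext (e.apply_symm_apply _)⟩, ?_⟩
    rintro ⟨m, rfl⟩
    have : e.symm (f m : Λ) = m := e.symm_apply_apply m
    rw [this]
    exact m.2
  have hr : kerQ Λ a = LinearMap.range g := by
    ext x
    constructor
    · rintro ⟨v, hv, rfl⟩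
      exact ⟨⟨a v, hv⟩, congrArg Λ.mkQ (e.symm_apply_apply v)⟩
    · rintro ⟨l, rfl⟩
      refine ⟨e.symm l, ?_, rfl⟩
      rw [Set.mem_ofPred_eq, ← he, e.apply_symm_apply]
      exact l.2
  rw [hr, ← hdet, ← Int.cast_abs, ← Int.natCast_natAbs, Int.cast_natCast, h1, ← hg]
  exact congrArg _ (Nat.card_congr g.quotKerEquivRange.toEquiv).symm

/-- `#ker a = ∏ eigenvalues` -/
theorem card_kerQ {K : Type*} [Fintype K] (ξ : K → V →L[ℝ] ℂ) (hξ : LinearIndependent ℂ ξ)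
    (hK : Fintype.card K = 2 * finrank ℂ V) (a : V →ₗ[ℂ] V) (h : ∀ l ∈ Λ, a l ∈ Λ) (α : K → ℂ)
    (ha : ∀ ρ v, ξ ρ (a v) = α ρ * ξ ρ v) (h0 : ∀ ρ, α ρ ≠ 0) :
    (Nat.card (kerQ Λ a) : ℂ) = ∏ ρ, α ρ := by
  have h1 := det_eq_prod ξ hξ (hK.trans (finrank_real_of_complex V).symm) (a.restrictScalars ℝ) α ha
  have h2 : LinearMap.det (a.restrictScalars ℝ) ≠ 0 := fun h3 => by
    rw [h3, Complex.ofReal_zero] at h1
    exact Finset.prod_ne_zero_iff.2 (fun ρ _ => h0 ρ) h1.symm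
  have h3 := card_kerQ_det Λ (a.restrictScalars ℝ) h h2
  rw [abs_of_nonneg (det_nonneg a)] at h3
  rw [← h1, ← h3]
  rfl

theorem finite_kerQ (a : V →ₗ[ℝ] V) (h : ∀ l ∈ Λ, a l ∈ Λ) (hd : LinearMap.det a ≠ 0) :
    (kerQ Λ a).Finite := by
  have := card_kerQ_det Λ a h hd
  refine Set.finite_coe_iff.1 (Nat.finite_of_card_ne_zero fun h0 => hd ?_)
  rw [h0, Nat.cast_zero] at this
  exact abs_eq_zero.1 this.symm

/-- if the kernels of two commuting endomorphisms meet in `0` then `aΛ + bΛ = Λ` -/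
theorem sum_eq_of_ker (a b : V →ₗ[ℝ] V) (ha : ∀ l ∈ Λ, a l ∈ Λ) (hb : ∀ l ∈ Λ, b l ∈ Λ)
    (hd : LinearMap.det a ≠ 0) (hc : ∀ v, a (b v) = b (a v))
    (h : ∀ v, a v ∈ Λ → b v ∈ Λ → v ∈ Λ) {l : V} (hl : l ∈ Λ) :
    ∃ x ∈ Λ, ∃ y ∈ Λ, l = a x + b y := by
  have := (finite_kerQ Λ a ha hd).to_subtype
  let B : V ⧸ Λ →ₗ[ℤ] V ⧸ Λ := Λ.mapQ Λ (b.restrictScalars ℤ) hb
  have hB : ∀ x ∈ kerQ Λ a, B x ∈ kerQ Λ a := by
    rintro _ ⟨v, hv, rfl⟩
    exact ⟨b v, show a (b v) ∈ Λ from hc v ▸ hb _ hv, rfl⟩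
  have hi : Function.Injective (Set.MapsTo.restrict B _ _ hB) := by
    rintro ⟨_, v, hv, rfl⟩ ⟨_, w, hw, rfl⟩ hvw
    have h1 : b v - b w ∈ Λ := (Submodule.Quotient.eq Λ).1 (congrArg Subtype.val hvw)
    refine Subtype.ext ((Submodule.Quotient.eq Λ).2 (h _ ?_ ?_))
    · rw [map_sub]
      exact sub_mem hv hw
    · rwa [map_sub]
  let e := LinearMap.equivOfDetNeZero a hd
  have he : a (e.symm l) = l := e.apply_symm_apply l
  obtain ⟨⟨_, w, hw, rfl⟩, h2⟩ := Finite.injective_iff_surjective.1 hi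
    ⟨_, e.symm l, show a _ ∈ Λ from he.symm ▸ hl, rfl⟩
  have h3 : e.symm l - b w ∈ Λ := (Submodule.Quotient.eq Λ).1 (congrArg Subtype.val h2).symm
  exact ⟨_, h3, _, hw, by rw [map_sub, he, hc, sub_add_cancel]⟩

/-- a nonzero covector takes a largest nonzero valuation on the lattice -/
theorem exists_max_val (R : ValuationSubring ℂ) {ξ : V →L[ℝ] ℂ} (hξ : ξ ≠ 0) :
    ∃ l ∈ Λ, ξ l ≠ 0 ∧ ∀ m ∈ Λ, R.valuation (ξ m) ≤ R.valuation (ξ l) := by
  let b := Module.Free.chooseBasis ℤ Λ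
  obtain ⟨j0, hj0⟩ : ∃ j, ξ (b j) ≠ 0 := by
    by_contra hn
    refine hξ (ContinuousLinearMap.coe_injective ((b.ofZLatticeBasis ℝ Λ).ext fun j => ?_))
    rw [Basis.ofZLatticeBasis_apply]
    exact not_not.1 fun h => hn ⟨j, h⟩
  obtain ⟨j, -, hj⟩ := Finset.exists_max_image Finset.univ (fun j => R.valuation (ξ (b j)))
    ⟨j0, Finset.mem_univ _⟩
  refine ⟨b j, (b j).2, fun h => hj0 ?_, fun m hm => ?_⟩
  · have := hj j0 (Finset.mem_univ _)
    rwa [h, map_zero, le_zero_iff, map_eq_zero] at this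
  · have h1 : m = ∑ i, b.repr ⟨m, hm⟩ i • (b i : V) := by
      have := congrArg Subtype.val (b.sum_repr ⟨m, hm⟩)
      rw [Submodule.coe_sum] at this
      exact this.symm
    rw [h1, map_sum]
    refine Valuation.map_sum_le _ fun i _ => ?_
    rw [map_zsmul, zsmul_eq_mul, map_mul]
    exact mul_le_of_le_one_of_le ((R.valuation_le_one_iff _).2 (intCast_mem R _))
      (hj i (Finset.mem_univ _))

/-- eigenvalues of endomorphisms are integral -/
theorem val_le_one (R : ValuationSubring ℂ) {ξ : V →L[ℝ] ℂ} (hξ : ξ ≠ 0) {a : V → V}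
    (ha : ∀ l ∈ Λ, a l ∈ Λ) {α : ℂ} (hα : ∀ v, ξ (a v) = α * ξ v) : R.valuation α ≤ 1 := by
  obtain ⟨l, hl, h0, hm⟩ := exists_max_val Λ R hξ
  have := hm _ (ha l hl)
  rw [hα, map_mul] at this
  exact le_of_mul_le_mul_right (this.trans_eq (one_mul _).symm) (zero_lt_iff.2 ((map_ne_zero _).2 h0))

/-- if the kernels meet in `0`, one of the two eigenvalues on a common covector is a unit -/
theorem unit_or_unit (R : ValuationSubring ℂ) (a b : V →ₗ[ℝ] V) (ha : ∀ l ∈ Λ, a l ∈ Λ)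
    (hb : ∀ l ∈ Λ, b l ∈ Λ) (hd : LinearMap.det a ≠ 0) (hc : ∀ v, a (b v) = b (a v))
    (h : ∀ v, a v ∈ Λ → b v ∈ Λ → v ∈ Λ) {ξ : V →L[ℝ] ℂ} (hξ : ξ ≠ 0) {α β : ℂ}
    (hα : ∀ v, ξ (a v) = α * ξ v) (hβ : ∀ v, ξ (b v) = β * ξ v) :
    R.valuation α = 1 ∨ R.valuation β = 1 := by
  by_contra hn
  rw [not_or] at hn
  obtain ⟨l, hl, h0, hm⟩ := exists_max_val Λ R hξ
  obtain ⟨x, hx, y, hy, h1⟩ := sum_eq_of_ker Λ a b ha hb hd hc h hl
  have hp := zero_lt_iff.2 ((map_ne_zero R.valuation).2 h0)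
  have key : ∀ (γ : ℂ) (z : V), z ∈ Λ → R.valuation γ < 1 →
      R.valuation (γ * ξ z) < R.valuation (ξ l) := fun γ z hz hγ => by
    rw [map_mul]
    exact (mul_le_mul_right (hm z hz) _).trans_lt (mul_lt_of_lt_one_left hp hγ)
  have h2 := R.valuation.map_add_lt (key α x hx ((val_le_one Λ R hξ ha hα).lt_of_ne hn.1))
    (key β y hy ((val_le_one Λ R hξ hb hβ).lt_of_ne hn.2))
  rw [← hα, ← hβ, ← map_add, ← h1] at h2
  exact h2.false

end Lat

section An

variable {σ O : Type*} [Fintype σ] [CommRing O] [Algebra O ℂ]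

theorem hasDerivAt_aeval {γ : ℂ → σ → ℂ} {w : σ → ℂ} {t : ℂ} (h : HasDerivAt γ w t)
    (f : MvPolynomial σ O) : HasDerivAt (fun s => aeval (γ s) f) (tng (γ t) w f) t := by
  induction f using MvPolynomial.induction_on with
  | C a =>
    simp only [aeval_C, tng_C]
    exact hasDerivAt_const _ _
  | add f g hf hg =>
    simp only [map_add, tng_add]
    exact hf.add hg
  | mul_X f j hf =>
    simp only [map_mul, aeval_X, tng_mul, tng_X]
    exact (hf.mul (hasDerivAt_pi.1 h j)).congr_deriv (by ring)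

variable {V : Type*} [NormedAddCommGroup V] [NormedSpace ℂ V] {u : V → σ → ℂ}
  {u' : V →L[ℂ] σ → ℂ}

theorem hasDerivAt_line (h : HasFDerivAt u u' 0) (v : V) :
    HasDerivAt (fun s : ℂ => u (s • v)) (u' v) 0 := by
  have h1 : HasDerivAt (fun s : ℂ => s • v) v 0 := by
    simpa using (hasDerivAt_id (0 : ℂ)).smul_const v
  exact HasFDerivAt.comp_hasDerivAt_of_eq 0 h h1 (zero_smul ℂ v).symm

theorem tendsto_line (v : V) : Tendsto (fun s : ℂ => s • v) (𝓝 0) (𝓝 0) :=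
  (continuous_id.smul continuous_const).tendsto' _ _ (zero_smul ℂ v)

/-- equations of the image kill the image of the derivative -/
theorem tng_eq_zero (h : HasFDerivAt u u' 0) {f : MvPolynomial σ O} {c : ℂ}
    (hf : ∀ᶠ z in 𝓝 0, aeval (u z) f = c) (v : V) : tng (u 0) (u' v) f = 0 := by
  have h1 := hasDerivAt_aeval (hasDerivAt_line h v) f
  rw [zero_smul] at h1
  exact h1.unique ((hasDerivAt_const _ c).congr_of_eventuallyEq ((tendsto_line v).eventually hf))

/-- the tangent map of a chart `G` of the endomorphism `a` is `a` -/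
theorem tng_chart (h : HasFDerivAt u u' 0) (a : V →L[ℂ] V) {g g0 : MvPolynomial σ O} {i : σ}
    (hg : ∀ᶠ z in 𝓝 0, aeval (u z) g = aeval (u z) g0 * u (a z) i) (v : V) :
    tng (u 0) (u' v) g - u 0 i * tng (u 0) (u' v) g0 = aeval (u 0) g0 * u' (a v) i := by
  have h1 := hasDerivAt_aeval (hasDerivAt_line h v) g
  have h2 := (hasDerivAt_aeval (hasDerivAt_line h v) g0).mul
    (hasDerivAt_pi.1 (hasDerivAt_line h (a v)) i)
  simp only [zero_smul] at h1 h2
  have h3 := h1.unique (h2.congr_of_eventuallyEq (((tendsto_line v).eventually hg).mono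
    fun s hs => by simpa using hs))
  rw [h3]
  ring

end An

end Pool.Agent.Tav.Disc
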