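import Pool.Agent.P.MP_2ce3e7_ag.Tav.FGal
import Pool.Agent.P.MP_2ce3e7_ag.Tav.Lat

/-! Types that are stable under the decomposition group are ordinary. -/

set_option autoImplicit false

noncomputable section

namespace Pool.Agent.Tav.FO

open Function

variable {Ω : Type} [Field Ω] {R : ValuationSubring ℂ} {r : R →+* Ω} {σ : Type} [Fintype σ]
  {g : ℕ}

omit [Fintype σ] in
theorem par_of_pow {q : ℕ} (hq : Injective fun x : Ω => x ^ q) {u o : σ → Ω} (hu : u ≠ 0)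
    (ho : o ≠ 0) {w : σ → Ω} (h : Par w (u ^ q)) (h' : Par w (o ^ q)) : Par u o := by
  obtain ⟨c, hc, h⟩ := h
  obtain ⟨d, hd, h'⟩ := h'
  have key : ∀ j l, u j * o l = o j * u l := by
    intro j l
    refine hq ?_
    have h1 := congrFun (h.symm.trans h') j
    have h2 := congrFun (h.symm.trans h') l
    simp only [Pi.smul_apply, Pi.pow_apply, smul_eq_mul] at h1 h2
    refine mul_left_cancel₀ hc.ne_zero ?_
    simp only [mul_pow]
    linear_combination o l ^ q * h1 - o j ^ q * h2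
  obtain ⟨l, hl⟩ := Function.ne_iff.1 ho
  have hl : o l ≠ 0 := hl
  have hul : u l ≠ 0 := by
    intro h0
    refine hu (funext fun j => ?_)
    have := key j l
    rw [h0, mul_zero] at this
    exact (mul_eq_zero.1 this).resolve_right hl
  refine ⟨u l / o l, (div_ne_zero hul hl).isUnit, funext fun j => ?_⟩
  rw [Pi.smul_apply, smul_eq_mul, div_mul_eq_mul_div, eq_div_iff hl, key, mul_comm]

theorem red_lat (Y : Model r σ g) {l : Fin g → ℂ} (hl : l ∈ Y.Λ) : Y.red l = 0 := by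
  obtain ⟨c, hc, h⟩ := (Y.ker l 0).2 (by simpa using hl)
  obtain ⟨a, ha, h1⟩ := Y.hred l
  obtain ⟨b, hb, h2⟩ := Y.hred 0
  rw [← map_zero Y.red]
  refine Y.inj _ _ ⟨a * r c * b⁻¹, (ha.mul (hc.map r)).mul hb.ne_zero.isUnit.inv, ?_⟩
  rw [h1, h2, h]
  funext j
  simp only [Pi.smul_apply, smul_eq_mul, map_mul]
  field_simp [hb.ne_zero]

theorem red_of_frob (Y : Model r σ g) {Q : ℕ} (hq : Injective fun x : Ω => x ^ Q)
    {π : Fin g → ℂ} (hF : ∀ v, Par (Y.p (Y.red (π * v))) (Y.p (Y.red v) ^ Q)) {v : Fin g → ℂ}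
    (hv : π * v ∈ Y.Λ) : Y.red v = 0 := by
  have h1 := hF v
  have h2 := hF 0
  rw [red_lat Y hv] at h1
  rw [mul_zero, map_zero] at h2
  exact Y.inj _ _ (par_of_pow hq (Y.sp.ne _) (Y.sp.ne _) h1 h2)

/-- the covectors -/
def cov (γ : Fin g ⊕ Fin g) : (Fin g → ℂ) →L[ℝ] ℂ :=
  Sum.elim (fun i => ContinuousLinearMap.proj i)
    (fun i => (Complex.conjCLE : ℂ →L[ℝ] ℂ).comp (ContinuousLinearMap.proj i)) γ

theorem cov_apply (γ : Fin g ⊕ Fin g) (v : Fin g → ℂ) : cov γ v = Sum.elim v (star v) γ := by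
  rcases γ with i | i <;> rfl

/-- a lift of Frobenius is a unit at the antiholomorphic conjugates of a character whose type is
stable under the decomposition group -/
theorem unit_of_disc (Y : Model r σ g) {L : IntermediateField ℚ ℂ}
    [FiniteDimensional ℚ L] [IsGalois ℚ L] (hL : ∀ a ∈ En Y.Λ, ∀ i, a i ∈ L)
    {n₀ : ℕ} (hn₀ : R.valuation (n₀ : ℂ) = 1)
    (max : ∀ a, IsIntegral ℤ a → ∀ n : ℕ, n ≠ 0 → n • a ∈ En Y.Λ → n₀ • a ∈ En Y.Λ)
    (disc : ∀ a ∈ En Y.Λ, (∀ j, R.valuation (a j) = 1) → ∀ v, Y.red v = 0 → a * v ∈ Y.Λ →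
      v ∈ Y.Λ)
    (hR : ∃ z : L, (z : ℂ) ∉ R) {Q : ℕ} (hq : Injective fun x : Ω => x ^ Q)
    {π : Fin g → ℂ} (hπ : π ∈ En Y.Λ)
    (hF : ∀ v, Par (Y.p (Y.red (π * v))) (Y.p (Y.red v) ^ Q)) (i : Fin g)
    (hst : ∀ s : Gal(L/ℚ), (∀ z : L, (s z : ℂ) ∈ R ↔ (z : ℂ) ∈ R) →
      ∀ t, Hol hL t i → Hol hL (s * t) i) (t : Gal(L/ℚ)) (ht : ¬ Hol hL t i) :
    R.valuation (t ⟨π i, hL π hπ i⟩ : ℂ) = 1 := by
  have := Y.lat
  obtain ⟨a, ha, h1, h2⟩ := exists_sep_en hL Y.cm R hn₀ max hR i hst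
  obtain ⟨γ, hγ⟩ := perm hL ((algebraMap L ℂ).comp (t : L →+* L)) i
  have hm : ∀ b v : Fin g → ℂ, cov γ (b * v) = Sum.elim b (star b) γ * cov γ v := by
    intro b v
    rw [cov_apply, cov_apply]
    rcases γ with j | j <;> simp
  have h3 := Disc.unit_or_unit Y.Λ R ((LinearMap.mulLeft ℂ a).restrictScalars ℝ)
    ((LinearMap.mulLeft ℂ π).restrictScalars ℝ) ha hπ (by
      refine (LinearMap.isUnit_iff_isUnit_det _).1 ?_ |>.ne_zero
      rw [LinearMap.isUnit_iff_ker_eq_bot, LinearMap.ker_eq_bot']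
      intro v hv
      funext j
      have h4 : a j * v j = 0 := congrFun hv j
      refine (mul_eq_zero.1 h4).resolve_left fun h0 => ?_
      have := h1 j
      rw [h0, map_zero] at this
      exact zero_ne_one this)
    (fun v => mul_left_comm a π v)
    (fun v hv hv' => disc a ha h1 v (red_of_frob Y hq hF hv') hv) (ξ := cov γ)
    (fun h0 => by
      have h4 := cov_apply γ 1
      rw [h0] at h4
      rcases γ with j | j <;> simp at h4)
    (hm a) (hm π)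
  rw [← hγ a ha, ← hγ π hπ] at h3
  exact h3.resolve_left (h2 t ht).ne

end Pool.Agent.Tav.FO
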