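import Pool.Agent.P.MP_2ce3e7_ag.Tav.Lat

/-! The cotangent step for a projective uniformisation `u : V → ℂ^σ`. -/

set_option autoImplicit false

noncomputable section

namespace Pool.Agent.Tav.Disc

open MvPolynomial Filter Topology Module

theorem exists_rightInv {κ σ A : Type*} [Fintype κ] [Fintype σ] [DecidableEq κ] [CommRing A]
    (B : Matrix κ σ A) (J : κ → σ) (h : IsUnit (B.submatrix id J).det) :
    ∃ E : Matrix σ κ A, B * E = 1 := by
  classical
  refine ⟨(1 : Matrix σ σ A).submatrix id J * (B.submatrix id J)⁻¹, ?_⟩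
  have : B * (1 : Matrix σ σ A).submatrix id J = B.submatrix id J := by
    ext a b
    simp [Matrix.mul_apply, Matrix.one_apply]
  rw [← Matrix.mul_assoc, this, Matrix.mul_nonsing_inv _ h]

variable {V : Type*} [NormedAddCommGroup V] [NormedSpace ℂ V]

/-- a real covector that commutes with `i` -/
def cLin (ξ : V →L[ℝ] ℂ) (h : ∀ v, ξ (Complex.I • v) = Complex.I * ξ v) : V →ₗ[ℂ] ℂ where
  toFun := ξ
  map_add' := map_add ξ
  map_smul' c v := by
    conv_lhs => rw [← Complex.re_add_im c, add_smul, mul_smul, Complex.coe_smul, Complex.coe_smul,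
      map_add, map_smul, map_smul, h]
    conv_rhs => rw [← Complex.re_add_im c]
    simp only [Complex.real_smul, RingHom.id_apply, smul_eq_mul]
    ring

variable [FiniteDimensional ℂ V]

theorem exists_eigvec {ξ : V →L[ℝ] ℂ} (hξ : ξ ≠ 0) (a : V →ₗ[ℂ] V) {α : ℂ}
    (h : ∀ v, ξ (Complex.I • v) = Complex.I * ξ v) (ha : ∀ v, ξ (a v) = α * ξ v) :
    ∃ v, v ≠ 0 ∧ a v = α • v := by
  by_contra hn
  have hi : Function.Injective (a - α • LinearMap.id : V →ₗ[ℂ] V) :=
    (injective_iff_map_eq_zero _).2 fun v hv => not_not.1 fun h0 => hn ⟨v, h0, sub_eq_zero.1 hv⟩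
  refine hξ (ContinuousLinearMap.ext fun w => ?_)
  obtain ⟨v, rfl⟩ := LinearMap.injective_iff_surjective.1 hi w
  have := (cLin ξ h).map_smul α v
  change ξ (a v - α • v) = 0
  rw [map_sub, ha]
  exact sub_eq_zero.2 this.symm

theorem exists_dual {Φ : Type*} [Fintype Φ] [DecidableEq Φ] (ξ : Φ → V →L[ℝ] ℂ)
    (hξ : LinearIndependent ℂ ξ) (h : ∀ φ v, ξ φ (Complex.I • v) = Complex.I * ξ φ v)
    (hc : Fintype.card Φ = finrank ℂ V) :
    ∃ e : V ≃ₗ[ℂ] Φ → ℂ, ∀ v φ, e v φ = ξ φ v := by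
  let e : V →ₗ[ℂ] Φ → ℂ := LinearMap.pi fun φ => cLin (ξ φ) (h φ)
  have hs : Function.Surjective e := by
    by_contra hn
    obtain ⟨f, hf, hr⟩ := Submodule.exists_le_ker_of_lt_top (LinearMap.range e)
      (lt_top_iff_ne_top.2 fun h0 => hn (LinearMap.range_eq_top.1 h0))
    have h1 := Fintype.linearIndependent_iff.1 hξ (fun φ => f (Pi.single φ 1))
      (ContinuousLinearMap.ext fun v => by
        have := hr ⟨v, rfl⟩
        rw [LinearMap.mem_ker, LinearMap.pi_apply_eq_sum_univ] at this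
        rw [_root_.sum_apply, _root_.zero_apply, ← this]
        refine Finset.sum_congr rfl fun φ _ => ?_
        rw [_root_.smul_apply, smul_eq_mul, smul_eq_mul, mul_comm]
        congr 2
        funext j
        rw [Pi.single_apply, if_congr eq_comm rfl rfl])
    exact hf ((Pi.basisFun ℂ Φ).ext fun φ => by rw [Pi.basisFun_apply]; exact h1 φ)
  exact ⟨LinearEquiv.ofBijective e ⟨(LinearMap.injective_iff_surjective_of_finrank_eq_finrank
    (by rw [finrank_fintype_fun_eq_card, hc])).2 hs, hs⟩, fun _ _ => rfl⟩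

/-- a basis of common eigenvectors -/
theorem exists_eigbasis {Φ : Type*} [Fintype Φ] (ξ : Φ → V →L[ℝ] ℂ)
    (hξ : LinearIndependent ℂ ξ) (h : ∀ φ v, ξ φ (Complex.I • v) = Complex.I * ξ φ v)
    (hc : Fintype.card Φ = finrank ℂ V) :
    ∃ b : Basis Φ ℂ V, ∀ (a : V → V) (α : Φ → ℂ), (∀ φ v, ξ φ (a v) = α φ * ξ φ v) →
      ∀ φ, a (b φ) = α φ • b φ := by
  classical
  obtain ⟨e, he⟩ := exists_dual ξ hξ h hc
  refine ⟨(Pi.basisFun ℂ Φ).map e.symm, fun a α ha φ => e.injective (funext fun ψ => ?_)⟩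
  rw [he, ha, ← he, map_smul, Basis.map_apply, e.apply_symm_apply, Pi.basisFun_apply,
    Pi.smul_apply, smul_eq_mul]
  by_cases hφ : ψ = φ
  · rw [hφ]
  · rw [Pi.single_eq_of_ne hφ, mul_zero, mul_zero]

variable {σ O : Type*} [Fintype σ] [CommRing O] [Algebra O ℂ] {u : V → σ → ℂ} {i0 : σ}

omit [FiniteDimensional ℂ V] in
/-- the affine form of an immersion into projective space -/
theorem exists_nrm (hu : DifferentiableAt ℂ u 0) (h0 : u 0 i0 ≠ 0)
    (imm : ∀ (v : V) (t : ℂ), fderiv ℂ u 0 v = t • u 0 → v = 0) :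
    ∃ u' : V →L[ℂ] σ → ℂ, HasFDerivAt (fun z => (u z i0)⁻¹ • u z) u' 0 ∧ Function.Injective u' := by
  have h1 : DifferentiableAt ℂ (fun z => u z i0) 0 := differentiableAt_pi.1 hu i0
  have h2 : DifferentiableAt ℂ (fun z => (u z i0)⁻¹ • u z) 0 := (h1.inv h0).smul hu
  refine ⟨_, h2.hasFDerivAt, (injective_iff_map_eq_zero _).2 fun v hv => ?_⟩
  have h3 := h1.hasFDerivAt.smul h2.hasFDerivAt
  have h4 := hu.hasFDerivAt.unique (h3.congr_of_eventuallyEq
    ((h1.continuousAt.eventually_ne h0).mono fun z hz => (smul_inv_smul₀ hz (u z)).symm))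
  refine imm v (fderiv ℂ (fun z => u z i0) 0 v * (u 0 i0)⁻¹) ?_
  rw [h4, _root_.add_apply, _root_.smul_apply, hv, smul_zero, zero_add,
    ContinuousLinearMap.smulRight_apply, mul_smul]

omit [FiniteDimensional ℂ V] [Fintype σ] in
theorem nrm_chart [Finite σ] (hu : DifferentiableAt ℂ u 0) (h0 : u 0 i0 ≠ 0) (a : V →L[ℂ] V)
    {G : σ → MvPolynomial σ O}
    (hG : ∀ᶠ z in 𝓝 0, ∀ (c : ℂ) i j,
      aeval (c • u z) (G i) * u (a z) j = aeval (c • u z) (G j) * u (a z) i) (i : σ) :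
    ∀ᶠ z in 𝓝 0, aeval ((u z i0)⁻¹ • u z) (G i) =
      aeval ((u z i0)⁻¹ • u z) (G i0) * ((u (a z) i0)⁻¹ • u (a z)) i := by
  have h1 : ContinuousAt (fun z => u z i0) 0 := (differentiableAt_pi.1 hu i0).continuousAt
  filter_upwards [hG, (a.continuous.tendsto' 0 0 (map_zero a)).eventually (h1.eventually_ne h0)]
    with z hz h2
  rw [Pi.smul_apply, smul_eq_mul, mul_left_comm, ← hz _ i i0, mul_comm, mul_assoc,
    mul_inv_cancel₀ h2, mul_one]

variable {R : ValuationSubring ℂ} [Algebra O R] [IsScalarTower O R ℂ] {o : σ → R}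

omit [FiniteDimensional ℂ V] in
/-- eigenvalues on `V` of a lift of Frobenius are non-units -/
theorem FrobAt.eig_lt_proj {p : Ideal O} {q : ℕ} {I : Ideal (MvPolynomial σ O)}
    {G : σ → MvPolynomial σ O} (h : FrobAt (IsLocalRing.maximalIdeal R) p q I G i0 o)
    (hu : DifferentiableAt ℂ u 0) (h0 : u 0 i0 ≠ 0) (ho : ∀ j, u 0 j = u 0 i0 * o j)
    (imm : ∀ (v : V) (t : ℂ), fderiv ℂ u 0 v = t • u 0 → v = 0)
    (hI : ∀ f ∈ I, ∀ᶠ z in 𝓝 0, ∀ c : ℂ, aeval (c • u z) f = 0) (a : V →L[ℂ] V)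
    (hG : ∀ᶠ z in 𝓝 0, ∀ (c : ℂ) i j,
      aeval (c • u z) (G i) * u (a z) j = aeval (c • u z) (G j) * u (a z) i)
    {v : V} (hv : v ≠ 0) {l : ℂ} (hl : a v = l • v) : R.valuation l < 1 := by
  obtain ⟨u', h1, h2⟩ := exists_nrm hu h0 imm
  have e0 : (u 0 i0)⁻¹ • u 0 = fun j => (o j : ℂ) := funext fun j => by
    rw [Pi.smul_apply, smul_eq_mul, ho j, inv_mul_cancel_left₀ h0]
  refine h.eig_lt (w := u' v) (fun h3 => hv (h2 (h3.trans (map_zero u').symm))) (fun f hf => ?_)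
    fun i => ?_
  · rw [← e0]
    exact tng_eq_zero h1 ((hI f hf).mono fun z hz => hz _) v
  · have := tng_chart h1 a (nrm_chart hu h0 a hG i) v
    rwa [e0, hl, map_smul] at this

/-- the same for eigen-covectors -/
theorem FrobAt.cov_lt {p : Ideal O} {q : ℕ} {I : Ideal (MvPolynomial σ O)}
    {G : σ → MvPolynomial σ O} (h : FrobAt (IsLocalRing.maximalIdeal R) p q I G i0 o)
    (hu : DifferentiableAt ℂ u 0) (h0 : u 0 i0 ≠ 0) (ho : ∀ j, u 0 j = u 0 i0 * o j)
    (imm : ∀ (v : V) (t : ℂ), fderiv ℂ u 0 v = t • u 0 → v = 0)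
    (hI : ∀ f ∈ I, ∀ᶠ z in 𝓝 0, ∀ c : ℂ, aeval (c • u z) f = 0) (a : V →L[ℂ] V)
    (hG : ∀ᶠ z in 𝓝 0, ∀ (c : ℂ) i j,
      aeval (c • u z) (G i) * u (a z) j = aeval (c • u z) (G j) * u (a z) i)
    {ξ : V →L[ℝ] ℂ} (hξ : ξ ≠ 0) (hc : ∀ v, ξ (Complex.I • v) = Complex.I * ξ v) {α : ℂ}
    (ha : ∀ v, ξ (a v) = α * ξ v) : R.valuation α < 1 := by
  obtain ⟨v, hv, hl⟩ := exists_eigvec hξ (a : V →ₗ[ℂ] V) hc ha
  exact h.eig_lt_proj hu h0 ho imm hI a hG hv hl

/-- an endomorphism whose eigenvalues on `V` are units sends no point `x ≠ o` of the residue disc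
of the smooth point `o` to `o` -/
theorem disc_inj_proj {κ Φ : Type*} [Fintype κ] [Fintype Φ] [DecidableEq κ]
    (hu : DifferentiableAt ℂ u 0) (h0 : u 0 i0 ≠ 0) (ho : ∀ j, u 0 j = u 0 i0 * o j)
    (imm : ∀ (v : V) (t : ℂ), fderiv ℂ u 0 v = t • u 0 → v = 0)
    (f : κ → MvPolynomial σ O) (hf : ∀ k, ∀ᶠ z in 𝓝 0, ∀ c : ℂ, aeval (c • u z) (f k) = 0)
    (E : Matrix σ κ R) (hE : Matrix.of (fun k j => aeval o (pderiv j (f k))) * E = 1)
    (hcard : Fintype.card σ ≤ finrank ℂ V + Fintype.card κ + 1) (a : V →L[ℂ] V)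
    {G : σ → MvPolynomial σ O} (hun : IsUnit (aeval o (G i0)))
    (hG : ∀ᶠ z in 𝓝 0, ∀ (c : ℂ) i j,
      aeval (c • u z) (G i) * u (a z) j = aeval (c • u z) (G j) * u (a z) i)
    (ξ : Φ → V →L[ℝ] ℂ) (hξ : LinearIndependent ℂ ξ)
    (hc : ∀ φ v, ξ φ (Complex.I • v) = Complex.I * ξ φ v) (hΦ : Fintype.card Φ = finrank ℂ V)
    (α : Φ → ℂ) (ha : ∀ φ v, ξ φ (a v) = α φ * ξ φ v) (hα : ∀ φ, R.valuation (α φ) = 1)
    {x : σ → R} (x0 : x i0 = 1) (hxo : ∀ j, x j - o j ∈ IsLocalRing.maximalIdeal R)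
    (hx : ∀ k, aeval x (f k) = 0) (hGx : ∀ i, aeval x (G i) = aeval x (G i0) * o i) : x = o := by
  classical
  obtain ⟨u', h1, h2⟩ := exists_nrm hu h0 imm
  obtain ⟨b, hb⟩ := exists_eigbasis ξ hξ hc hΦ
  have e0 : (u 0 i0)⁻¹ • u 0 = fun j => (o j : ℂ) := funext fun j => by
    rw [Pi.smul_apply, smul_eq_mul, ho j, inv_mul_cancel_left₀ h0]
  have o0 : o i0 = 1 := Subtype.ext (mul_left_cancel₀ h0 ((ho i0).symm.trans (mul_one _).symm))
  have hfo : ∀ k, aeval o (f k) = 0 := fun k => by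
    have := (hf k).self_of_nhds (u 0 i0)⁻¹
    rwa [e0, aeval_coe, ZeroMemClass.coe_eq_zero] at this
  have eul : ∀ k, tng o o (f k) = 0 := fun k => by
    have h3 : HasDerivAt (fun s : ℂ => s • fun j => (o j : ℂ)) (fun j => (o j : ℂ)) 1 := by
      simpa using (hasDerivAt_id (1 : ℂ)).smul_const fun j => (o j : ℂ)
    have h4 := hasDerivAt_aeval h3 (f k)
    rw [one_smul, tng_coe] at h4
    have h5 : (fun s : ℂ => aeval (s • fun j => (o j : ℂ)) (f k)) = fun _ => 0 := funext fun s => by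
      rw [← e0, smul_smul]
      exact (hf k).self_of_nhds _
    rw [h5] at h4
    exact ZeroMemClass.coe_eq_zero.1 (h4.unique (hasDerivAt_const _ _))
  have hX : ∀ j, aeval o (pderiv j (X i0 : MvPolynomial σ O)) = if j = i0 then 1 else 0 := by
    intro j
    rw [pderiv_X, Pi.single_apply, apply_ite (aeval o), map_one, map_zero, if_congr eq_comm rfl rfl]
  refine disc_inj (G := G) (i0 := i0) (fun k : Option κ => k.elim (X i0) f)
    (Matrix.of fun j k => k.elim (o j) fun k => E j k - o j * E i0 k) ?_ (fun i => ?_) hun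
    (fun φ => u' (b φ)) (b.linearIndependent.map' (u' : V →ₗ[ℂ] σ → ℂ) (LinearMap.ker_eq_bot.2 h2))
    (by rw [Fintype.card_option, hΦ]; omega) (fun φ k => ?_) α hα (fun φ i => ?_) hxo
    (fun k => ?_) hGx
  · refine Matrix.ext fun k l => ?_
    rw [Matrix.mul_apply]
    rcases k with _ | k <;> rcases l with _ | l
    · simp only [Matrix.of_apply, Option.elim, hX]
      simp [o0]
    · simp only [Matrix.of_apply, Option.elim, hX]
      simp [o0]
    · rw [Matrix.one_apply_ne (by simp)]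
      exact eul k
    · have h3 := congrFun (congrFun hE k) l
      have h4 := eul k
      rw [Matrix.mul_apply] at h3
      simp only [Matrix.of_apply, tng] at h3 h4
      simp only [Matrix.of_apply, Option.elim, mul_sub, Finset.sum_sub_distrib, ← mul_assoc,
        ← Finset.sum_mul, h3, h4, zero_mul, sub_zero, Matrix.one_apply, Option.some.injEq]
  · have := (nrm_chart hu h0 a hG i).self_of_nhds
    rw [map_zero, e0, aeval_coe, aeval_coe] at this
    exact Subtype.ext this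
  · rw [← e0]
    rcases k with _ | k
    · refine tng_eq_zero h1 (c := 1) ?_ _
      filter_upwards [(differentiableAt_pi.1 hu i0).continuousAt.eventually_ne h0] with z hz
      simp [hz]
    · exact tng_eq_zero h1 ((hf k).mono fun z hz => hz _) _
  · have := tng_chart h1 a (nrm_chart hu h0 a hG i) (b φ)
    rwa [e0, hb a α ha, map_smul] at this
  · rcases k with _ | k
    · simp [x0, o0]
    · exact (hx k).trans (hfo k).symm

end Pool.Agent.Tav.Disc
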