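import Pool.Agent.P.MP_2ce3e7_ag.Tav.PLift
import Pool.Agent.P.MP_2ce3e7_ag.Tav.PPoly
import Pool.Agent.P.MP_2ce3e7_ag.Tav.Cot

/-! The residue disc of the origin of a model. -/

set_option autoImplicit false

noncomputable section

namespace Pool.Agent.Tav.PD

open MvPolynomial Set Module Filter Topology Pool.Agent.Tav.Disc Pool.Agent.Tav.Pp
open Function hiding eval

/-- the multiple of `z` with `z i = 1` -/
def nr {K σ : Type} [CommRing K] (i : σ) (z : σ → K) : σ → K := Ring.inverse (z i) • z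

section
variable {K σ : Type} [CommRing K] {i : σ} {z w : σ → K}

theorem nr_self (h : IsUnit (z i)) : nr i z i = 1 := Ring.inverse_mul_cancel _ h

theorem nr_par (h : IsUnit (z i)) : Par (nr i z) z := ⟨_, h.ringInverse, rfl⟩

theorem mul_nr (h : IsUnit (z i)) (j : σ) : z i * nr i z j = z j :=
  Ring.mul_inverse_cancel_left _ _ h

theorem eq_of_par (h : Par z w) (hz : z i = 1) (hw : w i = 1) : z = w := by
  obtain ⟨c, -, rfl⟩ := h
  rw [Pi.smul_apply, hw, smul_eq_mul, mul_one] at hz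
  rw [hz, one_smul]

theorem unit_of_par (h : Par z w) (hw : IsUnit (w i)) : IsUnit (z i) := by
  obtain ⟨c, hc, rfl⟩ := h
  exact hc.mul hw

theorem nr_eq (h : Par z w) (hw : IsUnit (w i)) : nr i z = nr i w :=
  eq_of_par (par_trans (nr_par (unit_of_par h hw)) (par_trans h (par_symm (nr_par hw))))
    (nr_self (unit_of_par h hw)) (nr_self hw)

end

variable {Ω : Type} [Field Ω] {R : ValuationSubring ℂ} {r : R →+* Ω} {σ : Type} [Fintype σ] {g : ℕ}
  (X : Model r σ g)

/-- the polynomials over `R` that vanish on the cone over `X` -/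
def cone : Ideal (MvPolynomial σ R) :=
  ⨅ (c : ℂ) (v : Fin g → ℂ), RingHom.ker (aeval (c • fun l => (X.x v l : ℂ)) : _ →ₐ[R] ℂ)

theorem mem_cone {f : MvPolynomial σ R} :
    f ∈ cone X ↔ ∀ (c : ℂ) v, aeval (c • fun l => (X.x v l : ℂ)) f = 0 := by
  simp only [cone, Ideal.mem_iInf, RingHom.mem_ker]

theorem mem_cone_of {f : MvPolynomial σ R} {d : ℕ} (hf : f.IsHomogeneous d)
    (h : ∀ v, eval (X.x v) f = 0) : f ∈ cone X := (mem_cone X).2 fun c v => by
  rw [aeval_smul hf, aeval_coe, aeval_eq_eval, h, ZeroMemClass.coe_zero, mul_zero]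

theorem cone_nr {f : MvPolynomial σ R} (hf : f ∈ cone X) (i : σ) (v : Fin g → ℂ) :
    aeval (nr i (X.x v)) f = 0 := by
  rw [← ZeroMemClass.coe_eq_zero, ← aeval_coe]
  exact (mem_cone X).1 hf (Ring.inverse (X.x v i) : R) v

theorem exists_unit (hr : Surjective r) : ∃ i, IsUnit (X.x 0 i) := by
  obtain ⟨i, hi⟩ := Function.ne_iff.1 (red_ne X 0)
  exact ⟨i, (r_ne_zero hr).1 hi⟩

variable {X} {i0 : σ}

theorem disc_unit (hr : Surjective r) (h0 : IsUnit (X.x 0 i0)) {v : Fin g → ℂ}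
    (hv : X.red v = 0) : IsUnit (X.x v i0) :=
  (r_ne_zero hr).1 (unit_of_par ((red_eq X).1 (hv.trans (map_zero X.red).symm))
    (h0.map r)).ne_zero

theorem disc_mem (hr : Surjective r) (h0 : IsUnit (X.x 0 i0)) {v : Fin g → ℂ}
    (hv : X.red v = 0) (j : σ) :
    nr i0 (X.x v) j - nr i0 (X.x 0) j ∈ IsLocalRing.maximalIdeal R := by
  have h1 := disc_unit hr h0 hv
  rw [← r_eq_zero hr, map_sub, sub_eq_zero]
  exact congrFun (eq_of_par (i := i0) (par_trans (par_map r (nr_par h1)) (par_trans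
    ((red_eq X).1 (hv.trans (map_zero X.red).symm)) (par_symm (par_map r (nr_par h0)))))
    (by rw [nr_self h1, map_one]) (by rw [nr_self h0, map_one])) j

theorem mem_of_nr_eq (h0 : IsUnit (X.x 0 i0)) {v : Fin g → ℂ} (h1 : IsUnit (X.x v i0))
    (h : nr i0 (X.x v) = nr i0 (X.x 0)) : v ∈ X.Λ := by
  have := (X.ker v 0).1 (par_trans (par_symm (nr_par h1)) (h ▸ nr_par h0))
  rwa [sub_zero] at this

/-- a chart at the origin of large degree -/
theorem chart_lg (h0 : IsUnit (X.x 0 i0)) {a : Fin g → ℂ} (ha : a ∈ En X.Λ) (N : ℕ) :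
    ∃ (e : ℕ) (c : (Fin g → ℂ) → R) (G : σ → MvPolynomial σ R), N ≤ e ∧ IsUnit (c 0) ∧
      (∀ l, (G l).IsHomogeneous e) ∧ ∀ t l, eval (X.x t) (G l) = c t * X.x (a * t) l := by
  obtain ⟨e, c, G, hc, hG, hE⟩ := chart (X.reg a ha) 0
  refine ⟨N + e, fun t => X.x t i0 ^ N * c t, fun l => MvPolynomial.X i0 ^ N * G l,
    Nat.le_add_right _ _, (h0.pow N).mul hc, fun l => (isHomogeneous_X_pow _ _).mul (hG l),
    fun t l => ?_⟩
  rw [map_mul, map_pow, eval_X, hE, mul_assoc]

section Chart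

variable {a : Fin g → ℂ} {e : ℕ} {c : (Fin g → ℂ) → R} {G : σ → MvPolynomial σ R}
  (hG : ∀ l, (G l).IsHomogeneous e) (hE : ∀ t l, eval (X.x t) (G l) = c t * X.x (a * t) l)
include hG hE

theorem chart_nr {v : Fin g → ℂ} (h : IsUnit (X.x (a * v) i0)) (i : σ) :
    aeval (nr i0 (X.x v)) (G i) = aeval (nr i0 (X.x v)) (G i0) * nr i0 (X.x (a * v)) i := by
  rw [nr, aeval_smul (hG i), aeval_smul (hG i0), aeval_eq_eval, hE, hE, mul_assoc, mul_assoc,
    mul_nr h]

theorem chart_unit (h0 : IsUnit (X.x 0 i0)) (hc : IsUnit (c 0)) :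
    IsUnit (aeval (nr i0 (X.x 0)) (G i0)) := by
  rw [nr, aeval_smul (hG i0), aeval_eq_eval, hE, mul_zero]
  exact (h0.ringInverse.pow e).mul (hc.mul h0)

theorem chart_hol {φ : (Fin g → ℂ) → σ → ℂ} (hφ : ∀ v, Par (φ v) fun l => X.x v l)
    (z : Fin g → ℂ) (s : ℂ) (i j : σ) :
    aeval (s • φ z) (G i) * φ (a * z) j = aeval (s • φ z) (G j) * φ (a * z) i := by
  obtain ⟨u, -, hu⟩ := hφ z
  obtain ⟨w, -, hw⟩ := hφ (a * z)
  rw [hu, hw, smul_smul, aeval_smul (hG i), aeval_smul (hG j), aeval_coe, aeval_coe,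
    aeval_eq_eval, hE, hE]
  simp only [Pi.smul_apply, smul_eq_mul, MulMemClass.coe_mul]
  ring

theorem frobAt (hr : Surjective r) (h0 : IsUnit (X.x 0 i0)) (hc : IsUnit (c 0)) {Q : ℕ}
    (hQ : (Q : Ω) = 0) (hL : ∀ v, Par (X.p (X.red (a * v))) (X.p (X.red v) ^ Q))
    (he : (Model.lift X hr).choose ≤ e) :
    FrobAt (IsLocalRing.maximalIdeal R) (IsLocalRing.maximalIdeal R) Q (cone X) G i0
      (nr i0 (X.x 0)) where
  hp _ h := h
  hq := (r_eq_zero hr).1 (by rw [map_natCast, hQ])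
  hG i := by
    obtain ⟨f, hf, h1, h2⟩ := (Model.lift X hr).choose_spec _ (he.trans (Nat.le_add_right e Q))
      (G i * MvPolynomial.X i0 ^ Q - G i0 * MvPolynomial.X i ^ Q)
      (((hG i).mul (isHomogeneous_X_pow _ _)).sub
        ((hG i0).mul (isHomogeneous_X_pow _ _))) fun v => by
      obtain ⟨u, -, hu⟩ := par_trans (par_symm (X.hred (a * v)))
        (par_trans (hL v) (par_pow (X.hred v) Q))
      have h3 := congrFun hu
      simp only [Pi.smul_apply, smul_eq_mul, Pi.pow_apply] at h3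
      simp only [map_sub, map_mul, map_pow, eval_X, hE, h3]
      ring
    exact Submodule.mem_sup.2 ⟨f, mem_cone_of X hf h1, _, h2, add_sub_cancel _ _⟩
  ho f hf := cone_nr X hf _ _
  o0 := nr_self h0
  fix i := by
    have := chart_nr hG hE (v := 0) (i0 := i0) (by rwa [mul_zero]) i
    rwa [mul_zero] at this
  unit := chart_unit hG hE h0 hc

end Chart

theorem hol_zero (h0 : IsUnit (X.x 0 i0)) {φ : (Fin g → ℂ) → σ → ℂ}
    (hφ : ∀ v, Par (φ v) fun l => X.x v l) :
    φ 0 i0 ≠ 0 ∧ ∀ j, φ 0 j = φ 0 i0 * nr i0 (X.x 0) j := by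
  obtain ⟨u, hu, h⟩ := hφ 0
  refine ⟨(unit_of_par (hφ 0) (h0.map R.subtype)).ne_zero, fun j => ?_⟩
  rw [h, Pi.smul_apply, Pi.smul_apply, smul_eq_mul, smul_eq_mul, mul_assoc, ← MulMemClass.coe_mul,
    mul_nr h0]

theorem hol_cone {φ : (Fin g → ℂ) → σ → ℂ} (hφ : ∀ v, Par (φ v) fun l => X.x v l)
    {f : MvPolynomial σ R} (hf : f ∈ cone X) (z : Fin g → ℂ) (s : ℂ) : aeval (s • φ z) f = 0 := by
  obtain ⟨u, -, hu⟩ := hφ z
  rw [hu, smul_smul]
  exact (mem_cone X).1 hf _ _

variable (X)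

/-- reduction is injective on the periodic points of a lift of Frobenius -/
theorem disc_fix (hr : Surjective r) {a : Fin g → ℂ} (ha : a ∈ En X.Λ) {Q : ℕ} (hQ : (Q : Ω) = 0)
    (hL : ∀ v, Par (X.p (X.red (a * v))) (X.p (X.red v) ^ Q)) {v : Fin g → ℂ} (hv : X.red v = 0)
    {s : ℕ} (hs : a ^ (s + 1) * v - v ∈ X.Λ) : v ∈ X.Λ := by
  obtain ⟨i0, h0⟩ := exists_unit X hr
  obtain ⟨e, c, G, he, hc, hG, hE⟩ := chart_lg h0 ha (Model.lift X hr).choose
  have hn : ∀ n, X.red (a ^ n * v) = 0 := fun n => by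
    rw [red_mul X (Pp.pow_mem X ha n) (hv.trans (map_zero X.red).symm), mul_zero, map_zero]
  have hu := fun n => disc_unit hr h0 (hn n)
  have := (frobAt hG hE hr h0 hc hQ hL he).per_eq (x := fun n => nr i0 (X.x (a ^ n * v)))
    (fun n f hf => cone_nr X hf _ _) (fun n => nr_self (hu n)) (disc_mem hr h0 (hn 0))
    (fun n i => by
      have h1 := hu (n + 1)
      rw [pow_succ', mul_assoc] at h1 ⊢
      exact chart_nr hG hE h1 i) (s := s)
    (nr_eq ((X.ker _ _).2 (by rwa [pow_zero, one_mul])) (hu 0))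
  have h2 := mem_of_nr_eq h0 (hu 0) this
  rwa [pow_zero, one_mul] at h2

/-- the eigenvalues on the tangent space of a lift of Frobenius are non-units -/
theorem cot (hr : Surjective r) {a : Fin g → ℂ} (ha : a ∈ En X.Λ) {Q : ℕ} (hQ : (Q : Ω) = 0)
    (hL : ∀ v, Par (X.p (X.red (a * v))) (X.p (X.red v) ^ Q)) (i : Fin g) :
    R.valuation (a i) < 1 := by
  obtain ⟨i0, h0⟩ := exists_unit X hr
  obtain ⟨e, c, G, he, hc, hG, hE⟩ := chart_lg h0 ha (Model.lift X hr).choose
  obtain ⟨φ, h1, h2, h3⟩ := X.hol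
  refine (frobAt hG hE hr h0 hc hQ hL he).eig_lt_proj (h1 0) (hol_zero h0 h2).1 (hol_zero h0 h2).2
    (h3 0) (fun f hf => .of_forall (hol_cone h2 hf)) (ContinuousLinearMap.mul ℂ _ a)
    (.of_forall (chart_hol hG hE h2)) (v := Pi.single i 1) (by simp) ?_
  ext j
  by_cases h : j = i <;> simp [h]

/-- the coordinate covectors -/
def cov (i : Fin g) : (Fin g → ℂ) →L[ℝ] ℂ := ContinuousLinearMap.proj i

theorem cov_ind : LinearIndependent ℂ (cov (g := g)) :=
  Fintype.linearIndependent_iff.2 fun c h i => by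
    have := congrArg (fun ξ : (Fin g → ℂ) →L[ℝ] ℂ => ξ (Pi.single i 1)) h
    simpa [cov, Pi.single_apply] using this

omit [Fintype σ] in
theorem hom_mem_idl [Infinite Ω] {T : Type} {p : T → σ → Ω} {f : MvPolynomial σ Ω} (hf : f ∈ idl p)
    (d : ℕ) (t : T) : eval (p t) (homogeneousComponent d f) = 0 := by
  let P : Polynomial Ω := ∑ n ∈ Finset.range (f.totalDegree + 1),
    Polynomial.monomial n (eval (p t) (homogeneousComponent n f))
  have hP : P = 0 := Polynomial.funext fun s => by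
    have := hf (s • p t) ⟨s, t, rfl⟩
    rw [← sum_homogeneousComponent f, map_sum] at this
    rw [Polynomial.eval_finsetSum, Polynomial.eval_zero, ← this]
    exact Finset.sum_congr rfl fun n _ => by
      rw [Polynomial.eval_monomial, aeval_smul (homogeneousComponent_isHomogeneous n f),
        aeval_eq_eval, mul_comm]
  by_cases hd : d < f.totalDegree + 1
  · have := congrArg (Polynomial.coeff · d) hP
    simpa [P, Polynomial.coeff_monomial, hd, Nat.lt_succ_iff.1 hd] using this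
  · rw [homogeneousComponent_eq_zero _ _ (by omega), map_zero]

/-- the Jacobian criterion over `R` -/
theorem exists_jac [Infinite Ω] (hr : Surjective r) (h0 : IsUnit (X.x 0 i0))
    (sm : finrank Ω (⨅ f ∈ idl X.p, LinearMap.ker
      (∑ l, eval (X.p 0) (pderiv l f) • LinearMap.proj (R := Ω) (φ := fun _ => Ω) l) :) ≤ g + 1) :
    ∃ (n : ℕ) (f : Fin n → MvPolynomial σ R) (E : Matrix σ (Fin n) R), (∀ k, f k ∈ cone X) ∧
      Matrix.of (fun k j => aeval (nr i0 (X.x 0)) (pderiv j (f k))) * E = 1 ∧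
      Fintype.card σ ≤ g + n + 1 := by
  classical
  let o := nr i0 (X.x 0)
  let D : cone X → σ → Ω := fun f j => r (eval o (pderiv j f.1))
  obtain ⟨b, hb, hsp, hli⟩ := exists_linearIndependent Ω (range D)
  have := hli.finite
  have := Fintype.ofFinite b
  let ε := (Fintype.equivFin b).symm
  choose f hf using fun k => hb (ε k).2
  let B : Matrix (Fin (Fintype.card b)) σ Ω := Matrix.of fun k => D (f k)
  have hB : LinearIndependent Ω B.row := by
    have : B.row = (fun x : b => (x : σ → Ω)) ∘ ε := funext hf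
    rw [this]
    exact hli.comp ε ε.injective
  have hrk : finrank Ω (LinearMap.range B.mulVecLin) = Fintype.card b :=
    hB.rank_matrix.trans (Fintype.card_fin _)
  obtain ⟨E0, hE0⟩ := Matrix.mulVec_surjective_iff_exists_right_inverse.1
    (LinearMap.range_eq_top.1 (Submodule.eq_top_of_finrank_eq (hrk.trans (by simp))) :
      Surjective B.mulVecLin)
  choose E1 hE1 using fun j k => hr (E0 j k)
  let J : Matrix (Fin (Fintype.card b)) σ R := Matrix.of fun k j => aeval o (pderiv j (f k).1)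
  have hdet : IsUnit (J * Matrix.of E1).det := by
    have h1 : (Matrix.of E1).map r = E0 := Matrix.ext hE1
    have h2 : J.map r = B := rfl
    rw [← r_ne_zero hr, RingHom.map_det, RingHom.mapMatrix_apply, Matrix.map_mul, h1, h2, hE0,
      Matrix.det_one]
    exact one_ne_zero
  refine ⟨_, fun k => (f k).1, Matrix.of E1 * (J * Matrix.of E1)⁻¹, fun k => (f k).2,
    by rw [← Matrix.mul_assoc]; exact Matrix.mul_nonsing_inv _ hdet, ?_⟩
  have h3 := LinearMap.finrank_range_add_finrank_ker B.mulVecLin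
  rw [hrk, finrank_fintype_fun_eq_card] at h3
  refine h3.ge.trans ?_
  have h4 := (Submodule.finrank_mono (show LinearMap.ker B.mulVecLin ≤ _ from ?_)).trans sm
  · omega
  intro v hv
  have h5 : ∀ y ∈ Submodule.span Ω (range D), y ⬝ᵥ v = 0 := fun y hy => by
    rw [← hsp] at hy
    induction hy using Submodule.span_induction with
    | mem y hy =>
      have := congrFun (LinearMap.mem_ker.1 hv) (ε.symm ⟨y, hy⟩)
      have h6 := hf (ε.symm ⟨y, hy⟩)
      rw [ε.apply_symm_apply] at h6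
      rw [← show D _ = y from h6]
      exact this
    | zero => exact zero_dotProduct v
    | add y z _ _ hy hz => rw [add_dotProduct, hy, hz, add_zero]
    | smul s y _ hy => rw [smul_dotProduct, hy, smul_zero]
  obtain ⟨u, hu0, hu⟩ := par_trans (X.hred 0) (par_symm (par_map r (nr_par h0)))
  rw [map_zero] at hu
  simp only [Submodule.mem_iInf, LinearMap.mem_ker, LinearMap.sum_apply, LinearMap.smul_apply,
    LinearMap.proj_apply, smul_eq_mul]
  intro F hF
  rw [← sum_homogeneousComponent F]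
  simp only [map_sum, Finset.sum_mul]
  rw [Finset.sum_comm]
  refine Finset.sum_eq_zero fun d _ => ?_
  obtain ⟨N, hN⟩ := Model.lift' X hr
  have hd := (isHomogeneous_X_pow i0 N).mul (homogeneousComponent_isHomogeneous d F)
  obtain ⟨f', h6, h7, h8⟩ := hN _ (Nat.le_add_right _ _) _ hd
    fun b => by rw [map_mul, hom_mem_idl hF d, mul_zero]
  have h9 := h5 _ (Submodule.subset_span ⟨⟨f', mem_cone_of X h6 h7⟩, rfl⟩)
  have h11 : X.p 0 i0 ^ N ≠ 0 := by
    rw [hu, Pi.smul_apply, nr_self h0, map_one, smul_eq_mul, mul_one]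
    exact pow_ne_zero _ hu0.ne_zero
  have h10 : ∀ l, X.p 0 i0 ^ N * eval (X.p 0) (pderiv l (homogeneousComponent d F)) =
      u ^ (N + d - 1) * r (eval o (pderiv l f')) := fun l => by
    have h12 := eval_smul (hd.pderiv (i := l)) u fun l => r (o l)
    rw [← hu, Derivation.leibniz, smul_eq_mul, smul_eq_mul, map_add, map_mul, map_mul,
      hom_mem_idl hF d, zero_mul, add_zero, map_pow, eval_X] at h12
    rw [h12, r_eval, ← pderiv_map, h8, Derivation.leibniz, smul_eq_mul, smul_eq_mul]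
  refine mul_left_cancel₀ h11 ?_
  simp only [Finset.mul_sum, ← mul_assoc, h10]
  simp only [mul_assoc, ← Finset.mul_sum, mul_zero]
  exact mul_eq_zero_of_right _ h9

/-- at a smooth origin an endomorphism with unit tangent eigenvalues is injective on the disc -/
theorem disc_unit_inj [Infinite Ω] (hr : Surjective r)
    (sm : finrank Ω (⨅ f ∈ idl X.p, LinearMap.ker
      (∑ l, eval (X.p 0) (pderiv l f) • LinearMap.proj (R := Ω) (φ := fun _ => Ω) l) :) ≤ g + 1)
    {a : Fin g → ℂ} (ha : a ∈ En X.Λ) (h1 : ∀ i, R.valuation (a i) = 1) {v : Fin g → ℂ}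
    (hv : X.red v = 0) (hav : a * v ∈ X.Λ) : v ∈ X.Λ := by
  obtain ⟨i0, h0⟩ := exists_unit X hr
  obtain ⟨e, c, G, hc, hG, hE⟩ := chart (X.reg a ha) 0
  obtain ⟨φ, h2, h3, h4⟩ := X.hol
  obtain ⟨n, f, E, hf, hJ, hn⟩ := exists_jac X hr h0 sm
  have hp : Par (X.x (a * v)) (X.x 0) := (X.ker _ _).2 (by rwa [sub_zero])
  refine mem_of_nr_eq h0 (disc_unit hr h0 hv) (disc_inj_proj (h2 0) (hol_zero h0 h3).1
    (hol_zero h0 h3).2 (h4 0) f (fun k => .of_forall (hol_cone h3 (hf k))) E hJ (by simpa using hn)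
    (ContinuousLinearMap.mul ℂ _ a) (chart_unit hG hE h0 hc) (.of_forall (chart_hol hG hE h3))
    cov cov_ind (fun _ _ => rfl) (by simp) a (fun _ _ => rfl) h1 (nr_self (disc_unit hr h0 hv))
    (disc_mem hr h0 hv) (fun k => cone_nr X (hf k) _ _) fun i => ?_)
  rw [← nr_eq hp h0]
  exact chart_nr hG hE (unit_of_par hp h0) i

/-- multiplication by `a` -/
def mulR (a : Fin g → ℂ) : (Fin g → ℂ) →ₗ[ℝ] Fin g → ℂ :=
  (LinearMap.mulLeft ℂ a).restrictScalars ℝ

theorem det_mulR (a : Fin g → ℂ) :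
    ((LinearMap.det (mulR a) : ℝ) : ℂ) = ∏ i, a i * star (a i) := by
  have : LinearMap.mulLeft ℂ a = Matrix.toLin' (Matrix.diagonal a) :=
    LinearMap.ext fun v => funext fun i => (Matrix.mulVec_diagonal a v i).symm
  rw [mulR, LinearMap.det_restrictScalars, Algebra.norm_complex_apply, this, LinearMap.det_toLin',
    Matrix.det_diagonal, ← Complex.mul_conj, map_prod, ← Finset.prod_mul_distrib]
  rfl

theorem det_mulR_ne {a : Fin g → ℂ} (h : ∀ i, a i ≠ 0) : LinearMap.det (mulR a) ≠ 0 := fun h0 => by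
  have := det_mulR a
  rw [h0, Complex.ofReal_zero] at this
  exact Finset.prod_ne_zero_iff.2 (fun i _ => mul_ne_zero (h i) (star_ne_zero.2 (h i))) this.symm

/-- the order of the kernel on the generic fibre -/
theorem card_ker {a : Fin g → ℂ} (ha : a ∈ En X.Λ) (h : ∀ i, a i ≠ 0) :
    (kerQ X.Λ (a * ·)).Finite ∧ (Nat.card (kerQ X.Λ (a * ·)) : ℂ) = ∏ i, a i * star (a i) := by
  have := X.lat
  have h1 := card_kerQ_det X.Λ (mulR a) ha (det_mulR_ne h)
  rw [abs_of_nonneg (a := LinearMap.det (mulR a)) (det_nonneg _)] at h1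
  exact ⟨finite_kerQ X.Λ (mulR a) ha (det_mulR_ne h), (congrArg Complex.ofReal h1).trans (det_mulR a)⟩

theorem cov_ne (i : Fin g) : cov i ≠ 0 := cov_ind.ne_zero i

theorem covb_ne (i : Fin g) : Complex.conjCLE.toContinuousLinearMap ∘L cov i ≠ 0 := fun h => by
  have := congrArg (fun ξ : (Fin g → ℂ) →L[ℝ] ℂ => ξ (Pi.single i 1)) h
  simp [cov] at this

/-- eigenvalues are integral -/
theorem val_le {a : Fin g → ℂ} (ha : a ∈ En X.Λ) (i : Fin g) :
    R.valuation (a i) ≤ 1 ∧ R.valuation (star (a i)) ≤ 1 := by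
  have := X.lat
  exact ⟨val_le_one X.Λ R (cov_ne i) ha fun _ => rfl,
    val_le_one X.Λ R (covb_ne i) ha fun v => map_mul (starRingEnd ℂ) _ _⟩

/-- if the kernels meet in `0`, at each eigenvalue one of the two is a unit -/
theorem unit_or {a b : Fin g → ℂ} (ha : a ∈ En X.Λ) (hb : b ∈ En X.Λ) (h0 : ∀ i, a i ≠ 0)
    (h : ∀ v, a * v ∈ X.Λ → b * v ∈ X.Λ → v ∈ X.Λ) (i : Fin g) :
    (R.valuation (a i) = 1 ∨ R.valuation (b i) = 1) ∧
      (R.valuation (star (a i)) = 1 ∨ R.valuation (star (b i)) = 1) := by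
  have := X.lat
  have key := fun {ξ : (Fin g → ℂ) →L[ℝ] ℂ} (hξ : ξ ≠ 0) {α β : ℂ} =>
    unit_or_unit X.Λ R (mulR a) (mulR b) ha hb (det_mulR_ne h0) (fun v => mul_left_comm a b v) h
      hξ (α := α) (β := β)
  exact ⟨key (cov_ne i) (fun _ => rfl) fun _ => rfl, key (covb_ne i)
    (fun v => map_mul (starRingEnd ℂ) _ _) fun v => map_mul (starRingEnd ℂ) _ _⟩

/-- the kernel of a lift of Frobenius lies in the disc -/
theorem red_eq_zero {a : Fin g → ℂ} {n : ℕ} [ExpChar Ω n] {e : ℕ}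
    (hL : ∀ v, Par (X.p (X.red (a * v))) (X.p (X.red v) ^ n ^ e)) [IsAlgClosed Ω] {v : Fin g → ℂ}
    (hv : a * v ∈ X.Λ) : X.red v = 0 := by
  have h1 : X.red (a * v) = X.red (a * 0) :=
    (red_eq X).2 (par_map r ((X.ker _ _).2 (by rwa [mul_zero, sub_zero])))
  obtain ⟨u, hu, h2⟩ := par_trans (par_symm (hL v)) (h1 ▸ hL 0)
  obtain ⟨w, rfl⟩ := IsAlgClosed.exists_pow_nat_eq u (expChar_pow_pos Ω n e)
  rw [map_zero] at h2
  refine X.inj _ _ ⟨w, (isUnit_pow_iff (expChar_pow_pos Ω n e).ne').1 hu, funext fun l => ?_⟩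
  have := congrFun h2 l
  rw [Pi.smul_apply, Pi.pow_apply, Pi.pow_apply, smul_eq_mul, ← mul_pow] at this
  exact (iterateFrobenius Ω n e).injective this

/-- a model with an endomorphism that is a unit on the tangent eigenvalues and a non-unit at the
conjugate of `i` is ordinary at `i` -/
theorem ord_of_sep [IsAlgClosed Ω] (hr : Surjective r)
    (sm : finrank Ω (⨅ f ∈ idl X.p, LinearMap.ker
      (∑ l, eval (X.p 0) (pderiv l f) • LinearMap.proj (R := Ω) (φ := fun _ => Ω) l) :) ≤ g + 1)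
    {a π : Fin g → ℂ} (ha : a ∈ En X.Λ) (h1 : ∀ i, R.valuation (a i) = 1) (hπ : π ∈ En X.Λ)
    {n : ℕ} [ExpChar Ω n] {e : ℕ}
    (hL : ∀ v, Par (X.p (X.red (π * v))) (X.p (X.red v) ^ n ^ e)) {i : Fin g}
    (hi : R.valuation (star (a i)) ≠ 1) : R.valuation (star (π i)) = 1 :=
  (unit_or X ha hπ (fun i h => by simpa [h] using h1 i)
    (fun _ h h' => disc_unit_inj X hr sm ha h1 (red_eq_zero X hL h') h) i).2.resolve_left hi

end Pool.Agent.Tav.PD
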