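import Mathlib

/-! The zeta function of a product formula and the final rank count. -/

set_option autoImplicit false

noncomputable section

namespace Pool.Agent.Tav.Ze

open Module

theorem rank_span {α β V : Type*} [AddCommGroup V] [Module ℂ V] [FiniteDimensional ℂ V]
    (B : V →ₗ[ℂ] V →ₗ[ℂ] ℂ) (f : α → β → ℚ) (u : α → V) (v : β → V)
    (h : ∀ a b, (f a b : ℂ) = B (u a) (v b)) (K : Submodule ℂ V)
    (hK : ∀ x, x ∈ K ↔ x ∈ Submodule.span ℂ (Set.range u) ∧ ∀ b, B x (v b) = 0) (ρ : ℕ)
    (hρ : finrank ℂ K + ρ = finrank ℂ (Submodule.span ℂ (Set.range u))) :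
    Module.rank ℚ (Submodule.span ℚ (Set.range f)) = ρ := by
  let Φ : V →ₗ[ℂ] β → ℂ := LinearMap.pi fun b => B.flip (v b)
  let c : (β → ℚ) → β → ℂ := fun w b => w b
  have hc : ∀ a, c (f a) = Φ (u a) := fun a => funext fun b => h a b
  set U := Submodule.span ℂ (Set.range u) with hU
  have hk : K = U ⊓ LinearMap.ker Φ := by
    ext x
    rw [hK, Submodule.mem_inf, LinearMap.mem_ker, funext_iff]
    rfl
  have h1 : finrank ℂ (U.map Φ) = ρ := by
    have := LinearMap.finrank_range_add_finrank_ker (Φ.domRestrict U)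
    rw [LinearMap.range_domRestrict, LinearMap.ker_domRestrict,
      ← Submodule.finrank_map_subtype_eq U, Submodule.map_comap_subtype, ← hk] at this
    omega
  obtain ⟨s, hs, hsp, hli⟩ := exists_linearIndependent ℚ (Set.range f)
  have hli' : LinearIndependent ℂ fun w : s => c w := by
    rw [linearIndependent_iff'] at hli ⊢
    intro t g hg i hi
    refine (Module.forall_dual_apply_eq_zero_iff ℚ (g i)).1 fun φ => ?_
    refine hli t (fun i => φ (g i)) (funext fun b => ?_) i hi
    have := congrArg φ (congrFun hg b)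
    simp only [Finset.sum_apply, Pi.smul_apply, smul_eq_mul, Pi.zero_apply, map_sum,
      map_zero] at this ⊢
    rw [← this]
    refine Finset.sum_congr rfl fun w _ => ?_
    rw [mul_comm (g w), ← Rat.smul_def, map_smul, smul_eq_mul, mul_comm]
  have h2 : Submodule.span ℂ (Set.range fun w : s => c w) = U.map Φ := by
    rw [hU, Submodule.map_span]
    refine le_antisymm (Submodule.span_mono ?_) (Submodule.span_le.2 ?_)
    · rintro _ ⟨w, rfl⟩
      obtain ⟨a, ha⟩ := hs w.2
      exact ⟨u a, ⟨a, rfl⟩, by rw [← hc, ha]⟩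
    · rintro _ ⟨_, ⟨a, rfl⟩, rfl⟩
      rw [← hc]
      have ha : f a ∈ Submodule.span ℚ s := hsp ▸ Submodule.subset_span ⟨a, rfl⟩
      generalize f a = w at ha
      induction ha using Submodule.span_induction with
      | mem w hw => exact Submodule.subset_span ⟨⟨w, hw⟩, rfl⟩
      | zero =>
        have : c 0 = 0 := funext fun b => Rat.cast_zero
        rw [this]
        exact Submodule.zero_mem _
      | add w w' _ _ a b =>
        have : c (w + w') = c w + c w' := funext fun b => Rat.cast_add _ _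
        rw [this]
        exact Submodule.add_mem _ a b
      | smul r w _ a =>
        have : c (r • w) = (r : ℂ) • c w := funext fun b => Rat.cast_mul _ _
        rw [this]
        exact Submodule.smul_mem _ _ a
  have h3 := _root_.rank_span hli'
  rw [Cardinal.mk_range_eq _ hli'.injective, h2, ← finrank_eq_rank, h1] at h3
  rw [← hsp, rank_span_set hli, h3]

theorem la_prod {T : Type} (s : Finset T) (z l : T → PowerSeries ℂ)
    (h : ∀ t, PowerSeries.derivative ℂ (z t) = z t * l t) :
    PowerSeries.derivative ℂ (∏ t ∈ s, z t) = (∏ t ∈ s, z t) * ∑ t ∈ s, l t := by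
  classical
  induction s using Finset.induction_on with
  | empty => simp
  | insert a s ha ih =>
    rw [Finset.prod_insert ha, Finset.sum_insert ha, Derivation.leibniz, ih, h, smul_eq_mul,
      smul_eq_mul]
    ring

theorem la_geo (a : ℂ) :
    (PowerSeries.mk fun n => a ^ n) * (1 - PowerSeries.C a * PowerSeries.X) = 1 := by
  ext n
  rw [mul_sub, mul_one, ← mul_assoc, map_sub]
  cases n with
  | zero => simp
  | succ n =>
    rw [PowerSeries.coeff_succ_mul_X, PowerSeries.coeff_mul_C, PowerSeries.coeff_mk,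
      PowerSeries.coeff_mk, PowerSeries.coeff_one, if_neg n.succ_ne_zero, pow_succ, sub_self]

theorem la_lin (a : ℂ) : PowerSeries.derivative ℂ (1 - PowerSeries.C a * PowerSeries.X) =
    -PowerSeries.C a := by
  rw [map_sub, PowerSeries.derivative_one, Derivation.leibniz, PowerSeries.derivative_X,
    PowerSeries.derivative_C]
  simp

theorem la_geo' (a : ℂ) : PowerSeries.derivative ℂ (PowerSeries.mk fun n => a ^ n) =
    (PowerSeries.mk fun n => a ^ n) * (PowerSeries.C a * PowerSeries.mk fun n => a ^ n) := by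
  have h := la_geo a
  have h' := congrArg (PowerSeries.derivative ℂ) h
  rw [Derivation.leibniz, la_lin, PowerSeries.derivative_one, smul_eq_mul, smul_eq_mul] at h'
  linear_combination (PowerSeries.mk fun n => a ^ n) * h' -
    PowerSeries.derivative ℂ (PowerSeries.mk fun n => a ^ n) * h

theorem exists_zeta {T : Type} [Fintype T] (ev : T → ℂ) (od : T → Prop) [DecidablePred od]
    (N : ℕ → ℂ) (hN : ∀ s, N s = ∑ t, (if od t then -1 else 1) * ev t ^ (s + 1)) {c : ℂ}
    (hc : c ≠ 0) (h : ∀ t, od t → ev t ≠ c) :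
    ∃ Z : PowerSeries ℂ, PowerSeries.constantCoeff Z = 1 ∧
      PowerSeries.derivative ℂ Z = Z * PowerSeries.mk N ∧
      ∃ P Q : Polynomial ℂ, P.eval c⁻¹ ≠ 0 ∧ Q.eval c⁻¹ ≠ 0 ∧
        Z * (Q * (Polynomial.X - Polynomial.C c⁻¹) ^ Nat.card {t // ev t = c} : Polynomial ℂ) =
          P := by
  classical
  let z : T → PowerSeries ℂ := fun t =>
    if od t then 1 - PowerSeries.C (ev t) * PowerSeries.X else PowerSeries.mk fun n => ev t ^ n
  let l : T → PowerSeries ℂ := fun t => PowerSeries.C (if od t then -1 else 1) *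
    (PowerSeries.C (ev t) * PowerSeries.mk fun n => ev t ^ n)
  let p : T → Polynomial ℂ := fun t =>
    if od t then 1 - Polynomial.C (ev t) * Polynomial.X else 1
  let q : T → Polynomial ℂ := fun t => if od t then 1 else
    if ev t = c then Polynomial.C (-c) else 1 - Polynomial.C (ev t) * Polynomial.X
  let r : T → Polynomial ℂ := fun t =>
    if ev t = c then Polynomial.X - Polynomial.C c⁻¹ else 1
  have hev : ∀ a, a ≠ c → (1 - Polynomial.C a * Polynomial.X : Polynomial ℂ).eval c⁻¹ ≠ 0 := by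
    intro a ha h0
    simp only [Polynomial.eval_sub, Polynomial.eval_one, Polynomial.eval_mul, Polynomial.eval_C,
      Polynomial.eval_X] at h0
    apply ha
    field_simp at h0
    linear_combination -h0
  have hcoe : ∀ a : ℂ, ((1 - Polynomial.C a * Polynomial.X : Polynomial ℂ) : PowerSeries ℂ) =
      1 - PowerSeries.C a * PowerSeries.X := fun a => by
    rw [Polynomial.coe_sub, Polynomial.coe_mul, Polynomial.coe_one, Polynomial.coe_C,
      Polynomial.coe_X]
  refine ⟨∏ t, z t, ?_, ?_, ∏ t, p t, ∏ t, q t, ?_, ?_, ?_⟩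
  · rw [map_prod]
    refine Finset.prod_eq_one fun t _ => ?_
    by_cases ht : od t
    · simp [z, ht]
    · simp [z, ht]
  · rw [la_prod Finset.univ z l fun t => ?_]
    · congr 1
      ext s
      rw [map_sum, PowerSeries.coeff_mk, hN]
      refine Finset.sum_congr rfl fun t _ => ?_
      simp only [l, PowerSeries.coeff_C_mul, PowerSeries.coeff_mk, pow_succ']
    · by_cases ht : od t
      · simp only [z, l, if_pos ht, la_lin, map_neg, map_one]
        linear_combination PowerSeries.C (ev t) * la_geo (ev t)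
      · simp only [z, l, if_neg ht, la_geo', map_one, one_mul]
  · rw [Polynomial.eval_prod]
    refine Finset.prod_ne_zero_iff.2 fun t _ => ?_
    by_cases ht : od t
    · simp only [p, if_pos ht]
      exact hev _ (h t ht)
    · simp [p, ht]
  · rw [Polynomial.eval_prod]
    refine Finset.prod_ne_zero_iff.2 fun t _ => ?_
    by_cases ht : od t
    · simp [q, ht]
    · by_cases hc' : ev t = c
      · simp [q, ht, hc', hc]
      · simp only [q, if_neg ht, if_neg hc']
        exact hev _ hc'
  · have hr : (Polynomial.X - Polynomial.C c⁻¹) ^ Nat.card {t // ev t = c} = ∏ t, r t := by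
      simp only [r]
      rw [Finset.prod_ite, Finset.prod_const_one, mul_one, Finset.prod_const,
        Nat.card_eq_fintype_card, Fintype.card_subtype]
    rw [hr, ← Finset.prod_mul_distrib, ← Polynomial.coeToPowerSeries.ringHom_apply,
      ← Polynomial.coeToPowerSeries.ringHom_apply, map_prod, map_prod, ← Finset.prod_mul_distrib]
    refine Finset.prod_congr rfl fun t _ => ?_
    rw [Polynomial.coeToPowerSeries.ringHom_apply, Polynomial.coeToPowerSeries.ringHom_apply]
    by_cases ht : od t
    · simp only [z, p, q, r, if_pos ht, if_neg (h t ht), mul_one, Polynomial.coe_one, hcoe]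
    · by_cases hc' : ev t = c
      · have e : Polynomial.C (-c) * (Polynomial.X - Polynomial.C c⁻¹) =
            1 - Polynomial.C c * Polynomial.X := by
          rw [mul_sub, ← Polynomial.C_mul, neg_mul, mul_inv_cancel₀ hc, map_neg, map_neg, map_one]
          ring
        simp only [z, p, q, r, if_neg ht, hc', if_true, e, hcoe, Polynomial.coe_one, la_geo]
      · simp only [z, p, q, r, if_neg ht, if_neg hc', mul_one, hcoe, Polynomial.coe_one, la_geo]


theorem card_of_prod {K : Type} (al : K → ℂ) (q : ℕ) (hq : 1 < q)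
    (hal : ∀ r, ‖al r‖ ^ 2 = q) (S : Finset K) (j : ℕ) (h : ∏ r ∈ S, al r = (q : ℂ) ^ j) :
    S.card = 2 * j := by
  have h1 : ‖∏ r ∈ S, al r‖ ^ 2 = (q : ℝ) ^ S.card := by
    rw [norm_prod, ← Finset.prod_pow, Finset.prod_congr rfl fun r _ => hal r, Finset.prod_const]
  rw [h, norm_pow, Complex.norm_natCast, ← pow_mul] at h1
  have h2 : q ^ (j * 2) = q ^ S.card := by exact_mod_cast h1
  have := Nat.pow_right_injective hq h2
  omega

/-- Pole order of the zeta function with point counts `∏ (1 - al r ^ s)`. -/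
theorem zeta {K : Type} [Fintype K] (al : K → ℂ) (q : ℕ) (hq : 1 < q)
    (hal : ∀ r, ‖al r‖ ^ 2 = q) (N : ℕ → ℂ) (hN : ∀ s, N s = ∏ r, (1 - al r ^ (s + 1)))
    (j : ℕ) :
    ∃ Z : PowerSeries ℂ, PowerSeries.constantCoeff Z = 1 ∧
      PowerSeries.derivative ℂ Z = Z * PowerSeries.mk N ∧
      ∃ P Q : Polynomial ℂ, P.eval ((q : ℂ) ^ j)⁻¹ ≠ 0 ∧ Q.eval ((q : ℂ) ^ j)⁻¹ ≠ 0 ∧
        Z * (Q * (Polynomial.X - Polynomial.C ((q : ℂ) ^ j)⁻¹) ^
          Nat.card {S : Finset K // ∏ r ∈ S, al r = (q : ℂ) ^ j} : Polynomial ℂ) = P := by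
  classical
  refine exists_zeta (fun S : Finset K => ∏ r ∈ S, al r) (fun S => Odd S.card) N
    (fun s => ?_) (pow_ne_zero _ (by exact_mod_cast (by omega : q ≠ 0))) fun S hS h => ?_
  · simp only [hN, sub_eq_add_neg]
    rw [Finset.prod_one_add, Finset.powerset_univ]
    refine Finset.sum_congr rfl fun S _ => ?_
    rw [Finset.prod_neg, Finset.prod_pow]
    congr 1
    rcases Nat.even_or_odd S.card with h | h
    · rw [h.neg_one_pow, if_neg (Nat.not_odd_iff_even.2 h)]
    · rw [h.neg_one_pow, if_pos h]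
  · rw [card_of_prod al q hq hal S j h] at hS
    exact Nat.not_odd_iff_even.2 (even_two_mul j) hS

/-- Rank of a sum of products of independent families. -/
theorem rank_sum {α β T : Type*} [Fintype T] (f : α → β → ℚ) (u : T → α → ℂ) (v : T → β → ℂ)
    (h : ∀ a b, (f a b : ℂ) = ∑ S, u S a * v S b) (hu : LinearIndependent ℂ u)
    (hv : LinearIndependent ℂ v) :
    Module.rank ℚ (Submodule.span ℚ (Set.range f)) = Fintype.card T := by
  classical
  have ht := span_flip_eq_top_iff_linearIndependent.2 hu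
  refine rank_span (V := T → ℂ) (dotProductBilin ℂ ℂ) f (flip u) (flip v) h ⊥ (fun x => ?_) _ ?_
  · rw [ht, Submodule.mem_bot]
    refine ⟨fun hx => ⟨trivial, fun b => by rw [hx, map_zero, LinearMap.zero_apply]⟩, fun hx => ?_⟩
    funext S
    refine Fintype.linearIndependent_iff.1 hv x (funext fun b => ?_) S
    rw [Finset.sum_apply]
    exact hx.2 b
  · rw [ht, finrank_bot, zero_add, finrank_top, Module.finrank_fintype_fun_eq_card]

/-- Independence of a family of functions that a set of operators scales by independent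
characters. -/
theorem indep_of_push {A M T : Type*} [Fintype T] (u : T → A → ℂ) (χ : T → M → ℂ)
    (hχ : LinearIndependent ℂ χ) (hu : ∀ S, ∃ Z, u S Z ≠ 0)
    (push : ∀ m Z, ∃ (Z' : A) (r : ℂ), ∀ S, χ S m * u S Z = r * u S Z') :
    LinearIndependent ℂ u := by
  refine Fintype.linearIndependent_iff.2 fun c hc S => ?_
  obtain ⟨Z, hZ⟩ := hu S
  have := Fintype.linearIndependent_iff.1 hχ (fun S => c S * u S Z) (funext fun m => ?_) S
  · exact (mul_eq_zero.1 this).resolve_right hZ
  · obtain ⟨Z', r, hr⟩ := push m Z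
    have h0 := congrFun hc Z'
    simp only [Finset.sum_apply, Pi.smul_apply, smul_eq_mul, Pi.zero_apply] at h0 ⊢
    rw [← mul_zero r, ← h0, Finset.mul_sum]
    refine Finset.sum_congr rfl fun S _ => ?_
    linear_combination c S * hr S

/-- Descent of independence to sums over lists. -/
theorem indep_desc {α A T : Type*} [Fintype T] (u : T → A → ℂ) (hu : LinearIndependent ℂ u)
    (cl : α → Multiset A)
    (desc : ∀ Z, (∀ S, u S Z = 0) ∨
      ∃ (a : α) (c : ℂ), c ≠ 0 ∧ ∀ S, ((cl a).map (u S)).sum = c * u S Z) :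
    LinearIndependent ℂ fun S a => ((cl a).map (u S)).sum := by
  refine Fintype.linearIndependent_iff.2 fun c hc =>
    Fintype.linearIndependent_iff.1 hu c (funext fun Z => ?_)
  rcases desc Z with h | ⟨a, d, hd, e⟩
  · simp [h]
  have h0 := congrFun hc a
  simp only [Finset.sum_apply, Pi.smul_apply, smul_eq_mul, Pi.zero_apply, e] at h0 ⊢
  refine mul_left_cancel₀ hd ?_
  rw [mul_zero, ← h0, Finset.mul_sum]
  exact Finset.sum_congr rfl fun S _ => by ring

/-- A list whose members are either equivalent to `Z` or null, with one member of the first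
kind, sums to a nonzero multiple of `Z`. -/
theorem sum_of_orbit {A T : Type*} (u : T → A → ℂ) (l : Multiset A) (Z : A) (E : A → Prop)
    (hE : ∀ Z', E Z' → ∀ S, u S Z' = u S Z) (h1 : ∃ Z' ∈ l, E Z')
    (h2 : ∀ Z' ∈ l, E Z' ∨ ∀ S, u S Z' = 0) :
    ∃ c : ℂ, c ≠ 0 ∧ ∀ S, (l.map (u S)).sum = c * u S Z := by
  classical
  refine ⟨(Multiset.card (l.filter E) : ℂ), ?_, fun S => ?_⟩
  · obtain ⟨Z', hZ, hZ'⟩ := h1
    have : l.filter E ≠ 0 := fun h => by
      have := Multiset.mem_filter.2 ⟨hZ, hZ'⟩
      rw [h] at this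
      exact Multiset.notMem_zero _ this
    exact_mod_cast fun h => this (Multiset.card_eq_zero.1 h)
  · conv_lhs => rw [← Multiset.filter_add_not E l]
    rw [Multiset.map_add, Multiset.sum_add,
      Multiset.map_congr rfl (g := fun _ => u S Z) fun Z' hZ' =>
        hE Z' (Multiset.mem_filter.1 hZ').2 S,
      Multiset.map_congr (s := l.filter fun Z' => ¬E Z') rfl (g := fun _ => 0) fun Z' hZ' =>
        (h2 Z' (Multiset.mem_filter.1 hZ').1).resolve_left (Multiset.mem_filter.1 hZ').2 S]
    simp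

theorem iter_fix {A : Type*} (u : A → ℂ) (σ : A → A) (h : ∀ Z, u (σ Z) = u Z) (n : ℕ) (Z : A) :
    u (σ^[n] Z) = u Z := by
  induction n with
  | zero => rfl
  | succ n ih => rw [Function.iterate_succ_apply', h, ih]

theorem ms_comm {A B : Type*} (s : Multiset A) (t : Multiset B) (F : A → B → ℂ) :
    (s.map fun a => (t.map fun b => F a b).sum).sum =
      (t.map fun b => (s.map fun a => F a b).sum).sum := by
  induction s using Multiset.induction_on with
  | empty => simp
  | cons a s ih => simp [ih, Multiset.sum_map_add]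

/-- The final count. `A`, `B` geometric cycles, `α`, `β` rational ideals with lists of
components `cl`, `cr`, `σ`, `τ` the Frobenius conjugation, `p S` the components of the pairing. -/
theorem rank_final {α β A B M M' T : Type*} [Fintype T] (f : α → β → ℚ) (p : T → A → B → ℂ)
    (cl : α → Multiset A) (cr : β → Multiset B)
    (hf : ∀ a b, (f a b : ℂ) =
      ∑ S, ((cl a).map fun Z => ((cr b).map fun W => p S Z W).sum).sum)
    (e : T → ℂ) (one : ∀ S Z W Z' W', p S Z W * p S Z' W' = e S * (p S Z W' * p S Z' W))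
    (σ : A → A) (τ : B → B) (lam mu : T → ℂ)
    (hσ : ∀ S Z W, p S (σ Z) W = lam S * p S Z W) (hτ : ∀ S Z W, p S Z (τ W) = mu S * p S Z W)
    (invl : ∀ S a W, ((cl a).map fun Z => p S (σ Z) W).sum = ((cl a).map fun Z => p S Z W).sum)
    (invr : ∀ S b Z, ((cr b).map fun W => p S Z (τ W)).sum = ((cr b).map fun W => p S Z W).sum)
    (descl : ∀ Z, (∀ S W, p S Z W = 0) ∨ ∃ a,
      (∃ Z' ∈ cl a, ∃ n : ℕ, ∀ S W, p S Z' W = p S (σ^[n] Z) W) ∧
      ∀ Z' ∈ cl a, (∃ n : ℕ, ∀ S W, p S Z' W = p S (σ^[n] Z) W) ∨ ∀ S W, p S Z' W = 0)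
    (descr : ∀ W, (∀ S Z, p S Z W = 0) ∨ ∃ b,
      (∃ W' ∈ cr b, ∃ n : ℕ, ∀ S Z, p S Z W' = p S Z (τ^[n] W)) ∧
      ∀ W' ∈ cr b, (∃ n : ℕ, ∀ S Z, p S Z W' = p S Z (τ^[n] W)) ∨ ∀ S Z, p S Z W' = 0)
    (χ : T → M → ℂ) (ψ : T → M' → ℂ) (hχ : LinearIndependent ℂ χ) (hψ : LinearIndependent ℂ ψ)
    (pushl : ∀ m Z, ∃ (Z' : A) (r : ℂ), ∀ S W, χ S m * p S Z W = r * p S Z' W)
    (pushr : ∀ m W, ∃ (W' : B) (r : ℂ), ∀ S Z, ψ S m * p S Z W = r * p S Z W') :
    Module.rank ℚ (Submodule.span ℚ (Set.range f)) =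
      Nat.card {S // lam S = 1 ∧ mu S = 1 ∧ ∃ Z W, p S Z W ≠ 0} := by
  classical
  set Q : T → Prop := fun S => lam S = 1 ∧ mu S = 1 ∧ ∃ Z W, p S Z W ≠ 0 with hQ
  have hex : ∀ S : {S // Q S}, ∃ Z W, p S Z W ≠ 0 := fun S => S.2.2.2
  choose Z₀ W₀ h₀ using hex
  let u : {S // Q S} → A → ℂ := fun S Z => p S Z (W₀ S) / p S (Z₀ S) (W₀ S)
  let v : {S // Q S} → B → ℂ := fun S W => p S (Z₀ S) W
  have huv : ∀ (S : {S // Q S}) Z W, p S Z W = u S Z * v S W := by
    intro S Z W
    have h1 := one S (Z₀ S) (W₀ S) (Z₀ S) (W₀ S)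
    have h2 : e S = 1 := by
      have := mul_ne_zero (h₀ S) (h₀ S)
      exact mul_right_cancel₀ this (by rw [← h1, one_mul])
    have h3 := one S Z W (Z₀ S) (W₀ S)
    rw [h2, one_mul] at h3
    simp only [u, v]
    rw [div_mul_eq_mul_div, eq_div_iff (h₀ S), h3]
  have hu : LinearIndependent ℂ u := by
    refine indep_of_push u (fun S => χ S) (hχ.comp _ Subtype.val_injective)
      (fun S => ⟨Z₀ S, div_ne_zero (h₀ S) (h₀ S)⟩) fun m Z => ?_
    obtain ⟨Z', r, hr⟩ := pushl m Z
    exact ⟨Z', r, fun S => by simp only [u]; rw [← mul_div_assoc, hr, mul_div_assoc]⟩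
  have hv : LinearIndependent ℂ v := by
    refine indep_of_push v (fun S => ψ S) (hψ.comp _ Subtype.val_injective)
      (fun S => ⟨W₀ S, h₀ S⟩) fun m W => ?_
    obtain ⟨W', r, hr⟩ := pushr m W
    exact ⟨W', r, fun S => hr S _⟩
  rw [Nat.card_eq_fintype_card]
  refine rank_sum f _ _ (fun a b => ?_) (indep_desc u hu cl fun Z => ?_)
    (indep_desc v hv cr fun W => ?_)
  rotate_left
  · rcases descl Z with h | ⟨a, h1, h2⟩
    · exact Or.inl fun S => by simp only [u, h, zero_div]
    · refine Or.inr ⟨a, sum_of_orbit u (cl a) Z _ (fun Z' hZ' S => ?_) h1 fun Z' hZ' =>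
        (h2 Z' hZ').imp_right fun h S => by simp only [u, h, zero_div]⟩
      obtain ⟨n, hn⟩ := hZ'
      simp only [u]
      rw [hn, iter_fix (fun Z => p S Z (W₀ S)) σ fun Z => by rw [hσ, S.2.1, one_mul]]
  · rcases descr W with h | ⟨b, h1, h2⟩
    · exact Or.inl fun S => h S _
    · refine Or.inr ⟨b, sum_of_orbit v (cr b) W _ (fun W' hW' S => ?_) h1 fun W' hW' =>
        (h2 W' hW').imp_right fun h S => h S _⟩
      obtain ⟨n, hn⟩ := hW'
      simp only [v]
      rw [hn, iter_fix (fun W => p S (Z₀ S) W) τ fun W => by rw [hτ, S.2.2.1, one_mul]]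
  rw [hf, ← Finset.sum_filter_of_ne (p := Q) fun S _ hS => ?_,
    Finset.sum_subtype (p := Q) _ (by simp)]
  · refine Finset.sum_congr rfl fun S _ => ?_
    simp only [huv S, Multiset.sum_map_mul_left, Multiset.sum_map_mul_right]
  · refine ⟨?_, ?_, ?_⟩
    · refine mul_right_cancel₀ hS ?_
      rw [one_mul, ms_comm, ← Multiset.sum_map_mul_left]
      refine congrArg _ (Multiset.map_congr rfl fun W _ => ?_)
      rw [← Multiset.sum_map_mul_left, ← invl]
      simp only [hσ]
    · refine mul_right_cancel₀ hS ?_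
      rw [one_mul, ← Multiset.sum_map_mul_left]
      refine congrArg _ (Multiset.map_congr rfl fun Z _ => ?_)
      rw [← Multiset.sum_map_mul_left, ← invr]
      simp only [hτ]
    · by_contra hn
      push Not at hn
      exact hS (by simp [hn])

/-- The products of embeddings over distinct subsets are independent functions on the elements
of nonzero norm. -/
theorem indep_prod {Λ K : Type*} [CommRing Λ] [Fintype K] (ρ : K → Λ →+* ℂ)
    (hρ : Function.Injective ρ) :
    LinearIndependent ℂ fun (S : Finset K) (m : {m : Λ // ∀ r, ρ r m ≠ 0}) =>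
      ∏ r ∈ S, ρ r m := by
  classical
  let Mo : Submonoid Λ :=
    { carrier := {m | ∀ r, ρ r m ≠ 0}
      mul_mem' := fun ha hb r => by rw [map_mul]; exact mul_ne_zero (ha r) (hb r)
      one_mem' := fun r => by rw [map_one]; exact one_ne_zero }
  let χ : Finset K → Mo →* ℂ := fun S =>
    { toFun := fun m => ∏ r ∈ S, ρ r m
      map_one' := by simp
      map_mul' := fun a b => by simp [Finset.prod_mul_distrib] }
  have hχ : Function.Injective χ := by
    intro S S' h
    have hs : ∀ a : Λ, ∑ r ∈ S, ρ r a = ∑ r ∈ S', ρ r a := by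
      intro a
      have hp : ∏ r ∈ S, (Polynomial.X - Polynomial.C (ρ r a)) =
          ∏ r ∈ S', (Polynomial.X - Polynomial.C (ρ r a)) := by
        refine Polynomial.eq_of_infinite_eval_eq _ _ ?_
        have hinf : (Set.range (fun n : ℕ => (n : ℂ)) \ Set.range fun r => ρ r a).Infinite :=
          (Set.infinite_range_of_injective Nat.cast_injective).sdiff (Set.finite_range _)
        refine hinf.mono ?_
        rintro _ ⟨⟨n, rfl⟩, hn⟩
        have := DFunLike.congr_fun h ⟨n - a, fun r h0 => hn ⟨r, by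
          rw [map_sub, map_natCast] at h0
          exact (sub_eq_zero.1 h0).symm⟩⟩
        simpa [χ, Polynomial.eval_prod] using this
      have := congrArg Polynomial.nextCoeff hp
      rwa [Polynomial.prod_X_sub_C_nextCoeff, Polynomial.prod_X_sub_C_nextCoeff, neg_inj] at this
    have hli : LinearIndependent ℂ fun r => (ρ r : Λ → ℂ) :=
      (linearIndependent_monoidHom Λ ℂ).comp (fun r => (ρ r : Λ →* ℂ))
        fun r r' hr => hρ (RingHom.ext fun a => DFunLike.congr_fun hr a)
    have h0 := Fintype.linearIndependent_iff.1 hli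
      (fun r => (if r ∈ S then 1 else 0) - if r ∈ S' then 1 else 0) (funext fun a => by
        simp only [Finset.sum_apply, Pi.smul_apply, smul_eq_mul, Pi.zero_apply, sub_mul,
          Finset.sum_sub_distrib, ite_mul, one_mul, zero_mul, Finset.sum_ite_mem,
          Finset.univ_inter, hs a, sub_self])
    ext r
    have := h0 r
    by_cases h1 : r ∈ S <;> by_cases h2 : r ∈ S' <;> simp_all
  exact (linearIndependent_monoidHom Mo ℂ).comp χ hχ

/-- The same with complementary subsets. -/
theorem indep_prod_compl {Λ K : Type*} [CommRing Λ] [Fintype K] [DecidableEq K]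
    (ρ : K → Λ →+* ℂ) (hρ : Function.Injective ρ) :
    LinearIndependent ℂ fun (S : Finset K) (m : {m : Λ // ∀ r, ρ r m ≠ 0}) =>
      ∏ r ∈ Sᶜ, ρ r m :=
  (indep_prod ρ hρ).comp (fun S : Finset K => Sᶜ) compl_injective

end Pool.Agent.Tav.Ze
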