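import Pool.Agent.P.MP_2ce3e7_ag.Tav.Ord
import Pool.Agent.P.MP_2ce3e7_ag.Tav.FIt
import Pool.Agent.P.MP_2ce3e7_ag.Tav.FOrd
import Pool.Agent.P.MP_2ce3e7_ag.Tav.PDisc
import Pool.Agent.P.MP_2ce3e7_ag.Tav.Zeta

set_option autoImplicit false

noncomputable section

namespace Pool.Agent.Tav

open MvPolynomial Module Function

variable {Ω : Type} [Field Ω] {R : ValuationSubring ℂ} {r : R →+* Ω} {σ : Type} [Fintype σ]
  {g : ℕ}

variable [IsAlgClosed Ω]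

/-- the item of a model -/
def Model.it {L : IntermediateField ℚ ℂ} (X : Model r σ g) (hr : Surjective r) (h : X.sh.InL L)
    (π : EnR X.Λ) (S : Finset (Fin g ⊕ Fin g)) : It r L where
  s := X.sh
  B := X.fB
  Φ := inlS g
  cm := ⟨X.fC, X.rd hr, X.exists_tor hr⟩
  hL := h
  bar ρ ρ' e := by
    have h1 : ρ' = Sum.swap ρ := X.sh.inj (RingHom.ext fun a => (e a).trans (by
      rcases ρ with i | i
      · rfl
      · exact star_star _))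
    rw [h1]
    rcases ρ with i | i <;> simp [inlS]
  π := π
  S := S

open Classical in
theorem Model.ty_one {L : IntermediateField ℚ ℂ} (X : Model r σ g) (hr : Surjective r)
    (h : X.sh.InL L) (π : EnR X.Λ) (ρ : Fin g ⊕ Fin g) (t : Gal(L/ℚ)) :
    (X.it hr h π {ρ}).ty t = if Sh.Hol h (inlS g) t ρ then 1 else -1 :=
  Finset.sum_singleton _ _

omit [IsAlgClosed Ω] in
theorem Model.hol_iff {L : IntermediateField ℚ ℂ} (X : Model r σ g)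
    (hL : ∀ a ∈ En X.Λ, ∀ i, a i ∈ L) (h : X.sh.InL L) {ρ : Fin g ⊕ Fin g} {i : Fin g}
    {u : Gal(L/ℚ)} (hu : ∀ a : EnR X.Λ, (⟨X.sh.χ ρ a, h ρ a⟩ : L) = u ⟨a.1 i, hL _ a.2 i⟩)
    (t : Gal(L/ℚ)) : Sh.Hol h (inlS g) t ρ ↔ FO.Hol hL (t * u) i := by
  constructor
  · rintro ⟨ρ', h1, h2⟩
    obtain ⟨i', -, rfl⟩ := Finset.mem_map.1 h1
    refine ⟨i', fun a ha => ?_⟩
    have h3 := h2 ⟨a, ha⟩
    rw [hu] at h3
    exact h3.symm
  · rintro ⟨i', h1⟩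
    refine ⟨.inl i', Finset.mem_map_of_mem _ (Finset.mem_univ i'), fun a => ?_⟩
    rw [hu]
    exact (h1 a.1 a.2).symm

theorem Model.full (X : Model r σ g) (hr : Surjective r) {q N : ℕ} (hN : N ≠ 0)
    (hQ : ∀ e ≠ 0, FrobF Ω (q ^ e)) {π : EnR X.Λ} (hπ : X.fB.Frob (π ^ N) (q ^ N))
    (hf : X.Full q) : X.fB.TateAlg π q := by
  classical
  intro S j hS
  obtain ⟨L, _, _, c, hc, hcc, ⟨z, hz, hz'⟩, hX, σ', _, g', Y, hL, hU⟩ := hf
  obtain ⟨a, ha, e, he, hF⟩ := hU.frob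
  obtain ⟨n₀, hn₀, hmax⟩ := hU.max
  have hQ' := hQ (N * e) (mul_ne_zero hN he)
  have h := Y.inL hL hc
  have hY : Y.fB.Frob ((⟨a, ha⟩ : EnR Y.Λ) ^ N) (q ^ (N * e)) := by
    rw [mul_comm, pow_mul]
    refine Fib.Frob.pow (fun t => ?_) N
    obtain ⟨v, rfl⟩ := Y.onto t
    have h1 := Par.bPar.1 (hF v)
    rw [Y.red_smul ⟨a, ha⟩ v] at h1
    exact h1
  have hX' : X.fB.Frob (π ^ (N * e)) (q ^ (N * e)) := by
    rw [pow_mul, pow_mul]
    exact hπ.pow e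
  have hval : ∀ n : ℕ, R.valuation (n : ℂ) = 1 ↔ (n : Ω) ≠ 0 := by
    intro n
    rw [← map_natCast r, PD.r_ne_zero hr, R.valuation_eq_one_iff]
    simp
  have hu : ∀ ρ : Fin g' ⊕ Fin g', ∃ (i : Fin g') (u : Gal(L/ℚ)), ∀ b : EnR Y.Λ,
      (⟨Y.sh.χ ρ b, h ρ b⟩ : L) = u ⟨b.1 i, hL _ b.2 i⟩ := by
    rintro (i | i)
    · exact ⟨i, 1, fun b => rfl⟩
    · exact ⟨i, c, fun b => Subtype.ext (hc ⟨b.1 i, hL _ b.2 i⟩).symm⟩
  have hall : ∀ f, IsTy (c * ·) f → f 1 = 1 → ∃ i : Fin g', ∀ t,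
      Sh.Hol h (inlS g') t (.inl i) ↔ f t = 1 := by
    intro f hf h1
    obtain ⟨i, hi⟩ := hU.all {s | f s = 1} h1 fun s => by
      have h2 : f (c * s) = - f s := hf.2 s
      have h3 := hf.1 s
      change f (c * s) = 1 ↔ ¬ f s = 1
      omega
    refine ⟨i, fun t => ?_⟩
    rw [Y.hol_iff hL h (i := i) (u := 1) (fun _ => rfl), mul_one]
    exact (hi t).symm
  refine It.main (L := L) hr hQ' (fun h1 => (hval _).1 h1 hQ'.2.1) hc hcc
    (fun h1 => hz' ((h1 z).2 hz)) (fun i => ∃ ρ, i = Y.it hr h (⟨a, ha⟩ ^ N) {ρ}) ?_ ?_ ?_ ?_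
    (X.it hr (X.inL hX hc) (π ^ (N * e)) S) hX' (j := j) one_ne_zero
    (Ze.card_of_prod _ q ((Nat.one_lt_pow_iff hN).1 (hQ N hN).1)
      (X.weil hr hN (hQ N hN) hπ) S j hS) ?_
  · rintro _ ⟨ρ, rfl⟩
    exact ⟨rfl, hY⟩
  · intro f hf
    rcases hf.1 1 with h1 | h1
    · obtain ⟨i, hi⟩ := hall f hf h1
      refine ⟨_, ⟨.inl i, rfl⟩, funext fun t => ?_⟩
      rw [Y.ty_one, hi]
      have := hf.1 t
      split_ifs <;> omega
    · obtain ⟨i, hi⟩ := hall _ hf.neg (by simp [h1])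
      refine ⟨_, ⟨.inr i, rfl⟩, funext fun t => ?_⟩
      rw [Y.ty_one, Y.hol_iff hL h (ρ := .inr i) (i := i) (u := c)
        (fun b => Subtype.ext (hc ⟨b.1 i, hL _ b.2 i⟩).symm), hcc, ← mul_one (c * t),
        ← Y.hol_iff hL h (ρ := .inl i) (i := i) (u := 1) (fun _ => rfl), hi]
      have h2 : f (c * t) = - f t := hf.2 t
      have := hf.1 t
      split_ifs <;> omega
  · rintro _ ⟨ρ, rfl⟩ u hu
    obtain ⟨Y', f, h', h1, h2⟩ := hU.tw hc hcc h u⁻¹ ((It.dec R L).inv_mem hu)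
    refine ⟨Y'.it hr h' 0 {f.symm ρ}, fun t => ?_, f, h1, ?_⟩
    · rw [Y.ty_one, Y'.ty_one, h2, inv_inv, f.apply_symm_apply]
    · change ({ρ} : Finset _) = Finset.map f.toEmbedding {f.symm ρ}
      simp
  · rintro _ ⟨ρ, rfl⟩ hs t ht
    obtain ⟨i, u, hiu⟩ := hu ρ
    obtain ⟨fr, hfr⟩ := hQ'.2.2.1
    simp only [Y.ty_one, Y.hol_iff hL h hiu] at hs ht
    have h1 := FO.unit_of_disc Y hL ((hval n₀).2 hn₀) hmax
      (fun a ha h1 v hv hav => PD.disc_unit_inj Y hr hU.sm ha h1 hv hav) ⟨c z, hz'⟩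
      (Q := q ^ (N * e)) (by rw [← funext hfr]; exact fr.injective)
      ((⟨a, ha⟩ : EnR Y.Λ) ^ N).2 (fun v => by
        rw [Y.red_smul]
        exact Par.bPar.2 (hY (Y.red v))) i (fun s hs' t' ht' => by
        have h2 := hs s hs' (t' * u⁻¹)
        rw [mul_assoc, inv_mul_cancel_right, if_pos ht'] at h2
        by_contra hn
        rw [if_neg hn] at h2
        omega) (t * u) (fun h2 => by rw [if_pos h2] at ht; omega)
    refine (Finset.sum_singleton _ _).trans ?_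
    change lgv R (t ⟨Y.sh.χ ρ ((⟨a, ha⟩ : EnR Y.Λ) ^ N), h ρ _⟩ : L) = 0
    rw [hiu]
    refine (lgv_eq_zero fun h0 => ?_).2 h1
    rw [AlgEquiv.mul_apply, h0, map_zero] at h1
    exact zero_ne_one h1
  · change (∏ ρ ∈ S, X.sh.χ ρ (π ^ (N * e))) ^ 1 = _
    simp only [map_pow, Finset.prod_pow, hS]
    push_cast
    ring

end Pool.Agent.Tav
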