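import Pool.Agent.P.MP_2ce3e7_ag.Tav.KMain
import Pool.Agent.P.MP_2ce3e7_ag.Tav.FMain

set_option autoImplicit false

noncomputable section

namespace Pool.Agent.Tav

open MvPolynomial Module Function

variable {k : Type} [Field k] [Fintype k] {σ : Type} [Fintype σ] {g : ℕ} {R : ValuationSubring ℂ}
  {r : R →+* AlgebraicClosure k}

theorem Model.Full.pow {X : Model r σ g} {q : ℕ} (h : X.Full q) (e : ℕ) :
    X.Full (q ^ e) := by
  obtain ⟨L, i1, i2, c, h1, h2, h3, h4, σ', i3, g', Y, hL, hU⟩ := h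
  refine ⟨L, i1, i2, c, h1, h2, h3, h4, σ', i3, g', Y, hL,
    ⟨hU.sm, hU.max, ?_, hU.all, hU.twist⟩⟩
  obtain ⟨a, ha, e', he', hf⟩ := hU.frob
  have h5 : Y.fB.Frob (⟨a, ha⟩ : EnR Y.Λ) (q ^ e') := by
    intro t
    obtain ⟨v, rfl⟩ := Y.onto t
    have := Par.bPar.1 (hf v)
    rwa [show Y.red (a * v) = (⟨a, ha⟩ : EnR Y.Λ) • Y.red v from Y.red_smul ⟨a, ha⟩ v] at this
  refine ⟨a ^ e, ((⟨a, ha⟩ : EnR Y.Λ) ^ e).2, e', he', fun v => ?_⟩
  have h6 := h5.pow e (Y.red v)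
  rw [← pow_mul, mul_comm, pow_mul] at h6
  rw [show Y.red (a ^ e * v) = ((⟨a, ha⟩ : EnR Y.Λ) ^ e) • Y.red v from
    Y.red_smul ((⟨a, ha⟩ : EnR Y.Λ) ^ e) v]
  exact Par.bPar.2 h6

/-- Tate classes for all powers of `π` are algebraic -/
theorem Model.core (X : Model r σ g) (hr : Surjective r) {π : EnR X.Λ} {N : ℕ} (hN : N ≠ 0)
    (hf : X.fB.Frob (π ^ N) (Fintype.card k ^ N))
    (h : (∀ i, R.valuation (star (π.1 i)) = 1) ∨ X.Full (Fintype.card k)) {e : ℕ} (he : e ≠ 0) :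
    X.fB.TateAlg (π ^ e) (Fintype.card k ^ e) := by
  have h1 : X.fB.Frob ((π ^ e) ^ N) ((Fintype.card k ^ e) ^ N) := by
    have := hf.pow e
    rwa [← pow_mul, ← pow_mul, mul_comm, pow_mul, pow_mul] at this
  have h2 : ∀ e' ≠ 0, FrobF (AlgebraicClosure k) ((Fintype.card k ^ e) ^ e') := fun e' he' => by
    rw [← pow_mul]
    exact frobF k (mul_ne_zero he he')
  rcases h with h | h
  · refine X.ord hr hN (h2 N hN) h1 fun i => ?_
    change R.valuation (star (π.1 i ^ e)) = 1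
    rw [star_pow, map_pow, h i, one_pow]
  · exact X.full hr hN h2 h1 (h.pow e)

theorem main : Main := by
  intro k _ _ G τ σ _ _ _ j j' p hA hi F hF R r hr X ψ ψ' hψ hψ' ho m hm hψψ π hπ he h
  obtain ⟨N, hN, hf⟩ := k_frob (π := ⟨π, hπ⟩) hA hF hψ hm hψψ he
  refine k_main (π := ⟨π, hπ⟩) hA hi hF hr hψ hψ' ho hm hψψ he ?_
  rcases h with h | h
  · exact X.ord hr hN (frobF k hN) hf h
  · exact X.full hr hN (fun e he => frobF k he) hf h

end Pool.Agent.Tav
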