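import Mathlib

/-! Descent of primes along the Frobenius of a finite field. -/

set_option autoImplicit false

noncomputable section

namespace Pool.Agent.Tav.De

open MvPolynomial

variable {k Ω s : Type*} [Field k] [Finite k] [Field Ω] [Algebra k Ω]

theorem iter_pow (fr : Ω →+* Ω) (q : ℕ) (hfr : ∀ x, fr x = x ^ q) (n : ℕ) (x : Ω) :
    (fr ^ n) x = x ^ q ^ n := by
  induction n with
  | zero => simp
  | succ n ih => rw [pow_succ', RingHom.mul_def, RingHom.comp_apply, ih, hfr, ← pow_mul, pow_succ]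

omit [Finite k] in
theorem per_mul (fr : Ω →+* Ω) {m : ℕ} {x : Ω} (h : (fr ^ m) x = x) (t : ℕ) :
    (fr ^ (m * t)) x = x := by
  induction t with
  | zero => simp
  | succ t ih => rw [Nat.mul_succ, pow_add, RingHom.mul_def, RingHom.comp_apply, h, ih]

theorem per_elt [Algebra.IsAlgebraic k Ω] (fr : Ω →+* Ω) (hfr : ∀ x, fr x = x ^ Nat.card k)
    (x : Ω) : ∃ m, 0 < m ∧ (fr ^ m) x = x := by
  have hx : IsIntegral k x := (Algebra.IsAlgebraic.isAlgebraic x).isIntegral
  let E := IntermediateField.adjoin k {x}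
  have : FiniteDimensional k E := IntermediateField.adjoin.finiteDimensional hx
  have : Finite E := Module.finite_of_finite k
  refine ⟨Module.finrank k E, Module.finrank_pos, ?_⟩
  rw [iter_pow fr _ hfr, ← Module.natCard_eq_pow_finrank]
  cases nonempty_fintype E
  have := FiniteField.pow_card (⟨x, IntermediateField.mem_adjoin_simple_self k x⟩ : E)
  rw [Nat.card_eq_fintype_card]
  exact congrArg Subtype.val this

theorem per_fin [Algebra.IsAlgebraic k Ω] (fr : Ω →+* Ω) (hfr : ∀ x, fr x = x ^ Nat.card k)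
    (A : Finset Ω) : ∃ m, 0 < m ∧ ∀ x ∈ A, (fr ^ m) x = x := by
  classical
  induction A using Finset.induction_on with
  | empty => exact ⟨1, one_pos, by simp⟩
  | insert a A _ ih =>
    obtain ⟨m, hm, h⟩ := ih
    obtain ⟨n, hn, h'⟩ := per_elt fr hfr a
    refine ⟨m * n, Nat.mul_pos hm hn, fun x hx => ?_⟩
    rcases Finset.mem_insert.1 hx with rfl | hx
    · rw [mul_comm]
      exact per_mul fr h' m
    · exact per_mul fr (h x hx) n

theorem per_poly [Algebra.IsAlgebraic k Ω] (fr : Ω →+* Ω) (hfr : ∀ x, fr x = x ^ Nat.card k)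
    (G : Finset (MvPolynomial s Ω)) : ∃ m, 0 < m ∧ ∀ f ∈ G, map (fr ^ m) f = f := by
  classical
  obtain ⟨m, hm, h⟩ := per_fin fr hfr (G.biUnion fun f => f.support.image fun d => coeff d f)
  refine ⟨m, hm, fun f hf => ext _ _ fun d => ?_⟩
  rw [coeff_map]
  by_cases hd : d ∈ f.support
  · exact h _ (Finset.mem_biUnion.2 ⟨f, hf, Finset.mem_image_of_mem _ hd⟩)
  · rw [notMem_support_iff.1 hd, map_zero]

theorem fix_elt (x : Ω) (hx : x ^ Nat.card k = x) : ∃ a : k, algebraMap k Ω a = x := by
  classical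
  cases nonempty_fintype k
  rw [Nat.card_eq_fintype_card] at hx
  have h1 := FiniteField.roots_X_pow_card_sub_X k
  have hne := FiniteField.X_pow_card_sub_X_ne_zero k (p := Fintype.card k) Fintype.one_lt_card
  have hs : (Polynomial.X ^ Fintype.card k - Polynomial.X : Polynomial k).Splits := by
    rw [Polynomial.splits_iff_card_roots, h1,
      FiniteField.X_pow_card_sub_X_natDegree_eq k Fintype.one_lt_card]
    rfl
  exact hs.mem_range_of_isRoot (i := algebraMap k Ω) hne (by simp [hx])

theorem fix_poly (fr : Ω →+* Ω) (hfr : ∀ x, fr x = x ^ Nat.card k) (f : MvPolynomial s Ω)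
    (hf : map fr f = f) : ∃ g : MvPolynomial s k, map (algebraMap k Ω) g = f := by
  have : f ∈ Set.range (map (algebraMap k Ω) : MvPolynomial s k → MvPolynomial s Ω) := by
    refine mem_range_map_iff_coeffs_subset.2 fun c hc => ?_
    obtain ⟨d, -, rfl⟩ := mem_coeffs_iff.1 hc
    refine fix_elt _ ?_
    rw [← hfr, ← coeff_map, hf]
  exact this

omit [Finite k] in
theorem map_pow_add (fr : Ω →+* Ω) (a b : ℕ) (f : MvPolynomial s Ω) :
    map (fr ^ (a + b)) f = map (fr ^ a) (map (fr ^ b) f) := by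
  rw [map_map, pow_add, RingHom.mul_def]

omit [Finite k] in
theorem per_poly_mul (fr : Ω →+* Ω) {m : ℕ} {f : MvPolynomial s Ω} (h : map (fr ^ m) f = f)
    (t : ℕ) : map (fr ^ (m * t)) f = f := by
  induction t with
  | zero => simp [RingHom.one_def, map_id]
  | succ t ih => rw [Nat.mul_succ, map_pow_add, h, ih]

/-- Every ideal is mapped into itself by a power of Frobenius. -/
theorem per_ideal [Finite s] [Algebra.IsAlgebraic k Ω] (fr : Ω →+* Ω)
    (hfr : ∀ x, fr x = x ^ Nat.card k) (P : Ideal (MvPolynomial s Ω)) :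
    ∃ m, 0 < m ∧ ∀ t, ∀ f ∈ P, map (fr ^ (m * t)) f ∈ P := by
  obtain ⟨G, hG⟩ := (isNoetherianRing_iff_ideal_fg _).1 inferInstance P
  obtain ⟨m, hm, h⟩ := per_poly fr hfr G
  refine ⟨m, hm, fun t => ?_⟩
  change P ≤ P.comap (map (fr ^ (m * t)))
  conv_lhs => rw [← hG]
  refine Ideal.span_le.2 fun g hg => ?_
  change map _ g ∈ P
  rw [per_poly_mul fr (h g hg), ← hG]
  exact Ideal.subset_span hg

/-- A prime that contains the rational elements of `I` contains a conjugate of `I`. -/
theorem desc_prime [Finite s] [Algebra.IsAlgebraic k Ω] (fr : Ω →+* Ω)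
    (hfr : ∀ x, fr x = x ^ Nat.card k) (I P : Ideal (MvPolynomial s Ω)) [hP : P.IsPrime]
    (h : ∀ g : MvPolynomial s k, map (algebraMap k Ω) g ∈ I → map (algebraMap k Ω) g ∈ P) :
    ∃ n : ℕ, ∀ f ∈ I, map (fr ^ n) f ∈ P := by
  classical
  obtain ⟨m, hm, hper⟩ := per_ideal fr hfr P
  have key : (I : Set (MvPolynomial s Ω)) ⊆
      ⋃ i ∈ (↑(Finset.range m) : Set ℕ), (P.comap (map (fr ^ i)) : Ideal _) := by
    intro f hf
    obtain ⟨n, hn, hfn⟩ := per_poly fr hfr {f}
    have hfn := hfn f (Finset.mem_singleton_self f)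
    obtain ⟨n, rfl⟩ : ∃ n', n = n' + 1 := ⟨n - 1, by omega⟩
    have hN : map fr (∏ i ∈ Finset.range (n + 1), map (fr ^ i) f) =
        ∏ i ∈ Finset.range (n + 1), map (fr ^ i) f := by
      have e : ∀ i, map fr (map (fr ^ i) f) = map (fr ^ (i + 1)) f := fun i => by
        rw [add_comm, map_pow_add, pow_one]
      rw [map_prod]
      simp only [e]
      rw [Finset.prod_range_succ, Finset.prod_range_succ', hfn, pow_zero, RingHom.one_def, map_id]
    obtain ⟨g, hg⟩ := fix_poly fr hfr _ hN
    have hgI : map (algebraMap k Ω) g ∈ I := by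
      rw [hg, Finset.prod_range_succ', pow_zero, RingHom.one_def, map_id]
      exact I.mul_mem_left _ hf
    have hgP := h g hgI
    rw [hg] at hgP
    obtain ⟨i, -, hi⟩ := Ideal.IsPrime.prod_mem_iff.1 hgP
    refine Set.mem_biUnion (x := i % m) (by simpa using Nat.mod_lt _ hm) ?_
    change map (fr ^ (i % m)) f ∈ P
    have h2 := hper (n * (i / m)) _ hi
    rw [← map_pow_add] at h2
    have e : m * (n * (i / m)) + i = i % m + (n + 1) * (m * (i / m)) := by
      have := Nat.mod_add_div i m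
      nlinarith
    rwa [e, map_pow_add, per_poly_mul fr hfn] at h2
  obtain ⟨i, -, hi⟩ := (Ideal.subset_union_prime (s := Finset.range m)
    (f := fun i => P.comap (map (fr ^ i))) 0 0 fun i _ _ _ => Ideal.comap_isPrime _ _).1 key
  exact ⟨i, fun f hf => hi hf⟩

omit [Finite k] in
theorem eval_frob (fr : Ω →+* Ω) (x : s → Ω) (f : MvPolynomial s Ω) :
    eval (fun i => fr (x i)) (map fr f) = fr (eval x f) := by
  induction f using MvPolynomial.induction_on with
  | C a => simp
  | add f g hf hg => simp [hf, hg]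
  | mul_X f i hf => simp [hf]

end Pool.Agent.Tav.De
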