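import Pool.Agent.P.MP_2ce3e7_ag.Tav.AExp
import Pool.Agent.P.MP_2ce3e7_ag.Tav.Defs
import Pool.Agent.P.MP_2ce3e7_ag.Tav.Desc

/-! Block A on fibres: expansion, rank one, push, Frobenius rule. -/

set_option autoImplicit false
set_option linter.unusedSectionVars false

noncomputable section

namespace Pool.Agent.Tav

open MvPolynomial Module Function

section per
variable {Ω σ : Type} [Field Ω]

theorem per_polyA (fr : Ω →+* Ω) (hp : ∀ x, ∃ m, 0 < m ∧ (fr ^ m) x = x)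
    (G : Finset (MvPolynomial σ Ω)) : ∃ m, 0 < m ∧ ∀ f ∈ G, map (fr ^ m) f = f := by
  classical
  have fin : ∀ A : Finset Ω, ∃ m, 0 < m ∧ ∀ x ∈ A, (fr ^ m) x = x := by
    intro A
    induction A using Finset.induction_on with
    | empty => exact ⟨1, one_pos, by simp⟩
    | insert a A _ ih =>
      obtain ⟨m, hm, h⟩ := ih
      obtain ⟨n, hn, h'⟩ := hp a
      refine ⟨m * n, Nat.mul_pos hm hn, fun x hx => ?_⟩
      rcases Finset.mem_insert.1 hx with rfl | hx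
      · rw [mul_comm]
        exact De.per_mul fr h' m
      · exact De.per_mul fr (h x hx) n
  obtain ⟨m, hm, h⟩ := fin (G.biUnion fun f => f.support.image fun d => coeff d f)
  refine ⟨m, hm, fun f hf => ext _ _ fun d => ?_⟩
  rw [coeff_map]
  by_cases hd : d ∈ f.support
  · exact h _ (Finset.mem_biUnion.2 ⟨f, hf, Finset.mem_image_of_mem _ hd⟩)
  · rw [notMem_support_iff.1 hd, map_zero]

theorem per_idealA [Finite σ] (fr : Ω →+* Ω) (hp : ∀ x, ∃ m, 0 < m ∧ (fr ^ m) x = x)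
    (P : Ideal (MvPolynomial σ Ω)) : ∃ m, 0 < m ∧ ∀ t, ∀ f ∈ P, map (fr ^ (m * t)) f ∈ P := by
  obtain ⟨G, hG⟩ := (isNoetherianRing_iff_ideal_fg _).1 inferInstance P
  obtain ⟨m, hm, h⟩ := per_polyA fr hp G
  refine ⟨m, hm, fun t => ?_⟩
  change P ≤ P.comap (map (fr ^ (m * t)))
  conv_lhs => rw [← hG]
  refine Ideal.span_le.2 fun g hg => ?_
  change map _ g ∈ P
  rw [De.per_poly_mul fr (h g hg), ← hG]
  exact Ideal.subset_span hg

variable {β T : Type} [DecidableEq β] [Fintype β] [Fintype σ] {w : σ → β}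

theorem map_mem_SdA (φ : Ω →+* Ω) {d : β → ℕ} {f : MvPolynomial σ Ω} (hf : f ∈ Sd Ω w d) :
    map φ f ∈ Sd Ω w d := fun m hm => hf fun h0 => hm (by rw [coeff_map, h0, map_zero])

theorem aeval_ptA (x : T → σ → Ω) (f : MvPolynomial σ Ω) (t : T) :
    aeval (fun v t => x t v : σ → T → Ω) f t = eval (x t) f := by
  induction f using MvPolynomial.induction_on with
  | C a => simp
  | add f g hf hg => simp [hf, hg]
  | mul_X f i hf => simp [hf]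

theorem mem_pc_blkA {x : T → σ → Ω} {hx : ∀ t b, ∃ v, w v = b ∧ x t v ≠ 0} {d : β → ℕ}
    {u : T → Ω} (hu : u ∈ pc (LS.blk w x hx) d) :
    ∃ f ∈ Sd Ω w d, ∀ t, u t = eval (x t) f := by
  have e : pc (LS.blk w x hx) d = _ := (map_Sd (β := w) (fun v t => x t v : σ → T → Ω) d).symm
  rw [e] at hu
  obtain ⟨f, hf, rfl⟩ := hu
  exact ⟨f, hf, fun t => aeval_ptA x f t⟩

theorem BPar.eval_zero {x y : σ → Ω} (h : BPar w x y) {d : β → ℕ} {f : MvPolynomial σ Ω}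
    (hf : f ∈ Sd Ω w d) : eval x f = 0 ↔ eval y f = 0 := by
  obtain ⟨c, hc, e⟩ := h
  have key : eval x f = (∏ b, c b ^ d b) * eval y f := by
    rw [eval_eq', eval_eq', Finset.mul_sum]
    refine Finset.sum_congr rfl fun m hm => ?_
    have hw := hf (mem_support_iff.1 hm)
    simp only [e, mul_pow, Finset.prod_mul_distrib]
    have : ∏ l, c (w l) ^ m l = ∏ b, c b ^ d b := by
      rw [← Finset.prod_fiberwise Finset.univ w]
      refine Finset.prod_congr rfl fun b _ => ?_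
      rw [← hw, weight_wN, ← Finset.prod_pow_eq_pow_sum]
      refine Finset.prod_congr rfl fun l hl => ?_
      rw [(Finset.mem_filter.1 hl).2]
    rw [this]
    ring
  rw [key, mul_eq_zero, or_iff_right (Finset.prod_ne_zero_iff.2 fun b _ => pow_ne_zero _ (hc b))]

theorem blk_eq_coA (x : T → σ → Ω) (hx : ∀ t b, ∃ v, w v = b ∧ x t v ≠ 0) (b : β) :
    ∃ hp, LS.blk w x hx b = LS.co (fun t (l : {l // w l = b}) => x t l) hp := by
  refine ⟨fun t h0 => ?_, LS.ext' ?_⟩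
  · obtain ⟨v, hv, h⟩ := hx t b
    exact h (congrFun h0 ⟨v, hv⟩)
  · change Submodule.span Ω _ = Submodule.span Ω _
    congr 1
    ext u
    exact ⟨fun ⟨v, hv, e⟩ => ⟨⟨v, hv⟩, e⟩, fun ⟨v, e⟩ => ⟨v.1, v.2, e⟩⟩

/-- blockwise powers of the coordinates -/
theorem sim_tw_blk {Y Z : Type} (x : T → σ → Ω) (hx : ∀ t b, ∃ v, w v = b ∧ x t v ≠ 0)
    {fr : Ω ≃+* Ω} {Q : ℕ} (hfr : ∀ c, fr c = c ^ Q) (i : Y → T) (i' : Z → T) (F : Y → Z)
    (h : ∀ y, BPar w (x (i' (F y))) (x (i y) ^ Q)) (b : β) :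
    (((LS.blk w x hx b).pb i).tw fr).Sim (((LS.blk w x hx b).pb i').pb F) := by
  obtain ⟨hp, e⟩ := blk_eq_coA x hx b
  have hq : ∀ y, (fun l : {l // w l = b} => fr (x (i y) l)) ≠ 0 := fun y h0 =>
    hp (i y) (funext fun l => by simpa using congrFun h0 l)
  rw [e, LS.pb_co, LS.pb_co, LS.pb_co, LS.tw_co fr _ _ hq]
  refine LS.sim_co _ _ fun y => ?_
  obtain ⟨c, -, hc⟩ := h y
  exact ⟨c b, funext fun l => by
    rw [Pi.smul_apply, smul_eq_mul, hfr, hc, l.2, Pi.pow_apply]⟩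

end per

theorem ParLaw.parL {Ω G : Type} [Field Ω] [AddCommGroup G] {H : LS Ω G} (h : ParLaw H) :
    ParL H := by
  obtain ⟨U, lam, hb, hl, e⟩ := h
  refine ⟨lam, hl, ?_⟩
  have e2 : (![2, 2] : Fin 2 → ℕ) = fun _ => 2 := by
    funext i; fin_cases i <;> rfl
  rw [e, e2] at hb
  simpa [pc, Fin.prod_univ_two] using hb

namespace Fib

variable {Ω : Type} [Field Ω] {s : Sh} {F : Fib Ω s} {j j' : ℕ}

theorem regM_sub (F : Fib Ω s) : RegM (prodB F.H F.H) F.H fun t : F.G × F.G => t.1 - t.2 := F.sub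

theorem regM_smul (F : Fib Ω s) (a : s.Λ) : RegM F.H F.H fun t => a • t := F.smul a

theorem regM_add (F : Fib Ω s) : RegM (prodB F.H F.H) F.H fun t : F.G × F.G => t.1 + t.2 := by
  have := ((RegM.fst F.H F.H).pair ((F.regM_smul (-1)).csnd F.H)).comp F.regM_sub
  have e : ((fun t : F.G × F.G => t.1 - t.2) ∘ fun t : F.G × F.G =>
      (t.1, ((fun t => (-1 : s.Λ) • t) ∘ Prod.snd) t)) = fun t => t.1 + t.2 := by
    funext t; simp
  rwa [e] at this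

theorem DD_id (F : Fib Ω s) : F.DD F.H id = mix F.H (F.H ∘ s.sl) := by
  simp only [DD, LS.pb_id]; rfl

theorem abS (hd : F.Deg) : AbS F.H (F.H ∘ s.sl) s.χ where
  src := F.src
  regH i := Reg.self F.H _
  add := F.regM_add
  smul := F.regM_smul
  par i := (F.par _).parL
  pos := F.top
  deg a _ := by rw [← F.DD_id]; exact hd a

theorem DD_eq {T β : Type} [Fintype β] (B : β → LS Ω T) (u : T → F.G) :
    F.DD B u = dM B (F.H ∘ s.sl) u := rfl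

theorem pS_eq (Z : F.Cyc j) (W : F.Cyc j') :
    pS Z W = pP Z.B W.B (F.H ∘ s.sl) s.χ Z.z W.z := rfl

/-- EXP -/
theorem exp (hd : F.Deg) (hj : j + j' = s.n) (Z : F.Cyc j) (W : F.Cyc j') (a b : s.Λ) :
    (D Z W a b : ℂ) = ∑ S, pS Z W S * Det.mon s.χ S a b :=
  (abS hd).pP_spec s.bas s.inj hj Z.src W.src Z.reg W.reg a b

theorem pS_unique (hd : F.Deg) (hj : j + j' = s.n) (Z : F.Cyc j) (W : F.Cyc j')
    {p : Finset s.Γ → ℂ} (hp : ∀ a b, Det.nm s.χ a ≠ 0 → Det.nm s.χ b ≠ 0 →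
      (D Z W a b : ℂ) = ∑ S, p S * Det.mon s.χ S a b) : pS Z W = p :=
  Det.uniq s.bas s.inj _ _ fun a b ha hb => (exp hd hj Z W a b).symm.trans (hp a b ha hb)

/-- ONE -/
theorem one (hd : F.Deg) (hj : j + j' = s.n) (Z Z' : F.Cyc j) (W W' : F.Cyc j')
    (S : Finset s.Γ) : pS Z W S * pS Z' W' S = (-1) ^ S.card * (pS Z W' S * pS Z' W S) :=
  (abS hd).one s.bas s.inj hj Z.src W.src Z'.src W'.src Z.reg W.reg Z'.reg W'.reg S

theorem even_of_ne (hd : F.Deg) (hj : j + j' = s.n) {Z : F.Cyc j} {W : F.Cyc j'}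
    {S : Finset s.Γ} (h : pS Z W S ≠ 0) : Even S.card := by
  by_contra ho
  have := one hd hj Z Z W W S
  rw [(Nat.not_even_iff_odd.1 ho).neg_one_pow] at this
  exact mul_ne_zero h h (by linear_combination (1 / 2 : ℂ) * this)

/-- a multiple of a cycle -/
def Cyc.smul (c : s.Λ) (Z : F.Cyc j) : F.Cyc j where
  T := Z.T
  β := Z.β
  B := Z.B
  z t := c • Z.z t
  src := Z.src
  reg := (RegM.comp (j := Z.z) Z.reg (F.regM_smul c) :)

theorem pS_smul_left (hd : F.Deg) (hj : j + j' = s.n) (Z : F.Cyc j) (W : F.Cyc j') (c : s.Λ)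
    (S : Finset s.Γ) : pS (Z.smul c) W S = (∏ ρ ∈ Sᶜ, s.χ ρ c) * pS Z W S :=
  (abS hd).pP_smul_left s.bas s.inj hj Z.src W.src Z.reg W.reg c S

theorem pS_smul_right (hd : F.Deg) (hj : j + j' = s.n) (Z : F.Cyc j) (W : F.Cyc j') (c : s.Λ)
    (S : Finset s.Γ) : pS Z (W.smul c) S = (∏ ρ ∈ S, s.χ ρ c) * pS Z W S :=
  (abS hd).pP_smul_right s.bas s.inj hj Z.src W.src Z.reg W.reg c S

theorem pS_swap (hd : F.Deg) (hj : j + j' = s.n) (Z : F.Cyc j) (W : F.Cyc j') (S : Finset s.Γ) :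
    pS W Z S = pS Z W Sᶜ :=
  (abS hd).pP_swap s.bas s.inj hj Z.src W.src Z.reg W.reg S

/-- VAN -/
theorem pS_low (hd : F.Deg) (Z : F.Cyc j) (W : F.Cyc j') {m m' : ℕ} (hm : m + m' < s.n)
    (hZ : Src Z.B m) (hW : Src W.B m') : pS Z W = 0 :=
  (abS hd).pP_low s.bas s.inj hm hZ hW Z.reg W.reg

/-- PUSH on the left -/
theorem pS_deg_left (hd : F.Deg) (hj : j + j' = s.n) (Z Z' : F.Cyc j) {i : Z.T → Z'.T}
    (hi : RegM Z.B Z'.B i) (e : ∀ t, Z'.z (i t) = Z.z t) {r : ℚ} (d : Tav.Deg Z.B Z'.B i j r)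
    (W : F.Cyc j') (S : Finset s.Γ) : pS Z W S = r * pS Z' W S := by
  have := (abS hd).pP_deg_left s.bas s.inj hj Z.src W.src Z'.src hi d Z'.reg W.reg S
  rwa [show Z'.z ∘ i = Z.z from funext e] at this

/-- PUSH on the right -/
theorem pS_deg_right (hd : F.Deg) (hj : j + j' = s.n) (W W' : F.Cyc j') {i : W.T → W'.T}
    (hi : RegM W.B W'.B i) (e : ∀ t, W'.z (i t) = W.z t) {r : ℚ} (d : Tav.Deg W.B W'.B i j' r)
    (Z : F.Cyc j) (S : Finset s.Γ) : pS Z W S = r * pS Z W' S := by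
  have := (abS hd).pP_deg_right s.bas s.inj hj Z.src W.src W'.src hi d Z.reg W'.reg S
  rwa [show W'.z ∘ i = W.z from funext e] at this

theorem push_left (hd : F.Deg) (hj : j + j' = s.n) (Z Z' : F.Cyc j) {i : Z.T → Z'.T}
    (hi : RegM Z.B Z'.B i) (e : ∀ t, Z'.z (i t) = Z.z t) :
    ∃ r : ℕ, ∀ (W : F.Cyc j') S, pS Z W S = r * pS Z' W S := by
  obtain ⟨r, d⟩ := exists_deg Z.src Z'.src hi
  exact ⟨r, fun W S => by simpa using pS_deg_left hd hj Z Z' hi e d W S⟩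

theorem push_right (hd : F.Deg) (hj : j + j' = s.n) (W W' : F.Cyc j') {i : W.T → W'.T}
    (hi : RegM W.B W'.B i) (e : ∀ t, W'.z (i t) = W.z t) :
    ∃ r : ℕ, ∀ (Z : F.Cyc j) S, pS Z W S = r * pS Z W' S := by
  obtain ⟨r, d⟩ := exists_deg W.src W'.src hi
  exact ⟨r, fun Z S => by simpa using pS_deg_right hd hj W W' hi e d Z S⟩

/-- the Frobenius rule on the left; `C` is the base of the conjugate source -/
theorem frob_left (hd : F.Deg) (hj : j + j' = s.n) (Z : F.Cyc j) (W : F.Cyc j') {T : Type}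
    {C : Z.β → LS Ω T} {fr : Ω ≃+* Ω} {Q : ℕ} (hfr : ∀ c, fr c = c ^ Q) {i : Z.T → T}
    (hi : IsFr fr Z.B C i) {u : T → F.G} (hu : F.In C u) {π : s.Λ}
    (e : ∀ t, u (i t) = π • Z.z t) (S : Finset s.Γ) :
    (Q : ℂ) ^ j * pS (⟨T, Z.β, C, u, hi.src Z.src, hu⟩ : F.Cyc j) W S =
      (∏ ρ ∈ Sᶜ, s.χ ρ π) * pS Z W S :=
  (abS hd).pP_frob_left s.bas s.inj hj Z.src W.src hfr hi Z.reg W.reg hu e S

/-- the Frobenius rule on the right -/
theorem frob_right (hd : F.Deg) (hj : j + j' = s.n) (Z : F.Cyc j) (W : F.Cyc j') {T : Type}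
    {C : W.β → LS Ω T} {fr : Ω ≃+* Ω} {Q : ℕ} (hfr : ∀ c, fr c = c ^ Q) {i : W.T → T}
    (hi : IsFr fr W.B C i) {u : T → F.G} (hu : F.In C u) {π : s.Λ}
    (e : ∀ t, u (i t) = π • W.z t) (S : Finset s.Γ) :
    (Q : ℂ) ^ j' * pS Z (⟨T, W.β, C, u, hi.src W.src, hu⟩ : F.Cyc j') S =
      (∏ ρ ∈ S, s.χ ρ π) * pS Z W S :=
  (abS hd).pP_frob_right s.bas s.inj hj Z.src W.src hfr hi Z.reg W.reg hu e S

/-- the closure of a subset -/
def clo (F : Fib Ω s) (A : Set F.G) : Set F.G :=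
  {t | ∀ d, ∀ f ∈ Sd Ω s.w d, (∀ a ∈ A, eval (F.x a) f = 0) → eval (F.x t) f = 0}

theorem subset_clo (A : Set F.G) : A ⊆ F.clo A := fun a ha _ _ _ h => h a ha

/-- the map of a cycle to the closure of its image -/
def Cyc.toClo (Z : F.Cyc j) (t : Z.T) : F.clo (Set.range Z.z) :=
  ⟨Z.z t, subset_clo _ ⟨t, rfl⟩⟩

theorem Cyc.regM_toClo (Z : F.Cyc j) :
    RegM Z.B (fun b => (F.H b).pb (Subtype.val : F.clo (Set.range Z.z) → F.G)) Z.toClo :=
  fun b => by rw [LS.pb_pb]; exact Z.reg b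

theorem mem_pc_rs {A : Set F.G} {d : s.β → ℕ} {u : A → Ω}
    (hu : u ∈ pc (fun b => (F.H b).pb (Subtype.val : A → F.G)) d) :
    ∃ f ∈ Sd Ω s.w d, ∀ t : A, u t = eval (F.x t) f := by
  rw [pc_pb] at hu
  obtain ⟨v, hv, rfl⟩ := hu
  obtain ⟨f, hf, e⟩ := mem_pc_blkA hv
  exact ⟨f, hf, fun t => e t⟩

theorem Cyc.dense_toClo (Z : F.Cyc j) :
    Dense Z.toClo fun b => (F.H b).pb (Subtype.val : F.clo (Set.range Z.z) → F.G) := by
  intro d u hu h0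
  obtain ⟨f, hf, e⟩ := mem_pc_rs hu
  funext t
  rw [e]
  refine t.2 d f hf ?_
  rintro _ ⟨a, rfl⟩
  exact (e (Z.toClo a)).symm.trans (congrFun h0 a)

/-- the closure of the image of a cycle -/
def Cyc.clo (Z : F.Cyc j) : F.Cyc j where
  T := F.clo (Set.range Z.z)
  β := s.β
  B b := (F.H b).pb Subtype.val
  z := Subtype.val
  src := Z.dense_toClo.src.1 (Z.src.of_reg Z.regM_toClo)
  reg := RegM.restrict F.H Subtype.val

theorem Frob.pow {π : s.Λ} {Q : ℕ} (h : F.Frob π Q) (m : ℕ) : F.Frob (π ^ m) (Q ^ m) := by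
  induction m with
  | zero => exact fun t => ⟨fun _ => 1, fun _ => one_ne_zero, fun l => by simp⟩
  | succ m ih =>
    intro t
    obtain ⟨c, hc, e⟩ := h (π ^ m • t)
    obtain ⟨c', hc', e'⟩ := ih t
    refine ⟨fun b => c b * c' b ^ Q, fun b => mul_ne_zero (hc b) (pow_ne_zero _ (hc' b)),
      fun l => ?_⟩
    rw [pow_succ', mul_smul, e, Pi.pow_apply, e', Pi.pow_apply, Pi.pow_apply, mul_pow, ← pow_mul,
      pow_succ, mul_assoc]

/-- a power of Frobenius maps a closed set densely to itself -/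
theorem exists_isFr {π : s.Λ} {Q : ℕ} (hπ : F.Frob π Q) (hQ : FrobF Ω Q) (A : Set F.G) :
    ∃ m ≠ 0, ∃ (fr : Ω ≃+* Ω) (i : F.clo A → F.clo A), (∀ c, fr c = c ^ Q ^ m) ∧
      (∀ t, (i t : F.G) = π ^ m • (t : F.G)) ∧
      IsFr fr (fun b => (F.H b).pb (Subtype.val : F.clo A → F.G))
        (fun b => (F.H b).pb (Subtype.val : F.clo A → F.G)) i := by
  obtain ⟨-, -, ⟨fr, hfr⟩, hper⟩ := hQ
  have hit := De.iter_pow (fr : Ω →+* Ω) Q hfr
  have hp : ∀ x, ∃ m, 0 < m ∧ ((fr : Ω →+* Ω) ^ m) x = x := fun x => by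
    obtain ⟨m, hm, h⟩ := hper x
    exact ⟨m, Nat.pos_of_ne_zero hm, by rw [hit, h]⟩
  let J := kerG Ω s.w (fun v (a : A) => F.x a v)
  have hJ : ∀ {d} {f}, f ∈ Sd Ω s.w d → (f ∈ J ↔ ∀ a ∈ A, eval (F.x a) f = 0) := by
    intro d f hf
    rw [mem_kerG hf, funext_iff]
    simp only [aeval_ptA (fun a : A => F.x a), Subtype.forall, Pi.zero_apply]
  obtain ⟨m, hm, hJm⟩ := per_idealA (fr : Ω →+* Ω) hp J
  have split : ∀ {d} {f}, f ∈ Sd Ω s.w d → ∃ n, map ((fr : Ω →+* Ω) ^ m)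
      (map ((fr : Ω →+* Ω) ^ (m * n)) f) = f ∧ ∀ t, eval (F.x (π ^ m • t)) f = 0 ↔
        eval (F.x t) (map ((fr : Ω →+* Ω) ^ (m * n)) f) = 0 := by
    intro d f hf
    obtain ⟨n, hn, h⟩ := per_polyA (fr : Ω →+* Ω) hp {f}
    obtain ⟨n, rfl⟩ : ∃ n', n = n' + 1 := ⟨n - 1, by omega⟩
    have e : map ((fr : Ω →+* Ω) ^ m) (map ((fr : Ω →+* Ω) ^ (m * n)) f) = f := by
      rw [← De.map_pow_add, show m + m * n = (n + 1) * m by ring,
        De.per_poly_mul _ (h f (Finset.mem_singleton_self f))]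
    refine ⟨n, e, fun t => ?_⟩
    rw [(hπ.pow m t).eval_zero hf]
    have e2 : F.x t ^ Q ^ m = fun l => ((fr : Ω →+* Ω) ^ m) (F.x t l) :=
      funext fun l => by rw [hit, Pi.pow_apply]
    conv_lhs => rw [e2, ← e, De.eval_frob]
    exact map_eq_zero_iff _ (RingHom.injective _)
  have maps : ∀ t ∈ F.clo A, π ^ m • t ∈ F.clo A := by
    intro t ht d f hf h0
    obtain ⟨n, -, e⟩ := split hf
    have h1 := map_mem_SdA ((fr : Ω →+* Ω) ^ (m * n)) hf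
    exact (e t).2 (ht d _ h1 ((hJ h1).1 (hJm n f ((hJ hf).2 h0))))
  have hfm : ∀ c, (RingEquiv.ofBijective ((fr : Ω →+* Ω) ^ m) (by
      rw [RingHom.coe_pow]; exact fr.bijective.iterate m)) c = c ^ Q ^ m := fun c => hit m c
  refine ⟨m, hm.ne', _, fun t => ⟨π ^ m • t.1, maps _ t.2⟩, hfm, fun _ => rfl, ?_,
    sim_tw_blk F.x F.hx hfm _ _ _ fun t => hπ.pow m t⟩
  intro d u hu h0
  obtain ⟨f, hf, e⟩ := mem_pc_rs hu
  obtain ⟨n, e1, e2⟩ := split hf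
  have h1 := map_mem_SdA ((fr : Ω →+* Ω) ^ (m * n)) hf
  have h2 : map ((fr : Ω →+* Ω) ^ (m * n)) f ∈ J := (hJ h1).2 fun a ha =>
    (e2 a).1 ((e ⟨π ^ m • a, maps _ (subset_clo A ha)⟩).symm.trans
      (congrFun h0 ⟨a, subset_clo A ha⟩))
  have h3 := hJm 1 _ h2
  rw [mul_one, e1] at h3
  funext t
  rw [e]
  exact t.2 d f hf ((hJ hf).1 h3)

/-- FR -/
theorem fr_pow (hd : F.Deg) {π : s.Λ} {Q : ℕ} (hπ : F.Frob π Q) (hQ : FrobF Ω Q) (hj : j + j' = s.n)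
    {Z : F.Cyc j} {W : F.Cyc j'} {S : Finset s.Γ} (h : pS Z W S ≠ 0) :
    ∃ m ≠ 0, (∏ ρ ∈ S, s.χ ρ π) ^ m = ((Q : ℂ) ^ j') ^ m := by
  obtain ⟨r, hr⟩ := push_right hd hj W W.clo W.regM_toClo fun _ => rfl
  have h1 : pS Z W.clo S ≠ 0 := fun h0 => h (by rw [hr, h0, mul_zero])
  obtain ⟨m, hm, fr, i, hfr, hi, hF⟩ := exists_isFr hπ hQ (Set.range W.z)
  have := frob_right hd hj Z W.clo hfr hF W.clo.reg hi S
  refine ⟨m, hm, ?_⟩
  have h2 := mul_right_cancel₀ h1 this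
  simp only [map_pow, Finset.prod_pow] at h2
  rw [← h2]
  push_cast
  ring

theorem AlgS.fr (hd : F.Deg) {π : s.Λ} {Q : ℕ} (hπ : F.Frob π Q) (hQ : FrobF Ω Q)
    {S : Finset s.Γ} (h : F.AlgS S) :
    ∃ j, S.card = 2 * j ∧ ∃ m ≠ 0, (∏ ρ ∈ S, s.χ ρ π) ^ m = ((Q : ℂ) ^ j) ^ m := by
  obtain ⟨j, j', hj, hS, Z, W, h⟩ := h
  exact ⟨j', hS, Fib.fr_pow hd hπ hQ hj h⟩

theorem AlgS.compl (hd : F.Deg) {S : Finset s.Γ} (h : F.AlgS S) : F.AlgS Sᶜ := by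
  obtain ⟨j, j', hj, hS, Z, W, h⟩ := h
  refine ⟨j', j, (add_comm _ _).trans hj, ?_, W, Z, by rwa [pS_swap hd hj, compl_compl]⟩
  have := s.card
  rw [Finset.card_compl, hS, this]
  change 2 * s.n - _ = _
  omega

end Fib

end Pool.Agent.Tav
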