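import Pool.Agent.P.MP_2ce3e7_ag.Tav.RK

set_option autoImplicit false

namespace Pool.Agent.Tav

open Module Submodule

section UP

variable {Ω : Type*} [Field Ω] {T : Type*}

theorem up_prod_mem (H : Submodule Ω (T → Ω)) {κ : Type*} (s : Finset κ) (f : κ → T → Ω)
    (e : κ → ℕ) (h : ∀ i ∈ s, f i ∈ H ^ e i) : ∏ i ∈ s, f i ∈ H ^ ∑ i ∈ s, e i := by
  classical
  induction s using Finset.induction_on with
  | empty => simpa using (Submodule.one_le (P := (1 : Submodule Ω (T → Ω)))).1 le_rfl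
  | insert a s ha ih =>
    rw [Finset.prod_insert ha, Finset.sum_insert ha, pow_add]
    exact Submodule.mul_mem_mul (h a (Finset.mem_insert_self _ _))
      (ih fun i hi => h i (Finset.mem_insert_of_mem hi))

/-- forms of degree `m` that separate `κ ≤ m + 1` points of projective space -/
theorem exists_sep {s : Type*} (p : s → T → Ω) {κ : Type*} [Fintype κ] (x : κ → T)
    (hne : ∀ i, ∃ a, p a (x i) ≠ 0)
    (hsep : ∀ i j, i ≠ j → ∃ a b, p a (x i) * p b (x j) ≠ p b (x i) * p a (x j))
    {m : ℕ} (hm : Fintype.card κ ≤ m + 1) :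
    ∃ u : κ → T → Ω, (∀ j, u j ∈ span Ω (Set.range p) ^ m) ∧ (∀ j, u j (x j) ≠ 0) ∧
      ∀ i j, i ≠ j → u j (x i) = 0 := by
  classical
  set H := span Ω (Set.range p) with hH
  have hp : ∀ a, p a ∈ H := fun a => subset_span ⟨a, rfl⟩
  have hl : ∀ i j, ∃ l ∈ H, i ≠ j → l (x i) = 0 ∧ l (x j) ≠ 0 := by
    intro i j
    by_cases hij : i = j
    · exact ⟨0, H.zero_mem, fun h => absurd hij h⟩
    · obtain ⟨a, b, hab⟩ := hsep i j hij
      refine ⟨p a (x i) • p b - p b (x i) • p a, H.sub_mem (H.smul_mem _ (hp b))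
        (H.smul_mem _ (hp a)), fun _ => ⟨by simp [mul_comm], ?_⟩⟩
      simpa [sub_eq_zero] using hab
  choose l hlH hl using hl
  choose a ha using hne
  refine ⟨fun j => (∏ i ∈ Finset.univ.erase j, l i j) * p (a j) ^ (m + 1 - Fintype.card κ),
    fun j => ?_, fun j => ?_, fun i j hij => ?_⟩
  · have h1 := up_prod_mem H (Finset.univ.erase j) (fun i => l i j) (fun _ => 1)
      fun i _ => by simpa using hlH i j
    have h2 : 0 < Fintype.card κ := Fintype.card_pos_iff.2 ⟨j⟩
    have e : m = ∑ _i ∈ Finset.univ.erase j, 1 + (m + 1 - Fintype.card κ) := by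
      rw [Finset.sum_const, Finset.card_erase_of_mem (Finset.mem_univ j), Finset.card_univ,
        smul_eq_mul]
      omega
    have h3 := Submodule.mul_mem_mul h1 (Submodule.pow_mem_pow H (hp (a j))
      (m + 1 - Fintype.card κ))
    rwa [← pow_add, ← e] at h3
  · simp only [Pi.mul_apply, Finset.prod_apply, Pi.pow_apply]
    exact mul_ne_zero (Finset.prod_ne_zero_iff.2 fun i hi =>
      (hl i j (Finset.ne_of_mem_erase hi)).2) (pow_ne_zero _ (ha j))
  · simp only [Pi.mul_apply, Finset.prod_apply]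
    rw [Finset.prod_eq_zero (Finset.mem_erase.2 ⟨hij, Finset.mem_univ i⟩) (hl i j hij).1,
      zero_mul]

/-- a chart of a map gives a chart of every form in the map -/
theorem up_chart {r : Type*} (H : Submodule Ω (T → Ω)) (f : r → T → Ω) (l : T → Ω) {e : ℕ}
    (h : ∀ a, l * f a ∈ H ^ e) (d : ℕ) :
    ∀ g ∈ span Ω (Set.range f) ^ d, l ^ d * g ∈ H ^ (e * d) := by
  induction d with
  | zero => intro g hg; simpa using hg
  | succ d ih =>
    intro g hg
    rw [pow_succ] at hg
    refine Submodule.mul_induction_on hg (fun y hy z hz => ?_) fun y z hy hz => ?_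
    · have h2 : l * z ∈ H ^ e := by
        induction hz using Submodule.span_induction with
        | mem z hz => obtain ⟨a, rfl⟩ := hz; exact h a
        | zero => simp
        | add z w _ _ hz hw => rw [mul_add]; exact Submodule.add_mem _ hz hw
        | smul c z _ hz => rw [mul_smul_comm]; exact Submodule.smul_mem _ _ hz
      have := Submodule.mul_mem_mul (ih y hy) h2
      rw [← pow_add, ← Nat.mul_succ] at this
      have e1 : l ^ (d + 1) * (y * z) = l ^ d * y * (l * z) := by rw [pow_succ]; ring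
      rwa [e1]
    · rw [mul_add (l ^ (d + 1))]; exact Submodule.add_mem _ hy hz

/-- forms scale -/
theorem up_scale {r : Type*} (f : r → T → Ω) {x y : T} {c : Ω} (h : ∀ a, f a y = c * f a x)
    (d : ℕ) : ∀ g ∈ span Ω (Set.range f) ^ d, g y = c ^ d * g x := by
  induction d with
  | zero =>
    intro g hg
    rw [pow_zero, Submodule.mem_one] at hg
    obtain ⟨t, rfl⟩ := hg
    simp
  | succ d ih =>
    intro g hg
    rw [pow_succ] at hg
    refine Submodule.mul_induction_on hg (fun u hu z hz => ?_) fun u z hu hz => ?_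
    · have h2 : z y = c * z x := by
        induction hz using Submodule.span_induction with
        | mem z hz => obtain ⟨a, rfl⟩ := hz; exact h a
        | zero => simp
        | add z w _ _ hz hw => simp only [Pi.add_apply, hz, hw, mul_add]
        | smul t z _ hz => simp only [Pi.smul_apply, hz, smul_eq_mul]; ring
      simp only [Pi.mul_apply, ih u hu, h2]
      ring
    · simp only [Pi.add_apply, hu, hz, mul_add]

theorem up_comp {r T' : Type*} (f : r → T → Ω) (τ : T' → T) (d : ℕ) :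
    ∀ g ∈ span Ω (Set.range f) ^ d, g ∘ τ ∈ span Ω (Set.range fun a => f a ∘ τ) ^ d := by
  induction d with
  | zero =>
    intro g hg
    rw [pow_zero, Submodule.mem_one] at hg ⊢
    obtain ⟨t, rfl⟩ := hg
    exact ⟨t, rfl⟩
  | succ d ih =>
    intro g hg
    rw [pow_succ] at hg ⊢
    refine Submodule.mul_induction_on hg (fun u hu z hz => ?_) fun u z hu hz => ?_
    · have h2 : z ∘ τ ∈ span Ω (Set.range fun a => f a ∘ τ) := by
        induction hz using Submodule.span_induction with
        | mem z hz => obtain ⟨a, rfl⟩ := hz; exact subset_span ⟨a, rfl⟩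
        | zero => exact Submodule.zero_mem _
        | add z w _ _ hz hw => exact Submodule.add_mem _ hz hw
        | smul t z _ hz => exact Submodule.smul_mem _ t hz
      exact Submodule.mul_mem_mul (ih u hu) h2
    · exact Submodule.add_mem _ hu hz

/-- UP: `κ` regular maps `τ i` that fix the regular map `φ` and move a point to `κ` different
points give `κ` forms independent over the ring of `φ` -/
theorem up_ind {s r : Type*} (p : s → T → Ω) (φ : r → T → Ω) {κ : Type*} [Fintype κ]
    (τ : κ → T → T) (x₀ : T)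
    (hdom : ∀ a b : ℕ, ∀ f ∈ span Ω (Set.range p) ^ a, ∀ g ∈ span Ω (Set.range p) ^ b,
      f * g = 0 → f = 0 ∨ g = 0)
    (hτ : ∀ i, ∃ (e : ℕ) (l : T → Ω), l x₀ ≠ 0 ∧
      ∀ a, l * (p a ∘ τ i) ∈ span Ω (Set.range p) ^ e)
    (hφ : ∀ x, ∃ (e : ℕ) (l : T → Ω), l x ≠ 0 ∧ ∀ a, l * φ a ∈ span Ω (Set.range p) ^ e)
    (hinv : ∀ i x, ∃ c : Ω, c ≠ 0 ∧ ∀ a, φ a (τ i x) = c * φ a x)
    (hne : ∀ i, ∃ a, p a (τ i x₀) ≠ 0)
    (hsep : ∀ i j, i ≠ j →
      ∃ a b, p a (τ i x₀) * p b (τ j x₀) ≠ p b (τ i x₀) * p a (τ j x₀))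
    {m : ℕ} (hm : Fintype.card κ ≤ m + 1) :
    ∃ u : κ → T → Ω, (∀ j, u j ∈ span Ω (Set.range p) ^ m) ∧
      Ind (fun d : ℕ => span Ω (Set.range φ) ^ d) u := by
  classical
  obtain ⟨u, hu, hd, ho⟩ := exists_sep p (fun i => τ i x₀) hne hsep hm
  refine ⟨u, hu, fun d g hg hs j => ?_⟩
  choose e l hl he using hτ
  let M : Matrix κ κ (T → Ω) := fun i j => l i ^ m * (u j ∘ τ i)
  have hM : ∀ i j, M i j ∈ span Ω (Set.range p) ^ (e i * m) := fun i j =>
    up_chart _ (fun a => p a ∘ τ i) (l i) (he i) m _ (up_comp p (τ i) m _ (hu j))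
  have hdet : M.det ∈ span Ω (Set.range p) ^ ∑ i, e i * m := by
    rw [← Matrix.det_transpose, Matrix.det_apply]
    refine Submodule.sum_mem _ fun σ _ => ?_
    rw [Units.smul_def]
    exact zsmul_mem (up_prod_mem _ _ (fun i => M.transpose (σ i) i) _ fun i _ => hM i (σ i)) _
  have hne0 : M.det ≠ 0 := by
    intro h0
    have h1 := congrArg (Pi.evalRingHom (fun _ : T => Ω) x₀) h0
    rw [RingHom.map_det, map_zero] at h1
    have h2 : (Pi.evalRingHom (fun _ : T => Ω) x₀).mapMatrix M =
        Matrix.diagonal fun i => l i x₀ ^ m * u i (τ i x₀) := by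
      ext i j
      change l i x₀ ^ m * u j (τ i x₀) = _
      by_cases hij : i = j
      · subst hij; simp
      · simp [Matrix.diagonal_apply_ne _ hij, ho i j hij]
    rw [h2, Matrix.det_diagonal] at h1
    exact Finset.prod_ne_zero_iff.2 (fun i _ => mul_ne_zero (pow_ne_zero _ (hl i)) (hd i)) h1
  have hmv : M.mulVec g = 0 := by
    funext i x
    obtain ⟨c, hc, hcx⟩ := hinv i x
    have h1 := congrFun hs (τ i x)
    simp only [Finset.sum_apply, Pi.mul_apply, Pi.zero_apply,
      fun j => up_scale φ hcx d _ (hg j), mul_assoc, ← Finset.mul_sum] at h1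
    have h2 := (mul_eq_zero.1 h1).resolve_left (pow_ne_zero _ hc)
    simp only [Matrix.mulVec, dotProduct, M, Finset.sum_apply, Pi.mul_apply, Pi.pow_apply,
      Function.comp_apply, Pi.zero_apply, mul_assoc, ← Finset.mul_sum]
    rw [Finset.sum_congr rfl fun j _ => mul_comm (u j (τ i x)) (g j x), h2, mul_zero]
  have hz : M.det * g j = 0 := by
    have := congrArg (fun v => M.adjugate.mulVec v j) hmv
    simpa [Matrix.mulVec_mulVec, Matrix.adjugate_mul, Matrix.smul_mulVec] using this
  funext x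
  obtain ⟨e', l', hl', he'⟩ := hφ x
  have h3 := hdom _ _ _ hdet _ (up_chart _ φ l' he' d _ (hg j))
    (by rw [mul_left_comm, hz, mul_zero])
  have h4 := congrFun (h3.resolve_left hne0) x
  simpa [hl'] using h4

/-- UP, numerical form -/
theorem up_rank {s r : Type*} [Finite s] [Finite r] (p : s → T → Ω) (φ : r → T → Ω) {κ : Type*}
    [Fintype κ] (τ : κ → T → T) (x₀ : T)
    (hdom : ∀ a b : ℕ, ∀ f ∈ span Ω (Set.range p) ^ a, ∀ g ∈ span Ω (Set.range p) ^ b,
      f * g = 0 → f = 0 ∨ g = 0)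
    (hτ : ∀ i, ∃ (e : ℕ) (l : T → Ω), l x₀ ≠ 0 ∧
      ∀ a, l * (p a ∘ τ i) ∈ span Ω (Set.range p) ^ e)
    (hφ : ∀ x, ∃ (e : ℕ) (l : T → Ω), l x ≠ 0 ∧ ∀ a, l * φ a ∈ span Ω (Set.range p) ^ e)
    (hinv : ∀ i x, ∃ c : Ω, c ≠ 0 ∧ ∀ a, φ a (τ i x) = c * φ a x)
    (hne : ∀ i, ∃ a, p a (τ i x₀) ≠ 0)
    (hsep : ∀ i j, i ≠ j →
      ∃ a b, p a (τ i x₀) * p b (τ j x₀) ≠ p b (τ i x₀) * p a (τ j x₀))
    {m : ℕ} (hm : Fintype.card κ ≤ m + 1) (d : ℕ) :
    Fintype.card κ * finrank Ω ↥(span Ω (Set.range φ) ^ d) ≤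
      finrank Ω ↥(span Ω (Set.range p) ^ m * span Ω (Set.range φ) ^ d) := by
  obtain ⟨u, hu, hi⟩ := up_ind p φ τ x₀ hdom hτ hφ hinv hne hsep hm
  have fd : ∀ (W : Submodule Ω (T → Ω)) [FiniteDimensional Ω W] (n : ℕ),
      FiniteDimensional Ω ↥(W ^ n) := by
    intro W _ n
    induction n with
    | zero =>
      rw [pow_zero, Submodule.one_eq_span]
      exact FiniteDimensional.span_of_finite Ω (Set.finite_singleton _)
    | succ n ih => rw [pow_succ]; infer_instance
  have := FiniteDimensional.span_of_finite Ω (Set.finite_range p)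
  have := FiniteDimensional.span_of_finite Ω (Set.finite_range φ)
  have := fd (span Ω (Set.range p)) m
  have := fd (span Ω (Set.range φ)) d
  exact hi.lower hu d

end UP

section ORD

open Polynomial

/-- if the middle coefficient survives and the roots in `Φ` die, the other roots survive -/
theorem ord_unit {A F K : Type*} [CommRing A] [CommRing F] [Fintype K] (f : A →+* F)
    (al : K → A) (Φ : Finset K) (h0 : ∀ r ∈ Φ, f (al r) = 0)
    (hc : f ((∏ r, (X - C (al r))).coeff Φ.card) ≠ 0) {r : K} (hr : r ∉ Φ) : f (al r) ≠ 0 := by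
  classical
  intro h
  apply hc
  rw [← coeff_map, Polynomial.map_prod]
  have hd : (X : F[X]) ^ (Φ.card + 1) ∣ ∏ r, (X - C (al r)).map f := by
    rw [← Finset.card_insert_of_notMem hr, ← Finset.prod_const]
    refine (Finset.prod_dvd_prod_of_dvd _ _ fun t ht => ?_).trans
      (Finset.prod_dvd_prod_of_subset _ _ _ (Finset.subset_univ _))
    have : f (al t) = 0 := by
      rcases Finset.mem_insert.1 ht with rfl | ht
      · exact h
      · exact h0 t ht
    simp [this]
  exact X_pow_dvd_iff.1 hd _ (Nat.lt_succ_self _)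

/-- if half of the roots are units and the roots in `Φ` are not, the other roots are units -/
theorem ord_half {K : Type*} [Fintype K] (P : K → Prop) (Φ : Finset K) (h0 : ∀ r ∈ Φ, ¬ P r)
    (hc : Fintype.card K ≤ Nat.card {r // P r} + Φ.card) {r : K} (hr : r ∉ Φ) : P r := by
  classical
  have hsub : Finset.univ.filter P ⊆ Φᶜ := fun t ht =>
    Finset.mem_compl.2 fun h => h0 t h (Finset.mem_filter.1 ht).2
  rw [Nat.card_eq_fintype_card, Fintype.card_subtype] at hc
  have h1 := Finset.card_compl Φ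
  have h3 : Fintype.card K ≤ (Finset.univ.filter P).card + Φ.card := by convert hc
  have h2 := Finset.eq_of_subset_of_card_le hsub (by omega)
  exact (Finset.mem_filter.1 (h2 ▸ Finset.mem_compl.2 hr)).2

/-- ORD: a Tate set meets the type in half of its elements -/
theorem ord_card {F K Γ : Type*} [Field F] [LinearOrderedCommGroupWithZero Γ] [DecidableEq K]
    (v : Valuation F Γ) (al : K → F) (Φ : Finset K) {q : F} (hq0 : q ≠ 0) (hq : v q < 1)
    (hu : ∀ r, r ∉ Φ → v (al r) = 1) (hb : ∀ r ∈ Φ, ∃ r', r' ∉ Φ ∧ al r * al r' = q)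
    {S : Finset K} {j : ℕ} (h : ∏ r ∈ S, al r = q ^ j) : (S ∩ Φ).card = j := by
  have h1 : ∀ r ∈ Φ, v (al r) = v q := fun r hr => by
    obtain ⟨r', hr', e⟩ := hb r hr
    rw [← e, map_mul, hu r' hr', mul_one]
  have h2 := congrArg v h
  rw [map_prod, map_pow, ← Finset.prod_inter_mul_prod_sdiff S Φ,
    Finset.prod_congr rfl fun r hr => h1 r (Finset.mem_inter.1 hr).2,
    Finset.prod_eq_one (s := S \ Φ) fun r hr => hu r (Finset.mem_sdiff.1 hr).2,
    Finset.prod_const, mul_one] at h2
  exact pow_right_injective₀ (zero_lt_iff.2 ((map_ne_zero v).2 hq0)) hq.ne h2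

end ORD

end Pool.Agent.Tav
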