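import Pool.Agent.P.MP_2ce3e7_ag.Tav.HNum
import Pool.Agent.P.MP_2ce3e7_ag.Tav.Up

set_option autoImplicit false

noncomputable section

namespace Pool.Agent.Tav

open MvPolynomial Filter Module

variable {ι : Type}

theorem up_lead {p : Polynomial ℚ} {n : ℕ} (hd : ∀ k, n < k → p.coeff k = 0)
    (h : ∀ t : ℕ, 0 ≤ p.eval (t : ℚ)) : 0 ≤ p.coeff n := by
  by_contra hc
  have hc := not_le.1 hc
  have hn : p.natDegree = n := le_antisymm (Polynomial.natDegree_le_iff_coeff_eq_zero.2 hd)
    (Polynomial.le_natDegree_of_ne_zero hc.ne)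
  rcases Nat.eq_zero_or_pos n with rfl | hpos
  · have := h 0
    rw [Nat.cast_zero, ← Polynomial.coeff_zero_eq_eval_zero] at this
    exact absurd hc (not_lt.2 this)
  · have h1 : Tendsto (fun x : ℚ => p.eval x) atTop atBot :=
      p.tendsto_atBot_of_leadingCoeff_nonpos
        (Polynomial.natDegree_pos_iff_degree_pos.1 (hn ▸ hpos))
        (by rw [Polynomial.leadingCoeff, hn]; exact hc.le)
    obtain ⟨t, ht⟩ := ((h1.comp tendsto_natCast_atTop_atTop).eventually
      (eventually_lt_atBot 0)).exists
    exact absurd ht (not_lt.2 (h t))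

theorem coeff_ln_single [DecidableEq ι] (i : ι) (k : ℕ) (R : MvPolynomial ι ℚ) :
    (ln (Pi.single i (1 : ℚ)) R).coeff k = coeff (Finsupp.single i k) R := by
  induction R using MvPolynomial.induction_on' with
  | add p q hp hq => simp only [map_add, Polynomial.coeff_add, coeff_add, hp, hq]
  | monomial s c =>
    rw [ln_monomial, Polynomial.coeff_monomial, coeff_monomial, eval_monomial]
    by_cases hs : s = Finsupp.single i k
    · subst hs
      simp
    · rw [if_neg hs]
      split_ifs with hk
      · obtain ⟨j, hj, hji⟩ : ∃ j ∈ s.support, j ≠ i := by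
          by_contra hn
          push Not at hn
          have h1 : s = Finsupp.single i (s i) :=
            Finsupp.support_subset_singleton.1 fun j hj => Finset.mem_singleton.2 (hn j hj)
          have h2 : s.degree = s i := by
            conv_lhs => rw [h1, Finsupp.degree_single]
          exact hs (by rw [← hk, h2]; exact h1)
        rw [Finsupp.prod, Finset.prod_eq_zero hj, mul_zero]
        rw [Pi.single_eq_of_ne hji, zero_pow (Finsupp.mem_support_iff.1 hj)]
      · rfl

/-- a polynomial that is nonnegative at large vectors has nonnegative pure top coefficients -/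
theorem coeff_single_nonneg [Fintype ι] {P : MvPolynomial ι ℚ} {n : ℕ} (h : Dg P n)
    (hp : Lg fun d => 0 ≤ evN d P) (i : ι) : 0 ≤ coeff (Finsupp.single i n) P := by
  classical
  obtain ⟨N, hN⟩ := hp
  obtain ⟨Q, hQ⟩ : ∃ Q, Q = sh (fun _ : ι => ((N : ℕ) : ℚ)) P := ⟨_, rfl⟩
  have hQd : Dg Q n := by rw [hQ]; exact h.sh _
  have h0 : coeff (Finsupp.single i n) Q = coeff (Finsupp.single i n) P := by
    rw [hQ]; exact h.coeff_sh _ (by rw [Finsupp.degree_single])
  rw [← h0, ← coeff_ln_single]
  have h3 : ∀ k, n < k → (ln (Pi.single i (1 : ℚ)) Q).coeff k = 0 := fun k hk => by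
    rw [coeff_ln_single]
    exact hQd _ (by rw [Finsupp.degree_single]; exact_mod_cast hk)
  refine up_lead h3 fun t => ?_
  have h1 := hN (Pi.single i t + fun _ => N) fun j => Nat.le_add_left _ _
  beta_reduce at h1
  have h2 : evN (Pi.single i t) Q = evN (Pi.single i t + fun _ => N) P := by
    rw [hQ]; exact evN_sh _ (fun _ => N) P
  have e1 : (fun j => (Pi.single i (1 : ℚ) : ι → ℚ) j * (t : ℚ)) =
      fun j => (((Pi.single i t : ι → ℕ) j : ℕ) : ℚ) := by
    funext j
    by_cases hj : j = i
    · subst hj; simp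
    · simp [hj]
  rw [← h2, evN, ← e1, ← eval_ln] at h1
  exact h1

/-- comparison of pure top coefficients -/
theorem coeff_single_le [Fintype ι] {h h' : (ι → ℕ) → ℚ} {P Q : MvPolynomial ι ℚ} {n : ℕ}
    (hP : EvP h P) (hQ : EvP h' Q) (dP : Dg P n) (dQ : Dg Q n) (c : ℚ)
    (hl : Lg fun d => c * h d ≤ h' d) (i : ι) :
    c * coeff (Finsupp.single i n) P ≤ coeff (Finsupp.single i n) Q := by
  have := coeff_single_nonneg (dQ.sub (dP.C_mul c)) (((Lg.and hP hQ).and hl).mono fun d hd => by
    rw [map_sub, map_mul, evN_C, hd.1.1, hd.1.2]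
    exact sub_nonneg.2 hd.2) i
  rwa [coeff_sub, coeff_C_mul, sub_nonneg] at this

end Pool.Agent.Tav
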