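import Pool.Agent.P.MP_2ce3e7_ag.Tav.GAll
import Pool.Agent.P.MP_2ce3e7_ag.Tav.UpN
import Pool.Agent.P.MP_2ce3e7_ag.Tav.PPoly

/-! The kernel of a homomorphism has at most as many points as its degree. -/

set_option autoImplicit false

noncomputable section

namespace Pool.Agent.Tav.Pp

open MvPolynomial Module Set

variable {Ω : Type} [Field Ω] {T Y σ τ : Type}

theorem pc_unit (V : LS Ω T) (e : Unit → ℕ) : pc (fun _ : Unit => V) e = V.sp ^ e () := by
  rw [pc, Fintype.prod_unique]

theorem sum_single {ι : Type} (n : ℕ) (i : ι) :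
    ∑ _j : Fin n, Finsupp.single i 1 = Finsupp.single i n := by
  rw [Finset.sum_const, Finset.card_univ, Fintype.card_fin, Finsupp.smul_single, smul_eq_mul,
    mul_one]

theorem nc_single {ι : Type} (n : ℕ) (i : ι) (P : MvPolynomial ι ℚ) :
    nc (Finsupp.single i n) P = n.factorial * coeff (Finsupp.single i n) P := by
  rw [nc_apply, Finsupp.prod_single_index Nat.factorial_zero]

theorem not_par {x y : σ → Ω} (hx : x ≠ 0) (hy : y ≠ 0) (h : ¬ Par x y) :
    ∃ a b, x a * y b ≠ x b * y a := by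
  by_contra hn
  push Not at hn
  obtain ⟨b, hb⟩ := Function.ne_iff.1 hy
  have e : x = (x b / y b) • y := funext fun a => by
    rw [Pi.smul_apply, smul_eq_mul, div_mul_eq_mul_div, ← hn a b, mul_div_cancel_right₀ _ hb]
  exact h ⟨_, IsUnit.mk0 _ fun h0 => hx (by rw [e, h0, zero_smul]), e⟩

/-- `κ` regular maps that fix `j` and move a point to `κ` different points -/
theorem card_le_mix [Finite σ] [Finite τ] {p : T → σ → Ω} (hp : ∀ t, p t ≠ 0) {q : Y → τ → Ω}
    (hq : ∀ y, q y ≠ 0) {n : ℕ} (hS : Src (fun _ : Unit => LS.co p hp) n)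
    (hY : Src (fun _ : Unit => LS.co q hq) n) {j : T → Y}
    (hj : Reg (fun _ : Unit => LS.co p hp) ((LS.co q hq).pb j))
    (hd : Dense j fun _ : Unit => LS.co q hq) {κ : Type} [Fintype κ] (s : κ → T → T) (x₀ : T)
    (hs : ∀ i, ∃ (e : ℕ) (l : T → Ω), l x₀ ≠ 0 ∧ ∀ a, (l * fun t => p (s i t) a) ∈ crd p ^ e)
    (hinv : ∀ i x, j (s i x) = j x) (hsep : ∀ i i', Par (p (s i x₀)) (p (s i' x₀)) → i = i') :
    (Fintype.card κ : ℚ) * mix (fun _ : Unit => LS.co q hq) (fun _ : Fin n => LS.co q hq) ≤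
      mix (fun _ : Unit => LS.co p hp) fun _ : Fin n => (LS.co q hq).pb j := by
  classical
  set H := LS.co p hp with hH
  set V := (LS.co q hq).pb j with hV
  have hVs : V.sp = Submodule.span Ω (range fun a t => q (j t) a) := by
    rw [hV, LS.pb_co]; rfl
  let B : Unit ⊕ Unit → LS Ω T := Sum.elim (fun _ => H) fun _ => V
  have hB : Src B n := hS.ext fun _ => hj
  have e1 : mix (fun _ : Unit => H) (fun _ : Fin n => V) =
      n.factorial * coeff (Finsupp.single (Sum.inr ()) n) (pL B) := by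
    rw [mix_base (C := B) hS (fun k => by cases k; exacts [Reg.self _ (), hj])
      (fun _ => Reg.self B (Sum.inl ())) (fun _ => hj) (by simp), ← nc_single, ← sum_single]
    exact mix_self B fun _ : Fin n => Sum.inr ()
  have e2 : mix (fun _ : Unit => LS.co q hq) (fun _ : Fin n => LS.co q hq) =
      n.factorial * coeff (Finsupp.single (Sum.inr ()) n)
        (rename (Sum.inr : Unit → Unit ⊕ Unit) (pL fun _ : Unit => V)) := by
    rw [← Finsupp.mapDomain_single (f := (Sum.inr : Unit → Unit ⊕ Unit)),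
      coeff_rename_mapDomain _ Sum.inr_injective, hd.pL, ← nc_single, ← sum_single]
    exact mix_self (fun _ : Unit => LS.co q hq) fun _ : Fin n => ()
  rw [e1, e2, mul_left_comm]
  refine mul_le_mul_of_nonneg_left ?_ (Nat.cast_nonneg _)
  refine coeff_single_le ((evP_pL fun _ : Unit => V).rename Sum.inr) (evP_pL B)
    ((hd.src.2 hY).dg.rename _) hB.dg _ ⟨Fintype.card κ, fun d hd' => ?_⟩ _
  have e3 : pc B d = H.sp ^ d (Sum.inl ()) * V.sp ^ d (Sum.inr ()) := by
    rw [pc, Fintype.prod_sum_type, Fintype.prod_unique, Fintype.prod_unique]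
    rfl
  have := up_rank (fun a t => p t a) (fun a t => q (j t) a) s x₀
    (fun a b f hf g hg => hS.dom (fun _ => a) (fun _ => b) f (by rwa [pc_unit]) g
      (by rwa [pc_unit])) hs
    (fun x => by
      obtain ⟨e, l, hl, h⟩ := hj x
      refine ⟨e (), l, hl, fun a => ?_⟩
      have := h (fun t => q (j t) a) (by rw [hVs]; exact Submodule.subset_span ⟨a, rfl⟩)
      rwa [pc_unit] at this)
    (fun i x => ⟨1, one_ne_zero, fun a => by rw [hinv, one_mul]⟩)
    (fun i => Function.ne_iff.1 (hp _))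
    (fun i i' hi => not_par (hp _) (hp _) fun h => hi (hsep i i' h))
    ((hd' (Sum.inl ())).trans (Nat.le_succ _)) (d (Sum.inr ()))
  beta_reduce
  rw [e3, pc_unit, hVs]
  exact_mod_cast this

variable {G : Type} [AddCommGroup G] {p : G → σ → Ω} {g : ℕ}

/-- translations are regular -/
theorem av_trans (h : AV p g) (b x₀ : G) :
    ∃ (e : ℕ) (l : G → Ω), l x₀ ≠ 0 ∧ ∀ a, (l * fun t => p (t - b) a) ∈ crd p ^ e := by
  obtain ⟨e, c, hc, h1⟩ := h.sub (x₀, b)
  let φ := pbA Ω fun t : G => (t, b)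
  refine ⟨e 0, φ c, hc.ne_zero, fun a => ?_⟩
  have h2 := Submodule.mem_map_of_mem (f := φ.toLinearMap)
    (h1 _ (Submodule.subset_span ⟨a, rfl⟩))
  rw [Fin.prod_univ_two, Submodule.map_mul, Submodule.map_pow, Submodule.map_pow] at h2
  have h3 : (crd fun t : G × G => p t.1).map φ.toLinearMap = crd p := by
    rw [crd, Submodule.map_span, ← range_comp]; rfl
  have h4 : (crd fun t : G × G => p t.2).map φ.toLinearMap ≤ 1 := by
    rw [crd, Submodule.map_span, Submodule.span_le]
    rintro _ ⟨_, ⟨l, rfl⟩, rfl⟩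
    exact Submodule.mem_one.2 ⟨p b l, rfl⟩
  have h5 : (crd fun t : G × G => p t.1).map φ.toLinearMap ^ e 0 *
      (crd fun t : G × G => p t.2).map φ.toLinearMap ^ e 1 ≤ crd p ^ e 0 := by
    rw [h3]
    refine (mul_le_mul_right (pow_le_pow_left' h4 _) _).trans ?_
    rw [one_pow, mul_one]
  exact h5 h2

theorem reg_of_mor [Finite σ] [Finite τ] {p : T → σ → Ω} (hp : ∀ t, p t ≠ 0) {q : Y → τ → Ω}
    (hq : ∀ y, q y ≠ 0) {j : T → Y} (h : Mor p q j) :
    Reg (fun _ : Unit => LS.co p hp) ((LS.co q hq).pb j) := fun t => by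
  obtain ⟨e, c, hc, h1⟩ := h t
  refine ⟨fun _ => e 0, c, hc.ne_zero, fun u hu => ?_⟩
  rw [LS.pb_co] at hu
  have := h1 u hu
  rw [Fin.prod_univ_one] at this
  rw [pc_unit]
  exact this

theorem mix_nonneg (V : LS Ω T) {n : ℕ} (h : Src (fun _ : Unit => V) n) :
    0 ≤ mix (fun _ : Unit => V) fun _ : Fin n => V := by
  have e : mix (fun _ : Unit => V) (fun _ : Fin n => V) =
      n.factorial * coeff (Finsupp.single () n) (pL fun _ : Unit => V) := by
    rw [← nc_single, ← sum_single]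
    exact mix_self (fun _ : Unit => V) fun _ : Fin n => ()
  rw [e]
  exact mul_nonneg (Nat.cast_nonneg _) (coeff_single_nonneg h.dg
    (Lg.mono (evP_pL _) fun d hd => by rw [hd]; exact Nat.cast_nonneg _) _)

/-- a homomorphism of degree `r ≠ 0` has a finite kernel with at most `r` points -/
theorem ker_le [Finite σ] [Finite τ] (h : AV p g) (hi : ∀ y y', Par (p y) (p y') → y = y')
    (hS : Src (fun _ : Unit => LS.co p h.ne) g) {G' : Type} [AddCommGroup G'] {q : G' → τ → Ω}
    (hq : ∀ y, q y ≠ 0) (hY : Src (fun _ : Unit => LS.co q hq) g)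
    (h0 : mix (fun _ : Unit => LS.co q hq) (fun _ : Fin g => LS.co q hq) ≠ 0) (f : G →+ G')
    (hf : Mor p q f) {r : ℚ} (hr0 : r ≠ 0)
    (hr : mix (fun _ : Unit => LS.co p h.ne) (fun _ : Fin g => (LS.co q hq).pb f) =
      r * mix (fun _ : Unit => LS.co q hq) fun _ : Fin g => LS.co q hq) :
    Finite f.ker ∧ (Nat.card f.ker : ℚ) ≤ r := by
  have hj := reg_of_mor h.ne hq hf
  have hd : Dense f fun _ : Unit => LS.co q hq := by
    by_contra hn
    obtain ⟨r', h1, h2⟩ := mix_mul hS hY f fun _ => hj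
    have := h2 (Fin g) (fun _ => LS.co q hq) (by simp) fun _ => Reg.self _ ()
    rw [hr, h1 hn, Nat.cast_zero, zero_mul] at this
    exact mul_ne_zero hr0 h0 this
  have key : ∀ K : Finset f.ker, (K.card : ℚ) ≤ r := fun K => by
    have := card_le_mix h.ne hq hS hY hj hd (fun (i : K) t => t - (i.1 : G)) 0
      (fun i => av_trans h _ 0) (fun i x => by rw [map_sub, i.1.2, sub_zero])
      fun i i' hp => Subtype.ext (Subtype.ext (sub_right_injective (hi _ _ hp)))
    rw [hr, Fintype.card_coe] at this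
    exact le_of_mul_le_mul_right this (lt_of_le_of_ne (mix_nonneg _ hY) h0.symm)
  have hfin : Finite f.ker := by
    by_contra hn
    have := not_finite_iff_infinite.1 hn
    obtain ⟨K, hK⟩ := Infinite.exists_subset_card_eq f.ker (⌈r⌉₊ + 1)
    have h1 := key K
    rw [hK, Nat.cast_add, Nat.cast_one] at h1
    linarith [Nat.le_ceil r]
  refine ⟨hfin, ?_⟩
  cases nonempty_fintype f.ker
  rw [Nat.card_eq_fintype_card]
  exact key Finset.univ

end Pool.Agent.Tav.Pp
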