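import Pool.Agent.P.MP_2ce3e7_ag.Tav.TiCntB
import Pool.Agent.P.MP_2ce3e7_ag.Tav.PUp
import Pool.Agent.P.MP_2ce3e7_ag.Tav.MAV
import Pool.Agent.P.MP_2ce3e7_ag.Tav.AFib

/-! Kernels of homomorphisms of invertible degree. -/

set_option autoImplicit false

noncomputable section

namespace Pool.Agent.Tav.Cnt

open MvPolynomial Module Set Function Pp

variable {Ω : Type} [Field Ω] {T Y σ τ : Type} [Fintype σ] [Fintype τ]

theorem not_dg {γ ν : Type} [Fintype γ] [Fintype ν] {C : γ → LS Ω Y} {n : ℕ} (hC : Src C n)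
    {W : ν → LS Ω Y} (hn : n ≤ Fintype.card ν) (hW : ∀ k, Reg C (W k)) (h0 : mix C W ≠ 0) :
    ¬ Dg (pL C) (n - 1) := fun h => by
  rcases n with _ | n
  · obtain ⟨N, hN⟩ := evP_pL C
    have h3 := hN (fun _ => N) fun _ => le_rfl
    rw [h.eq_zero (by omega), map_zero] at h3
    obtain ⟨u, hu, h4⟩ := pc_nv C (fun _ => N) hC.ne.some
    rw [Submodule.finrank_eq_zero.1 (Nat.cast_eq_zero.1 h3.symm), Submodule.mem_bot] at hu
    exact h4 (congrFun hu _)
  · exact h0 (mix_zero (n := n) ⟨hC.ne, hC.dom, by simpa using h⟩ hW hn)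

/-- the general fibre of a regular map of degree `r ≠ 0` -/
theorem gen_fibre [IsAlgClosed Ω] {p : T → σ → Ω} (hp : ∀ t, p t ≠ 0) {q : Y → τ → Ω}
    (hq : ∀ y, q y ≠ 0) (cl : ∀ z ∈ zeroLocus Ω (idl p), z ≠ 0 → ∃ t, Par z (p t)) {n : ℕ}
    (hS : Src (fun _ : Unit => LS.co p hp) n) (hY : Src (fun _ : Unit => LS.co q hq) n)
    (h0 : mix (fun _ : Unit => LS.co q hq) (fun _ : Fin n => LS.co q hq) ≠ 0) {j : T → Y}
    (hj : Reg (fun _ : Unit => LS.co p hp) ((LS.co q hq).pb j)) {r : ℚ} (hr0 : r ≠ 0)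
    (hr : mix (fun _ : Unit => LS.co p hp) (fun _ : Fin n => (LS.co q hq).pb j) =
      r * mix (fun _ : Unit => LS.co q hq) fun _ : Fin n => LS.co q hq) :
    ∃ k : ℕ, (k : ℚ) = r ∧ ∃ e : ℕ, ∃ F ∈ crd q ^ e, F ≠ 0 ∧ ∀ y, F y ≠ 0 →
      (∃ t, Par (q y) (q (j t))) ∧
        ((k : Ω) ≠ 0 → (k : ℕ∞) ≤ {t | Par (q y) (q (j t))}.encard) := by
  obtain ⟨k, h1, h2, h3⟩ := mix_mul' hS hY j fun _ => hj
  have h4 := h3 (Fin n) (fun _ => LS.co q hq) (by simp) fun _ => Reg.self _ ()
  have hk : (k : ℚ) = r := mul_right_cancel₀ h0 (h4.symm.trans hr)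
  have hd : Dense j fun _ : Unit => LS.co q hq := by
    by_contra hn
    exact hr0 (by rw [← hk, h1 hn, Nat.cast_zero])
  obtain ⟨-, N, hN⟩ := h2 hd (not_dg hY (by simp) (fun _ => Reg.self _ ()) h0)
  have := hS.ne
  have hW : ((LS.co q hq).pb j).sp = crd fun t => q (j t) := by rw [LS.pb_co]; rfl
  refine ⟨k, hk, gen_core hp hq cl j (fun t => ?_) (fun a b a' b' f hf g hg => ?_)
    (fun e f hf h => hd (fun _ => e) f (by rwa [pc_unit]) (funext h)) (N := N) fun m hm => ?_⟩
  · obtain ⟨e, c, hc, h⟩ := hj t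
    refine ⟨e (), c, hc, fun k => ?_⟩
    have := h _ (hW ▸ Fib.mem_crd (fun t => q (j t)) k)
    rwa [pc_unit] at this
  · have e : ∀ a b : ℕ, pc (Sum.elim (fun _ : Unit => LS.co p hp)
        fun _ : Unit => (LS.co q hq).pb j) (Sum.elim (fun _ => a) fun _ => b) =
          crd p ^ a * crd (fun t => q (j t)) ^ b := fun a b => by
      rw [pc, Fintype.prod_sum_type, Fintype.prod_unique, Fintype.prod_unique, ← hW]
      rfl
    exact hS.dom.ext (fun _ => hj) _ _ f (e a b ▸ hf) g (e a' b' ▸ hg)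
  · obtain ⟨u, u1, u2, u3⟩ := hN (fun _ => m) fun _ => hm
    rw [pc_unit] at u1 u3
    refine ⟨u, u1, fun a g hg => u2 (fun _ => a) g fun i => by rw [pc_unit, hW]; exact hg i,
      fun x hx => ?_⟩
    obtain ⟨e, f, f1, f2⟩ := u3 x hx
    rw [pc_unit, hW] at f1 f2
    exact ⟨e (), f, f1, f2⟩

variable {G G' : Type} [AddCommGroup G] [AddCommGroup G'] {p : G → σ → Ω} {q : G' → τ → Ω} {g : ℕ}

theorem regM_sub (h : AV p g) {β : Type} [Fintype β] {B : β → LS Ω T} {u v : T → G}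
    (hu : RegM B (fun _ : Unit => LS.co p h.ne) u) (hv : RegM B (fun _ : Unit => LS.co p h.ne) v) :
    RegM B (fun _ : Unit => LS.co p h.ne) (u - v) :=
  (hu.pair hv).comp (i := fun t : G × G => t.1 - t.2) fun _ => h.sub'

theorem regM_add (h : AV p g) {β : Type} [Fintype β] {B : β → LS Ω T} {u v : T → G}
    (hu : RegM B (fun _ : Unit => LS.co p h.ne) u) (hv : RegM B (fun _ : Unit => LS.co p h.ne) v) :
    RegM B (fun _ : Unit => LS.co p h.ne) (u + v) := by
  have := regM_sub h hu (regM_sub h (regM_const B _ 0) hv)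
  rwa [show u - ((fun _ => 0) - v) = u + v from funext fun t => by simp] at this

theorem regM_nsmul (h : AV p g) {β : Type} [Fintype β] {B : β → LS Ω T} {u : T → G}
    (hu : RegM B (fun _ : Unit => LS.co p h.ne) u) (n : ℕ) :
    RegM B (fun _ : Unit => LS.co p h.ne) (n • u) := by
  induction n with
  | zero => rw [zero_smul]; exact regM_const B _ 0
  | succ n ih => rw [succ_nsmul]; exact regM_add h ih hu

/-- a subgroup that contains the points where a form is not zero is everything -/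
theorem top_of_form (h : AV p g) (S : AddSubgroup G) {e : ℕ} {F : G → Ω} (hF : F ∈ crd p ^ e)
    (h0 : F ≠ 0) (hS : ∀ y, F y ≠ 0 → y ∈ S) : S = ⊤ := by
  refine eq_top_iff.2 fun y _ => ?_
  have h1 := h.src.dom.ext (W := fun _ : Unit => (LS.co p h.ne).pb fun t => t - y)
    (regM_sub h (RegM.id _) (regM_const _ _ y))
  have e1 : ∀ a b : ℕ, pc (Sum.elim (fun _ : Unit => LS.co p h.ne)
      fun _ : Unit => (LS.co p h.ne).pb fun t => t - y) (Sum.elim (fun _ => a) fun _ => b) =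
        crd p ^ a * (crd p ^ b).map (pbA Ω fun t => t - y).toLinearMap := fun a b => by
    rw [pc, Fintype.prod_sum_type, Fintype.prod_unique, Fintype.prod_unique, Submodule.map_pow]
    rfl
  have h2 : F * pbA Ω (fun t => t - y) F ≠ 0 := fun h3 => by
    rcases h1 _ _ F (by
        rw [e1 e 0, ← mul_one F]
        exact Submodule.mul_mem_mul hF ⟨1, by simp, rfl⟩) _ (by
        rw [e1 0 e, pow_zero, one_mul]; exact ⟨F, hF, rfl⟩) h3 with e | e
    · exact h0 e
    · exact h0 (funext fun t => by simpa using congrFun e (t + y))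
  obtain ⟨t, ht⟩ := ne_iff.1 h2
  obtain ⟨h3, h4⟩ := mul_ne_zero_iff.1 ht
  simpa using S.sub_mem (hS _ h3) (hS _ h4)

/-- CNT: a homomorphism of degree `r ≠ 0` is onto, and has `r` points in the kernel if `r` is
invertible in the field -/
theorem cnt [IsAlgClosed Ω] (h : AV p g) (hi : ∀ y y', Par (p y) (p y') → y = y') (h' : AV q g)
    (hi' : ∀ y y', Par (q y) (q y') → y = y') (f : G →+ G') (hm : Mor p q f) {r : ℕ} (hr0 : r ≠ 0)
    (hr : mix (fun _ : Unit => LS.co p h.ne) (fun _ : Fin g => (LS.co q h'.ne).pb f) =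
      r * mix (fun _ : Unit => LS.co q h'.ne) fun _ : Fin g => LS.co q h'.ne) :
    Surjective f ∧ Finite f.ker ∧ Nat.card f.ker ≤ r ∧ ((r : Ω) ≠ 0 → Nat.card f.ker = r) := by
  have h0 : (r : ℚ) ≠ 0 := Nat.cast_ne_zero.2 hr0
  obtain ⟨k, hk, e, F, F1, F0, hF⟩ := gen_fibre h.ne h'.ne h.cl h.src h'.src h'.top
    (hm.reg h.ne h'.ne) h0 hr
  obtain rfl : k = r := Nat.cast_injective hk
  obtain ⟨h1, h2⟩ := ker_le h hi h.src h'.ne h'.src h'.top f hm h0 hr
  have h3 : Nat.card f.ker ≤ k := Nat.cast_le.1 h2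
  refine ⟨AddMonoidHom.range_eq_top.1 (top_of_form h' _ F1 F0 fun y hy => ?_), h1, h3,
    fun hk => le_antisymm h3 ?_⟩
  · obtain ⟨t, ht⟩ := (hF y hy).1
    exact ⟨t, (hi' _ _ ht).symm⟩
  · obtain ⟨y, hy⟩ := ne_iff.1 F0
    obtain ⟨⟨t, ht⟩, h4⟩ := hF y hy
    have h5 := (h4 hk).trans (encard_le_encard_of_injOn (f := fun s => s - t)
      (t := (f.ker : Set G)) (fun s hs => by
        change f (s - t) = 0
        rw [map_sub, ← hi' _ _ hs, ← hi' _ _ ht, sub_self]) sub_left_injective.injOn)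
    rw [← (toFinite (f.ker : Set G)).cast_ncard_eq, Nat.cast_le] at h5
    exact h5

/-- one slot is multiplied by the square -/
theorem mix_nsmul_one (h : AV p g) (hl : ParL (LS.co p h.ne)) {β ν : Type} [Fintype β] [Fintype ν]
    [DecidableEq ν] {B : β → LS Ω T} {m : ℕ} (hB : Src B m) {W : ν → LS Ω T}
    (hW : ∀ k, Reg B (W k)) (hm : m ≤ Fintype.card ν) (k : ν) {u : T → G}
    (hu : RegM B (fun _ : Unit => LS.co p h.ne) u) (n : ℕ) :
    mix B (update W k ((LS.co p h.ne).pb (n • u))) =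
      n ^ 2 * mix B (update W k ((LS.co p h.ne).pb u)) := by
  induction n using Nat.twoStepInduction with
  | zero =>
    have e : (LS.co p h.ne).pb ((0 : ℕ) • u) = LS.one Ω T := LS.ext' (le_antisymm (by
        rintro _ ⟨w, -, rfl⟩
        exact Submodule.mem_one.2 ⟨w 0, funext fun t => by simp⟩) (Submodule.one_le.2 (by
        obtain ⟨w, h1, h2⟩ := (LS.co p h.ne).nv 0
        exact ⟨(w 0)⁻¹ • w, Submodule.smul_mem _ _ h1, funext fun t => by simp [h2]⟩)))
    rw [e, mix_one hB hW hm]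
    simp
  | one => simp
  | more n h1 h2 =>
    have := hl.mix hB hW hm k (regM_nsmul h hu (n + 1) ()) (hu ())
      (regM_add h (regM_nsmul h hu (n + 1)) hu ()) (regM_sub h (regM_nsmul h hu (n + 1)) hu ())
    rw [← succ_nsmul, show (n + 1) • u - u = n • u from by rw [succ_nsmul, add_sub_cancel_right],
      h1, h2] at this
    push_cast at this ⊢
    linear_combination this

/-- all slots -/
theorem mix_nsmul (h : AV p g) (hl : ParL (LS.co p h.ne)) {β ν : Type} [Fintype β] [Fintype ν]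
    {B : β → LS Ω T} {m : ℕ} (hB : Src B m) (hm : m ≤ Fintype.card ν) {u : ν → T → G}
    (hu : ∀ k, RegM B (fun _ : Unit => LS.co p h.ne) (u k)) (n : ℕ) :
    mix B (fun k => (LS.co p h.ne).pb (n • u k)) =
      n ^ (2 * Fintype.card ν) * mix B fun k => (LS.co p h.ne).pb (u k) := by
  classical
  have key : ∀ s : Finset ν, mix B (fun k => (LS.co p h.ne).pb (if k ∈ s then n • u k else u k)) =
      n ^ (2 * s.card) * mix B fun k => (LS.co p h.ne).pb (u k) := by
    intro s
    induction s using Finset.induction_on with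
    | empty => simp
    | insert i s hi ih =>
      have e : (fun k => (LS.co p h.ne).pb (if k ∈ insert i s then n • u k else u k)) =
          update (fun k => (LS.co p h.ne).pb (if k ∈ s then n • u k else u k)) i
            ((LS.co p h.ne).pb (n • u i)) := by
        funext k
        by_cases hk : k = i
        · subst hk; simp
        · simp [hk]
      rw [e, mix_nsmul_one h hl hB (fun k => ?_) hm i (hu i), update_eq_self_iff.2 (by simp [hi]),
        ih, Finset.card_insert_of_notMem hi]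
      · ring
      · split_ifs
        · exact regM_nsmul h (hu k) n ()
        · exact hu k ()
  simpa using key Finset.univ

theorem mor_nsmul (h : AV p g) (n : ℕ) : Mor p p fun x => n • x := by
  have h0 := regM_nsmul h (RegM.id _) n ()
  rw [LS.pb_co] at h0
  have h1 := Rg.reg.2 (Reg.trans (B := fun _ : Fin 1 => LS.co p h.ne)
    (fun _ => Reg.self (fun _ : Fin 1 => LS.co p h.ne) 0) h0)
  have e : (fun _ : Fin 1 => (LS.co p h.ne).sp) = ![crd p] :=
    funext fun i => by rw [Subsingleton.elim i 0]; rfl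
  rw [e] at h1
  exact h1

/-- multiplication by `n ≠ 0` is onto with finite kernel, of order `n ^ (2 g)` if `n` is
invertible in the field -/
theorem cnt_nsmul [IsAlgClosed Ω] (h : AV p g) (hi : ∀ y y', Par (p y) (p y') → y = y')
    (hl : ParL (LS.co p h.ne)) {n : ℕ} (hn : n ≠ 0) :
    (∀ y : G, ∃ x, n • x = y) ∧ Finite {x : G // n • x = 0} ∧
      Nat.card {x : G // n • x = 0} ≤ n ^ (2 * g) ∧
      ((n : Ω) ≠ 0 → Nat.card {x : G // n • x = 0} = n ^ (2 * g)) := by
  have h1 := mix_nsmul h hl h.src (ν := Fin g) (by simp) (u := fun _ => id) (fun _ => RegM.id _) n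
  simp only [LS.pb_id, Fintype.card_fin] at h1
  obtain ⟨h2, h3, h4, h5⟩ := cnt h hi h hi (nsmulAddMonoidHom n) (mor_nsmul h n)
    (pow_ne_zero (2 * g) hn) (by rw [Nat.cast_pow]; exact h1)
  exact ⟨h2, h3, h4, fun h0 => h5 (by rw [Nat.cast_pow]; exact pow_ne_zero _ h0)⟩

/-- the same, from the law in the shape of `Model.law_sp` -/
theorem cnt_law [IsAlgClosed Ω] (h : AV p g) (hi : ∀ y y', Par (p y) (p y') → y = y')
    (law : ∃ c : G × G → Ω, (∀ t, c t ≠ 0) ∧ ∀ i j,
      (c * fun t => p (t.1 + t.2) i * p (t.1 - t.2) j) ∈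
        (crd fun t : G × G => p t.1) ^ 2 * (crd fun t : G × G => p t.2) ^ 2) {n : ℕ} (hn : n ≠ 0) :
    (∀ y : G, ∃ x, n • x = y) ∧ Finite {x : G // n • x = 0} ∧
      Nat.card {x : G // n • x = 0} ≤ n ^ (2 * g) ∧
      ((n : Ω) ≠ 0 → Nat.card {x : G // n • x = 0} = n ^ (2 * g)) :=
  cnt_nsmul h hi (ParLaw.of_law h.ne h.cl' law).parL hn

end Pool.Agent.Tav.Cnt
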