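import Mathlib

/-! The rational Tate module of an abelian group, as a parametrisation of its torsion. -/

set_option autoImplicit false

noncomputable section

namespace Pool.Agent.Tav.Ti

open Function

variable {l : ℕ} [hl : Fact l.Prime]

theorem l_ne : (l : ℚ_[l]) ≠ 0 := Nat.cast_ne_zero.2 hl.out.ne_zero

theorem one_lt_l : (1 : ℝ) < l := by exact_mod_cast hl.out.one_lt

theorem norm_lpow (n : ℕ) : ‖(l : ℚ_[l]) ^ n‖ = ((l : ℝ) ^ n)⁻¹ := by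
  rw [norm_pow, Padic.norm_p, inv_pow]

theorem norm_lpow_inv (n : ℕ) : ‖((l : ℚ_[l]) ^ n)⁻¹‖ = (l : ℝ) ^ n := by
  rw [norm_inv, norm_lpow, inv_inv]

theorem lpow_pos (n : ℕ) : (0 : ℝ) < (l : ℝ) ^ n := pow_pos (lt_trans one_pos one_lt_l) n

theorem exists_small {E : Type} [NormedAddCommGroup E] [NormedSpace ℚ_[l] E] (v : E) :
    ∃ n : ℕ, ‖((l : ℚ_[l]) ^ n) • v‖ ≤ 1 := by
  obtain ⟨n, hn⟩ := pow_unbounded_of_one_lt ‖v‖ (one_lt_l (l := l))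
  refine ⟨n, ?_⟩
  rw [norm_smul, norm_lpow, inv_mul_le_iff₀ (lpow_pos n), mul_one]
  exact hn.le

theorem eq_zero_of_bdd {E : Type} [NormedAddCommGroup E] [NormedSpace ℚ_[l] E] {v : E}
    (h : ∀ n : ℕ, ‖((l : ℚ_[l]) ^ n)⁻¹ • v‖ ≤ 1) : v = 0 := by
  by_contra hv
  have h0 : 0 < ‖v‖ := norm_pos_iff.2 hv
  obtain ⟨n, hn⟩ := pow_unbounded_of_one_lt ‖v‖⁻¹ (one_lt_l (l := l))
  have := h n
  rw [norm_smul, norm_lpow_inv] at this
  have h2 := mul_lt_mul_of_pos_right hn h0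
  rw [inv_mul_cancel₀ h0.ne'] at h2
  linarith

theorem apx_at {c : ℚ_[l]} {n : ℕ} (h : ‖(l : ℚ_[l]) ^ n * c‖ ≤ 1) :
    ∃ a : ℤ, ‖c - a * ((l : ℚ_[l]) ^ n)⁻¹‖ ≤ 1 := by
  let z : ℤ_[l] := ⟨_, h⟩
  have h1 := (PadicInt.norm_le_pow_iff_mem_span_pow _ n).2 (PadicInt.appr_spec n z)
  refine ⟨(PadicInt.appr z n : ℕ), ?_⟩
  have h2 : c - ((PadicInt.appr z n : ℕ) : ℤ) * ((l : ℚ_[l]) ^ n)⁻¹ =
      ((l : ℚ_[l]) ^ n)⁻¹ * ((z - (PadicInt.appr z n : ℕ) : ℤ_[l]) : ℚ_[l]) := by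
    have : (l : ℚ_[l]) ^ n ≠ 0 := pow_ne_zero _ l_ne
    push_cast
    change _ = _ * ((l : ℚ_[l]) ^ n * c - _)
    field_simp
  rw [h2, norm_mul, norm_lpow_inv, PadicInt.padic_norm_e_of_padicInt]
  rw [zpow_neg, zpow_natCast] at h1
  calc _ ≤ (l : ℝ) ^ n * ((l : ℝ) ^ n)⁻¹ := mul_le_mul_of_nonneg_left h1 (lpow_pos n).le
    _ = 1 := mul_inv_cancel₀ (lpow_pos n).ne'

theorem apx (c : ℚ_[l]) : ∃ (n : ℕ) (a : ℤ), ‖c - a * ((l : ℚ_[l]) ^ n)⁻¹‖ ≤ 1 := by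
  obtain ⟨n, hn⟩ := exists_small (l := l) c
  exact ⟨n, apx_at hn⟩

theorem dvd_of_norm {a : ℤ} {n : ℕ} (h : ‖(a : ℚ_[l]) * ((l : ℚ_[l]) ^ n)⁻¹‖ ≤ 1) :
    (l : ℤ) ^ n ∣ a := by
  rw [← Padic.norm_int_le_pow_iff_dvd, zpow_neg, zpow_natCast]
  rw [norm_mul, norm_lpow_inv] at h
  rw [← one_div, le_div_iff₀ (lpow_pos n)]
  exact h

theorem norm_sub_le_one {E : Type} [NormedAddCommGroup E] [IsUltrametricDist E] {a b : E} {r : ℝ}
    (ha : ‖a‖ ≤ r) (hb : ‖b‖ ≤ r) : ‖a - b‖ ≤ r := by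
  rw [sub_eq_add_neg]
  exact (IsUltrametricDist.norm_add_le_max _ _).trans (max_le ha (by rwa [norm_neg]))

theorem norm_add_le_one {E : Type} [NormedAddCommGroup E] [IsUltrametricDist E] {a b : E} {r : ℝ}
    (ha : ‖a‖ ≤ r) (hb : ‖b‖ ≤ r) : ‖a + b‖ ≤ r :=
  (IsUltrametricDist.norm_add_le_max _ _).trans (max_le ha hb)

variable {G G₂ G₃ : Type} [AddCommGroup G] [AddCommGroup G₂] [AddCommGroup G₃]

omit hl in
theorem seq_up {x : ℕ → G} (hx : ∀ n, l • x (n + 1) = x n) (n k : ℕ) :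
    l ^ k • x (n + k) = x n := by
  induction k with
  | zero => simp
  | succ k ih => rw [pow_succ, mul_smul, ← add_assoc, hx, ih]

/-- a compatible sequence of division points gives a homomorphism -/
theorem exists_seqHom {x : ℕ → G} (h0 : x 0 = 0) (hx : ∀ n, l • x (n + 1) = x n) :
    ∃ φ : ℚ_[l] →+ G, (∀ c, ‖c‖ ≤ 1 → φ c = 0) ∧ ∀ n : ℕ, φ ((l : ℚ_[l]) ^ n)⁻¹ = x n := by
  have up : ∀ (c : ℚ_[l]) (n k : ℕ) (a : ℤ), ‖c - a * ((l : ℚ_[l]) ^ n)⁻¹‖ ≤ 1 →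
      ‖c - (a * l ^ k : ℤ) * ((l : ℚ_[l]) ^ (n + k))⁻¹‖ ≤ 1 ∧
        (a * l ^ k : ℤ) • x (n + k) = a • x n := by
    intro c n k a h
    constructor
    · have : ((a * l ^ k : ℤ) : ℚ_[l]) * ((l : ℚ_[l]) ^ (n + k))⁻¹ = a * ((l : ℚ_[l]) ^ n)⁻¹ := by
        have := l_ne (l := l)
        push_cast
        field_simp
        ring
      rwa [this]
    · rw [mul_smul, ← seq_up hx n k, ← natCast_zsmul, Nat.cast_pow]
  have same : ∀ (c : ℚ_[l]) (n : ℕ) (a b : ℤ), ‖c - a * ((l : ℚ_[l]) ^ n)⁻¹‖ ≤ 1 →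
      ‖c - b * ((l : ℚ_[l]) ^ n)⁻¹‖ ≤ 1 → a • x n = b • x n := by
    intro c n a b ha hb
    have h1 := norm_sub_le_one hb ha
    have h2 : c - b * ((l : ℚ_[l]) ^ n)⁻¹ - (c - a * ((l : ℚ_[l]) ^ n)⁻¹) =
        ((a - b : ℤ) : ℚ_[l]) * ((l : ℚ_[l]) ^ n)⁻¹ := by
      push_cast
      ring
    rw [h2] at h1
    obtain ⟨k, hk⟩ := dvd_of_norm h1
    have h3 := seq_up hx 0 n
    rw [zero_add, h0] at h3
    rw [← sub_eq_zero, ← sub_smul, hk, mul_comm, mul_smul, ← Nat.cast_pow, natCast_zsmul, h3,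
      smul_zero]
  have uniq : ∀ (c : ℚ_[l]) (n m : ℕ) (a b : ℤ), ‖c - a * ((l : ℚ_[l]) ^ n)⁻¹‖ ≤ 1 →
      ‖c - b * ((l : ℚ_[l]) ^ m)⁻¹‖ ≤ 1 → a • x n = b • x m := by
    intro c n m a b ha hb
    obtain ⟨h1, h2⟩ := up c n m a ha
    obtain ⟨h3, h4⟩ := up c m n b hb
    rw [add_comm m n] at h3 h4
    rw [← h2, ← h4]
    exact same c _ _ _ h1 h3
  choose N A hA using apx (l := l)
  refine ⟨AddMonoidHom.mk' (fun c => A c • x (N c)) ?_, ?_, ?_⟩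
  · intro c c'
    obtain ⟨h1, h2⟩ := up c _ (N c') _ (hA c)
    obtain ⟨h3, h4⟩ := up c' _ (N c) _ (hA c')
    rw [add_comm (N c') (N c)] at h3 h4
    rw [← h2, ← h4, ← add_smul]
    refine uniq (c + c') _ _ _ _ (hA _) ?_
    have h5 := norm_add_le_one h1 h3
    refine le_of_eq_of_le ?_ h5
    congr 1
    push_cast
    ring
  · intro c hc
    change A c • x (N c) = 0
    rw [uniq c _ 0 _ 0 (hA c) (by simpa using hc), zero_smul]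
  · intro n
    change A _ • x (N _) = x n
    rw [uniq _ _ n _ 1 (hA _) (by simp), one_smul]

/-- a parametrisation of the `l`-power torsion of `G` -/
structure TM (l : ℕ) [Fact l.Prime] (G : Type) [AddCommGroup G] (ι : Type) [Fintype ι] where
  κ : (ι → ℚ_[l]) →+ G
  ker : ∀ v, κ v = 0 ↔ ‖v‖ ≤ 1
  onto : ∀ (x : G) (n : ℕ), l ^ n • x = 0 → ∃ v, κ v = x

variable {ι ι₂ ι₃ : Type} [Fintype ι] [Fintype ι₂] [Fintype ι₃]

theorem add_lsmul {E : Type} [AddCommGroup E] [Module ℚ_[l] E] (φ : E →+ G) (n : ℕ) (v : E) :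
    φ (((l : ℚ_[l]) ^ n) • v) = l ^ n • φ v := by
  rw [← Nat.cast_pow, Nat.cast_smul_eq_nsmul, map_nsmul]

namespace TM

theorem tors (M : TM l G ι) (v : ι → ℚ_[l]) : ∃ n : ℕ, l ^ n • M.κ v = 0 := by
  obtain ⟨n, hn⟩ := exists_small (l := l) v
  exact ⟨n, by rw [← add_lsmul, M.ker]; exact hn⟩

theorem mem_range (M : TM l G ι) (x : G) : x ∈ M.κ.range ↔ ∃ n : ℕ, l ^ n • x = 0 :=
  ⟨by rintro ⟨v, rfl⟩; exact M.tors v, fun ⟨n, h⟩ => M.onto x n h⟩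

theorem eq_iff (M : TM l G ι) (v w : ι → ℚ_[l]) : M.κ v = M.κ w ↔ ‖v - w‖ ≤ 1 := by
  rw [← M.ker, map_sub, sub_eq_zero]

theorem pow_smul_eq_zero (M : TM l G ι) (v : ι → ℚ_[l]) (n : ℕ) :
    l ^ n • M.κ v = 0 ↔ ‖v‖ ≤ (l : ℝ) ^ n := by
  rw [← add_lsmul, M.ker, norm_smul, norm_lpow, inv_mul_le_iff₀ (lpow_pos n), mul_one]

/-- a linear map is determined by its composite with `κ` -/
theorem lin_ext (M : TM l G ι) {E : Type} [AddCommGroup E] [Module ℚ_[l] E]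
    {A B : E →ₗ[ℚ_[l]] (ι → ℚ_[l])} (h : ∀ v, M.κ (A v) = M.κ (B v)) : A = B := by
  ext1 v
  rw [← sub_eq_zero]
  refine eq_zero_of_bdd (l := l) fun n => ?_
  rw [smul_sub, ← map_smul, ← map_smul, ← M.eq_iff]
  exact h _

theorem exists_vec (M : TM l G ι) (φ : ℚ_[l] →+ G) (h0 : ∀ c, ‖c‖ ≤ 1 → φ c = 0) :
    ∃ w : ι → ℚ_[l], ∀ c, M.κ (c • w) = φ c := by
  have hl0 := l_ne (l := l)
  let S : ℕ → Set (ι → ℚ_[l]) := fun n =>
    {w | M.κ (((l : ℚ_[l]) ^ n)⁻¹ • w) = φ ((l : ℚ_[l]) ^ n)⁻¹}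
  have hball : ∀ n, ∃ w, S n = Metric.closedBall w ((l : ℝ) ^ n)⁻¹ := by
    intro n
    obtain ⟨y, hy⟩ := M.onto (φ ((l : ℚ_[l]) ^ n)⁻¹) n (by
      rw [← add_lsmul, smul_eq_mul, mul_inv_cancel₀ (pow_ne_zero _ hl0)]
      exact h0 _ (by simp))
    refine ⟨((l : ℚ_[l]) ^ n) • y, Set.ext fun w => ?_⟩
    change M.κ _ = _ ↔ _
    rw [← hy, M.eq_iff, mem_closedBall_iff_norm]
    have : ((l : ℚ_[l]) ^ n)⁻¹ • w - y = ((l : ℚ_[l]) ^ n)⁻¹ • (w - ((l : ℚ_[l]) ^ n) • y) := by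
      rw [smul_sub, smul_smul, inv_mul_cancel₀ (pow_ne_zero _ hl0), one_smul]
    rw [this, norm_smul, norm_lpow_inv, ← le_div_iff₀' (lpow_pos n), one_div]
  have hdec : ∀ n, S (n + 1) ⊆ S n := by
    intro n w hw
    have h1 : M.κ _ = _ := hw
    have h2 := congrArg (fun x => l ^ 1 • x) h1
    simp only [← add_lsmul] at h2
    have h3 : (l : ℚ_[l]) ^ 1 * ((l : ℚ_[l]) ^ (n + 1))⁻¹ = ((l : ℚ_[l]) ^ n)⁻¹ := by
      field_simp
      ring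
    rw [smul_smul, smul_eq_mul, h3] at h2
    exact h2
  obtain ⟨w, hw⟩ := IsCompact.nonempty_iInter_of_sequence_nonempty_isCompact_isClosed S hdec
    (fun n => by
      obtain ⟨w, h⟩ := hball n
      rw [h]
      exact Metric.nonempty_closedBall.2 (inv_pos.2 (lpow_pos n)).le)
    (by obtain ⟨w, h⟩ := hball 0; rw [h]; exact isCompact_closedBall _ _)
    (fun n => by obtain ⟨w, h⟩ := hball n; rw [h]; exact Metric.isClosed_closedBall)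
  have hw' : ∀ n, M.κ (((l : ℚ_[l]) ^ n)⁻¹ • w) = φ ((l : ℚ_[l]) ^ n)⁻¹ :=
    fun n => Set.mem_iInter.1 hw n
  have hw0 : ‖w‖ ≤ 1 := by
    have := hw' 0
    rw [pow_zero, inv_one, one_smul, h0 1 (by simp)] at this
    exact (M.ker w).1 this
  refine ⟨w, fun c => ?_⟩
  obtain ⟨n, a, ha⟩ := apx c
  have hc : c = (c - a * ((l : ℚ_[l]) ^ n)⁻¹) + a • ((l : ℚ_[l]) ^ n)⁻¹ := by
    rw [zsmul_eq_mul]
    ring
  rw [hc, add_smul, map_add, map_add, h0 _ ha, smul_assoc, map_zsmul, map_zsmul, hw',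
    (M.ker _).2]
  rw [norm_smul]
  exact mul_le_one₀ ha (norm_nonneg _) hw0

theorem exists_lift [DecidableEq ι] (N : TM l G₂ ι₂) (φ : (ι → ℚ_[l]) →+ G₂)
    (h0 : ∀ v, ‖v‖ ≤ 1 → φ v = 0) :
    ∃ A : (ι → ℚ_[l]) →ₗ[ℚ_[l]] (ι₂ → ℚ_[l]), ∀ v, N.κ (A v) = φ v := by
  have : ∀ i : ι, ∃ w : ι₂ → ℚ_[l], ∀ c, N.κ (c • w) = φ (Pi.single i c) := fun i =>
    N.exists_vec (φ.comp (AddMonoidHom.single (fun _ : ι => ℚ_[l]) i)) fun c hc =>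
      h0 _ (by
        change ‖(Pi.single i c : ι → ℚ_[l])‖ ≤ 1
        rwa [Pi.norm_single])
  choose w hw using this
  refine ⟨Fintype.linearCombination ℚ_[l] w, fun v => ?_⟩
  rw [Fintype.linearCombination_apply, map_sum]
  simp only [hw]
  rw [← map_sum, Finset.univ_sum_single]

theorem exists_V (M : TM l G ι) (N : TM l G₂ ι₂) (f : G →+ G₂) :
    ∃ A : (ι → ℚ_[l]) →ₗ[ℚ_[l]] (ι₂ → ℚ_[l]), ∀ v, N.κ (A v) = f (M.κ v) := by
  classical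
  exact exists_lift N (f.comp M.κ) fun v hv => by
    rw [AddMonoidHom.comp_apply, (M.ker v).2 hv, map_zero]

/-- the linear map induced by a homomorphism -/
def V (M : TM l G ι) (N : TM l G₂ ι₂) (f : G →+ G₂) : (ι → ℚ_[l]) →ₗ[ℚ_[l]] (ι₂ → ℚ_[l]) :=
  (exists_V M N f).choose

variable (M : TM l G ι) (N : TM l G₂ ι₂) (P : TM l G₃ ι₃)

theorem κ_V (f : G →+ G₂) (v : ι → ℚ_[l]) : N.κ (M.V N f v) = f (M.κ v) :=
  (exists_V M N f).choose_spec v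

theorem V_eq {f : G →+ G₂} {A : (ι → ℚ_[l]) →ₗ[ℚ_[l]] (ι₂ → ℚ_[l])}
    (h : ∀ v, N.κ (A v) = f (M.κ v)) : M.V N f = A :=
  N.lin_ext fun v => by rw [κ_V, h]

theorem V_id : M.V M (AddMonoidHom.id G) = LinearMap.id := V_eq _ _ fun _ => rfl

theorem V_zero : M.V N 0 = 0 := V_eq _ _ fun _ => by simp

theorem V_add (f g : G →+ G₂) : M.V N (f + g) = M.V N f + M.V N g :=
  V_eq _ _ fun v => by simp [κ_V]

theorem V_comp (g : G₂ →+ G₃) (f : G →+ G₂) : M.V P (g.comp f) = N.V P g ∘ₗ M.V N f :=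
  V_eq _ _ fun v => by simp [κ_V]

/-- `V` as an additive map -/
def VA : (G →+ G₂) →+ ((ι → ℚ_[l]) →ₗ[ℚ_[l]] (ι₂ → ℚ_[l])) :=
  AddMonoidHom.mk' (M.V N) (V_add M N)

theorem V_neg (f : G →+ G₂) : M.V N (-f) = -M.V N f := map_neg (M.VA N) f

theorem V_sub (f g : G →+ G₂) : M.V N (f - g) = M.V N f - M.V N g := map_sub (M.VA N) f g

theorem V_zsmul (a : ℤ) (f : G →+ G₂) : M.V N (a • f) = a • M.V N f := map_zsmul (M.VA N) a f

theorem V_nsmul (a : ℕ) (f : G →+ G₂) : M.V N (a • f) = a • M.V N f := map_nsmul (M.VA N) a f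

/-- `V` as a ring homomorphism -/
def VR : AddMonoid.End G →+* Module.End ℚ_[l] (ι → ℚ_[l]) where
  toFun f := M.V M f
  map_one' := V_id M
  map_mul' f g := V_comp M M M f g
  map_zero' := V_zero M M
  map_add' := V_add M M

theorem VR_apply (f : AddMonoid.End G) : M.VR f = M.V M f := rfl

theorem κ_VR (f : AddMonoid.End G) (v : ι → ℚ_[l]) : M.κ (M.VR f v) = f (M.κ v) := κ_V M M f v

theorem V_int (f : G →+ G₂) {v : ι → ℚ_[l]} (hv : ‖v‖ ≤ 1) : ‖M.V N f v‖ ≤ 1 := by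
  rw [← N.ker, κ_V, (M.ker v).2 hv, map_zero]

theorem V_eq_zero (f : G →+ G₂) :
    M.V N f = 0 ↔ ∀ (x : G) (n : ℕ), l ^ n • x = 0 → f x = 0 := by
  constructor
  · intro h x n hx
    obtain ⟨v, rfl⟩ := M.onto x n hx
    rw [← κ_V M N, h, LinearMap.zero_apply, map_zero]
  · intro h
    refine V_eq _ _ fun v => ?_
    obtain ⟨n, hn⟩ := M.tors v
    rw [h _ n hn, LinearMap.zero_apply, map_zero]

/-- `f` kills the `l ^ n`-torsion iff its lift is divisible by `l ^ n` -/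
theorem kills_iff (f : G →+ G₂) (n : ℕ) : (∀ x : G, l ^ n • x = 0 → f x = 0) ↔
    ∀ v, ‖v‖ ≤ 1 → ‖M.V N f v‖ ≤ ((l : ℝ) ^ n)⁻¹ := by
  have hl0 : (l : ℚ_[l]) ^ n ≠ 0 := pow_ne_zero _ l_ne
  have key : ∀ v : ι → ℚ_[l], f (M.κ (((l : ℚ_[l]) ^ n)⁻¹ • v)) = 0 ↔
      ‖M.V N f v‖ ≤ ((l : ℝ) ^ n)⁻¹ := by
    intro v
    rw [← κ_V M N, N.ker, map_smul, norm_smul, norm_lpow_inv, ← le_div_iff₀' (lpow_pos n), one_div]
  constructor
  · intro h v hv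
    refine (key v).1 (h _ ?_)
    rw [← add_lsmul, smul_smul, mul_inv_cancel₀ hl0, one_smul, M.ker]
    exact hv
  · intro h x hx
    obtain ⟨v, rfl⟩ := M.onto x n hx
    rw [← add_lsmul, M.ker] at hx
    have := (key _).2 (h _ hx)
    rwa [smul_smul, inv_mul_cancel₀ hl0, one_smul] at this

end TM

end Pool.Agent.Tav.Ti
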