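import Pool.Agent.P.MP_2ce3e7_ag.Tav.TiEig
import Pool.Agent.P.MP_2ce3e7_ag.Tav.TiTMod

/-! Integer polynomials of the members of the ring of a fibre, and their action on the Tate
module. -/

set_option autoImplicit false

noncomputable section

namespace Pool.Agent.Tav.Eg

open Module Function Polynomial

section Alg

variable {Λ Γ : Type} [CommRing Λ] [Fintype Γ]

/-- the characteristic polynomial has integer coefficients -/
theorem exists_poly (b : Basis Γ ℤ Λ) {χ : Γ → Λ →+* ℂ} (hχ : Injective χ) (a : Λ) :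
    ∃ P : ℤ[X], P.Monic ∧ P.map (Int.castRingHom ℂ) = ∏ ρ, (X - C (χ ρ a)) := by
  classical
  refine ⟨(Algebra.leftMulMatrix b a).charpoly, Matrix.charpoly_monic _, ?_⟩
  rw [← Matrix.charpoly_map, ← charpoly_mat b hχ
    ((Int.castRingHom ℂ).mapMatrix.comp (Algebra.leftMulMatrix b).toRingHom) ?_ rfl a]
  · rfl
  rw [Fintype.linearIndependent_iff]
  intro c hc k
  have h1 : ∀ i, ((Algebra.leftMulMatrix b (b i)).map (Int.castRingHom ℂ)).mulVec
      (fun m => (b.repr 1 m : ℂ)) k = if i = k then 1 else 0 := fun i => by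
    have h2 := congrFun (Algebra.leftMulMatrix_mulVec_repr b (b i) 1) k
    rw [mul_one, Basis.repr_self, Finsupp.single_apply] at h2
    have h3 := congrArg (Int.cast (R := ℂ)) h2
    simpa [Matrix.mulVec, dotProduct] using h3
  have h4 := congrFun (congrArg (fun M : Matrix Γ Γ ℂ => M.mulVec fun m => (b.repr 1 m : ℂ)) hc) k
  simp only [Matrix.sum_mulVec, Matrix.smul_mulVec, Matrix.zero_mulVec, Finset.sum_apply,
    Pi.smul_apply, Pi.zero_apply] at h4
  have h5 : ∑ i, c i • (if i = k then (1 : ℂ) else 0) = 0 :=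
    (Finset.sum_congr rfl fun i _ => by rw [← h1 i]; rfl).trans h4
  simpa using h5

/-- a separable integer polynomial kills `a` -/
theorem exists_sep (b : Basis Γ ℤ Λ) {χ : Γ → Λ →+* ℂ} (hχ : Injective χ) (a : Λ) :
    ∃ P : ℤ[X], (P.map (Int.castRingHom ℚ)).Separable ∧ aeval a P = 0 := by
  classical
  obtain ⟨P, hP, hP'⟩ := exists_poly b hχ a
  have h0 : P.map (Int.castRingHom ℚ) ≠ 0 := (hP.map _).ne_zero
  set R := UniqueFactorizationMonoid.radical (P.map (Int.castRingHom ℚ)) with hR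
  have hs : R.Separable :=
    PerfectField.separable_iff_squarefree.2 UniqueFactorizationMonoid.squarefree_radical
  obtain ⟨n, hn⟩ := UniqueFactorizationMonoid.exists_dvd_radical_self_pow h0
  have hroot : ∀ ρ, aeval (χ ρ a) R = 0 := fun ρ => by
    have h1 : aeval (χ ρ a) (P.map (Int.castRingHom ℚ)) = 0 := by
      rw [aeval_def, eval₂_map, eval₂_eq_eval_map,
        RingHom.ext_int ((algebraMap ℚ ℂ).comp _) (Int.castRingHom ℂ), hP', eval_prod]
      exact Finset.prod_eq_zero (Finset.mem_univ ρ) (by simp)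
    have h2 := aeval_eq_zero_of_dvd_aeval_eq_zero hn h1
    rw [map_pow] at h2
    exact (pow_eq_zero_iff'.1 h2).1
  obtain ⟨c, hc, hcR⟩ := IsLocalization.integerNormalization_spec (nonZeroDivisors ℤ) R
  refine ⟨IsLocalization.integerNormalization (nonZeroDivisors ℤ) R, ?_, ?_⟩
  · have h1 : (c : ℚ) ≠ 0 := by exact_mod_cast nonZeroDivisors.ne_zero hc
    rw [show Int.castRingHom ℚ = algebraMap ℤ ℚ from rfl, hcR, ← Int.cast_smul_eq_zsmul ℚ,
      ← C_mul']
    exact hs.unit_mul (isUnit_C.2 h1.isUnit)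
  · refine eq_zero_of_chi b hχ fun ρ => ?_
    rw [show χ ρ (aeval a _) = aeval (χ ρ a) _ from
      (aeval_algHom_apply (χ ρ).toIntAlgHom a _).symm]
    exact IsLocalization.integerNormalization_aeval_eq_zero _ R (hroot ρ)

end Alg

end Pool.Agent.Tav.Eg

namespace Pool.Agent.Tav

open Polynomial Ti

variable {Ω : Type} [Field Ω] {s s' : Sh} {l : ℕ} [Fact l.Prime]

/-- the action of the ring of a fibre by additive maps -/
def Fib.act (F : Fib Ω s) : s.Λ →+* AddMonoid.End F.G := Module.toAddMonoidEnd s.Λ F.G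

theorem Fib.act_apply (F : Fib Ω s) (a : s.Λ) (t : F.G) : F.act a t = a • t := rfl

/-- the lifts of the members of the basis are independent -/
def Fib.IndV (F : Fib Ω s) {ι : Type} [Fintype ι] (M : TM l F.G ι) : Prop :=
  LinearIndependent ℚ_[l] fun i => M.VR (F.act (s.bas i))

/-- from independence for any group of maps that contains the action -/
theorem Fib.indV (F : Fib Ω s) (hd : F.Deg) {ι : Type} [Fintype ι] (M : TM l F.G ι)
    (E : Subring (AddMonoid.End F.G)) (hE : ∀ a, F.act a ∈ E)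
    (h : ∀ α : s.Γ → E, LinearIndependent ℤ α →
      LinearIndependent ℚ_[l] fun i => M.VR (α i)) : F.IndV M :=
  h (fun i => (F.act.codRestrict E hE).toAddMonoidHom (s.bas i))
    (F.indep hd _ fun a ha t => by
      have : F.act a = 0 := congrArg Subtype.val ha
      rw [← F.act_apply, this]
      rfl)

theorem Fib.charpoly (F : Fib Ω s) {ι : Type} [Fintype ι] (M : TM l F.G ι) (h : F.IndV M)
    (hι : Fintype.card ι = Fintype.card s.Γ) (j : ℚ_[l] →+* ℂ) (a : s.Λ) :
    (M.VR (F.act a)).charpoly.map j = ∏ ρ, (X - C (s.χ ρ a)) := by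
  classical
  exact Eg.charpoly_map j s.bas s.inj (M.VR.comp F.act) h hι a

theorem Fib.sepV (F : Fib Ω s) {ι : Type} [Fintype ι] (M : TM l F.G ι) (a : s.Λ) :
    ∃ Q : ℚ_[l][X], Q.Separable ∧ aeval (M.VR (F.act a)) Q = 0 := by
  obtain ⟨P, hP, h⟩ := Eg.exists_sep s.bas s.inj a
  refine ⟨P.map (algebraMap ℤ ℚ_[l]), ?_, ?_⟩
  · have := hP.map (f := algebraMap ℚ ℚ_[l])
    rwa [Polynomial.map_map, RingHom.ext_int ((algebraMap ℚ ℚ_[l]).comp _) (algebraMap ℤ _)]
      at this
  · rw [aeval_map_algebraMap]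
    have := aeval_algHom_apply (M.VR.comp F.act).toIntAlgHom a P
    rw [h, map_zero] at this
    exact this

/-- equal eigenvalues give equal characteristic polynomials on the Tate modules -/
theorem Fib.charpoly_eq (F : Fib Ω s) (F' : Fib Ω s') {ι ι' : Type} [Fintype ι] [Fintype ι']
    (M : TM l F.G ι) (M' : TM l F'.G ι') (h : F.IndV M) (h' : F'.IndV M')
    (hι : Fintype.card ι = Fintype.card s.Γ) (hι' : Fintype.card ι' = Fintype.card s'.Γ)
    (j : ℚ_[l] →+* ℂ) (e : s.Γ ≃ s'.Γ) {a : s.Λ} {a' : s'.Λ}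
    (he : ∀ ρ, s'.χ (e ρ) a' = s.χ ρ a) :
    (M.VR (F.act a)).charpoly = (M'.VR (F'.act a')).charpoly := by
  refine Polynomial.map_injective j j.injective ?_
  rw [F.charpoly M h hι, F'.charpoly M' h' hι', ← e.prod_comp]
  simp only [he]

end Pool.Agent.Tav
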