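import Pool.Agent.P.MP_2ce3e7_ag.Tav.KCore

/-! The last step for an abstract fibre, and the point count through a power. -/

set_option autoImplicit false
set_option linter.unusedSectionVars false
set_option linter.unusedVariables false

noncomputable section

namespace Pool.Agent.Tav.K0

open MvPolynomial Module Function Det

section count

variable {G B Λ Λ' Γ Γ' : Type} [AddCommGroup G] [AddCommGroup B] [CommRing Λ] [CommRing Λ']
  [Module Λ G] [Module Λ' B] [Fintype Γ] [Fintype Γ']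

/-- multiplication by `a` -/
def sm (G : Type) [AddCommGroup G] [Module Λ G] (a : Λ) : G →+ G := DistribSMul.toAddMonoidHom G a

theorem sm_apply (a : Λ) (x : G) : sm G a x = a • x := rfl

theorem card_mul_le (a b : Λ) [Finite (sm G a).ker] :
    Nat.card (sm G (a * b)).ker ≤ Nat.card (sm G a).ker * Nat.card (sm G b).ker := by
  have h : (sm G (a * b)).ker = (sm G a).ker.comap (sm G b) := by
    ext x
    simp only [AddMonoidHom.mem_ker, AddSubgroup.mem_comap, sm_apply, mul_smul]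
  rw [h, Dec.card_comap, mul_comm]
  exact Nat.mul_le_mul_right _ (AddSubgroup.card_le_of_le (AddSubgroup.map_comap_le _ _))

theorem card_pi {ι : Type} [Fintype ι] (a : Λ) :
    Nat.card (sm (ι → G) a).ker = Nat.card (sm G a).ker ^ Fintype.card ι := by
  rw [← Nat.card_eq_fintype_card, ← Nat.card_fun]
  exact Nat.card_congr
    { toFun := fun y i => ⟨y.1 i, congrFun y.2 i⟩
      invFun := fun y => ⟨fun i => y i, _root_.funext fun i => (y i).2⟩
      left_inv := fun _ => rfl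
      right_inv := fun _ => rfl }

theorem iter_sm {f : G →+ B} {a : Λ} {a' : Λ'} (h : ∀ x, f (a • x) = a' • f x) (n : ℕ) :
    f.comp (sm G (1 - a ^ n)) = (sm B (1 - a' ^ n)).comp f := by
  have key : ∀ x, f (a ^ n • x) = a' ^ n • f x := by
    induction n with
    | zero => simp
    | succ n ih => intro x; rw [pow_succ', mul_smul, h, ih, pow_succ', mul_smul]
  ext x
  simp only [AddMonoidHom.comp_apply, sm_apply, sub_smul, one_smul, map_sub, key]

theorem nm_one_sub (χ : Γ → Λ →+* ℂ) (π : Λ) (n : ℕ) :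
    nm χ (1 - π ^ n) = ∏ ρ, (1 - χ ρ π ^ n) := by simp [nm]

/-- the number of fixed points, from an isogeny between a power of `G` and `B` -/
theorem count_link {ι : Type} [Fintype ι] [Nonempty ι] {χ : Γ → Λ →+* ℂ} {χ' : Γ' → Λ' →+* ℂ}
    (ψ : B →+ ι → G) (φ : (ι → G) →+ B) (ho : Surjective ψ) (ho' : Surjective φ)
    [Finite ψ.ker] [Finite φ.ker] {π : Λ} {π' : Λ'} {N : ℕ} (hN : N ≠ 0)
    (hψ : ∀ x, ψ (π' • x) = π ^ N • ψ x) (hφ : ∀ y, φ (π ^ N • y) = π' • φ y)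
    (e : (Σ _ : ι, Γ) ≃ Γ') (he : ∀ x, χ' (e x) π' = χ x.2 (π ^ N))
    (hB : ∀ n ≠ 0, (Nat.card (sm B (1 - π' ^ n)).ker : ℂ) = nm χ' (1 - π' ^ n))
    (hW : ∀ ρ, ‖χ ρ π‖ ≠ 1)
    (hk : ∀ a : Λ, nm χ a ≠ 0 → ∃ d : ℕ, (d : ℂ) = nm χ a ∧ Finite (sm G a).ker ∧
      Nat.card (sm G a).ker ≤ d) {s : ℕ} (hs : s ≠ 0) :
    (Nat.card (sm G (1 - π ^ s)).ker : ℂ) = nm χ (1 - π ^ s) := by
  have hab : (1 - π ^ s) * ∑ i ∈ Finset.range N, (π ^ s) ^ i = 1 - (π ^ N) ^ s := by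
    rw [mul_neg_geom_sum, ← pow_mul, ← pow_mul, mul_comm]
  have h0 : nm χ (1 - (π ^ N) ^ s) ≠ 0 := by
    rw [nm_one_sub]
    refine Finset.prod_ne_zero_iff.2 fun ρ _ h => hW ρ ?_
    have h1 := congrArg norm (sub_eq_zero.1 h)
    rw [map_pow, ← pow_mul, norm_one, norm_pow] at h1
    exact (pow_eq_one_iff_of_nonneg (norm_nonneg _) (mul_ne_zero hN hs)).1 h1.symm
  have h1 := nm_mul χ (1 - π ^ s) (∑ i ∈ Finset.range N, (π ^ s) ^ i)
  rw [hab] at h1
  obtain ⟨d, d1, d2, d3⟩ := hk _ h0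
  obtain ⟨a, a1, a2, a3⟩ := hk _ (left_ne_zero_of_mul (h1 ▸ h0))
  obtain ⟨b, b1, b2, b3⟩ := hk _ (right_ne_zero_of_mul (h1 ▸ h0))
  have hd : d = a * b := by
    rw [← d1, ← a1, ← b1] at h1
    exact_mod_cast h1
  have hd0 : d ≠ 0 := fun h => h0 (by rw [← d1, h, Nat.cast_zero])
  have f1 : Finite (sm (ι → G) (1 - (π ^ N) ^ s)).ker := Finite.of_injective
    (fun y i => (⟨y.1 i, congrFun y.2 i⟩ : (sm G (1 - (π ^ N) ^ s)).ker))
    fun y z h => Subtype.ext (_root_.funext fun i => congrArg Subtype.val (congrFun h i))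
  obtain ⟨f2, c1⟩ := Dec.card_ker_le φ ho' _ _ (iter_sm hφ s)
  obtain ⟨-, c2⟩ := Dec.card_ker_le ψ ho _ _ (iter_sm hψ s)
  have c3 : (Nat.card (sm G (1 - (π ^ N) ^ s)).ker : ℂ) ^ Fintype.card ι =
      (d : ℂ) ^ Fintype.card ι := by
    rw [← Nat.cast_pow, ← card_pi, le_antisymm c2 c1, hB s hs, nm_one_sub, d1, nm_one_sub,
      ← Equiv.prod_comp e, Fintype.prod_sigma]
    simp only [he, Finset.prod_const, Finset.card_univ]
  have c4 : Nat.card (sm G (1 - (π ^ N) ^ s)).ker = d :=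
    Nat.pow_left_injective Fintype.card_ne_zero (by exact_mod_cast c3)
  have c5 := card_mul_le (G := G) (1 - π ^ s) (∑ i ∈ Finset.range N, (π ^ s) ^ i)
  rw [hab, c4, hd] at c5
  have hb0 : 0 < b := Nat.pos_of_ne_zero fun h => hd0 (by rw [hd, h, mul_zero])
  rw [← a1, le_antisymm a3 (Nat.le_of_mul_le_mul_right (c5.trans (Nat.mul_le_mul_left _ b3)) hb0)]

theorem card_fix {F : G → G} {π : Λ} (h : ∀ y, F y = π • y) (n : ℕ) :
    Nat.card (fixedPoints F^[n]) = Nat.card (sm G (1 - π ^ n)).ker := by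
  have key : ∀ y, F^[n] y = π ^ n • y := by
    induction n with
    | zero => simp
    | succ n ih => intro y; rw [iterate_succ_apply', ih, h, pow_succ', mul_smul]
  refine Nat.card_congr (Equiv.subtypeEquivRight fun y => ?_)
  change F^[n] y = y ↔ (1 - π ^ n) • y = 0
  rw [key, sub_smul, one_smul, sub_eq_zero, eq_comm]

end count

/-- the kernel of an operator on an abelian variety is bounded by its norm -/
theorem ker_bound {Ω G τ Λ Γ : Type} [Field Ω] [AddCommGroup G] [Fintype τ] [CommRing Λ]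
    [Module Λ G] [Fintype Γ] {χ : Γ → Λ →+* ℂ} {h : G → τ → Ω} {g : ℕ} (hA : AV h g)
    (hi : ∀ y y', Par (h y) (h y') → y = y') (hm : ∀ a : Λ, Mor h h fun x => a • x)
    (hd : ∀ a : Λ, (mix (bs h hA.ne) (fun _ : Fin g => (LS.co h hA.ne).pb fun x => a • x) : ℂ) =
      nm χ a * (mix (bs h hA.ne) (fun _ : Fin g => LS.co h hA.ne) : ℚ)) (a : Λ)
    (ha : nm χ a ≠ 0) :
    ∃ d : ℕ, (d : ℂ) = nm χ a ∧ Finite (sm G a).ker ∧ Nat.card (sm G a).ker ≤ d := by
  obtain ⟨r, hr⟩ := exists_deg hA.src hA.src (j := fun x => a • x)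
    fun _ => Mor.reg hA.ne hA.ne (hm a)
  have h1 := hr (Fin g) (fun _ => LS.co h hA.ne) (by simp) fun _ => Reg.self (bs h hA.ne) ()
  have h2 : (r : ℂ) = nm χ a := by
    have := hd a
    rw [h1] at this
    push_cast at this
    exact mul_right_cancel₀ (Rat.cast_ne_zero.2 hA.top) this
  obtain ⟨f, c⟩ := Pp.ker_le hA hi hA.src hA.ne hA.src hA.top (sm G a) (hm a) (r := r)
    (fun h0 => ha (by rw [← h2, Nat.cast_eq_zero.1 h0, Nat.cast_zero])) h1
  exact ⟨r, h2, f, by exact_mod_cast c⟩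

variable {k : Type} [Field k] [Fintype k] {G τ : Type} [AddCommGroup G] [Fintype τ]
  {j j' : ℕ} {p : G → τ → AlgebraicClosure k} {F : G →+ G} {s : Sh}
  {B : Fib (AlgebraicClosure k) s} {ψ : G →+ B.G} {ψ' : B.G →+ G} {m : ℕ} {π : s.Λ}

/-- the strong Tate conjecture on `G` from an isogenous abstract fibre -/
theorem coreF (hA : AV p (j + j')) (hi : ∀ y y', Par (p y) (p y') → y = y')
    (hF : ∀ y, Par (p (F y)) (p y ^ Fintype.card k)) (hn : j + j' = s.n)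
    (hψ : RegM (bs p hA.ne) B.H ψ) (hψ' : RegM B.H (bs p hA.ne) ψ') (hm : m ≠ 0)
    (hψψ : ∀ b, ψ (ψ' b) = m • b) (e : ∀ y, ψ (F y) = π • ψ y) (hD : B.Deg)
    (hW : ∀ ρ, ‖s.χ ρ π‖ ^ 2 = Fintype.card k) (hT : B.TateAlg π (Fintype.card k))
    (hN : ∀ n, (Nat.card (fixedPoints F^[n + 1]) : ℂ) = nm s.χ (1 - π ^ (n + 1))) :
    Tate p F (Fintype.card k) j j' := by
  have hq : 1 < Fintype.card k := Fintype.one_lt_card
  have i : Iso s.ν (bs p hA.ne) (LS.co p hA.ne) B.H ψ ψ' m := by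
    have h1 : Src (bs p hA.ne) s.n := by rw [← hn]; exact hA.src
    refine ⟨h1, Reg.self (bs p hA.ne) (), ?_, fun _ => hA.sub', hψ, hψ', hm, hψψ⟩
    have := mix_equiv (bs p hA.ne) (fun _ : Fin (j + j') => LS.co p hA.ne)
      (Fintype.equivFinOfCardEq hn.symm)
    exact fun h => hA.top (this.symm.trans h)
  have fs := frS hA.ne hi hF
  have hFr : IsFr (frE k) (bs p hA.ne) (bs p hA.ne) F :=
    isFr_co frE_apply hA.ne hA.ne fs.bij.2 fun t => by
      obtain ⟨c, -, hc⟩ := hF t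
      exact ⟨c, fun l => congrFun hc l⟩
  have h0 : nm s.χ π ≠ 0 := Finset.prod_ne_zero_iff.2 fun ρ _ h => by
    have := hW ρ
    rw [h, norm_zero, zero_pow two_ne_zero] at this
    exact (Nat.cast_ne_zero.2 (by omega : Fintype.card k ≠ 0)) this.symm
  have alg : ∀ S : Finset s.Γ, ∏ ρ ∈ S, s.χ ρ π = (Fintype.card k : ℂ) ^ j' →
      AlgP B.H (B.H ∘ s.sl) s.χ j j' S := fun S hS => by
    obtain ⟨a, b, h1, h2, Z, W, h3⟩ := hT S j' hS
    have h4 := Ze.card_of_prod (fun ρ => s.χ ρ π) _ hq hW S j' hS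
    obtain rfl : b = j' := by omega
    obtain rfl : a = j := by omega
    exact ⟨Z.T, W.T, Z.β, W.β, inferInstance, inferInstance, Z.B, W.B, Z.z, W.z, Z.src, W.src,
      Z.reg, W.reg, h3⟩
  obtain ⟨Z, z1, z2, z3⟩ := Ze.zeta (fun ρ => s.χ ρ π) _ hq hW
    (fun n => (Nat.card (fixedPoints F^[n + 1]) : ℂ)) (fun n => (hN n).trans (nm_one_sub _ _ _)) j
  refine ⟨Z, _, z1, z2, z3, ?_⟩
  refine i.rank (Fib.abS hD) s.bas s.inj hn frE_apply (by omega) hFr fs e h0 alg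
    Subtype.val Subtype.val (fun Z => ?_) (fun W => ?_) _
    (inv_ne_zero (Nat.cast_ne_zero.2 (j + j').factorial_ne_zero)) fun a b => pair_eq hA.ne _ _ _
  · rw [← dm_le_iff hA.ne]
    exact ⟨fun ⟨a, h⟩ => h ▸ a.2, fun h => ⟨⟨Z, h⟩, rfl⟩⟩
  · rw [← dm_le_iff hA.ne]
    exact ⟨fun ⟨a, h⟩ => h ▸ a.2, fun h => ⟨⟨W, h⟩, rfl⟩⟩

end Pool.Agent.Tav.K0
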