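import Pool.Agent.P.MP_2ce3e7_ag.Tav.GMul
import Pool.Agent.P.MP_2ce3e7_ag.Tav.GProd
import Pool.Agent.P.MP_2ce3e7_ag.Tav.PiF

/-! Degrees of maps into the source and into the target of a dense regular map. -/

set_option autoImplicit false

noncomputable section

namespace Pool.Agent.Tav

open MvPolynomial Module

variable {Ω : Type} [Field Ω] {T Y Y' : Type} {β β' γ ν ν' : Type} [Fintype β] [Fintype β']
  [Fintype γ] [Fintype ν] [Fintype ν']

theorem pL_ne_zero_of_ne [Nonempty T] (B : β → LS Ω T) : pL B ≠ 0 := by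
  intro h
  obtain ⟨N, hN⟩ := evP_pL B
  have h1 := hN (fun _ => N) fun _ => le_rfl
  rw [h, map_zero, eq_comm, Nat.cast_eq_zero] at h1
  obtain ⟨g, hg, h0⟩ := pc_nv B (fun _ => N) (Classical.arbitrary T)
  rw [Submodule.finrank_eq_zero.1 h1, Submodule.mem_bot] at hg
  exact h0 (by rw [hg]; rfl)

/-- a source with a nonzero degree in `n` slots has dimension `n` -/
theorem Src.not_dg_of_mix {B : β → LS Ω T} {W : ν → LS Ω T} {n : ℕ} (h : Src B n)
    (hW : ∀ k, Reg B (W k)) (hn : n ≤ Fintype.card ν) (h0 : mix B W ≠ 0) :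
    ¬ Dg (pL B) (n - 1) := by
  intro hd
  cases n with
  | zero =>
    have := h.ne
    exact pL_ne_zero_of_ne B (hd.eq_zero (by simp))
  | succ n =>
    exact h0 (mix_zero ⟨h.ne, h.dom, by simpa using hd⟩ hW hn)

/-- TRANS, numerical form -/
theorem mix_trans {B : β → LS Ω Y} {B' : β' → LS Ω Y'} {n : ℕ} (hB : Src B n) (hB' : Src B' n)
    (ψ : Y' → Y) (hψ : ∀ k, Reg B' ((B k).pb ψ)) (hd : Dense ψ B) {H : ν → LS Ω Y}
    {H' : ν' → LS Ω Y'} (hH : ∀ k, Reg B (H k)) (hH' : ∀ k, Reg B' (H' k))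
    (hn : n ≤ Fintype.card ν) (hn' : n ≤ Fintype.card ν') (h0 : mix B H ≠ 0)
    (h0' : mix B' H' ≠ 0) :
    ∃ c : ℚ, c ≠ 0 ∧ ∀ (T γ : Type) [Fintype γ] (C : γ → LS Ω T), Src C n → ∀ φ : T → Y',
      (∀ k, Reg C ((B' k).pb φ)) →
      mix C (fun k => (H k).pb (ψ ∘ φ)) = c * mix C fun k => (H' k).pb φ := by
  obtain ⟨r, -, hr, hm⟩ := mix_mul' hB' hB ψ hψ
  refine ⟨r * mix B H / mix B' H', div_ne_zero (mul_ne_zero
    (Nat.cast_ne_zero.2 (hr hd (hB.not_dg_of_mix hH hn h0)).1.ne') h0) h0', fun T γ _ C hC φ hφ => ?_⟩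
  obtain ⟨s, -, hs⟩ := mix_mul hC hB' φ hφ
  have h1 := hs ν (fun k => (H k).pb ψ) hn fun k => Reg.trans hψ ((hH k).pb ψ)
  simp only [LS.pb_pb] at h1
  rw [h1, hs ν' H' hn' hH', hm ν H hn hH]
  field_simp

namespace Fib

open Function

variable {s s' : Sh}

/-- the expansion of the degrees holds on `F` -/
def Exp (F : Fib Ω s) : Prop :=
  ∀ j j', j + j' = s.n → ∀ (Z : F.Cyc j) (W : F.Cyc j') (a b : s.Λ),
    (D Z W a b : ℂ) = ∑ S, pS Z W S * Det.mon s.χ S a b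

/-- a regular additive surjection that is equivariant and matches the characters along `e` -/
def Isg (F' : Fib Ω s') (F : Fib Ω s) (e : s'.Γ ≃ s.Γ) : Prop :=
  ∃ (ψ : F'.G →+ F.G) (θ : s.Λ → s'.Λ), Surjective ψ ∧ F.In F'.H ψ ∧
    (∀ a y, ψ (θ a • y) = a • ψ y) ∧ ∀ ρ a, s'.χ ρ (θ a) = s.χ (e ρ) a

theorem Isg.refl (F : Fib Ω s) : F.Isg F (Equiv.refl _) :=
  ⟨AddMonoidHom.id _, id, surjective_id, fun b => by
    have := Reg.self F.H b
    rwa [← LS.pb_id (F.H b)] at this, fun _ _ => rfl, fun _ _ => rfl⟩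

theorem In.cmp {F : Fib Ω s} {F' : Fib Ω s'} {ψ : F'.G → F.G} (h : F.In F'.H ψ)
    {C : γ → LS Ω T} {u : T → F'.G} (hu : F'.In C u) : F.In C (ψ ∘ u) := fun b => by
  rw [← LS.pb_pb]
  exact Reg.trans hu ((h b).pb u)

theorem mon_map (e : s'.Γ ≃ s.Γ) {θ : s.Λ → s'.Λ} (h : ∀ ρ a, s'.χ ρ (θ a) = s.χ (e ρ) a)
    (S : Finset s'.Γ) (a b : s.Λ) :
    Det.mon s'.χ S (θ a) (θ b) = Det.mon s.χ (S.map e.toEmbedding) a b := by
  have hc : (S.map e.toEmbedding)ᶜ = Sᶜ.map e.toEmbedding := by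
    ext ρ
    simp [Finset.mem_map_equiv]
  simp only [Det.mon, hc, Finset.prod_map, h, Equiv.coe_toEmbedding]

theorem pS_of {F : Fib Ω s} {j j' : ℕ} (Z : F.Cyc j) (W : F.Cyc j') {p : Finset s.Γ → ℂ}
    (h : ∀ a b, (D Z W a b : ℂ) = ∑ S, p S * Det.mon s.χ S a b) : pS Z W = p :=
  Det.uniq s.bas s.inj _ _ fun a b _ _ =>
    (Classical.epsilon_spec (p := fun p : Finset s.Γ → ℂ =>
      ∀ a b, (D Z W a b : ℂ) = ∑ S, p S * Det.mon s.χ S a b) ⟨p, h⟩ a b).symm.trans (h a b)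

theorem in_comb (F : Fib Ω s) {j j' : ℕ} (Z : F.Cyc j) (W : F.Cyc j') (a b : s.Λ) :
    F.In (prodB Z.B W.B) fun t => a • Z.z t.1 + b • W.z t.2 := by
  have h1 : F.In (prodB Z.B W.B) fun t => a • Z.z t.1 := fun c => by
    have := Reg.fst W.B (In.cmp (F.smul a) Z.reg c)
    rwa [LS.pb_pb] at this
  have h2 : F.In (prodB Z.B W.B) fun t => (-b) • W.z t.2 := fun c => by
    have := Reg.snd Z.B (In.cmp (F.smul (-b)) W.reg c)
    rwa [LS.pb_pb] at this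
  intro c
  have h3 := (F.sub c).pb fun t : Z.T × W.T => (a • Z.z t.1, (-b) • W.z t.2)
  rw [LS.pb_pb] at h3
  have e : ((fun t : F.G × F.G => t.1 - t.2) ∘
      fun t : Z.T × W.T => (a • Z.z t.1, (-b) • W.z t.2)) = fun t => a • Z.z t.1 + b • W.z t.2 :=
    funext fun t => by simp
  rw [e] at h3
  refine Reg.trans (fun k => ?_) h3
  cases k with
  | inl k => simpa [prodB, LS.pb_pb, comp_def] using h1 k
  | inr k => simpa [prodB, LS.pb_pb, comp_def] using h2 k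

/-- TRANS -/
theorem Isg.alg {F' : Fib Ω s'} {F : Fib Ω s} {e : s'.Γ ≃ s.Γ} (h : F'.Isg F e) (hE : F'.Exp)
    {S : Finset s'.Γ} (hS : F'.AlgS S) : F.AlgS (S.map e.toEmbedding) := by
  obtain ⟨ψ, θ, hs, hr, hθ, hχ⟩ := h
  obtain ⟨j, j', hj, hc, Z, W, h0⟩ := hS
  have hn : s'.n = s.n := by
    have h1 := s.card
    have h2 := s'.card
    rw [Fintype.card_congr e] at h2
    unfold Sh.n
    omega
  obtain ⟨c, hc0, hm⟩ := mix_trans F.src (hn ▸ F'.src) ψ hr (Dense.of_surj hs _)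
    (H := F.H ∘ s.sl) (H' := F'.H ∘ s'.sl) (fun k => Reg.self _ _) (fun k => Reg.self _ _)
    le_rfl hn.ge F.top F'.top
  let Z1 : F.Cyc j := ⟨Z.T, Z.β, Z.B, ψ ∘ Z.z, Z.src, hr.cmp Z.reg⟩
  let W1 : F.Cyc j' := ⟨W.T, W.β, W.B, ψ ∘ W.z, W.src, hr.cmp W.reg⟩
  have hD : ∀ a b, D Z1 W1 a b = c * D Z W (θ a) (θ b) := fun a b => by
    have h1 := hm _ _ (prodB Z.B W.B) (hn ▸ hj ▸ Z.src.prod W.src) _
      (F'.in_comb Z W (θ a) (θ b))
    have e1 : (ψ ∘ fun t : Z.T × W.T => θ a • Z.z t.1 + θ b • W.z t.2) =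
        fun t => a • ψ (Z.z t.1) + b • ψ (W.z t.2) := funext fun t => by simp [hθ]
    rw [e1] at h1
    exact h1
  have hp : pS Z1 W1 = fun S => c * pS Z W (S.map e.symm.toEmbedding) := by
    refine pS_of _ _ fun a b => ?_
    rw [hD, Rat.cast_mul, hE j j' hj, Finset.mul_sum]
    refine Fintype.sum_equiv e.finsetCongr _ _ fun S => ?_
    rw [mon_map e hχ, mul_assoc]
    simp [Finset.map_map]
  refine ⟨j, j', hn ▸ hj, by simpa using hc, Z1, W1, ?_⟩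
  rw [hp]
  refine mul_ne_zero (by exact_mod_cast hc0) ?_
  simpa [Finset.map_map] using h0

/-- products -/
theorem Isg.pi {ι : Type} [Fintype ι] [DecidableEq ι] {s s' : ι → Sh} {F' : ∀ i, Fib Ω (s' i)}
    {F : ∀ i, Fib Ω (s i)} {e : ∀ i, (s' i).Γ ≃ (s i).Γ} (h : ∀ i, (F' i).Isg (F i) (e i)) :
    (Fib.pi F').Isg (Fib.pi F) (Equiv.sigmaCongrRight e) := by
  choose ψ θ hs hr hθ hχ using h
  refine ⟨{ toFun := fun y i => ψ i (y i), map_zero' := funext fun i => map_zero _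
            map_add' := fun x y => funext fun i => map_add _ _ _ }, fun a i => θ i (a i),
    fun y => ?_, ?_, fun a y => funext fun i => hθ i _ _, fun ρ a => hχ ρ.1 ρ.2 _⟩
  · choose x hx using fun i => hs i (y i)
    exact ⟨x, funext hx⟩
  · rintro ⟨i, b⟩
    rw [Fib.pi_H, LS.pb_pb]
    have h1 := (hr i b).pb fun t : (Fib.pi F').G => t i
    rw [LS.pb_pb] at h1
    exact Reg.trans (fun k => Fib.pi_H F' i k ▸ Reg.self (Fib.pi F').H ⟨i, k⟩) h1

end Fib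

end Pool.Agent.Tav
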