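import Pool.Agent.P.MP_2ce3e7_ag.Tav.FCan
import Pool.Agent.P.MP_2ce3e7_ag.Tav.FTrans
import Pool.Agent.P.MP_2ce3e7_ag.Tav.Zeta

/-! Change of the ring of operators, and descent from a power. -/

set_option autoImplicit false

noncomputable section

namespace Pool.Agent.Tav.RC

open MvPolynomial Module Function Fib

variable {Ω : Type} [Field Ω] {s s' : Sh} {F : Fib Ω s} {F' : Fib Ω s'} {j j' : ℕ}

/-- the classes that are seen by cycles of dimensions `j` and `j'` -/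
def Seen (F : Fib Ω s) (j j' : ℕ) (S : Finset s.Γ) : Prop :=
  ∃ (Z : F.Cyc j) (W : F.Cyc j'), Fib.pS Z W S ≠ 0

/-- the rank of the pairing on all cycles -/
def rk (F : Fib Ω s) (j j' : ℕ) : Cardinal :=
  Module.rank ℚ (Submodule.span ℚ (Set.range fun (Z : F.Cyc j) (W : F.Cyc j') => D Z W 1 1))

theorem rk_eq (hd : F.Deg) (hj : j + j' = s.n) :
    rk F j j' = Nat.card {S // Seen F j j' S} := by
  rw [rk, Ze.rank_final (fun (Z : F.Cyc j) (W : F.Cyc j') => D Z W 1 1)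
    (fun S (Z : F.Cyc j) (W : F.Cyc j') => Fib.pS Z W S)
    (fun a => {a}) (fun b => {b}) (fun a b => by simp [exp hd hj, Det.mon])
    (fun S => (-1) ^ S.card) (fun S Z W Z' W' => one hd hj Z Z' W W' S) id id (fun _ => 1)
    (fun _ => 1) (by simp) (by simp) (by simp) (by simp)
    (fun Z => Or.inr ⟨Z, ⟨Z, by simp, 0, by simp⟩, fun Z' hZ => Or.inl ⟨0, by
      rw [Multiset.mem_singleton.1 hZ]; simp⟩⟩)
    (fun Z => Or.inr ⟨Z, ⟨Z, by simp, 0, by simp⟩, fun Z' hZ => Or.inl ⟨0, by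
      rw [Multiset.mem_singleton.1 hZ]; simp⟩⟩) _ _ (Ze.indep_prod_compl s.χ s.inj)
    (Ze.indep_prod s.χ s.inj)
    (fun m Z => ⟨Z.smul m.1, 1, fun S W => by rw [pS_smul_left hd hj, one_mul]⟩)
    (fun m W => ⟨W.smul m.1, 1, fun S Z => by rw [pS_smul_right hd hj, one_mul]⟩)]
  simp only [true_and]
  rfl

/-- the image of a cycle under a regular map -/
def push (ψ : F'.G → F.G) (h : F.In F'.H ψ) (Z : F'.Cyc j) : F.Cyc j :=
  ⟨Z.T, Z.β, Z.B, ψ ∘ Z.z, Z.src, In.cmp h Z.reg⟩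

theorem rk_le (hn : s'.n = s.n) (hj : j + j' = s.n) (ψ : F'.G →+ F.G) (h : F.In F'.H ψ)
    (ho : Surjective ψ) : rk F' j j' ≤ rk F j j' := by
  obtain ⟨c, hc, h1⟩ := mix_trans F.src (hn ▸ F'.src) ψ h (Dense.of_surj ho _)
    (H := F.H ∘ s.sl) (H' := F'.H ∘ s'.sl) (fun _ => Reg.self _ _) (fun _ => Reg.self _ _)
    le_rfl hn.ge F.top F'.top
  have key : ∀ (Z : F'.Cyc j) (W : F'.Cyc j'),
      D (push ψ h Z) (push ψ h W) 1 1 = c * D Z W 1 1 := by
    intro Z W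
    refine Eq.trans ?_ (h1 _ _ _ (hj ▸ Z.src.prod W.src) _ (F'.in_comb Z W 1 1))
    rw [D, DD]
    congr 1
    funext k
    congr 1
    funext t
    simp [push]
  let L : (F.Cyc j' → ℚ) →ₗ[ℚ] F'.Cyc j' → ℚ := c⁻¹ • LinearMap.funLeft ℚ ℚ (push ψ h)
  refine le_trans (Submodule.rank_mono ?_) (rank_map_le L _)
  rw [Submodule.span_le]
  rintro _ ⟨Z, rfl⟩
  refine ⟨_, Submodule.subset_span ⟨push ψ h Z, rfl⟩, funext fun W => ?_⟩
  simp only [L, LinearMap.smul_apply, Pi.smul_apply, LinearMap.funLeft_apply, key, smul_eq_mul]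
  rw [inv_mul_cancel_left₀ hc]

/-- the number of classes seen by cycles does not change under isogenies -/
theorem card_seen (hd : F.Deg) (hd' : F'.Deg) (hn : s'.n = s.n) (hj : j + j' = s.n)
    (ψ : F'.G →+ F.G) (h : F.In F'.H ψ) (ho : Surjective ψ) (φ : F.G →+ F'.G)
    (h' : F'.In F.H φ) (ho' : Surjective φ) :
    Nat.card {S // Seen F' j j' S} = Nat.card {S // Seen F j j' S} := by
  have := le_antisymm (rk_le hn hj ψ h ho) (rk_le hn.symm (hj.trans hn.symm) φ h' ho')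
  rw [rk_eq hd hj, rk_eq hd' (hj.trans hn.symm)] at this
  exact_mod_cast this

/-- potentially Tate subsets -/
def Pot {Γ : Type} (al : Γ → ℂ) (Q j : ℕ) (S : Finset Γ) : Prop :=
  ∃ m ≠ 0, (∏ ρ ∈ S, al ρ) ^ m = ((Q : ℂ) ^ j) ^ m

theorem Pot.card {Γ : Type} {al : Γ → ℂ} {Q j : ℕ} {S : Finset Γ} (h : Pot al Q j S) (hQ : 1 < Q)
    (hW : ∀ ρ, ‖al ρ‖ ^ 2 = Q) : S.card = 2 * j := by
  obtain ⟨m, hm, h⟩ := h
  refine Ze.card_of_prod (fun ρ => al ρ ^ m) (Q ^ m) (Nat.one_lt_pow hm hQ) (fun ρ => ?_) S j ?_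
  · rw [norm_pow, ← pow_mul, mul_comm, pow_mul, hW, Nat.cast_pow]
  · rw [Finset.prod_pow, h, Nat.cast_pow, ← pow_mul, ← pow_mul, mul_comm]

/-- change of the ring of operators -/
theorem ring_change (hd : F.Deg) (hd' : F'.Deg) (ψ : F'.G →+ F.G) (h : F.In F'.H ψ)
    (ho : Surjective ψ) (φ : F.G →+ F'.G) (h' : F'.In F.H φ) (ho' : Surjective φ) {π : s.Λ}
    {Q : ℕ} (hπ : F.Frob π Q) (hQ : FrobF Ω Q) (hW : ∀ ρ, ‖s.χ ρ π‖ ^ 2 = Q) (e : s.Γ ≃ s'.Γ)
    {π' : s'.Λ} (hπ' : F'.Frob π' Q) (he : ∀ ρ, s'.χ (e ρ) π' = s.χ ρ π)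
    (hT : ∀ S j, Pot (fun ρ => s'.χ ρ π') Q j S → F'.AlgS S) {S : Finset s.Γ} {j' : ℕ}
    (hS : Pot (fun ρ => s.χ ρ π) Q j' S) : F.AlgS S := by
  have hn : s'.n = s.n := by
    have := Fintype.card_congr e
    rw [s.card, s'.card] at this
    unfold Sh.n
    omega
  have hc := hS.card hQ.1 hW
  have hle : j' ≤ s.n := by
    have := S.card_le_univ
    rw [s.card] at this
    unfold Sh.n
    omega
  obtain ⟨j, hj⟩ : ∃ j, j + j' = s.n := ⟨s.n - j', by omega⟩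
  have hW' : ∀ ρ, ‖s'.χ ρ π'‖ ^ 2 = Q := fun ρ => by rw [← e.apply_symm_apply ρ, he, hW]
  have h1 : Nat.card {S // Seen F' j j' S} = Nat.card {S // Pot (fun ρ => s'.χ ρ π') Q j' S} := by
    refine Nat.card_congr (Equiv.subtypeEquivRight fun S => ⟨?_, fun hp => ?_⟩)
    · rintro ⟨Z, W, h⟩
      exact fr_pow hd' hπ' hQ (hj.trans hn.symm) h
    · obtain ⟨a, b, h1, h2, Z, W, h3⟩ := hT S j' hp
      have := hp.card hQ.1 hW'
      obtain rfl : b = j' := by omega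
      obtain rfl : a = j := by omega
      exact ⟨Z, W, h3⟩
  have h2 : Nat.card {S // Pot (fun ρ => s.χ ρ π) Q j' S} =
      Nat.card {S // Pot (fun ρ => s'.χ ρ π') Q j' S} := by
    refine Nat.card_congr (e.finsetCongr.subtypeEquiv fun S => ?_)
    simp only [Pot, Equiv.finsetCongr_apply, Finset.prod_map, Equiv.coe_toEmbedding, he]
  have h3 := card_seen hd hd' hn hj ψ h ho φ h' ho'
  have h4 : {S | Seen F j j' S} = {S | Pot (fun ρ => s.χ ρ π) Q j' S} := by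
    refine Set.eq_of_subset_of_ncard_le ?_ ?_
    · rintro S ⟨Z, W, h⟩
      exact fr_pow hd hπ hQ hj h
    · exact (h2.trans (h1.symm.trans h3)).le
  have h5 : S ∈ {S | Seen F j j' S} := h4 ▸ hS
  exact ⟨j, j', hj, hc, h5⟩

section
variable {ι : Type} [Fintype ι] [DecidableEq ι] {s : ι → Sh} {F : ∀ i, Fib Ω (s i)}

theorem DD_pi (F : ∀ i, Fib Ω (s i)) (u : ∀ i, (F i).G → (F i).G) :
    (Fib.pi F).DD (Fib.pi F).H (fun t i => u i (t i)) = ∏ i, (F i).DD (F i).H (u i) := by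
  simp only [DD]
  rw [← mix_pi, Fib.pi_H']
  congr 1
  funext l
  simp only [piB, LS.pb_pb]
  rfl

theorem deg_pi (h : ∀ i, (F i).Deg) : (Fib.pi F).Deg := by
  intro a
  have h1 := DD_pi F fun i t => a i • t
  have h2 := DD_pi F fun _ => id
  refine (congrArg _ h1).trans ?_
  rw [show (Fib.pi F).DD (Fib.pi F).H id = _ from h2,
    show Det.nm (Sh.pi s).χ a = _ from Det.nm_pi (fun i => (s i).χ) a]
  push_cast
  rw [← Finset.prod_mul_distrib]
  exact Finset.prod_congr rfl fun i _ => h i (a i)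

theorem frob_pi {π : ∀ i, (s i).Λ} {Q : ℕ} (h : ∀ i, (F i).Frob (π i) Q) :
    (Fib.pi F).Frob π Q := by
  intro t
  choose c hc hx using fun i => h i (t i)
  exact ⟨fun b => c b.1 b.2, fun b => hc _ _, fun l => hx l.1 l.2⟩

end

variable [IsAlgClosed Ω]

/-- UNION -/
theorem union (hd : F.Deg) {S P : Finset s.Γ} (hS : F.AlgS S) (hP : F.AlgS P)
    (h : Disjoint S P) : F.AlgS (S ∪ P) := by
  have := ((hS.compl hd).cancel hd hP
    (Finset.subset_compl_iff_disjoint_left.2 h)).compl hd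
  rwa [Finset.sdiff_eq_inter_compl, Finset.compl_inter, compl_compl, compl_compl] at this

/-- descent from a power -/
theorem descent {ι : Type} [Fintype ι] [DecidableEq ι] [Nonempty ι] (hd : F.Deg) (hd' : F'.Deg)
    (ψ : F'.G →+ (Fib.pi fun _ : ι => F).G) (h : (Fib.pi fun _ : ι => F).In F'.H ψ)
    (ho : Surjective ψ) (φ : (Fib.pi fun _ : ι => F).G →+ F'.G)
    (h' : F'.In (Fib.pi fun _ : ι => F).H φ) (ho' : Surjective φ) {π : s.Λ} {Q : ℕ}
    (hπ : F.Frob π Q) (hQ : FrobF Ω Q) (hW : ∀ ρ, ‖s.χ ρ π‖ ^ 2 = Q)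
    (e : (Σ _ : ι, s.Γ) ≃ s'.Γ) {π' : s'.Λ} (hπ' : F'.Frob π' Q)
    (he : ∀ x, s'.χ (e x) π' = s.χ x.2 π)
    (hT : ∀ S j, Pot (fun ρ => s'.χ ρ π') Q j S → F'.AlgS S) {S : Finset s.Γ} {j : ℕ}
    (hS : Pot (fun ρ => s.χ ρ π) Q j S) : F.AlgS S := by
  obtain ⟨k⟩ := ‹Nonempty ι›
  have hp : (Fib.pi fun _ : ι => F).Deg := deg_pi fun _ => hd
  have := AlgS.desc (S := fun i => if i = k then S else ∅) hp k hd
    (ring_change (π := fun _ => π) (j' := j) hp hd' ψ h ho φ h' ho' (frob_pi fun _ => hπ) hQ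
      (fun x => hW x.2) e hπ' he hT ?_) fun i hi => if_neg hi
  · simpa using this
  · obtain ⟨m, hm, h⟩ := hS
    refine ⟨m, hm, Eq.trans ?_ h⟩
    congr 1
    refine (Finset.prod_sigma _ _ _).trans ?_
    rw [Finset.prod_eq_single k (fun i _ hi => by rw [if_neg hi, Finset.prod_empty]) (by simp),
      if_pos rfl]
    rfl

end Pool.Agent.Tav.RC
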