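import Pool.Agent.P.MP_2ce3e7_ag.Tav.TiTopD
import Pool.Agent.P.MP_2ce3e7_ag.Tav.TiLast
import Pool.Agent.P.MP_2ce3e7_ag.Tav.TiEigB
import Pool.Agent.P.MP_2ce3e7_ag.Tav.TiCnt
import Pool.Agent.P.MP_2ce3e7_ag.Tav.TiRC
import Pool.Agent.P.MP_2ce3e7_ag.Tav.TiQuot
import Pool.Agent.P.MP_2ce3e7_ag.Tav.Main

/-! The strong Tate conjecture without a model, from the four inputs. -/

set_option autoImplicit false

noncomputable section

namespace Pool.Agent.Tav.Ti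

open MvPolynomial Module Function

theorem FInj.pi {Ω ι : Type} [Field Ω] [Fintype ι] [DecidableEq ι] {s : ι → Sh}
    {B : ∀ i, Fib Ω (s i)} (h : ∀ i, FInj (B i)) : FInj (Fib.pi B) := by
  rintro t t' ⟨c, hc, e⟩
  exact funext fun i => h i _ _ ⟨fun b => c ⟨i, b⟩, fun b => hc _, fun l => e ⟨i, l⟩⟩

theorem onto_of {G H : Type} [AddCommGroup G] [AddCommGroup H] {ψ : G →+ H} {φ : H →+ G} {m : ℕ}
    (h : ∀ y, ψ (φ y) = m • y) (hd : ∀ y : H, ∃ x, m • x = y) : Surjective ψ := fun y => by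
  obtain ⟨x, rfl⟩ := hd y
  exact ⟨φ x, h x⟩

theorem fin_of {G H : Type} [AddCommGroup G] [AddCommGroup H] {ψ : G →+ H} {φ : H →+ G} {m : ℕ}
    (h : ∀ x, φ (ψ x) = m • x) (hd : Finite {x : G // m • x = 0}) : Finite ψ.ker :=
  Finite.of_injective (fun x : ψ.ker => (⟨x, by
    rw [← h, AddMonoidHom.mem_ker.1 x.2, map_zero]⟩ : {x : G // m • x = 0}))
    fun _ _ e => Subtype.ext (Subtype.mk.inj e)

variable {k : Type} [Field k] [Fintype k]

/-- Tate classes are algebraic, and the number of points -/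
theorem link (hM : S_HM k) (hI : S_Isog k) {s : Sh} (B : Fib (AlgebraicClosure k) s) (π : s.Λ)
    (hi : FInj B) (hD : B.Deg) (hF : B.Frob π (Fintype.card k))
    (hW : ∀ ρ, ‖s.χ ρ π‖ ^ 2 = Fintype.card k)
    (hd : ∀ m : ℕ, m ≠ 0 → (∀ y : B.G, ∃ x, m • x = y) ∧ Finite {x : B.G // m • x = 0})
    (hk : ∀ a : s.Λ, Det.nm s.χ a ≠ 0 → ∃ d : ℕ, (d : ℂ) = Det.nm s.χ a ∧
      Finite (K0.sm B.G a).ker ∧ Nat.card (K0.sm B.G a).ker ≤ d) :
    (∀ e ≠ 0, B.TateAlg (π ^ e) (Fintype.card k ^ e)) ∧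
      ∀ n ≠ 0, (Nat.card (K0.sm B.G (1 - π ^ n)).ker : ℂ) = Det.nm s.χ (1 - π ^ n) := by
  classical
  have hq : 1 < Fintype.card k := Fintype.one_lt_card
  obtain ⟨P, -, hP⟩ := Eg.exists_poly s.bas s.inj π
  obtain ⟨R, r, hr, σ, _, g, X, π', ι, _, _, e, he, hf, N, hN, hX⟩ :=
    hM s.Γ (fun ρ => s.χ ρ π) P hP hW
  have iX : FInj X.fB := fun t t' h => X.inj t t' (Par.bPar.2 h)
  have he' : ∀ x : Σ _ : ι, s.Γ, X.sh.χ (e x) (π' ^ N) = s.χ x.2 (π ^ N) := fun x => by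
    rw [map_pow, map_pow]
    exact congrArg (· ^ N) (he x)
  obtain ⟨ψ, φ, m, hm, r1, r2, c1, c2, e1, e2⟩ := hI X.fB (Fib.pi fun _ : ι => B) (π' ^ N)
    (fun _ => π ^ N) N hN iX (FInj.pi fun _ => hi) (X.deg hr) (RC.deg_pi fun _ => hD) hX
    (RC.frob_pi fun _ => hF.pow N) e.symm fun ρ => by
      have := he' (e.symm ρ)
      rw [e.apply_symm_apply] at this
      exact this.symm
  obtain ⟨d1, d2, -⟩ := Cnt.cnt_law X.sp X.inj X.law_sp hm
  obtain ⟨d3, d4⟩ := hd m hm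
  have o1 : Surjective ψ := onto_of c1 fun y => by
    choose x hx using fun i => d3 (y i)
    exact ⟨x, funext hx⟩
  have o2 : Surjective φ := onto_of c2 d1
  have f1 : Finite ψ.ker := fin_of c2 d2
  have f2 : Finite φ.ker := fin_of c1 (Finite.of_injective
    (fun (x : {x : ι → B.G // m • x = 0}) (i : ι) =>
      (⟨x.1 i, congrFun x.2 i⟩ : {x : B.G // m • x = 0}))
    fun _ _ h => Subtype.ext (funext fun i => congrArg Subtype.val (congrFun h i)))
  refine ⟨fun a ha S j hS => ?_, fun n hn => ?_⟩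
  · refine RC.descent (j := j) hD (X.deg hr) ψ r1 o1 φ r2 o2 (hF.pow N) (frobF k hN)
      (fun ρ => ?_) e hX he' (fun S' j' ⟨b, hb, h⟩ => ?_) ⟨a, ha, ?_⟩
    · rw [map_pow, norm_pow, ← pow_mul, mul_comm, pow_mul, hW, Nat.cast_pow]
    · refine X.core hr hN hX (Or.inr hf) (mul_ne_zero hN hb) S' j' ?_
      simp only [map_pow, Finset.prod_pow, Nat.cast_pow] at h ⊢
      rw [pow_mul, h]
      ring
    · simp only [map_pow, Finset.prod_pow, Nat.cast_pow] at hS ⊢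
      rw [← pow_mul, mul_comm, pow_mul, hS]
      ring
  · refine K0.count_link (χ' := X.sh.χ) (π' := π' ^ N) ψ φ o1 o2 hN e1 e2 e he'
      (fun n hn => ?_) (fun ρ h => ?_) hk hn
    · have h1 := X.card_ker hr (Q := (Fintype.card k ^ N) ^ n)
        (by rw [← pow_mul]; exact frobF k (mul_ne_zero hN hn)) (hX.pow n)
        (a := 1 - (π' ^ N) ^ n) (b := 1) (mul_one _)
      exact h1
    · have := hW ρ
      rw [h, one_pow] at this
      exact hq.ne (by exact_mod_cast this)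

/-- the package of an abelian variety -/
theorem pkg (hC : S_Cube k) (hB : S_Fib k) (hM : S_HM k) (hI : S_Isog k) {G τ : Type}
    [AddCommGroup G] [Fintype τ] {g : ℕ} {p : G → τ → AlgebraicClosure k} (hA : AV p g)
    (hi : ∀ y y', Par (p y) (p y') → y = y') {F : G →+ G}
    (hF : ∀ y, Par (p (F y)) (p y ^ Fintype.card k)) :
    ∃ (τ₁ : Type) (_ : Fintype τ₁) (h : G → τ₁ → AlgebraicClosure k) (av : AV h g) (s : Sh)
      (B : Fib (AlgebraicClosure k) s) (ψ : G ≃+ B.G) (π : s.Λ) (_ : s.β), Mor p h id ∧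
      Mor h p id ∧ Law h ∧ s.n = g ∧ (∀ b, B.H b = (LS.co h av.ne).pb ψ.symm) ∧
      (∀ y, ψ (F y) = π • ψ y) ∧ B.Deg ∧ (∀ ρ, ‖s.χ ρ π‖ ^ 2 = Fintype.card k) ∧
      (∀ e ≠ 0, B.TateAlg (π ^ e) (Fintype.card k ^ e)) ∧
      ∀ n, (Nat.card (fixedPoints F^[n + 1]) : ℂ) = Det.nm s.χ (1 - π ^ (n + 1)) := by
  obtain ⟨τ₁, _, h, av, hi₁, m1, m2, law, hF₁⟩ := hC p hA hi
  obtain ⟨s, B, ψ, π, b₀, hn, hH, iB, e, hD, hP, hW⟩ := hB h av hi₁ law F (hF₁ F hF)
  have hH' : ∀ b, (B.H b).pb ψ = LS.co h av.ne := fun b => by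
    rw [hH, LS.pb_pb, show (ψ.symm ∘ ψ : G → G) = id from funext ψ.symm_apply_apply, LS.pb_id]
  have hr : RegM (K0.bs h av.ne) B.H ψ := fun b => hH' b ▸ Reg.self (K0.bs h av.ne) ()
  have hr' : RegM B.H (K0.bs h av.ne) ψ.symm := fun _ => hH b₀ ▸ Reg.self B.H b₀
  have hx : ∀ u : B.G → B.G, RegM B.H B.H u → mix (K0.bs h av.ne)
      (fun _ : Fin g => (LS.co h av.ne).pb (ψ.symm ∘ u ∘ ψ)) = B.DD B.H u := fun u hu => by
    have h1 : Src (K0.bs h av.ne) g := av.src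
    rw [mix_base h1 (C := fun b => (B.H b).pb ψ) hr
      (fun i => (congrArg _ (hH' b₀)).mp (Reg.self (fun b => (B.H b).pb ψ) b₀))
      (fun _ => ((hr.comp hu).comp hr') ()) (by simp), Fib.DD,
      ← (Dense.of_surj ψ.surjective B.H).mix fun i => hu (s.sl i)]
    simp only [hH, LS.pb_pb]
    exact (mix_equiv _ (fun _ : Fin g => (LS.co h av.ne).pb (ψ.symm ∘ u ∘ ψ))
      (Fintype.equivFinOfCardEq hn)).symm
  have hk : ∀ a : s.Λ, Det.nm s.χ a ≠ 0 → ∃ d : ℕ, (d : ℂ) = Det.nm s.χ a ∧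
      Finite (K0.sm B.G a).ker ∧ Nat.card (K0.sm B.G a).ker ≤ d := fun a ha => by
    let : Module s.Λ G := ψ.module s.Λ
    obtain ⟨d, d1, d2, d3⟩ := K0.ker_bound (χ := s.χ) av hi₁
      (fun a => Qt.mor_of_reg av.ne av.ne (((hr.comp (B.regM_smul a)).comp hr') ()))
      (fun a => by
        have h1 := hx id (RegM.id _)
        rw [id_comp, show (ψ.symm ∘ ψ : G → G) = id from funext ψ.symm_apply_apply,
          LS.pb_id] at h1
        rw [h1, ← hD a, ← hx _ (B.regM_smul a)]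
        rfl) a ha
    have ee : (K0.sm G a).ker ≃ (K0.sm B.G a).ker := ψ.toEquiv.subtypeEquiv fun y => by
      change ψ.symm (a • ψ y) = 0 ↔ a • ψ y = 0
      exact ψ.symm.map_eq_zero_iff
    exact ⟨d, d1, Finite.of_equiv _ ee, Nat.card_congr ee ▸ d3⟩
  obtain ⟨h1, h2⟩ := link hM hI B π iB hD hP hW (fun m hm => by
    obtain ⟨d1, d2, -⟩ := Cnt.cnt_law av hi₁ law hm
    refine ⟨fun y => ?_, Finite.of_injective (fun x : {x : B.G // m • x = 0} =>
      (⟨ψ.symm x, by rw [← map_nsmul, x.2, map_zero]⟩ : {x : G // m • x = 0}))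
      fun _ _ c => Subtype.ext (ψ.symm.injective (congrArg Subtype.val c))⟩
    obtain ⟨x, hx⟩ := d1 (ψ.symm y)
    exact ⟨ψ x, by rw [← map_nsmul, hx, ψ.apply_symm_apply]⟩)
    hk
  refine ⟨τ₁, inferInstance, h, av, s, B, ψ, π, b₀, m1, m2, law, hn, hH, e, hD, hW, h1,
    fun n => ?_⟩
  rw [← h2 _ n.succ_ne_zero, ← K0.card_fix (F := fun t => π • t) (fun _ => rfl)]
  have key : ∀ (m : ℕ) y, ψ (F^[m] y) = (fun t => π • t)^[m] (ψ y) := fun m => by
    induction m with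
    | zero => exact fun _ => rfl
    | succ m ih => intro y; rw [iterate_succ_apply, iterate_succ_apply, ih, e]
  exact congrArg _ (Nat.card_congr (ψ.toEquiv.subtypeEquiv fun y => by
    change F^[n + 1] y = y ↔ (fun t => π • t)^[n + 1] (ψ y) = ψ y
    rw [← key, ψ.injective.eq_iff]))

/-- the statement -/
theorem top (hC : S_Cube k) (hB : S_Fib k) (hM : S_HM k) (hI : S_Isog k) {G τ : Type}
    [AddCommGroup G] [Fintype τ] {j j' : ℕ} {p : G → τ → AlgebraicClosure k}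
    (hA : AV p (j + j')) (hi : ∀ y y', Par (p y) (p y') → y = y') {F : G →+ G}
    (hF : ∀ y, Par (p (F y)) (p y ^ Fintype.card k)) : Tate p F (Fintype.card k) j j' := by
  obtain ⟨τ₁, _, h, av, s, B, ψ, π, b₀, m1, m2, -, hn, hH, e, hD, hW, hT, hN⟩ :=
    pkg hC hB hM hI hA hi hF
  refine K0.coreF (B := B) (ψ := ψ.toAddMonoidHom) (ψ' := ψ.symm.toAddMonoidHom) (m := 1) hA hi hF
    hn.symm (fun b => ?_) (fun _ => ?_) one_ne_zero (fun b => by simp) e hD hW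
    (by simpa using hT 1 one_ne_zero) hN
  · rw [hH, LS.pb_pb]
    have : (ψ.symm ∘ ψ.toAddMonoidHom : G → G) = id := funext ψ.symm_apply_apply
    rw [this]
    exact Mor.reg hA.ne av.ne m1
  · have h1 := (Mor.reg av.ne hA.ne m2).pb ψ.symm
    rw [LS.pb_pb] at h1
    exact Reg.trans (fun _ => hH b₀ ▸ Reg.self B.H b₀) h1

end Pool.Agent.Tav.Ti
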