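import Mathlib

set_option autoImplicit false

namespace Pool.Agent.Tav.Fib

open Polynomial Module
open scoped nonZeroDivisors IntermediateField

/-- a homomorphism extends to a ring that becomes the image after inverting `f` -/
theorem ext_of_pow {R A K : Type*} [CommRing R] [CommRing A] [Field K] (ι : R →+* A) (f : R)
    (h : ∀ a, ∃ (N : ℕ) (r : R), ι f ^ N * a = ι r) (η : R →+* K) (hf : η f ≠ 0)
    (hk : ∀ r, ι r = 0 → η r = 0) : ∃ ψ : A →+* K, ∀ r, ψ (ι r) = η r := by
  choose N r hr using h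
  have key : ∀ a n s, ι f ^ n * a = ι s → η (r a) / η f ^ N a = η s / η f ^ n := fun a n s e => by
    have := hk (r a * f ^ n - f ^ N a * s) (by
      simp only [map_sub, map_mul, map_pow, ← hr, ← e]; ring)
    rw [div_eq_div_iff (pow_ne_zero _ hf) (pow_ne_zero _ hf)]
    simp only [map_sub, map_mul, map_pow] at this
    linear_combination this
  refine ⟨{ toFun := fun a => η (r a) / η f ^ N a
            map_one' := by rw [key 1 0 1 (by simp)]; simp
            map_zero' := by rw [key 0 0 0 (by simp)]; simp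
            map_mul' := fun a b => ?_
            map_add' := fun a b => ?_ }, fun s => ?_⟩
  · rw [key (a * b) (N a + N b) (r a * r b) (by rw [map_mul, ← hr, ← hr]; ring), map_mul, pow_add,
      div_mul_div_comm]
  · rw [key (a + b) (N a + N b) (r a * f ^ N b + f ^ N a * r b) (by
      simp only [map_add, map_mul, map_pow, ← hr]; ring),
      div_add_div _ _ (pow_ne_zero _ hf) (pow_ne_zero _ hf)]
    simp [pow_add]
  · exact (key (ι s) 0 s (by simp)).trans (by simp)

variable {B A : Type*} [CommRing B] [IsDomain B] [CommRing A] [IsDomain A] [Algebra B A]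

theorem clear (q : (FractionRing B)[X]) :
    ∃ e : B, e ≠ 0 ∧ ∃ Q : B[X], Q.map (algebraMap B _) = C (algebraMap B _ e) * q := by
  obtain ⟨e, he, h⟩ := IsLocalization.integerNormalization_spec B⁰ q
  exact ⟨e, nonZeroDivisors.ne_zero he, _, by rw [h, ← algebraMap_smul (FractionRing B), smul_eq_C_mul]⟩

attribute [local instance] FractionRing.liftAlgebra

variable [FaithfulSMul B A] [Algebra.FiniteType B A] [Algebra.IsAlgebraic B A]

theorem fin_frac : FiniteDimensional (FractionRing B) (FractionRing A) := by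
  have h1 : Algebra.IsAlgebraic (FractionRing B) (FractionRing A) :=
    Algebra.IsPushout.isAlgebraic' B A (FractionRing B) (FractionRing A)
  have h2 : Algebra.FiniteType (FractionRing B) (FractionRing A) :=
    Algebra.FiniteType.equiv inferInstance
      (Algebra.IsPushout.equiv B (FractionRing B) A (FractionRing A))
  exact Algebra.IsIntegral.finite

/-- a primitive element with a monic separable equation -/
theorem exists_prim [CharZero B] : ∃ (ξ : A) (P : B[X]), P.Monic ∧ P.natDegree = finrank B A ∧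
    aeval ξ P = 0 ∧ (∀ Q : B[X], aeval ξ Q = 0 → P ∣ Q) ∧
    (∀ a : A, ∃ e : B, e ≠ 0 ∧ ∃ Q : B[X], algebraMap B A e * a = aeval ξ Q) ∧
    ∃ δ : B, δ ≠ 0 ∧ ∃ U V : B[X], U * P + V * derivative P = C δ := by
  have := fin_frac (B := B) (A := A)
  set F := FractionRing B
  set L := FractionRing A
  have iF : Function.Injective (algebraMap B F) := IsFractionRing.injective _ _
  have iL : Function.Injective (algebraMap A L) := IsFractionRing.injective _ _
  have ev : ∀ (ξ : A) (Q : B[X]), aeval (algebraMap A L ξ) (Q.map (algebraMap B F)) =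
      algebraMap A L (aeval ξ Q) := fun ξ Q => by
    rw [aeval_map_algebraMap, aeval_algebraMap_apply]
  have sc : ∀ (x : L) (c : F), c ≠ 0 → F⟮x⟯ = ⊤ → F⟮c • x⟯ = ⊤ := fun x c hc h => by
    rw [eq_top_iff, ← h, IntermediateField.adjoin_simple_le_iff]
    simpa [hc] using F⟮c • x⟯.smul_mem (IntermediateField.mem_adjoin_simple_self F (c • x)) (x := c⁻¹)
  obtain ⟨α, hα⟩ := Field.exists_primitive_element F L
  obtain ⟨⟨a, _, b, hb, rfl⟩, hab⟩ := IsLocalization.surj (Algebra.algebraMapSubmonoid A B⁰) α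
  have h1 : F⟮algebraMap A L a⟯ = ⊤ := by
    have := sc α (algebraMap B F b) (by simpa using nonZeroDivisors.ne_zero hb) hα
    rwa [Algebra.smul_def, ← IsScalarTower.algebraMap_apply, IsScalarTower.algebraMap_apply B A L,
      mul_comm, hab] at this
  obtain ⟨c, hc, P0, hP0⟩ := clear (minpoly F (algebraMap A L a))
  have hc' : algebraMap B F c ≠ 0 := by simpa using hc
  have hm := minpoly.monic (Algebra.IsIntegral.isIntegral (R := F) (algebraMap A L a))
  have l0 : P0.leadingCoeff = c := iF (by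
    rw [← leadingCoeff_map_of_injective iF, hP0, leadingCoeff_mul, leadingCoeff_C, hm.leadingCoeff,
      mul_one])
  have n0 : P0 ≠ 0 := fun h => hc (by rw [← l0, h, leadingCoeff_zero])
  have d0 : P0.natDegree = finrank F L := by
    rw [← natDegree_map_eq_of_injective iF, hP0, natDegree_C_mul hc',
      (Field.primitive_element_iff_minpoly_natDegree_eq F _).1 h1]
  have a0 : aeval a P0 = 0 := iL (by rw [← ev, hP0]; simp)
  obtain ⟨ξ, hξ⟩ : ∃ ξ, ξ = algebraMap B A c * a := ⟨_, rfl⟩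
  have h2 : F⟮algebraMap A L ξ⟯ = ⊤ := by
    have := sc _ _ hc' h1
    rwa [Algebra.smul_def, ← IsScalarTower.algebraMap_apply, IsScalarTower.algebraMap_apply B A L,
      ← map_mul, ← hξ] at this
  have hi := Algebra.IsIntegral.isIntegral (R := F) (algebraMap A L ξ)
  obtain ⟨P, hP⟩ : ∃ P, P = integralNormalization P0 := ⟨_, rfl⟩
  have m1 : P.Monic := hP ▸ monic_integralNormalization n0
  have d1 : P.natDegree = finrank F L := by rw [hP, natDegree_integralNormalization, d0]
  have a1 : aeval ξ P = 0 := by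
    rw [hP, hξ, ← l0]
    exact integralNormalization_aeval_eq_zero a0 fun x hx =>
      FaithfulSMul.algebraMap_injective B A (by simpa using hx)
  have d2 := (Field.primitive_element_iff_minpoly_natDegree_eq F _).1 h2
  have e1 : P.map (algebraMap B F) = minpoly F (algebraMap A L ξ) :=
    (eq_of_monic_of_dvd_of_natDegree_le (minpoly.monic hi) (m1.map _)
      (minpoly.dvd _ _ (by rw [ev, a1, map_zero]))
      (by rw [m1.natDegree_map, d1, d2]))
  refine ⟨ξ, P, m1, by rw [d1, IsFractionRing.finrank_eq B F A L], a1, fun Q hQ => ?_,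
    fun x => ?_, ?_⟩
  · rw [← map_dvd_map _ iF m1, e1]
    exact minpoly.dvd _ _ (by rw [ev, hQ, map_zero])
  · have : algebraMap A L x ∈ F⟮algebraMap A L ξ⟯.toSubalgebra := by rw [h2]; trivial
    rw [IntermediateField.adjoin_simple_toSubalgebra_of_isAlgebraic hi.isAlgebraic,
      Algebra.adjoin_singleton_eq_range_aeval] at this
    obtain ⟨q, hq⟩ := this
    obtain ⟨e, he, Q, hQ⟩ := clear q
    refine ⟨e, he, Q, iL ?_⟩
    rw [← ev, hQ, map_mul, map_mul, aeval_C, ← IsScalarTower.algebraMap_apply,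
      ← IsScalarTower.algebraMap_apply, ← hq]
    rfl
  · obtain ⟨u, v, huv⟩ : (minpoly F (algebraMap A L ξ)).Separable :=
      Algebra.IsSeparable.isSeparable F _
    obtain ⟨e, he, U, hU⟩ := clear u
    obtain ⟨e', he', V, hV⟩ := clear v
    refine ⟨e * e', mul_ne_zero he he', C e' * U, C e * V, map_injective _ iF ?_⟩
    simp only [Polynomial.map_add, Polynomial.map_mul, map_C, ← derivative_map, e1, map_mul]
    rw [hU, hV]
    linear_combination C (algebraMap B F e) * C (algebraMap B F e') * huv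

/-- in characteristic zero the general fibre has as many points as the rank -/
theorem card_fibre [CharZero B] (K : Type*) [Field K] [IsAlgClosed K] :
    ∃ f : B, f ≠ 0 ∧ ∀ χ : B →+* K, χ f ≠ 0 →
      {ψ : A →+* K | ∀ b, ψ (algebraMap B A b) = χ b}.encard = finrank B A := by
  classical
  obtain ⟨ξ, P, hm, hd, h0, hk, hs, δ, hδ, U, V, hUV⟩ := exists_prim (B := B) (A := A)
  obtain ⟨s, hs'⟩ := Algebra.FiniteType.out (R := B) (A := A)
  choose e he Q hQ using hs
  obtain ⟨f, hf⟩ : ∃ f, f = ∏ a ∈ s, e a := ⟨_, rfl⟩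
  have hp : ∀ a : A, ∃ (N : ℕ) (r : B[X]), (aeval ξ).toRingHom (C f) ^ N * a =
      (aeval ξ).toRingHom r := by
    intro a
    have ha : a ∈ Algebra.adjoin B (s : Set A) := hs' ▸ Algebra.mem_top
    induction ha using Algebra.adjoin_induction with
    | mem a ha =>
      refine ⟨1, C (∏ b ∈ s.erase a, e b) * Q a, ?_⟩
      rw [hf, ← Finset.prod_erase_mul s e ha]
      simp [← hQ, mul_assoc]
    | algebraMap b => exact ⟨0, C b, by simp⟩
    | add a b _ _ ha hb =>
      obtain ⟨N, r, h1⟩ := ha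
      obtain ⟨N', r', h2⟩ := hb
      exact ⟨N + N', r * C f ^ N' + C f ^ N * r', by
        simp only [map_add, map_mul, map_pow, ← h1, ← h2]; ring⟩
    | mul a b _ _ ha hb =>
      obtain ⟨N, r, h1⟩ := ha
      obtain ⟨N', r', h2⟩ := hb
      exact ⟨N + N', r * r', by simp only [map_mul, ← h1, ← h2]; ring⟩
  refine ⟨f * δ, mul_ne_zero (hf ▸ Finset.prod_ne_zero_iff.2 fun a _ => he a) hδ, fun χ hχ => ?_⟩
  rw [map_mul, mul_ne_zero_iff] at hχ
  have ev : ∀ ψ : A →+* K, (∀ b, ψ (algebraMap B A b) = χ b) → ∀ r : B[X],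
      ψ (aeval ξ r) = (r.map χ).eval (ψ ξ) := fun ψ h r => by
    rw [eval_map, aeval_def, hom_eval₂]
    congr 1
    exact RingHom.ext h
  have hsep : (P.map χ).Separable := ⟨C (χ δ)⁻¹ * U.map χ, C (χ δ)⁻¹ * V.map χ, by
    rw [mul_assoc, mul_assoc, ← mul_add, derivative_map, ← Polynomial.map_mul, ← Polynomial.map_mul,
      ← Polynomial.map_add, hUV, map_C, ← C_mul, inv_mul_cancel₀ hχ.2, C_1]⟩
  have hb : Set.BijOn (fun ψ : A →+* K => ψ ξ) {ψ | ∀ b, ψ (algebraMap B A b) = χ b}
      (P.map χ).roots.toFinset := by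
    refine ⟨fun ψ h => ?_, fun ψ h ψ' h' e => RingHom.ext fun a => ?_, fun y hy => ?_⟩
    · simp only [Finset.mem_coe, Multiset.mem_toFinset, mem_roots (hm.map χ).ne_zero, IsRoot.def]
      rw [← ev ψ h, h0, map_zero]
    · obtain ⟨N, r, hr⟩ := hp a
      have e1 := congrArg ψ hr
      have e2 := congrArg ψ' hr
      simp only [AlgHom.toRingHom_eq_coe, RingHom.coe_coe, aeval_C, map_mul, map_pow] at e1 e2
      rw [ev ψ h, h] at e1
      rw [ev ψ' h', h', ← show ψ ξ = ψ' ξ from e, ← e1] at e2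
      exact (mul_left_cancel₀ (pow_ne_zero _ hχ.1) e2).symm
    · simp only [Finset.mem_coe, Multiset.mem_toFinset, mem_roots (hm.map χ).ne_zero,
        IsRoot.def, eval_map] at hy
      obtain ⟨ψ, hψ⟩ := ext_of_pow _ _ hp (eval₂RingHom χ y) (by simpa using hχ.1) fun r hr => by
        obtain ⟨t, rfl⟩ := hk r hr
        simp [hy]
      exact ⟨ψ, fun b => by simpa using hψ (C b), by simpa using hψ X⟩
  rw [← hb.injOn.encard_image, hb.image_eq, Set.encard_coe_eq_coe_finsetCard,
    Multiset.toFinset_card_of_nodup (nodup_roots hsep), ← hd,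
    ← (IsAlgClosed.splits (P.map χ)).natDegree_eq_card_roots, hm.natDegree_map]

theorem inf_nonroots {s K : Type*} [Nonempty s] [Field K] [Infinite K] {p : MvPolynomial s K}
    (hp : p ≠ 0) : {v : s → K | MvPolynomial.eval v p ≠ 0}.Infinite := fun h => by
  obtain ⟨i⟩ := ‹Nonempty s›
  have : p * ∏ v ∈ h.toFinset, (MvPolynomial.X i - MvPolynomial.C (v i)) = 0 :=
    MvPolynomial.funext fun v => by
      by_cases hv : MvPolynomial.eval v p = 0
      · simp [hv]
      · rw [map_mul, map_prod, Finset.prod_eq_zero (h.mem_toFinset.2 hv) (by simp)]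
        simp
  refine mul_ne_zero hp (Finset.prod_ne_zero_iff.2 fun v _ e => ?_) this
  simpa using congrArg (MvPolynomial.eval fun _ => v i + 1) e

theorem card_le {κ : Type*} [Fintype κ] {u : κ → A} (hu : LinearIndependent B u) :
    Fintype.card κ ≤ finrank B A := by
  have := fin_frac (B := B) (A := A)
  have h := Algebra.IsAlgebraic.lift_rank_of_isFractionRing B (FractionRing B) A (FractionRing A)
  have h2 : Module.rank B A < Cardinal.aleph0 := by
    rw [← Cardinal.lift_lt_aleph0, ← h, Cardinal.lift_lt_aleph0]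
    exact rank_lt_aleph0 _ _
  have h3 := hu.cardinal_lift_le_rank
  rw [← Cardinal.cast_toNat_of_lt_aleph0 h2] at h3
  simpa [finrank] using h3

omit [Algebra.IsAlgebraic B A] in
/-- independent elements bound the number of points of the general fibre from below -/
theorem le_card_fibre [CharZero B] (K : Type*) [Field K] [IsAlgClosed K] {κ : Type*} [Fintype κ]
    {u : κ → A} (hu : LinearIndependent B u) : ∃ f : B, f ≠ 0 ∧ ∀ χ : B →+* K, χ f ≠ 0 →
      (Fintype.card κ : ℕ∞) ≤ {ψ : A →+* K | ∀ b, ψ (algebraMap B A b) = χ b}.encard := by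
  by_cases ha : Algebra.IsAlgebraic B A
  · obtain ⟨f, hf, h⟩ := card_fibre (B := B) (A := A) K
    exact ⟨f, hf, fun χ hχ => by rw [h χ hχ]; exact_mod_cast card_le hu⟩
  obtain ⟨s, hs⟩ := exists_isTranscendenceBasis B A
  have := hs.nonempty_iff_transcendental.2 (Algebra.transcendental_iff_not_isAlgebraic.2 ha)
  have := hs.isAlgebraic
  set B' := Algebra.adjoin B (Set.range ((↑) : s → A))
  have : Algebra.FiniteType B' A := .of_restrictScalars_finiteType B B' A
  have : CharZero B' := charZero_of_injective_algebraMap (R := B) fun x y e =>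
    FaithfulSMul.algebraMap_injective B A (congrArg Subtype.val e)
  obtain ⟨f, hf, h⟩ := card_fibre (B := B') (A := A) K
  obtain ⟨p, rfl⟩ := hs.1.aevalEquiv.surjective f
  obtain ⟨d, hd⟩ := MvPolynomial.exists_coeff_ne_zero (p := p) (fun e => hf (by simp [e]))
  refine ⟨_, hd, fun χ hχ => ?_⟩
  have h1 := inf_nonroots (p := p.map χ) fun e => hχ (by
    rw [← MvPolynomial.coeff_map, e, MvPolynomial.coeff_zero])
  have h2 : ∀ v ∈ {v : s → K | MvPolynomial.eval v (p.map χ) ≠ 0}, ∃ ψ : A →+* K,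
      (∀ b, ψ (algebraMap B A b) = χ b) ∧ (fun i : s => ψ i) = v := fun v hv => by
    have h3 := h ((MvPolynomial.eval₂Hom χ v).comp hs.1.aevalEquiv.symm.toRingEquiv.toRingHom)
      (by simpa [MvPolynomial.eval_map] using hv)
    have h4 := card_le (B := B') (u := fun _ : Unit => (1 : A)) (by simp)
    obtain ⟨ψ, hψ⟩ := Set.encard_pos.1 (h3.symm ▸ Nat.cast_pos.2 h4 :)
    refine ⟨ψ, fun b => ?_, funext fun i => ?_⟩
    · simpa using hψ (algebraMap B B' b)
    · simpa using hψ (hs.1.aevalEquiv (MvPolynomial.X i))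
  have h5 : {ψ : A →+* K | ∀ b, ψ (algebraMap B A b) = χ b}.Infinite :=
    Set.Infinite.of_image (fun (ψ : A →+* K) (i : s) => ψ i) (h1.mono fun v hv => h2 v hv)
  rw [h5.encard_eq]
  exact le_top

section Proj

open MvPolynomial

variable {K σ ι : Type*} [Field K] [Fintype ι] [DecidableEq ι] {β : σ → ι}

/-- scaling the blocks multiplies a form by a monomial -/
theorem scale {R : Type*} [CommRing R] (c : K →+* R) (x : σ → R) (l : ι → R) {d : ι → ℕ}
    {F : MvPolynomial σ K} (hF : F.IsWeightedHomogeneous (fun v => (Pi.single (β v) 1 : ι → ℕ)) d) :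
    eval₂Hom c (fun v => l (β v) * x v) F = (∏ i, l i ^ d i) * eval₂Hom c x F := by
  rw [F.as_sum, map_sum, map_sum, Finset.mul_sum]
  refine Finset.sum_congr rfl fun m hm => ?_
  have h : ∀ m : σ →₀ ℕ, (m.prod fun v k => l (β v) ^ k) =
      ∏ i, l i ^ Finsupp.weight (fun v => (Pi.single (β v) 1 : ι → ℕ)) m i := fun m => by
    induction m using Finsupp.induction_linear with
    | zero => simp
    | add a b ha hb =>
      rw [Finsupp.prod_add_index' (by simp) (fun _ _ _ => pow_add _ _ _), ha, hb]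
      simp [pow_add, Finset.prod_mul_distrib]
    | single v k =>
      rw [Finsupp.prod_single_index (by simp), Finsupp.weight_single, Finset.prod_eq_single (β v)]
      · simp
      · intro i _ hi
        simp [hi]
      · simp
  rw [eval₂Hom_monomial, eval₂Hom_monomial, ← hF (mem_support_iff.1 hm), ← h]
  simp only [mul_pow, Finsupp.prod_mul]
  ring

theorem scale_ker {R : Type*} [CommRing R] (c : K →+* R) (x : σ → R) (l : ι → R)
    {P : Ideal (MvPolynomial σ K)} (hP : ∀ p ∈ P, ∀ d, weightedHomogeneousComponent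
      (fun v => (Pi.single (β v) 1 : ι → ℕ)) d p ∈ P) (hx : ∀ p ∈ P, eval₂Hom c x p = 0) :
    ∀ p ∈ P, eval₂Hom c (fun v => l (β v) * x v) p = 0 := fun p hp => by
  rw [← sum_weightedHomogeneousComponent (fun v => (Pi.single (β v) 1 : ι → ℕ)) p,
    finsum_eq_sum _ (weightedHomogeneousComponent_finsupp p), map_sum]
  refine Finset.sum_eq_zero fun d _ => ?_
  rw [scale c x l (weightedHomogeneousComponent_isWeightedHomogeneous d p), hx _ (hP p hp d),
    mul_zero]

/-- homogenisation with the chosen coordinates -/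
theorem homog (T : Set ι) {s : ι → σ} (hs : ∀ i, β (s i) = i) (p : MvPolynomial σ K)
    (hp : p ∈ supported K {v | β v ∈ T}) : ∃ a : ι → ℕ, (∀ i ∉ T, a i = 0) ∧
      ∀ b : ι → ℕ, (∀ i ∉ T, b i = 0) → ∃ F ∈ supported K {v | β v ∈ T},
        F.IsWeightedHomogeneous (fun v => (Pi.single (β v) 1 : ι → ℕ)) (a + b) ∧
        F - p ∈ Ideal.span (Set.range fun i : T => (X (s i) - 1 : MvPolynomial σ K)) := by
  set N := Ideal.span (Set.range fun i : T => (X (s i) - 1 : MvPolynomial σ K))
  have pad : ∀ b : ι → ℕ, (∀ i ∉ T, b i = 0) → ∃ F ∈ supported K {v | β v ∈ T},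
      F.IsWeightedHomogeneous (fun v => (Pi.single (β v) 1 : ι → ℕ)) b ∧ F - 1 ∈ N := by
    intro b hb
    refine ⟨∏ i, X (s i) ^ b i, prod_mem fun i _ => ?_, ?_, ?_⟩
    · by_cases hi : i ∈ T
      · exact pow_mem ((X_mem_supported (R := K) (s := {v | β v ∈ T})).2 (show β (s i) ∈ T by rwa [hs])) _
      · simp [hb i hi]
    · have := IsWeightedHomogeneous.prod Finset.univ (fun i => (X (s i) ^ b i : MvPolynomial σ K))
        (fun i => b i • (Pi.single (β (s i)) 1 : ι → ℕ))
        (w := fun v => (Pi.single (β v) 1 : ι → ℕ)) fun i _ => (isWeightedHomogeneous_X K _ _).pow _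
      rwa [show (∑ i, b i • (Pi.single (β (s i)) 1 : ι → ℕ)) = b from by
        ext j; simp [hs, Pi.single_apply]] at this
    · rw [← Ideal.Quotient.eq, map_prod, map_one]
      refine Finset.prod_eq_one fun i _ => ?_
      by_cases hi : i ∈ T
      · rw [map_pow, show Ideal.Quotient.mk N (X (s i)) = Ideal.Quotient.mk N 1 from
          Ideal.Quotient.eq.2 (Ideal.subset_span ⟨⟨i, hi⟩, rfl⟩), map_one, one_pow]
      · simp [hb i hi]
  have one : ∀ (q : MvPolynomial σ K) (a : ι → ℕ), q ∈ supported K {v | β v ∈ T} →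
      q.IsWeightedHomogeneous (fun v => (Pi.single (β v) 1 : ι → ℕ)) a →
      ∀ b : ι → ℕ, (∀ i ∉ T, b i = 0) → ∃ F ∈ supported K {v | β v ∈ T},
        F.IsWeightedHomogeneous (fun v => (Pi.single (β v) 1 : ι → ℕ)) (a + b) ∧ F - q ∈ N := by
    intro q a h1 h2 b hb
    obtain ⟨F, f1, f2, f3⟩ := pad b hb
    exact ⟨q * F, mul_mem h1 f1, h2.mul f2, by
      rw [← mul_sub_one]; exact N.mul_mem_left _ f3⟩
  rw [supported_eq_adjoin_X] at hp
  induction hp using Algebra.adjoin_induction with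
  | mem q hq =>
    obtain ⟨v, hv, rfl⟩ := hq
    exact ⟨_, fun i hi => Pi.single_eq_of_ne (fun e : i = β v => hi (by rw [e]; exact hv)) _,
      one _ _ ((X_mem_supported (R := K)).2 hv) (isWeightedHomogeneous_X K _ _)⟩
  | algebraMap c =>
    exact ⟨0, fun _ _ => rfl, one _ _ (Subalgebra.algebraMap_mem _ c) (isWeightedHomogeneous_C _ c)⟩
  | add p q _ _ hp hq =>
    obtain ⟨a, a1, a2⟩ := hp
    obtain ⟨a', b1, b2⟩ := hq
    refine ⟨a + a', fun i hi => by simp [a1 i hi, b1 i hi], fun b hb => ?_⟩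
    obtain ⟨F, f1, f2, f3⟩ := a2 (a' + b) fun i hi => by simp [b1 i hi, hb i hi]
    obtain ⟨G, g1, g2, g3⟩ := b2 (a + b) fun i hi => by simp [a1 i hi, hb i hi]
    rw [← add_assoc] at f2 g2
    rw [add_comm a' a] at g2
    exact ⟨F + G, add_mem f1 g1, f2.add g2, by rw [add_sub_add_comm]; exact add_mem f3 g3⟩
  | mul p q _ _ hp hq =>
    obtain ⟨a, a1, a2⟩ := hp
    obtain ⟨a', b1, b2⟩ := hq
    refine ⟨a + a', fun i hi => by simp [a1 i hi, b1 i hi], fun b hb => ?_⟩
    obtain ⟨F, f1, f2, f3⟩ := a2 0 fun _ _ => rfl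
    obtain ⟨G, g1, g2, g3⟩ := b2 b hb
    refine ⟨F * G, mul_mem f1 g1, by simpa [add_assoc] using f2.mul g2, ?_⟩
    rw [show F * G - p * q = (F - p) * G + p * (G - q) by ring]
    exact add_mem (N.mul_mem_right _ f3) (N.mul_mem_left _ g3)

omit [Fintype ι] [DecidableEq ι] in
theorem eq_of_sub {R : Type*} [CommRing R] {T : Set ι} {s : ι → σ} (φ : MvPolynomial σ K →+* R)
    (h : ∀ i ∈ T, φ (X (s i)) = 1) {F p : MvPolynomial σ K}
    (e : F - p ∈ Ideal.span (Set.range fun i : T => (X (s i) - 1 : MvPolynomial σ K))) :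
    φ F = φ p := by
  rw [← sub_eq_zero, ← map_sub]
  exact (Ideal.span_le (I := RingHom.ker φ)).2 (by rintro _ ⟨i, rfl⟩; simp [h i i.2]) e

/-- forms that are independent over the forms of the blocks in `T` bound from below the number of
points of the general fibre of the projection to the blocks in `T` -/
theorem le_card_proj [IsAlgClosed K] [CharZero K] [Finite σ] {P : Ideal (MvPolynomial σ K)}
    [P.IsPrime] (hP : ∀ p ∈ P, ∀ d, weightedHomogeneousComponent
      (fun v => (Pi.single (β v) 1 : ι → ℕ)) d p ∈ P) (T : Set ι) {s : ι → σ}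
    (hs : ∀ i, β (s i) = i) (hs' : ∀ i, X (s i) ∉ P) {κ : Type*} [Fintype κ]
    {u : κ → MvPolynomial σ K} {m : ι → ℕ}
    (hu : ∀ j, (u j).IsWeightedHomogeneous (fun v => (Pi.single (β v) 1 : ι → ℕ)) m)
    (hi : ∀ a : ι → ℕ, (∀ i ∉ T, a i = 0) → ∀ g : κ → MvPolynomial σ K,
      (∀ j, (g j).IsWeightedHomogeneous (fun v => (Pi.single (β v) 1 : ι → ℕ)) a) →
      ∑ j, g j * u j ∈ P → ∀ j, g j ∈ P) :
    ∃ (a : ι → ℕ) (f : MvPolynomial σ K), (∀ i ∉ T, a i = 0) ∧
      f.IsWeightedHomogeneous (fun v => (Pi.single (β v) 1 : ι → ℕ)) a ∧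
      f ∈ supported K {v | β v ∈ T} ∧ f ∉ P ∧ ∀ η : σ → K,
        (∀ p ∈ P, p ∈ supported K {v | β v ∈ T} → eval η p = 0) → eval η f ≠ 0 →
        (Fintype.card κ : ℕ∞) ≤ {ξ : σ → K | (∀ p ∈ P, eval ξ p = 0) ∧
          (∀ v, β v ∈ T → ξ v = η v) ∧ ∀ i ∉ T, ξ (s i) = 1}.encard := by
  classical
  set L := FractionRing (MvPolynomial σ K ⧸ P)
  let π : MvPolynomial σ K →+* L := (algebraMap _ L).comp (Ideal.Quotient.mk P)
  have hπ : ∀ p, π p = 0 ↔ p ∈ P := fun p => by simp [π, Ideal.Quotient.eq_zero_iff_mem]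
  have eπ : ∀ p, eval₂Hom (π.comp C) (fun v => π (X v)) p = π p := fun p => by
    exact (map_mvPolynomial_eq_eval₂ π p).symm
  let Θ := eval₂Hom (π.comp C) fun v => (π (X (s (β v))))⁻¹ * π (X v)
  have hΘ : ∀ {d F}, IsWeightedHomogeneous (fun v => (Pi.single (β v) 1 : ι → ℕ)) F d →
      (Θ F = 0 ↔ F ∈ P) := fun {d F} h => by
    rw [scale _ _ (fun i => (π (X (s i)))⁻¹) h, eπ, mul_eq_zero, hπ, or_iff_right]
    exact Finset.prod_ne_zero_iff.2 fun i _ => pow_ne_zero _ (inv_ne_zero (mt (hπ _).1 (hs' i)))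
  have Θ1 : ∀ i, Θ (X (s i)) = 1 := fun i => by
    simp only [Θ, eval₂Hom_X', hs]
    exact inv_mul_cancel₀ (mt (hπ _).1 (hs' i))
  set Q := RingHom.ker Θ
  have : Q.IsPrime := RingHom.ker_isPrime Θ
  let ρ : MvPolynomial {v | β v ∈ T} K →ₐ[K] MvPolynomial σ K := rename Subtype.val
  have hρ : ∀ g, ρ g ∈ supported K {v | β v ∈ T} := fun g => by
    rw [supported_eq_range_rename]; exact ⟨g, rfl⟩
  let := (Ideal.quotientMap Q ρ.toRingHom le_rfl).toAlgebra
  have : FaithfulSMul (MvPolynomial {v | β v ∈ T} K ⧸ Q.comap ρ.toRingHom) (_ ⧸ Q) :=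
    (faithfulSMul_iff_algebraMap_injective _ _).2 Ideal.quotientMap_injective
  have hm : ∀ g, algebraMap (MvPolynomial {v | β v ∈ T} K ⧸ Q.comap ρ.toRingHom) (_ ⧸ Q)
      (Ideal.Quotient.mk _ g) = Ideal.Quotient.mk Q (ρ g) := fun g => rfl
  have : IsScalarTower K (MvPolynomial {v | β v ∈ T} K ⧸ Q.comap ρ.toRingHom)
      (MvPolynomial σ K ⧸ Q) := by
    refine IsScalarTower.of_algebraMap_eq (R := K)
      (S := MvPolynomial {v | β v ∈ T} K ⧸ Q.comap ρ.toRingHom) (A := MvPolynomial σ K ⧸ Q)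
      fun c => ?_
    have := hm (algebraMap K _ c)
    rw [ρ.commutes c] at this
    exact this.symm
  have : Algebra.FiniteType (MvPolynomial {v | β v ∈ T} K ⧸ Q.comap ρ.toRingHom) (_ ⧸ Q) :=
    .of_restrictScalars_finiteType K _ _
  have : CharZero (MvPolynomial {v | β v ∈ T} K ⧸ Q.comap ρ.toRingHom) :=
    charZero_of_injective_algebraMap (algebraMap K _).injective
  have hl : LinearIndependent (MvPolynomial {v | β v ∈ T} K ⧸ Q.comap ρ.toRingHom)
      fun j => Ideal.Quotient.mk Q (u j) := by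
    refine Fintype.linearIndependent_iff.2 fun b hb j => ?_
    choose g hg using fun j => Ideal.Quotient.mk_surjective (b j)
    choose a a1 a2 using fun j => homog T hs _ (hρ (g j))
    choose F f1 f2 f3 using fun j => a2 j (∑ k ∈ Finset.univ.erase j, a k) fun i hi => by
      simp [a1 _ i hi]
    simp only [Finset.add_sum_erase _ _ (Finset.mem_univ _)] at f2
    have e : ∀ j, Θ (F j) = Θ (ρ (g j)) := fun j => eq_of_sub Θ (fun i _ => Θ1 i) (f3 j)
    have h1 : ∑ j, ρ (g j) * u j ∈ Q := by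
      rw [← Ideal.Quotient.eq_zero_iff_mem, ← hb, map_sum]
      exact Finset.sum_congr rfl fun j _ => by rw [← hg, map_mul]; rfl
    have h2 := hi _ (fun i hi => by simp [a1 _ i hi]) F f2 ((hΘ (IsWeightedHomogeneous.sum _ _ _
      fun j _ => (f2 j).mul (hu j))).1 (by
        rw [← RingHom.mem_ker.1 h1]; simp only [map_sum, map_mul, e])) j
    rw [← hg, Ideal.Quotient.eq_zero_iff_mem]
    exact (e j).symm.trans ((hΘ (f2 j)).2 h2)
  obtain ⟨f, hf, h⟩ := le_card_fibre K hl
  obtain ⟨g, rfl⟩ := Ideal.Quotient.mk_surjective f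
  obtain ⟨a, a1, a2⟩ := homog T hs _ (mul_mem (hρ g) (prod_mem (t := Finset.univ)
    (f := fun i : T => (1 : MvPolynomial σ K)) fun _ _ => one_mem _))
  obtain ⟨F, f1, f2, f3⟩ := a2 0 fun _ _ => rfl
  rw [Finset.prod_const_one, mul_one] at f3
  have hF : F ∉ P := fun e => hf (Ideal.Quotient.eq_zero_iff_mem.2
    ((eq_of_sub Θ (fun i _ => Θ1 i) f3).symm.trans ((hΘ f2).2 e)))
  refine ⟨_, F * ∏ i : T, X (s i), fun i hi => ?_, f2.mul (IsWeightedHomogeneous.prod _ _ _
    fun i _ => isWeightedHomogeneous_X K _ _), mul_mem f1 (prod_mem fun i _ =>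
      (X_mem_supported (R := K)).2 (show β (s i) ∈ T from (hs i).symm ▸ i.2)), fun e => ?_, fun η h1 h2 => ?_⟩
  · have : ∀ j : T, (j : ι) ≠ i := fun j e => hi (e ▸ j.2)
    simp [a1 i hi, hs, this]
  · rcases ‹P.IsPrime›.mem_or_mem e with e | e
    · exact hF e
    · obtain ⟨i, -, e⟩ := Ideal.IsPrime.prod_mem_iff.1 e
      exact hs' _ e
  rw [map_mul, mul_ne_zero_iff, map_prod, Finset.prod_ne_zero_iff] at h2
  have h3 : ∀ i ∈ T, η (s i) ≠ 0 := fun i hi => by simpa using h2.2 ⟨i, hi⟩ (Finset.mem_univ _)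
  let l : ι → K := fun i => if i ∈ T then η (s i) else 1
  have l0 : ∀ i, l i ≠ 0 := fun i => by
    by_cases hi : i ∈ T <;> simp [l, hi, h3]
  let φ := eval₂Hom (RingHom.id K) fun v => (l (β v))⁻¹ * η v
  have φ1 : ∀ i ∈ T, φ (X (s i)) = 1 := fun i hi => by simp [φ, l, hs, hi, h3 i hi]
  have h4 : ∀ p ∈ Q.comap ρ.toRingHom, (φ.comp ρ.toRingHom) p = 0 := fun p hp => by
    obtain ⟨a, -, a2⟩ := homog T hs _ (hρ p)
    obtain ⟨G, g1, g2, g3⟩ := a2 0 fun _ _ => rfl
    refine (eq_of_sub φ φ1 g3).symm.trans ?_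
    rw [scale _ _ (fun i => (l i)⁻¹) g2, show eval₂Hom (RingHom.id K) η G = 0 from
      h1 G ((hΘ g2).1 ((eq_of_sub Θ (fun i _ => Θ1 i) g3).trans hp)) g1, mul_zero]
  refine (h (Ideal.Quotient.lift _ _ h4) ?_).trans (Set.encard_le_encard_of_injOn
    (f := fun ψ v => l (β v) * ψ (Ideal.Quotient.mk Q (X v))) (fun ψ hψ => ?_)
    fun ψ hψ ψ' hψ' e => ?_)
  · rw [Ideal.Quotient.lift_mk]
    refine fun e => h2.1 ?_
    have := (eq_of_sub φ φ1 f3).trans e
    rw [scale _ _ (fun i => (l i)⁻¹) f2, mul_eq_zero] at this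
    exact this.resolve_left (Finset.prod_ne_zero_iff.2 fun i _ => pow_ne_zero _ (inv_ne_zero (l0 i)))
  · have hc : ∀ c, ψ (Ideal.Quotient.mk Q (C c)) = c := fun c => by
      have := hψ (Ideal.Quotient.mk _ (C c))
      rw [hm, Ideal.Quotient.lift_mk] at this
      simpa [φ, ρ] using this
    refine ⟨scale_ker (RingHom.id K) _ l hP fun p hp => ?_, fun v hv => ?_, fun i hi => ?_⟩
    · have : eval₂Hom (RingHom.id K) (fun v => ψ (Ideal.Quotient.mk Q (X v))) =
          ψ.comp (Ideal.Quotient.mk Q) := ringHom_ext (by simp [hc]) (by simp)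
      rw [this, RingHom.comp_apply, Ideal.Quotient.eq_zero_iff_mem.2, map_zero]
      exact scale_ker _ _ (fun i => (π (X (s i)))⁻¹) hP (fun p hp => by rw [eπ, hπ]; exact hp) p hp
    · have := hψ (Ideal.Quotient.mk _ (X ⟨v, hv⟩))
      rw [hm, Ideal.Quotient.lift_mk] at this
      simp only [φ, ρ, AlgHom.toRingHom_eq_coe, RingHom.coe_coe, rename_X, RingHom.comp_apply,
        eval₂Hom_X'] at this
      simp only [this, mul_inv_cancel_left₀ (l0 _)]
    · have : Ideal.Quotient.mk Q (X (s i)) = 1 :=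
        Ideal.Quotient.eq.2 (show Θ (X (s i) - 1) = 0 by rw [map_sub, Θ1, map_one, sub_self])
      simp [this, l, hs, hi]
  · refine Ideal.Quotient.ringHom_ext (ringHom_ext (fun c => ?_) fun v => ?_)
    · have := (hψ (Ideal.Quotient.mk _ (C c))).trans (hψ' (Ideal.Quotient.mk _ (C c))).symm
      rw [hm] at this
      simpa [ρ] using this
    · exact mul_left_cancel₀ (l0 _) (congrFun e v)

end Proj

end Pool.Agent.Tav.Fib
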