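import Pool.Agent.P.MP_2ce3e7_ag.Tav.RKc
import Pool.Agent.P.MP_2ce3e7_ag.Tav.Primes
import Pool.Agent.P.MP_2ce3e7_ag.Tav.Fib

/-! The rank in large degree is the number of points of the general fibre: several blocks. -/

set_option autoImplicit false

namespace Pool.Agent.Tav.FibM

open MvPolynomial Module Function

variable {K : Type} [Field K] {T ι κ σ Y : Type} {β : σ → ι} {x : T → σ → K}

theorem aeval_pt (x : T → σ → K) (F : MvPolynomial σ K) (t : T) :
    aeval (fun v t => x t v) F t = eval (x t) F := by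
  induction F using MvPolynomial.induction_on with
  | C c => simp
  | add a b ha hb => simp [ha, hb]
  | mul_X a v ha => simp [ha]

theorem mem_blk (v : σ) : (fun t => x t v) ∈ blk K β (fun v t => x t v) (β v) :=
  Submodule.subset_span ⟨v, rfl, rfl⟩

theorem par_of_minors {S : Set ι} {y y' : σ → K} (h' : ∀ i ∈ S, ∃ v, β v = i ∧ y' v ≠ 0)
    (h : ∀ a b, β a = β b → β a ∈ S → y a * y' b = y b * y' a) :
    ∃ l : ι → K, ∀ v, β v ∈ S → y v = l (β v) * y' v := by
  have ex : ∀ i, ∃ c : K, ∀ v, β v = i → i ∈ S → y v = c * y' v := fun i => by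
    by_cases hi : i ∈ S
    · obtain ⟨a, rfl, ha⟩ := h' i hi
      exact ⟨y a / y' a, fun v e _ => by
        rw [div_mul_eq_mul_div, h a v e.symm hi, mul_div_cancel_right₀ _ ha]⟩
    · exact ⟨0, fun _ _ h => absurd h hi⟩
  choose l hl using ex
  exact ⟨l, fun v hv => hl _ v rfl hv⟩

variable [Fintype ι] [DecidableEq ι]

theorem aeval_mem [Finite σ] {d : ι → ℕ} {F : MvPolynomial σ K} (h : F ∈ Sd K β d) :
    aeval (fun v t => x t v) F ∈ pw (blk K β fun v t => x t v) d :=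
  (map_Sd _ d).le ⟨F, h, rfl⟩

theorem exists_form [Finite σ] {d : ι → ℕ} {u : T → K} (h : u ∈ pw (blk K β fun v t => x t v) d) :
    ∃ F ∈ Sd K β d, ∀ t, eval (x t) F = u t := by
  obtain ⟨F, h1, h2⟩ := (map_Sd _ d).ge h
  exact ⟨F, h1, fun t => (aeval_pt x F t).symm.trans (congrFun h2 t)⟩

/-- a form whose degree vanishes off `S` sees only the blocks in `S` -/
theorem eval_of_par [Finite σ] {S : Set ι} {d : ι → ℕ} (hd : ∀ i ∉ S, d i = 0)
    {F : MvPolynomial σ K} (hF : F ∈ Sd K β d) {y y' : σ → K} {l : ι → K}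
    (h : ∀ v, β v ∈ S → y v = l (β v) * y' v) : eval y F = (∏ i, l i ^ d i) * eval y' F := by
  cases nonempty_fintype σ
  refine Eq.trans ?_ (Fib.scale (β := β) (RingHom.id K) _ l hF)
  refine eval₂_congr _ _ _ fun {v m} hv hm => h v (by_contra fun hc => ?_)
  have h1 := congrFun (hF hm) (β v)
  rw [weight_wN, hd _ hc] at h1
  exact Finsupp.mem_support_iff.1 hv (Finset.sum_eq_zero_iff.1 h1 v (by simp))

theorem exists_nz (hx : ∀ t i, ∃ v, β v = i ∧ x t v ≠ 0) (t : T) (d : ι → ℕ) :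
    ∃ w ∈ pw (blk K β fun v t => x t v) d, w t ≠ 0 := by
  induction d using vec_ind with
  | h0 => exact ⟨1, one_mem_pw _, one_ne_zero⟩
  | hs i m ih =>
    obtain ⟨w, h1, h2⟩ := ih
    obtain ⟨a, rfl, ha⟩ := hx t i
    refine ⟨w * fun t => x t a, ?_, mul_ne_zero h2 ha⟩
    rw [pw_add, pw_single, pow_one]
    exact Submodule.mul_mem_mul h1 (mem_blk a)

theorem exists_cut (hx : ∀ t i, ∃ v, β v = i ∧ x t v ≠ 0) (R : Set ι) (t : T) (S : Finset T)
    (hS : ∀ t' ∈ S, ¬ ∃ l : ι → K, ∀ v, β v ∉ R → x t v = l (β v) * x t' v) : ∀ m : ι → ℕ,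
    (∀ i ∉ R, S.card ≤ m i) →
      ∃ w ∈ pw (blk K β fun v t => x t v) m, w t ≠ 0 ∧ ∀ t' ∈ S, w t' = 0 := by
  classical
  induction S using Finset.induction_on with
  | empty => exact fun m _ => (exists_nz hx t m).imp fun w h => ⟨h.1, h.2, by simp⟩
  | insert s S hs ih =>
    intro m hm
    rw [Finset.card_insert_of_notMem hs] at hm
    have := mt (par_of_minors (S := Rᶜ) fun i _ => hx s i) (hS s (Finset.mem_insert_self _ _))
    push Not at this
    obtain ⟨a, b, hab, hi, hn⟩ := this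
    obtain ⟨w, w1, w2, w3⟩ := ih (fun t' h => hS t' (Finset.mem_insert_of_mem h))
      (m - Pi.single (β a) 1) fun j hj => by
        have := hm j hj
        by_cases e : j = β a
        · subst e; simp; omega
        · simp [e]; omega
    have e : m = (m - Pi.single (β a) 1) + Pi.single (β a) 1 := funext fun j => by
      have := hm _ hi
      by_cases h : j = β a
      · subst h; simp; omega
      · simp [h]
    refine ⟨w * (x s b • (fun t => x t a) - x s a • fun t => x t b), ?_, mul_ne_zero w2 ?_,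
      fun t' h => ?_⟩
    · rw [e, pw_add, pw_single, pow_one]
      exact Submodule.mul_mem_mul w1 (sub_mem (Submodule.smul_mem _ _ (mem_blk a))
        (Submodule.smul_mem _ _ (hab ▸ mem_blk b)))
    · simpa [sub_eq_zero, mul_comm] using hn
    · rcases Finset.mem_insert.1 h with rfl | h
      · simp [mul_comm]
      · simp [w3 t' h]

variable [Fintype κ] [Finite σ] [Nonempty T] {f : κ → ι}

/-- upper bound: any field, no closedness, one degree -/
theorem card_le (hx : ∀ t i, ∃ v, β v = i ∧ x t v ≠ 0) (hf : Injective f)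
    (hd : NoZD (pw (blk K β (fun v t => x t v) ∘ f))) {r : ℕ} {m : ι → ℕ}
    (hm : ∀ i ∉ Set.range f, r ≤ m i)
    (hr : IsRk (pw (blk K β (fun v t => x t v) ∘ f)) (pw (blk K β fun v t => x t v) m) r)
    (kap : T → Y) (hk : ∀ t t', (∃ l : ι → K, ∀ v, β v ∉ Set.range f → x t v = l (β v) * x t' v) →
      kap t = kap t') :
    ∃ (e : ι → ℕ) (F : MvPolynomial σ K), F ∈ Sd K β e ∧ (∀ i ∉ Set.range f, e i = 0) ∧
      (∃ t, eval (x t) F ≠ 0) ∧ ∀ η : σ → K, eval η F ≠ 0 →
        (kap '' {t | ∃ l : ι → K, ∀ v, β v ∈ Set.range f → x t v = l (β v) * η v}).encard ≤ r := by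
  classical
  have : ∀ i, FiniteDimensional K (blk K β (fun v t => x t v) i) := fun i =>
    FiniteDimensional.span_of_finite K (Set.toFinite _)
  obtain ⟨u, -, -, hu⟩ := hr
  obtain ⟨e, g, g1, g0, hg⟩ := exists_den _ (one_mem_pw _) (fun a b => (pw_add _ a b).ge) hd _ _ hu
  rw [← pw_extend _ hf] at g1 hg
  have e0 : ∀ i ∉ Set.range f, extend f e 0 i = 0 := fun i hi => extend_apply' _ _ _ hi
  obtain ⟨F, F1, F2⟩ := exists_form g1
  refine ⟨_, F, F1, e0, (ne_iff.1 g0).imp fun t ht => by rwa [F2], fun η hη => ?_⟩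
  by_contra hc
  obtain ⟨S, s1, s2⟩ := Set.exists_subset_encard_eq (k := (r + 1 : ℕ))
    (s := kap '' {t | ∃ l : ι → K, ∀ v, β v ∈ Set.range f → x t v = l (β v) * η v}) (by
      rw [Nat.cast_add, Nat.cast_one]; exact Order.add_one_le_of_lt (not_le.1 hc))
  have := (Set.finite_of_encard_eq_coe s2).fintype
  have s3 : Fintype.card S = r + 1 := by
    rw [Set.encard_eq_coe_toFinset_card, Set.toFinset_card] at s2
    exact_mod_cast s2
  choose t t1 t2 using fun y : S => s1 y.2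
  choose l hl using t1
  have l0 : ∀ y, ∏ i, l y i ^ extend f e 0 i ≠ 0 := fun y => Finset.prod_ne_zero_iff.2 fun i _ => by
    by_cases hi : i ∈ Set.range f
    · obtain ⟨v, rfl, hv⟩ := hx (t y) i
      exact pow_ne_zero _ (left_ne_zero_of_mul (hl y v hi ▸ hv))
    · simp [e0 i hi]
  let W := Submodule.span K (Set.range fun j (y : S) => u j (t y))
  have key : ∀ w ∈ Submodule.span K (Set.range u) * pw (blk K β fun v t => x t v) (extend f e 0),
      (fun y : S => (∏ i, l y i ^ extend f e 0 i)⁻¹ * w (t y)) ∈ W := fun w hw => by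
    refine Submodule.mul_induction_on hw (fun a ha b hb => ?_) fun a b ha hb => ?_
    · obtain ⟨k, k1, k2⟩ := exists_form hb
      have : (fun y : S => (∏ i, l y i ^ extend f e 0 i)⁻¹ * (a * b) (t y)) =
          eval η k • fun y => a (t y) := funext fun y => by
        rw [Pi.mul_apply, ← k2, eval_of_par e0 k1 (hl y), mul_left_comm (a _),
          inv_mul_cancel_left₀ (l0 y), mul_comm]
        rfl
      rw [this]
      refine W.smul_mem _ ?_
      clear this
      induction ha using Submodule.span_induction with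
      | mem a ha => obtain ⟨j, rfl⟩ := ha; exact Submodule.subset_span ⟨j, rfl⟩
      | zero => exact W.zero_mem
      | add a a' _ _ h h' => exact W.add_mem h h'
      | smul d a _ h => exact W.smul_mem d h
    · simpa [mul_add, Pi.add_def] using W.add_mem ha hb
  have top : ⊤ ≤ W := by
    rw [← (Pi.basisFun K S).span_eq, Submodule.span_le]
    rintro _ ⟨y, rfl⟩
    obtain ⟨w, w1, w2, w3⟩ := exists_cut hx (Set.range f) (t y) ((Finset.univ.erase y).image t)
      (fun t' h hn => by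
        obtain ⟨y', hy, rfl⟩ := Finset.mem_image.1 h
        exact (Finset.mem_erase.1 hy).1 (Subtype.ext (by rw [← t2, ← t2, hk _ _ hn]))) m
      fun i hi => Finset.card_image_le.trans (by
        rw [Finset.card_erase_of_mem (Finset.mem_univ _), Finset.card_univ, s3]; exact hm i hi)
    have := W.smul_mem (eval η F * w (t y))⁻¹ (key _ (hg w w1))
    refine (congrArg (· ∈ W) (funext fun y' => ?_)).mp this
    rw [Pi.smul_apply, Pi.mul_apply, ← F2, eval_of_par e0 F1 (hl y'), mul_assoc,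
      inv_mul_cancel_left₀ (l0 y'), smul_eq_mul, Pi.basisFun_apply]
    by_cases e : y' = y
    · rw [e, Pi.single_eq_same, inv_mul_cancel₀ (mul_ne_zero hη w2)]
    · rw [Pi.single_eq_of_ne e, w3 (t y') (Finset.mem_image_of_mem _ (by simp [e])), mul_zero,
        mul_zero]
  have h3 := Submodule.finrank_mono top
  have h4 : finrank K W ≤ r := by
    simpa [Set.finrank] using finrank_range_le_card (R := K) fun j (y : S) => u j (t y)
  rw [finrank_top, finrank_fintype_fun_eq_card, s3] at h3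
  omega

theorem kerG_prime (hd : NoZD (pw (blk K β fun v t => x t v))) :
    (kerG K β fun v t => x t v).IsPrime := Pr.Hom.isPrime (w := wN β)
  (fun g hg d => grJ_kerG _ d g hg)
  (fun e => one_ne_zero ((map_one _).symm.trans (aeval_of_mem_kerG ((Ideal.eq_top_iff_one _).1 e))))
  fun d e a b ha hb hab => by
    rw [mem_kerG ha, mem_kerG hb]
    exact hd _ _ _ (aeval_mem ha) _ (aeval_mem hb)
      ((map_mul _ _ _).symm.trans (aeval_of_mem_kerG hab))

/-- the rank in large degree is the number of points of the general fibre -/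
theorem card_eq' [IsAlgClosed K] [CharZero K] (hx : ∀ t i, ∃ v, β v = i ∧ x t v ≠ 0)
    (hf : Injective f) (hd : NoZD (pw (blk K β fun v t => x t v)))
    (hcl : ∀ y : σ → K, (∀ i, ∃ v, β v = i ∧ y v ≠ 0) →
      (∀ d, ∀ F ∈ Sd K β d, (∀ t, eval (x t) F = 0) → eval y F = 0) →
      ∃ (t : T) (l : ι → K), ∀ v, y v = l (β v) * x t v) {r : ℕ} {m : ι → ℕ}
    (hm : ∀ i ∉ Set.range f, r ≤ m i)
    (hr : IsRk (pw (blk K β (fun v t => x t v) ∘ f)) (pw (blk K β fun v t => x t v) m) r)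
    (kap : T → Y) (hk : ∀ t t', kap t = kap t' ↔
      ∃ l : ι → K, ∀ v, β v ∉ Set.range f → x t v = l (β v) * x t' v) :
    ∃ (e : ι → ℕ) (F : MvPolynomial σ K), F ∈ Sd K β e ∧ (∀ i ∉ Set.range f, e i = 0) ∧
      (∃ t, eval (x t) F ≠ 0) ∧ ∀ η : σ → K, (∀ i ∈ Set.range f, ∃ v, β v = i ∧ η v ≠ 0) →
        (∀ d, (∀ i ∉ Set.range f, d i = 0) → ∀ G ∈ Sd K β d, (∀ t, eval (x t) G = 0) →
          eval η G = 0) → eval η F ≠ 0 →
        (kap '' {t | ∃ l : ι → K, ∀ v, β v ∈ Set.range f → x t v = l (β v) * η v}).encard = r := by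
  classical
  cases nonempty_fintype σ
  obtain ⟨e, h, h1, e0, h2, h3⟩ := card_le hx hf (hd.comp hf) hm hr
    kap fun t t' => (hk t t').2
  obtain ⟨u, u1, u2, -⟩ := hr
  have := kerG_prime hd
  have hz : ∀ {d G}, G ∈ Sd K β d → (G ∈ kerG K β (fun v t => x t v) ↔ ∀ t, eval (x t) G = 0) :=
    fun hG => by
      rw [mem_kerG hG, funext_iff]
      exact forall_congr' fun t => by rw [aeval_pt, Pi.zero_apply]
  obtain ⟨t0⟩ := ‹Nonempty T›
  choose s s1 s2 using hx t0
  choose U U1 U2 using fun j => (map_Sd (β := β) _ _).ge (u1 j)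
  obtain ⟨a, g, a0, g1, -, g3, hg⟩ := Fib.le_card_proj (β := β) (P := kerG K β fun v t => x t v)
    (fun q hq d => grJ_kerG _ d q hq) (Set.range f) s1
    (fun i e => s2 i (by simpa using (hz (X_mem_Sd _)).1 e t0)) U1
    fun a ha g hg hs j => by
      refine (mem_kerG (hg j)).2 (u2 (a ∘ f) (fun j => aeval (fun v t => x t v) (g j))
        (fun j => ?_) ?_ j)
      · rw [← pw_extend _ hf, show extend f (a ∘ f) 0 = a from funext fun i => by
          by_cases e : i ∈ Set.range f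
          · obtain ⟨k, rfl⟩ := e; exact hf.extend_apply _ _ k
          · rw [extend_apply' _ _ _ e, ha i e]; rfl]
        exact aeval_mem (hg j)
      · rw [← aeval_of_mem_kerG hs, map_sum]
        exact Finset.sum_congr rfl fun j _ => by rw [map_mul, ← U2]; rfl
  have gh : g * h ∈ Sd K β (a + e) := IsWeightedHomogeneous.mul g1 h1
  refine ⟨_, _, gh, fun i hi => by simp [a0 i hi, e0 i hi], ?_, fun η η0 η1 η2 => ?_⟩
  · by_contra hc
    push Not at hc
    rcases this.mem_or_mem ((hz gh).2 hc) with e | e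
    · exact g3 e
    · obtain ⟨t, ht⟩ := h2
      exact ht ((hz h1).1 e t)
  rw [map_mul, mul_ne_zero_iff] at η2
  refine le_antisymm (h3 η η2.2) ?_
  have := hg η (fun q hq hs => by
    rw [← sum_weightedHomogeneousComponent (wN β) q,
      finsum_eq_sum _ (weightedHomogeneousComponent_finsupp q), map_sum]
    refine Finset.sum_eq_zero fun d _ => ?_
    have hd := weightedHomogeneousComponent_mem (wN β) q d
    by_cases h0 : ∀ i ∉ Set.range f, d i = 0
    · exact η1 d h0 _ hd ((hz hd).1 (grJ_kerG _ d q hq))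
    · rw [weightedHomogeneousComponent_eq_zero' d q fun m hm e => h0 fun i hi => ?_, map_zero]
      rw [← e, weight_wN]
      refine Finset.sum_eq_zero fun v hv => by_contra fun hc => hi ?_
      exact (Finset.mem_filter.1 hv).2 ▸ mem_supported.1 hs
        ((mem_vars_iff_mem_support v).2 ⟨m, hm, Finsupp.mem_support_iff.2 hc⟩)) η2.1
  rw [Fintype.card_fin] at this
  refine this.trans ?_
  have nz : ∀ ξ : σ → K, (∀ v, β v ∈ Set.range f → ξ v = η v) →
      (∀ i ∉ Set.range f, ξ (s i) = 1) → ∀ i, ∃ v, β v = i ∧ ξ v ≠ 0 := fun ξ a b i => by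
    by_cases hi : i ∈ Set.range f
    · obtain ⟨v, rfl, hv⟩ := η0 i hi
      exact ⟨v, rfl, by rwa [a v hi]⟩
    · exact ⟨s i, s1 i, by rw [b i hi]; exact one_ne_zero⟩
  have ex : ∀ ξ : σ → K, ∃ (t : T) (l : ι → K),
      (∀ q ∈ kerG K β fun v t => x t v, eval ξ q = 0) ∧ (∀ v, β v ∈ Set.range f → ξ v = η v) ∧
      (∀ i ∉ Set.range f, ξ (s i) = 1) → ∀ v, x t v = l (β v) * ξ v := fun ξ => by
    by_cases hξ : (∀ q ∈ kerG K β fun v t => x t v, eval ξ q = 0) ∧
      (∀ v, β v ∈ Set.range f → ξ v = η v) ∧ (∀ i ∉ Set.range f, ξ (s i) = 1)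
    · obtain ⟨t, l, hl⟩ := hcl ξ (nz ξ hξ.2.1 hξ.2.2) fun d F hF h0 => hξ.1 F ((hz hF).2 h0)
      refine ⟨t, fun i => (l i)⁻¹, fun _ v => ?_⟩
      obtain ⟨w, e, hw⟩ := nz ξ hξ.2.1 hξ.2.2 (β v)
      rw [hl v, inv_mul_cancel_left₀ (e ▸ left_ne_zero_of_mul (hl w ▸ hw))]
    · exact ⟨t0, 0, fun h => absurd h hξ⟩
  choose τ l hτ using ex
  refine Set.encard_le_encard_of_injOn (f := fun ξ => kap (τ ξ))
    (fun ξ hξ => ⟨_, ⟨l ξ, fun v hv => by rw [hτ ξ hξ, hξ.2.1 v hv]⟩, rfl⟩)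
    fun ξ hξ ξ' hξ' e => funext fun v => ?_
  by_cases hi : β v ∈ Set.range f
  · exact (hξ.2.1 v hi).trans (hξ'.2.1 v hi).symm
  · obtain ⟨c, hc⟩ := (hk _ _).1 e
    have h1 := hc (s (β v)) (by rwa [s1])
    rw [hτ ξ hξ, hτ ξ' hξ', s1, hξ.2.2 _ hi, hξ'.2.2 _ hi, mul_one, mul_one] at h1
    have h2 := hc v hi
    rw [hτ ξ hξ, hτ ξ' hξ', ← mul_assoc, ← h1] at h2
    obtain ⟨w, e, hw⟩ := hx (τ ξ) (β v)
    exact mul_left_cancel₀ (e ▸ left_ne_zero_of_mul (hτ ξ hξ w ▸ hw)) h2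

theorem card_eq [IsAlgClosed K] [CharZero K] (hx : ∀ t i, ∃ v, β v = i ∧ x t v ≠ 0)
    (hf : Injective f) (hd : NoZD (pw (blk K β fun v t => x t v)))
    (hcl : ∀ y : σ → K, (∀ i, ∃ v, β v = i ∧ y v ≠ 0) →
      (∀ d, ∀ F ∈ Sd K β d, (∀ t, eval (x t) F = 0) → eval y F = 0) →
      ∃ (t : T) (l : ι → K), ∀ v, y v = l (β v) * x t v) {N r : ℕ}
    (hr : ∀ m : ι → ℕ, (∀ i, i ∉ Set.range f → N ≤ m i) →
      IsRk (pw (blk K β (fun v t => x t v) ∘ f)) (pw (blk K β fun v t => x t v) m) r)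
    (kap : T → Y) (hk : ∀ t t', kap t = kap t' ↔
      ∃ l : ι → K, ∀ v, β v ∉ Set.range f → x t v = l (β v) * x t' v) :
    ∃ (e : ι → ℕ) (F : MvPolynomial σ K), F ∈ Sd K β e ∧ (∀ i ∉ Set.range f, e i = 0) ∧
      (∃ t, eval (x t) F ≠ 0) ∧ ∀ η : σ → K, (∀ i ∈ Set.range f, ∃ v, β v = i ∧ η v ≠ 0) →
        (∀ d, (∀ i ∉ Set.range f, d i = 0) → ∀ G ∈ Sd K β d, (∀ t, eval (x t) G = 0) →
          eval η G = 0) → eval η F ≠ 0 →
        (kap '' {t | ∃ l : ι → K, ∀ v, β v ∈ Set.range f → x t v = l (β v) * η v}).encard = r :=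
  card_eq' hx hf hd hcl (fun _ _ => le_max_right N r)
    (hr (fun _ => max N r) fun _ _ => le_max_left _ _) kap hk

omit [Nonempty T] in
/-- the graph of a regular map on a closed set is closed -/
theorem closed_of_reg (hx : ∀ t i, ∃ v, β v = i ∧ x t v ≠ 0) (hf : Injective f)
    (hb : ∀ y : σ → K, (∀ i, ∃ v, β v = i ∧ y v ≠ 0) →
      (∀ d, (∀ i ∉ Set.range f, d i = 0) → ∀ F ∈ Sd K β d, (∀ t, eval (x t) F = 0) → eval y F = 0) →
      ∃ (t : T) (l : ι → K), ∀ v, β v ∈ Set.range f → y v = l (β v) * x t v)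
    (hrg : ∀ i ∉ Set.range f, ∀ t, ∃ (e : κ → ℕ) (c : T → K), c t ≠ 0 ∧
      ∀ w ∈ blk K β (fun v t => x t v) i, c * w ∈ pw (blk K β (fun v t => x t v) ∘ f) e)
    (y : σ → K) (hy : ∀ i, ∃ v, β v = i ∧ y v ≠ 0)
    (H : ∀ d, ∀ F ∈ Sd K β d, (∀ t, eval (x t) F = 0) → eval y F = 0) :
    ∃ (t : T) (l : ι → K), ∀ v, y v = l (β v) * x t v := by
  obtain ⟨t, l, hl⟩ := hb y hy fun d _ => H d
  suffices h : ∃ l : ι → K, ∀ v, β v ∈ Set.univ → y v = l (β v) * x t v from
    ⟨t, h.imp fun l h v => h v trivial⟩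
  refine par_of_minors (fun i _ => hx t i) fun a b hab _ => ?_
  by_cases hi : β a ∈ Set.range f
  · rw [hl a hi, hl b (hab ▸ hi), hab]; ring
  obtain ⟨e, c, c0, hc⟩ := hrg _ hi t
  have e0 : ∀ i ∉ Set.range f, extend f e 0 i = 0 := fun i hi => extend_apply' _ _ _ hi
  obtain ⟨A, A1, A2⟩ := exists_form ((pw_extend _ hf e).ge (hc _ (mem_blk a)))
  obtain ⟨B, B1, B2⟩ := exists_form ((pw_extend _ hf e).ge (hc (fun t => x t b) (hab ▸ mem_blk b)))
  have := H _ (X a * B - X b * A) (sub_mem (IsWeightedHomogeneous.mul (X_mem_Sd a) B1)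
    (IsWeightedHomogeneous.mul (hab ▸ X_mem_Sd b) A1)) fun t => by
    simp only [map_sub, map_mul, eval_X, A2, B2, Pi.mul_apply]; ring
  simp only [map_sub, map_mul, eval_X, eval_of_par e0 A1 hl, eval_of_par e0 B1 hl, A2, B2,
    Pi.mul_apply] at this
  have l0 : ∏ i, l i ^ extend f e 0 i ≠ 0 := Finset.prod_ne_zero_iff.2 fun i _ => by
    by_cases hi : i ∈ Set.range f
    · obtain ⟨v, rfl, hv⟩ := hy i
      exact pow_ne_zero _ (left_ne_zero_of_mul (hl v hi ▸ hv))
    · simp [e0 i hi]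
  refine mul_left_cancel₀ (mul_ne_zero l0 c0) ?_
  linear_combination this

end Pool.Agent.Tav.FibM
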