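import Pool.Agent.P.MP_2ce3e7_ag.Tav.GAll

/-! Components of a set of points, and additivity of the top coefficients. -/

set_option autoImplicit false
set_option linter.unusedSectionVars false
set_option linter.unusedVariables false

noncomputable section

namespace Pool.Agent.Tav.K0

open MvPolynomial Module

variable {Ω : Type} [Field Ω] {T Y : Type} {β ν : Type} [Fintype β] [Fintype ν]

theorem pc_add (B : β → LS Ω T) (a b : β → ℕ) : pc B (a + b) = pc B a * pc B b := by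
  simp only [pc, Pi.add_apply, pow_add, Finset.prod_mul_distrib]

theorem mul_mem_pc {B : β → LS Ω T} {a b : β → ℕ} {f g : T → Ω} (hf : f ∈ pc B a)
    (hg : g ∈ pc B b) : f * g ∈ pc B (a + b) := by
  rw [pc_add]
  exact Submodule.mul_mem_mul hf hg

theorem one_mem_pc (B : β → LS Ω T) : (1 : T → Ω) ∈ pc B 0 := by
  simp only [pc, Pi.zero_apply, pow_zero, Finset.prod_const_one]
  exact Submodule.one_le.1 le_rfl

theorem prod_mem {A I : Type} [CommRing A] [Algebra Ω A] (s : Finset I) {M : I → Submodule Ω A}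
    {x : I → A} (h : ∀ i ∈ s, x i ∈ M i) : ∏ i ∈ s, x i ∈ ∏ i ∈ s, M i := by
  classical
  induction s using Finset.induction_on with
  | empty => exact (Submodule.one_le (P := (1 : Submodule Ω A))).1 le_rfl
  | insert a s ha ih =>
    rw [Finset.prod_insert ha, Finset.prod_insert ha]
    exact Submodule.mul_mem_mul (h a (Finset.mem_insert_self _ _))
      (ih fun i hi => h i (Finset.mem_insert_of_mem hi))

theorem exists_ne_pc (B : β → LS Ω T) (d : β → ℕ) (t : T) : ∃ u ∈ pc B d, u t ≠ 0 := by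
  choose u hu hne using fun i => (B i).nv t
  refine ⟨∏ i, u i ^ d i, prod_mem _ fun i _ => Submodule.pow_mem_pow _ (hu i) _, ?_⟩
  simp only [Finset.prod_apply, Pi.pow_apply]
  exact Finset.prod_ne_zero_iff.2 fun i _ => pow_ne_zero _ (hne i)

instance fd_pc (B : β → LS Ω T) (d : β → ℕ) : FiniteDimensional Ω (pc B d) := by
  refine (Submodule.fg_iff_finiteDimensional _).1 ?_
  refine Finset.prod_induction _ Submodule.FG (fun a b ha hb => ha.mul hb) ?_ fun i _ =>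
    ((Submodule.fg_iff_finiteDimensional _).2 (B i).fd).pow _
  rw [Submodule.one_eq_span]
  exact Submodule.fg_span_singleton _

theorem mem_pc_pb {j : T → Y} {C : β → LS Ω Y} {d : β → ℕ} {v : T → Ω} :
    v ∈ pc (fun i => (C i).pb j) d ↔ ∃ u ∈ pc C d, pbA Ω j u = v := by
  rw [pc_pb]
  exact Iff.rfl

section Union

variable {I : Type} [Fintype I] {U : I → Type} (j : ∀ i, U i → T) (L : β → LS Ω T)

theorem rank_le_sum (hj : ∀ t, ∃ i u, j i u = t) (d : β → ℕ) :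
    finrank Ω (pc L d) ≤ ∑ i, finrank Ω (pc (fun b => (L b).pb (j i)) d) := by
  rw [← Module.finrank_pi_fintype]
  let R : pc L d →ₗ[Ω] ∀ i, pc (fun b => (L b).pb (j i)) d := LinearMap.pi fun i =>
    LinearMap.codRestrict _ ((pbA Ω (j i)).toLinearMap ∘ₗ (pc L d).subtype)
      fun u => mem_pc_pb.2 ⟨u, u.2, rfl⟩
  refine LinearMap.finrank_le_finrank_of_injective (f := R) ((injective_iff_map_eq_zero _).2 ?_)
  intro u hu
  refine Subtype.ext (funext fun t => ?_)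
  obtain ⟨i, v, rfl⟩ := hj t
  exact congrFun (congrArg Subtype.val (congrFun hu i)) v

theorem sum_le_rank (hd : ∀ i, Dom fun b => (L b).pb (j i)) {e : β → ℕ} {f : I → T → Ω}
    (hf : ∀ i, f i ∈ pc L e) (h1 : ∀ i, ∃ u, f i (j i u) ≠ 0)
    (h0 : ∀ i i', i' ≠ i → ∀ u, f i (j i' u) = 0) (d : β → ℕ) :
    ∑ i, finrank Ω (pc (fun b => (L b).pb (j i)) d) ≤ finrank Ω (pc L (d + e)) := by
  rw [← Module.finrank_pi_fintype]
  let R : pc L (d + e) →ₗ[Ω] ∀ i, U i → Ω := LinearMap.pi fun i =>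
    (pbA Ω (j i)).toLinearMap ∘ₗ (pc L (d + e)).subtype
  let M : (∀ i, pc (fun b => (L b).pb (j i)) d) →ₗ[Ω] ∀ i, U i → Ω := LinearMap.pi fun i =>
    LinearMap.mulLeft Ω (pbA Ω (j i) (f i)) ∘ₗ (pc (fun b => (L b).pb (j i)) d).subtype ∘ₗ
      LinearMap.proj i
  have hM : Function.Injective M := by
    refine (injective_iff_map_eq_zero _).2 fun v hv => funext fun i => Subtype.ext ?_
    have h2 : pbA Ω (j i) (f i) * (v i).1 = 0 := congrFun hv i
    rcases hd i _ _ _ (mem_pc_pb.2 ⟨_, hf i, rfl⟩) _ (v i).2 h2 with h3 | h3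
    · obtain ⟨u, hu⟩ := h1 i
      exact absurd (congrFun h3 u) hu
    · exact h3
  have hle : LinearMap.range M ≤ LinearMap.range R := by
    rintro _ ⟨v, rfl⟩
    choose u hu hv using fun i => mem_pc_pb.1 (v i).2
    refine ⟨⟨∑ i, u i * f i, Submodule.sum_mem _ fun i _ => mul_mem_pc (hu i) (hf i)⟩, ?_⟩
    funext i w
    change (∑ i', u i' * f i') (j i w) = f i (j i w) * (v i).1 w
    rw [Finset.sum_apply, Finset.sum_eq_single i, ← hv i, Pi.mul_apply, mul_comm, pbA_apply]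
    · intro i' _ hi'
      rw [Pi.mul_apply, h0 i' i hi'.symm, mul_zero]
    · intro h
      exact absurd (Finset.mem_univ i) h
  calc finrank Ω (∀ i, pc (fun b => (L b).pb (j i)) d) = finrank Ω (LinearMap.range M) :=
        (LinearMap.finrank_range_of_inj hM).symm
    _ ≤ finrank Ω (LinearMap.range R) := Submodule.finrank_mono hle
    _ ≤ finrank Ω (pc L (d + e)) := LinearMap.finrank_range_le R

theorem evP_sum (s : Finset I) {h : I → (β → ℕ) → ℚ} {P : I → MvPolynomial β ℚ}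
    (hP : ∀ i, EvP (h i) (P i)) : EvP (fun d => ∑ i ∈ s, h i d) (∑ i ∈ s, P i) :=
  (Lg.all hP).mono fun d hd => by
    rw [map_sum]
    exact Finset.sum_congr rfl fun i _ => hd i

/-- a finite union has the largest dimension of its pieces -/
theorem dg_union (hj : ∀ t, ∃ i u, j i u = t) {n : ℤ}
    (hn : ∀ i, Dg (pL fun b => (L b).pb (j i)) n) : Dg (pL L) n :=
  (evP_pL L).dg_of_le (evP_sum Finset.univ fun i => evP_pL fun b => (L b).pb (j i))
    (Dg.sum fun i _ => hn i) (Lg.of_forall fun d =>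
      ⟨Nat.cast_nonneg _, by exact_mod_cast rank_le_sum j L hj d⟩)

/-- the top coefficients are additive over separated irreducible pieces -/
theorem coeff_union (hj : ∀ t, ∃ i u, j i u = t) {n : ℕ}
    (hs : ∀ i, Src (fun b => (L b).pb (j i)) n)
    (hf : ∀ i, ∃ e, ∃ f ∈ pc L e, (∃ u, f (j i u) ≠ 0) ∧ ∀ i', i' ≠ i → ∀ u, f (j i' u) = 0)
    {s : β →₀ ℕ} (hn : n ≤ s.degree) :
    coeff s (pL L) = ∑ i, coeff s (pL fun b => (L b).pb (j i)) := by
  classical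
  choose e f hfe h1 h0 using hf
  choose u hu using h1
  choose g hg hg1 using fun i => exists_ne_pc L (∑ i' ∈ Finset.univ.erase i, e i') (j i (u i))
  have hE : ∀ i, f i * g i ∈ pc L (∑ i', e i') := fun i => by
    rw [← Finset.add_sum_erase _ _ (Finset.mem_univ i)]
    exact mul_mem_pc (hfe i) (hg i)
  have hD := dg_union j L hj fun i => (hs i).dg
  have hS := evP_sum Finset.univ fun i => evP_pL fun b => (L b).pb (j i)
  rw [← coeff_sum]
  refine (coeff_eq_of_le (hD.sh_sub fun b => ((∑ i', e i') b : ℚ)) ?_ (by omega)).symm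
  refine (((evP_pL L).and hS).and ((evP_pL L).shift (∑ i', e i'))).mono ?_
  rintro d ⟨⟨a1, a2⟩, a3⟩
  rw [map_sub, a1, a2, a3]
  beta_reduce
  refine ⟨by exact_mod_cast rank_le_sum j L hj d, ?_⟩
  rw [add_sub_cancel]
  exact_mod_cast sum_le_rank j L (fun i => (hs i).dom) hE
    (fun i => ⟨u i, mul_ne_zero (hu i) (hg1 i)⟩)
    (fun i i' hi w => by rw [Pi.mul_apply, h0 i i' hi, zero_mul]) d

end Union

/-- the restriction of a family to a subset -/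
abbrev res (B : β → LS Ω T) (Z : Set T) : β → LS Ω Z := fun i => (B i).pb Subtype.val

/-- irreducible sets of points -/
def Irr (B : β → LS Ω T) (Z : Set T) : Prop :=
  Z.Nonempty ∧ ∀ a b, ∀ f ∈ pc B a, ∀ g ∈ pc B b, (∀ t ∈ Z, f t * g t = 0) →
    (∀ t ∈ Z, f t = 0) ∨ ∀ t ∈ Z, g t = 0

/-- the closure of a set of points -/
def cl (B : β → LS Ω T) (Z : Set T) : Set T :=
  {t | ∀ d, ∀ f ∈ pc B d, (∀ z ∈ Z, f z = 0) → f t = 0}

/-- the components of a set of points -/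
def Cmp (B : β → LS Ω T) (a : Set T) : Set (Set T) :=
  {Z | Maximal (fun Z => Z ⊆ a ∧ Irr B Z) Z}

variable {B : β → LS Ω T} {Z Z' a : Set T}

theorem irr_iff : Irr B Z ↔ Nonempty Z ∧ Dom (res B Z) := by
  refine and_congr Set.nonempty_coe_sort.symm ⟨fun h a b f hf g hg hfg => ?_,
    fun h a b f hf g hg hfg => ?_⟩
  · obtain ⟨f, hf', rfl⟩ := mem_pc_pb.1 hf
    obtain ⟨g, hg', rfl⟩ := mem_pc_pb.1 hg
    exact (h a b f hf' g hg' fun t ht => congrFun hfg ⟨t, ht⟩).imp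
      (fun h => funext fun t => h t t.2) fun h => funext fun t => h t t.2
  · exact (h a b _ (mem_pc_pb.2 ⟨f, hf, rfl⟩) _ (mem_pc_pb.2 ⟨g, hg, rfl⟩)
      (funext fun t => hfg t t.2)).imp (fun h t ht => congrFun h ⟨t, ht⟩)
        fun h t ht => congrFun h ⟨t, ht⟩

theorem sub_cl (B : β → LS Ω T) (Z : Set T) : Z ⊆ cl B Z := fun t ht _ _ _ h => h t ht

theorem cl_sub (h : Z' ⊆ cl B Z) : cl B Z' ⊆ cl B Z :=
  fun _ ht d f hf h0 => ht d f hf fun _ hz => h hz d f hf h0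

theorem Irr.between (h : Irr B Z) (h1 : Z ⊆ Z') (h2 : Z' ⊆ cl B Z) : Irr B Z' :=
  ⟨h.1.mono h1, fun a b f hf g hg hfg => (h.2 a b f hf g hg fun t ht => hfg t (h1 ht)).imp
    (fun h t ht => h2 ht _ f hf h) fun h t ht => h2 ht _ g hg h⟩

theorem dense_incl (h1 : Z ⊆ Z') (h2 : Z' ⊆ cl B Z) : Dense (Set.inclusion h1) (res B Z') := by
  intro e f hf h0
  obtain ⟨f, hf', rfl⟩ := mem_pc_pb.1 hf
  exact _root_.funext fun t => h2 t.2 e f hf' fun z hz => congrFun h0 ⟨z, hz⟩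

theorem res_incl (B : β → LS Ω T) (h : Z ⊆ Z') :
    (fun i => (res B Z' i).pb (Set.inclusion h)) = res B Z :=
  funext fun i => LS.pb_pb _ _ _

theorem dg_mono (h : Z ⊆ Z') {n : ℤ} (hn : Dg (pL (res B Z')) n) : Dg (pL (res B Z)) n := by
  refine (evP_pL _).dg_of_le (evP_pL _) hn (Lg.of_forall fun d => ⟨Nat.cast_nonneg _, ?_⟩)
  rw [← res_incl B h, pc_pb]
  exact_mod_cast Submodule.finrank_map_le _ _

theorem Irr.sep (h : Irr B Z) (C : Finset (Set T)) (hC : ∀ Z' ∈ C, ¬ Z ⊆ cl B Z') :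
    ∃ e, ∃ f ∈ pc B e, (∃ t ∈ Z, f t ≠ 0) ∧ ∀ Z' ∈ C, ∀ t ∈ Z', f t = 0 := by
  classical
  induction C using Finset.induction_on with
  | empty =>
    obtain ⟨t, ht⟩ := h.1
    exact ⟨0, 1, one_mem_pc B, ⟨t, ht, one_ne_zero⟩, fun _ h => absurd h (Finset.notMem_empty _)⟩
  | insert W C _ ih =>
    obtain ⟨e, f, hf, h1, h0⟩ := ih fun Z' hZ => hC Z' (Finset.mem_insert_of_mem hZ)
    obtain ⟨t, ht, hn⟩ := Set.not_subset.1 (hC W (Finset.mem_insert_self _ _))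
    simp only [cl, Set.mem_ofPred_eq, not_forall] at hn
    obtain ⟨d, g, hg, hg0, hg1⟩ := hn
    refine ⟨e + d, f * g, mul_mem_pc hf hg, ?_, fun Z' hZ t ht => ?_⟩
    · by_contra hc
      push Not at hc
      rcases h.2 e d f hf g hg hc with h2 | h2
      · obtain ⟨t, ht, h1⟩ := h1
        exact h1 (h2 t ht)
      · exact hg1 (h2 t ht)
    · rcases Finset.mem_insert.1 hZ with rfl | hZ
      · rw [Pi.mul_apply, hg0 t ht, mul_zero]
      · rw [Pi.mul_apply, h0 Z' hZ t ht, zero_mul]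

theorem Irr.sub_cover (h : Irr B Z) (C : Finset (Set T)) (hC : ∀ t ∈ Z, ∃ Z' ∈ C, t ∈ Z') :
    ∃ Z' ∈ C, Z ⊆ cl B Z' := by
  by_contra hc
  push Not at hc
  obtain ⟨e, f, -, ⟨t, ht, h1⟩, h0⟩ := h.sep C hc
  obtain ⟨Z', hZ, ht'⟩ := hC t ht
  exact h1 (h0 Z' hZ t ht')

theorem exists_cover (B : β → LS Ω T) (a : Set T) :
    ∃ C : Finset (Set T), (∀ Z ∈ C, Z ⊆ a ∧ Irr B Z) ∧ ∀ t ∈ a, ∃ Z ∈ C, t ∈ Z := by
  classical
  obtain ⟨x, hx⟩ := exists_blk fun i => (B i).sp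
  have hS : ∀ d, ∀ f ∈ pc B d, ∃ F ∈ Sd Ω Sigma.fst d, aeval x F = f := fun d f hf => by
    have h1 := map_Sd (Ω := Ω) (β := Sigma.fst) x d
    simp only [hx] at h1
    exact (h1.symm ▸ hf : f ∈ (Sd Ω Sigma.fst d).map (aeval x).toLinearMap)
  let J : Set T → Ideal (MvPolynomial (Σ i, Fin (finrank Ω (B i).sp)) Ω) := fun a =>
    ⨅ t ∈ a, RingHom.ker ((Pi.evalRingHom (fun _ : T => Ω) t).comp (aeval x).toRingHom)
  have hJ : ∀ a F, F ∈ J a ↔ ∀ t ∈ a, aeval x F t = 0 := fun a F => by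
    simp only [J, Ideal.mem_iInf, RingHom.mem_ker]
    exact Iff.rfl
  induction hE : J a using WellFoundedGT.induction generalizing a with
  | ind K ih =>
  subst hE
  by_cases h : Irr B a
  · exact ⟨{a}, fun Z hZ => by rw [Finset.mem_singleton.1 hZ]; exact ⟨le_rfl, h⟩,
      fun t ht => ⟨a, Finset.mem_singleton_self _, ht⟩⟩
  rcases a.eq_empty_or_nonempty with rfl | hne
  · exact ⟨∅, fun _ h => absurd h (Finset.notMem_empty _), fun _ h => h.elim⟩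
  simp only [Irr, hne, true_and, not_forall, not_or] at h
  obtain ⟨d, e, f, hf, g, hg, hfg, ⟨t, ht, h1⟩, t', ht', h2⟩ := h
  have key : ∀ d, ∀ f ∈ pc B d, ∀ t ∈ a, f t ≠ 0 → ∃ C : Finset (Set T),
      (∀ Z ∈ C, Z ⊆ a ∩ {t | f t = 0} ∧ Irr B Z) ∧
        ∀ t ∈ a ∩ {t | f t = 0}, ∃ Z ∈ C, t ∈ Z := by
    intro d f hf t ht h1
    obtain ⟨F, -, rfl⟩ := hS d f hf
    refine ih _ (lt_of_le_of_ne (fun F' hF => (hJ _ _).2 fun t ht => (hJ _ _).1 hF t ht.1)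
      fun hc => h1 ?_) _ rfl
    exact (hJ a F).1 (hc ▸ (hJ _ F).2 fun t ht => ht.2) t ht
  obtain ⟨C, hC, hC'⟩ := key d f hf t ht h1
  obtain ⟨D, hD, hD'⟩ := key e g hg t' ht' h2
  refine ⟨C ∪ D, fun Z hZ => ?_, fun t ht => ?_⟩
  · rcases Finset.mem_union.1 hZ with h | h
    · exact ⟨(hC Z h).1.trans Set.inter_subset_left, (hC Z h).2⟩
    · exact ⟨(hD Z h).1.trans Set.inter_subset_left, (hD Z h).2⟩
  · rcases mul_eq_zero.1 (hfg t ht) with h | h
    · obtain ⟨Z, hZ, h'⟩ := hC' t ⟨ht, h⟩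
      exact ⟨Z, Finset.mem_union_left _ hZ, h'⟩
    · obtain ⟨Z, hZ, h'⟩ := hD' t ⟨ht, h⟩
      exact ⟨Z, Finset.mem_union_right _ hZ, h'⟩

theorem cmp_aux (B : β → LS Ω T) (a : Set T) : ∃ C : Set (Set T), C.Finite ∧
    (∀ Z ∈ C, Z ⊆ a ∧ Irr B Z) ∧ (∀ t ∈ a, ∃ Z ∈ C, t ∈ Z) ∧
      ∀ Z, Z ⊆ a ∧ Irr B Z → ∃ Z' ∈ C, Z ⊆ Z' := by
  obtain ⟨C, hC, hC'⟩ := exists_cover B a
  refine ⟨(fun Z => a ∩ cl B Z) '' (C : Set (Set T)), C.finite_toSet.image _, ?_, ?_, ?_⟩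
  · rintro _ ⟨Z, hZ, rfl⟩
    exact ⟨Set.inter_subset_left, (hC Z hZ).2.between
      (Set.subset_inter (hC Z hZ).1 (sub_cl B Z)) Set.inter_subset_right⟩
  · intro t ht
    obtain ⟨Z, hZ, h⟩ := hC' t ht
    exact ⟨_, ⟨Z, hZ, rfl⟩, ht, sub_cl B Z h⟩
  · rintro Z ⟨h1, h2⟩
    obtain ⟨Z', hZ, h⟩ := h2.sub_cover C fun t ht => hC' t (h1 ht)
    exact ⟨_, ⟨Z', hZ, rfl⟩, Set.subset_inter h1 h⟩

theorem cmp_finite (B : β → LS Ω T) (a : Set T) : (Cmp B a).Finite := by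
  obtain ⟨C, h1, h2, -, h4⟩ := cmp_aux B a
  refine h1.subset fun Z hZ => ?_
  obtain ⟨Z', hZ', h⟩ := h4 Z hZ.1
  rwa [Set.Subset.antisymm h (hZ.2 (h2 Z' hZ') h)]

theorem cmp_cover (B : β → LS Ω T) (a : Set T) {t : T} (ht : t ∈ a) :
    ∃ Z ∈ Cmp B a, t ∈ Z := by
  obtain ⟨C, h1, h2, h3, h4⟩ := cmp_aux B a
  obtain ⟨Z, hZ, htZ⟩ := h3 t ht
  obtain ⟨M, hM, hmax⟩ := h1.exists_le_maximal hZ
  refine ⟨M, ⟨h2 M hmax.1, fun W hW hMW => ?_⟩, hM htZ⟩
  obtain ⟨M', hM', h⟩ := h4 W hW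
  exact h.trans (hmax.2 hM' (hMW.trans h))

theorem cmp_sep (hZ : Z ∈ Cmp B a) : ∃ e, ∃ f ∈ pc B e, (∃ t ∈ Z, f t ≠ 0) ∧
    ∀ Z' ∈ Cmp B a, Z' ≠ Z → ∀ t ∈ Z', f t = 0 := by
  classical
  obtain ⟨e, f, hf, h1, h0⟩ := hZ.1.2.sep ((cmp_finite B a).toFinset.erase Z) fun Z' hZ' hc => by
    rw [Finset.mem_erase, Set.Finite.mem_toFinset] at hZ'
    have h2 : Z' ⊆ a ∩ cl B Z' := Set.subset_inter hZ'.2.1.1 (sub_cl B Z')
    have h3 : a ∩ cl B Z' ⊆ Z' := hZ'.2.2 ⟨Set.inter_subset_left,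
      hZ'.2.1.2.between h2 Set.inter_subset_right⟩ h2
    have h4 : Z ⊆ Z' := (Set.subset_inter hZ.1.1 hc).trans h3
    exact hZ'.1 (Set.Subset.antisymm (hZ.2 hZ'.2.1 h4) h4)
  exact ⟨e, f, hf, h1, fun Z' h2 h3 => h0 Z' (by
    rw [Finset.mem_erase, Set.Finite.mem_toFinset]; exact ⟨h3, h2⟩)⟩

/-- a bijection that respects irreducibility and fixes `a` permutes the components -/
theorem cmp_image (F : T ≃ T) (hF : ∀ Z, Irr B (F '' Z) ↔ Irr B Z) (ha : F '' a = a) :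
    F '' Z ∈ Cmp B a ↔ Z ∈ Cmp B a := by
  have hs : ∀ W, F '' W ⊆ a ↔ W ⊆ a := fun W => by
    conv_lhs => rw [← ha]
    exact Set.image_subset_image_iff F.injective
  constructor
  · intro h
    refine ⟨⟨(hs Z).1 h.1.1, (hF Z).1 h.1.2⟩, fun W hW hle => ?_⟩
    exact (Set.image_subset_image_iff F.injective).1
      (h.2 ⟨(hs W).2 hW.1, (hF W).2 hW.2⟩ (Set.image_mono hle))
  · intro h
    refine ⟨⟨(hs Z).2 h.1.1, (hF Z).2 h.1.2⟩, fun W hW hle => ?_⟩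
    obtain ⟨W, rfl⟩ := F.surjective.image_surjective W
    exact Set.image_mono (h.2 ⟨(hs W).1 hW.1, (hF W).1 hW.2⟩
      ((Set.image_subset_image_iff F.injective).1 hle))

end Pool.Agent.Tav.K0
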