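import Pool.Agent.P.MP_2ce3e7_ag.Tav.SliceL
import Pool.Agent.P.MP_2ce3e7_ag.Tav.Par
import Pool.Agent.P.MP_2ce3e7_ag.Tav.FibM
import Pool.Agent.P.MP_2ce3e7_ag.Tav.KComp
import Pool.Agent.P.MP_2ce3e7_ag.Tav.TiQuot

/-! The image of a complete source under a regular map is closed. -/

set_option autoImplicit false

noncomputable section

namespace Pool.Agent.Tav

open MvPolynomial Module Function

variable {Ω : Type} [Field Ω] {T Y : Type} {β γ : Type} [Fintype β] [Fintype γ]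

namespace Cp

theorem prod_sub {A I : Type} [CommRing A] [Algebra Ω A] {U P : Submodule Ω A} (h : U ≤ P)
    (s : Finset I) {a b : I → A} (hb : ∀ i, b i ∈ P) (hab : ∀ i, a i - b i ∈ U) :
    ∀ c ∈ P, c * (∏ i ∈ s, a i - ∏ i ∈ s, b i) ∈ U * P ^ s.card := by
  classical
  induction s using Finset.induction_on with
  | empty => simp
  | insert i s hi ih =>
    intro c hc
    have ha : a i ∈ P := by simpa using P.add_mem (h (hab i)) (hb i)
    have h1 : ∏ i ∈ s, b i ∈ P ^ s.card := by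
      rw [← Finset.prod_const]
      exact K0.prod_mem s fun i _ => hb i
    have e : c * (a i * ∏ i ∈ s, a i - b i * ∏ i ∈ s, b i) =
        c * (∏ i ∈ s, a i - ∏ i ∈ s, b i) * a i + (a i - b i) * ((∏ i ∈ s, b i) * c) := by ring
    rw [Finset.prod_insert hi, Finset.prod_insert hi, Finset.card_insert_of_notMem hi, e, pow_succ]
    refine Submodule.add_mem _ ?_ (Submodule.mul_mem_mul (hab i) (Submodule.mul_mem_mul h1 hc))
    rw [← mul_assoc]
    exact Submodule.mul_mem_mul (ih c hc) ha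

/-- the determinant trick -/
theorem det_trick {U P : Submodule Ω (T → Ω)} (h : U ≤ P) {n : ℕ} (m : Fin n → T → Ω)
    (h0 : ∀ t, ∃ i, m i t ≠ 0) {l : T → Ω} (hl : l ∈ P)
    (hm : ∀ i, l * m i ∈ U * Submodule.span Ω (Set.range m)) : l ^ (n + 1) ∈ U * P ^ n := by
  have h1 : ∀ x ∈ U * Submodule.span Ω (Set.range m), ∃ u : Fin n → T → Ω, (∀ j, u j ∈ U) ∧
      x = ∑ j, u j * m j := fun x hx => by
    refine Submodule.mul_induction_on hx (fun a ha b hb => ?_) ?_
    · obtain ⟨c, rfl⟩ := (Submodule.mem_span_range_iff_exists_fun Ω).1 hb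
      exact ⟨fun j => c j • a, fun j => U.smul_mem _ ha, by simp [Finset.mul_sum]⟩
    · rintro _ _ ⟨u, hu, rfl⟩ ⟨v, hv, rfl⟩
      exact ⟨u + v, fun j => U.add_mem (hu j) (hv j), by simp [add_mul, Finset.sum_add_distrib]⟩
  choose u hu e using fun i => h1 _ (hm i)
  let N : Matrix (Fin n) (Fin n) (T → Ω) := l • 1 - Matrix.of u
  have h2 : N.mulVec m = 0 := funext fun i => by
    simp only [N, Matrix.sub_mulVec, Matrix.smul_mulVec, Matrix.one_mulVec]
    exact sub_eq_zero.2 (e i)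
  have h3 : N.det = 0 := funext fun t => by
    obtain ⟨i, hi⟩ := h0 t
    have := congrArg (N.adjugate.mulVec) h2
    rw [Matrix.mulVec_mulVec, Matrix.adjugate_mul, Matrix.smul_mulVec, Matrix.one_mulVec,
      Matrix.mulVec_zero] at this
    exact (mul_eq_zero.1 (congrFun (congrFun this i) t)).resolve_right hi
  have h4 : l ^ (n + 1) = l * ((l • (1 : Matrix (Fin n) (Fin n) (T → Ω))).det - N.det) := by
    rw [h3, Matrix.det_smul, Matrix.det_one, Fintype.card_fin]
    ring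
  have h5 : ∀ i j, N i j ∈ P := fun i j => by
    refine P.sub_mem ?_ (h (hu i j))
    by_cases hij : i = j <;> simp [hij, hl]
  rw [h4, Matrix.det_apply, Matrix.det_apply, ← Finset.sum_sub_distrib, Finset.mul_sum]
  refine Submodule.sum_mem _ fun g _ => ?_
  rw [← smul_sub, Units.smul_def, mul_smul_comm]
  refine Submodule.smul_of_tower_mem _ _ ?_
  have := prod_sub h Finset.univ (a := fun i => (l • (1 : Matrix (Fin n) (Fin n) (T → Ω))) (g i) i)
    (b := fun i => N (g i) i) (fun i => h5 _ _) (fun i => by simpa [N] using hu _ _) l hl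
  rwa [Finset.card_univ, Fintype.card_fin] at this

/-- finitely many members of a family of forms without common zero have no common zero -/
theorem fin_cover (B : β → LS Ω T) {e : T → β → ℕ} {f : T → T → Ω} (hf : ∀ t, f t ∈ pc B (e t))
    (h0 : ∀ t, f t t ≠ 0) : ∃ S : Finset T, ∀ t, ∃ s ∈ S, f s t ≠ 0 := by
  classical
  obtain ⟨σ, _, w, x, hx⟩ := Sl.exists_co B
  choose F _ hF using fun t => (Sl.mem_pc hx).1 (hf t)
  obtain ⟨S, hS, hI⟩ := (Submodule.fg_span_iff_fg_span_finset_subset (Set.range F)).1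
    (IsNoetherian.noetherian (R := MvPolynomial σ Ω) _)
  choose g hg using fun p : S => hS p.2
  refine ⟨Finset.univ.image g, fun t => by_contra fun hn => h0 t ?_⟩
  have h1 : Ideal.span (S : Set (MvPolynomial σ Ω)) ≤
      RingHom.ker ((Pi.evalAlgHom Ω (fun _ : T => Ω) t).comp (aeval x)) :=
    Ideal.span_le.2 fun p hp => by
      rw [show p = F (g ⟨p, hp⟩) from (hg ⟨p, hp⟩).symm]
      change aeval x (F (g ⟨p, hp⟩)) t = 0
      rw [hF]
      exact not_not.1 fun h => hn ⟨_, Finset.mem_image_of_mem g (Finset.mem_univ _), h⟩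
  rw [← hF]
  exact h1 (hI.le (Submodule.subset_span ⟨t, rfl⟩))

variable {σ : Type} [Finite σ] [DecidableEq β] {w : σ → β} {x : σ → T → Ω} {B : β → LS Ω T}

omit [Fintype β] [Finite σ] in
theorem kills {y : σ → Ω} : (∀ f ∈ kerG Ω w x, eval y f = 0) ↔
    ∀ d, ∀ f ∈ Sd Ω w d, aeval x f = 0 → eval y f = 0 :=
  ⟨fun h _ f hf h0 => h f ((mem_kerG hf).2 h0), fun h _ hf =>
    (Ideal.span_le (I := RingHom.ker (MvPolynomial.eval y))).2 (fun g hg => hg.2.elim fun d hd =>
      h d g hd hg.1) hf⟩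

omit [Finite σ] in
theorem prod_X_mem (s : β → σ) (hs : ∀ i, w (s i) = i) :
    (∏ i, X (s i) : MvPolynomial σ Ω) ∈ Sd Ω w fun _ => 1 := by
  have := IsWeightedHomogeneous.prod (w := wN w) Finset.univ (fun i => (X (s i) : MvPolynomial σ Ω))
    (fun i => Pi.single i 1) fun i _ => by simpa [hs] using X_mem_Sd (Ω := Ω) (β := w) (s i)
  rw [Finset.univ_sum_single (fun _ : β => 1)] at this
  exact this

/-- integrality over spaces without common zero gives closedness -/
theorem cl_of_int (h : ∀ i, blk Ω w x i = (B i).sp)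
    (H : ∀ U ≤ pc B fun _ => 1, (∀ t, ∃ u ∈ U, u t ≠ 0) → ∀ l ∈ pc B fun _ => 1,
      ∃ n, l ^ (n + 1) ∈ U * pc B (fun _ => 1) ^ n) : Sl.Cl w x := by
  refine ⟨Sl.nz_of_blk h, fun y hy hk => ?_⟩
  let V : (β → ℕ) → Submodule Ω (T → Ω) := fun d =>
    (Sd Ω w d ⊓ LinearMap.ker (aeval y : MvPolynomial σ Ω →ₐ[Ω] Ω).toLinearMap).map
      (aeval x).toLinearMap
  have hV : ∀ a b, V a * pc B b ≤ V (a + b) := fun a b => Submodule.mul_le.2 (by
    rintro _ ⟨F, ⟨hF, h0⟩, rfl⟩ g hg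
    obtain ⟨G, hG, rfl⟩ := (Sl.mem_pc h).1 hg
    refine ⟨F * G, ⟨IsWeightedHomogeneous.mul hF hG, ?_⟩, map_mul (aeval x) F G⟩
    change aeval y (F * G) = 0
    rw [map_mul, show aeval y F = 0 from h0, zero_mul])
  have hp : ∀ n : ℕ, pc B (fun _ => 1) ^ n = pc B (n • fun _ => 1) := fun n => by
    simp only [pc, ← Finset.prod_pow, ← pow_mul]
    simp
  obtain ⟨t, ht⟩ : ∃ t, ∀ u ∈ V fun _ => 1, u t = 0 := by
    by_contra hn
    choose s hs h0 using hy
    have hL := prod_X_mem (Ω := Ω) s hs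
    obtain ⟨n, h1⟩ := H (V fun _ => 1) (by
      rintro _ ⟨F, hF, rfl⟩
      exact (Sl.mem_pc h).2 ⟨F, hF.1, rfl⟩) (fun t => by
      by_contra h2
      exact hn ⟨t, fun u hu => not_not.1 fun h3 => h2 ⟨u, hu, h3⟩⟩) _
      ((Sl.mem_pc h).2 ⟨_, hL, rfl⟩)
    rw [hp] at h1
    obtain ⟨G, ⟨hG, g0⟩, e⟩ := hV _ _ h1
    have h2 : (∏ i, X (s i)) ^ (n + 1) - G ∈ Sd Ω w ((fun _ => 1) + n • fun _ => 1) := by
      refine Submodule.sub_mem _ ?_ hG
      rw [← succ_nsmul']
      exact IsWeightedHomogeneous.pow hL _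
    have h3 := kills.1 hk _ _ h2 (by rw [map_sub, map_pow]; exact sub_eq_zero.2 e.symm)
    rw [map_sub, show eval y G = 0 from g0, sub_zero, map_pow, map_prod] at h3
    exact pow_ne_zero _ (Finset.prod_ne_zero_iff.2 fun i _ => by simpa using h0 i) h3
  choose s hs h0 using Sl.nz_of_blk h t
  obtain ⟨c, hc⟩ := FibM.par_of_minors (β := w) (S := Set.univ) (y := y) (y' := fun s => x s t)
    (fun i _ => ⟨s i, hs i, h0 i⟩) fun a b hab _ => by
      have m : ∀ a, w a = w b → (X a * ∏ i ∈ Finset.univ.erase (w b), X (s i) :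
          MvPolynomial σ Ω) ∈ Sd Ω w fun _ => 1 := fun a ha => by
        have := prod_X_mem (Ω := Ω) (w := w) (update s (w b) a) fun i => by
          by_cases e : i = w b
          · rw [e, update_self, ha]
          · rw [update_of_ne e, hs]
        rw [← Finset.mul_prod_erase _ _ (Finset.mem_univ (w b)), update_self,
          Finset.prod_congr rfl fun i hi => by rw [update_of_ne (Finset.ne_of_mem_erase hi)]]
          at this
        exact this
      have := ht _ ⟨_, ⟨Submodule.sub_mem _ (Submodule.smul_mem _ (y a) (m b rfl))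
        (Submodule.smul_mem _ (y b) (m a hab)), by simp; ring⟩, rfl⟩
      simp only [AlgHom.toLinearMap_apply, map_sub, map_smul, map_mul, map_prod, aeval_X,
        Pi.sub_apply, Pi.smul_apply, Pi.mul_apply, Finset.prod_apply, smul_eq_mul] at this
      refine mul_right_cancel₀ (Finset.prod_ne_zero_iff.2
        fun i (_ : i ∈ Finset.univ.erase (w b)) => h0 i) ?_
      linear_combination this
  exact ⟨t, c, fun v => hc v trivial⟩

end Cp

variable [IsAlgClosed Ω] {A : β → LS Ω T} {C : γ → LS Ω Y}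

/-- a space of forms without common zero on a complete source is base point free -/
theorem Cmp.bpf0 (h : Cmp A) {e : β → ℕ} {U : Submodule Ω (T → Ω)} (hU : U ≤ pc A e)
    (h0 : ∀ t, ∃ u ∈ U, u t ≠ 0) : Bpf A e U := by
  obtain ⟨σ, _, _, w, x, h1, h2⟩ := h
  obtain rfl : A = LS.blk w (fun t s => x s t) h2.1 := funext fun i => LS.ext' (h1 i).symm
  refine Bpf.of_cl _ (fun y hy hz => ?_) hU h0
  obtain ⟨t, c, hc⟩ := h2.2 y hy (Cp.kills.2 fun d f hf h3 => hz d f hf fun t =>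
    (congrFun (aeval_fun (fun t s => x s t) f) t).symm.trans (congrFun h3 t))
  refine ⟨t, c, fun b hb => ?_, hc⟩
  obtain ⟨s, rfl, hs⟩ := hy b
  exact hs (by rw [hc, hb, zero_mul])

theorem Cmp.int (h : Cmp A) {U P : Submodule Ω (T → Ω)} (hU : U ≤ P) (h0 : ∀ t, ∃ u ∈ U, u t ≠ 0)
    (hP : ∀ t, ∃ (e : β → ℕ) (lam : T → Ω), lam t ≠ 0 ∧ ∀ u ∈ P, lam * u ∈ pc A e)
    {l : T → Ω} (hl : l ∈ P) : ∃ n, l ^ (n + 1) ∈ U * P ^ n := by
  classical
  choose e lam h1 h2 using hP
  choose u hu h3 using h0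
  obtain ⟨S, hS⟩ := Cp.fin_cover A (fun t => h2 t _ (hU (hu t))) fun t => mul_ne_zero (h1 t) (h3 t)
  let a : β → ℕ := ∑ s ∈ S, e s
  let M : Submodule Ω (T → Ω) := ⨆ s ∈ S, Submodule.span Ω {lam s} * pc A (a - e s)
  have hM : M * P ≤ pc A a := by
    rw [← Submodule.le_div_iff_mul_le]
    refine iSup₂_le fun s hs => ?_
    rw [Submodule.le_div_iff_mul_le, mul_right_comm]
    have : a = e s + (a - e s) := (add_tsub_cancel_of_le (Finset.single_le_sum
      (f := e) (fun _ _ => zero_le) hs)).symm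
    rw [(congrArg (pc A) this).trans (pc_add A (e s) (a - e s))]
    refine mul_le_mul_left (Submodule.mul_le.2 fun p hp q hq => ?_) _
    obtain ⟨c, rfl⟩ := Submodule.mem_span_singleton.1 hp
    rw [smul_mul_assoc]
    exact Submodule.smul_mem _ _ (h2 s q hq)
  obtain ⟨N, hN⟩ := h.bpf0 ((mul_le_mul_right hU M).trans hM) fun t => by
    obtain ⟨s, hs, h4⟩ := hS t
    obtain ⟨v, hv, h5⟩ := pc_nv A (a - e s) t
    refine ⟨lam s * v * u s, Submodule.mul_mem_mul ((le_iSup₂_of_le s hs le_rfl : _ ≤ M)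
      (Submodule.mul_mem_mul (Submodule.mem_span_singleton_self _) hv)) (hu s), ?_⟩
    rw [mul_right_comm]
    exact mul_ne_zero h4 h5
  have h4 := hN (fun _ => N) fun _ => le_rfl
  have := fun d => gp_fd_pc A d
  have f1 : (M * pc A fun _ => N).FG := by
    refine Submodule.FG.mul (Submodule.fg_biSup S _ fun s _ => Submodule.FG.mul
      (Submodule.fg_span_singleton _) ?_) ?_ <;>
    exact (Submodule.fg_iff_finiteDimensional _).2 inferInstance
  obtain ⟨n, m, hm⟩ := Submodule.fg_iff_exists_fin_generating_family.1 f1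
  have h5 : P * (M * pc A fun _ => N) ≤ U * (M * pc A fun _ => N) := by
    rw [mul_left_comm U, ← mul_assoc M U, h4, add_comm, pc_add, ← mul_assoc, mul_comm P]
    exact mul_le_mul_left hM _
  refine ⟨n, Cp.det_trick hU m (fun t => by_contra fun hn => ?_) hl fun i =>
    hm ▸ h5 (Submodule.mul_mem_mul hl (hm ▸ Submodule.subset_span ⟨i, rfl⟩))⟩
  obtain ⟨v, hv, h6⟩ := pc_nv A ((fun _ => N) + a) t
  rw [← h4, mul_right_comm, ← hm] at hv
  refine h6 ((Submodule.mul_le (P := LinearMap.ker (LinearMap.proj t : (T → Ω) →ₗ[Ω] Ω))).2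
    (fun p hp q _ => ?_) hv)
  have : p t = 0 := (Submodule.span_le
    (p := LinearMap.ker (LinearMap.proj t : (T → Ω) →ₗ[Ω] Ω))).2 (by
      rintro _ ⟨i, rfl⟩
      exact not_not.1 fun h => hn ⟨i, h⟩) hp
  change p t * q t = 0
  rw [this, zero_mul]

/-- closed image, in any coordinates -/
theorem Cmp.cl_reg (h : Cmp A) {W : γ → LS Ω T} (hW : ∀ k, Reg A (W k)) {τ : Type} [Finite τ]
    [DecidableEq γ] {v : τ → γ} {z : τ → T → Ω} (hz : ∀ k, blk Ω v z k = (W k).sp) :
    Sl.Cl v z :=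
  Cp.cl_of_int hz fun _ hU h0 _ hl => h.int hU h0 (fun t => reg_pc hW t _) hl

/-- closed image -/
theorem Cmp.reg (h : Cmp A) {W : γ → LS Ω T} (hW : ∀ k, Reg A (W k)) : Cmp W := by
  classical
  obtain ⟨τ, _, v, z, hz⟩ := Sl.exists_co W
  exact ⟨τ, inferInstance, inferInstance, v, z, hz, h.cl_reg hW hz⟩

theorem Cmp.cl (h : Cmp A) {τ : Type} [Finite τ] [DecidableEq γ] {v : τ → γ} {z : T → τ → Ω}
    (hz : ∀ t b, ∃ s, v s = b ∧ z t s ≠ 0) (hW : ∀ k, Reg A (LS.blk v z hz k)) : Cl v z := by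
  intro y hy H
  obtain ⟨t, c, hc⟩ := (h.cl_reg hW (z := fun s t => z t s) fun _ => rfl).2 y hy
    (Cp.kills.2 fun d f hf h3 => H d f hf fun t =>
      (congrFun (aeval_fun z f) t).symm.trans (congrFun h3 t))
  refine ⟨t, c, fun b hb => ?_, hc⟩
  obtain ⟨s, rfl, hs⟩ := hy b
  exact hs (by rw [hc, hb, zero_mul])

/-- every point of the closure of the target comes from the source -/
theorem Cmp.point (h : Cmp A) {j : T → Y} (hj : RegM A C j) (hd : Dense j C) {τ : Type} [Finite τ]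
    [DecidableEq γ] {v : τ → γ} {z : τ → Y → Ω} (hz : ∀ k, blk Ω v z k = (C k).sp) {y : τ → Ω}
    (hy : Sl.Nz v y) (H : ∀ d, ∀ f ∈ Sd Ω v d, aeval z f = 0 → eval y f = 0) :
    ∃ t, ∃ c : γ → Ω, ∀ s, y s = c (v s) * z s (j t) := by
  refine (h.cl_reg hj (Sl.blk_pb hz j)).2 y hy (Cp.kills.2 fun d f hf h0 => H d f hf ?_)
  refine hd d _ ((Sl.mem_pc hz).2 ⟨f, hf, rfl⟩) ?_
  rw [← h0, ← AlgHom.comp_apply, comp_aeval]
  rfl

theorem Cmp.of_dense (h : Cmp A) {j : T → Y} (hj : RegM A C j) (hd : Dense j C) : Cmp C := by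
  classical
  obtain ⟨τ, _, v, z, hz⟩ := Sl.exists_co C
  refine ⟨τ, inferInstance, inferInstance, v, z, hz, Sl.nz_of_blk hz, fun y hy H => ?_⟩
  obtain ⟨t, hc⟩ := h.point hj hd hz hy (Cp.kills.1 H)
  exact ⟨j t, hc⟩

omit [IsAlgClosed Ω] in
theorem Qt.Sep.eq_of {τ : Type} [Finite τ] [DecidableEq γ] {v : τ → γ} {z : τ → Y → Ω}
    (hs : Qt.Sep C) (hz : ∀ k, blk Ω v z k = (C k).sp) {y y' : Y} {c : γ → Ω}
    (h : ∀ s, z s y = c (v s) * z s y') : y = y' := by
  by_contra hn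
  obtain ⟨e, f, hf, h1, h2⟩ := hs y y' hn
  obtain ⟨F, hF, rfl⟩ := (Sl.mem_pc hz).1 hf
  have e1 := fun y => congrFun (aeval_fun (fun t s => z s t) F) y
  refine h1 ((e1 y).trans ?_)
  rw [funext h, eval_bpar hF, ← e1, h2, mul_zero]

/-- a dense regular map from a complete source to a separated target is onto -/
theorem Cmp.surj (h : Cmp A) {j : T → Y} (hj : RegM A C j) (hd : Dense j C) (hs : Qt.Sep C) :
    Surjective j := fun y => by
  classical
  obtain ⟨τ, _, v, z, hz⟩ := Sl.exists_co C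
  obtain ⟨t, c, hc⟩ := h.point hj hd hz (Sl.nz_of_blk hz y) fun d f _ h0 =>
    (congrFun (aeval_fun (fun t s => z s t) f) y).symm.trans (congrFun h0 y)
  exact ⟨t, (hs.eq_of hz hc).symm⟩

omit [IsAlgClosed Ω] in
/-- closed subsets of a complete source are complete -/
theorem Cmp.res (h : Cmp A) {Z : Set T} (hZ : K0.cl A Z ⊆ Z) : Cmp (K0.res A Z) := by
  obtain ⟨U, hU, h1, h2⟩ := h.closure (Subtype.val : Z → T)
  obtain rfl : U = Z := Set.Subset.antisymm (fun t ht => hZ fun d f hf h0 =>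
    congrFun (h2 d _ (pb_mem_pc (Subtype.val : U → T) hf) (funext fun z => h0 z z.2)) ⟨t, ht⟩)
    fun t ht => hU ⟨t, ht⟩
  exact h1

end Pool.Agent.Tav
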