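import Pool.Agent.P.MP_2ce3e7_ag.Tav.CuMain
import Pool.Agent.P.MP_2ce3e7_ag.Tav.TiCpl

/-! Images of complete varieties, generated groups, Hilbert function of a curve. -/

set_option autoImplicit false

noncomputable section

namespace Pool.Agent.Tav.Cu

open Filter

variable {Ω : Type} [Field Ω] {T S G σ : Type}

theorem av_sup_pow {A B P U : Submodule Ω (T → Ω)} (hA : A ≤ P) (hB : B ≤ P) {a b : ℕ}
    (h1 : A ^ (a + 1) ≤ U * P ^ a) (h2 : B ^ (b + 1) ≤ U * P ^ b) :
    (A ⊔ B) ^ (a + b + 1) ≤ U * P ^ (a + b) := by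
  have key : ∀ m i j, m + i + j = a + b + 1 →
      (A ⊔ B) ^ m * A ^ i * B ^ j ≤ U * P ^ (a + b) := by
    intro m
    induction m with
    | zero =>
      intro i j h
      rw [pow_zero, one_mul]
      rcases le_or_gt (a + 1) i with hi | hi
      · obtain ⟨c, rfl⟩ := Nat.exists_eq_add_of_le hi
        calc A ^ (a + 1 + c) * B ^ j = A ^ (a + 1) * (A ^ c * B ^ j) := by ring
          _ ≤ U * P ^ a * (P ^ c * P ^ j) := mul_le_mul' h1
              (mul_le_mul' (pow_le_pow_left' hA c) (pow_le_pow_left' hB j))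
          _ = _ := by rw [show a + b = a + (c + j) by omega]; ring
      · obtain ⟨c, rfl⟩ := Nat.exists_eq_add_of_le (show b + 1 ≤ j by omega)
        calc A ^ i * B ^ (b + 1 + c) = B ^ (b + 1) * (A ^ i * B ^ c) := by ring
          _ ≤ U * P ^ b * (P ^ i * P ^ c) := mul_le_mul' h2
              (mul_le_mul' (pow_le_pow_left' hA i) (pow_le_pow_left' hB c))
          _ = _ := by rw [show a + b = b + (i + c) by omega]; ring
    | succ m ih =>
      intro i j h
      have e : (A ⊔ B) ^ (m + 1) * A ^ i * B ^ j =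
          (A ⊔ B) ^ m * A ^ (i + 1) * B ^ j ⊔ (A ⊔ B) ^ m * A ^ i * B ^ (j + 1) := by
        simp only [← Submodule.add_eq_sup]
        ring
      rw [e]
      exact sup_le (ih _ _ (by omega)) (ih _ _ (by omega))
  simpa using key (a + b + 1) 0 0 rfl

theorem av_pow_le {P U : Submodule Ω (T → Ω)} (hP : P.FG) {n : ℕ}
    (h : ∀ l ∈ P, l ^ (n + 1) ∈ U * P ^ n) : ∃ K, P ^ (K + 1) ≤ U * P ^ K := by
  classical
  have key : ∀ s : Finset (T → Ω), (∀ l ∈ s, l ∈ P) →
      ∃ K, Submodule.span Ω (s : Set (T → Ω)) ^ (K + 1) ≤ U * P ^ K := by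
    intro s
    induction s using Finset.induction_on with
    | empty => exact fun _ => ⟨0, by simp⟩
    | insert l s _ ih =>
      intro hs
      obtain ⟨K, hK⟩ := ih fun x hx => hs x (Finset.mem_insert_of_mem hx)
      have hl := hs l (Finset.mem_insert_self _ _)
      refine ⟨n + K, ?_⟩
      rw [Finset.coe_insert, Submodule.span_insert]
      refine av_sup_pow ((Submodule.span_singleton_le_iff_mem _ _).2 hl)
        (Submodule.span_le.2 fun x hx => hs x (Finset.mem_insert_of_mem hx)) ?_ hK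
      rw [Submodule.span_pow, Set.singleton_pow, Submodule.span_singleton_le_iff_mem]
      exact h l hl
  obtain ⟨s, rfl⟩ := hP
  exact key s fun l hl => Submodule.subset_span hl

variable {L V : Submodule Ω (T → Ω)} {M : Submodule Ω (S → Ω)}

/-- a regular system on a complete variety is complete -/
theorem Cpl.of_mp (hc : Cpl L) (hL : L.FG) (hn : Nv L) (hV : V.FG) (nV : Nv V)
    (h : Mp L V fun t => t) : Cpl V := fun d U hU h0 => by
  obtain ⟨n, h1⟩ := nv_chs hL hn (nV.pow d) (h.pow d)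
  have h2 := chs_mul L (V ^ d) n
  obtain ⟨N, hN⟩ := hc n (U * chs L (V ^ d) n)
    ((mul_le_mul_left hU _).trans (by rwa [mul_comm])) (h0.mul h1)
  obtain ⟨r, m, hm⟩ := Submodule.fg_iff_exists_fin_generating_family.1
    ((chs_fg hL (hV.pow d) (nV.pow d) n).mul (hL.pow N))
  have h3 : ∀ t, ∃ i, m i t ≠ 0 := fun t => by
    by_contra! hh
    obtain ⟨u, hu, h4⟩ := (h1.mul (hn.pow N)) t
    rw [← hm] at hu
    obtain ⟨c, rfl⟩ := (Submodule.mem_span_range_iff_exists_fun Ω).1 hu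
    exact h4 (by simp [hh])
  obtain ⟨K, hK⟩ := av_pow_le (U := U) (hV.pow d) (n := r) fun l hl =>
    Cp.det_trick hU m h3 hl fun i => by
      rw [hm, ← mul_assoc]
      refine hN ?_
      rw [pow_add, mul_comm (L ^ N)]
      refine mul_le_mul_left h2 _ ?_
      rw [mul_comm (chs _ _ _), mul_assoc]
      exact Submodule.mul_mem_mul hl (hm ▸ Submodule.subset_span ⟨i, rfl⟩)
  refine ⟨d * K, ?_⟩
  rwa [← pow_mul, ← pow_mul, Nat.mul_succ] at hK

/-- completeness can be read on a source that maps onto the variety -/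
theorem Cpl.of_map {j : T → S} (hj : Function.Surjective j)
    (h : Cpl (M.map (pb Ω j).toLinearMap)) : Cpl M := fun d U hU h0 => by
  obtain ⟨N, hN⟩ := h d (U.map (pb Ω j).toLinearMap)
    (by rw [← Submodule.map_pow]; exact Submodule.map_mono hU) (h0.map j)
  rw [← Submodule.map_pow, ← Submodule.map_pow, ← Submodule.map_mul] at hN
  refine ⟨N, (Submodule.map_le_map_iff_of_injective (fun f g e => funext fun s => ?_)
    _ _).1 hN⟩
  obtain ⟨t, rfl⟩ := hj s
  exact congrFun e t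

theorem Dm.img (h : Dm L) {j : T → S} (hm : Mp L M j) (hj : Function.Surjective j) : Dm M := by
  intro a b f hf g hg e
  by_contra! hh
  obtain ⟨s, hs⟩ := Function.ne_iff.1 hh.1
  obtain ⟨s', hs'⟩ := Function.ne_iff.1 hh.2
  obtain ⟨t, rfl⟩ := hj s
  obtain ⟨t', rfl⟩ := hj s'
  obtain ⟨x, h1, h2⟩ := h.meet (hm.ev ((At.of_mem hf _).ne hs)) (hm.ev ((At.of_mem hg _).ne hs'))
  exact mul_ne_zero h1 h2 (congrFun e (j x))

/-- the image of a complete irreducible variety under a regular map -/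
theorem Vr.img (h : Vr L) (hM : M.FG) (hn : Nv M) {j : T → S} (hm : Mp L M j)
    (hj : Function.Surjective j) : Vr M :=
  ⟨hM, hn, h.dm.img hm hj,
    Cpl.of_map hj (h.cpl.of_mp h.fg h.nv (hM.map _) (hn.map j) hm.map_id)⟩

section Grp

variable [AddCommGroup G] {H : Submodule Ω (G → Ω)} {a : T → G}

theorem sum_src [Nonempty T] (h : Vr L) (hs : Sb H) (ha : Mp L H a) (r : ℕ) :
    ∃ (Z : Type) (N : Submodule Ω (Z → Ω)) (j : Z → G), Vr N ∧ Mp N H j ∧
      ∀ D : Multiset T, D.card = r → ∃ z, j z = (D.map a).sum := by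
  induction r with
  | zero =>
    refine ⟨T, L, fun _ => 0, h, Mp.const _ _ _, fun D hD => ⟨Classical.arbitrary T, ?_⟩⟩
    rw [Multiset.card_eq_zero.1 hD, Multiset.map_zero, Multiset.sum_zero]
  | succ r ih =>
    obtain ⟨Z, N, j, h1, h2, h3⟩ := ih
    refine ⟨T × Z, box L N, fun t => a t.1 + j t.2, h.box h1,
      hs.add (ha.comp (Mp.fst L h1.nv)) (h2.comp (Mp.snd h.nv N)), fun D hD => ?_⟩
    obtain ⟨x, hx⟩ := Multiset.card_pos_iff_exists_mem.1 (show 0 < D.card by omega)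
    obtain ⟨D', rfl⟩ := Multiset.exists_cons_of_mem hx
    obtain ⟨z, hz⟩ := h3 D' (by simpa using hD)
    exact ⟨(x, z), by rw [Multiset.map_cons, Multiset.sum_cons, ← hz]⟩

/-- a group in which every element is a sum of `r` points of a complete irreducible variety -/
theorem vr_of_gen [Nonempty T] (h : Vr L) (hH : H.FG) (hn : Nv H) (hs : Sb H) (ha : Mp L H a)
    {r : ℕ} (hr : ∀ y, ∃ D : Multiset T, D.card = r ∧ (D.map a).sum = y) : Vr H := by
  obtain ⟨Z, N, j, h1, h2, h3⟩ := sum_src h hs ha r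
  refine h1.img hH hn h2 fun y => ?_
  obtain ⟨D, hD, rfl⟩ := hr y
  exact h3 D hD

theorem av_of_sb [Infinite Ω] [Fintype σ] {p : G → σ → Ω} (h : Vr (crd p)) (hs : Sb (crd p)) :
    AV p (dm p Set.univ) :=
  ⟨ne_of_nv h.nv, cl_of_cpl (ne_of_nv h.nv) h.cpl, idl_prime h.dm, rfl,
    (sb_iff (ne_of_nv h.nv)).2 hs⟩

theorem av_of_gen [Infinite Ω] [Nonempty T] [Fintype σ] (h : Vr L) {p : G → σ → Ω}
    (hp : ∀ y, p y ≠ 0) (hs : Sb (crd p)) (ha : Mp L (crd p) a) {r : ℕ}
    (hr : ∀ y, ∃ D : Multiset T, D.card = r ∧ (D.map a).sum = y) : AV p (dm p Set.univ) :=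
  av_of_sb (vr_of_gen h (Submodule.fg_span (Set.finite_range _)) (crd_nv hp) hs ha hr) hs

theorem av_of_gen' [Infinite Ω] [Nonempty T] [Fintype σ] (h : Vr L) {p : G → σ → Ω}
    (hp : ∀ y, p y ≠ 0) (hs : Sb (crd p)) (ha : Mp L (crd p) a) {r : ℕ}
    (hr : ∀ y, ∃ x : Fin r → T, ∑ i, a (x i) = y) : AV p (dm p Set.univ) :=
  av_of_gen h hp hs ha (r := r) fun y => by
    obtain ⟨x, rfl⟩ := hr y
    exact ⟨Finset.univ.val.map x, by simp, by rw [Multiset.map_map]; rfl⟩

end Grp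

section Crv

open MvPolynomial

variable [Fintype σ] {c : T → σ → Ω}

omit [Fintype σ] in
theorem dm_of_prime (h : (idl c).IsPrime) : Dm (crd c) := by
  intro a b f hf g hg e
  obtain ⟨F, hF⟩ := cone_onto c a f hf
  obtain ⟨F', hF'⟩ := cone_onto c b g hg
  have h1 : ∀ {K : MvPolynomial σ Ω} {n : ℕ} {u : T → Ω}, cone c K = Polynomial.monomial n u →
      ∀ (r : Ω) t, eval (r • c t) K = u t * r ^ n := fun h r t => by
    rw [← cone_eval, h, Polynomial.map_monomial, Polynomial.eval_monomial]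
    rfl
  have hm : F * F' ∈ idl c := by
    rintro _ ⟨r, t, rfl⟩
    change eval (r • c t) (F * F') = 0
    rw [map_mul, h1 hF, h1 hF', mul_mul_mul_comm, show f t * g t = 0 from congrFun e t, zero_mul]
  refine (h.mem_or_mem hm).imp (fun e => funext fun t => ?_) fun e => funext fun t => ?_
  · simpa using (h1 hF 1 t).symm.trans (e _ ⟨1, t, rfl⟩)
  · simpa using (h1 hF' 1 t).symm.trans (e _ ⟨1, t, rfl⟩)

theorem cl_blk [Infinite Ω] {β : Type} [DecidableEq β] [Unique β]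
    (h : ∀ z ∈ zeroLocus Ω (idl c), z ≠ 0 → ∃ x, Par z (c x)) (w : σ → β) : Cl w c := by
  obtain rfl : ‹DecidableEq β› = Classical.decEq _ := Subsingleton.elim _ _
  let _ : DecidableEq β := Classical.decEq _
  intro y hy hz
  obtain ⟨t, r, hc, e⟩ := h y (fun f hf => by
    have h1 := sum_weightedHomogeneousComponent (wN w) f
    rw [finsum_eq_sum _ (weightedHomogeneousComponent_finsupp (w := wN w) f)] at h1
    rw [← h1, map_sum]
    exact Finset.sum_eq_zero fun d _ => hz d _ (weightedHomogeneousComponent_mem _ _ _) fun t =>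
      cmp_eval_zero (fun c => hf _ ⟨c, t, rfl⟩) d) (by
    obtain ⟨v, -, hv⟩ := hy default
    exact fun h0 => hv (congrFun h0 v))
  exact ⟨t, fun _ => r, fun _ => hc.ne_zero, fun l => congrFun e l⟩

theorem cpl_of_cl [IsAlgClosed Ω] (hc : ∀ t, c t ≠ 0)
    (h : ∀ z ∈ zeroLocus Ω (idl c), z ≠ 0 → ∃ x, Par z (c x)) : Cpl (crd c) := fun e U hU h0 => by
  have e1 : LS.blk (fun _ : σ => ()) c (hx_unit hc) = fun _ => LS.co c hc := funext (blk_unit hc)
  obtain ⟨N, hN⟩ := Bpf.of_cl (hx_unit hc) (cl_blk h _) (e := fun _ => e) (U := U)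
    (by rwa [e1, pc_unit]) h0
  have := hN (fun _ => N) fun _ => le_rfl
  rw [e1, pc_unit, pc_unit] at this
  exact ⟨N, this.ge⟩

/-- a closed irreducible image is a complete irreducible variety -/
theorem vr_of_cl [IsAlgClosed Ω] (hc : ∀ t, c t ≠ 0)
    (h : ∀ z ∈ zeroLocus Ω (idl c), z ≠ 0 → ∃ x, Par z (c x)) (hi : (idl c).IsPrime) :
    Vr (crd c) :=
  ⟨Submodule.fg_span (Set.finite_range _), crd_nv hc, dm_of_prime hi, cpl_of_cl hc h⟩

theorem lin_of_deg {P : MvPolynomial (Fin 1) ℚ} (h : P.totalDegree = 1) :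
    ∃ a b : ℚ, b ≠ 0 ∧ P = C a + C b * X 0 := by
  have e : P = C (coeff 0 P) + C (coeff (Finsupp.single 0 1) P) * X 0 := by
    ext s
    obtain ⟨n, rfl⟩ : ∃ n, s = Finsupp.single 0 n :=
      ⟨s 0, Finsupp.ext fun i => by rw [Subsingleton.elim i 0, Finsupp.single_eq_same]⟩
    rw [coeff_add, coeff_C_mul, coeff_C, coeff_X]
    rcases n with _ | _ | n
    · simp
    · simp [eq_comm (a := (0 : Fin 1 →₀ ℕ))]
    · have h1 : coeff (Finsupp.single 0 (n + 1 + 1)) P = 0 :=
        coeff_eq_zero_of_totalDegree_lt (by rw [h, Finsupp.support_single] <;> simp)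
      rw [h1, if_neg fun e => by simpa using DFunLike.congr_fun e 0,
        if_neg fun e => by simpa using DFunLike.congr_fun e 0, mul_zero, add_zero]
  refine ⟨_, _, fun h0 => ?_, e⟩
  rw [e, h0, map_zero, zero_mul, add_zero, totalDegree_C] at h
  exact zero_ne_one h

/-- the Hilbert function of a curve -/
theorem hilb_crv (hL : L.FG) (h : (hp ![L]).totalDegree = 1) : ∃ (d : ℕ) (g : ℤ) (k₀ : ℕ), d ≠ 0 ∧
    ∀ k, k₀ ≤ k → (Module.finrank Ω (L ^ k :) : ℤ) = k * d + 1 - g := by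
  have : FiniteDimensional Ω L := Module.Finite.iff_fg.2 hL
  rw [hp_eq_pf] at h
  obtain ⟨a, b, hb, e⟩ := lin_of_deg h
  obtain ⟨N, hN⟩ := Ver.evP_one L
  have h1 : ∀ k, N ≤ k → (Module.finrank Ω (L ^ k :) : ℚ) = a + b * k := fun k hk => by
    have := hN (fun _ => k) fun _ => hk
    rw [e] at this
    simpa [evN] using this.symm
  obtain ⟨b', rfl⟩ : ∃ b' : ℤ, (b' : ℚ) = b :=
    ⟨(Module.finrank Ω (L ^ (N + 1) :) : ℤ) - (Module.finrank Ω (L ^ N :) : ℤ), by
      push_cast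
      rw [h1 _ (Nat.le_succ N), h1 _ le_rfl]
      push_cast
      ring⟩
  obtain ⟨a', rfl⟩ : ∃ a' : ℤ, (a' : ℚ) = a :=
    ⟨(Module.finrank Ω (L ^ N :) : ℤ) - b' * N, by
      push_cast
      rw [h1 _ le_rfl]
      ring⟩
  have h2 : ∀ k, N ≤ k → (Module.finrank Ω (L ^ k :) : ℤ) = a' + b' * k := fun k hk => by
    exact_mod_cast h1 k hk
  have h3 : 0 ≤ b' := by
    by_contra! hh
    have h4 := h2 (N + a'.natAbs + 1) (by omega)
    have h5 : (0 : ℤ) ≤ Module.finrank Ω (L ^ (N + a'.natAbs + 1) :) := Int.natCast_nonneg _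
    have h6 : a' ≤ a'.natAbs := Int.le_natAbs
    push_cast at h4
    nlinarith [Int.natCast_nonneg N, abs_nonneg a', le_abs_self a']
  obtain ⟨d, rfl⟩ := Int.eq_ofNat_of_zero_le h3
  refine ⟨d, 1 - a', N, fun h0 => hb (by simp [h0]), fun k hk => ?_⟩
  rw [h2 k hk]
  ring

theorem infinite_of_hilb {d : ℕ} {g : ℤ} {k₀ : ℕ} (hd : d ≠ 0)
    (h : ∀ k, k₀ ≤ k → (Module.finrank Ω (L ^ k :) : ℤ) = k * d + 1 - g) : Infinite T := by
  by_contra hh
  rw [not_infinite_iff_finite] at hh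
  have h1 := h (k₀ + g.natAbs + Module.finrank Ω (T → Ω)) (by omega)
  have h2 := Submodule.finrank_le (L ^ (k₀ + g.natAbs + Module.finrank Ω (T → Ω)))
  have h3 := Nat.le_mul_of_pos_right (k₀ + g.natAbs + Module.finrank Ω (T → Ω))
    (Nat.pos_of_ne_zero hd)
  rw [← Nat.cast_mul] at h1
  omega

end Crv

end Pool.Agent.Tav.Cu
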