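import Pool.Agent.P.MP_2ce3e7_ag.Tav.CuWr

/-! The theorem of the cube on a group, and the parallelogram law for a symmetric system. -/

set_option autoImplicit false

noncomputable section

namespace Pool.Agent.Tav.Cu

open Filter

variable {Ω : Type} [Field Ω] {T G : Type} [AddCommGroup G] {H : Submodule Ω (G → Ω)}
  {L : Submodule Ω (T → Ω)} {f g : T → G}

/-- the difference is a regular map -/
def Sb (H : Submodule Ω (G → Ω)) : Prop := Mp (box H H) H fun t => t.1 - t.2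

theorem Sb.sub (h : Sb H) (hf : Mp L H f) (hg : Mp L H g) : Mp L H fun t => f t - g t :=
  Mp.comp h (hf.prod hg)

theorem Sb.neg (h : Sb H) (hf : Mp L H f) : Mp L H fun t => -f t := by
  simpa using h.sub (Mp.const L H 0) hf

theorem Sb.add (h : Sb H) (hf : Mp L H f) (hg : Mp L H g) : Mp L H fun t => f t + g t := by
  simpa using h.sub hf (h.neg hg)

/-- the germs of the bundle of the cube -/
def th (o : G → G → Ω) (t s : G × G × G) : Ω :=
  o (t.1 + t.2.1 + t.2.2) (s.1 + s.2.1 + s.2.2) * o t.1 s.1 * o t.2.1 s.2.1 * o t.2.2 s.2.2 /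
    (o (t.1 + t.2.1) (s.1 + s.2.1) * o (t.1 + t.2.2) (s.1 + s.2.2) *
      o (t.2.1 + t.2.2) (s.2.1 + s.2.2))

theorem th_add (o : G → G → Ω) (x y z x' y' z' w : G) (h1 : o (x + y + w) (x' + y' + w) ≠ 0)
    (h2 : o (x + w) (x' + w) ≠ 0) (h3 : o y y' ≠ 0) (h4 : o w w ≠ 0)
    (h5 : o (y + w) (y' + w) ≠ 0) (h6 : o (z - w) (z' - w) ≠ 0)
    (h7 : o (y + (z - w)) (y' + (z' - w)) ≠ 0) (h8 : o (y + z) (y' + z') ≠ 0) :
    th o (x, y, w) (x', y', w) * th o (x + w, y, z - w) (x' + w, y', z' - w) /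
      th o (w, y, z - w) (w, y', z' - w) = th o (x, y, z) (x', y', z') := by
  have a1 : ∀ x y z : G, x + w + y + (z - w) = x + y + z := fun _ _ _ => by abel
  have a2 : ∀ x z : G, x + w + (z - w) = x + z := fun _ _ => by abel
  have a3 : ∀ y z : G, w + y + (z - w) = y + z := fun _ _ => by abel
  have a4 : ∀ z : G, w + (z - w) = z := fun _ => by abel
  simp only [th]
  rw [a1, a1, a2, a2, a3, a3, a4, a4, add_right_comm x w y, add_right_comm x' w y', add_comm w y,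
    add_comm w y']
  field_simp

variable {o : G → G → Ω}

omit [AddCommGroup G] in
theorem o_ne (ho : ∀ x, o x ∈ H ∧ o x x ≠ 0) (hf : Mp L H f) (t : T) :
    ∀ᶠ s in nb L t, o (f t) (f s) ≠ 0 :=
  hf.ev ((At.of_mem1 (ho _).1 _).ne (ho _).2)

theorem triv_const {ε : T → T → Ω} {c : Ω} (hc : c ≠ 0) (h : ∀ t, ∀ᶠ s in nb L t, ε t s = c)
    (t : T) : Ut L t (1 / ε t) :=
  (Ut.const L t (inv_ne_zero hc)).congr ((h t).mono fun s hs => by simp [hs])

theorem bdl_th (hH : Vr H) (hs : Sb H) (ho : ∀ x, o x ∈ H ∧ o x x ≠ 0) :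
    Bdl (box H (box H H)) (th o) := by
  have hP := hH.box (hH.box hH)
  have mx := Mp.fst H (hH.nv.box hH.nv)
  have my := (Mp.fst H hH.nv).comp (Mp.snd hH.nv (box H H))
  have mz := (Mp.snd hH.nv H).comp (Mp.snd hH.nv (box H H))
  have bd := fun {f : G × G × G → G} (hf : Mp (box H (box H H)) H f) =>
    Bdl.of_mp hP.fg hP.nv hH.fg hH.nv hf ho
  have := ((((bd (hs.add (hs.add mx my) mz)).mul (bd mx)).mul (bd my)).mul (bd mz)).div
      (((bd (hs.add mx my)).mul (bd (hs.add mx mz))).mul (bd (hs.add my mz)))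
  refine (congrArg _ (funext fun t => funext fun s => ?_)).mp this
  simp only [Pi.mul_apply, Pi.div_apply, th]

theorem face (hH : Nv H) (hs : Sb H) (ho : ∀ x, o x ∈ H ∧ o x x ≠ 0) {ε : G × G → G × G → Ω}
    (h : ∀ q s, o q.1 s.1 ≠ 0 → o q.2 s.2 ≠ 0 → o (q.1 + q.2) (s.1 + s.2) ≠ 0 → ε q s = o 0 0)
    (q : G × G) : Ut (box H H) q (1 / ε q) := by
  have p1 := Mp.fst H hH
  have p2 := Mp.snd hH H
  refine triv_const (ho 0).2 (fun q => ?_) q
  filter_upwards [o_ne ho p1 q, o_ne ho p2 q, o_ne ho (hs.add p1 p2) q] with s h1 h2 h3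
  exact h q s h1 h2 h3

theorem th_face1 (a b c d : G) (h1 : o a c ≠ 0) (h2 : o b d ≠ 0) (h3 : o (a + b) (c + d) ≠ 0) :
    th o (0, a, b) (0, c, d) = o 0 0 := by
  simp only [th, zero_add]
  field_simp

theorem th_face2 (a b c d : G) (h1 : o a c ≠ 0) (h2 : o b d ≠ 0) (h3 : o (a + b) (c + d) ≠ 0) :
    th o (a, 0, b) (c, 0, d) = o 0 0 := by
  simp only [th, add_zero, zero_add]
  field_simp

theorem th_face3 (a b c d : G) (h1 : o a c ≠ 0) (h2 : o b d ≠ 0) (h3 : o (a + b) (c + d) ≠ 0) :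
    th o (a, b, 0) (c, d, 0) = o 0 0 := by
  simp only [th, add_zero]
  field_simp

theorem face1 (hH : Nv H) (hs : Sb H) (ho : ∀ x, o x ∈ H ∧ o x x ≠ 0) (q : G × G) :
    Ut (box H H) q (1 / fun q' => th o (0, q) (0, q')) :=
  face hH hs ho (ε := fun q q' => th o (0, q) (0, q')) (fun q s => th_face1 q.1 q.2 s.1 s.2) q

theorem face2 (hH : Nv H) (hs : Sb H) (ho : ∀ x, o x ∈ H ∧ o x x ≠ 0) (q : G × G) :
    Ut (box H H) q (1 / fun q' => th o (q.1, 0, q.2) (q'.1, 0, q'.2)) :=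
  face hH hs ho (ε := fun q q' => th o (q.1, 0, q.2) (q'.1, 0, q'.2))
    (fun q s => th_face2 q.1 q.2 s.1 s.2) q

theorem face3 (hH : Nv H) (hs : Sb H) (ho : ∀ x, o x ∈ H ∧ o x x ≠ 0) (q : G × G) :
    Ut (box H H) q (1 / fun q' => th o (q.1, q.2, 0) (q'.1, q'.2, 0)) :=
  face hH hs ho (ε := fun q q' => th o (q.1, q.2, 0) (q'.1, q'.2, 0))
    (fun q s => th_face3 q.1 q.2 s.1 s.2) q

theorem spread (hH : Nv H) (hs : Sb H) (ho : ∀ x, o x ∈ H ∧ o x x ≠ 0) {μ : G × G × G → Ω}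
    {w z : G} (hw : ∀ x y, Ut (box H (box H H)) (x, y, w) (μ / th o (x, y, w)))
    (hq : ∀ x y, Ut (box H (box H H)) (x, y, z - w) (μ / th o (x, y, z - w))) (x y : G) :
    Ut (box H (box H H)) (x, y, z) ((fun s : G × G × G => μ (s.1, s.2.1, w) *
      μ (s.1 + w, s.2.1, s.2.2 - w) / μ (w, s.2.1, s.2.2 - w)) / th o (x, y, z)) := by
  have mx := Mp.fst H (hH.box hH)
  have my := (Mp.fst H hH).comp (Mp.snd hH (box H H))
  have mz := (Mp.snd hH H).comp (Mp.snd hH (box H H))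
  have mw := Mp.const (box H (box H H)) H w
  have h1 := Ut.comp (t := (x, y, z)) (mx.prod (my.prod mw)) (hw x y)
  have h2 := Ut.comp (t := (x, y, z)) ((hs.add mx mw).prod (my.prod (hs.sub mz mw))) (hq (x + w) y)
  have h3 := Ut.comp (t := (x, y, z)) (mw.prod (my.prod (hs.sub mz mw))) (hq w y)
  refine ((h1.mul h2).div h3).congr ?_
  filter_upwards [o_ne ho (hs.add (hs.add mx my) mw) (x, y, z),
    o_ne ho (hs.add mx mw) (x, y, z), o_ne ho my (x, y, z),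
    o_ne ho (hs.add my mw) (x, y, z), o_ne ho (hs.sub mz mw) (x, y, z),
    o_ne ho (hs.add my (hs.sub mz mw)) (x, y, z), o_ne ho (hs.add my mz) (x, y, z)]
    with s a1 a2 a3 a5 a6 a7 a8
  simp only [Pi.mul_apply, Pi.div_apply]
  rw [← show _ = th o (x, y, z) s from
    th_add o x y z s.1 s.2.1 s.2.2 w a1 a2 a3 (ho w).2 a5 a6 a7 a8, div_mul_div_comm,
    div_div_div_comm]

theorem cube_grp (loc : S_Loc Ω) (hH : Vr H) (hs : Sb H) (ho : ∀ x, o x ∈ H ∧ o x x ≠ 0) :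
    ∃ μ : G × G × G → Ω, ∀ t, Ut (box H (box H H)) t (μ / th o t) := by
  have p1 := Mp.fst H hH.nv
  have p2 := Mp.snd hH.nv H
  have mx := Mp.fst H (hH.nv.box hH.nv)
  have mz := p2.comp (Mp.snd hH.nv (box H H))
  obtain ⟨μ, hμ⟩ := loc G G G H H H hH hH hH (th o) (bdl_th hH hs ho) 0 0 0
    ⟨1, face1 hH.nv hs ho⟩ ⟨1, face2 hH.nv hs ho⟩ ⟨1, face3 hH.nv hs ho⟩
  obtain ⟨ν, hν⟩ := glue_triv (L := box H (box H H)) (D := box H H) hH (fun q y => (q.1, y, q.2))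
    (fun t => (t.1, t.2.2)) (fun t => t.2.1) (fun _ => rfl) (fun _ _ => rfl) (mx.prod mz)
    (fun q => (Mp.const H H q.1).prod ((Mp.id H).prod (Mp.const H H q.2))) 0
    (p1.prod ((Mp.const _ H 0).prod p2)) (th o) (face2 hH.nv hs ho)
  refine ⟨ν, fun t => hν (t.1, t.2.2) ?_ t.2.1⟩
  have h0 := nb_ev hμ
  rw [← sub_self t.2.2] at h0
  obtain ⟨w, hw, hw'⟩ := hH.dm.meet hμ ((hs.sub (Mp.const H H t.2.2) (Mp.id H)).ev h0)
  refine ⟨fun s => μ (s.1, s.2.1, w) * μ (s.1 + w, s.2.1, s.2.2 - w) / μ (w, s.2.1, s.2.2 - w), ?_⟩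
  filter_upwards [(hs.sub p2 (Mp.const _ H w)).ev (t := (t.1, t.2.2)) hw'] with q hq y
  exact spread hH.nv hs ho hw hq q.1 y

/-- the symmetric system -/
def sym (H : Submodule Ω (G → Ω)) : Submodule Ω (G → Ω) :=
  H * H.map (pb Ω fun x : G => -x).toLinearMap

theorem Vr.sym (hH : Vr H) (hs : Sb H) : Vr (sym H) :=
  hH.mul (hH.fg.map _) (hH.nv.map _) (hs.neg (Mp.id H)).map_id

theorem mp_sym (hH : Nv H) : Mp (sym H) H fun x => x := Mp.of_le_mul (hH.map _)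

theorem Sb.mp_sym (hs : Sb H) (hf : Mp L H f) : Mp L (sym H) f := hf.mul (Mp.map (hs.neg hf))

theorem law_gam (loc : S_Loc Ω) (hH : Vr H) (hs : Sb H) :
    ∃ c : G × G → Ω, (∀ t, c t ≠ 0) ∧ ∀ u ∈ sym H, ∀ v ∈ sym H,
      (c * fun t => u (t.1 + t.2) * v (t.1 - t.2)) ∈ Gam (box (sym H) (sym H)) 2 := by
  choose o ho ho' using hH.nv
  have ho : ∀ x, o x ∈ H ∧ o x x ≠ 0 := fun x => ⟨ho x, ho' x⟩
  obtain ⟨μ, hμ⟩ := cube_grp loc hH hs ho
  have hL := hH.sym hs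
  have mx := (mp_sym hH.nv).comp (Mp.fst (sym H) hL.nv)
  have my := (mp_sym hH.nv).comp (Mp.snd hL.nv (sym H))
  have hO : ∀ x, (fun s => o x s * o (-x) (-s)) ∈ sym H := fun x =>
    Submodule.mul_mem_mul (ho x).1 ⟨_, (ho (-x)).1, rfl⟩
  have hO' : ∀ x, o x x * o (-x) (-x) ≠ 0 := fun x => mul_ne_zero (ho' _) (ho' _)
  refine ⟨fun t => μ (t.1, t.2, -t.2) * μ (-t.1, -t.2, t.2), fun t =>
    mul_ne_zero (nb_self (hμ _).ne2).1 (nb_self (hμ _).ne2).1, fun u hu v hv t => ?_⟩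
  have h1 := (hμ (t.1, t.2, -t.2)).comp (t := t) (mx.prod (my.prod (hs.neg my)))
  have h2 := (hμ (-t.1, -t.2, t.2)).comp (t := t) ((hs.neg mx).prod ((hs.neg my).prod my))
  have h3 := (hs.mp_sym (hs.add mx my)).ratio (t := t) (At.of_mem1 hu _) (At.of_mem1 (hO _) _)
    (hO' _)
  have h4 := (hs.mp_sym (hs.sub mx my)).ratio (t := t) (At.of_mem1 hv _) (At.of_mem1 (hO _) _)
    (hO' _)
  have h5 := (At.of_mem1 (mem_box (hO t.1) (hO t.2)) t).pow 2
  refine (((((h5.mul0 h1.1).mul0 h2.1).mul0 h3).mul0 h4).smul (o 0 0 ^ 2)⁻¹).congr ?_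
  have a0 := ho' 0
  filter_upwards [o_ne ho mx t, o_ne ho my t, o_ne ho (hs.neg mx) t, o_ne ho (hs.neg my) t,
    o_ne ho (hs.add mx my) t, o_ne ho (hs.sub mx my) t, o_ne ho (hs.neg (hs.add mx my)) t,
    o_ne ho (hs.neg (hs.sub mx my)) t] with s a1 a2 a3 a4 a5 a6 a7 a8
  have e1 : ∀ x y : G, -x + -y = -(x + y) := fun _ _ => by abel
  have e2 : ∀ x y : G, -x + y = -(x - y) := fun _ _ => by abel
  have e3 : ∀ x y : G, -x + -y + y = -x := fun _ _ => by abel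
  simp only [th, Pi.mul_apply, Pi.div_apply, Pi.smul_apply, Pi.pow_apply, smul_eq_mul,
    add_neg_cancel_right, add_neg_cancel, neg_add_cancel]
  rw [e3, e3, e1, e1, e2, e2, ← sub_eq_add_neg, ← sub_eq_add_neg]
  field_simp

theorem gam_pow {W : Submodule Ω (T → Ω)} {c : T → Ω} {k : ℕ} (h : ∀ w ∈ W, c * w ∈ Gam L k)
    (n : ℕ) : ∀ w ∈ W ^ n, c ^ n * w ∈ Gam L (k * n) := by
  induction n with
  | zero =>
    intro w hw
    rw [pow_zero, one_mul]
    exact pow_le_Gam L 0 (by simpa using hw)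
  | succ n ih =>
    intro w hw
    rw [pow_succ] at hw
    refine Submodule.mul_induction_on hw (fun a ha b hb => ?_) fun a b ha hb => ?_
    · rw [pow_succ, mul_mul_mul_comm]
      exact Gam.mul (ih a ha) (h b hb)
    · rw [mul_add (c ^ (n + 1))]; exact Submodule.add_mem _ ha hb

/-- the exact parallelogram law for a power of the symmetric system -/
theorem law_pow (loc : S_Loc Ω) (hH : Vr H) (hs : Sb H) :
    ∃ (n : ℕ) (c : G × G → Ω), (∀ t, c t ≠ 0) ∧ ∀ u ∈ sym H ^ (n + 1), ∀ v ∈ sym H ^ (n + 1),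
      (c * fun t => u (t.1 + t.2) * v (t.1 - t.2)) ∈
        box (sym H ^ (n + 1)) (sym H ^ (n + 1)) ^ 2 := by
  obtain ⟨c, h0, hc⟩ := law_gam loc hH hs
  have hB := (hH.sym hs).box (hH.sym hs)
  obtain ⟨n, hn⟩ := sat hB.fg hB.nv hB.dm hB.cpl
  refine ⟨n, c ^ (n + 1), fun t => pow_ne_zero _ (h0 t), fun u hu v hv => ?_⟩
  rw [← box_pow, ← pow_mul, mul_comm (n + 1) 2]
  refine hn _ (by omega) (gam_pow (W := (sym H).map (pb Ω fun t : G × G => t.1 + t.2).toLinearMap *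
    (sym H).map (pb Ω fun t : G × G => t.1 - t.2).toLinearMap) (fun w hw => ?_) (n + 1) _ ?_)
  · refine Submodule.mul_induction_on hw ?_ fun a b ha hb => ?_
    · rintro _ ⟨a, ha, rfl⟩ _ ⟨b, hb, rfl⟩
      exact hc a ha b hb
    · rw [mul_add]; exact Submodule.add_mem _ ha hb
  · rw [mul_pow, ← Submodule.map_pow, ← Submodule.map_pow]
    exact Submodule.mul_mem_mul (M := (sym H ^ (n + 1)).map _) ⟨u, hu, rfl⟩ ⟨v, hv, rfl⟩

end Pool.Agent.Tav.Cu
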