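import Pool.Agent.P.MP_2ce3e7_ag.Tav.CuBd

/-! Kernels of constant dimension have regular frames. -/

set_option autoImplicit false

noncomputable section

namespace Pool.Agent.Tav.Cv

open Module Matrix Cu

variable {Ω : Type} [Field Ω] {S κ ι : Type} [Fintype κ] [Fintype ι] [DecidableEq ι]

/-- pointwise form: the adjugate of one square matrix gives the frame -/
theorem ker_pt (M₀ : Matrix κ ι Ω) {n : ℕ} (h₀ : finrank Ω (LinearMap.ker M₀.mulVecLin) = n) :
    ∃ (R : Matrix ι κ Ω) (P : Matrix ι ι Ω) (b : Fin n → ι → Ω), R * M₀ + P = 1 ∧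
      ∀ (M : Matrix κ ι Ω) (c : Ω), finrank Ω (LinearMap.ker M.mulVecLin) = n →
        (R * M + c • P).det ≠ 0 →
        LinearIndependent Ω (fun j => (R * M + c • P).adjugate *ᵥ b j) ∧
          Submodule.span Ω (Set.range fun j => (R * M + c • P).adjugate *ᵥ b j) =
            LinearMap.ker M.mulVecLin := by
  classical
  obtain ⟨g, hg⟩ := M₀.mulVecLin.rangeRestrict.exists_rightInverse_of_surjective
    M₀.mulVecLin.range_rangeRestrict
  obtain ⟨r, hr⟩ := g.exists_extend
  have h1 : ∀ x, M₀ *ᵥ (r (M₀ *ᵥ x)) = M₀ *ᵥ x := fun x => by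
    have h2 : r (M₀ *ᵥ x) = g ⟨M₀ *ᵥ x, x, rfl⟩ := LinearMap.congr_fun hr ⟨M₀ *ᵥ x, x, rfl⟩
    rw [h2]
    exact congrArg Subtype.val (LinearMap.congr_fun hg ⟨M₀ *ᵥ x, x, rfl⟩)
  let β := Module.finBasisOfFinrankEq Ω (LinearMap.ker M₀.mulVecLin) h₀
  refine ⟨LinearMap.toMatrix' r, 1 - LinearMap.toMatrix' r * M₀, fun j => β j, by abel,
    fun M c hM hd => ?_⟩
  set N := LinearMap.toMatrix' r * M + c • (1 - LinearMap.toMatrix' r * M₀) with hN
  have hu : IsUnit N.det := isUnit_iff_ne_zero.2 hd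
  have hinj : Function.Injective N.mulVecLin :=
    mulVec_injective_iff_isUnit.2 ((isUnit_iff_isUnit_det N).2 hu)
  have hle : (LinearMap.ker M.mulVecLin).map N.mulVecLin ≤ LinearMap.ker M₀.mulVecLin := by
    rintro _ ⟨x, hx, rfl⟩
    have hx : M *ᵥ x = 0 := hx
    change M₀ *ᵥ (N *ᵥ x) = 0
    rw [hN, add_mulVec, ← mulVec_mulVec, hx, mulVec_zero, zero_add, smul_mulVec, sub_mulVec,
      one_mulVec, ← mulVec_mulVec, LinearMap.toMatrix'_mulVec, mulVec_smul, mulVec_sub, h1,
      sub_self, smul_zero]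
  have heq : (LinearMap.ker M.mulVecLin).map N.mulVecLin = LinearMap.ker M₀.mulVecLin :=
    Submodule.eq_of_le_of_finrank_eq hle (by
      rw [← (Submodule.equivMapOfInjective _ hinj _).finrank_eq, hM, h₀])
  have hmem : ∀ j, N.adjugate *ᵥ (β j : ι → Ω) ∈ LinearMap.ker M.mulVecLin := fun j => by
    obtain ⟨x, hx, h2⟩ : (β j : ι → Ω) ∈ (LinearMap.ker M.mulVecLin).map N.mulVecLin :=
      heq.ge (β j).2
    rw [← h2, mulVecLin_apply, mulVec_mulVec, adjugate_mul, smul_mulVec, one_mulVec]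
    exact Submodule.smul_mem _ _ hx
  have hli : LinearIndependent Ω fun j => N.adjugate *ᵥ (β j : ι → Ω) := by
    refine (β.linearIndependent.map' (LinearMap.ker M₀.mulVecLin).subtype
      (Submodule.ker_subtype _)).map' N.adjugate.mulVecLin (LinearMap.ker_eq_bot'.2 fun x hx => ?_)
    have h2 := congrArg (N *ᵥ ·) hx
    simp only [mulVecLin_apply, mulVec_mulVec, mul_adjugate, smul_mulVec, one_mulVec,
      mulVec_zero] at h2
    exact (smul_eq_zero.1 h2).resolve_left hd
  refine ⟨hli, Submodule.eq_of_le_of_finrank_eq (Submodule.span_le.2 ?_) ?_⟩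
  · rintro _ ⟨j, rfl⟩
    exact hmem j
  · rw [finrank_span_eq_card hli, hM, Fintype.card_fin]

theorem det_ev (N : Matrix ι ι (S → Ω)) (s : S) : N.det s = (N.map fun f => f s).det :=
  (Pi.evalRingHom (fun _ : S => Ω) s).map_det N

theorem adj_ev (N : Matrix ι ι (S → Ω)) (s : S) (i j : ι) :
    N.adjugate i j s = (N.map fun f => f s).adjugate i j :=
  congrFun (congrFun ((Pi.evalRingHom (fun _ : S => Ω) s).map_adjugate N) i) j

/-- polynomial form: entries in a subspace `W` that has a member `o` not zero at `s₀` -/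
theorem ker_poly (W : Submodule Ω (S → Ω)) {s₀ : S} {o : S → Ω} (ho : o ∈ W) (ho' : o s₀ ≠ 0)
    (M : S → Matrix κ ι Ω) (hM : ∀ k i, (fun s => M s k i) ∈ W) {n : ℕ}
    (h₀ : finrank Ω (LinearMap.ker (M s₀).mulVecLin) = n) :
    ∃ (δ : S → Ω) (v : Fin n → S → ι → Ω), δ ∈ W ^ (Fintype.card ι + 1) ∧ δ s₀ ≠ 0 ∧
      (∀ j i, (fun s => v j s i) ∈ W ^ Fintype.card ι) ∧
      ∀ s, δ s ≠ 0 → finrank Ω (LinearMap.ker (M s).mulVecLin) = n →
        LinearIndependent Ω (fun j => v j s) ∧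
          Submodule.span Ω (Set.range fun j => v j s) = LinearMap.ker (M s).mulVecLin := by
  obtain ⟨R, P, b, h1, h2⟩ := ker_pt (M s₀) h₀
  let N : Matrix ι ι (S → Ω) := Matrix.of fun i j s => (R * M s + (o s / o s₀) • P) i j
  have hN : ∀ s, N.map (fun f => f s) = R * M s + (o s / o s₀) • P := fun s => rfl
  have hW : ∀ i j, N i j ∈ W := fun i j => by
    have : N i j = (∑ k, R i k • fun s => M s k j) + (P i j / o s₀) • o := funext fun s => by
      simp only [N, Matrix.of_apply, Matrix.add_apply, Matrix.mul_apply, Matrix.smul_apply,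
        smul_eq_mul, Pi.add_apply, Finset.sum_apply, Pi.smul_apply]
      ring
    rw [this]
    exact W.add_mem (W.sum_mem fun k _ => W.smul_mem _ (hM k j)) (W.smul_mem _ ho)
  refine ⟨N.det * o, fun j s => o s • ((R * M s + (o s / o s₀) • P).adjugate *ᵥ b j), ?_, ?_,
    fun j i => ?_, fun s hs hn => ?_⟩
  · rw [pow_succ]
    exact Submodule.mul_mem_mul (det_mem_pow hW) ho
  · rw [Pi.mul_apply, det_ev, hN, div_self ho', one_smul, h1, det_one, one_mul]
    exact ho'
  · have : (fun s => (o s • ((R * M s + (o s / o s₀) • P).adjugate *ᵥ b j)) i) =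
        ∑ l, b j l • (o * N.adjugate i l) := funext fun s => by
      simp only [Pi.smul_apply, smul_eq_mul, mulVec, dotProduct, Finset.sum_apply, Pi.mul_apply,
        adj_ev, hN, Finset.mul_sum]
      exact Finset.sum_congr rfl fun l _ => by ring
    rw [this]
    exact Submodule.sum_mem _ fun l _ => Submodule.smul_mem _ _ (adj_mem_pow hW ho i l)
  · rw [Pi.mul_apply, det_ev, hN] at hs
    obtain ⟨h3, h4⟩ := h2 (M s) _ hn (left_ne_zero_of_mul hs)
    have h5 := h3.units_smul fun _ => Units.mk0 (o s) (right_ne_zero_of_mul hs)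
    refine ⟨h5, Submodule.eq_of_le_of_finrank_eq (Submodule.span_le.2 ?_) ?_⟩
    · rintro _ ⟨j, rfl⟩
      exact Submodule.smul_mem _ _ (h4.le (Submodule.subset_span ⟨j, rfl⟩))
    · rw [hn]
      exact (finrank_span_eq_card h5).trans (by simp)

/-- KER -/
theorem ker_reg {L : Submodule Ω (S → Ω)} {s₀ : S} (M : S → Matrix κ ι Ω)
    (hM : ∀ k i, At L 0 s₀ fun s => M s k i) {n : ℕ}
    (hn : ∀ᶠ s in nb L s₀, finrank Ω (LinearMap.ker (M s).mulVecLin) = n) :
    ∃ v : Fin n → S → ι → Ω, (∀ j i, At L 0 s₀ fun s => v j s i) ∧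
      ∀ᶠ s in nb L s₀, LinearIndependent Ω (fun j => v j s) ∧
        Submodule.span Ω (Set.range fun j => v j s) = LinearMap.ker (M s).mulVecLin := by
  obtain ⟨δ, v, h1, h2, h3, h4⟩ := ker_poly (reg L s₀).toSubmodule (s₀ := s₀)
    (one_mem (reg L s₀)) one_ne_zero M hM
    (nb_self (p := fun s => finrank Ω (LinearMap.ker (M s).mulVecLin) = n) hn)
  have hp : ∀ m, (reg L s₀).toSubmodule ^ m ≤ (reg L s₀).toSubmodule := fun m => by
    induction m with
    | zero => rw [pow_zero]; exact Submodule.one_le.2 (one_mem (reg L s₀))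
    | succ m ih =>
      rw [pow_succ]
      exact Submodule.mul_le.2 fun a ha b hb => (reg L s₀).mul_mem (ih ha) hb
  refine ⟨v, fun j i => hp _ (h3 j i), ?_⟩
  filter_upwards [hn, At.ne (hp _ h1) h2] with s hs hd using h4 s hd hs

end Pool.Agent.Tav.Cv
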