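import Pool.Agent.P.MP_2ce3e7_ag.Tav.CvXD
import Pool.Agent.P.MP_2ce3e7_ag.Tav.CvKer

/-! Regular frames of quotients of families of systems. -/

set_option autoImplicit false

noncomputable section

namespace Pool.Agent.Tav.Cv

open Module Function Set Cu

variable {Ω : Type} [Field Ω] {T Γ Y κ : Type} [AddCommGroup Γ] [Fintype κ]
  {N : Submodule Ω (Y → Ω)} {z₀ : Y} {S : Γ → Submodule Ω (T → Ω)} {m : ℕ}

/-- the kernel lemma without coordinates -/
theorem ker_lin {V : Type} [AddCommGroup V] [Module Ω V] [FiniteDimensional Ω V]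
    (W : Submodule Ω (T → Ω)) [FiniteDimensional Ω W] (Λ : Y → V →ₗ[Ω] (κ → T → Ω))
    (hW : ∀ z v j, Λ z v j ∈ W) (hr : ∀ v j t, At N 0 z₀ fun z => Λ z v j t)
    (hn : ∀ᶠ z in nb N z₀, finrank Ω (LinearMap.ker (Λ z)) = m) :
    ∃ w : Y → Fin m → V, (∀ i (l : V →ₗ[Ω] Ω), At N 0 z₀ fun z => l (w z i)) ∧
      ∀ᶠ z in nb N z₀, LinearIndependent Ω (w z) ∧ ∀ i, Λ z (w z i) = 0 := by
  classical
  obtain ⟨r, c, x, -, hu⟩ := lag W
  let b := Module.finBasis Ω V
  let M : Y → Matrix (κ × Fin r) (Fin (finrank Ω V)) Ω := fun z k i => Λ z (b i) k.1 (x k.2)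
  have hM : ∀ z y k, (M z).mulVecLin y k = Λ z (b.equivFun.symm y) k.1 (x k.2) := fun z y k => by
    simp only [M, Matrix.mulVecLin_apply, Matrix.mulVec, dotProduct, Basis.equivFun_symm_apply,
      map_sum, map_smul, Finset.sum_apply, Pi.smul_apply, smul_eq_mul]
    exact Finset.sum_congr rfl fun i _ => mul_comm _ _
  have hk : ∀ z, LinearMap.ker (M z).mulVecLin =
      (LinearMap.ker (Λ z)).comap b.equivFun.symm.toLinearMap := fun z => by
    ext y
    simp only [LinearMap.mem_ker, Submodule.mem_comap, LinearEquiv.coe_coe]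
    refine ⟨fun h => funext fun j => ?_, fun h => funext fun k => by rw [hM, h]; rfl⟩
    rw [hu _ (hW z _ j)]
    refine Finset.sum_eq_zero fun s _ => ?_
    have := congrFun h (j, s)
    rw [hM] at this
    rw [show Λ z (b.equivFun.symm y) j (x s) = 0 from this, zero_smul]
  obtain ⟨v, h1, h2⟩ := ker_reg (L := N) (s₀ := z₀) M (fun k i => hr _ _ _) (n := m)
    (hn.mono fun z hz => by
      rw [hk, Submodule.comap_equiv_eq_map_symm, LinearEquiv.finrank_map_eq, hz])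
  refine ⟨fun z i => b.equivFun.symm (v i z), fun i l => ?_, h2.mono fun z hz => ⟨?_, fun i => ?_⟩⟩
  · have : (fun z => l (b.equivFun.symm (v i z))) = ∑ k, l (b k) • fun z => v i z k :=
      funext fun z => by
        simp only [Basis.equivFun_symm_apply, map_sum, map_smul, Finset.sum_apply, Pi.smul_apply,
          smul_eq_mul]
        exact Finset.sum_congr rfl fun k _ => mul_comm _ _
    rw [this]
    exact At.sum _ fun k _ => (h1 i k).smul _
  · exact hz.1.map' b.equivFun.symm.toLinearMap b.equivFun.symm.ker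
  · have := hz.2.le (Submodule.subset_span ⟨i, rfl⟩)
    rw [hk] at this
    exact this

theorem Sys.qcancel (hS : Sys S) {A B : Γ} {f g α : T → Ω} (hf : f ∈ S A) (hg : g ∈ S A)
    (hα : α ∈ S B) (h0 : α ≠ 0) (e : f * α = g * α) : f = g :=
  sub_eq_zero.1 ((hS.dom (Submodule.sub_mem _ hf hg) hα (by rw [sub_mul, e, sub_self])).resolve_right
    h0)

theorem Sys.qmul (hS : Sys S) {A B C : Γ} {f g : T → Ω} (hf : f ∈ S A) (hg : g ∈ S B)
    (e : A + B = C) : f * g ∈ S C := e ▸ hS.mul hf hg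

theorem Sys.qne (hS : Sys S) {A B : Γ} {f g : T → Ω} (hf : f ∈ S A) (hg : g ∈ S B)
    (h1 : f ≠ 0) (h2 : g ≠ 0) : f * g ≠ 0 := fun e => (hS.dom hf hg e).elim h1 h2

omit [Fintype κ] in
/-- the solutions of the linear system, at one point of the base -/
theorem Sys.qsolve (hS : Sys S) {A A' B C K K₁ : Γ} (e1 : A + A' = K₁) (e2 : A' + B = K)
    {α β f : T → Ω} {a g : κ → T → Ω} (hα : α ∈ S C) (hα0 : α ≠ 0) (hβ : β ∈ S B) (hβ0 : β ≠ 0)
    (ha : ∀ j, a j ∈ S A) (hb : ∀ t, ∃ j, a j t ≠ 0) (hf : f ∈ S K) (hg : ∀ j, g j ∈ S K₁)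
    (h : ∀ j, f * (a j * α) = α * β * g j) : ∃ u ∈ S A', u * β = f ∧ ∀ j, a j * u = g j := by
  have h1 : ∀ j, f * a j = g j * β := fun j =>
    hS.qcancel (hS.mul hf (ha j)) (hS.qmul (hg j) hβ (by rw [← e1, ← e2]; abel)) hα hα0
      (by rw [mul_assoc, h]; ring)
  have h2 : ∀ i j, g i * a j = g j * a i := fun i j =>
    hS.qcancel (hS.mul (hg i) (ha j)) (hS.mul (hg j) (ha i)) hβ hβ0 (by
      rw [mul_right_comm, ← h1, mul_right_comm (g j), ← h1]; ring)
  choose j hj using hb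
  have h3 : ∀ i, a i * (fun t => g (j t) t / a (j t) t) = g i := fun i => funext fun t => by
    have := congrFun (h2 i (j t)) t
    simp only [Pi.mul_apply] at this ⊢
    rw [← mul_div_assoc, div_eq_iff (hj t), this, mul_comm]
  refine ⟨fun t => g (j t) t / a (j t) t, hS.glue _ _ fun t => ⟨A, a (j t), ha _, hj t, ?_⟩,
    funext fun t => ?_, h3⟩
  · rw [h3, e1]; exact hg _
  · have := congrFun (h1 (j t)) t
    simp only [Pi.mul_apply] at this ⊢
    rw [div_mul_eq_mul_div, div_eq_iff (hj t), this]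

/-- the data of a quotient at one point of the base -/
def Qd (S : Γ → Submodule Ω (T → Ω)) (K K₁ A' : Γ) (φ : κ → T → Ω) (ω β : T → Ω) : Prop :=
  ∃ (A B C : Γ) (α : T → Ω) (a : κ → T → Ω), A + A' = K₁ ∧ A' + B = K ∧ α ∈ S C ∧ α ≠ 0 ∧
    β ∈ S B ∧ β ≠ 0 ∧ (∀ j, a j ∈ S A) ∧ (∀ t, ∃ j, a j t ≠ 0) ∧ (∀ j, φ j = a j * α) ∧ ω = α * β

/-- QUO -/
theorem quo (hS : Sys S) (K K₁ : Γ) [FiniteDimensional Ω (S K)] [FiniteDimensional Ω (S K₁)]
    {Φ : Submodule Ω (T → Ω)} (hΦ : Φ.FG) {φ : Y → κ → T → Ω} {ω β : Y → T → Ω} {A' : Y → Γ}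
    (h1 : ∀ z j, φ z j ∈ Φ) (h2 : ∀ z, ω z ∈ Φ) (r1 : ∀ j t, At N 0 z₀ fun z => φ z j t)
    (r2 : ∀ t, At N 0 z₀ fun z => ω z t)
    (hz : ∀ᶠ z in nb N z₀, finrank Ω (S (A' z)) = m ∧ Qd S K K₁ (A' z) (φ z) (ω z) (β z)) :
    ∃ ψ : Y → Fin m → T → Ω, (∀ i t, At N 0 z₀ fun z => ψ z i t) ∧ (∀ z i, ψ z i ∈ S K) ∧
      ∀ᶠ z in nb N z₀, ∃ v, Bs (S (A' z)) v ∧ ∀ i, ψ z i = v i * β z := by
  let Λ : Y → (S K × (κ → S K₁)) →ₗ[Ω] (κ → T → Ω) := fun z =>
    { toFun := fun p j => φ z j * p.1 - ω z * p.2 j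
      map_add' := fun p q => funext fun j => by
        simp only [Prod.fst_add, Prod.snd_add, Pi.add_apply, Submodule.coe_add]; ring
      map_smul' := fun c p => funext fun j => by
        simp only [Prod.smul_fst, Prod.smul_snd, Pi.smul_apply, Submodule.coe_smul,
          RingHom.id_apply, mul_smul_comm, smul_sub] }
  have hΛ : ∀ z p j, Λ z p j = φ z j * p.1 - ω z * p.2 j := fun _ _ _ => rfl
  have hW : (Φ * (S K ⊔ S K₁)).FG :=
    hΦ.mul ((Module.Finite.iff_fg.1 inferInstance).sup (Module.Finite.iff_fg.1 inferInstance))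
  have := Module.Finite.iff_fg.2 hW
  have key : ∀ z, Qd S K K₁ (A' z) (φ z) (ω z) (β z) →
      ∃ θ : S (A' z) →ₗ[Ω] (S K × (κ → S K₁)), Injective θ ∧
        LinearMap.range θ = LinearMap.ker (Λ z) ∧ ∀ u, ((θ u).1 : T → Ω) = u * β z := by
    rintro z ⟨A, B, C, α, a, e1, e2, hα, hα0, hβ, hβ0, ha, hb, e3, e4⟩
    let θ : S (A' z) →ₗ[Ω] (S K × (κ → S K₁)) :=
      { toFun := fun u => (⟨u * β z, hS.qmul u.2 hβ e2⟩, fun j => ⟨a j * u, hS.qmul (ha j) u.2 e1⟩)
        map_add' := fun u v => Prod.ext (Subtype.ext (add_mul _ _ _))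
          (funext fun j => Subtype.ext (mul_add _ _ _))
        map_smul' := fun c u => Prod.ext (Subtype.ext (smul_mul_assoc _ _ _))
          (funext fun j => Subtype.ext (mul_smul_comm _ _ _)) }
    refine ⟨θ, fun u v e => Subtype.ext (hS.qcancel u.2 v.2 hβ hβ0
      (congrArg (fun p : S K × (κ → S K₁) => (p.1 : T → Ω)) e)), le_antisymm ?_ ?_, fun _ => rfl⟩
    · rintro _ ⟨u, rfl⟩
      refine funext fun j => ?_
      change φ z j * (u * β z) - ω z * (a j * u) = 0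
      rw [e3, e4]; ring
    · intro p hp
      obtain ⟨u, hu, e5, e6⟩ := hS.qsolve e1 e2 hα hα0 hβ hβ0 ha hb p.1.2 (fun j => (p.2 j).2)
        fun j => by
          have := congrFun (LinearMap.mem_ker.1 hp) j
          rw [hΛ, e3, e4] at this
          rw [mul_comm]
          exact sub_eq_zero.1 this
      exact ⟨⟨u, hu⟩, Prod.ext (Subtype.ext e5) (funext fun j => Subtype.ext (e6 j))⟩
  obtain ⟨w, h3, h4⟩ := ker_lin (N := N) (z₀ := z₀) (m := m) (Φ * (S K ⊔ S K₁)) Λ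
    (fun z p j => Submodule.sub_mem _
      (Submodule.mul_mem_mul (h1 z j) (Submodule.mem_sup_left p.1.2))
      (Submodule.mul_mem_mul (h2 z) (Submodule.mem_sup_right (p.2 j).2)))
    (fun p j t => ((r1 j t).mul0 (At.const N z₀ _)).sub ((r2 t).mul0 (At.const N z₀ _)))
    (hz.mono fun z h => by
      obtain ⟨θ, e1, e2, -⟩ := key z h.2
      rw [← e2, LinearMap.finrank_range_of_inj e1, h.1])
  refine ⟨fun z i => (w z i).1, fun i t => h3 i
    ((LinearMap.proj t).comp ((S K).subtype.comp (LinearMap.fst Ω _ _))), fun z i => (w z i).1.2,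
    (hz.and h4).mono fun z h => ?_⟩
  obtain ⟨θ, e1, e2, e3⟩ := key z h.1.2
  choose u hu using fun i => (e2.ge (LinearMap.mem_ker.2 (h.2.2 i)) : w z i ∈ LinearMap.range θ)
  have hli : LinearIndependent Ω u :=
    LinearIndependent.of_comp θ (by rw [show θ ∘ u = w z from funext hu]; exact h.2.1)
  have hli' := hli.map' (S (A' z)).subtype (Submodule.ker_subtype _)
  have : FiniteDimensional Ω (S (A' z)) := Module.Finite.of_injective θ e1
  refine ⟨fun i => u i, ⟨hli', Submodule.eq_of_le_of_finrank_eq (Submodule.span_le.2 ?_) ?_⟩,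
    fun i => by rw [← e3, hu]⟩
  · rintro _ ⟨i, rfl⟩
    exact (u i).2
  · exact (finrank_span_eq_card hli').trans (by rw [h.1.1, Fintype.card_fin])

end Pool.Agent.Tav.Cv
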