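import Pool.Agent.P.MP_2ce3e7_ag.Tav.CvXB
import Pool.Agent.P.MP_2ce3e7_ag.Tav.CvQuo
import Pool.Agent.P.MP_2ce3e7_ag.Tav.CuGrp

/-! Regularity of maps to the class group, and of its subtraction. -/

set_option autoImplicit false
set_option linter.unusedSectionVars false

noncomputable section

namespace Pool.Agent.Tav.Cv

open Module Function Set Cu

variable {Ω : Type} [Field Ω] {T Γ G Y : Type} [AddCommGroup Γ] [AddCommGroup G] {n k : ℕ}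
  {L : Submodule Ω (Y → Ω)} {y₀ : Y}

theorem nb_neBot (L : Submodule Ω (Y → Ω)) (y₀ : Y) : (nb L y₀).NeBot :=
  ⟨fun e => nb_self (L := L) (t := y₀) (p := fun _ => False) (e ▸ Filter.eventually_bot)⟩

theorem at_prod {I : Type} (s : Finset I) {F : I → Y → Ω} (h : ∀ i, At L k y₀ (F i)) :
    At L (k * s.card) y₀ fun y => ∏ i ∈ s, F i y := by
  classical
  induction s using Finset.induction_on with
  | empty => simpa using At.const L y₀ 1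
  | insert j s hj ih =>
    simp only [Finset.prod_insert hj, Finset.card_insert_of_notMem hj]
    exact ((h j).mul ih).cast (by ring)

theorem at_dt {m : ℕ} {φ : Y → Fin m → T → Ω} (h : ∀ i t, At L k y₀ fun y => φ y i t)
    (a : Fin m → T) : At L (k * m) y₀ fun y => dt (φ y) a := by
  have := At.sum Finset.univ fun (p : Equiv.Perm (Fin m)) _ =>
    (at_prod Finset.univ fun j => h (p j) (a j)).smul (((Equiv.Perm.sign p : ℤˣ) : ℤ) : Ω)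
  rw [Finset.card_univ, Fintype.card_fin] at this
  refine this.congr (Filter.Eventually.of_forall fun y => ?_)
  rw [dt, Matrix.det_apply', Finset.sum_apply]
  rfl

theorem mp_of_at {M : Submodule Ω (G → Ω)} (hM : M.FG) {ξ : Y → G}
    (h : ∀ y, ∃ c : Y → Ω, c y ≠ 0 ∧ ∀ u ∈ M, At L 0 y (c * fun s => u (ξ s))) : Mp L M ξ := by
  classical
  intro y
  obtain ⟨c, hc, h⟩ := h y
  obtain ⟨s, rfl⟩ := hM
  have key : ∀ s' : Finset (G → Ω), s' ⊆ s → ∃ e, ∃ b ∈ L ^ e, b y ≠ 0 ∧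
      ∀ u ∈ s', b * (c * fun z => u (ξ z)) ∈ L ^ e := by
    intro s'
    induction s' using Finset.induction_on with
    | empty => exact fun _ => ⟨0, 1, one_mem_pow L, one_ne_zero, by simp⟩
    | insert u s' _ ih =>
      intro hs
      obtain ⟨e, b, h1, h2, h3⟩ := ih ((Finset.subset_insert _ _).trans hs)
      obtain ⟨e', b', h1', h2', h3'⟩ := h u (Submodule.subset_span (hs (Finset.mem_insert_self _ _)))
      refine ⟨e + e', b * b', mul_mem_pow h1 h1', mul_ne_zero h2 h2', fun w hw => ?_⟩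
      rcases Finset.mem_insert.1 hw with rfl | hw
      · exact mem_pow_congr (mul_mem_pow h1 h3') rfl (mul_assoc _ _ _).symm
      · exact mem_pow_congr (mul_mem_pow (h3 w hw) h1') rfl (mul_right_comm _ _ _)
  obtain ⟨e, b, -, h2, h3⟩ := key s subset_rfl
  refine ⟨e, b * c, mul_ne_zero h2 hc, fun u hu => ?_⟩
  induction hu using Submodule.span_induction with
  | mem u hu => exact mul_assoc b c _ ▸ h3 u hu
  | zero => exact mem_pow_congr (Submodule.zero_mem _) rfl (mul_zero _).symm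
  | add u w _ _ hu hw => exact mem_pow_congr (Submodule.add_mem _ hu hw) rfl (mul_add _ _ _).symm
  | smul a u _ hu => exact mem_pow_congr (Submodule.smul_mem _ a hu) rfl (mul_smul_comm _ _ _).symm

variable {S : Γ → Submodule Ω (T → Ω)} {H : Γ} {Z : AddSubgroup Γ} {cl : Z →+ G}

theorem Fr.smul {m : ℕ} {A : Γ} {φ : Fin m → T → Ω} (h : Fr S A φ) {c : Ω} (hc : c ≠ 0) :
    Fr S A fun i => c • φ i := by
  obtain ⟨B, α, h1, h2, u, h3, h4⟩ := h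
  exact ⟨B, c • α, (S B).smul_mem c h1, smul_ne_zero hc h2, u, h3, fun i => by
    simp only [h4, mul_smul_comm]⟩

/-- QUO in the form used here -/
theorem quo' (hS : Sys S) (K : Γ) [FiniteDimensional Ω (S K)] {κ : Type} [Fintype κ] (j₀ : κ)
    {Φ : Submodule Ω (T → Ω)} (hΦ : Φ.FG) {φ : Y → κ → T → Ω} (h1 : ∀ z j, φ z j ∈ Φ)
    (r1 : ∀ j t, At L 0 y₀ fun z => φ z j t) {m : ℕ} {p : Y → Γ → Prop}
    (hz : ∀ᶠ z in nb L y₀, ∃ A' A C, ∃ α ∈ S C, ∃ a : κ → T → Ω, p z A' ∧ finrank Ω (S A') = m ∧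
      A + A' = K ∧ α ≠ 0 ∧ a j₀ ≠ 0 ∧ (∀ j, a j ∈ S A) ∧ (∀ t, ∃ j, a j t ≠ 0) ∧
        ∀ j, φ z j = a j * α) :
    ∃ ψ : Y → Fin m → T → Ω, (∀ i t, At L 0 y₀ fun z => ψ z i t) ∧ (∀ z i, ψ z i ∈ S K) ∧
      ∀ᶠ z in nb L y₀, ∃ A' A C, ∃ α ∈ S C, ∃ a : κ → T → Ω, ∃ v, p z A' ∧ A + A' = K ∧ a j₀ ≠ 0 ∧
        (∀ j, a j ∈ S A) ∧ α ≠ 0 ∧ (∀ j, φ z j = a j * α) ∧ Bs (S A') v ∧
          ∀ i, ψ z i = v i * a j₀ := by
  have := nb_neBot L y₀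
  obtain ⟨A', hz⟩ := hz.choice
  obtain ⟨A, hz⟩ := hz.choice
  obtain ⟨C, hz⟩ := hz.choice
  obtain ⟨α, hz⟩ := hz.choice
  obtain ⟨a, hz⟩ := (hz.mono fun z h => exists_and_left.2 h).choice
  obtain ⟨ψ, h2, h3, h4⟩ := quo (N := L) (z₀ := y₀) (m := m) hS K K hΦ (ω := fun z => φ z j₀)
    (β := fun z => a z j₀) (A' := A') h1 (fun z => h1 z j₀) r1 (r1 j₀)
    (hz.mono fun z ⟨e1, _, e2, e3, e4, e5, e6, e7, e8⟩ => ⟨e2, A z, A z, C z, α z, a z, e3,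
      (add_comm _ _).trans e3, e1, e4, e6 j₀, e5, e6, e7, e8, (e8 j₀).trans (mul_comm _ _)⟩)
  exact ⟨ψ, h2, h3, (hz.and h4).mono fun z ⟨⟨e1, e0, _, e3, e4, e5, e6, _, e8⟩, v, e9, e10⟩ =>
    ⟨_, _, _, _, e1, _, v, e0, e3, e5, e6, e4, e8, e9, e10⟩⟩

/-- REG at one point, in degree zero -/
theorem Jac.reg0 (h : Jac S H n Z cl) {ξ : Y → G} {Φ : Submodule Ω (T → Ω)} (hΦ : Φ.FG)
    {φ : Y → Fin (n + 1) → T → Ω} (h1 : ∀ z j, φ z j ∈ Φ) (r1 : ∀ j t, At L 0 y₀ fun z => φ z j t)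
    (hz : ∀ᶠ z in nb L y₀, ∃ D : Z, cl D = ξ z ∧ Fr S (H + D) (φ z)) :
    ∃ c : Y → Ω, c y₀ ≠ 0 ∧ ∀ u ∈ crd h.XG, At L 0 y₀ (c * fun s => u (ξ s)) := by
  have := h.fd2
  obtain ⟨ψ, r2, -, h2⟩ := quo' h.sys (H + H) 0 hΦ h1 r1 (m := n + 1)
    (p := fun z A' => ∃ D : Z, cl D = ξ z ∧ A' = H - D)
    (hz.mono fun z ⟨D, e, C, α, hα, h0, u, hu, e'⟩ => ⟨H - D, H + D, C, α, hα, u, ⟨D, e, rfl⟩,
      h.dim' D, by abel, h0, hu.1.ne_zero 0, hu.mem, hu.nv (h.nv D), e'⟩)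
  have h3 : ∀ᶠ z in nb L y₀, ∃ κ : Ω, κ ≠ 0 ∧ φ z 0 ≠ 0 ∧ (∃ B, φ z 0 ∈ S B) ∧ ∀ y b c d,
      Xf (φ z) (ψ z) (y, b, c, d) = φ z 0 y * (∏ j, φ z 0 (b j)) * φ z 0 c * (∏ j, φ z 0 (d j)) *
        (κ * h.XG (ξ z) (y, b, c, d)) := by
    filter_upwards [hz, h2] with z ⟨D', _, _, α', hα', h0', u', hu', e1'⟩
      ⟨_, A, C, α, hα, u, v, ⟨D, e, rfl⟩, eA, h0, hu, hα0, e1, hv, e2⟩
    obtain rfl : A = H + D := by rw [eq_sub_of_add_eq eA]; abel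
    have hu : Bs (S (H + D)) u := (h.bases D).choose_spec.choose_spec.2.1.of_li hu
      (li_of_mul (α := α) (by
        simpa only [← e1, ← e1'] using h.sys.li_mul hu'.mem hu'.1 hα' h0'))
    obtain ⟨κ, hκ, e3⟩ := h.xinv D hu hv
    refine ⟨κ, hκ, e1 0 ▸ h.sys.mul_ne (hu.mem 0) hα h0 hα0, ⟨_, e1 0 ▸ h.sys.mul (hu.mem 0) hα⟩,
      fun y b c d => ?_⟩
    rw [← e, ← e3, e1 0, mul_comm (u 0), ← Xf_mul, funext e1, funext e2]
  have := nb_neBot L y₀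
  obtain ⟨κ, h3⟩ := h3.choice
  obtain ⟨hκ, h0, ⟨B, hB⟩, -⟩ := nb_self h3
  obtain ⟨r, c, x, hx0, hx⟩ := h.sys.lag (A := H + H) hB h0
  let R : Submodule Ω (G → Ω) := (Cu.reg L y₀).toSubmodule.comap
    (LinearMap.mulLeft Ω κ ∘ₗ LinearMap.funLeft Ω Ω ξ)
  refine ⟨κ, hκ, h.red hx (R := R) fun ⟨y, b, c, d⟩ => ?_⟩
  have ha : ∀ {θ : Y → Fin (n + 1) → T → Ω}, (∀ i t, At L 0 y₀ fun z => θ z i t) →
      ∀ a, At L 0 y₀ fun z => dt (θ z) a := fun hθ a => (at_dt hθ a).cast (zero_mul _)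
  have hp : ∀ b : Fin n → Fin r, At L 0 y₀ fun z => ∏ j, φ z 0 (x (b j)) := fun b =>
    (at_prod Finset.univ fun j => r1 0 (x (b j))).cast (zero_mul _)
  have hW := (((r1 0 (x y)).mul0 (hp b)).mul0 (r1 0 (x c))).mul0 (hp d)
  have hW0 := mul_ne_zero (mul_ne_zero (mul_ne_zero (hx0 y)
    (Finset.prod_ne_zero_iff.2 fun j (_ : j ∈ Finset.univ) => hx0 (b j))) (hx0 c))
    (Finset.prod_ne_zero_iff.2 fun j (_ : j ∈ Finset.univ) => hx0 (d j))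
  refine At.congr ((((ha r1 (Fin.cons (x y) fun i => x (b i))).mul0
    (ha r2 (Fin.cons (x c) fun i => x (b i)))).mul0 ((ha r1 (Fin.cons (x c) fun i => x (d i))).mul0
    (ha r2 (Fin.cons (x y) fun i => x (d i))))).div0 hW hW0) ?_
  filter_upwards [h3, hW.ne hW0] with z hz hne
  exact (div_eq_iff hne).2 ((hz.2.2.2 _ _ _ _).trans (mul_comm _ _))

/-- REG -/
theorem Jac.reg (h : Jac S H n Z cl) {ξ : Y → G}
    (hξ : ∀ y₀, ∃ (k : ℕ) (Φ : Submodule Ω (T → Ω)) (φ : Y → Fin (n + 1) → T → Ω), Φ.FG ∧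
      (∀ z j, φ z j ∈ Φ) ∧ (∀ j t, At L k y₀ fun z => φ z j t) ∧
        ∀ᶠ z in nb L y₀, ∃ D : Z, cl D = ξ z ∧ Fr S (H + D) (φ z)) : Mp L (crd h.XG) ξ := by
  refine mp_of_at h.fg fun y₀ => ?_
  obtain ⟨k, Φ, φ, hΦ, h1, r1, hz⟩ := hξ y₀
  obtain ⟨_, -, _, α, hα, h0, u, hu, e⟩ := nb_self hz
  obtain ⟨t₀, ht⟩ := Function.ne_iff.1
    (e 0 ▸ h.sys.mul_ne (hu.mem 0) hα (hu.1.ne_zero 0) h0 : φ y₀ 0 ≠ 0)
  refine h.reg0 hΦ (φ := fun z j => (φ z 0 t₀)⁻¹ • φ z j) (fun z j => Φ.smul_mem _ (h1 z j))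
    (fun j t => ((r1 j t).div_same (r1 0 t₀) ht).congr
      (Filter.Eventually.of_forall fun z => div_eq_inv_mul _ _)) ?_
  filter_upwards [hz, (r1 0 t₀).ne ht] with z ⟨D, e1, e2⟩ hne
  exact ⟨D, e1, e2.smul (inv_ne_zero hne)⟩

/-- SUB -/
theorem Jac.sb (h : Jac S H n Z cl) : Sb (crd h.XG) := by
  have := h.fd2
  have := h.fd3
  refine h.reg fun x => ?_
  obtain ⟨b, c, d, q, hq⟩ := Xf_exists h.sys (h.bs_bU x.2) (h.bs_bV x.2) (h.nv _) (h.nv' _)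
  obtain ⟨b', c', d', q', hq'⟩ := Xf_exists h.sys (h.bs_bV x.1) (h.bs_bU x.1) (h.nv' _) (h.nv _)
  simp only [← Xf_symm (h.bU x.1)] at hq'
  have e1 := (Mp.fst _ h.nv_XG).ev ((at_dt (φ := fun z i t => h.XG z (t, d', c', b' i))
    (fun i t => At.of_mem1 (h.XG_mem _) x.1) q').ne hq')
  have e2 := (Mp.snd h.nv_XG _).ev ((at_dt (φ := fun z i t => h.XG z (t, b i, c, d))
    (fun i t => At.of_mem1 (h.XG_mem _) x.2) q).ne hq)
  obtain ⟨l, hl, hl0⟩ := h.nv_XG.box h.nv_XG x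
  have f2 : (S (H + H)).FG := Module.Finite.iff_fg.1 inferInstance
  obtain ⟨ψ, r2, h1, h2⟩ := quo' (L := box (crd h.XG) (crd h.XG)) (y₀ := x) h.sys (H + H + H)
    ((0, 0) : Fin (n + 1) × Fin (n + 1)) (f2.mul f2) (m := n + 1)
    (φ := fun z j => (l z)⁻¹ • ((fun t => h.XG z.1 (t, d', c', b' j.1)) *
      fun t => h.XG z.2 (t, b j.2, c, d)))
    (p := fun z A' => A' = H + (h.rep z.1 - h.rep z.2 : Z))
    (fun z j => Submodule.smul_mem _ _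
      (Submodule.mul_mem_mul (h.XG_head _ _ _ _) (h.XG_head _ _ _ _)))
    (fun j t => ((At.of_mem1 (mem_box (h.XG_mem (t, d', c', b' j.1)) (h.XG_mem (t, b j.2, c, d)))
      x).div_same (At.of_mem1 hl x) hl0).congr
        (Filter.Eventually.of_forall fun z => div_eq_inv_mul _ _)) (by
      filter_upwards [e1, e2, (At.of_mem1 hl x).ne hl0] with z e1 e2 e3
      simp only [Jac.XG, Xf_symm (h.bU z.1)] at e1
      obtain ⟨α, hα, h0, v, hv, h3⟩ := Xf_frame (h.bs_bV z.1) (h.bs_bU z.1) (li_of_dt e1)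
      obtain ⟨β, hβ, h0', u, hu, h4⟩ := Xf_frame (h.bs_bU z.2) (h.bs_bV z.2) (li_of_dt e2)
      refine ⟨_, _, _, (l z)⁻¹ • (α * β), Submodule.smul_mem _ _ (h.sys.mul hα hβ),
        fun j => v j.1 * u j.2, rfl, h.dim _, ?_,
        smul_ne_zero (inv_ne_zero e3) (h.sys.mul_ne hα hβ h0 h0'),
        h.sys.mul_ne (hv.mem 0) (hu.mem 0) (hv.1.ne_zero 0) (hu.1.ne_zero 0),
        fun j => h.sys.mul (hv.mem j.1) (hu.mem j.2), fun t => ?_, fun j => ?_⟩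
      · push_cast; abel
      · obtain ⟨i, hi⟩ := hv.nv (h.nv' _) t
        obtain ⟨j, hj⟩ := hu.nv (h.nv _) t
        exact ⟨(i, j), mul_ne_zero hi hj⟩
      · simp only [Jac.XG, Xf_symm (h.bU z.1)]
        rw [h3, h4, mul_smul_comm, mul_mul_mul_comm])
  refine ⟨0, S (H + H + H), ψ, Module.Finite.iff_fg.1 inferInstance, h1, r2, h2.mono ?_⟩
  rintro z ⟨_, A, -, -, -, a, v, rfl, -, h0, ha, -, -, hv, e⟩
  exact ⟨_, by rw [map_sub, h.cl_rep, h.cl_rep], A, _, ha _, h0, v, hv, e⟩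

/-- finite coordinates -/
theorem Jac.coords (h : Jac S H n Z cl) : ∃ (s : ℕ) (p : G → Fin s → Ω), crd p = crd h.XG ∧
    (∀ x, p x ≠ 0) ∧ (∀ x x', Par (p x) (p x') → x = x') ∧ Sb (crd p) := by
  obtain ⟨s, τ, e⟩ := h.fin
  refine ⟨s, _, e, fun x h0 => ?_, fun _ _ => h.inj' e, e ▸ h.sb⟩
  obtain ⟨f, hf, hx⟩ := h.nv_XG x
  have : crd (fun x i => h.XG x (τ i)) ≤ LinearMap.ker (LinearMap.proj x : (G → Ω) →ₗ[Ω] Ω) :=
    Submodule.span_le.2 (range_subset_iff.2 fun l => congrFun h0 l)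
  exact hx (this (e.ge hf))

end Pool.Agent.Tav.Cv
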