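import Pool.Agent.P.MP_2ce3e7_ag.Tav.CvRie
import Pool.Agent.P.MP_2ce3e7_ag.Tav.CvXC
import Pool.Agent.P.MP_2ce3e7_ag.Tav.CvAV

/-! A regular frame for the family of degrees `H + x₀ - x`. -/

set_option autoImplicit false

noncomputable section

namespace Pool.Agent.Tav.Cv

open Module Function Set Cu Filter

variable {Ω : Type} [Field Ω] {T Γ G : Type} [AddCommGroup Γ] [AddCommGroup G]
  {S : Γ → Submodule Ω (T → Ω)} {L : Submodule Ω (T → Ω)}

theorem ab_ind {V : Type} [AddCommGroup V] [Module Ω V] {m : ℕ} {g : Fin (m + 1) → V}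
    (hg : LinearIndependent Ω g) (i : Fin (m + 1)) (r : Fin m → Ω) :
    LinearIndependent Ω fun j => g (i.succAbove j) - r j • g i := by
  rw [Fintype.linearIndependent_iff] at hg ⊢
  intro c hc j
  have := hg (i.insertNth (-∑ k, c k * r k) c) (by
    rw [Fin.sum_univ_succAbove _ i]
    simp only [Fin.insertNth_apply_same, Fin.insertNth_apply_succAbove]
    rw [← hc]
    simp only [smul_sub, Finset.sum_sub_distrib, smul_smul, neg_smul, Finset.sum_smul]
    abel) (i.succAbove j)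
  rwa [Fin.insertNth_apply_succAbove] at this

/-- the sections of `A` that vanish at `x` have a frame that is regular in `x` -/
theorem ab_frame {A : Γ} {n : ℕ} {pt : T → Γ} {E : T → T → Ω} (mem : ∀ y, E y ∈ S (pt y))
    (ne : ∀ y, E y ≠ 0)
    (ex : ∀ {f : T → Ω} {y : T}, f ∈ S A → f y = 0 → ∃ u ∈ S (A - pt y), f = E y * u)
    (hA : finrank Ω (S A) = n + 2) (hA' : ∀ y, finrank Ω (S (A - pt y)) = n + 1) (nA : Nv (S A))
    (mA : Mp L (S A) fun t => t) (x₁ : T) :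
    ∃ φ : T → Fin (n + 1) → T → Ω, (∀ x i, φ x i ∈ S A) ∧ (∀ i t, At L 0 x₁ fun x => φ x i t) ∧
      ∀ᶠ x in nb L x₁, Fr S (A - pt x) (φ x) := by
  obtain ⟨g, hg, hs⟩ := exists_bs hA
  have mg : ∀ i, g i ∈ S A := fun i => hs ▸ Submodule.subset_span ⟨i, rfl⟩
  obtain ⟨i, hi⟩ : ∃ i, g i x₁ ≠ 0 := by
    by_contra! hn
    obtain ⟨u, hu, h0⟩ := nA x₁
    rw [← hs, Submodule.mem_span_range_iff_exists_fun] at hu
    obtain ⟨c, rfl⟩ := hu
    exact h0 (by simp [Finset.sum_apply, hn])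
  refine ⟨fun x j => g (i.succAbove j) - (g (i.succAbove j) x / g i x) • g i,
    fun x j => Submodule.sub_mem _ (mg _) (Submodule.smul_mem _ _ (mg i)), fun j t => ?_, ?_⟩
  · have := (At.const L x₁ (g (i.succAbove j) t)).sub
      ((mA.ratio (At.of_mem1 (mg (i.succAbove j)) x₁) (At.of_mem1 (mg i) x₁) hi).mul0
        (At.const L x₁ (g i t)))
    exact this
  · filter_upwards [mA.ev ((At.of_mem1 (mg i) x₁).ne hi)] with x hx
    have h1 : ∀ j, ∃ u ∈ S (A - pt x),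
        g (i.succAbove j) - (g (i.succAbove j) x / g i x) • g i = E x * u := fun j =>
      ex (Submodule.sub_mem _ (mg _) (Submodule.smul_mem _ _ (mg i)))
        (by simp only [Pi.sub_apply, Pi.smul_apply, smul_eq_mul, div_mul_cancel₀ _ hx, sub_self])
    choose u hu e using h1
    have h2 : LinearIndependent Ω u := by
      have := ab_ind hg i fun j => g (i.succAbove j) x / g i x
      simp only [e] at this
      exact LinearIndependent.of_comp (LinearMap.mulLeft Ω (E x)) this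
    refine ⟨pt x, E x, mem x, ne x, u, ⟨h2, ?_⟩, fun j => (e j).trans (mul_comm _ _)⟩
    have : FiniteDimensional Ω (S (A - pt x)) := Module.finite_of_finrank_eq_succ (hA' x)
    refine Submodule.eq_of_le_of_finrank_eq (Submodule.span_le.2 ?_) ?_
    · rintro _ ⟨j, rfl⟩
      exact hu j
    · rw [finrank_span_eq_card h2, hA', Fintype.card_fin]

theorem ab_mul (hS : Sys S) {A B : Γ} {m : ℕ} {φ : Fin m → T → Ω} (h : Fr S A φ) {γ : T → Ω}
    (hγ : γ ∈ S B) (h0 : γ ≠ 0) : Fr S A fun i => φ i * γ := by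
  obtain ⟨C, α, h1, h2, u, h3, h4⟩ := h
  exact ⟨C + B, α * γ, hS.mul h1 hγ, fun e => (hS.dom h1 hγ e).elim h2 h0, u, h3,
    fun i => by simp only [h4, mul_assoc]⟩

variable {h : Γ} {pt : T → Γ} {E : T → T → Ω} {deg : Γ →+ ℤ} {d k₀ : ℕ} {g : ℤ}

/-- the frame of `H + x₀ - x`, with members in `S (H + H)` -/
theorem Cs.ab_frame (c : Cs S h pt E deg d k₀ g) {H : Γ} (hH : k₀ * d + g + 1 < deg H) {n : ℕ}
    (hn : deg H - g = n) (x₀ : T) (mA : Mp L (S (H + pt x₀)) fun t => t) (x₁ : T) :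
    ∃ φ : T → Fin (n + 1) → T → Ω, (∀ x i, φ x i ∈ S (H + H)) ∧
      (∀ i t, At L 0 x₁ fun x => φ x i t) ∧
      ∀ᶠ x in nb L x₁, Fr S (H + c.df x₀ x) (φ x) := by
  have e1 : deg (H + pt x₀) = deg H + 1 := by rw [map_add, c.deg_pt]
  have e2 : ∀ y, deg (H + pt x₀ - pt y) = deg H := fun y => by
    rw [map_sub, e1, c.deg_pt, add_sub_cancel_right]
  have e3 : deg (H - pt x₀) = deg H - 1 := by rw [map_sub, c.deg_pt]
  obtain ⟨φ, h1, h2, h3⟩ := Cv.ab_frame (n := n) c.mem c.E_ne c.ex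
    (by have := c.riem_eq (A := H + pt x₀) (by omega); omega)
    (fun y => by have := c.riem_eq (A := H + pt x₀ - pt y) (by rw [e2]; omega); rw [e2] at this; omega)
    (c.nv (by omega)) mA x₁
  obtain ⟨γ, hγ, h0⟩ := c.sys.ex_of_nv (c.nv (A := H - pt x₀) (by omega))
  refine ⟨fun x i => φ x i * γ, fun x i => ?_, fun i t => (h2 i t).mul0 (At.const L x₁ (γ t)),
    h3.mono fun x hx => ?_⟩
  · have := c.sys.mul (h1 x i) hγ
    rwa [add_add_sub_cancel] at this
  · rw [c.df_val, ← add_sub_assoc]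
    exact ab_mul c.sys hx hγ h0

/-- the map `x ↦ class of x₀ - x` is regular -/
theorem Cs.ab_mp (c : Cs S h pt E deg d k₀ g) {H : Γ} (hH : k₀ * d + g + 1 < deg H) {n : ℕ}
    (hn : deg H - g = n) {cl : deg.ker →+ G} (J : Jac S H n deg.ker cl) (x₀ : T)
    (mA : Mp L (S (H + pt x₀)) fun t => t) : Mp L (crd J.XG) fun x => cl (c.df x₀ x) :=
  J.reg fun x₁ => by
    obtain ⟨φ, h1, h2, h3⟩ := c.ab_frame hH hn x₀ mA x₁
    exact ⟨0, S (H + H), φ, Module.Finite.iff_fg.1 J.fd2, h1, h2,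
      h3.mono fun x hx => ⟨_, rfl, hx⟩⟩

/-- the class group is an abelian variety and the curve maps to it -/
theorem Cs.ab_av [Infinite Ω] (c : Cs S h pt E deg d k₀ g) (hL : Vr L) {H : Γ}
    (hH : k₀ * d + g + 1 < deg H) {n : ℕ} (hn : deg H - g = n)
    (J : Jac S H n deg.ker (c.sys.cl deg.ker)) (x₀ : T) (mA : Mp L (S (H + pt x₀)) fun t => t) :
    ∃ (s : ℕ) (p : c.sys.Pic deg.ker → Fin s → Ω), crd p = crd J.XG ∧
      (∀ x x', Par (p x) (p x') → x = x') ∧ AV p (dm p Set.univ) ∧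
      Mp L (crd p) fun x => c.sys.cl deg.ker (c.df x₀ x) := by
  obtain ⟨s, p, e, h1, h2, h3⟩ := J.coords
  have h4 := c.ab_mp hH hn J x₀ mA
  rw [← e] at h4
  have := c.sys.ne
  exact ⟨s, p, e, h2, av_of_gen hL h1 h3 h4 (c.gen_pic x₀ (r := g.toNat) (Int.self_le_toNat g)), h4⟩

end Pool.Agent.Tav.Cv
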