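import Mathlib

/-! The definitions that occur in the statement. -/

set_option autoImplicit false

noncomputable section

namespace Pool.Agent.Tav

open MvPolynomial Set Function

section
variable {K : Type} [CommRing K]

/-- `x` is a unit multiple of `y` -/
def Par {σ : Type} (x y : σ → K) : Prop := ∃ c : K, IsUnit c ∧ x = c • y

/-- the span of the coordinate functions of `p` -/
def crd {T σ : Type} (p : T → σ → K) : Submodule K (T → K) :=
  Submodule.span K (range fun l t => p t l)

/-- near every point, and up to a factor, the members of `W` are forms in the members of `L` -/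
def Rg {T ι : Type} [Fintype ι] (L : ι → Submodule K (T → K)) (W : Submodule K (T → K)) : Prop :=
  ∀ t, ∃ (e : ι → ℕ) (c : T → K), IsUnit (c t) ∧ ∀ w ∈ W, c * w ∈ ∏ i, L i ^ e i

/-- the map `f` is regular for the coordinates `p` and `q` -/
def Mor {T U σ τ : Type} (p : T → σ → K) (q : U → τ → K) (f : T → U) : Prop :=
  Rg ![crd p] (crd fun t => q (f t))

end

section
variable {K : Type} [Field K]

/-- the Hilbert polynomial of a family of spaces of functions -/
def hp {T ι : Type} [Fintype ι] (L : ι → Submodule K (T → K)) : MvPolynomial ι ℚ :=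
  Classical.epsilon fun P => ∀ᶠ d : ι → ℕ in Filter.atTop, eval (fun i => (d i : ℚ)) P =
    Module.finrank K (∏ i, L i ^ d i : Submodule K (T → K))

/-- the ideal of the cone over the image of `p` -/
def idl {T σ : Type} (p : T → σ → K) : Ideal (MvPolynomial σ K) :=
  vanishingIdeal K {z | ∃ (c : K) (t : T), z = c • p t}

variable {G σ : Type} [AddCommGroup G] (p : G → σ → K)

/-- the dimension of the closure of the image of `Z` -/
def dm (Z : Set G) : ℕ := (hp ![crd fun z : Z => p z]).totalDegree

/-- the image of `G` in projective space is an abelian variety of dimension `g` -/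
structure AV (g : ℕ) : Prop where
  ne : ∀ x, p x ≠ 0
  cl : ∀ z ∈ zeroLocus K (idl p), z ≠ 0 → ∃ x, Par z (p x)
  irr : (idl p).IsPrime
  dim : dm p univ = g
  sub : Rg ![crd fun t : G × G => p t.1, crd fun t => p t.2] (crd fun t => p (t.1 - t.2))

/-- top coefficient of the Hilbert polynomial of the graph of `z - w` on `Z × W` -/
def pair (g : ℕ) (Z W : Set G) : ℚ :=
  coeff (Finsupp.single 2 g) (hp ![crd fun t : Z × W => p t.1, crd fun t => p t.2,
    crd fun t => p (t.1 - t.2)])

/-- strong Tate conjecture in dimension `j`, complementary dimension `j'` -/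
def Tate (F : G →+ G) (q j j' : ℕ) : Prop :=
  ∃ (Z : PowerSeries ℂ) (ρ : ℕ), PowerSeries.constantCoeff Z = 1 ∧
    PowerSeries.derivative ℂ Z =
      Z * PowerSeries.mk (fun s => (Nat.card (fixedPoints F^[s + 1]) : ℂ)) ∧
    (∃ P Q : Polynomial ℂ, P.eval ((q : ℂ) ^ j)⁻¹ ≠ 0 ∧ Q.eval ((q : ℂ) ^ j)⁻¹ ≠ 0 ∧
      Z * (Q * (Polynomial.X - Polynomial.C ((q : ℂ) ^ j)⁻¹) ^ ρ : Polynomial ℂ) = P) ∧
    Module.rank ℚ (Submodule.span ℚ (range
      fun (Z : {Z : Set G // F '' Z = Z ∧ dm p Z ≤ j})
        (W : {W : Set G // F '' W = W ∧ dm p W ≤ j'}) => pair p (j + j') Z.1 W.1)) = ρ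

end

end Pool.Agent.Tav
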