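import Pool.Agent.P.MP_2ce3e7_ag.Tav.CuBd
import Pool.Agent.P.MP_2ce3e7_ag.Tav.Stmt0

/-! The local computation behind the Poincare system of a curve. -/

set_option autoImplicit false

noncomputable section

namespace Pool.Agent.Tav.Cv.Poi

open Set Function Matrix Cu

variable {Ω T : Type} [Field Ω] {L : Submodule Ω (T → Ω)}

/-- two bases of one space of functions have proportional determinants -/
theorem det_base {ι : Type} [Fintype ι] [DecidableEq ι] {f g : ι → T → Ω}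
    (hf : LinearIndependent Ω f) (h : ∀ i, f i ∈ Submodule.span Ω (range g)) :
    ∃ c : Ω, c ≠ 0 ∧ ∀ a : ι → T,
      (Matrix.of fun i j => f i (a j)).det = c * (Matrix.of fun i j => g i (a j)).det := by
  choose M hM using fun i => (Submodule.mem_span_range_iff_exists_fun Ω).1 (h i)
  refine ⟨(Matrix.of M).det, fun h0 => ?_, fun a => ?_⟩
  · obtain ⟨v, hv, hv'⟩ := Matrix.exists_vecMul_eq_zero_iff.2 h0
    refine hv (funext (Fintype.linearIndependent_iff.1 hf v ?_))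
    simp only [← hM, Finset.smul_sum, smul_smul]
    rw [Finset.sum_comm]
    refine Finset.sum_eq_zero fun j _ => ?_
    rw [← Finset.sum_smul]
    have := congrFun hv' j
    simp only [Matrix.vecMul, dotProduct, Matrix.of_apply, Pi.zero_apply] at this
    rw [this, zero_smul]
  · rw [← Matrix.det_mul]
    congr 1
    ext i j
    simp [Matrix.mul_apply, ← hM]

/-- expansion along a point where all members but one vanish -/
theorem det_cons {n : ℕ} (g : T → Ω) (w : Fin n → T → Ω) (x : T) (hw : ∀ i, w i x = 0)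
    (a : Fin n → T) :
    (Matrix.of fun i j => (Fin.cons g w : Fin (n + 1) → T → Ω) i
      ((Fin.cons x a : Fin (n + 1) → T) j)).det = g x * (Matrix.of fun i j => w i (a j)).det := by
  rw [Matrix.det_succ_column_zero, Fin.sum_univ_succ]
  simp [hw]
  left
  rfl

theorem det_mul_col {ι : Type} [Fintype ι] [DecidableEq ι] (m : T → Ω) (w : ι → T → Ω)
    (a : ι → T) : (Matrix.of fun i j => (m * w i) (a j)).det =
      (∏ j, m (a j)) * (Matrix.of fun i j => w i (a j)).det := by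
  rw [← Matrix.det_mul_row]
  rfl

/-- a basis of `U` at `x, a` against a basis of the members that vanish at `x` -/
theorem det_strip {n : ℕ} {g : Fin (n + 1) → T → Ω} (hg : LinearIndependent Ω g) {x : T}
    {w : Fin n → T → Ω} (hw : ∀ i, w i x = 0) {g₀ : T → Ω}
    (h₀ : g₀ ∈ Submodule.span Ω (range g)) (h0 : g₀ x ≠ 0)
    (hs : ∀ f ∈ Submodule.span Ω (range g), f x = 0 → f ∈ Submodule.span Ω (range w)) :
    ∃ c : Ω, c ≠ 0 ∧ ∀ a : Fin n → T,
      (Matrix.of fun i j => g i ((Fin.cons x a : Fin (n + 1) → T) j)).det =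
        c * (Matrix.of fun i j => w i (a j)).det := by
  have key : ∀ i, g i ∈ Submodule.span Ω (range (Fin.cons g₀ w : Fin (n + 1) → T → Ω)) := by
    intro i
    have h1 : g i - (g i x / g₀ x) • g₀ ∈ Submodule.span Ω (range w) :=
      hs _ (Submodule.sub_mem _ (Submodule.subset_span ⟨i, rfl⟩) (Submodule.smul_mem _ _ h₀))
        (by simp [h0])
    have h2 : Submodule.span Ω (range w) ≤
        Submodule.span Ω (range (Fin.cons g₀ w : Fin (n + 1) → T → Ω)) :=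
      Submodule.span_mono (by rintro _ ⟨k, rfl⟩; exact ⟨k.succ, rfl⟩)
    have h3 : g₀ ∈ Submodule.span Ω (range (Fin.cons g₀ w : Fin (n + 1) → T → Ω)) :=
      Submodule.subset_span ⟨0, rfl⟩
    simpa using Submodule.add_mem _ (h2 h1) (Submodule.smul_mem _ (g i x / g₀ x) h3)
  obtain ⟨c, hc, h⟩ := det_base hg key
  exact ⟨c * g₀ x, mul_ne_zero hc h0, fun a => by rw [h, det_cons g₀ w x hw, mul_assoc]⟩

/-- the quotient by `E` with the values prescribed on the diagonal is regular -/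
theorem core (hdens : ∀ x f, At L 0 x f → (∀ᶠ y in nb L x, y ≠ x → f y = 0) → f x = 0)
    {E : T → T → Ω} (hE : ∀ x y, x ≠ y → E x y ≠ 0) {t : T × T} {D σ ρ : T × T → Ω}
    (hρ : At (box L L) 0 t ρ)
    (h : ∀ᶠ u in nb (box L L) t, E u.1 u.2 * D u = ρ u * (E u.1 u.2 * σ u))
    (hσ : ∀ᶠ u in nb (box L L) t, σ u ≠ 0)
    (hD : ∀ᶠ u in nb (box L L) t, u.1 = u.2 → At L 0 u.1 fun y => D (u.1, y) / σ (u.1, y)) :
    At (box L L) 0 t (D / σ) := by
  have h1 : ∀ᶠ u in nb (box L L) t, u.1 ≠ u.2 → ρ u = D u / σ u := by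
    filter_upwards [h, hσ] with u hu hs hne
    rw [eq_div_iff hs]
    exact mul_left_cancel₀ (hE _ _ hne) (by rw [hu]; ring)
  refine hρ.congr ?_
  filter_upwards [nb_ev h1, hρ.ev, hD] with u h1 h2 h3
  obtain ⟨x, y⟩ := u
  by_cases e : x = y
  · subst e
    have hj : Mp L (box L L) fun y => (x, y) := (Mp.const L L x).prod (Mp.id L)
    have h4 := (At.comp hj (t := x) h2).sub (h3 rfl)
    refine sub_eq_zero.1 (hdens x _ h4 ?_)
    filter_upwards [hj.ev (t := x) h1] with y hy hne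
    exact sub_eq_zero.2 (hy hne.symm)
  · exact nb_self h1 e

/-- determinants with two moving points are regular -/
theorem det_at {n : ℕ} (hL : Nv L) {U : Submodule Ω (T → Ω)} (hU : Mp L U fun t => t)
    {g : Fin (n + 2) → T → Ω} (hg : ∀ i, g i ∈ U) (b : Fin n → T) {g₀ g₁ : T → Ω} (h₀ : g₀ ∈ U)
    (h₁ : g₁ ∈ U) {t : T × T} (n₀ : g₀ t.1 ≠ 0) (n₁ : g₁ t.2 ≠ 0) :
    At (box L L) 0 t fun u => (Matrix.of fun i j => g i
      ((Fin.cons u.1 (Fin.cons u.2 b : Fin (n + 1) → T) : Fin (n + 2) → T) j)).det /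
        (g₀ u.1 * g₁ u.2) := by
  have hb : Mp (box L L) (box U U) fun u => u :=
    (hU.comp (Mp.fst L hL)).prod (hU.comp (Mp.snd hL L))
  refine hb.ratio (k := 1) (u := fun u : T × T => (Matrix.of fun i j => g i
      ((Fin.cons u.1 (Fin.cons u.2 b : Fin (n + 1) → T) : Fin (n + 2) → T) j)).det)
    (v := fun u : T × T => g₀ u.1 * g₁ u.2) (At.of_mem1 ?_ _) (At.of_mem1 (mem_box h₀ h₁) _)
    (mul_ne_zero n₀ n₁)
  have : (fun u : T × T => (Matrix.of fun i j => g i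
      ((Fin.cons u.1 (Fin.cons u.2 b : Fin (n + 1) → T) : Fin (n + 2) → T) j)).det) =
      ∑ p : Equiv.Perm (Fin (n + 2)), (((Equiv.Perm.sign p : ℤˣ) : ℤ) : Ω) •
        (∏ j : Fin n, g (p j.succ.succ) (b j)) • fun u : T × T => g (p 0) u.1 * g (p 1) u.2 := by
    funext u
    rw [Matrix.det_apply', Finset.sum_apply]
    refine Finset.sum_congr rfl fun p _ => ?_
    rw [Fin.prod_univ_succ, Fin.prod_univ_succ]
    simp
    ring_nf
    simp
  rw [this]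
  exact Submodule.sum_mem _ fun p _ =>
    Submodule.smul_mem _ _ (Submodule.smul_mem _ _ (mem_box (hg _) (hg _)))

/-- determinant of the values of `u` at `y, b` -/
abbrev dt {n : ℕ} (u : Fin (n + 1) → T → Ω) (y : T) (b : Fin n → T) : Ω :=
  (Matrix.of fun i j => u i ((Fin.cons y b : Fin (n + 1) → T) j)).det

theorem dt_eq {n : ℕ} (u : Fin (n + 1) → T → Ω) (b : Fin n → T) :
    ∃ c : Fin (n + 1) → Ω, ∀ y, dt u y b = ∑ i, c i * u i y := by
  refine ⟨fun i => (-1) ^ (i : ℕ) * (Matrix.of fun k j => u (i.succAbove k) (b j)).det, fun y => ?_⟩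
  rw [dt, Matrix.det_succ_column_zero]
  refine Finset.sum_congr rfl fun i _ => ?_
  rw [mul_right_comm]
  rfl

/-- the secant data on `T` -/
structure Sc (L : Submodule Ω (T → Ω)) {ι : Type} (E : T → T → Ω) (s : T × T → ι → Ω) : Prop where
  nv : Nv L
  dens : ∀ x f, At L 0 x f → (∀ᶠ y in nb L x, y ≠ x → f y = 0) → f x = 0
  ne : ∀ x y, x ≠ y → E x y ≠ 0
  zero : ∀ x, E x x = 0
  sne : ∀ t, s t ≠ 0
  reg : Mp (box L L) (crd s) fun t => t
  mem : ∀ k, (fun t : T × T => E t.1 t.2 * s t k) ∈ box L L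
  div : ∀ x k (φ : T × T → Ω), s (x, x) k ≠ 0 → At (box L L) 0 (x, x) φ → (∀ y, φ (y, y) = 0) →
    ∃ l ∈ L, l x ≠ 0 ∧ ∃ ρ, At (box L L) 0 (x, x) ρ ∧
      ∀ᶠ t in nb (box L L) (x, x), φ t = ρ t * (E t.1 t.2 * s t k / (l t.1 * l t.2))

variable {ι : Type} {E : T → T → Ω} {s : T × T → ι → Ω}

theorem Sc.ev (h : Sc L E s) {t : T × T} {k : ι} (hk : s t k ≠ 0) :
    ∀ᶠ u in nb (box L L) t, s u k ≠ 0 :=
  h.reg.ev (p := fun u => s u k ≠ 0)
    ((At.of_mem1 (L := crd s) (f := fun u => s u k)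
      (Submodule.subset_span (mem_range_self k)) t).ne hk)

theorem Sc.div' (h : Sc L E s) {t : T × T} {k : ι} {φ : T × T → Ω} (hk : s t k ≠ 0)
    (hφ : At (box L L) 0 t φ) (h0 : ∀ y, φ (y, y) = 0) {l₀ l₁ : T → Ω} (m₀ : l₀ ∈ L)
    (m₁ : l₁ ∈ L) (n₀ : l₀ t.1 ≠ 0) (n₁ : l₁ t.2 ≠ 0) : ∃ ρ, At (box L L) 0 t ρ ∧
      ∀ᶠ u in nb (box L L) t, φ u = ρ u * (E u.1 u.2 * (s u k / (l₀ u.1 * l₁ u.2))) := by
  have hl := At.of_mem1 (mem_box m₀ m₁) t
  obtain ⟨x, y⟩ := t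
  by_cases e : x = y
  · subst e
    obtain ⟨l, m, n, ρ, hρ, hh⟩ := h.div x k φ hk hφ h0
    have hl' := At.of_mem1 (mem_box m m) (x, x)
    refine ⟨_, hρ.mul0 (hl.div_same hl' (mul_ne_zero n n)), ?_⟩
    filter_upwards [hh, hl.ne (mul_ne_zero n₀ n₁)] with u h1 h2
    rw [h1]
    simp only [Pi.mul_apply, Pi.div_apply]
    have := left_ne_zero_of_mul h2
    have := right_ne_zero_of_mul h2
    field_simp
  · have hm := At.of_mem1 (h.mem k) (x, y)
    have hn : E x y * s (x, y) k ≠ 0 := mul_ne_zero (h.ne _ _ e) hk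
    refine ⟨_, hφ.mul0 (hl.div_same hm hn), ?_⟩
    filter_upwards [hm.ne hn, hl.ne (mul_ne_zero n₀ n₁)] with u h1 h2
    simp only [Pi.mul_apply, Pi.div_apply]
    have := left_ne_zero_of_mul h2
    have := right_ne_zero_of_mul h2
    have := left_ne_zero_of_mul h1
    have := right_ne_zero_of_mul h1
    field_simp

/-- a basis `g` of a system without base point, and for every `x` the members that vanish at `x` -/
structure St (L : Submodule Ω (T → Ω)) (E : T → T → Ω) (s : T × T → ι → Ω) {n : ℕ}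
    (g : Fin (n + 2) → T → Ω) (w : T → Fin (n + 1) → T → Ω) : Prop where
  ind : LinearIndependent Ω g
  nv : Nv (Submodule.span Ω (range g))
  reg : Mp L (Submodule.span Ω (range g)) fun t => t
  sp : ∀ x, ∀ f ∈ Submodule.span Ω (range g), f x = 0 →
    f ∈ Submodule.span Ω (range fun i => E x * w x i)
  loc : ∀ x i k, ∀ l ∈ L, ∀ f ∈ Submodule.span Ω (range g), s (x, x) k ≠ 0 → l x ≠ 0 → f x ≠ 0 →
    At L 0 x fun y => w x i y * l y / (s (x, y) k * f y)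

variable {n : ℕ} {g : Fin (n + 2) → T → Ω} {w : T → Fin (n + 1) → T → Ω}

theorem St.unit (h : Sc L E s) (H : St L E s g w) (b : Fin n → T) : ∃ N : T → Ω,
    ∀ (t : T × T) (k : ι), ∀ l₀ ∈ L, ∀ l₁ ∈ L, ∀ g₀ ∈ Submodule.span Ω (range g),
      ∀ g₁ ∈ Submodule.span Ω (range g), s t k ≠ 0 → l₀ t.1 ≠ 0 → l₁ t.2 ≠ 0 → g₀ t.1 ≠ 0 →
      g₁ t.2 ≠ 0 → (∀ j, b j ≠ t.1) → dt (w t.1) t.2 b ≠ 0 →
      Ut (box L L) t fun u => N u.1 * dt (w u.1) u.2 b / (g₀ u.1 * g₁ u.2) /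
        (s u k / (l₀ u.1 * l₁ u.2)) := by
  have key : ∀ x, ∃ c : Ω, c ≠ 0 ∧ ∀ a : Fin (n + 1) → T,
      (Matrix.of fun i j => g i ((Fin.cons x a : Fin (n + 2) → T) j)).det =
        c * (Matrix.of fun i j => (E x * w x i) (a j)).det := fun x => by
    obtain ⟨f, hf, h0⟩ := H.nv x
    exact det_strip H.ind (fun i => by simp [h.zero]) hf h0 (H.sp x)
  choose κ hκ hk using key
  refine ⟨fun x => κ x * ∏ j, E x (b j), ?_⟩
  intro t k l₀ m₀ l₁ m₁ g₀ q₀ g₁ q₁ nk n₀ n₁ r₀ r₁ hb hd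
  have hφ := det_at h.nv H.reg (fun i => Submodule.subset_span ⟨i, rfl⟩) b q₀ q₁ r₀ r₁
  have e : ∀ u : T × T, (Matrix.of fun i j => g i
      ((Fin.cons u.1 (Fin.cons u.2 b : Fin (n + 1) → T) : Fin (n + 2) → T) j)).det =
      E u.1 u.2 * ((κ u.1 * ∏ j, E u.1 (b j)) * dt (w u.1) u.2 b) := fun u => by
    rw [hk, det_mul_col, Fin.prod_univ_succ]
    simp only [Fin.cons_zero, Fin.cons_succ]
    ring
  obtain ⟨ρ, hρ, hh⟩ := h.div' nk hφ (fun y => by rw [e]; simp [h.zero]) m₀ m₁ n₀ n₁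
  have hl := (At.of_mem1 (mem_box m₀ m₁) t).ne (mul_ne_zero n₀ n₁)
  have hb' : Mp (box L L) (box _ _) fun u => u :=
    (H.reg.comp (Mp.fst L h.nv)).prod (H.reg.comp (Mp.snd h.nv L))
  have hg := hb'.ev (p := fun u => g₀ u.1 * g₁ u.2 ≠ 0)
    ((At.of_mem1 (mem_box q₀ q₁) t).ne (mul_ne_zero r₀ r₁))
  refine ⟨core h.dens h.ne (σ := fun u => s u k / (l₀ u.1 * l₁ u.2))
    (D := fun u => (κ u.1 * ∏ j, E u.1 (b j)) * dt (w u.1) u.2 b / (g₀ u.1 * g₁ u.2)) hρ ?_ ?_ ?_, ?_⟩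
  · filter_upwards [hh] with u hu
    rw [← hu, e, ← mul_div_assoc]
  · filter_upwards [h.ev nk, hl] with u h1 h2
    exact div_ne_zero h1 h2
  · filter_upwards [h.ev nk, hl, hg] with u h1 h2 h3 h4
    obtain ⟨x, y⟩ := u
    obtain rfl : x = y := h4
    obtain ⟨c, hc⟩ := dt_eq (w x) b
    have := (At.sum Finset.univ fun i _ => (H.loc x i k l₁ m₁ g₁ q₁ h1 (right_ne_zero_of_mul h2)
      (right_ne_zero_of_mul h3)).smul (c i)).smul ((κ x * ∏ j, E x (b j)) * l₀ x / g₀ x)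
    refine this.congr (Filter.Eventually.of_forall fun y => ?_)
    simp only [hc, Pi.smul_apply, Finset.sum_apply, smul_eq_mul, Finset.mul_sum, Finset.sum_div]
    refine Finset.sum_congr rfl fun i _ => ?_
    rw [div_div_eq_mul_div]
    simp only [div_eq_mul_inv, mul_inv]
    ring
  · exact div_ne_zero (div_ne_zero (mul_ne_zero (mul_ne_zero (hκ _)
      (Finset.prod_ne_zero_iff.2 fun j _ => h.ne _ _ (hb j).symm)) hd) (mul_ne_zero r₀ r₁))
      (div_ne_zero nk (mul_ne_zero n₀ n₁))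

theorem dt_mul (m : T → Ω) (u : Fin (n + 1) → T → Ω) (y : T) (b : Fin n → T) :
    dt (fun i => m * u i) y b = m y * (∏ j, m (b j)) * dt u y b := by
  rw [dt, det_mul_col, Fin.prod_univ_succ]
  rfl

/-- the two systems on `T × T` differ by `μ x y₀ / μ x y` and a unit near every point -/
theorem St.ratio (h : Sc L E s) {u v : T → Fin (n + 1) → T → Ω} {μ : T → T → Ω}
    (hμ : ∀ x y, μ x y ≠ 0) (H : St L E s g fun x i => μ x * u x i) (c₀ y₀ : T)
    {W : Submodule Ω (T × T → Ω)} (hW : Mp (box L L) W fun t => t)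
    (mW : ∀ b, (fun t : T × T => dt (u t.1) t.2 b * dt (v t.1) c₀ b) ∈ W)
    (gen : ∀ x y, ∃ b : Fin n → T, (∀ j, b j ≠ x) ∧ dt (u x) y b ≠ 0 ∧ dt (u x) y₀ b ≠ 0 ∧
      dt (v x) c₀ b ≠ 0) (t : T × T) :
    ∃ (k k' : ι) (b : Fin n → T), ∃ f ∈ Submodule.span Ω (range g), ∃ l ∈ L,
      s t k * (dt (u t.1) y₀ b * dt (v t.1) c₀ b * f t.2) ≠ 0 ∧
      Ut (box L L) t fun z => μ z.1 y₀ / μ z.1 z.2 *
        (s z k * (dt (u z.1) y₀ b * dt (v z.1) c₀ b * f z.2)) /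
        (s (z.1, y₀) k' * (dt (u z.1) z.2 b * dt (v z.1) c₀ b * l z.2)) := by
  obtain ⟨b, hb, d₁, d₀, dv⟩ := gen t.1 t.2
  obtain ⟨k, hk⟩ := Function.ne_iff.1 (h.sne t)
  obtain ⟨k', hk'⟩ := Function.ne_iff.1 (h.sne (t.1, y₀))
  obtain ⟨l₀, m₀, n₀⟩ := h.nv t.1
  obtain ⟨l₁, m₁, n₁⟩ := h.nv t.2
  obtain ⟨l₂, m₂, n₂⟩ := h.nv y₀
  obtain ⟨g₀, q₀, r₀⟩ := H.nv t.1
  obtain ⟨g₁, q₁, r₁⟩ := H.nv t.2
  obtain ⟨g₂, q₂, r₂⟩ := H.nv y₀
  obtain ⟨N, hN⟩ := H.unit h b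
  have hw : ∀ x y, dt (u x) y b ≠ 0 → dt (fun i => μ x * u x i) y b ≠ 0 := fun x y hy => by
    rw [dt_mul]
    exact mul_ne_zero (mul_ne_zero (hμ _ _) (Finset.prod_ne_zero_iff.2 fun j _ => hμ _ _)) hy
  have R₁ := hN t k l₀ m₀ l₁ m₁ g₀ q₀ g₁ q₁ hk n₀ n₁ r₀ r₁ hb (hw _ _ d₁)
  have hj : Mp (box L L) (box L L) fun z : T × T => (z.1, y₀) :=
    (Mp.fst L h.nv).prod (Mp.const _ L y₀)
  have R₂ := Ut.comp hj (t := t)
    (hN (t.1, y₀) k' l₀ m₀ l₂ m₂ g₀ q₀ g₂ q₂ hk' n₀ n₂ r₀ r₂ hb (hw _ _ d₀))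
  have hv := hW.ev (t := t) (p := fun z => dt (u z.1) z.2 b * dt (v z.1) c₀ b ≠ 0)
    ((At.of_mem1 (mW b) t).ne (mul_ne_zero d₁ dv))
  refine ⟨k, k', b, g₁, q₁, l₁, m₁, mul_ne_zero hk (mul_ne_zero (mul_ne_zero d₀ dv) r₁), ?_⟩
  refine ((R₂.div R₁).mul (Ut.const _ t (div_ne_zero r₂ n₂))).congr ?_
  filter_upwards [R₁.ne, R₂.ne, hv] with z h1 h2 h3
  simp only [dt_mul, ne_eq, div_eq_zero_iff, mul_eq_zero, not_or] at h1 h2 h3
  obtain ⟨⟨⟨a1, ⟨a2, a3⟩, a4⟩, a5, a6⟩, a7, a8, a9⟩ := h1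
  obtain ⟨⟨⟨-, ⟨b2, -⟩, b4⟩, -, b6⟩, b7, -, b9⟩ := h2
  have := h3.2
  simp only [Pi.mul_apply, Pi.div_apply, dt_mul]
  field_simp

end Pool.Agent.Tav.Cv.Poi
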