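import Pool.Agent.P.MP_2ce3e7_ag.Tav.CuMain

/-! On a smooth curve the secant map extends to the diagonal. -/

set_option autoImplicit false

noncomputable section

namespace Pool.Agent.Tav.Cu

open MvPolynomial Filter

variable {Ω : Type} [Field Ω] {T Z τ : Type}

/-- difference quotients of a polynomial -/
theorem sm_diff [Fintype τ] [DecidableEq τ] {B : Submodule Ω (Z → Ω)} {z₀ : Z} {u v : Z → τ → Ω}
    (hu : ∀ l, At B 0 z₀ fun z => u z l) (hv : ∀ l, At B 0 z₀ fun z => v z l) (h0 : u z₀ = v z₀)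
    (f : MvPolynomial τ Ω) : (At B 0 z₀ fun z => eval (v z) f) ∧ ∃ g : τ → Z → Ω,
      (∀ l, At B 0 z₀ (g l)) ∧
      (∀ z, eval (u z) f - eval (v z) f = ∑ l, g l z * (u z l - v z l)) ∧
      ∀ l, g l z₀ = eval (v z₀) (pderiv l f) := by
  induction f using MvPolynomial.induction_on with
  | C a =>
    exact ⟨by simpa using At.const B z₀ a, fun _ _ => 0, fun _ => At.zero B 0 z₀,
      fun z => by simp, fun l => by simp⟩
  | add p q hp hq =>
    obtain ⟨a1, g, a2, a3, a4⟩ := hp
    obtain ⟨b1, g', b2, b3, b4⟩ := hq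
    refine ⟨(a1.add b1).congr (Eventually.of_forall fun z => by simp), fun l => g l + g' l,
      fun l => (a2 l).add (b2 l), fun z => ?_, fun l => by simp [a4, b4]⟩
    simp only [map_add, Pi.add_apply, add_mul, Finset.sum_add_distrib, ← a3, ← b3]
    ring
  | mul_X p n hp =>
    obtain ⟨a1, g, a2, a3, a4⟩ := hp
    refine ⟨(a1.mul0 (hv n)).congr (Eventually.of_forall fun z => by simp),
      fun l z => g l z * u z n + if l = n then eval (v z) p else 0, fun l => ?_, fun z => ?_,
      fun l => ?_⟩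
    · refine ((a2 l).mul0 (hu n)).add (g := fun z => if l = n then eval (v z) p else 0) ?_
      split_ifs
      · exact a1
      · exact At.zero B 0 z₀
    · have : ∑ l, g l z * u z n * (u z l - v z l) = (eval (u z) p - eval (v z) p) * u z n := by
        rw [a3, Finset.sum_mul]
        exact Finset.sum_congr rfl fun l _ => by ring
      simp only [add_mul, Finset.sum_add_distrib, this, ite_mul, zero_mul, Finset.sum_ite_eq',
        Finset.mem_univ, if_true, map_mul, eval_X]
      ring
    · by_cases h : l = n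
      · subst h
        simp [a4, h0, mul_comm, add_comm]
      · simp [a4, h0, h, pderiv_X_of_ne (Ne.symm h), mul_comm]

theorem sm_euler [Fintype τ] [DecidableEq τ] (w : τ → Ω) (f : MvPolynomial τ Ω) :
    (∀ a : Ω, (aeval (fun l => Polynomial.C (w l) * Polynomial.X) f).eval a = eval (a • w) f) ∧
    (aeval (fun l => Polynomial.C (w l) * Polynomial.X) f).derivative.eval 1 =
      ∑ l, eval w (pderiv l f) * w l := by
  induction f using MvPolynomial.induction_on with
  | C a => simp
  | add p q hp hq =>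
    refine ⟨fun a => by simp [hp.1, hq.1], ?_⟩
    simp only [map_add, Polynomial.eval_add, hp.2, hq.2, add_mul, Finset.sum_add_distrib]
  | mul_X p n hp =>
    refine ⟨fun a => ?_, ?_⟩
    · rw [map_mul, map_mul, Polynomial.eval_mul, hp.1, aeval_X, eval_X]
      simp only [Polynomial.eval_mul, Polynomial.eval_C, Polynomial.eval_X, Pi.smul_apply,
        smul_eq_mul, mul_comm a]
    have e : ∀ l, eval w (pderiv l (p * X n)) * w l =
        eval w (pderiv l p) * w l * w n + if l = n then eval w p * w n else 0 := fun l => by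
      by_cases h : l = n
      · subst h
        simp
        ring
      · simp [h, pderiv_X_of_ne (Ne.symm h)]
        ring
    have e1 := hp.1 1
    rw [one_smul] at e1
    simp only [e, Finset.sum_add_distrib, Finset.sum_ite_eq', Finset.mem_univ, if_true,
      ← Finset.sum_mul, ← hp.2, map_mul, aeval_X, Polynomial.derivative_mul, Polynomial.eval_add,
      Polynomial.eval_mul, e1]
    simp

/-- the tangent space of the cone -/
def tgt [Fintype τ] (I : Ideal (MvPolynomial τ Ω)) (w : τ → Ω) : Submodule Ω (τ → Ω) :=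
  ⨅ f ∈ I, LinearMap.ker
    (∑ l, eval w (pderiv l f) • LinearMap.proj (R := Ω) (φ := fun _ => Ω) l)

theorem mem_tgt [Fintype τ] {I : Ideal (MvPolynomial τ Ω)} {w v : τ → Ω} :
    v ∈ tgt I w ↔ ∀ f ∈ I, ∑ l, eval w (pderiv l f) * v l = 0 := by
  simp [tgt, Submodule.mem_iInf, LinearMap.sum_apply]

theorem sm_cone {c : T → τ → Ω} {f : MvPolynomial τ Ω} (hf : f ∈ idl c) (a : Ω) (t : T) :
    eval (a • c t) f = 0 := by
  have := (mem_vanishingIdeal_iff.1 hf) _ ⟨a, t, rfl⟩
  simpa [aeval_def] using this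

theorem self_mem_tgt [Fintype τ] [Infinite Ω] (c : T → τ → Ω) (t : T) :
    c t ∈ tgt (idl c) (c t) := mem_tgt.2 fun f hf => by
  classical
  obtain ⟨h1, h2⟩ := sm_euler (c t) f
  have h3 : aeval (fun l => Polynomial.C (c t l) * Polynomial.X) f = 0 :=
    Polynomial.funext fun a => by rw [h1, sm_cone hf, Polynomial.eval_zero]
  rw [← h2, h3]
  simp

theorem sm_idx [Fintype τ] {W : Submodule Ω (τ → Ω)} (hW : Module.finrank Ω W ≤ 2) {w : τ → Ω}
    (hw : w ∈ W) {a b₀ : τ} (ha : w a ≠ 0) (hb : b₀ ≠ a) :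
    ∃ b, b ≠ a ∧ ∀ v ∈ W, v a = 0 → v b = 0 → v = 0 := by
  by_cases h : ∃ v₁ ∈ W, v₁ a = 0 ∧ v₁ ≠ 0
  · obtain ⟨v₁, h1, h2, h3⟩ := h
    obtain ⟨b, h4⟩ := Function.ne_iff.1 h3
    refine ⟨b, fun e => h4 (e ▸ h2), fun v h5 h6 h7 => ?_⟩
    by_contra h8
    have li : LinearIndependent Ω (![⟨w, hw⟩, ⟨v₁, h1⟩, ⟨v, h5⟩] : Fin 3 → W) := by
      refine Fintype.linearIndependent_iff.2 fun g hg => ?_
      have e : ∀ l, g 0 * w l + g 1 * v₁ l + g 2 * v l = 0 := fun l => by
        simpa [Fin.sum_univ_three] using congrFun (congrArg Subtype.val hg) l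
      have g0 : g 0 = 0 := by simpa [h2, h6, ha] using e a
      have g1 : g 1 = 0 := by simpa [g0, h7, show v₁ b ≠ 0 from h4] using e b
      obtain ⟨l, h9⟩ := Function.ne_iff.1 h8
      have g2 : g 2 = 0 := by simpa [g0, g1, show v l ≠ 0 from h9] using e l
      intro i
      fin_cases i <;> assumption
    have := li.fintype_card_le_finrank
    simp at this
    omega
  · exact ⟨b₀, hb, fun v h1 h2 _ => by_contra fun h3 => h ⟨v, h1, h2, h3⟩⟩

theorem sm_rows [Fintype τ] [DecidableEq τ] {I : Ideal (MvPolynomial τ Ω)} {w : τ → Ω} {a b : τ}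
    (hab : b ≠ a) (h : ∀ v ∈ tgt I w, v a = 0 → v b = 0 → v = 0) (j : τ) :
    ∃ f ∈ I, ∃ α β : Ω, (j = a → β = 0) ∧ (j = b → β = 1) ∧ ∀ l, eval w (pderiv l f) +
      (if l = a then α else 0) + (if l = b then β else 0) = if j = l then 1 else 0 := by
  by_cases ha : j = a
  · subst ha
    exact ⟨0, I.zero_mem, 1, 0, fun _ => rfl, fun e => absurd e.symm hab,
      fun l => by simp [eq_comm]⟩
  by_cases hb : j = b
  · subst hb
    exact ⟨0, I.zero_mem, 0, 1, fun e => absurd e ha, fun _ => rfl, fun l => by simp [eq_comm]⟩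
  let U : Submodule Ω (τ → Ω) :=
    { carrier := {x | ∃ f ∈ I, ∃ α β : Ω, ∀ l, eval w (pderiv l f) +
        (if l = a then α else 0) + (if l = b then β else 0) = x l}
      add_mem' := fun ⟨f, h1, α, β, h2⟩ ⟨f', h1', α', β', h2'⟩ =>
        ⟨f + f', I.add_mem h1 h1', α + α', β + β', fun l => by
          rw [Pi.add_apply, ← h2, ← h2', map_add, map_add]
          split_ifs <;> ring⟩
      zero_mem' := ⟨0, I.zero_mem, 0, 0, fun l => by simp⟩
      smul_mem' := fun r _ ⟨f, h1, α, β, h2⟩ =>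
        ⟨C r * f, I.mul_mem_left _ h1, r * α, r * β, fun l => by
          rw [Pi.smul_apply, ← h2, pderiv_C_mul, map_mul, eval_C, smul_eq_mul]
          split_ifs <;> ring⟩ }
  have hU : U = ⊤ := by
    by_contra hn
    obtain ⟨φ, h1, h2⟩ := U.exists_le_ker_of_lt_top (lt_top_iff_ne_top.2 hn)
    have e : ∀ x, φ x = ∑ l, x l * φ (Pi.single l 1) := fun x => by
      rw [LinearMap.pi_apply_eq_sum_univ φ x]
      refine Finset.sum_congr rfl fun l _ => ?_
      rw [smul_eq_mul]
      congr 2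
      funext k
      simp [Pi.single_apply, eq_comm]
    have := h (fun l => φ (Pi.single l 1)) (mem_tgt.2 fun f hf => by
        rw [← e]; exact h2 ⟨f, hf, 0, 0, fun l => by simp⟩)
      (h2 ⟨0, I.zero_mem, 1, 0, fun l => by simp [Pi.single_apply]⟩)
      (h2 ⟨0, I.zero_mem, 0, 1, fun l => by simp [Pi.single_apply]⟩)
    refine h1 (LinearMap.ext fun x => ?_)
    rw [e]
    exact Finset.sum_eq_zero fun l _ => by rw [congrFun this l]; simp
  obtain ⟨f, h1, α, β, h2⟩ : (fun l => if j = l then (1 : Ω) else 0) ∈ U := hU ▸ Submodule.mem_top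
  exact ⟨f, h1, α, β, fun e => absurd e ha, fun e => absurd e hb, h2⟩

/-- the minors of two points -/
def mnr (c : T → τ → Ω) (z : T × T) (i : τ × τ) : Ω :=
  c z.1 i.1 * c z.2 i.2 - c z.1 i.2 * c z.2 i.1

theorem mnr_ne {c : T → τ → Ω} (h0 : ∀ t, c t ≠ 0) (hi : ∀ x y, Par (c x) (c y) → x = y)
    {z : T × T} (h : z.1 ≠ z.2) : mnr c z ≠ 0 := fun e => by
  obtain ⟨a, ha⟩ := Function.ne_iff.1 (h0 z.2)
  have ha' : c z.2 a ≠ 0 := ha
  have e1 : c z.1 = (c z.1 a / c z.2 a) • c z.2 := funext fun l => by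
    have := sub_eq_zero.1 (congrFun e (l, a))
    simp only [Pi.smul_apply, smul_eq_mul] at this ⊢
    field_simp
    exact this
  refine h (hi _ _ ⟨_, IsUnit.mk0 _ fun e2 => h0 z.1 ?_, e1⟩)
  rw [e1, e2, zero_smul]

theorem mnr_mem (c : T → τ → Ω) (i : τ × τ) : (fun z => mnr c z i) ∈ box (crd c) (crd c) :=
  Submodule.sub_mem _ (mem_box (crd_mem c i.1) (crd_mem c i.2))
    (mem_box (crd_mem c i.2) (crd_mem c i.1))

theorem sm_dens [Nontrivial T] {c : T → τ → Ω} (h0 : ∀ t, c t ≠ 0)
    (hi : ∀ x y, Par (c x) (c y) → x = y) (hd : Dm (crd c)) {x : T} {k : ℕ} {φ : T → Ω}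
    (hφ : At (crd c) k x φ) (h : ∀ᶠ y in nb (crd c) x, y ≠ x → φ y = 0) : φ x = 0 := by
  by_contra hn
  obtain ⟨y, hy⟩ := exists_ne x
  obtain ⟨i, h1⟩ := Function.ne_iff.1 (mnr_ne h0 hi (z := (y, x)) hy)
  obtain ⟨s, h2, h3⟩ := hd.meet ((hφ.ne hn).and h)
    ((At.of_mem1 (box_left (mnr_mem c i) x) y).ne h1)
  refine h2.1 (h2.2 fun e => h3 ?_)
  rw [e]
  simp [mnr, mul_comm]

theorem sm_loc [Fintype τ] [Infinite Ω] [Nontrivial T] {c : T → τ → Ω} (h0 : ∀ t, c t ≠ 0)
    (hi : ∀ x y, Par (c x) (c y) → x = y) (x : T)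
    (hs : Module.finrank Ω (tgt (idl c) (c x)) ≤ 2) : ∃ s : T × T → τ × τ → Ω,
      (∀ i, At (box (crd c) (crd c)) 0 (x, x) fun z => s z i) ∧ s (x, x) ≠ 0 ∧
      ∀ᶠ z in nb (box (crd c) (crd c)) (x, x), ∃ e : Ω, mnr c z = e • s z := by
  classical
  have hn := crd_nv h0
  obtain ⟨a, ha⟩ := Function.ne_iff.1 (h0 x)
  replace ha : c x a ≠ 0 := ha
  obtain ⟨b₀, hb₀⟩ : ∃ b₀, b₀ ≠ a := by
    obtain ⟨y, hy⟩ := exists_ne x
    obtain ⟨i, h1⟩ := Function.ne_iff.1 (mnr_ne h0 hi (z := (y, x)) hy)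
    by_contra hc
    push Not at hc
    exact h1 (by simp [mnr, hc i.1, hc i.2])
  obtain ⟨b, hb, h1⟩ := sm_idx hs (self_mem_tgt c x) ha hb₀
  choose f hf α β βa βb hr using sm_rows hb h1
  set B := box (crd c) (crd c)
  let u : T × T → τ → Ω := fun z => (c x a / c z.1 a) • c z.1
  let v : T × T → τ → Ω := fun z => (c x a / c z.2 a) • c z.2
  have hu : ∀ l, At B 0 (x, x) fun z => u z l := fun l =>
    (((Mp.fst (crd c) hn).ratio (t := (x, x)) (At.of_mem1 (crd_mem c l) x)
      (At.of_mem1 (crd_mem c a) x) ha).smul (c x a)).congr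
      (Eventually.of_forall fun z => by simp [u]; ring)
  have hv : ∀ l, At B 0 (x, x) fun z => v z l := fun l =>
    (((Mp.snd hn (crd c)).ratio (t := (x, x)) (At.of_mem1 (crd_mem c l) x)
      (At.of_mem1 (crd_mem c a) x) ha).smul (c x a)).congr
      (Eventually.of_forall fun z => by simp [v]; ring)
  have vx : v (x, x) = c x := by simp [v, ha]
  choose g g1 g2 g3 using fun j => (sm_diff hu hv rfl (f j)).2
  let N : Matrix τ τ (reg B (x, x)) := fun j l =>
    ⟨fun z => g j l z + (if l = a then α j else 0) + if l = b then β j else 0,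
      ((g1 j l).add (At.const B _ _)).add (At.const B _ _)⟩
  let ev : T × T → reg B (x, x) →+* Ω := fun z =>
    (Pi.evalRingHom (fun _ => Ω) z).comp (reg B (x, x)).val.toRingHom
  let R : τ → reg B (x, x) := fun j => ∑ l, β l • N.adjugate j l
  have hR : ∀ z j, (R j).1 z = ((ev z).mapMatrix N).adjugate.mulVec β j := fun z j => by
    rw [← RingHom.map_adjugate]
    simp [R, ev, Matrix.mulVec, dotProduct, mul_comm]
  have hD : ∀ z, N.det.1 z = ((ev z).mapMatrix N).det := fun z => (ev z).map_det N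
  have N0 : (ev (x, x)).mapMatrix N = 1 := by
    ext j l
    rw [Matrix.one_apply, ← hr, ← vx, ← g3]
    rfl
  refine ⟨fun z i => (R i.1).1 z * v z i.2 - (R i.2).1 z * v z i.1,
    fun i => (At.mul0 (R i.1).2 (hv _)).sub (At.mul0 (R i.2).2 (hv _)), fun e => ha ?_, ?_⟩
  · simpa [hR, N0, βa a rfl, βb b rfl, vx] using congrFun e (b, a)
  · have e1 : ∀ᶠ z in nb B (x, x), N.det.1 z ≠ 0 := At.ne N.det.2 (by simp [hD, N0])
    have e2 : ∀ᶠ z in nb B (x, x), c z.1 a ≠ 0 :=
      (Mp.fst (crd c) hn).ev (t := (x, x)) ((At.of_mem1 (crd_mem c a) x).ne ha)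
    have e3 : ∀ᶠ z in nb B (x, x), c z.2 a ≠ 0 :=
      (Mp.snd hn (crd c)).ev (t := (x, x)) ((At.of_mem1 (crd_mem c a) x).ne ha)
    filter_upwards [e1, e2, e3] with z e1 e2 e3
    have d0 : (u z - v z) a = 0 := by simp [u, v, e2, e3]
    have k1 : ((ev z).mapMatrix N).mulVec (u z - v z) = (u z - v z) b • β := funext fun j => by
      have := g2 j z
      rw [sm_cone (hf j), sm_cone (hf j), sub_self] at this
      have e : ∀ l, ((ev z).mapMatrix N) j l * (u z - v z) l = g j l z * (u z l - v z l) +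
          (if l = a then α j * (u z - v z) a else 0) +
          if l = b then β j * (u z - v z) b else 0 := fun l => by
        change (g j l z + (if l = a then α j else 0) + if l = b then β j else 0) * _ = _
        split_ifs with p q q
        · exact absurd (q.symm.trans p) hb
        · simp only [p, Pi.sub_apply]; ring
        · simp only [q, Pi.sub_apply]; ring
        · simp only [Pi.sub_apply]; ring
      simp only [Matrix.mulVec, dotProduct, e, Finset.sum_add_distrib, ← this, d0,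
        Finset.sum_ite_eq', Finset.mem_univ, if_true, Pi.smul_apply, smul_eq_mul]
      ring
    have k2 : ∀ j, N.det.1 z * (u z j - v z j) = (u z - v z) b * (R j).1 z := fun j => by
      have := congrFun (congrArg ((ev z).mapMatrix N).adjugate.mulVec k1) j
      rw [Matrix.mulVec_mulVec, Matrix.adjugate_mul, Matrix.smul_mulVec, Matrix.one_mulVec,
        Matrix.mulVec_smul] at this
      rw [hD, hR]
      exact this
    refine ⟨c z.1 a * c z.2 a / c x a ^ 2 * ((u z - v z) b / N.det.1 z), funext fun i => ?_⟩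
    have p1 : ∀ l, c z.1 l = c z.1 a / c x a * u z l := fun l => by simp [u]; field_simp
    have p2 : ∀ l, c z.2 l = c z.2 a / c x a * v z l := fun l => by simp [v]; field_simp
    have p3 : ∀ l, u z l = v z l + (u z - v z) b * (R l).1 z / N.det.1 z := fun l => by
      rw [← k2]; field_simp; ring
    rw [mnr, p1 i.1, p1 i.2, p2 i.1, p2 i.2, p3 i.1, p3 i.2, Pi.smul_apply, smul_eq_mul]
    field_simp
    ring

theorem At.den {ι : Type} [Finite ι] {B : Submodule Ω (Z → Ω)} {z : Z} {F : ι → Z → Ω}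
    (h : ∀ i, At B 0 z (F i)) : ∃ e, ∃ b ∈ B ^ e, b z ≠ 0 ∧ ∀ i, b * F i ∈ B ^ e := by
  classical
  have := Fintype.ofFinite ι
  suffices ∀ s : Finset ι, ∃ e, ∃ b ∈ B ^ e, b z ≠ 0 ∧ ∀ i ∈ s, b * F i ∈ B ^ e from
    let ⟨e, b, h1, h2, h3⟩ := this Finset.univ; ⟨e, b, h1, h2, fun i => h3 i (Finset.mem_univ i)⟩
  intro s
  induction s using Finset.induction_on with
  | empty => exact ⟨0, 1, one_mem_pow B, one_ne_zero, fun i hi => by simp at hi⟩
  | insert k s _ ih =>
    obtain ⟨e, b, h1, h2, h3⟩ := ih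
    obtain ⟨e', b', h1', h2', h3'⟩ := h k
    refine ⟨e + e', b * b', mul_mem_pow h1 h1', mul_ne_zero h2 h2', fun i hi => ?_⟩
    rcases Finset.mem_insert.1 hi with rfl | hi
    · exact mem_pow_congr (mul_mem_pow h1 h3') rfl (mul_assoc _ _ _).symm
    · exact mem_pow_congr (mul_mem_pow (h3 i hi) h1') rfl (mul_right_comm _ _ _)

theorem chart_crd {ι : Type} {B : Submodule Ω (Z → Ω)} {s : Z → ι → Ω} {b : Z → Ω}
    (h : ∀ i, (b * fun z => s z i) ∈ B) : ∀ w ∈ crd s, b * w ∈ B := fun w hw => by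
  induction hw using Submodule.span_induction with
  | mem w hw => obtain ⟨i, rfl⟩ := hw; exact h i
  | zero => simp
  | add _ _ _ _ h1 h2 => rw [mul_add]; exact B.add_mem h1 h2
  | smul r _ _ h1 => rw [mul_smul_comm]; exact B.smul_mem r h1

theorem rg_of_mp_box {κ : Type} {c : T → τ → Ω} {c' : Z → κ → Ω} {W : Submodule Ω (T × Z → Ω)}
    (h : Mp (box (crd c) (crd c')) W fun z => z) :
    Rg ![crd fun z : T × Z => c z.1, crd fun z => c' z.2] W := fun z => by
  obtain ⟨e, b, h1, h2⟩ := h z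
  refine ⟨fun _ => e, b, h1.isUnit, fun w hw => ?_⟩
  have := h2 w hw
  rw [box, crd_map, crd_map, mul_pow] at this
  rw [Fin.prod_univ_two]
  exact this

/-- SM: the secant map of a smooth curve -/
theorem exists_sec [Fintype τ] [Infinite Ω] [Nontrivial T] (c : T → τ → Ω) (h0 : ∀ t, c t ≠ 0)
    (hi : ∀ x y, Par (c x) (c y) → x = y) (hd : Dm (crd c))
    (hs : ∀ t, Module.finrank Ω (tgt (idl c) (c t)) ≤ 2) :
    ∃ (s : T × T → τ × τ → Ω) (E : T → T → Ω), (∀ z, s z ≠ 0) ∧
      (Mp (box (crd c) (crd c)) (crd s) fun z => z) ∧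
      Rg ![crd fun z : T × T => c z.1, crd fun z => c z.2] (crd s) ∧
      (∀ x y a b, c x a * c y b - c x b * c y a = E x y * s (x, y) (a, b)) ∧
      ∀ x y, E x y = 0 ↔ x = y := by
  classical
  choose σ h1 h2 h3 using fun x => sm_loc h0 hi x (hs x)
  let s : T × T → τ × τ → Ω := fun z => if z.1 = z.2 then σ z.1 z else mnr c z
  have s0 : ∀ z, s z ≠ 0 := fun ⟨x, y⟩ => by
    by_cases h : x = y
    · subst h
      simpa [s] using h2 x
    · simpa [s, h] using mnr_ne h0 hi (z := (x, y)) h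
  have hm : Mp (box (crd c) (crd c)) (crd s) fun z => z := fun ⟨x, y⟩ => by
    by_cases h : x = y
    · subst h
      have par : ∀ᶠ z in nb (box (crd c) (crd c)) (x, x), ∀ i k,
          σ x z i * s z k = σ x z k * s z i := by
        filter_upwards [nb_ev (h3 x), eventually_all.2 fun i => (h1 x i).ev] with ⟨x', y⟩ a1 a2 i k
        by_cases e : x' = y
        · subst e
          have hj : Mp (crd c) (box (crd c) (crd c)) fun t => (t, x') :=
            (Mp.id _).prod (Mp.const _ _ x')
          have := sm_dens h0 hi hd (x := x')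
            (((At.comp hj (a2 i)).mul0 (At.comp hj (h1 x' k))).sub
              ((At.comp hj (a2 k)).mul0 (At.comp hj (h1 x' i)))) (by
            filter_upwards [hj.ev a1, hj.ev (h3 x')] with t ⟨e, b1⟩ ⟨e', b2⟩ ht
            have b3 := mnr_ne h0 hi (z := (t, x')) ht
            have he : e ≠ 0 := fun q => b3 (by rw [b1, q, zero_smul])
            have he' : e' ≠ 0 := fun q => b3 (by rw [b2, q, zero_smul])
            have q1 := congrFun (b1.symm.trans b2) i
            have q2 := congrFun (b1.symm.trans b2) k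
            simp only [Pi.smul_apply, smul_eq_mul] at q1 q2
            simp only [Pi.sub_apply, Pi.mul_apply]
            apply mul_left_cancel₀ he
            linear_combination σ x' (t, x') k * q1 - σ x' (t, x') i * q2)
          simpa [s, sub_eq_zero] using this
        · obtain ⟨e', b1⟩ := nb_self a1
          simp only [s, e, if_false, b1, Pi.smul_apply, smul_eq_mul]
          ring
      obtain ⟨i, hi0⟩ := Function.ne_iff.1 (h2 x)
      replace hi0 : σ x (x, x) i ≠ 0 := hi0
      obtain ⟨e, b, b1, b2, b3⟩ := At.den (B := box (crd c) (crd c)) (z := (x, x))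
        (F := fun k z => σ x z i / s z i * s z k) fun k => (h1 x k).congr (by
          filter_upwards [par, (h1 x i).ne hi0] with z a1 a2
          have : s z i ≠ 0 := fun q => s0 z (funext fun k => by
            have := a1 i k
            rw [q, mul_zero] at this
            exact (mul_eq_zero.1 this).resolve_left a2)
          field_simp
          rw [a1 i k])
      refine ⟨e, b * fun z => σ x z i / s z i, mul_ne_zero b2 ?_, chart_crd fun k =>
        mem_pow_congr (b3 k) rfl (funext fun z => by simp only [Pi.mul_apply]; ring)⟩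
      simpa [s] using hi0
    · obtain ⟨i, hi0⟩ := Function.ne_iff.1 (mnr_ne h0 hi (z := (x, y)) h)
      refine ⟨2, fun z => mnr c z i, hi0, chart_crd fun k => ?_⟩
      rw [pow_two]
      have : ((fun z => mnr c z i) * fun z => s z k) = (fun z => mnr c z i) * fun z => mnr c z k :=
        funext fun z => by
          by_cases e : z.1 = z.2
          · simp [mnr, e, mul_comm]
          · simp [s, e]
      rw [this]
      exact Submodule.mul_mem_mul (mnr_mem c i) (mnr_mem c k)
  refine ⟨s, fun x y => if x = y then 0 else 1, s0, hm, rg_of_mp_box hm, fun x y a b => ?_,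
    fun x y => by simp⟩
  by_cases e : x = y
  · simp [e, mul_comm]
  · simp [s, e, mnr]

end Pool.Agent.Tav.Cu
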