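import Pool.Agent.P.MP_2ce3e7_ag.Tav.CuA

/-! Theorem of the cube: interpolation, slices of box products, spans over an algebra. -/

set_option autoImplicit false

noncomputable section

namespace Pool.Agent.Tav.Cu

open Module

variable {Ω : Type} [Field Ω] {T X Y : Type}

/-- the span over `R` of a space of functions -/
def spR (R : Type) [CommRing R] [Algebra Ω R] (W : Submodule Ω (T → Ω)) : Submodule R (T → R) :=
  Submodule.span R ((fun (f : T → Ω) (t : T) => algebraMap Ω R (f t)) '' W)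

/-- the obstruction can always be removed -/
def Obs {α β : Type} (W W'' : Submodule Ω (T → Ω)) (Ax : Set T) (μ : α → T → Ω)
    (s : β → T → Ω) : Prop :=
  ∀ η : β → T → Ω, (∀ b, ∀ t ∈ Ax, η b t = 0) →
    (∀ a b b', (fun t => μ a t * (s b' t * η b t - s b t * η b' t)) ∈ W'') →
    ∃ ξ : β → T → Ω, (∀ b, ξ b ∈ W) ∧ (∀ b, ∀ t ∈ Ax, ξ b t = 0) ∧ ∀ a b b' t,
      μ a t * (s b' t * ξ b t - s b t * ξ b' t) = μ a t * (s b' t * η b t - s b t * η b' t)

/-- interpolation -/
theorem lag (U : Submodule Ω (X → Ω)) [FiniteDimensional Ω U] :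
    ∃ (n : ℕ) (c : Fin n → X → Ω) (x : Fin n → X), (∀ s, c s ∈ U) ∧
      ∀ u ∈ U, u = ∑ s, u (x s) • c s := by
  induction' h : finrank Ω U using Nat.strong_induction_on with n ih generalizing U
  by_cases h0 : U = ⊥
  · refine ⟨0, Fin.elim0, Fin.elim0, fun s => s.elim0, fun u hu => ?_⟩
    rw [h0, Submodule.mem_bot] at hu
    simp [hu]
  obtain ⟨v, hv, hv0⟩ := (Submodule.ne_bot_iff U).1 h0
  obtain ⟨x₀, hx₀⟩ := Function.ne_iff.1 hv0
  have hx₀ : v x₀ ≠ 0 := hx₀
  let U' : Submodule Ω (X → Ω) := U ⊓ LinearMap.ker (LinearMap.proj x₀ : (X → Ω) →ₗ[Ω] Ω)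
  have hlt : U' < U := lt_of_le_of_ne inf_le_left fun e => hx₀ (by
    have : v ∈ U' := e.symm ▸ hv
    exact this.2)
  have : FiniteDimensional Ω U' := Submodule.finiteDimensional_of_le hlt.le
  obtain ⟨n', c, x, hc, hu⟩ := ih _ (h ▸ Submodule.finrank_lt_finrank_of_lt hlt) U' rfl
  refine ⟨n' + 1, Fin.cons ((v x₀)⁻¹ • (v - ∑ s, v (x s) • c s)) c, Fin.cons x₀ x, ?_, ?_⟩
  · refine Fin.cases ?_ fun s => (hc s).1
    exact U.smul_mem _ (U.sub_mem hv (U.sum_mem fun s _ => U.smul_mem _ (hc s).1))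
  · intro u hu'
    have h1 := hu (u - (u x₀ * (v x₀)⁻¹) • v) ⟨U.sub_mem hu' (U.smul_mem _ hv), by
      change u x₀ - (u x₀ * (v x₀)⁻¹) * v x₀ = 0
      field_simp
      ring⟩
    rw [Fin.sum_univ_succ]
    simp only [Fin.cons_zero, Fin.cons_succ]
    rw [sub_eq_iff_eq_add] at h1
    conv_lhs => rw [h1]
    simp only [Pi.sub_apply, Pi.smul_apply, smul_eq_mul, sub_smul, Finset.sum_sub_distrib,
      smul_sub, smul_smul, Finset.smul_sum]
    simp only [mul_assoc]
    abel

/-- a function with slices in `U` and in `V` lies in the box product -/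
theorem box_of_slices {U : Submodule Ω (X → Ω)} [FiniteDimensional Ω U] {V : Submodule Ω (Y → Ω)}
    {f : X × Y → Ω} (h1 : ∀ y, (fun x => f (x, y)) ∈ U) (h2 : ∀ x, (fun y => f (x, y)) ∈ V) :
    f ∈ box U V := by
  obtain ⟨n, c, x, hc, hu⟩ := lag U
  have : f = ∑ s, fun t : X × Y => c s t.1 * f (x s, t.2) := funext fun t => by
    have := congrFun (hu _ (h1 t.2)) t.1
    simp only [Finset.sum_apply, Pi.smul_apply, smul_eq_mul] at this ⊢
    rw [this]
    exact Finset.sum_congr rfl fun s _ => mul_comm _ _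
  rw [this]
  exact Submodule.sum_mem _ fun s _ => mem_box (hc s) (h2 (x s))

theorem box_mono {U U' : Submodule Ω (X → Ω)} {V V' : Submodule Ω (Y → Ω)} (h : U ≤ U')
    (h' : V ≤ V') : box U V ≤ box U' V' :=
  mul_le_mul' (Submodule.map_mono h) (Submodule.map_mono h')

theorem box_mul (U U' : Submodule Ω (X → Ω)) (V V' : Submodule Ω (Y → Ω)) :
    box U V * box U' V' = box (U * U') (V * V') := by
  simp only [box, Submodule.map_mul]
  rw [mul_mul_mul_comm]

theorem fg_pow {L : Submodule Ω (T → Ω)} (h : L.FG) (n : ℕ) : FiniteDimensional Ω (L ^ n :) :=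
  (Submodule.fg_iff_finiteDimensional _).1 (h.pow n)

end Pool.Agent.Tav.Cu
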