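import Pool.Agent.P.MP_2ce3e7_ag.Tav.Stmt0
import Pool.Agent.P.MP_2ce3e7_ag.Tav.CuB

/-! Graded systems of sections and the balanced determinant: definitions. -/

set_option autoImplicit false

noncomputable section

namespace Pool.Agent.Tav.Cv

open Module Function Set Cu

variable {Ω : Type} [Field Ω] {T Γ G : Type} [AddCommGroup Γ] [AddCommGroup G]

/-- a graded system of spaces of sections -/
structure Sys (S : Γ → Submodule Ω (T → Ω)) : Prop where
  ne : Nonempty T
  one : (1 : T → Ω) ∈ S 0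
  mul : ∀ {A B : Γ} {f g : T → Ω}, f ∈ S A → g ∈ S B → f * g ∈ S (A + B)
  dom : ∀ {A B : Γ} {f g : T → Ω}, f ∈ S A → g ∈ S B → f * g = 0 → f = 0 ∨ g = 0
  glue : ∀ (A : Γ) (f : T → Ω), (∀ t, ∃ D, ∃ a ∈ S D, a t ≠ 0 ∧ a * f ∈ S (D + A)) → f ∈ S A

/-- the degree `D` is principal -/
def Pr (S : Γ → Submodule Ω (T → Ω)) (D : Γ) : Prop := ∃ h ∈ S D, ∃ h' ∈ S (-D), h * h' = 1

/-- `u` is a basis of `W` -/
def Bs {m : ℕ} (W : Submodule Ω (T → Ω)) (u : Fin m → T → Ω) : Prop :=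
  LinearIndependent Ω u ∧ Submodule.span Ω (range u) = W

/-- `φ` is a basis of `S A` times a nonzero section -/
def Fr {m : ℕ} (S : Γ → Submodule Ω (T → Ω)) (A : Γ) (φ : Fin m → T → Ω) : Prop :=
  ∃ B, ∃ α ∈ S B, α ≠ 0 ∧ ∃ u, Bs (S A) u ∧ ∀ i, φ i = u i * α

/-- the determinant of the values of `u` at the points `a` -/
def dt {m : ℕ} (u : Fin m → T → Ω) (a : Fin m → T) : Ω := (Matrix.of fun i j => u i (a j)).det

/-- the tuples `(y, b, c, d)` -/
abbrev Tp (T : Type) (n : ℕ) : Type := T × (Fin n → T) × T × (Fin n → T)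

/-- one half of the balanced determinant -/
def Af {n : ℕ} (u v : Fin (n + 1) → T → Ω) (y c : T) (b : Fin n → T) : Ω :=
  dt u (Fin.cons y b) * dt v (Fin.cons c b)

/-- the balanced determinant -/
def Xf {n : ℕ} (u v : Fin (n + 1) → T → Ω) (p : Tp T n) : Ω :=
  Af u v p.1 p.2.2.1 p.2.1 * Af u v p.2.2.1 p.1 p.2.2.2

/-- the class group `G` of the degrees in `Z`, and a large degree `H` -/
structure Jac (S : Γ → Submodule Ω (T → Ω)) (H : Γ) (n : ℕ) (Z : AddSubgroup Γ) (cl : Z →+ G) :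
    Prop where
  sys : Sys S
  onto : Surjective cl
  ker : ∀ D : Z, cl D = 0 ↔ Pr S D
  dim : ∀ D : Z, finrank Ω (S (H + D)) = n + 1
  nv : ∀ D : Z, Nv (S (H + D))
  fd2 : FiniteDimensional Ω (S (H + H))
  fd3 : FiniteDimensional Ω (S (H + H + H))

theorem exists_bs {m : ℕ} {W : Submodule Ω (T → Ω)} (h : finrank Ω W = m + 1) :
    ∃ u : Fin (m + 1) → T → Ω, Bs W u := by
  have : FiniteDimensional Ω W := Module.finite_of_finrank_eq_succ h
  let b := Module.finBasisOfFinrankEq Ω W h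
  refine ⟨fun i => b i, b.linearIndependent.map' W.subtype W.ker_subtype, ?_⟩
  have := congrArg (Submodule.map W.subtype) b.span_eq
  rwa [Submodule.map_span, ← range_comp, Submodule.map_top, Submodule.range_subtype] at this

variable {S : Γ → Submodule Ω (T → Ω)} {H : Γ} {n : ℕ} {Z : AddSubgroup Γ} {cl : Z →+ G}

/-- a representative of a class -/
def Jac.rep (h : Jac S H n Z cl) (x : G) : Z := surjInv h.onto x

theorem Jac.cl_rep (h : Jac S H n Z cl) (x : G) : cl (h.rep x) = x := surjInv_eq h.onto x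

theorem Jac.dim' (h : Jac S H n Z cl) (D : Z) : finrank Ω (S (H - D)) = n + 1 := by
  rw [sub_eq_add_neg]; exact h.dim (-D)

theorem Jac.nv' (h : Jac S H n Z cl) (D : Z) : Nv (S (H - D)) := by
  rw [sub_eq_add_neg]; exact h.nv (-D)

/-- the chosen basis of `S (H + D)` -/
def Jac.bU (h : Jac S H n Z cl) (x : G) : Fin (n + 1) → T → Ω := (exists_bs (h.dim (h.rep x))).choose

/-- the chosen basis of `S (H - D)` -/
def Jac.bV (h : Jac S H n Z cl) (x : G) : Fin (n + 1) → T → Ω :=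
  (exists_bs (h.dim' (h.rep x))).choose

theorem Jac.bs_bU (h : Jac S H n Z cl) (x : G) : Bs (S (H + h.rep x)) (h.bU x) :=
  (exists_bs (h.dim (h.rep x))).choose_spec

theorem Jac.bs_bV (h : Jac S H n Z cl) (x : G) : Bs (S (H - h.rep x)) (h.bV x) :=
  (exists_bs (h.dim' (h.rep x))).choose_spec

/-- the half determinant of a class -/
def Jac.AG (h : Jac S H n Z cl) (x : G) : T → T → (Fin n → T) → Ω := Af (h.bU x) (h.bV x)

/-- the coordinates of a class -/
def Jac.XG (h : Jac S H n Z cl) (x : G) : Tp T n → Ω := Xf (h.bU x) (h.bV x)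

theorem Jac.XG_eq (h : Jac S H n Z cl) (x : G) (y c : T) (b d : Fin n → T) :
    h.XG x (y, b, c, d) = h.AG x y c b * h.AG x c y d := rfl

end Pool.Agent.Tav.Cv
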