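import Pool.Agent.P.MP_2ce3e7_ag.Tav.CvDiv
import Pool.Agent.P.MP_2ce3e7_ag.Tav.CvSm
import Pool.Agent.P.MP_2ce3e7_ag.Tav.CvXD
import Pool.Agent.P.MP_2ce3e7_ag.Tav.CvPoiA

/-! The sections of `k H + D` on a curve with a secant map. -/

set_option autoImplicit false

noncomputable section

namespace Pool.Agent.Tav.Cv

open Filter Cu

variable {Ω : Type} [Field Ω] {T τ : Type}

/-- a complete irreducible system with a secant map -/
structure Sd (c : T → τ → Ω) (s : T × T → τ × τ → Ω) (E : T → T → Ω) : Prop where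
  ne : ∀ t, c t ≠ 0
  inj : ∀ x y, Par (c x) (c y) → x = y
  nt : Nontrivial T
  vr : Vr (crd c)
  sne : ∀ z, s z ≠ 0
  reg : Mp (box (crd c) (crd c)) (crd s) fun z => z
  mnr : ∀ x y a b, c x a * c y b - c x b * c y a = E x y * s (x, y) (a, b)
  zero : ∀ x y, E x y = 0 ↔ x = y

/-- the degrees `k H + D` -/
abbrev Dg (T : Type) : Type := ℤ × (T →₀ ℤ)

/-- the hyperplane class -/
def hH (T : Type) : Dg T := (1, 0)

/-- the class of a point -/
def pt (y : T) : Dg T := (0, Finsupp.single y 1)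

/-- the degree -/
def dg (T : Type) (d : ℤ) : Dg T →+ ℤ :=
  (AddMonoidHom.mulRight d).comp (AddMonoidHom.fst _ _) + Finsupp.degree.comp (AddMonoidHom.snd _ _)

theorem dg_apply (d : ℤ) (A : Dg T) : dg T d A = A.1 * d + Finsupp.degree A.2 := rfl

theorem dg_hH (d : ℤ) : dg T d (hH T) = d := by simp [dg_apply, hH]

theorem dg_pt (d : ℤ) (y : T) : dg T d (pt y) = 1 := by simp [dg_apply, pt]

theorem dg_induction {p : Dg T → Prop} (h1 : p (hH T)) (h2 : ∀ y, p (pt y)) (h0 : p 0)
    (ha : ∀ A B, p A → p B → p (A + B)) (hn : ∀ A, p A → p (-A)) (A : Dg T) : p A := by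
  let P : AddSubgroup (Dg T) :=
    { carrier := {A | p A}, zero_mem' := h0, add_mem' := ha _ _, neg_mem' := hn _ }
  obtain ⟨k, D⟩ := A
  have e1 : ((k, 0) : Dg T) ∈ P := by
    have := P.zsmul_mem (show hH T ∈ P from h1) k
    simpa [hH] using this
  have e2 : ((0, D) : Dg T) ∈ P := by
    induction D using Finsupp.induction_linear with
    | zero => exact P.zero_mem
    | add f g hf hg => simpa using P.add_mem hf hg
    | single y n =>
      have := P.zsmul_mem (show pt y ∈ P from h2 y) n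
      simpa [pt] using this
  have := P.add_mem e1 e2
  rwa [Prod.mk_add_mk, add_zero, zero_add] at this

theorem closure_top : AddSubgroup.closure (insert (hH T) (Set.range pt)) = ⊤ :=
  eq_top_iff.2 fun A _ => dg_induction (p := fun A => A ∈ AddSubgroup.closure _)
    (AddSubgroup.subset_closure (Set.mem_insert _ _))
    (fun y => AddSubgroup.subset_closure (Set.mem_insert_of_mem _ (Set.mem_range_self y)))
    (AddSubgroup.zero_mem _) (fun _ _ => AddSubgroup.add_mem _) (fun _ => AddSubgroup.neg_mem _) A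

open Classical in
/-- a nonzero element as a unit -/
def un (a : Ω) : Ωˣ := if h : a = 0 then 1 else Units.mk0 a h

theorem un_val {a : Ω} (h : a ≠ 0) : (un a : Ω) = a := by rw [un, dif_neg h]; rfl

variable {c : T → τ → Ω} {s : T × T → τ × τ → Ω} {E : T → T → Ω}

namespace Sd

/-- a chart at `t` -/
def ix (h : Sd c s E) (t : T) : τ := (Function.ne_iff.1 (h.ne t)).choose

/-- a chart of the secant map at `(x, t)` -/
def jx (h : Sd c s E) (x t : T) : τ × τ := (Function.ne_iff.1 (h.sne (x, t))).choose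

theorem ix_ne (h : Sd c s E) (t : T) : c t (h.ix t) ≠ 0 := (Function.ne_iff.1 (h.ne t)).choose_spec

theorem jx_ne (h : Sd c s E) (x t : T) : s (x, t) (h.jx x t) ≠ 0 :=
  (Function.ne_iff.1 (h.sne (x, t))).choose_spec

/-- the generator of `A` at `t` -/
def gu (h : Sd c s E) (A : Dg T) (t y : T) : Ωˣ :=
  un (c y (h.ix t)) ^ A.1 * A.2.prod fun x n => (un (c y (h.ix t)) / un (s (x, y) (h.jx x t))) ^ n

/-- the generator of `A` at `t`, as a function -/
def gn (h : Sd c s E) (A : Dg T) (t : T) : T → Ω := fun y => h.gu A t y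

variable (h : Sd c s E) {A B : Dg T} {t x y : T} {f g : T → Ω}
include h

theorem gn_ne (A : Dg T) (t y : T) : h.gn A t y ≠ 0 := Units.ne_zero _

theorem gu_add (A B : Dg T) (t y : T) : h.gu (A + B) t y = h.gu A t y * h.gu B t y := by
  simp only [gu, Prod.fst_add, Prod.snd_add, zpow_add]
  rw [Finsupp.prod_add_index' (fun _ => zpow_zero _) fun _ _ _ => zpow_add _ _ _]
  exact mul_mul_mul_comm _ _ _ _

theorem gn_add (A B : Dg T) (t : T) : h.gn (A + B) t = h.gn A t * h.gn B t :=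
  funext fun y => by simp only [gn, gu_add, Units.val_mul, Pi.mul_apply]

theorem gn_zero (t : T) : h.gn 0 t = 1 := funext fun y => by simp [gn, gu]

theorem gn_sub (A B : Dg T) (t y : T) : h.gn (A - B) t y = h.gn A t y / h.gn B t y := by
  rw [eq_div_iff (h.gn_ne B t y), ← Pi.mul_apply, ← gn_add, sub_add_cancel]

theorem gn_neg (A : Dg T) (t y : T) : h.gn (-A) t y = (h.gn A t y)⁻¹ := by
  rw [← zero_sub, gn_sub, gn_zero, Pi.one_apply, one_div]

theorem gn_nsmul (k : ℕ) (A : Dg T) (t : T) : h.gn (k • A) t = h.gn A t ^ k := by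
  induction k with
  | zero => rw [zero_smul, gn_zero, pow_zero]
  | succ k ih => rw [succ_nsmul, gn_add, ih, pow_succ]

omit h in
theorem mem (a : τ) : (fun t => c t a) ∈ crd c := Submodule.subset_span ⟨a, rfl⟩

theorem nv : Nv (crd c) := h.vr.nv

omit h in
theorem ev_c {a : τ} (ha : c t a ≠ 0) : ∀ᶠ y in nb (crd c) t, c y a ≠ 0 :=
  (At.of_mem1 (mem a) t).ne ha

theorem slice (x : T) : Mp (crd c) (crd s) fun t => (x, t) :=
  h.reg.comp ((Mp.const _ _ x).prod (Mp.id _))

omit h in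
theorem at_s (j : τ × τ) (z : T × T) : At (crd s) 1 z fun w => s w j :=
  At.of_mem1 (L := crd s) (Submodule.subset_span (Set.mem_range_self j)) z

theorem ev_s {j : τ × τ} (hj : s (x, t) j ≠ 0) : ∀ᶠ y in nb (crd c) t, s (x, y) j ≠ 0 :=
  (h.slice x).ev (p := fun w => s w j ≠ 0) ((at_s j _).ne hj)

theorem gn_hH (t : T) : ∀ᶠ y in nb (crd c) t, h.gn (hH T) t y = c y (h.ix t) :=
  (ev_c (h.ix_ne t)).mono fun y hy => by simp [gn, gu, hH, un_val hy]

theorem gn_pt (x t : T) : ∀ᶠ y in nb (crd c) t,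
    h.gn (pt x) t y = c y (h.ix t) / s (x, y) (h.jx x t) :=
  ((ev_c (h.ix_ne t)).and (h.ev_s (h.jx_ne x t))).mono fun y hy => by
    simp [gn, gu, pt, un_val hy.1, un_val hy.2]

theorem gn_sec (x t : T) : ∀ᶠ y in nb (crd c) t, h.gn (hH T - pt x) t y = s (x, y) (h.jx x t) :=
  ((h.gn_hH t).and ((h.gn_pt x t).and (ev_c (h.ix_ne t)))).mono fun y hy => by
    rw [gn_sub, hy.1, hy.2.1, div_div_cancel₀ hy.2.2]

/-- the sections of `A` -/
def S (A : Dg T) : Submodule Ω (T → Ω) where
  carrier := {f | ∀ t, At (crd c) 0 t (f / h.gn A t)}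
  add_mem' := fun hf hg t => ((hf t).add (hg t)).congr
    (Eventually.of_forall fun _ => (add_div _ _ _).symm)
  zero_mem' := fun t => (At.zero _ _ t).congr (Eventually.of_forall fun _ => (zero_div _).symm)
  smul_mem' := fun a f hf t => by rw [smul_div_assoc]; exact (hf t).smul a

theorem mem_S : f ∈ h.S A ↔ ∀ t, At (crd c) 0 t (f / h.gn A t) := Iff.rfl

theorem mul (hf : f ∈ h.S A) (hg : g ∈ h.S B) : f * g ∈ h.S (A + B) := fun t => by
  rw [gn_add, mul_div_mul_comm]; exact (hf t).mul0 (hg t)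

theorem ev_ne (hf : f ∈ h.S A) (ht : f t ≠ 0) : ∀ᶠ y in nb (crd c) t, f y ≠ 0 :=
  ((hf t).ne (div_ne_zero ht (h.gn_ne A t t))).mono fun _ hy => (div_ne_zero_iff.1 hy).1

/-- quotients of sections are regular -/
theorem ratio (hf : f ∈ h.S A) (hg : g ∈ h.S A) (ht : g t ≠ 0) : At (crd c) 0 t (f / g) :=
  ((hf t).div0 (hg t) (div_ne_zero ht (h.gn_ne A t t))).congr (Eventually.of_forall fun y => by
    simp only [Pi.div_apply]; exact div_div_div_cancel_right₀ (h.gn_ne A t y) _ _)

/-- membership is tested against any local generators -/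
theorem mem_of_ratio (h0 : ∀ t, ∃ g ∈ h.S A, ∃ ψ, At (crd c) 0 t ψ ∧
    ∀ᶠ y in nb (crd c) t, f y = ψ y * g y) : f ∈ h.S A := fun t => by
  obtain ⟨g, hg, ψ, h1, h2⟩ := h0 t
  exact (h1.mul0 (hg t)).congr (h2.mono fun y hy => by
    simp only [Pi.div_apply, Pi.mul_apply, hy, mul_div_assoc])

theorem sys : Sys h.S where
  ne := have := h.nt; inferInstance
  one := fun t => by rw [gn_zero, div_one]; exact At.one _ _
  mul := h.mul
  dom := fun {A B f g} hf hg e => by
    by_contra hn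
    rw [not_or] at hn
    obtain ⟨a, ha⟩ := Function.ne_iff.1 hn.1
    obtain ⟨b, hb⟩ := Function.ne_iff.1 hn.2
    obtain ⟨x, h1, h2⟩ := h.vr.dm.meet (h.ev_ne hf ha) (h.ev_ne hg hb)
    exact mul_ne_zero h1 h2 (congrFun e x)
  glue := fun A f h0 t => by
    obtain ⟨D, a, h1, h2, h3⟩ := h0 t
    refine ((h3 t).div0 (h1 t) (div_ne_zero h2 (h.gn_ne D t t))).congr
      ((h.ev_ne h1 h2).mono fun y hy => ?_)
    have := h.gn_ne D t y
    have := h.gn_ne A t y
    simp only [gn_add, Pi.div_apply, Pi.mul_apply]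
    field_simp

theorem S_nsmul (k : ℕ) : h.S (k • hH T) = Gam (crd c) k := by
  ext f
  refine forall_congr' fun t => ?_
  have e1 : At (crd c) k t ((fun y => c y (h.ix t)) ^ k) :=
    At.of_mem (Submodule.pow_mem_pow _ (mem _) k) t
  rw [gn_nsmul]
  refine ⟨fun hf => (e1.mul0 hf).congr ((h.gn_hH t).mono fun y hy => ?_),
    fun hf => (hf.div_same e1 (pow_ne_zero _ (h.ix_ne t))).congr ((h.gn_hH t).mono fun y hy => ?_)⟩
  · simp only [Pi.div_apply, Pi.mul_apply, Pi.pow_apply, ← hy]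
    exact mul_div_cancel₀ _ (pow_ne_zero _ (h.gn_ne _ _ _))
  · simp only [Pi.div_apply, Pi.pow_apply, hy]

theorem pow_le (k : ℕ) : crd c ^ k ≤ h.S (k • hH T) := h.S_nsmul k ▸ pow_le_Gam _ k

theorem le_S : crd c ≤ h.S (hH T) := by simpa using h.pow_le 1

theorem S_sat : ∃ k₀, ∀ k, k₀ ≤ k → h.S (k • hH T) = crd c ^ k := by
  obtain ⟨k₀, hk⟩ := sat h.vr.fg h.vr.nv h.vr.dm h.vr.cpl
  exact ⟨k₀, fun k e => le_antisymm (h.S_nsmul k ▸ hk k e) (h.pow_le k)⟩

theorem nv_hH : Nv (h.S (hH T)) := h.nv.mono h.le_S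

theorem s_mem (x : T) (j : τ × τ) : (fun t => s (x, t) j) ∈ h.S (hH T - pt x) := fun t =>
  ((h.slice x).ratio (at_s j _) (at_s _ _) (h.jx_ne x t)).congr
    ((h.gn_sec x t).mono fun y hy => by simp only [Pi.div_apply, hy])

theorem nv_sec (x : T) : Nv (h.S (hH T - pt x)) := fun t => ⟨_, h.s_mem x _, h.jx_ne x t⟩

theorem Es_mem (x : T) (j : τ × τ) : (fun t => E x t * s (x, t) j) ∈ crd c := by
  have := Submodule.sub_mem _ (Submodule.smul_mem _ (c x j.1) (mem (c := c) j.2))
    (Submodule.smul_mem _ (c x j.2) (mem (c := c) j.1))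
  exact (funext fun t => h.mnr x t j.1 j.2 : _ = fun t => E x t * s (x, t) j) ▸ this

theorem E_mem (x : T) : E x ∈ h.S (pt x) := fun t =>
  ((At.of_mem1 (h.Es_mem x (h.jx x t)) t).div_same (At.of_mem1 (mem _) t) (h.ix_ne t)).congr
    ((h.gn_pt x t).mono fun y hy => by simp only [Pi.div_apply, hy, div_div_eq_mul_div])

/-- a section that vanishes at `y` is a multiple of `E y` -/
theorem ex (hf : f ∈ h.S A) (h0 : f y = 0) : ∃ u ∈ h.S (A - pt y), f = E y * u := by
  classical
  obtain ⟨ψ, h1, h2⟩ := div_pt h.ne h.mnr h.reg (h.jx_ne y y) (h.ix_ne y) (hf y)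
    (by rw [Pi.div_apply, h0, zero_div])
  refine ⟨fun t => if t = y then ψ y * h.gn (A - pt y) y y else f t / E y t, fun t => ?_,
    funext fun t => ?_⟩
  · by_cases e : t = y
    · subst e
      refine h1.congr ((h2.and (h.gn_pt t t)).mono fun z hz => ?_)
      have n1 := h.gn_ne (A - pt t) t z
      simp only [Pi.div_apply]
      split_ifs with e'
      · subst e'
        rw [mul_div_cancel_right₀ _ n1]
      · have n2 : E t z ≠ 0 := fun e'' => e' ((h.zero _ _).1 e'').symm
        have n3 := h.gn_ne A t z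
        have n4 := h.gn_ne (pt t) t z
        have n5 : f z / h.gn A t z = ψ z * (E t z * s (t, z) (h.jx t t) / c z (h.ix t)) := hz.1
        rw [mul_div_assoc (E t z), ← inv_div (c z _), ← hz.2, div_eq_iff n3] at n5
        rw [gn_sub, n5]
        field_simp
    · have n2 : E y t ≠ 0 := fun e'' => e ((h.zero _ _).1 e'').symm
      refine ((hf t).div0 (h.E_mem y t) (div_ne_zero n2 (h.gn_ne _ _ _))).congr
        ((h.ev_ne (h.E_mem y) n2).mono fun z hz => ?_)
      have n3 := h.gn_ne A t z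
      have n4 := h.gn_ne (pt y) t z
      have n5 : z ≠ y := fun e' => hz ((h.zero _ _).2 e'.symm)
      simp only [Pi.div_apply, gn_sub, if_neg n5]
      field_simp
  · simp only [Pi.mul_apply]
    split_ifs with e
    · rw [e, h0, (h.zero y y).2 rfl, zero_mul]
    · exact (mul_div_cancel₀ _ fun e'' => e ((h.zero _ _).1 e'').symm).symm

/-- a finite-dimensional space of sections is a regular system -/
theorem mp_of_le {W : Submodule Ω (T → Ω)} (hW : W.FG) (hA : W ≤ h.S A) :
    Mp (crd c) W fun t => t := fun t => by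
  obtain ⟨F, rfl⟩ := hW
  obtain ⟨e, b, h1, h2, h3⟩ := At.den (B := crd c) (z := t) (F := fun i : F => i.1 / h.gn A t)
    fun i => hA (Submodule.subset_span i.2) t
  refine ⟨e, b / h.gn A t, div_ne_zero h2 (h.gn_ne _ _ _), fun u hu => ?_⟩
  induction hu using Submodule.span_induction with
  | mem w hw => exact mem_pow_congr (h3 ⟨w, hw⟩) rfl (funext fun _ => by
      simp only [Pi.mul_apply, Pi.div_apply]; ring)
  | zero => exact mem_pow_congr (Submodule.zero_mem _) rfl (mul_zero _).symm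
  | add _ _ _ _ h1 h2 => exact mem_pow_congr (Submodule.add_mem _ h1 h2) rfl (mul_add _ _ _).symm
  | smul r _ _ h1 => exact mem_pow_congr (Submodule.smul_mem _ r h1) rfl (mul_smul_comm _ _ _).symm

theorem mp_S [FiniteDimensional Ω (h.S A)] : Mp (crd c) (h.S A) fun t => t :=
  h.mp_of_le (Module.Finite.iff_fg.1 inferInstance) le_rfl

theorem dens {k : ℕ} (hf : At (crd c) k x f) (h0 : ∀ᶠ y in nb (crd c) x, y ≠ x → f y = 0) :
    f x = 0 := by
  have := h.nt
  obtain ⟨l, h1, h2, h3⟩ := exists_lin' h.ne h.inj x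
  exact Cu.dens h.vr.dm h1 h2 h3 hf h0

theorem sc : Poi.Sc (crd c) E s where
  nv := h.nv
  dens := fun _ _ => h.dens
  ne := fun _ _ e e' => e ((h.zero _ _).1 e')
  zero := fun x => (h.zero x x).2 rfl
  sne := h.sne
  reg := h.reg
  mem := fun k => by
    have := Submodule.sub_mem _ (mem_box (mem (c := c) k.1) (mem (c := c) k.2))
      (mem_box (mem (c := c) k.2) (mem (c := c) k.1))
    exact (funext fun t => h.mnr t.1 t.2 k.1 k.2 :
      _ = fun t : T × T => E t.1 t.2 * s t k) ▸ this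
  div := fun x k φ hk hφ h0 => ⟨_, mem (h.ix x), h.ix_ne x,
    div_loc (y := fun t => t) h.nv h.ne (Mp.id _) h.mnr h.reg hk (h.ix_ne x) hφ
      (Eventually.of_forall h0)⟩

end Sd

end Pool.Agent.Tav.Cv
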