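import Pool.Agent.P.MP_2ce3e7_ag.Tav.CvPoiB
import Pool.Agent.P.MP_2ce3e7_ag.Tav.CvBd
import Pool.Agent.P.MP_dd457d_ag.Bcv.Defs

/-! The relation between the secant system and the Poincare system. -/

set_option autoImplicit false

noncomputable section

namespace Pool.Agent.Tav.Cv.Poi

open Set Function Cu

section
variable {Ω T β : Type} [Field Ω] {L U U' : Submodule Ω (T → Ω)} {μ : T → Ω}

theorem half (hL : Vr L) (hU : Mp L U fun t => t)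
    (h : ∀ t, ∃ u ∈ U, ∃ u' ∈ U', u t ≠ 0 ∧ (∀ᶠ z in nb L t, u' z ≠ 0) ∧ At L 0 t (μ * u / u')) :
    ∃ N, ∀ a, ∀ f ∈ L ^ (a + N), ∀ u ∈ U, μ * (u * f) ∈ U' * L ^ (a + N) := by
  let J : ℕ → Submodule Ω (T → Ω) := fun d =>
    { carrier := {f | f ∈ L ^ d ∧ ∀ u ∈ U, μ * (u * f) ∈ U' * L ^ d}
      add_mem' := fun hf hg => ⟨add_mem hf.1 hg.1, fun u hu => by
        rw [mul_add, mul_add]; exact add_mem (hf.2 u hu) (hg.2 u hu)⟩
      zero_mem' := ⟨zero_mem _, fun u _ => by rw [mul_zero, mul_zero]; exact zero_mem _⟩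
      smul_mem' := fun c f hf => ⟨Submodule.smul_mem _ c hf.1, fun u hu => by
        rw [mul_smul_comm, mul_smul_comm]; exact Submodule.smul_mem _ c (hf.2 u hu)⟩ }
  have hJ : GI L J := ⟨fun d f hf => hf.1, fun d => Submodule.mul_le.2 fun l hl f hf =>
    ⟨by rw [pow_succ']; exact Submodule.mul_mem_mul hl hf.1, fun u hu => by
      rw [pow_succ, ← mul_assoc U', show μ * (u * (l * f)) = μ * (u * f) * l by ring]
      exact Submodule.mul_mem_mul (hf.2 u hu) hl⟩⟩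
  obtain ⟨N, hN⟩ := hL.cpl.all hJ hL.fg hL.nv fun t => by
    obtain ⟨u, hu, u', hu', h0, h1, e₁, b₁, m₁, n₁, q₁⟩ := h t
    obtain ⟨e₂, b₂, m₂, n₂, q₂⟩ := ev_nb.1 h1
    obtain ⟨e₃, c, n₃, q₃⟩ := hU t
    refine ⟨e₁ + e₂ + e₃, b₁ * b₂ * (c * u), ⟨mul_mem_pow (mul_mem_pow m₁ m₂) (q₃ u hu),
      fun v hv => ?_⟩, mul_ne_zero (mul_ne_zero n₁ n₂) (mul_ne_zero n₃ h0)⟩
    have := Submodule.mul_mem_mul hu' (mul_mem_pow (mul_mem_pow q₁ m₂) (q₃ v hv))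
    refine (congrArg (· ∈ _) (funext fun z => ?_)).mp this
    by_cases hz : b₂ z = 0
    · simp [hz]
    · have := q₂ z hz
      simp only [Pi.mul_apply, Pi.div_apply]
      field_simp
  exact ⟨N, fun a f hf => (hN a hf).2⟩

theorem reg_of_mp [Fintype β] {B : β → LS Ω T} {V : LS Ω T}
    (h : Mp (∏ i, B i).sp V.sp fun t => t) : Reg B V := fun t =>
  let ⟨e, c, h1, h2⟩ := h t
  ⟨fun _ => e, c, h1, fun u hu => by rw [← prod_pow_sp, LS.pow_sp]; exact h2 u hu⟩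

/-- systems whose members differ by `μ` and a unit near every point are equivalent -/
theorem eqv_of_ut [Fintype β] {B : β → LS Ω T} (hL : Vr (∏ i, B i).sp) {V V' : LS Ω T}
    (hV : Mp (∏ i, B i).sp V.sp fun t => t) (hV' : Mp (∏ i, B i).sp V'.sp fun t => t)
    (h : ∀ t, ∃ u ∈ V.sp, ∃ u' ∈ V'.sp, u t ≠ 0 ∧ Ut (∏ i, B i).sp t (μ * u / u')) :
    Eqv B μ V V' := by
  have h0 : ∀ t, μ t ≠ 0 := fun t =>
    let ⟨_, _, _, _, _, h⟩ := h t
    left_ne_zero_of_mul (nb_self h.ne2).1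
  obtain ⟨N, hN⟩ := half (U' := V'.sp) (μ := μ) hL hV fun t =>
    let ⟨u, hu, u', hu', h1, h2⟩ := h t
    ⟨u, hu, u', hu', h1, h2.ne2.mono fun _ hz => hz.2, h2.1⟩
  obtain ⟨N', hN'⟩ := half (U' := V.sp) (μ := μ⁻¹) hL hV' fun t =>
    let ⟨u, hu, u', hu', _, h2⟩ := h t
    ⟨u', hu', u, hu, (nb_self h2.ne2).2, h2.ne2.mono fun _ hz => right_ne_zero_of_mul hz.1,
      ((Ut.const _ t one_ne_zero).div h2).1.congr (Filter.Eventually.of_forall fun z => by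
        simp only [Pi.div_apply, Pi.mul_apply, Pi.inv_apply, div_eq_mul_inv, mul_inv, inv_inv]
        ring)⟩
  refine ⟨h0, (∏ i, B i) ^ (N' + N), reg_of_mp (by rw [LS.pow_sp]; exact (Mp.id _).pow _), ?_⟩
  rw [LS.mul_sp, LS.mul_sp, LS.pow_sp]
  refine le_antisymm (Submodule.map_le_iff_le_comap.2 (Submodule.mul_le.2 fun u hu f hf =>
    hN N' f hf u hu)) (Submodule.mul_le.2 fun u hu f hf => ?_)
  rw [add_comm] at hf ⊢
  refine ⟨_, hN' N f hf u hu, funext fun z => ?_⟩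
  simp [h0 z]

theorem prod_box {Y σ τ : Type} [Finite σ] [Finite τ] (p : T → σ → Ω) (hp : ∀ t, p t ≠ 0)
    (q : Y → τ → Ω) (hq : ∀ t, q t ≠ 0) :
    (∏ i, prodB (Bcv.oB p hp) (Bcv.oB q hq) i).sp = box (crd p) (crd q) := by
  rw [Fintype.prod_sum_type, Fintype.prod_unique, Fintype.prod_unique]
  rfl

theorem prod_one {σ : Type} [Finite σ] (p : T → σ → Ω) (hp : ∀ t, p t ≠ 0) :
    (∏ i, Bcv.oB p hp i).sp = crd p := by
  rw [Fintype.prod_unique]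
  rfl

end

variable {Ω T Γ G τ σ : Type} [Field Ω] [AddCommGroup Γ] [AddCommGroup G] [Finite τ] [Finite σ]
  {S : Γ → Submodule Ω (T → Ω)} {n : ℕ} {H : Γ} {Z : AddSubgroup Γ} {cl : Z →+ G}
  {c : T → τ → Ω} {E : T → T → Ω} {s : T × T → τ × τ → Ω} {h : Γ} {pt : T → Γ}

theorem pd_of_sd {τ : Type} [Fintype τ] {c : T → τ → Ω} {s : T × T → τ × τ → Ω} (h : Sd c s E) :
    Pd h.S (crd c) E s (hH T) Cv.pt :=
  ⟨h.sc, h.nt, h.le_S, h.s_mem, h.E_mem, fun _ _ _ hf h0 => h.ex hf h0,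
    fun _ _ _ hf _ hg ht => h.ratio hf hg ht⟩

/-- the last fields of the package of a curve -/
theorem poi (J : Jac S H n Z cl) (D : Pd S (crd c) E s h pt) (hc : ∀ t, c t ≠ 0)
    (hL : Vr (crd c)) {p : G → σ → Ω} (hp : ∀ y, p y ≠ 0) (e : crd p = crd J.XG) (x₀ : T)
    (hZ : ∀ x, pt x₀ - pt x ∈ Z) {a : T → G} (ea : ∀ x, a x = cl ⟨_, hZ x⟩)
    (hd : Module.finrank Ω (S (H + pt x₀)) = n + 2) (hn : Nv (S (H + pt x₀)))
    (ha : Mp (crd c) (crd p) a) (sne : ∀ t, s t ≠ 0) :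
    ∃ (U U1 : LS Ω T) (V V1 : LS Ω (G × T)) (mu : T × T → Ω),
      Reg (Bcv.oB c hc) U ∧ Reg (Bcv.oB c hc) U1 ∧
      Reg (prodB (Bcv.oB p hp) (Bcv.oB c hc)) V ∧ Reg (prodB (Bcv.oB p hp) (Bcv.oB c hc)) V1 ∧
      Eqv (prodB (Bcv.oB c hc) (Bcv.oB c hc)) mu
        (LS.co s sne ^ 1 * U.pb Prod.fst * V.pb (Prod.map a id))
        (U1.pb Prod.fst * V1.pb (Prod.map a id)) := by
  have fP : FiniteDimensional Ω (crd J.XG) := e ▸ (LS.co p hp).fd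
  have fd : FiniteDimensional Ω (S (H + pt x₀)) := Module.finite_of_finrank_eq_succ hd
  obtain ⟨mu, hmu⟩ := loc J D x₀ x₀ x₀ hZ ea hd hn (e ▸ ha)
  let P : LS Ω (G × T) := ⟨PP J x₀, fd_PP J x₀, nv_PP J x₀⟩
  let W : LS Ω T := ⟨S (H + pt x₀), fd, hn⟩
  have nP : Nv (crd p) := crd_nv hp
  have mP : Mp (box (crd p) (crd c)) P.sp fun t => t := e ▸ mp_PP J D x₀
  have mU1 : Mp (crd c) ((LS.co s sne).pb fun x => (x, x₀)).sp fun t => t :=
    Mp.map_id (D.sc.reg.comp ((Mp.id _).prod (Mp.const _ _ x₀)))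
  have mV : Mp (box (crd p) (crd c)) ((P.pb fun t : G × T => (t.1, x₀)) * W.pb Prod.snd).sp
      fun t => t := (Mp.map_id (mP.comp ((Mp.fst _ hL.nv).prod (Mp.const _ _ x₀)))).mul
    (Mp.map_id ((D.mp hn).comp (Mp.snd nP _)))
  have mV1 : Mp (box (crd p) (crd c)) (P * (LS.co c hc).pb Prod.snd).sp fun t => t :=
    mP.mul (Mp.map_id (Mp.snd nP _))
  have hj : Mp (box (crd c) (crd c)) (box (crd p) (crd c)) (Prod.map a id) :=
    (ha.comp (Mp.fst _ hL.nv)).prod (Mp.snd hL.nv _)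
  refine ⟨1, (LS.co s sne).pb fun x => (x, x₀), (P.pb fun t => (t.1, x₀)) * W.pb Prod.snd,
    P * (LS.co c hc).pb Prod.snd, mu, Reg.one _, reg_of_mp (by rwa [prod_one]),
    reg_of_mp (by rwa [prod_box]), reg_of_mp (by rwa [prod_box]), ?_⟩
  rw [pow_one, LS.pb_one', mul_one]
  refine eqv_of_ut (by rw [prod_box]; exact hL.box hL) ?_ ?_ fun t => ?_
  · rw [prod_box]
    exact D.sc.reg.mul (Mp.map_id (mV.comp hj))
  · rw [prod_box]
    exact (Mp.map_id (mU1.comp (Mp.fst _ hL.nv))).mul (Mp.map_id (mV1.comp hj))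
  · obtain ⟨k, k', b, f, hf, l, hl, h0, h1⟩ := hmu t
    have mb : (fun t : G × T => J.AG t.1 t.2 x₀ b) ∈ P.sp :=
      Submodule.subset_span (mem_range_self b)
    rw [prod_box]
    exact ⟨_, Submodule.mul_mem_mul (Submodule.subset_span (mem_range_self k))
        ⟨_, Submodule.mul_mem_mul ⟨_, mb, rfl⟩ ⟨_, hf, rfl⟩, rfl⟩,
      _, Submodule.mul_mem_mul ⟨_, ⟨_, Submodule.subset_span (mem_range_self k'), rfl⟩, rfl⟩
        ⟨_, Submodule.mul_mem_mul mb ⟨_, hl, rfl⟩, rfl⟩, h0, h1⟩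

end Pool.Agent.Tav.Cv.Poi
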