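import Pool.Agent.P.MP_2ce3e7_ag.Tav.CvBdB
import Pool.Agent.P.MP_2ce3e7_ag.Tav.CvPoi
import Pool.Agent.P.MP_2ce3e7_ag.Tav.CvA
import Pool.Agent.P.MP_2ce3e7_ag.Tav.CvXC

/-! The package of a curve. -/

set_option autoImplicit false

noncomputable section

namespace Pool.Agent.Tav.Cv

open Filter Cu Module

variable {Ω : Type} [Field Ω] {T τ : Type} [Fintype τ] {c : T → τ → Ω}

theorem exists_cj [IsAlgClosed Ω] (h : Curve c) : Nonempty (Bcv.CJ c h.ne) := by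
  obtain ⟨s, E, hs⟩ := exists_sd h
  obtain ⟨d, k₀, g, hd, C, -⟩ := hs.exists_cs h
  obtain ⟨m, n, -, -, h1, h2, J⟩ := C.exists_jac hd
  obtain ⟨x₀⟩ := C.sys.ne
  have : Nonempty T := ⟨x₀⟩
  obtain ⟨r, t, e⟩ := J.fin
  have hp := ne_of_nv (e ▸ J.nv_XG)
  have e1 : dg T d (m • hH T + pt x₀) = dg T d (m • hH T) + 1 := by rw [map_add, C.deg_pt]
  have := C.fd (m • hH T + pt x₀)
  have ha : Mp (crd c) (crd J.XG) fun x => C.sys.cl _ (C.df x₀ x) := J.reg fun x₁ => by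
    obtain ⟨φ, a1, a2, a3⟩ := C.ab_frame (by omega) h2 x₀ hs.mp_S x₁
    exact ⟨0, _, φ, Module.Finite.iff_fg.1 J.fd2, a1, a2, a3.mono fun x hx => ⟨_, rfl, hx⟩⟩
  rw [← e] at ha
  have h3 := C.riem_eq (A := m • hH T + pt x₀) (by omega)
  obtain ⟨U, U1, V, V1, mu, b1, b2, b3, b4, b5⟩ := Poi.poi J hs.pd h.ne h.vr hp e x₀
    (fun x => (C.df x₀ x).2) (fun _ => rfl) (by omega) (C.nv (by omega)) ha hs.sne
  exact ⟨{
    J := C.sys.Pic _, σ := Fin r, g := _, h := fun x i => J.XG x (t i)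
    av := av_of_gen h.vr hp (e ▸ J.sb) ha (C.gen_pic x₀ (Int.self_le_toNat g))
    inj := fun _ _ => J.inj' e
    a := fun x => C.sys.cl _ (C.df x₀ x), mor := mor_iff.2 ha
    s := s, sne := hs.sne, sreg := Poi.reg_of_mp (by rw [Poi.prod_box]; exact hs.reg)
    mnr := fun z => ⟨E z.1 z.2, hs.mnr z.1 z.2⟩
    N := 1, N0 := one_ne_zero, U := U, U1 := U1, V := V, V1 := V1
    rU := b1, rU1 := b2, rV := b3, rV1 := b4, mu := mu, rel := b5 }⟩

end Pool.Agent.Tav.Cv
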