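import Pool.Agent.P.MP_2ce3e7_ag.Tav.CvMk
import Pool.Agent.P.MP_2ce3e7_ag.Tav.CvAV

/-! The function field of a projective curve. -/

set_option autoImplicit false

noncomputable section

namespace Pool.Agent.Tav.Cv.Ff

open Module IntermediateField Set

variable {K F : Type} [Field K] [Field F] [Algebra K F]

theorem li_pow {x : F} (hx : Transcendental K x) (m : ℕ) :
    LinearIndependent K fun j : Fin m => x ^ (j : ℕ) := by
  refine Fintype.linearIndependent_iff.2 fun c hc j => ?_
  have := transcendental_iff.1 hx (∑ i, Polynomial.monomial (Fin.val i) (c i)) (by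
    rw [← hc, map_sum]
    exact Finset.sum_congr rfl fun i _ => by rw [Polynomial.aeval_monomial, Algebra.smul_def])
  simpa [Polynomial.coeff_monomial, Fin.val_inj] using congrArg (Polynomial.coeff · j) this

theorem span_pow {τ R : Type} [CommRing R] [Algebra K R] (y : τ → R) (k : ℕ) :
    Submodule.span K (range y) ^ k = LinearMap.range
      ((MvPolynomial.aeval y).toLinearMap ∘ₗ (MvPolynomial.homogeneousSubmodule τ K k).subtype) := by
  rw [LinearMap.range_comp, Submodule.range_subtype, ← MvPolynomial.homogeneousSubmodule_one_pow,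
    Submodule.map_pow, MvPolynomial.homogeneousSubmodule_one_eq_span_X, Submodule.map_span,
    ← range_comp]
  simp [Function.comp_def]

theorem rk_pow {T τ : Type} (c : T → τ → K) (y : τ → F)
    (h : ∀ n (p : MvPolynomial τ K), p.IsHomogeneous n → (MvPolynomial.aeval y p = 0 ↔ p ∈ idl c))
    (k : ℕ) : finrank K (Submodule.span K (range y) ^ k :) = finrank K (crd c ^ k :) := by
  rw [crd, span_pow, span_pow]
  refine ((LinearMap.quotKerEquivRange _).symm ≪≫ₗ Submodule.quotEquivOfEq _ _ ?_ ≪≫ₗ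
    LinearMap.quotKerEquivRange _).finrank_eq
  ext p
  simp only [LinearMap.mem_ker, LinearMap.comp_apply, Submodule.subtype_apply,
    AlgHom.toLinearMap_apply]
  rw [h k p.1 p.2, mem_idl p.2, funext_iff]
  refine forall_congr' fun t => ?_
  rw [← MvPolynomial.aeval_eq_eval]
  have := MvPolynomial.comp_aeval_apply (fun l t => c t l) (Pi.evalAlgHom K (fun _ : T => K) t) p.1
  exact this ▸ Iff.rfl

theorem ov_of [IsAlgClosed K] {τ : Type} [Fintype τ] (y : τ → F) (a : τ) (ha : y a = 1)
    (htop : adjoin K (range y) = ⊤) {d k₀ : ℕ} {g : ℤ} (hd : d ≠ 0)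
    (h : ∀ k, k₀ ≤ k → (finrank K (Submodule.span K (range y) ^ k :) : ℤ) = k * d + 1 - g) :
    OV K F := by
  set W := Submodule.span K (range y) with hW
  have hy : ∀ b, y b ∈ W := fun b => Submodule.subset_span ⟨b, rfl⟩
  have hfin : ∀ k, FiniteDimensional K (W ^ k :) := fun k =>
    Module.Finite.iff_fg.2 ((Submodule.fg_span (finite_range y)).pow k)
  obtain ⟨b₀, h₀⟩ : ∃ b, Transcendental K (y b) := by
    by_contra hc
    have h1 : W ≤ 1 := Submodule.span_le.2 (by
      rintro _ ⟨b, rfl⟩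
      by_contra hb
      exact hc ⟨b, trans_of fun c e => hb (Submodule.mem_one.2 ⟨c, e.symm⟩)⟩)
    have h2 := h (k₀ + g.natAbs + 1) (by omega)
    have h3 : W ^ (k₀ + g.natAbs + 1) ≤ Submodule.span K {1} := by
      rw [← Submodule.one_eq_span]
      exact (pow_le_pow_left' h1 _).trans (one_pow _).le
    have h4 := Submodule.finrank_mono h3
    rw [finrank_span_singleton one_ne_zero] at h4
    have h5 : (1 : ℤ) ≤ d := by omega
    have h6 : g ≤ g.natAbs := Int.le_natAbs
    push_cast at h2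
    rw [Int.natCast_natAbs] at h6
    have h7 : (finrank K (W ^ (k₀ + g.natAbs + 1) :) : ℤ) ≤ 1 := by exact_mod_cast h4
    nlinarith [abs_nonneg g]
  have halg : ∀ b, IsAlgebraic K⟮y b₀⟯ (y b) := fun b => by
    by_contra hb
    obtain ⟨m, hm⟩ : ∃ m : ℕ, m = k₀ + 2 * d + g.natAbs + 2 := ⟨_, rfl⟩
    have h1 : LinearIndependent K fun j : Fin m => (AdjoinSimple.gen K (y b₀)) ^ (j : ℕ) :=
      LinearIndependent.of_comp (K⟮y b₀⟯.val.toLinearMap) (li_pow h₀ m)
    have h2 := linearIndependent_smul h1 (li_pow hb m)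
    have h3 : ∀ p : Fin m × Fin m, (AdjoinSimple.gen K (y b₀)) ^ (p.1 : ℕ) • y b ^ (p.2 : ℕ) ∈
        W ^ (2 * m) := fun p => by
      have := Submodule.mul_mem_mul (Submodule.mul_mem_mul (Submodule.pow_mem_pow W (hy b₀) p.1)
        (Submodule.pow_mem_pow W (hy b) p.2))
        (Submodule.pow_mem_pow W (hy a) (2 * m - (p.1 + p.2)))
      rwa [← pow_add, ← pow_add, Nat.add_sub_cancel' (by omega), ha, one_pow, mul_one] at this
    have h4 := (LinearIndependent.of_comp (W ^ (2 * m)).subtype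
      (v := fun p => (⟨_, h3 p⟩ : (W ^ (2 * m) :))) h2).fintype_card_le_finrank
    have h5 := h (2 * m) (by omega)
    simp only [Fintype.card_prod, Fintype.card_fin] at h4
    have h6 : ((m * m : ℕ) : ℤ) ≤ _ := Int.ofNat_le.2 h4
    rw [h5] at h6
    have h7 : -g ≤ g.natAbs := by omega
    have h8 : (2 * d + g.natAbs + 2 : ℤ) ≤ m := by omega
    push_cast at h6
    nlinarith [Int.natCast_nonneg g.natAbs, Int.natCast_nonneg d]
  have key : ∀ x : F, (∀ b, IsAlgebraic K⟮x⟯ (y b)) → FiniteDimensional K⟮x⟯ F := fun x hx => by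
    have := finiteDimensional_adjoin (K := K⟮x⟯) (S := range y) (by
      rintro _ ⟨b, rfl⟩; exact (hx b).isIntegral)
    rw [adjoin_eq_top_of_adjoin_eq_top K htop] at this
    exact topEquiv.toLinearEquiv.finiteDimensional
  refine ⟨fun x hx => key x fun b => ?_, _, h₀⟩
  have := key _ halg
  have h1 : IsAlgebraic (Algebra.adjoin K {x}) (y b₀) := by
    simpa using IsAlgebraic.adjoin_singleton (A := F) h₀ hx
      (by simpa using isAlgebraic_adjoin_iff.1 (IsAlgebraic.of_finite K⟮y b₀⟯ x))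
  refine isAlgebraic_adjoin_iff.2 (IsAlgebraic.adjoin_of_forall_isAlgebraic (s := {y b₀}) ?_
    (isAlgebraic_adjoin_iff.1 (halg b)))
  rintro _ ⟨rfl, -⟩
  exact h1

theorem exists_field {T τ : Type} (c : T → τ → K) (h0 : ∀ t, c t ≠ 0) (hp : (idl c).IsPrime) :
    ∃ (F : Type) (_ : Field F) (_ : Algebra K F) (y : τ → F) (a : τ), y a = 1 ∧
      adjoin K (range y) = ⊤ ∧ ∀ n (p : MvPolynomial τ K), p.IsHomogeneous n →
        (MvPolynomial.aeval y p = 0 ↔ p ∈ idl c) := by
  let R := MvPolynomial τ K ⧸ idl c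
  let x : τ → FractionRing R := fun b =>
    algebraMap R _ (Ideal.Quotient.mk (idl c) (MvPolynomial.X b))
  have hx : ∀ p : MvPolynomial τ K, MvPolynomial.aeval x p = 0 ↔ p ∈ idl c := fun p => by
    have : MvPolynomial.aeval x =
        (IsScalarTower.toAlgHom K R (FractionRing R)).comp (Ideal.Quotient.mkₐ K (idl c)) :=
      MvPolynomial.algHom_ext fun b => by rw [MvPolynomial.aeval_X]; rfl
    rw [this, ← Ideal.Quotient.eq_zero_iff_mem]
    exact map_eq_zero_iff _ (IsFractionRing.injective R (FractionRing R))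
  obtain ⟨t⟩ : Nonempty T := by
    by_contra hT
    refine hp.ne_top ((Ideal.eq_top_iff_one _).2 ((mem_idl (MvPolynomial.isHomogeneous_one τ K)).2
      fun t => absurd ⟨t⟩ hT))
  obtain ⟨a, ha⟩ := Function.ne_iff.1 (h0 t)
  have hxa : x a ≠ 0 := fun e => ha (by
    simpa using (mem_idl (MvPolynomial.isHomogeneous_X K a)).1 ((hx _).1 (by simpa using e)) t)
  let F := adjoin K (range fun b => (x a)⁻¹ * x b)
  let y : τ → F := fun b => ⟨(x a)⁻¹ * x b, subset_adjoin _ _ ⟨b, rfl⟩⟩
  refine ⟨F, inferInstance, inferInstance, y, a, Subtype.ext (inv_mul_cancel₀ hxa), ?_,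
    fun n p h => ?_⟩
  · apply lift_injective F
    rw [lift_adjoin, lift_top, ← range_comp]
    rfl
  · rw [← hx, ← map_eq_zero_iff F.val Subtype.val_injective, MvPolynomial.comp_aeval_apply]
    exact (aeval_hom h (x a)⁻¹ x ▸ mul_eq_zero).trans
      (or_iff_right (pow_ne_zero _ (inv_ne_zero hxa)))

theorem exists_div [IsAlgClosed K] [OV K F] {τ : Type} [Fintype τ] (y : τ → F) (a : τ)
    (ha : y a ≠ 0) : ∃ (D : Pl K F →₀ ℤ) (h : ∀ b, y b ∈ LL D), ∀ P, ∃ b, ev D ⟨y b, h b⟩ P ≠ 0 := by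
  classical
  have hne : (Finset.univ.filter fun b => y b ≠ 0).Nonempty := ⟨a, by simpa using ha⟩
  have e : ∀ P, ((Finset.univ.filter fun b => y b ≠ 0).sup' hne fun b => -dv K (y b)) P =
      (Finset.univ.filter fun b => y b ≠ 0).sup' hne fun b => -P.ord (y b) := fun P =>
    Finset.apply_sup'_eq_sup'_comp hne (fun D : Pl K F →₀ ℤ => D P) fun _ _ => Finsupp.sup_apply _ _ _
  have h : ∀ b, y b ∈ LL ((Finset.univ.filter fun b => y b ≠ 0).sup' hne fun b => -dv K (y b)) :=
    fun b => mem_LL.2 fun P => by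
      by_cases hb : y b = 0
      · simp [hb]
      rw [P.mem_Ge hb, e, neg_le]
      exact Finset.le_sup' (fun b => -P.ord (y b)) (by simpa using hb)
  refine ⟨_, h, fun P => ?_⟩
  obtain ⟨b, h1, h2⟩ := Finset.exists_mem_eq_sup' hne fun b => -P.ord (y b)
  exact ⟨b, (ev_ne_iff (by simpa using h1) P).2 (by rw [e, h2, neg_neg])⟩

theorem idl_ext {T U τ : Type} [Infinite K] {c : T → τ → K} {f : U → τ → K}
    (h : ∀ n (p : MvPolynomial τ K), p.IsHomogeneous n → p ∈ idl c → p ∈ idl f) :
    idl c ≤ idl f := fun p hp => by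
  rw [← p.sum_homogeneousComponent]
  refine sum_mem fun n hn => h n _ (MvPolynomial.homogeneousComponent_isHomogeneous n p)
    ((mem_idl (MvPolynomial.homogeneousComponent_isHomogeneous n p)).2 fun t => ?_)
  have h1 : ∑ m ∈ Finset.range (p.totalDegree + 1), Polynomial.monomial m
      (MvPolynomial.eval (c t) (MvPolynomial.homogeneousComponent m p)) = 0 := by
    refine Polynomial.funext fun l => ?_
    rw [Polynomial.eval_zero, ← MvPolynomial.mem_vanishingIdeal_iff.1 hp _ ⟨l, t, rfl⟩,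
      Polynomial.eval_finsetSum]
    conv_rhs => rw [← p.sum_homogeneousComponent, map_sum]
    refine Finset.sum_congr rfl fun m _ => ?_
    rw [Polynomial.eval_monomial, mul_comm, ← MvPolynomial.aeval_eq_eval]
    exact (aeval_hom (MvPolynomial.homogeneousComponent_isHomogeneous m p) l (c t)).symm
  simpa [Polynomial.coeff_monomial, hn] using congrArg (Polynomial.coeff · n) h1

end Ff

/-- every irreducible curve is the image of a curve with Riemann data -/
theorem s_rr (K : Type) [Field K] [IsAlgClosed K] : S_RR K := by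
  intro T τ _ c h0 hp hd
  obtain ⟨F, _, _, y, a, ha, htop, h⟩ := Ff.exists_field c h0 hp
  obtain ⟨d, g, k₀, h1, h2⟩ := Cu.hilb_crv (Submodule.fg_span (Set.finite_range _)) hd
  have := Ff.ov_of y a ha htop h1 fun k hk => by rw [Ff.rk_pow c y h]; exact h2 k hk
  obtain ⟨D, h3, h4⟩ := Ff.exists_div (K := K) y a (by rw [ha]; exact one_ne_zero)
  have e : ∀ n (p : MvPolynomial τ K), p.IsHomogeneous n →
      (p ∈ idl (fun P b => Ff.ev D ⟨y b, h3 b⟩ P) ↔ p ∈ idl c) := fun n p hn => by
    rw [Ff.mem_idl hn, ← Ff.form_iff (fun b => ⟨y b, h3 b⟩) hn, h n p hn]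
  exact ⟨_, Ff.rr K F, D, fun P b => Ff.ev D ⟨y b, h3 b⟩ P, fun b => ⟨_, rfl⟩,
    fun P => Function.ne_iff.2 (h4 P), le_antisymm (Ff.idl_ext fun n p hn => (e n p hn).1)
      (Ff.idl_ext fun n p hn => (e n p hn).2)⟩

end Pool.Agent.Tav.Cv
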