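import Pool.Agent.P.MP_2ce3e7_ag.Tav.CvStmt

/-! Smooth plane curves, in particular Fermat curves, are curves. -/

set_option autoImplicit false

noncomputable section

namespace Pool.Agent.Tav.Pl

open MvPolynomial Module

variable {K : Type} [Field K]

theorem rank_hom (n : ℕ) : finrank K (homogeneousSubmodule (Fin 3) K n) = (n + 2).choose 2 := by
  have h : homogeneousSubmodule (Fin 3) K n =
      restrictSupport K (Finset.univ.finsuppAntidiag n : Finset (Fin 3 →₀ ℕ)) := by
    rw [homogeneousSubmodule_eq_finsupp_supported]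
    refine congrArg (restrictSupport K) (Set.ext fun d => ?_)
    simp [Finsupp.degree_eq_sum]
  rw [h, finrank_eq_nat_card_basis (basisRestrictSupport K _), Nat.card_coe_set_eq,
    Set.ncard_coe_finset, Finset.card_finsuppAntidiag_nat_eq_choose, Finset.card_univ,
    Fintype.card_fin, show 3 + n - 1 = n + 2 by omega, Nat.choose_symm_add]

theorem eval_smul {σ : Type} {F : MvPolynomial σ K} {e : ℕ} (hF : F.IsHomogeneous e) (a : K)
    (x : σ → K) : eval (a • x) F = a ^ e * eval x F := by
  rw [eval_eq, eval_eq, Finset.mul_sum]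
  refine Finset.sum_congr rfl fun s hs => ?_
  simp only [Pi.smul_apply, smul_eq_mul, mul_pow, Finset.prod_mul_distrib,
    Finset.prod_pow_eq_pow_sum, ← hF.degree_eq_sum_deg_support hs]
  ring

theorem comp_mul {σ : Type} {F : MvPolynomial σ K} {e : ℕ} (hF : F.IsHomogeneous e)
    (Q : MvPolynomial σ K) (n : ℕ) :
    homogeneousComponent (e + n) (F * Q) = F * homogeneousComponent n Q := by
  conv_lhs => rw [← sum_homogeneousComponent Q, Finset.mul_sum, map_sum]
  rw [Finset.sum_congr rfl fun i _ =>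
    homogeneousComponent_of_mem (hF.mul (homogeneousComponent_isHomogeneous i Q))]
  simp only [add_right_inj, Finset.sum_ite_eq, Finset.mem_range]
  split_ifs with h
  · rfl
  · rw [homogeneousComponent_eq_zero _ _ (by omega), mul_zero]

theorem crd_pow {T σ : Type} (c : T → σ → K) (n : ℕ) : crd c ^ n =
    (homogeneousSubmodule σ K n).map
      (aeval fun l t => c t l : MvPolynomial σ K →ₐ[K] T → K).toLinearMap := by
  rw [← homogeneousSubmodule_one_pow, Submodule.map_pow, homogeneousSubmodule_one_eq_span_X,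
    Submodule.map_span, ← Set.range_comp, crd]
  simp [Function.comp_def]

theorem aeval_pt {T σ : Type} (c : T → σ → K) (F : MvPolynomial σ K) (t : T) :
    (aeval fun l t => c t l : MvPolynomial σ K →ₐ[K] T → K) F t = eval (c t) F := by
  induction F using MvPolynomial.induction_on with
  | C a => simp
  | add f g hf hg => simp [hf, hg]
  | mul_X f l hf => simp [hf]

theorem mem_idl {T σ : Type} {c : T → σ → K} {f : MvPolynomial σ K} :
    f ∈ idl c ↔ ∀ (a : K) t, eval (a • c t) f = 0 :=
  ⟨fun h a t => h _ ⟨a, t, rfl⟩, fun h _ ⟨a, t, e⟩ => e ▸ h a t⟩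

variable {F : MvPolynomial (Fin 3) K} {e : ℕ}

theorem hilb {T : Type} {c : T → Fin 3 → K} (hF : F.IsHomogeneous e) (h0 : F ≠ 0)
    (hc : idl c = Ideal.span {F}) (n : ℕ) :
    finrank K (crd c ^ (e + n) :) + (n + 2).choose 2 = (e + n + 2).choose 2 := by
  let ev := (aeval fun l t => c t l : MvPolynomial (Fin 3) K →ₐ[K] T → K).toLinearMap
  have fd : ∀ m, FiniteDimensional K (homogeneousSubmodule (Fin 3) K m) := fun m =>
    (Submodule.fg_iff_finiteDimensional _).1 (homogeneousSubmodule_fg _ _ m)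
  have h1 := (ev.domRestrict (homogeneousSubmodule (Fin 3) K (e + n))).finrank_range_add_finrank_ker
  have h2 : (LinearMap.ker (ev.domRestrict (homogeneousSubmodule (Fin 3) K (e + n)))).map
      (Submodule.subtype _) = (homogeneousSubmodule (Fin 3) K n).map (LinearMap.mulLeft K F) := by
    apply le_antisymm
    · rintro _ ⟨⟨G, hG⟩, h, rfl⟩
      have h3 : G ∈ idl c := mem_idl.2 fun a t => by
        rw [eval_smul hG, ← aeval_pt]
        exact mul_eq_zero_of_right _ (congrFun h t)
      obtain ⟨Q, rfl⟩ := Ideal.mem_span_singleton.1 (hc ▸ h3)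
      exact ⟨_, homogeneousComponent_isHomogeneous n Q,
        (comp_mul hF Q n).symm.trans (homogeneousComponent_eq_self hG)⟩
    · rintro _ ⟨Q, hQ, rfl⟩
      refine ⟨⟨F * Q, hF.mul hQ⟩, funext fun t => (aeval_pt c _ t).trans ?_, rfl⟩
      have := mem_idl.1 (hc.ge (Ideal.mem_span_singleton.2 (dvd_mul_right F Q))) 1 t
      rwa [one_smul] at this
  have h3 := congrArg (fun U : Submodule K (MvPolynomial (Fin 3) K) => finrank K U) h2
  simp only [Submodule.finrank_map_subtype_eq] at h3
  rw [← (Submodule.equivMapOfInjective (LinearMap.mulLeft K F) (mul_right_injective₀ h0)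
    _).finrank_eq, rank_hom] at h3
  rw [h3, rank_hom, LinearMap.range_domRestrict] at h1
  rw [crd_pow]
  exact h1

theorem hp_of {T : Type} (L : Submodule K (T → K)) (P : MvPolynomial (Fin 1) ℚ) (N : ℕ)
    (h : ∀ n, N ≤ n → (finrank K (L ^ n :) : ℚ) = eval (fun _ => (n : ℚ)) P) : hp ![L] = P := by
  have h4 : ∀ᶠ d : Fin 1 → ℕ in Filter.atTop, eval (fun i => (d i : ℚ)) P =
      finrank K (∏ i, ![L] i ^ d i : Submodule K (T → K)) := by
    filter_upwards [Filter.eventually_ge_atTop fun _ => N] with d hd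
    rw [Fin.prod_univ_one, Matrix.cons_val_zero, h _ (hd 0)]
    exact congrArg (eval · P) (funext fun i => by rw [Subsingleton.elim i 0])
  have h5 := Classical.epsilon_spec (p := fun P : MvPolynomial (Fin 1) ℚ =>
    ∀ᶠ d : Fin 1 → ℕ in Filter.atTop, eval (fun i => (d i : ℚ)) P =
      finrank K (∏ i, ![L] i ^ d i : Submodule K (T → K))) ⟨P, h4⟩
  obtain ⟨M, hM⟩ := Filter.eventually_atTop.1 (h5.and h4)
  refine MvPolynomial.funext_set (fun i => Nat.cast '' Set.Ici (M i))
    (fun i => (Set.Ici_infinite _).image Nat.cast_injective.injOn) fun x hx => ?_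
  choose d hd e using fun i => hx i (Set.mem_univ i)
  obtain rfl : x = fun i => (d i : ℚ) := funext fun i => (e i).symm
  exact (hM d hd).1.trans (hM d hd).2.symm

theorem dim_one {T : Type} {c : T → Fin 3 → K} (hF : F.IsHomogeneous e) (h0 : F ≠ 0) (he : e ≠ 0)
    (hc : idl c = Ideal.span {F}) : (hp ![crd c]).totalDegree = 1 := by
  have he' : (e : ℚ) ≠ 0 := Nat.cast_ne_zero.2 he
  have h1 : (C (e : ℚ) * X 0 : MvPolynomial (Fin 1) ℚ).totalDegree = 1 :=
    (isHomogeneous_C_mul_X _ _).totalDegree (mul_ne_zero (by simpa using he) (X_ne_zero _))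
  rw [hp_of _ (C (e : ℚ) * X 0 + C ((e : ℚ) * (3 - e) / 2)) e fun n hn => ?_,
    totalDegree_add_eq_left_of_totalDegree_lt (by rw [h1, totalDegree_C]; exact one_pos), h1]
  obtain ⟨n, rfl⟩ := Nat.exists_eq_add_of_le hn
  have := congrArg (Nat.cast : ℕ → ℚ) (hilb hF h0 hc n)
  rw [Nat.cast_add, Nat.cast_choose_two, Nat.cast_choose_two] at this
  simp only [map_add, map_mul, eval_C, eval_X]
  push_cast at this ⊢
  linear_combination this

/-- the points of the plane curve `F = 0` -/
def Pt (F : MvPolynomial (Fin 3) K) : Type :=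
  {x : Projectivization K (Fin 3 → K) // eval x.rep F = 0}

/-- their coordinates -/
def co (F : MvPolynomial (Fin 3) K) (t : Pt F) : Fin 3 → K := t.1.rep

theorem exists_pt (hF : F.IsHomogeneous e) {z : Fin 3 → K} (h0 : z ≠ 0) (hz : eval z F = 0) :
    ∃ t, Par z (co F t) := by
  obtain ⟨a, ha⟩ := Projectivization.exists_smul_eq_mk_rep K z h0
  refine ⟨⟨Projectivization.mk K z h0, ?_⟩, (a⁻¹ : Kˣ), (a⁻¹).isUnit, ?_⟩
  · rw [← ha, Units.smul_def, eval_smul hF, hz, mul_zero]
  · change z = _ • (Projectivization.mk K z h0).rep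
    rw [← ha, Units.smul_def, smul_smul, Units.inv_mul, one_smul]

theorem idl_co [IsAlgClosed K] (hF : F.IsHomogeneous e) (hp : Prime F)
    (hne : ∃ z, z ≠ 0 ∧ eval z F = 0) : idl (co F) = Ideal.span {F} := by
  have hz : {z | ∃ (a : K) (t : Pt F), z = a • co F t} = zeroLocus K (Ideal.span {F}) := by
    ext z
    rw [zeroLocus_span]
    constructor
    · rintro ⟨a, t, rfl⟩ _ rfl
      exact (eval_smul hF a _).trans (mul_eq_zero_of_right _ t.2)
    · intro h
      by_cases h0 : z = 0
      · obtain ⟨w, h1, h2⟩ := hne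
        obtain ⟨t, -⟩ := exists_pt hF h1 h2
        exact ⟨0, t, by simp [h0]⟩
      · obtain ⟨t, a, -, e⟩ := exists_pt hF h0 (h F rfl)
        exact ⟨a, t, e⟩
  rw [idl, hz, vanishingIdeal_zeroLocus_eq_radical,
    ((Ideal.span_singleton_prime hp.ne_zero).2 hp).radical]

/-- a smooth irreducible plane curve is a curve -/
theorem curve_co [IsAlgClosed K] (hF : F.IsHomogeneous e) (hp : Prime F)
    (hne : ∃ z, z ≠ 0 ∧ eval z F = 0)
    (hs : ∀ z, z ≠ 0 → eval z F = 0 → ∃ l, eval z (pderiv l F) ≠ 0) : Curve (co F) where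
  ne t := t.1.rep_nonzero
  inj t t' h := by
    obtain ⟨a, ha, h⟩ := h
    refine Subtype.ext ?_
    rw [← t.1.mk_rep, ← t'.1.mk_rep, Projectivization.mk_eq_mk_iff']
    exact ⟨a, h.symm⟩
  cl z hz h0 := exists_pt hF h0 (hz F ((idl_co hF hp hne).ge (Ideal.mem_span_singleton_self F)))
  irr := idl_co hF hp hne ▸ (Ideal.span_singleton_prime hp.ne_zero).2 hp
  dim := dim_one hF hp.ne_zero (by
    rintro rfl
    obtain ⟨z, h1, h2⟩ := hne
    obtain ⟨l, hl⟩ := hs z h1 h2
    rw [totalDegree_eq_zero_iff_eq_C.1 ((totalDegree_zero_iff_isHomogeneous _).2 hF)] at hl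
    simp at hl) (idl_co hF hp hne)
  sm t := by
    obtain ⟨l, hl⟩ := hs _ t.1.rep_nonzero t.2
    refine (Submodule.finrank_mono (iInf₂_le F ((idl_co hF hp hne).ge
      (Ideal.mem_span_singleton_self F)))).trans (Nat.lt_succ_iff.1 ?_)
    refine (Submodule.finrank_lt fun h => hl ?_).trans_eq (by simp)
    have : (Pi.single l 1 : Fin 3 → K) ∈ LinearMap.ker (∑ l, eval (co F t) (pderiv l F) •
      LinearMap.proj (R := K) (φ := fun _ => K) l) := h ▸ Submodule.mem_top
    simpa [Pi.single_apply, co] using this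

/-- the Fermat equation -/
def fer (K : Type) [Field K] (m : ℕ) : MvPolynomial (Fin 3) K := X 0 ^ m + X 1 ^ m - X 2 ^ m

variable {m : ℕ}

theorem fer_hom : (fer K m).IsHomogeneous m :=
  ((isHomogeneous_X_pow 0 m).add (isHomogeneous_X_pow 1 m)).sub (isHomogeneous_X_pow 2 m)

theorem eval_fer (z : Fin 3 → K) : eval z (fer K m) = z 0 ^ m + z 1 ^ m - z 2 ^ m := by
  simp [fer]

theorem fer_prime (hm : (m : K) ≠ 0) : Prime (fer K m) := by
  have h0 : m ≠ 0 := by rintro rfl; simp at hm
  let a : MvPolynomial (Fin 2) K := X 0 ^ m - X 1 ^ m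
  let P := RingHom.ker (eval (fun _ : Fin 2 => (1 : K)))
  have hmon := Polynomial.monic_X_pow_add_C a h0
  have h1 : Irreducible (Polynomial.X ^ m + Polynomial.C a) := by
    refine Polynomial.irreducible_of_eisenstein_criterion (P := P) (RingHom.ker_isPrime _) ?_
      (fun n hn => ?_) ?_ (fun h => hm ?_) hmon.isPrimitive
    · rw [hmon.leadingCoeff, RingHom.mem_ker]
      simp
    · rw [Polynomial.degree_X_pow_add_C (Nat.pos_of_ne_zero h0), Nat.cast_lt] at hn
      rw [Polynomial.coeff_add, Polynomial.coeff_X_pow, if_neg hn.ne, zero_add, Polynomial.coeff_C]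
      split_ifs
      · simp [P, a]
      · exact P.zero_mem
    · rw [Polynomial.degree_X_pow_add_C (Nat.pos_of_ne_zero h0)]
      exact_mod_cast Nat.pos_of_ne_zero h0
    · have h2 : ∀ f ∈ P * P, eval (fun _ : Fin 2 => (1 : K)) (pderiv 0 f) = 0 := fun f hf =>
        Submodule.mul_induction_on hf (fun x hx y hy => by
          simp [RingHom.mem_ker.1 hx, RingHom.mem_ker.1 hy]) fun x y hx hy => by simp [hx, hy]
      have := h2 _ (pow_two P ▸ h)
      rw [Polynomial.coeff_add, Polynomial.coeff_X_pow, if_neg h0.symm, zero_add,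
        Polynomial.coeff_C_zero] at this
      simpa [a] using this
  have h2 : finSuccEquiv K 2 (fer K m) = Polynomial.X ^ m + Polynomial.C a := by
    have e1 : finSuccEquiv K 2 (X 1) = Polynomial.C (X 0) := finSuccEquiv_X_succ (j := 0)
    have e2 : finSuccEquiv K 2 (X 2) = Polynomial.C (X 1) := finSuccEquiv_X_succ (j := 1)
    simp only [fer, a, map_sub, map_add, map_pow, finSuccEquiv_X_zero, e1, e2]
    ring
  exact ((MulEquiv.irreducible_iff (finSuccEquiv K 2)).1 (h2 ▸ h1)).prime

/-- the Fermat curve is a curve -/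
theorem curve_fer [IsAlgClosed K] (hm : (m : K) ≠ 0) : Curve (co (fer K m)) := by
  have h0 : m ≠ 0 := by rintro rfl; simp at hm
  refine curve_co fer_hom (fer_prime hm) ⟨![1, 0, 1], fun e => by simpa using congrFun e 0, by
    simp [eval_fer, h0]⟩ fun z hz _ => ?_
  obtain ⟨l, hl⟩ := Function.ne_iff.1 hz
  have hl : z l ≠ 0 := hl
  refine ⟨l, ?_⟩
  fin_cases l <;> simpa [fer, hm] using fun h => absurd h hl

/-- the cone over a curve is in the class -/
theorem cov_curve {T σ : Type} [Fintype σ] {c : T → σ → K} (h : Curve c) : Cov (idl c) := by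
  refine ⟨1, fun _ => T, fun _ => σ, fun _ => inferInstance, fun _ => c, fun t => c (t 0),
    fun _ => h, fun t => h.ne _, fun t => ⟨fun _ => 1, 1, isUnit_one, fun w hw => by simpa using hw⟩,
    Ideal.ext fun f => ?_⟩
  rw [mem_idl, mem_idl]
  exact ⟨fun H a t => H a fun _ => t, fun H a t => H a _⟩

end Pool.Agent.Tav.Pl
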