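import Pool.Agent.P.MP_2ce3e7_ag.Tav.CvDer
import Pool.Agent.P.MP_2ce3e7_ag.Tav.CvLink
import Pool.Agent.P.MP_2ce3e7_ag.Tav.CvPlane
import Pool.Agent.P.MP_2ce3e7_ag.Tav.CvStm0
import Pool.Agent.P.MP_2ce3e7_ag.Tav.SRg

/-! Normalisation of curves. -/

set_option autoImplicit false

noncomputable section

namespace Pool.Agent.Tav.Cv

open Module Finsupp MvPolynomial

variable {K C : Type} [Field K]

theorem par_crd {T σ : Type} {c : T → σ → K} {t t' : T} {l : K} (h : c t = l • c t')
    {u : T → K} (hu : u ∈ crd c) : u t = l * u t' := by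
  induction hu using Submodule.span_induction with
  | mem x hx => obtain ⟨a, rfl⟩ := hx; exact congrFun h a
  | zero => simp
  | add x y _ _ hx hy => simp [hx, hy, mul_add]
  | smul a x _ hx => simp [hx, mul_left_comm]

theorem exists_form {T σ : Type} (c : T → σ → K) {n : ℕ} {u : T → K} (hu : u ∈ crd c ^ n) :
    ∃ p : MvPolynomial σ K, p.IsHomogeneous n ∧ ∀ t, eval (c t) p = u t := by
  rw [Pl.crd_pow] at hu
  obtain ⟨p, hp, rfl⟩ := hu
  exact ⟨p, hp, fun t => (Pl.aeval_pt c p t).symm⟩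

/-- the differential of `p` at `z` -/
def dif {σ : Type} [Fintype σ] (z : σ → K) (p : MvPolynomial σ K) : (σ → K) →ₗ[K] K :=
  ∑ l, eval z (pderiv l p) • LinearMap.proj (R := K) (φ := fun _ => K) l

theorem dif_mul {σ : Type} [Fintype σ] (z : σ → K) (p q : MvPolynomial σ K) :
    dif z (p * q) = eval z p • dif z q + eval z q • dif z p := by
  simp only [dif, Finset.smul_sum, ← Finset.sum_add_distrib, smul_smul, ← add_smul]
  exact Finset.sum_congr rfl fun l _ => by simp

theorem dif_add {σ : Type} [Fintype σ] (z : σ → K) (p q : MvPolynomial σ K) :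
    dif z (p + q) = dif z p + dif z q := by
  simp [dif, Finset.sum_add_distrib, add_smul]

theorem dif_sub {σ : Type} [Fintype σ] (z : σ → K) (p q : MvPolynomial σ K) :
    dif z (p - q) = dif z p - dif z q := by
  ext1 v
  simp [dif, sub_mul, Finset.sum_sub_distrib]

theorem dif_lin {σ : Type} [Fintype σ] (z a v : σ → K) :
    dif z (∑ l, MvPolynomial.C (a l) * X l) v = ∑ l, a l * v l := by
  classical
  simp [dif, pderiv_X, Pi.single_apply, apply_ite]

namespace RR

variable (R : RR K C)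

theorem sec2 [Infinite K] {σ : Type} [Fintype σ] {H : C →₀ ℤ}
    (h3 : ∀ k : ℕ, R.S ((k + 1) • H) = R.S H ^ (k + 1)) {c : C → σ → K}
    (hc : crd c = R.S H) (P : C) {u : C → K}
    (hu : u ∈ R.S (2 • H - single P 1) * R.S (H - single P 1)) :
    ∃ p : MvPolynomial σ K, p.IsHomogeneous 3 ∧ dif (c P) p = 0 ∧
      ∀ t, eval (c t) p = (E K P * (E K P * u)) t := by
  refine Submodule.mul_induction_on hu (fun a ha b hb => ?_) ?_
  · obtain ⟨a1, a2⟩ := (R.ex _ P _).2 ⟨a, ha, rfl⟩
    obtain ⟨b1, b2⟩ := (R.ex _ P _).2 ⟨b, hb, rfl⟩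
    rw [h3 1, ← hc] at a1
    rw [← hc, ← pow_one (crd c)] at b1
    obtain ⟨p, p1, p2⟩ := exists_form c a1
    obtain ⟨q, q1, q2⟩ := exists_form c b1
    refine ⟨p * q, p1.mul q1, by rw [dif_mul, p2, q2, a2, b2]; simp, fun t => ?_⟩
    rw [map_mul, p2, q2]; simp only [Pi.mul_apply]; ring
  · rintro a b ⟨p, p1, p2, p3⟩ ⟨q, q1, q2, q3⟩
    refine ⟨p + q, p1.add q1, by rw [dif_add, p2, q2, add_zero], fun t => ?_⟩
    rw [map_add, p3, q3]; simp only [Pi.mul_apply, Pi.add_apply]; ring

theorem exists_curve [Infinite K] : ∃ (n : ℕ) (c : C → Fin n → K), Curve c ∧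
    ∀ D : C →₀ ℤ, Rg ![crd c] (R.S D) := by
  obtain ⟨H, h1, h2, h3⟩ := R.exists_gen
  have := R.fin
  have := R.inf
  let b := finBasis K (R.S H)
  let c : C → Fin (finrank K (R.S H)) → K := fun P a => (b a).1 P
  have hc : crd c = R.S H := by
    have := congrArg (Submodule.map (R.S H).subtype) b.span_eq
    rwa [Submodule.map_span, ← Set.range_comp, Submodule.map_top, Submodule.range_subtype] at this
  have hne : ∀ P, c P ≠ 0 := fun P e => by
    obtain ⟨f, hf, h⟩ := R.nv (A := H) (by omega) P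
    exact h ((par_crd (t' := P) (l := 0) (by rw [e, zero_smul]) (hc ▸ hf)).trans (zero_mul _))
  have hpow : ∀ k : ℕ, crd c ^ k ≤ R.S (k • H) := fun k => by
    cases k with
    | zero => rw [pow_zero, zero_smul]; exact Submodule.one_le.2 R.one
    | succ k => rw [h3, hc]
  refine ⟨_, c, ⟨hne, fun P Q ⟨l, hl, e⟩ => ?_, R.cl H c (fun a => (b a).2) hne,
    Cu.idl_prime fun _ _ f hf g hg => R.dom (hpow _ hf) (hpow _ hg), ?_, fun P => ?_⟩,
    fun D P => ?_⟩
  · by_contra hPQ
    obtain ⟨f, hf, h⟩ := R.nv (A := H - single Q 1) (by rw [map_sub, degree_single]; omega) P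
    have h4 := (R.ex H Q _).2 ⟨f, hf, rfl⟩
    have h5 := par_crd e (hc ▸ h4.1)
    rw [h4.2, mul_zero] at h5
    exact h (by simpa [E, hPQ] using h5)
  · have he : ((H.degree : ℤ) : ℚ) ≠ 0 := by exact_mod_cast h2.ne'
    have h4 : (MvPolynomial.C ((H.degree : ℤ) : ℚ) * X 0 : MvPolynomial (Fin 1) ℚ).totalDegree
        = 1 :=
      (isHomogeneous_C_mul_X _ _).totalDegree (mul_ne_zero (by simpa using he) (X_ne_zero _))
    rw [Pl.hp_of _ (MvPolynomial.C ((H.degree : ℤ) : ℚ) * X 0 + MvPolynomial.C ((1 - R.g : ℤ) : ℚ))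
      1 fun n hn => ?_,
      totalDegree_add_eq_left_of_totalDegree_lt (by rw [h4, totalDegree_C]; exact one_pos), h4]
    obtain ⟨n, rfl⟩ := Nat.exists_eq_add_of_le' hn
    have h5 : (0 : ℤ) ≤ n * H.degree := by positivity
    have h6 := R.dim ((n + 1) • H) (by rw [map_nsmul, nsmul_eq_mul]; push_cast; nlinarith)
    rw [map_nsmul, nsmul_eq_mul, h3, ← hc] at h6
    have h7 := congrArg (Int.cast : ℤ → ℚ) h6
    simp only [map_add, map_mul, eval_C, eval_X]
    push_cast at h7 ⊢
    linear_combination h7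
  · let W := R.S (H - single P 1 - single P 1)
    have hW : ∀ w ∈ W, LinearMap.mulLeft K (E K P * E K P) w ∈ R.S H := fun w hw => by
      simpa [mul_assoc] using ((R.ex _ P _).2 ⟨_, ((R.ex _ P _).2 ⟨w, hw, rfl⟩).1, rfl⟩).1
    let ψ : W →ₗ[K] R.S H := (LinearMap.mulLeft K (E K P * E K P)).restrict hW
    have hψ : Function.Injective ψ := by
      have hE : E K P ∈ R.S (single P 1) := by
        simpa using ((R.ex (single P 1) P _).2 ⟨1, by simpa using R.one, rfl⟩).1
      obtain ⟨Q, hQ⟩ := exists_ne P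
      rw [injective_iff_map_eq_zero]
      intro w hw
      exact Subtype.ext ((R.dom (R.mul hE hE) w.2 (congrArg Subtype.val hw)).resolve_left
        fun e => by simpa [E, hQ] using congrFun e Q)
    have key : (⨅ f ∈ idl c, LinearMap.ker (dif (c P) f)) ≤
        (LinearMap.range ψ).dualAnnihilator.map b.dualBasis.equivFun.toLinearMap := by
      intro v hv
      refine ⟨b.dualBasis.equivFun.symm v, (Submodule.mem_dualAnnihilator _).2 ?_,
        b.dualBasis.equivFun.apply_symm_apply v⟩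
      rintro _ ⟨w, rfl⟩
      obtain ⟨s, hs, h0⟩ := R.nv (A := 2 • H) (by rw [map_nsmul, nsmul_eq_mul]; push_cast; omega) P
      have h4 := R.mul hs w.2
      rw [show 2 • H + (H - single P 1 - single P 1) = (2 • H - single P 1) + (H - single P 1) by
        abel, R.trick (R.nv (by rw [map_sub, degree_single]; omega))
          (by simp only [map_sub, map_nsmul, nsmul_eq_mul]; push_cast; omega)] at h4
      obtain ⟨p, p1, p2, p3⟩ := R.sec2 h3 hc P h4
      rw [h3 1, ← hc] at hs
      obtain ⟨q, q1, q2⟩ := exists_form c hs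
      have h5 : ∀ t, eval (c t) (∑ l, MvPolynomial.C (b.repr (ψ w) l) * X l) = (ψ w).1 t :=
        fun t => by
          rw [← congrArg (fun u : R.S H => u.1 t) (b.sum_repr (ψ w)), Submodule.coe_sum,
            Finset.sum_apply, map_sum]
          exact Finset.sum_congr rfl fun l _ => by rw [map_mul, eval_C, eval_X]; rfl
      have h6 : q * (∑ l, MvPolynomial.C (b.repr (ψ w) l) * X l) - p ∈ idl c :=
        (Ff.mem_idl ((q1.mul (IsHomogeneous.sum _ _ _ fun l _ =>
          isHomogeneous_C_mul_X _ l)).sub p1)).2 fun t => by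
            rw [map_sub, map_mul, q2, h5, p3]
            change s t * (E K P * E K P * w.1) t - _ = 0
            simp only [Pi.mul_apply]; ring
      have h7 := (Submodule.mem_iInf _).1 ((Submodule.mem_iInf _).1 hv _) h6
      have h8 : (ψ w).1 P = 0 := by
        change (E K P * E K P * w.1) P = 0
        simp [E]
      rw [LinearMap.mem_ker, dif_sub, dif_mul, p2, q2, h5, h8, zero_smul, add_zero, sub_zero,
        LinearMap.smul_apply, dif_lin, smul_eq_zero, or_iff_right h0] at h7
      rw [← h7]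
      simp [Basis.equivFun_symm_apply, mul_comm]
    have h4 := (Submodule.finrank_mono key).trans (Submodule.finrank_map_le _ _)
    have h5 := Subspace.finrank_add_finrank_dualAnnihilator_eq (LinearMap.range ψ)
    rw [LinearMap.finrank_range_of_inj hψ] at h5
    have h6 := R.dim H (by omega)
    have h7 := R.dim (H - single P 1 - single P 1) (by simp only [map_sub, degree_single]; omega)
    simp only [map_sub, degree_single] at h7
    refine h4.trans ?_
    change finrank K (R.S (H - single P 1 - single P 1)) + _ = _ at h5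
    omega
  · obtain ⟨k, hk⟩ : ∃ k : ℕ, k = R.c0.natAbs + D.degree.natAbs + 1 := ⟨_, rfl⟩
    obtain ⟨f, hf, h⟩ := R.nv (A := k • H - D) (by
      rw [map_sub, map_nsmul, nsmul_eq_mul]
      have : (k : ℤ) ≤ k * H.degree := le_mul_of_one_le_right (by omega) h2
      omega) P
    refine ⟨fun _ => k, f, h.isUnit, fun w hw => ?_⟩
    have := R.mul hf hw
    rw [sub_add_cancel, hk, h3, ← hc] at this
    simpa [hk] using this

end RR

/-- every curve is the image of a smooth curve -/
theorem exists_norm [IsAlgClosed K] {T σ : Type} [Fintype σ] {c : T → σ → K} (h : Crv c) :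
    ∃ (C : Type) (n : ℕ) (c' : C → Fin n → K) (π : C → T), Curve c' ∧ Mor c' c π ∧
      ∀ t, ∃ P, Par (c t) (c (π P)) := by
  obtain ⟨C, R, D, f, h1, h2, h3⟩ := s_rr K c h.ne h.irr h.dim
  obtain ⟨n, c', h4, h5⟩ := R.exists_curve
  have hz : ∀ {U : Type} (p : U → σ → K) (u : U), p u ∈ zeroLocus K (idl p) :=
    fun p u q hq => hq _ ⟨1, u, (one_smul _ _).symm⟩
  choose π l hl e using fun P => h.cl (f P) (h3 ▸ hz f P) (h2 P)
  refine ⟨C, n, c', π, h4, fun P => ?_, fun t => ?_⟩
  · obtain ⟨k, γ, g1, g2⟩ := h5 D P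
    refine ⟨k, γ * l, g1.mul (hl P), fun w hw => ?_⟩
    rw [mul_assoc]
    refine g2 _ ?_
    induction hw using Submodule.span_induction with
    | mem x hx =>
      obtain ⟨a, rfl⟩ := hx
      have : (l * fun t => c (π t) a) = fun P => f P a :=
        funext fun P => (congrFun (e P) a).symm
      exact this ▸ h1 a
    | zero => simp
    | add x y _ _ hx hy => rw [mul_add]; exact add_mem hx hy
    | smul a x _ hx => rw [mul_smul_comm]; exact Submodule.smul_mem _ _ hx
  · obtain ⟨P, m, hm, e'⟩ := R.cl D f h1 h2 (c t) (h3 ▸ hz c t) (h.ne t)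
    exact ⟨P, m * l P, hm.mul (hl P), by rw [e', e P, smul_smul]⟩

theorem par_prod {T ι : Type} [Fintype ι] {L : ι → Submodule K (T → K)} {t t' : T} {l : ι → K}
    (h : ∀ i, ∀ u ∈ L i, u t = l i * u t') (e : ι → ℕ) :
    ∀ u ∈ ∏ i, L i ^ e i, u t = (∏ i, l i ^ e i) * u t' := by
  let M : K → Submodule K (T → K) := fun a =>
    LinearMap.ker (LinearMap.proj t - a • LinearMap.proj t')
  have hM : ∀ a u, u ∈ M a ↔ u t = a * u t' := fun a u => by simp [M, sub_eq_zero]
  have h1 : (1 : Submodule K (T → K)) ≤ M 1 := Submodule.one_le.2 ((hM _ _).2 (by simp))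
  have h2 : ∀ {A B : Submodule K (T → K)} {a b}, A ≤ M a → B ≤ M b → A * B ≤ M (a * b) :=
    fun hA hB => Submodule.mul_le.2 fun u hu v hv => (hM _ _).2 (by
      rw [Pi.mul_apply, Pi.mul_apply, (hM _ _).1 (hA hu), (hM _ _).1 (hB hv)]; ring)
  have h3 : ∀ i n, L i ^ n ≤ M (l i ^ n) := fun i n => by
    induction n with
    | zero => simpa using h1
    | succ n ih => rw [pow_succ, pow_succ]; exact h2 ih fun u hu => (hM _ _).2 (h i u hu)
  have h4 : ∀ s : Finset ι, ∏ i ∈ s, L i ^ e i ≤ M (∏ i ∈ s, l i ^ e i) := fun s => by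
    classical
    induction s using Finset.induction_on with
    | empty => simpa using h1
    | insert i s hi ih => rw [Finset.prod_insert hi, Finset.prod_insert hi]; exact h2 (h3 _ _) ih
  exact fun u hu => (hM _ _).1 (h4 _ hu)

end Pool.Agent.Tav.Cv

namespace Pool.Agent.Tav

/-- an image of a product of curves is an image of a product of smooth curves -/
theorem Cov0.cov {K τ : Type} [Field K] [IsAlgClosed K] {I : Ideal (MvPolynomial τ K)}
    (h : Cov0 I) : Cov I := by
  obtain ⟨n, T, σ, _, c, f, h1, h2, h3, rfl⟩ := h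
  choose C m c' π g1 g2 g3 using fun i => Cv.exists_norm (h1 i)
  refine ⟨n, C, fun i => Fin (m i), inferInstance, c', fun P => f fun i => π i (P i), g1,
    fun P => h2 _, Tr.rg_trans (fun i => ?_) (Tr.rg_crd_pb h3 fun (P : ∀ i, C i) i => π i (P i)), ?_⟩
  · exact Tr.Mor_comp (g2 i) (j := fun P : ∀ i, C i => P i)
      (Tr.rg_self (fun i => crd fun P : ∀ i, C i => c' i (P i)) i)
  · unfold idl
    congr 1
    ext z
    refine ⟨fun ⟨a, P, e⟩ => ⟨a, _, e⟩, ?_⟩
    rintro ⟨a, t, rfl⟩
    choose P l hl e using fun i => g3 i (t i)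
    obtain ⟨k, γ, g4, g5⟩ := h3 t
    have key : ∀ b, γ t * f t b = (∏ i, l i ^ k i) *
        (γ (fun i => π i (P i)) * f (fun i => π i (P i)) b) := fun b =>
      Cv.par_prod (L := fun i => crd fun t : ∀ i, T i => c i (t i)) (l := l)
        (fun i u hu => Cv.par_crd (c := fun t : ∀ i, T i => c i (t i)) (e i) hu) k _
        (g5 (fun t => f t b) (Submodule.subset_span ⟨b, rfl⟩))
    refine ⟨a * (γ t)⁻¹ * ((∏ i, l i ^ k i) * γ fun i => π i (P i)), P, funext fun b => ?_⟩
    have := g4.ne_zero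
    simp only [Pi.smul_apply, smul_eq_mul]
    field_simp
    linear_combination a * key b

theorem Cov.cov0 {K τ : Type} [Field K] {I : Ideal (MvPolynomial τ K)} (h : Cov I) : Cov0 I :=
  let ⟨n, T, σ, i, c, f, h1, h2⟩ := h
  ⟨n, T, σ, i, c, f, fun i => ⟨(h1 i).ne, (h1 i).cl, (h1 i).irr, (h1 i).dim⟩, h2⟩

end Pool.Agent.Tav
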