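import Pool.Agent.P.MP_dd457d_ag.Bcv.Fin
import Pool.Agent.P.MP_2ce3e7_ag.Tav.CvCJ
import Pool.Agent.P.MP_2ce3e7_ag.Tav.CvNorm

/-! The three conclusions for images of products of curves. -/

set_option autoImplicit false

namespace Pool.Agent.Tav.Cv

theorem p_CJ : S_CJ := fun _ _ _ _ _ _ _ h => exists_cj h

theorem out (k : Type) [Field k] [Fintype k] {τ : Type} [Fintype τ]
    (J : Ideal (MvPolynomial τ k))
    (h : Cov0 (J.map (MvPolynomial.map (algebraMap k (AlgebraicClosure k))))) : Tpx.Out k J :=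
  out_of p_CJ p_Dbo k J h.cov

end Pool.Agent.Tav.Cv
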