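import Mathlib

/-! Strata of the Fermat hypersurface: the chain of initial sums. -/

set_option autoImplicit false

noncomputable section

namespace Pool.Agent.Tav.Fs

open Finset

variable {K : Type} [Field K] (m n : ℕ) (Λ : Finset ℕ) (ε : ℕ → K)

/-- initial sums -/
def ps (z : ℕ → K) (k : ℕ) : K := ∑ i ∈ range k, z i ^ m

/-- the slot `k` is used -/
def Act (k : ℕ) : Prop := k + 1 ∈ Λ ∧ ∃ j ≤ k, j ∈ Λ

open Classical in
/-- the three functions of the slot `k` -/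
def tri (k : ℕ) (x : Fin 3 → K) : Fin 3 → K :=
  if Act Λ k then ![x 0, if k ∈ Λ then x 1 else x 2, x 2]
  else ![1, if k + 1 ∈ Λ then 1 else if k ∈ Λ then ε k else 0, 1]

/-- which of the three functions of the slot `i` occurs in the coordinate `k` -/
def wh (k i : ℕ) : Fin 3 := if i < k then 2 else if i = k then 1 else 0

/-- the forms -/
def gm (x : ℕ → Fin 3 → K) (k : ℕ) : K := ∏ i ∈ range n, tri Λ ε i (x i) (wh k i)

/-- the scales -/
def sc (x : ℕ → Fin 3 → K) (k : ℕ) : K := ∏ i ∈ range n, tri Λ ε i (x i) (if i < k then 2 else 0)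

/-- the equations other than the minors -/
def Rel (x : ℕ → Fin 3 → K) (z : ℕ → K) : Prop :=
  (∀ k ≤ n, k ∉ Λ → ps m z k = 0) ∧ ∀ j k, j ≤ k → k < n → j ∈ Λ → k + 1 ∈ Λ →
    (∀ i, j < i → i ≤ k → i ∉ Λ) → x k 0 ^ m * ps m z (k + 1) = x k 2 ^ m * ps m z j

variable {m n Λ ε} {x : ℕ → Fin 3 → K}

theorem split {k : ℕ} (hk : k < n) : ∃ u : K, sc n Λ ε x k = tri Λ ε k (x k) 0 * u ∧
    gm n Λ ε x k = tri Λ ε k (x k) 1 * u ∧ sc n Λ ε x (k + 1) = tri Λ ε k (x k) 2 * u := by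
  have h := mem_range.2 hk
  refine ⟨∏ i ∈ (range n).erase k, tri Λ ε i (x i) (if i < k then 2 else 0), ?_, ?_, ?_⟩
  · rw [sc, ← mul_prod_erase _ _ h, if_neg (lt_irrefl k)]
  · rw [gm, ← mul_prod_erase _ _ h, wh, if_neg (lt_irrefl k), if_pos rfl]
    refine congrArg _ (prod_congr rfl fun i hi => ?_)
    rw [wh, if_neg (ne_of_mem_erase hi)]
  · rw [sc, ← mul_prod_erase _ _ h, if_pos (Nat.lt_succ_self k)]
    refine congrArg _ (prod_congr rfl fun i hi => ?_)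
    have := ne_of_mem_erase hi
    rw [if_congr (show i < k + 1 ↔ i < k by omega) rfl rfl]

theorem ps_succ (z : ℕ → K) (k : ℕ) : ps m z (k + 1) = ps m z k + z k ^ m := sum_range_succ _ _

theorem ps_gm (hm : m ≠ 0) (h0 : 0 ∉ Λ) (hε : ∀ k < n, ε k ^ m = -1)
    (hx : ∀ k < n, x k 0 ^ m + x k 1 ^ m = x k 2 ^ m) (k : ℕ) (hk : k ≤ n) :
    ps m (gm n Λ ε x) k = if k ∈ Λ then sc n Λ ε x k ^ m else 0 := by
  induction k with
  | zero => simp [ps, h0]
  | succ k ih =>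
    obtain ⟨u, h1, h2, h3⟩ := split (Λ := Λ) (ε := ε) (x := x) (show k < n from hk)
    have hε := hε k hk
    rw [ps_succ, ih (by omega), h1, h2, h3, tri]
    by_cases ha : Act Λ k
    · have hx := hx k hk
      by_cases hk : k ∈ Λ
      · simp only [ha, hk, ha.1, if_true, Matrix.cons_val, mul_pow]
        rw [← hx, add_mul]
      · simp [ha, hk, ha.1]
    · by_cases hk : k ∈ Λ
      · have : k + 1 ∉ Λ := fun h => ha ⟨h, k, le_rfl, hk⟩
        simp [ha, hk, this, mul_pow, hε]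
      · by_cases hk' : k + 1 ∈ Λ <;> simp [ha, hk, hk', hm]

theorem sc_eq {j k : ℕ} (hj : j ≤ k) (hk : k ≤ n) (h : ∀ i, j < i → i ≤ k → i ∉ Λ) :
    sc n Λ ε x k = sc n Λ ε x j := by
  induction k, hj using Nat.le_induction with
  | base => rfl
  | succ k hj ih =>
    obtain ⟨u, h1, -, h3⟩ := split (Λ := Λ) (ε := ε) (x := x) (show k < n from hk)
    have ha : ¬ Act Λ k := fun ha => h _ (by omega) le_rfl ha.1
    rw [← ih (by omega) fun i a b => h i a (by omega), h1, h3, tri, if_neg ha]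
    rfl

theorem rel_gm (hm : m ≠ 0) (h0 : 0 ∉ Λ) (hε : ∀ k < n, ε k ^ m = -1)
    (hx : ∀ k < n, x k 0 ^ m + x k 1 ^ m = x k 2 ^ m) : Rel m n Λ x (gm n Λ ε x) := by
  refine ⟨fun k hk h => by rw [ps_gm hm h0 hε hx k hk, if_neg h], fun j k h1 h2 h3 h4 h5 => ?_⟩
  obtain ⟨u, e1, -, e3⟩ := split (Λ := Λ) (ε := ε) (x := x) h2
  have ha : Act Λ k := ⟨h4, j, h1, h3⟩
  rw [ps_gm hm h0 hε hx _ h2, ps_gm hm h0 hε hx j (by omega), if_pos h4, if_pos h3,
    ← sc_eq h1 h2.le h5, e1, e3, tri, if_pos ha]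
  simp only [Matrix.cons_val]
  ring

theorem sc_ne (hD : ∀ k < n, Act Λ k → x k 0 * x k 2 ≠ 0) (k : ℕ) : sc n Λ ε x k ≠ 0 := by
  refine prod_ne_zero_iff.2 fun i hi => ?_
  rw [tri]
  split_ifs with h1 h2 h3 h3
  all_goals first
    | exact right_ne_zero_of_mul (hD i (mem_range.1 hi) h1)
    | exact left_ne_zero_of_mul (hD i (mem_range.1 hi) h1)
    | exact one_ne_zero

theorem gm_ne (hm : m ≠ 0) (h0 : 0 ∉ Λ) (hε : ∀ k < n, ε k ^ m = -1)
    (hx : ∀ k < n, x k 0 ^ m + x k 1 ^ m = x k 2 ^ m) (hD : ∀ k < n, Act Λ k → x k 0 * x k 2 ≠ 0)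
    {j : ℕ} (hj : j ∈ Λ) (hn : j ≤ n) : ∃ k < n, gm n Λ ε x k ≠ 0 := by
  by_contra h
  push Not at h
  have := ps_gm (ε := ε) hm h0 hε hx j hn
  rw [if_pos hj, ps, sum_eq_zero fun i hi => by
    rw [h i ((mem_range.1 hi).trans_le hn), zero_pow hm]] at this
  exact pow_ne_zero m (sc_ne hD j) this.symm

theorem ps_smul (c : K) {z z' : ℕ → K} (h : ∀ k < n, z k = c * z' k) {k : ℕ} (hk : k ≤ n) :
    ps m z k = c ^ m * ps m z' k := by
  rw [ps, ps, mul_sum]
  exact sum_congr rfl fun i hi => by rw [h i ((mem_range.1 hi).trans_le hk), mul_pow]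

theorem Rel.smul {z z' : ℕ → K} (h : Rel m n Λ x z') (c : K) (e : ∀ k < n, z k = c * z' k) :
    Rel m n Λ x z :=
  ⟨fun k hk h' => by rw [ps_smul c e hk, h.1 k hk h', mul_zero], fun j k h1 h2 h3 h4 h5 => by
    rw [ps_smul c e h2, ps_smul c e (show j ≤ n by omega), mul_left_comm, h.2 j k h1 h2 h3 h4 h5,
      mul_left_comm]⟩

/-- over the removed part a live initial sum vanishes -/
theorem Rel.bd {z : ℕ → K} (h : Rel m n Λ x z) (hm : m ≠ 0) {k : ℕ} (hk : k < n) (ha : Act Λ k)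
    (h0 : x k 0 * x k 2 = 0) (hne : x k 0 ≠ 0 ∨ x k 2 ≠ 0) : ∃ j ∈ Λ, ps m z j = 0 := by
  classical
  obtain ⟨h1, j, h2, h3⟩ := ha
  have h4 := h.2 (Nat.findGreatest (· ∈ Λ) k) k (Nat.findGreatest_le k) hk
    (Nat.findGreatest_spec (P := (· ∈ Λ)) h2 h3) h1 fun i a b => Nat.findGreatest_is_greatest a b
  rcases mul_eq_zero.1 h0 with e | e
  · rw [e, zero_pow hm, zero_mul] at h4
    exact ⟨_, Nat.findGreatest_spec (P := (· ∈ Λ)) h2 h3, (mul_eq_zero.1 h4.symm).resolve_left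
      (pow_ne_zero _ (hne.resolve_left fun h => h e))⟩
  · rw [e, zero_pow hm, zero_mul] at h4
    exact ⟨_, h1, (mul_eq_zero.1 h4).resolve_left (pow_ne_zero _ (hne.resolve_right fun h => h e))⟩

/-- the scales of a point of the open stratum -/
def ws (Λ : Finset ℕ) (rt : K → K) (m : ℕ) (z : ℕ → K) (w₀ : K) : ℕ → K
  | 0 => w₀
  | k + 1 => if k + 1 ∈ Λ then if k ∈ Λ then rt (ps m z (k + 1)) else z k else ws Λ rt m z w₀ k

/-- every point of the open stratum comes from the open part of the product -/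
theorem onto [IsAlgClosed K] (hm : m ≠ 0) {z : ℕ → K} (hz : ∀ k, k ∈ Λ ↔ k ≤ n ∧ ps m z k ≠ 0)
    (hΛ : Λ.Nonempty) : ∃ (ε : ℕ → K) (x : ℕ → Fin 3 → K), (∀ k, ε k ^ m = -1) ∧
      (∀ k, x k 0 ^ m + x k 1 ^ m = x k 2 ^ m) ∧ (∀ k, x k 0 * x k 2 ≠ 0) ∧
      ∀ (ε' : ℕ → K) (x' : ℕ → Fin 3 → K) (l : ℕ → K), (∀ k < n, ε' k = ε k) →
        (∀ k < n, l k ≠ 0 ∧ x' k = l k • x k) → ∃ c ≠ 0, ∀ k < n, gm n Λ ε' x' k = c * z k := by
  classical
  choose rt hrt using fun a : K => IsAlgClosed.exists_pow_nat_eq a (Nat.pos_of_ne_zero hm)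
  have h0 : 0 ∉ Λ := fun h => ((hz 0).1 h).2 (by simp [ps])
  have hd : ∀ k ≤ n, k ∉ Λ → ps m z k = 0 := fun k hk h => by_contra fun e => h ((hz k).2 ⟨hk, e⟩)
  have hex : ∃ k, k + 1 ∈ Λ := by
    obtain ⟨_ | k, hk⟩ := hΛ
    exacts [absurd hk h0, ⟨k, hk⟩]
  let w := ws Λ rt m z (z (Nat.find hex))
  have hw : ∀ k, w (k + 1) = if k + 1 ∈ Λ then if k ∈ Λ then rt (ps m z (k + 1)) else z k
    else w k := fun k => rfl
  have h1 : ∀ k ∈ Λ, w k ^ m = ps m z k := by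
    rintro (_ | k) hk
    · exact absurd hk h0
    rw [hw, if_pos hk]
    split_ifs with h
    · exact hrt _
    · rw [ps_succ, hd k (Nat.le_of_succ_le ((hz _).1 hk).1) h, zero_add]
  have h1' : ∀ k ∈ Λ, w k ≠ 0 := fun k hk e =>
    ((hz k).1 hk).2 (by rw [← h1 k hk, e, zero_pow hm])
  have h2 : ∀ k, (∀ j ≤ k, j ∉ Λ) → w k = z (Nat.find hex) := fun k => by
    induction k with
    | zero => exact fun _ => rfl
    | succ k ih => exact fun h => by rw [hw, if_neg (h _ le_rfl), ih fun j hj => h j (by omega)]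
  have h3 : ∀ k, (∀ j ≤ k, j ∉ Λ) → k + 1 ∈ Λ → w k = z k := fun k h hk => by
    rw [h2 k h, (Nat.find_eq_iff hex).2 ⟨hk, fun j hj => h _ hj⟩]
  have h4 : ∀ k, w k ≠ 0 := fun k => by
    induction k with
    | zero =>
      have h5 := h1' _ (Nat.find_spec hex)
      rw [hw, if_pos (Nat.find_spec hex), if_neg] at h5
      · exact h5
      · generalize_proofs
        rcases h : Nat.find hex with _ | j
        · exact h0
        · exact Nat.find_min hex (by omega)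
    | succ k ih =>
      by_cases h : k + 1 ∈ Λ
      · exact h1' _ h
      · rwa [hw, if_neg h]
  let ε : ℕ → K := fun k => if k < n ∧ k ∈ Λ ∧ k + 1 ∉ Λ then z k / w k else rt (-1)
  let x : ℕ → Fin 3 → K := fun k =>
    ![w k, if k ∈ Λ ∧ k + 1 ∈ Λ then z k else rt (w (k + 1) ^ m - w k ^ m), w (k + 1)]
  refine ⟨ε, x, fun k => ?_, fun k => ?_, fun k => mul_ne_zero (h4 k) (h4 (k + 1)),
    fun ε' x' l hε hl => ?_⟩
  · simp only [ε]
    split_ifs with h
    · have := hd _ h.1 h.2.2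
      rw [ps_succ, ← h1 k h.2.1] at this
      rw [div_pow, div_eq_iff (pow_ne_zero _ (h4 k))]
      linear_combination this
    · exact hrt _
  · simp only [x, Matrix.cons_val]
    split_ifs with h
    · rw [h1 _ h.1, h1 _ h.2, ps_succ]
    · rw [hrt, add_sub_cancel]
  have h5 : ∀ k < n, ∃ a : K, a ≠ 0 ∧ tri Λ ε' k (x' k) = a • ![w k, z k, w (k + 1)] := fun k hk => by
    rw [tri]
    split_ifs with a1 a2 a3 a4
    · refine ⟨l k, (hl k hk).1, ?_⟩
      simp [(hl k hk).2, x, a2, a1.1]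
    · refine ⟨l k, (hl k hk).1, ?_⟩
      simp [(hl k hk).2, x, hw, a2, a1.1]
    · have a5 : ∀ j ≤ k, j ∉ Λ := fun j hj h => a1 ⟨a3, j, hj, h⟩
      refine ⟨(w k)⁻¹, inv_ne_zero (h4 k), ?_⟩
      simp [hw, a3, a5 k le_rfl, ← h3 k a5 a3, h4 k]
    · refine ⟨(w k)⁻¹, inv_ne_zero (h4 k), ?_⟩
      simp [hw, a3, a4, h4 k, hε k hk, ε, hk, div_eq_inv_mul]
    · have := hd _ hk a3
      rw [ps_succ, hd k hk.le a4, zero_add] at this
      refine ⟨(w k)⁻¹, inv_ne_zero (h4 k), ?_⟩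
      simp [hw, a3, h4 k, pow_eq_zero_iff hm |>.1 this]
  choose! a ha he using h5
  refine ⟨(∏ i ∈ range n, a i * w i) / w 0, div_ne_zero (prod_ne_zero_iff.2 fun i hi =>
    mul_ne_zero (ha i (mem_range.1 hi)) (h4 i)) (h4 0), fun k hk => ?_⟩
  have h6 : ∀ k ≤ n, sc n Λ ε' x' k * w 0 = (∏ i ∈ range n, a i * w i) * w k := fun k => by
    induction k with
    | zero =>
      exact fun _ => congrArg (· * w 0) (prod_congr rfl fun i hi => by simp [he i (mem_range.1 hi)])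
    | succ k ih =>
      intro hk
      obtain ⟨u, e1, -, e3⟩ := split (Λ := Λ) (ε := ε') (x := x') (show k < n from hk)
      have := ih (by omega)
      rw [e1, he k hk] at this
      rw [e3, he k hk]
      simp only [Pi.smul_apply, smul_eq_mul, Matrix.cons_val] at this ⊢
      refine mul_right_cancel₀ (h4 k) ?_
      linear_combination w (k + 1) * this
  obtain ⟨u, e1, e2, -⟩ := split (Λ := Λ) (ε := ε') (x := x') hk
  have := h6 k hk.le
  rw [e1, he k hk] at this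
  rw [e2, he k hk, div_mul_eq_mul_div, eq_div_iff (h4 0)]
  simp only [Pi.smul_apply, smul_eq_mul, Matrix.cons_val] at this ⊢
  refine mul_right_cancel₀ (h4 k) ?_
  linear_combination z k * this

end Pool.Agent.Tav.Fs
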