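import Pool.Agent.P.MP_2ce3e7_ag.Tav.SdBas
import Pool.Agent.P.MP_2ce3e7_ag.Tav.SdCore
import Pool.Agent.P.MP_2ce3e7_ag.Tav.CvPlane

/-! Every diagonal hypersurface is stratified over a power of the Fermat curve. -/

set_option autoImplicit false

noncomputable section

namespace Pool.Agent.Tav.Fs

open Finset Pl

variable {K : Type} [Field K]

section
variable {T ι : Type} {L : ι → Submodule K (T → K)}

theorem prod_mem {s : Finset ι} {f : ι → T → K} (h : ∀ i ∈ s, f i ∈ L i) :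
    ∏ i ∈ s, f i ∈ ∏ i ∈ s, L i := by
  classical
  induction s using Finset.induction_on with
  | empty => exact Submodule.one_le.1 le_rfl
  | insert a s ha ih =>
    rw [prod_insert ha, prod_insert ha]
    exact Submodule.mul_mem_mul (h a (mem_insert_self _ _))
      (ih fun i hi => h i (mem_insert_of_mem hi))

theorem const_mem (M : Submodule K (T → K)) (a : K) : (fun _ => a : T → K) ∈ M ^ 0 := by
  rw [pow_zero]
  exact Submodule.mem_one.2 ⟨a, rfl⟩

theorem single_mem [Fintype ι] [DecidableEq ι] {i : ι} {d : ℕ} {f : T → K} (h : f ∈ L i ^ d) :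
    f ∈ ∏ j, L j ^ (Pi.single i d : ι → ℕ) j := by
  rwa [prod_eq_single i (fun j _ hj => by rw [Pi.single_eq_of_ne hj, pow_zero]) (by simp),
    Pi.single_eq_same]

theorem mul_mem [Fintype ι] {e e' : ι → ℕ} {f g : T → K} (hf : f ∈ ∏ j, L j ^ e j)
    (hg : g ∈ ∏ j, L j ^ e' j) : f * g ∈ ∏ j, L j ^ (e + e') j := by
  simp only [Pi.add_apply, pow_add, prod_mul_distrib]
  exact Submodule.mul_mem_mul hf hg

theorem sep_one [Fintype ι] (i : ι) {A : Set T} {t : T} {d : ℕ} {f : T → K} (h : f ∈ L i ^ d)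
    (h1 : f t ≠ 0) (h2 : ∀ s ∈ A, f s = 0) : Sep L A t := by
  classical
  exact ⟨_, f, single_mem h, h1, h2⟩

theorem sep_sub [Fintype ι] (i j : ι) {A : Set T} {t : T} {d : ℕ} {f f' g g' : T → K}
    (hf : f ∈ L i ^ d) (hf' : f' ∈ L i ^ d) (hg : g ∈ L j ^ d) (hg' : g' ∈ L j ^ d)
    (h1 : f t * g t ≠ f' t * g' t) (h2 : ∀ s ∈ A, f s * g s = f' s * g' s) : Sep L A t := by
  classical
  exact ⟨_, f * g - f' * g', Submodule.sub_mem _ (mul_mem (single_mem hf) (single_mem hg))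
    (mul_mem (single_mem hf') (single_mem hg')), sub_ne_zero.2 h1,
    fun s hs => sub_eq_zero.2 (h2 s hs)⟩

theorem crd_mem {σ : Type} (c : T → σ → K) (l : σ) : (fun t => c t l) ∈ crd c :=
  Submodule.subset_span ⟨l, rfl⟩

open Classical in
theorem tri_mem (c : T → Fin 3 → K) (Λ : Finset ℕ) (ε : ℕ → K) (k : ℕ) (j : Fin 3) :
    (fun t => tri Λ ε k (c t) j) ∈ crd c ^ if Act Λ k then 1 else 0 := by
  simp only [tri]
  split_ifs with h1 h2
  all_goals first
    | exact const_mem _ _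
    | (rw [pow_one]; fin_cases j <;> exact crd_mem c _)

end

/-- extension of a finite sequence -/
def ex {α : Type} {n : ℕ} (d : α) (u : Fin n → α) (k : ℕ) : α := if h : k < n then u ⟨k, h⟩ else d

theorem ex_lt {α : Type} {n : ℕ} (d : α) (u : Fin n → α) {k : ℕ} (h : k < n) :
    ex d u k = u ⟨k, h⟩ := dif_pos h

theorem ex_val {α : Type} {n : ℕ} (d : α) (u : Fin n → α) (k : Fin n) : ex d u k = u k :=
  dif_pos k.2

variable {τ : Type} {n m : ℕ} (e : Fin n ≃ τ) (r : τ → K)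

/-- the rescaled coordinates -/
def zs (y : τ → K) : ℕ → K := ex 0 fun k => r (e k) * y (e k)

variable (m) in
open Classical in
/-- the initial sums that do not vanish -/
def lv (y : τ → K) : Finset ℕ := (range (n + 1)).filter fun k => ps m (zs e r y) k ≠ 0

variable (m) in
/-- the points with few nonzero initial sums -/
def Zr (s : ℕ) : Set (τ → K) := {y | ps m (zs e r y) n = 0 ∧ #(lv m e r y) ≤ s}

/-- the coordinates of a point of the power of the curve -/
def xs (t : Fin n → Pt (fer K m)) : ℕ → Fin 3 → K := ex 0 fun k => co _ (t k)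

variable (K m n) in
/-- the open part -/
def Vo (Λ : Finset ℕ) : Set (Fin n → Pt (fer K m)) :=
  {t | ∀ k < n, Act Λ k → xs t k 0 * xs t k 2 ≠ 0}

/-- the map -/
def fm (Λ : Finset ℕ) (ε : Fin n → K) (t : Vo K n m Λ) (l : τ) : K :=
  (r l)⁻¹ * gm n Λ (ex 0 ε) (xs t.1) (e.symm l)

variable {e r} {Λ : Finset ℕ} {ε : Fin n → K}

theorem mem_lv {y : τ → K} {k : ℕ} : k ∈ lv m e r y ↔ k ≤ n ∧ ps m (zs e r y) k ≠ 0 := by
  simp [lv]

theorem xs_fer (t : Fin n → Pt (fer K m)) (k : ℕ) (hk : k < n) :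
    xs t k 0 ^ m + xs t k 1 ^ m = xs t k 2 ^ m := by
  rw [xs, ex_lt _ _ hk]
  exact sub_eq_zero.1 ((eval_fer _).symm.trans (t ⟨k, hk⟩).2)

theorem xs_ne (hm : m ≠ 0) (t : Fin n → Pt (fer K m)) (k : ℕ) (hk : k < n) :
    xs t k 0 ≠ 0 ∨ xs t k 2 ≠ 0 := by
  by_contra h
  rw [not_or, not_not, not_not] at h
  have h1 := xs_fer t k hk
  rw [h.1, h.2, zero_pow hm, zero_add, pow_eq_zero_iff hm] at h1
  rw [xs, ex_lt _ _ hk] at h h1
  refine (t ⟨k, hk⟩).1.rep_nonzero (funext fun j => ?_)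
  fin_cases j
  exacts [h.1, h1, h.2]

theorem zs_fm (hr : ∀ l, r l ≠ 0) (a : K) (t : Vo K n m Λ) (k : ℕ) (hk : k < n) :
    zs e r (a • fm e r Λ ε t) k = a * gm n Λ (ex 0 ε) (xs t.1) k := by
  rw [zs, ex_lt _ _ hk, Pi.smul_apply, fm, e.symm_apply_apply, smul_eq_mul, mul_left_comm,
    mul_inv_cancel_left₀ (hr _)]

theorem ex_pow (hε : ∀ k, ε k ^ m = -1) (k : ℕ) (hk : k < n) : ex 0 ε k ^ m = -1 := by
  rw [ex_lt _ _ hk, hε]

theorem rel_fm (hr : ∀ l, r l ≠ 0) (hm : m ≠ 0) (h0 : 0 ∉ Λ) (hε : ∀ k, ε k ^ m = -1) (a : K)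
    (t : Vo K n m Λ) : Rel m n Λ (xs t.1) (zs e r (a • fm e r Λ ε t)) :=
  (rel_gm hm h0 (ex_pow hε) (xs_fer t.1)).smul a (zs_fm hr a t)

theorem ps_mem {P : Type} (k : ℕ) : (fun t : P × (τ → K) => ps m (zs e r t.2) k) ∈
    crd (Prod.snd : P × (τ → K) → τ → K) ^ m := by
  have : (fun t : P × (τ → K) => ps m (zs e r t.2) k) =
      ∑ i ∈ range k, (fun t : P × (τ → K) => zs e r t.2 i) ^ m := funext fun t => by simp [ps]
  rw [this]
  refine Submodule.sum_mem _ fun i _ => Submodule.pow_mem_pow _ ?_ m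
  simp only [zs, ex]
  split_ifs
  · exact Submodule.smul_mem _ (r _) (crd_mem Prod.snd _)
  · exact Submodule.zero_mem _

theorem str_step (hr : ∀ l, r l ≠ 0) (hm : m ≠ 0) (h0 : 0 ∉ Λ) (hn : Λ ⊆ range n)
    (hε : ∀ k, ε k ^ m = -1) {s : ℕ} (hs : #Λ = s + 1)
    (h : Str (fun i (t : Fin n → Pt (fer K m)) => co _ (t i)) (Zr m e r s)) :
    Str (fun i (t : Fin n → Pt (fer K m)) => co _ (t i))
      (Zr m e r s ∪ {y | ∃ (a : K) (t : Vo K n m Λ), y = a • fm e r Λ ε t}) := by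
  classical
  refine Str.step _ _ h (fun x hx => ?_) (fun t h1 => ?_) (fun t => ?_) fun x hx y hy => ?_
  · refine ⟨fun k => if Act Λ k then 2 else 0,
      ∏ k : Fin n, fun t => if Act Λ k then co _ (t k) 0 * co _ (t k) 2 else 1,
      prod_mem fun k _ => ?_, ?_, fun t ht => ?_⟩
    · beta_reduce
      split_ifs
      · rw [pow_two]
        exact Submodule.mul_mem_mul (crd_mem (fun t : Fin n → Pt (fer K m) => co _ (t k)) 0)
          (crd_mem (fun t : Fin n → Pt (fer K m) => co _ (t k)) 2)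
      · exact const_mem _ _
    · rw [Finset.prod_apply]
      refine prod_ne_zero_iff.2 fun k _ => ?_
      split_ifs with ha
      · have := hx k k.2 ha
        rwa [xs, ex_val] at this
      · exact one_ne_zero
    · simp only [Vo, Set.mem_compl_iff, Set.mem_ofPred_eq, not_forall, not_not] at ht
      obtain ⟨k, hk, ha, h2⟩ := ht
      rw [Finset.prod_apply]
      refine prod_eq_zero (mem_univ ⟨k, hk⟩) ?_
      rw [if_pos ha]
      rwa [xs, ex_lt _ _ hk] at h2
  · obtain ⟨j, hj⟩ := card_pos.1 ((Nat.succ_pos s).trans_eq hs.symm)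
    obtain ⟨k, hk, h2⟩ := gm_ne hm h0 (ex_pow hε) (xs_fer t.1) t.2 hj (mem_range.1 (hn hj)).le
    have := zs_fm (e := e) (ε := ε) hr 1 t k hk
    rw [h1, one_mul, zs, ex_lt _ _ hk] at this
    exact h2 (by simpa using this.symm)
  · refine ⟨fun k => if Act Λ k then 1 else 0, 1, isUnit_one, fun w hw => ?_⟩
    rw [one_mul]
    refine Submodule.span_le.2 ?_ hw
    rintro _ ⟨l, rfl⟩
    have : (fun t => fm e r Λ ε t l) = (r l)⁻¹ • ∏ i : Fin n,
        fun t : Vo K n m Λ => tri Λ (ex 0 ε) i (co _ (t.1 i)) (wh (e.symm l) i) := funext fun t => by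
      rw [fm, gm, prod_range, Pi.smul_apply, Finset.prod_apply, smul_eq_mul]
      simp only [xs, ex_val]
    change (fun t => fm e r Λ ε t l) ∈ _
    rw [this]
    exact Submodule.smul_mem _ _ (prod_mem fun i _ => tri_mem (fun t : Vo K n m Λ => co _ (t.1 i)) _ _ _ _)
  · have hR : ¬ Rel m n Λ (xs x) (zs e r y) := fun hR => hy (by
      simp only [Vo, Set.mem_ofPred_eq, not_forall, not_not] at hx
      obtain ⟨k, hk, ha, h2⟩ := hx
      obtain ⟨j, hj, h3⟩ := hR.bd hm hk ha h2 (xs_ne hm x k hk)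
      refine ⟨hR.1 n le_rfl fun h => lt_irrefl n (mem_range.1 (hn h)), ?_⟩
      refine (card_le_card (t := Λ.erase j) fun i hi => ?_).trans (by rw [card_erase_of_mem hj, hs]; rfl)
      rw [mem_lv] at hi
      exact mem_erase.2 ⟨fun e => hi.2 (e ▸ h3), by_contra fun h => hi.2 (hR.1 i hi.1 h)⟩)
    have hG : ∀ t : Vo K n m Λ, Rel m n Λ (xs t.1) (zs e r (fm e r Λ ε t)) := fun t => by
      simpa only [one_smul] using rel_fm (e := e) hr hm h0 hε 1 t
    rw [Rel, not_and_or] at hR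
    simp only [not_forall] at hR
    rcases hR with ⟨k, h1, h2, h3⟩ | ⟨j, k, h1, h2, h3, h4, h5, h6⟩
    · refine sep_one none (f := fun t => ps m (zs e r t.2) k) (ps_mem k) h3 ?_
      rintro _ ⟨t, rfl⟩
      exact (hG t).1 k h1 h2
    · have hc : ∀ i, (fun t : (Fin n → Pt (fer K m)) × (τ → K) => xs t.1 k i ^ m) ∈
          (crd fun t : (Fin n → Pt (fer K m)) × (τ → K) => co _ (t.1 ⟨k, h2⟩)) ^ m := fun i => by
        simp only [xs, ex_lt _ _ h2]
        exact Submodule.pow_mem_pow _ (crd_mem (fun t : (Fin n → Pt (fer K m)) × (τ → K) =>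
          co _ (t.1 ⟨k, h2⟩)) i) m
      refine sep_sub (some ⟨k, h2⟩) none (f := fun t => xs t.1 k 0 ^ m)
        (f' := fun t => xs t.1 k 2 ^ m) (g := fun t => ps m (zs e r t.2) (k + 1))
        (g' := fun t => ps m (zs e r t.2) j) (hc 0) (hc 2) (ps_mem _) (ps_mem _) h6 ?_
      rintro _ ⟨t, rfl⟩
      exact (hG t).2 j k h1 h2 h3 h4 h5

theorem str_Zr [IsAlgClosed K] (hr : ∀ l, r l ≠ 0) (hm : m ≠ 0) (s : ℕ) :
    Str (fun i (t : Fin n → Pt (fer K m)) => co _ (t i)) (Zr m e r s) := by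
  classical
  induction s with
  | zero =>
    suffices h : Zr m e r 0 = {0} from h ▸ Str.nil
    refine Set.ext fun y => ⟨fun h => funext fun l => ?_, ?_⟩
    · have h1 : ∀ k ≤ n, ps m (zs e r y) k = 0 := fun k hk => by_contra fun h' =>
        notMem_empty k (card_eq_zero.1 (Nat.le_zero.1 h.2) ▸ mem_lv.2 ⟨hk, h'⟩)
      have h2 := h1 _ (e.symm l).2
      rw [ps_succ, h1 _ (e.symm l).2.le, zero_add, pow_eq_zero_iff hm, zs, ex_val,
        e.apply_symm_apply] at h2
      exact (mul_eq_zero.1 h2).resolve_left (hr l)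
    · rintro rfl
      have h1 : ∀ k, ps m (zs e r 0) k = 0 := fun k => sum_eq_zero fun i _ => by
        simp [zs, ex, hm]
      exact ⟨h1 n, by simp [lv, h1]⟩
  | succ s ih =>
    have hf : {p : Finset ℕ × (Fin n → K) | (0 ∉ p.1 ∧ p.1 ⊆ range n ∧ #p.1 = s + 1) ∧
        ∀ k, p.2 k ^ m = -1}.Finite := by
      refine (((range n).powerset.finite_toSet).prod (Set.Finite.pi' fun _ : Fin n =>
        ((Polynomial.nthRoots m (-1 : K)).toFinset).finite_toSet)).subset fun p hp => ⟨?_, fun k => ?_⟩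
      · exact mem_coe.2 (mem_powerset.2 hp.1.2.1)
      · simpa [Polynomial.mem_nthRoots (Nat.pos_of_ne_zero hm)] using hp.2 k
    convert ih.union (Str.biUnion hf fun p hp =>
      str_step hr hm hp.1.1 hp.1.2.1 hp.2 hp.1.2.2 ih)
    refine Set.ext fun y => ⟨fun h => ?_, ?_⟩
    · rcases h.2.lt_or_eq with h1 | h1
      · exact Or.inl ⟨h.1, Nat.lt_succ_iff.1 h1⟩
      obtain ⟨ε, x, h2, h3, h4, h5⟩ := onto hm (fun _ => mem_lv (e := e) (r := r) (y := y))
        (card_pos.1 ((Nat.succ_pos s).trans_eq h1.symm))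
      have h6 : ∀ k : Fin n, ∃ t, Par (x k) (co (fer K m) t) := fun k =>
        exists_pt fer_hom (fun e => h4 k (by simp [e])) (by rw [eval_fer, h3, sub_self])
      choose t c hc ht using h6
      have h7 : ∀ k < n, ex 1 (fun k => (c k)⁻¹) k ≠ 0 ∧ xs t k = ex 1 (fun k => (c k)⁻¹) k • x k :=
        fun k hk => by
        rw [xs, ex_lt _ _ hk, ex_lt _ _ hk, ht ⟨k, hk⟩, smul_smul, inv_mul_cancel₀ (hc _).ne_zero,
          one_smul]
        exact ⟨inv_ne_zero (hc _).ne_zero, rfl⟩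
      obtain ⟨a, ha, h8⟩ := h5 (ex 0 fun k : Fin n => ε k) (xs t) _ (fun k hk => ex_lt _ _ hk) h7
      refine Or.inr (Or.inr (Set.mem_biUnion (x := (lv m e r y, fun k : Fin n => ε k))
        ⟨⟨fun h0 => (mem_lv.1 h0).2 (by simp [ps]), fun k hk => mem_range.2
          ((mem_lv.1 hk).1.lt_of_ne fun e => (mem_lv.1 hk).2 (e ▸ h.1)), h1⟩, fun k => h2 k⟩
        (Or.inr ⟨a⁻¹, ⟨t, fun k hk _ => ?_⟩, funext fun l => ?_⟩)))
      · rw [(h7 k hk).2, Pi.smul_apply, Pi.smul_apply, smul_mul_smul_comm]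
        exact smul_ne_zero (mul_ne_zero (h7 k hk).1 (h7 k hk).1) (h4 k)
      · rw [Pi.smul_apply, fm, h8 _ (e.symm l).2, zs, ex_val, e.apply_symm_apply, smul_eq_mul]
        have := hr l
        field_simp
    · have hm' : ∀ y ∈ Zr m e r s, y ∈ Zr m e r (s + 1) := fun y h => ⟨h.1, h.2.trans s.le_succ⟩
      rintro (h | rfl | h)
      · exact hm' _ h
      · exact hm' _ ih.zero_mem
      obtain ⟨p, hp, h | ⟨a, t, rfl⟩⟩ := Set.mem_iUnion₂.1 h
      · exact hm' _ h
      have hR := rel_fm (e := e) hr hm hp.1.1 hp.2 a t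
      refine ⟨hR.1 n le_rfl fun h => lt_irrefl n (mem_range.1 (hp.1.2.1 h)),
        (card_le_card fun i hi => ?_).trans hp.1.2.2.le⟩
      rw [mem_lv] at hi
      exact by_contra fun h => hi.2 (hR.1 i hi.1 h)

/-- every diagonal hypersurface is in the class -/
theorem scov_diag [IsAlgClosed K] [Fintype τ] (hm : (m : K) ≠ 0) {a : τ → K} (ha : ∀ l, a l ≠ 0) :
    SCov (MvPolynomial.vanishingIdeal K {y : τ → K | ∑ l, a l * y l ^ m = 0}) := by
  have h0 : m ≠ 0 := by rintro rfl; simp at hm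
  choose r hr using fun l => IsAlgClosed.exists_pow_nat_eq (a l) (Nat.pos_of_ne_zero h0)
  let e := (Fintype.equivFin τ).symm
  refine ⟨Fintype.card τ, fun _ => Pt (fer K m), fun _ => Fin 3, fun _ => inferInstance,
    fun _ => co _, _, fun _ => curve_fer hm, ?_, rfl⟩
  convert str_Zr (e := e) (r := r) (fun l h => ha l (by rw [← hr, h, zero_pow h0])) h0
    (Fintype.card τ + 1)
  refine Set.ext fun y => ?_
  have : ps m (zs e r y) (Fintype.card τ) = ∑ l, a l * y l ^ m := by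
    rw [ps, sum_range, ← e.sum_comp]
    simp only [zs, ex_val, mul_pow, hr]
  rw [Zr, Set.mem_ofPred_eq, Set.mem_ofPred_eq, this, and_iff_left]
  classical
  exact (card_le_card (t := range (Fintype.card τ + 1)) fun k hk =>
    mem_range.2 (Nat.lt_succ_of_le (mem_lv.1 hk).1)).trans (card_range _).le

end Pool.Agent.Tav.Fs
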