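import Pool.Agent.P.MP_2ce3e7_ag.Tav.Stmt0

/-! Curves and images of products of curves. -/

set_option autoImplicit false

noncomputable section

namespace Pool.Agent.Tav

open MvPolynomial Set Function

variable {K : Type} [Field K]

/-- the image of `c` in projective space is a smooth irreducible curve -/
structure Curve {T σ : Type} [Fintype σ] (c : T → σ → K) : Prop where
  ne : ∀ t, c t ≠ 0
  inj : ∀ t t', Par (c t) (c t') → t = t'
  cl : ∀ z ∈ zeroLocus K (idl c), z ≠ 0 → ∃ t, Par z (c t)
  irr : (idl c).IsPrime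
  dim : (hp ![crd c]).totalDegree = 1
  sm : ∀ t, Module.finrank K (⨅ f ∈ idl c, LinearMap.ker
    (∑ l, eval (c t) (pderiv l f) • LinearMap.proj (R := K) (φ := fun _ => K) l) :) ≤ 2

/-- `I` is the ideal of the cone over the image of a product of curves under a regular map -/
def Cov {τ : Type} (I : Ideal (MvPolynomial τ K)) : Prop :=
  ∃ (n : ℕ) (T σ : Fin n → Type) (_ : ∀ i, Fintype (σ i)) (c : ∀ i, T i → σ i → K)
    (f : (∀ i, T i) → τ → K), (∀ i, Curve (c i)) ∧ (∀ t, f t ≠ 0) ∧
    Rg (fun i => crd fun t : ∀ i, T i => c i (t i)) (crd f) ∧ idl f = I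

end Pool.Agent.Tav
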