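import Pool.Agent.P.MP_2ce3e7_ag.Tav.SdPrime
import Pool.Agent.P.MP_2ce3e7_ag.Tav.CvStmt
import Pool.Agent.P.MP_2ce3e7_ag.CW0

/-! Diagonal hypersurfaces: smooth charts, and the ideal of the set of points. -/

set_option autoImplicit false

noncomputable section

namespace Pool.Agent.Tav.Fer

open MvPolynomial

variable {k : Type} [Field k] {σ : Type} [Fintype σ]

lemma aeval_dg {B : Type} [CommRing B] [Algebra k B] (a : σ → k) (y : σ → B) (m : ℕ) :
    aeval y (dg a m) = ∑ i, algebraMap k B (a i) * y i ^ m := by simp [dg]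

lemma one_add_pow_sq {B : Type} [CommRing B] {η : B} (h : η * η = 0) (m : ℕ) :
    (1 + η) ^ m = 1 + m * η := by
  induction m with
  | zero => simp
  | succ m ih =>
    rw [pow_succ, ih]
    push_cast
    linear_combination (m : B) * h

/-- the standard affine charts of a diagonal hypersurface are smooth -/
theorem smooth_dg {a : σ → k} (ha : ∀ i, a i ≠ 0) {m : ℕ} (hm : (m : k) ≠ 0) (i : σ) :
    Algebra.Smooth k ((MvPolynomial σ k ⧸ Ideal.span {dg a m}) ⧸
      Ideal.span {CXD.crd (Ideal.span {dg a m}) i - 1}) := by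
  classical
  set J : Ideal (MvPolynomial σ k) := Ideal.span {dg a m} with hJ
  set J' : Ideal (MvPolynomial σ k ⧸ J) := Ideal.span {CXD.crd J i - 1} with hJ'
  have hft : Algebra.FiniteType k ((MvPolynomial σ k ⧸ J) ⧸ J') :=
    .of_surjective ((Ideal.Quotient.mkₐ k J').comp (Ideal.Quotient.mkₐ k J))
      ((Ideal.Quotient.mkₐ_surjective k J').comp (Ideal.Quotient.mkₐ_surjective k J))
  have hfp := (Algebra.FinitePresentation.of_finiteType (R := k)
    (A := (MvPolynomial σ k ⧸ J) ⧸ J')).1 hft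
  refine ⟨.of_comp_surjective fun B _ _ I hI g => ?_, hfp⟩
  let π : MvPolynomial σ k →ₐ[k] ((MvPolynomial σ k ⧸ J) ⧸ J') :=
    (Ideal.Quotient.mkₐ k J').comp (Ideal.Quotient.mkₐ k J)
  have hπ : Function.Surjective π :=
    (Ideal.Quotient.mkₐ_surjective k J').comp (Ideal.Quotient.mkₐ_surjective k J)
  have hπi : π (X i) = 1 := by
    have : Ideal.Quotient.mk J' (CXD.crd J i - 1) = 0 :=
      Ideal.Quotient.eq_zero_iff_mem.2 (Ideal.subset_span rfl)
    rw [map_sub, map_one, sub_eq_zero] at this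
    exact this
  have hπF : π (dg a m) = 0 := by
    have : Ideal.Quotient.mk J (dg a m) = 0 :=
      Ideal.Quotient.eq_zero_iff_mem.2 (Ideal.subset_span rfl)
    simp [π, this]
  choose y0 hy0 using fun l => Ideal.Quotient.mk_surjective (g (π (X l)))
  let y : σ → B := Function.update y0 i 1
  have hy : ∀ l, Ideal.Quotient.mk I (y l) = g (π (X l)) := fun l => by
    by_cases h : l = i
    · subst h
      simp [y, hπi]
    · simp [y, h, hy0]
  have hyi : y i = 1 := by simp [y]
  set ε : B := aeval y (dg a m) with hε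
  have hcomp : (Ideal.Quotient.mkₐ k I).comp (aeval y) = g.comp π :=
    MvPolynomial.algHom_ext fun l => by simpa using hy l
  have hεI : ε ∈ I := by
    rw [← Ideal.Quotient.eq_zero_iff_mem]
    have := AlgHom.congr_fun hcomp (dg a m)
    rw [AlgHom.comp_apply, AlgHom.comp_apply, hπF, map_zero] at this
    exact this
  have hεε : ε * ε = 0 := by
    have : ε * ε ∈ I ^ 2 := by rw [pow_two]; exact Ideal.mul_mem_mul hεI hεI
    simpa [hI] using this
  set c : B := algebraMap k B ((m : k) * a i)⁻¹ with hc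
  have hc1 : c * (m * algebraMap k B (a i)) = 1 := by
    rw [hc, ← map_natCast (algebraMap k B), ← map_mul, ← map_mul,
      inv_mul_cancel₀ (mul_ne_zero hm (ha i)), map_one]
  have hη : (c * ε) * (c * ε) = 0 := by linear_combination c * c * hεε
  let v : σ → B := Function.update (fun l => y l * (1 + c * ε)) i 1
  have hvi : v i = 1 := by simp [v]
  have hv : ∀ l, Ideal.Quotient.mk I (v l) = g (π (X l)) := fun l => by
    by_cases h : l = i
    · subst h
      simp [v, hπi]
    · simp [v, h, hy, Ideal.Quotient.eq_zero_iff_mem.2 hεI]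
  have hvF : aeval v (dg a m) = 0 := by
    have h1 : ε = algebraMap k B (a i) +
        ∑ l ∈ Finset.univ.erase i, algebraMap k B (a l) * y l ^ m := by
      rw [hε, aeval_dg, ← Finset.add_sum_erase _ _ (Finset.mem_univ i), hyi, one_pow, mul_one]
    have h2 : ∑ l ∈ Finset.univ.erase i, algebraMap k B (a l) * v l ^ m =
        (1 + m * (c * ε)) * ∑ l ∈ Finset.univ.erase i, algebraMap k B (a l) * y l ^ m := by
      rw [Finset.mul_sum]
      refine Finset.sum_congr rfl fun l hl => ?_
      have hl' : l ≠ i := Finset.ne_of_mem_erase hl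
      simp only [v, Function.update_of_ne hl', mul_pow, one_add_pow_sq hη]
      ring
    rw [aeval_dg, ← Finset.add_sum_erase _ _ (Finset.mem_univ i), hvi, one_pow, mul_one, h2,
      show ∑ l ∈ Finset.univ.erase i, algebraMap k B (a l) * y l ^ m =
        ε - algebraMap k B (a i) by rw [h1]; ring]
    linear_combination (m * c) * hεε - ε * hc1
  let φ1 : (MvPolynomial σ k ⧸ J) →ₐ[k] B := Ideal.Quotient.liftₐ J (aeval v) fun f hf => by
    obtain ⟨r, rfl⟩ := Ideal.mem_span_singleton'.1 hf
    simp [hvF]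
  have hφ1 : ∀ l, φ1 (Ideal.Quotient.mk J (X l)) = v l := fun l => by simp [φ1]
  let φ : ((MvPolynomial σ k ⧸ J) ⧸ J') →ₐ[k] B := Ideal.Quotient.liftₐ J' φ1 fun f hf => by
    obtain ⟨r, rfl⟩ := Ideal.mem_span_singleton'.1 hf
    simp [CXD.crd, hφ1, hvi]
  refine ⟨φ, ?_⟩
  have h3 : ((Ideal.Quotient.mkₐ k I).comp φ).comp π = g.comp π :=
    MvPolynomial.algHom_ext fun l => by
      have : φ (π (X l)) = v l := by simp [φ, π, hφ1]
      simp [this, hv]
  exact AlgHom.ext fun x => by
    obtain ⟨f, rfl⟩ := hπ x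
    exact AlgHom.congr_fun h3 f

variable {K : Type} [Field K]

omit [Fintype σ] in
lemma eval_smul_hom {F : MvPolynomial σ K} {m : ℕ} (hF : F.IsHomogeneous m) (c : K)
    (z : σ → K) : eval (c • z) F = c ^ m * eval z F := by
  conv_lhs => rw [F.as_sum]
  conv_rhs => rw [F.as_sum]
  simp only [map_sum, eval_monomial, Finset.mul_sum]
  refine Finset.sum_congr rfl fun d hd => ?_
  have h1 : d.degree = m := by
    rw [Finsupp.degree_eq_weight_one]
    exact hF (mem_support_iff.1 hd)
  simp only [Finsupp.prod, Pi.smul_apply, smul_eq_mul, mul_pow, Finset.prod_mul_distrib,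
    Finset.prod_pow_eq_pow_sum]
  rw [← h1, Finsupp.degree_apply]
  ring

/-- the points of the projective hypersurface `F = 0` -/
def Pt (F : MvPolynomial σ K) : Type := {x : Projectivization K (σ → K) // eval x.rep F = 0}

/-- coordinates of these points -/
def co (F : MvPolynomial σ K) (t : Pt F) : σ → K := t.1.rep

omit [Fintype σ] in
lemma co_ne (F : MvPolynomial σ K) (t : Pt F) : co F t ≠ 0 := t.1.rep_nonzero

omit [Fintype σ] in
lemma co_zero (F : MvPolynomial σ K) (t : Pt F) : eval (co F t) F = 0 := t.2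

omit [Fintype σ] in
lemma co_inj (F : MvPolynomial σ K) (t t' : Pt F) (h : Par (co F t) (co F t')) : t = t' := by
  obtain ⟨c, hc, h⟩ := h
  apply Subtype.ext
  rw [← Projectivization.mk_rep t.1, ← Projectivization.mk_rep t'.1,
    Projectivization.mk_eq_mk_iff]
  exact ⟨hc.unit, h.symm⟩

omit [Fintype σ] in
lemma co_onto {F : MvPolynomial σ K} {m : ℕ} (hF : F.IsHomogeneous m) {z : σ → K} (hz : z ≠ 0)
    (h0 : eval z F = 0) : ∃ t, Par z (co F t) := by
  obtain ⟨u, hu⟩ := Projectivization.exists_smul_eq_mk_rep K z hz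
  refine ⟨⟨Projectivization.mk K z hz, ?_⟩, (u⁻¹ : Kˣ), Units.isUnit _, ?_⟩
  · rw [← hu, Units.smul_def, eval_smul_hom hF, h0, mul_zero]
  · change z = ((u⁻¹ : Kˣ) : K) • (Projectivization.mk K z hz).rep
    rw [← hu, Units.smul_def, smul_smul]
    simp

/-- the ideal of the cone over the points of a prime form with a nonzero zero -/
theorem idl_co [IsAlgClosed K] {F : MvPolynomial σ K} {m : ℕ} (hF : F.IsHomogeneous m)
    (hp : Prime F) (h0 : ∃ z : σ → K, z ≠ 0 ∧ eval z F = 0) : idl (co F) = Ideal.span {F} := by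
  rw [← van_prime hp, idl]
  congr 1
  ext z
  simp only [Set.mem_ofPred_eq]
  constructor
  · rintro ⟨c, t, rfl⟩
    rw [eval_smul_hom hF, co_zero, mul_zero]
  · intro hz
    by_cases h : z = 0
    · obtain ⟨w, hw, hw0⟩ := h0
      obtain ⟨t, -⟩ := co_onto hF hw hw0
      exact ⟨0, t, by simp [h]⟩
    · obtain ⟨t, c, -, hc⟩ := co_onto hF h hz
      exact ⟨c, t, hc⟩

/-- the ideal of a diagonal hypersurface over the algebraic closure -/
theorem map_span_dg [Algebra k K] [IsAlgClosed K] (h3 : 3 ≤ Fintype.card σ) {a : σ → k}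
    (ha : ∀ i, a i ≠ 0) {m : ℕ} (hm : (m : k) ≠ 0) :
    (Ideal.span {dg a m}).map (map (algebraMap k K)) =
      idl (co (dg (fun i => algebraMap k K (a i)) m)) := by
  have ha' : ∀ i, algebraMap k K (a i) ≠ 0 := fun i => by simpa using ha i
  have hm' : (m : K) ≠ 0 := by
    rw [← map_natCast (algebraMap k K)]
    exact (map_ne_zero _).2 hm
  have hm0 : m ≠ 0 := by rintro rfl; simp at hm
  rw [idl_co (hom_dg _ m) (prime_dg h3 ha' hm') (zero_dg (by omega) ha' hm0), Ideal.map_span,
    Set.image_singleton, map_dg]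

end Pool.Agent.Tav.Fer
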