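import Pool.Agent.P.MP_2ce3e7_ag.Tav.TiEqvD

/-! Calculus of equivalent linear systems; sections on a complete source. -/

set_option autoImplicit false

noncomputable section

namespace Pool.Agent.Tav

open MvPolynomial Module

variable {Ω : Type} [Field Ω] {T Y : Type} {β γ ν κ : Type}
  [Fintype β] [Fintype γ] [Fintype ν] [Fintype κ]
  {B : β → LS Ω T} {mu mu' : T → Ω} {U U' U'' V V' H : LS Ω T}

theorem Reg.mul (h : Reg B U) (h' : Reg B V) : Reg B (U * V) := by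
  intro t
  obtain ⟨e, l, hl, h1⟩ := h t
  obtain ⟨e', l', hl', h2⟩ := h' t
  refine ⟨e + e', l * l', mul_ne_zero hl hl', fun u hu => ?_⟩
  refine Submodule.mul_induction_on hu (fun a ha b hb => ?_) fun a b ha hb => ?_
  · rw [mul_mul_mul_comm]
    exact mul_mem_pc (h1 a ha) (h2 b hb)
  · rw [mul_add]
    exact Submodule.add_mem _ ha hb

theorem Reg.pow (h : Reg B U) (n : ℕ) : Reg B (U ^ n) := by
  induction n with
  | zero => rw [pow_zero]; exact Reg.one B
  | succ n ih => rw [pow_succ]; exact ih.mul h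

theorem Reg.prod {ι : Type} {s : Finset ι} {W : ι → LS Ω T} (h : ∀ i ∈ s, Reg B (W i)) :
    Reg B (∏ i ∈ s, W i) := 
  Finset.prod_induction W (Reg B) (fun _ _ => Reg.mul) (Reg.one B) h

theorem Reg.pcL (B : β → LS Ω T) (d : β → ℕ) : Reg B (pcL B d) := 
  Reg.prod fun i _ => (Reg.self B i).pow _

/-- a factor of a regular system whose cofactor is regular -/
theorem Reg.of_mul (h : Reg B (U * V)) (_h' : Reg B V) : Reg B U := by
  intro t
  obtain ⟨e, l, hl, h1⟩ := h t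
  obtain ⟨v, hv, h0⟩ := V.nv t
  refine ⟨e, l * v, mul_ne_zero hl h0, fun u hu => ?_⟩
  rw [mul_assoc, mul_comm v]
  exact h1 _ (Submodule.mul_mem_mul hu hv)

theorem LS.tw_mul (a : Ω ≃+* Ω) (U V : LS Ω T) : (U * V).tw a = U.tw a * V.tw a := 
  LS.ext' (by rw [tw_sp, LS.mul_sp, LS.mul_sp, twS_mul, tw_sp, tw_sp])

theorem LS.tw_one (a : Ω ≃+* Ω) : (1 : LS Ω T).tw a = 1 := 
  LS.ext' (by rw [tw_sp, LS.one_sp, twS_one])

theorem LS.tw_pow (a : Ω ≃+* Ω) (U : LS Ω T) (n : ℕ) : (U ^ n).tw a = U.tw a ^ n := by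
  induction n with
  | zero => rw [pow_zero, pow_zero, LS.tw_one]
  | succ n ih => rw [pow_succ, pow_succ, LS.tw_mul, ih]

theorem LS.tw_prod {ι : Type} (a : Ω ≃+* Ω) (s : Finset ι) (W : ι → LS Ω T) :
    (∏ i ∈ s, W i).tw a = ∏ i ∈ s, (W i).tw a := 
  map_prod ({ toFun := LS.tw a, map_one' := LS.tw_one a, map_mul' := LS.tw_mul a } :
    LS Ω T →* LS Ω T) W s

theorem sg_mul (a b : T → Ω) :
    Submodule.span Ω {a * b} = Submodule.span Ω {a} * Submodule.span Ω {b} := by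
  rw [Submodule.span_mul_span, Set.singleton_mul_singleton]

theorem eqv_iff : Eqv B mu U U' ↔ (∀ t, mu t ≠ 0) ∧ ∃ W : LS Ω T, Reg B W ∧
    Submodule.span Ω {mu} * (U.sp * W.sp) = U'.sp * W.sp := by
  simp only [Eqv, map_mulLeft_eq, LS.mul_sp]

theorem Eqv.ne (h : Eqv B mu U U') (t : T) : mu t ≠ 0 := h.1 t
theorem Eqv.of_map (B : β → LS Ω T) (hmu : ∀ t, mu t ≠ 0)
    (h : U.sp.map (LinearMap.mulLeft Ω mu) = U'.sp) : Eqv B mu U U' := 
  ⟨hmu, 1, Reg.one B, by rw [mul_one, mul_one, h]⟩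

theorem LS.Sim.eqv (B : β → LS Ω T) (h : U.Sim U') : ∃ mu, Eqv B mu U U' := by
  obtain ⟨l, hl, e⟩ := h
  exact ⟨l, Eqv.of_map B hl e.symm⟩

theorem Eqv.refl (B : β → LS Ω T) (U : LS Ω T) : Eqv B 1 U U := 
  Eqv.of_map B (fun _ => one_ne_zero) (by rw [LinearMap.mulLeft_one, Submodule.map_id])

theorem Eqv.symm (h : Eqv B mu U U') : Eqv B mu⁻¹ U' U := by
  obtain ⟨h0, W, hW, e⟩ := eqv_iff.1 h
  refine eqv_iff.2 ⟨fun t => inv_ne_zero (h0 t), W, hW, ?_⟩
  have h1 : mu⁻¹ * mu = 1 := funext fun t => inv_mul_cancel₀ (h0 t)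
  rw [← e, ← mul_assoc, ← sg_mul, h1, ← Submodule.one_eq_span, one_mul]

theorem Eqv.trans (h : Eqv B mu U U') (h' : Eqv B mu' U' U'') : Eqv B (mu' * mu) U U'' := by
  obtain ⟨h0, W, hW, e⟩ := eqv_iff.1 h
  obtain ⟨h0', W', hW', e'⟩ := eqv_iff.1 h'
  refine eqv_iff.2 ⟨fun t => mul_ne_zero (h0' t) (h0 t), W * W', hW.mul hW', ?_⟩
  rw [sg_mul, LS.mul_sp]
  calc _ = Submodule.span Ω {mu'} * ((Submodule.span Ω {mu} * (U.sp * W.sp)) * W'.sp) := by
        simp only [mul_assoc]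
    _ = (Submodule.span Ω {mu'} * (U'.sp * W'.sp)) * W.sp := by
        rw [e]; simp only [mul_assoc, mul_comm W.sp]
    _ = _ := by rw [e']; simp only [mul_assoc, mul_comm W.sp]

theorem Eqv.mul (h : Eqv B mu U U') (h' : Eqv B mu' V V') :
    Eqv B (mu * mu') (U * V) (U' * V') := by
  obtain ⟨h0, W, hW, e⟩ := eqv_iff.1 h
  obtain ⟨h0', W', hW', e'⟩ := eqv_iff.1 h'
  refine eqv_iff.2 ⟨fun t => mul_ne_zero (h0 t) (h0' t), W * W', hW.mul hW', ?_⟩
  rw [sg_mul, LS.mul_sp, LS.mul_sp, LS.mul_sp, mul_mul_mul_comm U.sp, mul_mul_mul_comm, e, e',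
    mul_mul_mul_comm]

theorem Eqv.pow (h : Eqv B mu U U') (n : ℕ) : Eqv B (mu ^ n) (U ^ n) (U' ^ n) := by
  induction n with
  | zero => simpa using Eqv.refl B 1
  | succ n ih => simpa only [pow_succ] using ih.mul h

theorem Eqv.prod {ι : Type} {s : Finset ι} {m : ι → T → Ω} {W W' : ι → LS Ω T}
    (h : ∀ i ∈ s, Eqv B (m i) (W i) (W' i)) :
    Eqv B (∏ i ∈ s, m i) (∏ i ∈ s, W i) (∏ i ∈ s, W' i) := by
  classical
  induction s using Finset.induction_on with
  | empty => simpa using Eqv.refl B 1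
  | insert a s ha ih =>
    rw [Finset.prod_insert ha, Finset.prod_insert ha, Finset.prod_insert ha]
    exact (h a (Finset.mem_insert_self _ _)).mul (ih fun i hi => h i (Finset.mem_insert_of_mem hi))

theorem Eqv.cancel (h : Eqv B mu (U * V) (U' * V)) (hV : Reg B V) : Eqv B mu U U' := by
  obtain ⟨h0, W, hW, e⟩ := h
  exact ⟨h0, V * W, hV.mul hW, by rwa [← mul_assoc, ← mul_assoc]⟩

theorem Eqv.smul (h : Eqv B mu U U') {c : Ω} (hc : c ≠ 0) : Eqv B (c • mu) U U' := by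
  obtain ⟨h0, W, hW, e⟩ := eqv_iff.1 h
  refine eqv_iff.2 ⟨fun t => mul_ne_zero hc (h0 t), W, hW, ?_⟩
  rwa [Submodule.span_singleton_smul_eq (IsUnit.mk0 c hc)]

theorem Eqv.congr (h : Eqv B mu U U') (e : mu = mu') (e₁ : U = V) (e₂ : U' = V') :
    Eqv B mu' V V' := e ▸ e₁ ▸ e₂ ▸ h
theorem Eqv.base {C : γ → LS Ω T} (h : Eqv C mu U U') (hC : ∀ k, Reg B (C k)) :
    Eqv B mu U U' := 
  ⟨h.1, h.2.imp fun _ hW => ⟨Reg.trans hC hW.1, hW.2⟩⟩

theorem Eqv.pb {C : γ → LS Ω Y} {m : Y → Ω} {W W' : LS Ω Y} (h : Eqv C m W W') (j : T → Y)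
    (hj : ∀ k, Reg B ((C k).pb j)) : Eqv B (fun t => m (j t)) (W.pb j) (W'.pb j) := by
  obtain ⟨h0, Z, hZ, e⟩ := eqv_iff.1 h
  refine eqv_iff.2 ⟨fun t => h0 (j t), Z.pb j, Reg.trans hj (hZ.pb j), ?_⟩
  have := congrArg (Submodule.map (pbA Ω j).toLinearMap) e
  rw [Submodule.map_mul, Submodule.map_mul, Submodule.map_mul, Submodule.map_span,
    Set.image_singleton] at this
  exact this

theorem Eqv.tw (h : Eqv B mu U U') (a : Ω ≃+* Ω) :
    Eqv (fun i => (B i).tw a) (fun t => a (mu t)) (U.tw a) (U'.tw a) := by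
  obtain ⟨h0, Z, hZ, e⟩ := eqv_iff.1 h
  refine eqv_iff.2 ⟨fun t => by simpa using h0 t, Z.tw a, hZ.tw a, ?_⟩
  have := congrArg (twS a) e
  rw [twS_mul, twS_mul, twS_mul, twS_span, Set.image_singleton] at this
  rwa [tw_sp, tw_sp, tw_sp]

theorem Eqv.reg (h : Eqv B mu U U') (hU : Reg B U) : Reg B U' := by
  obtain ⟨h0, W, hW, e⟩ := h
  exact ((hU.mul hW).sim ⟨mu, h0, e.symm⟩).of_mul hW

/-- the shape of `ParLaw` -/
theorem Eqv.of_bpf {e : β → ℕ} {S : Submodule Ω (T → Ω)} (h : Bpf B e S) (hmu : ∀ t, mu t ≠ 0)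
    (hS : S = U.sp.map (LinearMap.mulLeft Ω mu)) : Eqv B mu U (pcL B e) := by
  obtain ⟨N, hN⟩ := h
  refine eqv_iff.2 ⟨hmu, pcL B fun _ => N, Reg.pcL B _, ?_⟩
  rw [pcL_sp, pcL_sp, ← mul_assoc, ← map_mulLeft_eq, ← hS, hN _ fun _ => le_rfl, pc_add, mul_comm]

theorem Dom.sp (hB : Dom B) (hU : Reg B U) (hV : Reg B V) {f g : T → Ω} (hf : f ∈ U.sp)
    (hg : g ∈ V.sp) (h : f * g = 0) : f = 0 ∨ g = 0 := by
  have h1 : Dom ![U, V] := hB.of_reg fun k => by fin_cases k <;> assumption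
  refine h1 (Pi.single 0 1) (Pi.single 1 1) f ?_ g ?_ h
  · rwa [pc_single, pow_one]
  · rwa [pc_single, pow_one]

theorem const_of_stable [IsAlgClosed Ω] (hB : Dom B) (hU : Reg B U) (h0 : ∀ t, mu t ≠ 0)
    (h : ∀ u ∈ U.sp, mu * u ∈ U.sp) : ∃ c : Ω, c ≠ 0 ∧ ∀ t, mu t = c := by
  rcases isEmpty_or_nonempty T with hT | ⟨⟨t₀⟩⟩
  · exact ⟨1, one_ne_zero, fun t => hT.elim t⟩
  obtain ⟨u₀, hu₀, h1⟩ := U.nv t₀
  have : Nontrivial U.sp := ⟨⟨⟨u₀, hu₀⟩, 0, fun e => h1 (congrFun (congrArg Subtype.val e) t₀)⟩⟩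
  obtain ⟨c, hc⟩ := Module.End.exists_eigenvalue ((LinearMap.mulLeft Ω mu).restrict h)
  obtain ⟨f, hf⟩ := hc.exists_hasEigenvector
  have h2 : mu * f = c • (f : T → Ω) := congrArg Subtype.val hf.apply_eq_smul
  have key : ∀ t, mu t = c := fun t => by
    obtain ⟨g, hg, h3⟩ := U.nv t
    rcases hB.sp hU hU f.2 (U.sp.sub_mem (h g hg) (U.sp.smul_mem c hg)) (by
      rw [mul_sub, mul_left_comm, ← mul_assoc, h2, smul_mul_assoc, mul_smul_comm, sub_self])
      with h4 | h4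
    · exact absurd (Subtype.ext h4) hf.2
    · have := congrFun h4 t
      rw [Pi.sub_apply, Pi.mul_apply, Pi.smul_apply, smul_eq_mul, Pi.zero_apply, ← sub_mul] at this
      exact sub_eq_zero.1 ((mul_eq_zero.1 this).resolve_right h3)
  exact ⟨c, key t₀ ▸ h0 t₀, key⟩

theorem Eqv.const [IsAlgClosed Ω] (hB : Dom B) (hU : Reg B U) (h : Eqv B mu U U) :
    ∃ c : Ω, c ≠ 0 ∧ ∀ t, mu t = c := by
  obtain ⟨h0, W, hW, e⟩ := h
  exact const_of_stable hB (hU.mul hW) h0 fun u hu => e ▸ ⟨u, hu, rfl⟩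

/-- UNIT -/
theorem Eqv.unit [IsAlgClosed Ω] (hB : Dom B) (hU : Reg B U) (h : Eqv B mu U U')
    (h' : Eqv B mu' U U') : ∃ c : Ω, c ≠ 0 ∧ mu = c • mu' := by
  obtain ⟨c, hc, e⟩ := (h.trans h'.symm).const hB hU
  refine ⟨c, hc, funext fun t => ?_⟩
  have := e t
  rw [Pi.mul_apply, Pi.inv_apply, inv_mul_eq_iff_eq_mul₀ (h'.1 t)] at this
  rw [this, Pi.smul_apply, smul_eq_mul, mul_comm]

theorem mix_update_mul [DecidableEq ν] {W : ν → LS Ω T} {n : ℕ} (hB : Src B n)
    (hW : ∀ k, Reg B (W k)) (hn : n ≤ Fintype.card ν) (i : ν) (hU : Reg B U) (hV : Reg B V) :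
    mix B (Function.update W i (U * V)) =
      mix B (Function.update W i U) + mix B (Function.update W i V) := by
  have h1 : ∀ k, Reg B (![U, V] k) := fun k => by fin_cases k <;> assumption
  have := mix_rel hB hW hn i (V := fun _ : Unit => U * V) (V' := ![U, V]) (fun _ => hU.mul hV) h1
    (Bpf.self _ fun _ => 1) (Bpf.self _ fun _ => 1) (lam := 1) (fun _ => one_ne_zero)
    (by simp [pc, Fin.prod_univ_two])
  simpa [Fin.sum_univ_two] using this

theorem mix_slots {W W' : ν → LS Ω T} (c : ν → ℚ)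
    (step : ∀ [DecidableEq ν] (Z : ν → LS Ω T) (i : ν), (∀ k, Z k = W k ∨ Z k = W' k) →
      mix B (Function.update Z i (W' i)) = c i * mix B (Function.update Z i (W i))) :
    mix B W' = (∏ k, c k) * mix B W := by
  classical
  have key : ∀ s : Finset ν, mix B (s.piecewise W' W) = (∏ k ∈ s, c k) * mix B W := by
    intro s
    induction s using Finset.induction_on with
    | empty => simp
    | insert a s ha ih =>
      have e : Function.update (s.piecewise W' W) a (W a) = s.piecewise W' W := by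
        rw [Function.update_eq_self_iff, Finset.piecewise_eq_of_notMem _ _ _ ha]
      rw [Finset.piecewise_insert, step _ a, e, ih, Finset.prod_insert ha, mul_assoc]
      intro k
      by_cases hk : k ∈ s
      · exact Or.inr (Finset.piecewise_eq_of_mem _ _ _ hk)
      · exact Or.inl (Finset.piecewise_eq_of_notMem _ _ _ hk)
  simpa using key Finset.univ

/-- NUM -/
theorem Eqv.mix_update [DecidableEq ν] {W : ν → LS Ω T} {n : ℕ} (hB : Src B n)
    (hW : ∀ k, Reg B (W k)) (hn : n ≤ Fintype.card ν) (i : ν) (hU : Reg B U) (h : Eqv B mu U U') :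
    mix B (Function.update W i U) = mix B (Function.update W i U') := by
  have hU' := h.reg hU
  obtain ⟨h0, Z, hZ, e⟩ := h
  have h1 : mix B (Function.update W i (U * Z)) = mix B (Function.update W i (U' * Z)) := by
    refine mix_sim (fun _ => LS.Sim.refl _) fun k => ?_
    by_cases hk : k = i
    · subst hk
      rw [Function.update_self, Function.update_self]
      exact ⟨mu, h0, e.symm⟩
    · rw [Function.update_of_ne hk, Function.update_of_ne hk]
      exact LS.Sim.refl _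
  rw [mix_update_mul hB hW hn i hU hZ, mix_update_mul hB hW hn i hU' hZ] at h1
  exact add_right_cancel h1

theorem mix_eqv {W W' : ν → LS Ω T} {n : ℕ} (hB : Src B n) (hW : ∀ k, Reg B (W k))
    (hn : n ≤ Fintype.card ν) (h : ∀ k, ∃ m, Eqv B m (W k) (W' k)) : mix B W = mix B W' := by
  choose m hm using h
  have := mix_slots (B := B) (W := W) (W' := W') (fun _ => 1) fun Z i hZ => by
    rw [one_mul]
    refine ((hm i).mix_update hB (fun k => ?_) hn i (hW i)).symm
    rcases hZ k with e | e <;> rw [e]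
    exacts [hW k, (hm k).reg (hW k)]
  simpa using this.symm

theorem mix_update_pow [DecidableEq ν] {W : ν → LS Ω T} {n : ℕ} (hB : Src B n)
    (hW : ∀ k, Reg B (W k)) (hn : n ≤ Fintype.card ν) (i : ν) (hU : Reg B U) (m : ℕ) :
    mix B (Function.update W i (U ^ m)) = m * mix B (Function.update W i U) := by
  induction m with
  | zero => rw [pow_zero, LS.one_eq, mix_one hB hW hn, Nat.cast_zero, zero_mul]
  | succ m ih => rw [pow_succ, mix_update_mul hB hW hn i (hU.pow m) hU, ih]; push_cast; ring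

theorem mix_pow {W : ν → LS Ω T} {n : ℕ} (hB : Src B n) (hW : ∀ k, Reg B (W k))
    (hn : n ≤ Fintype.card ν) (m : ν → ℕ) :
    mix B (fun k => W k ^ m k) = (∏ k, (m k : ℚ)) * mix B W := 
  mix_slots (W := W) (W' := fun k => W k ^ m k) (fun k => (m k : ℚ)) fun Z i hZ => by
    refine mix_update_pow hB (fun k => ?_) hn i (hW i) (m i)
    rcases hZ k with e | e <;> rw [e]
    exacts [hW k, (hW k).pow _]

/-! sections -/
theorem pow_le_Gam (H : LS Ω T) (d m : ℕ) : (H ^ m).sp ≤ Gam H d m := fun f hf =>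
  mem_Gam.2 fun v hv => by
    rw [add_comm, pow_add]
    exact Submodule.mul_mem_mul hf hv

theorem mul_mem_of_Gam {d m : ℕ} {f : T → Ω} (hf : f ∈ Gam H d m) (k : ℕ) {v : T → Ω}
    (hv : v ∈ (H ^ (d + k)).sp) : f * v ∈ (H ^ (d + k + m)).sp := by
  rw [pow_add] at hv
  rw [add_right_comm, pow_add]
  refine Submodule.mul_induction_on hv (fun a ha b hb => ?_) fun a b ha hb => ?_
  · rw [← mul_assoc]
    exact Submodule.mul_mem_mul (mem_Gam.1 hf a ha) hb
  · rw [mul_add]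
    exact Submodule.add_mem _ ha hb

theorem Gam_mono (H : LS Ω T) {d d' : ℕ} (h : d ≤ d') (m : ℕ) : Gam H d m ≤ Gam H d' m := by
  obtain ⟨k, rfl⟩ := Nat.exists_eq_add_of_le h
  exact fun f hf => mem_Gam.2 fun v hv => mul_mem_of_Gam hf k hv

theorem mul_mem_Gam {d m m' : ℕ} {f g : T → Ω} (hf : f ∈ Gam H d m) (hg : g ∈ Gam H d m') :
    f * g ∈ Gam H d (m + m') := 
  mem_Gam.2 fun v hv => by
    have := mul_mem_of_Gam hf m' (mem_Gam.1 hg v hv)
    rwa [← mul_assoc, add_assoc, add_comm m'] at this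

theorem exists_inj_Gam (hB : Dom B) (hH : Reg B H) (d m : ℕ) :
    ∃ φ : Gam H d m →ₗ[Ω] (H ^ (d + m)).sp, Function.Injective φ := by
  rcases isEmpty_or_nonempty T with hT | ⟨⟨t₀⟩⟩
  · exact ⟨0, fun a b _ => Subtype.ext (funext fun t => hT.elim t)⟩
  obtain ⟨v₀, hv₀, h1⟩ := (H ^ d).nv t₀
  refine ⟨(LinearMap.mulRight Ω v₀).restrict fun f hf => mem_Gam.1 hf v₀ hv₀, ?_⟩
  rw [injective_iff_map_eq_zero]
  intro f hf
  have h2 : (f : T → Ω) * v₀ = 0 := congrArg Subtype.val hf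
  refine Subtype.ext (funext fun t => ?_)
  obtain ⟨v, hv, h3⟩ := (H ^ d).nv t
  rcases hB.sp (hH.pow _) (hH.pow _) (mem_Gam.1 f.2 v hv) hv₀
    (by rw [mul_right_comm, h2, zero_mul]) with h4 | h4
  · exact (mul_eq_zero.1 (congrFun h4 t)).resolve_right h3
  · exact absurd (congrFun h4 t₀) h1

theorem fd_Gam (hB : Dom B) (hH : Reg B H) (d m : ℕ) : FiniteDimensional Ω (Gam H d m) := by
  obtain ⟨φ, hφ⟩ := exists_inj_Gam hB hH d m
  exact Module.Finite.of_injective φ hφ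

theorem finrank_Gam_le (hB : Dom B) (hH : Reg B H) (d m : ℕ) :
    finrank Ω (Gam H d m) ≤ finrank Ω (H ^ (d + m)).sp := by
  obtain ⟨φ, hφ⟩ := exists_inj_Gam hB hH d m
  exact LinearMap.finrank_le_finrank_of_injective hφ

theorem Gam_nzd (hB : Dom B) (hH : Reg B H) {d m d' m' : ℕ} {f g : T → Ω} (hf : f ∈ Gam H d m)
    (hg : g ∈ Gam H d' m') (h : f * g = 0) : f = 0 ∨ g = 0 := by
  by_contra hc
  rw [not_or] at hc
  obtain ⟨t, ht⟩ := Function.ne_iff.1 hc.1
  obtain ⟨t', ht'⟩ := Function.ne_iff.1 hc.2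
  obtain ⟨v, hv, h1⟩ := (H ^ d).nv t
  obtain ⟨v', hv', h2⟩ := (H ^ d').nv t'
  rcases hB.sp (hH.pow _) (hH.pow _) (mem_Gam.1 hf v hv) (mem_Gam.1 hg v' hv')
    (by rw [mul_mul_mul_comm, h, zero_mul]) with h4 | h4
  · exact mul_ne_zero ht h1 (congrFun h4 t)
  · exact mul_ne_zero ht' h2 (congrFun h4 t')

theorem Reg.of_le_Gam (hH : Reg B H) {d m : ℕ} (h : U.sp ≤ Gam H d m) : Reg B U := by
  intro t
  obtain ⟨e, l, hl, h1⟩ := hH.pow (d + m) t
  obtain ⟨v, hv, h2⟩ := (H ^ d).nv t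
  refine ⟨e, l * v, mul_ne_zero hl h2, fun u hu => ?_⟩
  rw [mul_assoc, mul_comm v]
  exact h1 _ (mem_Gam.1 (h hu) v hv)

omit [Fintype β] in
theorem cmp_mul_X_zero [DecidableEq β] {σ : Type} (w : σ → β) (f : MvPolynomial σ Ω) (v : σ)
    {d : β → ℕ} (hd : d (w v) = 0) : weightedHomogeneousComponent (wN w) d (f * X v) = 0 := by
  refine weightedHomogeneousComponent_eq_zero' _ _ fun m hm e => ?_
  rw [support_mul_X, Finset.mem_map] at hm
  obtain ⟨m', -, rfl⟩ := hm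
  have := congrFun e (w v)
  rw [addRightEmbedding_apply, map_add, Finsupp.weight_single, Pi.add_apply, hd] at this
  simp [wN] at this

/-- LOC: a graded submodule without common zero on a complete source is everything in large degree -/
theorem Cmp.loc [IsAlgClosed Ω] (hB : Cmp B) (N : (β → ℕ) → Submodule Ω (T → Ω))
    (hN : ∀ d e, N d * pc B e ≤ N (d + e)) (h : ∀ t, ∃ e, ∃ g ∈ N e, g ∈ pc B e ∧ g t ≠ 0) :
    Lg fun d => pc B d ≤ N d := by
  obtain ⟨σ, _, _, w, x, h1, -, h2⟩ := hB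
  let J : Ideal (MvPolynomial σ Ω) :=
    { carrier := {f | ∀ d, aeval x (weightedHomogeneousComponent (wN w) d f) ∈ N d}
      add_mem' := fun {a b} ha hb d => by
        rw [map_add, map_add]
        exact (N d).add_mem (ha d) (hb d)
      zero_mem' := fun d => by
        rw [map_zero, map_zero]
        exact (N d).zero_mem
      smul_mem' := fun a f hf => by
        induction a using MvPolynomial.induction_on generalizing f with
        | C c =>
          intro d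
          rw [smul_eq_mul, C_mul', map_smul, map_smul]
          exact (N d).smul_mem c (hf d)
        | add p q hp hq =>
          intro d
          rw [add_smul, map_add, map_add]
          exact (N d).add_mem (hp f hf d) (hq f hf d)
        | mul_X p v hp =>
          rw [mul_smul]
          refine hp _ fun d => ?_
          rw [smul_eq_mul, mul_comm]
          rcases Nat.eq_zero_or_pos (d (w v)) with hd | hd
          · rw [cmp_mul_X_zero w f v hd, map_zero]
            exact (N d).zero_mem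
          · obtain ⟨d', rfl⟩ : ∃ d', d = d' + Pi.single (w v) 1 := by
              refine ⟨d - Pi.single (w v) 1, (tsub_add_cancel_of_le fun i => ?_).symm⟩
              by_cases hi : i = w v
              · subst hi
                rw [Pi.single_eq_same]
                exact hd
              · simp [Pi.single_eq_of_ne hi]
            rw [cmp_mul (X_mem_Sd v), map_mul]
            exact hN _ _ (Submodule.mul_mem_mul (hf d') ((Sl.mem_pc h1).2 ⟨_, X_mem_Sd v, rfl⟩)) }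
  have hJ : ∀ e, ∀ G ∈ Sd Ω w e, aeval x G ∈ N e → G ∈ J := fun e G hG h0 d => by
    by_cases hd : d = e
    · subst hd
      rwa [IsWeightedHomogeneous.weightedHomogeneousComponent_same hG]
    · rw [IsWeightedHomogeneous.weightedHomogeneousComponent_ne d hG hd, map_zero]
      exact (N d).zero_mem
  obtain ⟨M, hM⟩ := irr w J fun y hy => by
    by_contra hc
    have hz : Sl.Nz w y := fun b => by
      by_contra h0
      exact hc ⟨b, fun v hv => not_not.1 fun h1 => h0 ⟨v, hv, h1⟩⟩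
    obtain ⟨t, c, hc'⟩ := h2 y hz fun f hf => hy f (Ideal.span_le.2 (by
      rintro g ⟨h0, e, hg⟩
      exact hJ e g hg (h0 ▸ (N e).zero_mem)) hf)
    obtain ⟨e, g, hg, hg', h0⟩ := h t
    obtain ⟨G, hG, rfl⟩ := (Sl.mem_pc h1).1 hg'
    have h3 := hy G (hJ e G hG hg)
    rw [Sl.eval_scale hG c hc'] at h3
    refine mul_ne_zero (Finset.prod_ne_zero_iff.2 fun i _ => pow_ne_zero _ fun h4 => ?_) ?_ h3
    · obtain ⟨s, hs, h5⟩ := hz i
      exact h5 (by rw [hc' s, hs, h4, zero_mul])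
    · have := congrFun (aeval_fun (fun t s => x s t) G) t
      exact this ▸ h0
  refine ⟨M, fun d hd u hu => ?_⟩
  obtain ⟨G, hG, rfl⟩ := (Sl.mem_pc h1).1 hu
  have := hM G (fun m hm i => by
    rw [bpf_weight, hG (mem_support_iff.1 hm)]
    exact hd i) d
  rwa [IsWeightedHomogeneous.weightedHomogeneousComponent_same hG] at this

/-- NORM, multigraded, for a finite-dimensional space at once -/
theorem Cmp.norm_lg [IsAlgClosed Ω] (hB : Cmp B) {W : LS Ω T} (hW : Reg B W)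
    {S S' : Submodule Ω (T → Ω)} (h : S * W.sp ≤ S' * W.sp) :
    Lg fun d => S * pc B d ≤ S' * pc B d := by
  refine (hB.loc (fun d => (S' * pc B d) / S) (fun d e => ?_) fun t => ?_).mono fun d hd => ?_
  · rw [Submodule.le_div_iff_mul_le, mul_right_comm, pc_add, ← mul_assoc]
    exact mul_le_mul_left (Submodule.le_div_iff_mul_le.1 le_rfl) _
  · obtain ⟨e, l, hl, h1⟩ := hW t
    obtain ⟨v, hv, h2⟩ := W.nv t
    refine ⟨e, l * v, Submodule.mem_div_iff_forall_mul_mem.2 fun u hu => ?_, h1 v hv,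
      mul_ne_zero hl h2⟩
    rw [mul_assoc, mul_comm v]
    refine Submodule.mul_induction_on (h (Submodule.mul_mem_mul hu hv)) (fun a ha b hb => ?_)
      fun a b ha hb => ?_
    · rw [mul_left_comm]
      exact Submodule.mul_mem_mul ha (h1 b hb)
    · rw [mul_add]
      exact Submodule.add_mem _ ha hb
  · rw [mul_comm]
    exact Submodule.le_div_iff_mul_le.1 hd

/-- NORM -/
theorem Cmp.norm [IsAlgClosed Ω] (hB : Cmp B) {W : LS Ω T} (hW : Reg B W) {m : ℕ}
    {S : Submodule Ω (T → Ω)} (h : S * W.sp ≤ ((∏ i, B i) ^ m * W).sp) :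
    ∃ d, S ≤ Gam (∏ i, B i) d m := by
  obtain ⟨d, hd⟩ := hB.norm_lg hW h
  refine ⟨d, Submodule.le_div_iff_mul_le.2 ?_⟩
  rw [add_comm, pow_add, LS.mul_sp, prod_pow_sp B d]
  exact hd _ fun _ => le_rfl

/-- an equivalence holds with every large piece of the base as the auxiliary system -/
theorem Eqv.lg [IsAlgClosed Ω] (hB : Cmp B) (h : Eqv B mu U U') :
    Lg fun d => (U.sp * pc B d).map (LinearMap.mulLeft Ω mu) = U'.sp * pc B d := by
  obtain ⟨-, W, hW, e⟩ := eqv_iff.1 h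
  rw [← mul_assoc] at e
  refine ((hB.norm_lg hW e.le).and (hB.norm_lg hW e.ge)).mono fun d hd => ?_
  rw [map_mulLeft_eq, ← mul_assoc]
  exact le_antisymm hd.1 hd.2

theorem Eqv.le_Gam [IsAlgClosed Ω] (hB : Cmp B) {m : ℕ} (h : Eqv B mu U ((∏ i, B i) ^ m)) :
    ∃ d, U.sp.map (LinearMap.mulLeft Ω mu) ≤ Gam (∏ i, B i) d m := by
  obtain ⟨-, W, hW, e⟩ := eqv_iff.1 h
  refine hB.norm hW ?_
  rw [map_mulLeft_eq, mul_assoc, e, LS.mul_sp]

/-- BPF -/
theorem Cmp.bpf [IsAlgClosed Ω] (hB : Cmp B) {d m : ℕ} (h : U.sp ≤ Gam (∏ i, B i) d m) :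
    Eqv B 1 U ((∏ i, B i) ^ m) := by
  have hH : Reg B (∏ i, B i) := Reg.prod fun i _ => Reg.self B i
  have h1 : (U * (∏ i, B i) ^ d).sp ≤ pc B fun _ => d + m := by
    rw [← prod_pow_sp]
    exact Submodule.le_div_iff_mul_le.1 h
  obtain ⟨M, hM⟩ := hB.loc
    (fun a => ⨆ (b : β → ℕ) (_ : a = (fun _ => d + m) + b), (U * (∏ i, B i) ^ d).sp * pc B b)
    (fun a e => by
      simp only [Submodule.iSup_mul]
      refine iSup₂_le fun b hb => le_iSup₂_of_le (b + e) (by rw [hb, add_assoc]) ?_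
      rw [pc_add, mul_assoc]) fun t => by
      obtain ⟨u, hu, h0⟩ := (U * (∏ i, B i) ^ d).nv t
      refine ⟨fun _ => d + m, u, ?_, h1 hu, h0⟩
      refine Submodule.mem_iSup_of_mem 0 (Submodule.mem_iSup_of_mem (add_zero _).symm ?_)
      rwa [pc_zero, mul_one]
  have h2 := hM ((fun _ => d + m) + fun _ => M) fun _ => Nat.le_add_left _ _
  refine eqv_iff.2 ⟨fun _ => one_ne_zero, (∏ i, B i) ^ d * (∏ i, B i) ^ M,
    (hH.pow d).mul (hH.pow M), ?_⟩
  rw [← Submodule.one_eq_span, one_mul, ← LS.mul_sp, ← LS.mul_sp, ← mul_assoc, ← mul_assoc,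
    ← pow_add, add_comm m, LS.mul_sp _ (_ ^ M), LS.mul_sp _ (_ ^ M), prod_pow_sp, prod_pow_sp]
  refine le_antisymm (mul_le_mul_left h1 _) ?_
  rw [← pc_add]
  refine h2.trans (iSup₂_le fun b hb => ?_)
  rw [add_left_cancel hb]


end Pool.Agent.Tav
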