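import Pool.Agent.P.MP_2ce3e7_ag.Tav.TiDefs
import Pool.Agent.P.MP_2ce3e7_ag.Tav.TiEqv
import Pool.Agent.P.MP_2ce3e7_ag.Tav.TiImg
import Pool.Agent.P.MP_2ce3e7_ag.Tav.GPi

/-! The product of the blocks of a base, and powers of a polarised abelian variety. -/

set_option autoImplicit false
set_option linter.unusedSectionVars false

noncomputable section

namespace Pool.Agent.Tav

open MvPolynomial Module Function

namespace Sg

variable {Ω : Type} [Field Ω] {T β ν κ : Type} [Fintype β] [Fintype ν] [Fintype κ]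

theorem seg_reg (B : β → LS Ω T) : Reg B (∏ c, B c) := Reg.prod fun i _ => Reg.self B i

theorem reg_left (U V : LS Ω T) : Reg (uB (U * V)) U := fun t => by
  obtain ⟨v, hv, h0⟩ := V.nv t
  refine ⟨fun _ => 1, v, h0, fun u hu => ?_⟩
  rw [pc, Fintype.prod_unique, pow_one, mul_comm v]
  exact Submodule.mul_mem_mul hu hv

theorem reg_seg (B : β → LS Ω T) (b : β) : Reg (uB (∏ c, B c)) (B b) := by
  classical
  rw [← Finset.mul_prod_erase _ _ (Finset.mem_univ b)]
  exact reg_left _ _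

theorem regM_seg (B : β → LS Ω T) : RegM B (uB (∏ c, B c)) id := fun _ => by
  rw [LS.pb_id]
  exact seg_reg B

theorem seg_regM (B : β → LS Ω T) : RegM (uB (∏ c, B c)) B id := fun b => by
  rw [LS.pb_id]
  exact reg_seg B b

theorem mix_nn {B : β → LS Ω T} {W : ν → LS Ω T} {n : ℕ} (h : Src B n) (hW : ∀ k, Reg B (W k))
    (hn : n ≤ Fintype.card ν) : 0 ≤ mix B W := by
  rw [mix_eq_nc]
  obtain ⟨m, hm⟩ := nc_pf_nat (fun i => (Sum.elim B W i).sp) (slots β ν)
    ((h.ext hW).dg.mono (by rw [degree_slots]; exact_mod_cast hn))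
  exact (Nat.cast_nonneg m).trans_eq hm.symm

theorem mix_le_mul {B : β → LS Ω T} {W V : ν → LS Ω T} {n : ℕ} (h : Src B n)
    (hW : ∀ k, Reg B (W k)) (hV : ∀ k, Reg B (V k)) (hn : n ≤ Fintype.card ν) :
    mix B W ≤ mix B fun k => W k * V k := by
  classical
  have key : ∀ S : Finset ν, mix B W ≤ mix B fun k => if k ∈ S then W k * V k else W k := by
    intro S
    induction S using Finset.induction_on with
    | empty => simp
    | insert i S hi ih =>
      have hr : ∀ k, Reg B (if k ∈ S then W k * V k else W k) := fun k => by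
        split_ifs
        exacts [(hW k).mul (hV k), hW k]
      have e1 : (fun k => if k ∈ insert i S then W k * V k else W k) =
          update (fun k => if k ∈ S then W k * V k else W k) i (W i * V i) := funext fun k => by
        by_cases hk : k = i
        · subst hk
          simp
        · simp [hk]
      have e2 : update (fun k => if k ∈ S then W k * V k else W k) i (W i) =
          fun k => if k ∈ S then W k * V k else W k := by
        rw [update_eq_self_iff, if_neg hi]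
      rw [e1, mix_update_mul h hr hn i (hW i) (hV i), e2]
      exact ih.trans (le_add_of_nonneg_right (mix_nn h (reg_update hr (hV i) i) hn))
  simpa using key Finset.univ

theorem top_of {B : β → LS Ω T} {H : LS Ω T} {n : ℕ} (h : Src B n) (g : ν → β)
    (hn : Fintype.card ν = n) (h0 : mix B (B ∘ g) ≠ 0) (hB : ∀ b, Reg (uB H) (B b))
    (hH : Reg B H) (V : β → LS Ω T) (hV : ∀ b, Reg B (V b)) (e : ∀ b, B b * V b = H) :
    mix (uB H) (fun _ : Fin n => H) ≠ 0 := by
  have h3 : mix B (fun _ : Fin n => H) = mix (uB H) fun _ : Fin n => H :=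
    mix_base h (fun _ => hH) hB (fun _ => hH) (by simp)
  have h4 : mix B (fun _ : ν => H) = mix B fun _ : Fin n => H :=
    mix_equiv B (fun _ : Fin n => H) (Fintype.equivFinOfCardEq hn)
  have h1 := mix_le_mul (W := B ∘ g) (V := V ∘ g) h (fun k => Reg.self B _) (fun k => hV _) hn.ge
  have h2 := lt_of_le_of_ne (mix_nn (W := B ∘ g) h (fun k => Reg.self B _) hn.ge) h0.symm
  simp only [comp_apply, e] at h1
  rw [← h3, ← h4]
  exact (h2.trans_le h1).ne'

theorem seg_top {B : β → LS Ω T} {n : ℕ} (h : Src B n) (g : ν → β) (hn : Fintype.card ν = n)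
    (h0 : mix B (B ∘ g) ≠ 0) : mix (uB (∏ c, B c)) (fun _ : Fin n => ∏ c, B c) ≠ 0 := by
  classical
  exact top_of h g hn h0 (reg_seg B) (seg_reg B) (fun b => ∏ c ∈ Finset.univ.erase b, B c)
    (fun b => Reg.prod fun i _ => Reg.self B i)
    fun b => Finset.mul_prod_erase _ _ (Finset.mem_univ b)

theorem prp_left {U V : LS Ω T} {x y : T} (h : Prp (U * V) x y) : Prp U x y := by
  obtain ⟨c, hc, h⟩ := h
  obtain ⟨v, hv, h1⟩ := V.nv y
  have h2 : ∀ u ∈ U.sp, u y * v y = c * (u x * v x) := fun u hu =>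
    h _ (Submodule.mul_mem_mul hu hv)
  obtain ⟨u, hu, h3⟩ := U.nv y
  have h4 : v x ≠ 0 := fun e => mul_ne_zero h3 h1 (by rw [h2 u hu, e, mul_zero, mul_zero])
  refine ⟨c * v x / v y, div_ne_zero (mul_ne_zero hc h4) h1, fun w hw => ?_⟩
  rw [div_mul_eq_mul_div, eq_div_iff h1, h2 w hw]
  ring

theorem seg_prp {B : β → LS Ω T} {x y : T} (h : Prp (∏ c, B c) x y) (b : β) : Prp (B b) x y := by
  classical
  rw [← Finset.mul_prod_erase _ _ (Finset.mem_univ b)] at h
  exact prp_left h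

theorem pc_prod {ι : Type} (s : Finset ι) (V : ι → κ → LS Ω T) (d : κ → ℕ) :
    pc (fun k => ∏ i ∈ s, V i k) d = ∏ i ∈ s, pc (V i) d := by
  simp only [pc, LS.prod_sp, ← Finset.prod_pow]
  exact Finset.prod_comm

theorem bpf_prod {ι : Type} [Fintype ι] {V : ι → κ → LS Ω T} {e : κ → ℕ}
    {U : ι → Submodule Ω (T → Ω)} (h : ∀ i, Bpf (V i) e (U i)) :
    Bpf (fun k => ∏ i, V i k) e (∏ i, U i) :=
  (Lg.all h).mono fun d hd => by
    rw [pc_prod, pc_prod, ← Finset.prod_mul_distrib]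
    exact Finset.prod_congr rfl fun i _ => hd i

theorem sg_prod {ι : Type} (s : Finset ι) (a : ι → T → Ω) :
    Submodule.span Ω {∏ i ∈ s, a i} = ∏ i ∈ s, Submodule.span Ω {a i} := by
  classical
  induction s using Finset.induction_on with
  | empty => simp [Submodule.one_eq_span]
  | insert i s hi ih => rw [Finset.prod_insert hi, Finset.prod_insert hi, sg_mul, ih]

variable {G : Type} [AddCommGroup G]

/-- the law with a given factor -/
def LawL (V : LS Ω G) (lam : G × G → Ω) : Prop :=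
  Bpf ![V.pb Prod.fst, V.pb Prod.snd] (fun _ => 2)
    (((V.pb fun t : G × G => t.1 + t.2).sp * (V.pb fun t : G × G => t.1 - t.2).sp).map
      (LinearMap.mulLeft Ω lam))

theorem LawL.pb {G' : Type} [AddCommGroup G'] {V : LS Ω G} {lam : G × G → Ω} (h : LawL V lam)
    (f : G' →+ G) : LawL (V.pb f) fun t => lam (f t.1, f t.2) := by
  have h1 := Bpf.pb h (Prod.map f f)
  have e : (fun i => (![V.pb Prod.fst, V.pb Prod.snd] i).pb (Prod.map f f)) =
      ![(V.pb f).pb Prod.fst, (V.pb f).pb Prod.snd] := funext fun i => by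
    fin_cases i <;> simp only [Fin.zero_eta, Fin.mk_one, Matrix.cons_val_zero,
      Matrix.cons_val_one, LS.pb_pb] <;> rfl
  rw [e, map_pb_mul, LS.pb_pb, LS.pb_pb] at h1
  unfold LawL
  simp only [LS.pb_pb] at h1 ⊢
  have e1 : (fun t : G × G => t.1 + t.2) ∘ Prod.map f f = f ∘ fun t : G' × G' => t.1 + t.2 :=
    funext fun t => (map_add f _ _).symm
  have e2 : (fun t : G × G => t.1 - t.2) ∘ Prod.map f f = f ∘ fun t : G' × G' => t.1 - t.2 :=
    funext fun t => (map_sub f _ _).symm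
  rw [e1, e2] at h1
  exact h1

theorem LawL.prod {B : β → LS Ω G} {lam : β → G × G → Ω} (h : ∀ b, LawL (B b) (lam b)) :
    LawL (∏ b, B b) fun t => ∏ b, lam b t := by
  have h1 := bpf_prod h
  have e : (fun k => ∏ b, ![(B b).pb (Prod.fst : G × G → G), (B b).pb Prod.snd] k) =
      ![(∏ b, B b).pb Prod.fst, (∏ b, B b).pb Prod.snd] := funext fun i => by
    fin_cases i <;> simp [LS.pb_prod]
  have e2 : (fun t => ∏ b, lam b t) = ∏ b, lam b := funext fun t => (Finset.prod_apply _ _ _).symm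
  rw [e] at h1
  unfold LawL
  simp only [map_mulLeft_eq] at h1 ⊢
  rw [e2, sg_prod, LS.pb_prod fun t : G × G => t.1 + t.2, LS.pb_prod fun t : G × G => t.1 - t.2,
    LS.prod_sp, LS.prod_sp, ← Finset.prod_mul_distrib, ← Finset.prod_mul_distrib]
  exact h1

theorem sub_of {B : β → LS Ω G} {C : κ → LS Ω G} (h1 : RegM B C id) (h2 : RegM C B id)
    (h : RegM (prodB B B) B fun t : G × G => t.1 - t.2) :
    RegM (prodB C C) C fun t : G × G => t.1 - t.2 := by
  have h3 := (((h2.cfst C).pair (h2.csnd C)).comp h).comp h1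
  have e : (id ∘ (fun t : G × G => t.1 - t.2) ∘ fun t : G × G => ((id ∘ Prod.fst) t,
    (id ∘ Prod.snd) t)) = fun t : G × G => t.1 - t.2 := rfl
  rwa [e] at h3

theorem seg_sub {B : β → LS Ω G} (h : RegM (prodB B B) B fun t : G × G => t.1 - t.2) :
    RegM (prodB (uB (∏ c, B c)) (uB (∏ c, B c))) (uB (∏ c, B c)) fun t : G × G => t.1 - t.2 :=
  sub_of (regM_seg B) (seg_regM B) h

theorem cmp_pi [IsAlgClosed Ω] {ι : Type} [Fintype ι] {T β : ι → Type} [∀ i, Fintype (β i)]
    {B : ∀ i, β i → LS Ω (T i)} (h : ∀ i, Cmp (B i)) : Cmp (piB B) := by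
  classical
  choose σ _ _ w x hx e hc using fun i => Ti.cmp_blk (h i)
  have hx' : ∀ (t : ∀ i, T i) (b : Σ i, β i), ∃ v : Σ i, σ i,
      (⟨v.1, w v.1 v.2⟩ : Σ i, β i) = b ∧ x v.1 (t v.1) v.2 ≠ 0 := fun t b => by
    obtain ⟨v, h1, h2⟩ := hx b.1 (t b.1) b.2
    exact ⟨⟨b.1, v⟩, by rw [h1], h2⟩
  have e' : LS.blk (fun l : Σ i, σ i => (⟨l.1, w l.1 l.2⟩ : Σ i, β i))
      (fun (t : ∀ i, T i) l => x l.1 (t l.1) l.2) hx' = piB B := by
    rw [← funext e]
    funext b
    refine LS.ext' ?_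
    change Submodule.span Ω _ = (Submodule.span Ω _).map _
    rw [Submodule.map_span]
    refine congrArg (Submodule.span Ω) (Set.ext fun u => ⟨?_, ?_⟩)
    · rintro ⟨⟨i, v⟩, rfl, rfl⟩
      exact ⟨_, ⟨v, rfl, rfl⟩, rfl⟩
    · rintro ⟨_, ⟨v, h, rfl⟩, rfl⟩
      exact ⟨⟨b.1, v⟩, Sigma.ext rfl (heq_of_eq h), rfl⟩
  rw [← e']
  exact Ti.cmp_of_cl hx' (Cl.pi hc)

end Sg

variable {Ω : Type} [Field Ω] [IsAlgClosed Ω] {T γ : Type} [Fintype γ] {G G₁ G₂ : Type}
  [AddCommGroup G] [AddCommGroup G₁] [AddCommGroup G₂] {fr : Ω ≃+* Ω} {Q : ℕ}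

namespace Ab

/-- the variety that belongs to the product of the blocks of a base -/
def ofBlocks {β ν : Type} [Fintype β] [Fintype ν] (B : β → LS Ω G) (n : ℕ) (cmp : Cmp B)
    (src : Src B n) (g : ν → β) (hn : Fintype.card ν = n) (top : mix B (B ∘ g) ≠ 0)
    (sep : ∀ x y, (∀ b, Prp (B b) x y) → x = y)
    (sub : RegM (prodB B B) B fun t : G × G => t.1 - t.2) (lam : β → G × G → Ω)
    (lam_ne : ∀ b t, lam b t ≠ 0) (law : ∀ b, Sg.LawL (B b) (lam b)) : Ab Ω G where
  H := ∏ b, B b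
  n := n
  cmp := Ti.cmp_of_reg cmp fun _ => Sg.seg_reg B
  src := src.of_reg fun _ => Sg.seg_reg B
  top := Sg.seg_top src g hn top
  sep x y h := sep x y (Sg.seg_prp h)
  sub := Sg.seg_sub sub
  lam t := ∏ b, lam b t
  lam_ne t := Finset.prod_ne_zero_iff.2 fun b _ => lam_ne b t
  law := Sg.LawL.prod law

section Pi

variable (A : Ab Ω G) (ι : Type) [Fintype ι]

/-- the blocks of the power -/
abbrev blks : ι → LS Ω (ι → G) := fun i => A.H.pb fun t => t i

theorem blks_eq : A.blks ι = (piB fun _ : ι => A.B) ∘ (Equiv.sigmaUnique ι fun _ => Unit).symm :=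
  rfl

theorem reg_blks (i : ι) : Reg (piB fun _ : ι => A.B) (A.blks ι i) :=
  Reg.self (piB fun _ : ι => A.B) ⟨i, ()⟩

theorem blks_reg (b : Σ _ : ι, Unit) : Reg (A.blks ι) (piB (fun _ : ι => A.B) b) :=
  Reg.self (A.blks ι) b.1

theorem src_piB : Src (piB fun _ : ι => A.B) (Fintype.card ι * A.n) := by
  classical
  simpa using Src.pi fun _ : ι => A.src

theorem top_blks : mix (A.blks ι) (A.blks ι ∘ fun k : Σ _ : ι, Fin A.n => k.1) ≠ 0 := by
  classical
  have h : mix (piB fun _ : ι => A.B) (piB fun _ : ι => fun _ : Fin A.n => A.H) ≠ 0 := by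
    rw [mix_pi]
    exact Finset.prod_ne_zero_iff.2 fun _ _ => A.top
  rwa [mix_base (A.src_piB ι) (A.reg_blks ι) (A.blks_reg ι)
    (W := piB fun _ : ι => fun _ : Fin A.n => A.H) (fun k => A.reg_blks ι k.1) (by simp)] at h

theorem regM_eval (i : ι) : RegM (A.blks ι) A.B fun t => t i := fun _ => Reg.self (A.blks ι) i

theorem sub_blks : RegM (prodB (A.blks ι) (A.blks ι)) (A.blks ι)
    fun t : (ι → G) × (ι → G) => t.1 - t.2 := fun i => by
  rw [LS.pb_pb]
  exact A.ab0.reg_sub ((A.regM_eval ι i).cfst (A.blks ι)) ((A.regM_eval ι i).csnd (A.blks ι)) ()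

end Pi

/-- the power -/
def pi (A : Ab Ω G) (ι : Type) [Fintype ι] : Ab Ω (ι → G) where
  H := ∏ i : ι, A.H.pb fun t => t i
  n := Fintype.card ι * A.n
  cmp := Ti.cmp_of_reg (Sg.cmp_pi fun _ : ι => A.cmp) fun _ =>
    Reg.prod fun i _ => A.reg_blks ι i
  src := (A.src_piB ι).of_reg fun _ => Reg.prod fun i _ => A.reg_blks ι i
  top := Sg.seg_top ((A.src_piB ι).of_reg (A.reg_blks ι)) _ (by simp) (A.top_blks ι)
  sep x y h := funext fun i => by
    obtain ⟨c, hc, h1⟩ := Sg.seg_prp (B := A.blks ι) h i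
    exact A.sep _ _ ⟨c, hc, fun u hu => h1 _ ⟨u, hu, rfl⟩⟩
  sub := Sg.seg_sub (A.sub_blks ι)
  lam t := ∏ i : ι, A.lam (t.1 i, t.2 i)
  lam_ne t := Finset.prod_ne_zero_iff.2 fun _ _ => A.lam_ne _
  law := Sg.LawL.prod (B := A.blks ι) fun i =>
    Sg.LawL.pb (V := A.H) A.law (Pi.evalAddMonoidHom (fun _ => G) i)

variable {A : Ab Ω G₁} {B : Ab Ω G₂} {C : γ → LS Ω T}
variable {ι : Type} [Fintype ι] [DecidableEq ι]

theorem pi_H : (A.pi ι).H = ∏ i : ι, A.H.pb fun t => t i := rfl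

theorem pi_like : (A.pi ι).Like (piB fun _ : ι => A.B) :=
  ⟨fun b => by rw [LS.pb_id]; exact Sg.reg_seg (A.blks ι) b.1,
    fun _ => by rw [LS.pb_id]; exact Reg.prod fun i _ => A.reg_blks ι i⟩

theorem eval_mem (i : ι) : Pi.evalAddMonoidHom (fun _ => G₁) i ∈ (A.pi ι).Hom A :=
  fun _ => Sg.reg_seg (A.blks ι) i

theorem reg_pi {u : T → ι → G₁} (hu : ∀ i, RegM C A.B fun t => u t i) :
    RegM C (A.pi ι).B u := fun _ => by
  change Reg C ((A.pi ι).H.pb u)
  rw [pi_H, LS.pb_prod]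
  exact Reg.prod fun i _ => by rw [LS.pb_pb]; exact hu i ()

theorem single_mem (i : ι) : AddMonoidHom.single (fun _ => G₁) i ∈ A.Hom (A.pi ι) :=
  reg_pi fun k => by
    by_cases h : k = i
    · subst h
      simp only [AddMonoidHom.single_apply, Pi.single_eq_same]
      exact RegM.id A.B
    · simpa [h] using regM_const A.B A.B 0

theorem Fr.pi {F : G₁ →+ G₁} (h : A.Fr fr F) : (A.pi ι).Fr fr (F.compLeft ι) := by
  refine ⟨h.1.comp_left, ?_⟩
  rw [pi_H, LS.pb_prod, LS.tw_prod]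
  refine Finset.prod_congr rfl fun i _ => ?_
  rw [LS.tw_pb, ← h.2, LS.pb_pb, LS.pb_pb]
  rfl

theorem nu_pi (N : ℕ) (k x : ι → G₁) : (A.pi ι).nu N k x = ∏ i, A.nu N (k i) (x i) :=
  Finset.prod_comm

theorem mu_pi (N : ℕ) (k x : ι → G₁) : (A.pi ι).mu N k x = ∏ i, A.mu N (k i) (x i) := by
  simp only [mu, nu_pi, Finset.prod_div_distrib, Pi.add_apply]

theorem e_pi (N : ℕ) (k k' : ι → G₁) : (A.pi ι).e N k k' = ∏ i, A.e N (k i) (k' i) := by
  simp only [e, mu_pi, Finset.prod_div_distrib, Finset.prod_mul_distrib, Pi.zero_apply]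

theorem Q_pi (S : Ab Ω G) {u : G → ι → G₁} (hu : RegM S.B (A.pi ι).B u) :
    S.Q (A.pi ι) u = ∑ i, S.Q A fun t => u t i := by
  have h1 : ∀ i, Reg S.B (A.H.pb fun t => u t i) := fun i => (hu.comp (eval_mem i)) ()
  have hn : S.n ≤ Fintype.card (Option (Fin (S.n - 1))) := by
    rw [Fintype.card_option, Fintype.card_fin]
    omega
  have key : ∀ s : Finset ι, mix S.B (update (fun _ : Option (Fin (S.n - 1)) => S.H) none
      (∏ i ∈ s, A.H.pb fun t => u t i)) = ∑ i ∈ s, S.Q A fun t => u t i := by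
    intro s
    induction s using Finset.induction_on with
    | empty => exact mix_one S.src (fun _ => Reg.self S.B ()) hn none
    | insert i s hi ih =>
      rw [Finset.prod_insert hi, Finset.sum_insert hi, mix_update_mul S.src
        (fun _ => Reg.self S.B ()) hn none (h1 i) (Reg.prod fun i _ => h1 i), ih]
      rfl
  rw [← key, Ab.Q, pi_H, LS.pb_prod]
  simp only [LS.pb_pb]
  rfl

end Ab

end Pool.Agent.Tav
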