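import Pool.Agent.P.MP_2ce3e7_ag.Tav.CvStmt
import Pool.Agent.P.MP_2ce3e7_ag.Tav.TiAPi
import Pool.Agent.P.MP_2ce3e7_ag.Tpx.Exit
import Pool.Agent.P.MP_dd457d_ag.Bcv.Defs
import Pool.Agent.P.MP_dd457d_ag.Bcv.Union

/-! From the package of a curve and the calculus to the conclusions. -/

set_option autoImplicit false

noncomputable section

namespace Pool.Agent.Tav.Cv

open MvPolynomial Function Pool.Agent.Bcv

section
variable {Ω : Type} [Field Ω] {T τ : Type} [Fintype τ]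

theorem var_of {c : T → τ → Ω} (h : Curve c) : Var c := by
  refine ⟨h.ne, h.inj, h.cl, h.irr, not_subsingleton_iff_nontrivial.1 fun _ => ?_⟩
  have : ∀ i, FiniteDimensional Ω (![crd c] i) := fun i => by
    rw [Subsingleton.elim i 0]
    exact (LS.co c h.ne).fd
  have h1 : Dg (pf ![crd c]) (0 : ℕ) := (evP_pf _).dg_of_growth (c := 1) (Lg.of_forall fun d => by
    have := Fintype.ofFinite T
    rw [pow_zero, mul_one, Nat.abs_cast, Nat.cast_le_one]
    exact (Submodule.finrank_le _).trans ((Module.finrank_fintype_fun_eq_card Ω).le.trans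
      (Fintype.card_le_one_iff_subsingleton.2 ‹_›)))
  have h2 := h.dim
  rw [hp_eq_pf] at h2
  exact absurd (h2 ▸ dg_iff.1 h1) (by decide)

theorem cmp_var [IsAlgClosed Ω] {c : T → τ → Ω} (h : Var c) : Cmp (oB c h.ne) := by
  have e : oB c h.ne = LS.blk (fun _ : τ => ()) c (hx_unit h.ne) :=
    funext fun b => (blk_unit h.ne b).symm
  let _ : DecidableEq Unit := Classical.decEq _
  rw [e]
  refine Ti.cmp_of_cl _ fun y hy hz => ?_
  obtain ⟨t, ht⟩ := h.cl y (fun f hf => by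
    have h1 := sum_weightedHomogeneousComponent (wN fun _ : τ => ()) f
    rw [finsum_eq_sum _ (weightedHomogeneousComponent_finsupp (w := wN fun _ : τ => ()) f)] at h1
    rw [← h1, map_sum]
    exact Finset.sum_eq_zero fun d _ => hz d _ (weightedHomogeneousComponent_mem _ _ _) fun t =>
      cmp_eval_zero (fun c => hf _ ⟨c, t, rfl⟩) d) (by
    obtain ⟨v, -, hv⟩ := hy ()
    exact fun h0 => hv (congrFun h0 v))
  exact ⟨t, Par.bPar.1 ht⟩

theorem exists_img [IsAlgClosed Ω] {ι : Type} [Fintype ι] {C s : ι → Type} [∀ i, Fintype (s i)]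
    {c : ∀ i, C i → s i → Ω} (hc : ∀ i, Var (c i)) {f : (∀ i, C i) → τ → Ω} (hf : ∀ t, f t ≠ 0)
    (hr : Rg (fun i => crd fun t : ∀ i, C i => c i (t i)) (crd f)) :
    ∃ (Y : Type) (Δ : Bav.Geo (idl f) Y) (g : (∀ i, C i) → Y), Surjective g ∧
      Rg (fun i => crd fun t : ∀ i, C i => c i (t i)) (crd fun t => Δ.p (g t)) := by
  classical
  obtain ⟨Y, Δ, g, hg⟩ := Bav.exists_geo f hf
  refine ⟨Y, Δ, g, fun y => ?_, fun t => ?_⟩
  · have h0 : Reg (fun i => LS.co (fun t : ∀ i, C i => c i (t i)) fun t => (hc i).ne _)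
      (LS.co f hf) := Rg.reg.1 hr
    have h1 : Reg (piB fun i => oB (c i) (hc i).ne) (LS.co f hf) := by
      refine Reg.trans (fun i => ?_) h0
      have := Reg.self (piB fun i => oB (c i) (hc i).ne) ⟨i, ()⟩
      rwa [show piB (fun i => oB (c i) (hc i).ne) ⟨i, ()⟩ = _ from LS.pb_co ..] at this
    have h3 : Cmp (piB fun i => oB (c i) (hc i).ne) := Sg.cmp_pi fun i => cmp_var (hc i)
    have h4 : Cl (fun _ : τ => ()) f := Ti.img h3 (hx_unit hf) fun b => by
      rw [blk_unit hf b]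
      exact h1
    obtain ⟨t, ht⟩ := h4 (Δ.p y) (hx_unit Δ.ne y) fun d F hF h0 => by
      have h2 : F ∈ idl f := fun _ ⟨a, t, e⟩ => by
        have := eval_bpar hF (fun _ => a) (f t)
        rw [h0, mul_zero] at this
        rw [e]
        exact this
      rw [Δ.idl] at h2
      exact h2 _ ⟨1, y, (one_smul _ _).symm⟩
    obtain ⟨a, ha, e1⟩ := Par.bPar.2 ht
    obtain ⟨b, hb, e2⟩ := hg t
    refine ⟨t, Δ.inj _ _ ⟨b * a⁻¹,
      (mul_ne_zero hb.ne_zero (inv_ne_zero ha.ne_zero)).isUnit, ?_⟩⟩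
    rw [e1, e2, smul_smul, inv_mul_cancel_right₀ ha.ne_zero]
  · choose b hb e using hg
    obtain ⟨d, l, hl, h1⟩ := hr t
    refine ⟨d, fun u => l u * (b u)⁻¹,
      (mul_ne_zero hl.ne_zero (inv_ne_zero (hb t).ne_zero)).isUnit, fun w hw => ?_⟩
    refine (Submodule.span_le (p := Submodule.comap (LinearMap.mulLeft Ω
      fun u => l u * (b u)⁻¹) _)).2 ?_ hw
    rintro _ ⟨a, rfl⟩
    have e3 : ((fun u => l u * (b u)⁻¹) * fun u => Δ.p (g u) a) = l * fun u => f u a :=
      funext fun u => by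
        rw [Pi.mul_apply, Pi.mul_apply, e, Pi.smul_apply, smul_eq_mul, mul_assoc,
          inv_mul_cancel_left₀ (hb u).ne_zero]
    exact Submodule.mem_comap.2 ((congrArg (· ∈ _) e3).mpr
      (h1 _ (Submodule.subset_span ⟨a, rfl⟩)))

end

theorem hom_of_map {k Ω τ : Type} [Field k] [Field Ω] [Algebra k Ω] {J : Ideal (MvPolynomial τ k)}
    (h : ∀ d, ∀ f ∈ J.map (map (algebraMap k Ω)),
      homogeneousComponent d f ∈ J.map (map (algebraMap k Ω))) :
    ∀ d, ∀ f ∈ J, homogeneousComponent d f ∈ J := fun d f hf => by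
  let : Algebra (MvPolynomial τ k) (MvPolynomial τ Ω) := algebraMvPolynomial
  have := Module.Free.of_basis (Pav.pb k Ω (MvPolynomial τ k) (MvPolynomial τ Ω)
    (Module.Basis.ofVectorSpace k Ω))
  rw [← Ideal.comap_map_eq_self_of_faithfullyFlat (B := MvPolynomial τ Ω) J, Ideal.mem_comap]
  refine (congrArg (· ∈ J.map (map (algebraMap k Ω))) ?_).mpr (h d _ (Ideal.mem_map_of_mem _ hf))
  change map (algebraMap k Ω) _ = _
  ext s
  simp only [coeff_map, coeff_homogeneousComponent]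
  split_ifs <;> simp

/-- every curve has a package -/
def S_CJ : Prop :=
  ∀ (k : Type) [Field k] [Fintype k] {T τ : Type} [Fintype τ] (c : T → τ → AlgebraicClosure k)
    (h : Curve c), Nonempty (CJ c h.ne)

/-- the diagonal of an image of a product of curves -/
def S_Dbo : Prop :=
  ∀ (k : Type) [Field k] [Fintype k] {ι : Type} [Fintype ι] {C s : ι → Type} [∀ i, Fintype (s i)]
    {c : ∀ i, C i → s i → AlgebraicClosure k} (hc : ∀ i, Var (c i)) (_ : ∀ i, CJ (c i) (hc i).ne)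
    {Y τ : Type} [Fintype τ] {I : Ideal (MvPolynomial τ (AlgebraicClosure k))} (Δ : Bav.Geo I Y)
    {f : (∀ i, C i) → Y}, Surjective f →
    Rg (fun i => crd fun t : ∀ i, C i => c i (t i)) (crd fun t => Δ.p (f t)) →
    ∃ N, N ≠ 0 ∧ Pav.DBo (AlgebraicClosure k) (CXD.hom I) (CXD.crd I) (Fintype.card k ^ N)

theorem out_of (h1 : S_CJ) (h2 : S_Dbo) (k : Type) [Field k] [Fintype k] {τ : Type} [Fintype τ]
    (J : Ideal (MvPolynomial τ k)) (h : Cov (J.map (map (algebraMap k (AlgebraicClosure k))))) :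
    Tpx.Out k J := by
  obtain ⟨n, T, σ, _, c, f, hc, hf, hr, e⟩ := h
  obtain ⟨Y, Δ, g, g1, g2⟩ := exists_img (fun i => var_of (hc i)) hf hr
  obtain ⟨N, hN, H⟩ := h2 k (fun i => var_of (hc i)) (fun i => (h1 k _ (hc i)).some) Δ g1 g2
  exact Tpx.exits_pow k (hom_of_map (Ω := AlgebraicClosure k) (e ▸ Bav.homI_idl f)) _ hN
    ((congrArg (fun I => Pav.DBo _ (CXD.hom I) (CXD.crd I) (Fintype.card k ^ N)) e).mp H)

end Pool.Agent.Tav.Cv
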