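import Pool.Agent.P.MP_2ce3e7_ag.Tav.TiTMod

/-! Existence of the parametrisation, and the order of a kernel. -/

set_option autoImplicit false

noncomputable section

namespace Pool.Agent.Tav.Ti

open Function Module

variable {l : ℕ} [hl : Fact l.Prime]
variable {G G₂ : Type} [AddCommGroup G] [AddCommGroup G₂]

theorem exists_zmod_basis {d : ℕ} (K : Type) [AddCommGroup K] [Module (ZMod l) K]
    (hcK : Nat.card K = l ^ d) : ∃ b : Fin d → K,
      (∀ a : Fin d → ℤ, ∑ i, a i • b i = 0 → ∀ i, (l : ℤ) ∣ a i) ∧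
      ∀ x : K, ∃ a : Fin d → ℤ, ∑ i, a i • b i = x := by
  have : Finite K := Nat.finite_of_card_ne_zero (by rw [hcK]; exact pow_ne_zero _ hl.out.ne_zero)
  have : Module.Finite (ZMod l) K := Module.Finite.of_finite
  have hd : finrank (ZMod l) K = d := by
    have h1 := Module.natCard_eq_pow_finrank (K := ZMod l) (V := K)
    rw [hcK, Nat.card_zmod] at h1
    exact (Nat.pow_right_injective hl.out.two_le h1).symm
  let b := Module.finBasisOfFinrankEq (ZMod l) K hd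
  refine ⟨b, fun a ha i => ?_, fun x => ?_⟩
  · simp only [← Int.cast_smul_eq_zsmul (ZMod l)] at ha
    exact (ZMod.intCast_zmod_eq_zero_iff_dvd _ _).1
      (Fintype.linearIndependent_iff.1 b.linearIndependent _ ha i)
  · choose a ha using fun i => ZMod.intCast_surjective (b.repr x i)
    refine ⟨a, ?_⟩
    simp only [← Int.cast_smul_eq_zsmul (ZMod l), ha]
    exact b.sum_repr x

/-- a basis of the `l`-torsion -/
theorem exists_tors_basis {d : ℕ} (hc : Nat.card {x : G // l • x = 0} = l ^ d) :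
    ∃ b : Fin d → G, (∀ i, l • b i = 0) ∧
      (∀ a : Fin d → ℤ, ∑ i, a i • b i = 0 → ∀ i, (l : ℤ) ∣ a i) ∧
      ∀ x : G, l • x = 0 → ∃ a : Fin d → ℤ, ∑ i, a i • b i = x := by
  have hK : ∀ x : (nsmulAddMonoidHom l : G →+ G).ker, l • x = 0 := fun x => Subtype.ext x.2
  obtain ⟨b, h1, h2⟩ := @exists_zmod_basis l _ d (nsmulAddMonoidHom l : G →+ G).ker _
    (AddCommGroup.zmodModule hK) hc
  have key : ∀ a : Fin d → ℤ, ∑ i, a i • (b i : G) =
      ((∑ i, a i • b i : (nsmulAddMonoidHom l : G →+ G).ker) : G) := by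
    intro a
    rw [AddSubgroup.val_finsetSum]
    rfl
  refine ⟨fun i => b i, fun i => (b i).2, fun a ha => h1 a (Subtype.ext ?_), fun x hx => ?_⟩
  · rw [← key, ha]
    rfl
  · obtain ⟨a, ha⟩ := h2 ⟨x, hx⟩
    exact ⟨a, by rw [key, ha]⟩

/-- existence of the parametrisation -/
theorem exists_TM {d : ℕ} (hdiv : ∀ (x : G) (n : ℕ), l ^ n • x = 0 → ∃ y, l • y = x)
    (hc : Nat.card {x : G // l • x = 0} = l ^ d) : Nonempty (TM l G (Fin d)) := by
  have hl0 := l_ne (l := l)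
  obtain ⟨b, hb, hind, hspan⟩ := exists_tors_basis hc
  have hseq : ∀ i, ∃ x : ℕ → G, x 0 = 0 ∧ x 1 = b i ∧ ∀ n, l • x (n + 1) = x n := by
    intro i
    choose r hr using hdiv
    let T := {x : G // ∃ n, l ^ n • x = 0}
    let s : T → T := fun x => ⟨r x.1 _ x.2.choose_spec, x.2.choose + 1, by
      rw [pow_succ, mul_smul, hr]; exact x.2.choose_spec⟩
    let y : ℕ → T := fun n => s^[n] ⟨b i, 1, by rw [pow_one]; exact hb i⟩
    refine ⟨fun n => Nat.casesOn n 0 fun m => (y m).1, rfl, rfl, fun n => ?_⟩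
    cases n with
    | zero => exact hb i
    | succ m =>
      change l • (s^[m + 1] _).1 = (s^[m] _).1
      rw [iterate_succ_apply']
      exact hr _ _ _
  choose x hx0 hx1 hx using hseq
  choose φ hφ0 hφ using fun i => exists_seqHom (l := l) (hx0 i) (hx i)
  let κ : (Fin d → ℚ_[l]) →+ G := ∑ i, (φ i).comp (Pi.evalAddMonoidHom (fun _ => ℚ_[l]) i)
  have hκ : ∀ v, κ v = ∑ i, φ i (v i) := fun v => by
    simp only [κ, AddMonoidHom.finsetSum_apply]
    rfl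
  have k1 : ∀ v, ‖v‖ ≤ 1 → κ v = 0 := fun v hv => by
    rw [hκ]
    exact Finset.sum_eq_zero fun i _ => hφ0 i _ ((norm_le_pi_norm v i).trans hv)
  have ka : ∀ a : Fin d → ℤ, κ (fun i => a i * ((l : ℚ_[l]) ^ 1)⁻¹) = ∑ i, a i • b i := by
    intro a
    rw [hκ]
    refine Finset.sum_congr rfl fun i _ => ?_
    rw [← zsmul_eq_mul, map_zsmul, hφ, hx1]
  have k2 : ∀ v, ‖((l : ℚ_[l]) ^ 1) • v‖ ≤ 1 → κ v = 0 → ‖v‖ ≤ 1 := by
    intro v hv h0
    choose a ha using fun i => apx_at (c := v i) (n := 1) ((norm_le_pi_norm _ i).trans hv)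
    have h1 : ‖v - fun i => a i * ((l : ℚ_[l]) ^ 1)⁻¹‖ ≤ 1 :=
      (pi_norm_le_iff_of_nonneg zero_le_one).2 ha
    have h2 := k1 _ h1
    rw [map_sub, h0, ka, zero_sub, neg_eq_zero] at h2
    have h3 : ‖fun i => (a i : ℚ_[l]) * ((l : ℚ_[l]) ^ 1)⁻¹‖ ≤ 1 := by
      refine (pi_norm_le_iff_of_nonneg zero_le_one).2 fun i => ?_
      obtain ⟨k, hk⟩ := hind a h2 i
      have : (a i : ℚ_[l]) * ((l : ℚ_[l]) ^ 1)⁻¹ = k := by
        rw [hk]
        push_cast
        field_simp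
      rw [this]
      exact Padic.norm_int_le_one k
    have h4 := norm_add_le_one h1 h3
    rwa [sub_add_cancel] at h4
  have k3 : ∀ (n : ℕ) v, ‖((l : ℚ_[l]) ^ n) • v‖ ≤ 1 → κ v = 0 → ‖v‖ ≤ 1 := by
    intro n
    induction n with
    | zero => intro v hv _; simpa using hv
    | succ n ih =>
      intro v hv h0
      refine k2 v (ih _ ?_ ?_) h0
      · rwa [smul_smul, pow_one, ← pow_succ]
      · rw [add_lsmul, h0, smul_zero]
  refine ⟨⟨κ, fun v => ⟨fun h => ?_, k1 v⟩, fun y n => ?_⟩⟩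
  · obtain ⟨n, hn⟩ := exists_small (l := l) v
    exact k3 n v hn h
  · induction n generalizing y with
    | zero => intro hy; exact ⟨0, by rw [map_zero]; simpa using hy.symm⟩
    | succ n ih =>
      intro hy
      obtain ⟨w, hw⟩ := ih (l • y) (by rwa [smul_smul, ← pow_succ])
      have h1 : l • (y - κ (((l : ℚ_[l]) ^ 1)⁻¹ • w)) = 0 := by
        have := add_lsmul (l := l) κ 1 (((l : ℚ_[l]) ^ 1)⁻¹ • w)
        rw [smul_smul, mul_inv_cancel₀ (pow_ne_zero _ hl0), one_smul, hw, pow_one l] at this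
        rw [smul_sub, ← this, sub_self]
      obtain ⟨a, ha⟩ := hspan _ h1
      exact ⟨_ + ((l : ℚ_[l]) ^ 1)⁻¹ • w, by rw [map_add, ka a, ha, sub_add_cancel]⟩

theorem card_quot_span {a : ℤ_[l]} (ha : a ≠ 0) :
    (Nat.card (ℤ_[l] ⧸ Ideal.span {a}) : ℝ) = ‖a‖⁻¹ := by
  have h1 : Ideal.span {a} = RingHom.ker (PadicInt.toZModPow (p := l) a.valuation) := by
    rw [PadicInt.ker_toZModPow]
    conv_lhs => rw [PadicInt.unitCoeff_spec ha]
    exact Ideal.span_singleton_mul_left_unit (Units.isUnit _) _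
  have h2 : Surjective (PadicInt.toZModPow (p := l) a.valuation) := ZMod.ringHom_surjective _
  rw [h1, Nat.card_congr (RingHom.quotientKerEquivOfSurjective h2).toEquiv, Nat.card_zmod,
    PadicInt.norm_eq_zpow_neg_valuation ha, zpow_neg, inv_inv, zpow_natCast, Nat.cast_pow]

variable {ι : Type} [Fintype ι]

theorem card_coker (B : (ι → ℤ_[l]) →ₗ[ℤ_[l]] (ι → ℤ_[l])) (hB : Injective B) :
    (Nat.card ((ι → ℤ_[l]) ⧸ LinearMap.range B) : ℝ) = ‖LinearMap.det B‖⁻¹ := by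
  classical
  let N := LinearMap.range B
  let e : (ι → ℤ_[l]) ≃ₗ[ℤ_[l]] N := LinearEquiv.ofInjective B hB
  let b := Pi.basisFun ℤ_[l] ι
  have h : finrank ℤ_[l] N = finrank ℤ_[l] (ι → ℤ_[l]) := e.symm.finrank_eq
  let a := Submodule.smithNormalFormCoeffs b h
  let b' := Submodule.smithNormalFormTopBasis b h
  let ab := Submodule.smithNormalFormBotBasis b h
  let e' : (ι → ℤ_[l]) ≃ₗ[ℤ_[l]] N := b'.equiv ab (Equiv.refl _)
  let f : (ι → ℤ_[l]) →ₗ[ℤ_[l]] (ι → ℤ_[l]) := N.subtype ∘ₗ (e' : (ι → ℤ_[l]) →ₗ[ℤ_[l]] N)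
  have ha : ∀ i, f (b' i) = a i • b' i := by
    intro i
    change ((b'.equiv ab (Equiv.refl _) (b' i) : N) : ι → ℤ_[l]) = _
    rw [b'.equiv_apply, Equiv.refl_apply]
    exact Submodule.smithNormalFormBotBasis_def b h i
  have h1 : LinearMap.det f = ∏ i, a i := by
    rw [← LinearMap.det_toMatrix b', ← Matrix.det_diagonal]
    congr 1
    ext1 i j
    rw [LinearMap.toMatrix_apply, ha, map_smul, Basis.repr_self, Finsupp.smul_single,
      smul_eq_mul, mul_one]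
    by_cases h : i = j
    · rw [h, Matrix.diagonal_apply_eq, Finsupp.single_eq_same]
    · rw [Matrix.diagonal_apply_ne _ h, Finsupp.single_eq_of_ne h]
  have h2 : Associated (LinearMap.det B) (LinearMap.det f) :=
    LinearMap.associated_det_comp_equiv N.subtype e e'
  have h3 : ‖LinearMap.det B‖ = ∏ i, ‖a i‖ := by
    obtain ⟨u, hu⟩ := h2
    rw [← norm_prod, ← h1, ← hu, norm_mul, PadicInt.norm_units, mul_one]
  rw [h3, Nat.card_congr (Submodule.quotientEquivPiSpan N b h).toEquiv, Nat.card_pi,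
    Nat.cast_prod, ← Finset.prod_inv_distrib]
  exact Finset.prod_congr rfl fun i _ =>
    card_quot_span (Submodule.smithNormalFormCoeffs_ne_zero b h i)

/-- integral vectors -/
def emb (l : ℕ) [Fact l.Prime] (ι : Type) : (ι → ℤ_[l]) →+ (ι → ℚ_[l]) where
  toFun t i := t i
  map_zero' := rfl
  map_add' _ _ := rfl

omit [Fintype ι] in
theorem emb_inj : Injective (emb l ι) := fun _ _ h =>
  funext fun i => PadicInt.ext (congrFun h i)

theorem mem_emb (v : ι → ℚ_[l]) : (∃ t, emb l ι t = v) ↔ ‖v‖ ≤ 1 := by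
  rw [pi_norm_le_iff_of_nonneg zero_le_one]
  exact ⟨by rintro ⟨t, rfl⟩ i; exact (t i).2, fun h => ⟨fun i => ⟨v i, h i⟩, rfl⟩⟩

theorem exists_int (A : (ι → ℚ_[l]) →ₗ[ℚ_[l]] (ι → ℚ_[l])) (hA : ∀ v, ‖v‖ ≤ 1 → ‖A v‖ ≤ 1) :
    ∃ B : (ι → ℤ_[l]) →ₗ[ℤ_[l]] (ι → ℤ_[l]), (∀ t, emb l ι (B t) = A (emb l ι t)) ∧
      ((LinearMap.det B : ℤ_[l]) : ℚ_[l]) = LinearMap.det A := by
  classical
  let m : Matrix ι ι ℤ_[l] := fun i j => ⟨LinearMap.toMatrix' A i j, by
    rw [LinearMap.toMatrix'_apply]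
    refine (norm_le_pi_norm _ i).trans (hA _ ?_)
    rw [Pi.norm_single, norm_one]⟩
  have hm : m.map (algebraMap ℤ_[l] ℚ_[l]) = LinearMap.toMatrix' A := rfl
  refine ⟨Matrix.toLin' m, fun t => ?_, ?_⟩
  · conv_rhs => rw [← Matrix.toLin'_toMatrix' A, ← hm]
    funext i
    exact RingHom.map_mulVec (algebraMap ℤ_[l] ℚ_[l]) m t i
  · rw [LinearMap.det_toLin', ← LinearMap.det_toMatrix', ← hm]
    exact RingHom.map_det (algebraMap ℤ_[l] ℚ_[l]) m

theorem norm_det_le (A : (ι → ℚ_[l]) →ₗ[ℚ_[l]] (ι → ℚ_[l])) (hA : ∀ v, ‖v‖ ≤ 1 → ‖A v‖ ≤ 1) :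
    ‖LinearMap.det A‖ ≤ 1 := by
  obtain ⟨B, -, h⟩ := exists_int A hA
  rw [← h]
  exact (LinearMap.det B).2

/-- the order of the image of `A⁻¹ T` -/
theorem TM.card_preimage (M : TM l G ι) (A : (ι → ℚ_[l]) →ₗ[ℚ_[l]] (ι → ℚ_[l]))
    (hA : ∀ v, ‖v‖ ≤ 1 → ‖A v‖ ≤ 1) (hd : LinearMap.det A ≠ 0) :
    (Nat.card {x : G // ∃ v, ‖A v‖ ≤ 1 ∧ M.κ v = x} : ℝ) = ‖LinearMap.det A‖⁻¹ := by
  obtain ⟨B, hB, hdet⟩ := exists_int A hA
  let e := LinearMap.equivOfDetNeZero A hd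
  have he : ∀ v, e v = A v := fun _ => rfl
  have hBi : Injective B := fun s t h => emb_inj (e.injective (by rw [he, he, ← hB, ← hB, h]))
  let ψ : (ι → ℤ_[l]) →+ G := M.κ.comp (e.symm.toAddMonoidHom.comp (emb l ι))
  have hψ : ∀ t, ψ t = M.κ (e.symm (emb l ι t)) := fun _ => rfl
  have h1 : ψ.ker = (LinearMap.range B).toAddSubgroup := by
    ext t
    rw [AddMonoidHom.mem_ker, hψ, M.ker, ← mem_emb]
    constructor
    · rintro ⟨s, hs⟩
      exact ⟨s, emb_inj (by rw [hB, hs, ← he, e.apply_symm_apply])⟩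
    · rintro ⟨s, rfl⟩
      exact ⟨s, by rw [hB, ← he, e.symm_apply_apply]⟩
  have h2 : ∀ x, (∃ v, ‖A v‖ ≤ 1 ∧ M.κ v = x) ↔ x ∈ ψ.range := by
    intro x
    constructor
    · rintro ⟨v, hv, rfl⟩
      obtain ⟨t, ht⟩ := (mem_emb _).2 hv
      exact ⟨t, by rw [hψ, ht, ← he, e.symm_apply_apply]⟩
    · rintro ⟨t, rfl⟩
      exact ⟨e.symm (emb l ι t), by
        rw [← he, e.apply_symm_apply]; exact (mem_emb _).1 ⟨t, rfl⟩, rfl⟩
  rw [Nat.card_congr (Equiv.subtypeEquivRight h2), ← hdet, PadicInt.padic_norm_e_of_padicInt,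
    ← card_coker B hBi, ← Nat.card_congr (QuotientAddGroup.quotientKerEquivRange ψ).toEquiv, h1]
  rfl

/-- the order of the `l`-power torsion of the kernel -/
theorem TM.card_ker (M : TM l G ι) (N : TM l G₂ ι) (f : G →+ G₂)
    (hd : LinearMap.det (M.V N f) ≠ 0) :
    (Nat.card {x : G // (∃ n : ℕ, l ^ n • x = 0) ∧ f x = 0} : ℝ) =
      ‖LinearMap.det (M.V N f)‖⁻¹ := by
  rw [← M.card_preimage _ (fun v => M.V_int N f) hd]
  congr 1
  refine Nat.card_congr (Equiv.subtypeEquivRight fun x => ?_)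
  constructor
  · rintro ⟨⟨n, hn⟩, hx⟩
    obtain ⟨v, rfl⟩ := M.onto x n hn
    exact ⟨v, by rw [← N.ker, M.κ_V, hx], rfl⟩
  · rintro ⟨v, hv, rfl⟩
    exact ⟨M.tors v, by rw [← M.κ_V N, N.ker]; exact hv⟩

theorem TM.V_inj {ι₂ : Type} [Fintype ι₂] (M : TM l G ι) (N : TM l G₂ ι₂) (f : G →+ G₂) {r : ℕ}
    (hr : r ≠ 0) (h : ∀ x, f x = 0 → r • x = 0) : Injective (M.V N f) := by
  rw [injective_iff_map_eq_zero]
  intro v hv
  have h1 : (r : ℚ_[l]) • v = 0 := by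
    refine eq_zero_of_bdd (l := l) fun n => ?_
    rw [smul_comm, ← M.ker, Nat.cast_smul_eq_nsmul, map_nsmul]
    refine h _ ?_
    rw [← M.κ_V N, map_smul, hv, smul_zero, map_zero]
  exact (smul_eq_zero.1 h1).resolve_left (Nat.cast_ne_zero.2 hr)

theorem det_ne_zero_iff (A : (ι → ℚ_[l]) →ₗ[ℚ_[l]] (ι → ℚ_[l])) :
    LinearMap.det A ≠ 0 ↔ Injective A := by
  rw [Ne, LinearMap.det_eq_zero_iff_ker_ne_bot, not_not, LinearMap.ker_eq_bot]

theorem TM.V_inj_of_finite {ι₂ : Type} [Fintype ι₂] (M : TM l G ι) (N : TM l G₂ ι₂) (f : G →+ G₂)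
    [Finite f.ker] : Injective (M.V N f) :=
  M.V_inj N f (Nat.card_pos (α := f.ker)).ne' fun x hx =>
    congrArg Subtype.val (card_nsmul_eq_zero' (x := (⟨x, hx⟩ : f.ker)))

/-- if the lift is onto, every `l`-power torsion point is the image of one -/
theorem TM.onto_of_V {ι₂ : Type} [Fintype ι₂] (M : TM l G ι) (N : TM l G₂ ι₂) (f : G →+ G₂)
    (h : Surjective (M.V N f)) (y : G₂) (n : ℕ) (hy : l ^ n • y = 0) : ∃ v, f (M.κ v) = y := by
  obtain ⟨w, rfl⟩ := N.onto y n hy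
  obtain ⟨v, rfl⟩ := h w
  exact ⟨v, (M.κ_V N f v).symm⟩

theorem norm_card_tors (K : Type) [AddCommGroup K] [Finite K] {k : ℕ}
    (h : Nat.card {x : K // ∃ n : ℕ, l ^ n • x = 0} = l ^ k) :
    ‖(Nat.card K : ℚ_[l])‖ = ((l : ℝ) ^ k)⁻¹ := by
  let P : AddSubgroup K :=
    { carrier := {x | ∃ n : ℕ, l ^ n • x = 0}
      zero_mem' := ⟨0, smul_zero _⟩
      add_mem' := by
        rintro a b ⟨n, hn⟩ ⟨m, hm⟩
        exact ⟨n + m, by
          rw [smul_add, pow_add, mul_smul _ _ b, hm, mul_comm, mul_smul, hn, smul_zero, smul_zero,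
            add_zero]⟩
      neg_mem' := by
        rintro a ⟨n, hn⟩
        exact ⟨n, by rw [smul_neg, hn, neg_zero]⟩ }
  have h1 : Nat.card P = l ^ k := h
  have h2 : ¬ l ∣ Nat.card (K ⧸ P) := by
    intro hd
    obtain ⟨y, hy⟩ := exists_prime_addOrderOf_dvd_card' l hd
    obtain ⟨x, rfl⟩ := QuotientAddGroup.mk_surjective y
    have h3 : ((l • x : K) : K ⧸ P) = 0 := by
      rw [QuotientAddGroup.mk_nsmul, ← hy, addOrderOf_nsmul_eq_zero]
    obtain ⟨n, hn⟩ := (QuotientAddGroup.eq_zero_iff _).1 h3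
    have h4 : (x : K ⧸ P) = 0 :=
      (QuotientAddGroup.eq_zero_iff _).2 ⟨n + 1, by rw [pow_succ, mul_smul]; exact hn⟩
    rw [h4, addOrderOf_zero] at hy
    exact hl.out.one_lt.ne hy
  rw [AddSubgroup.card_eq_card_quotient_mul_card_addSubgroup P, h1, Nat.cast_mul, norm_mul,
    Nat.cast_pow, norm_lpow, Padic.norm_natCast_eq_one_iff.2 ((hl.out.coprime_iff_not_dvd).2 h2),
    one_mul]

/-- the determinant of the lift and the order of the kernel have one absolute value -/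
theorem TM.norm_det (M : TM l G ι) (N : TM l G₂ ι) (f : G →+ G₂) [Finite f.ker] :
    ‖LinearMap.det (M.V N f)‖ = ‖(Nat.card f.ker : ℚ_[l])‖ := by
  have hd := (det_ne_zero_iff _).2 (M.V_inj_of_finite N f)
  have h1 := M.card_ker N f hd
  obtain ⟨B, -, hB⟩ := exists_int (M.V N f) fun v => M.V_int N f
  have h0 : LinearMap.det B ≠ 0 := fun h => hd (by rw [← hB, h]; rfl)
  have h2 : ‖LinearMap.det (M.V N f)‖ = ((l : ℝ) ^ (LinearMap.det B).valuation)⁻¹ := by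
    rw [← hB, PadicInt.padic_norm_e_of_padicInt, PadicInt.norm_eq_zpow_neg_valuation h0, zpow_neg,
      zpow_natCast]
  rw [h2, inv_inv] at h1
  rw [h2, norm_card_tors]
  have h3 : Nat.card {x : G // (∃ n : ℕ, l ^ n • x = 0) ∧ f x = 0} =
      l ^ (LinearMap.det B).valuation := by exact_mod_cast h1
  rw [← h3]
  exact Nat.card_congr
    { toFun := fun x => ⟨x.1.1, x.2.imp fun n hn => congrArg Subtype.val hn, x.1.2⟩
      invFun := fun x => ⟨⟨x.1, x.2.2⟩, x.2.1.imp fun n hn => Subtype.ext hn⟩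
      left_inv := fun _ => rfl
      right_inv := fun _ => rfl }

end Pool.Agent.Tav.Ti
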