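import Pool.Agent.P.MP_2ce3e7_ag.Tav.TiDefs
import Pool.Agent.P.MP_2ce3e7_ag.Tav.TiTModB
import Pool.Agent.P.MP_2ce3e7_ag.Tav.TiCnt
import Pool.Agent.P.MP_2ce3e7_ag.Tav.TiImg

/-! Coordinates on a polarised abelian variety, and its torsion points. -/

set_option autoImplicit false

noncomputable section

namespace Pool.Agent.Tav

open MvPolynomial Module Function

variable {Ω : Type} [Field Ω] [IsAlgClosed Ω] {T γ : Type} [Fintype γ] {G G₁ G₂ : Type}
  [AddCommGroup G] [AddCommGroup G₁] [AddCommGroup G₂] {fr : Ω ≃+* Ω} {Q : ℕ}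

/-- the converse of `AV.src`, `AV.top`, `AV.sub'`, `AV.cl_blk` -/
theorem AV.of_src {σ : Type} [Fintype σ] {p : G → σ → Ω} (hp : ∀ t, p t ≠ 0) {g : ℕ}
    (cl : @Cl Ω G σ Unit _ (Classical.decEq _) (fun _ => ()) p) (src : Src (uB (LS.co p hp)) g)
    (top : mix (uB (LS.co p hp)) (fun _ : Fin g => LS.co p hp) ≠ 0)
    (sub : RegM (prodB (uB (LS.co p hp)) (uB (LS.co p hp))) (uB (LS.co p hp))
      fun t : G × G => t.1 - t.2) : AV p g := by
  let _ : DecidableEq Unit := Classical.decEq _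
  have form : ∀ {d : Unit → ℕ} {f : MvPolynomial σ Ω}, f ∈ Sd Ω (fun _ : σ => ()) d →
      (f ∈ idl p ↔ ∀ t, eval (p t) f = 0) := fun {d f} hf =>
    ⟨fun h t => h _ ⟨1, t, (one_smul _ _).symm⟩, fun h _ ⟨c, t, e⟩ => by
      have := eval_bpar hf (fun _ => c) (p t)
      rw [h, mul_zero] at this
      rw [e]
      exact this⟩
  have mem : ∀ {d : Unit → ℕ} {f : MvPolynomial σ Ω}, f ∈ Sd Ω (fun _ : σ => ()) d →
      (fun t => eval (p t) f) ∈ pc (uB (LS.co p hp)) d := fun {d f} hf => by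
    have h1 := (map_Sd (β := fun _ : σ => ()) (fun v t => p t v) d).le ⟨f, hf, rfl⟩
    have e : uB (LS.co p hp) = LS.blk (fun _ : σ => ()) p (hx_unit hp) :=
      funext fun b => (blk_unit hp b).symm
    rw [e]
    have e2 : aeval (fun v t => p t v : σ → G → Ω) f = fun t => MvPolynomial.eval (p t) f :=
      _root_.funext fun t => Sl.aeval_apply _ f t
    exact e2 ▸ h1
  refine ⟨hp, fun z hz h0 => ?_, ?_, ?_, ?_⟩
  · obtain ⟨t, ht⟩ := cl z (fun _ => (ne_iff.1 h0).imp fun _ h => ⟨rfl, h⟩)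
      fun d f hf h => hz f ((form hf).2 h)
    exact ⟨t, Par.bPar.2 ht⟩
  · refine Pr.Hom.isPrime (w := wN fun _ : σ => ()) (fun f hf d => ?_) (fun e => ?_)
      fun d e a b ha hb hab => ?_
    · exact (form (weightedHomogeneousComponent_mem _ f d)).2 fun t =>
        cmp_eval_zero (fun c => hf _ ⟨c, t, rfl⟩) d
    · exact one_ne_zero ((map_one (MvPolynomial.eval (p 0))).symm.trans
        (((Ideal.eq_top_iff_one _).1 e) _ ⟨1, 0, (one_smul _ _).symm⟩))
    · rw [form ha, form hb]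
      refine (src.dom _ _ _ (mem ha) _ (mem hb) (_root_.funext fun t => ?_)).imp
        (fun h t => congrFun h t) fun h t => congrFun h t
      exact (map_mul (MvPolynomial.eval (p t)) a b).symm.trans
        (hab _ ⟨1, t, (one_smul _ _).symm⟩)
  · have h1 := Cnt.not_dg src (W := fun _ : Fin g => LS.co p hp) (by simp)
      (fun _ => Reg.self _ ()) top
    rw [dm_eq hp, pL_univ]
    refine le_antisymm (dg_iff.1 ((dg_const _ _).2 src.dg)) (le_of_not_gt fun hl => h1 ?_)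
    have h2 : Dg (pL fun _ : Fin 1 => LS.co p hp) _ := dg_iff.2 le_rfl
    exact ((dg_const _ _).1 h2).mono (by omega)
  · have h1 : Reg ![(LS.co p hp).pb Prod.fst, (LS.co p hp).pb Prod.snd]
        ((LS.co p hp).pb fun t : G × G => t.1 - t.2) := by
      refine Reg.trans (fun k => ?_) (sub ())
      rcases k with k | k
      · exact Reg.self ![(LS.co p hp).pb Prod.fst, (LS.co p hp).pb Prod.snd] 0
      · exact Reg.self ![(LS.co p hp).pb Prod.fst, (LS.co p hp).pb Prod.snd] 1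
    have h2 := Rg.reg.2 h1
    have e : (fun i => ((![(LS.co p hp).pb Prod.fst, (LS.co p hp).pb Prod.snd] :
        Fin 2 → LS Ω (G × G)) i).sp) = ![crd fun t : G × G => p t.1, crd fun t => p t.2] := by
      funext i
      fin_cases i <;> simp [LS.pb_co] <;> rfl
    rw [e, LS.pb_co] at h2
    exact h2

omit [IsAlgClosed Ω] [AddCommGroup G] in
theorem prp_co {σ : Type} [Finite σ] {p : G → σ → Ω} (hp : ∀ t, p t ≠ 0) {x y : G} :
    Prp (LS.co p hp) x y ↔ Par (p y) (p x) := by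
  refine ⟨fun ⟨c, hc, h⟩ => ⟨c, hc.isUnit, funext fun i =>
    h (fun t => p t i) (Submodule.subset_span ⟨i, rfl⟩)⟩, fun ⟨c, hc, h⟩ => ⟨c, hc.ne_zero, ?_⟩⟩
  intro u hu
  induction hu using Submodule.span_induction with
  | mem u hu => obtain ⟨i, rfl⟩ := hu; exact congrFun h i
  | zero => simp
  | add u v _ _ h1 h2 => rw [Pi.add_apply, Pi.add_apply, h1, h2, mul_add]
  | smul a u _ h1 => rw [Pi.smul_apply, Pi.smul_apply, h1, smul_eq_mul, smul_eq_mul, mul_left_comm]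

namespace Ab

variable (A : Ab Ω G)

/-- coordinates -/
theorem exists_av : ∃ (σ : Type) (_ : Fintype σ) (p : G → σ → Ω) (h : AV p A.n),
    LS.co p h.ne = A.H ∧ ∀ y y', Par (p y) (p y') → y = y' := by
  obtain ⟨σ, _, i, w, p, hx, e, cl⟩ := Ti.cmp_blk A.cmp
  obtain rfl : i = Classical.decEq _ := Subsingleton.elim _ _
  obtain rfl : w = fun _ => () := rfl
  cases nonempty_fintype σ
  have hp : ∀ t, p t ≠ 0 := fun t h => by
    obtain ⟨v, -, hv⟩ := hx t ()
    exact hv (congrFun h v)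
  have e1 : LS.co p hp = A.H := (blk_unit hp ()).symm.trans (congrFun e ())
  exact ⟨σ, inferInstance, p, AV.of_src hp cl (e1 ▸ A.src) (e1 ▸ A.top) (e1 ▸ A.sub), e1,
    fun y y' h => (A.sep _ _ (e1 ▸ (prp_co hp).2 h)).symm⟩

theorem cnt {m : ℕ} (hm : m ≠ 0) : (∀ y : G, ∃ x, m • x = y) ∧ Finite {x : G // m • x = 0} ∧
    Nat.card {x : G // m • x = 0} ≤ m ^ (2 * A.n) ∧
      ((m : Ω) ≠ 0 → Nat.card {x : G // m • x = 0} = m ^ (2 * A.n)) := by
  obtain ⟨σ, _, p, h, e, hi⟩ := A.exists_av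
  exact Cnt.cnt_nsmul h hi (e ▸ A.parL) hm

include A in
theorem nsmul_onto {m : ℕ} (hm : m ≠ 0) : Surjective fun x : G => m • x := (A.cnt hm).1

theorem card_tors {m : ℕ} (hm : (m : Ω) ≠ 0) :
    Nat.card {x : G // m • x = 0} = m ^ (2 * A.n) :=
  (A.cnt fun h => hm (by rw [h, Nat.cast_zero])).2.2.2 hm

theorem exists_tm (l : ℕ) [Fact l.Prime] (hl : (l : Ω) ≠ 0) :
    Nonempty (Ti.TM l G (Fin (2 * A.n))) :=
  Ti.exists_TM (fun x _ _ => A.nsmul_onto (Fact.out : l.Prime).ne_zero x) (A.card_tors hl)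

omit [IsAlgClosed Ω] in
theorem exists_goodL (Ω : Type) [Field Ω] : ∃ l : ℕ, l.Prime ∧ GoodL Ω l := by
  by_cases h : ((5 : ℕ) : Ω) = 0
  · refine ⟨13, by norm_num, fun h' => one_ne_zero (α := Ω) ?_, rfl⟩
    push_cast at h h'
    linear_combination 8 * h - 3 * h'
  · exact ⟨5, by norm_num, h, rfl⟩

end Ab

end Pool.Agent.Tav
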