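import Pool.Agent.P.MP_2ce3e7_ag.Tav.SRg
import Pool.Agent.P.MP_2ce3e7_ag.Tav.HPol

/-! Veronese re-embedding; Hilbert functions that agree in infinitely many degrees. -/

set_option autoImplicit false

noncomputable section

namespace Pool.Agent.Tav.Ver

open MvPolynomial Set Function Tr

section
variable {K T U σ τ ι : Type} [CommRing K]

/-- all monomials of degree `D` -/
def ver (D : ℕ) (z : σ → K) : (Fin D → σ) → K := fun s => ∏ i, z (s i)

/-- the index of `z j * z l ^ n` -/
def ix (n : ℕ) (j l : σ) : Fin (n + 1) → σ := Fin.cons j fun _ => l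

theorem ver_ix (n : ℕ) (z : σ → K) (j l : σ) : ver (n + 1) z (ix n j l) = z j * z l ^ n := by
  simp [ver, ix, Fin.prod_univ_succ]

theorem ver_smul (D : ℕ) (c : K) (z : σ → K) : ver D (c • z) = c ^ D • ver D z := by
  funext s
  simp [ver, Finset.prod_mul_distrib]

theorem ver_map {Ω : Type} [CommRing Ω] (r : K →+* Ω) (D : ℕ) (z : σ → K) :
    (fun s => r (ver D z s)) = ver D fun l => r (z l) := by
  funext s
  simp [ver]

theorem par_ver {x y : σ → K} (h : Par x y) (D : ℕ) : Par (ver D x) (ver D y) := by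
  obtain ⟨c, hc, rfl⟩ := h
  exact ⟨c ^ D, hc.pow D, ver_smul D c y⟩

theorem par_of_ver {n : ℕ} {x y : σ → K} {l : σ} (hl : IsUnit (x l))
    (h : Par (ver (n + 1) x) (ver (n + 1) y)) : Par x y := by
  obtain ⟨c, hc, h⟩ := h
  have h1 : ∀ j, x j * x l ^ n = c * (y j * y l ^ n) := fun j => by
    have := congrFun h (ix n j l)
    rwa [Pi.smul_apply, ver_ix, ver_ix, smul_eq_mul] at this
  have h2 : IsUnit (y l) := by
    have : IsUnit (c * (y l * y l ^ n)) := h1 l ▸ hl.mul (hl.pow n)
    exact isUnit_of_mul_isUnit_left (isUnit_of_mul_isUnit_right this)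
  obtain ⟨u, hu⟩ := hl.pow n
  refine ⟨c * y l ^ n * (u⁻¹ : Kˣ), (hc.mul (h2.pow n)).mul (Units.isUnit _), funext fun j => ?_⟩
  have h3 : x j = x j * x l ^ n * (u⁻¹ : Kˣ) := by rw [← hu, mul_assoc, Units.mul_inv, mul_one]
  rw [h3, h1, Pi.smul_apply, smul_eq_mul]
  ring

theorem crd_ver (D : ℕ) (p : T → σ → K) : (crd fun t => ver D (p t)) = crd p ^ D := by
  apply le_antisymm
  · refine Submodule.span_le.2 ?_
    rintro _ ⟨s, rfl⟩
    have h1 : (fun t => ver D (p t) s) = ∏ i : Fin D, fun t => p t (s i) := by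
      funext t
      simp [ver]
    have h2 := prod_mem_prod (Finset.univ : Finset (Fin D)) (L := fun _ => crd p)
      (u := fun i t => p t (s i)) fun i _ => Submodule.subset_span ⟨s i, rfl⟩
    rw [Finset.prod_const, Finset.card_univ, Fintype.card_fin] at h2
    change (fun t => ver D (p t) s) ∈ crd p ^ D
    rwa [h1]
  · rw [crd, Submodule.span_pow]
    refine Submodule.span_mono fun a ha => ?_
    obtain ⟨f, rfl⟩ := Set.mem_pow.1 ha
    choose s hs using fun i => (f i).2
    refine ⟨s, funext fun t => ?_⟩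
    rw [List.prod_ofFn, Finset.prod_apply]
    exact Finset.prod_congr rfl fun i _ => congrFun (hs i) t

theorem mor_up (D : ℕ) (p : T → σ → K) : Mor p (fun t => ver D (p t)) id := fun _ =>
  ⟨fun _ => D, 1, isUnit_one, fun w hw => by
    rw [one_mul, Fin.prod_univ_one, Matrix.cons_val_zero, ← crd_ver]
    exact hw⟩

theorem mor_down (n : ℕ) {p : T → σ → K} (h : ∀ t, ∃ l, IsUnit (p t l)) :
    Mor (fun t => ver (n + 1) (p t)) p id := fun t => by
  obtain ⟨l, hl⟩ := h t
  refine ⟨fun _ => 1, (fun t => p t l) ^ n, hl.pow n, fun w hw => ?_⟩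
  rw [Fin.prod_univ_one, Matrix.cons_val_zero, pow_one, crd_ver, pow_succ]
  exact Submodule.mul_mem_mul (Submodule.pow_mem_pow _
    (Submodule.subset_span (mem_range_self l)) n) hw

theorem mor_ver (n : ℕ) {p : T → σ → K} {q : U → τ → K} (h : ∀ t, ∃ l, IsUnit (p t l))
    {f : T → U} (hf : Mor p q f) :
    Mor (fun t => ver (n + 1) (p t)) (fun t => ver (n + 1) (q t)) f :=
  Mor_comp (mor_up (n + 1) q) (j := f) (Mor_comp hf (j := id) (mor_down n h))

theorem sub_ver {G : Type} [AddCommGroup G] (n : ℕ) {p : G → σ → K} (h : ∀ t, ∃ l, IsUnit (p t l))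
    (hs : Rg ![crd fun t : G × G => p t.1, crd fun t => p t.2] (crd fun t => p (t.1 - t.2))) :
    Rg ![crd fun t : G × G => ver (n + 1) (p t.1), crd fun t => ver (n + 1) (p t.2)]
      (crd fun t => ver (n + 1) (p (t.1 - t.2))) := by
  refine Mor_comp (mor_up (n + 1) p) (j := fun t : G × G => t.1 - t.2) ?_
  refine rg_comp2 (f := fun t : G × G => t.1 - t.2) hs (j := Prod.fst) (j' := Prod.snd) ?_ ?_
  · exact Mor_comp (mor_down n h) (j := Prod.fst) (rg_self _ 0)
  · exact Mor_comp (mor_down n h) (j := Prod.snd) (rg_self _ 1)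

theorem law_ver {G : Type} [AddCommGroup G] (D : ℕ) {x : G → σ → K} {c : G × G → K}
    (h : ∀ i j, (c * fun t => x (t.1 + t.2) i * x (t.1 - t.2) j) ∈
      (crd fun t => x t.1) ^ 2 * (crd fun t => x t.2) ^ 2) (i j : Fin D → σ) :
    (c ^ D * fun t => ver D (x (t.1 + t.2)) i * ver D (x (t.1 - t.2)) j) ∈
      (crd fun t => ver D (x t.1)) ^ 2 * (crd fun t => ver D (x t.2)) ^ 2 := by
  have h2 := prod_mem_prod (Finset.univ : Finset (Fin D)) fun k _ => h (i k) (j k)
  rw [Finset.prod_const, Finset.card_univ, Fintype.card_fin, mul_pow, ← pow_mul, ← pow_mul,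
    Finset.prod_mul_distrib, Finset.prod_const, Finset.card_univ, Fintype.card_fin] at h2
  rw [crd_ver D fun t : G × G => x t.1, crd_ver D fun t : G × G => x t.2, ← pow_mul, ← pow_mul,
    mul_comm D 2]
  have h3 : (fun t : G × G => ver D (x (t.1 + t.2)) i * ver D (x (t.1 - t.2)) j) =
      ∏ k : Fin D, fun t : G × G => x (t.1 + t.2) (i k) * x (t.1 - t.2) (j k) := by
    funext t
    simp [ver, Finset.prod_mul_distrib]
  rwa [h3]

end

section
variable {K T σ ι : Type} [Field K]

theorem lg_iff [Fintype ι] {p : (ι → ℕ) → Prop} : Lg p ↔ ∀ᶠ d in Filter.atTop, p d := by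
  rw [Filter.eventually_atTop]
  constructor
  · rintro ⟨N, h⟩
    exact ⟨fun _ => N, fun d hd => h d hd⟩
  · rintro ⟨a, h⟩
    exact ⟨∑ i, a i, fun d hd => h d fun i =>
      (Finset.single_le_sum (fun _ _ => Nat.zero_le _) (Finset.mem_univ i)).trans (hd i)⟩

theorem hp_pf [Fintype ι] (L : ι → Submodule K (T → K)) : hp L = pf L := by
  unfold hp pf hP
  congr 1
  funext P
  exact propext lg_iff.symm

theorem coeff_scale (a : ℚ) (P : MvPolynomial ι ℚ) (s : ι →₀ ℕ) :
    coeff s (aeval (fun i => C a * X i) P : MvPolynomial ι ℚ) = a ^ s.degree * coeff s P := by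
  classical
  induction P using MvPolynomial.induction_on' with
  | monomial u c =>
    have : (aeval (fun i => C a * X i) (monomial u c) : MvPolynomial ι ℚ) =
        C (a ^ u.degree) * monomial u c := by
      rw [aeval_monomial, monomial_eq, algebraMap_eq, Finsupp.degree_apply, Finsupp.prod,
        Finsupp.prod, ← Finset.prod_pow_eq_pow_sum, map_prod]
      simp only [mul_pow, Finset.prod_mul_distrib, map_pow]
      ring
    rw [this, coeff_C_mul, coeff_monomial]
    split_ifs with h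
    · rw [h]
    · simp
  | add P Q hP hQ => rw [map_add, coeff_add, coeff_add, hP, hQ, mul_add]

theorem totalDegree_scale {a : ℚ} (ha : a ≠ 0) (P : MvPolynomial ι ℚ) :
    (aeval (fun i => C a * X i) P : MvPolynomial ι ℚ).totalDegree = P.totalDegree := by
  have : (aeval (fun i => C a * X i) P : MvPolynomial ι ℚ).support = P.support := by
    ext s
    rw [mem_support_iff, mem_support_iff, coeff_scale]
    simp [ha]
  rw [totalDegree, totalDegree, this]

instance fd_crd [Finite σ] (p : T → σ → K) : FiniteDimensional K (crd p) :=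
  FiniteDimensional.span_of_finite K (finite_range _)

theorem evP_one (M : Submodule K (T → K)) [FiniteDimensional K M] :
    EvP (fun d : Fin 1 → ℕ => (Module.finrank K (M ^ d 0 :) : ℚ)) (pf ![M]) := by
  have : ∀ i, FiniteDimensional K (![M] i) := fun i => by
    rw [Subsingleton.elim i 0]
    exact ‹FiniteDimensional K M›
  refine (evP_pf ![M]).congr (Lg.of_forall fun d => ?_)
  rw [Tav.hf, Fin.prod_univ_one, Matrix.cons_val_zero]

theorem pf_pow (M : Submodule K (T → K)) [FiniteDimensional K M] {D : ℕ} (hD : D ≠ 0) :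
    pf ![M ^ D] = aeval (fun i => C (D : ℚ) * X i) (pf ![M]) := by
  refine EvP.hP_eq ?_
  obtain ⟨N, h⟩ := evP_one M
  refine ⟨N, fun d hd => ?_⟩
  have h1 : evN (fun i => D * d i) (pf ![M]) = (Module.finrank K (M ^ (D * d 0) :) : ℚ) :=
    h (fun i => D * d i) fun i => (hd i).trans (Nat.le_mul_of_pos_left _ (Nat.pos_of_ne_zero hD))
  have h2 : ∏ i, ![M ^ D] i ^ d i = M ^ (D * d 0) := by
    rw [Fin.prod_univ_one, Matrix.cons_val_zero, pow_mul]
  change _ = ((Module.finrank K (∏ i, ![M ^ D] i ^ d i :) : ℕ) : ℚ)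
  rw [h2, ← h1, evN, evN, eval_aev]
  simp

theorem dm_ver [Finite σ] {G : Type} (p : G → σ → K) {D : ℕ} (hD : D ≠ 0) (Z : Set G) :
    dm (fun t => ver D (p t)) Z = dm p Z := by
  rw [dm, dm, hp_pf, hp_pf, crd_ver D fun z : Z => p z, pf_pow _ hD,
    totalDegree_scale (Nat.cast_ne_zero.2 hD)]

/-- substitution of the monomials -/
def vs (K σ : Type) [Field K] (D : ℕ) : MvPolynomial (Fin D → σ) K →ₐ[K] MvPolynomial σ K :=
  aeval (ver D X)

theorem eval_vs (D : ℕ) (z : σ → K) (f : MvPolynomial (Fin D → σ) K) :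
    eval z (vs K σ D f) = eval (ver D z) f := by
  rw [vs, ← coe_aeval_eq_eval, ← coe_aeval_eq_eval]
  change (aeval z) (aeval (ver D X) f) = aeval (ver D z) f
  rw [← AlgHom.comp_apply, comp_aeval]
  congr 2
  funext s
  simp [ver]

theorem mem_idl {p : T → σ → K} {f : MvPolynomial σ K} :
    f ∈ idl p ↔ ∀ (c : K) t, eval (c • p t) f = 0 := by
  rw [idl, mem_vanishingIdeal_iff]
  constructor
  · exact fun h c t => h _ ⟨c, t, rfl⟩
  · rintro h _ ⟨c, t, rfl⟩
    exact h c t

theorem idl_ver [IsAlgClosed K] (p : T → σ → K) {D : ℕ} (hD : D ≠ 0) :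
    (idl fun t => ver D (p t)) = (idl p).comap (vs K σ D) := by
  ext f
  rw [Ideal.mem_comap, mem_idl, mem_idl]
  constructor
  · intro h c t
    rw [eval_vs, ver_smul]
    exact h _ t
  · intro h c t
    obtain ⟨e, rfl⟩ := IsAlgClosed.exists_pow_nat_eq c (Nat.pos_of_ne_zero hD)
    rw [← ver_smul, ← eval_vs]
    exact h e t

theorem ver_ne {n : ℕ} {z : σ → K} (h : z ≠ 0) : ver (n + 1) z ≠ 0 := fun h0 => by
  obtain ⟨l, hl⟩ := Function.ne_iff.1 h
  have := congrFun h0 (ix n l l)
  rw [ver_ix] at this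
  exact mul_ne_zero hl (pow_ne_zero n hl) this

theorem unit_of_ne {z : σ → K} (h : z ≠ 0) : ∃ l, IsUnit (z l) := by
  obtain ⟨l, hl⟩ := Function.ne_iff.1 h
  exact ⟨l, Ne.isUnit hl⟩

theorem cl_ver (n : ℕ) {p : T → σ → K}
    (h : ∀ z ∈ zeroLocus K (idl p), z ≠ 0 → ∃ x, Par z (p x)) :
    ∀ z ∈ zeroLocus K (idl fun t => ver (n + 1) (p t)), z ≠ 0 →
      ∃ x, Par z (ver (n + 1) (p x)) := by
  intro z hz h0
  have hz' : ∀ f : MvPolynomial (Fin (n + 1) → σ) K,
      (∀ (c : K) t, eval (c • ver (n + 1) (p t)) f = 0) → eval z f = 0 :=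
    fun f hf => hz f (mem_idl.2 hf)
  obtain ⟨s, hs⟩ := Function.ne_iff.1 h0
  have h1 : z s ^ (n + 1) = ∏ i, z (ix n (s i) (s i)) := by
    have := hz' (X s ^ (n + 1) - ∏ i, X (ix n (s i) (s i))) fun c t => by
      simp only [map_sub, map_pow, map_prod, eval_X, Pi.smul_apply, smul_eq_mul, ver_ix]
      simp only [ver, Finset.prod_mul_distrib, Finset.prod_const, Finset.card_univ,
        Fintype.card_fin, Finset.prod_pow]
      ring
    simpa [sub_eq_zero] using this
  have h2 : z (ix n (s 0) (s 0)) ≠ 0 := fun h => pow_ne_zero (n + 1) hs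
    (h1.trans (Finset.prod_eq_zero (Finset.mem_univ 0) h))
  set l := s 0
  have h3 : ver (n + 1) (fun j => z (ix n j l)) = z (ix n l l) ^ n • z := by
    funext u
    have := hz' (∏ i, X (ix n (u i) l) - X (ix n l l) ^ n * X u) fun c t => by
      simp only [map_sub, map_mul, map_pow, map_prod, eval_X, Pi.smul_apply, smul_eq_mul, ver_ix]
      simp only [ver, Finset.prod_mul_distrib, Finset.prod_const, Finset.card_univ,
        Fintype.card_fin]
      ring
    simpa [sub_eq_zero, ver] using this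
  obtain ⟨x, hx⟩ := h (fun j => z (ix n j l)) (fun f hf => by
    have e : ∀ y : (Fin (n + 1) → σ) → K, eval y (rename (fun j => ix n j l) f) =
        eval (fun j => y (ix n j l)) f := fun y => eval_rename _ _ _
    have := hz' (rename (fun j => ix n j l) f) fun c t => by
      rw [e]
      have : (fun j => (c • ver (n + 1) (p t)) (ix n j l)) = (c * p t l ^ n) • p t := by
        funext j
        simp only [Pi.smul_apply, smul_eq_mul, ver_ix]
        ring
      rw [this]
      exact mem_idl.1 hf _ t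
    rw [e] at this
    exact this) (fun h => h2 (congrFun h l))
  obtain ⟨c, hc, hx⟩ := par_ver hx (n + 1)
  refine ⟨x, (z (ix n l l) ^ n)⁻¹ * c, (Ne.isUnit (inv_ne_zero (pow_ne_zero n h2))).mul hc, ?_⟩
  rw [mul_smul, ← hx, h3, smul_smul, inv_mul_cancel₀ (pow_ne_zero n h2), one_smul]

theorem av_ver [IsAlgClosed K] [Finite σ] {G : Type} [AddCommGroup G] {p : G → σ → K} {g : ℕ}
    (h : AV p g) (n : ℕ) : AV (fun t => ver (n + 1) (p t)) g where
  ne x := ver_ne (h.ne x)
  cl := cl_ver n h.cl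
  irr := by
    rw [idl_ver p n.succ_ne_zero]
    have := h.irr
    exact Ideal.comap_isPrime _ _
  dim := (dm_ver p n.succ_ne_zero _).trans h.dim
  sub := sub_ver n (fun t => unit_of_ne (h.ne t)) h.sub

theorem finrank_one [Nonempty T] : Module.finrank K (1 : Submodule K (T → K)) = 1 := by
  rw [Submodule.one_eq_span]
  exact finrank_span_singleton one_ne_zero

theorem flat_large {K' T' : Type} [Field K'] (M : Submodule K (T → K)) [FiniteDimensional K M]
    (M' : Submodule K' (T' → K')) [FiniteDimensional K' M']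
    (h : ∀ N, ∃ d, N ≤ d ∧ Module.finrank K (M ^ d :) = Module.finrank K' (M' ^ d :)) :
    ∃ N, ∀ d, N ≤ d → Module.finrank K (M ^ d :) = Module.finrank K' (M' ^ d :) := by
  obtain ⟨N, hN⟩ := (evP_one M).sub (evP_one M')
  set Q := ln (fun _ => 1) (pf ![M] - pf ![M'])
  have hQ : ∀ d : ℕ, N ≤ d → Q.eval (d : ℚ) =
      (Module.finrank K (M ^ d :) : ℚ) - Module.finrank K' (M' ^ d :) := fun d hd => by
    rw [eval_ln]
    refine Eq.trans ?_ (hN (fun _ => d) fun _ => hd)
    simp [evN]
  have h0 : Q = 0 := by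
    refine Polynomial.eq_zero_of_infinite_isRoot _ ?_
    have : {d : ℕ | Q.IsRoot d}.Infinite := Set.infinite_of_forall_exists_gt fun a => by
      obtain ⟨d, hd, e⟩ := h (max N (a + 1))
      exact ⟨d, by rw [mem_ofPred_eq, Polynomial.IsRoot, hQ d ((le_max_left _ _).trans hd), e,
        sub_self], (le_max_right _ _).trans hd⟩
    exact (this.image Nat.cast_injective.injOn).mono (by rintro _ ⟨d, hd, rfl⟩; exact hd)
  refine ⟨N, fun d hd => ?_⟩
  have := hQ d hd
  rw [h0, Polynomial.eval_zero, eq_comm, sub_eq_zero] at this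
  exact_mod_cast this

/-- equal Hilbert functions in infinitely many degrees give equal Hilbert polynomials -/
theorem hp_eq_of_io {K' T' : Type} [Field K'] (M : Submodule K (T → K)) [FiniteDimensional K M]
    (M' : Submodule K' (T' → K')) [FiniteDimensional K' M']
    (h : ∀ N, ∃ d, N ≤ d ∧ Module.finrank K (M ^ d :) = Module.finrank K' (M' ^ d :)) :
    hp ![M] = hp ![M'] := by
  obtain ⟨N, hN⟩ := flat_large M M' h
  rw [hp_pf, hp_pf]
  refine EvP.unique (evP_one M) ((evP_one M').congr ⟨N, fun d hd => ?_⟩)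
  exact congrArg Nat.cast (hN _ (hd 0)).symm

end

theorem hol_ver {V σ : Type} [NormedAddCommGroup V] [NormedSpace ℂ V] [Fintype σ] (n : ℕ)
    {φ : V → σ → ℂ} (hd : Differentiable ℂ φ) (h0 : ∀ v, φ v ≠ 0)
    (h : ∀ v w (c : ℂ), fderiv ℂ φ v w = c • φ v → w = 0) :
    Differentiable ℂ (fun v => ver (n + 1) (φ v)) ∧ ∀ v w (c : ℂ),
      fderiv ℂ (fun v => ver (n + 1) (φ v)) v w = c • ver (n + 1) (φ v) → w = 0 := by
  have hl : ∀ l, Differentiable ℂ fun v => φ v l := fun l => differentiable_pi.1 hd l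
  have hv : Differentiable ℂ (fun v => ver (n + 1) (φ v)) := differentiable_pi.2 fun s =>
    fun v => (HasFDerivAt.finsetProd (u := Finset.univ) (g := fun i v => φ v (s i))
      fun i _ => (hl (s i) v).hasFDerivAt).differentiableAt
  refine ⟨hv, fun v w c e => ?_⟩
  obtain ⟨l, hl0⟩ := Function.ne_iff.1 (h0 v)
  have hl0 : φ v l ≠ 0 := hl0
  have e1 : ∀ j, φ v j * (n * φ v l ^ (n - 1) * fderiv ℂ φ v w l) +
      φ v l ^ n * fderiv ℂ φ v w j = c * (φ v j * φ v l ^ n) := fun j => by
    have a := congrFun e (ix n j l)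
    rw [Pi.smul_apply, ver_ix, smul_eq_mul] at a
    rw [← a]
    have b := (hasFDerivAt_pi'.1 (hv v).hasFDerivAt) (ix n j l)
    have b1 := fun j => (hasFDerivAt_pi'.1 (hd v).hasFDerivAt) j
    have b2 := (b1 j).mul ((b1 l).pow n)
    have b3 : (fun v => ver (n + 1) (φ v) (ix n j l)) = (fun v => φ v j) * fun v => φ v l ^ n :=
      funext fun v => ver_ix n _ j l
    rw [b3] at b
    have := DFunLike.congr_fun (b.unique b2) w
    simpa [mul_assoc] using this.symm
  refine h v w (fderiv ℂ φ v w l / φ v l) (funext fun j => ?_)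
  have e2 := e1 j
  have e3 := e1 l
  rw [Pi.smul_apply, smul_eq_mul, div_mul_eq_mul_div, eq_div_iff hl0]
  refine mul_left_cancel₀ (pow_ne_zero n hl0) ?_
  linear_combination φ v l * e2 - φ v j * e3

end Pool.Agent.Tav.Ver
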