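import Pool.Agent.P.MP_2ce3e7_ag.Tav.CuCore
import Pool.Agent.P.MP_2ce3e7_ag.Tav.CuGrp
import Pool.Agent.P.MP_2ce3e7_ag.Tav.MAV
import Pool.Agent.P.MP_2ce3e7_ag.Tav.GMul
import Pool.Agent.P.MP_2ce3e7_ag.Tav.GrVer

/-! Every abelian variety has an embedding with the exact parallelogram law. -/

set_option autoImplicit false

noncomputable section

namespace Pool.Agent.Tav.Cu

open MvPolynomial Set

variable {Ω : Type} [Field Ω] {T U σ τ : Type}

theorem loc_all : S_Loc Ω := loc_of_core fun hA hB hC =>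
  core hA.fg hA.nv hA.dm hB.fg hB.nv hB.dm hA.cpl hB.cpl hC.fg hC.nv (hA.box hB).cpl

theorem crd_map (j : T → U) (p : U → σ → Ω) :
    (crd p).map (pb Ω j).toLinearMap = crd fun t => p (j t) := by
  rw [crd, Submodule.map_span, ← range_comp]
  rfl

theorem crd_mem (p : T → σ → Ω) (l : σ) : (fun t => p t l) ∈ crd p := Submodule.subset_span ⟨l, rfl⟩

theorem crd_nv {p : T → σ → Ω} (hp : ∀ t, p t ≠ 0) : Nv (crd p) := fun t =>
  let ⟨l, hl⟩ := Function.ne_iff.1 (hp t); ⟨_, crd_mem p l, hl⟩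

theorem ne_of_nv {p : T → σ → Ω} (h : Nv (crd p)) (t : T) : p t ≠ 0 := fun e => by
  obtain ⟨u, hu, h0⟩ := h t
  refine h0 (Submodule.span_le (p := LinearMap.ker (LinearMap.proj t : (T → Ω) →ₗ[Ω] Ω)).2 ?_ hu)
  rintro _ ⟨l, rfl⟩
  exact congrFun e l

theorem mor_iff {p : T → σ → Ω} {q : U → τ → Ω} {f : T → U} :
    Mor p q f ↔ Mp (crd p) (crd q) f := by
  refine forall_congr' fun t => ⟨?_, ?_⟩
  · rintro ⟨e, c, hc, h⟩
    refine ⟨e 0, c, hc.ne_zero, fun u hu => ?_⟩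
    have := h _ (crd_map f q ▸ Submodule.mem_map_of_mem hu)
    rwa [Fin.prod_univ_one] at this
  · rintro ⟨e, c, hc, h⟩
    refine ⟨fun _ => e, c, hc.isUnit, fun w hw => ?_⟩
    rw [← crd_map] at hw
    obtain ⟨u, hu, rfl⟩ := hw
    rw [Fin.prod_univ_one]
    exact h u hu

theorem crd_seg (p : T → σ → Ω) (q : T → τ → Ω) :
    (crd fun t (l : σ × τ) => p t l.1 * q t l.2) = crd p * crd q := by
  rw [crd, crd, crd, Submodule.span_mul_span]
  congr 1
  ext u
  exact ⟨fun ⟨l, h⟩ => ⟨_, ⟨l.1, rfl⟩, _, ⟨l.2, rfl⟩, h⟩,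
    fun ⟨_, ⟨a, rfl⟩, _, ⟨b, rfl⟩, h⟩ => ⟨(a, b), h⟩⟩

/-- the cone over the image -/
def cone (p : T → σ → Ω) : MvPolynomial σ Ω →ₐ[Ω] Polynomial (T → Ω) :=
  aeval fun l => Polynomial.monomial 1 fun t => p t l

theorem cone_mem (p : T → σ → Ω) (F : MvPolynomial σ Ω) : cone p F ∈ RS (crd p) := by
  induction F using MvPolynomial.induction_on with
  | C a => rw [← algebraMap_eq, AlgHom.commutes]; exact Subalgebra.algebraMap_mem _ a
  | add a b ha hb => rw [map_add]; exact add_mem ha hb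
  | mul_X a l ha =>
    rw [map_mul, cone, aeval_X]
    exact mul_mem ha (monomial_mem_RS (by rw [pow_one]; exact crd_mem p l))

theorem cone_eval (p : T → σ → Ω) (F : MvPolynomial σ Ω) (c : Ω) (t : T) :
    ((cone p F).map (Pi.evalRingHom (fun _ => Ω) t)).eval c = eval (c • p t) F := by
  induction F using MvPolynomial.induction_on with
  | C a => rw [← algebraMap_eq, AlgHom.commutes]; simp
  | add a b ha hb => simp [ha, hb]
  | mul_X a l ha =>
    rw [map_mul, Polynomial.map_mul, Polynomial.eval_mul, ha, cone, aeval_X]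
    simp [mul_comm]

theorem mem_idl_iff [Infinite Ω] {p : T → σ → Ω} {F : MvPolynomial σ Ω} :
    F ∈ idl p ↔ cone p F = 0 := by
  rw [Ver.mem_idl]
  refine ⟨fun h => Polynomial.ext fun d => funext fun t => ?_, fun h c t => ?_⟩
  · have : (cone p F).map (Pi.evalRingHom (fun _ => Ω) t) = 0 :=
      Polynomial.funext fun c => by rw [cone_eval, h, Polynomial.eval_zero]
    simpa using congrArg (·.coeff d) this
  · rw [← cone_eval, h]; simp

theorem idl_prime [Infinite Ω] [Nonempty T] {p : T → σ → Ω} (h : Dm (crd p)) :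
    (idl p).IsPrime := by
  refine ⟨fun e => ?_, fun {F G} hFG => ?_⟩
  · have := mem_idl_iff.1 ((Ideal.eq_top_iff_one _).1 e)
    rw [map_one] at this
    exact one_ne_zero this
  · simp only [mem_idl_iff, map_mul] at hFG ⊢
    have := congrArg (·.coeff ((cone p F).natDegree + (cone p G).natDegree)) hFG
    simp only [Polynomial.coeff_mul_degree_add_degree, Polynomial.coeff_zero] at this
    exact (h _ _ _ (cone_mem p F _) _ (cone_mem p G _) this).imp Polynomial.leadingCoeff_eq_zero.1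
      Polynomial.leadingCoeff_eq_zero.1

theorem cone_onto (p : T → σ → Ω) (n : ℕ) :
    ∀ f ∈ crd p ^ n, ∃ F, cone p F = Polynomial.monomial n f := by
  have h1 : ∀ f ∈ crd p, ∃ F, cone p F = Polynomial.monomial 1 f := fun f hf => by
    induction hf using Submodule.span_induction with
    | mem x hx => obtain ⟨l, rfl⟩ := hx; exact ⟨X l, aeval_X _ _⟩
    | zero => exact ⟨0, by simp⟩
    | add x y _ _ hx hy =>
      obtain ⟨F, hF⟩ := hx
      obtain ⟨G, hG⟩ := hy
      exact ⟨F + G, by rw [map_add, map_add, hF, hG]⟩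
    | smul c x _ hx =>
      obtain ⟨F, hF⟩ := hx
      exact ⟨c • F, by rw [map_smul, hF, Polynomial.smul_monomial]⟩
  induction n with
  | zero =>
    intro f hf
    rw [pow_zero, Submodule.mem_one] at hf
    obtain ⟨c, rfl⟩ := hf
    exact ⟨algebraMap _ _ c, (cone p).commutes c⟩
  | succ n ih =>
    intro f hf
    rw [pow_succ] at hf
    refine Submodule.mul_induction_on hf (fun a ha b hb => ?_) ?_
    · obtain ⟨F, hF⟩ := ih a ha
      obtain ⟨G, hG⟩ := h1 b hb
      exact ⟨F * G, by rw [map_mul, hF, hG, Polynomial.monomial_mul_monomial]⟩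
    · rintro a b ⟨F, hF⟩ ⟨G, hG⟩
      exact ⟨F + G, by rw [map_add, map_add, hF, hG]⟩

theorem cl_of_cpl [Infinite Ω] {p : T → σ → Ω} (hp : ∀ t, p t ≠ 0) (h : Cpl (crd p)) :
    ∀ z ∈ zeroLocus Ω (idl p), z ≠ 0 → ∃ x, Par z (p x) := fun z hz h0 => by
  obtain ⟨l, hl⟩ := Function.ne_iff.1 h0
  have hl : z l ≠ 0 := hl
  by_contra hn
  let u : σ → T → Ω := fun i => z l • (fun t => p t i) - z i • fun t => p t l
  obtain ⟨N, hN⟩ := h 1 (Submodule.span Ω (range u)) (by
    rw [pow_one, Submodule.span_le]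
    rintro _ ⟨i, rfl⟩
    exact sub_mem (Submodule.smul_mem _ _ (crd_mem p i)) (Submodule.smul_mem _ _ (crd_mem p l)))
    fun t => by
      by_contra h1
      have h2 : ∀ i, z l * p t i = z i * p t l := fun i => sub_eq_zero.1
        (not_not.1 fun e => h1 ⟨u i, Submodule.subset_span ⟨i, rfl⟩, e⟩)
      have h3 : p t l ≠ 0 := fun e => hp t (funext fun i => by
        have := h2 i
        rw [e, mul_zero] at this
        exact (mul_eq_zero.1 this).resolve_left hl)
      refine hn ⟨t, z l / p t l, (div_ne_zero hl h3).isUnit, funext fun i => ?_⟩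
      rw [Pi.smul_apply, smul_eq_mul, div_mul_eq_mul_div, h2, mul_div_cancel_right₀ _ h3]
  have h1 : ∀ f ∈ Submodule.span Ω (range u),
      ∃ F, cone p F = Polynomial.monomial 1 f ∧ eval z F = 0 := fun f hf => by
    induction hf using Submodule.span_induction with
    | mem x hx =>
      obtain ⟨i, rfl⟩ := hx
      refine ⟨z l • X i - z i • X l, ?_, by simp [mul_comm]⟩
      simp only [u, map_sub, map_smul, cone, aeval_X, Polynomial.smul_monomial]
    | zero => exact ⟨0, by simp⟩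
    | add x y _ _ hx hy =>
      obtain ⟨F, hF, e⟩ := hx
      obtain ⟨G, hG, e'⟩ := hy
      exact ⟨F + G, by rw [map_add, map_add, hF, hG], by rw [map_add, e, e', add_zero]⟩
    | smul c x _ hx =>
      obtain ⟨F, hF, e⟩ := hx
      exact ⟨c • F, by rw [map_smul, hF, Polynomial.smul_monomial], by simp [e]⟩
  obtain ⟨F, hF, e⟩ : ∃ F, cone p F = Polynomial.monomial (1 + N) ((fun t => p t l) ^ (N + 1)) ∧
      eval z F = 0 := by
    refine Submodule.mul_induction_on (C := fun f => ∃ F,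
      cone p F = Polynomial.monomial (1 + N) f ∧ eval z F = 0)
      (hN (Submodule.pow_mem_pow _ (crd_mem p l) _)) (fun a ha b hb => ?_) ?_
    · obtain ⟨F, hF, e⟩ := h1 a ha
      obtain ⟨G, hG⟩ := cone_onto p N b hb
      exact ⟨F * G, by rw [map_mul, hF, hG, Polynomial.monomial_mul_monomial],
        by rw [map_mul, e, zero_mul]⟩
    · rintro a b ⟨F, hF, e⟩ ⟨G, hG, e'⟩
      exact ⟨F + G, by rw [map_add, map_add, hF, hG], by rw [map_add, e, e', add_zero]⟩
  have h2 : F - X l ^ (N + 1) ∈ idl p := mem_idl_iff.2 (by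
    rw [map_sub, hF, map_pow (cone p), cone, aeval_X, Polynomial.monomial_pow, one_mul, add_comm,
      sub_self])
  have h3 : eval z (F - X l ^ (N + 1)) = 0 := hz _ h2
  rw [map_sub, e, map_pow, eval_X, zero_sub, neg_eq_zero] at h3
  exact pow_ne_zero _ hl h3

variable {G : Type} [AddCommGroup G] [Fintype σ] [Fintype τ] {p : G → σ → Ω} {g : ℕ}

omit [AddCommGroup G] in
theorem pc_unit (V : LS Ω G) (d : Unit → ℕ) : pc (fun _ : Unit => V) d = V.sp ^ d () := by
  simp [pc]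

theorem vr_of_av [IsAlgClosed Ω] (h : AV p g) : Vr (crd p) := by
  refine ⟨Submodule.fg_span (finite_range _), crd_nv h.ne, fun a b f hf f' hf' =>
    h.src.dom (fun _ => a) (fun _ => b) f (by rwa [pc_unit]) f' (by rwa [pc_unit]),
    fun e U hU h0 => ?_⟩
  have e1 : LS.blk (fun _ : σ => ()) p (hx_unit h.ne) = fun _ => LS.co p h.ne :=
    funext (blk_unit h.ne)
  obtain ⟨N, hN⟩ := Bpf.of_cl (hx_unit h.ne) h.cl' (e := fun _ => e) (U := U)
    (by rwa [e1, pc_unit]) h0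
  have := hN (fun _ => N) fun _ => le_rfl
  rw [e1, pc_unit, pc_unit] at this
  exact ⟨N, this.ge⟩

omit [Fintype σ] in
theorem sb_iff (hp : ∀ t, p t ≠ 0) :
    Rg ![crd fun t : G × G => p t.1, crd fun t => p t.2] (crd fun t => p (t.1 - t.2)) ↔
      Sb (crd p) := by
  have e0 : box (crd p) (crd p) = (crd fun t : G × G => p t.1) * crd fun t => p t.2 := by
    rw [box, crd_map, crd_map]
  refine forall_congr' fun t => ⟨?_, ?_⟩
  · rintro ⟨e, c, hc, h⟩
    obtain ⟨a, ha, h1⟩ := (crd_nv fun t : G × G => hp t.1).pow (e 1) t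
    obtain ⟨b, hb, h2⟩ := (crd_nv fun t : G × G => hp t.2).pow (e 0) t
    refine ⟨e 0 + e 1, a * b * c, mul_ne_zero (mul_ne_zero h1 h2) hc.ne_zero, fun u hu => ?_⟩
    have h3 := h _ (crd_map (fun t : G × G => t.1 - t.2) p ▸ Submodule.mem_map_of_mem hu)
    rw [Fin.prod_univ_two, Matrix.cons_val_zero, Matrix.cons_val_one, Matrix.cons_val_zero] at h3
    have h4 := Submodule.mul_mem_mul (Submodule.mul_mem_mul ha hb) h3
    rw [mul_mul_mul_comm (_ ^ e 1), ← pow_add, ← pow_add, add_comm (e 1), ← mul_pow, ← e0,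
      ← mul_assoc] at h4
    exact h4
  · rintro ⟨e, c, hc, h⟩
    refine ⟨fun _ => e, c, hc.isUnit, fun w hw => ?_⟩
    rw [← crd_map (fun t : G × G => t.1 - t.2) p] at hw
    obtain ⟨u, hu, rfl⟩ := hw
    rw [Fin.prod_univ_two, Matrix.cons_val_zero, Matrix.cons_val_one, Matrix.cons_val_zero,
      ← mul_pow, ← e0]
    exact h u hu

theorem av_of_vr [Infinite Ω] (h : AV p g) {q : G → τ → Ω} (hq : Vr (crd q)) (hs : Sb (crd q))
    (h1 : Mor p q id) (h2 : Mor q p id) : AV q g := by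
  have hn := ne_of_nv hq.nv
  refine ⟨hn, cl_of_cpl hn hq.cpl, idl_prime hq.dm, ?_, (sb_iff hn).2 hs⟩
  have s1 : Src (fun _ : Unit => LS.co q hn) g :=
    h.src.of_reg fun _ => LS.pb_id (LS.co q hn) ▸ h1.reg h.ne hn
  have s2 : Src (fun _ : Unit => LS.co q hn) (dm q univ) :=
    ⟨s1.ne, s1.dom, pL_univ (fun _ : Unit => LS.co q hn) ▸ (dm_le_iff hn _ _).1 le_rfl⟩
  have s3 : Src (fun _ : Unit => LS.co p h.ne) (dm q univ) :=
    s2.of_reg fun _ => LS.pb_id (LS.co p h.ne) ▸ h2.reg hn h.ne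
  refine le_antisymm ((dm_le_iff hn _ _).2 ?_) (h.dim ▸ (dm_le_iff h.ne _ _).2 ?_)
  · rw [pL_univ fun _ : Unit => LS.co q hn]; exact s1.dg
  · rw [pL_univ fun _ : Unit => LS.co p h.ne]; exact s3.dg

omit [Fintype σ] [Fintype τ] in
theorem par_left {x y : σ → Ω} {x' y' : τ → Ω} (hx : x' ≠ 0) (h0 : x ≠ 0)
    (h : Par (fun l : σ × τ => x l.1 * x' l.2) fun l => y l.1 * y' l.2) : Par x y := by
  obtain ⟨c, -, h⟩ := h
  obtain ⟨l, hl⟩ := Function.ne_iff.1 hx
  have hl : x' l ≠ 0 := hl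
  have h1 : x = (c * y' l / x' l) • y := funext fun i => by
    have : x i * x' l = c * (y i * y' l) := congrFun h (i, l)
    rw [Pi.smul_apply, smul_eq_mul, div_mul_eq_mul_div, eq_div_iff hl, this]
    ring
  exact ⟨_, Ne.isUnit fun e => h0 (by rw [h1, e, zero_smul]), h1⟩

/-- CUBE -/
theorem cube [IsAlgClosed Ω] (h : AV p g) :
    ∃ (τ₁ : Type) (_ : Fintype τ₁) (q : G → τ₁ → Ω), AV q g ∧
      ((∀ y y', Par (p y) (p y') → y = y') → ∀ y y', Par (q y) (q y') → y = y') ∧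
      Mor p q id ∧ Mor q p id ∧
      (∃ c : G × G → Ω, (∀ t, c t ≠ 0) ∧ ∀ i j,
        (c * fun t => q (t.1 + t.2) i * q (t.1 - t.2) j) ∈
          (crd fun t : G × G => q t.1) ^ 2 * (crd fun t : G × G => q t.2) ^ 2) ∧
      ∀ (F : G →+ G) (Q : ℕ), (∀ y, Par (p (F y)) (p y ^ Q)) → ∀ y, Par (q (F y)) (q y ^ Q) := by
  classical
  have hV := vr_of_av h
  have hs := (sb_iff h.ne).1 h.sub
  obtain ⟨n, c, h0, hc⟩ := law_pow loc_all hV hs
  let s : G → σ × σ → Ω := fun x l => p x l.1 * p (-x) l.2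
  have e1 : crd s = sym (crd p) := by rw [sym, crd_map, ← crd_seg]
  have e2 : (crd fun x => Ver.ver (n + 1) (s x)) = sym (crd p) ^ (n + 1) := by
    rw [Ver.crd_ver, e1]
  have hW := hV.sym hs
  have m1 : Mp (crd p) (sym (crd p) ^ (n + 1)) fun x => x := (hs.mp_sym (Mp.id _)).pow _
  have m2 : Mp (sym (crd p) ^ (n + 1)) (crd p) fun x => x :=
    (mp_sym hV.nv).comp (Mp.of_pow hW.nv n.succ_ne_zero)
  have n1 := hW.nv.pow (n + 1)
  have m3 : Mor p (fun x => Ver.ver (n + 1) (s x)) id := mor_iff.2 (e2 ▸ m1)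
  have m4 : Mor (fun x => Ver.ver (n + 1) (s x)) p id := mor_iff.2 (e2 ▸ m2)
  refine ⟨_, inferInstance, fun x => Ver.ver (n + 1) (s x), av_of_vr h (e2 ▸ hW.pow _) ?_ m3 m4,
    fun hi y y' hy => ?_, m3, m4, ⟨c, h0, fun i j => ?_⟩, fun F Q hF y => ?_⟩
  · rw [e2]
    exact m1.comp (hs.sub (m2.comp (Mp.fst _ n1)) (m2.comp (Mp.snd n1 _)))
  · obtain ⟨l, hl⟩ := Function.ne_iff.1 (ne_of_nv (e1 ▸ hW.nv) y)
    exact hi y y' (par_left (h.ne _) (h.ne _) (Ver.par_of_ver (Ne.isUnit hl) hy))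
  · have := hc _ (e2 ▸ crd_mem _ i) _ (e2 ▸ crd_mem _ j)
    rwa [← e2, box, crd_map, crd_map, mul_pow] at this
  · obtain ⟨a, ha, e⟩ := hF y
    obtain ⟨b, hb, e'⟩ := hF (-y)
    have h1 : Par (s (F y)) (s y ^ Q) := ⟨a * b, ha.mul hb, funext fun l => by
      simp only [s, ← map_neg, e, e', Pi.smul_apply, Pi.pow_apply, smul_eq_mul]
      ring⟩
    have h2 : Ver.ver (n + 1) (s y ^ Q) = Ver.ver (n + 1) (s y) ^ Q := funext fun m => by
      simp [Ver.ver, Finset.prod_pow]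
    exact h2 ▸ Ver.par_ver h1 _

end Pool.Agent.Tav.Cu
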