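import Pool.Agent.P.MP_2ce3e7_ag.Tav.SdStmt

/-! First properties of stratified cones. -/

set_option autoImplicit false

noncomputable section

namespace Pool.Agent.Tav

open MvPolynomial Set Function

variable {K : Type} [Field K] {P ι τ : Type} {σ : ι → Type} [Fintype ι] {c : ∀ i, P → σ i → K}

theorem Str.zero_mem {W : Set (τ → K)} (h : Str c W) : 0 ∈ W := by
  induction h with
  | nil => rfl
  | step _ _ _ _ _ _ _ ih => exact Or.inl ih

theorem Str.smul_mem {W : Set (τ → K)} (h : Str c W) (a : K) {y : τ → K} (hy : y ∈ W) :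
    a • y ∈ W := by
  induction h with
  | nil => rw [mem_singleton_iff.1 hy, smul_zero]; rfl
  | step _ _ _ _ _ _ _ ih =>
    rcases hy with hy | ⟨b, x, rfl⟩
    · exact Or.inl (ih hy)
    · exact Or.inr ⟨a * b, x, smul_smul _ _ _⟩

theorem Str.union {W W' : Set (τ → K)} (h : Str c W) (h' : Str c W') : Str c (W ∪ W') := by
  induction h' with
  | nil => rwa [union_eq_left.2 (singleton_subset_iff.2 h.zero_mem)]
  | step V f _ a b d e ih =>
    rw [← union_assoc]
    exact Str.step V f ih a b d fun x hx y hy => e x hx y fun g => hy (Or.inr g)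

theorem Str.biUnion {α : Type} {s : Set α} (hs : s.Finite) {W : α → Set (τ → K)}
    (h : ∀ a ∈ s, Str c (W a)) : Str c ({0} ∪ ⋃ a ∈ s, W a) := by
  induction s, hs using Set.Finite.induction_on with
  | empty => simpa using Str.nil
  | insert _ _ ih =>
    rw [biUnion_insert, union_left_comm]
    exact (h _ (mem_insert _ _)).union (ih fun a ha => h a (mem_insert_of_mem _ ha))

end Pool.Agent.Tav
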