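import Pool.Agent.P.MP_2ce3e7_ag.Tav.APush
import Pool.Agent.P.MP_2ce3e7_ag.Tav.DetC

/-! Abelian systems: expansion of the degree in the characters. -/

set_option autoImplicit false
set_option linter.unusedSectionVars false

noncomputable section

namespace Pool.Agent.Tav

open MvPolynomial Module Det

variable {Ω : Type} [Field Ω] {X T Y : Type} {β γ δ ν : Type}
  [Fintype β] [Fintype γ] [Fintype δ] [Fintype ν]
  {Λ Γ : Type} [AddCommGroup X] [CommRing Λ] [Module Λ X] [Fintype Γ]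

/-- the parallelogram law for one system -/
def ParL (V : LS Ω X) : Prop :=
  ∃ lam : X × X → Ω, (∀ t, lam t ≠ 0) ∧ Bpf ![V.pb Prod.fst, V.pb Prod.snd] (fun _ => 2)
    (((V.pb fun t : X × X => t.1 + t.2).sp * (V.pb fun t : X × X => t.1 - t.2).sp).map
      (LinearMap.mulLeft Ω lam))

/-- a group with base `B`, polarising slots `H` and operators `Λ` of degree the norm -/
structure AbS (B : β → LS Ω X) (H : ν → LS Ω X) (χ : Γ → Λ →+* ℂ) : Prop where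
  src : Src B (Fintype.card ν)
  regH : ∀ i, Reg B (H i)
  add : RegM (prodB B B) B fun t : X × X => t.1 + t.2
  smul : ∀ a : Λ, RegM B B fun x => a • x
  par : ∀ i, ParL (H i)
  pos : mix B H ≠ 0
  deg : ∀ a : Λ, nm χ a ≠ 0 →
    (mix B (fun i => (H i).pb fun x => a • x) : ℂ) = nm χ a * (mix B H : ℚ)

/-- the degree of a map to the group -/
def dM (C : γ → LS Ω T) (H : ν → LS Ω X) (u : T → X) : ℚ := mix C fun i => (H i).pb u

/-- the degree of a pair of maps to the group -/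
def dM2 (C : γ → LS Ω T) (H : ν → LS Ω X) (u v : T → X) : ℚ :=
  mix C (Sum.elim (fun i => (H i).pb u) fun i => (H i).pb v)

variable {B : β → LS Ω X} {H : ν → LS Ω X} {χ : Γ → Λ →+* ℂ} {C : γ → LS Ω T}

theorem AbS.reg_add (h : AbS B H χ) {u v : T → X} (hu : RegM C B u) (hv : RegM C B v) :
    RegM C B (u + v) := by
  have := (hu.pair hv).comp h.add
  have e : ((fun t : X × X => t.1 + t.2) ∘ fun t => (u t, v t)) = u + v := rfl
  rwa [e] at this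

theorem AbS.reg_smul (h : AbS B H χ) (a : Λ) {u : T → X} (hu : RegM C B u) :
    RegM C B (a • u) := hu.comp (h.smul a)

theorem AbS.reg_neg (h : AbS B H χ) {u : T → X} (hu : RegM C B u) : RegM C B (-u) := by
  have := h.reg_smul (-1) hu
  rwa [neg_smul, one_smul] at this

theorem AbS.reg_sub (h : AbS B H χ) {u v : T → X} (hu : RegM C B u) (hv : RegM C B v) :
    RegM C B (u - v) := by
  rw [sub_eq_add_neg]; exact h.reg_add hu (h.reg_neg hv)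

theorem regM_const (C : γ → LS Ω T) (B : β → LS Ω Y) (y : Y) : RegM C B fun _ => y := by
  intro k t
  refine ⟨0, 1, one_ne_zero, ?_⟩
  rintro _ ⟨u, -, rfl⟩
  have : (1 : T → Ω) * (pbA Ω fun _ : T => y).toLinearMap u = u y • (1 : T → Ω) := by
    funext t; simp
  rw [this]
  refine Submodule.smul_mem _ _ ?_
  simp only [pc, Pi.zero_apply, pow_zero, Finset.prod_const_one]
  exact Submodule.one_le.1 le_rfl

/-- the regular maps from a source -/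
def AbS.rm (h : AbS B H χ) (C : γ → LS Ω T) : Submodule Λ (T → X) where
  carrier := {u | RegM C B u}
  add_mem' := h.reg_add
  zero_mem' := regM_const C B 0
  smul_mem' := fun a _ hu => h.reg_smul a hu

theorem map_pb_mul (j : T → Y) (V V' : LS Ω Y) (lam : Y → Ω) :
    ((V.sp * V'.sp).map (LinearMap.mulLeft Ω lam)).map (pbA Ω j).toLinearMap =
      ((V.pb j).sp * (V'.pb j).sp).map (LinearMap.mulLeft Ω (lam ∘ j)) := by
  change _ = (V.sp.map (pbA Ω j).toLinearMap * V'.sp.map (pbA Ω j).toLinearMap).map _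
  rw [← Submodule.map_mul, ← Submodule.map_comp, ← Submodule.map_comp]
  congr 1

/-- PARA -/
theorem ParL.mix {κ : Type} [Fintype κ] [DecidableEq κ] {V : LS Ω X} (hV : ParL V) {n : ℕ}
    (hC : Src C n) {W : κ → LS Ω T} (hW : ∀ k, Reg C (W k)) (hn : n ≤ Fintype.card κ) (k : κ)
    {u v : T → X} (hu : Reg C (V.pb u)) (hv : Reg C (V.pb v)) (ha : Reg C (V.pb (u + v)))
    (hs : Reg C (V.pb (u - v))) :
    mix C (Function.update W k (V.pb (u + v))) + mix C (Function.update W k (V.pb (u - v))) =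
      2 * mix C (Function.update W k (V.pb u)) + 2 * mix C (Function.update W k (V.pb v)) := by
  obtain ⟨lam, hl, hb⟩ := hV
  have h1 := hb.pb fun t => (u t, v t)
  rw [map_pb_mul, LS.pb_pb, LS.pb_pb] at h1
  have e : (fun i => (![V.pb Prod.fst, V.pb Prod.snd] i).pb fun t => (u t, v t)) =
      ![V.pb u, V.pb v] := by
    funext i
    fin_cases i
    · exact LS.pb_pb _ _ _
    · exact LS.pb_pb _ _ _
  rw [e] at h1
  have h2 := Bpf.self ![V.pb (u + v), V.pb (u - v)] fun _ => 1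
  have := mix_rel hC hW hn k (V := ![V.pb (u + v), V.pb (u - v)]) (V' := ![V.pb u, V.pb v])
    (fun i => by fin_cases i <;> assumption) (fun i => by fin_cases i <;> assumption) h2 h1
    (lam := lam ∘ fun t => (u t, v t)) (fun t => hl _) (by
      simp only [pc, Fin.prod_univ_two, pow_one]; rfl)
  simpa [Fin.sum_univ_two] using this

/-- the mixed degree is polynomial in the maps -/
theorem AbS.isPol (h : AbS B H χ) {κ : Type} [Fintype κ] (s : κ → ν) {n : ℕ} (hC : Src C n)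
    (hn : n ≤ Fintype.card κ) {M : Type} [AddCommGroup M] [Module.Free ℤ M] [Module.Finite ℤ M]
    (g : κ → M →+ h.rm C) :
    IsPol fun x => (mix C (fun k => (H (s k)).pb (g k x : T → X)) : ℂ) := by
  classical
  refine quad (G := fun _ : κ => h.rm C)
    (fun f => (mix C (fun k => (H (s k)).pb (f k : T → X)) : ℂ)) (fun f t x y => ?_) g
  have e : ∀ z : h.rm C, (fun k => (H (s k)).pb (Function.update f t z k : T → X)) =
      Function.update (fun k => (H (s k)).pb (f k : T → X)) t ((H (s t)).pb (z : T → X)) := by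
    intro z
    funext k
    by_cases hk : k = t
    · subst hk; simp
    · simp [hk]
  simp only [e]
  have r : ∀ (k : κ) (z : h.rm C), Reg C ((H (s k)).pb (z : T → X)) :=
    fun k z => RegM.pull z.2 (h.regH _)
  exact_mod_cast (h.par (s t)).mix hC (fun k => r k (f k)) hn t (r t x) (r t y) (r t (x + y))
    (r t (x - y))

theorem AbS.deg_smul (h : AbS B H χ) {a : Λ} (ha : nm χ a ≠ 0) :
    ∃ r : ℚ, (r : ℂ) = nm χ a ∧ Deg B B (fun x => a • x) (Fintype.card ν) r := by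
  obtain ⟨r, hr⟩ := exists_deg h.src h.src (h.smul a)
  refine ⟨r, ?_, hr⟩
  have h1 := h.deg a ha
  rw [hr ν H le_rfl h.regH, Rat.cast_mul] at h1
  exact mul_right_cancel₀ (by exact_mod_cast h.pos) h1

/-- MULC, one row -/
theorem AbS.dM_smul (h : AbS B H χ) (hC : Src C (Fintype.card ν)) {u : T → X} (hu : RegM C B u)
    {a : Λ} (ha : nm χ a ≠ 0) : (dM C H (a • u) : ℂ) = nm χ a * dM C H u := by
  obtain ⟨r, hr, d⟩ := h.deg_smul ha
  rw [← hr, ← Rat.cast_mul]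
  exact congrArg _ (Deg.mulc hC h.src hu (h.smul a) d le_rfl h.regH)

theorem dM2_eq (C : γ → LS Ω T) (H : ν → LS Ω X) (u v : T → X) :
    dM2 C H u v = mix C fun k => (prodB H H k).pb fun t => (u t, v t) := by
  rw [prodB_pb]; rfl

theorem AbS.dM2_map (h : AbS B H χ) (hC : Src C (Fintype.card ν + Fintype.card ν)) {u v : T → X}
    (hu : RegM C B u) (hv : RegM C B v) {i : X × X → X × X} (hi : RegM (prodB B B) (prodB B B) i)
    {s : ℚ} (d : Deg (prodB B B) (prodB B B) i (Fintype.card ν + Fintype.card ν) s) :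
    dM2 C H (fun t => (i (u t, v t)).1) (fun t => (i (u t, v t)).2) = s * dM2 C H u v := by
  rw [dM2_eq, dM2_eq]
  exact Deg.mulc hC (h.src.prod h.src) (hu.pair hv) hi d (by simp) (reg_prodB h.regH h.regH)

theorem AbS.dM2_left (h : AbS B H χ) (hC : Src C (Fintype.card ν + Fintype.card ν)) {u v : T → X}
    (hu : RegM C B u) (hv : RegM C B v) {a : Λ} (ha : nm χ a ≠ 0) :
    (dM2 C H (a • u) v : ℂ) = nm χ a * dM2 C H u v := by
  obtain ⟨r, hr, d⟩ := h.deg_smul ha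
  have := h.dM2_map hC hu hv ((h.smul a).prodMap (RegM.id B))
    (Deg.prod h.src h.src h.src h.src (h.smul a) (RegM.id B) d (Deg.id B _))
  rw [← hr, ← Rat.cast_mul, ← mul_one r, ← this]
  rfl

theorem AbS.dM2_right (h : AbS B H χ) (hC : Src C (Fintype.card ν + Fintype.card ν))
    {u v : T → X} (hu : RegM C B u) (hv : RegM C B v) {a : Λ} (ha : nm χ a ≠ 0) :
    (dM2 C H u (a • v) : ℂ) = nm χ a * dM2 C H u v := by
  obtain ⟨r, hr, d⟩ := h.deg_smul ha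
  have := h.dM2_map hC hu hv ((RegM.id B).prodMap (h.smul a))
    (Deg.prod h.src h.src h.src h.src (RegM.id B) (h.smul a) (Deg.id B _) d)
  rw [← hr, ← Rat.cast_mul, ← one_mul r, ← this]
  rfl

theorem AbS.dM2_shear (h : AbS B H χ) (hC : Src C (Fintype.card ν + Fintype.card ν))
    {u v : T → X} (hu : RegM C B u) (hv : RegM C B v) : dM2 C H (u + v) v = dM2 C H u v := by
  have hi : RegM (prodB B B) (prodB B B) fun t : X × X => (t.1 + t.2, t.2) :=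
    h.add.pair (RegM.snd B B)
  have hi' : RegM (prodB B B) (prodB B B) fun t : X × X => (t.1 - t.2, t.2) :=
    (h.reg_sub (RegM.fst B B) (RegM.snd B B)).pair (RegM.snd B B)
  have := h.dM2_map hC hu hv hi (deg_of_inv (h.src.prod h.src) hi hi'
    (funext fun t => by simp) fun t => ⟨(t.1 - t.2, t.2), by simp⟩)
  rw [one_mul] at this
  exact this

/-- linear combinations of regular maps -/
def AbS.comb (h : AbS B H χ) {J : Type} [Fintype J] (u : J → T → X) (hu : ∀ j, RegM C B (u j)) :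
    (J → Λ) →+ h.rm C where
  toFun m := ⟨∑ j, m j • u j, (h.rm C).sum_mem fun j _ => h.reg_smul _ (hu j)⟩
  map_zero' := Subtype.ext (by simp)
  map_add' m m' := Subtype.ext (by simp [add_smul, Finset.sum_add_distrib])

theorem comb_mul {J : Type} [Fintype J] (u : J → T → X) (c : Λ) (m : J → Λ) :
    ∑ j, (c * m j) • u j = c • ∑ j, m j • u j := by
  simp only [mul_smul, Finset.smul_sum]

variable [DecidableEq Γ]

/-- EXP, any number of columns -/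
theorem AbS.exp_row (h : AbS B H χ) (b : Basis Γ ℤ Λ) (hχ : Function.Injective χ)
    (hC : Src C (Fintype.card ν)) {J : Type} [Fintype J] [DecidableEq J] (u : J → T → X)
    (hu : ∀ j, RegM C B (u j)) :
    ∃ coef : (Γ → J) → ℂ, ∀ m : J → Λ,
      (dM C H (∑ j, m j • u j) : ℂ) = ∑ K, coef K * ∏ ρ, χ ρ (m (K ρ)) := by
  have := Module.Free.of_basis b
  have := Module.Finite.of_basis b
  refine one_row b hχ _ (h.isPol id hC le_rfl fun _ => h.comb u hu) fun c m hc => ?_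
  rw [comb_mul]
  exact h.dM_smul hC (h.comb u hu m).2 hc

/-- EXP -/
theorem AbS.exp (h : AbS B H χ) (b : Basis Γ ℤ Λ) (hχ : Function.Injective χ)
    (hC : Src C (Fintype.card ν)) {u v : T → X} (hu : RegM C B u) (hv : RegM C B v) :
    ∃ p : Finset Γ → ℂ, ∀ x y : Λ, (dM C H (x • u + y • v) : ℂ) = ∑ S, p S * mon χ S x y := by
  have := Module.Free.of_basis b
  have := Module.Finite.of_basis b
  let g : Λ × Λ →+ h.rm C :=
    { toFun := fun m => ⟨m.1 • u + m.2 • v, h.reg_add (h.reg_smul _ hu) (h.reg_smul _ hv)⟩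
      map_zero' := Subtype.ext (by simp)
      map_add' := fun m m' => Subtype.ext (by
        simp only [Prod.fst_add, Prod.snd_add, add_smul, Submodule.coe_add]; abel) }
  refine one b hχ _ (h.isPol id hC le_rfl fun _ => g) fun c x y hc => ?_
  rw [mul_smul, mul_smul, ← smul_add]
  exact h.dM_smul hC (g (x, y)).2 hc

/-- the laws of two rows -/
theorem AbS.two (h : AbS B H χ) (b : Basis Γ ℤ Λ)
    (hC : Src C (Fintype.card ν + Fintype.card ν)) {J : Type} [Fintype J] (u : J → T → X)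
    (hu : ∀ j, RegM C B (u j)) :
    Two χ fun m m' : J → Λ => (dM2 C H (∑ j, m j • u j) (∑ j, m' j • u j) : ℂ) := by
  have := Module.Free.of_basis b
  have := Module.Finite.of_basis b
  refine ⟨?_, fun c m m' hc => ?_, fun c m m' hc => ?_, fun m m' => ?_⟩
  · have := h.isPol (Sum.elim id id) hC (by simp) (M := (J → Λ) × (J → Λ))
      (Sum.elim (fun _ => (h.comb u hu).comp (AddMonoidHom.fst _ _))
        fun _ => (h.comb u hu).comp (AddMonoidHom.snd _ _))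
    refine (congrArg IsPol (funext fun x => ?_)).mp this
    unfold dM2
    congr 2
    funext k
    cases k <;> rfl
  · rw [comb_mul]
    exact h.dM2_left hC (h.comb u hu m).2 (h.comb u hu m').2 hc
  · rw [comb_mul]
    exact h.dM2_right hC (h.comb u hu m).2 (h.comb u hu m').2 hc
  · simp only [Pi.add_apply, add_smul, Finset.sum_add_distrib]
    exact congrArg _ (h.dM2_shear hC (h.comb u hu m).2 (h.comb u hu m').2)

/-- the components of the degree of `x u + y v` -/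
def pS (C : γ → LS Ω T) (H : ν → LS Ω X) (χ : Γ → Λ →+* ℂ) (u v : T → X) : Finset Γ → ℂ :=
  Classical.epsilon fun p => ∀ x y : Λ, (dM C H (x • u + y • v) : ℂ) = ∑ S, p S * mon χ S x y

theorem AbS.pS_spec (h : AbS B H χ) (b : Basis Γ ℤ Λ) (hχ : Function.Injective χ)
    (hC : Src C (Fintype.card ν)) {u v : T → X} (hu : RegM C B u) (hv : RegM C B v) (x y : Λ) :
    (dM C H (x • u + y • v) : ℂ) = ∑ S, pS C H χ u v S * mon χ S x y :=
  Classical.epsilon_spec (h.exp b hχ hC hu hv) x y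

theorem AbS.pS_eq (h : AbS B H χ) (b : Basis Γ ℤ Λ) (hχ : Function.Injective χ)
    (hC : Src C (Fintype.card ν)) {u v : T → X} (hu : RegM C B u) (hv : RegM C B v)
    {p : Finset Γ → ℂ} (hp : ∀ x y : Λ, nm χ x ≠ 0 → nm χ y ≠ 0 →
      (dM C H (x • u + y • v) : ℂ) = ∑ S, p S * mon χ S x y) : pS C H χ u v = p :=
  uniq b hχ _ _ fun x y hx hy => (h.pS_spec b hχ hC hu hv x y).symm.trans (hp x y hx hy)

theorem AbS.pS_smul_left (h : AbS B H χ) (b : Basis Γ ℤ Λ) (hχ : Function.Injective χ)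
    (hC : Src C (Fintype.card ν)) {u v : T → X} (hu : RegM C B u) (hv : RegM C B v) (c : Λ)
    (S : Finset Γ) : pS C H χ (c • u) v S = (∏ ρ ∈ Sᶜ, χ ρ c) * pS C H χ u v S := by
  have := coef_left b hχ (pS C H χ u v) (pS C H χ (c • u) v) c 1 (fun x y _ _ => by
    rw [one_mul, ← h.pS_spec b hχ hC hu hv, ← h.pS_spec b hχ hC (h.reg_smul c hu) hv,
      mul_smul]) S
  rw [this, one_mul]

theorem AbS.pS_smul_right (h : AbS B H χ) (b : Basis Γ ℤ Λ) (hχ : Function.Injective χ)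
    (hC : Src C (Fintype.card ν)) {u v : T → X} (hu : RegM C B u) (hv : RegM C B v) (c : Λ)
    (S : Finset Γ) : pS C H χ u (c • v) S = (∏ ρ ∈ S, χ ρ c) * pS C H χ u v S := by
  have := coef_right b hχ (pS C H χ u v) (pS C H χ u (c • v)) c 1 (fun x y _ _ => by
    rw [one_mul, ← h.pS_spec b hχ hC hu hv, ← h.pS_spec b hχ hC hu (h.reg_smul c hv),
      mul_smul]) S
  rw [this, one_mul]

/-- change of the source -/
theorem AbS.pS_deg (h : AbS B H χ) (b : Basis Γ ℤ Λ) (hχ : Function.Injective χ)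
    (hC : Src C (Fintype.card ν)) {D : δ → LS Ω Y} (hD : Src D (Fintype.card ν)) {j : T → Y}
    (hj : RegM C D j) {r : ℚ} (d : Deg C D j (Fintype.card ν) r) {u v : Y → X}
    (hu : RegM D B u) (hv : RegM D B v) (S : Finset Γ) :
    pS C H χ (u ∘ j) (v ∘ j) S = r * pS D H χ u v S := by
  refine congrFun (h.pS_eq b hχ hC (hj.comp hu) (hj.comp hv)
    (p := fun S => r * pS D H χ u v S) fun x y _ _ => ?_) S
  have h1 := d ν (fun i => (H i).pb (x • u + y • v)) le_rfl fun i =>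
    (h.reg_add (h.reg_smul x hu) (h.reg_smul y hv)).pull (h.regH i)
  simp only [LS.pb_pb] at h1
  simp only [mul_assoc]
  rw [← Finset.mul_sum, ← h.pS_spec b hχ hD hu hv, ← Rat.cast_mul]
  exact congrArg _ h1

/-- VAN -/
theorem AbS.pS_low (h : AbS B H χ) (b : Basis Γ ℤ Λ) (hχ : Function.Injective χ) {m : ℕ}
    (hC : Src C m) (hm : m < Fintype.card ν) {u v : T → X} (hu : RegM C B u) (hv : RegM C B v) :
    pS C H χ u v = 0 :=
  h.pS_eq b hχ (hC.mono hm.le) hu hv fun x y _ _ => by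
    rw [dM, mix_zero hC (fun i =>
      (h.reg_add (h.reg_smul x hu) (h.reg_smul y hv)).pull (h.regH i)) hm]
    simp

theorem AbS.pS_swap (h : AbS B H χ) (b : Basis Γ ℤ Λ) (hχ : Function.Injective χ)
    (hC : Src C (Fintype.card ν)) {u v : T → X} (hu : RegM C B u) (hv : RegM C B v)
    (S : Finset Γ) : pS C H χ v u S = pS C H χ u v Sᶜ := by
  refine congrFun (h.pS_eq b hχ hC hv hu (p := fun S => pS C H χ u v Sᶜ) fun x y _ _ => ?_) S
  rw [add_comm, h.pS_spec b hχ hC hu hv]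
  refine Fintype.sum_equiv (Function.Involutive.toPerm _ compl_involutive) _ _ fun S => ?_
  simp [mon, mul_comm]

section prod
variable {T₁ T₂ T₃ T₄ γ₁ γ₂ γ₃ γ₄ : Type} [Fintype γ₁] [Fintype γ₂] [Fintype γ₃] [Fintype γ₄]
  {C₁ : γ₁ → LS Ω T₁} {C₂ : γ₂ → LS Ω T₂} {C₃ : γ₃ → LS Ω T₃} {C₄ : γ₄ → LS Ω T₄}
  {u₁ : T₁ → X} {u₂ : T₂ → X} {u₃ : T₃ → X} {u₄ : T₄ → X} {n₁ n₂ : ℕ}

theorem dM2_prod (C₁ : γ₁ → LS Ω T₁) (C₂ : γ₂ → LS Ω T₂) (H : ν → LS Ω X) (u : T₁ → X)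
    (v : T₂ → X) :
    dM2 (prodB C₁ C₂) H (u ∘ Prod.fst) (v ∘ Prod.snd) = dM C₁ H u * dM C₂ H v := by
  rw [dM, dM, ← mix_prod, dM2, prodB, prodB]
  simp only [LS.pb_pb]

theorem AbS.dM2_deg (h : AbS B H χ) {D : δ → LS Ω Y} {j : T → Y} {r : ℚ}
    (d : Deg C D j (Fintype.card ν + Fintype.card ν) r) {u v : Y → X} (hu : RegM D B u)
    (hv : RegM D B v) : dM2 C H (u ∘ j) (v ∘ j) = r * dM2 D H u v := by
  rw [dM2, dM2, ← d _ _ (by simp) fun k => ?_]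
  · congr 1
    funext k
    cases k with
    | inl k => exact (LS.pb_pb _ _ _).symm
    | inr k => exact (LS.pb_pb _ _ _).symm
  · cases k with
    | inl k => exact hu.pull (h.regH k)
    | inr k => exact hv.pull (h.regH k)

theorem AbS.dM_deg (h : AbS B H χ) {D : δ → LS Ω Y} {j : T → Y} {r : ℚ}
    (d : Deg C D j (Fintype.card ν) r) {u : Y → X} (hu : RegM D B u) :
    dM C H (u ∘ j) = r * dM D H u := by
  rw [dM, dM, ← d _ _ le_rfl fun k => hu.pull (h.regH k)]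
  simp only [LS.pb_pb]

/-- the components of the degree of `x u₁ z + y u₂ w` on a product of two sources -/
def pP (C₁ : γ₁ → LS Ω T₁) (C₂ : γ₂ → LS Ω T₂) (H : ν → LS Ω X) (χ : Γ → Λ →+* ℂ) (u₁ : T₁ → X)
    (u₂ : T₂ → X) : Finset Γ → ℂ :=
  pS (prodB C₁ C₂) H χ (u₁ ∘ Prod.fst) (u₂ ∘ Prod.snd)

theorem src_prod (hn : n₁ + n₂ = Fintype.card ν) (s₁ : Src C₁ n₁) (s₂ : Src C₂ n₂) :
    Src (prodB C₁ C₂) (Fintype.card ν) := hn ▸ s₁.prod s₂

theorem RegM.cfst {D : δ → LS Ω Y} {u : T₁ → Y} (r : RegM C₁ D u) (C₂ : γ₂ → LS Ω T₂) :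
    RegM (prodB C₁ C₂) D (u ∘ Prod.fst) := (RegM.fst C₁ C₂).comp r

theorem RegM.csnd {D : δ → LS Ω Y} {u : T₂ → Y} (r : RegM C₂ D u) (C₁ : γ₁ → LS Ω T₁) :
    RegM (prodB C₁ C₂) D (u ∘ Prod.snd) := (RegM.snd C₁ C₂).comp r

/-- EXP on a product -/
theorem AbS.pP_spec (h : AbS B H χ) (b : Basis Γ ℤ Λ) (hχ : Function.Injective χ)
    (hn : n₁ + n₂ = Fintype.card ν) (s₁ : Src C₁ n₁) (s₂ : Src C₂ n₂) (r₁ : RegM C₁ B u₁)
    (r₂ : RegM C₂ B u₂) (x y : Λ) :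
    (dM (prodB C₁ C₂) H (fun t => x • u₁ t.1 + y • u₂ t.2) : ℂ) =
      ∑ S, pP C₁ C₂ H χ u₁ u₂ S * mon χ S x y :=
  h.pS_spec b hχ (src_prod hn s₁ s₂) (r₁.cfst C₂) (r₂.csnd C₁) x y

/-- ONE -/
theorem AbS.one (h : AbS B H χ) (b : Basis Γ ℤ Λ) (hχ : Function.Injective χ)
    (hn : n₁ + n₂ = Fintype.card ν) (s₁ : Src C₁ n₁) (s₂ : Src C₂ n₂) (s₃ : Src C₃ n₁)
    (s₄ : Src C₄ n₂) (r₁ : RegM C₁ B u₁) (r₂ : RegM C₂ B u₂) (r₃ : RegM C₃ B u₃)
    (r₄ : RegM C₄ B u₄) (S : Finset Γ) :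
    pP C₁ C₂ H χ u₁ u₂ S * pP C₃ C₄ H χ u₃ u₄ S =
      (-1) ^ S.card * (pP C₁ C₄ H χ u₁ u₄ S * pP C₃ C₂ H χ u₃ u₂ S) := by
  have hC := (src_prod hn s₁ s₂).prod (src_prod hn s₃ s₄)
  let u : Fin 4 → (T₁ × T₂) × (T₃ × T₄) → X := ![(u₁ ∘ Prod.fst) ∘ Prod.fst,
    (u₂ ∘ Prod.snd) ∘ Prod.fst, (u₃ ∘ Prod.fst) ∘ Prod.snd, (u₄ ∘ Prod.snd) ∘ Prod.snd]
  have hu : ∀ j, RegM (prodB (prodB C₁ C₂) (prodB C₃ C₄)) B (u j) := by
    intro j
    fin_cases j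
    · exact (r₁.cfst C₂).cfst _
    · exact (r₂.csnd C₁).cfst _
    · exact (r₃.cfst C₄).csnd _
    · exact (r₄.csnd C₃).csnd _
  refine Det.two b hχ (h.two b hC u hu) _ _ _ _ (fun x y x' y' _ _ _ _ => ?_)
    (fun x y x' y' _ _ _ _ => ?_) S
  · rw [← h.pP_spec b hχ hn s₁ s₂ r₁ r₂, ← h.pP_spec b hχ hn s₃ s₄ r₃ r₄, ← Rat.cast_mul,
      ← dM2_prod]
    congr 2 <;> funext t <;> simp [u, Fin.sum_univ_four]
  · let e : (T₁ × T₂) × (T₃ × T₄) → (T₁ × T₄) × (T₃ × T₂) :=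
      fun t => ((t.1.1, t.2.2), (t.2.1, t.1.2))
    let e' : (T₁ × T₄) × (T₃ × T₂) → (T₁ × T₂) × (T₃ × T₄) :=
      fun t => ((t.1.1, t.2.2), (t.2.1, t.1.2))
    have he : RegM (prodB (prodB C₁ C₂) (prodB C₃ C₄)) (prodB (prodB C₁ C₄) (prodB C₃ C₂)) e :=
      (((RegM.fst C₁ C₂).cfst _).pair ((RegM.snd C₃ C₄).csnd _)).pair
        (((RegM.fst C₃ C₄).csnd _).pair ((RegM.snd C₁ C₂).cfst _))
    have he' : RegM (prodB (prodB C₁ C₄) (prodB C₃ C₂)) (prodB (prodB C₁ C₂) (prodB C₃ C₄)) e' :=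
      (((RegM.fst C₁ C₄).cfst _).pair ((RegM.snd C₃ C₂).csnd _)).pair
        (((RegM.fst C₃ C₂).csnd _).pair ((RegM.snd C₁ C₄).cfst _))
    have d := deg_of_inv hC he he' rfl fun t => ⟨e' t, rfl⟩
    have a1 : RegM (prodB C₁ C₄) B fun t => x • u₁ t.1 + y • u₄ t.2 :=
      ((RegM.id _).comp (h.reg_add (h.reg_smul x (r₁.cfst C₄)) (h.reg_smul y (r₄.csnd C₁))) :)
    have a2 : RegM (prodB C₃ C₂) B fun t => x' • u₃ t.1 + y' • u₂ t.2 :=
      ((RegM.id _).comp (h.reg_add (h.reg_smul x' (r₃.cfst C₂)) (h.reg_smul y' (r₂.csnd C₃))) :)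
    have := h.dM2_deg d (a1.cfst (prodB C₃ C₂)) (a2.csnd (prodB C₁ C₄))
    rw [one_mul, dM2_prod] at this
    rw [← h.pP_spec b hχ hn s₁ s₄ r₁ r₄, ← h.pP_spec b hχ hn s₃ s₂ r₃ r₂, ← Rat.cast_mul, ← this]
    congr 2 <;> funext t <;> simp [u, e, Fin.sum_univ_four, add_comm]

theorem AbS.pP_smul_left (h : AbS B H χ) (b : Basis Γ ℤ Λ) (hχ : Function.Injective χ)
    (hn : n₁ + n₂ = Fintype.card ν) (s₁ : Src C₁ n₁) (s₂ : Src C₂ n₂) (r₁ : RegM C₁ B u₁)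
    (r₂ : RegM C₂ B u₂) (c : Λ) (S : Finset Γ) :
    pP C₁ C₂ H χ (c • u₁) u₂ S = (∏ ρ ∈ Sᶜ, χ ρ c) * pP C₁ C₂ H χ u₁ u₂ S :=
  h.pS_smul_left b hχ (src_prod hn s₁ s₂) (r₁.cfst C₂) (r₂.csnd C₁) c S

theorem AbS.pP_smul_right (h : AbS B H χ) (b : Basis Γ ℤ Λ) (hχ : Function.Injective χ)
    (hn : n₁ + n₂ = Fintype.card ν) (s₁ : Src C₁ n₁) (s₂ : Src C₂ n₂) (r₁ : RegM C₁ B u₁)
    (r₂ : RegM C₂ B u₂) (c : Λ) (S : Finset Γ) :
    pP C₁ C₂ H χ u₁ (c • u₂) S = (∏ ρ ∈ S, χ ρ c) * pP C₁ C₂ H χ u₁ u₂ S :=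
  h.pS_smul_right b hχ (src_prod hn s₁ s₂) (r₁.cfst C₂) (r₂.csnd C₁) c S

/-- PUSH on both sides -/
theorem AbS.pP_deg (h : AbS B H χ) (b : Basis Γ ℤ Λ) (hχ : Function.Injective χ)
    (hn : n₁ + n₂ = Fintype.card ν) (s₁ : Src C₁ n₁) (s₂ : Src C₂ n₂) (s₃ : Src C₃ n₁)
    (s₄ : Src C₄ n₂) {j : T₁ → T₃} {i : T₂ → T₄} (hj : RegM C₁ C₃ j) (hi : RegM C₂ C₄ i)
    {r s : ℚ} (dj : Deg C₁ C₃ j n₁ r) (di : Deg C₂ C₄ i n₂ s) (r₃ : RegM C₃ B u₃)
    (r₄ : RegM C₄ B u₄) (S : Finset Γ) :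
    pP C₁ C₂ H χ (u₃ ∘ j) (u₄ ∘ i) S = (r * s : ℚ) * pP C₃ C₄ H χ u₃ u₄ S :=
  h.pS_deg b hχ (src_prod hn s₁ s₂) (src_prod hn s₃ s₄) (hj.prodMap hi)
    (hn ▸ Deg.prod s₁ s₂ s₃ s₄ hj hi dj di) (r₃.cfst C₄) (r₄.csnd C₃) S

theorem AbS.pP_deg_left (h : AbS B H χ) (b : Basis Γ ℤ Λ) (hχ : Function.Injective χ)
    (hn : n₁ + n₂ = Fintype.card ν) (s₁ : Src C₁ n₁) (s₂ : Src C₂ n₂) (s₃ : Src C₃ n₁)
    {j : T₁ → T₃} (hj : RegM C₁ C₃ j) {r : ℚ} (dj : Deg C₁ C₃ j n₁ r) (r₃ : RegM C₃ B u₃)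
    (r₂ : RegM C₂ B u₂) (S : Finset Γ) :
    pP C₁ C₂ H χ (u₃ ∘ j) u₂ S = r * pP C₃ C₂ H χ u₃ u₂ S := by
  have := h.pP_deg b hχ hn s₁ s₂ s₃ s₂ hj (RegM.id _) dj (Deg.id _ _) r₃ r₂ S
  rwa [mul_one] at this

theorem AbS.pP_deg_right (h : AbS B H χ) (b : Basis Γ ℤ Λ) (hχ : Function.Injective χ)
    (hn : n₁ + n₂ = Fintype.card ν) (s₁ : Src C₁ n₁) (s₂ : Src C₂ n₂) (s₄ : Src C₄ n₂)
    {i : T₂ → T₄} (hi : RegM C₂ C₄ i) {s : ℚ} (di : Deg C₂ C₄ i n₂ s) (r₁ : RegM C₁ B u₁)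
    (r₄ : RegM C₄ B u₄) (S : Finset Γ) :
    pP C₁ C₂ H χ u₁ (u₄ ∘ i) S = s * pP C₁ C₄ H χ u₁ u₄ S := by
  have := h.pP_deg b hχ hn s₁ s₂ s₁ s₄ (RegM.id _) hi (Deg.id _ _) di r₁ r₄ S
  rwa [one_mul] at this

/-- VAN on a product -/
theorem AbS.pP_low (h : AbS B H χ) (b : Basis Γ ℤ Λ) (hχ : Function.Injective χ)
    (hn : n₁ + n₂ < Fintype.card ν) (s₁ : Src C₁ n₁) (s₂ : Src C₂ n₂) (r₁ : RegM C₁ B u₁)
    (r₂ : RegM C₂ B u₂) : pP C₁ C₂ H χ u₁ u₂ = 0 :=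
  h.pS_low b hχ (s₁.prod s₂) hn (r₁.cfst C₂) (r₂.csnd C₁)

theorem AbS.pP_swap (h : AbS B H χ) (b : Basis Γ ℤ Λ) (hχ : Function.Injective χ)
    (hn : n₁ + n₂ = Fintype.card ν) (s₁ : Src C₁ n₁) (s₂ : Src C₂ n₂) (r₁ : RegM C₁ B u₁)
    (r₂ : RegM C₂ B u₂) (S : Finset Γ) : pP C₂ C₁ H χ u₂ u₁ S = pP C₁ C₂ H χ u₁ u₂ Sᶜ := by
  have s := src_prod hn s₁ s₂
  have s' := src_prod ((add_comm _ _).trans hn) s₂ s₁
  have he : RegM (prodB C₂ C₁) (prodB C₁ C₂) fun t => (t.2, t.1) :=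
    (RegM.snd C₂ C₁).pair (RegM.fst C₂ C₁)
  have he' : RegM (prodB C₁ C₂) (prodB C₂ C₁) fun t => (t.2, t.1) :=
    (RegM.snd C₁ C₂).pair (RegM.fst C₁ C₂)
  have := h.pS_deg b hχ s' s he (deg_of_inv s' he he' rfl fun t => ⟨(t.2, t.1), rfl⟩)
    (r₂.csnd C₁) (r₁.cfst C₂) S
  rw [h.pS_swap b hχ s (r₁.cfst C₂) (r₂.csnd C₁), Rat.cast_one, one_mul] at this
  exact this

/-- the Frobenius rule on the right -/
theorem AbS.pP_frob_right (h : AbS B H χ) (b : Basis Γ ℤ Λ) (hχ : Function.Injective χ)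
    (hn : n₁ + n₂ = Fintype.card ν) (s₁ : Src C₁ n₁) (s₂ : Src C₂ n₂) {C₄ : γ₂ → LS Ω T₄}
    {fr : Ω ≃+* Ω} {Q : ℕ} (hfr : ∀ x, fr x = x ^ Q) {F : T₂ → T₄} (hF : IsFr fr C₂ C₄ F)
    (r₁ : RegM C₁ B u₁) (r₂ : RegM C₂ B u₂) (r₄ : RegM C₄ B u₄) {π : Λ}
    (e : ∀ t, u₄ (F t) = π • u₂ t) (S : Finset Γ) :
    (Q : ℂ) ^ n₂ * pP C₁ C₄ H χ u₁ u₄ S = (∏ ρ ∈ S, χ ρ π) * pP C₁ C₂ H χ u₁ u₂ S := by
  have := h.pP_deg_right b hχ hn s₁ s₂ (hF.src s₂) (hF.regM hfr) (hF.deg hfr s₂) r₁ r₄ S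
  rw [show u₄ ∘ F = π • u₂ from funext e, h.pP_smul_right b hχ hn s₁ s₂ r₁ r₂] at this
  rw [this]
  push_cast
  rfl

/-- the Frobenius rule on the left -/
theorem AbS.pP_frob_left (h : AbS B H χ) (b : Basis Γ ℤ Λ) (hχ : Function.Injective χ)
    (hn : n₁ + n₂ = Fintype.card ν) (s₁ : Src C₁ n₁) (s₂ : Src C₂ n₂) {C₃ : γ₁ → LS Ω T₃}
    {fr : Ω ≃+* Ω} {Q : ℕ} (hfr : ∀ x, fr x = x ^ Q) {F : T₁ → T₃} (hF : IsFr fr C₁ C₃ F)
    (r₁ : RegM C₁ B u₁) (r₂ : RegM C₂ B u₂) (r₃ : RegM C₃ B u₃) {π : Λ}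
    (e : ∀ t, u₃ (F t) = π • u₁ t) (S : Finset Γ) :
    (Q : ℂ) ^ n₁ * pP C₃ C₂ H χ u₃ u₂ S = (∏ ρ ∈ Sᶜ, χ ρ π) * pP C₁ C₂ H χ u₁ u₂ S := by
  have := h.pP_deg_left b hχ hn s₁ s₂ (hF.src s₁) (hF.regM hfr) (hF.deg hfr s₁) r₃ r₂ S
  rw [show u₃ ∘ F = π • u₁ from funext e, h.pP_smul_left b hχ hn s₁ s₂ r₁ r₂] at this
  rw [this]
  push_cast
  rfl

end prod

/-- the component `S` is seen by two sources of dimensions at most `n₁` and `n₂` -/
def AlgP (B : β → LS Ω X) (H : ν → LS Ω X) (χ : Γ → Λ →+* ℂ) (n₁ n₂ : ℕ) (S : Finset Γ) : Prop :=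
  ∃ (T₁ T₂ γ₁ γ₂ : Type) (_ : Fintype γ₁) (_ : Fintype γ₂) (C₁ : γ₁ → LS Ω T₁)
    (C₂ : γ₂ → LS Ω T₂) (u₁ : T₁ → X) (u₂ : T₂ → X), Src C₁ n₁ ∧ Src C₂ n₂ ∧ RegM C₁ B u₁ ∧
    RegM C₂ B u₂ ∧ pP C₁ C₂ H χ u₁ u₂ S ≠ 0

end Pool.Agent.Tav
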