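import Pool.Agent.P.MP_2ce3e7_ag.Tav.AMain

set_option autoImplicit false

noncomputable section

namespace Pool.Agent.Tav

open MvPolynomial Module Function

variable {Ω : Type} [Field Ω] {s : Sh} {F : Fib Ω s} {j j' : ℕ}

/-- FR -/
theorem Fib.fr [IsAlgClosed Ω] (hF : F.Deg) {Q : ℕ} (hQ : FrobF Ω Q) {π : s.Λ} (hπ : F.Frob π Q)
    {S : Finset s.Γ} (h : j + j' = s.n) {Z : F.Cyc j} {W : F.Cyc j'} (hS : Fib.pS Z W S ≠ 0) :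
    ∃ m ≠ 0, (∏ ρ ∈ S, s.χ ρ π) ^ m = (Q : ℂ) ^ (j' * m) := by
  obtain ⟨m, hm, e⟩ := Fib.fr_pow hF hπ hQ h hS
  exact ⟨m, hm, by rw [e, pow_mul]⟩

end Pool.Agent.Tav
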