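import Pool.Agent.P.MP_2ce3e7_ag.Tav.FrMix

/-! Regular maps between sources and their degrees. -/

set_option autoImplicit false
set_option linter.unusedSectionVars false

noncomputable section

namespace Pool.Agent.Tav

open MvPolynomial Module

variable {Ω : Type} [Field Ω] {T Y Z : Type} {β γ δ ν : Type}
  [Fintype β] [Fintype γ] [Fintype δ] [Fintype ν]

/-- `j` is regular for the bases `B` and `C` -/
def RegM (B : β → LS Ω T) (C : γ → LS Ω Y) (j : T → Y) : Prop := ∀ k, Reg B ((C k).pb j)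

/-- `j` multiplies all mixed degrees in dimension `n` by `r` -/
def Deg (B : β → LS Ω T) (C : γ → LS Ω Y) (j : T → Y) (n : ℕ) (r : ℚ) : Prop :=
  ∀ (ν : Type) [Fintype ν] (W : ν → LS Ω Y), n ≤ Fintype.card ν → (∀ k, Reg C (W k)) →
    mix B (fun k => (W k).pb j) = r * mix C W

theorem RegM.pull {B : β → LS Ω T} {C : γ → LS Ω Y} {j : T → Y} (h : RegM B C j) {V : LS Ω Y}
    (hV : Reg C V) : Reg B (V.pb j) := Reg.trans h (hV.pb j)

theorem RegM.id (B : β → LS Ω T) : RegM B B id := fun k => by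
  rw [LS.pb_id]; exact Reg.self B k

theorem RegM.comp {B : β → LS Ω T} {C : γ → LS Ω Y} {D : δ → LS Ω Z} {j : T → Y} {i : Y → Z}
    (h : RegM B C j) (h' : RegM C D i) : RegM B D (i ∘ j) := fun k => by
  rw [← LS.pb_pb]; exact h.pull (h' k)

theorem RegM.restrict (C : γ → LS Ω Y) (j : T → Y) : RegM (fun k => (C k).pb j) C j :=
  fun k => Reg.self (fun k => (C k).pb j) k

section prod
variable {T₁ T₂ Y₁ Y₂ β₁ β₂ γ₁ γ₂ : Type} [Fintype β₁] [Fintype β₂] [Fintype γ₁] [Fintype γ₂]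

omit [Fintype γ₁] [Fintype γ₂] in
theorem prodB_pb (C₁ : γ₁ → LS Ω Y₁) (C₂ : γ₂ → LS Ω Y₂) (j : T → Y₁ × Y₂) :
    (fun k => (prodB C₁ C₂ k).pb j) =
      Sum.elim (fun k => (C₁ k).pb fun t => (j t).1) fun k => (C₂ k).pb fun t => (j t).2 := by
  funext k
  cases k with
  | inl k => exact LS.pb_pb _ _ _
  | inr k => exact LS.pb_pb _ _ _

omit [Fintype γ₁] [Fintype γ₂] in
theorem prodB_map (C₁ : γ₁ → LS Ω Y₁) (C₂ : γ₂ → LS Ω Y₂) (j₁ : T₁ → Y₁) (j₂ : T₂ → Y₂) :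
    (fun k => (prodB C₁ C₂ k).pb (Prod.map j₁ j₂)) =
      prodB (fun k => (C₁ k).pb j₁) fun k => (C₂ k).pb j₂ := by
  funext k
  cases k with
  | inl k => exact (LS.pb_pb _ _ _).trans (LS.pb_pb Prod.fst j₁ (C₁ k)).symm
  | inr k => exact (LS.pb_pb _ _ _).trans (LS.pb_pb Prod.snd j₂ (C₂ k)).symm

theorem RegM.fst (B₁ : β₁ → LS Ω T₁) (B₂ : β₂ → LS Ω T₂) : RegM (prodB B₁ B₂) B₁ Prod.fst :=
  fun k => (Reg.self B₁ k).fst B₂

theorem RegM.snd (B₁ : β₁ → LS Ω T₁) (B₂ : β₂ → LS Ω T₂) : RegM (prodB B₁ B₂) B₂ Prod.snd :=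
  fun k => Reg.snd B₁ (Reg.self B₂ k)

theorem RegM.pair {B : β → LS Ω T} {C₁ : γ₁ → LS Ω Y₁} {C₂ : γ₂ → LS Ω Y₂} {u : T → Y₁}
    {v : T → Y₂} (hu : RegM B C₁ u) (hv : RegM B C₂ v) :
    RegM B (prodB C₁ C₂) fun t => (u t, v t) := by
  intro k
  rw [congrFun (prodB_pb C₁ C₂ fun t => (u t, v t)) k]
  cases k with
  | inl k => exact hu k
  | inr k => exact hv k

theorem RegM.prodMap {B₁ : β₁ → LS Ω T₁} {B₂ : β₂ → LS Ω T₂} {C₁ : γ₁ → LS Ω Y₁}
    {C₂ : γ₂ → LS Ω Y₂} {j₁ : T₁ → Y₁} {j₂ : T₂ → Y₂} (h₁ : RegM B₁ C₁ j₁) (h₂ : RegM B₂ C₂ j₂) :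
    RegM (prodB B₁ B₂) (prodB C₁ C₂) (Prod.map j₁ j₂) :=
  ((RegM.fst B₁ B₂).comp h₁).pair ((RegM.snd B₁ B₂).comp h₂)

theorem reg_prodB {ν₁ ν₂ : Type} {B₁ : β₁ → LS Ω T₁} {B₂ : β₂ → LS Ω T₂} {W₁ : ν₁ → LS Ω T₁}
    {W₂ : ν₂ → LS Ω T₂} (h₁ : ∀ k, Reg B₁ (W₁ k)) (h₂ : ∀ k, Reg B₂ (W₂ k)) (k : ν₁ ⊕ ν₂) :
    Reg (prodB B₁ B₂) (prodB W₁ W₂ k) := by
  cases k with
  | inl k => exact (h₁ k).fst B₂
  | inr k => exact Reg.snd B₁ (h₂ k)

end prod

theorem exists_slots (n : ℕ) (s : β →₀ ℕ) (hs : s.degree = n) :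
    ∃ g : Fin n → β, ∑ j, Finsupp.single (g j) 1 = s := by
  induction s using deg_induction generalizing n with
  | h0 =>
    obtain rfl : n = 0 := by simpa using hs.symm
    exact ⟨Fin.elim0, by simp⟩
  | h1 s i ih =>
    obtain ⟨g, hg⟩ := ih _ rfl
    obtain rfl : n = s.degree + 1 := by rw [← hs, map_add, Finsupp.degree_single]
    refine ⟨Fin.cons i g, ?_⟩
    rw [Fin.sum_univ_succ]
    simp only [Fin.cons_zero, Fin.cons_succ, hg, add_comm]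

theorem pc_nvA (B : β → LS Ω T) (d : β → ℕ) (t : T) : ∃ u ∈ pc B d, u t ≠ 0 := by
  choose u hu h using fun i => (B i).pow_nv (d i) t
  refine ⟨∏ i, u i, ?_, ?_⟩
  · refine Finset.prod_induction (s := Finset.univ) (f := fun i => (u i, (B i).sp ^ d i))
      (fun x => x.1 ∈ x.2) (fun a b ha hb => Submodule.mul_mem_mul ha hb)
      (Submodule.one_le.1 le_rfl) (fun i _ => hu i) |> fun h => ?_
    simpa [Prod.fst_prod, Prod.snd_prod, pc] using h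
  · rw [Finset.prod_apply]
    exact Finset.prod_ne_zero_iff.2 fun i _ => h i

theorem pL_ne_zero [Nonempty T] (B : β → LS Ω T) : pL B ≠ 0 := by
  intro h0
  obtain ⟨N, hN⟩ := evP_pL B
  have h1 := hN (fun _ => N) fun _ => le_rfl
  rw [h0, map_zero] at h1
  obtain ⟨t⟩ := ‹Nonempty T›
  obtain ⟨u, hu, h⟩ := pc_nvA B (fun _ => N) t
  have : FiniteDimensional Ω (pc B fun _ => N) := by
    classical
    unfold pc
    refine Finset.prod_induction _ (fun V : Submodule Ω (T → Ω) => FiniteDimensional Ω V)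
      (fun a b ha hb => (Submodule.fg_iff_finiteDimensional _).1
        (((Submodule.fg_iff_finiteDimensional _).2 ha).mul
          ((Submodule.fg_iff_finiteDimensional _).2 hb))) (LS.one Ω T).fd fun i _ =>
      (Submodule.fg_iff_finiteDimensional _).1
        (((Submodule.fg_iff_finiteDimensional _).2 (B i).fd).pow _)
  have h2 : finrank Ω (pc B fun _ => N) = 0 := Nat.cast_eq_zero.1 h1.symm
  rw [Submodule.finrank_eq_zero] at h2
  rw [h2, Submodule.mem_bot] at hu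
  exact h (by rw [hu]; rfl)

/-- TOP -/
theorem Src.top {B : β → LS Ω T} {n : ℕ} (h : Src B n) :
    (∃ g : Fin n → β, mix B (B ∘ g) ≠ 0) ∨ ∃ m, m + 1 = n ∧ Src B m := by
  by_cases hd : Dg (pL B) ((n : ℤ) - 1)
  · right
    cases n with
    | zero =>
      have := h.ne
      exact absurd (hd.eq_zero (by omega)) (pL_ne_zero B)
    | succ m => exact ⟨m, rfl, h.ne, h.dom, by simpa using hd⟩
  · left
    simp only [Dg, not_forall] at hd
    obtain ⟨s, hs, hc⟩ := hd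
    have e : s.degree = n := by
      by_contra hne
      exact hc (h.dg s (by omega))
    obtain ⟨g, hg⟩ := exists_slots n s e
    exact ⟨g, by rw [mix_self, hg]; exact fun h0 => hc (nc_eq_zero.1 h0)⟩

theorem exists_deg {B : β → LS Ω T} {C : γ → LS Ω Y} {n : ℕ} (hB : Src B n) (hC : Src C n)
    {j : T → Y} (hj : RegM B C j) : ∃ r : ℕ, Deg B C j n r := by
  obtain ⟨r, -, hr⟩ := mix_mul hB hC j hj
  exact ⟨r, hr⟩

/-- the degree is seen on one family of slots with nonzero mixed degree -/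
theorem deg_of_ne {B : β → LS Ω T} {C : γ → LS Ω Y} {n : ℕ} (hB : Src B n) (hC : Src C n)
    {j : T → Y} (hj : RegM B C j) {W : ν → LS Ω Y} (hn : n ≤ Fintype.card ν)
    (hW : ∀ k, Reg C (W k)) (h0 : mix C W ≠ 0) {r : ℚ}
    (h : mix B (fun k => (W k).pb j) = r * mix C W) : Deg B C j n r := by
  obtain ⟨r', hr⟩ := exists_deg hB hC hj
  rwa [← mul_right_cancel₀ h0 ((hr ν W hn hW).symm.trans h)]

/-- a target of smaller dimension: every number is a degree -/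
theorem deg_of_low {B : β → LS Ω T} {C : γ → LS Ω Y} {n m : ℕ} (hB : Src B n) (hC : Src C m)
    (hm : m < n) {j : T → Y} (hj : RegM B C j) (r : ℚ) : Deg B C j n r := by
  obtain ⟨r', hr⟩ := exists_deg hB (hC.mono hm.le) hj
  intro ν _ W hn hW
  rw [hr ν W hn hW, mix_zero hC hW (hm.trans_le hn), mul_zero, mul_zero]

theorem deg_of_test {B : β → LS Ω T} {C : γ → LS Ω Y} {n : ℕ} (hB : Src B n) (hC : Src C n)
    {j : T → Y} (hj : RegM B C j) {r : ℚ}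
    (h : ∀ g : Fin n → γ, mix B (fun k => (C (g k)).pb j) = r * mix C (C ∘ g)) :
    Deg B C j n r := by
  rcases hC.top with ⟨g, hg⟩ | ⟨m, rfl, hm⟩
  · exact deg_of_ne hB hC hj (by simp) (fun k => Reg.self C _) hg (h g)
  · exact deg_of_low hB hm (Nat.lt_succ_self m) hj r

theorem Deg.id (B : β → LS Ω T) (n : ℕ) : Deg B B id n 1 := fun ν _ W _ _ => by
  simp only [LS.pb_id, one_mul]

theorem Deg.comp {B : β → LS Ω T} {C : γ → LS Ω Y} {D : δ → LS Ω Z} {j : T → Y} {i : Y → Z}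
    {n : ℕ} {r s : ℚ} (h : Deg B C j n r) (h' : Deg C D i n s) (hi : RegM C D i) :
    Deg B D (i ∘ j) n (r * s) := fun ν _ W hn hW => by
  simp only [← LS.pb_pb]
  rw [h ν _ hn fun k => hi.pull (hW k), h' ν W hn hW, mul_assoc]

/-- PUSH2: degrees multiply on products -/
theorem Deg.prod {T₁ T₂ Y₁ Y₂ β₁ β₂ γ₁ γ₂ : Type} [Fintype β₁] [Fintype β₂] [Fintype γ₁]
    [Fintype γ₂] {B₁ : β₁ → LS Ω T₁} {B₂ : β₂ → LS Ω T₂} {C₁ : γ₁ → LS Ω Y₁}
    {C₂ : γ₂ → LS Ω Y₂} {j₁ : T₁ → Y₁} {j₂ : T₂ → Y₂} {n₁ n₂ : ℕ} {r₁ r₂ : ℚ}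
    (hB₁ : Src B₁ n₁) (hB₂ : Src B₂ n₂) (hC₁ : Src C₁ n₁) (hC₂ : Src C₂ n₂)
    (h₁ : RegM B₁ C₁ j₁) (h₂ : RegM B₂ C₂ j₂) (d₁ : Deg B₁ C₁ j₁ n₁ r₁)
    (d₂ : Deg B₂ C₂ j₂ n₂ r₂) :
    Deg (prodB B₁ B₂) (prodB C₁ C₂) (Prod.map j₁ j₂) (n₁ + n₂) (r₁ * r₂) := by
  rcases hC₁.top with ⟨g₁, hg₁⟩ | ⟨m, rfl, hm⟩
  swap
  · exact deg_of_low (hB₁.prod hB₂) (hm.prod hC₂) (by omega) (h₁.prodMap h₂) _
  rcases hC₂.top with ⟨g₂, hg₂⟩ | ⟨m, rfl, hm⟩
  swap
  · exact deg_of_low (hB₁.prod hB₂) (hC₁.prod hm) (by omega) (h₁.prodMap h₂) _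
  refine deg_of_ne (hB₁.prod hB₂) (hC₁.prod hC₂) (h₁.prodMap h₂)
    (W := prodB (C₁ ∘ g₁) (C₂ ∘ g₂)) (by simp)
    (reg_prodB (fun k => Reg.self C₁ _) fun k => Reg.self C₂ _)
    (by rw [mix_prod]; exact mul_ne_zero hg₁ hg₂) ?_
  rw [prodB_map, mix_prod, mix_prod, d₁ _ (C₁ ∘ g₁) (by simp) fun k => Reg.self C₁ _,
    d₂ _ (C₂ ∘ g₂) (by simp) fun k => Reg.self C₂ _]
  ring

/-- a regular bijection with regular inverse has degree one -/
theorem deg_of_inv {B : β → LS Ω T} {C : γ → LS Ω Y} {n : ℕ} (hB : Src B n)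
    {j : T → Y} {i : Y → T} (hj : RegM B C j) (hi : RegM C B i) (e : i ∘ j = id)
    (e' : Function.Surjective j) : Deg B C j n 1 := by
  intro ν _ W hn hW
  rw [one_mul, ← (Dense.of_surj e' C).mix hW]
  refine mix_base hB hj (fun k => ?_) (fun k => hj.pull (hW k)) hn
  have := (hi k).pb j
  rwa [LS.pb_pb, e, LS.pb_id] at this

/-- MULC: a self-map of the target of known degree -/
theorem Deg.mulc {B : β → LS Ω T} {C : γ → LS Ω Y} {n : ℕ} (hB : Src B n) (hC : Src C n)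
    {j : T → Y} (hj : RegM B C j) {i : Y → Y} (hi : RegM C C i) {s : ℚ} (d : Deg C C i n s)
    {W : ν → LS Ω Y} (hn : n ≤ Fintype.card ν) (hW : ∀ k, Reg C (W k)) :
    mix B (fun k => (W k).pb (i ∘ j)) = s * mix B fun k => (W k).pb j := by
  obtain ⟨r, hr⟩ := exists_deg hB hC hj
  rw [hr.comp d hi ν W hn hW, hr ν W hn hW]
  ring

section frob

theorem LS.exists_co (V : LS Ω T) : ∃ (m : ℕ) (p : T → Fin m → Ω) (hp : ∀ t, p t ≠ 0),
    V = LS.co p hp := by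
  obtain ⟨m, f, hf⟩ := Submodule.fg_iff_exists_fin_generating_family.1
    ((Submodule.fg_iff_finiteDimensional V.sp).2 V.fd)
  refine ⟨m, fun t i => f i t, fun t h0 => ?_, LS.ext' hf.symm⟩
  obtain ⟨u, hu, h⟩ := V.nv t
  rw [← hf] at hu
  refine h ?_
  clear h
  induction hu using Submodule.span_induction with
  | mem x hx =>
    obtain ⟨i, rfl⟩ := hx
    exact congrFun h0 i
  | zero => rfl
  | add x y _ _ hx hy => rw [Pi.add_apply, hx, hy, add_zero]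
  | smul c x _ hx => rw [Pi.smul_apply, hx, smul_zero]

theorem LS.mlt_tw (fr : Ω ≃+* Ω) (Q : ℕ) (hfr : ∀ x, fr x = x ^ Q) (V : LS Ω T) :
    V.Mlt Q (V.tw fr) := by
  obtain ⟨m, p, hp, rfl⟩ := V.exists_co
  have hq : ∀ t, (fun i => fr (p t i)) ≠ 0 := fun t h0 => hp t (funext fun i => by
    simpa using congrFun h0 i)
  rw [LS.tw_co fr p hp hq]
  exact LS.mlt_co hp hq Q fun t => ⟨1, fun i => by rw [one_mul, hfr]⟩

/-- `F` raises the coordinates to the power given by `fr` -/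
def IsFr (fr : Ω ≃+* Ω) (B : β → LS Ω T) (C : β → LS Ω Y) (F : T → Y) : Prop :=
  Dense F C ∧ ∀ k, ((B k).tw fr).Sim ((C k).pb F)

variable {fr : Ω ≃+* Ω} {Q : ℕ} {B : β → LS Ω T} {C : β → LS Ω Y} {F : T → Y}

theorem isFr_of_surj (hF : Function.Surjective F) (h : ∀ k, ((B k).tw fr).Sim ((C k).pb F)) :
    IsFr fr B C F := ⟨Dense.of_surj hF C, h⟩

theorem IsFr.mlt (h : IsFr fr B C F) (hfr : ∀ x, fr x = x ^ Q) (k : β) :
    (B k).Mlt Q ((C k).pb F) := ((B k).mlt_tw fr Q hfr).sim (h.2 k)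

theorem IsFr.regM (h : IsFr fr B C F) (hfr : ∀ x, fr x = x ^ Q) : RegM B C F :=
  fun k => (Reg.self B k).mlt (h.mlt hfr k)

theorem IsFr.src (h : IsFr fr B C F) {n : ℕ} (hB : Src B n) : Src C n :=
  h.1.src.1
    ((hB.tw fr).of_reg fun k => (Reg.self (fun i => (B i).tw fr) k).sim (h.2 k))

theorem IsFr.pL (h : IsFr fr B C F) : pL C = pL B := by
  rw [← h.1.pL, ← pL_sim h.2, pL_tw]

theorem IsFr.mix (h : IsFr fr B C F) (g : ν → β) : mix C (C ∘ g) = mix B (B ∘ g) := by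
  rw [mix_self, mix_self, h.pL]

/-- FROB -/
theorem IsFr.deg (h : IsFr fr B C F) (hfr : ∀ x, fr x = x ^ Q) {n : ℕ} (hB : Src B n) :
    Deg B C F n ((Q : ℚ) ^ n) := by
  refine deg_of_test hB (h.src hB) (h.regM hfr) fun g => ?_
  rw [h.mix, mix_mlt (W := B ∘ g) hB (fun k => Reg.self B _) (by simp) fun k => h.mlt hfr (g k)]
  simp

/-- coordinates -/
theorem isFr_co {s : Type} [Finite s] (hfr : ∀ x, fr x = x ^ Q) {p : T → s → Ω} {p' : Y → s → Ω}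
    (hp : ∀ t, p t ≠ 0) (hp' : ∀ y, p' y ≠ 0) (hF : Function.Surjective F)
    (h : ∀ t, ∃ c : Ω, ∀ i, p' (F t) i = c * p t i ^ Q) :
    IsFr fr (fun _ : β => LS.co p hp) (fun _ : β => LS.co p' hp') F := by
  refine ⟨Dense.of_surj hF _, fun _ => ?_⟩
  have hq : ∀ t, (fun i => fr (p t i)) ≠ 0 := fun t h0 => hp t (funext fun i => by
    simpa using congrFun h0 i)
  rw [LS.tw_co fr p hp hq, LS.pb_co]
  refine LS.sim_co _ _ fun t => ?_
  obtain ⟨c, hc⟩ := h t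
  exact ⟨c, funext fun i => by rw [hc, Pi.smul_apply, smul_eq_mul, hfr]⟩

end frob

end Pool.Agent.Tav
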