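import Pool.Agent.P.MP_2ce3e7_ag.Tav.XArea

/-! The product of the classes of two chains counts the points of the fibres of a linear map. -/

set_option autoImplicit false

noncomputable section

namespace Pool.Agent.Tav

open MeasureTheory Set Module Pool.Agent.Weil Pool.Agent.TateX

theorem count_pairs {Z Z' Y Y' I I' : Type} [Fintype I] [Fintype I'] (F : Z → Y) (F' : Z' → Y')
    (A : I → Set Y) (A' : I' → Set Y') (G : Set (Y × Y')) (k k' : ℕ) (r : I → I' → ℕ)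
    (hr : ∀ i j, (G ∩ A i ×ˢ A' j).encard = r i j)
    (hg : ∀ y ∈ G, (y.1 ∈ range F ∨ ∃ i, y.1 ∈ A i) → (y.2 ∈ range F' ∨ ∃ j, y.2 ∈ A' j) →
      ((F ⁻¹' {y.1}).Finite ∧ (F ⁻¹' {y.1}).ncard = k * {i | y.1 ∈ A i}.ncard) ∧
      (F' ⁻¹' {y.2}).Finite ∧ (F' ⁻¹' {y.2}).ncard = k' * {j | y.2 ∈ A' j}.ncard) :
    {p : Z × Z' | (F p.1, F' p.2) ∈ G}.ncard = k * k' * ∑ i, ∑ j, r i j := by
  classical
  have hfin : ∀ i j, (G ∩ A i ×ˢ A' j).Finite := fun i j => finite_of_encard_eq_coe (hr i j)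
  have hN : (⋃ i, ⋃ j, G ∩ A i ×ˢ A' j).Finite :=
    finite_iUnion fun i => finite_iUnion fun j => hfin i j
  have hm : ∀ y, y ∈ hN.toFinset ↔ y ∈ G ∧ (∃ i, y.1 ∈ A i) ∧ ∃ j, y.2 ∈ A' j := fun y => by
    simp only [Finite.mem_toFinset, mem_iUnion, mem_inter_iff, mem_prod]
    exact ⟨fun ⟨i, j, h⟩ => ⟨h.1, ⟨i, h.2.1⟩, j, h.2.2⟩,
      fun ⟨h, ⟨i, hi⟩, j, hj⟩ => ⟨i, j, h, hi, hj⟩⟩
  have hN' := fun y hy => hg y ((hm y).1 hy).1 (Or.inr ((hm y).1 hy).2.1) (Or.inr ((hm y).1 hy).2.2)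
  have hmap : ∀ p : Z × Z', (F p.1, F' p.2) ∈ G → (F p.1, F' p.2) ∈ hN.toFinset := fun p hp => by
    obtain ⟨⟨a1, a2⟩, b1, b2⟩ := hg _ hp (Or.inl ⟨_, rfl⟩) (Or.inl ⟨_, rfl⟩)
    refine (hm _).2 ⟨hp, ?_, ?_⟩
    · by_contra h
      rw [eq_empty_of_forall_notMem (s := {i | F p.1 ∈ A i}) fun i hi => h ⟨i, hi⟩, ncard_empty,
        mul_zero, ncard_eq_zero a1] at a2
      exact (a2 ▸ rfl : p.1 ∈ (∅ : Set Z))
    · by_contra h
      rw [eq_empty_of_forall_notMem (s := {i | F' p.2 ∈ A' i}) fun i hi => h ⟨i, hi⟩, ncard_empty,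
        mul_zero, ncard_eq_zero b1] at b2
      exact (b2 ▸ rfl : p.2 ∈ (∅ : Set Z'))
  have hS : {p : Z × Z' | (F p.1, F' p.2) ∈ G}.Finite :=
    (hN.toFinset.finite_toSet.biUnion fun y hy => (hN' y hy).1.1.prod (hN' y hy).2.1).subset
      fun p hp => mem_biUnion (hmap p hp) ⟨rfl, rfl⟩
  rw [ncard_eq_toFinset_card _ hS, Finset.card_eq_sum_card_fiberwise (f := fun p => (F p.1, F' p.2))
    (t := hN.toFinset) fun p hp => hmap p (hS.mem_toFinset.1 hp)]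
  have h1 : ∀ y ∈ hN.toFinset, (hS.toFinset.filter fun p => (F p.1, F' p.2) = y).card =
      k * k' * ∑ i, ∑ j, if y ∈ A i ×ˢ A' j then 1 else 0 := fun y hy => by
    have e : ((hS.toFinset.filter fun p => (F p.1, F' p.2) = y : Finset _) : Set (Z × Z')) =
        (F ⁻¹' {y.1}) ×ˢ (F' ⁻¹' {y.2}) := by
      ext p
      simp only [Finset.coe_filter, Finite.mem_toFinset, mem_ofPred_eq, mem_prod, mem_preimage,
        mem_singleton_iff, Prod.ext_iff]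
      refine ⟨fun h => h.2, fun h => ⟨?_, h⟩⟩
      rw [h.1, h.2]
      exact ((hm y).1 hy).1
    have c1 : ∀ {J : Type} [Fintype J] (p : J → Prop), {i | p i}.ncard = ∑ i, if p i then 1 else 0 :=
      fun p => by rw [← Finset.card_filter, ← ncard_coe_finset, Finset.coe_filter]; simp
    rw [← ncard_coe_finset, e, ncard_prod, (hN' y hy).1.2, (hN' y hy).2.2, c1, c1,
      mul_mul_mul_comm, Finset.sum_mul_sum]
    congr 1
    refine Finset.sum_congr rfl fun i _ => Finset.sum_congr rfl fun j _ => ?_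
    simp only [mem_prod, ite_and]
    split_ifs <;> rfl
  rw [Finset.sum_congr rfl h1, ← Finset.mul_sum, Finset.sum_comm]
  congr 1
  refine Finset.sum_congr rfl fun i _ => ?_
  rw [Finset.sum_comm]
  refine Finset.sum_congr rfl fun j _ => ?_
  rw [← Finset.card_filter, ← ncard_coe_finset, ← Nat.cast_inj (R := ℕ∞), ← hr,
    ← (hfin i j).cast_ncard_eq]
  congr 2
  ext y
  simp only [Finset.coe_filter, mem_ofPred_eq, hm, mem_inter_iff]
  exact ⟨fun h => ⟨h.1.1, h.2⟩, fun h => ⟨⟨h.1, ⟨i, h.2.1⟩, j, h.2.2⟩, h.2⟩⟩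

variable {V W B : Type} [NormedAddCommGroup V] [NormedSpace ℂ V] [NormedAddCommGroup W]
  [NormedSpace ℂ W] [NormedAddCommGroup B] [NormedSpace ℂ B]
  {Λ : AddSubgroup V} {Λ' : AddSubgroup W} {ΛB : AddSubgroup B} {m m' : ℕ}

theorem thin_prod_succ {S : Set V} {S' : Set W} (h : Thin m S) (h' : Thin (m' + 1) S') :
    Thin (m + m') (S ×ˢ S') := by
  obtain ⟨J, hJ, d, U, φ, h1, h2⟩ := h'
  refine (thin_iUnion (J := J) fun j => (h.prod_param (h1 j).2).mono subset_rfl ?_).mono ?_ le_rfl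
  · have := (h1 j).1
    simp only [Module.finrank_fintype_fun_eq_card, Fintype.card_fin]
    omega
  · rintro ⟨x, y⟩ ⟨hx, hy⟩
    obtain ⟨j, hj⟩ := mem_iUnion.1 (h2 hy)
    exact mem_iUnion.2 ⟨j, hx, hj⟩

theorem thin_succ_prod {S : Set V} {S' : Set W} (h : Thin (m + 1) S) (h' : Thin m' S') :
    Thin (m + m') (S ×ˢ S') := by
  have := (thin_prod_succ h' h).image (g := Prod.swap) fun _ _ => analyticAt_snd.prod analyticAt_fst
  rwa [image_swap_prod, add_comm] at this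

theorem thin_supp (hΛ : IsLat Λ) (c : Chain V Λ (Fin m → ℂ)) :
    Thin (m + 1) {v | ∃ z, c.F z = QuotientAddGroup.mk v} := by
  have := hΛ.countable
  have e : finrank ℂ (Fin m → ℂ) = m := by simp
  refine Thin.mono ((c.thin.mono subset_rfl (by omega)).union (thin_iUnion fun j : c.J × Λ =>
    thin_of_param (φ := fun u => c.φ j.1 u + j.2) (U := c.U j.1) (by omega)
      fun u hu => (c.an j.1 u hu).add analyticAt_const)) ?_ le_rfl
  rintro v ⟨z, hz⟩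
  exact PC.total_subset c hz

/-- off a thin set the chain `c` covers each of the sets `Z i` exactly `k` times -/
structure Covers (c : Chain V Λ (Fin m → ℂ)) (k : ℕ) {I : Type} (Z : I → Set V) : Prop where
  per : ∀ i, ∀ v ∈ Z i, ∀ l ∈ Λ, v + l ∈ Z i
  thin : ∀ i, Thin (m + 1) (Z i)
  fib : ∃ N : Set V, Thin m N ∧ ∀ v ∉ N, {z | c.F z = QuotientAddGroup.mk v}.Finite ∧
    {z | c.F z = QuotientAddGroup.mk v}.ncard = k * {i | v ∈ Z i}.ncard

/-- the classes of the pairs in `Z × Z'` that are sent to the class of `x` -/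
def hits (Λ : AddSubgroup V) (Λ' : AddSubgroup W) (ΛB : AddSubgroup B) (q : V × W → B)
    (Z : Set V) (Z' : Set W) (x : B) : Set ((V ⧸ Λ) × (W ⧸ Λ')) :=
  (fun t : Z × Z' => (QuotientAddGroup.mk t.1.1, QuotientAddGroup.mk t.2.1)) ''
    {t | q (t.1, t.2) - x ∈ ΛB}

variable [FiniteDimensional ℂ V] [FiniteDimensional ℂ W] [FiniteDimensional ℂ B]
  [MeasurableSpace B] [BorelSpace B] (ν : Measure B) [ν.IsAddHaarMeasure]

theorem ae_fib (hΛ : IsLat Λ) (hΛ' : IsLat Λ') (hΛB : IsLat ΛB) {c : Chain V Λ (Fin m → ℂ)}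
    {c' : Chain W Λ' (Fin m' → ℂ)} (hm : m + m' = finrank ℂ B) {I I' : Type} [Fintype I]
    [Fintype I'] {k k' : ℕ} {Z : I → Set V} {Z' : I' → Set W} (h : Covers c k Z)
    (h' : Covers c' k' Z') (q : V × W →L[ℂ] B) (hq : ∀ l ∈ Λ.prod Λ', q l ∈ ΛB) (r : I → I' → ℕ)
    (hr : ∀ i j, ∀ᵐ x ∂ν, (hits Λ Λ' ΛB q (Z i) (Z' j) x).encard = r i j) :
    ∀ᵐ x ∂ν, (TateX.fib (cprod hΛ hΛ' c c') q ΛB x).ncard = k * k' * ∑ i, ∑ j, r i j := by
  have := hΛB.countable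
  obtain ⟨N, hN, hf⟩ := h.fib
  obtain ⟨N', hN', hf'⟩ := h'.fib
  have t1 := (thin_prod_succ hN ((thin_supp hΛ' c').union (thin_iUnion h'.thin))).union
    (thin_succ_prod ((thin_supp hΛ c).union (thin_iUnion h.thin)) hN')
  have t2 := thin_iUnion fun l : ΛB => t1.image (g := fun p => q p - l)
    fun p _ => (q.analyticAt p).sub analyticAt_const
  rw [hm] at t2
  filter_upwards [measure_eq_zero_iff_ae_notMem.1 (t2.measure_zero ν),
    ae_all_iff.2 fun i => ae_all_iff.2 (hr i)] with x hx hxr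
  have key : ∀ {v v' : V} {w w' : W}, (QuotientAddGroup.mk v : V ⧸ Λ) = QuotientAddGroup.mk v' →
      (QuotientAddGroup.mk w : W ⧸ Λ') = QuotientAddGroup.mk w' → q (v, w) - x ∈ ΛB →
      q (v', w') - x ∈ ΛB := fun {v v' w w'} e1 e2 h3 => by
    have h4 := ΛB.add_mem h3 (hq (-v + v', -w + w')
      ⟨QuotientAddGroup.eq.1 e1, QuotientAddGroup.eq.1 e2⟩)
    rwa [sub_add_eq_add_sub, ← map_add, Prod.mk_add_mk, add_neg_cancel_left,
      add_neg_cancel_left] at h4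
  have p1 : ∀ i v, (QuotientAddGroup.mk v : V ⧸ Λ) ∈ QuotientAddGroup.mk '' Z i ↔ v ∈ Z i :=
    fun i v => ⟨fun ⟨v', hv, e⟩ => by
      simpa using h.per i v' hv _ (QuotientAddGroup.eq.1 e), fun hv => ⟨v, hv, rfl⟩⟩
  have p2 : ∀ i v, (QuotientAddGroup.mk v : W ⧸ Λ') ∈ QuotientAddGroup.mk '' Z' i ↔ v ∈ Z' i :=
    fun i v => ⟨fun ⟨v', hv, e⟩ => by
      simpa using h'.per i v' hv _ (QuotientAddGroup.eq.1 e), fun hv => ⟨v, hv, rfl⟩⟩
  refine Eq.trans ?_ (count_pairs c.F c'.F (fun i => QuotientAddGroup.mk '' Z i)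
    (fun j => QuotientAddGroup.mk '' Z' j) {y | ∃ v w, y.1 = QuotientAddGroup.mk v ∧
      y.2 = QuotientAddGroup.mk w ∧ q (v, w) - x ∈ ΛB} k k' r (fun i j => ?_) ?_)
  · congr 1
    ext ⟨z, z'⟩
    constructor
    · rintro ⟨⟨v, w⟩, h1, h2⟩
      obtain ⟨h3, h4⟩ := (cprod_F hΛ hΛ' c c' z z' v w).1 h1
      exact ⟨v, w, h3, h4, h2⟩
    · rintro ⟨v, w, h3, h4, h2⟩
      exact ⟨(v, w), (cprod_F hΛ hΛ' c c' z z' v w).2 ⟨h3, h4⟩, h2⟩
  · rw [← hxr i j]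
    congr 1
    ext y
    constructor
    · rintro ⟨⟨v, w, h1, h2, h3⟩, ⟨v', hv, e1⟩, w', hw, e2⟩
      exact ⟨(⟨v', hv⟩, ⟨w', hw⟩), key (h1.symm.trans e1.symm) (h2.symm.trans e2.symm) h3,
        Prod.ext e1 e2⟩
    · rintro ⟨t, ht, rfl⟩
      exact ⟨⟨_, _, rfl, rfl, ht⟩, ⟨_, t.1.2, rfl⟩, _, t.2.2, rfl⟩
  · rintro ⟨_, _⟩ ⟨v, w, rfl, rfl, h3⟩ h1 h2
    simp only [p1, p2] at h1 h2 ⊢
    refine ⟨hf v fun hv => hx (mem_iUnion.2 ⟨⟨_, h3⟩, (v, w), Or.inl ⟨hv, ?_⟩, by simp⟩),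
      hf' w fun hw => hx (mem_iUnion.2 ⟨⟨_, h3⟩, (v, w), Or.inr ⟨?_, hw⟩, by simp⟩)⟩
    · exact h2.imp id mem_iUnion.2
    · exact h1.imp id mem_iUnion.2

theorem area_count (hΛ : IsLat Λ) (hΛ' : IsLat Λ') (hΛB : IsLat ΛB) {c : Chain V Λ (Fin m → ℂ)}
    {c' : Chain W Λ' (Fin m' → ℂ)} (hm : m + m' = finrank ℂ B) {I I' : Type} [Fintype I]
    [Fintype I'] {k k' : ℕ} {Z : I → Set V} {Z' : I' → Set W} (h : Covers c k Z)
    (h' : Covers c' k' Z') {T : HomC V m} {T' : HomC W m'} (hT : c.IsClass volume (frame m) T)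
    (hT' : c'.IsClass volume (frame m') T') {Γ : Type} [Fintype Γ] [DecidableEq Γ]
    (e : (Fin m ⊕ Fin m) ⊕ (Fin m' ⊕ Fin m') ≃ Γ) (ξ : Γ → Cov V) (ξ' : Γ → Cov W) (ζ : Γ → Cov B)
    (n : T (fun a => ξ (e (.inl a))) ≠ 0) (n' : T' (fun a => ξ' (e (.inr a))) ≠ 0) :
    ∃ (κ : ℂ) (t : Finset Γ → ℂ), t (Finset.univ.image fun a => e (.inr a)) ≠ 0 ∧
      ∀ (q : V × W →L[ℂ] B) (α β : Γ → ℂ) (r : I → I' → ℕ), (∀ l ∈ Λ.prod Λ', q l ∈ ΛB) →
        (∀ γ v w, ζ γ (q (v, w)) = α γ * ξ γ v + β γ * ξ' γ w) →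
        (∀ i j, ∀ᵐ x ∂ν, (hits Λ Λ' ΛB q (Z i) (Z' j) x).encard = r i j) →
        κ * ∑ i, ∑ j, (r i j : ℂ) = ∑ s : Finset Γ, t s * ((∏ γ ∈ sᶜ, α γ) * ∏ γ ∈ s, β γ) := by
  obtain ⟨ε, hε⟩ := exists_frame_basis m
  obtain ⟨ε', hε'⟩ := exists_frame_basis m'
  rw [← hε] at hT
  rw [← hε'] at hT'
  obtain ⟨S, hS, hST⟩ := cprod_class volume volume hΛ hΛ' c c' ε ε' hT hT'
  have := Measure.prod.instIsAddHaarMeasure (volume : Measure (Fin m → ℂ))
    (volume : Measure (Fin m' → ℂ))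
  obtain ⟨C, A, hA⟩ := area ν _ hΛB (cprod hΛ hΛ' c c') (by simpa using hm) hS fun a => ζ (e a)
  let M := S.toMultilinearMap.domDomCongr e
  have hM : ∀ η : Γ → Cov (V × W), M η = S fun a => η (e a) := fun _ => rfl
  let f : Γ → Cov (V × W) := fun γ => pull (ContinuousLinearMap.fst ℂ V W) (ξ γ)
  let g : Γ → Cov (V × W) := fun γ => pull (ContinuousLinearMap.snd ℂ V W) (ξ' γ)
  refine ⟨ν.real A * C * (k * k'), fun s => M (s.piecewise g f), ?_, fun q α β r hq hζ hr => ?_⟩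
  · have e1 : (fun a => (Finset.univ.image fun a => e (.inr a)).piecewise g f (e a)) =
        Sum.elim (fun a => f (e (.inl a))) fun a => g (e (.inr a)) := by
      funext a
      rcases a with a | a
      · exact Finset.piecewise_eq_of_notMem _ _ _ (by simp)
      · exact Finset.piecewise_eq_of_mem _ _ _ (by simp)
    change (S _) ≠ 0
    rw [e1, hST]
    exact mul_ne_zero n n'
  · have h1 := (hA q hq 0).2
    rw [integral_congr_ae (g := fun _ => C * ((k * k' * ∑ i, ∑ j, r i j : ℕ) : ℂ))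
      (ae_restrict_of_ae ((ae_fib ν hΛ hΛ' hΛB hm h h' q hq r hr).mono fun x hx => by
        simp only [add_zero, hx])), setIntegral_const, Complex.real_smul] at h1
    have h2 : (fun γ => pull q (ζ γ)) = (fun γ => β γ • g γ) + fun γ => α γ • f γ := by
      exact funext fun γ => ContinuousLinearMap.ext fun p => (hζ γ p.1 p.2).trans (add_comm _ _)
    have h3 := M.map_add_univ (fun γ => β γ • g γ) fun γ => α γ • f γ
    rw [← h2, hM, h1] at h3
    push_cast at h3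
    rw [mul_assoc, mul_assoc, h3]
    refine Finset.sum_congr rfl fun s _ => ?_
    have h4 : s.piecewise (fun γ => β γ • g γ) (fun γ => α γ • f γ) =
        fun γ => s.piecewise β α γ • s.piecewise g f γ := by
      funext γ
      by_cases hγ : γ ∈ s <;> simp [hγ]
    rw [h4, M.map_smul_univ, Finset.prod_piecewise, Finset.univ_inter, ← Finset.compl_eq_univ_sdiff,
      smul_eq_mul]
    ring

end Pool.Agent.Tav
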