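import Pool.Agent.P.MP_2ce3e7_ag.Tav.GMul
import Pool.Agent.P.MP_2ce3e7_ag.Tav.FibM
import Pool.Agent.P.MP_2ce3e7_ag.Tav.Defs

/-! The factor of the projection formula is the number of points of the general fibre. -/

set_option autoImplicit false

namespace Pool.Agent.Tav.FibM

open MvPolynomial Module Function

variable {K : Type} [Field K] {T Y Q β γ σ τ : Type}

theorem nz_of_blk {w : σ → β} {x : T → σ → K} {V : LS K T} {b : β}
    (h : V.sp = blk K w (fun v t => x t v) b) (t : T) : ∃ v, w v = b ∧ x t v ≠ 0 := by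
  obtain ⟨u, hu, h0⟩ := V.nv t
  by_contra hc
  push Not at hc
  rw [h] at hu
  refine h0 ((Submodule.span_le (p := LinearMap.ker (LinearMap.proj (R := K) t))).2 ?_ hu)
  rintro _ ⟨v, hv, rfl⟩
  exact hc v hv

variable [DecidableEq β] [DecidableEq γ]

theorem weight_map {w : σ → β} {w' : τ → γ} {g : σ → τ} {f : β → γ} (hf : Injective f)
    (h : ∀ v, w' (g v) = f (w v)) (m : σ →₀ ℕ) :
    Finsupp.weight (wN w') (m.mapDomain g) = extend f (Finsupp.weight (wN w) m) 0 := by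
  funext i
  by_cases hi : i ∈ Set.range f
  · obtain ⟨b, rfl⟩ := hi
    rw [hf.extend_apply]
    induction m using Finsupp.induction_linear with
    | zero => simp
    | add a b ha hb => simp [Finsupp.mapDomain_add, ha, hb]
    | single l k => simp [Finsupp.weight_single, wN, h, Pi.single_apply, hf.eq_iff]
  · rw [extend_apply' _ _ _ hi]
    induction m using Finsupp.induction_linear with
    | zero => simp
    | add a b ha hb => simp [Finsupp.mapDomain_add, ha, hb]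
    | single l k =>
      have : i ≠ f (w l) := fun e => hi ⟨_, e.symm⟩
      simp [Finsupp.weight_single, wN, h, this]

theorem rename_mem {w : σ → β} {w' : τ → γ} {g : σ → τ} {f : β → γ} (hf : Injective f)
    (h : ∀ v, w' (g v) = f (w v)) {d : β → ℕ} {F : MvPolynomial σ K} (hF : F ∈ Sd K w d) :
    rename g F ∈ Sd K w' (extend f d 0) := fun m hm => by
  obtain ⟨m, rfl, hm'⟩ := coeff_rename_ne_zero _ _ _ hm
  rw [weight_map hf h, hF hm']

theorem exists_rename [Fintype γ] [Finite τ] {w : σ → β} {w' : τ → γ} {g : σ → τ} {f : β → γ}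
    (hf : Injective f) (hg : Injective g) (h : ∀ v, w' (g v) = f (w v))
    (h' : ∀ v, w' v ∈ Set.range f → v ∈ Set.range g) {d : γ → ℕ} (hd : ∀ i ∉ Set.range f, d i = 0)
    {G : MvPolynomial τ K} (hG : G ∈ Sd K w' d) : ∃ F ∈ Sd K w (d ∘ f), rename g F = G := by
  classical
  cases nonempty_fintype τ
  obtain ⟨F, rfl⟩ := exists_rename_eq_of_vars_subset_range G g hg fun v hv => h' v (by
    obtain ⟨m, hm, hv⟩ := (mem_vars_iff_mem_support v).1 hv
    by_contra hc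
    have h1 := congrFun (hG (mem_support_iff.1 hm)) (w' v)
    rw [weight_wN, hd _ hc] at h1
    exact Finsupp.mem_support_iff.1 hv (Finset.sum_eq_zero_iff.1 h1 v (by simp)))
  refine ⟨F, fun m hm => funext fun b => ?_, rfl⟩
  have := hG (d := m.mapDomain g) (by rwa [coeff_rename_mapDomain _ hg])
  rw [comp_apply, ← this, weight_map hf h, hf.extend_apply]

variable [Fintype β] [Fintype γ] [Finite σ] [Finite τ]

/-- MUL with the number of points of the general fibre -/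
theorem mix_card [IsAlgClosed K] [CharZero K] {w : σ → β} {x : T → σ → K} {w' : τ → γ}
    {z : Y → τ → K} {B : β → LS K T} {C : γ → LS K Y}
    (hBx : ∀ b, (B b).sp = blk K w (fun v t => x t v) b)
    (hCz : ∀ k, (C k).sp = blk K w' (fun v y => z y v) k) {n : ℕ} (hB : Src B n) (hC : Src C n)
    (hn : ¬ Dg (pL C) (n - 1)) (j : T → Y) (hj : ∀ k, Reg B ((C k).pb j))
    (hcl : ∀ y : σ → K, (∀ b, ∃ v, w v = b ∧ y v ≠ 0) →
      (∀ d, ∀ F ∈ Sd K w d, (∀ t, eval (x t) F = 0) → eval y F = 0) →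
      ∃ (t : T) (l : β → K), ∀ v, y v = l (w v) * x t v)
    (kap : T → Q) (hk : ∀ t t', kap t = kap t' ↔ ∃ l : β → K, ∀ v, x t v = l (w v) * x t' v) :
    ∃ r : ℕ, (∀ (ν : Type) [Fintype ν] (W : ν → LS K Y), n ≤ Fintype.card ν → (∀ k, Reg C (W k)) →
        mix B (fun k => (W k).pb j) = r * mix C W) ∧
      ∃ e, ∃ F ∈ Sd K w' e, (∃ y, eval (z y) F ≠ 0) ∧ ∀ y, eval (z y) F ≠ 0 →
        (kap '' {t | ∃ l : γ → K, ∀ v, z (j t) v = l (w' v) * z y v}).encard = r := by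
  classical
  obtain ⟨r, h0, h1, h2⟩ := mix_mul' hB hC j hj
  refine ⟨r, h2, ?_⟩
  have eC : ∀ e, pc C e = pw (blk K w' fun v y => z y v) e := fun e => by
    rw [pc_eq_pw, funext hCz]
  have hz := fun y k => nz_of_blk (hCz k) y
  by_cases hD : Dense j C
  swap
  · rw [h0 hD]
    simp only [Dense, not_forall] at hD
    obtain ⟨e, f, hf, f1, f0⟩ := hD
    obtain ⟨F, F1, F2⟩ := exists_form (eC e ▸ hf)
    refine ⟨e, F, F1, (ne_iff.1 f0).imp fun y hy => by rwa [F2], fun y hy => ?_⟩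
    rw [Nat.cast_zero, Set.encard_eq_zero, Set.image_eq_empty, Set.eq_empty_iff_forall_notMem]
    rintro t ⟨l, hl⟩
    have := eval_of_par (S := Set.univ) (fun _ h => absurd trivial h) F1 fun v _ => hl v
    rw [F2, show f (j t) = 0 from congrFun f1 t] at this
    refine mul_ne_zero (Finset.prod_ne_zero_iff.2 fun i _ => ?_) hy this.symm
    obtain ⟨v, rfl, hv⟩ := hz (j t) i
    exact pow_ne_zero _ (left_ne_zero_of_mul (hl v ▸ hv))
  obtain ⟨-, N, hN⟩ := h1 hD hn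
  have := hB.ne
  have eL : blk K (Sum.map w w') (fun v t => Sum.elim (x t) (z (j t)) v) =
      fun i => (Sum.elim B (fun k => (C k).pb j) i).sp := funext fun i => by
    rcases i with b | k
    · rw [Sum.elim_inl, hBx, blk, blk]
      congr 1
      ext u
      constructor
      · rintro ⟨v | v, hv, rfl⟩
        · exact ⟨v, Sum.inl.inj hv, rfl⟩
        · cases hv
      · rintro ⟨v, hv, rfl⟩
        exact ⟨Sum.inl v, congrArg Sum.inl hv, rfl⟩
    · change _ = (C k).sp.map _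
      rw [hCz, blk, blk, Submodule.map_span]
      congr 1
      ext u
      constructor
      · rintro ⟨v | v, hv, rfl⟩
        · cases hv
        · exact ⟨_, ⟨v, Sum.inr.inj hv, rfl⟩, rfl⟩
      · rintro ⟨_, ⟨v, hv, rfl⟩, rfl⟩
        exact ⟨Sum.inr v, congrArg Sum.inr hv, rfl⟩
  have hx : ∀ t i, ∃ v, Sum.map w w' v = i ∧ Sum.elim (x t) (z (j t)) v ≠ 0 := fun t i =>
    nz_of_blk (x := fun t => Sum.elim (x t) (z (j t))) (congrFun eL i).symm t
  have c1 : ∀ y : σ ⊕ τ → K, (∀ i, ∃ v, Sum.map w w' v = i ∧ y v ≠ 0) →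
      (∀ d, (∀ i ∉ Set.range Sum.inl, d i = 0) → ∀ F ∈ Sd K (Sum.map w w') d,
        (∀ t, eval (Sum.elim (x t) (z (j t))) F = 0) → eval y F = 0) →
      ∃ (t : T) (l : β ⊕ γ → K), ∀ v, Sum.map w w' v ∈ Set.range Sum.inl →
        y v = l (Sum.map w w' v) * Sum.elim (x t) (z (j t)) v := fun y y0 y1 => by
    obtain ⟨t, l, hl⟩ := hcl (y ∘ Sum.inl) (fun b => by
      obtain ⟨v | v, hv, h⟩ := y0 (Sum.inl b)
      · exact ⟨v, Sum.inl.inj hv, h⟩
      · cases hv) fun d G hG h0 => by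
      rw [← eval_rename]
      have h3 := rename_mem (w' := Sum.map w w') (g := Sum.inl) (f := Sum.inl)
        Sum.inl_injective (fun _ => rfl) hG
      have h4 := y1 (extend Sum.inl d 0) (fun i hi => extend_apply' _ _ _ hi) _ h3
      exact h4 fun t => by rw [eval_rename]; exact h0 t
    refine ⟨t, Sum.elim l 0, ?_⟩
    rintro (v | v) hv
    · exact hl v
    · obtain ⟨_, h⟩ := hv; cases h
  have c2 := closed_of_reg (x := fun t => Sum.elim (x t) (z (j t))) hx Sum.inl_injective c1 (by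
    rw [eL]
    rintro (b | k) hi t
    · exact absurd ⟨b, rfl⟩ hi
    · exact hj k t)
  obtain ⟨e, F, F1, e0, ⟨t0, F2⟩, H⟩ := card_eq' (x := fun t => Sum.elim (x t) (z (j t))) hx
    Sum.inr_injective (by rw [eL]; exact hB.dom.ext hj) c2
    (r := r) (m := extend Sum.inl (fun _ => max N r) 0) (by
      rintro (b | k) hi
      · rw [Sum.inl_injective.extend_apply]; exact le_max_right _ _
      · exact absurd ⟨k, rfl⟩ hi)
    (by rw [pw_extend _ Sum.inl_injective, eL]; exact hN _ fun _ => le_max_left _ _) kap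
    fun t t' => (hk t t').trans ⟨fun ⟨l, hl⟩ => ⟨Sum.elim l 0, by
      rintro (v | v) hv
      · exact hl v
      · exact absurd ⟨_, rfl⟩ hv⟩, fun ⟨l, hl⟩ => ⟨l ∘ Sum.inl, fun v =>
        hl (Sum.inl v) fun ⟨_, h⟩ => by cases h⟩⟩
  have ex : ∀ {d : β ⊕ γ → ℕ}, (∀ i ∉ Set.range Sum.inr, d i = 0) → ∀ {G}, G ∈ Sd K (Sum.map w w') d →
      ∃ F ∈ Sd K w' (d ∘ Sum.inr), rename Sum.inr F = G := fun hd G hG =>
    exists_rename (w := w') (w' := Sum.map w w') (g := Sum.inr) (f := Sum.inr)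
      Sum.inr_injective Sum.inr_injective (fun _ => rfl) (by
      rintro (v | v) ⟨_, h⟩
      · cases h
      · exact ⟨v, rfl⟩) hd hG
  obtain ⟨F, F3, rfl⟩ := ex e0 F1
  rw [eval_rename] at F2
  refine ⟨_, F, F3, ⟨j t0, F2⟩, fun y hy => ?_⟩
  rw [← H (Sum.elim 0 (z y)) (by
    rintro _ ⟨k, rfl⟩
    obtain ⟨v, rfl, hv⟩ := hz y k
    exact ⟨Sum.inr v, rfl, hv⟩) (fun d hd G hG h0 => by
    obtain ⟨G, G1, rfl⟩ := ex hd hG
    have := hD _ _ ((eC _).ge (aeval_mem G1)) (funext fun t => by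
      have := h0 t
      rw [eval_rename] at this
      rw [pbA_apply, aeval_pt]
      exact this)
    rw [eval_rename]
    exact (aeval_pt z G y).symm.trans (congrFun this y)) (by rwa [eval_rename])]
  congr 2
  ext t
  refine ⟨fun ⟨l, hl⟩ => ⟨Sum.elim 0 l, ?_⟩, fun ⟨l, hl⟩ =>
    ⟨l ∘ Sum.inr, fun v => hl (Sum.inr v) ⟨_, rfl⟩⟩⟩
  rintro (v | v) ⟨_, h⟩
  · cases h
  · exact hl v

omit [Fintype β] [DecidableEq β] [DecidableEq γ] [Fintype γ] [Finite σ] [Finite τ] in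
theorem bpar_iff {w : σ → β} {a b : σ → K} (ha : ∀ i, ∃ v, w v = i ∧ a v ≠ 0) :
    BPar w a b ↔ ∃ l : β → K, ∀ v, a v = l (w v) * b v :=
  ⟨fun ⟨c, _, h⟩ => ⟨c, h⟩, fun ⟨c, h⟩ => ⟨c, fun i => by
    obtain ⟨v, rfl, hv⟩ := ha i
    exact left_ne_zero_of_mul (h v ▸ hv), h⟩⟩

/-- the same with the interface names -/
theorem mix_card' [IsAlgClosed K] [CharZero K] {wT : τ → γ} {y : T → τ → K}
    {hy : ∀ t b, ∃ v, wT v = b ∧ y t v ≠ 0} (hcl : Cl wT y) {n : ℕ} (hB : Src (LS.blk wT y hy) n)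
    {w : σ → β} {x : Y → σ → K} {hx : ∀ t b, ∃ v, w v = b ∧ x t v ≠ 0}
    (hC : Src (LS.blk w x hx) n) (hn : ¬ Dg (pL (LS.blk w x hx)) (n - 1)) (j : T → Y)
    (hj : ∀ b, Reg (LS.blk wT y hy) ((LS.blk w x hx b).pb j)) (kap : T → Q)
    (hk : ∀ t t', kap t = kap t' ↔ BPar wT (y t) (y t')) :
    ∃ r : ℕ, (∀ (ν : Type) [Fintype ν] (W : ν → LS K Y), n ≤ Fintype.card ν →
        (∀ k, Reg (LS.blk w x hx) (W k)) →
        mix (LS.blk wT y hy) (fun k => (W k).pb j) = r * mix (LS.blk w x hx) W) ∧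
      ∃ e, ∃ F ∈ pc (LS.blk w x hx) e, F ≠ 0 ∧ ∀ η : Y, F η ≠ 0 →
        (kap '' {t | BPar w (x (j t)) (x η)}).encard = r := by
  obtain ⟨r, h1, e, F, F1, ⟨y0, F2⟩, h2⟩ := mix_card (fun _ => rfl) (fun _ => rfl) hB hC hn j hj
    (fun z z0 z1 => (hcl z z0 z1).imp fun t ⟨c, _, h⟩ => ⟨c, h⟩) kap
    fun t t' => (hk t t').trans (bpar_iff (hy t))
  refine ⟨r, h1, e, _, aeval_mem (x := x) F1, fun h => F2 ?_, fun η hη => ?_⟩
  · rw [← aeval_pt, h, Pi.zero_apply]
  · rw [aeval_pt] at hη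
    rw [← h2 η hη]
    congr 2
    exact Set.ext fun t => bpar_iff (hx (j t))

end Pool.Agent.Tav.FibM

namespace Pool.Agent.Tav

theorem mix_card {K T Y Z τ σ β γ : Type} [Field K] [IsAlgClosed K] [CharZero K] [Finite τ]
    [Finite σ] [Fintype β] [Fintype γ] [DecidableEq β] [DecidableEq γ] {wT : τ → β} {y : T → τ → K}
    (hy : ∀ t b, ∃ v, wT v = b ∧ y t v ≠ 0) (hcl : Cl wT y) {n : ℕ} (hB : Src (LS.blk wT y hy) n)
    {w : σ → γ} {x : Y → σ → K} (hx : ∀ t b, ∃ v, w v = b ∧ x t v ≠ 0)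
    (hC : Src (LS.blk w x hx) n) (hn : ¬ Dg (pL (LS.blk w x hx)) (n - 1)) (j : T → Y)
    (hj : ∀ b, Reg (LS.blk wT y hy) ((LS.blk w x hx b).pb j)) (kap : T → Z)
    (hk : ∀ t t', kap t = kap t' ↔ BPar wT (y t) (y t')) :
    ∃ r : ℕ, (∀ (ν : Type) [Fintype ν] (W : ν → LS K Y), n ≤ Fintype.card ν →
      (∀ k, Reg (LS.blk w x hx) (W k)) →
      mix (LS.blk wT y hy) (fun k => (W k).pb j) = r * mix (LS.blk w x hx) W) ∧
      ∃ e, ∃ F ∈ pc (LS.blk w x hx) e, F ≠ 0 ∧ ∀ η : Y, F η ≠ 0 →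
        (kap '' {t | BPar w (x (j t)) (x η)}).encard = r :=
  FibM.mix_card' hcl hB hC hn j hj kap hk

end Pool.Agent.Tav
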