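import Pool.Agent.P.MP_2ce3e7_ag.Tav.CEmb
import Pool.Agent.P.MP_2ce3e7_ag.Tav.CArea
import Pool.Agent.P.MP_2ce3e7_ag.Tav.XTaylor
import Pool.Agent.P.MP_e12fcd_ag.Weil.Shiffman
import Pool.Agent.K.MP_e12fcd_ag.C7

/-! The image of a chain in an embedded torus is algebraic. -/

set_option autoImplicit false

noncomputable section

namespace Pool.Agent.Tav

open MvPolynomial Set Module Filter Topology Pool.Agent.Weil Pool.Agent.TateX

variable {V : Type} [NormedAddCommGroup V] [NormedSpace ℂ V] [FiniteDimensional ℂ V]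
  {σ ι : Type} [Fintype σ] [Fintype ι] {β : σ → ι} {L : AddSubgroup V} {u : V → σ → ℂ}
  {P : Type} [NormedAddCommGroup P] [NormedSpace ℂ P] [FiniteDimensional ℂ P]

/-- `w` lies over `x`, zero blocks allowed -/
def Ovr (L : AddSubgroup V) (β : σ → ι) (u : V → σ → ℂ) (x : V ⧸ L) (w : σ → ℂ) : Prop :=
  ∃ (v : V) (t : ι → ℂ), x = QuotientAddGroup.mk v ∧ w = bsm β t (u v)

theorem Ovr.chart (hu : Emb L β u) {v : V} {w : σ → ℂ}
    (h : Ovr L β u (QuotientAddGroup.mk v) w) : ∃ t : ι → ℂ, w = bsm β t (u v) := by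
  obtain ⟨v', t, e, rfl⟩ := h
  obtain ⟨s, -, hs⟩ := hu.of_mk e.symm
  exact ⟨t * s, by rw [hs, bsm_bsm]⟩

theorem Emb.cont (hu : Emb L β u) : Continuous u :=
  continuous_iff_continuousAt.2 fun v => (hu.an v).continuousAt

theorem Emb.closed (hu : Emb L β u) :
    IsClosed {p : (σ → ℂ) × (V ⧸ L) | Ovr L β u p.2 p.1} := by
  rw [← ((IsOpenQuotientMap.id (X := σ → ℂ)).prodMap
    (QuotientAddGroup.isOpenQuotientMap_mk (N := L))).isQuotientMap.isClosed_preimage]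
  have e : Prod.map id QuotientAddGroup.mk ⁻¹' {p : (σ → ℂ) × (V ⧸ L) | Ovr L β u p.2 p.1} =
      ⋂ a, ⋂ b, ⋂ _ : β a = β b, {q : (σ → ℂ) × V | q.1 a * u q.2 b = q.1 b * u q.2 a} := by
    ext ⟨w, v⟩
    simp only [mem_iInter, mem_ofPred_eq, mem_preimage, Prod.map, id]
    rw [← (hu.ne v).minor]
    exact ⟨fun h => h.chart hu, fun ⟨t, ht⟩ => ⟨v, t, rfl, ht⟩⟩
  rw [e]
  have hc := hu.cont
  exact isClosed_iInter fun a => isClosed_iInter fun b => isClosed_iInter fun _ =>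
    isClosed_eq (by fun_prop) (by fun_prop)

theorem chart_id {W : Type} [NormedAddCommGroup W] : IsChart (id : W → W) univ :=
  ⟨isOpen_univ, continuousOn_id, injOn_id _, fun O _ hO => by rwa [image_id]⟩

namespace Cn
variable (β u) (c : Chain V L P)

/-- the total space of the cone -/
def cZ : Set ((σ → ℂ) × c.Z) := {p | Ovr L β u (c.F p.2) p.1}

/-- the parameter domains -/
def cU (ι : Type) (a : c.J) : Set (P × (ι → ℂ)) := c.U a ×ˢ {t | ∀ i, t i ≠ 0}

/-- the parametrisations -/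
def cφ (a : c.J) (p : P × (ι → ℂ)) : σ → ℂ := bsm β p.2 (u (c.φ a p.1))

open Classical in
/-- the charts -/
def cι (a : c.J) (p : P × (ι → ℂ)) : cZ β u c :=
  ⟨(if p.1 ∈ c.U a then cφ β u c a p else 0, c.ι a p.1), by
    split_ifs with h
    · exact ⟨_, p.2, c.lift a _ h, rfl⟩
    · obtain ⟨v, e⟩ := QuotientAddGroup.mk_surjective (c.F (c.ι a p.1))
      exact ⟨v, 0, e.symm, funext fun _ => (zero_mul _).symm⟩⟩

variable {β u c}

theorem cι_val {a : c.J} {p : P × (ι → ℂ)} (h : p.1 ∈ c.U a) :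
    (cι β u c a p).1 = (cφ β u c a p, c.ι a p.1) := by
  simp only [cι, if_pos h]

variable (hu : Emb L β u)
include hu

theorem cZ_chart {a : c.J} {y : P} (hy : y ∈ c.U a) {z : cZ β u c} (h : z.1.2 = c.ι a y) :
    ∃ t, z.1.1 = cφ β u c a (y, t) ∧ cι β u c a (y, t) = z := by
  have h1 : Ovr L β u (c.F z.1.2) z.1.1 := z.2
  rw [h, c.lift a y hy] at h1
  obtain ⟨t, ht⟩ := h1.chart hu
  exact ⟨t, ht, Subtype.ext ((cι_val hy).trans (Prod.ext ht.symm h.symm))⟩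

theorem an_cφ (a : c.J) : AnalyticOnNhd ℂ (cφ β u c a) (c.U a ×ˢ univ) := fun _ hp =>
  AnalyticAt.comp (f := fun q : P × (ι → ℂ) => (c.φ a q.1, q.2)) (hu.an_cone _)
    (((c.an a _ hp.1).comp analyticAt_fst).prod analyticAt_snd)

omit hu in
theorem isOpen_cU (a : c.J) : IsOpen (cU c ι a) := (c.chart a).isOpen.prod isOpen_tor

theorem chart_cι (a : c.J) : IsChart (cι β u c a) (cU c ι a) := by
  refine ⟨isOpen_cU a, ?_, fun p hp q hq h => ?_, fun W hW ho => ?_⟩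
  · rw [IsInducing.subtypeVal.continuousOn_iff]
    refine ContinuousOn.congr (f := fun p => (cφ β u c a p, c.ι a p.1)) ?_ fun p hp => cι_val hp.1
    exact ((an_cφ hu a).continuousOn.mono fun p hp => ⟨hp.1, trivial⟩).prodMk
      ((c.chart a).cont.comp continuousOn_fst fun p hp => hp.1)
  · have h1 := congrArg Subtype.val h
    rw [cι_val hp.1, cι_val hq.1, Prod.mk.injEq] at h1
    have h2 := (c.chart a).inj hp.1 hq.1 h1.2
    have h3 := h1.1
    simp only [cφ, h2] at h3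
    exact Prod.ext h2 ((hu.ne _).inj h3)
  · rw [isOpen_iff_forall_mem_open]
    rintro _ ⟨⟨y, l⟩, hp, rfl⟩
    have hy : y ∈ c.U a := (hW hp).1
    choose b hβ hb using hu.ne (c.φ a y)
    have h1 : ∀ i, ContinuousOn (fun p : (σ → ℂ) × P => u (c.φ a p.2) (b i))
        (univ ×ˢ c.U a) := fun i =>
      ((continuous_apply (b i)).comp hu.cont).comp_continuousOn
        ((c.an a).continuousOn.comp continuousOn_snd fun _ hp => hp.2)
    have h2 : IsOpen ((univ ×ˢ c.U a) ∩ (fun (p : (σ → ℂ) × P) i =>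
        u (c.φ a p.2) (b i)) ⁻¹' {l | ∀ i, l i ≠ 0}) :=
      (continuousOn_pi.2 h1).isOpen_inter_preimage (isOpen_univ.prod (c.chart a).isOpen) isOpen_tor
    have h3 := ContinuousOn.isOpen_inter_preimage (f := fun p => (p.2, fun i =>
      p.1 (b i) / u (c.φ a p.2) (b i))) (continuousOn_snd.prodMk
      (continuousOn_pi.2 fun i => ((continuous_apply (b i)).comp continuous_fst).continuousOn.div
        ((h1 i).mono inter_subset_left) fun p hp => (by exact hp.2 i))) h2 ho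
    have h4 := ((PC.chart_prod chart_id (c.chart a)).opn _
      (inter_subset_left.trans inter_subset_left) h3).preimage
      (continuous_subtype_val (p := fun p => p ∈ cZ β u c))
    have h5 : ∀ y' l', (∀ i, u (c.φ a y') (b i) ≠ 0) →
        (fun i => cφ β u c a (y', l') (b i) / u (c.φ a y') (b i)) = l' :=
      fun y' l' h => funext fun i => by
        rw [cφ, bsm, hβ]
        exact mul_div_cancel_right₀ _ (h i)
    refine ⟨_, ?_, h4, (cφ β u c a (y, l), y), ⟨⟨⟨trivial, hy⟩, hb⟩, ?_⟩, (cι_val hy).symm⟩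
    · rintro z ⟨⟨w, y'⟩, ⟨⟨⟨-, h6⟩, h7⟩, h8⟩, h9⟩
      obtain ⟨l', e1, e2⟩ := cZ_chart hu h6 (z := z) (congrArg Prod.snd h9).symm
      have e3 : w = cφ β u c a (y', l') := (congrArg Prod.fst h9).trans e1
      subst e3
      exact ⟨(y', l'), (congrArg (fun t => (y', t) ∈ W) (h5 y' l' h7)).mp h8, e2⟩
    · exact (congrArg (fun t => (y, t) ∈ W) (h5 y l hb)).mpr hp

theorem imm_cφ (hc : ∀ j, ∀ y ∈ c.U j, Function.Injective (fderiv ℂ (c.φ j) y)) (a : c.J) :
    ∀ p ∈ cU c ι a, Function.Injective (fderiv ℂ (cφ β u c a) p) := by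
  rintro ⟨y, l⟩ ⟨hy, hl⟩
  have h1 := (c.an a y hy).differentiableAt.hasFDerivAt
  have h2 : HasFDerivAt (fun q : P × (ι → ℂ) => (c.φ a q.1, q.2))
      (((fderiv ℂ (c.φ a) y).comp (ContinuousLinearMap.fst ℂ _ _)).prod
        (ContinuousLinearMap.snd ℂ _ _)) (y, l) :=
    (h1.comp (y, l) hasFDerivAt_fst).prodMk hasFDerivAt_snd
  have h3 := (hu.an_cone (c.φ a y, l)).differentiableAt.hasFDerivAt
  have h4 : HasFDerivAt (cφ β u c a) _ (y, l) := HasFDerivAt.comp (y, l)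
    (f := fun q : P × (ι → ℂ) => (c.φ a q.1, q.2)) h3 h2
  rw [h4.fderiv]
  intro p q h
  have h5 := hu.imm_cone (p := (c.φ a y, l)) hl h
  have h6 := congrArg Prod.snd h5
  exact Prod.ext (hc a y hy (congrArg Prod.fst h5)) h6

theorem small_cι : Thin (finrank ℂ (P × (ι → ℂ)))
    ((fun z : cZ β u c => z.1.1) '' {z | ∀ a, z ∉ cι β u c a '' cU c ι a}) := by
  classical
  have r1 : finrank ℂ (P × (ι → ℂ)) = finrank ℂ P + Fintype.card ι := by simp
  have t1 := hu.thin_cone c.thin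
  have t2 := thin_iUnion fun s : c.J × ι => thin_of_param (m := finrank ℂ P + Fintype.card ι)
    (P := P × ({i // i ≠ s.2} → ℂ)) (U := c.U s.1 ×ˢ univ)
    (φ := fun p => cφ β u c s.1 (p.1, fun i => if h : i ≠ s.2 then p.2 ⟨i, h⟩ else 0))
    (by simpa using Fintype.card_pos_iff.2 ⟨s.2⟩) fun p hp =>
      AnalyticAt.comp (f := fun p : P × ({i // i ≠ s.2} → ℂ) =>
        (p.1, fun i => if h : i ≠ s.2 then p.2 ⟨i, h⟩ else 0)) (an_cφ hu s.1 _ ⟨hp.1, trivial⟩)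
        (analyticAt_fst.prod (analyticAt_pi_iff.2 fun i => by
          split_ifs with h
          · exact analyticAt_pi_iff.1 analyticAt_snd _
          · exact analyticAt_const))
  rw [r1]
  refine (t1.union t2).mono ?_ le_rfl
  rintro _ ⟨z, hz, rfl⟩
  by_cases h : ∃ a, z.1.2 ∈ c.ι a '' c.U a
  · obtain ⟨a, y, hy, e⟩ := h
    obtain ⟨l, e1, e2⟩ := cZ_chart hu hy e.symm
    obtain ⟨i, hi⟩ : ∃ i, l i = 0 := by
      by_contra h1
      exact hz a ⟨(y, l), ⟨hy, fun i hi => h1 ⟨i, hi⟩⟩, e2⟩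
    refine Or.inr (mem_iUnion.2 ⟨(a, i), (y, fun k => l k.1), ⟨hy, trivial⟩, ?_⟩)
    have e3 : (fun k => if h : k ≠ i then l k else 0) = l := funext fun k => by
      split_ifs with h
      · rfl
      · rw [not_not.1 h, hi]
    exact (congrArg (fun t => cφ β u c a (y, t)) e3).trans e1.symm
  · obtain ⟨v, t, e1, e2⟩ := z.2
    exact Or.inl ⟨v, ⟨z.1.2, fun a ha => h ⟨a, ha⟩, e1⟩, t, e2⟩

/-- the cone -/
def cone (hc : ∀ j, ∀ y ∈ c.U j, Function.Injective (fderiv ℂ (c.φ j) y)) :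
    PChain (σ → ℂ) (P × (ι → ℂ)) where
  Z := cZ β u c
  t2 := inferInstanceAs (T2Space {p : (σ → ℂ) × c.Z // p ∈ cZ β u c})
  F z := z.1.1
  proper := isProperMap_fst_of_compactSpace.comp
    (hu.closed.preimage (continuous_id.prodMap c.contF)).isProperMap_subtypeVal
  J := c.J
  U := cU c ι
  ι := cι β u c
  φ := cφ β u c
  chart := chart_cι hu
  an a := (an_cφ hu a).mono fun _ hp => ⟨hp.1, trivial⟩
  lift _ _ hp := congrArg Prod.fst (cι_val hp.1)
  imm := imm_cφ hu hc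
  small := small_cι hu

end Cn

/-- Chow: the ideal of an immersed chain -/
theorem Emb.exists_ideal [DecidableEq ι] (hu : Emb L β u) (c : Chain V L P)
    (hc : ∀ j, ∀ y ∈ c.U j, Function.Injective (fderiv ℂ (c.φ j) y)) :
    ∃ J : Ideal (MvPolynomial σ ℂ), GrJ β J ∧ Thin (finrank ℂ P + Fintype.card ι + 1) (ZS J) ∧
      (∀ w ∈ ZS J, ∃ z, Ovr L β u (c.F z) w) ∧
      ∀ j, ∀ y ∈ c.U j, ∀ v : V, c.F (c.ι j y) = QuotientAddGroup.mk v → u v ∈ ZS J := by
  let p := Cn.cone hu hc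
  have hm : ∀ w, w ∈ p.F '' p.good ↔
      ∃ j, ∃ y ∈ c.U j, ∃ t : ι → ℂ, (∀ i, t i ≠ 0) ∧ w = bsm β t (u (c.φ j y)) := fun w => by
    constructor
    · rintro ⟨z, hz, rfl⟩
      obtain ⟨a, q, hq, rfl⟩ := mem_iUnion.1 hz
      exact ⟨a, q.1, hq.1, q.2, hq.2, p.lift a q hq⟩
    · rintro ⟨a, y, hy, t, ht, rfl⟩
      exact ⟨p.ι a (y, t), mem_iUnion.2 ⟨a, (y, t), ⟨hy, ht⟩, rfl⟩, p.lift a (y, t) ⟨hy, ht⟩⟩
  have hs : ∀ t : ι → ℂ, (∀ i, t i ≠ 0) → ∀ w ∈ closure (p.F '' p.good),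
      bsm β t w ∈ closure (p.F '' p.good) := fun t ht w hw => by
    refine map_mem_closure (f := bsm β t)
      (continuous_pi fun a => continuous_const.mul (continuous_apply a)) hw fun x hx => ?_
    obtain ⟨a, y, hy, s, hs, rfl⟩ := (hm x).1 hx
    exact (hm _).2 ⟨a, y, hy, t * s, fun i => mul_ne_zero (ht i) (hs i), bsm_bsm _ _ _⟩
  have hZ : ZS (vanishingIdeal ℂ (closure (p.F '' p.good))) = closure (p.F '' p.good) :=
    zs_vanishing p.analytic_closure fun t ht w hw => hs (fun _ => t) (fun _ => ht) w hw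
  have hr : closure (p.F '' p.good) ⊆ range p.F :=
    closure_minimal (image_subset_range _ _) p.proper.isClosedMap.isClosed_range
  have hrk : finrank ℂ (P × (ι → ℂ)) = finrank ℂ P + Fintype.card ι := by simp
  refine ⟨_, grJ_vanishing hs, ?_, fun w hw => ?_, fun j y hy v hv => ?_⟩
  · have hb : Thin (finrank ℂ P + Fintype.card ι) (Push.bad p) := hrk ▸ Push.thin_bad p
    have h1 : Thin (finrank ℂ P + Fintype.card ι + 1) (⋃ j, p.φ j '' p.U j) :=
      thin_iUnion fun j => thin_of_param (by rw [hrk]; omega) (p.an j)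
    refine (h1.union (hb.mono le_rfl (Nat.le_succ _))).mono ?_ le_rfl
    rw [hZ]
    intro w hw
    obtain ⟨z, rfl⟩ := hr hw
    by_cases hz : z ∈ p.good
    · obtain ⟨j, q, hq, rfl⟩ := mem_iUnion.1 hz
      exact Or.inl (mem_iUnion.2 ⟨j, q, hq, (p.lift j q hq).symm⟩)
    · exact Or.inr ⟨z, hz, rfl⟩
  · obtain ⟨z, rfl⟩ := hr (hZ ▸ hw)
    exact ⟨z.1.2, z.2⟩
  · rw [hZ]
    obtain ⟨t, ht, e⟩ := hu.of_mk (hv.symm.trans (c.lift j y hy))
    exact subset_closure ((hm _).2 ⟨j, y, hy, t, ht, e⟩)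

theorem thin_of_lt {p q : Ideal (MvPolynomial σ ℂ)} (hp : p.IsPrime) {n : ℕ}
    (ht : Thin (n + 1) (ZS p)) (hl : p < q) : Thin n (ZS q) := by
  obtain ⟨U, hU⟩ := exists_maxInd hp.ne_top
  obtain ⟨f, hf, hs⟩ := hU.smo hp
  have hc : Fintype.card σ - U.card + U.card = Fintype.card σ := by
    have := U.card_le_univ
    omega
  refine (hU.thin_of_lt hp hl).mono subset_rfl ?_
  by_contra hlt
  obtain ⟨x, hx, hx0⟩ := strat_exists_pt hp hf
  exact (hs x hx0).not_thin hc hx (ht.mono subset_rfl (by omega))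

/-- a form that vanishes on the points of a relevant prime lies in the prime -/
theorem mem_of_points [DecidableEq ι] {p : Ideal (MvPolynomial σ ℂ)} (hp : p.IsPrime)
    (hx : ∀ x ∈ ZS p, NzB β x → ∃ v t, x = bsm β t (u v)) (hg : GrJ β p)
    {x₀ : σ → ℂ} (h0 : x₀ ∈ ZS p) (h1 : NzB β x₀) {d : ι → ℕ} {f : MvPolynomial σ ℂ}
    (hf : f ∈ Sd ℂ β d) (h : ∀ v, u v ∈ ZS p → eval (u v) f = 0) : f ∈ p := by
  choose b hβ hb using h1
  have h2 : (∏ i, X (b i) : MvPolynomial σ ℂ) ∉ p := fun k => by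
    have := h0 _ k
    rw [map_prod, Finset.prod_eq_zero_iff] at this
    obtain ⟨i, -, hi⟩ := this
    exact hb i (by simpa using hi)
  by_contra hn
  obtain ⟨x, hx1, hx2⟩ := strat_exists_pt hp fun k => (hp.mem_or_mem k).elim hn h2
  rw [map_mul, mul_ne_zero_iff, map_prod, Finset.prod_ne_zero_iff] at hx2
  have h3 : NzB β x := fun i => ⟨b i, hβ i, by simpa using hx2.2 i (Finset.mem_univ i)⟩
  obtain ⟨v, t, rfl⟩ := hx x hx1 h3
  have h4 : u v ∈ ZS p := by
    have := hg.bsm_mem hx1 fun i => (t i)⁻¹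
    have e : ((fun i => (t i)⁻¹) * t : ι → ℂ) = 1 := funext fun i => inv_mul_cancel₀ (h3.ne i)
    rwa [bsm_bsm, e, bsm_one] at this
  exact hx2.1 (by rw [eval_bsm hf, h v h4, mul_zero])

/-- the components of the image of a chain -/
structure Comp [DecidableEq ι] (β : σ → ι) (u : V → σ → ℂ) (m : ℕ)
    (p : Ideal (MvPolynomial σ ℂ)) : Prop where
  prime : p.IsPrime
  gr : GrJ β p
  thin : Thin (m + Fintype.card ι + 1) (ZS p)
  ovr : ∀ x ∈ ZS p, ∃ v t, x = bsm β t (u v)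
  ne : ∃ v, u v ∈ ZS p
  thinV : Thin (m + 1) {v | u v ∈ ZS p}
  mem : ∀ d, ∀ f ∈ Sd ℂ β d, (∀ v, u v ∈ ZS p → eval (u v) f = 0) → f ∈ p

open Classical in
theorem Emb.chow [DecidableEq ι] (hu : Emb L β u) {c : Chain V L P} {k : ℕ} (hc : Nice c k) :
    ∃ (PP : Finset (Ideal (MvPolynomial σ ℂ))) (B : Set V),
      (∀ p ∈ PP, Comp β u (finrank ℂ P) p) ∧ (∀ v ∈ B, ∀ l ∈ L, v + l ∈ B) ∧
      Thin (finrank ℂ P) B ∧ ∀ v ∉ B, {z | c.F z = QuotientAddGroup.mk v}.Finite ∧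
        {z | c.F z = QuotientAddGroup.mk v}.ncard = k * (PP.filter fun p => u v ∈ ZS p).card := by
  obtain ⟨J, hJ, ht, h1, h2⟩ := hu.exists_ideal c hc.imm
  obtain ⟨A, hA, h3⟩ := hc.fib
  have hf : J.minimalPrimes.Finite := Ideal.finite_minimalPrimes_of_isNoetherianRing _ J
  let PP := hf.toFinset.filter fun p => ∃ v, u v ∈ ZS p
  have hP : ∀ p, p ∈ PP ↔ p ∈ J.minimalPrimes ∧ ∃ v, u v ∈ ZS p := fun p => by
    rw [Finset.mem_filter, hf.mem_toFinset]
  have hs : ∀ p ∈ J.minimalPrimes, ZS p ⊆ ZS J := fun p hp x hx f hf => hx f (hp.1.2 hf)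
  have hper : ∀ p ∈ J.minimalPrimes, ∀ v w : V,
      (QuotientAddGroup.mk v : V ⧸ L) = QuotientAddGroup.mk w → u w ∈ ZS p → u v ∈ ZS p :=
    fun p hp v w e h => by
      obtain ⟨t, -, ht⟩ := hu.of_mk e
      exact ht ▸ (hJ.minimal hp).bsm_mem h t
  refine ⟨PP, {v | ¬ ({z | c.F z = QuotientAddGroup.mk v}.Finite ∧
    {z | c.F z = QuotientAddGroup.mk v}.ncard = k * (PP.filter fun p => u v ∈ ZS p).card)},
    fun p hp => ?_, fun v hv l hl => ?_, ?_, fun v hv => not_not.1 hv⟩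
  · obtain ⟨hp, v, hv⟩ := (hP p).1 hp
    have h4 : ∀ x ∈ ZS p, ∃ v t, x = bsm β t (u v) := fun x hx => by
      obtain ⟨z, v, t, -, e⟩ := h1 x (hs p hp hx)
      exact ⟨v, t, e⟩
    have h5 := ht.mono (hs p hp) le_rfl
    refine ⟨hp.1.1, hJ.minimal hp, h5, h4, ⟨v, hv⟩,
      hu.thin_pull (h5.mono subset_rfl (by omega)) fun t _ x hx => (hJ.minimal hp).bsm_mem hx t,
      fun d f hf h => mem_of_points hp.1.1 (fun x hx _ => h4 x hx) (hJ.minimal hp) hv (hu.ne v)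
        hf h⟩
  · have e : (QuotientAddGroup.mk (v + l) : V ⧸ L) = QuotientAddGroup.mk v :=
      QuotientAddGroup.eq_iff_sub_mem.2 (by simpa using hl)
    have e' : (PP.filter fun p => u (v + l) ∈ ZS p) = PP.filter fun p => u v ∈ ZS p :=
      Finset.filter_congr fun p hp =>
        ⟨hper p ((hP p).1 hp).1 _ _ e.symm, hper p ((hP p).1 hp).1 _ _ e⟩
    rwa [mem_ofPred_eq, e, e']
  · have : Finite J.minimalPrimes := hf.to_subtype
    have h6 := thin_iUnion fun s : {s : J.minimalPrimes × J.minimalPrimes // s.1 ≠ s.2} =>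
      hu.thin_pull (d := finrank ℂ P) (S := ZS (s.1.1.1 ⊔ s.1.2.1))
        (thin_of_lt s.1.1.2.1.1 (ht.mono (hs _ s.1.1.2) le_rfl) (lt_of_le_of_ne le_sup_left
          fun e => s.2 (Subtype.ext (le_antisymm
            (s.1.1.2.2 s.1.2.2.1 (sup_eq_left.1 e.symm)) (sup_eq_left.1 e.symm)))))
        fun t _ x hx => ((hJ.minimal s.1.1.2).sup (hJ.minimal s.1.2.2)).bsm_mem hx t
    refine ((hA.union c.thin).union h6).mono (fun v hv => ?_) le_rfl
    by_contra hn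
    simp only [mem_union, not_or] at hn
    refine hv ?_
    rcases Set.eq_empty_or_nonempty {z | c.F z = QuotientAddGroup.mk v} with h7 | ⟨z, hz⟩
    · have h8 : (PP.filter fun p => u v ∈ ZS p) = ∅ := by
        refine Finset.filter_eq_empty_iff.2 fun p hp k => ?_
        obtain ⟨z, w, t, e1, e2⟩ := h1 _ (hs p ((hP p).1 hp).1 k)
        exact h7.subset (show z ∈ {z | c.F z = QuotientAddGroup.mk v} from
          e1.trans (hu.mk_eq e2).symm)
      rw [h7, h8]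
      simp
    · have h8 := (h3 v hn.1.1).resolve_left (Set.Nonempty.ne_empty ⟨z, hz⟩)
      obtain ⟨j, y, hy, rfl⟩ : ∃ j, z ∈ c.ι j '' c.U j := by
        by_contra k
        exact hn.1.2 ⟨z, fun j hj => k ⟨j, hj⟩, hz⟩
      obtain ⟨p, hp, hv⟩ := strat_exists_min (h2 j y hy v hz)
      have h9 : (PP.filter fun p => u v ∈ ZS p) = {p} := by
        refine Finset.eq_singleton_iff_unique_mem.2
          ⟨Finset.mem_filter.2 ⟨(hP p).2 ⟨hp, v, hv⟩, hv⟩, fun q hq => ?_⟩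
        obtain ⟨hq1, hq2⟩ := Finset.mem_filter.1 hq
        by_contra hne
        refine hn.2 (mem_iUnion.2 ⟨⟨(⟨q, ((hP q).1 hq1).1⟩, ⟨p, hp⟩),
          fun e => hne (congrArg Subtype.val e)⟩, ?_⟩)
        change u v ∈ ZS (q ⊔ p)
        rw [ZS_sup]
        exact ⟨hq2, hv⟩
      rw [h9, h8, Finset.card_singleton, mul_one]
      exact ⟨Set.finite_of_ncard_ne_zero (h8 ▸ hc.pos.ne'), rfl⟩

theorem Emb.covers [DecidableEq ι] (hu : Emb L β u) {m : ℕ} {c : Chain V L (Fin m → ℂ)} {k : ℕ}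
    (hc : Nice c k) : ∃ PP : Finset (Ideal (MvPolynomial σ ℂ)), (∀ p ∈ PP, Comp β u m p) ∧
      Covers c k fun p : PP => {v | u v ∈ ZS p.1} := by
  classical
  obtain ⟨PP, B, h1, -, h2, h3⟩ := hu.chow hc
  have e : finrank ℂ (Fin m → ℂ) = m := by simp
  rw [e] at h1 h2
  refine ⟨PP, h1, fun p v hv l hl => ?_, fun p => (h1 p.1 p.2).thinV, B, h2,
    fun v hv => ⟨(h3 v hv).1, ?_⟩⟩
  · obtain ⟨t, ht⟩ := (hu.sep (v + l) v).2 (by simpa using hl)
    exact (show u (v + l) ∈ ZS p.1 from ht ▸ (h1 p.1 p.2).gr.bsm_mem hv t)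
  · rw [(h3 v hv).2, ← Set.ncard_image_of_injective _ Subtype.val_injective,
      ← Set.ncard_coe_finset]
    congr 2
    ext p
    simp only [Finset.coe_filter, mem_ofPred_eq, mem_image, Subtype.exists, exists_and_right,
      exists_eq_right]
    exact ⟨fun h => ⟨h.1, h.2⟩, fun ⟨h, h'⟩ => ⟨h, h'⟩⟩

end Pool.Agent.Tav
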