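import Pool.Agent.P.MP_2ce3e7_ag.Tav.CTor
import Pool.Agent.P.MP_2ce3e7_ag.Tav.CCone
import Pool.Agent.P.MP_2ce3e7_ag.Tav.CCard
import Pool.Agent.P.MP_2ce3e7_ag.Tav.GProd
import Pool.Agent.P.MP_2ce3e7_ag.Tav.Par

/-! The components of a chain are cycles, and degrees count points. -/

set_option autoImplicit false

noncomputable section

namespace Pool.Agent.Tav

open MvPolynomial Module Set Function MeasureTheory
open Pool.Agent.Weil
open Pool.Agent.TateX (ZS)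

namespace Cy

variable {Ω : Type} [Field Ω] {s : Sh} {F : Fib Ω s} {Y γ : Type} [Fintype γ] {B : γ → LS Ω Y}

theorem in_sub {u v : Y → F.G} (hu : F.In B u) (hv : F.In B v) : F.In B fun t => u t - v t := by
  intro b
  have h := (F.sub b).pb fun t => (u t, v t)
  rw [LS.pb_pb] at h
  refine Reg.trans ?_ h
  rintro (i | i)
  · change Reg B (((F.H i).pb Prod.fst).pb _)
    rw [LS.pb_pb]
    exact hu i
  · change Reg B (((F.H i).pb Prod.snd).pb _)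
    rw [LS.pb_pb]
    exact hv i

theorem in_smul {u : Y → F.G} (hu : F.In B u) (a : s.Λ) : F.In B fun t => a • u t := by
  intro b
  have h := (F.smul a b).pb u
  rw [LS.pb_pb] at h
  exact Reg.trans hu h

theorem in_row {Y' γ' : Type} [Fintype γ'] {B' : γ' → LS Ω Y'} {u : Y → F.G} {v : Y' → F.G}
    (hu : F.In B u) (hv : F.In B' v) (a b : s.Λ) :
    F.In (prodB B B') fun t => a • u t.1 + b • v t.2 := by
  have h1 : F.In (prodB B B') fun t => u t.1 := fun c => by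
    have := Reg.fst B' (hu c)
    rwa [LS.pb_pb] at this
  have h2 : F.In (prodB B B') fun t => v t.2 := fun c => by
    have := Reg.snd B (hv c)
    rwa [LS.pb_pb] at this
  simpa only [neg_smul, sub_neg_eq_add] using in_sub (in_smul h1 a) (in_smul h2 (-b))

theorem dd_id (F : Fib Ω s) : F.DD F.H id = mix F.H (F.H ∘ s.sl) :=
  congrArg (mix F.H) (funext fun _ => LS.pb_id _)

theorem not_dg (F : Fib Ω s) : ¬ Dg (pL F.H) (s.n - 1) := fun h => F.top (by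
  rw [mix_self, nc_eq_zero]
  refine h _ ?_
  simp [map_sum, Finsupp.degree_single])

theorem prodB_blk {T₁ T₂ σ₁ σ₂ β₁ β₂ : Type} [Finite σ₁] [Finite σ₂] {w₁ : σ₁ → β₁}
    {w₂ : σ₂ → β₂} {x₁ : T₁ → σ₁ → Ω} {x₂ : T₂ → σ₂ → Ω}
    (h₁ : ∀ t b, ∃ v, w₁ v = b ∧ x₁ t v ≠ 0) (h₂ : ∀ t b, ∃ v, w₂ v = b ∧ x₂ t v ≠ 0) :
    ∃ h, prodB (LS.blk w₁ x₁ h₁) (LS.blk w₂ x₂ h₂) =
      LS.blk (Sum.map w₁ w₂) (fun t : T₁ × T₂ => Sum.elim (x₁ t.1) (x₂ t.2)) h := by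
  refine ⟨?_, funext ?_⟩
  · rintro t (b | b)
    · obtain ⟨v, rfl, h⟩ := h₁ t.1 b
      exact ⟨.inl v, rfl, h⟩
    · obtain ⟨v, rfl, h⟩ := h₂ t.2 b
      exact ⟨.inr v, rfl, h⟩
  · rintro (b | b)
    · refine (LS.pb_blk w₁ x₁ h₁ Prod.fst b).trans (LS.ext' (congrArg (Submodule.span Ω) ?_))
      ext f
      constructor
      · rintro ⟨v, rfl, rfl⟩
        exact ⟨.inl v, rfl, rfl⟩
      · rintro ⟨v | v, hv, rfl⟩
        · exact ⟨v, Sum.inl.inj hv, rfl⟩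
        · cases hv
    · refine (LS.pb_blk w₂ x₂ h₂ Prod.snd b).trans (LS.ext' (congrArg (Submodule.span Ω) ?_))
      ext f
      constructor
      · rintro ⟨v, rfl, rfl⟩
        exact ⟨.inr v, rfl, rfl⟩
      · rintro ⟨v | v, hv, rfl⟩
        · cases hv
        · exact ⟨v, Sum.inr.inj hv, rfl⟩

theorem bpar_sum {σ₁ σ₂ β₁ β₂ : Type} {w₁ : σ₁ → β₁} {w₂ : σ₂ → β₂} {x₁ y₁ : σ₁ → Ω}
    {x₂ y₂ : σ₂ → Ω} : BPar (Sum.map w₁ w₂) (Sum.elim x₁ x₂) (Sum.elim y₁ y₂) ↔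
      BPar w₁ x₁ y₁ ∧ BPar w₂ x₂ y₂ := by
  constructor
  · rintro ⟨c, h0, h⟩
    exact ⟨⟨c ∘ .inl, fun _ => h0 _, fun l => h (.inl l)⟩, c ∘ .inr, fun _ => h0 _,
      fun l => h (.inr l)⟩
  · rintro ⟨⟨c, h0, h⟩, c', h0', h'⟩
    refine ⟨Sum.elim c c', ?_, ?_⟩
    · rintro (b | b)
      exacts [h0 b, h0' b]
    · rintro (l | l)
      exacts [h l, h' l]

end Cy

variable {s : Sh} {C : Fib ℂ s} (T : Tor C) {m m' : ℕ} {p p' : Ideal (MvPolynomial s.σ ℂ)}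

/-- the points of a component -/
abbrev Tor.pts (p : Ideal (MvPolynomial s.σ ℂ)) : Set T.V := {v | T.φ v ∈ ZS p}

theorem Tor.mem_iff (hp : Comp s.w T.φ m p) {d : s.β → ℕ} {f : MvPolynomial s.σ ℂ}
    (hf : f ∈ Sd ℂ s.w d) : f ∈ p ↔ ∀ v : T.pts p, eval (C.x (T.u v.1)) f = 0 :=
  ⟨fun h v => (bpar_eval (T.hφ v.1) hf).1 (v.2 f h),
    fun h => hp.mem d f hf fun v hv => (bpar_eval (T.hφ v) hf).2 (h ⟨v, hv⟩)⟩

theorem Tor.src (hp : Comp s.w T.φ m p) :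
    Src (LS.blk s.w (fun v : T.pts p => C.x (T.u v.1)) fun _ => C.hx _) m := by
  refine ⟨hp.ne.elim fun v hv => ⟨⟨v, hv⟩⟩, fun a b f hf g hg h => ?_, ?_⟩
  · obtain ⟨F, hF, rfl⟩ := mem_pc_blk.1 hf
    obtain ⟨G, hG, rfl⟩ := mem_pc_blk.1 hg
    have h1 : F * G ∈ p := (T.mem_iff hp (d := a + b) (IsWeightedHomogeneous.mul hF hG)).2
      fun v => by rw [map_mul]; exact congrFun h v
    exact (hp.prime.mem_or_mem h1).imp (fun k => funext ((T.mem_iff hp hF).1 k))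
      fun k => funext ((T.mem_iff hp hG).1 k)
  · have h1 := pI_eq_pf (β := s.w) (J := p) (fun a (v : T.pts p) => C.x (T.u v.1) a)
      (Lg.of_forall fun d f hf => by rw [T.mem_iff hp hf, aeval_fun, funext_iff]; rfl)
    have h2 := dg_of_thin hp.gr hp.thin
    rw [h1] at h2
    exact h2.mono (by push_cast; omega)

theorem Tor.reg (p : Ideal (MvPolynomial s.σ ℂ)) :
    C.In (LS.blk s.w (fun v : T.pts p => C.x (T.u v.1)) fun _ => C.hx _) fun v => T.u v.1 :=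
  fun b => by
    rw [Fib.H, LS.pb_blk]
    exact Reg.self _ b

/-- a component as a cycle -/
def Tor.cyc (hp : Comp s.w T.φ m p) : C.Cyc m where
  T := T.pts p
  β := s.β
  B := LS.blk s.w (fun v : T.pts p => C.x (T.u v.1)) fun _ => C.hx _
  z v := T.u v.1
  src := T.src hp
  reg := T.reg p

theorem Tor.cl (hp : Comp s.w T.φ m p) : Cl s.w fun v : T.pts p => C.x (T.u v.1) := by
  classical
  intro y h0 hy
  have h1 : y ∈ ZS p := fun f hf => by
    rw [← sum_weightedHomogeneousComponent (wN s.w) f,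
      map_finsum _ (weightedHomogeneousComponent_finsupp f)]
    refine finsum_eq_zero_of_forall_eq_zero fun d => ?_
    have h2 := weightedHomogeneousComponent_mem (wN s.w) f d
    exact hy d _ h2 ((T.mem_iff hp h2).1 (hp.gr d f hf))
  obtain ⟨v, t, rfl⟩ := hp.ovr y h1
  have h3 : BPar s.w (bsm s.w t (T.φ v)) (T.φ v) := ⟨t, NzB.ne h0, fun _ => rfl⟩
  obtain ⟨c, -, hc⟩ := bpar_symm h3
  exact ⟨⟨v, show T.φ v ∈ ZS p from funext hc ▸ hp.gr.bsm_mem h1 c⟩, bpar_trans h3 (T.hφ v)⟩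

variable [MeasurableSpace T.V] [BorelSpace T.V] (ν : Measure T.V) [ν.IsAddHaarMeasure]

/-- the degree of a regular map from a closed source counts the points of almost all fibres -/
theorem Tor.card {Y Z τ γ : Type} [Finite τ] [Fintype γ] [DecidableEq γ] {w : τ → γ}
    {y : Y → τ → ℂ} (hy : ∀ t b, ∃ v, w v = b ∧ y t v ≠ 0) (hcl : Cl w y)
    (hs : Src (LS.blk w y hy) s.n) (j : Y → T.V) (hj : C.In (LS.blk w y hy) fun t => T.u (j t))
    (kap : Y → Z) (hk : ∀ t t', kap t = kap t' ↔ BPar w (y t) (y t')) :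
    ∃ r : ℕ, C.DD (LS.blk w y hy) (fun t => T.u (j t)) = r * C.DD C.H id ∧
      ∀ᵐ x ∂ν, (kap '' {t | j t - x ∈ T.Λ}).encard = r := by
  obtain ⟨r, h1, e, F, hF, h0, h2⟩ := mix_card hy hcl hs C.hx C.src (Cy.not_dg C) _ hj kap hk
  refine ⟨r, ?_, ?_⟩
  · rw [Cy.dd_id]
    exact h1 _ _ le_rfl fun k => Reg.self _ _
  · obtain ⟨G, hG, rfl⟩ := mem_pc_blk.1 hF
    filter_upwards [T.ae_form ν hG (Function.ne_iff.1 h0)] with x hx
    rw [← h2 (T.u x) hx]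
    simp only [T.kerx]

theorem Tor.count (hp : Comp s.w T.φ m p) (hp' : Comp s.w T.φ m' p') (hm : m + m' = s.n)
    (a b : s.Λ) : ∃ r : ℕ, Fib.D (T.cyc hp) (T.cyc hp') a b = r * C.DD C.H id ∧
      ∀ᵐ x ∂ν, (hits T.Λ.toAddSubgroup T.Λ.toAddSubgroup T.Λ.toAddSubgroup
        ((T.act a).coprod (T.act b)) (T.pts p) (T.pts p') x).encard = r := by
  obtain ⟨h, e⟩ := Cy.prodB_blk (w₁ := s.w) (w₂ := s.w)
    (x₁ := fun v : T.pts p => C.x (T.u v.1)) (x₂ := fun v : T.pts p' => C.x (T.u v.1))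
    (fun _ => C.hx _) fun _ => C.hx _
  have e1 : (fun t : T.pts p × T.pts p' => a • T.u t.1.1 + b • T.u t.2.1) =
      fun t => T.u ((T.act a).coprod (T.act b) (t.1.1, t.2.1)) := funext fun t => by
    rw [ContinuousLinearMap.coprod_apply, map_add, T.hu, T.hu]
  have h1 := (T.src hp).prod (T.src hp')
  have h2 := Cy.in_row (T.reg p) (T.reg p') a b
  have h0 : Fib.D (T.cyc hp) (T.cyc hp') a b = C.DD
      (prodB (LS.blk s.w (fun v : T.pts p => C.x (T.u v.1)) fun _ => C.hx _)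
        (LS.blk s.w (fun v : T.pts p' => C.x (T.u v.1)) fun _ => C.hx _))
      fun t => a • T.u t.1.1 + b • T.u t.2.1 := rfl
  rw [e, hm] at h1
  rw [e, e1] at h2 h0
  have h5 := Cl.prod (T.cl hp) (T.cl hp')
  have h6 : ∀ t t' : T.pts p × T.pts p', ((QuotientAddGroup.mk t.1.1, QuotientAddGroup.mk t.2.1) :
      (T.V ⧸ T.Λ.toAddSubgroup) × (T.V ⧸ T.Λ.toAddSubgroup)) =
        (QuotientAddGroup.mk t'.1.1, QuotientAddGroup.mk t'.2.1) ↔ BPar (Sum.map s.w s.w)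
        (Sum.elim (C.x (T.u t.1.1)) (C.x (T.u t.2.1)))
        (Sum.elim (C.x (T.u t'.1.1)) (C.x (T.u t'.2.1))) := fun t t' => by
    rw [Cy.bpar_sum, T.kerx, T.kerx, Prod.mk.injEq, QuotientAddGroup.eq_iff_sub_mem,
      QuotientAddGroup.eq_iff_sub_mem]
    rfl
  have h7 := T.card ν (w := Sum.map s.w s.w) (y := fun t : T.pts p × T.pts p' =>
    Sum.elim (C.x (T.u t.1.1)) (C.x (T.u t.2.1))) h h5 h1
    (fun t => (T.act a).coprod (T.act b) (t.1.1, t.2.1)) h2 _ h6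
  obtain ⟨r, h3, h4⟩ := h7
  exact ⟨r, h0.trans h3, h4⟩

end Pool.Agent.Tav
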