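import Pool.Agent.P.MP_2ce3e7_ag.Tav.CCyc
import Pool.Agent.P.MP_2ce3e7_ag.Tav.Lat

/-! On a complex torus the degree of an endomorphism is its norm. -/

set_option autoImplicit false

noncomputable section

namespace Pool.Agent.Tav

open MvPolynomial Module Function Set MeasureTheory
open Pool.Agent.Weil

variable {s : Sh} {C : Fib ℂ s}

theorem Tor.eq_zero (T : Tor C) {v : T.V} (h : ∀ ρ, T.ξ ρ v = 0) : v = 0 := by
  by_contra h0
  obtain ⟨l, hl⟩ := SeparatingDual.exists_ne_zero (R := ℂ) h0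
  refine hl ?_
  change (l.restrictScalars ℝ) v = 0
  rw [← T.ξ.sum_repr (l.restrictScalars ℝ), _root_.sum_apply]
  exact Finset.sum_eq_zero fun ρ _ => by rw [_root_.smul_apply, h, smul_zero]

theorem Tor.act_surj (T : Tor C) {a : s.Λ} (h : ∀ ρ, s.χ ρ a ≠ 0) : Surjective (T.act a) := by
  refine (LinearMap.injective_iff_surjective (f := (T.act a : T.V →ₗ[ℂ] T.V))).1
    ((injective_iff_map_eq_zero _).2 fun v hv => T.eq_zero fun ρ => ?_)
  have := T.eig ρ a v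
  rw [show T.act a v = 0 from hv, map_zero] at this
  exact (mul_eq_zero.1 this.symm).resolve_left (h ρ)

theorem Tor.card_fib (T : Tor C) {a : s.Λ} (h : ∀ ρ, s.χ ρ a ≠ 0) (x : T.V) :
    ∃ n : ℕ, (T.Λ.mkQ '' {v | T.act a v - x ∈ T.Λ}).encard = n ∧ (n : ℂ) = Det.nm s.χ a := by
  have h1 := Disc.card_kerQ T.Λ T.ξ T.ξ.linearIndependent (T.dim ▸ s.card)
    (T.act a : T.V →ₗ[ℂ] T.V) (T.keep a) (fun ρ => s.χ ρ a) (fun ρ v => T.eig ρ a v) h
  have h2 : Nat.card (Disc.kerQ T.Λ (T.act a : T.V →ₗ[ℂ] T.V)) ≠ 0 := fun k =>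
    Finset.prod_ne_zero_iff.2 (fun ρ _ => h ρ) (by rw [← h1, k, Nat.cast_zero])
  obtain ⟨v, rfl⟩ := T.act_surj h x
  refine ⟨_, ?_, h1⟩
  have e : T.Λ.mkQ '' {w | T.act a w - T.act a v ∈ T.Λ} =
      (fun q => q + T.Λ.mkQ v) '' Disc.kerQ T.Λ (T.act a : T.V →ₗ[ℂ] T.V) := by
    ext q
    constructor
    · rintro ⟨w, hw, rfl⟩
      exact ⟨_, ⟨w - v, by simpa using hw, rfl⟩, by simp⟩
    · rintro ⟨_, ⟨w, hw, rfl⟩, rfl⟩
      exact ⟨w + v, by simpa using hw, map_add _ _ _⟩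
  rw [e, (add_left_injective _).encard_image, Nat.card_coe_set_eq,
    (finite_of_ncard_ne_zero h2).cast_ncard_eq]

theorem Tor.ae_empty (T : Tor C) [MeasurableSpace T.V] [BorelSpace T.V] (ν : Measure T.V)
    [ν.IsAddHaarMeasure] {a : s.Λ} {ρ : s.Γ} (h : s.χ ρ a = 0) :
    ∀ᵐ x ∂ν, {v | T.act a v - x ∈ T.Λ} = ∅ := by
  have := FiniteDimensional.complexToReal T.V
  have : Countable T.Λ := T.isLat.countable
  have h1 : ν (LinearMap.ker (T.ξ ρ : T.V →ₗ[ℝ] ℂ)) = 0 :=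
    Measure.addHaar_submodule ν _ fun k => T.ξ.ne_zero ρ
      (ContinuousLinearMap.coe_injective (LinearMap.ker_eq_top.1 k))
  have h2 : ∀ᵐ x ∂ν, ∀ l : T.Λ, T.ξ ρ (x + l) ≠ 0 := ae_all_iff.2 fun l => by
    have h3 := (measure_preimage_add_right ν (l : T.V) _).trans h1
    exact measure_mono_null (fun x hx => not_not.1 hx) h3
  filter_upwards [h2] with x hx
  refine eq_empty_of_forall_notMem fun v hv => hx ⟨_, hv⟩ ?_
  rw [add_sub_cancel, T.eig, h, zero_mul]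

theorem Tor.deg (T : Tor C) : C.Deg := fun a => by
  borelize T.V
  have := FiniteDimensional.complexToReal T.V
  have e : (fun t : C.G => T.u (T.act a (T.u.symm t))) = fun t => a • t :=
    funext fun t => by rw [T.hu, T.u.apply_symm_apply]
  obtain ⟨r, h1, h2⟩ := T.card (Measure.addHaar : Measure T.V) C.hx C.cl C.src
    (fun t => T.act a (T.u.symm t)) (by rw [e]; exact C.smul a)
    (fun t => T.Λ.mkQ (T.u.symm t)) fun t t' => by
      have := T.kerx (T.u.symm t) (T.u.symm t')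
      rw [T.u.apply_symm_apply, T.u.apply_symm_apply] at this
      rw [this]
      exact Submodule.Quotient.eq _
  have h3 : ∀ x, (fun t => T.Λ.mkQ (T.u.symm t)) '' {t | T.act a (T.u.symm t) - x ∈ T.Λ} =
      T.Λ.mkQ '' {v | T.act a v - x ∈ T.Λ} := fun x => by
    ext q
    exact ⟨fun ⟨t, ht, k⟩ => ⟨_, ht, k⟩, fun ⟨v, hv, k⟩ => ⟨T.u v, by simpa using hv, by simpa using k⟩⟩
  simp only [h3] at h2
  rw [e] at h1
  have h4 : (r : ℂ) = Det.nm s.χ a := by
    by_cases h : ∀ ρ, s.χ ρ a ≠ 0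
    · obtain ⟨x, hx⟩ := h2.exists
      obtain ⟨n, k1, k2⟩ := T.card_fib h x
      rw [← k2, Nat.cast_inj.1 (hx.symm.trans k1)]
    · obtain ⟨ρ, hρ⟩ := not_forall.1 h
      obtain ⟨x, hx, hx'⟩ := (h2.and (T.ae_empty _ (not_not.1 hρ))).exists
      rw [hx', image_empty, encard_empty] at hx
      rw [Nat.cast_eq_zero.1 hx.symm, Nat.cast_zero]
      exact (Finset.prod_eq_zero (Finset.mem_univ ρ) (not_not.1 hρ)).symm
  rw [← h4]
  exact_mod_cast h1

end Pool.Agent.Tav
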