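import Pool.Agent.P.MP_2ce3e7_ag.Tav.XGS
import Pool.Agent.P.MP_2ce3e7_ag.Tav.XMan

/-! The singular locus has smaller dimension. -/

set_option autoImplicit false

noncomputable section

namespace Pool.Agent.TateX

open MvPolynomial Set Module Filter Topology Pool.Agent.Weil

variable {σ : Type} [Fintype σ]

omit [Fintype σ] in
theorem strat_exists_min {J : Ideal (MvPolynomial σ ℂ)} {x : σ → ℂ} (hx : x ∈ ZS J) :
    ∃ p ∈ J.minimalPrimes, x ∈ ZS p := by
  have hp : (RingHom.ker (eval x : MvPolynomial σ ℂ →+* ℂ)).IsPrime := RingHom.ker_isPrime _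
  have hle : J ≤ RingHom.ker (eval x : MvPolynomial σ ℂ →+* ℂ) := fun f hf => hx f hf
  obtain ⟨p, hp1, hp2⟩ := Ideal.exists_minimalPrimes_le hle
  exact ⟨p, hp1, fun f hf => hp2 hf⟩

theorem strat_thin_of_min {J : Ideal (MvPolynomial σ ℂ)} {n : ℕ} {A : Set (σ → ℂ)}
    (hA : A ⊆ ZS J) (h : ∀ p ∈ J.minimalPrimes, Thin n (A ∩ ZS p)) : Thin n A := by
  have hf : J.minimalPrimes.Finite := Ideal.finite_minimalPrimes_of_isNoetherianRing _ J
  have : Finite J.minimalPrimes := hf.to_subtype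
  refine (thin_iUnion (J := J.minimalPrimes) fun p => h p.1 p.2).mono ?_ le_rfl
  intro x hx
  obtain ⟨p, hp, hxp⟩ := strat_exists_min (hA hx)
  exact mem_iUnion.2 ⟨⟨p, hp⟩, hx, hxp⟩

omit [Fintype σ] in
theorem strat_lt_sup {p : Ideal (MvPolynomial σ ℂ)} {f : MvPolynomial σ ℂ} (hf : f ∉ p) :
    p < p ⊔ Ideal.span {f} := by
  refine lt_of_le_of_ne le_sup_left fun h => hf ?_
  rw [h]
  exact Ideal.mem_sup_right (Ideal.mem_span_singleton_self f)

omit [Fintype σ] in
theorem strat_mem_sup {p : Ideal (MvPolynomial σ ℂ)} {f : MvPolynomial σ ℂ} {x : σ → ℂ}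
    (hx : x ∈ ZS p) (hf : eval x f = 0) : x ∈ ZS (p ⊔ Ideal.span {f}) := by
  rw [ZS_sup]
  exact ⟨hx, mem_ZS_span.2 fun g hg => by rw [mem_singleton_iff.1 hg]; exact hf⟩

theorem strat_lt_aux {n : ℕ}
    (ih : ∀ k < n, ∀ (p : Ideal (MvPolynomial σ ℂ)) (U : Finset σ), p.IsPrime → MaxInd p U →
      U.card = k → Thin (k + 1) (ZS p))
    {p : Ideal (MvPolynomial σ ℂ)} (hp : p.IsPrime) {U : Finset σ}
    (h : MaxInd p U) (hn : U.card = n) {J : Ideal (MvPolynomial σ ℂ)} (hl : p < J) :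
    Thin n (ZS J) := by
  refine strat_thin_of_min subset_rfl fun q hq => ?_
  have hq1 : q.IsPrime := hq.1.1
  obtain ⟨U', hU'⟩ := exists_maxInd hq1.ne_top
  have hlt : U'.card < n := hn ▸ MaxInd.lt hp h hU' (hl.trans_le hq.1.2)
  exact (ih _ hlt q U' hq1 hU' rfl).mono inter_subset_right hlt

theorem strat_main (n : ℕ) : ∀ (p : Ideal (MvPolynomial σ ℂ)) (U : Finset σ), p.IsPrime →
    MaxInd p U → U.card = n → Thin (n + 1) (ZS p) := by
  induction n using Nat.strong_induction_on with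
  | _ n ih =>
    intro p U hp h hn
    obtain ⟨f, hf, hs⟩ := h.smo hp
    have hc : Fintype.card σ - U.card + n = Fintype.card σ := by
      have := U.card_le_univ
      omega
    have h1 := thin_smo (J := p) hc
    have h2 := strat_lt_aux ih hp h hn (strat_lt_sup hf)
    refine (h1.union (h2.mono subset_rfl (Nat.le_succ n))).mono ?_ le_rfl
    intro x hx
    by_cases hx0 : eval x f = 0
    · exact Or.inr (strat_mem_sup hx hx0)
    · exact Or.inl ⟨hx, hs x hx0⟩

theorem MaxInd.thin {p : Ideal (MvPolynomial σ ℂ)} (hp : p.IsPrime) {U : Finset σ}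
    (h : MaxInd p U) : Thin (U.card + 1) (ZS p) :=
  strat_main _ p U hp h rfl

theorem MaxInd.thin_of_lt {p : Ideal (MvPolynomial σ ℂ)} (hp : p.IsPrime) {U : Finset σ}
    (h : MaxInd p U) {J : Ideal (MvPolynomial σ ℂ)} (hl : p < J) : Thin U.card (ZS J) :=
  strat_lt_aux (fun k _ => strat_main k) hp h rfl hl

theorem strat_exists_pt {p : Ideal (MvPolynomial σ ℂ)} (hp : p.IsPrime) {f : MvPolynomial σ ℂ}
    (hf : f ∉ p) : ∃ x ∈ ZS p, eval x f ≠ 0 := by
  by_contra hne
  apply hf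
  have h := MvPolynomial.IsPrime.vanishingIdeal_zeroLocus (K := ℂ) p
  rw [← h, mem_vanishingIdeal_iff]
  intro x hx
  by_contra h0
  exact hne ⟨x, fun g hg => by simpa [aeval_eq_eval] using hx g hg,
    by simpa [aeval_eq_eval] using h0⟩

theorem strat_exists_sep {J p : Ideal (MvPolynomial σ ℂ)} (hJ : J.IsRadical)
    (hp : p ∈ J.minimalPrimes) : ∃ s ∉ p, ∀ g ∈ p, s * g ∈ J := by
  classical
  have hf : J.minimalPrimes.Finite := Ideal.finite_minimalPrimes_of_isNoetherianRing _ J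
  have hp1 : p.IsPrime := hp.1.1
  have hex : ∀ q ∈ hf.toFinset.erase p, ∃ a ∈ q, a ∉ p := by
    intro q hq
    obtain ⟨hne, hq'⟩ := Finset.mem_erase.1 hq
    have hq2 : q ∈ J.minimalPrimes := hf.mem_toFinset.1 hq'
    by_contra hc
    have hle : q ≤ p := fun a ha => by
      by_contra h
      exact hc ⟨a, ha, h⟩
    exact hne (le_antisymm hle (hp.2 hq2.1 hle))
  choose! a ha1 ha2 using hex
  refine ⟨∏ q ∈ hf.toFinset.erase p, a q, ?_, fun g hg => ?_⟩
  · intro h
    obtain ⟨q, hq, hq'⟩ := (Ideal.IsPrime.prod_mem_iff (hp := hp1)).1 h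
    exact ha2 q hq hq'
  · apply hJ
    rw [← Ideal.sInf_minimalPrimes, Ideal.mem_sInf]
    intro q hq
    by_cases hqp : q = p
    · rw [hqp]
      exact Ideal.mul_mem_left _ _ hg
    · have hq' : q ∈ hf.toFinset.erase p := Finset.mem_erase.2 ⟨hqp, hf.mem_toFinset.2 hq⟩
      refine Ideal.mul_mem_right _ _ ?_
      rw [← Finset.mul_prod_erase _ _ hq']
      exact Ideal.mul_mem_right _ _ (ha1 q hq')

theorem strat_smo_of_le {J p : Ideal (MvPolynomial σ ℂ)} (hle : J ≤ p) {s : MvPolynomial σ ℂ}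
    (hs : ∀ g ∈ p, s * g ∈ J) {x : σ → ℂ} (hx : x ∈ ZS p) (h0 : eval x s ≠ 0) {c : ℕ}
    (h : Smo p c x) : Smo J c x := by
  obtain ⟨t, f, ht, hf, hg, hi⟩ := h
  refine ⟨s * t, fun i => s * f i, ?_, fun i => hs _ (hf i), fun g hgJ => ?_, ?_⟩
  · rw [map_mul]
    exact mul_ne_zero h0 ht
  · obtain ⟨b, hb⟩ := Ideal.mem_span_range_iff_exists_fun.1 (hg g (hle hgJ))
    rw [mul_assoc, ← hb, Finset.mul_sum]
    refine Ideal.sum_mem _ fun i _ => ?_
    rw [mul_left_comm]
    exact Ideal.mul_mem_left _ _ (Ideal.subset_span ⟨i, rfl⟩)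
  · have he : (fun i w => eval x (pderiv w (s * f i))) =
        fun i => (Units.mk0 (eval x s) h0) • fun w => eval x (pderiv w (f i)) := by
      funext i w
      simp [hx _ (hf i), Units.smul_def]
    rw [he]
    exact hi.units_smul fun _ => Units.mk0 (eval x s) h0

theorem thin_sing {J : Ideal (MvPolynomial σ ℂ)} (hJ : J.IsRadical) {c e : ℕ}
    (h : c + e = Fintype.card σ) (ht : Thin (e + 1) (ZS J)) :
    Thin e {x | x ∈ ZS J ∧ ¬ Smo J c x} := by
  refine strat_thin_of_min (J := J) (fun x hx => hx.1) fun p hp => ?_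
  have hp1 : p.IsPrime := hp.1.1
  have hle : J ≤ p := hp.1.2
  obtain ⟨U, hU⟩ := exists_maxInd hp1.ne_top
  obtain ⟨f, hf, hs⟩ := hU.smo hp1
  have hc : Fintype.card σ - U.card + U.card = Fintype.card σ := by
    have := U.card_le_univ
    omega
  have hUe : U.card ≤ e := by
    by_contra hlt
    obtain ⟨x, hx, hx0⟩ := strat_exists_pt hp1 hf
    exact (hs x hx0).not_thin hc hx (ht.mono (fun y hy g hg => hy g (hle hg)) (by omega))
  rcases hUe.lt_or_eq with hlt | heq
  · exact (hU.thin hp1).mono inter_subset_right hlt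
  · obtain ⟨s, hs1, hs2⟩ := strat_exists_sep hJ hp
    have hfs : f * s ∉ p := fun h => (hp1.mem_or_mem h).elim hf hs1
    refine (hU.thin_of_lt hp1 (strat_lt_sup hfs)).mono ?_ heq.le
    rintro x ⟨⟨-, hx1⟩, hx2⟩
    refine strat_mem_sup hx2 ?_
    by_contra h0
    rw [map_mul] at h0
    have hcc : Fintype.card σ - U.card = c := by omega
    exact hx1 (strat_smo_of_le hle hs2 hx2 (right_ne_zero_of_mul h0)
      (hcc ▸ hs x (left_ne_zero_of_mul h0)))

end Pool.Agent.TateX
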