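import Pool.Agent.P.MP_2ce3e7_ag.Tav.HPol
import Pool.Agent.P.MP_2ce3e7_ag.Tav.Primes
import Pool.Agent.P.MP_2ce3e7_ag.Tav.XStrat

/-! The degree of the Hilbert polynomial is the dimension. -/

set_option autoImplicit false

noncomputable section

namespace Pool.Agent.Tav

open MvPolynomial Module Set
open Pool.Agent.TateX (ZS MaxInd extc exists_maxInd gs_dep gs_mem extc_mono)

section Alg

variable {K σ ι : Type} [Field K] [Fintype σ] [Fintype ι] [DecidableEq ι] {β : σ → ι}
  {J p : Ideal (MvPolynomial σ K)}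

theorem dg_of_diff {P : MvPolynomial ι ℚ} {n : ℤ} (hn : 0 ≤ n)
    (h : ∀ i, Dg (sh (fun j => -(((Pi.single i 1 : ι → ℕ) j : ℕ) : ℚ)) P - P) (n - 1)) : Dg P n := by
  have key : ∀ k : ℕ, Dg P (n + k) → Dg P n := by
    intro k
    induction k with
    | zero => simp
    | succ k ih =>
      intro hk
      refine ih fun s hs => ?_
      by_cases h1 : n + (k + 1 : ℕ) < (s.degree : ℤ)
      · exact hk s h1
      have h2 : s ≠ 0 := by
        rintro rfl
        simp only [map_zero, Nat.cast_zero] at hs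
        omega
      obtain ⟨i, hi⟩ := Finsupp.ne_iff.1 h2
      have e : s - Finsupp.single i 1 + Finsupp.single i 1 = s :=
        Finsupp.sub_add_single_one_cancel hi
      have hd : (s - Finsupp.single i 1).degree + 1 = s.degree := by
        conv_rhs => rw [← e, map_add, Finsupp.degree_single]
      have h3 := hk.coeff_sh_sub (fun j => -(((Pi.single i 1 : ι → ℕ) j : ℕ) : ℚ))
        (s := s - Finsupp.single i 1) (by push_cast at h1 hs ⊢; omega)
      rw [h i _ (by omega), Finset.sum_eq_single i (fun j _ hj => by simp [hj]) (by simp), e] at h3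
      have h4 : (((s - Finsupp.single i 1 : ι →₀ ℕ) i : ℚ) + 1) ≠ 0 := by positivity
      rw [Pi.single_eq_same, Nat.cast_one] at h3
      exact (mul_eq_zero.1 h3.symm).resolve_left (mul_ne_zero (by norm_num) h4)
  refine key P.totalDegree ((dg_totalDegree P).mono (by omega))

/-- no block of variables lies in the ideal -/
def Rel (β : σ → ι) (p : Ideal (MvPolynomial σ K)) : Prop := ∀ i, ∃ v, β v = i ∧ X v ∉ p

omit [Fintype ι] in
theorem pI_of_not_rel (h : ¬ Rel β p) : pI β p = 0 := by
  obtain ⟨i, hi⟩ := not_forall.1 h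
  exact pI_eq_zero ⟨1, fun d hd f hf => mem_of_block
    (fun v hv => not_not.1 fun hX => hi ⟨v, hv, hX⟩) (hd i) hf⟩

omit [Fintype ι] in
theorem maxInd_meet (hp : p.IsPrime) (hg : GrJ β p) {U : Finset σ} (hU : MaxInd p U) {v : σ}
    (hv : X v ∉ p) : ∃ u ∈ U, β u = β v := by
  classical
  by_contra hc
  push Not at hc
  apply gs_dep hU (t := v) fun h => hc v h rfl
  refine Ideal.span_eq_bot.2 ?_
  rintro f ⟨hf, hs⟩
  refine MvPolynomial.ext _ _ fun s₀ => ?_
  set d := Finsupp.weight (wN β) s₀ with hd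
  set g := weightedHomogeneousComponent (wN β) d f with hgd
  have hco : ∀ s, coeff s g = if Finsupp.weight (wN β) s = d then coeff s f else 0 := fun s =>
    coeff_weightedHomogeneousComponent d f s
  have hsup : ∀ s ∈ g.support, Finsupp.weight (wN β) s = d ∧ ∀ w ∈ s.support, w = v ∨ w ∈ U := by
    intro s hs'
    have h1 := mem_support_iff.1 hs'
    rw [hco] at h1
    split_ifs at h1 with h2
    · exact ⟨h2, fun w hw => mem_supported.1 hs ((mem_vars_iff_mem_support w).2 ⟨s, mem_support_iff.2 h1, hw⟩)⟩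
    · exact (h1 rfl).elim
  have hsv : ∀ s ∈ g.support, s v = d (β v) := by
    intro s hs'
    rw [← (hsup s hs').1, weight_wN]
    refine (Finset.sum_eq_single v (fun w hw hne => ?_) (by simp)).symm
    by_contra h0
    rcases (hsup s hs').2 w (Finsupp.mem_support_iff.2 h0) with h1 | h1
    · exact hne h1
    · exact hc w h1 (Finset.mem_filter.1 hw).2
  let g' : MvPolynomial σ K := ∑ s ∈ g.support, monomial (s.erase v) (coeff s g)
  have e : g' * X v ^ d (β v) = g := by
    conv_rhs => rw [g.as_sum]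
    rw [Finset.sum_mul]
    refine Finset.sum_congr rfl fun s hs' => ?_
    rw [← monomial_add_single, ← hsv s hs', Finsupp.erase_add_single]
  have h0 : g' * X v ^ d (β v) ∈ p := by rw [e]; exact hg d f hf
  have h1 : g' ∈ p := (hp.mem_or_mem h0).resolve_right fun h => hv (hp.mem_of_pow_mem _ h)
  have h2 : g' ∈ supported K (U : Set σ) := by
    refine Subalgebra.sum_mem _ fun s hs' => mem_supported.2 fun w hw => ?_
    rw [vars_monomial (mem_support_iff.1 hs'), Finsupp.support_erase] at hw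
    obtain ⟨h3, h4⟩ := Finset.mem_erase.1 hw
    exact ((hsup s hs').2 w h4).resolve_left h3
  have h3 := gs_mem h1 h2
  rw [hU.ind, Ideal.mem_bot] at h3
  have h4 := hco s₀
  rw [← e, h3, zero_mul, if_pos rfl] at h4
  exact h4.symm

omit [Fintype ι] in
theorem maxInd_sec (hp : p.IsPrime) (hg : GrJ β p) (hr : Rel β p) {U : Finset σ}
    (hU : MaxInd p U) : ∃ v : ι → σ, ∀ i, v i ∈ U ∧ β (v i) = i := by
  choose v hv hX using hr
  choose u hu hb using fun i => maxInd_meet hp hg hU (hX i)
  exact ⟨u, fun i => ⟨hu i, (hb i).trans (hv i)⟩⟩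

/-- all primes above `J` have fewer than `m` independent variables -/
def DimLt (J : Ideal (MvPolynomial σ K)) (m : ℕ) : Prop :=
  ∀ q : Ideal (MvPolynomial σ K), q.IsPrime → J ≤ q → ∀ U, MaxInd q U → U.card < m

omit [Fintype σ] in
theorem DimLt.mono {J' : Ideal (MvPolynomial σ K)} {m : ℕ} (h : DimLt J m) (hl : J ≤ J') :
    DimLt J' m := fun q hq h1 => h q hq (hl.trans h1)

omit [Fintype σ] in
theorem dimLt_prime {U : Finset σ} (hU : MaxInd p U) : DimLt p (U.card + 1) :=
  fun _ _ h1 U' hU' => Nat.lt_succ_of_le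
    (hU.max U' (le_bot_iff.1 (hU'.ind ▸ extc_mono _ h1)))

theorem dimLt_of_lt (hp : p.IsPrime) {U : Finset σ} (hU : MaxInd p U) (hl : p < J) :
    DimLt J U.card := fun _ _ h1 _ hU' => MaxInd.lt hp hU hU' (hl.trans_le h1)

omit [Fintype σ] in
theorem lt_sup_span {f : MvPolynomial σ K} (hf : f ∉ p) : p < p ⊔ Ideal.span {f} :=
  lt_of_le_of_ne le_sup_left fun e => hf (by
    rw [e]; exact Ideal.mem_sup_right (Ideal.mem_span_singleton_self f))

/-- upper bound for the degree of the Hilbert polynomial -/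
theorem dg_of_dimLt (m : ℕ) : ∀ J : Ideal (MvPolynomial σ K), GrJ β J → DimLt J m →
    Dg (pI β J) ((m : ℤ) - 1 - Fintype.card ι) := by
  induction m using Nat.strong_induction_on with
  | _ m ih =>
  intro J hJ
  refine Pr.poly_induction (wN β) (fun I => DimLt I m → Dg (pI β I) ((m : ℤ) - 1 - Fintype.card ι))
    (fun _ => by rw [pI_top]; exact dg_zero _) (fun P hP hp hm => ?_)
    (fun I d f hI hf _ _ h1 h2 hm => ?_) J fun f hf d => hJ d f hf
  · have hg : GrJ β P := fun d f hf => hP f hf d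
    by_cases hr : Rel β P
    swap
    · rw [pI_of_not_rel hr]; exact dg_zero _
    obtain ⟨U, hU⟩ := exists_maxInd hp.ne_top
    obtain ⟨v, hv⟩ := maxInd_sec hp hg hr hU
    have h1 : U.card < m := hm P hp le_rfl U hU
    have h2 : Fintype.card ι ≤ U.card := by
      rw [← Finset.card_univ]
      exact Finset.card_le_card_of_injOn v (fun i _ => (hv i).1) fun i _ j _ e => by
        rw [← (hv i).2, e, (hv j).2]
    refine dg_of_diff (by omega) fun i => ?_
    obtain ⟨w, rfl, hw⟩ := hr i
    have h3 := ih U.card h1 _ (hg.sup_span (X_mem_Sd w)) (dimLt_of_lt hp hU (lt_sup_span hw))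
    rw [pI_cut hg (X_mem_Sd w) (lg_prime hp hw)] at h3
    simpa using h3.neg.mono (m := (m : ℤ) - 1 - Fintype.card ι - 1) (by omega)
  · have hg : GrJ β I := fun d f hf => hI f hf d
    rw [pI_exact hg (f := f) (e := d) hf]
    exact ((h1 (hm.mono (le_colon1 I f))).sh _).add (h2 (hm.mono le_sup_left))

theorem dg_of_maxInd (hg : GrJ β p) {U : Finset σ} (hU : MaxInd p U) :
    Dg (pI β p) ((U.card : ℤ) - Fintype.card ι) :=
  (dg_of_dimLt _ p hg (dimLt_prime hU)).mono (by push_cast; omega)

open Classical in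
/-- the variables outside `T` are sent to zero -/
def kil (K : Type) [Field K] (T : Finset σ) : MvPolynomial σ K →ₐ[K] MvPolynomial σ K :=
  aeval fun v => if v ∈ T then X v else 0

/-- the ideal of a coordinate subspace -/
def JT (K : Type) [Field K] (T : Finset σ) : Ideal (MvPolynomial σ K) :=
  Ideal.span (X '' {v | v ∉ T})

omit [Fintype σ] in
theorem mem_JT {T : Finset σ} {f : MvPolynomial σ K} : f ∈ JT K T ↔ kil K T f = 0 := by
  have h1 : ∀ g : MvPolynomial σ K, g - kil K T g ∈ JT K T := fun g => by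
    induction g using MvPolynomial.induction_on with
    | C a => simp [kil]
    | add p q hp hq => rw [map_add, add_sub_add_comm]; exact add_mem hp hq
    | mul_X p v hp =>
      by_cases hv : v ∈ T
      · rw [map_mul, show kil K T (X v) = X v by simp [kil, hv], ← sub_mul]
        exact Ideal.mul_mem_right _ _ hp
      · rw [map_mul, show kil K T (X v) = 0 by simp [kil, hv], mul_zero, sub_zero]
        exact Ideal.mul_mem_left _ _ (Ideal.subset_span ⟨v, hv, rfl⟩)
  refine ⟨fun h => (Ideal.span_le (I := RingHom.ker (kil K T))).2 ?_ h, fun h => ?_⟩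
  · rintro _ ⟨v, hv, rfl⟩
    have hv' : v ∉ T := hv
    simp [kil, hv']
  · simpa [h] using h1 f

omit [Fintype σ] in
theorem JT_prime (T : Finset σ) : (JT K T).IsPrime := by
  have e : JT K T = RingHom.ker (kil K T) := Ideal.ext fun _ => mem_JT
  rw [e]
  exact RingHom.ker_isPrime _

omit [Fintype σ] [Fintype ι] in
theorem JT_gr (T : Finset σ) : GrJ β (JT K T) := grJ_span (by
  rintro _ ⟨v, -, rfl⟩
  exact ⟨_, X_mem_Sd v⟩)

omit [Fintype σ] in
theorem X_notMem_JT {T : Finset σ} {v : σ} (hv : v ∈ T) : (X v : MvPolynomial σ K) ∉ JT K T := by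
  rw [mem_JT]
  simp [kil, hv]

/-- a relevant prime has a nonzero Hilbert polynomial -/
theorem pI_ne_zero (hp : p.IsPrime) (hg : GrJ β p) (hr : Rel β p) : pI β p ≠ 0 := fun h0 => by
  obtain ⟨N, hN⟩ := lg_of_pI_eq_zero hg h0
  choose v hv hX using hr
  have h1 : (∏ i, X (v i) ^ N : MvPolynomial σ K) ∈ Sd K β (∑ i, N • Pi.single (β (v i)) 1) :=
    IsWeightedHomogeneous.prod _ _ _ fun i _ => IsWeightedHomogeneous.pow (X_mem_Sd (v i)) N
  obtain ⟨i, -, hi⟩ := (Ideal.IsPrime.prod_mem_iff (hp := hp)).1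
    (hN _ (fun i => by simp [hv, Finset.sum_apply, Pi.single_apply]) _ h1)
  exact hX i (hp.mem_of_pow_mem _ hi)

theorem JT_low {v : ι → σ} (hv : ∀ i, β (v i) = i) (k : ℕ) : ∀ T : Finset σ, (∀ i, v i ∈ T) →
    T.card = k + Fintype.card ι → ¬ Dg (pI β (JT K T)) ((k : ℤ) - 1) := by
  classical
  induction k with
  | zero =>
    intro T hT _ h
    exact pI_ne_zero (JT_prime T) (JT_gr T) (fun i => ⟨v i, hv i, X_notMem_JT (hT i)⟩)
      (h.eq_zero (by simp))
  | succ k ih =>
    intro T hT hc h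
    obtain ⟨w, hw, hw'⟩ := Finset.exists_mem_notMem_of_card_lt_card
      (s := Finset.univ.image v) (t := T)
      (lt_of_le_of_lt Finset.card_image_le (by rw [Finset.card_univ]; omega))
    have e : JT K (T.erase w) = JT K T ⊔ Ideal.span {X w} := by
      rw [JT, JT, ← Ideal.span_union, ← image_singleton, ← image_union]
      congr 2
      ext x
      simp only [Finset.mem_erase, mem_union, mem_ofPred_eq, mem_singleton_iff]
      tauto
    refine ih (T.erase w) (fun i => Finset.mem_erase.2 ⟨fun e => hw' ?_, hT i⟩)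
      (by rw [Finset.card_erase_of_mem hw]; omega) ?_
    · exact Finset.mem_image.2 ⟨i, Finset.mem_univ _, e⟩
    · rw [e]
      exact (h.cut (JT_gr T) (X_mem_Sd w) (lg_prime (JT_prime T) (X_notMem_JT hw))).mono
        (by push_cast; omega)

theorem hI_JT_le {U : Finset σ} (hU : extc (U : Set σ) J = ⊥) (d : ι → ℕ) :
    hI β (JT K U) d ≤ hI β J d := by
  classical
  let x : σ → MvPolynomial σ K ⧸ J := fun v => Ideal.Quotient.mk J (X v)
  let y : σ → MvPolynomial σ K ⧸ J := fun v => if v ∈ U then x v else 0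
  have e1 : (aeval x : MvPolynomial σ K →ₐ[K] _) = Ideal.Quotient.mkₐ K J :=
    algHom_ext fun v => by simp [x]
  have e2 : (aeval y : MvPolynomial σ K →ₐ[K] _) = (Ideal.Quotient.mkₐ K J).comp (kil K U) :=
    algHom_ext fun v => by by_cases hv : v ∈ U <;> simp [x, y, kil, hv]
  have h1 : ∀ f, kil K U f ∈ supported K (U : Set σ) := fun f => by
    induction f using MvPolynomial.induction_on with
    | C a => rw [kil, aeval_C]; exact Subalgebra.algebraMap_mem _ a
    | add p q hp hq => rw [map_add]; exact add_mem hp hq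
    | mul_X p v hp =>
      rw [map_mul]
      refine mul_mem hp ?_
      by_cases hv : v ∈ U
      · simp [kil, hv]
      · simp [kil, hv]
  have h2 := hI_eq (β := β) (J := JT K U) (d := d) (aeval y).toLinearMap fun f _ => by
    rw [mem_JT, e2]
    refine ⟨fun h => by simp [h], fun h => ?_⟩
    have h3 := gs_mem (Ideal.Quotient.eq_zero_iff_mem.1 h) (h1 f)
    rwa [hU, Ideal.mem_bot] at h3
  rw [h2, hI, ← e1]
  refine Submodule.finrank_mono ?_
  rw [map_Sd, map_Sd]
  refine Finset.prod_le_prod' fun i _ => pow_le_pow_left' (Submodule.span_le.2 ?_) _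
  rintro _ ⟨v, hv, rfl⟩
  by_cases h : v ∈ U
  · simp only [y, if_pos h]
    exact Submodule.subset_span ⟨v, hv, rfl⟩
  · simp [y, h]

/-- lower bound for the degree of the Hilbert polynomial -/
theorem not_dg_of_maxInd (hp : p.IsPrime) (hg : GrJ β p) (hr : Rel β p) {U : Finset σ}
    (hU : MaxInd p U) : ¬ Dg (pI β p) ((U.card : ℤ) - Fintype.card ι - 1) := fun h => by
  obtain ⟨v, hv⟩ := maxInd_sec hp hg hr hU
  have h2 : Fintype.card ι ≤ U.card := by
    rw [← Finset.card_univ]
    exact Finset.card_le_card_of_injOn v (fun i _ => (hv i).1) fun i _ j _ e => by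
      rw [← (hv i).2, e, (hv j).2]
  refine JT_low (K := K) (fun i => (hv i).2) (U.card - Fintype.card ι) U (fun i => (hv i).1)
    (by omega) ?_
  exact ((evP_pI (JT_gr U)).dg_of_le (evP_pI hg) h (Lg.of_forall fun d =>
    ⟨Nat.cast_nonneg _, Nat.cast_le.2 (hI_JT_le hU.ind d)⟩)).mono (by omega)

theorem dg_iff_card (hp : p.IsPrime) (hg : GrJ β p) (hr : Rel β p) {U : Finset σ}
    (hU : MaxInd p U) {n : ℤ} : Dg (pI β p) n ↔ (U.card : ℤ) ≤ n + Fintype.card ι :=
  ⟨fun h => not_lt.1 fun hl => not_dg_of_maxInd hp hg hr hU (h.mono (by omega)),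
    fun h => (dg_of_maxInd hg hU).mono (by omega)⟩

omit [Fintype ι] [DecidableEq ι] in
theorem exists_nc_ne {P : MvPolynomial ι ℚ} {n : ℤ} (h : Dg P n) (h' : ¬ Dg P (n - 1)) :
    ∃ s : ι →₀ ℕ, (s.degree : ℤ) = n ∧ nc s P ≠ 0 := by
  by_contra hc
  refine h' fun s hs => ?_
  by_cases h1 : n < (s.degree : ℤ)
  · exact h s h1
  · exact nc_eq_zero.1 (not_not.1 fun h2 => hc ⟨s, by omega, h2⟩)

omit [Fintype ι] [DecidableEq ι] in
theorem nc_single_ne [Subsingleton ι] (i : ι) {P : MvPolynomial ι ℚ} {n : ℕ} (h : Dg P n)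
    (h' : ¬ Dg P ((n : ℤ) - 1)) : nc (Finsupp.single i n) P ≠ 0 := by
  obtain ⟨s, hs, h1⟩ := exists_nc_ne h h'
  have e : s = Finsupp.single i (s i) := Finsupp.ext fun j => by
    rw [Subsingleton.elim j i, Finsupp.single_eq_same]
  rw [e, Finsupp.degree_single] at hs
  rwa [← Nat.cast_injective hs, ← e]

end Alg

end Pool.Agent.Tav
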