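import Pool.Agent.P.MP_2ce3e7_ag.Tav.HIdeal
import Pool.Agent.P.MP_2ce3e7_ag.Tav.Primes
import Pool.Agent.P.MP_2ce3e7_ag.Tav.XStrat

/-! Embeddings of a complex torus in a product of projective spaces. -/

set_option autoImplicit false

noncomputable section

namespace Pool.Agent.Tav

open MvPolynomial Set Module Filter Topology MeasureTheory Pool.Agent.Weil Pool.Agent.TateX

variable {V : Type} [NormedAddCommGroup V] [NormedSpace ℂ V] {σ ι : Type}

/-- scaling of the blocks -/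
def bsm (β : σ → ι) (t : ι → ℂ) (x : σ → ℂ) : σ → ℂ := fun a => t (β a) * x a

/-- no block vanishes -/
def NzB (β : σ → ι) (x : σ → ℂ) : Prop := ∀ i, ∃ a, β a = i ∧ x a ≠ 0

/-- `u` induces an injective immersion of `V / L` in the product of projective spaces -/
structure Emb [Fintype σ] (L : AddSubgroup V) (β : σ → ι) (u : V → σ → ℂ) : Prop where
  an : ∀ v, AnalyticAt ℂ u v
  ne : ∀ v, NzB β (u v)
  sep : ∀ v w, (∃ t : ι → ℂ, u v = bsm β t (u w)) ↔ v - w ∈ L
  imm : ∀ (v dv : V) (t : ι → ℂ), fderiv ℂ u v dv = bsm β t (u v) → dv = 0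

variable {β : σ → ι} {L : AddSubgroup V} {u : V → σ → ℂ}

theorem bsm_bsm (s t : ι → ℂ) (x : σ → ℂ) : bsm β s (bsm β t x) = bsm β (s * t) x :=
  funext fun _ => (mul_assoc _ _ _).symm

theorem bsm_one (x : σ → ℂ) : bsm β 1 x = x := funext fun _ => one_mul _

theorem NzB.ne {t : ι → ℂ} {x : σ → ℂ} (h : NzB β (bsm β t x)) (i : ι) : t i ≠ 0 := by
  obtain ⟨a, rfl, ha⟩ := h i
  exact left_ne_zero_of_mul ha

theorem NzB.of_bsm {t : ι → ℂ} {x : σ → ℂ} (h : NzB β (bsm β t x)) : NzB β x := fun i =>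
  (h i).imp fun _ ha => ⟨ha.1, right_ne_zero_of_mul ha.2⟩

theorem NzB.bsm {t : ι → ℂ} {x : σ → ℂ} (h : NzB β x) (ht : ∀ i, t i ≠ 0) :
    NzB β (Tav.bsm β t x) := fun i =>
  (h i).imp fun _ ha => ⟨ha.1, mul_ne_zero (ht _) ha.2⟩

theorem NzB.inj {s t : ι → ℂ} {x : σ → ℂ} (h : NzB β x)
    (e : Tav.bsm β s x = Tav.bsm β t x) : s = t := funext fun i => by
  obtain ⟨a, rfl, ha⟩ := h i
  exact mul_right_cancel₀ ha (congrFun e a)

theorem NzB.minor {x w : σ → ℂ} (h : NzB β x) :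
    (∃ t : ι → ℂ, w = Tav.bsm β t x) ↔ ∀ a b, β a = β b → w a * x b = w b * x a := by
  refine ⟨?_, fun hm => ?_⟩
  · rintro ⟨t, rfl⟩ a b e
    simp only [Tav.bsm, e]
    ring
  · choose b hb hx using h
    refine ⟨fun i => w (b i) / x (b i), funext fun a => ?_⟩
    rw [Tav.bsm, div_mul_eq_mul_div, eq_div_iff (hx _)]
    exact hm a _ (hb _).symm

theorem Emb.of_mk [Fintype σ] (hu : Emb L β u) {v w : V}
    (h : (QuotientAddGroup.mk v : V ⧸ L) = QuotientAddGroup.mk w) :
    ∃ t : ι → ℂ, (∀ i, t i ≠ 0) ∧ u v = bsm β t (u w) := by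
  obtain ⟨t, ht⟩ := (hu.sep v w).2 (QuotientAddGroup.eq_iff_sub_mem.1 h)
  exact ⟨t, NzB.ne (ht ▸ hu.ne v), ht⟩

theorem Emb.mk_eq [Fintype σ] (hu : Emb L β u) {v w : V} {t : ι → ℂ} (h : u v = bsm β t (u w)) :
    (QuotientAddGroup.mk v : V ⧸ L) = QuotientAddGroup.mk w :=
  QuotientAddGroup.eq_iff_sub_mem.2 ((hu.sep v w).1 ⟨t, h⟩)

section Grading
variable [DecidableEq ι] [Fintype ι]

theorem eval_bsm {d : ι → ℕ} {f : MvPolynomial σ ℂ} (hf : f ∈ Sd ℂ β d) (t : ι → ℂ) (x : σ → ℂ) :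
    eval (bsm β t x) f = (∏ i, t i ^ d i) * eval x f := by
  rw [f.as_sum, map_sum, map_sum, Finset.mul_sum]
  refine Finset.sum_congr rfl fun m hm => ?_
  have h : ∀ m : σ →₀ ℕ, (m.prod fun a k => t (β a) ^ k) =
      ∏ i, t i ^ (Finsupp.weight (wN β) m) i := fun m => by
    induction m using Finsupp.induction_linear with
    | zero => simp
    | add f g hf hg =>
      rw [Finsupp.prod_add_index' (fun _ => pow_zero _) (fun _ _ _ => pow_add _ _ _), hf, hg,
        map_add, ← Finset.prod_mul_distrib]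
      exact Finset.prod_congr rfl fun i _ => (pow_add _ _ _).symm
    | single a k =>
      rw [Finsupp.prod_single_index (h := fun a k => t (β a) ^ k) (pow_zero _), Finsupp.weight_single,
        Finset.prod_eq_single (β a)]
      · simp [wN]
      · intro i _ hi
        simp [wN, hi]
      · simp
  rw [eval_monomial, eval_monomial, ← hf (mem_support_iff.1 hm), ← h, mul_left_comm,
    ← Finsupp.prod_mul]
  simp only [bsm, mul_pow]

theorem GrJ.bsm_mem {p : Ideal (MvPolynomial σ ℂ)} (hp : GrJ β p) {x : σ → ℂ} (hx : x ∈ ZS p)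
    (t : ι → ℂ) : bsm β t x ∈ ZS p := fun f hf => by
  classical
  rw [← sum_weightedHomogeneousComponent (wN β) f,
    finsum_eq_sum _ (weightedHomogeneousComponent_finsupp f), map_sum]
  refine Finset.sum_eq_zero fun d _ => ?_
  rw [eval_bsm (weightedHomogeneousComponent_mem (wN β) f d), hx _ (hp d f hf), mul_zero]

/-- the vanishing ideal of a torus invariant set is graded -/
theorem grJ_vanishing {A : Set (σ → ℂ)}
    (hA : ∀ t : ι → ℂ, (∀ i, t i ≠ 0) → ∀ x ∈ A, bsm β t x ∈ A) :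
    GrJ β (vanishingIdeal ℂ A) := by
  classical
  intro d f hf x hx
  let S := (weightedHomogeneousComponent_finsupp (w := wN β) f).toFinset
  let G : MvPolynomial ι ℂ := ∑ e ∈ S, monomial (Finsupp.equivFunOnFinite.symm e)
    (eval x (weightedHomogeneousComponent (wN β) e f))
  have hG : G = 0 := by
    refine MvPolynomial.funext_set (fun _ => {0}ᶜ)
      (fun _ => (Set.finite_singleton (0 : ℂ)).infinite_compl) fun t ht => ?_
    have h1 : eval (bsm β t x) f = 0 := hf _ (hA t (fun i => ht i trivial) x hx)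
    rw [← sum_weightedHomogeneousComponent (wN β) f,
      finsum_eq_sum _ (weightedHomogeneousComponent_finsupp f), map_sum] at h1
    rw [map_zero, ← h1, map_sum]
    refine Finset.sum_congr rfl fun e _ => ?_
    rw [eval_bsm (weightedHomogeneousComponent_mem (wN β) f e), eval_monomial,
      Finsupp.prod_fintype _ _ fun _ => pow_zero _, mul_comm]
    rfl
  change eval x (weightedHomogeneousComponent (wN β) d f) = 0
  by_cases hd : d ∈ S
  · have h2 := congrArg (coeff (Finsupp.equivFunOnFinite.symm d)) hG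
    rw [coeff_sum, Finset.sum_eq_single d, coeff_monomial, if_pos rfl] at h2
    · exact h2
    · intro e _ he
      rw [coeff_monomial, if_neg fun h => he (Finsupp.equivFunOnFinite.symm.injective h)]
    · exact fun h => absurd hd h
  · have h3 : weightedHomogeneousComponent (wN β) d f = 0 := by
      by_contra h
      exact hd ((Set.Finite.mem_toFinset _).2 h)
    rw [h3, map_zero]

attribute [local instance] MvPolynomial.weightedGradedAlgebra

/-- minimal primes of a graded ideal are graded -/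
theorem GrJ.minimal {K : Type} [Field K] {J p : Ideal (MvPolynomial σ K)} (hJ : GrJ β J)
    (hp : p ∈ J.minimalPrimes) : GrJ β p := by
  classical
  have hp1 : p.IsPrime := hp.1.1
  let q := (p.homogeneousCore (Sd K β)).toIdeal
  have hq : q ≤ p := Ideal.toIdeal_homogeneousCore_le _ p
  have hg : GrJ β q := grJ_iff.2 (p.homogeneousCore (Sd K β)).isHomogeneous
  have hJq : J ≤ q := by
    rw [← (grJ_iff.1 hJ).toIdeal_homogeneousCore_eq_self]
    exact Ideal.homogeneousCore_mono _ hp.1.2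
  have hq1 : q.IsPrime := by
    refine Pr.Hom.isPrime (w := wN β) (fun f hf d => hg d f hf)
      (fun h => hp1.ne_top (top_le_iff.1 (h ▸ hq))) fun d e x y hx hy hxy => ?_
    exact (hp1.mem_or_mem (hq hxy)).imp
      (Ideal.mem_homogeneousCore_of_homogeneous_of_mem ⟨d, hx⟩)
      (Ideal.mem_homogeneousCore_of_homogeneous_of_mem ⟨e, hy⟩)
  rwa [le_antisymm (hp.2 ⟨hq1, hJq⟩ hq) hq]

end Grading

section Analytic
variable [Fintype σ] [Fintype ι]

theorem isOpen_tor : IsOpen {t : ι → ℂ | ∀ i, t i ≠ 0} := by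
  rw [Set.ofPred_forall]
  exact isOpen_iInter_of_finite fun i => isOpen_ne_fun (continuous_apply i) continuous_const

theorem Emb.an_cone (hu : Emb L β u) (p : V × (ι → ℂ)) :
    AnalyticAt ℂ (fun q : V × (ι → ℂ) => bsm β q.2 (u q.1)) p :=
  analyticAt_pi_iff.2 fun a => (analyticAt_pi_iff.1 analyticAt_snd (β a)).mul
    (analyticAt_pi_iff.1 ((hu.an p.1).comp analyticAt_fst) a)

theorem Emb.fderiv_cone (hu : Emb L β u) (p dp : V × (ι → ℂ)) :
    fderiv ℂ (fun q : V × (ι → ℂ) => bsm β q.2 (u q.1)) p dp =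
      bsm β dp.2 (u p.1) + bsm β p.2 (fderiv ℂ u p.1 dp.1) := by
  have h1 : ∀ a, HasFDerivAt (fun q : V × (ι → ℂ) => q.2 (β a))
      ((ContinuousLinearMap.proj (β a)).comp (ContinuousLinearMap.snd ℂ V (ι → ℂ))) p := fun a =>
    ((ContinuousLinearMap.proj (R := ℂ) (φ := fun _ : ι => ℂ) (β a)).comp
      (ContinuousLinearMap.snd ℂ V (ι → ℂ))).hasFDerivAt
  have h2 : ∀ a, HasFDerivAt (fun q : V × (ι → ℂ) => u q.1 a)
      ((ContinuousLinearMap.proj a).comp ((fderiv ℂ u p.1).comp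
        (ContinuousLinearMap.fst ℂ V (ι → ℂ)))) p := fun a =>
    hasFDerivAt_pi'.1 ((hu.an p.1).differentiableAt.hasFDerivAt.comp p hasFDerivAt_fst) a
  have h3 := (hasFDerivAt_pi.2 fun a => (h1 a).mul (h2 a)).fderiv
  have h4 : (fun q : V × (ι → ℂ) => bsm β q.2 (u q.1)) = fun q a =>
      ((fun q : V × (ι → ℂ) => q.2 (β a)) * fun q : V × (ι → ℂ) => u q.1 a) q := rfl
  rw [h4, h3]
  funext a
  simp [bsm]
  ring

theorem Emb.imm_cone (hu : Emb L β u) {p : V × (ι → ℂ)} (hp : ∀ i, p.2 i ≠ 0) :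
    Function.Injective (fderiv ℂ (fun q : V × (ι → ℂ) => bsm β q.2 (u q.1)) p) := by
  refine (injective_iff_map_eq_zero _).2 fun dp h => ?_
  rw [hu.fderiv_cone] at h
  have h1 : dp.1 = 0 := hu.imm p.1 dp.1 (fun i => -dp.2 i / p.2 i) (funext fun a => by
    have := congrFun h a
    simp only [bsm, Pi.add_apply, Pi.zero_apply] at this ⊢
    have h0 := hp (β a)
    field_simp
    linear_combination this)
  rw [h1, map_zero] at h
  refine Prod.ext h1 ((hu.ne p.1).inj (funext fun a => ?_))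
  simpa [bsm] using congrFun h a

/-- thin invariant sets pull back to thin sets -/
theorem Emb.thin_pull [FiniteDimensional ℂ V] (hu : Emb L β u) {d : ℕ} {S : Set (σ → ℂ)}
    (ht : Thin (d + Fintype.card ι) S)
    (hi : ∀ t : ι → ℂ, (∀ i, t i ≠ 0) → ∀ x ∈ S, bsm β t x ∈ S) : Thin d {v | u v ∈ S} := by
  have h1 : Thin (d + finrank ℂ (ι → ℂ)) ((univ ×ˢ {t : ι → ℂ | ∀ i, t i ≠ 0}) ∩
      (fun q : V × (ι → ℂ) => bsm β q.2 (u q.1)) ⁻¹' S) := by
    rw [Module.finrank_fintype_fun_eq_card]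
    exact ht.preimage_imm (fun p _ => hu.an_cone p) fun p hp => hu.imm_cone hp.2
  obtain ⟨a, ha, ha'⟩ := (Measure.dense_of_ae (h1.slice volume
    (ContinuousLinearMap.snd ℂ _ _))).exists_mem_open isOpen_tor ⟨1, fun _ => one_ne_zero⟩
  refine (Thin.image ha (g := Prod.fst) fun _ _ => analyticAt_fst).mono ?_ le_rfl
  exact fun v hv => ⟨(v, a), ⟨⟨⟨trivial, ha'⟩, hi a ha' _ hv⟩, rfl⟩, rfl⟩

/-- the cone over a thin set is thin -/
theorem Emb.thin_cone (hu : Emb L β u) {d : ℕ} {A : Set V} (h : Thin d A) :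
    Thin (d + Fintype.card ι) {x | ∃ v ∈ A, ∃ t : ι → ℂ, x = bsm β t (u v)} := by
  have h1 := (h.prod_param (φ := id) (U := univ) (P := ι → ℂ) analyticOnNhd_id).image
    (g := fun q : V × (ι → ℂ) => bsm β q.2 (u q.1)) fun p _ => hu.an_cone p
  rw [Module.finrank_fintype_fun_eq_card] at h1
  refine h1.mono ?_ le_rfl
  rintro _ ⟨v, hv, t, rfl⟩
  exact ⟨(v, t), ⟨hv, t, trivial, rfl⟩, rfl⟩

end Analytic

end Pool.Agent.Tav
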