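import Pool.Agent.P.MP_2ce3e7_ag.Tav.SRg

/-! Reduction of regular maps; the action of the endomorphisms on the special fibre. -/

set_option autoImplicit false

noncomputable section

namespace Pool.Agent.Tav.Tr

open MvPolynomial Set Function

section Sub

variable {K Ω T B σ τ ι : Type} [CommRing K] [CommRing Ω] (r : K →+* Ω) (red : T → B)

/-- every member of `M` reduces, up to the factor `μ`, to a member of `M'` -/
def Sub (μ : T → Ω) (M : Submodule K (T → K)) (M' : Submodule Ω (B → Ω)) : Prop :=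
  ∀ u ∈ M, ∃ u' ∈ M', ∀ t, u' (red t) = μ t * r (u t)

variable {r red}

theorem Sub.span {μ : T → Ω} {s : Set (T → K)} {M' : Submodule Ω (B → Ω)}
    (h : ∀ u ∈ s, ∃ u' ∈ M', ∀ t, u' (red t) = μ t * r (u t)) :
    Sub r red μ (Submodule.span K s) M' := fun u hu => by
  induction hu using Submodule.span_induction with
  | mem x hx => exact h x hx
  | zero => exact ⟨0, M'.zero_mem, fun t => by simp⟩
  | add x y _ _ hx hy =>
    obtain ⟨a, ha, h1⟩ := hx
    obtain ⟨b, hb, h2⟩ := hy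
    exact ⟨a + b, M'.add_mem ha hb, fun t => by simp [h1, h2, mul_add]⟩
  | smul c x _ hx =>
    obtain ⟨a, ha, h1⟩ := hx
    exact ⟨r c • a, M'.smul_mem _ ha, fun t => by simp [h1, mul_left_comm]⟩

theorem Sub.one : Sub r red 1 1 1 := by
  rw [Submodule.one_eq_span]
  refine Sub.span ?_
  rintro _ rfl
  exact ⟨1, Submodule.one_le.1 le_rfl, fun t => by simp⟩

theorem Sub.mul {μ ν : T → Ω} {M N : Submodule K (T → K)} {M' N' : Submodule Ω (B → Ω)}
    (h : Sub r red μ M M') (h' : Sub r red ν N N') : Sub r red (μ * ν) (M * N) (M' * N') := by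
  rw [Submodule.mul_def]
  refine Sub.span ?_
  rintro _ ⟨a, ha, b, hb, rfl⟩
  obtain ⟨a', ha', h1⟩ := h a ha
  obtain ⟨b', hb', h2⟩ := h' b hb
  refine ⟨a' * b', Submodule.mul_mem_mul ha' hb', fun t => ?_⟩
  simp only [Pi.mul_apply, h1, h2, map_mul]
  ring

theorem Sub.pow {μ : T → Ω} {M : Submodule K (T → K)} {M' : Submodule Ω (B → Ω)}
    (h : Sub r red μ M M') (n : ℕ) : Sub r red (μ ^ n) (M ^ n) (M' ^ n) := by
  induction n with
  | zero => simpa using Sub.one
  | succ n ih => simpa only [pow_succ] using ih.mul h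

theorem Sub.prod (s : Finset ι) {μ : ι → T → Ω} {M : ι → Submodule K (T → K)}
    {M' : ι → Submodule Ω (B → Ω)} (h : ∀ i ∈ s, Sub r red (μ i) (M i) (M' i)) :
    Sub r red (∏ i ∈ s, μ i) (∏ i ∈ s, M i) (∏ i ∈ s, M' i) := by
  classical
  induction s using Finset.induction_on with
  | empty => simpa using Sub.one
  | insert a s ha ih =>
    simp only [Finset.prod_insert ha]
    exact (h a (Finset.mem_insert_self _ _)).mul (ih fun i hi => h i (Finset.mem_insert_of_mem hi))

theorem Sub.crd {x : T → σ → K} {p : B → σ → Ω}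
    (h : ∀ t, Par (p (red t)) fun l => r (x t l)) :
    ∃ μ : T → Ω, (∀ t, IsUnit (μ t)) ∧ Sub r red μ (crd x) (crd p) := by
  choose μ h1 h2 using h
  refine ⟨μ, h1, Sub.span ?_⟩
  rintro _ ⟨l, rfl⟩
  exact ⟨fun b => p b l, Submodule.subset_span ⟨l, rfl⟩, fun t => congrFun (h2 t) l⟩

theorem Par.refl (x : σ → K) : Par x x := ⟨1, isUnit_one, (one_smul _ _).symm⟩

theorem Par.symm {x y : σ → K} (h : Par x y) : Par y x := by
  obtain ⟨c, ⟨u, rfl⟩, rfl⟩ := h
  exact ⟨↑u⁻¹, Units.isUnit _, by rw [smul_smul, Units.inv_mul, one_smul]⟩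

theorem Par.trans {x y z : σ → K} (h : Par x y) (h' : Par y z) : Par x z := by
  obtain ⟨c, hc, rfl⟩ := h
  obtain ⟨d, hd, rfl⟩ := h'
  exact ⟨c * d, hc.mul hd, smul_smul _ _ _⟩

theorem Par.map {x y : σ → K} (h : Par x y) (r : K →+* Ω) :
    Par (fun l => r (x l)) fun l => r (y l) := by
  obtain ⟨c, hc, rfl⟩ := h
  exact ⟨r c, hc.map r, funext fun l => by simp⟩

variable [Fintype ι] {L : ι → Submodule K (T → K)} {L' : ι → Submodule Ω (B → Ω)}

/-- the chart at `t₀`, read on the special fibre -/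
theorem red_chart (hL : ∀ i, ∃ μ : T → Ω, (∀ t, IsUnit (μ t)) ∧ Sub r red μ (L i) (L' i))
    {y : T → τ → K} (h : Rg L (crd y)) (t₀ : T) :
    ∃ (e : ι → ℕ) (c : T → Ω) (u : τ → B → Ω), IsUnit (c t₀) ∧ (∀ j, u j ∈ ∏ i, L' i ^ e i) ∧
      ∀ t j, u j (red t) = c t * r (y t j) := by
  choose μ h1 h2 using hL
  obtain ⟨e, c, hc, h⟩ := h t₀
  have hS := Sub.prod Finset.univ (μ := fun i => μ i ^ e i) fun i _ => (h2 i).pow (e i)
  choose u h3 h4 using fun j => hS _ (h _ (Submodule.subset_span (mem_range_self j)))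
  refine ⟨e, fun t => (∏ i, μ i t ^ e i) * r (c t), u,
    (IsUnit.prod_univ_iff.2 fun i => (h1 i t₀).pow _).mul (hc.map r), h3, fun t j => ?_⟩
  rw [h4]
  simp [mul_assoc]

/-- regularity passes to the reduction -/
theorem rg_red (hr : Surjective red)
    (hL : ∀ i, ∃ μ : T → Ω, (∀ t, IsUnit (μ t)) ∧ Sub r red μ (L i) (L' i))
    {y : T → τ → K} (h : Rg L (crd y)) {q : B → τ → Ω}
    (hq : ∀ t, Par (q (red t)) fun l => r (y t l)) : Rg L' (crd q) := by
  classical
  refine rg_of_gen fun b₀ => ?_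
  obtain ⟨t₀, rfl⟩ := hr b₀
  obtain ⟨e, c, u, hc, hu, h⟩ := red_chart hL h t₀
  choose d hd hd' using fun t => Par.symm (hq t)
  let s : B → T := update (surjInv hr) (red t₀) t₀
  have hs : ∀ b, red (s b) = b := fun b => by
    by_cases hb : b = red t₀
    · rw [hb]
      simp [s]
    · simp [s, hb, surjInv_eq]
  refine ⟨e, fun b => c (s b) * d (s b), ?_, fun l => ?_⟩
  · simpa [s] using ⟨hc, hd t₀⟩
  · have : ((fun b => c (s b) * d (s b)) * fun b => q b l) = u l := funext fun b => by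
      have h1 := h (s b) l
      have h2 := congrFun (hd' (s b)) l
      rw [hs] at h1 h2
      rw [h1, h2]
      simp [mul_assoc]
    rw [this]
    exact hu l

end Sub

section Desc

variable {K Ω T B τ ι : Type} [CommRing K] [Field Ω] {r : K →+* Ω} {red : T → B} [Fintype ι]
  {L : ι → Submodule K (T → K)} {L' : ι → Submodule Ω (B → Ω)}

/-- a regular map is constant on the fibres of the reduction -/
theorem red_desc (hL : ∀ i, ∃ μ : T → Ω, (∀ t, IsUnit (μ t)) ∧ Sub r red μ (L i) (L' i))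
    {y : T → τ → K} (h : Rg L (crd y)) {t t' : T} (ht : red t = red t')
    (h0 : (fun l => r (y t l)) ≠ 0) : Par (fun l => r (y t l)) fun l => r (y t' l) := by
  obtain ⟨e, c, u, hc, -, h⟩ := red_chart hL h t
  have h1 : ∀ j, c t * r (y t j) = c t' * r (y t' j) := fun j => by rw [← h, ← h, ht]
  obtain ⟨j, hj⟩ := Function.ne_iff.1 h0
  have h2 : c t' ≠ 0 := fun h2 => by
    have := h1 j
    rw [h2, zero_mul] at this
    exact mul_ne_zero hc.ne_zero hj this
  refine ⟨c t' / c t, (div_ne_zero h2 hc.ne_zero).isUnit, funext fun l => ?_⟩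
  rw [Pi.smul_apply, smul_eq_mul, div_mul_eq_mul_div, ← h1, mul_div_cancel_left₀ _ hc.ne_zero]

end Desc

section Mod

variable {Ω : Type} [Field Ω] {R : ValuationSubring ℂ} {r : R →+* Ω} {σ : Type} [Fintype σ]
  {g : ℕ} (X : Model r σ g) {T ι : Type} [Fintype ι]

theorem isUnit_of_red (hr : Surjective r) {a : R} (h : r a ≠ 0) : IsUnit a := by
  by_contra hn
  have h1 := IsLocalRing.eq_maximalIdeal (RingHom.ker_isMaximal_of_surjective r hr)
  have h2 : a ∈ IsLocalRing.maximalIdeal R := hn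
  rw [← h1] at h2
  exact h h2

theorem red_ne (v : Fin g → ℂ) : (fun l => r (X.x v l)) ≠ 0 := fun h => by
  obtain ⟨c, -, hc⟩ := X.hred v
  rw [h, smul_zero] at hc
  exact X.sp.ne _ hc

theorem prim (hr : Surjective r) (v : Fin g → ℂ) : ∃ l, IsUnit (X.x v l) := by
  obtain ⟨l, hl⟩ := Function.ne_iff.1 (red_ne X v)
  exact ⟨l, isUnit_of_red hr hl⟩

theorem prod_two {K U : Type} [CommRing K] (A B : Submodule K (U → K)) :
    ∏ i, (![A, B] : Fin 2 → _) i ^ (![2, 2] : Fin 2 → ℕ) i = A ^ 2 * B ^ 2 := by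
  simp [Fin.prod_univ_two]

theorem rg_add2 (hr : Surjective r) : Rg ![crd fun t : (Fin g → ℂ) × (Fin g → ℂ) => X.x t.1,
    crd fun t => X.x t.2] (crd fun t => X.x (t.1 + t.2)) := by
  obtain ⟨c, hc, h⟩ := X.law
  refine rg_of_gen fun t => ?_
  obtain ⟨j, hj⟩ := prim X hr (t.1 - t.2)
  refine ⟨![2, 2], c * fun t => X.x (t.1 - t.2) j, (hc t).mul hj, fun l => ?_⟩
  rw [prod_two, mul_assoc, mul_comm (fun t : _ × _ => X.x (t.1 - t.2) j)]
  exact h l j

theorem rg_sub2 (hr : Surjective r) : Rg ![crd fun t : (Fin g → ℂ) × (Fin g → ℂ) => X.x t.1,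
    crd fun t => X.x t.2] (crd fun t => X.x (t.1 - t.2)) := by
  obtain ⟨c, hc, h⟩ := X.law
  refine rg_of_gen fun t => ?_
  obtain ⟨j, hj⟩ := prim X hr (t.1 + t.2)
  refine ⟨![2, 2], c * fun t => X.x (t.1 + t.2) j, (hc t).mul hj, fun l => ?_⟩
  rw [prod_two, mul_assoc]
  exact h j l

variable {L : ι → Submodule R (T → R)} {j j' : T → Fin g → ℂ}

theorem rg_add (hr : Surjective r) (h : Rg L (crd fun t => X.x (j t)))
    (h' : Rg L (crd fun t => X.x (j' t))) : Rg L (crd fun t => X.x (j t + j' t)) :=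
  rg_comp2 (f := fun t => t.1 + t.2) (rg_add2 X hr) h h'

theorem rg_sub (hr : Surjective r) (h : Rg L (crd fun t => X.x (j t)))
    (h' : Rg L (crd fun t => X.x (j' t))) : Rg L (crd fun t => X.x (j t - j' t)) :=
  rg_comp2 (f := fun t => t.1 - t.2) (rg_sub2 X hr) h h'

theorem rg_mul {a : Fin g → ℂ} (ha : a ∈ En X.Λ) (h : Rg L (crd fun t => X.x (j t))) :
    Rg L (crd fun t => X.x (a * j t)) := Mor_comp (X.reg a ha) h

theorem rg_sum (hr : Surjective r) {J : Type} (s : Finset J) {f : J → T → Fin g → ℂ}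
    (h : ∀ k ∈ s, Rg L (crd fun t => X.x (f k t))) :
    Rg L (crd fun t => X.x (∑ k ∈ s, f k t)) := by
  classical
  induction s using Finset.induction_on with
  | empty => simpa using rg_const L (X.x 0)
  | insert a s ha ih =>
    simp only [Finset.sum_insert ha]
    exact rg_add X hr (h a (Finset.mem_insert_self _ _))
      (ih fun k hk => h k (Finset.mem_insert_of_mem hk))

/-- rows are regular over the valuation ring -/
theorem rg_row (hr : Surjective r) {J : Type} [Fintype J] {a : J → Fin g → ℂ}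
    (ha : ∀ k, a k ∈ En X.Λ) {f : J → T → Fin g → ℂ}
    (h : ∀ k, Rg L (crd fun t => X.x (f k t))) :
    Rg L (crd fun t => X.x (∑ k, a k * f k t)) :=
  rg_sum X hr _ fun k _ => rg_mul X (ha k) (h k)

theorem sub_x : ∃ μ : (Fin g → ℂ) → Ω, (∀ t, IsUnit (μ t)) ∧
    Sub r X.red μ (crd X.x) (crd X.p) := Sub.crd X.hred

theorem red_mul_congr {a : Fin g → ℂ} (ha : a ∈ En X.Λ) {v w : Fin g → ℂ}
    (h : X.red v = X.red w) : X.red (a * v) = X.red (a * w) := by
  have h1 := red_desc (L := ![crd X.x]) (L' := ![crd X.p])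
    (fun i => by rw [Subsingleton.elim i 0]; exact sub_x X) (X.reg a ha) h (red_ne X _)
  exact X.inj _ _ (Par.trans (X.hred _) (Par.trans h1 (Par.symm (X.hred _))))

/-- the reduction of the endomorphism `a` -/
def act (a : Fin g → ℂ) (b : X.B) : X.B := X.red (a * surjInv X.onto b)

theorem act_red {a : Fin g → ℂ} (ha : a ∈ En X.Λ) (v : Fin g → ℂ) :
    act X a (X.red v) = X.red (a * v) := red_mul_congr X ha (surjInv_eq X.onto _)

theorem mor_act {a : Fin g → ℂ} (ha : a ∈ En X.Λ) : Mor X.p X.p (act X a) :=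
  rg_red X.onto (L := ![crd X.x]) (fun i => by rw [Subsingleton.elim i 0]; exact sub_x X)
    (X.reg a ha) fun t => by rw [act_red X ha]; exact X.hred _

/-- the ring of diagonal endomorphisms -/
def EnR (Λ : Submodule ℤ (Fin g → ℂ)) : Subring (Fin g → ℂ) where
  carrier := En Λ
  mul_mem' ha hb l hl := by rw [mul_assoc]; exact ha _ (hb l hl)
  one_mem' l hl := by rwa [one_mul]
  add_mem' ha hb l hl := by rw [add_mul]; exact Λ.add_mem (ha l hl) (hb l hl)
  zero_mem' l _ := by rw [zero_mul]; exact Λ.zero_mem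
  neg_mem' ha l hl := by rw [neg_mul]; exact Λ.neg_mem (ha l hl)

/-- the special fibre is a module over the endomorphism ring -/
@[reducible] def actMod : Module (EnR X.Λ) X.B :=
  letI : SMul (EnR X.Λ) X.B := ⟨fun a b => act X a b⟩
  Module.ofMinimalAxioms
    (fun a x y => by
      obtain ⟨v, rfl⟩ := X.onto x
      obtain ⟨w, rfl⟩ := X.onto y
      change act X a _ = act X a _ + act X a _
      rw [← map_add, act_red X a.2, act_red X a.2, act_red X a.2, mul_add, map_add])
    (fun a b x => by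
      obtain ⟨v, rfl⟩ := X.onto x
      change act X (a + b : EnR X.Λ) _ = act X a _ + act X b _
      rw [act_red X (a + b).2, act_red X a.2, act_red X b.2, ← map_add, ← add_mul]
      rfl)
    (fun a b x => by
      obtain ⟨v, rfl⟩ := X.onto x
      change act X (a * b : EnR X.Λ) _ = act X a (act X b _)
      rw [act_red X (a * b).2, act_red X b.2, act_red X a.2, ← mul_assoc]
      rfl)
    (fun x => by
      obtain ⟨v, rfl⟩ := X.onto x
      change act X (1 : EnR X.Λ) _ = _
      rw [act_red X (1 : EnR X.Λ).2]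
      exact congrArg X.red (one_mul v))

end Mod

end Pool.Agent.Tav.Tr
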