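import Pool.Agent.P.MP_2ce3e7_ag.Tav.CUni
import Pool.Agent.P.MP_2ce3e7_ag.Tav.CEmb
import Pool.Agent.P.MP_2ce3e7_ag.Tav.SMod
import Pool.Agent.P.MP_e12fcd_ag.Cmh.Osg

/-! The complex fibre of a model and of a product of models. -/

set_option autoImplicit false

noncomputable section

namespace Pool.Agent.Tav

open MvPolynomial Module Set Function Filter Topology
open Pool.Agent.Weil
open Pool.Agent.TateX (ZS)

section Gen
variable {V : Type} [NormedAddCommGroup V] [NormedSpace ℂ V] {σ ι : Type} [Fintype σ]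
  {β : σ → ι} {u : V → σ → ℂ}

theorem Emb.toImm {L : AddSubgroup V} (h : Emb L β u) : Imm β u :=
  ⟨fun v _ => h.an v, h.ne, fun x dx t ht => h.imm x dx t (funext ht)⟩

theorem an_eval (h : AnalyticOnNhd ℂ u univ) (f : MvPolynomial σ ℂ) :
    AnalyticOnNhd ℂ (fun x => eval (u x) f) univ := fun x _ =>
  (TateX.analytic_eval f (u x)).comp (h x trivial)

theorem eval_mul_zero (h : AnalyticOnNhd ℂ u univ) {f g : MvPolynomial σ ℂ}
    (h0 : ∀ x, eval (u x) (f * g) = 0) : (∀ x, eval (u x) f = 0) ∨ ∀ x, eval (u x) g = 0 := by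
  refine or_iff_not_imp_left.2 fun hf x => ?_
  obtain ⟨y, hy⟩ := not_forall.1 hf
  refine (an_eval h g).eqOn_zero_of_preconnected_of_eventuallyEq_zero isPreconnected_univ
    (mem_univ y) ?_ (mem_univ x)
  filter_upwards [(an_eval h f y trivial).continuousAt.eventually_ne hy] with z hz
  exact (mul_eq_zero.1 ((map_mul _ _ _).symm.trans (h0 z))).resolve_left hz

variable [DecidableEq ι]

omit [NormedAddCommGroup V] [NormedSpace ℂ V] [Fintype σ] in
theorem mem_kerG_pt {K : Type} [Field K] {x : V → σ → K} {f : MvPolynomial σ K} {d : ι → ℕ}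
    (hf : f ∈ Sd K β d) : f ∈ kerG K β (fun a v => x v a) ↔ ∀ v, eval (x v) f = 0 := by
  rw [mem_kerG hf, funext_iff]
  exact forall_congr' fun v => by rw [Tr.aeval_pt]; rfl

/-- a closed immersive image is uniformised, with the ideal of the forms that vanish on it -/
theorem Imm.unif [Fintype ι] (h : Imm β u)
    (cl : ∀ w : σ → ℂ, NzB β w → (∀ d, ∀ f ∈ Sd ℂ β d, (∀ x, eval (u x) f = 0) → eval w f = 0) →
      ∃ x t, w = bsm β t (u x)) : Unif β (kerG ℂ β fun a v => u v a) u := by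
  have hm : ∀ x, u x ∈ ZS (kerG ℂ β fun a v => u v a) := fun x f hf =>
    (Tr.aeval_pt u f x).symm.trans (congrFun (aeval_of_mem_kerG hf) x)
  refine ⟨h, ?_, grJ_kerG _, hm, fun w hw h0 =>
    cl w h0 fun d f hf h1 => hw f ((mem_kerG_pt hf).2 h1)⟩
  refine Pr.Hom.isPrime (w := wN β) (fun f hf d => grJ_kerG _ d f hf) (fun e => ?_)
    fun d e f g hf hg hfg => ?_
  · simpa using hm 0 1 (e ▸ trivial)
  · exact (eval_mul_zero h.an fun x => hm x _ hfg).imp (mem_kerG_pt hf).2 (mem_kerG_pt hg).2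

theorem Unif.eq_kerG [Fintype ι] [FiniteDimensional ℂ V] {p : Ideal (MvPolynomial σ ℂ)}
    (h : Unif β p u) {d : ι → ℕ} {f : MvPolynomial σ ℂ} (hf : f ∈ Sd ℂ β d) :
    f ∈ p ↔ f ∈ kerG ℂ β fun a v => u v a := (h.mem_iff hf).trans (mem_kerG_pt hf).symm

end Gen

section Idl
variable {K T σ : Type} [Field K] {p : T → σ → K}

theorem mem_idl {f : MvPolynomial σ K} : f ∈ idl p ↔ ∀ (c : K) t, eval (c • p t) f = 0 :=
  ⟨fun h c t => h _ ⟨c, t, rfl⟩, fun h _ ⟨c, t, e⟩ => e ▸ h c t⟩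

theorem zeroLocus_eq (J : Ideal (MvPolynomial σ K)) : zeroLocus K J = ZS J := rfl

theorem mem_ZS_idl (t : T) : p t ∈ ZS (idl p) := fun _ hf => one_smul K (p t) ▸ mem_idl.1 hf 1 t

theorem idl_par {q : T → σ → K} (h : ∀ t, Par (q t) (p t)) : idl q = idl p := by
  have key : ∀ {p q : T → σ → K}, (∀ t, Par (q t) (p t)) → idl p ≤ idl q := fun h f hf =>
    mem_idl.2 fun c t => by
      obtain ⟨a, -, e⟩ := h t
      rw [e, smul_smul]
      exact mem_idl.1 hf _ t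
  exact le_antisymm (key fun t => Tr.Par.symm (h t)) (key h)

variable [Fintype σ] {ι : Type} [Fintype ι] [DecidableEq ι] {β : σ → ι}

theorem mem_idl_form [Unique ι] {f : MvPolynomial σ K} {d : ι → ℕ} (hf : f ∈ Sd K β d) :
    f ∈ idl p ↔ ∀ t, eval (p t) f = 0 :=
  ⟨fun h t => mem_ZS_idl t f h, fun h => mem_idl.2 fun c t =>
    (eval_tor hf (fun _ => c) (p t)).trans (by rw [h, mul_zero])⟩

omit [Fintype σ] in
theorem grJ_idl [Unique ι] {p : T → σ → ℂ} : GrJ β (idl p) :=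
  grJ_vanishing fun t _ _ ⟨c, s, e⟩ => ⟨t default * c, s, funext fun a => by
    rw [e, bsm, Subsingleton.elim (β a) default, Pi.smul_apply, Pi.smul_apply, smul_eq_mul,
      smul_eq_mul, mul_assoc]⟩

end Idl

section Mod
variable {Ω : Type} [Field Ω] {R : ValuationSubring ℂ} {r : R →+* Ω} {σ : Type} [Fintype σ] {g : ℕ}
  (X : Model r σ g)

theorem Model.isLat : IsLat X.Λ.toAddSubgroup := by
  have := X.lat
  exact isLat_of_zlattice X.Λ

theorem Model.parC (hr : Surjective r) (v w : Fin g → ℂ) :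
    (Par (fun l => (X.x v l : ℂ)) fun l => (X.x w l : ℂ)) ↔ v - w ∈ X.Λ := by
  rw [← X.ker]
  refine ⟨fun ⟨c, _, e⟩ => ?_, fun h => Tr.Par.map h R.subtype⟩
  obtain ⟨l, a, ha⟩ := Tr.prim X hr w
  obtain ⟨l', hl'⟩ := Tr.prim X hr v
  have h1 : ((X.x v l * (a⁻¹ : Rˣ) : R) : ℂ) = c := by
    have h2 : ((a : R) : ℂ) * (((a⁻¹ : Rˣ) : R) : ℂ) = 1 :=
      congrArg (fun z : R => (z : ℂ)) a.mul_inv
    have h3 : (X.x v l : ℂ) = c * X.x w l := congrFun e l
    rw [MulMemClass.coe_mul, h3, ← ha, mul_assoc, h2, mul_one]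
  have h4 : X.x v = (X.x v l * (a⁻¹ : Rˣ) : R) • X.x w := funext fun k => Subtype.ext (by
    rw [Pi.smul_apply, smul_eq_mul, MulMemClass.coe_mul, h1]
    exact congrFun e k)
  refine ⟨_, ?_, h4⟩
  rw [h4] at hl'
  exact isUnit_of_mul_isUnit_left hl'

/-- a holomorphic lift of the points of the complex fibre -/
structure Model.Hol (φ : (Fin g → ℂ) → σ → ℂ) : Prop where
  par : ∀ v, Par (φ v) fun l => (X.x v l : ℂ)
  an : ∀ v, AnalyticAt ℂ φ v
  ne : ∀ v, φ v ≠ 0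
  sep : ∀ v w, (∃ c : ℂ, φ v = c • φ w) ↔ v - w ∈ X.Λ
  imm : ∀ v w (c : ℂ), fderiv ℂ φ v w = c • φ v → w = 0
  cl : ∀ z ∈ ZS (idl φ), z ≠ 0 → ∃ (v : Fin g → ℂ) (c : ℂ), z = c • φ v

theorem Model.exists_hol (hr : Surjective r) : ∃ φ, X.Hol φ := by
  obtain ⟨φ, h1, h2, h3⟩ := X.hol
  have h0 : ∀ v, φ v ≠ 0 := fun v e => by
    obtain ⟨c, -, hc⟩ := Tr.Par.symm (h2 v)
    exact X.gen.ne v (by rw [hc, e, smul_zero])
  refine ⟨φ, h2, fun v => ?_, h0, fun v w => ?_, h3, fun z hz hz0 => ?_⟩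
  · exact Cmh.Osg.an_of_diffOn_pi isOpen_univ h1.differentiableOn v trivial
  · rw [← X.parC hr]
    refine ⟨fun ⟨c, e⟩ => Tr.Par.trans (Tr.Par.symm (h2 v)) (Tr.Par.trans ⟨c, ?_, e⟩ (h2 w)),
      fun h => ?_⟩
    · exact IsUnit.mk0 c fun hc => h0 v (by rw [e, hc, zero_smul])
    · obtain ⟨c, -, e⟩ := Tr.Par.trans (h2 v) (Tr.Par.trans h (Tr.Par.symm (h2 w)))
      exact ⟨c, e⟩
  · rw [idl_par h2] at hz
    obtain ⟨v, hv⟩ := X.gen.cl z hz hz0
    obtain ⟨c, -, e⟩ := Tr.Par.trans hv (Tr.Par.symm (h2 v))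
    exact ⟨v, c, e⟩

variable {X} {φ : (Fin g → ℂ) → σ → ℂ} {ι : Type}

theorem Model.Hol.idl_eq (h : X.Hol φ) : idl φ = idl fun v l => (X.x v l : ℂ) := idl_par h.par

theorem Model.Hol.emb [Unique ι] (h : X.Hol φ) (β : σ → ι) : Emb X.Λ.toAddSubgroup β φ := by
  have e : ∀ (t : ι → ℂ) (x : σ → ℂ), bsm β t x = t default • x := fun t x => funext fun a => by
    rw [bsm, Subsingleton.elim (β a) default]; rfl
  refine ⟨h.an, fun v i => ?_, fun v w => ?_, fun v dv t ht => h.imm v dv _ (ht.trans (e _ _))⟩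
  · obtain ⟨a, ha⟩ := ne_iff.1 (h.ne v)
    exact ⟨a, Subsingleton.elim _ _, ha⟩
  · exact Iff.trans ⟨fun ⟨t, ht⟩ => ⟨_, ht.trans (e _ _)⟩, fun ⟨c, hc⟩ => ⟨fun _ => c, hc⟩⟩
      (h.sep v w)

theorem Model.Hol.unif [Unique ι] [Fintype ι] [DecidableEq ι] (h : X.Hol φ) (β : σ → ι) :
    Unif β (idl φ) φ :=
  unif_one (h.emb β).toImm (h.idl_eq ▸ X.gen.irr) grJ_idl mem_ZS_idl h.cl

/-- regularity over the valuation ring gives regularity for the holomorphic lift -/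
theorem rg_hol {T κ τ : Type} [Fintype κ] {s : κ → Type} {x : ∀ k, T → s k → R} {y : T → τ → R}
    (h : Rg (fun k => crd (x k)) (crd y)) {x' : ∀ k, T → s k → ℂ} {y' : T → τ → ℂ}
    (hx : ∀ k t, Par (x' k t) fun l => (x k t l : ℂ)) (hy : ∀ t, Par (y' t) fun l => (y t l : ℂ)) :
    Rg (fun k => crd (x' k)) (crd y') :=
  Tr.rg_red (r := R.subtype) (red := id) surjective_id (fun k => Tr.Sub.crd (hx k)) h hy

end Mod

section Fam
variable {Ω : Type} [Field Ω] {R : ValuationSubring ℂ} {r : R →+* Ω} {I : Type} [Fintype I]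
  {σ : I → Type} [∀ i, Fintype (σ i)] {g : I → ℕ} {X : ∀ i, Model r (σ i) (g i)}
  {φ : ∀ i, (Fin (g i) → ℂ) → σ i → ℂ}

/-- the product of the lifts -/
def piU (φ : ∀ i, (Fin (g i) → ℂ) → σ i → ℂ) (v : ∀ i, Fin (g i) → ℂ) (a : Σ i, σ i) : ℂ :=
  φ a.1 (v a.1) a.2

/-- the product of the lattices -/
def piL (X : ∀ i, Model r (σ i) (g i)) : AddSubgroup (∀ i, Fin (g i) → ℂ) :=
  AddSubgroup.pi univ fun i => (X i).Λ.toAddSubgroup

omit [Fintype I] in
theorem mem_piL {v : ∀ i, Fin (g i) → ℂ} : v ∈ piL X ↔ ∀ i, v i ∈ (X i).Λ :=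
  ⟨fun h i => h i trivial, fun h i _ => h i⟩

theorem isLat_piL : IsLat (piL X) := by
  classical
  choose n b hb using fun i => (X i).isLat.exists_basis
  refine isLat_of_basis (Pi.basis b) fun v => mem_piL.trans ?_
  simp only [Pi.basis_repr, Sigma.forall]
  exact forall_congr' fun i => hb i (v i)

theorem fderiv_piU (h : ∀ i, (X i).Hol (φ i)) (v dv : ∀ i, Fin (g i) → ℂ) (a : Σ i, σ i) :
    AnalyticAt ℂ (piU φ) v ∧ fderiv ℂ (piU φ) v dv a = fderiv ℂ (φ a.1) (v a.1) (dv a.1) a.2 := by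
  have h1 : AnalyticAt ℂ (piU φ) v := analyticAt_pi_iff.2 fun a => analyticAt_pi_iff.1
    (AnalyticAt.comp (f := fun w : ∀ i, Fin (g i) → ℂ => w a.1) ((h a.1).an (v a.1))
      (analyticAt_pi_iff.1 analyticAt_id a.1)) a.2
  have h2 := hasFDerivAt_pi'.1 (((h a.1).an (v a.1)).differentiableAt.hasFDerivAt.comp v
    (hasFDerivAt_apply (𝕜 := ℂ) a.1 v)) a.2
  exact ⟨h1, congrArg (fun L => L dv)
    ((hasFDerivAt_pi'.1 h1.differentiableAt.hasFDerivAt a).unique h2)⟩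

theorem emb_piU (h : ∀ i, (X i).Hol (φ i)) : Emb (piL X) Sigma.fst (piU φ) := by
  refine ⟨fun v => analyticAt_pi_iff.2 fun a => analyticAt_pi_iff.1 (fderiv_piU h v 0 a).1 a,
    fun v i => ?_, fun v w => ?_, fun v dv t ht => funext fun i => ?_⟩
  · obtain ⟨a, ha⟩ := ne_iff.1 ((h i).ne (v i))
    exact ⟨⟨i, a⟩, rfl, ha⟩
  · refine Iff.trans ⟨fun ⟨t, ht⟩ i => ((h i).sep _ _).1 ⟨t i, funext fun a => congrFun ht ⟨i, a⟩⟩,
      fun h1 => ?_⟩ (mem_piL (X := X) (v := v - w)).symm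
    choose t ht using fun i => ((h i).sep (v i) (w i)).2 (h1 i)
    exact ⟨t, funext fun a => congrFun (ht a.1) a.2⟩
  · exact (h i).imm (v i) (dv i) (t i) (funext fun a =>
      (fderiv_piU h v dv ⟨i, a⟩).2.symm.trans (congrFun ht ⟨i, a⟩))

variable [DecidableEq I]

omit [Fintype I] in
theorem cl_piU (h : ∀ i, (X i).Hol (φ i)) (w : (Σ i, σ i) → ℂ) (h0 : NzB Sigma.fst w)
    (hw : ∀ d, ∀ f ∈ Sd ℂ Sigma.fst d, (∀ x, eval (piU φ x) f = 0) → eval w f = 0) :
    ∃ x t, w = bsm Sigma.fst t (piU φ x) := by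
  have key : ∀ i, ∃ (v : Fin (g i) → ℂ) (c : ℂ), (fun a => w ⟨i, a⟩) = c • φ i v := fun i => by
    refine (h i).cl _ (fun f hf => ?_) fun e => ?_
    · rw [← sum_weightedHomogeneousComponent (wN fun _ : σ i => ()) f,
        map_finsum _ (weightedHomogeneousComponent_finsupp f)]
      refine finsum_eq_zero_of_forall_eq_zero fun d => ?_
      have h1 := weightedHomogeneousComponent_mem (wN fun _ : σ i => ()) f d
      have h2 := grJ_idl (β := fun _ : σ i => ()) d f hf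
      generalize weightedHomogeneousComponent (wN fun _ : σ i => ()) d f = q at h1 h2 ⊢
      have h3 : rename (Sigma.mk i) q ∈ Sd ℂ (Sigma.fst : (Σ i, σ i) → I) (Pi.single i (d ())) := by
        intro s hs
        obtain ⟨t, rfl, ht⟩ := coeff_rename_ne_zero _ _ _ hs
        rw [← h1 ht]
        clear * -
        induction t using Finsupp.induction_linear with
        | zero => simp
        | add a b ha hb => rw [Finsupp.mapDomain_add, map_add, map_add, ha, hb, Pi.add_apply,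
            Pi.single_add]
        | single a k => simp [Finsupp.weight_single, wN, ← Pi.single_smul]
      have h4 := hw _ _ h3 fun x => by
        rw [eval_rename]
        exact mem_ZS_idl (p := φ i) (x i) q h2
      rw [eval_rename] at h4
      exact h4
    · obtain ⟨⟨j, a⟩, rfl, ha⟩ := h0 i
      exact ha (congrFun e a)
  choose v c hc using key
  exact ⟨v, c, funext fun a => congrFun (hc a.1) a.2⟩

theorem unif_piU (h : ∀ i, (X i).Hol (φ i)) :
    Unif Sigma.fst (kerG ℂ Sigma.fst fun a v => piU φ v a) (piU φ) :=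
  (emb_piU h).toImm.unif (cl_piU h)

end Fam

end Pool.Agent.Tav
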