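import Pool.Agent.P.MP_2ce3e7_ag.Tav.CMod
import Pool.Agent.P.MP_2ce3e7_ag.Tav.Defs

/-! A uniformised fibre is an embedded torus. -/

set_option autoImplicit false

noncomputable section

namespace Pool.Agent.Tav

open MvPolynomial Module Set Function MeasureTheory
open Pool.Agent.Weil
open Pool.Agent.TateX (ZS)

section
variable {K σ β : Type} [Field K] {w : σ → β} {x y z : σ → K}

theorem bpar_refl (x : σ → K) : BPar w x x := ⟨1, fun _ => one_ne_zero, fun _ => (one_mul _).symm⟩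

theorem bpar_symm (h : BPar w x y) : BPar w y x := by
  obtain ⟨c, h0, h1⟩ := h
  exact ⟨c⁻¹, fun b => inv_ne_zero (h0 b), fun l => by
    rw [h1, Pi.inv_apply, inv_mul_cancel_left₀ (h0 _)]⟩

theorem bpar_trans (h : BPar w x y) (h' : BPar w y z) : BPar w x z := by
  obtain ⟨c, h0, h1⟩ := h
  obtain ⟨c', h0', h1'⟩ := h'
  exact ⟨c * c', fun b => mul_ne_zero (h0 b) (h0' b), fun l => by
    rw [h1, h1', Pi.mul_apply, mul_assoc]⟩

theorem bpar_nz (h : BPar w x y) (hy : ∀ b, ∃ v, w v = b ∧ y v ≠ 0) (b : β) :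
    ∃ v, w v = b ∧ x v ≠ 0 := by
  obtain ⟨c, h0, h1⟩ := h
  exact (hy b).imp fun v hv => ⟨hv.1, h1 v ▸ mul_ne_zero (h0 _) hv.2⟩

theorem bpar_eval [Fintype σ] [Fintype β] [DecidableEq β] (h : BPar w x y) {f : MvPolynomial σ K}
    {d : β → ℕ} (hf : f ∈ Sd K w d) : eval x f = 0 ↔ eval y f = 0 := by
  obtain ⟨c, h0, h1⟩ := h
  rw [funext h1, eval_tor hf, mul_eq_zero,
    or_iff_right (Finset.prod_ne_zero_iff.2 fun i _ => pow_ne_zero _ (h0 i))]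

end

variable {s : Sh} {C : Fib ℂ s} (T : Tor C)

theorem Tor.isLat : IsLat T.Λ.toAddSubgroup := isLat_of_zlattice T.Λ

theorem Tor.nz (v : T.V) : NzB s.w (T.φ v) := bpar_nz (T.hφ v) (C.hx _)

theorem Tor.emb : Emb T.Λ.toAddSubgroup s.w T.φ := by
  refine ⟨fun v => Cmh.Osg.an_of_diffOn_pi isOpen_univ T.hol.differentiableOn v trivial, T.nz,
    fun v v' => Iff.trans ⟨fun ⟨t, ht⟩ => ⟨t, NzB.ne (ht ▸ T.nz v), congrFun ht⟩,
      fun ⟨t, _, ht⟩ => ⟨t, funext ht⟩⟩ (T.ker v v'), fun v dv t ht => T.imm v dv t (congrFun ht)⟩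

theorem Tor.kerx (v v' : T.V) : BPar s.w (C.x (T.u v)) (C.x (T.u v')) ↔ v - v' ∈ T.Λ :=
  Iff.trans ⟨fun h => bpar_trans (T.hφ v) (bpar_trans h (bpar_symm (T.hφ v'))),
    fun h => bpar_trans (bpar_symm (T.hφ v)) (bpar_trans h (T.hφ v'))⟩ (T.ker v v')

theorem Tor.vanish {f : MvPolynomial s.σ ℂ} {d : s.β → ℕ} (hf : f ∈ Sd ℂ s.w d) :
    (∀ v, eval (T.φ v) f = 0) ↔ ∀ t, eval (C.x t) f = 0 :=
  ⟨fun h t => by
    obtain ⟨v, rfl⟩ := T.u.surjective t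
    exact (bpar_eval (T.hφ v) hf).1 (h v), fun h v => (bpar_eval (T.hφ v) hf).2 (h _)⟩

theorem Tor.unif : Unif s.w (kerG ℂ s.w fun a v => T.φ v a) T.φ :=
  T.emb.toImm.unif fun y h0 hy => by
    obtain ⟨t, ht⟩ := C.cl y h0 fun d f hf h => hy d f hf ((T.vanish hf).2 h)
    obtain ⟨v, rfl⟩ := T.u.surjective t
    obtain ⟨c, -, hc⟩ := bpar_trans ht (bpar_symm (T.hφ v))
    exact ⟨v, c, funext hc⟩

/-- a form that does not vanish on the fibre vanishes on a thin set -/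
theorem Tor.thin_form {f : MvPolynomial s.σ ℂ} {d : s.β → ℕ} (hf : f ∈ Sd ℂ s.w d)
    (h0 : ∃ t, eval (C.x t) f ≠ 0) : Thin (finrank ℂ T.V) {v | eval (C.x (T.u v)) f = 0} := by
  obtain ⟨t, ht⟩ := h0
  exact (T.unif.thin_form hf fun h => ht ((T.vanish hf).1 ((mem_kerG_pt hf).1 h) t)).mono
    (fun v hv => (bpar_eval (T.hφ v) hf).2 hv) le_rfl

theorem Tor.ae_form [MeasurableSpace T.V] [BorelSpace T.V] (μ : Measure T.V) [μ.IsAddHaarMeasure]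
    {f : MvPolynomial s.σ ℂ} {d : s.β → ℕ} (hf : f ∈ Sd ℂ s.w d)
    (h0 : ∃ t, eval (C.x t) f ≠ 0) : ∀ᵐ v ∂μ, eval (C.x (T.u v)) f ≠ 0 := by
  simpa [ae_iff] using (T.thin_form hf h0).measure_zero μ

end Pool.Agent.Tav
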