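import Pool.Agent.P.MP_2ce3e7_ag.Tav.CDim

/-! Dimension of complex cones and of a uniformised variety. -/

set_option autoImplicit false

noncomputable section

namespace Pool.Agent.Tav

open MvPolynomial Module Set MeasureTheory
open Pool.Agent.Weil
open Pool.Agent.TateX (ZS MaxInd extc exists_maxInd strat_exists_pt strat_lt_sup strat_mem_sup)

section Tor

variable {K σ ι : Type} [Field K] [Fintype σ] [Fintype ι] [DecidableEq ι] {β : σ → ι}

theorem eval_tor {f : MvPolynomial σ K} {d : ι → ℕ} (hf : f ∈ Sd K β d) (l : ι → K) (w : σ → K) :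
    eval (fun v => l (β v) * w v) f = (∏ i, l i ^ d i) * eval w f := by
  rw [eval_eq', eval_eq', Finset.mul_sum]
  refine Finset.sum_congr rfl fun s hs => ?_
  have h1 : Finsupp.weight (wN β) s = d := hf (mem_support_iff.1 hs)
  have h2 : ∏ i, l i ^ d i = ∏ v, l (β v) ^ s v := by
    rw [← Finset.prod_fiberwise Finset.univ β]
    refine Finset.prod_congr rfl fun i _ => ?_
    rw [← h1, weight_wN, ← Finset.prod_pow_eq_pow_sum]
    exact Finset.prod_congr rfl fun v hv => by rw [(Finset.mem_filter.1 hv).2]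
  simp only [h2, mul_pow, Finset.prod_mul_distrib]
  ring

theorem GrJ.tor {J : Ideal (MvPolynomial σ K)} (hJ : GrJ β J) {w : σ → K} (hw : w ∈ ZS J)
    (l : ι → K) : (fun v => l (β v) * w v) ∈ ZS J := fun f hf => by
  rw [← sum_weightedHomogeneousComponent (wN β) f,
    map_finsum _ (weightedHomogeneousComponent_finsupp f)]
  refine finsum_eq_zero_of_forall_eq_zero fun d => ?_
  rw [eval_tor (weightedHomogeneousComponent_mem (wN β) f d), hw _ (hJ d f hf), mul_zero]

end Tor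

variable {σ ι : Type} [Fintype σ] [Fintype ι] [DecidableEq ι] {β : σ → ι}
  {J p : Ideal (MvPolynomial σ ℂ)}

theorem maxInd_not_thin (hp : p.IsPrime) {U : Finset σ} (hU : MaxInd p U) :
    ¬ Thin U.card (ZS p) := by
  obtain ⟨f, hf, hs⟩ := hU.smo hp
  obtain ⟨x, hx, hx0⟩ := strat_exists_pt hp hf
  have := U.card_le_univ
  exact (hs x hx0).not_thin (by omega) hx

theorem card_lt_of_thin (hp : p.IsPrime) {U : Finset σ} (hU : MaxInd p U) {h : MvPolynomial σ ℂ}
    (hh : h ∉ p) {m : ℕ} (ht : Thin m {x | x ∈ ZS p ∧ eval x h ≠ 0}) : U.card < m := by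
  by_contra hc
  refine maxInd_not_thin hp hU (((ht.mono subset_rfl (not_lt.1 hc)).union
    (hU.thin_of_lt hp (strat_lt_sup hh))).mono (fun x hx => ?_) le_rfl)
  by_cases h0 : eval x h = 0
  · exact Or.inr (strat_mem_sup hx h0)
  · exact Or.inl ⟨hx, h0⟩

theorem dimLt_of_thin {m : ℕ} (ht : Thin m (ZS J)) : DimLt J m := fun _ hq hl _ hU =>
  not_le.1 fun hc => maxInd_not_thin hq hU (ht.mono (fun _ hx f hf => hx f (hl hf)) hc)

/-- a thin zero set bounds the degree of the Hilbert polynomial -/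
theorem dg_of_thin (hJ : GrJ β J) {m : ℕ} (ht : Thin m (ZS J)) :
    Dg (pI β J) ((m : ℤ) - 1 - Fintype.card ι) := dg_of_dimLt m J hJ (dimLt_of_thin ht)

/-- the same for a prime, from the points with nonzero blocks -/
theorem dg_of_thin_nz (hp : p.IsPrime) (hg : GrJ β p) {m : ℕ}
    (ht : Thin m {x | x ∈ ZS p ∧ ∀ i, ∃ v, β v = i ∧ x v ≠ 0}) :
    Dg (pI β p) ((m : ℤ) - 1 - Fintype.card ι) := by
  by_cases hr : Rel β p
  swap
  · rw [pI_of_not_rel hr]; exact dg_zero _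
  obtain ⟨U, hU⟩ := exists_maxInd hp.ne_top
  choose v hv hX using hr
  have h1 : (∏ i, X (v i) : MvPolynomial σ ℂ) ∉ p := fun h => by
    obtain ⟨i, -, hi⟩ := (Ideal.IsPrime.prod_mem_iff (hp := hp)).1 h
    exact hX i hi
  have h2 := card_lt_of_thin hp hU h1 (ht.mono (fun x hx => ⟨hx.1, fun i => ⟨v i, hv i, ?_⟩⟩) le_rfl)
  · exact (dg_of_maxInd hg hU).mono (by omega)
  · have h3 := hx.2
    simp only [map_prod, eval_X] at h3
    exact Finset.prod_ne_zero_iff.1 h3 i (Finset.mem_univ i)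

/-- conversely, the degree bounds the dimension of the zero set of a relevant prime -/
theorem thin_of_dg (hp : p.IsPrime) (hg : GrJ β p) (hr : Rel β p) {n : ℕ} (h : Dg (pI β p) n) :
    Thin (n + Fintype.card ι + 1) (ZS p) := by
  obtain ⟨U, hU⟩ := exists_maxInd hp.ne_top
  have := (dg_iff_card hp hg hr hU).1 h
  exact (hU.thin hp).mono subset_rfl (by omega)

variable {V : Type} [NormedAddCommGroup V] [NormedSpace ℂ V] [FiniteDimensional ℂ V]

/-- an entire map that induces an immersion into a product of projective spaces -/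
structure Imm (β : σ → ι) (u : V → σ → ℂ) : Prop where
  an : AnalyticOnNhd ℂ u univ
  ne : ∀ x i, ∃ v, β v = i ∧ u x v ≠ 0
  imm : ∀ (x dx : V) (t : ι → ℂ), (∀ v, fderiv ℂ u x dx v = t (β v) * u x v) → dx = 0

/-- the parametrisation of the cone -/
def cn (β : σ → ι) (u : V → σ → ℂ) (q : V × (ι → ℂ)) : σ → ℂ := fun v => q.2 (β v) * u q.1 v

variable {u : V → σ → ℂ}

omit [DecidableEq ι] [FiniteDimensional ℂ V] in
theorem an_cn (h : AnalyticOnNhd ℂ u univ) : AnalyticOnNhd ℂ (cn β u) univ := fun q _ =>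
  analyticAt_pi_iff.2 fun v => (analyticAt_pi_iff.1 analyticAt_snd (β v)).mul
    (analyticAt_pi_iff.1 ((h q.1 trivial).comp analyticAt_fst) v)

omit [DecidableEq ι] [FiniteDimensional ℂ V] in
theorem fderiv_cn (h : AnalyticOnNhd ℂ u univ) (q dq : V × (ι → ℂ)) (v : σ) :
    fderiv ℂ (cn β u) q dq v = q.2 (β v) * fderiv ℂ u q.1 dq.1 v + u q.1 v * dq.2 (β v) := by
  have h1 := (h q.1 trivial).differentiableAt.hasFDerivAt.comp q hasFDerivAt_fst
  have h2 := (hasFDerivAt_pi'.1 (hasFDerivAt_snd (𝕜 := ℂ) (p := q)) (β v)).mul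
    (hasFDerivAt_pi'.1 h1 v)
  have h3 := hasFDerivAt_pi'.1 (an_cn (β := β) h q trivial).differentiableAt.hasFDerivAt v
  exact congrArg (fun L => L dq) (h3.unique h2)

omit [DecidableEq ι] [FiniteDimensional ℂ V] in
theorem Imm.inj (h : Imm β u) (q : V × (ι → ℂ)) (hq : ∀ i, q.2 i ≠ 0) :
    Function.Injective (fderiv ℂ (cn β u) q) := by
  rw [injective_iff_map_eq_zero]
  rintro ⟨dx, dl⟩ h0
  have h1 : ∀ v, q.2 (β v) * fderiv ℂ u q.1 dx v + u q.1 v * dl (β v) = 0 := fun v =>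
    (fderiv_cn h.an q (dx, dl) v).symm.trans (congrFun h0 v)
  obtain rfl : dx = 0 := h.imm q.1 dx (fun i => -dl i / q.2 i) fun v => by
    have := hq (β v)
    field_simp
    linear_combination h1 v
  refine Prod.ext rfl (funext fun i => ?_)
  obtain ⟨v, rfl, hv⟩ := h.ne q.1 i
  simpa [hv] using h1 v

omit [DecidableEq ι] in
/-- pull-back of a thin cone -/
theorem Imm.thin_pull (h : Imm β u) {A : Set (σ → ℂ)} {m : ℕ} (hA : Thin (m + Fintype.card ι) A) :
    Thin m {x | ∀ l : ι → ℂ, (∀ i, l i ≠ 0) → cn β u (x, l) ∈ A} := by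
  have h1 := hA.preimage_imm (U := {q : V × (ι → ℂ) | ∀ i, q.2 i ≠ 0})
    ((an_cn h.an).mono (subset_univ _)) fun q hq => h.inj q hq
  rw [← finrank_fintype_fun_eq_card ℂ] at h1
  have h2 := h1.slice volume (ContinuousLinearMap.snd ℂ V (ι → ℂ))
  have h3 : IsOpen {l : ι → ℂ | ∀ i, l i ≠ 0} := by
    rw [ofPred_forall]
    exact isOpen_iInter_of_finite fun i => isOpen_ne_fun (continuous_apply i) continuous_const
  obtain ⟨l, hl, h4⟩ := Measure.exists_mem_of_measure_ne_zero_of_ae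
    (h3.measure_ne_zero volume ⟨1, fun _ => one_ne_zero⟩) (ae_restrict_of_ae h2)
  exact (h4.image (g := Prod.fst) fun _ _ => analyticAt_fst).mono
    (fun x hx => ⟨(x, l), ⟨⟨hl, hx l hl⟩, rfl⟩, rfl⟩) le_rfl

theorem Imm.thin_ZS (h : Imm β u) (hJ : GrJ β J) {m : ℕ} (hA : Thin (m + Fintype.card ι) (ZS J)) :
    Thin m {x | u x ∈ ZS J} :=
  (h.thin_pull hA).mono (fun _ hx l _ => hJ.tor hx l) le_rfl

theorem not_thin_univ : ¬ Thin (finrank ℂ V) (univ : Set V) := fun h => by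
  borelize V
  have := FiniteDimensional.complexToReal V
  exact (isOpen_univ.measure_ne_zero (Measure.addHaar : Measure V) univ_nonempty)
    (h.measure_zero _)

/-- the points of the zero set of `p` with nonzero blocks are the cone over `u` -/
structure Unif (β : σ → ι) (p : Ideal (MvPolynomial σ ℂ)) (u : V → σ → ℂ) : Prop
    extends Imm β u where
  prime : p.IsPrime
  gr : GrJ β p
  mem : ∀ x, u x ∈ ZS p
  onto : ∀ w ∈ ZS p, (∀ i, ∃ v, β v = i ∧ w v ≠ 0) → ∃ x l, w = cn β u (x, l)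

omit [Fintype ι] [FiniteDimensional ℂ V] in
theorem Unif.rel (h : Unif β p u) : Rel β p := fun i => by
  obtain ⟨v, hv, h0⟩ := h.ne 0 i
  exact ⟨v, hv, fun hX => h0 (by simpa using h.mem 0 _ hX)⟩

theorem Unif.dg (h : Unif β p u) : Dg (pI β p) (finrank ℂ V) := by
  have h1 := thin_of_param (m := finrank ℂ V + Fintype.card ι + 1) (by simp) (an_cn (β := β) h.an)
  refine (dg_of_thin_nz h.prime h.gr (h1.mono (fun w hw => ?_) le_rfl)).mono (by push_cast; omega)
  obtain ⟨x, l, e⟩ := h.onto w hw.1 hw.2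
  exact ⟨(x, l), trivial, e.symm⟩

theorem Unif.card (h : Unif β p u) {U : Finset σ} (hU : MaxInd p U) :
    U.card = finrank ℂ V + Fintype.card ι := by
  have h1 := (dg_iff_card h.prime h.gr h.rel hU).1 h.dg
  refine le_antisymm (by omega) (not_lt.1 fun hl => not_thin_univ (V := V) ?_)
  exact (h.toImm.thin_ZS h.gr ((hU.thin h.prime).mono subset_rfl hl)).mono
    (fun x _ => h.mem x) le_rfl

theorem Unif.not_dg (h : Unif β p u) : ¬ Dg (pI β p) ((finrank ℂ V : ℤ) - 1) := fun hd => by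
  obtain ⟨U, hU⟩ := exists_maxInd h.prime.ne_top
  have h1 := (dg_iff_card h.prime h.gr h.rel hU).1 hd
  have h2 := h.card hU
  omega

theorem Unif.nc_ne [Subsingleton ι] (i : ι) (h : Unif β p u) :
    nc (Finsupp.single i (finrank ℂ V)) (pI β p) ≠ 0 := nc_single_ne i h.dg h.not_dg

/-- a proper subvariety is thin -/
theorem Unif.thin_lt (h : Unif β p u) (hJ : GrJ β J) (hl : p < J) :
    Thin (finrank ℂ V) {x | u x ∈ ZS J} := by
  obtain ⟨U, hU⟩ := exists_maxInd h.prime.ne_top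
  exact h.toImm.thin_ZS hJ (h.card hU ▸ hU.thin_of_lt h.prime hl)

theorem Unif.thin_form (h : Unif β p u) {f : MvPolynomial σ ℂ} {d : ι → ℕ} (hf : f ∈ Sd ℂ β d)
    (h0 : f ∉ p) : Thin (finrank ℂ V) {x | eval (u x) f = 0} :=
  (h.thin_lt (h.gr.sup_span hf) (strat_lt_sup h0)).mono
    (fun x hx => strat_mem_sup (h.mem x) hx) le_rfl

theorem Unif.null_form [MeasurableSpace V] [BorelSpace V] (μ : Measure V) [μ.IsAddHaarMeasure]
    (h : Unif β p u) {f : MvPolynomial σ ℂ} {d : ι → ℕ} (hf : f ∈ Sd ℂ β d) (h0 : f ∉ p) :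
    μ {x | eval (u x) f = 0} = 0 := (h.thin_form hf h0).measure_zero μ

theorem Unif.ae_forms [MeasurableSpace V] [BorelSpace V] (μ : Measure V) [μ.IsAddHaarMeasure]
    (h : Unif β p u) {N : Type} [Countable N] {f : N → MvPolynomial σ ℂ}
    (hf : ∀ n, ∃ d, f n ∈ Sd ℂ β d) (h0 : ∀ n, f n ∉ p) : ∀ᵐ x ∂μ, ∀ n, eval (u x) (f n) ≠ 0 :=
  ae_all_iff.2 fun n => by
    obtain ⟨d, hd⟩ := hf n
    simpa [ae_iff] using h.null_form μ hd (h0 n)

/-- a form that vanishes on the image lies in the ideal -/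
theorem Unif.mem_iff (h : Unif β p u) {f : MvPolynomial σ ℂ} {d : ι → ℕ} (hf : f ∈ Sd ℂ β d) :
    f ∈ p ↔ ∀ x, eval (u x) f = 0 :=
  ⟨fun h1 x => h.mem x f h1, fun h1 => not_not.1 fun h0 =>
    not_thin_univ ((h.thin_form hf h0).mono (fun x _ => h1 x) le_rfl)⟩

omit [Fintype ι] [DecidableEq ι] [FiniteDimensional ℂ V] in
/-- the case of one block -/
theorem imm_one [Subsingleton ι] (an : AnalyticOnNhd ℂ u univ) (ne : ∀ x, u x ≠ 0)
    (imm : ∀ (x dx : V) (t : ℂ), fderiv ℂ u x dx = t • u x → dx = 0) : Imm β u := by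
  refine ⟨an, fun x i => ?_, fun x dx t ht => ?_⟩
  · obtain ⟨v, hv⟩ := Function.ne_iff.1 (ne x)
    exact ⟨v, Subsingleton.elim _ _, hv⟩
  · obtain ⟨v, -⟩ := Function.ne_iff.1 (ne x)
    exact imm x dx (t (β v)) (funext fun w => by rw [ht, Subsingleton.elim (β w) (β v)]; rfl)

omit [Fintype ι] [FiniteDimensional ℂ V] in
theorem unif_one [Unique ι] (hu : Imm β u) (hp : p.IsPrime) (hg : GrJ β p) (mem : ∀ x, u x ∈ ZS p)
    (onto : ∀ w ∈ ZS p, w ≠ 0 → ∃ (x : V) (t : ℂ), w = t • u x) : Unif β p u := by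
  refine ⟨hu, hp, hg, mem, fun w hw h0 => ?_⟩
  obtain ⟨v, -, hv⟩ := h0 default
  obtain ⟨x, t, rfl⟩ := onto w hw fun e => hv (congrFun e v)
  exact ⟨x, fun _ => t, rfl⟩

end Pool.Agent.Tav
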