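import Mathlib

/-! Local regularity of functions with respect to a linear system. -/

set_option autoImplicit false

noncomputable section

namespace Pool.Agent.Tav.Cu

open Filter

variable {Ω : Type} [Field Ω] {T S : Type}

/-- near `t`, the function `f` is a quotient of forms in `L`, of degree `k` -/
def At (L : Submodule Ω (T → Ω)) (k : ℕ) (t : T) (f : T → Ω) : Prop :=
  ∃ e, ∃ b ∈ L ^ e, b t ≠ 0 ∧ b * f ∈ L ^ (e + k)

theorem mul_mem_pow {L : Submodule Ω (T → Ω)} {a b : ℕ} {f g : T → Ω} (hf : f ∈ L ^ a)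
    (hg : g ∈ L ^ b) : f * g ∈ L ^ (a + b) := by
  rw [pow_add]; exact Submodule.mul_mem_mul hf hg

theorem mem_pow_congr {L : Submodule Ω (T → Ω)} {a b : ℕ} {f g : T → Ω} (hf : f ∈ L ^ a)
    (h : a = b) (e : f = g) : g ∈ L ^ b := h ▸ e ▸ hf

theorem one_mem_pow (L : Submodule Ω (T → Ω)) : (1 : T → Ω) ∈ L ^ 0 := by
  rw [pow_zero]; exact Submodule.one_le.1 le_rfl

theorem pow_mem_pow' {L : Submodule Ω (T → Ω)} {a : ℕ} {f : T → Ω} (hf : f ∈ L ^ a) (n : ℕ) :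
    f ^ n ∈ L ^ (a * n) := by
  rw [pow_mul]; exact Submodule.pow_mem_pow _ hf n

/-- Zariski neighbourhoods -/
def nb (L : Submodule Ω (T → Ω)) (t : T) : Filter T where
  sets := {U | ∃ e, ∃ b ∈ L ^ e, b t ≠ 0 ∧ ∀ s, b s ≠ 0 → s ∈ U}
  univ_sets := ⟨0, 1, one_mem_pow L, one_ne_zero, fun _ _ => trivial⟩
  sets_of_superset := fun ⟨e, b, h1, h2, h3⟩ h => ⟨e, b, h1, h2, fun s hs => h (h3 s hs)⟩
  inter_sets := fun ⟨e, b, h1, h2, h3⟩ ⟨e', b', h1', h2', h3'⟩ =>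
    ⟨e + e', b * b', mul_mem_pow h1 h1', mul_ne_zero h2 h2', fun s hs =>
      ⟨h3 s (left_ne_zero_of_mul hs), h3' s (right_ne_zero_of_mul hs)⟩⟩

variable {L : Submodule Ω (T → Ω)} {k l : ℕ} {t : T} {f g : T → Ω}

theorem ev_nb {p : T → Prop} :
    (∀ᶠ s in nb L t, p s) ↔ ∃ e, ∃ b ∈ L ^ e, b t ≠ 0 ∧ ∀ s, b s ≠ 0 → p s := Iff.rfl

theorem nb_self {p : T → Prop} (h : ∀ᶠ s in nb L t, p s) : p t := by
  obtain ⟨_, _, _, h2, h3⟩ := ev_nb.1 h
  exact h3 t h2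

theorem nb_ev {p : T → Prop} (h : ∀ᶠ s in nb L t, p s) :
    ∀ᶠ s in nb L t, ∀ᶠ s' in nb L s, p s' := by
  obtain ⟨e, b, h1, h2, h3⟩ := ev_nb.1 h
  exact ev_nb.2 ⟨e, b, h1, h2, fun s hs => ev_nb.2 ⟨e, b, h1, hs, h3⟩⟩

theorem At.of_mem (h : f ∈ L ^ k) (t : T) : At L k t f :=
  ⟨0, 1, one_mem_pow L, one_ne_zero, mem_pow_congr h (zero_add k).symm (one_mul f).symm⟩

theorem At.of_mem1 (h : f ∈ L) (t : T) : At L 1 t f := At.of_mem (by rwa [pow_one]) t

theorem At.cast (h : At L k t f) (e : k = l) : At L l t f := e ▸ h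

theorem At.add (hf : At L k t f) (hg : At L k t g) : At L k t (f + g) := by
  obtain ⟨e, b, h1, h2, h3⟩ := hf
  obtain ⟨e', b', h1', h2', h3'⟩ := hg
  refine ⟨e + e', b * b', mul_mem_pow h1 h1', mul_ne_zero h2 h2', ?_⟩
  have := Submodule.add_mem _ (mem_pow_congr (mul_mem_pow h3 h1') (by ring : _ = e + e' + k) rfl)
    (mem_pow_congr (mul_mem_pow h1 h3') (by ring : _ = e + e' + k) rfl)
  exact mem_pow_congr this rfl (by ring)

theorem At.mul (hf : At L k t f) (hg : At L l t g) : At L (k + l) t (f * g) := by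
  obtain ⟨e, b, h1, h2, h3⟩ := hf
  obtain ⟨e', b', h1', h2', h3'⟩ := hg
  exact ⟨e + e', b * b', mul_mem_pow h1 h1', mul_ne_zero h2 h2',
    mem_pow_congr (mul_mem_pow h3 h3') (by ring) (by ring)⟩

theorem At.mul0 (hf : At L k t f) (hg : At L 0 t g) : At L k t (f * g) := hf.mul hg

theorem At.zero (L : Submodule Ω (T → Ω)) (k : ℕ) (t : T) : At L k t 0 :=
  At.of_mem (Submodule.zero_mem _) t

theorem At.smul (hf : At L k t f) (c : Ω) : At L k t (c • f) := by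
  obtain ⟨e, b, h1, h2, h3⟩ := hf
  exact ⟨e, b, h1, h2, mem_pow_congr (Submodule.smul_mem _ c h3) rfl (mul_smul_comm c b f).symm⟩

theorem At.neg (hf : At L k t f) : At L k t (-f) := by
  simpa using hf.smul (-1)

theorem At.sub (hf : At L k t f) (hg : At L k t g) : At L k t (f - g) := by
  rw [sub_eq_add_neg]; exact hf.add hg.neg

theorem At.one (L : Submodule Ω (T → Ω)) (t : T) : At L 0 t 1 := At.of_mem (one_mem_pow L) t

theorem At.const (L : Submodule Ω (T → Ω)) (t : T) (c : Ω) : At L 0 t fun _ => c := by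
  have := (At.one L t).smul c
  rwa [show c • (1 : T → Ω) = fun _ => c from funext fun _ => by simp] at this

theorem At.pow (hf : At L k t f) (n : ℕ) : At L (k * n) t (f ^ n) := by
  induction n with
  | zero => simpa using At.one L t
  | succ n ih => rw [pow_succ, Nat.mul_succ]; exact ih.mul hf

theorem At.sum {ι : Type} (s : Finset ι) {F : ι → T → Ω} (h : ∀ i ∈ s, At L k t (F i)) :
    At L k t (∑ i ∈ s, F i) :=
  Finset.sum_induction F (At L k t) (fun _ _ => At.add) (At.zero L k t) h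

theorem At.congr (hf : At L k t f) (h : ∀ᶠ s in nb L t, f s = g s) : At L k t g := by
  obtain ⟨e, b, h1, h2, h3⟩ := hf
  obtain ⟨e', b', h1', h2', h3'⟩ := ev_nb.1 h
  refine ⟨e + e', b * b', mul_mem_pow h1 h1', mul_ne_zero h2 h2',
    mem_pow_congr (mul_mem_pow h3 h1') (by ring) (funext fun s => ?_)⟩
  by_cases hs : b' s = 0
  · simp [hs]
  · simp only [Pi.mul_apply, h3' s hs]; ring

theorem At.ev (hf : At L k t f) : ∀ᶠ s in nb L t, At L k s f := by
  obtain ⟨e, b, h1, h2, h3⟩ := hf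
  exact ev_nb.2 ⟨e, b, h1, h2, fun s hs => ⟨e, b, h1, hs, h3⟩⟩

theorem At.ne (hf : At L k t f) (h : f t ≠ 0) : ∀ᶠ s in nb L t, f s ≠ 0 := by
  obtain ⟨e, b, _, h2, h3⟩ := hf
  exact ev_nb.2 ⟨_, _, h3, mul_ne_zero h2 h, fun s hs => right_ne_zero_of_mul hs⟩

theorem At.div (hf : At L (k + l) t f) (hg : At L l t g) (h : g t ≠ 0) : At L k t (f / g) := by
  obtain ⟨e, b, h1, h2, h3⟩ := hf
  obtain ⟨e', b', h1', h2', h3'⟩ := hg
  refine ⟨e + (e' + l) + (e' + l), b * (b' * g) * (b' * g),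
    mul_mem_pow (mul_mem_pow h1 h3') h3', ?_,
    mem_pow_congr (mul_mem_pow (mul_mem_pow h3 h3') h1') (by ring) (funext fun s => ?_)⟩
  · simp [h2, h2', h]
  · by_cases hs : g s = 0
    · simp [hs]
    · simp only [Pi.mul_apply, Pi.div_apply]; field_simp

theorem At.div0 (hf : At L k t f) (hg : At L 0 t g) (h : g t ≠ 0) : At L k t (f / g) :=
  At.div (l := 0) hf hg h

theorem At.div_same (hf : At L k t f) (hg : At L k t g) (h : g t ≠ 0) : At L 0 t (f / g) :=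
  At.div (hf.cast (zero_add k).symm) hg h

/-- the functions that are regular at `t` -/
def reg (L : Submodule Ω (T → Ω)) (t : T) : Subalgebra Ω (T → Ω) where
  carrier := {f | At L 0 t f}
  mul_mem' := At.mul0
  add_mem' := At.add
  algebraMap_mem' := At.const L t

/-- global sections -/
def Gam (L : Submodule Ω (T → Ω)) (k : ℕ) : Submodule Ω (T → Ω) where
  carrier := {f | ∀ t, At L k t f}
  add_mem' hf hg t := (hf t).add (hg t)
  zero_mem' := At.zero L k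
  smul_mem' c _ hf t := (hf t).smul c

theorem mem_Gam : f ∈ Gam L k ↔ ∀ t, At L k t f := Iff.rfl

theorem pow_le_Gam (L : Submodule Ω (T → Ω)) (k : ℕ) : L ^ k ≤ Gam L k := fun _ h => At.of_mem h

theorem Gam.mul (hf : f ∈ Gam L k) (hg : g ∈ Gam L l) : f * g ∈ Gam L (k + l) :=
  fun t => (hf t).mul (hg t)

theorem Gam.cast (hf : f ∈ Gam L k) (e : k = l) : f ∈ Gam L l := e ▸ hf

/-- composition with `j` -/
def pb (Ω : Type) [Field Ω] (j : T → S) : (S → Ω) →ₐ[Ω] (T → Ω) :=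
  AlgHom.pi fun t => Pi.evalAlgHom Ω (fun _ : S => Ω) (j t)

@[simp] theorem pb_apply (j : T → S) (u : S → Ω) (t : T) : pb Ω j u t = u (j t) := rfl

/-- `j` is a regular map -/
def Mp (L : Submodule Ω (T → Ω)) (M : Submodule Ω (S → Ω)) (j : T → S) : Prop :=
  ∀ t, ∃ (e : ℕ) (c : T → Ω), c t ≠ 0 ∧ ∀ u ∈ M, (c * fun s => u (j s)) ∈ L ^ e

variable {M : Submodule Ω (S → Ω)} {j : T → S}

theorem chart_pow {e : ℕ} {c : T → Ω} (h : ∀ u ∈ M, (c * fun s => u (j s)) ∈ L ^ e) (n : ℕ) :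
    ∀ u ∈ M ^ n, (c ^ n * fun s => u (j s)) ∈ L ^ (e * n) := by
  induction n with
  | zero =>
    intro u hu
    rw [pow_zero, Submodule.mem_one] at hu
    obtain ⟨a, rfl⟩ := hu
    exact mem_pow_congr (Submodule.smul_mem _ a (one_mem_pow L)) rfl (funext fun _ => by simp)
  | succ n ih =>
    intro u hu
    rw [pow_succ] at hu
    refine Submodule.mul_induction_on hu (fun a ha b hb => ?_) fun a b ha hb => ?_
    · exact mem_pow_congr (mul_mem_pow (ih a ha) (h b hb)) (by ring)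
        (funext fun _ => by simp only [Pi.mul_apply, Pi.pow_apply]; ring)
    · exact mem_pow_congr (Submodule.add_mem _ ha hb) rfl
        (funext fun _ => by simp only [Pi.mul_apply, Pi.add_apply]; ring)

theorem At.comp (hj : Mp L M j) {u : S → Ω} (h : At M 0 (j t) u) : At L 0 t fun s => u (j s) := by
  obtain ⟨e, c, hc, h0⟩ := hj t
  obtain ⟨n, b, h1, h2, h3⟩ := h
  refine ⟨e * n, _, chart_pow h0 n b h1, mul_ne_zero (pow_ne_zero _ hc) h2,
    mem_pow_congr (chart_pow h0 n _ h3) rfl (funext fun _ => ?_)⟩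
  simp only [Pi.mul_apply]; ring

theorem Mp.ev (hj : Mp L M j) {p : S → Prop} (h : ∀ᶠ s in nb M (j t), p s) :
    ∀ᶠ s in nb L t, p (j s) := by
  obtain ⟨e, c, hc, h0⟩ := hj t
  obtain ⟨n, b, h1, h2, h3⟩ := ev_nb.1 h
  exact ev_nb.2 ⟨e * n, _, chart_pow h0 n b h1, mul_ne_zero (pow_ne_zero _ hc) h2,
    fun s hs => h3 _ (right_ne_zero_of_mul hs)⟩

theorem lin_pow (h : ∀ u ∈ M, (fun s => u (j s)) ∈ L) (n : ℕ) :
    ∀ u ∈ M ^ n, (fun s => u (j s)) ∈ L ^ n := fun u hu => by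
  have := chart_pow (L := L) (e := 1) (c := 1) (j := j)
    (fun u hu => by rw [pow_one, one_mul]; exact h u hu) n u hu
  rwa [one_pow, one_mul, one_mul] at this

theorem At.lin (h : ∀ u ∈ M, (fun s => u (j s)) ∈ L) {u : S → Ω} (hu : At M k (j t) u) :
    At L k t fun s => u (j s) := by
  obtain ⟨n, b, h1, h2, h3⟩ := hu
  exact ⟨n, _, lin_pow h n b h1, h2, lin_pow h _ _ h3⟩

theorem Mp.of_lin (h : ∀ u ∈ M, (fun s => u (j s)) ∈ L) : Mp L M j := fun _ =>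
  ⟨1, 1, one_ne_zero, fun u hu => by rw [pow_one, one_mul]; exact h u hu⟩

theorem Mp.id (L : Submodule Ω (T → Ω)) : Mp L L fun t => t := Mp.of_lin fun _ h => h

theorem Mp.const (L : Submodule Ω (T → Ω)) (M : Submodule Ω (S → Ω)) (a : S) :
    Mp L M fun _ => a := fun _ =>
  ⟨0, 1, one_ne_zero, fun u _ =>
    mem_pow_congr (Submodule.smul_mem _ (u a) (one_mem_pow L)) rfl (funext fun _ => by simp)⟩

theorem Mp.comp {Z : Type} {N : Submodule Ω (Z → Ω)} {i : S → Z} (hi : Mp M N i) (hj : Mp L M j) :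
    Mp L N fun t => i (j t) := fun t => by
  obtain ⟨e, c, hc, h0⟩ := hj t
  obtain ⟨n, b, h1, h2⟩ := hi (j t)
  refine ⟨e * n, c ^ n * fun s => b (j s), mul_ne_zero (pow_ne_zero _ hc) h1, fun u hu =>
    mem_pow_congr (chart_pow h0 n _ (h2 u hu)) rfl (funext fun _ => ?_)⟩
  simp only [Pi.mul_apply]; ring

theorem Mp.mul {M' : Submodule Ω (S → Ω)} (h : Mp L M j) (h' : Mp L M' j) : Mp L (M * M') j :=
  fun t => by
  obtain ⟨e, c, hc, h0⟩ := h t
  obtain ⟨n, b, h1, h2⟩ := h' t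
  refine ⟨e + n, c * b, mul_ne_zero hc h1, fun u hu => ?_⟩
  refine Submodule.mul_induction_on hu (fun a ha a' ha' => ?_) fun a b ha hb => ?_
  · exact mem_pow_congr (mul_mem_pow (h0 a ha) (h2 a' ha')) rfl
      (funext fun _ => by simp only [Pi.mul_apply]; ring)
  · exact mem_pow_congr (Submodule.add_mem _ ha hb) rfl
      (funext fun _ => by simp only [Pi.mul_apply, Pi.add_apply]; ring)

theorem Mp.pow (h : Mp L M j) (n : ℕ) : Mp L (M ^ n) j := fun t => by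
  obtain ⟨e, c, hc, h0⟩ := h t
  exact ⟨e * n, c ^ n, pow_ne_zero _ hc, chart_pow h0 n⟩

theorem Mp.map {Z : Type} {N : Submodule Ω (Z → Ω)} {i : S → Z} (h : Mp L N fun t => i (j t)) :
    Mp L (N.map (pb Ω i).toLinearMap) j := fun t => by
  obtain ⟨e, c, hc, h0⟩ := h t
  refine ⟨e, c, hc, ?_⟩
  rintro _ ⟨u, hu, rfl⟩
  exact h0 u hu

/-- quotients of members of the pull-back of `M` are regular -/
theorem Mp.ratio (h : Mp L M j) {u v : S → Ω} (hu : At M k (j t) u) (hv : At M k (j t) v)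
    (h0 : v (j t) ≠ 0) : At L 0 t fun s => u (j s) / v (j s) :=
  At.comp h (hu.div_same hv h0)

/-- no common zero -/
def Nv (L : Submodule Ω (T → Ω)) : Prop := ∀ t, ∃ u ∈ L, u t ≠ 0

theorem Nv.mul {L' : Submodule Ω (T → Ω)} (h : Nv L) (h' : Nv L') : Nv (L * L') := fun t => by
  obtain ⟨u, hu, h1⟩ := h t
  obtain ⟨v, hv, h2⟩ := h' t
  exact ⟨u * v, Submodule.mul_mem_mul hu hv, mul_ne_zero h1 h2⟩

theorem Nv.pow (h : Nv L) (n : ℕ) : Nv (L ^ n) := fun t => by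
  obtain ⟨u, hu, h1⟩ := h t
  exact ⟨u ^ n, Submodule.pow_mem_pow _ hu n, pow_ne_zero _ h1⟩

theorem Nv.mono {L' : Submodule Ω (T → Ω)} (h : Nv L) (h' : L ≤ L') : Nv L' := fun t => by
  obtain ⟨u, hu, h1⟩ := h t
  exact ⟨u, h' hu, h1⟩

theorem Nv.map (h : Nv M) (j : T → S) : Nv (M.map (pb Ω j).toLinearMap) := fun t => by
  obtain ⟨u, hu, h1⟩ := h (j t)
  exact ⟨_, ⟨u, hu, rfl⟩, h1⟩

theorem Mp.of_le_mul {L' : Submodule Ω (T → Ω)} (h' : Nv L') : Mp (L * L') L fun t => t :=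
  fun t => by
  obtain ⟨v, hv, h2⟩ := h' t
  refine ⟨1, v, h2, fun u hu => ?_⟩
  rw [pow_one, mul_comm v]
  exact Submodule.mul_mem_mul hu hv

theorem Mp.of_pow (h : Nv L) {n : ℕ} (hn : n ≠ 0) : Mp (L ^ n) L fun t => t := by
  obtain ⟨n, rfl⟩ := Nat.exists_eq_succ_of_ne_zero hn
  rw [pow_succ']
  exact Mp.of_le_mul (h.pow n)

/-- the Segre product of two systems -/
def box (A : Submodule Ω (T → Ω)) (B : Submodule Ω (S → Ω)) : Submodule Ω (T × S → Ω) :=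
  A.map (pb Ω Prod.fst).toLinearMap * B.map (pb Ω Prod.snd).toLinearMap

variable {A : Submodule Ω (T → Ω)} {B : Submodule Ω (S → Ω)}

theorem box_pow (A : Submodule Ω (T → Ω)) (B : Submodule Ω (S → Ω)) (n : ℕ) :
    box A B ^ n = box (A ^ n) (B ^ n) := by
  rw [box, mul_pow, ← Submodule.map_pow, ← Submodule.map_pow, box]

theorem mem_box {a : T → Ω} {b : S → Ω} (ha : a ∈ A) (hb : b ∈ B) :
    (fun t : T × S => a t.1 * b t.2) ∈ box A B :=
  Submodule.mul_mem_mul (M := A.map (pb Ω Prod.fst).toLinearMap) ⟨a, ha, rfl⟩ ⟨b, hb, rfl⟩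

theorem box_induction {p : (T × S → Ω) → Prop} {F : T × S → Ω} (hF : F ∈ box A B)
    (h1 : ∀ a ∈ A, ∀ b ∈ B, p fun t => a t.1 * b t.2) (h2 : ∀ F G, p F → p G → p (F + G)) :
    p F := by
  refine Submodule.mul_induction_on hF ?_ h2
  rintro _ ⟨a, ha, rfl⟩ _ ⟨b, hb, rfl⟩
  exact h1 a ha b hb

theorem Nv.box (hA : Nv A) (hB : Nv B) : Nv (box A B) := (hA.map _).mul (hB.map _)

theorem box_fg (hA : A.FG) (hB : B.FG) : (box A B).FG := (hA.map _).mul (hB.map _)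

theorem box_left {F : T × S → Ω} (hF : F ∈ box A B) (s : S) : (fun t => F (t, s)) ∈ A :=
  box_induction (p := fun F => (fun t => F (t, s)) ∈ A) hF
    (fun a ha b _ => by
      have := A.smul_mem (b s) ha
      rwa [show b s • a = fun t => a t * b s from funext fun _ => mul_comm _ _] at this)
    fun _ _ => A.add_mem

theorem box_right {F : T × S → Ω} (hF : F ∈ box A B) (t : T) : (fun s => F (t, s)) ∈ B :=
  box_induction (p := fun F => (fun s => F (t, s)) ∈ B) hF (fun a _ _ hb => B.smul_mem (a t) hb)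
    fun _ _ => B.add_mem

theorem Mp.fst (A : Submodule Ω (T → Ω)) (hB : Nv B) : Mp (box A B) A Prod.fst := fun t => by
  obtain ⟨v, hv, h2⟩ := hB t.2
  refine ⟨1, fun s => v s.2, h2, fun u hu => ?_⟩
  rw [pow_one, mul_comm]
  exact mem_box hu hv

theorem Mp.snd (hA : Nv A) (B : Submodule Ω (S → Ω)) : Mp (box A B) B Prod.snd := fun t => by
  obtain ⟨v, hv, h2⟩ := hA t.1
  refine ⟨1, fun s => v s.1, h2, fun u hu => ?_⟩
  rw [pow_one]
  exact mem_box hv hu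

theorem Mp.prod {Z : Type} {N : Submodule Ω (Z → Ω)} {f : Z → T} {g : Z → S} (hf : Mp N A f)
    (hg : Mp N B g) : Mp N (box A B) fun z => (f z, g z) :=
  Mp.mul (Mp.map hf) (Mp.map hg)

/-- no zero divisors among the forms -/
def Dm (L : Submodule Ω (T → Ω)) : Prop :=
  ∀ a b, ∀ f ∈ L ^ a, ∀ g ∈ L ^ b, f * g = 0 → f = 0 ∨ g = 0

theorem Dm.exists (h : Dm L) {a b : ℕ} (hf : f ∈ L ^ a) (hg : g ∈ L ^ b) (h1 : f ≠ 0)
    (h2 : g ≠ 0) : ∃ t, f t ≠ 0 ∧ g t ≠ 0 := by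
  obtain ⟨t, ht⟩ := Function.ne_iff.1 fun e => (h a b f hf g hg e).elim h1 h2
  exact ⟨t, mul_ne_zero_iff.1 ht⟩

theorem Dm.meet (h : Dm L) {p q : T → Prop} {s : T} (hp : ∀ᶠ x in nb L t, p x)
    (hq : ∀ᶠ x in nb L s, q x) : ∃ x, p x ∧ q x := by
  obtain ⟨e, b, h1, h2, h3⟩ := ev_nb.1 hp
  obtain ⟨e', b', h1', h2', h3'⟩ := ev_nb.1 hq
  obtain ⟨x, h4, h5⟩ := h.exists h1 h1' (fun e => h2 (congrFun e t)) fun e => h2' (congrFun e s)
  exact ⟨x, h3 x h4, h3' x h5⟩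

theorem Dm.gam (h : Dm L) (hf : f ∈ Gam L k) (hg : g ∈ Gam L l) (e : f * g = 0) :
    f = 0 ∨ g = 0 := by
  by_contra hn
  rw [not_or] at hn
  obtain ⟨a, ha⟩ := Function.ne_iff.1 hn.1
  obtain ⟨b, hb⟩ := Function.ne_iff.1 hn.2
  obtain ⟨x, h1, h2⟩ := h.meet ((hf a).ne ha) ((hg b).ne hb)
  exact mul_ne_zero h1 h2 (congrFun e x)

theorem Dm.box (hA : Dm A) (hB : Dm B) : Dm (box A B) := fun a b f hf g hg e => by
  rw [box_pow] at hf hg
  by_contra hn
  rw [not_or] at hn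
  obtain ⟨s, hs⟩ := Function.ne_iff.1 hn.1
  obtain ⟨s', hs'⟩ := Function.ne_iff.1 hn.2
  obtain ⟨x, h1, h2⟩ := hA.exists (box_left hf s.2) (box_left hg s'.2)
    (fun e => hs (congrFun e s.1)) fun e => hs' (congrFun e s'.1)
  obtain ⟨y, h3, h4⟩ := hB.exists (box_right hf x) (box_right hg x)
    (fun e => h1 (congrFun e s.2)) fun e => h2 (congrFun e s'.2)
  exact mul_ne_zero h3 h4 (congrFun e (x, y))

theorem Dm.of_mp {L' : Submodule Ω (T → Ω)} (h : Dm L) (h' : Mp L L' fun t => t) : Dm L' :=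
  fun a b f hf g hg e => by
  by_contra hn
  rw [not_or] at hn
  obtain ⟨s, hs⟩ := Function.ne_iff.1 hn.1
  obtain ⟨s', hs'⟩ := Function.ne_iff.1 hn.2
  obtain ⟨x, h1, h2⟩ := h.meet (h'.ev ((At.of_mem hf s).ne hs)) (h'.ev ((At.of_mem hg s').ne hs'))
  exact mul_ne_zero h1 h2 (congrFun e x)

/-- completeness: a space of forms without common zero generates the forms of large degree -/
def Cpl (L : Submodule Ω (T → Ω)) : Prop :=
  ∀ (e : ℕ) (U : Submodule Ω (T → Ω)), U ≤ L ^ e → Nv U → ∃ N, L ^ (N + e) ≤ U * L ^ N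

end Pool.Agent.Tav.Cu
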