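import Pool.Agent.P.MP_2ce3e7_ag.Tav.CuSat

/-! Units, line bundles given by germs, products of complete systems. -/

set_option autoImplicit false

noncomputable section

namespace Pool.Agent.Tav.Cu

open Filter

variable {Ω : Type} [Field Ω] {T S : Type} {L : Submodule Ω (T → Ω)} {M : Submodule Ω (S → Ω)}
  {t : T} {f g : T → Ω}

/-- an irreducible complete system -/
structure Vr (L : Submodule Ω (T → Ω)) : Prop where
  fg : L.FG
  nv : Nv L
  dm : Dm L
  cpl : Cpl L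

/-- `f` is regular and nonzero at `t` -/
def Ut (L : Submodule Ω (T → Ω)) (t : T) (f : T → Ω) : Prop := At L 0 t f ∧ f t ≠ 0

theorem Ut.mul (hf : Ut L t f) (hg : Ut L t g) : Ut L t (f * g) :=
  ⟨hf.1.mul0 hg.1, mul_ne_zero hf.2 hg.2⟩

theorem Ut.div (hf : Ut L t f) (hg : Ut L t g) : Ut L t (f / g) :=
  ⟨hf.1.div0 hg.1 hg.2, div_ne_zero hf.2 hg.2⟩

theorem Ut.const (L : Submodule Ω (T → Ω)) (t : T) {c : Ω} (hc : c ≠ 0) : Ut L t fun _ => c :=
  ⟨At.const L t c, hc⟩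

theorem Ut.congr (hf : Ut L t f) (h : ∀ᶠ s in nb L t, f s = g s) : Ut L t g :=
  ⟨hf.1.congr h, nb_self h ▸ hf.2⟩

theorem Ut.ne (hf : Ut L t f) : ∀ᶠ s in nb L t, f s ≠ 0 := hf.1.ne hf.2

theorem Ut.ev (hf : Ut L t f) : ∀ᶠ s in nb L t, Ut L s f := hf.1.ev.and hf.ne

theorem Ut.comp {j : T → S} (hj : Mp L M j) {u : S → Ω} (h : Ut M (j t) u) :
    Ut L t fun s => u (j s) := ⟨h.1.comp hj, h.2⟩

theorem Ut.ne2 (h : Ut L t (f / g)) : ∀ᶠ s in nb L t, f s ≠ 0 ∧ g s ≠ 0 :=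
  h.ne.mono fun _ hs => div_ne_zero_iff.1 hs

/-- the germs `e t` generate a line bundle that is a difference of two linear systems -/
def Bdl (L : Submodule Ω (T → Ω)) (e : T → T → Ω) : Prop :=
  ∃ (a b : ℕ) (U V : Submodule Ω (T → Ω)), U.FG ∧ V.FG ∧ Nv U ∧ Nv V ∧ U * V ≤ L ^ (a + b) ∧
    ∀ t, e t t ≠ 0 ∧ ∀ u ∈ U, At L b t (u * e t)

variable {e e' : T → T → Ω}

theorem Bdl.ne (h : Bdl L e) (t : T) : ∀ᶠ s in nb L t, e t s ≠ 0 := by
  obtain ⟨a, b, U, V, -, -, h3, -, -, h6⟩ := h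
  obtain ⟨u, hu, h0⟩ := h3 t
  exact (((h6 t).2 u hu).ne (mul_ne_zero h0 (h6 t).1)).mono fun _ => right_ne_zero_of_mul

theorem Bdl.mul (h : Bdl L e) (h' : Bdl L e') : Bdl L (e * e') := by
  obtain ⟨a, b, U, V, h1, h2, h3, h4, h5, h6⟩ := h
  obtain ⟨a', b', U', V', h1', h2', h3', h4', h5', h6'⟩ := h'
  refine ⟨a + a', b + b', U * U', V * V', h1.mul h1', h2.mul h2', h3.mul h3', h4.mul h4', ?_,
    fun t => ⟨mul_ne_zero (h6 t).1 (h6' t).1, fun u hu => ?_⟩⟩
  · rw [mul_mul_mul_comm, add_add_add_comm, pow_add]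
    exact mul_le_mul' h5 h5'
  · refine Submodule.mul_induction_on hu (fun x hx y hy => ?_) fun x y hx hy => ?_
    · have := ((h6 t).2 x hx).mul ((h6' t).2 y hy)
      rwa [mul_mul_mul_comm] at this
    · rw [add_mul]; exact hx.add hy

theorem Bdl.inv (h : Bdl L e) : Bdl L e⁻¹ := by
  obtain ⟨a, b, U, V, h1, h2, h3, h4, h5, h6⟩ := h
  refine ⟨b, a, V, U, h2, h1, h4, h3, by rwa [mul_comm, add_comm],
    fun t => ⟨inv_ne_zero (h6 t).1, fun v hv => ?_⟩⟩
  obtain ⟨u, hu, h0⟩ := h3 t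
  have h7 := mul_ne_zero h0 (h6 t).1
  refine ((At.of_mem (h5 (Submodule.mul_mem_mul hu hv)) t).div ((h6 t).2 u hu) h7).congr ?_
  filter_upwards [((h6 t).2 u hu).ne h7] with s hs
  have h8 : u s ≠ 0 := left_ne_zero_of_mul hs
  simp only [Pi.mul_apply, Pi.div_apply, Pi.inv_apply]
  rw [mul_div_mul_left _ _ h8, div_eq_mul_inv]

theorem Bdl.div (h : Bdl L e) (h' : Bdl L e') : Bdl L (e / e') := by
  rw [div_eq_mul_inv]; exact h.mul h'.inv

/-- the charts of degree `n` of the system `V` -/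
def chs (L V : Submodule Ω (T → Ω)) (n : ℕ) : Submodule Ω (T → Ω) := L ^ n / V

theorem chs_mul (L V : Submodule Ω (T → Ω)) (n : ℕ) : chs L V n * V ≤ L ^ n :=
  Submodule.mul_le.2 fun _ hc v hv => Submodule.mem_div_iff_forall_mul_mem.1 hc v hv

theorem chs_fg (hL : L.FG) {V : Submodule Ω (T → Ω)} (hV : V.FG) (hn : Nv V) (n : ℕ) :
    (chs L V n).FG := by
  obtain ⟨m, v, hv⟩ := Submodule.fg_iff_exists_fin_generating_family.1 hV
  have hm : ∀ i, v i ∈ V := fun i => hv ▸ Submodule.subset_span ⟨i, rfl⟩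
  have := (Submodule.fg_iff_finiteDimensional _).1 (hL.pow n)
  refine (Submodule.fg_iff_finiteDimensional _).2 (FiniteDimensional.of_injective
    (LinearMap.pi fun i => (LinearMap.mulRight Ω (v i)).restrict (p := chs L V n) (q := L ^ n)
      fun c hc => chs_mul L V n (Submodule.mul_mem_mul hc (hm i))) ?_)
  rw [injective_iff_map_eq_zero]
  intro c hc
  refine Subtype.ext (funext fun t => ?_)
  obtain ⟨u, hu, h0⟩ := hn t
  by_contra h1
  refine h0 (Submodule.span_le (p := LinearMap.ker (LinearMap.proj t : (T → Ω) →ₗ[Ω] Ω)).2 ?_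
    (hv ▸ hu))
  rintro _ ⟨i, rfl⟩
  exact (mul_eq_zero.1 (congrFun (congrArg Subtype.val (congrFun hc i)) t)).resolve_left h1

theorem nv_chs (hL : L.FG) (hn : Nv L) {V : Submodule Ω (T → Ω)} (hV : Nv V)
    (h : Mp L V fun t => t) : ∃ n, Nv (chs L V n) := by
  have hJ : GI L fun n => V * chs L V n := ⟨fun n => by rw [mul_comm]; exact chs_mul L V n,
    fun n => by
      rw [mul_left_comm]
      refine mul_le_mul_right (Submodule.mul_le.2 fun u hu c hc => ?_) V
      refine Submodule.mem_div_iff_forall_mul_mem.2 fun v hv => ?_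
      rw [pow_succ', mul_assoc]
      exact Submodule.mul_mem_mul hu (chs_mul L V n (Submodule.mul_mem_mul hc hv))⟩
  obtain ⟨n, h1⟩ := hJ.qc hL hn fun t => by
    obtain ⟨n, c, hc, h0⟩ := h t
    obtain ⟨v, hv, h1⟩ := hV t
    exact ⟨n, v * c, Submodule.mul_mem_mul hv (Submodule.mem_div_iff_forall_mul_mem.2 h0),
      mul_ne_zero h1 hc⟩
  exact ⟨n, fun t => let ⟨_, hu, h0⟩ := h1 t; ne_of_mul hu h0⟩

theorem Mp.map_id {j : T → S} (h : Mp L M j) : Mp L (M.map (pb Ω j).toLinearMap) fun t => t :=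
  Mp.map h

theorem Bdl.of_mp (hL : L.FG) (hn : Nv L) (hM : M.FG) (hM' : Nv M) {j : T → S} (h : Mp L M j)
    {o : S → S → Ω} (ho : ∀ s, o s ∈ M ∧ o s s ≠ 0) : Bdl L fun t s => o (j t) (j s) := by
  obtain ⟨n, h1⟩ := nv_chs hL hn (hM'.map j) h.map_id
  refine ⟨0, n, _, _, chs_fg hL (hM.map _) (hM'.map j) n, hM.map _, h1, hM'.map j,
    by rw [zero_add]; exact chs_mul _ _ n, fun t => ⟨(ho _).2, fun u hu => At.of_mem ?_ t⟩⟩
  exact chs_mul _ _ n (Submodule.mul_mem_mul hu ⟨_, (ho _).1, rfl⟩)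

/-- the graph of a regular map is complete -/
theorem Cpl.mul (hc : Cpl L) (hL : L.FG) (hn : Nv L) {V : Submodule Ω (T → Ω)} (hV : Nv V)
    (h : Mp L V fun t => t) : Cpl (L * V) := fun d U hU h0 => by
  obtain ⟨n, h1⟩ := nv_chs hL hn hV h
  have h2 : chs L V n ^ d * V ^ d ≤ L ^ (n * d) := by
    rw [← mul_pow, pow_mul]; exact pow_le_pow_left' (chs_mul L V n) d
  obtain ⟨N, hN⟩ := hc (d + n * d) (U * chs L V n ^ d) (by
    calc U * chs L V n ^ d ≤ (L * V) ^ d * chs L V n ^ d := mul_le_mul_left hU _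
      _ = L ^ d * (chs L V n ^ d * V ^ d) := by rw [mul_pow]; ring
      _ ≤ L ^ d * L ^ (n * d) := mul_le_mul_right h2 _
      _ = _ := (pow_add _ _ _).symm) (h0.mul (h1.pow d))
  refine ⟨N + n * d, ?_⟩
  calc (L * V) ^ (N + n * d + d) = L ^ (N + (d + n * d)) * V ^ (N + n * d + d) := by ring
    _ ≤ U * chs L V n ^ d * L ^ N * V ^ (N + n * d + d) := mul_le_mul_left hN _
    _ = U * L ^ N * V ^ (N + n * d) * (chs L V n ^ d * V ^ d) := by ring
    _ ≤ U * L ^ N * V ^ (N + n * d) * L ^ (n * d) := mul_le_mul_right h2 _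
    _ = _ := by ring

theorem Cpl.pow (hc : Cpl L) (n : ℕ) : Cpl (L ^ n) := fun d U hU h0 => by
  rcases n with _ | n
  · have h1 : ∀ m, (L ^ 0) ^ m = L ^ 0 := fun m => by simp
    rw [h1] at hU
    obtain ⟨N, hN⟩ := hc 0 U hU h0
    refine ⟨0, ?_⟩
    rw [h1, h1, pow_zero, mul_one]
    rcases isEmpty_or_nonempty T with hT | ⟨⟨t⟩⟩
    · exact fun f _ => Subsingleton.elim 0 f ▸ U.zero_mem
    obtain ⟨u, hu, h2⟩ := h0 t
    have h3 := hU hu
    rw [pow_zero, Submodule.mem_one] at h3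
    obtain ⟨c, rfl⟩ := h3
    have h4 : c ≠ 0 := h2
    have h5 := U.smul_mem c⁻¹ hu
    rw [Algebra.algebraMap_eq_smul_one, smul_smul, inv_mul_cancel₀ h4, one_smul] at h5
    exact Submodule.one_le.2 h5
  rw [← pow_mul] at hU
  obtain ⟨N, hN⟩ := hc _ U hU h0
  refine ⟨N, ?_⟩
  calc (L ^ (n + 1)) ^ (N + d) = L ^ (N + (n + 1) * d) * L ^ (n * N) := by ring
    _ ≤ U * L ^ N * L ^ (n * N) := mul_le_mul_left hN _
    _ = _ := by ring

theorem Vr.mul (h : Vr L) {V : Submodule Ω (T → Ω)} (hV : V.FG) (hn : Nv V)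
    (hm : Mp L V fun t => t) : Vr (L * V) :=
  ⟨h.fg.mul hV, h.nv.mul hn, h.dm.of_mp ((Mp.id L).mul hm), h.cpl.mul h.fg h.nv hn hm⟩

theorem Vr.pow (h : Vr L) (n : ℕ) : Vr (L ^ n) :=
  ⟨h.fg.pow n, h.nv.pow n, h.dm.of_mp ((Mp.id L).pow n), h.cpl.pow n⟩

theorem prod_mem_pow {ι : Type} (s : Finset ι) {F : ι → T → Ω} (h : ∀ i ∈ s, F i ∈ L) :
    ∏ i ∈ s, F i ∈ L ^ s.card := by
  classical
  induction s using Finset.induction_on with
  | empty => simpa using one_mem_pow L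
  | insert a s ha ih =>
    rw [Finset.prod_insert ha, Finset.card_insert_of_notMem ha, pow_succ']
    exact Submodule.mul_mem_mul (h a (Finset.mem_insert_self _ _))
      (ih fun i hi => h i (Finset.mem_insert_of_mem hi))

theorem det_mem_pow {ι : Type} [Fintype ι] [DecidableEq ι] {N : Matrix ι ι (T → Ω)}
    (h : ∀ i j, N i j ∈ L) : N.det ∈ L ^ Fintype.card ι := by
  rw [Matrix.det_apply']
  refine Submodule.sum_mem _ fun σ _ => ?_
  rw [← zsmul_eq_mul]
  exact zsmul_mem (prod_mem_pow _ fun i _ => h _ _) _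

theorem adj_mem_pow {ι : Type} [Fintype ι] [DecidableEq ι] {N : Matrix ι ι (T → Ω)}
    (h : ∀ i j, N i j ∈ L) {o : T → Ω} (ho : o ∈ L) (i j : ι) :
    o * N.adjugate i j ∈ L ^ Fintype.card ι := by
  rw [Matrix.adjugate_apply, ← Matrix.det_updateRow_smul]
  refine det_mem_pow fun a b => ?_
  rw [Matrix.updateRow_apply]
  split_ifs
  · rw [Pi.smul_apply, Pi.single_apply]
    split_ifs
    · simpa using ho
    · simp
  · exact h a b

theorem box_basis {ι : Type} [Fintype ι] (β : Module.Basis ι Ω L) {F : T × S → Ω}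
    (hF : F ∈ box L M) : ∃ m : ι → S → Ω, (∀ i, m i ∈ M) ∧
      ∀ t s, F (t, s) = ∑ i, (β i).1 t * m i s := by
  refine box_induction (p := fun F => ∃ m : ι → S → Ω, (∀ i, m i ∈ M) ∧
    ∀ t s, F (t, s) = ∑ i, (β i).1 t * m i s) hF (fun a ha b hb => ?_) ?_
  · refine ⟨fun i => β.repr ⟨a, ha⟩ i • b, fun i => M.smul_mem _ hb, fun t s => ?_⟩
    have := congrFun (congrArg Subtype.val (β.sum_repr ⟨a, ha⟩)) t
    simp only [Submodule.coe_sum, Submodule.coe_smul, Finset.sum_apply, Pi.smul_apply,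
      smul_eq_mul] at this
    simp only [← this, Finset.sum_mul, Pi.smul_apply, smul_eq_mul]
    exact Finset.sum_congr rfl fun i _ => by ring
  · rintro F G ⟨m, h1, h2⟩ ⟨m', h1', h2'⟩
    exact ⟨m + m', fun i => M.add_mem (h1 i) (h1' i), fun t s => by
      simp only [Pi.add_apply, h2, h2', mul_add, Finset.sum_add_distrib]⟩

theorem box_mul_box (A A' : Submodule Ω (T → Ω)) (B B' : Submodule Ω (S → Ω)) :
    box A B * box A' B' = box (A * A') (B * B') := by
  rw [box, box, box, Submodule.map_mul, Submodule.map_mul, mul_mul_mul_comm]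

/-- elimination -/
theorem Cpl.det (hc : Cpl L) (hL : L.FG) (hM : Nv M) {d : ℕ} {U : Submodule Ω (T × S → Ω)}
    (hU : U ≤ box L M ^ d) (s₀ : S) (h0 : ∀ t, ∃ u ∈ U, u (t, s₀) ≠ 0) :
    ∃ N n, ∃ δ ∈ M ^ (n + d), δ s₀ ≠ 0 ∧ ∀ a ∈ L ^ (N + d),
      (fun t : T × S => a t.1 * δ t.2) ∈ U * box (L ^ N) (M ^ n) := by
  classical
  rw [box_pow] at hU
  obtain ⟨N, hN⟩ := hc d (U.map (pb Ω fun t => (t, s₀)).toLinearMap)
    (by rintro _ ⟨u, hu, rfl⟩; exact box_left (hU hu) s₀)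
    fun t => let ⟨u, hu, h⟩ := h0 t; ⟨_, ⟨u, hu, rfl⟩, h⟩
  have h1 : ∀ a ∈ L ^ (N + d), ∃ F ∈ U * box (L ^ N) (M ^ 0), ∀ t, F (t, s₀) = a t := by
    intro a ha
    refine Submodule.mul_induction_on (C := fun a => ∃ F ∈ U * box (L ^ N) (M ^ 0),
      ∀ t, F (t, s₀) = a t) (hN ha) ?_ ?_
    · rintro _ ⟨u, hu, rfl⟩ b hb
      exact ⟨_, Submodule.mul_mem_mul hu (mem_box hb (one_mem_pow M)), fun t => by simp⟩
    · rintro x y ⟨F, hF, e⟩ ⟨G, hG, e'⟩
      exact ⟨F + G, Submodule.add_mem _ hF hG, fun t => by simp [e, e']⟩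
  have := (Submodule.fg_iff_finiteDimensional _).1 (hL.pow (N + d))
  let β := Module.finBasis Ω (L ^ (N + d) :)
  choose F hF hE using fun i => h1 _ (β i).2
  have h2 : ∀ i, F i ∈ box (L ^ (N + d)) (M ^ d) := fun i => by
    have h3 : U * box (L ^ N) (M ^ 0) ≤ box (L ^ d) (M ^ d) * box (L ^ N) (M ^ 0) :=
      mul_le_mul_left hU _
    rw [box_mul_box, ← pow_add, ← pow_add, add_comm d N, add_zero] at h3
    exact h3 (hF i)
  choose m hm hm' using fun i => box_basis β (h2 i)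
  obtain ⟨o, ho, h3⟩ := hM.pow d s₀
  let A : Matrix _ _ (S → Ω) := Matrix.of m
  have h4 : A.map (Pi.evalRingHom (fun _ => Ω) s₀) = 1 := by
    ext i j
    have h5 : ∑ j, m i j s₀ • β j = β i := Subtype.ext (funext fun t => by
      rw [← hE, hm']
      simp [mul_comm])
    have h6 := congrArg (fun v => β.repr v j) h5
    simp only [map_sum, map_smul, Module.Basis.repr_self, Finsupp.coe_finsetSum,
      Finset.sum_apply, Finsupp.smul_apply, Finsupp.single_apply, smul_eq_mul, mul_ite, mul_one,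
      mul_zero, Finset.sum_ite_eq', Finset.mem_univ, if_true] at h6
    simp [A, h6, Matrix.one_apply]
  have h5 : A.det s₀ = 1 := by
    have := (Pi.evalRingHom (fun _ => Ω) s₀).map_det A
    rwa [RingHom.mapMatrix_apply, h4, Matrix.det_one] at this
  refine ⟨N, d * Fintype.card (Fin (Module.finrank Ω (L ^ (N + d) :))), A.det * o, ?_, ?_, ?_⟩
  · rw [pow_add, pow_mul]
    exact Submodule.mul_mem_mul (det_mem_pow hm) ho
  · simp [h5, h3]
  intro a ha
  have h6 : ∀ i, (fun t : T × S => (β i).1 t.1 * (A.det * o) t.2) ∈ U * box (L ^ N)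
      (M ^ (d * Fintype.card (Fin (Module.finrank Ω (L ^ (N + d) :))))) := fun i => by
    have h7 : (fun t : T × S => (β i).1 t.1 * (A.det * o) t.2) =
        ∑ j, F j * fun t : T × S => (1 : T → Ω) t.1 * (o * A.adjugate i j) t.2 := by
      funext t
      have h8 := fun k => congrFun (congrFun (congrFun A.adjugate_mul i) k) t.2
      simp only [Matrix.mul_apply, Finset.sum_apply, Pi.mul_apply, Matrix.smul_apply,
        smul_eq_mul] at h8
      simp only [Finset.sum_apply, Pi.mul_apply, Pi.one_apply, one_mul, hm' _ t.1 t.2,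
        Finset.sum_mul]
      rw [Finset.sum_comm]
      calc _ = ∑ k, (β k).1 t.1 * o t.2 * (A.det t.2 * (1 : Matrix _ _ (S → Ω)) i k t.2) := by
            rw [Finset.sum_eq_single i (fun k _ hk => by simp [Matrix.one_apply_ne' hk])
              (by simp)]
            simp [mul_comm, mul_left_comm, mul_assoc]
        _ = _ := Finset.sum_congr rfl fun k _ => by
            rw [← h8, Finset.mul_sum]
            exact Finset.sum_congr rfl fun j _ => by simp only [A, Matrix.of_apply]; ring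
    rw [h7]
    refine Submodule.sum_mem _ fun j _ => ?_
    have h8 := Submodule.mul_mem_mul (hF j) (mem_box (one_mem_pow L) (adj_mem_pow hm ho i j))
    rwa [mul_assoc, box_mul_box, ← pow_add, ← pow_mul, ← pow_add, add_zero, zero_add] at h8
  have h7 : (fun t : T × S => a t.1 * (A.det * o) t.2) =
      ∑ i, β.repr ⟨a, ha⟩ i • fun t : T × S => (β i).1 t.1 * (A.det * o) t.2 := by
    funext t
    have := congrFun (congrArg Subtype.val (β.sum_repr ⟨a, ha⟩)) t.1
    simp only [Submodule.coe_sum, Submodule.coe_smul, Finset.sum_apply, Pi.smul_apply,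
      smul_eq_mul] at this
    simp only [← this, Finset.sum_mul, Finset.sum_apply, Pi.smul_apply, smul_eq_mul, mul_assoc]
  rw [h7]
  exact Submodule.sum_mem _ fun i _ => Submodule.smul_mem _ _ (h6 i)

theorem Cpl.box (hc : Cpl L) (hL : L.FG) (hc' : Cpl M) (hM : M.FG) (hn : Nv M) :
    Cpl (box L M) := fun d U hU h0 => by
  let J : ℕ → Submodule Ω (S → Ω) := fun n =>
    { carrier := {b | b ∈ M ^ n ∧ ∃ r, n = r + d ∧ ∀ a ∈ L ^ n,
        (fun t : T × S => a t.1 * b t.2) ∈ U * Cu.box L M ^ r} ∪ {0}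
      add_mem' := by
        rintro a b (⟨h1, r, h2, h3⟩ | rfl) (⟨h1', r', h2', h3'⟩ | rfl)
        · obtain rfl : r = r' := by omega
          exact Or.inl ⟨Submodule.add_mem _ h1 h1', r, h2, fun x hx => by
            have := Submodule.add_mem _ (h3 x hx) (h3' x hx)
            simpa [Pi.add_def, mul_add] using this⟩
        · exact Or.inl ⟨by simpa using h1, r, h2, by simpa using h3⟩
        · exact Or.inl ⟨by simpa using h1', r', h2', by simpa using h3'⟩
        · exact Or.inr (add_zero _)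
      zero_mem' := Or.inr rfl
      smul_mem' := by
        rintro c b (⟨h1, r, h2, h3⟩ | rfl)
        · exact Or.inl ⟨Submodule.smul_mem _ c h1, r, h2, fun x hx => by
            have := Submodule.smul_mem _ c (h3 x hx)
            simpa [Pi.smul_def, mul_left_comm] using this⟩
        · exact Or.inr (smul_zero _) }
  have hJ : GI M J := by
    refine ⟨?_, fun n => Submodule.mul_le.2 ?_⟩
    · rintro n b (h | rfl)
      exacts [h.1, Submodule.zero_mem _]
    rintro u hu b (⟨h1, r, h2, h3⟩ | rfl)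
    · refine Or.inl ⟨by rw [pow_succ']; exact Submodule.mul_mem_mul hu h1, r + 1, by omega,
        fun a ha => ?_⟩
      rw [pow_succ] at ha
      refine Submodule.mul_induction_on ha (fun x hx y hy => ?_) fun x y hx hy => ?_
      · have := Submodule.mul_mem_mul (h3 x hx) (mem_box hy hu)
        rw [mul_assoc, ← pow_succ] at this
        refine (congrArg (· ∈ _) (funext fun t => ?_)).mp this
        simp only [Pi.mul_apply]; ring
      · have := Submodule.add_mem _ hx hy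
        simpa [Pi.add_def, add_mul] using this
    · exact Or.inr (mul_zero _)
  obtain ⟨N, hN⟩ := hc'.all hJ hM hn fun s => by
    obtain ⟨N, n, δ, h1, h2, h3⟩ := hc.det hL hn hU s fun t => h0 (t, s)
    obtain ⟨o, ho, h4⟩ := hn.pow N s
    refine ⟨N + n + d, o * δ, Or.inl ⟨mem_pow_congr (mul_mem_pow ho h1) (by ring) rfl, N + n, rfl,
      fun a ha => ?_⟩, mul_ne_zero h4 h2⟩
    rw [add_right_comm, pow_add] at ha
    refine Submodule.mul_induction_on ha (fun x hx y hy => ?_) fun x y hx hy => ?_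
    · have := Submodule.mul_mem_mul (h3 x hx) (mem_box hy ho)
      rw [mul_assoc, box_mul_box, ← pow_add, ← pow_add, add_comm n N, ← box_pow] at this
      refine (congrArg (· ∈ _) (funext fun t => ?_)).mp this
      simp only [Pi.mul_apply]; ring
    · have := Submodule.add_mem _ hx hy
      simpa [Pi.add_def, add_mul] using this
  refine ⟨N, fun F hF => ?_⟩
  rw [box_pow] at hF
  refine box_induction (p := fun F => F ∈ U * Cu.box L M ^ N) hF (fun a ha b hb => ?_)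
    fun _ _ => Submodule.add_mem _
  have h1 := hN d
  rw [add_comm] at h1
  rcases h1 hb with ⟨_, r, h2, h3⟩ | rfl
  · obtain rfl : N = r := by omega
    exact h3 a ha
  · have : (fun t : T × S => a t.1 * (0 : S → Ω) t.2) = 0 := funext fun _ => mul_zero _
    rw [this]
    exact Submodule.zero_mem _

theorem Vr.box (h : Vr L) (h' : Vr M) : Vr (box L M) :=
  ⟨box_fg h.fg h'.fg, h.nv.box h'.nv, h.dm.box h'.dm, h.cpl.box h.fg h'.cpl h'.fg h'.nv⟩

/-- TUBE -/
theorem Cpl.tube (hc : Cpl L) (hL : L.FG) (hn : Nv L) (hM : M.FG) (hn' : Nv M) {s₀ : S}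
    {p : T × S → Prop} (h : ∀ t, ∀ᶠ x in nb (Cu.box L M) (t, s₀), p x) :
    ∀ᶠ s in nb M s₀, ∀ t, p (t, s) := by
  let J : ℕ → Submodule Ω (T × S → Ω) := fun n =>
    { carrier := {b | b ∈ Cu.box L M ^ n ∧ ∀ x, b x ≠ 0 → p x}
      add_mem' := fun {a b} ha hb => ⟨Submodule.add_mem _ ha.1 hb.1, fun x hx => by
        by_cases h1 : a x = 0
        · exact hb.2 x fun h2 => hx (by simp [h1, h2])
        · exact ha.2 x h1⟩
      zero_mem' := ⟨Submodule.zero_mem _, fun x hx => absurd rfl hx⟩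
      smul_mem' := fun c b hb => ⟨Submodule.smul_mem _ c hb.1, fun x hx =>
        hb.2 x (right_ne_zero_of_mul hx)⟩ }
  have hJ : GI (Cu.box L M) J := ⟨fun _ _ h => h.1, fun n => Submodule.mul_le.2 fun u hu b hb =>
    ⟨by rw [pow_succ']; exact Submodule.mul_mem_mul hu hb.1, fun x hx =>
      hb.2 x (right_ne_zero_of_mul hx)⟩⟩
  obtain ⟨d, hd⟩ := hJ.noeth (box_fg hL hM)
  obtain ⟨N, n, δ, h1, h2, h3⟩ := hc.det hL hn' (hJ.le d) s₀ fun t => by
    obtain ⟨e, b, h1, h2, h3⟩ := ev_nb.1 (h t)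
    obtain ⟨u, hu, h4⟩ := hJ.nv_add (hn.box hn') (d := e) ⟨h1, h3⟩ h2 d
    rw [add_comm] at hu
    exact ne_of_mul (hd e hu) h4
  refine ev_nb.2 ⟨_, δ, h1, h2, fun s hs t => ?_⟩
  obtain ⟨a, ha, h4⟩ := hn.pow (N + d) t
  have h5 := h3 a ha
  rw [mul_comm] at h5
  obtain ⟨u, hu, h6⟩ := ne_of_mul (t := (t, s)) h5 (mul_ne_zero h4 hs)
  exact hu.2 _ h6

/-- the local theorem of the cube -/
def S_Loc (Ω : Type) [Field Ω] : Prop :=
  ∀ (X Y Z : Type) (A : Submodule Ω (X → Ω)) (B : Submodule Ω (Y → Ω)) (C : Submodule Ω (Z → Ω)),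
    Vr A → Vr B → Vr C → ∀ e : X × Y × Z → X × Y × Z → Ω, Bdl (box A (box B C)) e →
    ∀ (x₀ : X) (y₀ : Y) (z₀ : Z),
    (∃ μ : Y × Z → Ω, ∀ w, Ut (box B C) w (μ / fun w' => e (x₀, w) (x₀, w'))) →
    (∃ μ : X × Z → Ω, ∀ q, Ut (box A C) q (μ / fun q' => e (q.1, y₀, q.2) (q'.1, y₀, q'.2))) →
    (∃ μ : X × Y → Ω, ∀ q, Ut (box A B) q (μ / fun q' => e (q.1, q.2, z₀) (q'.1, q'.2, z₀))) →
    ∃ μ : X × Y × Z → Ω, ∀ᶠ z in nb C z₀, ∀ x y,
      Ut (box A (box B C)) (x, y, z) (μ / e (x, y, z))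

end Pool.Agent.Tav.Cu
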