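import Pool.Agent.P.MP_2ce3e7_ag.Tav.CuB

/-! Theorem of the cube: the Kuenneth step. -/

set_option autoImplicit false

noncomputable section

namespace Pool.Agent.Tav.Cu

open Module

variable {Ω : Type} [Field Ω] {X Y : Type}

theorem box_swap {U : Submodule Ω (X → Ω)} {V : Submodule Ω (Y → Ω)} {f : X × Y → Ω}
    (h : f ∈ box U V) : (fun t : Y × X => f (t.2, t.1)) ∈ box V U :=
  box_induction (p := fun f => (fun t : Y × X => f (t.2, t.1)) ∈ box V U) h
    (fun a ha b hb => by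
      have := mem_box hb ha
      rwa [show (fun t : Y × X => b t.1 * a t.2) = fun t => a t.2 * b t.1 from
        funext fun _ => mul_comm _ _] at this)
    fun _ _ => Submodule.add_mem _

theorem fin_rank {f : X × Y → Ω} (h : f ∈ box (⊤ : Submodule Ω (X → Ω)) ⊤) :
    ∃ U : Submodule Ω (X → Ω), FiniteDimensional Ω U ∧ ∀ y, (fun x => f (x, y)) ∈ U := by
  refine box_induction (p := fun f => ∃ U : Submodule Ω (X → Ω), FiniteDimensional Ω U ∧
    ∀ y, (fun x => f (x, y)) ∈ U) h (fun a _ b _ => ⟨Ω ∙ a, inferInstance, fun y => ?_⟩) ?_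
  · exact Submodule.mem_span_singleton.2 ⟨b y, funext fun _ => mul_comm _ _⟩
  · rintro F G ⟨U, _, h1⟩ ⟨V, _, h2⟩
    exact ⟨U ⊔ V, inferInstance, fun y => Submodule.add_mem_sup (h1 y) (h2 y)⟩

theorem fun_slice {V : Submodule Ω (Y → Ω)} {f : X × Y → Ω}
    (h : f ∈ box (⊤ : Submodule Ω (X → Ω)) ⊤) (h2 : ∀ x, (fun y => f (x, y)) ∈ V)
    (φ : (X → Ω) →ₗ[Ω] Ω) : (fun y => φ fun x => f (x, y)) ∈ V := by
  obtain ⟨U, _, h1⟩ := fin_rank h
  refine box_induction (p := fun f => (fun y => φ fun x => f (x, y)) ∈ V) (box_of_slices h1 h2)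
    (fun a _ b hb => ?_) fun F G hF hG => ?_
  · have := V.smul_mem (φ a) hb
    rwa [show φ a • b = fun y => φ fun x => a x * b y from funext fun y => by
      rw [show (fun x => a x * b y) = b y • a from funext fun _ => mul_comm _ _, map_smul]
      exact mul_comm _ _] at this
  · have := V.add_mem hF hG
    rwa [show ((fun y => φ fun x => F (x, y)) + fun y => φ fun x => G (x, y)) =
      fun y => φ fun x => (F + G) (x, y) from funext fun y => (map_add φ _ _).symm] at this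

theorem kun {ι κ : Type} [Finite ι] [Finite κ] [Nonempty ι] [Nonempty κ] (x₀ : X) (y₀ : Y)
    (A : ι → Submodule Ω (X → Ω)) (B : κ → Submodule Ω (Y → Ω))
    (hA : ∀ f, (∀ i, f ∈ A i) ↔ ∃ c, f = fun _ => c)
    (hB : ∀ f, (∀ j, f ∈ B j) ↔ ∃ c, f = fun _ => c) (e : ι → κ → X × Y → Ω)
    (fr : ∀ i j i' j', e i j - e i' j' ∈ box (⊤ : Submodule Ω (X → Ω)) ⊤)
    (h1 : ∀ i i' j x, (fun y => e i j (x, y) - e i' j (x, y)) ∈ B j)
    (h2 : ∀ i j j' y, (fun x => e i j (x, y) - e i j' (x, y)) ∈ A i)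
    (h3 : ∀ i j x, e i j (x, y₀) = 0) (h4 : ∀ i j y, e i j (x₀, y) = 0) :
    ∃ E : X × Y → Ω, (∀ x, E (x, y₀) = 0) ∧ (∀ y, E (x₀, y) = 0) ∧
      (∀ i j y, (fun x => e i j (x, y) - E (x, y)) ∈ A i) ∧
      ∀ i j x, (fun y => e i j (x, y) - E (x, y)) ∈ B j := by
  classical
  have := Fintype.ofFinite ι
  obtain ⟨i₀⟩ := ‹Nonempty ι›
  obtain ⟨j₀⟩ := ‹Nonempty κ›
  let S : Submodule Ω (ι → X → Ω) := Submodule.pi Set.univ A ⊔
    LinearMap.range (LinearMap.pi fun _ : ι => (LinearMap.id : (X → Ω) →ₗ[Ω] X → Ω))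
  have hS : ∀ y, (fun i x => e i j₀ (x, y)) ∈ S := by
    intro y
    refine (Subspace.forall_mem_dualAnnihilator_apply_eq_zero_iff S _).1 fun Φ hΦ => ?_
    rw [Submodule.mem_dualAnnihilator] at hΦ
    have a1 : ∀ j y, (Φ fun i x => e i j₀ (x, y)) = Φ fun i x => e i j (x, y) := fun j y => by
      rw [← sub_eq_zero, ← map_sub]
      exact hΦ _ (Submodule.mem_sup_left fun i _ => h2 i j₀ j y)
    have a2 : ∀ j, (fun y => Φ fun i x => e i j₀ (x, y)) ∈ B j := fun j => by
      have := (B j).sum_mem (t := Finset.univ) fun i _ =>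
        fun_slice (fr i j i₀ j) (h1 i i₀ j) (Φ ∘ₗ LinearMap.single Ω (fun _ : ι => X → Ω) i)
      refine (congrArg (· ∈ B j) (funext fun y => ?_)).mp this
      rw [a1 j, Finset.sum_apply]
      simp only [LinearMap.comp_apply]
      rw [← map_sum, ← sub_eq_zero, ← map_sub]
      refine hΦ _ (Submodule.mem_sup_right ⟨fun x => -e i₀ j (x, y), ?_⟩)
      funext i x
      simp [Finset.sum_apply, Pi.single_apply]
    obtain ⟨c, hc⟩ := (hB _).1 a2
    have b1 := congrFun hc y
    have b2 := congrFun hc y₀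
    simp only [h3] at b1 b2
    rw [b1, ← b2]
    exact map_zero Φ
  have hE : ∀ y, ∃ a : X → Ω, a x₀ = 0 ∧ ∀ i j, (fun x => e i j (x, y) - a x) ∈ A i := by
    intro y
    obtain ⟨g, hg, _, ⟨a, rfl⟩, h⟩ := Submodule.mem_sup.1 (hS y)
    refine ⟨fun x => a x - a x₀, sub_self _, fun i j => ?_⟩
    have := (A i).add_mem ((A i).add_mem (hg i trivial) (h2 i j j₀ y))
      ((hA _).2 ⟨a x₀, rfl⟩ i)
    refine (congrArg (· ∈ A i) (funext fun x => ?_)).mp this
    have : g i x + a x = e i j₀ (x, y) := congrFun (congrFun h i) x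
    simp only [Pi.add_apply]
    linear_combination this
  choose a ha0 ha using hE
  have zA : ∀ f : X → Ω, (∀ i, f ∈ A i) → f x₀ = 0 → ∀ x, f x = 0 := fun f h h0 x => by
    obtain ⟨c, rfl⟩ := (hA f).1 h
    exact h0
  choose V hV hV' using fun i => fin_rank (box_swap (fr i j₀ i₀ j₀))
  obtain ⟨n, c, p, -, hc⟩ := lag (⨆ i, V i)
  have hD : (fun t : X × Y => e i₀ j₀ t - a t.2 t.1) ∈ box (⊤ : Submodule Ω (X → Ω)) ⊤ := by
    have : (fun t : X × Y => e i₀ j₀ t - a t.2 t.1) =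
        ∑ s, fun t : X × Y => (e i₀ j₀ (t.1, p s) - a (p s) t.1) * c s t.2 := by
      funext ⟨x, y⟩
      rw [← sub_eq_zero]
      refine zA (fun x => e i₀ j₀ (x, y) - a y x -
        (∑ s, fun t : X × Y => (e i₀ j₀ (t.1, p s) - a (p s) t.1) * c s t.2) (x, y))
        (fun i => ?_) (by simp [h4, ha0, Finset.sum_apply]) x
      have := (A i).sub_mem (ha y i j₀) ((A i).sum_mem (t := Finset.univ) fun s _ =>
        (A i).smul_mem (c s y) (ha (p s) i j₀))
      refine (congrArg (· ∈ A i) (funext fun x => ?_)).mp this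
      have := congrFun (hc _ (Submodule.mem_iSup_of_mem i (hV' i x))) y
      simp only [Finset.sum_apply, Pi.smul_apply, smul_eq_mul, Pi.sub_apply, sub_mul,
        Finset.sum_sub_distrib, mul_comm (c _ y)] at this ⊢
      linear_combination this
    rw [this]
    exact Submodule.sum_mem _ fun s _ =>
      mem_box (a := fun x => e i₀ j₀ (x, p s) - a (p s) x) (b := c s) trivial trivial
  refine ⟨fun t => a t.2 t.1, zA _ (fun i => ?_) (ha0 y₀), ha0, fun i j y => ha y i j,
    fun i j x => ?_⟩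
  · have := (A i).neg_mem (ha y₀ i j₀)
    refine (congrArg (· ∈ A i) (funext fun x => ?_)).mp this
    simp [h3]
  refine (Subspace.forall_mem_dualAnnihilator_apply_eq_zero_iff (B j) _).1 fun ψ hψ => ?_
  rw [Submodule.mem_dualAnnihilator] at hψ
  refine zA (fun x => ψ fun y => e i j (x, y) - a y x) (fun i' => ?_) ?_ x
  · have hd : (fun t : X × Y => e i' j t - a t.2 t.1) ∈ box (⊤ : Submodule Ω (X → Ω)) ⊤ := by
      have := Submodule.add_mem _ (fr i' j i₀ j₀) hD
      refine (congrArg (· ∈ box (⊤ : Submodule Ω (X → Ω)) ⊤) (funext fun t => ?_)).mp this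
      simp
    have := fun_slice (box_swap hd) (fun y => ha y i' j) ψ
    refine (congrArg (· ∈ A i') (funext fun x => ?_)).mp this
    rw [← sub_eq_zero, ← map_sub]
    refine hψ _ ((congrArg (· ∈ B j) (funext fun y => ?_)).mp (h1 i' i j x))
    simp
  · simp only [h4, ha0, sub_self]
    exact map_zero ψ

end Pool.Agent.Tav.Cu
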