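import Pool.Agent.P.MP_2ce3e7_ag.Tav.CuSat
import Pool.Agent.P.MP_2ce3e7_ag.Tav.CuKun

/-! Theorem of the cube: the obstruction vanishes. -/

set_option autoImplicit false

noncomputable section

namespace Pool.Agent.Tav.Cu

open Module

variable {Ω : Type} [Field Ω] {T X Y U V : Type} {A : Submodule Ω (X → Ω)}
  {B : Submodule Ω (Y → Ω)}

/-- finitely many members without common zero, all of them nonzero at a given point -/
theorem exists_fam (fA : A.FG) (nA : Nv A) (x₀ : X) : ∃ (ι : Type) (_ : Fintype ι)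
    (l : ι → X → Ω), (∀ i, l i ∈ A) ∧ (∀ i, l i x₀ ≠ 0) ∧ ∀ x, ∃ i, l i x ≠ 0 := by
  classical
  obtain ⟨s, hs⟩ := fA
  obtain ⟨u, hu, h0⟩ := nA x₀
  have hm : ∀ p : s, p.1 ∈ A := fun p => hs ▸ Submodule.subset_span p.2
  refine ⟨Option s, inferInstance,
    fun o => o.elim u fun p => if p.1 x₀ = 0 then p.1 + u else p.1, ?_, ?_, fun x => ?_⟩
  · rintro (_ | p)
    · exact hu
    · simp only [Option.elim]
      split_ifs
      exacts [A.add_mem (hm p) hu, hm p]
  · rintro (_ | p)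
    · exact h0
    · simp only [Option.elim]
      split_ifs with h
      · simpa [h] using h0
      · exact h
  · by_contra hn
    simp only [not_exists, not_not] at hn
    have h1 : u x = 0 := hn none
    obtain ⟨v, hv, h2⟩ := nA x
    refine h2 (Submodule.span_induction (p := fun v _ => v x = 0) (fun p hp => ?_) rfl
      (fun a b _ _ ha hb => by simp [ha, hb]) (fun c a _ ha => by simp [ha]) (hs.symm ▸ hv))
    have := hn (some ⟨p, hp⟩)
    simp only [Option.elim] at this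
    split_ifs at this
    · simpa [h1] using this
    · exact this

/-- a form that vanishes where all members of the family are nonzero vanishes -/
theorem dense_fam (dA : Dm A) {ι : Type} [Fintype ι] {l : ι → X → Ω} (hl : ∀ i, l i ∈ A) {x₀ : X}
    (h0 : ∀ i, l i x₀ ≠ 0) {n : ℕ} {g : X → Ω} (hg : g ∈ A ^ n)
    (h : ∀ x : {x // ∀ i, l i x ≠ 0}, g x = 0) : g = 0 := by
  have hp : ∏ i, l i ∈ A ^ Fintype.card ι := by
    classical
    rw [← Finset.card_univ]
    induction (Finset.univ : Finset ι) using Finset.induction_on with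
    | empty => exact one_mem_pow A
    | insert i s hi ih =>
      rw [Finset.prod_insert hi, Finset.card_insert_of_notMem hi, pow_succ']
      exact Submodule.mul_mem_mul (hl i) ih
  refine (dA _ _ g hg _ hp (funext fun x => ?_)).resolve_right fun e => ?_
  · by_cases hx : ∀ i, l i x ≠ 0
    · simp [h ⟨x, hx⟩]
    · simp only [not_forall, not_not] at hx
      obtain ⟨i, hi⟩ := hx
      rw [Pi.mul_apply, Finset.prod_apply, Finset.prod_eq_zero (Finset.mem_univ i) hi, mul_zero]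
      rfl
  · have := congrFun e x₀
    rw [Finset.prod_apply] at this
    exact Finset.prod_ne_zero_iff.2 (fun i _ => h0 i) this

/-- forms divided by a power of `l`, read along `j` -/
def lcz (A : Submodule Ω (X → Ω)) (j : U → X) (l : A) (k : ℕ) : Submodule Ω (U → Ω) where
  carrier := {f | ∃ N, ∃ g ∈ A ^ (N + k), ∀ x, l.1 (j x) ^ N * f x = g (j x)}
  add_mem' := fun ⟨N, g, h1, h2⟩ ⟨N', g', h1', h2'⟩ => ⟨N + N', l.1 ^ N' * g + l.1 ^ N * g',
    Submodule.add_mem _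
      (mem_pow_congr (mul_mem_pow (Submodule.pow_mem_pow _ l.2 N') h1) (by ring) rfl)
      (mem_pow_congr (mul_mem_pow (Submodule.pow_mem_pow _ l.2 N) h1') (by ring) rfl),
    fun x => by
      simp only [Pi.add_apply, Pi.mul_apply, Pi.pow_apply, ← h2, ← h2']; ring⟩
  zero_mem' := ⟨0, 0, Submodule.zero_mem _, fun _ => by simp⟩
  smul_mem' := fun c _ ⟨N, g, h1, h2⟩ => ⟨N, c • g, Submodule.smul_mem _ c h1, fun x => by
    simp only [Pi.smul_apply, smul_eq_mul, ← h2]; ring⟩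

theorem lcz_mul {j : U → X} {l : A} {k : ℕ} {f : U → Ω} (hf : f ∈ lcz A j l 0) {s : X → Ω}
    (hs : s ∈ A ^ k) : (fun x => f x * s (j x)) ∈ lcz A j l k := by
  obtain ⟨N, g, h1, h2⟩ := hf
  exact ⟨N, g * s, mul_mem_pow h1 hs, fun x => by rw [Pi.mul_apply, ← h2]; ring⟩

theorem glue_ob (dA : Dm A) {ι : Type} [Fintype ι] {l : ι → X → Ω} (hl : ∀ i, l i ∈ A) {x₀ : X}
    (h0 : ∀ i, l i x₀ ≠ 0) (hb : ∀ x, ∃ i, l i x ≠ 0) {k : ℕ} {f : {x // ∀ i, l i x ≠ 0} → Ω}
    (hf : ∀ i, f ∈ lcz A Subtype.val ⟨l i, hl i⟩ k) : ∃ F ∈ Gam A k, ∀ x, f x = F x := by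
  choose N g h1 h2 using hf
  choose c hc using hb
  have key : ∀ i j, g i * l j ^ N j - g j * l i ^ N i = 0 := fun i j =>
    dense_fam dA hl h0 (n := N i + N j + k) (Submodule.sub_mem _
      (mem_pow_congr (mul_mem_pow (h1 i) (Submodule.pow_mem_pow _ (hl j) _)) (by ring) rfl)
      (mem_pow_congr (mul_mem_pow (h1 j) (Submodule.pow_mem_pow _ (hl i) _)) (by ring) rfl))
      fun x => by
        simp only [Pi.sub_apply, Pi.mul_apply, Pi.pow_apply, ← h2]; ring
  refine ⟨fun x => g (c x) x / l (c x) x ^ N (c x), fun x => ⟨N (c x), l (c x) ^ N (c x),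
    Submodule.pow_mem_pow _ (hl _) _, pow_ne_zero _ (hc x),
    mem_pow_congr (h1 (c x)) rfl (funext fun y => ?_)⟩, fun x => ?_⟩
  · have := congrFun (key (c x) (c y)) y
    have h := pow_ne_zero (N (c y)) (hc y)
    simp only [Pi.sub_apply, Pi.mul_apply, Pi.pow_apply, Pi.zero_apply] at this ⊢
    field_simp
    linear_combination this
  · have h := pow_ne_zero (N (c x)) (hc x)
    rw [eq_div_iff h, mul_comm]
    exact h2 _ x

theorem lcz_const (fA : A.FG) (nA : Nv A) (dA : Dm A) (cA : Cpl A) {ι : Type} [Fintype ι]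
    {l : ι → X → Ω} (hl : ∀ i, l i ∈ A) {x₀ : X} (h0 : ∀ i, l i x₀ ≠ 0)
    (hb : ∀ x, ∃ i, l i x ≠ 0) (f : {x // ∀ i, l i x ≠ 0} → Ω) :
    (∀ i, f ∈ lcz A Subtype.val ⟨l i, hl i⟩ 0) ↔ ∃ c, f = fun _ => c := by
  refine ⟨fun hf => ?_, ?_⟩
  · obtain ⟨F, h1, h2⟩ := glue_ob dA hl h0 hb hf
    exact ⟨F x₀, funext fun x => (h2 x).trans (const fA nA dA cA h1 _ _)⟩
  · rintro ⟨c, rfl⟩ i
    exact ⟨0, c • 1, Submodule.smul_mem _ c (one_mem_pow A), fun _ => by simp⟩

theorem exists_coef {γ : Type} [Fintype γ] (u : γ → T → Ω) {W : Submodule Ω (T → Ω)} {f : T → Ω}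
    (hf : f ∈ Submodule.span Ω (Set.range u) * W) :
    ∃ c : γ → T → Ω, (∀ i, c i ∈ W) ∧ f = ∑ i, c i * u i := by
  refine Submodule.mul_induction_on hf (fun a ha b hb => ?_) ?_
  · obtain ⟨c, rfl⟩ := (Submodule.mem_span_range_iff_exists_fun Ω).1 ha
    refine ⟨fun i => c i • b, fun i => W.smul_mem _ hb, ?_⟩
    rw [Finset.sum_mul]
    exact Finset.sum_congr rfl fun i _ => by rw [smul_mul_assoc, smul_mul_assoc, mul_comm]
  · rintro _ _ ⟨c, h1, rfl⟩ ⟨c', h2, rfl⟩
    exact ⟨c + c', fun i => W.add_mem (h1 i) (h2 i), by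
      simp only [Pi.add_apply, add_mul, Finset.sum_add_distrib]⟩

theorem box_res {F : X × Y → Ω} (hF : F ∈ box A B) (i : U → X) (j : V → Y) (u : U → Ω)
    (v : V → Ω) : (fun t : U × V => F (i t.1, j t.2) * (u t.1 * v t.2)) ∈
      box (⊤ : Submodule Ω (U → Ω)) ⊤ := by
  refine box_induction (p := fun F => (fun t : U × V => F (i t.1, j t.2) * (u t.1 * v t.2)) ∈
      box (⊤ : Submodule Ω (U → Ω)) ⊤) hF (fun a _ b _ => ?_) fun F G h1 h2 => ?_
  · refine (congrArg (· ∈ box (⊤ : Submodule Ω (U → Ω)) ⊤) (funext fun t => ?_)).mp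
      (mem_box (a := fun x => a (i x) * u x) (b := fun y => b (j y) * v y) trivial trivial)
    ring
  · refine (congrArg (· ∈ box (⊤ : Submodule Ω (U → Ω)) ⊤) (funext fun t => ?_)).mp
      (Submodule.add_mem _ h1 h2)
    simp only [Pi.add_apply]; ring

theorem box_ext (i : U → X) (j : V → Y) {F : U × V → Ω}
    (hF : F ∈ box (A.map (pb Ω i).toLinearMap) (B.map (pb Ω j).toLinearMap)) :
    ∃ G ∈ box A B, ∀ x y, F (x, y) = G (i x, j y) := by
  refine box_induction (p := fun F => ∃ G ∈ box A B, ∀ x y, F (x, y) = G (i x, j y)) hF ?_ ?_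
  · rintro _ ⟨a, ha, rfl⟩ _ ⟨b, hb, rfl⟩
    exact ⟨_, mem_box ha hb, fun _ _ => rfl⟩
  · rintro F F' ⟨G, h1, h2⟩ ⟨G', h1', h2'⟩
    exact ⟨G + G', Submodule.add_mem _ h1 h1', fun x y => by simp [h2, h2']⟩

/-- the local solutions and their differences -/
theorem charts {P : Submodule Ω (T → Ω)} (hc : Cpl P) {k k₁ : ℕ} {α β : Type} [Finite α]
    [Finite β] {μ : α → T → Ω} {s : β → T → Ω} (hμ : ∀ a, μ a ∈ P ^ k₁) (hs : ∀ b, s b ∈ P ^ k)
    (h0 : ∀ t, ∃ a b, μ a t ≠ 0 ∧ s b t ≠ 0) (η : β → T → Ω)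
    (hη : ∀ a b b', (fun t => μ a t * (s b' t * η b t - s b t * η b' t)) ∈ P ^ (k₁ + k + k))
    {γ : Type} (w : γ → T → Ω) (hw : ∀ c, w c ∈ P) :
    ∃ (M : ℕ) (n : γ → T → Ω), (∀ c t, (∀ b, η b t = 0) → n c t = 0) ∧
      (∀ c b, w c ^ M * η b - n c * s b ∈ P ^ (M + k)) ∧
      ∀ c c', w c' ^ M * n c - w c ^ M * n c' ∈ P ^ (M + M) := by
  have := Fintype.ofFinite α
  have := Fintype.ofFinite β
  obtain ⟨N, hN⟩ := hc (k₁ + k) (Submodule.span Ω (Set.range fun p : α × β => μ p.1 * s p.2))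
    (Submodule.span_le.2 (by rintro _ ⟨p, rfl⟩; exact mul_mem_pow (hμ _) (hs _))) fun t => by
      obtain ⟨a, b, h1, h2⟩ := h0 t
      exact ⟨_, Submodule.subset_span ⟨(a, b), rfl⟩, mul_ne_zero h1 h2⟩
  choose lam h1 h2 using fun c => exists_coef _ (hN (Submodule.pow_mem_pow _ (hw c) _))
  have hr : ∀ c b, w c ^ (N + (k₁ + k)) * η b - (∑ p, lam c p * (μ p.1 * η p.2)) * s b ∈
      P ^ (N + (k₁ + k) + k) := fun c b => by
    refine mem_pow_congr (Submodule.sum_mem _ (t := Finset.univ) fun (p : α × β) _ =>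
      mul_mem_pow (h1 c p) (hη p.1 b p.2)) (by ring) ?_
    rw [h2, Finset.sum_mul, Finset.sum_mul, ← Finset.sum_sub_distrib]
    refine Finset.sum_congr rfl fun p _ => funext fun t => ?_
    simp only [Pi.mul_apply, Pi.sub_apply]; ring
  refine ⟨N + (k₁ + k), fun c => ∑ p, lam c p * (μ p.1 * η p.2), fun c t h => ?_, hr,
    fun c c' => ?_⟩
  · simp [Finset.sum_apply, h]
  · refine mem_pow_congr (Submodule.sum_mem _ (t := Finset.univ) fun (p : α × β) _ =>
      mul_mem_pow (mul_mem_pow (h1 c p) (hμ p.1)) (hr c' p.2)) (by ring) ?_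
    beta_reduce
    generalize (∑ p, lam c' p * (μ p.1 * η p.2)) = n'
    rw [h2 c, Finset.mul_sum, Finset.sum_mul, ← Finset.sum_sub_distrib]
    exact Finset.sum_congr rfl fun p _ => by ring

theorem obs {A : Submodule Ω (X → Ω)} {B : Submodule Ω (Y → Ω)} (fA : A.FG)
    (nA : Nv A) (dA : Dm A) (fB : B.FG) (nB : Nv B) (dB : Dm B) (cA : Cpl A) (cB : Cpl B)
    (hc : Cpl (box A B)) (x₀ : X) (y₀ : Y) :
    ∃ k₀, ∀ k, k₀ ≤ k → ∀ (k₁ : ℕ) (α β : Type) [Finite α] [Finite β] (μ : α → X × Y → Ω)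
      (s : β → X × Y → Ω), (∀ a, μ a ∈ box A B ^ k₁) → (∀ b, s b ∈ box A B ^ k) →
      (∀ t, ∃ a b, μ a t ≠ 0 ∧ s b t ≠ 0) →
      Obs (box A B ^ k) (box A B ^ (k₁ + k + k)) {t | t.1 = x₀ ∨ t.2 = y₀} μ s := by
  obtain ⟨kA, hkA⟩ := sat fA nA dA cA
  obtain ⟨kB, hkB⟩ := sat fB nB dB cB
  obtain ⟨ι, _, l, hl, l0, lb⟩ := exists_fam fA nA x₀
  obtain ⟨κ, _, m, hm, m0, mb⟩ := exists_fam fB nB y₀
  obtain ⟨i₀, -⟩ := lb x₀
  obtain ⟨j₀, -⟩ := mb y₀
  have : Nonempty ι := ⟨i₀⟩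
  have : Nonempty κ := ⟨j₀⟩
  refine ⟨max kA kB, fun k hk k₁ α β _ _ μ s hμ hs h0 η hax hη => ?_⟩
  obtain ⟨M, n, hn, hr, hq⟩ := charts hc hμ hs h0 η hη
    (fun (c : ι × κ) t => l c.1 t.1 * m c.2 t.2) fun c => mem_box (hl _) (hm _)
  simp only [box_pow] at hr hq hs hμ hη ⊢
  obtain ⟨E, E1, E2, EA, EB⟩ := kun (X := {x // ∀ i, l i x ≠ 0}) (Y := {y // ∀ j, m j y ≠ 0})
    ⟨x₀, l0⟩ ⟨y₀, m0⟩ (fun i => lcz A Subtype.val ⟨l i, hl i⟩ 0)
    (fun j => lcz B Subtype.val ⟨m j, hm j⟩ 0) (lcz_const fA nA dA cA hl l0 lb)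
    (lcz_const fB nB dB cB hm m0 mb)
    (fun i j t => n (i, j) (t.1, t.2) / (l i t.1 * m j t.2) ^ M)
    (fun i j i' j' => by
      refine (congrArg (· ∈ box ⊤ ⊤) (funext fun t => ?_)).mp
        (box_res (hq (i, j) (i', j')) Subtype.val Subtype.val
          (fun x => ((l i x * l i' x) ^ M)⁻¹) fun y => ((m j y * m j' y) ^ M)⁻¹)
      have := t.1.2 i; have := t.1.2 i'; have := t.2.2 j; have := t.2.2 j'
      simp only [Pi.sub_apply, Pi.mul_apply, Pi.pow_apply, mul_pow]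
      field_simp)
    (fun i i' j x => ⟨M + M, _, Submodule.smul_mem _ ((l i x * l i' x) ^ M)⁻¹
      (box_right (hq (i, j) (i', j)) x), fun y => by
        have := x.2 i; have := x.2 i'; have := y.2 j
        simp only [Pi.sub_apply, Pi.mul_apply, Pi.pow_apply, mul_pow, Pi.smul_apply, smul_eq_mul,
          pow_add]
        field_simp⟩)
    (fun i j j' y => ⟨M + M, _, Submodule.smul_mem _ ((m j y * m j' y) ^ M)⁻¹
      (box_left (hq (i, j) (i, j')) y), fun x => by
        have := x.2 i; have := y.2 j; have := y.2 j'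
        simp only [Pi.sub_apply, Pi.mul_apply, Pi.pow_apply, mul_pow, Pi.smul_apply, smul_eq_mul,
          pow_add]
        field_simp⟩)
    (fun i j x => by rw [hn _ _ fun b => hax b _ (Or.inr rfl), zero_div])
    (fun i j y => by rw [hn _ _ fun b => hax b _ (Or.inl rfl), zero_div])
  have := fg_pow fA k
  have hx : ∀ b, ∃ ξ ∈ box (A ^ k) (B ^ k), ∀ (x : {x // ∀ i, l i x ≠ 0})
      (y : {y // ∀ j, m j y ≠ 0}), η b (x, y) - E (x, y) * s b (x, y) = ξ (x, y) := fun b => by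
    refine box_ext Subtype.val Subtype.val (F := fun t => η b (t.1, t.2) - E t * s b (t.1, t.2))
      (box_of_slices (fun y => ?_) fun x => ?_)
    · obtain ⟨F, h1, h2⟩ := glue_ob dA hl l0 lb (k := k)
        (f := fun x => η b (x, y) - E (x, y) * s b (x, y)) fun i => by
          have h3 : (fun x : {x // ∀ i, l i x ≠ 0} => η b (x, y) -
              n (i, j₀) (x, y) / (l i x * m j₀ y) ^ M * s b (x, y)) ∈
              lcz A Subtype.val ⟨l i, hl i⟩ k := ⟨M, _, Submodule.smul_mem _ (m j₀ y ^ M)⁻¹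
            (box_left (hr (i, j₀) b) y), fun x => by
              have := x.2 i; have := y.2 j₀
              simp only [Pi.sub_apply, Pi.mul_apply, Pi.pow_apply, mul_pow, Pi.smul_apply,
                smul_eq_mul]
              field_simp⟩
          refine (congrArg (· ∈ lcz A Subtype.val ⟨l i, hl i⟩ k) (funext fun x => ?_)).mp
            (Submodule.add_mem _ h3 (lcz_mul (EA i j₀ y) (box_left (hs b) y)))
          simp only [Pi.add_apply]; ring
      exact ⟨F, hkA k (le_of_max_le_left hk) h1, funext fun x => (h2 x).symm⟩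
    · obtain ⟨F, h1, h2⟩ := glue_ob dB hm m0 mb (k := k)
        (f := fun y => η b (x, y) - E (x, y) * s b (x, y)) fun j => by
          have h3 : (fun y : {y // ∀ j, m j y ≠ 0} => η b (x, y) -
              n (i₀, j) (x, y) / (l i₀ x * m j y) ^ M * s b (x, y)) ∈
              lcz B Subtype.val ⟨m j, hm j⟩ k := ⟨M, _, Submodule.smul_mem _ (l i₀ x ^ M)⁻¹
            (box_right (hr (i₀, j) b) x), fun y => by
              have := x.2 i₀; have := y.2 j
              simp only [Pi.sub_apply, Pi.mul_apply, Pi.pow_apply, mul_pow, Pi.smul_apply,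
                smul_eq_mul]
              field_simp⟩
          refine (congrArg (· ∈ lcz B Subtype.val ⟨m j, hm j⟩ k) (funext fun y => ?_)).mp
            (Submodule.add_mem _ h3 (lcz_mul (EB i₀ j x) (box_right (hs b) x)))
          simp only [Pi.add_apply]; ring
      exact ⟨F, hkB k (le_of_max_le_right hk) h1, funext fun y => (h2 y).symm⟩
  choose ξ h1 h2 using hx
  refine ⟨ξ, h1, fun b t ht => ?_, fun a b b' t => ?_⟩
  · obtain ⟨x, y⟩ := t
    rcases ht with ht | ht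
    · obtain rfl : x = x₀ := ht
      refine congrFun (dense_fam dB hm m0 (box_right (h1 b) x) fun y => ?_) y
      rw [← h2 b ⟨x, l0⟩ y, E2, hax b _ (Or.inl rfl), zero_mul, sub_zero]
    · obtain rfl : y = y₀ := ht
      refine congrFun (dense_fam dA hl l0 (box_left (h1 b) y) fun x => ?_) x
      rw [← h2 b x ⟨y, m0⟩, E1, hax b _ (Or.inr rfl), zero_mul, sub_zero]
  · have hg : μ a * (s b' * ξ b - s b * ξ b') -
        (fun t => μ a t * (s b' t * η b t - s b t * η b' t)) ∈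
        box (A ^ (k₁ + k + k)) (B ^ (k₁ + k + k)) := by
      refine Submodule.sub_mem _ ?_ (hη a b b')
      simp only [← box_pow] at hμ hs h1 ⊢
      exact mem_pow_congr (mul_mem_pow (hμ a) (Submodule.sub_mem _ (mul_mem_pow (hs b') (h1 b))
        (mul_mem_pow (hs b) (h1 b')))) (by ring) rfl
    refine sub_eq_zero.1 (congrFun (dense_fam dB hm m0 (box_right hg t.1) fun y =>
      congrFun (dense_fam dA hl l0 (box_left hg y) fun x => ?_) t.1) t.2)
    simp only [Pi.sub_apply, Pi.mul_apply, ← h2]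
    ring

end Pool.Agent.Tav.Cu
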