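import Pool.Agent.P.MP_2ce3e7_ag.Tav.CuLift
import Pool.Agent.P.MP_2ce3e7_ag.Tav.CuObs

/-! Theorem of the cube: the local step. -/

set_option autoImplicit false

noncomputable section

namespace Pool.Agent.Tav.Cu

open Module Filter

variable {Ω : Type} [Field Ω] {T X Y Z : Type}

/-- division by `l` on the set where it does not vanish -/
def dvl (l : Z → Ω) : (Z → Ω) →ₗ[Ω] ({z // l z ≠ 0} → Ω) where
  toFun c z := c z.1 / l z.1
  map_add' _ _ := funext fun _ => add_div _ _ _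
  map_smul' _ _ := funext fun _ => mul_div_assoc _ _ _

/-- the ring of an affine chart -/
def chR (C : Submodule Ω (Z → Ω)) (l : Z → Ω) : Subalgebra Ω ({z // l z ≠ 0} → Ω) :=
  Algebra.adjoin Ω (C.map (dvl l) : Set ({z // l z ≠ 0} → Ω))

variable {C : Submodule Ω (Z → Ω)} {l : Z → Ω} {W : Submodule Ω (T → Ω)}

theorem chR_noeth (h : C.FG) (l : Z → Ω) : IsNoetherianRing (chR C l) := by
  obtain ⟨s, hs⟩ := h.map (dvl l)
  exact isNoetherianRing_of_fg ⟨s, by rw [chR, ← hs, Algebra.adjoin_span]⟩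

theorem chR_mem {n : ℕ} {c : Z → Ω} (hc : c ∈ C ^ n) :
    (fun z : {z // l z ≠ 0} => c z.1 / l z.1 ^ n) ∈ chR C l := by
  induction hc using Submodule.pow_induction_on_left' with
  | algebraMap r =>
    refine (congrArg (· ∈ chR C l) (funext fun z => ?_)).mp ((chR C l).algebraMap_mem r)
    simp
  | add x y i _ _ h1 h2 =>
    exact (congrArg (· ∈ chR C l) (funext fun z => (add_div _ _ _).symm)).mp
      ((chR C l).add_mem h1 h2)
  | mem_mul m hm i x _ h =>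
    refine (congrArg (· ∈ chR C l) (funext fun z => ?_)).mp
      ((chR C l).mul_mem (Algebra.subset_adjoin ⟨m, hm, rfl⟩) h)
    change m z.1 / l z.1 * (x z.1 / l z.1 ^ i) = m z.1 * x z.1 / l z.1 ^ (i + 1)
    rw [div_mul_div_comm, pow_succ']

theorem chR_den (hl : l ∈ C) {r : {z // l z ≠ 0} → Ω} (hr : r ∈ chR C l) :
    ∃ n, ∃ g ∈ C ^ n, ∀ z : {z // l z ≠ 0}, g z.1 = r z * l z.1 ^ n := by
  induction hr using Algebra.adjoin_induction with
  | mem x hx =>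
    obtain ⟨c, hc, rfl⟩ := hx
    refine ⟨1, c, by rwa [pow_one], fun z => ?_⟩
    rw [pow_one]
    exact (div_mul_cancel₀ _ z.2).symm
  | algebraMap r => exact ⟨0, r • 1, Submodule.smul_mem _ _ (one_mem_pow C), fun z => by simp⟩
  | add x y _ _ h1 h2 =>
    obtain ⟨n, g, hg, e⟩ := h1
    obtain ⟨n', g', hg', e'⟩ := h2
    refine ⟨n + n', g * l ^ n' + l ^ n * g', Submodule.add_mem _
      (mul_mem_pow hg (Submodule.pow_mem_pow _ hl _))
      (mul_mem_pow (Submodule.pow_mem_pow _ hl _) hg'), fun z => ?_⟩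
    simp only [Pi.add_apply, Pi.mul_apply, Pi.pow_apply, e, e']
    ring
  | mul x y _ _ h1 h2 =>
    obtain ⟨n, g, hg, e⟩ := h1
    obtain ⟨n', g', hg', e'⟩ := h2
    refine ⟨n + n', g * g', mul_mem_pow hg hg', fun z => ?_⟩
    simp only [Pi.mul_apply, e, e']
    ring

theorem box_mulr {U V : Submodule Ω (Z → Ω)} {F : T × Z → Ω} {g : Z → Ω} (hF : F ∈ box W U)
    (hg : g ∈ V) : (fun t => F t * g t.2) ∈ box W (U * V) :=
  box_induction (p := fun F => (fun t => F t * g t.2) ∈ box W (U * V)) hF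
    (fun _ ha _ hb => (congrArg (· ∈ box W (U * V)) (funext fun _ => (mul_assoc _ _ _).symm)).mp
      (mem_box ha (Submodule.mul_mem_mul hb hg)))
    fun _ _ h1 h2 => (congrArg (· ∈ box W (U * V)) (funext fun _ => (add_mul _ _ _).symm)).mp
      (Submodule.add_mem _ h1 h2)

theorem toR (l : Z → Ω) {n : ℕ} {F : T × Z → Ω} (hF : F ∈ box W (C ^ n)) :
    ∃ w ∈ spR (chR C l) W, ∀ t z, (w t).1 z = F (t, z.1) / l z.1 ^ n := by
  refine box_induction (p := fun F => ∃ w ∈ spR (chR C l) W,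
    ∀ t z, (w t).1 z = F (t, z.1) / l z.1 ^ n) hF (fun a ha c hc => ?_) ?_
  · refine ⟨(⟨_, chR_mem hc⟩ : chR C l) • fun t => algebraMap Ω (chR C l) (a t),
      Submodule.smul_mem _ _ (Submodule.subset_span ⟨a, ha, rfl⟩), fun t z => ?_⟩
    change c z.1 / l z.1 ^ n * a t = a t * c z.1 / l z.1 ^ n
    ring
  · rintro F G ⟨w, hw, e⟩ ⟨w', hw', e'⟩
    refine ⟨w + w', Submodule.add_mem _ hw hw', fun t z => ?_⟩
    change (w t).1 z + (w' t).1 z = _
    rw [e, e', Pi.add_apply, add_div]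

theorem ofR (hl : l ∈ C) {w : T → chR C l} (hw : w ∈ spR (chR C l) W) :
    ∃ n, ∃ F ∈ box W (C ^ n), ∀ t (z : {z // l z ≠ 0}), F (t, z.1) = (w t).1 z * l z.1 ^ n := by
  induction hw using Submodule.span_induction with
  | mem x hx =>
    obtain ⟨a, ha, rfl⟩ := hx
    refine ⟨0, _, mem_box ha (one_mem_pow C), fun t z => ?_⟩
    change a t * 1 = a t * l z.1 ^ 0
    rw [pow_zero]
  | zero => exact ⟨0, 0, Submodule.zero_mem _, fun t z => (zero_mul _).symm⟩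
  | add x y _ _ h1 h2 =>
    obtain ⟨n, F, hF, e⟩ := h1
    obtain ⟨n', F', hF', e'⟩ := h2
    have a1 := box_mulr hF (Submodule.pow_mem_pow _ hl n')
    have a2 := box_mulr hF' (Submodule.pow_mem_pow _ hl n)
    rw [← pow_add] at a1 a2
    rw [add_comm n' n] at a2
    refine ⟨n + n', _, Submodule.add_mem _ a1 a2, fun t z => ?_⟩
    change F (t, z.1) * l z.1 ^ n' + F' (t, z.1) * l z.1 ^ n = ((x t).1 z + (y t).1 z) * _
    rw [e, e']
    ring
  | smul r x _ h =>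
    obtain ⟨n, F, hF, e⟩ := h
    obtain ⟨n', g, hg, e'⟩ := chR_den hl r.2
    have a1 := box_mulr hF hg
    rw [← pow_add] at a1
    refine ⟨n + n', _, a1, fun t z => ?_⟩
    change F (t, z.1) * g z.1 = (r.1 z * (x t).1 z) * _
    rw [e, e']
    ring

theorem core0 {P : Submodule Ω (T → Ω)} (fP : P.FG) (nP : Nv P) (fC : C.FG) (hl : l ∈ C) {z₀ : Z}
    (l0 : l z₀ = 1) {k k₁ : ℕ} {α β : Type} [Finite α] [Finite β] {u : α → T × Z → Ω}
    {v : β → T × Z → Ω} (hu : ∀ t, ∃ a, u a t ≠ 0) (hv : ∀ t, ∃ b, v b t ≠ 0)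
    (huv : ∀ a b, u a * v b ∈ box P C ^ (k₁ + k)) {Ax : Set T}
    (ob : Obs (P ^ k) (P ^ (k₁ + k + k)) Ax (fun a t => u a (t, z₀)) fun b t => v b (t, z₀))
    {s : β → T × Z → Ω} (hs : ∀ b, s b ∈ box P C ^ k) (h1 : ∀ b t, s b (t, z₀) = v b (t, z₀))
    (h2 : ∀ b, ∀ t ∈ Ax, ∀ z, s b (t, z) = v b (t, z)) :
    ∃ τ : T × Z → Ω, (∀ t, τ (t, z₀) = 1) ∧
      ∀ z, l z ≠ 0 → ∀ t b, At (box P C) k (t, z) (τ * v b) := by
  classical
  have := chR_noeth fC l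
  have := fg_pow fP k
  have := fg_pow fP (k₁ + k + k)
  have z0 : l z₀ ≠ 0 := l0 ▸ one_ne_zero
  simp only [box_pow] at huv hs
  choose w hw ew using fun a b => toR l (huv a b)
  choose s₀ hs₀ es using fun b => toR l (hs b)
  obtain ⟨S, hS, e1, e2⟩ := lift (((Pi.evalAlgHom Ω (fun _ => Ω) ⟨z₀, z0⟩).comp (chR C l).val))
    (pow_add P (k₁ + k) k).ge ob
    (fun t => let ⟨a, ha⟩ := hu (t, z₀); let ⟨b, hb⟩ := hv (t, z₀); ⟨a, b, ha, hb⟩) w hw
    (fun a b a' b' t => Subtype.ext (funext fun z => by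
      change (w a b t).1 z * (w a' b' t).1 z = (w a b' t).1 z * (w a' b t).1 z
      simp only [ew, Pi.mul_apply]
      ring))
    (fun a b t => by
      change (w a b t).1 ⟨z₀, z0⟩ = _
      simp only [ew, Pi.mul_apply, l0, one_pow, div_one])
    s₀ hs₀
    (fun b t => by
      change (s₀ b t).1 ⟨z₀, z0⟩ = _
      simp only [es, h1, l0, one_pow, div_one])
    (fun a b b' t ht => Subtype.ext (funext fun z => by
      change (w a b' t).1 z * (s₀ b t).1 z = (w a b t).1 z * (s₀ b' t).1 z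
      simp only [ew, es, Pi.mul_apply, h2 _ t ht]
      ring))
  choose β₀ hβ using hv
  refine ⟨fun t => if h : l t.2 ≠ 0 then (S (β₀ t) t.1).1 ⟨t.2, h⟩ * l t.2 ^ k / v (β₀ t) t else 0,
    fun t => ?_, fun z hz t b => ?_⟩
  · have : (S (β₀ (t, z₀)) t).1 ⟨z₀, z0⟩ = v (β₀ (t, z₀)) (t, z₀) := e1 _ _
    refine (dif_pos z0).trans ?_
    simp only [this, l0, one_pow, mul_one]
    exact div_self (hβ _)
  obtain ⟨n, F, hF, eF⟩ := ofR hl (hS b)
  obtain ⟨m, hm, m0⟩ := nP t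
  refine ⟨n + 1, (fun t : T × Z => m t.1 * l t.2) ^ (n + 1),
    Submodule.pow_mem_pow _ (mem_box hm hl) _, pow_ne_zero _ (mul_ne_zero m0 hz), ?_⟩
  have a1 := Submodule.mul_mem_mul (M := box (P ^ (n + 1)) (C ^ (k + 1)))
    (mem_box (Submodule.pow_mem_pow _ hm (n + 1)) (Submodule.pow_mem_pow _ hl (k + 1))) hF
  rw [box_mul, ← pow_add, ← pow_add, show k + 1 + n = n + 1 + k by ring, ← box_pow] at a1
  refine mem_pow_congr a1 rfl (funext fun ⟨t, z⟩ => ?_)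
  by_cases h : l z = 0
  · simp [h]
  obtain ⟨a, ha⟩ := hu (t, z)
  have a2 : (w a (β₀ (t, z)) t).1 ⟨z, h⟩ * (S b t).1 ⟨z, h⟩ =
      (w a b t).1 ⟨z, h⟩ * (S (β₀ (t, z)) t).1 ⟨z, h⟩ :=
    congrFun (congrArg Subtype.val (e2 a b (β₀ (t, z)) t)) ⟨z, h⟩
  have a3 := hβ (t, z)
  simp only [ew, Pi.mul_apply] at a2
  field_simp at a2
  simp only [Pi.mul_apply, Pi.pow_apply, dif_pos (show l z ≠ 0 from h), eF t ⟨z, h⟩]
  field_simp
  linear_combination m t ^ (n + 1) * l z ^ (n + 1 + k) * a2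

theorem box_assoc {A : Submodule Ω (X → Ω)} {B : Submodule Ω (Y → Ω)} :
    ∀ u ∈ box A (box B C),
      (fun t : (X × Y) × Z => u (t.1.1, t.1.2, t.2)) ∈ box (box A B) C := fun _ hu =>
  box_induction (p := fun u => (fun t : (X × Y) × Z => u (t.1.1, t.1.2, t.2)) ∈ box (box A B) C) hu
    (fun a ha _ hF => box_induction
      (p := fun F => (fun t : (X × Y) × Z => a t.1.1 * F (t.1.2, t.2)) ∈ box (box A B) C) hF
      (fun _ hb _ hc => (congrArg (· ∈ box (box A B) C) (funext fun _ => mul_assoc _ _ _)).mp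
        (mem_box (mem_box ha hb) hc))
      fun _ _ h1 h2 => (congrArg (· ∈ box (box A B) C)
        (funext fun _ => (mul_add _ _ _).symm)).mp (Submodule.add_mem _ h1 h2))
    fun _ _ => Submodule.add_mem _

theorem box_assoc' {A : Submodule Ω (X → Ω)} {B : Submodule Ω (Y → Ω)} :
    ∀ u ∈ box (box A B) C,
      (fun t : X × Y × Z => u ((t.1, t.2.1), t.2.2)) ∈ box A (box B C) := fun _ hu =>
  box_induction (p := fun u => (fun t : X × Y × Z => u ((t.1, t.2.1), t.2.2)) ∈ box A (box B C)) hu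
    (fun _ hF c hc => box_induction
      (p := fun F => (fun t : X × Y × Z => F (t.1, t.2.1) * c t.2.2) ∈ box A (box B C)) hF
      (fun _ ha _ hb => (congrArg (· ∈ box A (box B C))
        (funext fun _ => (mul_assoc _ _ _).symm)).mp (mem_box ha (mem_box hb hc)))
      fun _ _ h1 h2 => (congrArg (· ∈ box A (box B C))
        (funext fun _ => (add_mul _ _ _).symm)).mp (Submodule.add_mem _ h1 h2))
    fun _ _ => Submodule.add_mem _

theorem Nv.one {L : Submodule Ω (T → Ω)} (h : Nv L) (t : T) : ∃ u ∈ L, u t = 1 := by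
  obtain ⟨u, hu, h0⟩ := h t
  exact ⟨(u t)⁻¹ • u, L.smul_mem _ hu, inv_mul_cancel₀ h0⟩

theorem comb {L : Submodule Ω (T → Ω)} {f₁ f₂ f₃ f₄ g : T → Ω} (h1 : f₁ ∈ L) (h2 : f₂ ∈ L)
    (h3 : f₃ ∈ L) (h4 : f₄ ∈ L) (c₁ c₂ c₃ c₄ : Ω)
    (h : ∀ t, c₁ * f₁ t + c₂ * f₂ t + c₃ * f₃ t + c₄ * f₄ t = g t) : g ∈ L :=
  (congrArg (· ∈ L) (funext h)).mp (L.add_mem (L.add_mem (L.add_mem (L.smul_mem c₁ h1)
    (L.smul_mem c₂ h2)) (L.smul_mem c₃ h3)) (L.smul_mem c₄ h4))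

/-- a form with three given faces -/
theorem faces {A : Submodule Ω (X → Ω)} {B : Submodule Ω (Y → Ω)} (fA : A.FG) (fB : B.FG)
    (nA : Nv A) (nB : Nv B) (nC : Nv C) {x₀ : X} {y₀ : Y} {z₀ : Z} {v : X × Y × Z → Ω}
    (h1 : (fun t : Y × Z => v (x₀, t.1, t.2)) ∈ box B C)
    (h2 : (fun t : X × Z => v (t.1, y₀, t.2)) ∈ box A C)
    (h3 : (fun t : X × Y => v (t.1, t.2, z₀)) ∈ box A B) :
    ∃ s ∈ box (box A B) C, (∀ t, s (t, z₀) = v (t.1, t.2, z₀)) ∧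
      ∀ t : X × Y, t.1 = x₀ ∨ t.2 = y₀ → ∀ z, s (t, z) = v (t.1, t.2, z) := by
  obtain ⟨a, ha, a0⟩ := nA.one x₀
  obtain ⟨b, hb, b0⟩ := nB.one y₀
  obtain ⟨c, hc, c0⟩ := nC.one z₀
  have := (Submodule.fg_iff_finiteDimensional _).1 fA
  have := (Submodule.fg_iff_finiteDimensional _).1 (box_fg fA fB)
  refine ⟨fun t => v (x₀, t.1.2, t.2) * a t.1.1 + v (t.1.1, y₀, t.2) * b t.1.2 +
    v (t.1.1, t.1.2, z₀) * c t.2 - v (x₀, y₀, t.2) * a t.1.1 * b t.1.2 -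
    v (x₀, t.1.2, z₀) * a t.1.1 * c t.2 - v (t.1.1, y₀, z₀) * b t.1.2 * c t.2 +
    v (x₀, y₀, z₀) * a t.1.1 * b t.1.2 * c t.2,
    box_of_slices (fun z => box_of_slices (fun y => ?_) fun x => ?_) fun t => ?_, fun t => ?_, ?_⟩
  · exact comb ha (box_left h2 z) (box_left h3 y) (box_left h3 y₀)
      (v (x₀, y, z) - v (x₀, y₀, z) * b y - v (x₀, y, z₀) * c z + v (x₀, y₀, z₀) * b y * c z)
      (b y) (c z) (-(b y * c z)) fun x => by ring
  · exact comb hb (box_left h1 z) (box_right h3 x) (box_right h3 x₀)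
      (v (x, y₀, z) - v (x₀, y₀, z) * a x - v (x, y₀, z₀) * c z + v (x₀, y₀, z₀) * a x * c z)
      (a x) (c z) (-(a x * c z)) fun y => by ring
  · exact comb hc (box_right h1 t.2) (box_right h2 t.1) (box_right h2 x₀)
      (v (t.1, t.2, z₀) - v (x₀, t.2, z₀) * a t.1 - v (t.1, y₀, z₀) * b t.2 +
        v (x₀, y₀, z₀) * a t.1 * b t.2) (a t.1) (b t.2) (-(a t.1 * b t.2)) fun z => by ring
  · simp only [c0]
    ring
  · rintro ⟨x, y⟩ (rfl | rfl) z
    · simp only [a0]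
      ring
    · simp only [b0]
      ring

theorem core {A : Submodule Ω (X → Ω)} {B : Submodule Ω (Y → Ω)}
    {C : Submodule Ω (Z → Ω)} (fA : A.FG) (nA : Nv A) (dA : Dm A) (fB : B.FG) (nB : Nv B)
    (dB : Dm B) (cA : Cpl A) (cB : Cpl B) (fC : C.FG) (nC : Nv C) (hc : Cpl (box A B))
    (x₀ : X) (y₀ : Y) (z₀ : Z) :
    ∃ k₀, ∀ k, k₀ ≤ k → ∀ (k₁ : ℕ) (α β : Type) [Finite α] [Finite β]
      (u : α → X × Y × Z → Ω) (v : β → X × Y × Z → Ω), (∀ t, ∃ a, u a t ≠ 0) →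
      (∀ t, ∃ b, v b t ≠ 0) → (∀ a b, u a * v b ∈ box A (box B C) ^ (k₁ + k)) →
      (∀ b, (fun t : Y × Z => v b (x₀, t.1, t.2)) ∈ box B C ^ k) →
      (∀ b, (fun t : X × Z => v b (t.1, y₀, t.2)) ∈ box A C ^ k) →
      (∀ b, (fun t : X × Y => v b (t.1, t.2, z₀)) ∈ box A B ^ k) →
      (∀ a, (fun t : X × Y => u a (t.1, t.2, z₀)) ∈ box A B ^ k₁) →
      ∃ τ : X × Y × Z → Ω, (∀ x y, τ (x, y, z₀) = 1) ∧
        ∀ᶠ z in nb C z₀, ∀ x y b, At (box A (box B C)) k (x, y, z) (τ * v b) := by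
  obtain ⟨k₀, hk⟩ := obs fA nA dA fB nB dB cA cB hc x₀ y₀
  refine ⟨k₀, fun k h k₁ α β _ _ u v hu hv huv h1 h2 h3 h4 => ?_⟩
  obtain ⟨l, hl, l0⟩ := nC.one z₀
  have ob := hk k h k₁ α β _ _ h4 h3 fun t =>
    let ⟨a, ha⟩ := hu (t.1, t.2, z₀); let ⟨b, hb⟩ := hv (t.1, t.2, z₀); ⟨a, b, ha, hb⟩
  simp only [box_pow] at h1 h2 h3
  choose s hs s1 s2 using fun b => faces (fA.pow k) (fB.pow k) (nA.pow k) (nB.pow k) (nC.pow k)
    (h1 b) (h2 b) (h3 b)
  simp only [← box_pow] at hs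
  obtain ⟨τ, t1, t2⟩ := core0 (box_fg fA fB) (nA.box nB) fC hl l0
    (u := fun a t => u a (t.1.1, t.1.2, t.2)) (v := fun b t => v b (t.1.1, t.1.2, t.2))
    (fun t => hu _) (fun t => hv _) (fun a b => lin_pow box_assoc _ _ (huv a b)) ob hs s1 s2
  exact ⟨fun t => τ ((t.1, t.2.1), t.2.2), fun x y => t1 _, ev_nb.2 ⟨1, l, by rwa [pow_one],
    l0 ▸ one_ne_zero, fun z hz x y b =>
      (At.lin (j := fun t : X × Y × Z => ((t.1, t.2.1), t.2.2)) (t := (x, y, z)) box_assoc'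
        (t2 z hz (x, y) b) :)⟩⟩

end Pool.Agent.Tav.Cu
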