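import Pool.Agent.P.MP_2ce3e7_ag.Tav.CuB

/-! Theorem of the cube: a trivialisation lifts from the closed point to a noetherian base. -/

set_option autoImplicit false

noncomputable section

namespace Pool.Agent.Tav.Cu

open Module Function

variable {Ω : Type} [Field Ω] {T R α β : Type} [CommRing R] [Algebra Ω R]
  {W W' W'' : Submodule Ω (T → Ω)}

theorem lf_of_mem {f : T → Ω} (h : f ∈ W) : (fun t => algebraMap Ω R (f t)) ∈ spR R W :=
  Submodule.subset_span ⟨f, h, rfl⟩

theorem lf_mul (hW : W' * W ≤ W'') {F G : T → R} (hF : F ∈ spR R W') (hG : G ∈ spR R W) :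
    F * G ∈ spR R W'' := by
  have : spR R W' * spR R W ≤ spR R W'' := by
    rw [spR, spR, Submodule.span_mul_span, Submodule.span_le]
    rintro _ ⟨_, ⟨f, hf, rfl⟩, _, ⟨g, hg, rfl⟩, rfl⟩
    have h := lf_of_mem (R := R) (hW (Submodule.mul_mem_mul hf hg))
    rwa [show (fun t => algebraMap Ω R ((f * g) t)) =
      (fun t => algebraMap Ω R (f t)) * fun t => algebraMap Ω R (g t) from
        funext fun t => map_mul _ _ _] at h
  exact this (Submodule.mul_mem_mul hF hG)

theorem lf_fun (θ : R →ₗ[Ω] Ω) {F : T → R} (hF : F ∈ spR R W) : (fun t => θ (F t)) ∈ W := by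
  have : ∀ r : R, (fun t => θ (r * F t)) ∈ W := by
    refine Submodule.span_induction (p := fun F _ => ∀ r : R, (fun t => θ (r * F t)) ∈ W)
      ?_ ?_ ?_ ?_ hF
    · rintro _ ⟨f, hf, rfl⟩ r
      have h := W.smul_mem (θ r) hf
      rwa [show θ r • f = fun t => θ (r * algebraMap Ω R (f t)) from funext fun t => by
        rw [mul_comm r, ← Algebra.smul_def, map_smul, Pi.smul_apply, smul_eq_mul, smul_eq_mul,
          mul_comm]] at h
    · intro r
      have h := W.zero_mem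
      rwa [show (0 : T → Ω) = fun t => θ (r * (0 : T → R) t) from funext fun t => by simp] at h
    · intro F G _ _ h1 h2 r
      have h := W.add_mem (h1 r) (h2 r)
      rwa [show ((fun t => θ (r * F t)) + fun t => θ (r * G t)) = fun t => θ (r * (F + G) t) from
        funext fun t => by simp [mul_add]] at h
    · intro a F _ h1 r
      have h := h1 (r * a)
      rwa [show (fun t => θ (r * a * F t)) = fun t => θ (r * (a • F) t) from
        funext fun t => by simp [mul_assoc]] at h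
  simpa using this 1

theorem lf_lag {n : ℕ} {c : Fin n → T → Ω} {x : Fin n → T}
    (h : ∀ u ∈ W, u = ∑ i, u (x i) • c i) {F : T → R} (hF : F ∈ spR R W) (t : T) :
    F t = ∑ i, c i t • F (x i) := by
  refine Submodule.span_induction (p := fun F _ => F t = ∑ i, c i t • F (x i)) ?_ ?_ ?_ ?_ hF
  · rintro _ ⟨f, hf, rfl⟩
    have h1 := congrFun (h f hf) t
    simp only [Finset.sum_apply, Pi.smul_apply, smul_eq_mul] at h1
    change algebraMap Ω R (f t) = ∑ i, c i t • algebraMap Ω R (f (x i))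
    rw [h1, map_sum]
    exact Finset.sum_congr rfl fun i _ => by rw [map_mul, Algebra.smul_def, mul_comm]
  · simp
  · intro F G _ _ h1 h2
    simp only [Pi.add_apply, smul_add, Finset.sum_add_distrib]
    rw [← h1, ← h2]
  · intro a F _ h1
    simp only [Pi.smul_apply, smul_eq_mul]
    rw [h1, Finset.mul_sum]
    exact Finset.sum_congr rfl fun i _ => mul_smul_comm _ _ _

/-- coordinates on a finite dimensional space modulo a subspace -/
theorem lf_split {V : Type} [AddCommGroup V] [Module Ω V] (J U : Submodule Ω V)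
    [FiniteDimensional Ω U] : ∃ (n : ℕ) (ε : Fin n → V) (θ : Fin n → V →ₗ[Ω] Ω),
      (∀ i, ε i ∈ U) ∧ (∀ i, ∀ y ∈ J, θ i y = 0) ∧ ∀ y ∈ U, y - ∑ i, θ i y • ε i ∈ J := by
  let b := Module.finBasis Ω (U.map J.mkQ)
  choose ε h1 h2 using fun i => (b i).2
  choose θ h3 using fun i => LinearMap.exists_extend (b.coord i)
  refine ⟨_, ε, fun i => θ i ∘ₗ J.mkQ, h1, fun i y hy => ?_, fun y hy => ?_⟩
  · rw [LinearMap.comp_apply, Submodule.mkQ_apply, (Submodule.Quotient.mk_eq_zero J).2 hy,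
      map_zero]
  · rw [← Submodule.Quotient.mk_eq_zero, ← Submodule.mkQ_apply, map_sub, map_sum, sub_eq_zero]
    have h := congrArg Subtype.val (b.sum_repr ⟨J.mkQ y, y, hy, rfl⟩)
    rw [Submodule.coe_sum] at h
    refine h.symm.trans (Finset.sum_congr rfl fun i _ => ?_)
    rw [map_smul, h2, Submodule.coe_smul]
    congr 1
    exact (LinearMap.congr_fun (h3 i) ⟨J.mkQ y, y, hy, rfl⟩).symm

/-- the defect of a family of functions -/
def lfD (w : α → β → T → R) : (β → T → R) →ₗ[R] (α × β × β → T → R) where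
  toFun S p t := w p.1 p.2.2 t * S p.2.1 t - w p.1 p.2.1 t * S p.2.2 t
  map_add' S S' := funext fun p => funext fun t => by simp only [Pi.add_apply]; ring
  map_smul' r S := funext fun p => funext fun t => by
    simp only [Pi.smul_apply, smul_eq_mul, RingHom.id_apply]; ring

theorem lfD_apply (w : α → β → T → R) (S : β → T → R) (p : α × β × β) (t : T) :
    lfD w S p t = w p.1 p.2.2 t * S p.2.1 t - w p.1 p.2.1 t * S p.2.2 t := rfl

theorem lfD_mem (hW : W' * W ≤ W'') {w : α → β → T → R} (hw : ∀ a b, w a b ∈ spR R W')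
    {S : β → T → R} (hS : ∀ b, S b ∈ spR R W) (p : α × β × β) : lfD w S p ∈ spR R W'' :=
  Submodule.sub_mem _ (lf_mul hW (hw _ _) (hS _)) (lf_mul hW (hw _ _) (hS _))

theorem lf_sub_ev (ev : R →ₐ[Ω] Ω) (I : Ideal R) (r : R) {y : R} (hy : y ∈ I) :
    r * y - ev r • y ∈ RingHom.ker ev * I := by
  rw [Algebra.smul_def, ← sub_mul]
  exact Ideal.mul_mem_mul (by simp [RingHom.mem_ker]) hy

/-- one infinitesimal step -/
theorem lf_step [Finite α] [Finite β] (ev : R →ₐ[Ω] Ω) [FiniteDimensional Ω W'']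
    (hW : W' * W ≤ W'') {Ax : Set T} {μ : α → T → Ω} {s : β → T → Ω}
    (obs : Obs W W'' Ax μ s) (h0 : ∀ t, ∃ a b, μ a t ≠ 0 ∧ s b t ≠ 0)
    {w : α → β → T → R} (hw : ∀ a b, w a b ∈ spR R W')
    (rk : ∀ a b a' b' t, w a b t * w a' b' t = w a b' t * w a' b t)
    (hev : ∀ a b t, ev (w a b t) = μ a t * s b t) {I : Ideal R} (hI : I ≤ RingHom.ker ev)
    {S : β → T → R} (hS : ∀ b, S b ∈ spR R W) (hax : ∀ p, ∀ t ∈ Ax, lfD w S p t = 0)
    (hD : ∀ p t, lfD w S p t ∈ I) :
    ∃ y : β → T → R, (∀ b, y b ∈ spR R W) ∧ (∀ b, ∀ t ∈ Ax, y b t = 0) ∧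
      (∀ b t, ev (y b t) = 0) ∧ ∀ p t, lfD w (S - y) p t ∈ RingHom.ker ev * I := by
  obtain ⟨n, c, x, -, hc⟩ := lag W''
  choose a₀ b₀ ha hb using h0
  let U : Submodule Ω R := Submodule.span Ω
    (Set.range fun q : (α × β × β) × Fin n => lfD w S q.1 (x q.2))
  have : FiniteDimensional Ω U := FiniteDimensional.span_of_finite Ω (Set.finite_range _)
  have hUI : ∀ y ∈ U, y ∈ I := fun y hy =>
    (Submodule.span_le.2 (by rintro _ ⟨q, rfl⟩; exact hD _ _) : U ≤ I.restrictScalars Ω) hy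
  have hU : ∀ p t, lfD w S p t ∈ U := fun p t => by
    rw [lf_lag hc (lfD_mem hW hw hS p) t]
    exact U.sum_mem fun i _ => U.smul_mem _ (Submodule.subset_span ⟨(p, i), rfl⟩)
  obtain ⟨k, ε, θ, h1, h2, h3⟩ := lf_split ((RingHom.ker ev * I).restrictScalars Ω) U
  have hθ : ∀ i r, ∀ y ∈ I, θ i (r * y) = ev r * θ i y := fun i r y hy => by
    have h := h2 i _ (lf_sub_ev ev I r hy)
    rwa [map_sub, map_smul, sub_eq_zero] at h
  have key : ∀ i a b b' t, μ a t * (s b' t * ((μ (a₀ t) t * s (b₀ t) t)⁻¹ *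
        θ i (lfD w S (a₀ t, b, b₀ t) t)) - s b t * ((μ (a₀ t) t * s (b₀ t) t)⁻¹ *
        θ i (lfD w S (a₀ t, b', b₀ t) t))) = θ i (lfD w S (a, b, b') t) := fun i a b b' t => by
    have e : w a b' t * lfD w S (a₀ t, b, b₀ t) t - w a b t * lfD w S (a₀ t, b', b₀ t) t =
        w (a₀ t) (b₀ t) t * lfD w S (a, b, b') t := by
      simp only [lfD_apply]
      linear_combination S (b₀ t) t * rk a b (a₀ t) b' t
    have e' := congrArg (θ i) e
    rw [map_sub, hθ i _ _ (hD _ _), hθ i _ _ (hD _ _), hθ i _ _ (hD _ _), hev, hev, hev] at e'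
    have h4 := ha t
    have h5 := hb t
    field_simp
    linear_combination e'
  have hob := fun i => obs (fun b t => (μ (a₀ t) t * s (b₀ t) t)⁻¹ *
      θ i (lfD w S (a₀ t, b, b₀ t) t)) (fun b t ht => by simp [hax _ t ht]) fun a b b' => by
    simp only [key]
    exact lf_fun (θ i) (lfD_mem hW hw hS _)
  choose ξ g1 g2 g3 using hob
  simp only [key] at g3
  refine ⟨fun b => ∑ i, ε i • fun t => algebraMap Ω R (ξ i b t), fun b =>
    Submodule.sum_mem _ fun i _ => Submodule.smul_mem _ _ (lf_of_mem (g1 i b)),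
    fun b t ht => by simp [g2 _ b t ht], fun b t => ?_, fun p t => ?_⟩
  · simp only [Finset.sum_apply, Pi.smul_apply, smul_eq_mul, map_sum, map_mul]
    exact Finset.sum_eq_zero fun i _ => by
      rw [show ev (ε i) = 0 from hI (hUI _ (h1 i)), zero_mul]
  · have e : lfD w (S - fun b => ∑ i, ε i • fun t => algebraMap Ω R (ξ i b t)) p t =
        (lfD w S p t - ∑ i, θ i (lfD w S p t) • ε i) -
          ∑ i, ((w p.1 p.2.2 t * algebraMap Ω R (ξ i p.2.1 t) -
            w p.1 p.2.1 t * algebraMap Ω R (ξ i p.2.2 t)) * ε i -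
            ev (w p.1 p.2.2 t * algebraMap Ω R (ξ i p.2.1 t) -
              w p.1 p.2.1 t * algebraMap Ω R (ξ i p.2.2 t)) • ε i) := by
      rw [map_sub, Pi.sub_apply, Pi.sub_apply, sub_sub, ← Finset.sum_add_distrib]
      congr 1
      rw [lfD_apply]
      simp only [Finset.sum_apply, Pi.smul_apply, smul_eq_mul, Finset.mul_sum]
      rw [← Finset.sum_sub_distrib]
      refine Finset.sum_congr rfl fun i _ => ?_
      have h := g3 i p.1 p.2.1 p.2.2 t
      rw [← show ev (w p.1 p.2.2 t * algebraMap Ω R (ξ i p.2.1 t) -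
          w p.1 p.2.1 t * algebraMap Ω R (ξ i p.2.2 t)) = θ i (lfD w S p t) by
        simp only [map_sub, map_mul, hev, AlgHom.commutes, Algebra.algebraMap_self,
          RingHom.id_apply]
        linear_combination h]
      ring
    rw [e]
    exact Ideal.sub_mem _ (h3 _ (hU p t))
      (Ideal.sum_mem _ fun i _ => lf_sub_ev ev I _ (hUI _ (h1 i)))

theorem lift [Finite α] [Finite β] [IsNoetherianRing R]
    (ev : R →ₐ[Ω] Ω) {W W' W'' : Submodule Ω (T → Ω)} [FiniteDimensional Ω W]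
    [FiniteDimensional Ω W''] (hW : W' * W ≤ W'') {Ax : Set T} {μ : α → T → Ω} {s : β → T → Ω}
    (obs : Obs W W'' Ax μ s) (h0 : ∀ t, ∃ a b, μ a t ≠ 0 ∧ s b t ≠ 0)
    (w : α → β → T → R) (hw : ∀ a b, w a b ∈ spR R W')
    (rk : ∀ a b a' b' t, w a b t * w a' b' t = w a b' t * w a' b t)
    (hev : ∀ a b t, ev (w a b t) = μ a t * s b t)
    (s₀ : β → T → R) (hs : ∀ b, s₀ b ∈ spR R W) (hs' : ∀ b t, ev (s₀ b t) = s b t)
    (hax : ∀ a b b', ∀ t ∈ Ax, w a b' t * s₀ b t = w a b t * s₀ b' t) :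
    ∃ S : β → T → R, (∀ b, S b ∈ spR R W) ∧ (∀ b t, ev (S b t) = s b t) ∧
      ∀ a b b' t, w a b' t * S b t = w a b t * S b' t := by
  classical
  let N : Submodule R (β → T → R) :=
    { carrier := {y | (∀ b, y b ∈ spR R W) ∧ (∀ b, ∀ t ∈ Ax, y b t = 0) ∧ ∀ b t, ev (y b t) = 0}
      add_mem' := fun hy hz => ⟨fun b => Submodule.add_mem _ (hy.1 b) (hz.1 b),
        fun b t ht => by simp [hy.2.1 b t ht, hz.2.1 b t ht],
        fun b t => by simp [hy.2.2 b t, hz.2.2 b t]⟩
      zero_mem' := ⟨fun b => Submodule.zero_mem _, fun _ _ _ => rfl, fun _ _ => map_zero _⟩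
      smul_mem' := fun r y hy => ⟨fun b => Submodule.smul_mem _ r (hy.1 b),
        fun b t ht => by simp [hy.2.1 b t ht], fun b t => by simp [hy.2.2 b t]⟩ }
  have ind : ∀ n : ℕ, ∃ y ∈ N, ∀ p t, lfD w (s₀ - y) p t ∈ RingHom.ker ev ^ (n + 1) := by
    intro n
    induction n with
    | zero =>
      refine ⟨0, N.zero_mem, fun p t => ?_⟩
      rw [sub_zero, zero_add, pow_one, RingHom.mem_ker, lfD_apply]
      simp only [map_sub, map_mul, hev, hs']
      ring
    | succ n ih =>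
      obtain ⟨y, hy, h⟩ := ih
      obtain ⟨z, g1, g2, g3, g4⟩ := lf_step ev hW obs h0 hw rk hev
        (Ideal.pow_le_self n.succ_ne_zero) (S := s₀ - y)
        (fun b => Submodule.sub_mem _ (hs b) (hy.1 b)) (fun p t ht => by
          simp only [lfD_apply, Pi.sub_apply, hy.2.1 _ t ht, sub_zero, hax _ _ _ t ht, sub_self]) h
      refine ⟨y + z, N.add_mem hy ⟨g1, g2, g3⟩, fun p t => ?_⟩
      rw [← sub_sub, pow_succ']
      exact g4 p t
  obtain ⟨n, c, x, -, hc⟩ := lag W''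
  have := Fintype.ofFinite ((α × β × β) × Fin n)
  let φ : (β → T → R) →ₗ[R] ((α × β × β) × Fin n → R) :=
    LinearMap.pi fun q => LinearMap.proj (x q.2) ∘ₗ LinearMap.proj q.1 ∘ₗ lfD w
  obtain ⟨r, hr⟩ := (Ideal.mem_iInf_smul_pow_eq_bot_iff (RingHom.ker ev)
      ((N.map φ).mkQ (φ s₀))).1 (by
    refine (Submodule.mem_iInf _).2 fun i => ?_
    obtain ⟨y, hy, h⟩ := ind i
    have e : (N.map φ).mkQ (φ s₀) = (N.map φ).mkQ (φ (s₀ - y)) := by
      rw [map_sub, map_sub, Submodule.mkQ_apply _ (φ y),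
        (Submodule.Quotient.mk_eq_zero _).2 (Submodule.mem_map_of_mem hy), sub_zero]
    rw [e, pi_eq_sum_univ (φ (s₀ - y)), map_sum]
    refine Submodule.sum_mem _ fun q _ => ?_
    rw [map_smul]
    exact Submodule.smul_mem_smul (Ideal.pow_le_pow_right i.le_succ (h q.1 (x q.2))) trivial)
  have h1 : φ s₀ - (r : R) • φ s₀ ∈ N.map φ := by
    rw [← Submodule.Quotient.mk_eq_zero, ← Submodule.mkQ_apply, map_sub, map_smul, hr, sub_self]
  obtain ⟨y, hy, h2⟩ := h1
  have h3 : ∀ b, (s₀ - (r : R) • s₀ - y) b ∈ spR R W := fun b =>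
    Submodule.sub_mem _ (Submodule.sub_mem _ (hs b) (Submodule.smul_mem _ _ (hs b))) (hy.1 b)
  have h4 : φ (s₀ - (r : R) • s₀ - y) = 0 := by rw [map_sub, map_sub, map_smul, h2, sub_self]
  refine ⟨s₀ - (r : R) • s₀ - y, h3, fun b t => ?_, fun a b b' t => ?_⟩
  · have h5 : ev r = 0 := r.2
    simp [hs', hy.2.2 b t, h5]
  · have h5 := lf_lag hc (lfD_mem hW hw h3 (a, b, b')) t
    rw [Finset.sum_eq_zero fun i _ => by
      rw [show lfD w (s₀ - (r : R) • s₀ - y) (a, b, b') (x i) = 0 from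
        congrFun h4 ((a, b, b'), i), smul_zero]] at h5
    exact sub_eq_zero.1 h5

end Pool.Agent.Tav.Cu
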