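import Pool.Agent.P.MP_2ce3e7_ag.Tav.CuA

/-! Sections of large degree are forms; sections of degree zero are constant. -/

set_option autoImplicit false

noncomputable section

namespace Pool.Agent.Tav.Cu

open Filter Polynomial

variable {Ω : Type} [Field Ω] {T S : Type} {L : Submodule Ω (T → Ω)}
  {J : ℕ → Submodule Ω (T → Ω)}

/-- a graded ideal of the ring of forms -/
structure GI (L : Submodule Ω (T → Ω)) (J : ℕ → Submodule Ω (T → Ω)) : Prop where
  le : ∀ d, J d ≤ L ^ d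
  mul : ∀ d, L * J d ≤ J (d + 1)

theorem GI.pow_mul (h : GI L J) (a d : ℕ) : L ^ a * J d ≤ J (a + d) := by
  induction a with
  | zero => simp
  | succ a ih =>
    rw [pow_succ', mul_assoc, Nat.add_right_comm]
    exact (mul_le_mul_right ih L).trans (h.mul _)

theorem GI.mem (h : GI L J) {a d : ℕ} {f g : T → Ω} (hf : f ∈ L ^ a) (hg : g ∈ J d) :
    f * g ∈ J (a + d) := h.pow_mul a d (Submodule.mul_mem_mul hf hg)

/-- the ring of forms -/
def RS (L : Submodule Ω (T → Ω)) : Subalgebra Ω (T → Ω)[X] where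
  carrier := {F | ∀ d, F.coeff d ∈ L ^ d}
  mul_mem' := fun {F G} hF hG d => by
    rw [coeff_mul]
    refine Submodule.sum_mem _ fun x hx => ?_
    exact mem_pow_congr (mul_mem_pow (hF x.1) (hG x.2)) (Finset.HasAntidiagonal.mem_antidiagonal.1 hx) rfl
  add_mem' := fun {F G} hF hG d => by
    rw [coeff_add]; exact Submodule.add_mem _ (hF d) (hG d)
  algebraMap_mem' := fun c d => by
    rw [Polynomial.algebraMap_apply, coeff_C]
    split_ifs with h
    · subst h
      rw [pow_zero]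
      exact Submodule.algebraMap_mem c
    · exact Submodule.zero_mem _

theorem monomial_mem_RS {d : ℕ} {f : T → Ω} (hf : f ∈ L ^ d) : monomial d f ∈ RS L := fun e => by
  rw [coeff_monomial]
  split_ifs with h
  · exact h ▸ hf
  · exact Submodule.zero_mem _

theorem RS_noeth (h : L.FG) : IsNoetherianRing (RS L) := by
  classical
  obtain ⟨s, hs⟩ := h
  refine isNoetherianRing_of_fg ⟨s.image (monomial 1), le_antisymm ?_ ?_⟩
  · rw [Algebra.adjoin_le_iff, Finset.coe_image]
    rintro _ ⟨f, hf, rfl⟩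
    exact monomial_mem_RS (by rw [pow_one, ← hs]; exact Submodule.subset_span hf)
  · set A := Algebra.adjoin Ω ((s.image (monomial 1) : Finset (T → Ω)[X]) : Set (T → Ω)[X])
    have h1 : ∀ f ∈ L, monomial 1 f ∈ A := fun f hf => by
      rw [← hs] at hf
      induction hf using Submodule.span_induction with
      | mem x hx => exact Algebra.subset_adjoin (by
          rw [Finset.coe_image]; exact Set.mem_image_of_mem _ hx)
      | zero => rw [map_zero]; exact A.zero_mem
      | add x y _ _ hx hy => rw [map_add]; exact A.add_mem hx hy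
      | smul c x _ hx => rw [← smul_monomial]; exact A.smul_mem hx c
    have h2 : ∀ n, ∀ f ∈ L ^ n, monomial n f ∈ A := fun n => by
      induction n with
      | zero =>
        intro f hf
        rw [pow_zero, Submodule.mem_one] at hf
        obtain ⟨c, rfl⟩ := hf
        exact A.algebraMap_mem c
      | succ n ih =>
        intro f hf
        rw [pow_succ] at hf
        refine Submodule.mul_induction_on hf (fun a ha b hb => ?_) fun a b ha hb => ?_
        · rw [← monomial_mul_monomial]; exact A.mul_mem (ih a ha) (h1 b hb)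
        · rw [map_add]; exact A.add_mem ha hb
    intro F hF
    rw [F.as_sum_support]
    exact A.sum_mem fun i _ => h2 i _ (hF i)

/-- the ideal of a graded family -/
def GI.ideal (h : GI L J) : Ideal (RS L) where
  carrier := {F | ∀ d, F.1.coeff d ∈ J d}
  add_mem' := fun {F G} hF hG d => by
    rw [Subalgebra.coe_add, coeff_add]; exact Submodule.add_mem _ (hF d) (hG d)
  zero_mem' := fun d => by simp
  smul_mem' := fun F G hG d => by
    rw [smul_eq_mul, Subalgebra.coe_mul, coeff_mul]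
    refine Submodule.sum_mem _ fun x hx => ?_
    exact Finset.HasAntidiagonal.mem_antidiagonal.1 hx ▸ h.mem (F.2 x.1) (hG x.2)

theorem GI.monomial_mem (h : GI L J) {d : ℕ} {f : T → Ω} (hf : f ∈ J d) :
    (⟨monomial d f, monomial_mem_RS (h.le d hf)⟩ : RS L) ∈ h.ideal := fun e => by
  change (monomial d f).coeff e ∈ J e
  rw [coeff_monomial]
  split_ifs with h
  · exact h ▸ hf
  · exact Submodule.zero_mem _

/-- a graded ideal is generated in one degree, from that degree on -/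
theorem GI.noeth (h : GI L J) (hL : L.FG) : ∃ d₀, ∀ a, J (a + d₀) ≤ L ^ a * J d₀ := by
  have := RS_noeth hL
  obtain ⟨s, hs⟩ := IsNoetherian.noetherian h.ideal
  refine ⟨s.sup fun F => F.1.natDegree, fun a f hf => ?_⟩
  set d₀ := s.sup fun F => F.1.natDegree
  have key : ∀ F ∈ Submodule.span (RS L) (s : Set (RS L)), ∀ a,
      F.1.coeff (a + d₀) ∈ L ^ a * J d₀ := fun F hF => by
    induction hF using Submodule.span_induction with
    | mem x hx =>
      intro a
      have h1 : x ∈ h.ideal := hs ▸ Submodule.subset_span hx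
      rcases a with _ | a
      · simpa using h1 d₀
      · have h2 : x.1.natDegree ≤ d₀ := Finset.le_sup (f := fun F : RS L => F.1.natDegree) hx
        rw [coeff_eq_zero_of_natDegree_lt (by omega)]
        exact Submodule.zero_mem _
    | zero => intro a; simp
    | add x y _ _ hx hy =>
      intro a
      rw [Subalgebra.coe_add, coeff_add]; exact Submodule.add_mem _ (hx a) (hy a)
    | smul c x hm hx =>
      intro a
      have h1 : x ∈ h.ideal := hs ▸ hm
      rw [smul_eq_mul, Subalgebra.coe_mul, coeff_mul]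
      refine Submodule.sum_mem _ fun y hy => ?_
      have h2 := Finset.HasAntidiagonal.mem_antidiagonal.1 hy
      rcases le_total d₀ y.2 with h3 | h3
      · obtain ⟨b, hb⟩ := Nat.exists_eq_add_of_le' h3
        have h4 := Submodule.mul_mem_mul (c.2 y.1) (hx b)
        rwa [← mul_assoc, ← pow_add, ← hb, show y.1 + b = a by omega] at h4
      · obtain ⟨b, hb⟩ := Nat.exists_eq_add_of_le' h3
        have h4 := Submodule.mul_mem_mul (c.2 y.1) (h1 y.2)
        rw [show L ^ y.1 = L ^ a * L ^ b by rw [← pow_add]; congr 1; omega, mul_assoc] at h4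
        have h5 : L ^ a * (L ^ b * J y.2) ≤ L ^ a * J d₀ :=
          mul_le_mul_right (hb ▸ h.pow_mul b y.2) _
        exact h5 h4
  have := key _ (hs ▸ h.monomial_mem hf) a
  simpa using this

theorem GI.nv_add (h : GI L J) (hL : Nv L) {d : ℕ} {t : T} {b : T → Ω} (hb : b ∈ J d)
    (h0 : b t ≠ 0) (a : ℕ) : ∃ u ∈ J (a + d), u t ≠ 0 := by
  obtain ⟨u, hu, h1⟩ := hL.pow a t
  exact ⟨u * b, h.mem hu hb, mul_ne_zero h1 h0⟩

theorem ne_of_mul {U V : Submodule Ω (T → Ω)} {f : T → Ω} {t : T} (hf : f ∈ U * V)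
    (h : f t ≠ 0) : ∃ v ∈ V, v t ≠ 0 := by
  by_contra hn
  refine h (Submodule.mul_induction_on (C := fun f => f t = 0) hf (fun a _ b hb => ?_)
    fun a b ha hb => ?_)
  · have : b t = 0 := by_contra fun e => hn ⟨b, hb, e⟩
    simp [this]
  · simp [ha, hb]

/-- quasi-compactness -/
theorem GI.qc (h : GI L J) (hL : L.FG) (hn : Nv L) (h0 : ∀ t, ∃ d, ∃ b ∈ J d, b t ≠ 0) :
    ∃ d, Nv (J d) := by
  obtain ⟨d₀, hd⟩ := h.noeth hL
  refine ⟨d₀, fun t => ?_⟩
  obtain ⟨d, b, hb, h1⟩ := h0 t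
  obtain ⟨u, hu, h2⟩ := h.nv_add hn hb h1 d₀
  rw [add_comm] at hu
  exact ne_of_mul (hd d hu) h2

theorem Cpl.all (hc : Cpl L) (h : GI L J) (hL : L.FG) (hn : Nv L)
    (h0 : ∀ t, ∃ d, ∃ b ∈ J d, b t ≠ 0) : ∃ N, ∀ a, L ^ (a + N) ≤ J (a + N) := by
  obtain ⟨d, hd⟩ := h.qc hL hn h0
  obtain ⟨N, hN⟩ := hc d _ (h.le d) hd
  refine ⟨N + d, fun a => ?_⟩
  rw [pow_add]
  refine (mul_le_mul_right (hN.trans ?_) _).trans (h.pow_mul a _)
  rw [mul_comm]
  exact h.pow_mul N d

/-- a section has all forms of some degree as denominators -/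
theorem Cpl.den (hc : Cpl L) (hL : L.FG) (hn : Nv L) {k : ℕ} {f : T → Ω} (hf : f ∈ Gam L k) :
    ∃ N, ∀ g ∈ L ^ N, g * f ∈ L ^ (N + k) := by
  have h : GI L fun d => L ^ d ⊓ (L ^ (d + k)).comap (LinearMap.mulRight Ω f) :=
    ⟨fun _ => inf_le_left, fun d => Submodule.mul_le.2 fun u hu b hb =>
      ⟨by rw [pow_succ']; exact Submodule.mul_mem_mul hu hb.1, by
        have := Submodule.mul_mem_mul hu (show b * f ∈ L ^ (d + k) from hb.2)
        rw [← pow_succ', Nat.add_right_comm] at this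
        exact mem_pow_congr this rfl (mul_assoc u b f).symm⟩⟩
  obtain ⟨N, hN⟩ := hc.all h hL hn fun t => by
    obtain ⟨e, b, h1, h2, h3⟩ := hf t
    exact ⟨e, b, ⟨h1, h3⟩, h2⟩
  refine ⟨N, fun g hg => ?_⟩
  have := hN 0
  rw [zero_add] at this
  exact (this hg).2

/-- the forms that are carried into `J` by all forms of degree `N` -/
def col (L : Submodule Ω (T → Ω)) (J : ℕ → Submodule Ω (T → Ω)) (d N : ℕ) :
    Submodule Ω (T → Ω) where
  carrier := {m | m ∈ L ^ d ∧ ∀ g ∈ L ^ N, g * m ∈ J (N + d)}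
  add_mem' ha hb := ⟨Submodule.add_mem _ ha.1 hb.1, fun g hg => by
    rw [mul_add]; exact Submodule.add_mem _ (ha.2 g hg) (hb.2 g hg)⟩
  zero_mem' := ⟨Submodule.zero_mem _, fun g _ => by rw [mul_zero]; exact Submodule.zero_mem _⟩
  smul_mem' c _ ha := ⟨Submodule.smul_mem _ c ha.1, fun g hg => by
    rw [mul_smul_comm]; exact Submodule.smul_mem _ c (ha.2 g hg)⟩

theorem GI.col_mono (h : GI L J) (d : ℕ) : Monotone (col L J d) :=
  monotone_nat_of_le_succ fun N m hm => ⟨hm.1, fun g hg => by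
    rw [pow_succ'] at hg
    refine Submodule.mul_induction_on hg (fun a ha b hb => ?_) fun a b ha hb => ?_
    · rw [mul_assoc, Nat.add_right_comm]
      exact h.mul _ (Submodule.mul_mem_mul ha (hm.2 b hb))
    · rw [add_mul]; exact Submodule.add_mem _ ha hb⟩

/-- the saturation -/
def GI.sat (h : GI L J) (d : ℕ) : Submodule Ω (T → Ω) :=
  ⨆ N, (⟨col L J d, h.col_mono d⟩ : ℕ →o Submodule Ω (T → Ω)) N

theorem GI.mem_sat (h : GI L J) {d : ℕ} {m : T → Ω} :
    m ∈ h.sat d ↔ ∃ N, m ∈ L ^ d ∧ ∀ g ∈ L ^ N, g * m ∈ J (N + d) :=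
  Submodule.mem_iSup_of_chain _ _

theorem GI.gi_sat (h : GI L J) : GI L h.sat :=
  ⟨fun _ _ hm => let ⟨_, h1, _⟩ := h.mem_sat.1 hm; h1, fun d =>
    Submodule.mul_le.2 fun u hu m hm => by
      obtain ⟨N, h1, h2⟩ := h.mem_sat.1 hm
      refine h.mem_sat.2 ⟨N, by rw [pow_succ']; exact Submodule.mul_mem_mul hu h1,
        fun g hg => ?_⟩
      rw [mul_left_comm]
      exact h.mul _ (Submodule.mul_mem_mul hu (h2 g hg))⟩

theorem fg_pow_le (hL : L.FG) {d : ℕ} {U : Submodule Ω (T → Ω)} (h : U ≤ L ^ d) : U.FG := by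
  have := (Submodule.fg_iff_finiteDimensional _).1 (hL.pow d)
  exact (Submodule.fg_iff_finiteDimensional _).2 (Submodule.finiteDimensional_of_le h)

/-- a graded ideal is saturated in large degree -/
theorem GI.sat_le (h : GI L J) (hL : L.FG) : ∃ k₀, ∀ d, k₀ ≤ d → h.sat d ≤ J d := by
  obtain ⟨d₀, hd⟩ := h.gi_sat.noeth hL
  obtain ⟨N, hN⟩ := (fg_pow_le hL (h.gi_sat.le d₀)).stabilizes_of_iSup_eq _ rfl
  refine ⟨N + d₀, fun d hk => ?_⟩
  obtain ⟨a, rfl⟩ := Nat.exists_eq_add_of_le' hk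
  have h1 := hd (a + N)
  rw [add_assoc, pow_add, mul_assoc] at h1
  refine h1.trans ((mul_le_mul_right ?_ _).trans (h.pow_mul a _))
  refine Submodule.mul_le.2 fun g hg m hm => ?_
  rw [hN] at hm
  exact hm.2 g hg

/-- the multiples of `y` -/
def mlt (L : Submodule Ω (T → Ω)) (y : T → Ω) : ℕ → Submodule Ω (T → Ω)
  | 0 => ⊥
  | d + 1 => (L ^ d).map (LinearMap.mulLeft Ω y)

theorem gi_mlt {y : T → Ω} (hy : y ∈ L) : GI L (mlt L y) := by
  refine ⟨fun d => ?_, fun d => ?_⟩
  · rcases d with _ | d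
    · exact bot_le
    · rintro _ ⟨c, hc, rfl⟩
      rw [pow_succ']
      exact Submodule.mul_mem_mul hy hc
  · rcases d with _ | d
    · simp [mlt]
    · refine Submodule.mul_le.2 ?_
      rintro u hu _ ⟨c, hc, rfl⟩
      exact ⟨u * c, by rw [pow_succ']; exact Submodule.mul_mem_mul hu hc, mul_left_comm y u c⟩

/-- SAT -/
theorem sat (hL : L.FG) (hn : Nv L) (hd : Dm L) (hc : Cpl L) :
    ∃ k₀, ∀ k, k₀ ≤ k → Gam L k ≤ L ^ k := by
  rcases isEmpty_or_nonempty T with hT | ⟨⟨t⟩⟩
  · exact ⟨0, fun k _ f _ => Subsingleton.elim 0 f ▸ Submodule.zero_mem _⟩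
  obtain ⟨y, hy, h0⟩ := hn t
  have hy0 : y ≠ 0 := fun e => h0 (congrFun e t)
  have hy1 : y ∈ L ^ 1 := by rwa [pow_one]
  obtain ⟨k₀, hk⟩ := (gi_mlt hy).sat_le hL
  have key : ∀ N k, k₀ ≤ k → ∀ f ∈ Gam L k, y ^ N * f ∈ L ^ (N + k) → f ∈ L ^ k := by
    intro N
    induction N with
    | zero => intro k _ f _ h; simpa using h
    | succ N ih =>
      intro k h1 f hf h
      have h2 : y * f ∈ Gam L (k + 1) := Gam.cast (Gam.mul (pow_le_Gam L 1 hy1) hf) (add_comm _ _)
      have h3 := ih (k + 1) (by omega) _ h2 (mem_pow_congr h (by ring) (by ring))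
      obtain ⟨M, hM⟩ := hc.den hL hn hf
      obtain ⟨c, hc1, hc2⟩ := hk (k + 1) (by omega) ((gi_mlt hy).mem_sat.2
        ⟨M, h3, fun g hg => ⟨g * f, hM g hg, mul_left_comm y g f⟩⟩)
      have h4 : y * (f - c) = 0 := by rw [mul_sub, sub_eq_zero]; exact hc2.symm
      rcases hd.gam (pow_le_Gam L 1 hy1) (Submodule.sub_mem _ hf (pow_le_Gam L k hc1)) h4
        with h5 | h5
      · exact absurd h5 hy0
      · rwa [sub_eq_zero.1 h5]
  refine ⟨k₀, fun k h1 f hf => ?_⟩
  obtain ⟨N, hN⟩ := hc.den hL hn hf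
  exact key N k h1 f hf (hN _ (Submodule.pow_mem_pow _ hy N))

theorem fd_Gam (hL : L.FG) (hn : Nv L) (hd : Dm L) (hc : Cpl L) (k : ℕ) :
    FiniteDimensional Ω (Gam L k) := by
  rcases isEmpty_or_nonempty T with hT | ⟨⟨t⟩⟩
  · infer_instance
  obtain ⟨k₀, hk⟩ := sat hL hn hd hc
  obtain ⟨y, hy, h0⟩ := hn.pow k₀ t
  have := (Submodule.fg_iff_finiteDimensional _).1 (hL.pow (k₀ + k))
  refine FiniteDimensional.of_injective ((LinearMap.mulLeft Ω y).restrict (p := Gam L k)
    (q := L ^ (k₀ + k)) fun f hf => hk _ (by omega) (Gam.mul (pow_le_Gam L _ hy) hf)) ?_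
  rw [injective_iff_map_eq_zero]
  intro f hf
  rcases hd.gam (pow_le_Gam L _ hy) f.2 (congrArg Subtype.val hf) with h | h
  · exact absurd (congrFun h t) h0
  · exact Subtype.ext h

/-- CONST -/
theorem const (hL : L.FG) (hn : Nv L) (hd : Dm L) (hc : Cpl L) {f : T → Ω} (hf : f ∈ Gam L 0)
    (s t : T) : f s = f t := by
  have := fd_Gam hL hn hd hc 0
  have hg : (f - fun _ => f t) ∈ Gam L 0 := fun x => (hf x).sub (At.const L x _)
  by_contra h
  have h0 : (f - fun _ => f t) ≠ 0 := fun e => h (sub_eq_zero.1 (congrFun e s))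
  have hi : Function.Injective ((LinearMap.mulLeft Ω (f - fun _ => f t)).restrict (p := Gam L 0)
      (q := Gam L 0) fun g h => Gam.mul hg h) := by
    rw [injective_iff_map_eq_zero]
    intro g e
    exact Subtype.ext ((hd.gam hg g.2 (congrArg Subtype.val e)).resolve_left h0)
  obtain ⟨g, e⟩ := LinearMap.surjective_of_injective hi ⟨1, At.one L⟩
  have h1 := congrFun (congrArg Subtype.val e) t
  simp at h1

theorem mem_Gam_of_mul {W : Submodule Ω (T → Ω)} {d k : ℕ} (hW : W ≤ L ^ d) (hn : Nv W)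
    {f : T → Ω} (hf : ∀ w ∈ W, w * f ∈ L ^ (d + k)) : f ∈ Gam L k := fun t => by
  obtain ⟨w, hw, h⟩ := hn t
  exact ⟨d, w, hW hw, h, hf w hw⟩

end Pool.Agent.Tav.Cu
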