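import Pool.Agent.P.MP_2ce3e7_ag.Tav.CuBd

/-! From the deformation of sections to the local theorem of the cube; gluing. -/

set_option autoImplicit false

noncomputable section

namespace Pool.Agent.Tav.Cu

open Filter

variable {Ω : Type} [Field Ω] {T S X Y Z : Type}

/-- deformation of sections -/
def S_Core (Ω : Type) [Field Ω] : Prop :=
  ∀ {X Y Z : Type} {A : Submodule Ω (X → Ω)} {B : Submodule Ω (Y → Ω)}
    {C : Submodule Ω (Z → Ω)}, Vr A → Vr B → Vr C → ∀ (x₀ : X) (y₀ : Y) (z₀ : Z),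
    ∃ k₀, ∀ k, k₀ ≤ k → ∀ (k₁ : ℕ) (α β : Type) [Finite α] [Finite β]
      (u : α → X × Y × Z → Ω) (v : β → X × Y × Z → Ω), (∀ t, ∃ a, u a t ≠ 0) →
      (∀ t, ∃ b, v b t ≠ 0) → (∀ a b, u a * v b ∈ box A (box B C) ^ (k₁ + k)) →
      (∀ b, (fun t : Y × Z => v b (x₀, t.1, t.2)) ∈ box B C ^ k) →
      (∀ b, (fun t : X × Z => v b (t.1, y₀, t.2)) ∈ box A C ^ k) →
      (∀ b, (fun t : X × Y => v b (t.1, t.2, z₀)) ∈ box A B ^ k) →
      (∀ a, (fun t : X × Y => u a (t.1, t.2, z₀)) ∈ box A B ^ k₁) →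
      ∃ τ : X × Y × Z → Ω, (∀ x y, τ (x, y, z₀) = 1) ∧
        ∀ᶠ z in nb C z₀, ∀ x y b, At (box A (box B C)) k (x, y, z) (τ * v b)

variable {L : Submodule Ω (T → Ω)} {M : Submodule Ω (S → Ω)} {A : Submodule Ω (X → Ω)}
  {B : Submodule Ω (Y → Ω)} {C : Submodule Ω (Z → Ω)}

theorem fam_of_fg {U : Submodule Ω (T → Ω)} (h : U.FG) (hn : Nv U) :
    ∃ (n : ℕ) (u : Fin n → T → Ω), (∀ i, u i ∈ U) ∧ ∀ t, ∃ i, u i t ≠ 0 := by
  obtain ⟨m, v, hv⟩ := Submodule.fg_iff_exists_fin_generating_family.1 h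
  refine ⟨m, v, fun i => hv ▸ Submodule.subset_span ⟨i, rfl⟩, fun t => ?_⟩
  obtain ⟨u, hu, h0⟩ := hn t
  by_contra h1
  refine h0 (Submodule.span_le (p := LinearMap.ker (LinearMap.proj t : (T → Ω) →ₗ[Ω] Ω)).2 ?_
    (hv ▸ hu))
  rintro _ ⟨i, rfl⟩
  exact not_not.1 fun h2 => h1 ⟨i, h2⟩

theorem lin_mid (y : Y) : ∀ F ∈ box A (box B C),
    (fun q : X × Z => F (q.1, y, q.2)) ∈ box A C := fun _ hF =>
  box_induction (p := fun F => (fun q : X × Z => F (q.1, y, q.2)) ∈ box A C) hF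
    (fun _ ha _ hb => mem_box ha (box_right hb y)) fun _ _ => Submodule.add_mem _

theorem lin_last (z : Z) : ∀ F ∈ box A (box B C),
    (fun q : X × Y => F (q.1, q.2, z)) ∈ box A B := fun _ hF =>
  box_induction (p := fun F => (fun q : X × Y => F (q.1, q.2, z)) ∈ box A B) hF
    (fun _ ha _ hb => mem_box ha (box_left hb z)) fun _ _ => Submodule.add_mem _

/-- two trivialisations of a bundle on a complete system are proportional -/
theorem Vr.triv_eq (h : Vr L) {ε : T → T → Ω} {f g : T → Ω} (hf : ∀ t, Ut L t (f / ε t))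
    (hg : ∀ t, Ut L t (g / ε t)) {t₀ : T} (h0 : f t₀ = g t₀) (t : T) : f t = g t := by
  have h1 : f / g ∈ Gam L 0 := fun t => ((hf t).div (hg t)).1.congr (by
    filter_upwards [(hg t).ne2] with s hs
    simp only [Pi.div_apply]
    rw [div_div_div_cancel_right₀ hs.2])
  have h2 := const h.fg h.nv h.dm h.cpl h1 t t₀
  have h3 := fun t => (nb_self (hg t).ne2).1
  simp only [Pi.div_apply] at h2
  rw [h0, div_self (h3 t₀), div_eq_one_iff_eq (h3 t)] at h2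
  exact h2

theorem Ut.smul {t : T} {f ε : T → Ω} (h : Ut L t (f / ε)) {c : Ω} (hc : c ≠ 0) :
    Ut L t ((c • f) / ε) :=
  ((Ut.const L t hc).mul h).congr (Eventually.of_forall fun _ => by
    simp only [Pi.mul_apply, Pi.div_apply, Pi.smul_apply, smul_eq_mul, mul_div_assoc])

theorem triv_norm {ε : T → T → Ω} (h : ∃ f : T → Ω, ∀ t, Ut L t (f / ε t)) (t₀ : T) :
    ∃ f : T → Ω, (∀ t, Ut L t (f / ε t)) ∧ f t₀ = 1 := by
  obtain ⟨f, hf⟩ := h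
  have h0 := (nb_self (hf t₀).ne2).1
  exact ⟨(f t₀)⁻¹ • f, fun t => (hf t).smul (inv_ne_zero h0), inv_mul_cancel₀ h0⟩

/-- restriction to a face on which the bundle is trivial -/
theorem face_mem {j : S → T} (hj : ∀ u ∈ L, (fun s => u (j s)) ∈ M) {e : T → T → Ω}
    {ρ u m : T → Ω} {μ : S → Ω} (hμ : ∀ s, Ut M s (μ / fun s' => e (j s) (j s')))
    (hρ : ∀ s, ρ (j s) = μ s) {b c : ℕ} (hu : ∀ t, At L b t (u * e t)) (hm : m ∈ L ^ c)
    (hs : Gam M (b + c) ≤ M ^ (b + c)) : (fun s => (u * ρ * m) (j s)) ∈ M ^ (b + c) := by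
  refine hs fun s => ?_
  refine ((((hu (j s)).lin hj).mul0 (hμ s).1).mul (At.of_mem (lin_pow hj c m hm) s)).congr ?_
  filter_upwards [(hμ s).ne2] with s' h
  simp only [Pi.mul_apply, Pi.div_apply, hρ]
  rw [mul_assoc (u _), mul_div_cancel₀ _ h.2]

theorem Ut.inv_inv {t : T} {f ε : T → Ω} (h : Ut L t (f / ε)) : Ut L t (f⁻¹ / ε⁻¹) :=
  ((Ut.const L t one_ne_zero).div h).congr (Eventually.of_forall fun _ => by
    simp only [Pi.div_apply, Pi.inv_apply, one_div, inv_div, inv_div_inv])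

theorem loc_of_core (core : S_Core Ω) : S_Loc Ω := by
  classical
  intro X Y Z A B C hA hB hC e he x₀ y₀ z₀ h1 h2 h3
  obtain ⟨μ₁, h1, e1⟩ := triv_norm h1 (y₀, z₀)
  obtain ⟨μ₂, h2, e2⟩ := triv_norm h2 (x₀, z₀)
  obtain ⟨μ₃, h3, e3⟩ := triv_norm h3 (x₀, y₀)
  have c12 : ∀ z, μ₁ (y₀, z) = μ₂ (x₀, z) :=
    hC.triv_eq (ε := fun z z' => e (x₀, y₀, z) (x₀, y₀, z'))
      (fun z => (h1 (y₀, z)).comp ((Mp.const C B y₀).prod (Mp.id C)))
      (fun z => (h2 (x₀, z)).comp ((Mp.const C A x₀).prod (Mp.id C))) (e1.trans e2.symm)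
  have c13 : ∀ y, μ₁ (y, z₀) = μ₃ (x₀, y) :=
    hB.triv_eq (ε := fun y y' => e (x₀, y, z₀) (x₀, y', z₀))
      (fun y => (h1 (y, z₀)).comp ((Mp.id B).prod (Mp.const B C z₀)))
      (fun y => (h3 (x₀, y)).comp ((Mp.const B A x₀).prod (Mp.id B))) (e1.trans e3.symm)
  have c23 : ∀ x, μ₂ (x, z₀) = μ₃ (x, y₀) :=
    hA.triv_eq (ε := fun x x' => e (x, y₀, z₀) (x', y₀, z₀))
      (fun x => (h2 (x, z₀)).comp ((Mp.id A).prod (Mp.const A C z₀)))
      (fun x => (h3 (x, y₀)).comp ((Mp.id A).prod (Mp.const A B y₀))) (e2.trans e3.symm)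
  let ρ : X × Y × Z → Ω := fun t => if t.1 = x₀ then μ₁ t.2 else if t.2.1 = y₀ then
    μ₂ (t.1, t.2.2) else if t.2.2 = z₀ then μ₃ (t.1, t.2.1) else 1
  have r1 : ∀ w, ρ (x₀, w) = μ₁ w := fun w => if_pos rfl
  have r2 : ∀ q : X × Z, ρ (q.1, y₀, q.2) = μ₂ q := fun q => by
    simp only [ρ]
    split_ifs with h
    · rw [c12, ← h]
    · rfl
  have r3 : ∀ q : X × Y, ρ (q.1, q.2, z₀) = μ₃ q := fun q => by
    simp only [ρ]
    split_ifs with h h'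
    · rw [c13, ← h]
    · rw [c23, ← h']
    · rfl
  have r0 : ∀ t, ρ t ≠ 0 := fun t => by
    simp only [ρ]
    split_ifs
    exacts [(nb_self (h1 _).ne2).1, (nb_self (h2 _).ne2).1, (nb_self (h3 _).ne2).1, one_ne_zero]
  have hP := hA.box (hB.box hC)
  obtain ⟨a, b, U, V, fU, fV, nU, nV, hUV, h6⟩ := he
  have h7 : ∀ v ∈ V, ∀ t, At (box A (box B C)) a t (v * e⁻¹ t) := fun v hv t => by
    obtain ⟨u, hu, h0⟩ := nU t
    have h7 := mul_ne_zero h0 (h6 t).1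
    refine ((At.of_mem (hUV (Submodule.mul_mem_mul hu hv)) t).div ((h6 t).2 u hu) h7).congr ?_
    filter_upwards [((h6 t).2 u hu).ne h7] with s hs
    have h8 : u s ≠ 0 := left_ne_zero_of_mul hs
    simp only [Pi.mul_apply, Pi.div_apply, Pi.inv_apply]
    rw [mul_div_mul_left _ _ h8, div_eq_mul_inv]
  obtain ⟨k₀, hk⟩ := core hA hB hC x₀ y₀ z₀
  obtain ⟨k₁, s1⟩ := let h := hB.box hC; sat h.fg h.nv h.dm h.cpl
  obtain ⟨k₂, s2⟩ := let h := hA.box hC; sat h.fg h.nv h.dm h.cpl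
  obtain ⟨k₃, s3⟩ := let h := hA.box hB; sat h.fg h.nv h.dm h.cpl
  set c := k₀ + k₁ + k₂ + k₃
  obtain ⟨n, m, hm, nm⟩ := fam_of_fg (hP.fg.pow c) (hP.nv.pow c)
  obtain ⟨nu, u, hu, nu'⟩ := fam_of_fg fU nU
  obtain ⟨nv, v, hv, nv'⟩ := fam_of_fg fV nV
  let u' : Fin nu × Fin n → X × Y × Z → Ω := fun i => u i.1 * ρ * m i.2
  let v' : Fin nv × Fin n → X × Y × Z → Ω := fun i => v i.1 * ρ⁻¹ * m i.2
  have n1 : ∀ t, ∃ i, u' i t ≠ 0 := fun t => by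
    obtain ⟨i, hi⟩ := nu' t
    obtain ⟨j, hj⟩ := nm t
    exact ⟨(i, j), mul_ne_zero (mul_ne_zero hi (r0 t)) hj⟩
  have n2 : ∀ t, ∃ i, v' i t ≠ 0 := fun t => by
    obtain ⟨i, hi⟩ := nv' t
    obtain ⟨j, hj⟩ := nm t
    exact ⟨(i, j), mul_ne_zero (mul_ne_zero hi (inv_ne_zero (r0 t))) hj⟩
  have p1 : ∀ i j, u' i * v' j ∈ box A (box B C) ^ (b + c + (a + c)) := fun i j =>
    mem_pow_congr (mul_mem_pow (mul_mem_pow (hUV (Submodule.mul_mem_mul (hu i.1) (hv j.1)))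
      (hm i.2)) (hm j.2)) (by ring) (funext fun t => by
        have := r0 t
        simp only [u', v', Pi.mul_apply, Pi.inv_apply]
        field_simp)
  have l1 : ∀ F ∈ box A (box B C), (fun w : Y × Z => F (x₀, w)) ∈ box B C :=
    fun F hF => box_right hF x₀
  have u1 := fun i : Fin nu × Fin n => face_mem l1 h1 r1 (fun t => (h6 t).2 _ (hu i.1)) (hm i.2)
    (s1 _ (by omega))
  have u2 := fun i : Fin nu × Fin n => face_mem (lin_mid y₀) h2 r2 (fun t => (h6 t).2 _ (hu i.1))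
    (hm i.2) (s2 _ (by omega))
  have u3 := fun i : Fin nu × Fin n => face_mem (lin_last z₀) h3 r3 (fun t => (h6 t).2 _ (hu i.1))
    (hm i.2) (s3 _ (by omega))
  have v1 := fun i : Fin nv × Fin n => face_mem l1 (e := e⁻¹) (ρ := ρ⁻¹) (μ := μ₁⁻¹)
    (fun s => (h1 s).inv_inv) (fun s => congrArg _ (r1 s)) (h7 _ (hv i.1)) (hm i.2)
    (s1 _ (by omega))
  have v2 := fun i : Fin nv × Fin n => face_mem (lin_mid y₀) (e := e⁻¹) (ρ := ρ⁻¹) (μ := μ₂⁻¹)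
    (fun s => (h2 s).inv_inv) (fun s => congrArg _ (r2 s)) (h7 _ (hv i.1)) (hm i.2)
    (s2 _ (by omega))
  have v3 := fun i : Fin nv × Fin n => face_mem (lin_last z₀) (e := e⁻¹) (ρ := ρ⁻¹) (μ := μ₃⁻¹)
    (fun s => (h3 s).inv_inv) (fun s => congrArg _ (r3 s)) (h7 _ (hv i.1)) (hm i.2)
    (s3 _ (by omega))
  obtain ⟨τ, t1, t2⟩ := hk (a + c) (by omega) (b + c) _ _ u' v' n1 n2 p1 v1 v2 v3 u3
  obtain ⟨τ', t1', t2'⟩ := hk (b + c) (by omega) (a + c) _ _ v' u' n2 n1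
    (fun i j => mem_pow_congr (p1 j i) (add_comm _ _) (mul_comm _ _)) u1 u2 u3 v3
  have h8 : ∀ᶠ z in nb C z₀, ∀ x y, At (box A (box B C)) 0 (x, y, z) (τ * τ') := by
    filter_upwards [t2, t2'] with z h h' x y
    obtain ⟨i, hi⟩ := n1 (x, y, z)
    obtain ⟨j, hj⟩ := n2 (x, y, z)
    have h9 := At.of_mem (p1 i j) (x, y, z)
    refine (((h' x y i).mul (h x y j)).div_same h9 (mul_ne_zero hi hj)).congr ?_
    filter_upwards [h9.ne (mul_ne_zero hi hj)] with s hs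
    have h10 := mul_ne_zero_iff.1 hs
    simp only [Pi.mul_apply (u' i), Pi.mul_apply τ, Pi.mul_apply τ', Pi.div_apply,
      Pi.mul_apply (τ' * u' i)]
    field_simp [h10.1, h10.2]
  have h9 : ∀ᶠ z in nb C z₀, (τ * τ') (x₀, y₀, z) ≠ 0 :=
    ((nb_self h8 x₀ y₀).comp ((Mp.const C A x₀).prod ((Mp.const C B y₀).prod (Mp.id C)))).ne
      (by simp [t1, t1'])
  refine ⟨τ' * ρ, ?_⟩
  filter_upwards [h8, h9, t2'] with z h h' h'' x y
  have hAB := hA.box hB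
  have h10 : (τ * τ') (x, y, z) = (τ * τ') (x₀, y₀, z) :=
    const hAB.fg hAB.nv hAB.dm hAB.cpl (f := fun q : X × Y => (τ * τ') (q.1, q.2, z))
      (fun q => (h q.1 q.2).lin (lin_last z)) (x, y) (x₀, y₀)
  have h11 : τ' (x, y, z) ≠ 0 := right_ne_zero_of_mul (h10 ▸ h' : (τ * τ') (x, y, z) ≠ 0)
  obtain ⟨i, hi⟩ := nu' (x, y, z)
  obtain ⟨j, hj⟩ := nm (x, y, z)
  have h12 := ((h6 (x, y, z)).2 _ (hu i)).mul (At.of_mem (hm j) (x, y, z))
  have h13 : (u i * e (x, y, z) * m j) (x, y, z) ≠ 0 := mul_ne_zero (mul_ne_zero hi (h6 _).1) hj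
  refine ⟨((h'' x y (i, j)).div_same h12 h13).congr ?_,
    div_ne_zero (mul_ne_zero h11 (r0 _)) (h6 _).1⟩
  filter_upwards [h12.ne h13] with s hs
  simp only [Pi.mul_apply, ne_eq, mul_eq_zero, not_or] at hs
  simp only [u', Pi.mul_apply, Pi.div_apply]
  field_simp [hs.1.1, hs.1.2, hs.2]

/-- local trivialisations over the base glue, once they are normalised along a section -/
theorem glue_triv {Q : Type} {D : Submodule Ω (Q → Ω)} (hB : Vr B) (i : Q → Y → T) (π : T → Q)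
    (κ : T → Y) (h1 : ∀ t, i (π t) (κ t) = t) (h2 : ∀ q y, π (i q y) = q)
    (mπ : Mp L D π) (mi : ∀ q, Mp B L (i q)) (y₀ : Y)
    (m0 : Mp D L fun q => i q y₀) (e : T → T → Ω) {η : Q → Ω}
    (hη : ∀ q, Ut D q (η / fun q' => e (i q y₀) (i q' y₀))) :
    ∃ μ : T → Ω, ∀ q, (∃ μ' : T → Ω, ∀ᶠ q' in nb D q, ∀ y, Ut L (i q' y) (μ' / e (i q' y))) →
      ∀ y, Ut L (i q y) (μ / e (i q y)) := by
  let Gd : Q → (Y → Ω) → Prop := fun q g =>
    (∀ y, Ut B y (g / fun y' => e (i q y) (i q y'))) ∧ g y₀ = η q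
  refine ⟨fun t => Classical.epsilon (Gd (π t)) (κ t), ?_⟩
  rintro q ⟨μ', h⟩ y
  have key : ∀ q', (∀ y, Ut L (i q' y) (μ' / e (i q' y))) → ∀ y,
      Classical.epsilon (Gd q') y = η q' / μ' (i q' y₀) * μ' (i q' y) := fun q' h' => by
    have h4 := (nb_self (h' y₀).ne2).1
    have h5 : Gd q' ((η q' / μ' (i q' y₀)) • fun y => μ' (i q' y)) :=
      ⟨fun y => Ut.smul ((h' y).comp (mi q')) (div_ne_zero (nb_self (hη q').ne2).1 h4),
        div_mul_cancel₀ _ h4⟩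
    have h6 := Classical.epsilon_spec ⟨_, h5⟩
    exact hB.triv_eq h6.1 h5.1 (h6.2.trans h5.2.symm)
  have h4 : Ut L (i q y) fun s => (η / fun q' => e (i q y₀) (i q' y₀)) (π s) :=
    Ut.comp mπ ((h2 q y).symm ▸ hη q)
  have h5 : Ut L (i q y) fun s => (μ' / e (i q y₀)) (i (π s) y₀) :=
    Ut.comp (m0.comp mπ) ((h2 q y).symm ▸ nb_self h y₀)
  refine ((h4.div h5).mul (nb_self h y)).congr ?_
  filter_upwards [mπ.ev ((h2 q y).symm ▸ h), h5.ne] with s hs hs'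
  have h6 := div_ne_zero_iff.1 hs'
  simp only [Pi.mul_apply, Pi.div_apply, key _ hs, h1]
  rw [div_div_div_cancel_right₀ h6.2, mul_div_assoc]

end Pool.Agent.Tav.Cu
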