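import Pool.Agent.P.MP_2ce3e7_ag.Tav.CvStm0
import Pool.Agent.P.MP_2ce3e7_ag.Tav.CvAV
import Pool.Agent.P.MP_dd457d_ag.Bav.ChartC

/-! An abelian variety is the image of a product of curves. -/

set_option autoImplicit false

noncomputable section

namespace Pool.Agent.Tav.AC

open Module Set Cu

variable {K : Type} [Field K]

section Grow
variable {R : Type} [CommRing R] [Algebra K R]

theorem aeval_mem (τ : R) (q : Polynomial K) :
    ∃ D, Polynomial.aeval τ q ∈ Submodule.span K {1, τ} ^ D := by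
  have h1 : (1 : R) ∈ Submodule.span K {1, τ} := Submodule.subset_span (by simp)
  have h2 : τ ∈ Submodule.span K {1, τ} := Submodule.subset_span (by simp)
  have mono : ∀ {a b : ℕ}, a ≤ b → Submodule.span K {1, τ} ^ a ≤ Submodule.span K {1, τ} ^ b :=
    fun h => pow_le_pow_right₀ (Submodule.one_le.2 h1) h
  induction q using Polynomial.induction_on' with
  | add p q hp hq =>
    obtain ⟨a, ha⟩ := hp
    obtain ⟨b, hb⟩ := hq
    exact ⟨a + b, by
      rw [map_add]
      exact add_mem (mono (Nat.le_add_right a b) ha) (mono (Nat.le_add_left b a) hb)⟩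
  | monomial n a =>
    refine ⟨n, ?_⟩
    rw [Polynomial.aeval_monomial, ← Algebra.smul_def]
    exact Submodule.smul_mem _ _ (Submodule.pow_mem_pow _ h2 n)

theorem pow_le_span (τ : R) (D : ℕ) : Submodule.span K {1, τ} ^ D ≤
    Submodule.span K (range fun i : Fin (D + 1) => τ ^ (i : ℕ)) := by
  induction D with
  | zero =>
    rw [pow_zero, Submodule.one_eq_span]
    exact Submodule.span_mono (singleton_subset_iff.2 ⟨0, pow_zero τ⟩)
  | succ D ih =>
    rw [pow_succ]
    refine (mul_le_mul_left ih _).trans ?_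
    rw [Submodule.span_mul_span]
    refine Submodule.span_mono ?_
    rintro _ ⟨_, ⟨i, rfl⟩, b, rfl | rfl, rfl⟩
    · exact ⟨i.castSucc, (mul_one _).symm⟩
    · exact ⟨i.succ, pow_succ _ _⟩

theorem grow (τ : R) {m : ℕ} (e : Fin m → R)
    (h : ∀ r, ∃ q : Fin m → Polynomial K, r = ∑ j, Polynomial.aeval τ (q j) * e j)
    {σ : Type} [Fintype σ] (y : σ → R) :
    ∃ c : ℕ, ∀ n, finrank K (Submodule.span K (range y) ^ n :) ≤ c * (1 + n) := by
  set U := Submodule.span K {1, τ} with hU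
  set E := Submodule.span K (range e) with hE
  have mono : ∀ {a b : ℕ}, a ≤ b → U ^ a * E ≤ U ^ b * E := fun h => mul_le_mul_left
    (pow_le_pow_right₀ (Submodule.one_le.2 (Submodule.subset_span (by simp))) h) _
  have h1 : ∀ r, ∃ D, r ∈ U ^ D * E := fun r => by
    obtain ⟨q, rfl⟩ := h r
    choose D hD using fun j => aeval_mem τ (q j)
    exact ⟨∑ j, D j, sum_mem fun j hj => mono (Finset.single_le_sum (fun _ _ => Nat.zero_le _) hj)
      (Submodule.mul_mem_mul (hD j) (Submodule.subset_span ⟨j, rfl⟩))⟩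
  choose D hD using h1
  set D₀ := ∑ s : σ × Fin m, D (y s.1 * e s.2)
  have h2 : Submodule.span K (range y) * E ≤ U ^ D₀ * E := by
    rw [hE, Submodule.span_mul_span, Submodule.span_le]
    rintro _ ⟨_, ⟨a, rfl⟩, _, ⟨j, rfl⟩, rfl⟩
    exact mono (Finset.single_le_sum (f := fun s : σ × Fin m => D (y s.1 * e s.2))
      (fun _ _ => Nat.zero_le _) (Finset.mem_univ (a, j))) (hD _)
  have h3 : ∀ n, Submodule.span K (range y) ^ n ≤ U ^ (D 1 + n * D₀) * E := fun n => by
    induction n with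
    | zero => simpa [Submodule.one_le] using hD 1
    | succ n ih =>
      calc _ = Submodule.span K (range y) ^ n * Submodule.span K (range y) := pow_succ _ _
        _ ≤ U ^ (D 1 + n * D₀) * E * Submodule.span K (range y) := mul_le_mul_left ih _
        _ = U ^ (D 1 + n * D₀) * (Submodule.span K (range y) * E) := by ring
        _ ≤ U ^ (D 1 + n * D₀) * (U ^ D₀ * E) := mul_le_mul_right h2 _
        _ = _ := by ring
  refine ⟨(D 1 + D₀ + 1) * m, fun n => ?_⟩
  have h4 := (h3 n).trans (mul_le_mul_left (pow_le_span τ _) E)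
  rw [hE, Submodule.span_mul_span] at h4
  have h5 : Submodule.span K (range y) ^ n ≤ Submodule.span K
      (range fun s : Fin (D 1 + n * D₀ + 1) × Fin m => τ ^ (s.1 : ℕ) * e s.2) :=
    h4.trans (Submodule.span_mono (by
      rintro _ ⟨_, ⟨i, rfl⟩, _, ⟨j, rfl⟩, rfl⟩
      exact ⟨(i, j), rfl⟩))
  have := FiniteDimensional.span_of_finite K (finite_range
    fun s : Fin (D 1 + n * D₀ + 1) × Fin m => τ ^ (s.1 : ℕ) * e s.2)
  refine (Submodule.finrank_mono h5).trans ((finrank_range_le_card _).trans ?_)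
  rw [Fintype.card_prod, Fintype.card_fin, Fintype.card_fin, mul_right_comm]
  exact Nat.mul_le_mul_right _ (by nlinarith [Nat.zero_le (n * D 1)])

/-- a curve through a point on which `f` does not vanish -/
theorem aff [Infinite K] [IsDomain R] [Algebra.FiniteType K R] (φ : R →ₐ[K] K) {f : R}
    (hf : f ≠ 0) (h0 : φ f = 0) : ∃ P : Ideal R, P.IsPrime ∧ P ≤ RingHom.ker φ ∧ f ∉ P ∧
      ∃ (τ : R) (m : ℕ) (e : Fin m → R), ∀ r, ∃ q : Fin m → Polynomial K,
        r - ∑ j, Polynomial.aeval τ (q j) * e j ∈ P := by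
  obtain ⟨s, g, hg, hfin⟩ := exists_finite_inj_algHom_of_fg K R
  let _ : Algebra (MvPolynomial (Fin s) K) R := g.toRingHom.toAlgebra
  have : Module.Finite (MvPolynomial (Fin s) K) R := hfin
  have : FaithfulSMul (MvPolynomial (Fin s) K) R := (faithfulSMul_iff_algebraMap_injective _ _).2 hg
  obtain ⟨a, ha, hd⟩ := (Algebra.IsIntegral.isIntegral (R := MvPolynomial (Fin s) K)
    f).isAlgebraic.exists_nonzero_dvd (mem_nonZeroDivisors_of_ne_zero hf)
  obtain ⟨b₁, hb⟩ : ∃ b₁, MvPolynomial.eval b₁ a ≠ 0 := by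
    by_contra! hh
    exact ha (MvPolynomial.funext fun x => by rw [hh, map_zero])
  let b₀ : Fin s → K := fun i => φ (g (MvPolynomial.X i))
  let ψ : MvPolynomial (Fin s) K →ₐ[K] Polynomial K :=
    MvPolynomial.aeval fun i => Polynomial.C (b₀ i) + Polynomial.C (b₁ i - b₀ i) * Polynomial.X
  have e0 : (Polynomial.aeval (0 : K)).comp ψ = φ.comp g :=
    MvPolynomial.algHom_ext fun i => by simp [ψ, b₀]
  have e1 : (Polynomial.aeval (1 : K)).comp ψ = MvPolynomial.aeval b₁ :=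
    MvPolynomial.algHom_ext fun i => by simp [ψ]
  have ha0 : φ (g a) = 0 := by
    obtain ⟨u, hu⟩ := hd
    rw [show g a = f * u from hu, map_mul, h0, zero_mul]
  obtain ⟨i, hi⟩ : ∃ i, b₁ i - b₀ i ≠ 0 := by
    by_contra! hh
    have : MvPolynomial.aeval b₁ = φ.comp g := MvPolynomial.algHom_ext fun i => by
      simpa using sub_eq_zero.1 (hh i)
    exact hb ((DFunLike.congr_fun this a).trans ha0)
  let w : MvPolynomial (Fin s) K :=
    MvPolynomial.C (b₁ i - b₀ i)⁻¹ * (MvPolynomial.X i - MvPolynomial.C (b₀ i))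
  have hw : ψ w = Polynomial.X := by
    simp only [w, ψ, map_mul, map_sub (MvPolynomial.aeval _), MvPolynomial.aeval_X,
      MvPolynomial.aeval_C, Polynomial.algebraMap_eq, add_sub_cancel_left]
    rw [← mul_assoc, ← map_mul, inv_mul_cancel₀ hi, map_one, one_mul]
  have := RingHom.ker_isPrime ψ
  have := RingHom.ker_isPrime φ
  obtain ⟨P, h1, h2, h3⟩ := Ideal.exists_ideal_le_liesOver_of_le (p := RingHom.ker ψ)
    (q := (RingHom.ker φ).under (MvPolynomial (Fin s) K)) (RingHom.ker φ) fun b hb => by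
      have := DFunLike.congr_fun e0 b
      rw [AlgHom.comp_apply, show ψ b = 0 from hb, map_zero] at this
      exact this.symm
  have h4 : ∀ b, g b ∈ P ↔ ψ b = 0 := fun b => by
    rw [← RingHom.mem_ker, P.over_def (RingHom.ker ψ)]
    rfl
  obtain ⟨m, e, he⟩ := Module.Finite.exists_fin (R := MvPolynomial (Fin s) K) (M := R)
  refine ⟨P, h2, h1, fun hh => hb ?_, g w, m, e, fun r => ?_⟩
  · have := DFunLike.congr_fun e1 a
    rw [AlgHom.comp_apply, (h4 a).1 (P.mem_of_dvd hd hh), map_zero] at this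
    exact this.symm
  · obtain ⟨c, rfl⟩ := (Submodule.mem_span_range_iff_exists_fun _).1
      (he ▸ Submodule.mem_top : r ∈ Submodule.span _ (range e))
    refine ⟨fun j => ψ (c j), ?_⟩
    rw [← Finset.sum_sub_distrib]
    refine sum_mem fun j _ => ?_
    rw [Algebra.smul_def, ← sub_mul, Polynomial.aeval_algHom_apply]
    refine P.mul_mem_right _ ?_
    rw [show algebraMap _ R (c j) = g (c j) from rfl, ← map_sub, h4, map_sub,
      ← Polynomial.aeval_algHom_apply, hw, Polynomial.aeval_X_left_apply, sub_self]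

theorem span_pow {τ : Type} (y : τ → R) (k : ℕ) :
    Submodule.span K (range y) ^ k = LinearMap.range
      ((MvPolynomial.aeval y).toLinearMap ∘ₗ (MvPolynomial.homogeneousSubmodule τ K k).subtype) := by
  rw [LinearMap.range_comp, Submodule.range_subtype, ← MvPolynomial.homogeneousSubmodule_one_pow,
    Submodule.map_pow, MvPolynomial.homogeneousSubmodule_one_eq_span_X, Submodule.map_span,
    ← range_comp]
  simp [Function.comp_def]

end Grow

open MvPolynomial

variable {G σ : Type} {p : G → σ → K}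

theorem aeval_crd {T : Type} (c : T → σ → K) (F : MvPolynomial σ K) (t : T) :
    aeval (fun l t => c t l) F t = eval (c t) F := by
  rw [← aeval_eq_eval]
  exact comp_aeval_apply (fun l t => c t l) (Pi.evalAlgHom K (fun _ : T => K) t) F

theorem form_of {T : Type} {c : T → σ → K} {n : ℕ} {f : T → K} (hf : f ∈ crd c ^ n) :
    ∃ F : MvPolynomial σ K, F.IsHomogeneous n ∧ ∀ t, f t = eval (c t) F := by
  rw [crd, span_pow] at hf
  obtain ⟨F, rfl⟩ := hf
  exact ⟨F.1, F.2, aeval_crd c F.1⟩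

theorem form_mem {T : Type} (c : T → σ → K) {n : ℕ} {F : MvPolynomial σ K}
    (hF : F.IsHomogeneous n) : (fun t => eval (c t) F) ∈ crd c ^ n := by
  rw [crd, span_pow]
  exact ⟨⟨F, hF⟩, funext (aeval_crd c F)⟩

theorem idl_anti {T U : Type} {c : T → σ → K} {f : U → σ → K} (h : ∀ u, ∃ t, c t = f u) :
    idl c ≤ idl f := by
  rintro F hF _ ⟨r, u, rfl⟩
  obtain ⟨t, ht⟩ := h u
  exact hF _ ⟨r, t, by rw [ht]⟩

theorem idl_sub (C : Set G) : idl p ≤ idl fun t : C => p t := idl_anti fun u => ⟨u.1, rfl⟩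

theorem deg_ne {T : Type} {L : Submodule K (T → K)} [FiniteDimensional K L]
    (hd : Dm L) (hn : Nv L) {n : ℕ} {f : T → K} (hf : f ∈ L ^ n) (h0 : f ≠ 0) {x : T}
    (hx : f x = 0) : (pf ![L]).totalDegree ≠ 0 := fun e => by
  obtain ⟨N, hN⟩ := Ver.evP_one L
  have h1 : ∀ k, N ≤ k → (finrank K (L ^ k :) : ℚ) = coeff 0 (pf ![L]) := fun k hk => by
    have := hN (fun _ => k) fun _ => hk
    rw [totalDegree_eq_zero_iff_eq_C.1 e] at this
    simpa [evN] using this.symm
  have h2 : finrank K (L ^ N :) = finrank K (L ^ (n + N) :) := by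
    exact_mod_cast (h1 N le_rfl).trans (h1 _ (Nat.le_add_left N n)).symm
  have fd : ∀ k, FiniteDimensional K (L ^ k :) := fun k =>
    Module.Finite.iff_fg.2 ((Module.Finite.iff_fg.1 ‹_›).pow k)
  let μ : (L ^ N :) →ₗ[K] (L ^ (n + N) :) :=
    (LinearMap.mulLeft K f).restrict fun g hg => mul_mem_pow hf hg
  have h3 : Function.Injective μ := (injective_iff_map_eq_zero _).2 fun g hg =>
    Subtype.ext ((hd _ _ f hf g.1 g.2 (congrArg Subtype.val hg)).resolve_left h0)
  obtain ⟨u, hu, h4⟩ := hn.pow (n + N) x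
  obtain ⟨g, hg⟩ := (LinearMap.injective_iff_surjective_of_finrank_eq_finrank h2).1 h3 ⟨u, hu⟩
  refine h4 ?_
  rw [← show f * g.1 = u from congrArg Subtype.val hg, Pi.mul_apply, hx, zero_mul]

theorem exists_alg [Infinite K] [Fintype σ] {I : Ideal (MvPolynomial σ K)} (hp : I.IsPrime)
    {z : σ → K} (hz : z ∈ zeroLocus K I) {F : MvPolynomial σ K} (h1 : F ∉ I) (h0 : eval z F = 0) :
    ∃ (R : Type) (_ : CommRing R) (_ : IsDomain R) (_ : Algebra K R)
      (π : MvPolynomial σ K →ₐ[K] R), I ≤ RingHom.ker π ∧ z ∈ zeroLocus K (RingHom.ker π) ∧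
      π F ≠ 0 ∧ ∃ c : ℕ, ∀ n,
        finrank K (Submodule.span K (range fun l => π (X l)) ^ n :) ≤ c * (1 + n) := by
  obtain ⟨P, hP, h2, h3, τ, m, e, he⟩ := aff (K := K) (R := MvPolynomial σ K ⧸ I)
    (Ideal.Quotient.liftₐ _ (aeval z) hz) (f := Ideal.Quotient.mk _ F)
    (fun e => h1 (Ideal.Quotient.eq_zero_iff_mem.1 e)) h0
  refine ⟨(MvPolynomial σ K ⧸ I) ⧸ P, inferInstance, inferInstance, inferInstance,
    (Ideal.Quotient.mkₐ K P).comp (Ideal.Quotient.mkₐ K I), fun f hf => ?_,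
    fun f hf => h2 (Ideal.Quotient.eq_zero_iff_mem.1 hf),
    fun e => h3 (Ideal.Quotient.eq_zero_iff_mem.1 e),
    grow (Ideal.Quotient.mkₐ K P τ) (fun j => Ideal.Quotient.mkₐ K P (e j)) (fun r => ?_) _⟩
  · rw [RingHom.mem_ker, AlgHom.comp_apply, Ideal.Quotient.mkₐ_eq_mk K I,
      Ideal.Quotient.eq_zero_iff_mem.2 hf, map_zero]
  · obtain ⟨r, rfl⟩ := Ideal.Quotient.mkₐ_surjective K P r
    obtain ⟨q, hq⟩ := he r
    refine ⟨q, (Ideal.Quotient.eq.2 hq).trans ?_⟩
    rw [← Ideal.Quotient.mkₐ_eq_mk K P, map_sum]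
    exact Finset.sum_congr rfl fun j _ => by rw [Polynomial.aeval_algHom_apply, map_mul]

theorem rk_pow {T R : Type} [CommRing R] [Algebra K R] (c : T → σ → K)
    (π : MvPolynomial σ K →ₐ[K] R) {n : ℕ}
    (h : ∀ H : MvPolynomial σ K, H.IsHomogeneous n → ((∀ t, eval (c t) H = 0) ↔ π H = 0)) :
    finrank K (crd c ^ n :) = finrank K (Submodule.span K (range fun l => π (X l)) ^ n :) := by
  rw [crd, span_pow, span_pow]
  refine ((LinearMap.quotKerEquivRange _).symm ≪≫ₗ Submodule.quotEquivOfEq _ _ ?_ ≪≫ₗ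
    LinearMap.quotKerEquivRange _).finrank_eq
  ext H
  simp only [LinearMap.mem_ker, LinearMap.comp_apply, Submodule.subtype_apply,
    AlgHom.toLinearMap_apply]
  rw [show aeval (fun l => π (X l)) = π from (aeval_unique π).symm, ← h _ H.2, funext_iff]
  exact forall_congr' fun t => by rw [aeval_crd, Pi.zero_apply]

theorem exists_set [IsAlgClosed K] [Fintype σ]
    (hcl : ∀ z ∈ zeroLocus K (idl p), z ≠ 0 → ∃ x, Par z (p x)) {P : Ideal (MvPolynomial σ K)}
    (hP : P.IsPrime) (hle : idl p ≤ P) {x : G} (hne : p x ≠ 0) (hx : p x ∈ zeroLocus K P) :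
    ∃ C : Set G, x ∈ C ∧
      (∀ z ∈ zeroLocus K (idl fun t : C => p t), z ≠ 0 → ∃ t : C, Par z (p t)) ∧
      ∀ n (H : MvPolynomial σ K), H.IsHomogeneous n → ((∀ t : C, eval (p t) H = 0) ↔ H ∈ P) := by
  obtain ⟨a, ha⟩ := Function.ne_iff.1 hne
  let c₀ := fun t : {y | ∃ r : K, r ≠ 0 ∧ r • p y ∈ zeroLocus K P} => p t
  have key : ∀ n (H : MvPolynomial σ K), H.IsHomogeneous n → (H ∈ idl c₀ ↔ H ∈ P) :=
    fun n H hH => by
    rw [Bav.mem_idl_hom hH]
    refine ⟨fun h => (hP.mem_or_mem (x := X a) ?_).resolve_left fun hh => ha ?_, ?_⟩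
    · rw [← IsPrime.vanishingIdeal_zeroLocus (K := K) P]
      intro z hz
      by_cases hz0 : z = 0
      · simp [hz0]
      obtain ⟨y, r, hr, rfl⟩ := hcl z (fun f hf => hz f (hle hf)) hz0
      rw [aeval_eq_eval, map_mul, Bav.eval_smul_hom hH, h ⟨y, r, hr.ne_zero, hz⟩,
        mul_zero, mul_zero]
    · simpa using hx _ hh
    · rintro h ⟨y, r, hr, hy⟩
      have := hy H h
      rw [aeval_eq_eval, Bav.eval_smul_hom hH] at this
      exact (mul_eq_zero.1 this).resolve_left (pow_ne_zero _ hr)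
  have e0 : (idl fun t : {y | p y ∈ zeroLocus K (idl c₀)} => p t) = idl c₀ := by
    refine le_antisymm (idl_anti fun u => ⟨⟨u.1, fun f hf => hf _ ⟨1, u, (one_smul _ _).symm⟩⟩,
      rfl⟩) fun f hf => ?_
    rw [← f.sum_homogeneousComponent]
    exact sum_mem fun n _ => (Bav.mem_idl_hom (homogeneousComponent_isHomogeneous n f)).2
      fun t => t.2 _ (Bav.homI_idl _ n f hf)
  refine ⟨{y | p y ∈ zeroLocus K (idl c₀)}, fun f hf => hf _
    ⟨1, ⟨x, 1, one_ne_zero, by rwa [one_smul]⟩, (one_smul _ _).symm⟩, fun z hz hz0 => ?_,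
    fun n H hH => (Bav.mem_idl_hom hH).symm.trans (e0.symm ▸ key n H hH)⟩
  obtain ⟨y, r, hr, rfl⟩ := hcl z (fun f hf => hz f (idl_sub _ hf)) hz0
  refine ⟨⟨y, fun f hf => ?_⟩, r, hr, rfl⟩
  rw [← f.sum_homogeneousComponent, map_sum]
  refine Finset.sum_eq_zero fun n _ => ?_
  have := hz _ (e0.ge (Bav.homI_idl _ n f hf))
  rw [aeval_eq_eval, Bav.eval_smul_hom (homogeneousComponent_isHomogeneous n f)] at this
  exact (mul_eq_zero.1 this).resolve_left (pow_ne_zero _ hr.ne_zero)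

theorem dm_of_key {T : Type} {c : T → σ → K} {P : Ideal (MvPolynomial σ K)} (hP : P.IsPrime)
    (key : ∀ n (H : MvPolynomial σ K), H.IsHomogeneous n → ((∀ t, eval (c t) H = 0) ↔ H ∈ P)) :
    Dm (crd c) := fun a b f hf g hg e => by
  obtain ⟨A, hA, h4⟩ := form_of hf
  obtain ⟨B, hB, h5⟩ := form_of hg
  have h6 : A * B ∈ P := (key (a + b) (A * B) (hA.mul hB)).1 fun t => by
    rw [map_mul, ← h4, ← h5]
    exact congrFun e t
  rcases hP.mem_or_mem h6 with h | h
  · exact Or.inl (funext fun t => by rw [h4, (key a A hA).2 h t, Pi.zero_apply])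
  · exact Or.inr (funext fun t => by rw [h5, (key b B hB).2 h t, Pi.zero_apply])

theorem deg_le {T : Type} {L : Submodule K (T → K)} [FiniteDimensional K L] {c : ℕ}
    (h : ∀ n, finrank K (L ^ n :) ≤ c * (1 + n)) : (pf ![L]).totalDegree ≤ 1 := by
  refine dg_iff.1 ((Ver.evP_one L).dg_of_growth (n := 1) (c := c) (Lg.of_forall fun n => ?_))
  rw [Nat.abs_cast, pow_one, Fin.sum_univ_one]
  exact_mod_cast h (n 0)

/-- an irreducible curve through a point on which a given form does not vanish -/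
theorem exists_crv [IsAlgClosed K] [Fintype σ] (hne : ∀ y, p y ≠ 0)
    (hcl : ∀ z ∈ zeroLocus K (idl p), z ≠ 0 → ∃ x, Par z (p x)) (hp : (idl p).IsPrime) (x : G)
    {F : MvPolynomial σ K} {d : ℕ} (hF : F.IsHomogeneous d) (h1 : F ∉ idl p)
    (h0 : eval (p x) F = 0) :
    ∃ C : Set G, x ∈ C ∧ Crv (fun t : C => p t) ∧ F ∉ idl fun t : C => p t := by
  obtain ⟨R, _, _, _, π, h2, h3, h4, c, hc⟩ :=
    exists_alg hp (z := p x) (fun f hf => hf _ ⟨1, x, (one_smul _ _).symm⟩) h1 h0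
  have hP := RingHom.ker_isPrime π
  obtain ⟨C, hx, h5, key⟩ := exists_set hcl hP h2 (hne x) h3
  have : Nonempty C := ⟨⟨x, hx⟩⟩
  have hd := dm_of_key hP key
  have hF' : F ∉ idl fun t : C => p t := fun h => h4 ((key d F hF).1 ((Bav.mem_idl_hom hF).1 h))
  refine ⟨C, hx, ⟨fun t => hne t, h5, idl_prime hd, ?_⟩, hF'⟩
  have : FiniteDimensional K (crd fun t : C => p t) := Ver.fd_crd _
  rw [hp_eq_pf]
  exact le_antisymm (deg_le (c := c) fun n => (rk_pow _ π (key n)).trans_le (hc n))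
    (Nat.pos_of_ne_zero (deg_ne hd (crd_nv fun t => hne t) (form_mem _ hF)
      (fun e => hF' ((Bav.mem_idl_hom hF).2 (congrFun e))) (x := ⟨x, hx⟩) h0))

theorem mp_crd {T : Type} (a : T → G) : Mp (crd fun t => p (a t)) (crd p) a :=
  Mp.of_lin fun _ hu => crd_map a p ▸ Submodule.mem_map_of_mem hu

variable [AddCommGroup G]

theorem prime_add [Infinite K] [Fintype σ] (hne : ∀ y, p y ≠ 0) (hs : Sb (crd p)) {T U : Type}
    [Nonempty T] [Nonempty U] {a : T → G} {b : U → G} (ha : (idl fun t => p (a t)).IsPrime)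
    (hb : (idl fun t => p (b t)).IsPrime) : (idl fun t : T × U => p (a t.1 + b t.2)).IsPrime := by
  refine idl_prime (((dm_of_prime ha).box (dm_of_prime hb)).of_mp ?_)
  rw [← crd_map (fun t : T × U => a t.1 + b t.2) p]
  exact (hs.add ((mp_crd a).comp (Mp.fst _ (crd_nv fun t => hne _)))
    ((mp_crd b).comp (Mp.snd (crd_nv fun t => hne _) _))).map_id

theorem rg_sum (hne : ∀ y, p y ≠ 0) (hs : Sb (crd p)) {n : ℕ} (C : Fin n → Set G) :
    Rg (fun i => crd fun t : ∀ i, C i => p (t i)) (crd fun t : ∀ i, C i => p (∑ i, (t i : G))) := by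
  have nv : ∀ s : Finset (Fin n), Nv (∏ i ∈ s, crd fun t : ∀ i, C i => p (t i)) := fun s =>
    Finset.prod_induction _ Nv (fun _ _ => Nv.mul)
      (fun t => ⟨1, Submodule.one_le.1 le_rfl, one_ne_zero⟩) fun i _ => crd_nv fun t => hne _
  have h : ∀ s : Finset (Fin n), Mp (∏ i, crd fun t : ∀ i, C i => p (t i)) (crd p)
      fun t => ∑ i ∈ s, (t i : G) := fun s => by
    induction s using Finset.induction_on with
    | empty => exact Mp.const _ _ _
    | insert i s hi ih =>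
      simp only [Finset.sum_insert hi]
      refine hs.add ?_ ih
      rw [← Finset.mul_prod_erase _ _ (Finset.mem_univ i)]
      exact (mp_crd fun t : ∀ i, C i => (t i : G)).comp (Mp.of_le_mul (nv _))
  intro t
  obtain ⟨e, c, hc, h1⟩ := h Finset.univ t
  refine ⟨fun _ => e, c, hc.isUnit, fun w hw => ?_⟩
  rw [← crd_map (fun t : ∀ i, C i => ∑ i, (t i : G)) p] at hw
  obtain ⟨u, hu, rfl⟩ := hw
  rw [Finset.prod_pow]
  exact h1 u hu

/-- an abelian variety is the image of a product of curves -/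
theorem cov0_of_av [IsAlgClosed K] [Fintype σ] {g : ℕ} (h : AV p g) : Cov0 (idl p) := by
  have hs := (sb_iff h.ne).1 h.sub
  obtain ⟨_, ⟨n, C, h1, h2, h3, rfl⟩, hm⟩ := (wellFounded_lt (α := ℕ∞)).has_min
    {e | ∃ (n : ℕ) (C : Fin n → Set G), (∀ i, Crv fun t : C i => p t) ∧ (∀ i, 0 ∈ C i) ∧
      (idl fun t : ∀ i, C i => p (∑ i, (t i : G))).IsPrime ∧
      (idl fun t : ∀ i, C i => p (∑ i, (t i : G))).height = e}
    ⟨_, 0, fun _ => ∅, fun i => i.elim0, fun i => i.elim0, idl_prime fun a b f _ g _ e =>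
      (mul_eq_zero.1 (congrFun e default)).imp (fun h => funext fun t => by
        rwa [Subsingleton.elim t default]) fun h => funext fun t => by
        rwa [Subsingleton.elim t default], rfl⟩
  refine ⟨n, fun i => C i, fun _ => σ, fun _ => inferInstance, fun i t => p t, _, h1,
    fun t => h.ne _, rg_sum h.ne hs C, le_antisymm (fun f hf => ?_) (idl_anti fun u => ⟨_, rfl⟩)⟩
  rw [← f.sum_homogeneousComponent]
  refine sum_mem fun d _ => by_contra fun hF => ?_
  have hh := homogeneousComponent_isHomogeneous d f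
  have h4 := Bav.homI_idl _ d f hf
  obtain ⟨D, h5, h6, h7⟩ := exists_crv h.ne h.cl h.irr 0 hh hF (by
    simpa using (Bav.mem_idl_hom hh).1 h4 fun i => ⟨0, h2 i⟩)
  have : Nonempty D := ⟨⟨0, h5⟩⟩
  have : Nonempty (∀ i, C i) := ⟨fun i => ⟨0, h2 i⟩⟩
  have e : (idl fun t : ∀ i, (Fin.cons D C : Fin (n + 1) → Set G) i => p (∑ i, (t i : G))) =
      idl fun t : D × ∀ i, C i => p (t.1 + ∑ i, (t.2 i : G)) :=
    le_antisymm (idl_anti fun u => ⟨Fin.cons u.1 u.2, by rw [Fin.sum_univ_succ]; rfl⟩)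
      (idl_anti fun u => ⟨(u 0, fun i => u i.succ), by rw [Fin.sum_univ_succ]⟩)
  have h8 := prime_add h.ne hs h6.irr h3
  refine hm _ ⟨n + 1, Fin.cons D C, Fin.cases h6 h1, Fin.cases h5 h2, e ▸ h8, rfl⟩ ?_
  rw [e]
  refine Ideal.height_strict_mono_of_isPrime (lt_of_le_of_ne
    (idl_anti fun u => ⟨(⟨0, h5⟩, u), by simp⟩) fun e' => h7 ?_)
  exact idl_anti (c := fun t : D × ∀ i, C i => p (t.1 + ∑ i, (t.2 i : G)))
    (fun u => ⟨(u, fun i => ⟨0, h2 i⟩), by simp⟩) (e'.ge h4)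

end Pool.Agent.Tav.AC
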