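import Pool.Agent.P.MP_2ce3e7_ag.Tav.CvPl

/-! Weak approximation, divisors of functions, existence of places. -/

set_option autoImplicit false

noncomputable section

namespace Pool.Agent.Tav.Cv.Ff

open IntermediateField Module

variable {K F : Type} [Field K] [Field F] [Algebra K F] [IsAlgClosed K] [OV K F]

theorem Pl.eq_of_le {P Q : Pl K F} (h : ∀ f, f ∈ P.O → f ∈ Q.O) : P = Q := by
  refine Pl.ext (ValuationSubring.ext _ _ fun f => ⟨h f, fun hf => ?_⟩)
  by_contra hP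
  have h0 : f ≠ 0 := fun e => hP (e ▸ P.O.zero_mem)
  rw [P.mem_O, P.mem_Ge h0] at hP
  refine Q.ne (eq_top_iff.2 fun g _ => ?_)
  by_cases hg : g = 0
  · rw [hg]; exact Q.O.zero_mem
  have e : g = g * (f ^ (P.ord g).natAbs)⁻¹ * f ^ (P.ord g).natAbs := by field_simp
  rw [e]
  refine mul_mem (h _ ?_) (pow_mem hf _)
  rw [P.mem_O, P.mem_Ge (mul_ne_zero hg (inv_ne_zero (pow_ne_zero _ h0))),
    P.ord_mul hg (inv_ne_zero (pow_ne_zero _ h0)), P.ord_inv, P.ord_pow h0]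
  have h1 : -P.ord g ≤ (P.ord g).natAbs := by omega
  have h2 : (0 : ℤ) ≤ (P.ord g).natAbs := by omega
  nlinarith

theorem Pl.sep {P Q : Pl K F} (h : P ≠ Q) : ∃ u : F, u ≠ 0 ∧ 0 < P.ord u ∧ Q.ord u < 0 := by
  have key : ∀ {P Q : Pl K F}, P ≠ Q → ∃ u : F, u ≠ 0 ∧ 0 ≤ P.ord u ∧ Q.ord u < 0 := by
    intro P Q h
    by_contra hc
    push Not at hc
    refine h (Pl.eq_of_le fun f hf => ?_)
    by_cases h0 : f = 0
    · rw [h0]; exact Q.O.zero_mem
    rw [Pl.mem_O, Pl.mem_Ge _ h0] at hf ⊢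
    exact hc f h0 hf
  obtain ⟨a, ha, h1, h2⟩ := key h
  obtain ⟨b, hb, h3, h4⟩ := key h.symm
  refine ⟨a * b⁻¹, mul_ne_zero ha (inv_ne_zero hb), ?_, ?_⟩ <;>
    rw [Pl.ord_mul _ ha (inv_ne_zero hb), Pl.ord_inv] <;> omega

theorem Pl.apx1 (P : Pl K F) (T : Finset (Pl K F)) :
    ∃ u : F, u ≠ 0 ∧ 0 < P.ord u ∧ ∀ Q ∈ T, Q ≠ P → Q.ord u < 0 := by
  classical
  induction T using Finset.induction_on with
  | empty => exact ⟨P.t, P.t_ne, by rw [P.ord_t]; omega, by simp⟩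
  | insert R T _ ih =>
    obtain ⟨y, hy, h1, h2⟩ := ih
    by_cases hR : R = P ∨ R.ord y < 0
    · refine ⟨y, hy, h1, fun Q hQ hne => ?_⟩
      rcases Finset.mem_insert.1 hQ with rfl | hQ
      · exact hR.resolve_left hne
      · exact h2 Q hQ hne
    push Not at hR
    obtain ⟨z, hz, h3, h4⟩ := Pl.sep hR.1.symm
    obtain ⟨r, hr⟩ := (T.image fun Q => (Q.ord z).natAbs).exists_le
    have hp := pow_ne_zero (r + 1) hy
    have e1 := R.ord_add (h := y ^ (r + 1)) hz (R.Ge_of_le (by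
      rw [R.ord_pow hy]
      have := mul_nonneg (Int.natCast_nonneg (r + 1)) hR.2
      omega))
    refine ⟨z + y ^ (r + 1), e1.1, ?_, fun Q hQ hne => ?_⟩
    · have : z + y ^ (r + 1) ∈ P.Ge 1 := add_mem (P.Ge_of_le h3) (P.Ge_of_le (by
        rw [P.ord_pow hy]
        exact mul_pos (by omega) h1))
      exact (P.mem_Ge e1.1).1 this
    rcases Finset.mem_insert.1 hQ with rfl | hQ
    · omega
    · have h5 := h2 Q hQ hne
      have h6 := hr _ (Finset.mem_image_of_mem _ hQ)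
      have h7 : Q.ord (y ^ (r + 1)) ≤ -(r + 1 : ℕ) := by
        rw [Q.ord_pow hy]
        have h2 : (0 : ℤ) ≤ (r + 1 : ℕ) := by omega
        nlinarith
      have e2 := Q.ord_add (h := z) hp (Q.Ge_of_le (by omega))
      rw [add_comm, e2.2]
      omega

theorem Pl.apx (P : Pl K F) (T : Finset (Pl K F)) (k : ℤ) (N : Pl K F → ℤ) :
    ∃ y : F, y ≠ 0 ∧ P.ord y = k ∧ ∀ Q ∈ T, Q ≠ P → N Q ≤ Q.ord y := by
  classical
  obtain ⟨u, hu, h1, h2⟩ := P.apx1 T
  obtain ⟨s, hs⟩ := (T.image fun Q => (N Q - k * Q.ord P.t).natAbs).exists_le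
  have hp := pow_ne_zero (s + 1) hu
  have e1 := P.ord_add (h := u ^ (s + 1)) one_ne_zero (P.Ge_of_le (by
    rw [P.ord_pow hu, P.ord_one]
    exact mul_pos (by omega) h1))
  have ht := zpow_ne_zero k P.t_ne
  refine ⟨P.t ^ k * (1 + u ^ (s + 1))⁻¹, mul_ne_zero ht (inv_ne_zero e1.1), ?_, fun Q hQ hne => ?_⟩
  · rw [P.ord_mul ht (inv_ne_zero e1.1), P.ord_inv, e1.2, P.ord_zpow P.t_ne, P.ord_t, P.ord_one]
    simp
  · have h5 := h2 Q hQ hne
    have h6 := hs _ (Finset.mem_image_of_mem _ hQ)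
    have h7 : Q.ord (u ^ (s + 1)) ≤ -(s + 1 : ℕ) := by
      rw [Q.ord_pow hu]
      have h2 : (0 : ℤ) ≤ (s + 1 : ℕ) := by omega
      nlinarith
    have e2 := Q.ord_add (h := 1) hp (Q.Ge_of_le (by rw [Q.ord_one]; omega))
    rw [Q.ord_mul ht (inv_ne_zero e1.1), Q.ord_inv, add_comm 1, e2.2, Q.ord_zpow P.t_ne]
    omega

theorem sum_ord_le {x : F} (hx : Transcendental K x) (T : Finset (Pl K F))
    (hT : ∀ Q ∈ T, 0 < Q.ord x) : ∑ Q ∈ T, Q.ord x ≤ finrank K⟮x⟯ F := by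
  classical
  have hx0 : x ≠ 0 := fun e => hx (e ▸ isAlgebraic_zero)
  choose y hy h1 h2 using fun (i : Σ Q : T, Fin (Q.1.ord x).toNat) =>
    i.1.1.apx T (i.2 : ℕ) fun Q => Q.ord x
  have hm : ∀ {f : F}, f ∈ (⨅ Q : T, Q.1.Ge 0 : Submodule K F) ↔ ∀ Q : T, f ∈ Q.1.Ge 0 :=
    Submodule.mem_iInf _
  have := card_le (ι := Σ Q : T, Fin (Q.1.ord x).toNat) hx (M := ⨅ Q : T, Q.1.Ge 0) (f := y)
    (fun m h => hm.2 fun Q => Q.1.Ge_anti (by have := hT _ Q.2; omega)
      (Q.1.Ge_mul (Q.1.Ge_ord x) (hm.1 h Q)))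
    (fun i => hm.2 fun Q => Q.1.Ge_of_le (by
      by_cases e : Q.1 = i.1.1
      · rw [e, h1]; omega
      · have := h2 i _ Q.2 e
        have := hT _ Q.2
        omega))
    (fun c m h e => by
      by_contra hc
      obtain ⟨j₁, hj₁⟩ := Function.ne_iff.1 hc
      obtain ⟨j, h3, h4⟩ := (Finset.univ.filter fun j => c j ≠ 0).exists_min_image
        (fun j => (j.2 : ℕ)) ⟨j₁, by simpa using hj₁⟩
      have hj : c j ≠ 0 := by simpa using h3
      have hlt : ((j.2 : ℕ) : ℤ) < j.1.1.ord x := by have := j.2.2; omega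
      have h5 : ∑ i, c i • y i ∈ j.1.1.Ge ((j.2 : ℕ) + 1) :=
        e ▸ j.1.1.Ge_anti (by omega) (j.1.1.Ge_mul (j.1.1.Ge_ord x) (hm.1 h j.1))
      rw [← Finset.add_sum_erase _ _ (Finset.mem_univ j), Submodule.add_mem_iff_left,
        Submodule.smul_mem_iff _ hj, Pl.mem_Ge _ (hy j), h1] at h5
      · omega
      refine sum_mem fun i hi => ?_
      by_cases h0 : c i = 0
      · simp [h0]
      refine Submodule.smul_mem _ _ (j.1.1.Ge_of_le ?_)
      by_cases e : j.1.1 = i.1.1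
      · have h6 := h4 i (by simpa using h0)
        have h7 : (i.2 : ℕ) ≠ j.2 := fun e' => (Finset.mem_erase.1 hi).1 (by
          obtain ⟨a, b⟩ := i
          obtain ⟨a', b'⟩ := j
          obtain rfl : a' = a := Subtype.ext e
          exact congrArg _ (Fin.ext e'))
        have h8 : j.1.1.ord (y i) = (i.2 : ℕ) := (congrArg (·.ord (y i)) e).trans (h1 i)
        omega
      · have := h2 i _ j.1.2 e
        omega)
  rw [Fintype.card_sigma] at this
  rw [← Finset.sum_coe_sort]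
  refine le_trans (Finset.sum_le_sum fun Q _ => Int.self_le_toNat _) ?_
  exact_mod_cast (by simpa using this)

theorem fin_zero {x : F} (hx : Transcendental K x) : {P : Pl K F | 0 < P.ord x}.Finite := by
  by_contra hi
  obtain ⟨T, hT, hc⟩ := Set.Infinite.exists_subset_card_eq hi (finrank K⟮x⟯ F + 1)
  have h1 := sum_ord_le hx T fun Q hQ => hT hQ
  have h2 := Finset.card_nsmul_le_sum T (fun Q => Q.ord x) 1 fun Q hQ => hT hQ
  rw [hc] at h2
  simp at h2
  omega

omit [IsAlgClosed K] [OV K F] in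
theorem trans_inv {x : F} (hx : Transcendental K x) : Transcendental K x⁻¹ :=
  fun h => hx (by simpa using h.inv)

theorem fin_ord (f : F) : (Function.support fun P : Pl K F => P.ord f).Finite := by
  by_cases h : ∀ c : K, f ≠ algebraMap K F c
  · refine ((fin_zero (trans_of h)).union (fin_zero (trans_inv (trans_of h)))).subset
      fun P hP => ?_
    simp only [Function.mem_support, Set.mem_union, Set.mem_ofPred_eq, Pl.ord_inv] at hP ⊢
    omega
  · push Not at h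
    obtain ⟨c, rfl⟩ := h
    simp [Pl.ord_cst]

variable (K) in
/-- the divisor of a function -/
def dv (f : F) : Pl K F →₀ ℤ := Finsupp.ofSupportFinite _ (fin_ord f)

@[simp] theorem dv_apply (f : F) (P : Pl K F) : dv K f P = P.ord f := rfl

theorem exists_pl {τ : Type} (y : τ → F) (b : τ → K)
    (h : ∀ p : MvPolynomial τ K, MvPolynomial.aeval y p = 0 → MvPolynomial.eval b p = 0)
    (a : τ) (ha : y a ≠ algebraMap K F (b a)) :
    ∃ P : Pl K F, ∀ a, y a - algebraMap K F (b a) ∈ P.Ge 1 := by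
  set φ := (MvPolynomial.aeval y : MvPolynomial τ K →ₐ[K] F).toRingHom with hφ
  have hI : Ideal.map φ.rangeRestrict (RingHom.ker (MvPolynomial.eval b)) ≠ ⊤ := by
    rw [Ideal.ne_top_iff_one, Ideal.mem_map_iff_of_surjective _ φ.rangeRestrict_surjective]
    rintro ⟨p, hp, e⟩
    have h1 : MvPolynomial.aeval y p = 1 := congrArg Subtype.val e
    have h2 := h (p - 1) (by rw [map_sub, h1, map_one, sub_self])
    rw [map_sub, RingHom.mem_ker.1 hp] at h2
    simp at h2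
  obtain ⟨B, h1, h2⟩ := Ideal.image_subset_nonunits_valuationSubring _ hI
  have h3 : ∀ a, y a - algebraMap K F (b a) ∈ B.nonunits := fun a =>
    h2 ⟨_, Ideal.mem_map_of_mem _ (x := MvPolynomial.X a - MvPolynomial.C (b a))
      (by simp [RingHom.mem_ker]), by simp [hφ]⟩
  refine ⟨⟨B, fun e => ?_, fun c => h1 ⟨MvPolynomial.C c, by simp [hφ]⟩⟩, fun a =>
    (Pl.Ge_one _).2 (B.mem_nonunits_iff.1 (h3 a))⟩
  rcases B.mem_nonunits_iff_or.1 (h3 a) with h4 | h4
  · exact ha (sub_eq_zero.1 h4)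
  · exact h4 (e ▸ ValuationSubring.mem_top _)

theorem exists_pl_one {x : F} (hx : Transcendental K x) (b : K) :
    ∃ P : Pl K F, x - algebraMap K F b ∈ P.Ge 1 := by
  obtain ⟨P, hP⟩ := exists_pl (fun _ : Unit => x) (fun _ => b) (fun p hp => by
    rw [(algebraicIndependent_unique_type_iff.2 hx).eq_zero_of_aeval_eq_zero p hp, map_zero]) ()
    fun e => hx (e ▸ isAlgebraic_algebraMap b)
  exact ⟨P, hP ()⟩

theorem inf_pl : Infinite (Pl K F) := by
  obtain ⟨x, hx⟩ := OV.ex (K := K) (F := F)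
  choose P hP using exists_pl_one hx
  refine Infinite.of_injective P fun a b e => ?_
  have h := ((P b).Ge 1).sub_mem (hP b) (e ▸ hP a)
  rw [sub_sub_sub_cancel_left, ← map_sub] at h
  exact sub_eq_zero.1 ((P b).cst_Ge_one h)

theorem cst_of_Ge {f : F} (h : ∀ P : Pl K F, f ∈ P.Ge 0) : ∃ c : K, f = algebraMap K F c := by
  by_contra hc
  push Not at hc
  have h0 : f ≠ 0 := by simpa using hc 0
  obtain ⟨P, hP⟩ := exists_pl_one (trans_inv (trans_of hc)) 0
  have h1 := (P.mem_Ge h0).1 (h P)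
  rw [map_zero, sub_zero, P.mem_Ge (inv_ne_zero h0), P.ord_inv] at hP
  omega

end Pool.Agent.Tav.Cv.Ff
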