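import Pool.Agent.P.MP_2ce3e7_ag.Tav.CvStmt
import Pool.Agent.P.MP_2ce3e7_ag.Tav.CvSm
import Pool.Agent.P.MP_2ce3e7_ag.Tav.CvAV

/-! From the definition of a curve to linear systems. -/

set_option autoImplicit false

noncomputable section

namespace Pool.Agent.Tav.Curve

open Cu Module

variable {Ω : Type} [Field Ω] {T τ : Type} [Fintype τ] {c : T → τ → Ω}

theorem vr [IsAlgClosed Ω] (h : Curve c) : Vr (crd c) := vr_of_cl h.ne h.cl h.irr

theorem hil (h : Curve c) : ∃ (d : ℕ) (g : ℤ) (m₀ : ℕ), d ≠ 0 ∧ ∀ m, m₀ ≤ m →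
    (finrank Ω (crd c ^ m :) : ℤ) = m * d + 1 - g :=
  hilb_crv (Submodule.fg_span (Set.finite_range _)) h.dim

theorem inf (h : Curve c) : Infinite T :=
  let ⟨_, _, _, hd, e⟩ := h.hil
  infinite_of_hilb hd e

theorem sec [Infinite Ω] (h : Curve c) :
    ∃ (s : T × T → τ × τ → Ω) (E : T → T → Ω), (∀ z, s z ≠ 0) ∧
      (Mp (box (crd c) (crd c)) (crd s) fun z => z) ∧
      Rg ![crd fun z : T × T => c z.1, crd fun z => c z.2] (crd s) ∧
      (∀ x y a b, c x a * c y b - c x b * c y a = E x y * s (x, y) (a, b)) ∧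
      ∀ x y, E x y = 0 ↔ x = y :=
  have := h.inf
  exists_sec c h.ne h.inj (dm_of_prime h.irr) h.sm

end Pool.Agent.Tav.Curve
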