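import Pool.Agent.P.MP_2ce3e7_ag.Tav.CvPoiA
import Pool.Agent.P.MP_2ce3e7_ag.Tav.CvXD

/-! The Poincare system on the product of the class group and the curve. -/

set_option autoImplicit false

noncomputable section

namespace Pool.Agent.Tav.Cv.Poi

open Set Function Cu

variable {Ω T Γ G : Type} [Field Ω] [AddCommGroup Γ] [AddCommGroup G]
  {S : Γ → Submodule Ω (T → Ω)} {n : ℕ}

/-- `F` is a section of degree `A` in every slot -/
def Slot (S : Γ → Submodule Ω (T → Ω)) (A : Γ) (F : (Fin n → T) → Ω) : Prop :=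
  ∀ b j, (fun t => F (update b j t)) ∈ S A

theorem Slot.mul (h : Sys S) {A B : Γ} {F F' : (Fin n → T) → Ω} (hF : Slot S A F)
    (hF' : Slot S B F') : Slot S (A + B) fun b => F b * F' b := fun b j => h.mul (hF b j) (hF' b j)

theorem Slot.both (h : Sys S) {A B : Γ} {F F' : (Fin n → T) → Ω} (hF : Slot S A F)
    (hF' : Slot S B F') (h1 : ∃ b, F b ≠ 0) (h2 : ∃ b, F' b ≠ 0) : ∃ b, F b * F' b ≠ 0 := by
  obtain ⟨a, ha⟩ := h1
  obtain ⟨b, hb⟩ := h2
  have key : ∀ s : Finset (Fin n), ∃ c, F c ≠ 0 ∧ F' (s.piecewise c b) ≠ 0 := fun s => by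
    induction s using Finset.induction_on with
    | empty => exact ⟨a, ha, by simpa using hb⟩
    | insert i s hi ih =>
      obtain ⟨c, h1, h2⟩ := ih
      have n1 : (fun t => F (update c i t)) ≠ 0 := fun e => h1 (by simpa using congrFun e (c i))
      have n2 : (fun t => F' (update (s.piecewise c b) i t)) ≠ 0 := fun e =>
        h2 (by simpa using congrFun e (s.piecewise c b i))
      obtain ⟨t, ht⟩ := Function.ne_iff.1 fun e => (h.dom (hF c i) (hF' _ i) e).elim n1 n2
      refine ⟨update c i t, left_ne_zero_of_mul ht, ?_⟩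
      have : (insert i s).piecewise (update c i t) b = update (s.piecewise c b) i t := by
        funext j
        by_cases e : j = i
        · subst e; simp
        · by_cases hj : j ∈ s <;> simp [Finset.piecewise, e, hj]
      rw [this]
      exact right_ne_zero_of_mul ht
  obtain ⟨c, h1, h2⟩ := key Finset.univ
  exact ⟨c, mul_ne_zero h1 (by simpa using h2)⟩

omit [AddCommGroup Γ] in
theorem slot_dt {A : Γ} {u : Fin (n + 1) → T → Ω} (hu : ∀ i, u i ∈ S A) (y : T) :
    Slot S A (dt u y) := fun b j => by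
  have : (fun t => dt u y (update b j t)) = ∑ i : Fin (n + 1), ((-1) ^ ((i : ℕ) + (j.succ : ℕ)) *
      (Matrix.of fun k l => u (i.succAbove k)
        ((Fin.cons y b : Fin (n + 1) → T) (j.succ.succAbove l))).det) • u i := by
    funext t
    rw [dt, Matrix.det_succ_column _ j.succ, Finset.sum_apply, Fin.cons_update]
    refine Finset.sum_congr rfl fun i _ => ?_
    rw [mul_right_comm, Pi.smul_apply, smul_eq_mul, Matrix.of_apply, update_self]
    congr 3
    ext k l
    simp only [Matrix.submatrix_apply, Matrix.of_apply]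
    rw [update_of_ne (Fin.succAbove_ne _ _)]
  rw [this]
  exact Submodule.sum_mem _ fun i _ => Submodule.smul_mem _ _ (hu i)

omit [AddCommGroup Γ] in
theorem slot_prod {A : Γ} {e : T → Ω} (he : e ∈ S A) :
    Slot S A fun b : Fin n → T => ∏ j, e (b j) := fun b j => by
  have : (fun t => ∏ k, e (update b j t k)) = (∏ k ∈ Finset.univ.erase j, e (b k)) • e := by
    funext t
    rw [← Finset.prod_erase_mul _ _ (Finset.mem_univ j), update_self, Pi.smul_apply, smul_eq_mul]
    congr 1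
    exact Finset.prod_congr rfl fun k hk => by rw [update_of_ne (Finset.ne_of_mem_erase hk)]
  rw [this]
  exact Submodule.smul_mem _ _ he

/-- a point that is no base point extends to an independent tuple -/
theorem exists_dt : ∀ {n : ℕ} {u : Fin (n + 1) → T → Ω}, LinearIndependent Ω u →
    ∀ (y : T) (i : Fin (n + 1)), u i y ≠ 0 → ∃ b, dt u y b ≠ 0
  | 0, u, _, y, i, hi => ⟨Fin.elim0, by
      obtain rfl : i = 0 := Fin.eq_zero i
      simpa [dt] using hi⟩
  | n + 1, u, hu, y, i, hi => by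
    obtain ⟨i', hi'⟩ := exists_ne i
    obtain ⟨k, rfl⟩ := Fin.exists_succAbove_eq hi'.symm
    obtain ⟨b, hb⟩ := exists_dt (hu.comp _ (Fin.succAbove_right_injective (p := i'))) y k hi
    by_contra hc
    simp only [not_exists, not_not] at hc
    have h0 := Fintype.linearIndependent_iff.1 hu (fun m => (-1) ^ ((m : ℕ) + 1) *
      dt (fun l => u (m.succAbove l)) y b) (funext fun t => by
        have := hc (Fin.cons t b)
        rw [dt, Matrix.det_succ_column _ 1] at this
        rw [Finset.sum_apply, Pi.zero_apply, ← this]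
        refine Finset.sum_congr rfl fun m _ => ?_
        rw [mul_right_comm, Pi.smul_apply, smul_eq_mul]
        refine congrArg₂ (· * ·) (congrArg₂ (· * ·) rfl (congrArg Matrix.det ?_)) rfl
        ext p q
        refine Fin.cases ?_ (fun q => ?_) q <;> simp) i'
    exact hb ((mul_eq_zero.1 h0).resolve_left (pow_ne_zero _ (by simp)))

omit [AddCommGroup Γ] in
/-- interpolation in every slot -/
theorem fd_slots {Y : Type} {A : Γ} [FiniteDimensional Ω (S A)] {F : Y → (Fin n → T) → Ω}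
    (hF : ∀ z, Slot S A (F z)) :
    FiniteDimensional Ω (Submodule.span Ω (range fun b z => F z b)) := by
  obtain ⟨m, c, x, -, hc⟩ := lag (S A)
  let W := Submodule.span Ω (range fun (σ : Fin n → Fin m) z => F z (x ∘ σ))
  have : FiniteDimensional Ω W := FiniteDimensional.span_of_finite Ω (finite_range _)
  have key : ∀ (I : Finset (Fin n)) (b : Fin n → T), (∀ j, j ∉ I → b j ∈ range x) →
      (fun z => F z b) ∈ W := fun I => by
    induction I using Finset.induction_on with
    | empty =>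
      intro b hb
      choose σ hσ using fun j => hb j (by simp)
      exact Submodule.subset_span ⟨σ, by rw [← show x ∘ σ = b from funext hσ]⟩
    | insert i I hi ih =>
      intro b hb
      have : (fun z => F z b) = ∑ s, c s (b i) • fun z => F z (update b i (x s)) := by
        funext z
        have := congrFun (hc _ (hF z b i)) (b i)
        simpa [mul_comm] using this
      rw [this]
      refine Submodule.sum_mem _ fun s _ => Submodule.smul_mem _ _ (ih _ fun j hj => ?_)
      by_cases e : j = i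
      · subst e; simp
      · rw [update_of_ne e]; exact hb j (by simp [e, hj])
  exact Submodule.finiteDimensional_of_le (S₂ := W) (Submodule.span_le.2 (by
    rintro _ ⟨b, rfl⟩; exact key Finset.univ b (by simp)))

/-- a finite system whose ratios are regular defines a regular map -/
theorem mp_of_rat {L U : Submodule Ω (T → Ω)} [FiniteDimensional Ω U] (hn : Nv U)
    (h : ∀ t, ∀ f ∈ U, ∀ f' ∈ U, f' t ≠ 0 → At L 0 t (f / f')) : Mp L U fun t => t := by
  classical
  intro t
  obtain ⟨f₀, m₀, n₀⟩ := hn t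
  have key : ∀ s : Finset (T → Ω), (∀ f ∈ s, f ∈ U) → ∃ e, ∃ b ∈ L ^ e, b t ≠ 0 ∧
      ∀ f ∈ s, b * (f / f₀) ∈ L ^ e := fun s => by
    induction s using Finset.induction_on with
    | empty => exact fun _ => ⟨0, 1, one_mem_pow L, one_ne_zero, by simp⟩
    | insert a s _ ih =>
      intro hs
      obtain ⟨e, b, h1, h2, h3⟩ := ih fun f hf => hs f (Finset.mem_insert_of_mem hf)
      obtain ⟨e', b', h1', h2', h3'⟩ := h t a (hs a (Finset.mem_insert_self _ _)) f₀ m₀ n₀
      refine ⟨e + e', b * b', mul_mem_pow h1 h1', mul_ne_zero h2 h2', fun f hf => ?_⟩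
      rcases Finset.mem_insert.1 hf with rfl | hf
      · exact mem_pow_congr (mul_mem_pow h1 h3') rfl (by ring)
      · exact mem_pow_congr (mul_mem_pow (h3 f hf) h1') rfl (by ring)
  obtain ⟨s, hs⟩ := (Submodule.fg_iff_finiteDimensional U).2 inferInstance
  obtain ⟨e, b, -, h2, h3⟩ := key s fun f hf => hs ▸ Submodule.subset_span hf
  refine ⟨e, b / f₀, div_ne_zero h2 n₀, fun u hu => ?_⟩
  rw [← hs] at hu
  induction hu using Submodule.span_induction with
  | mem f hf => exact mem_pow_congr (h3 f hf) rfl (by funext z; simp; ring)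
  | zero => exact mem_pow_congr (Submodule.zero_mem _) rfl (by funext z; simp)
  | add f g _ _ hf hg => exact mem_pow_congr (Submodule.add_mem _ hf hg) rfl (by funext z; simp; ring)
  | smul a f _ hf => exact mem_pow_congr (Submodule.smul_mem _ a hf) rfl (by funext z; simp; ring)

omit [AddCommGroup Γ] in
theorem dt_mem {A : Γ} {u : Fin (n + 1) → T → Ω} (hu : ∀ i, u i ∈ S A) (b : Fin n → T) :
    (fun y => dt u y b) ∈ S A := by
  obtain ⟨c, hc⟩ := dt_eq u b
  have : (fun y => dt u y b) = ∑ i, c i • u i := funext fun y => by simp [hc]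
  rw [this]
  exact Submodule.sum_mem _ fun i _ => Submodule.smul_mem _ _ (hu i)

theorem bs_mem {m : ℕ} {W : Submodule Ω (T → Ω)} {u : Fin m → T → Ω} (h : Bs W u) (i : Fin m) :
    u i ∈ W := h.2 ▸ Submodule.subset_span (mem_range_self i)

theorem bs_dt {W : Submodule Ω (T → Ω)} {u : Fin (n + 1) → T → Ω} (h : Bs W u) (hn : Nv W)
    (y : T) : ∃ b, dt u y b ≠ 0 := by
  obtain ⟨f, hf, h0⟩ := hn y
  obtain ⟨c, rfl⟩ := (Submodule.mem_span_range_iff_exists_fun Ω).1 (h.2.ge hf)
  by_contra hc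
  refine h0 ?_
  rw [Finset.sum_apply]
  refine Finset.sum_eq_zero fun i _ => ?_
  by_contra hi
  exact hc (exists_dt h.1 y i (right_ne_zero_of_mul hi))

variable {H : Γ} {Z : AddSubgroup Γ} {cl : Z →+ G} (J : Jac S H n Z cl)

theorem AG_eq (x : G) (y c : T) (b : Fin n → T) :
    J.AG x y c b = dt (J.bU x) y b * dt (J.bV x) c b := rfl

theorem slot_AG (x : G) (y c : T) : Slot S (H + H) (J.AG x y c) := by
  have := Slot.mul J.sys (slot_dt (bs_mem (J.bs_bU x)) y) (slot_dt (bs_mem (J.bs_bV x)) c)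
  rwa [add_add_sub_cancel] at this

theorem AG_ne (x : G) (y c : T) : ∃ b, J.AG x y c b ≠ 0 :=
  Slot.both J.sys (slot_dt (bs_mem (J.bs_bU x)) y) (slot_dt (bs_mem (J.bs_bV x)) c)
    (bs_dt (J.bs_bU x) (J.nv _) y) (bs_dt (J.bs_bV x) (J.nv' _) c)

theorem nv_XG : Nv (crd J.XG) := fun x => by
  obtain ⟨y⟩ := J.sys.ne
  obtain ⟨b, hb⟩ := AG_ne J x y y
  exact ⟨_, Submodule.subset_span (mem_range_self (y, b, y, b)), mul_ne_zero hb hb⟩

include J in
theorem nv_two : Nv (S (H + H)) := fun t => by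
  obtain ⟨f, hf, h0⟩ := J.nv 0 t
  rw [ZeroMemClass.coe_zero, add_zero] at hf
  exact ⟨_, J.sys.mul hf hf, mul_ne_zero h0 h0⟩

/-- the Poincare system -/
def PP (c₀ : T) : Submodule Ω (G × T → Ω) :=
  Submodule.span Ω (range fun b t => J.AG t.1 t.2 c₀ b)

theorem fd_PP (c₀ : T) : FiniteDimensional Ω (PP J c₀) :=
  have := J.fd2
  fd_slots fun t : G × T => slot_AG J t.1 t.2 c₀

theorem nv_PP (c₀ : T) : Nv (PP J c₀) := fun t =>
  (AG_ne J t.1 t.2 c₀).elim fun b hb => ⟨_, Submodule.subset_span (mem_range_self b), hb⟩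

theorem mp_PP2 [FiniteDimensional Ω (crd J.XG)] (c₀ : T) :
    Mp (box (crd J.XG) (S (H + H))) (PP J c₀) fun t => t := by
  intro t
  obtain ⟨d, hd⟩ := AG_ne J t.1 c₀ t.2
  refine ⟨1, fun z => J.AG z.1 c₀ z.2 d, hd, fun u hu => ?_⟩
  rw [pow_one]
  induction hu using Submodule.span_induction with
  | mem f hf =>
    obtain ⟨b, rfl⟩ := hf
    refine box_of_slices (fun y => Submodule.subset_span ⟨(y, b, c₀, d), funext fun x => ?_⟩)
      fun x => ?_
    · exact (J.XG_eq x y c₀ b d).trans (mul_comm _ _)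
    · have h1 := Submodule.smul_mem _ (dt (J.bV x) c₀ b * dt (J.bU x) c₀ d)
        (J.sys.mul (dt_mem (bs_mem (J.bs_bU x)) b) (dt_mem (bs_mem (J.bs_bV x)) d))
      rw [add_add_sub_cancel] at h1
      refine (congrArg (· ∈ S (H + H)) (funext fun y => ?_)).mp h1
      simp only [Pi.smul_apply, Pi.mul_apply, smul_eq_mul, AG_eq]
      ring
  | zero => exact (congrArg (· ∈ _) (funext fun z => by simp)).mp (Submodule.zero_mem _)
  | add f g _ _ hf hg =>
    exact (congrArg (· ∈ _) (funext fun z => by simp; ring)).mp (Submodule.add_mem _ hf hg)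
  | smul a f _ hf =>
    exact (congrArg (· ∈ _) (funext fun z => by simp; ring)).mp (Submodule.smul_mem _ a hf)

/-- what is used of the system of a curve -/
structure Pd (S : Γ → Submodule Ω (T → Ω)) (L : Submodule Ω (T → Ω)) {ι : Type} (E : T → T → Ω)
    (s : T × T → ι → Ω) (h : Γ) (pt : T → Γ) : Prop where
  sc : Sc L E s
  two : Nontrivial T
  le : L ≤ S h
  sec : ∀ x k, (fun y => s (x, y) k) ∈ S (h - pt x)
  mem : ∀ x, E x ∈ S (pt x)
  ex : ∀ A x, ∀ f ∈ S A, f x = 0 → ∃ g ∈ S (A - pt x), f = E x * g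
  rat : ∀ A t, ∀ f ∈ S A, ∀ f' ∈ S A, f' t ≠ 0 → At L 0 t (f / f')

variable {L : Submodule Ω (T → Ω)} {ι : Type} {E : T → T → Ω} {s : T × T → ι → Ω} {h : Γ}
  {pt : T → Γ}

theorem Pd.mp (D : Pd S L E s h pt) {A : Γ} [FiniteDimensional Ω (S A)] (hn : Nv (S A)) :
    Mp L (S A) fun t => t := mp_of_rat hn fun t => D.rat A t

theorem mp_PP (D : Pd S L E s h pt) [FiniteDimensional Ω (crd J.XG)] (c₀ : T) :
    Mp (box (crd J.XG) L) (PP J c₀) fun t => t :=
  have := J.fd2
  (mp_PP2 J c₀).comp ((Mp.fst _ D.sc.nv).prod ((D.mp (nv_two J)).comp (Mp.snd (nv_XG J) L)))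

theorem loc (D : Pd S L E s h pt) [FiniteDimensional Ω (crd J.XG)] (x₀ c₀ y₀ : T)
    (hZ : ∀ x, pt x₀ - pt x ∈ Z) {a : T → G} (ea : ∀ x, a x = cl ⟨_, hZ x⟩)
    (hd : Module.finrank Ω (S (H + pt x₀)) = n + 2) (hn : Nv (S (H + pt x₀)))
    (ha : Mp L (crd J.XG) a) : ∃ μ : T × T → Ω, ∀ t : T × T,
      ∃ (k k' : ι) (b : Fin n → T), ∃ f ∈ S (H + pt x₀), ∃ l ∈ L,
        s t k * (J.AG (a t.1) y₀ c₀ b * f t.2) ≠ 0 ∧
        Ut (box L L) t fun z => μ z * (s z k * (J.AG (a z.1) y₀ c₀ b * f z.2)) /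
          (s (z.1, y₀) k' * (J.AG (a z.1) z.2 c₀ b * l z.2)) := by
  have fd : FiniteDimensional Ω (S (H + pt x₀)) := Module.finite_of_finrank_eq_succ hd
  obtain ⟨g, hg⟩ := exists_bs hd
  have pr : ∀ x, Pr S ((J.rep (a x) : Γ) - (pt x₀ - pt x)) := fun x =>
    (J.ker (J.rep (a x) - ⟨_, hZ x⟩)).1 (by rw [map_sub, J.cl_rep, ea, sub_self])
  choose m hm μ hμ e using pr
  have μ0 : ∀ x y, μ x y ≠ 0 := fun x y => right_ne_zero_of_mul ((congrFun (e x) y).trans_ne one_ne_zero)
  have st : St L E s g fun x i => μ x * J.bU (a x) i := by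
    refine ⟨hg.1, hg.2 ▸ hn, hg.2 ▸ D.mp hn, fun x f hf h0 => ?_, fun x i k l hl f hf h1 h2 h3 => ?_⟩
    · obtain ⟨f', hf', rfl⟩ := D.ex _ x f (hg.2 ▸ hf) h0
      have h1 : m x * f' ∈ S (H + J.rep (a x)) :=
        (congrArg (fun A => m x * f' ∈ S A) (by abel)).mp (J.sys.mul (hm x) hf')
      obtain ⟨c, hc⟩ := (Submodule.mem_span_range_iff_exists_fun Ω).1 ((J.bs_bU _).2.ge h1)
      refine (Submodule.mem_span_range_iff_exists_fun Ω).2 ⟨c, ?_⟩
      simp only [← mul_smul_comm, ← Finset.mul_sum, hc]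
      rw [← mul_assoc (μ x), mul_comm (μ x), e, one_mul]
    · have h4 := J.sys.mul (J.sys.mul (hμ x) (bs_mem (J.bs_bU (a x)) i)) (D.le hl)
      have h5 := J.sys.mul (D.sec x k) (hg.2.le hf)
      exact D.rat _ x _ ((congrArg (fun A => _ ∈ S A) (by abel)).mp h4) _ h5 (mul_ne_zero h1 h3)
  have hj : Mp (box L L) (box (crd J.XG) L) fun t : T × T => (a t.1, t.2) :=
    (ha.comp (Mp.fst L D.sc.nv)).prod (Mp.snd D.sc.nv L)
  refine ⟨fun z => μ z.1 y₀ / μ z.1 z.2, fun t => ?_⟩
  have := st.ratio D.sc (u := fun x => J.bU (a x)) (v := fun x => J.bV (a x)) μ0 c₀ y₀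
    (Mp.map_id ((mp_PP J D c₀).comp hj))
    (fun b => ⟨_, Submodule.subset_span (mem_range_self b), rfl⟩) (fun x y => ?_) t
  · rwa [hg.2] at this
  · have := D.two
    obtain ⟨z, hz⟩ := exists_ne x
    have s1 := slot_AG J (a x) y c₀
    have s2 := slot_dt (bs_mem (J.bs_bU (a x))) y₀
    obtain ⟨b, hb⟩ := Slot.both J.sys (s1.mul J.sys s2) (slot_prod (D.mem x))
      (Slot.both J.sys s1 s2 (AG_ne J _ _ _) (bs_dt (J.bs_bU _) (J.nv _) y₀))
      ⟨fun _ => z, Finset.prod_ne_zero_iff.2 fun _ _ => D.sc.ne _ _ hz.symm⟩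
    simp only [AG_eq, ne_eq, mul_eq_zero, not_or, Finset.prod_eq_zero_iff, not_exists] at hb
    refine ⟨b, fun j e => hb.2 j ⟨Finset.mem_univ _, ?_⟩, hb.1.1.1, hb.1.2, hb.1.1.2⟩
    rw [e, D.sc.zero]

end Pool.Agent.Tav.Cv.Poi
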