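import Pool.Agent.P.MP_2ce3e7_ag.Tav.CvXD

/-! The theorem of Riemann for a graded system of sections on a curve. -/

set_option autoImplicit false

noncomputable section

namespace Pool.Agent.Tav.Cv

open Module Function Cu

variable {Ω : Type} [Field Ω] {T Γ : Type} [AddCommGroup Γ] {S : Γ → Submodule Ω (T → Ω)}
  {A B C : Γ} {f : T → Ω}

namespace Sys

omit [AddCommGroup Γ] in
theorem cast {g : T → Ω} (h : g ∈ S A) (e : A = B) : g ∈ S B := e ▸ h

/-- multiplication by a section -/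
def mulL (h : Sys S) (hf : f ∈ S B) (e : B + A = C) : S A →ₗ[Ω] S C :=
  (LinearMap.mulLeft Ω f).restrict fun _ hu => cast (h.mul hf hu) e

theorem mulL_inj (h : Sys S) (hf : f ∈ S B) (e : B + A = C) (h0 : f ≠ 0) :
    Injective (h.mulL hf e) :=
  (injective_iff_map_eq_zero _).2 fun u hu =>
    Subtype.ext ((h.dom hf u.2 (congrArg Subtype.val hu)).resolve_left h0)

theorem fd_of (h : Sys S) (hf : f ∈ S B) (e : B + A = C) (h0 : f ≠ 0)
    [FiniteDimensional Ω (S C)] : FiniteDimensional Ω (S A) :=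
  FiniteDimensional.of_injective _ (h.mulL_inj hf e h0)

theorem rk_le (h : Sys S) (hf : f ∈ S B) (e : B + A = C) (h0 : f ≠ 0)
    [FiniteDimensional Ω (S C)] : finrank Ω (S A) ≤ finrank Ω (S C) :=
  LinearMap.finrank_le_finrank_of_injective (h.mulL_inj hf e h0)

theorem nv_add (h : Sys S) (hA : Nv (S A)) (hB : Nv (S B)) : Nv (S (A + B)) := fun t => by
  obtain ⟨u, hu, h1⟩ := hA t
  obtain ⟨v, hv, h2⟩ := hB t
  exact ⟨u * v, h.mul hu hv, mul_ne_zero h1 h2⟩

theorem nv_zero (h : Sys S) : Nv (S 0) := fun _ => ⟨1, h.one, one_ne_zero⟩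

theorem nv_nsmul (h : Sys S) (hA : Nv (S A)) (k : ℕ) : Nv (S (k • A)) := by
  induction k with
  | zero => rw [zero_nsmul]; exact h.nv_zero
  | succ k ih => rw [succ_nsmul]; exact h.nv_add ih hA

theorem ex_of_nv (h : Sys S) (hA : Nv (S A)) : ∃ u ∈ S A, u ≠ 0 := by
  obtain ⟨t⟩ := h.ne
  obtain ⟨u, hu, h1⟩ := hA t
  exact ⟨u, hu, fun e => h1 (congrFun e t)⟩

/-- the principal degrees -/
def prS (h : Sys S) : AddSubgroup Γ where
  carrier := {D | Pr S D}
  zero_mem' := ⟨1, h.one, 1, cast h.one neg_zero.symm, one_mul 1⟩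
  add_mem' := fun ⟨u, hu, u', hu', e⟩ ⟨v, hv, v', hv', e'⟩ => ⟨u * v, h.mul hu hv, u' * v',
    cast (h.mul hu' hv') (neg_add _ _).symm, by rw [mul_mul_mul_comm, e, e', one_mul]⟩
  neg_mem' := fun ⟨u, hu, u', hu', e⟩ =>
    ⟨u', hu', u, cast hu (neg_neg _).symm, by rw [mul_comm, e]⟩

theorem pr_congr (h : Sys S) (hA : A ∈ h.prS) (e : A = B) : B ∈ h.prS := e ▸ hA

theorem pr_ex (h : Sys S) (hA : A ∈ h.prS) : ∃ u ∈ S A, ∀ t, u t ≠ 0 := by
  obtain ⟨u, hu, u', -, e⟩ := hA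
  exact ⟨u, hu, fun t => left_ne_zero_of_mul_eq_one (congrFun e t)⟩

theorem pr_of_ne (h : Sys S) (hf : f ∈ S A) (h0 : ∀ t, f t ≠ 0) : A ∈ h.prS :=
  have e : f * f⁻¹ = 1 := funext fun t => mul_inv_cancel₀ (h0 t)
  ⟨f, hf, f⁻¹, h.glue _ _ fun t => ⟨A, f, hf, h0 t, e ▸ cast h.one (add_neg_cancel A).symm⟩, e⟩

theorem pr_nv (h : Sys S) (hA : A - B ∈ h.prS) (hB : Nv (S B)) : Nv (S A) := by
  obtain ⟨u, hu, h0⟩ := h.pr_ex hA
  have := h.nv_add (fun t => ⟨u, hu, h0 t⟩) hB
  rwa [sub_add_cancel] at this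

theorem pr_fd (h : Sys S) (hA : A - B ∈ h.prS) [FiniteDimensional Ω (S B)] :
    FiniteDimensional Ω (S A) := by
  obtain ⟨u, hu, h0⟩ := h.pr_ex (neg_mem hA)
  obtain ⟨t⟩ := h.ne
  exact h.fd_of (C := B) hu (by abel) fun e => h0 t (congrFun e t)

theorem pr_rk (h : Sys S) (hA : A - B ∈ h.prS) [FiniteDimensional Ω (S B)] :
    finrank Ω (S A) = finrank Ω (S B) := by
  have := h.pr_fd hA
  obtain ⟨u, hu, h0⟩ := h.pr_ex (neg_mem hA)
  obtain ⟨v, hv, h1⟩ := h.pr_ex hA
  obtain ⟨t⟩ := h.ne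
  exact le_antisymm (h.rk_le hu (by abel) fun e => h0 t (congrFun e t))
    (h.rk_le hv (by abel) fun e => h1 t (congrFun e t))

/-- the class group of the degrees in `Z` -/
abbrev Pic (h : Sys S) (Z : AddSubgroup Γ) : Type := Z ⧸ h.prS.addSubgroupOf Z

/-- the class of a degree -/
def cl (h : Sys S) (Z : AddSubgroup Γ) : Z →+ h.Pic Z := QuotientAddGroup.mk' _

theorem cl_eq (h : Sys S) {Z : AddSubgroup Γ} {D D' : Z} :
    h.cl Z D = h.cl Z D' ↔ (D : Γ) - D' ∈ h.prS :=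
  QuotientAddGroup.eq_iff_sub_mem

end Sys

/-- a graded system on a curve: hyperplane degree `h`, points `pt`, canonical sections `E` -/
structure Cs (S : Γ → Submodule Ω (T → Ω)) (h : Γ) (pt : T → Γ) (E : T → T → Ω) (deg : Γ →+ ℤ)
    (d k₀ : ℕ) (g : ℤ) : Prop where
  sys : Sys S
  inf : Infinite T
  mem : ∀ y, E y ∈ S (pt y)
  zero : ∀ y x, E y x = 0 ↔ y = x
  ex : ∀ {A : Γ} {f : T → Ω} {y : T}, f ∈ S A → f y = 0 → ∃ u ∈ S (A - pt y), f = E y * u
  nvh : Nv (S h)
  nvs : ∀ y, Nv (S (h - pt y))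
  fdh : ∀ k, k₀ ≤ k → FiniteDimensional Ω (S (k • h))
  hil : ∀ k, k₀ ≤ k → (finrank Ω (S (k • h)) : ℤ) = k * d + 1 - g
  deg_h : deg h = d
  deg_pt : ∀ y, deg (pt y) = 1
  gen : AddSubgroup.closure (insert h (Set.range pt)) = ⊤

/-- the degree of an effective divisor -/
def sm (pt : T → Γ) (D : Multiset T) : Γ := (D.map pt).sum

variable {h : Γ} {pt : T → Γ} {E : T → T → Ω} {deg : Γ →+ ℤ} {d k₀ : ℕ} {g : ℤ}

theorem sm_zero : sm pt 0 = 0 := by simp [sm]

theorem sm_cons (y : T) (D : Multiset T) : sm pt (y ::ₘ D) = pt y + sm pt D := by simp [sm]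

theorem sm_add (D D' : Multiset T) : sm pt (D + D') = sm pt D + sm pt D' := by simp [sm]

namespace Cs

variable (c : Cs S h pt E deg d k₀ g)
include c

theorem E_ne (y : T) : E y ≠ 0 := by
  have := c.inf
  obtain ⟨x, hx⟩ := exists_ne y
  exact fun e => hx ((c.zero y x).1 (congrFun e x)).symm

theorem deg_sm (D : Multiset T) : deg (sm pt D) = D.card := by
  induction D using Multiset.induction_on with
  | empty => simp [sm]
  | cons y D ih => rw [sm_cons, map_add, ih, c.deg_pt, Multiset.card_cons]; push_cast; ring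

theorem deg_fm (k : ℕ) (D : Multiset T) : deg (k • h - sm pt D) = k * d - D.card := by
  rw [map_sub, map_nsmul, c.deg_h, c.deg_sm, nsmul_eq_mul]

theorem fd_sub [FiniteDimensional Ω (S A)] (y : T) : FiniteDimensional Ω (S (A - pt y)) :=
  c.sys.fd_of (C := A) (c.mem y) (by abel) (c.E_ne y)

/-- removing one point -/
theorem step [FiniteDimensional Ω (S A)] (y : T) : ∃ e : ℕ, e ≤ 1 ∧
    finrank Ω (S A) = finrank Ω (S (A - pt y)) + e ∧ (e = 0 ↔ ∀ f ∈ S A, f y = 0) := by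
  let φ : S A →ₗ[Ω] Ω := (LinearMap.proj y).comp (S A).subtype
  have e : pt y + (A - pt y) = A := by abel
  have h1 : LinearMap.range (c.sys.mulL (c.mem y) e) = LinearMap.ker φ := by
    ext u
    constructor
    · rintro ⟨v, rfl⟩
      change E y y * v.1 y = 0
      rw [(c.zero y y).2 rfl, zero_mul]
    · intro hu
      obtain ⟨v, hv, h2⟩ := c.ex u.2 hu
      exact ⟨⟨v, hv⟩, Subtype.ext h2.symm⟩
  have h2 := φ.finrank_range_add_finrank_ker
  rw [← h1, LinearMap.finrank_range_of_inj (c.sys.mulL_inj _ e (c.E_ne y))] at h2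
  refine ⟨_, (Submodule.finrank_le (LinearMap.range φ)).trans (finrank_self Ω).le,
    by rw [← h2, add_comm], ?_⟩
  rw [Submodule.finrank_eq_zero, LinearMap.range_eq_bot]
  exact ⟨fun h f hf => LinearMap.congr_fun h ⟨f, hf⟩, fun h => LinearMap.ext fun u => h u.1 u.2⟩

theorem nv_fm (D : Multiset T) : ∀ k, D.card ≤ k → Nv (S (k • h - sm pt D)) := by
  induction D using Multiset.induction_on with
  | empty => exact fun k _ => by rw [sm_zero, sub_zero]; exact c.sys.nv_nsmul c.nvh k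
  | cons y D ih =>
    intro k hk
    rw [Multiset.card_cons] at hk
    obtain ⟨j, rfl⟩ : ∃ j, k = j + 1 := ⟨k - 1, by omega⟩
    have := c.sys.nv_add (c.nvs y) (ih j (by omega))
    rwa [show h - pt y + (j • h - sm pt D) = (j + 1) • h - sm pt (y ::ₘ D) by
      rw [sm_cons, succ_nsmul]; abel] at this

theorem fd_fm (k : ℕ) (D : Multiset T) : FiniteDimensional Ω (S (k • h - sm pt D)) := by
  induction D using Multiset.induction_on with
  | empty =>
    obtain ⟨u, hu, h0⟩ := c.sys.ex_of_nv (c.sys.nv_nsmul c.nvh k₀)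
    have := c.fdh (k₀ + k) (by omega)
    exact c.sys.fd_of (C := (k₀ + k) • h) hu (by rw [sm_zero, sub_zero, add_nsmul]) h0
  | cons y D ih =>
    rw [sm_cons, add_comm, ← sub_sub]
    exact c.fd_sub y

theorem rk_fm (D : Multiset T) {k : ℕ} (h1 : k₀ ≤ k) (h2 : D.card ≤ k) :
    (finrank Ω (S (k • h - sm pt D)) : ℤ) = k * d - D.card + 1 - g := by
  induction D using Multiset.induction_on with
  | empty => rw [sm_zero, sub_zero, c.hil k h1]; simp
  | cons y D ih =>
    rw [Multiset.card_cons] at h2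
    have := c.fd_fm k D
    obtain ⟨e, a1, a2, a3⟩ := c.step (A := k • h - sm pt D) y
    obtain ⟨u, hu, h0⟩ := c.nv_fm D k (by omega) y
    have a4 : e ≠ 0 := fun he => h0 (a3.1 he u hu)
    have a5 := ih (by omega)
    rw [sm_cons, add_comm (pt y), ← sub_sub, Multiset.card_cons]
    push_cast
    omega

theorem neg_fm {k : ℕ} {D : Multiset T} (hf : f ∈ S (k • h - sm pt D)) (h0 : f ≠ 0) :
    0 ≤ deg (k • h - sm pt D) := by
  have := c.fd_fm (k + (k₀ + D.card)) D
  have h1 := c.sys.rk_le (A := (k₀ + D.card) • h) (C := (k + (k₀ + D.card)) • h - sm pt D) hf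
    (by rw [add_nsmul h k]; abel) h0
  have h2 := c.rk_fm D (k := k + (k₀ + D.card)) (by omega) (by omega)
  have h3 := c.hil (k₀ + D.card) (by omega)
  rw [c.deg_fm]
  rw [Nat.cast_add k, add_mul] at h2
  omega

theorem deg_pr_fm {k : ℕ} {D : Multiset T} (hp : k • h - sm pt D ∈ c.sys.prS) :
    deg (k • h - sm pt D) = 0 := by
  have := c.fdh (k₀ + D.card) (by omega)
  have h1 := c.sys.pr_rk (A := (k + (k₀ + D.card)) • h - sm pt D) (B := (k₀ + D.card) • h)
    (c.sys.pr_congr hp (by rw [add_nsmul h k]; abel))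
  have h2 := c.rk_fm D (k := k + (k₀ + D.card)) (by omega) (by omega)
  have h3 := c.hil (k₀ + D.card) (by omega)
  rw [c.deg_fm]
  rw [Nat.cast_add k, add_mul] at h2
  omega

theorem fac_fm {k : ℕ} (n : ℕ) : ∀ {D : Multiset T} {f : T → Ω}, f ∈ S (k • h - sm pt D) → f ≠ 0 →
    deg (k • h - sm pt D) < n → ∃ D' : Multiset T, k • h - sm pt D - sm pt D' ∈ c.sys.prS ∧
      deg (k • h - sm pt D) = D'.card := by
  induction n with
  | zero => exact fun hf h0 hn => absurd (c.neg_fm hf h0) (by omega)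
  | succ n ih =>
    intro D f hf h0 hn
    by_cases hz : ∀ t, f t ≠ 0
    · have := c.sys.pr_of_ne hf hz
      exact ⟨0, by rwa [sm_zero, sub_zero], by simpa using c.deg_pr_fm this⟩
    push Not at hz
    obtain ⟨y, hy⟩ := hz
    obtain ⟨u, hu, rfl⟩ := c.ex hf hy
    have e : k • h - sm pt D - pt y = k • h - sm pt (y ::ₘ D) := by rw [sm_cons]; abel
    have e1 : deg (k • h - sm pt (y ::ₘ D)) = deg (k • h - sm pt D) - 1 := by
      rw [← e, map_sub deg _ (pt y), c.deg_pt]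
    obtain ⟨D', a1, a2⟩ := ih (Sys.cast hu e) (right_ne_zero_of_mul h0) (by omega)
    refine ⟨y ::ₘ D', c.sys.pr_congr a1 (by rw [sm_cons, sm_cons]; abel), ?_⟩
    rw [Multiset.card_cons]
    omega

theorem fac_pt (y : T) : ∃ D : Multiset T, h - pt y - sm pt D ∈ c.sys.prS ∧
    deg (h - pt y) = D.card := by
  obtain ⟨u, hu, h0⟩ := c.sys.ex_of_nv (c.nvs y)
  have e : h - pt y = 1 • h - sm pt (y ::ₘ 0) := by rw [sm_cons, sm_zero, one_nsmul, add_zero]
  rw [e] at hu ⊢
  exact c.fac_fm (deg (1 • h - sm pt (y ::ₘ 0))).toNat.succ hu h0 (by omega)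

theorem fac_h : ∃ D : Multiset T, h - sm pt D ∈ c.sys.prS ∧ deg h = D.card := by
  obtain ⟨y⟩ := c.sys.ne
  obtain ⟨D, a1, a2⟩ := c.fac_pt y
  refine ⟨y ::ₘ D, c.sys.pr_congr a1 (by rw [sm_cons]; abel), ?_⟩
  rw [map_sub, c.deg_pt] at a2
  rw [Multiset.card_cons]
  omega

/-- normal form of a degree -/
theorem nf (A : Γ) : ∃ (k : ℕ) (D : Multiset T), A - (k • h - sm pt D) ∈ c.sys.prS ∧
    deg A = deg (k • h - sm pt D) := by
  have hA : A ∈ AddSubgroup.closure (insert h (Set.range pt)) := c.gen ▸ AddSubgroup.mem_top A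
  induction hA using AddSubgroup.closure_induction'' with
  | mem x hx =>
    rcases hx with rfl | ⟨y, rfl⟩
    · have e : 1 • x - sm pt 0 = x := by rw [sm_zero, one_nsmul, sub_zero]
      exact ⟨1, 0, by rw [e, sub_self]; exact zero_mem _, by rw [e]⟩
    · obtain ⟨D, a1, a2⟩ := c.fac_pt y
      refine ⟨1, D, c.sys.pr_congr (neg_mem a1) (by rw [one_nsmul]; abel), ?_⟩
      rw [map_sub, c.deg_pt, c.deg_h] at a2
      rw [c.deg_fm, c.deg_pt]
      omega
  | neg_mem x hx =>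
    rcases hx with rfl | ⟨y, rfl⟩
    · obtain ⟨D, a1, a2⟩ := c.fac_h
      refine ⟨0, D, c.sys.pr_congr (neg_mem a1) (by rw [zero_nsmul]; abel), ?_⟩
      rw [c.deg_fm, map_neg, a2]
      simp
    · have e : 0 • h - sm pt (y ::ₘ 0) = -pt y := by
        rw [sm_cons, sm_zero, zero_nsmul, add_zero, zero_sub]
      exact ⟨0, y ::ₘ 0, by rw [e, sub_self]; exact zero_mem _, by rw [e]⟩
  | zero => exact ⟨0, 0, by simp [sm], by simp [sm]⟩
  | add x y _ _ h1 h2 =>
    obtain ⟨k, D, a1, a2⟩ := h1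
    obtain ⟨k', D', b1, b2⟩ := h2
    have e : (k + k') • h - sm pt (D + D') = k • h - sm pt D + (k' • h - sm pt D') := by
      rw [sm_add, add_nsmul]; abel
    exact ⟨k + k', D + D', c.sys.pr_congr (add_mem a1 b1) (by rw [e]; abel),
      by rw [e, map_add, map_add, a2, b2]⟩

theorem fd (A : Γ) : FiniteDimensional Ω (S A) := by
  obtain ⟨k, D, a, -⟩ := c.nf A
  have := c.fd_fm k D
  exact c.sys.pr_fd a

theorem deg_pr (hA : A ∈ c.sys.prS) : deg A = 0 := by
  obtain ⟨k, D, a1, a2⟩ := c.nf A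
  rw [a2]
  exact c.deg_pr_fm (c.sys.pr_congr (sub_mem hA a1) (by abel))

theorem rk_pr (hA : A - B ∈ c.sys.prS) : finrank Ω (S A) = finrank Ω (S B) :=
  have := c.fd B
  c.sys.pr_rk hA

/-- a degree with a nonzero section is equivalent to an effective divisor -/
theorem fac (hf : f ∈ S A) (h0 : f ≠ 0) :
    ∃ D : Multiset T, A - sm pt D ∈ c.sys.prS ∧ deg A = D.card := by
  obtain ⟨k, D, a1, a2⟩ := c.nf A
  obtain ⟨u, hu, h1⟩ := c.sys.pr_ex (neg_mem a1)
  obtain ⟨D', b1, b2⟩ := c.fac_fm (k := k) (D := D) (deg (k • h - sm pt D)).toNat.succ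
    (Sys.cast (c.sys.mul hu hf) (by abel)) (fun e => h0 (funext fun t =>
      (mul_eq_zero.1 (congrFun e t)).resolve_left (h1 t))) (by omega)
  exact ⟨D', c.sys.pr_congr (add_mem a1 b1) (by abel), a2.trans b2⟩

theorem neg (hA : deg A < 0) : S A = ⊥ := by
  refine (Submodule.eq_bot_iff _).2 fun f hf => by_contra fun h0 => ?_
  obtain ⟨D, -, a⟩ := c.fac hf h0
  omega

theorem rk_add (A : Γ) (D : Multiset T) :
    finrank Ω (S (A + sm pt D)) ≤ finrank Ω (S A) + D.card := by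
  induction D using Multiset.induction_on with
  | empty => rw [sm_zero, add_zero]; simp
  | cons y D ih =>
    have := c.fd (A + sm pt (y ::ₘ D))
    obtain ⟨e, a1, a2, -⟩ := c.step (A := A + sm pt (y ::ₘ D)) y
    rw [show A + sm pt (y ::ₘ D) - pt y = A + sm pt D by rw [sm_cons]; abel] at a2
    rw [Multiset.card_cons]
    omega

theorem rk_add_h (A : Γ) (m : ℕ) : finrank Ω (S (A + m • h)) ≤ finrank Ω (S A) + m * d := by
  obtain ⟨D, a1, a2⟩ := c.fac_h
  rw [c.deg_h, Nat.cast_inj] at a2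
  induction m with
  | zero => rw [zero_nsmul, add_zero]; simp
  | succ m ih =>
    have h1 := c.rk_pr (A := A + (m + 1) • h) (B := A + m • h + sm pt D)
      (c.sys.pr_congr a1 (by rw [succ_nsmul]; abel))
    have h2 := c.rk_add (A + m • h) D
    rw [Nat.succ_mul]
    omega

/-- the inequality of Riemann -/
theorem riem (A : Γ) : deg A + 1 - g ≤ finrank Ω (S A) := by
  obtain ⟨k, D, a1, a2⟩ := c.nf A
  have h1 := c.rk_add_h A (k₀ + D.card)
  have h2 := c.rk_pr (A := A + (k₀ + D.card) • h) (B := (k + (k₀ + D.card)) • h - sm pt D)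
    (c.sys.pr_congr a1 (by rw [add_nsmul h k]; abel))
  have h3 := c.rk_fm D (k := k + (k₀ + D.card)) (by omega) (by omega)
  rw [Nat.cast_add k, add_mul, ← Nat.cast_mul (k₀ + D.card)] at h3
  rw [a2, c.deg_fm]
  omega

theorem eff (hA : g ≤ deg A) : ∃ D : Multiset T, A - sm pt D ∈ c.sys.prS ∧ deg A = D.card := by
  have h1 := c.riem A
  obtain ⟨f, hf, h0⟩ := (S A).exists_mem_ne_zero_of_ne_bot fun e => by
    rw [e, finrank_bot] at h1
    omega
  exact c.fac hf h0

/-- equality in large degree -/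
theorem riem_eq (hA : k₀ * d + g ≤ deg A) : (finrank Ω (S A) : ℤ) = deg A + 1 - g := by
  have e : deg (A - k₀ • h) = deg A - k₀ * d := by rw [map_sub, map_nsmul, c.deg_h, nsmul_eq_mul]
  obtain ⟨D, a1, a2⟩ := c.eff (A := A - k₀ • h) (by omega)
  have h1 := c.rk_pr (A := A) (B := k₀ • h + sm pt D) (c.sys.pr_congr a1 (by abel))
  have h2 := c.rk_add (k₀ • h) D
  have h3 := c.hil k₀ le_rfl
  have h4 := c.riem A
  omega

theorem nv (hA : k₀ * d + g < deg A) : Nv (S A) := fun y => by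
  have := c.fd A
  obtain ⟨e, -, a2, a3⟩ := c.step (A := A) y
  have e1 : deg (A - pt y) = deg A - 1 := by rw [map_sub, c.deg_pt]
  have h1 := c.riem_eq hA.le
  have h2 := c.riem_eq (A := A - pt y) (by omega)
  by_contra! hh
  have := a3.2 hh
  omega

/-- the Jacobian data -/
theorem jac {H : Γ} (hH : k₀ * d + g < deg H) {n : ℕ} (hn : deg H - g = n) :
    Jac S H n deg.ker (c.sys.cl deg.ker) := by
  have e : ∀ D : deg.ker, deg (H + D) = deg H := fun D => by
    rw [map_add, (deg.mem_ker).1 D.2, add_zero]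
  refine ⟨c.sys, QuotientAddGroup.mk'_surjective _, fun D => QuotientAddGroup.eq_zero_iff D,
    fun D => ?_, fun D => c.nv (by rwa [e]), c.fd _, c.fd _⟩
  have := c.riem_eq (A := H + D) (by rw [e]; exact hH.le)
  rw [e] at this
  omega

/-- the difference of two points -/
def df (x y : T) : deg.ker := ⟨pt x - pt y, by
  rw [AddMonoidHom.mem_ker, map_sub, c.deg_pt, c.deg_pt, sub_self]⟩

theorem df_val (x y : T) : (c.df x y : Γ) = pt x - pt y := rfl

theorem sum_df (x : T) (D : Multiset T) :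
    (((D.map (c.df x)).sum : deg.ker) : Γ) = D.card • pt x - sm pt D := by
  induction D using Multiset.induction_on with
  | empty => simp [sm]
  | cons y D ih =>
    rw [Multiset.map_cons, Multiset.sum_cons, AddSubgroup.coe_add, ih, df_val, sm_cons,
      Multiset.card_cons, succ_nsmul]
    abel

/-- every class is a sum of `r` classes `x - y` -/
theorem gen_pic (x : T) {r : ℕ} (hr : g ≤ r) (ξ : c.sys.Pic deg.ker) : ∃ D : Multiset T,
    D.card = r ∧ (D.map fun y => c.sys.cl deg.ker (c.df x y)).sum = ξ := by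
  obtain ⟨A, rfl⟩ := QuotientAddGroup.mk'_surjective _ ξ
  have e : deg (r • pt x - A) = r := by
    rw [map_sub, map_nsmul, c.deg_pt, (deg.mem_ker).1 A.2]
    simp
  obtain ⟨D, a1, a2⟩ := c.eff (A := r • pt x - A) (by omega)
  have a3 : D.card = r := by omega
  refine ⟨D, a3, ?_⟩
  have e2 := map_multiset_sum (c.sys.cl deg.ker) (D.map (c.df x))
  rw [Multiset.map_map] at e2
  refine e2.symm.trans (c.sys.cl_eq.2 (c.sys.pr_congr a1 ?_))
  rw [c.sum_df, a3]
  abel

end Cs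

end Pool.Agent.Tav.Cv
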