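import Pool.Agent.P.MP_2ce3e7_ag.Tav.CvBd
import Pool.Agent.P.MP_2ce3e7_ag.Tav.CvRie
import Pool.Agent.P.MP_2ce3e7_ag.Tav.CvCur
import Pool.Agent.P.MP_2ce3e7_ag.Tav.CvPoiB

/-! The system of a curve satisfies the hypotheses of the abstract theory. -/

set_option autoImplicit false

noncomputable section

namespace Pool.Agent.Tav.Cv

open Filter Cu Module

variable {Ω : Type} [Field Ω] {T τ : Type} {c : T → τ → Ω} {s : T × T → τ × τ → Ω} {E : T → T → Ω}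

theorem Sd.pd (h : Sd c s E) : Poi.Pd h.S (crd c) E s (hH T) pt :=
  ⟨h.sc, h.nt, h.le_S, h.s_mem, h.E_mem, fun _ _ _ => h.ex, fun _ _ _ hf _ hg => h.ratio hf hg⟩

theorem Sd.cs (h : Sd c s E) [Infinite T] {d m₀ : ℕ} {g : ℤ}
    (e : ∀ m, m₀ ≤ m → (finrank Ω (crd c ^ m :) : ℤ) = m * d + 1 - g) :
    ∃ k₀, Cs h.S (hH T) pt E (dg T d) d k₀ g ∧ ∀ k, k₀ ≤ k → h.S (k • hH T) = crd c ^ k := by
  obtain ⟨k₁, hk⟩ := h.S_sat
  have e1 : ∀ k, max k₁ m₀ ≤ k → h.S (k • hH T) = crd c ^ k := fun k e =>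
    hk k ((le_max_left _ _).trans e)
  refine ⟨max k₁ m₀, ⟨h.sys, inferInstance, h.E_mem, h.zero, h.ex, h.nv_hH, h.nv_sec,
    fun k e' => ?_, fun k e' => ?_, dg_hH _, dg_pt _, closure_top⟩, e1⟩
  · rw [e1 k e']; exact fg_pow h.vr.fg k
  · rw [e1 k e']; exact e k ((le_max_right _ _).trans e')

theorem exists_sd [IsAlgClosed Ω] [Fintype τ] (h : Curve c) : ∃ s E, Sd c s E := by
  obtain ⟨s, E, h1, h2, -, h3, h4⟩ := h.sec
  have := h.inf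
  exact ⟨s, E, h.ne, h.inj, inferInstance, h.vr, h1, h2, h3, h4⟩

/-- the Riemann data of a curve -/
theorem Sd.exists_cs [Fintype τ] (h : Sd c s E) (hc : Curve c) : ∃ (d k₀ : ℕ) (g : ℤ), d ≠ 0 ∧
    Cs h.S (hH T) pt E (dg T d) d k₀ g ∧ ∀ k, k₀ ≤ k → h.S (k • hH T) = crd c ^ k := by
  obtain ⟨d, g, m₀, h1, h2⟩ := hc.hil
  have := hc.inf
  obtain ⟨k₀, h3⟩ := h.cs h2
  exact ⟨d, k₀, g, h1, h3⟩

/-- a large multiple of the hyperplane class -/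
theorem Cs.exists_jac {Γ : Type} [AddCommGroup Γ] {S : Γ → Submodule Ω (T → Ω)} {h : Γ}
    {pt : T → Γ} {deg : Γ →+ ℤ} {d k₀ : ℕ} {g : ℤ} (C : Cs S h pt E deg d k₀ g) (hd : d ≠ 0) :
    ∃ m n : ℕ, k₀ ≤ m ∧ m ≠ 0 ∧ k₀ * d + g + 2 < deg (m • h) ∧ deg (m • h) - g = n ∧
      Jac S (m • h) n deg.ker (C.sys.cl deg.ker) := by
  have h1 : (1 : ℤ) ≤ d := by exact_mod_cast Nat.one_le_iff_ne_zero.2 hd
  have h2 : deg ((k₀ + g.toNat + 3) • h) = k₀ * d + (g.toNat + 3) * d := by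
    rw [map_nsmul, C.deg_h, nsmul_eq_mul]; push_cast; ring
  have h3 : g ≤ g.toNat := Int.self_le_toNat g
  have h4 : (g.toNat + 3 : ℤ) ≤ (g.toNat + 3) * d := le_mul_of_one_le_right (by positivity) h1
  have h5 : (0 : ℤ) ≤ k₀ * d := by positivity
  have h6 : k₀ * d + g + 2 < deg ((k₀ + g.toNat + 3) • h) := by omega
  obtain ⟨n, hn⟩ := Int.eq_ofNat_of_zero_le (show 0 ≤ deg ((k₀ + g.toNat + 3) • h) - g by omega)
  exact ⟨_, n, by omega, by omega, h6, hn, C.jac (by omega) hn⟩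

end Pool.Agent.Tav.Cv
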