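import Pool.Agent.P.MP_2ce3e7_ag.Tav.CvRR

/-! Consequences of the Riemann data. -/

set_option autoImplicit false

noncomputable section

namespace Pool.Agent.Tav.Cv.RR

open Module Finsupp

variable {K C : Type} [Field K] (R : RR K C) {A B : C →₀ ℤ} {f h : C → K}

theorem card_le (T : Finset C) (hf : f ∈ R.S A) (h0 : f ≠ 0) (hT : ∀ P ∈ T, f P = 0) :
    (T.card : ℤ) ≤ A.degree := by
  classical
  induction T using Finset.induction_on generalizing A f with
  | empty => exact not_lt.1 fun e => h0 (by simpa [R.neg A e] using hf)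
  | insert P T hP ih =>
    obtain ⟨h, h1, rfl⟩ := (R.ex A P f).1 ⟨hf, hT P (Finset.mem_insert_self _ _)⟩
    have := ih h1 (fun e => h0 (by rw [e, mul_zero])) fun Q hQ => by
      have := hT Q (Finset.mem_insert_of_mem hQ)
      simpa [E, ne_of_mem_of_not_mem hQ hP] using this
    rw [map_sub, degree_single] at this
    rw [Finset.card_insert_of_notMem hP]
    push_cast; omega

theorem fin_zero (hf : f ∈ R.S A) (h0 : f ≠ 0) : {P | f P = 0}.Finite := by
  by_contra hi
  obtain ⟨T, hT, hc⟩ := Set.Infinite.exists_subset_card_eq hi (A.degree.natAbs + 1)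
  have := R.card_le T hf h0 fun P hP => hT hP
  omega

theorem dom (hf : f ∈ R.S A) (hh : h ∈ R.S B) (e : f * h = 0) : f = 0 ∨ h = 0 := by
  by_contra hc
  push Not at hc
  have := R.inf
  refine Set.infinite_univ (((R.fin_zero hf hc.1).union (R.fin_zero hh hc.2)).subset fun P _ => ?_)
  exact mul_eq_zero.1 (congrFun e P)

theorem nv (hA : R.c0 + 1 ≤ A.degree) (P : C) : ∃ f ∈ R.S A, f P ≠ 0 := by
  by_contra hc
  push Not at hc
  have := R.fin (A - single P 1)
  have h1 : R.S A ≤ (R.S (A - single P 1)).map (LinearMap.mulLeft K (E K P)) := fun f hf => by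
    obtain ⟨h, h1, e⟩ := (R.ex A P f).1 ⟨hf, hc f hf⟩
    exact ⟨h, h1, e.symm⟩
  have h2 := (Submodule.finrank_mono h1).trans (Submodule.finrank_map_le _ _)
  have h3 := R.dim A (by omega)
  have h4 := R.dim (A - single P 1) (by rw [map_sub, degree_single]; omega)
  rw [map_sub, degree_single] at h4
  omega

theorem pencil [Infinite K] (hB : ∀ P, ∃ f ∈ R.S B, f P ≠ 0) :
    ∃ s ∈ R.S B, ∃ t ∈ R.S B, t ≠ 0 ∧ ∀ P, s P ≠ 0 ∨ t P ≠ 0 := by
  obtain ⟨P⟩ := R.inf.nonempty
  obtain ⟨t, ht, h0⟩ := hB P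
  have h1 : t ≠ 0 := fun e => h0 (congrFun e P)
  have : Finite {P | t P = 0} := R.fin_zero ht h1
  obtain ⟨s, hs, h2⟩ := Module.Dual.exists_forall_mem_ne_zero_of_forall_exists (R.S B)
    (fun P : {P | t P = 0} => LinearMap.proj P.1) fun P => hB P.1
  exact ⟨s, hs, t, ht, h1, fun Q => or_iff_not_imp_right.2 fun e => h2 ⟨Q, not_not.1 e⟩⟩

theorem trick [Infinite K] (hB : ∀ P, ∃ f ∈ R.S B, f P ≠ 0) (h1 : R.c0 ≤ (A - B).degree) :
    R.S (A + B) = R.S A * R.S B := by
  refine le_antisymm ?_ (Submodule.mul_le.2 fun _ a _ b => R.mul a b)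
  obtain ⟨s, hs, t, ht, h0, hst⟩ := R.pencil hB
  have hd := R.card_le ∅ ht h0 (by simp)
  have := R.fin
  let φ : R.S A × R.S A →ₗ[K] C → K := (LinearMap.mulRight K s ∘ₗ (R.S A).subtype).coprod
    (LinearMap.mulRight K t ∘ₗ (R.S A).subtype)
  have hm : ∀ {u}, u ∈ R.S B → ∀ h ∈ R.S (A - B), LinearMap.mulLeft K u h ∈ R.S A :=
    fun hu h hh => by simpa using R.mul hu hh
  let χ : R.S (A - B) →ₗ[K] R.S A × R.S A :=
    ((LinearMap.mulLeft K t).restrict (hm ht)).prod ((LinearMap.mulLeft K (-s)).restrict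
      (hm (neg_mem hs)))
  have hk : LinearMap.ker φ ≤ LinearMap.range χ := by
    rintro ⟨a, b⟩ hab
    have e : a.1 * s + b.1 * t = 0 := hab
    obtain ⟨h, h2, h3⟩ := R.quo a.2 ht h0 fun P => by
      rcases hst P with h | h
      · exact ⟨B, s, hs, -b.1, by simp, h, by linear_combination e⟩
      · exact ⟨B, t, ht, a.1, by simp, h, mul_comm _ _⟩
    refine ⟨⟨h, h2⟩, Prod.ext (Subtype.ext h3.symm) (Subtype.ext ?_)⟩
    have := (R.dom ht (sub_mem (hm (neg_mem hs) h h2) b.2) (by
      rw [h3] at e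
      change t * (-s * h - b.1) = 0
      linear_combination -e)).resolve_left h0
    exact sub_eq_zero.1 this
  have hr : LinearMap.range φ ≤ R.S A * R.S B := by
    rintro _ ⟨⟨a, b⟩, rfl⟩
    exact add_mem (Submodule.mul_mem_mul a.2 hs) (Submodule.mul_mem_mul b.2 ht)
  have h2 := (Submodule.finrank_mono hk).trans χ.finrank_range_le
  have h3 := φ.finrank_range_add_finrank_ker
  rw [finrank_prod] at h3
  have h4 := R.dim _ h1
  rw [map_sub] at h1 h4
  have h5 := R.dim A (by simp at hd; omega)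
  have h6 := R.dim (A + B) (by rw [map_add]; simp at hd; omega)
  rw [map_add] at h6
  exact (Submodule.eq_of_le_of_finrank_le
    (hr.trans (Submodule.mul_le.2 fun _ a _ b => R.mul a b)) (by omega)).ge.trans hr

/-- a divisor whose sections generate the sections of all multiples -/
theorem exists_gen [Infinite K] : ∃ H : C →₀ ℤ, R.c0 + 3 ≤ H.degree ∧ 0 < H.degree ∧
    ∀ k : ℕ, R.S ((k + 1) • H) = R.S H ^ (k + 1) := by
  obtain ⟨P⟩ := R.inf.nonempty
  obtain ⟨D, h1, h2⟩ : ∃ D : C →₀ ℤ, R.c0 + 3 ≤ D.degree ∧ 0 < D.degree :=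
    ⟨single P (R.c0.natAbs + 3), by rw [degree_single]; omega, by rw [degree_single]; omega⟩
  refine ⟨D + D, by rw [map_add]; omega, by rw [map_add]; omega, fun k => ?_⟩
  induction k with
  | zero => simp
  | succ k ih =>
    have h3 : (0 : ℤ) ≤ k * D.degree := by positivity
    rw [pow_succ, ← ih, succ_nsmul _ (k + 1)]
    refine le_antisymm ?_ (Submodule.mul_le.2 fun _ a _ b => R.mul a b)
    rw [← add_assoc, R.trick (R.nv (by omega)), R.trick (R.nv (by omega)), mul_assoc]
    · exact mul_le_mul_right (Submodule.mul_le.2 fun _ a _ b => R.mul a b) _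
    all_goals simp only [map_sub, map_add, map_nsmul, nsmul_eq_mul]; push_cast; nlinarith

end Pool.Agent.Tav.Cv.RR
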