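import Pool.Agent.P.MP_2ce3e7_ag.Tav.CuMain

/-! Density of a punctured curve; division by the equation of a graph. -/

set_option autoImplicit false

noncomputable section

namespace Pool.Agent.Tav.Cu

open Filter

variable {Ω : Type} [Field Ω] {T S Z τ : Type}

section
variable {H : Submodule Ω (T → Ω)} {x : T} {k : ℕ} {f f' l : T → Ω}

/-- a germ that vanishes off `x` vanishes at `x` -/
theorem dens (hd : Dm H) (hl : l ∈ H) (h1 : l x = 0) (h2 : l ≠ 0) (hf : At H k x f)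
    (h0 : ∀ᶠ y in nb H x, y ≠ x → f y = 0) : f x = 0 := by
  by_contra hn
  obtain ⟨a, ha⟩ := Function.ne_iff.1 h2
  obtain ⟨y, ⟨e1, e2⟩, e3⟩ := hd.meet ((hf.ne hn).and h0) ((At.of_mem1 hl a).ne ha)
  exact e1 (e2 fun e => e3 (e ▸ h1))

theorem dens_eq (hd : Dm H) (hl : l ∈ H) (h1 : l x = 0) (h2 : l ≠ 0) (hf : At H k x f)
    (hf' : At H k x f') (h0 : ∀ᶠ y in nb H x, y ≠ x → f y = f' y) : f x = f' x :=
  sub_eq_zero.1 (dens (f := f - f') hd hl h1 h2 (hf.sub hf')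
    (h0.mono fun _ h e => sub_eq_zero.2 (h e)))

/-- a linear form through a given point -/
theorem exists_lin {c : T → τ → Ω} (hc : ∀ t, c t ≠ 0) (hi : ∀ a b, Par (c a) (c b) → a = b)
    {x y : T} (hxy : y ≠ x) : ∃ l ∈ crd c, l x = 0 ∧ l y ≠ 0 := by
  obtain ⟨a, ha⟩ := Function.ne_iff.1 (hc x)
  by_contra hn
  push Not at hn
  have key : ∀ b, c y b = c y a / c x a * c x b := fun b => by
    have := hn (c x a • (fun t => c t b) - c x b • fun t => c t a)
      (Submodule.sub_mem _ (Submodule.smul_mem _ _ (Submodule.subset_span ⟨b, rfl⟩))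
        (Submodule.smul_mem _ _ (Submodule.subset_span ⟨a, rfl⟩)))
      (by simp only [Pi.sub_apply, Pi.smul_apply, smul_eq_mul]; ring)
    simp only [Pi.sub_apply, Pi.smul_apply, smul_eq_mul] at this
    have ha' : c x a ≠ 0 := ha
    field_simp
    linear_combination this
  refine hxy (hi y x ⟨c y a / c x a, Ne.isUnit fun e => hc y (funext fun b => ?_),
    funext fun b => key b⟩)
  rw [key b, e, zero_mul]; rfl

theorem exists_lin' [Nontrivial T] {c : T → τ → Ω} (hc : ∀ t, c t ≠ 0)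
    (hi : ∀ a b, Par (c a) (c b) → a = b) (x : T) : ∃ l ∈ crd c, l x = 0 ∧ l ≠ 0 := by
  obtain ⟨y, hy⟩ := exists_ne x
  obtain ⟨l, h1, h2, h3⟩ := exists_lin hc hi hy
  exact ⟨l, h1, h2, fun e => h3 (congrFun e y)⟩

end

section
variable {N : Submodule Ω (Z → Ω)} {z : Z} {ε φ φ' b : Z → Ω} {g : Z → Z}

/-- near `z`, the function `φ` is a regular multiple of `ε` -/
def Dvs (N : Submodule Ω (Z → Ω)) (z : Z) (ε φ : Z → Ω) : Prop :=
  ∃ ψ, At N 0 z ψ ∧ ∀ᶠ w in nb N z, φ w = ψ w * ε w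

theorem Dvs.congr (h : Dvs N z ε φ) (e : ∀ᶠ w in nb N z, φ w = φ' w) : Dvs N z ε φ' := by
  obtain ⟨ψ, h1, h2⟩ := h
  exact ⟨ψ, h1, (h2.and e).mono fun _ h => h.2 ▸ h.1⟩

theorem Dvs.zero : Dvs N z ε fun _ => 0 :=
  ⟨0, At.zero N 0 z, Eventually.of_forall fun _ => (zero_mul _).symm⟩

theorem Dvs.add (h : Dvs N z ε φ) (h' : Dvs N z ε φ') : Dvs N z ε fun w => φ w + φ' w := by
  obtain ⟨ψ, h1, h2⟩ := h
  obtain ⟨ψ', h1', h2'⟩ := h'
  exact ⟨ψ + ψ', h1.add h1', (h2.and h2').mono fun w h => by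
    simp only [h.1, h.2, Pi.add_apply, add_mul]⟩

theorem Dvs.mul (h : Dvs N z ε φ) (hb : At N 0 z b) : Dvs N z ε fun w => b w * φ w := by
  obtain ⟨ψ, h1, h2⟩ := h
  exact ⟨b * ψ, hb.mul0 h1, h2.mono fun w h => by simp only [h, Pi.mul_apply, mul_assoc]⟩

theorem Dvs.comp {L : Submodule Ω (T → Ω)} {j : T → Z} {t : T} (hj : Mp L N j)
    (h : Dvs N (j t) ε φ) : Dvs L t (fun w => ε (j w)) fun w => φ (j w) := by
  obtain ⟨ψ, h1, h2⟩ := h
  exact ⟨_, h1.comp hj, hj.ev h2⟩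

theorem At.comp_fix (hg : Mp N N g) (h0 : g z = z) (h : At N 0 z φ) :
    At N 0 z fun w => φ (g w) := At.comp hg (h0.symm ▸ h)

theorem dvs_mul (hg : Mp N N g) (h0 : g z = z) (h1 : At N 0 z φ) (h2 : At N 0 z φ')
    (h : Dvs N z ε fun w => φ w - φ (g w)) (h' : Dvs N z ε fun w => φ' w - φ' (g w)) :
    Dvs N z ε fun w => φ w * φ' w - φ (g w) * φ' (g w) :=
  ((h'.mul h1).add (h.mul (h2.comp_fix hg h0))).congr (Eventually.of_forall fun _ => by ring)

theorem dvs_pow (hg : Mp N N g) (h0 : g z = z) {v : Z → Ω} (hv : v ∈ N) (hz : v z ≠ 0)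
    (h : ∀ u ∈ N, Dvs N z ε fun w => u w / v w - u (g w) / v (g w)) (n : ℕ) :
    ∀ u ∈ N ^ n, Dvs N z ε fun w => u w / v w ^ n - u (g w) / v (g w) ^ n := by
  induction n with
  | zero =>
    intro u hu
    rw [pow_zero, Submodule.mem_one] at hu
    obtain ⟨a, rfl⟩ := hu
    exact Dvs.zero.congr (Eventually.of_forall fun _ => by simp)
  | succ n ih =>
    intro u hu
    rw [pow_succ] at hu
    refine Submodule.mul_induction_on hu (fun a ha b hb => ?_) fun a b ha hb => ?_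
    · have e1 : At N 0 z (a / v ^ n) :=
        (At.of_mem ha z).div_same (At.of_mem (Submodule.pow_mem_pow _ hv n) z) (pow_ne_zero _ hz)
      have e2 : At N 0 z (b / v) := (At.of_mem1 hb z).div_same (At.of_mem1 hv z) hz
      exact (dvs_mul hg h0 e1 e2 (ih a ha) (h b hb)).congr (Eventually.of_forall fun _ => by
        simp only [Pi.div_apply, Pi.pow_apply, Pi.mul_apply, pow_succ, mul_div_mul_comm])
    · exact (ha.add hb).congr (Eventually.of_forall fun _ => by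
        simp only [Pi.add_apply]; ring)

/-- if `g` is the identity modulo `ε` on the coordinates, it is so on all germs -/
theorem dvs_of_gen (hg : Mp N N g) (h0 : g z = z) {v : Z → Ω} (hv : v ∈ N) (hz : v z ≠ 0)
    (h : ∀ u ∈ N, Dvs N z ε fun w => u w / v w - u (g w) / v (g w)) (hφ : At N 0 z φ) :
    Dvs N z ε fun w => φ w - φ (g w) := by
  obtain ⟨e, b, h1, h2, h3⟩ := id hφ
  have hvn := At.of_mem (Submodule.pow_mem_pow _ hv e) z
  have e1 : At N 0 z (b / v ^ e) := (At.of_mem h1 z).div_same hvn (pow_ne_zero _ hz)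
  have e2 : (b / v ^ e) z ≠ 0 := div_ne_zero h2 (pow_ne_zero _ hz)
  have e3 : At N 0 z (1 / (b / v ^ e)) := (At.one N z).div0 e1 e2
  have d1 := dvs_pow hg h0 hv hz h e b h1
  have d2 := dvs_pow hg h0 hv hz h e _ h3
  refine ((d2.add (d1.mul (hφ.comp_fix hg h0).neg)).mul e3).congr ((e1.ne e2).mono fun w hw => ?_)
  simp only [Pi.div_apply, Pi.pow_apply, Pi.mul_apply, Pi.one_apply, Pi.neg_apply] at hw ⊢
  have hb : b w ≠ 0 := (div_ne_zero_iff.1 hw).1
  have hv' : v w ^ e ≠ 0 := (div_ne_zero_iff.1 hw).2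
  rw [mul_div_right_comm (b (g w)), mul_div_right_comm (b w)]
  generalize b (g w) / v (g w) ^ e = q
  field_simp
  ring

end

section
variable {L : Submodule Ω (S → Ω)} {c : T → τ → Ω} {s : T × T → τ × τ → Ω} {E : T → T → Ω}
  {y : S → T} {s₀ : S} {φ : S × T → Ω}

theorem mp_graph (hL : Nv L) (hc : ∀ t, c t ≠ 0) (hy : Mp L (crd c) y) :
    Mp (box L (crd c)) (box (crd c) (crd c)) fun w => (y w.1, w.2) :=
  (hy.comp (Mp.fst L (crd_nv hc))).prod (Mp.snd hL _)

/-- a germ that vanishes on the graph of `y` is a multiple of the equation of the graph -/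
theorem div_loc (hL : Nv L) (hc : ∀ t, c t ≠ 0) (hy : Mp L (crd c) y)
    (hE : ∀ x x' a b, c x a * c x' b - c x b * c x' a = E x x' * s (x, x') (a, b))
    (hs : Mp (box (crd c) (crd c)) (crd s) fun t => t) {l₀ : τ × τ} {a : τ}
    (h1 : s (y s₀, y s₀) l₀ ≠ 0) (h2 : c (y s₀) a ≠ 0)
    (hφ : At (box L (crd c)) 0 (s₀, y s₀) φ) (h0 : ∀ᶠ w in nb L s₀, φ (w, y w) = 0) :
    Dvs (box L (crd c)) (s₀, y s₀)
      (fun w => E (y w.1) w.2 * s (y w.1, w.2) l₀ / (c (y w.1) a * c w.2 a)) φ := by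
  have nH := crd_nv hc
  have m1 := Mp.fst L nH
  have m2 := Mp.snd hL (crd c)
  have hg : Mp (box L (crd c)) (box L (crd c)) fun w => (w.1, y w.1) := m1.prod (hy.comp m1)
  have m3 := hs.comp (mp_graph hL hc hy)
  obtain ⟨l, hl, hl0⟩ := hL s₀
  have ca : (fun t => c t a) ∈ crd c := Submodule.subset_span ⟨a, rfl⟩
  have sl : ∀ i, At (crd s) 1 (y s₀, y s₀) fun t => s t i := fun i =>
    At.of_mem1 (L := crd s) (Submodule.subset_span (Set.mem_range_self i)) _
  have n1 : ∀ᶠ w in nb (box L (crd c)) (s₀, y s₀), c w.2 a ≠ 0 :=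
    m2.ev (p := fun t => c t a ≠ 0) ((At.of_mem1 ca _).ne h2)
  have n2 : ∀ᶠ w in nb (box L (crd c)) (s₀, y s₀), c (y w.1) a ≠ 0 :=
    (hy.comp m1).ev (p := fun t => c t a ≠ 0) ((At.of_mem1 ca _).ne h2)
  have n3 : ∀ᶠ w in nb (box L (crd c)) (s₀, y s₀), s (y w.1, w.2) l₀ ≠ 0 :=
    m3.ev (p := fun t => s t l₀ ≠ 0) ((sl l₀).ne h1)
  have key : ∀ u ∈ crd c, Dvs (box L (crd c)) (s₀, y s₀)
      (fun w => E (y w.1) w.2 * s (y w.1, w.2) l₀ / (c (y w.1) a * c w.2 a))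
      fun w => u w.2 / c w.2 a - u (y w.1) / c (y w.1) a := fun u hu => by
    refine Submodule.span_induction (fun u hu => ?_) ?_ (fun u u' _ _ h h' => ?_)
      (fun r u _ h => ?_) hu
    · obtain ⟨i, rfl⟩ := hu
      refine ⟨_, m3.ratio (sl (a, i)) (sl l₀) h1, (n1.and (n2.and n3)).mono fun w hw => ?_⟩
      obtain ⟨e1, e2, e3⟩ := hw
      have := hE (y w.1) w.2 a i
      field_simp
      linear_combination this
    · exact Dvs.zero.congr (Eventually.of_forall fun _ => by simp)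
    · exact (h.add h').congr (Eventually.of_forall fun _ => by simp only [Pi.add_apply]; ring)
    · exact (h.mul (At.const _ _ r)).congr (Eventually.of_forall fun _ => by
        simp only [Pi.smul_apply, smul_eq_mul]; ring)
  have gen : ∀ u ∈ box L (crd c), Dvs (box L (crd c)) (s₀, y s₀)
      (fun w => E (y w.1) w.2 * s (y w.1, w.2) l₀ / (c (y w.1) a * c w.2 a))
      fun w => u w / (l w.1 * c w.2 a) - u (w.1, y w.1) / (l w.1 * c (y w.1) a) := fun u hu => by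
    refine box_induction (p := fun u => Dvs _ _ _ fun w : S × T =>
      u w / (l w.1 * c w.2 a) - u (w.1, y w.1) / (l w.1 * c (y w.1) a)) hu
      (fun a' ha' b hb => ?_) fun F G hF hG => ?_
    · exact ((key b hb).mul (m1.ratio (At.of_mem1 ha' _) (At.of_mem1 hl _) hl0)).congr
        (Eventually.of_forall fun _ => by simp only [mul_div_mul_comm]; ring)
    · exact (hF.add hG).congr (Eventually.of_forall fun _ => by simp only [Pi.add_apply]; ring)
  have := dvs_of_gen (g := fun w => (w.1, y w.1)) (z := (s₀, y s₀)) hg rfl (mem_box hl ca)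
    (mul_ne_zero hl0 h2) gen hφ
  exact this.congr ((m1.ev h0).mono fun w hw => by rw [hw, sub_zero])

/-- a germ on the curve that vanishes at `x` is a multiple of the equation of `x` -/
theorem div_pt (hc : ∀ t, c t ≠ 0)
    (hE : ∀ x x' a b, c x a * c x' b - c x b * c x' a = E x x' * s (x, x') (a, b))
    (hs : Mp (box (crd c) (crd c)) (crd s) fun t => t) {l₀ : τ × τ} {a : τ} {x : T} {f : T → Ω}
    (h1 : s (x, x) l₀ ≠ 0) (h2 : c x a ≠ 0) (hf : At (crd c) 0 x f) (h0 : f x = 0) :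
    Dvs (crd c) x (fun t => E x t * s (x, t) l₀ / c t a) f := by
  have nT : Nv (⊤ : Submodule Ω (Unit → Ω)) := fun _ => ⟨1, trivial, one_ne_zero⟩
  have := (div_loc (y := fun _ : Unit => x) (s₀ := ()) (φ := fun w => f w.2) nT hc
    (Mp.const _ _ x) hE hs h1 h2 (At.comp (Mp.snd nT _) hf)
    (Eventually.of_forall fun _ => h0)).comp (j := fun t => ((), t)) (t := x)
    ((Mp.const _ _ ()).prod (Mp.id _))
  obtain ⟨ψ, e1, e2⟩ := this
  refine ⟨ψ * fun _ => (c x a)⁻¹, e1.mul0 (At.const _ _ _), e2.mono fun t ht => ?_⟩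
  simp only [Pi.mul_apply] at ht ⊢
  rw [ht, mul_assoc, div_mul_eq_div_div_swap, div_eq_inv_mul _ (c x a)]

/-- two germs that agree off the graph agree on it -/
theorem dens_graph [Nontrivial T] (hc : ∀ t, c t ≠ 0) (hi : ∀ a b, Par (c a) (c b) → a = b)
    (hd : Dm (crd c)) {v : S × T} {φ' : S × T → Ω} (hφ : At (box L (crd c)) 0 v φ)
    (hφ' : At (box L (crd c)) 0 v φ')
    (h : ∀ᶠ w in nb (box L (crd c)) v, y w.1 ≠ w.2 → φ w = φ' w) : φ v = φ' v := by
  by_cases e : y v.1 = v.2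
  · have m : Mp (crd c) (box L (crd c)) fun t => (v.1, t) := (Mp.const _ _ v.1).prod (Mp.id _)
    obtain ⟨l, h1, h2, h3⟩ := exists_lin' hc hi v.2
    exact dens_eq (f := fun t => φ (v.1, t)) (f' := fun t => φ' (v.1, t)) hd h1 h2 h3
      (At.comp m hφ) (At.comp m hφ') ((m.ev (t := v.2) h).mono fun t ht hn => ht (e ▸ hn.symm))
  · exact nb_self h e

/-- a section that vanishes on the graph is `E` times a section -/
theorem dive [Nontrivial T] (hL : Nv L) (hc : ∀ t, c t ≠ 0) (hi : ∀ a b, Par (c a) (c b) → a = b)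
    (hd : Dm (crd c)) (hy : Mp L (crd c) y)
    (hE : ∀ x x' a b, c x a * c x' b - c x b * c x' a = E x x' * s (x, x') (a, b))
    (hE0 : ∀ x x', E x x' = 0 → x = x') (hs : Mp (box (crd c) (crd c)) (crd s) fun t => t)
    {e d : S × T → S × T → Ω}
    (he : ∀ w, ∀ᶠ v in nb (box L (crd c)) w, Ut (box L (crd c)) v (e w / e v))
    (hd1 : ∀ w, ∀ᶠ v in nb (box L (crd c)) w, Ut (box L (crd c)) v (d w / d v))
    (hd2 : ∀ w, ∃ l a b, s (y w.1, w.2) l ≠ 0 ∧ c (y w.1) a ≠ 0 ∧ c w.2 b ≠ 0 ∧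
      Ut (box L (crd c)) w fun v => d w v * s (y v.1, v.2) l / (c (y v.1) a * c v.2 b))
    {f : S × T → Ω} (hf : ∀ w, At (box L (crd c)) 0 w (f / e w)) (h0 : ∀ z, f (z, y z) = 0) :
    ∃ g : S × T → Ω, (∀ w, f w = E (y w.1) w.2 * g w) ∧
      ∀ w, At (box L (crd c)) 0 w (g / (e w / d w)) := by
  have nH := crd_nv hc
  have m1 := Mp.fst L nH
  have m2 := Mp.snd hL (crd c)
  have ca : ∀ a, (fun t => c t a) ∈ crd c := fun a => Submodule.subset_span ⟨a, rfl⟩
  have ne : ∀ w, ∀ᶠ v in nb (box L (crd c)) w, e w v ≠ 0 := fun w =>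
    (nb_self (he w)).ne2.mono fun _ h => h.1
  have nd : ∀ w, ∀ᶠ v in nb (box L (crd c)) w, d w v ≠ 0 := fun w =>
    (nb_self (hd1 w)).ne2.mono fun _ h => h.1
  have A : ∀ w, ∃ ψ, At (box L (crd c)) 0 w ψ ∧ ∀ᶠ v in nb (box L (crd c)) w,
      f v = E (y v.1) v.2 * (ψ v * (e w v / d w v)) := fun w => by
    obtain ⟨l, a, b, h1, h2, h3, h4⟩ := hd2 w
    have n1 : ∀ᶠ v in nb (box L (crd c)) w, c v.2 b ≠ 0 :=
      m2.ev (p := fun t => c t b ≠ 0) ((At.of_mem1 (ca b) _).ne h3)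
    have n2 : ∀ᶠ v in nb (box L (crd c)) w, c (y v.1) a ≠ 0 :=
      (hy.comp m1).ev (p := fun t => c t a ≠ 0) ((At.of_mem1 (ca a) _).ne h2)
    by_cases hw : y w.1 = w.2
    · obtain ⟨z, t⟩ := w
      obtain rfl : y z = t := hw
      have n3 : ∀ᶠ v in nb (box L (crd c)) (z, y z), c v.2 a ≠ 0 :=
        m2.ev (p := fun t => c t a ≠ 0) ((At.of_mem1 (ca a) _).ne h2)
      obtain ⟨ψ, e1, e2⟩ := div_loc hL hc hy hE hs h1 h2 (hf _)
        (Eventually.of_forall fun z' => by rw [Pi.div_apply, h0, zero_div])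
      refine ⟨_, (e1.mul0 h4.1).mul0 (m2.ratio (At.of_mem1 (ca b) _) (At.of_mem1 (ca a) _) h2),
        (e2.and ((ne _).and ((nd _).and (n1.and (n2.and n3))))).mono fun v hv => ?_⟩
      obtain ⟨q0, q1, q2, q3, q4, q5⟩ := hv
      rw [Pi.div_apply, div_eq_iff q1] at q0
      simp only [Pi.mul_apply]
      rw [q0]
      field_simp
    · have hE1 : E (y w.1) w.2 ≠ 0 := fun h => hw (hE0 _ _ h)
      have mg := mp_graph hL hc hy
      have b1 : (fun t : T × T => c t.1 l.1 * c t.2 l.2 - c t.1 l.2 * c t.2 l.1) ∈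
          box (crd c) (crd c) := Submodule.sub_mem _ (mem_box (ca _) (ca _)) (mem_box (ca _) (ca _))
      have u1 := mg.ratio (t := w) (At.of_mem1 b1 _) (At.of_mem1 (mem_box (ca a) (ca b)) _)
        (mul_ne_zero h2 h3)
      simp only [hE] at u1
      have u2 : E (y w.1) w.2 * s (y w.1, w.2) l / (c (y w.1) a * c w.2 b) ≠ 0 :=
        div_ne_zero (mul_ne_zero hE1 h1) (mul_ne_zero h2 h3)
      refine ⟨_, ((hf w).mul0 h4.1).div0 u1 u2,
        ((u1.ne u2).and ((ne _).and ((nd _).and (n1.and n2)))).mono fun v hv => ?_⟩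
      obtain ⟨q0, q1, q2, q3, q4⟩ := hv
      have q5 := mul_ne_zero_iff.1 (div_ne_zero_iff.1 q0).1
      have q6 := q5.1
      have q7 : s (y v.1, v.2) l ≠ 0 := q5.2
      simp only [Pi.mul_apply, Pi.div_apply]
      field_simp
  choose ψ hψ hψ' using A
  refine ⟨fun w => ψ w w * (e w w / d w w), fun w => ?_, fun w => (hψ w).congr ?_⟩
  · have := nb_self (hψ' w)
    exact this
  refine ((nb_ev (hψ' w)).and ((hψ w).ev.and ((he w).and (hd1 w)))).mono fun v hv => ?_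
  obtain ⟨q0, q1, q2, q3⟩ := hv
  have := dens_graph (y := y) hc hi hd ((q1.mul0 q2.1).div0 q3.1 q3.2) (hψ v)
    ((q0.and ((hψ' v).and (q2.ne2.and q3.ne2))).mono fun u hu hn => by
      obtain ⟨r0, r1, ⟨r2, r3⟩, r4, r5⟩ := hu
      have r6 := mul_left_cancel₀ (fun h => hn (hE0 _ _ h)) (r0.symm.trans r1)
      simp only [Pi.mul_apply, Pi.div_apply]
      field_simp at r6 ⊢
      linear_combination r6)
  obtain ⟨r2, r3⟩ := nb_self q2.ne2
  obtain ⟨r4, r5⟩ := nb_self q3.ne2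
  simp only [Pi.mul_apply, Pi.div_apply] at this ⊢
  rw [← this]
  field_simp

end

end Pool.Agent.Tav.Cu
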