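import Pool.Agent.P.MP_2ce3e7_ag.Tav.Stmt0

/-! Riemann data on the points of a curve. -/

set_option autoImplicit false

noncomputable section

namespace Pool.Agent.Tav.Cv

open MvPolynomial Set Function

open Classical in
/-- the canonical section of the divisor `P` -/
def E (K : Type) [Field K] {C : Type} (P : C) : C → K := fun y => if y = P then 0 else 1

/-- spaces of sections of all divisors, as functions on the points -/
structure RR (K C : Type) [Field K] where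
  S : (C →₀ ℤ) → Submodule K (C → K)
  g : ℤ
  c0 : ℤ
  inf : Infinite C
  one : (1 : C → K) ∈ S 0
  mul : ∀ {A B : C →₀ ℤ} {f h : C → K}, f ∈ S A → h ∈ S B → f * h ∈ S (A + B)
  fin : ∀ A, FiniteDimensional K (S A)
  dim : ∀ A, c0 ≤ A.degree → (Module.finrank K (S A) : ℤ) = A.degree + 1 - g
  neg : ∀ A, A.degree < 0 → S A = ⊥
  ex : ∀ (A : C →₀ ℤ) (P : C) (f : C → K),
    (f ∈ S A ∧ f P = 0) ↔ ∃ h ∈ S (A - Finsupp.single P 1), f = E K P * h
  quo : ∀ {A B : C →₀ ℤ} {f b : C → K}, f ∈ S A → b ∈ S B → b ≠ 0 →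
    (∀ P, ∃ D, ∃ a ∈ S D, ∃ h ∈ S (A - B + D), a P ≠ 0 ∧ f * a = b * h) →
    ∃ h ∈ S (A - B), f = b * h
  cl : ∀ {τ : Type} [Fintype τ] (H : C →₀ ℤ) (f : C → τ → K), (∀ a, (fun P => f P a) ∈ S H) →
    (∀ P, f P ≠ 0) → ∀ z ∈ zeroLocus K (idl f), z ≠ 0 → ∃ P, Par z (f P)

/-- every irreducible projective curve is the image of a curve with Riemann data -/
def S_RR (K : Type) [Field K] : Prop :=
  ∀ {T τ : Type} [Fintype τ] (c : T → τ → K), (∀ t, c t ≠ 0) → (idl c).IsPrime →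
    (hp ![crd c]).totalDegree = 1 →
    ∃ (C : Type) (R : RR K C) (D : C →₀ ℤ) (f : C → τ → K),
      (∀ a, (fun P => f P a) ∈ R.S D) ∧ (∀ P, f P ≠ 0) ∧ idl f = idl c

end Pool.Agent.Tav.Cv
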