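import Pool.Agent.P.MP_2ce3e7_ag.Tav.CvRiem
import Pool.Agent.P.MP_2ce3e7_ag.Tav.CvRR

/-! The Riemann data of a function field. -/

set_option autoImplicit false

noncomputable section

namespace Pool.Agent.Tav.Cv.Ff

open Module Finsupp

variable {K F : Type} [Field K] [Field F] [Algebra K F] [IsAlgClosed K] [OV K F]

theorem ev_ne_iff {A : Pl K F →₀ ℤ} {f : LL A} (h : f.1 ≠ 0) (P : Pl K F) :
    ev A f P ≠ 0 ↔ P.ord f.1 = -A P := by
  have := (P.mem_Ge h).1 (mem_LL.1 f.2 P)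
  rw [Ne, ev_zero_iff, P.mem_Ge h]; omega

theorem ev_inj (A : Pl K F →₀ ℤ) : Function.Injective (ev A) := by
  rw [injective_iff_map_eq_zero]
  intro f hf
  by_contra h
  have h0 : f.1 ≠ 0 := fun e => h (Subtype.ext e)
  have := inf_pl (K := K) (F := F)
  obtain ⟨P, hP⟩ := Infinite.exists_notMem_finset (A + dv K f.1).support
  rw [Finsupp.notMem_support_iff, Finsupp.add_apply, dv_apply] at hP
  exact (ev_ne_iff h0 P).2 (by omega) (congrFun hf P)

theorem ev_mul {A B C : Pl K F →₀ ℤ} (f : LL A) (h : LL B) (k : LL C) (e : C = A + B)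
    (e' : k.1 = f.1 * h.1) : ev C k = ev A f * ev B h := funext fun P => by
  rw [Pi.mul_apply, ev_apply, ev_apply, ev_apply, ← P.res_mul (LL_t f.2 P) (LL_t h.2 P), e', e,
    Finsupp.add_apply, zpow_add₀ P.t_ne]
  congr 1; ring

theorem mul_inj {A B A' B' : Pl K F →₀ ℤ} {f : LL A} {h : LL B} {f' : LL A'} {h' : LL B'}
    (e : A + B = A' + B') (e' : ev A f * ev B h = ev A' f' * ev B' h') :
    f.1 * h.1 = f'.1 * h'.1 := by
  rw [← ev_mul f h ⟨_, LL_mul f.2 h.2⟩ rfl rfl,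
    ← ev_mul f' h' ⟨_, e ▸ LL_mul f'.2 h'.2⟩ e rfl] at e'
  exact congrArg Subtype.val (ev_inj _ e')

theorem one_LL {D : Pl K F →₀ ℤ} (h : 0 ≤ D) : (1 : F) ∈ LL D :=
  (LL_iff one_ne_zero).2 fun P => by simpa [P.ord_one] using h P

theorem ev_one (D : Pl K F →₀ ℤ) (h : 0 ≤ D) (P : Pl K F) (hP : D P = 0) :
    ev D ⟨1, one_LL h⟩ P = 1 := by
  rw [ev_apply, hP]; simpa using P.res_cst 1

theorem ev_E (P : Pl K F) : ev (single P 1) ⟨1, one_LL (by simp)⟩ = E K P := by
  funext Q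
  by_cases e : Q = P
  · subst e
    rw [E, if_pos rfl, ev_zero_iff]
    simpa using Q.cst_Ge 1
  · rw [E, if_neg e, ev_one _ (by simp) _ (single_eq_of_ne e)]

theorem res_pow (P : Pl K F) {f : F} (h : f ∈ P.Ge 0) (n : ℕ) : P.res (f ^ n) = P.res f ^ n := by
  induction n with
  | zero => simpa using P.res_cst 1
  | succ n ih =>
    rw [pow_succ, pow_succ, P.res_mul (P.mem_O.1 (pow_mem (P.mem_O.2 h) n)) h, ih]

theorem res_aeval (P : Pl K F) {τ : Type} {y : τ → F} (h : ∀ a, y a ∈ P.Ge 0)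
    (p : MvPolynomial τ K) : MvPolynomial.aeval y p ∈ P.Ge 0 ∧
      P.res (MvPolynomial.aeval y p) = MvPolynomial.eval (fun a => P.res (y a)) p := by
  induction p using MvPolynomial.induction_on with
  | C c => simpa using ⟨P.cst_Ge c, P.res_cst c⟩
  | add p q hp hq => rw [map_add, map_add, P.res_add hp.1 hq.1, hp.2, hq.2]; simp [add_mem hp.1 hq.1]
  | mul_X p a hp =>
    rw [map_mul, map_mul, MvPolynomial.aeval_X, MvPolynomial.eval_X, P.res_mul hp.1 (h a), hp.2]
    exact ⟨by simpa using P.Ge_mul hp.1 (h a), rfl⟩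

omit [IsAlgClosed K] in
theorem aeval_hom {τ R : Type} [CommRing R] [Algebra K R] {p : MvPolynomial τ K} {n : ℕ}
    (h : p.IsHomogeneous n) (c : R) (y : τ → R) :
    MvPolynomial.aeval (fun a => c * y a) p = c ^ n * MvPolynomial.aeval y p := by
  classical
  rw [p.as_sum, map_sum, map_sum, Finset.mul_sum]
  refine Finset.sum_congr rfl fun m hm => ?_
  rw [MvPolynomial.aeval_monomial, MvPolynomial.aeval_monomial, h.degree_eq_sum_deg_support hm,
    Finsupp.prod, Finsupp.prod, ← Finset.prod_pow_eq_pow_sum]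
  simp only [mul_pow, Finset.prod_mul_distrib]; ring

/-- a form vanishes on the values of sections exactly if it vanishes on the sections -/
theorem form_iff {τ : Type} {H : Pl K F →₀ ℤ} (y : τ → LL H) {p : MvPolynomial τ K} {n : ℕ}
    (h : p.IsHomogeneous n) : MvPolynomial.aeval (fun a => (y a).1) p = 0 ↔
      ∀ P, MvPolynomial.eval (fun a => ev H (y a) P) p = 0 := by
  have e : ∀ P : Pl K F, (P.t ^ H P) ^ n * MvPolynomial.aeval (fun a => (y a).1) p ∈ P.Ge 0 ∧
      P.res ((P.t ^ H P) ^ n * MvPolynomial.aeval (fun a => (y a).1) p) =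
        MvPolynomial.eval (fun a => ev H (y a) P) p := fun P => by
    have := res_aeval P (y := fun a => P.t ^ H P * (y a).1)
      (fun a => by rw [mul_comm]; exact LL_t (y a).2 P) p
    rw [aeval_hom h] at this
    simpa only [ev_apply, mul_comm] using this
  refine ⟨fun h0 P => by rw [← (e P).2, h0, mul_zero]; simpa using P.res_cst 0, fun h0 => ?_⟩
  by_contra hc
  have := inf_pl (K := K) (F := F)
  classical
  obtain ⟨P, hP⟩ := Infinite.exists_notMem_finset
    (H.support ∪ (dv K (MvPolynomial.aeval (fun a => (y a).1) p)).support)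
  rw [Finset.notMem_union, Finsupp.notMem_support_iff, Finsupp.notMem_support_iff, dv_apply] at hP
  have h1 := (P.res_zero_iff (e P).1).1 ((e P).2.trans (h0 P))
  rw [hP.1, zpow_zero, one_pow, one_mul, P.mem_Ge hc] at h1
  omega

omit [IsAlgClosed K] in
/-- homogenisation with respect to one variable -/
theorem exists_hom {τ : Type} (a : τ) (p : MvPolynomial τ K) : ∃ (n : ℕ) (q : MvPolynomial τ K),
    q.IsHomogeneous n ∧ ∀ {R : Type} [CommRing R] [Algebra K R] (y : τ → R), y a = 1 →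
      MvPolynomial.aeval y q = MvPolynomial.aeval y p := by
  refine ⟨p.totalDegree, ∑ d ∈ Finset.range (p.totalDegree + 1),
    MvPolynomial.X a ^ (p.totalDegree - d) * MvPolynomial.homogeneousComponent d p,
    MvPolynomial.IsHomogeneous.sum _ _ _ fun d hd => ?_, fun y hy => ?_⟩
  · have := ((MvPolynomial.isHomogeneous_X K a).pow (p.totalDegree - d)).mul
      (MvPolynomial.homogeneousComponent_isHomogeneous d p)
    rwa [one_mul, Nat.sub_add_cancel (by simpa [Nat.lt_succ_iff] using hd)] at this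
  · conv_rhs => rw [← p.sum_homogeneousComponent]
    simp [hy]

omit [IsAlgClosed K] in
theorem mem_idl {T τ : Type} {c : T → τ → K} {p : MvPolynomial τ K} {n : ℕ}
    (h : p.IsHomogeneous n) : p ∈ idl c ↔ ∀ t, MvPolynomial.eval (c t) p = 0 := by
  rw [idl, MvPolynomial.mem_vanishingIdeal_iff]
  refine ⟨fun h0 t => h0 _ ⟨1, t, (one_smul _ _).symm⟩, ?_⟩
  rintro h0 _ ⟨l, t, rfl⟩
  exact (aeval_hom h l (c t)).trans (by rw [MvPolynomial.aeval_eq_eval, h0, mul_zero])

theorem closed {τ : Type} {H : Pl K F →₀ ℤ} (y : τ → LL H) (h0 : ∀ P, ∃ a, ev H (y a) P ≠ 0)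
    (z : τ → K) (hz : z ∈ MvPolynomial.zeroLocus K (idl fun P a => ev H (y a) P)) (hn : z ≠ 0) :
    ∃ P, Par z fun a => ev H (y a) P := by
  obtain ⟨a, ha⟩ := Function.ne_iff.1 hn
  have ha : z a ≠ 0 := ha
  have hf : ∀ {p : MvPolynomial τ K} {n : ℕ}, p.IsHomogeneous n →
      MvPolynomial.aeval (fun a => (y a).1) p = 0 → MvPolynomial.aeval z p = 0 := fun h e =>
    hz _ ((mem_idl h).2 ((form_iff y h).1 e))
  have hy : (y a).1 ≠ 0 := fun e =>
    ha (by simpa using hf (MvPolynomial.isHomogeneous_X K a) (by simpa using e))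
  obtain ⟨P, hP⟩ : ∃ P : Pl K F, ∀ b, (y a).1⁻¹ * (y b).1 - algebraMap K F ((z a)⁻¹ * z b) ∈
      P.Ge 1 := by
    by_cases hc : ∀ b, (y a).1⁻¹ * (y b).1 = algebraMap K F ((z a)⁻¹ * z b)
    · obtain ⟨P⟩ := (inf_pl (K := K) (F := F)).nonempty
      exact ⟨P, fun b => by simp [hc b]⟩
    push Not at hc
    obtain ⟨b, hb⟩ := hc
    refine exists_pl _ _ (fun p hp => ?_) b hb
    obtain ⟨n, q, h1, h2⟩ := exists_hom a p
    rw [← h2 _ (inv_mul_cancel₀ hy), aeval_hom h1, mul_eq_zero,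
      or_iff_right (pow_ne_zero _ (inv_ne_zero hy))] at hp
    rw [← MvPolynomial.coe_aeval_eq_eval]
    exact (h2 _ (inv_mul_cancel₀ ha)).symm.trans (by rw [aeval_hom h1, hf h1 hp, mul_zero])
  have key : ∀ b, ev H (y b) P = ev H (y a) P * ((z a)⁻¹ * z b) := fun b => by
    have h1 : (y a).1⁻¹ * (y b).1 ∈ P.Ge 0 := by
      simpa using add_mem (P.Ge_anti zero_le_one (hP b)) (P.cst_Ge ((z a)⁻¹ * z b))
    rw [ev_apply, ev_apply, ← P.res_eq (hP b), ← P.res_mul (LL_t (y a).2 P) h1]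
    congr 1; field_simp
  have h1 : ev H (y a) P ≠ 0 := fun e => by
    obtain ⟨b, hb⟩ := h0 P
    exact hb (by rw [key, e, zero_mul])
  refine ⟨P, z a * (ev H (y a) P)⁻¹, (mul_ne_zero ha (inv_ne_zero h1)).isUnit, funext fun b => ?_⟩
  rw [Pi.smul_apply, key b, smul_eq_mul]; field_simp

variable (K F) in
/-- the Riemann data -/
def rr : RR K (Pl K F) where
  S A := LinearMap.range (ev A)
  g := riemann.choose
  c0 := riemann.choose_spec.choose
  inf := inf_pl
  one := ⟨⟨1, one_LL le_rfl⟩, funext fun P => ev_one 0 le_rfl P rfl⟩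
  mul := by
    rintro A B _ _ ⟨f, rfl⟩ ⟨h, rfl⟩
    exact ⟨⟨_, LL_mul f.2 h.2⟩, ev_mul f h _ rfl rfl⟩
  fin := fun _ => inferInstance
  dim A hA := by
    rw [LinearMap.finrank_range_of_inj (ev_inj A)]; exact riemann.choose_spec.choose_spec A hA
  neg A hA := by
    rw [LinearMap.range_eq_bot]
    ext f
    rw [show f = 0 from Subtype.ext (LL_neg hA f.2)]; simp
  ex A P f := by
    constructor
    · rintro ⟨⟨f, rfl⟩, h⟩
      refine ⟨_, ⟨⟨f.1, LL_sub.2 ⟨f.2, (ev_zero_iff A f P).1 h⟩⟩, rfl⟩, ?_⟩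
      rw [← ev_E]
      exact ev_mul _ _ _ (by simp) (by simp)
    · rintro ⟨_, ⟨h, rfl⟩, rfl⟩
      refine ⟨⟨⟨h.1, (LL_sub.1 h.2).1⟩, ?_⟩, by simp [E]⟩
      rw [← ev_E]
      exact ev_mul _ _ _ (by simp) (by simp)
  quo := by
    rintro A B _ _ ⟨f, rfl⟩ ⟨b, rfl⟩ hb h
    have hb0 : b.1 ≠ 0 := fun e => hb (by rw [show b = 0 from Subtype.ext e, map_zero])
    have hm : b.1⁻¹ * f.1 ∈ LL (A - B) := mem_LL.2 fun P => by
      obtain ⟨D, _, ⟨a, rfl⟩, _, ⟨k, rfl⟩, h1, h2⟩ := h P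
      have ha : a.1 ≠ 0 := fun e => h1 (by rw [show a = 0 from Subtype.ext e, map_zero]; rfl)
      have h3 := mul_inj (by abel) h2
      have h4 : b.1⁻¹ * f.1 = k.1 * a.1⁻¹ := by field_simp; linear_combination h3
      have h5 := P.Ge_mul (mem_LL.1 k.2 P) (P.Ge_ord a.1⁻¹)
      rw [P.ord_inv, (ev_ne_iff ha P).1 h1, Finsupp.add_apply] at h5
      rw [h4]
      exact P.Ge_anti (by omega) h5
    exact ⟨_, ⟨⟨_, hm⟩, rfl⟩, ev_mul _ _ _ (by simp) (by simp [hb0])⟩
  cl := by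
    intro τ _ H f hf h0 z hz hn
    choose y hy using hf
    obtain rfl : f = fun P a => ev H (y a) P := by
      funext P a; exact (congrFun (hy a) P).symm
    exact closed y (fun P => Function.ne_iff.1 (h0 P)) z hz hn

end Pool.Agent.Tav.Cv.Ff
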