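import Mathlib

/-! Places of a function field in one variable. -/

set_option autoImplicit false

noncomputable section

namespace Pool.Agent.Tav.Cv.Ff

open Polynomial IntermediateField Module

/-- a function field in one variable -/
class OV (K F : Type) [Field K] [Field F] [Algebra K F] : Prop where
  fin : ∀ x : F, Transcendental K x → FiniteDimensional K⟮x⟯ F
  ex : ∃ x : F, Transcendental K x

/-- a place -/
@[ext] structure Pl (K F : Type) [Field K] [Field F] [Algebra K F] where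
  O : ValuationSubring F
  ne : O ≠ ⊤
  cst : ∀ c : K, algebraMap K F c ∈ O

variable {K F : Type} [Field K] [Field F] [Algebra K F]

theorem aeval_mul_mem {x : F} {M : Submodule K F} (hM : ∀ m ∈ M, x * m ∈ M) (q : K[X]) {f : F}
    (hf : f ∈ M) : aeval x q * f ∈ M := by
  induction q using Polynomial.induction_on with
  | C a => rw [aeval_C, ← Algebra.smul_def]; exact M.smul_mem _ hf
  | add p q hp hq => rw [map_add, add_mul]; exact M.add_mem hp hq
  | monomial n a h =>
    have : aeval x (C a * X ^ (n + 1)) * f = x * (aeval x (C a * X ^ n) * f) := by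
      simp only [map_mul, map_pow, aeval_X]; ring
    rw [this]; exact hM _ h

theorem li_of_poly {ι : Type} [Fintype ι] {x : F} {f : ι → F}
    (h : ∀ p : ι → K[X], ∑ i, aeval x (p i) * f i = 0 → ∀ i, p i = 0) :
    LinearIndependent K⟮x⟯ f := by
  classical
  rw [Fintype.linearIndependent_iff]
  intro g hg i
  have hrs : ∀ j, ∃ r s : K[X], aeval x s ≠ 0 ∧ (g j : F) = aeval x r / aeval x s := by
    intro j
    obtain ⟨r, s, e⟩ := (mem_adjoin_simple_iff K (g j : F)).1 (g j).2
    by_cases hs : aeval x s = 0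
    · exact ⟨0, 1, by simp, by simp [e, hs]⟩
    · exact ⟨r, s, hs, e⟩
  choose r s hs e using hrs
  have key := h (fun j => r j * ∏ l ∈ Finset.univ.erase j, s l) (by
    have h1 : (∏ l, aeval x (s l)) * ∑ j, g j • f j = 0 := by rw [hg, mul_zero]
    rw [← h1, Finset.mul_sum]
    refine Finset.sum_congr rfl fun j _ => ?_
    rw [← Finset.mul_prod_erase _ _ (Finset.mem_univ j), map_mul, map_prod]
    change _ = _ * ((g j : F) * f j)
    rw [e j]
    have := hs j
    field_simp) i
  rcases mul_eq_zero.1 key with h0 | h0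
  · apply Subtype.ext
    rw [e i, h0]; simp
  · obtain ⟨l, -, hl⟩ := Finset.prod_eq_zero_iff.1 h0
    exact absurd (by rw [hl]; simp) (hs l)

theorem card_le [OV K F] {ι : Type} [Fintype ι] {x : F} (hx : Transcendental K x)
    {M : Submodule K F} (hM : ∀ m ∈ M, x * m ∈ M) {f : ι → F} (hf : ∀ i, f i ∈ M)
    (h : ∀ c : ι → K, ∀ m ∈ M, ∑ i, c i • f i = x * m → c = 0) :
    Fintype.card ι ≤ finrank K⟮x⟯ F := by
  have := OV.fin x hx
  have hx0 : x ≠ 0 := fun e => hx (e ▸ isAlgebraic_zero)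
  refine (li_of_poly (f := f) fun p hp i => ?_).fintype_card_le_finrank
  have dec : ∀ p : ι → K[X], ∑ i, aeval x (p i) * f i =
      ∑ i, (p i).coeff 0 • f i + x * ∑ i, aeval x (p i).divX * f i := by
    intro p
    rw [Finset.mul_sum, ← Finset.sum_add_distrib]
    refine Finset.sum_congr rfl fun j _ => ?_
    conv_lhs => rw [← X_mul_divX_add (p j)]
    rw [map_add, map_mul, aeval_X, aeval_C, Algebra.smul_def]; ring
  have base : ∀ p : ι → K[X], ∑ i, aeval x (p i) * f i = 0 → ∀ i, (p i).coeff 0 = 0 := by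
    intro p hp i
    rw [dec] at hp
    exact congrFun (h (fun i => (p i).coeff 0) (-∑ i, aeval x (p i).divX * f i)
      (M.neg_mem (M.sum_mem fun j _ => aeval_mul_mem hM _ (hf j))) (by linear_combination hp)) i
  have key : ∀ k, ∀ p : ι → K[X], ∑ i, aeval x (p i) * f i = 0 → ∀ i, (p i).coeff k = 0 := by
    intro k
    induction k with
    | zero => exact base
    | succ k ih =>
      intro p hp i
      have h0 := base p hp
      rw [dec] at hp
      simp only [h0, zero_smul, Finset.sum_const_zero, zero_add, mul_eq_zero, hx0, false_or] at hp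
      simpa [coeff_divX] using ih (fun i => (p i).divX) hp i
  ext k
  simpa using key k p hp i

theorem trans_of [IsAlgClosed K] {x : F} (h : ∀ c : K, x ≠ algebraMap K F c) :
    Transcendental K x := by
  intro ha
  obtain ⟨c, hc⟩ := minpoly.mem_range_of_degree_eq_one K x
    (IsAlgClosed.degree_eq_one_of_irreducible K (minpoly.irreducible ha.isIntegral))
  exact h c hc.symm

namespace Pl

variable (P : Pl K F)

theorem v_cst_le (c : K) : P.O.valuation (algebraMap K F c) ≤ 1 :=
  (P.O.valuation_le_one_iff _).2 (P.cst c)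

theorem v_cst {c : K} (hc : c ≠ 0) : P.O.valuation (algebraMap K F c) = 1 := by
  refine le_antisymm (P.v_cst_le c) ?_
  have h := P.v_cst_le c⁻¹
  rw [map_inv₀, map_inv₀] at h
  exact (inv_le_one₀ (by simpa [zero_lt_iff] using hc)).1 h

/-- the elements of bounded value -/
def Le (γ : P.O.ValueGroup) : Submodule K F where
  carrier := {f | P.O.valuation f ≤ γ}
  add_mem' := fun ha hb => P.O.valuation.map_add_le ha hb
  zero_mem' := by simp
  smul_mem' := fun c f hf => by
    change P.O.valuation (c • f) ≤ γ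
    rw [Algebra.smul_def, map_mul]
    exact (mul_le_of_le_one_left' (P.v_cst_le c)).trans hf

variable [IsAlgClosed K]

theorem trans_v {x : F} (h0 : x ≠ 0) (h1 : P.O.valuation x ≠ 1) : Transcendental K x :=
  trans_of fun c e => h1 (by
    rw [e]; exact P.v_cst fun hc => h0 (by rw [e, hc, map_zero]))

variable [OV K F]

theorem fin_Ioc {x : F} (h0 : x ≠ 0) (h1 : P.O.valuation x < 1) :
    {γ | P.O.valuation x < γ ∧ γ ≤ 1}.Finite := by
  classical
  by_contra hi
  obtain ⟨T, hT, hc⟩ := Set.Infinite.exists_subset_card_eq hi (finrank K⟮x⟯ F + 1)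
  choose y hy using P.O.valuation_surjective
  have := card_le (ι := T) (P.trans_v h0 h1.ne) (M := P.Le 1) (f := fun γ => y γ)
    (fun m hm => by
      change P.O.valuation (x * m) ≤ 1
      rw [map_mul]; exact mul_le_one' h1.le hm)
    (fun γ => by
      change P.O.valuation (y γ) ≤ 1
      rw [hy]; exact (hT γ.2).2)
    (fun c m hm e => by
      by_contra hc
      obtain ⟨j₁, hj₁⟩ := Function.ne_iff.1 hc
      obtain ⟨j, h1, h2⟩ := (Finset.univ.filter fun j => c j ≠ 0).exists_max_image (fun j => j.1)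
        ⟨j₁, by simpa using hj₁⟩
      have hj : c j ≠ 0 := by simpa using h1
      have hv : ∀ i : T, c i ≠ 0 → P.O.valuation (c i • y i) = i := fun i hi => by
        rw [Algebra.smul_def, map_mul, P.v_cst hi, one_mul, hy]
      have h3 := P.O.valuation.map_sum_eq_of_lt (s := Finset.univ) (f := fun i : T => c i • y i)
        (Finset.mem_univ j) (fun i hi => by
          rw [hv j hj]
          by_cases h : c i = 0
          · rw [h, zero_smul, map_zero]; exact zero_le.trans_lt (hT j.2).1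
          · rw [hv i h]
            exact lt_of_le_of_ne (h2 i (by simpa using h)) fun e => by
              simp [Subtype.ext e] at hi)
      rw [e, hv j hj, map_mul] at h3
      exact absurd (hT j.2).1 (not_lt.2 (h3 ▸ mul_le_of_le_one_right' hm)))
  rw [Fintype.card_coe, hc] at this
  omega

theorem exists_unif : ∃ t : F, t ≠ 0 ∧ P.O.valuation t < 1 ∧
    ∀ f : F, f ≠ 0 → ∃ k : ℤ, P.O.valuation f = P.O.valuation t ^ k := by
  obtain ⟨y, hy⟩ : ∃ y, y ∉ P.O := by
    by_contra h
    exact P.ne (eq_top_iff.2 fun y _ => by_contra fun hy => h ⟨y, hy⟩)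
  have h0 : y⁻¹ ≠ 0 := inv_ne_zero fun e => hy (e ▸ P.O.zero_mem)
  have h1 : P.O.valuation y⁻¹ < 1 :=
    P.O.mem_nonunits_iff.1 (P.O.inv_mem_nonunits_iff.2 (Or.inr hy))
  have hfin : {γ | P.O.valuation y⁻¹ ≤ γ ∧ γ < 1}.Finite :=
    ((P.fin_Ioc h0 h1).insert (P.O.valuation y⁻¹)).subset fun γ hγ =>
      hγ.1.eq_or_lt.elim (fun e => Or.inl e.symm) fun e => Or.inr ⟨e, hγ.2.le⟩
  obtain ⟨π, hπ, hmax⟩ := hfin.exists_maximalFor id _ ⟨_, le_rfl, h1⟩
  obtain ⟨t, rfl⟩ := P.O.valuation_surjective π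
  have hp : 0 < P.O.valuation t := ((P.O.valuation.pos_iff).2 h0).trans_le hπ.1
  have hle : ∀ γ < 1, γ ≤ P.O.valuation t := fun γ hγ => by
    rcases le_total γ (P.O.valuation t) with h | h
    · exact h
    · exact hmax ⟨hπ.1.trans h, hγ⟩ h
  have hn : ∀ f : F, f ≠ 0 → P.O.valuation f ≤ 1 →
      ∃ k : ℕ, P.O.valuation f = P.O.valuation t ^ k := by
    intro f hf h
    rcases h.eq_or_lt with h | h
    · exact ⟨0, by simpa using h⟩
    have hex : ∃ k : ℕ, P.O.valuation t ^ k ≤ P.O.valuation f := by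
      by_contra hc
      push Not at hc
      exact Set.infinite_of_injective_forall_mem (f := fun k : ℕ => P.O.valuation t ^ k)
        (pow_right_strictAnti₀ hp hπ.2).injective
        (fun k => by exact ⟨hc k, pow_le_one₀ hp.le hπ.2.le⟩) (P.fin_Ioc hf h)
    classical
    obtain ⟨k, hk⟩ : ∃ k, Nat.find hex = k + 1 := Nat.exists_eq_succ_of_ne_zero fun e => by
      have := Nat.find_spec hex
      rw [e, pow_zero] at this
      exact absurd h (not_lt.2 this)
    have h2 := Nat.find_spec hex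
    have h3 := not_le.1 (Nat.find_min hex (m := k) (by omega))
    rw [hk] at h2
    refine ⟨k + 1, le_antisymm ?_ h2⟩
    have := hle _ ((div_lt_one₀ (pow_pos hp k)).2 h3)
    rwa [div_le_iff₀ (pow_pos hp k), ← pow_succ'] at this
  refine ⟨t, P.O.valuation.pos_iff.1 hp, hπ.2, fun f hf => ?_⟩
  rcases P.O.mem_or_inv_mem f with h | h
  · obtain ⟨k, hk⟩ := hn f hf ((P.O.valuation_le_one_iff _).2 h)
    exact ⟨k, by simpa using hk⟩
  · obtain ⟨k, hk⟩ := hn _ (inv_ne_zero hf) ((P.O.valuation_le_one_iff _).2 h)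
    exact ⟨-k, by rw [zpow_neg, zpow_natCast, ← hk, map_inv₀, inv_inv]⟩

/-- a uniformiser -/
def t : F := P.exists_unif.choose

theorem t_ne : P.t ≠ 0 := P.exists_unif.choose_spec.1

theorem t_lt : P.O.valuation P.t < 1 := P.exists_unif.choose_spec.2.1

theorem t_pos : 0 < P.O.valuation P.t := P.O.valuation.pos_iff.2 P.t_ne

open Classical in
/-- the order of vanishing -/
def ord (f : F) : ℤ := if h : f = 0 then 0 else (P.exists_unif.choose_spec.2.2 f h).choose

theorem ord_spec {f : F} (h : f ≠ 0) : P.O.valuation f = P.O.valuation P.t ^ P.ord f := by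
  rw [ord, dif_neg h]; exact (P.exists_unif.choose_spec.2.2 f h).choose_spec

theorem ord_zero : P.ord 0 = 0 := by simp [ord]

theorem ord_eq {f : F} {k : ℤ} (h : f ≠ 0) (e : P.O.valuation f = P.O.valuation P.t ^ k) :
    P.ord f = k :=
  (zpow_right_strictAnti₀ P.t_pos P.t_lt).injective ((P.ord_spec h).symm.trans e)

/-- the functions of order at least `k` -/
def Ge (k : ℤ) : Submodule K F := P.Le (P.O.valuation P.t ^ k)

theorem mem_Ge {f : F} {k : ℤ} (h : f ≠ 0) : f ∈ P.Ge k ↔ k ≤ P.ord f := by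
  change P.O.valuation f ≤ _ ↔ _
  rw [P.ord_spec h]
  exact (zpow_right_strictAnti₀ P.t_pos P.t_lt).le_iff_ge

theorem ord_mul {f h : F} (hf : f ≠ 0) (hh : h ≠ 0) : P.ord (f * h) = P.ord f + P.ord h :=
  P.ord_eq (mul_ne_zero hf hh) (by
    rw [map_mul, P.ord_spec hf, P.ord_spec hh, zpow_add₀ P.t_pos.ne'])

theorem ord_zpow {f : F} (hf : f ≠ 0) (k : ℤ) : P.ord (f ^ k) = k * P.ord f :=
  P.ord_eq (zpow_ne_zero _ hf) (by rw [map_zpow₀, P.ord_spec hf, ← zpow_mul, mul_comm])

theorem ord_pow {f : F} (hf : f ≠ 0) (k : ℕ) : P.ord (f ^ k) = k * P.ord f := by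
  rw [← zpow_natCast, P.ord_zpow hf]

theorem ord_inv (f : F) : P.ord f⁻¹ = -P.ord f := by
  by_cases hf : f = 0
  · simp [hf, ord_zero]
  · rw [← zpow_neg_one, P.ord_zpow hf]; simp

theorem ord_t : P.ord P.t = 1 := P.ord_eq P.t_ne (by simp)

theorem ord_cst (c : K) : P.ord (algebraMap K F c) = 0 := by
  by_cases hc : c = 0
  · simp [hc, ord_zero]
  · exact P.ord_eq (by simpa using hc) (by simp [P.v_cst hc])

theorem ord_one : P.ord 1 = 0 := by simpa using P.ord_cst 1

theorem Ge_anti {k l : ℤ} (h : k ≤ l) {f : F} (hf : f ∈ P.Ge l) : f ∈ P.Ge k := by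
  by_cases h0 : f = 0
  · simp [h0]
  · rw [P.mem_Ge h0] at hf ⊢; omega

theorem Ge_mul {k l : ℤ} {f h : F} (hf : f ∈ P.Ge k) (hh : h ∈ P.Ge l) :
    f * h ∈ P.Ge (k + l) := by
  by_cases h0 : f = 0
  · simp [h0]
  by_cases h1 : h = 0
  · simp [h1]
  rw [P.mem_Ge h0] at hf
  rw [P.mem_Ge h1] at hh
  rw [P.mem_Ge (mul_ne_zero h0 h1), P.ord_mul h0 h1]; omega

theorem Ge_ord (f : F) : f ∈ P.Ge (P.ord f) := by
  by_cases h0 : f = 0
  · simp [h0]
  · rw [P.mem_Ge h0]

theorem Ge_of_le {f : F} {k : ℤ} (h : k ≤ P.ord f) : f ∈ P.Ge k := P.Ge_anti h (P.Ge_ord f)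

theorem mem_O {f : F} : f ∈ P.O ↔ f ∈ P.Ge 0 := by
  change _ ↔ P.O.valuation f ≤ P.O.valuation P.t ^ (0 : ℤ)
  rw [zpow_zero, P.O.valuation_le_one_iff]

theorem Ge_one {f : F} : f ∈ P.Ge 1 ↔ P.O.valuation f < 1 := by
  by_cases h0 : f = 0
  · simp [h0]
  rw [P.mem_Ge h0, P.ord_spec h0, ← zpow_zero (P.O.valuation P.t),
    (zpow_right_strictAnti₀ P.t_pos P.t_lt).lt_iff_gt]
  omega

theorem cst_Ge (c : K) : algebraMap K F c ∈ P.Ge 0 := P.mem_O.1 (P.cst c)

theorem cst_Ge_one {c : K} (h : algebraMap K F c ∈ P.Ge 1) : c = 0 := by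
  by_contra hc
  rw [P.mem_Ge (by simpa using hc), P.ord_cst] at h
  omega

theorem ord_add {f h : F} (hf : f ≠ 0) (hh : h ∈ P.Ge (P.ord f + 1)) :
    f + h ≠ 0 ∧ P.ord (f + h) = P.ord f := by
  have h1 : f + h ∉ P.Ge (P.ord f + 1) := fun e => by
    have := (P.mem_Ge hf).1 (((P.Ge _).add_mem_iff_left hh).1 e)
    omega
  have h2 : f + h ≠ 0 := fun e => h1 (e ▸ Submodule.zero_mem _)
  have h3 := (P.mem_Ge h2).1 ((P.Ge _).add_mem (P.Ge_ord f) (P.Ge_anti (by omega) hh))
  rw [P.mem_Ge h2] at h1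
  exact ⟨h2, by omega⟩

theorem exists_res {f : F} (hf : f ∈ P.Ge 0) : ∃ c : K, f - algebraMap K F c ∈ P.Ge 1 := by
  by_contra hc
  push Not at hc
  have h1 : ∀ c : K, P.O.valuation (f - algebraMap K F c) = 1 := fun c =>
    le_antisymm ((P.O.valuation_le_one_iff _).2 (P.mem_O.2 ((P.Ge 0).sub_mem hf (P.cst_Ge c))))
      (not_lt.1 fun e => hc c (P.Ge_one.2 e))
  have h2 : ∀ p : K[X], p ≠ 0 → P.O.valuation (aeval f p) = 1 := fun p hp => by
    rw [(IsAlgClosed.splits p).eq_prod_roots, map_mul, aeval_C, map_mul,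
      P.v_cst (leadingCoeff_ne_zero.2 hp), one_mul, map_multiset_prod, map_multiset_prod]
    refine Multiset.prod_eq_one fun a ha => ?_
    simp only [Multiset.map_map, Multiset.mem_map] at ha
    obtain ⟨b, -, rfl⟩ := ha
    simpa using h1 b
  have := card_le (ι := Fin (finrank K⟮P.t⟯ F + 1)) (P.trans_v P.t_ne P.t_lt.ne) (M := P.Ge 0)
    (f := fun i => f ^ (i : ℕ))
    (fun m hm => P.Ge_anti (by rw [P.ord_t]; omega) (P.Ge_mul (P.Ge_ord _) hm))
    (fun i => P.mem_O.1 (pow_mem (P.mem_O.2 hf) _))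
    (fun c m hm e => by
      by_contra hc
      obtain ⟨j, hj⟩ := Function.ne_iff.1 hc
      have h3 := h2 (∑ i, monomial (Fin.val i) (c i)) (fun e => hj (by
        have := congrArg (coeff · j) e
        simpa [coeff_monomial, Fin.val_inj] using this))
      have h4 : aeval f (∑ i, monomial (Fin.val i) (c i)) = P.t * m := by
        rw [← e, map_sum]
        exact Finset.sum_congr rfl fun i _ => by rw [aeval_monomial, Algebra.smul_def]
      rw [h4] at h3
      exact absurd h3 (P.Ge_one.1 (P.Ge_anti (by rw [P.ord_t]; omega)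
        (P.Ge_mul (P.Ge_ord _) hm))).ne)
  simp at this

end Pl

end Pool.Agent.Tav.Cv.Ff
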