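import Pool.Agent.P.MP_2ce3e7_ag.Tav.CvAp

/-! The theorem of Riemann. -/

set_option autoImplicit false

noncomputable section

namespace Pool.Agent.Tav.Cv.Ff

open IntermediateField Module Finsupp

variable {K F : Type} [Field K] [Field F] [Algebra K F] [IsAlgClosed K] [OV K F]

namespace Pl

variable (P : Pl K F)

open Classical in
/-- the value of a function at a place -/
def res (f : F) : K := if h : f ∈ P.Ge 0 then (P.exists_res h).choose else 0

theorem res_spec {f : F} (h : f ∈ P.Ge 0) : f - algebraMap K F (P.res f) ∈ P.Ge 1 := by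
  rw [res, dif_pos h]; exact (P.exists_res h).choose_spec

theorem res_eq {f : F} {c : K} (h : f - algebraMap K F c ∈ P.Ge 1) : P.res f = c := by
  have h0 : f ∈ P.Ge 0 := by
    simpa using add_mem (P.Ge_anti zero_le_one h) (P.cst_Ge c)
  have := sub_mem h (P.res_spec h0)
  rw [sub_sub_sub_cancel_left, ← map_sub] at this
  exact sub_eq_zero.1 (P.cst_Ge_one this)

theorem res_add {f h : F} (hf : f ∈ P.Ge 0) (hh : h ∈ P.Ge 0) :
    P.res (f + h) = P.res f + P.res h :=
  P.res_eq (by rw [map_add, add_sub_add_comm]; exact add_mem (P.res_spec hf) (P.res_spec hh))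

theorem res_mul {f h : F} (hf : f ∈ P.Ge 0) (hh : h ∈ P.Ge 0) :
    P.res (f * h) = P.res f * P.res h :=
  P.res_eq (by
    have e : f * h - algebraMap K F (P.res f * P.res h) = (f - algebraMap K F (P.res f)) * h +
        algebraMap K F (P.res f) * (h - algebraMap K F (P.res h)) := by rw [map_mul]; ring
    rw [e]
    exact add_mem (by simpa using P.Ge_mul (P.res_spec hf) hh)
      (by simpa using P.Ge_mul (P.cst_Ge _) (P.res_spec hh)))

theorem res_cst (c : K) : P.res (algebraMap K F c) = c := P.res_eq (by simp)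

theorem res_zero_iff {f : F} (h : f ∈ P.Ge 0) : P.res f = 0 ↔ f ∈ P.Ge 1 :=
  ⟨fun e => by simpa [e] using P.res_spec h, fun e => P.res_eq (by simpa using e)⟩

theorem mul_t {f : F} (k l : ℤ) : f * P.t ^ k ∈ P.Ge l ↔ f ∈ P.Ge (l - k) := by
  by_cases h0 : f = 0
  · simp [h0]
  have ht := zpow_ne_zero k P.t_ne
  rw [P.mem_Ge h0, P.mem_Ge (mul_ne_zero h0 ht), P.ord_mul h0 ht, P.ord_zpow P.t_ne, P.ord_t]
  omega

end Pl

/-- the functions with poles bounded by a divisor -/
def LL (A : Pl K F →₀ ℤ) : Submodule K F := ⨅ P : Pl K F, P.Ge (-A P)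

theorem mem_LL {A : Pl K F →₀ ℤ} {f : F} : f ∈ LL A ↔ ∀ P : Pl K F, f ∈ P.Ge (-A P) :=
  Submodule.mem_iInf _

theorem LL_mono {A B : Pl K F →₀ ℤ} (h : A ≤ B) : LL A ≤ LL B := fun _ hf =>
  mem_LL.2 fun P => P.Ge_anti (neg_le_neg (h P)) (mem_LL.1 hf P)

theorem LL_mul {A B : Pl K F →₀ ℤ} {f h : F} (hf : f ∈ LL A) (hh : h ∈ LL B) :
    f * h ∈ LL (A + B) :=
  mem_LL.2 fun P => by
    rw [Finsupp.add_apply, neg_add]; exact P.Ge_mul (mem_LL.1 hf P) (mem_LL.1 hh P)

theorem LL_iff {A : Pl K F →₀ ℤ} {f : F} (h : f ≠ 0) : f ∈ LL A ↔ 0 ≤ A + dv K f := by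
  simp only [mem_LL, Pl.mem_Ge _ h, Finsupp.le_def, Finsupp.add_apply, dv_apply, coe_zero,
    Pi.zero_apply]
  exact forall_congr' fun P => by omega

theorem LL_t {A : Pl K F →₀ ℤ} {f : F} (h : f ∈ LL A) (P : Pl K F) : f * P.t ^ A P ∈ P.Ge 0 :=
  (P.mul_t _ _).2 (by simpa using mem_LL.1 h P)

/-- the values of a section -/
def ev (A : Pl K F →₀ ℤ) : LL A →ₗ[K] Pl K F → K where
  toFun f P := P.res (f * P.t ^ A P)
  map_add' f h := funext fun P => by
    rw [Submodule.coe_add, add_mul]; exact P.res_add (LL_t f.2 P) (LL_t h.2 P)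
  map_smul' c f := funext fun P => by
    rw [Submodule.coe_smul, Algebra.smul_def, mul_assoc, P.res_mul (P.cst_Ge c) (LL_t f.2 P),
      P.res_cst]
    rfl

theorem ev_apply (A : Pl K F →₀ ℤ) (f : LL A) (P : Pl K F) :
    ev A f P = P.res (f * P.t ^ A P) := rfl

theorem ev_zero_iff (A : Pl K F →₀ ℤ) (f : LL A) (P : Pl K F) :
    ev A f P = 0 ↔ f.1 ∈ P.Ge (1 - A P) := by
  rw [ev_apply, P.res_zero_iff (LL_t f.2 P), P.mul_t]

theorem LL_sub {A : Pl K F →₀ ℤ} {P : Pl K F} {f : F} :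
    f ∈ LL (A - single P 1) ↔ f ∈ LL A ∧ f ∈ P.Ge (1 - A P) := by
  classical
  refine ⟨fun h => ⟨LL_mono (sub_le_self _ (by simp)) h, by simpa using mem_LL.1 h P⟩,
    fun h => mem_LL.2 fun Q => ?_⟩
  by_cases e : P = Q
  · subst e; simpa using h.2
  · simpa [single_apply, e] using mem_LL.1 h.1 Q

theorem step (A : Pl K F →₀ ℤ) (P : Pl K F) [FiniteDimensional K (LL A)] :
    FiniteDimensional K (LL (A + single P 1)) ∧
      finrank K (LL (A + single P 1)) ≤ finrank K (LL A) + 1 := by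
  set φ := (LinearMap.proj P : (Pl K F → K) →ₗ[K] K) ∘ₗ ev (A + single P 1) with hφ
  have hk : LinearMap.ker φ = (LL A).comap (LL (A + single P 1)).subtype := by
    ext f
    have := LL_sub (A := A + single P 1) (P := P) (f := f.1)
    rw [add_sub_cancel_right] at this
    rw [LinearMap.mem_ker, Submodule.mem_comap, Submodule.subtype_apply, this, ← ev_zero_iff]
    simp [hφ]
  have e := Submodule.comapSubtypeEquivOfLe
    (LL_mono (le_add_of_nonneg_right (by simp)) : LL A ≤ LL (A + single P 1))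
  rw [← hk] at e
  have h1 : FiniteDimensional K (LinearMap.ker φ) := e.symm.finiteDimensional
  have h2 : FiniteDimensional K (LL (A + single P 1) ⧸ LinearMap.ker φ) :=
    φ.quotKerEquivRange.symm.finiteDimensional
  have h3 : FiniteDimensional K (LL (A + single P 1)) :=
    Module.Finite.of_submodule_quotient (LinearMap.ker φ)
  refine ⟨h3, ?_⟩
  have h4 := φ.finrank_range_add_finrank_ker
  have h5 := (LinearMap.range φ).finrank_le
  rw [finrank_self] at h5
  rw [e.finrank_eq] at h4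
  omega

omit [IsAlgClosed K] [OV K F] in
theorem deg_nonneg {D : Pl K F →₀ ℤ} (h : 0 ≤ D) : 0 ≤ D.degree :=
  Finset.sum_nonneg fun P _ => h P

omit [IsAlgClosed K] [OV K F] in
theorem eff_ind {p : (Pl K F →₀ ℤ) → Prop} (h0 : p 0)
    (h1 : ∀ D P, 0 ≤ D → p D → p (D + single P 1)) {D : Pl K F →₀ ℤ} (h : 0 ≤ D) : p D := by
  classical
  obtain ⟨n, hn⟩ := Int.eq_ofNat_of_zero_le (deg_nonneg h)
  induction n generalizing D with
  | zero =>
    have : D = 0 := by
      ext P
      by_contra hP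
      exact hP ((Finset.sum_eq_zero_iff_of_nonneg fun Q _ => h Q).1 hn P (mem_support_iff.2 hP))
    rwa [this]
  | succ n ih =>
    obtain ⟨P, hP⟩ : ∃ P, D P ≠ 0 := by
      by_contra hc
      push Not at hc
      rw [show D = 0 from Finsupp.ext hc, map_zero] at hn
      omega
    have h2 : 0 ≤ D - single P 1 := fun Q => by
      have := h Q
      by_cases e : P = Q
      · subst e; simp at this ⊢; omega
      · simpa [single_apply, e] using this
    have := h1 _ P h2 (ih h2 (by rw [map_sub, degree_single]; omega))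
    rwa [sub_add_cancel] at this

theorem steps (A : Pl K F →₀ ℤ) [FiniteDimensional K (LL A)] {D : Pl K F →₀ ℤ} (h : 0 ≤ D) :
    FiniteDimensional K (LL (A + D)) ∧
      (finrank K (LL (A + D)) : ℤ) ≤ finrank K (LL A) + D.degree := by
  refine eff_ind (p := fun D => FiniteDimensional K (LL (A + D)) ∧
    (finrank K (LL (A + D)) : ℤ) ≤ finrank K (LL A) + D.degree) ?_ ?_ h
  · rw [add_zero]; exact ⟨inferInstance, by simp⟩
  · rintro D P - ⟨h1, h2⟩
    have := step (A + D) P
    rw [← add_assoc, map_add, degree_single]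
    exact ⟨this.1, by omega⟩

theorem LL_zero : LL (0 : Pl K F →₀ ℤ) ≤ Submodule.span K {1} := fun f hf => by
  obtain ⟨c, rfl⟩ := cst_of_Ge fun P => by simpa using mem_LL.1 hf P
  exact Submodule.mem_span_singleton.2 ⟨c, (Algebra.algebraMap_eq_smul_one c).symm⟩

instance fin_LL (A : Pl K F →₀ ℤ) : FiniteDimensional K (LL A) := by
  have : FiniteDimensional K (LL (0 : Pl K F →₀ ℤ)) := Submodule.finiteDimensional_of_le LL_zero
  have h := (steps 0 (posPart_nonneg A)).1
  rw [zero_add] at h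
  exact Submodule.finiteDimensional_of_le (LL_mono (le_posPart A))

theorem rk_le {D : Pl K F →₀ ℤ} (h : 0 ≤ D) : (finrank K (LL D) : ℤ) ≤ D.degree + 1 := by
  have h1 := (steps 0 h).2
  have h2 := Submodule.finrank_mono (LL_zero (K := K) (F := F))
  rw [finrank_span_singleton one_ne_zero] at h2
  rw [zero_add] at h1
  omega

theorem pole_le {x : F} (hx : Transcendental K x) :
    (dv K x)⁻.degree ≤ finrank K⟮x⁻¹⟯ F := by
  have e : ∀ P, (dv K x)⁻ P = (P.ord x)⁻ := fun P => by simp [negPart_def]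
  have h : ∀ Q ∈ (dv K x)⁻.support, 0 < Q.ord x⁻¹ := fun Q hQ => by
    rw [Finsupp.mem_support_iff, e, Ne, negPart_eq_zero] at hQ
    rw [Q.ord_inv]; omega
  refine le_trans (Finset.sum_le_sum fun Q hQ => ?_) (sum_ord_le (trans_inv hx) _ h)
  have := h Q hQ
  rw [e, Q.ord_inv] at *
  rw [negPart_eq_neg.2 (by omega)]

theorem mem_neg (f : F) : f ∈ LL (dv K f)⁻ := mem_LL.2 fun P => P.Ge_of_le (by
  have e : (dv K f)⁻ P = (P.ord f)⁻ := by simp [negPart_def]
  rw [e, negPart_def]; omega)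

theorem pow_LL {A : Pl K F →₀ ℤ} {f : F} (h : f ∈ LL A) (n : ℕ) : f ^ n ∈ LL (n • A) := by
  induction n with
  | zero => exact mem_LL.2 fun P => by simpa using P.cst_Ge 1
  | succ n ih => rw [pow_succ, succ_nsmul]; exact LL_mul ih h

theorem big {x : F} (hx : Transcendental K x) : ∃ C : Pl K F →₀ ℤ, 0 ≤ C ∧ ∀ m : ℕ,
    m * finrank K⟮x⟯ F ≤ finrank K (LL (m • (dv K x)⁻ + C)) := by
  have := OV.fin x hx
  let b := finBasis K⟮x⟯ F
  have hC : 0 ≤ ∑ i, (dv K (b i))⁻ := Finset.sum_nonneg fun i _ => negPart_nonneg _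
  refine ⟨∑ i, (dv K (b i))⁻, hC, fun m => ?_⟩
  have h1 : LinearIndependent K fun j : Fin m => (AdjoinSimple.gen K x) ^ (j : ℕ) := by
    refine LinearIndependent.of_comp (K⟮x⟯.val.toLinearMap) ?_
    refine Fintype.linearIndependent_iff.2 fun c hc j => ?_
    have := transcendental_iff.1 hx (∑ i, Polynomial.monomial (Fin.val i) (c i)) (by
      rw [← hc, map_sum]
      exact Finset.sum_congr rfl fun i _ => by
        rw [Polynomial.aeval_monomial, Algebra.smul_def]; rfl)
    simpa [Polynomial.coeff_monomial, Fin.val_inj] using congrArg (Polynomial.coeff · j) this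
  have h2 := linearIndependent_smul h1 b.linearIndependent
  have h3 : ∀ p : Fin m × Fin (finrank K⟮x⟯ F), (AdjoinSimple.gen K x) ^ (p.1 : ℕ) • b p.2 ∈
      LL (m • (dv K x)⁻ + ∑ i, (dv K (b i))⁻) := fun p =>
    LL_mono (add_le_add (nsmul_le_nsmul_left (negPart_nonneg _) p.1.2.le)
      (Finset.single_le_sum (f := fun i => (dv K (b i))⁻) (fun i _ => negPart_nonneg _)
        (Finset.mem_univ p.2))) (LL_mul (pow_LL (mem_neg x) p.1) (mem_neg (b p.2)))
  have h4 := (LinearIndependent.of_comp (LL _).subtype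
    (v := fun p => (⟨_, h3 p⟩ : LL _)) h2).fintype_card_le_finrank
  simpa using h4

theorem le_pole {x : F} (hx : Transcendental K x) :
    (finrank K⟮x⟯ F : ℤ) ≤ (dv K x)⁻.degree := by
  obtain ⟨C, hC, h⟩ := big hx
  by_contra hc
  obtain ⟨n, hn⟩ := Int.eq_ofNat_of_zero_le (deg_nonneg hC)
  have h1 := rk_le (add_nonneg (nsmul_nonneg (negPart_nonneg (dv K x)) (n + 2)) hC)
  have h2 : (((n + 2) * finrank K⟮x⟯ F : ℕ) : ℤ) ≤ _ := Int.ofNat_le.2 (h (n + 2))
  rw [map_add, map_nsmul, hn, nsmul_eq_mul] at h1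
  push_cast at h1 h2
  nlinarith

theorem dv_inv (f : F) : dv K f⁻¹ = -dv K f := Finsupp.ext fun P => P.ord_inv f

theorem dv_mul {f h : F} (hf : f ≠ 0) (hh : h ≠ 0) : dv K (f * h) = dv K f + dv K h :=
  Finsupp.ext fun P => P.ord_mul hf hh

theorem deg_dv (f : F) : (dv K f).degree = 0 := by
  by_cases h : ∀ c : K, f ≠ algebraMap K F c
  · have hx := trans_of h
    have h1 := pole_le hx
    have h2 := pole_le (trans_inv hx)
    have h3 := le_pole hx
    have h4 := le_pole (trans_inv hx)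
    rw [inv_inv] at h2
    rw [dv_inv, negPart_neg] at h2 h4
    rw [← posPart_sub_negPart (dv K f), map_sub]
    omega
  · push Not at h
    obtain ⟨c, rfl⟩ := h
    rw [show dv K (algebraMap K F c) = 0 from Finsupp.ext fun P => P.ord_cst c, map_zero]

theorem rk_dv_le (A : Pl K F →₀ ℤ) {f : F} (hf : f ≠ 0) :
    finrank K (LL (A + dv K f)) ≤ finrank K (LL A) := by
  refine LinearMap.finrank_le_finrank_of_injective (f := (LinearMap.mulRight K f).restrict
    (p := LL (A + dv K f)) (q := LL A) fun h hh => ?_) fun a b e =>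
      Subtype.ext (mul_right_cancel₀ hf (congrArg Subtype.val e))
  have h1 : f ∈ LL (-dv K f) := (LL_iff hf).2 (by simp)
  simpa using LL_mul hh h1

theorem rk_dv (A : Pl K F →₀ ℤ) {f : F} (hf : f ≠ 0) :
    finrank K (LL (A + dv K f)) = finrank K (LL A) := by
  have := rk_dv_le (A + dv K f) (inv_ne_zero hf)
  rw [dv_inv, add_neg_cancel_right] at this
  exact le_antisymm (rk_dv_le A hf) this

theorem r_mono {A B : Pl K F →₀ ℤ} (h : A ≤ B) :
    A.degree - finrank K (LL A) ≤ B.degree - finrank K (LL B) := by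
  have := (steps A (sub_nonneg.2 h)).2
  rw [add_sub_cancel, map_sub] at this
  omega

theorem r_le {A B : Pl K F →₀ ℤ} (h : 0 < finrank K (LL (B - A))) :
    A.degree - finrank K (LL A) ≤ B.degree - finrank K (LL B) := by
  obtain ⟨f, hf⟩ := finrank_pos_iff_exists_ne_zero.1 h
  have h0 : f.1 ≠ 0 := fun e => hf (Subtype.ext e)
  have h1 := (LL_iff h0).1 f.2
  have := r_mono (A := A) (B := B + dv K f.1) (by rwa [← sub_nonneg, add_sub_right_comm])
  rwa [map_add, deg_dv, add_zero, rk_dv _ h0] at this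

theorem r_bdd : ∃ γ : ℤ, ∀ A : Pl K F →₀ ℤ, A.degree - finrank K (LL A) ≤ γ := by
  obtain ⟨x, hx⟩ := OV.ex (K := K) (F := F)
  obtain ⟨C, hC, h⟩ := big hx
  have hn : 0 < finrank K⟮x⟯ F := have := OV.fin x hx; finrank_pos
  have e : (dv K x)⁻.degree = finrank K⟮x⟯ F := by
    have h1 := deg_dv (K := K) x
    have h2 := pole_le (trans_inv hx)
    have h3 := le_pole hx
    rw [inv_inv, dv_inv, negPart_neg] at h2
    rw [← posPart_sub_negPart (dv K x), map_sub] at h1
    omega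
  have h1 : ∀ m : ℕ, (m • (dv K x)⁻ + C).degree - finrank K (LL (m • (dv K x)⁻ + C)) ≤
      C.degree := fun m => by
    have h2 : ((m * finrank K⟮x⟯ F : ℕ) : ℤ) ≤ _ := Int.ofNat_le.2 (h m)
    rw [map_add, map_nsmul, e, nsmul_eq_mul]
    push_cast at h2
    omega
  refine ⟨C.degree, fun A => (r_mono (le_posPart A)).trans ?_⟩
  obtain ⟨n, hA⟩ := Int.eq_ofNat_of_zero_le (deg_nonneg (posPart_nonneg A))
  refine le_trans (r_le ?_) (h1 (n + 1))
  have h2 := (r_mono (sub_le_self _ (posPart_nonneg A))).trans (h1 (n + 1))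
  rw [map_sub, map_add, map_nsmul, e, nsmul_eq_mul, hA] at h2
  push_cast at h2
  have h3 : (1 : ℤ) ≤ finrank K⟮x⟯ F := by omega
  have h4 : (0 : ℤ) < finrank K (LL ((n + 1) • (dv K x)⁻ + C - A⁺)) := by nlinarith
  omega

theorem riemann : ∃ g c0 : ℤ, ∀ A : Pl K F →₀ ℤ, c0 ≤ A.degree →
    (finrank K (LL A) : ℤ) = A.degree + 1 - g := by
  obtain ⟨γ, hγ⟩ := r_bdd (K := K) (F := F)
  obtain ⟨r, ⟨A₀, h0⟩, hr⟩ := Int.exists_greatest_of_bdd
    (P := fun r => ∃ A : Pl K F →₀ ℤ, A.degree - finrank K (LL A) = r)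
    ⟨γ, by rintro _ ⟨A, rfl⟩; exact hγ A⟩ ⟨_, 0, rfl⟩
  refine ⟨r + 1, A₀.degree + r + 1, fun A hA => ?_⟩
  have h1 := hr _ ⟨A - A₀, rfl⟩
  rw [map_sub] at h1
  have h2 := r_le (A := A₀) (B := A) (by omega)
  have h3 := hr _ ⟨A, rfl⟩
  omega

theorem LL_neg {A : Pl K F →₀ ℤ} (h : A.degree < 0) {f : F} (hf : f ∈ LL A) : f = 0 := by
  by_contra h0
  have := deg_nonneg ((LL_iff h0).1 hf)
  rw [map_add, deg_dv] at this
  omega

end Pool.Agent.Tav.Cv.Ff
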