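import Pool.Agent.P.MP_2ce3e7_ag.Tav.CvXD

/-! Determinants of values, common points, quotients of sections. -/

set_option autoImplicit false

noncomputable section

namespace Pool.Agent.Tav.Cv

open Module Function Set Cu

variable {Ω : Type} [Field Ω] {T Γ : Type} [AddCommGroup Γ] {m : ℕ}

theorem dt_mul (u : Fin m → T → Ω) (h : T → Ω) (a : Fin m → T) :
    dt (fun i => u i * h) a = (∏ j, h (a j)) * dt u a := by
  rw [dt, dt, ← Matrix.det_mul_row]
  congr 1
  ext i j
  simp [mul_comm]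

theorem dt_smul (u : Fin m → T → Ω) (c : Ω) (a : Fin m → T) :
    dt (fun i => c • u i) a = c ^ m * dt u a := by
  have := dt_mul u (fun _ => c) a
  rw [Finset.prod_const, Finset.card_univ, Fintype.card_fin] at this
  rw [← this]
  congr 1
  ext i t
  simp [mul_comm]

theorem dt_base {f g : Fin m → T → Ω} (hf : LinearIndependent Ω f)
    (h : ∀ i, f i ∈ Submodule.span Ω (range g)) : ∃ c : Ω, c ≠ 0 ∧ ∀ a, dt f a = c * dt g a := by
  choose M hM using fun i => (Submodule.mem_span_range_iff_exists_fun Ω).1 (h i)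
  refine ⟨(Matrix.of M).det, fun h0 => ?_, fun a => ?_⟩
  · obtain ⟨v, hv, hv'⟩ := Matrix.exists_vecMul_eq_zero_iff.2 h0
    refine hv (funext (Fintype.linearIndependent_iff.1 hf v ?_))
    simp only [← hM, Finset.smul_sum, smul_smul]
    rw [Finset.sum_comm]
    refine Finset.sum_eq_zero fun j _ => ?_
    rw [← Finset.sum_smul]
    have := congrFun hv' j
    simp only [Matrix.vecMul, dotProduct, Matrix.of_apply, Pi.zero_apply] at this
    rw [this, zero_smul]
  · rw [dt, dt, ← Matrix.det_mul]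
    congr 1
    ext i j
    simp [Matrix.mul_apply, ← hM]

theorem dt_update (u : Fin m → T → Ω) (a : Fin m → T) (j : Fin m) (t : T) :
    dt u (update a j t) = Matrix.cramer (Matrix.of fun i j => u i (a j)) (fun i => u i t) j := by
  rw [Matrix.cramer_apply, dt]
  congr 1
  ext i k
  by_cases h : k = j
  · subst h; simp
  · simp [Matrix.updateCol_ne h, update_of_ne h]

theorem dt_slot (u : Fin m → T → Ω) (a : Fin m → T) (j : Fin m) :
    (fun t => dt u (update a j t)) ∈ Submodule.span Ω (range u) := by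
  refine (Submodule.mem_span_range_iff_exists_fun Ω).2
    ⟨fun i => (Matrix.of fun i j => u i (a j)).adjugate j i, funext fun t => ?_⟩
  rw [dt_update, Matrix.cramer_eq_adjugate_mulVec]
  simp [Matrix.mulVec, dotProduct]

theorem dt_head (u : Fin (m + 1) → T → Ω) (b : Fin m → T) :
    (fun t => dt u (Fin.cons t b)) ∈ Submodule.span Ω (range u) := by
  by_cases h : Nonempty T
  · obtain ⟨t⟩ := h
    simpa only [Fin.update_cons_zero] using dt_slot u (Fin.cons t b) 0
  · rw [show (fun t => dt u (Fin.cons t b)) = 0 from funext fun t => (h ⟨t⟩).elim]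
    exact Submodule.zero_mem _

theorem dt_tail (u : Fin (m + 1) → T → Ω) (y : T) (b : Fin m → T) (j : Fin m) :
    (fun t => dt u (Fin.cons y (update b j t))) ∈ Submodule.span Ω (range u) := by
  simpa only [Fin.cons_update] using dt_slot u (Fin.cons y b) j.succ

theorem li_of_dt {u : Fin m → T → Ω} {a : Fin m → T} (h : dt u a ≠ 0) : LinearIndependent Ω u :=
  LinearIndependent.of_comp (LinearMap.funLeft Ω Ω a)
    (Matrix.linearIndependent_rows_of_det_ne_zero (A := Matrix.of fun i j => u i (a j)) h)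

theorem dt_ne {u : Fin m → T → Ω} (h : LinearIndependent Ω u) : ∃ a, dt u a ≠ 0 := by
  induction m with
  | zero => exact ⟨Fin.elim0, by simp [dt]⟩
  | succ m ih =>
    obtain ⟨b, hb⟩ := ih (h.comp Fin.succ (Fin.succ_injective m))
    by_contra hn
    push Not at hn
    have := Fintype.linearIndependent_iff.1 h
      (fun i => (-1) ^ (i : ℕ) * dt (fun k => u (i.succAbove k)) b) (funext fun y => by
        have h1 := hn (Fin.cons y b)
        rw [dt, Matrix.det_succ_column_zero] at h1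
        rw [Finset.sum_apply, Pi.zero_apply, ← h1]
        refine Finset.sum_congr rfl fun i _ => ?_
        rw [mul_right_comm]
        rfl) 0
    exact hb (by simpa [Function.comp_def] using this)

theorem dt_rot (u : Fin (m + 1) → T → Ω) (a : Fin (m + 1) → T) (j : Fin (m + 1)) :
    dt u (Fin.cons (a j) fun k => a (j.succAbove k)) ≠ 0 ↔ dt u a ≠ 0 := by
  have : dt u (Fin.cons (a j) fun k => a (j.succAbove k)) =
      ((Matrix.of fun i j => u i (a j)).submatrix id j.cycleRange.symm).det := by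
    rw [dt]
    congr 1
    ext i k
    refine Fin.cases ?_ (fun k => ?_) k <;> simp
  rw [this, Matrix.det_permute', dt, mul_ne_zero_iff_left]
  rcases Int.units_eq_one_or (Equiv.Perm.sign j.cycleRange.symm) with h | h <;> simp [h]

theorem dt_rep (u : Fin (m + 1) → T → Ω) (a : Fin (m + 1) → T) {i j : Fin (m + 1)} (h : j ≠ i) :
    dt u (Fin.cons (a j) fun k => a (i.succAbove k)) = 0 := by
  obtain ⟨k, rfl⟩ := Fin.exists_succAbove_eq h
  exact Matrix.det_zero_of_column_eq (Fin.succ_ne_zero k) fun _ => rfl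

theorem dt_cons_ne {u : Fin (m + 1) → T → Ω} (h : LinearIndependent Ω u) {y : T}
    (hy : ∃ i, u i y ≠ 0) : ∃ b, dt u (Fin.cons y b) ≠ 0 := by
  obtain ⟨a, ha⟩ := dt_ne h
  obtain ⟨i, hi⟩ := hy
  obtain ⟨j, hj⟩ : ∃ j, dt u (update a j y) ≠ 0 := by
    by_contra hn
    push Not at hn
    have h1 := Matrix.mulVec_cramer (Matrix.of fun i j => u i (a j)) fun i => u i y
    rw [show Matrix.cramer (Matrix.of fun i j => u i (a j)) (fun i => u i y) = 0 from
      funext fun j => (dt_update u a j y).symm.trans (hn j), Matrix.mulVec_zero] at h1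
    exact mul_ne_zero ha hi (congrFun h1 i).symm
  have := (dt_rot u _ j).2 hj
  rw [update_self] at this
  exact ⟨_, this⟩

/-- the minors through a good tuple are independent -/
theorem dt_frame {u : Fin (m + 1) → T → Ω} {a : Fin (m + 1) → T} (h : dt u a ≠ 0) :
    dt (fun i t => dt u (Fin.cons t fun k => a (i.succAbove k))) a ≠ 0 := by
  rw [dt, show (Matrix.of fun i j : Fin (m + 1) => dt u (Fin.cons (a j) fun k => a (i.succAbove k)))
    = Matrix.diagonal fun i => dt u (Fin.cons (a i) fun k => a (i.succAbove k)) from ?_,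
    Matrix.det_diagonal]
  · exact Finset.prod_ne_zero_iff.2 fun i _ => (dt_rot u a i).2 h
  · ext i j
    by_cases e : i = j
    · subst e; simp
    · rw [Matrix.diagonal_apply_ne _ e]
      exact dt_rep u a (Ne.symm e)

variable {W : Submodule Ω (T → Ω)} {u : Fin m → T → Ω}

theorem Bs.mem (h : Bs W u) (i : Fin m) : u i ∈ W := h.2 ▸ Submodule.subset_span ⟨i, rfl⟩

theorem Bs.finrank (h : Bs W u) : finrank Ω W = m := by
  rw [← h.2, finrank_span_eq_card h.1, Fintype.card_fin]

theorem Bs.fd (h : Bs W u) : FiniteDimensional Ω W :=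
  h.2 ▸ FiniteDimensional.span_of_finite Ω (finite_range u)

theorem bs_of_li [FiniteDimensional Ω W] (hW : finrank Ω W = m) (h : ∀ i, u i ∈ W)
    (hl : LinearIndependent Ω u) : Bs W u :=
  ⟨hl, Submodule.eq_of_le_of_finrank_eq (Submodule.span_le.2 (range_subset_iff.2 h))
    (by rw [finrank_span_eq_card hl, hW, Fintype.card_fin])⟩

theorem Bs.of_li (h : Bs W u) {u' : Fin m → T → Ω} (h' : ∀ i, u' i ∈ W)
    (hl : LinearIndependent Ω u') : Bs W u' :=
  haveI := h.fd
  bs_of_li h.finrank h' hl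

theorem Bs.nv (h : Bs W u) (hW : Nv W) (t : T) : ∃ i, u i t ≠ 0 := by
  obtain ⟨f, hf, ht⟩ := hW t
  obtain ⟨c, rfl⟩ := (Submodule.mem_span_range_iff_exists_fun Ω).1 (h.2.ge hf)
  by_contra hn
  push Not at hn
  exact ht (by simp [hn])

theorem Bs.dt (h : Bs W u) {u' : Fin m → T → Ω} (h' : Bs W u') :
    ∃ c : Ω, c ≠ 0 ∧ ∀ a, dt u a = c * dt u' a :=
  dt_base h.1 fun i => h'.2.ge (h.mem i)

theorem li_of_mul {α : T → Ω} (h : LinearIndependent Ω fun i => u i * α) : LinearIndependent Ω u :=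
  LinearIndependent.of_comp (LinearMap.mulRight Ω α) h

variable {S : Γ → Submodule Ω (T → Ω)} {A B M : Γ}

omit [AddCommGroup Γ] in
theorem Sys.cst {f : T → Ω} (h : f ∈ S A) (e : A = B) : f ∈ S B := e ▸ h

theorem Sys.mul_ne (h : Sys S) {f g : T → Ω} (hf : f ∈ S A) (hg : g ∈ S B) (h1 : f ≠ 0)
    (h2 : g ≠ 0) : f * g ≠ 0 := fun e => (h.dom hf hg e).elim h1 h2

theorem Sys.two (h : Sys S) {f g : T → Ω} (hf : f ∈ S A) (hg : g ∈ S B) (h1 : f ≠ 0)
    (h2 : g ≠ 0) : ∃ t, f t ≠ 0 ∧ g t ≠ 0 := by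
  obtain ⟨t, ht⟩ := Function.ne_iff.1 (h.mul_ne hf hg h1 h2)
  exact ⟨t, mul_ne_zero_iff.1 ht⟩

theorem Sys.cancel (h : Sys S) {f g α : T → Ω} (hf : f ∈ S A) (hg : g ∈ S A) (hα : α ∈ S B)
    (h0 : α ≠ 0) (e : f * α = g * α) : f = g :=
  sub_eq_zero.1 ((h.dom ((S A).sub_mem hf hg) hα (by rw [sub_mul, e, sub_self])).resolve_right h0)

theorem Sys.li_mul (h : Sys S) (hu : ∀ i, u i ∈ S A) (hl : LinearIndependent Ω u) {α : T → Ω}
    (hα : α ∈ S B) (h0 : α ≠ 0) : LinearIndependent Ω fun i => u i * α := by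
  refine Fintype.linearIndependent_iff.2 fun c hc => Fintype.linearIndependent_iff.1 hl c ?_
  refine (h.dom ((S A).sum_mem fun i _ => (S A).smul_mem _ (hu i)) hα ?_).resolve_right h0
  simpa only [Finset.sum_mul, smul_mul_assoc] using hc

/-- finitely many nonzero sections have a common point where they do not vanish -/
theorem Sys.common (h : Sys S) {J : Type} [Fintype J] {f : J → T → Ω} (hf : ∀ j, f j ∈ S A)
    (h0 : ∀ j, f j ≠ 0) : ∃ t, ∀ j, f j t ≠ 0 := by
  obtain ⟨t₀⟩ := h.ne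
  have key := Finset.prod_induction f (fun g => g ≠ 0 ∧ ∃ B, g ∈ S B) (s := Finset.univ)
    (fun a b ⟨h1, _, h2⟩ ⟨h3, _, h4⟩ => ⟨h.mul_ne h2 h4 h1 h3, _, h.mul h2 h4⟩)
    ⟨fun e => one_ne_zero (congrFun e t₀), 0, h.one⟩ fun j _ => ⟨h0 j, A, hf j⟩
  obtain ⟨t, ht⟩ := Function.ne_iff.1 key.1
  rw [Finset.prod_apply] at ht
  exact ⟨t, fun j => Finset.prod_ne_zero_iff.1 ht j (Finset.mem_univ j)⟩

/-- two functions of tuples whose slices are sections have a common point -/
theorem Sys.gen (h : Sys S) {I : Type} [Fintype I] [DecidableEq I] {F F' : (I → T) → Ω}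
    (hF : ∀ a j, (fun t => F (update a j t)) ∈ S A) (hF' : ∀ a j, (fun t => F' (update a j t)) ∈ S B)
    (h0 : ∃ a, F a ≠ 0) (h0' : ∃ a, F' a ≠ 0) : ∃ a, F a ≠ 0 ∧ F' a ≠ 0 := by
  have key : ∀ s : Finset I, ∃ a a', F a ≠ 0 ∧ F' a' ≠ 0 ∧ ∀ i ∈ s, a i = a' i := by
    intro s
    induction s using Finset.induction_on with
    | empty =>
      obtain ⟨a, ha⟩ := h0
      obtain ⟨a', ha'⟩ := h0'
      exact ⟨a, a', ha, ha', by simp⟩
    | insert j s _ ih =>
      obtain ⟨a, a', h1, h2, h3⟩ := ih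
      obtain ⟨t, h4, h5⟩ := h.two (hF a j) (hF' a' j)
        (fun e => h1 (by simpa using congrFun e (a j))) fun e => h2 (by simpa using congrFun e (a' j))
      refine ⟨_, _, h4, h5, fun i hi => ?_⟩
      by_cases e : i = j
      · subst e; simp
      · rw [update_of_ne e, update_of_ne e]
        exact h3 i ((Finset.mem_insert.1 hi).resolve_left e)
  obtain ⟨a, a', h1, h2, h3⟩ := key Finset.univ
  obtain rfl : a = a' := funext fun i => h3 i (Finset.mem_univ i)
  exact ⟨a, h1, h2⟩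

/-- a family proportional to a family without common zero -/
theorem Sys.ratio (h : Sys S) {J : Type} {a g : J → T → Ω} (ha : ∀ j, a j ∈ S A)
    (h0 : ∀ t, ∃ j, a j t ≠ 0) (hg : ∀ j, g j ∈ S M) (e : ∀ i j, g i * a j = g j * a i) :
    ∃ γ ∈ S (M - A), ∀ j, g j = γ * a j := by
  choose k hk using h0
  have key : ∀ j, g j = (fun t => g (k t) t / a (k t) t) * a j := fun j => funext fun t => by
    have := congrFun (e j (k t)) t
    have h1 := hk t
    simp only [Pi.mul_apply] at this ⊢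
    field_simp
    linear_combination this
  refine ⟨_, h.glue _ _ fun t => ⟨A, a (k t), ha _, hk t, ?_⟩, key⟩
  rw [mul_comm, ← key]
  exact Sys.cst (hg _) (by abel)

/-- proportional families without common zero have equivalent degrees -/
theorem Sys.pr (h : Sys S) {J : Type} {a a' : J → T → Ω} (ha : ∀ j, a j ∈ S A)
    (ha' : ∀ j, a' j ∈ S B) (h0 : ∀ t, ∃ j, a j t ≠ 0) (h0' : ∀ t, ∃ j, a' j t ≠ 0)
    (e : ∀ i j, a i * a' j = a j * a' i) : Pr S (A - B) := by
  obtain ⟨γ, hγ, h1⟩ := h.ratio ha' h0' ha e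
  obtain ⟨γ', hγ', h2⟩ := h.ratio ha h0 ha' fun i j => by rw [mul_comm, e j i, mul_comm]
  refine ⟨γ, hγ, γ', Sys.cst hγ' (neg_sub _ _).symm, funext fun t => ?_⟩
  obtain ⟨j, hj⟩ := h0 t
  have h3 := congrFun (h1 j) t
  rw [h2 j] at h3
  exact mul_right_cancel₀ hj (by simpa [mul_assoc] using h3.symm)

theorem Bs.mul_pr (h : Sys S) (hu : Bs (S A) u) {f f' : T → Ω} (hf : f ∈ S B) (hf' : f' ∈ S (-B))
    (e : f * f' = 1) : Bs (S (A + B)) fun i => u i * f := by
  refine ⟨li_of_mul (α := f') (by simpa only [mul_assoc, e, mul_one] using hu.1),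
    le_antisymm (Submodule.span_le.2 (range_subset_iff.2 fun i => h.mul (hu.mem i) hf))
      fun w hw => ?_⟩
  obtain ⟨c, hc⟩ := (Submodule.mem_span_range_iff_exists_fun Ω).1
    (hu.2.ge (Sys.cst (h.mul hw hf') (by abel)))
  refine (Submodule.mem_span_range_iff_exists_fun Ω).2 ⟨c, ?_⟩
  have := congrArg (· * f) hc
  simpa only [Finset.sum_mul, smul_mul_assoc, mul_assoc, mul_comm f' f, e, mul_one] using this

/-- interpolation at points where a given section does not vanish -/
theorem Sys.lag (h : Sys S) [FiniteDimensional Ω (S A)] {ω : T → Ω} (hω : ω ∈ S B) (h0 : ω ≠ 0) :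
    ∃ (r : ℕ) (c : Fin r → T → Ω) (x : Fin r → T), (∀ s, ω (x s) ≠ 0) ∧
      ∀ u ∈ S A, u = ∑ s, u (x s) • c s := by
  let ρ : (T → Ω) →ₗ[Ω] ({t // ω t ≠ 0} → Ω) := LinearMap.funLeft Ω Ω Subtype.val
  obtain ⟨r, c, x, hc, hu⟩ := Cu.lag ((S A).map ρ)
  choose c' h1 h2 using hc
  refine ⟨r, c', fun s => x s, fun s => (x s).2, fun u hu' => h.cancel hu'
    ((S A).sum_mem fun s _ => (S A).smul_mem _ (h1 s)) hω h0 (funext fun t => ?_)⟩
  by_cases ht : ω t = 0
  · simp [ht]
  · have := congrFun (hu _ ⟨u, hu', rfl⟩) ⟨t, ht⟩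
    simp only [← h2] at this
    simp only [Pi.mul_apply, Finset.sum_apply] at this ⊢
    exact congrArg (· * ω t) this

end Pool.Agent.Tav.Cv
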