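import Pool.Agent.P.MP_2ce3e7_ag.Tav.CvXA

/-! The balanced determinant: invariance, slots, frames, injectivity. -/

set_option autoImplicit false
set_option linter.unusedSectionVars false

noncomputable section

namespace Pool.Agent.Tav.Cv

open Module Function Set Cu

variable {Ω : Type} [Field Ω] {T Γ G : Type} [AddCommGroup Γ] [AddCommGroup G] {n : ℕ}
  {S : Γ → Submodule Ω (T → Ω)} {A B : Γ} {u v : Fin (n + 1) → T → Ω}

theorem Xf_symm (u v : Fin (n + 1) → T → Ω) (y c : T) (b d : Fin n → T) :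
    Xf u v (y, b, c, d) = Xf v u (y, d, c, b) := by
  simp only [Xf, Af]; ring

theorem Xf_swap (u v : Fin (n + 1) → T → Ω) (y c : T) (b d : Fin n → T) :
    Xf u v (y, b, c, d) = Xf u v (c, d, y, b) := mul_comm _ _

theorem Af_mul (u v : Fin (n + 1) → T → Ω) (f g : T → Ω) (y c : T) (b : Fin n → T) :
    Af (fun i => u i * f) (fun i => v i * g) y c b =
      f y * g c * (∏ j, (f * g) (b j)) * Af u v y c b := by
  simp only [Af, dt_mul, Fin.prod_univ_succ, Fin.cons_zero, Fin.cons_succ, Pi.mul_apply,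
    Finset.prod_mul_distrib]
  ring

theorem Xf_mul (u v : Fin (n + 1) → T → Ω) (f g : T → Ω) (y c : T) (b d : Fin n → T) :
    Xf (fun i => u i * f) (fun i => v i * g) (y, b, c, d) =
      (f * g) y * (∏ j, (f * g) (b j)) * (f * g) c * (∏ j, (f * g) (d j)) * Xf u v (y, b, c, d) := by
  simp only [Xf, Af_mul, Pi.mul_apply]
  ring

theorem Bs.head (hu : Bs (S A) u) (b : Fin n → T) : (fun t => Cv.dt u (Fin.cons t b)) ∈ S A :=
  hu.2.le (dt_head u b)

theorem Bs.tail (hu : Bs (S A) u) (y : T) (b : Fin n → T) (j : Fin n) :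
    (fun t => Cv.dt u (Fin.cons y (update b j t))) ∈ S A := hu.2.le (dt_tail u y b j)

theorem Af_head (hu : Bs (S A) u) (v : Fin (n + 1) → T → Ω) (c : T) (b : Fin n → T) :
    (fun t => Af u v t c b) ∈ S A :=
  (show _ = fun t => Af u v t c b from funext fun _ => mul_comm _ _) ▸
    (S A).smul_mem (dt v (Fin.cons c b)) (hu.head b)

theorem Af_mid (u : Fin (n + 1) → T → Ω) (hv : Bs (S B) v) (y : T) (b : Fin n → T) :
    (fun t => Af u v y t b) ∈ S B := (S B).smul_mem (dt u (Fin.cons y b)) (hv.head b)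

theorem Af_tail (h : Sys S) (hu : Bs (S A) u) (hv : Bs (S B) v) (y c : T) (b : Fin n → T)
    (j : Fin n) : (fun t => Af u v y c (update b j t)) ∈ S (A + B) :=
  h.mul (hu.tail y b j) (hv.tail c b j)

theorem Af_ne (h : Sys S) (hu : Bs (S A) u) (hv : Bs (S B) v) (hA : Nv (S A)) (hB : Nv (S B))
    (y c : T) : ∃ b, Af u v y c b ≠ 0 := by
  obtain ⟨b, h1, h2⟩ := h.gen (hu.tail y) (hv.tail c) (dt_cons_ne hu.1 (hu.nv hA y))
    (dt_cons_ne hv.1 (hv.nv hB c))
  exact ⟨b, mul_ne_zero h1 h2⟩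

theorem Xf_head (h : Sys S) (hu : Bs (S A) u) (hv : Bs (S B) v) (c : T) (b d : Fin n → T) :
    (fun t => Xf u v (t, b, c, d)) ∈ S (A + B) := h.mul (Af_head hu v c b) (Af_mid u hv c d)

theorem Xf_tail (h : Sys S) (hu : Bs (S A) u) (hv : Bs (S B) v) (y c : T) (d b : Fin n → T)
    (j : Fin n) : (fun t => Xf u v (y, update b j t, c, d)) ∈ S (A + B) :=
  (show _ = fun t => Xf u v (y, update b j t, c, d) from funext fun _ => mul_comm _ _) ▸
    (S (A + B)).smul_mem (Af u v c y d) (Af_tail h hu hv y c b j)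

/-- independent slices of the balanced determinant are a frame -/
theorem Xf_frame (hu : Bs (S A) u) (hv : Bs (S B) v) {b : Fin (n + 1) → Fin n → T} {c : T}
    {d : Fin n → T} (hl : LinearIndependent Ω fun i t => Xf u v (t, b i, c, d)) :
    ∃ α ∈ S B, α ≠ 0 ∧ ∃ u', Bs (S A) u' ∧ ∀ i, (fun t => Xf u v (t, b i, c, d)) = u' i * α := by
  have e : ∀ i, (fun t => Xf u v (t, b i, c, d)) =
      (dt u (Fin.cons c d) • fun t => Af u v t c (b i)) * fun t => dt v (Fin.cons t d) :=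
    fun i => funext fun t => by simp only [Xf, Af, Pi.mul_apply, Pi.smul_apply, smul_eq_mul]; ring
  refine ⟨_, hv.head d, fun h0 => hl.ne_zero 0 ?_, _, hu.of_li
    (fun i => (S A).smul_mem _ (Af_head hu v c (b i))) (li_of_mul (funext e ▸ hl)), e⟩
  rw [e, h0, mul_zero]

theorem Xf_exists (h : Sys S) (hu : Bs (S A) u) (hv : Bs (S B) v) (hA : Nv (S A))
    (hB : Nv (S B)) : ∃ (b : Fin (n + 1) → Fin n → T) (c : T) (d : Fin n → T) (q : Fin (n + 1) → T),
      dt (fun i t => Xf u v (t, b i, c, d)) q ≠ 0 := by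
  obtain ⟨q, h1, h2⟩ := h.gen (fun a j => hu.2.le (dt_slot u a j))
    (fun a j => hv.2.le (dt_slot v a j)) (dt_ne hu.1) (dt_ne hv.1)
  obtain ⟨c, hc⟩ := h.common (fun i => hv.head fun k => q (i.succAbove k))
    fun i e => (dt_rot v q i).2 h2 (congrFun e (q i))
  obtain ⟨d, hd⟩ := Af_ne h hu hv hA hB c c
  refine ⟨fun i k => q (i.succAbove k), c, d, dt_ne ?_⟩
  have h3 := (h.li_mul (fun i => hu.head fun k => q (i.succAbove k)) (li_of_dt (dt_frame h1))
    (hv.head d) fun e => right_ne_zero_of_mul hd (congrFun e c)).units_smul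
    fun i => Units.mk0 _ (mul_ne_zero (hc i) (left_ne_zero_of_mul hd))
  refine (congrArg (fun w : Fin (n + 1) → T → Ω => LinearIndependent Ω w)
    (funext fun i => funext fun t => ?_)).mp h3
  simp only [Xf, Af, Pi.smul_apply', Units.smul_def, Units.val_mk0, Pi.smul_apply, Pi.mul_apply,
    smul_eq_mul]
  ring

section Red

variable {W : Submodule Ω (T → Ω)} {R : Submodule Ω (G → Ω)} {r : ℕ} {c : Fin r → T → Ω}
  {x : Fin r → T}

theorem red_one (hx : ∀ w ∈ W, w = ∑ s, w (x s) • c s) {F : G → T → Ω} (hF : ∀ g, F g ∈ W)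
    (h : ∀ s, (fun g => F g (x s)) ∈ R) (t : T) : (fun g => F g t) ∈ R := by
  have : (fun g => F g t) = ∑ s, c s t • fun g => F g (x s) := funext fun g => by
    rw [congrFun (hx _ (hF g)) t]
    simp [mul_comm]
  rw [this]
  exact R.sum_mem fun s _ => R.smul_mem _ (h s)

theorem red_many (hx : ∀ w ∈ W, w = ∑ s, w (x s) • c s) {F : G → (Fin n → T) → Ω}
    (hF : ∀ g a j, (fun t => F g (update a j t)) ∈ W)
    (h : ∀ k : Fin n → Fin r, (fun g => F g fun i => x (k i)) ∈ R) (a : Fin n → T) :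
    (fun g => F g a) ∈ R := by
  have key : ∀ s : Finset (Fin n), ∀ a : Fin n → T, (∀ i ∉ s, a i ∈ range x) →
      (fun g => F g a) ∈ R := by
    intro s
    induction s using Finset.induction_on with
    | empty =>
      intro a ha
      choose k hk using fun i => ha i (by simp)
      exact (funext hk : _ = a) ▸ h k
    | insert j s _ ih =>
      intro a ha
      have := red_one hx (fun g => hF g a j) (fun k => ih _ fun i hi => ?_) (a j)
      · simpa only [update_eq_self] using this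
      · by_cases e : i = j
        · subst e; simp
        · rw [update_of_ne e]
          exact ha i (by simp [e, hi])
  exact key Finset.univ a (by simp)

end Red

variable {H : Γ} {Z : AddSubgroup Γ} {cl : Z →+ G}

theorem Jac.pr_rep (h : Jac S H n Z cl) (D : Z) : Pr S (D - h.rep (cl D)) :=
  (h.ker (D - h.rep (cl D))).1 (by rw [map_sub, h.cl_rep, sub_self])

/-- bases for any representative of a class -/
theorem Jac.bases (h : Jac S H n Z cl) (D : Z) : ∃ f f' : T → Ω, f * f' = 1 ∧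
    Bs (S (H + D)) (fun i => h.bU (cl D) i * f) ∧ Bs (S (H - D)) fun i => h.bV (cl D) i * f' := by
  obtain ⟨f, hf, f', hf', e⟩ := h.pr_rep D
  refine ⟨f, f', e, ?_, ?_⟩
  · have := (h.bs_bU (cl D)).mul_pr h.sys hf hf' e
    rwa [show H + h.rep (cl D) + ((D : Γ) - h.rep (cl D)) = H + D by abel] at this
  · have := (h.bs_bV (cl D)).mul_pr h.sys hf' (Sys.cst hf (neg_neg _).symm) (mul_comm f f' ▸ e)
    rwa [show H - h.rep (cl D) + -((D : Γ) - h.rep (cl D)) = H - D by abel] at this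

/-- AINV -/
theorem Jac.ainv (h : Jac S H n Z cl) (D : Z) (hu : Bs (S (H + D)) u) (hv : Bs (S (H - D)) v) :
    ∃ (κ : Ω) (f f' : T → Ω), κ ≠ 0 ∧ f * f' = 1 ∧
      ∀ y c b, Af u v y c b = κ * (f y * f' c) * h.AG (cl D) y c b := by
  obtain ⟨f, f', e, h1, h2⟩ := h.bases D
  obtain ⟨κ, hκ, h3⟩ := hu.dt h1
  obtain ⟨κ', hκ', h4⟩ := hv.dt h2
  refine ⟨κ * κ', f, f', mul_ne_zero hκ hκ', e, fun y c b => ?_⟩
  have := Af_mul (h.bU (cl D)) (h.bV (cl D)) f f' y c b
  simp only [e, Pi.one_apply, Finset.prod_const_one, mul_one] at this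
  rw [Jac.AG, mul_assoc, ← this, Af, Af, h3, h4]
  ring

/-- XINV -/
theorem Jac.xinv (h : Jac S H n Z cl) (D : Z) (hu : Bs (S (H + D)) u) (hv : Bs (S (H - D)) v) :
    ∃ κ : Ω, κ ≠ 0 ∧ ∀ τ, Xf u v τ = κ * h.XG (cl D) τ := by
  obtain ⟨κ, f, f', hκ, e, h1⟩ := h.ainv D hu hv
  refine ⟨κ * κ, mul_ne_zero hκ hκ, fun ⟨y, b, c, d⟩ => ?_⟩
  have h2 : f y * f' y = 1 := congrFun e y
  have h3 : f c * f' c = 1 := congrFun e c
  rw [h.XG_eq, Xf, h1, h1]
  linear_combination κ * κ * h.AG (cl D) y c b * h.AG (cl D) c y d *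
    (f c * f' c * h2 + h3)

theorem Jac.AG_ne (h : Jac S H n Z cl) (x : G) (y c : T) : ∃ b, h.AG x y c b ≠ 0 :=
  Af_ne h.sys (h.bs_bU x) (h.bs_bV x) (h.nv _) (h.nv' _) y c

theorem Jac.AG_tail (h : Jac S H n Z cl) (x : G) (y c : T) (b : Fin n → T) (j : Fin n) :
    (fun t => h.AG x y c (update b j t)) ∈ S (H + H) :=
  Sys.cst (Af_tail h.sys (h.bs_bU x) (h.bs_bV x) y c b j) (by abel)

theorem Jac.XG_ne (h : Jac S H n Z cl) (x : G) : ∃ τ, h.XG x τ ≠ 0 := by
  obtain ⟨t⟩ := h.sys.ne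
  obtain ⟨b, hb⟩ := h.AG_ne x t t
  exact ⟨(t, b, t, b), mul_ne_zero hb hb⟩

theorem Jac.XG_mem (h : Jac S H n Z cl) (τ : Tp T n) : (fun x => h.XG x τ) ∈ crd h.XG :=
  Submodule.subset_span ⟨τ, rfl⟩

theorem Jac.nv_XG (h : Jac S H n Z cl) : Nv (crd h.XG) := fun x =>
  (h.XG_ne x).elim fun τ hτ => ⟨_, h.XG_mem τ, hτ⟩

theorem Jac.XG_head (h : Jac S H n Z cl) (x : G) (c : T) (b d : Fin n → T) :
    (fun t => h.XG x (t, b, c, d)) ∈ S (H + H) :=
  Sys.cst (Xf_head h.sys (h.bs_bU x) (h.bs_bV x) c b d) (by abel)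

theorem Jac.XG_tail (h : Jac S H n Z cl) (x : G) (y c : T) (d b : Fin n → T) (j : Fin n) :
    (fun t => h.XG x (y, update b j t, c, d)) ∈ S (H + H) :=
  Sys.cst (Xf_tail h.sys (h.bs_bU x) (h.bs_bV x) y c d b j) (by abel)

theorem Jac.XG_swap (h : Jac S H n Z cl) (x : G) (y c : T) (b d : Fin n → T) :
    h.XG x (y, b, c, d) = h.XG x (c, d, y, b) := mul_comm _ _

/-- the coordinates are spanned by the tuples of interpolation points -/
theorem Jac.red (h : Jac S H n Z cl) {r : ℕ} {c : Fin r → T → Ω} {x : Fin r → T}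
    (hx : ∀ w ∈ S (H + H), w = ∑ s, w (x s) • c s) {R : Submodule Ω (G → Ω)}
    (hR : ∀ k : Tp (Fin r) n, (fun g => h.XG g
      (x k.1, fun i => x (k.2.1 i), x k.2.2.1, fun i => x (k.2.2.2 i))) ∈ R) : crd h.XG ≤ R := by
  have half : ∀ c' d, (∀ (s : Fin r) (k : Fin n → Fin r),
      (fun g => h.XG g (x s, fun i => x (k i), c', d)) ∈ R) →
      ∀ y b, (fun g => h.XG g (y, b, c', d)) ∈ R := fun c' d h1 y b =>
    red_one hx (fun g => h.XG_head g c' b d) (fun s => red_many hx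
      (F := fun g a => h.XG g (x s, a, c', d)) (fun g => h.XG_tail g (x s) c' d) (h1 s) b) y
  refine Submodule.span_le.2 (range_subset_iff.2 fun ⟨y, b, c', d⟩ => half c' d (fun s k => ?_) y b)
  simp only [fun g => h.XG_swap g (x s) c']
  exact half _ _ (fun s' k' => hR (s', k', s, k)) c' d

/-- finitely many tuples give all the coordinates -/
theorem Jac.fin (h : Jac S H n Z cl) :
    ∃ (s : ℕ) (τ : Fin s → Tp T n), crd (fun x i => h.XG x (τ i)) = crd h.XG := by
  have := h.fd2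
  obtain ⟨r, c, x, -, hx⟩ := Cu.lag (S (H + H))
  let e := Fintype.equivFin (Tp (Fin r) n)
  refine ⟨_, fun i => (x (e.symm i).1, fun j => x ((e.symm i).2.1 j), x (e.symm i).2.2.1,
    fun j => x ((e.symm i).2.2.2 j)), le_antisymm
    (Submodule.span_le.2 (range_subset_iff.2 fun i => h.XG_mem _))
    (h.red hx fun k => Submodule.subset_span ⟨e k, ?_⟩)⟩
  simp only [Equiv.symm_apply_apply]

theorem Jac.fg (h : Jac S H n Z cl) : (crd h.XG).FG := by
  obtain ⟨s, τ, e⟩ := h.fin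
  exact e ▸ Submodule.fg_span (finite_range _)

/-- INJ -/
theorem Jac.inj (h : Jac S H n Z cl) {x x' : G} {c : Ω} (e : ∀ τ, h.XG x τ = c * h.XG x' τ) :
    x = x' := by
  obtain ⟨b, y, d, q, hq⟩ := Xf_exists h.sys (h.bs_bU x) (h.bs_bV x) (h.nv _) (h.nv' _)
  have e' : ∀ i, (fun t => Xf (h.bU x) (h.bV x) (t, b i, y, d)) =
      c • fun t => Xf (h.bU x') (h.bV x') (t, b i, y, d) := fun i => funext fun t => e _
  obtain ⟨α, hα, h0, w, hw, h1⟩ := Xf_frame (h.bs_bU x) (h.bs_bV x) (li_of_dt hq)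
  rw [funext e', dt_smul] at hq
  obtain ⟨α', -, -, w', hw', h2⟩ := Xf_frame (h.bs_bU x') (h.bs_bV x')
    (li_of_dt (right_ne_zero_of_mul hq))
  have h3 : ∀ i, w i * α = c • (w' i * α') := fun i => by rw [← h1, ← h2, e']
  have := h.sys.pr hw.mem hw'.mem (hw.nv (h.nv _)) (hw'.nv (h.nv _)) fun i j =>
    h.sys.cancel (h.sys.mul (hw.mem i) (hw'.mem j)) (h.sys.mul (hw.mem j) (hw'.mem i)) hα h0 (by
      rw [mul_right_comm, h3, mul_right_comm (w j), h3, smul_mul_assoc, smul_mul_assoc]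
      congr 1
      ring)
  rw [show H + h.rep x - (H + h.rep x') = (h.rep x - h.rep x' : Z) by push_cast; abel,
    ← h.ker, map_sub, h.cl_rep, h.cl_rep] at this
  exact sub_eq_zero.1 this

/-- INJ for any system of coordinates with the same span -/
theorem Jac.inj' (h : Jac S H n Z cl) {σ : Type} {p : G → σ → Ω} (hp : crd p = crd h.XG)
    {x x' : G} (e : Par (p x) (p x')) : x = x' := by
  obtain ⟨c, -, e⟩ := e
  refine h.inj (c := c) fun τ => ?_
  have : crd p ≤ LinearMap.ker ((LinearMap.proj x : (G → Ω) →ₗ[Ω] Ω) - c • LinearMap.proj x') :=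
    Submodule.span_le.2 (range_subset_iff.2 fun l => sub_eq_zero.2 (congrFun e l))
  exact sub_eq_zero.1 (this (hp.ge (h.XG_mem τ)))

end Pool.Agent.Tav.Cv
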