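import Mathlib

/-! Places of a Galois number field: separation of embeddings, action on the residue field. -/

set_option autoImplicit false

open NumberField

namespace Pool.Agent.Tav.Dec

section

variable {K : Type*} [Field K] {Γ Γ' : Type*} [LinearOrderedCommGroupWithZero Γ]
  [LinearOrderedCommGroupWithZero Γ']

theorem le_one_of_int (v : Valuation K Γ) {x : K} (hx : IsIntegral ℤ x) : v x ≤ 1 :=
  (Valuation.integer.integers v).mem_of_integral hx.tower_top

/-- the centre of a valuation on the ring of integers -/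
def ctr (v : Valuation K Γ) : Ideal (𝓞 K) where
  carrier := {a | v a < 1}
  zero_mem' := by simp
  add_mem' := fun {a b} ha hb => by
    simpa using v.map_add_lt ha hb
  smul_mem' := fun c a ha => by
    simpa using mul_lt_of_le_one_of_lt (le_one_of_int v c.isIntegral_coe) ha

theorem mem_ctr {v : Valuation K Γ} {a : 𝓞 K} : a ∈ ctr v ↔ v a < 1 := Iff.rfl

theorem not_mem_ctr {v : Valuation K Γ} {a : 𝓞 K} : a ∉ ctr v ↔ v a = 1 :=
  ⟨fun h => (le_one_of_int v a.isIntegral_coe).antisymm (not_lt.1 h), fun h => h.ge.not_gt⟩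

theorem ctr_prime (v : Valuation K Γ) : (ctr v).IsPrime := by
  refine ⟨(Ideal.ne_top_iff_one _).2 (not_mem_ctr.2 (by simp)), fun {a b} h => ?_⟩
  by_contra hn
  rw [not_or, not_mem_ctr, not_mem_ctr] at hn
  exact not_mem_ctr.2 (by simp [hn.1, hn.2]) h

variable [NumberField K]

theorem ctr_ne_bot {v : Valuation K Γ} (hv : ∃ x, 1 < v x) : ctr v ≠ ⊥ := by
  obtain ⟨x, hx⟩ := hv
  obtain ⟨a, b, hb, rfl⟩ := IsFractionRing.div_surjective (A := 𝓞 K) x
  have hb0 : b ≠ 0 := nonZeroDivisors.ne_zero hb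
  intro h
  have h1 : v b = 1 := not_mem_ctr.1 (by rwa [h, Ideal.mem_bot])
  rw [map_div₀] at hx
  change 1 < v a / v b at hx
  rw [h1, div_one] at hx
  exact hx.not_ge (le_one_of_int v a.isIntegral_coe)

theorem ctr_max {v : Valuation K Γ} (hv : ∃ x, 1 < v x) : (ctr v).IsMaximal :=
  (ctr_prime v).isMaximal (ctr_ne_bot hv)

/-- a valuation ring of a number field is determined by its centre -/
theorem le_one_of_ctr {v : Valuation K Γ} {v' : Valuation K Γ'} (hv : ∃ x, 1 < v x)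
    (h : ctr v = ctr v') {x : K} (hx : v x ≤ 1) : v' x ≤ 1 := by
  obtain ⟨n, d, hd | hd⟩ := IsDedekindDomain.HeightOneSpectrum.exists_primeCompl_mul_eq_or_mul_eq
    (K := K) ⟨ctr v, ctr_prime v, ctr_ne_bot hv⟩ x
  · have h1 : v' d.1 = 1 := not_mem_ctr.1 (h ▸ d.2)
    have h2 : v' x * v' d.1 = v' n := by rw [← map_mul]; exact congrArg v' hd
    rw [h1, mul_one] at h2
    exact h2 ▸ le_one_of_int v' n.isIntegral_coe
  · have h1 : v d.1 = 1 := not_mem_ctr.1 d.2
    have h2 : v x * v n = v d.1 := by rw [← map_mul]; exact congrArg v hd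
    have h3 : n ∉ ctr v := fun h3 => (mul_lt_of_le_one_of_lt hx h3).ne (h2.trans h1)
    have h4 : v' x * v' n = v' d.1 := by rw [← map_mul]; exact congrArg v' hd
    rw [not_mem_ctr.1 (h ▸ h3), mul_one] at h4
    exact h4 ▸ le_one_of_int v' d.1.isIntegral_coe

/-- an integer that is a unit at the places of `T` and not a unit at the other places -/
theorem exists_sep {ι : Type*} [Finite ι] (w : ι → Valuation K Γ) (hw : ∀ i, ∃ x, 1 < w i x)
    (T : Set ι) (hT : ∀ i j, (∀ x, w i x ≤ 1 ↔ w j x ≤ 1) → i ∈ T → j ∈ T) :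
    ∃ b : K, IsIntegral ℤ b ∧ (∀ i ∈ T, w i b = 1) ∧ ∀ i ∉ T, w i b < 1 := by
  classical
  cases nonempty_fintype ι
  have h : IsCoprime (∏ i ∈ Finset.univ.filter (· ∉ T), ctr (w i))
      (∏ i ∈ Finset.univ.filter (· ∈ T), ctr (w i)) := by
    refine IsCoprime.prod_left fun i hi => IsCoprime.prod_right fun j hj => ?_
    have := ctr_max (hw i)
    have := ctr_max (hw j)
    refine Ideal.isCoprime_of_isMaximal fun e => (Finset.mem_filter.1 hi).2 (hT j i
      (fun x => ⟨le_one_of_ctr (hw j) e.symm, le_one_of_ctr (hw i) e⟩) (Finset.mem_filter.1 hj).2)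
  obtain ⟨b, hb, c, hc, hbc⟩ := Ideal.isCoprime_iff_exists.1 h
  refine ⟨b, b.isIntegral_coe, fun i hi => ?_, fun i hi => ?_⟩
  · have h1 : c ∈ ctr (w i) := Ideal.prod_le_inf.trans
      (Finset.inf_le (f := fun i => ctr (w i)) (Finset.mem_filter.2 ⟨Finset.mem_univ i, hi⟩)) hc
    refine not_mem_ctr.1 fun h2 => (ctr_prime (w i)).ne_top ((Ideal.eq_top_iff_one _).2 ?_)
    exact hbc ▸ add_mem h2 h1
  · exact Ideal.prod_le_inf.trans
      (Finset.inf_le (f := fun i => ctr (w i)) (Finset.mem_filter.2 ⟨Finset.mem_univ i, hi⟩)) hb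

variable [IsGalois ℚ K] {L : Type*} [Field L] [NumberField L]

/-- two embeddings differ by an automorphism -/
theorem exists_aut (φ φ' : L →+* K) : ∃ σ : K ≃ₐ[ℚ] K, ∀ x, σ (φ x) = φ' x := by
  let := φ.toAlgebra
  let f := AlgHom.liftNormal φ'.toRatAlgHom K
  exact ⟨AlgEquiv.ofBijective f (Algebra.IsAlgebraic.algHom_bijective f),
    fun x => AlgHom.liftNormal_commutes φ'.toRatAlgHom K x⟩

/-- A set of embeddings that is stable under the decomposition group is cut out by an integer. -/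
theorem sep (v : Valuation K Γ) (hv : ∃ x, 1 < v x) (Φ : Set (L →+* K))
    (hΦ : ∀ σ : K ≃ₐ[ℚ] K, (∀ x, v (σ x) ≤ 1 ↔ v x ≤ 1) → ∀ φ ∈ Φ, (σ : K →+* K).comp φ ∈ Φ) :
    ∃ a : L, IsIntegral ℤ a ∧ (∀ φ ∈ Φ, v (φ a) = 1) ∧ ∀ φ ∉ Φ, v (φ a) < 1 := by
  classical
  rcases isEmpty_or_nonempty (L →+* K) with h | ⟨⟨φ0⟩⟩
  · exact ⟨0, isIntegral_zero, fun φ => h.elim φ, fun φ => h.elim φ⟩
  let := φ0.toAlgebra
  have : IsGalois L K := IsGalois.tower_top_of_isGalois ℚ L K
  obtain ⟨b, hb, h1, h2⟩ := exists_sep (fun σ : K ≃ₐ[ℚ] K => v.comap (σ : K →+* K))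
    (fun σ => by
      obtain ⟨x, hx⟩ := hv
      exact ⟨σ.symm x, by simpa using hx⟩)
    {σ | (σ : K →+* K).comp φ0 ∈ Φ} (fun σ σ' h hσ => by
      have h3 := hΦ (σ.symm.trans σ') (fun x => by simpa using (h (σ.symm x)).symm) _ hσ
      have h4 : ((σ.symm.trans σ' : K ≃ₐ[ℚ] K) : K →+* K).comp ((σ : K →+* K).comp φ0) =
          (σ' : K →+* K).comp φ0 := by
        ext x
        simp
      rwa [h4] at h3)
  have key : ∀ φ : L →+* K, ∃ s : (K ≃ₐ[L] K) → (K ≃ₐ[ℚ] K),
      (∀ γ, (s γ : K →+* K).comp φ0 = φ) ∧ v (φ (Algebra.norm L b)) = ∏ γ, v (s γ b) := by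
    intro φ
    obtain ⟨σ, hσ⟩ := exists_aut φ0 φ
    refine ⟨fun γ => (γ.restrictScalars ℚ).trans σ, fun γ => RingHom.ext fun x => ?_, ?_⟩
    · exact (congrArg σ (γ.commutes x)).trans (hσ x)
    · rw [← hσ, show φ0 (Algebra.norm L b) = algebraMap L K (Algebra.norm L b) from rfl,
        Algebra.norm_eq_prod_automorphisms, map_prod, map_prod]
      rfl
  refine ⟨Algebra.norm L b, Algebra.isIntegral_norm L hb, fun φ hφ => ?_, fun φ hφ => ?_⟩
  · obtain ⟨s, hs, h3⟩ := key φ
    rw [h3]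
    exact Finset.prod_eq_one fun γ _ => h1 (s γ) (by rwa [Set.mem_ofPred_eq, hs])
  · obtain ⟨s, hs, h3⟩ := key φ
    have h4 : ∀ γ, v (s γ b) < 1 := fun γ => h2 (s γ) (by rwa [Set.mem_ofPred_eq, hs])
    rw [h3, ← Finset.mul_prod_erase _ _ (Finset.mem_univ 1), mul_comm]
    exact mul_lt_of_le_one_of_lt (Finset.prod_le_one' fun γ _ => (h4 γ).le) (h4 1)

end

/-- an endomorphism of a finite field is a power of the absolute Frobenius -/
theorem exists_pow {k : Type*} [Field k] [Finite k] (p : ℕ) [Fact p.Prime] [CharP k p]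
    (f : k →+* k) : ∃ e : ℕ, ∀ x, f x = x ^ p ^ e := by
  let := ZMod.algebra k p
  let g : k →ₐ[ZMod p] k := ⟨f, fun r => by
    obtain ⟨n, rfl⟩ := ZMod.natCast_zmod_surjective r
    simp⟩
  obtain ⟨e, he⟩ := FiniteField.exists_forall_apply_eq_pow (ZMod p) p k
    (AlgEquiv.ofBijective g (Algebra.IsAlgebraic.algHom_bijective g))
  exact ⟨e, fun x => (he x).trans (by rw [Nat.card_zmod])⟩

/-- An automorphism that keeps the local ring acts on the finite residue field as a power of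
Frobenius. -/
theorem exists_pow_res {O k : Type*} [CommRing O] [IsLocalRing O] [Field k] [Finite k] (p : ℕ)
    [Fact p.Prime] [CharP k p] (r : O →+* k) (hr : Function.Surjective r) (σ : O ≃+* O) :
    ∃ e : ℕ, ∀ x, r (σ x) = r x ^ p ^ e := by
  have h1 : RingHom.ker r = IsLocalRing.maximalIdeal O :=
    IsLocalRing.eq_maximalIdeal (RingHom.ker_isMaximal_of_surjective r hr)
  have h2 : RingHom.ker r ≤ RingHom.ker (r.comp (σ : O →+* O)) := fun x hx => by
    change σ x ∈ RingHom.ker r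
    rw [h1] at hx ⊢
    exact fun h => hx (by simpa using h.map σ.symm)
  obtain ⟨e, he⟩ := exists_pow p (r.liftOfSurjective hr ⟨r.comp (σ : O →+* O), h2⟩)
  exact ⟨e, fun x => by rw [← he, RingHom.liftOfSurjective_comp_apply]; rfl⟩

theorem card_comap {A X : Type*} [AddCommGroup A] [AddCommGroup X] (f : A →+ X)
    (H : AddSubgroup X) :
    Nat.card (H.comap f) = Nat.card f.ker * Nat.card ((H.comap f).map f) := by
  have h1 : f.ker ≤ H.comap f := fun x hx => by
    rw [AddSubgroup.mem_comap, (AddMonoidHom.mem_ker).1 hx]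
    exact zero_mem _
  rw [← AddSubgroup.relIndex_ker, ← AddSubgroup.relIndex_bot_left, ← AddSubgroup.relIndex_bot_left,
    AddSubgroup.relIndex_mul_relIndex _ _ _ bot_le h1]

/-- kernels along an isogeny -/
theorem card_ker_le {A X : Type*} [AddCommGroup A] [AddCommGroup X] (ψ : A →+ X)
    (hs : Function.Surjective ψ) [Finite ψ.ker] (α : A →+ A) (β : X →+ X)
    (h : ψ.comp α = β.comp ψ) [Finite α.ker] : Finite β.ker ∧ Nat.card β.ker ≤ Nat.card α.ker := by
  have h1 := card_comap α ψ.ker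
  have h2 := card_comap ψ β.ker
  rw [AddSubgroup.map_comap_eq_self_of_surjective hs, AddMonoidHom.comap_ker, ← h] at h2
  have h3 := AddSubgroup.map_comap_le (H := ψ.ker) (f := α)
  have h4 := AddSubgroup.card_le_of_le h3
  have : Finite ((ψ.ker.comap α).map α) := Finite.of_injective _ (AddSubgroup.inclusion_injective h3)
  have h5 : 0 < Nat.card ((ψ.ker.comap α).map α) := Nat.card_pos
  rw [AddMonoidHom.comap_ker, h2] at h1
  have h6 : 0 < Nat.card ψ.ker := Nat.card_pos
  have h7 : 0 < Nat.card α.ker := Nat.card_pos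
  rw [AddMonoidHom.comap_ker] at h4 h5
  refine ⟨Nat.finite_of_card_ne_zero fun h0 => ?_, Nat.le_of_mul_le_mul_left ?_ h6⟩
  · rw [h0, mul_zero] at h1
    exact (Nat.mul_pos h7 h5).ne h1
  · rw [h1, mul_comm]
    exact Nat.mul_le_mul_right _ h4

end Pool.Agent.Tav.Dec
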