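import Mathlib

set_option autoImplicit false

namespace Pool.Agent.Tav.Det

open MvPolynomial

/-- polynomial functions on an abelian group: the algebra generated by the additive functions -/
def IsPol {H : Type*} [AddCommGroup H] (f : H → ℂ) : Prop :=
  f ∈ Algebra.adjoin ℂ (Set.range fun l : H →+ ℂ => (l : H → ℂ))

section pol
variable {H H' : Type*} [AddCommGroup H] [AddCommGroup H']

theorem IsPol.lin (l : H →+ ℂ) : IsPol (fun x => l x) := Algebra.subset_adjoin ⟨l, rfl⟩

theorem IsPol.const (c : ℂ) : IsPol (fun _ : H => c) := Subalgebra.algebraMap_mem _ c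

theorem IsPol.add {f g : H → ℂ} (hf : IsPol f) (hg : IsPol g) : IsPol (fun x => f x + g x) :=
  Subalgebra.add_mem _ hf hg

theorem IsPol.sub {f g : H → ℂ} (hf : IsPol f) (hg : IsPol g) : IsPol (fun x => f x - g x) :=
  Subalgebra.sub_mem _ hf hg

theorem IsPol.mul {f g : H → ℂ} (hf : IsPol f) (hg : IsPol g) : IsPol (fun x => f x * g x) :=
  Subalgebra.mul_mem _ hf hg

theorem IsPol.sum {ι : Type*} (s : Finset ι) {f : ι → H → ℂ} (hf : ∀ i ∈ s, IsPol (f i)) :
    IsPol (fun x => ∑ i ∈ s, f i x) := by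
  have h := Subalgebra.sum_mem _ hf
  have e : (fun x => ∑ i ∈ s, f i x) = ∑ i ∈ s, f i := by
    funext x; simp
  rw [e]; exact h

theorem IsPol.comp {f : H → ℂ} (hf : IsPol f) (g : H' →+ H) : IsPol (fun x => f (g x)) := by
  induction hf using Algebra.adjoin_induction with
  | mem x hx => obtain ⟨l, rfl⟩ := hx; exact IsPol.lin (l.comp g)
  | algebraMap r => exact IsPol.const r
  | add x y _ _ hx hy => exact hx.add hy
  | mul x y _ _ hx hy => exact hx.mul hy

/-- Jordan - von Neumann: the polar form of a solution of the parallelogram law is biadditive -/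
theorem polar (q : H → ℂ) (h : ∀ x y, q (x + y) + q (x - y) = 2 * q x + 2 * q y) :
    ∃ B : H →+ H →+ ℂ, (∀ x y, B x y = (q (x + y) - q (x - y)) / 4) ∧ ∀ x, q x = B x x := by
  have h0 : q 0 = 0 := by
    have := h 0 0
    rw [add_zero, sub_zero] at this
    linear_combination (-1 / 2 : ℂ) * this
  have hn : ∀ y, q (-y) = q y := by
    intro y
    have := h 0 y
    rw [zero_add, zero_sub, h0] at this
    linear_combination this
  have hs : ∀ x y, q (x - y) = q (y - x) := by
    intro x y
    rw [← hn, neg_sub]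
  have hA : ∀ x z y, (q (x + z + y) - q (x + z - y)) / 4 =
      (q (x + y) - q (x - y)) / 4 + (q (z + y) - q (z - y)) / 4 := by
    intro x z y
    have a1 := h (x + y) z
    have a2 := h (x - y) z
    have a3 := h (z + y) x
    have a4 := h (z - y) x
    have e1 : x + y + z = x + z + y := by abel
    have e2 : x - y + z = x + z - y := by abel
    have e3 : z + y + x = x + z + y := by abel
    have e4 : z - y + x = x + z - y := by abel
    have e5 : q (z + y - x) = q (x - y - z) := by rw [hs]; congr 1; abel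
    have e6 : q (z - y - x) = q (x + y - z) := by rw [hs]; congr 1; abel
    rw [e1] at a1; rw [e2] at a2; rw [e3, e5] at a3; rw [e4, e6] at a4
    linear_combination (1 / 8 : ℂ) * (a1 - a2 + a3 - a4)
  refine ⟨AddMonoidHom.mk' (fun x => AddMonoidHom.mk' (fun y => (q (x + y) - q (x - y)) / 4) ?_) ?_,
    fun _ _ => rfl, ?_⟩
  · intro y z
    have := hA y z x
    rw [add_comm x (y + z), hs x (y + z), add_comm x y, add_comm x z, hs x y, hs x z]
    exact this
  · intro x z
    ext y
    exact hA x z y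
  · intro x
    have := h x x
    show q x = (q (x + x) - q (x - x)) / 4
    rw [sub_self, h0] at this ⊢
    linear_combination (-1 / 4 : ℂ) * this

theorem polar_exp {ι : Type*} [Fintype ι] (e : Module.Basis ι ℤ H) (q : H → ℂ)
    (h : ∀ x y, q (x + y) + q (x - y) = 2 * q x + 2 * q y) (x : H) :
    q x = ∑ u, ∑ v, (e.repr x u : ℂ) * ((e.repr x v : ℂ) * ((q (e u + e v) - q (e u - e v)) / 4)) := by
  obtain ⟨B, hB, hq⟩ := polar q h
  rw [hq]
  conv_lhs => rw [← e.sum_repr x]
  rw [map_sum (B _), Finset.sum_comm]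
  refine Finset.sum_congr rfl fun v _ => ?_
  rw [map_zsmul, map_sum B, AddMonoidHom.finsetSum_apply, Finset.smul_sum]
  refine Finset.sum_congr rfl fun u _ => ?_
  rw [map_zsmul, AddMonoidHom.smul_apply, hB, zsmul_eq_mul, zsmul_eq_mul]
  ring

/-- QUAD: a function with the parallelogram law in every slot is polynomial on the diagonal -/
theorem quad {n : Type*} [Fintype n] [DecidableEq n] {G : n → Type*} [∀ t, AddCommGroup (G t)]
    [Module.Free ℤ H] [Module.Finite ℤ H] (c : (∀ t, G t) → ℂ)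
    (hc : ∀ (f : ∀ t, G t) (t : n) (x y : G t),
      c (Function.update f t (x + y)) + c (Function.update f t (x - y)) =
        2 * c (Function.update f t x) + 2 * c (Function.update f t y))
    (g : ∀ t, H →+ G t) : IsPol (fun x => c (fun t => g t x)) := by
  classical
  let e := Module.Free.chooseBasis ℤ H
  have key : ∀ (A : Finset n) (f : ∀ t, G t),
      IsPol (fun x => c (fun t => if t ∈ A then g t x else f t)) := by
    intro A
    induction A using Finset.induction_on with
    | empty => intro f; simpa using IsPol.const (H := H) (c f)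
    | insert t0 A ht ih =>
      intro f
      have e1 : ∀ (x : H) (y : G t0),
          Function.update (fun t => if t ∈ A then g t x else f t) t0 y =
            fun t => if t ∈ A then g t x else Function.update f t0 y t := by
        intro x y
        funext t
        by_cases h : t = t0
        · subst h; simp [ht]
        · simp [Function.update_of_ne h]
      have e2 : ∀ x : H, (fun t => if t ∈ insert t0 A then g t x else f t) =
          Function.update (fun t => if t ∈ A then g t x else f t) t0 (g t0 x) := by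
        intro x
        funext t
        by_cases h : t = t0
        · subst h; simp
        · simp [h]
      have e3 : (fun x => c (fun t => if t ∈ insert t0 A then g t x else f t)) =
          fun x => ∑ u, ∑ v, (e.repr x u : ℂ) * ((e.repr x v : ℂ) *
            ((c (fun t => if t ∈ A then g t x else Function.update f t0 (g t0 (e u + e v)) t) -
              c (fun t => if t ∈ A then g t x else Function.update f t0 (g t0 (e u - e v)) t)) *
                (4 : ℂ)⁻¹)) := by
        funext x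
        rw [e2]
        have := polar_exp e
          (fun y => c (Function.update (fun t => if t ∈ A then g t x else f t) t0 (g t0 y)))
          (fun a b => by simpa only [map_add, map_sub] using hc _ t0 (g t0 a) (g t0 b)) x
        rw [this]
        simp only [e1, div_eq_mul_inv]
      rw [e3]
      have hl : ∀ u, IsPol (fun x : H => (e.repr x u : ℂ)) := fun u =>
        IsPol.lin ((Int.castAddHom ℂ).comp (e.coord u).toAddMonoidHom)
      exact IsPol.sum _ fun u _ => IsPol.sum _ fun v _ =>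
        (hl u).mul ((hl v).mul (((ih _).sub (ih _)).mul (IsPol.const _)))
  simpa using key Finset.univ (fun _ => 0)

end pol

/-- polynomial functions of complex arrays -/
def PF {Γ J : Type*} (F : (Γ → J → ℂ) → ℂ) : Prop :=
  ∃ P : MvPolynomial (Γ × J) ℂ, ∀ z, F z = eval (fun x => z x.1 x.2) P

section pf
variable {Γ J Γ' J' : Type*}

theorem PF.const (c : ℂ) : PF (fun _ : Γ → J → ℂ => c) := ⟨C c, fun _ => by simp⟩

theorem PF.var (ρ : Γ) (j : J) : PF (fun z : Γ → J → ℂ => z ρ j) := ⟨X (ρ, j), fun _ => by simp⟩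

theorem PF.add {F G : (Γ → J → ℂ) → ℂ} (hF : PF F) (hG : PF G) : PF (fun z => F z + G z) := by
  obtain ⟨P, hP⟩ := hF
  obtain ⟨Q, hQ⟩ := hG
  exact ⟨P + Q, fun z => by simp [hP, hQ]⟩

theorem PF.sub {F G : (Γ → J → ℂ) → ℂ} (hF : PF F) (hG : PF G) : PF (fun z => F z - G z) := by
  obtain ⟨P, hP⟩ := hF
  obtain ⟨Q, hQ⟩ := hG
  exact ⟨P - Q, fun z => by simp [hP, hQ]⟩

theorem PF.mul {F G : (Γ → J → ℂ) → ℂ} (hF : PF F) (hG : PF G) : PF (fun z => F z * G z) := by
  obtain ⟨P, hP⟩ := hF
  obtain ⟨Q, hQ⟩ := hG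
  exact ⟨P * Q, fun z => by simp [hP, hQ]⟩

theorem PF.sum {ι : Type*} (s : Finset ι) {F : ι → (Γ → J → ℂ) → ℂ} (hF : ∀ i ∈ s, PF (F i)) :
    PF (fun z => ∑ i ∈ s, F i z) := by
  classical
  induction s using Finset.induction_on with
  | empty => simpa using PF.const (Γ := Γ) (J := J) 0
  | insert a s ha ih =>
    simp only [Finset.sum_insert ha]
    exact (hF a (by simp)).add (ih fun i hi => hF i (by simp [hi]))

theorem PF.prod {ι : Type*} (s : Finset ι) {F : ι → (Γ → J → ℂ) → ℂ} (hF : ∀ i ∈ s, PF (F i)) :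
    PF (fun z => ∏ i ∈ s, F i z) := by
  classical
  induction s using Finset.induction_on with
  | empty => simpa using PF.const (Γ := Γ) (J := J) 1
  | insert a s ha ih =>
    simp only [Finset.prod_insert ha]
    exact (hF a (by simp)).mul (ih fun i hi => hF i (by simp [hi]))

theorem PF.comp {F : (Γ → J → ℂ) → ℂ} (hF : PF F) (g : (Γ' → J' → ℂ) → Γ → J → ℂ)
    (hg : ∀ ρ j, PF (fun z => g z ρ j)) : PF (fun z => F (g z)) := by
  obtain ⟨P, hP⟩ := hF
  simp only [hP]
  clear hP
  induction P using MvPolynomial.induction_on with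
  | C a => simpa using PF.const a
  | add p q hp hq => simpa using hp.add hq
  | mul_X p x hp => simpa using hp.mul (hg x.1 x.2)

theorem PF.diff [Fintype Γ] [Fintype J] {F : (Γ → J → ℂ) → ℂ} (hF : PF F) :
    Differentiable ℂ F := by
  obtain ⟨P, hP⟩ := hF
  have e : F = fun z => eval (fun x => z x.1 x.2) P := funext hP
  rw [e]
  clear e hP
  induction P using MvPolynomial.induction_on with
  | C a => simp
  | add p q hp hq =>
    simp only [map_add]
    exact hp.add hq
  | mul_X p x hp =>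
    simp only [map_mul, eval_X]
    exact hp.mul (by fun_prop)

theorem PF.zero_of_int {F : (Γ → J → ℂ) → ℂ} (hF : PF F)
    (h : ∀ y : Γ → J → ℤ, F (fun i j => (y i j : ℂ)) = 0) (z : Γ → J → ℂ) : F z = 0 := by
  obtain ⟨P, hP⟩ := hF
  have hP0 : P = 0 := by
    refine MvPolynomial.funext_set (fun _ => Set.range (Int.cast : ℤ → ℂ))
      (fun _ => Set.infinite_range_of_injective Int.cast_injective) ?_
    intro x hx
    choose y hy using fun i => hx i (Set.mem_univ i)
    have := h (fun i j => y (i, j))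
    rw [hP] at this
    have e : x = fun w : Γ × J => ((y (w.1, w.2) : ℤ) : ℂ) := funext fun w => (hy w).symm
    rw [e, map_zero]
    exact this
  rw [hP, hP0, map_zero]

theorem PF.zero_of_mul {F G : (Γ → J → ℂ) → ℂ} (hF : PF F) (hG : PF G) (z0 : Γ → J → ℂ)
    (h0 : G z0 ≠ 0) (h : ∀ z, F z * G z = 0) (z : Γ → J → ℂ) : F z = 0 := by
  obtain ⟨P, hP⟩ := hF
  obtain ⟨Q, hQ⟩ := hG
  have hPQ : P * Q = 0 := by
    refine MvPolynomial.funext fun x => ?_
    have := h (fun i j => x (i, j))
    rw [hP, hQ] at this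
    simpa using this
  rcases mul_eq_zero.1 hPQ with e | e
  · rw [hP, e, map_zero]
  · exact absurd (by rw [hQ, e, map_zero]) h0

/-- a differentiable function homogeneous of degree one is additive -/
theorem add_of_hom {E : Type*} [NormedAddCommGroup E] [NormedSpace ℂ E] (f : E → ℂ)
    (hd : DifferentiableAt ℂ f 0) (hh : ∀ (t : ℂ) v, f (t • v) = t * f v) (u v : E) :
    f (u + v) = f u + f v := by
  have key : ∀ w, f w = fderiv ℂ f 0 w := by
    intro w
    have h1 : HasDerivAt (fun t : ℂ => t • w) w 0 := by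
      simpa using (hasDerivAt_id (0 : ℂ)).smul_const w
    have h2 : HasFDerivAt f (fderiv ℂ f 0) ((fun t : ℂ => t • w) 0) := by
      simpa using hd.hasFDerivAt
    have h3 := h2.comp_hasDerivAt (0 : ℂ) h1
    have h4 : HasDerivAt (fun t : ℂ => t * f w) (f w) 0 := by
      simpa using (hasDerivAt_id (0 : ℂ)).mul_const (f w)
    have e : (f ∘ fun t : ℂ => t • w) = fun t : ℂ => t * f w := funext fun t => hh t w
    rw [e] at h3
    exact h4.unique h3
  rw [key, key u, key v, map_add]

end pf

section lat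
variable {Λ Γ J : Type*} [CommRing Λ] [Fintype Γ]

/-- complex array of the values of the characters -/
def ev (χ : Γ → Λ →+* ℂ) (m : J → Λ) : Γ → J → ℂ := fun ρ j => χ ρ (m j)

/-- the norm -/
noncomputable def nm (χ : Γ → Λ →+* ℂ) (c : Λ) : ℂ := ∏ ρ, χ ρ c

theorem nm_one (χ : Γ → Λ →+* ℂ) : nm χ 1 = 1 := by simp [nm]

theorem nm_mul (χ : Γ → Λ →+* ℂ) (a b : Λ) : nm χ (a * b) = nm χ a * nm χ b := by
  simp [nm, Finset.prod_mul_distrib]

theorem chi_repr (b : Module.Basis Γ ℤ Λ) (l : Λ →+ ℂ) (x : Λ) :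
    l x = ∑ i, (b.repr x i : ℂ) * l (b i) := by
  conv_lhs => rw [← b.sum_repr x]
  rw [map_sum]
  exact Finset.sum_congr rfl fun i _ => by rw [map_zsmul, zsmul_eq_mul]

theorem exists_inv [DecidableEq Γ] (b : Module.Basis Γ ℤ Λ) (χ : Γ → Λ →+* ℂ)
    (hχ : Function.Injective χ) :
    ∃ B : Matrix Γ Γ ℂ, B * (Matrix.of fun ρ i => χ ρ (b i)) = 1 ∧
      (Matrix.of fun ρ i => χ ρ (b i)) * B = 1 := by
  have hli : LinearIndependent ℂ (fun ρ => (χ ρ : Λ → ℂ)) := by
    have := (linearIndependent_monoidHom Λ ℂ).comp (fun ρ => (χ ρ).toMonoidHom)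
      (fun ρ σ h => hχ (RingHom.ext fun x => DFunLike.congr_fun h x))
    exact this
  have hr : LinearIndependent ℂ (Matrix.of fun ρ i => χ ρ (b i)).row := by
    rw [Fintype.linearIndependent_iff] at hli ⊢
    intro c hc
    apply hli c
    funext x
    have h1 : ∀ i, ∑ ρ, c ρ * χ ρ (b i) = 0 := fun i => by
      simpa [Finset.sum_apply, Matrix.row] using congrFun hc i
    have h2 : ∀ ρ, χ ρ x = ∑ i, (b.repr x i : ℂ) * χ ρ (b i) := fun ρ =>
      chi_repr b (χ ρ).toAddMonoidHom x
    simp only [Finset.sum_apply, Pi.smul_apply, smul_eq_mul, Pi.zero_apply]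
    calc ∑ ρ, c ρ * χ ρ x = ∑ ρ, ∑ i, (b.repr x i : ℂ) * (c ρ * χ ρ (b i)) := by
          refine Finset.sum_congr rfl fun ρ _ => ?_
          rw [h2 ρ, Finset.mul_sum]
          exact Finset.sum_congr rfl fun i _ => by ring
      _ = 0 := by
          rw [Finset.sum_comm]
          refine Finset.sum_eq_zero fun i _ => ?_
          rw [← Finset.mul_sum, h1, mul_zero]
  obtain ⟨u, hu⟩ := Matrix.linearIndependent_rows_iff_isUnit.1 hr
  exact ⟨u⁻¹.val, by rw [← hu]; simp, by rw [← hu]; simp⟩

/-- DENSE -/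
theorem dense (b : Module.Basis Γ ℤ Λ) {χ : Γ → Λ →+* ℂ} (hχ : Function.Injective χ)
    {F : (Γ → J → ℂ) → ℂ} (hF : PF F) (h : ∀ m, F (ev χ m) = 0) (z : Γ → J → ℂ) : F z = 0 := by
  classical
  obtain ⟨B, -, hB⟩ := exists_inv b χ hχ
  have h1 : PF (fun y : Γ → J → ℂ => F (fun ρ j => ∑ i, χ ρ (b i) * y i j)) :=
    hF.comp _ fun ρ j => PF.sum _ fun i _ => (PF.const _).mul (PF.var i j)
  have h2 := h1.zero_of_int (fun y => by
    have := h (fun j => ∑ i, y i j • b i)
    refine Eq.trans ?_ this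
    congr 1
    funext ρ j
    simp [ev, map_sum, zsmul_eq_mul, mul_comm]) (fun i j => ∑ σ, B i σ * z σ j)
  refine Eq.trans ?_ h2
  congr 1
  funext ρ j
  have : ∀ σ, ∑ i, χ ρ (b i) * B i σ = if ρ = σ then 1 else 0 := fun σ => by
    simpa [Matrix.mul_apply, Matrix.one_apply] using congrFun (congrFun hB ρ) σ
  simp only [Finset.mul_sum]
  rw [Finset.sum_comm]
  simp only [← mul_assoc, ← Finset.sum_mul, this]
  simp

theorem dense_eq (b : Module.Basis Γ ℤ Λ) {χ : Γ → Λ →+* ℂ} (hχ : Function.Injective χ)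
    {F G : (Γ → J → ℂ) → ℂ} (hF : PF F) (hG : PF G) (h : ∀ m, F (ev χ m) = G (ev χ m))
    (z : Γ → J → ℂ) : F z = G z :=
  sub_eq_zero.1 (dense b hχ (hF.sub hG) (fun m => sub_eq_zero.2 (h m)) z)

/-- DENSE off the zeros of the norms -/
theorem dense_off [Fintype J] (b : Module.Basis Γ ℤ Λ) {χ : Γ → Λ →+* ℂ}
    (hχ : Function.Injective χ) {F G : (Γ → J → ℂ) → ℂ} (hF : PF F) (hG : PF G)
    (h : ∀ m, (∀ j, nm χ (m j) ≠ 0) → F (ev χ m) = G (ev χ m)) (z : Γ → J → ℂ) : F z = G z := by
  have hN : PF (fun z : Γ → J → ℂ => ∏ j, ∏ ρ, z ρ j) :=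
    PF.prod _ fun j _ => PF.prod _ fun ρ _ => PF.var ρ j
  refine sub_eq_zero.1 ((hF.sub hG).zero_of_mul hN (fun _ _ => 1) (by simp) ?_ z)
  refine dense b hχ ((hF.sub hG).mul hN) fun m => ?_
  by_cases hm : ∀ j, nm χ (m j) ≠ 0
  · rw [h m hm, sub_self, zero_mul]
  · push Not at hm
    obtain ⟨j, hj⟩ := hm
    rw [Finset.prod_eq_zero (Finset.mem_univ j) hj, mul_zero]

/-- EXT: a polynomial function on a power of the lattice extends to complex arrays -/
theorem ext [Fintype J] (b : Module.Basis Γ ℤ Λ) {χ : Γ → Λ →+* ℂ} (hχ : Function.Injective χ)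
    {f : (J → Λ) → ℂ} (hf : IsPol f) : ∃ F, PF F ∧ ∀ m, f m = F (ev χ m) := by
  classical
  obtain ⟨B, hB, -⟩ := exists_inv b χ hχ
  have hr : ∀ (x : Λ) i, (b.repr x i : ℂ) = ∑ ρ, B i ρ * χ ρ x := by
    intro x i
    have h2 : ∀ ρ, χ ρ x = ∑ k, (b.repr x k : ℂ) * χ ρ (b k) := fun ρ =>
      chi_repr b (χ ρ).toAddMonoidHom x
    have h3 : ∀ k, ∑ ρ, B i ρ * χ ρ (b k) = if i = k then 1 else 0 := fun k => by
      simpa [Matrix.mul_apply, Matrix.one_apply] using congrFun (congrFun hB i) k
    calc (b.repr x i : ℂ) = ∑ k, (b.repr x k : ℂ) * ∑ ρ, B i ρ * χ ρ (b k) := by simp [h3]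
      _ = ∑ ρ, B i ρ * χ ρ x := by
        simp only [Finset.mul_sum]
        rw [Finset.sum_comm]
        refine Finset.sum_congr rfl fun ρ _ => ?_
        rw [h2 ρ, Finset.mul_sum]
        exact Finset.sum_congr rfl fun k _ => by ring
  induction hf using Algebra.adjoin_induction with
  | mem x hx =>
    obtain ⟨l, rfl⟩ := hx
    refine ⟨fun z => ∑ j, ∑ i, (∑ ρ, B i ρ * z ρ j) * l (Pi.single j (b i)),
      PF.sum _ fun j _ => PF.sum _ fun i _ =>
        (PF.sum _ fun ρ _ => (PF.const _).mul (PF.var ρ j)).mul (PF.const _), fun m => ?_⟩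
    show l m = _
    conv_lhs => rw [← Finset.univ_sum_single m]
    rw [map_sum]
    refine Finset.sum_congr rfl fun j _ => ?_
    have := chi_repr b (l.comp (AddMonoidHom.single (fun _ : J => Λ) j)) (m j)
    simp only [AddMonoidHom.comp_apply, AddMonoidHom.single_apply] at this
    rw [this]
    simp only [hr, ev]
  | algebraMap r => exact ⟨fun _ => r, PF.const r, fun _ => rfl⟩
  | add x y _ _ hx hy =>
    obtain ⟨F, hF, e⟩ := hx
    obtain ⟨G, hG, e'⟩ := hy
    exact ⟨_, hF.add hG, fun m => by simp [e, e']⟩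
  | mul x y _ _ hx hy =>
    obtain ⟨F, hF, e⟩ := hx
    obtain ⟨G, hG, e'⟩ := hy
    exact ⟨_, hF.mul hG, fun m => by simp [e, e']⟩

end lat

end Pool.Agent.Tav.Det
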