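import Mathlib

/-! The residue disc of a point: a lift of Frobenius contracts it, tangent cone, tangent maps. -/

set_option autoImplicit false

noncomputable section

namespace Pool.Agent.Tav.Disc

open MvPolynomial

variable {σ O A : Type*} [CommRing O] [CommRing A] [Algebra O A]

/-- the ideal generated by the differences of the coordinates -/
def dif (x o : σ → A) : Ideal A := Ideal.span (Set.range fun j => x j - o j)

theorem sub_mem_dif (x o : σ → A) (j : σ) : x j - o j ∈ dif x o := Ideal.subset_span ⟨j, rfl⟩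

theorem dif_le {x o : σ → A} {m : Ideal A} : dif x o ≤ m ↔ ∀ j, x j - o j ∈ m := by
  simp only [dif, Ideal.span_le, Set.range_subset_iff, SetLike.mem_coe]

theorem aeval_sub_mem (x o : σ → A) (f : MvPolynomial σ O) :
    aeval x f - aeval o f ∈ dif x o := by
  induction f using MvPolynomial.induction_on with
  | C a => simp
  | add f g hf hg =>
    have := add_mem hf hg
    rw [map_add, map_add]
    convert this using 1
    ring
  | mul_X f j hf =>
    have := add_mem (Ideal.mul_mem_right (x j) _ hf)
      (Ideal.mul_mem_left _ (aeval o f) (sub_mem_dif x o j))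
    rw [map_mul, map_mul, aeval_X, aeval_X]
    convert this using 1
    ring

theorem aeval_mem {m : Ideal A} {p : Ideal O} (hp : ∀ a ∈ p, algebraMap O A a ∈ m) (x : σ → A)
    {e : MvPolynomial σ O} (he : e ∈ p.map (C : O →+* MvPolynomial σ O)) : aeval x e ∈ m := by
  have : p.map (C : O →+* MvPolynomial σ O) ≤ m.comap (aeval x : MvPolynomial σ O →ₐ[O] A) :=
    Ideal.map_le_iff_le_comap.2 fun a ha => by simpa using hp a ha
  exact this he

theorem aeval_sub_mem_mul {m : Ideal A} {p : Ideal O} (hp : ∀ a ∈ p, algebraMap O A a ∈ m)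
    (x o : σ → A) {e : MvPolynomial σ O} (he : e ∈ p.map (C : O →+* MvPolynomial σ O)) :
    aeval x e - aeval o e ∈ m * dif x o := by
  have key : ∀ e ∈ p.map (C : O →+* MvPolynomial σ O), ∀ h : MvPolynomial σ O,
      aeval x (h * e) - aeval o (h * e) ∈ m * dif x o := by
    intro e he
    induction he using Submodule.span_induction with
    | mem e he =>
      obtain ⟨a, ha, rfl⟩ := he
      intro h
      have := Ideal.mul_mem_mul (hp a ha) (aeval_sub_mem x o h)
      rw [map_mul, map_mul, aeval_C, aeval_C]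
      convert this using 1
      ring
    | zero => simp
    | add e e' _ _ h1 h2 =>
      intro h
      have := add_mem (h1 h) (h2 h)
      rw [mul_add, map_add, map_add]
      convert this using 1
      ring
    | smul c e _ h1 =>
      intro h
      rw [smul_eq_mul, ← mul_assoc]
      exact h1 _
  simpa using key e he 1

theorem pow_sub_pow_mem {m : Ideal A} {q : ℕ} (hq : (q : A) ∈ m) {a b : A} (h : a - b ∈ m) :
    ∃ c ∈ m, a ^ q - b ^ q = c * (a - b) := by
  refine ⟨∑ i ∈ Finset.range q, a ^ i * b ^ (q - 1 - i), ?_, (Commute.geom_sum₂_mul (.all a b) q).symm⟩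
  rw [← Ideal.Quotient.eq_zero_iff_mem, map_sum]
  have hab : Ideal.Quotient.mk m a = Ideal.Quotient.mk m b := Ideal.Quotient.eq.2 h
  have h2 : ∀ i ∈ Finset.range q, Ideal.Quotient.mk m (a ^ i * b ^ (q - 1 - i)) =
      Ideal.Quotient.mk m b ^ (q - 1) := fun i hi => by
    have := Finset.mem_range.1 hi
    rw [map_mul, map_pow, map_pow, hab, ← pow_add]
    congr 1
    omega
  rw [Finset.sum_congr rfl h2, Finset.sum_const, Finset.card_range, nsmul_eq_mul,
    ← map_natCast (Ideal.Quotient.mk m), Ideal.Quotient.eq_zero_iff_mem.2 hq, zero_mul]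

/-- `G` is a chart near `o` of a self map of the zero set of `I` that fixes `o` and lifts the
`q`-Frobenius modulo `p`; points are normalised by `x i0 = 1`. -/
structure FrobAt (m : Ideal A) (p : Ideal O) (q : ℕ) (I : Ideal (MvPolynomial σ O))
    (G : σ → MvPolynomial σ O) (i0 : σ) (o : σ → A) : Prop where
  hp : ∀ a ∈ p, algebraMap O A a ∈ m
  hq : (q : A) ∈ m
  hG : ∀ i, G i * X i0 ^ q - G i0 * X i ^ q ∈ I ⊔ p.map (C : O →+* MvPolynomial σ O)
  ho : ∀ f ∈ I, aeval o f = 0
  o0 : o i0 = 1
  fix : ∀ i, aeval o (G i) = aeval o (G i0) * o i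
  unit : IsUnit (aeval o (G i0))

variable {m : Ideal A} {p : Ideal O} {q : ℕ} {I : Ideal (MvPolynomial σ O)}
  {G : σ → MvPolynomial σ O} {i0 : σ} {o : σ → A}

theorem FrobAt.pow_sub (h : FrobAt m p q I G i0 o) (i : σ) : o i ^ q - o i ∈ m := by
  obtain ⟨f, hf, e, he, hfe⟩ := Submodule.mem_sup.1 (h.hG i)
  have h1 := congrArg (aeval o) hfe
  rw [map_add, h.ho f hf] at h1
  simp only [map_sub, map_mul, map_pow, aeval_X, h.o0, one_pow, mul_one, zero_add, h.fix i] at h1
  have h2 := aeval_mem h.hp o he
  rw [h1, ← mul_sub, Ideal.unit_mul_mem_iff_mem _ h.unit] at h2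
  simpa using neg_mem h2

/-- contraction -/
theorem FrobAt.contract (h : FrobAt m p q I G i0 o) {x : σ → A} (hx : ∀ f ∈ I, aeval x f = 0)
    (x0 : x i0 = 1) (hxo : ∀ j, x j - o j ∈ m) (i : σ) :
    aeval x (G i) - aeval x (G i0) * o i ∈ m * dif x o := by
  obtain ⟨f, hf, e, he, hfe⟩ := Submodule.mem_sup.1 (h.hG i)
  have h1 := congrArg (aeval o) hfe
  have h2 := congrArg (aeval x) hfe
  rw [map_add, h.ho f hf] at h1
  rw [map_add, hx f hf] at h2
  simp only [map_sub, map_mul, map_pow, aeval_X, h.o0, x0, one_pow, mul_one, zero_add,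
    h.fix i] at h1 h2
  obtain ⟨c, hc, hc'⟩ := pow_sub_pow_mem h.hq (hxo i)
  have a1 := aeval_sub_mem_mul h.hp x o he
  have a2 := Ideal.mul_mem_mul (h.pow_sub i) (aeval_sub_mem x o (G i0))
  have a3 := Ideal.mul_mem_left _ (aeval x (G i0)) (Ideal.mul_mem_mul hc (sub_mem_dif x o i))
  have := add_mem (add_mem a1 a2) a3
  rw [h1, h2, ← hc'] at this
  convert this using 1
  ring

theorem unit_of_disc [IsLocalRing A] {x o : σ → A}
    (hxo : ∀ j, x j - o j ∈ IsLocalRing.maximalIdeal A) {g : MvPolynomial σ O}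
    (h : IsUnit (aeval o g)) : IsUnit (aeval x g) := by
  by_contra hn
  have h1 : aeval x g ∈ IsLocalRing.maximalIdeal A := hn
  have h2 := dif_le.2 hxo (aeval_sub_mem x o g)
  have h3 := sub_mem h1 h2
  rw [sub_sub_cancel] at h3
  exact h3 h

/-- the image point is closer to `o` -/
theorem FrobAt.step [IsLocalRing A] (h : FrobAt (IsLocalRing.maximalIdeal A) p q I G i0 o)
    {x y : σ → A} (hx : ∀ f ∈ I, aeval x f = 0) (x0 : x i0 = 1)
    (hxo : ∀ j, x j - o j ∈ IsLocalRing.maximalIdeal A)
    (hy : ∀ i, aeval x (G i) = aeval x (G i0) * y i) :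
    dif y o ≤ IsLocalRing.maximalIdeal A * dif x o := by
  refine dif_le.2 fun i => ?_
  have := h.contract hx x0 hxo i
  rwa [hy i, ← mul_sub, Ideal.unit_mul_mem_iff_mem _ (unit_of_disc hxo h.unit)] at this

theorem eq_of_dif_le [IsLocalRing A] [Finite σ] {x o : σ → A}
    (h : dif x o ≤ IsLocalRing.maximalIdeal A * dif x o) : x = o := by
  have h0 : dif x o = ⊥ :=
    Submodule.eq_bot_of_le_smul_of_le_jacobson_bot _ _
      (Submodule.fg_span (Set.finite_range _)) h (IsLocalRing.maximalIdeal_le_jacobson _)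
  funext j
  have := sub_mem_dif x o j
  rwa [h0, Ideal.mem_bot, sub_eq_zero] at this

/-- the only fixed point in the disc is `o` -/
theorem FrobAt.fix_eq [IsLocalRing A] [Finite σ]
    (h : FrobAt (IsLocalRing.maximalIdeal A) p q I G i0 o) {x : σ → A}
    (hx : ∀ f ∈ I, aeval x f = 0) (x0 : x i0 = 1)
    (hxo : ∀ j, x j - o j ∈ IsLocalRing.maximalIdeal A)
    (hy : ∀ i, aeval x (G i) = aeval x (G i0) * x i) : x = o :=
  eq_of_dif_le (h.step hx x0 hxo hy)

/-- the only periodic point in the disc is `o` -/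
theorem FrobAt.per_eq [IsLocalRing A] [Finite σ]
    (h : FrobAt (IsLocalRing.maximalIdeal A) p q I G i0 o) {x : ℕ → σ → A}
    (hx : ∀ n, ∀ f ∈ I, aeval (x n) f = 0) (x0 : ∀ n, x n i0 = 1)
    (hxo : ∀ j, x 0 j - o j ∈ IsLocalRing.maximalIdeal A)
    (hy : ∀ n i, aeval (x n) (G i) = aeval (x n) (G i0) * x (n + 1) i) {s : ℕ}
    (hs : x (s + 1) = x 0) : x 0 = o := by
  have key : ∀ n, dif (x n) o ≤ dif (x 0) o := by
    intro n
    induction n with
    | zero => exact le_rfl
    | succ n ih =>
      exact (h.step (hx n) (x0 n) (dif_le.1 (ih.trans (dif_le.2 hxo))) (hy n)).trans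
        (Ideal.mul_le_right.trans ih)
  have := h.step (hx s) (x0 s) (dif_le.1 ((key s).trans (dif_le.2 hxo))) (hy s)
  rw [hs] at this
  exact eq_of_dif_le (this.trans (Ideal.mul_mono_right (key s)))

/-! tangent vectors -/

variable [Fintype σ]

/-- derivative of `f` at `o` in the direction `v` -/
def tng (o v : σ → A) (f : MvPolynomial σ O) : A := ∑ j, aeval o (pderiv j f) * v j

theorem tng_add (o v : σ → A) (f g : MvPolynomial σ O) :
    tng o v (f + g) = tng o v f + tng o v g := by
  simp only [tng, map_add, add_mul, Finset.sum_add_distrib]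

theorem tng_sub (o v : σ → A) (f g : MvPolynomial σ O) :
    tng o v (f - g) = tng o v f - tng o v g := by
  simp only [tng, map_sub, sub_mul, Finset.sum_sub_distrib]

theorem tng_mul (o v : σ → A) (f g : MvPolynomial σ O) :
    tng o v (f * g) = aeval o f * tng o v g + aeval o g * tng o v f := by
  simp only [tng, Derivation.leibniz, smul_eq_mul, map_add, map_mul, Finset.mul_sum,
    ← Finset.sum_add_distrib]
  exact Finset.sum_congr rfl fun j _ => by ring

theorem tng_C (o v : σ → A) (a : O) : tng o v (C a) = 0 := by simp [tng]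

theorem tng_X (o v : σ → A) (i : σ) : tng o v (X i : MvPolynomial σ O) = v i := by
  classical
  simp [tng, pderiv_X, Pi.single_apply]

theorem tng_X_pow (o v : σ → A) (i : σ) (n : ℕ) :
    tng o v (X i ^ n : MvPolynomial σ O) = n * (o i ^ (n - 1) * v i) := by
  classical
  simp [tng, pderiv_X, Pi.single_apply, apply_ite (aeval o), mul_assoc]

theorem tng_smul (o v : σ → A) (c : A) (f : MvPolynomial σ O) :
    tng o (c • v) f = c * tng o v f := by
  simp only [tng, Pi.smul_apply, smul_eq_mul, Finset.mul_sum]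
  exact Finset.sum_congr rfl fun j _ => by ring

theorem tng_map {B : Type*} [CommRing B] [Algebra O B] (φ : A →ₐ[O] B) (o v : σ → A)
    (f : MvPolynomial σ O) : φ (tng o v f) = tng (fun j => φ (o j)) (fun j => φ (v j)) f := by
  simp only [tng, map_sum, map_mul, comp_aeval_apply]

theorem tng_mem (hp : ∀ a ∈ p, algebraMap O A a ∈ m) (o v : σ → A) {e : MvPolynomial σ O}
    (he : e ∈ p.map (C : O →+* MvPolynomial σ O)) : tng o v e ∈ m := by
  induction he using Submodule.span_induction with
  | mem e he =>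
    obtain ⟨a, -, rfl⟩ := he
    rw [tng_C]
    exact zero_mem _
  | zero => simp [tng]
  | add e e' _ _ h1 h2 =>
    rw [tng_add]
    exact add_mem h1 h2
  | smul c e he h1 =>
    rw [smul_eq_mul, tng_mul]
    exact add_mem (Ideal.mul_mem_left _ _ h1) (Ideal.mul_mem_right _ _ (aeval_mem hp o he))

/-- the differential of a lift of Frobenius vanishes modulo `m` -/
theorem FrobAt.tng_mem (h : FrobAt m p q I G i0 o) {v : σ → A} (hv : ∀ f ∈ I, tng o v f ∈ m)
    (i : σ) : tng o v (G i) - o i * tng o v (G i0) ∈ m := by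
  obtain ⟨f, hf, e, he, hfe⟩ := Submodule.mem_sup.1 (h.hG i)
  have h1 := add_mem (hv f hf) (Disc.tng_mem h.hp o v he)
  rw [← tng_add, hfe, tng_sub, tng_mul, tng_mul, tng_X_pow, tng_X_pow] at h1
  simp only [map_pow, aeval_X, h.o0, one_pow, one_mul] at h1
  have := add_mem (add_mem h1 (Ideal.mul_mem_right (tng o v (G i0)) _ (h.pow_sub i)))
    (Ideal.mul_mem_right (aeval o (G i0) * (o i ^ (q - 1) * v i) - aeval o (G i) * v i0) _ h.hq)
  convert this using 1
  ring

/-- Taylor expansion to first order -/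
theorem taylor (o v : σ → A) (t : A) (f : MvPolynomial σ O) :
    ∃ r, aeval (fun j => o j + t * v j) f = aeval o f + t * tng o v f + t ^ 2 * r := by
  induction f using MvPolynomial.induction_on with
  | C a => exact ⟨0, by simp [tng_C]⟩
  | add f g hf hg =>
    obtain ⟨r, hr⟩ := hf
    obtain ⟨s, hs⟩ := hg
    exact ⟨r + s, by rw [map_add, map_add, hr, hs, tng_add]; ring⟩
  | mul_X f j hf =>
    obtain ⟨r, hr⟩ := hf
    exact ⟨tng o v f * v j + r * (o j + t * v j), by
      rw [map_mul, map_mul, hr, tng_mul, tng_X, aeval_X, aeval_X]; ring⟩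

/-- tangent cone: a second point of the disc gives a primitive vector killed, modulo the maximal
ideal, by the differential of every function that has the same value at both points -/
theorem cone [IsDomain A] [ValuationRing A] {x o : σ → A}
    (hxo : ∀ j, x j - o j ∈ IsLocalRing.maximalIdeal A) (hne : x ≠ o) :
    ∃ (t : A) (v : σ → A), t ≠ 0 ∧ t ∈ IsLocalRing.maximalIdeal A ∧ (∃ j, v j = 1) ∧
      x = fun j => o j + t * v j := by
  classical
  obtain ⟨j0, hj0⟩ := Function.ne_iff.1 hne
  obtain ⟨j, -, hj⟩ := Finset.exists_max_image Finset.univ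
    (fun j => ValuationRing.valuation A (FractionRing A) (algebraMap _ _ (x j - o j)))
    ⟨j0, Finset.mem_univ _⟩
  have hd : ∀ i, x j - o j ∣ x i - o i := fun i => by
    obtain ⟨c, hc⟩ := (ValuationRing.mem_integer_iff A (FractionRing A) _).1
      (show algebraMap A (FractionRing A) (x i - o i) / algebraMap A _ (x j - o j) ∈
        (ValuationRing.valuation A (FractionRing A)).integer from by
          rw [Valuation.mem_integer_iff, map_div₀]
          exact div_le_one_of_le₀ (hj i (Finset.mem_univ _)) zero_le)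
    by_cases h0 : x j - o j = 0
    · have := hj i (Finset.mem_univ _)
      rw [h0, map_zero, map_zero, le_zero_iff, map_eq_zero,
        map_eq_zero_iff _ (IsFractionRing.injective A _)] at this
      rw [this]
      exact dvd_zero _
    · refine ⟨c, IsFractionRing.injective A (FractionRing A) ?_⟩
      rw [map_mul, hc, mul_div_cancel₀]
      rwa [Ne, map_eq_zero_iff _ (IsFractionRing.injective A _)]
  choose v hv using hd
  have ht : x j - o j ≠ 0 := fun h0 => hj0 (by
    have := hv j0
    rwa [h0, zero_mul, sub_eq_zero] at this)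
  refine ⟨x j - o j, v, ht, hxo j, ⟨j, mul_left_cancel₀ ht (by rw [← hv j, mul_one])⟩, ?_⟩
  funext i
  rw [← hv i]
  ring

theorem tng_mem_of_eq [IsDomain A] {o v : σ → A} {t : A} (ht : t ≠ 0) (htm : t ∈ m)
    {f : MvPolynomial σ O} (h : aeval (fun j => o j + t * v j) f = aeval o f) :
    tng o v f ∈ m := by
  obtain ⟨r, hr⟩ := taylor o v t f
  have : tng o v f = t * (-r) := mul_left_cancel₀ ht (by linear_combination h - hr)
  rw [this]
  exact Ideal.mul_mem_right _ _ htm

theorem tng_map_mem_of_eq [IsDomain A] {o v : σ → A} {t : A} (ht : t ≠ 0) (htm : t ∈ m)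
    {f g : MvPolynomial σ O} {c : A} (h0 : aeval o f = aeval o g * c)
    (h : aeval (fun j => o j + t * v j) f = aeval (fun j => o j + t * v j) g * c) :
    tng o v f - c * tng o v g ∈ m := by
  obtain ⟨r, hr⟩ := taylor o v t f
  obtain ⟨s, hs⟩ := taylor o v t g
  have : tng o v f - c * tng o v g = t * (c * s - r) :=
    mul_left_cancel₀ ht (by linear_combination h - hr + c * hs - h0)
  rw [this]
  exact Ideal.mul_mem_right _ _ htm

/-! eigenvalues on the tangent space -/

section Eig

variable {K : Type*} [Field K] (R : ValuationSubring K)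

/-- a nonzero vector over `K` is a multiple of a vector over `R` with a coordinate `1` -/
theorem exists_prim {w : σ → K} (hw : w ≠ 0) :
    ∃ (c : K) (v : σ → R), c ≠ 0 ∧ (∃ j, v j = 1) ∧ w = fun j => c * v j := by
  obtain ⟨j0, hj0⟩ := Function.ne_iff.1 hw
  obtain ⟨j, -, hj⟩ := Finset.exists_max_image Finset.univ (fun j => R.valuation (w j))
    ⟨j0, Finset.mem_univ _⟩
  have h0 : w j ≠ 0 := fun h => hj0 (by
    have := hj j0 (Finset.mem_univ _)
    rwa [h, map_zero, le_zero_iff, map_eq_zero] at this)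
  refine ⟨w j, fun i => ⟨w i / w j, (R.valuation_le_one_iff _).1 ?_⟩, h0,
    ⟨j, Subtype.ext (div_self h0)⟩, funext fun i => (mul_div_cancel₀ _ h0).symm⟩
  rw [map_div₀]
  exact div_le_one_of_le₀ (hj i (Finset.mem_univ _)) zero_le

variable {R} [Algebra O K] [Algebra O R] [IsScalarTower O R K]

omit [Fintype σ] in
theorem aeval_coe (o : σ → R) (f : MvPolynomial σ O) :
    aeval (fun j => (o j : K)) f = ((aeval o f : R) : K) :=
  (comp_aeval_apply (IsScalarTower.toAlgHom O R K) (f := o) f).symm

theorem tng_coe (o v : σ → R) (f : MvPolynomial σ O) :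
    tng (fun j => (o j : K)) (fun j => (v j : K)) f = ((tng o v f : R) : K) :=
  (tng_map (IsScalarTower.toAlgHom O R K) o v f).symm

theorem tng_coe_mul (o v : σ → R) (c : K) (f : MvPolynomial σ O) :
    tng (fun j => (o j : K)) (fun j => c * (v j : K)) f = c * ((tng o v f : R) : K) := by
  rw [← tng_coe, ← tng_smul]
  rfl

/-- an eigenvalue of the differential of a map with a chart over `O` is integral -/
theorem eig_int {o : σ → R} (hu : IsUnit (aeval o (G i0))) {w : σ → K} (hw : w ≠ 0) {l : K}
    (hl : ∀ i, tng (fun j => (o j : K)) w (G i) - o i * tng (fun j => (o j : K)) w (G i0) =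
      aeval (fun j => (o j : K)) (G i0) * (l * w i)) :
    ∃ (c : K) (v : σ → R) (r : R), c ≠ 0 ∧ (∃ j, v j = 1) ∧ (w = fun j => c * v j) ∧ l = r ∧
      ∀ i, tng o v (G i) - o i * tng o v (G i0) = aeval o (G i0) * (r * v i) := by
  obtain ⟨c, v, hc, ⟨j, hj⟩, rfl⟩ := exists_prim R hw
  obtain ⟨u, hu⟩ := hu
  have h1 : ∀ i, ((tng o v (G i) - o i * tng o v (G i0) : R) : K) =
      ((u : R) : K) * (l * v i) := fun i => by
    have := hl i
    rw [tng_coe_mul, tng_coe_mul, aeval_coe, ← hu] at this
    push_cast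
    exact mul_left_cancel₀ hc (by linear_combination this)
  have h2 : l = ((↑u⁻¹ * (tng o v (G j) - o j * tng o v (G i0)) : R) : K) := by
    rw [MulMemClass.coe_mul, h1, hj, ← mul_assoc, ← MulMemClass.coe_mul, Units.inv_mul]
    simp
  refine ⟨c, v, _, hc, ⟨j, hj⟩, rfl, h2, fun i => Subtype.ext ?_⟩
  rw [h1, ← hu, MulMemClass.coe_mul, MulMemClass.coe_mul, ← h2]

/-- the eigenvalues of the differential of a lift of Frobenius are non-units -/
theorem FrobAt.eig_lt {o : σ → R} (h : FrobAt (IsLocalRing.maximalIdeal R) p q I G i0 o)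
    {w : σ → K} (hw : w ≠ 0) (hI : ∀ f ∈ I, tng (fun j => (o j : K)) w f = 0) {l : K}
    (hl : ∀ i, tng (fun j => (o j : K)) w (G i) - o i * tng (fun j => (o j : K)) w (G i0) =
      aeval (fun j => (o j : K)) (G i0) * (l * w i)) : R.valuation l < 1 := by
  obtain ⟨c, v, r, hc, ⟨j, hj⟩, rfl, rfl, h3⟩ := eig_int h.unit hw hl
  have h4 := h.tng_mem (v := v) (fun f hf => by
    have := hI f hf
    rw [tng_coe_mul, mul_eq_zero, or_iff_right hc, ZeroMemClass.coe_eq_zero] at this
    rw [this]
    exact zero_mem _) j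
  rw [h3, hj, mul_one, Ideal.unit_mul_mem_iff_mem _ h.unit] at h4
  exact (R.valuation_lt_one_iff r).1 h4

theorem hmv {α β : Type*} [Fintype β] (M : Matrix α β A) (u : β → A) (hu : ∀ b, u b ∈ m) (a : α) :
    M.mulVec u a ∈ m :=
  Ideal.sum_mem _ fun b _ => Ideal.mul_mem_left _ _ (hu b)

omit [Algebra O K] [Algebra O R] [IsScalarTower O R K] in
theorem hco {α β : Type*} [Fintype β] (M : Matrix α β R) (u : β → R) :
    (M.map (↑) : Matrix α β K).mulVec (fun b => (u b : K)) = fun a => (M.mulVec u a : K) :=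
  funext fun a => (RingHom.map_mulVec R.subtype M u a).symm

/-- linear algebra at a smooth point: `B` is the Jacobian matrix, `D` the tangent map -/
theorem no_tangent {κ Φ : Type*} [Fintype κ] [Fintype Φ] [DecidableEq κ]
    (B : Matrix κ σ R) (E : Matrix σ κ R) (hBE : B * E = 1) (D : Matrix σ σ R)
    (w : Φ → σ → K) (hw : LinearIndependent K w)
    (hc : Fintype.card σ ≤ Fintype.card Φ + Fintype.card κ)
    (hB : ∀ φ, (B.map (↑) : Matrix κ σ K).mulVec (w φ) = 0) (l : Φ → R) (hl : ∀ φ, IsUnit (l φ))
    (hD : ∀ φ, (D.map (↑) : Matrix σ σ K).mulVec (w φ) = (l φ : K) • w φ) {v : σ → R}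
    (hBv : ∀ a, B.mulVec v a ∈ IsLocalRing.maximalIdeal R)
    (hDv : ∀ i, D.mulVec v i ∈ IsLocalRing.maximalIdeal R) (i : σ) :
    v i ∈ IsLocalRing.maximalIdeal R := by
  classical
  set u : σ → R := v - E.mulVec (B.mulVec v) with hu
  have hBu : B.mulVec u = 0 := by
    rw [hu, Matrix.mulVec_sub, Matrix.mulVec_mulVec, Matrix.mulVec_mulVec, hBE, Matrix.one_mul,
      sub_self]
  have hDu : ∀ i, D.mulVec u i ∈ IsLocalRing.maximalIdeal R := fun i => by
    rw [hu, Matrix.mulVec_sub]
    exact sub_mem (hDv i) (hmv D _ (hmv E _ hBv) i)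
  have hsp : Submodule.span K (Set.range w) =
      LinearMap.ker (B.map (↑) : Matrix κ σ K).mulVecLin := by
    refine Submodule.eq_of_le_of_finrank_le (Submodule.span_le.2 ?_) ?_
    · rintro _ ⟨φ, rfl⟩
      exact hB φ
    · have h1 := LinearMap.finrank_range_add_finrank_ker (B.map (↑) : Matrix κ σ K).mulVecLin
      have h2 : LinearMap.range (B.map (↑) : Matrix κ σ K).mulVecLin = ⊤ := by
        refine LinearMap.range_eq_top.2 fun y => ⟨(E.map (↑) : Matrix σ κ K).mulVec y, ?_⟩
        have h3 : (B.map (↑) : Matrix κ σ K) * (E.map (↑) : Matrix σ κ K) = 1 := by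
          have := congrArg (fun M : Matrix κ κ R => M.map R.subtype) hBE
          simp only [Matrix.map_mul] at this
          rwa [Matrix.map_one _ (map_zero _) (map_one _)] at this
        rw [Matrix.mulVecLin_apply, Matrix.mulVec_mulVec, h3, Matrix.one_mulVec]
      rw [h2, finrank_top, Module.finrank_fintype_fun_eq_card,
        Module.finrank_fintype_fun_eq_card] at h1
      rw [finrank_span_eq_card hw]
      omega
  have key : ∀ (s : Finset Φ) (u : σ → R),
      (fun j => (u j : K)) ∈ Submodule.span K (w '' s) →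
      (∀ i, D.mulVec u i ∈ IsLocalRing.maximalIdeal R) →
      ∀ i, u i ∈ IsLocalRing.maximalIdeal R := by
    intro s
    induction s using Finset.induction_on with
    | empty =>
      intro u hu _ i
      have : (u i : K) = 0 := by simpa using congrFun (show (fun j => (u j : K)) = 0 by simpa using hu) i
      rw [ZeroMemClass.coe_eq_zero.1 this]
      exact zero_mem _
    | insert φ s hφ ih =>
      intro u hu hD' i
      have h1 : ∀ y ∈ Submodule.span K (w '' (insert φ s : Finset Φ)),
          (D.map (↑) : Matrix σ σ K).mulVec y - (l φ : K) • y ∈ Submodule.span K (w '' s) := by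
        intro y hy
        induction hy using Submodule.span_induction with
        | mem y hy =>
          obtain ⟨ψ, hψ, rfl⟩ := hy
          rw [hD, ← sub_smul]
          rcases Finset.mem_insert.1 hψ with rfl | hψ
          · simp
          · exact Submodule.smul_mem _ _ (Submodule.subset_span ⟨ψ, hψ, rfl⟩)
        | zero => simp
        | add a b _ _ ha hb =>
          have := add_mem ha hb
          rw [Matrix.mulVec_add, smul_add]
          convert this using 1
          abel
        | smul c a _ ha =>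
          have := Submodule.smul_mem _ c ha
          rwa [Matrix.mulVec_smul, smul_comm _ c, ← smul_sub]
      have h2 := ih (D.mulVec u - l φ • u) (by
        have := h1 _ hu
        rw [hco] at this
        convert this using 1
        rfl) (fun i => by
          rw [Matrix.mulVec_sub, Matrix.mulVec_smul]
          exact sub_mem (hmv D _ hD' i) (Ideal.mul_mem_left _ _ (hD' i))) i
      have h3 := sub_mem (hD' i) h2
      rw [Pi.sub_apply, sub_sub_cancel, Pi.smul_apply, smul_eq_mul,
        Ideal.unit_mul_mem_iff_mem _ (hl φ)] at h3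
      exact h3
  have h5 := key Finset.univ u (by
    rw [Finset.coe_univ, Set.image_univ, hsp, LinearMap.mem_ker, Matrix.mulVecLin_apply, hco, hBu]
    rfl) hDu i
  have h6 := add_mem h5 (hmv E _ hBv i)
  rwa [hu, Pi.sub_apply, sub_add_cancel] at h6

/-- a map whose tangent eigenvalues at a smooth point `o` are units sends no other point of the
disc to `o`. `f` are equations with a Jacobian of full rank (one of them may be `X i0`). -/
theorem disc_inj {κ Φ : Type*} [Fintype κ] [Fintype Φ] [DecidableEq κ] {o : σ → R}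
    (f : κ → MvPolynomial σ O) (E : Matrix σ κ R)
    (hE : Matrix.of (fun a j => aeval o (pderiv j (f a))) * E = 1)
    (fix : ∀ i, aeval o (G i) = aeval o (G i0) * o i) (hu : IsUnit (aeval o (G i0)))
    (w : Φ → σ → K) (hw : LinearIndependent K w)
    (hc : Fintype.card σ ≤ Fintype.card Φ + Fintype.card κ)
    (hf : ∀ φ a, tng (fun j => (o j : K)) (w φ) (f a) = 0) (l : Φ → K)
    (hl1 : ∀ φ, R.valuation (l φ) = 1)
    (hl : ∀ φ i, tng (fun j => (o j : K)) (w φ) (G i) -
      o i * tng (fun j => (o j : K)) (w φ) (G i0) =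
      aeval (fun j => (o j : K)) (G i0) * (l φ * w φ i))
    {x : σ → R} (hxo : ∀ j, x j - o j ∈ IsLocalRing.maximalIdeal R)
    (hx : ∀ a, aeval x (f a) = aeval o (f a))
    (hG : ∀ i, aeval x (G i) = aeval x (G i0) * o i) : x = o := by
  by_contra hne
  obtain ⟨t, v, ht, htm, ⟨j, hj⟩, rfl⟩ := cone hxo hne
  have := no_tangent _ E hE
    (Matrix.of fun i j => aeval o (pderiv j (G i)) - o i * aeval o (pderiv j (G i0))) w hw hc
    (fun φ => funext fun a => ?_)
    (fun φ => aeval o (G i0) * ⟨l φ, (R.valuation_le_one_iff _).1 (hl1 φ).le⟩)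
    (fun φ => hu.mul ((R.valuation_eq_one_iff _).2 (hl1 φ))) (fun φ => funext fun i => ?_) (v := v)
    (fun a => tng_mem_of_eq ht htm (hx a)) (fun i => ?_) j
  · rw [hj] at this
    exact this isUnit_one
  · rw [Pi.zero_apply, ← hf φ a]
    simp only [tng, aeval_coe, Matrix.mulVec, dotProduct, Matrix.map_apply, Matrix.of_apply]
  · have := hl φ i
    simp only [tng, aeval_coe, Finset.mul_sum, ← Finset.sum_sub_distrib] at this
    simp only [Matrix.mulVec, dotProduct, Matrix.map_apply, Matrix.of_apply, Pi.smul_apply,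
      smul_eq_mul]
    push_cast
    rw [mul_assoc, ← this]
    exact Finset.sum_congr rfl fun j _ => by ring
  · have := tng_map_mem_of_eq ht htm (fix i) (hG i)
    simp only [tng, Finset.mul_sum, ← Finset.sum_sub_distrib] at this
    simp only [Matrix.mulVec, dotProduct, Matrix.of_apply]
    convert this using 2
    ring

end Eig

end Pool.Agent.Tav.Disc
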