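import Pool.Agent.P.MP_2ce3e7_ag.Tav.Defs
import Pool.Agent.P.MP_2ce3e7_ag.Tav.DetC

/-! The ring of diagonal endomorphisms, its characters, and its action on the special fibre. -/

set_option autoImplicit false

noncomputable section

namespace Pool.Agent.Tav

open Set Function Module

section ring
variable {g : ℕ} (Λ : Submodule ℤ (Fin g → ℂ))

theorem mem_EnR {a : Fin g → ℂ} : a ∈ EnR Λ ↔ a ∈ En Λ := Iff.rfl

@[simp] theorem chE_inl (i : Fin g) (a : EnR Λ) : chE Λ (.inl i) a = a.1 i := rfl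

@[simp] theorem chE_inr (i : Fin g) (a : EnR Λ) : chE Λ (.inr i) a = star (a.1 i) := rfl

theorem chE_eq (ρ : Fin g ⊕ Fin g) (a : EnR Λ) : chE Λ ρ a = Sum.elim a.1 (star a.1) ρ := by
  cases ρ <;> rfl

theorem nm_chE (a : EnR Λ) : Det.nm (chE Λ) a = ∏ i, a.1 i * star (a.1 i) := by
  simp [Det.nm, Fintype.prod_sum_type, Finset.prod_mul_distrib]

theorem nm_chE_ne (a : EnR Λ) : Det.nm (chE Λ) a ≠ 0 ↔ ∀ i, a.1 i ≠ 0 := by
  simp [nm_chE, Finset.prod_ne_zero_iff]

theorem chE_inj (h : ∃ θ ∈ En Λ, Injective (Sum.elim θ (star θ))) : Injective (chE Λ) := by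
  obtain ⟨θ, hθ, hi⟩ := h
  intro ρ ρ' e
  apply hi
  have := DFunLike.congr_fun e ⟨θ, hθ⟩
  rwa [chE_eq, chE_eq] at this

variable [DiscreteTopology Λ] [hl : IsZLattice ℝ Λ]

theorem exists_generic : ∃ l ∈ Λ, ∀ i, l i ≠ 0 := by
  by_contra hn
  push Not at hn
  let P : Fin g → Submodule ℤ Λ := fun i =>
    LinearMap.ker ((LinearMap.proj (R := ℤ) (φ := fun _ => ℂ) i).comp Λ.subtype)
  have hc : ⋃ i ∈ (Finset.univ : Finset (Fin g)), (P i : Set Λ) = univ := by
    refine eq_univ_of_forall fun l => ?_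
    obtain ⟨i, hi⟩ := hn l.1 l.2
    exact mem_biUnion (Finset.mem_coe.2 (Finset.mem_univ i)) hi
  obtain ⟨k, -, hk⟩ := Submodule.exists_finiteIndex_of_cover hc
  have h0 : ∀ l ∈ Λ, l k = 0 := by
    intro l hl
    have h1 : ((P k).toAddSubgroup.index • (⟨l, hl⟩ : Λ)).1 k = 0 :=
      AddSubgroup.nsmul_index_mem (P k).toAddSubgroup ⟨l, hl⟩
    have h2 : ((P k).toAddSubgroup.index : ℂ) ≠ 0 := by exact_mod_cast hk.index_ne_zero
    simpa [h2] using h1
  have h3 : Submodule.span ℝ (Λ : Set (Fin g → ℂ)) ≤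
      LinearMap.ker (LinearMap.proj (R := ℝ) (φ := fun _ => ℂ) k) :=
    Submodule.span_le.2 fun l hl => h0 l hl
  rw [hl.span_top] at h3
  simpa using h3 (Submodule.mem_top (x := fun _ => (1 : ℂ)))

theorem EnR.finite_le : Module.Finite ℤ (EnR Λ) ∧ finrank ℤ (EnR Λ) ≤ g + g := by
  obtain ⟨l, hl, h0⟩ := exists_generic Λ
  let f : EnR Λ →ₗ[ℤ] Λ := AddMonoidHom.toIntLinearMap
    { toFun := fun a => ⟨a.1 * l, a.2 l hl⟩
      map_zero' := Subtype.ext (zero_mul l)
      map_add' := fun a b => Subtype.ext (add_mul a.1 b.1 l) }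
  have hf : Injective f := by
    intro a b e
    ext i
    exact mul_right_cancel₀ (h0 i) (congrFun (congrArg Subtype.val e) i)
  refine ⟨Module.Finite.of_injective f hf, (LinearMap.finrank_le_finrank_of_injective hf).trans ?_⟩
  rw [ZLattice.rank ℝ Λ, finrank_real_of_complex]
  simp [two_mul]

theorem EnR.free : Module.Free ℤ (EnR Λ) := by
  have := (EnR.finite_le Λ).1
  have : Module.IsTorsionFree ℤ (EnR Λ) :=
    Function.Injective.moduleIsTorsionFree (fun a : EnR Λ => a.1) Subtype.val_injective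
      fun _ _ => rfl
  exact Module.free_of_finite_type_torsion_free'

theorem exists_basis (h : ∃ θ ∈ En Λ, Injective (Sum.elim θ (star θ))) :
    Nonempty (Basis (Fin g ⊕ Fin g) ℤ (EnR Λ)) := by
  obtain ⟨θ, hθ, hi⟩ := h
  obtain ⟨hf, hle⟩ := EnR.finite_le Λ
  have hli : LinearIndependent ℤ fun k : Fin (g + g) => (⟨θ, hθ⟩ : EnR Λ) ^ (k : ℕ) := by
    refine Fintype.linearIndependent_iff.2 fun c hc k => ?_
    have := Matrix.eq_zero_of_forall_index_sum_mul_pow_eq_zero (v := fun k => (c k : ℂ))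
      (hi.comp finSumFinEquiv.symm.injective) fun j => by
        have := congrArg (chE Λ (finSumFinEquiv.symm j)) hc
        rw [map_sum, map_zero] at this
        refine Eq.trans (Finset.sum_congr rfl fun k _ => ?_) this
        rw [map_zsmul, map_pow, zsmul_eq_mul, chE_eq]
        rfl
    have h1 : (c k : ℂ) = 0 := congrFun this k
    exact_mod_cast h1
  have hge := hli.fintype_card_le_finrank
  rw [Fintype.card_fin] at hge
  have : Module.Free ℤ (EnR Λ) := EnR.free Λ
  exact ⟨(Module.finBasisOfFinrankEq ℤ (EnR Λ) (le_antisymm hle hge)).reindex finSumFinEquiv.symm⟩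

end ring

section red
variable {R Ω : Type} [CommRing R] [Field Ω] (r : R →+* Ω) {T B : Type} (red : T → B)

/-- every member of `M` reduces to a member of `M'`, up to the factor `m` -/
def Rd (m : T → Ω) (M : Submodule R (T → R)) (M' : Submodule Ω (B → Ω)) : Prop :=
  ∀ f ∈ M, ∃ f' ∈ M', ∀ t, f' (red t) = m t * r (f t)

variable {r red}

theorem Rd.crd {σ : Type} {x : T → σ → R} {p : B → σ → Ω} {m : T → Ω}
    (h : ∀ t l, p (red t) l = m t * r (x t l)) : Rd r red m (crd x) (crd p) := by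
  intro f hf
  induction hf using Submodule.span_induction with
  | mem f hf =>
    obtain ⟨l, rfl⟩ := hf
    exact ⟨_, Submodule.subset_span ⟨l, rfl⟩, fun t => h t l⟩
  | zero => exact ⟨0, Submodule.zero_mem _, fun t => by simp⟩
  | add f f' _ _ h1 h2 =>
    obtain ⟨u, hu, e⟩ := h1
    obtain ⟨v, hv, e'⟩ := h2
    exact ⟨u + v, Submodule.add_mem _ hu hv, fun t => by simp [e, e', mul_add]⟩
  | smul c f _ h1 =>
    obtain ⟨u, hu, e⟩ := h1
    exact ⟨r c • u, Submodule.smul_mem _ _ hu, fun t => by simp [e, mul_left_comm]⟩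

theorem Rd.one : Rd r red 1 1 1 := by
  intro f hf
  obtain ⟨c, rfl⟩ := Submodule.mem_one.1 hf
  exact ⟨algebraMap _ _ (r c), Submodule.mem_one.2 ⟨_, rfl⟩, fun t => by simp⟩

theorem Rd.mul {m n : T → Ω} {M N : Submodule R (T → R)} {M' N' : Submodule Ω (B → Ω)}
    (h : Rd r red m M M') (h' : Rd r red n N N') : Rd r red (m * n) (M * N) (M' * N') := by
  intro f hf
  refine Submodule.mul_induction_on hf (fun a ha b hb => ?_) fun a b h1 h2 => ?_
  · obtain ⟨u, hu, e⟩ := h a ha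
    obtain ⟨v, hv, e'⟩ := h' b hb
    exact ⟨u * v, Submodule.mul_mem_mul hu hv, fun t => by
      simp only [Pi.mul_apply, e, e', map_mul]; ring⟩
  · obtain ⟨u, hu, e⟩ := h1
    obtain ⟨v, hv, e'⟩ := h2
    exact ⟨u + v, Submodule.add_mem _ hu hv, fun t => by simp [e, e', mul_add]⟩

theorem Rd.pow {m : T → Ω} {M : Submodule R (T → R)} {M' : Submodule Ω (B → Ω)}
    (h : Rd r red m M M') (e : ℕ) : Rd r red (m ^ e) (M ^ e) (M' ^ e) := by
  induction e with
  | zero => simpa only [pow_zero] using Rd.one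
  | succ e ih => simpa only [pow_succ] using ih.mul h

theorem Rd.prod {ι : Type} (s : Finset ι) {m : ι → T → Ω} {M : ι → Submodule R (T → R)}
    {M' : ι → Submodule Ω (B → Ω)} (h : ∀ i, Rd r red (m i) (M i) (M' i)) :
    Rd r red (∏ i ∈ s, m i) (∏ i ∈ s, M i) (∏ i ∈ s, M' i) := by
  classical
  induction s using Finset.induction_on with
  | empty => simpa only [Finset.prod_empty] using Rd.one
  | insert a s ha ih => simpa only [Finset.prod_insert ha] using (h a).mul ih

/-- a relation `c * y l ∈ M` reduces -/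
theorem Rd.chart (hs : Surjective red) {m : T → Ω} {M : Submodule R (T → R)}
    {M' : Submodule Ω (B → Ω)} (h : Rd r red m M M') {τ : Type} {y : T → τ → R} {q : B → τ → Ω}
    {n : T → Ω} (hn : ∀ t, n t ≠ 0) (hq : ∀ t l, q (red t) l = n t * r (y t l)) {c : T → R}
    (hc : ∀ l, (c * fun t => y t l) ∈ M) :
    ∃ c' : B → Ω, (∀ b, c' b = m (surjInv hs b) * r (c (surjInv hs b)) * (n (surjInv hs b))⁻¹) ∧
      ∀ l, (c' * fun b => q b l) ∈ M' := by
  refine ⟨_, fun _ => rfl, fun l => ?_⟩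
  obtain ⟨u, hu, e⟩ := h _ (hc l)
  have : u = (fun b => m (surjInv hs b) * r (c (surjInv hs b)) * (n (surjInv hs b))⁻¹) *
      fun b => q b l := by
    funext b
    have h1 := e (surjInv hs b)
    have h2 := hq (surjInv hs b) l
    rw [surjInv_eq hs] at h1 h2
    have h3 := hn (surjInv hs b)
    simp only [Pi.mul_apply, h1, h2, map_mul]
    field_simp
  exact this ▸ hu

theorem mul_mem_of_crd {K U τ : Type} [CommRing K] {q : U → τ → K} {c : U → K}
    {M : Submodule K (U → K)} (h : ∀ l, (c * fun b => q b l) ∈ M) : ∀ w ∈ crd q, c * w ∈ M := by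
  intro w hw
  induction hw using Submodule.span_induction with
  | mem f hf => obtain ⟨l, rfl⟩ := hf; exact h l
  | zero => simp
  | add f f' _ _ h1 h2 => rw [mul_add]; exact M.add_mem h1 h2
  | smul a f _ h1 => rw [mul_smul_comm]; exact M.smul_mem a h1

/-- regularity over `R` reduces -/
theorem Rg.reduce (hs : Surjective red) {ι : Type} [Fintype ι] {m : ι → T → Ω}
    {L : ι → Submodule R (T → R)} {L' : ι → Submodule Ω (B → Ω)}
    (h : ∀ i, Rd r red (m i) (L i) (L' i)) (hm : ∀ i t, m i t ≠ 0) {τ : Type} {y : T → τ → R}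
    {q : B → τ → Ω} {n : T → Ω} (hn : ∀ t, n t ≠ 0) (hq : ∀ t l, q (red t) l = n t * r (y t l))
    (hy : Rg L (crd y)) : Rg L' (crd q) := by
  intro b
  obtain ⟨e, c, hc, hw⟩ := hy (surjInv hs b)
  obtain ⟨c', h1, h2⟩ := (Rd.prod Finset.univ fun i => (h i).pow (e i)).chart hs hn hq
    (c := c) fun l => hw _ (Submodule.subset_span ⟨l, rfl⟩)
  refine ⟨e, c', ?_, mul_mem_of_crd h2⟩
  rw [h1, isUnit_iff_ne_zero]
  refine mul_ne_zero (mul_ne_zero ?_ (hc.map r).ne_zero) (inv_ne_zero (hn _))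
  simp only [Finset.prod_apply, Pi.pow_apply]
  exact Finset.prod_ne_zero_iff.2 fun i _ => pow_ne_zero _ (hm i _)

end red

section model
variable {Ω : Type} [Field Ω] {R : ValuationSubring ℂ} {r : R →+* Ω} {σ : Type} [Fintype σ]
  {g : ℕ} (X : Model r σ g)

theorem Model.chE_inj : Injective (chE X.Λ) := Tav.chE_inj X.Λ X.cm

/-- a basis of the ring of endomorphisms, indexed by the characters -/
def Model.basis : Basis (Fin g ⊕ Fin g) ℤ (EnR X.Λ) :=
  haveI := X.lat
  (exists_basis X.Λ X.cm).some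

/-- the factor in `hred` -/
def Model.mu (v : Fin g → ℂ) : Ω := (X.hred v).choose

theorem Model.mu_ne (v : Fin g → ℂ) : X.mu v ≠ 0 := (X.hred v).choose_spec.1.ne_zero

theorem Model.p_red (v : Fin g → ℂ) (l : σ) : X.p (X.red v) l = X.mu v * r (X.x v l) :=
  congrFun (X.hred v).choose_spec.2 l

theorem Model.rd_crd : Rd r X.red X.mu (crd X.x) (crd X.p) := Rd.crd X.p_red

theorem Model.red_mul_eq {a : Fin g → ℂ} (ha : a ∈ En X.Λ) {v : Fin g → ℂ} (hv : X.red v = 0) :
    X.red (a * v) = 0 := by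
  obtain ⟨e, c, hc, hw⟩ := X.reg a ha 0
  have hR := Rd.prod (r := r) (red := X.red) Finset.univ (m := fun i => X.mu ^ e i)
    (M := fun i => ![crd X.x] i ^ e i) (M' := fun i => ![crd X.p] i ^ e i) fun i => by
      fin_cases i
      exact X.rd_crd.pow _
  set m := ∏ i, X.mu ^ e i with hm
  have hm0 : ∀ t, m t ≠ 0 := fun t => by
    simp only [hm, Finset.prod_apply, Pi.pow_apply]
    exact Finset.prod_ne_zero_iff.2 fun i _ => pow_ne_zero _ (X.mu_ne _)
  have key : ∀ l, m v * (r (c v) * r (X.x (a * v) l)) = m 0 * (r (c 0) * r (X.x 0 l)) := by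
    intro l
    obtain ⟨u, -, hu⟩ := hR _ (hw _ (Submodule.subset_span ⟨l, rfl⟩))
    have h1 := hu v
    have h2 := hu 0
    rw [hv] at h1
    rw [map_zero] at h2
    simp only [Pi.mul_apply, map_mul, mul_zero] at h1 h2
    rw [← h1, ← h2]
  have hc0 := (hc.map r).ne_zero
  have hcv : r (c v) ≠ 0 := by
    intro h0
    apply X.sp.ne (X.red 0)
    funext l
    have := key l
    rw [h0, zero_mul, mul_zero, eq_comm, mul_eq_zero, mul_eq_zero] at this
    rw [X.p_red, (this.resolve_left (hm0 0)).resolve_left hc0, mul_zero, Pi.zero_apply]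
  rw [← map_zero X.red]
  refine X.inj _ _ ⟨X.mu (a * v) * (m 0 * r (c 0)) * (m v * r (c v) * X.mu 0)⁻¹, ?_, ?_⟩
  · exact isUnit_iff_ne_zero.2 (mul_ne_zero (mul_ne_zero (X.mu_ne _) (mul_ne_zero (hm0 _) hc0))
      (inv_ne_zero (mul_ne_zero (mul_ne_zero (hm0 _) hcv) (X.mu_ne _))))
  · funext l
    have h1 := hm0 v
    have h2 := X.mu_ne 0
    rw [Pi.smul_apply, X.p_red, X.p_red, smul_eq_mul]
    field_simp
    linear_combination X.mu (a * v) * key l

/-- the reduction of an endomorphism -/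
def Model.act (a : EnR X.Λ) : X.B →+ X.B :=
  X.red.liftOfSurjective X.onto ⟨X.red.comp (AddMonoidHom.mulLeft a.1), fun _ hv =>
    X.red_mul_eq a.2 hv⟩

theorem Model.act_red (a : EnR X.Λ) (v : Fin g → ℂ) : X.act a (X.red v) = X.red (a.1 * v) :=
  X.red.liftOfRightInverse_comp_apply _ _ _ v

instance Model.modB : Module (EnR X.Λ) X.B where
  smul a b := X.act a b
  one_smul b := by
    obtain ⟨v, rfl⟩ := X.onto b
    exact (X.act_red 1 v).trans (by simp)
  mul_smul a a' b := by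
    obtain ⟨v, rfl⟩ := X.onto b
    change X.act (a * a') _ = X.act a (X.act a' _)
    rw [X.act_red, X.act_red, X.act_red, Subring.coe_mul, mul_assoc]
  smul_zero a := (X.act a).map_zero
  smul_add a := (X.act a).map_add
  add_smul a a' b := by
    obtain ⟨v, rfl⟩ := X.onto b
    change X.act (a + a') _ = X.act a _ + X.act a' _
    rw [X.act_red, X.act_red, X.act_red, Subring.coe_add, add_mul, map_add]
  zero_smul b := by
    obtain ⟨v, rfl⟩ := X.onto b
    exact (X.act_red 0 v).trans (by simp)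

theorem Model.smul_def (a : EnR X.Λ) (b : X.B) : a • b = X.act a b := rfl

theorem Model.smul_red (a : EnR X.Λ) (v : Fin g → ℂ) : a • X.red v = X.red (a.1 * v) :=
  X.act_red a v

theorem Model.mor_smul (a : EnR X.Λ) : Mor X.p X.p (fun b => a • b) :=
  Rg.reduce (r := r) X.onto (m := fun _ => X.mu) (L := ![crd X.x])
    (fun i => by fin_cases i; exact X.rd_crd) (fun _ => X.mu_ne) (y := fun v => X.x (a.1 * v))
    (n := fun v => X.mu (a.1 * v)) (fun _ => X.mu_ne _)
    (fun v l => by simp only [X.smul_red, X.p_red]) (X.reg a.1 a.2)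

/-- the group law on the special fibre -/
theorem Model.law_sp : ∃ c : X.B × X.B → Ω, (∀ t, c t ≠ 0) ∧ ∀ i j,
    (c * fun t => X.p (t.1 + t.2) i * X.p (t.1 - t.2) j) ∈
      (crd fun t : X.B × X.B => X.p t.1) ^ 2 * (crd fun t => X.p t.2) ^ 2 := by
  obtain ⟨c, hc, h⟩ := X.law
  have hs : Surjective (Prod.map X.red X.red) := X.onto.prodMap X.onto
  have h1 : Rd r (Prod.map X.red X.red) (fun t => X.mu t.1) (crd fun t => X.x t.1)
      (crd fun t : X.B × X.B => X.p t.1) := Rd.crd fun t l => X.p_red t.1 l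
  have h2 : Rd r (Prod.map X.red X.red) (fun t => X.mu t.2) (crd fun t => X.x t.2)
      (crd fun t : X.B × X.B => X.p t.2) := Rd.crd fun t l => X.p_red t.2 l
  obtain ⟨c', e, hc'⟩ := ((h1.pow 2).mul (h2.pow 2)).chart hs (τ := σ × σ)
    (y := fun t l => X.x (t.1 + t.2) l.1 * X.x (t.1 - t.2) l.2)
    (q := fun t l => X.p (t.1 + t.2) l.1 * X.p (t.1 - t.2) l.2)
    (n := fun t => X.mu (t.1 + t.2) * X.mu (t.1 - t.2))
    (fun t => mul_ne_zero (X.mu_ne _) (X.mu_ne _))
    (fun t l => by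
      simp only [Prod.map_fst, Prod.map_snd, ← map_add, ← map_sub, X.p_red, map_mul]
      ring) (c := c) fun l => h l.1 l.2
  refine ⟨c', fun t => ?_, fun i j => hc' (i, j)⟩
  rw [e]
  exact mul_ne_zero (mul_ne_zero (mul_ne_zero (pow_ne_zero _ (X.mu_ne _))
    (pow_ne_zero _ (X.mu_ne _))) ((hc _).map r).ne_zero)
    (inv_ne_zero (mul_ne_zero (X.mu_ne _) (X.mu_ne _)))

end model

end Pool.Agent.Tav
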