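import Pool.Agent.P.MP_2ce3e7_ag.Tav.ExDefs

set_option autoImplicit false

namespace Pool.Agent.Tav.Ex

section

variable {R : Type*} [CommRing R]

theorem qd_iff {x : Fin 4 → R} :
    qd x = 0 ↔ x 1 ^ 2 = x 3 ^ 2 - x 0 ^ 2 ∧ x 2 ^ 2 = x 3 ^ 2 + x 0 ^ 2 := by
  constructor
  · intro h
    have h0 : x 1 ^ 2 - x 3 ^ 2 + x 0 ^ 2 = 0 := congrFun h 0
    have h1 : x 2 ^ 2 - x 3 ^ 2 - x 0 ^ 2 = 0 := congrFun h 1
    exact ⟨by linear_combination h0, by linear_combination h1⟩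
  · rintro ⟨h0, h1⟩
    ext a
    fin_cases a
    · show x 1 ^ 2 - x 3 ^ 2 + x 0 ^ 2 = 0
      linear_combination h0
    · show x 2 ^ 2 - x 3 ^ 2 - x 0 ^ 2 = 0
      linear_combination h1

/-- multiplication by `1 + 2 i` -/
def frc (i : R) (x : Fin 4 → R) : Fin 4 → R :=
  ![-frb (-i) x 0, frb (-i) x 1, frb (-i) x 2, frb (-i) x 3]

theorem law_frb {i : R} (hi : i ^ 2 = -1) {x : Fin 4 → R} (h : qd x = 0) (a b : Fin 4) :
    law (fun k => law (rot i x) (rot i x) k 3) x a b = frc i x a * frb i x b := by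
  obtain ⟨h0, h1⟩ := qd_iff.1 h
  fin_cases a <;> fin_cases b <;> simp [law, rot, frc, frb] <;> grind

theorem qd_rot {i : R} (hi : i ^ 2 = -1) {x : Fin 4 → R} (h : qd x = 0) : qd (rot i x) = 0 := by
  obtain ⟨h0, h1⟩ := qd_iff.1 h
  refine qd_iff.2 ⟨?_, ?_⟩ <;> simp [rot] <;> grind

theorem qd_frb {i : R} (hi : i ^ 2 = -1) {x : Fin 4 → R} (h : qd x = 0) : qd (frb i x) = 0 := by
  obtain ⟨h0, h1⟩ := qd_iff.1 h
  refine qd_iff.2 ⟨?_, ?_⟩ <;> simp [frb] <;> grind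

theorem frb_pow {i : R} (hi : i ^ 2 = -1) (hp : 2 * i - 1 = 0) {x : Fin 4 → R} (h : qd x = 0)
    (a : Fin 4) : frb i x a = x a ^ 5 := by
  obtain ⟨h0, h1⟩ := qd_iff.1 h
  fin_cases a <;> simp [frb] <;> grind

theorem qd_law {x y : Fin 4 → R} (h : qd x = 0) (h' : qd y = 0) (a : Fin 4) :
    qd (law x y a) = 0 ∧ qd (fun b => law x y b a) = 0 := by
  obtain ⟨h0, h1⟩ := qd_iff.1 h
  obtain ⟨h2, h3⟩ := qd_iff.1 h'
  refine ⟨qd_iff.2 ⟨?_, ?_⟩, qd_iff.2 ⟨?_, ?_⟩⟩ <;> fin_cases a <;> simp [law] <;> grind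

end

end Pool.Agent.Tav.Ex
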