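import Mathlib

/-! The lemniscatic curve `c² = w² - s²`, `d² = w² + s²` in coordinates s, c, d, w. -/

set_option autoImplicit false

namespace Pool.Agent.Tav.Ex

variable {R : Type*} [CommRing R]

/-- the two quadrics -/
def qd (x : Fin 4 → R) : Fin 2 → R := ![x 1 ^ 2 - x 3 ^ 2 + x 0 ^ 2, x 2 ^ 2 - x 3 ^ 2 - x 0 ^ 2]

/-- the law: coordinate `i` of `x + y` times coordinate `j` of `x - y` -/
def law (x y : Fin 4 → R) : Fin 4 → Fin 4 → R :=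
  ![![x 0 ^ 2 * y 3 ^ 2 - x 3 ^ 2 * y 0 ^ 2, x 0 * x 1 * (y 2 * y 3) + x 2 * x 3 * (y 0 * y 1),
      x 0 * x 2 * (y 1 * y 3) + x 1 * x 3 * (y 0 * y 2),
      x 0 * x 3 * (y 1 * y 2) + x 1 * x 2 * (y 0 * y 3)],
    ![x 0 * x 1 * (y 2 * y 3) - x 2 * x 3 * (y 0 * y 1), x 1 ^ 2 * y 1 ^ 2 - 2 * (x 0 ^ 2 * y 0 ^ 2),
      x 1 * x 2 * (y 1 * y 2) - 2 * (x 0 * x 3 * (y 0 * y 3)),
      x 1 * x 3 * (y 1 * y 3) - x 0 * x 2 * (y 0 * y 2)],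
    ![x 0 * x 2 * (y 1 * y 3) - x 1 * x 3 * (y 0 * y 2),
      x 1 * x 2 * (y 1 * y 2) + 2 * (x 0 * x 3 * (y 0 * y 3)),
      x 2 ^ 2 * y 2 ^ 2 - 2 * (x 0 ^ 2 * y 0 ^ 2), x 2 * x 3 * (y 2 * y 3) + x 0 * x 1 * (y 0 * y 1)],
    ![x 0 * x 3 * (y 1 * y 2) - x 1 * x 2 * (y 0 * y 3),
      x 1 * x 3 * (y 1 * y 3) + x 0 * x 2 * (y 0 * y 2),
      x 2 * x 3 * (y 2 * y 3) - x 0 * x 1 * (y 0 * y 1), x 3 ^ 2 * y 3 ^ 2 + x 0 ^ 2 * y 0 ^ 2]]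

/-- multiplication by `i` -/
def rot (i : R) (x : Fin 4 → R) : Fin 4 → R := ![i * x 0, x 2, x 1, x 3]

/-- multiplication by `-1 + 2 i` -/
def frb (i : R) (x : Fin 4 → R) : Fin 4 → R :=
  ![x 0 * ((2 * i - 1) * x 3 ^ 4 + x 0 ^ 4),
    x 1 * (x 3 ^ 4 + (2 + 2 * i) * (x 0 ^ 2 * x 3 ^ 2) + x 0 ^ 4),
    x 2 * (x 3 ^ 4 - (2 + 2 * i) * (x 0 ^ 2 * x 3 ^ 2) + x 0 ^ 4),
    x 3 * (x 3 ^ 4 + (2 * i - 1) * x 0 ^ 4)]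

/-- proportional vectors -/
def Pp {σ : Type*} (x y : σ → R) : Prop := ∀ i j, x i * y j = x j * y i

/-- the analytic half: an entire lift of the uniformisation by `ω ℤ[i]` -/
def S_Unif : Prop :=
  ∃ (ω : ℂ) (u : ℂ → Fin 4 → ℂ), ω ≠ 0 ∧ Differentiable ℂ u ∧ (∀ z, u z ≠ 0) ∧
    (∀ z, qd (u z) = 0) ∧ (∀ x, x ≠ 0 → qd x = 0 → ∃ z, Pp (u z) x) ∧
    (∀ z z', Pp (u z) (u z') ↔ ∃ m n : ℤ, z - z' = ω * (m + n * Complex.I)) ∧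
    u 0 = ![0, 1, 1, 1] ∧ deriv (fun z => u z 0) 0 ≠ 0 ∧
    (∀ z, u (Complex.I * z) = rot Complex.I (u z)) ∧
    ∀ z z', Pp (fun p : Fin 4 × Fin 4 => u (z + z') p.1 * u (z - z') p.2)
      fun p => law (u z) (u z') p.1 p.2

end Pool.Agent.Tav.Ex
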