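import Pool.Agent.P.MP_2ce3e7_ag.Tav.ExLaw

set_option autoImplicit false

noncomputable section

namespace Pool.Agent.Tav.Ex

open Set Function Complex IntermediateField

theorem int_of {q : ℚ} (h : IsIntegral ℤ (q : ℂ)) : ∃ z : ℤ, (z : ℚ) = q :=
  IsIntegrallyClosed.isIntegral_iff.1
    ((isIntegral_algebraMap_iff (algebraMap ℚ ℂ).injective).1 h)

theorem two_mul_int {b : ℂ} (hb : IsIntegral ℤ b) {m : ℕ} (hm : m ≠ 0) {x y : ℤ}
    (e : m * b = x + y * I) : ∃ x' y' : ℤ, 2 * b = x' + y' * I := by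
  have m0 : (m : ℂ) ≠ 0 := Nat.cast_ne_zero.2 hm
  have hc : IsIntegral ℤ (star b) := hb.map (starRingEnd ℂ).toIntAlgHom
  have hI : IsIntegral ℤ I := isPrimitiveRoot_I.isIntegral (by norm_num)
  have e' : m * star b = x - y * I := by simpa [sub_eq_add_neg] using congrArg star e
  have e1 : ((2 * x / m : ℚ) : ℂ) = b + star b := by
    push_cast
    rw [div_eq_iff m0]
    linear_combination -e - e'
  have e2 : ((2 * y / m : ℚ) : ℂ) = (star b - b) * I := by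
    push_cast
    rw [div_eq_iff m0]
    linear_combination I * e - I * e' + 2 * y * I_mul_I
  obtain ⟨x', hx⟩ := int_of (e1 ▸ hb.add hc)
  obtain ⟨y', hy⟩ := int_of (e2 ▸ (hc.sub hb).mul hI)
  rw [← hx] at e1
  rw [← hy] at e2
  push_cast at e1 e2
  exact ⟨x', y', by rw [e1, e2]; linear_combination (b - star b) * I_mul_I⟩

open MvPolynomial in
theorem tangent_le {K T : Type} [Field K] (h2 : (2 : K) ≠ 0) {p : T → Fin 4 → K}
    (hp : idl p = qI K) {y : Fin 4 → K} (hy : Par y ![0, 1, 1, 1]) :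
    Module.finrank K (⨅ f ∈ idl p, LinearMap.ker
      (∑ l, eval y (pderiv l f) • LinearMap.proj (R := K) (φ := fun _ => K) l) :) ≤ 1 + 1 := by
  obtain ⟨c, hc, rfl⟩ := hy
  refine (LinearMap.finrank_le_finrank_of_injective (f := ((LinearMap.proj 0).prod
    (LinearMap.proj (R := K) (φ := fun _ : Fin 4 => K) 3)) ∘ₗ Submodule.subtype _) ?_).trans
    (by simp)
  rw [injective_iff_map_eq_zero]
  rintro ⟨v, hv⟩ h
  simp only [Submodule.mem_iInf, LinearMap.mem_ker, hp] at hv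
  have h0 : v 0 = 0 := congrArg Prod.fst h
  have h3 : v 3 = 0 := congrArg Prod.snd h
  have h1 := hv _ (Ideal.subset_span ⟨0, rfl⟩)
  have h2' := hv _ (Ideal.subset_span ⟨1, rfl⟩)
  simp [qd, Fin.sum_univ_four, h3, hc.ne_zero, h2] at h1 h2'
  ext l
  fin_cases l
  exacts [h0, h1, h2', h3]

theorem full_of {Ω : Type} [Field Ω] {R : ValuationSubring ℂ} {r : R →+* Ω} (h2 : (2 : Ω) ≠ 0)
    (X : Model r (Fin 4) 1) (en : ∀ a, a ∈ En X.Λ ↔ ∃ m n : ℤ, a 0 = m + n * I)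
    (hp : idl X.p = qI Ω) (h0 : Par (X.p 0) ![0, 1, 1, 1]) {q : ℕ} {π : Fin 1 → ℂ}
    (hπ : π ∈ En X.Λ) (hf : ∀ v, Par (X.p (X.red (π * v))) (X.p (X.red v) ^ q))
    (h1 : (star (π 0))⁻¹ ∈ R) (h1' : (π 0)⁻¹ ∉ R)
    (hr : ∀ w v, X.red w = X.red v → X.red (I • w) = X.red (I • v)) : X.Full q := by
  have hI : IsIntegral ℚ I := (isPrimitiveRoot_I.isIntegral (by norm_num)).tower_top
  have := adjoin.finiteDimensional hI
  have : Algebra.IsQuadraticExtension ℚ ℚ⟮I⟯ := ⟨by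
    rw [adjoin.finrank hI, ← Polynomial.cyclotomic_eq_minpoly_rat isPrimitiveRoot_I (by norm_num),
      Polynomial.natDegree_cyclotomic]
    decide⟩
  have mI : I ∈ ℚ⟮I⟯ := mem_adjoin_simple_self ℚ I
  let c : Gal(ℚ⟮I⟯/ℚ) := (conjAe.restrictScalars ℚ).restrictNormal ℚ⟮I⟯
  have hc : ∀ z, (c z : ℂ) = star (z : ℂ) := fun z =>
    (conjAe.restrictScalars ℚ).restrictNormal_commutes ℚ⟮I⟯ z
  have ext : ∀ s t : Gal(ℚ⟮I⟯/ℚ), (s ⟨I, mI⟩ : ℂ) = t ⟨I, mI⟩ → s = t := fun s t h =>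
    AlgEquiv.coe_toAlgHom_injective (adjoin_algHom_ext ℚ (by
      rintro _ rfl
      exact Subtype.ext h))
  have two : ∀ s : Gal(ℚ⟮I⟯/ℚ), s = 1 ∨ s = c := fun s => by
    have e : s ⟨I, mI⟩ * s ⟨I, mI⟩ = -1 := by
      rw [← map_mul, show (⟨I, mI⟩ * ⟨I, mI⟩ : ℚ⟮I⟯) = -1 from Subtype.ext I_mul_I, map_neg,
        map_one]
    have e' : (s ⟨I, mI⟩ : ℂ) * s ⟨I, mI⟩ = I * I := (congrArg Subtype.val e).trans I_mul_I.symm
    exact (mul_self_eq_mul_self_iff.1 e').imp (fun h => ext _ _ h)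
      fun h => ext _ _ (by rw [h, hc]; simp)
  have hL : ∀ a ∈ En X.Λ, ∀ i, a i ∈ ℚ⟮I⟯ := fun a ha i => by
    obtain ⟨m, n, e⟩ := (en a).1 ha
    rw [Subsingleton.elim i 0, e]
    exact add_mem (intCast_mem _ m) (mul_mem (intCast_mem _ n) mI)
  let z : ℚ⟮I⟯ := (c ⟨π 0, hL π hπ 0⟩)⁻¹
  have z1 : (z : ℂ) ∈ R := by simpa [z, hc] using h1
  have z2 : (c z : ℂ) ∉ R := by simpa [z, hc] using h1'
  have eI : (fun _ => I) ∈ En X.Λ := (en _).2 ⟨0, 1, by simp⟩
  refine ⟨ℚ⟮I⟯, inferInstance, inferInstance, c, hc, fun s => ?_, ⟨z, z1, z2⟩, hL, Fin 4,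
    inferInstance, 1, X, hL, tangent_le h2 hp h0, ⟨2, by simpa using h2, fun a ha m hm h => ?_⟩,
    ⟨π, hπ, 1, one_ne_zero, by simpa using hf⟩, fun Φ o hΦ => ⟨0, fun s => ?_⟩, fun s hs => ?_⟩
  · rcases two s with rfl | rfl <;> simp
  · obtain ⟨x, y, e⟩ := (en _).1 h
    obtain ⟨x', y', e'⟩ := two_mul_int (ha.map (Pi.evalRingHom (fun _ => ℂ) 0).toIntAlgHom) hm
      (by simpa using e)
    exact (en _).2 ⟨x', y', by simpa using e'⟩
  · rcases two s with rfl | rfl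
    · exact iff_of_true o ⟨0, fun _ _ => rfl⟩
    · refine iff_of_false (fun h => (hΦ 1).1 (by simpa using h) o) ?_
      rintro ⟨i, hi⟩
      have := congrArg Complex.im ((hc _).symm.trans (hi _ eI))
      norm_num at this
  · rcases two s with rfl | rfl
    · refine ⟨X, AddMonoidHom.id _, surjective_id, mor_id _, fun a h => ⟨h, fun w v e => ?_⟩⟩
      obtain ⟨m, n, ea⟩ := (en a).1 h
      have k : ∀ w, a * w = m • w + n • I • w := fun w => funext fun i => by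
        rw [Pi.mul_apply, Subsingleton.elim i 0, ea]
        simp
        ring
      change X.red (a * w) = _
      rw [k, k, map_add, map_add, map_zsmul, map_zsmul, map_zsmul, map_zsmul, hr w v e,
        show X.red w = X.red v from e]
    · exact absurd ((hs z).2 z1) z2

end Pool.Agent.Tav.Ex
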