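import Pool.Agent.P.MP_2ce3e7_ag.Tav.ExDefs

set_option autoImplicit false

namespace Pool.Agent.Tav.Ex

section

open Polynomial

variable {A : Type*} [CommRing A] [IsDomain A]

theorem odd_root {t : A} {r r' a b : A[X]} (hr : r.eval t ≠ 0) (hr' : r'.eval t ≠ 0)
    (h : (X - C t) * r * a ^ 2 = r' * b ^ 2) : a = 0 ∧ b = 0 := by
  have r0 : r ≠ 0 := fun e => hr (by simp [e])
  have r1 : r' ≠ 0 := fun e => hr' (by simp [e])
  have x0 : (X - C t) * r ≠ 0 := mul_ne_zero (X_sub_C_ne_zero t) r0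
  have ha : a = 0 := by
    by_contra ha
    have h1 : (X - C t) * r * a ^ 2 ≠ 0 := mul_ne_zero x0 (pow_ne_zero _ ha)
    have h2 : r' * b ^ 2 ≠ 0 := h ▸ h1
    have hb : b ≠ 0 := fun e => h2 (by simp [e])
    have := congrArg (rootMultiplicity t) h
    rw [rootMultiplicity_mul h1, rootMultiplicity_mul h2, rootMultiplicity_mul x0, sq, sq,
      rootMultiplicity_mul (mul_ne_zero ha ha), rootMultiplicity_mul (mul_ne_zero hb hb),
      rootMultiplicity_X_sub_C_self, rootMultiplicity_eq_zero hr, rootMultiplicity_eq_zero hr']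
      at this
    omega
  refine ⟨ha, ?_⟩
  rw [ha, zero_pow two_ne_zero, mul_zero, eq_comm, mul_eq_zero] at h
  exact pow_eq_zero_iff two_ne_zero |>.1 (h.resolve_left r1)

theorem quad_dom {B : Type*} [CommRing B] [IsDomain B] {δ : B}
    (h : ∀ a b : B, a ^ 2 = δ * b ^ 2 → a = 0 ∧ b = 0) : IsDomain (QuadraticAlgebra B δ 0) := by
  have hn : ∀ z : QuadraticAlgebra B δ 0, z.norm = 0 → z = 0 := fun z hz => by
    rw [QuadraticAlgebra.norm_def] at hz
    obtain ⟨h1, h2⟩ := h z.re z.im (by linear_combination hz)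
    exact QuadraticAlgebra.ext h1 h2
  have : NoZeroDivisors (QuadraticAlgebra B δ 0) := ⟨fun {x y} e => by
    have := congrArg QuadraticAlgebra.norm e
    rw [map_mul, QuadraticAlgebra.norm_zero, mul_eq_zero] at this
    exact this.imp (hn x) (hn y)⟩
  exact NoZeroDivisors.to_isDomain _

theorem quad_sq {B : Type*} [CommRing B] [IsDomain B] (h2 : (2 : B) ≠ 0) {α β : B}
    (hα : ∀ a b : B, a ^ 2 = α * b ^ 2 → a = 0 ∧ b = 0)
    (hβ : ∀ a b : B, a ^ 2 = β * b ^ 2 → b = 0) (hγ : ∀ a b : B, α * a ^ 2 = β * b ^ 2 → b = 0)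
    (x y : QuadraticAlgebra B α 0) (h : x ^ 2 = algebraMap B _ β * y ^ 2) : x = 0 ∧ y = 0 := by
  have := quad_dom hα
  have e : (x * star y) ^ 2 = algebraMap B _ (β * y.norm ^ 2) := by
    rw [mul_pow, h, map_mul, map_pow, QuadraticAlgebra.algebraMap_norm_eq_mul_star]
    ring
  generalize x * star y = z at e
  have e1 := congrArg QuadraticAlgebra.re e
  have e2 := congrArg QuadraticAlgebra.im e
  simp only [sq z, QuadraticAlgebra.re_mul, QuadraticAlgebra.im_mul, QuadraticAlgebra.algebraMap_re,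
    QuadraticAlgebra.algebraMap_im] at e1 e2
  have hn : y.norm = 0 := by
    have : 2 * (z.re * z.im) = 0 := by linear_combination e2
    rcases mul_eq_zero.1 ((mul_eq_zero.1 this).resolve_left h2) with e | e
    · exact hγ z.im _ (by rw [e] at e1; linear_combination e1)
    · exact hβ z.re _ (by rw [e] at e1; linear_combination e1)
  rw [QuadraticAlgebra.norm_def] at hn
  obtain ⟨h1, h2⟩ := hα y.re y.im (by linear_combination hn)
  have hy : y = 0 := QuadraticAlgebra.ext h1 h2
  refine ⟨?_, hy⟩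
  rw [hy, zero_pow two_ne_zero, mul_zero] at h
  exact pow_eq_zero_iff two_ne_zero |>.1 h

end

open MvPolynomial

variable (R : Type*) [CommRing R]

/-- the ideal of the curve -/
noncomputable def qI : Ideal (MvPolynomial (Fin 4) R) := Ideal.span (Set.range (qd X))

noncomputable abbrev B0 := Polynomial (Polynomial R)
noncomputable abbrev al : B0 R := Polynomial.X ^ 2 - Polynomial.C Polynomial.X ^ 2
noncomputable abbrev be : B0 R := Polynomial.X ^ 2 + Polynomial.C Polynomial.X ^ 2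
noncomputable abbrev B1 := QuadraticAlgebra (B0 R) (al R) 0
noncomputable abbrev B2 := QuadraticAlgebra (B1 R) (algebraMap (B0 R) (B1 R) (be R)) 0

/-- the generic point -/
noncomputable def gp : Fin 4 → B2 R :=
  ![⟨⟨Polynomial.C Polynomial.X, 0⟩, 0⟩, ⟨⟨0, 1⟩, 0⟩, ⟨0, 1⟩, ⟨⟨Polynomial.X, 0⟩, 0⟩]

/-- polynomials in `s`, `w` -/
noncomputable def sw : B0 R →+* MvPolynomial (Fin 4) R :=
  Polynomial.eval₂RingHom (Polynomial.eval₂RingHom C (X 0)) (X 3)

noncomputable def nf (z : B2 R) : MvPolynomial (Fin 4) R :=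
  sw R z.re.re + sw R z.re.im * X 1 + (sw R z.im.re + sw R z.im.im * X 1) * X 2

theorem sub_nf (f : MvPolynomial (Fin 4) R) : f - nf R (aeval (gp R) f) ∈ qI R := by
  have q0 : X 1 ^ 2 - X 3 ^ 2 + X 0 ^ 2 ∈ qI R := Ideal.subset_span ⟨0, rfl⟩
  have q1 : X 2 ^ 2 - X 3 ^ 2 - X 0 ^ 2 ∈ qI R := Ideal.subset_span ⟨1, rfl⟩
  induction f using MvPolynomial.induction_on with
  | C a =>
    have : nf R (algebraMap R (B2 R) a) = C a := by
      show nf R ⟨⟨Polynomial.C (Polynomial.C a), 0⟩, 0⟩ = _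
      simp [nf, sw]
    simp [this]
  | add p q hp hq =>
    convert add_mem hp hq using 1
    simp only [nf, map_add, QuadraticAlgebra.re_add, QuadraticAlgebra.im_add]
    ring
  | mul_X p n hp =>
    rw [map_mul, aeval_X]
    generalize aeval (gp R) p = z at hp
    have h := Ideal.mul_mem_right (X n) _ hp
    fin_cases n
    · convert h using 1
      simp [nf, gp, sw]
      ring
    · convert add_mem h (Ideal.mul_mem_left _ (sw R z.re.im + sw R z.im.im * X 2) q0) using 1
      simp [nf, gp, sw, Polynomial.eval₂_pow]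
      ring
    · convert add_mem h (Ideal.mul_mem_left _ (sw R z.im.re + sw R z.im.im * X 1) q1) using 1
      simp [nf, gp, sw, QuadraticAlgebra.algebraMap_eq, Polynomial.eval₂_pow]
      ring
    · convert h using 1
      simp [nf, gp, sw]
      ring

theorem qd_gp : qd (gp R) = 0 := by
  have h0 : gp R 0 * gp R 0 = ⟨⟨Polynomial.C Polynomial.X ^ 2, 0⟩, 0⟩ := by
    refine QuadraticAlgebra.ext (QuadraticAlgebra.ext ?_ ?_) (QuadraticAlgebra.ext ?_ ?_) <;>
      simp only [QuadraticAlgebra.re_mul, QuadraticAlgebra.im_mul] <;> simp [gp, sq]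
  have h1 : gp R 1 * gp R 1 = ⟨⟨al R, 0⟩, 0⟩ := by
    refine QuadraticAlgebra.ext (QuadraticAlgebra.ext ?_ ?_) (QuadraticAlgebra.ext ?_ ?_) <;>
      simp only [QuadraticAlgebra.re_mul, QuadraticAlgebra.im_mul] <;> simp [gp]
  have h2 : gp R 2 * gp R 2 = ⟨⟨be R, 0⟩, 0⟩ := by
    refine QuadraticAlgebra.ext (QuadraticAlgebra.ext ?_ ?_) (QuadraticAlgebra.ext ?_ ?_) <;>
      simp only [QuadraticAlgebra.re_mul, QuadraticAlgebra.im_mul,
        QuadraticAlgebra.algebraMap_re, QuadraticAlgebra.algebraMap_im] <;>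
      simp [gp, -map_add, -map_pow]
  have h3 : gp R 3 * gp R 3 = ⟨⟨Polynomial.X ^ 2, 0⟩, 0⟩ := by
    refine QuadraticAlgebra.ext (QuadraticAlgebra.ext ?_ ?_) (QuadraticAlgebra.ext ?_ ?_) <;>
      simp only [QuadraticAlgebra.re_mul, QuadraticAlgebra.im_mul] <;> simp [gp, sq]
  ext a : 1
  fin_cases a
  · show gp R 1 ^ 2 - gp R 3 ^ 2 + gp R 0 ^ 2 = 0
    rw [sq (gp R 1), sq (gp R 3), sq (gp R 0), h0, h1, h3]
    refine QuadraticAlgebra.ext (QuadraticAlgebra.ext ?_ ?_) (QuadraticAlgebra.ext ?_ ?_) <;> simp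
  · show gp R 2 ^ 2 - gp R 3 ^ 2 - gp R 0 ^ 2 = 0
    rw [sq (gp R 2), sq (gp R 3), sq (gp R 0), h0, h2, h3]
    refine QuadraticAlgebra.ext (QuadraticAlgebra.ext ?_ ?_) (QuadraticAlgebra.ext ?_ ?_) <;> simp

theorem mem_qI {f : MvPolynomial (Fin 4) R} : f ∈ qI R ↔ aeval (gp R) f = 0 := by
  constructor
  · intro h
    refine (Ideal.span_le (I := RingHom.ker (aeval (gp R)))).2 ?_ h
    rintro _ ⟨a, rfl⟩
    have := congrFun (qd_gp R) a
    fin_cases a <;> simpa [qd] using this
  · intro h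
    have := sub_nf R f
    rw [h] at this
    simpa [nf] using this

variable {R}

theorem dom_B2 [IsDomain R] (h2 : (2 : R) ≠ 0) {i : R} (hi : i ^ 2 = -1) : IsDomain (B2 R) := by
  have t2 : (2 : Polynomial R) ≠ 0 := fun e => h2 (by
    simpa using congrArg (Polynomial.eval 0) e)
  have i0 : i ≠ 0 := fun e => by simp [e] at hi
  have hα : ∀ a b : B0 R, a ^ 2 = al R * b ^ 2 → a = 0 ∧ b = 0 := fun a b h =>
    (odd_root (t := Polynomial.X) (r := Polynomial.X + Polynomial.C Polynomial.X) (r' := 1)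
      (by simp [← two_mul, t2]) (by simp) (by rw [one_mul, h]; ring)).symm
  have := quad_dom hα
  refine quad_dom (quad_sq (fun e => t2 (by simpa using congrArg (Polynomial.eval 0) e)) hα
    (fun a b h => ?_) fun a b h => ?_)
  · refine (odd_root (t := Polynomial.C i * Polynomial.X) (r' := 1) (b := a)
      (r := Polynomial.X + Polynomial.C (Polynomial.C i * Polynomial.X))
      (by simp [← two_mul, t2, i0]) (by simp) ?_).1
    have : (Polynomial.C (Polynomial.C i) : B0 R) ^ 2 = -1 := by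
      rw [← map_pow, ← map_pow, hi]
      simp
    rw [one_mul, h, map_mul]
    linear_combination (-Polynomial.C Polynomial.X ^ 2 * b ^ 2) * this
  · exact (odd_root (t := Polynomial.X) (r := Polynomial.X + Polynomial.C Polynomial.X)
      (r' := be R) (a := a) (by simp [← two_mul, t2]) (by simp [← two_mul, t2])
      (by rw [← h]; ring)).2

theorem qI_prime [IsDomain R] (h2 : (2 : R) ≠ 0) {i : R} (hi : i ^ 2 = -1) : (qI R).IsPrime := by
  have := dom_B2 h2 hi
  have e : qI R = RingHom.ker (aeval (gp R)) := Ideal.ext fun _ => mem_qI R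
  rw [e]
  exact RingHom.ker_isPrime _

theorem eval_qI {S : Type*} [CommRing S] [Algebra R S] {x : Fin 4 → S} :
    (∀ f ∈ qI R, aeval x f = 0) ↔ qd x = 0 := by
  constructor
  · intro h
    ext a
    have := h _ (Ideal.subset_span ⟨a, rfl⟩)
    fin_cases a <;> simpa [qd] using this
  · intro h f hf
    refine (Ideal.span_le (I := RingHom.ker (aeval x))).2 ?_ hf
    rintro _ ⟨a, rfl⟩
    have := congrFun h a
    fin_cases a <;> simpa [qd] using this

end Pool.Agent.Tav.Ex
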