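import Pool.Agent.P.MP_2ce3e7_ag.Tav.Stmt
import Pool.Agent.P.MP_2ce3e7_ag.Tav.ExAlg
import Pool.Agent.P.MP_2ce3e7_ag.Tav.ExPrime

set_option autoImplicit false

noncomputable section

namespace Pool.Agent.Tav.Ex

open Set Function Submodule

variable {K T : Type} [Field K] (p : T → Fin 4 → K)

/-- forms of degree `n - 1` in `s`, `w` -/
def bf (n : ℕ) : (Fin n → K) →ₗ[K] T → K :=
  Fintype.linearCombination K fun a t => p t 0 ^ (a : ℕ) * p t 3 ^ (n - 1 - a)

/-- the normal form in degree `d` -/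
def nfm (d : ℕ) :
    ((Fin (d + 1) → K) × (Fin d → K)) × (Fin d → K) × (Fin (d - 1) → K) →ₗ[K] T → K :=
  ((bf p (d + 1)).coprod (LinearMap.mulLeft K (fun t => p t 1) ∘ₗ bf p d)).coprod
    ((LinearMap.mulLeft K (fun t => p t 2) ∘ₗ bf p d).coprod
      (LinearMap.mulLeft K (fun t => p t 1 * p t 2) ∘ₗ bf p (d - 1)))

theorem bf_apply (n : ℕ) (g : Fin n → K) (t : T) :
    bf p n g t = ∑ a, g a * (p t 0 ^ (a : ℕ) * p t 3 ^ (n - 1 - a)) := by
  simp [bf, Fintype.linearCombination_apply, Finset.sum_apply]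

theorem nfm_apply (d : ℕ) (g) (t : T) : nfm p d g t = bf p (d + 1) g.1.1 t + p t 1 * bf p d g.1.2 t +
    (p t 2 * bf p d g.2.1 t + p t 1 * p t 2 * bf p (d - 1) g.2.2 t) := by
  simp [nfm]

theorem bf_zero (g : Fin 0 → K) : bf p 0 g = 0 := funext fun t => by simp [bf_apply]

theorem crd_mem (l : Fin 4) : (fun t => p t l) ∈ crd p := subset_span ⟨l, rfl⟩

theorem bf_mem (n : ℕ) (g : Fin (n + 1) → K) : bf p (n + 1) g ∈ crd p ^ n := by
  rw [bf, Fintype.linearCombination_apply]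
  refine sum_mem fun a _ => smul_mem _ _ ?_
  have := Submodule.mul_mem_mul (pow_mem_pow _ (crd_mem p 0) a) (pow_mem_pow _ (crd_mem p 3) (n - a))
  rw [← pow_add, Nat.add_sub_cancel' (Nat.lt_succ_iff.1 a.2)] at this
  exact this

theorem bf_mul0 (n : ℕ) (g : Fin n → K) :
    ∃ g', ∀ t, bf p (n + 1) g' t = p t 0 * bf p n g t := by
  refine ⟨Fin.cons 0 g, fun t => ?_⟩
  rw [bf_apply, bf_apply, Fin.sum_univ_succ, Finset.mul_sum, Fin.cons_zero, zero_mul, zero_add]
  refine Finset.sum_congr rfl fun a _ => ?_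
  rw [Fin.cons_succ, Fin.val_succ, show n + 1 - 1 - (a + 1) = n - 1 - a by omega]
  ring

theorem bf_mul3 (n : ℕ) (g : Fin n → K) :
    ∃ g', ∀ t, bf p (n + 1) g' t = p t 3 * bf p n g t := by
  refine ⟨Fin.snoc g 0, fun t => ?_⟩
  rw [bf_apply, bf_apply, Fin.sum_univ_castSucc, Finset.mul_sum, Fin.snoc_last, zero_mul, add_zero]
  refine Finset.sum_congr rfl fun a _ => ?_
  rw [Fin.snoc_castSucc, Fin.val_castSucc,
    show n + 1 - 1 - a = n - 1 - a + 1 by have := a.2; omega]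
  ring

theorem bf_mul {l : Fin 4} (hl : l = 0 ∨ l = 3) (n : ℕ) (g : Fin n → K) :
    ∃ g', ∀ t, bf p (n + 1) g' t = p t l * bf p n g t := by
  rcases hl with rfl | rfl
  exacts [bf_mul0 p n g, bf_mul3 p n g]

theorem bf_mul' {l : Fin 4} (hl : l = 0 ∨ l = 3) (n : ℕ) (g : Fin (n - 1) → K) :
    ∃ g', ∀ t, bf p n g' t = p t l * bf p (n - 1) g t := by
  cases n with
  | zero => exact ⟨0, fun t => by simp [bf_apply]⟩
  | succ n => exact bf_mul p hl n g

theorem bf_sq (e : K) (n : ℕ) (g : Fin n → K) :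
    ∃ g', ∀ t, bf p (n + 2) g' t = (p t 3 ^ 2 + e * p t 0 ^ 2) * bf p n g t := by
  obtain ⟨a, ha⟩ := bf_mul3 p n g
  obtain ⟨a', ha'⟩ := bf_mul3 p (n + 1) a
  obtain ⟨b, hb⟩ := bf_mul0 p n g
  obtain ⟨b', hb'⟩ := bf_mul0 p (n + 1) b
  refine ⟨a' + e • b', fun t => ?_⟩
  rw [map_add, map_smul, Pi.add_apply, Pi.smul_apply, ha', ha, hb', hb, smul_eq_mul]
  ring

theorem bf_sq' (e : K) (n : ℕ) (g : Fin (n - 1) → K) :
    ∃ g', ∀ t, bf p (n + 1) g' t = (p t 3 ^ 2 + e * p t 0 ^ 2) * bf p (n - 1) g t := by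
  cases n with
  | zero => exact ⟨0, fun t => by simp [bf_apply]⟩
  | succ n => exact bf_sq p e n g

theorem range_nfm (hq : ∀ t, qd (p t) = 0) (d : ℕ) : LinearMap.range (nfm p d) = crd p ^ d := by
  apply le_antisymm
  · rintro _ ⟨g, rfl⟩
    rw [show nfm p d g = bf p (d + 1) g.1.1 + bf p d g.1.2 * (fun t => p t 1) +
      (bf p d g.2.1 * (fun t => p t 2) + bf p (d - 1) g.2.2 * (fun t => p t 1) * fun t => p t 2)
      from funext fun t => by rw [nfm_apply]; simp; ring]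
    have h1 : ∀ (n : ℕ) (g : Fin n → K) (l : Fin 4), bf p n g * (fun t => p t l) ∈ crd p ^ n := by
      intro n g l
      cases n with
      | zero => rw [bf_zero, zero_mul]; exact zero_mem _
      | succ n => exact pow_succ (crd p) n ▸ Submodule.mul_mem_mul (bf_mem p n g) (crd_mem p l)
    refine add_mem (add_mem (bf_mem p d _) (h1 _ _ _)) (add_mem (h1 _ _ _) ?_)
    cases d with
    | zero => rw [show bf p (0 - 1) g.2.2 = 0 from bf_zero p _, zero_mul, zero_mul]; exact zero_mem _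
    | succ n => exact pow_succ (crd p) n ▸ Submodule.mul_mem_mul (h1 _ _ _) (crd_mem p 2)
  · induction d with
    | zero =>
      rw [pow_zero, Submodule.one_le]
      exact ⟨((1, 0), 0), funext fun t => by rw [nfm_apply]; simp [bf_apply]⟩
    | succ d ih =>
      rw [pow_succ]
      refine (mul_le_mul_left ih _).trans (mul_le.2 ?_)
      rintro _ ⟨g, rfl⟩ f hf
      induction hf using span_induction with
      | zero => simp
      | add a b _ _ ha hb => exact mul_add (nfm p d g) a b ▸ add_mem ha hb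
      | smul c a _ ha => exact (mul_smul_comm c (nfm p d g) a).symm ▸ smul_mem _ _ ha
      | mem f hf =>
        obtain ⟨l, rfl⟩ := hf
        have hs : ∀ l : Fin 4, l = 0 ∨ l = 3 →
            (nfm p d g * fun t => p t l) ∈ LinearMap.range (nfm p (d + 1)) := fun l hl => by
          obtain ⟨a, ha⟩ := bf_mul p hl _ g.1.1
          obtain ⟨b, hb⟩ := bf_mul p hl _ g.1.2
          obtain ⟨c, hc⟩ := bf_mul p hl _ g.2.1
          obtain ⟨e, he⟩ := bf_mul' p hl _ g.2.2
          refine ⟨((a, b), c, e), funext fun t => ?_⟩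
          have he' : bf p (d + 1 - 1) e t = _ := he t
          rw [Pi.mul_apply, nfm_apply, nfm_apply, ha, hb, hc, he']
          ring
        fin_cases l
        · exact hs 0 (.inl rfl)
        · obtain ⟨a, ha⟩ := bf_sq p (-1) _ g.1.2
          obtain ⟨c, hc⟩ := bf_sq' p (-1) _ g.2.2
          refine ⟨((a, g.1.1), c, g.2.1), funext fun t => ?_⟩
          have h := (qd_iff.1 (hq t)).1
          show _ = nfm p d g t * p t 1
          rw [nfm_apply, nfm_apply, ha, hc]
          show _ + _ + (_ + _ * bf p d g.2.1 t) = _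
          linear_combination (-bf p d g.1.2 t - p t 2 * bf p (d - 1) g.2.2 t) * h
        · obtain ⟨a, ha⟩ := bf_sq p 1 _ g.2.1
          obtain ⟨c, hc⟩ := bf_sq' p 1 _ g.2.2
          refine ⟨((a, c), g.1.1, g.1.2), funext fun t => ?_⟩
          have h := (qd_iff.1 (hq t)).2
          show _ = nfm p d g t * p t 2
          rw [nfm_apply, nfm_apply, ha, hc]
          show _ + _ + (_ + _ * bf p d g.1.2 t) = _
          linear_combination (-bf p d g.2.1 t - p t 1 * bf p (d - 1) g.2.2 t) * h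
        · exact hs 3 (.inr rfl)

theorem par_smul {σ : Type} {x y : σ → K} (h : Par x y) : ∃ c : K, c ≠ 0 ∧ y = c • x := by
  obtain ⟨c, hc, rfl⟩ := h
  exact ⟨c⁻¹, inv_ne_zero hc.ne_zero, by rw [smul_smul, inv_mul_cancel₀ hc.ne_zero, one_smul]⟩

theorem bf_inj [Infinite K] {n : ℕ} (g : Fin n → K) (f : Polynomial K) (hf : f ≠ 0)
    (h : ∀ s : K, f.eval s * ∑ a, g a * s ^ (a : ℕ) = 0) : g = 0 := by
  have h1 : f * ∑ a : Fin n, Polynomial.monomial (a : ℕ) (g a) = 0 :=
    Polynomial.funext fun s => by simpa [Polynomial.eval_finsetSum] using h s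
  have h2 := (mul_eq_zero.1 h1).resolve_left hf
  funext a
  have := congrArg (Polynomial.coeff · a) h2
  simpa [Polynomial.finsetSum_coeff, Polynomial.coeff_monomial, Fin.val_inj] using this

theorem bf_smul (n : ℕ) (g : Fin n → K) {t : T} {c s x y : K} (h : p t = c • ![s, x, y, 1]) :
    bf p n g t = c ^ (n - 1) * ∑ a, g a * s ^ (a : ℕ) := by
  rw [bf_apply, Finset.mul_sum]
  refine Finset.sum_congr rfl fun a _ => ?_
  have : c ^ (n - 1) = c ^ (a : ℕ) * c ^ (n - 1 - a) := by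
    rw [← pow_add]
    congr 1
    have := a.2
    omega
  rw [this, h]
  simp
  ring

theorem ker_nfm [IsAlgClosed K] (h2 : (2 : K) ≠ 0)
    (hc : ∀ z, z ≠ 0 → qd z = 0 → ∃ t, Par z (p t)) (d : ℕ) : Injective (nfm p d) := by
  rw [injective_iff_map_eq_zero]
  intro g hg
  have key : ∀ s x y : K, x ^ 2 = 1 - s ^ 2 → y ^ 2 = 1 + s ^ 2 →
      ∑ a, g.1.1 a * s ^ (a : ℕ) + x * ∑ a, g.1.2 a * s ^ (a : ℕ) +
        (y * ∑ a, g.2.1 a * s ^ (a : ℕ) + x * y * ∑ a, g.2.2 a * s ^ (a : ℕ)) = 0 := by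
    intro s x y hx hy
    obtain ⟨t, ht⟩ := hc ![s, x, y, 1] (fun e => by simpa using congrFun e 3)
      (qd_iff.2 ⟨by simpa using hx, by simpa using hy⟩)
    obtain ⟨c, hc, ht⟩ := par_smul ht
    have := congrFun hg t
    rw [nfm_apply, bf_smul p _ _ ht, bf_smul p _ _ ht, bf_smul p _ _ ht, bf_smul p _ _ ht, ht]
      at this
    refine (mul_eq_zero.1 (?_ : c ^ d * _ = 0)).resolve_left (pow_ne_zero _ hc)
    rcases d with _ | _ | d
    · simpa using this
    · simp only [Nat.add_sub_cancel, Pi.smul_apply, smul_eq_mul, Pi.zero_apply, Matrix.cons_val,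
        Finset.univ_eq_empty, Finset.sum_empty] at this ⊢
      linear_combination this
    · simp only [Nat.add_sub_cancel, Pi.smul_apply, smul_eq_mul, Pi.zero_apply] at this
      simp only [Matrix.cons_val] at this
      linear_combination this
  have h4 : ∀ s : K, ∑ a, g.1.1 a * s ^ (a : ℕ) = 0 ∧
      (1 - s ^ 2) * ∑ a, g.1.2 a * s ^ (a : ℕ) = 0 ∧ (1 + s ^ 2) * ∑ a, g.2.1 a * s ^ (a : ℕ) = 0 ∧
      (1 - s ^ 2) * (1 + s ^ 2) * ∑ a, g.2.2 a * s ^ (a : ℕ) = 0 := fun s => by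
    obtain ⟨x, hx⟩ := IsAlgClosed.exists_pow_nat_eq (1 - s ^ 2) two_pos
    obtain ⟨y, hy⟩ := IsAlgClosed.exists_pow_nat_eq (1 + s ^ 2) two_pos
    have a1 := key s x y hx hy
    have a2 := key s (-x) y (by rw [← hx]; ring) hy
    have a3 := key s x (-y) hx (by rw [← hy]; ring)
    have a4 := key s (-x) (-y) (by rw [← hx]; ring) (by rw [← hy]; ring)
    have h4 : (2 * 2 : K) ≠ 0 := mul_ne_zero h2 h2
    rw [← hy, ← hx]
    refine ⟨mul_left_cancel₀ h4 ?_, mul_left_cancel₀ h4 ?_, mul_left_cancel₀ h4 ?_,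
      mul_left_cancel₀ h4 ?_⟩
    · linear_combination a1 + a2 + a3 + a4
    · linear_combination x * (a1 - a2 + a3 - a4)
    · linear_combination y * (a1 + a2 - a3 - a4)
    · linear_combination x * y * (a1 - a2 - a3 + a4)
  have n1 : (1 - Polynomial.X ^ 2 : Polynomial K) ≠ 0 := fun e => by
    simpa using congrArg (Polynomial.eval 0) e
  have n2 : (1 + Polynomial.X ^ 2 : Polynomial K) ≠ 0 := fun e => by
    simpa using congrArg (Polynomial.eval 0) e
  exact Prod.ext (Prod.ext (bf_inj _ 1 one_ne_zero fun s => by simpa using (h4 s).1)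
    (bf_inj _ _ n1 fun s => by simpa using (h4 s).2.1))
    (Prod.ext (bf_inj _ _ n2 fun s => by simpa using (h4 s).2.2.1)
      (bf_inj _ _ (mul_ne_zero n1 n2) fun s => by simpa using (h4 s).2.2.2))

theorem hilb [IsAlgClosed K] (h2 : (2 : K) ≠ 0) (hq : ∀ t, qd (p t) = 0)
    (hc : ∀ z, z ≠ 0 → qd z = 0 → ∃ t, Par z (p t)) (d : ℕ) :
    Module.finrank K (crd p ^ d :) = d + 1 + d + (d + (d - 1)) := by
  rw [← range_nfm p hq, LinearMap.finrank_range_of_inj (ker_nfm p h2 hc d)]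
  simp

open MvPolynomial in
theorem hp_eq [IsAlgClosed K] (h2 : (2 : K) ≠ 0) (hq : ∀ t, qd (p t) = 0)
    (hc : ∀ z, z ≠ 0 → qd z = 0 → ∃ t, Par z (p t)) : hp ![crd p] = C 4 * X 0 := by
  have h4 : ∀ᶠ d : Fin 1 → ℕ in Filter.atTop,
      (Module.finrank K (∏ i, ![crd p] i ^ d i : Submodule K (T → K)) : ℚ) = 4 * d 0 := by
    filter_upwards [Filter.eventually_ge_atTop 1] with d hd
    have : 1 ≤ d 0 := hd 0
    rw [Fin.prod_univ_one, Matrix.cons_val_zero, hilb p h2 hq hc,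
      show d 0 + 1 + d 0 + (d 0 + (d 0 - 1)) = 4 * d 0 by omega]
    simp
  have h := Classical.epsilon_spec (p := fun P : MvPolynomial (Fin 1) ℚ =>
    ∀ᶠ d : Fin 1 → ℕ in Filter.atTop, eval (fun i => (d i : ℚ)) P =
      Module.finrank K (∏ i, ![crd p] i ^ d i : Submodule K (T → K)))
    ⟨C 4 * X 0, h4.mono fun d hd => by rw [hd]; simp⟩
  obtain ⟨N, hN⟩ := Filter.eventually_atTop.1 (h.and h4)
  refine MvPolynomial.funext_set (fun i => Nat.cast '' Set.Ici (N i))
    (fun i => (Set.Ici_infinite _).image Nat.cast_injective.injOn) fun x hx => ?_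
  choose d hd e using fun i => hx i (Set.mem_univ i)
  obtain rfl : x = fun i => (d i : ℚ) := funext fun i => (e i).symm
  have := hN d hd
  exact (this.1.trans this.2).trans (by simp)

open MvPolynomial in
theorem idl_eq [IsAlgClosed K] (h2 : (2 : K) ≠ 0) (hq : ∀ t, qd (p t) = 0)
    (hc : ∀ z, z ≠ 0 → qd z = 0 → ∃ t, Par z (p t)) : idl p = qI K := by
  obtain ⟨i, hi⟩ := IsAlgClosed.exists_pow_nat_eq (-1 : K) two_pos
  have hz : {z | ∃ (c : K) (t : T), z = c • p t} = zeroLocus K (qI K) := by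
    ext z
    rw [mem_zeroLocus_iff, eval_qI]
    constructor
    · rintro ⟨c, t, rfl⟩
      obtain ⟨h0, h1⟩ := qd_iff.1 (hq t)
      exact qd_iff.2 ⟨by simp only [Pi.smul_apply, smul_eq_mul]; linear_combination c ^ 2 * h0,
        by simp only [Pi.smul_apply, smul_eq_mul]; linear_combination c ^ 2 * h1⟩
    · intro h
      by_cases h0 : z = 0
      · obtain ⟨t, -⟩ := hc ![0, 1, 1, 1] (fun e => by simpa using congrFun e 3)
          (qd_iff.2 ⟨by simp, by simp⟩)
        exact ⟨0, t, by simp [h0]⟩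
      · obtain ⟨t, c, -, e⟩ := hc z h0 h
        exact ⟨c, t, e⟩
  rw [idl, hz, vanishingIdeal_zeroLocus_eq_radical, (qI_prime h2 hi).radical]

end Pool.Agent.Tav.Ex
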