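import Pool.Agent.P.MP_2ce3e7_ag.Tav.ExHilb

set_option autoImplicit false

noncomputable section

namespace Pool.Agent.Tav.Ex

open Set Function Submodule

section
variable {K : Type} [CommRing K] {σ : Type}

/-- some coordinate is a unit -/
def Prim (x : σ → K) : Prop := ∃ i, IsUnit (x i)

theorem par_refl (x : σ → K) : Par x x := ⟨1, isUnit_one, (one_smul _ _).symm⟩

theorem par_symm {x y : σ → K} (h : Par x y) : Par y x := by
  obtain ⟨_, ⟨c, rfl⟩, rfl⟩ := h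
  exact ⟨↑c⁻¹, c⁻¹.isUnit, by rw [smul_smul, c.inv_mul, one_smul]⟩

theorem par_trans {x y z : σ → K} (h : Par x y) (h' : Par y z) : Par x z := by
  obtain ⟨c, hc, rfl⟩ := h
  obtain ⟨d, hd, rfl⟩ := h'
  exact ⟨c * d, hc.mul hd, smul_smul _ _ _⟩

theorem par_of_smul {x y : σ → K} (hx : Prim x) {c : K} (h : x = c • y) : Par x y := by
  obtain ⟨i, hi⟩ := hx
  rw [h] at hi
  exact ⟨c, isUnit_of_mul_isUnit_left hi, h⟩

theorem par_of_pp {x y : σ → K} (hx : Prim x) (hy : Prim y) (h : Pp x y) : Par x y := by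
  obtain ⟨j, c, hc⟩ := hy
  refine par_of_smul hx (c := x j * ↑c⁻¹) (funext fun i => ?_)
  rw [Pi.smul_apply, smul_eq_mul, mul_right_comm, ← h i j, ← hc, c.mul_inv_cancel_right]

theorem pp_of_par {x y : σ → K} (h : Par x y) : Pp x y := by
  obtain ⟨c, -, rfl⟩ := h
  intro i j
  simp only [Pi.smul_apply, smul_eq_mul]
  ring

theorem par_map {L : Type} [CommRing L] (r : K →+* L) {x y : σ → K} (h : Par x y) :
    Par (fun l => r (x l)) fun l => r (y l) := by
  obtain ⟨c, hc, rfl⟩ := h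
  exact ⟨r c, hc.map r, funext fun l => by simp⟩

theorem law_smul (c d : K) (x y : Fin 4 → K) (i j : Fin 4) :
    law (c • x) (d • y) i j = c ^ 2 * d ^ 2 * law x y i j := by
  fin_cases i <;> fin_cases j <;> simp [law] <;> ring

theorem law_map {L : Type} [CommRing L] (r : K →+* L) (x y : Fin 4 → K) (i j : Fin 4) :
    r (law x y i j) = law (fun l => r (x l)) (fun l => r (y l)) i j := by
  fin_cases i <;> fin_cases j <;> simp [law, map_ofNat]

theorem qd_map {L : Type} [CommRing L] (r : K →+* L) (x : Fin 4 → K) (i : Fin 2) :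
    r (qd x i) = qd (fun l => r (x l)) i := by
  fin_cases i <;> simp [qd]

theorem qd_smul (c : K) (x : Fin 4 → K) (i : Fin 2) : qd (c • x) i = c ^ 2 * qd x i := by
  fin_cases i <;> simp [qd] <;> ring

theorem law_mem {T : Type} (x y : T → Fin 4 → K) (i j : Fin 4) :
    (fun t => law (x t) (y t) i j) ∈ crd x ^ 2 * crd y ^ 2 := by
  have h : ∀ a b c d, ((fun t => x t a) * fun t => x t b) * ((fun t => y t c) * fun t => y t d) ∈
      crd x ^ 2 * crd y ^ 2 := fun a b c d => by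
    rw [sq, sq]
    exact Submodule.mul_mem_mul
      (Submodule.mul_mem_mul (subset_span ⟨a, rfl⟩) (subset_span ⟨b, rfl⟩))
      (Submodule.mul_mem_mul (subset_span ⟨c, rfl⟩) (subset_span ⟨d, rfl⟩))
  have h2 : ∀ (e : K) a b c d a' b' c' d', (fun t => x t a * x t b * (y t c * y t d) +
      e * (x t a' * x t b' * (y t c' * y t d'))) ∈ crd x ^ 2 * crd y ^ 2 :=
    fun e a b c d a' b' c' d' => add_mem (h a b c d) (smul_mem _ e (h a' b' c' d'))
  fin_cases i <;> fin_cases j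
  · convert h2 (-1) 0 0 3 3 3 3 0 0 using 2; simp [law]; ring
  · convert h2 1 0 1 2 3 2 3 0 1 using 2; simp [law]
  · convert h2 1 0 2 1 3 1 3 0 2 using 2; simp [law]
  · convert h2 1 0 3 1 2 1 2 0 3 using 2; simp [law]
  · convert h2 (-1) 0 1 2 3 2 3 0 1 using 2; simp [law]; ring
  · convert h2 (-2) 1 1 1 1 0 0 0 0 using 2; simp [law]; ring
  · convert h2 (-2) 1 2 1 2 0 3 0 3 using 2; simp [law]; ring
  · convert h2 (-1) 1 3 1 3 0 2 0 2 using 2; simp [law]; ring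
  · convert h2 (-1) 0 2 1 3 1 3 0 2 using 2; simp [law]; ring
  · convert h2 2 1 2 1 2 0 3 0 3 using 2; simp [law]
  · convert h2 (-2) 2 2 2 2 0 0 0 0 using 2; simp [law]; ring
  · convert h2 1 2 3 2 3 0 1 0 1 using 2; simp [law]
  · convert h2 (-1) 0 3 1 2 1 2 0 3 using 2; simp [law]; ring
  · convert h2 1 1 3 1 3 0 2 0 2 using 2; simp [law]
  · convert h2 (-1) 2 3 2 3 0 1 0 1 using 2; simp [law]; ring
  · convert h2 1 3 3 3 3 0 0 0 0 using 2; simp [law]; ring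

variable {G : Type} [AddCommGroup G]

/-- primitive points of the curve that obey the law -/
structure Lw (q : G → Fin 4 → K) : Prop where
  prim : ∀ a, Prim (q a)
  cv : ∀ a, qd (q a) = 0
  law : ∀ a b, Par (fun ij : Fin 4 × Fin 4 => law (q a) (q b) ij.1 ij.2)
    fun ij => q (a + b) ij.1 * q (a - b) ij.2

variable {q : G → Fin 4 → K}

theorem Lw.unit (h : Lw q) : ∃ c : G × G → K, (∀ t, IsUnit (c t)) ∧
    ∀ t i j, c t * (q (t.1 + t.2) i * q (t.1 - t.2) j) = Ex.law (q t.1) (q t.2) i j := by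
  choose c hc e using h.law
  exact ⟨fun t => c t.1 t.2, fun t => hc _ _, fun t i j => (congrFun (e t.1 t.2) (i, j)).symm⟩

theorem Lw.map (h : Lw q) {L : Type} [CommRing L] (r : K →+* L) : Lw fun a l => r (q a l) where
  prim a := (h.prim a).imp fun _ hi => hi.map r
  cv a := funext fun i => by rw [← qd_map, h.cv, Pi.zero_apply, map_zero, Pi.zero_apply]
  law a b := by simpa only [law_map, map_mul] using par_map r (h.law a b)

theorem Lw.congr (h : Lw q) {a b a' b' : G} (ha : Par (q a) (q a')) (hb : Par (q b) (q b')) :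
    Par (q (a + b)) (q (a' + b')) ∧ Par (q (a - b)) (q (a' - b')) := by
  obtain ⟨c, hc, e⟩ := h.unit
  obtain ⟨x, -, ha⟩ := ha
  obtain ⟨y, -, hb⟩ := hb
  obtain ⟨u, hu⟩ := hc (a, b)
  have k : ∀ i j, q (a + b) i * q (a - b) j =
      ↑u⁻¹ * (x ^ 2 * y ^ 2 * c (a', b')) * (q (a' + b') i * q (a' - b') j) := fun i j => by
    have e1 := e (a, b) i j
    have e2 := e (a', b') i j
    simp only at e1 e2
    rw [ha, hb, law_smul, ← e2, ← hu] at e1
    rw [mul_assoc, Units.eq_inv_mul_iff_mul_eq, e1]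
    ring
  obtain ⟨i, v, hv⟩ := h.prim (a + b)
  obtain ⟨j, w, hw⟩ := h.prim (a - b)
  generalize ↑u⁻¹ * (x ^ 2 * y ^ 2 * c (a', b')) = s at k
  refine ⟨par_of_smul (h.prim _) (c := ↑w⁻¹ * (s * q (a' - b') j)) (funext fun l => ?_),
    par_of_smul (h.prim _) (c := ↑v⁻¹ * (s * q (a' + b') i)) (funext fun l => ?_)⟩
  · rw [Pi.smul_apply, smul_eq_mul, mul_assoc, Units.eq_inv_mul_iff_mul_eq, hw]
    linear_combination k l j
  · rw [Pi.smul_apply, smul_eq_mul, mul_assoc, Units.eq_inv_mul_iff_mul_eq, hv]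
    linear_combination k i l

/-- the congruence -/
def Lw.con (h : Lw q) : AddCon G where
  r a b := Par (q a) (q b)
  iseqv := ⟨fun _ => par_refl _, par_symm, par_trans⟩
  add' ha hb := (h.congr ha hb).1

theorem Lw.of_par (h : Lw q) {H : Type} [AddCommGroup H] {p : H → Fin 4 → K} (f : G →+ H)
    (hf : Surjective f) (e : ∀ a, Par (p (f a)) (q a)) : Lw p where
  prim b := by
    obtain ⟨a, rfl⟩ := hf b
    obtain ⟨c, hc, e⟩ := e a
    obtain ⟨i, hi⟩ := h.prim a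
    exact ⟨i, e ▸ hc.mul hi⟩
  cv b := by
    obtain ⟨a, rfl⟩ := hf b
    obtain ⟨c, -, e⟩ := e a
    exact funext fun i => by rw [e, qd_smul, h.cv, Pi.zero_apply, mul_zero]
  law a b := by
    obtain ⟨a, rfl⟩ := hf a
    obtain ⟨b, rfl⟩ := hf b
    rw [← map_add, ← map_sub]
    obtain ⟨c, hc, e1⟩ := e a
    obtain ⟨d, hd, e2⟩ := e b
    obtain ⟨c', hc', e3⟩ := e (a + b)
    obtain ⟨d', hd', e4⟩ := e (a - b)
    refine par_trans ⟨c ^ 2 * d ^ 2, (hc.pow 2).mul (hd.pow 2), funext fun ij => ?_⟩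
      (par_trans (h.law a b) (par_symm ⟨c' * d', hc'.mul hd', funext fun ij => ?_⟩))
    · rw [e1, e2, law_smul]
      rfl
    · rw [e3, e4]
      simp only [Pi.smul_apply, smul_eq_mul]
      ring

theorem crd_le {T : Type} {x : T → σ → K} {c : T → K} {W : Submodule K (T → K)}
    (h : ∀ l, (c * fun t => x t l) ∈ W) : ∀ w ∈ crd x, c * w ∈ W := by
  intro w hw
  induction hw using span_induction with
  | mem f hf => obtain ⟨l, rfl⟩ := hf; exact h l
  | zero => simp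
  | add a b _ _ ha hb => exact (mul_add c a b).symm ▸ add_mem ha hb
  | smul s a _ ha => exact (mul_smul_comm s c a).symm ▸ smul_mem _ _ ha

theorem mul_sq_mem {T : Type} {c : T → K} {W W' : Submodule K (T → K)}
    (h : ∀ w ∈ W, c * w ∈ W') : span K {c ^ 2} * W ^ 2 ≤ W' ^ 2 := by
  have : span K {c} * W ≤ W' := by
    rw [mul_le]
    intro a ha w hw
    obtain ⟨s, rfl⟩ := mem_span_singleton.1 ha
    exact (smul_mul_assoc s c w).symm ▸ smul_mem _ _ (h w hw)
  rw [← Set.singleton_pow, ← span_pow, ← mul_pow]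
  exact pow_le_pow_left' this 2

theorem Lw.mor (h : Lw q) {T τ : Type} {p : T → τ → K} {f g : T → G} (hf : Mor p q f)
    (hg : Mor p q g) : Mor p q (f + g) := by
  intro t
  obtain ⟨c, hc, e⟩ := h.unit
  obtain ⟨e1, c1, u1, h1⟩ := hf t
  obtain ⟨e2, c2, u2, h2⟩ := hg t
  obtain ⟨j, hj⟩ := h.prim (f t - g t)
  simp only [Fin.prod_univ_one, Matrix.cons_val_zero] at h1 h2 ⊢
  refine ⟨fun _ => e1 0 * 2 + e2 0 * 2,
    c1 ^ 2 * c2 ^ 2 * fun s => c (f s, g s) * q (f s - g s) j,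
    ((u1.pow 2).mul (u2.pow 2)).mul ((hc _).mul hj), crd_le fun i => ?_⟩
  have := Submodule.mul_mem_mul (Submodule.mul_mem_mul (mem_span_singleton_self (R := K) (c1 ^ 2))
    (mem_span_singleton_self (R := K) (c2 ^ 2))) (law_mem (fun s => q (f s)) (fun s => q (g s)) i j)
  rw [mul_mul_mul_comm] at this
  rw [pow_add, pow_mul, pow_mul]
  convert mul_le_mul' (mul_sq_mem h1) (mul_sq_mem h2) this using 1
  funext s
  have := e (f s, g s) i j
  simp only [Pi.mul_apply, Pi.add_apply] at this ⊢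
  linear_combination (c1 ^ 2) s * (c2 ^ 2) s * this

theorem mor_id {T τ : Type} (p : T → τ → K) : Mor p p id :=
  fun _ => ⟨fun _ => 1, 1, isUnit_one, fun w hw => by simpa using hw⟩

theorem mor_const {T U τ : Type} (p : T → τ → K) (x : U → σ → K) (a : U) :
    Mor p x fun _ => a :=
  fun _ => ⟨fun _ => 0, 1, isUnit_one, crd_le fun l => by
    simp only [pow_zero, Finset.prod_const_one, one_mul]
    exact Submodule.mem_one.2 ⟨x a l, rfl⟩⟩

omit [AddCommGroup G] in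
theorem mor_rot {T τ : Type} {p : T → τ → K} {f : T → G} (hf : Mor p q f) {i : K} {ρ : G → G}
    (h : ∀ a, Par (rot i (q a)) (q (ρ a))) : Mor p q fun t => ρ (f t) := by
  intro t
  choose c hc e using h
  obtain ⟨e1, c1, u1, h1⟩ := hf t
  refine ⟨e1, c1 * fun s => c (f s), u1.mul (hc _), crd_le fun l => ?_⟩
  rw [mul_assoc]
  refine h1 _ ?_
  rw [show ((fun s => c (f s)) * fun s => q (ρ (f s)) l) = fun s => rot i (q (f s)) l from
    funext fun s => (congrFun (e (f s)) l).symm]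
  fin_cases l
  exacts [smul_mem _ i (subset_span ⟨0, rfl⟩), subset_span ⟨2, rfl⟩, subset_span ⟨1, rfl⟩,
    subset_span ⟨3, rfl⟩]

theorem Lw.frob (h : Lw q) {i : K} (hi : i ^ 2 = -1) (h0 : IsUnit (q 0 3)) {a b : G}
    (hb : Par (q b) (rot i (q a))) : Par (q (b + b - a)) (frb i (q a)) := by
  obtain ⟨c, hc, e⟩ := h.unit
  obtain ⟨x, -, hb⟩ := hb
  obtain ⟨u, hu⟩ := (hc (b, b)).mul h0
  have e1 : q (b + b) = (↑u⁻¹ * (x ^ 2 * x ^ 2) : K) •
      fun k => Ex.law (rot i (q a)) (rot i (q a)) k 3 := funext fun k => by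
    have := e (b, b) k 3
    simp only [sub_self] at this
    rw [hb, law_smul] at this
    rw [Pi.smul_apply, smul_eq_mul, mul_assoc, Units.eq_inv_mul_iff_mul_eq, hu, ← this]
    ring
  obtain ⟨k, hk⟩ := h.prim (b + b + a)
  obtain ⟨v, hv⟩ := (hc (b + b, a)).mul hk
  refine par_of_smul (h.prim _)
    (c := ↑v⁻¹ * ((↑u⁻¹ * (x ^ 2 * x ^ 2)) ^ 2 * frc i (q a) k)) (funext fun l => ?_)
  have := e (b + b, a) k l
  simp only at this
  rw [e1, ← one_smul K (q a), law_smul, one_smul, law_frb hi (h.cv a)] at this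
  rw [Pi.smul_apply, smul_eq_mul, mul_assoc, Units.eq_inv_mul_iff_mul_eq, hv]
  linear_combination this

end

variable {K G : Type} [Field K] [AddCommGroup G] {q : G → Fin 4 → K}

theorem prim_iff {σ : Type} {x : σ → K} : Prim x ↔ x ≠ 0 := by
  simp [Prim, funext_iff]

theorem law_ne (h2 : (2 : K) ≠ 0) {x y : Fin 4 → K} (hx : qd x = 0) (hy : qd y = 0) (x0 : x ≠ 0)
    (y0 : y ≠ 0) : (fun ij : Fin 4 × Fin 4 => law x y ij.1 ij.2) ≠ 0 := by
  intro h
  have k : ∀ x : Fin 4 → K, qd x = 0 → x 0 = 0 → x 3 = 0 → x = 0 := fun x hx a b => by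
    obtain ⟨h0, h1⟩ := qd_iff.1 hx
    funext l
    fin_cases l
    exacts [a, by simpa [a, b] using h0, by simpa [a, b] using h1, b]
  obtain ⟨h0, h1⟩ := qd_iff.1 hx
  obtain ⟨h3, h4⟩ := qd_iff.1 hy
  have a0 : x 0 ^ 2 * y 3 ^ 2 - x 3 ^ 2 * y 0 ^ 2 = 0 := congrFun h (0, 0)
  have a1 : x 1 ^ 2 * y 1 ^ 2 - 2 * (x 0 ^ 2 * y 0 ^ 2) = 0 := congrFun h (1, 1)
  have a2 : x 2 ^ 2 * y 2 ^ 2 - 2 * (x 0 ^ 2 * y 0 ^ 2) = 0 := congrFun h (2, 2)
  have a3 : x 3 ^ 2 * y 3 ^ 2 + x 0 ^ 2 * y 0 ^ 2 = 0 := congrFun h (3, 3)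
  rw [h0, h3] at a1
  rw [h1, h4] at a2
  have h4 : (2 * 2 : K) ≠ 0 := mul_ne_zero h2 h2
  have b0 : x 0 ^ 2 * y 0 ^ 2 = 0 := mul_left_cancel₀ h4 (by linear_combination 2 * a3 - a1 - a2)
  have b1 : x 0 ^ 2 * y 3 ^ 2 = 0 := mul_left_cancel₀ h4 (by linear_combination a2 - a1 + 2 * a0)
  have b2 : x 3 ^ 2 * y 0 ^ 2 = 0 := by linear_combination b1 - a0
  have b3 : x 3 ^ 2 * y 3 ^ 2 = 0 := by linear_combination a3 - b0
  by_cases c0 : y 0 = 0
  · have c3 : y 3 ≠ 0 := fun e => y0 (k y hy c0 e)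
    exact x0 (k x hx (by simpa [c3] using b1) (by simpa [c3] using b3))
  · exact x0 (k x hx (by simpa [c0] using b0) (by simpa [c0] using b2))

theorem Lw.av [IsAlgClosed K] (h : Lw q) (h2 : (2 : K) ≠ 0)
    (hc : ∀ z, z ≠ 0 → qd z = 0 → ∃ t, Par z (q t)) : AV q 1 := by
  obtain ⟨i, hi⟩ := IsAlgClosed.exists_pow_nat_eq (-1 : K) two_pos
  refine ⟨fun a => prim_iff.1 (h.prim a), fun z hz z0 => hc z z0 ?_, ?_, ?_, fun t => ?_⟩
  · rwa [idl_eq q h2 h.cv hc, MvPolynomial.mem_zeroLocus_iff, eval_qI] at hz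
  · rw [idl_eq q h2 h.cv hc]
    exact qI_prime h2 hi
  · rw [dm, hp_eq _ h2 (fun t => h.cv _) fun z z0 hz =>
      (hc z z0 hz).elim fun t ht => ⟨⟨t, trivial⟩, ht⟩,
      MvPolynomial.totalDegree_mul_of_isDomain (by simp) (MvPolynomial.X_ne_zero _)]
    simp
  · obtain ⟨c, hc, e⟩ := h.unit
    obtain ⟨k, hk⟩ := h.prim (t.1 + t.2)
    refine ⟨fun _ => 2, fun s => c s * q (s.1 + s.2) k, (hc t).mul hk, crd_le fun l => ?_⟩
    rw [Fin.prod_univ_two, show ((fun s : G × G => c s * q (s.1 + s.2) k) *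
      fun s => q (s.1 - s.2) l) = fun s => Ex.law (q s.1) (q s.2) k l from
      funext fun s => by rw [← e, Pi.mul_apply, mul_assoc]]
    exact law_mem (fun s : G × G => q s.1) (fun s => q s.2) k l

end Pool.Agent.Tav.Ex
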