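import Pool.Agent.P.MP_2ce3e7_ag.Tav.ExLaw

set_option autoImplicit false

noncomputable section

namespace Pool.Agent.Tav.Ex

open Set Function Complex

/-- a real basis of `Fin 1 → ℂ` -/
def bas {ω : ℂ} (h : ω ≠ 0) : Module.Basis (Fin 2) ℝ (Fin 1 → ℂ) :=
  basisOneI.map (((LinearEquiv.smulOfNeZero ℂ ℂ ω h).trans
    (LinearEquiv.funUnique (Fin 1) ℂ ℂ).symm).restrictScalars ℝ)

/-- the lattice -/
def Lm {ω : ℂ} (h : ω ≠ 0) : Submodule ℤ (Fin 1 → ℂ) := Submodule.span ℤ (range (bas h))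

variable {ω : ℂ} (h : ω ≠ 0)

theorem mem_Lm {v : Fin 1 → ℂ} : v ∈ Lm h ↔ ∃ m n : ℤ, v 0 = ω * (m + n * I) := by
  have e : ∀ c : Fin 2 → ℤ, (∑ i, c i • bas h i) 0 = ω * (c 0 + c 1 * I) := fun c => by
    simp [bas, Fin.sum_univ_two]
    ring
  rw [Lm, Submodule.mem_span_range_iff_exists_fun]
  constructor
  · rintro ⟨c, rfl⟩
    exact ⟨c 0, c 1, e c⟩
  · rintro ⟨m, n, hv⟩
    exact ⟨![m, n], funext fun i => by rw [Subsingleton.elim i 0, e, hv]; rfl⟩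

theorem disc_Lm : DiscreteTopology (Lm h) := by
  unfold Lm
  infer_instance

theorem lat_Lm : @IsZLattice ℝ _ _ _ _ (Lm h) (disc_Lm h) :=
  @IsZLattice.mk ℝ _ _ _ _ (Lm h) (disc_Lm h) (ZSpan.span_top (bas h))

theorem riem_Lm : Riem (Lm h) := by
  have n0 : 0 < normSq ω := normSq_pos.2 h
  refine ⟨LinearMap.mk₂ ℝ (fun v w => ((v 0).im * (w 0).re - (v 0).re * (w 0).im) / normSq ω)
    (fun _ _ _ => by simp; ring) (fun _ _ _ => by simp; ring) (fun _ _ _ => by simp; ring)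
    (fun _ _ _ => by simp; ring), fun v => by simp [mul_comm], fun l hl l' hl' => ?_,
    fun v w => by simp; ring, fun v hv => ?_⟩
  · obtain ⟨m, n, e⟩ := (mem_Lm h).1 hl
    obtain ⟨m', n', e'⟩ := (mem_Lm h).1 hl'
    refine ⟨n * m' - m * n', ?_⟩
    rw [LinearMap.mk₂_apply, e, e', div_eq_iff n0.ne', normSq_apply]
    simp
    ring
  · have : 0 < normSq (v 0) := normSq_pos.2 fun e => hv (funext fun i => by
      rw [Subsingleton.elim i 0, e]; rfl)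
    rw [LinearMap.mk₂_apply]
    refine div_pos ?_ n0
    simpa [normSq_apply] using this

theorem en_Lm {a : Fin 1 → ℂ} : a ∈ En (Lm h) ↔ ∃ m n : ℤ, a 0 = m + n * I := by
  constructor
  · intro ha
    obtain ⟨m, n, e⟩ := (mem_Lm h).1 (ha (fun _ => ω) ((mem_Lm h).2 ⟨1, 0, by simp⟩))
    exact ⟨m, n, mul_left_cancel₀ h (by rw [← e, mul_comm]; rfl)⟩
  · rintro ⟨m, n, e⟩ l hl
    obtain ⟨m', n', e'⟩ := (mem_Lm h).1 hl
    refine (mem_Lm h).2 ⟨m * m' - n * n', m * n' + n * m', ?_⟩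
    rw [Pi.mul_apply, e, e']
    push_cast
    linear_combination ω * n * n' * I_mul_I

theorem lift_sq {Ω : Type} [Field Ω] {R : ValuationSubring ℂ} (r : R →+* Ω) (a : R) {y : Ω}
    (hy : y ^ 2 = r a) : ∃ b : R, b ^ 2 = a ∧ r b = y := by
  obtain ⟨z, hz⟩ := IsAlgClosed.exists_pow_nat_eq (a : ℂ) two_pos
  have hm : z ∈ R := (R.valuation_le_one_iff z).1 ((pow_le_one_iff two_ne_zero).1 (by
    rw [← map_pow, hz]
    exact R.valuation_le_one a))
  have e : (⟨z, hm⟩ : R) ^ 2 = a := Subtype.ext hz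
  rw [← e, map_pow] at hy
  rcases sq_eq_sq_iff_eq_or_eq_neg.1 hy with k | k
  · exact ⟨_, e, k.symm⟩
  · exact ⟨-⟨z, hm⟩, by rw [neg_sq, e], by rw [map_neg, k]⟩

theorem lift_qd {Ω : Type} [Field Ω] {R : ValuationSubring ℂ} {r : R →+* Ω} (hr : Surjective r)
    (z : Fin 4 → Ω) (hz : qd z = 0) : ∃ y : Fin 4 → R, qd y = 0 ∧ ∀ l, r (y l) = z l := by
  obtain ⟨h1, h2⟩ := qd_iff.1 hz
  obtain ⟨s, hs⟩ := hr (z 0)
  obtain ⟨w, hw⟩ := hr (z 3)
  obtain ⟨c, hc, rc⟩ := lift_sq r (w ^ 2 - s ^ 2) (y := z 1) (by simp [h1, hs, hw])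
  obtain ⟨d, hd, rd⟩ := lift_sq r (w ^ 2 + s ^ 2) (y := z 2) (by simp [h2, hs, hw])
  refine ⟨![s, c, d, w], qd_iff.2 ⟨hc, hd⟩, fun l => ?_⟩
  fin_cases l
  exacts [hs, rc, rd, hw]

theorem imm_of {u : ℂ → Fin 4 → ℂ} (hd : Differentiable ℂ u) (L : Lw u)
    (h0 : u 0 = ![0, 1, 1, 1]) (hd0 : deriv (fun z => u z 0) 0 ≠ 0) (a c : ℂ) :
    ¬HasDerivAt u (c • u a) a := by
  intro ha
  obtain ⟨k, hk⟩ := L.prim (a + a)
  have dl : ∀ l, Differentiable ℂ fun z => u z l := fun l => differentiable_pi.1 hd l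
  have dQ : ∀ l, Differentiable ℂ fun x : Fin 4 → ℂ => law x (u a) k l := fun l => by
    fin_cases k <;> fin_cases l <;> simp [law] <;> fun_prop
  have e : ∀ z, law (u z) (u a) k 0 * (u (z + a) k * u (z - a) 3) =
      law (u z) (u a) k 3 * (u (z + a) k * u (z - a) 0) :=
    fun z => pp_of_par (L.law z a) (k, 0) (k, 3)
  obtain ⟨t, ht, et⟩ := L.law a a
  have e0 : law (u a) (u a) k 0 = 0 := by simpa [h0] using congrFun et (k, 0)
  have e3 : law (u a) (u a) k 3 ≠ 0 := by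
    have : law (u a) (u a) k 3 = t * u (a + a) k := by simpa [h0] using congrFun et (k, 3)
    exact this ▸ mul_ne_zero ht.ne_zero hk.ne_zero
  have q0 : HasDerivAt (fun z => law (u z) (u a) k 0) 0 a := by
    have l1 : HasDerivAt (fun s : ℂ => (1 + s * c) • u a) (c • u a) 0 := by
      simpa using (((hasDerivAt_id (0 : ℂ)).mul_const c).const_add 1).smul_const (u a)
    have l2 := (dQ 0 (u a)).hasFDerivAt.comp_hasDerivAt_of_eq 0 l1 (by simp)
    have l3 : ((fun x : Fin 4 → ℂ => law x (u a) k 0) ∘ fun s : ℂ => (1 + s * c) • u a) =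
        fun _ => 0 := funext fun s => by
      have := law_smul (1 + s * c) 1 (u a) (u a) k 0
      rwa [one_smul, e0, mul_zero] at this
    rw [l3] at l2
    exact l2.unique (hasDerivAt_const _ _) ▸ (dQ 0 (u a)).hasFDerivAt.comp_hasDerivAt a ha
  have g : ∀ l, HasDerivAt (fun z => u (z - a) l) (deriv (fun z => u z l) 0) a := fun l => by
    simpa using ((dl l (a - a)).hasDerivAt.comp_sub_const a a)
  have gk := (dl k (a + a)).hasDerivAt.comp_add_const a a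
  have q3 := ((dQ 3).comp hd a).hasDerivAt
  have := (q0.mul (gk.mul (g 3))).unique
    ((q3.mul (gk.mul (g 0))).congr_of_eventuallyEq (.of_forall e))
  simp [e0, h0, e3, hk.ne_zero, hd0] at this

theorem hol_of {u : ℂ → Fin 4 → ℂ} (hd : Differentiable ℂ u) (L : Lw u)
    (h0 : u 0 = ![0, 1, 1, 1]) (hd0 : deriv (fun z => u z 0) 0 ≠ 0) (v w : Fin 1 → ℂ) (c : ℂ)
    (e : fderiv ℂ (fun v : Fin 1 → ℂ => u (v 0)) v w = c • u (v 0)) : w = 0 := by
  have h1 := (HasFDerivAt.comp (f := fun v : Fin 1 → ℂ => v 0) v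
    (hd (v 0)).hasDerivAt.hasFDerivAt (hasFDerivAt_apply 0 v)).fderiv
  rw [show (fun v : Fin 1 → ℂ => u (v 0)) = u ∘ fun v => v 0 from rfl, h1] at e
  by_contra hw
  have w0 : w 0 ≠ 0 := fun k => hw (funext fun i => by rw [Subsingleton.elim i 0, k]; rfl)
  refine imm_of hd L h0 hd0 (v 0) ((w 0)⁻¹ * c) ?_
  rw [mul_smul, ← e]
  simpa [smul_smul, w0] using (hd (v 0)).hasDerivAt

end Pool.Agent.Tav.Ex
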