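import Pool.Agent.P.MP_3c83d0_ag.ElPlace

set_option autoImplicit false

namespace Pool.Agent.Tav.Ex

open Polynomial Function Pool.Agent.P.MP_3c83d0_ag

theorem surj_of {Ω : Type} [Field Ω] {p : ℕ} [Fact p.Prime] [Algebra (ZMod p) Ω]
    [Algebra.IsAlgebraic (ZMod p) Ω] (R : ValuationSubring ℂ) (r : R →+* Ω) : Surjective r := by
  intro y
  have hy : IsIntegral (ZMod p) y := Algebra.IsIntegral.isIntegral y
  obtain ⟨f, hf, -, hm⟩ := lifts_and_natDegree_eq_and_monic
    (f := Int.castRingHom (ZMod p)) (p := minpoly (ZMod p) y)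
    ((lifts_iff_coeff_lifts _).2 fun n => ZMod.intCast_surjective _) (minpoly.monic hy)
  have hs : (f.map (algebraMap ℤ R)).Splits := by
    have hi : Injective (algebraMap R ℂ) := Subtype.val_injective
    refine Splits.of_splits_map_of_injective hi (IsAlgClosed.splits _) fun a ha => ?_
    have h1 : IsIntegral ℤ a := ⟨f, hm, by
      have := (mem_roots'.1 ha).2
      rwa [Polynomial.map_map, IsRoot, eval_map,
        Subsingleton.elim ((algebraMap R ℂ).comp _) (algebraMap ℤ ℂ)] at this⟩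
    exact IsIntegrallyClosed.algebraMap_eq_of_integral h1.tower_top
  have e := hs.eq_prod_roots_of_monic (hm.map _)
  have h0 : eval₂ r y (f.map (algebraMap ℤ R)) = 0 := by
    rw [eval₂_map, Subsingleton.elim (r.comp _)
      ((algebraMap (ZMod p) Ω).comp (Int.castRingHom (ZMod p))), ← eval₂_map, hf]
    exact minpoly.aeval _ y
  rw [e, eval₂_multiset_prod, Multiset.prod_eq_zero_iff, Multiset.map_map] at h0
  obtain ⟨a, -, ha⟩ := Multiset.mem_map.1 h0
  exact ⟨a, (sub_eq_zero.1 (by simpa using ha)).symm⟩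

instance fact_five : Fact (Nat.Prime 5) := ⟨Nat.prime_five⟩

theorem exists_R : ∃ (R : ValuationSubring ℂ) (r : R →+* AlgebraicClosure (ZMod 5)) (j : R),
    Surjective r ∧ (j : ℂ) = Complex.I ∧ r j = 3 := by
  have h5 : (5 : AlgebraicClosure (ZMod 5)) = 0 := by
    simpa using CharP.cast_eq_zero (AlgebraicClosure (ZMod 5)) 5
  obtain ⟨P, hP⟩ := exists_place GaussianInt.toComplex
    (Zsqrtd.lift (R := AlgebraicClosure (ZMod 5)) ⟨3, by push_cast; linear_combination 2 * h5⟩)
    (fun a ha => by rw [GaussianInt.toComplex_eq_zero.1 ha, map_zero])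
  obtain ⟨h, e⟩ := hP ⟨0, 1⟩
  refine ⟨⟨P.O, P.tot⟩, P.ev, ⟨_, h⟩, surj_of (p := 5) ⟨P.O, P.tot⟩ P.ev, ?_, ?_⟩
  · simp [GaussianInt.toComplex_def']
  · exact e.trans (by simp)

end Pool.Agent.Tav.Ex
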