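import Pool.Agent.P.MP_2ce3e7_ag.Tav.ExFull
import Pool.Agent.P.MP_2ce3e7_ag.Tav.ExPlace
import Pool.Agent.P.MP_2ce3e7_ag.Tav.ExLt

set_option autoImplicit false

noncomputable section

namespace Pool.Agent.Tav.Ex

open Set Function Complex

section
variable {σ : Type} {R : ValuationSubring ℂ}

theorem exists_primv [Fintype σ] (R : ValuationSubring ℂ) {y : σ → ℂ} (hy : y ≠ 0) :
    ∃ x : σ → R, Prim x ∧ Par y fun l => (x l : ℂ) := by
  obtain ⟨k, hk⟩ := Function.ne_iff.1 hy
  have : Nonempty σ := ⟨k⟩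
  obtain ⟨i, hi⟩ := Finite.exists_max fun l => R.valuation (y l)
  have h0 : y i ≠ 0 := fun e => hk (by simpa [e] using hi k)
  refine ⟨fun l => ⟨y l / y i, (R.valuation_le_one_iff _).1 ?_⟩, ⟨i, ?_⟩, y i, h0.isUnit,
    funext fun l => ?_⟩
  · rw [map_div₀]
    exact div_le_one_of_le₀ (hi l) zero_le
  · convert isUnit_one
    exact Subtype.ext (div_self h0)
  · simp [mul_div_cancel₀ _ h0]

theorem par_desc {a b : σ → R} (ha : Prim a) (hb : Prim b)
    (h : Par (fun l => (a l : ℂ)) fun l => (b l : ℂ)) : Par a b :=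
  par_of_pp ha hb fun i j => Subtype.ext (pp_of_par h i j)

theorem unit_of {Ω : Type} [Field Ω] {r : R →+* Ω} (hr : Surjective r) {a : R} (h : r a ≠ 0) :
    IsUnit a := by
  by_contra ha
  have := IsLocalRing.eq_maximalIdeal (RingHom.ker_isMaximal_of_surjective r hr)
  exact h (RingHom.mem_ker.1 (this ▸ (IsLocalRing.mem_maximalIdeal a).2 ha))

theorem prim_of {Ω : Type} [Field Ω] {r : R →+* Ω} (hr : Surjective r) {a : σ → R}
    (h : (fun l => r (a l)) ≠ 0) : Prim a :=
  (Function.ne_iff.1 h).imp fun _ => unit_of hr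

end

section
variable {K L σ : Type} [CommRing K] [CommRing L]

theorem rot_map (r : K →+* L) (i : K) (x : Fin 4 → K) :
    (fun l => r (rot i x l)) = rot (r i) fun l => r (x l) := by
  funext l
  fin_cases l <;> simp [rot]

theorem par_rot (i : K) {x y : Fin 4 → K} (h : Par x y) : Par (rot i x) (rot i y) := by
  obtain ⟨c, hc, rfl⟩ := h
  refine ⟨c, hc, funext fun l => ?_⟩
  fin_cases l <;> simp [rot]
  ring

theorem prim_rot {i : K} (hi : i ^ 2 = -1) {x : Fin 4 → K} (h : Prim x) : Prim (rot i x) := by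
  obtain ⟨l, hl⟩ := h
  fin_cases l
  exacts [⟨0, (IsUnit.of_mul_eq_one (-i) (by linear_combination -hi)).mul hl⟩, ⟨2, hl⟩, ⟨1, hl⟩,
    ⟨3, hl⟩]

theorem par_pow {x y : σ → K} (h : Par x y) (n : ℕ) : Par (x ^ n) (y ^ n) := by
  obtain ⟨c, hc, rfl⟩ := h
  exact ⟨c ^ n, hc.pow n, smul_pow _ _ _⟩

end

/-- the hypotheses of `Main` hold for an ordinary elliptic curve over `ZMod 5` -/
theorem nonvac_of (hU : S_Unif) :
    ∃ (R : ValuationSubring ℂ) (r : R →+* AlgebraicClosure (ZMod 5)) (_ : Surjective r)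
      (X : Model r (Fin 4) 1) (F : X.B →+ X.B) (π : Fin 1 → ℂ),
      (∀ y, Par (X.p (F y)) (X.p y ^ Fintype.card (ZMod 5))) ∧ Mor X.p X.p id ∧ π ∈ En X.Λ ∧
      X.Eqv id F π ∧ (∀ i, R.valuation (star (π i)) = 1) ∧ X.Full (Fintype.card (ZMod 5)) := by
  obtain ⟨R, r, j, hr, hj, h3⟩ := exists_R
  obtain ⟨ω, u, hω, hd, hne, hq, hs, hk, h0, hd0, hI, hl⟩ := hU
  choose x hx hp using fun v : Fin 1 → ℂ => exists_primv R (hne (v 0))
  have h5 : (5 : AlgebraicClosure (ZMod 5)) = 0 := by
    simpa using CharP.cast_eq_zero (AlgebraicClosure (ZMod 5)) 5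
  have h2 : (2 : AlgebraicClosure (ZMod 5)) ≠ 0 := fun e =>
    one_ne_zero (by linear_combination h5 - 2 * e : (1 : AlgebraicClosure (ZMod 5)) = 0)
  have j2 : j ^ 2 = -1 := Subtype.ext (by simp [hj])
  have L0 : Lw u :=
    ⟨fun v => prim_iff.2 (hne _), hq, fun a b => par_symm (par_of_pp (by
      obtain ⟨i, hi⟩ := prim_iff.2 (hne (a + b))
      obtain ⟨k, hk⟩ := prim_iff.2 (hne (a - b))
      exact ⟨(i, k), hi.mul hk⟩)
      (prim_iff.2 (law_ne two_ne_zero (hq _) (hq _) (hne _) (hne _))) (hl a b))⟩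
  have Lu : Lw fun v : Fin 1 → ℂ => u (v 0) :=
    ⟨fun v => L0.prim _, fun v => hq _, fun a b => L0.law (a 0) (b 0)⟩
  have LC : Lw fun v l => (x v l : ℂ) :=
    Lu.of_par (AddMonoidHom.id _) surjective_id fun v => par_symm (hp v)
  have cv : ∀ v, qd (x v) = 0 := fun v => funext fun i =>
    Subtype.ext ((qd_map R.subtype _ i).trans (congrFun (LC.cv v) i))
  have rv : ∀ v, qd (fun l => r (x v l)) = 0 := fun v => funext fun i => by
    rw [← qd_map, cv, Pi.zero_apply, map_zero, Pi.zero_apply]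
  have rn : ∀ v, (fun l => r (x v l)) ≠ 0 := fun v =>
    prim_iff.1 ((hx v).imp fun _ h => h.map r)
  have L : Lw x := ⟨hx, cv, fun a b => par_desc
    (prim_of hr (by simpa only [law_map] using law_ne h2 (rv a) (rv b) (rn a) (rn b)))
    (by
      obtain ⟨i, hi⟩ := hx (a + b)
      obtain ⟨k, hk⟩ := hx (a - b)
      exact ⟨(i, k), hi.mul hk⟩)
    (by
      convert LC.law a b using 2
      exacts [law_map R.subtype _ _ _ _, rfl])⟩
  have Lr := L.map r
  let p : Lr.con.Quotient → Fin 4 → AlgebraicClosure (ZMod 5) := fun b l => r (x b.out l)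
  have hred : ∀ v, Par (p (Lr.con.mk' v)) fun l => r (x v l) := fun v =>
    Quotient.exact (Quotient.out_eq (Lr.con.mk' v))
  have LB : Lw p := Lr.of_par _ Lr.con.mk'_surjective hred
  have cC : ∀ z : Fin 4 → ℂ, z ≠ 0 → qd z = 0 → ∃ v, Par z fun l => (x v l : ℂ) := fun z z0 hz => by
    obtain ⟨t, ht⟩ := hs z z0 hz
    exact ⟨fun _ => t, par_trans
      (par_symm (par_of_pp (prim_iff.2 (hne t)) (prim_iff.2 z0) ht)) (hp fun _ => t)⟩
  have cB : ∀ z, z ≠ 0 → qd z = 0 → ∃ b, Par z (p b) := fun z z0 hz => by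
    obtain ⟨y, hy, e⟩ := lift_qd hr z hz
    obtain rfl : z = fun l => r (y l) := funext fun l => (e l).symm
    have py := prim_of hr z0
    obtain ⟨v, hv⟩ := cC (fun l => (y l : ℂ)) (prim_iff.1 (py.imp fun _ h => h.map R.subtype))
      (funext fun i => (qd_map R.subtype y i).symm.trans (by rw [hy]; rfl))
    exact ⟨_, par_trans (par_map r (par_desc py (hx v) hv)) (par_symm (hred v))⟩
  have hrot : ∀ v, Par (rot j (x v)) (x (I • v)) := fun v =>
    par_desc (prim_rot j2 (hx v)) (hx _) (by
      have e : (fun l => ((rot j (x v) l : R) : ℂ)) = rot I fun l => (x v l : ℂ) :=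
        hj ▸ rot_map R.subtype j (x v)
      rw [e]
      exact par_trans (par_rot I (par_symm (hp v))) (hI (v 0) ▸ hp (I • v)))
  have x1 := par_desc (b := ![0, 1, 1, 1]) (hx 0) ⟨3, isUnit_one⟩ (by
    convert par_symm (hp 0) using 1
    rw [Pi.zero_apply, h0]
    funext l
    fin_cases l <;> rfl)
  have x0 : IsUnit (x 0 3) := by
    obtain ⟨c, hc, e⟩ := x1
    rw [e]
    simpa using hc
  let π : Fin 1 → ℂ := fun _ => -1 + 2 * I
  have fr : ∀ v, Par (fun l => r (x (π * v) l)) ((fun l => r (x v l)) ^ 5) := fun v => by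
    have i2 : r j ^ 2 = -1 := by rw [← map_pow, j2, map_neg, map_one]
    have := Lr.frob i2 (x0.map r) (a := v) (b := I • v)
      (rot_map r j (x v) ▸ par_map r (par_symm (hrot v)))
    rw [show I • v + I • v - v = π * v from funext fun i => by simp [π]; ring] at this
    convert this using 1
    exact funext fun l => (frb_pow i2 (by rw [h3]; linear_combination h5) (rv v) l).symm
  have reg : ∀ a ∈ En (Lm hω), Mor x x (a * ·) := fun a ha => by
    obtain ⟨m, n, e⟩ := (en_Lm hω).1 ha
    have ad : ∀ a b : ℂ, Mor x x (a • ·) → Mor x x (b • ·) → Mor x x ((a + b) • ·) :=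
      fun a b ha hb => by
        simp only [add_smul]
        exact L.mor ha hb
    have ro : ∀ a : ℂ, Mor x x (a • ·) → Mor x x ((I * a) • ·) :=
      fun a ha => by simpa only [mul_smul] using mor_rot ha hrot
    have o1 : Mor x x ((1 : ℂ) • ·) := by
      simp only [one_smul]
      exact mor_id x
    have hz : ∀ m : ℤ, Mor x x ((m : ℂ) • ·) := fun m => by
      induction m using Int.induction_on with
      | zero => simpa only [Int.cast_zero, zero_smul] using mor_const x x 0
      | succ k ih => simpa only [Int.cast_add, Int.cast_one] using ad _ _ ih o1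
      | pred k ih =>
        have := ad _ _ ih (ro _ (ro _ o1))
        rwa [show ((-(k : ℤ) : ℤ) : ℂ) + I * (I * 1) = ((-(k : ℤ) - 1 : ℤ) : ℂ) by
          push_cast; linear_combination I_mul_I] at this
    convert ad _ _ (hz m) (ro _ (hz n)) using 1
    funext t i
    rw [Pi.mul_apply, Subsingleton.elim i 0, e]
    simp [mul_comm]
  have := disc_Lm hω
  let X : Model r (Fin 4) 1 :=
    { Λ := Lm hω
      lat := lat_Lm hω
      riem := riem_Lm hω
      cm := ⟨fun _ => I, (en_Lm hω).2 ⟨0, 1, by simp⟩, by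
        have hn : I ≠ -I := fun e => by
          have := congrArg Complex.im e
          norm_num at this
        rintro (a | a) (b | b) h
        · rw [Subsingleton.elim a b]
        · exact absurd (by simpa using h) hn
        · exact absurd (by simpa using h.symm) hn
        · rw [Subsingleton.elim a b]⟩
      x := x
      hol := ⟨fun v => u (v 0), hd.comp (differentiable_apply 0), hp, hol_of hd L0 h0 hd0⟩
      ker := fun v w => by
        rw [mem_Lm, Pi.sub_apply, ← hk]
        exact ⟨fun h => pp_of_par (par_trans (hp v) (par_trans (par_map R.subtype h)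
            (par_symm (hp w)))),
          fun h => par_desc (hx v) (hx w) (par_trans (par_symm (hp v))
            (par_trans (par_of_pp (Lu.prim v) (Lu.prim w) h) (hp w)))⟩
      gen := LC.av two_ne_zero cC
      law := by
        obtain ⟨c, hc, e⟩ := L.unit
        refine ⟨c, hc, fun i k => ?_⟩
        rw [show (c * fun t => x (t.1 + t.2) i * x (t.1 - t.2) k) =
          fun t => law (x t.1) (x t.2) i k from funext fun t => e t i k]
        exact law_mem _ _ i k
      reg := reg
      B := Lr.con.Quotient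
      p := p
      inj := fun b b' h => Quotient.out_equiv_out.1 h
      sp := LB.av h2 cB
      red := Lr.con.mk'
      onto := Lr.con.mk'_surjective
      hred := hred
      flat := by rw [hp_eq p h2 LB.cv cB, hp_eq _ two_ne_zero LC.cv cC] }
  let F : X.B →+ X.B := Lr.con.lift (Lr.con.mk'.comp (AddMonoidHom.mulLeft π)) fun a b h =>
    Quotient.sound (par_trans (fr a) (par_trans (par_pow h 5) (par_symm (fr b))))
  have hF : ∀ v, Par (X.p (X.red (π * v))) (X.p (X.red v) ^ Fintype.card (ZMod 5)) := fun v => by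
    rw [ZMod.card]
    exact par_trans (hred (π * v)) (par_trans (fr v) (par_pow (par_symm (hred v)) 5))
  have hπ : π ∈ En X.Λ := (en_Lm hω).2 ⟨-1, 2, by simp [π]⟩
  have hv : ∀ i, R.valuation (star (π i)) = 1 := fun i => by
    have e : star (π i) = ((-1 - 2 * j : R) : ℂ) := by
      simp [π, hj, sub_eq_add_neg]
      rfl
    rw [e, ← R.valuation_eq_one_iff]
    refine unit_of hr fun e => h2 ?_
    rw [map_sub, map_mul, h3, map_neg, map_one, map_ofNat] at e
    linear_combination -e - h5
  refine ⟨R, r, hr, X, F, π, fun y => ?_, mor_id _, hπ, ?_, hv,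
    full_of h2 X (fun _ => en_Lm hω) (idl_eq p h2 LB.cv cB) ?_ hπ hF ?_ (fun h => ?_)
      fun w v e => ?_⟩
  · obtain ⟨v, rfl⟩ := Lr.con.mk'_surjective y
    exact hF v
  · rintro _ v rfl
    rfl
  · have e : (fun l => r (![0, 1, 1, 1] l)) = ![0, 1, 1, 1] := funext fun l => by
      fin_cases l <;> simp
    exact e ▸ par_trans (hred 0) (par_map r x1)
  · rw [← R.valuation_le_one_iff, map_inv₀, hv 0, inv_one]
  · have e : (-1 + 2 * j) * ⟨_, h⟩ = 1 := Subtype.ext (by
      have : π 0 ≠ 0 := fun e => by simpa [π] using congrArg Complex.re e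
      have e : ((-1 + 2 * j : R) : ℂ) = π 0 := by
        simp [π, hj]
        rfl
      exact (congrArg (· * (π 0)⁻¹) e).trans (mul_inv_cancel₀ this))
    have := congrArg r e
    rw [map_mul, map_add, map_mul, h3, map_neg, map_one, map_ofNat] at this
    exact one_ne_zero (by linear_combination r ⟨_, h⟩ * h5 - this : (1 : AlgebraicClosure (ZMod 5)) = 0)
  · have k := fun v => rot_map r j (x v) ▸ par_map r (hrot v)
    exact Quotient.sound (par_trans (par_symm (k w))
      (par_trans (par_rot _ (Quotient.exact e)) (k v)))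

end Pool.Agent.Tav.Ex
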