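import Pool.Agent.P.MP_2ce3e7_ag.Tav.ExUnifB

/-! The uniformisation of the lemniscatic curve. -/

set_option autoImplicit false

open Complex Filter Topology Set

noncomputable section

namespace Pool.Agent.Tav.Ex

open Pool.Agent.T3

/-- the uniformisation -/
def uu (k z : ℂ) : Fin 4 → ℂ :=
  ![-k * bY z, bW z - 2 * k ^ 2 * bX z - k ^ 4 * Sg z, bW z + 2 * k ^ 2 * bX z - k ^ 4 * Sg z,
    bW z + k ^ 4 * Sg z]

theorem uu_diff (k : ℂ) : Differentiable ℂ (uu k) := by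
  have hX := bX_diff
  have hY := bY_diff
  have hW := bW_diff
  have hT := EA.differentiable_Sg
  refine differentiable_pi.2 fun i => ?_
  fin_cases i <;> simp only [uu, Fin.zero_eta, Fin.mk_one, Fin.reduceFinMk, Matrix.cons_val] <;>
    fun_prop

theorem uu_add (k : ℂ) {l : ℂ} (hl : l ∈ LL.lattice) (z : ℂ) (i : Fin 4) :
    uu k (z + l) i = fa l z * uu k z i := by
  fin_cases i <;> simp only [uu, Fin.zero_eta, Fin.mk_one, Fin.reduceFinMk, Matrix.cons_val,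
    bX_add hl, bY_add hl, bW_add hl, bT_add hl] <;> ring

theorem uu_off (k : ℂ) {z : ℂ} (hz : z ∉ LL.lattice) : uu k z =
    ![-k * (Sg z * wq z), Sg z * (wp z ^ 2 - 2 * k ^ 2 * wp z - k ^ 4),
      Sg z * (wp z ^ 2 + 2 * k ^ 2 * wp z - k ^ 4), Sg z * (wp z ^ 2 + k ^ 4)] := by
  funext i
  fin_cases i <;> simp only [uu, Fin.zero_eta, Fin.mk_one, Fin.reduceFinMk, Matrix.cons_val,
    bW_off hz, bX, bY] <;> ring

theorem uu_zero (k : ℂ) : uu k 0 = ![0, 1, 1, 1] := by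
  simp [uu, bW_zero, bX, bY, Sg]

theorem bW_I (z : ℂ) : bW (I * z) = bW z := by
  have h := bW_diff.continuous
  refine sub_eq_zero.1 (ex_dense (f := fun z => bW (I * z) - bW z) (by fun_prop) (fun w hw => ?_) z)
  rw [bW_off hw, bW_off (EA.I_mul_mem_iff.not.2 hw), EA.Sg_I_mul, wp_I]
  ring

theorem uu_I (k z : ℂ) : uu k (I * z) = rot I (uu k z) := by
  funext i
  fin_cases i <;> simp only [uu, rot, Fin.zero_eta, Fin.mk_one, Fin.reduceFinMk, Matrix.cons_val,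
    bW_I, bX, bY, EA.Sg_I_mul, wp_I, wq_I] <;> ring

theorem uu_d (k z : ℂ) : deriv (fun z => uu k z 0) z = -k * deriv bY z ∧
    deriv (fun z => uu k z 1) z = deriv bW z - 2 * k ^ 2 * deriv bX z - k ^ 4 * deriv Sg z ∧
    deriv (fun z => uu k z 2) z = deriv bW z + 2 * k ^ 2 * deriv bX z - k ^ 4 * deriv Sg z ∧
    deriv (fun z => uu k z 3) z = deriv bW z + k ^ 4 * deriv Sg z := by
  have hX := (bX_diff z).hasDerivAt
  have hY := (bY_diff z).hasDerivAt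
  have hW := (bW_diff z).hasDerivAt
  have hT := (EA.differentiable_Sg z).hasDerivAt
  exact ⟨(hY.const_mul _).deriv, ((hW.fun_sub (hX.const_mul _)).fun_sub (hT.const_mul _)).deriv,
    ((hW.fun_add (hX.const_mul _)).fun_sub (hT.const_mul _)).deriv,
    (hW.fun_add (hT.const_mul _)).deriv⟩

theorem uu_good {k : ℂ} (hk : LL.g₂ = 4 * k ^ 4) : Good (2 * k) (uu k) := by
  have hd := differentiable_pi.1 (uu_diff k)
  have hc : ∀ i, Continuous fun z => uu k z i := fun i => (hd i).continuous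
  have hw : ∀ i j, Continuous (wrk (uu k) i j) := fun i j =>
    (((hd i).deriv.continuous).mul (hc j)).sub ((hc i).mul (hd j).deriv.continuous)
  have hs : ∀ {z}, z ∉ LL.lattice → wq z ^ 2 = 4 * wp z ^ 3 - 4 * k ^ 4 * wp z :=
    fun hz => hk ▸ wq_sq hz
  refine ⟨uu_diff k, ex_dense (by fun_prop) fun z hz => ?_, ex_dense (by fun_prop) fun z hz => ?_,
    fun z => sub_eq_zero.1 (ex_dense (f := fun z => wrk _ 0 3 z - 2 * k * uu k z 1 * uu k z 2)
      (by fun_prop) (fun z hz => ?_) z),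
    fun z => sub_eq_zero.1 (ex_dense (f := fun z => wrk _ 1 3 z - -(2 * k * uu k z 0 * uu k z 2))
      (by fun_prop) (fun z hz => ?_) z),
    fun z => sub_eq_zero.1 (ex_dense (f := fun z => wrk _ 2 3 z - 2 * k * uu k z 0 * uu k z 1)
      (by fun_prop) (fun z hz => ?_) z),
    fun z => sub_eq_zero.1 (ex_dense (f := fun z => wrk _ 0 1 z - 2 * k * uu k z 2 * uu k z 3)
      (by fun_prop) (fun z hz => ?_) z),
    fun z => sub_eq_zero.1 (ex_dense (f := fun z => wrk _ 0 2 z - 2 * k * uu k z 1 * uu k z 3)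
      (by fun_prop) (fun z hz => ?_) z), uu_zero k, fun z => ?_⟩
  all_goals try (
    obtain ⟨d0, d1, d2, d3⟩ := uu_d k z
    simp only [wrk, d0, d1, d2, d3, bT_d hz, bX_d hz, bY_d hz, bW_d hz, hk, uu_off k hz,
      Matrix.cons_val])
  · linear_combination k ^ 2 * Sg z ^ 2 * hs hz
  · linear_combination -k ^ 2 * Sg z ^ 2 * hs hz
  · linear_combination 2 * k * Sg z ^ 2 * wp z * hs hz
  · ring
  · ring
  · linear_combination 2 * k * Sg z ^ 2 * (wp z - k ^ 2) * hs hz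
  · linear_combination 2 * k * Sg z ^ 2 * (wp z + k ^ 2) * hs hz
  · have e : -z = I * (I * z) := by linear_combination (-z) * I_sq
    rw [e, uu_I, uu_I]
    simp [rot, ← mul_assoc]

theorem q_zero {x : Fin 4 → ℂ} (h1 : x 1 ^ 2 - x 3 ^ 2 + x 0 ^ 2 = 0)
    (h2 : x 2 ^ 2 - x 3 ^ 2 - x 0 ^ 2 = 0) (h0 : x 0 = 0) (h3 : x 3 = 0) : x = 0 := by
  rw [h0, h3] at h1 h2
  funext i
  fin_cases i
  · exact h0
  · simpa using h1
  · simpa using h2
  · exact h3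

theorem uu_ne {k : ℂ} (hk : k ≠ 0) (z : ℂ) : uu k z ≠ 0 := by
  intro h
  have h1 : bW z - 2 * k ^ 2 * bX z - k ^ 4 * Sg z = 0 := congrFun h 1
  have h2 : bW z + 2 * k ^ 2 * bX z - k ^ 4 * Sg z = 0 := congrFun h 2
  have h3 : bW z + k ^ 4 * Sg z = 0 := congrFun h 3
  have h4 : k ^ 4 * Sg z = 0 := by linear_combination (1 / 2) * h3 - (1 / 4) * (h1 + h2)
  have h5 := EA.Sg_eq_zero_iff.1 ((mul_eq_zero.1 h4).resolve_left (pow_ne_zero _ hk))
  rw [h4, add_zero, bW_on h5] at h3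
  exact exp_ne_zero _ h3

theorem uu_mem {k : ℂ} (hk : k ≠ 0) {z : ℂ} (h1 : uu k z 1 = uu k z 3) (h2 : uu k z 2 = uu k z 3) :
    z ∈ LL.lattice := by
  have h3 : bW z - 2 * k ^ 2 * bX z - k ^ 4 * Sg z = bW z + k ^ 4 * Sg z := h1
  have h4 : bW z + 2 * k ^ 2 * bX z - k ^ 4 * Sg z = bW z + k ^ 4 * Sg z := h2
  have h5 : k ^ 4 * Sg z = 0 := by linear_combination (-1 / 4) * (h3 + h4)
  exact EA.Sg_eq_zero_iff.1 ((mul_eq_zero.1 h5).resolve_left (pow_ne_zero _ hk))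

theorem pp_smul {x y : Fin 4 → ℂ} (hx : x ≠ 0) (h : Pp x y) : ∃ t : ℂ, y = fun i => t * x i := by
  obtain ⟨j, hj⟩ := Function.ne_iff.1 hx
  have hj' : x j ≠ 0 := hj
  refine ⟨y j / x j, funext fun i => ?_⟩
  field_simp
  linear_combination h j i

theorem uu_inj {k : ℂ} (hk : k ≠ 0) (G : Good (2 * k) (uu k)) {z z' : ℂ}
    (h : Pp (uu k z) (uu k z')) : z - z' ∈ LL.lattice := by
  obtain ⟨t, ht⟩ := pp_smul (uu_ne hk z) h
  have ht0 : t ≠ 0 := by
    rintro rfl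
    exact uu_ne hk z' (by rw [ht]; funext i; simp)
  have q1 := G.q1 z
  have q2 := G.q2 z
  have hA := G.add z z'
  rw [ht] at hA
  obtain ⟨i, hi⟩ := Function.ne_iff.1 (uu_ne hk (z + z'))
  have hi' : uu k (z + z') i ≠ 0 := hi
  generalize hx : uu k z = x at *
  have e1 : law x (fun i => t * x i) i 1 = law x (fun i => t * x i) i 3 := by
    fin_cases i <;> simp only [law, Fin.zero_eta, Fin.mk_one, Fin.reduceFinMk, Matrix.cons_val]
    · ring
    · linear_combination t ^ 2 * (x 1 ^ 2 - x 0 ^ 2) * q1 + t ^ 2 * x 0 ^ 2 * q2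
    · linear_combination t ^ 2 * (x 2 ^ 2 - x 0 ^ 2) * q1 - t ^ 2 * x 0 ^ 2 * q2
    · linear_combination t ^ 2 * x 3 ^ 2 * q1 + t ^ 2 * x 0 ^ 2 * q2
  have e2 : law x (fun i => t * x i) i 2 = law x (fun i => t * x i) i 3 := by
    fin_cases i <;> simp only [law, Fin.zero_eta, Fin.mk_one, Fin.reduceFinMk, Matrix.cons_val]
    · ring
    · linear_combination t ^ 2 * (x 1 ^ 2 + x 0 ^ 2) * q2 + t ^ 2 * x 0 ^ 2 * q1
    · linear_combination t ^ 2 * (x 2 ^ 2 + x 0 ^ 2) * q2 - t ^ 2 * x 0 ^ 2 * q1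
    · linear_combination t ^ 2 * x 3 ^ 2 * q2 - t ^ 2 * x 0 ^ 2 * q1
  have hn : ∃ j, law x (fun i => t * x i) j 3 ≠ 0 := by
    by_contra hn
    simp only [not_exists, not_not] at hn
    have n1 : x 1 * x 3 * (t * x 1 * (t * x 3)) - x 0 * x 2 * (t * x 0 * (t * x 2)) = 0 := hn 1
    have n2 : x 2 * x 3 * (t * x 2 * (t * x 3)) + x 0 * x 1 * (t * x 0 * (t * x 1)) = 0 := hn 2
    have n3 : x 3 ^ 2 * (t * x 3) ^ 2 + x 0 ^ 2 * (t * x 0) ^ 2 = 0 := hn 3
    have m0 : t ^ 2 * x 0 ^ 4 = 0 := by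
      linear_combination (1 / 2) * n3 - (1 / 4) * (n1 + n2) +
        (t ^ 2 / 4) * ((x 3 ^ 2 + x 0 ^ 2) * q1 + (x 3 ^ 2 - x 0 ^ 2) * q2)
    have m3 : t ^ 2 * x 3 ^ 4 = 0 := by linear_combination n3 - m0
    exact uu_ne hk z (hx ▸ q_zero q1 q2
      (pow_eq_zero_iff four_ne_zero |>.1 ((mul_eq_zero.1 m0).resolve_left (pow_ne_zero _ ht0)))
      (pow_eq_zero_iff four_ne_zero |>.1 ((mul_eq_zero.1 m3).resolve_left (pow_ne_zero _ ht0))))
  obtain ⟨j, hj⟩ := hn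
  have a1 := hA (i, 1) (j, 3)
  have a2 := hA (i, 2) (j, 3)
  have a3 := hA (i, 3) (j, 3)
  simp only [e1, e2] at a1 a2 a3
  exact uu_mem hk (mul_left_cancel₀ hi' (mul_right_cancel₀ hj (a1.trans a3.symm)))
    (mul_left_cancel₀ hi' (mul_right_cancel₀ hj (a2.trans a3.symm)))

theorem pp_of_smul {x y : Fin 4 → ℂ} (t : ℂ) (h : ∀ i, y i = t * x i) : Pp y x := fun i j => by
  rw [h, h]
  ring

theorem uu_surj {k : ℂ} (G : Good (2 * k) (uu k)) {x : Fin 4 → ℂ}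
    (q1 : x 1 ^ 2 - x 3 ^ 2 + x 0 ^ 2 = 0) (q2 : x 2 ^ 2 - x 3 ^ 2 - x 0 ^ 2 = 0) :
    ∃ z, Pp (uu k z) x := by
  by_cases hD : 2 * x 3 - x 1 - x 2 = 0
  · have h1 : (x 1 - x 2) ^ 2 = 0 := by
      linear_combination 2 * (q1 + q2) + (2 * x 3 + x 1 + x 2) * hD
    have h2 : x 1 - x 2 = 0 := pow_eq_zero_iff two_ne_zero |>.1 h1
    have h3 : x 1 = x 3 := by linear_combination (1 / 2) * (h2 - hD)
    have h4 : x 2 = x 3 := by linear_combination (-1 / 2) * (h2 + hD)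
    have h5 : x 0 = 0 := pow_eq_zero_iff two_ne_zero |>.1 (by rw [h3] at q1; linear_combination q1)
    refine ⟨0, fun i j => ?_⟩
    rw [G.z0]
    fin_cases i <;> fin_cases j <;> simp [h3, h4, h5]
  obtain ⟨z, hz, hp⟩ := wp_surj (k ^ 2 * (x 2 - x 1) / (2 * x 3 - x 1 - x 2))
  rw [eq_div_iff hD] at hp
  obtain ⟨t, ht⟩ : ∃ t, t * (2 * x 3 - x 1 - x 2) = 4 * k ^ 4 * Sg z :=
    ⟨_, div_mul_cancel₀ _ hD⟩
  have h3 : uu k z 3 = t * x 3 := by
    rw [uu_off k hz]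
    refine mul_left_cancel₀ (pow_ne_zero 2 hD) ?_
    simp only [Matrix.cons_val]
    linear_combination Sg z * (wp z * (2 * x 3 - x 1 - x 2) + k ^ 2 * (x 2 - x 1)) * hp -
      x 3 * (2 * x 3 - x 1 - x 2) * ht + 2 * k ^ 4 * Sg z * (q1 + q2)
  have hX : 4 * k ^ 2 * (Sg z * wp z) = t * (x 2 - x 1) := by
    refine mul_left_cancel₀ hD ?_
    linear_combination 4 * k ^ 2 * Sg z * hp - (x 2 - x 1) * ht
  have h1 : uu k z 1 = t * x 1 := by
    rw [uu_off k hz] at h3 ⊢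
    simp only [Matrix.cons_val] at h3 ⊢
    linear_combination h3 - (1 / 2) * hX + (1 / 2) * ht
  have h2 : uu k z 2 = t * x 2 := by
    rw [uu_off k hz] at h3 ⊢
    simp only [Matrix.cons_val] at h3 ⊢
    linear_combination h3 + (1 / 2) * hX + (1 / 2) * ht
  have h0 : uu k z 0 ^ 2 = (t * x 0) ^ 2 := by
    have h := G.q1 z
    rw [h1, h3] at h
    linear_combination h - t ^ 2 * q1
  rcases sq_eq_sq_iff_eq_or_eq_neg.1 h0 with h | h
  · refine ⟨z, pp_of_smul t fun i => ?_⟩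
    fin_cases i
    exacts [h, h1, h2, h3]
  · refine ⟨-z, pp_of_smul t fun i => ?_⟩
    rw [G.ng]
    fin_cases i
    exacts [neg_eq_iff_eq_neg.2 h, h1, h2, h3]

theorem p_Unif : S_Unif := by
  obtain ⟨k, hk⟩ := IsAlgClosed.exists_pow_nat_eq (LL.g₂ / 4) (n := 4) (by norm_num)
  have hg : LL.g₂ = 4 * k ^ 4 := by linear_combination -4 * hk
  have h0 : k ≠ 0 := by
    rintro rfl
    exact g2_ne (by simpa using hg)
  have G := uu_good hg
  have hm : ∀ {l : ℂ}, l ∈ LL.lattice ↔ ∃ m n : ℤ, l = 4 * (m + n * I) := by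
    intro l
    rw [EA.mem_LL]
    constructor <;> rintro ⟨m, n, rfl⟩ <;> exact ⟨m, n, by ring⟩
  refine ⟨4, uu k, by norm_num, G.df, uu_ne h0, fun z => ?_, fun x _ hx => ?_,
    fun z z' => ⟨fun h => hm.1 (uu_inj h0 G h), fun h => ?_⟩, G.z0, ?_, uu_I k, G.add⟩
  · funext i
    fin_cases i
    exacts [G.q1 z, G.q2 z]
  · exact uu_surj G (congrFun hx 0) (congrFun hx 1)
  · refine pp_of_smul (fa (z - z') z') fun i => ?_
    rw [← uu_add k (hm.2 h), add_sub_cancel]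
  · rw [(uu_d k 0).1, bY_deriv_zero.deriv]
    simpa using h0

end Pool.Agent.Tav.Ex
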