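import Pool.Agent.P.MP_e12fcd_ag.T3.EllB

/-! Entire multiples of the Weierstrass functions of the lattice `4 ℤ[i]`. -/

set_option autoImplicit false

open Complex Filter Topology Set
open scoped ComplexConjugate

noncomputable section

namespace Pool.Agent.Tav.Ex

open Pool.Agent.T3

/-- cancellation of an entire factor -/
theorem ex_cancel {f g : ℂ → ℂ} (hf : Differentiable ℂ f) (hg : Differentiable ℂ g) {a : ℂ}
    (ha : f a ≠ 0) (h : ∀ z, f z * g z = 0) (z : ℂ) : g z = 0 := by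
  have h1 : g =ᶠ[𝓝 a] 0 := by
    filter_upwards [hf.continuous.continuousAt.eventually_ne ha] with w hw
    exact (mul_eq_zero.1 (h w)).resolve_left hw
  exact ((hg.differentiableOn.analyticOnNhd isOpen_univ).eqOn_zero_of_preconnected_of_eventuallyEq_zero
    isPreconnected_univ (mem_univ a) h1) (mem_univ z)

/-- entire functions with vanishing Wronskian are proportional -/
theorem ex_wr {f g : ℂ → ℂ} (hf : Differentiable ℂ f) (hg : Differentiable ℂ g)
    (h : ∀ z, deriv f z * g z - f z * deriv g z = 0) (a b : ℂ) : f a * g b = f b * g a := by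
  by_cases h0 : ∀ z, g z = 0
  · simp [h0]
  obtain ⟨c, hc⟩ := not_forall.1 h0
  obtain ⟨r, hr, hb⟩ := Metric.eventually_nhds_iff_ball.1
    (hg.continuous.continuousAt.eventually_ne hc)
  have hd : DifferentiableOn ℂ (fun z => f z / g z) (Metric.ball c r) :=
    hf.differentiableOn.div hg.differentiableOn hb
  have h1 : (fun z => f z - f c / g c * g z) =ᶠ[𝓝 c] 0 := by
    filter_upwards [Metric.ball_mem_nhds c hr] with w hw
    have h2 := Metric.isOpen_ball.is_const_of_deriv_eq_zero (convex_ball c r).isPreconnected hd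
      (fun x hx => by
        rw [((hf x).hasDerivAt.fun_div (hg x).hasDerivAt (hb x hx)).deriv, h x, zero_div]
        rfl) hw (Metric.mem_ball_self hr)
    have h3 := hb w hw
    show f w - f c / g c * g w = 0
    rw [← h2]
    field_simp
    ring
  have h4 := (((hf.sub (hg.const_mul (f c / g c))).differentiableOn.analyticOnNhd
    isOpen_univ).eqOn_zero_of_preconnected_of_eventuallyEq_zero isPreconnected_univ (mem_univ c) h1)
  have ha : f a - f c / g c * g a = 0 := h4 (mem_univ a)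
  have hb' : f b - f c / g c * g b = 0 := h4 (mem_univ b)
  linear_combination g b * ha - g a * hb'

theorem ex_dense {f : ℂ → ℂ} (hf : Continuous f) (h : ∀ z, z ∉ LL.lattice → f z = 0) (z : ℂ) :
    f z = 0 := by
  have hd : Dense (LL.lattice : Set ℂ)ᶜ :=
    Set.Countable.dense_compl ℝ (countable_of_Lindelof_of_discrete (X := LL.lattice))
  exact congrFun (Continuous.ext_on hd hf continuous_const fun w hw => h w hw) z

def wq (z : ℂ) : ℂ := LL.derivWeierstrassP z

theorem wp_I (z : ℂ) : wp (I * z) = -wp z := by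
  simp only [wp, PeriodPair.weierstrassP]
  rw [← EA.rot.tsum_eq, ← tsum_neg]
  refine tsum_congr fun l => ?_
  rw [EA.rot_coe, ← mul_sub, mul_pow, mul_pow, I_sq]
  simp only [neg_mul, one_mul, div_neg]
  ring

theorem wq_I (z : ℂ) : wq (I * z) = I * wq z := by
  simp only [wq, PeriodPair.derivWeierstrassP]
  rw [← EA.rot.tsum_eq, mul_neg, ← tsum_mul_left]
  congr 1
  refine tsum_congr fun l => ?_
  have e : I ^ 3 = I⁻¹ := by simp
  rw [EA.rot_coe, ← mul_sub, mul_pow, e, div_mul_eq_div_div, div_inv_eq_mul]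
  ring

theorem g3_zero : LL.g₃ = 0 := by
  have h : LL.G 6 = -LL.G 6 := by
    simp only [PeriodPair.G]
    rw [← tsum_neg, ← EA.rot.tsum_eq]
    refine tsum_congr fun l => ?_
    have e : I ^ 6 = -1 := by linear_combination (I ^ 4 - I ^ 2 + 1) * I_sq
    have e2 : ((EA.rot l : LL.lattice) : ℂ) ^ 6 = -(l : ℂ) ^ 6 := by
      rw [EA.rot_coe, mul_pow, e, neg_one_mul]
    rw [e2, inv_neg]
  rw [PeriodPair.g₃, CharZero.eq_neg_self_iff.1 h, mul_zero]

theorem wq_sq {z : ℂ} (hz : z ∉ LL.lattice) : wq z ^ 2 = 4 * wp z ^ 3 - LL.g₂ * wp z := by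
  have h := LL.derivWeierstrassP_sq z hz
  rw [g3_zero, sub_zero] at h
  exact h

theorem wp_deriv {z : ℂ} (hz : z ∉ LL.lattice) : HasDerivAt wp (wq z) z := by
  have h := (LL.analyticOnNhd_weierstrassP z hz).differentiableAt.hasDerivAt
  rw [LL.deriv_weierstrassP] at h
  exact h

/-- the factor of automorphy -/
def fa (l z : ℂ) : ℂ := exp (4 * EA.cC * conj l * (z + l / 2))

def bX (z : ℂ) : ℂ := Sg z * wp z

def bY (z : ℂ) : ℂ := Sg z * wq z

open Classical in
def bW (z : ℂ) : ℂ := Sg z * wp z ^ 2 + if z ∈ LL.lattice then fa z 0 else 0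

theorem bT_add {l : ℂ} (hl : l ∈ LL.lattice) (z : ℂ) : Sg (z + l) = fa l z * Sg z :=
  EA.Sg_add hl z

theorem wp_add {l : ℂ} (hl : l ∈ LL.lattice) (z : ℂ) : wp (z + l) = wp z :=
  LL.weierstrassP_add_coe z ⟨l, hl⟩

theorem wq_add {l : ℂ} (hl : l ∈ LL.lattice) (z : ℂ) : wq (z + l) = wq z :=
  LL.derivWeierstrassP_add_coe z ⟨l, hl⟩

theorem bX_add {l : ℂ} (hl : l ∈ LL.lattice) (z : ℂ) : bX (z + l) = fa l z * bX z := by
  rw [bX, bX, bT_add hl, wp_add hl, mul_assoc]

theorem bY_add {l : ℂ} (hl : l ∈ LL.lattice) (z : ℂ) : bY (z + l) = fa l z * bY z := by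
  rw [bY, bY, bT_add hl, wq_add hl, mul_assoc]

theorem bW_off {z : ℂ} (hz : z ∉ LL.lattice) : bW z = Sg z * wp z ^ 2 := by
  rw [bW, if_neg hz, add_zero]

theorem bW_on {z : ℂ} (hz : z ∈ LL.lattice) : bW z = fa z 0 := by
  rw [bW, if_pos hz, EA.Sg_of_mem hz, zero_mul, zero_add]

theorem bW_add {l : ℂ} (hl : l ∈ LL.lattice) (z : ℂ) : bW (z + l) = fa l z * bW z := by
  by_cases hz : z ∈ LL.lattice
  · rw [bW_on hz, bW_on (add_mem hz hl), fa, fa, fa, ← exp_add,
      ← one_mul (exp (_ + _)), ← EA.ell2_cocycle hl hz, ← exp_add, map_add]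
    congr 1
    ring
  · rw [bW_off hz, bW_off (EA.add_notMem hz hl), bT_add hl, wp_add hl, mul_assoc]

theorem ex_entire {f : ℂ → ℂ} (h0 : DifferentiableAt ℂ f 0)
    (h1 : ∀ z, z ∉ LL.lattice → DifferentiableAt ℂ f z)
    (h2 : ∀ l, l ∈ LL.lattice → ∀ z, f (z + l) = fa l z * f z) : Differentiable ℂ f := by
  intro l
  by_cases hl : l ∈ LL.lattice
  · have e : f = fun z => fa l (z - l) * f (z - l) := by
      funext z
      rw [← h2 l hl, sub_add_cancel]
    have h3 : DifferentiableAt ℂ (fun z => f (z - l)) l :=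
      DifferentiableAt.comp l (g := f) (by rwa [sub_self]) (by fun_prop)
    rw [e]
    exact DifferentiableAt.mul (by unfold fa; fun_prop) h3
  · exact h1 l hl

theorem wp_zero (z : ℂ) : wp z = LL.weierstrassPExcept 0 z + 1 / z ^ 2 := by
  simpa [wp] using (LL.weierstrassPExcept_add 0 z).symm

theorem wq_zero (z : ℂ) : wq z = LL.derivWeierstrassPExcept 0 z - 2 / z ^ 3 := by
  simpa [wq] using (LL.derivWeierstrassPExcept_sub 0 z).symm

theorem bX_eq : bX = fun z => Sg0 z * (z ^ 4 * LL.weierstrassPExcept 0 z + z ^ 2) := by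
  funext z
  by_cases hz : z = 0
  · simp [bX, Sg, hz]
  · rw [bX, wp_zero, Sg]
    field_simp

theorem bY_eq : bY = fun z => Sg0 z * (z ^ 4 * LL.derivWeierstrassPExcept 0 z - 2 * z) := by
  funext z
  by_cases hz : z = 0
  · simp [bY, Sg, hz]
  · rw [bY, wq_zero, Sg]
    field_simp

theorem bW_zero : bW 0 = 1 := by
  rw [bW_on (zero_mem _)]
  simp [fa]

theorem bW_eq : bW =ᶠ[𝓝 0] fun z => Sg0 z * (z ^ 2 * LL.weierstrassPExcept 0 z + 1) ^ 2 := by
  filter_upwards [LL.compl_lattice_sdiff_singleton_mem_nhds 0] with z hz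
  by_cases h0 : z = 0
  · simp [h0, bW_zero, EA.S0_zero]
  · rw [bW_off fun h => hz ⟨h, h0⟩, wp_zero, Sg]
    field_simp

theorem wq_diff {z : ℂ} (hz : z ∉ LL.lattice) : DifferentiableAt ℂ wq z :=
  (LL.analyticOnNhd_derivWeierstrassP z hz).differentiableAt

theorem bX_diff : Differentiable ℂ bX := by
  refine ex_entire ?_ (fun z hz => (EA.differentiable_Sg z).mul (wp_deriv hz).differentiableAt)
    fun l hl => bX_add hl
  have h1 := (LL.analyticAt_weierstrassPExcept 0).differentiableAt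
  have h2 := EA.differentiable_S0 0
  rw [bX_eq]
  fun_prop

theorem bY_deriv_zero : HasDerivAt bY (-2) 0 := by
  have h1 := (LL.analyticAt_derivWeierstrassPExcept 0).differentiableAt.hasDerivAt
  have h2 := (EA.differentiable_S0 0).hasDerivAt
  have h3 := h2.fun_mul (((hasDerivAt_pow 4 (0 : ℂ)).fun_mul h1).fun_sub
    ((hasDerivAt_id' (0 : ℂ)).const_mul 2))
  rw [bY_eq]
  refine h3.congr_deriv ?_
  simp [EA.S0_zero]

theorem bY_diff : Differentiable ℂ bY :=
  ex_entire bY_deriv_zero.differentiableAt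
    (fun z hz => (EA.differentiable_Sg z).mul (wq_diff hz)) fun _ hl => bY_add hl

theorem bW_ev {z : ℂ} (hz : z ∉ LL.lattice) : bW =ᶠ[𝓝 z] fun z => Sg z * wp z ^ 2 := by
  filter_upwards [EA.isOpen_compl_LL.mem_nhds hz] with w hw
  exact bW_off hw

theorem bW_diff : Differentiable ℂ bW := by
  refine ex_entire ?_ (fun z hz => ?_) fun l hl => bW_add hl
  · have h1 := (LL.analyticAt_weierstrassPExcept 0).differentiableAt
    have h2 := EA.differentiable_S0 0
    rw [bW_eq.differentiableAt_iff]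
    fun_prop
  · rw [(bW_ev hz).differentiableAt_iff]
    exact (EA.differentiable_Sg z).mul ((wp_deriv hz).differentiableAt.pow 2)

theorem bY_ne : ¬ ∀ z, bY z = 0 := by
  intro h
  have e : bY = fun _ => 0 := funext h
  have h1 := bY_deriv_zero.deriv
  rw [e] at h1
  simp at h1

theorem wq_deriv {z : ℂ} (hz : z ∉ LL.lattice) : HasDerivAt wq (6 * wp z ^ 2 - LL.g₂ / 2) z := by
  have ha : AnalyticOnNhd ℂ wq (LL.lattice : Set ℂ)ᶜ := LL.analyticOnNhd_derivWeierstrassP
  have hp : AnalyticOnNhd ℂ wp (LL.lattice : Set ℂ)ᶜ := LL.analyticOnNhd_weierstrassP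
  have hb : AnalyticOnNhd ℂ (fun z => deriv wq z - (6 * wp z ^ 2 - LL.g₂ / 2))
      (LL.lattice : Set ℂ)ᶜ :=
    ha.deriv.sub ((analyticOnNhd_const.mul (hp.pow 2)).sub analyticOnNhd_const)
  have hm : ∀ w ∈ (LL.lattice : Set ℂ)ᶜ,
      wq w * (deriv wq w - (6 * wp w ^ 2 - LL.g₂ / 2)) = 0 := fun w hw => by
    have h1 := (wq_diff hw).hasDerivAt.fun_pow 2
    have h2 := (((wp_deriv hw).fun_pow 3).const_mul 4).fun_sub ((wp_deriv hw).const_mul LL.g₂)
    have h3 := h1.unique (h2.congr_of_eventuallyEq (by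
      filter_upwards [EA.isOpen_compl_LL.mem_nhds hw] with v hv
      exact wq_sq hv))
    push_cast at h3
    linear_combination (1 / 2) * h3
  rcases ha.eq_zero_or_eq_zero_of_mul_eq_zero hb hm EA.isPreconnected_compl_LL with h | h
  · refine absurd (ex_dense bY_diff.continuous fun w hw => ?_) bY_ne
    rw [bY, h w hw, mul_zero]
  · exact (wq_diff hz).hasDerivAt.congr_deriv (sub_eq_zero.1 (h z hz))

theorem bT_d {z : ℂ} (hz : z ∉ LL.lattice) : deriv Sg z = 4 * zetaS z * Sg z :=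
  (EA.hasDerivAt_Sg hz).deriv

theorem bX_d {z : ℂ} (hz : z ∉ LL.lattice) :
    deriv bX z = 4 * zetaS z * Sg z * wp z + Sg z * wq z :=
  ((EA.hasDerivAt_Sg hz).fun_mul (wp_deriv hz)).deriv

theorem bY_d {z : ℂ} (hz : z ∉ LL.lattice) :
    deriv bY z = 4 * zetaS z * Sg z * wq z + Sg z * (6 * wp z ^ 2 - LL.g₂ / 2) :=
  ((EA.hasDerivAt_Sg hz).fun_mul (wq_deriv hz)).deriv

theorem bW_d {z : ℂ} (hz : z ∉ LL.lattice) :
    deriv bW z = 4 * zetaS z * Sg z * wp z ^ 2 + Sg z * (2 * wp z * wq z) := by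
  rw [(bW_ev hz).deriv_eq, ((EA.hasDerivAt_Sg hz).fun_mul ((wp_deriv hz).fun_pow 2)).deriv]
  push_cast
  ring

theorem g2_ne : LL.g₂ ≠ 0 := by
  intro h
  have hX := bX_diff
  have hY := bY_diff
  have hf : Differentiable ℂ fun z => 2 * bX z + z * bY z := by fun_prop
  have h1 := ex_wr hf hY (ex_dense (by
    have := hf.deriv.continuous
    have := hY.deriv.continuous
    have := hX.continuous
    have := hY.continuous
    fun_prop) fun z hz => by
      have hs := wq_sq hz
      rw [(((hX z).hasDerivAt.const_mul 2).fun_add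
        ((hasDerivAt_id' z).fun_mul (hY z).hasDerivAt)).deriv, bX_d hz, bY_d hz, bX, bY]
      rw [h] at hs ⊢
      linear_combination (3 * Sg z ^ 2) * hs)
  refine bY_ne fun z => ?_
  have h2 := h1 z (z + 4)
  rw [bX_add EA.four_mem, bY_add EA.four_mem] at h2
  have h3 : fa 4 z * bY z ^ 2 = 0 := by linear_combination (-1 / 4) * h2
  exact pow_eq_zero_iff two_ne_zero |>.1 ((mul_eq_zero.1 h3).resolve_left (exp_ne_zero _))

theorem wp_surj (p : ℂ) : ∃ z, z ∉ LL.lattice ∧ wp z = p := by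
  by_contra h
  have hn : ∀ z, z ∉ LL.lattice → wp z - p ≠ 0 := fun z hz h0 => h ⟨z, hz, sub_eq_zero.1 h0⟩
  have hX := bX_diff
  have hW := bW_diff
  have hT := EA.differentiable_Sg
  have hd : ∀ z, bW z - 2 * p * bX z + p ^ 2 * Sg z ≠ 0 := fun z => by
    by_cases hz : z ∈ LL.lattice
    · rw [bW_on hz, bX, EA.Sg_of_mem hz]
      simp [fa]
    · rw [bW_off hz, bX, show Sg z * wp z ^ 2 - 2 * p * (Sg z * wp z) + p ^ 2 * Sg z =
        Sg z * (wp z - p) ^ 2 by ring]
      exact mul_ne_zero (EA.Sg_ne_zero hz) (pow_ne_zero _ (hn z hz))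
  have hg : Differentiable ℂ fun z => (bX z - p * Sg z) / (bW z - 2 * p * bX z + p ^ 2 * Sg z) :=
    Differentiable.div (by fun_prop) (by fun_prop) hd
  have hb := (IsZLattice.isCompact_range_of_periodic LL.lattice _ hg.continuous fun z l hl => by
    have h1 : fa l z ≠ 0 := exp_ne_zero _
    have h2 := hd z
    rw [bX_add hl, bW_add hl, bT_add hl, ← mul_div_mul_left (bX z - p * Sg z) _ h1]
    congr 1 <;> ring).isBounded
  have h1 : (1 : ℂ) ∉ LL.lattice := EA.notMem_of_norm_lt one_ne_zero (by simp)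
  have h2 := hg.apply_eq_apply_of_bounded hb 1 0
  have h3 : bX 0 - p * Sg 0 = 0 := by simp [bX, Sg]
  simp only [h3, zero_div] at h2
  rcases div_eq_zero_iff.1 h2 with h4 | h4
  · refine mul_ne_zero (EA.Sg_ne_zero h1) (hn 1 h1) ?_
    rw [← h4, bX]
    ring
  · exact hd 1 h4

end Pool.Agent.Tav.Ex
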