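import Pool.Agent.P.MP_2ce3e7_ag.Tav.ExDefs
import Pool.Agent.P.MP_2ce3e7_ag.Tav.ExUnifA

/-! The addition law from the differential equations. -/

set_option autoImplicit false

open Complex Filter Topology Set

noncomputable section

namespace Pool.Agent.Tav.Ex

/-- Wronskian of two coordinates -/
def wrk (u : ℂ → Fin 4 → ℂ) (i j : Fin 4) (z : ℂ) : ℂ :=
  deriv (fun z => u z i) z * u z j - u z i * deriv (fun z => u z j) z

/-- an entire curve solving the differential equations of the lemniscatic functions -/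
structure Good (κ : ℂ) (u : ℂ → Fin 4 → ℂ) : Prop where
  df : Differentiable ℂ u
  q1 : ∀ z, u z 1 ^ 2 - u z 3 ^ 2 + u z 0 ^ 2 = 0
  q2 : ∀ z, u z 2 ^ 2 - u z 3 ^ 2 - u z 0 ^ 2 = 0
  w03 : ∀ z, wrk u 0 3 z = κ * u z 1 * u z 2
  w13 : ∀ z, wrk u 1 3 z = -(κ * u z 0 * u z 2)
  w23 : ∀ z, wrk u 2 3 z = κ * u z 0 * u z 1
  w01 : ∀ z, wrk u 0 1 z = κ * u z 2 * u z 3
  w02 : ∀ z, wrk u 0 2 z = κ * u z 1 * u z 3
  z0 : u 0 = ![0, 1, 1, 1]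
  ng : ∀ z, u (-z) = ![-u z 0, u z 1, u z 2, u z 3]

theorem law_diff {x y : ℂ → Fin 4 → ℂ} (hx : Differentiable ℂ x) (hy : Differentiable ℂ y)
    (i j : Fin 4) : Differentiable ℂ fun z => law (x z) (y z) i j := by
  have h1 := differentiable_pi.1 hx
  have h2 := differentiable_pi.1 hy
  fin_cases i <;> fin_cases j <;> simp only [law,
    Fin.zero_eta, Fin.mk_one, Fin.reduceFinMk, Matrix.cons_val] <;> fun_prop

theorem law_rank {x y : Fin 4 → ℂ} (hx1 : x 1 ^ 2 - x 3 ^ 2 + x 0 ^ 2 = 0)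
    (hx2 : x 2 ^ 2 - x 3 ^ 2 - x 0 ^ 2 = 0) (hy1 : y 1 ^ 2 - y 3 ^ 2 + y 0 ^ 2 = 0)
    (hy2 : y 2 ^ 2 - y 3 ^ 2 - y 0 ^ 2 = 0) (i j : Fin 4) :
    law x y i j * law x y 3 3 = law x y i 3 * law x y 3 j := by
  fin_cases i <;> fin_cases j <;> simp only [law,
    Fin.zero_eta, Fin.mk_one, Fin.reduceFinMk, Matrix.cons_val]
  · linear_combination (x 2 ^ 2 * y 0 ^ 2 * y 3 ^ 2) * hx1 + ((-1) * x 0 ^ 2 * y 0 ^ 2 * y 3 ^ 2 +
      x 3 ^ 2 * y 0 ^ 2 * y 3 ^ 2) * hx2 + ((-1) * y 2 ^ 2 * x 0 ^ 2 * x 3 ^ 2) * hy1 +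
      (x 0 ^ 2 * x 3 ^ 2 * y 0 ^ 2 + (-1) * x 0 ^ 2 * x 3 ^ 2 * y 3 ^ 2) * hy2
  · linear_combination ((-1) * x 2 * y 1 * x 3 * y 0 * y 3 ^ 2) * hx1 +
      ((-1) * x 1 * y 2 * x 0 * y 0 ^ 2 * y 3) * hx2 +
      ((-1) * x 1 * y 2 * x 0 * x 3 ^ 2 * y 3) * hy1 +
      ((-1) * x 2 * y 1 * x 0 ^ 2 * x 3 * y 0) * hy2
  · linear_combination (x 2 * y 1 * x 0 * y 0 ^ 2 * y 3) * hx1 +
      ((-1) * x 1 * y 2 * x 3 * y 0 * y 3 ^ 2) * hx2 + (x 1 * y 2 * x 0 ^ 2 * x 3 * y 0) * hy1 +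
      ((-1) * x 2 * y 1 * x 0 * x 3 ^ 2 * y 3) * hy2
  · linear_combination (x 2 * y 1 * x 3 * y 0 * y 3 ^ 2) * hx1 +
      ((-1) * x 1 * y 2 * x 0 * y 0 ^ 2 * y 3) * hx2 +
      ((-1) * x 1 * y 2 * x 0 * x 3 ^ 2 * y 3) * hy1 + (x 2 * y 1 * x 0 ^ 2 * x 3 * y 0) * hy2
  · linear_combination (y 1 ^ 2 * x 0 ^ 2 * y 0 ^ 2) * hx1 + (y 2 ^ 2 * x 0 ^ 2 * y 0 ^ 2) * hx2 +
      ((-1) * x 0 ^ 4 * y 0 ^ 2 + x 0 ^ 2 * x 3 ^ 2 * y 0 ^ 2) * hy1 + (x 0 ^ 4 * y 0 ^ 2 +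
      x 0 ^ 2 * x 3 ^ 2 * y 0 ^ 2) * hy2
  · linear_combination (y 1 ^ 2 * x 0 * x 3 * y 0 * y 3) * hx1 +
      (y 2 ^ 2 * x 0 * x 3 * y 0 * y 3) * hx2 + ((-1) * x 0 ^ 3 * x 3 * y 0 * y 3 +
      x 0 * x 3 ^ 3 * y 0 * y 3) * hy1 + (x 0 ^ 3 * x 3 * y 0 * y 3 +
      x 0 * x 3 ^ 3 * y 0 * y 3) * hy2
  · linear_combination (x 2 * y 1 * x 0 * y 0 ^ 2 * y 3) * hx1 +
      (x 1 * y 2 * x 3 * y 0 * y 3 ^ 2) * hx2 + ((-1) * x 1 * y 2 * x 0 ^ 2 * x 3 * y 0) * hy1 +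
      ((-1) * x 2 * y 1 * x 0 * x 3 ^ 2 * y 3) * hy2
  · linear_combination ((-1) * y 1 ^ 2 * x 0 * x 3 * y 0 * y 3) * hx1 +
      ((-1) * y 2 ^ 2 * x 0 * x 3 * y 0 * y 3) * hx2 + (x 0 ^ 3 * x 3 * y 0 * y 3 +
      (-1) * x 0 * x 3 ^ 3 * y 0 * y 3) * hy1 + ((-1) * x 0 ^ 3 * x 3 * y 0 * y 3 +
      (-1) * x 0 * x 3 ^ 3 * y 0 * y 3) * hy2
  · linear_combination (y 1 ^ 2 * x 0 ^ 2 * y 0 ^ 2) * hx1 + (y 2 ^ 2 * x 0 ^ 2 * y 0 ^ 2) * hx2 +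
      ((-1) * x 0 ^ 4 * y 0 ^ 2 + x 0 ^ 2 * x 3 ^ 2 * y 0 ^ 2) * hy1 + (x 0 ^ 4 * y 0 ^ 2 +
      x 0 ^ 2 * x 3 ^ 2 * y 0 ^ 2) * hy2
  · ring
  · ring
  · ring

variable {κ : ℂ} {u : ℂ → Fin 4 → ℂ}

theorem Good.wz (G : Good κ u) (t : ℂ) (i : Fin 4) (z : ℂ) :
    deriv (fun z => law (u z) (u (t - z)) i 3) z * law (u z) (u (t - z)) 3 3 -
      law (u z) (u (t - z)) i 3 * deriv (fun z => law (u z) (u (t - z)) 3 3) z = 0 := by
  have h : ∀ i, HasDerivAt (fun z => u z i) (deriv (fun z => u z i) z) z := fun i =>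
    (differentiable_pi.1 G.df i z).hasDerivAt
  have g : ∀ i, HasDerivAt (fun z => u (t - z) i) (-deriv (fun z => u z i) (t - z)) z := fun i =>
    (differentiable_pi.1 G.df i (t - z)).hasDerivAt.comp_const_sub t z
  have a03 := G.w03 z
  have a13 := G.w13 z
  have a23 := G.w23 z
  have a01 := G.w01 z
  have a02 := G.w02 z
  have b03 := G.w03 (t - z)
  have b13 := G.w13 (t - z)
  have b23 := G.w23 (t - z)
  have b01 := G.w01 (t - z)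
  have b02 := G.w02 (t - z)
  have hx1 := G.q1 z
  have hx2 := G.q2 z
  have hy1 := G.q1 (t - z)
  have hy2 := G.q2 (t - z)
  unfold wrk at a03 a13 a23 a01 a02 b03 b13 b23 b01 b02
  have e3 : deriv (fun z => law (u z) (u (t - z)) 3 3) z = _ :=
    ((((h 3).fun_pow 2).fun_mul ((g 3).fun_pow 2)).fun_add
      (((h 0).fun_pow 2).fun_mul ((g 0).fun_pow 2))).deriv
  have f3 : law (u z) (u (t - z)) 3 3 =
    u z 3 ^ 2 * u (t - z) 3 ^ 2 + u z 0 ^ 2 * u (t - z) 0 ^ 2 := rfl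
  push_cast at e3
  revert i
  rw [Fin.forall_fin_succ, Fin.forall_fin_succ, Fin.forall_fin_succ, Fin.forall_fin_one]
  refine ⟨?_, ?_, ?_, ?_⟩
  · have e : deriv (fun z => law (u z) (u (t - z)) 0 3) z = _ :=
      ((((h 0).fun_mul (h 3)).fun_mul ((g 1).fun_mul (g 2))).fun_add
      (((h 1).fun_mul (h 2)).fun_mul ((g 0).fun_mul (g 3)))).deriv
    have f : law (u z) (u (t - z)) 0 3 =
      u z 0 * u z 3 * (u (t - z) 1 * u (t - z) 2) + u z 1 * u z 2 * (u (t - z) 0 * u (t - z) 3) := rfl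
    show deriv (fun z => law (u z) (u (t - z)) 0 3) z * _ - law (u z) (u (t - z)) 0 3 * _ = 0
    rw [e, e3, f, f3]
    linear_combination ((-1) * u (t - z) 1 * u (t - z) 2 * u z 0 ^ 2 * u (t - z) 0 ^ 2 +
      u (t - z) 1 * u (t - z) 2 * u z 3 ^ 2 * u (t - z) 3 ^ 2) * a03 +
      (u z 1 * u z 2 * u z 0 ^ 2 * u (t - z) 0 ^ 2 +
      (-1) * u z 1 * u z 2 * u z 3 ^ 2 * u (t - z) 3 ^ 2) * b03 +
      (u z 2 * u z 3 * u (t - z) 0 * u (t - z) 3 ^ 3) * a13 +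
      ((-1) * u (t - z) 2 * u z 0 * u z 3 ^ 3 * u (t - z) 3) * b13 +
      (u z 1 * u z 3 * u (t - z) 0 * u (t - z) 3 ^ 3) * a23 +
      ((-1) * u (t - z) 1 * u z 0 * u z 3 ^ 3 * u (t - z) 3) * b23 +
      ((-1) * u z 2 * u z 0 * u (t - z) 0 ^ 3 * u (t - z) 3) * a01 +
      (u (t - z) 2 * u z 0 ^ 3 * u z 3 * u (t - z) 0) * b01 +
      ((-1) * u z 1 * u z 0 * u (t - z) 0 ^ 3 * u (t - z) 3) * a02 +
      (u (t - z) 1 * u z 0 ^ 3 * u z 3 * u (t - z) 0) * b02 +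
      ((-1) * u z 0 * u z 3 * u (t - z) 0 ^ 3 * u (t - z) 3 * κ +
      u z 0 * u z 3 * u (t - z) 0 * u (t - z) 3 ^ 3 * κ) * hx1 +
      ((-1) * u z 0 * u z 3 * u (t - z) 0 ^ 3 * u (t - z) 3 * κ +
      (-1) * u z 0 * u z 3 * u (t - z) 0 * u (t - z) 3 ^ 3 * κ) * hx2 +
      (u z 0 ^ 3 * u z 3 * u (t - z) 0 * u (t - z) 3 * κ +
      (-1) * u z 0 * u z 3 ^ 3 * u (t - z) 0 * u (t - z) 3 * κ) * hy1 +
      (u z 0 ^ 3 * u z 3 * u (t - z) 0 * u (t - z) 3 * κ +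
      u z 0 * u z 3 ^ 3 * u (t - z) 0 * u (t - z) 3 * κ) * hy2
  · have e : deriv (fun z => law (u z) (u (t - z)) 1 3) z = _ :=
      ((((h 1).fun_mul (h 3)).fun_mul ((g 1).fun_mul (g 3))).fun_sub
      (((h 0).fun_mul (h 2)).fun_mul ((g 0).fun_mul (g 2)))).deriv
    have f : law (u z) (u (t - z)) 1 3 =
      u z 1 * u z 3 * (u (t - z) 1 * u (t - z) 3) - u z 0 * u z 2 * (u (t - z) 0 * u (t - z) 2) := rfl
    show deriv (fun z => law (u z) (u (t - z)) 1 3) z * _ - law (u z) (u (t - z)) 1 3 * _ = 0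
    rw [e, e3, f, f3]
    linear_combination ((-1) * u z 1 * u (t - z) 1 * u z 0 * u (t - z) 0 ^ 2 * u (t - z) 3 +
      (-1) * u z 2 * u (t - z) 2 * u z 3 * u (t - z) 0 * u (t - z) 3 ^ 2) * a03 +
      (u z 1 * u (t - z) 1 * u z 0 ^ 2 * u z 3 * u (t - z) 0 +
      u z 2 * u (t - z) 2 * u z 0 * u z 3 ^ 2 * u (t - z) 3) * b03 +
      (u (t - z) 1 * u z 3 ^ 2 * u (t - z) 3 ^ 3) * a13 +
      ((-1) * u z 1 * u z 3 ^ 3 * u (t - z) 3 ^ 2) * b13 +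
      ((-1) * u (t - z) 2 * u z 0 * u z 3 * u (t - z) 0 * u (t - z) 3 ^ 2) * a23 +
      (u z 2 * u z 0 * u z 3 ^ 2 * u (t - z) 0 * u (t - z) 3) * b23 +
      ((-1) * u (t - z) 1 * u z 0 * u z 3 * u (t - z) 0 ^ 2 * u (t - z) 3) * a01 +
      (u z 1 * u z 0 ^ 2 * u z 3 * u (t - z) 0 * u (t - z) 3) * b01 +
      (u (t - z) 2 * u z 0 ^ 2 * u (t - z) 0 ^ 3) * a02 +
      ((-1) * u z 2 * u z 0 ^ 3 * u (t - z) 0 ^ 2) * b02 +
      ((-1) * u z 2 * u (t - z) 1 * u z 0 * u (t - z) 0 ^ 2 * u (t - z) 3 * κ) * hx1 +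
      ((-1) * u z 1 * u (t - z) 2 * u z 3 * u (t - z) 0 * u (t - z) 3 ^ 2 * κ) * hx2 +
      (u z 1 * u (t - z) 2 * u z 0 ^ 2 * u z 3 * u (t - z) 0 * κ) * hy1 +
      (u z 2 * u (t - z) 1 * u z 0 * u z 3 ^ 2 * u (t - z) 3 * κ) * hy2
  · have e : deriv (fun z => law (u z) (u (t - z)) 2 3) z = _ :=
      ((((h 2).fun_mul (h 3)).fun_mul ((g 2).fun_mul (g 3))).fun_add
      (((h 0).fun_mul (h 1)).fun_mul ((g 0).fun_mul (g 1)))).deriv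
    have f : law (u z) (u (t - z)) 2 3 =
      u z 2 * u z 3 * (u (t - z) 2 * u (t - z) 3) + u z 0 * u z 1 * (u (t - z) 0 * u (t - z) 1) := rfl
    show deriv (fun z => law (u z) (u (t - z)) 2 3) z * _ - law (u z) (u (t - z)) 2 3 * _ = 0
    rw [e, e3, f, f3]
    linear_combination (u z 1 * u (t - z) 1 * u z 3 * u (t - z) 0 * u (t - z) 3 ^ 2 +
      (-1) * u z 2 * u (t - z) 2 * u z 0 * u (t - z) 0 ^ 2 * u (t - z) 3) * a03 +
      ((-1) * u z 1 * u (t - z) 1 * u z 0 * u z 3 ^ 2 * u (t - z) 3 +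
      u z 2 * u (t - z) 2 * u z 0 ^ 2 * u z 3 * u (t - z) 0) * b03 +
      (u (t - z) 1 * u z 0 * u z 3 * u (t - z) 0 * u (t - z) 3 ^ 2) * a13 +
      ((-1) * u z 1 * u z 0 * u z 3 ^ 2 * u (t - z) 0 * u (t - z) 3) * b13 +
      (u (t - z) 2 * u z 3 ^ 2 * u (t - z) 3 ^ 3) * a23 +
      ((-1) * u z 2 * u z 3 ^ 3 * u (t - z) 3 ^ 2) * b23 +
      ((-1) * u (t - z) 1 * u z 0 ^ 2 * u (t - z) 0 ^ 3) * a01 +
      (u z 1 * u z 0 ^ 3 * u (t - z) 0 ^ 2) * b01 +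
      ((-1) * u (t - z) 2 * u z 0 * u z 3 * u (t - z) 0 ^ 2 * u (t - z) 3) * a02 +
      (u z 2 * u z 0 ^ 2 * u z 3 * u (t - z) 0 * u (t - z) 3) * b02 +
      (u z 2 * u (t - z) 1 * u z 3 * u (t - z) 0 * u (t - z) 3 ^ 2 * κ) * hx1 +
      ((-1) * u z 1 * u (t - z) 2 * u z 0 * u (t - z) 0 ^ 2 * u (t - z) 3 * κ) * hx2 +
      ((-1) * u z 1 * u (t - z) 2 * u z 0 * u z 3 ^ 2 * u (t - z) 3 * κ) * hy1 +
      (u z 2 * u (t - z) 1 * u z 0 ^ 2 * u z 3 * u (t - z) 0 * κ) * hy2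
  · show deriv (fun z => law (u z) (u (t - z)) 3 3) z * _ - law (u z) (u (t - z)) 3 3 * _ = 0
    ring

theorem Good.col (G : Good κ u) (i : Fin 4) (z z' : ℂ) :
    law (u z) (u z') i 3 * u (z + z') 3 = law (u z) (u z') 3 3 * u (z + z') i := by
  have hd := differentiable_pi.1 G.df
  have h1 : ∀ t, u t 3 * (law (u z) (u (t - z)) i 3 * u t 3 - law (u z) (u (t - z)) 3 3 * u t i) = 0 := by
    intro t
    have hs : Differentiable ℂ fun z => u (t - z) := G.df.comp (by fun_prop)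
    have h2 := ex_wr (law_diff G.df hs i 3) (law_diff G.df hs 3 3) (G.wz t i) z t
    have h3 : ∀ j, law (u t) ![0, 1, 1, 1] j 3 = u t j * u t 3 := fun j => by
      fin_cases j <;> simp [law, sq]
    rw [sub_self, G.z0, h3, h3] at h2
    linear_combination h2
  have hs : Differentiable ℂ fun t => u (t - z) := G.df.comp (by fun_prop)
  have h4 := ex_cancel (hd 3) (((law_diff (differentiable_const (u z)) hs i 3).mul (hd 3)).sub
    ((law_diff (differentiable_const (u z)) hs 3 3).mul (hd i))) (a := 0) (by simp [G.z0]) h1 (z + z')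
  simp only [Pi.sub_apply, Pi.mul_apply, add_sub_cancel_left] at h4
  exact sub_eq_zero.1 h4

theorem Good.row (G : Good κ u) (j : Fin 4) (z z' : ℂ) :
    law (u z) (u z') 3 j * u (z - z') 3 = law (u z) (u z') 3 3 * u (z - z') j := by
  have h := G.col j z (-z')
  have e : ∀ j, law (u z) (u (-z')) j 3 = law (u z) (u z') 3 j := fun j => by
    rw [G.ng]
    fin_cases j <;> simp [law] <;> ring
  rwa [e, e, ← sub_eq_add_neg] at h

theorem Good.add (G : Good κ u) (z z' : ℂ) :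
    Pp (fun p : Fin 4 × Fin 4 => u (z + z') p.1 * u (z - z') p.2)
      fun p => law (u z) (u z') p.1 p.2 := by
  rintro ⟨i, j⟩ ⟨k, l⟩
  have hd := differentiable_pi.1 G.df
  have hg : ∀ {a b : ℂ → ℂ}, Differentiable ℂ a → Differentiable ℂ b → Differentiable ℂ fun v =>
      u (a v + b v) i * u (a v - b v) j * law (u (a v)) (u (b v)) k l -
        u (a v + b v) k * u (a v - b v) l * law (u (a v)) (u (b v)) i j := fun ha hb =>
    ((((hd i).comp (ha.add hb)).mul ((hd j).comp (ha.sub hb))).mul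
      (law_diff (G.df.comp ha) (G.df.comp hb) k l)).sub
    ((((hd k).comp (ha.add hb)).mul ((hd l).comp (ha.sub hb))).mul
      (law_diff (G.df.comp ha) (G.df.comp hb) i j))
  refine sub_eq_zero.1 (ex_cancel (hd 3) (hg differentiable_id (differentiable_const z')) (a := 0)
    (by simp [G.z0]) (fun x => ?_) z)
  by_cases hx : u x 3 = 0
  · rw [hx, zero_mul]
  refine mul_eq_zero_of_right _ (ex_cancel ((law_diff (differentiable_const (u x)) G.df 3 3).pow 2)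
    (hg (differentiable_const x) differentiable_id) (a := 0) ?_ (fun y => ?_) z')
  · simpa [G.z0, law] using hx
  have K := law_rank (G.q1 x) (G.q2 x) (G.q1 y) (G.q2 y)
  have C := fun i => G.col i x y
  have R := fun j => G.row j x y
  simp only [Pi.pow_apply, id]
  linear_combination law (u x) (u y) k l * (-(law (u x) (u y) 3 3 * u (x - y) j) * C i -
      law (u x) (u y) i 3 * u (x + y) 3 * R j - u (x + y) 3 * u (x - y) 3 * K i j) -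
    law (u x) (u y) i j * (-(law (u x) (u y) 3 3 * u (x - y) l) * C k -
      law (u x) (u y) k 3 * u (x + y) 3 * R l - u (x + y) 3 * u (x - y) 3 * K k l)

end Pool.Agent.Tav.Ex
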