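import Mathlib

namespace Pool.Agent.Tav

section FAlg

variable {X D : Type*} [Group D] [MulAction D X]

/-- A type: an odd function with values `1` and `-1`. -/
def IsTy (c : X → X) (f : X → ℤ) : Prop :=
  (∀ x, f x = 1 ∨ f x = -1) ∧ ∀ x, f (c x) = - f x

theorem IsTy.neg {c : X → X} {f : X → ℤ} (h : IsTy c f) : IsTy c (fun x => - f x) :=
  ⟨fun x => by rcases h.1 x with h1 | h1 <;> simp [h1], fun x => by simp [h.2 x]⟩

theorem exists_stable_ty (c : X → X) (hcc : ∀ x, c (c x) = x)
    (hcD : ∀ (σ : D) x, c (σ • x) = σ • c x) (hne : ∀ (σ : D) x, σ • x ≠ c x) :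
    ∃ e : X → ℤ, IsTy c e ∧ ∀ (σ : D) x, e (σ • x) = e x := by
  classical
  obtain ⟨_, -⟩ := exists_wellFoundedLT (MulAction.orbitRel.Quotient D X)
  let o : X → MulAction.orbitRel.Quotient D X := fun x => Quotient.mk'' x
  have ho : ∀ (σ : D) x, o (σ • x) = o x := fun σ x =>
    Quotient.sound' (MulAction.orbitRel_apply.2 ⟨σ, rfl⟩)
  have hn : ∀ x, o (c x) ≠ o x := by
    intro x h
    obtain ⟨σ, hσ⟩ := MulAction.orbitRel_apply.1 (Quotient.exact' h)
    exact hne σ x hσ
  refine ⟨fun x => if o x < o (c x) then 1 else -1, ⟨fun x => ?_, fun x => ?_⟩, fun σ x => ?_⟩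
  · by_cases h : o x < o (c x) <;> simp [h]
  · simp only [hcc]
    rcases lt_or_gt_of_ne (hn x) with h | h
    · rw [if_pos h, if_neg (not_lt.2 h.le)]; simp
    · rw [if_neg (not_lt.2 h.le), if_pos h]
  · simp only [hcD, ho]

/-- An odd invariant function of weight `N` is a sum of `N` invariant types. -/
theorem stable_sum (c : X → X) (hcc : ∀ x, c (c x) = x)
    (hcD : ∀ (σ : D) x, c (σ • x) = σ • c x) (hne : ∀ (σ : D) x, σ • x ≠ c x) (N : ℕ) :
    ∀ G : X → ℤ, (∀ x, G (c x) = - G x) → (∀ (σ : D) x, G (σ • x) = G x) →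
      (∀ x, ∃ a b : ℕ, a + b = N ∧ G x = a - b) →
      ∃ L : List (X → ℤ), L.length = N ∧ (∀ f ∈ L, IsTy c f ∧ ∀ (σ : D) x, f (σ • x) = f x) ∧
        ∀ x, (L.map fun f => f x).sum = G x := by
  obtain ⟨e, he, hes⟩ := exists_stable_ty (D := D) c hcc hcD hne
  induction N with
  | zero =>
    intro G _ _ hG
    refine ⟨[], rfl, by simp, fun x => ?_⟩
    obtain ⟨a, b, hab, h⟩ := hG x
    simp only [List.map_nil, List.sum_nil]
    omega
  | succ N ih =>
    intro G hodd hst hG
    let f : X → ℤ := fun x => if 0 < G x then 1 else if G x < 0 then -1 else e x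
    have hf : IsTy c f := by
      refine ⟨fun x => ?_, fun x => ?_⟩
      · simp only [f]
        split_ifs
        · exact Or.inl rfl
        · exact Or.inr rfl
        · exact he.1 x
      · simp only [f, hodd, he.2 x]
        split_ifs <;> omega
    have hfs : ∀ (σ : D) x, f (σ • x) = f x := fun σ x => by simp only [f, hst, hes]
    obtain ⟨L, hL, hL2, hL3⟩ := ih (fun x => G x - f x)
      (fun x => by rw [hodd, hf.2]; ring) (fun σ x => by rw [hst, hfs]) (fun x => by
        obtain ⟨a, b, hab, h⟩ := hG x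
        have h1 := he.1 x
        simp only [f]
        split_ifs
        · exact ⟨a - 1, b, by omega, by omega⟩
        · exact ⟨a, b - 1, by omega, by omega⟩
        · rcases h1 with h1 | h1
          · exact ⟨a - 1, b, by omega, by omega⟩
          · exact ⟨a, b - 1, by omega, by omega⟩)
    refine ⟨f :: L, by simp [hL], ?_, fun x => ?_⟩
    · intro g hg
      rcases List.mem_cons.1 hg with rfl | hg
      · exact ⟨hf, hfs⟩
      · exact hL2 g hg
    · simp only [List.map_cons, List.sum_cons, hL3]; ring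

/-- An odd function with even values and trace zero is a sum of differences of a type and a
translate of it. -/
theorem ker_trace [Fintype X] [Fintype D] (c : X → X) (hcc : ∀ x, c (c x) = x)
    (hcD : ∀ (σ : D) x, c (σ • x) = σ • c x) (hne : ∀ (σ : D) x, σ • x ≠ c x) (n : ℕ) :
    ∀ F : X → ℤ, ∑ x, (F x).natAbs ≤ n → (∀ x, F (c x) = - F x) → (∀ x, Even (F x)) →
      (∀ x, ∑ σ : D, F (σ • x) = 0) →
      ∃ L : List ((X → ℤ) × D), (∀ p ∈ L, IsTy c p.1) ∧
        ∀ x, F x + (L.map fun p => p.1 (p.2 • x) - p.1 x).sum = 0 := by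
  classical
  obtain ⟨e, he, -⟩ := exists_stable_ty (D := D) c hcc hcD hne
  induction n with
  | zero =>
    intro F hF _ _ _
    refine ⟨[], by simp, fun x => ?_⟩
    have h := Finset.single_le_sum (f := fun x => (F x).natAbs) (fun _ _ => Nat.zero_le _)
      (Finset.mem_univ x)
    simp only [List.map_nil, List.sum_nil]
    omega
  | succ n ih =>
    intro F hF hodd hev htr
    by_cases h0 : ∀ x, F x = 0
    · exact ⟨[], by simp, fun x => by simp [h0]⟩
    obtain ⟨y, hy⟩ : ∃ y, 0 < F y := by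
      push Not at h0
      obtain ⟨y, hy⟩ := h0
      rcases lt_or_gt_of_ne hy with h | h
      · exact ⟨c y, by rw [hodd]; omega⟩
      · exact ⟨y, h⟩
    obtain ⟨σ, hσ⟩ : ∃ σ : D, F (σ • y) < 0 := by
      by_contra hcon
      push Not at hcon
      have h := Finset.single_le_sum (f := fun σ : D => F (σ • y)) (fun σ _ => hcon σ)
        (Finset.mem_univ 1)
      rw [htr y, one_smul] at h
      omega
    have hci : Function.Injective c := Function.LeftInverse.injective hcc
    let E : X → ℤ := fun x => (if x = y then 2 else 0) - (if x = c y then 2 else 0)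
    have hyc : y ≠ c y := by simpa using hne 1 y
    have hE : ∀ x, E (c x) = - E x := by
      intro x
      have h1 : c x = y ↔ x = c y := ⟨fun h => by rw [← h, hcc], fun h => by rw [h, hcc]⟩
      simp only [E, h1, hci.eq_iff]; ring
    obtain ⟨f, hf, hfy⟩ : ∃ f, IsTy c f ∧ f y = 1 := by
      rcases he.1 y with h | h
      · exact ⟨e, he, h⟩
      · exact ⟨_, he.neg, by simp [h]⟩
    have hg : IsTy c (fun x => E x - f x) := by
      refine ⟨fun x => ?_, fun x => by simp only [hE, hf.2 x]; ring⟩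
      have h1 := hf.1 x
      have h2 := hf.2 y
      simp only [E]
      split_ifs with a b b
      · exact absurd (a.symm.trans b) hyc
      · rw [a, hfy]; simp
      · rw [b, h2, hfy]; simp
      · omega
    have hA : ∀ x, σ⁻¹ • x = y ↔ x = σ • y := fun x => inv_smul_eq_iff
    have hB : ∀ x, σ⁻¹ • x = c y ↔ x = c (σ • y) := fun x => by rw [inv_smul_eq_iff, hcD]
    have e1 := hev y
    have e2 := hev (σ • y)
    have o1 := hodd y
    have o2 := hodd (σ • y)
    have n1 : σ • y ≠ c y := hne σ y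
    have n2 : σ • y ≠ y := fun h => by rw [h] at hσ; omega
    have n3 : σ • y ≠ c (σ • y) := by simpa using hne 1 (σ • y)
    have n4 : c (σ • y) ≠ y := fun h => n1 (by rw [← hcc (σ • y), h])
    have n5 : c (σ • y) ≠ c y := fun h => n2 (hci h)
    have hle : ∀ x, (F x + (E (σ⁻¹ • x) - E x)).natAbs ≤ (F x).natAbs := by
      intro x
      obtain ⟨a, ha⟩ := e1
      obtain ⟨b, hb⟩ := e2
      simp only [E, hA, hB]
      by_cases a1 : x = y
      · subst a1
        rw [if_neg n2.symm, if_neg n4.symm, if_pos rfl, if_neg hyc]; omega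
      by_cases a2 : x = c y
      · subst a2
        rw [if_neg n1.symm, if_neg n5.symm, if_neg a1, if_pos rfl]; omega
      by_cases a3 : x = σ • y
      · subst a3
        rw [if_pos rfl, if_neg n3, if_neg a1, if_neg a2]; omega
      by_cases a4 : x = c (σ • y)
      · subst a4
        rw [if_neg a3, if_pos rfl, if_neg a1, if_neg a2]; omega
      rw [if_neg a3, if_neg a4, if_neg a1, if_neg a2]; omega
    have hlt : (F y + (E (σ⁻¹ • y) - E y)).natAbs < (F y).natAbs := by
      obtain ⟨a, ha⟩ := e1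
      simp only [E, hA, hB]
      rw [if_neg n2.symm, if_neg n4.symm, if_pos trivial, if_neg hyc]; omega
    obtain ⟨L, hL, hL2⟩ := ih (fun x => F x + (E (σ⁻¹ • x) - E x))
      (by
        have := Finset.sum_lt_sum (s := Finset.univ) (fun x _ => hle x)
          ⟨y, Finset.mem_univ y, hlt⟩
        omega)
      (fun x => by rw [hodd, ← hcD, hE, hE]; ring)
      (fun x => by
        refine (hev x).add (Even.sub ?_ ?_) <;>
        · simp only [E]
          split_ifs <;> decide)
      (fun x => by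
        rw [Finset.sum_add_distrib, htr, Finset.sum_sub_distrib, zero_add, sub_eq_zero]
        simp only [← mul_smul]
        exact Fintype.sum_equiv (Equiv.mulLeft σ⁻¹) _ _ (fun τ => rfl))
    refine ⟨(f, σ⁻¹) :: (fun x => E x - f x, σ⁻¹) :: L, ?_, fun x => ?_⟩
    · intro p hp
      rcases List.mem_cons.1 hp with rfl | hp
      · exact hf
      rcases List.mem_cons.1 hp with rfl | hp
      · exact hg
      · exact hL p hp
    · have := hL2 x
      simp only [List.map_cons, List.sum_cons]
      linarith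

variable {I : Type*}

/-- Trace zero and even values give algebraicity. -/
theorem alg_of_trace [Fintype X] [Fintype D] (c : X → X) (hcc : ∀ x, c (c x) = x)
    (hcD : ∀ (σ : D) x, c (σ • x) = σ • c x) (hne : ∀ (σ : D) x, σ • x ≠ c x)
    (ty : I → X → ℤ) (Fu : I → Prop) (Alg : List I → Prop)
    (full : ∀ f, IsTy c f → ∃ i, Fu i ∧ ty i = f)
    (hodge : ∀ l : List I, (∀ x, (l.map fun i => ty i x).sum = 0) → Alg l)
    (cancel : ∀ i, Fu i → ∃ j, (∀ x, ty j x = - ty i x) ∧ ∀ l, Alg (i :: j :: l) → Alg l)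
    (transport : ∀ i, Fu i → ∀ σ : D, ∃ j, (∀ x, ty j x = ty i (σ • x)) ∧
      ∀ l, Alg (j :: l) → Alg (i :: l))
    (l : List I) (hodd : ∀ x, (l.map fun i => ty i (c x)).sum = - (l.map fun i => ty i x).sum)
    (hev : ∀ x, Even (l.map fun i => ty i x).sum)
    (htr : ∀ x, ∑ σ : D, (l.map fun i => ty i (σ • x)).sum = 0) : Alg l := by
  obtain ⟨L, hL, hL2⟩ := ker_trace c hcc hcD hne _ (fun x => (l.map fun i => ty i x).sum)
    le_rfl hodd hev htr
  have key : ∀ L : List ((X → ℤ) × D), (∀ p ∈ L, IsTy c p.1) → ∃ J : List I,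
      (∀ x, (J.map fun i => ty i x).sum = (L.map fun p => p.1 (p.2 • x) - p.1 x).sum) ∧
      (Alg (J ++ l) → Alg l) := by
    intro L
    induction L with
    | nil => exact fun _ => ⟨[], by simp, by simp⟩
    | cons p L ih =>
      intro h
      obtain ⟨J, hJ, hJ2⟩ := ih fun q hq => h q (List.mem_cons_of_mem _ hq)
      obtain ⟨i, hi, hti⟩ := full p.1 (h p List.mem_cons_self)
      obtain ⟨j, hj, hj2⟩ := cancel i hi
      obtain ⟨k, hk, hk2⟩ := transport i hi p.2
      refine ⟨k :: j :: J, fun x => ?_, fun ha => hJ2 (hj2 _ (hk2 _ ha))⟩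
      simp only [List.map_cons, List.sum_cons, hJ, hj, hk, hti]; ring
  obtain ⟨J, hJ, hJ2⟩ := key L hL
  refine hJ2 (hodge _ fun x => ?_)
  rw [List.map_append, List.sum_append, hJ, add_comm]
  exact hL2 x

theorem exists_trace_weight [Fintype D] (t : X → ℤ) (n : ℕ)
    (h : ∀ x, ∃ a b : ℕ, a + b = n ∧ t x = a - b) (x : X) :
    ∃ a b : ℕ, a + b = Fintype.card D * n ∧ ∑ σ : D, t (σ • x) = a - b := by
  choose a b hab h using h
  refine ⟨∑ σ : D, a (σ • x), ∑ σ : D, b (σ • x), ?_, ?_⟩
  · rw [← Finset.sum_add_distrib]; simp [hab]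
  · simp [h, Finset.sum_sub_distrib]

/-- The formula of Shimura and Taniyama in abstract form. -/
theorem shimura_taniyama [Fintype D] {A : Type*} [AddCommGroup A] (c : X → X)
    (hcc : ∀ x, c (c x) = x)
    (hcD : ∀ (σ : D) x, c (σ • x) = σ • c x) (hne : ∀ (σ : D) x, σ • x ≠ c x)
    (n : I → ℕ) (ty : I → X → ℤ) (Fu : I → Prop) (Alg : List I → Prop)
    (hFu : ∀ i, Fu i → n i = 1)
    (full : ∀ f, IsTy c f → ∃ i, Fu i ∧ ty i = f)
    (hodge : ∀ l : List I, (∀ x, (l.map fun i => ty i x).sum = 0) → Alg l)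
    (val : I → X → A) (w : A)
    (hval : ∀ l, Alg l → ∀ x, (2 : ℤ) • (l.map fun i => val i x).sum = ((l.map n).sum : ℤ) • w)
    (hst : ∀ i, Fu i → IsTy c (ty i) → (∀ (σ : D) x, ty i (σ • x) = ty i x) →
      ∀ x, (ty i x = 1 → val i x = w) ∧ (ty i x = -1 → val i x = 0))
    (i : I) (hodd : ∀ x, ty i (c x) = - ty i x)
    (hwt : ∀ x, ∃ a b : ℕ, a + b = n i ∧ ty i x = a - b)
    (transport : ∀ σ : D, ∃ j, (∀ x, ty j x = ty i (σ • x)) ∧
      ∀ l₁ l₂, Alg (l₁ ++ j :: l₂) → Alg (l₁ ++ i :: l₂)) (x : X) :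
    (2 * Fintype.card D : ℤ) • val i x =
      ((Fintype.card D * n i : ℕ) + ∑ σ : D, ty i (σ • x) : ℤ) • w := by
  classical
  obtain ⟨L, hL, hL2, hL3⟩ := stable_sum (D := D) c hcc hcD hne (Fintype.card D * n i)
    (fun x => ∑ σ : D, ty i (σ • x))
    (fun x => by simp only [← hcD, hodd, Finset.sum_neg_distrib])
    (fun τ x => by
      simp only [← mul_smul]
      exact Fintype.sum_equiv (Equiv.mulRight τ) _ _ (fun σ => rfl))
    (exists_trace_weight _ _ hwt)
  have k1 : ∀ L : List (X → ℤ), (∀ f ∈ L, IsTy c f ∧ ∀ (σ : D) x, f (σ • x) = f x) →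
      ∃ T : List I, (∀ x, (T.map fun i => ty i x).sum = - (L.map fun f => f x).sum) ∧
        (T.map n).sum = L.length ∧
        (2 : ℤ) • (T.map fun i => val i x).sum =
          ((L.length : ℤ) - (L.map fun f => f x).sum) • w := by
    intro L
    induction L with
    | nil => exact fun _ => ⟨[], by simp, by simp, by simp⟩
    | cons f L ih =>
      intro h
      obtain ⟨T, h1, h2, h3⟩ := ih fun q hq => h q (List.mem_cons_of_mem _ hq)
      obtain ⟨hf, hfs⟩ := h f List.mem_cons_self
      obtain ⟨j, hj, htj⟩ := full _ hf.neg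
      have h4 := hst j hj (htj ▸ hf.neg) (fun σ x => by simp [htj, hfs]) x
      refine ⟨j :: T, fun x => ?_, ?_, ?_⟩
      · simp only [List.map_cons, List.sum_cons, h1, htj]; ring
      · simp only [List.map_cons, List.sum_cons, h2, hFu j hj, List.length_cons]; ring
      · simp only [List.map_cons, List.sum_cons, List.length_cons, smul_add, h3]
        rw [htj] at h4
        rcases hf.1 x with h5 | h5
        · rw [h4.2 (by simp [h5]), h5]; push_cast; module
        · rw [h4.1 (by simp [h5]), h5]; push_cast; module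
  have k2 : ∀ M : List D, ∃ J : List I,
      (∀ x, (J.map fun i => ty i x).sum = (M.map fun σ => ty i (σ • x)).sum) ∧
      ∀ l₁ l₂, Alg (l₁ ++ (J ++ l₂)) → Alg (l₁ ++ (List.replicate M.length i ++ l₂)) := by
    intro M
    induction M with
    | nil => exact ⟨[], by simp, by simp⟩
    | cons σ M ih =>
      obtain ⟨J, hJ, hJ2⟩ := ih
      obtain ⟨j, hj, hj2⟩ := transport σ
      refine ⟨j :: J, fun x => by simp [hJ, hj], fun l₁ l₂ ha => ?_⟩
      have h1 := hJ2 (l₁ ++ [i]) l₂ (by simpa using hj2 l₁ (J ++ l₂) ha)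
      simpa [List.replicate_succ] using h1
  obtain ⟨T, h1, h2, h3⟩ := k1 L hL2
  obtain ⟨J, hJ, hJ2⟩ := k2 Finset.univ.toList
  have ha := hJ2 [] T (hodge _ fun x => by
    rw [List.nil_append, List.map_append, List.sum_append, hJ, h1, hL3, Finset.sum_map_toList]
    simp)
  have hv := hval _ ha x
  simp only [List.nil_append, List.map_append, List.sum_append, List.map_replicate,
    List.sum_replicate, Finset.length_toList, Finset.card_univ, smul_add, h3, h2, hL, hL3,
    smul_eq_mul] at hv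
  push_cast at hv ⊢
  rw [← natCast_zsmul] at hv
  linear_combination (norm := module) hv

/-- Tate implies algebraic. -/
theorem alg_of_tate [Fintype X] [Fintype D] {A : Type*} [AddCommGroup A]
    (hA : ∀ (m : ℤ) (a : A), m • a = 0 → m = 0 ∨ a = 0) (c : X → X)
    (hcc : ∀ x, c (c x) = x)
    (hcD : ∀ (σ : D) x, c (σ • x) = σ • c x) (hne : ∀ (σ : D) x, σ • x ≠ c x)
    (n : I → ℕ) (ty : I → X → ℤ) (Fu : I → Prop) (Alg : List I → Prop)
    (hodd : ∀ i x, ty i (c x) = - ty i x)
    (hwt : ∀ i x, ∃ a b : ℕ, a + b = n i ∧ ty i x = a - b)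
    (hFu : ∀ i, Fu i → n i = 1)
    (full : ∀ f, IsTy c f → ∃ i, Fu i ∧ ty i = f)
    (hodge : ∀ l : List I, (∀ x, (l.map fun i => ty i x).sum = 0) → Alg l)
    (cancel : ∀ i, Fu i → ∃ j, (∀ x, ty j x = - ty i x) ∧ ∀ l, Alg (i :: j :: l) → Alg l)
    (transport : ∀ i (σ : D), ∃ j, (∀ x, ty j x = ty i (σ • x)) ∧
      ∀ l₁ l₂, Alg (l₁ ++ j :: l₂) → Alg (l₁ ++ i :: l₂))
    (val : I → X → A) (w : A) (hw : w ≠ 0)
    (hval : ∀ l, Alg l → ∀ x, (2 : ℤ) • (l.map fun i => val i x).sum = ((l.map n).sum : ℤ) • w)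
    (hst : ∀ i, Fu i → IsTy c (ty i) → (∀ (σ : D) x, ty i (σ • x) = ty i x) →
      ∀ x, (ty i x = 1 → val i x = w) ∧ (ty i x = -1 → val i x = 0))
    (l : List I) (hev : Even (l.map n).sum)
    (hT : ∀ x, (2 : ℤ) • (l.map fun i => val i x).sum = ((l.map n).sum : ℤ) • w) : Alg l := by
  have ST := fun i => shimura_taniyama (D := D) c hcc hcD hne n ty Fu Alg hFu full hodge val w
    hval hst i (hodd i) (hwt i) (transport i)
  refine alg_of_trace (D := D) c hcc hcD hne ty Fu Alg full hodge cancel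
    (fun i _ σ => (transport i σ).imp fun j hj => ⟨hj.1, hj.2 []⟩) l (fun x => ?_) (fun x => ?_)
    (fun x => ?_)
  · clear hT hev
    induction l with
    | nil => simp
    | cons i l ih => simp only [List.map_cons, List.sum_cons, ih]; rw [hodd]; ring
  · have : ∀ l : List I, Even ((l.map fun i => ty i x).sum - ((l.map n).sum : ℕ)) := by
      intro l
      induction l with
      | nil => simp
      | cons i l ih =>
        obtain ⟨a, b, hab, h⟩ := hwt i x
        obtain ⟨r, hr⟩ := ih
        simp only [List.map_cons, List.sum_cons]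
        exact ⟨r - b, by omega⟩
    obtain ⟨r, hr⟩ := this l
    obtain ⟨s, hs⟩ := hev
    exact ⟨r + s, by omega⟩
  · have : ∀ l : List I, (2 * Fintype.card D : ℤ) • (l.map fun i => val i x).sum =
        ((Fintype.card D * (l.map n).sum : ℕ) +
          ∑ σ : D, (l.map fun i => ty i (σ • x)).sum : ℤ) • w := by
      intro l
      induction l with
      | nil => simp
      | cons i l ih =>
        simp only [List.map_cons, List.sum_cons, smul_add, ih, ST i x, Finset.sum_add_distrib]
        push_cast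
        module
    have h1 := this l
    have h2 := hT x
    refine (hA _ w ?_).resolve_right hw
    push_cast at h1 h2
    linear_combination (norm := module) (Fintype.card D : ℤ) • h2 - h1

end FAlg

end Pool.Agent.Tav

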