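import Pool.Agent.P.MP_2ce3e7_ag.Tav.FAlg

/-! The assembly when only the items of the full family can be twisted. -/

namespace Pool.Agent.Tav

section FAlg2

variable {X D I : Type*} [Group D] [MulAction D X]

/-- An odd function of weight `N` is a sum of `N` types. -/
theorem ty_sum (c : X → X) (hcc : ∀ x, c (c x) = x) (hne : ∀ x, x ≠ c x) (N : ℕ) (G : X → ℤ)
    (hodd : ∀ x, G (c x) = - G x) (hwt : ∀ x, ∃ a b : ℕ, a + b = N ∧ G x = a - b) :
    ∃ L : List (X → ℤ), L.length = N ∧ (∀ f ∈ L, IsTy c f) ∧
      ∀ x, (L.map fun f => f x).sum = G x := by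
  have h1 : ∀ (σ : (⊥ : Subgroup (Equiv.Perm X))) (x : X), σ • x = x := by
    intro σ x
    rw [Subsingleton.elim σ 1, one_smul]
  obtain ⟨L, h2, h3, h4⟩ := stable_sum (D := (⊥ : Subgroup (Equiv.Perm X))) c hcc
    (fun σ x => by rw [h1, h1]) (fun σ x => by rw [h1]; exact hne x) N G hodd
    (fun σ x => by rw [h1]) hwt
  exact ⟨L, h2, fun f hf => (h3 f hf).1, h4⟩

/-- Items for the negatives of a list of types. -/
theorem neg_items {c : X → X} {ty : I → X → ℤ} {Fu : I → Prop}
    (full : ∀ f, IsTy c f → ∃ i, Fu i ∧ ty i = f) (L : List (X → ℤ)) (hL : ∀ f ∈ L, IsTy c f) :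
    ∃ T : List I, (∀ j ∈ T, Fu j) ∧ T.map ty = L.map fun f x => - f x := by
  induction L with
  | nil => exact ⟨[], by simp, rfl⟩
  | cons f L ih =>
    obtain ⟨T, h1, h2⟩ := ih fun q hq => hL q (List.mem_cons_of_mem _ hq)
    obtain ⟨j, hj, htj⟩ := full _ (hL f List.mem_cons_self).neg
    refine ⟨j :: T, fun k hk => ?_, by simp [h2, htj]⟩
    rcases List.mem_cons.1 hk with rfl | hk
    · exact hj
    · exact h1 k hk

theorem sum_of_map_neg {ty : I → X → ℤ} {T : List I} {L : List (X → ℤ)}
    (h : T.map ty = L.map fun f x => - f x) (x : X) :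
    (T.map fun i => ty i x).sum = - (L.map fun f => f x).sum := by
  have h1 : (T.map fun i => ty i x) = L.map fun f => - f x := by
    have := congrArg (List.map fun f : X → ℤ => f x) h
    simpa [List.map_map, Function.comp_def] using this
  rw [h1, List.sum_neg, List.map_map]
  rfl

/-- Tate implies algebraic; twists are needed for the items of `Fu` only, the valuation rule
for lists of items of `Gd` only. -/
theorem alg_of_tate' [Fintype X] [Fintype D] {A : Type*} [AddCommGroup A]
    (hA : ∀ (m : ℤ) (a : A), m • a = 0 → m = 0 ∨ a = 0) (c : X → X)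
    (hcc : ∀ x, c (c x) = x)
    (hcD : ∀ (σ : D) x, c (σ • x) = σ • c x) (hne : ∀ (σ : D) x, σ • x ≠ c x)
    (n : I → ℕ) (ty : I → X → ℤ) (Fu Gd : I → Prop) (Alg : List I → Prop)
    (hodd : ∀ i x, ty i (c x) = - ty i x)
    (hwt : ∀ i x, ∃ a b : ℕ, a + b = n i ∧ ty i x = a - b)
    (hFu : ∀ i, Fu i → n i = 1) (hG : ∀ i, Fu i → Gd i)
    (full : ∀ f, IsTy c f → ∃ i, Fu i ∧ ty i = f)
    (hodge : ∀ l : List I, (∀ x, (l.map fun i => ty i x).sum = 0) → Alg l)
    (cancel : ∀ i, Fu i → ∃ j, (∀ x, ty j x = - ty i x) ∧ ∀ l, Alg (i :: j :: l) → Alg l)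
    (transport : ∀ i, Fu i → ∀ σ : D, ∃ j, (∀ x, ty j x = ty i (σ • x)) ∧
      ∀ l₁ l₂, Alg (l₁ ++ j :: l₂) → Alg (l₁ ++ i :: l₂))
    (val : I → X → A) (w : A) (hw : w ≠ 0)
    (hval : ∀ l, (∀ i ∈ l, Gd i) → Alg l →
      ∀ x, (2 : ℤ) • (l.map fun i => val i x).sum = ((l.map n).sum : ℤ) • w)
    (hst : ∀ i, Fu i → IsTy c (ty i) → (∀ (σ : D) x, ty i (σ • x) = ty i x) →
      ∀ x, ty i x = -1 → val i x = 0)
    (l : List I) (hl : ∀ i ∈ l, Gd i) (hev : Even (l.map n).sum)
    (hT : ∀ x, (2 : ℤ) • (l.map fun i => val i x).sum = ((l.map n).sum : ℤ) • w) : Alg l := by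
  classical
  have hty : ∀ i, Fu i → IsTy c (ty i) := by
    intro i hi
    refine ⟨fun x => ?_, hodd i⟩
    obtain ⟨a, b, hab, h⟩ := hwt i x
    rw [hFu i hi] at hab
    omega
  have hn : ∀ T : List I, (∀ j ∈ T, Fu j) → (T.map n).sum = T.length := by
    intro T
    induction T with
    | nil => simp
    | cons j T ih =>
      intro h
      rw [List.map_cons, List.sum_cons, hFu j (h j List.mem_cons_self),
        ih fun k hk => h k (List.mem_cons_of_mem _ hk), List.length_cons, add_comm]
  have S0 : ∀ i, Fu i → (∀ (σ : D) x, ty i (σ • x) = ty i x) → ∀ x,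
      (2 : ℤ) • val i x = (1 + ty i x) • w := by
    intro i hi hs x
    rcases (hty i hi).1 x with h | h
    · obtain ⟨j, hj, htj⟩ := full _ (hty i hi).neg
      have h1 := hval [i, j] (by simp [hG i hi, hG j hj]) (hodge _ fun x => by simp [htj]) x
      have h2 := hst j hj (hty j hj) (fun σ x => by simp [htj, hs]) x (by simp [htj, h])
      simp only [List.map_cons, List.map_nil, List.sum_cons, List.sum_nil, h2, hFu i hi,
        hFu j hj, add_zero] at h1
      rw [h1, h]; norm_num
    · rw [hst i hi (hty i hi) hs x h, h]; simp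
  have S1 : ∀ i, Fu i → ∀ x, (2 * Fintype.card D : ℤ) • val i x =
      ((Fintype.card D : ℤ) * n i + ∑ σ : D, ty i (σ • x)) • w := by
    intro i hi x
    obtain ⟨L, hL, hL2, hL3⟩ := stable_sum (D := D) c hcc hcD hne (Fintype.card D * n i)
      (fun x => ∑ σ : D, ty i (σ • x))
      (fun x => by simp only [← hcD, hodd, Finset.sum_neg_distrib])
      (fun τ x => by
        simp only [← mul_smul]
        exact Fintype.sum_equiv (Equiv.mulRight τ) _ _ (fun σ => rfl))
      (exists_trace_weight _ _ (hwt i))
    obtain ⟨T, hT1, hT2⟩ := neg_items full L fun f hf => (hL2 f hf).1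
    have hlen : T.length = Fintype.card D * n i := by
      rw [← hL]; simpa using congrArg List.length hT2
    have hTs : ∀ j ∈ T, ∀ (σ : D) x, ty j (σ • x) = ty j x := by
      intro j hj σ x
      have : ty j ∈ L.map fun f x => - f x := hT2 ▸ List.mem_map_of_mem hj
      obtain ⟨f, hf, e⟩ := List.mem_map.1 this
      rw [← e]
      simp only [(hL2 f hf).2]
    have k1 : ∀ T : List I, (∀ j ∈ T, Fu j) → (∀ j ∈ T, ∀ (σ : D) x, ty j (σ • x) = ty j x) →
        (2 : ℤ) • (T.map fun i => val i x).sum =
          ((T.length : ℤ) + (T.map fun i => ty i x).sum) • w := by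
      intro T
      induction T with
      | nil => simp
      | cons j T ih =>
        intro h h'
        simp only [List.map_cons, List.sum_cons, List.length_cons, smul_add,
          ih (fun k hk => h k (List.mem_cons_of_mem _ hk))
            (fun k hk => h' k (List.mem_cons_of_mem _ hk)),
          S0 j (h j List.mem_cons_self) (h' j List.mem_cons_self) x]
        push_cast
        module
    have k2 : ∀ M : List D, ∃ J : List I,
        (∀ x, (J.map fun i => ty i x).sum = (M.map fun σ => ty i (σ • x)).sum) ∧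
        ∀ l₁ l₂, Alg (l₁ ++ (J ++ l₂)) → Alg (l₁ ++ (List.replicate M.length i ++ l₂)) := by
      intro M
      induction M with
      | nil => exact ⟨[], by simp, by simp⟩
      | cons σ M ih =>
        obtain ⟨J, hJ, hJ2⟩ := ih
        obtain ⟨j, hj, hj2⟩ := transport i hi σ
        refine ⟨j :: J, fun x => by simp [hJ, hj], fun l₁ l₂ ha => ?_⟩
        have h1 := hJ2 (l₁ ++ [i]) l₂ (by simpa using hj2 l₁ (J ++ l₂) ha)
        simpa [List.replicate_succ] using h1
    obtain ⟨J, hJ, hJ2⟩ := k2 Finset.univ.toList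
    have ha := hJ2 [] T (hodge _ fun x => by
      rw [List.nil_append, List.map_append, List.sum_append, hJ, sum_of_map_neg hT2, hL3,
        Finset.sum_map_toList]
      simp)
    have hv := hval _ (fun k hk => by
      rw [List.nil_append] at hk
      rcases List.mem_append.1 hk with hk | hk
      · rw [List.eq_of_mem_replicate hk]; exact hG i hi
      · exact hG k (hT1 k hk)) ha x
    simp only [List.nil_append, List.map_append, List.sum_append, List.map_replicate,
      List.sum_replicate, Finset.length_toList, Finset.card_univ, smul_add, k1 T hT1 hTs,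
      hn T hT1, hlen, sum_of_map_neg hT2, hL3, smul_eq_mul] at hv
    push_cast at hv ⊢
    rw [← natCast_zsmul] at hv
    linear_combination (norm := module) hv
  have SL : ∀ T : List I, (∀ i ∈ T, ∀ x, (2 * Fintype.card D : ℤ) • val i x =
      ((Fintype.card D : ℤ) * n i + ∑ σ : D, ty i (σ • x)) • w) → ∀ x,
      (2 * Fintype.card D : ℤ) • (T.map fun i => val i x).sum =
        ((Fintype.card D : ℤ) * (T.map n).sum +
          ∑ σ : D, (T.map fun i => ty i (σ • x)).sum) • w := by
    intro T
    induction T with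
    | nil => simp
    | cons i T ih =>
      intro h x
      simp only [List.map_cons, List.sum_cons, smul_add,
        ih (fun k hk => h k (List.mem_cons_of_mem _ hk)) x, h i List.mem_cons_self x,
        Finset.sum_add_distrib]
      push_cast
      module
  have S2 : ∀ i, Gd i → ∀ x, (2 * Fintype.card D : ℤ) • val i x =
      ((Fintype.card D : ℤ) * n i + ∑ σ : D, ty i (σ • x)) • w := by
    intro i hi x
    obtain ⟨L, hL, hL2, hL3⟩ := ty_sum c hcc (fun x => by simpa using hne 1 x) (n i) (ty i)
      (hodd i) (hwt i)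
    obtain ⟨T, hT1, hT2⟩ := neg_items full L hL2
    have hlen : T.length = n i := by
      rw [← hL]; simpa using congrArg List.length hT2
    have hv := hval (i :: T) (fun k hk => by
      rcases List.mem_cons.1 hk with rfl | hk
      · exact hi
      · exact hG k (hT1 k hk)) (hodge _ fun x => by
        rw [List.map_cons, List.sum_cons, sum_of_map_neg hT2, hL3]; simp) x
    have h2 := SL T (fun k hk => S1 k (hT1 k hk)) x
    simp only [sum_of_map_neg hT2, hL3, hn T hT1, hlen, Finset.sum_neg_distrib] at h2
    simp only [List.map_cons, List.sum_cons, hn T hT1, hlen] at hv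
    push_cast at hv h2
    linear_combination (norm := module) (Fintype.card D : ℤ) • hv - h2
  refine alg_of_trace (D := D) c hcc hcD hne ty Fu Alg full hodge cancel
    (fun i hi σ => (transport i hi σ).imp fun j hj => ⟨hj.1, hj.2 []⟩) l (fun x => ?_)
    (fun x => ?_) (fun x => ?_)
  · clear hT hev hl
    induction l with
    | nil => simp
    | cons i l ih => simp only [List.map_cons, List.sum_cons, ih]; rw [hodd]; ring
  · have : ∀ l : List I, Even ((l.map fun i => ty i x).sum - ((l.map n).sum : ℕ)) := by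
      intro l
      induction l with
      | nil => simp
      | cons i l ih =>
        obtain ⟨a, b, hab, h⟩ := hwt i x
        obtain ⟨r, hr⟩ := ih
        simp only [List.map_cons, List.sum_cons]
        exact ⟨r - b, by omega⟩
    obtain ⟨r, hr⟩ := this l
    obtain ⟨s, hs⟩ := hev
    exact ⟨r + s, by omega⟩
  · have h1 := SL l (fun i hi => S2 i (hl i hi)) x
    have h2 := hT x
    refine (hA _ w ?_).resolve_right hw
    linear_combination (norm := module) (Fintype.card D : ℤ) • h2 - h1

end FAlg2

end Pool.Agent.Tav
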