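import Pool.Agent.P.MP_2ce3e7_ag.Tav.FAlg2

/-! From families of items to lists of items. -/

set_option autoImplicit false

namespace Pool.Agent.Tav

open Finset

section FAsm

variable {X D I : Type*} [Group D] [MulAction D X]

/-- A predicate on finite families of items. -/
abbrev FamP (I : Type*) := ∀ (ι : Type) [Fintype ι] [DecidableEq ι], (ι → I) → Prop

/-- Some family satisfying `AF` has the list `l` as its active part, all other items being empty. -/
def AlgL (AF : FamP I) (emp : I → I) (l : List I) : Prop :=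
  ∃ (ι : Type) (_ : Fintype ι) (_ : DecidableEq ι) (it : ι → I) (A : Finset ι),
    (∀ k, k ∉ A → emp (it k) = it k) ∧ A.val.map it = (l : Multiset I) ∧ AF ι it

theorem exists_of_map_eq_cons {ι : Type} [DecidableEq ι] (it : ι → I) (A : Finset ι) (i : I)
    (M : Multiset I) (h : A.val.map it = i ::ₘ M) :
    ∃ k ∈ A, it k = i ∧ (A.erase k).val.map it = M := by
  have hi : i ∈ A.val.map it := by rw [h]; exact Multiset.mem_cons_self _ _
  obtain ⟨k, hk, hki⟩ := Multiset.mem_map.1 hi
  refine ⟨k, hk, hki, ?_⟩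
  have h2 : A.val = k ::ₘ (A.erase k).val := by
    rw [Finset.erase_val, Multiset.cons_erase hk]
  rw [h2, Multiset.map_cons, hki] at h
  exact (Multiset.cons_inj_right _).1 h

theorem AlgL.sum_eq {A : Type*} [AddCommMonoid A] {ι : Type} [Fintype ι] [DecidableEq ι]
    (emp : I → I) (f : I → A) (hf : ∀ i, f (emp i) = 0) (it : ι → I) (B : Finset ι)
    (hB : ∀ k, k ∉ B → emp (it k) = it k) (l : List I) (h : B.val.map it = (l : Multiset I)) :
    ∑ k, f (it k) = (l.map f).sum := by
  have h1 : ∑ k, f (it k) = ∑ k ∈ B, f (it k) := by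
    symm
    refine Finset.sum_subset (Finset.subset_univ _) fun k _ hk => ?_
    rw [← hB k hk, hf]
  rw [h1, ← Multiset.sum_coe, ← Multiset.map_coe, ← h, Multiset.map_map]
  rfl

/-- The assembly on the level of families of items. -/
theorem fam_of_tate [Fintype X] [Fintype D] {A : Type*} [AddCommGroup A]
    (hA : ∀ (m : ℤ) (a : A), m • a = 0 → m = 0 ∨ a = 0) (c : X → X)
    (hcc : ∀ x, c (c x) = x)
    (hcD : ∀ (σ : D) x, c (σ • x) = σ • c x) (hne : ∀ (σ : D) x, σ • x ≠ c x)
    (n : I → ℕ) (ty : I → X → ℤ) (Fu Gd : I → Prop) (AF : FamP I) (emp : I → I)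
    (Iso : I → I → Prop)
    (hemp : ∀ i, emp (emp i) = emp i)
    (hodd : ∀ i x, ty i (c x) = - ty i x)
    (hwt : ∀ i x, ∃ a b : ℕ, a + b = n i ∧ ty i x = a - b)
    (hFu : ∀ i, Fu i → n i = 1) (hG : ∀ i, Fu i → Gd i)
    (full : ∀ f, IsTy c f → ∃ i, Fu i ∧ ty i = f)
    (hodge : ∀ (ι : Type) [Fintype ι] [DecidableEq ι] (it : ι → I),
      (∀ x, ∑ k, ty (it k) x = 0) → AF ι it)
    (cancel : ∀ (ι : Type) [Fintype ι] [DecidableEq ι] (it : ι → I) (P : Finset ι), AF ι it →
      AF ι (fun k => if k ∈ P then it k else emp (it k)) →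
      AF ι (fun k => if k ∈ P then emp (it k) else it k))
    (trans : ∀ (ι : Type) [Fintype ι] [DecidableEq ι] (it it' : ι → I),
      (∀ k, Iso (it k) (it' k)) → AF ι it → AF ι it')
    (refl : ∀ i, Iso i i)
    (twist : ∀ i, Fu i → ∀ σ : D, ∃ j, (∀ x, ty j x = ty i (σ • x)) ∧ Iso j i)
    (good : ∀ i, ∃ j, Gd (emp j) ∧ Iso (emp i) (emp j))
    (desc : ∀ (ι : Type) [Fintype ι] [DecidableEq ι] (it : ι → I) (k₀ : ι),
      (∀ k, k ≠ k₀ → emp (it k) = it k) → AF ι it → AF Unit fun _ => it k₀)
    (val : I → X → A) (w : A) (hw : w ≠ 0)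
    (hn0 : ∀ i, n (emp i) = 0) (hv0 : ∀ i x, val (emp i) x = 0)
    (hval : ∀ (ι : Type) [Fintype ι] [DecidableEq ι] (it : ι → I), (∀ k, Gd (it k)) →
      AF ι it → ∀ x, (2 : ℤ) • ∑ k, val (it k) x = ((∑ k, n (it k) : ℕ) : ℤ) • w)
    (hst : ∀ i, Fu i → IsTy c (ty i) → (∀ (σ : D) x, ty i (σ • x) = ty i x) →
      ∀ x, ty i x = -1 → val i x = 0)
    (i : I) (hi : Gd i) (hev : Even (n i)) (hT : ∀ x, (2 : ℤ) • val i x = (n i : ℤ) • w) :
    AF Unit fun _ => i := by
  have ht0 : ∀ i x, ty (emp i) x = 0 := by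
    intro i x
    obtain ⟨a, b, hab, h⟩ := hwt (emp i) x
    rw [hn0] at hab
    omega
  have key : AlgL AF emp [i] := by
    refine alg_of_tate' (D := D) hA c hcc hcD hne n ty Fu Gd (AlgL AF emp) hodd hwt hFu hG full
      ?_ ?_ ?_ val w hw ?_ hst [i] (by simpa using hi) (by simpa using hev)
      (fun x => by simpa using hT x)
    · intro l hl
      refine ⟨Fin l.length, inferInstance, inferInstance, l.get, univ, by simp, ?_, hodge _ _ ?_⟩
      · rw [Fin.univ_val_map]; simp
      · intro x
        rw [← hl x]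
        exact AlgL.sum_eq emp (fun i => ty i x) (fun i => ht0 i x) l.get univ (by simp) l
          (by rw [Fin.univ_val_map]; simp)
    · intro i hi
      have hty : IsTy c (ty i) := by
        refine ⟨fun x => ?_, hodd i⟩
        obtain ⟨a, b, hab, h⟩ := hwt i x
        rw [hFu i hi] at hab
        omega
      obtain ⟨j, -, hj⟩ := full _ hty.neg
      refine ⟨j, fun x => by rw [hj], ?_⟩
      rintro l ⟨ι, _, _, it, B, hB, hl, hAF⟩
      obtain ⟨k, hk, hki, h2⟩ := exists_of_map_eq_cons it B i (j ::ₘ (l : Multiset I)) hl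
      obtain ⟨k', hk', hkj, h3⟩ := exists_of_map_eq_cons it (B.erase k) j (l : Multiset I) h2
      have hkk : k' ≠ k := (Finset.mem_erase.1 hk').1
      refine ⟨ι, inferInstance, inferInstance,
        fun m => if m ∈ ({k, k'} : Finset ι) then emp (it m) else it m, (B.erase k).erase k',
        fun m hm => ?_, ?_, cancel ι it {k, k'} hAF (hodge _ _ fun x => ?_)⟩
      · by_cases h : m ∈ ({k, k'} : Finset ι)
        · simp only [if_pos h, hemp]
        · simp only [if_neg h]
          refine hB m fun hmB => hm ?_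
          simp only [mem_insert, mem_singleton, not_or] at h
          simp [h.1, h.2, hmB]
      · rw [← h3]
        refine Multiset.map_congr rfl fun m hm => ?_
        have hm' : m ∈ (B.erase k).erase k' := hm
        simp only [mem_erase] at hm'
        simp [hm'.1, hm'.2.1]
      · rw [← Finset.sum_subset (Finset.subset_univ ({k, k'} : Finset ι))
          (fun m _ hm => by simp only [if_neg hm, ht0]), Finset.sum_pair hkk.symm]
        simp [hki, hkj, hj]
    · intro i hi σ
      obtain ⟨j, hj, hji⟩ := twist i hi σ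
      refine ⟨j, hj, ?_⟩
      rintro l₁ l₂ ⟨ι, _, _, it, B, hB, hl, hAF⟩
      have e : ∀ z : I, ((l₁ ++ z :: l₂ : List I) : Multiset I) = z ::ₘ ((l₁ ++ l₂ : List I) : Multiset I) :=
        fun z => by rw [Multiset.cons_coe]; exact Multiset.coe_eq_coe.2 List.perm_middle
      rw [e] at hl
      obtain ⟨k, hk, hkj, h2⟩ := exists_of_map_eq_cons it B j _ hl
      refine ⟨ι, inferInstance, inferInstance, Function.update it k i, B, fun m hm => ?_, ?_,
        trans ι it _ (fun m => ?_) hAF⟩
      · have : m ≠ k := fun h => hm (h ▸ hk)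
        rw [Function.update_of_ne this]
        exact hB m hm
      · have h4 : B.val = k ::ₘ (B.erase k).val := by
          rw [Finset.erase_val, Multiset.cons_erase hk]
        rw [e, h4, Multiset.map_cons, Function.update_self, ← h2]
        congr 1
        refine Multiset.map_congr rfl fun m hm => ?_
        have hm' : m ∈ B.erase k := hm
        exact Function.update_of_ne (mem_erase.1 hm').1 _ _
      · by_cases h : m = k
        · subst h
          rw [Function.update_self, hkj]; exact hji
        · rw [Function.update_of_ne h]; exact refl _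
    · rintro l hlG ⟨ι, _, _, it, B, hB, hl, hAF⟩ x
      choose gj hgj using good
      have hB' : ∀ k, k ∉ B → emp (if k ∈ B then it k else emp (gj (it k))) =
          if k ∈ B then it k else emp (gj (it k)) := fun k hk => by rw [if_neg hk, hemp]
      have hl' : B.val.map (fun k => if k ∈ B then it k else emp (gj (it k))) =
          (l : Multiset I) := by
        rw [← hl]
        exact Multiset.map_congr rfl fun m hm => if_pos hm
      rw [← AlgL.sum_eq emp (fun i => val i x) (fun i => hv0 i x) _ B hB' l hl',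
        ← AlgL.sum_eq emp n hn0 _ B hB' l hl']
      refine hval ι _ (fun k => ?_) (trans ι it _ (fun k => ?_) hAF) x
      · by_cases hk : k ∈ B
        · rw [if_pos hk]
          refine hlG _ (Multiset.mem_coe.1 ?_)
          rw [← hl]
          exact Multiset.mem_map_of_mem _ hk
        · rw [if_neg hk]; exact (hgj _).1
      · by_cases hk : k ∈ B
        · rw [if_pos hk]; exact refl _
        · rw [if_neg hk]
          have := (hgj (it k)).2
          rwa [hB k hk] at this
  obtain ⟨ι, _, _, it, B, hB, hl, hAF⟩ := key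
  obtain ⟨k, hk, hki, h2⟩ := exists_of_map_eq_cons it B i 0 hl
  have h3 : B.erase k = ∅ := by
    rw [Multiset.map_eq_zero] at h2
    exact Finset.val_eq_zero.1 h2
  rw [← hki]
  refine desc ι it k (fun m hm => hB m fun hmB => ?_) hAF
  have : m ∈ B.erase k := mem_erase.2 ⟨hm, hmB⟩
  rw [h3] at this
  exact absurd this (Finset.notMem_empty _)

end FAsm

end Pool.Agent.Tav
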