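import Pool.Agent.P.MP_2ce3e7_ag.Tav.Stmt
import Pool.Agent.P.MP_2ce3e7_ag.Tav.Dec

/-! The Galois action on the characters of the ring of diagonal endomorphisms. -/

set_option autoImplicit false

noncomputable section

namespace Pool.Agent.Tav.FO

open Function Polynomial

variable {g : ℕ} {Λ : Submodule ℤ (Fin g → ℂ)}

theorem en_mul {a b : Fin g → ℂ} (ha : a ∈ En Λ) (hb : b ∈ En Λ) : a * b ∈ En Λ :=
  fun l hl => by rw [mul_assoc]; exact ha _ (hb l hl)

theorem en_add {a b : Fin g → ℂ} (ha : a ∈ En Λ) (hb : b ∈ En Λ) : a + b ∈ En Λ :=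
  fun l hl => by rw [add_mul]; exact Λ.add_mem (ha l hl) (hb l hl)

theorem en_int (n : ℤ) : (n : Fin g → ℂ) ∈ En Λ :=
  fun l hl => by rw [← zsmul_eq_mul]; exact Λ.smul_mem n hl

theorem en_pow {a : Fin g → ℂ} (ha : a ∈ En Λ) (n : ℕ) : a ^ n ∈ En Λ := by
  induction n with
  | zero => simpa using en_int (Λ := Λ) 1
  | succ n ih => rw [pow_succ]; exact en_mul ih ha

theorem en_aeval {a : Fin g → ℂ} (ha : a ∈ En Λ) (P : ℤ[X]) : aeval a P ∈ En Λ := by
  induction P using Polynomial.induction_on' with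
  | add p q hp hq => rw [map_add]; exact en_add hp hq
  | monomial n c => rw [aeval_monomial]; exact en_mul (en_int c) (en_pow ha n)

theorem expand (ζ : (Fin g → ℂ) →ₗ[ℝ] ℂ) :
    ∃ c : Fin g ⊕ Fin g → ℂ, ∀ v, ζ v = ∑ γ, c γ * Sum.elim v (star v) γ := by
  refine ⟨Sum.elim (fun i => (ζ (Pi.single i 1) - Complex.I * ζ (Pi.single i Complex.I)) / 2)
    (fun i => (ζ (Pi.single i 1) + Complex.I * ζ (Pi.single i Complex.I)) / 2), fun v => ?_⟩
  have hv : v = ∑ i, ((v i).re • (Pi.single i 1 : Fin g → ℂ) +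
      (v i).im • (Pi.single i Complex.I : Fin g → ℂ)) := by
    funext j
    simp only [Finset.sum_apply, Pi.add_apply, Pi.smul_apply, Pi.single_apply, smul_ite,
      smul_zero, Finset.sum_add_distrib, Finset.sum_ite_eq, Finset.mem_univ, if_true]
    simp [Complex.re_add_im]
  conv_lhs => rw [hv]
  rw [map_sum, Fintype.sum_sum_type, ← Finset.sum_add_distrib]
  refine Finset.sum_congr rfl fun i _ => ?_
  simp only [map_add, map_smul, Sum.elim_inl, Sum.elim_inr, Pi.star_apply, Complex.real_smul,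
    Complex.star_def]
  rw [Complex.re_eq_add_conj, Complex.im_eq_sub_conj]
  field_simp
  linear_combination ((v i - (starRingEnd ℂ) (v i)) * ζ (Pi.single i Complex.I)) * Complex.I_sq

theorem indep (c : Fin g ⊕ Fin g → ℂ) (h : ∀ v : Fin g → ℂ, ∑ γ, c γ * Sum.elim v (star v) γ = 0)
    (γ : Fin g ⊕ Fin g) : c γ = 0 := by
  have key : ∀ (i : Fin g) (z : ℂ), c (Sum.inl i) * z + c (Sum.inr i) * star z = 0 := by
    intro i z
    have := h (Pi.single i z)
    rw [Fintype.sum_sum_type, Finset.sum_eq_single i, Finset.sum_eq_single i] at this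
    · simpa using this
    · intro j _ hj; simp [hj]
    · simp
    · intro j _ hj; simp [hj]
    · simp
  have k2 : ∀ i, c (Sum.inl i) = 0 ∧ c (Sum.inr i) = 0 := by
    intro i
    have h1 := key i 1
    have h2 := key i Complex.I
    simp only [star_one, mul_one, Complex.star_def, Complex.conj_I] at h1 h2
    have h3 : c (Sum.inl i) - c (Sum.inr i) = 0 :=
      (mul_eq_zero.1 (by linear_combination h2 : (c (Sum.inl i) - c (Sum.inr i)) * Complex.I = 0)).resolve_right
        Complex.I_ne_zero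
    exact ⟨by linear_combination (h1 + h3) / 2, by linear_combination (h1 - h3) / 2⟩
  rcases γ with i | i
  · exact (k2 i).1
  · exact (k2 i).2

/-- a conjugate of a character is a character -/
theorem perm [DiscreteTopology Λ] [IsZLattice ℝ Λ] {L : IntermediateField ℚ ℂ}
    (hL : ∀ a ∈ En Λ, ∀ i, a i ∈ L) (s : L →+* ℂ) (i : Fin g) :
    ∃ γ : Fin g ⊕ Fin g, ∀ a h, s ⟨a i, hL a h i⟩ = Sum.elim a (star a) γ := by
  classical
  let b := Module.Free.chooseBasis ℤ Λ
  let B := b.ofZLatticeBasis ℝ Λ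
  have hB : ∀ k, B k = b k := fun k => Module.Basis.ofZLatticeBasis_apply ℝ Λ b k
  obtain ⟨k₀, hk₀⟩ : ∃ k, B k i ≠ 0 := by
    by_contra hc
    push Not at hc
    have h1 : ((LinearMap.proj i : (Fin g → ℂ) →ₗ[ℂ] ℂ).restrictScalars ℝ) = 0 :=
      B.ext fun k => hc k
    have h2 := LinearMap.congr_fun h1 1
    simp at h2
  obtain ⟨f, hf⟩ := Module.Projective.exists_dual_eq_one L hk₀
  let η : Λ →+ ℂ := s.toAddMonoidHom.comp (f.toAddMonoidHom.comp
    ((Pi.evalAddMonoidHom (fun _ => ℂ) i).comp Λ.subtype.toAddMonoidHom))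
  have hη : ∀ l : Λ, η l = s (f (l.1 i)) := fun l => rfl
  let ζ : (Fin g → ℂ) →ₗ[ℝ] ℂ := B.constr ℝ fun k => η (b k)
  have hζ : ∀ l : Λ, ζ l = η l := by
    have : ζ.toAddMonoidHom.toIntLinearMap.comp Λ.subtype = η.toIntLinearMap :=
      b.ext fun k => by
        change ζ (b k) = η (b k)
        rw [← hB]
        exact B.constr_basis ℝ _ k
    exact fun l => LinearMap.congr_fun this l
  obtain ⟨c, hc⟩ := expand ζ
  obtain ⟨γ, hγ⟩ : ∃ γ, c γ ≠ 0 := by
    by_contra hn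
    push Not at hn
    have h1 := hc (b k₀)
    rw [hζ, hη, ← hB, hf, map_one] at h1
    simp [hn] at h1
  refine ⟨γ, fun a h => ?_⟩
  have h1 : ζ.comp ((LinearMap.mulLeft ℂ a).restrictScalars ℝ) =
      ((LinearMap.mulLeft ℂ (s ⟨a i, hL a h i⟩)).restrictScalars ℝ).comp ζ := by
    refine B.ext fun k => ?_
    change ζ (a * B k) = s ⟨a i, hL a h i⟩ * ζ (B k)
    rw [hB, hζ, hζ ⟨a * b k, h _ (b k).2⟩, hη, hη, ← map_mul]
    congr 1
    exact f.map_smul ⟨a i, hL a h i⟩ ((b k).1 i)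
  have h2 := indep (fun γ => c γ * (s ⟨a i, hL a h i⟩ - Sum.elim a (star a) γ)) (fun v => by
    have h3 : ζ (a * v) = s ⟨a i, hL a h i⟩ * ζ v := LinearMap.congr_fun h1 v
    rw [hc, hc, Finset.mul_sum] at h3
    rw [← sub_eq_zero.2 h3.symm, ← Finset.sum_sub_distrib]
    refine Finset.sum_congr rfl fun γ _ => ?_
    rcases γ with j | j <;> simp <;> ring) γ
  exact sub_eq_zero.1 ((mul_eq_zero.1 h2).resolve_left hγ)

/-- a Galois equivariant function on a stable finite set is given by a rational polynomial -/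
theorem exists_poly {L : Type} [Field L] [CharZero L] [FiniteDimensional ℚ L] [IsGalois ℚ L]
    (N : Finset L) (hN : ∀ (s : Gal(L/ℚ)), ∀ z ∈ N, s z ∈ N) (f : L → L)
    (hf : ∀ (s : Gal(L/ℚ)) z, s (f z) = f (s z)) :
    ∃ (n : ℕ) (P : ℤ[X]), n ≠ 0 ∧ ∀ z ∈ N, aeval z P = n * f z := by
  classical
  let P := Lagrange.interpolate N id f
  have hP : ∀ z ∈ N, P.eval z = f z := fun z hz =>
    Lagrange.eval_interpolate_at_node f (Set.injOn_id _) hz
  have hd : P.degree < N.card := Lagrange.degree_interpolate_lt f (Set.injOn_id _)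
  have hfix : ∀ s : Gal(L/ℚ), P.map (s : L →+* L) = P := by
    intro s
    refine Lagrange.eq_interpolate_of_eval_eq f (Set.injOn_id _) (by rwa [degree_map]) ?_
    intro z hz
    have h1 : z = (s : L →+* L) (s.symm z) := (s.apply_symm_apply z).symm
    change Polynomial.eval z _ = f z
    conv_lhs => rw [h1, eval_map, eval₂_at_apply, hP _ (hN s.symm z hz)]
    change s (f (s.symm z)) = _
    rw [hf, s.apply_symm_apply]
  obtain ⟨Q, hQ⟩ : P ∈ lifts (algebraMap ℚ L) := by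
    rw [lifts_iff_coeff_lifts]
    intro n
    refine (IsGalois.mem_range_algebraMap_iff_fixed _).2 fun s => ?_
    have := congrArg (fun p => coeff p n) (hfix s)
    simpa using this
  obtain ⟨m, hm, hm2⟩ := IsLocalization.integerNormalization_spec (nonZeroDivisors ℤ) Q
  refine ⟨m.natAbs ^ 2, C m * IsLocalization.integerNormalization (nonZeroDivisors ℤ) Q,
    pow_ne_zero _ (Int.natAbs_ne_zero.2 (nonZeroDivisors.ne_zero hm)), fun z hz => ?_⟩
  have h1 : aeval z Q = f z := by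
    rw [← hP z hz, ← hQ, coe_mapRingHom, eval_map_algebraMap]
  rw [map_mul, aeval_C, ← aeval_map_algebraMap ℚ, hm2, map_zsmul, h1]
  have h2 : ((m.natAbs ^ 2 : ℕ) : L) = ((m * m : ℤ) : L) := by
    rw [← Int.natAbs_mul_self, Int.cast_natCast, pow_two]
  rw [h2]
  simp only [eq_intCast, zsmul_eq_mul]
  push_cast
  ring

/-- `t` carries the character `i` to a holomorphic character -/
def Hol {L : IntermediateField ℚ ℂ} (hL : ∀ a ∈ En Λ, ∀ i, a i ∈ L) (t : Gal(L/ℚ))
    (i : Fin g) : Prop :=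
  ∃ i', ∀ a h, (t ⟨a i, hL a h i⟩ : ℂ) = a i'

theorem isIntegral_pi {a : Fin g → ℂ} (h : ∀ i, IsIntegral ℤ (a i)) : IsIntegral ℤ a := by
  choose P hP hP0 using h
  refine ⟨∏ i, P i, monic_prod_of_monic _ _ fun i _ => hP i, funext fun j => ?_⟩
  have h1 := hom_eval₂ (∏ i, P i) (algebraMap ℤ (Fin g → ℂ)) (Pi.evalRingHom (fun _ => ℂ) j) a
  refine h1.trans ?_
  rw [eval₂_finsetProd]
  refine Finset.prod_eq_zero (Finset.mem_univ j) ?_
  rw [← hP0 j]
  congr 1

/-- an endomorphism that is a unit on the tangent space and a non-unit at the antiholomorphic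
conjugates of a character whose type is stable under the decomposition group -/
theorem exists_sep_en [DiscreteTopology Λ] [IsZLattice ℝ Λ] {L : IntermediateField ℚ ℂ}
    [FiniteDimensional ℚ L] [IsGalois ℚ L] (hL : ∀ a ∈ En Λ, ∀ i, a i ∈ L)
    (cm : ∃ θ ∈ En Λ, Injective (Sum.elim θ (star θ)))
    (R : ValuationSubring ℂ) {n₀ : ℕ} (hn₀ : R.valuation (n₀ : ℂ) = 1)
    (max : ∀ a, IsIntegral ℤ a → ∀ n : ℕ, n ≠ 0 → n • a ∈ En Λ → n₀ • a ∈ En Λ) (hR : ∃ z : L, (z : ℂ) ∉ R) (i : Fin g)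
    (hst : ∀ s : Gal(L/ℚ), (∀ z : L, (s z : ℂ) ∈ R ↔ (z : ℂ) ∈ R) →
      ∀ t, Hol hL t i → Hol hL (s * t) i) :
    ∃ (a : Fin g → ℂ) (h : a ∈ En Λ), (∀ j, R.valuation (a j) = 1) ∧
      ∀ t, ¬ Hol hL t i → R.valuation (t ⟨a i, hL a h i⟩ : ℂ) < 1 := by
  classical
  obtain ⟨θ, hθ, hinj⟩ := cm
  have : NumberField L := ⟨⟩
  let v : Valuation L R.ValueGroup := R.valuation.comap (algebraMap L ℂ)
  have hv : ∀ z : L, v z = R.valuation (z : ℂ) := fun z => rfl
  obtain ⟨b, hb, hb1, hb2⟩ := Dec.sep v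
    (hR.imp fun z hz => by rw [hv]; exact not_le.1 fun h => hz ((R.valuation_le_one_iff _).1 h))
    {φ : L →+* L | ∃ t : Gal(L/ℚ), Hol hL t i ∧ φ = t} (by
      rintro s hs _ ⟨t, ht, rfl⟩
      refine ⟨s * t, hst s (fun z => ?_) t ht, rfl⟩
      rw [← R.valuation_le_one_iff, ← R.valuation_le_one_iff, ← hv, ← hv]
      exact hs z)
  let τ : Fin g → L := fun j => ⟨θ j, hL θ hθ j⟩
  let f : L → L := fun z => ∏ s : Gal(L/ℚ) with s (τ i) = z, s b
  have hf : ∀ (s : Gal(L/ℚ)) z, s (f z) = f (s z) := by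
    intro s z
    simp only [f, map_prod]
    refine Finset.prod_equiv (Equiv.mulLeft s) (fun t => ?_) fun t _ => rfl
    simp [AlgEquiv.mul_apply]
  let N : Finset L := Finset.univ.image fun x : Gal(L/ℚ) × Fin g => x.1 (τ x.2)
  have hN : ∀ (s : Gal(L/ℚ)) j, s (τ j) ∈ N := fun s j =>
    Finset.mem_image.2 ⟨(s, j), Finset.mem_univ _, rfl⟩
  obtain ⟨n, P, hn, hP⟩ := exists_poly N (fun s z hz => by
    obtain ⟨x, -, rfl⟩ := Finset.mem_image.1 hz
    exact hN (s * x.1) x.2) f hf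
  have hhol : ∀ (s : Gal(L/ℚ)) j, s (τ i) = τ j → Hol hL s i := by
    intro s j h
    obtain ⟨γ, hγ⟩ := perm hL ((algebraMap L ℂ).comp (s : L →+* L)) i
    have h1 : Sum.elim θ (star θ) γ = Sum.elim θ (star θ) (Sum.inl j) :=
      (hγ θ hθ).symm.trans (congrArg Subtype.val h)
    rw [hinj h1] at hγ
    exact ⟨j, hγ⟩
  have ha : n₀ • (fun j => (f (τ j) : ℂ)) ∈ En Λ := by
    refine max _ (isIntegral_pi fun j => ?_) n hn ?_
    · refine IsIntegral.map (IsScalarTower.toAlgHom ℤ L ℂ) ?_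
      exact IsIntegral.prod _ fun s _ => hb.map (s : L →+* L).toIntAlgHom
    · have h1 : n • (fun j => (f (τ j) : ℂ)) = aeval θ P := by
        funext j
        have h2 := congrArg (algebraMap L ℂ) (hP (τ j) (hN 1 j))
        rw [← aeval_algebraMap_apply, map_mul, map_natCast] at h2
        rw [aeval_pi_apply₂, Pi.smul_apply, nsmul_eq_mul]
        exact h2.symm
      rw [h1]
      exact en_aeval hθ P
  refine ⟨_, ha, fun j => ?_, fun t ht => ?_⟩
  · rw [Pi.smul_apply, nsmul_eq_mul, map_mul, hn₀, one_mul, ← hv]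
    simp only [f, map_prod]
    refine Finset.prod_eq_one fun s hs => ?_
    exact hb1 _ ⟨s, hhol s j (Finset.mem_filter.1 hs).2, rfl⟩
  · change v (t (n₀ • f (τ i))) < 1
    have h0 : v (n₀ : L) = 1 := hn₀
    rw [nsmul_eq_mul, map_mul, map_natCast, map_mul, h0, one_mul, hf]
    simp only [f, map_prod]
    rw [← Finset.mul_prod_erase _ _ (a := t) (by simp)]
    refine mul_lt_one_of_nonneg_of_lt_one_left zero_le (hb2 (t : L →+* L) ?_)
      (Finset.prod_le_one' fun s _ => Dec.le_one_of_int v (hb.map (s : L →+* L).toIntAlgHom))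
    rintro ⟨t', ht', e⟩
    have : t = t' := AlgEquiv.ext fun z => RingHom.congr_fun e z
    exact ht (this ▸ ht')

end Pool.Agent.Tav.FO
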