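import Pool.Agent.P.MP_2ce3e7_ag.Tav.Stmt
import Pool.Agent.P.MP_2ce3e7_ag.Tav.RKc
import Pool.Agent.P.MP_2ce3e7_ag.Tav.Primes
import Pool.Agent.P.MP_2ce3e7_ag.Tav.Fib

/-! The rank in large degree is the number of points of the general fibre. -/

set_option autoImplicit false

namespace Pool.Agent.Tav.Fib

open MvPolynomial Module

variable {K : Type} [Field K] {T ι s Y : Type}

theorem par_symm {x y : s → K} (h : Par x y) : Par y x := by
  obtain ⟨c, hc, rfl⟩ := h
  exact ⟨c⁻¹, hc.inv, by rw [smul_smul, inv_mul_cancel₀ hc.ne_zero, one_smul]⟩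

theorem par_trans {x y z : s → K} (h : Par x y) (h' : Par y z) : Par x z := by
  obtain ⟨c, hc, rfl⟩ := h
  obtain ⟨d, hd, rfl⟩ := h'
  exact ⟨c * d, hc.mul hd, smul_smul _ _ _⟩

theorem mem_crd (q : T → s → K) (l : s) : (fun t => q t l) ∈ crd q := Submodule.subset_span ⟨l, rfl⟩

theorem crd_pow (q : T → s → K) (e : ℕ) : ∀ u ∈ crd q ^ e,
    ∃ h : MvPolynomial s K, h.IsHomogeneous e ∧ ∀ t, eval (q t) h = u t := by
  induction e with
  | zero =>
    intro u hu
    rw [pow_zero, Submodule.mem_one] at hu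
    obtain ⟨c, rfl⟩ := hu
    exact ⟨C c, isHomogeneous_C _ _, fun t => by simp⟩
  | succ e ih =>
    intro u hu
    rw [pow_succ] at hu
    refine Submodule.mul_induction_on hu (fun a ha b hb => ?_) ?_
    · obtain ⟨h, h1, h2⟩ := ih a ha
      induction hb using Submodule.span_induction with
      | mem b hb =>
        obtain ⟨l, rfl⟩ := hb
        exact ⟨h * X l, h1.mul (isHomogeneous_X _ _), fun t => by simp [h2]⟩
      | zero => exact ⟨0, isHomogeneous_zero _ _ _, by simp⟩
      | add b c _ _ hb hc =>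
        obtain ⟨g, g1, g2⟩ := hb
        obtain ⟨k, k1, k2⟩ := hc
        exact ⟨g + k, g1.add k1, fun t => by simp [g2, k2, mul_add]⟩
      | smul c b _ hb =>
        obtain ⟨g, g1, g2⟩ := hb
        exact ⟨C c * g, g1.C_mul c, fun t => by simp [g2, mul_left_comm]⟩
    · rintro a b ⟨g, g1, g2⟩ ⟨k, k1, k2⟩
      exact ⟨g + k, g1.add k1, fun t => by simp [g2, k2]⟩

theorem eval_smul_hom {h : MvPolynomial s K} {e : ℕ} (hh : h.IsHomogeneous e) (c : K) (x : s → K) :
    eval (c • x) h = c ^ e * eval x h := by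
  rw [h.as_sum, map_sum, map_sum, Finset.mul_sum]
  refine Finset.sum_congr rfl fun m hm => ?_
  rw [eval_monomial, eval_monomial, ← hh (mem_support_iff.1 hm)]
  simp only [Pi.smul_apply, smul_eq_mul, mul_pow, Finsupp.weight_apply,
    Finsupp.sum, Finsupp.prod, Finset.prod_mul_distrib, Finset.prod_pow_eq_pow_sum, Pi.one_apply,
    mul_one]
  ring

theorem par_of_minors {x y : s → K} (hx : x ≠ 0) (hy : y ≠ 0) (h : ∀ a b, x a * y b = x b * y a) :
    Par x y := by
  obtain ⟨a, ha⟩ := Function.ne_iff.1 hy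
  have ha : y a ≠ 0 := ha
  have e : x = (x a / y a) • y := funext fun b => by
    rw [Pi.smul_apply, smul_eq_mul, div_mul_eq_mul_div, h a b, mul_div_cancel_right₀ _ ha]
  exact ⟨_, IsUnit.mk0 _ fun h0 => hx (by rw [e, h0, zero_smul]), e⟩

theorem exists_lin {q : T → s → K} {t t' : T} (h : q t ≠ 0) (h' : q t' ≠ 0)
    (hn : ¬ Par (q t') (q t)) : ∃ u ∈ crd q, u t = 0 ∧ u t' ≠ 0 := by
  by_contra hc
  push Not at hc
  refine hn (par_of_minors h' h fun a b => ?_)
  have := hc (q t a • (fun t => q t b) - q t b • fun t => q t a)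
    (sub_mem (Submodule.smul_mem _ _ (mem_crd q b)) (Submodule.smul_mem _ _ (mem_crd q a)))
    (by simp [mul_comm])
  simp only [Pi.sub_apply, Pi.smul_apply, smul_eq_mul] at this
  linear_combination -this

theorem eval_comp_zero [Infinite K] {h : MvPolynomial s K} {x : s → K}
    (H : ∀ c : K, eval (c • x) h = 0) (e : ℕ) : eval x (homogeneousComponent e h) = 0 := by
  have : (∑ i ∈ Finset.range (h.totalDegree + 1),
      Polynomial.monomial i (eval x (homogeneousComponent i h))) = 0 :=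
    Polynomial.funext fun c => by
      rw [Polynomial.eval_zero, ← H c, Polynomial.eval_finsetSum]
      conv_rhs => rw [← sum_homogeneousComponent h, map_sum]
      exact Finset.sum_congr rfl fun i _ => by
        rw [Polynomial.eval_monomial, eval_smul_hom (homogeneousComponent_isHomogeneous i h),
          mul_comm]
  by_cases he : e ≤ h.totalDegree
  · have := congrArg (Polynomial.coeff · e) this
    simpa [Polynomial.finsetSum_coeff, Polynomial.coeff_monomial, Nat.lt_succ_iff, he] using this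
  · rw [homogeneousComponent_eq_zero _ _ (not_le.1 he), map_zero]

theorem mem_zl_of_forms [Infinite K] {q : T → s → K} {y : s → K}
    (H : ∀ (e : ℕ) (h : MvPolynomial s K), h.IsHomogeneous e → (∀ t, eval (q t) h = 0) →
      eval y h = 0) : y ∈ zeroLocus K (idl q) := fun h hh => by
  change eval y h = 0
  rw [← sum_homogeneousComponent h, map_sum]
  exact Finset.sum_eq_zero fun e _ => H e _ (homogeneousComponent_isHomogeneous e h) fun t =>
    eval_comp_zero (fun c => hh _ ⟨c, t, rfl⟩) e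

variable [Fintype ι] [DecidableEq ι]

theorem exists_nz {p : ι → T → s → K} (hp : ∀ i t, p i t ≠ 0) (t : T) (d : ι → ℕ) :
    ∃ w ∈ pw (fun i => crd (p i)) d, w t ≠ 0 := by
  induction d using vec_ind with
  | h0 => exact ⟨1, one_mem_pw _, one_ne_zero⟩
  | hs i m ih =>
    obtain ⟨w, h1, h2⟩ := ih
    obtain ⟨a, ha⟩ := Function.ne_iff.1 (hp i t)
    refine ⟨w * fun t => p i t a, ?_, mul_ne_zero h2 ha⟩
    rw [pw_add, pw_single, pow_one]
    exact Submodule.mul_mem_mul h1 (mem_crd _ a)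

theorem exists_cut {p : ι → T → s → K} (hp : ∀ i t, p i t ≠ 0) (i0 : ι) (t : T) (S : Finset T)
    (hS : ∀ t' ∈ S, ∃ i, i ≠ i0 ∧ ¬ Par (p i t) (p i t')) : ∀ m : ι → ℕ,
    (∀ i, i ≠ i0 → S.card ≤ m i) → ∃ w ∈ pw (fun i => crd (p i)) m, w t ≠ 0 ∧ ∀ t' ∈ S, w t' = 0 := by
  classical
  induction S using Finset.induction_on with
  | empty => exact fun m _ => (exists_nz hp t m).imp fun w h => ⟨h.1, h.2, by simp⟩
  | insert a S ha ih =>
    intro m hm
    rw [Finset.card_insert_of_notMem ha] at hm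
    obtain ⟨i, hi, hn⟩ := hS a (Finset.mem_insert_self _ _)
    obtain ⟨u, u1, u2, u3⟩ := exists_lin (hp i a) (hp i t) hn
    obtain ⟨w, w1, w2, w3⟩ := ih (fun t' h => hS t' (Finset.mem_insert_of_mem h))
      (m - Pi.single i 1) fun j hj => by
        have := hm j hj
        by_cases e : j = i
        · subst e; simp; omega
        · simp [e]; omega
    have e : m = (m - Pi.single i 1) + Pi.single i 1 := funext fun j => by
      have := hm i hi
      by_cases h : j = i
      · subst h; simp; omega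
      · simp [h]
    refine ⟨w * u, ?_, mul_ne_zero w2 u3, fun t' h => ?_⟩
    · rw [e, pw_add, pw_single, pow_one]
      exact Submodule.mul_mem_mul w1 u1
    · rcases Finset.mem_insert.1 h with rfl | h
      · simp [u2]
      · simp [w3 t' h]

/-- upper bound, any characteristic, no closedness -/
theorem card_le_of_isRk [Finite s] [Nonempty T] {p : ι → T → s → K} (hp : ∀ i t, p i t ≠ 0) (i0 : ι)
    (hd : NoZD (pw ((fun i => crd (p i)) ∘ fun _ : Fin 1 => i0))) {r : ℕ} {m : ι → ℕ}
    (hm : ∀ i, i ≠ i0 → r ≤ m i)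
    (hr : IsRk (pw ((fun i => crd (p i)) ∘ fun _ : Fin 1 => i0)) (pw (fun i => crd (p i)) m) r)
    (kap : T → Y) (hk : ∀ t t', (∀ i, i ≠ i0 → Par (p i t) (p i t')) → kap t = kap t') :
    ∃ (e : ℕ) (h : MvPolynomial s K), h.IsHomogeneous e ∧ (∃ t, eval (p i0 t) h ≠ 0) ∧
      ∀ x, eval x h ≠ 0 → (kap '' {t | Par x (p i0 t)}).encard ≤ r := by
  classical
  have : ∀ i, FiniteDimensional K (crd (p i)) := fun i =>
    FiniteDimensional.span_of_finite K (Set.finite_range _)
  obtain ⟨u, -, -, hu⟩ := hr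
  obtain ⟨e, f, f1, f0, hf⟩ := exists_den _ (one_mem_pw _) (fun a b => (pw_add _ a b).ge) hd _ _ hu
  have hR : pw ((fun i => crd (p i)) ∘ fun _ : Fin 1 => i0) e = crd (p i0) ^ e 0 := by simp [pw]
  rw [hR] at f1 hf
  obtain ⟨h, h1, h2⟩ := crd_pow _ _ f f1
  refine ⟨_, h, h1, (Function.ne_iff.1 f0).imp fun t ht => by rwa [h2], fun x hx => ?_⟩
  by_contra hc
  obtain ⟨S, s1, s2⟩ := Set.exists_subset_encard_eq (k := (r + 1 : ℕ))
    (s := kap '' {t | Par x (p i0 t)}) (by
      rw [Nat.cast_add, Nat.cast_one]; exact Order.add_one_le_of_lt (not_le.1 hc))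
  have := (Set.finite_of_encard_eq_coe s2).fintype
  have s3 : Fintype.card S = r + 1 := by
    rw [Set.encard_eq_coe_toFinset_card, Set.toFinset_card] at s2
    exact_mod_cast s2
  choose t t1 t2 using fun y : S => s1 y.2
  choose c c0 hc using t1
  let W := Submodule.span K (Set.range fun j (y : S) => u j (t y))
  have key : ∀ g ∈ Submodule.span K (Set.range u) * crd (p i0) ^ e 0,
      (fun y : S => c y ^ e 0 * g (t y)) ∈ W := fun g hg => by
    refine Submodule.mul_induction_on hg (fun a ha b hb => ?_) fun a b ha hb => ?_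
    · obtain ⟨k, k1, k2⟩ := crd_pow _ _ b hb
      have : (fun y : S => c y ^ e 0 * (a * b) (t y)) = eval x k • fun y => a (t y) :=
        funext fun y => by
          rw [Pi.smul_apply, hc y, eval_smul_hom k1, k2, Pi.mul_apply, smul_eq_mul]; ring
      rw [this]
      refine W.smul_mem _ ?_
      clear this
      induction ha using Submodule.span_induction with
      | mem a ha => obtain ⟨j, rfl⟩ := ha; exact Submodule.subset_span ⟨j, rfl⟩
      | zero => exact W.zero_mem
      | add a a' _ _ h h' => exact W.add_mem h h'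
      | smul d a _ h => exact W.smul_mem d h
    · simpa [mul_add, Pi.add_def] using W.add_mem ha hb
  have top : ⊤ ≤ W := by
    rw [← (Pi.basisFun K S).span_eq, Submodule.span_le]
    rintro _ ⟨y, rfl⟩
    obtain ⟨w, w1, w2, w3⟩ := exists_cut hp i0 (t y) ((Finset.univ.erase y).image t)
      (fun t' h => by
        obtain ⟨y', hy, rfl⟩ := Finset.mem_image.1 h
        by_contra hn
        push Not at hn
        exact (Finset.mem_erase.1 hy).1 (Subtype.ext (by rw [← t2, ← t2, hk _ _ hn]))) m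
      fun i hi => Finset.card_image_le.trans (by
        rw [Finset.card_erase_of_mem (Finset.mem_univ _), Finset.card_univ, s3]; exact hm i hi)
    have := W.smul_mem (eval x h * w (t y))⁻¹ (key _ (hf w w1))
    refine (congrArg (· ∈ W) (funext fun y' => ?_)).mp this
    rw [Pi.smul_apply, Pi.mul_apply, ← h2, ← mul_assoc, ← eval_smul_hom h1, ← hc y', smul_eq_mul,
      Pi.basisFun_apply]
    by_cases e : y' = y
    · rw [e, Pi.single_eq_same, inv_mul_cancel₀ (mul_ne_zero hx w2)]
    · rw [Pi.single_eq_of_ne e, w3 (t y') (Finset.mem_image_of_mem _ (by simp [e])), mul_zero,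
        mul_zero]
  have h3 := Submodule.finrank_mono top
  have h4 : finrank K W ≤ r := by
    simpa [Set.finrank] using finrank_range_le_card (R := K) fun j (y : S) => u j (t y)
  rw [finrank_top, finrank_fintype_fun_eq_card, s3] at h3
  omega

omit [Fintype ι] [DecidableEq ι] in
theorem blk_crd (p : ι → T → s → K) (i : ι) :
    blk K Prod.fst (fun (v : ι × s) t => p v.1 t v.2) i = crd (p i) := by
  rw [blk, crd]
  congr 1
  ext u
  exact ⟨by rintro ⟨⟨j, l⟩, rfl, rfl⟩; exact ⟨l, rfl⟩, by rintro ⟨l, rfl⟩; exact ⟨(i, l), rfl, rfl⟩⟩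

omit [Fintype ι] [DecidableEq ι] in
theorem aeval_pt {σ : Type} (x : σ → T → K) (F : MvPolynomial σ K) (t : T) :
    aeval x F t = eval (fun v => x v t) F := by
  induction F using MvPolynomial.induction_on with
  | C c => simp
  | add a b ha hb => simp [ha, hb]
  | mul_X a v ha => simp [ha]

theorem map_Sd_crd [Finite s] (p : ι → T → s → K) (d : ι → ℕ) :
    (Sd K Prod.fst d).map (aeval fun (v : ι × s) t => p v.1 t v.2).toLinearMap =
      pw (fun i => crd (p i)) d := by
  rw [map_Sd, pw]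
  simp only [blk_crd]

omit [Fintype ι] in
theorem hom_of_rename {i0 : ι} {h : MvPolynomial s K} {a : ι → ℕ}
    (hh : rename (Prod.mk i0) h ∈ Sd K Prod.fst a) : h.IsHomogeneous (a i0) := fun d hd => by
  rw [← hh (d := d.mapDomain (Prod.mk i0)) (by
    rwa [coeff_rename_mapDomain _ (Prod.mk_right_injective i0)])]
  clear hd
  induction d using Finsupp.induction_linear with
  | zero => simp
  | add a b ha hb => rw [Finsupp.mapDomain_add, map_add, map_add, ha, hb]; rfl
  | single l k => simp [Finsupp.weight_single, wN]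

omit [Fintype ι] in
theorem rename_mem_Sd (i : ι) {h : MvPolynomial s K} {e : ℕ} (h1 : h.IsHomogeneous e) :
    rename (Prod.mk i) h ∈ Sd K Prod.fst (Pi.single i e) := fun d hd => by
  obtain ⟨d, rfl, hd'⟩ := coeff_rename_ne_zero _ _ _ hd
  rw [← h1 hd']
  clear hd hd'
  induction d using Finsupp.induction_linear with
  | zero => simp
  | add a b ha hb => rw [Finsupp.mapDomain_add, map_add, map_add, ha, hb, Pi.single_add]
  | single l k => simp [Finsupp.weight_single, wN, ← Pi.single_smul]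

omit [Fintype ι] [DecidableEq ι] in
theorem exists_rename {i0 : ι} {q : MvPolynomial (ι × s) K}
    (hq : q ∈ supported K {v : ι × s | v.1 ∈ ({i0} : Set ι)}) :
    ∃ h : MvPolynomial s K, rename (Prod.mk i0) h = q := by
  classical
  exact exists_rename_eq_of_vars_subset_range q _ (Prod.mk_right_injective i0) fun v hv =>
    ⟨v.2, Prod.ext (mem_supported.1 hq hv : v.1 = i0).symm rfl⟩

/-- the rank in large degree is the number of points of the general fibre -/
theorem card_of_isRk [IsAlgClosed K] [CharZero K] [Finite s] [Nonempty T] {p : ι → T → s → K}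
    (hp : ∀ i t, p i t ≠ 0) (i0 : ι) (hd : NoZD (pw fun i => crd (p i)))
    (hcl : ∀ y : ι → s → K, (∀ i, y i ≠ 0) → (∀ d, ∀ F ∈ Sd K Prod.fst d,
      (∀ t, eval (fun v : ι × s => p v.1 t v.2) F = 0) → eval (fun v => y v.1 v.2) F = 0) →
      ∃ t, ∀ i, Par (y i) (p i t)) {N r : ℕ}
    (hr : ∀ m : ι → ℕ, (∀ i, i ≠ i0 → N ≤ m i) →
      IsRk (pw ((fun i => crd (p i)) ∘ fun _ : Fin 1 => i0)) (pw (fun i => crd (p i)) m) r)
    (kap : T → Y) (hk : ∀ t t', kap t = kap t' ↔ ∀ i, i ≠ i0 → Par (p i t) (p i t')) :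
    ∃ (e : ℕ) (h : MvPolynomial s K), h.IsHomogeneous e ∧ (∃ t, eval (p i0 t) h ≠ 0) ∧
      ∀ x ∈ zeroLocus K (idl (p i0)), x ≠ 0 → eval x h ≠ 0 →
        (kap '' {t | Par x (p i0 t)}).encard = r := by
  classical
  have inj : Function.Injective fun _ : Fin 1 => i0 := Function.injective_of_subsingleton _
  have hr := hr (fun _ => max N r) fun _ _ => le_max_left _ _
  obtain ⟨e, h, h1, h2, h3⟩ := card_le_of_isRk hp i0 (hd.comp inj) (fun _ _ => le_max_right N r) hr
    kap fun t t' => (hk t t').2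
  obtain ⟨u, u1, u2, -⟩ := hr
  set z : ι × s → T → K := fun v t => p v.1 t v.2
  have hz : ∀ {d F}, F ∈ Sd K Prod.fst d → aeval z F ∈ pw (fun i => crd (p i)) d := fun h =>
    map_Sd_crd p _ ▸ ⟨_, h, rfl⟩
  have : (kerG K Prod.fst z).IsPrime := Pr.Hom.isPrime (w := wN Prod.fst)
    (fun f hf d => grJ_kerG z d f hf)
    (fun e => one_ne_zero ((map_one _).symm.trans (aeval_of_mem_kerG ((Ideal.eq_top_iff_one _).1 e))))
    fun d e a b ha hb hab => by
      rw [mem_kerG ha, mem_kerG hb]
      exact hd _ _ _ (hz ha) _ (hz hb) ((map_mul _ _ _).symm.trans (aeval_of_mem_kerG hab))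
  obtain ⟨t0⟩ := ‹Nonempty T›
  choose l hl using fun i => Function.ne_iff.1 (hp i t0)
  choose U U1 U2 using fun j => (map_Sd_crd p _).ge (u1 j)
  obtain ⟨a, f, -, f1, f2, f3, hf⟩ := le_card_proj (β := Prod.fst) (P := kerG K Prod.fst z)
    (fun q hq d => grJ_kerG z d q hq) {i0} (s := fun i => (i, l i)) (fun _ => rfl)
    (fun i e => hl i (by simpa [z] using congrFun (aeval_of_mem_kerG e) t0)) U1
    fun a ha g hg hs j => by
      refine (mem_kerG (hg j)).2 (u2 (fun _ => a i0) (fun j => aeval z (g j)) (fun j => ?_) ?_ j)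
      · rw [← pw_extend _ inj, show Function.extend (fun _ : Fin 1 => i0) (fun _ => a i0) 0 = a from
          funext fun i => by
            by_cases e : i = i0
            · rw [e]; exact inj.extend_apply _ _ 0
            · rw [Function.extend_apply' _ _ _ (fun ⟨_, h⟩ => e h.symm), ha i e]; rfl]
        exact hz (hg j)
      · rw [← aeval_of_mem_kerG hs, map_sum]
        exact Finset.sum_congr rfl fun j _ => by rw [map_mul, ← U2]; rfl
  obtain ⟨g, rfl⟩ := exists_rename f2
  have ev : ∀ (q : MvPolynomial s K) t, aeval z (rename (Prod.mk i0) q) t = eval (p i0 t) q :=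
    fun q t => by rw [aeval_pt, eval_rename]; rfl
  have g1 := hom_of_rename f1
  refine ⟨_, g * h, g1.mul h1, ?_, fun x hx x0 hg => ?_⟩
  · by_contra hc
    push Not at hc
    rcases hd _ _ _ (hz f1) _ (hz (rename_mem_Sd i0 h1)) (funext fun t => by
      rw [Pi.mul_apply, ev, ev, ← map_mul, hc t]; rfl) with e | e
    · exact f3 ((mem_kerG f1).2 e)
    · obtain ⟨t, ht⟩ := h2
      exact ht ((ev h t).symm.trans (congrFun e t))
  rw [map_mul, mul_ne_zero_iff] at hg
  refine le_antisymm (h3 x hg.2) ?_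
  have := hf (fun v => x v.2) (fun q hq hs => by
    obtain ⟨k, rfl⟩ := exists_rename hs
    rw [eval_rename]
    refine hx k ?_
    rintro _ ⟨c, t, rfl⟩
    have := scale_ker (β := Prod.fst) (RingHom.id K) (fun v => z v t) (fun _ => c)
      (fun q hq d => grJ_kerG z d q hq)
      (fun q hq => (aeval_pt z q t).symm.trans (congrFun (aeval_of_mem_kerG hq) t)) _ hq
    rw [eval₂Hom_rename] at this
    exact this) (by rw [eval_rename]; exact hg.1)
  rw [Fintype.card_fin] at this
  refine this.trans ?_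
  have ex : ∀ ξ : ι × s → K, ∃ t, (∀ q ∈ kerG K Prod.fst z, eval ξ q = 0) ∧
      (∀ v, v.1 ∈ ({i0} : Set ι) → ξ v = x v.2) ∧ (∀ i ∉ ({i0} : Set ι), ξ (i, l i) = 1) →
      ∀ i, Par (fun k => ξ (i, k)) (p i t) := fun ξ => by
    by_cases hξ : (∀ q ∈ kerG K Prod.fst z, eval ξ q = 0) ∧
      (∀ v, v.1 ∈ ({i0} : Set ι) → ξ v = x v.2) ∧ (∀ i ∉ ({i0} : Set ι), ξ (i, l i) = 1)
    · refine (hcl (fun i k => ξ (i, k)) (fun i e => ?_) fun d F hF h0 => hξ.1 F
        ((mem_kerG hF).2 (funext fun t => by rw [aeval_pt, Pi.zero_apply, ← h0 t]))).imp fun t h _ => h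
      by_cases hi : i = i0
      · exact x0 (funext fun k => (hξ.2.1 (i, k) hi).symm.trans (congrFun e k))
      · exact one_ne_zero ((hξ.2.2 i hi).symm.trans (congrFun e (l i)))
    · exact ⟨t0, fun h => absurd h hξ⟩
  choose τ hτ using ex
  refine Set.encard_le_encard_of_injOn (f := fun ξ => kap (τ ξ)) (fun ξ hξ => ⟨_, ?_, rfl⟩)
    fun ξ hξ ξ' hξ' e => funext fun v => ?_
  · have := hτ ξ hξ i0
    rwa [show (fun k => ξ (i0, k)) = x from funext fun k => hξ.2.1 (i0, k) rfl] at this
  · by_cases hi : v.1 = i0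
    · exact (hξ.2.1 v hi).trans (hξ'.2.1 v hi).symm
    · obtain ⟨c, -, hc⟩ := par_trans (par_trans (hτ ξ hξ v.1) ((hk _ _).1 e v.1 hi))
        (par_symm (hτ ξ' hξ' v.1))
      have h1 : ξ (v.1, l v.1) = c * ξ' (v.1, l v.1) := congrFun hc (l v.1)
      rw [hξ.2.2 _ hi, hξ'.2.2 _ hi, mul_one] at h1
      have h2 : ξ v = c * ξ' v := congrFun hc v.2
      rw [h2, ← h1, one_mul]

/-- the graph of a regular map on a closed set is closed -/
theorem closed_of_rg [Infinite K] [Finite s] {p : ι → T → s → K} (hp : ∀ i t, p i t ≠ 0) (i0 : ι)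
    (hb : ∀ y : ι → s → K, (∀ i, i ≠ i0 → y i ≠ 0 ∧ y i ∈ zeroLocus K (idl (p i))) →
      ∃ t, ∀ i, i ≠ i0 → Par (y i) (p i t))
    {κ : Type} [Fintype κ] {f : κ → ι} (hf : Function.Injective f) (f0 : ∀ k, f k ≠ i0)
    {L : κ → Submodule K (T → K)} (hL : ∀ k, L k = crd (p (f k))) (hrg : Rg L (crd (p i0)))
    (y : ι → s → K) (hy : ∀ i, y i ≠ 0) (H : ∀ d, ∀ F ∈ Sd K Prod.fst d,
      (∀ t, eval (fun v : ι × s => p v.1 t v.2) F = 0) → eval (fun v => y v.1 v.2) F = 0) :
    ∃ t, ∀ i, Par (y i) (p i t) := by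
  classical
  cases nonempty_fintype s
  obtain rfl : L = (fun i => crd (p i)) ∘ f := funext hL
  obtain ⟨t, ht⟩ := hb y fun i _ => ⟨hy i, mem_zl_of_forms fun e h h1 h2 => by
    have := H _ _ (rename_mem_Sd i h1) fun t => by rw [eval_rename]; exact h2 t
    rwa [eval_rename] at this⟩
  refine ⟨t, fun i => ?_⟩
  by_cases hi : i = i0
  swap
  · exact ht i hi
  subst hi
  obtain ⟨e, c, c0, hc⟩ := hrg t
  choose G G1 G2 using fun l => (map_Sd_crd p _).ge
    ((pw_extend (fun i => crd (p i)) hf e).ge (hc _ (mem_crd (p i) l)))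
  have G3 : ∀ l t, eval (fun v : ι × s => p v.1 t v.2) (G l) = c t * p i t l := fun l t =>
    (aeval_pt _ _ t).symm.trans (congrFun (G2 l) t)
  have ex : ∀ j, ∃ a : K, a ≠ 0 ∧ (j ≠ i → y j = a • p j t) := fun j => by
    by_cases hj : j = i
    · exact ⟨1, one_ne_zero, fun h => absurd hj h⟩
    · obtain ⟨a, a1, a2⟩ := ht j hj
      exact ⟨a, a1.ne_zero, fun _ => a2⟩
  choose a a0 ha using ex
  have G4 : ∀ l, eval (fun v : ι × s => y v.1 v.2) (G l) =
      (∏ j, a j ^ Function.extend f e 0 j) * (c t * p i t l) := fun l => by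
    rw [← G3]
    refine Eq.trans ?_ (scale (β := Prod.fst) (RingHom.id K) _ a (G1 l))
    refine eval₂_congr _ _ _ fun {v m} hv hm => congrFun (ha v.1 fun h => ?_) v.2
    have h1 := congrFun (G1 l hm) i
    rw [weight_wN, Function.extend_apply' _ _ _ (fun ⟨k, hk⟩ => f0 k hk)] at h1
    exact Finsupp.mem_support_iff.1 hv (Finset.sum_eq_zero_iff.1 h1 v (by simp [h]))
  refine par_of_minors (hy i) (hp i t) fun l l' => ?_
  have := H _ (X (i, l) * G l' - X (i, l') * G l)
    (sub_mem (IsWeightedHomogeneous.mul (X_mem_Sd (i, l)) (G1 l'))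
      (IsWeightedHomogeneous.mul (X_mem_Sd (i, l')) (G1 l))) fun t => by
    simp only [map_sub, map_mul, eval_X, G3]; ring
  simp only [map_sub, map_mul, eval_X, G4] at this
  have h0 : ∏ j, a j ^ Function.extend f e 0 j ≠ 0 :=
    Finset.prod_ne_zero_iff.2 fun j _ => pow_ne_zero _ (a0 j)
  refine mul_left_cancel₀ (mul_ne_zero h0 c0.ne_zero) ?_
  linear_combination this

end Pool.Agent.Tav.Fib
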