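import Pool.Agent.P.MP_2ce3e7_ag.Tav.GAll

/-! Mixed degrees when every slot is replaced by a multiple of itself. -/

set_option autoImplicit false

noncomputable section

namespace Pool.Agent.Tav

open MvPolynomial Module

variable {Ω : Type} [Field Ω] {T Y : Type} {β ν : Type} [Fintype β] [Fintype ν]

/-- `V'` is, up to a nowhere vanishing factor, a generating part of the `q`-th power of `V` -/
def LS.Mlt (V : LS Ω T) (q : ℕ) (V' : LS Ω T) : Prop :=
  ∃ (U : Submodule Ω (T → Ω)) (lam : T → Ω), Bpf (fun _ : Unit => V) (fun _ => q) U ∧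
    (∀ t, lam t ≠ 0) ∧ V'.sp = U.map (LinearMap.mulLeft Ω lam)

theorem pc_unit_mlt (V : LS Ω T) (d : Unit → ℕ) : pc (fun _ : Unit => V) d = V.sp ^ d () := by
  simp [pc]

theorem LS.Sim.mlt {V V' : LS Ω T} (h : V.Sim V') : V.Mlt 1 V' := by
  obtain ⟨lam, hl, e⟩ := h
  refine ⟨V.sp, lam, ?_, hl, e⟩
  have := Bpf.self (fun _ : Unit => V) (fun _ => 1)
  rwa [pc_unit_mlt, pow_one] at this

theorem LS.Mlt.refl (V : LS Ω T) : V.Mlt 1 V := (LS.Sim.refl V).mlt

theorem LS.Mlt.pb {V V' : LS Ω Y} {q : ℕ} (h : V.Mlt q V') (j : T → Y) :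
    (V.pb j).Mlt q (V'.pb j) := by
  obtain ⟨U, lam, hU, hl, e⟩ := h
  refine ⟨_, lam ∘ j, hU.pb j, fun t => hl _, ?_⟩
  change V'.sp.map _ = _
  rw [e, ← Submodule.map_comp, ← Submodule.map_comp]
  congr 1

theorem LS.Mlt.sim {V V' V'' : LS Ω T} {q : ℕ} (h : V.Mlt q V') (h' : V'.Sim V'') :
    V.Mlt q V'' := by
  obtain ⟨U, lam, hU, hl, e⟩ := h
  obtain ⟨mu, hm, e'⟩ := h'
  refine ⟨U, mu * lam, hU, fun t => mul_ne_zero (hm t) (hl t), ?_⟩
  rw [e', e, ← Submodule.map_comp, LinearMap.mulLeft_mul]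

/-- coordinates proportional to the `q`-th powers -/
theorem LS.mlt_co {s : Type} [Finite s] {p p' : T → s → Ω} (hp : ∀ t, p t ≠ 0)
    (hp' : ∀ t, p' t ≠ 0) (q : ℕ) (h : ∀ t, ∃ c : Ω, ∀ i, p' t i = c * p t i ^ q) :
    (LS.co p hp).Mlt q (LS.co p' hp') := by
  choose c hc using h
  refine ⟨_, c, Bpf.pow p hp q, fun t h0 => hp' t (funext fun i => by simp [hc, h0]), ?_⟩
  change Submodule.span Ω _ = _
  rw [Submodule.map_span, ← Set.range_comp]
  congr 2
  funext i t
  exact hc t i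

theorem LS.pow_nv (V : LS Ω T) (d : ℕ) (t : T) : ∃ g ∈ V.sp ^ d, g t ≠ 0 := by
  obtain ⟨u, hu, h⟩ := V.nv t
  exact ⟨u ^ d, Submodule.pow_mem_pow _ hu d, pow_ne_zero d h⟩

theorem LS.Mlt.reg {V V' : LS Ω T} {q : ℕ} (h : V.Mlt q V') : Reg (fun _ : Unit => V) V' := by
  obtain ⟨U, lam, ⟨N, hN⟩, hl, e⟩ := h
  intro t
  obtain ⟨g, hg, h0⟩ := V.pow_nv N t
  refine ⟨(fun _ => N) + fun _ => q, g * lam⁻¹, mul_ne_zero h0 (inv_ne_zero (hl t)), ?_⟩
  rw [e, ← hN _ fun _ => le_rfl, pc_unit_mlt]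
  rintro _ ⟨u, hu, rfl⟩
  have : g * lam⁻¹ * LinearMap.mulLeft Ω lam u = u * g := by
    funext x
    simp only [Pi.mul_apply, Pi.inv_apply, LinearMap.mulLeft_apply]
    field_simp [hl x]
  rw [this]
  exact Submodule.mul_mem_mul hu hg

theorem Reg.mlt {B : β → LS Ω T} {V V' : LS Ω T} {q : ℕ} (hV : Reg B V) (h : V.Mlt q V') :
    Reg B V' := Reg.trans (fun _ => hV) h.reg

theorem mix_mlt_one [DecidableEq ν] {B : β → LS Ω T} {W : ν → LS Ω T} {n : ℕ} (h : Src B n)
    (hW : ∀ k, Reg B (W k)) (hn : n ≤ Fintype.card ν) (i : ν) {q : ℕ} {V' : LS Ω T}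
    (hq : (W i).Mlt q V') : mix B (Function.update W i V') = q * mix B W := by
  have hr := (hW i).mlt hq
  obtain ⟨U, lam, hU, hl, e⟩ := hq
  have h1 := Bpf.self (fun _ : Unit => V') (fun _ => 1)
  rw [pc_unit_mlt, pow_one] at h1
  have := mix_rel h hW hn i (fun _ => hW i) (fun _ => hr) hU h1 hl e
  simpa using this.symm

/-- every slot is replaced by a multiple -/
theorem mix_mlt {B : β → LS Ω T} {W W' : ν → LS Ω T} {n : ℕ} (h : Src B n)
    (hW : ∀ k, Reg B (W k)) (hn : n ≤ Fintype.card ν) {q : ν → ℕ}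
    (hq : ∀ k, (W k).Mlt (q k) (W' k)) : mix B W' = (∏ k, (q k : ℚ)) * mix B W := by
  classical
  have key : ∀ s : Finset ν, mix B (fun k => if k ∈ s then W' k else W k) =
      (∏ k ∈ s, (q k : ℚ)) * mix B W := by
    intro s
    induction s using Finset.induction_on with
    | empty => simp
    | insert i s hi ih =>
      have e : (fun k => if k ∈ insert i s then W' k else W k) =
          Function.update (fun k => if k ∈ s then W' k else W k) i (W' i) := by
        funext k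
        by_cases hk : k = i
        · subst hk; simp
        · simp [hk]
      rw [e, mix_mlt_one h (fun k => ?_) hn i (q := q i) (by simpa [hi] using hq i), ih,
        Finset.prod_insert hi, mul_assoc]
      split_ifs
      · exact (hW k).mlt (hq k)
      · exact hW k
  simpa using key Finset.univ

end Pool.Agent.Tav
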