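import Pool.Agent.P.MP_2ce3e7_ag.Tav.G3Ort

/-! The cubic theta relation as an integral expansion along the Fourier matrix of order three. -/

set_option autoImplicit false

open Complex Matrix
open scoped Real ComplexConjugate

namespace Pool.Agent.Tav.G3

open Pool.Agent.Cmh Pool.Agent.Tav.Gd

noncomputable section

section Alg

variable {ι : Type*} [Om ι] {D : Submodule ℤ (ι → ℂ)}

lemma om_rel : (om ^ 2 + om + 1 : ι → ℂ) = 0 := by rw [sq]; exact om_eq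

lemma la_def : (la : ι → ℂ) = om - om ^ 2 := by rw [sq]; rfl

lemma la_inv : (la * la⁻¹ : ι → ℂ) = 1 := funext fun i => mul_inv_cancel₀ (la_ne i)

lemma la_mul_la : (la * la : ι → ℂ) = -3 := funext fun i => la_sq i

lemma la_cancel (x : ι → ℂ) : la * (la⁻¹ * x) = x := by rw [← mul_assoc, la_inv, one_mul]

lemma cancel_la (x : ι → ℂ) : la⁻¹ * (la * x) = x := by
  rw [← mul_assoc, mul_comm la⁻¹, la_inv, one_mul]

omit [Om ι] in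
lemma three_smul' (x : ι → ℂ) : 3 • x = 3 * x := by rw [nsmul_eq_mul, Nat.cast_ofNat]

lemma St.sq (h : St D) {x : ι → ℂ} (hx : x ∈ D) : om ^ 2 * x ∈ D := by
  rw [_root_.sq, mul_assoc]; exact h _ (h _ hx)

lemma St.la_pow (h : St D) {x : ι → ℂ} (hx : x ∈ D) (k : ℕ) : G3.la ^ k * x ∈ D := by
  induction k with
  | zero => simpa using hx
  | succ k ih => rw [pow_succ', mul_assoc]; exact h.la ih

/-- the elements with `t x ∈ D` -/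
def ml (t : ι → ℂ) (D : Submodule ℤ (ι → ℂ)) : Submodule ℤ (ι → ℂ) :=
  D.comap (LinearMap.mulLeft ℤ t)

omit [Om ι] in
lemma mem_ml {t x : ι → ℂ} : x ∈ ml t D ↔ t * x ∈ D := Iff.rfl

lemma St.ml (h : St D) (t : ι → ℂ) : St (ml t D) := fun x hx => by
  rw [mem_ml, mul_left_comm]; exact h _ hx

lemma three_iff {x : ι → ℂ} : 3 • x ∈ D ↔ la * (la * x) ∈ D := by rw [la_la, neg_mem_iff]

lemma St.three (h : St D) {x : ι → ℂ} (hx : G3.la * x ∈ D) : 3 • x ∈ D := three_iff.2 (h.la hx)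

lemma St.three_pow (h : St D) {k : ℕ} {x : ι → ℂ} (hx : G3.la ^ k * x ∈ D) : 3 ^ k • x ∈ D := by
  have e : (3 : ι → ℂ) = -G3.la * G3.la := by rw [neg_mul, la_mul_la, neg_neg]
  rw [nsmul_eq_mul, Nat.cast_pow, Nat.cast_ofNat, e, mul_pow, mul_assoc, neg_pow, mul_assoc]
  rcases neg_one_pow_eq_or (ι → ℂ) k with e | e <;> rw [e]
  · rw [one_mul]; exact h.la_pow hx k
  · rw [neg_one_mul]; exact neg_mem (h.la_pow hx k)

end Alg

section Gen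

variable {ι : Type*} [Fintype ι] [Om ι] {Γ : Type*} [LinearOrderedCommGroupWithZero Γ]
  {v : Valuation ℂ Γ} {M : Submodule ℤ (ι → ℂ)}

lemma Un.la_QQ (h : Un v M) {k : ℕ} {a : ι → ℂ} (ha : la ^ k * a ∈ du M) : a ∈ QQ M :=
  h.dv_QQ (pow_ne_zero k three_ne_zero) (mem_dv.2 (h.1.st.du.three_pow ha))

lemma Un.la_QQ' (h : Un v M) {a : ι → ℂ} (ha : la * a ∈ du M) : a ∈ QQ M :=
  h.dv_QQ three_ne_zero (h.1.st.du.three ha)

omit [Fintype ι] in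
lemma St.inv_QQ (h : St M) {x : ι → ℂ} (hx : G3.la * x ∈ Cmh.QQ M) : x ∈ Cmh.QQ M := by
  obtain ⟨n, hn, h'⟩ := h.QQ.three hx
  exact ⟨n * 3, by omega, by rw [mul_smul]; exact h'⟩

/-- the pull-back along a unitary matrix with integral square -/
theorem had0 [DecidableEq ι] (hM : Un v M) {A : Matrix ι ι ℂ} (hA : IsUni A) (hc : Cm A) {n : ℕ}
    (hn : v n = 1) (h1 : ∀ x ∈ M, n • A *ᵥ x ∈ M) (h2 : ∀ x ∈ M, n • Aᴴ *ᵥ x ∈ M)
    (h3 : ∀ x ∈ du M, n • Aᴴ *ᵥ x ∈ du M) (h4 : ∀ x ∈ du M, A *ᵥ (A *ᵥ x) ∈ du M)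
    {F : (ι → ℂ) → ℂ} (hF : F ∈ Tc M) :
    ∃ (m : ℕ) (l : Fin m → ι → ℂ) (c : Fin m → ℂ), (∀ a, l a ∈ du M ⊔ mp Aᴴ (du M)) ∧
      (∀ a, v (c a) ≤ 1) ∧ pb A F = ∑ a, c a • U (l a) F := by
  by_cases h0 : F = 0
  · refine ⟨0, Fin.elim0, Fin.elim0, fun a => a.elim0, fun a => a.elim0, ?_⟩
    ext z
    simp [h0, pb_apply]
  obtain ⟨a0, ⟨k, hk, ha0⟩, h0⟩ := exists_QQ_ne hM.1.lat hF.1.continuous h0
  obtain ⟨N, hN, hN'⟩ := hM.exists_n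
  have hn0 : n ≠ 0 := fun e => by simp [e] at hn
  let Y := dv k (du M ⊔ mp Aᴴ (du M))
  have hY : ∀ y ∈ Y, (N * n * k) • y ∈ M := fun y hy => by
    obtain ⟨a, ha, b, hb, e⟩ := Submodule.mem_sup.1 hy
    obtain ⟨z, hz, rfl⟩ := mem_mp.1 hb
    rw [mul_smul, ← e, mul_smul, smul_add]
    exact hN' _ (add_mem (nsmul_mem ha n) (h3 _ hz))
  have hne : N * n * k ≠ 0 := by positivity
  have hle : du M ≤ Y := le_sup_left.trans (le_dv k)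
  have hYQ : Y ≤ QQ M := fun y hy => ⟨_, hne, hY y hy⟩
  obtain ⟨w, hw, hmax⟩ := exists_max hM.1.lat (isLat_of hM.1.lat (hM.1.le_du.trans hle) hne hY)
    (hM.1.le_du.trans hle) (fun y => v (U y F 0))
    fun y hy m hm => val_per hM.1 hF (hYQ hy) hm 0
  exact lin hM hA hc hn h1 h2 hF Y hYQ hle (le_sup_right.trans (le_dv k))
    (fun y hy => by
      obtain ⟨a, ha, b, hb, e⟩ := Submodule.mem_sup.1 hy
      obtain ⟨z, hz, rfl⟩ := mem_mp.1 hb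
      rw [mem_dv, ← mulVec_smul, ← e, mulVec_add, hA.mulVec_ct]
      exact add_mem (Submodule.mem_sup_right (mem_mp.2 ⟨_, h4 a ha, hA.ct_mulVec _⟩))
        (Submodule.mem_sup_left hz))
    hw hmax (by
      intro e
      have := hmax a0 (Submodule.mem_sup_left (hM.1.le_du ha0))
      rw [e, map_zero, le_zero_iff, map_eq_zero] at this
      exact U_zero_ne h0 this)

end Gen

variable {ι : Type*} [Fintype ι] [DecidableEq ι] [Om ι]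

section Ft

variable {κ : Type*} [Fintype κ] [DecidableEq κ] {A : Matrix (Σ _ : κ, ι) (Σ _ : κ, ι) ℂ}

/-- unitary matrices on several copies with `la A` and `A ^ 2` integral -/
structure Ft (A : Matrix (Σ _ : κ, ι) (Σ _ : κ, ι) ℂ) : Prop where
  uni : IsUni A
  cm : Cm A
  int : ∀ D : Submodule ℤ (ι → ℂ), St D → ∀ z, (∀ k, cp z k ∈ D) → ∀ k, la * cp (A *ᵥ z) k ∈ D
  sq : ∀ D : Submodule ℤ (ι → ℂ), St D → ∀ z, (∀ k, cp z k ∈ D) → ∀ k, cp (A *ᵥ (A *ᵥ z)) k ∈ D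
  sq' : ∀ D : Submodule ℤ (ι → ℂ), St D → ∀ z, (∀ k, cp z k ∈ D) →
    ∀ k, cp (Aᴴ *ᵥ (Aᴴ *ᵥ z)) k ∈ D

lemma Ft.ct (h : Ft A) : Ft Aᴴ :=
  ⟨h.uni.ct, Cm.ct h.uni h.cm, fun D hD z hz k => by
    have := h.int D hD _ (h.sq' D hD z hz) k
    rwa [h.uni.mulVec_ct] at this, h.sq', by rw [conjTranspose_conjTranspose]; exact h.sq⟩

variable {Λ : Submodule ℤ (ι → ℂ)} {f : (ι → ℂ) → ℂ} {Γ : Type*}
  [LinearOrderedCommGroupWithZero Γ] {v : Valuation ℂ Γ}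

lemma Ft.QQ (h : Ft A) (hΛ : St Λ) {b : (Σ _ : κ, ι) → ℂ} (hb : ∀ k, cp b k ∈ QQ Λ) (k : κ) :
    cp (A *ᵥ b) k ∈ QQ Λ := hΛ.inv_QQ (h.int _ hΛ.QQ b hb k)

/-- HAD: the theta relation along `A` -/
theorem had (hA : Ft A) (hΛ : Un v Λ) (h3 : v 3 = 1) (hf : f ∈ Tc Λ) :
    ∃ (m : ℕ) (l : Fin m → (Σ _ : κ, ι) → ℂ) (c : Fin m → ℂ),
      (∀ a, l a ∈ (pl fun _ => du Λ) ⊔ mp Aᴴ (pl fun _ => du Λ)) ∧
      (∀ a k, la * cp (l a) k ∈ du Λ) ∧ (∀ a, v (c a) ≤ 1) ∧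
      pb A (tp fun _ => f) = ∑ a, c a • U (l a) (tp fun _ => f) := by
  have hD := hΛ.1.st.du
  obtain ⟨m, l, c, hl, hc, e⟩ := had0 (un_pl fun _ : κ => hΛ) hA.uni hA.cm (n := 3)
    (by simpa using h3) (fun x hx k => hΛ.1.st.three (hA.int _ hΛ.1.st x hx k))
    (fun x hx k => hΛ.1.st.three (hA.ct.int _ hΛ.1.st x hx k))
    (by rw [du_pl]; exact fun x hx k => hD.three (hA.ct.int _ hD x hx k))
    (by rw [du_pl]; exact fun x hx => hA.sq _ hD x hx) (tp_mem fun _ => hf)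
  rw [du_pl] at hl
  refine ⟨m, l, c, hl, fun a k => ?_, hc, e⟩
  obtain ⟨x, hx, y, hy, e'⟩ := Submodule.mem_sup.1 (hl a)
  obtain ⟨z, hz, rfl⟩ := mem_mp.1 hy
  rw [← e', cp_add, mul_add]
  exact add_mem (hD.la (hx k)) (hA.ct.int _ hD z hz k)

/-- the relation for translates, as an identity of functions of `y` -/
theorem had_exp (hA : Ft A) (hΛ : Un v Λ) (h3 : v 3 = 1) (hf : f ∈ Tc Λ) {b : (Σ _ : κ, ι) → ℂ}
    (hb : ∀ k, cp b k ∈ QQ Λ) :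
    ∃ (m : ℕ) (l : Fin m → (Σ _ : κ, ι) → ℂ) (c : Fin m → ℂ),
      (∀ a, l a ∈ (pl fun _ => du Λ) ⊔ mp A (pl fun _ => du Λ)) ∧
      (∀ a k, la * cp (l a) k ∈ du Λ) ∧
      (∀ a, v (c a) ≤ 1) ∧ ∀ y, ∏ k, U (cp b k) f (cp y k) =
        ∑ a, c a * ∏ k, U (cp (A *ᵥ b) k + cp (l a) k) f (cp (A *ᵥ y) k) := by
  obtain ⟨m, l, c, hl, h4, hc, e⟩ := had hA.ct hΛ h3 hf
  rw [conjTranspose_conjTranspose] at hl
  refine ⟨m, l, fun a => c a * ph (l a) (A *ᵥ b), hl, h4, fun a => ?_, fun y => ?_⟩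
  · rw [map_mul, val_ph v (in_pl fun _ => hΛ.1)
      (mem_QQ_pl.2 fun k => hΛ.la_QQ' (h4 a k)) (mem_QQ_pl.2 (hA.QQ hΛ.1.st hb)), mul_one]
    exact hc a
  · have e1 : ∏ k, U (cp b k) f (cp y k) = U b (tp fun _ => f) y := by rw [U_tp, tp]
    rw [e1, ← hA.uni.ct_mulVec b, ← hA.uni.ct_mulVec y, ← pb_apply Aᴴ (U _ _) (A *ᵥ y),
      ← U_pb hA.uni.ct, e, map_sum, Finset.sum_apply, hA.uni.ct_mulVec b, hA.uni.ct_mulVec y]
    refine Finset.sum_congr rfl fun a _ => ?_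
    rw [map_smul, U_U', smul_smul, Pi.smul_apply, smul_eq_mul, U_tp, tp]
    rfl

/-- the relation as an inequality -/
theorem had_le (hA : Ft A) (hΛ : Un v Λ) (h3 : v 3 = 1) (hf : f ∈ Tc Λ) {b : (Σ _ : κ, ι) → ℂ}
    (hb : ∀ k, cp b k ∈ QQ Λ) (y : (Σ _ : κ, ι) → ℂ) {γ : Γ}
    (h : ∀ ξ : κ → ι → ℂ, (∀ k, la * ξ k ∈ du Λ) →
      ∏ k, v (U (cp (A *ᵥ b) k + ξ k) f (cp (A *ᵥ y) k)) ≤ γ) :
    ∏ k, v (U (cp b k) f (cp y k)) ≤ γ := by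
  obtain ⟨m, l, c, -, hl, hc, e⟩ := had_exp hA hΛ h3 hf hb
  rw [← map_prod, e y]
  refine v.map_sum_le fun j _ => ?_
  rw [map_mul, map_prod]
  exact (mul_le_of_le_one_left' (hc j)).trans (h _ (hl j))

end Ft

/-- the character table of the group of order three -/
def hd3 (w : ℂ) : Matrix (Fin 3) (Fin 3) ℂ := !![1, 1, 1; 1, w, w ^ 2; 1, w ^ 2, w]

/-- the Fourier matrix over `la` acting on three copies -/
def TT (ι : Type*) [DecidableEq ι] [Om ι] : Matrix (Σ _ : Fin 3, ι) (Σ _ : Fin 3, ι) ℂ :=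
  fun s t => if s.2 = t.2 then (la s.2)⁻¹ * hd3 (om s.2) s.1 t.1 else 0

/-- three vectors as one -/
def v3 (a b c : ι → ℂ) : (Σ _ : Fin 3, ι) → ℂ := mkv fun k => ![a, b, c] k

omit [Fintype ι] [DecidableEq ι] [Om ι] in
lemma eq_v3 (z : (Σ _ : Fin 3, ι) → ℂ) : z = v3 (cp z 0) (cp z 1) (cp z 2) := by
  ext ⟨k, i⟩
  fin_cases k <;> rfl

lemma TT_v3 (a b c : ι → ℂ) : TT ι *ᵥ v3 a b c =
    v3 (la⁻¹ * (a + b + c)) (la⁻¹ * (a + om * b + om ^ 2 * c))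
      (la⁻¹ * (a + om ^ 2 * b + om * c)) := by
  ext ⟨k, i⟩
  fin_cases k <;>
    simp [TT, hd3, v3, mkv, mulVec, dotProduct, Fintype.sum_sigma, Fin.sum_univ_three] <;> ring

lemma TT_ct_v3 (a b c : ι → ℂ) : (TT ι)ᴴ *ᵥ v3 a b c =
    v3 (-(la⁻¹ * (a + b + c))) (-(la⁻¹ * (a + om ^ 2 * b + om * c)))
      (-(la⁻¹ * (a + om * b + om ^ 2 * c))) := by
  ext ⟨k, i⟩
  have h := om_cube i
  fin_cases k <;>
    simp [TT, hd3, v3, mkv, mulVec, dotProduct, Fintype.sum_sigma, Fin.sum_univ_three,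
      conjTranspose_apply, apply_ite, conj_om, conj_la]
  · ring
  · linear_combination (-(la i)⁻¹ * om i * c i) * h
  · linear_combination (-(la i)⁻¹ * om i * b i) * h

lemma TT_TT (a b c : ι → ℂ) : TT ι *ᵥ (TT ι *ᵥ v3 a b c) = v3 (-a) (-c) (-b) := by
  have h1 := om_rel (ι := ι)
  have h2 := la_inv (ι := ι)
  have h3 := la_mul_la (ι := ι)
  rw [TT_v3, TT_v3]
  congr 1 <;> grind

lemma TT_ct_eq (a b c : ι → ℂ) : (TT ι)ᴴ *ᵥ v3 a b c = TT ι *ᵥ v3 (-a) (-c) (-b) := by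
  rw [TT_v3, TT_ct_v3]
  congr 1 <;> ring

lemma TT_uni : IsUni (TT ι) := by
  have : TT ι * (TT ι)ᴴ = 1 := by
    apply Matrix.toLin'.injective
    refine LinearMap.ext fun z => ?_
    rw [toLin'_apply, toLin'_apply, ← mulVec_mulVec, one_mulVec, eq_v3 z, TT_ct_eq, TT_TT, neg_neg,
      neg_neg, neg_neg]
  exact ⟨mul_eq_one_comm.1 this, this⟩

omit [Fintype ι] [DecidableEq ι] in
lemma om_v3 (a b c : ι → ℂ) : om * v3 a b c = v3 (om * a) (om * b) (om * c) := by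
  ext ⟨k, i⟩
  fin_cases k <;> rfl

omit [Fintype ι] [DecidableEq ι] [Om ι] in
lemma v3_mem {D : Submodule ℤ (ι → ℂ)} {a b c : ι → ℂ} :
    (∀ k, cp (v3 a b c) k ∈ D) ↔ a ∈ D ∧ b ∈ D ∧ c ∈ D := by
  refine ⟨fun h => ⟨h 0, h 1, h 2⟩, fun ⟨h0, h1, h2⟩ k => ?_⟩
  fin_cases k
  exacts [h0, h1, h2]

omit [Fintype ι] [DecidableEq ι] [Om ι] in
lemma v3_zero : v3 (0 : ι → ℂ) 0 0 = 0 := by
  ext ⟨k, i⟩
  fin_cases k <;> rfl

theorem TT_ft : Ft (TT ι) where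
  uni := TT_uni
  cm := fun z => by
    rw [eq_v3 z, om_v3, TT_v3, TT_v3, om_v3]
    congr 1 <;> ring
  int := fun D hD z hz k => by
    rw [eq_v3 z, TT_v3]
    fin_cases k
    exacts [mem_eq (add_mem (add_mem (hz 0) (hz 1)) (hz 2)) (la_cancel _),
      mem_eq (add_mem (add_mem (hz 0) (hD _ (hz 1))) (hD.sq (hz 2))) (la_cancel _),
      mem_eq (add_mem (add_mem (hz 0) (hD.sq (hz 1))) (hD _ (hz 2))) (la_cancel _)]
  sq := fun D _ z hz => by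
    rw [eq_v3 z, TT_TT]
    exact v3_mem.2 ⟨neg_mem (hz 0), neg_mem (hz 2), neg_mem (hz 1)⟩
  sq' := fun D _ z hz => by
    rw [eq_v3 z, TT_ct_eq, TT_uni.ct_mulVec]
    exact v3_mem.2 ⟨neg_mem (hz 0), neg_mem (hz 2), neg_mem (hz 1)⟩

omit [DecidableEq ι] [Om ι] in
lemma U_v3 {f : (ι → ℂ) → ℂ} (a b c x y z : ι → ℂ) :
    U (v3 a b c) (tp fun _ => f) (v3 x y z) = U a f x * U b f y * U c f z := by
  rw [U_tp, tp, Fin.prod_univ_three]; rfl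

/-- the shifts are diagonal modulo the dual lattice -/
lemma mem_sup_TT {D : Submodule ℤ (ι → ℂ)} (hD : St D) {x : (Σ _ : Fin 3, ι) → ℂ}
    (hx : x ∈ (pl fun _ => D) ⊔ mp (TT ι) (pl fun _ => D)) :
    ∃ κ, la * κ ∈ D ∧ ∀ k, cp x k - κ ∈ D := by
  obtain ⟨a, ha, b, hb, rfl⟩ := Submodule.mem_sup.1 hx
  obtain ⟨z, hz, rfl⟩ := mem_mp.1 hb
  have h1 := om_rel (ι := ι)
  have h2 := la_inv (ι := ι)
  have h3 := la_def (ι := ι)
  refine ⟨la⁻¹ * (cp z 0 + cp z 1 + cp z 2), ?_, fun k => ?_⟩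
  · rw [la_cancel]; exact add_mem (add_mem (hz 0) (hz 1)) (hz 2)
  · rw [cp_add, add_sub_assoc]
    refine add_mem (ha k) ?_
    nth_rewrite 1 [eq_v3 z]
    rw [TT_v3]
    fin_cases k
    · exact mem_eq (zero_mem _) (sub_self _)
    · refine mem_eq (sub_mem (hD _ (hz 2)) (hD.sq (hz 1))) ?_
      show la⁻¹ * (cp z 0 + om * cp z 1 + om ^ 2 * cp z 2) - _ = _
      grind
    · refine mem_eq (sub_mem (hD _ (hz 1)) (hD.sq (hz 2))) ?_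
      show la⁻¹ * (cp z 0 + om ^ 2 * cp z 1 + om * cp z 2) - _ = _
      grind

lemma mem_sup_TT' {D : Submodule ℤ (ι → ℂ)} (hD : St D) {x : (Σ _ : Fin 3, ι) → ℂ}
    (hx : x ∈ (pl fun _ => D) ⊔ mp (TT ι)ᴴ (pl fun _ => D)) :
    ∃ κ, la * κ ∈ D ∧ ∀ k, cp x k - κ ∈ D := by
  obtain ⟨a, ha, b, hb, rfl⟩ := Submodule.mem_sup.1 hx
  obtain ⟨z, hz, rfl⟩ := mem_mp.1 hb
  refine mem_sup_TT hD (Submodule.add_mem_sup ha ?_)
  rw [eq_v3 z, TT_ct_eq]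
  exact mem_mp.2 ⟨_, v3_mem.2 ⟨neg_mem (hz 0), neg_mem (hz 2), neg_mem (hz 1)⟩, rfl⟩

end

end Pool.Agent.Tav.G3
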