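import Pool.Agent.P.MP_2ce3e7_ag.Tav.Stmt
import Pool.Agent.P.MP_2ce3e7_ag.Tav.HIdeal

/-! Saturated modules of functions have the same rank on both fibres. -/

set_option autoImplicit false

noncomputable section

namespace Pool.Agent.Tav.Gd

open Set Function Module Submodule
open scoped Pointwise

variable {R : ValuationSubring ℂ} {Ω : Type} [Field Ω] {r : R →+* Ω} {T : Type}

theorem flat_span {K A K' A' : Type} [CommRing K] [CommRing A] [Algebra K A] [CommRing K']
    [CommRing A'] [Algebra K' A'] (φ : A →+* A') (ρ : K →+* K')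
    (h : ∀ (c : K) (a : A), φ (c • a) = ρ c • φ a) (S : Set A) :
    span K' (φ '' (span K S : Set A)) = span K' (φ '' S) := by
  refine le_antisymm (span_le.2 ?_) (span_mono (image_mono subset_span))
  rintro _ ⟨a, ha, rfl⟩
  induction ha using span_induction with
  | mem a ha => exact subset_span ⟨a, ha, rfl⟩
  | zero => rw [map_zero]; exact zero_mem _
  | add a b _ _ ha hb => rw [map_add]; exact add_mem ha hb
  | smul c a _ ha => rw [h]; exact smul_mem _ _ ha

theorem flat_pow {K K' σ : Type} [CommRing K] [CommRing K'] (ρ : K →+* K') (x : T → σ → K)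
    (d : ℕ) : span K' (ρ.compLeft T '' (crd x ^ d : Submodule K (T → K))) =
      crd (fun t l => ρ (x t l)) ^ d := by
  rw [crd, crd, span_pow, flat_span (ρ.compLeft T) ρ fun c a => funext fun t => map_mul ρ c (a t),
    Set.image_pow, span_pow, ← range_comp]
  rfl

theorem flat_basis {K' ι : Type} [Field K'] [Fintype ι] (ρ : R →+* K') {M : Submodule R (T → R)}
    (b : Basis ι R M) (h : LinearIndependent K' fun i => ρ.compLeft T (b i)) :
    finrank K' (span K' (ρ.compLeft T '' (M : Set (T → R)))) = Fintype.card ι := by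
  have e : M = span R (range fun i => (b i : T → R)) := by
    have := congrArg (Submodule.map M.subtype) b.span_eq
    rw [map_span, ← range_comp, Submodule.map_top, range_subtype] at this
    exact this.symm
  rw [← finrank_span_eq_card h]
  conv_lhs => rw [e]
  rw [flat_span (ρ.compLeft T) ρ fun c a => funext fun t => map_mul ρ c (a t), ← range_comp]
  rfl

theorem flat_rank (hr : Surjective r) {M : Submodule R (T → R)} (hfg : M.FG)
    (hs : ∀ w ∈ M, (∀ t, ¬ IsUnit (w t)) → w ∈ IsLocalRing.maximalIdeal R • M) :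
    finrank Ω (span Ω (r.compLeft T '' (M : Set (T → R)))) =
      finrank ℂ (span ℂ (R.subtype.compLeft T '' (M : Set (T → R)))) := by
  have : Module.Finite R M := Module.Finite.iff_fg.2 hfg
  have : Module.Flat R M := Module.Flat.flat_iff_torsion_eq_bot_of_isBezout.2 (by
    rw [eq_bot_iff]
    rintro w ⟨⟨c, hc⟩, hw⟩
    refine Subtype.ext (funext fun t => ?_)
    exact (mul_eq_zero.1 (congrFun (congrArg Subtype.val hw) t)).resolve_left
      (nonZeroDivisors.ne_zero hc))
  have : Module.Free R M := Module.free_of_flat_of_isLocalRing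
  let b := Module.finBasis R M
  have hk : RingHom.ker r = IsLocalRing.maximalIdeal R :=
    IsLocalRing.eq_maximalIdeal (RingHom.ker_isMaximal_of_surjective r hr)
  rw [flat_basis r b, flat_basis R.subtype b]
  · rw [← LinearIndependent.iff_fractionRing R ℂ]
    let F : M →ₗ[R] (T → ℂ) := ((Algebra.linearMap R ℂ).compLeft T).comp M.subtype
    exact b.linearIndependent.map' F (LinearMap.ker_eq_bot.2 fun u w h =>
      Subtype.ext (funext fun t => Subtype.ext (congrFun h t)))
  · rw [Fintype.linearIndependent_iff]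
    intro g hg i
    choose a ha using fun i => hr (g i)
    have h1 : ∑ i, a i • b i ∈ IsLocalRing.maximalIdeal R • (⊤ : Submodule R M) := by
      rw [mem_smul_top_iff]
      refine hs _ (Subtype.prop _) fun t => ?_
      rw [← mem_nonunits_iff, ← IsLocalRing.mem_maximalIdeal, ← hk, RingHom.mem_ker]
      have := congrFun hg t
      simp only [← ha, Finset.sum_apply, Pi.smul_apply, smul_eq_mul, Pi.zero_apply] at this
      simp only [Submodule.coe_sum, Submodule.coe_smul, Finset.sum_apply, Pi.smul_apply,
        smul_eq_mul, map_sum, map_mul]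
      exact this
    have h2 : ∀ y ∈ IsLocalRing.maximalIdeal R • (⊤ : Submodule R M),
        b.repr y i ∈ IsLocalRing.maximalIdeal R := fun y hy => by
      refine smul_induction_on hy (fun c hc n _ => ?_) fun y z hy hz => ?_
      · rw [map_smul]
        exact Ideal.mul_mem_right _ _ hc
      · rw [map_add]
        exact add_mem hy hz
    have h3 := h2 _ h1
    rw [b.repr_sum_self, ← hk, RingHom.mem_ker] at h3
    exact (ha i).symm.trans h3

theorem flat_par {B σ : Type} {p : B → σ → Ω} {y : T → σ → Ω} {red : T → B} (h : Surjective red)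
    (hp : ∀ t, Par (p (red t)) (y t)) (d : ℕ) :
    finrank Ω (crd p ^ d :) = finrank Ω (crd y ^ d :) := by
  choose c hc e using hp
  let ψ : (B → Ω) →ₐ[Ω] (T → Ω) := AlgHom.pi fun t => Pi.evalAlgHom Ω (fun _ : B => Ω) (red t)
  have hψ : Injective ψ.toLinearMap := fun u w huw => funext fun b => by
    obtain ⟨t, rfl⟩ := h b
    exact congrFun huw t
  have e1 : (crd p).map ψ.toLinearMap = span Ω {c} * crd y := by
    rw [crd, crd, map_span, span_mul_span, singleton_mul, ← range_comp, ← range_comp]
    congr 2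
    funext l t
    exact congrFun (e t) l
  have e2 : span Ω {c ^ d} * crd y ^ d = (crd y ^ d).map (LinearMap.mulLeft Ω (c ^ d)) := by
    ext x
    rw [mem_span_singleton_mul, mem_map]
    rfl
  rw [(equivMapOfInjective _ hψ (crd p ^ d)).finrank_eq, Submodule.map_pow, e1, mul_pow, span_pow,
    singleton_pow, e2]
  refine (equivMapOfInjective _ (fun u w huw => funext fun t => ?_) _).finrank_eq.symm
  exact mul_left_cancel₀ (pow_ne_zero d (hc t).ne_zero) (congrFun huw t)

theorem flat_poly {K A : Type} [Field K] [CommRing A] [Algebra K A] (L : Submodule K A)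
    [FiniteDimensional K L] : ∃ P : Polynomial ℚ, ∀ᶠ d : ℕ in Filter.atTop,
      P.eval (d : ℚ) = finrank K (L ^ d :) := by
  obtain ⟨P, N, hP⟩ := exists_evP_hf fun _ : Unit => L
  refine ⟨MvPolynomial.aeval (fun _ => Polynomial.X) P, Filter.eventually_atTop.2
    ⟨N, fun d hd => ?_⟩⟩
  have h := hP (fun _ => d) fun _ => hd
  have e : (∏ _i : Unit, L ^ d) = L ^ d := Fintype.prod_unique _
  simp only [hf] at h
  rw [e] at h
  rw [← h, ← Polynomial.coe_aeval_eq_eval, ← AlgHom.comp_apply, MvPolynomial.comp_aeval]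
  simp only [Polynomial.aeval_X]
  rfl

/-- saturation in degree `d` gives equal ranks in degree `d` -/
theorem flat_at (hr : Surjective r) {B σ : Type} [Finite σ] (x : T → σ → R) {p : B → σ → Ω}
    {red : T → B} (h : Surjective red) (hp : ∀ t, Par (p (red t)) fun l => r (x t l)) {d : ℕ}
    (hs : ∀ w ∈ crd x ^ d, (∀ t, ¬ IsUnit (w t)) → w ∈ IsLocalRing.maximalIdeal R • crd x ^ d) :
    finrank Ω (crd p ^ d :) = finrank ℂ ((crd fun v l => (x v l : ℂ)) ^ d :) := by
  have := flat_rank hr ((fg_span (finite_range _)).pow d) hs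
  rw [flat_par h hp, ← flat_pow r x]
  exact this.trans (congrArg (fun U : Submodule ℂ (T → ℂ) => finrank ℂ U)
    (flat_pow R.subtype x _))

/-- saturation in the degrees `4 ^ k` gives equal Hilbert functions in large degrees -/
theorem flat_ev (hr : Surjective r) {B σ : Type} [Finite σ] (x : T → σ → R) {p : B → σ → Ω}
    {red : T → B} (h : Surjective red) (hp : ∀ t, Par (p (red t)) fun l => r (x t l))
    (hs : ∀ k : ℕ, ∀ w ∈ crd x ^ 4 ^ k, (∀ t, ¬ IsUnit (w t)) →
      w ∈ IsLocalRing.maximalIdeal R • crd x ^ 4 ^ k) :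
    ∀ᶠ d : ℕ in Filter.atTop, finrank Ω (crd p ^ d :) =
      finrank ℂ ((crd fun v l => (x v l : ℂ)) ^ d :) := by
  have : FiniteDimensional Ω (crd p) := FiniteDimensional.span_of_finite Ω (finite_range _)
  have : FiniteDimensional ℂ (crd fun v l => (x v l : ℂ)) :=
    FiniteDimensional.span_of_finite ℂ (finite_range _)
  obtain ⟨P, hP⟩ := flat_poly (crd p)
  obtain ⟨Q, hQ⟩ := flat_poly (crd fun v l => (x v l : ℂ))
  have key := fun k : ℕ => flat_at hr x h hp (hs k)
  have e : P = Q := by
    obtain ⟨N, hN⟩ := Filter.eventually_atTop.1 (hP.and hQ)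
    refine Polynomial.eq_of_infinite_eval_eq P Q (Set.infinite_of_injective_forall_mem
      (f := fun k : ℕ => ((4 ^ (k + N) : ℕ) : ℚ)) (fun a b hab => ?_) fun k => ?_)
    · have := Nat.pow_right_injective (by norm_num : 2 ≤ 4) (Nat.cast_injective hab)
      omega
    · obtain ⟨h1, h2⟩ := hN (4 ^ (k + N))
        ((Nat.le_add_left N k).trans (Nat.lt_pow_self (by norm_num)).le)
      show P.eval _ = Q.eval _
      rw [h1, h2, key]
  filter_upwards [hP, hQ] with d h1 h2
  exact_mod_cast h1.symm.trans (e ▸ h2)

end Pool.Agent.Tav.Gd
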