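import Pool.Agent.P.MP_2ce3e7_ag.Tav.GrGen
import Pool.Agent.P.MP_2ce3e7_ag.Tav.GrNrm
import Pool.Agent.P.MP_2ce3e7_ag.Tav.GrVer
import Pool.Agent.P.MP_2ce3e7_ag.Tav.GrFlat
import Pool.Agent.P.MP_2ce3e7_ag.Tav.CuB
import Pool.Agent.P.MP_2ce3e7_ag.Tav.CuSat

/-! The law of bidegree (2,2) over the valuation ring, after a Veronese re-embedding. -/

set_option autoImplicit false

noncomputable section

namespace Pool.Agent.Tav.G3

open Set Function Module Pool.Agent.Tav.Cu Pool.Agent.Tav.Ver

section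
variable {K T : Type} [Field K] {L : Submodule K (T → K)}

/-- `f` is a form of degree `k` after multiplication by all forms of some degree -/
def Den (L : Submodule K (T → K)) (k : ℕ) (f : T → K) : Prop :=
  ∃ e, ∀ u ∈ L ^ e, u * f ∈ L ^ (e + k)

theorem Den.of_mem {k : ℕ} {f : T → K} (h : f ∈ L ^ k) : Den L k f :=
  ⟨0, fun _ hu => mul_mem_pow hu h⟩

theorem Den.mul {k l : ℕ} {f g : T → K} (hf : Den L k f) (hg : Den L l g) :
    Den L (k + l) (f * g) := by
  obtain ⟨a, ha⟩ := hf
  obtain ⟨b, hb⟩ := hg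
  refine ⟨a + b, fun u hu => ?_⟩
  rw [pow_add] at hu
  refine Submodule.mul_induction_on hu (fun u hu w hw => ?_) fun u w hu hw => ?_
  · exact mem_pow_congr (mul_mem_pow (ha u hu) (hb w hw)) (by ring) (by ring)
  · rw [add_mul]; exact add_mem hu hw

theorem Den.prod {ι : Type} (s : Finset ι) {k : ℕ} {f : ι → T → K} (h : ∀ i, Den L k (f i)) :
    Den L (s.card * k) (∏ i ∈ s, f i) := by
  classical
  induction s using Finset.induction_on with
  | empty => simpa using Den.of_mem (one_mem_pow L)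
  | insert a s ha ih =>
    rw [Finset.prod_insert ha, Finset.card_insert_of_notMem ha, add_mul, one_mul, add_comm]
    exact (h a).mul ih

theorem Den.smul {k : ℕ} {f : T → K} (hf : Den L k f) (c : K) : Den L k (c • f) :=
  hf.imp fun _ h u hu => by rw [mul_smul_comm]; exact Submodule.smul_mem _ c (h u hu)

theorem Den.gam (hn : Nv L) {k : ℕ} {f : T → K} (hf : Den L k f) : f ∈ Gam L k :=
  let ⟨e, h⟩ := hf
  mem_Gam_of_mul le_rfl (hn.pow e) h

/-- it is enough to test the generators -/
theorem Den.of_crd {σ : Type} {p : T → σ → K} {k : ℕ} {f : T → K}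
    (h : ∀ l, (fun t => p t l) * f ∈ crd p ^ (1 + k)) : Den (crd p) k f := by
  refine ⟨1, fun u hu => ?_⟩
  rw [pow_one] at hu
  induction hu using Submodule.span_induction with
  | mem _ hu => obtain ⟨l, rfl⟩ := hu; exact h l
  | zero => rw [zero_mul]; exact zero_mem _
  | add a b _ _ ha hb => rw [add_mul]; exact add_mem ha hb
  | smul c a _ ha => rw [smul_mul_assoc]; exact Submodule.smul_mem _ c ha

theorem scale {σ : Type} {φ y : T → σ → K} {μ : T → K} (h : ∀ t l, φ t l = μ t * y t l) {d : ℕ}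
    {u : T → K} (hu : u ∈ crd y ^ d) : μ ^ d * u ∈ crd φ ^ d := by
  have := chart_pow (L := crd φ) (M := crd y) (j := fun t => t) (e := 1) (c := μ) (fun u hu => by
    rw [pow_one]
    induction hu using Submodule.span_induction with
    | mem _ hu =>
      obtain ⟨l, rfl⟩ := hu
      exact Submodule.subset_span ⟨l, funext fun t => h t l⟩
    | zero => exact (mul_zero μ).symm ▸ zero_mem _
    | add a b _ _ ha hb => exact (mul_add μ a b).symm ▸ add_mem ha hb
    | smul c a _ ha => exact (mul_smul_comm c μ a).symm ▸ Submodule.smul_mem _ c ha) d u hu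
  rwa [one_mul] at this

theorem Den.scale {σ : Type} {φ y : T → σ → K} {μ : T → K} (h : ∀ t l, φ t l = μ t * y t l)
    (h0 : ∀ t, μ t ≠ 0) {k : ℕ} {f : T → K} (hf : Den (crd φ) k f) :
    Den (crd y) k (μ⁻¹ ^ k * f) := hf.imp fun e he u hu =>
  mem_pow_congr (G3.scale (φ := y) (μ := μ⁻¹) (fun t l => by
    rw [h, Pi.inv_apply, inv_mul_cancel_left₀ (h0 t)]) (he _ (G3.scale h hu))) rfl
    (funext fun t => by
      have := h0 t
      simp only [Pi.mul_apply, Pi.pow_apply, Pi.inv_apply, pow_add, inv_pow]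
      field_simp)

theorem dm_scale {σ : Type} {φ y : T → σ → K} {μ : T → K} (h : ∀ t l, φ t l = μ t * y t l)
    (h0 : ∀ t, μ t ≠ 0) (hd : Dm (crd φ)) : Dm (crd y) := fun a b f hf g hg e => by
  have key : ∀ (d : ℕ) (u : T → K), μ ^ d * u = 0 → u = 0 := fun d u hu => funext fun t =>
    (mul_eq_zero.1 (congrFun hu t)).resolve_left (pow_ne_zero d (h0 t))
  exact (hd a b _ (scale h hf) _ (scale h hg) (by rw [mul_mul_mul_comm, e, mul_zero])).imp
    (key _ _) (key _ _)

theorem slices {σ : Type} {φ : T → σ → K} {a b : ℕ} {F : T × T → K}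
    (h : F ∈ (crd fun t : T × T => φ t.1) ^ a * (crd fun t : T × T => φ t.2) ^ b) (s : T) :
    (fun t => F (t, s)) ∈ crd φ ^ a ∧ (fun t => F (s, t)) ∈ crd φ ^ b := by
  rw [← Tr.map_crd Prod.fst φ, ← Tr.map_crd Prod.snd φ, ← Submodule.map_pow,
    ← Submodule.map_pow] at h
  exact ⟨box_left h s, box_right h s⟩

/-- spaces of functions of each level -/
theorem den_of_lev {Lev : ℕ → Submodule K (T → K)} (mul : ∀ a b, Lev a * Lev b ≤ Lev (a + b))
    (one : L ≤ Lev 1) (ball : ∀ N, ∃ d, N ≤ d ∧ Lev d ≤ L ^ d) {k : ℕ} {f : T → K}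
    (hf : f ∈ Lev k) : Den L k f := by
  have h1 : ∀ e, L ^ (e + 1) ≤ Lev (e + 1) := fun e => by
    induction e with
    | zero => rwa [zero_add, pow_one]
    | succ e ih => rw [pow_succ]; exact (mul_le_mul' ih one).trans (mul _ _)
  obtain ⟨d, hd, h⟩ := ball (1 + k)
  obtain ⟨e, rfl⟩ := Nat.exists_eq_add_of_le' hd
  rw [← add_assoc] at h
  exact ⟨e + 1, fun u hu => h (mul _ _ (Submodule.mul_mem_mul (h1 e hu) hf))⟩

theorem sat_den (hL : L.FG) (hn : Nv L) (hd : Dm L) :
    ∃ k₀, ∀ k, k₀ ≤ k → ∀ f, Den L k f → f ∈ L ^ k := by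
  rcases isEmpty_or_nonempty T with hT | ⟨⟨t⟩⟩
  · exact ⟨0, fun k _ f _ => Subsingleton.elim 0 f ▸ Submodule.zero_mem _⟩
  obtain ⟨y, hy, h0⟩ := hn t
  have hy0 : y ≠ 0 := fun e => h0 (congrFun e t)
  have hy1 : y ∈ L ^ 1 := by rwa [pow_one]
  obtain ⟨k₀, hk⟩ := (gi_mlt hy).sat_le hL
  have key : ∀ N k, k₀ ≤ k → ∀ f, Den L k f → y ^ N * f ∈ L ^ (N + k) → f ∈ L ^ k := by
    intro N
    induction N with
    | zero => intro k _ f _ h; simpa using h
    | succ N ih =>
      intro k h1 f hf h
      have h2 : Den L (k + 1) (y * f) := add_comm 1 k ▸ (Den.of_mem hy1).mul hf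
      have h3 := ih (k + 1) (by omega) _ h2 (mem_pow_congr h (by ring) (by ring))
      have hg := hf.gam hn
      obtain ⟨M, hM⟩ := hf
      obtain ⟨c, hc1, hc2⟩ := hk (k + 1) (by omega) ((gi_mlt hy).mem_sat.2
        ⟨M, h3, fun g hg => ⟨g * f, hM g hg, mul_left_comm y g f⟩⟩)
      have h4 : y * (f - c) = 0 := by rw [mul_sub, sub_eq_zero]; exact hc2.symm
      rcases hd.gam (pow_le_Gam L 1 hy1) (Submodule.sub_mem _ hg (pow_le_Gam L k hc1)) h4
        with h5 | h5
      · exact absurd h5 hy0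
      · rwa [sub_eq_zero.1 h5]
  refine ⟨k₀, fun k h1 f hf => ?_⟩
  obtain ⟨N, hN⟩ := id hf
  exact key N k h1 f hf (hN _ (Submodule.pow_mem_pow _ hy N))

end

section
variable {K Ω T : Type} [Field K] [Field Ω] {R : ValuationSubring K} {r : R →+* Ω}

/-- coefficients with respect to a family with independent reduction are bounded by the values -/
theorem coef_le (hr : Surjective r) {ι : Type} [Fintype ι] {b : ι → T → R}
    (hb : LinearIndependent Ω fun i t => r (b i t)) {a : ι → K} {γ : R.ValueGroup}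
    (h : ∀ t, R.valuation (∑ i, a i * b i t) ≤ γ) (i : ι) : R.valuation (a i) ≤ γ := by
  have : Nonempty ι := ⟨i⟩
  obtain ⟨j, hj⟩ := Finite.exists_max fun i => R.valuation (a i)
  refine (hj i).trans (le_of_not_gt fun hl => ?_)
  have h0 : 0 < R.valuation (a j) := zero_le.trans_lt hl
  have h1 : a j ≠ 0 := fun e => by simp [e] at h0
  have hk : RingHom.ker r = IsLocalRing.maximalIdeal R :=
    IsLocalRing.eq_maximalIdeal (RingHom.ker_isMaximal_of_surjective r hr)
  let c : ι → R := fun i => ⟨a i / a j, (R.valuation_le_one_iff _).1 (by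
    rw [map_div₀, div_le_one₀ h0]; exact hj i)⟩
  have h2 := Fintype.linearIndependent_iff.1 hb (fun i => r (c i)) (funext fun t => by
    have h3 : (∑ i, c i * b i t) ∈ RingHom.ker r := by
      rw [hk, R.valuation_lt_one_iff]
      have : ((∑ i, c i * b i t : R) : K) = (∑ i, a i * b i t) / a j := by
        rw [Finset.sum_div]
        push_cast
        exact Finset.sum_congr rfl fun i _ => div_mul_eq_mul_div _ _ _
      rw [this, map_div₀, div_lt_one₀ h0]
      exact (h t).trans_lt hl
    simpa using h3) j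
  have h3 : c j = 1 := Subtype.ext (div_self h1)
  rw [h3, map_one] at h2
  exact one_ne_zero h2

theorem exists_bas (hr : Surjective r) (M : Submodule R (T → R))
    {U : Submodule K (T → K)} {W : Submodule Ω (T → Ω)} [FiniteDimensional K U]
    [FiniteDimensional Ω W] (hU : Submodule.span K (R.subtype.compLeft T '' M) = U)
    (hW : Submodule.span Ω (r.compLeft T '' M) = W) (e : finrank Ω W = finrank K U) :
    ∃ (ι : Type) (_ : Fintype ι) (b : ι → T → R), (∀ i, b i ∈ M) ∧
      LinearIndependent Ω (fun i t => r (b i t)) ∧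
      Submodule.span K (range fun i t => (b i t : K)) = U := by
  obtain ⟨s, h1, h2, h3⟩ := exists_linearIndependent Ω (r.compLeft T '' (M : Set (T → R)))
  rw [hW] at h2
  have h4 : Finite s := by
    have : Module.Finite Ω (Submodule.span Ω (range (Subtype.val : s → T → Ω))) := by
      rwa [Subtype.range_coe, h2]
    exact (linearIndependent_span h3).finite_of_isNoetherian
  have := Fintype.ofFinite s
  choose b hb eb using fun i : s => h1 i.2
  have h5 : LinearIndependent Ω fun i t => r (b i t) := by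
    have : (fun i t => r (b i t)) = fun i : s => (i : T → Ω) := funext eb
    rw [this]
    exact h3
  have h6 : LinearIndependent K fun i t => (b i t : K) :=
    Fintype.linearIndependent_iff.2 fun a ha i => by
      have := coef_le hr h5 (a := a) (γ := 0) (fun t => by
        have := congrFun ha t
        simp only [Finset.sum_apply, Pi.smul_apply, smul_eq_mul, Pi.zero_apply] at this
        rw [this, map_zero]) i
      rwa [le_zero_iff, map_eq_zero] at this
  refine ⟨s, this, b, hb, h5, Submodule.eq_of_le_of_finrank_eq ?_ ?_⟩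
  · rw [← hU]
    exact Submodule.span_mono (range_subset_iff.2 fun i => ⟨b i, hb i, rfl⟩)
  · rw [finrank_span_eq_card h6, ← e, ← h2, ← finrank_span_eq_card h3, Subtype.range_coe]

/-- an integral function whose slices are forms is an integral form -/
theorem int_box (hr : Surjective r) (M : Submodule R (T → R))
    {U : Submodule K (T → K)} {W : Submodule Ω (T → Ω)} [FiniteDimensional K U]
    [FiniteDimensional Ω W] (hU : Submodule.span K (R.subtype.compLeft T '' M) = U)
    (hW : Submodule.span Ω (r.compLeft T '' M) = W) (e : finrank Ω W = finrank K U)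
    {F : T × T → R} (h1 : ∀ w, (fun v => (F (v, w) : K)) ∈ U)
    (h2 : ∀ v, (fun w => (F (v, w) : K)) ∈ U) :
    F ∈ M.map (Tr.pb R Prod.fst).toLinearMap * M.map (Tr.pb R Prod.snd).toLinearMap := by
  obtain ⟨ι, _, b, hb, hi, rfl⟩ := exists_bas hr M hU hW e
  obtain ⟨a, ha⟩ := box_induction (p := fun F => ∃ a : ι → ι → K, ∀ t,
      F t = ∑ i, (∑ j, a i j * b j t.2) * b i t.1)
    (box_of_slices (f := fun t => (F t : K)) h1 h2) (fun u hu w hw => by
      obtain ⟨α, rfl⟩ := (Submodule.mem_span_range_iff_exists_fun K).1 hu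
      obtain ⟨β, rfl⟩ := (Submodule.mem_span_range_iff_exists_fun K).1 hw
      refine ⟨fun i j => α i * β j, fun t => ?_⟩
      simp only [Finset.sum_apply, Pi.smul_apply, smul_eq_mul, mul_assoc, ← Finset.mul_sum]
      rw [Finset.sum_mul]
      exact Finset.sum_congr rfl fun i _ => by ring) (by
      rintro F G ⟨a, ha⟩ ⟨c, hc⟩
      refine ⟨a + c, fun t => ?_⟩
      simp only [Pi.add_apply, ha, hc, add_mul, Finset.sum_add_distrib])
  have h3 : ∀ i j, a i j ∈ R := fun i j => (R.valuation_le_one_iff _).1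
    (coef_le hr hi (fun w => coef_le hr hi (a := fun i => ∑ j, a i j * b j w) (fun v => by
      rw [← ha (v, w)]; exact R.valuation_le_one _) i) j)
  have h4 : F = ∑ i, ∑ j, (⟨a i j, h3 i j⟩ : R) •
      (Tr.pb R Prod.fst (b i) * Tr.pb R Prod.snd (b j)) := by
    funext t
    refine Subtype.ext ((ha t).trans ?_)
    simp only [Finset.sum_apply, Pi.smul_apply, smul_eq_mul, Pi.mul_apply, Tr.pb_apply,
      Finset.sum_mul]
    push_cast
    exact Finset.sum_congr rfl fun i _ => Finset.sum_congr rfl fun j _ => by ring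
  rw [h4]
  exact sum_mem fun i _ => sum_mem fun j _ => Submodule.smul_mem _ _
    (Submodule.mul_mem_mul ⟨_, hb i, rfl⟩ ⟨_, hb j, rfl⟩)

variable {G σ : Type} [AddCommGroup G] [Finite σ] {x : G → σ → R}

/-- LAW22 -/
theorem law22 (hr : Surjective r) (prim : ∀ v, ∃ l, IsUnit (x v l))
    (dom : Dm (crd fun v l => (x v l : K)))
    (flat : ∀ N, ∃ d, N ≤ d ∧ finrank Ω ((crd fun v l => r (x v l)) ^ d :) =
      finrank K ((crd fun v l => (x v l : K)) ^ d :))
    {c : G × G → R} (hc : ∀ t, IsUnit (c t))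
    (h1 : ∀ i j w, Den (crd fun v l => (x v l : K)) 2
      fun v => c (v, w) * (x (v + w) i * x (v - w) j))
    (h2 : ∀ i j v, Den (crd fun v l => (x v l : K)) 2
      fun w => c (v, w) * (x (v + w) i * x (v - w) j)) :
    ∃ m₀, ∀ m, m₀ ≤ m → Gn.Law fun v => ver m (x v) := by
  have hfg : (crd fun v l => (x v l : K)).FG := Submodule.fg_span (finite_range _)
  have hfg' : (crd fun v l => r (x v l)).FG := Submodule.fg_span (finite_range _)
  obtain ⟨k, hk⟩ := sat_den hfg (fun v => by
    obtain ⟨l, hl⟩ := prim v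
    exact ⟨_, Submodule.subset_span ⟨l, rfl⟩, fun e => hl.ne_zero (Subtype.ext e)⟩) dom
  obtain ⟨N, hN⟩ := flat_large _ _ flat
  refine ⟨k + N, fun m hm => ⟨c ^ m, fun t => (hc t).pow m, fun I J => ?_⟩⟩
  have := fg_pow hfg (m * 2)
  have := fg_pow hfg' (m * 2)
  rw [crd_ver m fun t : G × G => x t.1, crd_ver m fun t : G × G => x t.2, ← pow_mul, ← pow_mul,
    ← Tr.map_crd Prod.fst x, ← Tr.map_crd Prod.snd x, ← Submodule.map_pow, ← Submodule.map_pow]
  have e : ∀ v w, (((c ^ m * fun t : G × G => ver m (x (t.1 + t.2)) I * ver m (x (t.1 - t.2)) J)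
      (v, w) : R) : K) = ∏ s, (c (v, w) * (x (v + w) (I s) * x (v - w) (J s)) : K) := by
    intro v w
    simp [ver, Finset.prod_mul_distrib]
  refine int_box hr _ (U := (crd fun v l => (x v l : K)) ^ (m * 2)) (Gd.flat_pow R.subtype x _)
    (Gd.flat_pow r x _) (hN _ (by omega)) (fun w => ?_) fun v => ?_
  · have := Den.prod Finset.univ fun s : Fin m => h1 (I s) (J s) w
    rw [Finset.card_univ, Fintype.card_fin] at this
    exact mem_pow_congr (hk _ (by omega) _ this) rfl (funext fun v => by rw [e, Finset.prod_apply])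
  · have := Den.prod Finset.univ fun s : Fin m => h2 (I s) (J s) v
    rw [Finset.card_univ, Fintype.card_fin] at this
    exact mem_pow_congr (hk _ (by omega) _ this) rfl (funext fun w => by rw [e, Finset.prod_apply])

variable {φ : G → σ → K} {n : G → K}

/-- LAW22 for coordinates `φ = n x` -/
theorem law22_nm (hr : Surjective r) (hN : Nrm.Nm φ n x) (dom : Dm (crd φ))
    (flat : ∀ N, ∃ d, N ≤ d ∧ finrank Ω ((crd fun v l => r (x v l)) ^ d :) =
      finrank K ((crd fun v l => (x v l : K)) ^ d :))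
    (quad : ∀ s t, R.valuation (n (s + t)) * R.valuation (n (s - t)) =
      R.valuation (n s) ^ 2 * R.valuation (n t) ^ 2)
    (h1 : ∀ i j w, Den (crd φ) 2 fun v => φ (v + w) i * φ (v - w) j)
    (h2 : ∀ i j v, Den (crd φ) 2 fun w => φ (v + w) i * φ (v - w) j) :
    ∃ m₀, ∀ m, m₀ ≤ m → Gn.Law fun v => ver m (x v) := by
  have hv : ∀ t : G × G,
      R.valuation (n (t.1 + t.2) * n (t.1 - t.2) / (n t.1 ^ 2 * n t.2 ^ 2)) = 1 := fun t => by
    rw [map_div₀, map_mul, map_mul, map_pow, map_pow, quad]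
    exact div_self (by simp [hN.ne])
  refine law22 hr hN.prim (dm_scale hN.eq hN.ne dom) flat
    (c := fun t => ⟨_, (R.valuation_le_one_iff _).1 (hv t).le⟩)
    (fun t => (R.valuation_eq_one_iff _).2 (hv t)) (fun i j w => ?_) fun i j v => ?_
  · refine (congrArg (Den _ 2) (funext fun v => ?_)).mp
      (((h1 i j w).scale hN.eq hN.ne).smul (n w ^ 2)⁻¹)
    simp only [Pi.smul_apply, Pi.mul_apply, Pi.pow_apply, Pi.inv_apply, smul_eq_mul, hN.eq]
    ring
  · refine (congrArg (Den _ 2) (funext fun w => ?_)).mp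
      (((h2 i j v).scale hN.eq hN.ne).smul (n v ^ 2)⁻¹)
    simp only [Pi.smul_apply, Pi.mul_apply, Pi.pow_apply, Pi.inv_apply, smul_eq_mul, hN.eq]
    ring

/-- LAW22 from a law of bidegree (3,3) over the field -/
theorem law22_of_33 (hr : Surjective r) (hN : Nrm.Nm φ n x) (dom : Dm (crd φ))
    (flat : ∀ N, ∃ d, N ≤ d ∧ finrank Ω ((crd fun v l => r (x v l)) ^ d :) =
      finrank K ((crd fun v l => (x v l : K)) ^ d :))
    (quad : ∀ s t, R.valuation (n (s + t)) * R.valuation (n (s - t)) =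
      R.valuation (n s) ^ 2 * R.valuation (n t) ^ 2)
    (law : ∀ i j a b, (fun t : G × G => φ (t.1 + t.2) i * φ (t.1 - t.2) j * (φ t.1 a * φ t.2 b)) ∈
      (crd fun t : G × G => φ t.1) ^ 3 * (crd fun t : G × G => φ t.2) ^ 3) :
    ∃ m₀, ∀ m, m₀ ≤ m → Gn.Law fun v => ver m (x v) := by
  have h0 : ∀ v, ∃ l, φ v l ≠ 0 := fun v => (hN.prim v).imp fun l hl => by
    rw [hN.eq]
    exact mul_ne_zero (hN.ne v) fun e => hl.ne_zero (Subtype.ext e)
  refine law22_nm hr hN dom flat quad (fun i j w => Den.of_crd fun a => ?_)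
    fun i j v => Den.of_crd fun b => ?_
  · obtain ⟨b, hb⟩ := h0 w
    refine mem_pow_congr (Submodule.smul_mem _ (φ w b)⁻¹ (slices (law i j a b) w).1) rfl
      (funext fun v => ?_)
    simp only [Pi.smul_apply, Pi.mul_apply, smul_eq_mul]
    field_simp
  · obtain ⟨a, ha⟩ := h0 v
    refine mem_pow_congr (Submodule.smul_mem _ (φ v a)⁻¹ (slices (law i j a b) v).2) rfl
      (funext fun w => ?_)
    simp only [Pi.smul_apply, Pi.mul_apply, smul_eq_mul]
    field_simp

end

/-- entire functions have no zero divisors -/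
theorem ent_dom {V : Type} [NormedAddCommGroup V] [NormedSpace ℂ V] {f g : V → ℂ}
    (hf : Differentiable ℂ f) (hg : Differentiable ℂ g) (h : f * g = 0) : f = 0 ∨ g = 0 := by
  by_contra hn
  rw [not_or] at hn
  obtain ⟨a, ha⟩ := Function.ne_iff.1 hn.1
  obtain ⟨b, hb⟩ := Function.ne_iff.1 hn.2
  have hl : Differentiable ℂ fun t : ℂ => a + t • (b - a) := by fun_prop
  rcases AnalyticOnNhd.eq_zero_or_eq_zero_of_mul_eq_zero
    ((hf.comp hl).differentiableOn.analyticOnNhd isOpen_univ)
    ((hg.comp hl).differentiableOn.analyticOnNhd isOpen_univ) (fun t _ => congrFun h _)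
    isPreconnected_univ with e | e
  · exact ha (by simpa using e 0 trivial)
  · exact hb (by simpa using e 1 trivial)

theorem dm_of_diff {V σ : Type} [NormedAddCommGroup V] [NormedSpace ℂ V] {φ : V → σ → ℂ}
    (h : ∀ l, Differentiable ℂ fun v => φ v l) : Dm (crd φ) := by
  have h1 : ∀ u ∈ crd φ, Differentiable ℂ u := fun u hu => by
    induction hu using Submodule.span_induction with
    | mem _ hu => obtain ⟨l, rfl⟩ := hu; exact h l
    | zero => exact differentiable_const 0
    | add a b _ _ ha hb => exact ha.add hb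
    | smul c a _ ha => exact ha.const_smul c
  have h2 : ∀ d, ∀ u ∈ crd φ ^ d, Differentiable ℂ u := fun d u hu => by
    induction hu using Submodule.pow_induction_on_left' with
    | algebraMap c => exact differentiable_const _
    | add a b _ _ _ ha hb => exact ha.add hb
    | mem_mul u hu _ a _ ha => exact (h1 u hu).mul ha
  exact fun a b f hf g hg => ent_dom (h2 a f hf) (h2 b g hg)

end Pool.Agent.Tav.G3
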