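import Pool.Agent.P.MP_2ce3e7_ag.Tav.GrRR
import Pool.Agent.P.MP_2ce3e7_ag.Tav.G3Ort

/-! Riemann relations over a valuation ring in which `3` is a unit. -/

set_option autoImplicit false

noncomputable section

namespace Pool.Agent.Tav.G3

open Complex Set Cmh
open Gd (ph U_U' val_card)
open GrLaw (multi prod_U span_comp scl mem_scl scl_le com_scl mem_du_scl)
open scoped Real ComplexConjugate

variable {ι : Type} [Fintype ι] [Om ι] {Λ M : Submodule ℤ (ι → ℂ)} {f : (ι → ℂ) → ℂ}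
  {R : ValuationSubring ℂ}

/-- interpolation at finitely many rational points -/
theorem interpR (hM : Un R.valuation M) (hf : f ∈ Tc M) {b : ι → ℂ} (hb : b ∈ QQ M)
    (h1 : R.valuation (U b f 0) = 1) : ∃ (n : ℕ) (l : Fin n → ι → ℂ) (k : Fin n → ℂ),
      IsReps (du M) M l ∧ (∀ a, R.valuation (k a) = 1) ∧
      ∀ h ∈ Tc M, ∀ x, h x = ∑ a, k a * U (b - l a) h 0 * U (l a) f x := by
  obtain ⟨n, l, hl⟩ := exists_reps hM.1.lat.du hM.1.lat hM.1.le_du
  obtain ⟨c, hc, H⟩ := ort hM.1 hl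
  obtain ⟨m, hm, hm'⟩ := hM.2
  have h2 : R.valuation c = 1 := by
    have : R.valuation c ^ 2 = 1 := by rw [← map_pow, hc, val_card _ hl hm hm']
    exact (pow_eq_one_iff_left two_ne_zero).1 this
  have h3 : c * U b f 0 ≠ 0 := fun e => by simpa [h1, h2] using congrArg R.valuation e
  refine ⟨n, l, fun a => (c * U b f 0)⁻¹ * ph (-l a) b, hl, fun a => ?_, fun h hh x => ?_⟩
  · rw [map_mul, map_inv₀, map_mul, h1, h2,
      val_ph _ hM.1 (neg_mem (hM.1.du_le_QQ (Com.refl M) (hl.1 a))) hb]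
    simp
  · have := congrFun (H (LinearMap.proj 0 ∘ₗ U b) f hf h hh) x
    simp only [LinearMap.comp_apply, LinearMap.proj_apply, U_U', Finset.sum_apply, Pi.smul_apply,
      smul_eq_mul] at this
    simp only [mul_assoc (c * U b f 0)⁻¹, ← Finset.mul_sum, sub_eq_add_neg]
    rw [this, inv_mul_cancel_left₀ h3]

/-- the Riemann relation for an isometry `Φ` that commutes with the cube roots of unity -/
theorem riemR {κ σ : Type} [Fintype κ] {n : ℕ} (hM : Un R.valuation M) (hc : Com M Λ) (hΛ : In Λ)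
    {f₀ : (ι → ℂ) → ℂ} (hf₀ : f₀ ∈ Tc M) {b : ι → ℂ} (hb : b ∈ QQ M)
    (h1 : R.valuation (U b f₀ 0) = 1)
    {g : σ → (ι → ℂ) → ℂ} (hg : ∀ ξ ∈ du M, ∃ l, ∃ u ∈ R, U ξ f₀ = u • g l)
    (hf : f ∈ Tc Λ) (hle : ∀ a ∈ QQ Λ, U a f 0 ∈ R)
    (Φ : (Fin n → ι → ℂ) →L[ℂ] (κ → ι → ℂ))
    (hΦ : ∀ x y, ∑ i, Hm (Φ x i) (Φ y i) = ∑ j, Hm (x j) (y j))
    (hom : ∀ x i, Φ (fun j => om * x j) i = om * Φ x i)
    (hQ : ∀ x, (∀ j, x j ∈ QQ Λ) → ∀ i, Φ x i ∈ QQ Λ) {w : κ → ι → ℂ} (hw : ∀ i, w i ∈ QQ Λ)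
    (hm : ∀ j, ∀ m ∈ M, (∀ i, Φ (Pi.single j m) i ∈ Λ) ∧
      ∃ k : ℤ, (∑ i, Hm (Φ (Pi.single j m) i) (w i)).im = k) :
    (fun x => ∏ i, U (w i) f (Φ x i)) ∈
      Submodule.span R (range fun (l : Fin n → σ) (x : Fin n → ι → ℂ) => ∏ j, g (l j) (x j)) := by
  obtain ⟨N, l, k, hl, hk, H⟩ := interpR hM hf₀ hb h1
  choose lab u hu hlab using fun a => hg _ (hl.1 a)
  have hp : ∀ a, b - l a ∈ QQ Λ := fun a =>
    hc.QQ ▸ sub_mem hb (hM.1.du_le_QQ (Com.refl M) (hl.1 a))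
  have key := multi (Tc M) (fun a x => k a * u a * cexp (-π * nq (b - l a) / 2) * g (lab a) x)
    (fun a => b - l a) (fun h hh x => by
      rw [H h hh x]
      refine Finset.sum_congr rfl fun a _ => ?_
      rw [hlab, U_apply, Hm_zero_left, zero_add, Pi.smul_apply, smul_eq_mul, mul_zero, zero_sub,
        neg_mul, neg_div]
      ring) (fun x => ∏ i, U (w i) f (Φ x i)) fun x j => by
    refine ⟨?_, fun m hmM => funext fun z => ?_⟩
    · classical
      refine fun z => (HasFDerivAt.finsetProd fun i _ =>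
        ((U_diff (w i) hf.1).comp ((differentiable_pi.1 Φ.differentiable i).comp
          (f := fun z => Function.update x j z) ?_) z).hasFDerivAt).differentiableAt
      refine differentiable_pi.2 fun j' => ?_
      by_cases e : j' = j
      · subst e; simp
      · simp [e]
    · obtain ⟨h2, t, ht⟩ := hm j m hmM
      have e1 : Function.update x j (z + m) = Function.update x j z + Pi.single j m := by
        ext1 j'
        by_cases e : j' = j
        · subst e; simp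
        · simp [e]
      have e2 := prod_U (Φ (Pi.single j m)) (Φ (Function.update x j z)) fun i => U (w i) f
      rw [hΦ, hΦ, Finset.sum_eq_single j (fun i _ e => by simp [e, Hm_zero_right]) (by simp),
        Finset.sum_eq_single j (fun i _ e => by simp [e, Hm_zero_right]) (by simp)] at e2
      simp only [Function.update_self, Pi.single_eq_same, Hm_self] at e2
      have e3 : ∏ i, chi (Φ (Pi.single j m) i) = chi m := by
        simp only [chi, ph, ← Complex.exp_sum, ← Finset.mul_sum, ← ofReal_sum, ← im_sum, ← hom, hΦ]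
        rw [Finset.sum_eq_single j (fun i _ e => by simp [e, Hm_zero_right]) (by simp),
          Pi.single_eq_same]
      rw [U_apply, e1, map_add]
      refine e2.symm.trans ?_
      simp only [U_comm (Φ (Pi.single j m) _), hf.2 _ (h2 _), map_smul, Pi.smul_apply, smul_eq_mul,
        Finset.prod_mul_distrib, ← Complex.exp_sum, ← Finset.mul_sum, ← ofReal_sum, ← im_sum, ht, e3]
      rw [show (-2 * π * I * ((t : ℝ) : ℂ) : ℂ) = (-t : ℤ) * (2 * π * I) by push_cast; ring,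
        Complex.exp_int_mul_two_pi_mul_I, one_mul]
  rw [funext key, ← Finset.sum_fn]
  refine Submodule.sum_mem _ fun a _ => ?_
  have h2 : (∏ j, k (a j) * u (a j)) * ∏ i, U (Φ (fun j => b - l (a j)) i) (U (w i) f) 0 ∈ R := by
    refine mul_mem (prod_mem fun j _ => mul_mem ((R.valuation_le_one_iff _).1 (hk _).le) (hu _))
      (prod_mem fun i _ => ?_)
    rw [U_U', Pi.smul_apply, smul_eq_mul]
    have hq := hQ _ (fun j => hp (a j)) i
    exact mul_mem ((R.valuation_le_one_iff _).1 (val_ph _ hΛ (hw i) hq).le)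
      (hle _ (add_mem hq (hw i)))
  refine mem_of_eq_of_mem (funext fun x => ?_) (Submodule.smul_mem _ (⟨_, h2⟩ : R)
    (Submodule.subset_span (mem_range_self fun j => lab (a j))))
  have e2 := prod_U (Φ fun j => b - l (a j)) 0 fun i => U (w i) f
  rw [hΦ] at e2
  simp only [Pi.zero_apply, Hm_zero_left, Finset.sum_const_zero, zero_add, Hm_self] at e2
  show _ = (_ * _) * ∏ j, g (lab (a j)) (x j)
  simp only [e2, Finset.prod_mul_distrib, ← Complex.exp_sum, ← Finset.sum_div, ← Finset.mul_sum]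
  rw [mul_zero, zero_sub, neg_mul, neg_div]
  ring

section Gk

omit [Fintype ι]

/-- the vectors that `la ^ k` maps into `N` -/
def Gk (k : ℕ) (N : Submodule ℤ (ι → ℂ)) : Submodule ℤ (ι → ℂ) :=
  N.comap (LinearMap.mulLeft ℤ (la ^ k))

lemma mem_Gk {k : ℕ} {x : ι → ℂ} : x ∈ Gk k M ↔ la ^ k * x ∈ M := Iff.rfl

lemma Gk_succ {k : ℕ} {x : ι → ℂ} : x ∈ Gk (k + 1) M ↔ la * x ∈ Gk k M := by
  rw [mem_Gk, mem_Gk, pow_succ, mul_assoc]

lemma Gk_one {x : ι → ℂ} : x ∈ Gk 1 M ↔ la * x ∈ M := by rw [mem_Gk, pow_one]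

lemma Gk_add_two {k : ℕ} {x : ι → ℂ} : x ∈ Gk (k + 2) M ↔ 3 • x ∈ Gk k M := by
  rw [Gk_succ, Gk_succ, la_la, neg_mem_iff]

lemma Gk_two {x : ι → ℂ} : x ∈ Gk 2 M ↔ 3 • x ∈ M := by
  rw [Gk_add_two (k := 0), mem_Gk, pow_zero, one_mul]

lemma Gk_four {x : ι → ℂ} : x ∈ Gk 4 M ↔ 9 • x ∈ M := by
  rw [Gk_add_two (k := 2), Gk_two, smul_smul]; rfl

lemma Gk_even (k : ℕ) {x : ι → ℂ} : x ∈ Gk (2 * k) M ↔ 3 ^ k • x ∈ M := by
  induction k generalizing x with
  | zero => simp [mem_Gk]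
  | succ k ih => rw [mul_add, mul_one, Gk_add_two, ih, smul_smul, pow_succ]

lemma St.Gk (h : St M) (k : ℕ) : St (Gk k M) := fun x hx => by
  rw [mem_Gk, mul_left_comm]; exact h _ hx

lemma St.Gk_mono (h : St M) {k l : ℕ} (hkl : k ≤ l) : G3.Gk k M ≤ G3.Gk l M := by
  induction hkl with
  | refl => exact le_rfl
  | step _ ih => exact fun x hx => Gk_succ.2 ((h.Gk _).la (ih hx))

lemma St.QQ_la (h : St M) {x : ι → ℂ} (hx : G3.la * x ∈ Cmh.QQ M) : x ∈ Cmh.QQ M := by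
  obtain ⟨n, hn, h1⟩ := h.QQ.la hx
  rw [la_la, smul_neg, neg_mem_iff, smul_smul] at h1
  exact ⟨n * 3, by omega, h1⟩

/-- the multiple of a lattice by `la` -/
def sl (N : Submodule ℤ (ι → ℂ)) : Submodule ℤ (ι → ℂ) := N.map (LinearMap.mulLeft ℤ la)

lemma St.sl_le (h : St M) : sl M ≤ M := by
  rintro _ ⟨y, hy, rfl⟩
  exact h.la hy

lemma St.sl (h : St M) : St (sl M) := by
  rintro _ ⟨y, hy, rfl⟩
  exact ⟨_, h y hy, mul_left_comm _ _ _⟩

lemma St.three_sl (h : St M) {x : ι → ℂ} (hx : x ∈ M) : 3 • x ∈ G3.sl M :=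
  ⟨-(G3.la * x), neg_mem (h.la hx), by
    rw [LinearMap.mulLeft_apply, mul_neg, la_la, neg_neg]⟩

lemma St.com_sl (h : St M) : Com (G3.sl M) M :=
  ⟨3, three_ne_zero, fun _ hx => nsmul_mem (h.sl_le hx) 3, fun _ hx => h.three_sl hx⟩

end Gk

lemma du_sl : du (sl M) = Gk 1 (du M) := by
  ext x
  rw [Gk_one]
  constructor
  · intro h m hm
    obtain ⟨k, hk⟩ := h _ ⟨m, hm, rfl⟩
    exact ⟨-k, by rw [Hm_la, neg_im, Int.cast_neg, ← hk]; rfl⟩
  · rintro h _ ⟨y, hy, rfl⟩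
    obtain ⟨k, hk⟩ := h y hy
    rw [Hm_la, neg_im] at hk
    exact ⟨-k, by rw [Int.cast_neg, ← hk, neg_neg]; rfl⟩

lemma In.Gk_QQ (h : In M) (k : ℕ) : Gk k (du M) ≤ QQ M := by
  induction k with
  | zero => exact fun x hx => h.du_le_QQ (Com.refl M) (by simpa [mem_Gk] using hx)
  | succ k ih => exact fun x hx => h.st.QQ_la (ih (Gk_succ.1 hx))

section Val
variable {Γ : Type*} [LinearOrderedCommGroupWithZero Γ] {v : Valuation ℂ Γ}

lemma Un.sl (h : Un v M) (h3 : v 3 = 1) : Un v (sl M) := by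
  obtain ⟨h1, n, hn, h2⟩ := h
  refine ⟨h1.mono (h1.lat.of_com h1.st.com_sl.symm) h1.st.sl_le h1.st.sl, 3 * (n * 3),
    by simp [h3, hn], fun x hx => ?_⟩
  rw [du_sl] at hx
  rw [mul_smul, mul_smul]
  exact h1.st.three_sl (h2 _ (Gk_two.1 (h1.st.du.Gk_mono one_le_two hx)))

lemma Un.scl (h : Un v M) {k : ℕ} (hk : v k = 1) : Un v (scl k M) := by
  have k0 : k ≠ 0 := fun e => by simp [e] at hk
  obtain ⟨h1, n, hn, h2⟩ := h
  refine ⟨h1.mono (h1.lat.of_com (com_scl k0).symm) (scl_le k) ?_, k * (n * k), by simp [hk, hn],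
    fun x hx => ⟨_, h2 _ (mem_du_scl.1 hx), by simp only [mul_smul]; rfl⟩⟩
  rintro _ ⟨y, hy, rfl⟩
  exact ⟨_, h1.st y hy, (mul_smul_comm k om y).symm⟩

end Val

/-- a unitary map with denominator `la` -/
structure Rot {n : ℕ} (Φ : (Fin n → ι → ℂ) →L[ℂ] (Fin n → ι → ℂ)) : Prop where
  hm : ∀ x y, ∑ i, Hm (Φ x i) (Φ y i) = ∑ j, Hm (x j) (y j)
  com : ∀ x i, Φ (fun j => om * x j) i = om * Φ x i
  int : ∀ N : Submodule ℤ (ι → ℂ), St N → ∀ x, (∀ j, x j ∈ N) → ∀ i, la * Φ x i ∈ N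

section Rot
variable {n : ℕ} {Φ Ψ : (Fin n → ι → ℂ) →L[ℂ] (Fin n → ι → ℂ)}

lemma Rot.com_la (h : Rot Φ) (x : Fin n → ι → ℂ) (i : Fin n) :
    Φ (fun j => la * x j) i = la * Φ x i := by
  have : (fun j => la * x j) = (fun j => om * x j) - fun j => om * (om * x j) :=
    funext fun j => by rw [la, sub_mul, mul_assoc]; rfl
  rw [this, map_sub, Pi.sub_apply, h.com, h.com, h.com, la, sub_mul, mul_assoc]

lemma Rot.qq (h : Rot Φ) (hΛ : St Λ) (x : Fin n → ι → ℂ) (hx : ∀ j, x j ∈ QQ Λ) (i : Fin n) :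
    Φ x i ∈ QQ Λ := hΛ.QQ_la (h.int _ hΛ.QQ x hx i)

lemma Rot.lv (h : Rot Φ) (hM : St M) {k : ℕ} {x : Fin n → ι → ℂ} (hx : ∀ j, x j ∈ Gk k M)
    (i : Fin n) : Φ x i ∈ Gk (k + 1) M := Gk_succ.2 (h.int _ (hM.Gk k) x hx i)

lemma Gf.memR (h : Gf R.valuation Λ f) {a : ι → ℂ} (ha : a ∈ QQ Λ) : U a f 0 ∈ R :=
  (R.valuation_le_one_iff _).1 (h.le a ha)

/-- the Riemann relation -/
theorem Gf.hadR (h : Gf R.valuation Λ f) (hΦ : Rot Φ) (hΨ : Rot Ψ) (e : ∀ x, Ψ (Φ x) = x)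
    {b : Fin n → ι → ℂ} (hb : ∀ i, b i ∈ QQ Λ) :
    (fun y : Fin n → ι → ℂ => ∏ i, U (b i) f (y i)) ∈ Submodule.span R (range
      fun (ξ : Fin n → Gk 1 (du Λ)) (y : Fin n → ι → ℂ) =>
        ∏ i, U (Φ b i + (ξ i).1) f (Φ y i)) := by
  obtain ⟨b0, hb0, h1⟩ := h.one 0 (zero_mem _)
  rw [zero_add] at h1
  have hs := h.un.1.st
  have key := riemR (h.un.sl h.three) hs.com_sl h.un.1 (Tc_mono hs.sl_le h.mem)
    (hs.com_sl.QQ ▸ h.un.1.Gk_QQ 2 (Gk_two.2 hb0)) h1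
    (g := fun ξ : Gk 1 (du Λ) => U ξ.1 f)
    (fun ξ hξ => ⟨⟨ξ, du_sl (M := Λ) ▸ hξ⟩, 1, one_mem _, (one_smul _ _).symm⟩) h.mem
    (fun a ha => h.memR ha) Ψ hΨ.hm hΨ.com (hΨ.qq hs) (w := 0)
    (fun _ => zero_mem _) (by
      rintro j _ ⟨y, hy, rfl⟩
      refine ⟨fun i => ?_, 0, by simp [Hm_zero_right]⟩
      have e1 : (Pi.single j (LinearMap.mulLeft ℤ la y) : Fin n → ι → ℂ) =
          fun j' => la * (Pi.single j y : Fin n → ι → ℂ) j' := funext fun j' => by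
        by_cases e : j' = j
        · subst e; simp
        · simp [e]
      rw [e1, hΨ.com_la]
      refine hΨ.int _ hs _ (fun j' => ?_) i
      by_cases e : j' = j
      · subst e; simpa using hy
      · simp [e])
  have := span_comp key (fun y => Φ y + Φ b)
    (fun y => cexp (-π * ∑ i, Hm (y i) (b i) - π * (∑ i, Hm (b i) (b i)) / 2)) (W := Submodule.span R
      (range fun (ξ : Fin n → Gk 1 (du Λ)) (y : Fin n → ι → ℂ) =>
        ∏ i, U (Φ b i + (ξ i).1) f (Φ y i))) fun ξ => by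
    have h2 : ∏ i, ph (ξ i).1 (Φ b i) ∈ R := prod_mem fun i _ => (R.valuation_le_one_iff _).1
      (val_ph _ h.un.1 (h.un.1.Gk_QQ 1 (ξ i).2) (hΦ.qq hs b hb i)).le
    refine mem_of_eq_of_mem (funext fun y => ?_) (Submodule.smul_mem _ (⟨_, h2⟩ : R)
      (Submodule.subset_span (mem_range_self ξ)))
    have e := prod_U (Φ b) (Φ y) fun i => U (ξ i).1 f
    rw [hΦ.hm, hΦ.hm] at e
    refine e.symm.trans ?_
    simp only [U_U', Pi.smul_apply, smul_eq_mul, Finset.prod_mul_distrib]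
    rfl
  refine mem_of_eq_of_mem (funext fun y => ?_) this
  rw [prod_U, map_add, e, e]
  simp only [Pi.zero_apply, U_zero, Pi.add_apply]

/-- the same with indices in a given level -/
theorem Gf.hadL (h : Gf R.valuation Λ f) (hΦ : Rot Φ) (hΨ : Rot Ψ) (e : ∀ x, Ψ (Φ x) = x)
    {b : Fin n → ι → ℂ} (hb : ∀ i, b i ∈ QQ Λ) {k : ℕ} (hk : 1 ≤ k)
    (hl : ∀ i, Φ b i ∈ Gk k (du Λ)) :
    (fun y : Fin n → ι → ℂ => ∏ i, U (b i) f (y i)) ∈ Submodule.span R (range
      fun (ζ : Fin n → Gk k (du Λ)) (y : Fin n → ι → ℂ) => ∏ i, U (ζ i).1 f (Φ y i)) := by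
  refine Submodule.span_mono ?_ (h.hadR hΦ hΨ e hb)
  rintro _ ⟨ξ, rfl⟩
  exact ⟨fun i => ⟨_, add_mem (hl i) (h.un.1.st.du.Gk_mono hk (ξ i).2)⟩, rfl⟩

end Rot

/-- the inverse of `u - u ^ 2` -/
def ci (u : ι → ℂ) : ι → ℂ := (3⁻¹ : ℂ) • (u * u - u)

/-- the Fourier matrix of size three -/
def T3 (u : ι → ℂ) : (Fin 3 → ι → ℂ) →L[ℂ] (Fin 3 → ι → ℂ) := LinearMap.toContinuousLinearMap
  { toFun := fun x => ![ci u * (x 0 + x 1 + x 2), ci u * (x 0 + u * x 1 + u * (u * x 2)),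
      ci u * (x 0 + u * (u * x 1) + u * x 2)]
    map_add' := fun x y => by ext i a; fin_cases i <;> simp <;> ring
    map_smul' := fun c x => by ext i a; fin_cases i <;> simp <;> ring }

/-- a symmetric integral matrix with square three -/
def S4 (u : ι → ℂ) : (Fin 4 → ι → ℂ) →L[ℂ] (Fin 4 → ι → ℂ) := LinearMap.toContinuousLinearMap
  { toFun := fun x => ![ci u * (x 0 + x 1 + x 2), ci u * (x 0 - x 1 + x 3),
      ci u * (x 0 - x 2 - x 3), ci u * (x 1 - x 2 + x 3)]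
    map_add' := fun x y => by ext i a; fin_cases i <;> simp <;> ring
    map_smul' := fun c x => by ext i a; fin_cases i <;> simp <;> ring }

omit [Om ι] in
lemma T3_apply (u : ι → ℂ) (x : Fin 3 → ι → ℂ) : T3 u x =
    ![ci u * (x 0 + x 1 + x 2), ci u * (x 0 + u * x 1 + u * (u * x 2)),
      ci u * (x 0 + u * (u * x 1) + u * x 2)] := rfl

omit [Om ι] in
lemma S4_apply (u : ι → ℂ) (x : Fin 4 → ι → ℂ) : S4 u x =
    ![ci u * (x 0 + x 1 + x 2), ci u * (x 0 - x 1 + x 3),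
      ci u * (x 0 - x 2 - x 3), ci u * (x 1 - x 2 + x 3)] := rfl

/-- one of the two primitive cube roots of unity -/
def Uw (u : ι → ℂ) : Prop := u = om ∨ u = om * om

section Uw
variable {u : ι → ℂ}

omit [Fintype ι] in
lemma Uw.eq (h : Uw u) (a : ι) : u a ^ 2 + u a + 1 = 0 := by
  have := Om.eq a
  rcases h with rfl | rfl
  · exact this
  · rw [Pi.mul_apply]; grind

omit [Fintype ι] in
lemma Uw.conj (h : Uw u) (a : ι) : conj (u a) = u a * u a := by
  have := Om.eq a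
  rcases h with rfl | rfl
  · exact conj_om a
  · rw [Pi.mul_apply, map_mul, conj_om]

omit [Fintype ι] in
lemma Uw.sq (h : Uw u) : Uw (u * u) := by
  rcases h with rfl | rfl
  · exact Or.inr rfl
  · refine Or.inl (funext fun a => ?_)
    have := Om.eq a
    simp only [Pi.mul_apply]; grind

omit [Fintype ι] in
lemma Uw.st (h : Uw u) (hM : St M) {x : ι → ℂ} (hx : x ∈ M) : u * x ∈ M := by
  rcases h with rfl | rfl
  · exact hM x hx
  · rw [mul_assoc]; exact hM _ (hM x hx)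

omit [Fintype ι] in
lemma Uw.la_ci (h : Uw u) {x : ι → ℂ} (hx : x ∈ M) : la * (ci u * x) ∈ M := by
  rcases h with rfl | rfl
  · refine mem_of_eq_of_mem (funext fun a => ?_) hx
    have := Om.eq a
    simp only [ci, la, Pi.mul_apply, Pi.smul_apply, Pi.sub_apply, smul_eq_mul]; grind
  · refine mem_of_eq_of_mem (funext fun a => ?_) (neg_mem hx)
    have := Om.eq a
    simp only [ci, la, Pi.mul_apply, Pi.smul_apply, Pi.sub_apply, Pi.neg_apply, smul_eq_mul]; grind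

omit [Fintype ι] in
lemma Uw.la_mem (h : Uw u) {x : ι → ℂ} : (u - u * u) * x ∈ M ↔ la * x ∈ M := by
  rcases h with rfl | rfl
  · rfl
  · rw [← neg_mem_iff]
    refine Iff.of_eq (congrArg (· ∈ M) (funext fun a => ?_))
    have := Om.eq a
    simp only [la, Pi.mul_apply, Pi.sub_apply, Pi.neg_apply]; grind

lemma Uw.rot3 (h : Uw u) : Rot (T3 u) where
  hm x y := by
    simp only [Hm, Fin.sum_univ_three, ← Finset.sum_add_distrib, T3_apply, Matrix.cons_val]
    refine Finset.sum_congr rfl fun a _ => ?_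
    have := h.eq a
    simp only [ci, Pi.mul_apply, Pi.smul_apply, Pi.sub_apply, Pi.add_apply, smul_eq_mul, map_mul,
      map_add, map_sub, map_inv₀, map_ofNat, h.conj]
    grind
  com x i := by ext a; fin_cases i <;> simp [T3_apply] <;> ring
  int N hN x hx i := by
    fin_cases i <;> simp only [T3_apply, Fin.reduceFinMk, Matrix.cons_val] <;>
      refine h.la_ci ?_ <;> apply_rules [add_mem, h.st hN]

lemma Uw.rot4 (h : Uw u) : Rot (S4 u) where
  hm x y := by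
    simp only [Hm, Fin.sum_univ_four, ← Finset.sum_add_distrib, S4_apply, Matrix.cons_val]
    refine Finset.sum_congr rfl fun a _ => ?_
    have := h.eq a
    simp only [ci, Pi.mul_apply, Pi.smul_apply, Pi.sub_apply, Pi.add_apply, smul_eq_mul, map_mul,
      map_add, map_sub, map_inv₀, map_ofNat, h.conj]
    grind
  com x i := by ext a; fin_cases i <;> simp [S4_apply] <;> ring
  int N hN x hx i := by
    fin_cases i <;> simp only [S4_apply, Fin.reduceFinMk, Matrix.cons_val] <;>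
      refine h.la_ci ?_ <;> apply_rules [add_mem, sub_mem]

lemma Uw.T3_inv (h : Uw u) (x : Fin 3 → ι → ℂ) : T3 (u * u) (T3 u x) = x := by
  ext i a
  have := h.eq a
  fin_cases i <;> simp [T3_apply, ci] <;> grind

lemma Uw.S4_inv (h : Uw u) (x : Fin 4 → ι → ℂ) : S4 (u * u) (S4 u x) = x := by
  ext i a
  have := h.eq a
  fin_cases i <;> simp [S4_apply, ci] <;> grind

lemma Uw.T3_one (h : Uw u) (z : ι → ℂ) : T3 u ![(u - u * u) * z, 0, 0] = ![z, z, z] := by
  ext i a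
  have := h.eq a
  fin_cases i <;> simp [T3_apply, ci] <;> grind

lemma Uw.T3_diag (h : Uw u) (z : ι → ℂ) : T3 u ![z, z, z] = ![-((u - u * u) * z), 0, 0] := by
  ext i a
  have := h.eq a
  fin_cases i <;> simp [T3_apply, ci] <;> grind

lemma Uw.S4_two (h : Uw u) (x y : ι → ℂ) :
    S4 u ![(u - u * u) * x, (u - u * u) * y, 0, 0] = ![x + y, x - y, x, y] := by
  ext i a
  have := h.eq a
  fin_cases i <;> simp [S4_apply, ci] <;> grind

lemma Uw.S4_four (h : Uw u) (x y : ι → ℂ) :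
    S4 u ![x + y, x - y, x, y] = ![-((u - u * u) * x), -((u - u * u) * y), 0, 0] := by
  ext i a
  have := h.eq a
  fin_cases i <;> simp [S4_apply, ci] <;> grind

/-- one step of the norm relation -/
theorem Gf.stepR (h : Gf R.valuation Λ f) (hu : Uw u) {k : ℕ} (hk : 3 ≤ k) {ζ : ι → ℂ}
    (hζ : ζ ∈ Gk (k + 1) (du Λ)) :
    (fun z => U ζ f ((u - u * u) * z)) ∈ Submodule.span R (range
      fun (ξ : Fin 3 → Gk k (du Λ)) (z : ι → ℂ) => ∏ i, U (ξ i).1 f z) := by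
  have hs := h.un.1.st.du
  have hQ := h.un.1.Gk_QQ _ hζ
  obtain ⟨x, hx, h1⟩ := h.one _ hQ
  have hx' := h.un.1.Gk_QQ 2 (Gk_two.2 hx)
  have key := h.hadL hu.rot3 hu.sq.rot3 hu.T3_inv (b := ![ζ, ζ + x, ζ + x])
    (fun a => by fin_cases a <;> simp only [Fin.reduceFinMk, Matrix.cons_val] <;>
      apply_rules [add_mem]) (k := k) (by omega) fun a => by
    rw [show ![ζ, ζ + x, ζ + x] = ![ζ, ζ, ζ] + ![0, x, x] by simp, map_add, hu.T3_diag]
    refine add_mem ?_ (hs.Gk_mono hk (hu.rot3.lv hs (k := 2) (fun j => ?_) a))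
    · fin_cases a
      · exact neg_mem (hu.la_mem.2 (Gk_succ.1 hζ))
      · exact zero_mem _
      · exact zero_mem _
    · fin_cases j
      · exact zero_mem _
      · exact Gk_two.2 hx
      · exact Gk_two.2 hx
  have h3 : R.valuation (U (ζ + x) f 0 * U (ζ + x) f 0)⁻¹ = 1 := by simp [h1]
  have h4 : U (ζ + x) f 0 * U (ζ + x) f 0 ≠ 0 := fun e => by simp [e] at h3
  refine mem_of_eq_of_mem (funext fun t => ?_) (span_comp key
    (fun z : ι → ℂ => ![(u - u * u) * z, 0, 0])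
    (fun _ => (U (ζ + x) f 0 * U (ζ + x) f 0)⁻¹) fun l => ?_)
  · simp only [Fin.prod_univ_three, Matrix.cons_val]
    rw [mul_assoc, mul_comm _⁻¹, mul_inv_cancel_right₀ h4]
  · refine mem_of_eq_of_mem (funext fun t => ?_) (Submodule.smul_mem _
      (⟨_, (R.valuation_le_one_iff _).1 h3.le⟩ : R) (Submodule.subset_span (mem_range_self l)))
    simp only [hu.T3_one, Fin.prod_univ_three, Matrix.cons_val]
    rfl

/-- the cube of a theta function -/
theorem Gf.cubeR (h : Gf R.valuation Λ f) (hu : Uw u) {k : ℕ} (hk : 1 ≤ k) {ζ : ι → ℂ}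
    (hζ : ζ ∈ Gk (k + 1) (du Λ)) :
    (fun z => U ζ f z ^ 3) ∈ Submodule.span R (range
      fun (ξ : Gk k (du Λ)) (z : ι → ℂ) => U ξ.1 f (-((u - u * u) * z))) := by
  have hQ := h.un.1.Gk_QQ _ hζ
  have key := h.hadL hu.rot3 hu.sq.rot3 hu.T3_inv (b := ![ζ, ζ, ζ])
    (fun a => by fin_cases a <;> exact hQ) hk fun a => by
    rw [hu.T3_diag]
    fin_cases a
    · exact neg_mem (hu.la_mem.2 (Gk_succ.1 hζ))
    · exact zero_mem _
    · exact zero_mem _
  refine mem_of_eq_of_mem (funext fun t => ?_) (span_comp key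
    (fun z : ι → ℂ => ![z, z, z]) (fun _ => 1) fun l => ?_)
  · simp only [Fin.prod_univ_three, Matrix.cons_val]
    ring
  · refine mem_of_eq_of_mem (funext fun t => ?_) (Submodule.smul_mem _
      (⟨_, mul_mem (h.memR (h.un.1.Gk_QQ _ (l 1).2)) (h.memR (h.un.1.Gk_QQ _ (l 2).2))⟩ : R)
      (Submodule.subset_span (mem_range_self (l 0))))
    simp only [hu.T3_diag, Fin.prod_univ_three, Matrix.cons_val]
    show _ = U (l 1).1 f 0 * U (l 2).1 f 0 * U (l 0).1 f (-((u - u * u) * t))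
    ring

end Uw

end Pool.Agent.Tav.G3
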