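import Pool.Agent.P.MP_2ce3e7_ag.Tav.GrCoreC

/-! The arithmetic endgame for cubic theta relations: modules over the integers. -/

set_option autoImplicit false
set_option linter.unusedSectionVars false

open NumberField

namespace Pool.Agent.Tav.G3

open GR

variable {L : Type*} [Field L] [NumberField L]

theorem co_three : ((3 : 𝓞 L) : L) = 3 := map_ofNat (algebraMap (𝓞 L) L) 3

theorem int_three : IsIntegral ℤ (3 : L) := by simpa using int_nat (L := L) 3

/-- modules between `𝓞` and `𝓞[1/3]` that are divisible by `3` modulo `𝓞` -/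
theorem struct3 (M : Submodule (𝓞 L) L) (h1 : (1 : L) ∈ M)
    (hd : ∀ x ∈ M, ∃ t ∈ M, IsIntegral ℤ (x - 3 * t)) :
    ∃ (h : ℕ) (π β : 𝓞 L), h ≠ 0 ∧ π * β = 3 ^ h ∧ IsCoprime π β ∧
      (∀ m : ℕ, 1 / (β : L) ^ m ∈ M) ∧
      ∀ (k : ℕ), ∀ x ∈ M, IsIntegral ℤ (3 ^ k * x) → IsIntegral ℤ ((β : L) ^ k * x) := by
  have hO : ∀ a : L, IsIntegral ℤ a → a ∈ M := fun a ha => by simpa using mulD ha h1
  let I : ℕ → Ideal (𝓞 L) := fun k =>
    { carrier := {a | (a : L) / 3 ^ k ∈ M}
      zero_mem' := by simp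
      add_mem' := fun {a b} ha hb => by simpa [add_div] using M.add_mem ha hb
      smul_mem' := fun r a ha => by
        have := M.smul_mem r ha
        simpa [Algebra.smul_def, mul_div_assoc] using this }
  have mI : ∀ k a, a ∈ I k ↔ (a : L) / 3 ^ k ∈ M := fun _ _ => Iff.rfl
  have h2 : (3 : L) ≠ 0 := three_ne_zero
  have two : (3 : 𝓞 L) ∈ I 1 := by rw [mI, co_three]; simpa using h1
  obtain ⟨J, hJ⟩ := Ideal.dvd_iff_le.2 ((Ideal.span_singleton_le_iff_mem _).2 two)
  have down : ∀ k, I (k + 1) ≤ I k := fun k a ha => by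
    rw [mI] at ha ⊢
    have := mulD int_three ha
    rwa [show 3 * ((a : L) / 3 ^ (k + 1)) = a / 3 ^ k by field_simp; ring] at this
  have up : ∀ k, ∀ b ∈ I 1, ∃ o : 𝓞 L, b - 3 * o ∈ I (k + 1) := fun k b hb => by
    induction k with
    | zero => exact ⟨0, by simpa using hb⟩
    | succ k ih =>
      obtain ⟨o, ho⟩ := ih
      obtain ⟨t, ht, hi⟩ := hd _ ((mI _ _).1 ho)
      obtain ⟨w, hw⟩ := exO hi
      refine ⟨o + 3 ^ k * w, (mI _ _).2 ?_⟩
      have e : ((b - 3 * (o + 3 ^ k * w) : 𝓞 L) : L) / 3 ^ (k + 1 + 1) = t := by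
        simp only [co_sub, co_mul, co_add, co_pow, co_three, hw]
        field_simp
        ring
      rwa [e]
  have anti : ∀ k, I (k + 1) ≤ I 1 := fun k => by
    induction k with
    | zero => exact le_rfl
    | succ k ih => exact (down _).trans ih
  have h20 : (3 : 𝓞 L) ≠ 0 := by norm_num
  have I0 : I 1 ≠ 0 := fun e => h20 (by rw [e] at two; exact two)
  have J0 : J ≠ 0 := fun e => h20 (by
    rw [e, mul_zero] at hJ
    exact Ideal.span_singleton_eq_bot.1 hJ)
  have step : ∀ k, I (k + 1) = I k * I 1 := fun k => by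
    refine le_antisymm ?_ (Ideal.mul_le.2 fun a ha b hb => ?_)
    · rw [← Ideal.dvd_iff_le, ← mul_dvd_mul_iff_right J0, mul_assoc, ← hJ, Ideal.dvd_iff_le]
      refine Ideal.mul_le.2 fun a ha j hj => ?_
      have h3 := Ideal.mul_mem_mul (anti k ha) hj
      rw [← hJ, Ideal.mem_span_singleton'] at h3
      obtain ⟨o, ho⟩ := h3
      rw [← ho]
      refine Ideal.mul_mem_mul ((mI _ _).2 ?_) (Ideal.mem_span_singleton_self _)
      have h4 : (o : L) * 3 = a * j := by simpa only [co_mul, co_three] using co_eq ho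
      have := mulD j.isIntegral_coe ((mI _ _).1 ha)
      rwa [show (j : L) * (a / 3 ^ (k + 1)) = o / 3 ^ k by
        field_simp; linear_combination (-3 ^ k) * h4] at this
    · obtain ⟨o, ho⟩ := up k b hb
      rw [show a * b = a * (b - 3 * o) + 3 * o * a by ring]
      refine add_mem (Ideal.mul_mem_left _ _ ho) ((mI _ _).2 ?_)
      have := mulD o.isIntegral_coe ((mI _ _).1 ha)
      rwa [show (o : L) * (a / 3 ^ k) = ((3 * o * a : 𝓞 L) : L) / 3 ^ (k + 1) by
        simp only [co_mul, co_three]; field_simp; ring] at this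
  have hpow : ∀ k, I k = I 1 ^ k := fun k => by
    induction k with
    | zero =>
      rw [pow_zero, Ideal.one_eq_top, eq_top_iff]
      exact fun a _ => (mI _ _).2 (by simpa using hO _ a.isIntegral_coe)
    | succ k ih => rw [step, ih, pow_succ]
  have cop : IsCoprime (I 1) J := by
    rw [Ideal.isCoprime_iff_sup_eq, ← Ideal.one_eq_top]
    refine mul_left_cancel₀ I0 (le_antisymm (by rw [mul_one]; exact Ideal.mul_le_left) fun b hb => ?_)
    rw [mul_one] at hb
    obtain ⟨o, ho⟩ := up 1 b hb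
    rw [Ideal.mul_sup, ← hJ, ← step, show b = b - 3 * o + o * 3 by ring]
    exact Ideal.add_mem _ (Ideal.mem_sup_left ho)
      (Ideal.mem_sup_right (Ideal.mul_mem_left _ _ (Ideal.mem_span_singleton_self _)))
  let h := Fintype.card (ClassGroup (𝓞 L))
  have hp : (I 1 ^ h).IsPrincipal := by
    rw [← ClassGroup.mk0_eq_one_iff (pow_mem (mem_nonZeroDivisors_of_ne_zero I0) h),
      ← SubmonoidClass.mk_pow _ (mem_nonZeroDivisors_of_ne_zero I0), map_pow, pow_card_eq_one]
  obtain ⟨π, hπ⟩ := hp.principal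
  replace hπ : I 1 ^ h = Ideal.span {π} := hπ
  have e2 : Ideal.span {(3 : 𝓞 L) ^ h} = Ideal.span {π} * J ^ h := by
    rw [← Ideal.span_singleton_pow, hJ, mul_pow, hπ]
  obtain ⟨β, hβ⟩ : π ∣ 3 ^ h := by
    rw [← Ideal.span_singleton_le_span_singleton, e2]; exact Ideal.mul_le_left
  have π0 : π ≠ 0 := fun e => by rw [e, zero_mul] at hβ; exact pow_ne_zero _ h20 hβ
  have hJβ : J ^ h = Ideal.span {β} := by
    rw [hβ, ← Ideal.span_singleton_mul_span_singleton] at e2
    exact (mul_left_cancel₀ (by simpa using π0) e2).symm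
  have hh : h ≠ 0 := Fintype.card_ne_zero
  have hL : (π : L) * β = 3 ^ h := by simpa only [co_mul, co_three, co_pow] using co_eq hβ.symm
  have β0 : (β : L) ≠ 0 := fun e => by rw [e, mul_zero] at hL; exact pow_ne_zero _ h2 hL.symm
  refine ⟨h, π, β, hh, hβ.symm, ?_, fun m => ?_, fun k x hx hi => ?_⟩
  · rw [← Ideal.isCoprime_span_singleton_iff, ← hπ, ← hJβ]; exact cop.pow
  · have : π ^ m ∈ I (h * m) := by
      rw [hpow, pow_mul, hπ]; exact Ideal.pow_mem_pow (Ideal.mem_span_singleton_self _) m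
    rw [mI, pow_mul, ← hL] at this
    have π1 : (π : L) ≠ 0 := by simpa using π0
    rwa [show ((π ^ m : 𝓞 L) : L) / (π * β) ^ m = 1 / (β : L) ^ m by
      simp only [co_pow, mul_pow]; field_simp] at this
  · obtain ⟨w, hw⟩ := exO hi
    have ha : w ∈ I k := (mI _ _).2 (by rwa [hw, mul_div_cancel_left₀ _ (pow_ne_zero _ h2)])
    have hb : β ∈ J := Ideal.pow_le_self hh (hJβ ▸ Ideal.mem_span_singleton_self _)
    have h3 := Ideal.mul_mem_mul (hpow k ▸ ha) (Ideal.pow_mem_pow hb k)
    rw [← mul_pow, ← hJ, Ideal.span_singleton_pow, Ideal.mem_span_singleton'] at h3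
    obtain ⟨o, ho⟩ := h3
    have h4 : (o : L) * 3 ^ k = 3 ^ k * x * β ^ k := by
      simpa only [co_mul, co_three, co_pow, hw] using co_eq ho
    have h5 : (β : L) ^ k * x = o := mul_left_cancel₀ (pow_ne_zero k h2) (by linear_combination -h4)
    rw [h5]; exact o.isIntegral_coe

end Pool.Agent.Tav.G3
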