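import Pool.Agent.P.MP_2ce3e7_ag.Tav.GrHad

/-! The tropical theta function of a normalised theta function. -/

set_option autoImplicit false

open Complex Matrix
open scoped Real ComplexConjugate

namespace Pool.Agent.Tav.Gd

open Pool.Agent.Cmh

noncomputable section

variable {ι : Type*} [Fintype ι] {Λ : Submodule ℤ (ι → ℂ)} {f : (ι → ℂ) → ℂ}
  {Γ : Type*} [LinearOrderedCommGroupWithZero Γ] {v : Valuation ℂ Γ}

/-- a normalised theta function -/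
structure Nm (v : Valuation ℂ Γ) (Λ : Submodule ℤ (ι → ℂ)) (f : (ι → ℂ) → ℂ) : Prop where
  un : Un v Λ
  two : v 2 = 1
  mem : f ∈ Th Λ
  le : ∀ a ∈ QQ Λ, v (U a f 0) ≤ 1
  one : ∃ κ, 2 • κ ∈ du Λ ∧ v (U κ f 0) = 1

/-- a theta function with good reduction -/
structure Gf (v : Valuation ℂ Γ) (Λ : Submodule ℤ (ι → ℂ)) (f : (ι → ℂ) → ℂ) : Prop where
  un : Un v Λ
  two : v 2 = 1
  mem : f ∈ Th Λ
  le : ∀ a ∈ QQ Λ, v (U a f 0) ≤ 1
  one : ∀ a ∈ QQ Λ, ∃ κ, 2 • κ ∈ du Λ ∧ v (U (a + κ) f 0) = 1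

theorem Gf.tp {κ : Type*} [Fintype κ] {ι : κ → Type*} [∀ k, Fintype (ι k)]
    {M : ∀ k, Submodule ℤ (ι k → ℂ)} {f : ∀ k, (ι k → ℂ) → ℂ} (h2 : v 2 = 1)
    (h : ∀ k, Gf v (M k) (f k)) : Gf v (pl M) (tp f) := by
  refine ⟨un_pl fun k => (h k).un, h2, tp_mem fun k => (h k).mem, fun a ha => ?_, fun a ha => ?_⟩
  · rw [U_tp, Gd.tp, map_prod]
    exact Finset.prod_le_one' fun k _ => (h k).le _ (mem_QQ_pl.1 ha k)
  · choose κ h1 h3 using fun k => (h k).one _ (mem_QQ_pl.1 ha k)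
    refine ⟨mkv κ, by rw [du_pl]; exact h1, ?_⟩
    rw [U_tp, Gd.tp, map_prod]
    exact Finset.prod_eq_one fun k _ => h3 k

/-- the maximum over half the dual lattice -/
def nu (v : Valuation ℂ Γ) (Λ : Submodule ℤ (ι → ℂ)) (f : (ι → ℂ) → ℂ) (x : ι → ℂ) : Γ :=
  v (U (x + Classical.epsilon fun w => 2 • w ∈ du Λ ∧
    ∀ y, 2 • y ∈ du Λ → v (U (x + y) f 0) ≤ v (U (x + w) f 0)) f 0)

lemma nu_spec (hΛ : Un v Λ) (hf : f ∈ Th Λ) {x : ι → ℂ} (hx : x ∈ QQ Λ) :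
    (∃ w, 2 • w ∈ du Λ ∧ v (U (x + w) f 0) = nu v Λ f x) ∧
      ∀ y, 2 • y ∈ du Λ → v (U (x + y) f 0) ≤ nu v Λ f x := by
  have h : ∃ w, 2 • w ∈ du Λ ∧
      ∀ y, 2 • y ∈ du Λ → v (U (x + y) f 0) ≤ v (U (x + w) f 0) :=
    exists_max hΛ.1.1 (hΛ.lat_dv two_ne_zero) (hΛ.1.le_du.trans (le_dv 2))
      (fun y => v (U (x + y) f 0)) fun y hy m hm => by
        rw [← add_assoc]; exact val_per hΛ.1 hf (add_mem hx (hΛ.dv_QQ two_ne_zero hy)) hm 0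
  have := Classical.epsilon_spec h
  exact ⟨⟨_, this.1, rfl⟩, this.2⟩

lemma val_v4 (a b c d : ι → ℂ) : v (U (v4 a b c d) (tp fun _ => f) 0) =
    v (U a f 0) * v (U b f 0) * v (U c f 0) * v (U d f 0) := by
  rw [← v4_zero, U_v4, map_mul, map_mul, map_mul]

lemma had_v4 (hΛ : Un v Λ) (h2 : v 2 = 1) (hf : f ∈ Th Λ) {a b c d : ι → ℂ} (ha : a ∈ QQ Λ)
    (hb : b ∈ QQ Λ) (hc : c ∈ QQ Λ) (hd : d ∈ QQ Λ) :
    v (U ((2⁻¹ : ℂ) • (a + b + c + d)) f 0) * v (U ((2⁻¹ : ℂ) • (a + b - c - d)) f 0) *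
      v (U ((2⁻¹ : ℂ) • (a - b + c - d)) f 0) * v (U ((2⁻¹ : ℂ) • (a - b - c + d)) f 0) ≤
      nu v Λ f a * nu v Λ f b * nu v Λ f c * nu v Λ f d := by
  classical
  have := had_le hΛ h2 hf (a := v4 a b c d) (v4_mem.2 ⟨ha, hb, hc, hd⟩) 0
    (γ := nu v Λ f a * nu v Λ f b * nu v Λ f c * nu v Λ f d) fun κ hκ => by
      rw [Fin.prod_univ_four]
      exact mul_le_mul' (mul_le_mul' (mul_le_mul' ((nu_spec hΛ hf ha).2 _ (hκ 0))
        ((nu_spec hΛ hf hb).2 _ (hκ 1))) ((nu_spec hΛ hf hc).2 _ (hκ 2)))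
        ((nu_spec hΛ hf hd).2 _ (hκ 3))
  rwa [mulVec_zero, TT_v4, val_v4] at this

theorem exists_nm (hΛ : Un v Λ) (h2 : v 2 = 1) : ∃ f, Nm v Λ f := by
  obtain ⟨f, hf, h0⟩ := exists_Th_ne hΛ.1
  have key : ∀ x ∈ QQ Λ, v (U x f 0) ≤ nu v Λ f 0 := by
    rintro x ⟨n, hn, hx⟩
    have hn2 : 2 * n ≠ 0 := by omega
    obtain ⟨w, hw, hmax⟩ := exists_max hΛ.1.1 (hΛ.lat_dv hn2) (hΛ.1.le_du.trans (le_dv _))
      (fun y => v (U y f 0)) fun y hy m hm => val_per hΛ.1 hf (hΛ.dv_QQ hn2 hy) hm 0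
    refine (hmax x (by rw [mem_dv, mul_smul]; exact nsmul_mem (hΛ.1.le_du hx) 2)).trans ?_
    have hw2 : w + w ∈ QQ Λ := hΛ.dv_QQ hn2 (add_mem hw hw)
    have h := had_v4 hΛ h2 hf hw2 (zero_mem _) (zero_mem _) (zero_mem _)
    have e : (2⁻¹ : ℂ) • (w + w) = w := by ext i; simp; ring
    simp only [add_zero, sub_zero, e] at h
    obtain ⟨y, hy, e2⟩ := (nu_spec hΛ hf hw2).1
    have h3 : nu v Λ f (w + w) ≤ v (U w f 0) := e2 ▸ hmax _ (add_mem (add_mem hw hw) (by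
      rw [mem_dv, mul_comm, mul_smul]; exact nsmul_mem hy n))
    by_cases h4 : v (U w f 0) = 0
    · simp [h4]
    have h5 : v (U w f 0) * v (U w f 0) ^ 3 ≤ v (U w f 0) * nu v Λ f 0 ^ 3 := by
      calc _ = _ := by rw [pow_three, mul_assoc, mul_assoc]
        _ ≤ _ := h
        _ = nu v Λ f (w + w) * nu v Λ f 0 ^ 3 := by rw [pow_three, mul_assoc, mul_assoc]
        _ ≤ _ := mul_le_mul_left h3 _
    exact (pow_le_pow_iff_left₀ zero_le zero_le three_ne_zero).1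
      (le_of_mul_le_mul_left h5 (zero_lt_iff.2 h4))
  obtain ⟨κ, hκ, e⟩ := (nu_spec hΛ hf (zero_mem _)).1
  rw [zero_add] at e
  obtain ⟨a, ha, h1⟩ := exists_QQ_ne hΛ.1.1 hf.1.continuous h0
  have h3 : v (U κ f 0) ≠ 0 := fun h => by
    have := key a ha
    rw [← e, h, le_zero_iff, map_eq_zero] at this
    exact U_zero_ne h1 this
  refine ⟨(U κ f 0)⁻¹ • f, hΛ, h2, Submodule.smul_mem _ _ hf, fun x hx => ?_, κ, hκ, ?_⟩
  · rw [map_smul, Pi.smul_apply, smul_eq_mul, map_mul, map_inv₀, e]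
    exact inv_mul_le_one_of_le₀ (key x hx) zero_le
  · rw [map_smul, Pi.smul_apply, smul_eq_mul, map_mul, map_inv₀, inv_mul_cancel₀ h3]

namespace Nm

variable (h : Nm v Λ f)
include h

lemma hQ {κ : ι → ℂ} (hκ : 2 • κ ∈ du Λ) : κ ∈ QQ Λ := h.un.dv_QQ two_ne_zero hκ

lemma le_nu {x : ι → ℂ} (hx : x ∈ QQ Λ) {y : ι → ℂ} (hy : 2 • y ∈ du Λ) :
    v (U (x + y) f 0) ≤ nu v Λ f x := (nu_spec h.un h.mem hx).2 y hy

lemma nu_le {x : ι → ℂ} (hx : x ∈ QQ Λ) : nu v Λ f x ≤ 1 := by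
  obtain ⟨w, hw, e⟩ := (nu_spec h.un h.mem hx).1
  exact e ▸ h.le _ (add_mem hx (h.hQ hw))

lemma nu_zero : nu v Λ f 0 = 1 := by
  obtain ⟨κ, hκ, e⟩ := h.one
  refine (h.nu_le (zero_mem _)).antisymm ?_
  have := h.le_nu (zero_mem _) hκ
  rwa [zero_add, e] at this

lemma nu_per {x : ι → ℂ} (hx : x ∈ QQ Λ) {κ : ι → ℂ} (hκ : 2 • κ ∈ du Λ) :
    nu v Λ f (x + κ) = nu v Λ f x := by
  have key : ∀ x ∈ QQ Λ, ∀ κ, 2 • κ ∈ du Λ → nu v Λ f (x + κ) ≤ nu v Λ f x := by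
    intro x hx κ hκ
    obtain ⟨w, hw, e⟩ := (nu_spec h.un h.mem (add_mem hx (h.hQ hκ))).1
    rw [← e, add_assoc]
    exact h.le_nu hx (by rw [smul_add]; exact add_mem hκ hw)
  refine (key x hx κ hκ).antisymm ?_
  have := key _ (add_mem hx (h.hQ hκ)) (-κ) (by rw [smul_neg]; exact neg_mem hκ)
  rwa [add_neg_cancel_right] at this

lemma nu_par {x y : ι → ℂ} (hx : x ∈ QQ Λ) (hy : y ∈ QQ Λ) :
    nu v Λ f x ^ 2 * nu v Λ f y ^ 2 ≤ nu v Λ f (x + y) * nu v Λ f (x - y) := by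
  obtain ⟨a, ha, e1⟩ := (nu_spec h.un h.mem hx).1
  obtain ⟨b, hb, e2⟩ := (nu_spec h.un h.mem hy).1
  have h1 : 2 • (a + b) ∈ du Λ := by rw [smul_add]; exact add_mem ha hb
  have h2 : 2 • (a - b) ∈ du Λ := by rw [smul_sub]; exact sub_mem ha hb
  have := had_v4 h.un h.two h.mem (add_mem (add_mem hx hy) (h.hQ h1))
    (add_mem (sub_mem hx hy) (h.hQ h2)) (zero_mem _) (zero_mem _)
  have e3 : (2⁻¹ : ℂ) • (x + y + (a + b) + (x - y + (a - b))) = x + a := by ext i; simp; ring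
  have e4 : (2⁻¹ : ℂ) • (x + y + (a + b) - (x - y + (a - b))) = y + b := by ext i; simp; ring
  simp only [add_zero, sub_zero, e3, e4, e1, e2, h.nu_zero, mul_one, h.nu_per (add_mem hx hy) h1,
    h.nu_per (sub_mem hx hy) h2] at this
  rwa [sq, sq, ← mul_assoc]

lemma nu_half {x : ι → ℂ} (hx : x ∈ QQ Λ) :
    ∃ α, 4 • α ∈ du Λ ∧ nu v Λ f (x + x) ≤ nu v Λ f (x + α) ^ 4 := by
  obtain ⟨a, ha, e1⟩ := (nu_spec h.un h.mem (add_mem hx hx)).1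
  obtain ⟨κ, hκ, e2⟩ := h.one
  have h1 : 4 • (2⁻¹ : ℂ) • (a - κ) ∈ du Λ :=
    mem_eq (sub_mem ha hκ) (by ext i; simp; ring)
  refine ⟨(2⁻¹ : ℂ) • (a - κ), h1, ?_⟩
  have h2 : x + (2⁻¹ : ℂ) • (a - κ) ∈ QQ Λ := add_mem hx (h.un.dv_QQ four_ne_zero h1)
  have h3 : 2 • (κ + κ) ∈ du Λ := by rw [smul_add]; exact add_mem hκ hκ
  have := had_v4 h.un h.two h.mem (add_mem h2 (h.hQ h3)) h2 h2 h2
  rw [h.nu_per h2 h3] at this
  set y := x + (2⁻¹ : ℂ) • (a - κ) with hy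
  have e3 : (2⁻¹ : ℂ) • (y + (κ + κ) + y + y + y) = x + x + a := by ext i; simp [hy]; ring
  have e4 : (2⁻¹ : ℂ) • (y + (κ + κ) + y - y - y) = κ := by ext i; simp; ring
  have e5 : (2⁻¹ : ℂ) • (y + (κ + κ) - y + y - y) = κ := by ext i; simp; ring
  have e6 : (2⁻¹ : ℂ) • (y + (κ + κ) - y - y + y) = κ := by ext i; simp; ring
  rw [e3, e4, e5, e6, e1, e2, mul_one, mul_one, mul_one] at this
  exact this.trans_eq (by rw [pow_succ, pow_succ, sq])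

lemma nu_ne {x : ι → ℂ} (hx : x ∈ QQ Λ) : nu v Λ f x ≠ 0 := by
  obtain ⟨κ, -, e⟩ := h.one
  have h0 : f ≠ 0 := fun e0 => by simp [e0] at e
  have hd : Differentiable ℂ fun y => f (x - y) :=
    h.mem.1.comp ((differentiable_const x).sub differentiable_id)
  obtain ⟨y, hy, h1⟩ := exists_QQ_ne (g := fun y => f y * f (x - y)) h.un.1.1
    (h.mem.1.continuous.mul hd.continuous) fun e0 => h0 (by
      have := Irr.eq_zero_of_mul h.mem.1 hd h0 (congrFun e0)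
      funext z
      simpa using congrFun this (x - z))
  have key : ∀ y ∈ QQ Λ, f y ≠ 0 → nu v Λ f y ≠ 0 := fun y hy h2 e0 => by
    have := h.le_nu hy (y := 0) (by simp)
    rw [e0, add_zero, le_zero_iff, map_eq_zero] at this
    exact U_zero_ne h2 this
  have := h.nu_par hy (sub_mem hx hy)
  rw [add_sub_cancel] at this
  intro e0
  rw [e0, zero_mul, le_zero_iff] at this
  exact mul_ne_zero (pow_ne_zero 2 (key _ hy (left_ne_zero_of_mul h1)))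
    (pow_ne_zero 2 (key _ (sub_mem hx hy) (right_ne_zero_of_mul h1))) this

lemma nu_uni [DecidableEq ι] {A : Matrix ι ι ℂ} (hA : IsUni A) {n : ℕ} (hn : v n = 1)
    (h1 : ∀ x ∈ Λ, n • A *ᵥ x ∈ Λ) (h2 : ∀ x ∈ Λ, n • Aᴴ *ᵥ x ∈ Λ) {a : ι → ℂ} (ha : a ∈ QQ Λ) :
    ∃ κ, 2 • κ ∈ du Λ ∧ nu v Λ f (A *ᵥ a) ≤ nu v Λ f (a + Aᴴ *ᵥ κ) := by
  have hn0 : n ≠ 0 := fun e => by simp [e] at hn
  have hq : ∀ B : Matrix ι ι ℂ, (∀ x ∈ Λ, n • B *ᵥ x ∈ Λ) → ∀ y ∈ QQ Λ, B *ᵥ y ∈ QQ Λ :=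
    fun B hB y ⟨k, hk, hy⟩ => ⟨n * k, mul_ne_zero hn0 hk, by
      rw [mul_smul, ← mulVec_smul]; exact hB _ hy⟩
  have hd : du Λ ≤ QQ Λ := (le_dv 2).trans (h.un.dv_QQ two_ne_zero)
  obtain ⟨κ0, hκ0, e0⟩ := h.one
  obtain ⟨m, l, c, hl, hc, e⟩ := lin h.un hA hn h1 h2 h.mem (QQ Λ) le_rfl hd
    (fun x hx => by
      obtain ⟨y, hy, rfl⟩ := mem_mp.1 hx
      exact hq _ h2 _ (hd hy)) (hq _ h1) (h.hQ hκ0) (fun y hy => e0 ▸ h.le y hy)
    (fun e => by simp [e] at e0)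
  obtain ⟨κ, hκ, e1⟩ := (nu_spec h.un h.mem (hq _ h1 _ ha)).1
  have e2 : U (A *ᵥ a + κ) f 0 = ∑ j, c j * U (a + Aᴴ *ᵥ κ) (U (l j) f) 0 := by
    have : U (A *ᵥ a + κ) f 0 = U (a + Aᴴ *ᵥ κ) (pb A f) 0 := by
      rw [U_pb hA, pb_apply, mulVec_zero, mulVec_add, hA.mulVec_ct]
    rw [this, e, map_sum, Finset.sum_apply]
    simp only [map_smul, Pi.smul_apply, smul_eq_mul]
  by_contra hcon
  push Not at hcon
  have := v.map_sum_lt (s := Finset.univ) (f := fun j => c j * U (a + Aᴴ *ᵥ κ) (U (l j) f) 0)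
    (h.nu_ne (hq _ h1 _ ha)) fun j _ => by
      obtain ⟨d, hd1, b, hb, e3⟩ := Submodule.mem_sup.1 (hl j)
      obtain ⟨d', hd', rfl⟩ := mem_mp.1 hb
      have h3 : 2 • (κ + d') ∈ du Λ := by rw [smul_add]; exact add_mem hκ (nsmul_mem hd' 2)
      refine lt_of_le_of_lt ?_ (hcon _ h3)
      rw [map_mul, val_UU h.un.1 (add_mem ha (hq _ h2 _ (h.hQ hκ)))
        (e3 ▸ add_mem (hd hd1) (hq _ h2 _ (hd hd'))), ← e3,
        show a + Aᴴ *ᵥ κ + (d + Aᴴ *ᵥ d') = a + Aᴴ *ᵥ (κ + d') + d by rw [mulVec_add]; abel]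
      exact (mul_le_of_le_one_left' (hc j)).trans
        (h.le_nu (add_mem ha (hq _ h2 _ (h.hQ h3))) (nsmul_mem hd1 2))
  rw [← e2, e1] at this
  exact lt_irrefl _ this

end Nm

/-- evaluation after `U y` is proportional to evaluation, modulo the maximal ideal -/
def Stab (v : Valuation ℂ Γ) (Λ : Submodule ℤ (ι → ℂ)) (f : (ι → ℂ) → ℂ) (k : ℕ) (y : ι → ℂ) :
    Prop := ∃ c : ℂ, v c = 1 ∧ ∀ a, 2 ^ k • a ∈ du Λ → v (U y (U a f) 0 - c * U a f 0) < 1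

lemma val_eq_one {x y : ℂ} (h : v (x - y) < 1) (hy : v y = 1) : v x = 1 := by
  have := v.map_add_eq_of_lt_right (x := x - y) (y := y) (by rwa [hy])
  rwa [sub_add_cancel, hy] at this

namespace Nm

variable (h : Nm v Λ f)
include h

lemma pQ {k : ℕ} {a : ι → ℂ} (ha : 2 ^ k • a ∈ du Λ) : a ∈ QQ Λ :=
  h.un.dv_QQ (k := 2 ^ k) (by positivity) (mem_dv.2 ha)

omit h in
lemma pow_of {k : ℕ} {a : ι → ℂ} (ha : 2 • a ∈ du Λ) : 2 ^ (k + 1) • a ∈ du Λ := by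
  rw [pow_succ, mul_smul]; exact nsmul_mem ha _

lemma stab_nu {k : ℕ} {y : ι → ℂ} (hy : y ∈ QQ Λ) (hs : Stab v Λ f (k + 1) y) :
    nu v Λ f y = 1 := by
  obtain ⟨c, hc, hs⟩ := hs
  obtain ⟨κ, hκ, e⟩ := h.one
  have := val_eq_one (hs κ (pow_of hκ)) (by rw [map_mul, hc, e, one_mul])
  rw [val_UU h.un.1 hy (h.hQ hκ)] at this
  exact (h.nu_le hy).antisymm (this ▸ h.le_nu hy hκ)

lemma stab_half {k : ℕ} {y : ι → ℂ} (hs : Stab v Λ f (k + 2) y) :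
    Stab v Λ f (k + 1) ((2⁻¹ : ℂ) • y) := by
  classical
  obtain ⟨c, hc, hs⟩ := hs
  obtain ⟨κ, hκ, e⟩ := h.one
  obtain ⟨m, l, d, hl, hd, he⟩ := had h.un h.two h.mem
  set y' := (2⁻¹ : ℂ) • y with hy'
  have key : ∀ a, 2 ^ (k + 1) • a ∈ du Λ → v (U y' (U a f) 0 * U y' (U κ f) 0 ^ 3 -
      c * (U a f 0 * U κ f 0 ^ 3)) < 1 := by
    intro a ha
    set b := TT ι *ᵥ v4 a κ κ κ with hb
    have hbk : ∀ i, 2 ^ (k + 2) • cp b i ∈ du Λ := fun i => by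
      have h0 : κ ∈ dv (2 ^ (k + 1)) (du Λ) := mem_dv.2 (pow_of hκ)
      have h1 : 2 • cp b i ∈ dv (2 ^ (k + 1)) (du Λ) :=
        two_TT (v4_mem.2 ⟨mem_dv.2 ha, h0, h0, h0⟩) i
      rw [pow_succ, mul_smul]; exact mem_dv.1 h1
    have e1 : pb (TT ι) (U (v4 a κ κ κ) (tp fun _ => f)) =
        ∑ j, (d j * ph (l j) b) • U (b + l j) (tp fun _ => f) := by
      rw [← TT_TT (v4 a κ κ κ), ← hb, ← U_pb TT_uni, he, map_sum]
      exact Finset.sum_congr rfl fun j _ => by rw [map_smul, U_U', smul_smul]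
    have e2 : U a f 0 * U κ f 0 ^ 3 = pb (TT ι) (U (v4 a κ κ κ) (tp fun _ => f)) 0 := by
      rw [pb_apply, mulVec_zero, ← v4_zero, U_v4]; ring
    have e3 : U y' (U a f) 0 * U y' (U κ f) 0 ^ 3 =
        U (v4 y 0 0 0) (pb (TT ι) (U (v4 a κ κ κ) (tp fun _ => f))) 0 := by
      rw [U_pb TT_uni, pb_apply, mulVec_zero, TT_v4, U_tp, U_tp, tp, Fin.prod_univ_four]
      simp only [add_zero, sub_zero, ← hy']
      rw [pow_three, ← mul_assoc, ← mul_assoc]; rfl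
    rw [e2, e3, e1, map_sum, Finset.sum_apply, Finset.sum_apply, Finset.mul_sum,
      ← Finset.sum_sub_distrib]
    refine v.map_sum_lt one_ne_zero fun j _ => ?_
    obtain ⟨κ', hκ', h3⟩ := hl j
    have h4 : ∀ i, 2 ^ (k + 2) • cp (b + l j) i ∈ du Λ := fun i => by
      rw [cp_add, smul_add]; exact add_mem (hbk i) (pow_of (two_of hκ' (h3 i)))
    have h5 : v (ph (l j) b) = 1 := val_ph v (ev_pl fun _ => h.un.1)
      (mem_QQ_pl.2 fun i => h.hQ (two_of hκ' (h3 i))) (mem_QQ_pl.2 fun i => h.pQ (hbk i))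
    have e4 : U (v4 y 0 0 0) ((d j * ph (l j) b) • U (b + l j) (tp fun _ => f)) 0 -
        c * ((d j * ph (l j) b) • U (b + l j) (tp fun _ => f)) 0 =
        (U y (U (cp (b + l j) 0) f) 0 - c * U (cp (b + l j) 0) f 0) * (d j * ph (l j) b *
          U (cp (b + l j) 1) f 0 * U (cp (b + l j) 2) f 0 * U (cp (b + l j) 3) f 0) := by
      rw [map_smul, U_tp, U_tp]
      simp only [Pi.smul_apply, smul_eq_mul, tp, Fin.prod_univ_four, v4, cp_mkv, cp_zero]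
      simp only [Matrix.cons_val_zero, Matrix.cons_val_one, Matrix.cons_val, U_zero]
      ring
    rw [e4, map_mul]
    refine lt_of_le_of_lt (mul_le_of_le_one_right' ?_) (hs _ (h4 0))
    simp only [map_mul, h5, mul_one]
    exact mul_le_one' (mul_le_one' (mul_le_one' (hd j) (h.le _ (h.pQ (h4 1))))
      (h.le _ (h.pQ (h4 2)))) (h.le _ (h.pQ (h4 3)))
  set t := U y' (U κ f) 0 with ht
  have h1 : v t = 1 := by
    have := val_eq_one (key κ (pow_of hκ)) (by simp [hc, e])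
    rw [← pow_succ', map_pow] at this
    exact (pow_eq_one_iff_left (by norm_num)).1 this
  have h2 : t ≠ 0 := fun e0 => by simp [e0] at h1
  refine ⟨c * U κ f 0 ^ 3 / t ^ 3, by simp [hc, e, h1], fun a ha => ?_⟩
  have e5 : U y' (U a f) 0 - c * U κ f 0 ^ 3 / t ^ 3 * U a f 0 =
      (U y' (U a f) 0 * t ^ 3 - c * (U a f 0 * U κ f 0 ^ 3)) / t ^ 3 := by field_simp
  rw [e5, map_div₀, map_pow, h1, one_pow, div_one]
  exact key a ha

lemma nu_co {K j : ℕ} (hj : j < K) {y : ι → ℂ} (hy : y ∈ Λ)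
    (H : ∀ s, 2 ^ K • s ∈ du Λ → nu v Λ f s = 1 → ∃ n : ℤ, (Hm y s).im = n) :
    nu v Λ f ((2⁻¹ : ℂ) ^ j • y) = 1 := by
  have hq : ∀ j : ℕ, (2⁻¹ : ℂ) ^ j • y ∈ QQ Λ := fun j =>
    ⟨2 ^ j, by positivity, mem_eq hy (by ext i; simp)⟩
  have key : ∀ j k : ℕ, j + k + 1 = K → Stab v Λ f (k + 1) ((2⁻¹ : ℂ) ^ j • y) := by
    intro j
    induction j with
    | zero =>
      intro k hk
      rw [zero_add] at hk
      refine ⟨1, map_one v, fun a ha => ?_⟩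
      rw [hk] at ha
      rw [pow_zero, one_smul, one_mul]
      by_cases h1 : nu v Λ f a = 1
      · obtain ⟨n, hn⟩ := H a ha h1
        rw [U_comm_int hn, h.mem.2 y hy]; simp
      · have h2 : v (U a f 0) < 1 := by
          have := h.le_nu (h.pQ ha) (y := 0) (by simp)
          rw [add_zero] at this
          exact this.trans_lt (lt_of_le_of_ne (h.nu_le (h.pQ ha)) h1)
        refine v.map_sub_lt ?_ h2
        rwa [val_UU h.un.1 (le_QQ hy) (h.pQ ha), add_comm, val_per h.un.1 h.mem (h.pQ ha) hy]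
    | succ j ih =>
      intro k hk
      rw [pow_succ', mul_smul]
      exact h.stab_half (ih (k + 1) (by omega))
  exact h.stab_nu (hq j) (key j (K - j - 1) (by omega))

theorem gf (H : ∀ a ∈ QQ Λ, nu v Λ f a = 1) : Gf v Λ f :=
  ⟨h.un, h.two, h.mem, h.le, fun a ha => by
    obtain ⟨w, hw, e⟩ := (nu_spec h.un h.mem ha).1
    exact ⟨w, hw, e.trans (H a ha)⟩⟩

end Nm

end

end Pool.Agent.Tav.Gd
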