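import Pool.Agent.P.MP_2ce3e7_ag.Tav.G3Had
import Pool.Agent.P.MP_2ce3e7_ag.Tav.GrTh

/-! The tropical theta function of a normalised theta function, cubic case. -/

set_option autoImplicit false

open Complex Matrix
open scoped Real ComplexConjugate

namespace Pool.Agent.Tav.G3

open Pool.Agent.Cmh Pool.Agent.Tav.Gd

noncomputable section

variable {ι : Type*} [Fintype ι] [Om ι] {Λ : Submodule ℤ (ι → ℂ)} {f : (ι → ℂ) → ℂ}
  {Γ : Type*} [LinearOrderedCommGroupWithZero Γ] {v : Valuation ℂ Γ}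

/-- a normalised theta function -/
structure Nm (v : Valuation ℂ Γ) (Λ : Submodule ℤ (ι → ℂ)) (f : (ι → ℂ) → ℂ) : Prop where
  un : Un v Λ
  three : v 3 = 1
  mem : f ∈ Tc Λ
  le : ∀ a ∈ QQ Λ, v (U a f 0) ≤ 1
  one : ∃ κ, la * κ ∈ du Λ ∧ v (U κ f 0) = 1

/-- the maximum over a coset of `Y` -/
def mx (v : Valuation ℂ Γ) (Y : Submodule ℤ (ι → ℂ)) (f : (ι → ℂ) → ℂ) (x : ι → ℂ) : Γ :=
  v (U (x + Classical.epsilon fun w => w ∈ Y ∧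
    ∀ y ∈ Y, v (U (x + y) f 0) ≤ v (U (x + w) f 0)) f 0)

/-- the maximum over one third of the dual lattice -/
def nu (v : Valuation ℂ Γ) (Λ : Submodule ℤ (ι → ℂ)) (f : (ι → ℂ) → ℂ) (x : ι → ℂ) : Γ :=
  mx v (dv 3 (du Λ)) f x

/-- the maximum over the dual lattice divided by `la` -/
def nu1 (v : Valuation ℂ Γ) (Λ : Submodule ℤ (ι → ℂ)) (f : (ι → ℂ) → ℂ) (x : ι → ℂ) : Γ :=
  mx v (ml la (du Λ)) f x

lemma mx_spec (hΛ : Un v Λ) (hf : f ∈ Tc Λ) {Y : Submodule ℤ (ι → ℂ)} (h1 : du Λ ≤ Y)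
    (h2 : Y ≤ dv 3 (du Λ)) {x : ι → ℂ} (hx : x ∈ QQ Λ) :
    (∃ w ∈ Y, v (U (x + w) f 0) = mx v Y f x) ∧ ∀ y ∈ Y, v (U (x + y) f 0) ≤ mx v Y f x := by
  have h : ∃ w, w ∈ Y ∧ ∀ y ∈ Y, v (U (x + y) f 0) ≤ v (U (x + w) f 0) :=
    exists_max hΛ.1.lat (isLat_of hΛ.1.lat.du h1 three_ne_zero h2) (hΛ.1.le_du.trans h1)
      (fun y => v (U (x + y) f 0)) fun y hy m hm => by
        rw [← add_assoc]
        exact val_per hΛ.1 hf (add_mem hx (hΛ.dv_QQ three_ne_zero (h2 hy))) hm 0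
  have := Classical.epsilon_spec h
  exact ⟨⟨_, this.1, rfl⟩, this.2⟩

lemma mx_per (hΛ : Un v Λ) (hf : f ∈ Tc Λ) {Y : Submodule ℤ (ι → ℂ)} (h1 : du Λ ≤ Y)
    (h2 : Y ≤ dv 3 (du Λ)) {x : ι → ℂ} (hx : x ∈ QQ Λ) {κ : ι → ℂ} (hκ : κ ∈ Y) :
    mx v Y f (x + κ) = mx v Y f x := by
  have hQ : Y ≤ QQ Λ := h2.trans (hΛ.dv_QQ three_ne_zero)
  have key : ∀ x ∈ QQ Λ, ∀ κ ∈ Y, mx v Y f (x + κ) ≤ mx v Y f x := by
    intro x hx κ hκ
    obtain ⟨w, hw, e⟩ := (mx_spec hΛ hf h1 h2 (add_mem hx (hQ hκ))).1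
    rw [← e, add_assoc]
    exact (mx_spec hΛ hf h1 h2 hx).2 _ (add_mem hκ hw)
  refine (key x hx κ hκ).antisymm ?_
  have := key _ (add_mem hx (hQ hκ)) (-κ) (neg_mem hκ)
  rwa [add_neg_cancel_right] at this

lemma nu_spec (hΛ : Un v Λ) (hf : f ∈ Tc Λ) {x : ι → ℂ} (hx : x ∈ QQ Λ) :
    (∃ w, 3 • w ∈ du Λ ∧ v (U (x + w) f 0) = nu v Λ f x) ∧
      ∀ y, 3 • y ∈ du Λ → v (U (x + y) f 0) ≤ nu v Λ f x :=
  mx_spec hΛ hf (Y := dv 3 (du Λ)) (le_dv 3) le_rfl hx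

lemma nu1_spec (hΛ : Un v Λ) (hf : f ∈ Tc Λ) {x : ι → ℂ} (hx : x ∈ QQ Λ) :
    (∃ w, la * w ∈ du Λ ∧ v (U (x + w) f 0) = nu1 v Λ f x) ∧
      ∀ y, la * y ∈ du Λ → v (U (x + y) f 0) ≤ nu1 v Λ f x :=
  mx_spec hΛ hf (Y := ml la (du Λ)) (fun _ h => hΛ.1.st.du.la h)
    (fun _ h => hΛ.1.st.du.three h) hx

lemma nu1_per (hΛ : Un v Λ) (hf : f ∈ Tc Λ) {x : ι → ℂ} (hx : x ∈ QQ Λ) {κ : ι → ℂ}
    (hκ : la * κ ∈ du Λ) : nu1 v Λ f (x + κ) = nu1 v Λ f x :=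
  mx_per hΛ hf (Y := ml la (du Λ)) (fun _ h => hΛ.1.st.du.la h)
    (fun _ h => hΛ.1.st.du.three h) hx hκ

lemma nu1_le_nu (hΛ : Un v Λ) (hf : f ∈ Tc Λ) {x : ι → ℂ} (hx : x ∈ QQ Λ) :
    nu1 v Λ f x ≤ nu v Λ f x := by
  obtain ⟨w, hw, e⟩ := (nu1_spec hΛ hf hx).1
  exact e ▸ (nu_spec hΛ hf hx).2 w (hΛ.1.st.du.three hw)

lemma had_nu [DecidableEq ι] {A : Matrix (Σ _ : Fin 3, ι) (Σ _ : Fin 3, ι) ℂ} (hA : Ft A)
    (hΛ : Un v Λ) (h3 : v 3 = 1) (hf : f ∈ Tc Λ) {a b c x y z : ι → ℂ} (ha : a ∈ QQ Λ)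
    (hb : b ∈ QQ Λ) (hc : c ∈ QQ Λ) (e : A *ᵥ v3 a b c = v3 x y z) :
    v (U a f 0) * v (U b f 0) * v (U c f 0) ≤ nu1 v Λ f x * nu1 v Λ f y * nu1 v Λ f z := by
  have hq := hA.QQ hΛ.1.st (v3_mem.2 ⟨ha, hb, hc⟩)
  have := had_le hA hΛ h3 hf (v3_mem.2 ⟨ha, hb, hc⟩) 0
    (γ := nu1 v Λ f x * nu1 v Λ f y * nu1 v Λ f z) fun κ hκ => by
      rw [e] at hq
      rw [Fin.prod_univ_three, e, mulVec_zero]
      exact mul_le_mul' (mul_le_mul' ((nu1_spec hΛ hf (hq 0)).2 _ (hκ 0))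
        ((nu1_spec hΛ hf (hq 1)).2 _ (hκ 1))) ((nu1_spec hΛ hf (hq 2)).2 _ (hκ 2))
  rwa [Fin.prod_univ_three] at this

lemma had_cube (hΛ : Un v Λ) (h3 : v 3 = 1) (hf : f ∈ Tc Λ) {x : ι → ℂ} (hx : x ∈ QQ Λ) :
    v (U x f 0) ^ 3 ≤ nu1 v Λ f (la * x) * nu1 v Λ f 0 ^ 2 := by
  classical
  have := had_nu TT_ft.ct hΛ h3 hf hx hx hx (x := la * x) (y := 0) (z := 0) (by
    have h1 := om_rel (ι := ι)
    have h2 := la_inv (ι := ι)
    have h3 := la_mul_la (ι := ι)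
    rw [TT_ct_v3]
    congr 1 <;> grind)
  rwa [pow_three', sq, ← mul_assoc]

lemma had_v3 (hΛ : Un v Λ) (h3 : v 3 = 1) (hf : f ∈ Tc Λ) {a b c : ι → ℂ} (ha : a ∈ QQ Λ)
    (hb : b ∈ QQ Λ) (hc : c ∈ QQ Λ) : v (U a f 0) * v (U b f 0) * v (U c f 0) ≤
      nu v Λ f (la⁻¹ * (a + b + c)) * nu v Λ f (la⁻¹ * (a + om * b + om ^ 2 * c)) *
        nu v Λ f (la⁻¹ * (a + om ^ 2 * b + om * c)) := by
  classical
  have hq := TT_ft.QQ hΛ.1.st (v3_mem.2 ⟨ha, hb, hc⟩)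
  rw [TT_v3] at hq
  exact (had_nu TT_ft hΛ h3 hf ha hb hc (TT_v3 a b c)).trans (mul_le_mul' (mul_le_mul'
    (nu1_le_nu hΛ hf (hq 0)) (nu1_le_nu hΛ hf (hq 1))) (nu1_le_nu hΛ hf (hq 2)))

theorem exists_nm (hΛ : Un v Λ) (h3 : v 3 = 1) : ∃ f, Nm v Λ f := by
  obtain ⟨f, hf, h0⟩ := exists_Tc_ne hΛ.1
  have key : ∀ x ∈ QQ Λ, v (U x f 0) ≤ nu1 v Λ f 0 := by
    rintro x ⟨n, hn, hx⟩
    have hn2 : 3 * n ≠ 0 := by omega
    obtain ⟨w, hw, hmax⟩ := exists_max hΛ.1.lat (hΛ.lat_dv hn2) (hΛ.1.le_du.trans (le_dv _))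
      (fun y => v (U y f 0)) fun y hy m hm => val_per hΛ.1 hf (hΛ.dv_QQ hn2 hy) hm 0
    refine (hmax x (by rw [mem_dv, mul_smul]; exact nsmul_mem (hΛ.1.le_du hx) 3)).trans ?_
    have hw2 := (hΛ.1.st.du.dv (3 * n)).la hw
    have h := had_cube hΛ h3 hf (hΛ.dv_QQ hn2 hw)
    obtain ⟨y, hy, e2⟩ := (nu1_spec hΛ hf (hΛ.dv_QQ hn2 hw2)).1
    have h4 : nu1 v Λ f (la * w) ≤ v (U w f 0) := e2 ▸ hmax _ (add_mem hw2 (by
      rw [mem_dv, mul_comm, mul_smul]; exact nsmul_mem (hΛ.1.st.du.three hy) n))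
    by_cases h5 : v (U w f 0) = 0
    · simp [h5]
    have h6 : v (U w f 0) * v (U w f 0) ^ 2 ≤ v (U w f 0) * nu1 v Λ f 0 ^ 2 := by
      rw [← pow_succ']
      exact h.trans (mul_le_mul_left h4 _)
    exact (pow_le_pow_iff_left₀ zero_le zero_le two_ne_zero).1
      (le_of_mul_le_mul_left h6 (zero_lt_iff.2 h5))
  obtain ⟨κ, hκ, e⟩ := (nu1_spec hΛ hf (zero_mem _)).1
  rw [zero_add] at e
  obtain ⟨a, ha, h1⟩ := exists_QQ_ne hΛ.1.lat hf.1.continuous h0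
  have h4 : v (U κ f 0) ≠ 0 := fun h => by
    have := key a ha
    rw [← e, h, le_zero_iff, map_eq_zero] at this
    exact U_zero_ne h1 this
  refine ⟨(U κ f 0)⁻¹ • f, hΛ, h3, Submodule.smul_mem _ _ hf, fun x hx => ?_, κ, hκ, ?_⟩
  · rw [map_smul, Pi.smul_apply, smul_eq_mul, map_mul, map_inv₀, e]
    exact inv_mul_le_one_of_le₀ (key x hx) zero_le
  · rw [map_smul, Pi.smul_apply, smul_eq_mul, map_mul, map_inv₀, inv_mul_cancel₀ h4]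

omit [Fintype ι] in
lemma three_inv {D : Submodule ℤ (ι → ℂ)} {x : ι → ℂ} (h : la * x ∈ D) : 3 • (la⁻¹ * x) ∈ D := by
  rwa [three_iff, la_cancel]

namespace Nm

variable (h : Nm v Λ f)
include h

lemma hQ {κ : ι → ℂ} (hκ : 3 • κ ∈ du Λ) : κ ∈ QQ Λ := h.un.dv_QQ three_ne_zero hκ

lemma st : St (du Λ) := h.un.1.st.du

lemma stQ : St (QQ Λ) := h.un.1.st.QQ

lemma le_nu {x : ι → ℂ} (hx : x ∈ QQ Λ) {y : ι → ℂ} (hy : 3 • y ∈ du Λ) :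
    v (U (x + y) f 0) ≤ nu v Λ f x := (nu_spec h.un h.mem hx).2 y hy

lemma nu_le {x : ι → ℂ} (hx : x ∈ QQ Λ) : nu v Λ f x ≤ 1 := by
  obtain ⟨w, hw, e⟩ := (nu_spec h.un h.mem hx).1
  exact e ▸ h.le _ (add_mem hx (h.hQ hw))

lemma nu_zero : nu v Λ f 0 = 1 := by
  obtain ⟨κ, hκ, e⟩ := h.one
  refine (h.nu_le (zero_mem _)).antisymm ?_
  have := h.le_nu (zero_mem _) (h.st.three hκ)
  rwa [zero_add, e] at this

lemma nu_per {x : ι → ℂ} (hx : x ∈ QQ Λ) {κ : ι → ℂ} (hκ : 3 • κ ∈ du Λ) :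
    nu v Λ f (x + κ) = nu v Λ f x :=
  mx_per h.un h.mem (Y := dv 3 (du Λ)) (le_dv 3) le_rfl hx hκ

lemma nu_cube {x : ι → ℂ} (hx : x ∈ QQ Λ) : nu v Λ f x ^ 3 ≤ nu1 v Λ f (la * x) := by
  obtain ⟨a, ha, e1⟩ := (nu_spec h.un h.mem hx).1
  have := had_cube h.un h.three h.mem (add_mem hx (h.hQ ha))
  rw [e1, mul_add, nu1_per h.un h.mem (h.stQ.la hx) (three_iff.1 ha)] at this
  exact this.trans (mul_le_of_le_one_right' (pow_le_one' ((nu1_le_nu h.un h.mem (zero_mem _)).trans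
    (h.nu_le (zero_mem _))) 2))

lemma nu_par {x y : ι → ℂ} (hx : x ∈ QQ Λ) (hy : y ∈ QQ Λ) :
    nu v Λ f x ^ 3 * nu v Λ f y ^ 3 ≤
      nu v Λ f (x + y) * nu v Λ f (x + om * y) * nu v Λ f (x + om ^ 2 * y) := by
  refine (mul_le_mul' (h.nu_cube hx) (h.nu_cube hy)).trans ?_
  obtain ⟨a, ha, e1⟩ := (nu1_spec h.un h.mem (h.stQ.la hx)).1
  obtain ⟨b, hb, e2⟩ := (nu1_spec h.un h.mem (h.stQ.la hy)).1
  obtain ⟨c, hc, e3⟩ := h.one
  have := had_v3 h.un h.three h.mem (add_mem (h.stQ.la hx) (h.un.la_QQ' ha))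
    (add_mem (h.stQ.la hy) (h.un.la_QQ' hb)) (h.un.la_QQ' hc)
  have h2 := la_inv (ι := ι)
  have hs := h.st.ml la
  have ha' : a ∈ ml la (du Λ) := ha
  have hb' : b ∈ ml la (du Λ) := hb
  have hc' : c ∈ ml la (du Λ) := hc
  rw [e1, e2, e3, mul_one,
    show la⁻¹ * (la * x + a + (la * y + b) + c) = x + y + la⁻¹ * (a + b + c) by grind,
    show la⁻¹ * (la * x + a + om * (la * y + b) + om ^ 2 * c) =
      x + om * y + la⁻¹ * (a + om * b + om ^ 2 * c) by grind,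
    show la⁻¹ * (la * x + a + om ^ 2 * (la * y + b) + om * c) =
      x + om ^ 2 * y + la⁻¹ * (a + om ^ 2 * b + om * c) by grind,
    h.nu_per (add_mem hx hy) (three_inv (add_mem (add_mem ha' hb') hc')),
    h.nu_per (add_mem hx (h.stQ _ hy)) (three_inv (add_mem (add_mem ha' (hs _ hb')) (hs.sq hc'))),
    h.nu_per (add_mem hx (h.stQ.sq hy))
      (three_inv (add_mem (add_mem ha' (hs.sq hb')) (hs _ hc')))] at this
  exact this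

lemma nu_half {x : ι → ℂ} (hx : x ∈ QQ Λ) :
    ∃ α, la ^ 3 * α ∈ du Λ ∧ nu v Λ f (la * x) ≤ nu v Λ f (x + α) ^ 3 := by
  obtain ⟨a, ha, e1⟩ := (nu_spec h.un h.mem (h.stQ.la hx)).1
  obtain ⟨c, hc, e2⟩ := h.one
  have h1 := om_rel (ι := ι)
  have h2 := la_inv (ι := ι)
  have h3 : la ^ 3 * (la⁻¹ * a) ∈ du Λ := mem_eq (three_iff.1 ha) (by grind)
  refine ⟨_, h3, ?_⟩
  have h4 : x + la⁻¹ * a ∈ QQ Λ := add_mem hx (h.un.la_QQ h3)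
  have := had_v3 h.un h.three h.mem (add_mem (h.stQ.la hx) (h.hQ ha)) (h.un.la_QQ' hc)
    (h.un.la_QQ' hc)
  have hc' : c ∈ ml la (du Λ) := hc
  rw [e1, e2, mul_one, mul_one,
    show la⁻¹ * (la * x + a + c + c) = x + la⁻¹ * a + la⁻¹ * (c + c) by grind,
    show la⁻¹ * (la * x + a + om * c + om ^ 2 * c) = x + la⁻¹ * a + la⁻¹ * -c by grind,
    show la⁻¹ * (la * x + a + om ^ 2 * c + om * c) = x + la⁻¹ * a + la⁻¹ * -c by grind,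
    h.nu_per h4 (three_inv (add_mem hc' hc')), h.nu_per h4 (three_inv (neg_mem hc'))] at this
  rwa [pow_three']

lemma nu_ne {x : ι → ℂ} (hx : x ∈ QQ Λ) : nu v Λ f x ≠ 0 := by
  obtain ⟨κ, -, e⟩ := h.one
  have h0 : f ≠ 0 := fun e0 => by simp [e0] at e
  have hd : Differentiable ℂ fun y => f (x - y) :=
    h.mem.1.comp ((differentiable_const x).sub differentiable_id)
  obtain ⟨y, hy, h1⟩ := exists_QQ_ne (g := fun y => f y * f (x - y)) h.un.1.lat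
    (h.mem.1.continuous.mul hd.continuous) fun e0 => h0 (by
      have := Irr.eq_zero_of_mul h.mem.1 hd h0 (congrFun e0)
      funext z
      simpa using congrFun this (x - z))
  have key : ∀ y ∈ QQ Λ, f y ≠ 0 → nu v Λ f y ≠ 0 := fun y hy h2 e0 => by
    have := h.le_nu hy (y := 0) (by simp)
    rw [e0, add_zero, le_zero_iff, map_eq_zero] at this
    exact U_zero_ne h2 this
  have := h.nu_par hy (sub_mem hx hy)
  rw [add_sub_cancel] at this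
  intro e0
  rw [e0, zero_mul, zero_mul, le_zero_iff] at this
  exact mul_ne_zero (pow_ne_zero 3 (key _ hy (left_ne_zero_of_mul h1)))
    (pow_ne_zero 3 (key _ (sub_mem hx hy) (right_ne_zero_of_mul h1))) this

lemma nu_uni [DecidableEq ι] {A : Matrix ι ι ℂ} (hA : IsUni A) (hm : Cm A) {n : ℕ} (hn : v n = 1)
    (h1 : ∀ x ∈ Λ, n • A *ᵥ x ∈ Λ) (h2 : ∀ x ∈ Λ, n • Aᴴ *ᵥ x ∈ Λ) {a : ι → ℂ} (ha : a ∈ QQ Λ) :
    ∃ κ, 3 • κ ∈ du Λ ∧ nu v Λ f (A *ᵥ a) ≤ nu v Λ f (a + Aᴴ *ᵥ κ) := by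
  have hn0 : n ≠ 0 := fun e => by simp [e] at hn
  have hq : ∀ B : Matrix ι ι ℂ, (∀ x ∈ Λ, n • B *ᵥ x ∈ Λ) → ∀ y ∈ QQ Λ, B *ᵥ y ∈ QQ Λ :=
    fun B hB y ⟨k, hk, hy⟩ => ⟨n * k, mul_ne_zero hn0 hk, by
      rw [mul_smul, ← mulVec_smul]; exact hB _ hy⟩
  have hd : du Λ ≤ QQ Λ := (le_dv 3).trans (h.un.dv_QQ three_ne_zero)
  obtain ⟨κ0, hκ0, e0⟩ := h.one
  obtain ⟨m, l, c, hl, hc, e⟩ := lin h.un hA hm hn h1 h2 h.mem (QQ Λ) le_rfl hd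
    (fun x hx => by
      obtain ⟨y, hy, rfl⟩ := mem_mp.1 hx
      exact hq _ h2 _ (hd hy)) (hq _ h1) (h.un.la_QQ' hκ0) (fun y hy => e0 ▸ h.le y hy)
    (fun e => by simp [e] at e0)
  obtain ⟨κ, hκ, e1⟩ := (nu_spec h.un h.mem (hq _ h1 _ ha)).1
  have e2 : U (A *ᵥ a + κ) f 0 = ∑ j, c j * U (a + Aᴴ *ᵥ κ) (U (l j) f) 0 := by
    have : U (A *ᵥ a + κ) f 0 = U (a + Aᴴ *ᵥ κ) (pb A f) 0 := by
      rw [U_pb hA, pb_apply, mulVec_zero, mulVec_add, hA.mulVec_ct]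
    rw [this, e, map_sum, Finset.sum_apply]
    simp only [map_smul, Pi.smul_apply, smul_eq_mul]
  by_contra hcon
  push Not at hcon
  have := v.map_sum_lt (s := Finset.univ) (f := fun j => c j * U (a + Aᴴ *ᵥ κ) (U (l j) f) 0)
    (h.nu_ne (hq _ h1 _ ha)) fun j _ => by
      obtain ⟨d, hd1, b, hb, e3⟩ := Submodule.mem_sup.1 (hl j)
      obtain ⟨d', hd', rfl⟩ := mem_mp.1 hb
      have h3 : 3 • (κ + d') ∈ du Λ := by rw [smul_add]; exact add_mem hκ (nsmul_mem hd' 3)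
      refine lt_of_le_of_lt ?_ (hcon _ h3)
      rw [map_mul, val_UU h.un.1 (add_mem ha (hq _ h2 _ (h.hQ hκ)))
        (e3 ▸ add_mem (hd hd1) (hq _ h2 _ (hd hd'))), ← e3,
        show a + Aᴴ *ᵥ κ + (d + Aᴴ *ᵥ d') = a + Aᴴ *ᵥ (κ + d') + d by rw [mulVec_add]; abel]
      exact (mul_le_of_le_one_left' (hc j)).trans
        (h.le_nu (add_mem ha (hq _ h2 _ (h.hQ h3))) (nsmul_mem hd1 3))
  rw [← e2, e1] at this
  exact lt_irrefl _ this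

end Nm

/-- evaluation after `U y` is proportional to evaluation, modulo the maximal ideal -/
def Stab (v : Valuation ℂ Γ) (Λ : Submodule ℤ (ι → ℂ)) (f : (ι → ℂ) → ℂ) (k : ℕ) (y : ι → ℂ) :
    Prop := ∃ c : ℂ, v c = 1 ∧ ∀ a, la ^ k * a ∈ du Λ → v (U y (U a f) 0 - c * U a f 0) < 1

namespace Nm

variable (h : Nm v Λ f)
include h

lemma pow_of {k : ℕ} {a : ι → ℂ} (ha : la * a ∈ du Λ) : la ^ (k + 1) * a ∈ du Λ := by
  rw [pow_succ, mul_assoc]; exact h.st.la_pow ha _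

lemma stab_nu {k : ℕ} {y : ι → ℂ} (hy : y ∈ QQ Λ) (hs : Stab v Λ f (k + 1) y) :
    nu v Λ f y = 1 := by
  obtain ⟨c, hc, hs⟩ := hs
  obtain ⟨κ, hκ, e⟩ := h.one
  have := val_eq_one (hs κ (h.pow_of hκ)) (by rw [map_mul, hc, e, one_mul])
  rw [val_UU h.un.1 hy (h.un.la_QQ' hκ)] at this
  exact (h.nu_le hy).antisymm (this ▸ h.le_nu hy (h.st.three hκ))

lemma stab_half {k : ℕ} {y : ι → ℂ} (hs : Stab v Λ f (k + 2) y) :
    Stab v Λ f (k + 1) (la⁻¹ * y) := by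
  classical
  obtain ⟨c, hc, hs⟩ := hs
  obtain ⟨κ, hκ, e⟩ := h.one
  obtain ⟨m, l, d, -, hl, hd, he⟩ := had TT_ft h.un h.three h.mem
  set y' := la⁻¹ * y with hy'
  have key : ∀ a, la ^ (k + 1) * a ∈ du Λ → v (U y' (U a f) 0 * U y' (U κ f) 0 ^ 2 -
      c * (U a f 0 * U κ f 0 ^ 2)) < 1 := by
    intro a ha
    set b := (TT ι)ᴴ *ᵥ v3 a κ κ with hb
    have hbk : ∀ i, la ^ (k + 2) * cp b i ∈ du Λ := fun i => by
      have := TT_ft.ct.int (ml (la ^ (k + 1)) (du Λ)) (h.st.ml _) (v3 a κ κ)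
        (v3_mem.2 ⟨mem_ml.2 ha, mem_ml.2 (h.pow_of hκ), mem_ml.2 (h.pow_of hκ)⟩) i
      rw [pow_succ, mul_assoc]; exact mem_ml.1 this
    have e1 : pb (TT ι) (U (v3 a κ κ) (tp fun _ => f)) =
        ∑ j, (d j * ph (l j) b) • U (b + l j) (tp fun _ => f) := by
      rw [← TT_uni.mulVec_ct (v3 a κ κ), ← hb, ← U_pb TT_uni, he, map_sum]
      exact Finset.sum_congr rfl fun j _ => by rw [map_smul, U_U', smul_smul]
    have e2 : U a f 0 * U κ f 0 ^ 2 = pb (TT ι) (U (v3 a κ κ) (tp fun _ => f)) 0 := by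
      rw [pb_apply, mulVec_zero, ← v3_zero, U_v3]; ring
    have e3 : U y' (U a f) 0 * U y' (U κ f) 0 ^ 2 =
        U (v3 y 0 0) (pb (TT ι) (U (v3 a κ κ) (tp fun _ => f))) 0 := by
      rw [U_pb TT_uni, pb_apply, mulVec_zero, TT_v3, U_tp, U_tp, tp, Fin.prod_univ_three]
      simp only [add_zero, mul_zero, ← hy']
      rw [sq, ← mul_assoc]; rfl
    rw [e2, e3, e1, map_sum, Finset.sum_apply, Finset.sum_apply, Finset.mul_sum,
      ← Finset.sum_sub_distrib]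
    refine v.map_sum_lt one_ne_zero fun j _ => ?_
    have h4 : ∀ i, la ^ (k + 2) * cp (b + l j) i ∈ du Λ := fun i => by
      rw [cp_add, mul_add]; exact add_mem (hbk i) (h.pow_of (hl j i))
    have h5 : v (ph (l j) b) = 1 := val_ph v (in_pl fun _ => h.un.1)
      (mem_QQ_pl.2 fun i => h.un.la_QQ' (hl j i)) (mem_QQ_pl.2 fun i => h.un.la_QQ (hbk i))
    have e4 : U (v3 y 0 0) ((d j * ph (l j) b) • U (b + l j) (tp fun _ => f)) 0 -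
        c * ((d j * ph (l j) b) • U (b + l j) (tp fun _ => f)) 0 =
        (U y (U (cp (b + l j) 0) f) 0 - c * U (cp (b + l j) 0) f 0) * (d j * ph (l j) b *
          U (cp (b + l j) 1) f 0 * U (cp (b + l j) 2) f 0) := by
      rw [map_smul, U_tp, U_tp]
      simp only [Pi.smul_apply, smul_eq_mul, tp, Fin.prod_univ_three, v3, cp_mkv, cp_zero]
      simp only [Matrix.cons_val_zero, Matrix.cons_val_one, Matrix.cons_val, U_zero]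
      ring
    rw [e4, map_mul]
    refine lt_of_le_of_lt (mul_le_of_le_one_right' ?_) (hs _ (h4 0))
    simp only [map_mul, h5, mul_one]
    exact mul_le_one' (mul_le_one' (hd j) (h.le _ (h.un.la_QQ (h4 1))))
      (h.le _ (h.un.la_QQ (h4 2)))
  set t := U y' (U κ f) 0 with ht
  have h1 : v t = 1 := by
    have := val_eq_one (key κ (h.pow_of hκ)) (by simp [hc, e])
    rw [← pow_succ', map_pow] at this
    exact (pow_eq_one_iff_left (by norm_num)).1 this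
  have h2 : t ≠ 0 := fun e0 => by simp [e0] at h1
  refine ⟨c * U κ f 0 ^ 2 / t ^ 2, by simp [hc, e, h1], fun a ha => ?_⟩
  have e5 : U y' (U a f) 0 - c * U κ f 0 ^ 2 / t ^ 2 * U a f 0 =
      (U y' (U a f) 0 * t ^ 2 - c * (U a f 0 * U κ f 0 ^ 2)) / t ^ 2 := by field_simp
  rw [e5, map_div₀, map_pow, h1, one_pow, div_one]
  exact key a ha

lemma nu_co {K j : ℕ} (hj : j < K) {y : ι → ℂ} (hy : y ∈ Λ)
    (H : ∀ s, la ^ K * s ∈ du Λ → nu v Λ f s = 1 → ∃ n : ℤ, (Hm y s).im = n) :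
    nu v Λ f (la⁻¹ ^ j * y) = 1 := by
  have hq : la⁻¹ ^ j * y ∈ QQ Λ := h.un.la_QQ (k := j) (by
    rw [← mul_assoc, ← mul_pow, la_inv, one_pow, one_mul]; exact h.un.1.le_du hy)
  have key : ∀ j k : ℕ, j + k + 1 = K → Stab v Λ f (k + 1) (la⁻¹ ^ j * y) := by
    intro j
    induction j with
    | zero =>
      intro k hk
      rw [zero_add] at hk
      have hc := val_chi v h.un.1 (le_QQ hy)
      refine ⟨chi y, hc, fun a ha => ?_⟩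
      rw [hk] at ha
      rw [pow_zero, one_mul]
      by_cases h1 : nu v Λ f a = 1
      · obtain ⟨n, hn⟩ := H a ha h1
        rw [U_comm_int hn, h.mem.2 y hy]; simp
      · have hq := h.un.la_QQ ha
        have h2 : v (U a f 0) < 1 := by
          have := h.le_nu hq (y := 0) (by simp)
          rw [add_zero] at this
          exact this.trans_lt (lt_of_le_of_ne (h.nu_le hq) h1)
        refine v.map_sub_lt ?_ (by rwa [map_mul, hc, one_mul])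
        rwa [val_UU h.un.1 (le_QQ hy) hq, add_comm, val_per h.un.1 h.mem hq hy]
    | succ j ih =>
      intro k hk
      rw [pow_succ', mul_assoc]
      exact h.stab_half (ih (k + 1) (by omega))
  exact h.stab_nu hq (key j (K - j - 1) (by omega))

theorem gf (H : ∀ a ∈ QQ Λ, nu v Λ f a = 1) : Gf v Λ f :=
  ⟨h.un, h.three, h.mem, h.le, fun a ha => by
    obtain ⟨w, hw, e⟩ := (nu_spec h.un h.mem ha).1
    exact ⟨w, hw, e.trans (H a ha)⟩⟩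

end Nm

end

end Pool.Agent.Tav.G3
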