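import Pool.Agent.P.MP_2ce3e7_ag.Tav.GMul

noncomputable section

namespace Pool.Agent.Tav

open MvPolynomial Module

variable {Ω : Type} [Field Ω] {T Y : Type} {β γ ν κ : Type}
  [Fintype β] [Fintype γ] [Fintype ν] [Fintype κ]

theorem rel_nc_slot [DecidableEq ν] {B : β → LS Ω T} {W : ν → LS Ω T} {n : ℕ}
    (h : Src B n) (hW : ∀ k, Reg B (W k)) (hn : n ≤ Fintype.card ν) (i : ν)
    {V : κ → LS Ω T} (hV : ∀ k, Reg B (V k)) (k : κ) :
    nc ((∑ j ∈ Finset.univ.erase i, Finsupp.single (Sum.inr (Sum.inl j)) 1) +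
      Finsupp.single (Sum.inr (Sum.inr k)) 1) (pL (Sum.elim B (Sum.elim W V))) =
      mix B (Function.update W i (V k)) := by
  have hf : Function.Injective (Function.update (Sum.inl : ν → ν ⊕ κ) i (Sum.inr k)) := by
    intro a b hab
    by_cases ha : a = i <;> by_cases hb : b = i <;> simp_all [Function.update]
  have e1 : Sum.elim W V ∘ Function.update (Sum.inl : ν → ν ⊕ κ) i (Sum.inr k) =
      Function.update W i (V k) := by
    rw [Function.comp_update]; rfl
  have h1 := nc_forget h (Reg.elim hW hV) hf (slots β ν) (by rw [degree_slots]; exact hn)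
  rw [e1, ← mix_eq_nc] at h1
  rw [← h1, mapDomain_slots, ← Finset.sum_erase_add _ _ (Finset.mem_univ i)]
  have e2 : ∑ j ∈ Finset.univ.erase i, Finsupp.single (Sum.map id (Function.update
      (Sum.inl : ν → ν ⊕ κ) i (Sum.inr k)) (Sum.inr j : β ⊕ ν)) 1 =
      ∑ j ∈ Finset.univ.erase i, Finsupp.single (Sum.inr (Sum.inl j) : β ⊕ ν ⊕ κ) 1 :=
    Finset.sum_congr rfl fun j hj => by
      simp [Function.update_of_ne (Finset.ne_of_mem_erase hj)]
  rw [e2]
  simp

theorem rel_pc_bpf [DecidableEq β] {F : β → LS Ω T} {f : κ → β} (hf : Function.Injective f)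
    {e : κ → ℕ} {U : Submodule Ω (T → Ω)} (hU : Bpf (F ∘ f) e U) :
    Lg fun d => pc F (d + Function.extend f e 0) = U * pc F d := by
  classical
  refine (Lg.comp hU f).mono fun d hd => ?_
  have h1 : pc F d = _ * pc (F ∘ f) (d ∘ f) := pw_split (fun i => (F i).sp) hf d
  have h2 : pc F (Function.extend f e 0) = pc (F ∘ f) e := pw_extend (fun i => (F i).sp) hf e
  rw [pc_add, h2, h1, mul_assoc, ← pc_add, ← hd, mul_left_comm]

theorem mix_rel [DecidableEq ν] {κ' : Type} [Fintype κ'] {B : β → LS Ω T} {W : ν → LS Ω T} {n : ℕ}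
    (h : Src B n) (hW : ∀ k, Reg B (W k)) (hn : n ≤ Fintype.card ν) (i : ν)
    {V : κ → LS Ω T} {V' : κ' → LS Ω T} (hV : ∀ k, Reg B (V k)) (hV' : ∀ k, Reg B (V' k))
    {e : κ → ℕ} {e' : κ' → ℕ} {U U' : Submodule Ω (T → Ω)} (hU : Bpf V e U) (hU' : Bpf V' e' U')
    {lam : T → Ω} (hl : ∀ t, lam t ≠ 0) (hUU : U' = U.map (LinearMap.mulLeft Ω lam)) :
    ∑ k, (e k : ℚ) * mix B (Function.update W i (V k)) =
      ∑ k, (e' k : ℚ) * mix B (Function.update W i (V' k)) := by
  classical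
  let F : β ⊕ ν ⊕ κ ⊕ κ' → LS Ω T := Sum.elim B (Sum.elim W (Sum.elim V V'))
  have hF : Src F n := h.ext (Reg.elim hW (Reg.elim hV hV'))
  let f : κ → β ⊕ ν ⊕ κ ⊕ κ' := Sum.inr ∘ Sum.inr ∘ Sum.inl
  let f' : κ' → β ⊕ ν ⊕ κ ⊕ κ' := Sum.inr ∘ Sum.inr ∘ Sum.inr
  have hf : Function.Injective f :=
    Sum.inr_injective.comp (Sum.inr_injective.comp Sum.inl_injective)
  have hf' : Function.Injective f' :=
    Sum.inr_injective.comp (Sum.inr_injective.comp Sum.inr_injective)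
  have hs : sh (fun i => ((Function.extend f e 0 i : ℕ) : ℚ)) (pL F) =
      sh (fun i => ((Function.extend f' e' 0 i : ℕ) : ℚ)) (pL F) := by
    refine ((evP_pL F).shift _).unique (((evP_pL F).shift _).congr ?_)
    refine ((rel_pc_bpf (F := F) hf hU).and (rel_pc_bpf (F := F) hf' hU')).mono fun d hd => ?_
    rw [hd.1, hd.2, hUU, map_mulLeft_eq, mul_assoc, ← map_mulLeft_eq, finrank_map_unit _ hl]
  let s : β ⊕ ν ⊕ κ ⊕ κ' →₀ ℕ :=
    ∑ j ∈ Finset.univ.erase i, Finsupp.single (Sum.inr (Sum.inl j)) 1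
  have hd : (n : ℤ) ≤ (s.degree : ℤ) + 1 := by
    have : s.degree = Fintype.card ν - 1 := by
      simp [s, map_sum, Finset.card_erase_of_mem]
    have h1 : 0 < Fintype.card ν := Fintype.card_pos_iff.2 ⟨i⟩
    omega
  have key : ∀ {κ₀ : Type} [Fintype κ₀] {g : κ₀ → β ⊕ ν ⊕ κ ⊕ κ'} (hg : Function.Injective g)
      (c : κ₀ → ℕ), nc s (sh (fun i => ((Function.extend g c 0 i : ℕ) : ℚ)) (pL F) - pL F) =
        ∑ k, (c k : ℚ) * nc (s + Finsupp.single (g k) 1) (pL F) := by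
    intro κ₀ _ g hg c
    rw [hF.dg.nc_sh_sub _ hd]
    exact (Fintype.sum_of_injective g hg _ _
      (fun x hx => by rw [Function.extend_apply' _ _ _ hx]; simp)
      fun k => by rw [hg.extend_apply]).symm
  have h1 := key hf e
  rw [hs, key hf' e'] at h1
  have n1 := fun k => rel_nc_slot h hW hn i (Reg.elim hV hV') (Sum.inl k)
  have n2 := fun k => rel_nc_slot h hW hn i (Reg.elim hV hV') (Sum.inr k)
  exact (Finset.sum_congr rfl fun k _ => congrArg _ (n1 k).symm).trans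
    (h1.symm.trans (Finset.sum_congr rfl fun k _ => congrArg _ (n2 k)))

theorem mix_one [DecidableEq ν] {B : β → LS Ω T} {W : ν → LS Ω T} {n : ℕ}
    (h : Src B n) (hW : ∀ k, Reg B (W k)) (hn : n ≤ Fintype.card ν) (i : ν) :
    mix B (Function.update W i (LS.one Ω T)) = 0 := by
  have := mix_rel h hW hn i (V := fun _ : Unit => LS.one Ω T) (V' := fun _ : Empty => LS.one Ω T)
    (fun _ => Reg.one B) (fun _ => Reg.one B) (e := fun _ => 1) (e' := fun _ => 0) (U := 1) (U' := 1)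
    (Lg.of_forall fun d => by simp [pc, LS.one]) (Lg.of_forall fun d => by simp [pc])
    (lam := 1) (fun _ => one_ne_zero) (by rw [LinearMap.mulLeft_one, Submodule.map_id])
  simpa using this

end Pool.Agent.Tav
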