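import Pool.Agent.P.MP_2ce3e7_ag.Tav.GBase

/-! Conjugation of linear systems by an automorphism of the field. -/

set_option autoImplicit false

noncomputable section

namespace Pool.Agent.Tav

open MvPolynomial Module

variable {Ω : Type} [Field Ω] {T Y : Type} {β ν : Type} [Fintype β] [Fintype ν]

attribute [local instance] RingHomInvPair.of_ringEquiv RingHomInvPair.of_ringEquiv_symm

/-- conjugation of functions -/
def twE (a : Ω ≃+* Ω) (T : Type) : (T → Ω) ≃ₛₗ[(a : Ω →+* Ω)] (T → Ω) where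
  toFun u t := a (u t)
  invFun u t := a.symm (u t)
  map_add' _ _ := funext fun _ => map_add a _ _
  map_smul' _ _ := funext fun _ => map_mul a _ _
  left_inv _ := funext fun _ => a.symm_apply_apply _
  right_inv _ := funext fun _ => a.apply_symm_apply _

/-- conjugate of a space of functions -/
def twS (a : Ω ≃+* Ω) (U : Submodule Ω (T → Ω)) : Submodule Ω (T → Ω) :=
  U.map (twE a T : (T → Ω) →ₛₗ[(a : Ω →+* Ω)] (T → Ω))

theorem mem_twS {a : Ω ≃+* Ω} {U : Submodule Ω (T → Ω)} {u : T → Ω} :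
    u ∈ twS a U ↔ (fun t => a.symm (u t)) ∈ U :=
  ⟨fun ⟨v, hv, e⟩ => by
    have : (fun t => a.symm (u t)) = v := funext fun t => by
      rw [← e]; exact a.symm_apply_apply _
    exact this ▸ hv, fun h => ⟨_, h, funext fun t => a.apply_symm_apply _⟩⟩

theorem tw_sp (a : Ω ≃+* Ω) (V : LS Ω T) : (V.tw a).sp = twS a V.sp :=
  Submodule.ext fun _ => mem_twS.symm

theorem twS_span (a : Ω ≃+* Ω) (S : Set (T → Ω)) :
    twS a (Submodule.span Ω S) = Submodule.span Ω ((fun u t => a (u t)) '' S) :=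
  Submodule.map_span _ _

theorem twS_one (a : Ω ≃+* Ω) : twS a (1 : Submodule Ω (T → Ω)) = 1 := by
  rw [Submodule.one_eq_span, twS_span, Set.image_singleton]
  congr 2
  exact funext fun t => map_one a

theorem twS_mul (a : Ω ≃+* Ω) (U V : Submodule Ω (T → Ω)) :
    twS a (U * V) = twS a U * twS a V := by
  conv_lhs => rw [← U.span_eq, ← V.span_eq]
  conv_rhs => rw [← U.span_eq, ← V.span_eq]
  rw [Submodule.span_mul_span, twS_span, twS_span, twS_span, Submodule.span_mul_span]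
  congr 1
  ext w
  constructor
  · rintro ⟨_, ⟨u, hu, v, hv, rfl⟩, rfl⟩
    exact ⟨_, ⟨u, hu, rfl⟩, _, ⟨v, hv, rfl⟩, funext fun t => (map_mul a _ _).symm⟩
  · rintro ⟨_, ⟨u, hu, rfl⟩, _, ⟨v, hv, rfl⟩, rfl⟩
    exact ⟨_, ⟨u, hu, v, hv, rfl⟩, funext fun t => map_mul a _ _⟩

/-- conjugation is multiplicative -/
def twM (a : Ω ≃+* Ω) (T : Type) : Submodule Ω (T → Ω) →* Submodule Ω (T → Ω) where
  toFun := twS a
  map_one' := twS_one a
  map_mul' := twS_mul a

theorem rank_twS (a : Ω ≃+* Ω) (U : Submodule Ω (T → Ω)) : finrank Ω (twS a U) = finrank Ω U := by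
  have e := (twE a T).submoduleMap U
  unfold finrank
  rw [rank_eq_of_equiv_equiv a e.toAddEquiv a.bijective fun r m => e.map_smulₛₗ r m]
  rfl

theorem pc_tw (a : Ω ≃+* Ω) (B : β → LS Ω T) (d : β → ℕ) :
    pc (fun i => (B i).tw a) d = twS a (pc B d) := by
  change _ = twM a T (∏ i, (B i).sp ^ d i)
  rw [map_prod]
  exact Finset.prod_congr rfl fun i _ => by rw [map_pow, tw_sp]; rfl

theorem LS.tw_co {s : Type} [Finite s] (a : Ω ≃+* Ω) (p : T → s → Ω) (hp : ∀ t, p t ≠ 0)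
    (hq : ∀ t, (fun i => a (p t i)) ≠ 0) :
    (LS.co p hp).tw a = LS.co (fun t i => a (p t i)) hq := by
  refine LS.ext' ?_
  rw [tw_sp]
  refine (twS_span a _).trans ?_
  rw [← Set.range_comp]
  rfl

theorem LS.tw_pb (a : Ω ≃+* Ω) (j : T → Y) (V : LS Ω Y) : (V.pb j).tw a = (V.tw a).pb j := by
  refine LS.ext' (Submodule.ext fun u => ?_)
  rw [tw_sp]
  constructor
  · rintro ⟨_, ⟨v, hv, rfl⟩, rfl⟩
    exact ⟨fun y => a (v y), (tw_sp a V).symm ▸ ⟨v, hv, rfl⟩, rfl⟩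
  · rintro ⟨w, hw, rfl⟩
    rw [tw_sp] at hw
    obtain ⟨v, hv, rfl⟩ := hw
    exact ⟨_, ⟨v, hv, rfl⟩, rfl⟩

theorem pL_tw (a : Ω ≃+* Ω) (B : β → LS Ω T) : pL (fun i => (B i).tw a) = pL B :=
  (evP_pL _).unique ((evP_pL B).congr (Lg.of_forall fun d => by rw [pc_tw, rank_twS]))

theorem mix_tw (a : Ω ≃+* Ω) (B : β → LS Ω T) (W : ν → LS Ω T) :
    mix (fun i => (B i).tw a) (fun k => (W k).tw a) = mix B W := by
  have : Sum.elim (fun i => (B i).tw a) (fun k => (W k).tw a) =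
      fun i => (Sum.elim B W i).tw a := funext fun i => by cases i <;> rfl
  rw [mix, mix, this, pL_tw]

theorem Reg.tw (a : Ω ≃+* Ω) {B : β → LS Ω T} {V : LS Ω T} (h : Reg B V) :
    Reg (fun i => (B i).tw a) (V.tw a) := fun t => by
  obtain ⟨e, lam, h0, h1⟩ := h t
  refine ⟨e, fun x => a (lam x), by simpa using h0, fun u hu => ?_⟩
  rw [tw_sp] at hu
  obtain ⟨v, hv, rfl⟩ := hu
  rw [pc_tw]
  exact ⟨_, h1 v hv, funext fun x => map_mul a _ _⟩

theorem Dom.tw (a : Ω ≃+* Ω) {B : β → LS Ω T} (h : Dom B) : Dom fun i => (B i).tw a := by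
  intro d e f hf g hg hfg
  rw [pc_tw] at hf hg
  obtain ⟨u, hu, rfl⟩ := hf
  obtain ⟨v, hv, rfl⟩ := hg
  have : u * v = 0 := funext fun t => a.injective (by
    rw [Pi.mul_apply, map_mul, Pi.zero_apply, map_zero]
    exact congrFun hfg t)
  exact (h d e u hu v hv this).imp (fun e => by rw [e, map_zero]) fun e => by rw [e, map_zero]

theorem Src.tw (a : Ω ≃+* Ω) {B : β → LS Ω T} {n : ℕ} (h : Src B n) :
    Src (fun i => (B i).tw a) n :=
  ⟨h.ne, h.dom.tw a, by rw [pL_tw]; exact h.dg⟩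

end Pool.Agent.Tav
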