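import Pool.Agent.P.MP_2ce3e7_ag.Tav.GBpf
import Pool.Agent.P.MP_2ce3e7_ag.Tav.GRel
import Pool.Agent.P.MP_2ce3e7_ag.Tav.GProd
import Pool.Agent.P.MP_2ce3e7_ag.Tav.GTw
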