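import Pool.Agent.P.MP_2ce3e7_ag.Tav.CMod
import Pool.Agent.P.MP_2ce3e7_ag.Tav.CCone
import Pool.Agent.K.MP_e12fcd_ag.C11

/-! An embedded complex torus is an abelian variety. -/

set_option autoImplicit false

noncomputable section

namespace Pool.Agent.Tav.Gn

open MvPolynomial Module Set Function Filter
open Pool.Agent.Weil

theorem lg_iff {ι : Type} [Fintype ι] {p : (ι → ℕ) → Prop} : Lg p ↔ ∀ᶠ d in atTop, p d := by
  rw [eventually_atTop]
  exact ⟨fun ⟨N, h⟩ => ⟨fun _ => N, h⟩, fun ⟨a, h⟩ => ⟨Finset.univ.sup a, fun d hd =>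
    h d fun i => (Finset.le_sup (Finset.mem_univ i)).trans (hd i)⟩⟩

theorem deg_eq {ι : Type} {P : MvPolynomial ι ℚ} {n : ℕ} (h : Dg P n) (h' : ¬ Dg P ((n : ℤ) - 1)) :
    P.totalDegree = n := by
  refine le_antisymm (Finset.sup_le fun s hs => ?_) (le_of_not_gt fun hl => h' ?_)
  · change s.degree ≤ n
    by_contra hn
    exact mem_support_iff.1 hs (h s (by exact_mod_cast not_le.1 hn))
  · intro s hs
    refine coeff_eq_zero_of_totalDegree_lt (hl.trans_le ?_)
    change n ≤ s.degree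
    omega

section
variable {K : Type} [Field K]

theorem hp_eq {T ι : Type} [Fintype ι] (L : ι → Submodule K (T → K)) : hp L = pf L :=
  congrArg Classical.epsilon (funext fun _ => propext lg_iff.symm)

variable {G σ : Type} [Fintype σ] {p : G → σ → K}

theorem hp_idl (p : G → σ → K) : hp ![crd p] = pI (fun _ : σ => (0 : Fin 1)) (idl p) := by
  rw [hp_eq, pI_eq_pf (fun l t => p t l) (Lg.of_forall fun d f hf => ?_)]
  · congr 1
    funext i
    rw [Subsingleton.elim i 0]
    change crd p = Submodule.span K _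
    rw [crd, ← image_univ]
    simp
  · rw [mem_idl_form hf, funext_iff]
    exact forall_congr' fun t => by rw [Tr.aeval_pt]; rfl

omit [Fintype σ] in
theorem idl_comp {T : Type} {j : T → G} (hj : Surjective j) : idl (fun t => p (j t)) = idl p :=
  Ideal.ext fun f => mem_idl.trans (Iff.trans (forall_congr' fun c =>
    (hj.forall (p := fun t => eval (c • p t) f = 0)).symm) mem_idl.symm)

theorem dm_idl [AddCommGroup G] (p : G → σ → K) :
    dm p univ = (pI (fun _ : σ => (0 : Fin 1)) (idl p)).totalDegree := by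
  rw [dm, hp_idl, idl_comp (p := p) (j := fun z : (univ : Set G) => (z : G))
    fun x => ⟨⟨x, trivial⟩, rfl⟩]

theorem dm_hp [AddCommGroup G] (p : G → σ → K) : dm p univ = (hp ![crd p]).totalDegree := by
  rw [dm_idl, hp_idl]

/-- equal Hilbert functions in large degree give equal dimensions -/
theorem dm_flat [AddCommGroup G] {K' G' σ' : Type} [Field K'] [AddCommGroup G'] [Fintype σ']
    {p' : G' → σ' → K'} (h : ∀ᶠ d in atTop, finrank K' (crd p' ^ d :) = finrank K (crd p ^ d :)) :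
    dm p' univ = dm p univ := by
  rw [dm_hp, dm_hp, hp_eq, hp_eq]
  obtain ⟨N, hN⟩ := eventually_atTop.1 h
  refine congrArg _ (hP_congr ⟨N, fun d hd => ?_⟩)
  have e1 : (∏ i, ![crd p'] i ^ d i) = crd p' ^ d 0 := Fin.prod_univ_one _
  have e2 : (∏ i, ![crd p] i ^ d i) = crd p ^ d 0 := Fin.prod_univ_one _
  change finrank K' (∏ i, ![crd p'] i ^ d i :) = finrank K (∏ i, ![crd p] i ^ d i :)
  rw [e1, e2]
  exact hN _ (hd 0)

end

section
variable {K Ω G B σ : Type} [CommRing K] [CommRing Ω] [AddCommGroup G] [AddCommGroup B]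
  {x : G → σ → K}

/-- the shape of the field `law` -/
def Law (x : G → σ → K) : Prop :=
  ∃ c : G × G → K, (∀ t, IsUnit (c t)) ∧ ∀ i j,
    (c * fun t => x (t.1 + t.2) i * x (t.1 - t.2) j) ∈
      (crd fun t => x t.1) ^ 2 * (crd fun t => x t.2) ^ 2

theorem Law.sub (h : Law x) (prim : ∀ v, ∃ l, IsUnit (x v l)) :
    Rg ![crd fun t : G × G => x t.1, crd fun t => x t.2] (crd fun t => x (t.1 - t.2)) := by
  obtain ⟨c, hc, h⟩ := h
  refine Tr.rg_of_gen fun t => ?_
  obtain ⟨j, hj⟩ := prim (t.1 + t.2)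
  refine ⟨![2, 2], c * fun t => x (t.1 + t.2) j, (hc t).mul hj, fun l => ?_⟩
  rw [Tr.prod_two, mul_assoc]
  exact h j l

/-- the law passes to the reduction -/
theorem Law.red (h : Law x) (r : K →+* Ω) (red : G →+ B) (onto : Surjective red)
    {p : B → σ → Ω} (hred : ∀ v, Par (p (red v)) fun l => r (x v l)) : Law p := by
  obtain ⟨c, hc, h⟩ := h
  obtain ⟨μ, hμ, h1⟩ := Tr.Sub.crd (r := r) (red := Prod.map red red)
    (x := fun t : G × G => x t.1) (p := fun b : B × B => p b.1) fun t => hred t.1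
  obtain ⟨ν, hν, h2⟩ := Tr.Sub.crd (r := r) (red := Prod.map red red)
    (x := fun t : G × G => x t.2) (p := fun b : B × B => p b.2) fun t => hred t.2
  have h3 := (h1.pow 2).mul (h2.pow 2)
  choose u hu e using fun i j => h3 _ (h i j)
  choose a ha ea using fun v => Tr.Par.symm (hred v)
  have ho : Surjective (Prod.map red red) := onto.prodMap onto
  let s := surjInv ho
  refine ⟨fun b => (μ ^ 2 * ν ^ 2) (s b) * r (c (s b)) * a ((s b).1 + (s b).2) *
    a ((s b).1 - (s b).2), fun b => ?_, fun i j => ?_⟩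
  · exact ((((hμ _).pow 2).mul ((hν _).pow 2)).mul ((hc _).map r)).mul (ha _) |>.mul (ha _)
  · refine (congrArg (· ∈ _) (funext fun b => ?_ : u i j = _)).mp (hu i j)
    have hb : Prod.map red red (s b) = b := surjInv_eq ho b
    have hb1 : red (s b).1 = b.1 := congrArg Prod.fst hb
    have hb2 : red (s b).2 = b.2 := congrArg Prod.snd hb
    have h4 : r (x ((s b).1 + (s b).2) i) = a ((s b).1 + (s b).2) * p (b.1 + b.2) i := by
      have := congrFun (ea ((s b).1 + (s b).2)) i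
      rw [map_add, hb1, hb2] at this
      exact this
    have h5 : r (x ((s b).1 - (s b).2) j) = a ((s b).1 - (s b).2) * p (b.1 - b.2) j := by
      have := congrFun (ea ((s b).1 - (s b).2)) j
      rw [map_sub, hb1, hb2] at this
      exact this
    have h6 := e i j (s b)
    rw [hb] at h6
    rw [h6]
    simp only [Pi.mul_apply, map_mul, h4, h5]
    ring

end

theorem Law.sub' {K G σ : Type} [Field K] [AddCommGroup G] {p : G → σ → K} (h : Law p)
    (h0 : ∀ v, p v ≠ 0) :
    Rg ![crd fun t : G × G => p t.1, crd fun t => p t.2] (crd fun t => p (t.1 - t.2)) :=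
  h.sub fun v => (ne_iff.1 (h0 v)).imp fun _ hl => IsUnit.mk0 _ hl

section
variable {V : Type} [NormedAddCommGroup V] [NormedSpace ℂ V] [FiniteDimensional ℂ V]
  {σ ι : Type} [Fintype σ] [Fintype ι] [DecidableEq ι] {β : σ → ι} {L : AddSubgroup V}
  {u : V → σ → ℂ}

/-- Chow's theorem for the whole torus -/
theorem emb_cl (hL : IsLat L) (hu : Emb L β u) {w : σ → ℂ}
    (hw : ∀ d, ∀ f ∈ Sd ℂ β d, (∀ x, eval (u x) f = 0) → eval w f = 0) :
    ∃ x t, w = bsm β t (u x) := by
  obtain ⟨r, hr, hd⟩ := hL.discrete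
  have hx := TopologicalSpace.denseRange_denseSeq V
  obtain ⟨J, hJ, -, h1, h2⟩ := hu.exists_ideal (SOps.fundChain hL hr hd hx) fun j y _ => by
    change Injective (fderiv ℂ id y)
    rw [fderiv_id]
    exact injective_id
  have h3 : ∀ v, ∀ f ∈ J, eval (u v) f = 0 := fun v => by
    obtain ⟨j, hj⟩ := hx.exists_dist_lt v (half_pos hr)
    exact h2 j v hj v rfl
  have h4 : ∀ f ∈ J, eval w f = 0 := fun f hf => by
    rw [← sum_weightedHomogeneousComponent (wN β) f,
      map_finsum _ (weightedHomogeneousComponent_finsupp f)]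
    exact finsum_eq_zero_of_forall_eq_zero fun d =>
      hw d _ (weightedHomogeneousComponent_mem (wN β) f d) fun v => h3 v _ (hJ d f hf)
  obtain ⟨z, v, t, -, e⟩ := h1 w h4
  exact ⟨v, t, e⟩

theorem emb_unif (hL : IsLat L) (hu : Emb L β u) : Unif β (kerG ℂ β fun a v => u v a) u :=
  hu.toImm.unif fun _ _ hw => emb_cl hL hu hw

end

section
variable {g : ℕ} {σ : Type} [Fintype σ] {Λ : Submodule ℤ (Fin g → ℂ)} [DiscreteTopology Λ]
  [IsZLattice ℝ Λ] {φ y : (Fin g → ℂ) → σ → ℂ}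

/-- an embedded torus with a law is an abelian variety -/
theorem av_gen (hφ : Differentiable ℂ φ) (par : ∀ v, Par (φ v) (y v)) (h0 : ∀ v, y v ≠ 0)
    (imm : ∀ v w (c : ℂ), fderiv ℂ φ v w = c • φ v → w = 0)
    (ker : ∀ v w, Par (y v) (y w) ↔ v - w ∈ Λ)
    (sub : Rg ![crd fun t : (Fin g → ℂ) × (Fin g → ℂ) => y t.1, crd fun t => y t.2]
      (crd fun t => y (t.1 - t.2))) : AV y g := by
  have h1 : ∀ v, φ v ≠ 0 := fun v e => by
    obtain ⟨c, -, hc⟩ := Tr.Par.symm (par v)
    exact h0 v (by rw [hc, e, smul_zero])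
  let β : σ → Fin 1 := fun _ => 0
  have e : ∀ (t : Fin 1 → ℂ) (x : σ → ℂ), bsm β t x = t 0 • x := fun t x => rfl
  have hu : Emb Λ.toAddSubgroup β φ := by
    refine ⟨fun v => Cmh.Osg.an_of_diffOn_pi isOpen_univ hφ.differentiableOn v trivial,
      fun v i => ?_, fun v w => ?_, fun v dv t ht => imm v dv _ (ht.trans (e _ _))⟩
    · obtain ⟨a, ha⟩ := ne_iff.1 (h1 v)
      exact ⟨a, Subsingleton.elim _ _, ha⟩
    · refine Iff.trans ⟨?_, fun h => ?_⟩ (ker v w)
      · rintro ⟨t, ht⟩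
        refine Tr.Par.trans (Tr.Par.symm (par v)) (Tr.Par.trans ⟨t 0, ?_, ht⟩ (par w))
        exact IsUnit.mk0 _ fun hc => h1 v (by rw [ht, e, hc, zero_smul])
      · obtain ⟨c, -, hc⟩ := Tr.Par.trans (par v) (Tr.Par.trans h (Tr.Par.symm (par w)))
        exact ⟨fun _ => c, hc⟩
  have hL : IsLat Λ.toAddSubgroup := isLat_of_zlattice Λ
  have hU := emb_unif hL hu
  have hk : (kerG ℂ β fun a v => φ v a) = idl φ :=
    le_antisymm (Ideal.span_le.2 fun f ⟨hf, d, hd⟩ => (mem_idl_form hd).2 fun t =>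
      (Tr.aeval_pt φ f t).symm.trans (congrFun hf t)) fun f hf => by
      rw [← sum_weightedHomogeneousComponent (wN β) f]
      refine finsum_induction (· ∈ _) (zero_mem _) (fun _ _ => add_mem) fun d => ?_
      exact (mem_kerG_pt (weightedHomogeneousComponent_mem (wN β) f d)).2 fun v =>
        mem_ZS_idl v _ (grJ_idl d f hf)
  rw [hk, idl_par par] at hU
  refine ⟨h0, fun z hz hz0 => ?_, hU.prime, ?_, sub⟩
  · obtain ⟨a, ha⟩ := ne_iff.1 hz0
    obtain ⟨v, l, hl⟩ := hU.onto z hz fun i => ⟨a, Subsingleton.elim _ _, ha⟩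
    refine ⟨v, Tr.Par.trans ⟨l 0, IsUnit.mk0 _ fun hc => ha ?_, hl⟩ (par v)⟩
    rw [hl]
    change l 0 * φ v a = 0
    rw [hc, zero_mul]
  · rw [dm_idl, deg_eq hU.dg hU.not_dg, finrank_fin_fun]

/-- the field `gen` of a model from the fields `hol`, `law` and primitivity -/
theorem av_model {R : ValuationSubring ℂ} {x : (Fin g → ℂ) → σ → R}
    (prim : ∀ v, ∃ l, IsUnit (x v l))
    (hol : ∃ φ : (Fin g → ℂ) → σ → ℂ, Differentiable ℂ φ ∧ (∀ v, Par (φ v) fun l => x v l) ∧
      ∀ v w (c : ℂ), fderiv ℂ φ v w = c • φ v → w = 0)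
    (ker : ∀ v w, (Par (fun l => (x v l : ℂ)) fun l => (x w l : ℂ)) ↔ v - w ∈ Λ) (law : Law x) :
    AV (fun v l => (x v l : ℂ)) g := by
  obtain ⟨φ, h1, h2, h3⟩ := hol
  have h0 : ∀ v, (fun l => (x v l : ℂ)) ≠ 0 := fun v e => by
    obtain ⟨l, hl⟩ := prim v
    exact hl.ne_zero (Subtype.ext (congrFun e l))
  have h4 : Law fun v l => (x v l : ℂ) :=
    law.red R.subtype (AddMonoidHom.id _) surjective_id fun v => Tr.Par.refl _
  exact av_gen (y := fun v l => (x v l : ℂ)) h1 h2 h0 h3 ker (h4.sub' h0)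

end

end Pool.Agent.Tav.Gn
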