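import Pool.Agent.P.MP_2ce3e7_ag.Tav.Stmt
import Pool.Agent.P.MP_e12fcd_ag.Cmh.Th2
import Pool.Agent.P.MP_e12fcd_ag.Cmh.SmJet

/-! A space of theta functions with a law of bidegree (2,2) gives an embedding. -/

set_option autoImplicit false

noncomputable section

namespace Pool.Agent.Tav.GrEmb

open Complex Set Cmh
open scoped Real

variable {ι : Type} [Fintype ι] {N : Submodule ℤ (ι → ℂ)}

lemma per_const (hN : IsLat N) {c : (ι → ℂ) → ℂ} (hc : Differentiable ℂ c)
    (h : ∀ η ∈ N, ∀ z, ‖c (z + η)‖ = ‖c z‖) (z z' : ι → ℂ) : c z = c z' := by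
  obtain ⟨R, hR⟩ := hN.exists_near
  refine hc.apply_eq_apply_of_bounded ?_ z z'
  obtain ⟨C, hC⟩ := (isCompact_closedBall (0 : ι → ℂ) R).exists_bound_of_continuousOn
    hc.continuous.continuousOn
  refine isBounded_iff_forall_norm_le.2 ⟨C, ?_⟩
  rintro _ ⟨y, rfl⟩
  obtain ⟨m, hm, hd⟩ := hR y
  rw [← sub_add_cancel y m, h m hm]
  exact hC _ (mem_closedBall_zero_iff.2 hd)

lemma quot_diff {S : Set ((ι → ℂ) → ℂ)} (hd : ∀ g ∈ S, Differentiable ℂ g)
    (h0 : ∀ z, ∃ g ∈ S, g z ≠ 0) {c : (ι → ℂ) → ℂ}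
    (h : ∀ g ∈ S, Differentiable ℂ fun z => c z * g z) : Differentiable ℂ c := fun z => by
  obtain ⟨g, hg, hz⟩ := h0 z
  refine ((h g hg z).mul ((hd g hg z).inv hz)).congr_of_eventuallyEq ?_
  filter_upwards [(hd g hg).continuous.continuousAt.eventually_ne hz] with y hy
  simp [hy]

section
variable {S : Set ((ι → ℂ) → ℂ)} (hN : IsLat N) (hd : ∀ g ∈ S, Differentiable ℂ g)
  (hU : ∀ η ∈ N, ∀ g ∈ S, U η g ∈ S) (h0 : ∀ z, ∃ g ∈ S, g z ≠ 0)
include hN hd hU h0

theorem mem_du_of_prop {w : ι → ℂ} (h : ∀ z, ∃ c : ℂ, ∀ g ∈ S, g (z + w) = c * g z) :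
    w ∈ du N := by
  choose c0 hc0 using h
  let c : (ι → ℂ) → ℂ := fun z => cexp (-π * Hm z w - π * nq w / 2) * c0 z
  have hc : ∀ g ∈ S, ∀ z, U w g z = c z * g z := fun g hg z => by
    rw [U_apply, hc0 z g hg, mul_assoc]
  have hcd : Differentiable ℂ c := quot_diff hd h0 fun g hg => by
    rw [← funext (hc g hg)]
    exact U_diff w (hd g hg)
  have key : ∀ η ∈ N, ∀ z, c z = cexp (-2 * π * I * (Hm w η).im) * c (z + η) := fun η hη z => by
    obtain ⟨g, hg, hz⟩ := h0 z
    have h1 := congrFun (U_comm w η (U (-η) g)) z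
    have h2 := congrFun (U_U_neg η g) z
    rw [U_U_neg, hc g hg, Pi.smul_apply, U_apply η, hc _ (hU _ (N.neg_mem hη) g hg)] at h1
    rw [U_apply η] at h2
    refine mul_right_cancel₀ hz ?_
    rw [h1, smul_eq_mul]
    linear_combination cexp (-2 * π * I * (Hm w η).im) * c (z + η) * h2
  have hn : ∀ η ∈ N, ∀ z, ‖c (z + η)‖ = ‖c z‖ := fun η hη z => by
    have h1 : ‖cexp (-2 * π * I * (Hm w η).im)‖ = 1 := by rw [Complex.norm_exp]; simp
    rw [key η hη z, norm_mul (cexp (-2 * π * I * (Hm w η).im)), h1, one_mul]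
  have hne : c 0 ≠ 0 := fun e => by
    obtain ⟨g, hg, hz⟩ := h0 (0 + w)
    have := hc g hg 0
    rw [e, zero_mul, U_apply] at this
    exact mul_ne_zero (exp_ne_zero _) hz this
  intro η hη
  have h1 := key η hη 0
  rw [per_const hN hcd hn (0 + η) 0] at h1
  obtain ⟨n, hn⟩ := Complex.exp_eq_one_iff.1 (mul_right_cancel₀ hne (h1.symm.trans (one_mul _).symm))
  refine ⟨-n, ?_⟩
  have h2 : (((Hm w η).im : ℝ) : ℂ) = ((-n : ℤ) : ℝ) := by
    refine mul_left_cancel₀ two_pi_I_ne_zero ?_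
    push_cast
    linear_combination -hn
  exact_mod_cast h2

theorem eq_zero_of_prop {w : ι → ℂ} (h : ∀ z, ∃ c : ℂ, ∀ g ∈ S, fderiv ℂ g z w = c * g z) :
    w = 0 := by
  choose c hc using h
  have hcd : Differentiable ℂ c := quot_diff hd h0 fun g hg => by
    rw [← funext fun z => hc z g hg]
    exact differentiableOn_univ.1 (Pool.Agent.Lib.SCV.differentiableOn_fderiv_apply isOpen_univ
      (hd g hg).differentiableOn w)
  have key : ∀ η ∈ N, ∀ z, c (z + η) = c z + π * Hm w η := fun η hη z => by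
    obtain ⟨g, hg, hz⟩ := h0 (z + η)
    have h1 := ((SmJet.differentiable_Hm η) z).hasFDerivAt
    have h2 : HasFDerivAt (fun z => g (z + η)) (fderiv ℂ g (z + η)) z :=
      (hasFDerivAt_comp_add_right η).2 (hd g hg _).hasFDerivAt
    have h4 := (((h1.const_mul (-(π : ℂ))).sub_const (π * nq η / 2 : ℂ)).cexp).mul h2
    have h5 := hc z _ (hU η hη g hg)
    have h6 : U η g = (fun z => cexp (-(π : ℂ) * Hm z η - π * nq η / 2)) *
      fun z => g (z + η) := rfl
    rw [U_apply, h6, h4.fderiv] at h5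
    simp only [add_apply, smul_apply, smul_eq_mul,
      SmJet.fderiv_Hm, hc _ g hg] at h5
    refine mul_right_cancel₀ (mul_ne_zero (exp_ne_zero (-(π : ℂ) * Hm z η - π * nq η / 2)) hz) ?_
    linear_combination h5
  have hadd : ∀ u z, c (z + u) - c z = c (0 + u) - c 0 := fun u z =>
    per_const hN (c := fun z => c (z + u) - c z) ((hcd.comp (by fun_prop)).sub hcd)
      (fun η hη z => by rw [add_right_comm, key η hη, key η hη]; congr 1; ring) z 0
  let l : (ι → ℂ) →+ ℂ := AddMonoidHom.mk' (fun u => c u - c 0) fun a b => by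
    have := hadd b a
    rw [zero_add] at this
    linear_combination this
  let μ := l.toRealLinearMap (hcd.continuous.sub continuous_const)
  have h1 : μ = (fderiv ℂ c 0).restrictScalars ℝ :=
    (μ.hasFDerivAt (x := 0)).unique (((hcd 0).hasFDerivAt.restrictScalars ℝ).sub_const (c 0))
  have h2 : ∀ u, μ u = π * Hm w u := fun u => by
    have hu : u ∈ Submodule.span ℝ (N : Set (ι → ℂ)) := hN.2 ▸ Submodule.mem_top
    induction hu using Submodule.span_induction with
    | mem η hη =>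
      have := key η hη 0
      rw [zero_add] at this
      exact sub_eq_of_eq_add' this
    | zero => simp [Hm_zero_right]
    | add a b _ _ ha hb => rw [map_add, ha, hb, Hm_add_right, mul_add]
    | smul r a _ ha => rw [map_smul, ha, Hm_rsmul_right, real_smul, mul_left_comm]
  have h3 := h2 (I • w)
  have h4 := h2 w
  rw [h1] at h3 h4
  simp only [ContinuousLinearMap.coe_restrictScalars', map_smul, smul_eq_mul] at h3 h4
  rw [h4, Hm_smul_right, Hm_self, conj_I] at h3
  have h5 : (nq w : ℂ) = 0 := by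
    refine mul_left_cancel₀ two_pi_I_ne_zero ?_
    linear_combination h3
  exact nq_eq_zero (by exact_mod_cast h5)

end

section law
variable {K V σ : Type} [CommRing K]

/-- functions with `h t = a * h t'` -/
def eig (t t' : V) (a : K) : Submodule K (V → K) where
  carrier := {h | h t = a * h t'}
  zero_mem' := by simp
  add_mem' := fun {x y} (hx : _ = _) (hy : _ = _) => by
    show x t + y t = a * (x t' + y t')
    rw [hx, hy, mul_add]
  smul_mem' := fun c x (hx : _ = _) => by
    show c * x t = a * (c * x t')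
    rw [hx, mul_left_comm]

lemma eig_mul {t t' : V} {a b : K} {A B : Submodule K (V → K)} (hA : A ≤ eig t t' a)
    (hB : B ≤ eig t t' b) : A * B ≤ eig t t' (a * b) := Submodule.mul_le.2 fun x hx y hy => by
  show x t * y t = a * b * (x t' * y t')
  rw [show x t = _ from hA hx, show y t = _ from hB hy]
  ring

lemma crd_eig {p : V → σ → K} {t t' : V} {a : K} (h : p t = a • p t') : crd p ≤ eig t t' a :=
  Submodule.span_le.2 (by rintro _ ⟨l, rfl⟩; exact congrFun h l)

lemma law_eig {p : V → σ → K} {v v' : V} {a : K} (h : p v = a • p v') (y : V) :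
    (crd fun t : V × V => p t.1) ^ 2 * (crd fun t : V × V => p t.2) ^ 2 ≤
      eig (v, y) (v', y) (a * a * (1 * 1)) := by
  rw [pow_two, pow_two]
  exact eig_mul (eig_mul (crd_eig h) (crd_eig h))
    (eig_mul (crd_eig (one_smul _ _).symm) (crd_eig (one_smul _ _).symm))

/-- proportional points have proportional translates -/
theorem par_add [AddCommGroup V] {p : V → σ → K} (h0 : ∀ v, ∃ l, IsUnit (p v l))
    {c : V × V → K} (hc : ∀ t, IsUnit (c t))
    (law : ∀ i j, (c * fun t : V × V => p (t.1 + t.2) i * p (t.1 - t.2) j) ∈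
      (crd fun t : V × V => p t.1) ^ 2 * (crd fun t : V × V => p t.2) ^ 2)
    {v v' : V} (h : Par (p v) (p v')) (y : V) : Par (p (v + y)) (p (v' + y)) := by
  obtain ⟨a, ha, h⟩ := h
  obtain ⟨j, u, hu⟩ := h0 (v - y)
  obtain ⟨i0, hi⟩ := h0 (v + y)
  obtain ⟨e, he⟩ := hc (v, y)
  have key : ∀ i, p (v + y) i = ↑e⁻¹ * ↑u⁻¹ * (a * a) * c (v', y) * p (v' - y) j * p (v' + y) i :=
    fun i => by
      have h1 : c (v, y) * (p (v + y) i * p (v - y) j) =
        a * a * (1 * 1) * (c (v', y) * (p (v' + y) i * p (v' - y) j)) := law_eig h y (law i j)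
      rw [← hu, ← he] at h1
      linear_combination (↑e⁻¹ * ↑u⁻¹ : K) * h1 - p (v + y) i * (↑u⁻¹ * ↑u : K) * e.inv_mul -
        p (v + y) i * u.inv_mul
  refine ⟨_, ?_, funext key⟩
  rw [key i0] at hi
  exact isUnit_of_mul_isUnit_left hi

end law

section der
variable {V σ : Type} [NormedAddCommGroup V] [NormedSpace ℂ V]

/-- functions whose derivative along the curve `γ` is `a` times the value -/
def dig {T : Type} (γ : ℂ → T) (a : ℂ) : Submodule ℂ (T → ℂ) where
  carrier := {h | HasDerivAt (fun s => h (γ s)) (a * h (γ 0)) 0}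
  zero_mem' := by simpa using hasDerivAt_const (0 : ℂ) (0 : ℂ)
  add_mem' := fun {x y} hx hy => by
    show HasDerivAt _ (a * (x _ + y _)) _
    rw [mul_add]
    exact HasDerivAt.add hx hy
  smul_mem' := fun c x hx => by
    show HasDerivAt _ (a * (c * x _)) _
    rw [mul_left_comm]
    exact HasDerivAt.const_mul c hx

lemma dig_mul {T : Type} {γ : ℂ → T} {a b : ℂ} {A B : Submodule ℂ (T → ℂ)} (hA : A ≤ dig γ a)
    (hB : B ≤ dig γ b) : A * B ≤ dig γ (a + b) := Submodule.mul_le.2 fun x hx y hy => by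
  show HasDerivAt _ ((a + b) * (x _ * y _)) _
  refine (HasDerivAt.mul (hA hx) (hB hy)).congr_deriv ?_
  ring

lemma line_der {f : V → ℂ} (hf : Differentiable ℂ f) (v w : V) :
    HasDerivAt (fun s : ℂ => f (v + s • w)) (fderiv ℂ f v w) 0 := by
  have h1 : HasDerivAt (fun s : ℂ => v + s • w) w 0 := by
    simpa using ((hasDerivAt_id (0 : ℂ)).smul_const w).const_add v
  have h2 : HasFDerivAt f (fderiv ℂ f v) (v + (0 : ℂ) • w) := by simpa using (hf v).hasFDerivAt
  exact h2.comp_hasDerivAt 0 h1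

theorem der_add {g : σ → V → ℂ} (hd : ∀ l, Differentiable ℂ (g l)) (h0 : ∀ v, ∃ l, g l v ≠ 0)
    (law : ∀ i j, (fun t : V × V => g i (t.1 + t.2) * g j (t.1 - t.2)) ∈
      (crd fun (t : V × V) l => g l t.1) ^ 2 * (crd fun (t : V × V) l => g l t.2) ^ 2)
    {v w : V} {a : ℂ} (h : ∀ l, fderiv ℂ (g l) v w = a * g l v) (z : V) :
    ∃ c : ℂ, ∀ l, fderiv ℂ (g l) z w = c * g l z := by
  obtain ⟨y, rfl⟩ : ∃ y, z = v + y := ⟨z - v, by abel⟩
  obtain ⟨j, hj⟩ := h0 (v - y)
  have h1 : (crd fun (t : V × V) l => g l t.1) ≤ dig (fun s : ℂ => (v + s • w, y)) a :=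
    Submodule.span_le.2 (by
      rintro _ ⟨l, rfl⟩
      show HasDerivAt _ (a * g l (v + (0 : ℂ) • w)) _
      rw [zero_smul, add_zero, ← h]
      exact line_der (hd l) v w)
  have h2 : (crd fun (t : V × V) l => g l t.2) ≤ dig (fun s : ℂ => (v + s • w, y)) 0 :=
    Submodule.span_le.2 (by
      rintro _ ⟨l, rfl⟩
      show HasDerivAt _ (0 * _) _
      rw [zero_mul]
      exact hasDerivAt_const (0 : ℂ) (g l y))
  refine ⟨a + a - fderiv ℂ (g j) (v - y) w / g j (v - y), fun i => ?_⟩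
  have h3 := law i j
  rw [pow_two, pow_two] at h3
  have h4 : HasDerivAt (fun s : ℂ => g i (v + s • w + y) * g j (v + s • w - y))
      ((a + a + (0 + 0)) * (g i (v + (0 : ℂ) • w + y) * g j (v + (0 : ℂ) • w - y))) 0 :=
    dig_mul (dig_mul h1 h1) (dig_mul h2 h2) h3
  have h5 := (line_der (hd i) (v + y) w).mul (line_der (hd j) (v - y) w)
  simp only [add_right_comm v _ y, add_sub_right_comm v] at h4
  have h6 := h4.unique h5
  simp only [zero_smul, add_zero] at h6
  field_simp
  linear_combination -h6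

end der

/-- the fields `ker` and `hol` over the complex numbers -/
theorem emb {σ : Type} [Fintype σ] (hN : IsLat N) {g : σ → (ι → ℂ) → ℂ}
    (hd : ∀ l, Differentiable ℂ (g l))
    (hU : ∀ η ∈ N, ∀ l, U η (g l) ∈ Submodule.span ℂ (range g)) (h0 : ∀ v, ∃ l, g l v ≠ 0)
    (law : ∀ i j, (fun t : (ι → ℂ) × (ι → ℂ) => g i (t.1 + t.2) * g j (t.1 - t.2)) ∈
      (crd fun (t : (ι → ℂ) × (ι → ℂ)) l => g l t.1) ^ 2 *
        (crd fun (t : (ι → ℂ) × (ι → ℂ)) l => g l t.2) ^ 2) :
    (∀ v w, Par (fun l => g l v) (fun l => g l w) → v - w ∈ du N) ∧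
      ∀ v w (c : ℂ), fderiv ℂ (fun v l => g l v) v w = c • (fun l => g l v) → w = 0 := by
  have hd' : ∀ f ∈ Submodule.span ℂ (range g), Differentiable ℂ f := fun f hf => by
    induction hf using Submodule.span_induction with
    | mem _ h => obtain ⟨l, rfl⟩ := h; exact hd l
    | zero => exact differentiable_const 0
    | add a b _ _ ha hb => exact ha.add hb
    | smul r a _ ha => exact ha.const_smul r
  have hU' : ∀ η ∈ N, ∀ f ∈ Submodule.span ℂ (range g), U η f ∈ Submodule.span ℂ (range g) :=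
    fun η hη => (Submodule.span_le (p := (Submodule.span ℂ (range g)).comap (U η))).2
      (by rintro _ ⟨l, rfl⟩; exact hU η hη l)
  have h0' : ∀ z, ∃ f ∈ Submodule.span ℂ (range g), f z ≠ 0 := fun z =>
    (h0 z).elim fun l hl => ⟨_, Submodule.subset_span ⟨l, rfl⟩, hl⟩
  refine ⟨fun v w h => mem_du_of_prop hN hd' hU' h0' fun z => ?_,
    fun v w c h => eq_zero_of_prop hN hd' hU' h0' fun z => ?_⟩
  · obtain ⟨c, -, hc⟩ := par_add (p := fun v l => g l v) (c := 1)
      (fun v => (h0 v).imp fun _ h => h.isUnit) (fun _ => isUnit_one)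
      (fun i j => by rw [one_mul]; exact law i j) h (z - w)
    refine ⟨c, fun f hf => ?_⟩
    have := crd_eig (p := fun v l => g l v) hc hf
    rw [show v + (z - w) = z + (v - w) by abel, add_sub_cancel] at this
    exact this
  · obtain ⟨c', hc⟩ := der_add hd h0 law (v := v) (w := w) (a := c) (fun l => by
      have := congrFun h l
      rwa [fderiv_pi fun l => hd l v] at this) z
    refine ⟨c', fun f hf => ?_⟩
    induction hf using Submodule.span_induction with
    | mem _ h => obtain ⟨l, rfl⟩ := h; exact hc l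
    | zero => simp
    | add a b ha' hb' ha hb =>
      rw [fderiv_add (hd' a ha' z) (hd' b hb' z), add_apply, ha, hb,
        Pi.add_apply, mul_add]
    | smul r a ha' ha =>
      rw [fderiv_const_smul (hd' a ha' z), smul_apply, ha, Pi.smul_apply,
        smul_eq_mul, smul_eq_mul, mul_left_comm]

/-- the converse -/
theorem par_of_mem {σ : Type} {M : Submodule ℤ (ι → ℂ)} {g : σ → (ι → ℂ) → ℂ}
    (hg : ∀ l, g l ∈ Th M) {v w : ι → ℂ} (h : v - w ∈ M) :
    Par (fun l => g l v) (fun l => g l w) := by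
  refine ⟨(cexp (-π * Hm w (v - w) - π * nq (v - w) / 2))⁻¹, (inv_ne_zero (exp_ne_zero _)).isUnit,
    funext fun l => ?_⟩
  have := congrFun ((hg l).2 _ h) w
  rw [U_apply, add_sub_cancel] at this
  rw [Pi.smul_apply, smul_eq_mul, ← this, inv_mul_cancel_left₀ (exp_ne_zero _)]

end Pool.Agent.Tav.GrEmb
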