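import Pool.Agent.P.MP_2ce3e7_ag.Tav.GrRR
import Pool.Agent.P.MP_2ce3e7_ag.Tav.GrEmb

/-! The exact law of bidegree (2,2) over the valuation ring, its inverse, the embedding. -/

set_option autoImplicit false

noncomputable section

namespace Pool.Agent.Tav.GrLaw

open Complex Set Cmh Gd
open scoped Real

variable {ι σ : Type} [Fintype ι] {Λ : Submodule ℤ (ι → ℂ)} {f : (ι → ℂ) → ℂ}
  {R : ValuationSubring ℂ} {η : σ → ι → ℂ}

/-- `η` runs through the classes of a quarter of the dual lattice -/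
def Qt (Λ : Submodule ℤ (ι → ℂ)) (η : σ → ι → ℂ) : Prop :=
  (∀ l, 4 • η l ∈ du Λ) ∧ ∀ a, 4 • a ∈ du Λ → ∃ l, a - η l ∈ Λ

lemma exists_Qt (hΛ : Ev Λ) : ∃ (n : ℕ) (η : Fin n → ι → ℂ), Qt Λ η := by
  have hc : Com (scl 4 Λ) Λ := com_scl (by norm_num)
  obtain ⟨n, l, hl⟩ := exists_reps (hΛ.1.of_com hc.symm).du hΛ.1
    fun x hx => mem_du_scl.2 (nsmul_mem (hΛ.le_du hx) 4)
  exact ⟨n, l, fun a => mem_du_scl.1 (hl.1 a), fun a ha => (hl.2 a (mem_du_scl.2 ha)).exists⟩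

lemma Qt.QQ (hη : Qt Λ η) (hΛ : Ev Λ) (l : σ) : η l ∈ QQ Λ := QQ_of_du hΛ (by norm_num) (hη.1 l)

lemma four_of_two {x : ι → ℂ} (h : 2 • x ∈ du Λ) : 4 • x ∈ du Λ := by
  rw [show (4 : ℕ) = 2 * 2 from rfl, mul_smul]
  exact nsmul_mem h 2

lemma Good.mem (h : Good R Λ f) {a : ι → ℂ} (ha : a ∈ QQ Λ) : U a f 0 ∈ R :=
  (R.valuation_le_one_iff _).1 (h.le a ha)

lemma Good.lab (h : Good R Λ f) (hη : Qt Λ η) {a : ι → ℂ} (ha : 4 • a ∈ du Λ) :
    ∃ (l : σ) (u : ℂ), R.valuation u = 1 ∧ U a f = u • U (η l) f := by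
  obtain ⟨l, hl⟩ := hη.2 a ha
  refine ⟨l, _, val_ph _ h.un.1 (hη.QQ h.un.1 l) (le_QQ hl), ?_⟩
  rw [← U_add_mem h.th _ hl, add_sub_cancel]

lemma Good.th4 (h : Good R Λ f) {a : ι → ℂ} (ha : 4 • a ∈ du Λ) : U a f ∈ Th (scl 4 Λ) :=
  U_mem_Th (mem_du_scl.2 ha) (Th_mono (scl_le 4) h.th)

theorem Good.had4 (h : Good R Λ f) (hη : Qt Λ η) {b : Fin 4 → ι → ℂ} (hb : ∀ i, b i ∈ QQ Λ)
    (h4 : ∀ i, 4 • T b i ∈ du Λ) :
    (fun y : Fin 4 → ι → ℂ => ∏ i, U (b i) f (y i)) ∈ Submodule.span R (range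
      fun (l : Fin 4 → σ) (y : Fin 4 → ι → ℂ) => ∏ i, U (η (l i)) f (T y i)) := by
  refine Submodule.span_le.2 ?_ (h.had hb)
  rintro _ ⟨ξ, rfl⟩
  choose l u hu e using fun i => h.lab hη (a := T b i + (ξ i).1)
    (by rw [smul_add]; exact add_mem (h4 i) (four_of_two (ξ i).2))
  have h2 : ∏ i, u i ∈ R := prod_mem fun i _ => (R.valuation_le_one_iff _).1 (hu i).le
  refine mem_of_eq_of_mem (funext fun y => ?_) (Submodule.smul_mem _ (⟨_, h2⟩ : R)
    (Submodule.subset_span (mem_range_self l)))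
  simp only [e, Pi.smul_apply, smul_eq_mul, Finset.prod_mul_distrib]
  rfl

theorem Good.law_span (h : Good R Λ f) (hη : Qt Λ η) (i j : σ) :
    (fun t : (ι → ℂ) × (ι → ℂ) => U (η i) f (t.1 + t.2) * U (η j) f (t.1 - t.2)) ∈
      Submodule.span R (range fun (l : Fin 4 → σ) (t : (ι → ℂ) × (ι → ℂ)) =>
        U (η (l 0)) f t.1 * U (η (l 1)) f t.1 * (U (η (l 2)) f t.2 * U (η (l 3)) f t.2)) := by
  have hQ := hη.QQ h.un.1
  obtain ⟨x, hx, h1⟩ := h.eq _ (hQ i)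
  obtain ⟨y, hy, h2⟩ := h.eq _ (hQ j)
  have hx' := QQ_of_du h.un.1 two_ne_zero hx
  have hy' := QQ_of_du h.un.1 two_ne_zero hy
  have key := h.had4 hη (b := ![η i, η j, η i + x, η j + y])
    (fun a => by fin_cases a <;> simp only [Fin.reduceFinMk, Matrix.cons_val] <;>
      apply_rules [add_mem]) fun a => by
    have e : 4 • T ![η i, η j, η i + x, η j + y] = ![4 • η i + 4 • η j + 2 • x + 2 • y,
        -(2 • x) - 2 • y, 4 • η i - 4 • η j + 2 • x - 2 • y, 2 • y - 2 • x] := by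
      ext a b; fin_cases a <;> simp [T_apply] <;> ring
    have h3 := hη.1 i
    have h4 := hη.1 j
    rw [← Pi.smul_apply, e]
    fin_cases a <;> simp only [Fin.reduceFinMk, Matrix.cons_val] <;>
      apply_rules [add_mem, sub_mem, neg_mem]
  have h3 : R.valuation (U (η i + x) f 0 * U (η j + y) f 0)⁻¹ = 1 := by simp [h1, h2]
  have h4 : U (η i + x) f 0 * U (η j + y) f 0 ≠ 0 := fun e => by simp [e] at h3
  refine mem_of_eq_of_mem (funext fun t => ?_) (span_comp key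
    (fun t : (ι → ℂ) × (ι → ℂ) => ![t.1 + t.2, t.1 - t.2, 0, 0])
    (fun _ => (U (η i + x) f 0 * U (η j + y) f 0)⁻¹) fun l => ?_)
  · simp only [Fin.prod_univ_four, Matrix.cons_val]
    rw [mul_assoc, mul_comm _⁻¹, mul_inv_cancel_right₀ h4]
  · refine mem_of_eq_of_mem (funext fun t => ?_) (Submodule.smul_mem _
      (⟨_, (R.valuation_le_one_iff _).1 h3.le⟩ : R) (Submodule.subset_span (mem_range_self l)))
    simp only [← T_pair, T_T, Fin.prod_univ_four, Matrix.cons_val, mul_assoc]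
    rfl

theorem Good.inv_span (h : Good R Λ f) (hη : Qt Λ η) (i j : σ) :
    (fun t : (ι → ℂ) × (ι → ℂ) => U (η i) f t.1 ^ 2 * U (η j) f t.2 ^ 2) ∈
      Submodule.span R (range fun (l : σ × σ) (t : (ι → ℂ) × (ι → ℂ)) =>
        U (η l.1) f (t.1 + t.2) * U (η l.2) f (t.1 - t.2)) := by
  have hQ := hη.QQ h.un.1
  have key := h.had4 hη (b := ![η i, η i, η j, η j])
    (fun a => by fin_cases a <;> exact hQ _) fun a => by
    have h3 := hη.1 i
    have h4 := hη.1 j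
    rw [T_pair]
    fin_cases a <;> simp only [Fin.reduceFinMk, Matrix.cons_val, smul_add, smul_sub, smul_zero] <;>
      apply_rules [add_mem, sub_mem, zero_mem]
  refine mem_of_eq_of_mem (funext fun t => ?_) (span_comp key
    (fun t : (ι → ℂ) × (ι → ℂ) => ![t.1, t.1, t.2, t.2]) (fun _ => 1) fun l => ?_)
  · simp only [Fin.prod_univ_four, Matrix.cons_val]
    ring
  · refine mem_of_eq_of_mem (funext fun t => ?_) (Submodule.smul_mem _
      (⟨_, mul_mem (h.mem (hQ (l 2))) (h.mem (hQ (l 3)))⟩ : R)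
      (Submodule.subset_span (mem_range_self (l 0, l 1))))
    simp only [T_pair, Fin.prod_univ_four, Matrix.cons_val]
    show _ = U (η (l 2)) f 0 * U (η (l 3)) f 0 *
      (U (η (l 0)) f (t.1 + t.2) * U (η (l 1)) f (t.1 - t.2))
    ring

/-- the exact law -/
theorem Good.law [Fintype σ] (h : Good R Λ f) (hη : Qt Λ η) :
    ∃ c : σ → σ → (Fin 4 → σ) → R, ∀ i j x y, U (η i) f (x + y) * U (η j) f (x - y) =
      ∑ l, c i j l * (U (η (l 0)) f x * U (η (l 1)) f x * (U (η (l 2)) f y * U (η (l 3)) f y)) := by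
  choose c hc using fun i j => (Submodule.mem_span_range_iff_exists_fun R).1 (h.law_span hη i j)
  exact ⟨c, fun i j x y => (congrFun (hc i j) (x, y)).symm.trans (Finset.sum_apply _ _ _)⟩

/-- the inverse law -/
theorem Good.inv [Fintype σ] (h : Good R Λ f) (hη : Qt Λ η) :
    ∃ c : σ → σ → σ × σ → R, ∀ i j x y, U (η i) f x ^ 2 * U (η j) f y ^ 2 =
      ∑ l, c i j l * (U (η l.1) f (x + y) * U (η l.2) f (x - y)) := by
  choose c hc using fun i j => (Submodule.mem_span_range_iff_exists_fun R).1 (h.inv_span hη i j)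
  exact ⟨c, fun i j x y => (congrFun (hc i j) (x, y)).symm.trans (Finset.sum_apply _ _ _)⟩

/-- at a rational point the normalised coordinates are integral, and one is a unit -/
theorem Good.rat (h : Good R Λ f) (hη : Qt Λ η) {a : ι → ℂ} (ha : a ∈ QQ Λ) :
    (∀ l, R.valuation (U a (U (η l) f) 0) ≤ 1) ∧ ∃ l, R.valuation (U a (U (η l) f) 0) = 1 := by
  have hQ := hη.QQ h.un.1
  have e : ∀ b ∈ QQ Λ, R.valuation (U a (U b f) 0) = R.valuation (U (a + b) f 0) := fun b hb => by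
    rw [U_U', Pi.smul_apply, smul_eq_mul, map_mul, val_ph _ h.un.1 hb ha, one_mul]
  refine ⟨fun l => e _ (hQ l) ▸ h.le _ (add_mem ha (hQ l)), ?_⟩
  obtain ⟨ξ, hξ, h1⟩ := h.eq a ha
  obtain ⟨l, u, hu, h2⟩ := h.lab hη (four_of_two hξ)
  refine ⟨l, ?_⟩
  rwa [← e _ (QQ_of_du h.un.1 two_ne_zero hξ), h2, map_smul, Pi.smul_apply, smul_eq_mul, map_mul,
    hu, one_mul] at h1

theorem Good.ne (h : Good R Λ f) (hη : Qt Λ η) (z : ι → ℂ) : ∃ l, U (η l) f z ≠ 0 := by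
  have h1 : ∀ a ∈ QQ Λ, ∃ l, U (η l) f a ≠ 0 := fun a ha => by
    obtain ⟨l, hl⟩ := (h.rat hη ha).2
    refine ⟨l, fun e => ?_⟩
    rw [U_apply a, zero_add, e] at hl
    simp at hl
  by_contra hz
  push Not at hz
  obtain ⟨j, hj⟩ := h1 0 (zero_mem _)
  have h2 : ∀ a ∈ (QQ Λ : Set (ι → ℂ)), U (η j) f (z - a) = 0 := fun a ha => by
    obtain ⟨i, hi⟩ := h1 a ha
    have h3 : Submodule.span R (range fun (l : σ × σ) (t : (ι → ℂ) × (ι → ℂ)) =>
        U (η l.1) f (t.1 + t.2) * U (η l.2) f (t.1 - t.2)) ≤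
        LinearMap.ker (LinearMap.proj (R := R) (a, z - a)) := Submodule.span_le.2 (by
      rintro _ ⟨l, rfl⟩
      show _ * _ = (0 : ℂ)
      rw [add_sub_cancel, hz, zero_mul])
    have h4 : _ * _ = (0 : ℂ) := h3 (h.inv_span hη i j)
    simpa [hi] using h4
  have h3 := Continuous.ext_on h.un.1.1.dense_QQ
    ((U_diff (η j) h.th.1).continuous.comp (continuous_const.sub continuous_id)) continuous_const h2
  exact hj (by simpa using congrFun h3 z)

lemma quad_mem {K V : Type} [CommRing K] (p : V → σ → K) (a b c d : σ) :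
    (fun t : V × V => p t.1 a * p t.1 b * (p t.2 c * p t.2 d)) ∈
      (crd fun t : V × V => p t.1) ^ 2 * (crd fun t : V × V => p t.2) ^ 2 := by
  rw [pow_two, pow_two]
  exact Submodule.mul_mem_mul
    (Submodule.mul_mem_mul (Submodule.subset_span ⟨a, rfl⟩) (Submodule.subset_span ⟨b, rfl⟩))
    (Submodule.mul_mem_mul (Submodule.subset_span ⟨c, rfl⟩) (Submodule.subset_span ⟨d, rfl⟩))

theorem Good.lawC (h : Good R Λ f) (hη : Qt Λ η) (i j : σ) :
    (fun t : (ι → ℂ) × (ι → ℂ) => U (η i) f (t.1 + t.2) * U (η j) f (t.1 - t.2)) ∈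
      (crd fun (t : (ι → ℂ) × (ι → ℂ)) l => U (η l) f t.1) ^ 2 *
        (crd fun (t : (ι → ℂ) × (ι → ℂ)) l => U (η l) f t.2) ^ 2 := by
  refine (Submodule.restrictScalars_mem R _ _).1 (Submodule.span_le.2 ?_ (h.law_span hη i j))
  rintro _ ⟨l, rfl⟩
  exact quad_mem (fun v l => U (η l) f v) _ _ _ _

/-- the embedding -/
theorem Good.emb [Fintype σ] (h : Good R Λ f) (hη : Qt Λ η) :
    (∀ v w, Par (fun l => U (η l) f v) (fun l => U (η l) f w) ↔ v - w ∈ scl 4 Λ) ∧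
      ∀ v w (c : ℂ), fderiv ℂ (fun v l => U (η l) f v) v w = c • (fun l => U (η l) f v) →
        w = 0 := by
  have hL : IsLat (scl 4 Λ) := h.un.1.1.of_com (com_scl (by norm_num)).symm
  obtain ⟨h1, h2⟩ := GrEmb.emb hL.du (g := fun l => U (η l) f) (fun l => U_diff _ h.th.1)
    (fun a ha l => by
      obtain ⟨l', u, -, e⟩ := h.lab hη (a := a + η l)
        (by rw [smul_add]; exact add_mem (mem_du_scl.1 ha) (hη.1 l))
      rw [U_U', e]
      exact Submodule.smul_mem _ _ (Submodule.smul_mem _ _ (Submodule.subset_span ⟨l', rfl⟩)))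
    (h.ne hη) (h.lawC hη)
  exact ⟨fun v w => ⟨fun e => du_du hL ▸ h1 v w e,
    GrEmb.par_of_mem fun l => h.th4 (hη.1 l)⟩, h2⟩

end Pool.Agent.Tav.GrLaw
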