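import Pool.Agent.P.MP_2ce3e7_ag.Tav.GrPw
import Pool.Agent.P.MP_2ce3e7_ag.Tav.GrFlat

/-! Integral theta functions of level a power of four are integral forms in the coordinates. -/

set_option autoImplicit false
set_option linter.unusedSectionVars false

open Complex Matrix
open scoped Real ComplexConjugate

namespace Pool.Agent.Tav.Gd

open Pool.Agent.Cmh

noncomputable section

variable {ι : Type} [Fintype ι] [DecidableEq ι]

/-- signs of the Hadamard matrix -/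
def nrmS : Fin 4 → Fin 4 → ℂ := ![![1, 1, 1, 1], ![1, 1, -1, -1], ![1, -1, 1, -1], ![1, -1, -1, 1]]

/-- half the Hadamard matrix, acting on four copies -/
def nrmH (ι : Type) [DecidableEq ι] : Matrix (Σ _ : Fin 4, ι) (Σ _ : Fin 4, ι) ℂ :=
  fun s t => if s.2 = t.2 then nrmS s.1 t.1 / 2 else 0

lemma nrm_cp (z : (Σ _ : Fin 4, ι) → ℂ) (k : Fin 4) :
    cp (nrmH ι *ᵥ z) k = ∑ j, (nrmS k j / 2) • cp z j := by
  funext i
  simp [cp, nrmH, mulVec, dotProduct, Fintype.sum_sigma, Finset.sum_apply]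

lemma nrm_ext {z w : (Σ _ : Fin 4, ι) → ℂ} (h : ∀ k, cp z k = cp w k) : z = w :=
  funext fun s => congrFun (h s.1) s.2

lemma nrm_ct : (nrmH ι)ᴴ = nrmH ι := by
  ext ⟨a, i⟩ ⟨b, j⟩
  by_cases h : i = j
  · subst h
    fin_cases a <;> fin_cases b <;> simp [nrmH, nrmS]
  · simp [nrmH, h, Ne.symm h]

lemma nrm_sq (z : (Σ _ : Fin 4, ι) → ℂ) : nrmH ι *ᵥ (nrmH ι *ᵥ z) = z := by
  refine nrm_ext fun k => ?_
  simp only [nrm_cp, Fin.sum_univ_four]
  fin_cases k <;> simp [nrmS] <;> module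

lemma nrm_uni : IsUni (nrmH ι) := by
  have : nrmH ι * nrmH ι = 1 := Matrix.toLin'.injective (LinearMap.ext fun z => by
    rw [toLin'_apply, toLin'_apply, ← mulVec_mulVec, nrm_sq, one_mulVec])
  exact ⟨by rw [nrm_ct, this], by rw [nrm_ct, this]⟩

lemma nrm_two {N : Submodule ℤ (ι → ℂ)} {z : (Σ _ : Fin 4, ι) → ℂ} (hz : ∀ k, cp z k ∈ N)
    (k : Fin 4) : 2 • cp (nrmH ι *ᵥ z) k ∈ N := by
  have h0 := hz 0
  have h1 := hz 1
  have h2 := hz 2
  have h3 := hz 3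
  rw [nrm_cp, Fin.sum_univ_four]
  fin_cases k
  · have := add_mem (add_mem (add_mem h0 h1) h2) h3
    refine (congrArg (· ∈ N) ?_).mp this
    funext i
    simp [nrmS]
  · have := sub_mem (sub_mem (add_mem h0 h1) h2) h3
    refine (congrArg (· ∈ N) ?_).mp this
    funext i
    simp [nrmS]
    ring
  · have := sub_mem (add_mem (sub_mem h0 h1) h2) h3
    refine (congrArg (· ∈ N) ?_).mp this
    funext i
    simp [nrmS]
    ring
  · have := add_mem (sub_mem (sub_mem h0 h1) h2) h3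
    refine (congrArg (· ∈ N) ?_).mp this
    funext i
    simp [nrmS]
    ring

lemma nrm_QQ {N : Submodule ℤ (ι → ℂ)} {x : ι → ℂ} {n : ℕ} (hn : n ≠ 0) (h : n • x ∈ QQ N) :
    x ∈ QQ N := by
  obtain ⟨k, hk, h⟩ := h
  exact ⟨k * n, mul_ne_zero hk hn, by rwa [mul_smul]⟩

/-- the lattice `n N` -/
def nrmL (n : ℕ) (N : Submodule ℤ (ι → ℂ)) : Submodule ℤ (ι → ℂ) := N.map (n • LinearMap.id)

lemma mem_nrmL {n : ℕ} {N : Submodule ℤ (ι → ℂ)} {x : ι → ℂ} :
    x ∈ nrmL n N ↔ ∃ m ∈ N, n • m = x := Iff.rfl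

lemma nrmL_le {n : ℕ} {N : Submodule ℤ (ι → ℂ)} : nrmL n N ≤ N := by
  rintro _ ⟨m, hm, rfl⟩
  exact nsmul_mem hm n

lemma nrmL_com {n : ℕ} (hn : n ≠ 0) {N : Submodule ℤ (ι → ℂ)} : Com N (nrmL n N) :=
  ⟨n, hn, fun x hx => ⟨x, hx, rfl⟩, fun _ hx => nsmul_mem (nrmL_le hx) n⟩

lemma du_nrmL {n : ℕ} {N : Submodule ℤ (ι → ℂ)} {x : ι → ℂ} :
    x ∈ du (nrmL n N) ↔ n • x ∈ du N := by
  refine ⟨fun h m hm => ?_, ?_⟩
  · have := h _ (mem_nrmL.2 ⟨m, hm, rfl⟩)
    rwa [Hm_nsmul_right, ← Hm_nsmul_left] at this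
  · rintro h _ ⟨m, hm, rfl⟩
    have := h m hm
    rwa [Hm_nsmul_left, ← Hm_nsmul_right] at this

variable {R : ValuationSubring ℂ} {Λ : Submodule ℤ (ι → ℂ)} {f : (ι → ℂ) → ℂ} {σ : Type}
  {η : σ → ι → ℂ}

lemma un_nrmL (h : Un R.valuation Λ) {n : ℕ} (hn : R.valuation n = 1) :
    Un R.valuation (nrmL n Λ) := by
  have h0 : n ≠ 0 := fun e => by simp [e] at hn
  obtain ⟨N, hN, hN'⟩ := h.2
  refine ⟨h.1.mono (h.1.1.of_com (nrmL_com h0)) nrmL_le, n * (N * n), by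
    simp only [Nat.cast_mul, map_mul, hn, hN, one_mul], fun x hx => ?_⟩
  exact mem_nrmL.2 ⟨_, hN' _ (du_nrmL.1 hx), by simp only [mul_smul]⟩

/-- a theta function with good reduction -/
structure GoodF (R : ValuationSubring ℂ) (Λ : Submodule ℤ (ι → ℂ)) (f : (ι → ℂ) → ℂ) : Prop where
  un : Un R.valuation Λ
  two : R.valuation 2 = 1
  mem : f ∈ Th Λ
  le : ∀ a ∈ QQ Λ, R.valuation (U a f 0) ≤ 1
  ex : ∀ a ∈ QQ Λ, ∃ ξ, 2 • ξ ∈ du Λ ∧ R.valuation (U (a + ξ) f 0) = 1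

/-- representatives of a quarter of the dual lattice -/
structure Rep4 (Λ : Submodule ℤ (ι → ℂ)) (η : σ → ι → ℂ) : Prop where
  mem : ∀ l, 4 • η l ∈ du Λ
  ex : ∀ a, 4 • a ∈ du Λ → ∃ l, a - η l ∈ Λ

/-- the integral span of the coordinates -/
def AR (R : ValuationSubring ℂ) (f : (ι → ℂ) → ℂ) (η : σ → ι → ℂ) :
    Submodule R ((ι → ℂ) → ℂ) := Submodule.span R (Set.range fun l => U (η l) f)

lemma nrm_smul {T : Type} {N : Submodule R (T → ℂ)} {c : ℂ} (hc : R.valuation c ≤ 1) {w : T → ℂ}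
    (hw : w ∈ N) : c • w ∈ N := N.smul_mem ⟨c, (R.valuation_le_one_iff c).1 hc⟩ hw

lemma GoodF.qq (hf : GoodF R Λ f) {x : ι → ℂ} {n : ℕ} (hn : n ≠ 0) (h : n • x ∈ du Λ) :
    x ∈ QQ Λ := nrm_QQ hn (du_le_QQ hf.un.1 (Com.refl Λ) h)

/-- the Riemann relations with integral coefficients -/
theorem GoodF.had (hf : GoodF R Λ f) : ∃ (m : ℕ) (l : Fin m → Fin 4 → ι → ℂ) (c : Fin m → ℂ),
    (∀ a k, 2 • l a k ∈ du Λ) ∧ (∀ a, R.valuation (c a) ≤ 1) ∧
    ∀ w z : (Σ _ : Fin 4, ι) → ℂ, ∏ k, U (cp w k) f (cp (nrmH ι *ᵥ z) k) =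
      ∑ a, c a * ph (mkv (l a)) (nrmH ι *ᵥ w) *
        ∏ k, U (cp (nrmH ι *ᵥ w) k + l a k) f (cp z k) := by
  have hM : Un R.valuation (pl fun _ : Fin 4 => Λ) := un_pl fun _ => hf.un
  obtain ⟨ξ, h1, h2⟩ := hf.ex 0 (zero_mem _)
  rw [zero_add] at h2
  have hA : ∀ y ∈ QQ (pl fun _ : Fin 4 => Λ), nrmH ι *ᵥ y ∈ QQ (pl fun _ : Fin 4 => Λ) :=
    fun y hy => mem_QQ_pl.2 fun k => nrm_QQ two_ne_zero (nrm_two (mem_QQ_pl.1 hy) k)
  have hd := du_le_QQ hM.1 (Com.refl _)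
  have e : ∀ y : (Σ _ : Fin 4, ι) → ℂ, R.valuation (U y (tp fun _ : Fin 4 => f) 0) =
      ∏ k, R.valuation (U (cp y k) f 0) := fun y => by
    rw [U_tp, tp, map_prod]
    rfl
  have e1 : R.valuation (U (mkv fun _ : Fin 4 => ξ) (tp fun _ : Fin 4 => f) 0) = 1 := by
    simp only [e, cp_mkv, h2, Finset.prod_const_one]
  obtain ⟨m, l, c, a1, a2, a3⟩ := lin hM nrm_uni (n := 2) (by simpa using hf.two)
    (fun x hx k => nrm_two hx k) (fun x hx k => by rw [nrm_ct]; exact nrm_two hx k)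
    (tp_mem fun _ => hf.mem) (QQ _) le_rfl hd (fun x hx => by
      obtain ⟨y, hy, rfl⟩ := mem_mp.1 hx
      rw [nrm_ct]
      exact hA y (hd hy)) hA (w := mkv fun _ => ξ)
    (mem_QQ_pl.2 fun _ => hf.qq two_ne_zero h1) (fun y hy => by
      rw [e1, e]
      exact Finset.prod_le_one' fun k _ => hf.le _ (mem_QQ_pl.1 hy k))
    (fun h => by simp [h] at e1)
  refine ⟨m, fun a => cp (l a), c, fun a k => ?_, a2, fun w z => ?_⟩
  · obtain ⟨x, hx, y, hy, h⟩ := Submodule.mem_sup.1 (a1 a)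
    obtain ⟨u, hu, rfl⟩ := mem_mp.1 hy
    rw [du_pl] at hx hu
    show 2 • cp (l a) k ∈ _
    rw [← h, cp_add, smul_add, nrm_ct]
    exact add_mem (nsmul_mem (hx k) 2) (nrm_two hu k)
  · have h := congrFun (congrArg (U (nrmH ι *ᵥ w)) a3) z
    rw [U_pb nrm_uni, nrm_sq, pb_apply, U_tp, map_sum, Finset.sum_apply] at h
    refine h.trans (Finset.sum_congr rfl fun a _ => ?_)
    rw [map_smul, U_U', U_tp, Pi.smul_apply, Pi.smul_apply, smul_eq_mul, smul_eq_mul, ← mul_assoc]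
    rfl

/-- NORM -/
theorem GoodF.norm (hf : GoodF R Λ f) (hη : Rep4 Λ η) (k : ℕ) : ∀ ζ : ι → ℂ,
    2 ^ (k + 2) • ζ ∈ du Λ → (fun z => U ζ f (2 ^ k • z)) ∈ AR R f η ^ 4 ^ k := by
  induction k with
  | zero =>
    intro ζ hζ
    obtain ⟨l, hl⟩ := hη.ex ζ hζ
    have h := U_add_mem hf.mem (η l) hl
    rw [add_sub_cancel] at h
    simp only [pow_zero, one_smul, pow_one]
    rw [show (fun z => U ζ f z) = U ζ f from rfl, h]
    exact nrm_smul (val_ph _ hf.un.1 (hf.qq four_ne_zero (hη.mem l)) (le_QQ hl)).le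
      (Submodule.subset_span ⟨l, rfl⟩)
  | succ k ih =>
    intro ζ hζ
    have hq : ζ ∈ QQ Λ := hf.qq (pow_ne_zero _ two_ne_zero) hζ
    obtain ⟨ξ, h1, h2⟩ := hf.ex ζ hq
    have hξ : ξ ∈ QQ Λ := hf.qq two_ne_zero h1
    obtain ⟨m, l, c, a1, a2, a3⟩ := hf.had
    obtain ⟨w, hw⟩ : ∃ w : (Σ _ : Fin 4, ι) → ℂ, w = mkv ![ζ, ζ + ξ, ζ + ξ, ζ + ξ] := ⟨_, rfl⟩
    have h0 : U (ζ + ξ) f 0 ≠ 0 := fun h => by simp [h] at h2
    have hb : ∀ j, 2 ^ (k + 2) • cp (nrmH ι *ᵥ w) j ∈ du Λ := fun j => by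
      rw [nrm_cp, Fin.sum_univ_four, hw]
      fin_cases j
      · refine (congrArg (· ∈ du Λ) ?_).mp (add_mem hζ (nsmul_mem h1 (3 * 2 ^ k)))
        funext i
        simp [nrmS]
        ring
      all_goals
        refine (congrArg (· ∈ du Λ) ?_).mp (neg_mem (nsmul_mem h1 (2 ^ k)))
        funext i
        simp [nrmS]
        ring
    have e : (fun z => U ζ f (2 ^ (k + 1) • z)) = ∑ a, (c a * ph (mkv (l a)) (nrmH ι *ᵥ w) /
        U (ζ + ξ) f 0 ^ 3) • ∏ j, fun z => U (cp (nrmH ι *ᵥ w) j + l a j) f (2 ^ k • z) := by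
      funext z
      have h := a3 w (mkv fun _ => 2 ^ k • z)
      have b0 : cp (nrmH ι *ᵥ mkv fun _ => 2 ^ k • z) 0 = 2 ^ (k + 1) • z := by
        rw [nrm_cp, Fin.sum_univ_four]
        funext i
        simp [nrmS]
        ring
      have b1 : ∀ j : Fin 3, cp (nrmH ι *ᵥ mkv fun _ => 2 ^ k • z) j.succ = 0 := fun j => by
        rw [nrm_cp, Fin.sum_univ_four]
        funext i
        fin_cases j <;> simp [nrmS] <;> ring
      have b2 : ∀ j : Fin 3, cp w j.succ = ζ + ξ := fun j => by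
        rw [hw]
        fin_cases j <;> rfl
      rw [Fin.prod_univ_succ, b0] at h
      simp only [b1, b2, Finset.prod_const, Finset.card_univ, Fintype.card_fin, cp_mkv] at h
      rw [show cp w 0 = ζ by rw [hw]; rfl] at h
      simp only [Finset.sum_apply, Pi.smul_apply, Finset.prod_apply, smul_eq_mul,
        div_mul_eq_mul_div, ← Finset.sum_div]
      rw [← h, mul_div_cancel_right₀ _ (pow_ne_zero 3 h0)]
    rw [e]
    refine sum_mem fun a _ => nrm_smul ?_ ?_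
    · have q1 : mkv (l a) ∈ QQ (pl fun _ : Fin 4 => Λ) :=
        mem_QQ_pl.2 fun j => hf.qq two_ne_zero (a1 a j)
      have q2 : nrmH ι *ᵥ w ∈ QQ (pl fun _ : Fin 4 => Λ) :=
        mem_QQ_pl.2 fun j => hf.qq (pow_ne_zero (k + 2) two_ne_zero) (hb j)
      rw [map_div₀, map_mul, map_pow, h2, one_pow, div_one,
        val_ph _ (ev_pl fun _ : Fin 4 => hf.un.1) q1 q2, mul_one]
      exact a2 a
    · have b : ∀ j, (fun z => U (cp (nrmH ι *ᵥ w) j + l a j) f (2 ^ k • z)) ∈ AR R f η ^ 4 ^ k :=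
        fun j => ih _ (by
          rw [smul_add]
          refine add_mem (hb j) ?_
          rw [pow_succ, mul_smul]
          exact nsmul_mem (a1 a j) _)
      rw [Fin.prod_univ_four, show 4 ^ (k + 1) = 4 ^ k + 4 ^ k + 4 ^ k + 4 ^ k by ring, pow_add,
        pow_add, pow_add]
      exact Submodule.mul_mem_mul (Submodule.mul_mem_mul (Submodule.mul_mem_mul (b 0) (b 1))
        (b 2)) (b 3)

/-- expansion of a theta function of the lattice `n Λ` -/
theorem GoodF.expand (hf : GoodF R Λ f) {n : ℕ} (hn : R.valuation n = 1) {h : (ι → ℂ) → ℂ}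
    (hh : h ∈ Th (nrmL n Λ)) : ∃ (m : ℕ) (l : Fin m → ι → ℂ) (c : Fin m → ℂ),
      (∀ a, n • l a ∈ du Λ) ∧ (∀ a, ∃ τ ∈ QQ Λ, R.valuation (c a) = R.valuation (U τ h 0)) ∧
      h = ∑ a, c a • U (l a) f := by
  have h0 : n ≠ 0 := fun e => by simp [e] at hn
  have hU := un_nrmL hf.un hn
  obtain ⟨m, l, hl⟩ := exists_reps hU.1.1.du hU.1.1 hU.1.le_du
  obtain ⟨ξ, h1, h2⟩ := hf.ex 0 (zero_mem _)
  rw [zero_add] at h2
  obtain ⟨c, c1, c2⟩ := span hU hl (evU 0 ξ) (Th_mono nrmL_le hf.mem) hh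
    (fun e => by simp [evU_apply] at e; simp [e] at h2)
  refine ⟨m, l, c, fun a => du_nrmL.1 (hl.1 a), fun a => ?_, c2⟩
  have b1 := hf.qq two_ne_zero h1
  have b2 := neg_mem (hf.qq h0 (du_nrmL.1 (hl.1 a)))
  refine ⟨_, add_mem b1 b2, ?_⟩
  have := c1 a
  rwa [evU_apply, evU_apply, h2, mul_one, val_UU hf.un.1 b1 b2] at this

lemma GoodF.val_pow (hf : GoodF R Λ f) (k : ℕ) : R.valuation ((2 ^ k : ℕ) : ℂ) = 1 := by
  rw [Nat.cast_pow, map_pow, Nat.cast_ofNat, hf.two, one_pow]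

/-- BALL -/
theorem GoodF.ball (hf : GoodF R Λ f) (hη : Rep4 Λ η) (k : ℕ) {h : (ι → ℂ) → ℂ}
    (hh : h ∈ Th (nrmL (2 ^ (k + 2)) Λ)) (hv : ∀ a ∈ QQ Λ, R.valuation (U a h 0) ≤ 1) :
    (fun z => h (2 ^ k • z)) ∈ AR R f η ^ 4 ^ k := by
  obtain ⟨m, l, c, a1, a2, a3⟩ := hf.expand (hf.val_pow _) hh
  have e : (fun z => h (2 ^ k • z)) = ∑ a, c a • fun z => U (l a) f (2 ^ k • z) := by
    funext z
    rw [a3]
    simp only [Finset.sum_apply, Pi.smul_apply]
  rw [e]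
  refine sum_mem fun a _ => nrm_smul ?_ (hf.norm hη k _ (a1 a))
  obtain ⟨τ, h1, h2⟩ := a2 a
  exact h2 ▸ hv τ h1

/-- the factor of automorphy -/
def nrmE (z s : ι → ℂ) : ℂ := cexp (-π * Hm z s - π * nq s / 2)

lemma nrmE_pow (k : ℕ) (z s : ι → ℂ) : nrmE (2 ^ k • z) (2 ^ k • s) = nrmE z s ^ 4 ^ k := by
  have h : ((nq (2 ^ k • s) : ℝ) : ℂ) = 2 ^ k * (2 ^ k * nq s) := by
    rw [← Hm_self, Hm_nsmul_left, Hm_nsmul_right, Hm_self]
    push_cast
    rfl
  rw [nrmE, nrmE, ← Complex.exp_nat_mul, Hm_nsmul_left, Hm_nsmul_right, h]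
  congr 1
  push_cast
  rw [show (4 : ℂ) = 2 * 2 by norm_num, mul_pow]
  ring

/-- forms of degree `d` are theta functions of level `d` -/
theorem GoodF.level (hf : GoodF R Λ f) (hη : Rep4 Λ η) {d : ℕ} {g : (ι → ℂ) → ℂ}
    (hg : g ∈ AR R f η ^ d) : Differentiable ℂ g ∧
      ∀ m ∈ Λ, ∀ z, nrmE z (4 • m) ^ d * g (z + 4 • m) = g z := by
  induction hg using Submodule.pow_induction_on_left' with
  | algebraMap r => exact ⟨differentiable_const _, fun _ _ _ => by simp⟩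
  | add x y i _ _ hx hy => exact ⟨hx.1.add hy.1, fun m hm z => by
      rw [Pi.add_apply, mul_add, hx.2 m hm, hy.2 m hm, Pi.add_apply]⟩
  | mem_mul u hu i x _ hx =>
    have h : u ∈ Th (nrmL 4 Λ) := by
      induction hu using Submodule.span_induction with
      | mem u hu =>
        obtain ⟨l, rfl⟩ := hu
        exact U_mem_Th (du_nrmL.2 (hη.mem l)) (Th_mono nrmL_le hf.mem)
      | zero => exact zero_mem _
      | add _ _ _ _ a b => exact add_mem a b
      | smul c _ _ a => exact Submodule.smul_mem _ (c : ℂ) a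
    refine ⟨h.1.mul hx.1, fun m hm z => ?_⟩
    have e : nrmE z (4 • m) * u (z + 4 • m) = u z := congrFun (h.2 _ (mem_nrmL.2 ⟨m, hm, rfl⟩)) z
    rw [Pi.mul_apply, Pi.mul_apply, ← e, ← hx.2 m hm z, pow_succ]
    ring

section Crd
variable {T : Type} {φ : σ → T → ℂ} {x : T → σ → R} {n : T → ℂ} (hx : ∀ t l, φ l t = n t * x t l)
include hx

theorem to_crd {d : ℕ} {w : T → ℂ} (hw : w ∈ Submodule.span R (Set.range φ) ^ d) :
    ∃ u ∈ crd x ^ d, ∀ t, w t = n t ^ d * u t := by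
  induction hw using Submodule.pow_induction_on_left' with
  | algebraMap r => exact ⟨algebraMap _ _ r, by
      rw [pow_zero]; exact Submodule.algebraMap_mem r, fun t => by simp⟩
  | add a b i _ _ ha hb =>
    obtain ⟨u, u1, u2⟩ := ha
    obtain ⟨v, v1, v2⟩ := hb
    exact ⟨u + v, add_mem u1 v1, fun t => by simp [u2, v2, mul_add]⟩
  | mem_mul a ha i b _ hb =>
    obtain ⟨v, v1, v2⟩ := hb
    have h : ∃ u ∈ crd x, ∀ t, a t = n t * u t := by
      induction ha using Submodule.span_induction with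
      | mem a ha =>
        obtain ⟨l, rfl⟩ := ha
        exact ⟨_, Submodule.subset_span ⟨l, rfl⟩, fun t => hx t l⟩
      | zero => exact ⟨0, zero_mem _, fun t => by simp⟩
      | add _ _ _ _ a b =>
        obtain ⟨u, u1, u2⟩ := a
        obtain ⟨v, v1, v2⟩ := b
        exact ⟨u + v, add_mem u1 v1, fun t => by simp [u2, v2, mul_add]⟩
      | smul c _ _ a =>
        obtain ⟨u, u1, u2⟩ := a
        refine ⟨c • u, Submodule.smul_mem _ c u1, fun t => ?_⟩
        show (c : ℂ) * _ = _ * ((c : ℂ) * _)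
        rw [u2, mul_left_comm]
    obtain ⟨u, u1, u2⟩ := h
    refine ⟨u * v, by rw [pow_succ']; exact Submodule.mul_mem_mul u1 v1, fun t => ?_⟩
    simp only [Pi.mul_apply, u2, v2, MulMemClass.coe_mul, pow_succ]
    ring

theorem of_crd {d : ℕ} {u : T → R} (hu : u ∈ crd x ^ d) :
    (fun t => n t ^ d * u t) ∈ Submodule.span R (Set.range φ) ^ d := by
  induction hu using Submodule.pow_induction_on_left' with
  | algebraMap r =>
    rw [pow_zero]
    refine (congrArg (· ∈ _) ?_).mp (Submodule.algebraMap_mem r)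
    funext t
    simp
  | add a b i _ _ ha hb =>
    refine (congrArg (· ∈ _) ?_).mp (add_mem ha hb)
    funext t
    simp [mul_add]
  | mem_mul a ha i b _ hb =>
    have h : (fun t => n t * a t) ∈ Submodule.span R (Set.range φ) := by
      induction ha using Submodule.span_induction with
      | mem a ha =>
        obtain ⟨l, rfl⟩ := ha
        exact Submodule.subset_span ⟨l, funext fun t => hx t l⟩
      | zero =>
        refine (congrArg (· ∈ _) ?_).mp (zero_mem _)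
        funext t
        simp
      | add _ _ _ _ a b =>
        refine (congrArg (· ∈ _) ?_).mp (add_mem a b)
        funext t
        simp [mul_add]
      | smul c u _ a =>
        refine (congrArg (· ∈ _) ?_).mp (Submodule.smul_mem _ c a)
        funext t
        show (c : ℂ) * _ = _ * ((c : ℂ) * _)
        rw [mul_left_comm]
    rw [pow_succ']
    refine (congrArg (· ∈ _) ?_).mp (Submodule.mul_mem_mul h hb)
    funext t
    simp only [Pi.mul_apply, MulMemClass.coe_mul, pow_succ]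
    ring

end Crd

variable (hf : GoodF R Λ f) (hη : Rep4 Λ η) {x : (ι → ℂ) → σ → R} {n : (ι → ℂ) → ℂ}
  (hx : ∀ t l, U (η l) f t = n t * x t l) (hu : ∀ t, ∃ l, IsUnit (x t l))
include hf hη hx hu

/-- the normalising factor at rational points -/
theorem GoodF.val_n {s : ι → ℂ} (hs : s ∈ QQ Λ) : R.valuation (nrmE 0 s * n s) = 1 := by
  have e : ∀ l, R.valuation (nrmE 0 s * n s) * R.valuation (x s l : ℂ) =
      R.valuation (U (s + η l) f 0) := fun l => by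
    rw [← val_UU hf.un.1 hs (hf.qq four_ne_zero (hη.mem l)), ← map_mul, mul_assoc, ← hx,
      U_apply s, zero_add]
    rfl
  refine le_antisymm ?_ ?_
  · obtain ⟨l, hl⟩ := hu s
    have := e l
    rw [(R.valuation_eq_one_iff _).1 hl, mul_one] at this
    exact this ▸ hf.le _ (add_mem hs (hf.qq four_ne_zero (hη.mem l)))
  · obtain ⟨ξ, h1, h2⟩ := hf.ex s hs
    obtain ⟨l, hl⟩ := hη.ex ξ (by
      rw [show 4 = 2 * 2 from rfl, mul_smul]
      exact nsmul_mem h1 2)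
    have h3 := val_per (v := R.valuation) hf.un.1 hf.mem
      (add_mem hs (hf.qq four_ne_zero (hη.mem l))) hl 0
    rw [add_assoc, add_sub_cancel, h2, ← e] at h3
    rw [h3]
    exact mul_le_of_le_one_right' (R.valuation_le_one _)

/-- RED -/
theorem GoodF.sat (hn : ∀ t, n t ≠ 0) (k : ℕ) : ∀ w ∈ crd x ^ 4 ^ k, (∀ t, ¬ IsUnit (w t)) →
    w ∈ IsLocalRing.maximalIdeal R • crd x ^ 4 ^ k := by
  intro w hw h0
  obtain ⟨g1, g2⟩ := hf.level hη (of_crd (φ := fun l => U (η l) f) hx hw)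
  have inv : ∀ z : ι → ℂ, ((2 : ℂ) ^ k)⁻¹ • (2 ^ k • z) = z := fun z => by
    rw [← Nat.cast_smul_eq_nsmul ℂ, smul_smul]
    simp
  have inv' : ∀ z : ι → ℂ, 2 ^ k • (((2 : ℂ) ^ k)⁻¹ • z) = z := fun z => by
    rw [smul_comm, inv]
  obtain ⟨h, hh⟩ : ∃ h : (ι → ℂ) → ℂ, h = fun z =>
    n (((2 : ℂ) ^ k)⁻¹ • z) ^ 4 ^ k * w (((2 : ℂ) ^ k)⁻¹ • z) := ⟨_, rfl⟩
  have h1 : ∀ z, h (2 ^ k • z) = n z ^ 4 ^ k * w z := fun z => by rw [hh]; simp only [inv]
  have h2 : ∀ z s, U (2 ^ k • s) h (2 ^ k • z) =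
      nrmE z s ^ 4 ^ k * (n (z + s) ^ 4 ^ k * w (z + s)) := fun z s => by
    rw [U_apply, ← smul_add, h1, ← nrmE_pow]
    rfl
  obtain ⟨m, l, c, a1, a2, a3⟩ := hf.expand (hf.val_pow (k + 2)) (h := h) ⟨by
      rw [hh]
      exact g1.comp (f := fun z : ι → ℂ => ((2 : ℂ) ^ k)⁻¹ • z) (by fun_prop), by
    rintro _ ⟨m, hm, rfl⟩
    funext z
    have e : ((2 ^ (k + 2) : ℕ) • LinearMap.id (R := ℤ)) m = 2 ^ k • 4 • m := by
      rw [smul_smul, pow_add]
      rfl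
    rw [e, ← inv' z, h2, h1]
    exact g2 m hm _⟩
  have hc : ∀ a, R.valuation (c a) < 1 := fun a => by
    obtain ⟨τ, t1, t2⟩ := a2 a
    have e := h2 0 (((2 : ℂ) ^ k)⁻¹ • τ)
    rw [inv', smul_zero, zero_add, ← mul_assoc, ← mul_pow] at e
    rw [t2, e, map_mul, map_pow, hf.val_n hη hx hu (nrm_QQ (pow_ne_zero k two_ne_zero)
      (by rwa [inv'])), one_pow, one_mul]
    exact (R.valuation_lt_one_iff _).1 (h0 _)
  choose u u1 u2 using fun a => to_crd (φ := fun l => U (η l) f) hx (hf.norm hη k _ (a1 a))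
  have e : w = ∑ a, (⟨c a, (R.valuation_le_one_iff _).1 (hc a).le⟩ : R) • u a := by
    funext t
    refine Subtype.ext (mul_left_cancel₀ (pow_ne_zero (4 ^ k) (hn t)) ?_)
    rw [← h1, a3]
    simp only [Finset.sum_apply, Pi.smul_apply, smul_eq_mul, AddSubmonoidClass.coe_finsetSum,
      MulMemClass.coe_mul, Finset.mul_sum, u2]
    exact Finset.sum_congr rfl fun a _ => mul_left_comm _ _ _
  rw [e]
  exact sum_mem fun a _ => Submodule.smul_mem_smul ((R.valuation_lt_one_iff _).2 (hc a)) (u1 a)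

/-- the ranks on both fibres agree in the degrees `4 ^ k` -/
theorem GoodF.flat_pow (hn : ∀ t, n t ≠ 0) {Ω B : Type} [Field Ω] {r : R →+* Ω}
    (hr : Function.Surjective r) [Finite σ] {p : B → σ → Ω} {red : (ι → ℂ) → B}
    (h : Function.Surjective red) (hp : ∀ t, Par (p (red t)) fun l => r (x t l)) (k : ℕ) :
    Module.finrank Ω (crd p ^ 4 ^ k :) =
      Module.finrank ℂ ((crd fun v l => (x v l : ℂ)) ^ 4 ^ k :) :=
  flat_at hr x h hp (hf.sat hη hx hu hn k)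

/-- the ranks on both fibres agree in large degrees -/
theorem GoodF.flat_ev (hn : ∀ t, n t ≠ 0) {Ω B : Type} [Field Ω] {r : R →+* Ω}
    (hr : Function.Surjective r) [Finite σ] {p : B → σ → Ω} {red : (ι → ℂ) → B}
    (h : Function.Surjective red) (hp : ∀ t, Par (p (red t)) fun l => r (x t l)) :
    ∀ᶠ d : ℕ in Filter.atTop, Module.finrank Ω (crd p ^ d :) =
      Module.finrank ℂ ((crd fun v l => (x v l : ℂ)) ^ d :) :=
  Gd.flat_ev hr x h hp (hf.sat hη hx hu hn)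

end

end Pool.Agent.Tav.Gd
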