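import Pool.Agent.P.MP_2ce3e7_ag.Tav.GrEndB
import Pool.Agent.P.MP_2ce3e7_ag.Tav.GrLaw
import Pool.Agent.P.MP_2ce3e7_ag.Tav.GrNorm
import Pool.Agent.P.MP_2ce3e7_ag.Tav.GrNrm
import Pool.Agent.P.MP_2ce3e7_ag.Tav.GrGen
import Pool.Agent.P.MP_2ce3e7_ag.Tav.GrFib

/-! The model attached to a theta function with good reduction. -/

set_option autoImplicit false

open Complex Set Function

namespace Pool.Agent.Tav.GdEnd

open Pool.Agent.Cmh Pool.Agent.Tav.Gd Pool.Agent.Tav.GrLaw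

variable {g : ℕ} {M : Submodule ℤ (Fin g → ℂ)}

theorem riem_of_ev (h : Ev M) : Riem M := by
  refine ⟨Bim (Fin g), fun v => by simp [Bim_apply, Hm_self], fun l hl l' hl' => ?_,
    fun v w => ?_, fun v hv => ?_⟩
  · obtain ⟨k, hk⟩ := h.2 l hl l' hl'
    exact ⟨2 * k, by rw [Bim_apply, hk]; simp⟩
  · rw [Bim_apply, Bim_apply, Hm_smul_left, Hm_smul_right, ← mul_assoc]; simp
  · rw [Bim_apply, Hm_smul_left, Hm_self]
    simpa using lt_of_le_of_ne (nq_nonneg v) fun e => hv (nq_eq_zero e.symm)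

theorem en_sc {k : ℕ} (hk : k ≠ 0) : En (sc k M) = En M := by
  ext a
  constructor
  · intro h m hm
    obtain ⟨m', hm', e⟩ := mem_sc.1 (h _ (mem_sc.2 ⟨m, hm, rfl⟩))
    rw [mul_smul_comm] at e
    rwa [← nsmul_right_injective hk e]
  · intro h y hy
    obtain ⟨m, hm, rfl⟩ := mem_sc.1 hy
    exact mem_sc.2 ⟨_, h m hm, (mul_smul_comm _ _ _).symm⟩

theorem Dat.law {ι σ : Type} [Fintype ι] {M : Submodule ℤ (ι → ℂ)} {R : ValuationSubring ℂ}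
    {f : (ι → ℂ) → ℂ} {η : σ → ι → ℂ} {n : (ι → ℂ) → ℂ} {x : (ι → ℂ) → σ → R}
    (D : Dat R M f η n x) : Gn.Law x := by
  have h : Good R M f := ⟨D.un, D.two, D.th, D.le, D.one⟩
  have hN : Nrm.Nm (fun z l => U (η l) f z) n x := ⟨D.ne, D.eq, D.unit⟩
  refine hN.law (fun i j => Submodule.span_le.2 ?_ (h.law_span ⟨D.mem, D.all⟩ i j))
    fun i j => Submodule.span_le.2 ?_ (h.inv_span ⟨D.mem, D.all⟩ i j)
  · rintro _ ⟨l, rfl⟩
    rw [sq, sq]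
    exact Submodule.mul_mem_mul
      (Submodule.mul_mem_mul (Submodule.subset_span ⟨l 0, rfl⟩) (Submodule.subset_span ⟨l 1, rfl⟩))
      (Submodule.mul_mem_mul (Submodule.subset_span ⟨l 2, rfl⟩) (Submodule.subset_span ⟨l 3, rfl⟩))
  · rintro _ ⟨l, rfl⟩
    exact Submodule.mul_mem_mul (Submodule.subset_span ⟨l.1, rfl⟩) (Submodule.subset_span ⟨l.2, rfl⟩)

/-- ASM -/
theorem exists_model {Ω : Type} [Field Ω] [Infinite Ω] {R : ValuationSubring ℂ} {r : R →+* Ω}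
    (hr : Surjective r) {f : (Fin g → ℂ) → ℂ} (h : Good R M f)
    (cm : ∃ θ ∈ En M, Injective (Sum.elim θ (star θ)))
    (bal : ∀ a ∈ En M, ∃ d0 : ℕ, ∀ d ≥ d0, ∃ (n : ℕ) (b : Fin (n + 1) → Fin g → ℂ), b 0 = a ∧
      (∀ j, b j ∈ En M) ∧ ∀ i, ∑ j, b j i * star (b j i) = d) :
    ∃ (N : ℕ) (Y : Model r (Fin N) g), Y.Λ = sc 4 M ∧ En Y.Λ = En M ∧
      ∃ η n, Dat R M f η n Y.x := by
  obtain ⟨N, η, hη⟩ := exists_Qt h.un.1
  obtain ⟨n, x, hN⟩ := Nrm.exists_nm R (φ := fun z l => U (η l) f z) fun z e => by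
    obtain ⟨l, hl⟩ := h.ne hη z
    exact hl (congrFun e l)
  have D := dat_of_good h hη.1 hη.2 hN.ne hN.eq hN.prim
  have hF : GoodF R M f := ⟨h.un, h.two, h.th, h.le, h.eq⟩
  have h4 : Ev (sc 4 M) := (un_sc h.un (k := 4) (by
    rw [show ((4 : ℕ) : ℂ) = 2 * 2 by norm_num, map_mul, h.two, one_mul])).1
  have := h4.1.1
  have lat : IsZLattice ℝ (sc 4 M) := h4.1.zl
  have hol : ∃ φ : (Fin g → ℂ) → Fin N → ℂ, Differentiable ℂ φ ∧
      (∀ v, Par (φ v) fun l => x v l) ∧ ∀ v w (c : ℂ), fderiv ℂ φ v w = c • φ v → w = 0 :=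
    ⟨_, differentiable_pi.2 fun l => U_diff _ h.th.1, hN.par, (h.emb hη).2⟩
  have ker : ∀ v w, Par (x v) (x w) ↔ v - w ∈ sc 4 M := fun v w =>
    (hN.par_iff v w).trans ((h.emb hη).1 v w)
  have e4 : En (sc 4 M) = En M := en_sc four_ne_zero
  obtain ⟨Y, h1, h2, -⟩ := Fb.exists_model hr (sc 4 M) lat (riem_of_ev h4) (e4 ▸ cm) x hN.prim hol
    ker (Gn.av_model hN.prim hol
      (fun v w => (Nrm.par_iff (hN.prim v) (hN.prim w)).trans (ker v w)) D.law) D.law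
    (fun a ha => by
      obtain ⟨d, hd⟩ := bal a (e4 ▸ ha)
      obtain ⟨m, b, rfl, hb, e⟩ := hd (4 ^ d) (Nat.lt_pow_self (by norm_num)).le
      refine D.reg (k := d) (fun w hw hv => hF.ball ⟨hη.1, hη.2⟩ d hw hv) ⟨hb, ?_⟩ 0
      ext i
      rw [Finset.sum_apply]
      exact (e i).trans (by push_cast; rfl))
    (Fb.hp_eq_of_seq _ _ fun K => ⟨4 ^ K, (Nat.lt_pow_self (by norm_num)).le,
      hF.flat_pow ⟨hη.1, hη.2⟩ hN.eq hN.prim hN.ne hr surjective_id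
        (fun t => ⟨1, isUnit_one, (one_smul _ _).symm⟩) K⟩)
  exact ⟨N, Y, h1, h1 ▸ e4, η, n, h2 ▸ D⟩

end Pool.Agent.Tav.GdEnd
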