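import Mathlib

/-! Tropical theta functions on a torsion group: parallelogram inequality, halving, contraction. -/

set_option autoImplicit false

namespace Pool.Agent.Tav.GR

variable {W Γ : Type*} [AddCommGroup W] [LinearOrderedCommGroupWithZero Γ]

theorem per_mul {Γ : Type*} (f : ℕ → Γ) {k : ℕ} (hp : ∀ j, f (j + k) = f j) (j t : ℕ) :
    f (j + k * t) = f j := by
  induction t with
  | zero => simp
  | succ t ih => rw [mul_add, mul_one, ← add_assoc, hp, ih]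

theorem exists_max (f : ℕ → Γ) {k : ℕ} (hk : k ≠ 0) (hp : ∀ j, f (j + k) = f j) :
    ∃ j0, ∀ j, f j ≤ f j0 := by
  obtain ⟨j0, -, h⟩ := (Finset.range k).exists_max_image f ⟨0, by simpa using Nat.pos_of_ne_zero hk⟩
  refine ⟨j0, fun j => ?_⟩
  rw [← Nat.mod_add_div j k, per_mul f hp]
  exact h _ (Finset.mem_range.2 (Nat.mod_lt _ (Nat.pos_of_ne_zero hk)))

theorem exists_min (f : ℕ → Γ) {k : ℕ} (hk : k ≠ 0) (hp : ∀ j, f (j + k) = f j) :
    ∃ j0, ∀ j, f j0 ≤ f j := by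
  obtain ⟨j0, -, h⟩ := (Finset.range k).exists_min_image f ⟨0, by simpa using Nat.pos_of_ne_zero hk⟩
  refine ⟨j0, fun j => ?_⟩
  rw [← Nat.mod_add_div j k, per_mul f hp]
  exact h _ (Finset.mem_range.2 (Nat.mod_lt _ (Nat.pos_of_ne_zero hk)))

/-- a normalised function with the parallelogram inequality on a group that is torsion mod `G` -/
structure Trop (G : AddSubgroup W) (ν : W → Γ) : Prop where
  ne : ∀ x, ν x ≠ 0
  one : ν 0 = 1
  per : ∀ x, ∀ d ∈ G, ν (x + d) = ν x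
  tor : ∀ x, ∃ k : ℕ, k ≠ 0 ∧ k • x ∈ G
  par : ∀ x y, ν x ^ 2 * ν y ^ 2 ≤ ν (x + y) * ν (x - y)

namespace Trop

variable {G : AddSubgroup W} {ν : W → Γ} (h : Trop G ν)
include h

theorem pos (x : W) : 0 < ν x := zero_lt_iff.2 (h.ne x)

theorem le_one (x : W) : ν x ≤ 1 := by
  obtain ⟨k, hk, hx⟩ := h.tor x
  obtain ⟨j, hj⟩ := exists_max (fun j => ν (j • x)) hk fun j => by
    simp only [add_nsmul]; exact h.per _ _ hx
  have h1 := h.par (j • x) (j • x)
  rw [sub_self, h.one, mul_one, ← add_nsmul] at h1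
  have h2 : ν (j • x) ^ 3 * ν (j • x) ≤ 1 * ν (j • x) := by
    rw [one_mul, ← pow_succ, show 3 + 1 = 2 + 2 from rfl, pow_add]
    exact h1.trans (hj _)
  have h3 : ν (j • x) ^ 3 ≤ 1 := le_of_mul_le_mul_right h2 (h.pos _)
  have h4 : ν (j • x) ≤ 1 := (pow_le_one_iff (by norm_num)).1 h3
  simpa using (hj 1).trans h4

theorem eq_one_iff {x : W} : ν x = 1 ↔ 1 ≤ ν x := ⟨fun e => e.ge, fun e => (h.le_one x).antisymm e⟩

theorem le_add (x y : W) : ν x ^ 2 * ν y ^ 2 ≤ ν (x + y) :=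
  (h.par x y).trans (mul_le_of_le_one_right' (h.le_one _))

theorem le_sub (x y : W) : ν x ^ 2 * ν y ^ 2 ≤ ν (x - y) :=
  (h.par x y).trans (mul_le_of_le_one_left' (h.le_one _))

/-- the subgroup where `ν = 1` -/
def S : AddSubgroup W where
  carrier := {x | ν x = 1}
  zero_mem' := h.one
  add_mem' := fun {x y} hx hy => h.eq_one_iff.2 (by
    have := h.le_add x y
    rwa [show ν x = 1 from hx, show ν y = 1 from hy, one_pow, one_mul] at this)
  neg_mem' := fun {x} hx => h.eq_one_iff.2 (by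
    have := h.le_sub 0 x
    rwa [show ν x = 1 from hx, h.one, one_pow, one_mul, zero_sub] at this)

theorem mem_S {x : W} : x ∈ h.S ↔ ν x = 1 := Iff.rfl

theorem le_S : G ≤ h.S := fun d hd => by
  have := h.per 0 d hd
  rwa [zero_add, h.one] at this

theorem inv (x : W) {y : W} (hy : ν y = 1) : ν (x + y) = ν x := by
  obtain ⟨k, hk, hx⟩ := h.tor y
  have hp : ∀ j, ν (x + (j + k) • y) = ν (x + j • y) := fun j => by
    rw [add_nsmul, ← add_assoc]; exact h.per _ _ hx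
  obtain ⟨j0, hj⟩ := exists_max (fun j => ν (x + j • y)) hk hp
  have step : ∀ j, ν (x + (j + 1) • y) = ν (x + j0 • y) →
      ν (x + (j + 1 + 1) • y) = ν (x + j0 • y) := fun j e => by
    refine (hj _).antisymm ?_
    have h1 := h.par (x + (j + 1) • y) y
    rw [hy, one_pow, mul_one, e, add_assoc, ← succ_nsmul, succ_nsmul y j, ← add_assoc,
      add_sub_cancel_right, pow_two] at h1
    exact le_of_mul_le_mul_right (h1.trans (mul_le_mul_right (hj j) _)) (h.pos _)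
  have all : ∀ t, ν (x + (j0 + k + t) • y) = ν (x + j0 • y) := fun t => by
    induction t with
    | zero => exact hp j0
    | succ t ih =>
      obtain ⟨k', rfl⟩ := Nat.exists_eq_succ_of_ne_zero hk
      have e1 : j0 + k'.succ + t = j0 + k' + t + 1 := by omega
      have e2 : j0 + k'.succ + (t + 1) = j0 + k' + t + 1 + 1 := by omega
      rw [e1] at ih
      rw [e2]
      exact step _ ih
  have big : ∀ j, ν (x + j • y) = ν (x + j0 • y) := fun j => by
    have e : j + k * (j0 + 1) = j0 + k + (j + (k - 1) * j0) := by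
      obtain ⟨k', rfl⟩ := Nat.exists_eq_succ_of_ne_zero hk
      simp only [Nat.succ_eq_add_one, add_tsub_cancel_right]; ring
    rw [← per_mul (fun j => ν (x + j • y)) hp j (j0 + 1), e]
    exact all _
  have := (big 1).trans (big 0).symm
  simpa using this

/-- halving -/
def Half (G : AddSubgroup W) (ν : W → Γ) : Prop := ∀ y, ∃ β, 2 • β - y ∈ G ∧ ν y ≤ ν β ^ 4

theorem bound (hh : Half G ν) {μ : Γ} (hμ : ∀ y, 2 • y ∈ G → μ ≤ ν y) (y : W) :
    μ ^ 4 ≤ ν y := by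
  have step : ∀ y, ν (2 • y) * μ ^ 4 ≤ ν y * ν y := fun y => by
    obtain ⟨β, h1, h2⟩ := hh (2 • y)
    have h3 := h.le_add β (y - β)
    rw [add_sub_cancel] at h3
    have h4 : μ ≤ ν (y - β) := hμ _ (by
      have := G.neg_mem h1
      rwa [neg_sub, ← nsmul_sub] at this)
    calc ν (2 • y) * μ ^ 4 ≤ ν β ^ 4 * ν (y - β) ^ 4 := mul_le_mul' h2 (pow_le_pow_left' h4 4)
      _ = (ν β ^ 2 * ν (y - β) ^ 2) * (ν β ^ 2 * ν (y - β) ^ 2) := by
        rw [mul_mul_mul_comm, ← pow_add, ← pow_add]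
      _ ≤ _ := mul_le_mul' h3 h3
  obtain ⟨k, hk, hx⟩ := h.tor y
  obtain ⟨j, hj⟩ := exists_min (fun j => ν (j • y)) hk fun j => by
    simp only [add_nsmul]; exact h.per _ _ hx
  have h1 := step (j • y)
  rw [← mul_nsmul'] at h1
  have h2 : ν (j • y) * μ ^ 4 ≤ ν (j • y) * ν (j • y) := (mul_le_mul_left (hj _) _).trans h1
  have h3 : μ ^ 4 ≤ ν (j • y) := le_of_mul_le_mul_left h2 (h.pos _)
  simpa using h3.trans (hj 1)

theorem approx (hh : Half G ν) {μ : Γ} (hμ : ∀ y, 2 • y ∈ G → μ ≤ ν y) (n : ℕ) (y : W) :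
    ∃ β, 2 ^ n • (y - β) ∈ G ∧ μ ^ 4 ≤ ν β ^ 4 ^ n := by
  induction n generalizing y with
  | zero => exact ⟨y, by simp, by simpa using h.bound hh hμ y⟩
  | succ n ih =>
    obtain ⟨β', h1, h2⟩ := ih (2 • y)
    obtain ⟨β, h3, h4⟩ := hh β'
    refine ⟨β, ?_, ?_⟩
    · have := G.sub_mem h1 (G.nsmul_mem h3 (2 ^ n))
      rwa [← nsmul_sub, sub_sub_sub_cancel_right, ← nsmul_sub, ← mul_nsmul', ← pow_succ] at this
    · rw [pow_succ' 4 n, pow_mul]
      exact h2.trans (pow_le_pow_left' h4 _)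

/-- a map that does not decrease `ν`, moves the `8`-division points inside `S`, and whose
difference with the identity is onto, forces `ν = 1` -/
theorem contract (hh : Half G ν) (hf : (ν '' {y | 2 • y ∈ G}).Finite) (γ : W →+ W)
    (hγ : ∀ w, ν w ≤ ν (γ w)) (hs : ∀ y, ∃ x, γ x - x = y)
    (hz : ∀ z, 8 • z ∈ G → ν (γ z - z) = 1) (y : W) : ν y = 1 := by
  obtain ⟨_, ⟨y0, hy0, rfl⟩, hμ⟩ := Set.exists_min_image _ id hf ⟨_, 0, by simp, rfl⟩
  have hμ' : ∀ y, 2 • y ∈ G → ν y0 ≤ ν y := fun y hy => hμ _ ⟨y, hy, rfl⟩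
  obtain ⟨x, hx⟩ := hs y0
  obtain ⟨β, h1, h2⟩ := h.approx hh hμ' 3 x
  have e : y0 = (γ β - β) + (γ (x - β) - (x - β)) := by rw [← hx, map_sub]; abel
  have h3 : ν β ^ 4 ≤ ν y0 := by
    rw [e, h.inv _ (hz _ h1), show 4 = 2 + 2 from rfl, pow_add]
    exact (mul_le_mul_left (pow_le_pow_left' (hγ β) 2) _).trans (h.le_sub _ _)
  have h4 : 1 * ν y0 ^ 4 ≤ ν y0 ^ 12 * ν y0 ^ 4 := by
    rw [one_mul, ← pow_add]
    refine h2.trans ?_
    rw [show 4 ^ 3 = 4 * 16 from rfl, pow_mul]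
    exact pow_le_pow_left' h3 16
  have h5 : 1 ≤ ν y0 ^ 12 := le_of_mul_le_mul_right h4 (pow_pos (h.pos _) _)
  have h6 : 1 ≤ ν y0 := (one_le_pow_iff (by norm_num)).1 h5
  exact h.eq_one_iff.2 ((one_le_pow_of_one_le' h6 4).trans (h.bound hh hμ' y))

end Trop

end Pool.Agent.Tav.GR
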