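import Pool.Agent.P.MP_2ce3e7_ag.Tav.GrCoreA

/-! The arithmetic endgame: a tropical theta function with complex multiplication is constant. -/

set_option autoImplicit false
set_option linter.unusedSectionVars false

open NumberField

namespace Pool.Agent.Tav.GR

variable {L : Type*} [Field L] [NumberField L]

theorem mulD {D : Submodule (𝓞 L) L} {a d : L} (ha : IsIntegral ℤ a) (hd : d ∈ D) : a * d ∈ D :=
  D.smul_mem (⟨a, ha⟩ : 𝓞 L) hd

theorem exO {a : L} (ha : IsIntegral ℤ a) : ∃ o : 𝓞 L, (o : L) = a := ⟨⟨a, ha⟩, rfl⟩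

theorem co_mul (a b : 𝓞 L) : ((a * b : 𝓞 L) : L) = a * b := map_mul (algebraMap (𝓞 L) L) a b
theorem co_add (a b : 𝓞 L) : ((a + b : 𝓞 L) : L) = a + b := map_add (algebraMap (𝓞 L) L) a b
theorem co_sub (a b : 𝓞 L) : ((a - b : 𝓞 L) : L) = a - b := map_sub (algebraMap (𝓞 L) L) a b
theorem co_pow (a : 𝓞 L) (n : ℕ) : ((a ^ n : 𝓞 L) : L) = a ^ n := map_pow (algebraMap (𝓞 L) L) a n
theorem co_two : ((2 : 𝓞 L) : L) = 2 := map_ofNat (algebraMap (𝓞 L) L) 2
theorem co_one : ((1 : 𝓞 L) : L) = 1 := map_one (algebraMap (𝓞 L) L)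
theorem co_nat (n : ℕ) : ((n : 𝓞 L) : L) = n := map_natCast (algebraMap (𝓞 L) L) n
theorem co_eq {a b : 𝓞 L} (h : a = b) : (a : L) = b := h ▸ rfl

theorem int_nat (n : ℕ) : IsIntegral ℤ (n : L) := by
  simpa using isIntegral_algebraMap (R := ℤ) (A := L) (x := n)

theorem int_int (n : ℤ) : IsIntegral ℤ (n : L) := isIntegral_algebraMap (R := ℤ) (A := L) (x := n)

theorem int_two : IsIntegral ℤ (2 : L) := by simpa using int_nat (L := L) 2

theorem int_c (c : L ≃+* L) {a : L} (ha : IsIntegral ℤ a) : IsIntegral ℤ (c a) :=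
  ha.map c.toRingHom.toIntAlgHom

theorem exists_den (x : L) : ∃ n : ℕ, n ≠ 0 ∧ IsIntegral ℤ (n * x) := by
  have : IsAlgebraic ℤ x := (IsFractionRing.isAlgebraic_iff ℤ ℚ L).2 (Algebra.IsAlgebraic.isAlgebraic x)
  obtain ⟨y, hy, h⟩ := this.exists_integral_multiple
  refine ⟨y.natAbs, by simpa using hy, ?_⟩
  rw [zsmul_eq_mul] at h
  rcases Int.natAbs_eq y with e | e
  · rw [e] at h; simpa using h
  · rw [e] at h; simpa using h.neg

/-- partition of unity by an invertible module -/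
theorem pou {D : Submodule (𝓞 L) L} (h1 : (1 : L) ∈ D) {N : ℕ} (hN : N ≠ 0)
    (hD : ∀ d ∈ D, IsIntegral ℤ (N * d)) (P : L → Prop) (add : ∀ x y, P x → P y → P (x + y))
    (h : ∀ d ∈ D, ∀ a : L, (∀ e ∈ D, IsIntegral ℤ (a * e)) → P (d * a)) : P 1 := by
  have hN' : (N : L) ≠ 0 := Nat.cast_ne_zero.2 hN
  let I : Ideal (𝓞 L) :=
    { carrier := {a | (a : L) / N ∈ D}
      zero_mem' := by simp
      add_mem' := fun {a b} ha hb => by
        simpa [add_div] using D.add_mem ha hb
      smul_mem' := fun r a ha => by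
        have := D.smul_mem r ha
        simpa [Algebra.smul_def, mul_div_assoc] using this }
  have hI : Ideal.span {(N : 𝓞 L)} ≤ I := by
    rw [Ideal.span_singleton_le_iff_mem]
    show ((N : 𝓞 L) : L) / N ∈ D
    simpa [hN'] using h1
  obtain ⟨J, hJ⟩ := Ideal.dvd_iff_le.2 hI
  have key : ∀ z ∈ I * J, P ((z : L) / N) := fun z hz => by
    refine Submodule.mul_induction_on hz (fun a ha b hb => ?_) fun x y hx hy => ?_
    · have := h _ ha (b : L) fun e he => by
        obtain ⟨w, hw⟩ := exO (hD e he)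
        have h2 : w ∈ I := by
          show (w : L) / N ∈ D
          rwa [hw, mul_div_cancel_left₀ _ hN']
        have h3 := Ideal.mul_mem_mul h2 hb
        rw [← hJ, Ideal.mem_span_singleton'] at h3
        obtain ⟨o, ho⟩ := h3
        have h4 : (o : L) * N = N * e * b := by
          simpa only [co_mul, co_nat, hw] using co_eq ho
        have h5 : (b : L) * e = o := mul_left_cancel₀ hN' (by linear_combination -h4)
        rw [h5]; exact o.isIntegral_coe
      simpa [div_mul_eq_mul_div] using this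
    · simpa [add_div] using add _ _ hx hy
  have := key N (hJ ▸ Ideal.mem_span_singleton_self _)
  simpa [hN'] using this

/-- modules between `𝓞` and `𝓞[1/2]` that are divisible by `2` modulo `𝓞` -/
theorem struct (M : Submodule (𝓞 L) L) (h1 : (1 : L) ∈ M)
    (hd : ∀ x ∈ M, ∃ t ∈ M, IsIntegral ℤ (x - 2 * t)) :
    ∃ (h : ℕ) (π β : 𝓞 L), h ≠ 0 ∧ π * β = 2 ^ h ∧ IsCoprime π β ∧
      (∀ m : ℕ, 1 / (β : L) ^ m ∈ M) ∧
      ∀ (k : ℕ), ∀ x ∈ M, IsIntegral ℤ (2 ^ k * x) → IsIntegral ℤ ((β : L) ^ k * x) := by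
  have hO : ∀ a : L, IsIntegral ℤ a → a ∈ M := fun a ha => by simpa using mulD ha h1
  let I : ℕ → Ideal (𝓞 L) := fun k =>
    { carrier := {a | (a : L) / 2 ^ k ∈ M}
      zero_mem' := by simp
      add_mem' := fun {a b} ha hb => by simpa [add_div] using M.add_mem ha hb
      smul_mem' := fun r a ha => by
        have := M.smul_mem r ha
        simpa [Algebra.smul_def, mul_div_assoc] using this }
  have mI : ∀ k a, a ∈ I k ↔ (a : L) / 2 ^ k ∈ M := fun _ _ => Iff.rfl
  have h2 : (2 : L) ≠ 0 := two_ne_zero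
  have two : (2 : 𝓞 L) ∈ I 1 := by rw [mI, co_two]; simpa using h1
  obtain ⟨J, hJ⟩ := Ideal.dvd_iff_le.2 ((Ideal.span_singleton_le_iff_mem _).2 two)
  have down : ∀ k, I (k + 1) ≤ I k := fun k a ha => by
    rw [mI] at ha ⊢
    have := mulD int_two ha
    rwa [show 2 * ((a : L) / 2 ^ (k + 1)) = a / 2 ^ k by field_simp; ring] at this
  have up : ∀ k, ∀ b ∈ I 1, ∃ o : 𝓞 L, b - 2 * o ∈ I (k + 1) := fun k b hb => by
    induction k with
    | zero => exact ⟨0, by simpa using hb⟩
    | succ k ih =>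
      obtain ⟨o, ho⟩ := ih
      obtain ⟨t, ht, hi⟩ := hd _ ((mI _ _).1 ho)
      obtain ⟨w, hw⟩ := exO hi
      refine ⟨o + 2 ^ k * w, (mI _ _).2 ?_⟩
      have e : ((b - 2 * (o + 2 ^ k * w) : 𝓞 L) : L) / 2 ^ (k + 1 + 1) = t := by
        simp only [co_sub, co_mul, co_add, co_pow, co_two, hw]
        field_simp
        ring
      rwa [e]
  have anti : ∀ k, I (k + 1) ≤ I 1 := fun k => by
    induction k with
    | zero => exact le_rfl
    | succ k ih => exact (down _).trans ih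
  have h20 : (2 : 𝓞 L) ≠ 0 := two_ne_zero
  have I0 : I 1 ≠ 0 := fun e => h20 (by rw [e] at two; exact two)
  have J0 : J ≠ 0 := fun e => h20 (by
    rw [e, mul_zero] at hJ
    exact Ideal.span_singleton_eq_bot.1 hJ)
  have step : ∀ k, I (k + 1) = I k * I 1 := fun k => by
    refine le_antisymm ?_ (Ideal.mul_le.2 fun a ha b hb => ?_)
    · rw [← Ideal.dvd_iff_le, ← mul_dvd_mul_iff_right J0, mul_assoc, ← hJ, Ideal.dvd_iff_le]
      refine Ideal.mul_le.2 fun a ha j hj => ?_
      have h3 := Ideal.mul_mem_mul (anti k ha) hj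
      rw [← hJ, Ideal.mem_span_singleton'] at h3
      obtain ⟨o, ho⟩ := h3
      rw [← ho]
      refine Ideal.mul_mem_mul ((mI _ _).2 ?_) (Ideal.mem_span_singleton_self _)
      have h4 : (o : L) * 2 = a * j := by simpa only [co_mul, co_two] using co_eq ho
      have := mulD j.isIntegral_coe ((mI _ _).1 ha)
      rwa [show (j : L) * (a / 2 ^ (k + 1)) = o / 2 ^ k by
        field_simp; linear_combination (-2 ^ k) * h4] at this
    · obtain ⟨o, ho⟩ := up k b hb
      rw [show a * b = a * (b - 2 * o) + 2 * o * a by ring]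
      refine add_mem (Ideal.mul_mem_left _ _ ho) ((mI _ _).2 ?_)
      have := mulD o.isIntegral_coe ((mI _ _).1 ha)
      rwa [show (o : L) * (a / 2 ^ k) = ((2 * o * a : 𝓞 L) : L) / 2 ^ (k + 1) by
        simp only [co_mul, co_two]; field_simp; ring] at this
  have hpow : ∀ k, I k = I 1 ^ k := fun k => by
    induction k with
    | zero =>
      rw [pow_zero, Ideal.one_eq_top, eq_top_iff]
      exact fun a _ => (mI _ _).2 (by simpa using hO _ a.isIntegral_coe)
    | succ k ih => rw [step, ih, pow_succ]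
  have cop : IsCoprime (I 1) J := by
    rw [Ideal.isCoprime_iff_sup_eq, ← Ideal.one_eq_top]
    refine mul_left_cancel₀ I0 (le_antisymm (by rw [mul_one]; exact Ideal.mul_le_left) fun b hb => ?_)
    rw [mul_one] at hb
    obtain ⟨o, ho⟩ := up 1 b hb
    rw [Ideal.mul_sup, ← hJ, ← step, show b = b - 2 * o + o * 2 by ring]
    exact Ideal.add_mem _ (Ideal.mem_sup_left ho)
      (Ideal.mem_sup_right (Ideal.mul_mem_left _ _ (Ideal.mem_span_singleton_self _)))
  let h := Fintype.card (ClassGroup (𝓞 L))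
  have hp : (I 1 ^ h).IsPrincipal := by
    rw [← ClassGroup.mk0_eq_one_iff (pow_mem (mem_nonZeroDivisors_of_ne_zero I0) h),
      ← SubmonoidClass.mk_pow _ (mem_nonZeroDivisors_of_ne_zero I0), map_pow, pow_card_eq_one]
  obtain ⟨π, hπ⟩ := hp.principal
  replace hπ : I 1 ^ h = Ideal.span {π} := hπ
  have e2 : Ideal.span {(2 : 𝓞 L) ^ h} = Ideal.span {π} * J ^ h := by
    rw [← Ideal.span_singleton_pow, hJ, mul_pow, hπ]
  obtain ⟨β, hβ⟩ : π ∣ 2 ^ h := by
    rw [← Ideal.span_singleton_le_span_singleton, e2]; exact Ideal.mul_le_left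
  have π0 : π ≠ 0 := fun e => by rw [e, zero_mul] at hβ; exact pow_ne_zero _ h20 hβ
  have hJβ : J ^ h = Ideal.span {β} := by
    rw [hβ, ← Ideal.span_singleton_mul_span_singleton] at e2
    exact (mul_left_cancel₀ (by simpa using π0) e2).symm
  have hh : h ≠ 0 := Fintype.card_ne_zero
  have hL : (π : L) * β = 2 ^ h := by simpa only [co_mul, co_two, co_pow] using co_eq hβ.symm
  have β0 : (β : L) ≠ 0 := fun e => by rw [e, mul_zero] at hL; exact pow_ne_zero _ h2 hL.symm
  refine ⟨h, π, β, hh, hβ.symm, ?_, fun m => ?_, fun k x hx hi => ?_⟩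
  · rw [← Ideal.isCoprime_span_singleton_iff, ← hπ, ← hJβ]; exact cop.pow
  · have : π ^ m ∈ I (h * m) := by
      rw [hpow, pow_mul, hπ]; exact Ideal.pow_mem_pow (Ideal.mem_span_singleton_self _) m
    rw [mI, pow_mul, ← hL] at this
    have π1 : (π : L) ≠ 0 := by simpa using π0
    rwa [show ((π ^ m : 𝓞 L) : L) / (π * β) ^ m = 1 / (β : L) ^ m by
      simp only [co_pow, mul_pow]; field_simp] at this
  · obtain ⟨w, hw⟩ := exO hi
    have ha : w ∈ I k := (mI _ _).2 (by rwa [hw, mul_div_cancel_left₀ _ (pow_ne_zero _ h2)])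
    have hb : β ∈ J := Ideal.pow_le_self hh (hJβ ▸ Ideal.mem_span_singleton_self _)
    have h3 := Ideal.mul_mem_mul (hpow k ▸ ha) (Ideal.pow_mem_pow hb k)
    rw [← mul_pow, ← hJ, Ideal.span_singleton_pow, Ideal.mem_span_singleton'] at h3
    obtain ⟨o, ho⟩ := h3
    have h4 : (o : L) * 2 ^ k = 2 ^ k * x * β ^ k := by
      simpa only [co_mul, co_two, co_pow, hw] using co_eq ho
    have h5 : (β : L) ^ k * x = o := mul_left_cancel₀ (pow_ne_zero k h2) (by linear_combination -h4)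
    rw [h5]; exact o.isIntegral_coe

end Pool.Agent.Tav.GR
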