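import Pool.Agent.P.MP_e12fcd_ag.Cmh.Th3
import Pool.Agent.P.MP_e12fcd_ag.Cmh.Th5
import Pool.Agent.P.MP_e12fcd_ag.Cmh.Th8

/-! Orthogonality relation for theta functions and its ultrametric consequences. -/

set_option autoImplicit false

open Complex Matrix
open scoped Real ComplexConjugate

namespace Pool.Agent.Tav.Gd

open Pool.Agent.Cmh

noncomputable section

variable {ι : Type*} [Fintype ι] {M : Submodule ℤ (ι → ℂ)} {α : Type*} [Fintype α]
  {l : α → ι → ℂ}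

/-- the phase `exp (π i Im H(x, y))` -/
def ph (x y : ι → ℂ) : ℂ := cexp (π * I * (Hm x y).im)

lemma ph_ne (x y : ι → ℂ) : ph x y ≠ 0 := exp_ne_zero _

lemma ph_add_left (x x' y : ι → ℂ) : ph (x + x') y = ph x y * ph x' y := by
  simp [ph, Hm_add_left, mul_add, Complex.exp_add]

lemma ph_add_right (x y y' : ι → ℂ) : ph x (y + y') = ph x y * ph x y' := by
  simp [ph, Hm_add_right, mul_add, Complex.exp_add]

lemma ph_self (x : ι → ℂ) : ph x x = 1 := by simp [ph, Hm_self]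

lemma ph_swap (x y : ι → ℂ) : ph x y * ph y x = 1 := by
  rw [ph, ph, Hm_im_swap x y, ← Complex.exp_add]; simp

lemma ph_neg_left (x y : ι → ℂ) : ph (-x) y = ph y x := by
  rw [ph, ph, Hm_neg_left, Hm_im_swap x y]; simp

lemma ph_neg_right (x y : ι → ℂ) : ph x (-y) = ph y x := by
  rw [ph, ph, Hm_neg_right, Hm_im_swap x y]; simp

lemma U_U' (v w : ι → ℂ) (f : (ι → ℂ) → ℂ) : U v (U w f) = ph w v • U (v + w) f := by
  rw [U_U, ph, Hm_im_swap v w]; congr 2; push_cast; ring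

lemma ph_sq_int {x y : ι → ℂ} {k : ℤ} (h : (Hm x y).im = k) : ph x y * ph x y = 1 := by
  rw [ph, ← Complex.exp_add, h, ← Irr.exp_int k]; congr 1; push_cast; ring

lemma U_add_mem {f : (ι → ℂ) → ℂ} (hf : f ∈ Th M) (x : ι → ℂ) {m : ι → ℂ} (hm : m ∈ M) :
    U (x + m) f = ph x m • U x f := U_add_Th hf x hm

omit [Fintype α] in
lemma reps_neg (hl : IsReps (du M) M l) : IsReps (du M) M fun a => -l a := by
  refine ⟨fun a => neg_mem (hl.1 a), fun m hm => ?_⟩
  have : ∀ a, m - -l a ∈ M ↔ -m - l a ∈ M := fun a => by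
    rw [← neg_mem_iff, show -(m - -l a) = -m - l a by abel]
  simpa only [this] using hl.2 (-m) (neg_mem hm)

lemma char_sum (hM : IsLat M) (hl : IsReps (du M) M l) {x : ι → ℂ} (hx : x ∈ du M)
    (h : x ∉ M) : ∑ a, ph (l a) x * ph (l a) x = 0 := by
  rw [← du_du hM, mem_du] at h
  push Not at h
  obtain ⟨y, hy, h⟩ := h
  have e := (hl.add hy).sum_eq hl (fun w => ph w x * ph w x) fun w _ w' _ hw => by
    obtain ⟨k, hk⟩ := hx _ hw
    have h1 : ph (w - w') x * ph (w - w') x = 1 :=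
      ph_sq_int (k := -k) (by rw [Hm_im_swap x, hk]; simp)
    have h2 : ph w x = ph (w - w') x * ph w' x := by rw [← ph_add_left]; simp
    rw [h2]; linear_combination (ph w' x * ph w' x) * h1
  have e2 : ∑ a, ph (l a + y) x * ph (l a + y) x =
      (ph y x * ph y x) * ∑ a, ph (l a) x * ph (l a) x := by
    rw [Finset.mul_sum]; exact Finset.sum_congr rfl fun a _ => by rw [ph_add_left]; ring
  have h3 : ph y x * ph y x ≠ 1 := by
    intro h3
    rw [ph, ← Complex.exp_add, Complex.exp_eq_one_iff] at h3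
    obtain ⟨n, hn⟩ := h3
    refine h (-n) ?_
    have h4 : ((Hm y x).im : ℂ) = n := by
      have : (2 * π * I : ℂ) ≠ 0 := by simp [Real.pi_ne_zero]
      apply mul_left_cancel₀ this; linear_combination hn
    rw [Hm_im_swap y x]; exact_mod_cast congrArg Neg.neg h4
  rw [e2] at e
  have : (ph y x * ph y x - 1) * ∑ a, ph (l a) x * ph (l a) x = 0 := by linear_combination e
  exact (mul_eq_zero.1 this).resolve_left (sub_ne_zero.2 h3)

lemma term_per {X : Type*} [AddCommGroup X] [Module ℂ X] (A : ((ι → ℂ) → ℂ) →ₗ[ℂ] ℂ)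
    (B : ((ι → ℂ) → ℂ) →ₗ[ℂ] X) {f h : (ι → ℂ) → ℂ} (hf : f ∈ Th M) (hh : h ∈ Th M)
    {x y : ι → ℂ} (hy : y ∈ du M) (hw : x - y ∈ M) :
    A (U (-x) h) • B (U x f) = A (U (-y) h) • B (U y f) := by
  obtain ⟨m, hm, rfl⟩ : ∃ m ∈ M, x = y + m := ⟨x - y, hw, by abel⟩
  rw [neg_add, U_add_mem hh _ (neg_mem hm), U_add_mem hf _ hm, map_smul, map_smul, ph_neg_left,
    ph_neg_left, smul_eq_mul, smul_smul]
  congr 1
  obtain ⟨k, hk⟩ := hy m hm
  linear_combination (A (U (-y) h)) * ph_sq_int hk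

/-- ORT -/
theorem ort (hM : Ev M) (hl : IsReps (du M) M l) : ∃ c : ℂ, c ^ 2 = Fintype.card α ∧
    ∀ (A : ((ι → ℂ) → ℂ) →ₗ[ℂ] ℂ), ∀ f ∈ Th M, ∀ h ∈ Th M,
      ∑ a, A (U (-l a) h) • U (l a) f = (c * A f) • h := by
  classical
  have h1 : ∀ (A : ((ι → ℂ) → ℂ) →ₗ[ℂ] ℂ), ∀ f ∈ Th M, ∃ t : ℂ, ∀ h ∈ Th M,
      ∑ a, A (U (-l a) h) • U (l a) f = t • h := by
    intro A f hf
    refine schur hM (fun h => ∑ a, A (U (-l a) h) • U (l a) f) (fun h _ => ?_)
      (fun h _ h' _ => ?_) (fun c h _ => ?_) fun v hv h hh => ?_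
    · exact Submodule.sum_mem _ fun a _ => Submodule.smul_mem _ _ (U_mem_Th (hl.1 a) hf)
    · simp only [map_add, add_smul, Finset.sum_add_distrib]
    · simp only [map_smul, Finset.smul_sum, smul_eq_mul, mul_smul]
    · rw [← (hl.add hv).sum_eq hl (fun x => A (U (-x) (U v h)) • U x f) fun x _ y hy hw =>
        term_per A LinearMap.id hf (U_mem_Th hv hh) hy hw, map_sum]
      refine Finset.sum_congr rfl fun a _ => ?_
      rw [map_smul, U_U', U_U', map_smul, smul_eq_mul, smul_smul, add_comm v (l a),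
        ph_neg_right, ph_add_left, ph_self]
      congr 1
      rw [show -(l a + v) + v = -l a by abel]; ring
  choose t ht using h1
  have h2 : ∀ (A B : ((ι → ℂ) → ℂ) →ₗ[ℂ] ℂ) f (hf : f ∈ Th M) h (_ : h ∈ Th M),
      ∑ a, A (U (-l a) h) * B (U (l a) f) = t A f hf * B h := by
    intro A B f hf h hh
    have := congrArg B (ht A f hf h hh)
    simpa only [map_sum, map_smul, smul_eq_mul] using this
  have h3 : ∀ (A B : ((ι → ℂ) → ℂ) →ₗ[ℂ] ℂ) f (hf : f ∈ Th M) h (hh : h ∈ Th M),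
      t A f hf * B h = t B h hh * A f := by
    intro A B f hf h hh
    rw [← h2 A B f hf h hh, ← h2 B A h hh f hf,
      ← (reps_neg hl).sum_eq hl (fun x => B (U (-x) f) * A (U x h)) fun x _ y hy hw =>
        term_per B A hh hf hy hw]
    exact Finset.sum_congr rfl fun a _ => by rw [neg_neg, mul_comm]
  obtain ⟨f0, hf0, h0⟩ := exists_Th_ne hM
  obtain ⟨z, hz⟩ := Function.ne_iff.1 h0
  let A0 : ((ι → ℂ) → ℂ) →ₗ[ℂ] ℂ := (f0 z)⁻¹ • LinearMap.proj z
  have hA0 : A0 f0 = 1 := by simpa [A0] using inv_mul_cancel₀ hz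
  have h4 : ∀ A f hf, t A f hf = t A0 f0 hf0 * A f := fun A f hf => by
    rw [← h3 A A0 f hf f0 hf0, hA0, mul_one]
  refine ⟨t A0 f0 hf0, ?_, fun A f hf h hh => by rw [ht A f hf h hh, h4]⟩
  set c := t A0 f0 hf0 with hc
  have h5 : c ^ 2 = ∑ a, ∑ b, A0 (U (-l b) (U (l a) f0)) * A0 (U (l b) (U (-l a) f0)) := by
    have e := h2 A0 A0 f0 hf0 f0 hf0
    rw [hA0, mul_one, ← hc] at e
    rw [sq]
    nth_rewrite 2 [← e]
    rw [Finset.mul_sum]
    refine Finset.sum_congr rfl fun a _ => ?_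
    rw [h2 A0 A0 _ (U_mem_Th (neg_mem (hl.1 a)) hf0) _ (U_mem_Th (hl.1 a) hf0), h4, mul_assoc]
  have h6 : ∀ b, ∑ a, A0 (U (-l b) (U (l a) f0)) * A0 (U (l b) (U (-l a) f0)) =
      ∑ a, ph (l b) (l a) * ph (l b) (l a) * (A0 (U (l a) f0) * A0 (U (-l a) f0)) := by
    intro b
    rw [← (hl.add (hl.1 b)).sum_eq hl
      (fun x => A0 (U (-l b) (U x f0)) * A0 (U (l b) (U (-x) f0))) fun x _ y hy hw => by
        have := term_per (A0 ∘ₗ U (l b)) (A0 ∘ₗ U (-l b)) hf0 hf0 hy hw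
        simp only [LinearMap.comp_apply, smul_eq_mul] at this
        rw [mul_comm, this, mul_comm]]
    refine Finset.sum_congr rfl fun a _ => ?_
    rw [U_U', U_U', map_smul, map_smul, ph_neg_right, ph_neg_left, ph_add_right, ph_self,
      show -l b + (l a + l b) = l a by abel, show l b + -(l a + l b) = -l a by abel]
    simp only [smul_eq_mul]; ring
  rw [h5, Finset.sum_comm]
  simp only [h6]
  rw [Finset.sum_comm]
  obtain ⟨a0, ha0, hu⟩ := hl.2 0 (zero_mem _)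
  have hm : l a0 ∈ M := by simpa using ha0
  rw [Finset.sum_eq_single a0]
  · rw [hf0.2 _ hm, hf0.2 _ (neg_mem hm), hA0]
    have : ∀ b, ph (l b) (l a0) * ph (l b) (l a0) = 1 := fun b => by
      obtain ⟨k, hk⟩ := hl.1 b _ hm
      exact ph_sq_int hk
    simp [this]
  · intro a _ ha
    rw [← Finset.sum_mul, char_sum hM.1 hl (hl.1 a) fun h => ha (hu a (by simpa using h)),
      zero_mul]
  · simp

section Val

variable {Γ : Type*} [LinearOrderedCommGroupWithZero Γ] (v : Valuation ℂ Γ)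

lemma val_root {z : ℂ} {n : ℕ} (hn : n ≠ 0) (h : z ^ n = 1) : v z = 1 := by
  have : v z ^ n = 1 := by rw [← map_pow, h, map_one]
  exact (pow_eq_one_iff_left hn).1 this

lemma val_nat_le (n : ℕ) : v n ≤ 1 := by
  induction n with
  | zero => simp
  | succ n ih => rw [Nat.cast_succ]; exact v.map_add_le ih (by simp)

lemma val_ph_rat {x y : ι → ℂ} {n : ℕ} (hn : n ≠ 0) {k : ℤ} (h : n * (Hm x y).im = k) :
    v (ph x y) = 1 := by
  refine val_root v (n := 2 * n) (by omega) ?_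
  rw [ph, ← Complex.exp_nat_mul, ← Irr.exp_int k]
  congr 1
  have : (n : ℂ) * ((Hm x y).im : ℂ) = k := by exact_mod_cast h
  push_cast; linear_combination (2 * π * I) * this

lemma val_ph (hM : Ev M) {x y : ι → ℂ} (hx : x ∈ QQ M) (hy : y ∈ QQ M) : v (ph x y) = 1 := by
  obtain ⟨a, ha, hx⟩ := hx
  obtain ⟨b, hb, hy⟩ := hy
  obtain ⟨k, hk⟩ := hM.2 _ hx _ hy
  refine val_ph_rat v (mul_ne_zero ha hb) (k := 2 * k) ?_
  rw [Hm_nsmul_left, Hm_nsmul_right] at hk
  simp only [mul_im, natCast_re, natCast_im, zero_mul, add_zero] at hk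
  push_cast; linarith

lemma val_of_primes {m : ℕ} (hm : m ≠ 0) (h : ∀ q : ℕ, q.Prime → q ∣ m → v q = 1) : v m = 1 := by
  induction m using Nat.recOnMul with
  | zero => exact absurd rfl hm
  | one => simp
  | prime q hq => exact h q hq dvd_rfl
  | mul a b iha ihb =>
    rw [Nat.cast_mul, map_mul, iha (left_ne_zero_of_mul hm) fun q hq hd => h q hq (hd.mul_right _),
      ihb (right_ne_zero_of_mul hm) fun q hq hd => h q hq (hd.mul_left _), one_mul]

lemma val_of_dvd {q n : ℕ} (h : q ∣ n) (hn : v n = 1) : v q = 1 := by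
  obtain ⟨r, rfl⟩ := h
  rw [Nat.cast_mul, map_mul] at hn
  refine le_antisymm (val_nat_le v q) ?_
  calc 1 = v q * v r := hn.symm
    _ ≤ v q * 1 := mul_le_mul_right (val_nat_le v r) _
    _ = v q := mul_one _

lemma val_card {M' : Submodule ℤ (ι → ℂ)} (hl : IsReps M M' l) {n : ℕ} (hn : v n = 1)
    (h : ∀ x ∈ M, n • x ∈ M') : v (Fintype.card α) = 1 := by
  have := hl.nonempty
  refine val_of_primes v Fintype.card_ne_zero fun q hq hd => val_of_dvd v ?_ hn
  have : Fact q.Prime := ⟨hq⟩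
  rw [← Nat.card_eq_fintype_card, hl.card, AddSubgroup.relIndex, AddSubgroup.index] at hd
  have : Finite (M.toAddSubgroup ⧸ M'.toAddSubgroup.addSubgroupOf M.toAddSubgroup) := by
    apply Nat.finite_of_card_ne_zero
    have e := hl.card
    rw [AddSubgroup.relIndex, AddSubgroup.index] at e
    rw [← e]; exact Nat.card_pos.ne'
  obtain ⟨x, hx⟩ := exists_prime_addOrderOf_dvd_card' q hd
  rw [← hx, addOrderOf_dvd_iff_nsmul_eq_zero]
  induction x using QuotientAddGroup.induction_on with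
  | H x =>
    rw [← QuotientAddGroup.mk_nsmul, QuotientAddGroup.eq_zero_iff]
    exact h x.1 x.2

/-- an even lattice whose index in the dual lattice is a unit -/
def Un (M : Submodule ℤ (ι → ℂ)) : Prop := Ev M ∧ ∃ n : ℕ, v n = 1 ∧ ∀ x ∈ du M, n • x ∈ M

variable {v}

/-- SPAN -/
theorem span (hM : Un v M) (hl : IsReps (du M) M l) (A : ((ι → ℂ) → ℂ) →ₗ[ℂ] ℂ)
    {f h : (ι → ℂ) → ℂ} (hf : f ∈ Th M) (hh : h ∈ Th M) (h0 : A f ≠ 0) :
    ∃ c : α → ℂ, (∀ a, v (c a) * v (A f) = v (A (U (-l a) h))) ∧ h = ∑ a, c a • U (l a) f := by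
  obtain ⟨c, hc, H⟩ := ort hM.1 hl
  obtain ⟨n, hn, hn'⟩ := hM.2
  have h1 : v c = 1 := by
    have : v c ^ 2 = 1 := by rw [← map_pow, hc, val_card v hl hn hn']
    exact (pow_eq_one_iff_left two_ne_zero).1 this
  have h2 : c ≠ 0 := fun e => by simp [e] at h1
  refine ⟨fun a => (c * A f)⁻¹ * A (U (-l a) h), fun a => ?_, ?_⟩
  · have : v (A f) ≠ 0 := by simpa using h0
    rw [map_mul, map_inv₀, map_mul, h1, one_mul, mul_comm, ← mul_assoc, mul_inv_cancel₀ this,
      one_mul]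
  · simp only [mul_smul, ← Finset.smul_sum]
    rw [H A f hf h hh, smul_smul, inv_mul_cancel₀ (mul_ne_zero h2 h0), one_smul]

end Val

end

end Pool.Agent.Tav.Gd
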