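import Pool.Agent.P.MP_2ce3e7_ag.Tav.Stmt
import Pool.Agent.P.MP_2ce3e7_ag.Tav.GrOrt
import Pool.Agent.P.MP_e12fcd_ag.Cmh.Th2

/-! Endomorphisms of the theta model are regular over the valuation ring. -/

set_option autoImplicit false

open Complex Set
open scoped Real ComplexConjugate

namespace Pool.Agent.Tav.GdEnd

open Pool.Agent.Cmh Pool.Agent.Tav.Gd

noncomputable section

variable {ι : Type} [Fintype ι] {M : Submodule ℤ (ι → ℂ)}

/-- the lattice `k M` -/
def sc (k : ℕ) (M : Submodule ℤ (ι → ℂ)) : Submodule ℤ (ι → ℂ) := M.map (k • LinearMap.id)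

omit [Fintype ι] in
lemma mem_sc {k : ℕ} {x : ι → ℂ} : x ∈ sc k M ↔ ∃ m ∈ M, k • m = x := by
  simp [sc, Submodule.mem_map]

omit [Fintype ι] in
lemma sc_le (k : ℕ) : sc k M ≤ M := fun x hx => by
  obtain ⟨m, hm, rfl⟩ := mem_sc.1 hx
  exact nsmul_mem hm k

lemma im_nsmul (k : ℕ) (x y : ι → ℂ) : (Hm (k • x) y).im = (Hm x (k • y)).im := by
  rw [Hm_nsmul_left, Hm_nsmul_right]

lemma mem_du_sc {k : ℕ} {ξ : ι → ℂ} : ξ ∈ du (sc k M) ↔ k • ξ ∈ du M := by
  constructor
  · intro h m hm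
    rw [im_nsmul]; exact h _ (mem_sc.2 ⟨m, hm, rfl⟩)
  · intro h x hx
    obtain ⟨m, hm, rfl⟩ := mem_sc.1 hx
    rw [← im_nsmul]; exact h m hm

omit [Fintype ι] in
lemma com_sc {k : ℕ} (hk : k ≠ 0) : Com M (sc k M) :=
  ⟨k, hk, fun x hx => mem_sc.2 ⟨x, hx, rfl⟩, fun _ hx => nsmul_mem (sc_le k hx) k⟩

variable {Γ : Type*} [LinearOrderedCommGroupWithZero Γ] {v : Valuation ℂ Γ}

lemma un_sc (hM : Un v M) {k : ℕ} (hk : v k = 1) : Un v (sc k M) := by
  have h0 : k ≠ 0 := fun e => by simp [e] at hk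
  obtain ⟨hE, n, hn, h⟩ := hM
  refine ⟨hE.mono (hE.1.of_com (com_sc h0)) (sc_le k), k * (n * k), ?_, fun x hx => ?_⟩
  · push_cast; rw [map_mul, map_mul, hk, hn, one_mul, one_mul]
  · exact mem_sc.2 ⟨_, h _ (mem_du_sc.1 hx), by rw [mul_smul, mul_smul]⟩

/-- product of functions of the points `b i * z` -/
def pr {κ : Type} [Fintype κ] (b : κ → ι → ℂ) (F : κ → (ι → ℂ) → ℂ) : (ι → ℂ) → ℂ :=
  fun z => ∏ i, F i (b i * z)

lemma Hm_mul (b z w : ι → ℂ) : Hm (b * z) (b * w) = Hm (b * star b * z) w := by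
  simp only [Hm, Pi.mul_apply, Pi.star_apply, map_mul, RCLike.star_def]
  exact Finset.sum_congr rfl fun i _ => by ring

lemma Hm_sum {κ : Type} [Fintype κ] {b : κ → ι → ℂ} (hb : ∑ i, b i * star (b i) = 1)
    (z w : ι → ℂ) : ∑ i, Hm (b i * z) (b i * w) = Hm z w := by
  have : ∀ s : Finset κ, ∑ i ∈ s, Hm (b i * star (b i) * z) w =
      Hm ((∑ i ∈ s, b i * star (b i)) * z) w := fun s => by
    simp only [Hm, Finset.sum_mul, Finset.sum_apply]
    rw [Finset.sum_comm]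
  simp only [Hm_mul]
  rw [this, hb, one_mul]

lemma U_pr {κ : Type} [Fintype κ] {b : κ → ι → ℂ} (hb : ∑ i, b i * star (b i) = 1) (w : ι → ℂ)
    (F : κ → (ι → ℂ) → ℂ) : U w (pr b F) = pr b fun i => U (b i * w) (F i) := by
  ext z
  simp only [U_apply, pr, mul_add, Finset.prod_mul_distrib]
  rw [← Complex.exp_sum]
  congr 2
  simp only [← Hm_self]
  rw [Finset.sum_sub_distrib, ← Finset.mul_sum, ← Finset.sum_div, ← Finset.mul_sum, Hm_sum hb,
    Hm_sum hb]

lemma pr_diff {κ : Type} [Fintype κ] (b : κ → ι → ℂ) {F : κ → (ι → ℂ) → ℂ}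
    (hF : ∀ i, Differentiable ℂ (F i)) : Differentiable ℂ (pr b F) := by
  classical
  have : ∀ s : Finset κ, Differentiable ℂ fun z : ι → ℂ => ∏ i ∈ s, F i (b i * z) := fun s => by
    induction s using Finset.induction_on with
    | empty => simp
    | insert i s hi ih =>
      simp only [Finset.prod_insert hi]
      exact ((hF i).comp ((differentiable_const _).mul differentiable_id)).mul ih
  exact this _

lemma geom {a : ℕ → Γ} (h0 : ∀ j, a j ≠ 0) (h : ∀ j, a (j + 2) * a j = a (j + 1) ^ 2) {K : ℕ}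
    (hK : K ≠ 0) (e : a K = a 0) : a 1 = a 0 := by
  have h1 : ∀ j, a (j + 1) * a 0 = a 1 * a j := fun j => by
    induction j with
    | zero => rfl
    | succ j ih =>
      apply mul_right_cancel₀ (h0 j)
      rw [mul_right_comm, h j, sq, mul_assoc, ih]
      ac_rfl
  have h2 : ∀ j, a j * a 0 ^ j = a 1 ^ j * a 0 := fun j => by
    induction j with
    | zero => simp
    | succ j ih => rw [pow_succ', ← mul_assoc, h1, mul_assoc, ih, pow_succ', mul_assoc]
  have h3 := h2 K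
  rw [e, mul_comm] at h3
  exact ((pow_left_inj₀ zero_le zero_le hK).1 (mul_right_cancel₀ (h0 0) h3)).symm

/-- the exponential factor -/
def ex (z w : ι → ℂ) : ℂ := cexp (-π * Hm z w - π * nq w / 2)

lemma ex_par (z w w' : ι → ℂ) : ex z (w + w') * ex z (w - w') = ex z w ^ 2 * ex 0 w' ^ 2 := by
  simp only [ex, ← Complex.exp_nat_mul, ← Complex.exp_add, ← Hm_self, Hm_add_left, Hm_add_right,
    Hm_sub_left, Hm_sub_right, Hm_zero_left]
  congr 1
  push_cast; ring

/-- the data: a theta function with good reduction and normalised coordinates -/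
structure Dat (R : ValuationSubring ℂ) (M : Submodule ℤ (ι → ℂ)) (f : (ι → ℂ) → ℂ) {σ : Type}
    (η : σ → ι → ℂ) (n : (ι → ℂ) → ℂ) (x : (ι → ℂ) → σ → R) : Prop where
  un : Un R.valuation M
  two : R.valuation 2 = 1
  th : f ∈ Th M
  le : ∀ a ∈ QQ M, R.valuation (U a f 0) ≤ 1
  one : ∀ a ∈ QQ M, ∃ ξ, 2 • ξ ∈ du M ∧ R.valuation (U (a + ξ) f 0) = 1
  mem : ∀ l, 4 • η l ∈ du M
  all : ∀ a, 4 • a ∈ du M → ∃ l, a - η l ∈ M
  ne : ∀ z, n z ≠ 0
  eq : ∀ z l, U (η l) f z = n z * x z l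
  unit : ∀ z, ∃ l, IsUnit (x z l)
  quad : ∀ s t, R.valuation (n (s + t)) * R.valuation (n (s - t)) =
    R.valuation (n s) ^ 2 * R.valuation (n t) ^ 2

namespace Dat

variable {R : ValuationSubring ℂ} {f : (ι → ℂ) → ℂ} {σ : Type} {η : σ → ι → ℂ}
  {n : (ι → ℂ) → ℂ} {x : (ι → ℂ) → σ → R}

/-- the normalised size at `z + w` -/
def nu (R : ValuationSubring ℂ) (n : (ι → ℂ) → ℂ) (z w : ι → ℂ) : R.ValueGroup :=
  R.valuation (ex z w) * R.valuation (n (z + w))

lemma nu_zero (z : ι → ℂ) : nu R n z 0 = R.valuation (n z) := by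
  simp [nu, ex, Hm_zero_right, nq_zero]

variable (D : Dat R M f η n x)
include D

lemma val_U (z w : ι → ℂ) (l : σ) :
    R.valuation (U w (U (η l) f) z) = nu R n z w * R.valuation (x (z + w) l : ℂ) := by
  rw [U_apply w, D.eq, map_mul, map_mul, nu, ex, mul_assoc]

lemma val_le (z w : ι → ℂ) (l : σ) : R.valuation (U w (U (η l) f) z) ≤ nu R n z w := by
  rw [D.val_U]
  exact mul_le_of_le_one_right' (R.valuation_le_one _)

lemma val_eq (z w : ι → ℂ) : ∃ l, R.valuation (U w (U (η l) f) z) = nu R n z w := by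
  obtain ⟨l, hl⟩ := D.unit (z + w)
  exact ⟨l, by rw [D.val_U, (R.valuation_eq_one_iff _).1 hl, mul_one]⟩

lemma nu_ne (z w : ι → ℂ) : nu R n z w ≠ 0 :=
  mul_ne_zero (by simp [ex]) (by simpa using D.ne _)

lemma qq {a : ι → ℂ} {k : ℕ} (hk : k ≠ 0) (h : k • a ∈ du M) : a ∈ QQ M := by
  obtain ⟨j, hj, e⟩ := du_le_QQ D.un.1 (Com.refl M) h
  exact ⟨j * k, mul_ne_zero hj hk, by rwa [mul_smul]⟩

lemma nu_one {w : ι → ℂ} (hw : w ∈ QQ M) : nu R n 0 w = 1 := by
  have hη : ∀ l, η l ∈ QQ M := fun l => D.qq four_ne_zero (D.mem l)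
  have key : ∀ l, R.valuation (U w (U (η l) f) 0) = R.valuation (U (w + η l) f 0) := fun l => by
    rw [U_U', Pi.smul_apply, smul_eq_mul, map_mul, val_ph _ D.un.1 (hη l) hw, one_mul]
  apply le_antisymm
  · obtain ⟨l, hl⟩ := D.val_eq 0 w
    rw [← hl, key]
    exact D.le _ (add_mem hw (hη l))
  · obtain ⟨ξ, h1, h2⟩ := D.one w hw
    obtain ⟨l, hl⟩ := D.all ξ (by
      rw [show (4 : ℕ) = 2 * 2 from rfl, mul_smul]; exact nsmul_mem h1 2)
    rw [show w + ξ = w + η l + (ξ - η l) by abel, U_add_mem D.th _ hl, Pi.smul_apply, smul_eq_mul,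
      map_mul, val_ph _ D.un.1 (add_mem hw (hη l)) (le_QQ hl), one_mul, ← key] at h2
    rw [← h2]
    exact D.val_le 0 w l

lemma th4 (l : σ) : U (η l) f ∈ Th (sc 4 M) :=
  U_mem_Th (mem_du_sc.2 (D.mem l)) (Th_mono (sc_le 4) D.th)

lemma nu_lat (z : ι → ℂ) {m : ι → ℂ} (hm : m ∈ M) : nu R n z (4 • m) = nu R n z 0 := by
  have h : ∀ l, U (4 • m) (U (η l) f) = U 0 (U (η l) f) := fun l => by
    rw [U_zero, (D.th4 l).2 _ (mem_sc.2 ⟨m, hm, rfl⟩)]
  apply le_antisymm
  · obtain ⟨l, hl⟩ := D.val_eq z (4 • m)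
    rw [← hl, h]; exact D.val_le _ _ l
  · obtain ⟨l, hl⟩ := D.val_eq z 0
    rw [← hl, ← h]; exact D.val_le _ _ l

lemma nu_par (z w w' : ι → ℂ) :
    nu R n z (w + w') * nu R n z (w - w') = nu R n z w ^ 2 * nu R n 0 w' ^ 2 := by
  have h := D.quad (z + w) w'
  have e := congrArg R.valuation (ex_par z w w')
  simp only [map_mul, map_pow] at e
  simp only [nu, zero_add, mul_pow]
  rw [mul_mul_mul_comm, e, ← add_assoc, ← add_sub_assoc, h, mul_mul_mul_comm]

/-- the size is invariant under torsion points -/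
lemma nu_eq (z : ι → ℂ) {w : ι → ℂ} (hw : w ∈ QQ M) : nu R n z w = R.valuation (n z) := by
  obtain ⟨k, hk, hm⟩ := id hw
  have := geom (a := fun j => nu R n z (j • w)) (fun j => D.nu_ne _ _) (fun j => by
    have e := D.nu_par z ((j + 1) • w) w
    rw [D.nu_one hw, one_pow, mul_one, ← succ_nsmul, succ_nsmul w j, add_sub_cancel_right] at e
    rw [succ_nsmul w j]; exact e) (K := 4 * k) (by omega) (by
      simp only [zero_smul]; rw [mul_smul]; exact D.nu_lat z hm)
  simpa only [one_smul, zero_smul, nu_zero] using this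

lemma n_zero : R.valuation (n 0) = 1 := by rw [← nu_zero, D.nu_one (zero_mem _)]

section Fam

variable {k : ℕ} {κ : Type} [Fintype κ] {b : κ → ι → ℂ}

/-- a family of endomorphisms whose norms add up to `4 ^ k` -/
def Fam (M : Submodule ℤ (ι → ℂ)) (k : ℕ) {κ : Type} [Fintype κ] (b : κ → ι → ℂ) : Prop :=
  (∀ i, ∀ m ∈ M, b i * m ∈ M) ∧ ∑ i, b i * star (b i) = 4 ^ k

/-- the family divided by `2 ^ k` -/
def dv (k : ℕ) (b : κ → ι → ℂ) (i : κ) : ι → ℂ := ((2 : ℂ) ^ k)⁻¹ • b i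

omit D [Fintype ι] in
lemma dv_sum (hb : Fam M k b) : ∑ i, dv k b i * star (dv k b i) = 1 := by
  ext j
  have e := congrFun hb.2 j
  simp only [Finset.sum_apply, Pi.mul_apply, Pi.star_apply, Pi.pow_apply, Pi.ofNat_apply] at e
  have : ∀ i, (dv k b i * star (dv k b i)) j = ((4 : ℂ) ^ k)⁻¹ * (b i j * star (b i j)) := fun i => by
    simp only [dv, Pi.mul_apply, Pi.star_apply, Pi.smul_apply, smul_eq_mul, star_mul', star_inv₀,
      star_pow, star_ofNat]
    rw [show (4 : ℂ) = 2 * 2 by norm_num, mul_pow]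
    field_simp
  rw [Finset.sum_apply]
  simp only [this]
  rw [← Finset.mul_sum, e, inv_mul_cancel₀ (by simp), Pi.one_apply]

omit D [Fintype ι] [Fintype κ] in
lemma dv_mul (i : κ) (z : ι → ℂ) : dv k b i * (2 ^ k • z) = b i * z := by
  ext j
  rw [Pi.mul_apply, Pi.mul_apply, dv, Pi.smul_apply, Pi.smul_apply, smul_eq_mul, nsmul_eq_mul]
  push_cast
  field_simp

omit D [Fintype ι] in
lemma dv_qq (hb : Fam M k b) (i : κ) {a : ι → ℂ} (ha : a ∈ QQ M) : dv k b i * a ∈ QQ M := by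
  obtain ⟨j, hj, h⟩ := ha
  refine ⟨2 ^ k * j, by positivity, ?_⟩
  rw [← mul_smul_comm, mul_smul, dv_mul]
  exact hb.1 i _ h

lemma pr_th (hb : Fam M k b) (l : κ → σ) :
    pr (dv k b) (fun i => U (η (l i)) f) ∈ Th (sc (2 ^ (k + 2)) M) := by
  refine ⟨pr_diff _ fun i => U_diff _ D.th.1, fun y hy => ?_⟩
  obtain ⟨m, hm, rfl⟩ := mem_sc.1 hy
  rw [U_pr (dv_sum hb)]
  congr 1
  ext1 i
  rw [pow_add, mul_smul, dv_mul, mul_smul_comm]
  exact (D.th4 _).2 _ (mem_sc.2 ⟨_, hb.1 i m hm, rfl⟩)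

lemma pr_le (hb : Fam M k b) (l : κ → σ) {a : ι → ℂ} (ha : a ∈ QQ M) (t : ι → ℂ) :
    R.valuation (U a (pr (dv k b) fun i => U (η (l i)) f) (2 ^ k • t)) ≤
      ∏ i, R.valuation (n (b i * t)) := by
  rw [U_pr (dv_sum hb), pr, map_prod]
  refine Finset.prod_le_prod' fun i _ => ?_
  rw [dv_mul, ← D.nu_eq _ (dv_qq hb i ha)]
  exact D.val_le _ _ _

lemma pr_le_one (hb : Fam M k b) (l : κ → σ) {a : ι → ℂ} (ha : a ∈ QQ M) :
    R.valuation (U a (pr (dv k b) fun i => U (η (l i)) f) 0) ≤ 1 := by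
  simpa [D.n_zero] using D.pr_le hb l ha 0

lemma pr_eq (t : ι → ℂ) : ∃ l : κ → σ, (∀ i, IsUnit (x (b i * t) (l i))) ∧
    R.valuation (pr (dv k b) (fun i => U (η (l i)) f) (2 ^ k • t)) =
      ∏ i, R.valuation (n (b i * t)) := by
  choose l hl using fun i => D.unit (b i * t)
  refine ⟨l, hl, ?_⟩
  rw [pr, map_prod]
  refine Finset.prod_congr rfl fun i _ => ?_
  rw [dv_mul, D.eq, map_mul, (R.valuation_eq_one_iff _).1 (hl i), mul_one]

lemma cmp {κ' : Type} [Fintype κ'] {b' : κ' → ι → ℂ} (hb : Fam M k b) (hb' : Fam M k b')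
    (t : ι → ℂ) : ∏ i, R.valuation (n (b i * t)) ≤ ∏ i, R.valuation (n (b' i * t)) := by
  have hu : Un R.valuation (sc (2 ^ (k + 2)) M) :=
    un_sc D.un (by push_cast; rw [map_pow, D.two, one_pow])
  obtain ⟨N, r, hr⟩ := exists_reps hu.1.1.du hu.1.1 hu.1.le_du
  have hq : ∀ a, r a ∈ QQ M := fun a => D.qq (by positivity) (mem_du_sc.1 (hr.1 a))
  obtain ⟨l, -, hl⟩ := D.pr_eq (k := k) (b := b) t
  obtain ⟨l', -, hl'⟩ := D.pr_eq (k := k) (b := b') 0
  simp only [smul_zero, mul_zero, D.n_zero, Finset.prod_const_one] at hl'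
  obtain ⟨c, hc, e⟩ := span hu hr (LinearMap.proj 0) (D.pr_th hb' l') (D.pr_th hb l)
    (fun e => by rw [LinearMap.proj_apply] at e; simp [e] at hl')
  rw [← hl, e, Finset.sum_apply]
  refine R.valuation.map_sum_le fun a _ => ?_
  have h1 := hc a
  rw [LinearMap.proj_apply, LinearMap.proj_apply, hl', mul_one] at h1
  rw [Pi.smul_apply, smul_eq_mul, map_mul, h1]
  exact (mul_le_of_le_one_left' (D.pr_le_one hb l (neg_mem (hq a)))).trans
    (D.pr_le hb' l' (hq a) t)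

/-- the size is an exact quadratic form for the hermitian structure -/
lemma prod_eq (hb : Fam M k b) (t : ι → ℂ) :
    ∏ i, R.valuation (n (b i * t)) = R.valuation (n t) ^ 4 ^ k := by
  have h1 : Fam M k fun _ : Fin (4 ^ k) => (1 : ι → ℂ) :=
    ⟨fun _ m hm => by rwa [one_mul], by simp⟩
  simpa using le_antisymm (D.cmp hb h1 t) (D.cmp h1 hb t)

lemma to_crd (d : ℕ) : ∀ w ∈ Submodule.span R (range fun l => U (η l) f) ^ d,
    ∃ w1 ∈ crd x ^ d, ∀ t, w t = n t ^ d * w1 t := by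
  have h1 : ∀ w ∈ Submodule.span R (range fun l => U (η l) f),
      ∃ w1 ∈ crd x, ∀ t, w t = n t * w1 t := fun w hw => by
    induction hw using Submodule.span_induction with
    | mem w hw =>
      obtain ⟨l, rfl⟩ := hw
      exact ⟨_, Submodule.subset_span ⟨l, rfl⟩, fun t => D.eq t l⟩
    | zero => exact ⟨0, zero_mem _, fun t => by simp⟩
    | add w w' _ _ ih ih' =>
      obtain ⟨u, hu, e⟩ := ih
      obtain ⟨u', hu', e'⟩ := ih'
      exact ⟨u + u', add_mem hu hu', fun t => by simp [e, e', mul_add]⟩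
    | smul c w _ ih =>
      obtain ⟨u, hu, e⟩ := ih
      refine ⟨c • u, Submodule.smul_mem _ _ hu, fun t => ?_⟩
      rw [Pi.smul_apply, Pi.smul_apply, e, smul_eq_mul, Subring.smul_def]
      push_cast
      rw [smul_eq_mul]; ring
  induction d with
  | zero =>
    intro w hw
    rw [pow_zero, Submodule.mem_one] at hw
    obtain ⟨c, rfl⟩ := hw
    refine ⟨algebraMap R _ c, by rw [pow_zero]; exact Submodule.algebraMap_mem c, fun t => ?_⟩
    rw [pow_zero, one_mul]; rfl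
  | succ d ih =>
    intro w hw
    rw [pow_succ] at hw
    refine Submodule.mul_induction_on hw (fun u hu u' hu' => ?_) fun u u' h h' => ?_
    · obtain ⟨y, hy, e⟩ := ih u hu
      obtain ⟨y', hy', e'⟩ := h1 u' hu'
      refine ⟨y * y', by rw [pow_succ]; exact Submodule.mul_mem_mul hy hy', fun t => ?_⟩
      rw [Pi.mul_apply, e, e', Pi.mul_apply]
      push_cast; ring
    · obtain ⟨y, hy, e⟩ := h
      obtain ⟨y', hy', e'⟩ := h'
      exact ⟨y + y', add_mem hy hy', fun t => by simp [e, e', mul_add]⟩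

/-- theta functions of level `4 ^ k` with integral values are forms over `R` -/
def Ball (R : ValuationSubring ℂ) (M : Submodule ℤ (ι → ℂ)) (f : (ι → ℂ) → ℂ) (η : σ → ι → ℂ)
    (k : ℕ) : Prop :=
  ∀ h ∈ Th (sc (2 ^ (k + 2)) M), (∀ a ∈ QQ M, R.valuation (U a h 0) ≤ 1) →
    (fun z => h (2 ^ k • z)) ∈ Submodule.span R (range fun l => U (η l) f) ^ 4 ^ k

/-- END -/
theorem reg (hB : Ball R M f η k) (hb : Fam M k b) (i0 : κ) : Mor x x (b i0 * ·) := by
  classical
  intro t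
  obtain ⟨l, hl, -⟩ := D.pr_eq (k := k) (b := b) t
  let u : (ι → ℂ) → ℂ := fun z => (∏ i, n (b i * z)) / n z ^ 4 ^ k
  have hu : ∀ z, R.valuation (u z) = 1 := fun z => by
    simp only [u, map_div₀, map_prod, map_pow, D.prod_eq hb]
    exact div_self (pow_ne_zero _ (by simpa using D.ne z))
  let u' : (ι → ℂ) → R := fun z => ⟨u z, (R.valuation_le_one_iff _).1 (hu z).le⟩
  refine ⟨fun _ => 4 ^ k, fun z => u' z * ∏ i ∈ Finset.univ.erase i0, x (b i * z) (l i), ?_,
    fun w hw => ?_⟩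
  · exact ((R.valuation_eq_one_iff _).2 (hu t)).mul (IsUnit.prod_iff.2 fun i _ => hl i)
  · rw [Fin.prod_univ_one, Matrix.cons_val_zero]
    induction hw using Submodule.span_induction with
    | mem w hw =>
      obtain ⟨j, rfl⟩ := hw
      obtain ⟨y, hy, e⟩ := D.to_crd _ _ (hB _ (D.pr_th hb (Function.update l i0 j))
        fun a ha => D.pr_le_one hb _ ha)
      suffices h : (fun z => u' z * ∏ i ∈ Finset.univ.erase i0, x (b i * z) (l i)) *
          (fun z => x (b i0 * z) j) = y by rw [h]; exact hy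
      ext z
      have e1 := e z
      simp only [pr, dv_mul, D.eq, Finset.prod_mul_distrib] at e1
      rw [← Finset.prod_erase_mul _ (fun i => (x (b i * z) (Function.update l i0 j i) : ℂ))
        (Finset.mem_univ i0), Function.update_self,
        Finset.prod_congr (s₁ := Finset.univ.erase i0) rfl (g := fun i => (x (b i * z) (l i) : ℂ))
          fun i hi => by rw [Function.update_of_ne (Finset.ne_of_mem_erase hi)]] at e1
      have := pow_ne_zero (4 ^ k) (D.ne z)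
      simp only [Pi.mul_apply, u', u]
      push_cast
      field_simp
      linear_combination e1
    | zero => rw [mul_zero]; exact zero_mem _
    | add w w' _ _ ih ih' => rw [mul_add]; exact add_mem ih ih'
    | smul c w _ ih => rw [mul_smul_comm]; exact Submodule.smul_mem _ _ ih

end Fam

end Dat

/-- PAD: the norms of a tuple of integers of a Galois CM field can be completed to `4 ^ k` -/
theorem pad {L : IntermediateField ℚ ℂ} [FiniteDimensional ℚ L] [IsGalois ℚ L] {c : Gal(L/ℚ)}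
    (hc : ∀ z, (c z : ℂ) = star (z : ℂ)) (hz : ∀ s, s * c = c * s) {J : Type} [Fintype J]
    (a : J → L) (ha : ∀ j, IsIntegral ℤ (a j)) :
    ∃ (k : ℕ) (b : Gal(L/ℚ) ⊕ Fin (4 ^ k) → J → L), b (.inl 1) = a ∧
      (∀ i j, IsIntegral ℤ (b i j)) ∧ ∀ j, ∑ i, b i j * c (b i j) = 4 ^ k := by
  have h1 : ∀ j, ∃ d : ℕ, ∑ s : Gal(L/ℚ), s (a j) * c (s (a j)) = d := fun j => by
    have e : ∀ s : Gal(L/ℚ), s (a j) * c (s (a j)) = s (a j * c (a j)) := fun s => by
      rw [map_mul, ← AlgEquiv.mul_apply, ← hz, AlgEquiv.mul_apply]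
    have hi : IsIntegral ℤ (Algebra.trace ℚ L (a j * c (a j))) :=
      Algebra.isIntegral_trace ((ha j).mul ((ha j).map (c.toAlgHom.restrictScalars ℤ)))
    obtain ⟨d, hd⟩ := IsIntegrallyClosed.isIntegral_iff.1 hi
    have e2 : ∑ s : Gal(L/ℚ), s (a j) * c (s (a j)) = d := by
      simp only [e]
      rw [← trace_eq_sum_automorphisms, ← hd]; simp
    have e3 : (0 : ℝ) ≤ d := by
      have := congrArg (fun z : L => (z : ℂ).re) e2
      simp only [IntermediateField.coe_sum, MulMemClass.coe_mul, hc, RCLike.star_def, mul_conj,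
        re_sum, ofReal_re] at this
      rw [show (d : ℝ) = (((d : L) : ℂ)).re by simp, ← this]
      exact Finset.sum_nonneg fun s _ => normSq_nonneg _
    lift d to ℕ using by exact_mod_cast e3
    exact ⟨d, by rw [e2]; simp⟩
  choose d hd using h1
  have hk : ∀ j, d j ≤ 4 ^ ∑ j, d j := fun j =>
    (Finset.single_le_sum (fun _ _ => Nat.zero_le _) (Finset.mem_univ j)).trans
      (Nat.lt_pow_self (by norm_num)).le
  refine ⟨∑ j, d j, Sum.elim (fun s j => s (a j)) fun m j => if d j ≤ m.1 then 1 else 0, rfl,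
    ?_, fun j => ?_⟩
  · rintro (s | m) j
    · exact (ha j).map (s.toAlgHom.restrictScalars ℤ)
    · dsimp only [Sum.elim_inr]
      split_ifs
      exacts [isIntegral_one, isIntegral_zero]
  · have e : ∀ m : Fin (4 ^ ∑ j, d j), (if d j ≤ m.1 then 1 else 0 : L) *
        c (if d j ≤ m.1 then 1 else 0) = if d j ≤ m.1 then 1 else 0 := fun m => by
      split_ifs <;> simp
    simp only [Fintype.sum_sum_type, Sum.elim_inl, Sum.elim_inr, hd, e]
    rw [Fin.sum_univ_eq_sum_range (fun m => if d j ≤ m then (1 : L) else 0), Finset.sum_boole,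
      show (Finset.range (4 ^ ∑ j, d j)).filter (d j ≤ ·) = Finset.Ico (d j) (4 ^ ∑ j, d j) by
        ext m; simp [and_comm], Nat.card_Ico, Nat.cast_sub (hk j)]
    push_cast; ring

/-- END for a product of types of a Galois CM field: coordinate `i` is the embedding `φ i` of
the factor `ty i` -/
theorem Dat.reg_all {R : ValuationSubring ℂ} {f : (ι → ℂ) → ℂ} {σ : Type} {η : σ → ι → ℂ}
    {n : (ι → ℂ) → ℂ} {x : (ι → ℂ) → σ → R} (D : Dat R M f η n x) (hB : ∀ k, Dat.Ball R M f η k)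
    {L : IntermediateField ℚ ℂ} [FiniteDimensional ℚ L] [IsGalois ℚ L] {c : Gal(L/ℚ)}
    (hc : ∀ z, (c z : ℂ) = star (z : ℂ)) (hz : ∀ s, s * c = c * s) {J : Type} [Fintype J]
    (ty : ι → J) (φ : ι → Gal(L/ℚ))
    (hO : ∀ a : J → L, (∀ j, IsIntegral ℤ (a j)) → ∀ m ∈ M, (fun i => (φ i (a (ty i)) : ℂ)) * m ∈ M)
    (a : J → L) (ha : ∀ j, IsIntegral ℤ (a j)) :
    Mor x x ((fun i => (φ i (a (ty i)) : ℂ)) * ·) := by
  obtain ⟨k, b, rfl, hb, e⟩ := pad hc hz a ha
  refine D.reg (hB k) (b := fun s i => (φ i (b s (ty i)) : ℂ)) ⟨fun s => hO _ (hb s), ?_⟩ (.inl 1)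
  ext i
  have := congrArg (fun z : L => (φ i z : ℂ)) (e (ty i))
  simp only [map_sum, map_mul, map_pow, map_ofNat, IntermediateField.coe_sum,
    MulMemClass.coe_mul, ← AlgEquiv.mul_apply, hz] at this
  simp only [AlgEquiv.mul_apply, hc] at this
  rw [Finset.sum_apply]
  exact this.trans (by rw [SubmonoidClass.coe_pow]; rfl)

end

end Pool.Agent.Tav.GdEnd
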