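import Pool.Agent.P.MP_2ce3e7_ag.Tav.Stmt
import Pool.Agent.P.MP_2ce3e7_ag.Tav.GrOrt

/-! Interpolation of theta functions, the Riemann relations over a valuation ring, the law. -/

set_option autoImplicit false

noncomputable section

namespace Pool.Agent.Tav.GrLaw

open Complex Set Cmh Gd
open scoped Real

variable {ι : Type} [Fintype ι] {Λ M : Submodule ℤ (ι → ℂ)} {f : (ι → ℂ) → ℂ}
  {R : ValuationSubring ℂ}

/-- interpolation at finitely many rational points -/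
theorem interp (hM : Un R.valuation M) (hf : f ∈ Th M) {b : ι → ℂ} (hb : b ∈ QQ M)
    (h1 : R.valuation (U b f 0) = 1) : ∃ (n : ℕ) (l : Fin n → ι → ℂ) (k : Fin n → ℂ),
      IsReps (du M) M l ∧ (∀ a, R.valuation (k a) = 1) ∧
      ∀ h ∈ Th M, ∀ x, h x = ∑ a, k a * U (b - l a) h 0 * U (l a) f x := by
  obtain ⟨n, l, hl⟩ := exists_reps hM.1.1.du hM.1.1 hM.1.le_du
  obtain ⟨c, hc, H⟩ := ort hM.1 hl
  obtain ⟨m, hm, hm'⟩ := hM.2
  have h2 : R.valuation c = 1 := by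
    have : R.valuation c ^ 2 = 1 := by rw [← map_pow, hc, val_card _ hl hm hm']
    exact (pow_eq_one_iff_left two_ne_zero).1 this
  have h3 : c * U b f 0 ≠ 0 := fun e => by simpa [h1, h2] using congrArg R.valuation e
  refine ⟨n, l, fun a => (c * U b f 0)⁻¹ * ph (-l a) b, hl, fun a => ?_, fun h hh x => ?_⟩
  · rw [map_mul, map_inv₀, map_mul, h1, h2,
      val_ph _ hM.1 (neg_mem (du_le_QQ hM.1 (Com.refl M) (hl.1 a))) hb]
    simp
  · have := congrFun (H (LinearMap.proj 0 ∘ₗ U b) f hf h hh) x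
    simp only [LinearMap.comp_apply, LinearMap.proj_apply, U_U', Finset.sum_apply, Pi.smul_apply,
      smul_eq_mul] at this
    simp only [mul_assoc (c * U b f 0)⁻¹, ← Finset.mul_sum, sub_eq_add_neg]
    rw [this, inv_mul_cancel_left₀ h3]

lemma multi {V α : Type} [Fintype α] (P : Set (V → ℂ)) (k : α → V → ℂ) (p : α → V)
    (hP : ∀ h ∈ P, ∀ x, h x = ∑ a, k a x * h (p a)) {n : ℕ} (F : (Fin n → V) → ℂ)
    (hF : ∀ x j, (fun z => F (Function.update x j z)) ∈ P) (x : Fin n → V) :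
    F x = ∑ a : Fin n → α, (∏ j, k (a j) (x j)) * F fun j => p (a j) := by
  induction n with
  | zero => simpa using congrArg F (Subsingleton.elim _ _)
  | succ n ih =>
    have h1 := hP _ (hF x 0) (x 0)
    simp only [Function.update_eq_self] at h1
    rw [h1, ← (Fin.consEquiv fun _ => α).sum_comp, Fintype.sum_prod_type]
    refine Finset.sum_congr rfl fun a _ => ?_
    have h2 := ih (fun y => F (Fin.cons (p a) y))
      (fun y j => by simpa only [Fin.cons_update] using hF (Fin.cons (p a) y) j.succ) (Fin.tail x)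
    rw [← Fin.cons_self_tail x, Fin.update_cons_zero, h2, Finset.mul_sum]
    refine Finset.sum_congr rfl fun a' _ => ?_
    rw [Fin.prod_univ_succ, mul_assoc]
    congr 3
    ext j
    cases j using Fin.cases <;> rfl

lemma prod_U {κ : Type} [Fintype κ] (w z : κ → ι → ℂ) (h : κ → (ι → ℂ) → ℂ) :
    ∏ i, U (w i) (h i) (z i) =
      cexp (-π * ∑ i, Hm (z i) (w i) - π * (∑ i, Hm (w i) (w i)) / 2) * ∏ i, h i (z i + w i) := by
  simp only [U_apply, Finset.prod_mul_distrib, ← Complex.exp_sum, Hm_self, Finset.sum_sub_distrib,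
    Finset.mul_sum, Finset.sum_div]

/-- the Riemann relation for an isometry `Φ` -/
theorem riem {κ σ : Type} [Fintype κ] {n : ℕ} (hM : Un R.valuation M) (hc : Com M Λ) (hΛ : Ev Λ)
    {f₀ : (ι → ℂ) → ℂ} (hf₀ : f₀ ∈ Th M) {b : ι → ℂ} (hb : b ∈ QQ M)
    (h1 : R.valuation (U b f₀ 0) = 1)
    {g : σ → (ι → ℂ) → ℂ} (hg : ∀ ξ ∈ du M, ∃ l, ∃ u ∈ R, U ξ f₀ = u • g l)
    (hf : f ∈ Th Λ) (hle : ∀ a ∈ QQ Λ, U a f 0 ∈ R)
    (Φ : (Fin n → ι → ℂ) →L[ℂ] (κ → ι → ℂ))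
    (hΦ : ∀ x y, ∑ i, Hm (Φ x i) (Φ y i) = ∑ j, Hm (x j) (y j))
    (hQ : ∀ x, (∀ j, x j ∈ QQ Λ) → ∀ i, Φ x i ∈ QQ Λ) {w : κ → ι → ℂ} (hw : ∀ i, w i ∈ QQ Λ)
    (hm : ∀ j, ∀ m ∈ M, (∀ i, Φ (Pi.single j m) i ∈ Λ) ∧
      ∃ k : ℤ, (∑ i, Hm (Φ (Pi.single j m) i) (w i)).im = k) :
    (fun x => ∏ i, U (w i) f (Φ x i)) ∈
      Submodule.span R (range fun (l : Fin n → σ) (x : Fin n → ι → ℂ) => ∏ j, g (l j) (x j)) := by
  obtain ⟨N, l, k, hl, hk, H⟩ := interp hM hf₀ hb h1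
  choose lab u hu hlab using fun a => hg _ (hl.1 a)
  have hp : ∀ a, b - l a ∈ QQ Λ := fun a =>
    hc.QQ ▸ sub_mem hb (du_le_QQ hM.1 (Com.refl M) (hl.1 a))
  have key := multi (Th M) (fun a x => k a * u a * cexp (-π * nq (b - l a) / 2) * g (lab a) x)
    (fun a => b - l a) (fun h hh x => by
      rw [H h hh x]
      refine Finset.sum_congr rfl fun a _ => ?_
      rw [hlab, U_apply, Hm_zero_left, zero_add, Pi.smul_apply, smul_eq_mul, mul_zero, zero_sub,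
        neg_mul, neg_div]
      ring) (fun x => ∏ i, U (w i) f (Φ x i)) fun x j => by
    refine ⟨?_, fun m hmM => funext fun z => ?_⟩
    · classical
      refine fun z => (HasFDerivAt.finsetProd fun i _ =>
        ((U_diff (w i) hf.1).comp ((differentiable_pi.1 Φ.differentiable i).comp
          (f := fun z => Function.update x j z) ?_) z).hasFDerivAt).differentiableAt
      refine differentiable_pi.2 fun j' => ?_
      by_cases e : j' = j
      · subst e; simp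
      · simp [e]
    · obtain ⟨h2, t, ht⟩ := hm j m hmM
      have e1 : Function.update x j (z + m) = Function.update x j z + Pi.single j m := by
        ext1 j'
        by_cases e : j' = j
        · subst e; simp
        · simp [e]
      have e2 := prod_U (Φ (Pi.single j m)) (Φ (Function.update x j z)) fun i => U (w i) f
      rw [hΦ, hΦ, Finset.sum_eq_single j (fun i _ e => by simp [e, Hm_zero_right]) (by simp),
        Finset.sum_eq_single j (fun i _ e => by simp [e, Hm_zero_right]) (by simp)] at e2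
      simp only [Function.update_self, Pi.single_eq_same, Hm_self] at e2
      rw [U_apply, e1, map_add]
      refine e2.symm.trans ?_
      simp only [U_comm (Φ (Pi.single j m) _), hf.2 _ (h2 _), Pi.smul_apply, smul_eq_mul,
        Finset.prod_mul_distrib, ← Complex.exp_sum, ← Finset.mul_sum, ← ofReal_sum, ← im_sum, ht]
      rw [show (-2 * π * I * ((t : ℝ) : ℂ) : ℂ) = (-t : ℤ) * (2 * π * I) by push_cast; ring,
        Complex.exp_int_mul_two_pi_mul_I, one_mul]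
  rw [funext key, ← Finset.sum_fn]
  refine Submodule.sum_mem _ fun a _ => ?_
  have h2 : (∏ j, k (a j) * u (a j)) * ∏ i, U (Φ (fun j => b - l (a j)) i) (U (w i) f) 0 ∈ R := by
    refine mul_mem (prod_mem fun j _ => mul_mem ((R.valuation_le_one_iff _).1 (hk _).le) (hu _))
      (prod_mem fun i _ => ?_)
    rw [U_U', Pi.smul_apply, smul_eq_mul]
    have hq := hQ _ (fun j => hp (a j)) i
    exact mul_mem ((R.valuation_le_one_iff _).1 (val_ph _ hΛ (hw i) hq).le)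
      (hle _ (add_mem hq (hw i)))
  refine mem_of_eq_of_mem (funext fun x => ?_) (Submodule.smul_mem _ (⟨_, h2⟩ : R)
    (Submodule.subset_span (mem_range_self fun j => lab (a j))))
  have e2 := prod_U (Φ fun j => b - l (a j)) 0 fun i => U (w i) f
  rw [hΦ] at e2
  simp only [Pi.zero_apply, Hm_zero_left, Finset.sum_const_zero, zero_add, Hm_self] at e2
  show _ = (_ * _) * ∏ j, g (lab (a j)) (x j)
  simp only [e2, Finset.prod_mul_distrib, ← Complex.exp_sum, ← Finset.sum_div, ← Finset.mul_sum]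
  rw [mul_zero, zero_sub, neg_mul, neg_div]
  ring

lemma span_comp {T T' α : Type} {F : T → ℂ} {G : α → T → ℂ} {W : Submodule R (T' → ℂ)}
    (hF : F ∈ Submodule.span R (range G)) (φ : T' → T) (e : T' → ℂ)
    (h : ∀ a, (fun t => e t * G a (φ t)) ∈ W) : (fun t => e t * F (φ t)) ∈ W := by
  induction hF using Submodule.span_induction with
  | mem _ hx => obtain ⟨a, rfl⟩ := hx; exact h a
  | zero => exact mem_of_eq_of_mem (funext fun t => mul_zero _) W.zero_mem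
  | add a b _ _ ha hb => exact mem_of_eq_of_mem (funext fun t => mul_add _ _ _) (W.add_mem ha hb)
  | smul r a _ ha =>
    exact mem_of_eq_of_mem (funext fun t => mul_left_comm (e t) (r : ℂ) _) (W.smul_mem r ha)

/-- the multiple of a lattice -/
def scl (k : ℕ) (Λ : Submodule ℤ (ι → ℂ)) : Submodule ℤ (ι → ℂ) := Λ.map (k • LinearMap.id)

omit [Fintype ι] in
lemma mem_scl {k : ℕ} {x : ι → ℂ} : x ∈ scl k Λ ↔ ∃ y ∈ Λ, k • y = x := Iff.rfl

omit [Fintype ι] in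
lemma scl_le (k : ℕ) : scl k Λ ≤ Λ := by
  rintro _ ⟨y, hy, rfl⟩
  exact nsmul_mem hy k

omit [Fintype ι] in
lemma com_scl {k : ℕ} (hk : k ≠ 0) : Com (scl k Λ) Λ :=
  ⟨k, hk, fun _ hx => nsmul_mem (scl_le k hx) k, fun x hx => ⟨x, hx, rfl⟩⟩

lemma mem_du_scl {k : ℕ} {x : ι → ℂ} : x ∈ du (scl k Λ) ↔ k • x ∈ du Λ := by
  have e : ∀ y, Hm x (k • y) = Hm (k • x) y := fun y => by rw [Hm_nsmul_left, Hm_nsmul_right]
  refine ⟨fun h m hm => e m ▸ h _ ⟨m, hm, rfl⟩, ?_⟩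
  rintro h _ ⟨y, hy, rfl⟩
  exact (e y).symm ▸ h y hy

lemma un_scl {Γ : Type*} [LinearOrderedCommGroupWithZero Γ] {v : Valuation ℂ Γ} (h : Un v Λ)
    {k : ℕ} (hk : v k = 1) : Un v (scl k Λ) := by
  have k0 : k ≠ 0 := fun e => by simp [e] at hk
  obtain ⟨h1, n, hn, h2⟩ := h
  refine ⟨h1.mono (h1.1.of_com (com_scl k0).symm) (scl_le k), k * (n * k), by simp [hk, hn],
    fun x hx => ⟨_, h2 _ (mem_du_scl.1 hx), by simp only [mul_smul]; rfl⟩⟩

lemma QQ_of_du (hΛ : Ev Λ) {k : ℕ} (hk : k ≠ 0) {x : ι → ℂ} (h : k • x ∈ du Λ) : x ∈ QQ Λ := by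
  obtain ⟨n, hn, h⟩ := du_le_QQ hΛ (Com.refl Λ) h
  exact ⟨n * k, mul_ne_zero hn hk, by rwa [mul_smul]⟩

/-- half of the Hadamard matrix -/
def T : (Fin 4 → ι → ℂ) →L[ℂ] (Fin 4 → ι → ℂ) := LinearMap.toContinuousLinearMap
  { toFun := fun x => ![(1 / 2 : ℂ) • (x 0 + x 1 + x 2 + x 3), (1 / 2 : ℂ) • (x 0 + x 1 - x 2 - x 3),
      (1 / 2 : ℂ) • (x 0 - x 1 + x 2 - x 3), (1 / 2 : ℂ) • (x 0 - x 1 - x 2 + x 3)]
    map_add' := fun x y => by ext i a; fin_cases i <;> simp <;> ring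
    map_smul' := fun c x => by ext i a; fin_cases i <;> simp <;> ring }

lemma T_apply (x : Fin 4 → ι → ℂ) : T x =
    ![(1 / 2 : ℂ) • (x 0 + x 1 + x 2 + x 3), (1 / 2 : ℂ) • (x 0 + x 1 - x 2 - x 3),
      (1 / 2 : ℂ) • (x 0 - x 1 + x 2 - x 3), (1 / 2 : ℂ) • (x 0 - x 1 - x 2 + x 3)] := rfl

lemma T_T (x : Fin 4 → ι → ℂ) : T (T x) = x := by
  ext i a; fin_cases i <;> simp [T_apply] <;> ring

lemma T_pair (x y : ι → ℂ) : T ![x, x, y, y] = ![x + y, x - y, 0, 0] := by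
  ext i a; fin_cases i <;> simp [T_apply] <;> ring

lemma T_hm (x y : Fin 4 → ι → ℂ) : ∑ i, Hm (T x i) (T y i) = ∑ j, Hm (x j) (y j) := by
  simp [T_apply, Fin.sum_univ_four, Hm_smul_left, Hm_smul_right, Hm_add_left, Hm_add_right,
    Hm_sub_left, Hm_sub_right, map_ofNat]
  ring

lemma two_T {N : Submodule ℤ (ι → ℂ)} {x : Fin 4 → ι → ℂ} (h : ∀ j, x j ∈ N) (i : Fin 4) :
    2 • T x i ∈ N := by
  have e : ∀ y : ι → ℂ, 2 • (1 / 2 : ℂ) • y = y := fun y => by ext a; simp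
  fin_cases i <;> simp only [T_apply, Fin.reduceFinMk, Matrix.cons_val, e] <;>
    apply_rules [add_mem, sub_mem]

lemma T_QQ {x : Fin 4 → ι → ℂ} (h : ∀ j, x j ∈ QQ Λ) (i : Fin 4) : T x i ∈ QQ Λ := by
  obtain ⟨n, hn, h⟩ := two_T h i
  exact ⟨n * 2, by omega, by rwa [mul_smul]⟩

lemma T_single (j i : Fin 4) (y : ι → ℂ) :
    T (Pi.single j (2 • y)) i = y ∨ T (Pi.single j (2 • y)) i = -y := by
  have e : (2⁻¹ : ℂ) • (2 * y) = y := by ext a; simp
  fin_cases j <;> fin_cases i <;> simp [T_apply, e]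

/-- the conclusion of the good reduction theorem -/
structure Good (R : ValuationSubring ℂ) (Λ : Submodule ℤ (ι → ℂ)) (f : (ι → ℂ) → ℂ) : Prop where
  un : Un R.valuation Λ
  two : R.valuation 2 = 1
  th : f ∈ Th Λ
  le : ∀ a ∈ QQ Λ, R.valuation (U a f 0) ≤ 1
  eq : ∀ a ∈ QQ Λ, ∃ ξ, 2 • ξ ∈ du Λ ∧ R.valuation (U (a + ξ) f 0) = 1

lemma ph_mem (hΛ : Ev Λ) {x y : ι → ℂ} (hx : x ∈ QQ Λ) (hy : y ∈ QQ Λ) : ph x y ∈ R :=
  (R.valuation_le_one_iff _).1 (val_ph _ hΛ hx hy).le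

/-- the Riemann relation -/
theorem Good.had (h : Good R Λ f) {b : Fin 4 → ι → ℂ} (hb : ∀ i, b i ∈ QQ Λ) :
    (fun y : Fin 4 → ι → ℂ => ∏ i, U (b i) f (y i)) ∈ Submodule.span R (range
      fun (ξ : Fin 4 → {ξ : ι → ℂ // 2 • ξ ∈ du Λ}) (y : Fin 4 → ι → ℂ) =>
        ∏ i, U (T b i + (ξ i).1) f (T y i)) := by
  obtain ⟨b0, hb0, h1⟩ := h.eq 0 (zero_mem _)
  rw [zero_add] at h1
  have hc : Com (scl 2 Λ) Λ := com_scl two_ne_zero
  have key := riem (un_scl h.un (k := 2) h.two) hc h.un.1 (Th_mono (scl_le 2) h.th)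
    (hc.QQ ▸ QQ_of_du h.un.1 two_ne_zero hb0) h1
    (g := fun ξ : {ξ : ι → ℂ // 2 • ξ ∈ du Λ} => U ξ.1 f)
    (fun ξ hξ => ⟨⟨ξ, mem_du_scl.1 hξ⟩, 1, one_mem _, (one_smul _ _).symm⟩) h.th
    (fun a ha => (R.valuation_le_one_iff _).1 (h.le a ha)) T T_hm (fun _ => T_QQ) (w := 0)
    (fun _ => zero_mem _) (by
      rintro j _ ⟨y, hy, rfl⟩
      refine ⟨fun i => ?_, 0, by simp [Hm_zero_right]⟩
      rcases T_single j i y with e | e
      · exact mem_of_eq_of_mem e hy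
      · exact mem_of_eq_of_mem e (neg_mem hy))
  have := span_comp key (fun y => T y + T b)
    (fun y => cexp (-π * ∑ i, Hm (y i) (b i) - π * (∑ i, Hm (b i) (b i)) / 2)) (W := Submodule.span R
      (range fun (ξ : Fin 4 → {ξ : ι → ℂ // 2 • ξ ∈ du Λ}) (y : Fin 4 → ι → ℂ) =>
        ∏ i, U (T b i + (ξ i).1) f (T y i))) fun ξ => by
    have h2 : ∏ i, ph (ξ i).1 (T b i) ∈ R := prod_mem fun i _ =>
      ph_mem h.un.1 (QQ_of_du h.un.1 two_ne_zero (ξ i).2) (T_QQ hb i)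
    refine mem_of_eq_of_mem (funext fun y => ?_) (Submodule.smul_mem _ (⟨_, h2⟩ : R)
      (Submodule.subset_span (mem_range_self ξ)))
    have e := prod_U (T b) (T y) fun i => U (ξ i).1 f
    rw [T_hm, T_hm] at e
    refine e.symm.trans ?_
    simp only [U_U', Pi.smul_apply, smul_eq_mul, Finset.prod_mul_distrib]
    rfl
  refine mem_of_eq_of_mem (funext fun y => ?_) this
  rw [prod_U, map_add, T_T, T_T]
  simp only [Pi.zero_apply, U_zero, Pi.add_apply]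

/-- the same with explicit coefficients -/
theorem Good.had' (h : Good R Λ f) {b : Fin 4 → ι → ℂ} (hb : ∀ i, b i ∈ QQ Λ) :
    ∃ (n : ℕ) (c : Fin n → ℂ) (ξ : Fin n → Fin 4 → ι → ℂ), (∀ j, R.valuation (c j) ≤ 1) ∧
      (∀ j i, 2 • ξ j i ∈ du Λ) ∧ ∀ y : Fin 4 → ι → ℂ,
        ∏ i, U (b i) f (y i) = ∑ j, c j * ∏ i, U (T b i + ξ j i) f (T y i) := by
  obtain ⟨n, c, G, e⟩ := Submodule.mem_span_set'.1 (h.had hb)
  choose ξ hξ using fun j => (G j).2
  refine ⟨n, fun j => c j, fun j i => (ξ j i).1, fun j => R.valuation_le_one _, fun j i => (ξ j i).2,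
    fun y => (congrFun e y).symm.trans ?_⟩
  rw [Finset.sum_apply]
  exact Finset.sum_congr rfl fun j _ => by rw [← hξ j]; rfl

end Pool.Agent.Tav.GrLaw
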