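import Pool.Agent.P.MP_2ce3e7_ag.Tav.GrEnd
import Pool.Agent.P.MP_2ce3e7_ag.Tav.GrRR

/-! The parallelogram law for the size of the theta coordinates. -/

set_option autoImplicit false

open Complex Set

namespace Pool.Agent.Tav.GdEnd

open Pool.Agent.Cmh Pool.Agent.Tav.Gd Pool.Agent.Tav.GrLaw

variable {ι : Type} [Fintype ι] {M : Submodule ℤ (ι → ℂ)} {R : ValuationSubring ℂ}
  {f : (ι → ℂ) → ℂ} {σ : Type} {η : σ → ι → ℂ} {n : (ι → ℂ) → ℂ} {x : (ι → ℂ) → σ → R}

/-- the data of `Dat` from good reduction and a normalisation -/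
theorem dat_of_good (h : Good R M f) (mem : ∀ l, 4 • η l ∈ du M)
    (all : ∀ a, 4 • a ∈ du M → ∃ l, a - η l ∈ M) (ne : ∀ z, n z ≠ 0)
    (eq : ∀ z l, U (η l) f z = n z * x z l) (unit : ∀ z, ∃ l, IsUnit (x z l)) :
    Dat R M f η n x := by
  have hq : ∀ {a : ι → ℂ}, 4 • a ∈ du M → a ∈ QQ M := QQ_of_du h.un.1 four_ne_zero
  have h24 : ∀ {a : ι → ℂ}, 2 • a ∈ du M → 4 • a ∈ du M := fun ha => by
    rw [show (4 : ℕ) = 2 * 2 from rfl, mul_smul]; exact nsmul_mem ha 2
  have hle : ∀ a, 4 • a ∈ du M → ∀ z, R.valuation (U a f z) ≤ R.valuation (n z) := fun a ha z => by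
    obtain ⟨l, hl⟩ := all a ha
    rw [show a = η l + (a - η l) by abel, U_add_mem h.th _ hl, Pi.smul_apply, smul_eq_mul, map_mul,
      val_ph _ h.un.1 (hq (mem l)) (le_QQ hl), one_mul, eq, map_mul]
    exact mul_le_of_le_one_right' (R.valuation_le_one _)
  have heq : ∀ z, ∃ l, R.valuation (U (η l) f z) = R.valuation (n z) := fun z => by
    obtain ⟨l, hl⟩ := unit z
    exact ⟨l, by rw [eq, map_mul, (R.valuation_eq_one_iff _).1 hl, mul_one]⟩
  have key : ∀ (b y : Fin 4 → ι → ℂ) (γ : Fin 4 → R.ValueGroup), (∀ i, 4 • b i ∈ du M) →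
      (∀ i, 4 • T b i ∈ du M) →
      (∀ i a, 4 • a ∈ du M → R.valuation (U a f (T y i)) ≤ γ i) →
      ∏ i, R.valuation (U (b i) f (y i)) ≤ ∏ i, γ i := fun b y γ hb hb' hγ => by
    obtain ⟨N, c, ξ, hc, hξ, e⟩ := h.had' fun i => hq (hb i)
    rw [← map_prod, e]
    refine R.valuation.map_sum_le fun j _ => ?_
    rw [map_mul, map_prod]
    refine (mul_le_of_le_one_left' (hc j)).trans (Finset.prod_le_prod' fun i _ => hγ i _ ?_)
    rw [smul_add]; exact add_mem (hb' i) (h24 (hξ j i))
  refine ⟨h.un, h.two, h.th, h.le, h.eq, mem, all, ne, eq, unit, fun s t => le_antisymm ?_ ?_⟩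
  · obtain ⟨i, hi⟩ := heq (s + t)
    obtain ⟨j, hj⟩ := heq (s - t)
    obtain ⟨ξ, h1, e1⟩ := h.eq _ (hq (mem i))
    obtain ⟨ζ, h2, e2⟩ := h.eq _ (hq (mem j))
    have e4 : ∀ y : ι → ℂ, 4 • (1 / 2 : ℂ) • y = 2 • y := fun y => by ext a; simp; ring
    have := key ![η i, η j, η i + ξ, η j + ζ] ![s + t, s - t, 0, 0]
      ![R.valuation (n s), R.valuation (n s), R.valuation (n t), R.valuation (n t)]
      (fun k => by
        fin_cases k
        exacts [mem i, mem j, by simpa using add_mem (mem i) (h24 h1),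
          by simpa using add_mem (mem j) (h24 h2)])
      (fun k => by
        fin_cases k <;> simp only [T_apply, Fin.reduceFinMk, Matrix.cons_val, e4]
        · exact mem_of_eq_of_mem (by module) (add_mem (add_mem (mem i) (mem j)) (add_mem h1 h2))
        · exact mem_of_eq_of_mem (by module) (neg_mem (add_mem h1 h2))
        · exact mem_of_eq_of_mem (by module) (add_mem (sub_mem (mem i) (mem j)) (sub_mem h1 h2))
        · exact mem_of_eq_of_mem (by module) (sub_mem h2 h1))
      (fun k a ha => by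
        rw [← T_pair, T_T]
        fin_cases k <;> exact hle a ha _)
    simpa [Fin.prod_univ_four, hi, hj, e1, e2, sq, mul_assoc] using this
  · obtain ⟨i, hi⟩ := heq s
    obtain ⟨j, hj⟩ := heq t
    have := key ![η i, η i, η j, η j] ![s, s, t, t]
      ![R.valuation (n (s + t)), R.valuation (n (s - t)), 1, 1]
      (fun k => by fin_cases k; exacts [mem i, mem i, mem j, mem j])
      (fun k => by
        rw [T_pair]
        fin_cases k
        exacts [by simpa using add_mem (mem i) (mem j), by simpa [smul_sub] using sub_mem (mem i) (mem j),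
          by simp, by simp])
      (fun k a ha => by
        rw [T_pair]
        fin_cases k
        exacts [hle a ha _, hle a ha _, h.le a (hq ha), h.le a (hq ha)])
    simpa [Fin.prod_univ_four, hi, hj, sq, mul_assoc] using this

end Pool.Agent.Tav.GdEnd
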