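import Pool.Agent.P.MP_2ce3e7_ag.Tav.GrTwA

/-! Automorphisms of the field that fix a finite set act on the points of an abelian variety. -/

set_option autoImplicit false

noncomputable section

namespace Pool.Agent.Tav.Tw

open MvPolynomial Set Function Module Tr

section defn
variable {K T σ τ ι : Type} [Field K]

theorem eval_scale [Fintype ι] [DecidableEq ι] [Finite σ] {β : σ → ι} {f : MvPolynomial σ K}
    {d : ι → ℕ} (hf : IsWeightedHomogeneous (wN β) f d) (c : ι → K) (y : σ → K) :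
    eval (fun s => c (β s) * y s) f = (∏ i, c i ^ d i) * eval y f := by
  cases nonempty_fintype σ
  rw [f.as_sum, map_sum, map_sum, Finset.mul_sum]
  refine Finset.sum_congr rfl fun m hm => ?_
  have h1 : Finsupp.weight (wN β) m = d := hf (mem_support_iff.1 hm)
  have h2 : ∏ i, c i ^ d i = ∏ s, c (β s) ^ m s := by
    rw [← Finset.prod_fiberwise Finset.univ β]
    refine Finset.prod_congr rfl fun i _ => ?_
    rw [← h1, weight_wN, ← Finset.prod_pow_eq_pow_sum]
    exact Finset.prod_congr rfl fun s hs => by rw [(Finset.mem_filter.1 hs).2]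
  rw [eval_monomial, eval_monomial, Finsupp.prod_fintype _ _ (by simp),
    Finsupp.prod_fintype _ _ (by simp), h2]
  simp only [mul_pow, Finset.prod_mul_distrib]
  ring

theorem eval_fix {f : MvPolynomial σ K} {t : K ≃+* K} (h : ∀ c ∈ f.coeffs, t c = c) (z : σ → K) :
    eval (fun l => t (z l)) f = t (eval z f) := by
  have h1 : map (t : K →+* K) f = f := by
    ext m
    rw [coeff_map]
    by_cases e : coeff m f = 0
    · rw [e, map_zero]
    · exact h _ (coeff_mem_coeffs m e)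
  have := eval_map_tw (t : K →+* K) z f
  rwa [h1] at this

theorem exists_fin [Finite σ] (A : Set (MvPolynomial σ K)) : ∃ s : Finset (MvPolynomial σ K),
    (s : Set _) ⊆ A ∧ ∀ z : σ → K, (∀ f ∈ s, eval z f = 0) → ∀ f ∈ A, eval z f = 0 := by
  obtain ⟨s, h1, h2⟩ := (Submodule.fg_span_iff_fg_span_finset_subset A).1
    (IsNoetherian.noetherian (Ideal.span A))
  refine ⟨s, h1, fun z hz f hf => ?_⟩
  have h3 : f ∈ Ideal.span (s : Set (MvPolynomial σ K)) := by
    have : f ∈ Submodule.span (MvPolynomial σ K) A := Submodule.subset_span hf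
    rwa [h2] at this
  exact (Ideal.span_le (I := RingHom.ker (MvPolynomial.eval z))).2 hz h3

theorem def_reg [Fintype ι] [DecidableEq ι] [Finite σ] [Finite τ] (w : σ → ι) (x : T → σ → K)
    {L : ι → Submodule K (T → K)}
    (hL : ∀ i, L i ≤ Submodule.span K ((fun v t => x t v) '' {v | w v = i})) {q : T → τ → K}
    (hq : ∀ s, q s ≠ 0) (h : Rg L (crd q)) : ∃ S : Set K, S.Finite ∧ ∀ t : K ≃+* K,
      (∀ c ∈ S, t c = c) → ∀ (s s' : T) (u : ι → K), (∀ i, u i ≠ 0) →
      (∀ v, x s' v = u (w v) * t (x s v)) → Par (q s') fun l => t (q s l) := by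
  choose e c G hc hG hv using exists_chart w x hL h
  obtain ⟨A, h1, h2⟩ := exists_fin (range fun z : T × τ => G z.1 z.2)
  choose z hz using fun a : A => h1 a.2
  refine ⟨⋃ a : A, ⋃ l, (G (z a).1 l).coeffs, finite_iUnion fun a => finite_iUnion fun l =>
    Finset.finite_toSet _, fun t ht s s' u hu hx => ?_⟩
  obtain ⟨l₀, hl₀⟩ := Function.ne_iff.1 (hq s)
  have h3 : ¬ ∀ f ∈ A, eval (x s) f = 0 := fun h0 => by
    have := h2 _ h0 _ ⟨(s, l₀), rfl⟩
    rw [hv] at this
    exact mul_ne_zero (hc s).ne_zero hl₀ this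
  push Not at h3
  obtain ⟨f, hf, h4⟩ := h3
  let a : A := ⟨f, hf⟩
  have h5 : c (z a).1 s ≠ 0 := by
    have : f = G (z a).1 (z a).2 := (hz a).symm
    rw [this, hv] at h4
    exact left_ne_zero_of_mul h4
  have key : ∀ l, c (z a).1 s' * q s' l =
      ((∏ i, u i ^ e (z a).1 i) * t (c (z a).1 s)) * t (q s l) := fun l => by
    rw [← hv, funext hx, eval_scale (hG _ l), eval_fix fun c hc => ht c
      (mem_iUnion.2 ⟨a, mem_iUnion.2 ⟨l, hc⟩⟩), hv, map_mul, mul_assoc]
  have h6 : (∏ i, u i ^ e (z a).1 i) * t (c (z a).1 s) ≠ 0 :=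
    mul_ne_zero (Finset.prod_ne_zero_iff.2 fun i _ => pow_ne_zero _ (hu i)) (by simpa using h5)
  have h7 : c (z a).1 s' ≠ 0 := fun h0 => by
    have := key l₀
    rw [h0, zero_mul] at this
    exact mul_ne_zero h6 (by simpa using hl₀) this.symm
  refine ⟨(c (z a).1 s')⁻¹ * ((∏ i, u i ^ e (z a).1 i) * t (c (z a).1 s)),
    (mul_ne_zero (inv_ne_zero h7) h6).isUnit, funext fun l => ?_⟩
  rw [Pi.smul_apply, smul_eq_mul, mul_assoc, ← key, inv_mul_cancel_left₀ h7]

variable {G : Type} [AddCommGroup G] [Finite σ] {p : G → σ → K} {g : ℕ}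

theorem def_idl (h : AV p g) : ∃ S : Set K, S.Finite ∧ ∀ t : K ≃+* K,
    (∀ c ∈ S, t c = c) → ∀ b, ∃ b', Par (p b') fun l => t (p b l) := by
  obtain ⟨A, h1, h2⟩ := exists_fin (idl p : Set (MvPolynomial σ K))
  refine ⟨⋃ a : A, a.1.coeffs, finite_iUnion fun a => Finset.finite_toSet _, fun t ht b => ?_⟩
  obtain ⟨b', hb⟩ := h.cl (fun l => t (p b l)) (fun f hf => by
    rw [aeval_eq_eval]
    refine h2 _ (fun a ha => ?_) f hf
    have := mem_idl.1 (h1 ha) 1 b
    rw [one_smul] at this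
    rw [eval_fix fun c hc => ht c (mem_iUnion.2 ⟨⟨a, ha⟩, hc⟩), this, map_zero])
    fun e => h.ne b (funext fun l => by simpa using congrFun e l)
  exact ⟨b', Par.symm hb⟩

theorem def_mor (h : AV p g) {f : G → G} (hf : Mor p p f) : ∃ S : Set K, S.Finite ∧
    ∀ t : K ≃+* K, (∀ c ∈ S, t c = c) → ∀ b b', (Par (p b') fun l => t (p b l)) →
      Par (p (f b')) fun l => t (p (f b) l) := by
  obtain ⟨S, h1, h2⟩ := def_reg (fun _ : σ => (0 : Fin 1)) p (L := ![crd p]) (fun i => by
    rw [Subsingleton.elim i 0]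
    exact Submodule.span_mono (by rintro _ ⟨l, rfl⟩; exact ⟨l, rfl, rfl⟩))
    (fun s => h.ne (f s)) hf
  refine ⟨S, h1, fun t ht b b' hb => ?_⟩
  obtain ⟨c, hc, hb⟩ := hb
  exact h2 t ht b b' (fun _ => c) (fun _ => hc.ne_zero) fun v => congrFun hb v

theorem def_sub (h : AV p g) : ∃ S : Set K, S.Finite ∧
    ∀ t : K ≃+* K, (∀ c ∈ S, t c = c) → ∀ a a' b b', (Par (p a') fun l => t (p a l)) →
      (Par (p b') fun l => t (p b l)) → Par (p (a' - b')) fun l => t (p (a - b) l) := by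
  obtain ⟨S, h1, h2⟩ := def_reg (Sum.elim (fun _ : σ => (0 : Fin 2)) fun _ : σ => 1)
    (fun s : G × G => Sum.elim (p s.1) (p s.2)) (Fin.forall_fin_two.2
      ⟨Submodule.span_mono (by rintro _ ⟨l, rfl⟩; exact ⟨.inl l, rfl, rfl⟩),
      Submodule.span_mono (by rintro _ ⟨l, rfl⟩; exact ⟨.inr l, rfl, rfl⟩)⟩)
    (fun s => h.ne (s.1 - s.2)) h.sub
  refine ⟨S, h1, fun t ht a a' b b' ha hb => ?_⟩
  obtain ⟨c, hc, ha⟩ := ha
  obtain ⟨d, hd, hb⟩ := hb
  refine h2 t ht (a, b) (a', b') ![c, d] (Fin.forall_fin_two.2 ⟨hc.ne_zero, hd.ne_zero⟩) ?_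
  rintro (v | v)
  · exact congrFun ha v
  · exact congrFun hb v

/-- an automorphism that fixes a suitable finite set acts on the points -/
theorem exists_psi (h : AV p g) (hi : ∀ b b', Par (p b) (p b') → b = b') {J : Type} [Finite J]
    {f : J → G → G} (hf : ∀ j, Mor p p (f j)) : ∃ S : Set K, S.Finite ∧ ∀ t : K ≃+* K,
      (∀ c ∈ S, t c = c) → ∃ ψ : G →+ G, Bijective ψ ∧
        (∀ b, Par (p (ψ b)) fun l => t (p b l)) ∧ ∀ j b, ψ (f j b) = f j (ψ b) := by
  obtain ⟨S₁, f1, h1⟩ := def_idl h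
  obtain ⟨S₂, f2, h2⟩ := def_sub h
  choose S₃ f3 h3 using fun j => def_mor h (hf j)
  refine ⟨S₁ ∪ S₂ ∪ ⋃ j, S₃ j, (f1.union f2).union (finite_iUnion f3), fun t ht => ?_⟩
  have t1 : ∀ c ∈ S₁, t c = c := fun c hc => ht c (Or.inl (Or.inl hc))
  choose ψ hψ using h1 t t1
  have hs : ∀ a b, ψ (a - b) = ψ a - ψ b := fun a b => hi _ _ (Par.trans (hψ _)
    (Par.symm (h2 t (fun c hc => ht c (Or.inl (Or.inr hc))) _ _ _ _ (hψ a) (hψ b))))
  refine ⟨AddMonoidHom.ofMapSub ψ hs, ⟨fun a b e => hi _ _ ?_, fun b => ?_⟩, hψ,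
    fun j b => hi _ _ (Par.trans (hψ _) (Par.symm (h3 j t
      (fun c hc => ht c (Or.inr (mem_iUnion.2 ⟨j, hc⟩))) _ _ (hψ b))))⟩
  · have e' : ψ a = ψ b := e
    have := par_symm (Par.trans (Par.symm (hψ b)) (e' ▸ hψ a))
    simpa using this
  · obtain ⟨a, ha⟩ := h1 t.symm (fun c hc => t.symm_apply_eq.2 (t1 c hc).symm) b
    refine ⟨a, hi _ _ (Par.trans (hψ a) (Par.symm ?_))⟩
    simpa using par_symm ha

omit [Finite σ] in
theorem mor_pow {U : Type} {x : T → σ → K} {y : U → σ → K} {f : T → U} {n : ℕ}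
    (h : ∀ s, Par (y (f s)) fun l => x s l ^ n) : Mor x y f := by
  choose c hc h using fun s => Par.symm (h s)
  refine rg_of_gen fun s => ⟨fun _ => n, c, hc s, fun l => ?_⟩
  have : (c * fun s => y (f s) l) = (fun s => x s l) ^ n := funext fun s => (congrFun (h s) l).symm
  rw [this, Fin.prod_univ_one]
  exact Submodule.pow_mem_pow _ (Submodule.subset_span (mem_range_self l)) n

end defn

/-- on a finite set an automorphism of the algebraic closure of a finite field is undone by a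
power of Frobenius -/
theorem exists_frob {k : Type} [Field k] [Finite k] (s : AlgebraicClosure k ≃+* AlgebraicClosure k)
    {S : Set (AlgebraicClosure k)} (hS : S.Finite) :
    ∃ (n : ℕ) (t : AlgebraicClosure k ≃+* AlgebraicClosure k),
      (∀ c, t c = s c ^ n) ∧ ∀ c ∈ S, t c = c := by
  obtain ⟨p, hp⟩ := CharP.exists k
  have : Fact p.Prime := ⟨CharP.char_is_prime k p⟩
  have := hS.to_subtype
  have : FiniteDimensional k (IntermediateField.adjoin k S) :=
    IntermediateField.finiteDimensional_adjoin fun x _ => Algebra.IsIntegral.isIntegral x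
  have : Finite (IntermediateField.adjoin k S) := Module.finite_of_finite k
  cases nonempty_fintype (IntermediateField.adjoin k S)
  obtain ⟨N, -, hN⟩ := FiniteField.card (IntermediateField.adjoin k S) p
  let F := (iterateFrobenius (AlgebraicClosure k) p N).eqLocusField (RingHom.id _)
  have hF : ∀ c, c ∈ F ↔ c ^ p ^ (N : ℕ) = c := fun c => Iff.rfl
  have h1 : ∀ c ∈ S, c ∈ F := fun c hc => by
    have := FiniteField.pow_card (⟨c, IntermediateField.subset_adjoin k S hc⟩ :
      IntermediateField.adjoin k S)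
    rw [hN] at this
    exact (hF c).2 (congrArg Subtype.val this)
  have : Finite F := by
    have h2 := FiniteField.X_pow_card_pow_sub_X_ne_zero (AlgebraicClosure k) N.ne_zero
      (Fact.out : p.Prime).one_lt
    refine Set.Finite.subset (Polynomial.finite_setOfPred_isRoot h2) fun c hc => ?_
    simpa [sub_eq_zero] using (hF c).1 hc
  let : Algebra (ZMod p) F := ZMod.algebra F p
  let s' : F →+* F := ((s : AlgebraicClosure k →+* AlgebraicClosure k).comp F.subtype).codRestrict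
    F fun c => (hF _).2 (by
      change s c ^ _ = s c
      rw [← map_pow, (hF c).1 c.2])
  obtain ⟨n, hn⟩ := (FiniteField.bijective_frobeniusAlgHom_pow (ZMod p) F).2
    { s' with
      commutes' := RingHom.congr_fun (RingHom.ext_zmod (s'.comp (algebraMap _ _)) (algebraMap _ _)) }
  have h3 : ∀ c : F, s c = c ^ p ^ (n : ℕ) := fun c => by
    have := DFunLike.congr_fun hn c
    rw [AlgHom.coe_pow, FiniteField.coe_frobeniusAlgHom, pow_iterate, ZMod.card] at this
    exact (congrArg Subtype.val this).symm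
  have h4 : ∀ c ∈ F, ∀ m : ℕ, c ^ p ^ (N * m) = c := fun c hc m => by
    induction m with
    | zero => simp
    | succ m ih => rw [mul_add, mul_one, pow_add, pow_mul, ih, (hF c).1 hc]
  refine ⟨p ^ (((N : ℕ) - 1) * (n : ℕ)),
    s.trans (iterateFrobeniusEquiv _ p (((N : ℕ) - 1) * (n : ℕ))), fun c => rfl, fun c hc => ?_⟩
  change s c ^ p ^ (((N : ℕ) - 1) * (n : ℕ)) = c
  rw [h3 ⟨c, h1 c hc⟩, ← pow_mul, ← pow_add, ← one_add_mul, add_tsub_cancel_of_le N.pos]
  exact h4 c (h1 c hc) n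

end Pool.Agent.Tav.Tw
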