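import Pool.Agent.P.MP_2ce3e7_ag.Tav.PCnt
import Pool.Agent.P.MP_2ce3e7_ag.Tav.PDisc
import Pool.Agent.P.MP_2ce3e7_ag.Tav.Dec
import Pool.Agent.P.MP_2ce3e7_ag.Tav.MFib

/-! The point count. -/

set_option autoImplicit false

noncomputable section

namespace Pool.Agent.Tav.Pp

open MvPolynomial Module Set Function

section
variable {Ω : Type} [Field Ω] [IsAlgClosed Ω] {R : ValuationSubring ℂ} {r : R →+* Ω} {σ : Type}
  [Fintype σ] {g : ℕ} (X : Model r σ g)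

theorem card_ker_of_deg (hD : X.fB.Deg) {a : Fin g → ℂ} (ha : a ∈ En X.Λ) (h0 : ∀ i, a i ≠ 0)
    {f : X.B →+ X.B} (hf : ∀ v, f (X.red v) = X.red (a * v)) :
    Finite f.ker ∧ ((∀ v, X.red v = 0 → a * v ∈ X.Λ → v ∈ X.Λ) →
      (Nat.card f.ker : ℂ) = ∏ γ, Sum.elim a (star a) γ) := by
  refine card_ker X ha h0 hf X.sp.src X.sp.top ?_
  have e : X.fB.H = fun _ : Unit => LS.co X.p X.sp.ne := funext fun b => blk_unit X.sp.ne b
  have e' : (fun t : X.B => (⟨a, ha⟩ : EnR X.Λ) • t) = f := funext fun b => by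
    obtain ⟨v, rfl⟩ := X.onto b
    rw [hf, ← X.red_smul]
  have := hD ⟨a, ha⟩
  simp only [Fib.DD, e, LS.pb_id] at this
  rw [← e']
  refine this.trans ?_
  congr 1
  exact Finset.prod_congr rfl fun γ _ => by rcases γ with i | i <;> rfl

theorem finite_tors (hD : X.fB.Deg) {m : ℕ} (hm : m ≠ 0) : {b : X.B | m • b = 0}.Finite := by
  have h1 : ∀ v : Fin g → ℂ, (m : Fin g → ℂ) * v = m • v := fun v => (nsmul_eq_mul m v).symm
  exact (card_ker_of_deg X hD (a := m) (fun l hl => by rw [h1]; exact nsmul_mem hl m)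
    (fun i => Nat.cast_ne_zero.2 hm) (f := nsmulAddMonoidHom m)
    fun v => by rw [h1, map_nsmul]; rfl).1

/-- the count on the special fibre -/
theorem count_B (hD : X.fB.Deg) (hr : Surjective r) {π : Fin g → ℂ} (hπ : π ∈ En X.Λ) {e Q : ℕ}
    (hQ : (Q : Ω) = 0) (hL : ∀ v, Par (X.p (X.red (π ^ e * v))) (X.p (X.red v) ^ Q)) (s : ℕ)
    {f : X.B →+ X.B} (hf : ∀ v, f (X.red v) = X.red ((1 - π ^ (s + 1)) * v)) :
    Finite f.ker ∧ (Nat.card f.ker : ℂ) = ∏ γ, (1 - Sum.elim π (star π) γ ^ (s + 1)) := by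
  have h0 : ∀ i, (1 - π ^ (s + 1)) i ≠ 0 := fun i h => by
    have h1 := PD.cot X hr (pow_mem X hπ e) hQ hL i
    have h2 : π i ^ (s + 1) = 1 := (sub_eq_zero.1 h).symm
    have h3 := pow_lt_one₀ zero_le h1 s.succ_ne_zero
    rw [← map_pow, Pi.pow_apply, ← pow_mul, mul_comm, pow_mul, h2, one_pow, map_one] at h3
    exact lt_irrefl _ h3
  obtain ⟨h1, h2⟩ := card_ker_of_deg X hD (sub_mem X (one_mem X) (pow_mem X hπ _)) h0 hf
  refine ⟨h1, (h2 fun v hv h => PD.disc_fix X hr (pow_mem X hπ e) hQ hL hv (s := s) ?_).trans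
    (Finset.prod_congr rfl fun γ _ => by rcases γ with i | i <;> simp)⟩
  rw [← pow_mul, mul_comm e, pow_mul]
  refine fix_pow X (pow_mem X hπ _) ?_ e
  have := X.Λ.neg_mem h
  rwa [sub_mul, one_mul, neg_sub] at this

variable {G : Type} [AddCommGroup G] {ψ : G →+ X.B} {ψ' : X.B →+ G} {m : ℕ}

omit [IsAlgClosed Ω] in
theorem psi_onto (hm : m ≠ 0) (h : ∀ b, ψ (ψ' b) = m • b) : Surjective ψ := fun b => by
  obtain ⟨b', rfl⟩ := nsmul_onto X hm b
  exact ⟨_, h b'⟩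

theorem finite_psi (hD : X.fB.Deg) (hs : Surjective ψ') (hm : m ≠ 0) (h : ∀ b, ψ (ψ' b) = m • b) :
    Finite ψ.ker ∧ Finite ψ'.ker := by
  have h1 := finite_tors X hD hm
  refine ⟨((h1.image ψ').subset fun y hy => ?_ : (ψ.ker : Set G).Finite),
    (h1.subset fun b hb => ?_ : (ψ'.ker : Set X.B).Finite)⟩
  · obtain ⟨b, rfl⟩ := hs y
    exact ⟨b, (h b).symm.trans hy, rfl⟩
  · have hb : ψ' b = 0 := hb
    rw [mem_ofPred_eq, ← h, hb, map_zero]

/-- equivariance passes from `ψ` to `ψ'` -/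
theorem psi_back (hD : X.fB.Deg) (hs : Surjective ψ') (hm : m ≠ 0) (h : ∀ b, ψ (ψ' b) = m • b)
    {α : G →+ G} {β : X.B →+ X.B} (e : ∀ y, ψ (α y) = β (ψ y)) (b : X.B) :
    ψ' (β b) = α (ψ' b) := by
  have := (finite_psi X hD hs hm h).1
  obtain ⟨b', rfl⟩ := nsmul_onto X (Nat.card_pos (α := ψ.ker)).ne' b
  have h1 : ψ' (β b') - α (ψ' b') ∈ ψ.ker := by
    rw [AddMonoidHom.mem_ker, map_sub, e, h, h, map_nsmul, sub_self]
  have h2 := congrArg Subtype.val (card_nsmul_eq_zero' (x := (⟨_, h1⟩ : ψ.ker)))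
  rw [map_nsmul, map_nsmul, map_nsmul, map_nsmul, ← sub_eq_zero, ← nsmul_sub]
  exact h2

end

/-- the point count of `G` -/
theorem count_G {k : Type} [Field k] [Fintype k] {G τ σ : Type} [AddCommGroup G] [Finite τ]
    [Fintype σ] {g : ℕ} {p : G → τ → AlgebraicClosure k} {F : G →+ G}
    (hF : ∀ y, Par (p (F y)) (p y ^ Fintype.card k)) {R : ValuationSubring ℂ}
    {r : R →+* AlgebraicClosure k} (hr : Surjective r) (X : Model r σ g) (hD : X.fB.Deg)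
    {ψ : G →+ X.B} {ψ' : X.B →+ G} (hψ : Mor p X.p ψ) (hs : Surjective ψ') {m : ℕ} (hm : m ≠ 0)
    (h : ∀ b, ψ (ψ' b) = m • b) {π : Fin g → ℂ} (hπ : π ∈ En X.Λ) (hE : X.Eqv ψ F π) (s : ℕ) :
    (Nat.card (fixedPoints F^[s + 1]) : ℂ) = ∏ γ, (1 - Sum.elim π (star π) γ ^ (s + 1)) := by
  have hon := psi_onto X hm h
  obtain ⟨e, he, hL⟩ := lf_of_eqv hF X hψ hon hE
  obtain ⟨β, hβ, -⟩ := exists_act X (sub_mem X (one_mem X) (pow_mem X hπ (s + 1)))
  obtain ⟨h1, h2⟩ := count_B X hD hr hπ (by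
    rw [Nat.cast_pow, ← map_natCast (algebraMap k _), FiniteField.cast_card_eq_zero, map_zero,
      zero_pow he]) hL s hβ
  obtain ⟨h3, h4⟩ := finite_psi X hD hs hm h
  let φ : AddMonoid.End G := F
  let α : G →+ G := (1 - φ ^ (s + 1) : AddMonoid.End G)
  have hα : ∀ y, α y = y - F^[s + 1] y := fun y => by
    change y - (φ ^ (s + 1)) y = _
    rw [AddMonoid.End.coe_pow]
    rfl
  have e1 : ∀ y, ψ (α y) = β (ψ y) := fun y => by
    obtain ⟨v, hv⟩ := X.onto (ψ y)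
    rw [hα, map_sub, eqv_iter X hE _ y v hv.symm, ← hv, hβ, sub_mul, one_mul, map_sub]
  obtain ⟨h5, h6⟩ := Dec.card_ker_le ψ' hs β α (AddMonoidHom.ext (psi_back X hD hs hm h e1))
  obtain ⟨-, h7⟩ := Dec.card_ker_le ψ hon α β (AddMonoidHom.ext e1)
  rw [← h2, le_antisymm h7 h6]
  congr 1
  refine Nat.card_congr (Equiv.subtypeEquivRight fun y => ?_)
  rw [AddMonoidHom.mem_ker, hα, sub_eq_zero, eq_comm]
  rfl

end Pool.Agent.Tav.Pp
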