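import Pool.Agent.P.MP_2ce3e7_ag.Tav.GrPiInt
import Pool.Agent.P.MP_2ce3e7_ag.Tav.GrTwB
import Pool.Agent.P.MP_2ce3e7_ag.Tav.PG

/-! A power of Frobenius lifts to an endomorphism of the model. -/

set_option autoImplicit false

noncomputable section

namespace Pool.Agent.Tav.GrPi

open MvPolynomial Module Function

theorem exists_index {g : ℕ} (Λ : Submodule ℤ (Fin g → ℂ)) [DiscreteTopology Λ] [IsZLattice ℝ Λ]
    (b : Basis (Fin g ⊕ Fin g) ℤ (EnR Λ)) :
    ∃ v ∈ Λ, ∃ n : ℕ, n ≠ 0 ∧ ∀ l ∈ Λ, ∃ a : EnR Λ, n • l = a.1 * v := by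
  obtain ⟨v, hv, h0⟩ := exists_generic Λ
  let f : EnR Λ →ₗ[ℤ] Λ := AddMonoidHom.toIntLinearMap
    { toFun := fun a => ⟨a.1 * v, a.2 v hv⟩
      map_zero' := Subtype.ext (zero_mul v)
      map_add' := fun a b => Subtype.ext (add_mul a.1 b.1 v) }
  have hf : Injective f := by
    intro a b e
    ext i
    exact mul_right_cancel₀ (h0 i) (congrFun (congrArg Subtype.val e) i)
  have : Finite (Λ ⧸ LinearMap.range f) := Submodule.finiteQuotientOfFreeOfRankEq _ (by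
    rw [LinearMap.finrank_range_of_inj hf, finrank_eq_card_basis b, ZLattice.rank ℝ Λ,
      finrank_real_of_complex]
    simp [two_mul])
  refine ⟨v, hv, Nat.card (Λ ⧸ LinearMap.range f), Nat.card_pos.ne', fun l hl => ?_⟩
  have h1 := card_nsmul_eq_zero' (x := (LinearMap.range f).mkQ ⟨l, hl⟩)
  rw [← map_nsmul] at h1
  obtain ⟨a, ha⟩ := (Submodule.Quotient.mk_eq_zero _).1 h1
  exact ⟨a, (congrArg Subtype.val ha).symm⟩

theorem box_lt (c g : ℕ) :
    (c * (c + 1) ^ (2 * g) + 1) ^ (2 * g) < ((c + 1) ^ (2 * g) + 1) ^ (2 * g + 1) := by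
  calc (c * (c + 1) ^ (2 * g) + 1) ^ (2 * g)
      ≤ ((c + 1) * ((c + 1) ^ (2 * g) + 1)) ^ (2 * g) := Nat.pow_le_pow_left (by
        generalize (c + 1) ^ (2 * g) = K
        nlinarith) _
    _ < _ := by
      rw [mul_pow, pow_succ']
      exact Nat.mul_lt_mul_of_pos_right (Nat.lt_succ_self _) (by positivity)

section
variable {Ω : Type} [Field Ω] [IsAlgClosed Ω] {R : ValuationSubring ℂ} {r : R →+* Ω} {σ : Type}
  [Fintype σ] {g : ℕ} (X : Model r σ g)

omit [IsAlgClosed Ω] in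
theorem eq_of_nsmul {f f' : X.B →+ X.B} {m : ℕ} (hm : m ≠ 0) (h : ∀ b, m • f b = m • f' b)
    (b : X.B) : f b = f' b := by
  obtain ⟨b, rfl⟩ := Pp.nsmul_onto X hm b
  rw [map_nsmul, map_nsmul, h]

omit [IsAlgClosed Ω] in
theorem nat_mem (N : ℕ) : (N : Fin g → ℂ) ∈ En X.Λ := natCast_mem (EnR X.Λ) N

/-- PIG: a regular homomorphism that commutes with the ring has a multiple in the ring -/
theorem exists_mul (hD : X.fB.Deg) {q : ℕ} (hq : (q : Ω) = 0) (hq0 : q ≠ 0)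
    (hd : ∀ N : ℕ, (N : Ω) ≠ 0 → ∀ v, X.red v = 0 → (N : Fin g → ℂ) * v ∈ X.Λ → v ∈ X.Λ)
    {F : X.B →+ X.B} (hF : ⇑F ∈ rm X.sp) (hc : ∀ (a : EnR X.Λ) b, F (a • b) = a • F b) :
    ∃ (m : ℕ) (a : EnR X.Λ), m ≠ 0 ∧ ∀ b, m • F b = a • b := by
  classical
  have := X.lat
  rcases eq_or_ne g 0 with rfl | hg
  · have := X.onto.subsingleton
    exact ⟨1, 1, one_ne_zero, fun b => Subsingleton.elim _ _⟩
  obtain ⟨v₀, hv₀, n, hn, hi⟩ := exists_index X.Λ X.basis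
  let u : Option (Fin g ⊕ Fin g) → X.B →+ X.B := fun j => j.elim F fun j => X.act (X.basis j)
  have hu : ∀ j, ⇑(u j) ∈ rm X.sp := fun j => by
    cases j
    exacts [hF, act_mem X _]
  have hs : ∀ (x : Option (Fin g ⊕ Fin g) → ℤ) b, (∑ j, x j • u j) b =
      x none • F b + (∑ j, x (some j) • X.basis j) • b := fun x b => by
    rw [Fintype.sum_option, AddMonoidHom.add_apply, AddMonoidHom.finsetSum_apply, Finset.sum_smul]
    simp only [smul_assoc]
    rfl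
  obtain ⟨C, hC⟩ := small_zero hg X.sp X.inj
    (ParLaw.of_law X.sp.ne (X.sp.cl_blk _) X.law_sp).parL (fun j => n • u j)
    fun j => nsmul_mem (hu j) n
  obtain ⟨K, hK⟩ : ∃ K, K = (q * C + 1) ^ (2 * g) := ⟨_, rfl⟩
  obtain ⟨N, hN⟩ : ∃ N, N = q * C * K + 1 := ⟨_, rfl⟩
  have hN1 : (N : Ω) ≠ 0 := by simp [hN, hq]
  have hN0 : (N : ℂ) ≠ 0 := Nat.cast_ne_zero.2 (by omega)
  have h1 : ∀ v : Fin g → ℂ, (N : Fin g → ℂ) * v = N • v := fun v => (nsmul_eq_mul N v).symm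
  have hp : ∏ γ : Fin g ⊕ Fin g, Sum.elim (N : Fin g → ℂ) (star (N : Fin g → ℂ)) γ =
      (N ^ (2 * g) : ℕ) := by
    simp [Fintype.prod_sum_type, two_mul, pow_add]
  obtain ⟨h2, h3⟩ := Pp.card_ker_of_deg X hD (nat_mem X N) (fun _ => hN0)
    (f := nsmulAddMonoidHom N) fun v => by rw [h1, map_nsmul]; rfl
  have h4 := Nat.cast_injective ((h3 (hd N hN1)).trans hp)
  have h5 := Nat.cast_injective ((Pp.card_tor X (nat_mem X N) fun _ => hN0).trans hp)
  let t₀ := X.red ((N : ℂ)⁻¹ • v₀)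
  have ht₀ : N • t₀ = 0 := by
    rw [← map_nsmul, ← Nat.cast_smul_eq_nsmul ℂ, smul_inv_smul₀ hN0]
    exact Pp.red_lat X hv₀
  cases nonempty_fintype (nsmulAddMonoidHom (α := X.B) N).ker
  obtain ⟨x₁, x₂, hx, e⟩ := Fintype.exists_ne_map_eq_of_card_lt
    (fun x : Option (Fin g ⊕ Fin g) → Fin (K + 1) => (⟨(∑ j, ((x j : ℕ) : ℤ) • u j) t₀, by
      rw [AddMonoidHom.mem_ker, nsmulAddMonoidHom_apply, ← map_nsmul, ht₀, map_zero]⟩ : (nsmulAddMonoidHom (α := X.B) N).ker)) (by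
    rw [← Nat.card_eq_fintype_card, h4, hN, hK]
    simpa [two_mul] using box_lt (q * C) g)
  let x : Option (Fin g ⊕ Fin g) → ℤ := fun j => ((x₁ j : ℕ) : ℤ) - (x₂ j : ℕ)
  have e0 : (∑ j, x j • u j) t₀ = 0 := by
    simp only [x, sub_smul, Finset.sum_sub_distrib, AddMonoidHom.sub_apply]
    exact sub_eq_zero.2 (congrArg Subtype.val e)
  have e1 : ∑ j, x j • n • u j = n • ∑ j, x j • u j := by
    rw [Finset.smul_sum]
    exact Finset.sum_congr rfl fun j _ => smul_comm _ _ _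
  have : Finite (Disc.kerQ X.Λ fun v => (N : Fin g → ℂ) * v) :=
    Nat.finite_of_card_ne_zero (by rw [h5]; exact pow_ne_zero _ (by omega))
  cases nonempty_fintype (Disc.kerQ X.Λ fun v => (N : Fin g → ℂ) * v)
  choose s hs1 hs2 using fun y : Disc.kerQ X.Λ fun v => (N : Fin g → ℂ) * v => y.2
  have h6 := hC N K x (fun j => by
    have a1 := (x₁ j).2
    have a2 := (x₂ j).2
    rw [abs_le]
    constructor <;> simp only [x] <;> omega)
    (by rw [hN, mul_assoc]; exact Nat.lt_succ_of_le (Nat.le_mul_of_pos_left _ (by omega))) _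
    (fun y => X.red (s y)) (fun y y' h => by
      refine Subtype.ext ?_
      rw [← hs2, ← hs2]
      exact (Submodule.Quotient.eq X.Λ).2 (hd N hN1 _ (by rw [map_sub, sub_eq_zero]; exact h) (by
        rw [mul_sub]; exact X.Λ.sub_mem (hs1 y) (hs1 y'))))
    (by rw [← Nat.card_eq_fintype_card, h5])
    (fun y => by rw [← map_nsmul, ← h1]; exact Pp.red_lat X (hs1 y)) fun y => by
      obtain ⟨a, ha⟩ := hi ((N : Fin g → ℂ) * s y) (hs1 y)
      have e2 : n • X.red (s y) = a • t₀ := by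
        rw [X.smul_red, mul_smul_comm, ← ha, h1, smul_comm n, ← Nat.cast_smul_eq_nsmul ℂ N,
          inv_smul_smul₀ hN0, map_nsmul]
      rw [hs] at e0
      rw [e1, AddMonoidHom.nsmul_apply, ← map_nsmul, e2, hs, hc, smul_comm _ a, smul_smul, mul_comm,
        mul_smul, ← smul_add, e0, smul_zero]
  have h7 : ∀ b, x none • F b = (-∑ j, x (some j) • X.basis j) • b := fun b => by
    have := eq_of_nsmul X (f := ∑ j, x j • u j) (f' := 0) hn
      (fun b => by rw [← AddMonoidHom.nsmul_apply, ← e1, h6]; simp) b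
    rw [hs] at this
    rw [neg_smul]
    exact eq_neg_of_add_eq_zero_left this
  have h8 : x none ≠ 0 := fun h0 => hx (funext fun j => Fin.ext (by
    have h9 := neg_eq_zero.1 (faithful X hD fun b => by rw [← h7, h0, zero_smul])
    have : x j = 0 := by
      cases j
      exacts [h0, Fintype.linearIndependent_iff.1 X.basis.linearIndependent _ h9 _]
    simp only [x] at this
    omega))
  refine ⟨(x none).natAbs, (x none).sign • -∑ j, x (some j) • X.basis j, Int.natAbs_ne_zero.2 h8,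
    fun b => ?_⟩
  rw [smul_assoc, ← h7, smul_smul, Int.sign_mul_self_eq_natAbs, natCast_zsmul]

/-- a regular homomorphism that commutes with a ring maximal at `p` comes from the ring -/
theorem exists_lift (hD : X.fB.Deg) {q : ℕ} (hq : (q : Ω) = 0) (hq0 : q ≠ 0)
    (hd : ∀ N : ℕ, (N : Ω) ≠ 0 → ∀ v, X.red v = 0 → (N : Fin g → ℂ) * v ∈ X.Λ → v ∈ X.Λ)
    (hm : ∃ n : ℕ, (n : Ω) ≠ 0 ∧
      ∀ a, IsIntegral ℤ a → ∀ m : ℕ, m ≠ 0 → m • a ∈ En X.Λ → n • a ∈ En X.Λ)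
    {F : X.B →+ X.B} (hF : ⇑F ∈ rm X.sp) (hc : ∀ (a : EnR X.Λ) b, F (a • b) = a • F b) :
    ∃ a : EnR X.Λ, ∀ b, F b = a • b := by
  obtain ⟨m, a, h0, h⟩ := exists_mul X hD hq hq0 hd hF hc
  obtain ⟨n, hn, hm⟩ := hm
  have hn0 : (n : ℂ) ≠ 0 := Nat.cast_ne_zero.2 fun e => hn (by rw [e, Nat.cast_zero])
  obtain ⟨π, hπ⟩ : ∃ π, π = (m : ℂ)⁻¹ • a.1 := ⟨_, rfl⟩
  have e : m • π = a.1 := by
    rw [hπ, ← Nat.cast_smul_eq_nsmul ℂ, smul_inv_smul₀ (Nat.cast_ne_zero.2 h0)]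
  have h1 : n • π ∈ En X.Λ := hm π (hπ ▸ integral X hD hF h0 h) m h0 (e ▸ a.2)
  have h2 := eq_of_nsmul X (f := n • F) (f' := X.act ⟨_, h1⟩) h0 fun b => by
    rw [AddMonoidHom.nsmul_apply, smul_comm, h, ← X.smul_def, ← smul_assoc, ← smul_assoc]
    exact congrArg (· • b) (Subtype.ext (by
      change n • a.1 = m • n • π
      rw [smul_comm, e]))
  have h3 : π ∈ En X.Λ := fun l hl => hd n hn _ (by
    have := h2 (X.red ((n : ℂ)⁻¹ • l))
    rw [X.act_red, AddMonoidHom.nsmul_apply, ← map_nsmul, ← map_nsmul,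
      ← Nat.cast_smul_eq_nsmul ℂ, smul_inv_smul₀ hn0, Pp.red_lat X hl, map_zero] at this
    rw [this]
    congr 1
    change _ = n • π * _
    rw [← Nat.cast_smul_eq_nsmul ℂ, smul_mul_smul_comm, mul_inv_cancel₀ hn0, one_smul]) (by
    rw [← mul_assoc, ← nsmul_eq_mul]
    exact h1 l hl)
  refine ⟨⟨π, h3⟩, eq_of_nsmul X (f' := X.act ⟨π, h3⟩) h0 fun b => ?_⟩
  rw [h, ← X.smul_def, ← smul_assoc]
  exact congrArg (· • b) (Subtype.ext e.symm)

end

variable {k : Type} [Field k] [Fintype k] {R : ValuationSubring ℂ} {r : R →+* AlgebraicClosure k}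
  {σ : Type} [Fintype σ] {g : ℕ}

/-- FR -/
theorem exists_frob (X : Model r σ g) : ∃ e ≠ 0, ∃ F : X.B →+ X.B,
    (∀ b, Par (X.p (F b)) (X.p b ^ Fintype.card k ^ e)) ∧
      ∀ (a : EnR X.Λ) b, F (a • b) = a • F b := by
  obtain ⟨S, hS, h⟩ := Tw.exists_psi X.sp X.inj fun j => X.mor_smul (X.basis j)
  obtain ⟨e, he, h1⟩ := Pp.exists_fix_fin hS.toFinset
  let φ := FiniteField.frobeniusAlgHom k (AlgebraicClosure k) ^ e
  have hφ : ∀ z, φ z = z ^ Fintype.card k ^ e := fun z => by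
    rw [AlgHom.coe_pow, Pp.frob_iter]
  obtain ⟨F, -, h2, h3⟩ := h
    (RingEquiv.ofBijective φ.toRingHom (Algebra.IsAlgebraic.algHom_bijective φ))
    fun c hc => (hφ c).trans (h1 c (hS.mem_toFinset.2 hc))
  refine ⟨e, he, F, fun b => ?_, fun a b => ?_⟩
  · rw [← show (fun l => φ (X.p b l)) = X.p b ^ Fintype.card k ^ e from funext fun l => hφ _]
    exact h2 b
  · rw [← X.basis.sum_repr a, Finset.sum_smul, Finset.sum_smul, map_sum]
    exact Finset.sum_congr rfl fun j _ => by rw [smul_assoc, smul_assoc, map_zsmul, h3]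

/-- PI, from the degree formula on the special fibre -/
theorem frob_of_deg (hr : Surjective r) (X : Model r σ g) (hD : X.fB.Deg)
    (sm : finrank (AlgebraicClosure k) (⨅ f ∈ idl X.p, LinearMap.ker
      (∑ l, eval (X.p 0) (pderiv l f) •
        LinearMap.proj (R := AlgebraicClosure k) (φ := fun _ => AlgebraicClosure k) l) :) ≤ g + 1)
    (hm : ∃ n : ℕ, (n : AlgebraicClosure k) ≠ 0 ∧
      ∀ a, IsIntegral ℤ a → ∀ m : ℕ, m ≠ 0 → m • a ∈ En X.Λ → n • a ∈ En X.Λ) :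
    ∃ a ∈ En X.Λ, ∃ e ≠ 0, ∀ v,
      Par (X.p (X.red (a * v))) (X.p (X.red v) ^ Fintype.card k ^ e) := by
  obtain ⟨e, he, F, h1, h2⟩ := exists_frob X
  obtain ⟨a, ha⟩ := exists_lift X hD (q := Fintype.card k)
    (by rw [← map_natCast (algebraMap k _), FiniteField.cast_card_eq_zero, map_zero])
    Fintype.card_ne_zero (fun N hN v => PD.disc_unit_inj X hr sm (nat_mem X N) fun i =>
      (R.valuation_eq_one_iff N).1 ((PD.r_ne_zero hr).1 (by rwa [map_natCast]))) hm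
    (Mor.reg X.sp.ne X.sp.ne (Tw.mor_pow h1)) h2
  exact ⟨a.1, a.2, e, he, fun v => by rw [← X.smul_red, ← ha]; exact h1 _⟩

end Pool.Agent.Tav.GrPi
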