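import Pool.Agent.P.MP_2ce3e7_ag.Tav.GrPlaceA

/-! A valuation ring of the complex numbers to which decomposition groups extend. -/

set_option autoImplicit false

noncomputable section

namespace Pool.Agent.Tav.Pl

open MvPolynomial
open scoped MonomialOrder

section
variable {A τ : Type} [Field A] (m : MonomialOrder τ) (O : ValuationSubring A)

/-- `f / g` is finite at infinity, with value in `O` -/
def Sm (f g : MvPolynomial τ A) : Prop :=
  g ≠ 0 ∧ m.degree f ≼[m] m.degree g ∧ f.coeff (m.degree g) / m.leadingCoeff g ∈ O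

variable {m O}

theorem Sm.mul {f g f' g' : MvPolynomial τ A} (h : Sm m O f g) (h' : Sm m O f' g') :
    Sm m O (f * f') (g * g') := by
  refine ⟨mul_ne_zero h.1 h'.1, ?_, ?_⟩
  · rw [m.degree_mul h.1 h'.1]
    refine le_trans m.degree_mul_le ?_
    rw [map_add, map_add]
    exact add_le_add h.2.1 h'.2.1
  · rw [m.degree_mul h.1 h'.1, m.coeff_mul_of_add_of_degree_le h.2.1 h'.2.1, m.leadingCoeff_mul,
      mul_div_mul_comm]
    exact mul_mem h.2.2 h'.2.2

theorem Sm.self {g : MvPolynomial τ A} (h : g ≠ 0) : Sm m O g g := by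
  refine ⟨h, le_rfl, ?_⟩
  change m.leadingCoeff g / _ ∈ O
  rw [div_self (m.leadingCoeff_ne_zero_iff.2 h)]
  exact O.one_mem

theorem Sm.add {f f' g : MvPolynomial τ A} (h : Sm m O f g) (h' : Sm m O f' g) :
    Sm m O (f + f') g := by
  refine ⟨h.1, le_trans m.degree_add_le (sup_le h.2.1 h'.2.1), ?_⟩
  rw [coeff_add, add_div]
  exact add_mem h.2.2 h'.2.2

theorem Sm.C {c : A} (h : c ∈ O) : Sm m O (C c : MvPolynomial τ A) 1 := by
  refine ⟨one_ne_zero, by rw [m.degree_C, m.degree_one], ?_⟩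
  simpa [m.leadingCoeff_one] using h

theorem Sm.total {f g : MvPolynomial τ A} (hf : f ≠ 0) (hg : g ≠ 0) :
    Sm m O f g ∨ Sm m O g f := by
  rcases lt_trichotomy (m.toSyn (m.degree f)) (m.toSyn (m.degree g)) with h | h | h
  · exact Or.inl ⟨hg, h.le, by rw [m.coeff_eq_zero_of_lt h, zero_div]; exact O.zero_mem⟩
  · have e : m.degree f = m.degree g := m.toSyn.injective h
    rcases O.mem_or_inv_mem (m.leadingCoeff f / m.leadingCoeff g) with h1 | h1
    · exact Or.inl ⟨hg, h.le, by rw [← e]; exact h1⟩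
    · rw [inv_div] at h1
      exact Or.inr ⟨hf, h.ge, by rw [e]; exact h1⟩
  · exact Or.inr ⟨hf, h.le, by rw [m.coeff_eq_zero_of_lt h, zero_div]; exact O.zero_mem⟩

theorem deg_map (e : A ≃+* A) (f : MvPolynomial τ A) :
    m.degree (map (e : A →+* A) f) = m.degree f := by
  unfold MonomialOrder.degree
  rw [support_map_of_injective _ e.injective]

theorem Sm.map {f g : MvPolynomial τ A} (h : Sm m O f g) (e : A ≃+* A) (he : ∀ a ∈ O, e a ∈ O) :
    Sm m O (map (e : A →+* A) f) (map (e : A →+* A) g) := by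
  refine ⟨fun h0 => h.1 (map_injective _ e.injective (h0.trans (map_zero _).symm)), ?_, ?_⟩
  · rw [deg_map, deg_map]
    exact h.2.1
  · unfold MonomialOrder.leadingCoeff
    rw [deg_map, coeff_map, coeff_map, ← map_div₀]
    exact he _ h.2.2

variable (m O) {K : Type} [Field K] [Algebra (MvPolynomial τ A) K]
  [IsFractionRing (MvPolynomial τ A) K]

theorem alg_ne {g : MvPolynomial τ A} (h : g ≠ 0) : algebraMap (MvPolynomial τ A) K g ≠ 0 :=
  (map_ne_zero_iff _ (IsFractionRing.injective _ K)).2 h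

variable (K) in
/-- the valuation ring of the field of fractions given by leading terms -/
def gauss : ValuationSubring K where
  carrier := {x | ∃ f g, Sm m O f g ∧ x = algebraMap _ K f / algebraMap _ K g}
  mul_mem' := by
    rintro _ _ ⟨f, g, h, rfl⟩ ⟨f', g', h', rfl⟩
    exact ⟨_, _, h.mul h', by rw [map_mul, map_mul, mul_div_mul_comm]⟩
  one_mem' := ⟨1, 1, Sm.self one_ne_zero, by simp⟩
  add_mem' := by
    rintro _ _ ⟨f, g, h, rfl⟩ ⟨f', g', h', rfl⟩
    refine ⟨_, _, (h.mul (Sm.self h'.1)).add ((Sm.self h.1).mul h'), ?_⟩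
    rw [div_add_div _ _ (alg_ne h.1) (alg_ne h'.1), map_add, map_mul, map_mul, map_mul]
  zero_mem' := ⟨_, _, Sm.C O.zero_mem, by simp⟩
  neg_mem' := by
    rintro _ ⟨f, g, h, rfl⟩
    exact ⟨_, _, (Sm.C (neg_mem O.one_mem)).mul h, by simp [neg_div]⟩
  mem_or_inv_mem' x := by
    obtain ⟨f, g, hg, rfl⟩ := IsFractionRing.div_surjective (MvPolynomial τ A) x
    by_cases hf : f = 0
    · exact Or.inl ⟨_, _, Sm.C O.zero_mem, by simp [hf]⟩
    rcases Sm.total (m := m) (O := O) hf (nonZeroDivisors.ne_zero hg) with h | h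
    · exact Or.inl ⟨f, g, h, rfl⟩
    · exact Or.inr ⟨g, f, h, inv_div _ _⟩

variable {m O}

theorem C_mem_gauss {c : A} : algebraMap (MvPolynomial τ A) K (C c) ∈ gauss m O K ↔ c ∈ O := by
  refine ⟨?_, fun h => ⟨_, _, Sm.C h, by simp⟩⟩
  rintro ⟨f, g, h, e⟩
  rw [eq_div_iff (alg_ne h.1), ← map_mul] at e
  obtain rfl := IsFractionRing.injective _ K e
  have h1 := h.2.2
  rwa [coeff_C_mul, show coeff (m.degree g) g = m.leadingCoeff g from rfl,
    mul_div_cancel_right₀ _ (m.leadingCoeff_ne_zero_iff.2 h.1)] at h1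

theorem gauss_res {x : K} (hx : x ∈ gauss m O K) :
    ∃ c ∈ O, x - algebraMap (MvPolynomial τ A) K (C c) ∈ (gauss m O K).nonunits := by
  obtain ⟨f, g, h, rfl⟩ := hx
  refine ⟨_, h.2.2, ?_⟩
  have hg := m.leadingCoeff_ne_zero_iff.2 h.1
  generalize hc : coeff (m.degree g) f / m.leadingCoeff g = c
  have h1 : m.degree (f - C c * g) ≼[m] m.degree g := by
    have h2 : Sm m ⊤ f g := ⟨h.1, h.2.1, trivial⟩
    have h3 := (Sm.C (m := m) (O := ⊤) (c := -c) trivial).mul (Sm.self h.1)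
    rw [one_mul] at h3
    have h4 := (h2.add h3).2.1
    rwa [map_neg, neg_mul, ← sub_eq_add_neg] at h4
  have h2 : coeff (m.degree g) (f - C c * g) = 0 := by
    rw [coeff_sub, coeff_C_mul, ← hc]
    exact sub_eq_zero.2 (div_mul_cancel₀ _ hg).symm
  have h3 : algebraMap _ K f / algebraMap _ K g - algebraMap (MvPolynomial τ A) K (C c) =
      algebraMap _ K (f - C c * g) / algebraMap _ K g := by
    rw [map_sub, map_mul, sub_div, mul_div_cancel_right₀ _ (alg_ne h.1)]
  rw [h3, ValuationSubring.mem_nonunits_iff_or, or_iff_not_imp_left]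
  rintro h0 ⟨f', g', h', e⟩
  rw [inv_div, div_eq_div_iff (fun h5 => h0 (by rw [h5, zero_div])) (alg_ne h'.1), ← map_mul,
    ← map_mul] at e
  have h4 := congrArg (coeff (m.degree g + m.degree g')) (IsFractionRing.injective _ K e)
  rw [m.coeff_mul_of_degree_add, mul_comm f', m.coeff_mul_of_add_of_degree_le h1 h'.2.1, h2,
    zero_mul] at h4
  exact mul_ne_zero hg (m.leadingCoeff_ne_zero_iff.2 h'.1) h4

variable (τ K) in
/-- the action on the coefficients -/
def cf (e : A ≃+* A) : K ≃+* K := IsFractionRing.ringEquivOfRingEquiv (mapEquiv τ e)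

theorem cf_alg (e : A ≃+* A) (f : MvPolynomial τ A) :
    cf τ K e (algebraMap _ K f) = algebraMap _ K (map (e : A →+* A) f) :=
  IsFractionRing.ringEquivOfRingEquiv_algebraMap _ f

theorem cf_mem (e : A ≃+* A) (he : ∀ a ∈ O, e a ∈ O) {x : K} (hx : x ∈ gauss m O K) :
    cf τ K e x ∈ gauss m O K := by
  obtain ⟨f, g, h, rfl⟩ := hx
  exact ⟨_, _, h.map e he, by rw [map_div₀, cf_alg, cf_alg]⟩

theorem cf_symm (e : A ≃+* A) (x : K) : cf τ K e.symm (cf τ K e x) = x := by
  obtain ⟨f, g, -, rfl⟩ := IsFractionRing.div_surjective (MvPolynomial τ A) x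
  simp only [map_div₀, cf_alg, map_map, RingEquiv.symm_comp, map_id]

theorem cf_iff (e : A ≃+* A) (he : ∀ a, e a ∈ O ↔ a ∈ O) (x : K) :
    cf τ K e x ∈ gauss m O K ↔ x ∈ gauss m O K := by
  refine ⟨fun h => ?_, cf_mem e fun a => (he a).2⟩
  rw [← cf_symm (τ := τ) e x]
  exact cf_mem e.symm (fun a ha => (he _).1 (by rwa [e.apply_symm_apply])) h

end

section
variable {A Ω : Type} [Field A] [Field Ω] [Algebra A Ω] [IsAlgClosed Ω] [CharZero A]

/-- a valuation ring above `O`, with residue field algebraic over that of `O`, and such that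
the automorphisms that keep `O` extend -/
theorem exists_top (O : ValuationSubring A) :
    ∃ R : ValuationSubring Ω, R.comap (algebraMap A Ω) = O ∧
      (∀ S : Subfield (IsLocalRing.ResidueField R), (∀ y, IsAlgebraic S y → y ∈ S) →
        (∀ a (ha : algebraMap A Ω a ∈ R), IsLocalRing.residue R ⟨_, ha⟩ ∈ S) →
        ∀ x, IsLocalRing.residue R x ∈ S) ∧
      ∀ e : A ≃+* A, (∀ a, e a ∈ O ↔ a ∈ O) → ∃ t : Ω ≃+* Ω, (∀ z, t z ∈ R ↔ z ∈ R) ∧
        ∀ a, t (algebraMap A Ω a) = algebraMap A Ω (e a) := by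
  obtain ⟨T, hT⟩ := exists_isTranscendenceBasis A Ω
  obtain ⟨_, _⟩ := exists_wellFoundedGT T
  let m : MonomialOrder T := MonomialOrder.lex
  let K := FractionRing (MvPolynomial T A)
  let E := IntermediateField.adjoin A (Set.range ((↑) : T → Ω))
  let j : K →+* Ω := (algebraMap E Ω).comp (hT.1.aevalEquivField : K →+* E)
  let : Algebra K Ω := j.toAlgebra
  have hC : ∀ a, algebraMap K Ω (algebraMap (MvPolynomial T A) K (C a)) = algebraMap A Ω a :=
    fun a => (hT.1.aevalEquivField_algebraMap_apply_coe (C a)).trans (aeval_C _ a)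
  have := hT.isAlgebraic_field
  have : Algebra.IsAlgebraic K Ω :=
    Algebra.IsAlgebraic.of_ringHom_of_comp_eq (hT.1.aevalEquivField : K →+* E) (RingHom.id Ω)
      hT.1.aevalEquivField.surjective Function.injective_id rfl
  have : IsAlgClosure K Ω := ⟨inferInstance, inferInstance⟩
  obtain ⟨R, hR⟩ := ext_val (algebraMap K Ω) (gauss m O K)
  have hm : ∀ x, algebraMap K Ω x ∈ R ↔ x ∈ gauss m O K := fun x => by rw [← hR]; rfl
  refine ⟨R, ?_, fun S hS h x => ?_, fun e he => ?_⟩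
  · ext a
    rw [ValuationSubring.mem_comap, ← hC, hm, C_mem_gauss]
  · refine res_mem (K := K) R _ S hS (fun a ha => ?_) x (Algebra.IsAlgebraic.isAlgebraic _)
    obtain ⟨c, hc, h1⟩ := gauss_res ((hm a).1 ha)
    have h2 : algebraMap A Ω c ∈ R := by rwa [← hC, hm, C_mem_gauss]
    rw [← hR, nonunits_comap, map_sub, hC] at h1
    have h3 : IsLocalRing.residue R (⟨_, ha⟩ - ⟨_, h2⟩) = 0 :=
      (IsLocalRing.residue_eq_zero_iff _).2 (R.coe_mem_nonunits_iff.1 h1)
    rw [map_sub, sub_eq_zero] at h3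
    rw [h3]
    exact h c h2
  · obtain ⟨t, h1, h2⟩ := ext_aut R (cf T K e) fun a => by rw [hm, hm, cf_iff e he]
    refine ⟨t, h1, fun a => ?_⟩
    rw [← hC, h2, cf_alg, map_C, hC]
    rfl

end

/-- the algebraic numbers -/
abbrev Qb : IntermediateField ℚ ℂ := algebraicClosure ℚ ℂ

theorem le_Qb (L : IntermediateField ℚ ℂ) [Algebra.IsAlgebraic ℚ L] : L ≤ Qb := fun z hz =>
  mem_algebraicClosure_iff.2
    ((Algebra.IsAlgebraic.isAlgebraic (⟨z, hz⟩ : L)).algHom (algebraMap L ℂ).toRatAlgHom)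

instance Qb.closed : IsAlgClosed Qb :=
  (algebraicClosure.isAlgClosure ℚ ℂ).isAlgClosed

instance Qb.alg : Algebra.IsAlgebraic ℚ Qb := algebraicClosure.isAlgebraic ℚ ℂ

/-- an element of the decomposition group extends to the algebraic numbers -/
theorem ext_Qb (R : ValuationSubring ℂ) (L : IntermediateField ℚ ℂ) [Algebra.IsAlgebraic ℚ L]
    (s : L ≃+* L) (hs : ∀ z : L, (s z : ℂ) ∈ R ↔ (z : ℂ) ∈ R) :
    ∃ e : Qb ≃+* Qb, (∀ a, (e a : ℂ) ∈ R ↔ (a : ℂ) ∈ R) ∧
      ∀ (z : L) (a : Qb), (a : ℂ) = z → (e a : ℂ) = s z := by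
  have hL : L ≤ Qb := le_Qb L
  let : Algebra L Qb := (IntermediateField.inclusion hL).toRingHom.toAlgebra
  have : IsScalarTower ℚ L Qb := IsScalarTower.of_algebraMap_eq fun _ => rfl
  have : IsAlgClosure L Qb :=
    ⟨inferInstance, Algebra.IsAlgebraic.tower_top (K := ℚ) L⟩
  obtain ⟨e, h1, h2⟩ := ext_aut (K := L) (R.comap (algebraMap Qb ℂ)) s hs
  refine ⟨e, h1, fun z a h => ?_⟩
  obtain rfl : a = algebraMap L Qb z := Subtype.ext h
  exact congrArg Subtype.val (h2 z)

/-- any valuation ring: the extension keeps the algebraic elements of the ring -/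
theorem ext_any (R : ValuationSubring ℂ) (L : IntermediateField ℚ ℂ) [Algebra.IsAlgebraic ℚ L]
    (s : L ≃+* L) (hs : ∀ z : L, (s z : ℂ) ∈ R ↔ (z : ℂ) ∈ R) :
    ∃ t : ℂ ≃+* ℂ, (∀ z, IsAlgebraic ℚ z → (t z ∈ R ↔ z ∈ R)) ∧ ∀ z : L, t z = s z := by
  obtain ⟨e, h1, h2⟩ := ext_Qb R L s hs
  obtain ⟨_, -, -, h⟩ := exists_top (Ω := ℂ) (⊤ : ValuationSubring Qb)
  obtain ⟨t, -, ht⟩ := h e fun _ => Iff.rfl
  refine ⟨t, fun z hz => ?_, fun z => ?_⟩
  · have h3 : t z = e ⟨z, mem_algebraicClosure_iff.2 hz⟩ := ht ⟨z, _⟩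
    rw [h3]
    exact h1 _
  · exact (ht ⟨z, le_Qb L z.2⟩).trans (h2 z _ rfl)

theorem rat_mem {Ω F : Type} [Field Ω] [CharZero Ω] [Field F] (R : ValuationSubring Ω)
    (r : R →+* F) (S : Subfield F) (a : ℚ) (ha : algebraMap ℚ Ω a ∈ R) : r ⟨_, ha⟩ ∈ S := by
  have h1 : (⟨_, ha⟩ : R) * (a.den : ℤ) = (a.num : ℤ) := Subtype.ext (by
    have : (a : Ω) * (a.den : Ω) = a.num := by exact_mod_cast Rat.mul_den_eq_num a
    simpa using this)
  have h2 := congrArg r h1
  rw [map_mul, map_intCast, map_intCast] at h2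
  have h3 : ((a.den : ℤ) : F) ≠ 0 := fun h => by
    obtain ⟨u, v, h4⟩ := Rat.isCoprime_num_den a
    have h5 := congrArg (Int.cast : ℤ → F) h4
    rw [Int.cast_add, Int.cast_mul, Int.cast_mul, ← h2, h, Int.cast_one] at h5
    simp at h5
  rw [(eq_div_iff h3).2 h2]
  exact div_mem (intCast_mem S _) (intCast_mem S _)

theorem exists_over {A : Type} [Field A] [CharZero A] {p : ℕ} (hp : p.Prime) :
    ∃ O : ValuationSubring A, (p : A) ∈ O.nonunits := by
  obtain ⟨O, -, h⟩ := Ideal.image_subset_nonunits_valuationSubring (A := (⊥ : Subring A))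
    (Ideal.span {(p : (⊥ : Subring A))}) (by
      rw [Ne, Ideal.span_singleton_eq_top, isUnit_iff_exists_inv]
      rintro ⟨⟨b, hb⟩, h⟩
      obtain ⟨n, rfl⟩ := Subring.mem_bot.1 hb
      have h1 : (p : A) * (n : A) = 1 := by simpa using congrArg Subtype.val h
      have h2 : (p : ℤ) * n = 1 := by exact_mod_cast h1
      exact hp.one_lt.ne' (by exact_mod_cast Int.eq_one_of_mul_eq_one_right (by omega) h2))
  exact ⟨O, h ⟨_, Ideal.subset_span rfl, by simp⟩⟩

/-- an automorphism that keeps `R` descends along a surjection onto a field -/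
theorem exists_bar {Ω F : Type} [Field Ω] [Field F] {R : ValuationSubring Ω} (r : R →+* F)
    (hr : Function.Surjective r) (t : Ω ≃+* Ω) (ht : ∀ z, t z ∈ R ↔ z ∈ R) :
    ∃ tb : F ≃+* F, ∀ x : R, r ⟨t x, (ht x).2 x.2⟩ = tb (r x) := by
  let u : R ≃+* R := RingEquiv.ofBijective
    (((t : Ω →+* Ω).comp R.subtype).codRestrict R fun x => (ht x).2 x.2)
    ⟨fun a b h => Subtype.ext (t.injective (congrArg Subtype.val h)), fun b =>
      ⟨⟨t.symm b, (ht _).1 (by rw [t.apply_symm_apply]; exact b.2)⟩,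
        Subtype.ext (t.apply_symm_apply b)⟩⟩
  have hk : RingHom.ker r = IsLocalRing.maximalIdeal R :=
    IsLocalRing.eq_maximalIdeal (RingHom.ker_isMaximal_of_surjective r hr)
  let e : IsLocalRing.ResidueField R ≃+* F :=
    (Ideal.quotEquivOfEq hk.symm).trans (r.quotientKerEquivOfSurjective hr)
  have he : ∀ x, e (IsLocalRing.residue R x) = r x := fun _ => rfl
  refine ⟨(e.symm.trans (IsLocalRing.ResidueField.mapEquiv u)).trans e, fun x => ?_⟩
  rw [← he x, RingEquiv.trans_apply, RingEquiv.trans_apply, e.symm_apply_apply]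
  rfl

/-- decomposition groups of number fields extend to automorphisms that keep `R` -/
def Ext (R : ValuationSubring ℂ) : Prop :=
  ∀ (L : IntermediateField ℚ ℂ) [Algebra.IsAlgebraic ℚ L] (s : L ≃+* L),
    (∀ z : L, (s z : ℂ) ∈ R ↔ (z : ℂ) ∈ R) →
    ∃ t : ℂ ≃+* ℂ, (∀ z, t z ∈ R ↔ z ∈ R) ∧ ∀ z : L, t z = s z

/-- PLACE -/
theorem place (k : Type) [Field k] [Finite k] :
    ∃ (R : ValuationSubring ℂ) (r : R →+* AlgebraicClosure k), Function.Surjective r ∧ Ext R := by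
  obtain ⟨p, hp, hc⟩ : ∃ p : ℕ, p.Prime ∧ CharP k p :=
    ⟨_, CharP.char_is_prime k (ringChar k), inferInstance⟩
  have : Fact p.Prime := ⟨hp⟩
  obtain ⟨O, hO⟩ := exists_over (A := Qb) hp
  obtain ⟨R, h1, h2, h3⟩ := exists_top (Ω := ℂ) O
  have : CharP (IsLocalRing.ResidueField R) p := by
    rw [← h1, nonunits_comap, map_natCast] at hO
    refine (CharP.charP_iff_prime_eq_zero hp).2 ?_
    rw [← map_natCast (IsLocalRing.residue R), IsLocalRing.residue_eq_zero_iff]
    exact R.coe_mem_nonunits_iff.1 (by simpa using hO)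
  let := ZMod.algebra (IsLocalRing.ResidueField R) p
  let := ZMod.algebra k p
  have := res_closed R
  let S := algebraicClosure (ZMod p) (IsLocalRing.ResidueField R)
  have hS : ∀ y, IsAlgebraic S.toSubfield y → y ∈ S.toSubfield := fun y hy =>
    mem_algebraicClosure_iff.2 (IsAlgebraic.restrictScalars (ZMod p) (S := S) hy)
  have : IsAlgClosure (ZMod p) (IsLocalRing.ResidueField R) := ⟨inferInstance, ⟨fun y => by
    obtain ⟨x, rfl⟩ := IsLocalRing.residue_surjective y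
    refine mem_algebraicClosure_iff.1 (h2 S.toSubfield hS (fun a ha => ?_) x)
    exact res_mem (K := ℚ) R _ _ hS (rat_mem R _ _) ⟨_, ha⟩ (mem_algebraicClosure_iff.1 a.2)⟩⟩
  have : IsAlgClosure (ZMod p) (AlgebraicClosure k) :=
    ⟨inferInstance, Algebra.IsAlgebraic.trans (ZMod p) k _⟩
  let e := IsAlgClosure.equiv (ZMod p) (IsLocalRing.ResidueField R) (AlgebraicClosure k)
  refine ⟨R, (e : _ →+* _).comp (IsLocalRing.residue R),
    e.surjective.comp IsLocalRing.residue_surjective, fun L _ s hs => ?_⟩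
  obtain ⟨u, h4, h5⟩ := ext_Qb R L s hs
  obtain ⟨t, h6, h7⟩ := h3 u fun a => by rw [← h1]; exact h4 a
  exact ⟨t, h6, fun z => (h7 ⟨z, le_Qb L z.2⟩).trans (h5 z _ rfl)⟩

/-- the form used for twists -/
theorem Ext.gal {R : ValuationSubring ℂ} (h : Ext R) {F : Type} [Field F] (r : R →+* F)
    (hr : Function.Surjective r) (L : IntermediateField ℚ ℂ) [FiniteDimensional ℚ L]
    (s : Gal(L/ℚ)) (hs : ∀ z : L, (s z : ℂ) ∈ R ↔ (z : ℂ) ∈ R) :
    ∃ (t : ℂ ≃+* ℂ) (ht : ∀ z, t z ∈ R ↔ z ∈ R) (tb : F ≃+* F), (∀ z : L, t z = s z) ∧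
      ∀ x : R, r ⟨t x, (ht x).2 x.2⟩ = tb (r x) := by
  obtain ⟨t, ht, h1⟩ := h L s.toRingEquiv hs
  obtain ⟨tb, h2⟩ := exists_bar r hr t ht
  exact ⟨t, ht, tb, h1, h2⟩

end Pool.Agent.Tav.Pl
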