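import Pool.Agent.P.MP_2ce3e7_ag.Tav.MSh

/-! A lattice with complex multiplication has a Riemann form. -/

set_option autoImplicit false

noncomputable section

namespace Pool.Agent.Tav.Tw

open Set Function Module

variable {g : ℕ} (Λ : Submodule ℤ (Fin g → ℂ)) [DiscreteTopology Λ] [IsZLattice ℝ Λ]

theorem exists_cone {z : Fin g → ℂ} (hz : ∀ i, z i ≠ 0) : ∃ l ∈ Λ, ∀ i, 0 < (l i / z i).im := by
  let b := (Module.Free.chooseBasis ℤ Λ).ofZLatticeBasis ℝ Λ
  let M : ℝ := 1 + ∑ i, (∑ k, ‖b k‖) / ‖z i‖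
  let v : Fin g → ℂ := fun i => M * Complex.I * z i
  refine ⟨ZSpan.floor b v, ((Module.Free.chooseBasis ℤ Λ).ofZLatticeBasis_span ℝ).le
    (ZSpan.floor b v).2, fun i => ?_⟩
  have h1 : (ZSpan.floor b v : Fin g → ℂ) i / z i = M * Complex.I - ZSpan.fract b v i / z i := by
    rw [ZSpan.fract_apply, Pi.sub_apply, sub_div, mul_div_cancel_right₀ _ (hz i), sub_sub_cancel]
  have h2 : (ZSpan.fract b v i / z i).im ≤ (∑ k, ‖b k‖) / ‖z i‖ := by
    refine (Complex.im_le_norm _).trans ?_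
    rw [norm_div]
    gcongr
    exact (norm_le_pi_norm _ i).trans (ZSpan.norm_fract_le b v)
  have h3 := Finset.single_le_sum (f := fun i => (∑ k, ‖b k‖) / ‖z i‖)
    (fun i _ => by positivity) (Finset.mem_univ i)
  rw [h1, Complex.sub_im]
  simp only [Complex.mul_im, Complex.ofReal_re, Complex.I_im, Complex.ofReal_im, Complex.I_re, M]
  linarith

variable {Λ}

theorem exists_mul (cm : ∃ θ ∈ En Λ, Injective (Sum.elim θ (star θ))) {z l : Fin g → ℂ}
    (hz : z ∈ Λ) (h0 : ∀ i, z i ≠ 0) (hl : l ∈ Λ) :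
    ∃ n : ℕ, n ≠ 0 ∧ ∃ a ∈ En Λ, n • l = a * z := by
  let f : EnR Λ →ₗ[ℤ] Λ := AddMonoidHom.toIntLinearMap
    { toFun := fun a => ⟨a.1 * z, a.2 z hz⟩
      map_zero' := Subtype.ext (zero_mul z)
      map_add' := fun a b => Subtype.ext (add_mul a.1 b.1 z) }
  have hf : Injective f := fun a b e => Subtype.ext (funext fun i =>
    mul_right_cancel₀ (h0 i) (congrFun (congrArg Subtype.val e) i))
  have h1 : finrank ℤ (LinearMap.range f) = finrank ℤ Λ := by
    rw [LinearMap.finrank_range_of_inj hf, finrank_eq_card_basis (exists_basis Λ cm).some,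
      ZLattice.rank ℝ Λ, finrank_real_of_complex]
    simp [two_mul]
  have h2 := Submodule.finrank_quotient_add_finrank (LinearMap.range f)
  obtain ⟨n, hn, h3⟩ := (Module.finrank_eq_zero_iff (R := ℤ)).1
    (show finrank ℤ (Λ ⧸ LinearMap.range f) = 0 by omega) (Submodule.Quotient.mk ⟨l, hl⟩)
  rw [← Submodule.Quotient.mk_smul, Submodule.Quotient.mk_eq_zero] at h3
  have h4 : (n.natAbs : ℤ) • (⟨l, hl⟩ : Λ) ∈ LinearMap.range f := by
    rcases Int.natAbs_eq n with e | e
    · rwa [← e]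
    · rw [e, neg_smul] at h3
      exact (neg_mem_iff).1 h3
  obtain ⟨b, hb⟩ := h4
  refine ⟨n.natAbs, Int.natAbs_ne_zero.2 hn, b.1, b.2, ?_⟩
  rw [← natCast_zsmul]
  exact (congrArg Subtype.val hb).symm

variable (cm : ∃ θ ∈ En Λ, Injective (Sum.elim θ (star θ))) (L : IntermediateField ℚ ℂ)
  [FiniteDimensional ℚ L] [IsGalois ℚ L] (c : Gal(L/ℚ)) (hc : ∀ z, (c z : ℂ) = star (z : ℂ))
  (hz : ∀ s, s * c = c * s) (hL : ∀ a ∈ En Λ, ∀ i, a i ∈ L)

include cm hc hz hL

theorem rat_sum (u a b : EnR Λ) :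
    ∃ q : ℚ, ∑ i, (u.1 i).im * (a.1 i * star (b.1 i)).im = q := by
  let S : Sh :=
    { Λ := EnR Λ, Γ := Fin g ⊕ Fin g, bas := (exists_basis Λ cm).some, χ := chE Λ
      inj := chE_inj Λ cm, σ := Unit, β := Unit, w := id, ν := Fin g, sl := fun _ => ()
      card := by simp [two_mul] }
  have hm : ∀ ρ (x : EnR Λ), chE Λ ρ x ∈ L := by
    rintro (i | i) x
    · exact hL x.1 x.2 i
    · have := (c ⟨x.1 i, hL x.1 x.2 i⟩).2
      rwa [hc] at this
  let y : Fin g ⊕ Fin g → EnR Λ →+* L := fun ρ => (chE Λ ρ).codRestrict L (hm ρ)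
  obtain ⟨q, hq⟩ := (IsGalois.mem_range_algebraMap_iff_fixed (F := ℚ)
    (∑ ρ, (y ρ u - c (y ρ u)) * (y ρ a * c (y ρ b)))).2 fun s => by
      choose e he using fun ρ => S.exists_chi
        ((L.val : L →+* ℂ).comp ((s : L →+* L).comp (y ρ)))
      have h1 : ∀ ρ x, y (e ρ) x = s (y ρ x) := fun ρ x =>
        Subtype.ext (DFunLike.congr_fun (he ρ) x)
      have h2 : Injective e := fun ρ ρ' h => chE_inj Λ cm (RingHom.ext fun x => by
        have : y ρ x = y ρ' x := s.injective (by rw [← h1, ← h1, h])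
        exact congrArg Subtype.val this)
      have h3 : ∀ x, s (c x) = c (s x) := fun x => DFunLike.congr_fun (hz s) x
      rw [map_sum]
      refine Fintype.sum_bijective e (Finite.injective_iff_bijective.1 h2) _ _ fun ρ => ?_
      simp only [map_mul, map_sub, h1, h3]
  have h4 := congrArg (fun x : L => (x : ℂ).re) hq
  refine ⟨-q / 4, ?_⟩
  simp only [Fintype.sum_sum_type, AddMemClass.coe_add, AddSubmonoidClass.coe_finsetSum,
    MulMemClass.coe_mul, AddSubgroupClass.coe_sub, hc] at h4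
  change (q : ℂ).re = (∑ i, (u.1 i - star (u.1 i)) * (a.1 i * star (b.1 i)) +
    ∑ i, (star (u.1 i) - star (star (u.1 i))) * (star (a.1 i) * star (star (b.1 i)))).re at h4
  rw [← Finset.sum_add_distrib, Complex.re_sum, Complex.ratCast_re] at h4
  push_cast
  rw [h4, ← Finset.sum_neg_distrib, Finset.sum_div]
  refine Finset.sum_congr rfl fun i _ => ?_
  simp
  ring

theorem riem_cm : Riem Λ := by
  obtain ⟨z, hzΛ, h0⟩ := exists_generic Λ
  obtain ⟨l, hl, h1⟩ := exists_cone Λ h0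
  obtain ⟨n, hn, u, hu, h2⟩ := exists_mul cm hzΛ h0 hl
  have h3 : ∀ i, 0 < (u i).im := fun i => by
    have e : u i = n * (l i / z i) := by
      have : (n : ℂ) * l i = u i * z i := by simpa using congrFun h2 i
      rw [← mul_div_assoc, this, mul_div_cancel_right₀ _ (h0 i)]
    rw [e]
    simpa using mul_pos (Nat.cast_pos.2 (Nat.pos_of_ne_zero hn) : (0 : ℝ) < n) (h1 i)
  let ψ : (Fin g → ℂ) →ₗ[ℝ] (Fin g → ℂ) →ₗ[ℝ] ℝ := LinearMap.mk₂ ℝ
    (fun v w => ∑ i, (u i).im / Complex.normSq (z i) * (v i * star (w i)).im)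
    (fun _ _ _ => by simp [add_mul, mul_add, Finset.sum_add_distrib])
    (fun _ _ _ => by
      rw [smul_eq_mul, Finset.mul_sum]
      exact Finset.sum_congr rfl fun i _ => by simp; ring)
    (fun _ _ _ => by
      rw [← Finset.sum_add_distrib]
      exact Finset.sum_congr rfl fun i _ => by simp; ring)
    (fun _ _ _ => by
      rw [smul_eq_mul, Finset.mul_sum]
      exact Finset.sum_congr rfl fun i _ => by simp; ring)
  have hψ : ∀ v w, ψ v w = ∑ i, (u i).im / Complex.normSq (z i) * (v i * star (w i)).im :=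
    fun _ _ => rfl
  have h4 : ∀ v w : Λ, ∃ q : ℚ, ψ v w = q := fun v w => by
    obtain ⟨m, hm, a, ha, e1⟩ := exists_mul cm hzΛ h0 v.2
    obtain ⟨k, hk, b, hb, e2⟩ := exists_mul cm hzΛ h0 w.2
    obtain ⟨q, hq⟩ := rat_sum cm L c hc hz hL ⟨u, hu⟩ ⟨a, ha⟩ ⟨b, hb⟩
    have e3 : ψ (m • v.1) (k • w.1) = q := by
      rw [e1, e2, hψ, ← hq]
      refine Finset.sum_congr rfl fun i _ => ?_
      have : (a * z) i * star ((b * z) i) = a i * star (b i) * Complex.normSq (z i) := by
        rw [← Complex.mul_conj]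
        simp
        ring
      have h5 : Complex.normSq (z i) ≠ 0 := by simpa using h0 i
      rw [this, Complex.im_mul_ofReal]
      field_simp
    rw [map_nsmul, map_nsmul, LinearMap.smul_apply, nsmul_eq_mul, nsmul_eq_mul] at e3
    refine ⟨q / (k * m), ?_⟩
    push_cast
    rw [← e3]
    field_simp
  choose q hq using h4
  let β := Module.Free.chooseBasis ℤ Λ
  let N : ℕ := ∏ i, ∏ j, (q (β i) (β j)).den
  have hN : (0 : ℝ) < N := Nat.cast_pos.2 (Finset.prod_pos fun i _ => Finset.prod_pos fun j _ =>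
    (q _ _).den_pos)
  have h5 : ∀ v w : Λ, ∃ t : ℤ, N * ψ v w = t := fun v w => by
    have hv : v ∈ Submodule.span ℤ (range β) := β.span_eq ▸ Submodule.mem_top
    have hw : w ∈ Submodule.span ℤ (range β) := β.span_eq ▸ Submodule.mem_top
    induction hv, hw using Submodule.span_induction₂ with
    | mem_mem x y hx hy =>
      obtain ⟨i, rfl⟩ := hx
      obtain ⟨j, rfl⟩ := hy
      obtain ⟨t, ht⟩ : (q (β i) (β j)).den ∣ N :=
        (Finset.dvd_prod_of_mem _ (Finset.mem_univ j)).trans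
          (Finset.dvd_prod_of_mem (fun i => ∏ j, (q (β i) (β j)).den) (Finset.mem_univ i))
      refine ⟨t * (q (β i) (β j)).num, ?_⟩
      rw [hq, ht]
      have := congrArg (Rat.cast : ℚ → ℝ) (Rat.den_mul_eq_num (q (β i) (β j)))
      push_cast at this ⊢
      rw [← this]
      ring
    | zero_left y _ => exact ⟨0, by simp⟩
    | zero_right y _ => exact ⟨0, by simp⟩
    | add_left x y w _ _ _ h h' =>
      obtain ⟨a, ha⟩ := h
      obtain ⟨b, hb⟩ := h'
      exact ⟨a + b, by simp [mul_add, ha, hb]⟩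
    | add_right x y w _ _ _ h h' =>
      obtain ⟨a, ha⟩ := h
      obtain ⟨b, hb⟩ := h'
      exact ⟨a + b, by simp [mul_add, ha, hb]⟩
    | smul_left k x y _ _ h =>
      obtain ⟨a, ha⟩ := h
      refine ⟨k * a, ?_⟩
      rw [Submodule.coe_smul, map_zsmul, LinearMap.smul_apply, zsmul_eq_mul, mul_left_comm, ha,
        Int.cast_mul]
    | smul_right k x y _ _ h =>
      obtain ⟨a, ha⟩ := h
      refine ⟨k * a, ?_⟩
      rw [Submodule.coe_smul, map_zsmul, zsmul_eq_mul, mul_left_comm, ha, Int.cast_mul]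
  refine ⟨(N : ℝ) • ψ, fun v => ?_, fun v hv w hw => h5 ⟨v, hv⟩ ⟨w, hw⟩, fun v w => ?_,
    fun v hv => mul_pos hN ?_⟩
  · simp [hψ, mul_comm]
  · change N * ψ _ _ = N * ψ _ _
    rw [hψ, hψ]
    exact congrArg _ (Finset.sum_congr rfl fun i _ => by simp)
  · obtain ⟨i, hi⟩ := Function.ne_iff.1 hv
    have key : ∀ i, ((Complex.I • v) i * star (v i)).im = Complex.normSq (v i) := fun i => by
      simp [Complex.normSq_apply, add_comm]
    change 0 < ψ _ _
    rw [hψ]
    refine Finset.sum_pos' (fun j _ => ?_) ⟨i, Finset.mem_univ i, ?_⟩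
    · rw [key]
      exact mul_nonneg (div_nonneg (h3 j).le (Complex.normSq_nonneg _)) (Complex.normSq_nonneg _)
    · rw [key]
      exact mul_pos (div_pos (h3 i) (Complex.normSq_pos.2 (h0 i))) (Complex.normSq_pos.2 hi)

end Pool.Agent.Tav.Tw
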