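import Pool.Agent.P.MP_2ce3e7_ag.Tav.GrUniB

/-! Normalisation of the factor in the doubling formula. -/

set_option autoImplicit false

open MvPolynomial Filter Topology Asymptotics Metric

noncomputable section

namespace Pool.Agent.Tav.Uni

variable {ι : Type} [Fintype ι]

theorem exists_log {γ : (ι → ℂ) → ℂ} (hγ : Differentiable ℂ γ) (h0 : ∀ v, γ v ≠ 0) :
    ∃ g : (ι → ℂ) → ℂ, Differentiable ℂ g ∧ ∀ v, Complex.exp (g v) = γ v := by
  obtain ⟨g, ⟨-, hg⟩, -⟩ := Complex.isCoveringMap_exp.existsUnique_continuousMap_lifts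
    ⟨fun v => ⟨γ v, h0 v⟩, hγ.continuous.subtype_mk _⟩ 0 (Complex.log (γ 0))
    (Subtype.ext (Complex.exp_log (h0 0)))
  have e : ∀ v, Complex.exp (g v) = γ v := fun v => congrArg Subtype.val (congrFun hg v)
  refine ⟨g, fun x => ?_, e⟩
  have h1 : DifferentiableAt ℂ (fun v => g x + Complex.log (γ v * (γ x)⁻¹)) x :=
    (((hγ x).mul_const _).clog (by simp [h0 x])).const_add _
  refine h1.congr_of_eventuallyEq ?_
  have h2 : ∀ᶠ v in 𝓝 x, ‖g v - g x‖ < Real.pi :=
    (g.continuous.sub continuous_const).norm.continuousAt.eventually_lt continuousAt_const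
      (by simpa using Real.pi_pos)
  filter_upwards [h2] with v hv
  have h3 := abs_lt.1 ((Complex.abs_im_le_norm _).trans_lt hv)
  rw [← e, ← e, ← div_eq_mul_inv, ← Complex.exp_sub, Complex.log_exp h3.1 h3.2.le]
  ring

theorem exists_poly_sol (p : MvPolynomial ι ℂ) : ∃ a e : MvPolynomial ι ℂ,
    (∀ v, eval v e = 4 * eval ((2⁻¹ : ℂ) • v) e) ∧ ∀ v, eval v a =
      4 * eval ((2⁻¹ : ℂ) • v) a + eval ((2⁻¹ : ℂ) • v) p + eval ((2⁻¹ : ℂ) • v) e := by
  induction p using MvPolynomial.induction_on' with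
  | monomial d c =>
    have h : ∀ v : ι → ℂ, eval v (monomial d c) =
        2 ^ d.degree * eval ((2⁻¹ : ℂ) • v) (monomial d c) := fun v => by
      rw [← eval_smul_hom (isHomogeneous_monomial c rfl), smul_inv_smul₀ two_ne_zero]
    by_cases e : d.degree = 2
    · refine ⟨0, -monomial d c, fun v => ?_, fun v => by simp only [map_zero, map_neg]; ring⟩
      rw [map_neg, map_neg, h, e]
      ring
    · have h1 : (2 ^ d.degree - 4 : ℂ) ≠ 0 := sub_ne_zero.2 fun h1 =>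
        e (Nat.pow_right_injective le_rfl (by exact_mod_cast h1))
      refine ⟨C (2 ^ d.degree - 4)⁻¹ * monomial d c, 0, by simp, fun v => ?_⟩
      simp only [map_mul, eval_C, map_zero]
      rw [h]
      field_simp
      ring
  | add p q hp hq =>
    obtain ⟨a, e, h1, h2⟩ := hp
    obtain ⟨a', e', h3, h4⟩ := hq
    refine ⟨a + a', e + e', fun v => ?_, fun v => ?_⟩ <;> simp only [map_add]
    · linear_combination h1 v + h3 v
    · linear_combination h2 v + h4 v

theorem exists_add_sol {r : (ι → ℂ) → ℂ} (hr : Differentiable ℂ r) (h4 : Sm 4 r) :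
    ∃ h : (ι → ℂ) → ℂ, Differentiable ℂ h ∧
      ∀ v, h v = 4 * h ((2⁻¹ : ℂ) • v) + r ((2⁻¹ : ℂ) • v) := by
  have hc : ContDiff ℝ 1 r := ((Pool.Agent.Cmh.Osg.an_of_diffOn isOpen_univ
    hr.differentiableOn).contDiff (n := 1)).restrict_scalars ℝ
  obtain ⟨K, hK⟩ := hc.contDiffOn.exists_lipschitzOnWith one_ne_zero
    (convex_closedBall (0 : ι → ℂ) 1) (isCompact_closedBall _ _)
  have K0 : (0 : ℝ) < K + 1 := by positivity
  have K1 : ((K + 1 : ℝ) : ℂ) ≠ 0 := Complex.ofReal_ne_zero.2 K0.ne'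
  obtain ⟨F, hF, h1, h2⟩ := poincare_aux (W := ℂ × (ι → ℂ))
    (D := fun x => (4 * x.1 + ((K + 1 : ℝ) : ℂ)⁻¹ * r x.2, (2 : ℂ) • x.2)) (q := fun v => (0, v))
    (by fun_prop) (by fun_prop) (L := 8) (by norm_num) (n := 4)
    (by norm_num) (by norm_num) (fun x hx y hy => by
      have a1 := norm_fst_le (x - y)
      have a2 := norm_snd_le (x - y)
      have a3 := hK.norm_sub_le (x := x.2) (y := y.2)
        (mem_closedBall_zero_iff.2 ((norm_snd_le x).trans (mem_closedBall_zero_iff.1 hx)))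
        (mem_closedBall_zero_iff.2 ((norm_snd_le y).trans (mem_closedBall_zero_iff.1 hy)))
      have a0 := norm_nonneg (x - y)
      rw [Prod.fst_sub] at a1
      rw [Prod.snd_sub] at a2
      have a4 : ‖((K + 1 : ℝ) : ℂ)⁻¹ * (r x.2 - r y.2)‖ ≤ ‖x - y‖ := by
        rw [norm_mul, norm_inv, Complex.norm_real, Real.norm_of_nonneg K0.le,
          inv_mul_le_iff₀ K0]
        nlinarith [mul_le_mul_of_nonneg_left a2 K.2]
      refine norm_prod_le_iff.2 ⟨?_, ?_⟩
      · have a5 : ‖4 * (x.1 - y.1)‖ = 4 * ‖x.1 - y.1‖ := by simp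
        calc _ = ‖4 * (x.1 - y.1) + ((K + 1 : ℝ) : ℂ)⁻¹ * (r x.2 - r y.2)‖ := by
              congr 1; simp only [Prod.fst_sub]; ring
          _ ≤ _ := (norm_add_le _ _).trans (by linarith)
      · rw [Prod.snd_sub, ← smul_sub, norm_smul, Complex.norm_two]
        linarith)
    (by
      refine (IsBigO.prod_left (h4.half.const_mul_left ((K + 1 : ℝ) : ℂ)⁻¹)
        (isBigO_zero (E' := ι → ℂ) _ _)).congr_left fun v => ?_
      simp [smul_smul])
  have h3 : ∀ v, (F v).2 = v := fun v => by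
    obtain ⟨C, ρ, hC, hρ, hb⟩ := h2.ball
    have e : ∀ v, (F v).2 - v = (2 : ℂ) • ((F ((2⁻¹ : ℂ) • v)).2 - (2⁻¹ : ℂ) • v) := fun v => by
      rw [smul_sub, smul_inv_smul₀ two_ne_zero, h1 v]
    have h5 : ∀ v, ‖v‖ < ρ → (F v).2 - v = 0 := fun v hv => norm_le_zero_iff.1 (by
      simpa using gron (δ := fun v => ‖(F v).2 - v‖) (L := 2) (C := 0) (n0 := 4) (n := 4)
        (by norm_num) (by norm_num) le_rfl le_rfl hC.le
        (fun v hv => (norm_snd_le (F v - (0, v))).trans (hb v hv))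
        (fun v _ => by rw [e v, norm_smul, Complex.norm_two]; simp) v hv)
    have h6 : ∀ (k : ℕ) (v : ι → ℂ), ‖v‖ < 2 ^ k * ρ → (F v).2 - v = 0 := fun k => by
      induction k with
      | zero => simpa using h5
      | succ k ih =>
        intro v hv
        rw [e, ih _ (by rw [norm_half]; linarith [pow_succ (2 : ℝ) k ▸ hv]), smul_zero]
    obtain ⟨k, hk⟩ := pow_unbounded_of_one_lt (‖v‖ / ρ) (one_lt_two (α := ℝ))
    exact sub_eq_zero.1 (h6 k v ((div_lt_iff₀ hρ).1 hk))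
  refine ⟨fun v => (K + 1 : ℝ) * (F v).1, hF.fst.const_mul _, fun v => ?_⟩
  have := congrArg Prod.fst (h1 v)
  simp only [h3] at this
  simp only [this]
  field_simp

theorem exists_norm {γ : (ι → ℂ) → ℂ} (hγ : Differentiable ℂ γ) (h0 : ∀ v, γ v ≠ 0) :
    ∃ η E : (ι → ℂ) → ℂ, Differentiable ℂ η ∧ Differentiable ℂ E ∧ (∀ v, η v ≠ 0) ∧
      (∀ v, E v ≠ 0) ∧ (∀ v, E v = E ((2⁻¹ : ℂ) • v) ^ 4) ∧
      ∀ v, η v = η ((2⁻¹ : ℂ) • v) ^ 4 * γ ((2⁻¹ : ℂ) • v) * E ((2⁻¹ : ℂ) • v) := by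
  obtain ⟨g, hg, e⟩ := exists_log hγ h0
  obtain ⟨p, hp⟩ := exists_jet hg 4
  obtain ⟨a, b, h1, h2⟩ := exists_poly_sol p
  obtain ⟨h, hh, h3⟩ := exists_add_sol (hg.sub (diff_eval p)) hp
  refine ⟨fun v => Complex.exp (eval v a + h v), fun v => Complex.exp (eval v b),
    ((diff_eval a).add hh).cexp, (diff_eval b).cexp, fun _ => Complex.exp_ne_zero _,
    fun _ => Complex.exp_ne_zero _, fun v => ?_, fun v => ?_⟩
  · rw [← Complex.exp_nat_mul]
    exact congrArg Complex.exp (h1 v)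
  · rw [← Complex.exp_nat_mul, ← e, ← Complex.exp_add, ← Complex.exp_add]
    refine congrArg Complex.exp ?_
    rw [h2 v, h3 v, Pi.sub_apply]
    push_cast
    ring

end Pool.Agent.Tav.Uni
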