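import Pool.Agent.P.MP_2ce3e7_ag.Tav.GrUniE
import Pool.Agent.P.MP_2ce3e7_ag.Tav.GrUniN

/-! The conjugate of a uniformised abelian variety is uniformised. -/

set_option autoImplicit false

open MvPolynomial Filter Topology Asymptotics Metric

noncomputable section

namespace Pool.Agent.Tav.Uni

variable {ι σ : Type} [Fintype ι] [Fintype σ]
  {s : ℂ ≃+* ℂ} {Λ Λ' : Submodule ℤ (ι → ℂ)} {φ ψ : (ι → ℂ) → σ → ℂ} {η : (ι → ℂ) → ℂ}
  {I : Set (MvPolynomial σ ℂ)} {F : σ → σ → MvPolynomial (σ ⊕ σ) ℂ}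

theorem Src.scale (h : Src Λ φ I F) (dη : Differentiable ℂ η) (nη : ∀ v, η v ≠ 0)
    (η0 : η 0 = 1) : Src Λ (fun v => η v • φ v) I F := by
  have der : ∀ v w, fderiv ℂ (fun v => η v • φ v) v w =
      η v • fderiv ℂ φ v w + fderiv ℂ η v w • φ v := fun v w => by
    rw [fderiv_fun_smul (dη v) (h.dif v)]
    simp
  refine ⟨dη.fun_smul h.dif, fun v => smul_ne_zero (nη v) (h.ne v), fun v w => ?_,
    fun v w c e => ?_, fun P hP c v => ?_, fun z hz hI => ?_, fun v w => ?_, h.hom, fun z hz => ?_⟩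
  · rw [← h.ker]
    refine ⟨fun ⟨c, e⟩ => ⟨(η v)⁻¹ * (c * η w), ?_⟩, fun ⟨c, e⟩ => ⟨η v * c * (η w)⁻¹, ?_⟩⟩
    · rw [mul_smul, mul_smul, ← e, inv_smul_smul₀ (nη v)]
    · rw [mul_smul, inv_smul_smul₀ (nη w), e, mul_smul]
  · refine h.imm v w ((η v)⁻¹ * (c * η v - fderiv ℂ η v w)) ?_
    rw [der] at e
    rw [mul_smul, sub_smul, mul_smul, ← e, add_sub_cancel_right, inv_smul_smul₀ (nη v)]
  · rw [smul_smul]
    exact h.van P hP _ v
  · obtain ⟨c, v, e⟩ := h.cl z hz hI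
    exact ⟨c * (η v)⁻¹, v, by rw [mul_smul, inv_smul_smul₀ (nη v), e]⟩
  · obtain ⟨c, hc, e⟩ := h.law v w
    refine ⟨η v ^ 2 * η w ^ 2 * c / (η (v + w) * η (v - w)), by simp [nη, hc], fun i j => ?_⟩
    have := nη (v + w)
    have := nη (v - w)
    rw [h.hom, e, Pi.smul_apply, Pi.smul_apply, smul_eq_mul, smul_eq_mul]
    field_simp
  · simp only [η0, one_smul] at hz
    obtain ⟨c, w, e⟩ := h.tan z hz
    refine ⟨c - fderiv ℂ η 0 w, w, ?_⟩
    rw [der, η0, one_smul, one_smul, sub_smul, e]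
    abel

omit [Fintype ι] [Fintype σ] in
theorem rl_scale (nη : ∀ v, η v ≠ 0) : Rl s (fun v => η v • φ v) ψ = Rl s φ ψ := by
  funext w v
  refine propext ⟨fun ⟨c, e⟩ => ⟨c * s (η v), e.trans (funext fun l => ?_)⟩,
    fun ⟨c, e⟩ => ⟨c * (s (η v))⁻¹, e.trans (funext fun l => ?_)⟩⟩
  · simp [mul_assoc]
  · simp [mul_assoc, nη v]

omit [Fintype ι] in
theorem Out.scale (h : Out s Λ (fun v => η v • φ v) I F Λ' ψ) (nη : ∀ v, η v ≠ 0)
    (η0 : η 0 = 1) : Out s Λ φ I F Λ' ψ := by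
  obtain ⟨h1, h2, h3, h4, h5, h6, h7, h8, h9, h10, h11⟩ := h
  rw [rl_scale nη] at h4 h5 h6 h7 h8 h9 h10 h11
  refine ⟨h1, h2, h3, h4, h5, h6, h7, h8, h9, h10, fun a G d hom mor n0 hΛ =>
    h11 a G d hom (fun t => ?_) (by simpa only [η0, one_smul] using n0) hΛ⟩
  obtain ⟨c, hc⟩ := mor t
  refine ⟨η t ^ d * c * (η (a * t))⁻¹, funext fun l => ?_⟩
  rw [hom, congrFun hc l, mul_smul, inv_smul_smul₀ (nη _)]
  simp [mul_assoc]

theorem Src.factor (h : Src Λ φ I F) {j : σ} (hj : φ 0 j ≠ 0) :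
    ∃ γ : (ι → ℂ) → ℂ, Differentiable ℂ γ ∧ (∀ v, γ v ≠ 0) ∧
      ∀ v i, eval (Sum.elim (φ v) (φ v)) (F i j) = γ v * φ (v + v) i := by
  choose c hc e using fun v => h.law v v
  have e' : ∀ v i, eval (Sum.elim (φ v) (φ v)) (F i j) = c v * φ 0 j * φ (v + v) i := fun v i => by
    rw [e, sub_self]
    ring
  refine ⟨fun v => c v * φ 0 j, fun v => ?_, fun v => mul_ne_zero (hc v) hj, e'⟩
  obtain ⟨i, hi⟩ := Function.ne_iff.1 (h.ne (v + v))
  have d1 : Differentiable ℂ fun u => φ (u + u) i :=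
    differentiable_pi.1 (h.dif.comp (differentiable_id.add differentiable_id)) i
  have d2 : Differentiable ℂ fun u => eval (Sum.elim (φ u) (φ u)) (F i j) :=
    diff_ev (differentiable_pi.2 fun k => by
      cases k <;> exact differentiable_pi.1 h.dif _) _
  have hi' : φ (v + v) i ≠ 0 := hi
  refine ((d2 v).fun_mul ((d1 v).fun_inv hi')).congr_of_eventuallyEq ?_
  filter_upwards [d1.continuous.continuousAt.eventually_ne hi'] with u hu
  rw [e', mul_inv_cancel_right₀ hu]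

omit [Fintype ι] in
theorem dbl {p : (ι → ℂ) → Prop} (h0 : ∀ᶠ v in 𝓝 0, p v) (h : ∀ v, p ((2⁻¹ : ℂ) • v) → p v)
    (v : ι → ℂ) : p v := by
  have t : Tendsto (fun n : ℕ => (2⁻¹ : ℂ) ^ n • v) atTop (𝓝 0) := by
    simpa using (tendsto_pow_atTop_nhds_zero_of_norm_lt_one (x := (2⁻¹ : ℂ))
      (by norm_num)).smul_const v
  obtain ⟨n, hn⟩ := (t.eventually h0).exists
  induction n with
  | zero => simpa using hn
  | succ n ih => exact ih (h _ (by rwa [smul_smul, ← pow_succ']))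

theorem Src.cx (s : ℂ ≃+* ℂ) (h : Src Λ φ I F) {j : σ} (hj : φ 0 j ≠ 0) {E : (ι → ℂ) → ℂ}
    {k : ℂ} (hk : k ≠ 0) (dE : Differentiable ℂ E) (nE : E 0 ≠ 0)
    (hE : ∀ v, E v = E ((2⁻¹ : ℂ) • v) ^ 4)
    (hφ : ∀ v i, φ v i = k * E ((2⁻¹ : ℂ) • v) *
      eval (Sum.elim (φ ((2⁻¹ : ℂ) • v)) (φ ((2⁻¹ : ℂ) • v))) (F i j)) :
    ∃ ψ, Cx s Λ φ I F ψ := by
  have re : ∀ (x : Option σ → ℂ) (P : MvPolynomial (σ ⊕ σ) ℂ),
      eval x (rename (Sum.elim some some) P) =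
        eval (Sum.elim (fun i => x (some i)) fun i => x (some i)) P := fun x P => by
    rw [eval_rename]
    congr 2
    ext (l | l) <;> rfl
  obtain ⟨Ψ, dΨ, eΨ, tw⟩ := poincare (s : ℂ →+* ℂ) (φ := fun v o => Option.elim o (E v) (φ v))
    (differentiable_pi.2 fun o => by
      cases o with
      | none => exact dE
      | some i => exact differentiable_pi.1 h.dif i)
    (fun o => Option.elim o (X none ^ 4) fun i =>
      C k * X none * rename (Sum.elim some some) (F i j))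
    (fun v o => by
      cases o with
      | none => simpa using hE v
      | some i => simpa [re] using hφ v i)
  have dψ : Differentiable ℂ fun v i => Ψ v (some i) :=
    differentiable_pi.2 fun i => differentiable_pi.1 dΨ _
  have tw' : ∀ l, Tw (s : ℂ →+* ℂ) (fun u => φ u l) fun u => Ψ u (some l) := fun l => tw (some l)
  refine ⟨fun v i => Ψ v (some i), h, dψ, fun v => ?_, tw'⟩
  refine (dbl (p := fun v => Ψ v none ≠ 0 ∧ (fun i => Ψ v (some i)) ≠ 0) ?_ (fun v hv => ?_) v).2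
  · refine ((differentiable_pi.1 dΨ none).continuous.continuousAt.eventually_ne ?_).and
      (dψ.continuous.continuousAt.eventually_ne fun e => hj ?_)
    · rw [(tw none).zero]
      simpa using nE
    · have := congrFun e j
      rw [(tw' j).zero] at this
      simpa using this
  · refine ⟨by simpa [eΨ v none] using hv.1, fun e => ?_⟩
    obtain ⟨a, w, ha, e1⟩ := h.tot' dψ tw' hv.2
    obtain ⟨c, hc, e2⟩ := h.conj (s := s) ha ha w w
    obtain ⟨i, hi⟩ := Function.ne_iff.1 (h.ne (w + w))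
    have e3 := eΨ v (some i)
    simp only [Option.elim_some, map_mul, map_C, map_X, map_rename, eval_C, eval_X, re] at e3
    rw [e1, e2, congrFun e i, sub_self] at e3
    simp only [Pi.zero_apply, zero_eq_mul, mul_eq_zero, map_eq_zero, hk, hc, hj, hv.1, or_false,
      false_or] at e3
    exact hi e3

/-- the conjugate of a uniformised abelian variety is uniformised, compatibly with the group law
and with the diagonal endomorphisms -/
theorem uni (s : ℂ ≃+* ℂ) {Λ : Submodule ℤ (ι → ℂ)} {φ : (ι → ℂ) → σ → ℂ}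
    {I : Set (MvPolynomial σ ℂ)} {F : σ → σ → MvPolynomial (σ ⊕ σ) ℂ} (h : Src Λ φ I F) :
    ∃ Λ' ψ, Out s Λ φ I F Λ' ψ := by
  obtain ⟨j, hj⟩ := Function.ne_iff.1 (h.ne 0)
  have hj' : φ 0 j ≠ 0 := hj
  obtain ⟨γ, dγ, nγ, eγ⟩ := h.factor hj'
  obtain ⟨η, E, dη, dE, nη, nE, hE, hη⟩ := exists_norm dγ nγ
  have n1 : ∀ v, η v / η 0 ≠ 0 := fun v => div_ne_zero (nη v) (nη 0)
  have n2 : η 0 / η 0 = 1 := div_self (nη 0)
  have h' := h.scale (η := fun v => η v / η 0) (by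
    simpa only [div_eq_mul_inv] using dη.mul_const (η 0)⁻¹) n1 n2
  obtain ⟨ψ, c⟩ := h'.cx s (j := j) (by simpa [n2] using hj') (pow_ne_zero 3 (nη 0)) dE (nE 0) hE
    fun v i => by
      have e : (2⁻¹ : ℂ) • v + (2⁻¹ : ℂ) • v = v := by
        rw [← add_smul]
        norm_num
      have := nη 0
      rw [h.hom, eγ, e, Pi.smul_apply, smul_eq_mul, hη v]
      field_simp
  exact ⟨_, ψ, c.out.scale n1 n2⟩

end Pool.Agent.Tav.Uni
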