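import Pool.Agent.P.MP_2ce3e7_ag.Tav.GrTwC
import Pool.Agent.P.MP_2ce3e7_ag.Tav.GrTwR
import Pool.Agent.P.MP_2ce3e7_ag.Tav.GrUni
import Pool.Agent.P.MP_2ce3e7_ag.Tav.GrPlace

/-! The conjugates of a model under the decomposition group. -/

set_option autoImplicit false

noncomputable section

namespace Pool.Agent.Tav.Tw

open MvPolynomial Set Function Module Tr

variable {Ω : Type} [Field Ω] {R : ValuationSubring ℂ} {r : R →+* Ω} {σ : Type} [Fintype σ]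
  {g : ℕ}

/-- the bound on the Zariski tangent space at the origin -/
def SmAt {K G : Type} [Field K] [AddCommGroup G] (p : G → σ → K) (g : ℕ) : Prop :=
  finrank K (⨅ f ∈ idl p, LinearMap.ker
    (∑ l, eval (p 0) (pderiv l f) • LinearMap.proj (R := K) (φ := fun _ => K) l) :) ≤ g + 1

omit [Fintype σ] in
theorem par_of_coe {x y : σ → R} (hx : ∃ l, IsUnit (x l)) (hy : ∃ l, IsUnit (y l))
    (h : Par (fun l => (x l : ℂ)) fun l => (y l : ℂ)) : Par x y := by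
  obtain ⟨c, -, hc⟩ := h
  obtain ⟨l, u, hu⟩ := hy
  obtain ⟨l', hl'⟩ := hx
  have h1 : ((x l * ↑u⁻¹ : R) : ℂ) = c := by
    have e : (x l : ℂ) = c * (y l : ℂ) := congrFun hc l
    rw [MulMemClass.coe_mul, e, ← hu, mul_assoc, ← MulMemClass.coe_mul, u.mul_inv]
    simp
  have h2 : x = (x l * ↑u⁻¹ : R) • y := funext fun m => Subtype.ext (by
    rw [Pi.smul_apply, smul_eq_mul, MulMemClass.coe_mul, h1]
    exact congrFun hc m)
  refine ⟨_, ?_, h2⟩
  rw [congrFun h2 l'] at hl'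
  exact isUnit_of_mul_isUnit_left hl'

variable (Y : Model r σ g) {φ : (Fin g → ℂ) → σ → ℂ}

theorem av_hol (h : ∀ v, Par (φ v) fun l => Y.x v l) : AV φ g :=
  av_tw (t := RingEquiv.refl ℂ) (E := id) Y.gen h (fun v => ⟨v, Par.refl _⟩) fun _ _ => Par.refl _

theorem exists_law (h : ∀ v, Par (φ v) fun l => Y.x v l) :
    ∃ F : σ → σ → MvPolynomial (σ ⊕ σ) ℂ, (∀ v w, ∃ c : ℂ, c ≠ 0 ∧ ∀ i j,
      eval (Sum.elim (φ v) (φ w)) (F i j) = c * (φ (v + w) i * φ (v - w) j)) ∧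
      ∀ (a b : ℂ) x y i j, eval (Sum.elim (a • x) (b • y)) (F i j) =
        a ^ 2 * b ^ 2 * eval (Sum.elim x y) (F i j) := by
  obtain ⟨c, hc, hl⟩ := Y.law
  obtain ⟨μ, h1, h2⟩ := Sub.crd (r := R.subtype) (red := id)
    (x := fun u : (Fin g → ℂ) × (Fin g → ℂ) => Y.x u.1) (p := fun u => φ u.1) fun u => h u.1
  obtain ⟨ν, h3, h4⟩ := Sub.crd (r := R.subtype) (red := id)
    (x := fun u : (Fin g → ℂ) × (Fin g → ℂ) => Y.x u.2) (p := fun u => φ u.2) fun u => h u.2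
  choose u h5 h6 using fun i j => ((h2.pow 2).mul (h4.pow 2)) _ (hl i j)
  choose F h7 h8 using fun i j => exists_form (Sum.elim (fun _ : σ => (0 : Fin 2)) fun _ : σ => 1)
    (fun s : (Fin g → ℂ) × (Fin g → ℂ) => Sum.elim (φ s.1) (φ s.2))
    (L := ![crd fun s => φ s.1, crd fun s => φ s.2]) (Fin.forall_fin_two.2
      ⟨Submodule.span_mono (by rintro _ ⟨l, rfl⟩; exact ⟨.inl l, rfl, rfl⟩),
      Submodule.span_mono (by rintro _ ⟨l, rfl⟩; exact ⟨.inr l, rfl, rfl⟩)⟩)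
    (e := ![2, 2]) (by rw [prod_two]; exact h5 i j)
  refine ⟨F, fun v w => ?_, fun a b x y i j => ?_⟩
  · obtain ⟨a, ha, e1⟩ := Par.symm (h (v + w))
    obtain ⟨b, hb, e2⟩ := Par.symm (h (v - w))
    refine ⟨μ (v, w) ^ 2 * ν (v, w) ^ 2 * (c (v, w) : ℂ) * a * b,
      ((((((h1 _).pow 2).mul ((h3 _).pow 2)).mul ((hc _).map R.subtype)).mul ha).mul hb).ne_zero,
      fun i j => ?_⟩
    refine (h8 i j (v, w)).trans ((h6 i j (v, w)).trans ?_)
    have e3 : (Y.x (v + w) i : ℂ) = a * φ (v + w) i := congrFun e1 i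
    have e4 : (Y.x (v - w) j : ℂ) = b * φ (v - w) j := congrFun e2 j
    change μ (v, w) ^ 2 * ν (v, w) ^ 2 *
      ((c (v, w) : ℂ) * ((Y.x (v + w) i : ℂ) * (Y.x (v - w) j : ℂ))) = _
    rw [e3, e4]
    ring
  · have := eval_scale (h7 i j) ![a, b] (Sum.elim x y)
    rw [Fin.prod_univ_two] at this
    refine Eq.trans (congrArg (eval · (F i j)) (funext ?_)) this
    rintro (l | l) <;> rfl

theorem exists_cj (hr : Surjective r)
    (sm : ∀ φ : (Fin g → ℂ) → σ → ℂ, AV φ g → SmAt φ g) (t : ℂ ≃+* ℂ) :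
    ∃ Λ φ E, Cj Y t Λ φ E := by
  obtain ⟨φ, dif, h, imm⟩ := Y.hol
  have av := av_hol Y h
  obtain ⟨F, law, hom⟩ := exists_law Y h
  have van : ∀ P ∈ (idl φ : Set (MvPolynomial σ ℂ)), ∀ (c : ℂ) v, eval (c • φ v) P = 0 :=
    fun P hP => mem_idl.1 hP
  have src : Uni.Src Y.Λ φ (idl φ) F :=
    { dif := dif
      ne := av.ne
      ker := fun v w => by
        rw [← Y.ker]
        refine ⟨fun ⟨c, hc⟩ => par_of_coe (prim Y hr v) (prim Y hr w) (Par.trans (Par.symm (h v))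
          (Par.trans ⟨c, IsUnit.mk0 c fun e => av.ne v (by rw [hc, e, zero_smul]), hc⟩ (h w))),
          fun e => ?_⟩
        obtain ⟨c, -, hc⟩ := Par.trans (h v) (Par.trans (Par.map e R.subtype) (Par.symm (h w)))
        exact ⟨c, hc⟩
      imm := imm
      van := van
      cl := fun z h0 hz => by
        obtain ⟨v, c, -, hc⟩ := av.cl z (fun f hf => by rw [aeval_eq_eval]; exact hz f hf) h0
        exact ⟨c, v, hc⟩
      law := law
      hom := hom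
      tan := Uni.tan_of_finrank dif (av.ne 0) (imm 0) van
        (by rw [Fintype.card_fin]; exact sm φ av) }
  obtain ⟨Λ, ψ, o⟩ := Uni.uni t src
  choose E hE using o.tot
  refine ⟨Λ, ψ, E, o.disc, o.span, o.src.dif, o.src.imm, fun w => ?_, fun v w => ?_,
    fun v => (o.onto v).imp fun w hw => (o.right (hE w) v).1 hw,
    fun w w' => (o.right (hE _) _).1 (o.sub (hE w) (hE w')), fun a ha => ?_⟩
  · obtain ⟨c, hc⟩ := hE w
    exact Par.trans ⟨c, IsUnit.mk0 c fun e => o.src.ne w (by rw [hc, e, zero_smul]), hc⟩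
      (Par.map (h (E w)) (t : ℂ →+* ℂ))
  · rw [← o.left (hE v) w, o.right (hE w), ← neg_mem_iff, neg_sub]
  · have hm : Mor φ φ (a * ·) := mor_tw R.subtype id h (Y.reg a ha) fun _ => Par.refl _
    obtain ⟨e, c, G, hc, hG, hv⟩ := exists_chart (fun _ : σ => (0 : Fin 1)) φ (L := ![crd φ])
      (fun i => by
        rw [Subsingleton.elim i 0]
        exact Submodule.span_mono (by rintro _ ⟨l, rfl⟩; exact ⟨l, rfl, rfl⟩)) hm 0
    obtain ⟨h1, h2⟩ := o.en a G (e 0) (fun c x l => by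
        have := eval_scale (hG l) (fun _ => c) x
        rw [Fin.prod_univ_one] at this
        exact this) (fun s => ⟨c s, funext fun l => hv s l⟩) (by
        obtain ⟨l, hl⟩ := Function.ne_iff.1 (av.ne (a * 0))
        exact ⟨l, by rw [hv]; exact mul_ne_zero hc.ne_zero hl⟩) ha
    exact ⟨h1, fun w => (o.right (hE _) _).1 (h2 _ _ (hE w))⟩

/-- the field `twist` -/
theorem twist {k : Type} [Field k] [Finite k] {r : R →+* AlgebraicClosure k} (hr : Surjective r)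
    (hR : Pl.Ext R) (Y : Model r σ g) (sm : ∀ φ : (Fin g → ℂ) → σ → ℂ, AV φ g → SmAt φ g)
    (L : IntermediateField ℚ ℂ) [FiniteDimensional ℚ L] [IsGalois ℚ L] (c : Gal(L/ℚ))
    (hc : ∀ z, (c z : ℂ) = star (z : ℂ)) (hz : ∀ s, s * c = c * s)
    (hL : ∀ a ∈ En Y.Λ, ∀ i, a i ∈ L) (s : Gal(L/ℚ))
    (hs : ∀ z : L, (s z : ℂ) ∈ R ↔ (z : ℂ) ∈ R) :
    ∃ (Y' : Model r σ g) (ψ : Y'.B →+ Y.B), Surjective ψ ∧ Mor Y'.p Y.p ψ ∧ ∀ a h,
      (fun i => (s ⟨a i, hL a h i⟩ : ℂ)) ∈ En Y'.Λ ∧ ∀ w v, ψ (Y'.red w) = Y.red v →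
        ψ (Y'.red ((fun i => (s ⟨a i, hL a h i⟩ : ℂ)) * w)) = Y.red (a * v) := by
  obtain ⟨t, ht, tb, h1, h2⟩ := hR.gal r hr L s hs
  obtain ⟨Λ, φ, E, h⟩ := exists_cj Y hr sm t
  obtain ⟨θ, hθ, hi⟩ := Y.cm
  have hst : ∀ i, star (t (θ i)) = t (star (θ i)) := fun i => by
    have e1 := h1 ⟨θ i, hL θ hθ i⟩
    have e2 := h1 (c ⟨θ i, hL θ hθ i⟩)
    rw [hc] at e2
    rw [e1, e2, ← hc, ← AlgEquiv.mul_apply, ← AlgEquiv.mul_apply, hz]
  have hi' : Injective (Sum.elim (fun i => t (θ i)) (star fun i => t (θ i))) := by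
    have : Sum.elim (fun i => t (θ i)) (star fun i => t (θ i)) = t ∘ Sum.elim θ (star θ) := by
      funext i
      rcases i with i | i
      · rfl
      · exact hst i
    rw [this]
    exact t.injective.comp hi
  have := h.disc
  have : IsZLattice ℝ Λ := ⟨h.span⟩
  obtain ⟨ψ, h3, h4, h5⟩ := exists_isog Y tb
  refine ⟨h.model ht tb h2 (riem_cm ⟨_, (h.en θ hθ).1, hi'⟩ L c hc hz fun a' ha' i => ?_)
    ⟨_, (h.en θ hθ).1, hi'⟩ h.en_onto, ψ, h3.2, h4, fun a ha => ?_⟩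
  · obtain ⟨a, ha, rfl⟩ := h.en_onto a' ha'
    change t (a i) ∈ L
    rw [h1 ⟨a i, hL a ha i⟩]
    exact Subtype.property _
  · have e : (fun i => (s ⟨a i, hL a ha i⟩ : ℂ)) = fun i => t (a i) :=
      funext fun i => (h1 ⟨a i, hL a ha i⟩).symm
    rw [e]
    refine ⟨(h.en a ha).1, fun w v hv => ?_⟩
    exact (congrArg ψ (red_eq Y ((h.en a ha).2 w))).trans (h5 a ha _ v hv)

end Pool.Agent.Tav.Tw
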