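import Pool.Agent.P.MP_2ce3e7_ag.Tav.GrTypC
import Pool.Agent.P.MP_2ce3e7_ag.Tav.GrTwD
import Pool.Agent.P.MP_2ce3e7_ag.Tav.GrHead

/-! Universal models exist in odd residue characteristic. -/

set_option autoImplicit false

noncomputable section

namespace Pool.Agent.Tav.Top

open Function Pool.Agent.Cmh

/-- SM: the Zariski tangent space at the origin -/
def S_sm : Prop :=
  ∀ (K G σ : Type) [Field K] [IsAlgClosed K] [AddCommGroup G] [Fintype σ] (p : G → σ → K) (g : ℕ),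
    AV p g → Tw.SmAt p g

/-- PI: a power of Frobenius lifts -/
def S_frob : Prop :=
  ∀ (k : Type) [Field k] [Fintype k] (R : ValuationSubring ℂ) (r : R →+* AlgebraicClosure k),
    Surjective r → ∀ (σ : Type) [Fintype σ] (g : ℕ) (X : Model r σ g), Tw.SmAt X.p g →
    (∃ n : ℕ, (n : AlgebraicClosure k) ≠ 0 ∧
      ∀ a : Fin g → ℂ, IsIntegral ℤ a → ∀ m : ℕ, m ≠ 0 → m • a ∈ En X.Λ → n • a ∈ En X.Λ) →
    ∃ a ∈ En X.Λ, ∃ e ≠ 0, ∀ v, Par (X.p (X.red (a * v))) (X.p (X.red v) ^ Fintype.card k ^ e)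

variable {k : Type} [Field k] [Fintype k] {R : ValuationSubring ℂ}
  {r : R →+* AlgebraicClosure k}

/-- the residue characteristic -/
theorem exists_char (r : R →+* AlgebraicClosure k) :
    ∃ p n : ℕ, p.Prime ∧ n ≠ 0 ∧ Fintype.card k = p ^ n ∧ R.valuation p < 1 := by
  obtain ⟨p, hp⟩ := CharP.exists k
  obtain ⟨n, h1, h2⟩ := FiniteField.card k p
  refine ⟨p, n, h1, n.ne_zero, h2, ?_⟩
  have h3 : r p = 0 := by
    rw [map_natCast, ← map_natCast (algebraMap k (AlgebraicClosure k)), CharP.cast_eq_zero,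
      map_zero]
  have h4 : ¬ IsUnit (p : R) := fun h => (h.map r).ne_zero h3
  have := (R.valuation_lt_one_iff p).1 h4
  simpa using this

theorem exists_char_odd (r : R →+* AlgebraicClosure k) (h : Odd (Fintype.card k)) :
    ∃ p : ℕ, p.Prime ∧ p ≠ 2 ∧ R.valuation p < 1 := by
  obtain ⟨p, n, h1, h2, h3, h4⟩ := exists_char r
  refine ⟨p, h1, fun e => ?_, h4⟩
  rw [h3, e, Nat.odd_pow_iff h2] at h
  exact absurd h (by decide)

/-- every finite list of CM types of `L` has a model -/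
def Mods {Ω : Type} [Field Ω] (r : R →+* Ω) (L : IntermediateField ℚ ℂ) (c : Gal(L/ℚ)) : Prop :=
  ∀ (T : Type) [Finite T] (Ψ : T → Set Gal(L/ℚ)), (∀ t s, c * s ∈ Ψ t ↔ s ∉ Ψ t) →
    ∀ (g : ℕ) (e : Fin g ≃ Σ t, Ψ t), ∃ (σ : Type) (_ : Fintype σ) (X : Model r σ g),
      En X.Λ = Typ.ES (fun i => (e i).1) fun i => (e i).2.1

section
variable (L : IntermediateField ℚ ℂ) [FiniteDimensional ℚ L] [IsGalois ℚ L]
  {c : Gal(L/ℚ)} (hc : ∀ z, (c z : ℂ) = star (z : ℂ)) (hcen : ∀ s, s * c = c * s)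

include hc hcen

/-- the only place where the parity of the residue characteristic enters -/
theorem mods_odd (hz : ∃ z : L, (z : ℂ) ∈ R ∧ (c z : ℂ) ∉ R) (hr : Surjective r)
    (ho : Odd (Fintype.card k)) : Mods r L c := fun T _ Ψ hΨ g e => by
  obtain ⟨p, hp, h2, hv⟩ := exists_char_odd r ho
  obtain ⟨N, X, h, -⟩ := Typ.list_model L hc hcen R hz hp h2 hv hr hΨ e
  exact ⟨_, _, X, h⟩

theorem Mods.list {Ω : Type} [Field Ω] {r : R →+* Ω} (h : Mods r L c) {T : Type} [Finite T]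
    {Ψ : T → Set Gal(L/ℚ)} (hΨ : ∀ t s, c * s ∈ Ψ t ↔ s ∉ Ψ t) {g : ℕ} (e : Fin g ≃ Σ t, Ψ t) :
    ∃ (σ : Type) (_ : Fintype σ) (X : Model r σ g),
      En X.Λ = Typ.ES (fun i => (e i).1) (fun i => (e i).2.1) ∧ Typ.Ring0 L (En X.Λ) := by
  obtain ⟨σ, i, X, hX⟩ := h T Ψ hΨ g e
  exact ⟨σ, i, X, hX, hX ▸ (Typ.idx_equiv hΨ e).ring0 L hc hcen⟩

theorem Mods.univ {Ω : Type} [Field Ω] {r : R →+* Ω} (h : Mods r L c) :
    ∃ (σ : Type) (_ : Fintype σ) (g : ℕ) (Y : Model r σ g), Typ.Ring L c (En Y.Λ) := by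
  let T := {Φ : Set Gal(L/ℚ) // ∀ s, c * s ∈ Φ ↔ s ∉ Φ}
  let e := (Finite.equivFin (Σ t : T, t.1)).symm
  obtain ⟨σ, i, X, hX⟩ := h T (fun t => t.1) (fun t => t.2) _ e
  exact ⟨σ, i, _, X, hX ▸ (Typ.idx_equiv (fun t : T => t.2) e).ring L hc hcen
    fun Φ h => ⟨⟨Φ, h⟩, rfl⟩⟩

end

variable {σ : Type} [Fintype σ] {g : ℕ}

theorem max_of {L : IntermediateField ℚ ℂ} {S : Set (Fin g → ℂ)} (h : Typ.Ring0 L S) (Ω : Type)
    [Field Ω] : ∃ n : ℕ, (n : Ω) ≠ 0 ∧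
      ∀ a, IsIntegral ℤ a → ∀ m : ℕ, m ≠ 0 → m • a ∈ S → n • a ∈ S :=
  ⟨1, by simp, fun a ha m hm h' => by rw [one_smul]; exact h.max a ha m hm h'⟩

/-- a model with the universal ring is universal -/
theorem univ_of (sm : S_sm) (fr : S_frob) (hr : Surjective r) (hR : Pl.Ext R)
    (L : IntermediateField ℚ ℂ) [FiniteDimensional ℚ L] [IsGalois ℚ L] {c : Gal(L/ℚ)}
    (hc : ∀ z, (c z : ℂ) = star (z : ℂ)) (hcen : ∀ s, s * c = c * s) (Y : Model r σ g)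
    (h : Typ.Ring L c (En Y.Λ)) : Y.Univ (Fintype.card k) L c h.hL where
  sm := sm _ _ _ _ _ Y.sp
  max := max_of h.toRing0 _
  frob := fr k R r hr σ g Y (sm _ _ _ _ _ Y.sp) (max_of h.toRing0 _)
  all := h.all h.hL
  twist := Tw.twist hr hR Y (fun φ => sm _ _ _ φ g) L c hc hcen h.hL

theorem exists_univ_of (sm : S_sm) (fr : S_frob) (hr : Surjective r) (hR : Pl.Ext R)
    (L : IntermediateField ℚ ℂ) [FiniteDimensional ℚ L] [IsGalois ℚ L]
    {c : Gal(L/ℚ)} (hc : ∀ z, (c z : ℂ) = star (z : ℂ)) (hcen : ∀ s, s * c = c * s)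
    (hM : Mods r L c) : ∃ (σ' : Type) (_ : Fintype σ') (g' : ℕ) (Y : Model r σ' g') (hL : _),
      Y.Univ (Fintype.card k) L c hL := by
  obtain ⟨σ', i, g, Y, h⟩ := hM.univ L hc hcen
  exact ⟨σ', i, g, Y, h.hL, univ_of sm fr hr hR L hc hcen Y h⟩

/-- `Full` holds when the eigenvalues lie in a Galois CM field as in its definition -/
theorem full_of_L (sm : S_sm) (fr : S_frob) (hr : Surjective r) (hR : Pl.Ext R)
    (L : IntermediateField ℚ ℂ) [FiniteDimensional ℚ L] [IsGalois ℚ L]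
    {c : Gal(L/ℚ)} (hc : ∀ z, (c z : ℂ) = star (z : ℂ)) (hcen : ∀ s, s * c = c * s)
    (hz : ∃ z : L, (z : ℂ) ∈ R ∧ (c z : ℂ) ∉ R) (hM : Mods r L c) (X : Model r σ g)
    (hL : ∀ a ∈ En X.Λ, ∀ i, a i ∈ L) : X.Full (Fintype.card k) :=
  ⟨L, inferInstance, inferInstance, c, hc, hcen, hz, hL,
    exists_univ_of sm fr hr hR L hc hcen hM⟩

/-- `Full` holds when the ring of endomorphisms is rationally stable under conjugation -/
theorem full_of_star (sm : S_sm) (fr : S_frob) (hr : Surjective r) (hR : Pl.Ext R)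
    (ho : Odd (Fintype.card k)) (X : Model r σ g)
    (hs : ∀ a ∈ En X.Λ, ∃ n : ℕ, n ≠ 0 ∧ n • star a ∈ En X.Λ) : X.Full (Fintype.card k) := by
  obtain ⟨θ, hθ, hi⟩ := X.cm
  obtain ⟨n, hn, h⟩ := hs θ hθ
  obtain ⟨p, -, hp, -, -, hv⟩ := exists_char r
  have := X.lat
  obtain ⟨L, i1, i2, c, hc, hcen, hz, hL⟩ := Glue.head hθ hi hn h R hp.ne_zero hv
  exact full_of_L sm fr hr hR L hc hcen hz (mods_odd L hc hcen hz hr ho) X hL

end Pool.Agent.Tav.Top
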