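import Pool.Agent.P.MP_2ce3e7_ag.Tav.GrTwB
import Pool.Agent.P.MP_2ce3e7_ag.Tav.GrGen

/-! An abelian variety is smooth. -/

set_option autoImplicit false

noncomputable section

namespace Pool.Agent.Tav.Tw

open MvPolynomial Set Function Module Tr TrivSqZeroExt

section dual
variable {K F σ : Type} [Field K] [CommRing F] [Algebra K F] [Fintype σ]

/-- the derivative of `f` at `y` in the direction `z` -/
def dr (y z : σ → F) (f : MvPolynomial σ K) : F := ∑ l, aeval y (pderiv l f) * z l

/-- the point `y + ε z` -/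
def pt (y z : σ → F) (l : σ) : DualNumber F := inl (y l) + inr (z l)

theorem aeval_pt' (y z : σ → F) (f : MvPolynomial σ K) :
    aeval (pt y z) f = inl (aeval y f) + inr (dr y z f) := by
  classical
  induction f using MvPolynomial.induction_on with
  | C a => simp [dr, algebraMap_eq_inl']
  | add f g hf hg =>
    rw [map_add, hf, hg]
    ext <;> simp [dr, add_mul, Finset.sum_add_distrib]
  | mul_X f i hf =>
    rw [map_mul, hf, aeval_X]
    ext
    · simp [pt]
    · simp [pt, dr, pderiv_X, mul_add, Finset.sum_add_distrib, Pi.single_apply, apply_ite,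
        Finset.mul_sum, mul_comm, mul_left_comm, add_comm]

theorem dr_X (y z : σ → F) (l : σ) : dr y z (X l : MvPolynomial σ K) = z l := by
  classical
  simp [dr, pderiv_X, Pi.single_apply, apply_ite]

end dual

section gen
variable {K σ A F : Type} [Field K] [Fintype σ] [CommRing A] [Algebra K A] [Field F] [Algebra K F]

theorem snd_zero {s : Set F} [Algebra.IsSeparable (IntermediateField.adjoin K s) F]
    (φ : F →+* DualNumber F) (h4 : ∀ x, (φ x).fst = x) (hK : ∀ c : K, (φ (algebraMap K F c)).snd = 0)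
    (hs : ∀ x ∈ s, (φ x).snd = 0) (x : F) : (φ x).snd = 0 := by
  have h5 : ∀ x ∈ IntermediateField.adjoin K s, (φ x).snd = 0 := fun x hx => by
    induction hx using IntermediateField.adjoin_induction with
    | mem x hx => exact hs x hx
    | algebraMap c => exact hK c
    | add x y _ _ hx hy => rw [map_add, snd_add, hx, hy, add_zero]
    | inv x _ hx =>
      by_cases e : x = 0
      · simp [e]
      · have := congrArg (fun t => (φ t).snd) (mul_inv_cancel₀ e)
        simp only [map_mul, DualNumber.snd_mul, h4, hx, zero_mul, add_zero, map_one, snd_one] at this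
        exact (mul_eq_zero.1 this).resolve_left e
    | mul x y _ _ hx hy => rw [map_mul, DualNumber.snd_mul, hx, hy, mul_zero, zero_mul, add_zero]
  have := Algebra.FormallyUnramified.of_isSeparable (IntermediateField.adjoin K s) F
  have h6 := Algebra.FormallyUnramified.ext' (R := IntermediateField.adjoin K s)
    (fstHom F F F).toRingHom ⟨2, kerIdeal_sq F F⟩
    { φ with commutes' := fun c => TrivSqZeroExt.ext (h4 _) (h5 _ c.2) } (inlAlgHom _ F F) h4
  exact congrArg snd (DFunLike.congr_fun h6 x)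

variable [IsDomain A] [Algebra A F] [IsScalarTower K A F] [IsFractionRing A F]
  {π : MvPolynomial σ K →ₐ[K] A} {x : σ → F}

omit [IsScalarTower K A F] in
theorem gen_inj (hπ : Surjective π) (hx : ∀ f, aeval x f = algebraMap A F (π f)) {s : Set F}
    [Algebra.IsSeparable (IntermediateField.adjoin K s) F] {a b : s → MvPolynomial σ K}
    (hb : ∀ k, aeval x (b k) ≠ 0) (hab : ∀ k, k.1 * aeval x (b k) = aeval x (a k)) {z : σ → F}
    (h1 : ∀ f, π f = 0 → dr x z f = 0)
    (h2 : ∀ k, aeval x (b k) * dr x z (a k) = aeval x (a k) * dr x z (b k)) : z = 0 := by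
  let φ₀ : A →+* DualNumber F := π.toRingHom.liftOfSurjective hπ
    ⟨(aeval (pt x z) : MvPolynomial σ K →ₐ[K] _).toRingHom, fun f hf => by
      have e : π f = 0 := hf
      change aeval (pt x z) f = 0
      rw [aeval_pt', h1 f e, hx, e]
      simp⟩
  have h0 : ∀ f, φ₀ (π f) = inl (aeval x f) + inr (dr x z f) := fun f =>
    (π.toRingHom.liftOfRightInverse_comp_apply _ _ _ f).trans (aeval_pt' _ _ f)
  have hu : ∀ y : nonZeroDivisors A, IsUnit (φ₀ y) := by
    rintro ⟨y, hy⟩
    obtain ⟨f, rfl⟩ := hπ y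
    refine isUnit_iff_isUnit_fst.2 (IsUnit.mk0 _ ?_)
    rw [h0, fst_add, fst_inl, fst_inr, add_zero, hx]
    exact IsFractionRing.to_map_ne_zero_of_mem_nonZeroDivisors hy
  let φ : F →+* DualNumber F := IsLocalization.lift hu
  have h3 : ∀ f : MvPolynomial σ K, φ (aeval x f) = inl (aeval x f) + inr (dr x z f) :=
    fun f => by
      rw [← h0, hx]
      exact IsLocalization.lift_eq hu _
  have h4 : ∀ y, (φ y).fst = y := fun y =>
    DFunLike.congr_fun (IsLocalization.ringHom_ext (nonZeroDivisors A)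
      (j := (fstHom K F F).toRingHom.comp φ) (k := RingHom.id F) (RingHom.ext fun y => by
        obtain ⟨f, rfl⟩ := hπ y
        change (φ (algebraMap A F _)).fst = algebraMap A F _
        rw [← hx, h3]
        simp)) y
  have h5 := snd_zero (K := K) (s := s) φ h4 (fun c => by
    have := h3 (C c)
    rw [aeval_C] at this
    rw [this]
    simp [dr]) fun y hy => by
      have e := congrArg (fun t => (φ t).snd) (hab ⟨y, hy⟩)
      simp only [map_mul, DualNumber.snd_mul, h4] at e
      simp only [h3, snd_add, snd_inl, snd_inr, zero_add] at e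
      have e2 := h2 ⟨y, hy⟩
      rw [← e, ← hab] at e2
      have : aeval x (b ⟨y, hy⟩) * ((φ y).snd * aeval x (b ⟨y, hy⟩)) = 0 := by
        linear_combination e2
      simpa [hb ⟨y, hy⟩] using this
  funext l
  have h7 := h5 (aeval x (X l : MvPolynomial σ K))
  rw [h3] at h7
  simpa [dr_X] using h7

omit [IsScalarTower K A F] in
/-- at a general point the tangent space is cut out by `card s` linear forms -/
theorem gen_pt (hπ : Surjective π) (hx : ∀ f, aeval x f = algebraMap A F (π f)) {s : Set F}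
    [Algebra.IsSeparable (IntermediateField.adjoin K s) F] :
    ∃ (h : MvPolynomial σ K) (w : s → σ → MvPolynomial σ K), π h ≠ 0 ∧ ∀ y z : σ → K,
      (∀ f, π f = 0 → aeval y f = 0) → aeval y h ≠ 0 → (∀ f, π f = 0 → dr y z f = 0) →
      (∀ k, ∑ l, aeval y (w k l) * z l = 0) → z = 0 := by
  classical
  have hab : ∀ k : s, ∃ a b : MvPolynomial σ K, aeval x b ≠ 0 ∧ k.1 * aeval x b = aeval x a :=
    fun k => by
      obtain ⟨a, b, hb, e⟩ := IsFractionRing.div_surjective (A := A) k.1
      obtain ⟨a, rfl⟩ := hπ a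
      obtain ⟨b, rfl⟩ := hπ b
      have h0 := IsFractionRing.to_map_ne_zero_of_mem_nonZeroDivisors (K := F) hb
      exact ⟨a, b, by rwa [hx], by rw [hx, hx, ← e, div_mul_cancel₀ _ h0]⟩
  choose a b hb hab using hab
  let w : s → σ → MvPolynomial σ K := fun k l => b k * pderiv l (a k) - a k * pderiv l (b k)
  let P : Set (σ → MvPolynomial σ K) := {v | ∃ f, π f = 0 ∧ v = fun l => pderiv l f} ∪ range w
  have h1 : Submodule.span F ((fun v l => aeval x (v l)) '' P) = ⊤ := by
    by_contra hn
    obtain ⟨φ, h0, hφ⟩ := Submodule.exists_le_ker_of_lt_top _ (lt_top_iff_ne_top.2 hn)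
    have h2 : ∀ v ∈ P, ∑ l, aeval x (v l) * φ (Pi.single l 1) = 0 := fun v hv => by
      have : φ _ = 0 := hφ (Submodule.subset_span ⟨v, hv, rfl⟩)
      rw [LinearMap.pi_apply_eq_sum_univ] at this
      refine Eq.trans (Finset.sum_congr rfl fun l _ => ?_) this
      rw [smul_eq_mul]
      exact congrArg (fun t => _ * φ t) (funext fun j => by simp [Pi.single_apply, eq_comm])
    have h3 := gen_inj hπ hx hb hab (z := fun l => φ (Pi.single l 1))
      (fun f hf => h2 _ (Or.inl ⟨f, hf, rfl⟩)) fun k => by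
        have := h2 _ (Or.inr ⟨k, rfl⟩)
        simp only [w, map_sub, map_mul, sub_mul, Finset.sum_sub_distrib, mul_assoc,
          ← Finset.mul_sum] at this
        exact sub_eq_zero.1 this
    exact h0 (LinearMap.pi_ext' fun l => LinearMap.ext_ring (congrFun h3 l))
  choose t ht using fun l => multiple_mem_span_of_mem_localization_span (nonZeroDivisors A) F
    _ (Pi.single l (1 : F) : σ → F) (h1 ▸ Submodule.mem_top)
  choose u hu using fun l => hπ (t l)
  refine ⟨∏ l, u l, w, ?_, fun y z hy h0 hz hw => funext fun l => ?_⟩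
  · rw [map_prod]
    exact Finset.prod_ne_zero_iff.2 fun l _ => hu l ▸ nonZeroDivisors.coe_ne_zero (t l)
  have key : ∀ v ∈ Submodule.span A ((fun v l => aeval x (v l)) '' P),
      ∃ v' : σ → MvPolynomial σ K, (∀ l, aeval x (v' l) = v l) ∧
        ∑ l, aeval y (v' l) * z l = 0 := fun v hv => by
    induction hv using Submodule.span_induction with
    | mem _ h =>
      obtain ⟨v, hv, rfl⟩ := h
      refine ⟨v, fun _ => rfl, ?_⟩
      rcases hv with ⟨f, hf, rfl⟩ | ⟨k, rfl⟩
      · exact hz f hf
      · exact hw k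
    | zero => exact ⟨0, fun _ => map_zero _, by simp⟩
    | add _ _ _ _ h h' =>
      obtain ⟨v, h1, h2⟩ := h
      obtain ⟨v', h3, h4⟩ := h'
      exact ⟨v + v', fun l => by simp [h1, h3], by
        simp [add_mul, Finset.sum_add_distrib, -aeval_eq_eval, -coe_aeval_eq_eval, h2, h4]⟩
    | smul c _ _ h =>
      obtain ⟨v, h1, h2⟩ := h
      obtain ⟨c, rfl⟩ := hπ c
      refine ⟨c • v, fun l => by rw [Pi.smul_apply, smul_eq_mul, map_mul, h1, hx, Pi.smul_apply,
        Algebra.smul_def], ?_⟩
      simp only [Pi.smul_apply, smul_eq_mul, map_mul, mul_assoc, ← Finset.mul_sum, h2, mul_zero]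
  obtain ⟨v, h2, h3⟩ := key _ (ht l)
  have h4 : ∀ j, aeval y (v j) = if j = l then aeval y (u l) else 0 := fun j => by
    have : π (v j - if j = l then u l else 0) = 0 := by
      apply IsFractionRing.injective A F
      rw [← hx, map_sub, h2, map_zero, Submonoid.smul_def, Pi.smul_apply, Algebra.smul_def]
      split_ifs with e
      · rw [e, hx, hu, Pi.single_eq_same, mul_one, sub_self]
      · rw [Pi.single_eq_of_ne e, mul_zero, map_zero, sub_zero]
    have := hy _ this
    rw [map_sub, sub_eq_zero] at this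
    rw [this]
    split_ifs <;> simp
  simp only [h4, ite_mul, zero_mul, Finset.sum_ite_eq', Finset.mem_univ, if_true] at h3
  rw [map_prod] at h0
  exact (mul_eq_zero.1 h3).resolve_left (Finset.prod_ne_zero_iff.1 h0 l (Finset.mem_univ l))

omit [Fintype σ] in
theorem exists_ind (hπ : Surjective π) {s : Finset F}
    (hs : IsTranscendenceBasis K ((↑) : s → F)) :
    ∃ U : Finset σ, s.card ≤ U.card ∧ ∀ f ∈ supported K (U : Set σ), π f = 0 → f = 0 := by
  classical
  have h1 : Algebra.adjoin K (range fun l => π (X l)) = ⊤ := by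
    rw [range_comp' π X, ← AlgHom.map_adjoin, adjoin_range_X, Algebra.map_top,
      AlgHom.range_eq_top]
    exact hπ
  have : Algebra.IsAlgebraic (Algebra.adjoin K (range fun l => π (X l))) A :=
    ⟨fun a => isAlgebraic_algebraMap (⟨a, h1 ▸ Algebra.mem_top⟩ : Algebra.adjoin K _)⟩
  obtain ⟨t, h2, h3⟩ := exists_isTranscendenceBasis_subset (R := K) (range fun l => π (X l))
  have := IsLocalization.isAlgebraic F (nonZeroDivisors A)
  have h4 : Cardinal.mk t = s.card := by
    rw [h3.cardinalMk_eq_trdeg, ← Cardinal.mk_coe_finset, hs.cardinalMk_eq_trdeg,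
      ← trdeg_add_eq K A (A := F), trdeg_eq_zero (R := A), add_zero]
  have : Finite t := Cardinal.lt_aleph0_iff_finite.1 (h4 ▸ Cardinal.natCast_lt_aleph0)
  cases nonempty_fintype t
  choose l hl using fun e : t => h2 e.2
  have h5 : Injective l := fun e e' h => Subtype.ext ((hl e).symm.trans (h ▸ hl e'))
  refine ⟨Finset.univ.image l, ?_, fun f hf h0 => ?_⟩
  · rw [Finset.card_image_of_injective _ h5, Finset.card_univ]
    rw [Cardinal.mk_fintype] at h4
    exact_mod_cast h4.ge
  · obtain ⟨q, rfl⟩ := exists_rename_eq_of_vars_subset_range f l h5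
      (by simpa using mem_supported.1 hf)
    have h6 : aeval ((↑) : t → A) q = 0 := by
      rw [← h0, aeval_unique π, aeval_rename]
      exact congrArg (aeval · q) (funext fun e => (hl e).symm)
    rw [(algebraicIndependent_iff.1 h3.1) q h6, map_zero]

end gen

section av
variable {K G σ : Type} [Field K] [Fintype σ] [AddCommGroup G] {p : G → σ → K} {g : ℕ}

theorem aeval_sc {A : Type} [CommRing A] [Algebra K A] {f : MvPolynomial σ K} {d : Fin 1 → ℕ}
    (hf : IsWeightedHomogeneous (wN fun _ : σ => (0 : Fin 1)) f d) (c : A) (y : σ → A) :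
    aeval (c • y) f = c ^ d 0 * aeval y f := by
  rw [f.as_sum, map_sum, map_sum, Finset.mul_sum]
  refine Finset.sum_congr rfl fun m hm => ?_
  have h1 : Finsupp.weight (wN fun _ : σ => (0 : Fin 1)) m = d := hf (mem_support_iff.1 hm)
  rw [aeval_monomial, aeval_monomial, Finsupp.prod_fintype _ _ (by simp),
    Finsupp.prod_fintype _ _ (by simp), ← h1, weight_wN, Finset.filter_true_of_mem fun _ _ => rfl,
    ← Finset.prod_pow_eq_pow_sum]
  simp only [Pi.smul_apply, smul_eq_mul, mul_pow, Finset.prod_mul_distrib]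
  ring

omit [AddCommGroup G] in
theorem grJ_idl [Infinite K] : GrJ (fun _ : σ => (0 : Fin 1)) (idl p) := by
  classical
  intro d f hf
  refine (mem_idl_form (weightedHomogeneousComponent_mem _ f d)).2 fun t => ?_
  let S := (weightedHomogeneousComponent_finsupp (w := wN fun _ : σ => (0 : Fin 1)) f).toFinset
  let Q : Polynomial K := ∑ e ∈ S, Polynomial.monomial (e 0)
    (eval (p t) (weightedHomogeneousComponent (wN fun _ : σ => (0 : Fin 1)) e f))
  have hQ : Q = 0 := Polynomial.funext fun c => by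
    have h1 := Tw.mem_idl.1 hf c t
    rw [← sum_weightedHomogeneousComponent (wN fun _ : σ => (0 : Fin 1)) f,
      finsum_eq_sum _ (weightedHomogeneousComponent_finsupp f), map_sum] at h1
    rw [Polynomial.eval_zero, ← h1, Polynomial.eval_finsetSum]
    refine Finset.sum_congr rfl fun e _ => ?_
    rw [Polynomial.eval_monomial, mul_comm]
    exact (aeval_sc (weightedHomogeneousComponent_mem _ f e) c (p t)).symm
  by_cases hd : d ∈ S
  · have h2 := congrArg (Polynomial.coeff · (d 0)) hQ
    simp only [Q, Polynomial.finsetSum_coeff, Polynomial.coeff_monomial] at h2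
    rw [Finset.sum_eq_single d (fun e _ he => if_neg fun h => he (funext fun i => by
      rwa [Subsingleton.elim i 0])) (fun h => absurd hd h), if_pos rfl] at h2
    exact h2
  · have h3 : weightedHomogeneousComponent (wN fun _ : σ => (0 : Fin 1)) d f = 0 := by
      by_contra h
      exact hd ((Set.Finite.mem_toFinset _).2 h)
    rw [h3, map_zero]

omit [Fintype σ] in
theorem exists_X (h : AV p g) : ∃ v, X v ∉ idl p := by
  obtain ⟨v, hv⟩ := Function.ne_iff.1 (h.ne 0)
  exact ⟨v, fun e => hv (by simpa using Tw.mem_idl.1 e 1 0)⟩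

theorem card_le [Infinite K] (h : AV p g) {U : Finset σ}
    (hU : ∀ f ∈ supported K (U : Set σ), f ∈ idl p → f = 0) : U.card ≤ g + 1 := by
  obtain ⟨U₀, h0⟩ := TateX.exists_maxInd h.irr.ne_top
  have h1 := h0.max U (Ideal.span_eq_bot.2 fun f hf => hU f hf.2 hf.1)
  have h2 := (dg_iff_card h.irr grJ_idl (fun i => (exists_X h).imp fun v hv =>
    ⟨Subsingleton.elim _ _, hv⟩) h0 (n := g)).1 fun s hs => coeff_eq_zero_of_totalDegree_lt (by
      rw [← Gn.dm_idl, h.dim]
      change g < s.degree
      exact_mod_cast hs)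
  rw [Fintype.card_fin] at h2
  omega

/-- the derivative as a linear form -/
def drL (y : σ → K) (f : MvPolynomial σ K) : (σ → K) →ₗ[K] K :=
  ∑ l, eval y (pderiv l f) • LinearMap.proj (R := K) (φ := fun _ => K) l

theorem drL_apply (y z : σ → K) (f : MvPolynomial σ K) : drL y f z = dr y z f := by
  simp [drL, dr, aeval_eq_eval]

/-- the tangent space of the cone -/
def TS (I : Ideal (MvPolynomial σ K)) (y : σ → K) : Submodule K (σ → K) :=
  ⨅ f ∈ I, LinearMap.ker (drL y f)

theorem mem_TS {I : Ideal (MvPolynomial σ K)} {y z : σ → K} :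
    z ∈ TS I y ↔ ∀ f ∈ I, dr y z f = 0 := by
  simp [TS, drL_apply]

theorem chart (h : AV p g) (a t : G) : ∃ (e : Fin 1 → ℕ) (γ : G → K) (P : σ → MvPolynomial σ K),
    γ t ≠ 0 ∧ (∀ l, IsWeightedHomogeneous (wN fun _ : σ => (0 : Fin 1)) (P l) e) ∧
    ∀ (c : K) u, (fun l => aeval (c • p u) (P l)) = (c ^ e 0 * γ u) • p (u - a) := by
  have h1 : Rg ![crd p] (crd fun u => p (u - a)) :=
    rg_comp2 (f := fun u => u.1 - u.2) h.sub (rg_self ![crd p] 0) (rg_const _ (p a))
  obtain ⟨e, γ, P, h2, h3, h4⟩ := exists_chart (fun _ : σ => (0 : Fin 1)) p (L := ![crd p])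
    (fun i => by
      rw [Subsingleton.elim i 0]
      exact Submodule.span_mono (by rintro _ ⟨l, rfl⟩; exact ⟨l, rfl, rfl⟩)) h1 t
  refine ⟨e, γ, P, h2.ne_zero, h3, fun c u => funext fun l => ?_⟩
  rw [aeval_sc (h3 l), aeval_eq_eval, h4, Pi.smul_apply, smul_eq_mul, mul_assoc]

omit [AddCommGroup G] in
theorem self_mem [Infinite K] (c : K) (t : G) : c • p t ∈ TS (idl p) (c • p t) :=
  mem_TS.2 fun f hf => by
    have h1 : aeval (fun l => Polynomial.X * Polynomial.C ((c • p t) l)) f = 0 :=
      Polynomial.funext fun b => by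
        rw [← Polynomial.coe_aeval_eq_eval, comp_aeval_apply, map_zero, aeval_eq_eval,
          ← Tw.mem_idl.1 hf (b * c) t]
        exact congrArg (eval · f) (funext fun l => by simp [mul_assoc])
    have h2 := congrArg (Polynomial.aeval (1 + inr 1 : DualNumber K)) h1
    rw [comp_aeval_apply, map_zero] at h2
    have h3 : aeval (pt (c • p t) (c • p t)) f = 0 := by
      refine Eq.trans (congrArg (aeval · f) (funext fun l => ?_)) h2
      ext <;> simp [pt, algebraMap_eq_inl]
    rw [aeval_pt'] at h3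
    simpa using congrArg snd h3

theorem fr_le {V : Type} [AddCommGroup V] [Module K V] [FiniteDimensional K V]
    {T T' : Submodule K V} {y y' : V} (hy : y ≠ 0) (hy' : y' ≠ 0) (hm : y' ∈ T') (D : V →ₗ[K] V)
    (h1 : ∀ z ∈ T, D z ∈ T')
    (h2 : ∀ z ∈ T, D z ∈ Submodule.span K {y'} → z ∈ Submodule.span K {y}) :
    finrank K T ≤ finrank K T' := by
  let L := ((Submodule.span K {y'}).mkQ ∘ₗ D) ∘ₗ T.subtype
  let M := (Submodule.span K {y'}).mkQ ∘ₗ T'.subtype
  have a1 : LinearMap.range L ≤ LinearMap.range M := by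
    rintro _ ⟨z, rfl⟩
    exact ⟨⟨_, h1 z z.2⟩, rfl⟩
  have a2 : LinearMap.ker L ≤ (Submodule.span K {y}).comap T.subtype := fun z hz =>
    h2 z z.2 ((Submodule.Quotient.mk_eq_zero _).1 hz)
  have a3 : finrank K (LinearMap.ker L) ≤ 1 := by
    rw [← Submodule.finrank_map_subtype_eq, ← finrank_span_singleton (K := K) hy]
    exact Submodule.finrank_mono (Submodule.map_le_iff_le_comap.2 a2)
  have a0 : (⟨y', hm⟩ : T') ∈ LinearMap.ker M :=
    (Submodule.Quotient.mk_eq_zero _).2 (Submodule.mem_span_singleton_self _)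
  have a4 : 0 < finrank K (LinearMap.ker M) := finrank_pos_iff_exists_ne_zero.2
    ⟨⟨_, a0⟩, fun e => hy' (congrArg (fun x : LinearMap.ker M => x.1.1) e)⟩
  have a5 := Submodule.finrank_mono a1
  rw [← L.finrank_range_add_finrank_ker, ← M.finrank_range_add_finrank_ker]
  exact add_le_add a5 (a3.trans a4)

theorem ts_le [Infinite K] (h : AV p g) {c : K} (hc : c ≠ 0) (t : G) :
    finrank K (TS (idl p) (p 0)) ≤ finrank K (TS (idl p) (c • p t)) := by
  obtain ⟨e, γ, P₀, h1, h2', h3'⟩ := chart h (-t) 0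
  obtain ⟨e', γ', P', h4, h5, h6⟩ := chart h t t
  let P : σ → MvPolynomial σ K := fun l => (c / γ 0) • P₀ l
  have h3 : ∀ (b : K) u, (fun l => aeval (b • p u) (P l)) =
      (c / γ 0 * (b ^ e 0 * γ u)) • p (u + t) := fun b u => by
    rw [← sub_neg_eq_add, mul_smul, ← h3']
    funext l
    rw [Pi.smul_apply, ← map_smul]
  have h7 : ∀ l, aeval (p 0) (P l) = (c • p t) l := fun l => by
    have := congrFun (h3 1 0) l
    rwa [one_smul, one_pow, one_mul, div_mul_cancel₀ _ h1, zero_add] at this
  have h8 : ∀ z f, aeval (pt (p 0) z) (aeval P f) =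
      aeval (pt (c • p t) fun l => dr (p 0) z (P l)) f := fun z f => by
    rw [comp_aeval_apply]
    exact congrArg (aeval · f) (funext fun l => by rw [aeval_pt', h7]; rfl)
  have h9 : ∀ z ∈ TS (idl p) (p 0), ∀ f ∈ idl p, aeval (pt (p 0) z) f = 0 := fun z hz f hf => by
    have := Tw.mem_idl.1 hf 1 0
    rw [one_smul] at this
    rw [aeval_pt', mem_TS.1 hz f hf, aeval_eq_eval, this]
    simp
  refine fr_le (h.ne 0) (smul_ne_zero hc (h.ne t)) (self_mem c t)
    (LinearMap.pi fun l => drL (p 0) (P l)) (fun z hz => mem_TS.2 fun f hf => ?_) fun z hz hκ => ?_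
  · have e : (LinearMap.pi fun l => drL (p 0) (P l)) z = fun l => dr (p 0) z (P l) :=
      funext fun l => drL_apply _ _ _
    rw [e]
    have := h9 z hz (aeval P f) (Tw.mem_idl.2 fun b u => by
      rw [← aeval_eq_eval, comp_aeval_apply, h3, aeval_eq_eval, Tw.mem_idl.1 hf])
    rw [h8, aeval_pt'] at this
    simpa using congrArg snd this
  · obtain ⟨κ, hκ⟩ := Submodule.mem_span_singleton.1 hκ
    have b1 : (pt (c • p t) fun l => dr (p 0) z (P l)) =
        (1 + inr κ : DualNumber K) • pt (c • p t) 0 := funext fun l => by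
      have : dr (p 0) z (P l) = κ * (c • p t) l :=
        (drL_apply _ _ _).symm.trans (congrFun hκ l).symm
      ext <;> simp [pt, this]
    have b2 : ∀ l, aeval (pt (p 0) z) (aeval P (P' l)) =
        (1 + inr κ : DualNumber K) ^ e' 0 * inl (c ^ e' 0 * γ' t * p 0 l) := fun l => by
      have := congrFun (h6 c t) l
      rw [sub_self] at this
      rw [h8, b1, aeval_sc (h5 l), aeval_pt', this]
      simp [dr]
    have b3 : ∀ i j, p 0 i * z j = p 0 j * z i := fun i j => by
      have := h9 z hz (aeval P (P' i) * X j - aeval P (P' j) * X i) (Tw.mem_idl.2 fun b u => by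
        have e1 := h6 (c / γ 0 * (b ^ e 0 * γ u)) (u + t)
        rw [← aeval_eq_eval, map_sub, map_mul, map_mul, comp_aeval_apply, comp_aeval_apply, h3,
          congrFun e1 i, congrFun e1 j]
        simp
        ring)
      rw [map_sub, map_mul, map_mul, b2, b2, mul_assoc ((1 + inr κ : DualNumber K) ^ _),
        mul_assoc ((1 + inr κ : DualNumber K) ^ _), ← mul_sub,
        (IsUnit.pow _ (isUnit_iff_isUnit_fst.2 (by simp))).mul_right_eq_zero] at this
      have h10 : c ^ e' 0 * γ' t * (p 0 i * z j - p 0 j * z i) = 0 := by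
        have := congrArg snd this
        simp [pt, -mul_eq_zero] at this
        linear_combination this
      exact sub_eq_zero.1 ((mul_eq_zero.1 h10).resolve_left (mul_ne_zero (pow_ne_zero _ hc) h4))
    obtain ⟨i, hi⟩ := Function.ne_iff.1 (h.ne 0)
    have hi' : p 0 i ≠ 0 := hi
    refine Submodule.mem_span_singleton.2 ⟨z i / p 0 i, funext fun j => ?_⟩
    change z i / p 0 i * p 0 j = z j
    field_simp
    linear_combination b3 j i

/-- SM -/
theorem sm [IsAlgClosed K] (h : AV p g) : finrank K (⨅ f ∈ idl p, LinearMap.ker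
    (∑ l, eval (p 0) (pderiv l f) • LinearMap.proj (R := K) (φ := fun _ => K) l) :) ≤ g + 1 := by
  have := h.irr
  have : Algebra.EssFiniteType (MvPolynomial σ K ⧸ idl p)
      (FractionRing (MvPolynomial σ K ⧸ idl p)) :=
    .of_isLocalization _ (nonZeroDivisors _)
  have : Algebra.EssFiniteType K (FractionRing (MvPolynomial σ K ⧸ idl p)) :=
    .comp K (MvPolynomial σ K ⧸ idl p) _
  obtain ⟨s, h1, h2⟩ := exists_isTranscendenceBasis_and_isSeparable_of_perfectField K
    (FractionRing (MvPolynomial σ K ⧸ idl p))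
  have hπ := Ideal.Quotient.mkₐ_surjective K (idl p)
  have hk : ∀ f, Ideal.Quotient.mkₐ K (idl p) f = 0 ↔ f ∈ idl p :=
    fun f => Ideal.Quotient.eq_zero_iff_mem
  obtain ⟨U, h3, h4⟩ := exists_ind hπ h1
  have h5 := card_le h fun f hf e => h4 f hf ((hk f).2 e)
  obtain ⟨q, w, h6, h7⟩ := gen_pt hπ (fun f => (DFunLike.congr_fun (aeval_unique
    ((IsScalarTower.toAlgHom K _ (FractionRing (MvPolynomial σ K ⧸ idl p))).comp
      (Ideal.Quotient.mkₐ K (idl p)))) f).symm) (s := (s : Set (FractionRing (MvPolynomial σ K ⧸ idl p))))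
  obtain ⟨v, hv⟩ := exists_X h
  have h8 : X v * q ∉ idl p := fun e => (h.irr.mem_or_mem e).elim hv fun e => h6 ((hk q).2 e)
  rw [Tw.mem_idl] at h8
  push Not at h8
  obtain ⟨c, t, h9⟩ := h8
  rw [map_mul, eval_X] at h9
  refine (ts_le h (c := c) (fun e => h9 (by simp [e])) t).trans (le_trans ?_ (h3.trans h5))
  have := LinearMap.finrank_le_finrank_of_injective (f := (LinearMap.pi fun k =>
    ∑ l, aeval (c • p t) (w k l) • LinearMap.proj (R := K) (φ := fun _ => K) l) ∘ₗ
      (TS (idl p) (c • p t)).subtype) ((injective_iff_map_eq_zero _).2 fun z hz => Subtype.ext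
    (h7 _ z (fun f hf => Tw.mem_idl.1 ((hk f).1 hf) c t) (right_ne_zero_of_mul h9)
      (fun f hf => mem_TS.1 z.2 f ((hk f).1 hf)) fun k => by simpa using congrFun hz k))
  simpa using this

end av

end Pool.Agent.Tav.Tw
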