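import Pool.Agent.P.MP_2ce3e7_ag.Tav.GrHMB
import Pool.Agent.P.MP_2ce3e7_ag.Tav.GrTop
import Pool.Agent.P.MP_2ce3e7_ag.Tav.GrPi
import Pool.Agent.P.MP_2ce3e7_ag.Tav.GrTwS
import Pool.Agent.P.MP_2ce3e7_ag.Tav.TiTopD

/-! Every Weil polynomial has a model. -/

set_option autoImplicit false

noncomputable section

namespace Pool.Agent.Tav.HM

open Function

variable (k : Type) [Field k] [Fintype k]

theorem frob : Top.S_frob := fun _ _ _ _ _ hr _ _ _ X h1 h2 =>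
  GrPi.frob_of_deg hr X (X.deg hr) h1 h2

theorem sm : Top.S_sm := fun _ _ _ _ _ _ _ _ _ h => Tw.sm h

theorem hm_mods
    (H : ∀ (R : ValuationSubring ℂ) (r : R →+* AlgebraicClosure k), Surjective r →
    ∀ (L : IntermediateField ℚ ℂ) [FiniteDimensional ℚ L] [IsGalois ℚ L] (c : Gal(L/ℚ)),
      (∀ z, (c z : ℂ) = star (z : ℂ)) → (∀ s, s * c = c * s) →
      (∃ z : L, (z : ℂ) ∈ R ∧ (c z : ℂ) ∉ R) → (∃ om : L, om ^ 2 + om + 1 = 0) →
      Top.Mods r L c) : Ti.S_HM k := fun _ _ α P hP hα => by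
  obtain ⟨R, r, hr, hR⟩ := Pl.place k
  refine ⟨R, r, hr, hm_of k hr (fun L _ _ c hc hcc hz ho => ?_) α P hP hα⟩
  have h := H R r hr L c hc hcc hz ho
  refine ⟨fun T _ Ψ hΨ g e => ?_, Top.exists_univ_of sm frob hr hR L hc hcc h⟩
  obtain ⟨σ, _, X, hX, h1⟩ := h.list L hc hcc hΨ e
  exact ⟨σ, inferInstance, X, hX, frob k R r hr σ g X (sm _ _ _ _ _ X.sp) (Top.max_of h1 _)⟩

theorem _root_.Pool.Agent.Tav.Ti.s_hm (hk : Odd (Fintype.card k)) : Ti.S_HM k :=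
  hm_mods k fun _ _ hr L _ _ _ hc hcc hz _ => Top.mods_odd L hc hcc hz hr hk

end Pool.Agent.Tav.HM
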