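import Pool.Agent.P.MP_2ce3e7_ag.Tav.TiHonA
import Pool.Agent.P.MP_2ce3e7_ag.Tav.GrGlue

/-! The arithmetic of the theorem of Honda: CM types with prescribed slopes. -/

set_option autoImplicit false

noncomputable section

namespace Pool.Agent.Tav.Hon

open Polynomial NumberField

theorem exists_type {G : Type} [Group G] [Finite G] (D : Subgroup G) {c : G}
    (hc : ∀ s, s * c = c * s) (hcc : c * c = 1) (hD : c ∉ D) (n : G → ℕ)
    (h1 : ∀ d ∈ D, ∀ t, n (d * t) = n t) (h2 : ∀ t, n t + n (c * t) = Nat.card D) :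
    ∃ Φ : Set G, (∀ s, c * s ∈ Φ ↔ s ∉ Φ) ∧ ∀ t, Nat.card {d : D // (d : G) * t ∈ Φ} = n t := by
  classical
  obtain ⟨ρ, r1, r2⟩ : ∃ ρ : G → G, (∀ s, s * (ρ s)⁻¹ ∈ D) ∧ ∀ d ∈ D, ∀ s, ρ (d * s) = ρ s := by
    refine ⟨fun s => (Quotient.mk (QuotientGroup.rightRel D) s).out, fun s => ?_, fun d hd s => ?_⟩
    · exact QuotientGroup.rightRel_apply.1 (Quotient.mk_out (s := QuotientGroup.rightRel D) s)
    · refine congrArg Quotient.out (Quotient.sound ?_).symm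
      exact QuotientGroup.rightRel_apply.2 (by simpa using hd)
  let κ : G → ℕ := fun s => Finite.equivFin G (ρ s)
  let ν : G → ℕ := fun s => Finite.equivFin D ⟨_, r1 s⟩
  have ccs : ∀ s, c * (c * s) = s := fun s => by rw [← mul_assoc, hcc, one_mul]
  have cd : ∀ d t, c * (d * t) = d * (c * t) := fun d t => by
    rw [← mul_assoc, ← hc, mul_assoc]
  have k1 : ∀ s, κ (c * s) ≠ κ s := fun s h => hD (by
    have h3 : ρ (c * s) = ρ s := (Finite.equivFin G).injective (Fin.ext h)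
    have h4 := D.mul_mem (h3 ▸ r1 (c * s)) (D.inv_mem (r1 s))
    simpa [mul_assoc] using h4)
  have k2 : ∀ (d : D) s, κ (d * s) = κ s := fun d s => by simp only [κ, r2 d d.2]
  have cnt : ∀ t k, k ≤ Nat.card D → Nat.card {d : D // ν (d * t) < k} = k := by
    intro t k hk
    let e : D ≃ Fin (Nat.card D) := (Equiv.mulRight ⟨_, r1 t⟩).trans (Finite.equivFin D)
    have he : ∀ d : D, ν (d * t) = e d := fun d => by
      refine congrArg (fun x : D => (Finite.equivFin D x : ℕ)) (Subtype.ext ?_)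
      simp [r2 d d.2, mul_assoc]
    rw [Nat.card_congr (e.subtypeEquiv (q := fun i : Fin (Nat.card D) => (i : ℕ) < k) fun d => by rw [he]),
      Nat.card_eq_fintype_card]
    exact Fintype.card_fin_lt_of_le hk
  refine ⟨{s | if κ s < κ (c * s) then ν s < n s else ¬ ν (c * s) < n (c * s)}, fun s => ?_,
    fun t => ?_⟩
  · simp only [Set.mem_ofPred_eq, ccs]
    have := k1 s
    by_cases h : κ s < κ (c * s)
    · rw [if_pos h, if_neg (by omega)]
    · rw [if_neg h, if_pos (by omega), not_not]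
  · simp only [Set.mem_ofPred_eq, cd, k2, h1 _ (Subtype.property _)]
    have h3 := h2 t
    by_cases h : κ t < κ (c * t)
    · simp only [if_pos h]
      exact cnt t _ (by omega)
    · simp only [if_neg h]
      have := Fintype.ofFinite D
      have h4 := cnt (c * t) (n (c * t)) (by omega)
      rw [Nat.card_eq_fintype_card] at h4 ⊢
      rw [Fintype.card_subtype_compl, h4, ← Nat.card_eq_fintype_card]
      omega

variable (R : ValuationSubring ℂ) (L : IntermediateField ℚ ℂ)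

/-- the valuation on `L` -/
def vL : Valuation L R.ValueGroup := R.valuation.comap (algebraMap L ℂ)

theorem vL_apply (z : L) : vL R L z = R.valuation (z : ℂ) := rfl

variable [FiniteDimensional ℚ L]

theorem nf : NumberField L := NumberField.of_module_finite ℚ L

/-- the decomposition group of `R` -/
def DR : Subgroup Gal(L/ℚ) := @Dc L _ _ (nf L) _ (vL R L)

variable {R L}

theorem mem_DR {s : Gal(L/ℚ)} : s ∈ DR R L ↔ ∀ z : L, (s z : ℂ) ∈ R ↔ (z : ℂ) ∈ R := by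
  simp only [← R.valuation_le_one_iff]
  rfl

theorem val_DR {d : Gal(L/ℚ)} (hd : d ∈ DR R L) (z : L) :
    R.valuation (d z : ℂ) = R.valuation (z : ℂ) :=
  @val_Dc L _ _ (nf L) _ (vL R L) d hd z

variable [IsGalois ℚ L] {c : Gal(L/ℚ)}

omit [FiniteDimensional ℚ L] in
theorem exists_gal (φ : L →+* ℂ) : ∃ s : Gal(L/ℚ), ∀ z, φ z = s z :=
  ⟨φ.toRatAlgHom.restrictNormal' L, fun z => (φ.toRatAlgHom.restrictNormal_commutes L z).symm⟩

omit [FiniteDimensional ℚ L] [IsGalois ℚ L] in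
theorem cc_one (hc : ∀ z, (c z : ℂ) = star (z : ℂ)) : c * c = 1 :=
  AlgEquiv.ext fun z => Subtype.ext (by rw [AlgEquiv.mul_apply, hc, hc, star_star]; rfl)

omit [FiniteDimensional ℚ L] [IsGalois ℚ L] in
theorem mul_conj (hs : ∀ s, s * c = c * s) {a : L} {q : ℕ} (h : a * c a = q) (t : Gal(L/ℚ)) :
    t a * c (t a) = q := by
  rw [← AlgEquiv.mul_apply, ← hs, AlgEquiv.mul_apply, ← map_mul, h, map_natCast]

/-- KRON -/
theorem kronL {p : ℕ} (hp : p.Prime) (hR : R.valuation p < 1)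
    (hc : ∀ z, (c z : ℂ) = star (z : ℂ)) (hs : ∀ s, s * c = c * s) {a b : L} (ha : IsIntegral ℤ a)
    (hb : IsIntegral ℤ b) {n : ℕ} (h1 : a * c a = (p ^ n : ℕ)) (h2 : b * c b = (p ^ n : ℕ))
    (hv : ∀ t : Gal(L/ℚ), R.valuation (t a : ℂ) = R.valuation (t b : ℂ)) :
    ∃ m : ℕ, m ≠ 0 ∧ a ^ m = b ^ m := by
  have := nf L
  have key : ∀ x : L, x * c x = (p ^ n : ℕ) → ∀ t : Gal(L/ℚ), ‖(t x : ℂ)‖ ^ 2 = (p ^ n : ℕ) := by
    intro x hx t
    have h3 := congrArg (fun y : L => ‖(y : ℂ)‖) (mul_conj hs hx t)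
    simpa [hc, sq] using h3
  refine kron (vL R L) hp (by simpa [vL_apply] using hR) ha
    (hb.map (c : L →+* L).toIntAlgHom) (n := n) (by simpa using h2) hv
    (fun h0 => hp.ne_zero (by simpa [h0, eq_comm] using h1 : _ ∧ _).1) fun φ => ?_
  obtain ⟨s, e⟩ := exists_gal φ
  rw [e, e]
  exact (pow_left_inj₀ (norm_nonneg _) (norm_nonneg _) two_ne_zero).1
    ((key a h1 s).trans (key b h2 s).symm)

/-- equal slopes: a power of `a` is a power of `b` -/
theorem match_pow {p : ℕ} (hp : p.Prime) (hR : R.valuation p < 1)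
    (hc : ∀ z, (c z : ℂ) = star (z : ℂ)) (hs : ∀ s, s * c = c * s) {a b : L} (ha : IsIntegral ℤ a)
    (hb : IsIntegral ℤ b) {n e q : ℕ} (hq : q = p ^ n) (h1 : a * c a = q)
    (h2 : b * c b = (q ^ e : ℕ)) {N : ℕ} (hN : N ≠ 0) (k : Gal(L/ℚ) → ℕ)
    (va : ∀ t : Gal(L/ℚ), R.valuation (t a : ℂ) ^ N = R.valuation q ^ k t)
    (vb : ∀ t : Gal(L/ℚ), R.valuation (t b : ℂ) ^ N = R.valuation (q ^ e : ℕ) ^ k t) :
    ∃ m : ℕ, m ≠ 0 ∧ (a ^ e) ^ m = b ^ m := by
  refine kronL hp hR hc hs (ha.pow e) hb (n := n * e) ?_ (by rw [h2, hq, pow_mul]) fun t => ?_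
  · rw [map_pow, ← mul_pow, h1, hq, pow_mul, Nat.cast_pow (p ^ n)]
  · refine (pow_left_inj₀ zero_le zero_le hN).1 ?_
    rw [vb, map_pow]
    push_cast
    rw [map_pow, map_pow, ← pow_mul, mul_comm e, pow_mul, va, ← pow_mul, ← pow_mul, mul_comm]

theorem cj_unit {m : ℕ} (hm : m ≠ 0) : Glue.Cj (X ^ m - 1) (X ^ (m - 1)) := by
  intro w hw
  simp only [map_sub, map_pow, aeval_X, map_one, sub_eq_zero] at hw ⊢
  have h1 : w * w ^ (m - 1) = 1 := by
    rw [← pow_succ', Nat.sub_add_cancel (Nat.pos_of_ne_zero hm), hw]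
  rw [← inv_eq_of_mul_eq_one_right h1, Complex.star_def,
    Complex.inv_eq_conj (Complex.norm_eq_one_of_pow_eq_one hw hm)]

/-- HONDA -/
theorem honda (R : ValuationSubring ℂ) {p n q : ℕ} (hp : p.Prime) (hn : n ≠ 0) (hq : q = p ^ n)
    (hR : R.valuation p < 1) (P : ℤ[X]) (hP : P.Monic)
    (hW : ∀ w : ℂ, aeval w P = 0 → w * star w = q)
    {ι : Type} [Fintype ι] (Q f : ι → ℚ[X]) (hQ : ∀ i, Q i ≠ 0) (hf : ∀ i, Glue.Cj (Q i) (f i)) :
    ∃ (L : IntermediateField ℚ ℂ) (_ : FiniteDimensional ℚ L) (_ : IsGalois ℚ L) (c : Gal(L/ℚ)),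
      (∀ z, (c z : ℂ) = star (z : ℂ)) ∧ (∀ s, s * c = c * s) ∧
      (∃ z : L, (z : ℂ) ∈ R ∧ (c z : ℂ) ∉ R) ∧ (∀ i w, aeval w (Q i) = 0 → w ∈ L) ∧
      (∀ w : ℂ, aeval w P = 0 → w ∈ L) ∧
      ∀ z : L, aeval (z : ℂ) P = 0 → ∃ Φ : Set Gal(L/ℚ), (∀ s, c * s ∈ Φ ↔ s ∉ Φ) ∧
        ∀ t : Gal(L/ℚ), R.valuation (t z : ℂ) ^ Nat.card (DR R L) =
          R.valuation q ^ Nat.card {d : DR R L // (d : Gal(L/ℚ)) * t ∈ Φ} := by
  classical
  have hq0 : (q : ℂ) ≠ 0 := by rw [hq]; exact_mod_cast pow_ne_zero n hp.ne_zero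
  have vq : R.valuation q = R.valuation p ^ n := by rw [hq, Nat.cast_pow, map_pow]
  have h0 : ∀ w : ℂ, aeval w P = 0 → w ≠ 0 := fun w hw h => hq0 (by rw [← hW w hw, h, zero_mul])
  have ex : ∀ w : ℂ, ∃ m : ℕ, m ≠ 0 ∧ (aeval w P = 0 →
      ∃ k : ℕ, R.valuation w ^ m = R.valuation q ^ k) := fun w => by
    by_cases hw : aeval w P = 0
    · obtain ⟨m, hm, k, e⟩ := val_slope R.valuation hp hR (h0 w hw) ⟨P, hP, hw⟩ hn
      exact ⟨m, hm, fun _ => ⟨k, vq ▸ e⟩⟩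
    · exact ⟨1, one_ne_zero, fun h => (hw h).elim⟩
  choose m hm hk using ex
  let N := ∏ w ∈ (P.aroots ℂ).toFinset, m w
  have hN : N ≠ 0 := Finset.prod_ne_zero_iff.2 fun w _ => hm w
  have hM : p ^ N - 1 ≠ 0 := Nat.sub_ne_zero_of_lt (Nat.one_lt_pow hN hp.one_lt)
  have hPQ : ∀ w : ℂ, aeval w (P.map (algebraMap ℤ ℚ)) = aeval w P := fun w =>
    aeval_map_algebraMap ℚ w P
  obtain ⟨f0, hf0⟩ := Glue.cj_of_norm (P := P.map (algebraMap ℤ ℚ)) (q := q) (fun h => by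
    refine h0 0 ?_ rfl
    rw [← hPQ, ← coeff_zero_eq_aeval_zero', h, map_zero]) fun w hw => by
      rw [hW w (hPQ w ▸ hw), Rat.cast_natCast]
  obtain ⟨L, h1, h2, c, hc, hs, hz, hL⟩ := Glue.exists_L R hp.ne_zero hR (ι := Option (Option ι))
    (fun o => o.elim (P.map (algebraMap ℤ ℚ)) fun o => o.elim (X ^ (p ^ N - 1) - 1) Q)
    (fun o => o.elim f0 fun o => o.elim (X ^ (p ^ N - 1 - 1)) f)
    (by
      rintro (_ | _ | i)
      · exact (hP.map _).ne_zero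
      · exact X_pow_sub_C_ne_zero (Nat.pos_of_ne_zero hM) 1
      · exact hQ i)
    (by
      rintro (_ | _ | i)
      · exact hf0
      · exact cj_unit hM
      · exact hf i)
  refine ⟨L, h1, h2, c, hc, hs, hz, fun i => hL (some (some i)),
    fun w hw => hL none w ((hPQ w).trans hw), fun z hz0 => ?_⟩
  have := nf L
  have hζ := Complex.isPrimitiveRoot_exp _ hM
  obtain ⟨u, hu⟩ : N ∣ Nat.card (DR R L) := dvd_card (vL R L) hp (by simpa [vL_apply] using hR) hN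
    (z := ⟨_, hL (some none) _ (by simp [hζ.pow_eq_one])⟩)
    (IsPrimitiveRoot.of_map_of_injective (f := algebraMap L ℂ) hζ (algebraMap L ℂ).injective)
  have rt : ∀ t : Gal(L/ℚ), aeval (t z : ℂ) P = 0 := fun t => by
    have e1 : ∀ y : L, aeval (y : ℂ) P = algebraMap L ℂ (aeval y P) := fun y =>
      aeval_algebraMap_apply ℂ y P
    rw [e1, map_eq_zero] at hz0 ⊢
    have e2 := aeval_algHom_apply (t : L →+* L).toIntAlgHom z P
    rw [hz0, map_zero] at e2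
    exact e2
  have ex : ∀ t : Gal(L/ℚ), ∃ k : ℕ, R.valuation (t z : ℂ) ^ Nat.card (DR R L) =
      R.valuation q ^ k := fun t => by
    obtain ⟨k, e⟩ := hk _ (rt t)
    obtain ⟨b, hb⟩ : m (t z) ∣ N := Finset.dvd_prod_of_mem _
      (Multiset.mem_toFinset.2 (mem_aroots.2 ⟨hP.ne_zero, rt t⟩))
    exact ⟨k * (b * u), by rw [hu, hb, mul_assoc, pow_mul, e, ← pow_mul]⟩
  choose k hk using ex
  have inj : ∀ a b : ℕ, R.valuation q ^ a = R.valuation q ^ b → a = b := fun a b =>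
    (pow_right_strictAnti₀ (zero_lt_iff.2 (by simpa using hq0))
      (vq ▸ pow_lt_one₀ zero_le hR hn)).injective.eq_iff.1
  obtain ⟨Φ, h3, h4⟩ := exists_type (DR R L) hs (cc_one hc) (fun h => by
      obtain ⟨y, h5, h6⟩ := hz
      exact h6 ((mem_DR.1 h y).2 h5)) k
    (fun d hd t => inj _ _ (by rw [← hk, ← hk, AlgEquiv.mul_apply, val_DR hd]))
    (fun t => inj _ _ (by
      rw [pow_add, ← hk, ← hk, ← mul_pow, ← map_mul, AlgEquiv.mul_apply, hc, hW _ (rt t)]))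
  exact ⟨Φ, h3, fun t => by rw [h4, hk]⟩

end Pool.Agent.Tav.Hon
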