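import Pool.Agent.P.MP_2ce3e7_ag.Tav.GrTypE
import Pool.Agent.P.MP_2ce3e7_ag.Tav.TiHon

/-! Indices and permutations for the model of a Weil polynomial. -/

set_option autoImplicit false

namespace Pool.Agent.Tav.HM

open Function Polynomial Typ

variable {L : IntermediateField ℚ ℂ} {c : Gal(L/ℚ)} {g : ℕ} {T : Type} {Ψ : T → Set Gal(L/ℚ)}
  {τ : Fin g → T} {φ : Fin g → Gal(L/ℚ)}

theorem hol_ES [FiniteDimensional ℚ L] [IsGalois ℚ L] (h : Idx c Ψ τ φ) {S : Set (Fin g → ℂ)}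
    (hS : S = ES τ φ) (hL : ∀ a ∈ S, ∀ i, a i ∈ L) (i : Fin g) (s : Gal(L/ℚ)) :
    (∃ i', ∀ a h, (s ⟨a i, hL a h i⟩ : ℂ) = a i') ↔ s * φ i ∈ Ψ (τ i) := by
  classical
  subst hS
  obtain ⟨θ, h1, h2⟩ := exists_prim L
  have key : ∀ (a) (ha : a ∈ ES τ φ) (b : T → L), (∀ i, a i = φ i (b (τ i))) →
      (⟨a i, hL a ha i⟩ : L) = φ i (b (τ i)) := fun a ha b hb => Subtype.ext (hb i)
  refine ⟨fun ⟨i', H⟩ => ?_, fun hs => ?_⟩
  · have h3 : τ i' = τ i := by
      by_contra hne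
      let b : T → L := fun t' => if t' = τ i then 1 else 0
      have hb : ∀ t, IsIntegral ℤ (b t) := fun t => by
        simp only [b]; split_ifs; exacts [isIntegral_one, isIntegral_zero]
      have ha : (fun i => (φ i (b (τ i)) : ℂ)) ∈ ES τ φ := ⟨b, hb, fun _ => rfl⟩
      have := H _ ha
      rw [key _ ha b fun _ => rfl] at this
      simp [b, hne] at this
    have ha : (fun i => (φ i θ : ℂ)) ∈ ES τ φ := ⟨fun _ => θ, fun _ => h1, fun _ => rfl⟩
    have := H _ ha
    rw [key _ ha (fun _ => θ) fun _ => rfl, ← AlgEquiv.mul_apply] at this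
    rw [h2 (Subtype.ext this), ← h3]
    exact h.mem i'
  · obtain ⟨i', h3, h4⟩ := h.all _ _ hs
    refine ⟨i', fun a ha => ?_⟩
    obtain ⟨b, hb, hb'⟩ := id ha
    rw [key a ha b hb', hb' i', h3, h4, AlgEquiv.mul_apply]

theorem exists_perm [Fintype T] (z : T → L) {P : ℤ[X]}
    (hP : P.map (Int.castRingHom ℂ) = ∏ t, (X - C (z t : ℂ))) (s : Gal(L/ℚ)) :
    ∃ e : T ≃ T, ∀ t, s (z (e t)) = z t := by
  classical
  have h1 : P.map (Int.castRingHom L) = ∏ t, (X - C (z t)) := by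
    refine map_injective (algebraMap L ℂ) (algebraMap L ℂ).injective ?_
    rw [Polynomial.map_map, Polynomial.map_prod,
      RingHom.ext_int ((algebraMap L ℂ).comp (Int.castRingHom L)) (Int.castRingHom ℂ), hP]
    simp
  have h2 : ∏ t, (X - C (z t)) = ∏ t, (X - C (s (z t))) := by
    have := congrArg (Polynomial.map (s : L →+* L)) h1
    rw [Polynomial.map_map, Polynomial.map_prod,
      RingHom.ext_int ((s : L →+* L).comp (Int.castRingHom L)) (Int.castRingHom L), h1] at this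
    simpa using this
  have h3 : ∀ y : T → L, (∏ t, (X - C (y t))).roots = Finset.univ.val.map y := fun y => by
    rw [← roots_multiset_prod_X_sub_C (Finset.univ.val.map y), Multiset.map_map]
    rfl
  have h4 : Finset.univ.val.map z = Finset.univ.val.map fun t => s (z t) := by
    rw [← h3, ← h3, h2]
  have h5 : ∀ (y : T → L) (w : L), Fintype.card {t // y t = w} =
      (Finset.univ.val.map y).count w := fun y w => by
    rw [Fintype.card_subtype, Multiset.count_map]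
    simp only [eq_comm (a := w)]
    rfl
  exact ⟨_, Equiv.ofFiberEquiv_map (f := z) (g := fun t => s (z t)) fun w =>
    Fintype.equivOfCardEq (by rw [h5, h5, h4])⟩

theorem exists_equiv [Fintype T] (h : Idx c Ψ τ φ) (hc : ∀ z, (c z : ℂ) = star (z : ℂ)) (z : T → L)
    {P : ℤ[X]} (hP : P.map (Int.castRingHom ℂ) = ∏ t, (X - C (z t : ℂ))) :
    ∃ e : (Σ _ : Gal(L/ℚ), T) ≃ Fin g ⊕ Fin g, ∀ x, Sum.elim (fun i => (φ i (z (τ i)) : ℂ))
      (fun i => star (φ i (z (τ i)) : ℂ)) (e x) = z x.2 := by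
  choose u hu using exists_perm z hP
  have hcc := Hon.cc_one hc
  let f : Fin g ⊕ Fin g → Σ _ : Gal(L/ℚ), T :=
    Sum.elim (fun i => ⟨φ i, τ i⟩) fun i => ⟨c * φ i, τ i⟩
  have hne : ∀ i j, τ i = τ j → φ i ≠ c * φ j := fun i j h5 h6 =>
    (h.typ _ _).1 (h6 ▸ h5 ▸ h.mem i) (h.mem j)
  have hf : Bijective f := by
    constructor
    · rintro (i | i) (j | j) e <;>
        have h5 := congrArg (fun x : Σ _ : Gal(L/ℚ), T => x.2) e <;>
        have h6 := congrArg Sigma.fst e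
      · rw [h.inj i j h5 h6]
      · exact absurd h6 (hne i j h5)
      · exact absurd h6.symm (hne j i h5.symm)
      · rw [h.inj i j h5 (mul_left_cancel h6)]
    · rintro ⟨s, t⟩
      by_cases hs : s ∈ Ψ t
      · obtain ⟨i, rfl, rfl⟩ := h.all t s hs
        exact ⟨.inl i, rfl⟩
      · obtain ⟨i, rfl, h2⟩ := h.all t _ ((h.typ t s).2 hs)
        refine ⟨.inr i, ?_⟩
        change (⟨c * φ i, τ i⟩ : Σ _ : Gal(L/ℚ), T) = _
        rw [h2, ← mul_assoc, hcc, one_mul]
  have key : ∀ y, Sum.elim (fun i => (φ i (z (τ i)) : ℂ)) (fun i => star (φ i (z (τ i)) : ℂ)) y =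
      (f y).1 (z (f y).2) := by
    rintro (i | i)
    · rfl
    · exact (hc _).symm
  refine ⟨(Equiv.sigmaCongrRight u).trans (Equiv.ofBijective f hf).symm, fun x => ?_⟩
  have h7 : f ((Equiv.ofBijective f hf).symm (Equiv.sigmaCongrRight u x)) =
      Equiv.sigmaCongrRight u x := (Equiv.ofBijective f hf).apply_symm_apply _
  rw [key, Equiv.trans_apply, h7]
  exact congrArg _ (hu x.1 x.2)

end Pool.Agent.Tav.HM
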