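import Pool.Agent.P.MP_2ce3e7_ag.Tav.KRank
import Pool.Agent.P.MP_2ce3e7_ag.Tav.AFib
import Pool.Agent.P.MP_2ce3e7_ag.Tav.PG

/-! The strong Tate conjecture on the isogenous group, from the special fibre. -/

set_option autoImplicit false
set_option linter.unusedSectionVars false
set_option linter.unusedVariables false

noncomputable section

namespace Pool.Agent.Tav.K0

open MvPolynomial Module Function

theorem pair_eq {Ω G τ : Type} [Field Ω] [AddCommGroup G] [Fintype τ] {p : G → τ → Ω}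
    (hp : ∀ y, p y ≠ 0) (n : ℕ) (Z W : Set G) :
    pair p n Z W = (n.factorial : ℚ)⁻¹ * pr (bs p hp) (LS.co p hp) n Z W := by
  let L : Fin 3 → LS Ω (Z × W) := ![(LS.co p hp).pb fun t => t.1.1, (LS.co p hp).pb fun t => t.2.1,
    (LS.co p hp).pb fun t => t.1.1 - t.2.1]
  let e : (Unit ⊕ Unit) ⊕ Unit → Fin 3 := Sum.elim (Sum.elim (fun _ => 0) fun _ => 1) fun _ => 2
  have he : Surjective e := by decide
  have h1 : fam (bs p hp) (LS.co p hp) Z W = L ∘ e := by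
    funext k
    rcases k with (k | k) | k
    · exact LS.pb_pb _ _ _
    · exact LS.pb_pb _ _ _
    · rfl
  have h2 : pair p n Z W = coeff (Finsupp.single 2 n) (pL L) := by
    rw [pair, hp_eq_pf, pL]
    congr 2
    funext i
    fin_cases i <;> simp only [L, LS.pb_co] <;> rfl
  rw [h2, pr, h1, nc_pL_comp L he, Finsupp.mapDomain_single, Pp.nc_single,
    inv_mul_cancel_left₀ (Nat.cast_ne_zero.2 n.factorial_ne_zero)]
  rfl

variable {k : Type} [Field k] [Fintype k] {G τ σ : Type} [AddCommGroup G] [Fintype τ] [Fintype σ]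
  {j j' : ℕ} {p : G → τ → AlgebraicClosure k} {F : G →+ G} {R : ValuationSubring ℂ}
  {r : R →+* AlgebraicClosure k} {X : Model r σ (j + j')} {ψ : G →+ X.B} {ψ' : X.B →+ G}
  {m : ℕ} {π : EnR X.Λ}

theorem core (hA : AV p (j + j')) (hi : ∀ y y', Par (p y) (p y') → y = y')
    (hF : ∀ y, Par (p (F y)) (p y ^ Fintype.card k)) (hr : Surjective r)
    (hψ : Mor p X.p ψ) (hψ' : Mor X.p p ψ') (ho : Surjective ψ') (hm : m ≠ 0)
    (hψψ : ∀ b, ψ (ψ' b) = m • b) (hπ : X.Eqv ψ F π.1) (hD : X.fB.Deg)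
    (hW : ∀ ρ, ‖chE X.Λ ρ π‖ ^ 2 = Fintype.card k)
    (hT : X.fB.TateAlg π (Fintype.card k)) : Tate p F (Fintype.card k) j j' := by
  have hq : 1 < Fintype.card k := Fintype.one_lt_card
  have hn : j + j' = Fintype.card (Fin (j + j')) := (Fintype.card_fin _).symm
  have hH : X.fB.H = bs X.p X.sp.ne := blk_unit' X.sp.ne
  have i : Iso (Fin (j + j')) (bs p hA.ne) (LS.co p hA.ne) X.fB.H ψ ψ' m := by
    rw [hH]
    exact ⟨hn ▸ hA.src, Reg.self (bs p hA.ne) (), hA.top, fun _ => hA.sub',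
      fun _ => Mor.reg hA.ne X.sp.ne hψ, fun _ => Mor.reg X.sp.ne hA.ne hψ', hm, hψψ⟩
  have s := frS hA.ne hi hF
  have hFr : IsFr (frE k) (bs p hA.ne) (bs p hA.ne) F :=
    isFr_co frE_apply hA.ne hA.ne s.bij.2 fun t => by
      obtain ⟨c, -, hc⟩ := hF t
      exact ⟨c, fun l => congrFun hc l⟩
  have e : ∀ y, ψ (F y) = π • ψ y := fun y => by
    obtain ⟨v, hv⟩ := X.onto (ψ y)
    rw [hπ y v hv.symm, X.red_smul, hv]
  have h0 : Det.nm (chE X.Λ) π ≠ 0 := Finset.prod_ne_zero_iff.2 fun ρ _ h => by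
    have := hW ρ
    rw [h, norm_zero, zero_pow two_ne_zero] at this
    exact (Nat.cast_ne_zero.2 (by omega : Fintype.card k ≠ 0)) this.symm
  have alg : ∀ S : Finset (Fin (j + j') ⊕ Fin (j + j')),
      ∏ ρ ∈ S, chE X.Λ ρ π = (Fintype.card k : ℂ) ^ j' →
        AlgP X.fB.H (X.fB.H ∘ X.sh.sl) (chE X.Λ) j j' S := fun S hS => by
    obtain ⟨a, b, h1, h2, Z, W, h3⟩ := hT S j' hS
    have h4 := Ze.card_of_prod (fun ρ => chE X.Λ ρ π) _ hq hW S j' hS
    have h5 := X.sh_n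
    obtain rfl : b = j' := by omega
    obtain rfl : a = j := by omega
    exact ⟨Z.T, W.T, Z.β, W.β, inferInstance, inferInstance, Z.B, W.B, Z.z, W.z, Z.src, W.src,
      Z.reg, W.reg, h3⟩
  obtain ⟨Z, z1, z2, z3⟩ := Ze.zeta (fun ρ => chE X.Λ ρ π) _ hq hW
    (fun n => (Nat.card (fixedPoints F^[n + 1]) : ℂ)) (fun n => by
      rw [Pp.count_G hF hr X hD hψ ho hm hψψ π.2 hπ n]
      refine Finset.prod_congr rfl fun ρ _ => ?_
      rcases ρ with ρ | ρ <;> rfl) j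
  refine ⟨Z, _, z1, z2, z3, ?_⟩
  refine i.rank (Fib.abS hD) X.sh.bas X.sh.inj hn frE_apply (by omega) hFr s e h0 alg
    Subtype.val Subtype.val (fun Z => ?_) (fun W => ?_) _
    (inv_ne_zero (Nat.cast_ne_zero.2 (j + j').factorial_ne_zero)) fun a b => pair_eq hA.ne _ _ _
  · rw [← dm_le_iff hA.ne]
    exact ⟨fun ⟨a, h⟩ => h ▸ a.2, fun h => ⟨⟨Z, h⟩, rfl⟩⟩
  · rw [← dm_le_iff hA.ne]
    exact ⟨fun ⟨a, h⟩ => h ▸ a.2, fun h => ⟨⟨W, h⟩, rfl⟩⟩

end Pool.Agent.Tav.K0
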