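import Pool.Agent.P.MP_2ce3e7_ag.Tav.Ord
import Pool.Agent.P.MP_2ce3e7_ag.Tav.KCore

/-! The layer over the finite field. -/

set_option autoImplicit false
set_option linter.unusedVariables false

noncomputable section

namespace Pool.Agent.Tav

open MvPolynomial Module Function

theorem frobF (k : Type) [Field k] [Fintype k] {e : ℕ} (he : e ≠ 0) :
    FrobF (AlgebraicClosure k) (Fintype.card k ^ e) := by
  refine ⟨Nat.one_lt_pow he Fintype.one_lt_card, ?_, ⟨K0.frE k ^ e, fun c => ?_⟩, fun c => ?_⟩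
  · rw [Nat.cast_pow, ← map_natCast (algebraMap k (AlgebraicClosure k)),
      FiniteField.cast_card_eq_zero, map_zero, zero_pow he]
  · clear he
    induction e with
    | zero => simp
    | succ e ih => rw [pow_succ', RingAut.mul_apply, ih, K0.frE_apply, ← pow_mul, pow_succ]
  · obtain ⟨m, hm, h⟩ := Pp.exists_fix c
    refine ⟨m, hm, ?_⟩
    rw [← pow_mul, mul_comm, pow_mul]
    clear he
    induction e with
    | zero => simp
    | succ e ih => rw [pow_succ, pow_mul, ih, h]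

variable {k : Type} [Field k] [Fintype k] {G τ σ : Type} [AddCommGroup G] [Fintype τ] [Fintype σ]
  {j j' : ℕ} {p : G → τ → AlgebraicClosure k} {F : G →+ G} {R : ValuationSubring ℂ}
  {r : R →+* AlgebraicClosure k} {X : Model r σ (j + j')} {ψ : G →+ X.B} {ψ' : X.B →+ G}
  {m : ℕ} {π : EnR X.Λ}

theorem k_frob (hA : AV p (j + j')) (hF : ∀ y, Par (p (F y)) (p y ^ Fintype.card k))
    (hψ : Mor p X.p ψ) (hm : m ≠ 0) (hψψ : ∀ b, ψ (ψ' b) = m • b) (hπ : X.Eqv ψ F π.1) :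
    ∃ N ≠ 0, X.fB.Frob (π ^ N) (Fintype.card k ^ N) := by
  obtain ⟨N, hN, h⟩ := Pp.lf_of_eqv hF X hψ (Pp.psi_onto X hm hψψ) hπ
  exact ⟨N, hN, X.frob_of_lf h⟩

theorem k_main (hA : AV p (j + j')) (hi : ∀ y y', Par (p y) (p y') → y = y')
    (hF : ∀ y, Par (p (F y)) (p y ^ Fintype.card k)) (hr : Surjective r)
    (hψ : Mor p X.p ψ) (hψ' : Mor X.p p ψ') (ho : Surjective ψ') (hm : m ≠ 0)
    (hψψ : ∀ b, ψ (ψ' b) = m • b) (hπ : X.Eqv ψ F π.1)
    (hT : X.fB.TateAlg π (Fintype.card k)) : Tate p F (Fintype.card k) j j' := by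
  obtain ⟨N, hN, h⟩ := k_frob hA hF hψ hm hψψ hπ
  exact K0.core hA hi hF hr hψ hψ' ho hm hψψ hπ (X.deg hr) (X.weil hr hN (frobF k hN) h) hT

end Pool.Agent.Tav
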