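import Pool.Agent.P.MP_2ce3e7_ag.Tav.TiHon

/-! The fields of `Glue.exists_L` and `Hon.honda` with a primitive cube root of unity. -/

set_option autoImplicit false

noncomputable section

namespace Pool.Agent.Tav.Hon

open Polynomial

theorem exists_om {L : IntermediateField ℚ ℂ}
    (h : ∀ w : ℂ, aeval w (X ^ 3 - 1 : ℚ[X]) = 0 → w ∈ L) : ∃ om : L, om ^ 2 + om + 1 = 0 := by
  have hζ := Complex.isPrimitiveRoot_exp 3 three_ne_zero
  refine ⟨⟨_, h _ (by simpa [sub_eq_zero] using hζ.pow_eq_one)⟩, Subtype.ext ?_⟩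
  have h1 := hζ.geom_sum_eq_zero (by norm_num)
  simp only [Finset.sum_range_succ, Finset.range_zero, Finset.sum_empty] at h1
  push_cast at h1 ⊢
  linear_combination h1

theorem exists_L_om (R : ValuationSubring ℂ) {p : ℕ} (hp : p ≠ 0) (hR : R.valuation p < 1)
    {ι : Type} [Fintype ι] (P f : ι → ℚ[X]) (hP : ∀ i, P i ≠ 0) (hf : ∀ i, Glue.Cj (P i) (f i)) :
    ∃ (L : IntermediateField ℚ ℂ) (_ : FiniteDimensional ℚ L) (_ : IsGalois ℚ L) (c : Gal(L/ℚ)),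
      (∀ z, (c z : ℂ) = star (z : ℂ)) ∧ (∀ s, s * c = c * s) ∧
      (∃ z : L, (z : ℂ) ∈ R ∧ (c z : ℂ) ∉ R) ∧ (∃ om : L, om ^ 2 + om + 1 = 0) ∧
      ∀ i w, aeval w (P i) = 0 → w ∈ L := by
  obtain ⟨L, h1, h2, c, h3, h4, h5, h6⟩ := Glue.exists_L R hp hR (ι := Option ι)
    (fun o => o.elim (X ^ 3 - 1) P) (fun o => o.elim (X ^ (3 - 1)) f)
    (by
      rintro (_ | i)
      · exact X_pow_sub_C_ne_zero three_pos 1
      · exact hP i)
    (by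
      rintro (_ | i)
      · exact cj_unit three_ne_zero
      · exact hf i)
  exact ⟨L, h1, h2, c, h3, h4, h5, exists_om (h6 none), fun i => h6 (some i)⟩

theorem honda_om (R : ValuationSubring ℂ) {p n q : ℕ} (hp : p.Prime) (hn : n ≠ 0) (hq : q = p ^ n)
    (hR : R.valuation p < 1) (P : ℤ[X]) (hP : P.Monic)
    (hW : ∀ w : ℂ, aeval w P = 0 → w * star w = q) :
    ∃ (L : IntermediateField ℚ ℂ) (_ : FiniteDimensional ℚ L) (_ : IsGalois ℚ L) (c : Gal(L/ℚ)),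
      (∀ z, (c z : ℂ) = star (z : ℂ)) ∧ (∀ s, s * c = c * s) ∧
      (∃ z : L, (z : ℂ) ∈ R ∧ (c z : ℂ) ∉ R) ∧ (∃ om : L, om ^ 2 + om + 1 = 0) ∧
      (∀ w : ℂ, aeval w P = 0 → w ∈ L) ∧
      ∀ z : L, aeval (z : ℂ) P = 0 → ∃ Φ : Set Gal(L/ℚ), (∀ s, c * s ∈ Φ ↔ s ∉ Φ) ∧
        ∀ t : Gal(L/ℚ), R.valuation (t z : ℂ) ^ Nat.card (DR R L) =
          R.valuation q ^ Nat.card {d : DR R L // (d : Gal(L/ℚ)) * t ∈ Φ} := by
  obtain ⟨L, h1, h2, c, h3, h4, h5, h6, h7⟩ := honda R hp hn hq hR P hP hW (ι := Unit)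
    (fun _ => X ^ 3 - 1) (fun _ => X ^ (3 - 1)) (fun _ => X_pow_sub_C_ne_zero three_pos 1)
    fun _ => cj_unit three_ne_zero
  exact ⟨L, h1, h2, c, h3, h4, h5, exists_om (h6 ()), h7⟩

end Pool.Agent.Tav.Hon
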