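import Pool.Agent.P.MP_2ce3e7_ag.Tav.FMain

/-! The formula of Shimura and Taniyama, and the family form of the assembly. -/

set_option autoImplicit false

noncomputable section

namespace Pool.Agent.Tav

open MvPolynomial Module Function

section Abs

variable {X I : Type*}

theorem fam_of_list {c : X → X} {ty : I → X → ℤ} {Fu : I → Prop}
    (full : ∀ f, IsTy c f → ∃ i, Fu i ∧ ty i = f) (L : List (X → ℤ)) (hL : ∀ f ∈ L, IsTy c f) :
    ∃ T : Fin L.length → I, (∀ k, Fu (T k) ∧ ∃ f ∈ L, ∀ x, ty (T k) x = - f x) ∧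
      ∀ x, ∑ k, ty (T k) x = - (L.map fun f => f x).sum := by
  choose T h1 h2 using fun k : Fin L.length => full _ (hL _ (List.get_mem L k)).neg
  refine ⟨T, fun k => ⟨h1 k, _, List.get_mem L k, fun x => by rw [h2]⟩, fun x => ?_⟩
  simp only [h2, Finset.sum_neg_distrib, List.get_eq_getElem]
  rw [Fin.sum_univ_fun_getElem L fun f => f x]

/-- the formula in abstract form -/
theorem st_fam {D : Type} [Group D] [MulAction D X] [Fintype D] {A : Type} [AddCommGroup A]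
    (c : X → X) (hcc : ∀ x, c (c x) = x)
    (hcD : ∀ (σ : D) x, c (σ • x) = σ • c x) (hne : ∀ (σ : D) x, σ • x ≠ c x)
    (n : I → ℕ) (ty : I → X → ℤ) (Fu Gd : I → Prop) (AF : FamP I) (Iso : I → I → Prop)
    (hodd : ∀ i x, ty i (c x) = - ty i x)
    (hwt : ∀ i x, ∃ a b : ℕ, a + b = n i ∧ ty i x = a - b)
    (hFu : ∀ i, Fu i → n i = 1) (hG : ∀ i, Fu i → Gd i)
    (full : ∀ f, IsTy c f → ∃ i, Fu i ∧ ty i = f)
    (hodge : ∀ (ι : Type) [Fintype ι] [DecidableEq ι] (it : ι → I),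
      (∀ x, ∑ k, ty (it k) x = 0) → AF ι it)
    (trans : ∀ (ι : Type) [Fintype ι] [DecidableEq ι] (it it' : ι → I),
      (∀ k, Iso (it k) (it' k)) → AF ι it → AF ι it')
    (refl : ∀ i, Iso i i)
    (twist : ∀ i, Fu i → ∀ σ : D, ∃ j, (∀ x, ty j x = ty i (σ • x)) ∧ Iso j i)
    (val : I → X → A) (w : A)
    (hval : ∀ (ι : Type) [Fintype ι] [DecidableEq ι] (it : ι → I), (∀ k, Gd (it k)) →
      AF ι it → ∀ x, (2 : ℤ) • ∑ k, val (it k) x = ((∑ k, n (it k) : ℕ) : ℤ) • w)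
    (hst : ∀ i, Fu i → (∀ (σ : D) x, ty i (σ • x) = ty i x) →
      ∀ x, ty i x = -1 → val i x = 0)
    (i : I) (hi : Gd i) (x : X) : (2 * Fintype.card D : ℤ) • val i x =
      ((Fintype.card D : ℤ) * n i + ∑ σ : D, ty i (σ • x)) • w := by
  classical
  have hty : ∀ i, Fu i → IsTy c (ty i) := by
    intro i hi
    refine ⟨fun x => ?_, hodd i⟩
    obtain ⟨a, b, hab, h⟩ := hwt i x
    rw [hFu i hi] at hab
    omega
  have S0 : ∀ i, Fu i → (∀ (σ : D) x, ty i (σ • x) = ty i x) → ∀ x,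
      (2 : ℤ) • val i x = (1 + ty i x) • w := by
    intro i hi hs x
    rcases (hty i hi).1 x with h | h
    · obtain ⟨j, hj, htj⟩ := full _ (hty i hi).neg
      have h1 := hval Bool (fun b => cond b i j) (by simp [hG i hi, hG j hj])
        (hodge _ _ fun x => by simp [htj]) x
      have h2 := hst j hj (fun σ x => by simp [htj, hs]) x (by simp [htj, h])
      simp only [Fintype.sum_bool, cond_true, cond_false, h2, hFu i hi, hFu j hj, add_zero] at h1
      rw [h1, h]; norm_num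
    · rw [hst i hi hs x h, h]; simp
  have S1 : ∀ i, Fu i → ∀ x, (2 * Fintype.card D : ℤ) • val i x =
      ((Fintype.card D : ℤ) + ∑ σ : D, ty i (σ • x)) • w := by
    intro i hi x
    obtain ⟨L, hL, hL2, hL3⟩ := stable_sum (D := D) c hcc hcD hne (Fintype.card D * n i)
      (fun x => ∑ σ : D, ty i (σ • x))
      (fun x => by simp only [← hcD, hodd, Finset.sum_neg_distrib])
      (fun τ x => by
        simp only [← mul_smul]
        exact Fintype.sum_equiv (Equiv.mulRight τ) _ _ (fun σ => rfl))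
      (exists_trace_weight _ _ (hwt i))
    obtain ⟨T, hT1, hT2⟩ := fam_of_list full L fun f hf => (hL2 f hf).1
    choose J hJ hJ' using twist i hi
    have ha := trans (D ⊕ Fin L.length) (Sum.elim J T) (Sum.elim (fun _ => i) T)
      (by rintro (k | k); exacts [hJ' k, refl _])
      (hodge _ _ fun x => by simp [Fintype.sum_sum_type, hJ, hT2, hL3])
    have hv := hval _ _ (by rintro (k | k); exacts [hG i hi, hG _ (hT1 k).1]) ha x
    have k1 : (2 : ℤ) • ∑ k, val (T k) x = ∑ k, (1 + ty (T k) x) • w := by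
      rw [Finset.smul_sum]
      refine Finset.sum_congr rfl fun k _ => S0 _ (hT1 k).1 (fun σ y => ?_) x
      obtain ⟨f, hf, e⟩ := (hT1 k).2
      rw [e, e, (hL2 f hf).2]
    rw [← Finset.sum_smul, Finset.sum_add_distrib, hT2, hL3] at k1
    simp only [Fintype.sum_sum_type, Sum.elim_inl, Sum.elim_inr, fun k => hFu _ (hT1 k).1,
      Finset.sum_const, Finset.card_univ, Fintype.card_fin, smul_eq_mul, hFu i hi, mul_one,
      nsmul_eq_mul] at hv k1 hL
    push_cast at hv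
    rw [congrArg (Nat.cast (R := ℤ)) hL] at hv k1
    rw [← natCast_zsmul] at hv
    linear_combination (norm := module) hv - k1
  obtain ⟨L, hL, hL2, hL3⟩ := ty_sum c hcc (fun x => by simpa using hne 1 x) (n i) (ty i)
    (hodd i) (hwt i)
  obtain ⟨T, hT1, hT2⟩ := fam_of_list full L hL2
  have hv := hval (Option (Fin L.length)) (fun o => o.elim i T)
    (by rintro (_ | k); exacts [hi, hG _ (hT1 k).1])
    (hodge _ _ fun x => by simp [Fintype.sum_option, hT2, hL3]) x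
  have h2 := Finset.sum_congr (s₁ := Finset.univ) rfl fun k _ => S1 _ (hT1 k).1 x
  rw [← Finset.smul_sum, ← Finset.sum_smul, Finset.sum_add_distrib, Finset.sum_comm] at h2
  simp only [Fintype.sum_option, Option.elim, fun k => hFu _ (hT1 k).1, hT2, hL3,
    Finset.sum_const, Finset.card_univ, Fintype.card_fin, smul_eq_mul, mul_one, nsmul_eq_mul,
    Finset.sum_neg_distrib] at hv h2
  push_cast at hv
  rw [congrArg (Nat.cast (R := ℤ)) hL] at hv h2
  linear_combination (norm := module) (Fintype.card D : ℤ) • hv - h2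

end Abs

variable {Ω : Type} [Field Ω] {R : ValuationSubring ℂ} {r : R →+* Ω} {L : IntermediateField ℚ ℂ}

theorem lgv_eq {z w : ℂ} (hz : z ≠ 0) (hw : w ≠ 0) {a b : ℕ}
    (h : (2 * a : ℤ) • lgv R z = (2 * b : ℤ) • lgv R w) :
    R.valuation z ^ a = R.valuation w ^ b := by
  have h1 := (lgv_tf (R := R) 2 (a • lgv R z - b • lgv R w) (by
    rw [smul_sub, ← natCast_zsmul, ← natCast_zsmul, ← mul_smul, ← mul_smul, h,
      sub_self])).resolve_left two_ne_zero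
  rw [sub_eq_zero, ← lgv_pow hz, ← lgv_pow hw, lgv, lgv, dif_neg (pow_ne_zero _ hz),
    dif_neg (pow_ne_zero _ hw)] at h1
  simpa [Units.ext_iff] using h1

namespace It

variable [IsAlgClosed Ω]

/-- a family of singletons realising all types, closed under twists up to isogeny -/
structure Uni (c : Gal(L/ℚ)) (Q : ℕ) (Fu : It r L → Prop) : Prop where
  one : ∀ i, Fu i → i.S.card = 1 ∧ i.B.Frob i.π Q
  full : ∀ f, IsTy (c * ·) f → ∃ i, Fu i ∧ i.ty = f
  twist : ∀ i, Fu i → ∀ u ∈ dec R L, ∃ j : It r L, (∀ t, j.ty t = i.ty (u * t)) ∧ Iso j i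
  st : ∀ i, Fu i → (∀ u ∈ dec R L, ∀ t, i.ty (u * t) = i.ty t) → ∀ t, i.ty t = -1 → i.val t = 0

omit [IsAlgClosed Ω] in
theorem frob_pi {ι : Type} [Fintype ι] [DecidableEq ι] (it : ι → It r L) {Q : ℕ}
    (h : ∀ k, (it k).B.Frob (it k).π Q) :
    (Fib.pi fun k => (it k).B).Frob (fun k => (it k).π) Q := by
  intro y
  choose c hc hc' using fun k => h k (y k)
  exact ⟨fun b => c b.1 b.2, fun b => hc _ _, fun l => hc' l.1 l.2⟩

/-- the product of items -/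
def pi {ι : Type} [Fintype ι] [DecidableEq ι] (it : ι → It r L) : It r L where
  s := Sh.pi fun k => (it k).s
  B := Fib.pi fun k => (it k).B
  Φ := Finset.univ.sigma fun k => (it k).Φ
  cm := pi_cm it
  hL ρ a := (it ρ.1).hL _ _
  bar := by
    rintro ⟨k, ρ⟩ ⟨k', ρ'⟩ h
    have key : ∀ a : ∀ k, (it k).s.Λ, (it k').s.χ ρ' (a k') = star ((it k).s.χ ρ (a k)) := h
    obtain rfl : k = k' := by
      by_contra e
      have := key (Pi.single k 1)
      rw [Pi.single_eq_same, Pi.single_eq_of_ne (Ne.symm e), map_one, map_zero, star_one] at this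
      exact zero_ne_one this
    exact (mem_sg.trans ((it k).bar _ _ fun a => by simpa using key (Pi.single k a))).trans
      (not_congr mem_sg.symm)
  π k := (it k).π
  S := Finset.univ.sigma fun k => (it k).S

variable [FiniteDimensional ℚ L] [IsGalois ℚ L] {c : Gal(L/ℚ)} {Fu : It r L → Prop} {Q : ℕ}

open Classical in
theorem Uni.sum (U : Uni c Q Fu) (hr : Surjective r) (hQ : FrobF Ω Q)
    (hc : ∀ z, (c z : ℂ) = star (z : ℂ)) (hcc : ∀ s, s * c = c * s) (hz : c ∉ dec R L)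
    (i : It r L) (hi : i.B.Frob i.π Q) (t : Gal(L/ℚ)) :
    (2 * Fintype.card (dec R L) : ℤ) • i.val t =
      ((Fintype.card (dec R L) : ℤ) * i.S.card + ∑ u : dec R L, i.ty (u * t)) • lgv R Q := by
  have hc2 : c * c = 1 := AlgEquiv.ext fun z => Subtype.ext (by
    rw [AlgEquiv.mul_apply, hc, hc, star_star]; rfl)
  exact st_fam (X := Gal(L/ℚ)) (D := dec R L) (I := It r L) (c * ·)
    (fun x => by simp only [← mul_assoc, hc2, one_mul])
    (fun u x => by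
      change c * (u.1 * x) = u.1 * (c * x)
      rw [← mul_assoc, ← hcc, mul_assoc])
    (fun u x h => hz ((mul_right_cancel h : u.1 = c) ▸ u.2))
    (fun i : It r L => i.S.card) ty Fu (fun i => i.B.Frob i.π Q) (fun ι _ _ it => AF ι it) Iso
    (fun i => i.ty_odd hc) ty_wt (fun i h => (U.one _ h).1) (fun i h => (U.one _ h).2) U.full
    (fun ι _ _ it h => hodge hr _ h) (fun ι _ _ it it' h h' => trans hr _ _ h h') iso_refl
    (fun i hi u => U.twist i hi u.1 u.2) val (lgv R Q)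
    (fun ι _ _ it h h' t => hval hr hQ _ h h' t)
    (fun i hi hs => U.st i hi fun u hu => hs ⟨u, hu⟩) i hi t

/-- the formula of Shimura and Taniyama for an item -/
theorem Uni.val (U : Uni c Q Fu) (hr : Surjective r) (hQ : FrobF Ω Q)
    (hc : ∀ z, (c z : ℂ) = star (z : ℂ)) (hcc : ∀ s, s * c = c * s) (hz : c ∉ dec R L)
    (i : It r L) (hi : i.B.Frob i.π Q) (ρ : i.s.Γ) (h0 : i.s.χ ρ i.π ≠ 0) (t : Gal(L/ℚ)) :
    R.valuation (t ⟨i.s.χ ρ i.π, i.hL ρ _⟩ : ℂ) ^ Nat.card (dec R L) =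
      R.valuation (Q : ℂ) ^ Nat.card {d : dec R L // Sh.Hol i.hL i.Φ (d * t) ρ} := by
  classical
  have h1 := U.sum hr hQ hc hcc hz (i.st {ρ}) hi t
  refine lgv_eq (fun h => h0 ?_) (Nat.cast_ne_zero.2 (by have := hQ.1; omega)) ?_
  · have h2 : t ⟨i.s.χ ρ i.π, i.hL ρ _⟩ = 0 := Subtype.ext h
    exact congrArg Subtype.val ((map_eq_zero t).1 h2)
  · simp only [It.val, ty, Finset.sum_singleton, Finset.card_singleton] at h1
    simp only [Finset.sum_ite, Finset.sum_const] at h1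
    rw [Nat.card_eq_fintype_card, Nat.card_eq_fintype_card,
      Fintype.card_subtype fun d : dec R L => Sh.Hol i.hL i.Φ (d * t) ρ]
    refine h1.trans (congrArg (· • lgv R Q) ?_)
    have h3 := Finset.card_filter_add_card_filter_not (s := (Finset.univ : Finset (dec R L)))
      fun d => Sh.Hol i.hL i.Φ (d * t) ρ
    rw [Finset.card_univ] at h3
    simp only [nsmul_eq_mul]
    omega

end It

variable [IsAlgClosed Ω] {σ σ' : Type} [Fintype σ] [Fintype σ'] {g g' : ℕ}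
  [FiniteDimensional ℚ L] [IsGalois ℚ L] {c : Gal(L/ℚ)} {q : ℕ}

omit [IsAlgClosed Ω] in
theorem val_nat_iff (hr : Surjective r) (n : ℕ) : R.valuation (n : ℂ) = 1 ↔ (n : Ω) ≠ 0 := by
  rw [← map_natCast r, PD.r_ne_zero hr, R.valuation_eq_one_iff]
  simp

/-- a universal model gives a universal family of items -/
theorem Model.Univ.uni {Y : Model r σ' g'} {hL : ∀ a ∈ En Y.Λ, ∀ i, a i ∈ L}
    (hU : Y.Univ q L c hL) (hr : Surjective r) (hQ : ∀ e ≠ 0, FrobF Ω (q ^ e))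
    (hc : ∀ z, (c z : ℂ) = star (z : ℂ)) (hcc : ∀ s, s * c = c * s)
    (hz : ∃ z : L, (z : ℂ) ∈ R ∧ (c z : ℂ) ∉ R) :
    ∃ e ≠ 0, ∀ N ≠ 0, ∃ Fu : It r L → Prop, It.Uni c (q ^ (N * e)) Fu := by
  classical
  obtain ⟨z, -, hz'⟩ := hz
  obtain ⟨a, ha, e, he, hF⟩ := hU.frob
  obtain ⟨n₀, hn₀, hmax⟩ := hU.max
  refine ⟨e, he, fun N hN => ?_⟩
  have hQ' := hQ (N * e) (mul_ne_zero hN he)
  have h := Y.inL hL hc
  have hY : Y.fB.Frob ((⟨a, ha⟩ : EnR Y.Λ) ^ N) (q ^ (N * e)) := by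
    rw [mul_comm, pow_mul]
    refine Fib.Frob.pow (fun t => ?_) N
    obtain ⟨v, rfl⟩ := Y.onto t
    have h1 := Par.bPar.1 (hF v)
    rw [Y.red_smul ⟨a, ha⟩ v] at h1
    exact h1
  have hu : ∀ ρ : Fin g' ⊕ Fin g', ∃ (i : Fin g') (u : Gal(L/ℚ)), ∀ b : EnR Y.Λ,
      (⟨Y.sh.χ ρ b, h ρ b⟩ : L) = u ⟨b.1 i, hL _ b.2 i⟩ := by
    rintro (i | i)
    · exact ⟨i, 1, fun b => rfl⟩
    · exact ⟨i, c, fun b => Subtype.ext (hc ⟨b.1 i, hL _ b.2 i⟩).symm⟩
  have hall : ∀ f, IsTy (c * ·) f → f 1 = 1 → ∃ i : Fin g', ∀ t,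
      Sh.Hol h (inlS g') t (.inl i) ↔ f t = 1 := by
    intro f hf h1
    obtain ⟨i, hi⟩ := hU.all {s | f s = 1} h1 fun s => by
      have h2 : f (c * s) = - f s := hf.2 s
      have h3 := hf.1 s
      change f (c * s) = 1 ↔ ¬ f s = 1
      omega
    refine ⟨i, fun t => ?_⟩
    rw [Y.hol_iff hL h (i := i) (u := 1) (fun _ => rfl), mul_one]
    exact (hi t).symm
  refine ⟨fun i => ∃ ρ, i = Y.it hr h (⟨a, ha⟩ ^ N) {ρ}, ?_, ?_, ?_, ?_⟩
  · rintro _ ⟨ρ, rfl⟩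
    exact ⟨rfl, hY⟩
  · intro f hf
    rcases hf.1 1 with h1 | h1
    · obtain ⟨i, hi⟩ := hall f hf h1
      refine ⟨_, ⟨.inl i, rfl⟩, funext fun t => ?_⟩
      rw [Y.ty_one, hi]
      have := hf.1 t
      split_ifs <;> omega
    · obtain ⟨i, hi⟩ := hall _ hf.neg (by simp [h1])
      refine ⟨_, ⟨.inr i, rfl⟩, funext fun t => ?_⟩
      rw [Y.ty_one, Y.hol_iff hL h (ρ := .inr i) (i := i) (u := c)
        (fun b => Subtype.ext (hc ⟨b.1 i, hL _ b.2 i⟩).symm), hcc, ← mul_one (c * t),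
        ← Y.hol_iff hL h (ρ := .inl i) (i := i) (u := 1) (fun _ => rfl), hi]
      have h2 : f (c * t) = - f t := hf.2 t
      have := hf.1 t
      split_ifs <;> omega
  · rintro _ ⟨ρ, rfl⟩ u hu
    obtain ⟨Y', f, h', h1, h2⟩ := hU.tw hc hcc h u⁻¹ ((It.dec R L).inv_mem hu)
    refine ⟨Y'.it hr h' 0 {f.symm ρ}, fun t => ?_, f, h1, ?_⟩
    · rw [Y.ty_one, Y'.ty_one, h2, inv_inv, f.apply_symm_apply]
    · change ({ρ} : Finset _) = Finset.map f.toEmbedding {f.symm ρ}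
      simp
  · rintro _ ⟨ρ, rfl⟩ hs t ht
    obtain ⟨i, u, hiu⟩ := hu ρ
    obtain ⟨fr, hfr⟩ := hQ'.2.2.1
    simp only [Y.ty_one, Y.hol_iff hL h hiu] at hs ht
    have h1 := FO.unit_of_disc Y hL ((val_nat_iff hr n₀).2 hn₀) hmax
      (fun a ha h1 v hv hav => PD.disc_unit_inj Y hr hU.sm ha h1 hv hav) ⟨c z, hz'⟩
      (Q := q ^ (N * e)) (by rw [← funext hfr]; exact fr.injective)
      ((⟨a, ha⟩ : EnR Y.Λ) ^ N).2 (fun v => by
        rw [Y.red_smul]
        exact Par.bPar.2 (hY (Y.red v))) i (fun s hs' t' ht' => by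
        have h2 := hs s hs' (t' * u⁻¹)
        rw [mul_assoc, inv_mul_cancel_right, if_pos ht'] at h2
        by_contra hn
        rw [if_neg hn] at h2
        omega) (t * u) (fun h2 => by rw [if_pos h2] at ht; omega)
    refine (Finset.sum_singleton _ _).trans ?_
    change lgv R (t ⟨Y.sh.χ ρ ((⟨a, ha⟩ : EnR Y.Λ) ^ N), h ρ _⟩ : L) = 0
    rw [hiu]
    refine (lgv_eq_zero fun h0 => ?_).2 h1
    rw [AlgEquiv.mul_apply, h0, map_zero] at h1
    exact zero_ne_one h1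

section
variable {Y : Model r σ' g'} {hL : ∀ a ∈ En Y.Λ, ∀ i, a i ∈ L}
  (hU : Y.Univ q L c hL) (hr : Surjective r) (hQ : ∀ e ≠ 0, FrobF Ω (q ^ e))
  (hc : ∀ z, (c z : ℂ) = star (z : ℂ)) (hcc : ∀ s, s * c = c * s)
  (hz : ∃ z : L, (z : ℂ) ∈ R ∧ (c z : ℂ) ∉ R)

include hU hr hQ hc hcc hz

/-- ST for items -/
theorem Model.Univ.st_it (i : It r L) {N : ℕ} (hN : N ≠ 0) (hi : i.B.Frob i.π (q ^ N))
    (ρ : i.s.Γ) (h0 : i.s.χ ρ i.π ≠ 0) (t : Gal(L/ℚ)) :
    R.valuation (t ⟨i.s.χ ρ i.π, i.hL ρ _⟩ : ℂ) ^ Nat.card (It.dec R L) =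
      R.valuation ((q ^ N : ℕ) : ℂ) ^ Nat.card {d : It.dec R L // Sh.Hol i.hL i.Φ (d * t) ρ} := by
  obtain ⟨e, he, h⟩ := hU.uni hr hQ hc hcc hz
  obtain ⟨Fu, U⟩ := h N hN
  obtain ⟨z, h1, h2⟩ := hz
  have h3 := U.val hr (hQ _ (mul_ne_zero hN he)) hc hcc (fun h => h2 ((h z).2 h1))
    { i with π := i.π ^ e } (by rw [pow_mul]; exact hi.pow e) ρ
    (by change i.s.χ ρ (i.π ^ e) ≠ 0; rw [map_pow]; exact pow_ne_zero _ h0) t
  have h4 : (⟨i.s.χ ρ (i.π ^ e), i.hL ρ _⟩ : L) = ⟨i.s.χ ρ i.π, i.hL ρ _⟩ ^ e :=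
    Subtype.ext (map_pow _ _ _)
  change R.valuation (t ⟨i.s.χ ρ (i.π ^ e), i.hL ρ _⟩ : ℂ) ^ _ = _ ^
    Nat.card {d : It.dec R L // Sh.Hol i.hL i.Φ (d * t) ρ} at h3
  refine (pow_left_inj₀ zero_le zero_le he).1 ?_
  rw [h4, map_pow, pow_mul, Nat.cast_pow (q ^ N), IntermediateField.coe_pow, map_pow,
    map_pow] at h3
  rw [pow_right_comm, h3, pow_right_comm]

/-- ST for models -/
theorem Model.Univ.st (X : Model r σ g) (hX : ∀ a ∈ En X.Λ, ∀ i, a i ∈ L) (π : EnR X.Λ) {N : ℕ}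
    (hN : N ≠ 0) (hπ : X.fB.Frob π (q ^ N)) {D : Subgroup Gal(L/ℚ)}
    (hD : ∀ s, s ∈ D ↔ ∀ z : L, (s z : ℂ) ∈ R ↔ (z : ℂ) ∈ R) (i : Fin g) (t : Gal(L/ℚ)) :
    R.valuation (t ⟨π.1 i, hX _ π.2 i⟩ : ℂ) ^ Nat.card D =
      R.valuation ((q ^ N : ℕ) : ℂ) ^ Nat.card {d : D // FO.Hol hX (d * t) i} := by
  obtain rfl : D = It.dec R L := Subgroup.ext hD
  have h := X.inL hX hc
  have h0 := X.weil hr (N := 1) one_ne_zero (q := q ^ N) (π := π) (by simpa using hQ N hN)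
    (by simpa using hπ) (.inl i)
  have h1 := hU.st_it hr hQ hc hcc hz (X.it hr h π ∅) hN hπ (.inl i) (fun h2 => by
    have h3 := (hQ N hN).1
    change X.sh.χ (.inl i) π = 0 at h2
    rw [h2] at h0
    simp only [norm_zero] at h0
    have : ((q ^ N : ℕ) : ℝ) = 0 := by rw [← h0]; simp
    have := Nat.cast_eq_zero.1 this
    omega) t
  refine h1.trans (congrArg _ (Nat.card_congr (Equiv.subtypeEquivRight fun d => ?_)))
  exact (X.hol_iff hX h (ρ := .inl i) (i := i) (u := 1) (fun _ => rfl) _).trans (by rw [mul_one])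

/-- Tate classes on an item are algebraic -/
theorem Model.Univ.alg (i : It r L) {π : i.s.Λ} {N : ℕ} (hN : N ≠ 0)
    (hi : i.B.Frob (π ^ N) (q ^ N)) {S : Finset i.s.Γ} {j m : ℕ} (hm : m ≠ 0) (hS : S.card = 2 * j)
    (h : (∏ ρ ∈ S, i.s.χ ρ π) ^ m = ((q : ℂ) ^ j) ^ m) : i.B.AlgS S := by
  obtain ⟨e, he, h1⟩ := hU.uni hr hQ hc hcc hz
  obtain ⟨Fu, U⟩ := h1 N hN
  obtain ⟨z, h1, h2⟩ := hz
  have hQ' := hQ _ (mul_ne_zero hN he)
  refine It.main hr hQ' (fun h1 => (val_nat_iff hr _).1 h1 hQ'.2.1) hc hcc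
    (fun h => h2 ((h z).2 h1)) Fu U.one U.full U.twist U.st
    { i with π := π ^ (N * e), S := S } (by rw [pow_mul, pow_mul]; exact hi.pow e) hm hS ?_
  change (∏ ρ ∈ S, i.s.χ ρ (π ^ (N * e))) ^ m = _
  simp only [map_pow, Finset.prod_pow]
  rw [pow_right_comm, h]
  push_cast
  ring

/-- the family form -/
theorem Model.Univ.alg_pi {ι : Type} [Fintype ι] [DecidableEq ι] (it : ι → It r L) {N : ℕ}
    (hN : N ≠ 0) (hi : ∀ k, (it k).B.Frob ((it k).π ^ N) (q ^ N))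
    {S : Finset (Σ k, (it k).s.Γ)} {j m : ℕ} (hm : m ≠ 0) (hS : S.card = 2 * j)
    (h : (∏ ρ ∈ S, (it ρ.1).s.χ ρ.2 (it ρ.1).π) ^ m = ((q : ℂ) ^ j) ^ m) :
    (Fib.pi fun k => (it k).B).AlgS S :=
  hU.alg hr hQ hc hcc hz (It.pi it) (π := fun k => (it k).π) hN
    (It.frob_pi (fun k => { it k with π := (it k).π ^ N }) hi) hm hS h

end

end Pool.Agent.Tav
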