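import Pool.Agent.P.MP_2ce3e7_ag.Tav.GrHMA
import Pool.Agent.P.MP_2ce3e7_ag.Tav.TiHonOm
import Pool.Agent.P.MP_2ce3e7_ag.Tav.TiST
import Pool.Agent.P.MP_2ce3e7_ag.Tav.KMain

/-! The model of a Weil polynomial, from models for lists of types. -/

set_option autoImplicit false

noncomputable section

namespace Pool.Agent.Tav.HM

open Function Polynomial Typ

variable {Ω : Type} [Field Ω] {R : ValuationSubring ℂ}

/-- every finite list of types of `L` has a model with maximal ring and a Frobenius lift -/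
def Lst (r : R →+* Ω) (q : ℕ) (L : IntermediateField ℚ ℂ) (c : Gal(L/ℚ)) : Prop :=
  ∀ (T : Type) [Finite T] (Ψ : T → Set Gal(L/ℚ)), (∀ t s, c * s ∈ Ψ t ↔ s ∉ Ψ t) →
    ∀ (g : ℕ) (e : Fin g ≃ Σ t, Ψ t), ∃ (σ : Type) (_ : Fintype σ) (X : Model r σ g),
      En X.Λ = ES (fun i => (e i).1) (fun i => (e i).2.1) ∧
      ∃ a ∈ En X.Λ, ∃ n ≠ 0, ∀ v, Par (X.p (X.red (a * v))) (X.p (X.red v) ^ q ^ n)

/-- `L` has a universal model -/
def Unv (r : R →+* Ω) (q : ℕ) (L : IntermediateField ℚ ℂ) (c : Gal(L/ℚ)) : Prop :=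
  ∃ (σ : Type) (_ : Fintype σ) (g : ℕ) (Y : Model r σ g) (hL : _), Y.Univ q L c hL

/-- the conclusion -/
def Out [IsAlgClosed Ω] (r : R →+* Ω) (q : ℕ) {Γ : Type} (α : Γ → ℂ) : Prop :=
  ∃ (σ : Type) (_ : Fintype σ) (g : ℕ) (X : Model r σ g) (π : EnR X.Λ) (ι : Type) (_ : Fintype ι)
    (_ : Nonempty ι) (e : (Σ _ : ι, Γ) ≃ Fin g ⊕ Fin g), (∀ x, chE X.Λ (e x) π = α x.2) ∧
    X.Full q ∧ ∃ N ≠ 0, X.fB.Frob (π ^ N) (q ^ N)

theorem val_lt {p : ℕ} [CharP Ω p] (r : R →+* Ω) : R.valuation p < 1 := by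
  have h : ¬ IsUnit (p : R) := fun h => by
    have := h.map r
    rw [map_natCast, CharP.cast_eq_zero] at this
    exact not_isUnit_zero this
  have h2 := R.valuation_eq_one_iff (p : R)
  have h3 := R.valuation_le_one (p : R)
  simp only [SubringClass.coe_natCast] at h2 h3
  exact lt_of_le_of_ne h3 fun e => h (h2.2 e)

theorem hm_of (k : Type) [Field k] [Fintype k] {r : R →+* AlgebraicClosure k} (hr : Surjective r)
    (H : ∀ (L : IntermediateField ℚ ℂ) [FiniteDimensional ℚ L] [IsGalois ℚ L] (c : Gal(L/ℚ)),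
      (∀ z, (c z : ℂ) = star (z : ℂ)) → (∀ s, s * c = c * s) →
      (∃ z : L, (z : ℂ) ∈ R ∧ (c z : ℂ) ∉ R) → (∃ om : L, om ^ 2 + om + 1 = 0) →
      Lst r (Fintype.card k) L c ∧ Unv r (Fintype.card k) L c)
    {Γ : Type} [Fintype Γ] (α : Γ → ℂ) (P : ℤ[X])
    (hP : P.map (Int.castRingHom ℂ) = ∏ ρ, (X - C (α ρ)))
    (hα : ∀ ρ, ‖α ρ‖ ^ 2 = Fintype.card k) : Out r (Fintype.card k) α := by
  classical
  obtain ⟨p, hp⟩ := CharP.exists k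
  obtain ⟨n, hp', hq⟩ := FiniteField.card k p
  have hv : R.valuation p < 1 := val_lt r
  have hm : P.Monic := monic_of_injective (f := Int.castRingHom ℂ) Int.cast_injective
    (hP ▸ monic_prod_of_monic _ _ fun _ _ => monic_X_sub_C _)
  have hroot : ∀ w : ℂ, aeval w P = 0 ↔ ∃ ρ, w = α ρ := fun w => by
    rw [aeval_def, eval₂_eq_eval_map, algebraMap_int_eq, hP, eval_prod, Finset.prod_eq_zero_iff]
    simp [sub_eq_zero]
  have hn : ∀ (w : ℂ) (m : ℕ), ‖w‖ ^ 2 = m → w * star w = m := fun w m h => by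
    rw [Complex.star_def, Complex.mul_conj, Complex.normSq_eq_norm_sq, h, Complex.ofReal_natCast]
  obtain ⟨L, _, _, c, hc, hcc, hz, hom, hL, hΦ⟩ := Hon.honda_om R hp' n.ne_zero hq hv P hm
    fun w hw => by
      obtain ⟨ρ, rfl⟩ := (hroot w).1 hw
      exact hn _ _ (hα ρ)
  obtain ⟨hl, hu⟩ := H L c hc hcc hz hom
  let z : Γ → L := fun ρ => ⟨α ρ, hL _ ((hroot _).2 ⟨ρ, rfl⟩)⟩
  choose Φ hΦ1 hΦ2 using fun ρ => hΦ (z ρ) ((hroot _).2 ⟨ρ, rfl⟩)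
  let e := (Finite.equivFin (Σ ρ, Φ ρ)).symm
  obtain ⟨σ, _, X, hX, a, ha, N, hN, hF⟩ := hl Γ Φ hΦ1 _ e
  have hI := idx_equiv hΦ1 e
  generalize (fun i => (e i).1) = τ, (fun i => (e i).2.1) = φ at hX hI
  have hzi : ∀ ρ, IsIntegral ℤ (z ρ) := fun ρ => int_of_coe 1 ⟨P, hm, (hroot _).2 ⟨ρ, rfl⟩⟩
  have hπ : (fun i => (φ i (z (τ i)) : ℂ)) ∈ En X.Λ := hX ▸ ⟨z, hzi, fun _ => rfl⟩
  have hXL : ∀ a ∈ En X.Λ, ∀ i, a i ∈ L := fun a h => ES_L (hX ▸ h)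
  obtain ⟨u, hu'⟩ := exists_equiv hI hc z hP
  have hF' : X.fB.Frob (⟨a, ha⟩ : EnR X.Λ) (Fintype.card k ^ N) := X.frob_of_lf hF
  obtain ⟨b, hb, hab⟩ : a ∈ ES τ φ := hX ▸ ha
  have key : ∀ ρ, ∃ m : ℕ, m ≠ 0 ∧ (z ρ ^ N) ^ m = b ρ ^ m := fun ρ => by
    obtain ⟨i, rfl⟩ : ∃ i, τ i = ρ := by
      by_cases h1 : 1 ∈ Φ ρ
      · exact (hI.all ρ _ h1).imp fun _ h => h.1
      · exact (hI.all ρ _ ((hΦ1 ρ 1).2 h1)).imp fun _ h => h.1
    have h2 : (⟨a i, hXL a ha i⟩ : L) = φ i (b (τ i)) := Subtype.ext (hab i)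
    refine Hon.match_pow hp' hv hc hcc (hzi _) (hb _) hq (Subtype.ext ?_) ?_ Nat.card_pos.ne' _
      (hΦ2 _) fun t => ?_
    · push_cast
      rw [hc]
      exact hn _ _ (hα _)
    · have h3 := X.weil hr (q := Fintype.card k ^ N) one_ne_zero
        (by rw [pow_one]; exact frobF k hN) (π := ⟨a, ha⟩) (by rwa [pow_one, pow_one]) (.inl i)
      have h4 : φ i (b (τ i)) * c (φ i (b (τ i))) = (Fintype.card k ^ N : ℕ) := Subtype.ext (by
        push_cast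
        rw [hc, ← hab]
        exact_mod_cast hn _ _ h3)
      simpa [← AlgEquiv.mul_apply] using Hon.mul_conj hcc h4 (φ i)⁻¹
    · obtain ⟨σ', _, g', Y, hL', hU⟩ := hu
      have h5 := hU.st hr (fun _ h => frobF k h) hc hcc hz X hXL ⟨a, ha⟩ hN hF'
        (fun _ => Hon.mem_DR) i (t * (φ i)⁻¹)
      simp only [h2, FO.Hol, hol_ES hI hX hXL, ← AlgEquiv.mul_apply, mul_assoc, inv_mul_cancel,
        mul_one] at h5
      exact h5
  choose m hm0 hm1 using key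
  have hM : ∏ ρ, m ρ ≠ 0 := Finset.prod_ne_zero_iff.2 fun ρ _ => hm0 ρ
  refine ⟨σ, inferInstance, _, X, ⟨_, hπ⟩, Gal(L/ℚ), inferInstance, ⟨1⟩, u, fun x => ?_,
    ⟨L, inferInstance, inferInstance, c, hc, hcc, hz, hXL, hu⟩, N * ∏ ρ, m ρ, mul_ne_zero hN hM, ?_⟩
  · refine Eq.trans ?_ (hu' x)
    rcases u x with i | i <;> rfl
  · have h6 : (⟨_, hπ⟩ : EnR X.Λ) ^ (N * ∏ ρ, m ρ) = (⟨a, ha⟩ : EnR X.Λ) ^ ∏ ρ, m ρ := by
      refine Subtype.ext (funext fun i => ?_)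
      obtain ⟨d, hd⟩ := Finset.dvd_prod_of_mem m (Finset.mem_univ (τ i))
      change (φ i (z (τ i)) : ℂ) ^ _ = a i ^ _
      rw [hab, hd, pow_mul, pow_mul, pow_mul]
      have h7 := congrArg (φ i) (hm1 (τ i))
      simp only [map_pow] at h7
      exact_mod_cast congrArg (· ^ d) h7
    rw [h6, pow_mul]
    exact hF'.pow _

end Pool.Agent.Tav.HM
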