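import Pool.Agent.P.MP_2ce3e7_ag.Tav.GrPw

/-! The Riemann relation as an integral expansion along the Hadamard matrix. -/

set_option autoImplicit false

open Complex Matrix
open scoped Real ComplexConjugate

namespace Pool.Agent.Tav.Gd

open Pool.Agent.Cmh

noncomputable section

variable {ι : Type*} [Fintype ι] [DecidableEq ι]

/-- half the Hadamard matrix -/
def hd : Matrix (Fin 4) (Fin 4) ℂ :=
  (2⁻¹ : ℂ) • !![1, 1, 1, 1; 1, 1, -1, -1; 1, -1, 1, -1; 1, -1, -1, 1]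

/-- the Hadamard matrix acting on four copies -/
def TT (ι : Type*) [DecidableEq ι] : Matrix (Σ _ : Fin 4, ι) (Σ _ : Fin 4, ι) ℂ :=
  fun s t => if s.2 = t.2 then hd s.1 t.1 else 0

/-- four vectors as one -/
def v4 (a b c d : ι → ℂ) : (Σ _ : Fin 4, ι) → ℂ := mkv fun k => ![a, b, c, d] k

lemma cp_TT (z : (Σ _ : Fin 4, ι) → ℂ) (k : Fin 4) :
    cp (TT ι *ᵥ z) k = ∑ j, hd k j • cp z j := by
  ext i
  simp [cp, TT, mulVec, dotProduct, Fintype.sum_sigma]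

omit [Fintype ι] [DecidableEq ι] in
lemma eq_v4 (z : (Σ _ : Fin 4, ι) → ℂ) : z = v4 (cp z 0) (cp z 1) (cp z 2) (cp z 3) := by
  ext ⟨k, i⟩
  fin_cases k <;> rfl

lemma TT_v4 (a b c d : ι → ℂ) : TT ι *ᵥ v4 a b c d =
    v4 ((2⁻¹ : ℂ) • (a + b + c + d)) ((2⁻¹ : ℂ) • (a + b - c - d))
      ((2⁻¹ : ℂ) • (a - b + c - d)) ((2⁻¹ : ℂ) • (a - b - c + d)) := by
  ext ⟨k, i⟩
  have := congrFun (cp_TT (v4 a b c d) k) i
  rw [show (TT ι *ᵥ v4 a b c d) ⟨k, i⟩ = _ from this]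
  fin_cases k <;> simp [hd, v4, mkv, Fin.sum_univ_four] <;> ring

lemma TT_TT (z : (Σ _ : Fin 4, ι) → ℂ) : TT ι *ᵥ (TT ι *ᵥ z) = z := by
  rw [eq_v4 z, TT_v4, TT_v4]
  congr 1 <;> ext i <;> simp <;> ring

omit [Fintype ι] in
lemma TT_ct : (TT ι)ᴴ = TT ι := by
  ext ⟨k, i⟩ ⟨j, i'⟩
  have : ∀ k j, star (hd j k) = hd k j := by
    intro k j
    fin_cases k <;> fin_cases j <;> simp [hd]
  by_cases h : i = i'
  · simp [TT, h, this]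
  · simp [TT, h, Ne.symm h]

lemma TT_uni : IsUni (TT ι) := by
  have : TT ι * TT ι = 1 := by
    apply Matrix.toLin'.injective
    ext1 s
    ext1
    simp only [LinearMap.comp_apply, toLin'_apply, ← mulVec_mulVec, TT_TT, one_mulVec]
  exact ⟨by rw [TT_ct, this], by rw [TT_ct, this]⟩

variable {Λ : Submodule ℤ (ι → ℂ)} {f : (ι → ℂ) → ℂ}

omit [DecidableEq ι] in
lemma U_v4 (a b c d x y z w : ι → ℂ) : U (v4 a b c d) (tp fun _ => f) (v4 x y z w) =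
    U a f x * U b f y * U c f z * U d f w := by
  rw [U_tp, tp, Fin.prod_univ_four]; rfl

omit [Fintype ι] [DecidableEq ι] in
lemma v4_mem {a b c d : ι → ℂ} :
    v4 a b c d ∈ pl (fun _ => Λ) ↔ a ∈ Λ ∧ b ∈ Λ ∧ c ∈ Λ ∧ d ∈ Λ := by
  refine ⟨fun h => ⟨h 0, h 1, h 2, h 3⟩, fun ⟨h0, h1, h2, h3⟩ k => ?_⟩
  fin_cases k
  exacts [h0, h1, h2, h3]

omit [Fintype ι] [DecidableEq ι] in
lemma v4_add (a b c d x y z w : ι → ℂ) :
    v4 a b c d + v4 x y z w = v4 (a + x) (b + y) (c + z) (d + w) := by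
  ext ⟨k, i⟩
  fin_cases k <;> rfl

omit [Fintype ι] [DecidableEq ι] in
lemma v4_zero : v4 (0 : ι → ℂ) 0 0 0 = 0 := by
  ext ⟨k, i⟩
  fin_cases k <;> rfl

omit [Fintype ι] [DecidableEq ι] in
lemma two_half (x : ι → ℂ) : 2 • (2⁻¹ : ℂ) • x = x := by ext i; simp

omit [Fintype ι] [DecidableEq ι] in
lemma mem_eq {x y : ι → ℂ} (h : y ∈ Λ) (e : x = y) : x ∈ Λ := e ▸ h

lemma two_TT {z : (Σ _ : Fin 4, ι) → ℂ} (hz : z ∈ pl fun _ => Λ) :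
    2 • TT ι *ᵥ z ∈ pl fun _ => Λ := by
  have h0 := hz 0
  have h1 := hz 1
  have h2 := hz 2
  have h3 := hz 3
  rw [eq_v4 z, TT_v4]
  intro k
  fin_cases k
  exacts [mem_eq (add_mem (add_mem (add_mem h0 h1) h2) h3) (two_half _),
    mem_eq (sub_mem (sub_mem (add_mem h0 h1) h2) h3) (two_half _),
    mem_eq (sub_mem (add_mem (sub_mem h0 h1) h2) h3) (two_half _),
    mem_eq (add_mem (sub_mem (sub_mem h0 h1) h2) h3) (two_half _)]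

lemma mem_sup_TT {D : Submodule ℤ (ι → ℂ)} {x : (Σ _ : Fin 4, ι) → ℂ}
    (hx : x ∈ (pl fun _ => D) ⊔ mp (TT ι) (pl fun _ => D)) :
    ∃ κ, 2 • κ ∈ D ∧ ∀ k, cp x k - κ ∈ D := by
  obtain ⟨a, ha, b, hb, rfl⟩ := Submodule.mem_sup.1 hx
  obtain ⟨z, hz, rfl⟩ := mem_mp.1 hb
  have h0 := hz 0
  have h1 := hz 1
  have h2 := hz 2
  have h3 := hz 3
  refine ⟨(2⁻¹ : ℂ) • (cp z 0 + cp z 1 + cp z 2 + cp z 3), ?_, fun k => ?_⟩
  · rw [two_half]; exact add_mem (add_mem (add_mem h0 h1) h2) h3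
  · rw [cp_add, add_sub_assoc]
    refine add_mem (ha k) ?_
    nth_rewrite 1 [eq_v4 z]
    rw [TT_v4]
    fin_cases k
    · exact mem_eq (zero_mem _) (sub_self _)
    · exact mem_eq (neg_mem (add_mem h2 h3)) (by ext i; simp [v4]; ring)
    · exact mem_eq (neg_mem (add_mem h1 h3)) (by ext i; simp [v4]; ring)
    · exact mem_eq (neg_mem (add_mem h1 h2)) (by ext i; simp [v4]; ring)

omit [DecidableEq ι] in
lemma exists_QQ_ne (hΛ : IsLat Λ) {g : (ι → ℂ) → ℂ} (hg : Continuous g) (h0 : g ≠ 0) :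
    ∃ a ∈ QQ Λ, g a ≠ 0 := by
  by_contra h
  push Not at h
  exact h0 (Continuous.ext_on hΛ.dense_QQ hg continuous_zero h)

omit [DecidableEq ι] in
lemma U_zero_ne {a : ι → ℂ} (h : f a ≠ 0) : U a f 0 ≠ 0 := by
  rw [U_apply, zero_add]; exact mul_ne_zero (exp_ne_zero _) h

/-- the elements with `n x ∈ M` -/
def dv (n : ℕ) (M : Submodule ℤ (ι → ℂ)) : Submodule ℤ (ι → ℂ) where
  carrier := {x | n • x ∈ M}
  zero_mem' := by simp
  add_mem' := fun {a b} h h' => by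
    show n • (a + b) ∈ M
    rw [smul_add]; exact M.add_mem h h'
  smul_mem' := fun c x h => by
    show n • c • x ∈ M
    rw [smul_comm]; exact M.smul_mem c h

omit [Fintype ι] [DecidableEq ι] in
lemma mem_dv {n : ℕ} {x : ι → ℂ} : x ∈ dv n Λ ↔ n • x ∈ Λ := Iff.rfl

omit [Fintype ι] [DecidableEq ι] in
lemma le_dv (n : ℕ) : Λ ≤ dv n Λ := fun _ h => nsmul_mem h n

variable {Γ : Type*} [LinearOrderedCommGroupWithZero Γ] {v : Valuation ℂ Γ}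

omit [DecidableEq ι] in
lemma Un.exists_n (h : Un v Λ) : ∃ n : ℕ, n ≠ 0 ∧ ∀ x ∈ du Λ, n • x ∈ Λ := by
  obtain ⟨n, hn, h⟩ := h.2
  exact ⟨n, fun e => by simp [e] at hn, h⟩

omit [DecidableEq ι] in
lemma Un.dv_QQ (h : Un v Λ) {k : ℕ} (hk : k ≠ 0) : dv k (du Λ) ≤ QQ Λ := fun x hx => by
  obtain ⟨n, hn, h⟩ := h.exists_n
  exact ⟨n * k, mul_ne_zero hn hk, by rw [mul_smul]; exact h _ hx⟩

omit [DecidableEq ι] in
lemma Un.lat_dv (h : Un v Λ) {k : ℕ} (hk : k ≠ 0) : IsLat (dv k (du Λ)) := by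
  obtain ⟨n, hn, h'⟩ := h.exists_n
  exact isLat_of h.1.1 (h.1.le_du.trans (le_dv k)) (mul_ne_zero hn hk) fun y hy => by
    rw [mul_smul]; exact h' _ hy

/-- HAD: the Riemann relation -/
theorem had (hΛ : Un v Λ) (h2 : v 2 = 1) (hf : f ∈ Th Λ) :
    ∃ (m : ℕ) (l : Fin m → (Σ _ : Fin 4, ι) → ℂ) (c : Fin m → ℂ),
      (∀ a, ∃ κ, 2 • κ ∈ du Λ ∧ ∀ k, cp (l a) k - κ ∈ du Λ) ∧ (∀ a, v (c a) ≤ 1) ∧
      pb (TT ι) (tp fun _ => f) = ∑ a, c a • U (l a) (tp fun _ => f) := by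
  by_cases h0 : f = 0
  · refine ⟨0, Fin.elim0, Fin.elim0, fun a => a.elim0, fun a => a.elim0, ?_⟩
    ext z
    simp [h0, pb_apply, tp]
  obtain ⟨a0, ⟨n, hn, ha0⟩, h0⟩ := exists_QQ_ne hΛ.1.1 hf.1.continuous h0
  have hM : Un v (pl fun _ : Fin 4 => Λ) := un_pl fun _ => hΛ
  have hF : (tp fun _ => f) ∈ Th (pl fun _ : Fin 4 => Λ) := tp_mem fun _ => hf
  obtain ⟨N, hN, hN'⟩ := hM.exists_n
  set M := pl fun _ : Fin 4 => Λ with hMe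
  let Y := dv n (du M ⊔ mp (TT ι) (du M))
  have hY : ∀ y ∈ Y, (N * 2 * n) • y ∈ M := fun y hy => by
    obtain ⟨a, ha, b, hb, e⟩ := Submodule.mem_sup.1 hy
    obtain ⟨z, hz, rfl⟩ := mem_mp.1 hb
    rw [mul_smul, ← e, mul_smul, smul_add]
    refine hN' _ (add_mem (nsmul_mem ha 2) ?_)
    rw [hMe, du_pl] at hz ⊢
    exact two_TT hz
  have hne : N * 2 * n ≠ 0 := by positivity
  have hle : du M ≤ Y := le_sup_left.trans (le_dv n)
  have hYQ : Y ≤ QQ M := fun y hy => ⟨_, hne, hY y hy⟩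
  obtain ⟨w, hw, hmax⟩ := exists_max hM.1.1 (isLat_of hM.1.1 (hM.1.le_du.trans hle) hne hY)
    (hM.1.le_du.trans hle) (fun y => v (U y (tp fun _ => f) 0))
    fun y hy m hm => val_per hM.1 hF (hYQ hy) hm 0
  have h1 : ∀ x ∈ M, 2 • TT ι *ᵥ x ∈ M := fun x hx => two_TT hx
  obtain ⟨m, l, c, hl, hc, e⟩ := lin hM TT_uni (n := 2) (by simpa using h2) h1
    (by rw [TT_ct]; exact h1) hF Y hYQ hle (by rw [TT_ct]; exact le_sup_right.trans (le_dv n))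
    (fun y hy => by
      obtain ⟨a, ha, b, hb, e⟩ := Submodule.mem_sup.1 hy
      obtain ⟨z, hz, rfl⟩ := mem_mp.1 hb
      rw [mem_dv, ← mulVec_smul, ← e, mulVec_add, TT_TT]
      exact add_mem (Submodule.mem_sup_right (mem_mp.2 ⟨a, ha, rfl⟩)) (Submodule.mem_sup_left hz))
    hw hmax (by
      intro e
      have := hmax (v4 a0 a0 a0 a0) (Submodule.mem_sup_left (hM.1.le_du fun k => by
        fin_cases k <;> exact ha0))
      rw [e, ← v4_zero, U_v4, map_zero, le_zero_iff, map_eq_zero] at this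
      have h3 := U_zero_ne h0
      simp [h3] at this)
  refine ⟨m, l, c, fun a => mem_sup_TT ?_, hc, e⟩
  have := hl a
  rwa [TT_ct, hMe, du_pl] at this

omit [DecidableEq ι] in
lemma two_of {D : Submodule ℤ (ι → ℂ)} {x κ : ι → ℂ} (hκ : 2 • κ ∈ D) (h : x - κ ∈ D) :
    2 • x ∈ D := by
  have := add_mem (nsmul_mem h 2) hκ
  rwa [← smul_add, sub_add_cancel] at this

lemma TT_QQ {b : (Σ _ : Fin 4, ι) → ℂ} (hb : ∀ k, cp b k ∈ QQ Λ) (k : Fin 4) :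
    cp (TT ι *ᵥ b) k ∈ QQ Λ := by
  obtain ⟨n, hn, h⟩ := two_TT (Λ := QQ Λ) hb k
  exact ⟨n * 2, by omega, by rw [mul_smul]; exact h⟩

/-- the Riemann relation for translates, as an identity of functions of `y` -/
theorem had_exp (hΛ : Un v Λ) (h2 : v 2 = 1) (hf : f ∈ Th Λ) {b : (Σ _ : Fin 4, ι) → ℂ}
    (hb : ∀ k, cp b k ∈ QQ Λ) :
    ∃ (m : ℕ) (l : Fin m → (Σ _ : Fin 4, ι) → ℂ) (c : Fin m → ℂ),
      (∀ a, ∃ κ, 2 • κ ∈ du Λ ∧ ∀ k, cp (l a) k - κ ∈ du Λ) ∧ (∀ a k, 2 • cp (l a) k ∈ du Λ) ∧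
      (∀ a, v (c a) ≤ 1) ∧ ∀ y, ∏ k, U (cp b k) f (cp y k) =
        ∑ a, c a * ∏ k, U (cp (TT ι *ᵥ b) k + cp (l a) k) f (cp (TT ι *ᵥ y) k) := by
  obtain ⟨m, l, c, hl, hc, e⟩ := had hΛ h2 hf
  have h3 : ∀ a k, 2 • cp (l a) k ∈ du Λ := fun a k => by
    obtain ⟨κ, hκ, hκ'⟩ := hl a
    exact two_of hκ (hκ' k)
  refine ⟨m, l, fun a => c a * ph (l a) (TT ι *ᵥ b), hl, h3, fun a => ?_, fun y => ?_⟩
  · rw [map_mul, val_ph v (ev_pl fun _ => hΛ.1)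
      (mem_QQ_pl.2 fun k => hΛ.dv_QQ two_ne_zero (h3 a k)) (mem_QQ_pl.2 (TT_QQ hb)), mul_one]
    exact hc a
  · have e1 : ∏ k, U (cp b k) f (cp y k) = U b (tp fun _ => f) y := by rw [U_tp, tp]
    rw [e1, ← TT_TT b, ← TT_TT y, ← pb_apply (TT ι) (U _ _) (TT ι *ᵥ y), ← U_pb TT_uni, e,
      map_sum, Finset.sum_apply, TT_TT b, TT_TT y]
    refine Finset.sum_congr rfl fun a _ => ?_
    rw [map_smul, U_U', smul_smul, Pi.smul_apply, smul_eq_mul, U_tp, tp]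
    rfl

/-- the Riemann relation as an inequality -/
theorem had_le (hΛ : Un v Λ) (h2 : v 2 = 1) (hf : f ∈ Th Λ) {a : (Σ _ : Fin 4, ι) → ℂ}
    (ha : ∀ k, cp a k ∈ QQ Λ) (z : (Σ _ : Fin 4, ι) → ℂ) {γ : Γ}
    (h : ∀ κ : Fin 4 → ι → ℂ, (∀ k, 2 • κ k ∈ du Λ) →
      ∏ k, v (U (cp a k + κ k) f (cp z k)) ≤ γ) :
    v (U (TT ι *ᵥ a) (tp fun _ => f) (TT ι *ᵥ z)) ≤ γ := by
  obtain ⟨m, l, c, hl, hc, e⟩ := had hΛ h2 hf
  rw [← pb_apply (TT ι) (U _ _) z, ← U_pb TT_uni, e, map_sum, Finset.sum_apply]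
  refine v.map_sum_le fun j _ => ?_
  obtain ⟨κ, hκ, hκ'⟩ := hl j
  have h3 : ∀ k, 2 • cp (l j) k ∈ du Λ := fun k => two_of hκ (hκ' k)
  rw [map_smul, Pi.smul_apply, smul_eq_mul, map_mul,
    val_UU (ev_pl fun _ => hΛ.1) (mem_QQ_pl.2 ha)
      (mem_QQ_pl.2 fun k => hΛ.dv_QQ two_ne_zero (h3 k)), U_tp, tp, map_prod]
  exact (mul_le_of_le_one_left' (hc j)).trans (h _ h3)

end

end Pool.Agent.Tav.Gd
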