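import Pool.Agent.P.MP_2ce3e7_ag.Tav.Dec
import Pool.Agent.P.MP_2ce3e7_ag.Tav.GrOrt
import Pool.Agent.P.MP_e12fcd_ag.Cmh.EmbL2
import Pool.Agent.P.MP_e12fcd_ag.Cmh.EmbA
import Pool.Agent.P.MP_e12fcd_ag.Cmh.Dat

/-! Lattices in a CM field whose index in the dual lattice is prime to `p`. -/

set_option autoImplicit false

open NumberField

namespace Pool.Agent.Tav.Lt

open Pool.Agent.Cmh

section

variable {K : Type} [Field K] [NumberField K] [IsGalois ℚ K] {Γ : Type*}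
  [LinearOrderedCommGroupWithZero Γ] (v : Valuation K Γ) {p : ℕ}

/-- the primes over `p` are the centres of the conjugate valuations -/
theorem prime_eq (hp : p.Prime) (hv : v p < 1) (Q : Ideal (𝓞 K)) [hQ : Q.IsPrime]
    (h : (p : 𝓞 K) ∈ Q) : ∃ s : Gal(K/ℚ), ∀ y : 𝓞 K, y ∈ Q ↔ v (s y) < 1 := by
  have := Dec.ctr_prime v
  have hm : (Ideal.span {(p : ℤ)}).IsMaximal :=
    PrincipalIdealRing.isMaximal_of_irreducible (Nat.prime_iff_prime_int.1 hp).irreducible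
  have key : ∀ (P : Ideal (𝓞 K)) [P.IsPrime], (p : 𝓞 K) ∈ P → Ideal.span {(p : ℤ)} = P.under ℤ :=
    fun P _ h => hm.eq_of_le (Ideal.IsPrime.ne_top inferInstance)
      ((Ideal.span_singleton_le_iff_mem _).2 (by simpa [Ideal.under, Ideal.mem_comap] using h))
  obtain ⟨g, hg⟩ := Algebra.IsInvariant.exists_smul_of_under_eq ℤ (𝓞 K) Gal(K/ℚ) (Dec.ctr v) Q
    ((key _ (by simpa [Dec.mem_ctr] using hv)).symm.trans (key Q h))
  refine ⟨g⁻¹, fun y => ?_⟩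
  rw [hg, Ideal.mem_pointwise_smul_iff_inv_smul_mem]
  rfl

theorem pow_mem (hp : p.Prime) (hv : v p < 1) {y : 𝓞 K} (h : ∀ s : Gal(K/ℚ), v (s y) < 1) :
    ∃ N : ℕ, (p : 𝓞 K) ∣ y ^ N := by
  have : y ∈ (Ideal.span {(p : 𝓞 K)}).radical := by
    rw [Ideal.radical_eq_sInf, Ideal.mem_sInf]
    rintro Q ⟨h1, h2⟩
    obtain ⟨s, hs⟩ := prime_eq v hp hv Q ((Ideal.span_singleton_le_iff_mem _).1 h1)
    exact (hs y).2 (h s)
  obtain ⟨N, hN⟩ := this
  exact ⟨N, Ideal.mem_span_singleton.1 hN⟩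

theorem coprime_of_unit (hp : p.Prime) (hv : v p < 1) {y : 𝓞 K}
    (h : ∀ s : Gal(K/ℚ), v (s y) = 1) : IsCoprime y (p : 𝓞 K) := by
  rw [← Ideal.isCoprime_span_singleton_iff, Ideal.isCoprime_iff_sup_eq]
  by_contra hn
  obtain ⟨Q, hQ, h1⟩ := Ideal.exists_le_maximal _ hn
  have := hQ.isPrime
  obtain ⟨s, hs⟩ := prime_eq v hp hv Q
    ((Ideal.span_singleton_le_iff_mem _).1 (le_sup_right.trans h1))
  exact ((hs y).1 ((Ideal.span_singleton_le_iff_mem _).1 (le_sup_left.trans h1))).ne (h s)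

/-- an idempotent modulo `p ^ k` (up to a unit) that is exchanged with its complement by `c` -/
theorem exists_eps (hp : p.Prime) (hv : v p < 1) {c : Gal(K/ℚ)} (hcc : c * c = 1)
    (hcen : ∀ s, s * c = c * s) (hz : ∃ z, v z ≤ 1 ∧ ¬ v (c z) ≤ 1) (k : ℕ) :
    ∃ ε o₁ o₂ o₃ : K, IsIntegral ℤ ε ∧ IsIntegral ℤ o₁ ∧ IsIntegral ℤ o₂ ∧ IsIntegral ℤ o₃ ∧
      ε * c ε = p ^ k * o₁ ∧ (ε + c ε) * o₂ + p ^ k * o₃ = 1 := by
  obtain ⟨z, hz, hz'⟩ := hz
  let F : Gal(K/ℚ) → Set K := fun s => {x | v (s x) ≤ 1}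
  have hF : ∀ s, F s ≠ F (s * c) := fun s h => by
    have h1 : s⁻¹ z ∈ F s := by simpa [F] using hz
    rw [h] at h1
    apply hz'
    simpa [F, hcen] using h1
  let T : Set Gal(K/ℚ) := {s | embeddingToCardinal (F s) < embeddingToCardinal (F (s * c))}
  have hT : ∀ s, s * c ∈ T ↔ s ∉ T := fun s => by
    simp only [T, Set.mem_ofPred_eq, mul_assoc, hcc, mul_one, not_lt]
    exact ⟨le_of_lt, fun h => lt_of_le_of_ne h fun e => hF s (embeddingToCardinal.injective e).symm⟩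
  obtain ⟨b, hb, h1, h2⟩ := Dec.exists_sep (fun s : Gal(K/ℚ) => v.comap (s : K →+* K))
    (fun s => ⟨s⁻¹ (c z), by simpa [← AlgEquiv.mul_apply] using hz'⟩) T (fun s t h hs => by
      have e1 : F s = F t := Set.ext h
      have e2 : F (s * c) = F (t * c) := Set.ext fun x => h (c x)
      simpa only [T, Set.mem_ofPred_eq, ← e1, ← e2] using hs)
  simp only [Valuation.comap_apply, RingHom.coe_coe] at h1 h2
  let B : 𝓞 K := ⟨b, hb⟩
  have hB : ∀ (s : Gal(K/ℚ)) (y : 𝓞 K), s ((c • y : 𝓞 K) : K) = (s * c) y := fun _ _ => rfl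
  obtain ⟨N, hN⟩ := pow_mem v hp hv (y := B * c • B) fun s => by
    rw [RingOfIntegers.coe_eq_algebraMap, map_mul, map_mul, map_mul]
    show v (s b) * v ((s * c) b) < 1
    by_cases k : s ∈ T
    · rw [h1 s k, one_mul]
      exact h2 _ fun l => (hT s).1 l k
    · rw [h1 _ ((hT s).2 k), mul_one]
      exact h2 s k
  have h3 : (p : 𝓞 K) ^ k ∣ B ^ (N * k + 1) * c • B ^ (N * k + 1) := by
    rw [smul_pow', ← mul_pow, pow_succ, pow_mul]
    exact (pow_dvd_pow_of_dvd hN k).mul_right _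
  have h4 := coprime_of_unit v hp hv (y := B ^ (N * k + 1) + c • B ^ (N * k + 1)) fun s => by
    rw [RingOfIntegers.coe_eq_algebraMap, map_add, map_add, smul_pow', map_pow, map_pow, map_pow,
      map_pow]
    show v (s b ^ _ + (s * c) b ^ _) = 1
    by_cases k : s ∈ T
    · rw [v.map_add_eq_of_lt_left, map_pow, h1 s k, one_pow]
      rw [map_pow, map_pow, h1 s k, one_pow]
      exact pow_lt_one₀ zero_le (h2 _ fun l => (hT s).1 l k) (Nat.succ_ne_zero _)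
    · rw [v.map_add_eq_of_lt_right, map_pow, h1 _ ((hT s).2 k), one_pow]
      rw [map_pow, map_pow, h1 _ ((hT s).2 k), one_pow]
      exact pow_lt_one₀ zero_le (h2 s k) (Nat.succ_ne_zero _)
  obtain ⟨o₁, e1⟩ := h3
  obtain ⟨o₂, o₃, e2⟩ := h4.pow_right (n := k)
  refine ⟨(B ^ (N * k + 1) : 𝓞 K), o₁, o₂, o₃, RingOfIntegers.isIntegral_coe _, o₁.isIntegral_coe,
    o₂.isIntegral_coe, o₃.isIntegral_coe, ?_, ?_⟩
  · have := congrArg (algebraMap (𝓞 K) K) e1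
    rw [map_mul, map_mul, map_pow _ (p : 𝓞 K), map_natCast] at this
    exact this
  · have := congrArg (algebraMap (𝓞 K) K) e2
    rw [map_add, map_mul, map_mul, map_add, map_pow _ (p : 𝓞 K), map_natCast, map_one,
      mul_comm, mul_comm _ ((p : K) ^ k)] at this
    exact this

end

variable {E : Type} [Field E] [NumberField E] [IsCMField E] {α : Type} [Fintype α] {dl : α → E}

/-- the trace form is an integer -/
def Pz (dl : α → E) (x y : α → E) : Prop := ∃ k : ℤ, Algebra.trace ℚ E (hf dl x y) = k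

lemma mem_trDu {M : Submodule ℤ (α → E)} {x : α → E} : x ∈ trDu dl M ↔ ∀ y ∈ M, Pz dl x y :=
  Iff.rfl

lemma Pz.symm (hd : Sk dl) {x y : α → E} (h : Pz dl x y) : Pz dl y x := by
  obtain ⟨k, hk⟩ := h
  exact ⟨-k, by rw [← XL.trace_star, hf_star hd, map_neg, hk, Int.cast_neg]⟩

lemma pz_mul (a x y : α → E) : Pz dl (a * x) y ↔ Pz dl x (star a * y) := by
  have : hf dl (a * x) y = hf dl x (star a * y) :=
    Finset.sum_congr rfl fun i _ => by simp [mul_assoc, mul_left_comm]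
  rw [Pz, this, Pz]

lemma pz_smul (a : E) (x y : α → E) : Pz dl (a • x) y ↔ Pz dl x (star a • y) :=
  pz_mul (fun _ => a) x y

lemma trDu_trDu (hd : Sk dl) {M : Submodule ℤ (α → E)} (h : ELat M) : trDu dl (trDu dl M) = M := by
  have hφ := isFrame_place (E := E)
  have e := du_du (isLat_embL hφ hd h)
  rw [du_embL hφ hd h, du_embL hφ hd (h.trDu hd)] at e
  exact le_antisymm ((embL_le hφ hd).1 e.le) ((embL_le hφ hd).1 e.ge)

lemma trDu_mul {M : Submodule ℤ (α → E)} (hM : ∀ a ∈ intL E α, ∀ x ∈ M, a * x ∈ M) :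
    ∀ a ∈ intL E α, ∀ x ∈ trDu dl M, a * x ∈ trDu dl M := fun a ha x hx y hy =>
  (pz_mul a x y).2 (hx _ (hM _ (fun i => isIntegral_star (ha i)) y hy))

theorem lat_alg (hd : Sk dl) (hi : dl ∈ intL E α) {p : ℕ} (hp : p.Prime)
    (hε : ∀ k : ℕ, ∃ ε o₁ o₂ o₃ : E, IsIntegral ℤ ε ∧ IsIntegral ℤ o₁ ∧ IsIntegral ℤ o₂ ∧
      IsIntegral ℤ o₃ ∧ ε * star ε = p ^ k * o₁ ∧ (ε + star ε) * o₂ + p ^ k * o₃ = 1) :
    ∃ M : Submodule ℤ (α → E), intL E α ≤ M ∧ ELat M ∧ (∀ a ∈ intL E α, ∀ x ∈ M, a * x ∈ M) ∧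
      M ≤ trDu dl M ∧ ∃ n : ℕ, ¬ p ∣ n ∧ ∀ x ∈ trDu dl M, n • x ∈ M := by
  have h0 : ∀ a ∈ intL E α, ∀ x ∈ intL E α, a * x ∈ intL E α := fun a ha x hx i =>
    (ha i).mul (hx i)
  have hD := (eLat_intL (E := E) (α := α)).trDu hd
  have hs := trDu_mul (dl := dl) h0
  have h1 : intL E α ≤ trDu dl (intL E α) := fun x hx y hy => by
    have : IsIntegral ℤ (hf dl x y) :=
      IsIntegral.sum _ fun i _ => ((hi i).mul (hx i)).mul (isIntegral_star (hy i))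
    obtain ⟨k, hk⟩ := IsIntegrallyClosed.isIntegral_iff.1 (Algebra.isIntegral_trace (L := ℚ) this)
    exact ⟨k, hk.symm⟩
  obtain ⟨N, hN, h2, -⟩ := id hD
  obtain ⟨k, n, hn, rfl⟩ := Nat.exists_eq_pow_mul_and_not_dvd hN p hp.ne_one
  obtain ⟨ε, o₁, o₂, o₃, iε, i₁, i₂, i₃, e1, e2⟩ := hε k
  have iN : IsIntegral ℤ (n : E) := isIntegral_natCast n
  have hle : sclE (ε * n) (trDu dl (intL E α)) ≤ trDu dl (intL E α) := by
    rintro _ ⟨d, hd', rfl⟩
    exact hs (fun _ => ε * n) (fun _ => iε.mul iN) d hd'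
  have hM : ∀ a ∈ intL E α, ∀ x ∈ intL E α ⊔ sclE (ε * n) (trDu dl (intL E α)),
      a * x ∈ intL E α ⊔ sclE (ε * n) (trDu dl (intL E α)) := fun a ha x hx => by
    obtain ⟨y, hy, _, ⟨d, hd', rfl⟩, rfl⟩ := Submodule.mem_sup.1 hx
    rw [mul_add]
    exact Submodule.add_mem_sup (h0 a ha y hy) ⟨a * d, hs a ha d hd', (mul_smul_comm (ε * n : E) a d).symm⟩
  have h3 : ∀ (o : E), IsIntegral ℤ o → ∀ d ∈ trDu dl (intL E α),
      (o * (p ^ k * n)) • d ∈ intL E α := fun o ho d hd' => by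
    have := h0 (fun _ => o) (fun _ => ho) _ (h2 d hd')
    convert this using 1
    ext i
    simp [mul_assoc]
  refine ⟨_, le_sup_left, eLat_intL.between hD le_sup_left (sup_le h1 hle), hM, ?_, n, hn,
    fun x hx => ?_⟩
  · have a1 : ∀ x ∈ intL E α, ∀ y ∈ intL E α ⊔ sclE (ε * n) (trDu dl (intL E α)), Pz dl x y :=
      fun x hx y hy => Pz.symm hd (sup_le h1 hle hy x hx)
    refine sup_le (fun x hx => a1 x hx) fun x hx y hy => Pz.symm hd ?_
    refine (sup_le (c := trDu dl (sclE (ε * n) (trDu dl (intL E α)))) ?_ ?_ hy) x hx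
    · exact fun y hy x hx => a1 y hy x (Submodule.mem_sup_right hx)
    · rintro _ ⟨d, hd', rfl⟩ _ ⟨d', hd'', rfl⟩
      refine (pz_smul _ d _).2 (hd' _ ?_)
      convert h3 (o₁ * n) (i₁.mul iN) d' hd'' using 1
      show star (ε * n) • (ε * n) • d' = _
      rw [smul_smul, star_mul', star_natCast]
      congr 1
      linear_combination (n : E) ^ 2 * e1
  · have a1 : x ∈ trDu dl (intL E α) := fun y hy => hx y (Submodule.mem_sup_left hy)
    have a2 : star (ε * n) • x ∈ intL E α := by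
      rw [← trDu_trDu hd (eLat_intL (E := E) (α := α))]
      refine fun d hd' => (pz_smul _ x d).2 (hx _ (Submodule.mem_sup_right ⟨d, hd', ?_⟩))
      rw [star_star]
      rfl
    have a3 := hM (fun _ => o₂) (fun _ => i₂) _ (Submodule.add_mem_sup a2 ⟨x, a1, rfl⟩)
    convert add_mem a3 (Submodule.mem_sup_left (h3 o₃ i₃ x a1)) using 1
    ext i
    simp only [Pi.smul_apply, Pi.add_apply, Pi.mul_apply, smul_eq_mul, nsmul_eq_mul, star_mul',
      star_natCast, LinearMap.coe_restrictScalars, LinearMap.lsmul_apply]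
    linear_combination (-(n : E) * x i) * e2

/-- after doubling the form the lattice is even with unit index -/
theorem un_embL {Pl : Type} [Fintype Pl] {φ : Pl → E →+* ℂ} (hφ : IsFrame φ) (hd : Sk dl)
    {Γ : Type*} [LinearOrderedCommGroupWithZero Γ] {v : Valuation ℂ Γ} {M : Submodule ℤ (α → E)}
    (hM : ELat M) (h1 : M ≤ trDu dl M) {n : ℕ} (hn : v (2 * n : ℕ) = 1)
    (h2 : ∀ x ∈ trDu dl M, n • x ∈ M) : Gd.Un v (embL φ (fun a => 2 * dl a) M) := by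
  have hd' : Sk fun a => 2 * dl a := fun a =>
    ⟨by rw [star_mul', (hd a).1, star_ofNat, mul_neg], mul_ne_zero two_ne_zero (hd a).2⟩
  have e : ∀ x y, hf (fun a => 2 * dl a) x y = hf dl (2 • x) y := fun x y =>
    Finset.sum_congr rfl fun i _ => by simp [mul_assoc, mul_left_comm]
  refine ⟨ev_embL hφ hd' hM fun x hx y hy => ?_, 2 * n, hn, ?_⟩
  · obtain ⟨k, hk⟩ := h1 hx y hy
    exact ⟨k, by rw [e, hf_nsmul_left, map_nsmul, hk]; simp⟩
  · rw [du_embL hφ hd' hM]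
    rintro _ ⟨x, hx, rfl⟩
    refine ⟨(2 * n) • x, ?_, map_nsmul _ _ _⟩
    rw [mul_comm, mul_smul]
    exact h2 _ fun y hy => e x y ▸ hx y hy

section

variable {ι κ : Type} [Fintype ι] [Fintype κ]

/-- reindexing of a lattice -/
def rx (e : κ ≃ ι) (M : Submodule ℤ (ι → ℂ)) : Submodule ℤ (κ → ℂ) :=
  M.map (LinearMap.funLeft ℤ ℂ e)

omit [Fintype ι] [Fintype κ] in
lemma mem_rx {e : κ ≃ ι} {M : Submodule ℤ (ι → ℂ)} {z : κ → ℂ} :
    z ∈ rx e M ↔ ∃ y ∈ M, y ∘ e = z := Iff.rfl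

omit [Fintype ι] [Fintype κ] in
lemma mem_rx' {e : κ ≃ ι} {M : Submodule ℤ (ι → ℂ)} {z : κ → ℂ} : z ∈ rx e M ↔ z ∘ e.symm ∈ M :=
  ⟨by
    rintro ⟨y, hy, rfl⟩
    rwa [show LinearMap.funLeft ℤ ℂ e y ∘ e.symm = y by ext i; simp [LinearMap.funLeft_apply]],
    fun h => ⟨_, h, by ext i; simp [LinearMap.funLeft_apply]⟩⟩

open Matrix in
lemma rx_eq (e : κ ≃ ι) : ∃ (_ : DecidableEq ι) (_ : DecidableEq κ) (A : Matrix κ ι ℂ), IsUni A ∧
    ∀ M, rx e M = mp A M := by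
  classical
  refine ⟨inferInstance, inferInstance, (1 : Matrix ι ι ℂ).submatrix e id, ⟨?_, ?_⟩, fun M => ?_⟩
  · rw [conjTranspose_submatrix, conjTranspose_one, submatrix_mul_equiv, mul_one, submatrix_id_id]
  · rw [conjTranspose_submatrix, conjTranspose_one]
    exact (submatrix_mul_equiv 1 1 e (Equiv.refl ι) e).trans (by rw [mul_one, submatrix_one_equiv])
  · rw [rx, mp]
    congr 1
    refine LinearMap.ext fun y => ?_
    show _ = (1 : Matrix ι ι ℂ).submatrix e (Equiv.refl ι) *ᵥ y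
    rw [submatrix_mulVec_equiv, one_mulVec]
    rfl

lemma du_rx (e : κ ≃ ι) (M : Submodule ℤ (ι → ℂ)) : du (rx e M) = rx e (du M) := by
  obtain ⟨_, _, A, hA, h⟩ := rx_eq e
  rw [h, h, du_mp hA]

lemma ev_rx (e : κ ≃ ι) {M : Submodule ℤ (ι → ℂ)} (hM : Ev M) : Ev (rx e M) := by
  obtain ⟨_, _, A, hA, h⟩ := rx_eq e
  rw [h]
  exact hM.mp hA

omit [Fintype ι] [Fintype κ] in
lemma QQ_rx (e : κ ≃ ι) (M : Submodule ℤ (ι → ℂ)) : QQ (rx e M) = rx e (QQ M) := by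
  ext z
  rw [mem_rx']
  exact exists_congr fun k => and_congr_right fun _ => mem_rx'

lemma un_rx {Γ : Type*} [LinearOrderedCommGroupWithZero Γ] {v : Valuation ℂ Γ} (e : κ ≃ ι)
    {M : Submodule ℤ (ι → ℂ)} (hM : Gd.Un v M) : Gd.Un v (rx e M) := by
  obtain ⟨h1, n, hn, h2⟩ := hM
  refine ⟨ev_rx e h1, n, hn, fun x hx => ?_⟩
  rw [du_rx, mem_rx'] at hx
  exact mem_rx'.2 (h2 _ hx)

end

lemma val_nat {Γ : Type*} [LinearOrderedCommGroupWithZero Γ] {F : Type*} [Field F]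
    {v : Valuation F Γ} {p n : ℕ} (hp : p.Prime) (hv : v p < 1) (hn : ¬ p ∣ n) : v n = 1 := by
  obtain ⟨a, b, h⟩ := Nat.isCoprime_iff_coprime.2 ((Nat.Prime.coprime_iff_not_dvd hp).2 hn)
  have h1 : ∀ k : ℤ, v k ≤ 1 := fun k => Dec.le_one_of_int v (isIntegral_intCast k)
  refine (by simpa using h1 n : v n ≤ 1).antisymm (not_lt.1 fun h2 => ?_)
  have h3 : v ((a : F) * p + b * n) < 1 := v.map_add_lt
    (by rw [map_mul]; exact mul_lt_of_le_one_of_lt (h1 a) hv)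
    (by rw [map_mul]; exact mul_lt_of_le_one_of_lt (h1 b) h2)
  have h4 : (a : F) * p + b * n = 1 := by exact_mod_cast congrArg (Int.cast : ℤ → F) h
  simp [h4] at h3

/-- the data of one CM type -/
structure One {Γ : Type*} [LinearOrderedCommGroupWithZero Γ] (v : Valuation ℂ Γ)
    (Φ : Finset (E →+* ℂ)) where
  ρ : Φ → ℝ
  Lam : Submodule (𝓞 E) E
  D : Submodule (𝓞 E) E
  N : ℕ
  Λ : Submodule ℤ (Φ → ℂ)
  pos : ∀ φ, 0 < ρ φ
  one : 1 ∈ Lam
  int : ∀ x, IsIntegral ℤ x → x ∈ Lam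
  le : Lam ≤ D
  hN : N ≠ 0
  den : ∀ x ∈ D, IsIntegral ℤ (N * x)
  un : Gd.Un v Λ
  mem : ∀ z, z ∈ Λ ↔ ∃ x ∈ Lam, z = fun φ => ρ φ * φ.1 x
  mem_du : ∀ z, z ∈ du Λ ↔ ∃ x ∈ D, z = fun φ => ρ φ * φ.1 x
  mem_QQ : ∀ z, z ∈ QQ Λ ↔ ∃ x : E, z = fun φ => ρ φ * φ.1 x

omit [NumberField E] [IsCMField E] in
lemma isFrame_type {Φ : Finset (E →+* ℂ)} (hΦ : ∀ ψ, ψ ∈ Φ ↔ ComplexEmbedding.conjugate ψ ∉ Φ) :
    IsFrame fun ψ : Φ => ψ.1 := by
  constructor
  · rintro (a | a) (b | b) h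
    · exact congrArg _ (Subtype.ext h)
    · exact absurd ((show a.1 = ComplexEmbedding.conjugate b.1 from h) ▸ a.2) ((hΦ _).1 b.2)
    · exact absurd ((show b.1 = ComplexEmbedding.conjugate a.1 from h.symm) ▸ b.2) ((hΦ _).1 a.2)
    · exact congrArg _ (Subtype.ext (star_injective h))
  · intro ψ
    by_cases h : ψ ∈ Φ
    · exact ⟨.inl ⟨ψ, h⟩, rfl⟩
    · exact ⟨.inr ⟨_, not_not.1 (mt (hΦ ψ).2 h)⟩, star_star ψ⟩

/-- a lattice of `Unit → E` as a module over the integers -/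
def toO (M : Submodule ℤ (Unit → E)) (h : ∀ a ∈ intL E Unit, ∀ x ∈ M, a * x ∈ M) :
    Submodule (𝓞 E) E where
  carrier := {x | (fun _ => x) ∈ M}
  zero_mem' := M.zero_mem
  add_mem' := M.add_mem
  smul_mem' := fun a _ hx => h (fun _ => a) (fun _ => a.isIntegral_coe) _ hx

theorem exists_one [IsGalois ℚ E] {Γ : Type*} [LinearOrderedCommGroupWithZero Γ]
    (v : Valuation ℂ Γ) {p : ℕ} (hp : p.Prime) (h2 : p ≠ 2) (hv : v p < 1) (j : E →+* ℂ)
    (hz : ∃ z, v (j z) ≤ 1 ∧ ¬ v (j (star z)) ≤ 1) {Φ : Finset (E →+* ℂ)}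
    (hΦ : ∀ ψ, ψ ∈ Φ ↔ ComplexEmbedding.conjugate ψ ∉ Φ) : Nonempty (One v Φ) := by
  obtain ⟨δ, i1, s1, n1, h1⟩ := cm_exists_delta hΦ
  have hd : Sk fun _ : Unit => δ := fun _ => ⟨s1, n1⟩
  have hd' : Sk fun _ : Unit => 2 * δ := fun a =>
    ⟨by rw [star_mul', (hd a).1, star_ofNat, mul_neg], mul_ne_zero two_ne_zero n1⟩
  obtain ⟨M, m1, m2, m3, m4, n, hn, m5⟩ := lat_alg hd (fun _ => i1) hp
    (exists_eps (v.comap j) hp (by simpa using hv)
      (c := (IsCMField.complexConj E).restrictScalars ℚ)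
      (AlgEquiv.ext fun x => IsCMField.complexConj_apply_apply E x)
      (fun s => AlgEquiv.ext fun x => j.injective
        ((map_star_emb (j.comp (s : E →+* E)) x).trans (map_star_emb j (s x)).symm)) hz)
  have hφ := isFrame_type hΦ
  have hU := un_embL hφ hd m2 m4 (v := v) (val_nat hp hv fun h => by
    rcases (Nat.Prime.dvd_mul hp).1 h with h | h
    exacts [h2 ((Nat.prime_dvd_prime_iff_eq hp Nat.prime_two).1 h), hn h]) m5
  obtain ⟨N, hN, m6, -⟩ := m2.trDu hd'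
  have he : ∀ x : Unit → E, emb (fun ψ : Φ => ψ.1) (fun _ => 2 * δ) x ∘ (Equiv.prodPUnit Φ).symm =
      fun φ => (rt (fun ψ : Φ => ψ.1) (fun _ => 2 * δ) (φ, ()) : ℝ) * φ.1 (x ()) := fun x => by
    ext φ
    have := (h1 φ.1).2.1 φ.2
    exact (emb_eq_ty _ _ _).trans (by rw [ty, if_pos (by simpa [map_ofNat] using this)]; rfl)
  have key : ∀ (M' : Submodule ℤ (Unit → E)) (z : Φ → ℂ),
      z ∈ rx (Equiv.prodPUnit Φ).symm (embL (fun ψ : Φ => ψ.1) (fun _ => 2 * δ) M') ↔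
      ∃ x : E, (fun _ => x) ∈ M' ∧
        z = fun φ => (rt (fun ψ : Φ => ψ.1) (fun _ => 2 * δ) (φ, ()) : ℝ) * φ.1 x := fun M' z =>
    ⟨by
      rintro ⟨_, ⟨x, hx, rfl⟩, rfl⟩
      exact ⟨x (), hx, he x⟩, by
      rintro ⟨x, hx, rfl⟩
      exact ⟨_, ⟨_, hx, rfl⟩, he _⟩⟩
  have hle := hU.1.le_du
  rw [du_embL hφ hd' m2, embL_le hφ hd'] at hle
  refine ⟨⟨fun φ => rt (fun ψ : Φ => ψ.1) (fun _ => 2 * δ) (φ, ()), toO M m3,
    toO _ (trDu_mul (dl := fun _ => 2 * δ) m3), N, _, fun φ => hd'.rt_pos _,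
    m1 fun _ => isIntegral_one, fun x hx => m1 fun _ => hx, fun x hx => hle hx, hN,
    fun x hx => ?_, un_rx (Equiv.prodPUnit Φ).symm hU, key M, fun z => ?_, fun z => ?_⟩⟩
  · simpa using m6 _ hx ()
  · rw [du_rx, du_embL hφ hd' m2]
    exact key _ z
  · rw [QQ_rx, QQ_embL _ _ m2, LinearMap.range_eq_map]
    exact (key ⊤ z).trans (by simp)

section

variable (L : IntermediateField ℚ ℂ) [FiniteDimensional ℚ L] [IsGalois ℚ L] {c : Gal(L/ℚ)}

instance nfL : NumberField L where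

omit [FiniteDimensional ℚ L] in
/-- every embedding of `L` is an automorphism followed by the inclusion -/
theorem emb_eq (ψ : L →+* ℂ) : ∃ s : Gal(L/ℚ), ∀ x, ψ x = s x :=
  ⟨ψ.toRatAlgHom.restrictNormal' L, fun x =>
    (AlgHom.restrictNormal_commutes ψ.toRatAlgHom L x).symm⟩

omit [FiniteDimensional ℚ L] in
theorem emb_c (hc : ∀ z, (c z : ℂ) = star (z : ℂ)) (hcen : ∀ s, s * c = c * s) (ψ : L →+* ℂ)
    (x : L) : ψ (c x) = star (ψ x) := by
  obtain ⟨s, hs⟩ := emb_eq L ψ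
  rw [hs, hs, ← hc, ← AlgEquiv.mul_apply, hcen, AlgEquiv.mul_apply]

omit [FiniteDimensional ℚ L] in
theorem isCM (hc : ∀ z, (c z : ℂ) = star (z : ℂ)) (hcen : ∀ s, s * c = c * s) (h1 : c ≠ 1) :
    IsCMField L := by
  have : IsTotallyComplex L := ⟨fun w => InfinitePlace.isComplex_iff.2 fun h => h1 <|
    AlgEquiv.ext fun x => w.embedding.injective <| (emb_c L hc hcen _ x).trans
      (DFunLike.congr_fun (ComplexEmbedding.isReal_iff.1 h) x)⟩
  exact IsCMField.of_forall_isConj L (σ := c) fun ψ => RingHom.ext fun x =>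
    (emb_c L hc hcen ψ x).symm

theorem star_eq [IsCMField L] (hc : ∀ z, (c z : ℂ) = star (z : ℂ)) (x : L) : star x = c x :=
  Subtype.ext ((map_star_emb L.val.toRingHom x).trans (hc x).symm)

/-- LAT in the terms of `Model.Full` -/
theorem exists_one_L (hc : ∀ z, (c z : ℂ) = star (z : ℂ)) (hcen : ∀ s, s * c = c * s)
    (R : ValuationSubring ℂ) (hz : ∃ z : L, (z : ℂ) ∈ R ∧ (c z : ℂ) ∉ R) {p : ℕ} (hp : p.Prime)
    (h2 : p ≠ 2) (hv : R.valuation p < 1) {Φ : Finset (L →+* ℂ)}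
    (hΦ : ∀ ψ, ψ ∈ Φ ↔ ComplexEmbedding.conjugate ψ ∉ Φ) : Nonempty (One R.valuation Φ) := by
  obtain ⟨z, h3, h4⟩ := hz
  have := isCM L hc hcen fun h => h4 (by rwa [h])
  refine exists_one R.valuation hp h2 hv L.val.toRingHom ⟨z, (R.valuation_le_one_iff _).2 h3, ?_⟩ hΦ
  rw [star_eq L hc, R.valuation_le_one_iff]
  exact h4

end

end Pool.Agent.Tav.Lt
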