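import Pool.Agent.P.MP_2ce3e7_ag.Tav.Stmt

/-! Every point of the special fibre of a projective variety lifts to the valuation ring. -/

set_option autoImplicit false

noncomputable section

namespace Pool.Agent.Tav.Lft

open MvPolynomial Function

theorem intClosed_mv (R : Type) [CommRing R] [IsDomain R] [IsIntegrallyClosed R] (d : ℕ) :
    IsIntegrallyClosed (MvPolynomial (Fin d) R) := by
  induction d with
  | zero => exact IsIntegrallyClosed.of_equiv (isEmptyRingEquiv R (Fin 0)).symm
  | succ d ih => exact IsIntegrallyClosed.of_equiv (finSuccEquiv R d).toRingEquiv.symm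

section top
variable {R B σ : Type} [CommRing R] [CommRing B] [Algebra R B]

/-- the restriction of a form to a line -/
theorem top_coeff (w v : σ → B) {G : MvPolynomial σ R} {e : ℕ} (hG : G.IsHomogeneous e) :
    (aeval (fun i => Polynomial.C (w i) * Polynomial.X + Polynomial.C (v i)) G).natDegree ≤ e ∧
    (aeval (fun i => Polynomial.C (w i) * Polynomial.X + Polynomial.C (v i)) G).coeff e =
      aeval w G := by
  induction hG using IsWeightedHomogeneous.induction_on with
  | zero => simp
  | add p q _ _ hp hq =>
    rw [map_add, map_add, Polynomial.coeff_add, hp.2, hq.2]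
    exact ⟨(Polynomial.natDegree_add_le _ _).trans (max_le hp.1 hq.1), rfl⟩
  | monomial d c hd =>
    have key : ∀ d : σ →₀ ℕ, (d.prod fun i k =>
        (Polynomial.C (w i) * Polynomial.X + Polynomial.C (v i)) ^ k).natDegree ≤ d.degree ∧
        (d.prod fun i k => (Polynomial.C (w i) * Polynomial.X + Polynomial.C (v i)) ^ k).coeff
          d.degree = d.prod fun i k => w i ^ k := by
      intro d
      induction d using Finsupp.induction_linear with
      | zero => simp
      | add a b ha hb =>
        rw [Finsupp.prod_add_index' (by simp) (by simp [pow_add]),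
          Finsupp.prod_add_index' (by simp) (by simp [pow_add]), map_add,
          Polynomial.coeff_mul_add_eq_of_natDegree_le ha.1 hb.1, ha.2, hb.2]
        exact ⟨Polynomial.natDegree_mul_le.trans (add_le_add ha.1 hb.1), rfl⟩
      | single i k =>
        have h1 : (Polynomial.C (w i) * Polynomial.X + Polynomial.C (v i)).natDegree ≤ 1 :=
          Polynomial.natDegree_linear_le
        rw [Finsupp.prod_single_index (by simp), Finsupp.prod_single_index (by simp),
          Finsupp.degree_single]
        refine ⟨by simpa using Polynomial.natDegree_pow_le_of_le k h1, ?_⟩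
        have := Polynomial.coeff_pow_of_natDegree_le (m := k) h1
        simpa using this
    have he : d.degree = e := by rw [← hd, Finsupp.degree_eq_weight_one]; rfl
    rw [aeval_monomial, aeval_monomial, ← he, Polynomial.algebraMap_apply,
      Polynomial.coeff_C_mul, (key d).2]
    exact ⟨(Polynomial.natDegree_C_mul_le _ _).trans (key d).1, rfl⟩

end top

theorem ev_map {A B σ : Type} [CommRing A] [CommRing B] (f : A →+* B) (y : σ → A)
    (F : MvPolynomial σ A) : f (eval y F) = eval (fun l => f (y l)) (map f F) := by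
  induction F using MvPolynomial.induction_on with
  | C c => simp
  | add p q hp hq => simp [hp, hq]
  | mul_X p i hp => simp [hp]

variable {K Ω : Type} [Field K] [Field Ω] {R : ValuationSubring K} {r : R →+* Ω}

theorem unit_iff (hr : Surjective r) (c : R) : IsUnit c ↔ r c ≠ 0 := by
  refine ⟨fun h => (h.map r).ne_zero, fun h => ?_⟩
  by_contra hc
  have h1 : RingHom.ker r = IsLocalRing.maximalIdeal R :=
    IsLocalRing.eq_maximalIdeal (RingHom.ker_isMaximal_of_surjective r hr)
  exact h (by rw [← RingHom.mem_ker, h1]; exact hc)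

/-- a non-zero polynomial is a multiple of one with non-zero reduction -/
theorem exists_prim {σ : Type} (r : R →+* Ω) {G : MvPolynomial σ R} (hG : G ≠ 0) {e : ℕ}
    (he : G.IsHomogeneous e) : ∃ (c : R) (G' : MvPolynomial σ R), c ≠ 0 ∧ G = c • G' ∧
      G'.IsHomogeneous e ∧ map r G' ≠ 0 := by
  classical
  obtain ⟨m, hm, hmax⟩ := Finset.exists_max_image G.support
    (fun m => R.valuation ((coeff m G : R) : K)) (support_nonempty.2 hG)
  have hd : ∀ n, ∃ b, n ∈ G.support → coeff n G = coeff m G * b := fun n => by
    by_cases hn : n ∈ G.support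
    · obtain ⟨b, hb⟩ := (R.valuation_le_iff _ _).1 (hmax n hn)
      refine ⟨b, fun _ => Subtype.ext ?_⟩
      rw [← hb]; simp [mul_comm]
    · exact ⟨0, fun h => absurd h hn⟩
  choose b hb using hd
  have hm0 : coeff m G ≠ 0 := mem_support_iff.1 hm
  have hc : ∀ n, coeff n (∑ k ∈ G.support, monomial k (b k)) =
      if n ∈ G.support then b n else 0 := fun n => by
    simp [coeff_sum, coeff_monomial]
  refine ⟨coeff m G, ∑ n ∈ G.support, monomial n (b n), hm0, ?_, ?_, ?_⟩
  · ext n
    rw [coeff_smul, hc, smul_eq_mul]
    split_ifs with h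
    · rw [← hb n h]
    · rw [notMem_support_iff.1 h, mul_zero]
  · intro n hn
    rw [hc] at hn
    split_ifs at hn with h
    · exact he (mem_support_iff.1 h)
    · exact absurd rfl hn
  · intro h
    have h1 : b m = 1 := mul_left_cancel₀ hm0 (by rw [← hb m hm, mul_one])
    have := congrArg (coeff m) h
    rw [coeff_map, hc, if_pos hm, h1] at this
    simp at this

section nn
variable {A : Type} [CommRing A] [IsDomain A] [Algebra R A]

/-- graded Noether normalisation over a valuation ring -/
theorem nn [Infinite Ω] (hr : Surjective r) (hA : Injective (algebraMap R A)) (L : Submodule R A)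
    (hL : ∀ (n : ℕ) (t : Fin n → A), (∀ i, t i ∈ L) → ∀ F : MvPolynomial (Fin n) R,
      aeval t F = 0 → ∀ e, aeval t (homogeneousComponent e F) = 0) (n : ℕ) :
    ∀ t : Fin n → A, (∀ i, t i ∈ L) → ∃ (d : ℕ) (u : Fin d → A),
      Injective (aeval u : MvPolynomial (Fin d) R →ₐ[R] A) ∧
      ∀ i, (aeval u : MvPolynomial (Fin d) R →ₐ[R] A).toRingHom.IsIntegralElem (t i) := by
  induction n with
  | zero =>
    intro t _
    refine ⟨0, t, (injective_iff_map_eq_zero _).2 fun F hF => ?_, fun i => i.elim0⟩
    rw [eq_C_of_isEmpty F] at hF ⊢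
    rw [aeval_C] at hF
    rw [(injective_iff_map_eq_zero _).1 hA _ hF, map_zero]
  | succ n ih =>
    intro t ht
    by_cases hi : Injective (aeval t : MvPolynomial (Fin (n + 1)) R →ₐ[R] A)
    · refine ⟨n + 1, t, hi, fun i => ?_⟩
      have := (aeval t : MvPolynomial (Fin (n + 1)) R →ₐ[R] A).toRingHom.isIntegralElem_map
        (x := X i)
      simpa using this
    rw [injective_iff_map_eq_zero] at hi
    push Not at hi
    obtain ⟨F, hF, hF0⟩ := hi
    obtain ⟨e, he⟩ : ∃ e, homogeneousComponent e F ≠ 0 := by
      by_contra! h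
      exact hF0 (by rw [← sum_homogeneousComponent F]; simp [h])
    obtain ⟨c, G, hc, hG, hGe, hG0⟩ := exists_prim r he (homogeneousComponent_isHomogeneous e F)
    have hGt : aeval t G = 0 := by
      have := hL _ t ht F hF e
      rw [hG, map_smul, Algebra.smul_def, mul_eq_zero] at this
      exact this.resolve_left fun h => hc ((injective_iff_map_eq_zero _).1 hA _ h)
    obtain ⟨w, hw⟩ : ∃ w : Fin (n + 1) → Ω, eval w (X 0 * map r G) ≠ 0 := by
      by_contra! h
      exact mul_ne_zero (X_ne_zero 0) hG0 (MvPolynomial.funext fun w => by rw [h, map_zero])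
    choose w' hw' using fun i => hr (w i)
    rw [map_mul, eval_X] at hw
    obtain ⟨a, ha⟩ := ((unit_iff hr (w' 0)).2 (hw' 0 ▸ left_ne_zero_of_mul hw)).exists_left_inv
    obtain ⟨b, hb⟩ : ∃ b, b * eval w' G = 1 := by
      refine ((unit_iff hr _).2 ?_).exists_left_inv
      have : r (eval w' G) = eval w (map r G) := by rw [ev_map, funext hw']
      exact this ▸ right_ne_zero_of_mul hw
    obtain ⟨d, u, hu, hint⟩ := ih (fun i => t i.succ - w' i.succ • a • t 0)
      fun i => L.sub_mem (ht _) (L.smul_mem _ (L.smul_mem _ (ht _)))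
    refine ⟨d, u, hu, ?_⟩
    let _ : Algebra (MvPolynomial (Fin d) R) A :=
      (aeval u : MvPolynomial (Fin d) R →ₐ[R] A).toRingHom.toAlgebra
    have _ : IsScalarTower R (MvPolynomial (Fin d) R) A :=
      IsScalarTower.of_algebraMap_eq fun c => ((aeval u).commutes c).symm
    let B := integralClosure (MvPolynomial (Fin d) R) A
    let v : Fin (n + 1) → B :=
      Fin.cons 0 fun i => ⟨t i.succ - w' i.succ • a • t 0, hint i⟩
    have hv : ∀ i, t i = w' i • a • t 0 + (v i : A) := fun i => by
      refine Fin.cases ?_ (fun i => ?_) i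
      · simp [v, smul_smul, mul_comm (w' 0) a, ha]
      · simp [v]
    obtain ⟨h1, h2⟩ := top_coeff (fun i => algebraMap R B (w' i)) v hGe
    set P := aeval (fun i => Polynomial.C (algebraMap R B (w' i)) * Polynomial.X +
      Polynomial.C (v i)) G with hP
    have hs : IsIntegral (MvPolynomial (Fin d) R) (a • t 0) := by
      refine isIntegral_trans (A := B) _ ⟨Polynomial.C (algebraMap R B b) * P, ?_, ?_⟩
      · refine Polynomial.monic_of_natDegree_le_of_coeff_eq_one e
          ((Polynomial.natDegree_C_mul_le _ _).trans h1) ?_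
        have h3 := aeval_algebraMap_apply B w' G
        rw [Polynomial.coeff_C_mul, h2, show (aeval fun i => algebraMap R B (w' i)) G = _ from h3,
          ← map_mul, aeval_eq_eval, hb, map_one]
      · rw [← Polynomial.aeval_def, map_mul]
        have : Polynomial.aeval (a • t 0) P = aeval t G := by
          have := congrArg (fun φ => φ G) (comp_aeval
            (fun i => Polynomial.C (algebraMap R B (w' i)) * Polynomial.X + Polynomial.C (v i))
            ((Polynomial.aeval (R := B) (a • t 0)).restrictScalars R))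
          simp only [AlgHom.comp_apply, AlgHom.restrictScalars_apply] at this
          rw [hP, this]
          congr 2
          funext i
          rw [hv i, map_add, map_mul, Polynomial.aeval_C, Polynomial.aeval_C, Polynomial.aeval_X,
            ← IsScalarTower.algebraMap_apply, ← Algebra.smul_def]
          rfl
        rw [this, hGt, mul_zero]
    intro i
    change IsIntegral (MvPolynomial (Fin d) R) (t i)
    rw [hv i]
    refine IsIntegral.add ?_ (v i).2
    rw [← algebraMap_smul (MvPolynomial (Fin d) R) (w' i)]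
    exact hs.smul _

/-- a root of a monic polynomial over `R` in a domain lies in `R` -/
theorem root_mem [IsAlgClosed K] {D : Type} [CommRing D] [IsDomain D] (j : R →+* D) (x : D)
    (n : ℕ) : ∀ f : Polynomial R, f.Monic → f.natDegree = n → f.eval₂ j x = 0 → ∃ c, j c = x := by
  induction n with
  | zero =>
    intro f hf hn h
    rw [Polynomial.Monic.natDegree_eq_zero hf] at hn
    simp [hn] at h
  | succ n ih =>
    intro f hf hn h
    obtain ⟨c, hc⟩ := IsAlgClosed.exists_aeval_eq_zero K f (by
      rw [Polynomial.degree_eq_natDegree hf.ne_zero, hn]; exact_mod_cast n.succ_ne_zero)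
    obtain ⟨c, rfl⟩ := IsIntegrallyClosed.algebraMap_eq_of_integral
      (show IsIntegral R c from ⟨f, hf, hc⟩)
    have hc' : f.IsRoot c := by
      rw [Polynomial.aeval_algebraMap_apply] at hc
      simpa using hc
    obtain ⟨g, rfl⟩ := Polynomial.dvd_iff_isRoot.2 hc'
    have hg := (Polynomial.monic_X_sub_C c).of_mul_monic_left hf
    rw [Polynomial.eval₂_mul, mul_eq_zero] at h
    rcases h with h | h
    · exact ⟨c, by rw [Polynomial.eval₂_sub, Polynomial.eval₂_X, Polynomial.eval₂_C,
        sub_eq_zero] at h; exact h.symm⟩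
    · refine ih g hg ?_ h
      rw [(Polynomial.monic_X_sub_C c).natDegree_mul hg, Polynomial.natDegree_X_sub_C] at hn
      omega

/-- going down: a point of the special fibre of an algebra finite over an affine space -/
theorem lift_of_int [IsAlgClosed K] (hr : Surjective r) {d : ℕ} (u : Fin d → A)
    (hu : Injective (aeval u : MvPolynomial (Fin d) R →ₐ[R] A))
    (hint : (aeval u : MvPolynomial (Fin d) R →ₐ[R] A).toRingHom.IsIntegral)
    (φ : A →+* Ω) (hφ : ∀ c, φ (algebraMap R A c) = r c) :
    ∃ P : Ideal A, (∀ a ∈ P, φ a = 0) ∧ (∀ c, algebraMap R A c ∈ P → c = 0) ∧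
      ∀ a, ∃ c, a - algebraMap R A c ∈ P := by
  let _ : Algebra (MvPolynomial (Fin d) R) A :=
    (aeval u : MvPolynomial (Fin d) R →ₐ[R] A).toRingHom.toAlgebra
  have _ : Algebra.IsIntegral (MvPolynomial (Fin d) R) A := ⟨hint⟩
  have _ : FaithfulSMul (MvPolynomial (Fin d) R) A :=
    (faithfulSMul_iff_algebraMap_injective _ _).2 hu
  have _ := intClosed_mv R d
  choose y hy using fun j => hr (φ (u j))
  have key : ∀ F : MvPolynomial (Fin d) R, φ (aeval u F) = r (eval y F) := fun F => by
    induction F using MvPolynomial.induction_on with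
    | C c => simp [hφ]
    | add p q hp hq => simp [hp, hq]
    | mul_X p i hp => simp [hp, hy]
  have _ := RingHom.ker_isPrime φ
  have _ := RingHom.ker_isPrime (eval y : MvPolynomial (Fin d) R →+* R)
  obtain ⟨P, hP, hPp, hPl⟩ := Ideal.exists_ideal_le_liesOver_of_le
    (p := RingHom.ker (eval y : MvPolynomial (Fin d) R →+* R))
    (q := (RingHom.ker φ).under (MvPolynomial (Fin d) R)) (RingHom.ker φ) (fun F hF => by
      change φ (aeval u F) = 0
      rw [key, (RingHom.mem_ker).1 hF, map_zero])
  have hm : ∀ F : MvPolynomial (Fin d) R, aeval u F ∈ P ↔ eval y F = 0 := fun F => by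
    rw [← RingHom.mem_ker, hPl.over]; rfl
  refine ⟨P, fun a ha => hP ha, fun c hc => ?_, fun a => ?_⟩
  · simpa using (hm (C c)).1 (by simpa using hc)
  · obtain ⟨f, hf, hfa⟩ := hint a
    obtain ⟨c, hc⟩ := root_mem ((Ideal.Quotient.mk P).comp (algebraMap R A))
      (Ideal.Quotient.mk P a) _ (f.map (eval y)) (hf.map _) rfl (by
        rw [Polynomial.eval₂_map]
        have := congrArg (Ideal.Quotient.mk P) hfa
        rw [Polynomial.hom_eval₂, map_zero] at this
        rw [← this]
        congr 1
        refine RingHom.ext fun F => (Ideal.Quotient.eq.2 ?_)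
        have := (hm (C (eval y F) - F)).2 (by simp)
        simpa using this)
    exact ⟨c, Ideal.Quotient.eq.1 hc.symm⟩

end nn

/-- LIFT for a graded prime ideal over `R` that meets `R` in zero -/
theorem lift_ideal [IsAlgClosed K] [Infinite Ω] (hr : Surjective r) {σ : Type} [Fintype σ]
    (J : Ideal (MvPolynomial σ R)) [J.IsPrime] (h0 : ∀ c, C c ∈ J → c = 0)
    (hJ : ∀ F ∈ J, ∀ e, homogeneousComponent e F ∈ J) (z : σ → Ω)
    (hz : ∀ F ∈ J, eval z (map r F) = 0) :
    ∃ y : σ → R, (∀ F ∈ J, eval y F = 0) ∧ ∀ l, r (y l) = z l := by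
  have hA : Injective (algebraMap R (MvPolynomial σ R ⧸ J)) :=
    (injective_iff_map_eq_zero _).2 fun c hc => h0 c (Ideal.Quotient.eq_zero_iff_mem.1 hc)
  let π := Ideal.Quotient.mkₐ R J
  let ε := Fintype.equivFin σ
  obtain ⟨d, u, hu, hint⟩ := nn hr hA ((homogeneousSubmodule σ R 1).map π.toLinearMap) (by
    intro n t ht F hF e
    choose s hs hst using ht
    obtain rfl : t = fun i => π (s i) := funext fun i => (hst i).symm
    have h1 : ∀ G : MvPolynomial (Fin n) R, aeval (fun i => π (s i)) G = π (aeval s G) :=
      fun G => by rw [← comp_aeval]; rfl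
    rw [h1] at hF ⊢
    have h2 : homogeneousComponent e (aeval s F) = aeval s (homogeneousComponent e F) := by
      conv_lhs => rw [← sum_homogeneousComponent F, map_sum, map_sum]
      have h3 : ∀ k, homogeneousComponent e (aeval s (homogeneousComponent k F)) =
          if e = k then aeval s (homogeneousComponent k F) else 0 := fun k =>
        homogeneousComponent_of_mem (by
          simpa using (homogeneousComponent_isHomogeneous k F).aeval s hs)
      simp only [h3, Finset.sum_ite_eq, Finset.mem_range]
      split_ifs with h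
      · rfl
      · rw [homogeneousComponent_eq_zero _ _ (by omega), map_zero]
    rw [← h2]
    exact Ideal.Quotient.eq_zero_iff_mem.2 (hJ _ (Ideal.Quotient.eq_zero_iff_mem.1 hF) e))
    _ (fun i => π (X (ε.symm i))) fun i => ⟨_, isHomogeneous_X R _, rfl⟩
  obtain ⟨P, h1, h2, h3⟩ := lift_of_int hr u hu (fun a => by
      obtain ⟨F, rfl⟩ := Ideal.Quotient.mk_surjective a
      induction F using MvPolynomial.induction_on with
      | C c =>
        have := (aeval u : MvPolynomial (Fin d) R →ₐ[R] _).toRingHom.isIntegralElem_map (x := C c)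
        rwa [AlgHom.toRingHom_eq_coe, RingHom.coe_coe, aeval_C] at this
      | add p q hp hq => rw [map_add]; exact hp.add _ hq
      | mul_X p i hp =>
        rw [map_mul]
        exact hp.mul _ (by simpa [π] using hint (ε i)))
    (Ideal.Quotient.lift J ((MvPolynomial.eval z).comp (map r)) hz) (fun c => by
      change Ideal.Quotient.lift J _ hz (Ideal.Quotient.mk J (C c)) = _
      simp)
  choose y hy using fun l => h3 (π (X l))
  have key : ∀ F : MvPolynomial σ R, π F - algebraMap R _ (eval y F) ∈ P := fun F => by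
    induction F using MvPolynomial.induction_on with
    | C c =>
      have : π (C c) = algebraMap R _ c := π.commutes c
      simp [this]
    | add p q hp hq =>
      rw [map_add, map_add, map_add, add_sub_add_comm]; exact P.add_mem hp hq
    | mul_X p i hp =>
      rw [map_mul, map_mul, map_mul, eval_X]
      exact Ideal.mul_sub_mul_mem P hp (hy i)
  refine ⟨y, fun F hF => h2 _ ?_, fun l => ?_⟩
  · have := key F
    rwa [show π F = 0 from Ideal.Quotient.eq_zero_iff_mem.2 hF, zero_sub, neg_mem_iff] at this
  · have := h1 _ (hy l)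
    rw [map_sub, sub_eq_zero] at this
    change Ideal.Quotient.lift J _ hz (Ideal.Quotient.mk J (X l)) =
      Ideal.Quotient.lift J _ hz (Ideal.Quotient.mk J (C (y l))) at this
    simpa using this.symm

theorem eval_smul_hom {A σ : Type} [CommRing A] {F : MvPolynomial σ A} {e : ℕ}
    (hF : F.IsHomogeneous e) (c : A) (y : σ → A) : eval (c • y) F = c ^ e * eval y F := by
  induction hF using IsWeightedHomogeneous.induction_on with
  | zero => simp
  | add p q _ _ hp hq => rw [map_add, map_add, hp, hq, mul_add]
  | monomial d a hd =>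
    have he : d.degree = e := by rw [← hd, Finsupp.degree_eq_weight_one]; rfl
    rw [eval_monomial, eval_monomial, ← he, mul_left_comm]
    simp only [Pi.smul_apply, smul_eq_mul, mul_pow, Finsupp.prod, Finset.prod_mul_distrib,
      Finset.prod_pow_eq_pow_sum, Finsupp.degree_apply]

/-- the ideal of a cone is graded -/
theorem idl_hom [Infinite K] {T σ : Type} (p : T → σ → K) {F : MvPolynomial σ K}
    (hF : F ∈ idl p) (e : ℕ) : homogeneousComponent e F ∈ idl p := by
  rintro _ ⟨c, t, rfl⟩
  have H : (∑ i ∈ Finset.range (F.totalDegree + 1),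
      Polynomial.monomial i (eval (p t) (homogeneousComponent i F))) = 0 :=
    Polynomial.funext fun c => by
      have := hF _ ⟨c, t, rfl⟩
      rw [aeval_eq_eval, ← sum_homogeneousComponent F, map_sum] at this
      rw [Polynomial.eval_finsetSum, Polynomial.eval_zero, ← this]
      exact Finset.sum_congr rfl fun i _ => by
        rw [Polynomial.eval_monomial, eval_smul_hom (homogeneousComponent_isHomogeneous i F),
          mul_comm]
  rw [aeval_eq_eval, eval_smul_hom (homogeneousComponent_isHomogeneous e F)]
  by_cases he : e ≤ F.totalDegree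
  · have := congrArg (Polynomial.coeff · e) H
    simp only [Polynomial.finsetSum_coeff, Polynomial.coeff_monomial, Finset.sum_ite_eq',
      Finset.mem_range, Nat.lt_succ_iff, he, if_true, Polynomial.coeff_zero] at this
    rw [this, mul_zero]
  · rw [homogeneousComponent_eq_zero _ _ (not_le.1 he), map_zero, mul_zero]

theorem exists_den {σ : Type} (F : MvPolynomial σ K) :
    ∃ (c : R) (F' : MvPolynomial σ R), c ≠ 0 ∧ map R.subtype F' = (c : K) • F := by
  induction F using MvPolynomial.induction_on with
  | C a =>
    obtain ⟨x, y, hy, rfl⟩ := IsFractionRing.div_surjective (A := R) a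
    have h0 : y ≠ 0 := nonZeroDivisors.ne_zero hy
    have h1 : (y : K) ≠ 0 := by simpa using h0
    refine ⟨y, C x, h0, ?_⟩
    rw [map_C, smul_eq_C_mul, ← C_mul]
    congr 1
    change (x : K) = y * (x / y)
    field_simp
  | add p q hp hq =>
    obtain ⟨a, P, ha, hP⟩ := hp
    obtain ⟨b, Q, hb, hQ⟩ := hq
    refine ⟨a * b, C b * P + C a * Q, mul_ne_zero ha hb, ?_⟩
    rw [map_add, map_mul, map_mul, hP, hQ, map_C, map_C]
    simp only [smul_eq_C_mul, ValuationSubring.coe_subtype, MulMemClass.coe_mul, C_mul]
    ring
  | mul_X p i hp =>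
    obtain ⟨a, P, ha, hP⟩ := hp
    exact ⟨a, P * X i, ha, by rw [map_mul, hP, map_X, smul_mul_assoc]⟩

/-- LIFT for a graded prime ideal over the fraction field -/
theorem lift_field [IsAlgClosed K] [Infinite Ω] (hr : Surjective r) {σ : Type} [Fintype σ]
    (I : Ideal (MvPolynomial σ K)) (hp : I.IsPrime)
    (hI : ∀ F ∈ I, ∀ e, homogeneousComponent e F ∈ I) (z : σ → Ω)
    (hz : ∀ F : MvPolynomial σ R, map R.subtype F ∈ I → eval z (map r F) = 0) :
    ∃ y : σ → R, (fun l => (y l : K)) ∈ zeroLocus K I ∧ ∀ l, r (y l) = z l := by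
  obtain ⟨y, h1, h2⟩ := lift_ideal hr (I.comap (map R.subtype)) (fun c hc => by
      by_contra h0
      rw [Ideal.mem_comap, map_C] at hc
      exact hp.ne_top (I.eq_top_of_isUnit_mem hc
        ((IsUnit.mk0 (c : K) (by simpa using h0)).map C)))
    (fun F hF e => by
      have : map R.subtype (homogeneousComponent e F) =
          homogeneousComponent e (map R.subtype F) := by
        ext m; simp only [coeff_map, coeff_homogeneousComponent, apply_ite R.subtype, map_zero]
      rw [Ideal.mem_comap, this]
      exact hI _ hF e) z hz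
  refine ⟨y, fun F hF => ?_, h2⟩
  obtain ⟨c, F', hc, hF'⟩ := exists_den (R := R) F
  have h3 := ev_map R.subtype y F'
  rw [h1 F' (by rw [Ideal.mem_comap, hF', smul_eq_C_mul]; exact I.mul_mem_left _ hF), map_zero,
    hF', smul_eval] at h3
  exact (mul_eq_zero.1 h3.symm).resolve_left (by simpa using hc)

/-- LIFT on points: a zero of the reductions of the equations is the reduction of a point -/
theorem lift_pt [IsAlgClosed K] [Infinite Ω] (hr : Surjective r) {T σ : Type} [Fintype σ]
    (x : T → σ → R) (hx : ∀ t, ∃ l, IsUnit (x t l))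
    (hcl : ∀ z ∈ zeroLocus K (idl fun t l => (x t l : K)), z ≠ 0 →
      ∃ t, Par z fun l => (x t l : K))
    (hp : (idl fun t l => (x t l : K)).IsPrime) (z : σ → Ω) (hz0 : z ≠ 0)
    (hz : ∀ F : MvPolynomial σ R, map R.subtype F ∈ (idl fun t l => (x t l : K)) →
      eval z (map r F) = 0) : ∃ t, Par z fun l => r (x t l) := by
  obtain ⟨y, h1, h2⟩ := lift_field hr _ hp (fun F hF e => idl_hom _ hF e) z hz
  obtain ⟨l₀, hl₀⟩ := Function.ne_iff.1 hz0
  obtain ⟨t, c, -, hc⟩ := hcl _ h1 (fun h => hl₀ (by
    have : y l₀ = 0 := by simpa using congrFun h l₀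
    rw [← h2, this, map_zero]; rfl))
  obtain ⟨l, hl⟩ := hx t
  obtain ⟨b, hb⟩ := hl.exists_right_inv
  have hcb : c = ((y l * b : R) : K) := by
    have h3 : (y l : K) = c * x t l := congrFun hc l
    have h4 : (x t l : K) * b = 1 := by exact_mod_cast congrArg Subtype.val hb
    rw [MulMemClass.coe_mul, h3, mul_assoc, h4, mul_one]
  have h5 : z = r (y l * b) • fun l => r (x t l) := funext fun k => by
    have : y k = y l * b * x t k := Subtype.ext (by
      rw [MulMemClass.coe_mul, ← hcb]; exact congrFun hc k)
    rw [← h2, this, map_mul]; rfl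
  refine ⟨t, _, IsUnit.mk0 _ fun h => hz0 ?_, h5⟩
  rw [h5, h, zero_smul]

theorem red_mem_idl (hr : Surjective r) {T σ : Type} (x : T → σ → R) {F : MvPolynomial σ R}
    (hF : map R.subtype F ∈ idl fun t l => (x t l : K)) :
    map r F ∈ idl fun t l => r (x t l) := by
  rintro _ ⟨c, t, rfl⟩
  obtain ⟨c, rfl⟩ := hr c
  have h1 : eval (c • x t) F = 0 := Subtype.ext (by
    have := hF _ ⟨(c : K), t, rfl⟩
    rw [aeval_eq_eval] at this
    exact (ev_map R.subtype _ F).trans this)
  have h2 := ev_map r (c • x t) F
  rw [h1, map_zero] at h2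
  rw [aeval_eq_eval, h2]
  congr 2
  funext l
  simp

/-- the set of reductions of the points of a projective variety is closed -/
theorem cl_red [IsAlgClosed K] [Infinite Ω] (hr : Surjective r) {T σ : Type} [Fintype σ]
    (x : T → σ → R) (hx : ∀ t, ∃ l, IsUnit (x t l))
    (hcl : ∀ z ∈ zeroLocus K (idl fun t l => (x t l : K)), z ≠ 0 →
      ∃ t, Par z fun l => (x t l : K))
    (hp : (idl fun t l => (x t l : K)).IsPrime) :
    ∀ z ∈ zeroLocus Ω (idl fun t l => r (x t l)), z ≠ 0 → ∃ t, Par z fun l => r (x t l) :=
  fun z hz h0 => lift_pt hr x hx hcl hp z h0 fun _ hF => by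
    have := hz _ (red_mem_idl hr x hF)
    rwa [aeval_eq_eval] at this

end Pool.Agent.Tav.Lft
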