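import Pool.Agent.P.MP_2ce3e7_ag.Tav.GrPiSmall
import Pool.Agent.P.MP_2ce3e7_ag.Tav.AFib

/-! Regular homomorphisms of the special fibre that are rational multiples of endomorphisms of the
model are integral. -/

set_option autoImplicit false

noncomputable section

namespace Pool.Agent.Tav.GrPi

open Module Function

section alg
open Polynomial
variable {Γ Λ : Type} [Fintype Γ] [CommRing Λ]

/-- the sum of the roots lies in a fixed finitely generated group -/
theorem exists_span (Γ : Type) [Fintype Γ] : ∃ S : Submodule ℤ ℂ, S.FG ∧ ∀ y : Γ → ℂ,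
    (∀ t : ℕ, ∃ z : ℤ, ∏ ρ, ((t : ℂ) - y ρ) = z) → ∑ ρ, y ρ ∈ S := by
  classical
  let n := Fintype.card Γ
  let κ : ℕ → ℂ := fun i => (Lagrange.basis (Finset.range (n + 1)) (fun t : ℕ => (t : ℂ)) i).coeff
    (n - 1)
  refine ⟨Submodule.span ℤ (κ '' (Finset.range (n + 1) : Set ℕ)),
    Submodule.fg_span ((Finset.finite_toSet _).image _), fun y hy => ?_⟩
  rcases isEmpty_or_nonempty Γ with h | h
  · simp
  have h1 := Lagrange.eq_interpolate (s := Finset.range (n + 1)) (v := fun t : ℕ => (t : ℂ))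
    (f := ∏ ρ, (X - C (y ρ))) Nat.cast_injective.injOn (by
      rw [degree_prod]
      simp only [degree_X_sub_C, Finset.sum_const, Finset.card_univ, Finset.card_range,
        nsmul_eq_mul, mul_one]
      exact_mod_cast Nat.lt_succ_self n)
  have h2 := prod_X_sub_C_coeff_card_pred Finset.univ y Fintype.card_pos
  rw [h1, Lagrange.interpolate_apply, finsetSum_coeff] at h2
  rw [← neg_mem_iff, ← h2]
  refine Submodule.sum_mem _ fun i hi => ?_
  obtain ⟨z, hz⟩ := hy i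
  rw [coeff_C_mul, eval_prod]
  simp only [eval_sub, eval_X, eval_C]
  rw [hz, ← zsmul_eq_mul]
  exact Submodule.smul_mem _ _ (Submodule.subset_span ⟨i, hi, rfl⟩)

/-- a ring of vectors with integral norms that contains a full order is integral -/
theorem int_of_norm (b : Basis Γ ℤ Λ) {χ : Γ → Λ →+* ℂ} (hχ : Injective χ) (M : Subring (Γ → ℂ))
    (h1 : ∀ a, (fun ρ => χ ρ a) ∈ M) (h2 : ∀ y ∈ M, ∃ z : ℤ, ∏ ρ, y ρ = z) {y : Γ → ℂ}
    (hy : y ∈ M) : IsIntegral ℤ y := by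
  obtain ⟨S, hS, h3⟩ := exists_span Γ
  have : Module.Finite ℤ S := .of_fg hS
  let τ : M →ₗ[ℤ] Γ → S := AddMonoidHom.toIntLinearMap
    { toFun := fun x j => ⟨∑ ρ, x.1 ρ * χ ρ (b j), h3 _ fun t =>
        h2 _ (M.sub_mem (natCast_mem M t) (M.mul_mem x.2 (h1 (b j))))⟩
      map_zero' := funext fun j => Subtype.ext (by simp)
      map_add' := fun x x' => funext fun j => Subtype.ext (by
        simp [add_mul, Finset.sum_add_distrib]) }
  have hτ : Injective τ := (injective_iff_map_eq_zero τ).2 fun x hx => by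
    have hi : Injective fun ρ => (χ ρ).toMonoidHom := fun ρ ρ' e =>
      hχ (RingHom.ext fun c => DFunLike.congr_fun e c)
    refine Subtype.ext (funext (Fintype.linearIndependent_iff.1
      ((linearIndependent_monoidHom Λ ℂ).comp _ hi) x.1 (funext fun c => ?_)))
    have e : ∀ j, ∑ ρ, x.1 ρ * χ ρ (b j) = 0 := fun j => congrArg Subtype.val (congrFun hx j)
    rw [Finset.sum_apply]
    calc ∑ ρ, x.1 ρ * χ ρ c = ∑ ρ, ∑ j, (b.repr c j : ℂ) * (x.1 ρ * χ ρ (b j)) := by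
          refine Finset.sum_congr rfl fun ρ _ => ?_
          rw [show χ ρ c = _ from Det.chi_repr b (χ ρ).toAddMonoidHom c, Finset.mul_sum]
          exact Finset.sum_congr rfl fun j _ => mul_left_comm _ _ _
      _ = 0 := by
          rw [Finset.sum_comm]
          exact Finset.sum_eq_zero fun j _ => by rw [← Finset.mul_sum, e, mul_zero]
  have : Module.Finite ℤ M := .of_injective τ hτ
  exact (IsIntegral.of_finite ℤ (⟨y, hy⟩ : M)).map M.subtype.toIntAlgHom

theorem eq_zero_of_prod {y : Γ → ℂ} (h : ∀ t : ℕ, ∏ ρ, ((t : ℂ) + y ρ) = ∏ _ρ : Γ, (t : ℂ))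
    (ρ : Γ) : y ρ = 0 := by
  have h1 : (∏ ρ, (X + C (y ρ)) : ℂ[X]) = ∏ _ρ : Γ, X :=
    eq_of_infinite_eval_eq _ _ ((Set.infinite_range_of_injective Nat.cast_injective).mono (by
      rintro _ ⟨t, rfl⟩
      simpa [eval_prod] using h t))
  have h2 := congrArg (Polynomial.eval (-y ρ)) h1
  rw [eval_prod, eval_prod, Finset.prod_eq_zero (Finset.mem_univ ρ) (by simp)] at h2
  obtain ⟨_, -, h3⟩ := Finset.prod_eq_zero_iff.1 h2.symm
  simpa using h3

end alg

variable {Ω : Type} [Field Ω] [IsAlgClosed Ω] {R : ValuationSubring ℂ} {r : R →+* Ω} {σ : Type}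
  [Fintype σ] {g : ℕ} (X : Model r σ g)

omit [IsAlgClosed Ω] in
theorem act_mem (a : EnR X.Λ) : ⇑(X.act a) ∈ rm X.sp := Mor.reg X.sp.ne X.sp.ne (X.mor_smul a)

theorem quadX : Quad (cm X.sp) :=
  quad_cm X.sp (ParLaw.of_law X.sp.ne (X.sp.cl_blk _) X.law_sp).parL

theorem cm_act (hD : X.fB.Deg) (a : EnR X.Λ) : cm X.sp (fun _ => ⟨_, act_mem X a⟩) =
    (∏ ρ, chE X.Λ ρ a) * cm X.sp fun _ => ⟨id, id_mem X.sp⟩ := by
  have e : X.fB.H = fun _ : Unit => LS.co X.p X.sp.ne := funext fun b => blk_unit X.sp.ne b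
  have := hD a
  simp only [Fib.DD, e] at this
  exact this

omit [IsAlgClosed Ω] in
theorem cm_id : cm X.sp (fun _ => ⟨id, id_mem X.sp⟩) ≠ 0 := by
  simpa [cm, LS.pb_id] using X.sp.top

/-- the action on the special fibre is faithful -/
theorem faithful (hD : X.fB.Deg) {a : EnR X.Λ} (h : ∀ b : X.B, a • b = 0) : a = 0 := by
  refine Subtype.ext (funext fun i => eq_zero_of_prod (y := fun ρ => chE X.Λ ρ a)
    (fun t => mul_right_cancel₀ (cm_id X) ?_) (Sum.inl i))
  have h1 := cm_act X hD (t + a)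
  have h2 := cm_act X hD t
  simp only [map_add, map_natCast] at h1 h2
  rw [← h1, ← h2]
  congr 1
  funext _
  refine Subtype.ext (funext fun b => ?_)
  change ((t : EnR X.Λ) + a) • b = (t : EnR X.Λ) • b
  rw [add_smul, h, add_zero]

/-- the eigenvalue vectors of the regular homomorphisms with a multiple in the ring -/
def ratR : Subring (Fin g ⊕ Fin g → ℂ) where
  carrier := {y | ∃ (u : X.B →+ X.B) (m : ℕ) (a : EnR X.Λ), m ≠ 0 ∧ ⇑u ∈ rm X.sp ∧
    (∀ ρ, m * y ρ = chE X.Λ ρ a) ∧ ∀ b, m • u b = a • b}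
  mul_mem' := by
    rintro y y' ⟨u, m, a, h1, h2, h3, h4⟩ ⟨u', m', a', h1', h2', h3', h4'⟩
    refine ⟨u.comp u', m * m', a * a', mul_ne_zero h1 h1',
      RegM.comp (B := fun _ : Unit => LS.co X.p X.sp.ne) (C := fun _ : Unit => LS.co X.p X.sp.ne)
        (D := fun _ : Unit => LS.co X.p X.sp.ne) (fun _ => h2') (fun _ => h2) (), fun ρ => ?_,
      fun b => ?_⟩
    · rw [map_mul, ← h3, ← h3', Nat.cast_mul, Pi.mul_apply, mul_mul_mul_comm]
    · rw [mul_smul, mul_smul, AddMonoidHom.comp_apply, ← map_nsmul, h4', h4]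
  one_mem' := ⟨AddMonoidHom.id _, 1, 1, one_ne_zero, id_mem _, by simp, by simp⟩
  add_mem' := by
    rintro y y' ⟨u, m, a, h1, h2, h3, h4⟩ ⟨u', m', a', h1', h2', h3', h4'⟩
    refine ⟨u + u', m * m', m' • a + m • a', mul_ne_zero h1 h1', add_mem h2 h2', fun ρ => ?_,
      fun b => ?_⟩
    · rw [map_add, map_nsmul, map_nsmul, ← h3, ← h3', Nat.cast_mul, Pi.add_apply, nsmul_eq_mul,
        nsmul_eq_mul]
      ring
    · rw [AddMonoidHom.add_apply, smul_add, add_smul, smul_assoc, smul_assoc, ← h4, ← h4',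
        smul_smul, smul_smul, mul_comm m']
  zero_mem' := ⟨0, 1, 0, one_ne_zero, zero_mem _, by simp, by simp⟩
  neg_mem' := by
    rintro y ⟨u, m, a, h1, h2, h3, h4⟩
    exact ⟨-u, m, -a, h1, neg_mem h2, fun ρ => by rw [map_neg, ← h3, Pi.neg_apply, mul_neg],
      fun b => by rw [AddMonoidHom.neg_apply, smul_neg, neg_smul, h4]⟩

theorem ratR_norm (hD : X.fB.Deg) {y : Fin g ⊕ Fin g → ℂ} (hy : y ∈ ratR X) :
    ∃ z : ℤ, ∏ ρ, y ρ = z := by
  classical
  obtain ⟨u, m, a, h1, h2, h3, h4⟩ := hy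
  obtain ⟨d, hd⟩ := exists_deg X.sp.src X.sp.src (j := u) fun _ => h2
  have e1 : cm X.sp (fun _ => ⟨u, h2⟩) = d * cm X.sp fun _ => ⟨id, id_mem X.sp⟩ := by
    have := hd (Fin g) (fun _ => LS.co X.p X.sp.ne) (by simp)
      fun _ => Reg.self (fun _ : Unit => LS.co X.p X.sp.ne) ()
    simp only [cm, LS.pb_id, this, Rat.cast_mul, Rat.cast_natCast]
  have e2 := (quadX X).scale m Finset.univ fun _ => ⟨u, h2⟩
  simp only [Finset.mem_univ, if_true] at e2
  rw [show (m • (⟨u, h2⟩ : rm X.sp)) = ⟨_, act_mem X a⟩ from Subtype.ext (funext h4), cm_act X hD,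
    e1, ← mul_assoc] at e2
  have e3 := mul_right_cancel₀ (cm_id X) e2
  simp only [← h3, Finset.prod_mul_distrib, Finset.prod_const, Finset.card_univ, Fintype.card_sum,
    Fintype.card_fin, ← two_mul] at e3
  exact ⟨d, mul_left_cancel₀ (pow_ne_zero _ (Nat.cast_ne_zero.2 h1)) e3⟩

/-- INT -/
theorem integral (hD : X.fB.Deg) {u : X.B →+ X.B} (hu : ⇑u ∈ rm X.sp) {m : ℕ} (hm : m ≠ 0)
    {a : EnR X.Λ} (h : ∀ b, m • u b = a • b) : IsIntegral ℤ ((m : ℂ)⁻¹ • a.1) := by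
  have := int_of_norm X.basis X.chE_inj (ratR X)
    (fun c => ⟨X.act c, 1, c, one_ne_zero, act_mem X c, by simp, fun b => one_smul _ _⟩)
    (fun y => ratR_norm X hD) (y := fun ρ => (m : ℂ)⁻¹ * chE X.Λ ρ a)
    ⟨u, m, a, hm, hu, fun ρ => mul_inv_cancel_left₀ (Nat.cast_ne_zero.2 hm) _, h⟩
  exact this.map (RingHom.pi fun i => Pi.evalRingHom (fun _ => ℂ) (Sum.inl i)).toIntAlgHom

end Pool.Agent.Tav.GrPi
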