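import Pool.Agent.P.MP_2ce3e7_ag.Tav.TiPosA
import Pool.Agent.P.MP_2ce3e7_ag.Tav.AExp
import Pool.Agent.P.MP_2ce3e7_ag.Tav.MFib
import Pool.Agent.P.MP_2ce3e7_ag.Tav.PUp

/-! A small homomorphism that kills many torsion points is zero. -/

set_option autoImplicit false

noncomputable section

namespace Pool.Agent.Tav.GrPi

open MvPolynomial Module Function

section quad
variable {ι M J : Type} [Fintype ι] [DecidableEq ι] [AddCommGroup M] [Fintype J]

/-- the parallelogram law in every slot -/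
def Quad (c : (ι → M) → ℂ) : Prop := ∀ f t x y,
  c (update f t (x + y)) + c (update f t (x - y)) = 2 * c (update f t x) + 2 * c (update f t y)

variable {c : (ι → M) → ℂ}

omit [Fintype ι] [AddCommGroup M] in
theorem upd_ite (A : Finset ι) {t₀ : ι} (ht : t₀ ∉ A) (a f : ι → M) (y : M) :
    update (fun t => if t ∈ A then a t else f t) t₀ y =
      fun t => if t ∈ A then a t else update f t₀ y t := by
  funext t
  by_cases h : t = t₀
  · subst h; simp [ht]
  · simp [h]

omit [Fintype ι] [AddCommGroup M] in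
theorem ite_insert (A : Finset ι) (t₀ : ι) (a f : ι → M) :
    (fun t => if t ∈ insert t₀ A then a t else f t) =
      update (fun t => if t ∈ A then a t else f t) t₀ (a t₀) := by
  funext t
  by_cases h : t = t₀
  · subst h; simp
  · simp [h]

omit [Fintype ι] in
theorem Quad.scale (hc : Quad c) (n : ℕ) (A : Finset ι) (f : ι → M) :
    c (fun t => if t ∈ A then n • f t else f t) = (n : ℂ) ^ (2 * A.card) * c f := by
  induction A using Finset.induction_on with
  | empty => simp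
  | insert t₀ A ht ih =>
    obtain ⟨B, -, hq⟩ := Det.polar
      (fun y => c (update (fun t => if t ∈ A then n • f t else f t) t₀ y)) (hc _ t₀)
    have h1 := hq (f t₀)
    rw [upd_ite A ht, update_eq_self, ih] at h1
    rw [ite_insert A t₀ (fun t => n • f t), hq, Finset.card_insert_of_notMem ht, map_nsmul,
      map_nsmul, AddMonoidHom.nsmul_apply, ← h1, nsmul_eq_mul, nsmul_eq_mul]
    ring

omit [Fintype ι] in
theorem Quad.bound (hc : Quad c) (u : J → M) (A : Finset ι) (f : ι → M) :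
    ∃ C : ℝ, 0 ≤ C ∧ ∀ (K : ℕ) (x : J → ℤ), (∀ j, |x j| ≤ K) →
      ‖c fun t => if t ∈ A then ∑ j, x j • u j else f t‖ ≤ C * (K : ℝ) ^ (2 * A.card) := by
  induction A using Finset.induction_on generalizing f with
  | empty => exact ⟨‖c f‖, norm_nonneg _, fun K x _ => by simp⟩
  | insert t₀ A ht ih =>
    choose C h0 hC using fun y => ih (update f t₀ y)
    refine ⟨∑ i, ∑ j, (C (u i + u j) + C (u i - u j)), Finset.sum_nonneg fun i _ =>
      Finset.sum_nonneg fun j _ => add_nonneg (h0 _) (h0 _), fun K x hx => ?_⟩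
    obtain ⟨B, hB, hq⟩ := Det.polar
      (fun y => c (update (fun t => if t ∈ A then ∑ j, x j • u j else f t) t₀ y)) (hc _ t₀)
    have hK : ∀ j, ‖(x j : ℂ)‖ ≤ K := fun j => by
      rw [Complex.norm_intCast]; exact_mod_cast hx j
    have h1 : ∀ i j, ‖B (u i) (u j)‖ ≤
        (C (u i + u j) + C (u i - u j)) * (K : ℝ) ^ (2 * A.card) := fun i j => by
      rw [hB, upd_ite A ht, upd_ite A ht, norm_div, add_mul]
      refine (div_le_self (norm_nonneg _) (by simp)).trans ((norm_sub_le _ _).trans ?_)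
      exact add_le_add (hC _ K x hx) (hC _ K x hx)
    rw [ite_insert A t₀ fun _ => ∑ j, x j • u j, hq, Finset.card_insert_of_notMem ht, map_sum B,
      AddMonoidHom.finsetSum_apply, Finset.sum_mul]
    refine norm_sum_le_of_le _ fun i _ => ?_
    rw [map_sum, Finset.sum_mul]
    refine norm_sum_le_of_le _ fun j _ => ?_
    rw [map_zsmul, map_zsmul, AddMonoidHom.smul_apply, zsmul_eq_mul, zsmul_eq_mul, norm_mul,
      norm_mul]
    calc ‖(x j : ℂ)‖ * (‖(x i : ℂ)‖ * ‖B (u i) (u j)‖)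
        ≤ K * (K * ((C (u i + u j) + C (u i - u j)) * (K : ℝ) ^ (2 * A.card))) := by
          gcongr
          exacts [hK j, hK i, h1 i j]
      _ = _ := by ring

theorem Quad.bound' (hc : Quad c) (u : J → M) (f : ι → M) :
    ∃ C : ℕ, ∀ (A : Finset ι) (K : ℕ) (x : J → ℤ), (∀ j, |x j| ≤ K) →
      ‖c fun t => if t ∈ A then ∑ j, x j • u j else f t‖ ≤ C * (K : ℝ) ^ (2 * A.card) := by
  choose C h0 hC using fun A => hc.bound u A f
  refine ⟨⌈∑ A, C A⌉₊, fun A K x hx => (hC A K x hx).trans ?_⟩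
  gcongr
  exact (Finset.single_le_sum (fun A _ => h0 A) (Finset.mem_univ A)).trans (Nat.le_ceil _)

end quad

variable {Ω G σ : Type} [Field Ω] [AddCommGroup G] [Fintype σ] {p : G → σ → Ω} {g : ℕ}

/-- the group of regular self-maps -/
def rm (h : AV p g) : AddSubgroup (G → G) :=
  AddSubgroup.ofSub {u | Reg (fun _ : Unit => LS.co p h.ne) ((LS.co p h.ne).pb u)}
    ⟨0, regM_const _ (fun _ : Unit => LS.co p h.ne) 0 ()⟩ fun u hu v hv => by
      have h1 : RegM (fun _ : Unit => LS.co p h.ne) (fun _ : Unit => LS.co p h.ne) u := fun _ => hu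
      have h2 : RegM (fun _ : Unit => LS.co p h.ne) (fun _ : Unit => LS.co p h.ne) v := fun _ => hv
      have := (h1.pair h2).pull h.sub'
      rw [LS.pb_pb] at this
      rw [← sub_eq_add_neg]
      exact this

theorem mem_rm {h : AV p g} {u : G → G} :
    u ∈ rm h ↔ Reg (fun _ : Unit => LS.co p h.ne) ((LS.co p h.ne).pb u) := Iff.rfl

theorem id_mem (h : AV p g) : id ∈ rm h := RegM.id (fun _ : Unit => LS.co p h.ne) ()

/-- the mixed degree of `g` regular self-maps -/
def cm (h : AV p g) (f : Fin g → rm h) : ℂ :=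
  (mix (fun _ : Unit => LS.co p h.ne) fun k => (LS.co p h.ne).pb (f k : G → G) : ℚ)

theorem quad_cm (h : AV p g) (hP : ParL (LS.co p h.ne)) : Quad (cm h) := by
  intro f t x y
  have e : ∀ z : rm h, (fun k => (LS.co p h.ne).pb (update f t z k : G → G)) =
      update (fun k => (LS.co p h.ne).pb (f k : G → G)) t ((LS.co p h.ne).pb (z : G → G)) := by
    intro z
    funext k
    by_cases hk : k = t
    · subst hk; simp
    · simp [hk]
  simp only [cm, e]
  exact_mod_cast hP.mix h.src (fun k => (f k).2) (by simp) t x.2 y.2 (x + y).2 (x - y).2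

/-- the product of two systems given by coordinates -/
theorem exists_segre {Y : Type} {a b : Y → σ → Ω} (ha : ∀ y, a y ≠ 0) (hb : ∀ y, b y ≠ 0) :
    ∃ (q : Y → σ × σ → Ω) (hq : ∀ y, q y ≠ 0),
      Reg (Sum.elim (fun _ : Unit => LS.co a ha) fun _ : Unit => LS.co b hb) (LS.co q hq) ∧
      ∀ k, Reg (fun _ : Unit => LS.co q hq)
        (Sum.elim (fun _ : Unit => LS.co a ha) (fun _ : Unit => LS.co b hb) k) := by
  refine ⟨fun y l => a y l.1 * b y l.2, fun y h0 => ?_, fun y => ⟨fun _ => 1, 1, one_ne_zero, ?_⟩,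
    ?_⟩
  · obtain ⟨i, hi⟩ := ne_iff.1 (ha y)
    obtain ⟨j, hj⟩ := ne_iff.1 (hb y)
    exact mul_ne_zero hi hj (congrFun h0 (i, j))
  · refine mul_mem_of_crd fun l => ?_
    rw [one_mul, pc, Fintype.prod_sum_type, Fintype.prod_unique, Fintype.prod_unique, pow_one,
      pow_one]
    exact Submodule.mul_mem_mul (Submodule.subset_span ⟨l.1, rfl⟩)
      (Submodule.subset_span ⟨l.2, rfl⟩)
  · rintro (k | k) y
    · obtain ⟨j, hj⟩ := ne_iff.1 (hb y)
      refine ⟨fun _ => 1, fun t => b t j, hj, mul_mem_of_crd fun l => ?_⟩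
      rw [Pp.pc_unit, pow_one, mul_comm]
      exact Submodule.subset_span ⟨(l, j), rfl⟩
    · obtain ⟨j, hj⟩ := ne_iff.1 (ha y)
      refine ⟨fun _ => 1, fun t => a t j, hj, mul_mem_of_crd fun l => ?_⟩
      rw [Pp.pc_unit, pow_one]
      exact Submodule.subset_span ⟨(j, l), rfl⟩

theorem cmp_av [IsAlgClosed Ω] (h : AV p g) : Cmp fun _ : Unit => LS.co p h.ne := by
  rw [← blk_unit' h.ne]
  refine ⟨σ, inferInstance, inferInstance, fun _ => (), fun v t => p t v, fun _ => rfl,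
    hx_unit h.ne, fun y hy h1 => ?_⟩
  obtain ⟨t, c, -, ht⟩ := h.cl' y hy fun d f hf h0 =>
    h1 f ((mem_kerG hf).2 (funext fun t => by rw [Sl.aeval_apply]; exact h0 t))
  exact ⟨t, c, ht⟩

/-- the degrees of a pair of homomorphisms are multiples of a number that bounds the kernel -/
theorem pair_deg [IsAlgClosed Ω] (hg : g ≠ 0) (h : AV p g)
    (hi : ∀ y y', Par (p y) (p y') → y = y') (v w : G →+ G) (hv : ⇑v ∈ rm h)
    (hw : ⇑w ∈ rm h) (h0 : cm h (fun _ => ⟨v, hv⟩) ≠ 0)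
    (h1 : w ≠ 0) {κ : Type} [Fintype κ] {τ : κ → G} (hτ : Injective τ) (e1 : ∀ i, v (τ i) = 0)
    (e2 : ∀ i, w (τ i) = 0) : ∃ A : Finset (Fin g), A.Nonempty ∧
      (Fintype.card κ : ℝ) ≤ ‖cm h fun t => if t ∈ A then ⟨w, hw⟩ else ⟨v, hv⟩‖ := by
  classical
  let Y := Set.range fun t => (v t, w t)
  let j : G → Y := Set.rangeFactorization _
  have hj : Surjective j := Set.rangeFactorization_surjective
  have ha : ∀ y : Y, p y.1.1 ≠ 0 := fun y => h.ne _
  have hb : ∀ y : Y, p y.1.2 ≠ 0 := fun y => h.ne _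
  obtain ⟨q, hq, r1, r2⟩ := exists_segre ha hb
  set C := Sum.elim (fun _ : Unit => LS.co _ ha) fun _ : Unit => LS.co _ hb with hC
  have eC : ∀ k, (C k).pb j = (LS.co p h.ne).pb (Sum.elim (fun _ => ⇑v) (fun _ => ⇑w) k) := by
    rintro (k | k) <;> simp only [hC, Sum.elim_inl, Sum.elim_inr, LS.pb_co] <;> rfl
  have rC : RegM (fun _ : Unit => LS.co p h.ne) C j := fun k => by
    rw [eC]
    rcases k with k | k
    exacts [hv, hw]
  have sC : Src C g := (Dense.of_surj hj C).src.1 (h.src.of_reg rC)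
  have sW : Src (fun _ : Unit => LS.co q hq) g := sC.of_reg fun _ => r1
  obtain ⟨r, hr⟩ := exists_deg h.src sW (j := j) fun _ => rC.pull r1
  have eb : ∀ s : Fin g → Unit ⊕ Unit, mix C (C ∘ s) = mix (fun _ : Unit => LS.co q hq) (C ∘ s) :=
    fun s => mix_base sC (fun _ => r1) r2 (fun k => Reg.self C _) (Fintype.card_fin g).ge
  have key : ∀ s : Fin g → Unit ⊕ Unit, mix (fun _ : Unit => LS.co p h.ne)
      (fun k => (C (s k)).pb j) = r * mix C (C ∘ s) := fun s => by
    rw [eb]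
    exact hr _ (C ∘ s) (by simp) fun k => r2 _
  have h2 : mix C (C ∘ fun _ : Fin g => Sum.inl ()) ≠ 0 := fun e => h0 (by
    have := key fun _ => Sum.inl ()
    rw [e, mul_zero] at this
    simp only [eC] at this
    exact Rat.cast_eq_zero.2 this)
  have h3 : mix (fun _ : Unit => LS.co q hq) (fun _ : Fin g => LS.co q hq) ≠ 0 := by
    rcases sW.top with ⟨s, hs⟩ | ⟨m, rfl, hm⟩
    · exact hs
    · exact absurd ((eb _).trans (mix_zero hm (fun k => r2 _) (by simp))) h2
  have h4 := Pp.card_le_mix h.ne hq h.src sW (rC.pull r1) (Dense.of_surj hj _)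
    (fun i t => t - τ i) 0 (fun i => Pp.av_trans h _ 0)
    (fun i x => Subtype.ext (Prod.ext
      (show v (x - τ i) = v x by rw [map_sub, e1, sub_zero])
      (show w (x - τ i) = w x by rw [map_sub, e2, sub_zero])))
    fun i i' e => hτ (sub_right_injective (hi _ _ e))
  rw [hr _ _ (by simp) fun _ => Reg.self (fun _ : Unit => LS.co q hq) ()] at h4
  have h5 := le_of_mul_le_mul_right h4 (lt_of_le_of_ne (Pp.mix_nonneg _ sW) h3.symm)
  obtain ⟨t, ht⟩ : ∃ t, w t ≠ 0 := by
    by_contra hn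
    push Not at hn
    exact h1 (AddMonoidHom.ext hn)
  obtain ⟨a, b, hab⟩ := Pp.not_par (h.ne (w t)) (h.ne (w 0)) fun e =>
    ht ((hi _ _ e).trans (map_zero w))
  let k : Fin g := ⟨0, Nat.pos_of_ne_zero hg⟩
  let s : Fin g → Unit ⊕ Unit := update (fun _ => Sum.inl ()) k (Sum.inr ())
  have hk : s k = Sum.inr () := update_self _ _ _
  have hs : mix C (C ∘ s) ≠ 0 := fun e => by
    have h6 := mix_pos (ν := Fin g) (cmp_av h) (by simpa using h.src) hv hw (fun hc => hab (by
      rw [LS.pb_co] at hc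
      exact (hc _ (Submodule.subset_span ⟨a, rfl⟩) _ (Submodule.subset_span ⟨b, rfl⟩) t 0).trans
        (mul_comm _ _))) (fun e => h0 (Rat.cast_eq_zero.2 e)) k
    have h7 := key s
    rw [e, mul_zero] at h7
    refine h6.ne' (Eq.trans (congrArg _ (funext fun t => ?_)) h7)
    rw [eC]
    by_cases ht : t = k
    · subst ht; simp [s]
    · simp [s, ht]
  obtain ⟨n, hn⟩ : ∃ n : ℕ, mix C (C ∘ s) = n := by
    rw [mix_self]
    exact nc_pf_nat _ _ (by simpa [map_sum, pL] using sC.dg)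
  refine ⟨Finset.univ.filter fun k => s k = Sum.inr (), ⟨k, by simpa using hk⟩, ?_⟩
  have e3 : cm h (fun t => if t ∈ Finset.univ.filter fun k => s k = Sum.inr () then ⟨w, hw⟩
      else ⟨v, hv⟩) = (r * n : ℕ) := by
    have := key s
    rw [hn, ← Nat.cast_mul] at this
    rw [← Rat.cast_natCast, ← this, cm]
    congr 2
    funext t
    rw [eC]
    rcases e : s t with _ | _ <;> simp [e]
  rw [e3, Complex.norm_natCast]
  have h6 : n ≠ 0 := fun e => hs (by rw [hn, e, Nat.cast_zero])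
  exact_mod_cast (Nat.cast_le.1 h5).trans (Nat.le_mul_of_pos_right r (Nat.pos_of_ne_zero h6))

/-- SMALL -/
theorem small_zero [IsAlgClosed Ω] (hg : g ≠ 0) (h : AV p g)
    (hi : ∀ y y', Par (p y) (p y') → y = y')
    (hP : ParL (LS.co p h.ne)) {J : Type} [Fintype J] (u : J → G →+ G) (hu : ∀ j, ⇑(u j) ∈ rm h) :
    ∃ C : ℕ, ∀ (N K : ℕ) (x : J → ℤ), (∀ j, |x j| ≤ K) → C * K < N →
      ∀ (κ : Type) [Fintype κ] (τ : κ → G), Injective τ → N ^ (2 * g) ≤ Fintype.card κ →
        (∀ i, N • τ i = 0) → (∀ i, (∑ j, x j • u j) (τ i) = 0) → ∑ j, x j • u j = 0 := by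
  classical
  have hq := quad_cm h hP
  obtain ⟨C, hC⟩ := hq.bound' (fun j => ⟨u j, hu j⟩) fun _ => ⟨id, id_mem h⟩
  refine ⟨C, fun N K x hx hN κ _ τ hτ hκ e1 e2 => not_not.1 fun h1 => ?_⟩
  have hN0 : (0 : ℝ) < N := Nat.cast_pos.2 (Nat.zero_lt_of_lt hN)
  have e3 : ⇑(∑ j, x j • u j) = ((∑ j, x j • (⟨u j, hu j⟩ : rm h) : rm h) : G → G) := by
    funext t
    simp
  have hw : ⇑(∑ j, x j • u j) ∈ rm h := e3 ▸ Subtype.coe_prop _
  have hv : ⇑(nsmulAddMonoidHom (α := G) N) ∈ rm h := (N • (⟨id, id_mem h⟩ : rm h)).2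
  obtain ⟨A, hA, h2⟩ := pair_deg hg h hi _ _ hv hw (by
    have := hq.scale N Finset.univ fun _ => ⟨id, id_mem h⟩
    simp only [Finset.mem_univ, if_true] at this
    refine fun e => mul_ne_zero (pow_ne_zero _ (Nat.cast_ne_zero.2 (Nat.ne_zero_of_lt hN))) ?_
      (this.symm.trans e)
    simpa [cm, LS.pb_id] using h.top) h1 hτ e1 e2
  have h3 := hq.scale N Aᶜ fun t => if t ∈ A then ⟨_, hw⟩ else ⟨id, id_mem h⟩
  have e4 : (fun t => if t ∈ Aᶜ then N • (if t ∈ A then (⟨_, hw⟩ : rm h) else ⟨id, id_mem h⟩)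
      else if t ∈ A then ⟨_, hw⟩ else ⟨id, id_mem h⟩) =
      fun t => if t ∈ A then ⟨_, hw⟩ else ⟨_, hv⟩ := by
    funext t
    by_cases ht : t ∈ A <;> simp [ht]
    rfl
  have h4 := hC A K x hx
  rw [show (∑ j, x j • (⟨u j, hu j⟩ : rm h) : rm h) = ⟨_, hw⟩ from Subtype.ext e3.symm] at h4
  rw [← e4, h3, norm_mul, norm_pow, Complex.norm_natCast] at h2
  have h5 : (N : ℝ) ^ (2 * Aᶜ.card) * N ^ (2 * A.card) ≤ N ^ (2 * Aᶜ.card) *
      (C * (K : ℝ) ^ (2 * A.card)) := by
    rw [← pow_add, ← mul_add, Finset.card_compl_add_card, Fintype.card_fin]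
    exact (by exact_mod_cast hκ : (N : ℝ) ^ (2 * g) ≤ Fintype.card κ).trans
      (h2.trans (by gcongr))
  have h6 : N ^ (2 * A.card) ≤ C * K ^ (2 * A.card) := by
    exact_mod_cast le_of_mul_le_mul_left h5 (pow_pos hN0 _)
  have h7 : 2 * A.card ≠ 0 := by have := hA.card_pos; omega
  have h8 := Nat.pow_lt_pow_left hN h7
  rw [mul_pow] at h8
  exact absurd (h6.trans (Nat.mul_le_mul_right _ (Nat.le_self_pow h7 C))) (not_le.2 h8)

end Pool.Agent.Tav.GrPi
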