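import Mathlib

/-! Valuation rings in algebraic extensions: extension, residues, conjugacy. -/

set_option autoImplicit false

noncomputable section

namespace Pool.Agent.Tav.Pl

open Polynomial
open scoped Pointwise

variable {K Ω : Type} [Field K] [Field Ω]

theorem ext_val (j : K →+* Ω) (O : ValuationSubring K) :
    ∃ R : ValuationSubring Ω, R.comap j = O := by
  let e := O.toSubring.equivMapOfInjective j j.injective
  obtain ⟨R, h1, h2⟩ := Ideal.image_subset_nonunits_valuationSubring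
    ((IsLocalRing.maximalIdeal O).comap e.symm.toRingHom)
    (Ideal.comap_ne_top _ (IsLocalRing.maximalIdeal.isMaximal O).ne_top)
  refine ⟨R, le_antisymm (fun x hx => ?_) fun x hx => h1 ⟨x, hx, rfl⟩⟩
  by_contra hn
  have h3 : x⁻¹ ∈ O.nonunits := O.inv_mem_nonunits_iff.2 (Or.inr hn)
  have h4 : j x⁻¹ ∈ R.nonunits := by
    refine h2 ⟨e ⟨x⁻¹, O.nonunits_le h3⟩, ?_, rfl⟩
    change e.symm (e _) ∈ IsLocalRing.maximalIdeal O
    rw [e.symm_apply_apply]
    exact O.coe_mem_nonunits_iff.1 h3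
  rw [map_inv₀, R.inv_mem_nonunits_iff] at h4
  rcases h4 with h | h
  · rw [map_eq_zero] at h
    exact hn (h ▸ O.zero_mem)
  · exact h hx

theorem nonunits_comap (j : K →+* Ω) (R : ValuationSubring Ω) (x : K) :
    x ∈ (R.comap j).nonunits ↔ j x ∈ R.nonunits := by
  rw [ValuationSubring.mem_nonunits_iff_or, ValuationSubring.mem_nonunits_iff_or,
    ValuationSubring.mem_comap, map_inv₀, map_eq_zero]

variable [Algebra K Ω]

theorem prim (R : ValuationSubring Ω) {x : Ω} (hx : IsAlgebraic K x) :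
    ∃ q : K[X], aeval x q = 0 ∧ (∀ i, algebraMap K Ω (q.coeff i) ∈ R) ∧ ∃ j, q.coeff j = 1 := by
  obtain ⟨q, hq, h0⟩ := hx
  obtain ⟨j, hj, hm⟩ := q.support.exists_max_image
    (fun i => R.valuation (algebraMap K Ω (q.coeff i))) (support_nonempty.2 hq)
  have hj0 : q.coeff j ≠ 0 := mem_support_iff.1 hj
  have hj1 : R.valuation (algebraMap K Ω (q.coeff j)) ≠ 0 := by simpa using hj0
  refine ⟨C (q.coeff j)⁻¹ * q, by simp [h0], fun i => ?_, j, by simp [hj0]⟩
  rw [coeff_C_mul]
  by_cases hi : i ∈ q.support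
  · rw [← R.valuation_le_one_iff, map_mul, map_mul, map_inv₀, map_inv₀,
      inv_mul_le_iff₀ (zero_lt_iff.2 hj1), mul_one]
    exact hm i hi
  · rw [notMem_support_iff.1 hi, mul_zero, map_zero]
    exact R.zero_mem

theorem res_mem {F : Type} [Field F] (R : ValuationSubring Ω) (r : R →+* F) (S : Subfield F)
    (hS : ∀ y : F, IsAlgebraic S y → y ∈ S)
    (h : ∀ (a : K) (ha : algebraMap K Ω a ∈ R), r ⟨_, ha⟩ ∈ S) (x : R)
    (hx : IsAlgebraic K (x : Ω)) : r x ∈ S := by
  obtain ⟨q, h0, hc, j, hj⟩ := prim R hx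
  let b : ℕ → S := fun i => ⟨r ⟨_, hc i⟩, h _ _⟩
  have hjl : j ∈ Finset.range (q.natDegree + 1) :=
    Finset.mem_range.2 (Nat.lt_succ_of_le (le_natDegree_of_ne_zero (hj ▸ one_ne_zero)))
  refine hS _ ⟨∑ i ∈ Finset.range (q.natDegree + 1), monomial i (b i), fun h1 => ?_, ?_⟩
  · have h2 := congrArg (fun u => coeff u j) h1
    simp only [finsetSum_coeff, coeff_monomial, Finset.sum_ite_eq', hjl, if_true,
      coeff_zero] at h2
    have h3 : (⟨_, hc j⟩ : R) = 1 := Subtype.ext (by simp [hj])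
    have h4 : r ⟨_, hc j⟩ = 0 := congrArg Subtype.val h2
    rw [h3, map_one] at h4
    exact one_ne_zero h4
  · have h2 : ∑ i ∈ Finset.range (q.natDegree + 1), (⟨_, hc i⟩ : R) * x ^ i = 0 := by
      apply Subtype.ext
      rw [aeval_eq_sum_range] at h0
      simpa [Algebra.smul_def] using h0
    have h3 := congrArg r h2
    rw [map_sum, map_zero] at h3
    rw [map_sum, ← h3]
    refine Finset.sum_congr rfl fun i _ => ?_
    rw [aeval_monomial, map_mul, map_pow]
    rfl

/-- the elements that lie in every valuation ring above `O` -/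
def cl (Ω : Type) [Field Ω] [Algebra K Ω] (O : ValuationSubring K) : Subalgebra O Ω where
  carrier := {x | ∀ V : ValuationSubring Ω, O ≤ V.comap (algebraMap K Ω) → x ∈ V}
  mul_mem' ha hb V h := V.mul_mem _ _ (ha V h) (hb V h)
  add_mem' ha hb V h := V.add_mem _ _ (ha V h) (hb V h)
  algebraMap_mem' a _ h := h a.2

theorem frac (R : ValuationSubring Ω) {x : Ω} (hx : IsAlgebraic K x) (hR : x ∈ R) :
    ∃ y, y ∈ cl Ω (R.comap (algebraMap K Ω)) ∧ x * y ∈ cl Ω (R.comap (algebraMap K Ω)) ∧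
      y ∉ R.nonunits := by
  obtain ⟨q, h0, hc, j, hj⟩ := prim R hx
  have co : ∀ i n, (divX^[i] q).coeff n = q.coeff (n + i) := by
    intro i
    induction i with
    | zero => exact fun _ => rfl
    | succ i ih =>
      intro n
      rw [Function.iterate_succ_apply', coeff_divX, ih]
      congr 1
      omega
  let y : ℕ → Ω := fun i => aeval x (divX^[i] q)
  have st : ∀ i, x * y (i + 1) = y i - algebraMap K Ω (q.coeff i) := by
    intro i
    have h1 := congrArg (aeval x) (divX_mul_X_add (divX^[i] q))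
    rw [map_add, map_mul, aeval_X, aeval_C, co, zero_add] at h1
    simp only [y, Function.iterate_succ_apply']
    linear_combination h1
  have hy : ∀ i, y i ∈ cl Ω (R.comap (algebraMap K Ω)) := by
    intro i V hV
    rcases V.mem_or_inv_mem x with h | h
    · simp only [y]
      rw [aeval_eq_sum_range]
      refine sum_mem fun n _ => ?_
      rw [Algebra.smul_def, co]
      exact mul_mem (hV (hc _)) (pow_mem h _)
    · by_cases hx0 : x = 0
      · simp only [y]
        rw [hx0, ← coeff_zero_eq_aeval_zero', co]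
        exact hV (hc _)
      induction i with
      | zero =>
        have : y 0 = 0 := h0
        rw [this]
        exact V.zero_mem
      | succ i ih =>
        have : y (i + 1) = x⁻¹ * (y i - algebraMap K Ω (q.coeff i)) := by
          rw [← st, inv_mul_cancel_left₀ hx0]
        rw [this]
        exact mul_mem h (sub_mem ih (hV (hc _)))
  have hxy : ∀ i, x * y i ∈ cl Ω (R.comap (algebraMap K Ω)) := by
    rintro (_ | i)
    · have : y 0 = 0 := h0
      rw [this, mul_zero]
      exact zero_mem _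
    · rw [st]
      exact sub_mem (hy i) fun V hV => hV (hc _)
  by_contra hn
  have h1 : ∀ i, R.valuation (y i) < 1 := fun i => by
    by_contra h
    exact hn ⟨y i, hy i, hxy i, fun h' => h (R.mem_nonunits_iff.1 h')⟩
  have h2 : (1 : Ω) = y j - x * y (j + 1) := by
    rw [st, hj, map_one]
    ring
  have h3 : R.valuation (x * y (j + 1)) < 1 := by
    rw [map_mul]
    exact mul_lt_one_of_nonneg_of_lt_one_right ((R.valuation_le_one_iff x).2 hR) zero_le (h1 _)
  have h4 := R.valuation.map_sub_lt (h1 j) h3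
  rw [← h2, map_one] at h4
  exact lt_irrefl _ h4

theorem le_of_center [Algebra.IsAlgebraic K Ω] {O : ValuationSubring K} {R R' : ValuationSubring Ω}
    (h : R.comap (algebraMap K Ω) = O) (h' : R'.comap (algebraMap K Ω) = O)
    (hc : ∀ b ∈ cl Ω O, b ∈ R'.nonunits → b ∈ R.nonunits) : R ≤ R' := by
  intro x hx
  obtain ⟨y, h1, h2, h3⟩ := frac (K := K) R (Algebra.IsAlgebraic.isAlgebraic x) hx
  rw [h] at h1 h2
  have h4 : y ∉ R'.nonunits := fun h5 => h3 (hc y h1 h5)
  rw [ValuationSubring.mem_nonunits_iff_or, not_or, not_not] at h4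
  have : x = x * y * y⁻¹ := by rw [mul_inv_cancel_right₀ h4.1]
  rw [this]
  exact mul_mem (h2 R' h'.ge) h4.2

theorem comap_gal (g : Ω ≃ₐ[K] Ω) (V : ValuationSubring Ω) :
    (V.comap (g : Ω →+* Ω)).comap (algebraMap K Ω) = V.comap (algebraMap K Ω) := by
  ext a
  simp [ValuationSubring.mem_comap]

instance clAct (O : ValuationSubring K) : MulSemiringAction (Ω ≃ₐ[K] Ω) (cl Ω O) where
  smul g x := ⟨g x, fun V h => x.2 (V.comap (g : Ω →+* Ω)) (by rwa [comap_gal])⟩
  one_smul _ := rfl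
  mul_smul _ _ _ := rfl
  smul_zero g := Subtype.ext (map_zero g)
  smul_add g x y := Subtype.ext (map_add g (x : Ω) y)
  smul_one g := Subtype.ext (map_one g)
  smul_mul g x y := Subtype.ext (map_mul g (x : Ω) y)

theorem cl_smul {O : ValuationSubring K} (g : Ω ≃ₐ[K] Ω) (x : cl Ω O) :
    ((g • x : cl Ω O) : Ω) = g x := rfl

/-- the centre of a valuation ring -/
def cen {O : ValuationSubring K} (R : ValuationSubring Ω) (h : R.comap (algebraMap K Ω) = O) :
    Ideal (cl Ω O) :=
  (IsLocalRing.maximalIdeal R).comap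
    (((cl Ω O).val : cl Ω O →+* Ω).codRestrict R fun x => x.2 R h.ge)

theorem mem_cen {O : ValuationSubring K} {R : ValuationSubring Ω}
    (h : R.comap (algebraMap K Ω) = O) (x : cl Ω O) : x ∈ cen R h ↔ (x : Ω) ∈ R.nonunits :=
  (R.coe_mem_nonunits_iff (a := ⟨x, x.2 R h.ge⟩)).symm

/-- two valuation rings above the same valuation ring are conjugate -/
theorem conj [IsGalois K Ω] (R R' : ValuationSubring Ω)
    (h : R.comap (algebraMap K Ω) = R'.comap (algebraMap K Ω)) :
    ∃ g : Ω ≃ₐ[K] Ω, ∀ z, g z ∈ R' ↔ z ∈ R := by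
  generalize hO : R'.comap (algebraMap K Ω) = O at h
  let : TopologicalSpace (cl Ω O) := ⊥
  have : DiscreteTopology (cl Ω O) := ⟨rfl⟩
  have : SMulCommClass (Ω ≃ₐ[K] Ω) O (cl Ω O) := ⟨fun g a x => Subtype.ext (by
    change g ((a : K) • (x : Ω)) = (a : K) • g x
    exact map_smul g _ _)⟩
  have : ContinuousSMul (Ω ≃ₐ[K] Ω) (cl Ω O) := by
    refine continuousSMul_iff_stabilizer_isOpen.2 fun x => ?_
    have e : (MulAction.stabilizer (Ω ≃ₐ[K] Ω) x : Set (Ω ≃ₐ[K] Ω)) =
        MulAction.stabilizer (Ω ≃ₐ[K] Ω) (x : Ω) := Set.ext fun g => Subtype.ext_iff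
    rw [e]
    exact stabilizer_isOpen_of_isIntegral _
  have : Algebra.IsInvariant O (cl Ω O) (Ω ≃ₐ[K] Ω) := ⟨fun b hb => by
    obtain ⟨a, ha⟩ := (InfiniteGalois.mem_range_algebraMap_iff_fixed (k := K) (b : Ω)).2
      fun g => congrArg Subtype.val (hb g)
    have h1 : a ∈ O := by
      rw [← h, ValuationSubring.mem_comap, ha]
      exact b.2 R h.ge
    exact ⟨⟨a, h1⟩, Subtype.ext ha⟩⟩
  have : (cen R h).IsPrime := Ideal.comap_isPrime _ _
  have : (cen R' hO).IsPrime := Ideal.comap_isPrime _ _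
  obtain ⟨g, hg⟩ := Algebra.IsInvariant.exists_smul_of_under_eq_of_profinite (A := O)
    (G := Ω ≃ₐ[K] Ω) (cen R' hO) (cen R h) (by
      ext a
      rw [Ideal.under, Ideal.under, Ideal.mem_comap, Ideal.mem_comap, mem_cen, mem_cen]
      change algebraMap K Ω a ∈ _ ↔ algebraMap K Ω a ∈ _
      rw [← nonunits_comap, ← nonunits_comap, h, hO])
  have h1 : ∀ b ∈ cl Ω O, b ∈ R.nonunits ↔ b ∈ (R'.comap ((g⁻¹ : Ω ≃ₐ[K] Ω) : Ω →+* Ω)).nonunits := by
    intro b hb
    rw [nonunits_comap, ← mem_cen h ⟨b, hb⟩, hg, Ideal.mem_pointwise_smul_iff_inv_smul_mem,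
      mem_cen]
    rfl
  have h2 := (comap_gal g⁻¹ R').trans hO
  have h3 := le_antisymm (le_of_center h h2 fun b hb => (h1 b hb).2)
    (le_of_center h2 h fun b hb => (h1 b hb).1)
  exact ⟨g⁻¹, fun z => by rw [h3]; rfl⟩

/-- an automorphism that keeps the trace of `R` extends to one that keeps `R` -/
theorem ext_aut [IsAlgClosure K Ω] [CharZero K] (R : ValuationSubring Ω) (e : K ≃+* K)
    (he : ∀ a, algebraMap K Ω (e a) ∈ R ↔ algebraMap K Ω a ∈ R) :
    ∃ t : Ω ≃+* Ω, (∀ z, t z ∈ R ↔ z ∈ R) ∧ ∀ a, t (algebraMap K Ω a) = algebraMap K Ω (e a) := by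
  let t := IsAlgClosure.equivOfEquiv Ω Ω e
  have ht : ∀ a, t (algebraMap K Ω a) = algebraMap K Ω (e a) :=
    IsAlgClosure.equivOfEquiv_algebraMap Ω Ω e
  obtain ⟨g, hg⟩ := conj (K := K) R (R.comap (t : Ω →+* Ω)) (by
    ext a
    simp only [ValuationSubring.mem_comap, RingEquiv.coe_toRingHom, ht, he])
  refine ⟨g.toRingEquiv.trans t, hg, fun a => ?_⟩
  change t (g _) = _
  rw [g.commutes, ht]

omit [Algebra K Ω] in
theorem res_closed [IsAlgClosed Ω] (R : ValuationSubring Ω) :
    IsAlgClosed (IsLocalRing.ResidueField R) := by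
  refine IsAlgClosed.of_exists_root _ fun q hq hi => ?_
  obtain ⟨Q, h1, h2, h3⟩ := lifts_and_degree_eq_and_monic
    (f := IsLocalRing.residue R) ((mem_lifts _).2
      (map_surjective _ IsLocalRing.residue_surjective q)) hq
  obtain ⟨x, hx⟩ := IsAlgClosed.exists_aeval_eq_zero Ω Q
    (h2 ▸ (degree_pos_of_irreducible hi).ne')
  obtain ⟨y, rfl⟩ := IsIntegrallyClosed.algebraMap_eq_of_integral (R := R) ⟨Q, h3, hx⟩
  refine ⟨IsLocalRing.residue R y, ?_⟩
  rw [aeval_algebraMap_apply, map_eq_zero_iff _ (IsFractionRing.injective R Ω)] at hx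
  rw [← h1, eval_map, eval₂_hom, ← coe_aeval_eq_eval, hx, map_zero]

end Pool.Agent.Tav.Pl
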