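import Pool.Agent.P.MP_2ce3e7_ag.Tav.GrOrt

/-! Product lattices, tensor products, expansions along a unitary map. -/

set_option autoImplicit false

open Complex Matrix
open scoped Real ComplexConjugate

namespace Pool.Agent.Tav.Gd

open Pool.Agent.Cmh

noncomputable section

section Prod

variable {κ : Type*} [Fintype κ] {ι : κ → Type*} [∀ k, Fintype (ι k)]

/-- the component `k` of a vector -/
def cp (z : (Σ k, ι k) → ℂ) (k : κ) : ι k → ℂ := fun i => z ⟨k, i⟩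

/-- the vector with given components -/
def mkv (x : ∀ k, ι k → ℂ) : (Σ k, ι k) → ℂ := fun s => x s.1 s.2

/-- the product of lattices -/
def pl (M : ∀ k, Submodule ℤ (ι k → ℂ)) : Submodule ℤ ((Σ k, ι k) → ℂ) where
  carrier := {z | ∀ k, cp z k ∈ M k}
  zero_mem' := fun k => (M k).zero_mem
  add_mem' := fun h h' k => (M k).add_mem (h k) (h' k)
  smul_mem' := fun c _ h k => (M k).smul_mem c (h k)

/-- the tensor product of functions -/
def tp (f : ∀ k, (ι k → ℂ) → ℂ) : ((Σ k, ι k) → ℂ) → ℂ := fun z => ∏ k, f k (cp z k)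

variable {M : ∀ k, Submodule ℤ (ι k → ℂ)} {f : ∀ k, (ι k → ℂ) → ℂ}

omit [Fintype κ] [∀ k, Fintype (ι k)] in
lemma mem_pl {z : (Σ k, ι k) → ℂ} : z ∈ pl M ↔ ∀ k, cp z k ∈ M k := Iff.rfl

omit [Fintype κ] [∀ k, Fintype (ι k)] in
@[simp] lemma cp_mkv (x : ∀ k, ι k → ℂ) (k : κ) : cp (mkv x) k = x k := rfl

omit [Fintype κ] [∀ k, Fintype (ι k)] in
lemma cp_add (z w : (Σ k, ι k) → ℂ) (k : κ) : cp (z + w) k = cp z k + cp w k := rfl

omit [Fintype κ] [∀ k, Fintype (ι k)] in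
lemma cp_zero (k : κ) : cp (0 : (Σ k, ι k) → ℂ) k = 0 := rfl

lemma Hm_cp (z w : (Σ k, ι k) → ℂ) : Hm z w = ∑ k, Hm (cp z k) (cp w k) := by
  simp only [Hm, Fintype.sum_sigma, cp]

lemma nq_cp (z : (Σ k, ι k) → ℂ) : nq z = ∑ k, nq (cp z k) := by
  simp only [nq, Fintype.sum_sigma, cp]

lemma U_tp (w : (Σ k, ι k) → ℂ) : U w (tp f) = tp fun k => U (cp w k) (f k) := by
  ext z
  simp only [U_apply, tp, Finset.prod_mul_distrib, ← Complex.exp_sum, cp_add]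
  rw [Hm_cp, nq_cp]
  push_cast
  rw [Finset.sum_sub_distrib, Finset.mul_sum, Finset.mul_sum, Finset.sum_div]

lemma tp_diff (hf : ∀ k, Differentiable ℂ (f k)) : Differentiable ℂ (tp f) := by
  classical
  have h : ∀ s : Finset κ, Differentiable ℂ fun z : (Σ k, ι k) → ℂ => ∏ k ∈ s, f k (cp z k) := by
    intro s
    induction s using Finset.induction_on with
    | empty => simp
    | insert k s hk ih =>
      simp only [Finset.prod_insert hk]
      exact ((hf k).comp (differentiable_pi.2 fun i => differentiable_apply _)).mul ih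
  exact h _

lemma tp_mem (hf : ∀ k, f k ∈ Th (M k)) : tp f ∈ Th (pl M) :=
  ⟨tp_diff fun k => (hf k).1, fun m hm => by
    rw [U_tp]; congr 1; funext k; exact (hf k).2 _ (hm k)⟩

omit [∀ k, Fintype (ι k)] in
lemma isLat_pl (hM : ∀ k, IsLat (M k)) : IsLat (pl M) := by
  classical
  constructor
  · have : ∀ k, DiscreteTopology (M k) := fun k => (hM k).1
    refine DiscreteTopology.of_continuous_injective
      (f := fun z : pl M => fun k => (⟨cp z.1 k, z.2 k⟩ : M k)) ?_ ?_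
    · refine continuous_pi fun k => Continuous.subtype_mk (continuous_pi fun i => ?_) _
      exact (continuous_apply _).comp continuous_subtype_val
    · intro z w h
      ext s
      exact congrFun (congrArg Subtype.val (congrFun h s.1)) s.2
  · rw [eq_top_iff]
    intro z _
    have e : z = ∑ k, mkv (Pi.single k (cp z k)) := by
      ext s
      rw [Finset.sum_apply, Finset.sum_eq_single s.1]
      · simp [mkv, cp]
      · intro k _ hk; simp [mkv, Pi.single_eq_of_ne hk.symm]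
      · simp
    rw [e]
    refine Submodule.sum_mem _ fun k _ => ?_
    have hz : cp z k ∈ Submodule.span ℝ (M k : Set (ι k → ℂ)) := by rw [(hM k).2]; trivial
    generalize cp z k = y at hz
    induction hz using Submodule.span_induction with
    | mem y hy =>
      refine Submodule.subset_span fun j => ?_
      by_cases h : j = k
      · subst h; simpa using hy
      · simp [Pi.single_eq_of_ne h]
    | zero => rw [Pi.single_zero]; exact Submodule.zero_mem _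
    | add y y' _ _ h h' => rw [Pi.single_add]; exact Submodule.add_mem _ h h'
    | smul c y _ h => rw [Pi.single_smul]; exact Submodule.smul_mem _ c h

lemma ev_pl (hM : ∀ k, Ev (M k)) : Ev (pl M) := by
  refine ⟨isLat_pl fun k => (hM k).1, fun x hx y hy => ?_⟩
  choose n hn using fun k => (hM k).2 _ (hx k) _ (hy k)
  refine ⟨∑ k, n k, ?_⟩
  rw [Hm_cp, im_sum]; simp only [hn]; push_cast; rw [Finset.mul_sum]

lemma du_pl : du (pl M) = pl fun k => du (M k) := by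
  classical
  ext x
  constructor
  · intro h k m hm
    obtain ⟨n, hn⟩ := h (mkv (Pi.single k m)) fun j => by
      by_cases h : j = k
      · subst h; simpa using hm
      · simp [Pi.single_eq_of_ne h]
    refine ⟨n, ?_⟩
    rw [← hn, Hm_cp, Finset.sum_eq_single k]
    · simp
    · intro j _ hj; simp [Pi.single_eq_of_ne hj, Hm_zero_right]
    · simp
  · intro h m hm
    choose n hn using fun k => h k _ (hm k)
    exact ⟨∑ k, n k, by rw [Hm_cp, im_sum]; simp only [hn]; push_cast; rfl⟩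

omit [∀ k, Fintype (ι k)] in
lemma mem_QQ_pl {z : (Σ k, ι k) → ℂ} : z ∈ QQ (pl M) ↔ ∀ k, cp z k ∈ QQ (M k) := by
  classical
  refine ⟨fun ⟨n, hn, h⟩ k => ⟨n, hn, h k⟩, fun h => ?_⟩
  choose n hn h using h
  refine ⟨∏ k, n k, Finset.prod_ne_zero_iff.2 fun k _ => hn k, fun k => ?_⟩
  rw [← Finset.prod_erase_mul _ _ (Finset.mem_univ k)]
  rw [mul_smul]
  exact nsmul_mem (h k) _

variable {Γ : Type*} [LinearOrderedCommGroupWithZero Γ] {v : Valuation ℂ Γ}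

lemma un_pl (hM : ∀ k, Un v (M k)) : Un v (pl M) := by
  classical
  refine ⟨ev_pl fun k => (hM k).1, ?_⟩
  choose n hn h using fun k => (hM k).2
  refine ⟨∏ k, n k, by simp [hn], fun x hx k => ?_⟩
  rw [du_pl] at hx
  rw [← Finset.prod_erase_mul _ _ (Finset.mem_univ k)]
  rw [mul_smul]
  exact nsmul_mem (h k _ (hx k)) _

end Prod

section Lin

variable {ι : Type*} [Fintype ι] {M : Submodule ℤ (ι → ℂ)}
  {Γ : Type*} [LinearOrderedCommGroupWithZero Γ] {v : Valuation ℂ Γ}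

/-- evaluation at `z` after the operator `U w` -/
def evU (z w : ι → ℂ) : ((ι → ℂ) → ℂ) →ₗ[ℂ] ℂ := LinearMap.proj z ∘ₗ U w

lemma evU_apply (z w : ι → ℂ) (f : (ι → ℂ) → ℂ) : evU z w f = U w f z := rfl

lemma val_UU (hM : Ev M) {x y : ι → ℂ} (hx : x ∈ QQ M) (hy : y ∈ QQ M) (f : (ι → ℂ) → ℂ)
    (z : ι → ℂ) : v (U x (U y f) z) = v (U (x + y) f z) := by
  rw [U_U', Pi.smul_apply, smul_eq_mul, map_mul, val_ph v hM hy hx, one_mul]

lemma val_per (hM : Ev M) {f : (ι → ℂ) → ℂ} (hf : f ∈ Th M) {x m : ι → ℂ} (hx : x ∈ QQ M)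
    (hm : m ∈ M) (z : ι → ℂ) : v (U (x + m) f z) = v (U x f z) := by
  rw [← val_UU hM hx (le_QQ hm), hf.2 m hm]

lemma isLat_of (hM : IsLat M) {Y : Submodule ℤ (ι → ℂ)} (h : M ≤ Y) {n : ℕ}
    (hn : n ≠ 0) (h' : ∀ y ∈ Y, n • y ∈ M) : IsLat Y :=
  hM.of_com ⟨n, hn, fun _ hx => nsmul_mem (h hx) n, h'⟩

/-- a function that is periodic under a sublattice has a maximum on every coset -/
lemma exists_max {Y : Submodule ℤ (ι → ℂ)} (hM : IsLat M) (hY : IsLat Y) (h : M ≤ Y)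
    {X : Type*} [LinearOrder X] (g : (ι → ℂ) → X) (hg : ∀ y ∈ Y, ∀ m ∈ M, g (y + m) = g y) :
    ∃ w ∈ Y, ∀ y ∈ Y, g y ≤ g w := by
  obtain ⟨n, l, hl⟩ := exists_reps hY hM h
  have := hl.nonempty
  obtain ⟨a, ha⟩ := Finite.exists_max fun a => g (l a)
  refine ⟨l a, hl.1 a, fun y hy => ?_⟩
  obtain ⟨b, hb, -⟩ := hl.2 y hy
  have := hg (l b) (hl.1 b) _ hb
  rw [add_sub_cancel] at this
  rw [this]; exact ha b

variable [DecidableEq ι] {A : Matrix ι ι ℂ}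

lemma un_inf (hM : Un v M) (hA : IsUni A) {n : ℕ} (hn : v n = 1)
    (h1 : ∀ x ∈ M, n • A *ᵥ x ∈ M) (h2 : ∀ x ∈ M, n • Aᴴ *ᵥ x ∈ M) :
    Com M (mp Aᴴ M) ∧ Un v (M ⊓ mp Aᴴ M) ∧ du (M ⊓ mp Aᴴ M) = du M ⊔ mp Aᴴ (du M) := by
  have hn0 : n ≠ 0 := fun e => by simp [e] at hn
  have hc : Com M (mp Aᴴ M) := ⟨n, hn0, fun x hx => by
    rw [mem_mp_ct hA, mulVec_smul]; exact h1 x hx, fun x hx => by
    obtain ⟨y, hy, rfl⟩ := mem_mp.1 hx
    exact h2 y hy⟩
  have hd : du (M ⊓ mp Aᴴ M) = du M ⊔ mp Aᴴ (du M) := by rw [du_inf hM.1.1 hc, du_mp hA.ct]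
  obtain ⟨N, hN, hN'⟩ := hM.2
  refine ⟨hc, ⟨hM.1.mono (hM.1.1.of_com ((Com.refl M).inf hc.symm).symm) inf_le_left,
    n * N, by rw [Nat.cast_mul, map_mul, hn, hN, one_mul], fun x hx => ?_⟩, hd⟩
  rw [hd] at hx
  obtain ⟨a, ha, b, hb, rfl⟩ := Submodule.mem_sup.1 hx
  obtain ⟨y, hy, rfl⟩ := mem_mp.1 hb
  rw [smul_add, mul_smul, mul_smul]
  refine Submodule.add_mem _ ⟨nsmul_mem (hN' a ha) n, ?_⟩ ⟨?_, ?_⟩
  · show _ ∈ mp Aᴴ M
    rw [mem_mp_ct hA, mulVec_smul]; exact h1 _ (hN' a ha)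
  · rw [← mulVec_smul]; exact h2 _ (hN' y hy)
  · rw [← mulVec_smul, ← mulVec_smul]; exact mem_mp.2 ⟨_, nsmul_mem (hN' y hy) n, rfl⟩

/-- LIN: the pull-back of `F` is an integral combination of translates of `F` -/
theorem lin (hM : Un v M) (hA : IsUni A) {n : ℕ} (hn : v n = 1)
    (h1 : ∀ x ∈ M, n • A *ᵥ x ∈ M) (h2 : ∀ x ∈ M, n • Aᴴ *ᵥ x ∈ M) {F : (ι → ℂ) → ℂ}
    (hF : F ∈ Th M) (Y : Submodule ℤ (ι → ℂ)) (hY : Y ≤ QQ M) (hd : du M ≤ Y)
    (hd' : mp Aᴴ (du M) ≤ Y) (hAY : ∀ y ∈ Y, A *ᵥ y ∈ Y) {w : ι → ℂ} (hw : w ∈ Y)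
    (hmax : ∀ y ∈ Y, v (U y F 0) ≤ v (U w F 0)) (h0 : U w F 0 ≠ 0) :
    ∃ (m : ℕ) (l : Fin m → ι → ℂ) (c : Fin m → ℂ), (∀ a, l a ∈ du M ⊔ mp Aᴴ (du M)) ∧
      (∀ a, v (c a) ≤ 1) ∧ pb A F = ∑ a, c a • U (l a) F := by
  obtain ⟨hc, hU, he⟩ := un_inf hM hA hn h1 h2
  obtain ⟨m, l, hl⟩ := exists_reps hU.1.1.du hU.1.1 hU.1.le_du
  have hF' : pb A F ∈ Th (M ⊓ mp Aᴴ M) := pb_mem_Th hA (fun x hx => (mem_mp_ct hA).1 hx.2) hF
  obtain ⟨c, hc1, hc2⟩ := span hU hl (evU 0 w) (Th_mono inf_le_left hF) hF' h0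
  refine ⟨m, l, c, fun a => he ▸ hl.1 a, fun a => ?_, hc2⟩
  have ha : -l a ∈ Y := neg_mem (sup_le hd hd' (he ▸ hl.1 a))
  have e := hc1 a
  rw [evU_apply, evU_apply, val_UU hM.1 (hY hw) (hY ha), U_pb hA, pb_apply, mulVec_zero] at e
  have h3 : v (U w F 0) ≠ 0 := by simpa using h0
  have h4 := hmax _ (hAY _ (add_mem hw ha))
  rw [← e] at h4
  exact (mul_le_iff_le_one_left (zero_lt_iff.2 h3)).1 h4

end Lin

end

end Pool.Agent.Tav.Gd
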