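import Pool.Agent.P.MP_2ce3e7_ag.Tav.SMod

/-! Transport of regular maps, Hilbert functions and abelian varieties along an isomorphism of
fields. -/

set_option autoImplicit false

noncomputable section

namespace Pool.Agent.Tav.Tw

open MvPolynomial Set Function Module Tr

section ring
variable {K K' T U σ τ ι : Type} [CommRing K] [CommRing K']

theorem sub_crd (t : K →+* K') (j : T → U) {p : U → σ → K} {p' : T → σ → K'}
    (hp : ∀ w, Par (p' w) fun l => t (p (j w) l)) : ∃ μ : T → K', (∀ w, IsUnit (μ w)) ∧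
      Sub t id μ ((crd p).map (pb K j).toLinearMap) (crd p') := by
  rw [map_crd]
  exact Sub.crd hp

theorem rg_tw [Fintype ι] (t : K →+* K') (j : T → U) {L : ι → Submodule K (U → K)}
    {L' : ι → Submodule K' (T → K')} (hL : ∀ i, ∃ μ : T → K', (∀ w, IsUnit (μ w)) ∧
      Sub t id μ ((L i).map (pb K j).toLinearMap) (L' i)) {q : U → τ → K} (h : Rg L (crd q))
    {q' : T → τ → K'} (hq : ∀ w, Par (q' w) fun l => t (q (j w) l)) : Rg L' (crd q') := by
  have h1 := rg_pb h j
  rw [map_crd] at h1
  exact rg_red surjective_id hL h1 hq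

theorem mor_tw (t : K →+* K') (j : T → U) {p : U → σ → K} {p' : T → σ → K'}
    (hp : ∀ w, Par (p' w) fun l => t (p (j w) l)) {f : U → U} {f' : T → T} (h : Mor p p f)
    (hf : ∀ w, Par (p (j (f' w))) (p (f (j w)))) : Mor p' p' f' :=
  rg_tw t j (L := ![crd p]) (fun i => by rw [Subsingleton.elim i 0]; exact sub_crd t j hp) h
    fun w => Par.trans (hp _) (Par.map (hf w) t)

theorem par_symm {t : K ≃+* K'} {x : σ → K'} {y : σ → K} (h : Par x fun l => t (y l)) :
    Par y fun l => t.symm (x l) := by
  have := Par.map (Par.symm h) (t.symm : K' →+* K)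
  simpa using this

end ring

section field
variable {K K' T U σ τ ι : Type} [Field K] [Field K']

theorem rank_le (t : K ≃+* K') {j : T → U} {μ : T → K'} (hμ : ∀ s, IsUnit (μ s))
    {M : Submodule K (T → K)} {M' : Submodule K' (U → K')} (h : Sub (t : K →+* K') j μ M M') :
    Module.rank K M ≤ Module.rank K' M' := by
  let N : Submodule K' (T → K') := M'.map (pb K' j).toLinearMap
  let f : M →+ N :=
    { toFun := fun u => ⟨fun s => μ s * t (u.1 s), by
        obtain ⟨u', h1, h2⟩ := h u.1 u.2
        exact ⟨u', h1, funext h2⟩⟩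
      map_zero' := Subtype.ext (funext fun s => by simp)
      map_add' := fun a b => Subtype.ext (funext fun s => by simp [mul_add]) }
  refine (rank_le_of_surjective_injective t f t.surjective (fun a b e => ?_) fun c a => ?_).trans
    (rank_map_le _ _)
  · refine Subtype.ext (funext fun s => t.injective ((hμ s).mul_left_cancel ?_))
    exact congrFun (congrArg Subtype.val e) s
  · refine Subtype.ext (funext fun s => ?_)
    change μ s * t (c * a.1 s) = t c * (μ s * t (a.1 s))
    rw [map_mul]
    ring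

variable {p : U → σ → K} {p' : T → σ → K'} {t : K ≃+* K'} {E : T → U}

theorem finrank_pow (hE : ∀ w, Par (p' w) fun l => t (p (E w) l))
    (hs : ∀ v, ∃ w, Par (p (E w)) (p v)) (d : ℕ) :
    finrank K' (crd p' ^ d :) = finrank K (crd p ^ d :) := by
  choose D hD using hs
  obtain ⟨μ, h1, h2⟩ := Sub.crd (r := (t.symm : K' →+* K)) (red := E) (x := p') (p := p)
    fun w => par_symm (hE w)
  obtain ⟨ν, h3, h4⟩ := Sub.crd (r := (t : K →+* K')) (red := D) (x := p) (p := p')
    fun v => Par.trans (hE _) (Par.map (hD v) (t : K →+* K'))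
  exact congrArg Cardinal.toNat (le_antisymm
    (rank_le t.symm (fun s => (h1 s).pow d) (h2.pow d))
    (rank_le t (fun s => (h3 s).pow d) (h4.pow d)))

theorem hp_eq (hE : ∀ w, Par (p' w) fun l => t (p (E w) l))
    (hs : ∀ v, ∃ w, Par (p (E w)) (p v)) : hp ![crd p'] = hp ![crd p] := by
  unfold hp
  congr 1
  funext P
  congr 2
  funext d
  rw [Fin.prod_univ_one, Fin.prod_univ_one]
  exact congrArg (fun n : ℕ => _ = (n : ℚ)) (finrank_pow hE hs (d 0))

theorem eval_map_tw (t : K →+* K') (z : σ → K) (f : MvPolynomial σ K) :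
    eval (fun l => t (z l)) (map t f) = t (eval z f) := by
  rw [eval_map, MvPolynomial.eval, coe_eval₂Hom]
  exact (eval₂_comp_left t (RingHom.id _) z f).symm

theorem mem_idl {q : T → σ → K} {f : MvPolynomial σ K} :
    f ∈ idl q ↔ ∀ (c : K) s, eval (c • q s) f = 0 := by
  rw [idl, mem_vanishingIdeal_iff]
  exact ⟨fun h c s => h _ ⟨c, s, rfl⟩, by rintro h _ ⟨c, s, rfl⟩; exact h c s⟩

theorem map_mem_idl (hE : ∀ w, Par (p' w) fun l => t (p (E w) l)) {f : MvPolynomial σ K}
    (hf : f ∈ idl p) : map (t : K →+* K') f ∈ idl p' := by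
  rw [mem_idl] at hf ⊢
  intro c w
  obtain ⟨d, -, hd⟩ := hE w
  have : c • p' w = fun l => (t : K →+* K') ((t.symm (c * d) • p (E w)) l) := by
    funext l
    simp [hd, mul_assoc]
  rw [this, eval_map_tw, hf, map_zero]

theorem idl_eq (hE : ∀ w, Par (p' w) fun l => t (p (E w) l))
    (hs : ∀ v, ∃ w, Par (p (E w)) (p v)) :
    idl p' = (idl p).comap (map (t.symm : K' →+* K)) := by
  choose D hD using hs
  ext f
  rw [Ideal.mem_comap]
  refine ⟨fun h => map_mem_idl (t := t.symm) (E := D) (fun v => ?_) h, fun h => ?_⟩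
  · exact par_symm (Par.trans (hE _) (Par.map (hD v) (t : K →+* K')))
  · have := map_mem_idl hE h
    rwa [map_map, RingEquiv.comp_symm, map_id] at this

end field

section av
variable {K K' G G' σ : Type} [Field K] [Field K'] [AddCommGroup G] [AddCommGroup G']
  {p : G → σ → K} {p' : G' → σ → K'} {t : K ≃+* K'} {E : G' → G} {g : ℕ}

theorem av_tw (h : AV p g) (hE : ∀ w, Par (p' w) fun l => t (p (E w) l))
    (hs : ∀ v, ∃ w, Par (p (E w)) (p v))
    (ha : ∀ w w', Par (p (E (w - w'))) (p (E w - E w'))) : AV p' g where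
  ne w h0 := by
    obtain ⟨c, -, hc⟩ := par_symm (hE w)
    refine h.ne (E w) ?_
    rw [hc, h0]
    funext l
    simp
  cl z hz h0 := by
    obtain ⟨v, hv⟩ := h.cl (fun l => t.symm (z l)) (fun f hf => by
      have h1 := hz _ (map_mem_idl hE hf)
      have h2 := eval_map_tw (t : K →+* K') (fun l => t.symm (z l)) f
      simp only [RingHom.coe_coe, RingEquiv.apply_symm_apply] at h2
      rw [aeval_eq_eval] at h1 ⊢
      exact t.injective ((h2.symm.trans h1).trans (map_zero t).symm))
      fun e => h0 (funext fun l => by simpa using congrFun e l)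
    obtain ⟨w, hw⟩ := hs v
    refine ⟨w, Par.trans ?_ (Par.symm (hE w))⟩
    have := Par.map (Par.trans hv (Par.symm hw)) (t : K →+* K')
    simpa using this
  irr := by
    rw [idl_eq hE hs]
    have := h.irr
    exact Ideal.comap_isPrime _ _
  dim := by
    rw [← h.dim]
    unfold dm
    rw [hp_eq (t := t) (p := fun z : (univ : Set G) => p z) (p' := fun z : (univ : Set G') => p' z)
      (E := fun w => ⟨E w, trivial⟩) (fun w => hE w)
      fun v => (hs v).elim fun w hw => ⟨⟨w, trivial⟩, hw⟩]
  sub := rg_tw (t : K →+* K') (Prod.map E E)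
    (Fin.forall_fin_two.2 ⟨sub_crd _ _ fun w => hE w.1, sub_crd _ _ fun w => hE w.2⟩) h.sub
    fun w => Par.trans (hE _) (Par.map (ha w.1 w.2) (t : K →+* K'))

end av

end Pool.Agent.Tav.Tw
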