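import Pool.Agent.P.MP_2ce3e7_ag.Tav.GrTwB
import Pool.Agent.P.MP_2ce3e7_ag.Tav.EnR

/-! The conjugate of a model. -/

set_option autoImplicit false

noncomputable section

namespace Pool.Agent.Tav.Tw

open MvPolynomial Set Function Module Tr

variable {Ω : Type} [Field Ω] {R : ValuationSubring ℂ} {r : R →+* Ω} {σ : Type} [Fintype σ]
  {g : ℕ}

/-- the restriction of an automorphism that keeps `R` -/
def resE (t : ℂ ≃+* ℂ) (ht : ∀ z, t z ∈ R ↔ z ∈ R) : R ≃+* R where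
  toFun x := ⟨t x, (ht x).2 x.2⟩
  invFun x := ⟨t.symm x, (ht _).1 (by rw [t.apply_symm_apply]; exact x.2)⟩
  left_inv x := Subtype.ext (t.symm_apply_apply x)
  right_inv x := Subtype.ext (t.apply_symm_apply x)
  map_mul' x y := Subtype.ext (map_mul t x.1 y.1)
  map_add' x y := Subtype.ext (map_add t x.1 y.1)

/-- `φ` uniformises the conjugate under `t` of the generic fibre -/
structure Cj (Y : Model r σ g) (t : ℂ ≃+* ℂ) (Λ : Submodule ℤ (Fin g → ℂ))
    (φ : (Fin g → ℂ) → σ → ℂ) (E : (Fin g → ℂ) → Fin g → ℂ) : Prop where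
  disc : DiscreteTopology Λ
  span : Submodule.span ℝ (Λ : Set (Fin g → ℂ)) = ⊤
  dif : Differentiable ℂ φ
  imm : ∀ v w (c : ℂ), fderiv ℂ φ v w = c • φ v → w = 0
  par : ∀ w, Par (φ w) fun l => t (Y.x (E w) l)
  ker : ∀ v w, E v - E w ∈ Y.Λ ↔ v - w ∈ Λ
  onto : ∀ v, ∃ w, E w - v ∈ Y.Λ
  sub : ∀ w w', E (w - w') - (E w - E w') ∈ Y.Λ
  en : ∀ a ∈ En Y.Λ, (fun i => t (a i)) ∈ En Λ ∧
    ∀ w, E ((fun i => t (a i)) * w) - a * E w ∈ Y.Λ

variable {Y : Model r σ g} {t : ℂ ≃+* ℂ} {Λ : Submodule ℤ (Fin g → ℂ)}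
  {φ : (Fin g → ℂ) → σ → ℂ} {E : (Fin g → ℂ) → Fin g → ℂ}

theorem red_eq (Y : Model r σ g) {v w : Fin g → ℂ} (h : v - w ∈ Y.Λ) : Y.red v = Y.red w :=
  Y.inj _ _ (Par.trans (Y.hred v) (Par.trans (Par.map ((Y.ker v w).2 h) r) (Par.symm (Y.hred w))))

theorem parC (Y : Model r σ g) {v w : Fin g → ℂ} (h : v - w ∈ Y.Λ) :
    Par (fun l => (Y.x v l : ℂ)) fun l => (Y.x w l : ℂ) := Par.map ((Y.ker v w).2 h) R.subtype

theorem Cj.add (h : Cj Y t Λ φ E) (w w' : Fin g → ℂ) : E (w + w') - (E w + E w') ∈ Y.Λ := by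
  have h1 := h.sub (w + w') w'
  rw [add_sub_cancel_right] at h1
  have := Y.Λ.neg_mem h1
  rwa [show -(E w - (E (w + w') - E w')) = E (w + w') - (E w + E w') by abel] at this

theorem Cj.law (h : Cj Y t Λ φ E) (s : R ≃+* R) :
    ∃ c : (Fin g → ℂ) × (Fin g → ℂ) → R, (∀ u, IsUnit (c u)) ∧ ∀ i j,
      (c * fun u => s (Y.x (E (u.1 + u.2)) i) * s (Y.x (E (u.1 - u.2)) j)) ∈
        (crd fun (u : (Fin g → ℂ) × (Fin g → ℂ)) l => s (Y.x (E u.1) l)) ^ 2 *
          (crd fun (u : (Fin g → ℂ) × (Fin g → ℂ)) l => s (Y.x (E u.2) l)) ^ 2 := by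
  obtain ⟨c, hc, hl⟩ := Y.law
  choose a ha ha' using fun u : (Fin g → ℂ) × (Fin g → ℂ) =>
    Par.symm ((Y.ker _ _).2 (h.add u.1 u.2))
  choose b hb hb' using fun u : (Fin g → ℂ) × (Fin g → ℂ) =>
    Par.symm ((Y.ker _ _).2 (h.sub u.1 u.2))
  obtain ⟨μ, h1, h2⟩ := sub_crd (s : R →+* R) (Prod.map E E) (p := fun u => Y.x u.1)
    (p' := fun u l => s (Y.x (E u.1) l)) fun w => Par.refl _
  obtain ⟨ν, h3, h4⟩ := sub_crd (s : R →+* R) (Prod.map E E) (p := fun u => Y.x u.2)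
    (p' := fun u l => s (Y.x (E u.2) l)) fun w => Par.refl _
  refine ⟨fun u => μ u ^ 2 * ν u ^ 2 * s (c (E u.1, E u.2) * a u * b u), fun u =>
    (((h1 u).pow 2).mul ((h3 u).pow 2)).mul ((((hc _).mul (ha u)).mul (hb u)).map s),
    fun i j => ?_⟩
  have h5 := Submodule.mem_map_of_mem (f := (pb R (Prod.map E E)).toLinearMap) (hl i j)
  rw [Submodule.map_mul, Submodule.map_pow, Submodule.map_pow] at h5
  obtain ⟨u', h6, h7⟩ := ((h2.pow 2).mul (h4.pow 2)) _ h5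
  refine (congrArg (· ∈ _) (_root_.funext fun u => ?_)).mp h6
  refine (h7 u).trans ?_
  have e1 : Y.x (E u.1 + E u.2) i = a u * Y.x (E (u.1 + u.2)) i := congrFun (ha' u) i
  have e2 : Y.x (E u.1 - E u.2) j = b u * Y.x (E (u.1 - u.2)) j := congrFun (hb' u) j
  change μ u ^ 2 * ν u ^ 2 * s (c (E u.1, E u.2) * (Y.x (E u.1 + E u.2) i * Y.x (E u.1 - E u.2) j))
    = μ u ^ 2 * ν u ^ 2 * s (c (E u.1, E u.2) * a u * b u) *
      (s (Y.x (E (u.1 + u.2)) i) * s (Y.x (E (u.1 - u.2)) j))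
  rw [e1, e2]
  simp only [map_mul]
  ring

/-- the conjugate model -/
def Cj.model (h : Cj Y t Λ φ E) (ht : ∀ z, t z ∈ R ↔ z ∈ R) (tb : Ω ≃+* Ω)
    (hb : ∀ x : R, r ⟨t x, (ht x).2 x.2⟩ = tb (r x)) (riem : Riem Λ)
    (cm : ∃ θ ∈ En Λ, Injective (Sum.elim θ (star θ)))
    (hen : ∀ a' ∈ En Λ, ∃ a ∈ En Y.Λ, a' = fun i => t (a i)) : Model r σ g where
  Λ := Λ
  disc := h.disc
  lat := haveI := h.disc; ⟨h.span⟩
  riem := riem
  cm := cm
  x w l := resE t ht (Y.x (E w) l)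
  hol := ⟨φ, h.dif, h.par, h.imm⟩
  ker v w := by
    rw [← h.ker, ← Y.ker]
    exact ⟨fun e => by simpa using Par.symm (par_symm e),
      fun e => Par.map e (resE t ht : R →+* R)⟩
  gen := av_tw (t := t) (E := E) Y.gen (fun _ => Par.refl _)
    (fun v => (h.onto v).imp fun _ hw => parC Y hw) fun w w' => parC Y (h.sub w w')
  law := h.law _
  reg a' ha' := by
    obtain ⟨a, ha, rfl⟩ := hen a' ha'
    exact mor_tw (resE t ht : R →+* R) E (fun _ => Par.refl _) (Y.reg a ha)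
      fun w => (Y.ker _ _).2 ((h.en a ha).2 w)
  B := Y.B
  p b l := tb (Y.p b l)
  inj b b' e := Y.inj _ _ (by simpa using Par.symm (par_symm e))
  sp := av_tw (t := tb) (E := id) Y.sp (fun _ => Par.refl _) (fun v => ⟨v, Par.refl _⟩)
    fun _ _ => Par.refl _
  red := AddMonoidHom.ofMapSub (fun w => Y.red (E w)) fun w w' => by
    rw [red_eq Y (h.sub w w'), map_sub]
  onto b := by
    obtain ⟨v, rfl⟩ := Y.onto b
    exact (h.onto v).imp fun w hw => red_eq Y hw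
  hred v := by
    have := Par.map (Y.hred (E v)) (tb : Ω →+* Ω)
    simp only [RingHom.coe_coe, ← hb] at this
    exact this
  flat := by
    rw [hp_eq (t := tb) (E := id) (p := Y.p) (p' := fun b l => tb (Y.p b l))
      (fun _ => Par.refl _) fun v => ⟨v, Par.refl _⟩, Y.flat,
      hp_eq (t := t) (E := E) (p := fun v l => (Y.x v l : ℂ))
        (p' := fun v l => (resE t ht (Y.x (E v) l) : ℂ)) (fun _ => Par.refl _)
        fun v => (h.onto v).imp fun _ hw => parC Y hw]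

theorem Cj.zero (h : Cj Y t Λ φ E) : E 0 ∈ Y.Λ := by simpa using h.sub 0 0

theorem Cj.nsmul (h : Cj Y t Λ φ E) (w : Fin g → ℂ) (n : ℕ) : E (n • w) - n • E w ∈ Y.Λ := by
  induction n with
  | zero => simpa using h.zero
  | succ n ih =>
    have := Y.Λ.add_mem (h.add (n • w) w) ih
    rw [succ_nsmul, succ_nsmul]
    rwa [show E (n • w + w) - (E (n • w) + E w) + (E (n • w) - n • E w) =
      E (n • w + w) - (n • E w + E w) by abel] at this

theorem Cj.mem (h : Cj Y t Λ φ E) {w : Fin g → ℂ} : E w ∈ Y.Λ ↔ w ∈ Λ := by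
  have := h.ker w 0
  rwa [sub_zero, Y.Λ.sub_mem_iff_left h.zero] at this

/-- the endomorphisms of the conjugate lattice -/
theorem Cj.en_onto (h : Cj Y t Λ φ E) : ∀ a' ∈ En Λ, ∃ a ∈ En Y.Λ, a' = fun i => t (a i) := by
  intro a' ha'
  have := h.disc
  have : IsZLattice ℝ Λ := ⟨h.span⟩
  obtain ⟨hf, hle⟩ := EnR.finite_le Λ
  let f : Tav.EnR Y.Λ →ₗ[ℤ] Tav.EnR Λ := AddMonoidHom.toIntLinearMap
    { toFun := fun a => ⟨fun i => t (a.1 i), (h.en a.1 a.2).1⟩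
      map_zero' := Subtype.ext (funext fun i => map_zero t)
      map_add' := fun a b => Subtype.ext (funext fun i => map_add t _ _) }
  have hi : Injective f := fun a b e =>
    Subtype.ext (funext fun i => t.injective (congrFun (congrArg Subtype.val e) i))
  have h1 : finrank ℤ (LinearMap.range f) = g + g := by
    rw [LinearMap.finrank_range_of_inj hi, finrank_eq_card_basis Y.basis]
    simp
  have h2 := Submodule.finrank_quotient_add_finrank (LinearMap.range f)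
  obtain ⟨n, hn, h3⟩ := (Module.finrank_eq_zero_iff (R := ℤ)).1
    (show finrank ℤ (Tav.EnR Λ ⧸ LinearMap.range f) = 0 by omega)
    (Submodule.Quotient.mk ⟨a', ha'⟩)
  rw [← Submodule.Quotient.mk_smul, Submodule.Quotient.mk_eq_zero] at h3
  have h4 : (n.natAbs : ℤ) • (⟨a', ha'⟩ : Tav.EnR Λ) ∈ LinearMap.range f := by
    rcases Int.natAbs_eq n with e | e
    · rwa [← e]
    · rw [e, neg_smul] at h3
      exact (neg_mem_iff).1 h3
  obtain ⟨b, hb⟩ := h4
  have hb' : (fun i => t (b.1 i)) = n.natAbs • a' := by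
    rw [← natCast_zsmul]
    exact congrArg Subtype.val hb
  have hN : ((n.natAbs : ℕ) : ℂ) ≠ 0 := Nat.cast_ne_zero.2 (Int.natAbs_ne_zero.2 hn)
  refine ⟨fun i => t.symm (a' i), fun l hl => ?_, funext fun i => (t.apply_symm_apply _).symm⟩
  obtain ⟨w, hw⟩ := h.onto (((n.natAbs : ℕ) : ℂ)⁻¹ • l)
  have h5 : n.natAbs • w ∈ Λ := by
    have e : n.natAbs • (((n.natAbs : ℕ) : ℂ)⁻¹ • l) = l := by
      rw [← Nat.cast_smul_eq_nsmul ℂ, smul_inv_smul₀ hN]
    have := Y.Λ.add_mem (Y.Λ.add_mem (h.nsmul w n.natAbs) (nsmul_mem hw n.natAbs)) hl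
    rw [nsmul_sub, e, sub_add_sub_cancel, sub_add_cancel] at this
    exact h.mem.1 this
  have h6 := (h.en b.1 b.2).2 w
  rw [hb', smul_mul_assoc, ← mul_smul_comm, Y.Λ.sub_mem_iff_right (h.mem.2 (ha' _ h5))] at h6
  have h7 := Y.Λ.sub_mem h6 (b.2 _ hw)
  rw [mul_sub, sub_sub_cancel] at h7
  refine (congrArg (· ∈ Y.Λ) (funext fun i => ?_)).mp h7
  have e : b.1 i = (n.natAbs : ℕ) * t.symm (a' i) := by
    rw [← t.symm_apply_apply (b.1 i), congrFun hb' i, Pi.smul_apply, map_nsmul, nsmul_eq_mul]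
  simp only [Pi.mul_apply, Pi.smul_apply, smul_eq_mul, e]
  field_simp

/-- the isogeny on the special fibres -/
theorem exists_isog {k : Type} [Field k] [Finite k] {r : R →+* AlgebraicClosure k}
    (Y : Model r σ g) (tb : AlgebraicClosure k ≃+* AlgebraicClosure k) :
    ∃ ψ : Y.B →+ Y.B, Bijective ψ ∧ Mor (fun b l => tb (Y.p b l)) Y.p ψ ∧
      ∀ a ∈ En Y.Λ, ∀ w v, ψ (Y.red w) = Y.red v → ψ (Y.red (a * w)) = Y.red (a * v) := by
  obtain ⟨S, hS, h⟩ := exists_psi Y.sp Y.inj (f := fun j => act Y (Y.basis j))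
    fun j => mor_act Y (Y.basis j).2
  obtain ⟨n, s, h1, h2⟩ := exists_frob tb hS
  obtain ⟨ψ, h3, h4, h5⟩ := h s h2
  refine ⟨ψ, h3, mor_pow (n := n) fun b => by simpa only [h1] using h4 b, fun a ha w v e => ?_⟩
  have key : ∀ a : Tav.EnR Y.Λ, ψ (Y.red (a.1 * w)) = Y.red (a.1 * v) := fun a => by
    have hm : a ∈ Submodule.span ℤ (range Y.basis) := Y.basis.span_eq ▸ Submodule.mem_top
    induction hm using Submodule.span_induction with
    | mem x hx =>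
      obtain ⟨j, rfl⟩ := hx
      rw [← act_red Y (Y.basis j).2, h5, e, act_red Y (Y.basis j).2]
    | zero => simp
    | add x y _ _ hx hy =>
      change ψ (Y.red ((x.1 + y.1) * w)) = Y.red ((x.1 + y.1) * v)
      rw [add_mul, add_mul, map_add, map_add, map_add, hx, hy]
    | smul c x _ hx =>
      change ψ (Y.red ((c • x.1) * w)) = Y.red ((c • x.1) * v)
      rw [smul_mul_assoc, smul_mul_assoc, map_zsmul, map_zsmul, map_zsmul, hx]
  exact key ⟨a, ha⟩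

end Pool.Agent.Tav.Tw
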