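import Pool.Agent.P.MP_2ce3e7_ag.Tav.GrTypE
import Pool.Agent.P.MP_2ce3e7_ag.Tav.GrPw
import Pool.Agent.P.MP_2ce3e7_ag.Tav.GrLat

/-! The universal lattice: the product over all CM types. -/

set_option autoImplicit false

open NumberField Function

namespace Pool.Agent.Tav.Typ

open Pool.Agent.Cmh Gd Lt

variable {Γ : Type*} [LinearOrderedCommGroupWithZero Γ] {v : Valuation ℂ Γ}

/-- a theta function with integral values and a unit value in every class -/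
def Good (v : Valuation ℂ Γ) {ι : Type} [Fintype ι] (Λ : Submodule ℤ (ι → ℂ))
    (f : (ι → ℂ) → ℂ) : Prop :=
  f ∈ Th Λ ∧ (∀ a ∈ QQ Λ, v (U a f 0) ≤ 1) ∧
    ∀ a ∈ QQ Λ, ∃ ξ, 2 • ξ ∈ du Λ ∧ v (U (a + ξ) f 0) = 1

lemma Good.pl {κ : Type} [Fintype κ] {ι : κ → Type} [∀ k, Fintype (ι k)]
    {M : ∀ k, Submodule ℤ (ι k → ℂ)} {f : ∀ k, (ι k → ℂ) → ℂ} (h : ∀ k, Good v (M k) (f k)) :
    Good v (pl M) (tp f) := by
  refine ⟨tp_mem fun k => (h k).1, fun a ha => ?_, fun a ha => ?_⟩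
  · rw [U_tp, tp, map_prod]
    exact Finset.prod_le_one' fun k _ => (h k).2.1 _ (mem_QQ_pl.1 ha k)
  · choose ξ h1 h2 using fun k => (h k).2.2 _ (mem_QQ_pl.1 ha k)
    refine ⟨mkv ξ, by rw [du_pl]; exact h1, ?_⟩
    rw [U_tp, tp, map_prod]
    exact Finset.prod_eq_one fun k _ => h2 k

section

variable {ι κ : Type} [Fintype ι] [Fintype κ] (e : κ ≃ ι)

lemma U_rx (w : κ → ℂ) (f : (ι → ℂ) → ℂ) :
    U w (fun z => f (z ∘ e.symm)) = fun z => U (w ∘ e.symm) f (z ∘ e.symm) := by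
  ext z
  have h1 : Hm (z ∘ e.symm) (w ∘ e.symm) = Hm z w :=
    Equiv.sum_comp e.symm fun i => z i * (starRingEnd ℂ) (w i)
  have h2 : nq (w ∘ e.symm) = nq w := Equiv.sum_comp e.symm fun i => ‖w i‖ ^ 2
  rw [U_apply, U_apply, h1, h2]
  rfl

lemma Good.rx {M : Submodule ℤ (ι → ℂ)} {f : (ι → ℂ) → ℂ} (h : Good v M f) :
    Good v (rx e M) fun z => f (z ∘ e.symm) := by
  refine ⟨⟨h.1.1.comp (differentiable_pi.2 fun i => differentiable_apply _), fun m hm => ?_⟩,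
    fun a ha => ?_, fun a ha => ?_⟩
  · rw [U_rx, h.1.2 _ (mem_rx'.1 hm)]
  · rw [QQ_rx, mem_rx'] at ha
    rw [U_rx]; exact h.2.1 _ ha
  · rw [QQ_rx, mem_rx'] at ha
    obtain ⟨ξ, h1, h2⟩ := h.2.2 _ ha
    have h3 : (ξ ∘ e) ∘ e.symm = ξ := by ext i; simp
    refine ⟨ξ ∘ e, by rw [du_rx]; exact ⟨_, h1, rfl⟩, ?_⟩
    rw [U_rx, show (a + ξ ∘ e) ∘ e.symm = a ∘ e.symm + (ξ ∘ e) ∘ e.symm from rfl, h3]
    exact h2

end

lemma en_pl {κ : Type} {ι : κ → Type} {M : ∀ k, Submodule ℤ (ι k → ℂ)} (a : (Σ k, ι k) → ℂ) :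
    (∀ l ∈ pl M, a * l ∈ pl M) ↔ ∀ k, ∀ l ∈ M k, cp a k * l ∈ M k := by
  classical
  refine ⟨fun h k l hl => ?_, fun h l hl k => h k _ (hl k)⟩
  have := h (mkv (Pi.single k l)) (fun j => by
    by_cases h : j = k
    · subst h; simpa using hl
    · simp [Pi.single_eq_of_ne h]) k
  rwa [show cp (a * mkv (Pi.single k l)) k = cp a k * cp (mkv (Pi.single k l)) k from rfl,
    cp_mkv, Pi.single_eq_same] at this

lemma en_rx {ι : Type} {g : ℕ} (e : Fin g ≃ ι) (M : Submodule ℤ (ι → ℂ)) (a : Fin g → ℂ) :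
    a ∈ En (rx e M) ↔ ∀ l ∈ M, a ∘ e.symm * l ∈ M := by
  refine ⟨fun h l hl => ?_, fun h l hl => mem_rx'.2 (h _ (mem_rx'.1 hl))⟩
  have := mem_rx'.1 (h (l ∘ e) ⟨l, hl, rfl⟩)
  rwa [show (a * l ∘ e) ∘ e.symm = a ∘ e.symm * l by ext i; simp] at this

lemma en_one {E : Type} [Field E] [NumberField E] {Φ : Finset (E →+* ℂ)} (X : One v Φ)
    (hΦ : Φ.Nonempty) (a : Φ → ℂ) :
    (∀ l ∈ X.Λ, a * l ∈ X.Λ) ↔ ∃ b, IsIntegral ℤ b ∧ ∀ ψ, a ψ = ψ.1 b := by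
  have hρ : ∀ ψ, (X.ρ ψ : ℂ) ≠ 0 := fun ψ => by exact_mod_cast (X.pos ψ).ne'
  constructor
  · intro h
    obtain ⟨y, -, hy⟩ := (X.mem _).1 (h _ ((X.mem _).2 ⟨1, X.one, rfl⟩))
    have h1 : ∀ ψ, a ψ = ψ.1 y := fun ψ => mul_left_cancel₀ (hρ ψ) (by
      simpa [mul_comm] using congrFun hy ψ)
    refine ⟨y, ?_, h1⟩
    obtain ⟨ψ, hψ⟩ := hΦ
    have h2 : ∀ n : ℕ, y ^ n ∈ X.Lam := fun n => by
      induction n with
      | zero => simpa using X.one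
      | succ n ih =>
        obtain ⟨x, hx, e⟩ := (X.mem _).1 (h _ ((X.mem _).2 ⟨_, ih, rfl⟩))
        have h3 := congrFun e ⟨ψ, hψ⟩
        simp only [Pi.mul_apply, h1] at h3
        rw [mul_left_comm, ← map_mul, ← pow_succ'] at h3
        rwa [ψ.injective (mul_left_cancel₀ (hρ _) h3)]
    have h4 : IsAlmostIntegral (𝓞 E) y :=
      ⟨X.N, mem_nonZeroDivisors_of_ne_zero (Nat.cast_ne_zero.2 X.hN), fun n =>
        ⟨⟨_, X.den _ (X.le (h2 n))⟩, by simp [Algebra.smul_def]⟩⟩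
    exact isIntegral_trans (A := 𝓞 E) y h4.isIntegral
  · rintro ⟨b, hb, h⟩ l hl
    obtain ⟨x, hx, rfl⟩ := (X.mem _).1 hl
    refine (X.mem _).2 ⟨_, X.Lam.smul_mem ⟨b, hb⟩ hx, funext fun ψ => ?_⟩
    show _ = X.ρ ψ * ψ.1 (b * x)
    rw [Pi.mul_apply, h, map_mul, mul_left_comm]

variable (L : IntermediateField ℚ ℂ) [FiniteDimensional ℚ L] [IsGalois ℚ L] {c : Gal(L/ℚ)}

/-- the lattice of a finite list of types -/
theorem exists_list (hc : ∀ z, (c z : ℂ) = star (z : ℂ))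
    (H : ∀ Φ : Finset (L →+* ℂ), (∀ ψ, ψ ∈ Φ ↔ ComplexEmbedding.conjugate ψ ∉ Φ) →
      ∃ (X : One v Φ) (f : _), Good v X.Λ f) {T : Type} [Finite T] {Ψ : T → Set Gal(L/ℚ)}
    (hΨ : ∀ t s, c * s ∈ Ψ t ↔ s ∉ Ψ t) {g : ℕ} (e : Fin g ≃ Σ t, Ψ t) :
    ∃ (Λ : Submodule ℤ (Fin g → ℂ)) (f : (Fin g → ℂ) → ℂ), Un v Λ ∧ Good v Λ f ∧
      En Λ = ES (fun i => (e i).1) fun i => (e i).2.1 := by
  classical
  have := Fintype.ofFinite T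
  choose σ hσ using emb_eq L
  have hi : Injective σ := fun ψ ψ' h => RingHom.ext fun x => by rw [hσ, hσ, h]
  have hs : Surjective σ := fun s => ⟨L.val.toRingHom.comp s.toRingEquiv.toRingHom,
    AlgEquiv.ext fun x => Subtype.ext (hσ _ x).symm⟩
  have hj : ∀ ψ, σ (ComplexEmbedding.conjugate ψ) = c * σ ψ := fun ψ =>
    AlgEquiv.ext fun x => Subtype.ext (by
      rw [← hσ, AlgEquiv.mul_apply, hc, ← hσ]; rfl)
  let F : T → Finset (L →+* ℂ) := fun t => Finset.univ.filter fun ψ => σ ψ ∈ Ψ t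
  have hF : ∀ t ψ, ψ ∈ F t ↔ σ ψ ∈ Ψ t := fun t ψ => by simp [F]
  choose X f hf using fun t => H (F t) fun ψ => by rw [hF, hF, hj, hΨ, not_not]
  let u : (Σ t, F t) ≃ Σ t, Ψ t := Equiv.sigmaCongrRight fun t =>
    (Equiv.ofBijective σ ⟨hi, hs⟩).subtypeEquiv (hF t)
  let e' := e.trans u.symm
  have he : ∀ i, e i = u (e' i) := fun i => (u.apply_symm_apply _).symm
  refine ⟨rx e' (pl fun t => (X t).Λ), _, un_rx e' (un_pl fun t => (X t).un),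
    (Good.pl hf).rx e', ?_⟩
  have hn : ∀ t, (F t).Nonempty := fun t => by
    by_cases h : (1 : Gal(L/ℚ)) ∈ Ψ t
    · obtain ⟨ψ, h1⟩ := hs 1
      exact ⟨ψ, (hF _ _).2 (h1 ▸ h)⟩
    · obtain ⟨ψ, h1⟩ := hs (c * 1)
      exact ⟨ψ, (hF _ _).2 (h1 ▸ (hΨ t 1).2 h)⟩
  ext a
  rw [en_rx, en_pl]
  simp only [en_one _ (hn _)]
  constructor
  · intro h
    choose b h1 h2 using h
    refine ⟨b, h1, fun i => ?_⟩
    dsimp only
    rw [he]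
    refine Eq.trans ?_ ((h2 (e' i).1 (e' i).2).trans (hσ _ _))
    exact congrArg a (e'.symm_apply_apply i).symm
  · rintro ⟨b, h1, h2⟩ t
    refine ⟨b t, h1 _, fun ψ => ?_⟩
    show a (e'.symm ⟨t, ψ⟩) = _
    rw [h2, hσ]
    dsimp only
    rw [he, e'.apply_symm_apply]
    rfl

/-- what a model needs from its ring of endomorphisms -/
structure Ring0 (L : IntermediateField ℚ ℂ) {g : ℕ} (S : Set (Fin g → ℂ)) : Prop where
  cm : ∃ θ ∈ S, Injective (Sum.elim θ (star θ))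
  hL : ∀ a ∈ S, ∀ i, a i ∈ L
  max : ∀ a, IsIntegral ℤ a → ∀ n : ℕ, n ≠ 0 → n • a ∈ S → a ∈ S
  star : ∀ a ∈ S, star a ∈ S
  bal : ∀ a ∈ S, ∃ d0 : ℕ, ∀ d ≥ d0, ∃ (n : ℕ) (b : Fin (n + 1) → Fin g → ℂ), b 0 = a ∧
    (∀ j, b j ∈ S) ∧ ∀ i, ∑ j, b j i * Star.star (b j i) = d

/-- what the universal model needs from its ring of endomorphisms -/
structure Ring (L : IntermediateField ℚ ℂ) (c : Gal(L/ℚ)) {g : ℕ} (S : Set (Fin g → ℂ)) : Prop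
    extends Ring0 L S where
  all : ∀ (hL : ∀ a ∈ S, ∀ i, a i ∈ L) (Φ : Set Gal(L/ℚ)), 1 ∈ Φ → (∀ s, c * s ∈ Φ ↔ s ∉ Φ) →
    ∃ i, ∀ s, s ∈ Φ ↔ ∃ i', ∀ a h, (s ⟨a i, hL a h i⟩ : ℂ) = a i'

section

variable {g : ℕ} {T : Type} [Finite T] {Ψ : T → Set Gal(L/ℚ)} {τ : Fin g → T}
  {φ : Fin g → Gal(L/ℚ)} (h : Idx c Ψ τ φ) (hc : ∀ z, (c z : ℂ) = star (z : ℂ))
  (hz : ∀ s, s * c = c * s)

include h hc hz

theorem Idx.ring0 : Ring0 L (ES τ φ) :=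
  ⟨ES_cm h hc, fun _ => ES_L, ES_max, fun _ => ES_star hc hz, fun _ => ES_bal hc hz⟩

theorem Idx.ring (ha : ∀ Φ : Set Gal(L/ℚ), (∀ s, c * s ∈ Φ ↔ s ∉ Φ) → ∃ t, Ψ t = Φ) :
    Ring L c (ES τ φ) := by
  obtain ⟨θ, h1, h2⟩ := exists_prim L
  refine ⟨h.ring0 L hc hz, fun hL Φ h3 h4 => ?_⟩
  obtain ⟨t, rfl⟩ := ha Φ h4
  exact ES_all h h1 h2 hL t h3

end

variable (hc : ∀ z, (c z : ℂ) = star (z : ℂ)) (hcen : ∀ s, s * c = c * s)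
  (R : ValuationSubring ℂ) (hz : ∃ z : L, (z : ℂ) ∈ R ∧ (c z : ℂ) ∉ R) {p : ℕ} (hp : p.Prime)
  (h2 : p ≠ 2) (hv : R.valuation p < 1)
  (GR : ∀ (Φ : Finset (L →+* ℂ)) (X : One R.valuation Φ), Φ.Nonempty →
    ∃ f, Good R.valuation X.Λ f)

include hc hcen hz hp h2 hv GR

/-- any finite list of types, in the terms of `Model.Full` -/
theorem typ_list {T : Type} [Finite T] {Ψ : T → Set Gal(L/ℚ)}
    (hΨ : ∀ t s, c * s ∈ Ψ t ↔ s ∉ Ψ t) {g : ℕ} (e : Fin g ≃ Σ t, Ψ t) :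
    ∃ (Λ : Submodule ℤ (Fin g → ℂ)) (f : (Fin g → ℂ) → ℂ), Un R.valuation Λ ∧
      Good R.valuation Λ f ∧ En Λ = ES (fun i => (e i).1) fun i => (e i).2.1 := by
  refine exists_list L (v := R.valuation) hc (fun Φ hΦ => ?_) hΨ e
  obtain ⟨X⟩ := exists_one_L L hc hcen R hz hp h2 hv hΦ
  refine ⟨X, GR Φ X ?_⟩
  by_cases h : L.val.toRingHom ∈ Φ
  · exact ⟨_, h⟩
  · exact ⟨_, not_not.1 (mt (hΦ _).2 h)⟩

/-- TYP in the terms of `Model.Full` -/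
theorem typ : ∃ (g : ℕ) (Λ : Submodule ℤ (Fin g → ℂ)) (f : (Fin g → ℂ) → ℂ),
    Un R.valuation Λ ∧ Good R.valuation Λ f ∧ Ring L c (En Λ) := by
  let T := {Ψ : Set Gal(L/ℚ) // ∀ s, c * s ∈ Ψ ↔ s ∉ Ψ}
  let e := (Finite.equivFin (Σ t : T, t.1)).symm
  obtain ⟨Λ, f, h3, h4, h5⟩ := typ_list L hc hcen R hz hp h2 hv GR (fun t : T => t.2) e
  exact ⟨_, Λ, f, h3, h4, h5 ▸ (idx_equiv (fun t : T => t.2) e).ring L hc hcen
    fun Φ h => ⟨⟨Φ, h⟩, rfl⟩⟩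

omit hc hcen hz hp h2 hv GR

/-- the ring of endomorphisms does not change under scaling -/
lemma en_eq {g : ℕ} {Λ Λ' : Submodule ℤ (Fin g → ℂ)} {t : ℂ} (ht : t ≠ 0)
    (h : ∀ x, t • x ∈ Λ' ↔ x ∈ Λ) : En Λ' = En Λ := by
  ext a
  refine ⟨fun H l hl => (h _).1 ?_, fun H l hl => ?_⟩
  · rw [← mul_smul_comm]; exact H _ ((h _).2 hl)
  · have h1 : t⁻¹ • l ∈ Λ := (h _).1 (by rwa [smul_inv_smul₀ ht])
    have := (h _).2 (H _ h1)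
    rwa [← mul_smul_comm, smul_inv_smul₀ ht] at this

end Pool.Agent.Tav.Typ
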