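import Pool.Agent.P.MP_2ce3e7_ag.Tav.GrTyp
import Pool.Agent.P.MP_2ce3e7_ag.Tav.GrEndB

/-! The universal lattice in the form used for the construction of the model. -/

set_option autoImplicit false

namespace Pool.Agent.Tav.Typ

open Pool.Agent.Cmh Gd Lt GrLaw

lemma riem_of_ev {ι : Type} [Fintype ι] {M : Submodule ℤ (ι → ℂ)} (h : Ev M) : Riem M := by
  refine ⟨Bim ι, fun x => ?_, fun x hx y hy => ?_, fun x y => ?_, fun x hx => ?_⟩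
  · simp [Bim_apply, Hm_self]
  · obtain ⟨k, hk⟩ := h.2 x hx y hy
    exact ⟨2 * k, by rw [Bim_apply, hk]; simp⟩
  · rw [Bim_apply, Bim_apply, Hm_smul_left, Hm_smul_right, ← mul_assoc, Complex.mul_conj]
    simp
  · rw [Bim_apply, Hm_smul_left, Hm_self]
    simpa using (nq_nonneg x).lt_of_ne fun e => hx (nq_eq_zero e.symm)

lemma en_scl {g k : ℕ} (hk : k ≠ 0) (M : Submodule ℤ (Fin g → ℂ)) : En (scl k M) = En M := by
  refine en_eq (t := k) (by exact_mod_cast hk) fun x => ⟨fun ⟨y, hy, e⟩ => ?_, fun h => ⟨x, h, ?_⟩⟩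
  · have : (k : ℂ) • y = (k : ℂ) • x := by rw [← e, Nat.cast_smul_eq_nsmul]; rfl
    rwa [← smul_right_injective _ (by exact_mod_cast hk : (k : ℂ) ≠ 0) this]
  · rw [Nat.cast_smul_eq_nsmul]; rfl

/-- PAD -/
lemma Ring0.pad {L : IntermediateField ℚ ℂ} {g : ℕ} {M : Submodule ℤ (Fin g → ℂ)}
    (h : Ring0 L (En M)) {a : Fin g → ℂ} (ha : a ∈ En M) :
    ∃ (k n : ℕ) (b : Fin (n + 1) → Fin g → ℂ), GdEnd.Dat.Fam M k b ∧ b 0 = a := by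
  obtain ⟨d, H⟩ := h.bal a ha
  obtain ⟨n, b, h1, h2, h3⟩ := H (4 ^ d) (Nat.lt_pow_self (by norm_num)).le
  refine ⟨d, n, b, ⟨h2, funext fun i => ?_⟩, h1⟩
  rw [Finset.sum_apply]
  exact (h3 i).trans (by simp)

lemma Good.law {ι : Type} [Fintype ι] {M : Submodule ℤ (ι → ℂ)} {f : (ι → ℂ) → ℂ}
    {R : ValuationSubring ℂ} {p : ℕ} (hp : p.Prime) (h2 : p ≠ 2) (hv : R.valuation p < 1)
    (h3 : Un R.valuation M) (h4 : Typ.Good R.valuation M f) :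
    GrLaw.Good R M f ∧ IsLat (scl 4 M) ∧ Riem (scl 4 M) := by
  have h6 : R.valuation (2 : ℕ) = 1 :=
    val_nat hp hv fun h => h2 ((Nat.prime_dvd_prime_iff_eq hp Nat.prime_two).1 h)
  have h7 : R.valuation (4 : ℕ) = 1 := by
    rw [show 4 = 2 * 2 from rfl, Nat.cast_mul, map_mul, h6, one_mul]
  have h8 := (un_scl h3 h7).1
  exact ⟨⟨h3, by simpa using h6, h4.1, h4.2.1, h4.2.2⟩, h8.1, riem_of_ev h8⟩

variable (L : IntermediateField ℚ ℂ) [FiniteDimensional ℚ L] [IsGalois ℚ L]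
  {c : Gal(L/ℚ)} (hc : ∀ z, (c z : ℂ) = star (z : ℂ)) (hcen : ∀ s, s * c = c * s)
  (R : ValuationSubring ℂ) (hz : ∃ z : L, (z : ℂ) ∈ R ∧ (c z : ℂ) ∉ R) {p : ℕ} (hp : p.Prime)
  (h2 : p ≠ 2) (hv : R.valuation p < 1)
  (GR : ∀ (Φ : Finset (L →+* ℂ)) (X : One R.valuation Φ), Φ.Nonempty →
    ∃ f, Typ.Good R.valuation X.Λ f)

include hc hcen hz hp h2 hv GR

theorem univ_lat :
    ∃ (g : ℕ) (M : Submodule ℤ (Fin g → ℂ)) (f : (Fin g → ℂ) → ℂ), GrLaw.Good R M f ∧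
      IsLat (scl 4 M) ∧ Riem (scl 4 M) ∧ Ring L c (En (scl 4 M)) ∧ ∀ a ∈ En (scl 4 M),
        ∃ (k n : ℕ) (b : Fin (n + 1) → Fin g → ℂ), GdEnd.Dat.Fam M k b ∧ b 0 = a := by
  obtain ⟨g, M, f, h3, h4, h5⟩ := typ L hc hcen R hz hp h2 hv GR
  obtain ⟨h6, h7, h8⟩ := h4.law hp h2 hv h3
  refine ⟨g, M, f, h6, h7, h8, ?_, ?_⟩ <;> rw [en_scl (by norm_num)]
  exacts [h5, fun _ => h5.pad]

theorem list_lat {T : Type} [Finite T] {Ψ : T → Set Gal(L/ℚ)}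
    (hΨ : ∀ t s, c * s ∈ Ψ t ↔ s ∉ Ψ t) {g : ℕ} (e : Fin g ≃ Σ t, Ψ t) :
    ∃ (M : Submodule ℤ (Fin g → ℂ)) (f : (Fin g → ℂ) → ℂ), GrLaw.Good R M f ∧
      IsLat (scl 4 M) ∧ Riem (scl 4 M) ∧
      En (scl 4 M) = ES (fun i => (e i).1) (fun i => (e i).2.1) ∧ Ring0 L (En (scl 4 M)) ∧
      ∀ a ∈ En (scl 4 M),
        ∃ (k n : ℕ) (b : Fin (n + 1) → Fin g → ℂ), GdEnd.Dat.Fam M k b ∧ b 0 = a := by
  obtain ⟨M, f, h3, h4, h5⟩ := typ_list L hc hcen R hz hp h2 hv GR hΨ e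
  obtain ⟨h6, h7, h8⟩ := h4.law hp h2 hv h3
  have h9 : Ring0 L (En M) := h5 ▸ (idx_equiv hΨ e).ring0 L hc hcen
  refine ⟨M, f, h6, h7, h8, ?_, ?_, ?_⟩ <;> rw [en_scl (by norm_num)]
  exacts [h5, h9, fun _ => h9.pad]

end Pool.Agent.Tav.Typ
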