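import Pool.Agent.P.MP_2ce3e7_ag.Tav.GrTypB
import Pool.Agent.P.MP_2ce3e7_ag.Tav.GrGf
import Pool.Agent.P.MP_2ce3e7_ag.Tav.GrAsm

/-! Models for the universal lattice and for every finite list of CM types. -/

set_option autoImplicit false

open Function

namespace Pool.Agent.Tav.Typ

open Pool.Agent.Cmh Gd Lt

variable (L : IntermediateField ℚ ℂ) [FiniteDimensional ℚ L] [IsGalois ℚ L]
  {c : Gal(L/ℚ)} (hc : ∀ z, (c z : ℂ) = star (z : ℂ)) (hcen : ∀ s, s * c = c * s)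
  (R : ValuationSubring ℂ) (hz : ∃ z : L, (z : ℂ) ∈ R ∧ (c z : ℂ) ∉ R) {p : ℕ} (hp : p.Prime)
  (h2 : p ≠ 2) (hv : R.valuation p < 1)

include hc hcen hz hp h2 hv

theorem gr (Φ : Finset (L →+* ℂ)) (X : One R.valuation Φ) (hΦ : Φ.Nonempty) :
    ∃ f, Good R.valuation X.Λ f := by
  have := hΦ.to_subtype
  have h6 : R.valuation (2 : ℕ) = 1 :=
    val_nat hp hv fun h => h2 ((Nat.prime_dvd_prime_iff_eq hp Nat.prime_two).1 h)
  obtain ⟨z, h3, h4⟩ := hz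
  obtain ⟨f, h⟩ := exists_gf (fun ψ : Φ => ψ.1) X.ρ X.pos c.toRingEquiv
    (fun ψ x => emb_c L hc hcen ψ.1 x) ⟨z, fun e => h4 (by rwa [show c z = z from e])⟩
    X.Lam X.D X.N X.Λ X.one X.le X.hN X.den X.un X.mem X.mem_du X.mem_QQ hp.ne_zero hv
    (by simpa using h6)
  exact ⟨f, h.mem, h.le, h.one⟩

variable {Ω : Type} [Field Ω] [Infinite Ω] {r : R →+* Ω} (hr : Surjective r)

include hr

/-- a model for every finite list of CM types -/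
theorem list_model {T : Type} [Finite T] {Ψ : T → Set Gal(L/ℚ)}
    (hΨ : ∀ t s, c * s ∈ Ψ t ↔ s ∉ Ψ t) {g : ℕ} (e : Fin g ≃ Σ t, Ψ t) :
    ∃ (N : ℕ) (X : Model r (Fin N) g), En X.Λ = ES (fun i => (e i).1) (fun i => (e i).2.1) ∧
      Ring0 L (En X.Λ) ∧ ∃ M f η n, X.Λ = GdEnd.sc 4 M ∧ GdEnd.Dat R M f η n X.x := by
  obtain ⟨M, f, h3, h4, h5⟩ :=
    typ_list L hc hcen R hz hp h2 hv (gr L hc hcen R hz hp h2 hv) hΨ e
  have h9 : Ring0 L (En M) := h5 ▸ (idx_equiv hΨ e).ring0 L hc hcen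
  obtain ⟨N, X, h6, h7, η, n, h8⟩ := GdEnd.exists_model hr (h4.law hp h2 hv h3).1 h9.cm h9.bal
  exact ⟨N, X, h7.trans h5, h7 ▸ h9, M, f, η, n, h6, h8⟩

/-- a model for the product of all CM types -/
theorem univ_model : ∃ (g N : ℕ) (Y : Model r (Fin N) g), Ring L c (En Y.Λ) ∧
    ∃ M f η n, Y.Λ = GdEnd.sc 4 M ∧ GdEnd.Dat R M f η n Y.x := by
  obtain ⟨g, M, f, h3, h4, h5⟩ := typ L hc hcen R hz hp h2 hv (gr L hc hcen R hz hp h2 hv)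
  obtain ⟨N, X, h6, h7, η, n, h8⟩ := GdEnd.exists_model hr (h4.law hp h2 hv h3).1 h5.cm h5.bal
  exact ⟨g, N, X, h7 ▸ h5, M, f, η, n, h6, h8⟩

end Pool.Agent.Tav.Typ
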