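import Pool.Agent.P.MP_2ce3e7_ag.Tav.Stmt

/-! The product of the maximal orders over all CM types of a Galois CM field. -/

set_option autoImplicit false

namespace Pool.Agent.Tav.Typ

open Function

variable {L : IntermediateField ℚ ℂ} {c : Gal(L/ℚ)} {g : ℕ} {T : Type} {Ψ : T → Set Gal(L/ℚ)}
  {τ : Fin g → T} {φ : Fin g → Gal(L/ℚ)}

/-- the coordinates are the pairs of a CM type of the list `Ψ` and one of its members -/
structure Idx (c : Gal(L/ℚ)) (Ψ : T → Set Gal(L/ℚ)) (τ : Fin g → T) (φ : Fin g → Gal(L/ℚ)) :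
    Prop where
  typ : ∀ t s, c * s ∈ Ψ t ↔ s ∉ Ψ t
  inj : ∀ i i', τ i = τ i' → φ i = φ i' → i = i'
  mem : ∀ i, φ i ∈ Ψ (τ i)
  all : ∀ t, ∀ s ∈ Ψ t, ∃ i, τ i = t ∧ φ i = s

lemma idx_equiv (h : ∀ t s, c * s ∈ Ψ t ↔ s ∉ Ψ t) (e : Fin g ≃ Σ t, Ψ t) :
    Idx c Ψ (fun i => (e i).1) fun i => (e i).2.1 := by
  refine ⟨h, fun i i' h1 h2 => e.injective ?_, fun i => (e i).2.2, fun t s hs =>
    ⟨e.symm ⟨t, s, hs⟩, ?_, ?_⟩⟩
  · generalize e i = x, e i' = x' at h1 h2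
    obtain ⟨t, ψ⟩ := x
    obtain ⟨t', ψ'⟩ := x'
    obtain rfl : t = t' := h1
    exact congrArg (Sigma.mk t) (Subtype.ext h2)
  all_goals rw [e.apply_symm_apply]

/-- one integer of `L` for each type, acting diagonally -/
def ES (τ : Fin g → T) (φ : Fin g → Gal(L/ℚ)) : Set (Fin g → ℂ) :=
  {a | ∃ b : T → L, (∀ t, IsIntegral ℤ (b t)) ∧ ∀ i, a i = φ i (b (τ i))}

lemma int_map (s : Gal(L/ℚ)) {b : L} (hb : IsIntegral ℤ b) : IsIntegral ℤ (s b) :=
  map_isIntegral_int s.toRingEquiv hb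

lemma int_of_coe (s : Gal(L/ℚ)) {b : L} (hb : IsIntegral ℤ (s b : ℂ)) : IsIntegral ℤ b := by
  have h : IsIntegral ℤ (s b) :=
    (isIntegral_algHom_iff (algebraMap L ℂ).toIntAlgHom (algebraMap L ℂ).injective).1 hb
  simpa using int_map s.symm h

lemma ES_L {a : Fin g → ℂ} (ha : a ∈ ES τ φ) (i : Fin g) : a i ∈ L := by
  obtain ⟨b, -, h⟩ := ha
  rw [h]; exact (φ i _).2

lemma ES_max (a : Fin g → ℂ) (hi : IsIntegral ℤ a) (n : ℕ) (hn : n ≠ 0) (ha : n • a ∈ ES τ φ) :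
    a ∈ ES τ φ := by
  classical
  obtain ⟨b, hb, h⟩ := ha
  have h1 : ∀ i, a i = φ i (b (τ i) / n) := fun i => by
    have h2 : (n : ℂ) ≠ 0 := by exact_mod_cast hn
    have h3 := h i
    simp only [Pi.smul_apply, nsmul_eq_mul] at h3
    rw [map_div₀, map_natCast]; push_cast
    rw [← h3]; field_simp
  refine ⟨fun t => if ∃ i, τ i = t then b t / n else 0, fun t => ?_, fun i => ?_⟩
  · dsimp only
    split_ifs with ht
    · obtain ⟨i, rfl⟩ := ht
      refine int_of_coe (φ i) ?_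
      rw [← h1]
      exact map_isIntegral_int (Pi.evalRingHom (fun _ => ℂ) i) hi
    · exact isIntegral_zero
  · dsimp only
    rw [if_pos ⟨i, rfl⟩, h1]

lemma ES_star (hc : ∀ z, (c z : ℂ) = star (z : ℂ)) (hz : ∀ s, s * c = c * s) {a : Fin g → ℂ}
    (ha : a ∈ ES τ φ) : star a ∈ ES τ φ := by
  obtain ⟨b, hb, h⟩ := ha
  refine ⟨fun t => c (b t), fun t => int_map c (hb t), fun i => ?_⟩
  rw [Pi.star_apply, h, ← hc, ← AlgEquiv.mul_apply, ← hz, AlgEquiv.mul_apply]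

lemma ES_all (h : Idx c Ψ τ φ) {θ : L} (h1 : IsIntegral ℤ θ)
    (h2 : Injective fun s : Gal(L/ℚ) => s θ) (hL : ∀ a ∈ ES τ φ, ∀ i, a i ∈ L) (t : T)
    (ht : 1 ∈ Ψ t) : ∃ i, ∀ s, s ∈ Ψ t ↔ ∃ i', ∀ a h, (s ⟨a i, hL a h i⟩ : ℂ) = a i' := by
  classical
  obtain ⟨i, hi, hi'⟩ := h.all t 1 ht
  have key : ∀ (a) (ha : a ∈ ES τ φ) (b : T → L), (∀ i, a i = φ i (b (τ i))) →
      (⟨a i, hL a ha i⟩ : L) = b t := fun a ha b hb => Subtype.ext (by
    simp only [hb i, hi, hi', AlgEquiv.one_apply])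
  refine ⟨i, fun s => ⟨fun hs => ?_, fun ⟨i', H⟩ => ?_⟩⟩
  · obtain ⟨i', h3, h4⟩ := h.all t s hs
    refine ⟨i', fun a ha => ?_⟩
    obtain ⟨b, hb, hb'⟩ := id ha
    rw [key a ha b hb', hb' i', h3, h4]
  · have h3 : τ i' = t := by
      by_contra hne
      let b : T → L := fun t' => if t' = t then 1 else 0
      have hb : ∀ t, IsIntegral ℤ (b t) := fun t => by
        simp only [b]; split_ifs; exacts [isIntegral_one, isIntegral_zero]
      have ha : (fun i => (φ i (b (τ i)) : ℂ)) ∈ ES τ φ := ⟨b, hb, fun _ => rfl⟩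
      have := H _ ha
      rw [key _ ha b fun _ => rfl] at this
      simp [b, hne] at this
    have ha : (fun i => (φ i θ : ℂ)) ∈ ES τ φ := ⟨fun _ => θ, fun _ => h1, fun _ => rfl⟩
    have := H _ ha
    rw [key _ ha (fun _ => θ) fun _ => rfl] at this
    rw [h2 (Subtype.ext this), ← h3]
    exact h.mem i'

variable [FiniteDimensional ℚ L] [IsGalois ℚ L]

variable (L) in
lemma exists_prim : ∃ θ : L, IsIntegral ℤ θ ∧ Injective fun s : Gal(L/ℚ) => s θ := by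
  have hal : IsAlgebraic ℤ (IsGalois.normalBasis ℚ L 1) :=
    (IsFractionRing.isAlgebraic_iff ℤ ℚ L).2 (Algebra.IsAlgebraic.isAlgebraic _)
  obtain ⟨n, hn, h⟩ := hal.exists_integral_multiple
  refine ⟨_, h, fun s s' e => (IsGalois.normalBasis ℚ L).injective ?_⟩
  simp only [map_zsmul] at e
  rw [IsGalois.normalBasis_apply s, IsGalois.normalBasis_apply s']
  exact smul_right_injective L hn e

lemma ES_cm [Finite T] (h : Idx c Ψ τ φ) (hc : ∀ z, (c z : ℂ) = star (z : ℂ)) :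
    ∃ θ ∈ ES τ φ, Injective (Sum.elim θ (star θ)) := by
  obtain ⟨θ, h1, h2⟩ := exists_prim L
  obtain ⟨k, hk⟩ := exists_injective_nat T
  obtain ⟨N, hN⟩ : ∃ N : ℕ, ∀ s s' : Gal(L/ℚ), ‖(s θ : ℂ) - s' θ‖ < N := by
    obtain ⟨B, hB⟩ := (Set.finite_range fun p : Gal(L/ℚ) × Gal(L/ℚ) =>
      ‖(p.1 θ : ℂ) - p.2 θ‖).bddAbove
    obtain ⟨N, hN⟩ := exists_nat_gt B
    exact ⟨N, fun s s' => (hB ⟨(s, s'), rfl⟩).trans_lt hN⟩
  have key : ∀ (s s' : Gal(L/ℚ)) t t', (s (θ + (N * k t : ℕ)) : ℂ) = s' (θ + (N * k t' : ℕ)) →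
      t = t' ∧ s = s' := by
    intro s s' t t' e
    simp only [map_add, map_natCast] at e
    push_cast at e
    have e1 : (s θ : ℂ) - s' θ = N * ((k t' : ℤ) - k t : ℤ) := by
      push_cast; linear_combination e
    have h3 := hN s s'
    have h4 : k t = k t' := by
      by_contra hne
      have h6 : (k t' : ℤ) - k t ≠ 0 := sub_ne_zero.2 fun e => hne (Nat.cast_injective e).symm
      have h5 : ((1 : ℤ) : ℝ) ≤ (|(k t' : ℤ) - k t| : ℤ) := Int.cast_le.2 (Int.one_le_abs h6)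
      rw [e1, norm_mul, Complex.norm_natCast, Complex.norm_intCast] at h3
      have : (0 : ℝ) ≤ N := Nat.cast_nonneg N
      push_cast at h5 h3
      nlinarith
    rw [h4] at e
    exact ⟨hk h4, h2 (Subtype.ext (add_right_cancel e))⟩
  refine ⟨fun i => φ i (θ + (N * k (τ i) : ℕ)), ⟨fun t => θ + (N * k t : ℕ),
    fun t => h1.add (isIntegral_natCast _), fun _ => rfl⟩, ?_⟩
  have hne : ∀ i j, τ i = τ j → φ i ≠ c * φ j := fun i j h5 h6 =>
    (h.typ _ _).1 (h6 ▸ h5 ▸ h.mem i) (h.mem j)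
  rintro (i | i) (j | j) e <;>
    simp only [Sum.elim_inl, Sum.elim_inr, Pi.star_apply, ← hc, ← AlgEquiv.mul_apply] at e <;>
    obtain ⟨h5, h6⟩ := key _ _ _ _ e
  · rw [h.inj i j h5 h6]
  · exact absurd h6 (hne i j h5)
  · exact absurd h6.symm (hne j i h5.symm)
  · rw [h.inj i j h5 (mul_left_cancel h6)]

lemma exists_tr (hc : ∀ z, (c z : ℂ) = star (z : ℂ)) (hz : ∀ s, s * c = c * s) {b : L}
    (hb : IsIntegral ℤ b) : ∃ d : ℕ, ∑ s : Gal(L/ℚ), (s b : ℂ) * star (s b : ℂ) = d := by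
  have h1 : IsIntegral ℤ (Algebra.trace ℚ L (b * c b)) :=
    Algebra.isIntegral_trace (hb.mul (int_map c hb))
  obtain ⟨z, hz'⟩ := IsIntegrallyClosed.isIntegral_iff.1 h1
  have h2 : ∑ s : Gal(L/ℚ), (s b : ℂ) * star (s b : ℂ) = z := by
    have h3 := congrArg (fun x : L => (x : ℂ)) (trace_eq_sum_automorphisms (K := ℚ) (b * c b))
    rw [← hz'] at h3
    simp only [eq_intCast, map_intCast, map_mul] at h3
    push_cast at h3
    rw [h3]
    refine Finset.sum_congr rfl fun s _ => ?_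
    rw [← hc, ← AlgEquiv.mul_apply, ← hz, AlgEquiv.mul_apply]
  have h4 : (0 : ℝ) ≤ z := by
    have h5 : ((∑ s : Gal(L/ℚ), Complex.normSq (s b) : ℝ) : ℂ) = (z : ℝ) := by
      push_cast; rw [← h2]
      exact Finset.sum_congr rfl fun s _ => (Complex.mul_conj _).symm
    rw [← Complex.ofReal_injective h5]
    exact Finset.sum_nonneg fun s _ => Complex.normSq_nonneg _
  obtain ⟨d, rfl⟩ := Int.eq_ofNat_of_zero_le (by exact_mod_cast h4 : 0 ≤ z)
  exact ⟨d, by simpa using h2⟩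

/-- BAL -/
theorem ES_bal [Finite T] (hc : ∀ z, (c z : ℂ) = star (z : ℂ)) (hz : ∀ s, s * c = c * s)
    {a : Fin g → ℂ} (ha : a ∈ ES τ φ) : ∃ d0 : ℕ, ∀ d ≥ d0, ∃ (n : ℕ)
      (b : Fin (n + 1) → Fin g → ℂ), b 0 = a ∧ (∀ j, b j ∈ ES τ φ) ∧ ∀ i, ∑ j, b j i * star (b j i) = d := by
  classical
  obtain ⟨b, hb, h⟩ := id ha
  choose d hd using fun t => exists_tr hc hz (hb t)
  obtain ⟨d0, hd0⟩ := (Set.finite_range d).bddAbove
  refine ⟨d0, fun D hD => ?_⟩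
  let B : {s : Gal(L/ℚ) // s ≠ 1} ⊕ Fin D → T → L :=
    Sum.elim (fun s t => s.1 (b t)) fun j t => if d t ≤ j.1 then 1 else 0
  let e := (Fintype.equivFin ({s : Gal(L/ℚ) // s ≠ 1} ⊕ Fin D)).symm
  refine ⟨_, Fin.cons a fun j i => φ i (B (e j) (τ i)), rfl, fun j => ?_, fun i => ?_⟩
  · refine Fin.cases ha (fun j => ⟨B (e j), fun t => ?_, fun _ => rfl⟩) j
    rcases e j with s | j
    · exact int_map _ (hb t)
    · simp only [B, Sum.elim_inr]; split_ifs; exacts [isIntegral_one, isIntegral_zero]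
  · have h1 := hd (τ i)
    rw [← Equiv.sum_comp (Equiv.mulLeft (φ i)), Fintype.sum_eq_add_sum_subtype_ne _ 1] at h1
    have h2 : ∑ j : Fin D, (if d (τ i) ≤ j.1 then 1 else 0 : ℂ) = D - d (τ i) := by
      have h3 : d (τ i) ≤ D := (hd0 ⟨_, rfl⟩).trans hD
      rw [Fin.sum_univ_eq_sum_range (fun j => if d (τ i) ≤ j then (1 : ℂ) else 0),
        ← Finset.sum_filter, show (Finset.range D).filter (d (τ i) ≤ ·) = Finset.Ico (d (τ i)) D by
          ext j; simp [and_comm]]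
      simp [h3]
    rw [Fin.sum_univ_succ]
    simp only [Fin.cons_zero, Fin.cons_succ]
    rw [Equiv.sum_comp e fun j => (φ i (B j (τ i)) : ℂ) * star (φ i (B j (τ i)) : ℂ), Fintype.sum_sum_type,
      ← add_assoc, h i]
    simp only [Equiv.coe_mulLeft, mul_one, AlgEquiv.mul_apply] at h1
    simp only [B, Sum.elim_inl, Sum.elim_inr]
    rw [h1, eq_sub_iff_add_eq'.1 h2 |>.symm]
    congr 1
    refine Finset.sum_congr rfl fun j _ => ?_
    split_ifs <;> simp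

end Pool.Agent.Tav.Typ
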