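import Pool.Agent.P.MP_e12fcd_ag.Cmh.Osg

/-! Jets at the origin, twisted by a ring homomorphism of `ℂ`. -/

set_option autoImplicit false

open MvPolynomial Filter Topology Asymptotics

noncomputable section

namespace Pool.Agent.Tav.Uni

variable {ι κ : Type} [Fintype ι] [Fintype κ]

/-- vanishing to order `n` at the origin -/
def Sm {W : Type} [Norm W] (n : ℕ) (f : (ι → ℂ) → W) : Prop :=
  f =O[𝓝 0] fun u => ‖u‖ ^ n

theorem Sm.mono {W : Type} [SeminormedAddCommGroup W] {m n : ℕ} {f : (ι → ℂ) → W} (h : Sm n f)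
    (hmn : m ≤ n) : Sm m f := by
  refine h.trans (IsBigO.of_bound 1 ?_)
  filter_upwards [Metric.ball_mem_nhds (0 : ι → ℂ) one_pos] with u hu
  rw [mem_ball_zero_iff] at hu
  rw [one_mul, Real.norm_of_nonneg (by positivity), Real.norm_of_nonneg (by positivity)]
  exact pow_le_pow_of_le_one (norm_nonneg _) hu.le hmn

theorem sm_zero_of_cont {f : (ι → ℂ) → ℂ} (h : ContinuousAt f 0) : Sm 0 f := by
  simpa [Sm] using h.tendsto.isBigO_one ℝ

theorem Sm.mul {m n : ℕ} {f g : (ι → ℂ) → ℂ} (hf : Sm m f) (hg : Sm n g) :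
    Sm (m + n) fun u => f u * g u := by
  simpa only [Sm, pow_add] using IsBigO.mul hf hg

omit [Fintype ι] in
theorem cont_eval (p : MvPolynomial ι ℂ) : Continuous fun u : ι → ℂ => eval u p :=
  MvPolynomial.continuous_eval p

theorem sm_of_low {n : ℕ} {p : MvPolynomial ι ℂ} (h : ∀ d, d.degree < n → coeff d p = 0) :
    Sm n fun u => eval u p := by
  simp only [eval_eq']
  unfold Sm
  refine IsBigO.fun_sum fun d hd => ?_
  have hn : n ≤ d.degree := not_lt.1 fun h' => mem_support_iff.1 hd (h d h')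
  refine Sm.mono (n := d.degree) (f := fun u => coeff d p * ∏ i, u i ^ d i)
    (IsBigO.const_mul_left (IsBigO.of_bound 1 ?_) _) hn
  refine Eventually.of_forall fun u => ?_
  rw [one_mul, Real.norm_of_nonneg (by positivity), norm_prod, Finsupp.degree_eq_sum,
    ← Finset.prod_pow_eq_pow_sum]
  refine Finset.prod_le_prod (fun _ _ => norm_nonneg _) fun i _ => ?_
  rw [norm_pow]
  exact pow_le_pow_left₀ (norm_nonneg _) (norm_le_pi_norm u i) _

theorem eval_smul_hom {n : ℕ} {p : MvPolynomial ι ℂ} (h : p.IsHomogeneous n) (t : ℂ)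
    (u : ι → ℂ) : eval (t • u) p = t ^ n * eval u p := by
  simp only [eval_eq', Finset.mul_sum]
  refine Finset.sum_congr rfl fun d hd => ?_
  have : d.degree = n := by
    by_contra h'
    exact mem_support_iff.1 hd (h.coeff_eq_zero h')
  simp only [Pi.smul_apply, smul_eq_mul, mul_pow, Finset.prod_mul_distrib,
    Finset.prod_pow_eq_pow_sum]
  rw [← Finsupp.degree_eq_sum, this]
  ring

omit [Fintype ι] in
theorem line_tendsto (u : ι → ℂ) : Tendsto (fun t : ℂ => t • u) (𝓝 0) (𝓝 0) := by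
  have : Continuous fun t : ℂ => t • u := by fun_prop
  simpa using this.tendsto 0

theorem Sm.line {n : ℕ} {f : (ι → ℂ) → ℂ} (h : Sm n f) (u : ι → ℂ) :
    (fun t : ℂ => f (t • u)) =O[𝓝 0] fun t : ℂ => t ^ n := by
  refine (IsBigO.comp_tendsto h (line_tendsto u)).trans (IsBigO.of_bound (‖u‖ ^ n) ?_)
  refine Eventually.of_forall fun t => ?_
  simp only [Function.comp, norm_pow, norm_norm, norm_smul, mul_pow, norm_mul]
  rw [mul_comm]

theorem zero_of_pow {n : ℕ} {g : ℂ → ℂ} (hg : ContinuousAt g 0)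
    (h : (fun t : ℂ => t ^ n * g t) =O[𝓝 0] fun t : ℂ => t ^ (n + 1)) : g 0 = 0 := by
  obtain ⟨C, hC⟩ := h.bound
  have h1 : ∀ᶠ t in 𝓝[≠] (0 : ℂ), ‖g t‖ ≤ C * ‖t‖ := by
    filter_upwards [nhdsWithin_le_nhds hC, self_mem_nhdsWithin] with t ht h0
    have hp : 0 < ‖t‖ ^ n := pow_pos (norm_pos_iff.2 h0) n
    rw [norm_mul, norm_pow, norm_pow, pow_succ] at ht
    exact le_of_mul_le_mul_left (by linarith) hp
  have h2 : Tendsto (fun t : ℂ => C * ‖t‖) (𝓝[≠] 0) (𝓝 0) := by
    have : Continuous fun t : ℂ => C * ‖t‖ := by fun_prop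
    simpa using (this.tendsto 0).mono_left nhdsWithin_le_nhds
  exact norm_le_zero_iff.1
    (le_of_tendsto_of_tendsto (hg.norm.tendsto.mono_left nhdsWithin_le_nhds) h2 h1)

theorem low_of_sm {n : ℕ} {p : MvPolynomial ι ℂ} (h : Sm n fun u => eval u p) :
    ∀ d, d.degree < n → coeff d p = 0 := by
  induction n with
  | zero => simp
  | succ n ih =>
    have h0 := ih (h.mono n.le_succ)
    have h1 : Sm (n + 1) fun u => eval u (p - homogeneousComponent n p) := by
      refine sm_of_low fun d hd => ?_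
      rw [coeff_sub, coeff_homogeneousComponent]
      split_ifs with e
      · exact sub_self _
      · rw [sub_zero]
        exact h0 d (by omega)
    have h2 : Sm (n + 1) fun u => eval u (homogeneousComponent n p) := by
      simpa [Sm] using IsBigO.sub h h1
    have h3 : homogeneousComponent n p = 0 := by
      refine MvPolynomial.funext fun u => ?_
      have := h2.line u
      simp only [eval_smul_hom (homogeneousComponent_isHomogeneous n p)] at this
      simpa using zero_of_pow (g := fun _ => eval u (homogeneousComponent n p))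
        continuousAt_const this
    intro d hd
    rcases Nat.lt_succ_iff_lt_or_eq.1 hd with e | e
    · exact h0 d e
    · have := coeff_homogeneousComponent n p d
      rw [h3, if_pos e] at this
      exact this.symm

theorem sm_map (s : ℂ →+* ℂ) {n : ℕ} {p : MvPolynomial ι ℂ} (h : Sm n fun u => eval u p) :
    Sm n fun u => eval u (map s p) :=
  sm_of_low fun d hd => by rw [coeff_map, low_of_sm h d hd, map_zero]

theorem eq_zero_of_sm {f : (ι → ℂ) → ℂ} (hf : Differentiable ℂ f) (h : ∀ n, Sm n f) (u : ι → ℂ) :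
    f u = 0 := by
  have hd : Differentiable ℂ fun t : ℂ => f (t • u) :=
    hf.comp (differentiable_id.smul_const u)
  have ha : AnalyticOnNhd ℂ (fun t : ℂ => f (t • u)) Set.univ := fun t _ => hd.analyticAt t
  have h0 : ∀ᶠ t in 𝓝 (0 : ℂ), f (t • u) = 0 := by
    by_contra hne
    obtain ⟨n, g, hg, hg0, he⟩ :=
      (hd.analyticAt 0).exists_eventuallyEq_pow_smul_nonzero_iff.2 hne
    refine hg0 (zero_of_pow (n := n) hg.continuousAt ?_)
    refine ((h (n + 1)).line u).congr' ?_ EventuallyEq.rfl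
    filter_upwards [he] with t ht
    simpa using ht
  have := ha.eqOn_zero_of_preconnected_of_eventuallyEq_zero isPreconnected_univ
    (Set.mem_univ 0) h0 (Set.mem_univ 1)
  simpa using this

theorem exists_jet {f : (ι → ℂ) → ℂ} (hf : Differentiable ℂ f) (n : ℕ) :
    ∃ p : MvPolynomial ι ℂ, Sm n fun u => f u - eval u p := by
  classical
  obtain ⟨q, hq⟩ := Pool.Agent.Cmh.Osg.an_of_diffOn isOpen_univ hf.differentiableOn 0
    (Set.mem_univ _)
  refine ⟨∑ k ∈ Finset.range n, ∑ r : Fin k → ι,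
    C (q k fun j => Pi.single (r j) 1) * ∏ j, X (r j), ?_⟩
  refine (hq.isBigO_sub_partialSum_pow n).congr_left fun u => ?_
  simp only [zero_add, FormalMultilinearSeries.partialSum, map_sum, map_mul, eval_C, map_prod,
    eval_X]
  congr 1
  refine Finset.sum_congr rfl fun k _ => ?_
  have e : (fun _ : Fin k => u) = fun _ => ∑ i, u i • (Pi.single i 1 : ι → ℂ) := by
    ext _ j
    simp [Pi.single_apply]
  rw [e, ContinuousMultilinearMap.map_sum]
  refine Finset.sum_congr rfl fun r _ => ?_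
  rw [ContinuousMultilinearMap.map_smul_univ, smul_eq_mul, mul_comm]

/-- the jets of `f'` are the `s`-conjugates of the jets of `f` -/
def Tw (s : ℂ →+* ℂ) (f f' : (ι → ℂ) → ℂ) : Prop :=
  ∀ n, ∃ p : MvPolynomial ι ℂ, Sm n (fun u => f u - eval u p) ∧
    Sm n fun u => f' u - eval u (map s p)

variable {s : ℂ →+* ℂ} {f f' g g' : (ι → ℂ) → ℂ}

theorem tw_const (c : ℂ) : Tw s (fun _ : ι → ℂ => c) fun _ => s c := fun _ =>
  ⟨C c, by simpa [Sm] using isBigO_zero _ _, by simpa [Sm] using isBigO_zero _ _⟩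

theorem Tw.add (hf : Tw s f f') (hg : Tw s g g') :
    Tw s (fun u => f u + g u) fun u => f' u + g' u := fun n => by
  obtain ⟨p, h1, h2⟩ := hf n
  obtain ⟨q, h3, h4⟩ := hg n
  refine ⟨p + q, (IsBigO.add h1 h3).congr_left fun u => ?_,
    (IsBigO.add h2 h4).congr_left fun u => ?_⟩ <;> simp only [map_add] <;> ring

theorem sm_mul_aux {n : ℕ} {p q : MvPolynomial ι ℂ} (h1 : Sm n fun u => f u - eval u p)
    (h2 : Sm n fun u => g u - eval u q) : Sm n fun u => f u * g u - eval u (p * q) := by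
  have hq := sm_zero_of_cont (cont_eval q).continuousAt
  have hp := sm_zero_of_cont (cont_eval p).continuousAt
  have hg : Sm 0 g := by simpa [Sm] using IsBigO.add (h2.mono (Nat.zero_le n)) hq
  have a1 := h1.mul hg
  have a2 := hp.mul h2
  rw [zero_add] at a2
  refine (IsBigO.add a1 a2).congr_left fun u => ?_
  rw [map_mul]
  ring

theorem Tw.mul (hf : Tw s f f') (hg : Tw s g g') :
    Tw s (fun u => f u * g u) fun u => f' u * g' u := fun n => by
  obtain ⟨p, h1, h2⟩ := hf n
  obtain ⟨q, h3, h4⟩ := hg n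
  exact ⟨p * q, sm_mul_aux h1 h3, by rw [map_mul]; exact sm_mul_aux h2 h4⟩

theorem Tw.smul (hf : Tw s f f') (c : ℂ) : Tw s (fun u => c * f u) fun u => s c * f' u :=
  (tw_const c).mul hf

theorem Tw.sub (hf : Tw s f f') (hg : Tw s g g') :
    Tw s (fun u => f u - g u) fun u => f' u - g' u := by
  simpa [sub_eq_add_neg] using hf.add (hg.smul (-1))

theorem Tw.ev {τ : Type} {F F' : (ι → ℂ) → τ → ℂ}
    (h : ∀ l, Tw s (fun u => F u l) fun u => F' u l) (P : MvPolynomial τ ℂ) :
    Tw s (fun u => eval (F u) P) fun u => eval (F' u) (map s P) := by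
  induction P using MvPolynomial.induction_on with
  | C c => simpa using tw_const c
  | add p q hp hq => simpa using hp.add hq
  | mul_X p l hp => simpa using hp.mul (h l)

theorem Sm.lin {W : Type} [SeminormedAddCommGroup W] {n : ℕ} {f : (ι → ℂ) → W} (h : Sm n f)
    (L : (κ → ℂ) →L[ℂ] (ι → ℂ)) : Sm n fun u => f (L u) := by
  have ht : Tendsto L (𝓝 0) (𝓝 0) := by simpa using L.continuous.tendsto 0
  exact (IsBigO.comp_tendsto h ht).trans ((L.isBigO_id _).norm_norm.pow n)

theorem Tw.lin (hf : Tw s f f') (L : Matrix ι κ ℂ) :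
    Tw s (fun u => f (L.mulVec u)) fun u => f' ((L.map s).mulVec u) := fun n => by
  obtain ⟨p, h1, h2⟩ := hf n
  have e : ∀ (M : Matrix ι κ ℂ) (q : MvPolynomial ι ℂ) (u : κ → ℂ),
      eval u (bind₁ (fun i => ∑ j, C (M i j) * X j) q) = eval (M.mulVec u) q := by
    intro M q u
    induction q using MvPolynomial.induction_on with
    | C c => simp
    | add p q hp hq => simp [hp, hq]
    | mul_X p l hp => simp [hp, Matrix.mulVec, dotProduct]
  refine ⟨bind₁ (fun i => ∑ j, C (L i j) * X j) p, ?_, ?_⟩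
  · simpa [e] using h1.lin (LinearMap.toContinuousLinearMap L.mulVecLin)
  · have e2 : map s (bind₁ (fun i => ∑ j, C (L i j) * X j) p) =
        bind₁ (fun i => ∑ j, C (L.map s i j) * X j) (map s p) := by
      rw [map_bind₁]
      simp
    simp only [e2, e]
    exact h2.lin (LinearMap.toContinuousLinearMap (L.map s).mulVecLin)

theorem Tw.sm (hf : Tw s f f') {n : ℕ} (h : Sm n f) : Sm n f' := by
  obtain ⟨p, h1, h2⟩ := hf n
  have h3 : Sm n fun u => eval u p := by simpa [Sm] using IsBigO.sub h h1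
  simpa [Sm] using IsBigO.add h2 (sm_map s h3)

/-- transfer of identities -/
theorem Tw.eq (hf : Tw s f f') (hg : Tw s g g') (hf' : Differentiable ℂ f')
    (hg' : Differentiable ℂ g') (h : ∀ u, f u = g u) (u : ι → ℂ) : f' u = g' u := by
  refine sub_eq_zero.1 (eq_zero_of_sm (f := fun u => f' u - g' u) (hf'.sub hg') (fun n => ?_) u)
  refine (hf.sub hg).sm ?_
  simpa [Sm, h] using isBigO_zero _ _

theorem Sm.zero {W : Type} [NormedAddCommGroup W] {f : (ι → ℂ) → W} {n : ℕ} (h : Sm (n + 1) f) :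
    f 0 = 0 := by
  obtain ⟨C, hC⟩ := IsBigO.bound h
  simpa using hC.self_of_nhds

theorem Tw.zero (hf : Tw s f f') : f' 0 = s (f 0) := by
  obtain ⟨p, h1, h2⟩ := hf 1
  have a1 := sub_eq_zero.1 h1.zero
  have a2 := sub_eq_zero.1 h2.zero
  rw [a1, a2]
  simp [constantCoeff_eq]

end Pool.Agent.Tav.Uni
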