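import Pool.Agent.P.MP_2ce3e7_ag.Tav.GrUniA

/-! The functional equation of Poincaré: a formal solution converges. -/

set_option autoImplicit false

open MvPolynomial Filter Topology Asymptotics Metric

noncomputable section

namespace Pool.Agent.Tav.Uni

variable {ι : Type} [Fintype ι] {W : Type} [NormedAddCommGroup W] [NormedSpace ℂ W]

theorem norm_half (v : ι → ℂ) : ‖(2⁻¹ : ℂ) • v‖ = ‖v‖ / 2 := by
  rw [norm_smul]
  simp
  ring

omit [NormedSpace ℂ W] in
theorem Sm.ball {n : ℕ} {f : (ι → ℂ) → W} (h : Sm n f) :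
    ∃ C ρ : ℝ, 0 < C ∧ 0 < ρ ∧ ∀ v, ‖v‖ < ρ → ‖f v‖ ≤ C * ‖v‖ ^ n := by
  obtain ⟨C, hC, h1⟩ := (IsBigO.exists_pos h)
  obtain ⟨ρ, hρ, h2⟩ := Metric.eventually_nhds_iff_ball.1 h1.bound
  refine ⟨C, ρ, hC, hρ, fun v hv => ?_⟩
  simpa using h2 v (mem_ball_zero_iff.2 hv)

theorem gron {δ : (ι → ℂ) → ℝ} {L C C0 ρ : ℝ} {n0 n : ℕ} (hL : 2 * L ≤ 2 ^ n0) (hL0 : 0 ≤ L)
    (hn : n0 ≤ n) (hC : 0 ≤ C) (hC0 : 0 ≤ C0)
    (h0 : ∀ v, ‖v‖ < ρ → δ v ≤ C0 * ‖v‖ ^ n0)
    (h1 : ∀ v, ‖v‖ < ρ → δ v ≤ L * δ ((2⁻¹ : ℂ) • v) + C * ‖v‖ ^ n) (v : ι → ℂ) (hv : ‖v‖ < ρ) :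
    δ v ≤ 2 * C * ‖v‖ ^ n := by
  have key : ∀ k : ℕ, ∀ v, ‖v‖ < ρ → δ v ≤ C0 * ‖v‖ ^ n0 * (1 / 2) ^ k + 2 * C * ‖v‖ ^ n := by
    intro k
    induction k with
    | zero =>
      intro v hv
      have := h0 v hv
      have : 0 ≤ 2 * C * ‖v‖ ^ n := by positivity
      simp only [pow_zero, mul_one]
      linarith
    | succ k ih =>
      intro v hv
      have hh : ‖(2⁻¹ : ℂ) • v‖ < ρ := by
        rw [norm_half]
        linarith [norm_nonneg v]
      have a := mul_le_mul_of_nonneg_left (ih _ hh) hL0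
      rw [norm_half, div_pow ‖v‖ 2 n0, div_pow ‖v‖ 2 n] at a
      have p0 : (0 : ℝ) < 2 ^ n0 := by positivity
      have p1 : (0 : ℝ) < 2 ^ n := by positivity
      have l0 : L / 2 ^ n0 ≤ 1 / 2 := by rw [div_le_iff₀ p0]; linarith
      have l1 : L / 2 ^ n ≤ 1 / 2 := by
        rw [div_le_iff₀ p1]
        have : (2 : ℝ) ^ n0 ≤ 2 ^ n := pow_le_pow_right₀ one_le_two hn
        linarith
      have b0 := mul_le_mul_of_nonneg_right l0
        (show 0 ≤ C0 * ‖v‖ ^ n0 * (1 / 2) ^ k by positivity)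
      have b1 := mul_le_mul_of_nonneg_right l1 (show 0 ≤ 2 * C * ‖v‖ ^ n by positivity)
      have e : L * (C0 * (‖v‖ ^ n0 / 2 ^ n0) * (1 / 2) ^ k + 2 * C * (‖v‖ ^ n / 2 ^ n)) =
          L / 2 ^ n0 * (C0 * ‖v‖ ^ n0 * (1 / 2) ^ k) + L / 2 ^ n * (2 * C * ‖v‖ ^ n) := by ring
      have := h1 v hv
      rw [pow_succ]
      linarith
  have ht : Tendsto (fun k : ℕ => C0 * ‖v‖ ^ n0 * (1 / 2) ^ k + 2 * C * ‖v‖ ^ n) atTop
      (𝓝 (C0 * ‖v‖ ^ n0 * 0 + 2 * C * ‖v‖ ^ n)) :=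
    ((tendsto_pow_atTop_nhds_zero_of_lt_one (by norm_num) (by norm_num)).const_mul _).add_const _
  simpa using ge_of_tendsto' ht fun k => key k v hv

/-- the iterates -/
def itr (D : W → W) (q : (ι → ℂ) → W) : ℕ → (ι → ℂ) → W
  | 0 => q
  | k + 1 => fun v => D (itr D q k ((2⁻¹ : ℂ) • v))

theorem itr_diff {D : W → W} {q : (ι → ℂ) → W} (hD : Differentiable ℂ D)
    (hq : Differentiable ℂ q) (k : ℕ) : Differentiable ℂ (itr D q k) := by
  induction k with
  | zero => exact hq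
  | succ k ih => exact hD.comp (ih.comp (differentiable_id.const_smul (2⁻¹ : ℂ)))

theorem poincare_aux [CompleteSpace W] {D : W → W} {q : (ι → ℂ) → W} (hD : Differentiable ℂ D)
    (hq : Differentiable ℂ q) {L : ℝ} (hL0 : 0 ≤ L) {n : ℕ} (hL : 2 * L ≤ 2 ^ n) (hn : n ≠ 0)
    (hlip : ∀ x ∈ closedBall (q 0) 1, ∀ y ∈ closedBall (q 0) 1, ‖D x - D y‖ ≤ L * ‖x - y‖)
    (h : Sm n fun v => D (q ((2⁻¹ : ℂ) • v)) - q v) :
    ∃ F : (ι → ℂ) → W, Differentiable ℂ F ∧ (∀ v, F v = D (F ((2⁻¹ : ℂ) • v))) ∧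
      Sm n fun v => F v - q v := by
  obtain ⟨C, ρ0, hC, hρ0, hb⟩ := h.ball
  have hs : ∀ᶠ v in 𝓝 (0 : ι → ℂ), ‖q v - q 0‖ + 2 * C * ‖v‖ ^ n < 1 := by
    have hc := hq.continuous
    have : Continuous fun v : ι → ℂ => ‖q v - q 0‖ + 2 * C * ‖v‖ ^ n := by fun_prop
    exact this.continuousAt.eventually_lt continuousAt_const (by simp [hn])
  obtain ⟨ρ1, hρ1, hs⟩ := Metric.eventually_nhds_iff_ball.1 hs
  set ρ := min ρ0 ρ1 with hρ
  have hρp : 0 < ρ := lt_min hρ0 hρ1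
  have half : ∀ v : ι → ℂ, ‖v‖ < ρ → ‖(2⁻¹ : ℂ) • v‖ < ρ := fun v hv => by
    rw [norm_half]
    linarith [norm_nonneg v]
  have key : ∀ k : ℕ, ∀ v, ‖v‖ < ρ →
      ‖itr D q k v - q v‖ ≤ 2 * C * ‖v‖ ^ n * (1 - (1 / 2) ^ k) ∧
      ‖itr D q (k + 1) v - itr D q k v‖ ≤ C * ‖v‖ ^ n * (1 / 2) ^ k := by
    intro k
    induction k with
    | zero =>
      intro v hv
      exact ⟨by simp [itr], by simpa [itr] using hb v (hv.trans_le (min_le_left _ _))⟩
    | succ k ih =>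
      have a : ∀ v, ‖v‖ < ρ →
          ‖itr D q (k + 1) v - q v‖ ≤ 2 * C * ‖v‖ ^ n * (1 - (1 / 2) ^ (k + 1)) := by
        intro v hv
        have := norm_sub_le_norm_sub_add_norm_sub (itr D q (k + 1) v) (itr D q k v) (q v)
        have h2 := ih v hv
        rw [pow_succ]
        linarith [h2.1, h2.2]
      have m : ∀ (j : ℕ) (x : W) (v : ι → ℂ), ‖v‖ < ρ →
          ‖x - q v‖ ≤ 2 * C * ‖v‖ ^ n * (1 - (1 / 2) ^ j) → x ∈ closedBall (q 0) 1 := by
        intro j x v hv hx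
        have h3 := hs v (mem_ball_zero_iff.2 (hv.trans_le (min_le_right _ _)))
        have := norm_sub_le_norm_sub_add_norm_sub x (q v) (q 0)
        have h4 : 0 ≤ 2 * C * ‖v‖ ^ n * (1 / 2) ^ j := by positivity
        rw [mem_closedBall, dist_eq_norm]
        linarith
      intro v hv
      refine ⟨a v hv, ?_⟩
      have hh := half v hv
      have b := hlip _ (m _ _ _ hh (a _ hh)) _ (m _ _ _ hh (ih _ hh).1)
      have c := mul_le_mul_of_nonneg_left (ih _ hh).2 hL0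
      rw [norm_half, div_pow] at c
      have p0 : (0 : ℝ) < 2 ^ n := by positivity
      have l0 : L / 2 ^ n ≤ 1 / 2 := by rw [div_le_iff₀ p0]; linarith
      have b0 := mul_le_mul_of_nonneg_right l0 (show 0 ≤ C * ‖v‖ ^ n * (1 / 2) ^ k by positivity)
      have e : L * (C * (‖v‖ ^ n / 2 ^ n) * (1 / 2) ^ k) =
          L / 2 ^ n * (C * ‖v‖ ^ n * (1 / 2) ^ k) := by ring
      change ‖D _ - D _‖ ≤ _
      rw [pow_succ]
      linarith
  set u : ℕ → (ι → ℂ) → W := fun k v => itr D q (k + 1) v - itr D q k v with hu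
  have ud : ∀ k, Differentiable ℂ (u k) := fun k => (itr_diff hD hq _).sub (itr_diff hD hq _)
  have ub : ∀ k v, ‖v‖ < ρ → ‖u k v‖ ≤ C * ρ ^ n * (1 / 2) ^ k := fun k v hv =>
    (key k v hv).2.trans (by gcongr)
  have us : ∀ v, ‖v‖ < ρ → Summable fun k => u k v := fun v hv =>
    Summable.of_norm_bounded (summable_geometric_two.mul_left _) fun k => ub k v hv
  have t0 : ∀ v, ‖v‖ < ρ → Tendsto (fun k => itr D q k v) atTop (𝓝 (q v + ∑' k, u k v)) := by
    intro v hv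
    refine ((us v hv).hasSum.tendsto_sum_nat.const_add (q v)).congr fun k => ?_
    rw [hu, Finset.sum_range_sub (fun k => itr D q k v)]
    simp [itr]
  have t1 : ∀ m : ℕ, ∀ v, ‖v‖ < 2 ^ m * ρ → ∃ y, Tendsto (fun k => itr D q k v) atTop (𝓝 y) := by
    intro m
    induction m with
    | zero => exact fun v hv => ⟨_, t0 v (by simpa using hv)⟩
    | succ m ih =>
      intro v hv
      obtain ⟨y, hy⟩ := ih ((2⁻¹ : ℂ) • v) (by rw [norm_half]; rw [pow_succ] at hv; linarith)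
      exact ⟨D y, (tendsto_add_atTop_iff_nat 1).1 ((hD.continuous.tendsto y).comp hy)⟩
  have big : ∀ (v : ι → ℂ) (r : ℝ), 0 < r → ∃ m : ℕ, ‖v‖ < 2 ^ m * r := fun v r hr => by
    obtain ⟨m, hm⟩ := pow_unbounded_of_one_lt (‖v‖ / r) (one_lt_two (α := ℝ))
    exact ⟨m, (div_lt_iff₀ hr).1 hm⟩
  have t2 : ∀ v, ∃ y, Tendsto (fun k => itr D q k v) atTop (𝓝 y) := fun v =>
    (big v ρ hρp).elim fun m hm => t1 m v hm
  choose F hF using t2
  have fe : ∀ v, F v = D (F ((2⁻¹ : ℂ) • v)) := fun v =>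
    tendsto_nhds_unique (hF v)
      ((tendsto_add_atTop_iff_nat 1).1 ((hD.continuous.tendsto _).comp (hF _)))
  have d0 : ∀ v, ‖v‖ < ρ / 2 → DifferentiableAt ℂ F v := by
    intro v hv
    have hd := hasFDerivAt_tsum_of_isPreconnected (𝕜 := ℂ) (f := u)
      (f' := fun k x => fderiv ℂ (u k) x) (s := ball 0 (ρ / 2)) (x₀ := 0) (x := v)
      (u := fun k => 2 * (C * ρ ^ n) / (ρ / 2) * (1 / 2) ^ k)
      (summable_geometric_two.mul_left _) isOpen_ball (convex_ball _ _).isPreconnected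
      (fun k x _ => (ud k x).hasFDerivAt) (fun k x hx => ?_) (mem_ball_self (by linarith))
      (us 0 (by simpa using hρp)) (mem_ball_zero_iff.2 hv)
    · refine ((hq v).add hd.differentiableAt).congr_of_eventuallyEq ?_
      filter_upwards [isOpen_ball.mem_nhds (mem_ball_zero_iff.2 hv)] with x hx
      rw [mem_ball_zero_iff] at hx
      exact tendsto_nhds_unique (hF x) (t0 x (by linarith))
    · rw [mem_ball_zero_iff] at hx
      refine (Complex.norm_fderiv_le_div_of_mapsTo_ball (R₁ := ρ / 2)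
        (R₂ := 2 * (C * ρ ^ n * (1 / 2) ^ k)) (ud k).differentiableOn (fun y hy => ?_)
        (by linarith)).trans_eq (by ring)
      rw [mem_ball, dist_eq_norm] at hy
      have h5 := norm_le_norm_add_norm_sub' y x
      have h6 := norm_sub_le (u k y) (u k x)
      rw [mem_closedBall, dist_eq_norm]
      linarith [ub k y (by linarith), ub k x (by linarith)]
  have d1 : ∀ m : ℕ, ∀ v, ‖v‖ < 2 ^ m * (ρ / 2) → DifferentiableAt ℂ F v := by
    intro m
    induction m with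
    | zero => exact fun v hv => d0 v (by simpa using hv)
    | succ m ih =>
      intro v hv
      have := ih ((2⁻¹ : ℂ) • v) (by rw [norm_half]; rw [pow_succ] at hv; linarith)
      rw [funext fe]
      exact (hD _).comp v (this.comp v (differentiableAt_id.const_smul (2⁻¹ : ℂ)))
  refine ⟨F, fun v => (big v (ρ / 2) (by linarith)).elim fun m hm => d1 m v hm, fe, ?_⟩
  refine IsBigO.of_bound (2 * C) ?_
  filter_upwards [ball_mem_nhds (0 : ι → ℂ) hρp] with v hv
  rw [mem_ball_zero_iff] at hv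
  rw [Real.norm_of_nonneg (by positivity)]
  refine le_of_tendsto' ((hF v).sub_const (q v)).norm fun k => (key k v hv).1.trans ?_
  have : 0 ≤ 2 * C * ‖v‖ ^ n * (1 / 2) ^ k := by positivity
  linarith

theorem diff_eval {τ : Type} [Fintype τ] (P : MvPolynomial τ ℂ) :
    Differentiable ℂ fun x : τ → ℂ => eval x P := by
  induction P using MvPolynomial.induction_on with
  | C c => simp
  | add p q hp hq => simpa using hp.fun_add hq
  | mul_X p l hp => simpa using hp.fun_mul (differentiable_apply l)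

theorem sm_pi {τ : Type} [Fintype τ] {n : ℕ} {f : (ι → ℂ) → τ → ℂ} :
    Sm n f ↔ ∀ l, Sm n fun u => f u l := isBigO_pi

theorem sm_ev {τ : Type} [Fintype τ] {n : ℕ} {F G : (ι → ℂ) → τ → ℂ} (hF : Continuous F)
    (hG : Continuous G) (h : ∀ l, Sm n fun u => F u l - G u l) (P : MvPolynomial τ ℂ) :
    Sm n fun u => eval (F u) P - eval (G u) P := by
  induction P using MvPolynomial.induction_on with
  | C c => simpa [Sm] using isBigO_zero _ _
  | add p q hp hq =>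
    refine (IsBigO.add hp hq).congr_left fun u => ?_
    simp only [map_add]
    ring
  | mul_X p l hp =>
    have a1 := hp.mul (sm_zero_of_cont ((continuous_apply l).comp hF).continuousAt)
    have a2 := (sm_zero_of_cont ((cont_eval p).comp hG).continuousAt).mul (h l)
    rw [zero_add] at a2
    refine (IsBigO.add a1 a2).congr_left fun u => ?_
    simp only [map_mul, eval_X, Function.comp]
    ring

theorem tw_poly (s : ℂ →+* ℂ) (p : MvPolynomial ι ℂ) :
    Tw s (fun u => eval u p) fun u => eval u (map s p) := fun _ =>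
  ⟨p, by simpa [Sm] using isBigO_zero _ _, by simpa [Sm] using isBigO_zero _ _⟩

theorem Tw.diag {s : ℂ →+* ℂ} {f f' : (ι → ℂ) → ℂ} (hf : Tw s f f') (a : ι → ℂ) :
    Tw s (fun u => f (a * u)) fun u => f' ((fun i => s (a i)) * u) := by
  classical
  have := hf.lin (Matrix.diagonal a)
  rw [Matrix.diagonal_map (map_zero s)] at this
  have e : ∀ b u : ι → ℂ, (Matrix.diagonal b).mulVec u = b * u := fun b u =>
    funext fun i => Matrix.mulVec_diagonal b u i
  simpa only [e] using this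

theorem Tw.half {s : ℂ →+* ℂ} {f f' : (ι → ℂ) → ℂ} (hf : Tw s f f') :
    Tw s (fun u => f ((2⁻¹ : ℂ) • u)) fun u => f' ((2⁻¹ : ℂ) • u) := by
  have := hf.diag fun _ => 2⁻¹
  rw [map_inv₀, map_ofNat] at this
  exact this

theorem Sm.half {n : ℕ} {f : (ι → ℂ) → ℂ} (h : Sm n f) : Sm n fun u => f ((2⁻¹ : ℂ) • u) :=
  h.lin ((2⁻¹ : ℂ) • ContinuousLinearMap.id ℂ (ι → ℂ))

/-- the conjugate of an entire solution of the equation of Poincaré -/
theorem poincare {τ : Type} [Fintype τ] (s : ℂ →+* ℂ) {φ : (ι → ℂ) → τ → ℂ}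
    (hφ : Differentiable ℂ φ) (D : τ → MvPolynomial τ ℂ)
    (hD : ∀ v l, φ v l = eval (φ ((2⁻¹ : ℂ) • v)) (D l)) :
    ∃ ψ : (ι → ℂ) → τ → ℂ, Differentiable ℂ ψ ∧
      (∀ v l, ψ v l = eval (ψ ((2⁻¹ : ℂ) • v)) (map s (D l))) ∧
      ∀ l, Tw s (fun u => φ u l) fun u => ψ u l := by
  choose p hp using fun n l => exists_jet (differentiable_pi.1 hφ l) n
  set q : ℕ → (ι → ℂ) → τ → ℂ := fun n v l => eval v (map s (p n l)) with hq
  set E : (τ → ℂ) → τ → ℂ := fun x l => eval x (map s (D l)) with hE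
  have Ed : Differentiable ℂ E := differentiable_pi.2 fun l => diff_eval _
  have qd : ∀ n, Differentiable ℂ (q n) := fun n => differentiable_pi.2 fun l => diff_eval _
  have q0 : ∀ n, q (n + 1) 0 = fun l => s (φ 0 l) := fun n => funext fun l => by
    rw [sub_eq_zero.1 (hp (n + 1) l).zero]
    simp [hq, constantCoeff_eq]
  have Ec : ContDiff ℝ 1 E := ((Pool.Agent.Cmh.Osg.an_of_diffOn_pi isOpen_univ
    Ed.differentiableOn).contDiff (n := 1)).restrict_scalars ℝ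
  obtain ⟨K, hK⟩ := Ec.contDiffOn.exists_lipschitzOnWith one_ne_zero
    (convex_closedBall (fun l => s (φ 0 l)) 1) (isCompact_closedBall _ _)
  have hlip : ∀ x ∈ closedBall (fun l => s (φ 0 l)) 1, ∀ y ∈ closedBall (fun l => s (φ 0 l)) 1,
      ‖E x - E y‖ ≤ K * ‖x - y‖ := fun x hx y hy => by
    simpa only [dist_eq_norm] using hK.dist_le_mul x hx y hy
  have res : ∀ n, Sm n fun v => E (q n ((2⁻¹ : ℂ) • v)) - q n v := by
    intro n
    refine sm_pi.2 fun l => ?_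
    refine ((Tw.ev (F := fun v l => eval ((2⁻¹ : ℂ) • v) (p n l))
      (fun l => (tw_poly s (p n l)).half) (D l)).sub (tw_poly s (p n l))).sm ?_
    have hc := hφ.continuous
    have a := sm_ev (F := fun v => φ ((2⁻¹ : ℂ) • v))
      (G := fun v l => eval ((2⁻¹ : ℂ) • v) (p n l)) (by fun_prop)
      (continuous_pi fun l => (cont_eval _).comp (by fun_prop)) (fun l => (hp n l).half) (D l)
    refine (IsBigO.sub (hp n l) a).congr_left fun u => ?_
    rw [← hD]
    ring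
  have cmp : ∀ m n, m ≤ n → Sm m fun v => q m v - q n v := by
    intro m n h
    refine sm_pi.2 fun l => ((tw_poly s (p m l)).sub (tw_poly s (p n l))).sm ?_
    refine (IsBigO.sub ((hp n l).mono h) (hp m l)).congr_left fun u => ?_
    ring
  obtain ⟨n0, hn0⟩ := pow_unbounded_of_one_lt (2 * (K : ℝ)) (one_lt_two (α := ℝ))
  have hL : 2 * (K : ℝ) ≤ 2 ^ (n0 + 1) :=
    hn0.le.trans (pow_le_pow_right₀ one_le_two n0.le_succ)
  obtain ⟨F, Fd, Fe, Fq⟩ := poincare_aux Ed (qd (n0 + 1)) K.2 hL n0.succ_ne_zero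
    (by rw [q0]; exact hlip) (res _)
  have main : ∀ n, n0 ≤ n → Sm (n + 1) fun v => F v - q (n + 1) v := by
    intro n hn
    have a : Sm (n0 + 1) fun v => F v - q (n + 1) v := by
      refine (IsBigO.add Fq (cmp _ _ (Nat.succ_le_succ hn))).congr_left fun u => ?_
      abel
    obtain ⟨C0, r0, hC0, hr0, h0⟩ := a.ball
    obtain ⟨C, r1, hC, hr1, h1⟩ := (res (n + 1)).ball
    have F0 : F 0 = fun l => s (φ 0 l) := by rw [sub_eq_zero.1 Fq.zero, q0]
    have b : ∀ᶠ v in 𝓝 (0 : ι → ℂ), F v ∈ closedBall (fun l => s (φ 0 l)) 1 ∧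
        q (n + 1) v ∈ closedBall (fun l => s (φ 0 l)) 1 :=
      (Fd.continuous.continuousAt.eventually_mem (F0 ▸ closedBall_mem_nhds _ one_pos)).and
        ((qd _).continuous.continuousAt.eventually_mem (q0 n ▸ closedBall_mem_nhds _ one_pos))
    obtain ⟨r2, hr2, h2⟩ := Metric.eventually_nhds_iff_ball.1 b
    have hr : 0 < min r0 (min r1 r2) := by positivity
    refine IsBigO.of_bound (2 * C) ?_
    filter_upwards [ball_mem_nhds (0 : ι → ℂ) hr] with v hv
    rw [Real.norm_of_nonneg (by positivity)]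
    refine gron (δ := fun v => ‖F v - q (n + 1) v‖) hL K.2 (Nat.succ_le_succ hn) hC.le hC0.le
      (fun v hv => h0 v (hv.trans_le (min_le_left _ _))) (fun v hv => ?_) v
      (mem_ball_zero_iff.1 hv)
    simp only [lt_min_iff] at hv
    have c := h2 ((2⁻¹ : ℂ) • v) (by
      rw [mem_ball_zero_iff, norm_half]
      linarith [norm_nonneg v, hv.2.2])
    have d := hlip _ c.1 _ c.2
    have e := norm_sub_le_norm_sub_add_norm_sub (F v) (E (q (n + 1) ((2⁻¹ : ℂ) • v)))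
      (q (n + 1) v)
    rw [← Fe] at d
    rw [Nat.succ_eq_add_one]
    linarith [h1 v hv.2.1]
  refine ⟨F, Fd, fun v l => congrFun (Fe v) l, fun l n => ⟨p (n + n0 + 1) l,
    (hp _ l).mono (by omega), (sm_pi.1 (main (n + n0) (by omega)) l).mono (by omega)⟩⟩

end Pool.Agent.Tav.Uni
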