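import Pool.Agent.P.MP_2ce3e7_ag.Tav.GrUniB

/-! Local analysis on the cone over a uniformised variety. -/

set_option autoImplicit false

open MvPolynomial Filter Topology Asymptotics Metric

noncomputable section

namespace Pool.Agent.Tav.Uni

variable {ι σ : Type} [Fintype ι] [Fintype σ]

/-- the differential of a polynomial -/
def dP (P : MvPolynomial σ ℂ) (x : σ → ℂ) : (σ → ℂ) →L[ℂ] ℂ :=
  ∑ l, eval x (pderiv l P) • ContinuousLinearMap.proj l

theorem dP_apply (P : MvPolynomial σ ℂ) (x z : σ → ℂ) :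
    dP P x z = ∑ l, eval x (pderiv l P) * z l := by simp [dP]

theorem hasStrict_eval (P : MvPolynomial σ ℂ) (x : σ → ℂ) :
    HasStrictFDerivAt (fun y : σ → ℂ => eval y P) (dP P x) x := by
  classical
  induction P using MvPolynomial.induction_on with
  | C c =>
    have : dP (C c : MvPolynomial σ ℂ) x = 0 := ContinuousLinearMap.ext fun z => by
      simp [dP_apply]
    rw [this]
    simpa using hasStrictFDerivAt_const c x
  | add p q hp hq =>
    have : dP (p + q) x = dP p x + dP q x := ContinuousLinearMap.ext fun z => by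
      simp [dP_apply, add_mul, Finset.sum_add_distrib]
    rw [this]
    simpa using hp.fun_add hq
  | mul_X p l hp =>
    have h := hp.fun_mul (hasStrictFDerivAt_apply (𝕜 := ℂ) l x)
    have : dP (p * X l) x = eval x p • ContinuousLinearMap.proj l + x l • dP p x := by
      ext1 z
      simp [dP_apply, pderiv_X, Pi.single_apply, apply_ite (eval x), add_mul, Finset.mul_sum,
        Finset.sum_add_distrib, mul_assoc]
    rw [this]
    simpa using h

theorem Sm.fderiv {f : (ι → ℂ) → ℂ} {p : MvPolynomial ι ℂ} (h : Sm 2 fun u => f u - eval u p) :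
    HasFDerivAt f (dP p 0) 0 := by
  have h1 : HasFDerivAt (fun u => f u - eval u p) (0 : (ι → ℂ) →L[ℂ] ℂ) 0 := by
    rw [hasFDerivAt_iff_isLittleO_nhds_zero]
    have h0 := h.zero
    simp only [zero_add, h0, sub_zero, zero_apply]
    exact IsBigO.trans_isLittleO h (isLittleO_norm_pow_id one_lt_two)
  simpa using h1.fun_add (hasStrict_eval p 0).hasFDerivAt

theorem Tw.fderiv {s : ℂ →+* ℂ} {f f' : (ι → ℂ) → ℂ} (h : Tw s f f') (w : ι → ℂ) :
    fderiv ℂ f' 0 (fun i => s (w i)) = s (fderiv ℂ f 0 w) := by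
  obtain ⟨p, h1, h2⟩ := h 2
  rw [h1.fderiv.fderiv, h2.fderiv.fderiv, dP_apply, dP_apply, map_sum]
  refine Finset.sum_congr rfl fun i _ => ?_
  rw [pderiv_map]
  simp [constantCoeff_eq]

omit [Fintype σ] in
theorem fderiv_coord {φ : (ι → ℂ) → σ → ℂ} (h : Differentiable ℂ φ) (v w : ι → ℂ) (l : σ) :
    fderiv ℂ φ v w l = fderiv ℂ (fun u => φ u l) v w := by
  rw [fderiv_apply (h v)]
  rfl

/-- the differential of the parametrisation of the cone -/
def cM (φ : (ι → ℂ) → σ → ℂ) : (ℂ × (ι → ℂ)) →L[ℂ] (σ → ℂ) :=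
  ((ContinuousLinearMap.id ℂ ℂ).smulRight (φ 0)).coprod (fderiv ℂ φ 0)

omit [Fintype ι] [Fintype σ] in
theorem cM_apply (φ : (ι → ℂ) → σ → ℂ) (a : ℂ × (ι → ℂ)) :
    cM φ a = a.1 • φ 0 + fderiv ℂ φ 0 a.2 := by simp [cM]

theorem hasStrict_cone {φ : (ι → ℂ) → σ → ℂ} (h : Differentiable ℂ φ) :
    HasStrictFDerivAt (fun a : ℂ × (ι → ℂ) => a.1 • φ a.2) (cM φ) (1, 0) := by
  have h1 : HasStrictFDerivAt φ (fderiv ℂ φ 0) 0 :=
    (Pool.Agent.Cmh.Osg.an_of_diffOn_pi isOpen_univ h.differentiableOn 0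
      (Set.mem_univ _)).hasStrictFDerivAt
  have h2 := (hasStrictFDerivAt_fst (𝕜 := ℂ) (p := ((1, 0) : ℂ × (ι → ℂ)))).smul
    (HasStrictFDerivAt.comp ((1, 0) : ℂ × (ι → ℂ)) h1 hasStrictFDerivAt_snd)
  refine h2.congr_fderiv (ContinuousLinearMap.ext fun a => ?_)
  simp [cM_apply, add_comm]

omit [Fintype ι] [Fintype σ] in
theorem cM_inj {φ : (ι → ℂ) → σ → ℂ} (ne : φ 0 ≠ 0)
    (imm : ∀ w (c : ℂ), fderiv ℂ φ 0 w = c • φ 0 → w = 0) :
    LinearMap.ker (cM φ).toLinearMap = ⊥ := by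
  refine LinearMap.ker_eq_bot'.2 fun a ha => ?_
  have ha' : a.1 • φ 0 + fderiv ℂ φ 0 a.2 = 0 := (cM_apply φ a).symm.trans ha
  have h2 : a.2 = 0 := imm a.2 (-a.1) (by rw [neg_smul]; exact eq_neg_of_add_eq_zero_right ha')
  rw [h2, map_zero, add_zero, smul_eq_zero] at ha'
  exact Prod.ext (ha'.resolve_right ne) h2

theorem tan_of_finrank {φ : (ι → ℂ) → σ → ℂ} {I : Set (MvPolynomial σ ℂ)}
    (dif : Differentiable ℂ φ) (ne : φ 0 ≠ 0)
    (imm : ∀ w (c : ℂ), fderiv ℂ φ 0 w = c • φ 0 → w = 0)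
    (van : ∀ P ∈ I, ∀ (c : ℂ) v, eval (c • φ v) P = 0)
    (h : Module.finrank ℂ (⨅ f ∈ I, LinearMap.ker (∑ l, eval (φ 0) (pderiv l f) •
      LinearMap.proj (R := ℂ) (φ := fun _ => ℂ) l) :) ≤ Fintype.card ι + 1) (z : σ → ℂ)
    (hz : ∀ P ∈ I, ∑ l, eval (φ 0) (pderiv l P) * z l = 0) :
    ∃ (c : ℂ) (w : ι → ℂ), z = c • φ 0 + fderiv ℂ φ 0 w := by
  set T := (⨅ f ∈ I, LinearMap.ker (∑ l, eval (φ 0) (pderiv l f) •
      LinearMap.proj (R := ℂ) (φ := fun _ => ℂ) l) :) with hT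
  have mem : ∀ z, z ∈ T ↔ ∀ P ∈ I, ∑ l, eval (φ 0) (pderiv l P) * z l = 0 := by
    intro z
    simp [hT, Submodule.mem_iInf]
  have le : LinearMap.range (cM φ).toLinearMap ≤ T := by
    rintro _ ⟨a, rfl⟩
    refine (mem _).2 fun P hP => ?_
    have h1 : HasFDerivAt (fun a : ℂ × (ι → ℂ) => eval (a.1 • φ a.2) P)
        ((dP P ((1 : ℂ) • φ 0)).comp (cM φ)) (1, 0) :=
      HasFDerivAt.comp (g := fun y : σ → ℂ => eval y P) ((1, 0) : ℂ × (ι → ℂ))
        (hasStrict_eval P ((1 : ℂ) • φ 0)).hasFDerivAt (hasStrict_cone dif).hasFDerivAt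
    have h2 : (fun a : ℂ × (ι → ℂ) => eval (a.1 • φ a.2) P) = fun _ => 0 :=
      funext fun a => van P hP a.1 a.2
    rw [h2, one_smul] at h1
    have := DFunLike.congr_fun (h1.unique (hasFDerivAt_const (0 : ℂ) _)) a
    exact (dP_apply P (φ 0) (cM φ a)).symm.trans this
  have e := Submodule.eq_of_le_of_finrank_le le (by
    rw [LinearMap.finrank_range_of_inj (LinearMap.ker_eq_bot.1 (cM_inj ne imm))]
    simpa [add_comm] using h)
  obtain ⟨a, ha⟩ : z ∈ LinearMap.range (cM φ).toLinearMap := e ▸ (mem z).2 hz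
  exact ⟨a.1, a.2, ha.symm.trans (cM_apply φ a)⟩

theorem loc_inj {I : Set (MvPolynomial σ ℂ)} {x : σ → ℂ} {E : Type} [NormedAddCommGroup E]
    [NormedSpace ℂ E] (π : (σ → ℂ) →L[ℂ] E)
    (h : ∀ z, (∀ P ∈ I, dP P x z = 0) → π z = 0 → z = 0) :
    ∀ᶠ p : (σ → ℂ) × (σ → ℂ) in 𝓝 (x, x), (∀ P ∈ I, eval p.1 P = 0) →
      (∀ P ∈ I, eval p.2 P = 0) → π p.1 = π p.2 → p.1 = p.2 := by
  by_contra hc
  obtain ⟨y, hy, hb⟩ := exists_seq_forall_of_frequently (not_eventually.1 hc)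
  simp only [Classical.not_imp] at hb
  have hn : ∀ n, ‖(y n).1 - (y n).2‖ ≠ 0 := fun n => norm_ne_zero_iff.2 (sub_ne_zero.2 (hb n).2.2.2)
  set u : ℕ → σ → ℂ := fun n => ((‖(y n).1 - (y n).2‖ : ℂ)⁻¹) • ((y n).1 - (y n).2) with hu
  have hs : ∀ n, u n ∈ sphere (0 : σ → ℂ) 1 := fun n => by
    simp [hu, norm_smul, hn n]
  obtain ⟨z, hz, k, hk, hl⟩ := (isCompact_sphere (0 : σ → ℂ) 1).tendsto_subseq hs
  have z0 : z = 0 := by
    refine h z (fun P hP => ?_) ?_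
    · have h1 := ((hasStrict_eval P x).isLittleO.comp_tendsto hy).comp_tendsto hk.tendsto_atTop
      have h2 : Tendsto (fun n => dP P x (u (k n))) atTop (𝓝 0) := by
        rw [NormedAddGroup.tendsto_nhds_zero]
        intro ε hε
        filter_upwards [h1.def (half_pos hε)] with n hn'
        simp only [Function.comp, (hb (k n)).1 P hP, (hb (k n)).2.1 P hP, sub_self, zero_sub,
          norm_neg] at hn'
        have hp : 0 < ‖(y (k n)).1 - (y (k n)).2‖ := (norm_nonneg _).lt_of_ne' (hn _)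
        rw [hu]
        simp only [map_smul, norm_smul, norm_inv, Complex.norm_real, norm_norm]
        rw [inv_mul_lt_iff₀ hp]
        nlinarith
      exact tendsto_nhds_unique (((dP P x).continuous.tendsto z).comp hl) h2
    · have h2 : Tendsto (fun n => π (u (k n))) atTop (𝓝 0) := by
        simp [hu, (hb _).2.2.1]
      exact tendsto_nhds_unique ((π.continuous.tendsto z).comp hl) h2
  simp [z0] at hz

theorem loc {φ : (ι → ℂ) → σ → ℂ} {I : Set (MvPolynomial σ ℂ)}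
    (dif : Differentiable ℂ φ) (ne : φ 0 ≠ 0)
    (imm : ∀ w (c : ℂ), fderiv ℂ φ 0 w = c • φ 0 → w = 0)
    (van : ∀ P ∈ I, ∀ (c : ℂ) v, eval (c • φ v) P = 0)
    (tan : ∀ z : σ → ℂ, (∀ P ∈ I, ∑ l, eval (φ 0) (pderiv l P) * z l = 0) →
      ∃ (c : ℂ) (w : ι → ℂ), z = c • φ 0 + fderiv ℂ φ 0 w) :
    (∀ᶠ y in 𝓝 (φ 0), (∀ P ∈ I, eval y P = 0) → ∃ (c : ℂ) (t : ι → ℂ), ‖t‖ < 1 ∧ y = c • φ t) ∧
    ∀ᶠ t in 𝓝 (0 : ι → ℂ), ∀ c : ℂ, φ t = c • φ 0 → t = 0 := by
  obtain ⟨π0, hπ⟩ := (cM φ).toLinearMap.exists_leftInverse_of_injective (cM_inj ne imm)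
  set π := LinearMap.toContinuousLinearMap π0
  have hπ' : ∀ a, π (cM φ a) = a := fun a => LinearMap.congr_fun hπ a
  have hc := hasStrict_cone dif
  have hs : HasStrictFDerivAt (fun a : ℂ × (ι → ℂ) => π (a.1 • φ a.2))
      (ContinuousLinearEquiv.refl ℂ (ℂ × (ι → ℂ)) : _ →L[ℂ] _) (1, 0) :=
    (π.hasStrictFDerivAt.comp _ hc).congr_fderiv (ContinuousLinearMap.ext hπ')
  constructor
  · have hi := loc_inj (I := I) (x := φ 0) π fun z hz h0 => by
      obtain ⟨c, w, e⟩ := tan z fun P hP => (dP_apply ..).symm.trans (hz P hP)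
      have e' : z = cM φ (c, w) := e.trans (cM_apply φ (c, w)).symm
      rw [e', hπ'] at h0
      rw [e', h0, map_zero]
    obtain ⟨U, hU, V, hV, hUV⟩ := mem_nhds_prod_iff.1 hi
    have h1 : ∀ᶠ a : ℂ × (ι → ℂ) in 𝓝 (1, 0), a.1 • φ a.2 ∈ V ∧ ‖a.2‖ < 1 := by
      refine (hc.continuousAt.eventually_mem (by simpa using hV)).and ?_
      exact continuous_snd.norm.continuousAt.eventually_lt continuousAt_const (by simp)
    have h2 := image_mem_map (m := fun a : ℂ × (ι → ℂ) => π (a.1 • φ a.2)) h1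
    rw [hs.map_nhds_eq_of_equiv, one_smul] at h2
    filter_upwards [hU, π.continuous.continuousAt.eventually_mem h2] with y hy hy2 hI
    obtain ⟨a, ⟨a1, a2⟩, e⟩ := hy2
    exact ⟨a.1, a.2, a2, hUV (Set.mk_mem_prod hy a1) hI (fun P hP => van P hP _ _) e.symm⟩
  · obtain ⟨j, hj⟩ := Function.ne_iff.1 ne
    have hj' : φ 0 j ≠ 0 := hj
    have hl := hs.eventually_left_inverse
    have cφ := dif.continuous
    have t1 : Tendsto (fun t : ι → ℂ => ((1, t) : ℂ × (ι → ℂ))) (𝓝 0) (𝓝 (1, 0)) :=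
      Continuous.tendsto' (by fun_prop) _ _ rfl
    have t2 : Tendsto (fun t : ι → ℂ => ((φ t j / φ 0 j, 0) : ℂ × (ι → ℂ))) (𝓝 0) (𝓝 (1, 0)) :=
      Continuous.tendsto' (by fun_prop) _ _ (by simp [hj'])
    filter_upwards [t1.eventually hl, t2.eventually hl] with t a1 a2 c hc
    have : φ t j / φ 0 j = c := by
      rw [hc]
      simp [hj']
    rw [this, ← hc] at a2
    rw [one_smul, a2] at a1
    exact (congrArg Prod.snd a1).symm

end Pool.Agent.Tav.Uni
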