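import Pool.Agent.P.MP_2ce3e7_ag.Tav.GrUniC

/-! The conjugate of a uniformised abelian variety: the group theoretic part. -/

set_option autoImplicit false

open MvPolynomial Filter Topology Asymptotics Metric

noncomputable section

namespace Pool.Agent.Tav.Uni

variable {ι σ : Type} [Fintype ι] [Fintype σ]

/-- a uniformised abelian variety with a (2,2)-law; `I` is a set of equations of the cone -/
structure Src (Λ : Submodule ℤ (ι → ℂ)) (φ : (ι → ℂ) → σ → ℂ) (I : Set (MvPolynomial σ ℂ))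
    (F : σ → σ → MvPolynomial (σ ⊕ σ) ℂ) : Prop where
  dif : Differentiable ℂ φ
  ne : ∀ v, φ v ≠ 0
  ker : ∀ v w, (∃ c : ℂ, φ v = c • φ w) ↔ v - w ∈ Λ
  imm : ∀ v w (c : ℂ), fderiv ℂ φ v w = c • φ v → w = 0
  van : ∀ P ∈ I, ∀ (c : ℂ) v, eval (c • φ v) P = 0
  cl : ∀ z, z ≠ 0 → (∀ P ∈ I, eval z P = 0) → ∃ (c : ℂ) (v : ι → ℂ), z = c • φ v
  law : ∀ v w, ∃ c : ℂ, c ≠ 0 ∧ ∀ i j,
    eval (Sum.elim (φ v) (φ w)) (F i j) = c * (φ (v + w) i * φ (v - w) j)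
  hom : ∀ (a b : ℂ) x y i j, eval (Sum.elim (a • x) (b • y)) (F i j) =
    a ^ 2 * b ^ 2 * eval (Sum.elim x y) (F i j)
  tan : ∀ z : σ → ℂ, (∀ P ∈ I, ∑ l, eval (φ 0) (pderiv l P) * z l = 0) →
    ∃ (c : ℂ) (w : ι → ℂ), z = c • φ 0 + fderiv ℂ φ 0 w

/-- the point `ψ w` is the conjugate of the point `φ v` -/
def Rl (s : ℂ ≃+* ℂ) (φ ψ : (ι → ℂ) → σ → ℂ) (w v : ι → ℂ) : Prop :=
  ∃ c : ℂ, ψ w = c • fun l => s (φ v l)

/-- the output: `ψ` uniformises the conjugate -/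
structure Out (s : ℂ ≃+* ℂ) (Λ : Submodule ℤ (ι → ℂ)) (φ : (ι → ℂ) → σ → ℂ)
    (I : Set (MvPolynomial σ ℂ)) (F : σ → σ → MvPolynomial (σ ⊕ σ) ℂ)
    (Λ' : Submodule ℤ (ι → ℂ)) (ψ : (ι → ℂ) → σ → ℂ) : Prop where
  disc : DiscreteTopology Λ'
  span : Submodule.span ℝ (Λ' : Set (ι → ℂ)) = ⊤
  src : Src Λ' ψ (map (s : ℂ →+* ℂ) '' I) fun i j => map (s : ℂ →+* ℂ) (F i j)
  tot : ∀ w, ∃ v, Rl s φ ψ w v
  onto : ∀ v, ∃ w, Rl s φ ψ w v
  zero : Rl s φ ψ 0 0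
  add : ∀ {w v w' v'}, Rl s φ ψ w v → Rl s φ ψ w' v' → Rl s φ ψ (w + w') (v + v')
  sub : ∀ {w v w' v'}, Rl s φ ψ w v → Rl s φ ψ w' v' → Rl s φ ψ (w - w') (v - v')
  left : ∀ {w v}, Rl s φ ψ w v → ∀ w', Rl s φ ψ w' v ↔ w - w' ∈ Λ'
  right : ∀ {w v}, Rl s φ ψ w v → ∀ v', Rl s φ ψ w v' ↔ v - v' ∈ Λ
  en : ∀ (a : ι → ℂ) (G : σ → MvPolynomial σ ℂ) (d : ℕ),
    (∀ (c : ℂ) x l, eval (c • x) (G l) = c ^ d * eval x (G l)) →
    (∀ t, ∃ c : ℂ, (fun l => eval (φ t) (G l)) = c • φ (a * t)) →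
    (∃ l, eval (φ 0) (G l) ≠ 0) → (∀ l ∈ Λ, a * l ∈ Λ) →
    (∀ l ∈ Λ', (fun i => s (a i)) * l ∈ Λ') ∧
      ∀ w v, Rl s φ ψ w v → Rl s φ ψ ((fun i => s (a i)) * w) (a * v)

theorem ev_conj {τ : Type} (s : ℂ →+* ℂ) (z : τ → ℂ) (P : MvPolynomial τ ℂ) :
    eval (fun l => s (z l)) (map s P) = s (eval z P) := by
  induction P using MvPolynomial.induction_on with
  | C c => simp
  | add p q hp hq => simp [hp, hq]
  | mul_X p l hp => simp [hp]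

omit [Fintype ι] [Fintype σ] in
theorem elim_conj (s : ℂ →+* ℂ) (x y : σ → ℂ) :
    Sum.elim (fun l => s (x l)) (fun l => s (y l)) = fun l => s (Sum.elim x y l) := by
  ext (l | l) <;> rfl

theorem diff_ev {E τ : Type} [NormedAddCommGroup E] [NormedSpace ℂ E] [Fintype τ]
    {G : E → τ → ℂ} (hG : Differentiable ℂ G) (P : MvPolynomial τ ℂ) :
    Differentiable ℂ fun u => eval (G u) P :=
  Differentiable.comp (g := fun x => eval x P) (diff_eval P) hG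

theorem Tw.comb {s : ℂ →+* ℂ} {f f' : (ι → ℂ) → ℂ} (hf : Tw s f f') (a b : ℤ) :
    Tw s (fun u : ι ⊕ ι → ℂ => f (a • u ∘ Sum.inl + b • u ∘ Sum.inr))
      fun u => f' (a • u ∘ Sum.inl + b • u ∘ Sum.inr) := by
  classical
  have h := hf.lin (Matrix.fromCols (a • (1 : Matrix ι ι ℂ)) (b • (1 : Matrix ι ι ℂ)))
  have e : (Matrix.fromCols (a • (1 : Matrix ι ι ℂ)) (b • (1 : Matrix ι ι ℂ))).map s =
      Matrix.fromCols (a • (1 : Matrix ι ι ℂ)) (b • (1 : Matrix ι ι ℂ)) := by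
    ext i (j | j) <;> simp only [Matrix.map_apply, Matrix.fromCols_apply_inl,
      Matrix.fromCols_apply_inr, Matrix.smul_apply, Matrix.one_apply, map_zsmul,
      apply_ite s, map_one, map_zero]
  rw [e] at h
  simpa only [Matrix.fromCols_mulVec, Matrix.smul_mulVec, Matrix.one_mulVec] using h

theorem imm_of_law {ψ : (ι → ℂ) → σ → ℂ} {F : σ → σ → MvPolynomial (σ ⊕ σ) ℂ}
    (dif : Differentiable ℂ ψ) (ne : ∀ v, ψ v ≠ 0)
    (law : ∀ v w, ∃ c : ℂ, c ≠ 0 ∧ ∀ i j,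
      eval (Sum.elim (ψ v) (ψ w)) (F i j) = c * (ψ (v + w) i * ψ (v - w) j))
    (hom : ∀ (a b : ℂ) x y i j, eval (Sum.elim (a • x) (b • y)) (F i j) =
      a ^ 2 * b ^ 2 * eval (Sum.elim x y) (F i j))
    (imm : ∀ w (c : ℂ), fderiv ℂ ψ 0 w = c • ψ 0 → w = 0) (v w : ι → ℂ) (c : ℂ)
    (h : fderiv ℂ ψ v w = c • ψ v) : w = 0 := by
  obtain ⟨i, hi⟩ := Function.ne_iff.1 (ne (v + v))
  obtain ⟨j, hj⟩ := Function.ne_iff.1 (ne 0)
  have hi' : ψ (v + v) i ≠ 0 := hi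
  have hj' : ψ 0 j ≠ 0 := hj
  set G : σ → (σ → ℂ) → ℂ := fun l x => eval (Sum.elim x (ψ v)) (F i l) with hG
  have Gd : ∀ l, Differentiable ℂ (G l) := fun l => (diff_eval (F i l)).comp
    (differentiable_pi.2 fun k => by
      cases k <;> simp only [Sum.elim_inl, Sum.elim_inr] <;> fun_prop)
  have line : ∀ x : ι → ℂ, HasDerivAt (fun t : ℂ => ψ (x + t • w)) (fderiv ℂ ψ x w) 0 := by
    intro x
    have h1 : HasDerivAt (fun t : ℂ => x + t • w) w 0 := by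
      simpa using ((hasDerivAt_id (0 : ℂ)).smul_const w).const_add x
    exact HasFDerivAt.comp_hasDerivAt_of_eq (0 : ℂ) (dif x).hasFDerivAt h1 (by simp)
  have B : ∀ l, HasDerivAt (fun t : ℂ => G l (ψ (v + t • w))) (2 * c * G l (ψ v)) 0 := by
    intro l
    have h1 := HasFDerivAt.comp_hasDerivAt_of_eq (0 : ℂ) (Gd l (ψ v)).hasFDerivAt (line v)
      (by simp)
    have h2 : HasDerivAt (fun t : ℂ => (1 + t * c) • ψ v) (c • ψ v) 0 := by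
      simpa using (((hasDerivAt_id (0 : ℂ)).mul_const c).const_add 1).smul_const (ψ v)
    have h3 := HasFDerivAt.comp_hasDerivAt_of_eq (0 : ℂ) (Gd l (ψ v)).hasFDerivAt h2 (by simp)
    have h4 : HasDerivAt (fun t : ℂ => (1 + t * c) ^ 2 * G l (ψ v)) (2 * c * G l (ψ v)) 0 := by
      simpa using ((((hasDerivAt_id (0 : ℂ)).mul_const c).const_add 1).fun_pow 2).mul_const
        (G l (ψ v))
    have h5 : (G l ∘ fun t : ℂ => (1 + t * c) • ψ v) =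
        fun t : ℂ => (1 + t * c) ^ 2 * G l (ψ v) := by
      funext t
      simpa [hG] using hom (1 + t * c) 1 (ψ v) (ψ v) i l
    rw [h5] at h3
    rw [h, h3.unique h4] at h1
    exact h1
  have Z : ∀ l, HasDerivAt (fun t : ℂ => ψ (0 + t • w) l) (fderiv ℂ ψ 0 w l) 0 := fun l =>
    hasDerivAt_pi.1 (line 0) l
  obtain ⟨β, hβ, hb⟩ := law v v
  refine imm w (fderiv ℂ ψ 0 w j / ψ 0 j) (funext fun l => ?_)
  have e : (fun t : ℂ => G j (ψ (v + t • w)) * ψ (0 + t • w) l) =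
      fun t : ℂ => G l (ψ (v + t • w)) * ψ (0 + t • w) j := by
    funext t
    obtain ⟨γ, -, hγ⟩ := law (v + t • w) v
    simp only [hG, hγ, zero_add, add_sub_cancel_left]
    ring
  have h6 := (B j).fun_mul (Z l)
  rw [e] at h6
  have h7 := h6.unique ((B l).fun_mul (Z j))
  simp only [zero_smul, add_zero, hG, hb, sub_self] at h7
  rw [Pi.smul_apply, smul_eq_mul, div_mul_eq_mul_div, eq_div_iff hj']
  apply mul_left_cancel₀ (mul_ne_zero hβ hi')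
  linear_combination h7

variable {s : ℂ ≃+* ℂ} {Λ : Submodule ℤ (ι → ℂ)} {φ ψ : (ι → ℂ) → σ → ℂ}
  {I : Set (MvPolynomial σ ℂ)} {F : σ → σ → MvPolynomial (σ ⊕ σ) ℂ}

theorem Src.van' (h : Src Λ φ I F) (dψ : Differentiable ℂ ψ)
    (tw : ∀ l, Tw (s : ℂ →+* ℂ) (fun u => φ u l) fun u => ψ u l) {P : MvPolynomial σ ℂ}
    (hP : P ∈ I) (c : ℂ) (v : ι → ℂ) : eval (c • ψ v) (map (s : ℂ →+* ℂ) P) = 0 := by
  obtain ⟨c, rfl⟩ := s.surjective c
  have := (Tw.ev (F := fun u => c • φ u) (F' := fun u => s c • ψ u)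
    (fun l => (tw l).smul c) P).eq (tw_const 0) (diff_ev (dψ.const_smul (s c)) _)
    (differentiable_const _) (fun u => h.van P hP c u) v
  simpa using this

omit [Fintype ι] in
theorem Src.cl' (h : Src Λ φ I F) {z : σ → ℂ} (hz : z ≠ 0)
    (hI : ∀ P ∈ I, eval z (map (s : ℂ →+* ℂ) P) = 0) :
    ∃ (c : ℂ) (v : ι → ℂ), c ≠ 0 ∧ z = c • fun l => s (φ v l) := by
  have e : z = fun l => (s : ℂ →+* ℂ) (s.symm (z l)) := funext fun l => by simp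
  obtain ⟨c, v, hc⟩ := h.cl (fun l => s.symm (z l)) (fun h0 => hz (funext fun l => by
    simpa using congrFun h0 l)) fun P hP => by
      have := hI P hP
      rw [e, ev_conj] at this
      simpa using this
  have e2 : z = s c • fun l => s (φ v l) := funext fun l => by
    have := congrArg s (congrFun hc l)
    simpa using this
  refine ⟨s c, v, fun h0 => hz ?_, e2⟩
  rw [e2, h0, zero_smul]

omit [Fintype ι] in
theorem Src.hom' (h : Src Λ φ I F) (a b : ℂ) (x y : σ → ℂ) (i j : σ) :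
    eval (Sum.elim (a • x) (b • y)) (map (s : ℂ →+* ℂ) (F i j)) =
      a ^ 2 * b ^ 2 * eval (Sum.elim x y) (map (s : ℂ →+* ℂ) (F i j)) := by
  obtain ⟨a, rfl⟩ := s.surjective a
  obtain ⟨b, rfl⟩ := s.surjective b
  obtain ⟨x, rfl⟩ : ∃ x' : σ → ℂ, x = fun l => (s : ℂ →+* ℂ) (x' l) :=
    ⟨fun l => s.symm (x l), funext fun l => by simp⟩
  obtain ⟨y, rfl⟩ : ∃ y' : σ → ℂ, y = fun l => (s : ℂ →+* ℂ) (y' l) :=
    ⟨fun l => s.symm (y l), funext fun l => by simp⟩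
  have e : ∀ (a : ℂ) (x : σ → ℂ), (s a • fun l => (s : ℂ →+* ℂ) (x l)) =
      fun l => (s : ℂ →+* ℂ) ((a • x) l) := fun a x => funext fun l => by simp
  rw [e, e, elim_conj, elim_conj, ev_conj, ev_conj, h.hom]
  simp

omit [Fintype ι] in
theorem Src.conj (h : Src Λ φ I F) {a b : ℂ} (ha : a ≠ 0) (hb : b ≠ 0) (v w : ι → ℂ) :
    ∃ c : ℂ, c ≠ 0 ∧ ∀ i j, eval (Sum.elim (a • fun l => s (φ v l)) (b • fun l => s (φ w l)))
      (map (s : ℂ →+* ℂ) (F i j)) = c * (s (φ (v + w) i) * s (φ (v - w) j)) := by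
  obtain ⟨c, hc, e⟩ := h.law v w
  refine ⟨a ^ 2 * b ^ 2 * s c, by simp [ha, hb, hc], fun i j => ?_⟩
  have := elim_conj (s : ℂ →+* ℂ) (φ v) (φ w)
  simp only [RingEquiv.coe_toRingHom] at this
  rw [h.hom', this]
  have := ev_conj (s : ℂ →+* ℂ) (Sum.elim (φ v) (φ w)) (F i j)
  simp only [RingEquiv.coe_toRingHom] at this
  rw [this, e]
  simp [mul_assoc]

theorem Src.tot' (h : Src Λ φ I F) (dψ : Differentiable ℂ ψ)
    (tw : ∀ l, Tw (s : ℂ →+* ℂ) (fun u => φ u l) fun u => ψ u l) {w : ι → ℂ} (hw : ψ w ≠ 0) :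
    ∃ (c : ℂ) (v : ι → ℂ), c ≠ 0 ∧ ψ w = c • fun l => s (φ v l) :=
  h.cl' hw fun P hP => by simpa using h.van' dψ tw hP 1 w

theorem Src.law' (h : Src Λ φ I F) (dψ : Differentiable ℂ ψ) (nψ : ∀ v, ψ v ≠ 0)
    (tw : ∀ l, Tw (s : ℂ →+* ℂ) (fun u => φ u l) fun u => ψ u l) (v w : ι → ℂ) :
    ∃ c : ℂ, c ≠ 0 ∧ ∀ i j, eval (Sum.elim (ψ v) (ψ w)) (map (s : ℂ →+* ℂ) (F i j)) =
      c * (ψ (v + w) i * ψ (v - w) j) := by
  have dc : ∀ a b : ℤ, Differentiable ℂ fun u : ι ⊕ ι → ℂ =>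
      ψ (a • u ∘ Sum.inl + b • u ∘ Sum.inr) := fun a b =>
    dψ.comp (differentiable_pi.2 fun i => by
      simp only [Pi.add_apply, zsmul_eq_mul]
      fun_prop)
  have T : ∀ i j k l, Tw (s : ℂ →+* ℂ) _ _ := fun i j k l =>
    (Tw.ev (F := fun u => Sum.elim (φ ((1 : ℤ) • u ∘ Sum.inl + (0 : ℤ) • u ∘ Sum.inr))
        (φ ((0 : ℤ) • u ∘ Sum.inl + (1 : ℤ) • u ∘ Sum.inr)))
      (F' := fun u => Sum.elim (ψ ((1 : ℤ) • u ∘ Sum.inl + (0 : ℤ) • u ∘ Sum.inr))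
        (ψ ((0 : ℤ) • u ∘ Sum.inl + (1 : ℤ) • u ∘ Sum.inr)))
      (fun m => by
        cases m with
        | inl m => exact (tw m).comb 1 0
        | inr m => exact (tw m).comb 0 1) (F i j)).mul
      (((tw k).comb 1 1).mul ((tw l).comb 1 (-1)))
  have D : ∀ i j k l, Differentiable ℂ fun u : ι ⊕ ι → ℂ =>
      eval (Sum.elim (ψ ((1 : ℤ) • u ∘ Sum.inl + (0 : ℤ) • u ∘ Sum.inr))
        (ψ ((0 : ℤ) • u ∘ Sum.inl + (1 : ℤ) • u ∘ Sum.inr))) (map (s : ℂ →+* ℂ) (F i j)) *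
      (ψ ((1 : ℤ) • u ∘ Sum.inl + (1 : ℤ) • u ∘ Sum.inr) k *
        ψ ((1 : ℤ) • u ∘ Sum.inl + (-1 : ℤ) • u ∘ Sum.inr) l) := fun i j k l => by
    refine Differentiable.fun_mul (diff_ev (differentiable_pi.2 fun m => ?_) _)
      ((differentiable_pi.1 (dc 1 1) k).fun_mul (differentiable_pi.1 (dc 1 (-1)) l))
    cases m with
    | inl m => exact differentiable_pi.1 (dc 1 0) m
    | inr m => exact differentiable_pi.1 (dc 0 1) m
  have M : ∀ i j k l, eval (Sum.elim (ψ v) (ψ w)) (map (s : ℂ →+* ℂ) (F i j)) *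
      (ψ (v + w) k * ψ (v - w) l) = eval (Sum.elim (ψ v) (ψ w)) (map (s : ℂ →+* ℂ) (F k l)) *
      (ψ (v + w) i * ψ (v - w) j) := by
    intro i j k l
    have := (T i j k l).eq (T k l i j) (D i j k l) (D k l i j) (fun u => by
      obtain ⟨c, -, e⟩ := h.law (u ∘ Sum.inl) (u ∘ Sum.inr)
      simp only [one_smul, zero_smul, add_zero, zero_add, neg_smul, ← sub_eq_add_neg, e]
      ring) (Sum.elim v w)
    simpa only [one_smul, zero_smul, add_zero, zero_add, neg_smul, ← sub_eq_add_neg,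
      Sum.elim_comp_inl, Sum.elim_comp_inr] using this
  obtain ⟨k, hk⟩ := Function.ne_iff.1 (nψ (v + w))
  obtain ⟨l, hl⟩ := Function.ne_iff.1 (nψ (v - w))
  have hkl : ψ (v + w) k * ψ (v - w) l ≠ 0 := mul_ne_zero hk hl
  have E : ∀ i j, eval (Sum.elim (ψ v) (ψ w)) (map (s : ℂ →+* ℂ) (F i j)) =
      eval (Sum.elim (ψ v) (ψ w)) (map (s : ℂ →+* ℂ) (F k l)) / (ψ (v + w) k * ψ (v - w) l) *
        (ψ (v + w) i * ψ (v - w) j) := fun i j => by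
    rw [div_mul_eq_mul_div, eq_div_iff hkl, M]
  refine ⟨_, fun h0 => ?_, E⟩
  obtain ⟨a, v1, ha, e1⟩ := h.tot' dψ tw (nψ v)
  obtain ⟨b, w1, hb, e2⟩ := h.tot' dψ tw (nψ w)
  obtain ⟨c, hc, e⟩ := h.conj (s := s) ha hb v1 w1
  obtain ⟨i, hi⟩ := Function.ne_iff.1 (h.ne (v1 + w1))
  obtain ⟨j, hj⟩ := Function.ne_iff.1 (h.ne (v1 - w1))
  have := E i j
  rw [h0, zero_mul, e1, e2, e] at this
  simp only [mul_eq_zero, hc, map_eq_zero, false_or] at this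
  exact this.elim hi hj

end Pool.Agent.Tav.Uni
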