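import Pool.Agent.P.MP_2ce3e7_ag.Tav.GrUniD

/-! The conjugate of a uniformised abelian variety: lattice, surjectivity, endomorphisms. -/

set_option autoImplicit false

open MvPolynomial Filter Topology Asymptotics Metric

noncomputable section

namespace Pool.Agent.Tav.Uni

variable {ι σ : Type} [Fintype ι] [Fintype σ]

/-- `ψ` is an entire nowhere vanishing map whose jets are the conjugates of the jets of `φ` -/
structure Cx (s : ℂ ≃+* ℂ) (Λ : Submodule ℤ (ι → ℂ)) (φ : (ι → ℂ) → σ → ℂ)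
    (I : Set (MvPolynomial σ ℂ)) (F : σ → σ → MvPolynomial (σ ⊕ σ) ℂ)
    (ψ : (ι → ℂ) → σ → ℂ) : Prop where
  src : Src Λ φ I F
  dif : Differentiable ℂ ψ
  ne : ∀ v, ψ v ≠ 0
  tw : ∀ l, Tw (s : ℂ →+* ℂ) (fun u => φ u l) fun u => ψ u l

variable {s : ℂ ≃+* ℂ} {Λ : Submodule ℤ (ι → ℂ)} {φ ψ : (ι → ℂ) → σ → ℂ}
  {I : Set (MvPolynomial σ ℂ)} {F : σ → σ → MvPolynomial (σ ⊕ σ) ℂ}

omit [Fintype ι] [Fintype σ] in
theorem ev_smul_conj (s : ℂ ≃+* ℂ) (b : ℂ) (x : σ → ℂ) (P : MvPolynomial σ ℂ) :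
    eval (b • fun l => s (x l)) (map (s : ℂ →+* ℂ) P) = s (eval (s.symm b • x) P) := by
  have e : (b • fun l => s (x l)) = fun l => (s : ℂ →+* ℂ) ((s.symm b • x) l) :=
    funext fun l => by simp
  rw [e, ev_conj]
  rfl

namespace Cx

variable (h : Cx s Λ φ I F ψ)
include h

theorem unit {w v : ι → ℂ} (r : Rl s φ ψ w v) :
    ∃ c : ℂ, c ≠ 0 ∧ ψ w = c • fun l => s (φ v l) := by
  obtain ⟨c, hc⟩ := r
  exact ⟨c, fun e => h.ne w (by rw [hc, e, zero_smul]), hc⟩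

theorem tot (w : ι → ℂ) : ∃ v, Rl s φ ψ w v := by
  obtain ⟨c, v, -, e⟩ := h.src.tot' h.dif h.tw (h.ne w)
  exact ⟨v, c, e⟩

theorem at0 : ψ 0 = fun l => s (φ 0 l) := funext fun l => (h.tw l).zero

theorem zero : Rl s φ ψ 0 0 := ⟨1, by rw [one_smul, h.at0]⟩

theorem both {w v w' v' : ι → ℂ} (r : Rl s φ ψ w v) (r' : Rl s φ ψ w' v') :
    Rl s φ ψ (w + w') (v + v') ∧ Rl s φ ψ (w - w') (v - v') := by
  obtain ⟨a, ha, e1⟩ := h.unit r
  obtain ⟨b, hb, e2⟩ := h.unit r'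
  obtain ⟨c, hc, e3⟩ := h.src.law' h.dif h.ne h.tw w w'
  obtain ⟨c', -, e4⟩ := h.src.conj (s := s) ha hb v v'
  rw [← e1, ← e2] at e4
  obtain ⟨i, hi⟩ := Function.ne_iff.1 (h.ne (w + w'))
  obtain ⟨j, hj⟩ := Function.ne_iff.1 (h.ne (w - w'))
  have hi' : ψ (w + w') i ≠ 0 := hi
  have hj' : ψ (w - w') j ≠ 0 := hj
  refine ⟨⟨c' * s (φ (v - v') j) / (c * ψ (w - w') j), funext fun k => ?_⟩,
    ⟨c' * s (φ (v + v') i) / (c * ψ (w + w') i), funext fun k => ?_⟩⟩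
  · rw [Pi.smul_apply, smul_eq_mul, div_mul_eq_mul_div, eq_div_iff (mul_ne_zero hc hj')]
    linear_combination e4 k j - e3 k j
  · rw [Pi.smul_apply, smul_eq_mul, div_mul_eq_mul_div, eq_div_iff (mul_ne_zero hc hi')]
    linear_combination e4 i k - e3 i k

theorem nsmul {w v : ι → ℂ} (r : Rl s φ ψ w v) (n : ℕ) : Rl s φ ψ (n • w) (n • v) := by
  induction n with
  | zero => simpa using h.zero
  | succ n ih =>
    rw [succ_nsmul, succ_nsmul]
    exact (h.both ih r).1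

theorem right {w v : ι → ℂ} (r : Rl s φ ψ w v) (v' : ι → ℂ) : Rl s φ ψ w v' ↔ v - v' ∈ Λ := by
  obtain ⟨a, ha, e⟩ := h.unit r
  rw [← h.src.ker]
  refine ⟨fun ⟨b, e'⟩ => ⟨s.symm (b / a), funext fun l => s.injective ?_⟩,
    fun ⟨c, e'⟩ => ⟨a * s c, funext fun l => ?_⟩⟩
  · have := congrFun (e.symm.trans e') l
    simp only [Pi.smul_apply, smul_eq_mul] at this
    rw [Pi.smul_apply, smul_eq_mul, map_mul, s.apply_symm_apply, div_mul_eq_mul_div,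
      eq_div_iff ha]
    linear_combination this
  · rw [e, e']
    simp [mul_assoc]

/-- the lattice of the conjugate -/
def lat : Submodule ℤ (ι → ℂ) :=
  AddSubgroup.toIntSubmodule
    { carrier := {w | Rl s φ ψ w 0}
      zero_mem' := h.zero
      add_mem' := fun a b => by simpa using (h.both a b).1
      neg_mem' := fun a => by simpa using (h.both h.zero a).2 }

theorem mem_lat {w : ι → ℂ} : w ∈ h.lat ↔ Rl s φ ψ w 0 := Iff.rfl

theorem left {w v : ι → ℂ} (r : Rl s φ ψ w v) (w' : ι → ℂ) :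
    Rl s φ ψ w' v ↔ w - w' ∈ h.lat := by
  rw [h.mem_lat]
  exact ⟨fun r' => by simpa using (h.both r r').2, fun r' => by simpa using (h.both r r').2⟩

theorem ker (v w : ι → ℂ) : (∃ c : ℂ, ψ v = c • ψ w) ↔ v - w ∈ h.lat := by
  refine ⟨fun ⟨c, hc⟩ => ?_, fun e => ?_⟩
  · obtain ⟨u, a, ha⟩ := h.tot w
    exact (h.left ⟨c * a, by rw [hc, ha, smul_smul]⟩ w).1 ⟨a, ha⟩
  · obtain ⟨u, a, ha⟩ := h.tot v
    obtain ⟨b, hb, e2⟩ := h.unit ((h.left ⟨a, ha⟩ w).2 e)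
    exact ⟨a / b, by rw [ha, e2, smul_smul, div_mul_cancel₀ _ hb]⟩

theorem der (w : ι → ℂ) (l : σ) :
    fderiv ℂ ψ 0 (fun i => s (w i)) l = s (fderiv ℂ φ 0 w l) := by
  rw [fderiv_coord h.dif, fderiv_coord h.src.dif]
  exact (h.tw l).fderiv w

theorem imm0 (w : ι → ℂ) (c : ℂ) (e : fderiv ℂ ψ 0 w = c • ψ 0) : w = 0 := by
  obtain ⟨w, rfl⟩ : ∃ w' : ι → ℂ, w = fun i => s (w' i) :=
    ⟨fun i => s.symm (w i), funext fun i => by simp⟩
  have : w = 0 := h.src.imm 0 w (s.symm c) (funext fun l => s.injective (by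
    rw [← h.der, e, h.at0]
    simp))
  subst this
  ext i
  simp

theorem van : ∀ P ∈ MvPolynomial.map (s : ℂ →+* ℂ) '' I, ∀ (c : ℂ) v,
    eval (c • ψ v) P = 0 := by
  rintro _ ⟨P, hP, rfl⟩
  exact h.src.van' h.dif h.tw hP

theorem tan (z : σ → ℂ)
    (hz : ∀ P ∈ MvPolynomial.map (s : ℂ →+* ℂ) '' I,
      ∑ l, eval (ψ 0) (pderiv l P) * z l = 0) :
    ∃ (c : ℂ) (w : ι → ℂ), z = c • ψ 0 + fderiv ℂ ψ 0 w := by
  obtain ⟨c, w, e⟩ := h.src.tan (fun l => s.symm (z l)) fun P hP => s.injective (by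
    rw [map_zero, ← hz _ ⟨P, hP, rfl⟩, map_sum]
    refine Finset.sum_congr rfl fun l _ => ?_
    rw [map_mul, s.apply_symm_apply, pderiv_map, h.at0]
    exact congrArg (· * z l) (ev_conj (s : ℂ →+* ℂ) (φ 0) _).symm)
  refine ⟨s c, fun i => s (w i), funext fun l => ?_⟩
  have := congrArg s (congrFun e l)
  rw [Pi.add_apply, h.der, h.at0]
  simpa using this

theorem disc : DiscreteTopology h.lat := by
  have h1 := (loc h.dif (h.ne 0) h.imm0 h.van h.tan).2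
  refine discreteTopology_of_isOpen_singleton_zero (isOpen_iff_mem_nhds.2 ?_)
  rintro _ rfl
  have h2 : Tendsto (fun x : h.lat => (x : ι → ℂ)) (𝓝 0) (𝓝 0) :=
    continuous_subtype_val.tendsto (0 : h.lat)
  filter_upwards [h2.eventually h1] with x hx
  obtain ⟨c, hc⟩ := h.mem_lat.1 x.2
  exact Subtype.ext (hx c (by rw [hc, h.at0]))

theorem near {x : σ → ℂ} (hx : x ≠ 0) (hI : ∀ P ∈ I, eval x (map (s : ℂ →+* ℂ) P) = 0) :
    ∃ v0, ∀ᶠ y in 𝓝 x, ∀ (b : ℂ) v, b ≠ 0 → y = (b • fun l => s (φ v l)) →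
      ∃ t, ‖t‖ < 1 ∧ Rl s φ ψ t (v - v0) := by
  obtain ⟨a, v0, ha, rfl⟩ := h.src.cl' hx hI
  obtain ⟨i, hi⟩ := Function.ne_iff.1 (h.src.ne (v0 + v0))
  obtain ⟨c0, hc0, e0⟩ := h.src.conj (s := s) ha ha v0 v0
  set x := a • fun l => s (φ v0 l) with hx0
  have hκ : c0 * s (φ (v0 + v0) i) ≠ 0 := mul_ne_zero hc0 (by simpa using hi)
  set T : (σ → ℂ) → σ → ℂ := fun y j => (c0 * s (φ (v0 + v0) i))⁻¹ *
    eval (Sum.elim y x) (map (s : ℂ →+* ℂ) (F i j)) with hT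
  have Tc : Continuous T := continuous_pi fun j => continuous_const.mul
    (Continuous.comp (g := fun u => eval u _) (cont_eval _) (continuous_pi fun k => by
      cases k <;> simp only [Sum.elim_inl, Sum.elim_inr] <;> fun_prop))
  have T0 : T x = ψ 0 := funext fun j => by
    simp only [hT, e0, sub_self, h.at0]
    rw [← mul_assoc c0, inv_mul_cancel_left₀ hκ]
  have ht : Tendsto T (𝓝 x) (𝓝 (ψ 0)) := T0 ▸ Tc.tendsto x
  refine ⟨v0, ?_⟩
  filter_upwards [ht.eventually (loc h.dif (h.ne 0) h.imm0 h.van h.tan).1,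
    ht.eventually_ne (h.ne 0)] with y h1 h2 b v hb hy
  obtain ⟨c, -, e⟩ := h.src.conj (s := s) hb ha v v0
  rw [← hx0] at e
  have e2 : T y = ((c0 * s (φ (v0 + v0) i))⁻¹ * c * s (φ (v + v0) i)) •
      fun l => s (φ (v - v0) l) := funext fun j => by
    simp only [hT, hy, e, Pi.smul_apply, smul_eq_mul]
    ring
  obtain ⟨c', t, ht, e3⟩ := h1 (by
    rintro _ ⟨P, hP, rfl⟩
    rw [e2, ev_smul_conj, h.src.van P hP, map_zero])
  have hc' : c' ≠ 0 := fun e => h2 (by rw [e3, e, zero_smul])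
  exact ⟨t, ht, c'⁻¹ * _, by rw [mul_smul, ← e2, e3, inv_smul_smul₀ hc']⟩

theorem fin : ∃ S : Set (ι → ℂ), S.Finite ∧
    ∀ v, ∃ v0 ∈ S, ∃ t, ‖t‖ < 1 ∧ Rl s φ ψ t (v - v0) := by
  classical
  set K := sphere (0 : σ → ℂ) 1 ∩ ⋂ P ∈ I, {y | eval y (map (s : ℂ →+* ℂ) P) = 0} with hK
  have Kc : IsCompact K := (isCompact_sphere _ _).inter_right
    (isClosed_biInter fun P _ => isClosed_eq (cont_eval _) continuous_const)
  have N : ∀ x ∈ K, ∃ v0, ∀ᶠ y in 𝓝 x, ∀ (b : ℂ) v, b ≠ 0 → y = (b • fun l => s (φ v l)) →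
      ∃ t, ‖t‖ < 1 ∧ Rl s φ ψ t (v - v0) := fun x hx =>
    h.near (ne_zero_of_mem_sphere one_ne_zero ⟨x, hx.1⟩) fun P hP => Set.mem_iInter₂.1 hx.2 P hP
  choose f hf using N
  obtain ⟨T, hT⟩ := Kc.elim_nhds_subcover' _ hf
  refine ⟨(fun x : K => f x x.2) '' T, T.finite_toSet.image _, fun v => ?_⟩
  have n0 : (fun l => s (φ v l)) ≠ 0 := fun e => h.src.ne v (funext fun l => by
    simpa using congrFun e l)
  have n1 : ‖fun l => s (φ v l)‖ ≠ 0 := norm_ne_zero_iff.2 n0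
  have m : (((‖fun l => s (φ v l)‖ : ℂ))⁻¹ • fun l => s (φ v l)) ∈ K := by
    refine ⟨?_, Set.mem_iInter₂.2 fun P hP => ?_⟩
    · simp [norm_smul, n1]
    · change eval _ _ = 0
      rw [ev_smul_conj, h.src.van P hP, map_zero]
  obtain ⟨x, hx, hm⟩ := Set.mem_iUnion₂.1 (hT m)
  exact ⟨_, ⟨x, hx, rfl⟩, hm _ v (inv_ne_zero (by exact_mod_cast n1)) rfl⟩

theorem onto (v : ι → ℂ) : ∃ w, Rl s φ ψ w v := by
  obtain ⟨S, hS, e⟩ := h.fin
  let H : AddSubgroup (ι → ℂ) :=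
    { carrier := {v | ∃ w, Rl s φ ψ w v}
      zero_mem' := ⟨0, h.zero⟩
      add_mem' := fun ⟨_, a⟩ ⟨_, b⟩ => ⟨_, (h.both a b).1⟩
      neg_mem' := fun ⟨_, a⟩ => ⟨_, by simpa using (h.both h.zero a).2⟩ }
  have := hS.to_subtype
  have : Finite ((ι → ℂ) ⧸ H) := Finite.of_surjective
    (fun x : S => (QuotientAddGroup.mk (x : ι → ℂ) : (ι → ℂ) ⧸ H)) fun q => by
      obtain ⟨u, rfl⟩ := QuotientAddGroup.mk_surjective q
      obtain ⟨v0, h0, t, -, r⟩ := e u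
      exact ⟨⟨v0, h0⟩, QuotientAddGroup.eq.2 ⟨t, by rwa [neg_add_eq_sub]⟩⟩
  have n0 : (H.index : ℂ) ≠ 0 := Nat.cast_ne_zero.2 H.index_ne_zero_of_finite
  have := H.nsmul_index_mem ((H.index : ℂ)⁻¹ • v)
  rwa [← Nat.cast_smul_eq_nsmul ℂ, smul_inv_smul₀ n0] at this

theorem span : Submodule.span ℝ (h.lat : Set (ι → ℂ)) = ⊤ := by
  obtain ⟨S, hS, e⟩ := h.fin
  choose f hf using h.onto
  obtain ⟨R, hR⟩ := (hS.image f).isBounded.exists_norm_le
  have B : ∀ w, ∃ l ∈ h.lat, ‖w - l‖ ≤ R + 1 := fun w => by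
    obtain ⟨v, r⟩ := h.tot w
    obtain ⟨v0, h0, t, ht, r'⟩ := e v
    have r2 := (h.both (hf v0) r').1
    rw [add_sub_cancel] at r2
    refine ⟨_, (h.left r _).1 r2, ?_⟩
    rw [sub_sub_cancel]
    exact (norm_add_le _ _).trans (add_le_add (hR _ ⟨v0, h0, rfl⟩) ht.le)
  refine eq_top_iff.2 fun w _ => ?_
  have cl := (Submodule.span ℝ (h.lat : Set (ι → ℂ))).closed_of_finiteDimensional
  rw [← SetLike.mem_coe, ← cl.closure_eq, Metric.mem_closure_iff]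
  intro ε hε
  obtain ⟨n, hn⟩ := exists_nat_gt (max ((R + 1) / ε) 0)
  have n0 : (0 : ℝ) < n := (le_max_right _ _).trans_lt hn
  obtain ⟨l, hl, hb⟩ := B ((n : ℝ) • w)
  refine ⟨(n : ℝ)⁻¹ • l, Submodule.smul_mem _ _ (Submodule.subset_span hl), ?_⟩
  have e2 : w - (n : ℝ)⁻¹ • l = (n : ℝ)⁻¹ • ((n : ℝ) • w - l) := by
    rw [smul_sub, inv_smul_smul₀ n0.ne']
  rw [dist_eq_norm, e2, norm_smul, norm_inv, Real.norm_of_nonneg n0.le, inv_mul_lt_iff₀ n0]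
  exact hb.trans_lt ((div_lt_iff₀ hε).1 ((le_max_left _ _).trans_lt hn))

theorem en (a : ι → ℂ) (G : σ → MvPolynomial σ ℂ) (d : ℕ)
    (hom : ∀ (c : ℂ) x l, eval (c • x) (G l) = c ^ d * eval x (G l))
    (mor : ∀ t, ∃ c : ℂ, (fun l => eval (φ t) (G l)) = c • φ (a * t))
    (n0 : ∃ l, eval (φ 0) (G l) ≠ 0) (hΛ : ∀ l ∈ Λ, a * l ∈ Λ) (w v : ι → ℂ)
    (r : Rl s φ ψ w v) : Rl s φ ψ ((fun i => s (a i)) * w) (a * v) := by
  obtain ⟨l, hl⟩ := n0
  have D : ∀ i j, Differentiable ℂ fun t => eval (ψ t) (map (s : ℂ →+* ℂ) (G i)) *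
      ψ ((fun i => s (a i)) * t) j := fun i j => (diff_ev h.dif _).fun_mul
    (differentiable_pi.1 (h.dif.comp (differentiable_id.const_mul fun i => s (a i))) j)
  have M : ∀ i j t, eval (ψ t) (map (s : ℂ →+* ℂ) (G i)) * ψ ((fun i => s (a i)) * t) j =
      eval (ψ t) (map (s : ℂ →+* ℂ) (G j)) * ψ ((fun i => s (a i)) * t) i := fun i j =>
    ((Tw.ev h.tw (G i)).mul ((h.tw j).diag a)).eq ((Tw.ev h.tw (G j)).mul ((h.tw i).diag a))
      (D i j) (D j i) fun u => by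
        obtain ⟨c, hc⟩ := mor u
        rw [congrFun hc i, congrFun hc j]
        simp only [Pi.smul_apply, smul_eq_mul]
        ring
  have E : ∀ᶠ t in 𝓝 (0 : ι → ℂ), eval (ψ t) (map (s : ℂ →+* ℂ) (G l)) ≠ 0 := by
    refine (diff_ev h.dif _).continuous.continuousAt.eventually_ne ?_
    rw [(Tw.ev h.tw (G l)).zero]
    simpa using hl
  have t0 : Tendsto (fun n : ℕ => ((n : ℂ))⁻¹ • w) atTop (𝓝 0) := by
    simpa using (tendsto_inv_atTop_nhds_zero_nat (𝕜 := ℂ)).smul_const w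
  obtain ⟨n, hn, n0⟩ := ((t0.eventually E).and (eventually_ne_atTop 0)).exists
  set t := ((n : ℂ))⁻¹ • w with ht
  have e : w = n • t := by
    rw [ht, ← Nat.cast_smul_eq_nsmul ℂ, smul_inv_smul₀ (Nat.cast_ne_zero.2 n0)]
  obtain ⟨u, b, hb⟩ := h.tot t
  obtain ⟨c, hc⟩ := mor u
  have r1 : Rl s φ ψ ((fun i => s (a i)) * t) (a * u) := by
    refine ⟨b ^ d * s c * ψ ((fun i => s (a i)) * t) l / eval (ψ t) (map (s : ℂ →+* ℂ) (G l)),
      funext fun j => ?_⟩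
    rw [Pi.smul_apply, smul_eq_mul, div_mul_eq_mul_div, eq_div_iff hn, mul_comm, M l j, hb,
      ev_smul_conj, hom, congrFun hc j]
    simp only [map_mul, map_pow, s.apply_symm_apply, Pi.smul_apply, smul_eq_mul]
    ring
  have r2 := h.nsmul r1 n
  have r3 := (h.right (h.nsmul ⟨b, hb⟩ n) v).1 (e ▸ r)
  rw [← mul_smul_comm, ← e] at r2
  refine (h.right r2 _).2 ?_
  rw [← mul_smul_comm, ← mul_sub]
  exact hΛ _ r3

theorem out : Out s Λ φ I F h.lat ψ where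
  disc := h.disc
  span := h.span
  src :=
    { dif := h.dif
      ne := h.ne
      ker := h.ker
      imm := imm_of_law h.dif h.ne (h.src.law' h.dif h.ne h.tw) h.src.hom' h.imm0
      van := h.van
      cl := fun z hz hI => by
        obtain ⟨c, v, -, e⟩ := h.src.cl' hz fun P hP => hI _ ⟨P, hP, rfl⟩
        obtain ⟨w, r⟩ := h.onto v
        obtain ⟨a, ha, e2⟩ := h.unit r
        exact ⟨c / a, w, by rw [e, e2, smul_smul, div_mul_cancel₀ _ ha]⟩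
      law := h.src.law' h.dif h.ne h.tw
      hom := h.src.hom'
      tan := h.tan }
  tot := h.tot
  onto := h.onto
  zero := h.zero
  add := fun r r' => (h.both r r').1
  sub := fun r r' => (h.both r r').2
  left := h.left
  right := h.right
  en := fun a G d hom mor n0 hΛ =>
    ⟨fun l hl => h.mem_lat.2 (by simpa using h.en a G d hom mor n0 hΛ l 0 hl),
      h.en a G d hom mor n0 hΛ⟩

end Cx

end Pool.Agent.Tav.Uni
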