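import Pool.Agent.P.MP_2ce3e7_ag.Tav.RK

/-! The ideal of the graph of maps given by charts of forms. -/

set_option autoImplicit false

noncomputable section

namespace Pool.Agent.Tav.Gr

open MvPolynomial

section Basic

variable {R σ τ ι κ Ch : Type} [CommRing R]

/-- the weight of a variable is the unit vector of its block -/
def bw [DecidableEq ι] (w : σ → ι) : σ → (ι → ℕ) := fun s => Pi.single (w s) 1

/-- substitution of forms for the second group of variables -/
def ev (g : τ → MvPolynomial σ R) : MvPolynomial (σ ⊕ τ) R →ₐ[R] MvPolynomial σ R :=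
  aeval (Sum.elim X g)

/-- polynomials in the first group of variables -/
abbrev up : MvPolynomial σ R →ₐ[R] MvPolynomial (σ ⊕ τ) R := rename Sum.inl

/-- the polynomials that fall into `J` under every chart -/
def pre (G : Ch → τ → MvPolynomial σ R) (J : Ideal (MvPolynomial σ R)) :
    Ideal (MvPolynomial (σ ⊕ τ) R) := ⨅ c, J.comap (ev (G c))

/-- the minors of the charts against the new variables, block by block -/
def minors (v : τ → κ) (G : Ch → τ → MvPolynomial σ R) : Ideal (MvPolynomial (σ ⊕ τ) R) :=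
  Ideal.span {u | ∃ c i j, v i = v j ∧
    u = X (Sum.inr j) * up (G c i) - X (Sum.inr i) * up (G c j)}

/-- the ideal generated by the forms in `K` -/
def core {M : Type} [AddCommMonoid M] (W : σ → M) (K : Ideal (MvPolynomial σ R)) :
    Ideal (MvPolynomial σ R) :=
  Ideal.span {u | u ∈ K ∧ ∃ D, IsWeightedHomogeneous W u D}

/-- the ideal of the graph over the scheme cut out by `J` -/
def gr [DecidableEq ι] [DecidableEq κ] (w : σ → ι) (v : τ → κ) (G : Ch → τ → MvPolynomial σ R)
    (J : Ideal (MvPolynomial σ R)) : Ideal (MvPolynomial (σ ⊕ τ) R) :=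
  core (bw (Sum.map w v)) (pre G J)

theorem ev_inl (g : τ → MvPolynomial σ R) (s : σ) : ev g (X (Sum.inl s)) = X s := aeval_X _ _

theorem ev_inr (g : τ → MvPolynomial σ R) (j : τ) : ev g (X (Sum.inr j)) = g j := aeval_X _ _

theorem ev_up (g : τ → MvPolynomial σ R) (f : MvPolynomial σ R) : ev g (up f) = f := by
  induction f using MvPolynomial.induction_on with
  | C a => rw [rename_C, ← algebraMap_eq, AlgHom.commutes, algebraMap_eq]
  | add p q hp hq => rw [map_add, map_add, hp, hq]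
  | mul_X p s hp => rw [map_mul, map_mul, hp, rename_X, ev_inl]

theorem mem_pre {G : Ch → τ → MvPolynomial σ R} {J : Ideal (MvPolynomial σ R)}
    {u : MvPolynomial (σ ⊕ τ) R} : u ∈ pre G J ↔ ∀ c, ev (G c) u ∈ J := by
  simp only [pre, Ideal.mem_iInf, Ideal.mem_comap]

theorem pre_mono (G : Ch → τ → MvPolynomial σ R) {J J' : Ideal (MvPolynomial σ R)} (h : J ≤ J') :
    pre G J ≤ pre G J' := fun _ hu => mem_pre.2 fun c => h (mem_pre.1 hu c)

theorem pre_top (G : Ch → τ → MvPolynomial σ R) : pre G ⊤ = ⊤ :=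
  eq_top_iff.2 fun _ _ => mem_pre.2 fun _ => Submodule.mem_top

theorem pre_inf (G : Ch → τ → MvPolynomial σ R) (J J' : Ideal (MvPolynomial σ R)) :
    pre G (J ⊓ J') = pre G J ⊓ pre G J' := by
  ext u
  simp only [Ideal.mem_inf, mem_pre, forall_and]

theorem map_up_le_pre (G : Ch → τ → MvPolynomial σ R) (J : Ideal (MvPolynomial σ R)) :
    J.map (up (τ := τ)) ≤ pre G J :=
  Ideal.map_le_iff_le_comap.2 fun f hf => Ideal.mem_comap.2 (mem_pre.2 fun c => by
    rwa [ev_up])

theorem mul_up_mem_pre {G : Ch → τ → MvPolynomial σ R} {J : Ideal (MvPolynomial σ R)}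
    {u : MvPolynomial (σ ⊕ τ) R} {f : MvPolynomial σ R} :
    u * up f ∈ pre G J ↔ u ∈ pre G (J.colon {f}) := by
  simp only [mem_pre, map_mul, ev_up, Submodule.mem_colon_singleton, smul_eq_mul]

/-- compatible charts: the minors fall into every ideal that contains the cross terms -/
theorem minors_le_pre {v : τ → κ} {G : Ch → τ → MvPolynomial σ R}
    {J : Ideal (MvPolynomial σ R)}
    (h : ∀ c c' i j, v i = v j → G c' j * G c i - G c' i * G c j ∈ J) :
    minors v G ≤ pre G J := by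
  refine Ideal.span_le.2 ?_
  rintro _ ⟨c, i, j, hij, rfl⟩
  refine mem_pre.2 fun c' => ?_
  rw [map_sub, map_mul, map_mul, ev_inr, ev_inr, ev_up, ev_up]
  exact h c c' i j hij

section Core

variable {M : Type} [AddCommMonoid M] {W : σ → M}

theorem core_le (K : Ideal (MvPolynomial σ R)) : core W K ≤ K :=
  Ideal.span_le.2 fun _ hu => hu.1

theorem mem_core {K : Ideal (MvPolynomial σ R)} {u : MvPolynomial σ R} {D : M}
    (hu : IsWeightedHomogeneous W u D) : u ∈ core W K ↔ u ∈ K :=
  ⟨fun h => core_le K h, fun h => Ideal.subset_span ⟨h, D, hu⟩⟩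

theorem core_mono {K K' : Ideal (MvPolynomial σ R)} (h : K ≤ K') : core W K ≤ core W K' :=
  Ideal.span_mono fun _ hu => ⟨h hu.1, hu.2⟩

/-- a component of a multiple of a form lies in every ideal that holds the relevant terms -/
theorem cmp_mul_mem [DecidableEq M] {K : Ideal (MvPolynomial σ R)} {t : MvPolynomial σ R}
    {E : M} (ht : IsWeightedHomogeneous W t E) (a : MvPolynomial σ R) (D : M)
    (h : ∀ m c, Finsupp.weight W m + E = D → monomial m c * t ∈ K) :
    weightedHomogeneousComponent W D (a * t) ∈ K := by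
  rw [a.as_sum, Finset.sum_mul, map_sum]
  refine K.sum_mem fun m _ => ?_
  have hm : IsWeightedHomogeneous W (monomial m (coeff m a) * t) (Finsupp.weight W m + E) :=
    (isWeightedHomogeneous_monomial W m _ rfl).mul ht
  by_cases e : Finsupp.weight W m + E = D
  · rw [← e, hm.weightedHomogeneousComponent_same]
    exact h m _ e
  · rw [hm.weightedHomogeneousComponent_ne D (Ne.symm e)]
    exact K.zero_mem

/-- an ideal generated by forms holds the components of its elements -/
theorem cmp_mem_span {s : Set (MvPolynomial σ R)}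
    (hs : ∀ u ∈ s, ∃ D, IsWeightedHomogeneous W u D) {u : MvPolynomial σ R}
    (hu : u ∈ Ideal.span s) (D : M) : weightedHomogeneousComponent W D u ∈ Ideal.span s := by
  classical
  obtain ⟨n, a, t, rfl⟩ := Submodule.mem_span_set'.1 hu
  rw [map_sum]
  refine Ideal.sum_mem _ fun k _ => ?_
  obtain ⟨E, hE⟩ := hs _ (t k).2
  exact cmp_mul_mem hE _ D fun m c _ => Ideal.mul_mem_left _ _ (Ideal.subset_span (t k).2)

theorem cmp_mem_core {K : Ideal (MvPolynomial σ R)} {u : MvPolynomial σ R} (hu : u ∈ core W K)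
    (D : M) : weightedHomogeneousComponent W D u ∈ core W K :=
  cmp_mem_span (fun _ h => h.2) hu D

theorem sum_cmp (W : σ → M) (u : MvPolynomial σ R) : ∃ T : Finset M,
    ∑ D ∈ T, weightedHomogeneousComponent W D u = u := by
  refine ⟨(weightedHomogeneousComponent_finsupp (w := W) u).toFinset, ?_⟩
  rw [← finsum_eq_sum _ (weightedHomogeneousComponent_finsupp (w := W) u)]
  exact sum_weightedHomogeneousComponent W u

theorem le_core {K K' : Ideal (MvPolynomial σ R)} (h : K' ≤ K)
    (hK : ∀ u ∈ K', ∀ D, weightedHomogeneousComponent W D u ∈ K') : K' ≤ core W K := by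
  intro u hu
  obtain ⟨T, hT⟩ := sum_cmp W u
  rw [← hT]
  exact Ideal.sum_mem _ fun D _ =>
    (mem_core (weightedHomogeneousComponent_isWeightedHomogeneous D u)).2 (h (hK u hu D))

theorem core_top : core W (⊤ : Ideal (MvPolynomial σ R)) = ⊤ :=
  eq_top_iff.2 (le_core le_rfl fun _ _ _ => Submodule.mem_top)

end Core

variable [DecidableEq ι] [DecidableEq κ]

theorem weight_bw (w : σ → ι) (m : σ →₀ ℕ) (i : ι) :
    Finsupp.weight (bw w) m i = Finsupp.mapDomain w m i := by
  induction m using Finsupp.induction_linear with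
  | zero => simp
  | add a b ha hb => rw [map_add, Finsupp.mapDomain_add, Pi.add_apply, Finsupp.add_apply, ha, hb]
  | single s k =>
    rw [Finsupp.weight_single, Finsupp.mapDomain_single, Pi.smul_apply, bw, Finsupp.single_apply,
      Pi.single_apply, smul_eq_mul]
    by_cases h : w s = i
    · rw [if_pos h, if_pos h.symm, mul_one]
    · rw [if_neg h, if_neg (Ne.symm h), mul_zero]

theorem bw_inl (w : σ → ι) (v : τ → κ) (s : σ) :
    bw (Sum.map w v) (Sum.inl s) = Sum.elim (bw w s) 0 := by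
  funext z
  rcases z with i | b
  · simp [bw, Pi.single_apply]
  · simp [bw]

theorem bw_inr (w : σ → ι) (v : τ → κ) (j : τ) :
    bw (Sum.map w v) (Sum.inr j) = Sum.elim (0 : ι → ℕ) (bw v j) := by
  funext z
  rcases z with i | b
  · simp [bw]
  · simp [bw, Pi.single_apply]

theorem weight_inl (w : σ → ι) (v : τ → κ) (m : σ →₀ ℕ) :
    Finsupp.weight (bw (Sum.map w v)) (m.mapDomain Sum.inl) =
      Sum.elim (Finsupp.weight (bw w) m) 0 := by
  induction m using Finsupp.induction_linear with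
  | zero =>
    funext z
    rcases z with i | b <;> simp
  | add a b ha hb =>
    rw [Finsupp.mapDomain_add, map_add, map_add, ha, hb]
    funext z
    rcases z with i | b <;> simp
  | single s k =>
    rw [Finsupp.mapDomain_single, Finsupp.weight_single, Finsupp.weight_single, bw_inl]
    funext z
    rcases z with i | b <;> simp

theorem hom_up (w : σ → ι) (v : τ → κ) {f : MvPolynomial σ R} {d : ι → ℕ}
    (hf : IsWeightedHomogeneous (bw w) f d) :
    IsWeightedHomogeneous (bw (Sum.map w v)) (up f : MvPolynomial (σ ⊕ τ) R) (Sum.elim d 0) := by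
  intro m hm
  obtain ⟨m', rfl, h'⟩ := coeff_rename_ne_zero _ _ _ hm
  rw [weight_inl, hf h']

/-- the basic identity: `g ^ n * u = t ^ n * ev u` modulo the minors, on monomials -/
theorem key_monomial [Fintype κ] (w : σ → ι) (v : τ → κ) (G : Ch → τ → MvPolynomial σ R) (c : Ch)
    (i : κ → τ) (hi : ∀ b, v (i b) = b) (m : σ ⊕ τ →₀ ℕ) :
    Ideal.Quotient.mk (minors v G) ((∏ b, up (G c (i b)) ^
        Finsupp.weight (bw (Sum.map w v)) m (Sum.inr b)) * monomial m 1) =
      Ideal.Quotient.mk (minors v G) ((∏ b, X (Sum.inr (i b)) ^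
        Finsupp.weight (bw (Sum.map w v)) m (Sum.inr b)) * up (ev (G c) (monomial m 1))) := by
  induction m using Finsupp.induction_linear with
  | zero => simp
  | add a b ha hb =>
    have e : (monomial (a + b) 1 : MvPolynomial (σ ⊕ τ) R) = monomial a 1 * monomial b 1 := by
      rw [monomial_mul, one_mul]
    simp only [map_add, Pi.add_apply, pow_add, Finset.prod_mul_distrib, e, map_mul] at ha hb ⊢
    rw [mul_mul_mul_comm, ha, hb, mul_mul_mul_comm]
  | single z k =>
    rw [Finsupp.weight_single, ← X_pow_eq_monomial]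
    rcases z with s | j
    · simp [bw_inl, ev_inl]
    · have e1 : ∀ y : κ → MvPolynomial (σ ⊕ τ) R,
          ∏ b, y b ^ (k • bw (Sum.map w v) (Sum.inr j)) (Sum.inr b) = y (v j) ^ k := by
        intro y
        rw [Finset.prod_eq_single (v j)]
        · simp [bw]
        · intro b _ hb
          simp [bw, hb]
        · intro h
          exact absurd (Finset.mem_univ _) h
      rw [e1 fun b => up (G c (i b)), e1 fun b => X (Sum.inr (i b)), map_pow (ev (G c)), ev_inr,
        map_pow up, ← mul_pow, ← mul_pow, map_pow, map_pow]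
      congr 1
      rw [Ideal.Quotient.eq, mul_comm]
      exact Ideal.subset_span ⟨c, i (v j), j, hi _, rfl⟩

/-- the basic identity on forms -/
theorem key [Fintype κ] {w : σ → ι} {v : τ → κ} (G : Ch → τ → MvPolynomial σ R) (c : Ch)
    (i : κ → τ) (hi : ∀ b, v (i b) = b) {u : MvPolynomial (σ ⊕ τ) R} {D : ι ⊕ κ → ℕ}
    (hu : IsWeightedHomogeneous (bw (Sum.map w v)) u D) :
    (∏ b, up (G c (i b)) ^ D (Sum.inr b)) * u -
      (∏ b, X (Sum.inr (i b)) ^ D (Sum.inr b)) * up (ev (G c) u) ∈ minors v G := by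
  rw [u.as_sum, map_sum, map_sum, Finset.mul_sum, Finset.mul_sum, ← Finset.sum_sub_distrib]
  refine Ideal.sum_mem _ fun m hm => ?_
  have h1 := Ideal.Quotient.eq.1 (key_monomial w v G c i hi m)
  rw [hu (mem_support_iff.1 hm)] at h1
  have e : (monomial m (coeff m u) : MvPolynomial (σ ⊕ τ) R) = coeff m u • monomial m 1 := by
    rw [smul_monomial, smul_eq_mul, mul_one]
  rw [e, map_smul, map_smul, mul_smul_comm, mul_smul_comm, ← smul_sub]
  exact Submodule.smul_of_tower_mem _ _ h1

theorem mul_mem_of_ev [Fintype κ] {w : σ → ι} {v : τ → κ} {G : Ch → τ → MvPolynomial σ R}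
    {J : Ideal (MvPolynomial σ R)} (c : Ch) (i : κ → τ) (hi : ∀ b, v (i b) = b)
    {u : MvPolynomial (σ ⊕ τ) R} {D : ι ⊕ κ → ℕ}
    (hu : IsWeightedHomogeneous (bw (Sum.map w v)) u D) (h : ev (G c) u ∈ J) :
    up (∏ b, G c (i b) ^ D (Sum.inr b)) * u ∈ J.map (up (τ := τ)) ⊔ minors v G := by
  have h1 := key G c i hi hu
  rw [map_prod]
  simp only [map_pow]
  rw [← sub_add_cancel ((∏ b, up (G c (i b)) ^ D (Sum.inr b)) * u)
    ((∏ b, X (Sum.inr (i b)) ^ D (Sum.inr b)) * up (ev (G c) u))]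
  exact Ideal.add_mem _ (Ideal.mem_sup_right h1)
    (Ideal.mem_sup_left (Ideal.mul_mem_left _ _ (Ideal.mem_map_of_mem _ h)))

variable {w : σ → ι} {v : τ → κ} {G : Ch → τ → MvPolynomial σ R}

theorem mem_gr {J : Ideal (MvPolynomial σ R)} {u : MvPolynomial (σ ⊕ τ) R} {D : ι ⊕ κ → ℕ}
    (hu : IsWeightedHomogeneous (bw (Sum.map w v)) u D) :
    u ∈ gr w v G J ↔ ∀ c, ev (G c) u ∈ J := (mem_core hu).trans mem_pre

theorem gr_le_pre (J : Ideal (MvPolynomial σ R)) : gr w v G J ≤ pre G J := core_le _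

theorem gr_mono {J J' : Ideal (MvPolynomial σ R)} (h : J ≤ J') : gr w v G J ≤ gr w v G J' :=
  core_mono (pre_mono G h)

theorem gr_top : gr w v G ⊤ = ⊤ := by rw [gr, pre_top, core_top]

theorem cmp_mem_gr {J : Ideal (MvPolynomial σ R)} {u : MvPolynomial (σ ⊕ τ) R}
    (hu : u ∈ gr w v G J) (D : ι ⊕ κ → ℕ) :
    weightedHomogeneousComponent (bw (Sum.map w v)) D u ∈ gr w v G J := cmp_mem_core hu D

theorem map_up_le_gr {J : Ideal (MvPolynomial σ R)}
    (hJ : ∀ f ∈ J, ∀ d, weightedHomogeneousComponent (bw w) d f ∈ J) :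
    J.map (up (τ := τ)) ≤ gr w v G J := by
  refine Ideal.map_le_iff_le_comap.2 fun f hf => Ideal.mem_comap.2 ?_
  obtain ⟨T, hT⟩ := sum_cmp (bw w) f
  rw [← hT, map_sum]
  refine Ideal.sum_mem _ fun d _ => ?_
  refine (mem_gr (hom_up w v (weightedHomogeneousComponent_isWeightedHomogeneous d f))).2
    fun c => ?_
  rw [ev_up]
  exact hJ f hf d

theorem hom_minor {e : Ch → κ → ι → ℕ}
    (hG : ∀ c j, IsWeightedHomogeneous (bw w) (G c j) (e c (v j))) (c : Ch) {i j : τ}
    (hij : v i = v j) : IsWeightedHomogeneous (bw (Sum.map w v))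
      (X (Sum.inr j) * up (G c i) - X (Sum.inr i) * up (G c j) : MvPolynomial (σ ⊕ τ) R)
      (bw (Sum.map w v) (Sum.inr j) + Sum.elim (e c (v j)) 0) := by
  have h1 := (isWeightedHomogeneous_X R (bw (Sum.map w v)) (Sum.inr j)).mul
    (hom_up w v (hG c i))
  have h2 := (isWeightedHomogeneous_X R (bw (Sum.map w v)) (Sum.inr i)).mul
    (hom_up w v (hG c j))
  have e1 : bw (Sum.map w v) (Sum.inr i) = bw (Sum.map w v) (Sum.inr j) := by
    simp only [bw, Sum.map_inr, hij]
  rw [hij] at h1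
  rw [e1] at h2
  exact (weightedHomogeneousSubmodule R _ _).sub_mem h1 h2

theorem minors_le_gr {J : Ideal (MvPolynomial σ R)} {e : Ch → κ → ι → ℕ}
    (hG : ∀ c j, IsWeightedHomogeneous (bw w) (G c j) (e c (v j)))
    (h : ∀ c c' i j, v i = v j → G c' j * G c i - G c' i * G c j ∈ J) :
    minors v G ≤ gr w v G J := by
  refine Ideal.span_le.2 ?_
  rintro _ ⟨c, i, j, hij, rfl⟩
  exact (mem_core (hom_minor hG c hij)).2
    (minors_le_pre h (Ideal.subset_span ⟨c, i, j, hij, rfl⟩))

theorem cmp_mem_minors {e : Ch → κ → ι → ℕ}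
    (hG : ∀ c j, IsWeightedHomogeneous (bw w) (G c j) (e c (v j)))
    {u : MvPolynomial (σ ⊕ τ) R} (hu : u ∈ minors v G) (D : ι ⊕ κ → ℕ) :
    weightedHomogeneousComponent (bw (Sum.map w v)) D u ∈ minors v G := by
  refine cmp_mem_span ?_ hu D
  rintro _ ⟨c, i, j, hij, rfl⟩
  exact ⟨_, hom_minor hG c hij⟩

/-- the colon rule on forms -/
theorem mul_up_mem_gr {J : Ideal (MvPolynomial σ R)} {f : MvPolynomial σ R} {d : ι → ℕ}
    (hf : IsWeightedHomogeneous (bw w) f d) {u : MvPolynomial (σ ⊕ τ) R} {D : ι ⊕ κ → ℕ}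
    (hu : IsWeightedHomogeneous (bw (Sum.map w v)) u D) :
    u * up f ∈ gr w v G J ↔ u ∈ gr w v G (J.colon {f}) :=
  ((mem_core (hu.mul (hom_up w v hf))).trans mul_up_mem_pre).trans (mem_core hu).symm

/-- the colon rule -/
theorem gr_colon {J : Ideal (MvPolynomial σ R)} {f : MvPolynomial σ R} {d : ι → ℕ}
    (hf : IsWeightedHomogeneous (bw w) f d) :
    (gr w v G J).colon {up f} = gr w v G (J.colon {f}) := by
  refine le_antisymm (le_core (fun u hu => ?_) fun u hu D => ?_) (Ideal.span_le.2 ?_)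
  · rw [Submodule.mem_colon_singleton, smul_eq_mul] at hu
    exact mul_up_mem_pre.1 (gr_le_pre J hu)
  · rw [Submodule.mem_colon_singleton, smul_eq_mul] at hu ⊢
    have h1 := cmp_mem_gr hu (D + Sum.elim d 0)
    obtain ⟨T, hT⟩ := sum_cmp (bw (Sum.map w v)) u
    by_cases hD : D ∈ T
    · rw [← hT, Finset.sum_mul, map_sum, Finset.sum_eq_single D] at h1
      · rwa [((weightedHomogeneousComponent_isWeightedHomogeneous D u).mul
          (hom_up w v hf)).weightedHomogeneousComponent_same] at h1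
      · intro E _ hE
        exact ((weightedHomogeneousComponent_isWeightedHomogeneous E u).mul
          (hom_up w v hf)).weightedHomogeneousComponent_ne _ fun e => hE (add_right_cancel e).symm
      · intro h
        exact absurd hD h
    · have : weightedHomogeneousComponent (bw (Sum.map w v)) D u = 0 := by
        rw [← hT, map_sum]
        refine Finset.sum_eq_zero fun E hE => ?_
        exact (weightedHomogeneousComponent_isWeightedHomogeneous
          E u).weightedHomogeneousComponent_ne _ fun e => hD (e ▸ hE)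
      rw [this, zero_mul]
      exact Ideal.zero_mem _
  · rintro u ⟨hu, D, hD⟩
    rw [SetLike.mem_coe, Submodule.mem_colon_singleton, smul_eq_mul]
    exact (mul_up_mem_gr hf hD).2 ((mem_core hD).2 hu)

end Basic

section Sat

variable {Ω σ τ ι κ Ch : Type} [Field Ω] [DecidableEq ι] [DecidableEq κ]

/-- at every zero of `J` with no vanishing block some chart is non-zero in every block -/
def Bpf (w : σ → ι) (v : τ → κ) (G : Ch → τ → MvPolynomial σ Ω)
    (J : Ideal (MvPolynomial σ Ω)) : Prop :=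
  ∀ x : σ → Ω, (∀ f ∈ J, eval x f = 0) → (∀ i, ∃ s, w s = i ∧ x s ≠ 0) →
    ∃ c, ∀ b, ∃ j, v j = b ∧ eval x (G c j) ≠ 0

omit [DecidableEq ι] [DecidableEq κ] in
theorem Bpf.mono {w : σ → ι} {v : τ → κ} {G : Ch → τ → MvPolynomial σ Ω}
    {I J : Ideal (MvPolynomial σ Ω)} (h : Bpf w v G I) (hJ : I ≤ J) : Bpf w v G J :=
  fun x hx => h x fun f hf => hx f (hJ hf)

theorem monomial_split {R : Type} [CommRing R] (m : σ ⊕ τ →₀ ℕ) (c : R) :
    ∃ y : MvPolynomial (σ ⊕ τ) R, monomial m c =
      y * up (monomial (m.comapDomain Sum.inl Sum.inl_injective.injOn) 1) := by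
  refine ⟨monomial ((m.comapDomain Sum.inr Sum.inr_injective.injOn).mapDomain Sum.inr) c, ?_⟩
  rw [rename_monomial, monomial_mul, mul_one, add_comm, ← Finsupp.sumElim_eq_add,
    Finsupp.comapDomain_sumElim_comapDomain]

theorem weight_split (w : σ → ι) (v : τ → κ) (m : σ ⊕ τ →₀ ℕ) (i : ι) :
    Finsupp.weight (bw (Sum.map w v)) m (Sum.inl i) =
      Finsupp.mapDomain w (m.comapDomain Sum.inl Sum.inl_injective.injOn) i := by
  rw [← weight_bw]
  induction m using Finsupp.induction_linear with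
  | zero => simp
  | add a b ha hb =>
    rw [Finsupp.comapDomain_add_of_injective Sum.inl_injective, map_add, map_add, Pi.add_apply,
      Pi.add_apply, ha, hb]
  | single z k =>
    rcases z with s | j
    · rw [Finsupp.comapDomain_single, Finsupp.weight_single, Finsupp.weight_single, bw_inl]
      simp
    · rw [Finsupp.comapDomain_single_of_not_mem_range (by simp) _ Sum.inl_injective.injOn,
        Finsupp.weight_single, bw_inr]
      simp

variable [IsAlgClosed Ω] [Finite σ] [Finite τ] [Finite ι] [Finite κ]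
variable {w : σ → ι} {v : τ → κ} {G : Ch → τ → MvPolynomial σ Ω}

/-- saturation: in large degree the graph ideal is generated by `J` and the minors -/
theorem sat {J : Ideal (MvPolynomial σ Ω)} (hb : Bpf w v G J) :
    ∃ N : ℕ, ∀ D : ι ⊕ κ → ℕ, (∀ i, N ≤ D (Sum.inl i)) → ∀ u : MvPolynomial (σ ⊕ τ) Ω,
      IsWeightedHomogeneous (bw (Sum.map w v)) u D → (∀ c, ev (G c) u ∈ J) →
        u ∈ J.map (up (τ := τ)) ⊔ minors v G := by
  classical
  have := Fintype.ofFinite κ
  obtain ⟨T, hT, hsp⟩ := (Submodule.fg_span_iff_fg_span_finset_subset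
    (R := MvPolynomial (σ ⊕ τ) Ω)
    {u | u ∈ pre G J ∧ ∃ D, IsWeightedHomogeneous (bw (Sum.map w v)) u D}).1
    (IsNoetherian.noetherian _)
  choose E hE using fun t : T => (hT t.2).2
  let Q : Ideal (MvPolynomial σ Ω) :=
    ⨅ t : T, ((J.map (up (τ := τ)) ⊔ minors v G).colon {t.1}).comap (up (τ := τ))
  have hQ : ∀ a, a ∈ Q ↔ ∀ t : T, up a * t.1 ∈ J.map (up (τ := τ)) ⊔ minors v G := by
    intro a
    simp only [Q, Ideal.mem_iInf, Ideal.mem_comap, Submodule.mem_colon_singleton, smul_eq_mul]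
  obtain ⟨N0, hN0⟩ := irr_monomial w (J ⊔ Q) fun x hx => by
    by_contra hc
    obtain ⟨c, hc'⟩ := hb x (fun f hf => hx f (Ideal.mem_sup_left hf)) fun i => by
      by_contra h
      exact hc ⟨i, fun s hs => by
        by_contra h0
        exact h ⟨s, hs, h0⟩⟩
    choose i hi hne using hc'
    have h1 : ∏ t : T, ∏ b, G c (i b) ^ E t (Sum.inr b) ∈ Q := (hQ _).2 fun t => by
      rw [← Finset.mul_prod_erase _ _ (Finset.mem_univ t), mul_comm (∏ b, _), map_mul, mul_assoc]
      exact Ideal.mul_mem_left _ _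
        (mul_mem_of_ev c i hi (hE t) (mem_pre.1 (hT t.2).1 c))
    have h2 := hx _ (Ideal.mem_sup_right h1)
    simp only [map_prod, map_pow] at h2
    exact Finset.prod_ne_zero_iff.2 (fun t _ => Finset.prod_ne_zero_iff.2 fun b _ =>
      pow_ne_zero _ (hne b)) h2
  have hJQ : J ⊔ Q ≤ Q := sup_le (fun a ha => (hQ a).2 fun t =>
    Ideal.mem_sup_left (Ideal.mul_mem_right _ _ (Ideal.mem_map_of_mem _ ha))) le_rfl
  obtain ⟨N1, hN1⟩ := (Set.finite_range fun p : T × ι => E p.1 (Sum.inl p.2)).bddAbove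
  refine ⟨N0 + N1, fun D hD u hu h => ?_⟩
  have hu' : u ∈ Submodule.span (MvPolynomial (σ ⊕ τ) Ω) (T : Set (MvPolynomial (σ ⊕ τ) Ω)) :=
    hsp ▸ Submodule.subset_span ⟨mem_pre.2 h, D, hu⟩
  obtain ⟨a, ha⟩ := (Submodule.mem_span_finset'.1 hu')
  rw [← hu.weightedHomogeneousComponent_same, ← ha, map_sum]
  refine Ideal.sum_mem _ fun t _ => cmp_mul_mem (hE t) _ D fun m c hm => ?_
  obtain ⟨y, hy⟩ := monomial_split m c
  rw [hy, mul_assoc]
  refine Ideal.mul_mem_left _ _ ((hQ _).1 (hJQ (hN0 _ (fun i => ?_) 1)) t)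
  have h1 := congrFun hm (Sum.inl i)
  have h2 : E t (Sum.inl i) ≤ N1 := hN1 ⟨(t, i), rfl⟩
  have h3 := hD i
  rw [Pi.add_apply, weight_split] at h1
  omega

/-- the sum rule in large degree -/
theorem gr_sup {J J' : Ideal (MvPolynomial σ Ω)} {e : Ch → κ → ι → ℕ} (hb : Bpf w v G J)
    (hJ : ∀ f ∈ J, ∀ d, weightedHomogeneousComponent (bw w) d f ∈ J)
    (hG : ∀ c j, IsWeightedHomogeneous (bw w) (G c j) (e c (v j)))
    (h : ∀ c c' i j, v i = v j → G c' j * G c i - G c' i * G c j ∈ J) :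
    ∃ N : ℕ, ∀ D : ι ⊕ κ → ℕ, (∀ i, N ≤ D (Sum.inl i)) → ∀ u : MvPolynomial (σ ⊕ τ) Ω,
      IsWeightedHomogeneous (bw (Sum.map w v)) u D →
        (u ∈ gr w v G (J ⊔ J') ↔ u ∈ gr w v G J ⊔ J'.map (up (τ := τ))) := by
  obtain ⟨N, hN⟩ := sat (hb.mono (le_sup_left : J ≤ J ⊔ J'))
  refine ⟨N, fun D hD u hu => ⟨fun h1 => ?_, fun h1 => (mem_core hu).2 ?_⟩⟩
  · have h2 := hN D hD u hu ((mem_gr hu).1 h1)
    rw [Ideal.map_sup] at h2
    exact (sup_le (sup_le (le_sup_of_le_left (map_up_le_gr hJ)) le_sup_right)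
      (le_sup_of_le_left (minors_le_gr hG h))) h2
  · exact (sup_le ((gr_le_pre J).trans (pre_mono G le_sup_left))
      ((map_up_le_pre G J').trans (pre_mono G le_sup_right))) h1

/-- the sum rule for one form -/
theorem gr_sup_span {J : Ideal (MvPolynomial σ Ω)} {e : Ch → κ → ι → ℕ} (hb : Bpf w v G J)
    (hJ : ∀ f ∈ J, ∀ d, weightedHomogeneousComponent (bw w) d f ∈ J)
    (hG : ∀ c j, IsWeightedHomogeneous (bw w) (G c j) (e c (v j)))
    (h : ∀ c c' i j, v i = v j → G c' j * G c i - G c' i * G c j ∈ J) (f : MvPolynomial σ Ω) :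
    ∃ N : ℕ, ∀ D : ι ⊕ κ → ℕ, (∀ i, N ≤ D (Sum.inl i)) → ∀ u : MvPolynomial (σ ⊕ τ) Ω,
      IsWeightedHomogeneous (bw (Sum.map w v)) u D →
        (u ∈ gr w v G (J ⊔ Ideal.span {f}) ↔ u ∈ gr w v G J ⊔ Ideal.span {up f}) := by
  have := gr_sup (J' := Ideal.span {f}) hb hJ hG h
  rwa [Ideal.map_span, Set.image_singleton] at this

/-- the graph ideal and the ideal of minors agree in large degree -/
theorem gr_eq_minors {J : Ideal (MvPolynomial σ Ω)} (hb : Bpf w v G J)
    (h : ∀ c c' i j, v i = v j → G c' j * G c i - G c' i * G c j ∈ J) :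
    ∃ N : ℕ, ∀ D : ι ⊕ κ → ℕ, (∀ i, N ≤ D (Sum.inl i)) → ∀ u : MvPolynomial (σ ⊕ τ) Ω,
      IsWeightedHomogeneous (bw (Sum.map w v)) u D →
        (u ∈ gr w v G J ↔ u ∈ J.map (up (τ := τ)) ⊔ minors v G) := by
  obtain ⟨N, hN⟩ := sat hb
  exact ⟨N, fun D hD u hu => ⟨fun h1 => hN D hD u hu ((mem_gr hu).1 h1), fun h1 =>
    (mem_core hu).2 ((sup_le (map_up_le_pre G J) (minors_le_pre h)) h1)⟩⟩

end Sat

section Sp

variable {O L Ω σ τ ι κ Ch : Type} [CommRing O] [CommRing L]

theorem map_ev (a : O →+* L) (g : τ → MvPolynomial σ O) (u : MvPolynomial (σ ⊕ τ) O) :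
    map a (ev g u) = ev (fun j => map a (g j)) (map a u) := by
  induction u using MvPolynomial.induction_on with
  | C r => simp [ev]
  | add p q hp hq => simp only [map_add, hp, hq]
  | mul_X p z hp =>
    rw [map_mul, map_mul, map_mul, map_mul, hp, map_X]
    rcases z with s | j
    · rw [ev_inl, ev_inl, map_X]
    · rw [ev_inr, ev_inr]

theorem map_minors (a : O →+* L) (v : τ → κ) (G : Ch → τ → MvPolynomial σ O) :
    (minors v G).map (map a) = minors v fun c j => map a (G c j) := by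
  rw [minors, Ideal.map_span, minors]
  congr 1
  ext u
  constructor
  · rintro ⟨_, ⟨c, i, j, hij, rfl⟩, rfl⟩
    exact ⟨c, i, j, hij, by simp only [map_sub, map_mul, map_X, map_rename]⟩
  · rintro ⟨c, i, j, hij, rfl⟩
    exact ⟨_, ⟨c, i, j, hij, rfl⟩, by simp only [map_sub, map_mul, map_X, map_rename]⟩

/-- reduction of an ideal: contract to the coefficient ring `O`, then extend -/
def sp [CommRing Ω] (a : O →+* L) (b : O →+* Ω) (J : Ideal (MvPolynomial σ L)) :
    Ideal (MvPolynomial σ Ω) := (J.comap (map a)).map (map b)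

theorem sp_eq_span [CommRing Ω] (a : O →+* L) (b : O →+* Ω) (J : Ideal (MvPolynomial σ L)) :
    sp a b J = Ideal.span {G | ∃ F ∈ J, ∃ H, map a H = F ∧ map b H = G} := by
  rw [sp, Ideal.map]
  congr 1
  ext u
  constructor
  · rintro ⟨H, hH, rfl⟩
    exact ⟨_, hH, H, rfl, rfl⟩
  · rintro ⟨_, hH, H, rfl, rfl⟩
    exact ⟨H, hH, rfl⟩

section

variable [CommRing Ω] (a : O →+* L) (b : O →+* Ω)

theorem sp_mono {J J' : Ideal (MvPolynomial σ L)} (h : J ≤ J') : sp a b J ≤ sp a b J' :=
  Ideal.map_mono (Ideal.comap_mono h)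

theorem mem_sp {J : Ideal (MvPolynomial σ L)} {H : MvPolynomial σ O} (h : map a H ∈ J) :
    map b H ∈ sp a b J := Ideal.mem_map_of_mem _ h

theorem sp_pre_le (G : Ch → τ → MvPolynomial σ O) (J : Ideal (MvPolynomial σ L)) :
    sp a b (pre (fun c j => map a (G c j)) J) ≤ pre (fun c j => map b (G c j)) (sp a b J) := by
  refine Ideal.map_le_iff_le_comap.2 fun H hH => Ideal.mem_comap.2 (mem_pre.2 fun c => ?_)
  rw [← map_ev]
  refine mem_sp a b ?_
  rw [map_ev]
  exact mem_pre.1 (Ideal.mem_comap.1 hH) c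

theorem map_up_sp_le (J : Ideal (MvPolynomial σ L)) :
    (sp a b J).map (up (τ := τ)) ≤ sp a b (J.map (up (τ := τ))) := by
  refine Ideal.map_le_iff_le_comap.2 (Ideal.map_le_iff_le_comap.2 fun H hH => ?_)
  rw [Ideal.mem_comap, Ideal.mem_comap, ← map_rename]
  refine mem_sp a b ?_
  rw [map_rename]
  exact Ideal.mem_map_of_mem _ hH

theorem minors_le_sp (v : τ → κ) (G : Ch → τ → MvPolynomial σ O) :
    (minors v fun c j => map b (G c j)) ≤ sp a b (minors v fun c j => map a (G c j)) := by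
  rw [← map_minors, ← map_minors]
  exact Ideal.map_mono Ideal.le_comap_map

theorem map_cmp {M : Type} [AddCommMonoid M] (W : σ → M) (D : M) (H : MvPolynomial σ O) :
    map a (weightedHomogeneousComponent W D H) = weightedHomogeneousComponent W D (map a H) := by
  classical
  ext m
  rw [coeff_map, coeff_weightedHomogeneousComponent, coeff_weightedHomogeneousComponent,
    coeff_map]
  split_ifs
  · rfl
  · exact map_zero a

theorem cmp_mem_sp {M : Type} [AddCommMonoid M] {W : σ → M} {J : Ideal (MvPolynomial σ L)}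
    (hJ : ∀ f ∈ J, ∀ d, weightedHomogeneousComponent W d f ∈ J) :
    ∀ f ∈ sp a b J, ∀ d, weightedHomogeneousComponent W d f ∈ sp a b J := by
  have e : sp a b J = Ideal.span {u | u ∈ sp a b J ∧ ∃ D, IsWeightedHomogeneous W u D} := by
    refine le_antisymm (Ideal.map_le_iff_le_comap.2 fun H hH => Ideal.mem_comap.2 ?_)
      (core_le _)
    obtain ⟨T, hT⟩ := sum_cmp W H
    rw [← hT, map_sum]
    refine Ideal.sum_mem _ fun D _ => Ideal.subset_span ⟨mem_sp a b ?_, D, ?_⟩
    · rw [map_cmp]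
      exact hJ _ hH D
    · rw [map_cmp]
      exact weightedHomogeneousComponent_isWeightedHomogeneous D _
  intro f hf d
  rw [e] at hf ⊢
  exact cmp_mem_core hf d

end

/-- the graph ideal commutes with reduction in large degree -/
theorem sp_gr [Field Ω] [IsAlgClosed Ω] [DecidableEq ι] [DecidableEq κ] [Finite σ] [Finite τ]
    [Finite ι] [Finite κ] (a : O →+* L) (b : O →+* Ω) {w : σ → ι} {v : τ → κ}
    {G : Ch → τ → MvPolynomial σ O} {e : Ch → κ → ι → ℕ} {J : Ideal (MvPolynomial σ L)}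
    (hb : Bpf w v (fun c j => map b (G c j)) (sp a b J))
    (hJ : ∀ f ∈ J, ∀ d, weightedHomogeneousComponent (bw w) d f ∈ J)
    (hG : ∀ c j, IsWeightedHomogeneous (bw w) (map a (G c j)) (e c (v j)))
    (h : ∀ c c' i j, v i = v j →
      map a (G c' j) * map a (G c i) - map a (G c' i) * map a (G c j) ∈ J) :
    ∃ N : ℕ, ∀ D : ι ⊕ κ → ℕ, (∀ i, N ≤ D (Sum.inl i)) → ∀ u : MvPolynomial (σ ⊕ τ) Ω,
      IsWeightedHomogeneous (bw (Sum.map w v)) u D →
        (u ∈ sp a b (gr w v (fun c j => map a (G c j)) J) ↔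
          u ∈ gr w v (fun c j => map b (G c j)) (sp a b J)) := by
  obtain ⟨N, hN⟩ := sat hb
  refine ⟨N, fun D hD u hu => ⟨fun h1 => (mem_core hu).2 ?_, fun h1 => ?_⟩⟩
  · exact sp_pre_le a b G J (sp_mono a b (gr_le_pre J) h1)
  · exact (sup_le ((map_up_sp_le a b J).trans (sp_mono a b (map_up_le_gr hJ)))
      ((minors_le_sp a b v G).trans (sp_mono a b (minors_le_gr hG h))))
      (hN D hD u hu ((mem_gr hu).1 h1))

end Sp

end Pool.Agent.Tav.Gr
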