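import Mathlib

/-! Functions on `ι → ℕ` that agree with a polynomial for all large arguments. -/

set_option autoImplicit false

noncomputable section

namespace Pool.Agent.Tav

open MvPolynomial Filter

variable {ι : Type}

/-- value at a vector of natural numbers -/
def evN (d : ι → ℕ) : MvPolynomial ι ℚ →+* ℚ := eval fun i => (d i : ℚ)

/-- for all large vectors -/
def Lg (p : (ι → ℕ) → Prop) : Prop := ∃ N : ℕ, ∀ d : ι → ℕ, (∀ i, N ≤ d i) → p d

/-- `h` agrees with the polynomial `P` at all large vectors -/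
def EvP (h : (ι → ℕ) → ℚ) (P : MvPolynomial ι ℚ) : Prop := Lg fun d => evN d P = h d

/-- total degree at most `n`; for negative `n` the polynomial is zero -/
def Dg (P : MvPolynomial ι ℚ) (n : ℤ) : Prop := ∀ s : ι →₀ ℕ, n < (s.degree : ℤ) → coeff s P = 0

theorem Lg.mono {p q : (ι → ℕ) → Prop} (h : Lg p) (hq : ∀ d, p d → q d) : Lg q :=
  h.imp fun _ hN d hd => hq d (hN d hd)

theorem Lg.and {p q : (ι → ℕ) → Prop} (h : Lg p) (h' : Lg q) : Lg fun d => p d ∧ q d := by
  obtain ⟨N, hN⟩ := h
  obtain ⟨M, hM⟩ := h'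
  exact ⟨max N M, fun d hd => ⟨hN d fun i => (le_max_left _ _).trans (hd i),
    hM d fun i => (le_max_right _ _).trans (hd i)⟩⟩

theorem Lg.of_forall {p : (ι → ℕ) → Prop} (h : ∀ d, p d) : Lg p := ⟨0, fun d _ => h d⟩

theorem Lg.all {κ : Type} [Finite κ] {p : κ → (ι → ℕ) → Prop} (h : ∀ k, Lg (p k)) :
    Lg fun d => ∀ k, p k d := by
  choose N hN using h
  obtain ⟨M, hM⟩ := (Set.finite_range N).bddAbove
  exact ⟨M, fun d hd k => hN k d fun i => (hM ⟨k, rfl⟩).trans (hd i)⟩

theorem Lg.add {p : (ι → ℕ) → Prop} (h : Lg p) (e : ι → ℕ) : Lg fun d => p (d + e) :=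
  h.imp fun _ hN _ hd => hN _ fun i => (hd i).trans (Nat.le_add_right _ _)

/-- a statement about `d + e` for all large `d` is a statement about all large vectors -/
theorem Lg.of_add {p : (ι → ℕ) → Prop} [Finite ι] (e : ι → ℕ) (h : Lg fun d => p (d + e)) :
    Lg p := by
  obtain ⟨N, hN⟩ := h
  obtain ⟨M, hM⟩ := (Set.finite_range e).bddAbove
  refine ⟨N + M, fun d hd => ?_⟩
  have h1 : ∀ i, e i ≤ M := fun i => hM ⟨i, rfl⟩
  have e1 : d = (fun i => d i - e i) + e := funext fun i => by
    have := hd i; have := h1 i; simp only [Pi.add_apply]; omega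
  rw [e1]
  exact hN _ fun i => by have := hd i; have := h1 i; omega

theorem eq_zero_of_lg {P : MvPolynomial ι ℚ} (h : Lg fun d => evN d P = 0) : P = 0 := by
  obtain ⟨N, hN⟩ := h
  refine funext_set (fun _ => Set.range fun n : ℕ => ((N + n : ℕ) : ℚ)) (fun _ =>
    Set.infinite_range_of_injective fun a b hab => by simpa using hab) fun x hx => ?_
  choose n hn using fun i => hx i (Set.mem_univ i)
  have e : x = fun i => ((N + n i : ℕ) : ℚ) := funext fun i => (hn i).symm
  rw [e, map_zero]
  exact hN (fun i => N + n i) fun i => Nat.le_add_right _ _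

theorem EvP.unique {h : (ι → ℕ) → ℚ} {P Q : MvPolynomial ι ℚ} (hP : EvP h P) (hQ : EvP h Q) :
    P = Q :=
  sub_eq_zero.1 (eq_zero_of_lg ((Lg.and hP hQ).mono fun d hd => by
    rw [map_sub, hd.1, hd.2, sub_self]))

theorem EvP.congr {h h' : (ι → ℕ) → ℚ} {P : MvPolynomial ι ℚ} (hP : EvP h P)
    (e : Lg fun d => h d = h' d) : EvP h' P :=
  (Lg.and hP e).mono fun _ hd => hd.1.trans hd.2

theorem EvP.add {h h' : (ι → ℕ) → ℚ} {P Q : MvPolynomial ι ℚ} (hP : EvP h P) (hQ : EvP h' Q) :
    EvP (fun d => h d + h' d) (P + Q) :=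
  (Lg.and hP hQ).mono fun d hd => by rw [map_add, hd.1, hd.2]

theorem EvP.sub {h h' : (ι → ℕ) → ℚ} {P Q : MvPolynomial ι ℚ} (hP : EvP h P) (hQ : EvP h' Q) :
    EvP (fun d => h d - h' d) (P - Q) :=
  (Lg.and hP hQ).mono fun d hd => by rw [map_sub, hd.1, hd.2]

theorem EvP.mul {h h' : (ι → ℕ) → ℚ} {P Q : MvPolynomial ι ℚ} (hP : EvP h P) (hQ : EvP h' Q) :
    EvP (fun d => h d * h' d) (P * Q) :=
  (Lg.and hP hQ).mono fun d hd => by rw [map_mul, hd.1, hd.2]

theorem evN_C (d : ι → ℕ) (c : ℚ) : evN d (C c) = c := eval_C _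

theorem evN_X (d : ι → ℕ) (i : ι) : evN d (X i) = d i := eval_X _

theorem evP_C (c : ℚ) : EvP (fun _ : ι → ℕ => c) (C c) := Lg.of_forall fun d => evN_C d c

/-- translation -/
def sh (e : ι → ℚ) : MvPolynomial ι ℚ →ₐ[ℚ] MvPolynomial ι ℚ := aeval fun i => X i + C (e i)

theorem eval_aev {κ : Type} (x : κ → ℚ) (g : ι → MvPolynomial κ ℚ) (P : MvPolynomial ι ℚ) :
    eval x (aeval g P) = eval (fun i => eval x (g i)) P := by
  induction P using MvPolynomial.induction_on with
  | C a => simp
  | add p q hp hq => simp only [map_add, hp, hq]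
  | mul_X p i hp => simp only [map_mul, hp, aeval_X, eval_X]

theorem eval_sh (x e : ι → ℚ) (P : MvPolynomial ι ℚ) : eval x (sh e P) = eval (x + e) P := by
  rw [sh, eval_aev]
  simp only [map_add, eval_X, eval_C]
  rfl

theorem evN_sh (d e : ι → ℕ) (P : MvPolynomial ι ℚ) :
    evN d (sh (fun i => (e i : ℚ)) P) = evN (d + e) P := by
  rw [evN, eval_sh, evN]
  congr 2
  funext i
  simp

theorem EvP.shift {h : (ι → ℕ) → ℚ} {P : MvPolynomial ι ℚ} (hP : EvP h P) (e : ι → ℕ) :
    EvP (fun d => h (d + e)) (sh (fun i => (e i : ℚ)) P) :=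
  (Lg.add hP e).mono fun d hd => by rw [evN_sh]; exact hd

theorem sh_sh (e e' : ι → ℚ) (P : MvPolynomial ι ℚ) : sh e (sh e' P) = sh (e + e') P :=
  MvPolynomial.funext fun x => by rw [eval_sh, eval_sh, eval_sh, add_assoc]

theorem sh_zero (P : MvPolynomial ι ℚ) : sh 0 P = P :=
  MvPolynomial.funext fun x => by rw [eval_sh, add_zero]

theorem EvP.of_shift [Finite ι] {h : (ι → ℕ) → ℚ} {P : MvPolynomial ι ℚ} (e : ι → ℕ)
    (hP : EvP (fun d => h (d + e)) P) : EvP h (sh (fun i => -(e i : ℚ)) P) := by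
  refine Lg.of_add e (Lg.mono hP fun d hd => ?_)
  have e1 : ((fun i => (e i : ℚ)) + fun i => -(e i : ℚ)) = 0 := funext fun i => by simp
  rw [← evN_sh, sh_sh, e1, sh_zero]
  exact hd

/-- the difference operator in one variable is onto -/
theorem exists_sum [DecidableEq ι] (j : ι) (P : MvPolynomial ι ℚ) : ∃ Q : MvPolynomial ι ℚ,
    ∀ x : ι → ℚ, eval (x + Pi.single j 1) Q - eval x Q = eval x P := by
  induction P using MvPolynomial.induction_on' with
  | add p q hp hq =>
    obtain ⟨a, ha⟩ := hp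
    obtain ⟨b, hb⟩ := hq
    exact ⟨a + b, fun x => by rw [map_add, map_add, map_add, ← ha, ← hb]; ring⟩
  | monomial s c =>
    refine ⟨monomial (s.erase j) (c / (s j + 1)) *
      Polynomial.aeval (X j) (Polynomial.bernoulli (s j + 1)), fun x => ?_⟩
    have h1 : ∀ y : ι → ℚ, eval y (Polynomial.aeval (X j : MvPolynomial ι ℚ)
        (Polynomial.bernoulli (s j + 1))) = (Polynomial.bernoulli (s j + 1)).eval (y j) := by
      intro y
      have := Polynomial.aeval_algHom_apply (aeval y : MvPolynomial ι ℚ →ₐ[ℚ] ℚ) (X j)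
        (Polynomial.bernoulli (s j + 1))
      rw [aeval_X, Polynomial.coe_aeval_eq_eval] at this
      rw [this]
      rfl
    have h2 : eval (x + Pi.single j 1) (monomial (s.erase j) (c / (s j + 1))) =
        eval x (monomial (s.erase j) (c / (s j + 1))) := by
      rw [eval_monomial, eval_monomial]
      congr 1
      refine Finsupp.prod_congr fun i hi => ?_
      have : i ≠ j := by
        rintro rfl
        simp at hi
      simp [this]
    have h3 : eval x (monomial s c) = eval x (monomial (s.erase j) c) * x j ^ s j := by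
      conv_lhs => rw [← Finsupp.erase_add_single j s]
      rw [monomial_add_single, map_mul, map_pow, eval_X]
    have h4 : eval x (monomial (s.erase j) c) =
        eval x (monomial (s.erase j) (c / (s j + 1))) * (s j + 1) := by
      rw [eval_monomial, eval_monomial]
      have : (s j : ℚ) + 1 ≠ 0 := by positivity
      field_simp
    rw [map_mul, map_mul, h1, h1, h2, h3, h4, Pi.add_apply, Pi.single_eq_same, add_comm (x j) 1,
      Polynomial.bernoulli_eval_one_add]
    simp only [Nat.add_sub_cancel, Nat.cast_add, Nat.cast_one]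
    ring

/-- discrete integration -/
theorem evP_of_diff [Fintype ι] [DecidableEq ι] {h : (ι → ℕ) → ℚ}
    (hd : ∀ i, ∃ P, EvP (fun d => h (d + Pi.single i 1) - h d) P) : ∃ P, EvP h P := by
  choose P hP using hd
  choose Q hQ using fun i => exists_sum i (P i)
  obtain ⟨N, hN⟩ := Lg.all hP
  have tel : ∀ (j : ι) (y : ι → ℕ), (∀ i, N ≤ y i) → ∀ t : ℕ,
      h (y + Pi.single j t) - h y = evN (y + Pi.single j t) (Q j) - evN y (Q j) := by
    intro j y hy t
    induction t with
    | zero => simp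
    | succ t ih =>
      have e1 : y + Pi.single j (t + 1) = (y + Pi.single j t) + Pi.single j 1 := by
        rw [Pi.single_add, add_assoc]
      have e2 := hN (y + Pi.single j t) (fun i => (hy i).trans (Nat.le_add_right _ _)) j
      have e3 := hQ j fun i => ((y + Pi.single j t : ι → ℕ) i : ℚ)
      have e4 : ((fun i => ((y + Pi.single j t : ι → ℕ) i : ℚ)) + Pi.single j 1 : ι → ℚ) =
          fun i => ((y + Pi.single j t + Pi.single j 1 : ι → ℕ) i : ℚ) := funext fun i => by
        by_cases hi : i = j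
        · subst hi; simp
        · simp [hi]
      rw [e4] at e3
      rw [e1]
      change evN _ (Q j) - evN _ (Q j) = evN _ (P j) at e3
      linarith
  have key : ∀ T : Finset ι, ∃ R : MvPolynomial ι ℚ, ∀ d : ι → ℕ, (∀ i, N ≤ d i) →
      evN d R = h fun i => if i ∈ T then d i else N := by
    have sub : ∀ (T : Finset ι) (R : MvPolynomial ι ℚ) (d : ι → ℕ),
        evN d (aeval (fun i => if i ∈ T then (X i : MvPolynomial ι ℚ) else C (N : ℚ)) R) =
          evN (fun i => if i ∈ T then d i else N) R := by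
      intro T R d
      rw [evN, eval_aev, evN]
      congr 2
      funext i
      split_ifs <;> simp
    intro T
    induction T using Finset.induction_on with
    | empty => exact ⟨C (h fun _ => N), fun d _ => by simp [evN_C]⟩
    | insert j T hj ih =>
      obtain ⟨R, hR⟩ := ih
      refine ⟨R + aeval (fun i => if i ∈ insert j T then X i else C (N : ℚ)) (Q j) -
        aeval (fun i => if i ∈ T then X i else C (N : ℚ)) (Q j), fun d hd => ?_⟩
      have e1 : (fun i => if i ∈ insert j T then d i else N) =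
          (fun i => if i ∈ T then d i else N) + Pi.single j (d j - N) := funext fun i => by
        by_cases hi : i = j
        · subst hi
          have := hd i
          simp only [Finset.mem_insert_self, if_true, Pi.add_apply, hj, if_false,
            Pi.single_eq_same]
          omega
        · simp [hi]
      have e2 := tel j (fun i => if i ∈ T then d i else N)
        (fun i => by split_ifs; exacts [hd i, le_rfl]) (d j - N)
      rw [map_sub, map_add, sub, sub, hR d hd, e1]
      linarith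
  obtain ⟨R, hR⟩ := key Finset.univ
  exact ⟨R, N, fun d hd => by simpa using hR d hd⟩

theorem Dg.mono {P : MvPolynomial ι ℚ} {n m : ℤ} (h : Dg P n) (hm : n ≤ m) : Dg P m :=
  fun s hs => h s (lt_of_le_of_lt hm hs)

theorem dg_zero (n : ℤ) : Dg (0 : MvPolynomial ι ℚ) n := fun _ _ => rfl

theorem Dg.eq_zero {P : MvPolynomial ι ℚ} {n : ℤ} (h : Dg P n) (hn : n < 0) : P = 0 :=
  MvPolynomial.ext _ _ fun s => h s (lt_of_lt_of_le hn (Int.natCast_nonneg _))

theorem dg_iff {P : MvPolynomial ι ℚ} {n : ℕ} : Dg P n ↔ P.totalDegree ≤ n := by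
  constructor
  · intro h
    refine Finset.sup_le fun s hs => ?_
    by_contra hc
    exact mem_support_iff.1 hs (h s (by exact_mod_cast not_le.1 hc))
  · intro h s hs
    exact coeff_eq_zero_of_totalDegree_lt (lt_of_le_of_lt h (by exact_mod_cast hs))

theorem dg_totalDegree (P : MvPolynomial ι ℚ) : Dg P P.totalDegree := dg_iff.2 le_rfl

theorem Dg.add {P Q : MvPolynomial ι ℚ} {n : ℤ} (h : Dg P n) (h' : Dg Q n) : Dg (P + Q) n :=
  fun s hs => by rw [coeff_add, h s hs, h' s hs, add_zero]

theorem Dg.neg {P : MvPolynomial ι ℚ} {n : ℤ} (h : Dg P n) : Dg (-P) n :=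
  fun s hs => by rw [coeff_neg, h s hs, neg_zero]

theorem Dg.sub {P Q : MvPolynomial ι ℚ} {n : ℤ} (h : Dg P n) (h' : Dg Q n) : Dg (P - Q) n :=
  fun s hs => by rw [coeff_sub, h s hs, h' s hs, sub_zero]

theorem Dg.sum {κ : Type} {T : Finset κ} {P : κ → MvPolynomial ι ℚ} {n : ℤ}
    (h : ∀ k ∈ T, Dg (P k) n) : Dg (∑ k ∈ T, P k) n :=
  fun s hs => by rw [coeff_sum]; exact Finset.sum_eq_zero fun k hk => h k hk s hs

theorem Dg.mul {P Q : MvPolynomial ι ℚ} {a b : ℤ} (h : Dg P a) (h' : Dg Q b) :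
    Dg (P * Q) (a + b) := by
  classical
  intro s hs
  rw [coeff_mul]
  refine Finset.sum_eq_zero fun x hx => ?_
  have e : (x.1.degree : ℤ) + x.2.degree = s.degree := by
    rw [← Finset.HasAntidiagonal.mem_antidiagonal.1 hx, map_add]
    simp
  by_cases h1 : a < (x.1.degree : ℤ)
  · rw [h _ h1, zero_mul]
  · rw [h' _ (by omega), mul_zero]

theorem dg_monomial (s : ι →₀ ℕ) (c : ℚ) : Dg (monomial s c) s.degree := by
  classical
  intro t ht
  rw [coeff_monomial, if_neg]
  rintro rfl
  exact lt_irrefl _ ht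

theorem dg_C (c : ℚ) : Dg (C c : MvPolynomial ι ℚ) 0 := by
  simpa using dg_monomial (0 : ι →₀ ℕ) c

theorem dg_X (i : ι) : Dg (X i : MvPolynomial ι ℚ) 1 := by
  have := dg_monomial (Finsupp.single i 1) (1 : ℚ)
  rwa [Finsupp.degree_single] at this

theorem Dg.C_mul {P : MvPolynomial ι ℚ} {n : ℤ} (h : Dg P n) (c : ℚ) : Dg (C c * P) n := by
  simpa using (dg_C c).mul h

theorem Dg.pow {P : MvPolynomial ι ℚ} {a : ℤ} (h : Dg P a) (k : ℕ) : Dg (P ^ k) (k * a) := by
  induction k with
  | zero => simpa using dg_C (ι := ι) 1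
  | succ k ih =>
    rw [pow_succ]
    exact (ih.mul h).mono (by push_cast; exact le_of_eq (by ring))

/-- restriction to the line spanned by `a` -/
def ln (a : ι → ℚ) : MvPolynomial ι ℚ →ₐ[ℚ] Polynomial ℚ :=
  aeval fun i => Polynomial.C (a i) * Polynomial.X

theorem ln_monomial (a : ι → ℚ) (s : ι →₀ ℕ) (c : ℚ) :
    ln a (monomial s c) = Polynomial.monomial s.degree (eval a (monomial s c)) := by
  rw [ln, aeval_monomial, eval_monomial, ← Polynomial.C_mul_X_pow_eq_monomial,
    Finsupp.degree_apply]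
  simp only [Finsupp.prod, mul_pow, Finset.prod_mul_distrib, Finset.prod_pow_eq_pow_sum, map_mul,
    map_prod, map_pow, Polynomial.algebraMap_eq, mul_assoc]

theorem coeff_ln (a : ι → ℚ) (P : MvPolynomial ι ℚ) (k : ℕ) :
    (ln a P).coeff k = eval a (homogeneousComponent k P) := by
  induction P using MvPolynomial.induction_on' with
  | add p q hp hq => simp only [map_add, Polynomial.coeff_add, hp, hq]
  | monomial s c =>
    rw [ln_monomial, Polynomial.coeff_monomial,
      homogeneousComponent_of_mem (isHomogeneous_monomial c rfl)]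
    by_cases h : s.degree = k
    · rw [if_pos h, if_pos h.symm]
    · rw [if_neg h, if_neg (Ne.symm h), map_zero]

theorem eval_ln (a : ι → ℚ) (P : MvPolynomial ι ℚ) (t : ℚ) :
    (ln a P).eval t = eval (fun i => a i * t) P := by
  induction P using MvPolynomial.induction_on with
  | C c => simp [ln]
  | add p q hp hq => simp only [map_add, Polynomial.eval_add, hp, hq]
  | mul_X p i hp =>
    rw [map_mul, Polynomial.eval_mul, hp, map_mul, eval_X]
    simp [ln]

theorem degree_le_of_abs_le {p q : Polynomial ℚ}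
    (h : ∀ᶠ t : ℕ in atTop, |p.eval (t : ℚ)| ≤ q.eval (t : ℚ)) : p.degree ≤ q.degree := by
  by_contra hc
  have hlt := not_le.1 hc
  by_cases hq : q = 0
  · subst hq
    have hp : p ≠ 0 := by
      rintro rfl
      exact lt_irrefl _ hlt
    have h1 := (tendsto_natCast_atTop_atTop (R := ℚ)).eventually
      (Polynomial.eventually_atTop_not_isRoot p hp)
    obtain ⟨t, h2, h3⟩ := (h.and h1).exists
    exact h3 (by simpa using h2)
  · have h1 := ((Polynomial.abs_div_tendsto_atTop_atTop_of_degree_gt p q hlt hq).comp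
      (tendsto_natCast_atTop_atTop (R := ℚ))).eventually_gt_atTop 1
    obtain ⟨t, h2, h3⟩ := (h.and h1).exists
    have h4 : |p.eval (t : ℚ) / q.eval (t : ℚ)| ≤ 1 := by
      rw [abs_div]
      exact div_le_one_of_le₀ (h2.trans (le_abs_self _)) (abs_nonneg _)
    exact absurd h3 (not_lt.2 h4)

/-- a polynomial that is bounded by a polynomial of degree at most `n` has degree at most `n` -/
theorem Dg.of_abs_le {P Q : MvPolynomial ι ℚ} {n : ℤ} (hQ : Dg Q n)
    (h : Lg fun d => |evN d P| ≤ evN d Q) : Dg P n := by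
  intro s hs
  have key : homogeneousComponent s.degree P = 0 := by
    refine eq_zero_of_lg ⟨1, fun a ha => ?_⟩
    obtain ⟨N, hN⟩ := h
    have h1 : (ln (fun i => (a i : ℚ)) P).degree ≤ (ln (fun i => (a i : ℚ)) Q).degree := by
      refine degree_le_of_abs_le ((eventually_ge_atTop N).mono fun t ht => ?_)
      have := hN (fun i => a i * t) fun i => ht.trans (Nat.le_mul_of_pos_left _ (ha i))
      rw [eval_ln, eval_ln]
      simpa [evN] using this
    have h2 : (ln (fun i => (a i : ℚ)) Q).degree < s.degree := by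
      refine (Polynomial.degree_lt_iff_coeff_zero _ _).2 fun k hk => ?_
      have : homogeneousComponent k Q = 0 := MvPolynomial.ext _ _ fun t => by
        rw [coeff_homogeneousComponent]
        split_ifs with ht
        · exact hQ t (by omega)
        · rfl
      rw [coeff_ln, this, map_zero]
    have h3 := Polynomial.coeff_eq_zero_of_degree_lt (lt_of_le_of_lt h1 h2)
    rw [coeff_ln] at h3
    exact h3
  have := congrArg (coeff s) key
  rwa [coeff_homogeneousComponent, if_pos rfl] at this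

/-- squeeze: the coefficients above degree `n` agree -/
theorem coeff_eq_of_le {P P' Q : MvPolynomial ι ℚ} {n : ℤ} (hQ : Dg Q n)
    (h : Lg fun d => evN d P ≤ evN d P' ∧ evN d P' ≤ evN d P + evN d Q) {s : ι →₀ ℕ}
    (hs : n < (s.degree : ℤ)) : coeff s P' = coeff s P := by
  have := Dg.of_abs_le (P := P' - P) hQ (h.mono fun d hd => by
    rw [map_sub, abs_of_nonneg (sub_nonneg.2 hd.1)]
    linarith [hd.2]) s hs
  rwa [coeff_sub, sub_eq_zero] at this

theorem EvP.dg_of_le {h h' : (ι → ℕ) → ℚ} {P Q : MvPolynomial ι ℚ} {n : ℤ} (hP : EvP h P)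
    (hQ : EvP h' Q) (hn : Dg Q n) (hl : Lg fun d => 0 ≤ h d ∧ h d ≤ h' d) : Dg P n :=
  hn.of_abs_le (((Lg.and hP hQ).and hl).mono fun d hd => by
    rw [hd.1.1, hd.1.2, abs_of_nonneg hd.2.1]
    exact hd.2.2)

/-- growth bound gives a degree bound -/
theorem EvP.dg_of_growth [Fintype ι] {h : (ι → ℕ) → ℚ} {P : MvPolynomial ι ℚ} {n : ℕ} {c : ℚ}
    (hP : EvP h P) (hl : Lg fun d => |h d| ≤ c * (1 + ∑ i, (d i : ℚ)) ^ n) : Dg P n := by
  have h1 : Dg (C 1 + ∑ i, X i : MvPolynomial ι ℚ) 1 :=
    ((dg_C 1).mono zero_le_one).add (Dg.sum fun i _ => dg_X i)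
  have h2 := (h1.pow n).C_mul c
  rw [mul_one] at h2
  refine h2.of_abs_le ((Lg.and hP hl).mono fun d hd => ?_)
  rw [hd.1]
  simpa [evN_C, evN_X] using hd.2

/-- degree bound gives a growth bound -/
theorem Dg.growth [Fintype ι] {P : MvPolynomial ι ℚ} {n : ℕ} (h : Dg P n) :
    ∃ c : ℚ, ∀ d : ι → ℕ, |evN d P| ≤ c * (1 + ∑ i, (d i : ℚ)) ^ n := by
  refine ⟨∑ s ∈ P.support, |coeff s P|, fun d => ?_⟩
  have h0 : (0 : ℚ) ≤ ∑ i, (d i : ℚ) := Finset.sum_nonneg fun i _ => Nat.cast_nonneg _
  rw [evN, eval_eq', Finset.sum_mul]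
  refine (Finset.abs_sum_le_sum_abs _ _).trans (Finset.sum_le_sum fun s hs => ?_)
  rw [abs_mul]
  refine mul_le_mul_of_nonneg_left ?_ (abs_nonneg _)
  have h1 : s.degree ≤ n := by
    by_contra hc
    exact mem_support_iff.1 hs (h s (by exact_mod_cast not_le.1 hc))
  rw [abs_of_nonneg (by positivity)]
  calc ∏ i, (d i : ℚ) ^ s i ≤ ∏ i, (1 + ∑ i, (d i : ℚ)) ^ s i :=
        Finset.prod_le_prod (fun i _ => by positivity) fun i _ => by
          have : (d i : ℚ) ≤ ∑ i, (d i : ℚ) :=
            Finset.single_le_sum (f := fun i => (d i : ℚ)) (fun i _ => Nat.cast_nonneg _)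
              (Finset.mem_univ i)
          exact pow_le_pow_left₀ (Nat.cast_nonneg _) (by linarith) _
    _ = (1 + ∑ i, (d i : ℚ)) ^ s.degree := by
        rw [Finset.prod_pow_eq_pow_sum, Finsupp.degree_eq_sum]
    _ ≤ _ := pow_le_pow_right₀ (by linarith) h1

/-- directional derivative -/
def dir [Fintype ι] (e : ι → ℚ) (P : MvPolynomial ι ℚ) : MvPolynomial ι ℚ :=
  ∑ i, C (e i) * pderiv i P

theorem coeff_dir [Fintype ι] (e : ι → ℚ) (P : MvPolynomial ι ℚ) (s : ι →₀ ℕ) :
    coeff s (dir e P) = ∑ i, e i * (s i + 1) * coeff (s + Finsupp.single i 1) P := by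
  rw [dir, coeff_sum]
  exact Finset.sum_congr rfl fun i _ => by rw [coeff_C_mul, coeff_pderiv]; ring

theorem Dg.dir [Fintype ι] {P : MvPolynomial ι ℚ} {n : ℤ} (h : Dg P n) (e : ι → ℚ) :
    Dg (dir e P) (n - 1) := fun s hs => by
  rw [coeff_dir]
  refine Finset.sum_eq_zero fun i _ => ?_
  rw [h _ (by rw [map_add, Finsupp.degree_single]; push_cast; omega), mul_zero]

theorem dir_mul [Fintype ι] (e : ι → ℚ) (P Q : MvPolynomial ι ℚ) :
    dir e (P * Q) = dir e P * Q + P * dir e Q := by
  simp only [dir, Finset.sum_mul, Finset.mul_sum, ← Finset.sum_add_distrib, pderiv_mul]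
  exact Finset.sum_congr rfl fun i _ => by ring

/-- first order Taylor formula for the translation -/
theorem Dg.taylor [Fintype ι] {P : MvPolynomial ι ℚ} {n : ℤ} (h : Dg P n) (e : ι → ℚ) :
    Dg (sh e P - P - Tav.dir e P) (n - 2) := by
  classical
  have mul : ∀ (p q : MvPolynomial ι ℚ) (a b : ℤ), Dg p a → Dg q b →
      Dg (sh e p - p - Tav.dir e p) (a - 2) → Dg (sh e q - q - Tav.dir e q) (b - 2) →
      Dg (sh e (p * q) - p * q - Tav.dir e (p * q)) (a + b - 2) := by
    intro p q a b hp hq rp rq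
    have e1 : sh e (p * q) - p * q - Tav.dir e (p * q) = Tav.dir e p * Tav.dir e q +
        (sh e p - p - Tav.dir e p) * ((sh e q - q - Tav.dir e q) + q + Tav.dir e q) +
        (p + Tav.dir e p) * (sh e q - q - Tav.dir e q) := by
      rw [map_mul, dir_mul]; ring
    rw [e1]
    refine (Dg.add (((hp.dir e).mul (hq.dir e)).mono (by omega)) ((rp.mul
      (((rq.mono (by omega)).add hq).add ((hq.dir e).mono (by omega)))).mono (by omega))).add
      (((hp.add ((hp.dir e).mono (by omega))).mul rq).mono (by omega))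
  have hC : ∀ c : ℚ, sh e (C c) - C c - Tav.dir e (C c) = 0 := fun c => by simp [sh, Tav.dir]
  have hX : ∀ i, sh e (X i) - X i - Tav.dir e (X i) = 0 := fun i => by
    simp [sh, Tav.dir, pderiv_X, Pi.single_apply]
  have mono : ∀ (s : ι →₀ ℕ) (c : ℚ),
      Dg (sh e (monomial s c) - monomial s c - Tav.dir e (monomial s c)) (s.degree - 2) := by
    intro s c
    have : ∀ (k : ℕ) (s : ι →₀ ℕ), s.degree = k →
        Dg (sh e (monomial s c) - monomial s c - Tav.dir e (monomial s c)) (s.degree - 2) := by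
      intro k
      induction k with
      | zero =>
        intro s hs
        rw [(Finsupp.degree_eq_zero_iff s).1 hs, monomial_zero', hC]
        exact dg_zero _
      | succ k ih =>
        intro s hs
        obtain ⟨i, hi⟩ : ∃ i, s i ≠ 0 := by
          by_contra hc
          have : s = 0 := Finsupp.ext fun i => not_not.1 fun h => hc ⟨i, h⟩
          simp [this] at hs
        obtain ⟨t, rfl⟩ : ∃ t, s = t + Finsupp.single i 1 :=
          ⟨s - Finsupp.single i 1, (Finsupp.sub_add_single_one_cancel hi).symm⟩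
        rw [map_add, Finsupp.degree_single] at hs ⊢
        rw [monomial_add_single, pow_one]
        have := mul _ _ _ _ (dg_monomial t c) (dg_X i) (ih t (by omega))
          (by rw [hX]; exact dg_zero _)
        exact this.mono (by push_cast; omega)
    exact this _ s rfl
  have e2 : sh e P - P - Tav.dir e P = ∑ s ∈ P.support, (sh e (monomial s (coeff s P)) -
      monomial s (coeff s P) - Tav.dir e (monomial s (coeff s P))) := by
    rw [Finset.sum_sub_distrib, Finset.sum_sub_distrib, ← map_sum, ← P.as_sum]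
    congr 1
    conv_lhs => rw [P.as_sum]
    simp only [Tav.dir, map_sum, Finset.mul_sum]
    exact Finset.sum_comm
  rw [e2]
  refine Dg.sum fun s hs => (mono s _).mono ?_
  have : ¬ n < (s.degree : ℤ) := fun hc => mem_support_iff.1 hs (h s hc)
  omega

theorem Dg.sh_sub [Fintype ι] {P : MvPolynomial ι ℚ} {n : ℤ} (h : Dg P n) (e : ι → ℚ) :
    Dg (sh e P - P) (n - 1) := by
  have := ((h.taylor e).mono (show n - 2 ≤ n - 1 by omega)).add (h.dir e)
  rwa [sub_add_cancel] at this

theorem Dg.sh [Fintype ι] {P : MvPolynomial ι ℚ} {n : ℤ} (h : Dg P n) (e : ι → ℚ) :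
    Dg (Tav.sh e P) n := by
  have := ((h.sh_sub e).mono (show n - 1 ≤ n by omega)).add h
  rwa [sub_add_cancel] at this

/-- a translation does not change the top coefficients -/
theorem Dg.coeff_sh [Fintype ι] {P : MvPolynomial ι ℚ} {n : ℤ} (h : Dg P n) (e : ι → ℚ)
    {s : ι →₀ ℕ} (hs : n ≤ (s.degree : ℤ)) : coeff s (Tav.sh e P) = coeff s P := by
  have := h.sh_sub e s (by omega)
  rwa [coeff_sub, sub_eq_zero] at this

/-- the top coefficients of a difference -/
theorem Dg.coeff_sh_sub [Fintype ι] {P : MvPolynomial ι ℚ} {n : ℤ} (h : Dg P n) (e : ι → ℚ)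
    {s : ι →₀ ℕ} (hs : n ≤ (s.degree : ℤ) + 1) : coeff s (Tav.sh e P - P) =
      ∑ i, e i * (s i + 1) * coeff (s + Finsupp.single i 1) P := by
  have := h.taylor e s (by omega)
  rwa [coeff_sub, sub_eq_zero, coeff_dir] at this

end Pool.Agent.Tav
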