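import Pool.Agent.K.MP_e12fcd_ag.C35
import Pool.Agent.P.MP_e12fcd_ag.Cmh.Stmt
import Pool.Agent.P.MP_e12fcd_ag.Cmh.AutC

/-! Eigen-covectors of a ring of endomorphisms of a torus and their conjugates. -/

set_option autoImplicit false

noncomputable section

open Module Complex

namespace Pool.Agent.Tav.Hod

open Pool.Agent.Weil Pool.Agent.Cmh Pool.Agent.Ferm.PureA

variable {V : Type} [NormedAddCommGroup V] [NormedSpace ℂ V] {R Γ : Type} [CommRing R]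

/-- a basis of eigen-covectors with distinct characters, holomorphic exactly on `Φ` -/
structure Eig (Λ : Submodule ℤ V) (act : R →+* (V →L[ℂ] V)) (χ : Γ → R →+* ℂ) (Φ : Set Γ)
    (ξ : Basis Γ ℂ (Cov V)) : Prop where
  lat : IsLat Λ.toAddSubgroup
  keep : ∀ a, ∀ l ∈ Λ, act a l ∈ Λ
  inj : Function.Injective χ
  eig : ∀ ρ a v, ξ ρ (act a v) = χ ρ a * ξ ρ v
  hol : ∀ ρ ∈ Φ, ∀ v, ξ ρ (I • v) = I * ξ ρ v
  anti : ∀ ρ ∉ Φ, ∀ v, ξ ρ (I • v) = -I * ξ ρ v

/-- the conjugate of a covector -/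
def gal {n : ℕ} (b : Basis (Fin n) ℝ V) (σ : ℂ ≃+* ℂ) (η : Cov V) : Cov V :=
  ∑ j, σ (η (b j)) • crd b j

variable {n : ℕ} {b : Basis (Fin n) ℝ V}

theorem crd_b (i j : Fin n) : crd b i (b j) = if j = i then 1 else 0 := by
  rw [crd_apply, b.repr_self, Finsupp.single_apply]
  split_ifs <;> simp

theorem gal_b (σ : ℂ ≃+* ℂ) (η : Cov V) (j : Fin n) : gal b σ η (b j) = σ (η (b j)) := by
  simp [gal, crd_b]

theorem gal_crd (σ : ℂ ≃+* ℂ) (i : Fin n) : gal b σ (crd b i) = crd b i :=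
  cov_ext b fun j => by rw [gal_b, crd_b]; split_ifs <;> simp

theorem gal_sum {ι : Type} [Fintype ι] (σ : ℂ ≃+* ℂ) (c : ι → ℂ) (η : ι → Cov V) :
    gal b σ (∑ i, c i • η i) = ∑ i, σ (c i) • gal b σ (η i) :=
  cov_ext b fun j => by simp [gal_b]

theorem gal_lat {Λ : Submodule ℤ V} (hb : ∀ v, v ∈ Λ ↔ ∀ i, ∃ z : ℤ, b.repr v i = z)
    (σ : ℂ ≃+* ℂ) (η : Cov V) {l : V} (hl : l ∈ Λ) : gal b σ η l = σ (η l) := by
  choose z hz using (hb l).1 hl
  conv_rhs => rw [eq_sum_crd b η]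
  simp [gal, crd_apply, hz]

theorem b_mem {Λ : Submodule ℤ V} (hb : ∀ v, v ∈ Λ ↔ ∀ i, ∃ z : ℤ, b.repr v i = z) (j : Fin n) :
    b j ∈ Λ := (hb _).2 fun i => by
  by_cases hij : j = i
  · exact ⟨1, by simp [hij]⟩
  · exact ⟨0, by simp [hij]⟩

theorem gal_star (η : Cov V) (v : V) :
    gal b (starRingAut : ℂ ≃+* ℂ) η v = (starRingEnd ℂ) (η v) := by
  conv_rhs => rw [eq_sum_crd b η]
  simp [gal, crd_apply]

theorem expand {m : ℕ} (b : Basis (Fin n) ℝ V) (T : HomC V m) (η : Fin m ⊕ Fin m → Cov V) :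
    T η = ∑ J : Fin m ⊕ Fin m → Fin n, (∏ a, η a (b (J a))) * T fun a => crd b (J a) := by
  have e : η = fun a => ∑ j, η a (b j) • crd b j := funext fun a => eq_sum_crd b (η a)
  conv_lhs => rw [e]
  refine (T.toMultilinearMap.map_sum fun a j => η a (b j) • crd b j).trans ?_
  exact Finset.sum_congr rfl fun J _ =>
    T.map_smul_univ (fun a => η a (b (J a))) fun a => crd b (J a)

variable [Fintype Γ] {Λ : Submodule ℤ V} {act : R →+* (V →L[ℂ] V)} {χ : Γ → R →+* ℂ} {Φ : Set Γ}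
  {ξ : Basis Γ ℂ (Cov V)}

theorem cov_zero {c : Γ → ℂ} (ξ : Basis Γ ℂ (Cov V)) (h : ∀ v, ∑ ρ, c ρ * ξ ρ v = 0) (ρ : Γ) :
    c ρ = 0 :=
  Fintype.linearIndependent_iff.1 ξ.linearIndependent c (by ext v; simpa using h v) ρ

theorem cov_apply (ξ : Basis Γ ℂ (Cov V)) (η : Cov V) (v : V) :
    η v = ∑ ρ, ξ.repr η ρ * ξ ρ v := by
  have := (DFunLike.congr_fun (ξ.sum_repr η) v).symm
  rwa [sum_apply] at this

theorem sep_pts (ξ : Basis Γ ℂ (Cov V)) (b : Basis (Fin n) ℝ V) {v : V} (h : ∀ ρ, ξ ρ v = 0) :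
    v = 0 := by
  refine b.ext_elem fun j => ?_
  have := cov_apply ξ (crd b j) v
  simp only [h, mul_zero, Finset.sum_const_zero, crd_apply, ofReal_eq_zero] at this
  simpa using this

/-- an eigen-covector is a multiple of a member of the basis -/
theorem Eig.of_eig (h : Eig Λ act χ Φ ξ) {η : Cov V} (h0 : η ≠ 0) {ψ : R →+* ℂ}
    (he : ∀ a v, η (act a v) = ψ a * η v) :
    ∃ (ρ : Γ) (c : ℂ), c ≠ 0 ∧ χ ρ = ψ ∧ η = c • ξ ρ := by
  classical
  have key : ∀ ρ, ξ.repr η ρ ≠ 0 → χ ρ = ψ := fun ρ hρ => RingHom.ext fun a => by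
    have := cov_zero (c := fun ρ => ξ.repr η ρ * (χ ρ a - ψ a)) ξ (fun v => by
      have h1 := he a v
      rw [cov_apply ξ η, cov_apply ξ η v, Finset.mul_sum, ← sub_eq_zero,
        ← Finset.sum_sub_distrib] at h1
      rw [← h1]
      exact Finset.sum_congr rfl fun ρ _ => by rw [h.eig]; ring) ρ
    exact sub_eq_zero.1 ((mul_eq_zero.1 this).resolve_left hρ)
  obtain ⟨ρ, hρ⟩ : ∃ ρ, ξ.repr η ρ ≠ 0 := by
    by_contra hn
    push Not at hn
    exact h0 (ξ.ext_elem fun ρ => by simp [hn])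
  refine ⟨ρ, _, hρ, key ρ hρ, ?_⟩
  conv_lhs => rw [← ξ.sum_repr η]
  refine Finset.sum_eq_single ρ (fun ρ' _ hne => ?_) (by simp)
  by_cases h' : ξ.repr η ρ' = 0
  · rw [h', zero_smul]
  · exact absurd (h.inj ((key ρ' h').trans (key ρ hρ).symm)) hne

theorem Eig.gal (h : Eig Λ act χ Φ ξ) (hb : ∀ v, v ∈ Λ ↔ ∀ i, ∃ z : ℤ, b.repr v i = z)
    (σ : ℂ ≃+* ℂ) : ∃ (s : Γ ≃ Γ) (c : Γ → ℂ), (∀ ρ a, χ (s ρ) a = σ (χ ρ a)) ∧ (∀ ρ, c ρ ≠ 0) ∧
      (∀ ρ, gal b σ (ξ ρ) = c ρ • ξ (s ρ)) ∧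
      ∀ ρ j, ξ.repr (crd b j) (s ρ) = σ (ξ.repr (crd b j) ρ) * c ρ := by
  classical
  have h1 : ∀ ρ, ∃ (ρ' : Γ) (c : ℂ), c ≠ 0 ∧ χ ρ' = σ.toRingHom.comp (χ ρ) ∧
      Hod.gal b σ (ξ ρ) = c • ξ ρ' :=
    fun ρ => h.of_eig (fun h0 => ξ.ne_zero ρ (cov_ext b fun j => by
      have := gal_b (b := b) σ (ξ ρ) j
      rw [h0] at this
      simpa using this.symm)) fun a v => by
      have : (Hod.gal b σ (ξ ρ)).comp ((act a).restrictScalars ℝ) =
          σ (χ ρ a) • Hod.gal b σ (ξ ρ) := cov_ext b fun j => by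
        simp [gal_lat hb σ _ (h.keep a _ (b_mem hb j)), h.eig, gal_b]
      simpa using DFunLike.congr_fun this v
  choose s c hc hs he using h1
  have hi : Function.Injective s := fun ρ ρ' e => h.inj (RingHom.ext fun a => σ.injective (by
    have h1 := DFunLike.congr_fun (hs ρ) a
    have h2 := DFunLike.congr_fun (hs ρ') a
    rw [e] at h1
    exact h1.symm.trans h2))
  refine ⟨Equiv.ofBijective s (Finite.injective_iff_bijective.1 hi), c,
    fun ρ a => DFunLike.congr_fun (hs ρ) a, hc, he, fun ρ j => ?_⟩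
  have h2 : crd b j = ∑ ρ, (σ (ξ.repr (crd b j) ρ) * c ρ) • ξ (s ρ) := by
    conv_lhs => rw [← gal_crd σ j, ← ξ.sum_repr (crd b j), gal_sum]
    exact Finset.sum_congr rfl fun ρ _ => by rw [he, smul_smul]
  rw [Equiv.ofBijective_apply]
  conv_lhs => rw [h2]
  simp [Finsupp.single_apply, hi.eq_iff]

/-- every automorphism of `ℂ` permutes the characters -/
theorem Eig.perm (h : Eig Λ act χ Φ ξ) (σ : ℂ ≃+* ℂ) :
    ∃ s : Γ ≃ Γ, ∀ ρ a, χ (s ρ) a = σ (χ ρ a) := by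
  obtain ⟨n, b, hb⟩ := h.lat.exists_basis
  obtain ⟨s, -, hs, -⟩ := h.gal (b := b) hb σ
  exact ⟨s, hs⟩

omit [Fintype Γ] in
theorem Eig.uniq (h : Eig Λ act χ Φ ξ) {σ : ℂ ≃+* ℂ} {s s' : Γ → Γ}
    (hs : ∀ ρ a, χ (s ρ) a = σ (χ ρ a)) (hs' : ∀ ρ a, χ (s' ρ) a = σ (χ ρ a)) : s = s' :=
  funext fun ρ => h.inj (RingHom.ext fun a => (hs ρ a).trans (hs' ρ a).symm)

theorem Eig.repr_hol (h : Eig Λ act χ Φ ξ) {η : Cov V} (hη : ∀ v, η (I • v) = I * η v) {ρ : Γ}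
    (hρ : ρ ∉ Φ) : ξ.repr η ρ = 0 := by
  classical
  have := cov_zero (c := fun ρ => if ρ ∈ Φ then 0 else 2 * I * ξ.repr η ρ) ξ (fun v => by
    have h1 := hη v
    rw [cov_apply ξ η, cov_apply ξ η v, Finset.mul_sum, eq_comm, ← sub_eq_zero,
      ← Finset.sum_sub_distrib] at h1
    refine (Finset.sum_congr rfl fun ρ _ => ?_).trans h1
    split_ifs with hρ
    · rw [h.hol ρ hρ]; ring
    · rw [h.anti ρ hρ]; ring) ρ
  simpa [hρ] using this

/-- complex conjugation exchanges the two types -/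
theorem Eig.bar_iff (h : Eig Λ act χ Φ ξ) {ρ ρ' : Γ}
    (hρ : ∀ a, χ ρ' a = (starRingEnd ℂ) (χ ρ a)) : ρ' ∈ Φ ↔ ρ ∉ Φ := by
  obtain ⟨n, b, hb⟩ := h.lat.exists_basis
  obtain ⟨s, c, hs, hc, he, -⟩ := h.gal (b := b) hb (starRingAut : ℂ ≃+* ℂ)
  obtain rfl : ρ' = s ρ := h.inj (RingHom.ext fun a => (hρ a).trans (hs ρ a).symm)
  have h1 : ∀ v, (starRingEnd ℂ) (ξ ρ v) = c ρ * ξ (s ρ) v := fun v => by
    rw [← gal_star (b := b), he]; rfl
  obtain ⟨v, hv⟩ : ∃ v, ξ (s ρ) v ≠ 0 := by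
    by_contra hn
    push Not at hn
    exact ξ.ne_zero _ (ContinuousLinearMap.ext hn)
  have h2 := h1 (I • v)
  have h3 : I * (c ρ * ξ (s ρ) v) ≠ 0 := mul_ne_zero I_ne_zero (mul_ne_zero (hc ρ) hv)
  constructor
  · intro p q
    rw [h.hol _ p, h.hol _ q, map_mul, h1, conj_I] at h2
    exact h3 (by linear_combination (-1 / 2 : ℂ) * h2)
  · intro q
    by_contra p
    rw [h.anti _ p, h.anti _ q, map_mul, h1, map_neg, conj_I] at h2
    exact h3 (by linear_combination (1 / 2 : ℂ) * h2)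

/-- every conjugate of the family `J` has exactly `m` holomorphic members -/
def Bal (χ : Γ → R →+* ℂ) (Φ : Set Γ) {m : ℕ} (J : Fin m ⊕ Fin m → Γ) : Prop :=
  ∀ (σ : ℂ ≃+* ℂ) (s : Γ → Γ), (∀ ρ a, χ (s ρ) a = σ (χ ρ a)) → {a | s (J a) ∈ Φ}.ncard ≤ m

/-- the class dual to the family `J` -/
def dual (ξ : Basis Γ ℂ (Cov V)) {m : ℕ} (J : Fin m ⊕ Fin m → Γ) : HomC V m :=
  Matrix.detRowAlternating.compLinearMap (LinearMap.pi fun a => ξ.coord (J a))

omit [Fintype Γ] in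
theorem dual_apply {m : ℕ} (J : Fin m ⊕ Fin m → Γ) (η : Fin m ⊕ Fin m → Cov V) :
    dual ξ J η = (Matrix.of fun a a' => ξ.repr (η a) (J a')).det := rfl

theorem Eig.dual_hodge (h : Eig Λ act χ Φ ξ) {m : ℕ} {J : Fin m ⊕ Fin m → Γ} (hJ : Bal χ Φ J) :
    IsHodgeType (dual ξ J) := by
  classical
  intro η S hS hη
  rw [dual_apply, Matrix.det_apply']
  refine Finset.sum_eq_zero fun π _ => mul_eq_zero_of_right _ ?_
  by_contra hn
  have h1 := Finset.prod_ne_zero_iff.1 hn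
  have h2 : (S.image π.symm : Set _) ⊆ {a | J a ∈ Φ} := by
    intro a ha
    obtain ⟨a', ha', rfl⟩ := Finset.mem_image.1 ha
    by_contra hc
    exact h1 (π.symm a') (Finset.mem_univ _) (by simpa using h.repr_hol (hη a' ha') hc)
  have h3 := Set.ncard_le_ncard h2 (Set.toFinite _)
  rw [Set.ncard_coe_finset, Finset.card_image_of_injective _ π.symm.injective] at h3
  have h4 := hJ (RingEquiv.refl ℂ) id fun _ _ => rfl
  simp only [id] at h4
  omega

/-- a balanced family is seen by a rational class of Hodge type -/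
theorem Eig.exists_class (h : Eig Λ act χ Φ ξ) {m : ℕ} {J : Fin m ⊕ Fin m → Γ}
    (hi : Function.Injective J) (hJ : Bal χ Φ J) :
    ∃ T : HomC V m, IsRationalClass Λ T ∧ IsHodgeType T ∧ T (fun a => ξ (J a)) ≠ 0 := by
  classical
  obtain ⟨n, b, hb⟩ := h.lat.exists_basis
  let L : HomC V m →ₗ[ℂ] ((Fin m ⊕ Fin m → Fin n) → ℂ) :=
    { toFun := fun T K => T fun a => crd b (K a)
      map_add' := fun _ _ => rfl
      map_smul' := fun _ _ => rfl }
  let W : Submodule ℂ (HomC V m) := Submodule.span ℂ {T | ∃ J', Bal χ Φ J' ∧ T = dual ξ J'}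
  have hW : ∀ T ∈ W, IsHodgeType T := fun T hT => by
    induction hT using Submodule.span_induction with
    | mem T hT => obtain ⟨J', hJ', rfl⟩ := hT; exact h.dual_hodge hJ'
    | zero => exact fun _ _ _ _ => rfl
    | add T T' _ _ h1 h2 =>
      exact fun η S hS hη => by rw [AlternatingMap.add_apply, h1 η S hS hη, h2 η S hS hη, add_zero]
    | smul c T _ h1 =>
      exact fun η S hS hη => by rw [AlternatingMap.smul_apply, h1 η S hS hη, smul_zero]
  have hst : ∀ σ : ℂ ≃+* ℂ, ∀ T ∈ W, (fun K => σ (L T K)) ∈ W.map L := fun σ T hT => by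
    induction hT using Submodule.span_induction with
    | mem T hT =>
      obtain ⟨J', hJ', rfl⟩ := hT
      obtain ⟨s, c, hs, hc, -, hr⟩ := h.gal (b := b) hb σ
      refine ⟨(∏ a, (c (J' a))⁻¹) • dual ξ (s ∘ J'), W.smul_mem _ (Submodule.subset_span
        ⟨_, fun σ' s' hs' => hJ' (σ.trans σ') (s' ∘ s) fun ρ a => by simp [hs, hs'], rfl⟩), ?_⟩
      funext K
      change (∏ a, (c (J' a))⁻¹) * dual ξ (s ∘ J') _ = σ (dual ξ J' _)
      rw [dual_apply, dual_apply, RingEquiv.map_det, ← Matrix.det_mul_row]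
      refine congrArg Matrix.det (Matrix.ext fun a a' => ?_)
      have := hc (J' a')
      simp only [Matrix.of_apply, Function.comp, hr, RingEquiv.mapMatrix_apply, Matrix.map_apply]
      field_simp
    | zero => exact ⟨0, W.zero_mem, by funext K; simp⟩
    | add T T' _ _ h1 h2 =>
      have e : (fun K => σ (L (T + T') K)) = (fun K => σ (L T K)) + fun K => σ (L T' K) := by
        funext K; simp
      exact e ▸ Submodule.add_mem _ h1 h2
    | smul c T _ h1 =>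
      have e : (fun K => σ (L (c • T) K)) = σ c • fun K => σ (L T K) := by
        funext K; simp
      exact e ▸ Submodule.smul_mem _ (σ c) h1
  have hd := descent (Rat.castHom ℂ) (W.map L) (by
    rintro σ - _ ⟨T, hT, rfl⟩
    exact hst σ T hT) (Submodule.mem_map_of_mem (Submodule.subset_span ⟨J, hJ, rfl⟩))
  by_contra hn
  push Not at hn
  let F : ((Fin m ⊕ Fin m → Fin n) → ℂ) →ₗ[ℂ] ℂ :=
    ∑ K, (∏ a, ξ (J a) (b (K a))) • LinearMap.proj K
  have hF : ∀ T, F (L T) = T fun a => ξ (J a) := fun T => by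
    rw [expand b T]
    simp [F, L]
  have h0 : Submodule.span ℂ {u | u ∈ W.map L ∧ ∃ e : _ → ℚ, u = fun i => Rat.castHom ℂ (e i)} ≤
      LinearMap.ker F := Submodule.span_le.2 (by
    rintro _ ⟨⟨T, hT, rfl⟩, e, he⟩
    refine (hF T).trans (hn T (fun η hη => ?_) (hW T hT))
    choose r hr using fun a j => hη a _ (b_mem hb j)
    refine ⟨∑ K, (∏ a, r a (K a)) * e K, ?_⟩
    rw [expand b T]
    push_cast
    exact Finset.sum_congr rfl fun K _ => by
      simp only [hr]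
      exact congrArg _ (congrFun he K))
  have h1 := (hF _).symm.trans (h0 hd)
  rw [dual_apply] at h1
  have h2 : (Matrix.of fun a a' => ξ.repr (ξ (J a)) (J a')) = 1 := Matrix.ext fun a a' => by
    simp [Finsupp.single_apply, hi.eq_iff, Matrix.one_apply]
  rw [h2, Matrix.det_one] at h1
  exact one_ne_zero h1

end Pool.Agent.Tav.Hod
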