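import Pool.Agent.P.MP_2ce3e7_ag.Tav.HodA

/-! Complex multiplication, conjugate pairs and products for eigen-covectors. -/

set_option autoImplicit false

noncomputable section

open Module Complex

namespace Pool.Agent.Tav.Hod

open Pool.Agent.Weil Pool.Agent.Cmh Pool.Agent.Ferm.PureA

variable {V : Type} [NormedAddCommGroup V] [NormedSpace ℂ V] {R Γ : Type} [CommRing R]
  [Fintype Γ] {Λ : Submodule ℤ V} {act : R →+* (V →L[ℂ] V)} {χ : Γ → R →+* ℂ} {Φ : Set Γ}
  {ξ : Basis Γ ℂ (Cov V)}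

theorem cov_zero₂ {q : Γ → Γ → ℂ} (ξ : Basis Γ ℂ (Cov V))
    (h : ∀ v w, ∑ ρ, ∑ ρ', q ρ ρ' * (ξ ρ v * ξ ρ' w) = 0) (ρ ρ' : Γ) : q ρ ρ' = 0 :=
  cov_zero (c := q ρ) ξ (fun w => cov_zero (c := fun ρ => ∑ ρ', q ρ ρ' * ξ ρ' w) ξ (fun v => by
    refine (Finset.sum_congr rfl fun ρ _ => ?_).trans (h v w)
    rw [Finset.sum_mul]
    exact Finset.sum_congr rfl fun _ _ => by ring) ρ) ρ'

/-- the conjugates of a pair of complex conjugate characters have different types -/
theorem Eig.bar_types (h : Eig Λ act χ Φ ξ) (hA : IsAbelian Λ) {ρ ρ' : Γ}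
    (hρ : ∀ a, χ ρ' a = (starRingEnd ℂ) (χ ρ a)) (σ : ℂ ≃+* ℂ) {s : Γ → Γ}
    (hs : ∀ ρ a, χ (s ρ) a = σ (χ ρ a)) : s ρ' ∈ Φ ↔ s ρ ∉ Φ := by
  classical
  obtain ⟨n, b, hb⟩ := h.lat.exists_basis
  obtain ⟨ψ, -, hint, hI, hpos⟩ := hA
  choose z hz using fun j l => hint _ (b_mem hb j) _ (b_mem hb l)
  let x : Γ → Fin n → ℂ := fun ρ j => ξ.repr (crd b j) ρ
  let p : Γ → Γ → ℂ := fun ρ ρ' => ∑ j, ∑ l, z j l * (x ρ j * x ρ' l)
  have hψ : ∀ v w, (ψ v w : ℂ) = ∑ ρ, ∑ ρ', p ρ ρ' * (ξ ρ v * ξ ρ' w) := fun v w => by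
    have e : (ψ v w : ℂ) = ∑ j, ∑ l, z j l * (crd b j v * crd b l w) := by
      conv_lhs => rw [← b.sum_repr v, ← b.sum_repr w]
      simp only [map_sum, map_smul, LinearMap.sum_apply, LinearMap.smul_apply, hz, crd_apply,
        smul_eq_mul]
      push_cast
      simp only [Finset.mul_sum]
      rw [Finset.sum_comm]
      exact Finset.sum_congr rfl fun _ _ => Finset.sum_congr rfl fun _ _ => by ring
    simp only [e, cov_apply ξ (crd b _), p, x, Finset.sum_mul, Finset.mul_sum]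
    rw [Finset.sum_congr rfl fun j _ => Finset.sum_comm, Finset.sum_comm,
      Finset.sum_congr rfl fun ρ' _ => Finset.sum_congr rfl fun j _ => Finset.sum_comm,
      Finset.sum_congr rfl fun ρ' _ => Finset.sum_comm, Finset.sum_comm]
    exact Finset.sum_congr rfl fun _ _ => Finset.sum_congr rfl fun _ _ =>
      Finset.sum_congr rfl fun _ _ => Finset.sum_congr rfl fun _ _ => by ring
  have hty : ∀ ρ ρ', (ρ ∈ Φ ↔ ρ' ∈ Φ) → p ρ ρ' = 0 := fun ρ ρ' hh => by
    have := cov_zero₂ (q := fun ρ ρ' => if (ρ ∈ Φ ↔ ρ' ∈ Φ) then 2 * p ρ ρ' else 0) ξ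
      (fun v w => by
        have h1 := congrArg (fun t : ℝ => (t : ℂ)) (hI v w)
        simp only [hψ] at h1
        rw [eq_comm, ← sub_eq_zero, ← Finset.sum_sub_distrib] at h1
        refine (Finset.sum_congr rfl fun ρ _ => ?_).trans h1
        rw [← Finset.sum_sub_distrib]
        refine Finset.sum_congr rfl fun ρ' _ => ?_
        by_cases h1 : ρ ∈ Φ <;> by_cases h2 : ρ' ∈ Φ
        · rw [if_pos (by tauto), h.hol _ h1, h.hol _ h2]
          linear_combination (p ρ ρ' * ξ ρ v * ξ ρ' w) * I_mul_I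
        · rw [if_neg (by tauto), h.hol _ h1, h.anti _ h2]
          linear_combination -(p ρ ρ' * ξ ρ v * ξ ρ' w) * I_mul_I
        · rw [if_neg (by tauto), h.anti _ h1, h.hol _ h2]
          linear_combination -(p ρ ρ' * ξ ρ v * ξ ρ' w) * I_mul_I
        · rw [if_pos (by tauto), h.anti _ h1, h.anti _ h2]
          linear_combination (p ρ ρ' * ξ ρ v * ξ ρ' w) * I_mul_I) ρ ρ'
    simpa [hh] using this
  have hne : p ρ ρ' ≠ 0 ∨ p ρ' ρ ≠ 0 := by
    obtain ⟨t, c, ht, hc, -, hr⟩ := h.gal (b := b) hb (starRingAut : ℂ ≃+* ℂ)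
    obtain rfl : ρ' = t ρ := h.inj (RingHom.ext fun a => (hρ a).trans (ht ρ a).symm)
    have hne : t ρ ≠ ρ := fun e => by
      have := h.bar_iff hρ
      rw [e] at this
      tauto
    have hx : ∀ ρ₁ ρ₂, ∑ j, x ρ₁ j * ξ ρ₂ (b j) = if ρ₂ = ρ₁ then 1 else 0 := fun ρ₁ ρ₂ => by
      have := congrArg (fun η => ξ.repr η ρ₁) (eq_sum_crd b (ξ ρ₂))
      simp only [Basis.repr_self, Finsupp.single_apply, map_sum, map_smul, Finsupp.coe_finsetSum,
        Finset.sum_apply, Finsupp.smul_apply, smul_eq_mul] at this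
      rw [this]
      exact Finset.sum_congr rfl fun _ _ => mul_comm _ _
    let v : V := ∑ j, (2 * (x ρ j).re) • b j
    have hv : ∀ ρ₂, ξ ρ₂ v = (if ρ₂ = ρ then 1 else 0) + (c ρ)⁻¹ * if ρ₂ = t ρ then 1 else 0 :=
      fun ρ₂ => by
      rw [← hx, ← hx, Finset.mul_sum, ← Finset.sum_add_distrib, map_sum]
      refine Finset.sum_congr rfl fun j _ => ?_
      have h1 : x (t ρ) j = (starRingEnd ℂ) (x ρ j) * c ρ := hr ρ j
      have h2 := hc ρ
      rw [map_smul, real_smul, ← add_conj, h1]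
      field_simp
    have hv0 : v ≠ 0 := fun e => by
      have := hv ρ
      rw [e] at this
      simp [hne.symm] at this
    by_contra hn
    push Not at hn
    have h1 := hψ (I • v) v
    rw [Finset.sum_eq_zero fun ρ₁ _ => Finset.sum_eq_zero fun ρ₂ _ => ?_] at h1
    · exact (hpos v hv0).ne' (ofReal_eq_zero.1 h1)
    · by_cases e1 : ρ₁ = ρ ∨ ρ₁ = t ρ
      · by_cases e2 : ρ₂ = ρ ∨ ρ₂ = t ρ
        · refine mul_eq_zero_of_left ?_ _
          rcases e1 with rfl | rfl <;> rcases e2 with rfl | rfl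
          exacts [hty _ _ Iff.rfl, hn.1, hn.2, hty _ _ Iff.rfl]
        · push Not at e2
          simp [hv ρ₂, e2.1, e2.2]
      · push Not at e1
        by_cases h1 : ρ₁ ∈ Φ
        · simp [h.hol _ h1, hv ρ₁, e1.1, e1.2]
        · simp [h.anti _ h1, hv ρ₁, e1.1, e1.2]
  obtain ⟨t, c, ht, hc, -, hr⟩ := h.gal (b := b) hb σ
  obtain rfl : s = t := h.uniq hs ht
  have hp : ∀ ρ₁ ρ₂, p (t ρ₁) (t ρ₂) = σ (p ρ₁ ρ₂) * (c ρ₁ * c ρ₂) := fun ρ₁ ρ₂ => by
    simp only [p, x, hr, map_sum, map_mul, map_intCast, Finset.sum_mul]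
    exact Finset.sum_congr rfl fun _ _ => Finset.sum_congr rfl fun _ _ => by ring
  have h2 : ∀ ρ₁ ρ₂, p ρ₁ ρ₂ ≠ 0 → ¬ (t ρ₁ ∈ Φ ↔ t ρ₂ ∈ Φ) := fun ρ₁ ρ₂ h0 hh =>
    mul_ne_zero (σ.map_ne_zero_iff.2 h0) (mul_ne_zero (hc _) (hc _))
      ((hp _ _).symm.trans (hty _ _ hh))
  rcases hne with h0 | h0
  · have := h2 _ _ h0
    tauto
  · have := h2 _ _ h0
    tauto

theorem Eig.card (h : Eig Λ act χ Φ ξ) [FiniteDimensional ℂ V] :
    Fintype.card Γ = 2 * finrank ℂ V := by
  obtain ⟨n, b, -⟩ := h.lat.exists_basis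
  have h1 : finrank ℂ (Cov V) = n := by
    let B : Basis (Fin n) ℂ (Cov V) := Basis.mk (v := crd b)
      (Fintype.linearIndependent_iff.2 fun g hg i => by
        simpa [crd_b] using DFunLike.congr_fun hg (b i))
      fun η _ => by
        rw [eq_sum_crd b η]
        exact Submodule.sum_mem _ fun i _ => Submodule.smul_mem _ _ (Submodule.subset_span ⟨i, rfl⟩)
    rw [finrank_eq_card_basis B, Fintype.card_fin]
  rw [← finrank_eq_card_basis ξ, h1, ← finrank_real_of_complex, finrank_eq_card_basis b,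
    Fintype.card_fin]

theorem split_alg (A : Type) [CommRing A] [Algebra ℚ A] [Module.Finite ℚ A] [IsReduced A] :
    ∃ (k : ℕ) (K : Fin k → Type) (_ : ∀ i, Field (K i)) (_ : ∀ i, NumberField (K i))
      (_ : A ≃+* ∀ i, K i), ∑ i, finrank ℚ (K i) = finrank ℚ A := by
  have : IsArtinianRing A := IsArtinianRing.of_finite ℚ A
  obtain ⟨k, ⟨e⟩⟩ := Finite.exists_equiv_fin (MaximalSpectrum A)
  have key : ∀ (B : Type) [Field B] (f : A →+* B), Function.Surjective f → NumberField B :=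
    fun B _ f hf => by
    have : CharZero B := charZero_of_injective_ringHom (f.comp (algebraMap ℚ A)).injective
    exact { to_finiteDimensional :=
      Module.Finite.of_surjective f.toAddMonoidHom.toRatLinearMap hf }
  have fin : ∀ (K : Fin k → Type) [∀ i, Field (K i)] [∀ i, NumberField (K i)]
      (E : A ≃+* ∀ i, K i), ∑ i, finrank ℚ (K i) = finrank ℚ A := fun K _ _ E => by
    rw [← Module.finrank_pi_fintype]
    exact (E.toAddEquiv.toLinearEquiv (map_rat_smul E.toAddEquiv)).finrank_eq.symm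
  let E : A ≃+* ∀ i, A ⧸ (e.symm i).asIdeal := (IsArtinianRing.equivPi A).toRingEquiv.trans
    (RingEquiv.piCongrLeft' (fun m : MaximalSpectrum A => A ⧸ m.asIdeal) e)
  exact ⟨k, fun i => A ⧸ (e.symm i).asIdeal, fun i => Ideal.Quotient.field _,
    fun i => @key _ (Ideal.Quotient.field _) (Ideal.Quotient.mk _) Ideal.Quotient.mk_surjective,
    E, @fin _ (fun i => Ideal.Quotient.field _) (fun i => @key _ (Ideal.Quotient.field _)
      (Ideal.Quotient.mk _) Ideal.Quotient.mk_surjective) E⟩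

/-- the torus has complex multiplication -/
theorem Eig.isCM (h : Eig Λ act χ Φ ξ) [FiniteDimensional ℂ V] : IsCM Λ := by
  classical
  obtain ⟨n, b, hb⟩ := h.lat.exists_basis
  let D : R →+* (Γ → ℂ) := RingHom.pi χ
  let A : Subalgebra ℚ (Γ → ℂ) :=
    { carrier := {d | ∃ (N : ℕ) (a : R), N ≠ 0 ∧ (N : Γ → ℂ) * d = D a}
      mul_mem' := by
        rintro d d' ⟨N, a, hN, e⟩ ⟨N', a', hN', e'⟩
        exact ⟨N * N', a * a', mul_ne_zero hN hN', by
          rw [map_mul, ← e, ← e']; push_cast; ring⟩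
      add_mem' := by
        rintro d d' ⟨N, a, hN, e⟩ ⟨N', a', hN', e'⟩
        exact ⟨N * N', N' * a + N * a', mul_ne_zero hN hN', by
          rw [map_add, map_mul, map_mul, map_natCast, map_natCast, ← e, ← e']; push_cast; ring⟩
      algebraMap_mem' := fun r => ⟨r.den, r.num, r.den_nz, by
        rw [map_intCast]
        funext ρ
        change (r.den : ℂ) * (r : ℂ) = (r.num : ℂ)
        exact_mod_cast Rat.den_mul_eq_num r⟩ }
  have hop : ∀ d : A, ∃ x : V →L[ℂ] V, (∀ ρ v, ξ ρ (x v) = d.1 ρ * ξ ρ v) ∧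
      ∃ N : ℕ, N ≠ 0 ∧ ∀ l ∈ Λ, N • x l ∈ Λ := by
    rintro ⟨d, N, a, hN, e⟩
    have hN' : (N : ℂ) ≠ 0 := Nat.cast_ne_zero.2 hN
    refine ⟨((N : ℝ)⁻¹ : ℝ) • act a, fun ρ v => ?_, N, hN, fun l hl => ?_⟩
    · have h1 : (N : ℂ) * d ρ = χ ρ a := congrFun e ρ
      rw [smul_apply, map_smul, h.eig, ← h1, real_smul]
      push_cast
      field_simp
    · rw [smul_apply, ← Nat.cast_smul_eq_nsmul ℝ, smul_smul,
        mul_inv_cancel₀ (Nat.cast_ne_zero.2 hN), one_smul]
      exact h.keep a l hl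
  choose op hop hN using hop
  have ext : ∀ x y : V →L[ℂ] V, (∀ ρ v, ξ ρ (x v) = ξ ρ (y v)) → x = y := fun x y e =>
    ContinuousLinearMap.ext fun v => sub_eq_zero.1 (sep_pts ξ b fun ρ => by rw [map_sub, e, sub_self])
  let θ : A →+* (V →L[ℂ] V) :=
    { toFun := op
      map_one' := ext _ _ fun ρ v => by simp [hop]
      map_mul' := fun d d' => ext _ _ fun ρ v => by simp [hop, mul_assoc]
      map_zero' := ext _ _ fun ρ v => by simp [hop]
      map_add' := fun d d' => ext _ _ fun ρ v => by simp [hop, add_mul] }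
  have hθ : Function.Injective θ := (injective_iff_map_eq_zero θ).2 fun d hd => by
    refine Subtype.ext (funext fun ρ => ?_)
    by_contra hn
    refine ξ.ne_zero ρ (ContinuousLinearMap.ext fun v => ?_)
    have h1 := hop d ρ v
    rw [show op d = 0 from hd] at h1
    simpa [show d.1 ρ ≠ 0 from hn] using h1
  have hrat : ∀ (d : A) j l, ∃ r : ℚ, crd b j (op d (b l)) = r := fun d j l => by
    obtain ⟨N, h0, h1⟩ := hN d
    obtain ⟨z, hz⟩ := (hb _).1 (h1 _ (b_mem hb l)) j
    rw [map_nsmul, Finsupp.smul_apply, nsmul_eq_mul] at hz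
    have hN' : (N : ℝ) ≠ 0 := Nat.cast_ne_zero.2 h0
    refine ⟨z / N, ?_⟩
    rw [crd_apply, (eq_div_iff hN').2 ((mul_comm _ _).trans hz)]
    push_cast
    rfl
  choose M hM using hrat
  have hlin : ∀ {ι : Type} [Fintype ι] (d : ι → A) (c : ι → ℂ), ∑ i, c i • (d i).1 = 0 ↔
      ∀ j l, ∑ i, c i * M (d i) j l = 0 := fun d c => by
    have e : ∀ η : Cov V, ∀ v, ∑ i, c i * η (op (d i) v) =
        ∑ ρ, (ξ.repr η ρ * (∑ i, c i • (d i).1) ρ) * ξ ρ v := fun η v => by
      simp only [cov_apply ξ η (op _ _), hop, Finset.mul_sum, Finset.sum_apply, Finset.sum_mul,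
        Pi.smul_apply, smul_eq_mul]
      rw [Finset.sum_comm]
      exact Finset.sum_congr rfl fun _ _ => Finset.sum_congr rfl fun _ _ => by ring
    constructor
    · intro h0 j l
      simp only [← hM, e, h0]
      simp
    · intro h0
      funext ρ
      have h1 : ∀ l, ∑ i, c i * ξ ρ (op (d i) (b l)) = 0 := fun l => by
        have : ∀ w, ξ ρ w = ∑ j, ξ ρ (b j) * crd b j w := fun w => by
          have := DFunLike.congr_fun (eq_sum_crd b (ξ ρ)) w
          rwa [sum_apply] at this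
        simp only [this (op _ _), hM, Finset.mul_sum]
        rw [Finset.sum_comm]
        refine Finset.sum_eq_zero fun j _ => ?_
        rw [← mul_zero (ξ ρ (b j)), ← h0 j l, Finset.mul_sum]
        exact Finset.sum_congr rfl fun _ _ => by ring
      by_contra hn
      refine ξ.ne_zero ρ (cov_ext b fun l => ?_)
      have h2 := h1 l
      simp only [hop, ← mul_assoc, ← Finset.sum_mul] at h2
      refine (mul_eq_zero.1 h2).resolve_left fun h3 => hn ?_
      simpa using h3
  have hind : ∀ {ι : Type} [Fintype ι] (d : ι → A), LinearIndependent ℚ d →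
      LinearIndependent ℂ fun i => (d i).1 := fun {ι} _ d hd => by
    have h1 : LinearIndependent ℚ fun i (p : Fin n × Fin n) => M (d i) p.1 p.2 :=
      Fintype.linearIndependent_iff.2 fun q hq => Fintype.linearIndependent_iff.1 hd q (by
        refine Subtype.ext ?_
        have := (hlin d fun i => (q i : ℂ)).2 fun j l => by
          exact_mod_cast (by simpa using congrFun hq (j, l) : ∑ i, q i * M (d i) j l = 0)
        rw [ZeroMemClass.coe_zero, ← this, AddSubmonoidClass.coe_finsetSum]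
        exact Finset.sum_congr rfl fun i _ => by funext ρ; simp [Rat.smul_def])
    have h2 := (linearIndependent_algebraMap_comp_iff (S := ℂ)).2 h1
    refine Fintype.linearIndependent_iff.2 fun c hc => Fintype.linearIndependent_iff.1 h2 c ?_
    funext p
    simpa using (hlin d c).1 hc p.1 p.2
  have hrk : Module.rank ℚ A ≤ Fintype.card Γ := rank_le fun s hs => by
    simpa using (hind (fun i : s => (i : A)) hs).fintype_card_le_finrank
  have : Module.Finite ℚ A := Module.rank_lt_aleph0_iff.1 (hrk.trans_lt Cardinal.natCast_lt_aleph0)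
  have hfr : finrank ℚ A = Fintype.card Γ := by
    refine le_antisymm (finrank_le_of_rank_le hrk) ?_
    let B := Module.finBasis ℚ A
    have h1 : Submodule.span ℂ (Set.range fun i => (B i).1) = ⊤ := by
      by_contra hn
      obtain ⟨f, hf0, hf⟩ := Submodule.exists_le_ker_of_lt_top _ (lt_top_iff_ne_top.2 hn)
      have h2 : ∀ d : A, f d.1 = 0 := fun d => hf (by
        rw [← B.sum_repr d, AddSubmonoidClass.coe_finsetSum]
        refine Submodule.sum_mem _ fun i _ => ?_
        have : ((B.repr d i • B i : A) : Γ → ℂ) = (B.repr d i : ℂ) • (B i).1 := by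
          funext ρ; simp [Rat.smul_def]
        rw [this]
        exact Submodule.smul_mem _ _ (Submodule.subset_span ⟨i, rfl⟩))
      have h3 := Fintype.linearIndependent_iff.1 ((linearIndependent_monoidHom R ℂ).comp
        (fun ρ => (χ ρ : R →* ℂ)) fun ρ ρ' e => h.inj (RingHom.ext fun a => DFunLike.congr_fun e a))
        (fun ρ => f (Pi.single ρ 1)) (funext fun a => by
          have := h2 ⟨D a, 1, a, one_ne_zero, by simp⟩
          rw [LinearMap.pi_apply_eq_sum_univ] at this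
          rw [Pi.zero_apply, ← this, Finset.sum_apply]
          refine Finset.sum_congr rfl fun ρ _ => ?_
          change f (Pi.single ρ 1) * χ ρ a = χ ρ a * f fun j => if ρ = j then 1 else 0
          rw [mul_comm]
          refine congrArg _ (congrArg f (funext fun j => ?_))
          simp [Pi.single_apply, eq_comm])
      exact hf0 (LinearMap.pi_ext fun ρ x => by
        rw [show (Pi.single ρ x : Γ → ℂ) = x • Pi.single ρ 1 by
          funext j; simp [Pi.single_apply], map_smul, h3, smul_zero]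
        simp)
    simpa using finrank_le_of_span_eq_top h1
  have : IsReduced A := isReduced_of_injective A.val.toRingHom Subtype.val_injective
  obtain ⟨k, K, _, _, E, hE⟩ := split_alg A
  exact ⟨k, K, inferInstance, inferInstance, θ.comp E.symm.toRingHom, hθ.comp E.symm.injective,
    fun a => hN _, by rw [← h.card, ← hfr, hE]⟩

section Pi

variable {ι : Type} [Fintype ι] [DecidableEq ι] {W : ι → Type} [∀ i, NormedAddCommGroup (W i)]
  [∀ i, NormedSpace ℂ (W i)]

omit [DecidableEq ι] in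
theorem isAbelian_pi {L : ∀ i, Submodule ℤ (W i)} (h : ∀ i, IsAbelian (L i)) :
    IsAbelian (Submodule.pi Set.univ L) := by
  choose ψ h1 h2 h3 h4 using h
  refine ⟨∑ i, (ψ i).compl₁₂ (LinearMap.proj i) (LinearMap.proj i), fun v => by simp [h1],
    fun l hl l' hl' => ?_, fun v w => by simp [h3], fun v hv => ?_⟩
  · choose z hz using fun i => h2 i _ (hl i trivial) _ (hl' i trivial)
    exact ⟨∑ i, z i, by simp [hz]⟩
  · obtain ⟨i, hi⟩ := Function.ne_iff.1 hv
    simp only [LinearMap.sum_apply, LinearMap.compl₁₂_apply, LinearMap.proj_apply, Pi.smul_apply]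
    refine Finset.sum_pos' (fun j _ => ?_) ⟨i, Finset.mem_univ _, h4 i _ hi⟩
    by_cases hj : v j = 0
    · simp [hj]
    · exact (h4 j _ hj).le

/-- the componentwise action of a product of rings -/
def piAct {S : ι → Type} [∀ i, CommRing (S i)] (a : ∀ i, S i →+* (W i →L[ℂ] W i)) :
    (∀ i, S i) →+* ((∀ i, W i) →L[ℂ] ∀ i, W i) where
  toFun x := ContinuousLinearMap.pi fun i => (a i (x i)).comp (ContinuousLinearMap.proj i)
  map_one' := by ext; simp
  map_mul' _ _ := by ext; simp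
  map_zero' := by ext; simp
  map_add' _ _ := by ext; simp

omit [Fintype ι] [DecidableEq ι] in
theorem piAct_apply {S : ι → Type} [∀ i, CommRing (S i)] (a : ∀ i, S i →+* (W i →L[ℂ] W i))
    (x : ∀ i, S i) (v : ∀ i, W i) (i : ι) : piAct a x v i = a i (x i) (v i) := rfl

/-- the characters of a product of rings -/
def piChi {S G : ι → Type} [∀ i, CommRing (S i)] (c : ∀ i, G i → S i →+* ℂ) (p : Σ i, G i) :
    (∀ i, S i) →+* ℂ := (c p.1 p.2).comp (Pi.evalRingHom S p.1)

theorem eig_pi {S G : ι → Type} [∀ i, CommRing (S i)] [∀ i, Fintype (G i)]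
    {L : ∀ i, Submodule ℤ (W i)} {a : ∀ i, S i →+* (W i →L[ℂ] W i)} {c : ∀ i, G i → S i →+* ℂ}
    {P : ∀ i, Set (G i)} {x : ∀ i, Basis (G i) ℂ (Cov (W i))}
    (h : ∀ i, Eig (L i) (a i) (c i) (P i) (x i)) :
    ∃ ξ : Basis (Σ i, G i) ℂ (Cov (∀ i, W i)), (∀ p v, ξ p v = x p.1 p.2 (v p.1)) ∧
      Eig (Submodule.pi Set.univ L) (piAct a) (piChi c) {p | p.2 ∈ P p.1} ξ := by
  let y : (Σ i, G i) → Cov (∀ i, W i) := fun p => (x p.1 p.2).comp (ContinuousLinearMap.proj p.1)
  have hy : ∀ p v, y p v = x p.1 p.2 (v p.1) := fun _ _ => rfl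
  have h1 : LinearIndependent ℂ y := Fintype.linearIndependent_iff.2 fun g hg p =>
    cov_zero (c := fun ρ => g ⟨p.1, ρ⟩) (x p.1) (fun v => by
      have := DFunLike.congr_fun hg (Pi.single p.1 v)
      rw [sum_apply, Fintype.sum_sigma, Finset.sum_eq_single p.1] at this
      · simpa [hy] using this
      · exact fun i _ hi => Finset.sum_eq_zero fun ρ _ => by simp [hy, Pi.single_eq_of_ne hi]
      · simp) p.2
  have h2 : ⊤ ≤ Submodule.span ℂ (Set.range y) := fun η _ => by
    have : η = ∑ p : Σ i, G i, (x p.1).repr (η.comp (ContinuousLinearMap.single ℝ W p.1)) p.2 •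
        y p := by
      refine ContinuousLinearMap.ext fun v => ?_
      rw [sum_apply, Fintype.sum_sigma]
      conv_lhs => rw [← Finset.univ_sum_single v, map_sum]
      exact Finset.sum_congr rfl fun i _ =>
        cov_apply (x i) (η.comp (ContinuousLinearMap.single ℝ W i)) (v i)
    rw [this]
    exact Submodule.sum_mem _ fun p _ => Submodule.smul_mem _ _ (Submodule.subset_span ⟨p, rfl⟩)
  have h3 : ∀ p v, Basis.mk h1 h2 p v = x p.1 p.2 (v p.1) := fun p v => by rw [Basis.mk_apply, hy]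
  refine ⟨Basis.mk h1 h2, h3,
    Ferm.isLat_dpi (Λ := fun i => (L i).toAddSubgroup) fun i => (h i).lat,
    fun r l hl i _ => (h i).keep _ _ (hl i trivial), ?_, fun p r v => ?_, fun p hp v => ?_,
    fun p hp v => ?_⟩
  · rintro ⟨i, ρ⟩ ⟨j, ρ'⟩ e
    obtain rfl : i = j := by
      by_contra hij
      simpa [piChi, Pi.single_eq_of_ne' hij] using DFunLike.congr_fun e (Pi.single i 1)
    obtain rfl : ρ = ρ' := (h i).inj (RingHom.ext fun r => by
      simpa [piChi] using DFunLike.congr_fun e (Pi.single i r))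
    rfl
  · rw [h3, h3, piAct_apply, (h _).eig]; rfl
  · rw [h3, h3]; exact (h _).hol _ hp _
  · rw [h3, h3]; exact (h _).anti _ hp _

end Pi

end Pool.Agent.Tav.Hod
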