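import Pool.Agent.P.MP_2ce3e7_ag.Tav.KFrob
import Pool.Agent.P.MP_2ce3e7_ag.Tav.AExp

/-! The pairing on an isogenous group: additivity, expansion, push. -/

set_option autoImplicit false
set_option linter.unusedSectionVars false
set_option linter.unusedVariables false

noncomputable section

namespace Pool.Agent.Tav.K0

open MvPolynomial Module Function Det

variable {Ω : Type} [Field Ω] {G X T : Type} {α β γ ν : Type} [Fintype α] [Fintype β] [Fintype γ]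
  [Fintype ν] {Λ Γ : Type} [AddCommGroup G] [AddCommGroup X] [CommRing Λ] [Module Λ X] [Fintype Γ]
  [DecidableEq Γ]

/-- the family of the graph of `z - w` -/
def fam (A : α → LS Ω G) (V : LS Ω G) (Z W : Set G) : (α ⊕ α) ⊕ Unit → LS Ω (Z × W) :=
  Sum.elim (prodB (res A Z) (res A W)) fun _ => V.pb fun t : Z × W => t.1.1 - t.2.1

/-- the normalised pairing -/
def pr (A : α → LS Ω G) (V : LS Ω G) (n : ℕ) (Z W : Set G) : ℚ :=
  nc (Finsupp.single (Sum.inr ()) n) (pL (fam A V Z W))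

/-- the components of the pairing, read on `X` -/
def pq (A : α → LS Ω G) (H : ν → LS Ω X) (χ : Γ → Λ →+* ℂ) (ψ : G →+ X) (Z W : Set G) :
    Finset Γ → ℂ :=
  pP (res A Z) (res A W) H χ (ψ ∘ Subtype.val) (ψ ∘ Subtype.val)

/-- an isogeny with a quasi-inverse -/
structure Iso (ν : Type) [Fintype ν] (A : α → LS Ω G) (V : LS Ω G) (B : β → LS Ω X) (ψ : G →+ X)
    (ψ' : X →+ G) (m : ℕ) : Prop where
  src : Src A (Fintype.card ν)
  regV : Reg A V
  top : mix A (fun _ : ν => V) ≠ 0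
  sub : RegM (prodB A A) A fun t : G × G => t.1 - t.2
  r : RegM A B ψ
  r' : RegM B A ψ'
  m0 : m ≠ 0
  comp : ∀ x, ψ (ψ' x) = m • x

variable {A : α → LS Ω G} {V : LS Ω G} {B : β → LS Ω X} {H : ν → LS Ω X} {χ : Γ → Λ →+* ℂ}
  {ψ : G →+ X} {ψ' : X →+ G} {m j j' : ℕ} {Z W Z' W' a b : Set G}

theorem Iso.regd (i : Iso ν A V B ψ ψ' m) (Z W : Set G) :
    RegM (prodB (res A Z) (res A W)) A fun t : Z × W => t.1.1 - t.2.1 := by
  have := (RegM.prodMap (RegM.restrict A (Subtype.val : Z → G))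
    (RegM.restrict A (Subtype.val : W → G))).comp i.sub
  exact this

theorem Iso.regz (i : Iso ν A V B ψ ψ' m) (Z : Set G) : RegM (res A Z) B (ψ ∘ Subtype.val) :=
  (RegM.restrict A Subtype.val).comp i.r

theorem src_of_irr (h : Irr A Z) (hd : Dg (pL (res A Z)) j) : Src (res A Z) j :=
  ⟨(irr_iff.1 h).1, (irr_iff.1 h).2, hd⟩

theorem irr_of_src (h : Src (res A Z) j) : Irr A Z := irr_iff.2 ⟨h.ne, h.dom⟩

theorem cmp_src (ha : Dg (pL (res A a)) j) (hZ : Z ∈ Cmp A a) : Src (res A Z) j :=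
  src_of_irr hZ.1.2 (dg_mono hZ.1.1 ha)

theorem fam_pb (h : Z ⊆ Z') (h' : W ⊆ W') :
    (fun k => (fam A V Z' W' k).pb (Prod.map (Set.inclusion h) (Set.inclusion h'))) =
      fam A V Z W := by
  funext k
  rcases k with (k | k) | k
  · exact ((LS.pb_pb _ _ _).trans (LS.pb_pb _ _ _)).trans
      (LS.pb_pb (Prod.fst : Z × W → Z) Subtype.val (A k)).symm
  · exact ((LS.pb_pb _ _ _).trans (LS.pb_pb _ _ _)).trans
      (LS.pb_pb (Prod.snd : Z × W → W) Subtype.val (A k)).symm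
  · exact LS.pb_pb _ _ _

theorem mem_fam (V : LS Ω G) (Z W : Set G) {e e' : α → ℕ} {f g : G → Ω} (hf : f ∈ pc A e)
    (hg : g ∈ pc A e') : (fun t : Z × W => f t.1 * g t.2) ∈
      pc (fam A V Z W) (Sum.elim (Sum.elim e e') 0) := by
  have h1 : (fun t : Z × W => f t.1) ∈ pc (fun k => (res A Z k).pb Prod.fst) e :=
    mem_pc_pb.2 ⟨_, mem_pc_pb.2 ⟨f, hf, rfl⟩, rfl⟩
  have h2 : (fun t : Z × W => g t.2) ∈ pc (fun k => (res A W k).pb Prod.snd) e' :=
    mem_pc_pb.2 ⟨_, mem_pc_pb.2 ⟨g, hg, rfl⟩, rfl⟩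
  have h3 := Submodule.mul_mem_mul h1 h2
  simp only [pc, fam, prodB, Fintype.prod_sum_type, Sum.elim_inl, Sum.elim_inr, Pi.zero_apply,
    pow_zero, Finset.prod_const_one, mul_one] at h3 ⊢
  exact h3

/-- additivity over the components -/
theorem Iso.pr_union (i : Iso ν A V B ψ ψ' m) (ha : Dg (pL (res A a)) j)
    (hb : Dg (pL (res A b)) j') : pr A V (j + j') a b =
      ∑ Z ∈ (cmp_finite A a).toFinset, ∑ W ∈ (cmp_finite A b).toFinset, pr A V (j + j') Z W := by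
  classical
  let I := (cmp_finite A a).toFinset × (cmp_finite A b).toFinset
  have h1 : ∀ k : I, k.1.1 ∈ Cmp A a := fun k => (Set.Finite.mem_toFinset _).1 k.1.2
  have h2 : ∀ k : I, k.2.1 ∈ Cmp A b := fun k => (Set.Finite.mem_toFinset _).1 k.2.2
  have key := coeff_union (U := fun k : I => k.1.1 × k.2.1)
    (fun k => Prod.map (Set.inclusion (h1 k).1.1) (Set.inclusion (h2 k).1.1)) (fam A V a b)
    (n := j + j') (s := Finsupp.single (Sum.inr ()) (j + j')) ?_ ?_ ?_ (by simp)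
  · rw [← Finset.sum_coe_sort, Finset.sum_congr rfl fun Z _ => (Finset.sum_coe_sort _ _).symm,
      ← Fintype.sum_prod_type']
    simp only [fam_pb] at key
    simp only [pr, nc_apply, key, Finset.mul_sum]
    rfl
  · rintro ⟨z, w⟩
    obtain ⟨Z, hZ, hz⟩ := cmp_cover A a z.2
    obtain ⟨W, hW, hw⟩ := cmp_cover A b w.2
    exact ⟨(⟨Z, (Set.Finite.mem_toFinset _).2 hZ⟩, ⟨W, (Set.Finite.mem_toFinset _).2 hW⟩),
      (⟨z, hz⟩, ⟨w, hw⟩), rfl⟩
  · intro k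
    rw [fam_pb]
    exact ((cmp_src ha (h1 k)).prod (cmp_src hb (h2 k))).ext fun _ => (i.regd _ _).pull i.regV
  · intro k
    obtain ⟨e, f, hf, ⟨z, hz, f1⟩, f0⟩ := cmp_sep (h1 k)
    obtain ⟨e', g, hg, ⟨w, hw, g1⟩, g0⟩ := cmp_sep (h2 k)
    refine ⟨_, _, mem_fam V a b hf hg, ⟨(⟨z, hz⟩, ⟨w, hw⟩), mul_ne_zero f1 g1⟩, fun k' hk u => ?_⟩
    by_cases e1 : k'.1.1 = k.1.1
    · have e2 : k'.2.1 ≠ k.2.1 := fun e2 => hk (Prod.ext (Subtype.ext e1) (Subtype.ext e2))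
      exact mul_eq_zero_of_right _ (g0 _ (h2 k') e2 _ u.2.2)
    · exact mul_eq_zero_of_left (f0 _ (h1 k') e1 _ u.1.2) _

theorem Iso.pr_mix (i : Iso ν A V B ψ ψ' m) (hn : j + j' = Fintype.card ν)
    (hZ : Src (res A Z) j) (hW : Src (res A W) j') : pr A V (j + j') Z W =
      mix (prodB (res A Z) (res A W)) fun _ : ν => V.pb fun t : Z × W => t.1.1 - t.2.1 := by
  cases isEmpty_or_nonempty ν with
  | inl h =>
    have h0 : j + j' = 0 := hn.trans Fintype.card_eq_zero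
    have := nc_forget (hZ.prod hW) (W := fun _ : Unit => V.pb fun t : Z × W => t.1.1 - t.2.1)
      (fun _ => (i.regd Z W).pull i.regV) (f := fun _ : ν => ()) (fun x => h.elim x) 0
      (by simp [h0])
    rw [mix_eq_nc, pr, h0, slots]
    simpa [fam, Function.comp_def] using this
  | inr h =>
    have := mix_comp (prodB (res A Z) (res A W))
      (fun _ : Unit => V.pb fun t : Z × W => t.1.1 - t.2.1) (g := fun _ : ν => ())
      fun _ => ⟨h.some, rfl⟩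
    rw [Finset.sum_const, Finset.card_univ, Finsupp.smul_single, smul_eq_mul, mul_one, ← hn] at this
    exact this.symm

theorem nm_nat (χ : Γ → Λ →+* ℂ) (hm : m ≠ 0) : nm χ (m : Λ) ≠ 0 :=
  Finset.prod_ne_zero_iff.2 fun ρ _ => by
    rw [map_natCast]
    exact Nat.cast_ne_zero.2 hm

theorem Iso.comp' (i : Iso ν A V B ψ ψ' m) (u : T → X) : ψ ∘ ψ' ∘ u = (m : Λ) • u :=
  _root_.funext fun t => (i.comp _).trans (Nat.cast_smul_eq_nsmul Λ m _).symm

theorem Iso.dM_ne (i : Iso ν A V B ψ ψ' m) (h : AbS B H χ) : dM A H ψ ≠ 0 := by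
  intro h0
  obtain ⟨r, hr⟩ := exists_deg h.src i.src i.r'
  have h1 := h.dM_deg hr i.r
  have h2 := h.dM_smul h.src (RegM.id B) (nm_nat χ i.m0)
  rw [← i.comp' id, Function.comp_id, h1, h0, mul_zero, Rat.cast_zero] at h2
  refine mul_ne_zero (nm_nat χ i.m0) (Rat.cast_ne_zero.2 ?_) h2.symm
  simpa [dM, LS.pb_id] using h.pos

/-- the expansion of the pairing -/
theorem Iso.pr_exp (i : Iso ν A V B ψ ψ' m) (h : AbS B H χ) (bas : Basis Γ ℤ Λ)
    (hχ : Injective χ) (hn : j + j' = Fintype.card ν) : ∃ c : ℂ, c ≠ 0 ∧ ∀ Z W,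
      Src (res A Z) j → Src (res A W) j' →
        (pr A V (j + j') Z W : ℂ) = ∑ S, c * (-1) ^ S.card * pq A H χ ψ Z W S := by
  have k1 : (dM A H ψ : ℂ) ≠ 0 := Rat.cast_ne_zero.2 (i.dM_ne h)
  refine ⟨(mix A (fun _ : ν => V) : ℚ) / (dM A H ψ : ℚ),
    div_ne_zero (Rat.cast_ne_zero.2 i.top) k1, fun Z W hZ hW => ?_⟩
  obtain ⟨r, hr⟩ := exists_deg (src_prod hn hZ hW) i.src (i.regd Z W)
  have h1 := hr ν (fun _ => V) le_rfl fun _ => i.regV
  have h2 := h.dM_deg hr i.r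
  have h3 := h.pP_spec bas hχ hn hZ hW (i.regz Z) (i.regz W) 1 (-1)
  have h4 : (fun t : Z × W => (1 : Λ) • (ψ ∘ Subtype.val) t.1 + (-1 : Λ) • (ψ ∘ Subtype.val) t.2) =
      ψ ∘ fun t : Z × W => t.1.1 - t.2.1 := _root_.funext fun t => by
    simp [sub_eq_add_neg]
  rw [h4, h2] at h3
  simp only [mon_neg, mon_one, mul_one] at h3
  rw [i.pr_mix hn hZ hW, h1]
  simp only [mul_assoc, ← Finset.mul_sum, mul_comm ((-1 : ℂ) ^ _), pq]
  rw [← h3]
  push_cast
  field_simp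

/-- the image of a source -/
theorem src_range {C : γ → LS Ω T} (hC : Src C j) {u : T → G} (hu : RegM C A u) :
    RegM C (res A (Set.range u)) (Set.rangeFactorization u) ∧ Src (res A (Set.range u)) j := by
  have h1 : RegM C (res A (Set.range u)) (Set.rangeFactorization u) := fun k => by
    rw [LS.pb_pb]
    exact hu k
  exact ⟨h1, (Dense.of_surj Set.rangeFactorization_surjective _).src.1 (hC.of_reg h1)⟩

variable {T₂ γ₂ : Type} [Fintype γ₂]

theorem Iso.push_left (i : Iso ν A V B ψ ψ' m) (h : AbS B H χ) (bas : Basis Γ ℤ Λ)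
    (hχ : Injective χ) (hn : j + j' = Fintype.card ν) {C : γ → LS Ω T} (hC : Src C j) {u : T → X}
    (hu : RegM C B u) : ∃ (Z : Set G) (r : ℕ), Src (res A Z) j ∧
      ∀ (T₂ γ₂ : Type) [Fintype γ₂] (C₂ : γ₂ → LS Ω T₂) (u₂ : T₂ → X), Src C₂ j' →
        RegM C₂ B u₂ → ∀ S, (∏ ρ ∈ Sᶜ, χ ρ m) * pP C C₂ H χ u u₂ S =
          r * pP (res A Z) C₂ H χ (ψ ∘ Subtype.val) u₂ S := by
  obtain ⟨h1, h2⟩ := src_range hC (hu.comp i.r')
  obtain ⟨r, hr⟩ := exists_deg hC h2 h1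
  refine ⟨_, r, h2, fun T₂ γ₂ _ C₂ u₂ s₂ r₂ S => ?_⟩
  rw [← h.pP_smul_left bas hχ hn hC s₂ hu r₂, ← i.comp' u]
  have := h.pP_deg_left bas hχ hn hC s₂ h2 h1 hr (i.regz _) r₂ S
  rw [Rat.cast_natCast] at this
  exact this

theorem Iso.push_right (i : Iso ν A V B ψ ψ' m) (h : AbS B H χ) (bas : Basis Γ ℤ Λ)
    (hχ : Injective χ) (hn : j + j' = Fintype.card ν) {C : γ → LS Ω T} (hC : Src C j') {u : T → X}
    (hu : RegM C B u) : ∃ (W : Set G) (r : ℕ), Src (res A W) j' ∧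
      ∀ (T₂ γ₂ : Type) [Fintype γ₂] (C₂ : γ₂ → LS Ω T₂) (u₂ : T₂ → X), Src C₂ j →
        RegM C₂ B u₂ → ∀ S, (∏ ρ ∈ S, χ ρ m) * pP C₂ C H χ u₂ u S =
          r * pP C₂ (res A W) H χ u₂ (ψ ∘ Subtype.val) S := by
  obtain ⟨h1, h2⟩ := src_range hC (hu.comp i.r')
  obtain ⟨r, hr⟩ := exists_deg hC h2 h1
  refine ⟨_, r, h2, fun T₂ γ₂ _ C₂ u₂ s₂ r₂ S => ?_⟩
  rw [← h.pP_smul_right bas hχ hn s₂ hC r₂ hu, ← i.comp' u]
  have := h.pP_deg_right bas hχ hn s₂ hC h2 h1 hr r₂ (i.regz _) S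
  rw [Rat.cast_natCast] at this
  exact this

/-- passage to a larger set with the same closure -/
theorem between (h1 : Z ⊆ Z') (h2 : Z' ⊆ cl A Z) (hZ : Src (res A Z) j) :
    Src (res A Z') j ∧ RegM (res A Z) (res A Z') (Set.inclusion h1) ∧
      Deg (res A Z) (res A Z') (Set.inclusion h1) j 1 := by
  refine ⟨src_of_irr ((irr_of_src hZ).between h1 h2) (pL_between h1 h2 ▸ hZ.dg), ?_,
    fun κ _ U _ hU => ?_⟩
  · rw [← res_incl A h1]
    exact RegM.restrict _ _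
  · rw [← res_incl A h1, (dense_incl h1 h2).mix hU, one_mul]

theorem isFr_res {fr : Ω ≃+* Ω} {F : G → G} (h : IsFr fr A A F) (Z : Set G) :
    IsFr fr (res A Z) (res A (F '' Z)) (Set.imageFactorization F Z) := by
  refine isFr_of_surj Set.imageFactorization_surjective fun k => ?_
  have := (h.2 k).pb (Subtype.val : Z → G)
  rw [← LS.tw_pb, LS.pb_pb] at this
  rw [LS.pb_pb]
  exact this

theorem src_image {fr : Ω ≃+* Ω} {F : G → G} (h : IsFr fr A A F) (s : FrS A F) (Z : Set G) :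
    Src (res A (F '' Z)) j ↔ Src (res A Z) j :=
  ⟨fun H => src_of_irr ((s.irr Z).1 (irr_of_src H)) ((isFr_res h Z).pL ▸ H.dg),
    (isFr_res h Z).src⟩

end Pool.Agent.Tav.K0
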