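import Pool.Agent.P.MP_2ce3e7_ag.Tav.KPair
import Pool.Agent.P.MP_2ce3e7_ag.Tav.Zeta

/-! The rank of the pairing on stable sets, and the number of fixed points. -/

set_option autoImplicit false
set_option linter.unusedSectionVars false
set_option linter.unusedVariables false

noncomputable section

namespace Pool.Agent.Tav.K0

open MvPolynomial Module Function Det

variable {Ω : Type} [Field Ω] {G X T : Type} {α β γ ν : Type} [Fintype α] [Fintype β] [Fintype γ]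
  [Fintype ν] {Λ Γ : Type} [AddCommGroup G] [AddCommGroup X] [CommRing Λ] [Module Λ X] [Fintype Γ]
  [DecidableEq Γ]

open Classical in
/-- the components, extended by zero -/
def pz (A : α → LS Ω G) (H : ν → LS Ω X) (χ : Γ → Λ →+* ℂ) (ψ : G →+ X) (j j' : ℕ) (c : ℂ)
    (S : Finset Γ) (Z W : Set G) : ℂ :=
  if Src (res A Z) j ∧ Src (res A W) j' then c * (-1) ^ S.card * pq A H χ ψ Z W S else 0

variable {A : α → LS Ω G} {V : LS Ω G} {B : β → LS Ω X} {H : ν → LS Ω X} {χ : Γ → Λ →+* ℂ}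
  {ψ : G →+ X} {ψ' : X →+ G} {m j j' : ℕ} {Z W Z' W' a b : Set G} {c : ℂ} {S : Finset Γ}

theorem pz_pos (hZ : Src (res A Z) j) (hW : Src (res A W) j') :
    pz A H χ ψ j j' c S Z W = c * (-1) ^ S.card * pq A H χ ψ Z W S := if_pos ⟨hZ, hW⟩

theorem pz_left (hZ : ¬ Src (res A Z) j) : pz A H χ ψ j j' c S Z W = 0 := if_neg fun h => hZ h.1

theorem pz_right (hW : ¬ Src (res A W) j') : pz A H χ ψ j j' c S Z W = 0 :=
  if_neg fun h => hW h.2

theorem iter_image (F : G → G) (n : ℕ) (Z : Set G) : (Set.image F)^[n] Z = F^[n] '' Z := by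
  rw [Set.image_iterate_eq]

theorem sum_val {M : Type} [AddCommMonoid M] (s : Finset (Set G)) (f : Set G → M) :
    (s.val.map f).sum = ∑ Z ∈ s, f Z := rfl

variable {fr : Ω ≃+* Ω} {q : ℕ} {F : G → G} {π : Λ}

theorem Iso.nm_frob (i : Iso ν A V B ψ ψ' m) (h : AbS B H χ) (hfr : ∀ x, fr x = x ^ q)
    (hF : IsFr fr A A F) (e : ∀ y, ψ (F y) = π • ψ y) (h0 : nm χ π ≠ 0) :
    nm χ π = (q : ℂ) ^ Fintype.card ν := by
  have h1 := h.dM_deg (hF.deg hfr i.src) i.r
  have h2 := h.dM_smul i.src i.r h0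
  rw [show π • (ψ : G → X) = ψ ∘ F from _root_.funext fun y => (e y).symm, h1] at h2
  push_cast at h2
  exact (mul_right_cancel₀ (Rat.cast_ne_zero.2 (i.dM_ne h)) h2).symm

theorem indep_scaled {M : Type} {u : Finset Γ → M → ℂ} (hu : LinearIndependent ℂ u)
    (w : Finset Γ → ℂ) (hw : ∀ S, w S ≠ 0) : LinearIndependent ℂ fun S x => w S * u S x :=
  hu.units_smul fun S => Units.mk0 (w S) (hw S)

theorem prod_nat_ne (χ : Γ → Λ →+* ℂ) (hm : m ≠ 0) (S : Finset Γ) : ∏ ρ ∈ S, χ ρ m ≠ 0 :=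
  Finset.prod_ne_zero_iff.2 fun ρ _ => by
    rw [map_natCast]
    exact Nat.cast_ne_zero.2 hm

/-- the rank of the pairing on stable sets -/
theorem Iso.rank (i : Iso ν A V B ψ ψ' m) (h : AbS B H χ) (bas : Basis Γ ℤ Λ) (hχ : Injective χ)
    (hn : j + j' = Fintype.card ν) (hfr : ∀ x, fr x = x ^ q) (hq : q ≠ 0) (hF : IsFr fr A A F)
    (s : FrS A F) (e : ∀ y, ψ (F y) = π • ψ y) (h0 : nm χ π ≠ 0)
    (alg : ∀ S, ∏ ρ ∈ S, χ ρ π = (q : ℂ) ^ j' → AlgP B H χ j j' S)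
    {I I' : Type} (za : I → Set G) (zb : I' → Set G)
    (ha : ∀ Z, (∃ a, za a = Z) ↔ F '' Z = Z ∧ Dg (pL (res A Z)) j)
    (hb : ∀ W, (∃ b, zb b = W) ↔ F '' W = W ∧ Dg (pL (res A W)) j')
    (f : I → I' → ℚ) {κ : ℚ} (hκ : κ ≠ 0) (hf : ∀ a b, f a b = κ * pr A V (j + j') (za a) (zb b)) :
    Module.rank ℚ (Submodule.span ℚ (Set.range f)) =
      Nat.card {S : Finset Γ // ∏ ρ ∈ S, χ ρ π = (q : ℂ) ^ j} := by
  classical
  obtain ⟨c, hc, hexp⟩ := i.pr_exp h bas hχ hn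
  have hq' : (q : ℂ) ≠ 0 := Nat.cast_ne_zero.2 hq
  have ha' := fun a => (ha _).1 ⟨a, rfl⟩
  have hb' := fun b => (hb _).1 ⟨b, rfl⟩
  have itj : ∀ {n : ℕ} {Z : Set G}, Src (res A Z) n → ∀ k, Src (res A (F^[k] '' Z)) n := by
    intro n Z hZ k
    induction k with
    | zero => rwa [iterate_zero, Set.image_id]
    | succ k ih => rw [iterate_succ', Set.image_comp]; exact (src_image hF s _).2 ih
  rw [Ze.rank_final f (pz A H χ ψ j j' (κ * c)) (fun a => (cmp_finite A (za a)).toFinset.val)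
    (fun b => (cmp_finite A (zb b)).toFinset.val) ?hf (fun S => (-1) ^ S.card) ?one
    (Set.image F) (Set.image F) (fun S => (∏ ρ ∈ Sᶜ, χ ρ π) / (q : ℂ) ^ j)
    (fun S => (∏ ρ ∈ S, χ ρ π) / (q : ℂ) ^ j') ?hs ?ht ?il ?ir ?dl ?dr _ _
    (indep_scaled (Ze.indep_prod_compl χ hχ) _ fun S => prod_nat_ne χ i.m0 Sᶜ)
    (indep_scaled (Ze.indep_prod χ hχ) _ fun S => prod_nat_ne χ i.m0 S) ?pl ?pr]
  case hf =>
    intro a b
    simp only [sum_val]
    rw [hf, i.pr_union (ha' a).2 (hb' b).2, Finset.sum_comm (s := Finset.univ)]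
    push_cast
    rw [Finset.mul_sum]
    refine Finset.sum_congr rfl fun Z hZ => ?_
    rw [Finset.mul_sum, Finset.sum_comm (s := Finset.univ)]
    refine Finset.sum_congr rfl fun W hW => ?_
    have h1 := cmp_src (ha' a).2 ((Set.Finite.mem_toFinset _).1 hZ)
    have h2 := cmp_src (hb' b).2 ((Set.Finite.mem_toFinset _).1 hW)
    rw [hexp Z W h1 h2, Finset.mul_sum]
    exact Finset.sum_congr rfl fun S _ => by rw [pz_pos h1 h2]; ring
  case one =>
    intro S Z W Z' W'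
    by_cases h1 : Src (res A Z) j
    swap
    · simp [pz_left h1]
    by_cases h2 : Src (res A W) j'
    swap
    · simp [pz_right h2]
    by_cases h3 : Src (res A Z') j
    swap
    · simp [pz_left h3]
    by_cases h4 : Src (res A W') j'
    swap
    · simp [pz_right h4]
    rw [pz_pos h1 h2, pz_pos h3 h4, pz_pos h1 h4, pz_pos h3 h2]
    have := h.one bas hχ hn h1 h2 h3 h4 (i.regz Z) (i.regz W) (i.regz Z') (i.regz W') S
    simp only [pq]
    linear_combination (κ * c * (-1) ^ S.card) ^ 2 * this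
  case hs =>
    intro S Z W
    by_cases h1 : Src (res A Z) j
    swap
    · rw [pz_left h1, pz_left (mt (src_image hF s Z).1 h1), mul_zero]
    by_cases h2 : Src (res A W) j'
    swap
    · rw [pz_right h2, pz_right h2, mul_zero]
    rw [pz_pos h1 h2, pz_pos ((src_image hF s Z).2 h1) h2]
    have := h.pP_frob_left bas hχ hn h1 h2 hfr (isFr_res hF Z) (i.regz Z) (i.regz W)
      (i.regz (F '' Z)) (π := π) (fun t => e t) S
    simp only [pq]
    rw [div_mul_eq_mul_div, eq_div_iff (pow_ne_zero _ hq')]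
    linear_combination (κ * c * (-1) ^ S.card) * this
  case ht =>
    intro S Z W
    by_cases h2 : Src (res A W) j'
    swap
    · rw [pz_right h2, pz_right (mt (src_image hF s W).1 h2), mul_zero]
    by_cases h1 : Src (res A Z) j
    swap
    · rw [pz_left h1, pz_left h1, mul_zero]
    rw [pz_pos h1 h2, pz_pos h1 ((src_image hF s W).2 h2)]
    have := h.pP_frob_right bas hχ hn h1 h2 hfr (isFr_res hF W) (i.regz Z) (i.regz W)
      (i.regz (F '' W)) (π := π) (fun t => e t) S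
    simp only [pq]
    rw [div_mul_eq_mul_div, eq_div_iff (pow_ne_zero _ hq')]
    linear_combination (κ * c * (-1) ^ S.card) * this
  case il =>
    intro S a W
    exact s.sum_cmp (ha' a).1 fun Z => pz A H χ ψ j j' (κ * c) S Z W
  case ir =>
    intro S b Z
    exact s.sum_cmp (hb' b).1 fun W => pz A H χ ψ j j' (κ * c) S Z W
  case dl =>
    intro Z
    by_cases h1 : Src (res A Z) j
    swap
    · exact Or.inl fun S W => pz_left h1
    obtain ⟨a', a1, a2, ⟨Z₀, a3⟩, a4⟩ := s.orbit (irr_of_src h1) fun n => (itj h1 n).dg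
    obtain ⟨a, rfl⟩ := (ha a').2 ⟨a1, a2⟩
    have key : ∀ Z' ∈ (cmp_finite A (za a)).toFinset.val, ∃ n : ℕ, ∀ S W,
        pz A H χ ψ j j' (κ * c) S Z' W = pz A H χ ψ j j' (κ * c) S ((Set.image F)^[n] Z) W := by
      intro Z' hZ'
      obtain ⟨n, n1, n2⟩ := a4 Z' ((Set.Finite.mem_toFinset _).1 hZ')
      obtain ⟨b1, b2, b3⟩ := between n1 n2 (itj h1 n)
      refine ⟨n, fun S W => ?_⟩
      rw [iter_image]
      by_cases h2 : Src (res A W) j'
      swap
      · rw [pz_right h2, pz_right h2]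
      have := h.pP_deg_left bas hχ hn (itj h1 n) h2 b1 b2 b3 (i.regz Z') (i.regz W) S
      rw [Rat.cast_one, one_mul] at this
      rw [pz_pos b1 h2, pz_pos (itj h1 n) h2, pq, pq, ← this]
      rfl
    exact Or.inr ⟨a, ⟨Z₀, (Set.Finite.mem_toFinset _).2 a3,
      key _ ((Set.Finite.mem_toFinset _).2 a3)⟩, fun Z' hZ' => Or.inl (key Z' hZ')⟩
  case dr =>
    intro W
    by_cases h1 : Src (res A W) j'
    swap
    · exact Or.inl fun S Z => pz_right h1
    obtain ⟨a', a1, a2, ⟨W₀, a3⟩, a4⟩ := s.orbit (irr_of_src h1) fun n => (itj h1 n).dg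
    obtain ⟨a, rfl⟩ := (hb a').2 ⟨a1, a2⟩
    have key : ∀ W' ∈ (cmp_finite A (zb a)).toFinset.val, ∃ n : ℕ, ∀ S Z,
        pz A H χ ψ j j' (κ * c) S Z W' = pz A H χ ψ j j' (κ * c) S Z ((Set.image F)^[n] W) := by
      intro W' hW'
      obtain ⟨n, n1, n2⟩ := a4 W' ((Set.Finite.mem_toFinset _).1 hW')
      obtain ⟨b1, b2, b3⟩ := between n1 n2 (itj h1 n)
      refine ⟨n, fun S Z => ?_⟩
      rw [iter_image]
      by_cases h2 : Src (res A Z) j
      swap
      · rw [pz_left h2, pz_left h2]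
      have := h.pP_deg_right bas hχ hn h2 (itj h1 n) b1 b2 b3 (i.regz Z) (i.regz W') S
      rw [Rat.cast_one, one_mul] at this
      rw [pz_pos h2 b1, pz_pos h2 (itj h1 n), pq, pq, ← this]
      rfl
    exact Or.inr ⟨a, ⟨W₀, (Set.Finite.mem_toFinset _).2 a3,
      key _ ((Set.Finite.mem_toFinset _).2 a3)⟩, fun W' hW' => Or.inl (key W' hW')⟩
  case pl =>
    intro x Z
    by_cases h1 : Src (res A Z) j
    swap
    · exact ⟨Z, 0, fun S W => by rw [pz_left h1, mul_zero, mul_zero]⟩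
    obtain ⟨Z', r, b1, b2⟩ := i.push_left h bas hχ hn h1 (h.reg_smul x.1 (i.regz Z))
    refine ⟨Z', r, fun S W => ?_⟩
    by_cases h2 : Src (res A W) j'
    swap
    · rw [pz_right h2, pz_right h2, mul_zero, mul_zero]
    have b3 := b2 _ _ _ _ h2 (i.regz W) S
    rw [h.pP_smul_left bas hχ hn h1 h2 (i.regz Z) (i.regz W)] at b3
    rw [pz_pos h1 h2, pz_pos b1 h2, pq, pq]
    linear_combination (κ * c * (-1) ^ S.card) * b3
  case pr =>
    intro x W
    by_cases h1 : Src (res A W) j'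
    swap
    · exact ⟨W, 0, fun S Z => by rw [pz_right h1, mul_zero, mul_zero]⟩
    obtain ⟨W', r, b1, b2⟩ := i.push_right h bas hχ hn h1 (h.reg_smul x.1 (i.regz W))
    refine ⟨W', r, fun S Z => ?_⟩
    by_cases h2 : Src (res A Z) j
    swap
    · rw [pz_left h2, pz_left h2, mul_zero, mul_zero]
    have b3 := b2 _ _ _ _ h2 (i.regz Z) S
    rw [h.pP_smul_right bas hχ hn h2 h1 (i.regz Z) (i.regz W)] at b3
    rw [pz_pos h2 h1, pz_pos h2 b1, pq, pq]
    linear_combination (κ * c * (-1) ^ S.card) * b3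
  have hN : ∀ S : Finset Γ, (∏ ρ ∈ S, χ ρ π) * ∏ ρ ∈ Sᶜ, χ ρ π = (q : ℂ) ^ j * (q : ℂ) ^ j' :=
    fun S => by rw [Finset.prod_mul_prod_compl, ← pow_add, hn, ← i.nm_frob h hfr hF e h0, nm]
  congr 1
  refine Nat.card_congr (Equiv.subtypeEquiv (Function.Involutive.toPerm _ compl_involutive)
    fun S => ?_)
  change _ ↔ ∏ ρ ∈ Sᶜ, χ ρ π = (q : ℂ) ^ j
  rw [div_eq_one_iff_eq (pow_ne_zero _ hq'), div_eq_one_iff_eq (pow_ne_zero _ hq')]
  refine ⟨fun H => H.1, fun h1 => ?_⟩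
  have h2 : ∏ ρ ∈ S, χ ρ π = (q : ℂ) ^ j' := by
    have := hN S
    rw [h1, mul_comm] at this
    exact mul_left_cancel₀ (pow_ne_zero _ hq') this
  refine ⟨h1, h2, ?_⟩
  obtain ⟨T₁, T₂, γ₁, γ₂, _, _, C₁, C₂, u₁, u₂, s₁, s₂, r₁, r₂, hp⟩ := alg S h2
  obtain ⟨Z, r, b1, b2⟩ := i.push_left h bas hχ hn s₁ r₁
  obtain ⟨W, r', b3, b4⟩ := i.push_right h bas hχ hn s₂ r₂
  refine ⟨Z, W, ?_⟩
  rw [pz_pos b1 b3]
  refine mul_ne_zero (mul_ne_zero (mul_ne_zero (Rat.cast_ne_zero.2 hκ) hc)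
    (pow_ne_zero _ (neg_ne_zero.2 one_ne_zero))) fun hz => ?_
  have b5 := b4 _ _ _ _ b1 (i.regz Z) S
  rw [pq] at hz
  rw [hz, mul_zero, mul_eq_zero, or_iff_right (prod_nat_ne χ i.m0 S)] at b5
  have b6 := b2 _ _ _ _ s₂ r₂ S
  rw [b5, mul_zero, mul_eq_zero, or_iff_right (prod_nat_ne χ i.m0 Sᶜ)] at b6
  exact hp b6

end Pool.Agent.Tav.K0
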