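import Pool.Agent.P.MP_2ce3e7_ag.Tav.EnR

set_option autoImplicit false

noncomputable section

namespace Pool.Agent.Tav

open MvPolynomial Module Function

variable {Ω : Type} [Field Ω] {R : ValuationSubring ℂ} {r : R →+* Ω} {σ : Type} [Fintype σ]
  {g : ℕ}

theorem Model.exists_bas (X : Model r σ g) :
    Nonempty (Basis (Fin g ⊕ Fin g) ℤ (EnR X.Λ)) := ⟨X.basis⟩

/-- the shape of a model -/
@[reducible] def Model.sh (X : Model r σ g) : Sh where
  Λ := EnR X.Λ
  Γ := Fin g ⊕ Fin g
  bas := X.exists_bas.some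
  χ := chE X.Λ
  inj := X.chE_inj
  σ := σ
  β := Unit
  w _ := ()
  ν := Fin g
  sl _ := ()
  card := by simp [two_mul]

theorem Model.sh_n (X : Model r σ g) : X.sh.n = g := Fintype.card_fin g

theorem Sh.exists_chi (s : Sh) (ψ : s.Λ →+* ℂ) : ∃ ρ, s.χ ρ = ψ := by
  by_contra hn
  push Not at hn
  have hi : Injective fun o : Option s.Γ => (o.elim ψ s.χ).toMonoidHom := by
    intro o o' e
    have e' : o.elim ψ s.χ = o'.elim ψ s.χ := RingHom.ext fun x => DFunLike.congr_fun e x
    cases o <;> cases o'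
    · rfl
    · exact absurd e'.symm (hn _)
    · exact absurd e' (hn _)
    · exact congrArg some (s.inj e')
  have hli := (linearIndependent_monoidHom s.Λ ℂ).comp _ hi
  have h2 : LinearIndependent ℂ fun o : Option s.Γ => fun i => (o.elim ψ s.χ) (s.bas i) := by
    rw [Fintype.linearIndependent_iff] at hli ⊢
    intro c hc
    apply hli c
    funext x
    have h1 : ∀ i, ∑ o : Option s.Γ, c o * (o.elim ψ s.χ) (s.bas i) = 0 := fun i => by
      simpa [Finset.sum_apply] using congrFun hc i
    have h3 : ∀ o : Option s.Γ, (o.elim ψ s.χ) x =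
        ∑ i, (s.bas.repr x i : ℂ) * (o.elim ψ s.χ) (s.bas i) := fun o =>
      Det.chi_repr s.bas (o.elim ψ s.χ).toAddMonoidHom x
    rw [Finset.sum_apply]
    calc ∑ o : Option s.Γ, c o * (o.elim ψ s.χ) x
        = ∑ o : Option s.Γ, ∑ i, (s.bas.repr x i : ℂ) * (c o * (o.elim ψ s.χ) (s.bas i)) := by
          refine Finset.sum_congr rfl fun o _ => ?_
          rw [h3 o, Finset.mul_sum]
          exact Finset.sum_congr rfl fun i _ => by ring
      _ = 0 := by
          rw [Finset.sum_comm]
          refine Finset.sum_eq_zero fun i _ => ?_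
          rw [← Finset.mul_sum, h1, mul_zero]
  have := h2.fintype_card_le_finrank
  simp at this

/-- every character of the ring is in the list -/
theorem Sh.exists_perm (s : Sh) (a : ℂ →+* ℂ) :
    ∃ e : s.Γ → s.Γ, Injective e ∧ ∀ ρ c, s.χ (e ρ) c = a (s.χ ρ c) := by
  choose e he using fun ρ => s.exists_chi (a.comp (s.χ ρ))
  refine ⟨e, fun ρ ρ' h => s.inj (RingHom.ext fun c => a.injective ?_), fun ρ c => by
    rw [he]; rfl⟩
  have h1 := DFunLike.congr_fun (he ρ) c
  have h2 := DFunLike.congr_fun (he ρ') c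
  rw [h] at h1
  exact h1.symm.trans h2

theorem Model.red_ker (X : Model r σ g) {a : Fin g → ℂ} (ha : a ∈ En X.Λ) {v : Fin g → ℂ}
    (hv : X.red v = 0) : X.red (a * v) = 0 := X.red_mul_eq ha hv

theorem Model.red_smul (X : Model r σ g) (a : EnR X.Λ) (v : Fin g → ℂ) :
    X.red (a.1 * v) = a • X.red v := (X.smul_red a v).symm

end Pool.Agent.Tav
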