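import Pool.Agent.P.MP_2ce3e7_ag.Tav.MFib
import Pool.Agent.P.MP_2ce3e7_ag.Tav.CMod
import Pool.Agent.P.MP_2ce3e7_ag.Tav.HodC

/-! The torus of a model. -/

set_option autoImplicit false

noncomputable section

namespace Pool.Agent.Tav

open MvPolynomial Module Function

variable {Ω : Type} [Field Ω] {R : ValuationSubring ℂ} {r : R →+* Ω} {σ : Type} [Fintype σ]
  {g : ℕ}

/-- the holomorphic characters -/
def inlS (g : ℕ) : Finset (Fin g ⊕ Fin g) := Finset.univ.map Embedding.inl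

theorem mem_inlS {ρ : Fin g ⊕ Fin g} : ρ ∈ inlS g ↔ ρ ∈ Set.range Sum.inl := by
  simp [inlS]

theorem Model.exists_tor (X : Model r σ g) (hr : Surjective r) :
    ∃ t : Tor X.fC, t.Φ = inlS g := by
  obtain ⟨φ, h⟩ := X.exists_hol hr
  obtain ⟨θ, h1, h2⟩ := X.cm
  obtain ⟨ξ, -, hξ⟩ := Hod.eig_diag X.isLat (EnR X.Λ) (fun _ ha => ha) ⟨θ, h1, h2⟩
  have := X.lat
  exact ⟨{
    V := Fin g → ℂ
    dim := by simp [Sh.n]
    Λ := X.Λ
    riem := X.riem
    act := Hod.dAct (EnR X.Λ)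
    keep := hξ.keep
    u := AddEquiv.refl _
    hu := fun _ _ => rfl
    φ := φ
    hol := fun v => (h.an v).differentiableAt
    hφ := fun v => Par.bPar.1 (h.par v)
    ker := fun v w => by
      rw [← h.sep v w]
      refine ⟨fun ⟨c, _, e⟩ => ⟨c (), funext e⟩, fun ⟨c, e⟩ => ⟨fun _ => c, fun _ hc => ?_,
        congrFun e⟩⟩
      exact h.ne v (by rw [e, show c = 0 from hc, zero_smul])
    imm := fun v dv c e => h.imm v dv (c ()) (funext e)
    ξ := ξ
    eig := hξ.eig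
    Φ := inlS g
    lin := fun ρ hρ => hξ.hol ρ (mem_inlS.1 hρ)
    anti := fun ρ hρ => hξ.anti ρ fun e => hρ (mem_inlS.2 e) }, rfl⟩

end Pool.Agent.Tav
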