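import Pool.Agent.P.MP_2ce3e7_ag.Tav.ExModel
import Pool.Agent.P.MP_2ce3e7_ag.Tav.ExUnif

set_option autoImplicit false

namespace Pool.Agent.Tav

open Function

/-- the hypotheses of `Main`, with both alternatives, hold for an ordinary elliptic curve over
`ZMod 5` -/
theorem nonvac :
    ∃ (R : ValuationSubring ℂ) (r : R →+* AlgebraicClosure (ZMod 5)) (_ : Surjective r)
      (X : Model r (Fin 4) 1) (F : X.B →+ X.B) (π : Fin 1 → ℂ),
      (∀ y, Par (X.p (F y)) (X.p y ^ Fintype.card (ZMod 5))) ∧ Mor X.p X.p id ∧ π ∈ En X.Λ ∧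
      X.Eqv id F π ∧ (∀ i, R.valuation (star (π i)) = 1) ∧ X.Full (Fintype.card (ZMod 5)) :=
  Ex.nonvac_of Ex.p_Unif

/-- `Main` applies to that curve -/
theorem nonvac_main (h : Main) :
    ∃ (G : Type) (_ : AddCommGroup G) (p : G → Fin 4 → AlgebraicClosure (ZMod 5)) (F : G →+ G),
      AV p 1 ∧ (∀ y, Par (p (F y)) (p y ^ 5)) ∧ Tate p F 5 0 1 ∧ Tate p F 5 1 0 := by
  obtain ⟨R, r, hr, X, F, π, hF, hm, hπ, he, ho, -⟩ := nonvac
  have h1 := h (ZMod 5) 0 1 X.p X.sp X.inj F hF R r hr X (AddMonoidHom.id _) (AddMonoidHom.id _)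
    hm hm surjective_id 1 one_ne_zero (fun _ => (one_smul _ _).symm) π hπ he (.inl ho)
  have h2 := h (ZMod 5) 1 0 X.p X.sp X.inj F hF R r hr X (AddMonoidHom.id _) (AddMonoidHom.id _)
    hm hm surjective_id 1 one_ne_zero (fun _ => (one_smul _ _).symm) π hπ he (.inl ho)
  rw [ZMod.card] at hF h1 h2
  exact ⟨X.B, inferInstance, X.p, F, X.sp, hF, h1, h2⟩

end Pool.Agent.Tav
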