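import Pool.Agent.P.MP_2ce3e7_ag.Tav.PMain
import Pool.Agent.P.MP_2ce3e7_ag.Tav.CMain
import Pool.Agent.P.MP_2ce3e7_ag.Tav.AFr

set_option autoImplicit false

noncomputable section

namespace Pool.Agent.Tav

open MvPolynomial Module Function

variable {Ω : Type} [Field Ω] {R : ValuationSubring ℂ} {r : R →+* Ω} {σ : Type} [Fintype σ]
  {g : ℕ}

variable [IsAlgClosed Ω]

theorem Model.alg (X : Model r σ g) (hr : Surjective r) {S : Finset (Fin g ⊕ Fin g)}
    (hS : X.sh.Bal (inlS g) S ∨ X.sh.Bar S) : X.fB.AlgS S := by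
  obtain ⟨t, ht⟩ := X.exists_tor hr
  exact (X.rd hr).alg hr t.deg (t.alg (ht ▸ hS))

theorem Model.weil (X : Model r σ g) (hr : Surjective r) {q N : ℕ} (hN : N ≠ 0)
    (hQ : FrobF Ω (q ^ N)) {π : EnR X.Λ} (hπ : X.fB.Frob (π ^ N) (q ^ N))
    (ρ : Fin g ⊕ Fin g) : ‖chE X.Λ ρ π‖ ^ 2 = q := by
  have key : ∀ i : Fin g, ‖π.1 i‖ ^ 2 = q := fun i => by
    have hne : (Sum.inl i : Fin g ⊕ Fin g) ≠ Sum.inr i := Sum.inl_ne_inr
    obtain ⟨j, j', hj, hc, Z, W, hS⟩ := X.alg hr (S := {Sum.inl i, Sum.inr i})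
      (Or.inr ⟨Sum.inl i, Sum.inr i, fun _ => rfl, hne, rfl⟩)
    have h1 : j' = 1 := by
      have : ({Sum.inl i, Sum.inr i} : Finset (Fin g ⊕ Fin g)).card = 2 := Finset.card_pair hne
      have h2 : 2 = 2 * j' := this.symm.trans hc
      omega
    obtain ⟨m, hm, h⟩ := Fib.fr (X.deg hr) hQ hπ hj hS
    have h3 : (chE X.Λ (Sum.inl i) (π ^ N) * chE X.Λ (Sum.inr i) (π ^ N)) ^ m =
        ((q ^ N : ℕ) : ℂ) ^ (j' * m) := by
      rw [← h]
      exact congrArg (· ^ m) (Finset.prod_pair (f := fun ρ => chE X.Λ ρ (π ^ N)) hne).symm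
    rw [map_pow, map_pow, h1, one_mul] at h3
    have h4 : chE X.Λ (Sum.inl i) π = π.1 i := rfl
    have h5 : chE X.Λ (Sum.inr i) π = (starRingEnd ℂ) (π.1 i) := rfl
    have h6 := congrArg norm h3
    rw [h4, h5, norm_pow, norm_mul, norm_pow, norm_pow, norm_pow, Complex.norm_conj,
      Complex.norm_natCast, Nat.cast_pow, ← mul_pow, ← pow_mul, ← pow_mul, ← sq] at h6
    exact (pow_left_inj₀ (by positivity) (by positivity) (mul_ne_zero hN hm)).1 h6
  rcases ρ with i | i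
  · exact key i
  · have h5 : chE X.Λ (Sum.inr i) π = (starRingEnd ℂ) (π.1 i) := rfl
    rw [h5, Complex.norm_conj]
    exact key i

theorem Model.ord (X : Model r σ g) (hr : Surjective r) {q N : ℕ} (hN : N ≠ 0)
    (hQ : FrobF Ω (q ^ N)) {π : EnR X.Λ} (hπ : X.fB.Frob (π ^ N) (q ^ N))
    (ho : ∀ i, R.valuation (star (π.1 i)) = 1) : X.fB.TateAlg π q := by
  intro S j hS
  have hW := X.weil hr hN hQ hπ
  have hq1 : 1 < q := (Nat.one_lt_pow_iff hN).1 hQ.1
  have hS' : ∏ ρ ∈ S, chE X.Λ ρ π = (q : ℂ) ^ j := hS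
  have hcard : S.card = 2 * j := by
    have h1 := congrArg (fun z : ℂ => ‖z‖ ^ 2) hS'
    simp only [norm_prod, norm_pow, Complex.norm_natCast] at h1
    rw [← Finset.prod_pow, Finset.prod_congr rfl fun ρ _ => hW ρ, Finset.prod_const,
      ← pow_mul] at h1
    have h2 : (1 : ℝ) < q := by exact_mod_cast hq1
    have := pow_right_injective₀ (zero_lt_one.trans h2) h2.ne' h1
    omega
  have hq0 : (q : Ω) = 0 := by
    have := hQ.2.1
    rw [Nat.cast_pow] at this
    exact pow_eq_zero_iff hN |>.1 this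
  have hv1 : R.valuation (q : ℂ) < 1 := by
    have h1 : ¬ IsUnit (q : R) := fun h => by
      have := h.map r
      rw [map_natCast, hq0] at this
      exact not_isUnit_zero this
    have h2 := (R.valuation_lt_one_iff (q : R)).1 h1
    simpa using h2
  have hv0 : 0 < R.valuation (q : ℂ) := by
    rw [zero_lt_iff, Valuation.ne_zero_iff]
    exact_mod_cast (zero_lt_one.trans hq1).ne'
  have hval : ∀ ρ, R.valuation (chE X.Λ ρ π) =
      if ρ ∈ inlS g then R.valuation (q : ℂ) else 1 := by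
    rintro (i | i)
    · have h1 : π.1 i * star (π.1 i) = q := by
        have h2 : ‖π.1 i‖ ^ 2 = q := hW (Sum.inl i)
        rw [Complex.star_def, Complex.mul_conj, Complex.normSq_eq_norm_sq, h2]
        simp
      rw [if_pos (by simp [inlS]), ← h1, map_mul, ho, mul_one]
      rfl
    · rw [if_neg (by simp [inlS])]
      exact ho i
  refine X.alg hr (Or.inl fun a e he => ?_)
  have he' : ∀ ρ, chE X.Λ (e ρ) π = a (chE X.Λ ρ π) := fun ρ => he ρ π
  have h1 : ∏ ρ ∈ S, chE X.Λ (e ρ) π = (q : ℂ) ^ j := by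
    rw [Finset.prod_congr rfl fun ρ _ => he' ρ, ← map_prod, hS', map_pow, map_natCast]
  have h2 := congrArg R.valuation h1
  rw [map_prod, map_pow, Finset.prod_congr rfl fun ρ _ => hval (e ρ), Finset.prod_ite,
    Finset.prod_const, Finset.prod_const_one, mul_one] at h2
  have h3 := (pow_right_strictAnti₀ hv0 hv1).injective h2
  exact (congrArg (2 * ·) h3).trans hcard.symm

end Pool.Agent.Tav
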