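import Pool.Agent.P.MP_2ce3e7_ag.Tav.PUp
import Pool.Agent.P.MP_2ce3e7_ag.Tav.Lat

/-! The number of points in the kernel of a reduced endomorphism. -/

set_option autoImplicit false

noncomputable section

namespace Pool.Agent.Tav.Pp

open MvPolynomial Module Set Function

variable {Ω : Type} [Field Ω] {R : ValuationSubring ℂ} {r : R →+* Ω} {σ : Type} [Fintype σ] {g : ℕ}
  (X : Model r σ g)

theorem red_lat {l : Fin g → ℂ} (hl : l ∈ X.Λ) : X.red l = 0 := by
  rw [← map_zero X.red, red_eq]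
  exact par_map r ((X.ker l 0).2 (by rwa [sub_zero]))

/-- the covectors -/
def cov (γ : Fin g ⊕ Fin g) : (Fin g → ℂ) →L[ℝ] ℂ :=
  Sum.elim (fun i => ContinuousLinearMap.proj i)
    (fun i => (Complex.conjCLE : ℂ →L[ℝ] ℂ).comp (ContinuousLinearMap.proj i)) γ

theorem cov_apply (γ : Fin g ⊕ Fin g) (v : Fin g → ℂ) : cov γ v = Sum.elim v (star v) γ := by
  rcases γ with i | i <;> rfl

theorem cov_indep : LinearIndependent ℂ (cov (g := g)) := by
  classical
  refine Fintype.linearIndependent_iff.2 fun c hc => ?_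
  have h : ∀ i z, c (Sum.inl i) * z + c (Sum.inr i) * star z = 0 := fun i z => by
    have := DFunLike.congr_fun hc (Pi.single i z)
    rw [_root_.sum_apply, Fintype.sum_sum_type,
      Finset.sum_eq_single i (fun j _ hj => by simp [cov_apply, hj]) (by simp),
      Finset.sum_eq_single i (fun j _ hj => by simp [cov_apply, hj]) (by simp)] at this
    simpa [cov_apply] using this
  have h2 : ∀ i, c (Sum.inl i) = 0 ∧ c (Sum.inr i) = 0 := fun i => by
    have a1 := h i 1
    have a2 := h i Complex.I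
    rw [star_one] at a1
    rw [Complex.star_def, Complex.conj_I] at a2
    constructor
    · linear_combination a1 / 2 - Complex.I * a2 / 2 +
        (c (Sum.inl i) - c (Sum.inr i)) / 2 * Complex.I_mul_I
    · linear_combination a1 / 2 + Complex.I * a2 / 2 -
        (c (Sum.inl i) - c (Sum.inr i)) / 2 * Complex.I_mul_I
  rintro (i | i)
  exacts [(h2 i).1, (h2 i).2]

theorem card_tor {a : Fin g → ℂ} (ha : a ∈ En X.Λ) (h0 : ∀ i, a i ≠ 0) :
    (Nat.card (Disc.kerQ X.Λ fun v => a * v) : ℂ) = ∏ γ, Sum.elim a (star a) γ := by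
  have := X.lat
  refine Disc.card_kerQ X.Λ cov cov_indep (by simp [two_mul]) (LinearMap.mulLeft ℂ a) ha _
    (fun γ v => ?_) fun γ => ?_
  · rcases γ with i | i <;> simp [cov_apply]
  · rcases γ with i | i <;> simp [h0]

/-- the kernel on the torus injects into the kernel on the special fibre -/
theorem tor_le {a : Fin g → ℂ} {f : X.B →+ X.B} (hf : ∀ v, f (X.red v) = X.red (a * v))
    [Finite f.ker] (hd : ∀ v, X.red v = 0 → a * v ∈ X.Λ → v ∈ X.Λ) :
    Nat.card (Disc.kerQ X.Λ fun v => a * v) ≤ Nat.card f.ker := by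
  choose s hs hs' using fun y : Disc.kerQ X.Λ fun v => a * v => y.2
  refine Nat.card_le_card_of_injective (fun y => (⟨X.red (s y), by
    rw [AddMonoidHom.mem_ker, hf]; exact red_lat X (hs y)⟩ : f.ker)) fun y y' h => ?_
  have h1 : X.red (s y - s y') = 0 := by
    rw [map_sub, sub_eq_zero]; exact congrArg Subtype.val h
  refine Subtype.ext ?_
  rw [← hs', ← hs']
  exact (Submodule.Quotient.eq X.Λ).2 (hd _ h1 (by
    rw [mul_sub]; exact X.Λ.sub_mem (hs y) (hs y')))

/-- the count, from the degree and the disc -/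
theorem card_ker {a : Fin g → ℂ} (ha : a ∈ En X.Λ) (h0 : ∀ i, a i ≠ 0) {f : X.B →+ X.B}
    (hf : ∀ v, f (X.red v) = X.red (a * v))
    (hS : Src (fun _ : Unit => LS.co X.p X.sp.ne) g)
    (ht : mix (fun _ : Unit => LS.co X.p X.sp.ne) (fun _ : Fin g => LS.co X.p X.sp.ne) ≠ 0)
    (hdeg : (mix (fun _ : Unit => LS.co X.p X.sp.ne)
        (fun _ : Fin g => (LS.co X.p X.sp.ne).pb f) : ℂ) = (∏ γ, Sum.elim a (star a) γ) *
      (mix (fun _ : Unit => LS.co X.p X.sp.ne) (fun _ : Fin g => LS.co X.p X.sp.ne) : ℚ)) :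
    Finite f.ker ∧ ((∀ v, X.red v = 0 → a * v ∈ X.Λ → v ∈ X.Λ) →
      (Nat.card f.ker : ℂ) = ∏ γ, Sum.elim a (star a) γ) := by
  obtain ⟨f', hf', hm⟩ := exists_act X ha
  obtain rfl : f' = f := AddMonoidHom.ext fun b => by
    obtain ⟨v, rfl⟩ := X.onto b
    rw [hf, hf']
  have h1 := card_tor X ha h0
  rw [← h1] at hdeg ⊢
  have h2 : Nat.card (Disc.kerQ X.Λ fun v => a * v) ≠ 0 := fun h => by
    rw [h, Nat.cast_zero] at h1
    exact Finset.prod_ne_zero_iff.2 (fun γ _ => by rcases γ with i | i <;> simp [h0]) h1.symm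
  obtain ⟨h3, h4⟩ := ker_le X.sp X.inj hS X.sp.ne hS ht f' hm (Nat.cast_ne_zero.2 h2)
    (by exact_mod_cast hdeg)
  refine ⟨h3, fun hd => ?_⟩
  rw [le_antisymm (Nat.cast_le.1 h4) (tor_le X hf hd)]

/-- a fixed point of `π ^ s` is a fixed point of `(π ^ e) ^ s` -/
theorem fix_pow {π : Fin g → ℂ} (hπ : π ∈ En X.Λ) {v : Fin g → ℂ} (h : π * v - v ∈ X.Λ) (e : ℕ) :
    π ^ e * v - v ∈ X.Λ := by
  induction e with
  | zero => simp
  | succ e ih =>
    have := X.Λ.add_mem (hπ _ ih) h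
    rwa [mul_sub, ← mul_assoc, ← pow_succ', sub_add_sub_cancel] at this

end Pool.Agent.Tav.Pp
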