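import Pool.Agent.P.MP_2ce3e7_ag.Tav.MAV

/-! Forms that vanish on the special fibre lift to forms that vanish on the model. -/

set_option autoImplicit false

noncomputable section

namespace Pool.Agent.Tav.PD

open MvPolynomial Set Module
open Function hiding eval

theorem mem_pow {K T σ : Type} [CommRing K] (x : T → σ → K) (d : ℕ) {w : T → K} :
    w ∈ crd x ^ d ↔ ∃ G : MvPolynomial σ K, G.IsHomogeneous d ∧ ∀ t, eval (x t) G = w t := by
  have h1 : ∀ (G : MvPolynomial σ K) t,
      (aeval (fun l t => x t l) G : T → K) t = eval (x t) G := fun G t =>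
    comp_aeval_apply (f := fun l t => x t l) (Pi.evalAlgHom K (fun _ : T => K) t) G
  have h2 : crd x ^ d = (homogeneousSubmodule σ K d).map
      (aeval (fun l t => x t l) : MvPolynomial σ K →ₐ[K] T → K).toLinearMap := by
    rw [← homogeneousSubmodule_one_pow, Submodule.map_pow, homogeneousSubmodule_one_eq_span_X,
      Submodule.map_span, ← range_comp]
    simp only [crd, comp_def, AlgHom.toLinearMap_apply, aeval_X]
  rw [h2, Submodule.mem_map]
  refine exists_congr fun G => and_congr (mem_homogeneousSubmodule _ _) ?_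
  rw [AlgHom.toLinearMap_apply, funext_iff]
  simp only [h1]

theorem aeval_smul {O A σ : Type*} [CommRing O] [CommRing A] [Algebra O A]
    {G : MvPolynomial σ O} {d : ℕ} (h : G.IsHomogeneous d) (c : A) (z : σ → A) :
    aeval (c • z) G = c ^ d * aeval z G := by
  rw [aeval_def, aeval_def, eval₂_eq, eval₂_eq, Finset.mul_sum]
  refine Finset.sum_congr rfl fun s hs => ?_
  simp only [Pi.smul_apply, smul_eq_mul, mul_pow, Finset.prod_mul_distrib,
    Finset.prod_pow_eq_pow_sum]
  rw [← h.degree_eq_sum_deg_support hs]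
  ring

theorem eval_smul {K σ : Type*} [CommRing K] {G : MvPolynomial σ K} {d : ℕ}
    (h : G.IsHomogeneous d) (c : K) (z : σ → K) : eval (c • z) G = c ^ d * eval z G :=
  aeval_smul h c z

theorem fin_pow {K T σ : Type} [CommRing K] [Finite σ] (x : T → σ → K) (d : ℕ) :
    Module.Finite K (crd x ^ d :) :=
  Module.Finite.iff_fg.2 ((Submodule.fg_span (finite_range _)).pow d)

theorem pow_map {R K T σ ι : Type} [CommRing R] [CommRing K] (f : R →+* K) (x : T → σ → R) (d : ℕ)
    (b : ι → T → R) (hb : Submodule.span R (range b) = crd x ^ d) :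
    crd (fun t l => f (x t l)) ^ d = Submodule.span K (range fun i t => f (b i t)) := by
  let ρ : (T → R) →+* T → K := f.compLeft T
  have key : ∀ s : Set (T → R), Submodule.span K (ρ '' Submodule.span R s) =
      Submodule.span K (ρ '' s) := fun s => by
    refine le_antisymm (Submodule.span_le.2 ?_)
      (Submodule.span_mono (image_mono Submodule.subset_span))
    rintro _ ⟨w, hw, rfl⟩
    induction hw using Submodule.span_induction with
    | mem w hw => exact Submodule.subset_span ⟨w, hw, rfl⟩
    | zero => rw [map_zero]; exact Submodule.zero_mem _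
    | add a b _ _ ha hb => rw [map_add]; exact Submodule.add_mem _ ha hb
    | smul c a _ ha =>
      have : ρ (c • a) = f c • ρ a := funext fun t => map_mul f c (a t)
      rw [this]
      exact Submodule.smul_mem _ _ ha
  have h1 := key (range b)
  rw [hb, crd, Submodule.span_pow, key, image_pow, ← Submodule.span_pow, ← range_comp,
    ← range_comp] at h1
  exact h1

theorem finrank_par {K T U σ : Type} [Field K] (p : U → σ → K) (y : T → σ → K) (j : T → U)
    (hj : Surjective j) (h : ∀ t, Par (p (j t)) (y t)) (d : ℕ) :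
    finrank K (crd y ^ d :) = finrank K (crd p ^ d :) := by
  choose c hc hc' using h
  let Φ : (U → K) →ₗ[K] T → K :=
    { toFun := fun w t => (c t ^ d)⁻¹ * w (j t)
      map_add' := fun _ _ => funext fun _ => mul_add _ _ _
      map_smul' := fun _ _ => funext fun _ => mul_left_comm _ _ _ }
  have h0 : ∀ t, c t ^ d ≠ 0 := fun t => pow_ne_zero _ (hc t).ne_zero
  have hi : Injective Φ := fun w w' e => funext fun u => by
    obtain ⟨t, rfl⟩ := hj u
    have h1 : (c t ^ d)⁻¹ * w (j t) = (c t ^ d)⁻¹ * w' (j t) := congrFun e t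
    exact mul_left_cancel₀ (inv_ne_zero (h0 t)) h1
  have he : ∀ G : MvPolynomial σ K, G.IsHomogeneous d → ∀ t,
      Φ (fun u => eval (p u) G) t = eval (y t) G := fun G hG t => by
    change (c t ^ d)⁻¹ * eval (p (j t)) G = _
    rw [hc', eval_smul hG, inv_mul_cancel_left₀ (h0 t)]
  have : crd y ^ d = (crd p ^ d).map Φ := by
    ext w
    rw [mem_pow, Submodule.mem_map]
    constructor
    · rintro ⟨G, hG, e⟩
      refine ⟨fun u => eval (p u) G, (mem_pow p d).2 ⟨G, hG, fun _ => rfl⟩, funext fun t => ?_⟩
      rw [he G hG t, e t]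
    · rintro ⟨w, hw, rfl⟩
      obtain ⟨G, hG, e⟩ := (mem_pow p d).1 hw
      refine ⟨G, hG, fun t => ?_⟩
      rw [← he G hG t, funext e]
  rw [this]
  exact (Submodule.equivMapOfInjective Φ hi _).finrank_eq.symm

variable {Ω : Type} [Field Ω] {R : ValuationSubring ℂ} {r : R →+* Ω}

theorem r_eq_zero (hr : Surjective r) {a : R} : r a = 0 ↔ a ∈ IsLocalRing.maximalIdeal R := by
  rw [← IsLocalRing.eq_maximalIdeal (RingHom.ker_isMaximal_of_surjective r hr), RingHom.mem_ker]

theorem r_ne_zero (hr : Surjective r) {a : R} : r a ≠ 0 ↔ IsUnit a := by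
  rw [Ne, r_eq_zero hr, IsLocalRing.notMem_maximalIdeal]

theorem lift_form (hr : Surjective r) {T σ : Type} [Finite σ] (x : T → σ → R) {d : ℕ}
    (hfl : finrank Ω (crd (fun t l => r (x t l)) ^ d :) =
      finrank ℂ (crd (fun t l => (x t l : ℂ)) ^ d :))
    {H : MvPolynomial σ R} (hH : H.IsHomogeneous d) (h0 : ∀ t, r (eval (x t) H) = 0) :
    ∃ f : MvPolynomial σ R, f.IsHomogeneous d ∧ (∀ t, eval (x t) f = 0) ∧
      H - f ∈ (IsLocalRing.maximalIdeal R).map (C : R →+* MvPolynomial σ R) := by
  have := fin_pow x d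
  have : Module.Flat R (crd x ^ d :) := Module.Flat.flat_iff_torsion_eq_bot_of_isBezout.2
    (Submodule.isTorsionFree_iff_torsion_eq_bot.1 inferInstance)
  have : Module.Free R (crd x ^ d :) := Module.free_of_flat_of_isLocalRing
  let b := Module.Free.chooseBasis R (crd x ^ d :)
  have hb : Submodule.span R (range fun i => (b i : T → R)) = crd x ^ d := by
    have := congrArg (Submodule.map (crd x ^ d).subtype) b.span_eq
    rwa [Submodule.map_span, ← range_comp, Submodule.map_subtype_top] at this
  have h1 : LinearIndependent ℂ fun i t => (((b i : T → R) t : R) : ℂ) := by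
    rw [← LinearIndependent.iff_fractionRing R ℂ]
    refine Fintype.linearIndependent_iff.2 fun c h =>
      Fintype.linearIndependent_iff.1 b.linearIndependent c (Subtype.ext (funext fun t => ?_))
    have h3 := congrFun h t
    rw [Finset.sum_apply] at h3
    rw [Submodule.coe_sum, Finset.sum_apply]
    exact R.subtype_injective ((map_sum R.subtype _ _).trans h3)
  have h2 : LinearIndependent Ω fun i t => r ((b i : T → R) t) := by
    rw [linearIndependent_iff_card_eq_finrank_span, Set.finrank, ← pow_map r x d _ hb, hfl,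
      ← finrank_span_eq_card h1]
    have h3 := pow_map R.subtype x d _ hb
    simp only [ValuationSubring.subtype_apply] at h3
    rw [h3]
  choose B hB hB' using fun i => (mem_pow x d).1 (b i).2
  let u : (crd x ^ d :) := ⟨fun t => eval (x t) H, (mem_pow x d).2 ⟨H, hH, fun _ => rfl⟩⟩
  have h3 : ∀ t, eval (x t) H = ∑ i, b.repr u i * (b i : T → R) t := fun t => by
    have := congrFun (congrArg Subtype.val (b.sum_repr u)) t
    rw [Submodule.coe_sum, Finset.sum_apply] at this
    exact this.symm
  have h4 := Fintype.linearIndependent_iff.1 h2 (fun i => r (b.repr u i)) (funext fun t => by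
    rw [Finset.sum_apply, Pi.zero_apply, ← h0 t, h3, map_sum]
    exact Finset.sum_congr rfl fun i _ => (map_mul r _ _).symm)
  refine ⟨H - ∑ i, C (b.repr u i) * B i,
    hH.sub (IsHomogeneous.sum _ _ _ fun i _ => (hB i).C_mul _), fun t => ?_, ?_⟩
  · simp only [map_sub, map_sum, map_mul, eval_C, hB', ← h3, sub_self]
  · rw [sub_sub_cancel]
    exact Ideal.sum_mem _ fun i _ => Ideal.mul_mem_right _ _
      (Ideal.mem_map_of_mem _ ((r_eq_zero hr).1 (h4 i)))

variable {σ : Type} [Fintype σ] {g : ℕ}

theorem flat_lg (X : Model r σ g) : ∃ N, ∀ d, N ≤ d → finrank Ω (crd X.p ^ d :) =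
    finrank ℂ (crd (fun v l => (X.x v l : ℂ)) ^ d :) := by
  have key : ∀ {K T : Type} [Field K] (p : T → σ → K), ∃ N, ∀ d, N ≤ d →
      evN (fun _ => d) (hp ![crd p]) = finrank K (crd p ^ d :) := fun {K T} _ p => by
    have : ∀ i, FiniteDimensional K (![crd p] i) := fun i => by
      rw [Subsingleton.elim i 0]
      exact FiniteDimensional.span_of_finite K (finite_range _)
    obtain ⟨N, h⟩ := evP_pf ![crd p]
    refine ⟨N, fun d hd => ?_⟩
    rw [hp_eq_pf, h _ fun _ => hd]
    simp only [Tav.hf]
    rw [Fin.prod_univ_one]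
    rfl
  obtain ⟨N, h⟩ := key X.p
  obtain ⟨M, h'⟩ := key fun v l => (X.x v l : ℂ)
  refine ⟨max N M, fun d hd => Nat.cast_injective (R := ℚ) ?_⟩
  rw [← h d ((le_max_left _ _).trans hd), ← h' d ((le_max_right _ _).trans hd), X.flat]

theorem Model.lift (X : Model r σ g) (hr : Surjective r) : ∃ N, ∀ d, N ≤ d →
    ∀ H : MvPolynomial σ R, H.IsHomogeneous d → (∀ v, r (eval (X.x v) H) = 0) →
    ∃ f : MvPolynomial σ R, f.IsHomogeneous d ∧ (∀ v, eval (X.x v) f = 0) ∧
      H - f ∈ (IsLocalRing.maximalIdeal R).map (C : R →+* MvPolynomial σ R) :=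
  (flat_lg X).imp fun _ h d hd _ hH h0 =>
    lift_form hr X.x ((finrank_par X.p _ X.red X.onto X.hred d).trans (h d hd)) hH h0

omit [Fintype σ] in
theorem r_eval (z : σ → R) (H : MvPolynomial σ R) :
    r (eval z H) = eval (fun l => r (z l)) (map r H) := by
  rw [eval_map, ← eval₂_id, eval₂_comp_left, RingHom.comp_id]
  rfl

/-- a form of large degree that vanishes on the special fibre is the reduction of a form that
vanishes on `X` -/
theorem Model.lift' (X : Model r σ g) (hr : Surjective r) : ∃ N, ∀ d, N ≤ d →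
    ∀ F : MvPolynomial σ Ω, F.IsHomogeneous d → (∀ b, eval (X.p b) F = 0) →
    ∃ f : MvPolynomial σ R, f.IsHomogeneous d ∧ (∀ v, eval (X.x v) f = 0) ∧ map r f = F := by
  refine (Model.lift X hr).imp fun N hN d hd F hF h0 => ?_
  obtain ⟨H, rfl⟩ := map_surjective r hr F
  have e : map r (homogeneousComponent d H) = map r H := by
    rw [← homogeneousComponent_eq_self hF]
    ext s
    simp only [coeff_map, coeff_homogeneousComponent, apply_ite r, map_zero]
  obtain ⟨f, hf, h1, h2⟩ := hN d hd _ (homogeneousComponent_isHomogeneous d H) fun v => by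
    obtain ⟨c, hc, h⟩ := X.hred v
    have := h0 (X.red v)
    rw [h, eval_smul hF, mul_eq_zero, or_iff_right (pow_ne_zero _ hc.ne_zero)] at this
    rw [r_eval, e, this]
  refine ⟨f, hf, h1, ?_⟩
  have h3 : (IsLocalRing.maximalIdeal R).map (C : R →+* MvPolynomial σ R) ≤
      RingHom.ker (map r : MvPolynomial σ R →+* MvPolynomial σ Ω) :=
    Ideal.map_le_iff_le_comap.2 fun a ha => by
      rw [Ideal.mem_comap, RingHom.mem_ker, map_C, (r_eq_zero hr).2 ha, C_0]
  have h4 := h3 h2
  rw [RingHom.mem_ker, map_sub, e, sub_eq_zero] at h4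
  exact h4.symm

end Pool.Agent.Tav.PD
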