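import Pool.Agent.P.MP_2ce3e7_ag.Tav.MTor
import Pool.Agent.P.MP_2ce3e7_ag.Tav.SMain
import Pool.Agent.P.MP_2ce3e7_ag.Tav.CDeg
import Pool.Agent.P.MP_2ce3e7_ag.Tav.PG

set_option autoImplicit false

noncomputable section

namespace Pool.Agent.Tav

open MvPolynomial Module Function

variable {Ω : Type} [Field Ω] {R : ValuationSubring ℂ} {r : R →+* Ω} {σ : Type} [Fintype σ]
  {g : ℕ}

variable [IsAlgClosed Ω]

theorem Model.deg (X : Model r σ g) (hr : Surjective r) : X.fB.Deg := by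
  obtain ⟨t, -⟩ := X.exists_tor hr
  exact (X.rd hr).deg hr t.deg

theorem Model.lf (X : Model r σ g) {Q : ℕ} {π : EnR X.Λ} (hπ : X.fB.Frob π Q) (v : Fin g → ℂ) :
    Par (X.p (X.red (π.1 * v))) (X.p (X.red v) ^ Q) := by
  rw [X.red_smul]
  exact Par.bPar.2 (hπ (X.red v))

theorem Model.frob_of_lf (X : Model r σ g) {Q : ℕ} {π : EnR X.Λ}
    (h : ∀ v, Par (X.p (X.red (π.1 * v))) (X.p (X.red v) ^ Q)) : X.fB.Frob π Q := fun b => by
  obtain ⟨v, rfl⟩ := X.onto b
  have := h v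
  rw [X.red_smul] at this
  exact Par.bPar.1 this

/-- the eigenvalues on the tangent space are non-units -/
theorem Model.val_lt (X : Model r σ g) (hr : Surjective r) {Q : ℕ} (hQ : FrobF Ω Q)
    {π : EnR X.Λ} (hπ : X.fB.Frob π Q) (i : Fin g) : R.valuation (π.1 i) < 1 :=
  PD.cot X hr π.2 hQ.2.1 (X.lf hπ) i

theorem Model.card_ker (X : Model r σ g) (hr : Surjective r) {Q : ℕ} (hQ : FrobF Ω Q)
    {π : EnR X.Λ} (hπ : X.fB.Frob π Q) {a b : EnR X.Λ} (hab : a * b = 1 - π) :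
    (Nat.card {t : X.B // a • t = 0} : ℂ) = Det.nm (chE X.Λ) a := by
  have e : a.1 * b.1 = 1 - π.1 := congrArg Subtype.val hab
  have h0 : ∀ i, a.1 i ≠ 0 := fun i h => by
    have h1 := X.val_lt hr hQ hπ i
    have h2 := congrFun e i
    rw [Pi.mul_apply, h, zero_mul, Pi.sub_apply, Pi.one_apply, eq_comm, sub_eq_zero] at h2
    rw [← h2, map_one] at h1
    exact lt_irrefl _ h1
  refine ((Pp.card_ker_of_deg X (X.deg hr) a.2 h0 (f := DistribSMul.toAddMonoidHom X.B a)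
    fun v => (X.red_smul a v).symm).2 fun v hv h =>
      PD.disc_fix X hr π.2 hQ.2.1 (X.lf hπ) hv (s := 0) ?_).trans
    (Finset.prod_congr rfl fun γ _ => by rcases γ with i | i <;> rfl)
  have := X.Λ.neg_mem (b.2 _ h)
  rwa [← mul_assoc, mul_comm b.1, e, sub_mul, one_mul, neg_sub, ← pow_one π.1] at this

theorem Model.finite_ker (X : Model r σ g) (hr : Surjective r) {m : ℕ} (hm : m ≠ 0) :
    {t : X.B | m • t = 0}.Finite := Pp.finite_tors X (X.deg hr) hm

end Pool.Agent.Tav
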