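import Pool.Agent.P.MP_2ce3e7_ag.Tav.SdStmt

/-! The image of a product of curves is a stratified cone with one step. -/

set_option autoImplicit false

noncomputable section

namespace Pool.Agent.Tav

open MvPolynomial Set Function

variable {K : Type} [Field K]

/-- composition with `j` -/
def sdPb (K : Type) [Field K] {T U : Type} (j : T → U) : (U → K) →ₐ[K] (T → K) :=
  AlgHom.pi fun t => Pi.evalAlgHom K (fun _ : U => K) (j t)

theorem sd_crd_map {T U σ : Type} (j : T → U) (p : U → σ → K) :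
    (crd p).map (sdPb K j).toLinearMap = crd fun t => p (j t) := by
  rw [crd, crd, Submodule.map_span, ← range_comp]
  rfl

theorem sd_prod_map {T U ι : Type} [Fintype ι] (j : T → U) (L : ι → Submodule K (U → K))
    (e : ι → ℕ) : (∏ i, L i ^ e i).map (sdPb K j).toLinearMap =
      ∏ i, (L i).map (sdPb K j).toLinearMap ^ e i := by
  have := map_prod (Submodule.mapHom (sdPb K j)) (fun i => L i ^ e i) Finset.univ
  simp only [map_pow] at this
  exact this

/-- a form in coordinate systems restricts to a form -/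
theorem sd_mem_pb {T U ι : Type} {σ : ι → Type} [Fintype ι] (j : T → U) {c : ∀ i, U → σ i → K}
    {e : ι → ℕ} {F : U → K} (h : F ∈ ∏ i, crd (c i) ^ e i) :
    (fun t => F (j t)) ∈ ∏ i, (crd fun t => c i (j t)) ^ e i := by
  have := Submodule.mem_map_of_mem (f := (sdPb K j).toLinearMap) h
  rw [sd_prod_map] at this
  simp only [sd_crd_map] at this
  exact this

/-- a regular map restricts to a regular map -/
theorem Rg.sd_pb {T U ι τ : Type} {σ : ι → Type} [Fintype ι] (j : T → U) {c : ∀ i, U → σ i → K}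
    {f : U → τ → K} (h : Rg (fun i => crd (c i)) (crd f)) :
    Rg (fun i => crd fun t => c i (j t)) (crd fun t => f (j t)) := fun t => by
  obtain ⟨e, l, hl, h⟩ := h (j t)
  refine ⟨e, fun s => l (j s), hl, fun w hw => ?_⟩
  rw [← sd_crd_map] at hw
  obtain ⟨w, hw, rfl⟩ := hw
  exact sd_mem_pb j (h w hw)

theorem Curve.nonempty {T σ : Type} [Fintype σ] {c : T → σ → K} (h : Curve c) : Nonempty T := by
  by_contra h0
  exact h.irr.ne_top ((Ideal.eq_top_iff_one _).2 fun _ ⟨_, t, _⟩ => absurd ⟨t⟩ h0)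

theorem Cov.sCov {τ : Type} {I : Ideal (MvPolynomial τ K)} (h : Cov I) : SCov I := by
  obtain ⟨n, T, σ, hσ, c, f, hc, h0, hr, rfl⟩ := h
  refine ⟨n, T, σ, hσ, c, _, hc, Str.step univ (fun x => f x.1) Str.nil
    (fun x _ => ⟨0, 1, by simpa using ⟨1, map_one _⟩, one_ne_zero, fun s hs => absurd trivial hs⟩) (fun x => h0 x.1)
    (Rg.sd_pb (c := fun i (t : ∀ i, T i) => c i (t i)) Subtype.val hr)
    (fun x hx => absurd trivial hx), ?_⟩
  rw [idl]
  congr 1
  ext y
  constructor
  · rintro (rfl | ⟨a, x, rfl⟩)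
    · exact ⟨0, fun i => (hc i).nonempty.some, (zero_smul _ _).symm⟩
    · exact ⟨a, x.1, rfl⟩
  · rintro ⟨a, x, rfl⟩
    exact Or.inr ⟨a, ⟨x, trivial⟩, rfl⟩

end Pool.Agent.Tav
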