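import Mathlib

/-! Diagonal forms in at least three variables are prime. -/

set_option autoImplicit false

noncomputable section

namespace Pool.Agent.Tav.Fer

open MvPolynomial

variable {K : Type} [Field K]

/-- the diagonal form of degree `m` with coefficients `a` -/
def dg {σ : Type} [Fintype σ] (a : σ → K) (m : ℕ) : MvPolynomial σ K := ∑ i, C (a i) * X i ^ m

section
variable {σ : Type} [Fintype σ]

lemma dg_one (m : ℕ) : dg (fun _ : σ => (1 : K)) m = ∑ i, X i ^ m := by simp [dg]

lemma eval_dg (a z : σ → K) (m : ℕ) : eval z (dg a m) = ∑ i, a i * z i ^ m := by simp [dg]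

lemma hom_dg (a : σ → K) (m : ℕ) : (dg a m).IsHomogeneous m :=
  IsHomogeneous.sum _ _ _ fun i _ => by
    simpa using (isHomogeneous_C σ (a i)).mul ((isHomogeneous_X K i).pow m)

lemma pd_dg (a z : σ → K) (m : ℕ) (l : σ) :
    eval z (pderiv l (dg a m)) = a l * m * z l ^ (m - 1) := by
  classical
  simp only [dg, map_sum, pderiv_C_mul, pderiv_pow, pderiv_X, map_mul, eval_C, map_pow, eval_X,
    map_natCast]
  rw [Finset.sum_eq_single l]
  · simp [mul_assoc]
  · intro b _ hb
    simp [hb]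
  · simp

/-- the gradient of a diagonal form vanishes only at the origin -/
lemma grad_dg {a : σ → K} (ha : ∀ i, a i ≠ 0) {m : ℕ} (hm : (m : K) ≠ 0) {z : σ → K}
    (hz : z ≠ 0) : ∃ l, eval z (pderiv l (dg a m)) ≠ 0 := by
  obtain ⟨l, hl⟩ := Function.ne_iff.1 hz
  exact ⟨l, by rw [pd_dg]; exact mul_ne_zero (mul_ne_zero (ha l) hm) (pow_ne_zero _ hl)⟩

lemma map_dg {L : Type} [Field L] (f : K →+* L) (a : σ → K) (m : ℕ) :
    map f (dg a m) = dg (fun i => f (a i)) m := by simp [dg]

lemma rename_dg {τ : Type} [Fintype τ] (e : σ ≃ τ) (a : τ → K) (m : ℕ) :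
    rename e (dg (fun i => a (e i)) m) = dg a m := by
  simp only [dg, map_sum, map_mul, rename_C, map_pow, rename_X]
  exact Equiv.sum_comp e fun j => C (a j) * X j ^ m

omit [Fintype σ] in
lemma pd_sq {P : Ideal (MvPolynomial σ K)} {G : MvPolynomial σ K} (h : G ∈ P ^ 2) (l : σ) :
    pderiv l G ∈ P := by
  rw [pow_two] at h
  refine Submodule.mul_induction_on h (fun x hx y hy => ?_) (fun x y hx hy => ?_)
  · rw [pderiv_mul]
    exact P.add_mem (P.mul_mem_left _ hy) (P.mul_mem_right _ hx)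
  · rw [map_add]
    exact P.add_mem hx hy

end

lemma zero_fin [IsAlgClosed K] {n : ℕ} {a : Fin (n + 2) → K} (ha : ∀ i, a i ≠ 0) {m : ℕ}
    (hm : m ≠ 0) : ∃ z : Fin (n + 2) → K, z 0 = 1 ∧ eval z (dg a m) = 0 := by
  obtain ⟨r, hr⟩ := IsAlgClosed.exists_pow_nat_eq (-a 0 / a 1) (Nat.pos_of_ne_zero hm)
  refine ⟨Fin.cons 1 (Fin.cons r 0), rfl, ?_⟩
  rw [eval_dg, Fin.sum_univ_succ, Fin.sum_univ_succ]
  have h1 := ha 1
  simp [hr, hm]
  field_simp
  ring

lemma prime_fin [IsAlgClosed K] {n : ℕ} {a : Fin (n + 3) → K} (ha : ∀ i, a i ≠ 0) {m : ℕ}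
    (hm : (m : K) ≠ 0) : Prime (dg a m) := by
  have hm0 : m ≠ 0 := by rintro rfl; simp at hm
  set b : Fin (n + 2) → K := fun i => a i.succ with hb
  have hb0 : ∀ i, b i ≠ 0 := fun i => ha _
  obtain ⟨z, hz, hz0⟩ := zero_fin hb0 hm0
  have hf : finSuccEquiv K (n + 2) (dg a m) =
      Polynomial.C (C (a 0)) * Polynomial.X ^ m + Polynomial.C (dg b m) := by
    simp only [dg]
    rw [Fin.sum_univ_succ]
    simp only [map_add, map_sum, map_mul, map_pow, finSuccEquiv_X_zero, finSuccEquiv_X_succ]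
    have hC : ∀ c : K, finSuccEquiv K (n + 2) (C c) = Polynomial.C (C c) := fun c => by
      simp [finSuccEquiv_apply]
    simp only [hC, hb]
  set f : Polynomial (MvPolynomial (Fin (n + 2)) K) :=
    Polynomial.C (C (a 0)) * Polynomial.X ^ m + Polynomial.C (dg b m) with hfd
  have hC0 : (C (a 0) : MvPolynomial (Fin (n + 2)) K) ≠ 0 := by simpa using ha 0
  have hdeg : f.degree = m := by
    rw [hfd, Polynomial.degree_add_eq_left_of_degree_lt, Polynomial.degree_C_mul_X_pow _ hC0]
    rw [Polynomial.degree_C_mul_X_pow _ hC0]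
    exact lt_of_le_of_lt Polynomial.degree_C_le (by exact_mod_cast Nat.pos_of_ne_zero hm0)
  have hnd : f.natDegree = m := Polynomial.natDegree_eq_of_degree_eq_some hdeg
  have hco : ∀ j, f.coeff j = (if j = m then C (a 0) else 0) + if j = 0 then dg b m else 0 := by
    intro j
    simp [hfd, Polynomial.coeff_X_pow, Polynomial.coeff_C]
  have hlc : f.leadingCoeff = C (a 0) := by
    rw [Polynomial.leadingCoeff, hnd, hco]
    simp [hm0]
  have hP : (RingHom.ker (eval z : MvPolynomial (Fin (n + 2)) K →+* K)).IsPrime :=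
    RingHom.ker_isPrime _
  have hirr : Irreducible f := by
    refine Polynomial.irreducible_of_eisenstein_criterion hP ?_ ?_ ?_ ?_ ?_
    · rw [hlc, RingHom.mem_ker]
      simpa using ha 0
    · intro j hj
      rw [hdeg] at hj
      have hj' : j ≠ m := by rintro rfl; exact lt_irrefl _ hj
      rw [hco, RingHom.mem_ker]
      by_cases h0 : j = 0 <;> simp [hj', h0, hz0, hm0.symm]
    · rw [hdeg]
      exact_mod_cast Nat.pos_of_ne_zero hm0
    · intro h
      have h1 : f.coeff 0 = dg b m := by rw [hco]; simp [hm0.symm]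
      rw [h1] at h
      have h2 := pd_sq h 0
      rw [RingHom.mem_ker, pd_dg, hz] at h2
      simp [hb0 0, hm] at h2
    · intro r hr
      have h1 := (Polynomial.C_dvd_iff_dvd_coeff r f).1 hr m
      rw [hco] at h1
      simp only [if_true, hm0, if_false, add_zero] at h1
      exact isUnit_of_dvd_unit h1 ((IsUnit.mk0 _ (ha 0)).map C)
  have : Irreducible (dg a m) := by
    rw [← MulEquiv.irreducible_iff (finSuccEquiv K (n + 2)).toMulEquiv]
    exact hf ▸ hirr
  exact this.prime

/-- a diagonal form in at least three variables, of degree prime to the characteristic -/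
theorem prime_dg [IsAlgClosed K] {σ : Type} [Fintype σ] (h3 : 3 ≤ Fintype.card σ) {a : σ → K}
    (ha : ∀ i, a i ≠ 0) {m : ℕ} (hm : (m : K) ≠ 0) : Prime (dg a m) := by
  obtain ⟨n, hn⟩ := Nat.exists_eq_add_of_le' h3
  have e : Fin (n + 3) ≃ σ := (Fintype.equivFinOfCardEq hn).symm
  rw [← rename_dg e a m]
  exact (MulEquiv.prime_iff (renameEquiv K e).toMulEquiv).2 (prime_fin (fun i => ha _) hm)

/-- a diagonal form in at least two variables has a nonzero zero -/
theorem zero_dg [IsAlgClosed K] {σ : Type} [Fintype σ] (h2 : 2 ≤ Fintype.card σ) {a : σ → K}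
    (ha : ∀ i, a i ≠ 0) {m : ℕ} (hm : m ≠ 0) : ∃ z : σ → K, z ≠ 0 ∧ eval z (dg a m) = 0 := by
  obtain ⟨n, hn⟩ := Nat.exists_eq_add_of_le' h2
  have e : Fin (n + 2) ≃ σ := (Fintype.equivFinOfCardEq hn).symm
  obtain ⟨z, hz, h0⟩ := zero_fin (a := fun i => a (e i)) (fun i => ha _) hm
  refine ⟨fun j => z (e.symm j), fun h => ?_, ?_⟩
  · have := congrFun h (e 0)
    simp [hz] at this
  · rw [← rename_dg e a m, eval_rename]
    simpa [Function.comp_def] using h0

/-- the ideal of the zero set of a prime form -/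
lemma van_prime [IsAlgClosed K] {σ : Type} [Finite σ] {F : MvPolynomial σ K} (hF : Prime F) :
    vanishingIdeal K {z : σ → K | eval z F = 0} = Ideal.span {F} := by
  have h1 : {z : σ → K | eval z F = 0} = zeroLocus K (Ideal.span {F}) := by
    rw [zeroLocus_span]
    ext z
    simp [aeval_def]
  rw [h1, vanishingIdeal_zeroLocus_eq_radical]
  exact ((Ideal.span_singleton_prime hF.ne_zero).2 hF).radical

end Pool.Agent.Tav.Fer
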