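import Pool.Agent.P.MP_2ce3e7_ag.Tav.CvStmt

/-! Varieties stratified by proper images of open parts of a product of curves. -/

set_option autoImplicit false

noncomputable section

namespace Pool.Agent.Tav

open MvPolynomial Set Function

variable {K : Type} [Field K]

/-- some form in the members of `L` vanishes on `A` and not at `t` -/
def Sep {T ι : Type} [Fintype ι] (L : ι → Submodule K (T → K)) (A : Set T) (t : T) : Prop :=
  ∃ e : ι → ℕ, ∃ F ∈ ∏ i, L i ^ e i, F t ≠ 0 ∧ ∀ s ∈ A, F s = 0

/-- cones built by adding images of regular maps `f` on open sets `V`, whose limits at the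
boundary of `V` lie in the part `Z` built before -/
inductive Str {P ι τ : Type} {σ : ι → Type} [Fintype ι] (c : ∀ i, P → σ i → K) :
    Set (τ → K) → Prop
  | nil : Str c {0}
  | step {Z : Set (τ → K)} (V : Set P) (f : V → τ → K) : Str c Z →
      (∀ x ∈ V, Sep (fun i => crd (c i)) Vᶜ x) → (∀ x, f x ≠ 0) →
      Rg (fun i => crd fun x : V => c i x) (crd f) →
      (∀ x ∉ V, ∀ y ∉ Z, Sep (fun o : Option ι => o.elim (crd Prod.snd) fun i => crd fun t => c i t.1)
        (range fun x : V => (x.1, f x)) (x, y)) →
      Str c (Z ∪ {y | ∃ (a : K) (x : V), y = a • f x})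

/-- `I` is the ideal of a cone that is stratified over a product of curves -/
def SCov {τ : Type} (I : Ideal (MvPolynomial τ K)) : Prop :=
  ∃ (n : ℕ) (T σ : Fin n → Type) (_ : ∀ i, Fintype (σ i)) (c : ∀ i, T i → σ i → K)
    (W : Set (τ → K)), (∀ i, Curve (c i)) ∧ Str (fun i (t : ∀ i, T i) => c i (t i)) W ∧
    vanishingIdeal K W = I

end Pool.Agent.Tav
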