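import Pool.Agent.P.MP_2ce3e7_ag.Tav.HPol
import Pool.Agent.P.MP_2ce3e7_ag.Tav.Graph
import Pool.Agent.P.MP_2ce3e7_ag.Tav.Primes

/-! Hyperplane sections of complete point sets. -/

set_option autoImplicit false

noncomputable section

namespace Pool.Agent.Tav.Sl

open MvPolynomial

variable {Ω T σ ι τ κ : Type} [Field Ω] [DecidableEq ι] [DecidableEq κ]

/-- restriction of coordinate functions to a subset -/
def res (U : Set T) (x : σ → T → Ω) : σ → U → Ω := fun s t => x s t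

/-- no block vanishes -/
def Nz (β : σ → ι) (y : σ → Ω) : Prop := ∀ i, ∃ s, β s = i ∧ y s ≠ 0

/-- the image of `T` in the product of projective spaces is closed -/
def Cl (β : σ → ι) (x : σ → T → Ω) : Prop :=
  (∀ t, Nz β fun s => x s t) ∧ ∀ y : σ → Ω, Nz β y → (∀ f ∈ kerG Ω β x, eval y f = 0) →
    ∃ t, ∃ c : ι → Ω, ∀ s, y s = c (β s) * x s t

/-- the maps `z` are locally given by forms in `x` -/
def Rg (β : σ → ι) (x : σ → T → Ω) (v : τ → κ) (z : τ → T → Ω) : Prop :=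
  (∀ t, Nz v fun j => z j t) ∧ ∀ t₀ : T, ∃ (e : κ → ι → ℕ) (lam : κ → T → Ω)
    (G : τ → MvPolynomial σ Ω), (∀ b, lam b t₀ ≠ 0) ∧
      ∀ j, G j ∈ Sd Ω β (e (v j)) ∧ aeval x (G j) = lam (v j) * z j

theorem aeval_apply (x : σ → T → Ω) (f : MvPolynomial σ Ω) (t : T) :
    aeval x f t = eval (fun s => x s t) f := by
  induction f using MvPolynomial.induction_on with
  | C a => simp
  | add p q hp hq => simp [hp, hq]
  | mul_X p s hp => simp [hp]

theorem aeval_res (U : Set T) (x : σ → T → Ω) (f : MvPolynomial σ Ω) :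
    aeval (res U x) f = 0 ↔ ∀ t ∈ U, aeval x f t = 0 := by
  simp only [funext_iff, aeval_apply, res, Pi.zero_apply, Subtype.forall]

variable [Fintype ι] [Finite σ] {β : σ → ι}

theorem aeval_scale {A : Type} [CommRing A] [Algebra Ω A] {f : MvPolynomial σ Ω} {d : ι → ℕ}
    (hf : f ∈ Sd Ω β d) (c : ι → A) (y : σ → A) :
    aeval (fun s => c (β s) * y s) f = (∏ i, c i ^ d i) * aeval y f := by
  cases nonempty_fintype σ
  rw [f.as_sum, map_sum, map_sum, Finset.mul_sum]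
  refine Finset.sum_congr rfl fun m hm => ?_
  have h1 : Finsupp.weight (wN β) m = d := hf (mem_support_iff.1 hm)
  have h2 : ∏ i, c i ^ d i = ∏ s, c (β s) ^ m s := by
    rw [← Finset.prod_fiberwise Finset.univ β]
    refine Finset.prod_congr rfl fun i _ => ?_
    rw [← h1, weight_wN, ← Finset.prod_pow_eq_pow_sum]
    exact Finset.prod_congr rfl fun s hs => by rw [(Finset.mem_filter.1 hs).2]
  rw [aeval_monomial, aeval_monomial, Finsupp.prod_fintype _ _ (by simp),
    Finsupp.prod_fintype _ _ (by simp), h2]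
  simp only [mul_pow, Finset.prod_mul_distrib]
  ring

theorem eval_scale {f : MvPolynomial σ Ω} {d : ι → ℕ} (hf : f ∈ Sd Ω β d) (c : ι → Ω)
    {y y' : σ → Ω} (h : ∀ s, y s = c (β s) * y' s) :
    eval y f = (∏ i, c i ^ d i) * eval y' f := by
  have := aeval_scale hf c y'
  rw [← funext h] at this
  exact this

theorem aeval_mem_Sd {σ' ι' : Type} [DecidableEq ι'] {β' : σ' → ι'} {f : MvPolynomial σ Ω}
    {d : ι → ℕ} (hf : f ∈ Sd Ω β d) (E : ι → ι' → ℕ) (g : σ → MvPolynomial σ' Ω)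
    (hg : ∀ s, g s ∈ Sd Ω β' (E (β s))) : aeval g f ∈ Sd Ω β' (∑ i, d i • E i) := by
  cases nonempty_fintype σ
  rw [f.as_sum, map_sum]
  refine Submodule.sum_mem _ fun m hm => ?_
  have h1 : Finsupp.weight (wN β) m = d := hf (mem_support_iff.1 hm)
  have h2 : ∑ i, d i • E i = ∑ s, m s • E (β s) := by
    rw [← Finset.sum_fiberwise Finset.univ β]
    refine Finset.sum_congr rfl fun i _ => ?_
    rw [← h1, weight_wN, Finset.sum_smul]
    exact Finset.sum_congr rfl fun s hs => by rw [(Finset.mem_filter.1 hs).2]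
  rw [aeval_monomial, Finsupp.prod_fintype _ _ (by simp), h2, ← Algebra.smul_def]
  refine Submodule.smul_mem _ _ ?_
  exact IsWeightedHomogeneous.prod _ _ _ fun s _ => IsWeightedHomogeneous.pow (hg s) _

omit [Fintype ι] [Finite σ] in
theorem GrJ.le_of_forms {I J : Ideal (MvPolynomial σ Ω)} (hI : GrJ β I)
    (h : ∀ d, ∀ f ∈ Sd Ω β d, f ∈ I → f ∈ J) : I ≤ J := by
  intro f hf
  obtain ⟨S, hS⟩ := Gr.sum_cmp (wN β) f
  rw [← hS]
  exact Ideal.sum_mem _ fun d _ =>
    h d _ (weightedHomogeneousComponent_isWeightedHomogeneous d f) (hI d f hf)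

/-- the points of `T` at which an ideal vanishes -/
def zs (x : σ → T → Ω) (P : Ideal (MvPolynomial σ Ω)) : Set T := {t | ∀ f ∈ P, aeval x f t = 0}

/-- a graded ideal vanishes at a point when it vanishes at a proportional point -/
theorem vanish_of_prop {P : Ideal (MvPolynomial σ Ω)} (hP : GrJ β P) {y y' : σ → Ω} (hy : Nz β y)
    (c : ι → Ω) (h : ∀ s, y s = c (β s) * y' s) (h0 : ∀ f ∈ P, eval y f = 0) :
    ∀ f ∈ P, eval y' f = 0 := by
  have hc : ∀ i, c i ≠ 0 := by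
    intro i hi
    obtain ⟨s, hs, h1⟩ := hy i
    exact h1 (by rw [h, hs, hi, zero_mul])
  refine fun f hf => GrJ.le_of_forms (J := RingHom.ker (eval y')) hP (fun d g hg hgP => ?_) hf
  have := h0 g hgP
  rw [eval_scale hg c h] at this
  exact (mul_eq_zero.1 this).resolve_left
    (Finset.prod_ne_zero_iff.2 fun i _ => pow_ne_zero _ (hc i))

theorem kerG_zs [IsAlgClosed Ω] {x : σ → T → Ω} (hx : Cl β x) {P : Ideal (MvPolynomial σ Ω)}
    (hP : P.IsPrime) (hG : GrJ β P) (hl : kerG Ω β x ≤ P) (hr : ∀ i, ∃ s, β s = i ∧ X s ∉ P) :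
    kerG Ω β (res (zs x P) x) = P := by
  apply le_antisymm
  · refine GrJ.le_of_forms (grJ_kerG _) fun d f hf h => ?_
    rw [mem_kerG hf, aeval_res] at h
    choose s hs hsP using hr
    have h1 : f * ∏ i, X (s i) ∈ P := by
      rw [← hP.radical, ← vanishingIdeal_zeroLocus_eq_radical (K := Ω), mem_vanishingIdeal_iff]
      intro y hy
      have hy' : ∀ g ∈ P, eval y g = 0 := fun g hg => hy g hg
      by_cases hz : Nz β y
      · obtain ⟨t, c, ht⟩ := hx.2 y hz fun g hg => hy' g (hl hg)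
        have h2 : t ∈ zs x P := fun g hg => by
          rw [aeval_apply]; exact vanish_of_prop hG hz c ht hy' g hg
        have h3 := h t h2
        rw [aeval_apply] at h3
        change eval y _ = 0
        rw [map_mul, eval_scale hf c ht, h3, mul_zero, zero_mul]
      · simp only [Nz, not_forall, not_exists, not_and, not_not] at hz
        obtain ⟨i, hi⟩ := hz
        change eval y _ = 0
        rw [map_mul, map_prod, Finset.prod_eq_zero (Finset.mem_univ i)
          (by rw [eval_X]; exact hi _ (hs i)), mul_zero]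
    refine (hP.mem_or_mem h1).resolve_right fun h2 => ?_
    obtain ⟨i, -, hi⟩ := (Ideal.IsPrime.prod_mem_iff (hp := hP)).1 h2
    exact hsP i hi
  · refine GrJ.le_of_forms hG fun d f hf h => ?_
    rw [mem_kerG hf, aeval_res]
    exact fun t ht => ht f h

theorem cl_zs {x : σ → T → Ω} (hx : Cl β x) {P : Ideal (MvPolynomial σ Ω)}
    (hG : GrJ β P) (hl : kerG Ω β x ≤ P) : Cl β (res (zs x P) x) := by
  refine ⟨fun t => hx.1 t, fun y hy h => ?_⟩
  have hy' : ∀ g ∈ P, eval y g = 0 := fun g hg => h g (GrJ.le_of_forms hG (fun d f hf h => by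
    rw [mem_kerG hf, aeval_res]
    exact fun t ht => ht f h) hg)
  obtain ⟨t, c, ht⟩ := hx.2 y hy fun g hg => hy' g (hl hg)
  exact ⟨⟨t, fun g hg => by rw [aeval_apply]; exact vanish_of_prop hG hy c ht hy' g hg⟩, c, ht⟩

omit [Fintype ι] [Finite σ] in
theorem nonempty_of_kerG {x : σ → T → Ω} (h : kerG Ω β x ≠ ⊤) : Nonempty T := by
  by_contra h0
  rw [not_nonempty_iff] at h0
  refine h ((Ideal.eq_top_iff_one _).2 ((mem_kerG (d := 0) ?_).2 (Subsingleton.elim _ _)))
  exact isWeightedHomogeneous_one _ _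

variable [Fintype κ] [Finite τ] {v : τ → κ} {x : σ → T → Ω} {z : τ → T → Ω}

/-- a system of charts -/
structure Charts (β : σ → ι) (x : σ → T → Ω) (v : τ → κ) (z : τ → T → Ω) where
  e : T → κ → ι → ℕ
  lam : T → κ → T → Ω
  G : T → τ → MvPolynomial σ Ω
  ne : ∀ t b, lam t b t ≠ 0
  hom : ∀ t j, G t j ∈ Sd Ω β (e t (v j))
  val : ∀ t j, aeval x (G t j) = lam t (v j) * z j

omit [Fintype ι] [Finite σ] [DecidableEq κ] [Fintype κ] [Finite τ] in
theorem Rg.charts (h : Rg β x v z) : Nonempty (Charts β x v z) := by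
  choose e lam G h1 h2 using h.2
  exact ⟨⟨e, lam, G, h1, fun t j => (h2 t j).1, fun t j => (h2 t j).2⟩⟩

theorem Charts.ev_hom (C : Charts β x v z) (c : T) {u : MvPolynomial (σ ⊕ τ) Ω} {D : ι ⊕ κ → ℕ}
    (hu : u ∈ Sd Ω (Sum.map β v) D) : ∃ d, Gr.ev (C.G c) u ∈ Sd Ω β d := by
  refine ⟨_, aeval_mem_Sd hu (Sum.elim (fun i => Pi.single i 1) (C.e c)) _ ?_⟩
  rintro (s | j)
  · exact X_mem_Sd s
  · exact C.hom c j

theorem Charts.ev_val (C : Charts β x v z) (c : T) {u : MvPolynomial (σ ⊕ τ) Ω} {D : ι ⊕ κ → ℕ}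
    (hu : u ∈ Sd Ω (Sum.map β v) D) : aeval x (Gr.ev (C.G c) u) =
      (∏ i, Sum.elim (fun _ => 1) (C.lam c) i ^ D i) * aeval (Sum.elim x z) u := by
  rw [← aeval_scale hu, Gr.ev, ← AlgHom.comp_apply, comp_aeval]
  congr 2
  funext s
  rcases s with s | j
  · simp
  · simpa using C.val c j

theorem Charts.mem_gr (C : Charts β x v z) (U : Set T) {u : MvPolynomial (σ ⊕ τ) Ω}
    {D : ι ⊕ κ → ℕ} (hu : u ∈ Sd Ω (Sum.map β v) D) :
    u ∈ Gr.gr β v C.G (kerG Ω β (res U x)) ↔ aeval (res U (Sum.elim x z)) u = 0 := by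
  rw [Gr.mem_gr hu, aeval_res]
  constructor
  · intro h t ht
    obtain ⟨d, hd⟩ := C.ev_hom t hu
    have h1 := (aeval_res U x _).1 ((mem_kerG hd).1 (h t)) t ht
    rw [C.ev_val t hu, Pi.mul_apply, Finset.prod_apply] at h1
    refine (mul_eq_zero.1 h1).resolve_left (Finset.prod_ne_zero_iff.2 fun i _ => ?_)
    rw [Pi.pow_apply]
    refine pow_ne_zero _ ?_
    rcases i with i | b
    · simp
    · exact C.ne t b
  · intro h c
    obtain ⟨d, hd⟩ := C.ev_hom c hu
    rw [mem_kerG hd, aeval_res]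
    intro t ht
    rw [C.ev_val c hu, Pi.mul_apply, h t ht, mul_zero]

theorem Charts.pI_gr (C : Charts β x v z) (U : Set T) :
    pI (Sum.map β v) (Gr.gr β v C.G (kerG Ω β (res U x))) =
      pf (blk Ω (Sum.map β v) (res U (Sum.elim x z))) :=
  pI_eq_pf _ (Lg.of_forall fun _ _ hu => C.mem_gr U hu)

omit [Fintype ι] [Finite σ] [DecidableEq κ] [Fintype κ] [Finite τ] in
theorem Charts.cross (C : Charts β x v z) (c c' : T) (i j : τ) (h : v i = v j) :
    C.G c' j * C.G c i - C.G c' i * C.G c j ∈ kerG Ω β x := by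
  have h1 : C.G c' j * C.G c i - C.G c' i * C.G c j ∈ Sd Ω β (C.e c' (v j) + C.e c (v j)) := by
    refine Submodule.sub_mem _ (IsWeightedHomogeneous.mul (C.hom c' j) ?_)
      (IsWeightedHomogeneous.mul ?_ (C.hom c j))
    · rw [← h]; exact C.hom c i
    · rw [← h]; exact C.hom c' i
  rw [mem_kerG h1, map_sub, map_mul, map_mul, C.val, C.val, C.val, C.val, h]
  ring

omit [DecidableEq κ] [Fintype κ] [Finite τ] in
theorem Charts.eval_ne (C : Charts β x v z) {y : σ → Ω} (hy : Nz β y) {t : T} {c : ι → Ω}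
    (ht : ∀ s, y s = c (β s) * x s t) (b : κ) : ∃ a : Ω, a ≠ 0 ∧
      ∀ j, v j = b → eval y (C.G t j) = a * z j t := by
  have hc : ∀ i, c i ≠ 0 := by
    intro i hi
    obtain ⟨s, hs, h1⟩ := hy i
    exact h1 (by rw [ht, hs, hi, zero_mul])
  refine ⟨(∏ i, c i ^ C.e t b i) * C.lam t b t, mul_ne_zero
    (Finset.prod_ne_zero_iff.2 fun i _ => pow_ne_zero _ (hc i)) (C.ne t b), fun j hj => ?_⟩
  rw [eval_scale (C.hom t j) c ht, ← aeval_apply, C.val, hj, Pi.mul_apply, mul_assoc]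

omit [DecidableEq κ] [Fintype κ] [Finite τ] in
theorem Charts.bpf (C : Charts β x v z) (hx : Cl β x) (hz : ∀ t, Nz v fun j => z j t) :
    Gr.Bpf β v C.G (kerG Ω β x) := by
  intro y hy hn
  obtain ⟨t, c, ht⟩ := hx.2 y hn hy
  refine ⟨t, fun b => ?_⟩
  obtain ⟨j, hj, h1⟩ := hz t b
  obtain ⟨a, ha, h2⟩ := C.eval_ne hn ht b
  exact ⟨j, hj, by rw [h2 j hj]; exact mul_ne_zero ha h1⟩

omit [Fintype κ] [Finite τ] in
/-- completeness passes to the graph of regular maps -/
theorem Cl.graph (hx : Cl β x) (hz : Rg β x v z) : Cl (Sum.map β v) (Sum.elim x z) := by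
  obtain ⟨C⟩ := hz.charts
  refine ⟨fun t => ?_, fun y hy h => ?_⟩
  · rintro (i | b)
    · obtain ⟨s, hs, h⟩ := hx.1 t i
      exact ⟨Sum.inl s, by simp [hs], h⟩
    · obtain ⟨j, hj, h⟩ := hz.1 t b
      exact ⟨Sum.inr j, by simp [hj], h⟩
  · have hn : Nz β fun s => y (Sum.inl s) := by
      intro i
      obtain ⟨s | j, hs, h1⟩ := hy (Sum.inl i)
      · exact ⟨s, by simpa using hs, h1⟩
      · simp at hs
    have hup : ∀ f : MvPolynomial σ Ω,
        eval y (Gr.up (τ := τ) f) = eval (fun s => y (Sum.inl s)) f := fun f => eval_rename _ _ _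
    have hup' : ∀ f : MvPolynomial σ Ω, aeval (Sum.elim x z) (Gr.up (τ := τ) f) = aeval x f :=
      fun f => aeval_rename _ _ _
    obtain ⟨t, c, ht⟩ := hx.2 _ hn fun f hf => by
      refine GrJ.le_of_forms (J := RingHom.ker (eval fun s => y (Sum.inl s))) (grJ_kerG x)
        (fun d g hg hk => ?_) hf
      rw [RingHom.mem_ker, ← hup]
      refine h _ ((mem_kerG (Gr.hom_up β v hg)).2 ?_)
      rw [hup']
      exact (mem_kerG hg).1 hk
    have key : ∀ b, ∃ a : Ω, ∀ j, v j = b → y (Sum.inr j) = a * z j t := by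
      intro b
      obtain ⟨i, hi, h1⟩ := hz.1 t b
      obtain ⟨a, ha, h2⟩ := C.eval_ne hn ht b
      refine ⟨y (Sum.inr i) / z i t, fun j hj => ?_⟩
      have h3 := h _ ((mem_kerG (Gr.hom_minor (w := β) (v := v) (G := C.G) (e := C.e) C.hom t
        (hi.trans hj.symm))).2 (by
          rw [map_sub, map_mul, map_mul, hup', hup', aeval_X, aeval_X, C.val, C.val, hi, hj]
          simp only [Sum.elim_inr]
          ring))
      rw [map_sub, map_mul, map_mul, hup, hup, eval_X, eval_X, h2 i hi, h2 j hj] at h3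
      have h4 : a * (y (Sum.inr j) * z i t - y (Sum.inr i) * z j t) = 0 := by
        rw [← h3]; ring
      have h5 := (mul_eq_zero.1 h4).resolve_left ha
      have h6 : z i t ≠ 0 := h1
      field_simp
      linear_combination h5
    choose a ha using key
    refine ⟨t, Sum.elim c a, ?_⟩
    rintro (s | j)
    · exact ht s
    · exact ha _ j rfl

omit [Fintype ι] [Finite σ] in
theorem kerG_univ (β : σ → ι) (x : σ → T → Ω) : kerG Ω β (res Set.univ x) = kerG Ω β x := by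
  have h : ∀ f, aeval (res Set.univ x) f = 0 ↔ aeval x f = 0 := fun f => by
    rw [aeval_res]; simp [funext_iff]
  simp only [kerG, h]

theorem Charts.pI_gr_univ (C : Charts β x v z) :
    pI (Sum.map β v) (Gr.gr β v C.G (kerG Ω β x)) =
      pf (blk Ω (Sum.map β v) (Sum.elim x z)) := by
  rw [← kerG_univ β x, C.pI_gr, ← pI_kerG, kerG_univ, pI_kerG]

omit [Fintype ι] [Finite σ] [Fintype κ] [Finite τ] in
theorem grJ_gr {Ch : Type} (G : Ch → τ → MvPolynomial σ Ω) (J : Ideal (MvPolynomial σ Ω)) :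
    GrJ (Sum.map β v) (Gr.gr β v G J) := fun D _ hu => Gr.cmp_mem_gr hu D

theorem sum_filter_map {A B : Type} (r : A → Prop) [DecidablePred r] (φ : A → B) (c : A → ℚ)
    (c' : B → ℚ) (l : List A) (h0 : ∀ a ∈ l, ¬ r a → c a = 0) (h1 : ∀ a ∈ l, r a → c a = c' (φ a)) :
    (l.map c).sum = (((l.filter fun a => r a).map φ).map c').sum := by
  induction l with
  | nil => simp
  | cons a l ih =>
    have ih' := ih (fun b hb => h0 b (List.mem_cons_of_mem _ hb))
      (fun b hb => h1 b (List.mem_cons_of_mem _ hb))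
    by_cases h : r a
    · rw [List.filter_cons_of_pos (by simpa using h), List.map_cons, List.map_cons, List.map_cons,
        List.sum_cons, List.sum_cons, ih', h1 a List.mem_cons_self h]
    · rw [List.filter_cons_of_neg (by simpa using h), List.map_cons, List.sum_cons, ih',
        h0 a List.mem_cons_self h, zero_add]

variable [IsAlgClosed Ω]

theorem Charts.pI_sup (C : Charts β x v z) (hx : Cl β x) (hz : ∀ t, Nz v fun j => z j t)
    {I : Ideal (MvPolynomial σ Ω)} (hI : GrJ β I) (hl : kerG Ω β x ≤ I) (f : MvPolynomial σ Ω) :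
    pI (Sum.map β v) (Gr.gr β v C.G (I ⊔ Ideal.span {f})) =
      pI (Sum.map β v) (Gr.gr β v C.G I ⊔ Ideal.span {Gr.up f}) := by
  obtain ⟨N, hN⟩ := Gr.gr_sup_span (e := C.e) ((C.bpf hx hz).mono hl) (fun f hf d => hI d f hf) C.hom
    (fun c c' i j h => hl (C.cross c c' i j h)) f
  exact pI_congr ⟨N, fun D hD u hu => hN D (fun i => hD _) u hu⟩

omit [Fintype κ] [Finite τ] [DecidableEq κ] in
/-- devissage on a complete point set -/
theorem dev (hx : Cl β x) {J : Ideal (MvPolynomial σ Ω)} (hJ : GrJ β J) (hl : kerG Ω β x ≤ J) :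
    ∃ l : List (Set T), (∀ U ∈ l, (kerG Ω β (res U x)).IsPrime ∧ J ≤ kerG Ω β (res U x) ∧
      Cl β (res U x)) ∧ ∀ (τ κ : Type) [DecidableEq κ] [Fintype κ] [Finite τ] (v : τ → κ)
      (z : τ → T → Ω) (_ : ∀ t, Nz v fun j => z j t) (C : Charts β x v z) (n : ℤ),
      Dg (pI (Sum.map β v) (Gr.gr β v C.G J)) n → ∀ s : ι ⊕ κ →₀ ℕ, n ≤ (s.degree : ℤ) →
        nc s (pI (Sum.map β v) (Gr.gr β v C.G J)) =
          (l.map fun U => nc s (pf (blk Ω (Sum.map β v) (res U (Sum.elim x z))))).sum := by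
  classical
  obtain ⟨l, h0, h2⟩ := Pr.poly_primes (wN β) J (fun f hf d => hJ d f hf)
  have h1 : ∀ P ∈ l, P.IsPrime ∧ GrJ β P ∧ J ≤ P := fun P hP =>
    ⟨(h0 P hP).1, fun d f hf => (h0 P hP).2.1 f hf d, (h0 P hP).2.2⟩
  refine ⟨(l.filter fun P => ∀ i, ∃ s, β s = i ∧ X s ∉ P).map (zs x), ?_, ?_⟩
  · intro U hU
    obtain ⟨P, hP, rfl⟩ := List.mem_map.1 hU
    obtain ⟨hP1, hP2⟩ := List.mem_filter.1 hP
    obtain ⟨a, b, c⟩ := h1 P hP1
    rw [kerG_zs hx a b (hl.trans c) (by simpa using hP2)]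
    exact ⟨a, c, cl_zs hx b (hl.trans c)⟩
  · intro τ κ _ _ _ v z hz C n hn s hs
    rw [h2 ℚ (fun I => nc s (pI (Sum.map β v) (Gr.gr β v C.G I)))
      (by simp only [Gr.gr_top, pI_top, map_zero]) ?_]
    · refine sum_filter_map _ _ _ _ l (fun P hP hr => ?_) (fun P hP hr => ?_)
      · simp only [not_forall, not_exists, not_and, not_not] at hr
        obtain ⟨i, hi⟩ := hr
        rw [pI_eq_zero ⟨1, fun D hD u hu => mem_of_block (i := Sum.inl i) ?_ (hD _) hu⟩, map_zero]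
        rintro (a | j) ha
        · refine Gr.map_up_le_gr (fun f hf d => (h1 P hP).2.1 d f hf) ?_
          have := Ideal.mem_map_of_mem (Gr.up (R := Ω) (σ := σ) (τ := τ))
            (hi a (by simpa using ha))
          rwa [rename_X] at this
        · simp at ha
      · obtain ⟨a, b, c⟩ := h1 P hP
        rw [← C.pI_gr, kerG_zs hx a b (hl.trans c) hr]
    · intro I d f hJI hI hf
      rw [C.pI_sup hx hz (fun d f hf => hI f hf d) (hl.trans hJI), ← Gr.gr_colon hf]
      exact nc_exact (grJ_gr _ _) (Gr.hom_up β v hf)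
        (hn.pI_mono (grJ_gr _ _) (grJ_gr _ _) (Gr.gr_mono hJI)) hs

omit [Fintype κ] [Finite τ] [DecidableEq κ] in
/-- the section of an irreducible complete point set by a hypersurface -/
theorem slice (hx : Cl β x) (hP : (kerG Ω β x).IsPrime) {f : MvPolynomial σ Ω} {e : ι → ℕ}
    (hf : f ∈ Sd Ω β e) (h0 : aeval x f ≠ 0) :
    ∃ l : List (Set T), (∀ U ∈ l, (kerG Ω β (res U x)).IsPrime ∧ (∀ t ∈ U, aeval x f t = 0) ∧
      Cl β (res U x) ∧ ∀ n : ℤ, Dg (pf (blk Ω β x)) n → Dg (pf (blk Ω β (res U x))) (n - 1)) ∧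
      ∀ (τ κ : Type) [DecidableEq κ] [Fintype κ] [Finite τ] (v : τ → κ)
      (z : τ → T → Ω) (_ : Rg β x v z) (n : ℤ),
      Dg (pf (blk Ω (Sum.map β v) (Sum.elim x z))) n → ∀ s : ι ⊕ κ →₀ ℕ, n ≤ (s.degree : ℤ) + 1 →
        ∑ i, (e i : ℚ) * nc (s + Finsupp.single (Sum.inl i) 1)
            (pf (blk Ω (Sum.map β v) (Sum.elim x z))) =
          (l.map fun U => nc s (pf (blk Ω (Sum.map β v) (res U (Sum.elim x z))))).sum := by
  have hfP : f ∉ kerG Ω β x := fun h => h0 ((mem_kerG hf).1 h)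
  have hJ : GrJ β (kerG Ω β x ⊔ Ideal.span {f}) := (grJ_kerG x).sup_span hf
  obtain ⟨l, h1, h2⟩ := dev hx hJ le_sup_left
  refine ⟨l, fun U hU => ⟨(h1 U hU).1, ?_, (h1 U hU).2.2, fun n hn => ?_⟩, ?_⟩
  · rw [← aeval_res, ← mem_kerG hf]
    exact (h1 U hU).2.1 (Ideal.mem_sup_right (Ideal.mem_span_singleton_self f))
  · rw [← pI_kerG] at hn ⊢
    exact (hn.cut (grJ_kerG x) hf (lg_prime hP hfP)).pI_mono hJ (grJ_kerG _) (h1 U hU).2.1
  · intro τ κ _ _ _ v z hz n hn s hs
    obtain ⟨C⟩ := hz.charts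
    rw [← C.pI_gr_univ] at hn ⊢
    have hc : Lg fun D => ∀ g ∈ Sd Ω (Sum.map β v) D, g * Gr.up f ∈ Gr.gr β v C.G (kerG Ω β x) →
        g ∈ Gr.gr β v C.G (kerG Ω β x) := Lg.of_forall fun D g hg h => by
      rwa [Gr.mul_up_mem_gr hf hg, colon_prime hP hfP] at h
    have e1 := C.pI_sup hx hz.1 (grJ_kerG x) le_rfl f
    rw [← h2 τ κ v z hz.1 C (n - 1)
      (by rw [e1]; exact hn.cut (grJ_gr _ _) (Gr.hom_up β v hf) hc) s (by omega), e1,
      nc_cut (grJ_gr _ _) (Gr.hom_up β v hf) hc hn hs, Fintype.sum_sum_type]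
    simp

end Pool.Agent.Tav.Sl
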