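import Pool.Agent.P.MP_2ce3e7_ag.Tav.XSpecA

/-! Reduction of ideals at a place: Hilbert functions, products, substitutions, flat models. -/

set_option autoImplicit false

noncomputable section

namespace Pool.Agent.Tav.Sp

open MvPolynomial Pool.Agent.P.MP_3c83d0_ag Pool.Agent.TateX TensorProduct

variable {L Ω σ τ Γ : Type} [Field L] [Field Ω] {P : Place L Ω}

theorem TP_map (H : MvPolynomial σ P.O) : P.TP (map P.O.subtype H) (map P.ev H) := ⟨H, rfl, rfl⟩

theorem mem_sp {J : Ideal (MvPolynomial σ L)} {F : MvPolynomial σ L} {G : MvPolynomial σ Ω}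
    (hF : F ∈ J) (h : P.TP F G) : G ∈ spI P J := Ideal.subset_span ⟨F, hF, h⟩

theorem sp_le {J : Ideal (MvPolynomial σ L)} {K : Ideal (MvPolynomial σ Ω)}
    (h : ∀ H : MvPolynomial σ P.O, map P.O.subtype H ∈ J → map P.ev H ∈ K) : spI P J ≤ K := by
  refine Ideal.span_le.2 ?_
  rintro G ⟨F, hF, H, rfl, rfl⟩
  exact h H hF

theorem sp_mono {J J' : Ideal (MvPolynomial σ L)} (h : J ≤ J') : spI P J ≤ spI P J' :=
  sp_le fun H hH => mem_sp (h hH) (TP_map H)

theorem sp_bot : spI P (⊥ : Ideal (MvPolynomial σ L)) = ⊥ := by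
  refine le_bot_iff.1 (sp_le fun H hH => ?_)
  have : H = 0 := map_injective _ P.O.subtype_injective (by rw [map_zero]; exact hH)
  rw [this, map_zero]
  exact Ideal.zero_mem _

theorem sp_top : spI P (⊤ : Ideal (MvPolynomial σ L)) = ⊤ :=
  (Ideal.eq_top_iff_one _).2 (mem_sp (F := 1) trivial ⟨1, map_one _, map_one _⟩)

theorem sp_iInf_le {C : Type} (J : C → Ideal (MvPolynomial σ L)) :
    spI P (⨅ c, J c) ≤ ⨅ c, spI P (J c) :=
  le_iInf fun c => sp_mono (iInf_le J c)

theorem sup_le_sp (J J' : Ideal (MvPolynomial σ L)) : spI P J ⊔ spI P J' ≤ spI P (J ⊔ J') :=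
  sup_le (sp_mono le_sup_left) (sp_mono le_sup_right)

theorem TP_X (v : σ) : P.TP (X v) (X v) := ⟨X v, map_X _ _, map_X _ _⟩

theorem TP_sub {F F' : MvPolynomial σ L} {G G' : MvPolynomial σ Ω} (h : P.TP F G)
    (h' : P.TP F' G') : P.TP (F - F') (G - G') := by
  obtain ⟨H, rfl, rfl⟩ := h
  obtain ⟨H', rfl, rfl⟩ := h'
  exact ⟨H - H', map_sub _ _ _, map_sub _ _ _⟩

theorem TP_aeval {g : σ → MvPolynomial τ L} {g' : σ → MvPolynomial τ Ω}
    (hg : ∀ v, P.TP (g v) (g' v)) {F : MvPolynomial σ L} {G : MvPolynomial σ Ω}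
    (h : P.TP F G) : P.TP (aeval g F) (aeval g' G) := by
  obtain ⟨H, rfl, rfl⟩ := h
  choose γ h1 h2 using hg
  obtain rfl : g = fun v => map P.O.subtype (γ v) := funext fun v => (h1 v).symm
  obtain rfl : g' = fun v => map P.ev (γ v) := funext fun v => (h2 v).symm
  exact ⟨bind₁ γ H, map_bind₁ _ _ _, map_bind₁ _ _ _⟩

theorem sp_comap_le {g : σ → MvPolynomial τ L} {g' : σ → MvPolynomial τ Ω}
    (hg : ∀ v, P.TP (g v) (g' v)) (K : Ideal (MvPolynomial τ L)) :
    spI P (K.comap (aeval g : MvPolynomial σ L →ₐ[L] MvPolynomial τ L)) ≤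
      (spI P K).comap (aeval g' : MvPolynomial σ Ω →ₐ[Ω] MvPolynomial τ Ω) :=
  sp_le fun H hH => mem_sp hH (TP_aeval hg (TP_map H))

theorem map_sp_le {g : σ → MvPolynomial τ L} {g' : σ → MvPolynomial τ Ω}
    (hg : ∀ v, P.TP (g v) (g' v)) (J : Ideal (MvPolynomial σ L)) :
    (spI P J).map (aeval g' : MvPolynomial σ Ω →ₐ[Ω] MvPolynomial τ Ω) ≤
      spI P (J.map (aeval g : MvPolynomial σ L →ₐ[L] MvPolynomial τ L)) :=
  Ideal.map_le_iff_le_comap.2 ((sp_mono Ideal.le_comap_map).trans (sp_comap_le hg _))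

theorem rename_sp_le (f : σ → τ) (J : Ideal (MvPolynomial σ L)) :
    (spI P J).map (rename f : MvPolynomial σ Ω →ₐ[Ω] MvPolynomial τ Ω) ≤
      spI P (J.map (rename f : MvPolynomial σ L →ₐ[L] MvPolynomial τ L)) :=
  Ideal.map_le_iff_le_comap.2 (sp_le fun H hH =>
    mem_sp (Ideal.mem_map_of_mem _ hH) (TP_rename f (TP_map H)))

theorem span_le_sp {A : Type} {g : A → MvPolynomial σ L} {g' : A → MvPolynomial σ Ω}
    (hg : ∀ a, P.TP (g a) (g' a)) {J : Ideal (MvPolynomial σ L)} (h : ∀ a, g a ∈ J) :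
    Ideal.span (Set.range g') ≤ spI P J := by
  refine Ideal.span_le.2 ?_
  rintro _ ⟨a, rfl⟩
  exact mem_sp (h a) (hg a)

section Graded
variable [AddCommMonoid Γ] {W : σ → Γ}

theorem gr_sp {J : Ideal (MvPolynomial σ L)}
    (h : ∀ d, ∀ f ∈ J, weightedHomogeneousComponent W d f ∈ J) :
    ∀ d, ∀ f ∈ spI P J, weightedHomogeneousComponent W d f ∈ spI P J := by
  intro d G hG
  rw [mem_spI] at hG ⊢
  induction hG using Submodule.span_induction with
  | mem G hG =>
    obtain ⟨F, hF, hT⟩ := hG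
    exact Submodule.subset_span ⟨_, h d F hF, TP_cmp W d hT⟩
  | zero => simp
  | add x y _ _ hx hy => rw [map_add]; exact Submodule.add_mem _ hx hy
  | smul a x _ hx => rw [map_smul]; exact Submodule.smul_mem _ _ hx

theorem finrank_sp {J : Ideal (MvPolynomial σ L)}
    (h : ∀ d, ∀ f ∈ J, weightedHomogeneousComponent W d f ∈ J) (d : Γ)
    [FiniteDimensional L (weightedHomogeneousSubmodule L W d)] :
    Module.finrank Ω ↥(weightedHomogeneousSubmodule Ω W d ⊓ (spI P J).restrictScalars Ω) =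
      Module.finrank L ↥(weightedHomogeneousSubmodule L W d ⊓ J.restrictScalars L) := by
  classical
  have hfd : FiniteDimensional L ↥(weightedHomogeneousSubmodule L W d ⊓ J.restrictScalars L) :=
    Submodule.finiteDimensional_of_le inf_le_left
  have key := specA_rank (P := P) (V := MvPolynomial σ L) (V' := MvPolynomial σ Ω) (lcoeff L)
    (lcoeff Ω)
    (fun v => v.support.finite_toSet.subset fun s hs => Finset.mem_coe.2 (mem_support_iff.2 hs))
    (fun v hv => MvPolynomial.ext _ _ hv) (fun v hv => MvPolynomial.ext _ _ hv)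
    (fun v hv => by
      obtain ⟨G, hG⟩ := specA_lift (P := P) (F := v) hv
      exact ⟨G, TP_iff.1 hG⟩)
    (weightedHomogeneousSubmodule L W d ⊓ J.restrictScalars L)
  rw [← key.2]
  have e : weightedHomogeneousSubmodule Ω W d ⊓ (spI P J).restrictScalars Ω =
      Submodule.span Ω {v' | ∃ v ∈ weightedHomogeneousSubmodule L W d ⊓
        J.restrictScalars L, ∀ i, P.To (lcoeff L i v) (lcoeff Ω i v')} := by
    refine le_antisymm ?_ (Submodule.span_le.2 ?_)
    · rintro G ⟨hG1, hG2⟩
      have h1 : weightedHomogeneousComponent W d G = G := by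
        rw [weightedHomogeneousComponent_of_mem hG1, if_pos rfl]
      have h2 : G ∈ Submodule.span Ω {G | ∃ F ∈ J, P.TP F G} := mem_spI.1 hG2
      rw [← h1]
      clear h1 hG1 hG2
      induction h2 using Submodule.span_induction with
      | mem G hG =>
        obtain ⟨F, hF, hT⟩ := hG
        exact Submodule.subset_span ⟨weightedHomogeneousComponent W d F,
          ⟨weightedHomogeneousComponent_isWeightedHomogeneous d F, h d F hF⟩,
          TP_iff.1 (TP_cmp W d hT)⟩
      | zero => simp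
      | add x y _ _ hx hy => rw [map_add]; exact Submodule.add_mem _ hx hy
      | smul a x _ hx => rw [map_smul]; exact Submodule.smul_mem _ _ hx
    · rintro G ⟨F, ⟨hF1, hF2⟩, hT⟩
      refine ⟨fun s hs => hF1 ((hT s).ne_zero hs), ?_⟩
      exact Ideal.subset_span ⟨F, hF2, TP_iff.2 hT⟩
  rw [e]

theorem finrank_whs (L Ω : Type) [Field L] [Field Ω] (W : σ → Γ) (d : Γ) :
    Module.finrank Ω (weightedHomogeneousSubmodule Ω W d) =
      Module.finrank L (weightedHomogeneousSubmodule L W d) := by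
  rw [weightedHomogeneousSubmodule_eq_finsupp_supported,
    weightedHomogeneousSubmodule_eq_finsupp_supported]
  exact (Module.finrank_eq_nat_card_basis (basisRestrictSupport Ω _)).trans
    (Module.finrank_eq_nat_card_basis (basisRestrictSupport L _)).symm

end Graded

section Box

theorem tes_tmul {K : Type} [CommRing K] (a : MvPolynomial σ K) (b : MvPolynomial τ K) :
    tensorEquivSum K σ τ K (a ⊗ₜ b) = rename Sum.inl a * rename Sum.inr b := by
  have h1 : ∀ a : MvPolynomial σ K, tensorEquivSum K σ τ K (a ⊗ₜ 1) = rename Sum.inl a := by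
    intro a
    induction a using MvPolynomial.induction_on with
    | C r => simp
    | add p q hp hq => rw [add_tmul, map_add, map_add, hp, hq]
    | mul_X p v hp =>
      rw [← one_mul (1 : MvPolynomial τ K), ← Algebra.TensorProduct.tmul_mul_tmul, map_mul, hp]
      simp
  have h2 : ∀ b : MvPolynomial τ K, tensorEquivSum K σ τ K (1 ⊗ₜ b) = rename Sum.inr b := by
    intro b
    induction b using MvPolynomial.induction_on with
    | C r =>
      have : (1 : MvPolynomial σ K) ⊗ₜ[K] (C r : MvPolynomial τ K) = C r ⊗ₜ[K] 1 := by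
        rw [C_eq_smul_one, C_eq_smul_one, tmul_smul, smul_tmul']
      rw [this]
      simp
    | add p q hp hq => rw [tmul_add, map_add, map_add, hp, hq]
    | mul_X p v hp =>
      rw [← one_mul (1 : MvPolynomial σ K), ← Algebra.TensorProduct.tmul_mul_tmul, map_mul, hp]
      simp
  rw [← h1, ← h2, ← map_mul, Algebra.TensorProduct.tmul_mul_tmul, mul_one, one_mul]

theorem exists_ctr {K : Type} [CommRing K] (l : MvPolynomial σ K →ₗ[K] K) :
    ∃ T : MvPolynomial (σ ⊕ τ) K →ₗ[K] MvPolynomial τ K,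
      (∀ a b, T (rename Sum.inl a * rename Sum.inr b) = l a • b) ∧
      ∀ (J : Ideal (MvPolynomial σ K)) (J' : Ideal (MvPolynomial τ K)), (∀ a ∈ J, l a = 0) →
        ∀ F ∈ J.map (rename Sum.inl : _ →ₐ[K] MvPolynomial (σ ⊕ τ) K) ⊔
          J'.map (rename Sum.inr : _ →ₐ[K] MvPolynomial (σ ⊕ τ) K), T F ∈ J' := by
  let T : MvPolynomial (σ ⊕ τ) K →ₗ[K] MvPolynomial τ K :=
    (TensorProduct.lid K _).toLinearMap ∘ₗ l.rTensor _ ∘ₗ
      (tensorEquivSum K σ τ K).symm.toLinearMap
  have hT : ∀ a b, T (rename Sum.inl a * rename Sum.inr b) = l a • b := by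
    intro a b
    rw [← tes_tmul]
    simp [T]
  refine ⟨T, hT, fun J J' hl F hF => ?_⟩
  have key : ∀ x : MvPolynomial (σ ⊕ τ) K,
      (∀ a b, T (rename Sum.inl a * rename Sum.inr b * x) ∈ J') → ∀ G, T (G * x) ∈ J' := by
    intro x hx G
    obtain ⟨t, rfl⟩ := (tensorEquivSum K σ τ K).surjective G
    induction t using TensorProduct.induction_on with
    | zero => simp
    | tmul a b => rw [tes_tmul]; exact hx a b
    | add s t hs ht => rw [map_add, add_mul, map_add]; exact J'.add_mem hs ht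
  let Q : Ideal (MvPolynomial (σ ⊕ τ) K) :=
    { carrier := {x | ∀ G, T (G * x) ∈ J'}
      add_mem' := fun {x y} hx hy G => by
        rw [mul_add, map_add]
        exact J'.add_mem (hx G) (hy G)
      zero_mem' := fun G => by simp
      smul_mem' := fun c x hx G => by
        rw [smul_eq_mul, ← mul_assoc]
        exact hx _ }
  have hle : J.map (rename Sum.inl : _ →ₐ[K] MvPolynomial (σ ⊕ τ) K) ⊔
      J'.map (rename Sum.inr : _ →ₐ[K] MvPolynomial (σ ⊕ τ) K) ≤ Q := by
    refine sup_le (Ideal.map_le_iff_le_comap.2 fun j hj => key _ fun a b => ?_)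
      (Ideal.map_le_iff_le_comap.2 fun j hj => key _ fun a b => ?_)
    · rw [mul_right_comm, ← map_mul, hT, hl _ (J.mul_mem_left a hj), zero_smul]
      exact J'.zero_mem
    · rw [mul_assoc, ← map_mul, hT, smul_eq_C_mul]
      exact J'.mul_mem_left _ (J'.mul_mem_left b hj)
  simpa using hle hF 1

theorem exists_dec {K : Type} [CommRing K] (H : MvPolynomial (σ ⊕ τ) K) :
    ∃ (M : Finset (σ →₀ ℕ)) (h : (σ →₀ ℕ) → MvPolynomial τ K),
      H = ∑ m ∈ M, rename Sum.inl (monomial m (1 : K)) * rename Sum.inr (h m) := by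
  refine ⟨(sumAlgEquiv K σ τ H).support, fun m => coeff m (sumAlgEquiv K σ τ H), ?_⟩
  apply (sumAlgEquiv K σ τ).injective
  rw [map_sum]
  conv_lhs => rw [(sumAlgEquiv K σ τ H).as_sum]
  refine Finset.sum_congr rfl fun m _ => ?_
  have e1 := AlgHom.congr_fun (sumAlgEquiv_comp_rename_inl K σ τ) (monomial m (1 : K))
  have e2 := AlgHom.congr_fun (sumAlgEquiv_comp_rename_inr K σ τ)
    (coeff m (sumAlgEquiv K σ τ H))
  simp only [AlgHom.comp_apply, AlgEquiv.coe_toAlgHom] at e1 e2
  rw [map_mul, e1, e2]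
  simp only [mapAlgHom_apply, map_monomial, map_one, IsScalarTower.coe_toAlgHom', algebraMap_eq]
  rw [mul_comm, C_mul_monomial, mul_one]

theorem exists_ext {K V : Type} [Field K] [AddCommGroup V] [Module K V] (A J : Submodule K V)
    (l : V →ₗ[K] K) (h : ∀ v ∈ A, v ∈ J → l v = 0) :
    ∃ l' : V →ₗ[K] K, (∀ v ∈ A, l' v = l v) ∧ ∀ v ∈ J, l' v = 0 := by
  have h1 : l ∘ₗ A.subtype ∈ (LinearMap.ker (J.mkQ ∘ₗ A.subtype)).dualAnnihilator := by
    rw [Submodule.mem_dualAnnihilator]
    intro w hw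
    exact h w w.2 ((Submodule.Quotient.mk_eq_zero J).1 hw)
  rw [← LinearMap.range_dualMap_eq_dualAnnihilator_ker] at h1
  obtain ⟨g, hg⟩ := h1
  refine ⟨g ∘ₗ J.mkQ, fun v hv => LinearMap.congr_fun hg ⟨v, hv⟩, fun v hv => ?_⟩
  rw [LinearMap.comp_apply, Submodule.mkQ_apply, (Submodule.Quotient.mk_eq_zero J).2 hv, map_zero]

theorem sp_box (J : Ideal (MvPolynomial σ L)) (J' : Ideal (MvPolynomial τ L)) :
    spI P (J.map (rename Sum.inl : _ →ₐ[L] MvPolynomial (σ ⊕ τ) L) ⊔
        J'.map (rename Sum.inr : _ →ₐ[L] MvPolynomial (σ ⊕ τ) L)) =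
      (spI P J).map (rename Sum.inl : _ →ₐ[Ω] MvPolynomial (σ ⊕ τ) Ω) ⊔
        (spI P J').map (rename Sum.inr : _ →ₐ[Ω] MvPolynomial (σ ⊕ τ) Ω) := by
  classical
  refine le_antisymm (sp_le fun H hH => ?_)
    ((sup_le_sup (rename_sp_le _ J) (rename_sp_le _ J')).trans (sup_le_sp _ _))
  obtain ⟨M, h, rfl⟩ := exists_dec H
  let A : Submodule L (MvPolynomial σ L) := restrictSupport L (M : Set (σ →₀ ℕ))
  have hA : FiniteDimensional L A := by
    have : Finite (M : Set (σ →₀ ℕ)) := M.finite_toSet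
    exact Module.Finite.of_basis (basisRestrictSupport L _)
  have hfd : FiniteDimensional L ↥(A ⊓ J.restrictScalars L) :=
    Submodule.finiteDimensional_of_le inf_le_left
  obtain ⟨n, b, p, hb, hbO, hd, hz⟩ := specA_basis (P := P) (V := MvPolynomial σ L) (lcoeff L)
    (fun v => v.support.finite_toSet.subset fun s hs => Finset.mem_coe.2 (mem_support_iff.2 hs))
    (fun v hv => MvPolynomial.ext _ _ hv) _ _ hfd (Nat.lt_succ_self _)
  simp only [lcoeff_apply] at hbO hd hz
  have hrep : ∀ v ∈ A ⊓ J.restrictScalars L, v = ∑ i, coeff (p i) v • b i := by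
    intro v hv
    rw [← sub_eq_zero]
    refine hz _ (Submodule.sub_mem _ hv
      (Submodule.sum_mem _ fun j _ => Submodule.smul_mem _ _ (hb j))) fun j => ?_
    simp [coeff_sum, hd]
  have hsup : ∀ i, (b i).support ⊆ M := fun i => (hb i).1
  have hpM : ∀ i, p i ∈ M := fun i => hsup i (mem_support_iff.2 (by simp [hd]))
  let β : Fin n → MvPolynomial σ P.O := fun i => ∑ m ∈ M, monomial m ⟨coeff m (b i), hbO i m⟩
  have hβ : ∀ i, map P.O.subtype (β i) = b i := by
    intro i
    rw [map_sum]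
    simp only [map_monomial]
    conv_rhs => rw [(b i).as_sum]
    refine (Finset.sum_subset (hsup i) fun m _ hm => ?_).symm
    change monomial m (coeff m (b i)) = 0
    rw [notMem_support_iff.1 hm, map_zero]
  let h' : (σ →₀ ℕ) → MvPolynomial τ P.O := fun m =>
    h m - ∑ i, C ⟨coeff m (b i), hbO i m⟩ * h (p i)
  have hJ' : ∀ m ∈ M, map P.O.subtype (h' m) ∈ J' := by
    intro m hm
    obtain ⟨l, hl, hl0⟩ := exists_ext A (J.restrictScalars L)
      (lcoeff L m - ∑ i, coeff m (b i) • lcoeff L (p i)) (fun v hv hv' => by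
        have := congrArg (coeff m) (hrep v ⟨hv, hv'⟩)
        simp only [coeff_sum, coeff_smul, smul_eq_mul] at this
        simp only [LinearMap.sub_apply, LinearMap.sum_apply, LinearMap.smul_apply, lcoeff_apply,
          smul_eq_mul]
        rw [this, sub_eq_zero]
        exact Finset.sum_congr rfl fun i _ => mul_comm _ _)
    obtain ⟨T, hT, hT'⟩ := exists_ctr (τ := τ) l
    have h1 := hT' J J' hl0 _ hH
    have h2 : ∀ m' ∈ M, l (monomial m' 1) =
        (if m' = m then 1 else 0) - ∑ i, coeff m (b i) * if m' = p i then 1 else 0 := by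
      intro m' hm'
      rw [hl _ (fun s hs => by
        have := support_monomial_subset hs
        rw [Finset.mem_singleton.1 this]
        exact hm')]
      simp [coeff_monomial]
    have h3 : T (map P.O.subtype (∑ m ∈ M, rename Sum.inl (monomial m (1 : P.O)) *
        rename Sum.inr (h m))) = map P.O.subtype (h' m) := by
      simp only [map_sum, map_mul, map_rename, map_monomial, map_one, hT, h', map_sub, map_C]
      rw [Finset.sum_congr rfl fun m' hm' => by rw [h2 m' hm']]
      simp only [sub_smul, Finset.sum_sub_distrib, ite_smul, one_smul, zero_smul,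
        Finset.sum_ite_eq', if_pos hm, Finset.sum_smul, mul_ite, mul_one, mul_zero]
      rw [Finset.sum_comm]
      simp only [Finset.sum_ite_eq', if_pos (hpM _), smul_eq_C_mul]
      rfl
    rwa [h3] at h1
  have e : ∑ m ∈ M, rename Sum.inl (monomial m (1 : P.O)) * rename Sum.inr (h m) =
      ∑ m ∈ M, rename Sum.inl (monomial m (1 : P.O)) * rename Sum.inr (h' m) +
        ∑ i, rename Sum.inl (β i) * (rename Sum.inr (h (p i)) : MvPolynomial (σ ⊕ τ) P.O) := by
    simp only [h', β, map_sub, map_sum, map_mul, mul_sub, Finset.sum_sub_distrib, Finset.mul_sum,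
      Finset.sum_mul, rename_C]
    rw [Finset.sum_comm, sub_add, eq_comm, sub_eq_self, sub_eq_zero]
    refine Finset.sum_congr rfl fun i _ => Finset.sum_congr rfl fun m _ => ?_
    rw [← mul_assoc, ← rename_C (σ := σ) Sum.inl, ← map_mul, mul_comm (monomial m 1),
      C_mul_monomial, mul_one]
  rw [e, map_add, map_sum, map_sum]
  refine Ideal.add_mem _ (Ideal.mem_sup_right (Ideal.sum_mem _ fun m hm => ?_))
    (Ideal.mem_sup_left (Ideal.sum_mem _ fun i _ => ?_))
  · rw [map_mul, map_rename, map_rename]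
    exact Ideal.mul_mem_left _ _ (Ideal.mem_map_of_mem _ (mem_sp (hJ' m hm) (TP_map _)))
  · rw [map_mul, map_rename, map_rename]
    exact Ideal.mul_mem_right _ _
      (Ideal.mem_map_of_mem _ (mem_sp (hb i).2 ⟨β i, hβ i, rfl⟩))

theorem sp_inl (J : Ideal (MvPolynomial σ L)) :
    spI P (J.map (rename Sum.inl : _ →ₐ[L] MvPolynomial (σ ⊕ τ) L)) =
      (spI P J).map (rename Sum.inl : _ →ₐ[Ω] MvPolynomial (σ ⊕ τ) Ω) := by
  have := sp_box (P := P) J (⊥ : Ideal (MvPolynomial τ L))
  rwa [sp_bot, Ideal.map_bot, Ideal.map_bot, sup_bot_eq, sup_bot_eq] at this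

theorem map_rename_comp {K ρ : Type} [CommRing K] (f : σ → τ) (g : τ → ρ)
    (J : Ideal (MvPolynomial σ K)) :
    (J.map (rename f : _ →ₐ[K] MvPolynomial τ K)).map (rename g : _ →ₐ[K] MvPolynomial ρ K) =
      J.map (rename (g ∘ f) : _ →ₐ[K] MvPolynomial ρ K) := by
  rw [Ideal.map_mapₐ, rename_comp_rename]

theorem sp_equiv (e : σ ≃ τ) (J : Ideal (MvPolynomial σ L)) :
    spI P (J.map (rename e : _ →ₐ[L] MvPolynomial τ L)) =
      (spI P J).map (rename e : _ →ₐ[Ω] MvPolynomial τ Ω) := by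
  refine le_antisymm ?_ (rename_sp_le _ _)
  have h1 := rename_sp_le (P := P) e.symm (J.map (rename e : _ →ₐ[L] MvPolynomial τ L))
  have h2 := Ideal.map_mono (f := (rename e : _ →ₐ[Ω] MvPolynomial τ Ω)) h1
  rwa [map_rename_comp, map_rename_comp, e.self_comp_symm, e.symm_comp_self, rename_id,
    rename_id, Ideal.map_idₐ, Ideal.map_idₐ] at h2

theorem sp_box' {ρ : Type} (f : σ → ρ) (g : τ → ρ) (hi : Function.Injective (Sum.elim f g))
    (J : Ideal (MvPolynomial σ L)) (J' : Ideal (MvPolynomial τ L)) :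
    spI P (J.map (rename f : _ →ₐ[L] MvPolynomial ρ L) ⊔
        J'.map (rename g : _ →ₐ[L] MvPolynomial ρ L)) =
      (spI P J).map (rename f : _ →ₐ[Ω] MvPolynomial ρ Ω) ⊔
        (spI P J').map (rename g : _ →ₐ[Ω] MvPolynomial ρ Ω) := by
  classical
  obtain ⟨α, e, rfl, rfl⟩ : ∃ (α : Type) (e : (σ ⊕ τ) ⊕ α ≃ ρ),
      f = e ∘ Sum.inl ∘ Sum.inl ∧ g = e ∘ Sum.inl ∘ Sum.inr :=
    ⟨↥(Set.range (Sum.elim f g))ᶜ,
      ((Equiv.ofInjective _ hi).sumCongr (Equiv.refl _)).trans (Equiv.Set.sumCompl _), rfl, rfl⟩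
  simp only [← map_rename_comp, ← Ideal.map_sup]
  rw [sp_equiv, sp_inl, sp_box]

theorem sp_rename {f : σ → τ} (hf : Function.Injective f) (J : Ideal (MvPolynomial σ L)) :
    spI P (J.map (rename f : _ →ₐ[L] MvPolynomial τ L)) =
      (spI P J).map (rename f : _ →ₐ[Ω] MvPolynomial τ Ω) := by
  have := sp_box' (P := P) f (Empty.elim : Empty → τ)
    (hf.sumElim (fun a => a.elim) fun _ a => a.elim) J ⊥
  rwa [sp_bot, Ideal.map_bot, Ideal.map_bot, sup_bot_eq, sup_bot_eq] at this

end Box

section Flat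
variable {O : Type} [CommRing O] [IsDomain O] [ValuationRing O]

theorem exists_dvd_all {A : Type} (c : A → O) (s : Finset A) (hs : s.Nonempty) :
    ∃ a ∈ s, ∀ x ∈ s, c a ∣ c x := by
  induction hs using Finset.Nonempty.cons_induction with
  | singleton a => exact ⟨a, by simp, by simp⟩
  | cons a s ha hs ih =>
    obtain ⟨y, hy, h⟩ := ih
    rcases ValuationRing.dvd_total (c a) (c y) with h1 | h1
    · refine ⟨a, by simp, fun x hx => ?_⟩
      rcases Finset.mem_cons.1 hx with rfl | hx
      · exact dvd_rfl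
      · exact h1.trans (h x hx)
    · refine ⟨y, by simp [hy], fun x hx => ?_⟩
      rcases Finset.mem_cons.1 hx with rfl | hx
      · exact h1
      · exact h x hx

theorem exists_piv {I : Ideal (MvPolynomial σ O)} (hI : ∀ a ≠ (0 : O), ∀ f, C a * f ∈ I → f ∈ I)
    (s : Finset (MvPolynomial σ O)) (hs : ∀ f ∈ s, f ∈ I) :
    ∃ (n : ℕ) (b : Fin n → MvPolynomial σ O) (p : Fin n → σ →₀ ℕ), (∀ i, b i ∈ I) ∧
      (∀ i j, coeff (p j) (b i) = if i = j then 1 else 0) ∧
      ∀ f ∈ s, f ∈ Submodule.span O (Set.range b) := by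
  classical
  induction s using Finset.induction_on with
  | empty => exact ⟨0, Fin.elim0, Fin.elim0, fun i => i.elim0, fun i => i.elim0, by simp⟩
  | insert f s hf ih =>
    obtain ⟨n, b, p, hb, hd, hsp⟩ := ih fun g hg => hs g (Finset.mem_insert_of_mem hg)
    have hbs : ∑ j, coeff (p j) f • b j ∈ Submodule.span O (Set.range b) :=
      Submodule.sum_mem _ fun j _ => Submodule.smul_mem _ _ (Submodule.subset_span ⟨j, rfl⟩)
    obtain ⟨g, hg⟩ : ∃ g, g = f - ∑ j, coeff (p j) f • b j := ⟨_, rfl⟩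
    have hgI : g ∈ I := by
      rw [hg]
      refine I.sub_mem (hs f (Finset.mem_insert_self _ _)) (I.sum_mem fun j _ => ?_)
      rw [smul_eq_C_mul]
      exact I.mul_mem_left _ (hb j)
    have hg0 : ∀ j, coeff (p j) g = 0 := fun j => by simp [hg, coeff_sum, hd]
    by_cases h0 : g = 0
    · refine ⟨n, b, p, hb, hd, fun x hx => ?_⟩
      rcases Finset.mem_insert.1 hx with rfl | hx
      · rw [h0, eq_comm, sub_eq_zero] at hg
        rw [hg]
        exact hbs
      · exact hsp x hx
    · obtain ⟨q, hq, hdv⟩ := exists_dvd_all (fun m => coeff m g) g.support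
        (support_nonempty.2 h0)
      have hq0 : coeff q g ≠ 0 := mem_support_iff.1 hq
      obtain ⟨u, hu⟩ : C (coeff q g) ∣ g := by
        rw [C_dvd_iff_dvd_coeff]
        intro m
        by_cases hm : m ∈ g.support
        · exact hdv m hm
        · rw [notMem_support_iff.1 hm]
          exact dvd_zero _
      have hc : ∀ m, coeff m g = coeff q g * coeff m u := fun m => by
        conv_lhs => rw [hu, coeff_C_mul]
      have huI : u ∈ I := hI _ hq0 u (hu ▸ hgI)
      have hu1 : coeff q u = 1 := mul_left_cancel₀ hq0 (by rw [← hc, mul_one])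
      have hu0 : ∀ j, coeff (p j) u = 0 := fun j =>
        (mul_eq_zero.1 ((hc _).symm.trans (hg0 j))).resolve_left hq0
      have hle : Submodule.span O (Set.range b) ≤ Submodule.span O
          (Set.range (Fin.cons u fun i => b i - coeff q (b i) • u : Fin (n + 1) → _)) := by
        refine Submodule.span_le.2 ?_
        rintro _ ⟨i, rfl⟩
        rw [← sub_add_cancel (b i) (coeff q (b i) • u)]
        exact Submodule.add_mem _ (Submodule.subset_span ⟨i.succ, rfl⟩)
          (Submodule.smul_mem _ _ (Submodule.subset_span ⟨0, rfl⟩))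
      refine ⟨n + 1, Fin.cons u fun i => b i - coeff q (b i) • u, Fin.cons q p, ?_, ?_, ?_⟩
      · intro i
        refine Fin.cases huI (fun i => I.sub_mem (hb i) ?_) i
        rw [smul_eq_C_mul]
        exact I.mul_mem_left _ huI
      · intro i j
        refine Fin.cases ?_ (fun i => ?_) i
        · refine Fin.cases ?_ (fun j => ?_) j
          · simp [hu1]
          · simp [hu0, (Fin.succ_ne_zero j).symm]
        · refine Fin.cases ?_ (fun j => ?_) j
          · simp [hu1]
          · simp [hu0, hd]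
      · intro x hx
        rcases Finset.mem_insert.1 hx with rfl | hx
        · rw [← sub_add_cancel x (∑ j, coeff (p j) x • b j), ← hg, hu, ← smul_eq_C_mul]
          exact Submodule.add_mem _
            (Submodule.smul_mem _ _ (Submodule.subset_span ⟨0, rfl⟩)) (hle hbs)
        · exact hle (hsp x hx)

theorem mem_span_of_map {R K : Type} [CommRing R] [CommRing K] (i : R →+* K)
    {I : Ideal (MvPolynomial σ R)} {F : MvPolynomial σ K} (hF : F ∈ I.map (map i)) :
    F ∈ Submodule.span K (map i '' (I : Set (MvPolynomial σ R))) := by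
  have hX : ∀ (v : σ), ∀ G ∈ Submodule.span K (map i '' (I : Set (MvPolynomial σ R))),
      X v * G ∈ Submodule.span K (map i '' (I : Set (MvPolynomial σ R))) := by
    intro v G hG
    induction hG using Submodule.span_induction with
    | mem G hG =>
      obtain ⟨f, hf, rfl⟩ := hG
      exact Submodule.subset_span ⟨X v * f, I.mul_mem_left _ hf, by rw [map_mul, map_X]⟩
    | zero => simp
    | add x y _ _ hx hy => rw [mul_add]; exact Submodule.add_mem _ hx hy
    | smul a x _ hx => rw [mul_smul_comm]; exact Submodule.smul_mem _ _ hx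
  have hq : ∀ (q : MvPolynomial σ K),
      ∀ G ∈ Submodule.span K (map i '' (I : Set (MvPolynomial σ R))),
      q * G ∈ Submodule.span K (map i '' (I : Set (MvPolynomial σ R))) := by
    intro q
    induction q using MvPolynomial.induction_on with
    | C a => intro G hG; rw [C_mul']; exact Submodule.smul_mem _ _ hG
    | add p q hp hq => intro G hG; rw [add_mul]; exact Submodule.add_mem _ (hp G hG) (hq G hG)
    | mul_X p v hp => intro G hG; rw [mul_assoc]; exact hp _ (hX v G hG)
  induction hF using Submodule.span_induction with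
  | mem G hG => exact Submodule.subset_span hG
  | zero => simp
  | add x y _ _ hx hy => exact Submodule.add_mem _ hx hy
  | smul a x _ hx => exact hq a x hx

omit [IsDomain O] [ValuationRing O] in
theorem TP_of (i : O →+* L) (φ : O →+* Ω) (hP : ∀ a, P.To (i a) (φ a)) (f : MvPolynomial σ O) :
    P.TP (map i f) (map φ f) :=
  TP_iff.2 fun s => by rw [coeff_map, coeff_map]; exact hP _

omit [IsDomain O] [ValuationRing O] in
theorem map_le_sp (i : O →+* L) (φ : O →+* Ω) (hP : ∀ a, P.To (i a) (φ a))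
    {I : Ideal (MvPolynomial σ O)} {J : Ideal (MvPolynomial σ L)} (h : I.map (map i) ≤ J) :
    I.map (map φ) ≤ spI P J :=
  Ideal.map_le_iff_le_comap.2 fun f hf =>
    mem_sp (h (Ideal.mem_map_of_mem _ hf)) (TP_of i φ hP f)

theorem sp_flat (i : O →+* L) (φ : O →+* Ω) (hP : ∀ a, P.To (i a) (φ a))
    {I : Ideal (MvPolynomial σ O)} (hI : ∀ a ≠ (0 : O), ∀ f, C a * f ∈ I → f ∈ I) :
    spI P (I.map (map i)) = I.map (map φ) := by
  classical
  refine le_antisymm (sp_le fun H hH => ?_) (map_le_sp i φ hP le_rfl)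
  obtain ⟨T, hT, hH'⟩ := Submodule.mem_span_finite_of_mem_span (mem_span_of_map i hH)
  choose! g hg hg' using fun x (hx : x ∈ T) => hT hx
  obtain ⟨n, b, p, hb, hd, hsp⟩ := exists_piv hI (T.image g) (by
    intro f hf
    obtain ⟨x, hx, rfl⟩ := Finset.mem_image.1 hf
    exact hg x hx)
  have h1 : map P.O.subtype H ∈ Submodule.span L (Set.range fun j => map i (b j)) := by
    refine Submodule.span_le.2 (fun x hx => ?_) hH'
    obtain ⟨c, hc⟩ := (Submodule.mem_span_range_iff_exists_fun O).1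
      (hsp _ (Finset.mem_image_of_mem g hx))
    rw [← hg' x hx, ← hc, map_sum]
    refine Submodule.sum_mem _ fun j _ => ?_
    rw [smul_eq_C_mul, map_mul, map_C, ← smul_eq_C_mul]
    exact Submodule.smul_mem _ _ (Submodule.subset_span ⟨j, rfl⟩)
  obtain ⟨c, hc⟩ := (Submodule.mem_span_range_iff_exists_fun L).1 h1
  have hc' : ∀ j, c j = (coeff (p j) H : P.O) := fun j => by
    have := congrArg (coeff (p j)) hc
    simpa [coeff_sum, coeff_map, hd, apply_ite i] using this
  have h2 : P.TP (map P.O.subtype H) (∑ j, C (P.ev (coeff (p j) H)) * map φ (b j)) := by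
    rw [← hc]
    refine TP_sum _ fun j _ => ?_
    rw [smul_eq_C_mul, hc']
    exact TP_mul ⟨C (coeff (p j) H), map_C _ _, map_C _ _⟩ (TP_of i φ hP _)
  have h3 : map P.ev H = ∑ j, C (P.ev (coeff (p j) H)) * map φ (b j) :=
    MvPolynomial.ext _ _ fun s => (TP_iff.1 (TP_map H) s).uniq (TP_iff.1 h2 s)
  rw [h3]
  exact Ideal.sum_mem _ fun j _ => Ideal.mul_mem_left _ _ (Ideal.mem_map_of_mem _ (hb j))

end Flat

end Pool.Agent.Tav.Sp
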