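import Pool.Agent.P.MP_2ce3e7_ag.Tav.Sp
import Pool.Agent.P.MP_2ce3e7_ag.Tav.Graph
import Pool.Agent.P.MP_2ce3e7_ag.Tav.HPol

/-! Hilbert polynomials of ideals and of graphs are conserved under reduction at a place. -/

set_option autoImplicit false

noncomputable section

namespace Pool.Agent.Tav.Sp

open MvPolynomial Pool.Agent.P.MP_3c83d0_ag Pool.Agent.TateX

variable {L Ω σ τ ι κ Ch : Type} [Field L] [Field Ω] {P : Place L Ω}

theorem sp_eq (J : Ideal (MvPolynomial σ L)) : Gr.sp P.O.subtype P.ev J = spI P J :=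
  Gr.sp_eq_span _ _ J

variable [DecidableEq ι]

theorem grJ_sp {β : σ → ι} {J : Ideal (MvPolynomial σ L)} (h : GrJ β J) : GrJ β (spI P J) :=
  gr_sp h

theorem hI_sp [Finite σ] {β : σ → ι} {J : Ideal (MvPolynomial σ L)} (h : GrJ β J) (d : ι → ℕ) :
    hI β (spI P J) d = hI β J d := by
  have h1 := hI_add (β := β) J d
  have h2 := hI_add (β := β) (spI P J) d
  have h3 := finrank_sp (P := P) (W := wN β) h d
  have h4 := finrank_whs L Ω (wN β) d
  unfold Sd at h1 h2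
  omega

theorem evP_sp [Finite σ] {β : σ → ι} {J : Ideal (MvPolynomial σ L)} (h : GrJ β J)
    (Q : MvPolynomial ι ℚ) :
    EvP (fun d => (hI β (spI P J) d : ℚ)) Q ↔ EvP (fun d => (hI β J d : ℚ)) Q := by
  simp only [hI_sp h]

theorem pI_sp [Finite σ] {β : σ → ι} {J : Ideal (MvPolynomial σ L)} (h : GrJ β J) :
    pI β (spI P J) = pI β J := hP_congr (Lg.of_forall (hI_sp h))

theorem hI_flat [Finite σ] {O : Type} [CommRing O] [IsDomain O] [ValuationRing O] (i : O →+* L)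
    (φ : O →+* Ω) (hP : ∀ a, P.To (i a) (φ a)) {I : Ideal (MvPolynomial σ O)}
    (hI' : ∀ a ≠ (0 : O), ∀ f, C a * f ∈ I → f ∈ I) {β : σ → ι} (h : GrJ β (I.map (map i)))
    (d : ι → ℕ) : hI β (I.map (map φ)) d = hI β (I.map (map i)) d := by
  rw [← sp_flat i φ hP hI', hI_sp h]

variable [DecidableEq κ] [IsAlgClosed Ω] [Finite σ] [Finite τ] [Finite ι] [Finite κ]
  {w : σ → ι} {v : τ → κ} {G : Ch → τ → MvPolynomial σ L} {G' : Ch → τ → MvPolynomial σ Ω}
  {e : Ch → κ → ι → ℕ} {J : Ideal (MvPolynomial σ L)}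

theorem hI_gr_sp (hT : ∀ c j, P.TP (G c j) (G' c j)) (hb : Gr.Bpf w v G' (spI P J))
    (hJ : GrJ w J) (hG : ∀ c j, IsWeightedHomogeneous (wN w) (G c j) (e c (v j)))
    (h : ∀ c c' i j, v i = v j → G c' j * G c i - G c' i * G c j ∈ J) :
    ∃ N : ℕ, ∀ D : ι ⊕ κ → ℕ, (∀ i, N ≤ D (Sum.inl i)) →
      hI (Sum.map w v) (Gr.gr w v G' (spI P J)) D = hI (Sum.map w v) (Gr.gr w v G J) D := by
  choose γ h1 h2 using hT
  obtain rfl : G = fun c j => map P.O.subtype (γ c j) :=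
    funext fun c => funext fun j => (h1 c j).symm
  obtain rfl : G' = fun c j => map P.ev (γ c j) := funext fun c => funext fun j => (h2 c j).symm
  rw [← sp_eq] at hb
  obtain ⟨N, hN⟩ := Gr.sp_gr P.O.subtype P.ev hb (fun f hf d => hJ d f hf) hG h
  refine ⟨N, fun D hD => ?_⟩
  rw [← hI_sp (P := P) (β := Sum.map w v) (fun d f hf => Gr.cmp_mem_gr hf d)]
  refine hI_congr fun u hu => ?_
  have := hN D hD u hu
  rw [sp_eq, sp_eq] at this
  exact this.symm

theorem evP_gr_sp (hT : ∀ c j, P.TP (G c j) (G' c j)) (hb : Gr.Bpf w v G' (spI P J))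
    (hJ : GrJ w J) (hG : ∀ c j, IsWeightedHomogeneous (wN w) (G c j) (e c (v j)))
    (h : ∀ c c' i j, v i = v j → G c' j * G c i - G c' i * G c j ∈ J)
    (Q : MvPolynomial (ι ⊕ κ) ℚ) :
    EvP (fun D => (hI (Sum.map w v) (Gr.gr w v G' (spI P J)) D : ℚ)) Q ↔
      EvP (fun D => (hI (Sum.map w v) (Gr.gr w v G J) D : ℚ)) Q := by
  obtain ⟨N, hN⟩ := hI_gr_sp hT hb hJ hG h
  exact ⟨fun hQ => hQ.congr ⟨N, fun D hD => congrArg Nat.cast (hN D fun i => hD _)⟩,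
    fun hQ => hQ.congr ⟨N, fun D hD => congrArg Nat.cast (hN D fun i => hD _).symm⟩⟩

theorem pI_gr_sp (hT : ∀ c j, P.TP (G c j) (G' c j)) (hb : Gr.Bpf w v G' (spI P J))
    (hJ : GrJ w J) (hG : ∀ c j, IsWeightedHomogeneous (wN w) (G c j) (e c (v j)))
    (h : ∀ c c' i j, v i = v j → G c' j * G c i - G c' i * G c j ∈ J) :
    pI (Sum.map w v) (Gr.gr w v G' (spI P J)) = pI (Sum.map w v) (Gr.gr w v G J) := by
  obtain ⟨N, hN⟩ := hI_gr_sp hT hb hJ hG h
  exact hP_congr ⟨N, fun D hD => hN D fun i => hD _⟩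

end Pool.Agent.Tav.Sp
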