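import Pool.Agent.P.MP_2ce3e7_ag.Tav.Stmt0

/-! The definitions that occur in the statement: models with complex multiplication. -/

set_option autoImplicit false

noncomputable section

namespace Pool.Agent.Tav

open MvPolynomial Set Function

/-- a Riemann form exists -/
def Riem {V : Type} [NormedAddCommGroup V] [NormedSpace ℂ V] (Λ : Submodule ℤ V) : Prop :=
  ∃ ψ : V →ₗ[ℝ] V →ₗ[ℝ] ℝ, (∀ v, ψ v v = 0) ∧ (∀ l ∈ Λ, ∀ l' ∈ Λ, ∃ z : ℤ, ψ l l' = z) ∧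
    (∀ v w, ψ (Complex.I • v) (Complex.I • w) = ψ v w) ∧
    ∀ v, v ≠ 0 → 0 < ψ (Complex.I • v) v

/-- diagonal endomorphisms -/
def En {g : ℕ} (Λ : Submodule ℤ (Fin g → ℂ)) : Set (Fin g → ℂ) := {a | ∀ l ∈ Λ, a * l ∈ Λ}

/-- `x (v + w) ⊗ x (v - w)` is proportional to a system of forms of bidegree `(2, 2)` -/
def Law {K T σ : Type} [CommRing K] [Add T] [Sub T] (x : T → σ → K) : Prop :=
  ∃ c : T × T → K, (∀ t, IsUnit (c t)) ∧ ∀ i j,
    (c * fun t => x (t.1 + t.2) i * x (t.1 - t.2) j) ∈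
      (crd fun t => x t.1) ^ 2 * (crd fun t => x t.2) ^ 2

variable {Ω : Type} [Field Ω]

/-- an abelian scheme with complex multiplication over the valuation ring `R`, on points -/
structure Model {R : ValuationSubring ℂ} (r : R →+* Ω) (σ : Type) [Fintype σ] (g : ℕ) where
  Λ : Submodule ℤ (Fin g → ℂ)
  [disc : DiscreteTopology Λ]
  lat : IsZLattice ℝ Λ
  riem : Riem Λ
  cm : ∃ θ ∈ En Λ, Injective (Sum.elim θ (star θ))
  x : (Fin g → ℂ) → σ → R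
  hol : ∃ φ : (Fin g → ℂ) → σ → ℂ, Differentiable ℂ φ ∧ (∀ v, Par (φ v) fun l => x v l) ∧
    ∀ v w (c : ℂ), fderiv ℂ φ v w = c • φ v → w = 0
  ker : ∀ v w, Par (x v) (x w) ↔ v - w ∈ Λ
  gen : AV (fun v l => (x v l : ℂ)) g
  law : Law x
  reg : ∀ a ∈ En Λ, Mor x x (a * ·)
  B : Type
  [grp : AddCommGroup B]
  p : B → σ → Ω
  inj : ∀ b b', Par (p b) (p b') → b = b'
  sp : AV p g
  red : (Fin g → ℂ) →+ B
  onto : Surjective red
  hred : ∀ v, Par (p (red v)) fun l => r (x v l)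
  flat : hp ![crd p] = hp ![crd fun v l => (x v l : ℂ)]

attribute [instance] Model.grp Model.disc

variable {R : ValuationSubring ℂ} {r : R →+* Ω} {σ : Type} [Fintype σ] {g : ℕ}

/-- along `ψ`, the map `f` corresponds to the reduction of `a` -/
def Model.Eqv (X : Model r σ g) {G : Type} (ψ : G → X.B) (f : G → G) (a : Fin g → ℂ) : Prop :=
  ∀ y v, ψ y = X.red v → ψ (f y) = X.red (a * v)

/-- the special fibre is smooth at the origin -/
def Model.Sm (Y : Model r σ g) : Prop :=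
  let T : Submodule Ω (σ → Ω) := ⨅ f ∈ idl Y.p, LinearMap.ker
    (∑ l, eval (Y.p 0) (pderiv l f) • LinearMap.proj (R := Ω) (φ := fun _ => Ω) l)
  Module.finrank Ω T ≤ g + 1

/-- every CM type of `L` occurs in `Y` -/
def Model.All (Y : Model r σ g) (L : IntermediateField ℚ ℂ) (c : Gal(L/ℚ))
    (hL : ∀ a ∈ En Y.Λ, ∀ i, a i ∈ L) : Prop :=
  ∀ Φ : Set Gal(L/ℚ), 1 ∈ Φ → (∀ s, c * s ∈ Φ ↔ s ∉ Φ) → ∃ i, ∀ s, s ∈ Φ ↔
    ∃ i', ∀ a h, (s ⟨a i, hL a h i⟩ : ℂ) = a i'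

/-- the conjugates of `Y` under the decomposition group have an equivariant isogeny onto `Y` on
the special fibres -/
def Model.Twist (Y : Model r σ g) (L : IntermediateField ℚ ℂ)
    (hL : ∀ a ∈ En Y.Λ, ∀ i, a i ∈ L) : Prop :=
  ∀ s : Gal(L/ℚ), (∀ z : L, (s z : ℂ) ∈ R ↔ (z : ℂ) ∈ R) →
    ∃ (Y' : Model r σ g) (ψ : Y'.B →+ Y.B), Surjective ψ ∧ Mor Y'.p Y.p ψ ∧ ∀ a h,
      (fun i => (s ⟨a i, hL a h i⟩ : ℂ)) ∈ En Y'.Λ ∧ Y.Eqv (fun w => ψ (Y'.red w))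
        (fun w => (fun i => (s ⟨a i, hL a h i⟩ : ℂ)) * w) a

/-- `Y` is smooth at the origin, has an endomorphism ring that is maximal at `p`, and a lift of a power of
Frobenius; every CM type of `L` occurs in `Y`; the conjugates of `Y` under the decomposition
group have an equivariant isogeny onto `Y` on the special fibres -/
structure Model.Univ (Y : Model r σ g) (q : ℕ) (L : IntermediateField ℚ ℂ) (c : Gal(L/ℚ))
    (hL : ∀ a ∈ En Y.Λ, ∀ i, a i ∈ L) : Prop where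
  sm : Y.Sm
  max : ∃ n : ℕ, (n : Ω) ≠ 0 ∧
    ∀ a, IsIntegral ℤ a → ∀ m : ℕ, m ≠ 0 → m • a ∈ En Y.Λ → n • a ∈ En Y.Λ
  frob : ∃ a ∈ En Y.Λ, ∃ e ≠ 0, ∀ v, Par (Y.p (Y.red (a * v))) (Y.p (Y.red v) ^ q ^ e)
  all : Y.All L c hL
  twist : Y.Twist L hL

/-- the eigenvalues lie in a Galois CM field `L` with conjugation outside the decomposition
group, and `L` has a universal model -/
def Model.Full (X : Model r σ g) (q : ℕ) : Prop :=
  ∃ (L : IntermediateField ℚ ℂ) (_ : FiniteDimensional ℚ L) (_ : IsGalois ℚ L) (c : Gal(L/ℚ)),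
    (∀ z, (c z : ℂ) = star (z : ℂ)) ∧ (∀ s, s * c = c * s) ∧
    (∃ z : L, (z : ℂ) ∈ R ∧ (c z : ℂ) ∉ R) ∧ (∀ a ∈ En X.Λ, ∀ i, a i ∈ L) ∧
    ∃ (σ' : Type) (_ : Fintype σ') (g' : ℕ) (Y : Model r σ' g') (hL : _), Y.Univ q L c hL

/-- the statement -/
def Main : Prop :=
  ∀ (k : Type) [Field k] [Fintype k] {G τ σ : Type} [AddCommGroup G] [Fintype τ] [Fintype σ]
    (j j' : ℕ) (p : G → τ → AlgebraicClosure k) (_ : AV p (j + j'))
    (_ : ∀ y y', Par (p y) (p y') → y = y') (F : G →+ G)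
    (_ : ∀ y, Par (p (F y)) (p y ^ Fintype.card k))
    (R : ValuationSubring ℂ) (r : R →+* AlgebraicClosure k) (_ : Surjective r)
    (X : Model r σ (j + j')) (ψ : G →+ X.B) (ψ' : X.B →+ G) (_ : Mor p X.p ψ)
    (_ : Mor X.p p ψ') (_ : Surjective ψ') (m : ℕ) (_ : m ≠ 0) (_ : ∀ b, ψ (ψ' b) = m • b)
    (π : Fin (j + j') → ℂ) (_ : π ∈ En X.Λ) (_ : X.Eqv ψ F π)
    (_ : (∀ i, R.valuation (star (π i)) = 1) ∨ X.Full (Fintype.card k)),
    Tate p F (Fintype.card k) j j'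

end Pool.Agent.Tav
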