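import Pool.Agent.P.MP_2ce3e7_ag.Tav.GAll
import Pool.Agent.P.MP_2ce3e7_ag.Tav.SliceL

/-! Products of linear systems, equivalence of systems through a factor, spaces of sections. -/

set_option autoImplicit false

noncomputable section

namespace Pool.Agent.Tav

open MvPolynomial Module

variable {Ω : Type} [Field Ω] {T Y : Type} {β γ ν κ : Type}

instance LS.instMul : Mul (LS Ω T) where
  mul U V :=
    { sp := U.sp * V.sp
      fd := inferInstance
      nv := fun t => by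
        obtain ⟨u, hu, h⟩ := U.nv t
        obtain ⟨v, hv, h'⟩ := V.nv t
        exact ⟨u * v, Submodule.mul_mem_mul hu hv, mul_ne_zero h h'⟩ }

instance LS.instOne : One (LS Ω T) := ⟨LS.one Ω T⟩

@[simp] theorem LS.mul_sp (U V : LS Ω T) : (U * V).sp = U.sp * V.sp := rfl

@[simp] theorem LS.one_sp : (1 : LS Ω T).sp = 1 := rfl

theorem LS.one_eq : (1 : LS Ω T) = LS.one Ω T := rfl

instance LS.instCommMonoid : CommMonoid (LS Ω T) where
  mul_assoc _ _ _ := LS.ext' (mul_assoc _ _ _)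
  one_mul _ := LS.ext' (one_mul _)
  mul_one _ := LS.ext' (mul_one _)
  mul_comm _ _ := LS.ext' (mul_comm _ _)

/-- the underlying space, as a monoid map -/
def LS.spM (Ω T : Type) [Field Ω] : LS Ω T →* Submodule Ω (T → Ω) where
  toFun := LS.sp
  map_one' := rfl
  map_mul' _ _ := rfl

@[simp] theorem LS.pow_sp (U : LS Ω T) (n : ℕ) : (U ^ n).sp = U.sp ^ n := map_pow (LS.spM Ω T) U n

theorem LS.prod_sp {ι : Type} (s : Finset ι) (U : ι → LS Ω T) :
    (∏ i ∈ s, U i).sp = ∏ i ∈ s, (U i).sp := map_prod (LS.spM Ω T) U s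

/-- pull-back, as a monoid map -/
def LS.pbM (Ω : Type) [Field Ω] (j : T → Y) : LS Ω Y →* LS Ω T where
  toFun := LS.pb j
  map_one' := LS.pb_one j
  map_mul' U V := LS.ext' (Submodule.map_mul U.sp V.sp (pbA Ω j))

theorem LS.pb_mul (j : T → Y) (U V : LS Ω Y) : (U * V).pb j = U.pb j * V.pb j :=
  map_mul (LS.pbM Ω j) U V

theorem LS.pb_pow (j : T → Y) (U : LS Ω Y) (n : ℕ) : (U ^ n).pb j = U.pb j ^ n :=
  map_pow (LS.pbM Ω j) U n

theorem LS.pb_prod {ι : Type} (j : T → Y) (s : Finset ι) (U : ι → LS Ω Y) :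
    (∏ i ∈ s, U i).pb j = ∏ i ∈ s, (U i).pb j := map_prod (LS.pbM Ω j) U s

theorem LS.pb_one' (j : T → Y) : (1 : LS Ω Y).pb j = 1 := LS.pb_one j

/-- a piece, as a linear system -/
def pcL [Fintype β] (B : β → LS Ω T) (d : β → ℕ) : LS Ω T := ∏ i, B i ^ d i

theorem pcL_sp [Fintype β] (B : β → LS Ω T) (d : β → ℕ) : (pcL B d).sp = pc B d := by
  simp only [pcL, LS.prod_sp, LS.pow_sp, pc]

theorem prod_pow_sp [Fintype β] (B : β → LS Ω T) (d : ℕ) :
    ((∏ i, B i) ^ d).sp = pc B fun _ => d := by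
  rw [← pcL_sp, pcL, Finset.prod_pow]

/-- multiplication by `mu` carries `U` to `U'` after multiplying both by a regular system -/
def Eqv [Fintype β] (B : β → LS Ω T) (mu : T → Ω) (U U' : LS Ω T) : Prop :=
  (∀ t, mu t ≠ 0) ∧ ∃ W : LS Ω T, Reg B W ∧
    (U * W).sp.map (LinearMap.mulLeft Ω mu) = (U' * W).sp

/-- the functions that carry forms of degree `d` in `H` to forms of degree `d + m` -/
def Gam (H : LS Ω T) (d m : ℕ) : Submodule Ω (T → Ω) := (H ^ (d + m)).sp / (H ^ d).sp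

theorem mem_Gam {H : LS Ω T} {d m : ℕ} {f : T → Ω} :
    f ∈ Gam H d m ↔ ∀ v ∈ (H ^ d).sp, f * v ∈ (H ^ (d + m)).sp := Submodule.mem_div_iff_forall_mul_mem

end Pool.Agent.Tav
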