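import Pool.Agent.P.MP_2ce3e7_ag.Tav.TiAb0
import Pool.Agent.P.MP_2ce3e7_ag.Tav.TiEqvD
import Pool.Agent.P.MP_2ce3e7_ag.Tav.TiTMod

/-! Interface for the isogeny theorem: polarised abelian varieties on points. -/

set_option autoImplicit false

noncomputable section

namespace Pool.Agent.Tav

open MvPolynomial Module Function

variable {Ω : Type} [Field Ω] {T : Type} {G G₁ G₂ G₃ : Type} [AddCommGroup G] [AddCommGroup G₁]
  [AddCommGroup G₂] [AddCommGroup G₃]

/-- the base with one member -/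
abbrev uB (H : LS Ω T) : Unit → LS Ω T := fun _ => H

/-- the points `x`, `y` have the same image under `V` -/
def Prp (V : LS Ω T) (x y : T) : Prop := ∃ c : Ω, c ≠ 0 ∧ ∀ u ∈ V.sp, u y = c * u x

/-- a polarised abelian variety with the group of points `G` -/
structure Ab (Ω G : Type) [Field Ω] [AddCommGroup G] where
  H : LS Ω G
  n : ℕ
  cmp : Cmp (uB H)
  src : Src (uB H) n
  top : mix (uB H) (fun _ : Fin n => H) ≠ 0
  sep : ∀ x y, Prp H x y → x = y
  sub : RegM (prodB (uB H) (uB H)) (uB H) fun t : G × G => t.1 - t.2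
  lam : G × G → Ω
  lam_ne : ∀ t, lam t ≠ 0
  law : Bpf ![H.pb Prod.fst, H.pb Prod.snd] (fun _ => 2)
    (((H.pb fun t : G × G => t.1 + t.2).sp * (H.pb fun t : G × G => t.1 - t.2).sp).map
      (LinearMap.mulLeft Ω lam))

namespace Ab

variable (A : Ab Ω G)

/-- the base -/
abbrev B : Unit → LS Ω G := uB A.H

theorem parL : ParL A.H := ⟨A.lam, A.lam_ne, A.law⟩

theorem ab0 : Ab0 A.B fun _ : Fin A.n => A.H :=
  ⟨by rw [Fintype.card_fin]; exact A.src, fun _ => Reg.self A.B (), A.sub, fun _ => A.parL, A.top⟩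

/-- the degree of the polarisation -/
def deg : ℚ := mix A.B fun _ : Fin A.n => A.H

/-- the degree of `u` times the degree of the polarisation -/
def dd (u : G → G) : ℚ := dM A.B (fun _ : Fin A.n => A.H) u

/-- the regular homomorphisms -/
abbrev Hom (S : Ab Ω G₁) (Y : Ab Ω G₂) : AddSubgroup (G₁ →+ G₂) := Y.ab0.homR S.B

/-- the regular endomorphisms -/
abbrev End : Subring (AddMonoid.End G) := A.ab0.endR

theorem comp_mem {S : Ab Ω G₁} {Y : Ab Ω G₂} {Z : Ab Ω G₃} {f : G₁ →+ G₂} {g : G₂ →+ G₃}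
    (hf : f ∈ S.Hom Y) (hg : g ∈ Y.Hom Z) : g.comp f ∈ S.Hom Z := (RegM.comp hf hg :)

/-- the base `C` defines the same variety -/
def Like {γ : Type} [Fintype γ] (C : γ → LS Ω G) : Prop := RegM A.B C id ∧ RegM C A.B id

/-- `F` is the Frobenius map that belongs to `fr` -/
def Fr (fr : Ω ≃+* Ω) (F : G →+ G) : Prop := Bijective F ∧ A.H.pb F = A.H.tw fr

/-- the quadratic form `H ^ (n - 1) · u ^ * H` -/
def Q (S : Ab Ω G₁) (Y : Ab Ω G₂) (u : G₁ → G₂) : ℚ :=
  mix S.B (update (fun _ : Option (Fin (S.n - 1)) => S.H) none (Y.H.pb u))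

/-- `u` is a similitude for the homomorphisms from `S` -/
def Sml (S : Ab Ω G₁) (Y : Ab Ω G₂) (u : G₂ →+ G₂) : Prop :=
  u ∈ Y.Hom Y ∧ ∃ c : ℚ, 0 < c ∧ ∀ b ∈ S.Hom Y, S.Q Y (u.comp b) = c * S.Q Y b

/-- the trivialisation of the product of the translates by multiples of `k` -/
def nu (N : ℕ) (k x : G) : Ω := ∏ i ∈ Finset.Icc 1 (N / 2), A.lam (x, i • k)

/-- the multiplier of the translation by `k` -/
def mu (N : ℕ) (k x : G) : Ω := A.nu N k x / A.nu N k (x + k)

/-- the commutator pairing -/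
def e (N : ℕ) (k k' : G) : Ω := A.mu N k 0 * A.mu N k' k / (A.mu N k' 0 * A.mu N k k')

/-- `R` is a Frobenius stable system in the class `m H` whose fibres are the cosets of `K` -/
structure Quo (fr : Ω ≃+* Ω) (F : G →+ G) (m : ℕ) (R : LS Ω G) (K : AddSubgroup G) : Prop where
  reg : Reg A.B R
  eqv : Eqv A.B 1 R (A.H ^ m)
  fr : R.pb F = R.tw fr
  fib : ∀ x y, Prp R x y ↔ y - x ∈ K

/-- a commutative ring of regular operators of full rank, with its characters -/
structure Sys {Λ Γ : Type} [CommRing Λ] [Fintype Γ] (act : Λ →+* AddMonoid.End G)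
    (χ : Γ → Λ →+* ℂ) : Prop where
  reg : ∀ a, act a ∈ A.End
  bas : Nonempty (Basis Γ ℤ Λ)
  inj : Injective χ
  card : Fintype.card Γ = 2 * A.n
  deg : ∀ a, (A.dd (act a) : ℂ) = Det.nm χ a * (A.deg : ℚ)

/-- a faithful complex representation of the ring of regular endomorphisms -/
structure Rep {d : Type} [Fintype d] [DecidableEq d] (V : A.End →+* Matrix d d ℂ) : Prop where
  card : Fintype.card d = 2 * A.n
  fin : Module.Finite ℤ A.End
  inj : Injective V
  ind : ∀ (m : ℕ) (a : Fin m → A.End), LinearIndependent ℤ a → LinearIndependent ℂ fun i => V (a i)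

end Ab

/-- `fr` is the `Q`-th power map, and every element is periodic -/
def IsQ (fr : Ω ≃+* Ω) (Q : ℕ) : Prop := FrobF Ω Q ∧ ∀ c, fr c = c ^ Q

/-- a prime that suits the argument -/
def GoodL (Ω : Type) [Field Ω] (l : ℕ) : Prop := (l : Ω) ≠ 0 ∧ l % 4 = 1

end Pool.Agent.Tav
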