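import Pool.Agent.P.MP_2ce3e7_ag.Tav.TiPos
import Pool.Agent.P.MP_2ce3e7_ag.Tav.TiDefs
import Pool.Agent.P.MP_2ce3e7_ag.Tav.TiEqv

/-! The positive form on the homomorphisms of polarised abelian varieties. -/

set_option autoImplicit false
set_option linter.unusedSectionVars false

noncomputable section

namespace Pool.Agent.Tav

open MvPolynomial Module Function

variable {Ω : Type} [Field Ω] {T X : Type} {β : Type} [Fintype β]

theorem Eqv.num {B : β → LS Ω X} {mu : X → Ω} {U U' : LS Ω X} (h : Eqv B mu U U') (hU : Reg B U) :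
    Num B U 1 U' := fun _ _ _ _ _ _ _ _ hC hn _ hW k j hj => by
  rw [one_mul]
  exact ((h.pb j hj).mix_update hC hW hn k (hj.pull hU)).symm

theorem num_pow {B : β → LS Ω X} {U : LS Ω X} (hU : Reg B U) (m : ℕ) : Num B U m (U ^ m) :=
  fun _ _ _ _ _ _ _ _ hC hn _ hW k j hj => by
    rw [LS.pb_pow]
    exact mix_update_pow hC hW hn k (hj.pull hU) m

/-- `a U' ∼ b U` -/
theorem Eqv.num_pow {B : β → LS Ω X} {mu : X → Ω} {U U' : LS Ω X} {a b : ℕ} (ha : a ≠ 0)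
    (h : Eqv B mu (U' ^ a) (U ^ b)) (hU : Reg B U) (hU' : Reg B U') : Num B U (b / a) U' := by
  have h1 := ((Tav.num_pow hU b).trans ((h.num (hU'.pow a)).symm one_ne_zero)).trans
    ((Tav.num_pow hU' a).symm (Nat.cast_ne_zero.2 ha))
  rwa [inv_one, mul_one, ← div_eq_mul_inv] at h1

theorem Num.mul {B : β → LS Ω X} {V U U' : LS Ω X} {c c' : ℚ} (h : Num B V c U)
    (h' : Num B V c' U') (hU : Reg B U) (hU' : Reg B U') : Num B V (c + c') (U * U') :=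
  fun T γ κ _ _ _ C n hC hn W hW k j hj => by
    rw [LS.pb_mul, mix_update_mul hC hW hn k (hj.pull hU) (hj.pull hU'),
      h T γ κ C n hC hn W hW k j hj, h' T γ κ C n hC hn W hW k j hj, add_mul]

theorem sep_of_prp {V : LS Ω T} (h : ∀ x y, Prp V x y → x = y) : Qt.Sep (uB V) := by
  intro x y hxy
  by_contra hn
  obtain ⟨v, hv, hv0⟩ := V.nv y
  have key : ∀ u ∈ V.sp, u y = 0 → u x = 0 := fun u hu h0 => by_contra fun h1 =>
    hn ⟨fun _ => 1, u, by rwa [pc_unit_mlt, pow_one], h1, h0⟩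
  have k2 : ∀ u ∈ V.sp, u x = v x / v y * u y := fun u hu => by
    have := key _ (V.sp.sub_mem (V.sp.smul_mem (v y) hu) (V.sp.smul_mem (u y) hv))
      (by simp [mul_comm])
    simp only [Pi.sub_apply, Pi.smul_apply, smul_eq_mul, sub_eq_zero] at this
    field_simp
    linear_combination this
  refine hxy (h y x ⟨v x / v y, fun h0 => ?_, k2⟩).symm
  obtain ⟨w, hw, hw0⟩ := V.nv x
  exact hw0 (by rw [k2 w hw, h0, zero_mul])

namespace Ab

variable {G G₁ G₂ G₃ : Type} [AddCommGroup G] [AddCommGroup G₁] [AddCommGroup G₂]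
  [AddCommGroup G₃] {fr : Ω ≃+* Ω} {q : ℕ}

theorem regH (A : Ab Ω G) : Reg A.B A.H := Reg.self A.B ()

theorem sepQ (A : Ab Ω G) : Qt.Sep A.B := sep_of_prp A.sep

theorem parN (A : Ab Ω G) : ParN A.B A.H := A.ab0.parN A.parL A.regH

theorem n_le (S : Ab Ω G₁) : S.n ≤ Fintype.card (Option (Fin (S.n - 1))) := by
  rw [Fintype.card_option, Fintype.card_fin]
  omega

variable (S : Ab Ω G₁) (Y : Ab Ω G₂) (Z : Ab Ω G₃)

theorem Q_nat {u : G₁ → G₂} (hu : RegM S.B Y.B u) : ∃ m : ℕ, S.Q Y u = m :=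
  mix_nat S.src (fun i => reg_update (fun _ => S.regH) (hu ()) none i) S.n_le

theorem Q_nonneg {u : G₁ → G₂} (hu : RegM S.B Y.B u) : 0 ≤ S.Q Y u :=
  mix_ge S.src (fun i => reg_update (fun _ => S.regH) (hu ()) none i) S.n_le

theorem Q_par {u v : G₁ → G₂} (hu : RegM S.B Y.B u) (hv : RegM S.B Y.B v) :
    S.Q Y (u + v) + S.Q Y (u - v) = 2 * S.Q Y u + 2 * S.Q Y v :=
  Y.parN G₁ _ _ S.B _ S.src S.n_le _ (fun _ => S.regH) none u v hu hv

/-- numerical similitudes -/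
theorem Q_num {s : G₂ → G₃} {c : ℚ} (h : Num Y.B Y.H c (Z.H.pb s)) {u : G₁ → G₂}
    (hu : RegM S.B Y.B u) : S.Q Z (s ∘ u) = c * S.Q Y u := by
  have := h G₁ _ _ S.B _ S.src S.n_le _ (fun _ => S.regH) none u hu
  rwa [LS.pb_pb] at this

theorem Q_eqv {s : G₂ → G₃} (hs : RegM Y.B Z.B s) {mu : G₂ → Ω} {a b : ℕ} (ha : a ≠ 0)
    (h : Eqv Y.B mu (Z.H.pb s ^ a) (Y.H ^ b)) {u : G₁ → G₂} (hu : RegM S.B Y.B u) :
    S.Q Z (s ∘ u) = b / a * S.Q Y u := S.Q_num Y Z (h.num_pow ha Y.regH (hs ())) hu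

theorem sml_of_num {s : G₂ →+ G₂} (hs : s ∈ Y.Hom Y) {c : ℚ} (hc : 0 < c)
    (h : Num Y.B Y.H c (Y.H.pb s)) : S.Sml Y s := ⟨hs, c, hc, fun _ hb => S.Q_num Y Y h hb⟩

theorem Q_zsmul (m : ℤ) {u : G₁ → G₂} (hu : RegM S.B Y.B u) :
    S.Q Y (m • u) = m ^ 2 * S.Q Y u := S.Q_num Y Y (Y.ab0.num_zsmul Y.parN m) hu

theorem Q_nsmul (m : ℕ) {u : G₁ → G₂} (hu : RegM S.B Y.B u) :
    S.Q Y (m • u) = m ^ 2 * S.Q Y u := S.Q_num Y Y (Y.ab0.num_nsmul Y.parN m) hu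

theorem Q_add_const (a : G₂) {u : G₁ → G₂} (hu : RegM S.B Y.B u) :
    S.Q Y (fun x => u x + a) = S.Q Y u :=
  (S.Q_num Y Y (Y.ab0.num_add Y.parN Y.regH a) hu).trans (one_mul _)

theorem Fr.num {F : G₂ →+ G₂} {Y : Ab Ω G₂} (h : Y.Fr fr F) (hq : IsQ fr q) :
    Num Y.B Y.H q (Y.H.pb F) := num_tw hq.2 Y.regH (h.2 ▸ LS.Sim.refl _)

theorem Fr.regM {F : G₂ →+ G₂} {Y : Ab Ω G₂} (h : Y.Fr fr F) (hq : IsQ fr q) : RegM Y.B Y.B F :=
  fun _ => h.2 ▸ Y.regH.mlt (Y.H.mlt_tw fr q hq.2)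

theorem Q_frob (hq : IsQ fr q) {F : G₂ →+ G₂} (h : Y.Fr fr F) {u : G₁ → G₂}
    (hu : RegM S.B Y.B u) : S.Q Y (F ∘ u) = q * S.Q Y u := S.Q_num Y Y (h.num hq) hu

theorem Fr.sml {F : G₂ →+ G₂} {Y : Ab Ω G₂} (h : Y.Fr fr F) (hq : IsQ fr q) : S.Sml Y F :=
  S.sml_of_num Y (h.regM hq) (Nat.cast_pos.2 (lt_trans one_pos hq.1.1)) (h.num hq)

variable [IsAlgClosed Ω]

theorem Q_pos {u : G₁ → G₂} (hu : RegM S.B Y.B u) {x y : G₁} (h : u x ≠ u y) : 0 < S.Q Y u := by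
  have hn : ¬ (Y.H.pb u).Const := fun hk => h (Y.sepQ.eq_of_const hk x y)
  rcases Nat.eq_zero_or_pos S.n with h0 | h0
  · exact absurd ((h0 ▸ S.src).const (hu ())) hn
  · have e : Fintype.card (Option (Fin (S.n - 1))) = S.n := by
      rw [Fintype.card_option, Fintype.card_fin]
      omega
    refine mix_pos S.cmp (e.symm ▸ S.src) S.regH (hu ()) hn (fun h1 => S.top ?_) none
    exact (mix_equiv S.B (fun _ : Fin S.n => S.H) (Fintype.equivFinOfCardEq e)).symm.trans h1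

/-- POS -/
theorem pf : Ti.PF fun a : S.Hom Y => S.Q Y a.1 where
  par a b := S.Q_par Y a.2 b.2
  pos a ha := by
    obtain ⟨x, hx⟩ : ∃ x, a.1 x ≠ a.1 0 := by
      by_contra hc
      exact ha (Subtype.ext (AddMonoidHom.ext fun x =>
        (by_contra fun h => hc ⟨x, h⟩ : a.1 x = a.1 0).trans (map_zero a.1)))
    exact S.Q_pos Y a.2 hx
  int a := by
    obtain ⟨m, hm⟩ := S.Q_nat Y a.2
    exact ⟨m, hm.trans (Int.cast_natCast m).symm⟩

omit [IsAlgClosed Ω] in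
/-- DIV -/
theorem div {m : ℕ} (hm : m ≠ 0) (hs : Surjective fun x : G₁ => m • x)
    (hk : Nat.card {x : G₁ // m • x = 0} = m ^ (2 * S.n)) (a : S.Hom Y)
    (ha : ∀ x : G₁, m • x = 0 → a.1 x = 0) : ∃ b, a = m • b :=
  S.ab0.div Y.ab0 S.sepQ hm hs (by rwa [Fintype.card_fin]) a ha

omit [IsAlgClosed Ω] in
theorem quo_of {l : ℕ} (hl : l ≠ 0) (hs : Surjective fun x : G₁ => l • x)
    (hk : ∀ n, Nat.card {x : G₁ // l ^ n • x = 0} = (l ^ n) ^ (2 * S.n)) :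
    Ti.Quo l (S.Hom Y).subtype := fun n a ha =>
  S.div Y (pow_ne_zero n hl) (surj_pow hs n) (hk n) a ha

end Ab

end Pool.Agent.Tav
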