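import Pool.Agent.P.MP_2ce3e7_ag.Tav.TiAPi

/-! Products of polarised abelian varieties; the Frobenius map. -/

set_option autoImplicit false
set_option linter.unusedSectionVars false

noncomputable section

namespace Pool.Agent.Tav

open MvPolynomial Module Function

variable {Ω : Type} [Field Ω] [IsAlgClosed Ω] {T γ : Type} [Fintype γ] {G G₁ G₂ : Type}
  [AddCommGroup G] [AddCommGroup G₁] [AddCommGroup G₂] {fr : Ω ≃+* Ω} {Q : ℕ}

namespace Ab

theorem seg_prodB (A : Ab Ω G₁) (B : Ab Ω G₂) :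
    ∏ c, prodB A.B B.B c = A.H.pb Prod.fst * B.H.pb Prod.snd := by
  rw [Fintype.prod_sum_type, Fintype.prod_unique, Fintype.prod_unique]
  rfl

theorem top_prodB (A : Ab Ω G₁) (B : Ab Ω G₂) : mix (prodB A.B B.B) (prodB A.B B.B ∘
    Sum.map (fun _ : Fin A.n => ()) fun _ : Fin B.n => ()) ≠ 0 := by
  have e : prodB A.B B.B ∘ Sum.map (fun _ : Fin A.n => ()) (fun _ : Fin B.n => ()) =
      prodB (fun _ : Fin A.n => A.H) fun _ : Fin B.n => B.H := funext fun k => by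
    cases k <;> rfl
  rw [e, mix_prod]
  exact mul_ne_zero A.top B.top

/-- the product -/
def prod (A : Ab Ω G₁) (B : Ab Ω G₂) : Ab Ω (G₁ × G₂) where
  H := A.H.pb Prod.fst * B.H.pb Prod.snd
  n := A.n + B.n
  cmp := Ti.cmp_of_reg (A.cmp.prod B.cmp) fun _ => A.seg_prodB B ▸ Sg.seg_reg _
  src := (A.src.prod B.src).of_reg fun _ => A.seg_prodB B ▸ Sg.seg_reg _
  top := A.seg_prodB B ▸ Sg.seg_top (A.src.prod B.src) _ (by simp) (A.top_prodB B)
  sep x y h := by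
    obtain ⟨c, hc, h1⟩ := Sg.prp_left h
    rw [mul_comm] at h
    obtain ⟨c', hc', h2⟩ := Sg.prp_left h
    exact Prod.ext (A.sep _ _ ⟨c, hc, fun u hu => h1 _ ⟨u, hu, rfl⟩⟩)
      (B.sep _ _ ⟨c', hc', fun u hu => h2 _ ⟨u, hu, rfl⟩⟩)
  sub := A.seg_prodB B ▸ Sg.seg_sub (A.ab0.prod B.ab0).sub
  lam t := A.lam (t.1.1, t.2.1) * B.lam (t.1.2, t.2.2)
  lam_ne t := mul_ne_zero (A.lam_ne _) (B.lam_ne _)
  law := by
    have h := Sg.LawL.prod (B := ![A.H.pb Prod.fst, B.H.pb Prod.snd])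
      (lam := ![fun t => A.lam (t.1.1, t.2.1), fun t => B.lam (t.1.2, t.2.2)]) fun b => by
        fin_cases b
        · exact Sg.LawL.pb (V := A.H) A.law (AddMonoidHom.fst G₁ G₂)
        · exact Sg.LawL.pb (V := B.H) B.law (AddMonoidHom.snd G₁ G₂)
    simp only [Fin.prod_univ_two, Matrix.cons_val_zero, Matrix.cons_val_one] at h
    exact h

variable {A : Ab Ω G₁} {B : Ab Ω G₂} {C : γ → LS Ω T}

theorem prod_H : (A.prod B).H = A.H.pb Prod.fst * B.H.pb Prod.snd := rfl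

theorem prod_like : (A.prod B).Like (prodB A.B B.B) := by
  unfold Like Ab.B
  rw [prod_H, ← A.seg_prodB B]
  exact ⟨Sg.seg_regM _, Sg.regM_seg _⟩

theorem fst_mem : AddMonoidHom.fst G₁ G₂ ∈ (A.prod B).Hom A := fun _ => Sg.reg_left _ _

theorem snd_mem : AddMonoidHom.snd G₁ G₂ ∈ (A.prod B).Hom B := fun _ => by
  change Reg (uB (A.prod B).H) _
  rw [prod_H, mul_comm]
  exact Sg.reg_left _ _

theorem reg_pair {u : T → G₁} {v : T → G₂} (hu : RegM C A.B u) (hv : RegM C B.B v) :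
    RegM C (A.prod B).B fun t => (u t, v t) := fun _ => by
  change Reg C ((A.prod B).H.pb _)
  rw [prod_H, LS.pb_mul, LS.pb_pb, LS.pb_pb]
  exact (hu ()).mul (hv ())

theorem inl_mem : AddMonoidHom.inl G₁ G₂ ∈ A.Hom (A.prod B) :=
  reg_pair (RegM.id A.B) (regM_const A.B B.B 0)

theorem inr_mem : AddMonoidHom.inr G₁ G₂ ∈ B.Hom (A.prod B) :=
  reg_pair (regM_const B.B A.B 0) (RegM.id B.B)

theorem Fr.prod {F : G₁ →+ G₁} {F' : G₂ →+ G₂} (h : A.Fr fr F) (h' : B.Fr fr F') :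
    (A.prod B).Fr fr (F.prodMap F') := by
  refine ⟨h.1.prodMap h'.1, ?_⟩
  rw [prod_H, LS.pb_mul, LS.tw_mul, LS.tw_pb, LS.tw_pb, ← h.2, ← h'.2]
  simp only [LS.pb_pb]
  rfl

theorem Fr.isFr {F : G₁ →+ G₁} (h : A.Fr fr F) : IsFr fr A.B A.B F :=
  isFr_of_surj h.1.2 fun _ => h.2 ▸ LS.Sim.refl _

theorem Fr.mem {F : G₁ →+ G₁} (h : A.Fr fr F) (hq : IsQ fr Q) : F ∈ A.Hom A :=
  h.isFr.regM hq.2

theorem Fr.pow' {F : AddMonoid.End G₁} (h : A.Fr fr F) (N : ℕ) :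
    A.Fr (fr ^ N : RingAut Ω) (F ^ N : AddMonoid.End G₁) := by
  induction N with
  | zero => exact ⟨bijective_id, LS.pb_id _⟩
  | succ N ih =>
    refine ⟨ih.1.comp h.1, ?_⟩
    have e : A.H.pb (F ^ (N + 1) : AddMonoid.End G₁) =
        (A.H.pb (F ^ N : AddMonoid.End G₁)).pb F := by
      rw [LS.pb_pb, pow_succ]
      rfl
    have e1 : A.H.pb (F ^ N : AddMonoid.End G₁) = A.H.tw (fr ^ N : RingAut Ω) := ih.2
    have e2 : A.H.pb F = A.H.tw fr := h.2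
    refine e.trans ?_
    rw [e1, ← LS.tw_pb, e2, pow_succ]
    rfl

theorem Fr.pow {F : AddMonoid.End G₁} (h : A.Fr fr F) (hq : IsQ fr Q) {N : ℕ} {fr' : Ω ≃+* Ω}
    (hq' : IsQ fr' (Q ^ N)) : A.Fr fr' (F ^ N : AddMonoid.End G₁) := by
  have key : ∀ (n : ℕ) c, (fr ^ n : RingAut Ω) c = c ^ Q ^ n := fun n => by
    induction n with
    | zero => exact fun c => (pow_one c).symm
    | succ n ih =>
      intro c
      rw [pow_succ, pow_succ', pow_mul, ← hq.2, ← ih]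
      rfl
  have : fr' = (fr ^ N : RingAut Ω) := RingEquiv.ext fun c => (hq'.2 c).trans (key N c).symm
  rw [this]
  exact h.pow' N

end Ab

end Pool.Agent.Tav
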