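import Pool.Agent.P.MP_2ce3e7_ag.Tav.TiATor
import Pool.Agent.P.MP_2ce3e7_ag.Tav.TiAProd
import Pool.Agent.P.MP_2ce3e7_ag.Tav.TiAPos

/-! Division of homomorphisms by integers. -/

set_option autoImplicit false

noncomputable section

namespace Pool.Agent.Tav

open MvPolynomial Module Function

variable {Ω : Type} [Field Ω] [IsAlgClosed Ω] {G₁ G₂ : Type}
  [AddCommGroup G₁] [AddCommGroup G₂]

namespace Ab

variable (S : Ab Ω G₁) (Y : Ab Ω G₂)

theorem div' {m : ℕ} (hm : (m : Ω) ≠ 0) (a : S.Hom Y) (ha : ∀ x : G₁, m • x = 0 → a.1 x = 0) :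
    ∃ b, a = m • b :=
  have h : m ≠ 0 := fun e => hm (by rw [e, Nat.cast_zero])
  S.div Y h (S.nsmul_onto h) (S.card_tors hm) a ha

/-- DIV -/
theorem quo (l : ℕ) (hl : (l : Ω) ≠ 0) : Ti.Quo l (S.Hom Y).subtype := fun n a ha =>
  S.div' Y (by rw [Nat.cast_pow]; exact pow_ne_zero n hl) a ha

end Ab

end Pool.Agent.Tav
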