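import Pool.Agent.P.MP_2ce3e7_ag.Tav.GBase
import Pool.Agent.P.MP_2ce3e7_ag.Tav.Stmt

/-! Lang's theorem for semilinear maps. -/

set_option autoImplicit false

noncomputable section

namespace Pool.Agent.Tav.Fn

open Module Function Polynomial

variable {Ω : Type} [Field Ω] [IsAlgClosed Ω] (fr : Ω ≃+* Ω) {q : ℕ} (hq : 1 < q)
  (hfr : ∀ c, fr c = c ^ q)

include hq in
theorem exists_sol (a : ℕ → Ω) (h0 : a 0 ≠ 0) (m : ℕ) : ∃ (x : Ω) (c : ℕ → Ω), x ≠ 0 ∧ c m = x ∧
    c 0 = a 0 * x ^ q ∧ ∀ i, c (i + 1) = c i ^ q + a (i + 1) * x ^ q := by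
  let P : ℕ → Polynomial Ω := fun i => Nat.rec (C (a 0) * X ^ q) (fun i p => p ^ q + C (a (i + 1)) * X ^ q) i
  have hP : ∀ i, q ≤ (P i).natDegree ∧ X ^ 2 ∣ P i := by
    intro i
    induction i with
    | zero => exact ⟨(natDegree_C_mul_X_pow q _ h0).ge, (pow_dvd_pow X hq).mul_left _⟩
    | succ i ih =>
      have h1 : q < (P i ^ q).natDegree := by
        rw [natDegree_pow]
        nlinarith [ih.1]
      refine ⟨?_, dvd_add (ih.2.trans (dvd_pow_self _ (by omega))) ((pow_dvd_pow X hq).mul_left _)⟩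
      change q ≤ (P i ^ q + _).natDegree
      rw [natDegree_add_eq_left_of_natDegree_lt ((natDegree_C_mul_X_pow_le _ _).trans_lt h1)]
      exact h1.le
  obtain ⟨h1, Q, hQ⟩ := hP m
  have h2 : Q ≠ 0 := fun e => by
    rw [hQ, e] at h1
    simp at h1
    omega
  obtain ⟨x, hx⟩ := IsAlgClosed.exists_root (X * Q - 1 : Polynomial Ω) (by
    have : (1 : Polynomial Ω).degree < (X * Q).degree := by
      rw [degree_one, ← natDegree_pos_iff_degree_pos, natDegree_X_mul h2]
      omega
    rw [degree_sub_eq_left_of_degree_lt this]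
    rw [degree_one] at this
    exact this.ne')
  have h3 : x * Q.eval x = 1 := by simpa [sub_eq_zero] using hx
  refine ⟨x, fun i => (P i).eval x, left_ne_zero_of_mul_eq_one h3, ?_, by simp [P],
    fun i => by simp [P]⟩
  change (P m).eval x = x
  rw [hQ, Polynomial.eval_mul, Polynomial.eval_pow, Polynomial.eval_X, pow_two, mul_assoc, h3,
    mul_one]

variable {V : Type} [AddCommGroup V] [Module Ω V] [FiniteDimensional Ω V]

include hq hfr in
theorem exists_fixed (τ : V →ₛₗ[(fr : Ω →+* Ω)] V) (hτ : Injective τ) {v : V} (hv : v ≠ 0) :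
    ∃ w, w ≠ 0 ∧ τ w = w := by
  classical
  let S : ℕ →o Submodule Ω V := ⟨fun n => Submodule.span Ω ((fun i => τ^[i] v) '' Set.Iio n),
    fun a b h => Submodule.span_mono (Set.image_mono (Set.Iio_subset_Iio h))⟩
  have ex : ∃ n, τ^[n] v ∈ S n := by
    obtain ⟨n, hn⟩ := monotone_stabilizes_iff_noetherian.2 inferInstance S
    refine ⟨n, ?_⟩
    rw [hn (n + 1) (Nat.le_succ n)]
    exact Submodule.subset_span ⟨n, Nat.lt_succ_self n, rfl⟩
  have co : ∀ n, ∀ u ∈ S n, ∃ a : ℕ → Ω, ∑ i ∈ Finset.range n, a i • τ^[i] v = u := fun n u hu => by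
    obtain ⟨a, ha⟩ := (Submodule.mem_span_image_finset_iff_exists_fun' Ω
      (s := Finset.range n) (v := fun i => τ^[i] v)).1 (by rw [Finset.coe_range]; exact hu)
    exact ⟨a, ha⟩
  have oc : ∀ n (a : ℕ → Ω), ∑ i ∈ Finset.range n, a i • τ^[i] v ∈ S n := fun n a =>
    Submodule.sum_mem _ fun i hi => Submodule.smul_mem _ _
      (Submodule.subset_span ⟨i, Finset.mem_range.1 hi, rfl⟩)
  have h1 := Nat.find_spec ex
  obtain ⟨m, hm⟩ : ∃ m, Nat.find ex = m + 1 := Nat.exists_eq_succ_of_ne_zero fun e => by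
    rw [e] at h1
    obtain ⟨a, ha⟩ := co _ _ h1
    exact hv (by simpa using ha.symm)
  have h2 : τ^[m] v ∉ S m := Nat.find_min ex (by omega)
  rw [hm] at h1
  obtain ⟨a, ha⟩ := co _ _ h1
  have h0 : a 0 ≠ 0 := fun e => h2 (by
    have : τ (∑ i ∈ Finset.range m, fr.symm (a (i + 1)) • τ^[i] v) = τ (τ^[m] v) := by
      rw [← iterate_succ_apply' τ, ← ha, Finset.sum_range_succ', e, zero_smul, add_zero, map_sum]
      refine Finset.sum_congr rfl fun i _ => ?_
      rw [LinearMap.map_smulₛₗ, iterate_succ_apply']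
      simp
    rw [← hτ this]
    exact oc _ _)
  obtain ⟨x, c, hx, e1, e2, e3⟩ := exists_sol hq a h0 m
  refine ⟨∑ i ∈ Finset.range (m + 1), c i • τ^[i] v, fun e => h2 ?_, ?_⟩
  · rw [Finset.sum_range_succ, e1, add_eq_zero_iff_neg_eq] at e
    rw [← Submodule.smul_mem_iff _ hx, ← e]
    exact Submodule.neg_mem _ (oc _ _)
  · have e4 : ∀ i, τ (c i • τ^[i] v) = c i ^ q • τ^[i + 1] v := fun i => by
      rw [LinearMap.map_smulₛₗ, iterate_succ_apply', ← hfr]
      rfl
    rw [map_sum, Finset.sum_range_succ, e4, ← ha, e1, Finset.sum_range_succ',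
      Finset.sum_range_succ', smul_add, Finset.smul_sum, ← add_assoc, ← Finset.sum_add_distrib, e2,
      smul_smul, mul_comm]
    congr 1
    refine Finset.sum_congr rfl fun i _ => ?_
    rw [e4, e3, add_smul, smul_smul, mul_comm]

include hq hfr in
/-- LANG -/
theorem span_fixed (τ : V →ₛₗ[(fr : Ω →+* Ω)] V) (hτ : Injective τ) :
    Submodule.span Ω {w | τ w = w} = ⊤ := by
  set W := Submodule.span Ω {w | τ w = w}
  have h1 : ∀ w ∈ W, ∀ c : Ω, τ (c • w) ∈ W ∧ (∃ u ∈ W, τ u = c • w) ∧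
      ∃ u ∈ W, τ u - u = c • w := fun w hw => by
    induction hw using Submodule.span_induction with
    | mem x hx =>
      have hx' : τ x = x := hx
      have hW : ∀ c : Ω, c • x ∈ W := fun c => W.smul_mem c (Submodule.subset_span hx)
      refine fun c => ⟨by rw [LinearMap.map_smulₛₗ, hx']; exact hW _, ⟨fr.symm c • x, hW _, ?_⟩, ?_⟩
      · rw [LinearMap.map_smulₛₗ, hx']
        simp
      · obtain ⟨y, hy⟩ := IsAlgClosed.exists_root (X ^ q - X - C c : Polynomial Ω) (by
          have : 0 < (X ^ q - X : Polynomial Ω).degree := by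
            rw [← natDegree_pos_iff_degree_pos, FiniteField.X_pow_card_sub_X_natDegree_eq Ω hq]
            omega
          rw [degree_sub_C this]
          exact this.ne')
        refine ⟨y • x, hW _, ?_⟩
        rw [LinearMap.map_smulₛₗ, hx', ← sub_smul]
        congr 1
        simpa [sub_eq_zero, hfr] using hy
    | zero => exact fun c => ⟨by simp, ⟨0, W.zero_mem, by simp⟩, 0, W.zero_mem, by simp⟩
    | add x y _ _ hx hy =>
      intro c
      obtain ⟨a1, ⟨u, hu, a2⟩, u', hu', a3⟩ := hx c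
      obtain ⟨b1, ⟨v, hv, b2⟩, v', hv', b3⟩ := hy c
      refine ⟨by rw [smul_add, map_add]; exact W.add_mem a1 b1,
        ⟨u + v, W.add_mem hu hv, by rw [map_add, a2, b2, smul_add]⟩,
        u' + v', W.add_mem hu' hv', by rw [map_add, smul_add, ← a3, ← b3]; abel⟩
    | smul a x _ hx => exact fun c => by rw [smul_smul]; exact hx _
  have h2 : W ≤ W.comap τ := fun w hw => by simpa using (h1 w hw 1).1
  by_contra hc
  obtain ⟨v, hv⟩ : ∃ v, v ∉ W := by
    by_contra h
    exact hc (Submodule.eq_top_iff'.2 fun v => not_not.1 fun e => h ⟨v, e⟩)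
  obtain ⟨w, hw, e⟩ := exists_fixed fr hq hfr (W.mapQ W τ h2) (v := W.mkQ v) (by
    rw [injective_iff_map_eq_zero]
    intro z hz
    obtain ⟨z, rfl⟩ := W.mkQ_surjective z
    rw [Submodule.mkQ_apply, Submodule.mapQ_apply, Submodule.Quotient.mk_eq_zero] at hz
    obtain ⟨u, hu, e⟩ := (h1 _ hz 1).2.1
    rw [one_smul] at e
    rw [← hτ e]
    exact (Submodule.Quotient.mk_eq_zero _).2 hu)
    fun e => hv ((Submodule.Quotient.mk_eq_zero _).1 e)
  obtain ⟨z, rfl⟩ := W.mkQ_surjective w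
  rw [Submodule.mkQ_apply, Submodule.mapQ_apply, Submodule.Quotient.eq] at e
  obtain ⟨u, hu, e'⟩ := (h1 _ e 1).2.2
  refine hw ((Submodule.Quotient.mk_eq_zero _).2 ?_)
  have : z - u ∈ W := Submodule.subset_span (by
    change τ _ = _
    rw [one_smul] at e'
    rw [map_sub, eq_add_of_sub_eq e']
    abel)
  simpa using W.add_mem this hu

include hq hfr in
/-- coordinates in which `F` is the `q`-th power map -/
theorem exists_coord {Y : Type} (R : LS Ω Y) {F : Y → Y} (hF : Surjective F)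
    (h : (R.tw fr).Sim (R.pb F)) {D : ℕ} (hD : finrank Ω R.sp ≤ D) :
    ∃ (p : Y → Fin D → Ω) (hp : ∀ y, p y ≠ 0), LS.co p hp = R ∧
      ∀ y, Par (p (F y)) (p y ^ q) := by
  obtain ⟨lam, hl, e⟩ := h
  have ex : ∀ u : R.sp, ∃ u' : R.sp, ∀ y, u'.1 (F y) = lam y * fr (u.1 y) := fun u => by
    have : lam * (fun y => fr (u.1 y)) ∈ (R.pb F).sp := by
      rw [e]
      refine ⟨_, ?_, rfl⟩
      change (fun t => fr.symm (fr (u.1 t))) ∈ R.sp
      simp
    obtain ⟨u', hu', e'⟩ := this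
    exact ⟨⟨u', hu'⟩, fun y => congrFun e' y⟩
  choose t ht using ex
  let τ : R.sp →ₛₗ[(fr : Ω →+* Ω)] R.sp :=
    { toFun := t
      map_add' := fun a b => Subtype.ext (funext fun y => by
        obtain ⟨y, rfl⟩ := hF y
        simp [ht, mul_add])
      map_smul' := fun c a => Subtype.ext (funext fun y => by
        obtain ⟨y, rfl⟩ := hF y
        simp [ht, mul_left_comm]) }
  have sp := span_fixed fr hq hfr τ fun a b hab => Subtype.ext (funext fun y => by
    have h1 : t a = t b := hab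
    have h2 := ht a y
    rw [h1, ht] at h2
    exact (fr.injective (mul_left_cancel₀ (hl y) h2)).symm)
  obtain ⟨f, f1, f2, -⟩ := Submodule.exists_fun_fin_finrank_span_eq Ω {w | τ w = w}
  have hD' : finrank Ω (Submodule.span Ω {w | τ w = w}) ≤ D := (Submodule.finrank_le _).trans hD
  let p : Y → Fin D → Ω := fun y i => if h : i.1 < _ then (f ⟨i.1, h⟩).1 y else 0
  have e2 : Submodule.span Ω (Set.range fun i y => p y i) = R.sp := by
    refine le_antisymm (Submodule.span_le.2 ?_) fun u hu => ?_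
    · rintro _ ⟨i, rfl⟩
      by_cases h : i.1 < finrank Ω (Submodule.span Ω {w | τ w = w})
      · simp only [p, dif_pos h]
        exact (f ⟨i.1, h⟩).2
      · simp only [p, dif_neg h]
        exact R.sp.zero_mem
    · have h1 : (⟨u, hu⟩ : R.sp) ∈ Submodule.span Ω (Set.range f) := by rw [f2, sp]; trivial
      have h2 := Submodule.mem_map_of_mem (f := R.sp.subtype) h1
      rw [Submodule.map_span] at h2
      refine Submodule.span_mono ?_ h2
      rintro _ ⟨_, ⟨i, rfl⟩, rfl⟩
      exact ⟨⟨i.1, i.2.trans_le hD'⟩, funext fun y => dif_pos i.2⟩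
  refine ⟨p, fun y h0 => ?_, LS.ext' e2, fun y => ⟨lam y, (hl y).isUnit, funext fun i => ?_⟩⟩
  · obtain ⟨u, hu, h⟩ := R.nv y
    rw [← e2] at hu
    refine h ((Submodule.span_le (p := LinearMap.ker (LinearMap.proj (R := Ω)
      (φ := fun _ : Y => Ω) y))).2 ?_ hu)
    rintro _ ⟨i, rfl⟩
    exact congrFun h0 i
  · by_cases h : i.1 < finrank Ω (Submodule.span Ω {w | τ w = w})
    · have h1 : t (f ⟨i.1, h⟩) = f ⟨i.1, h⟩ := f1 _
      have h2 := ht (f ⟨i.1, h⟩) y
      rw [h1, hfr] at h2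
      simpa only [p, dif_pos h, Pi.smul_apply, Pi.pow_apply, smul_eq_mul] using h2
    · simp only [p, dif_neg h, Pi.smul_apply, Pi.pow_apply, smul_eq_mul]
      rw [zero_pow (by omega), mul_zero]

end Pool.Agent.Tav.Fn
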