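import Pool.Agent.P.MP_2ce3e7_ag.Tav.TiPig
import Pool.Agent.P.MP_2ce3e7_ag.Tav.TiLang
import Pool.Agent.P.MP_2ce3e7_ag.Tav.TiEqv
import Pool.Agent.P.MP_2ce3e7_ag.Tav.PUp

/-! Degree bounds for the image of a map that is invariant under many translations. -/

set_option autoImplicit false

noncomputable section

namespace Pool.Agent.Tav.Ti

open MvPolynomial Module Function

variable {Ω : Type} [Field Ω] {T : Type} {β κ ν : Type} [Fintype β] [Fintype κ] [Fintype ν]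

/-- the points `x` and `y` have the same image under the map given by `R` -/
def Kp (R : LS Ω T) (x y : T) : Prop := ∃ c : Ω, c ≠ 0 ∧ ∀ u ∈ R.sp, u y = c * u x

theorem Kp.mul {U V : LS Ω T} {x y : T} (h : Kp U x y) (h' : Kp V x y) : Kp (U * V) x y := by
  obtain ⟨c, hc, h⟩ := h
  obtain ⟨c', hc', h'⟩ := h'
  refine ⟨c * c', mul_ne_zero hc hc', fun u hu => ?_⟩
  refine Submodule.mul_induction_on hu (fun a ha b hb => ?_) fun a b ha hb => ?_
  · rw [Pi.mul_apply, Pi.mul_apply, h a ha, h' b hb, mul_mul_mul_comm]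
  · rw [Pi.add_apply, Pi.add_apply, ha, hb, mul_add]

theorem Kp.one (x y : T) : Kp (1 : LS Ω T) x y := ⟨1, one_ne_zero, fun u hu => by
  obtain ⟨c, rfl⟩ := Submodule.mem_one.1 hu
  rw [one_mul]
  rfl⟩

theorem Kp.prod {W : κ → LS Ω T} {x y : T} (h : ∀ k, Kp (W k) x y) : Kp (∏ k, W k) x y :=
  Finset.prod_induction W (fun U => Kp U x y) (fun _ _ => Kp.mul) (Kp.one x y) fun k _ => h k

theorem Kp.of_mul {U V : LS Ω T} {x y : T} (h : Kp (U * V) x y) : Kp U x y := by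
  obtain ⟨c, hc, h⟩ := h
  obtain ⟨v, hv, h0⟩ := V.nv y
  have h1 : ∀ u ∈ U.sp, u y * v y = c * (u x * v x) := fun u hu =>
    h _ (Submodule.mul_mem_mul hu hv)
  obtain ⟨u0, hu0, h2⟩ := U.nv y
  refine ⟨c * v x / v y, div_ne_zero (mul_ne_zero hc fun e => ?_) h0, fun u hu => ?_⟩
  · have := h1 u0 hu0
    rw [e, mul_zero, mul_zero] at this
    exact mul_ne_zero h2 h0 this
  · rw [div_mul_eq_mul_div, eq_div_iff h0, h1 u hu]
    ring

theorem Kp.of_prod {W : κ → LS Ω T} {x y : T} (h : Kp (∏ k, W k) x y) (k : κ) : Kp (W k) x y := by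
  classical
  rw [← Finset.mul_prod_erase _ _ (Finset.mem_univ k)] at h
  exact h.of_mul

theorem Kp.pb {Y : Type} {j : T → Y} {R : LS Ω Y} {x y : T} :
    Kp (R.pb j) x y ↔ Kp R (j x) (j y) :=
  ⟨fun ⟨c, hc, h⟩ => ⟨c, hc, fun u hu => h _ ⟨u, hu, rfl⟩⟩,
    fun ⟨c, hc, h⟩ => ⟨c, hc, fun _ ⟨u, hu, e⟩ => e ▸ h u hu⟩⟩

theorem kp_co {s : Type} [Finite s] {p : T → s → Ω} (hp : ∀ t, p t ≠ 0) {x y : T} :
    Kp (LS.co p hp) x y ↔ Par (p y) (p x) := by
  refine ⟨fun ⟨c, hc, h⟩ => ⟨c, hc.isUnit, funext fun i => h _ (LS.mem_co p hp i)⟩,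
    fun ⟨c, hc, h⟩ => ⟨c, hc.ne_zero, fun u hu => ?_⟩⟩
  induction hu using Submodule.span_induction with
  | mem u hu =>
    obtain ⟨i, rfl⟩ := hu
    exact congrFun h i
  | zero => simp
  | add a b _ _ ha hb => rw [Pi.add_apply, Pi.add_apply, ha, hb, mul_add]
  | smul d a _ ha => rw [Pi.smul_apply, Pi.smul_apply, ha, smul_eq_mul, smul_eq_mul, mul_left_comm]

theorem Kp.symm {R : LS Ω T} {x y : T} (h : Kp R x y) : Kp R y x := by
  obtain ⟨c, hc, h⟩ := h
  exact ⟨c⁻¹, inv_ne_zero hc, fun u hu => by rw [h u hu, inv_mul_cancel_left₀ hc]⟩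

theorem exists_co (R : LS Ω T) :
    ∃ (m : ℕ) (p : T → Fin m → Ω) (hp : ∀ t, p t ≠ 0), LS.co p hp = R := by
  let b := finBasis Ω R.sp
  have e : Submodule.span Ω (Set.range fun i t => (b i).1 t) = R.sp := by
    have := congrArg (Submodule.map R.sp.subtype) b.span_eq
    rwa [Submodule.map_span, ← Set.range_comp, Submodule.map_subtype_top] at this
  refine ⟨_, fun t i => (b i).1 t, fun t h => ?_, LS.ext' e⟩
  obtain ⟨u, hu, h0⟩ := R.nv t
  refine h0 ?_
  rw [← e] at hu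
  clear h0
  induction hu using Submodule.span_induction with
  | mem u hu =>
    obtain ⟨i, rfl⟩ := hu
    exact congrFun h i
  | zero => rfl
  | add a b _ _ ha hb => rw [Pi.add_apply, ha, hb, add_zero]
  | smul d a _ ha => rw [Pi.smul_apply, ha, smul_zero]

theorem reg_prod (B : β → LS Ω T) (b : β) : Reg (fun _ : Unit => ∏ i, B i) (B b) := by
  classical
  intro t
  obtain ⟨v, hv, h⟩ := (∏ i ∈ Finset.univ.erase b, B i).nv t
  refine ⟨fun _ => 1, v, h, fun u hu => ?_⟩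
  rw [Pp.pc_unit, pow_one, ← Finset.prod_erase_mul _ _ (Finset.mem_univ b)]
  exact Submodule.mul_mem_mul hv hu

theorem mix_unit (V : LS Ω T) (n : ℕ) : mix (fun _ : Unit => V) (fun _ : Fin n => V) =
    n.factorial * coeff (Finsupp.single () n) (pL fun _ : Unit => V) := by
  rw [← Pp.nc_single, ← Pp.sum_single]
  exact mix_self (fun _ : Unit => V) fun _ : Fin n => ()

/-- one system on the source, one system on the target -/
theorem card_le_one {H V : LS Ω T} {n : ℕ} (hS : Src (fun _ : Unit => H) n)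
    (hV : Reg (fun _ : Unit => H) V) {I : Type} [Fintype I] (s : I → T → T) (x₀ : T)
    (hs : ∀ i, Reg (fun _ : Unit => H) (H.pb (s i))) (hinv : ∀ i x, Kp V x (s i x))
    (hsep : ∀ i i', Kp H (s i x₀) (s i' x₀) → i = i') :
    (Fintype.card I : ℚ) * mix (fun _ : Unit => V) (fun _ : Fin n => V) ≤
      mix (fun _ : Unit => H) fun _ : Fin n => V := by
  classical
  let B : Unit ⊕ Unit → LS Ω T := Sum.elim (fun _ => H) fun _ => V
  have hB : Src B n := hS.ext fun _ => hV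
  have e1 : mix (fun _ : Unit => H) (fun _ : Fin n => V) =
      n.factorial * coeff (Finsupp.single (Sum.inr ()) n) (pL B) := by
    rw [mix_base (C := B) hS (fun k => by cases k; exacts [Reg.self _ (), hV])
      (fun _ => Reg.self B (Sum.inl ())) (fun _ => hV) (by simp), ← Pp.nc_single, ← Pp.sum_single]
    exact mix_self B fun _ : Fin n => Sum.inr ()
  have e2 : mix (fun _ : Unit => V) (fun _ : Fin n => V) =
      n.factorial * coeff (Finsupp.single (Sum.inr ()) n)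
        (rename (Sum.inr : Unit → Unit ⊕ Unit) (pL fun _ : Unit => V)) := by
    rw [← Finsupp.mapDomain_single (f := (Sum.inr : Unit → Unit ⊕ Unit)),
      coeff_rename_mapDomain _ Sum.inr_injective, mix_unit]
  rw [e1, e2, mul_left_comm]
  refine mul_le_mul_of_nonneg_left ?_ (Nat.cast_nonneg _)
  refine coeff_single_le ((evP_pL fun _ : Unit => V).rename Sum.inr) (evP_pL B)
    ((hS.of_reg fun _ : Unit => hV).dg.rename _) hB.dg _ ⟨Fintype.card I, fun d hd' => ?_⟩ _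
  have e3 : pc B d = H.sp ^ d (Sum.inl ()) * V.sp ^ d (Sum.inr ()) := by
    rw [pc, Fintype.prod_sum_type, Fintype.prod_unique, Fintype.prod_unique]
    rfl
  beta_reduce
  rw [e3, Pp.pc_unit]
  clear e1 e2 e3 hB
  obtain ⟨m, p, hp, rfl⟩ := exists_co H
  obtain ⟨m', φ, hφ, rfl⟩ := exists_co V
  have ch : ∀ {k : ℕ} (z : T → Fin k → Ω) (hz : ∀ t, z t ≠ 0),
      Reg (fun _ : Unit => LS.co p hp) (LS.co z hz) → ∀ x, ∃ (e : ℕ) (l : T → Ω), l x ≠ 0 ∧
        ∀ a, (l * fun t => z t a) ∈ Submodule.span Ω (Set.range fun a t => p t a) ^ e :=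
    fun z hz h x => by
      obtain ⟨e, l, hl, h⟩ := h x
      refine ⟨e (), l, hl, fun a => ?_⟩
      have := h _ (LS.mem_co z hz a)
      rwa [Pp.pc_unit] at this
  have := up_rank (fun a t => p t a) (fun a t => φ t a) s x₀
    (fun a b f hf g hg => hS.dom (fun _ => a) (fun _ => b) f (by rwa [Pp.pc_unit]) g
      (by rwa [Pp.pc_unit]))
    (fun i => ch (fun t => p (s i t)) (fun t => hp _) (LS.pb_co (s i) p hp ▸ hs i) x₀)
    (ch φ hφ hV)
    (fun i x => by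
      obtain ⟨c, hc, h⟩ := hinv i x
      exact ⟨c, hc, fun a => h _ (LS.mem_co φ hφ a)⟩)
    (fun i => Function.ne_iff.1 (hp _))
    (fun i i' hi => Pp.not_par (hp _) (hp _) fun h => hi (hsep i' i ((kp_co hp).2 h)).symm)
    ((hd' (Sum.inl ())).trans (Nat.le_succ _)) (d (Sum.inr ()))
  exact_mod_cast this

theorem mix_self_nat {W : κ → LS Ω T} {n : ℕ} (hW : Src W n) (hn : n ≤ Fintype.card ν)
    (g : ν → κ) : ∃ m : ℕ, mix W (W ∘ g) = m := by
  rw [mix_self]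
  refine nc_pf_nat _ _ (hW.dg.mono ?_)
  simpa [map_sum] using hn

/-- a family whose product has degree zero has all degrees zero -/
theorem mix_self_zero {W : κ → LS Ω T} {n : ℕ} (hW : Src W n) (hn : n ≤ Fintype.card ν)
    (h : mix (fun _ : Unit => ∏ k, W k) (fun _ : Fin n => ∏ k, W k) = 0) (g : ν → κ) :
    mix W (W ∘ g) = 0 := by
  have hV : Src (fun _ : Unit => ∏ k, W k) n :=
    hW.of_reg fun _ => Reg.prod fun k _ => Reg.self W k
  rw [mix_unit, mul_eq_zero, or_iff_right (Nat.cast_ne_zero.2 n.factorial_ne_zero)] at h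
  have hd : Dg (pL fun _ : Unit => ∏ k, W k) (n - 1) := fun s hs => by
    by_cases e : s.degree = n
    · have : s = Finsupp.single () n := by
        rw [← e, Finsupp.unique_single s, Finsupp.degree_single]
      rw [this, h]
    · exact hV.dg s (by omega)
  obtain _ | n := n
  · obtain ⟨N, hN⟩ := evP_pL fun _ : Unit => ∏ k, W k
    have h1 := hN (fun _ => N) fun _ => le_rfl
    rw [hd.eq_zero (by simp), map_zero] at h1
    obtain ⟨t⟩ := hW.ne
    obtain ⟨u, hu, h0⟩ := pc_nv (fun _ : Unit => ∏ k, W k) (fun _ => N) t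
    rw [Submodule.finrank_eq_zero.1 (Nat.cast_eq_zero.1 h1.symm)] at hu
    exact absurd (congrFun ((Submodule.mem_bot Ω).1 hu) t) h0
  · have h1 : Src W n := Src.of_reg ⟨hV.ne, hV.dom, by simpa using hd⟩ (reg_prod W)
    exact mix_zero h1 (fun k => Reg.self W (g k)) hn

/-- RKG: the degree of the map is at least the number of self-maps that keep it -/
theorem exists_rank {B : β → LS Ω T} {n : ℕ} (hB : Src B n) {W : κ → LS Ω T}
    (hW : ∀ k, Reg B (W k)) : ∃ r : ℕ,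
    (∀ (ν : Type) [Fintype ν] (g : ν → κ), n ≤ Fintype.card ν →
      mix B (W ∘ g) = r * mix W (W ∘ g)) ∧
    ∀ (ν : Type) [Fintype ν] (g : ν → κ), n ≤ Fintype.card ν → mix W (W ∘ g) ≠ 0 →
      ∀ (I : Type) [Fintype I] (s : I → T → T) (x₀ : T), (∀ i b, Reg B ((B b).pb (s i))) →
        (∀ i k x, Kp (W k) x (s i x)) →
        (∀ i i', (∀ b, Kp (B b) (s i x₀) (s i' x₀)) → i = i') → Fintype.card I ≤ r := by
  have hS : Src W n := hB.of_reg hW
  obtain ⟨r, -, hr⟩ := mix_mul hB hS id fun k => by rw [LS.pb_id]; exact hW k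
  simp only [LS.pb_id] at hr
  refine ⟨r, fun ν _ g hn => hr ν (W ∘ g) hn fun k => Reg.self W (g k),
    fun ν _ g hn h0 I _ s x₀ hs hinv hsep => ?_⟩
  have rV : Reg W (∏ k, W k) := Reg.prod fun k _ => Reg.self W k
  have rH : Reg B (∏ b, B b) := Reg.prod fun b _ => Reg.self B b
  have rBV : Reg B (∏ k, W k) := Reg.trans hW rV
  have h1 := card_le_one (H := ∏ b, B b) (V := ∏ k, W k) (hB.of_reg fun _ => rH)
    (Reg.trans (reg_prod B) rBV) s x₀
    (fun i => Reg.trans (reg_prod B) (by rw [LS.pb_prod]; exact Reg.prod fun b _ => hs i b))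
    (fun i x => Kp.prod fun k => hinv i k x) fun i i' h => hsep i i' h.of_prod
  rw [← mix_base hB (fun _ => rH) (reg_prod B) (fun _ => rBV) (by simp),
    hr (Fin n) (fun _ => ∏ k, W k) (by simp) fun _ => rV,
    mix_base hS (fun _ : Unit => rV) (reg_prod W) (fun _ => rV) (by simp)] at h1
  have h2 := lt_of_le_of_ne (Pp.mix_nonneg _ (hS.of_reg fun _ : Unit => rV))
    fun e => h0 (mix_self_zero hS hn e.symm g)
  exact_mod_cast le_of_mul_le_mul_right h1 h2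

/-- RKG -/
theorem card_mul_le {B : β → LS Ω T} {n : ℕ} (hB : Src B n) {W : κ → LS Ω T}
    (hW : ∀ k, Reg B (W k)) {I : Type} [Fintype I] (s : I → T → T) (x₀ : T)
    (hs : ∀ i b, Reg B ((B b).pb (s i))) (hinv : ∀ i k x, Kp (W k) x (s i x))
    (hsep : ∀ i i', (∀ b, Kp (B b) (s i x₀) (s i' x₀)) → i = i') (hn : n ≤ Fintype.card ν)
    (g : ν → κ) : (Fintype.card I : ℚ) * mix W (W ∘ g) ≤ mix B (W ∘ g) := by
  obtain ⟨r, h1, h2⟩ := exists_rank hB hW
  rw [h1 ν g hn]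
  by_cases h0 : mix W (W ∘ g) = 0
  · rw [h0, mul_zero, mul_zero]
  · obtain ⟨m, hm⟩ := mix_self_nat (hB.of_reg hW) hn g
    refine mul_le_mul_of_nonneg_right (Nat.cast_le.2 (h2 ν g hn h0 I s x₀ hs hinv hsep)) ?_
    rw [hm]
    exact Nat.cast_nonneg m

theorem mix_self_ne {B : β → LS Ω T} {n : ℕ} (hB : Src B n) {W : κ → LS Ω T}
    (hW : ∀ k, Reg B (W k)) (hn : n ≤ Fintype.card ν) {g : ν → κ} (h : mix B (W ∘ g) ≠ 0) :
    1 ≤ mix W (W ∘ g) := by
  obtain ⟨r, h1, -⟩ := exists_rank hB hW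
  obtain ⟨m, hm⟩ := mix_self_nat (hB.of_reg hW) hn g
  rw [h1 ν g hn] at h
  have := right_ne_zero_of_mul h
  rw [hm] at this ⊢
  exact_mod_cast Nat.one_le_iff_ne_zero.2 (Nat.cast_ne_zero.1 this)

/-- the number of coordinates is bounded by the dimension and the degree -/
theorem finrank_le [Infinite Ω] {R : LS Ω T} {n c : ℕ} (h : Src (fun _ : Unit => R) n)
    (h0 : mix (fun _ : Unit => R) (fun _ : Fin n => R) ≠ 0)
    (hc : mix (fun _ : Unit => R) (fun _ : Fin n => R) ≤ c) :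
    finrank Ω R.sp ≤ (c + 1) ^ (n + 1) * 2 ^ n := by
  obtain ⟨m, p, hp, rfl⟩ := exists_co R
  have e : LS.blk (fun _ : Fin m => ()) p (hx_unit hp) = fun _ : Unit => LS.co p hp :=
    funext (blk_unit hp)
  have h1 := Fn.hI_le _ _ (Fn.bd_ker (ν := Fin n) (c := c) (hx_unit hp) (by rw [e]; simpa using h)
    ⟨fun _ => (), by rw [e]; exact h0⟩ fun g => by rw [e]; exact hc) fun _ => 1
  rw [hI_kerG, Fintype.card_fin] at h1
  refine le_trans (le_of_eq ?_) (h1.trans (by simp))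
  have e2 : blk Ω (fun _ : Fin m => ()) (fun v t => p t v) () = (LS.co p hp).sp :=
    congrArg LS.sp (congrFun e ())
  rw [← e2, Fintype.prod_unique, pow_one]

section Grp
variable {Y : Type} [AddCommGroup Y] {B : β → LS Ω Y} {n : ℕ}

theorem reg_const (B : β → LS Ω T) {Z : Type} (V : LS Ω Z) (z : Z) : Reg B (V.pb fun _ => z) :=
  fun _ => ⟨0, 1, one_ne_zero, by
    rintro _ ⟨u, -, rfl⟩
    rw [pc_zero, one_mul]
    exact Submodule.mem_one.2 ⟨u z, rfl⟩⟩

/-- translations are regular -/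
theorem reg_add (hsub : ∀ b, Reg (prodB B B) ((B b).pb fun t : Y × Y => t.1 - t.2)) (z : Y)
    (b : β) : Reg B ((B b).pb (· + z)) := by
  have := (hsub b).pb fun x : Y => (x, -z)
  rw [LS.pb_pb] at this
  have e : ((fun t : Y × Y => t.1 - t.2) ∘ fun x : Y => (x, -z)) = (· + z) :=
    funext fun x => sub_neg_eq_add x z
  rw [e] at this
  refine Reg.trans ?_ this
  rintro (i | i)
  · exact ((LS.pb_pb (fun x : Y => (x, -z)) Prod.fst (B i)).trans (LS.pb_id _)).symm ▸ Reg.self B i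
  · exact (LS.pb_pb (fun x : Y => (x, -z)) Prod.snd (B i)).symm ▸ reg_const B (B i) (-z)

theorem reg_trm (hsub : ∀ b, Reg (prodB B B) ((B b).pb fun t : Y × Y => t.1 - t.2)) {V : LS Ω Y}
    (hV : Reg B V) (k : Fin 3) : Reg (prodB B B) (V.pb (Fn.trm k)) := by
  refine Reg.trans (fun b => ?_) (hV.pb _)
  fin_cases k
  exacts [Reg.self (prodB B B) (Sum.inl b), Reg.self (prodB B B) (Sum.inr b), hsub b]

/-- a set of translations that keep `R` -/
theorem card_mul_deg (hB : Src B n)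
    (hsub : ∀ b, Reg (prodB B B) ((B b).pb fun t : Y × Y => t.1 - t.2))
    (hsep : ∀ x y, (∀ b, Kp (B b) x y) → x = y) {R : LS Ω Y} (hR : Reg B R) (K : Finset Y)
    (hK : ∀ z ∈ K, ∀ x, Kp R x (x + z)) :
    (K.card : ℚ) * mix (fun _ : Unit => R) (fun _ : Fin n => R) ≤ mix B fun _ : Fin n => R := by
  have := card_mul_le hB (W := fun _ : Unit => R) (fun _ => hR) (fun (z : K) x => x + z.1) 0
    (fun z b => reg_add hsub z.1 b) (fun z _ x => hK z.1 z.2 x)
    (fun z z' h => Subtype.ext (add_left_cancel (hsep _ _ h))) (ν := Fin n) (by simp) fun _ => ()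
  rwa [Fintype.card_coe] at this

/-- the same for the maps `x`, `y`, `x - y` -/
theorem card_mul_deg₃ (hB : Src B n)
    (hsub : ∀ b, Reg (prodB B B) ((B b).pb fun t : Y × Y => t.1 - t.2))
    (hsep : ∀ x y, (∀ b, Kp (B b) x y) → x = y) {R : LS Ω Y} (hR : Reg B R) (K : AddSubgroup Y)
    [Finite K] (hK : ∀ z ∈ K, ∀ x, Kp R x (x + z)) (g : Fin n ⊕ Fin n → Fin 3) :
    (Nat.card K : ℚ) ^ 2 * mix (fun k => R.pb (Fn.trm k)) ((fun k => R.pb (Fn.trm k)) ∘ g) ≤
      mix (prodB B B) fun k => R.pb (Fn.trm (g k)) := by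
  cases nonempty_fintype K
  have := card_mul_le (hB.prod hB) (W := fun k => R.pb (Fn.trm k)) (reg_trm hsub hR)
    (fun (z : K × K) (t : Y × Y) => (t.1 + z.1.1, t.2 + z.2.1)) 0
    (by
      rintro z (b | b)
      · have := Reg.fst B (reg_add hsub z.1.1 b)
        rw [LS.pb_pb] at this
        exact (LS.pb_pb (fun t : Y × Y => (t.1 + z.1.1, t.2 + z.2.1)) Prod.fst (B b)).symm ▸ this
      · have := Reg.snd B (reg_add hsub z.2.1 b)
        rw [LS.pb_pb] at this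
        exact (LS.pb_pb (fun t : Y × Y => (t.1 + z.1.1, t.2 + z.2.1)) Prod.snd (B b)).symm ▸ this)
    (fun z k t => Kp.pb.2 (by
      fin_cases k
      · exact hK _ z.1.2 t.1
      · exact hK _ z.2.2 t.2
      · have := hK _ (K.sub_mem z.1.2 z.2.2) (t.1 - t.2)
        rwa [← add_sub_add_comm] at this))
    (fun z z' h => Prod.ext
      (Subtype.ext (add_left_cancel (hsep _ _ fun b => (Kp.pb (j := Prod.fst)).1 (h (Sum.inl b)))))
      (Subtype.ext (add_left_cancel (hsep _ _ fun b => (Kp.pb (j := Prod.snd)).1 (h (Sum.inr b))))))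
    (ν := Fin n ⊕ Fin n) (by simp) g
  rwa [Fintype.card_prod, Nat.cast_mul, ← sq, ← Nat.card_eq_fintype_card] at this

omit [AddCommGroup Y] in
theorem finite_of_card_le (K : Set Y) (r : ℚ) (h : ∀ S : Finset Y, ↑S ⊆ K → (S.card : ℚ) ≤ r) :
    K.Finite := by
  by_contra hn
  obtain ⟨S, hS, hc⟩ := Set.Infinite.exists_subset_card_eq hn (⌈r⌉₊ + 1)
  have h1 := h S hS
  rw [hc, Nat.cast_add, Nat.cast_one] at h1
  linarith [Nat.le_ceil r]

theorem fact_smul_mem {K K₂ : AddSubgroup Y} (hl : K ≤ K₂) [Finite K₂] {D : ℕ}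
    (h : Nat.card K₂ ≤ D * Nat.card K) {z : Y} (hz : z ∈ K₂) : D.factorial • z ∈ K := by
  have e := (K.addSubgroupOf K₂).index_mul_card
  rw [Nat.card_congr (AddSubgroup.addSubgroupOfEquivOfLe hl).toEquiv] at e
  have : Finite K := Finite.of_injective _ (AddSubgroup.inclusion_injective hl)
  have h1 : (K.addSubgroupOf K₂).index ≤ D := le_of_mul_le_mul_right (e ▸ h) Nat.card_pos
  obtain ⟨m, hm⟩ := Nat.dvd_factorial
    (Nat.pos_of_ne_zero (AddSubgroup.index_ne_zero_of_finite (H := K.addSubgroupOf K₂))) h1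
  rw [hm, mul_nsmul]
  exact K.nsmul_mem ((K.addSubgroupOf K₂).nsmul_index_mem ⟨z, hz⟩) m

/-- BOUND, numerical part -/
theorem bound_num [Infinite Ω] (hB : Src B n)
    (hsub : ∀ b, Reg (prodB B B) ((B b).pb fun t : Y × Y => t.1 - t.2))
    (hsep : ∀ x y, (∀ b, Kp (B b) x y) → x = y) {H : LS Ω Y} (hH : Reg B H)
    (h0 : mix B (fun _ : Fin n => H) ≠ 0) {a : ℕ} (ha : a ≠ 0) :
    ∃ s c D : ℕ, D ≠ 0 ∧ ∀ (N : ℕ) (R : LS Ω Y) (mu : Y → Ω) (K K₂ : AddSubgroup Y), N ≠ 0 →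
      Reg B R → Eqv B mu R (H ^ (a * N)) → K ≤ K₂ → (∀ z ∈ K₂, ∀ x, Kp R x (x + z)) →
      N ^ n ≤ Nat.card K → Finite K₂ ∧ (∀ z ∈ K₂, D • z ∈ K) ∧ finrank Ω R.sp ≤ s ∧
        mix (fun _ : Unit => R) (fun _ : Fin n => R) ≠ 0 ∧
        (∃ g : Fin n ⊕ Fin n → Fin 3,
          mix (fun k => R.pb (Fn.trm k)) ((fun k => R.pb (Fn.trm k)) ∘ g) ≠ 0) ∧
        ∀ g : Fin n ⊕ Fin n → Fin 3,
          mix (fun k => R.pb (Fn.trm k)) ((fun k => R.pb (Fn.trm k)) ∘ g) ≤ c := by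
  obtain ⟨M, hM⟩ := (Set.finite_range fun g : Fin n ⊕ Fin n → Fin 3 =>
    mix (prodB B B) fun k => H.pb (Fn.trm (g k))).bddAbove
  set h := mix B fun _ : Fin n => H with hh
  refine ⟨(⌈(a : ℚ) ^ n * h⌉₊ + 1) ^ (n + 1) * 2 ^ n, ⌈((a : ℚ) ^ n) ^ 2 * M⌉₊,
    ⌈(a : ℚ) ^ n * h⌉₊.factorial, Nat.factorial_ne_zero _,
    fun N R mu K K₂ hN hR hE hl hK hc => ?_⟩
  have e1 : mix B (fun _ : Fin n => R) = (N : ℚ) ^ n * ((a : ℚ) ^ n * h) := by
    rw [mix_eqv (W' := fun _ => H ^ (a * N)) hB (fun _ => hR) (by simp) fun _ => ⟨mu, hE⟩,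
      mix_pow hB (fun _ => hH) (by simp)]
    simp only [Finset.prod_const, Finset.card_univ, Fintype.card_fin, Nat.cast_mul, mul_pow]
    ring
  have e2 : ∀ g : Fin n ⊕ Fin n → Fin 3, mix (prodB B B) (fun k => R.pb (Fn.trm (g k))) =
      ((N : ℚ) ^ n) ^ 2 * (((a : ℚ) ^ n) ^ 2 * mix (prodB B B) fun k => H.pb (Fn.trm (g k))) :=
    fun g => by
      rw [mix_eqv (W' := fun k => H.pb (Fn.trm (g k)) ^ (a * N)) (hB.prod hB)
        (fun k => reg_trm hsub hR _) (by simp) fun k => ⟨_, by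
          rw [← LS.pb_pow]
          exact hE.pb _ fun b => reg_trm hsub (Reg.self B b) _⟩,
        mix_pow (hB.prod hB) (fun k => reg_trm hsub hH _) (by simp)]
      simp only [Finset.prod_const, Finset.card_univ, Fintype.card_sum, Fintype.card_fin,
        Nat.cast_mul, mul_pow]
      ring
  have pN : (0 : ℚ) < (N : ℚ) ^ n := by positivity
  have pa : (0 : ℚ) < (a : ℚ) ^ n := by positivity
  have d1 : 1 ≤ mix (fun _ : Unit => R) (fun _ : Fin n => R) :=
    mix_self_ne hB (W := fun _ : Unit => R) (fun _ => hR) (ν := Fin n) (by simp) (g := fun _ => ())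
      (e1 ▸ mul_ne_zero pN.ne' (mul_ne_zero pa.ne' h0))
  have fin : Finite K₂ := (finite_of_card_le (K₂ : Set Y) (mix B fun _ : Fin n => R) fun S hS =>
    (le_mul_of_one_le_right (Nat.cast_nonneg _) d1).trans
      (card_mul_deg hB hsub hsep hR S fun z hz => hK z (hS hz))).to_subtype
  have c2 : (Nat.card K₂ : ℚ) * mix (fun _ : Unit => R) (fun _ : Fin n => R) ≤
      (N : ℚ) ^ n * ((a : ℚ) ^ n * h) := by
    have := card_mul_deg hB hsub hsep hR (Set.toFinite (K₂ : Set Y)).toFinset fun z hz =>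
      hK z (by simpa using hz)
    rwa [← Set.ncard_eq_toFinset_card _ (Set.toFinite (K₂ : Set Y)), ← Nat.card_coe_set_eq,
      e1] at this
  have cK : (N : ℚ) ^ n ≤ Nat.card K := by exact_mod_cast hc
  have cK₂ : (N : ℚ) ^ n ≤ Nat.card K₂ :=
    cK.trans (Nat.cast_le.2 (Nat.card_le_card_of_injective _ (AddSubgroup.inclusion_injective hl)))
  have d2 : mix (fun _ : Unit => R) (fun _ : Fin n => R) ≤ (a : ℚ) ^ n * h :=
    le_of_mul_le_mul_left ((mul_le_mul_of_nonneg_right cK₂ (zero_le_one.trans d1)).trans c2) pN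
  refine ⟨fin, fun z hz => fact_smul_mem hl ?_ hz,
    finrank_le (hB.of_reg fun _ => hR) (zero_lt_one.trans_le d1).ne' (d2.trans (Nat.le_ceil _)),
    (zero_lt_one.trans_le d1).ne', ⟨Sum.elim (fun _ => 0) fun _ => 1, ?_⟩, fun g => ?_⟩
  · have h1 := (le_mul_of_one_le_right (Nat.cast_nonneg _) d1).trans c2
    have h2 : (N : ℚ) ^ n * ((a : ℚ) ^ n * h) ≤ Nat.card K * ⌈(a : ℚ) ^ n * h⌉₊ :=
      mul_le_mul cK (Nat.le_ceil _) ((zero_le_one.trans d1).trans d2) (Nat.cast_nonneg _)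
    rw [mul_comm]
    exact_mod_cast h1.trans h2
  · refine (zero_lt_one.trans_le (mix_self_ne (hB.prod hB) (reg_trm hsub hR) (by simp) ?_)).ne'
    have h1 := mix_prod B B (fun _ : Fin n => R) fun _ : Fin n => R
    have h2 : mix B (fun _ : Fin n => R) ≠ 0 := e1 ▸ mul_ne_zero pN.ne' (mul_ne_zero pa.ne' h0)
    refine fun e => mul_ne_zero h2 h2 (h1.symm.trans (Eq.trans ?_ e))
    congr 1
    funext k
    rcases k with k | k <;> rfl
  · have h1 := card_mul_deg₃ hB hsub hsep hR K₂ hK g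
    obtain ⟨m, hm⟩ := mix_self_nat ((hB.prod hB).of_reg (reg_trm hsub hR))
      (ν := Fin n ⊕ Fin n) (by simp) g
    rw [e2] at h1
    have h2 := (mul_le_mul_of_nonneg_right (pow_le_pow_left₀ pN.le cK₂ 2)
      (hm ▸ Nat.cast_nonneg m)).trans h1
    refine ((le_of_mul_le_mul_left h2 (by positivity)).trans ?_).trans (Nat.le_ceil _)
    exact mul_le_mul_of_nonneg_left (hM ⟨g, rfl⟩) (by positivity)

/-- BOUND -/
theorem bound [IsAlgClosed Ω] (fr : Ω ≃+* Ω) {q : ℕ} (hq : 1 < q) (hfr : ∀ c, fr c = c ^ q)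
    (hB : Src B n) (hsub : ∀ b, Reg (prodB B B) ((B b).pb fun t : Y × Y => t.1 - t.2))
    (hsep : ∀ x y, (∀ b, Kp (B b) x y) → x = y) {H : LS Ω Y} (hH : Reg B H)
    (h0 : mix B (fun _ : Fin n => H) ≠ 0) (F : Y →+ Y) (hF : Surjective F) {a : ℕ} (ha : a ≠ 0) :
    ∃ s c D : ℕ, D ≠ 0 ∧ ∀ (N : ℕ) (R : LS Ω Y) (mu : Y → Ω) (K K₂ : AddSubgroup Y), N ≠ 0 →
      Reg B R → Eqv B mu R (H ^ (a * N)) → (R.tw fr).Sim (R.pb F) → K ≤ K₂ →
      (∀ z ∈ K₂, ∀ x, Kp R x (x + z)) → N ^ n ≤ Nat.card K →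
      Finite K₂ ∧ (∀ z ∈ K₂, D • z ∈ K) ∧ ∃ (p : Y → Fin s → Ω) (hp : ∀ y, p y ≠ 0),
        LS.co p hp = R ∧ (∀ y, Par (p (F y)) (p y ^ q)) ∧
        Src (LS.blk Prod.fst (Fn.trx p) (Fn.trx_ne hp)) (Fintype.card (Fin n ⊕ Fin n)) ∧
        (∃ g : Fin n ⊕ Fin n → Fin 3, mix (LS.blk Prod.fst (Fn.trx p) (Fn.trx_ne hp))
          (LS.blk Prod.fst (Fn.trx p) (Fn.trx_ne hp) ∘ g) ≠ 0) ∧
        (∀ g : Fin n ⊕ Fin n → Fin 3, mix (LS.blk Prod.fst (Fn.trx p) (Fn.trx_ne hp))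
          (LS.blk Prod.fst (Fn.trx p) (Fn.trx_ne hp) ∘ g) ≤ c) ∧
        ∀ t, ∃ t', BPar Prod.fst (Fn.trx p t') (Fn.trx p t ^ q) := by
  obtain ⟨s, c, D, hD, h⟩ := bound_num hB hsub hsep hH h0 ha
  refine ⟨s, c, D, hD, fun N R mu K K₂ hN hR hE hs hl hK hc => ?_⟩
  obtain ⟨h1, h2, h3, -, h4, h5⟩ := h N R mu K K₂ hN hR hE hl hK hc
  obtain ⟨p, hp, rfl, hF⟩ := Fn.exists_coord fr hq hfr R hF hs h3
  rw [← Fn.blk_trx hp] at h4 h5
  refine ⟨h1, h2, p, hp, rfl, hF, ?_, h4, h5, fun t => ?_⟩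
  · rw [Fn.blk_trx hp, Fintype.card_sum, Fintype.card_fin]
    exact (hB.prod hB).of_reg (reg_trm hsub hR)
  · choose k hk e using hF
    refine ⟨(F t.1, F t.2), fun b => k (Fn.trm b t), fun b => (hk _).ne_zero, fun v => ?_⟩
    have : Fn.trm v.1 (F t.1, F t.2) = F (Fn.trm v.1 t) := by
      obtain ⟨b, l⟩ := v
      fin_cases b
      exacts [rfl, rfl, (map_sub _ _ _).symm]
    rw [Fn.trx, this, e]
    rfl

end Grp

end Pool.Agent.Tav.Ti
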