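import Pool.Agent.P.MP_2ce3e7_ag.Tav.TiPig
import Pool.Agent.P.MP_2ce3e7_ag.Tav.TiImg
import Pool.Agent.P.MP_2ce3e7_ag.Tav.TiEqv
import Pool.Agent.P.MP_2ce3e7_ag.Tav.AExp

/-! Homomorphisms between two quotients with the same image, and their effect on degrees. -/

set_option autoImplicit false

noncomputable section

namespace Pool.Agent.Tav.Ti

open MvPolynomial Module Function Fn

variable {Ω : Type} [Field Ω] {T Y S : Type} {β γ ν σ : Type} [Fintype β] [Fintype γ] [Fintype ν]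

theorem par_symm {x y : σ → Ω} (h : Par x y) : Par y x := by
  obtain ⟨c, hc, e⟩ := h
  exact ⟨c⁻¹, hc.inv, by rw [e, smul_smul, inv_mul_cancel₀ hc.ne_zero, one_smul]⟩

theorem par_trans {x y z : σ → Ω} (h : Par x y) (h' : Par y z) : Par x z := by
  obtain ⟨c, hc, e⟩ := h
  obtain ⟨c', hc', e'⟩ := h'
  exact ⟨c * c', hc.mul hc', by rw [e, e', smul_smul]⟩

theorem par_pow {x y : σ → Ω} (h : Par x y) (q : ℕ) : Par (x ^ q) (y ^ q) := by
  obtain ⟨c, hc, e⟩ := h
  exact ⟨c ^ q, hc.pow q, by rw [e, smul_pow]⟩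

theorem par_iter {p : Y → σ → Ω} {F : Y → Y} {q : ℕ} (h : ∀ y, Par (p (F y)) (p y ^ q)) (e : ℕ)
    (y : Y) : Par (p (F^[e] y)) (p y ^ q ^ e) := by
  induction e with
  | zero => exact ⟨1, isUnit_one, by simp⟩
  | succ e ih =>
    rw [iterate_succ_apply', pow_succ, pow_mul]
    exact par_trans (h _) (par_pow ih q)

variable [Finite σ]

/-- proportional coordinates, read on the system -/
theorem par_iff {p : T → σ → Ω} (hp : ∀ t, p t ≠ 0) (x y : T) : Par (p x) (p y) ↔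
    ∃ c : Ω, c ≠ 0 ∧ ∀ u ∈ (LS.co p hp).sp, u y = c * u x := by
  refine ⟨fun h => ?_, fun ⟨c, hc, h⟩ => par_symm ⟨c, hc.isUnit, funext fun l =>
    h (fun t => p t l) (Submodule.subset_span ⟨l, rfl⟩)⟩⟩
  obtain ⟨c, hc, e⟩ := par_symm h
  refine ⟨c, hc.ne_zero, fun u hu => ?_⟩
  induction hu using Submodule.span_induction with
  | mem u hu =>
    obtain ⟨l, rfl⟩ := hu
    exact congrFun e l
  | zero => simp
  | add u u' _ _ h1 h2 => rw [Pi.add_apply, Pi.add_apply, h1, h2, mul_add]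
  | smul a u _ h1 => rw [Pi.smul_apply, Pi.smul_apply, h1, smul_eq_mul, smul_eq_mul, mul_left_comm]

/-- the common zeros of forms on a complete source are complete -/
theorem cmp_zs {B : β → LS Ω T} (hc : Cmp B) {Z : Set T}
    (hZ : ∀ t, t ∉ Z → ∃ e, ∃ f ∈ pc B e, f t ≠ 0 ∧ ∀ z ∈ Z, f z = 0) :
    Cmp fun i => (B i).pb (Subtype.val : Z → T) := by
  obtain ⟨τ, _, _, w, x, hx, rfl, h⟩ := cmp_blk hc
  rw [funext (LS.pb_blk w x hx (Subtype.val : Z → T))]
  refine cmp_of_cl _ fun y hy h0 => ?_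
  obtain ⟨t, ht⟩ := h y hy fun d f hf h1 => h0 d f hf fun z => h1 z
  by_cases hz : t ∈ Z
  · exact ⟨⟨t, hz⟩, ht⟩
  obtain ⟨e, f, hf, h1, h2⟩ := hZ t hz
  obtain ⟨G, hG, rfl⟩ := mem_pc_blk.1 hf
  exact (h1 ((ht.eval_ne hG).1 (h0 e G hG fun z => h2 z z.2))).elim

/-- the locus where two regular maps to a projective space agree is complete -/
theorem cmp_par [IsAlgClosed Ω] {B : β → LS Ω T} (hc : Cmp B) {x y : T → σ → Ω}
    (hx : ∀ t, x t ≠ 0) (hy : ∀ t, y t ≠ 0) (rx : Reg B (LS.co x hx)) (ry : Reg B (LS.co y hy)) :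
    Cmp fun i => (B i).pb (Subtype.val : {t | Par (x t) (y t)} → T) := by
  have hr : ∀ k, Reg B (![LS.co x hx, LS.co y hy] k) := fun k => by fin_cases k <;> assumption
  refine cmp_of_reg (cmp_zs (hc.ext hr) (Z := {t | Par (x t) (y t)}) fun t ht => ?_) fun i =>
    Reg.self (fun i => (Sum.elim B ![LS.co x hx, LS.co y hy] i).pb Subtype.val) (Sum.inl i)
  obtain ⟨l, m, h⟩ : ∃ l m, x t l * y t m ≠ x t m * y t l := by
    by_contra hn
    push Not at hn
    exact ht (par_of_minors (hx t) (hy t) hn)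
  have hm : ∀ l m, (fun t => x t l) * (fun t => y t m) ∈
      pc (Sum.elim B ![LS.co x hx, LS.co y hy]) (Sum.elim 0 1) := fun l m => by
    rw [pc_elim, Sum.elim_comp_inl, Sum.elim_comp_inr, pc_zero, one_mul, pc, Fin.prod_univ_two,
      Pi.one_apply, Pi.one_apply, pow_one, pow_one]
    exact Submodule.mul_mem_mul (Submodule.subset_span ⟨l, rfl⟩) (Submodule.subset_span ⟨m, rfl⟩)
  refine ⟨_, _, Submodule.sub_mem _ (hm l m) (hm m l), sub_ne_zero.2 h, ?_⟩
  rintro z ⟨c, -, e⟩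
  simp only [Pi.sub_apply, Pi.mul_apply, e, Pi.smul_apply, smul_eq_mul]
  ring

variable [AddCommGroup Y] {B : β → LS Ω Y}

omit [Finite σ] in
theorem reg_sub' (hs : RegM (prodB B B) B fun t : Y × Y => t.1 - t.2) {C : γ → LS Ω S}
    {u v : S → Y} (hu : RegM C B u) (hv : RegM C B v) : RegM C B (u - v) := by
  have := (hu.pair hv).comp hs
  have e : ((fun t : Y × Y => t.1 - t.2) ∘ fun t => (u t, v t)) = u - v := rfl
  rwa [e] at this

omit [Finite σ] in
theorem reg_add' (hs : RegM (prodB B B) B fun t : Y × Y => t.1 - t.2) {C : γ → LS Ω S}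
    {u v : S → Y} (hu : RegM C B u) (hv : RegM C B v) : RegM C B (u + v) := by
  have := reg_sub' hs hu (reg_sub' hs (regM_const C B 0) hv)
  have e : u - ((fun _ : S => (0 : Y)) - v) = u + v := funext fun t => by simp
  rwa [e] at this

omit [Finite σ] in
theorem reg_nsmul' (hs : RegM (prodB B B) B fun t : Y × Y => t.1 - t.2) {C : γ → LS Ω S}
    {u : S → Y} (hu : RegM C B u) (n : ℕ) : RegM C B (n • u) := by
  induction n with
  | zero => rw [zero_smul]; exact regM_const C B 0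
  | succ n ih => rw [succ_nsmul]; exact reg_add' hs ih hu

variable {p p' : Y → σ → Ω} {hp : ∀ t, p t ≠ 0} {hp' : ∀ t, p' t ≠ 0} {K K' : AddSubgroup Y}

/-- inclusion of the images of `(x, y, x - y)` -/
theorem rel [IsAlgClosed Ω] (hc : Cmp B) (hs : RegM (prodB B B) B fun t : Y × Y => t.1 - t.2)
    (rp' : Reg B (LS.co p' hp')) (hK' : ∀ x y, Par (p' x) (p' y) ↔ y - x ∈ K') (hp : ∀ t, p t ≠ 0)
    (h : ∀ d, ∀ f ∈ Sd Ω Prod.fst d, (∀ t, eval (trx p' t) f = 0) → ∀ t, eval (trx p t) f = 0) :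
    (∀ a, ∃ a', Par (p a) (p' a')) ∧ ∀ a b a' b', Par (p a) (p' a') → Par (p b) (p' b') →
      Par (p (a - b)) (p' (a' - b')) := by
  have hcl : Cl Prod.fst (trx p') := img (hc.prod hc) (trx_ne hp') fun b => by
    rw [blk_trx hp']
    fin_cases b
    exacts [rp'.fst B, Reg.snd B rp', hs.pull rp']
  have key : ∀ t, ∃ t', ∀ b, Par (p (trm b t)) (p' (trm b t')) := fun t => by
    obtain ⟨t', c, hc0, e⟩ := hcl (trx p t) (trx_ne hp t) fun d f hf h0 => h d f hf h0 t
    exact ⟨t', fun b => ⟨c b, (hc0 b).isUnit, funext fun l => e (b, l)⟩⟩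
  refine ⟨fun a => ?_, fun a b a' b' ha hb => ?_⟩
  · obtain ⟨t', ht⟩ := key (a, a)
    exact ⟨t'.1, ht 0⟩
  · obtain ⟨t', ht⟩ := key (a, b)
    have h1 := (hK' _ _).1 (par_trans (par_symm (ht 0)) ha)
    have h2 := (hK' _ _).1 (par_trans (par_symm (ht 1)) hb)
    refine par_trans (ht 2) ((hK' _ _).2 ?_)
    have := K'.sub_mem h1 h2
    change a' - t'.1 - (b' - t'.2) ∈ K' at this
    change a' - b' - (t'.1 - t'.2) ∈ K'
    rwa [sub_sub_sub_comm]

/-- PIGU -/
theorem maps [IsAlgClosed Ω] (hc : Cmp B) (hs : RegM (prodB B B) B fun t : Y × Y => t.1 - t.2)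
    (rp : Reg B (LS.co p hp)) (rp' : Reg B (LS.co p' hp'))
    (hK : ∀ x y, Par (p x) (p y) ↔ y - x ∈ K) (hK' : ∀ x y, Par (p' x) (p' y) ↔ y - x ∈ K')
    (h : ∀ d, ∀ f ∈ Sd Ω Prod.fst d, (∀ t, eval (trx p' t) f = 0) → ∀ t, eval (trx p t) f = 0)
    {M : ℕ} (hM : ∀ k ∈ K', M • k = 0) :
    ∃ u : Y →+ Y, (∀ a, Par (p' (u a)) (p (M • a))) ∧ (∀ k ∈ K, u k = 0) ∧
      (∀ z, u z = 0 → M • z ∈ K) ∧
      (∀ (F : Y →+ Y) (q : ℕ), (∀ y, Par (p (F y)) (p y ^ q)) → (∀ y, Par (p' (F y)) (p' y ^ q)) →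
        ∀ a, u (F a) = F (u a)) ∧
      ∃ (T : Type) (A : β ⊕ β → LS Ω T) (j : T → Y), Cmp A ∧ Surjective j ∧ RegM A B j ∧
        RegM A B (u ∘ j) := by
  obtain ⟨h1, h2⟩ := rel hc hs rp' hK' hp h
  choose e he using h1
  have wd : ∀ {a a' a''}, Par (p a) (p' a') → Par (p a) (p' a'') → M • a' = M • a'' :=
    fun ha hb => by
      have := hM _ ((hK' _ _).1 (par_trans (par_symm hb) ha))
      rwa [smul_sub, sub_eq_zero] at this
  have h0 : Par (p 0) (p' 0) := by simpa using h2 0 0 _ _ (he 0) (he 0)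
  have hn : ∀ (n : ℕ) {a a'}, Par (p a) (p' a') → Par (p (n • a)) (p' (n • a')) := by
    intro n a a' ha
    induction n with
    | zero => simpa using h0
    | succ n ih => simpa [succ_nsmul] using h2 _ _ _ _ ih (h2 _ _ _ _ h0 ha)
  let u : Y →+ Y := AddMonoidHom.ofMapSub (fun a => M • e a) fun a b => by
    rw [← smul_sub]
    exact wd (he _) (h2 _ _ _ _ (he a) (he b))
  have hu : ∀ {a a'}, Par (p a) (p' a') → u a = M • a' := fun ha => wd (he _) ha
  have h3 : ∀ a, Par (p' (u a)) (p (M • a)) := fun a => par_symm (hn M (he a))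
  refine ⟨u, h3, fun k hk => ?_, fun z hz => ?_, fun F q hF hF' a => ?_,
    {t : Y × Y | Par (p t.1) (p' t.2)}, _, fun t => t.1.1, cmp_par (hc.prod hc) (fun t => hp t.1)
      (fun t => hp' t.2) ?_ ?_, fun a => ⟨⟨(a, e a), he a⟩, rfl⟩, ?_, ?_⟩
  · rw [hu (par_trans ((hK k 0).2 (by simpa using hk)) h0), smul_zero]
  · have := h3 z
    rw [hz] at this
    simpa using (hK _ _).1 (par_trans h0 this)
  · rw [hu (par_trans (hF a) (par_trans (par_pow (he a) q) (par_symm (hF' _)))), hu (he a),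
      map_nsmul]
  · rw [← LS.pb_co Prod.fst p hp]; exact rp.fst B
  · rw [← LS.pb_co Prod.snd p' hp']; exact Reg.snd B rp'
  · exact (RegM.restrict (prodB B B) Subtype.val).comp (RegM.fst B B)
  · have := reg_nsmul' hs ((RegM.restrict (prodB B B)
      (Subtype.val : {t : Y × Y | Par (p t.1) (p' t.2)} → _)).comp (RegM.snd B B)) M
    have e1 : (u ∘ fun t : {t : Y × Y | Par (p t.1) (p' t.2)} => t.1.1) =
        M • (Prod.snd ∘ Subtype.val) := funext fun t => hu t.2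
    rwa [e1]

section sim
variable [DecidableEq ν] {H : LS Ω Y} {C : γ → LS Ω S} {W : ν → LS Ω S} {n : ℕ}

omit [Finite σ] in
/-- the parallelogram law for degrees, from the law as an equivalence -/
theorem para_eqv (hs : RegM (prodB B B) B fun t : Y × Y => t.1 - t.2) (rH : Reg B H)
    {lam : Y × Y → Ω} (law : Eqv (prodB B B) lam
      ((H.pb fun t : Y × Y => t.1 + t.2) * H.pb fun t : Y × Y => t.1 - t.2)
      (H.pb Prod.fst ^ 2 * H.pb Prod.snd ^ 2))
    (hC : Src C n) (hW : ∀ k, Reg C (W k)) (hn : n ≤ Fintype.card ν) (k : ν) {u v : S → Y}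
    (hu : RegM C B u) (hv : RegM C B v) :
    mix C (update W k (H.pb (u + v))) + mix C (update W k (H.pb (u - v))) =
      2 * mix C (update W k (H.pb u)) + 2 * mix C (update W k (H.pb v)) := by
  have h1 := law.pb (fun t => (u t, v t)) (hu.pair hv)
  simp only [LS.pb_mul, LS.pb_pow, LS.pb_pb] at h1
  have ra := (reg_add' hs hu hv).pull rH
  have rs := (reg_sub' hs hu hv).pull rH
  have h2 := Eqv.mix_update hC hW hn k (ra.mul rs) h1
  rw [mix_update_mul hC hW hn k ra rs] at h2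
  have h3 := mix_update_mul hC hW hn k ((hu.pull rH).pow 2) ((hv.pull rH).pow 2)
  rw [mix_update_pow hC hW hn k (hu.pull rH), mix_update_pow hC hW hn k (hv.pull rH)] at h3
  exact h2.trans (by exact_mod_cast h3)

omit [Finite σ] in
theorem sq_of_para (hs : RegM (prodB B B) B fun t : Y × Y => t.1 - t.2) (Q : (S → Y) → ℚ)
    (hQ : ∀ u v, RegM C B u → RegM C B v → Q (u + v) + Q (u - v) = 2 * Q u + 2 * Q v)
    {u : S → Y} (hu : RegM C B u) (m : ℕ) : Q (m • u) = (m : ℚ) ^ 2 * Q u := by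
  have h0 : Q 0 = 0 := by
    have := hQ 0 0 (regM_const C B 0) (regM_const C B 0)
    rw [add_zero, sub_zero] at this
    linarith
  induction m using Nat.twoStepInduction with
  | zero => simpa using h0
  | one => simp
  | more m ih ih' =>
    have := hQ _ _ (reg_nsmul' hs hu (m + 1)) hu
    rw [← succ_nsmul, ih', show (m + 1) • u - u = m • u by rw [succ_nsmul, add_sub_cancel_right],
      ih] at this
    push_cast at this ⊢
    linear_combination this

/-- SIM, with the law in numerical form -/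
theorem sim0 (hs : RegM (prodB B B) B fun t : Y × Y => t.1 - t.2) (rH : Reg B H)
    (rp : Reg B (LS.co p hp)) (rp' : Reg B (LS.co p' hp')) {m m' : ℕ} {mu mu' : Y → Ω}
    (e : Eqv B mu (LS.co p hp) (H ^ m)) (e' : Eqv B mu' (LS.co p' hp') (H ^ m')) {M Q : ℕ}
    {u₁ : Y → Y} (hu : ∀ a, Par (p' (u₁ a)) (p (M • a) ^ Q)) (ru : RegM B B u₁)
    (hC : Src C n) (hW : ∀ k, Reg C (W k)) (hn : n ≤ Fintype.card ν) (k : ν)
    (hQ : ∀ u v, RegM C B u → RegM C B v →
      mix C (update W k (H.pb (u + v))) + mix C (update W k (H.pb (u - v))) =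
        2 * mix C (update W k (H.pb u)) + 2 * mix C (update W k (H.pb v)))
    {be : S → Y} (hb : RegM C B be) :
    m' * mix C (update W k (H.pb (u₁ ∘ be))) =
      (m * Q * M ^ 2 : ℕ) * mix C (update W k (H.pb be)) := by
  have r1 := hb.comp ru
  have r2 := reg_nsmul' hs hb M
  have h1 := Eqv.mix_update hC hW hn k (r1.pull rp') (e'.pb _ r1)
  have h2 := Eqv.mix_update hC hW hn k (r2.pull rp) (e.pb _ r2)
  rw [LS.pb_pow, mix_update_pow hC hW hn k (r1.pull rH)] at h1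
  rw [LS.pb_pow, mix_update_pow hC hW hn k (r2.pull rH),
    sq_of_para hs (fun u => mix C (update W k (H.pb u))) hQ hb] at h2
  have h3 := mix_mlt_one hC (W := update W k ((LS.co p hp).pb (M • be))) (fun i => by
    rcases eq_or_ne i k with rfl | hi
    · rw [update_self]; exact r2.pull rp
    · rw [update_of_ne hi]; exact hW i) hn k (q := Q) (V' := (LS.co p' hp').pb (u₁ ∘ be)) (by
      rw [update_self, LS.pb_co, LS.pb_co]
      refine LS.mlt_co _ _ Q fun t => ?_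
      obtain ⟨c, -, hc⟩ := hu (be t)
      exact ⟨c, fun i => congrFun hc i⟩)
  rw [update_idem, h1, h2] at h3
  rw [h3]
  push_cast
  ring

/-- SIM -/
theorem sim (hs : RegM (prodB B B) B fun t : Y × Y => t.1 - t.2) (rH : Reg B H)
    {lam : Y × Y → Ω} (law : Eqv (prodB B B) lam
      ((H.pb fun t : Y × Y => t.1 + t.2) * H.pb fun t : Y × Y => t.1 - t.2)
      (H.pb Prod.fst ^ 2 * H.pb Prod.snd ^ 2))
    (rp : Reg B (LS.co p hp)) (rp' : Reg B (LS.co p' hp')) {m m' : ℕ} {mu mu' : Y → Ω}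
    (e : Eqv B mu (LS.co p hp) (H ^ m)) (e' : Eqv B mu' (LS.co p' hp') (H ^ m')) {M q : ℕ}
    {u F : Y → Y} (hu : ∀ a, Par (p' (u a)) (p (M • a))) (hF : ∀ y, Par (p' (F y)) (p' y ^ q))
    (r : ℕ) (ru : RegM B B (F^[r] ∘ u))
    (hC : Src C n) (hW : ∀ k, Reg C (W k)) (hn : n ≤ Fintype.card ν) (k : ν)
    {be : S → Y} (hb : RegM C B be) :
    m' * mix C (update W k (H.pb ((F^[r] ∘ u) ∘ be))) =
      (m * q ^ r * M ^ 2 : ℕ) * mix C (update W k (H.pb be)) :=
  sim0 hs rH rp rp' e e' (fun a => par_trans (par_iter hF r _) (par_pow (hu a) _)) ru hC hW hn k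
    (fun _ _ => para_eqv hs rH law hC hW hn k) hb

end sim

end Pool.Agent.Tav.Ti
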