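import Mathlib

/-! Bounded fibres on points bound the separable degree. -/

set_option autoImplicit false

noncomputable section

namespace Pool.Agent.Tav.Sep

open Set Function

variable {Om : Type} [Field Om] [IsAlgClosed Om]

/-- a point at which a given nonzero element does not vanish -/
theorem exists_pt_ne {S : Type} [CommRing S] [IsDomain S] [Algebra Om S]
    [Algebra.FiniteType Om S] (d : S) (hd : d ≠ 0) : ∃ χ : S →ₐ[Om] Om, χ d ≠ 0 := by
  have hJ : IsJacobsonRing S := isJacobsonRing_of_finiteType (A := Om)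
  have h0 : (⊥ : Ideal S).jacobson = ⊥ :=
    IsJacobsonRing.out hJ (Ideal.IsPrime.isRadical Ideal.isPrime_bot)
  have h1 : d ∉ (⊥ : Ideal S).jacobson := by rw [h0]; simpa using hd
  rw [Ideal.jacobson, Ideal.mem_sInf] at h1
  push Not at h1
  obtain ⟨m, ⟨-, hm⟩, hdm⟩ := h1
  let := Ideal.Quotient.field m
  have hf : Module.Finite Om (S ⧸ m) := finite_of_finite_type_of_isJacobsonRing Om (S ⧸ m)
  let l : (S ⧸ m) →ₐ[Om] Om := IsAlgClosed.lift
  refine ⟨l.comp (Ideal.Quotient.mkₐ Om m), fun h => hdm ?_⟩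
  have h2 : l (Ideal.Quotient.mk m d) = 0 := h
  rw [map_eq_zero_iff l l.toRingHom.injective] at h2
  exact Ideal.Quotient.eq_zero_iff_mem.1 h2

variable {A0 A : Type} [CommRing A0] [CommRing A] [Algebra Om A0] [Algebra Om A]
  [Algebra.FiniteType Om A]

/-- distinct maps to a field specialise to distinct points -/
theorem exists_spec {L ι : Type} [Field L] [Algebra Om L] [Fintype ι] (ψ : ι → (A →ₐ[Om] L))
    (hψ : Injective ψ) : ∃ φ : ι → (A →ₐ[Om] Om), Injective φ ∧
      ∀ i j a b, ψ i a = ψ j b → φ i a = φ j b := by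
  classical
  obtain ⟨t, ht⟩ := (Algebra.FiniteType.out : (⊤ : Subalgebra Om A).FG)
  let S : Subalgebra Om L := Algebra.adjoin Om (⋃ i, ψ i '' (t : Set A))
  have hfin : (⋃ i, ψ i '' (t : Set A)).Finite :=
    Set.finite_iUnion fun i => t.finite_toSet.image _
  have hS : Algebra.FiniteType Om S := Algebra.FiniteType.adjoin_of_finite hfin
  have hm : ∀ i a, ψ i a ∈ S := fun i a => by
    have h1 : ψ i a ∈ (⊤ : Subalgebra Om A).map (ψ i) := ⟨a, trivial, rfl⟩
    rw [← ht, AlgHom.map_adjoin] at h1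
    exact Algebra.adjoin_mono (Set.subset_iUnion (fun i => ψ i '' (t : Set A)) i) h1
  have hne : ∀ i j : ι, ∃ a, i ≠ j → ψ i a ≠ ψ j a := fun i j => by
    by_cases h : i = j
    · exact ⟨0, fun h' => (h' h).elim⟩
    · have h1 : ψ i ≠ ψ j := fun e => h (hψ e)
      obtain ⟨a, ha⟩ := DFunLike.ne_iff.1 h1
      exact ⟨a, fun _ => ha⟩
  choose a ha using hne
  let ρ : ι → (A →ₐ[Om] S) := fun i => (ψ i).codRestrict S (hm i)
  let d : S := ∏ z ∈ Finset.univ.filter (fun z : ι × ι => z.1 ≠ z.2),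
    (ρ z.1 (a z.1 z.2) - ρ z.2 (a z.1 z.2))
  have hd : d ≠ 0 := Finset.prod_ne_zero_iff.2 fun z hz => by
    rw [sub_ne_zero]
    exact fun e => ha z.1 z.2 (Finset.mem_filter.1 hz).2 (congrArg Subtype.val e)
  obtain ⟨χ, hχ⟩ := exists_pt_ne (Om := Om) d hd
  refine ⟨fun i => χ.comp (ρ i), fun i j e => ?_, fun i j x y e => ?_⟩
  · by_contra hij
    rw [map_prod] at hχ
    have h2 := Finset.prod_ne_zero_iff.1 hχ (i, j) (Finset.mem_filter.2 ⟨Finset.mem_univ _, hij⟩)
    rw [map_sub, sub_ne_zero] at h2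
    exact h2 (DFunLike.congr_fun e (a i j))
  · exact congrArg χ (Subtype.ext e)

/-- at most `s` extensions to any field -/
theorem emb_le (io : A0 →ₐ[Om] A) (s : ℕ)
    (h : ∀ φ0 : A0 →ₐ[Om] Om, {φ : A →ₐ[Om] Om | φ.comp io = φ0}.encard ≤ s)
    {L : Type} [Field L] (g : A0 →+* L) :
    {ψ : A →+* L | ψ.comp io.toRingHom = g}.encard ≤ s := by
  classical
  by_contra hc
  have h1 : ((s + 1 : ℕ) : ℕ∞) ≤ {ψ : A →+* L | ψ.comp io.toRingHom = g}.encard := by
    push_cast
    exact Order.add_one_le_of_lt (not_le.1 hc)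
  obtain ⟨T, hT, hTc⟩ := Set.exists_subset_encard_eq h1
  have hTf : T.Finite := Set.finite_of_encard_eq_coe hTc
  let := hTf.fintype
  let : Algebra Om L := (g.comp (algebraMap Om A0)).toAlgebra
  have hg : ∀ (z : T) b, z.1 (io b) = g b := fun z b => DFunLike.congr_fun (hT z.2) b
  have hcm : ∀ (z : T) c, z.1 (algebraMap Om A c) = algebraMap Om L c := fun z c => by
    have := hg z (algebraMap Om A0 c)
    rw [io.commutes] at this
    exact this
  let ψ : T → (A →ₐ[Om] L) := fun z => ⟨z.1, hcm z⟩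
  have hψ : Injective ψ := fun z z' e => Subtype.ext (RingHom.ext fun x => DFunLike.congr_fun e x)
  obtain ⟨φ, hφ, hφ'⟩ := exists_spec ψ hψ
  have hne : T.Nonempty := Set.nonempty_of_encard_ne_zero (by rw [hTc]; exact_mod_cast s.succ_ne_zero)
  obtain ⟨z0, hz0⟩ := hne
  have h2 : range φ ⊆ {φ' : A →ₐ[Om] Om | φ'.comp io = (φ ⟨z0, hz0⟩).comp io} := by
    rintro _ ⟨z, rfl⟩
    exact AlgHom.ext fun b => hφ' _ _ _ _ ((hg z b).trans (hg ⟨z0, hz0⟩ b).symm)
  have h3 := (Set.encard_le_encard h2).trans (h _)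
  rw [← Set.image_univ, hφ.injOn.encard_image, Set.encard_univ, ← Set.encard, hTc] at h3
  exact absurd (Nat.cast_le.1 h3) (by omega)

section
variable [Algebra A0 A] [IsScalarTower Om A0 A] (K0 K : Type) [Field K0] [Field K]
  [Algebra A0 K0] [IsFractionRing A0 K0] [Algebra A K] [IsFractionRing A K] [Algebra K0 K]
  [Algebra A0 K] [IsScalarTower A0 A K] [IsScalarTower A0 K0 K]

theorem card_emb (s : ℕ) (h : ∀ φ0 : A0 →ₐ[Om] Om,
      {φ : A →ₐ[Om] Om | φ.comp (IsScalarTower.toAlgHom Om A0 A) = φ0}.encard ≤ s) :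
    Finite (Field.Emb K0 K) ∧ Nat.card (Field.Emb K0 K) ≤ s := by
  let f : Field.Emb K0 K → (A →+* AlgebraicClosure K) := fun e =>
    e.toRingHom.comp (algebraMap A K)
  have hf : Injective f := fun e e' h' => by
    have h1 : e.toRingHom = e'.toRingHom := IsLocalization.ringHom_ext (nonZeroDivisors A) h'
    exact AlgHom.ext fun x => DFunLike.congr_fun h1 x
  have h1 := emb_le (IsScalarTower.toAlgHom Om A0 A) s h
    ((algebraMap K0 (AlgebraicClosure K)).comp (algebraMap A0 K0))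
  have h2 : range f ⊆ {ψ : A →+* AlgebraicClosure K |
      ψ.comp (IsScalarTower.toAlgHom Om A0 A).toRingHom =
        (algebraMap K0 (AlgebraicClosure K)).comp (algebraMap A0 K0)} := by
    rintro _ ⟨e, rfl⟩
    refine RingHom.ext fun b => ?_
    change e (algebraMap A K (algebraMap A0 A b)) = _
    rw [← IsScalarTower.algebraMap_apply, IsScalarTower.algebraMap_apply A0 K0 K, e.commutes]
    rfl
  have h3 := (Set.encard_le_encard h2).trans h1
  rw [← Set.image_univ, hf.injOn.encard_image, Set.encard_univ] at h3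
  have h4 : Finite (Field.Emb K0 K) :=
    ENat.card_lt_top.1 (h3.trans_lt (ENat.natCast_lt_top s))
  refine ⟨h4, ?_⟩
  rw [ENat.card_eq_coe_natCard] at h3
  exact_mod_cast h3

/-- the extension of fraction fields is finite, of separable degree at most `s` -/
theorem fin_sep (s : ℕ) (h : ∀ φ0 : A0 →ₐ[Om] Om,
      {φ : A →ₐ[Om] Om | φ.comp (IsScalarTower.toAlgHom Om A0 A) = φ0}.encard ≤ s) :
    FiniteDimensional K0 K ∧ Field.finSepDegree K0 K ≤ s := by
  obtain ⟨h1, h2⟩ := card_emb K0 K s h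
  refine ⟨?_, h2⟩
  have ha : Algebra.IsAlgebraic K0 K := by
    by_contra hc
    rw [← Algebra.transcendental_iff_not_isAlgebraic] at hc
    exact not_finite (Field.Emb K0 K)
  have e1 : Algebra.FiniteType A0 A := Algebra.FiniteType.of_restrictScalars_finiteType Om A0 A
  have e2 : Algebra.EssFiniteType A K := Algebra.EssFiniteType.of_isLocalization K (nonZeroDivisors A)
  have e3 : Algebra.EssFiniteType A0 K := Algebra.EssFiniteType.comp A0 A K
  have e4 : Algebra.EssFiniteType K0 K := Algebra.EssFiniteType.of_comp A0 K0 K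
  exact Algebra.finite_of_essFiniteType_of_isAlgebraic

/-- the degree is a power of the characteristic times a number at most `s` -/
theorem deg (p : ℕ) [ExpChar Om p] (s : ℕ) (h : ∀ φ0 : A0 →ₐ[Om] Om,
      {φ : A →ₐ[Om] Om | φ.comp (IsScalarTower.toAlgHom Om A0 A) = φ0}.encard ≤ s) :
    FiniteDimensional K0 K ∧
      ∃ s1 e : ℕ, 1 ≤ s1 ∧ s1 ≤ s ∧ Module.finrank K0 K = s1 * p ^ e := by
  obtain ⟨h1, h2⟩ := fin_sep K0 K s h
  have hp : ExpChar K0 p :=
    expChar_of_injective_ringHom ((algebraMap A0 K0).comp (algebraMap Om A0)).injective p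
  obtain ⟨e, he⟩ := finInsepDegree_eq_pow K0 K p
  exact ⟨h1, _, e, Nat.one_le_iff_ne_zero.2 (NeZero.ne _), h2,
    by rw [← he, Field.finSepDegree_mul_finInsepDegree]⟩

end

theorem frob_inj [IsDomain A] (p : ℕ) [ExpChar Om p] (io : A0 →ₐ[Om] A) (hi : Injective io)
    (h : ∀ φ φ' : A →ₐ[Om] Om, φ.comp io = φ'.comp io → φ = φ') :
    ∃ e : ℕ, ∀ a : A, ∃ b c : A0, io c ≠ 0 ∧ io c * a ^ p ^ e = io b := by
  let : Algebra A0 A := io.toRingHom.toAlgebra
  have ht : IsScalarTower Om A0 A := IsScalarTower.of_algebraMap_eq fun c => (io.commutes c).symm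
  have hd : IsDomain A0 := hi.isDomain io.toRingHom
  have hf : FaithfulSMul A0 A := (faithfulSMul_iff_algebraMap_injective A0 A).2 hi
  let : Algebra (FractionRing A0) (FractionRing A) := FractionRing.liftAlgebra A0 (FractionRing A)
  have h1 : ∀ φ0 : A0 →ₐ[Om] Om,
      {φ : A →ₐ[Om] Om | φ.comp (IsScalarTower.toAlgHom Om A0 A) = φ0}.encard ≤ (1 : ℕ) :=
    fun φ0 => by
      rw [Nat.cast_one, Set.encard_le_one_iff]
      exact fun φ φ' e e' => h φ φ' (e.trans e'.symm)
  obtain ⟨h2, h3⟩ := fin_sep (FractionRing A0) (FractionRing A) 1 h1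
  have h4 : Field.finSepDegree (FractionRing A0) (FractionRing A) = 1 :=
    le_antisymm h3 (Nat.one_le_iff_ne_zero.2 (NeZero.ne _))
  have h5 := isPurelyInseparable_of_finSepDegree_eq_one h4
  have hp : ExpChar (FractionRing A0) p := expChar_of_injective_ringHom
    ((algebraMap A0 (FractionRing A0)).comp (algebraMap Om A0)).injective p
  refine ⟨IsPurelyInseparable.exponent (FractionRing A0) (FractionRing A), fun a => ?_⟩
  obtain ⟨z, hz⟩ := IsPurelyInseparable.exponent_def' (FractionRing A0) p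
    (algebraMap A (FractionRing A) a)
  obtain ⟨b, c, hc, rfl⟩ := IsFractionRing.div_surjective (A := A0) z
  have hc0 : c ≠ 0 := nonZeroDivisors.ne_zero hc
  have hc1 : io c ≠ 0 := fun e => hc0 (hi (e.trans (map_zero io).symm))
  refine ⟨b, c, hc1, IsFractionRing.injective A (FractionRing A) ?_⟩
  have hc2 : algebraMap A (FractionRing A) (io c) ≠ 0 :=
    fun e => hc1 (IsFractionRing.injective A (FractionRing A) (e.trans (map_zero _).symm))
  have e1 : ∀ x : A0, algebraMap (FractionRing A0) (FractionRing A)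
      (algebraMap A0 (FractionRing A0) x) = algebraMap A (FractionRing A) (io x) := fun x => by
    rw [← IsScalarTower.algebraMap_apply, IsScalarTower.algebraMap_apply A0 A (FractionRing A)]
    rfl
  rw [map_mul, map_pow, ← hz, map_div₀, e1, e1, mul_div_cancel₀ _ hc2]

/-- injective on points: a fixed power of Frobenius maps `A` into the fractions of `A0` -/
theorem frob [IsDomain A] (p : ℕ) [ExpChar Om p] (io : A0 →ₐ[Om] A)
    (h : ∀ φ φ' : A →ₐ[Om] Om, φ.comp io = φ'.comp io → φ = φ') :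
    ∃ e : ℕ, ∀ a : A, ∃ b c : A0, io c ≠ 0 ∧ io c * a ^ p ^ e = io b := by
  obtain ⟨e, he⟩ := frob_inj p io.range.val Subtype.val_injective fun φ φ' e =>
    h φ φ' (AlgHom.ext fun b => DFunLike.congr_fun e ⟨io b, b, rfl⟩)
  refine ⟨e, fun a => ?_⟩
  obtain ⟨⟨_, b, rfl⟩, ⟨_, c, rfl⟩, h1, h2⟩ := he a
  exact ⟨b, c, h1, h2⟩

end Pool.Agent.Tav.Sep
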