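import Pool.Agent.P.MP_2ce3e7_ag.Tav.TiCpl
import Pool.Agent.P.MP_2ce3e7_ag.Tav.TiSep

/-! Descent of regularity along a surjective regular map, up to a power of Frobenius. -/

set_option autoImplicit false

noncomputable section

namespace Pool.Agent.Tav

open MvPolynomial Module
open Function hiding eval

variable {Ω : Type} [Field Ω] {T Y : Type} {α β δ : Type} [Fintype α] [Fintype β] [Fintype δ]

namespace Cp

theorem pow_mem_pc {B : β → LS Ω T} {d : β → ℕ} {f : T → Ω} (hf : f ∈ pc B d) (n : ℕ) :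
    f ^ n ∈ pc B (n • d) := by
  induction n with
  | zero => simpa using one_mem_pc B
  | succ n ih =>
    rw [pow_succ, succ_nsmul]
    exact mul_mem_pc ih hf

theorem prod_mem_pc {I : Type} (s : Finset I) {B : β → LS Ω T} {d : I → β → ℕ} {f : I → T → Ω}
    (hf : ∀ i, f i ∈ pc B (d i)) : ∏ i ∈ s, f i ∈ pc B (∑ i ∈ s, d i) := by
  classical
  induction s using Finset.induction_on with
  | empty => simpa using one_mem_pc B
  | insert i s hi ih =>
    rw [Finset.prod_insert hi, Finset.sum_insert hi]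
    exact mul_mem_pc (hf i) ih

theorem reg_tw (V : LS Ω T) {fr : Ω ≃+* Ω} {Q : ℕ} (h : ∀ c, fr c = c ^ Q) :
    (V.tw fr).sp ≤ V.sp ^ Q := fun u hu => by
  have : u = (fun t => fr.symm (u t)) ^ Q := funext fun t => by
    rw [Pi.pow_apply, ← h, RingEquiv.apply_symm_apply]
  rw [this]
  exact Submodule.pow_mem_pow V.sp (x := fun t => fr.symm (u t)) hu _

variable {σ : Type} [Finite σ] [DecidableEq β] {w : σ → β} {x : σ → T → Ω} {B : β → LS Ω T}

theorem prod_co (h : ∀ i, blk Ω w x i = (B i).sp) (s : β → σ) (hs : ∀ i, w (s i) = i) :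
    ∏ i, x (s i) ∈ pc B fun _ => 1 :=
  (Sl.mem_pc h).2 ⟨_, prod_X_mem s hs, by simp⟩

theorem homog (h : ∀ i, blk Ω w x i = (B i).sp) (s : β → σ) (hs : ∀ i, w (s i) = i)
    (F : MvPolynomial σ Ω) : ∃ n : ℕ, ∃ g ∈ pc B (n • fun _ => 1), ∀ t, (∀ i, x (s i) t ≠ 0) →
      eval (fun v => x v t / x (s (w v)) t) F * (∏ i, x (s i)) t ^ n = g t := by
  have m := prod_co h s hs
  induction F using MvPolynomial.induction_on with
  | C c => exact ⟨0, c • 1, Submodule.smul_mem _ _ (by simpa using one_mem_pc B), by simp⟩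
  | add F G hF hG =>
    obtain ⟨n, f, hf, e⟩ := hF
    obtain ⟨k, g, hg, e'⟩ := hG
    refine ⟨n + k, f * (∏ i, x (s i)) ^ k + (∏ i, x (s i)) ^ n * g, ?_, fun t ht => ?_⟩
    · rw [add_nsmul]
      exact Submodule.add_mem _ (mul_mem_pc hf (pow_mem_pc m k)) (mul_mem_pc (pow_mem_pc m n) hg)
    · simp only [Pi.add_apply, Pi.mul_apply, Pi.pow_apply, ← e t ht, ← e' t ht, map_add]
      ring
  | mul_X F v hF =>
    obtain ⟨n, f, hf, e⟩ := hF
    refine ⟨n + 1, f * ∏ i, x (update s (w v) v i), ?_, fun t ht => ?_⟩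
    · rw [succ_nsmul]
      refine mul_mem_pc hf (prod_co h _ fun i => ?_)
      by_cases e : i = w v
      · rw [e, update_self]
      · rw [update_of_ne e, hs]
    · have e1 : (∏ i, x (update s (w v) v i)) t * x (s (w v)) t = x v t * (∏ i, x (s i)) t := by
        simp only [Finset.prod_apply]
        rw [← Finset.mul_prod_erase _ _ (Finset.mem_univ (w v)), update_self,
          ← Finset.mul_prod_erase _ (fun i => x (s i) t) (Finset.mem_univ (w v)),
          Finset.prod_congr rfl fun i hi => by rw [update_of_ne (Finset.ne_of_mem_erase hi)]]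
        ring
      rw [Pi.mul_apply, ← e t ht, map_mul, eval_X, eq_div_of_mul_eq (ht (w v)) e1]
      ring

theorem van (h : ∀ i, blk Ω w x i = (B i).sp) (hd : Dom B) (s : β → σ) (hs : ∀ i, w (s i) = i)
    {t₀ : T} (h0 : ∀ i, x (s i) t₀ ≠ 0) {d : β → ℕ} {f : T → Ω} (hf : f ∈ pc B d)
    (H : ∀ t, (∀ i, x (s i) t ≠ 0) → f t = 0) : f = 0 := by
  refine (hd _ _ f hf _ (prod_co h s hs) (funext fun t => ?_)).resolve_right fun e => ?_
  · by_cases ht : ∀ i, x (s i) t ≠ 0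
    · rw [Pi.mul_apply, H t ht, zero_mul, Pi.zero_apply]
    · obtain ⟨i, hi⟩ := not_forall.1 ht
      rw [Pi.mul_apply, Finset.prod_apply, Finset.prod_eq_zero (Finset.mem_univ i) (not_not.1 hi),
        mul_zero, Pi.zero_apply]
  · have := congrFun e t₀
    rw [Finset.prod_apply] at this
    exact Finset.prod_ne_zero_iff.2 (fun i _ => h0 i) this

/-- the chart where the coordinates `s i` do not vanish -/
def chart (w : σ → β) (x : σ → T → Ω) (s : β → σ) :
    MvPolynomial σ Ω →ₐ[Ω] ({t // ∀ i, x (s i) t ≠ 0} → Ω) :=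
  aeval fun v t => x v t.1 / x (s (w v)) t.1

omit [Finite σ] [DecidableEq β] [Fintype β] in
theorem chart_apply (s : β → σ) (F : MvPolynomial σ Ω) (t : {t // ∀ i, x (s i) t ≠ 0}) :
    chart w x s F t = eval (fun v => x v t.1 / x (s (w v)) t.1) F :=
  congrFun (aeval_fun (fun (t : {t // ∀ i, x (s i) t ≠ 0}) v => x v t.1 / x (s (w v)) t.1) F) t

theorem chart_dom (h : ∀ i, blk Ω w x i = (B i).sp) (hd : Dom B) (s : β → σ)
    (hs : ∀ i, w (s i) = i) {t₀ : T} (h0 : ∀ i, x (s i) t₀ ≠ 0) :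
    IsDomain (chart w x s).range := by
  have : Nonempty {t // ∀ i, x (s i) t ≠ 0} := ⟨⟨t₀, h0⟩⟩
  have key : ∀ {F : MvPolynomial σ Ω} {n : ℕ}, (∀ t, (∀ i, x (s i) t ≠ 0) →
      eval (fun v => x v t / x (s (w v)) t) F * (∏ i, x (s i)) t ^ n = 0) →
      chart w x s F = 0 := fun {F n} e => funext fun t => by
    rw [chart_apply]
    refine (mul_eq_zero.1 (e t.1 t.2)).resolve_right (pow_ne_zero _ ?_)
    rw [Finset.prod_apply]
    exact Finset.prod_ne_zero_iff.2 fun i _ => t.2 i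
  have : NoZeroDivisors (chart w x s).range := ⟨by
    rintro ⟨_, F, rfl⟩ ⟨_, G, rfl⟩ e
    obtain ⟨n, f, hf, e1⟩ := homog h s hs F
    obtain ⟨k, g, hg, e2⟩ := homog h s hs G
    have e3 : f * g = 0 := van h hd s hs h0 (mul_mem_pc hf hg) fun t ht => by
      have := congrFun (congrArg Subtype.val e) ⟨t, ht⟩
      change chart w x s F _ * chart w x s G _ = 0 at this
      rw [chart_apply, chart_apply] at this
      rw [Pi.mul_apply, ← e1 t ht, ← e2 t ht, mul_mul_mul_comm, this, zero_mul]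
    refine (hd _ _ f hf g hg e3).imp (fun e => Subtype.ext (key (n := n) ?_))
      fun e => Subtype.ext (key (n := k) ?_)
    · exact fun t ht => (e1 t ht).trans (congrFun e t)
    · exact fun t ht => (e2 t ht).trans (congrFun e t)⟩
  exact NoZeroDivisors.to_isDomain _

/-- the points of the chart ring are the points of the chart -/
theorem chart_pt [IsAlgClosed Ω] (h : ∀ i, blk Ω w x i = (B i).sp) (hc : Cmp B) (s : β → σ)
    (hs : ∀ i, w (s i) = i) (ψ : (chart w x s).range →ₐ[Ω] Ω) :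
    ∃ t : {t // ∀ i, x (s i) t ≠ 0}, ∀ a, ψ a = a.1 t := by
  let χ := ψ.comp (chart w x s).rangeRestrict
  have h1 : ∀ i, χ (X (s i)) = 1 := fun i => by
    rw [← map_one ψ]
    refine congrArg ψ (Subtype.ext (funext fun t => ?_))
    change chart w x s _ t = 1
    rw [chart_apply, eval_X, hs, div_self (t.2 i)]
  have h2 : ∀ F, eval (fun v => χ (X v)) F = χ F := fun F => by
    rw [← aeval_eq_eval]
    exact (AlgHom.congr_fun (aeval_unique χ) F).symm
  obtain ⟨t, c, e⟩ := (hc.cl_reg (Reg.self B) h).2 (fun v => χ (X v))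
    (fun i => ⟨s i, hs i, (h1 i).trans_ne one_ne_zero⟩) (kills.2 fun d F hF h0 => by
      rw [h2, ← map_zero ψ]
      refine congrArg ψ (Subtype.ext (funext fun t => ?_))
      change chart w x s _ t = 0
      have := congrFun (aeval_fun (fun t v => x v t) F) t.1
      simp only [chart_apply, div_eq_inv_mul]
      rw [eval_bpar hF fun i => (x (s i) t.1)⁻¹, ← this, h0, Pi.zero_apply, mul_zero])
  have h3 : ∀ i, c i * x (s i) t = 1 := fun i => by rw [← h1 i, e, hs]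
  refine ⟨⟨t, fun i => right_ne_zero_of_mul_eq_one (h3 i)⟩, ?_⟩
  rintro ⟨_, F, rfl⟩
  change χ F = chart w x s F _
  rw [← h2, chart_apply]
  refine congrArg (eval · F) (funext fun v => ?_)
  rw [e, eq_inv_of_mul_eq_one_left (h3 _), div_eq_inv_mul]

end Cp

variable [IsAlgClosed Ω] (p : ℕ) [ExpChar Ω p]

/-- a complete irreducible graph over a separated base is rational up to Frobenius -/
theorem regAt_frob [Nonempty Y] {B : β → LS Ω Y} {W : δ → LS Ω Y} (hc : Cmp (Sum.elim B W))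
    (hd : Dom (Sum.elim B W)) (hs : Qt.Sep B) : ∃ e, ∀ (Q : ℕ) (fr : Ω ≃+* Ω),
      (∀ c, fr c = c ^ Q) → p ^ e ∣ Q → ∃ y, ∀ k, Qt.RegAt B ((W k).tw fr) y := by
  classical
  obtain ⟨σ, _, w, x, hx⟩ := Sl.exists_co B
  obtain ⟨τ, _, v, z, hz⟩ := Sl.exists_co W
  have := Fintype.ofFinite τ
  have hE := Sl.blk_elim hx hz
  obtain ⟨y₀⟩ := ‹Nonempty Y›
  choose s h1 h2 using Sl.nz_of_blk hx y₀
  choose s' h3 h4 using Sl.nz_of_blk hz y₀
  have hS : ∀ i, Sum.map w v (Sum.map s s' i) = i := by rintro (i | i) <;> simp [h1, h3]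
  have h0 : ∀ i, Sum.elim x z (Sum.map s s' i) y₀ ≠ 0 := Sum.rec h2 h4
  let φ := Cp.chart (Sum.map w v) (Sum.elim x z) (Sum.map s s')
  have := Cp.chart_dom hE hd _ hS h0
  have : Algebra.FiniteType Ω φ.range := .of_surjective _ φ.rangeRestrict_surjective
  let io : MvPolynomial σ Ω →ₐ[Ω] φ.range := φ.rangeRestrict.comp (rename Sum.inl)
  have hio : ∀ F t, (io F).1 t = eval (fun u => x u t.1 / x (s (w u)) t.1) F := fun F t => by
    change φ (rename Sum.inl F) t = _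
    rw [Cp.chart_apply, eval_rename]
    rfl
  obtain ⟨e, he⟩ := Sep.frob p io fun ψ ψ' H => by
    obtain ⟨t, ht⟩ := Cp.chart_pt hE hc _ hS ψ
    obtain ⟨t', ht'⟩ := Cp.chart_pt hE hc _ hS ψ'
    obtain rfl : t = t' := Subtype.ext (hs.eq_of hx (c := fun i => x (s i) t.1 / x (s i) t'.1)
      fun u => by
        have : ψ (io (X u)) = ψ' (io (X u)) := AlgHom.congr_fun H (X u)
        rw [ht, ht', hio, hio, eval_X, eval_X,
          div_eq_iff (show x (s (w u)) t.1 ≠ 0 from t.2 (Sum.inl _))] at this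
        rw [this]
        ring)
    exact AlgHom.ext fun a => (ht a).trans (ht' a).symm
  have hB : Dom B := hd.of_reg fun i => Reg.self (Sum.elim B W) (Sum.inl i)
  have mz : ∀ u, z u ∈ (W (v u)).sp := fun u => hz _ ▸ Submodule.subset_span ⟨u, rfl, rfl⟩
  have key : ∀ u : τ, ∃ d, ∃ f ∈ pc B d, f ≠ 0 ∧ ∃ g ∈ pc B d,
      f * z u ^ p ^ e = z (s' (v u)) ^ p ^ e * g := fun u => by
    obtain ⟨b, c, c0, hb⟩ := he (φ.rangeRestrict (X (Sum.inr u)))
    obtain ⟨n, f, hf, e1⟩ := Cp.homog hx s h1 c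
    obtain ⟨k, g, hg, e2⟩ := Cp.homog hx s h1 b
    have m := Cp.prod_co hx s h1
    have m1 := mul_mem_pc hf (Cp.pow_mem_pc m k)
    have m2 := mul_mem_pc (Cp.pow_mem_pc m n) hg
    have m3 : ∀ u', v u' = v u → z u' ^ p ^ e ∈ pc W (Pi.single (v u) (p ^ e)) := fun u' h => by
      rw [pc_single, ← h]
      exact Submodule.pow_mem_pow _ (mz u') _
    refine ⟨_, _, m1, fun f0 => c0 (Subtype.ext (funext fun t => ?_)), _, m2, ?_⟩
    · have := congrFun f0 t.1
      have h5 : (∏ i, x (s i)) t.1 ≠ 0 := by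
        rw [Finset.prod_apply]
        exact Finset.prod_ne_zero_iff.2 fun i _ => t.2 (Sum.inl i)
      rw [Pi.mul_apply, ← e1 t.1 fun i => t.2 (Sum.inl i), Pi.pow_apply] at this
      exact (hio c t).trans ((mul_eq_zero.1 ((mul_eq_zero.1 this).resolve_right
        (pow_ne_zero _ h5))).resolve_right (pow_ne_zero _ h5))
    · rw [mul_comm _ (_ * g)]
      refine sub_eq_zero.1 (Cp.van hE hd _ hS h0 (Submodule.sub_mem _
        (Qt.mem_elim_mul m1 (m3 u rfl)) (Qt.mem_elim_mul m2 (m3 _ (h3 _)))) fun t ht => ?_)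
      have := congrFun (congrArg Subtype.val hb) ⟨t, ht⟩
      change (io c).1 _ * φ _ _ ^ p ^ e = (io b).1 _ at this
      rw [hio, hio, Cp.chart_apply, eval_X] at this
      change _ * (z u t / z (s' (v u)) t) ^ p ^ e = _ at this
      rw [div_pow, ← mul_div_assoc,
        div_eq_iff (pow_ne_zero _ (show z (s' (v u)) t ≠ 0 from ht (Sum.inr _)))] at this
      simp only [Pi.sub_apply, Pi.mul_apply, Pi.pow_apply, ← e1 t fun i => ht (Sum.inl i),
        ← e2 t fun i => ht (Sum.inl i)]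
      linear_combination ((∏ i, x (s i)) t ^ n * (∏ i, x (s i)) t ^ k) * this
  choose d f hf f0 g hg hfg using key
  refine ⟨e, ?_⟩
  rintro _ fr hfr ⟨r, rfl⟩
  obtain ⟨y, hy⟩ := Qt.exists_common hB hf f0
  have tw : ∀ u, (fun t => fr (z u t)) = z u ^ (p ^ e * r) := fun u => funext fun t => hfr _
  refine ⟨y, fun k => Qt.regAt_of_rat (e := ∑ u, r • d u) (f := ∏ u, f u ^ r)
    (l := z (s' k) ^ (p ^ e * r)) (hd.of_reg ?_) ?_ (fun h => pow_ne_zero _ (h4 k) (congrFun h y₀))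
    (fun a ha => ?_) ?_⟩
  · rintro (i | i)
    · exact Reg.self (Sum.elim B W) (Sum.inl i)
    · refine Reg.of_le (e := Pi.single (Sum.inr k) (p ^ e * r)) ?_
      rw [pc_single]
      exact Cp.reg_tw _ hfr
  · rw [← tw, tw_sp, mem_twS]
    simpa [h3] using mz (s' k)
  · rw [tw_sp, ← hz, blk, twS_span] at ha
    induction ha using Submodule.span_induction with
    | mem a ha =>
      obtain ⟨_, ⟨u, rfl, rfl⟩, rfl⟩ := ha
      refine ⟨g u ^ r * ∏ u' ∈ Finset.univ.erase u, f u' ^ r, ?_, ?_⟩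
      · rw [← Finset.add_sum_erase _ _ (Finset.mem_univ u)]
        exact mul_mem_pc (Cp.pow_mem_pc (hg u) r)
          (Cp.prod_mem_pc _ fun u' => Cp.pow_mem_pc (hf u') r)
      · beta_reduce
        rw [tw, ← Finset.mul_prod_erase _ _ (Finset.mem_univ u), pow_mul, pow_mul,
          mul_right_comm, ← mul_pow, hfg, mul_pow, mul_assoc]
    | zero => exact ⟨0, Submodule.zero_mem _, by simp⟩
    | add a b _ _ ha hb =>
      obtain ⟨a', h5, h6⟩ := ha
      obtain ⟨b', h7, h8⟩ := hb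
      exact ⟨a' + b', Submodule.add_mem _ h5 h7, by rw [mul_add, mul_add, h6, h8]⟩
    | smul c a _ ha =>
      obtain ⟨a', h5, h6⟩ := ha
      exact ⟨c • a', Submodule.smul_mem _ _ h5, by rw [mul_smul_comm, mul_smul_comm, h6]⟩
  · rw [Finset.prod_apply]
    exact Finset.prod_ne_zero_iff.2 fun u _ => pow_ne_zero _ (hy u)

omit [IsAlgClosed Ω] [Fintype β] in
theorem RegM.res {A : α → LS Ω T} {B : β → LS Ω Y} {j : T → Y} (hj : RegM A B j) (U : Set T) :
    RegM (K0.res A U) B fun t : U => j t := fun k => by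
  have := (hj k).pb (Subtype.val : U → T)
  rwa [LS.pb_pb] at this

omit [ExpChar Ω p] in
/-- a complete source onto an irreducible separated target has a complete irreducible part
that is still onto -/
theorem Cmp.part [Nonempty Y] {A : α → LS Ω T} {B : β → LS Ω Y} (hA : Cmp A) {j : T → Y}
    (ho : Surjective j) (hj : RegM A B j) (hB : Dom B) (hs : Qt.Sep B) :
    ∃ U : Set T, Cmp (K0.res A U) ∧ Dom (K0.res A U) ∧ Surjective fun t : U => j t := by
  classical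
  obtain ⟨C, h1, h2⟩ := K0.exists_cover A Set.univ
  have hI : K0.Irr B Set.univ := ⟨Set.univ_nonempty, fun a b f hf g hg h =>
    (hB a b f hf g hg (funext fun t => h t trivial)).imp (fun e t _ => congrFun e t)
      fun e t _ => congrFun e t⟩
  obtain ⟨_, h3, h4⟩ := hI.sub_cover (C.image (j '' ·)) fun y _ => by
    obtain ⟨t, rfl⟩ := ho y
    obtain ⟨Z, hZ, ht⟩ := h2 t trivial
    exact ⟨_, Finset.mem_image_of_mem _ hZ, t, ht, rfl⟩
  obtain ⟨Z, hZ, rfl⟩ := Finset.mem_image.1 h3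
  have h5 := hA.res (K0.cl_sub (Z := Z) le_rfl)
  refine ⟨K0.cl A Z, h5, (K0.irr_iff.1 ((h1 Z hZ).2.between (K0.sub_cl A Z) le_rfl)).2,
    h5.surj (hj.res _) (fun e f hf h0 => funext fun y => ?_) hs⟩
  refine h4 (Set.mem_univ y) e f hf ?_
  rintro _ ⟨t, ht, rfl⟩
  exact congrFun h0 ⟨t, K0.sub_cl A Z ht⟩

variable {G Z : Type} [AddCommGroup G] [AddCommGroup Z] {A : α → LS Ω T} {B : β → LS Ω G}
  {D : δ → LS Ω Z}

omit [IsAlgClosed Ω] [ExpChar Ω p] in
theorem Qt.Tr.tw (h : Qt.Tr D) (fr : Ω ≃+* Ω) : Qt.Tr fun k => (D k).tw fr := fun a k => by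
  rw [← LS.tw_pb]
  exact (h a k).tw fr

/-- REG -/
theorem reg_frob (hA : Cmp A) {j : T → G} (ho : Surjective j) (hj : RegM A B j) (u : G →+ Z)
    (hu : RegM A D (u ∘ j)) (hB : Dom B) (hs : Qt.Sep B) (tB : Qt.Tr B) (tD : Qt.Tr D) :
    ∃ e, ∀ (Q : ℕ) (fr : Ω ≃+* Ω), (∀ c, fr c = c ^ Q) → p ^ e ∣ Q →
      RegM B (fun k => (D k).tw fr) u := by
  obtain ⟨U, h1, h2, h3⟩ := hA.part ho hj hB hs
  have h4 : RegM (K0.res A U) (Sum.elim B fun k => (D k).pb u) fun t : U => j t :=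
    Sum.rec (hj.res U) fun k => by
      rw [Sum.elim_inr, LS.pb_pb]
      exact hu.res U k
  have h5 := Dense.of_surj h3 (Sum.elim B fun k => (D k).pb u)
  obtain ⟨e, he⟩ := regAt_frob p (h1.of_dense h4 h5) (fun a b f hf g hg h =>
    (h2.of_reg h4 a b _ (pb_mem_pc _ hf) _ (pb_mem_pc _ hg) (by rw [← map_mul, h, map_zero])).imp
      (h5 a f hf) (h5 b g hg)) hs
  refine ⟨e, fun Q fr h6 h7 => ?_⟩
  obtain ⟨y, hy⟩ := he Q fr h6 h7
  exact Qt.regM_of_regAt tB (tD.tw fr) u (s := y) fun k => LS.tw_pb fr u (D k) ▸ hy k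

omit [IsAlgClosed Ω] in
theorem Cp.sim_tw {V V' : LS Ω T} (h : V.Sim V') (a : Ω ≃+* Ω) : (V.tw a).Sim (V'.tw a) := by
  obtain ⟨l, h1, h2⟩ := h
  refine ⟨fun t => a (l t), fun t => (map_ne_zero a).2 (h1 t), ?_⟩
  rw [tw_sp, tw_sp, h2, map_mulLeft_eq, map_mulLeft_eq, twS_mul, twS_span, Set.image_singleton]

omit [IsAlgClosed Ω] [Fintype δ] in
theorem Cp.sim_iter {D : δ → LS Ω Y} {F : Y → Y} {fr : Ω ≃+* Ω} {q : ℕ} (h : ∀ c, fr c = c ^ q)
    (hF : ∀ k, ((D k).tw fr).Sim ((D k).pb F)) (e : ℕ) : ∃ a : Ω ≃+* Ω,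
      (∀ c, a c = c ^ q ^ e) ∧ ∀ k, ((D k).tw a).Sim ((D k).pb F^[e]) := by
  induction e with
  | zero => exact ⟨.refl Ω, by simp, fun k => by
      rw [iterate_zero, LS.pb_id]
      exact LS.Sim.refl _⟩
  | succ e ih =>
    obtain ⟨a, h1, h2⟩ := ih
    refine ⟨a.trans fr, fun c => by rw [RingEquiv.trans_apply, h, h1, ← pow_mul, pow_succ],
      fun k => ?_⟩
    have h3 := Cp.sim_tw (h2 k) fr
    rw [LS.tw_pb] at h3
    have h4 := h3.trans ((hF k).pb F^[e])
    rw [LS.pb_pb, ← iterate_succ'] at h4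
    exact h4

/-- REG, with a Frobenius map `F` on the target -/
theorem reg_iter (hA : Cmp A) {j : T → G} (ho : Surjective j) (hj : RegM A B j) (u : G →+ Z)
    (hu : RegM A D (u ∘ j)) (hB : Dom B) (hs : Qt.Sep B) (tB : Qt.Tr B) (tD : Qt.Tr D)
    {F : Z → Z} {fr : Ω ≃+* Ω} {q : ℕ} (h : ∀ c, fr c = c ^ q) (q0 : q ≠ 0) (hq : (q : Ω) = 0)
    (hF : ∀ k, ((D k).tw fr).Sim ((D k).pb F)) :
    ∃ e₀, ∀ e, e₀ ≤ e → RegM B D (F^[e] ∘ u) := by
  obtain ⟨p, hp⟩ := ExpChar.exists Ω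
  have h1 : p ∣ q := by
    cases hp with
    | zero => exact absurd (Nat.cast_eq_zero.1 hq) q0
    | prime _ => exact (CharP.cast_eq_zero_iff Ω p q).1 hq
  obtain ⟨e₀, he⟩ := reg_frob p hA ho hj u hu hB hs tB tD
  refine ⟨e₀, fun e h2 k => ?_⟩
  obtain ⟨a, h3, h4⟩ := Cp.sim_iter h hF e
  have := (he _ a h3 ((pow_dvd_pow p h2).trans (pow_dvd_pow_of_dvd h1 e)) k).sim ((h4 k).pb u)
  rwa [LS.pb_pb] at this

/-- DIV: a regular homomorphism that kills the kernel of a regular surjection `n` factors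
through `n`, and the factor is regular up to Frobenius -/
theorem div_iter {G' : Type} [AddCommGroup G'] {A : α → LS Ω G'} (hA : Cmp A) (n : G' →+ G)
    (ho : Surjective n) (hn : RegM A B n) (a : G' →+ Z) (ha : RegM A D a)
    (hk : ∀ x, n x = 0 → a x = 0) (hB : Dom B) (hs : Qt.Sep B) (tB : Qt.Tr B) (tD : Qt.Tr D)
    {F : Z → Z} {fr : Ω ≃+* Ω} {q : ℕ} (h : ∀ c, fr c = c ^ q) (q0 : q ≠ 0) (hq : (q : Ω) = 0)
    (hF : ∀ k, ((D k).tw fr).Sim ((D k).pb F)) :
    ∃ u : G →+ Z, (∀ x, u (n x) = a x) ∧ ∃ e₀, ∀ e, e₀ ≤ e → RegM B D (F^[e] ∘ u) := by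
  obtain ⟨u, hu⟩ := Qt.exists_fac n ho a hk
  exact ⟨u, hu, reg_iter hA ho hn u ((funext hu : u ∘ n = a) ▸ ha) hB hs tB tD h q0 hq hF⟩

/-- REG for a closed relation `Γ` that lies in the graph of `u x = b y` -/
theorem reg_rel {γ : Type} [Fintype γ] {C : γ → LS Ω Y} (cB : Cmp B) (cC : Cmp C)
    {Γ : Set (G × Y)} (hΓ : K0.cl (prodB B C) Γ ⊆ Γ) (ho : ∀ x, ∃ y, (x, y) ∈ Γ) (u : G →+ Z)
    {b : Y → Z} (hb : RegM C D b) (hu : ∀ t ∈ Γ, u t.1 = b t.2) (hB : Dom B) (hs : Qt.Sep B)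
    (tB : Qt.Tr B) (tD : Qt.Tr D) {F : Z → Z} {fr : Ω ≃+* Ω} {q : ℕ} (h : ∀ c, fr c = c ^ q)
    (q0 : q ≠ 0) (hq : (q : Ω) = 0) (hF : ∀ k, ((D k).tw fr).Sim ((D k).pb F)) :
    ∃ e₀, ∀ e, e₀ ≤ e → RegM B D (F^[e] ∘ u) := by
  refine reg_iter ((cB.prod cC).res hΓ) (j := fun t => t.1.1)
    (fun x => (ho x).elim fun y hy => ⟨⟨(x, y), hy⟩, rfl⟩)
    (RegM.res (j := Prod.fst) (fun k => (Reg.self B k).fst C) Γ) u ?_ hB hs tB tD h q0 hq hF
  have : RegM (prodB B C) D (b ∘ Prod.snd) := fun k => by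
    rw [← LS.pb_pb]
    exact (hb k).snd B
  rw [show (u ∘ fun t : Γ => t.1.1) = fun t : Γ => (b ∘ Prod.snd) t.1 from
    funext fun t => hu t.1 t.2]
  exact this.res Γ

end Pool.Agent.Tav
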