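import Pool.Agent.P.MP_2ce3e7_ag.Tav.TiDefs
import Pool.Agent.P.MP_2ce3e7_ag.Tav.TiBound
import Pool.Agent.P.MP_2ce3e7_ag.Tav.TiPigU
import Pool.Agent.P.MP_2ce3e7_ag.Tav.TiReg

/-! Infinitely many quotients of bounded degree give similitudes with prescribed kernels. -/

set_option autoImplicit false

noncomputable section

namespace Pool.Agent.Tav

open MvPolynomial Module Function

variable {Ω : Type} [Field Ω] [IsAlgClosed Ω] {T γ : Type} [Fintype γ] {G G₁ G₂ : Type}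
  [AddCommGroup G] [AddCommGroup G₁] [AddCommGroup G₂] {fr : Ω ≃+* Ω} {Q : ℕ}

namespace Ab

omit [IsAlgClosed Ω] in
theorem qsep (Y : Ab Ω G) : Qt.Sep Y.B := by
  obtain ⟨m, p, hp, e⟩ := Y.H.exists_co
  have := Qt.sep_co hp fun y y' h => Y.sep y y' (by rw [e]; exact (Ti.par_iff hp y y').1 h)
  rwa [← e] at this

/-- BOUND, PIG, REG, SIM -/
theorem sims (S : Ab Ω G₁) (Y : Ab Ω G) (hq : IsQ fr Q) {F : G →+ G} (h : Y.Fr fr F) {a : ℕ}
    (ha : a ≠ 0) (N : ℕ → ℕ) (hN : ∀ j, N j ≠ 0) (R : ℕ → LS Ω G) (K K' : ℕ → AddSubgroup G)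
    (hK : ∀ j, K j ≤ K' j) (hQ : ∀ j, Y.Quo fr F (a * N j) (R j) (K' j))
    (hc : ∀ j, N j ^ Y.n ≤ Nat.card (K j)) :
    ∃ (r : ℕ) (J : Set ℕ) (u : ℕ → G →+ G), r ≠ 0 ∧ J.Infinite ∧ ∀ j ∈ J, S.Sml Y (u j) ∧
      (∀ y, u j (F y) = F (u j y)) ∧ (∀ k ∈ K j, u j k = 0) ∧
      ∀ y, u j y = 0 → r • y ∈ K j := by
  have h1 : 1 < Q := hq.1.1
  have hH : Reg Y.B Y.H := Reg.self Y.B ()
  obtain ⟨s, c, D, hD, hb⟩ := Ti.bound fr h1 hq.2 Y.src Y.sub (fun x y h => Y.sep x y (h ())) hH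
    Y.top F h.1.2 ha
  choose fin hDK p hp e hF src top le frob using fun j => hb (N j) (R j) 1 (K j) (K' j) (hN j)
    (hQ j).reg (hQ j).eqv (by rw [(hQ j).fr]; exact LS.Sim.refl _) (hK j)
    (fun z hz x => ((hQ j).fib x (x + z)).2 (by simpa using hz)) (hc j)
  obtain ⟨J, hJ, hz⟩ := Fn.pig fr h1 hq.2 Prod.fst (fun j => Fn.trx (p j))
    (fun j => Fn.trx_ne (hp j)) (Fin Y.n ⊕ Fin Y.n) c src top le frob
  obtain ⟨i, hi⟩ := hJ.nonempty
  have hM : ∀ k ∈ K' i, Nat.card (K' i) • k = 0 := fun k hk =>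
    congrArg Subtype.val (card_nsmul_eq_zero' (x := (⟨k, hk⟩ : K' i)))
  have M0 : Nat.card (K' i) ≠ 0 := by have := fin i; exact Nat.card_pos.ne'
  have hpar : ∀ j x y, Par (p j x) (p j y) ↔ y - x ∈ K' j := fun j x y =>
    (Ti.par_iff (hp j) x y).trans (by rw [e]; exact (hQ j).fib x y)
  have rp : ∀ j, Reg Y.B (LS.co (p j) (hp j)) := fun j => by rw [e]; exact (hQ j).reg
  have ep : ∀ j, Eqv Y.B 1 (LS.co (p j) (hp j)) (Y.H ^ (a * N j)) := fun j => by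
    rw [e]; exact (hQ j).eqv
  have key : ∀ j, ∃ u : G →+ G, j ∈ J → S.Sml Y u ∧ (∀ y, u (F y) = F (u y)) ∧
      (∀ k ∈ K j, u k = 0) ∧ ∀ y, u y = 0 → (D * Nat.card (K' i)) • y ∈ K j := fun j => by
    by_cases hj : j ∈ J
    swap
    · exact ⟨0, fun h => (hj h).elim⟩
    obtain ⟨u, u1, u2, u3, u4, T, A, ι, hA, ho, r1, r2⟩ := Ti.maps Y.cmp Y.sub (rp j) (rp i)
      (hpar j) (hpar i) (hz j hj i hi) hM
    obtain ⟨m, hm⟩ := reg_iter hA ho r1 u r2 Y.src.dom Y.qsep (Qt.tr_of_sub Y.sub)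
      (Qt.tr_of_sub Y.sub) (F := F) hq.2 (by omega) hq.1.2.1
      fun _ => by rw [h.2]; exact LS.Sim.refl _
    have ru := hm m le_rfl
    let v : G →+ G := AddMonoidHom.mk' (F^[m] ∘ u) fun x y => by
      simp only [comp_apply, map_add, iterate_map_add]
    have hF0 : F^[m] 0 = 0 := iterate_map_zero F m
    refine ⟨v, fun _ => ⟨⟨ru, (a * N j * Q ^ m * Nat.card (K' i) ^ 2 : ℕ) / (a * N i : ℕ), ?_,
      fun b hb => ?_⟩, fun y => ?_, fun k hk => ?_, fun y hy => ?_⟩⟩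
    · have := hN j
      have := hN i
      exact div_pos (Nat.cast_pos.2 (by positivity)) (Nat.cast_pos.2 (by positivity))
    · have hn : S.n ≤ Fintype.card (Option (Fin (S.n - 1))) := by simp; omega
      have := Ti.sim0 (W := fun _ : Option (Fin (S.n - 1)) => S.H) Y.sub hH (rp j) (rp i) (ep j)
        (ep i) (fun x => Ti.par_trans (Ti.par_iter (hF i) m _) (Ti.par_pow (u1 x) _)) ru S.src
        (fun _ => Reg.self S.B ()) hn none (fun x y hx hy => Y.parL.mix S.src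
          (fun _ => Reg.self S.B ()) hn none (hx.pull hH) (hy.pull hH)
          ((Ti.reg_add' Y.sub hx hy).pull hH) ((Ti.reg_sub' Y.sub hx hy).pull hH)) hb
      rw [div_mul_eq_mul_div, eq_div_iff (Nat.cast_ne_zero.2 (mul_ne_zero ha (hN i))), mul_comm]
      exact this
    · change F^[m] (u (F y)) = F (F^[m] (u y))
      rw [u4 F Q (hF j) (hF i), ← iterate_succ_apply, iterate_succ_apply']
    · change F^[m] (u k) = 0
      rw [u2 k (hK j hk), hF0]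
    · rw [mul_smul]
      exact hDK j _ (u3 y (h.1.1.iterate m (hy.trans hF0.symm)))
  choose u hu using key
  exact ⟨_, J, u, mul_ne_zero hD M0, hJ, hu⟩

end Ab

end Pool.Agent.Tav
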