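import Pool.Agent.P.MP_2ce3e7_ag.Tav.TiTModB

/-! Large isotropic subgroups attached to a linear map, and what commutes with them. -/

set_option autoImplicit false

noncomputable section

namespace Pool.Agent.Tav.Ti

open Function

section Iso

variable {Ω : Type} [Field Ω]

theorem card_chars (W : Type) [AddCommGroup W] [Finite W] :
    Finite (W →+ Additive Ωˣ) ∧ Nat.card (W →+ Additive Ωˣ) ≤ Nat.card W := by
  let j : (W →+ Additive Ωˣ) → (Multiplicative W →* Ω) := fun f =>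
    (Units.coeHom Ω).comp (AddMonoidHom.toMultiplicativeLeft f)
  have hj : Injective j := fun f g h => by
    ext1 x
    exact Additive.toMul.injective (Units.ext (DFunLike.congr_fun h (Multiplicative.ofAdd x)))
  have h1 := (linearIndependent_monoidHom (Multiplicative W) Ω).comp j hj
  have : Finite (W →+ Additive Ωˣ) := h1.finite
  refine ⟨this, ?_⟩
  have := Fintype.ofFinite (W →+ Additive Ωˣ)
  have := Fintype.ofFinite W
  have h2 := h1.fintype_card_le_finrank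
  rw [Module.finrank_fintype_fun_eq_card, Fintype.card_multiplicative] at h2
  rwa [Nat.card_eq_fintype_card, Nat.card_eq_fintype_card]

theorem eq_zero_of_two {P : Type} [AddCommGroup P] {N : ℕ} (hN : Odd N) {x : P} (h : N • x = 0)
    (h2 : x + x = 0) : x = 0 := by
  obtain ⟨k, rfl⟩ := hN
  rwa [add_smul, one_smul, mul_comm, mul_smul, two_smul, h2, smul_zero, zero_add] at h

theorem ii_smul {P : Type} [AddCommGroup P] {N : ℕ} {i : ℤ} (hi : (N : ℤ) ∣ i ^ 2 + 1) {x : P}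
    (h : N • x = 0) : i • i • x = -x := by
  obtain ⟨k, hk⟩ := hi
  have : (i ^ 2 + 1) • x = 0 := by rw [hk, mul_comm, mul_smul, natCast_zsmul, h, smul_zero]
  rw [add_smul, one_smul, pow_two, mul_smul] at this
  exact eq_neg_of_add_eq_zero_left this

theorem iso_core {P : Type} [AddCommGroup P] [Finite P] {N : ℕ} (hN : Odd N)
    (hP : ∀ x : P, N • x = 0) {i : ℤ} (hi : (N : ℤ) ∣ i ^ 2 + 1) (E : P →+ P →+ Additive Ωˣ)
    (halt : ∀ a, E a a = 0) (F : P →+ P) (hF : Injective F) (q : ℕ)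
    (hEF : ∀ a b, E (F a) (F b) = q • E a b) (W : AddSubgroup P) (hW : ∀ x ∈ W, F x ∈ W) :
    ∃ K : AddSubgroup (P × P), (∀ k ∈ K, ∀ k' ∈ K, E k.1 k'.1 + E k.2 k'.2 = 0) ∧
      (∀ k ∈ K, (F k.1, F k.2) ∈ K) ∧ Nat.card P ≤ Nat.card K ∧
      ∀ x, (x, i • x) ∈ K ↔ x ∈ W := by
  have hsk : ∀ a b, E a b + E b a = 0 := fun a b => by
    have := halt (a + b)
    simp only [map_add, AddMonoidHom.add_apply, halt, zero_add, add_zero] at this
    rwa [add_comm] at this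
  have hi0 : ∀ x : P, i • x = 0 → x = 0 := fun x h => by
    have := ii_smul hi (hP x)
    rw [h, smul_zero] at this
    exact neg_eq_zero.1 this.symm
  let ψ : P →+ (W →+ Additive Ωˣ) := (E.comp W.subtype).flip
  have hψ : ∀ y, y ∈ ψ.ker ↔ ∀ x ∈ W, E x y = 0 := fun y =>
    ⟨fun h x hx => DFunLike.congr_fun (AddMonoidHom.mem_ker.1 h) ⟨x, hx⟩,
      fun h => AddMonoidHom.mem_ker.2 (AddMonoidHom.ext fun x => h x.1 x.2)⟩
  let θ : W × ψ.ker →+ P × P := AddMonoidHom.mk'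
    (fun z => ((z.1 : P) + z.2, i • (z.1 : P) - i • (z.2 : P))) fun z z' => by
      ext
      · simp only [Prod.fst_add, Prod.snd_add, AddSubgroup.coe_add]
        abel
      · simp only [Prod.fst_add, Prod.snd_add, AddSubgroup.coe_add, smul_add]
        abel
  have hθ : ∀ k, k ∈ θ.range ↔
      ∃ x ∈ W, ∃ y, (∀ x ∈ W, E x y = 0) ∧ k = (x + y, i • x - i • y) := fun k =>
    ⟨by rintro ⟨z, rfl⟩; exact ⟨z.1, z.1.2, z.2, (hψ _).1 z.2.2, rfl⟩,
      by rintro ⟨x, hx, y, hy, rfl⟩; exact ⟨(⟨x, hx⟩, ⟨y, (hψ _).2 hy⟩), rfl⟩⟩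
  refine ⟨θ.range, ?_, ?_, ?_, fun x => ⟨?_, ?_⟩⟩
  · intro k hk k' hk'
    obtain ⟨x, hx, y, hy, rfl⟩ := (hθ k).1 hk
    obtain ⟨x', hx', y', hy', rfl⟩ := (hθ k').1 hk'
    have h1 : E y x' = 0 := by
      have := hsk x' y
      rwa [hy x' hx', zero_add] at this
    have h2 : E (i • x - i • y) (i • x' - i • y') = -E (x - y) (x' - y') := by
      rw [← smul_sub, ← smul_sub, map_zsmul E, AddMonoidHom.zsmul_apply, ← map_zsmul,
        ii_smul hi (hP _), map_neg]
    change E (x + y) (x' + y') + E (i • x - i • y) (i • x' - i • y') = 0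
    rw [h2]
    simp only [map_add, map_sub, AddMonoidHom.add_apply, AddMonoidHom.sub_apply, h1, hy' x hx]
    abel
  · intro k hk
    obtain ⟨x, hx, y, hy, rfl⟩ := (hθ k).1 hk
    refine (hθ _).2 ⟨F x, hW x hx, F y, fun w hw => ?_, by simp⟩
    have h1 : Injective fun w : W => (⟨F w, hW _ w.2⟩ : W) := fun a b h =>
      Subtype.ext (hF (congrArg Subtype.val h))
    obtain ⟨w0, h0⟩ := Finite.surjective_of_injective h1 ⟨w, hw⟩
    rw [← show F w0 = w from congrArg Subtype.val h0, hEF, hy _ w0.2, smul_zero]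
  · have h1 : Injective θ := by
      rw [injective_iff_map_eq_zero]
      intro z hz
      have h2 : (z.1 : P) + z.2 = 0 := congrArg Prod.fst hz
      have h3 : i • (z.1 : P) - i • (z.2 : P) = 0 := congrArg Prod.snd hz
      rw [← smul_sub] at h3
      have h4 := sub_eq_zero.1 (hi0 _ h3)
      rw [h4] at h2
      have h5 := eq_zero_of_two hN (hP _) h2
      exact Prod.ext (Subtype.ext (h4.trans h5)) (Subtype.ext h5)
    obtain ⟨h2, h3⟩ := card_chars (Ω := Ω) W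
    rw [← Nat.card_congr (AddMonoidHom.ofInjective h1).toEquiv, Nat.card_prod,
      AddSubgroup.card_eq_card_quotient_mul_card_addSubgroup ψ.ker,
      Nat.card_congr (QuotientAddGroup.quotientKerEquivRange ψ).toEquiv]
    exact Nat.mul_le_mul_right _ ((AddSubgroup.card_le_card_addGroup _).trans h3)
  · intro h
    obtain ⟨x', hx', y, -, h1⟩ := (hθ _).1 h
    have h2 : x = x' + y := congrArg Prod.fst h1
    have h3 : i • x = i • x' - i • y := congrArg Prod.snd h1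
    have h4 : i • (y + y) = 0 := by
      rw [h2, smul_add, sub_eq_add_neg, add_right_inj] at h3
      rw [smul_add]
      exact add_eq_zero_iff_eq_neg.2 h3
    rw [h2, eq_zero_of_two hN (hP _) (hi0 _ h4), add_zero]
    exact hx'
  · intro h
    exact (hθ _).2 ⟨x, h, 0, fun _ _ => map_zero _, by simp⟩

/-- an alternating pairing on the `N`-torsion points -/
structure Pairing {B : Type} [AddCommGroup B] (N : ℕ) (e : B → B → Ω) : Prop where
  ne : ∀ a b, N • a = 0 → N • b = 0 → e a b ≠ 0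
  addl : ∀ a a' b, N • a = 0 → N • a' = 0 → N • b = 0 → e (a + a') b = e a b * e a' b
  addr : ∀ a b b', N • a = 0 → N • b = 0 → N • b' = 0 → e a (b + b') = e a b * e a b'
  alt : ∀ a, N • a = 0 → e a a = 1

variable {B : Type} [AddCommGroup B]

theorem Pairing.prod {B' : Type} [AddCommGroup B'] {N : ℕ} {e : B → B → Ω} {e' : B' → B' → Ω}
    (h : Pairing N e) (h' : Pairing N e') :
    Pairing N fun a b : B × B' => e a.1 b.1 * e' a.2 b.2 where
  ne a b ha hb := mul_ne_zero (h.ne _ _ (congrArg Prod.fst ha) (congrArg Prod.fst hb))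
    (h'.ne _ _ (congrArg Prod.snd ha) (congrArg Prod.snd hb))
  addl a a' b ha ha' hb := by
    rw [Prod.fst_add, Prod.snd_add,
      h.addl _ _ _ (congrArg Prod.fst ha) (congrArg Prod.fst ha') (congrArg Prod.fst hb),
      h'.addl _ _ _ (congrArg Prod.snd ha) (congrArg Prod.snd ha') (congrArg Prod.snd hb)]
    ring
  addr a b b' ha hb hb' := by
    rw [Prod.fst_add, Prod.snd_add,
      h.addr _ _ _ (congrArg Prod.fst ha) (congrArg Prod.fst hb) (congrArg Prod.fst hb'),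
      h'.addr _ _ _ (congrArg Prod.snd ha) (congrArg Prod.snd hb) (congrArg Prod.snd hb')]
    ring
  alt a ha := by
    rw [h.alt _ (congrArg Prod.fst ha), h'.alt _ (congrArg Prod.snd ha), one_mul]

/-- ISO: the isotropic subgroup of `B × B` attached to a stable subgroup `W` of `B` -/
theorem iso_points {N : ℕ} (hN : Odd N) [Finite {x : B // N • x = 0}] {i : ℤ}
    (hi : (N : ℤ) ∣ i ^ 2 + 1) {e : B → B → Ω} (he : Pairing N e) (F : B →+ B) (hF : Injective F)
    (q : ℕ) (heF : ∀ a b, N • a = 0 → N • b = 0 → e (F a) (F b) = e a b ^ q)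
    (W : AddSubgroup B) (hW : ∀ x ∈ W, F x ∈ W) :
    ∃ K : AddSubgroup (B × B), Finite K ∧ (∀ k ∈ K, N • k = 0) ∧
      (∀ k ∈ K, ∀ k' ∈ K, e k.1 k'.1 * e k.2 k'.2 = 1) ∧ (∀ k ∈ K, (F k.1, F k.2) ∈ K) ∧
      Nat.card {x : B // N • x = 0} ≤ Nat.card K ∧
      ∀ x, (x, i • x) ∈ K ↔ x ∈ W ∧ N • x = 0 := by
  let P : AddSubgroup B := (nsmulAddMonoidHom N : B →+ B).ker
  have : Finite P := ‹Finite {x : B // N • x = 0}›
  let E : P →+ P →+ Additive Ωˣ := AddMonoidHom.mk' (fun a => AddMonoidHom.mk'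
    (fun b => Additive.ofMul (Units.mk0 (e a b) (he.ne _ _ a.2 b.2))) fun b b' =>
      Additive.toMul.injective (Units.ext (he.addr _ _ _ a.2 b.2 b'.2))) fun a a' =>
    AddMonoidHom.ext fun b => Additive.toMul.injective (Units.ext (he.addl _ _ _ a.2 a'.2 b.2))
  let F' : P →+ P := (F.comp P.subtype).codRestrict P fun x => by
    change N • F x = 0
    rw [← map_nsmul, show N • (x : B) = 0 from x.2, map_zero]
  obtain ⟨K, h1, h2, h3, h4⟩ := iso_core (Ω := Ω) (P := P) hN (fun x => Subtype.ext x.2) hi E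
    (fun a => Additive.toMul.injective (Units.ext (he.alt _ a.2))) F'
    (fun a b h => Subtype.ext (hF (congrArg Subtype.val h))) q
    (fun a b => Additive.toMul.injective (Units.ext (by
      rw [toMul_nsmul, Units.val_pow_eq_pow_val]
      exact heF _ _ a.2 b.2))) (W.comap P.subtype) fun x hx => hW _ hx
  have hinj : Injective (P.subtype.prodMap P.subtype) :=
    Injective.prodMap Subtype.val_injective Subtype.val_injective
  have hc := AddSubgroup.equivMapOfInjective K _ hinj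
  refine ⟨K.map (P.subtype.prodMap P.subtype), Finite.of_equiv _ hc.toEquiv, ?_, ?_, ?_, ?_,
    fun x => ⟨?_, ?_⟩⟩
  · rintro _ ⟨k, -, rfl⟩
    exact Prod.ext k.1.2 k.2.2
  · rintro _ ⟨k, hk, rfl⟩ _ ⟨k', hk', rfl⟩
    exact congrArg (fun z : Additive Ωˣ => ((Additive.toMul z : Ωˣ) : Ω)) (h1 k hk k' hk')
  · rintro _ ⟨k, hk, rfl⟩
    exact ⟨_, h2 k hk, rfl⟩
  · rw [← Nat.card_congr hc.toEquiv]
    exact h3
  · rintro ⟨k, hk, h⟩
    have h5 : (k.1 : B) = x := congrArg Prod.fst h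
    have h6 : (k.2 : B) = i • x := congrArg Prod.snd h
    have h7 : k = (k.1, i • k.1) := Prod.ext rfl (Subtype.ext (by rw [h6, ← h5]; rfl))
    rw [h7] at hk
    rw [← h5]
    exact ⟨(h4 _).1 hk, k.1.2⟩
  · rintro ⟨hx, h⟩
    exact ⟨_, (h4 ⟨x, h⟩).2 hx, rfl⟩

end Iso

variable {l : ℕ} [hl : Fact l.Prime] {A : Type} [AddCommGroup A] {ι : Type} [Fintype ι]

theorem TM.card_tors (M : TM l A ι) (j : ℕ) :
    Nat.card {x : A // l ^ j • x = 0} = l ^ (j * Fintype.card ι) := by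
  have hd : LinearMap.det (((l : ℚ_[l]) ^ j) • LinearMap.id : (ι → ℚ_[l]) →ₗ[ℚ_[l]] (ι → ℚ_[l])) =
      (l : ℚ_[l]) ^ (j * Fintype.card ι) := by
    rw [LinearMap.det_smul, LinearMap.det_id, mul_one, Module.finrank_fintype_fun_eq_card, pow_mul]
  have h1 := M.card_preimage (((l : ℚ_[l]) ^ j) • LinearMap.id) (fun v hv => by
    change ‖((l : ℚ_[l]) ^ j) • v‖ ≤ 1
    rw [← M.ker, add_lsmul, (M.ker v).2 hv, smul_zero]) (by rw [hd]; exact pow_ne_zero _ l_ne)
  rw [hd, norm_lpow, inv_inv] at h1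
  have h2 : ∀ x : A, l ^ j • x = 0 ↔ ∃ v, ‖(((l : ℚ_[l]) ^ j) • LinearMap.id :
      (ι → ℚ_[l]) →ₗ[ℚ_[l]] (ι → ℚ_[l])) v‖ ≤ 1 ∧ M.κ v = x := by
    intro x
    constructor
    · intro h
      obtain ⟨v, rfl⟩ := M.onto x j h
      exact ⟨v, by rw [← add_lsmul, M.ker] at h; exact h, rfl⟩
    · rintro ⟨v, hv, rfl⟩
      rw [← add_lsmul, M.ker]
      exact hv
  rw [Nat.card_congr (Equiv.subtypeEquivRight h2)]
  exact_mod_cast h1

theorem exists_scale {ι₂ : Type} [Fintype ι₂] (c : (ι → ℚ_[l]) →ₗ[ℚ_[l]] (ι₂ → ℚ_[l])) :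
    ∃ n : ℕ, ∀ v, ‖v‖ ≤ 1 → ‖((l : ℚ_[l]) ^ n) • c v‖ ≤ 1 := by
  obtain ⟨n, hn⟩ := exists_small (l := l) (LinearMap.toContinuousLinearMap c)
  exact ⟨n, fun v hv => ((((l : ℚ_[l]) ^ n) • LinearMap.toContinuousLinearMap c).le_opNorm v).trans
    (mul_le_one₀ hn (norm_nonneg _) hv)⟩

theorem exists_sqrt_neg_one (h : l % 4 = 1) (j : ℕ) : ∃ i : ℤ, ((l ^ j : ℕ) : ℤ) ∣ i ^ 2 + 1 := by
  have h0 : (l : ℤ) ≠ 0 := Nat.cast_ne_zero.2 hl.out.ne_zero
  obtain ⟨a, ha⟩ := (ZMod.exists_sq_eq_neg_one_iff (p := l)).2 (by omega)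
  obtain ⟨a, rfl⟩ := ZMod.intCast_surjective a
  have h1 : (l : ℤ) ∣ a ^ 2 - (-1) := by
    rw [← ZMod.intCast_zmod_eq_zero_iff_dvd]
    push_cast
    rw [ha]
    ring
  have h2 := dvd_sub_pow_of_dvd_sub h1 j
  have h3 : Odd (l ^ j) := Odd.pow (Nat.odd_iff.2 (by omega))
  rw [h3.neg_one_pow, ← pow_mul, mul_comm 2, pow_mul, sub_neg_eq_add] at h2
  refine ⟨a ^ l ^ j, dvd_trans ?_ h2⟩
  rw [Nat.cast_pow]
  exact pow_dvd_pow _ (Nat.le_succ j)

/-- four copies of `A` -/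
structure Four (Y A : Type) [AddCommGroup Y] [AddCommGroup A] where
  pr : Fin 4 → Y →+ A
  inj : Fin 4 → A →+ Y
  pr_inj : ∀ a b x, pr a (inj b x) = if a = b then x else 0
  sum : ∀ y, ∑ a, inj a (pr a y) = y

/-- the nested product -/
def Four.prod (A : Type) [AddCommGroup A] : Four ((A × A) × (A × A)) A where
  pr := ![(AddMonoidHom.fst A A).comp (AddMonoidHom.fst _ _),
    (AddMonoidHom.snd A A).comp (AddMonoidHom.fst _ _),
    (AddMonoidHom.fst A A).comp (AddMonoidHom.snd _ _),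
    (AddMonoidHom.snd A A).comp (AddMonoidHom.snd _ _)]
  inj := ![(AddMonoidHom.inl _ _).comp (AddMonoidHom.inl A A),
    (AddMonoidHom.inl _ _).comp (AddMonoidHom.inr A A),
    (AddMonoidHom.inr _ _).comp (AddMonoidHom.inl A A),
    (AddMonoidHom.inr _ _).comp (AddMonoidHom.inr A A)]
  pr_inj a b x := by fin_cases a <;> fin_cases b <;> simp
  sum y := by simp [Fin.sum_univ_four]

/-- the power -/
def Four.pi (A : Type) [AddCommGroup A] : Four (Fin 4 → A) A where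
  pr a := Pi.evalAddMonoidHom (fun _ => A) a
  inj a := AddMonoidHom.single (fun _ => A) a
  pr_inj a b x := by simp [Pi.single_apply]
  sum y := Finset.univ_sum_single y

namespace Four

variable {Y : Type} [AddCommGroup Y] (T : Four Y A)

theorem ext {y y' : Y} (h : ∀ a, T.pr a y = T.pr a y') : y = y' := by
  rw [← T.sum y, ← T.sum y']
  simp only [h]

theorem pr_sum (x : Fin 4 → A) (a : Fin 4) : T.pr a (∑ b, T.inj b (x b)) = x a := by
  simp [map_sum, T.pr_inj]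

/-- a component of an endomorphism -/
def cp (u : Y →+ Y) (a b : Fin 4) : AddMonoid.End A := (T.pr a).comp (u.comp (T.inj b))

/-- comparison with the nested product -/
def δ : Y →+ (A × A) × (A × A) := ((T.pr 0).prod (T.pr 1)).prod ((T.pr 2).prod (T.pr 3))

theorem δ_apply (y : Y) : T.δ y = ((T.pr 0 y, T.pr 1 y), (T.pr 2 y, T.pr 3 y)) := rfl

theorem δ_sum (x : Fin 4 → A) : T.δ (∑ b, T.inj b (x b)) = ((x 0, x 1), (x 2, x 3)) := by
  rw [δ_apply]
  simp only [T.pr_sum]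

theorem δ_bij : Bijective T.δ := by
  refine ⟨fun y y' h => T.ext fun a => ?_, fun z => ⟨_, T.δ_sum ![z.1.1, z.1.2, z.2.1, z.2.2]⟩⟩
  simp only [δ_apply, Prod.mk.injEq] at h
  obtain ⟨⟨h0, h1⟩, h2, h3⟩ := h
  fin_cases a <;> assumption

theorem kills (M : TM l A ι) (u : Y →+ Y) (w : Fin 4 → ι → ℚ_[l]) :
    u (∑ b, T.inj b (M.κ (w b))) = 0 ↔ ∀ a, ‖∑ b, M.VR (T.cp u a b) (w b)‖ ≤ 1 := by
  have : ∀ a, T.pr a (u (∑ b, T.inj b (M.κ (w b)))) = M.κ (∑ b, M.VR (T.cp u a b) (w b)) := by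
    intro a
    simp only [map_sum, M.κ_VR]
    rfl
  simp only [← M.ker, ← this]
  exact ⟨fun h a => by rw [h, map_zero], fun h => T.ext fun a => by rw [h, map_zero]⟩

end Four

/-- ISO and KEY -/
theorem iso_key {Ω Y : Type} [Field Ω] [AddCommGroup Y] (T : Four Y A) (M : TM l A ι)
    (h4 : l % 4 = 1) (F : A →+ A) (hF : Injective F) (FY : Y →+ Y)
    (hFY : ∀ a y, T.pr a (FY y) = F (T.pr a y)) (q : ℕ) (e : ℕ → A → A → Ω)
    (he : ∀ j, Pairing (l ^ j) (e j))
    (heF : ∀ j a b, l ^ j • a = 0 → l ^ j • b = 0 → e j (F a) (F b) = e j a b ^ q)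
    (Φ : Module.End ℚ_[l] (ι → ℚ_[l])) (hΦ : Commute Φ (M.VR F)) :
    ∃ K : ℕ → AddSubgroup Y,
      (∀ j, Finite (K j) ∧ (∀ k ∈ K j, l ^ j • k = 0) ∧
        (∀ k ∈ K j, ∀ k' ∈ K j, ∏ a, e j (T.pr a k) (T.pr a k') = 1) ∧
        (∀ k ∈ K j, FY k ∈ K j) ∧ l ^ (j * (2 * Fintype.card ι)) ≤ Nat.card (K j)) ∧
      ∀ (r : ℕ) (J : Set ℕ) (u : ℕ → Y →+ Y), r ≠ 0 → J.Infinite →
        (∀ j ∈ J, ∀ k ∈ K j, u j k = 0) →
        (∀ j ∈ J, ∀ y, (∃ n : ℕ, l ^ n • y = 0) → u j y = 0 → r • y ∈ K j) →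
        ∀ c : Module.End ℚ_[l] (ι → ℚ_[l]),
          (∀ j ∈ J, ∀ a b, Commute c (M.VR (T.cp (u j) a b))) → Commute c Φ := by
  choose i hi using exists_sqrt_neg_one h4
  let γ : (ι → ℚ_[l]) →+ A × A := M.κ.prod (M.κ.comp Φ.toAddMonoidHom)
  have hγ : ∀ v, γ v = (M.κ v, M.κ (Φ v)) := fun _ => rfl
  have hW : ∀ x ∈ γ.range, F.prodMap F x ∈ γ.range := by
    rintro _ ⟨v, rfl⟩
    refine ⟨M.VR F v, ?_⟩
    rw [hγ, hγ, show Φ (M.VR F v) = M.VR F (Φ v) from LinearMap.congr_fun hΦ v, M.κ_VR, M.κ_VR]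
    rfl
  have hcard : ∀ j, Nat.card {x : A × A // l ^ j • x = 0} = l ^ (j * (2 * Fintype.card ι)) := by
    intro j
    have : ∀ x : A × A, l ^ j • x = 0 ↔ l ^ j • x.1 = 0 ∧ l ^ j • x.2 = 0 := fun x => Prod.ext_iff
    rw [Nat.card_congr ((Equiv.subtypeEquivRight this).trans
      (Equiv.subtypeProdEquivProd (p := fun a : A => l ^ j • a = 0)
        (q := fun a : A => l ^ j • a = 0))), Nat.card_prod, M.card_tors, ← pow_add]
    congr 1
    ring
  have hfin : ∀ j, Finite {x : A × A // l ^ j • x = 0} := fun j =>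
    Nat.finite_of_card_ne_zero (by rw [hcard]; exact pow_ne_zero _ hl.out.ne_zero)
  choose K k1 k2 k3 k4 k5 k6 using fun j => iso_points (B := A × A) (N := l ^ j)
    (Odd.pow (Nat.odd_iff.2 (by omega))) (hi j) ((he j).prod (he j)) (F.prodMap F)
    (hF.prodMap hF) q (fun a b ha hb => by
      rw [mul_pow, ← heF j _ _ (congrArg Prod.fst ha) (congrArg Prod.fst hb),
        ← heF j _ _ (congrArg Prod.snd ha) (congrArg Prod.snd hb)]
      rfl) γ.range hW
  have hc : ∀ j, Nat.card ((K j).comap T.δ) = Nat.card (K j) := fun j =>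
    Nat.card_congr ((Equiv.ofBijective _ T.δ_bij).subtypeEquiv fun _ => Iff.rfl)
  refine ⟨fun j => (K j).comap T.δ, fun j => ⟨?_, ?_, ?_, ?_, ?_⟩, ?_⟩
  · have := k1 j
    exact Nat.finite_of_card_ne_zero (by rw [hc]; exact Nat.card_pos.ne')
  · intro k hk
    exact T.δ_bij.1 (by rw [map_nsmul, k2 j _ hk, map_zero])
  · intro k hk k' hk'
    rw [Fin.prod_univ_four, mul_assoc]
    exact k3 j _ hk _ hk'
  · intro k hk
    have := k4 j _ hk
    change T.δ (FY k) ∈ K j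
    rw [T.δ_apply, hFY, hFY, hFY, hFY]
    exact this
  · rw [hc, ← hcard]
    exact k5 j
  · intro r J u hr hJ hu hu' c0 hc0
    obtain ⟨n, hn⟩ := exists_scale c0
    obtain ⟨m, hm⟩ := exists_scale Φ
    let c : Module.End ℚ_[l] (ι → ℚ_[l]) := ((l : ℚ_[l]) ^ n) • c0
    have hcc : ∀ j ∈ J, ∀ a b v, c (M.VR (T.cp (u j) a b) v) = M.VR (T.cp (u j) a b) (c v) :=
      fun j hj a b v => LinearMap.congr_fun ((hc0 j hj a b).smul_left ((l : ℚ_[l]) ^ n)) v
    have key : ∀ v, ‖((l : ℚ_[l]) ^ m * r) • (c (Φ v) - Φ (c v))‖ ≤ 1 := by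
      intro v
      obtain ⟨n1, h1⟩ := M.tors v
      obtain ⟨n2, h2⟩ := M.tors (Φ v)
      obtain ⟨j, hj, hlt⟩ := hJ.exists_gt (n1 + n2)
      have h3 : l ^ j • γ v = 0 := by
        obtain ⟨k, rfl⟩ := Nat.exists_eq_add_of_lt hlt
        refine Prod.ext ?_ ?_
        · change l ^ _ • M.κ v = 0
          rw [show n1 + n2 + k + 1 = (n2 + k + 1) + n1 by ring, pow_add, mul_smul, h1, smul_zero]
        · change l ^ _ • M.κ (Φ v) = 0
          rw [show n1 + n2 + k + 1 = (n1 + k + 1) + n2 by ring, pow_add, mul_smul, h2, smul_zero]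
      let w : Fin 4 → ι → ℚ_[l] := ![v, Φ v, i j • v, i j • Φ v]
      have h4 : ∑ b, T.inj b (M.κ (w b)) ∈ (K j).comap T.δ := by
        change T.δ _ ∈ K j
        rw [T.δ_sum fun b => M.κ (w b)]
        have := (k6 j _).2 ⟨⟨v, rfl⟩, h3⟩
        refine (congrArg (· ∈ K j) ?_).mp this
        exact Prod.ext rfl (Prod.ext (map_zsmul M.κ _ _).symm (map_zsmul M.κ _ _).symm)
      have h5 := (T.kills M (u j) w).1 (hu j hj _ h4)
      have h6 := (T.kills M (u j) fun b => c (w b)).2 fun a => by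
        simp only [← hcc j hj, ← map_sum]
        exact hn _ (h5 a)
      have h7 : T.δ _ ∈ K j := hu' j hj _ (by
        choose t ht using fun b => M.tors (c (w b))
        refine ⟨∑ b, t b, ?_⟩
        rw [Finset.smul_sum]
        refine Finset.sum_eq_zero fun b _ => ?_
        obtain ⟨s, hs⟩ := Nat.exists_eq_add_of_le
          (Finset.single_le_sum (fun b _ => Nat.zero_le (t b)) (Finset.mem_univ b))
        rw [← map_nsmul, hs, add_comm, pow_add, mul_smul, ht, smul_zero, map_zero]) h6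
      rw [map_nsmul, T.δ_sum fun b => M.κ (c (w b))] at h7
      have h8 : (r • (M.κ (c v), M.κ (c (Φ v))), i j • r • (M.κ (c v), M.κ (c (Φ v)))) ∈ K j := by
        rw [smul_comm]
        have h : ∀ x, M.κ (c (i j • x)) = i j • M.κ (c x) := fun x => by rw [map_zsmul, map_zsmul]
        refine (congrArg (· ∈ K j) ?_).mp h7
        exact Prod.ext rfl (Prod.ext (congrArg (r • ·) (h _)) (congrArg (r • ·) (h _)))
      obtain ⟨⟨v', h9⟩, -⟩ := (k6 j _).1 h8
      have h10 : M.κ v' = M.κ ((r : ℚ_[l]) • c v) := by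
        rw [Nat.cast_smul_eq_nsmul, map_nsmul]
        exact congrArg Prod.fst h9
      have h11 : M.κ (Φ v') = M.κ ((r : ℚ_[l]) • c (Φ v)) := by
        rw [Nat.cast_smul_eq_nsmul, map_nsmul]
        exact congrArg Prod.snd h9
      rw [M.eq_iff] at h10 h11
      have h12 : ‖((l : ℚ_[l]) ^ m) • (Φ v' - (r : ℚ_[l]) • c (Φ v))‖ ≤ 1 := by
        rw [← M.ker, add_lsmul, (M.ker _).2 h11, smul_zero]
      have h13 := norm_sub_le_one (hm _ h10) h12
      refine le_of_eq_of_le ?_ h13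
      congr 1
      simp only [map_sub, map_smul, smul_sub, mul_smul]
      abel
    have h0 : (l : ℚ_[l]) ^ m * r ≠ 0 := mul_ne_zero (pow_ne_zero _ l_ne) (Nat.cast_ne_zero.2 hr)
    refine LinearMap.ext fun v => ?_
    have h1 : ((l : ℚ_[l]) ^ m * r) • (c (Φ v) - Φ (c v)) = 0 :=
      eq_zero_of_bdd (l := l) fun k => by
        have := key (((l : ℚ_[l]) ^ k)⁻¹ • v)
        rwa [map_smul, map_smul, map_smul, map_smul, ← smul_sub, smul_comm] at this
    have h2 := sub_eq_zero.1 ((smul_eq_zero.1 h1).resolve_left h0)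
    change ((l : ℚ_[l]) ^ n) • c0 (Φ v) = Φ (((l : ℚ_[l]) ^ n) • c0 v) at h2
    rw [map_smul] at h2
    exact smul_right_injective _ (pow_ne_zero _ l_ne) h2

end Pool.Agent.Tav.Ti
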