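import Mathlib

/-! The linear algebra at the end of the proof of the isogeny theorem. -/

set_option autoImplicit false

noncomputable section

namespace Pool.Agent.Tav.TA

open Module

section Iso

variable {K V : Type} [Field K] [AddCommGroup V] [Module K V]

/-- the map `(x, y) ↦ (x + y, i x - i y)` -/
def tw (i : K) : V × V →ₗ[K] V × V :=
  (LinearMap.fst K V V + LinearMap.snd K V V).prod
    (i • (LinearMap.fst K V V - LinearMap.snd K V V))

theorem tw_apply (i : K) (x y : V) : tw i (x, y) = (x + y, i • (x - y)) := rfl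

theorem tw_inj (h2 : (2 : K) ≠ 0) {i : K} (hi : i * i = -1) :
    Function.Injective (tw (V := V) i) := by
  have hi0 : i ≠ 0 := by
    rintro rfl
    simp at hi
  rw [injective_iff_map_eq_zero]
  rintro ⟨x, y⟩ h
  rw [tw_apply, Prod.mk_eq_zero] at h
  have h1 : x - y = 0 := (smul_eq_zero.1 h.2).resolve_left hi0
  have hx : (2 : K) • x = 0 := by
    rw [two_smul]
    have := congrArg₂ (· + ·) h.1 h1
    simpa using this
  have hx0 : x = 0 := (smul_eq_zero.1 hx).resolve_left h2
  have hy0 : y = 0 := by simpa [hx0] using h.1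
  rw [hx0, hy0]
  rfl

/-- the subspace of the `(x + y, i x - i y)`, `x` in `W`, `y` orthogonal to `W` -/
def iso (e : LinearMap.BilinForm K V) (i : K) (W : Submodule K V) : Submodule K (V × V) :=
  LinearMap.range (tw i ∘ₗ W.subtype.prodMap (e.orthogonal W).subtype)

theorem mem_iso {e : LinearMap.BilinForm K V} {i : K} {W : Submodule K V} {z : V × V} :
    z ∈ iso e i W ↔ ∃ x ∈ W, ∃ y, (∀ w ∈ W, e w y = 0) ∧ z = (x + y, i • (x - y)) := by
  constructor
  · rintro ⟨⟨x, y⟩, rfl⟩
    exact ⟨x, x.2, y, y.2, rfl⟩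
  · rintro ⟨x, hx, y, hy, rfl⟩
    exact ⟨(⟨x, hx⟩, ⟨y, hy⟩), rfl⟩

theorem iso_zero {e : LinearMap.BilinForm K V} (he : ∀ x y, e x y = 0 → e y x = 0) {i : K}
    (hi : i * i = -1) {W : Submodule K V} {z z' : V × V} (hz : z ∈ iso e i W)
    (hz' : z' ∈ iso e i W) : e z.1 z'.1 + e z.2 z'.2 = 0 := by
  obtain ⟨x, hx, y, hy, rfl⟩ := mem_iso.1 hz
  obtain ⟨x', hx', y', hy', rfl⟩ := mem_iso.1 hz'
  have h1 : e x y' = 0 := hy' x hx
  have h2 : e y x' = 0 := he _ _ (hy x' hx')
  simp only [map_add, map_sub, map_smul, LinearMap.add_apply, LinearMap.sub_apply,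
    LinearMap.smul_apply, smul_eq_mul, h1, h2]
  linear_combination (e x x' + e y y') * hi

theorem le_finrank_iso [FiniteDimensional K V] (e : LinearMap.BilinForm K V) (h2 : (2 : K) ≠ 0)
    {i : K} (hi : i * i = -1) (W : Submodule K V) : finrank K V ≤ finrank K (iso e i W) := by
  have h1 : finrank K (iso e i W) = finrank K (W × e.orthogonal W) :=
    LinearMap.finrank_range_of_inj ((tw_inj h2 hi).comp
      (Subtype.val_injective.prodMap Subtype.val_injective))
  have h4 := e.finrank_add_finrank_orthogonal' W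
  rw [Module.finrank_prod] at h1
  omega

theorem iso_stable [FiniteDimensional K V] {e : LinearMap.BilinForm K V} {i q : K}
    {F : V →ₗ[K] V} (hF : Function.Injective F) (hq : ∀ x y, e (F x) (F y) = q * e x y)
    {W : Submodule K V} (hW : ∀ w ∈ W, F w ∈ W) {z : V × V} (hz : z ∈ iso e i W) :
    (F z.1, F z.2) ∈ iso e i W := by
  obtain ⟨x, hx, y, hy, rfl⟩ := mem_iso.1 hz
  refine mem_iso.2 ⟨F x, hW x hx, F y, fun w hw => ?_, by simp⟩
  have hs : Function.Surjective (F.restrict hW) :=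
    LinearMap.surjective_of_injective fun a b h =>
      Subtype.ext (hF (congrArg Subtype.val h))
  obtain ⟨w', hw'⟩ := hs ⟨w, hw⟩
  have : F w' = w := congrArg Subtype.val hw'
  rw [← this, hq, hy _ w'.2, mul_zero]

theorem mem_of_iso {e : LinearMap.BilinForm K V} (h2 : (2 : K) ≠ 0) {i : K} (hi : i * i = -1)
    {W : Submodule K V} {x : V} (h : (x, i • x) ∈ iso e i W) : x ∈ W := by
  obtain ⟨a, ha, b, -, hab⟩ := mem_iso.1 h
  have : tw i (x, (0 : V)) = tw i (a, b) := by
    rw [tw_apply, tw_apply, add_zero, sub_zero]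
    exact hab
  have := congrArg Prod.fst (tw_inj h2 hi this)
  exact (show x = a from this) ▸ ha

theorem iso_of_mem (e : LinearMap.BilinForm K V) (i : K) {W : Submodule K V} {x : V}
    (h : x ∈ W) : (x, i • x) ∈ iso e i W :=
  mem_iso.2 ⟨x, h, 0, fun w _ => map_zero _, by simp⟩

end Iso

section Dens

variable {K U : Type} [Field K] [AddCommGroup U] [Module K U] [FiniteDimensional K U]

/-- double centraliser -/
theorem mem_of_comm (A : Subalgebra K (End K U)) [IsSemisimpleRing A] (δ : End K U)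
    (h : ∀ d : End K U, (∀ a ∈ A, d * a = a * d) → δ * d = d * δ) : δ ∈ A := by
  classical
  let r : End A U → End K U := fun g =>
    { toFun := g
      map_add' := g.map_add
      map_smul' := fun c u => by
        simp }
  let f : End (End A U) U :=
    { toFun := δ
      map_add' := δ.map_add
      map_smul' := fun g u => by
        have := h (r g) fun a ha => LinearMap.ext fun u => g.map_smul ⟨a, ha⟩ u
        exact LinearMap.congr_fun this u }
  let b := Module.finBasis K U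
  obtain ⟨a, ha⟩ := jacobson_density f (Finset.univ.image b)
  have : δ = a := b.ext fun k => ha (b k) (Finset.mem_image_of_mem _ (Finset.mem_univ k))
  rw [this]
  exact a.2

end Dens

/-- `U` is a direct sum of copies of `V` -/
structure Bi (K V U ι : Type) [Field K] [AddCommGroup V] [Module K V] [AddCommGroup U]
    [Module K U] [Fintype ι] where
  inj : ι → V →ₗ[K] U
  pr : ι → U →ₗ[K] V
  same : ∀ k v, pr k (inj k v) = v
  diff : ∀ k m, k ≠ m → ∀ v, pr k (inj m v) = 0
  sum : ∀ u, ∑ k, inj k (pr k u) = u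

section Tate

variable {K V U : Type} [Field K] [AddCommGroup V] [Module K V] [AddCommGroup U] [Module K U]

theorem Bi.ext {ι : Type} [Fintype ι] (B : Bi K V U ι) {u u' : U}
    (h : ∀ k, B.pr k u = B.pr k u') : u = u' := by
  rw [← B.sum u, ← B.sum u']
  exact Finset.sum_congr rfl fun k _ => by rw [h k]

theorem Bi.pr_sum {ι : Type} [Fintype ι] (B : Bi K V U ι) (k : ι) (v : ι → V) :
    B.pr k (∑ m, B.inj m (v m)) = v k := by
  rw [map_sum, Finset.sum_eq_single k (fun m _ h => B.diff k m h.symm _) (by simp), B.same]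

/-- the matrix units come from signs and permutations -/
theorem Bi.unit_mem {ι : Type} [Fintype ι] (B : Bi K V U ι) (h2 : (2 : K) ≠ 0)
    (A : Subalgebra K (End K U))
    (hs : ∀ k, ∃ a ∈ A, (∀ u, B.pr k (a u) = -B.pr k u) ∧
      ∀ m, m ≠ k → ∀ u, B.pr m (a u) = B.pr m u)
    (ht : ∀ k m, ∃ a ∈ A, ∀ u, B.pr k (a u) = B.pr m u) (k m : ι) :
    (B.inj k ∘ₗ B.pr m : End K U) ∈ A := by
  obtain ⟨a, ha, h1, h3⟩ := hs k
  obtain ⟨t, ht, h4⟩ := ht k m
  have : (B.inj k ∘ₗ B.pr m : End K U) = (2 : K)⁻¹ • ((1 - a) * t) := by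
    ext1 u
    refine B.ext fun n => ?_
    simp only [LinearMap.comp_apply, LinearMap.smul_apply, End.mul_apply, LinearMap.sub_apply,
      End.one_apply, map_smul, map_sub]
    by_cases hn : n = k
    · subst hn
      rw [B.same, h1, h4, sub_neg_eq_add, ← two_smul K, smul_smul, inv_mul_cancel₀ h2, one_smul]
    · rw [B.diff n k hn, h3 n hn, sub_self, smul_zero]
  rw [this]
  exact A.smul_mem (A.mul_mem (A.sub_mem A.one_mem ha) ht) _

/-- TATE: if every large isotropic `F`-stable subspace of `V ^ 4` is stable under the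
centraliser of the semisimple algebra `A`, then `A` contains all that commutes with `F` -/
theorem tate [FiniteDimensional K V] [FiniteDimensional K U] (h2 : (2 : K) ≠ 0) {i : K}
    (hi : i * i = -1) (B : Bi K V U (Fin 4)) (e : LinearMap.BilinForm K V)
    (he : ∀ x, e x x = 0) (F : V →ₗ[K] V) (hF : Function.Injective F) {q : K}
    (hq : ∀ x y, e (F x) (F y) = q * e x y) (FU : U →ₗ[K] U)
    (hFU : ∀ k u, B.pr k (FU u) = F (B.pr k u)) (A : Subalgebra K (End K U))
    [IsSemisimpleRing A] (hA : ∀ k m, (B.inj k ∘ₗ B.pr m : End K U) ∈ A)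
    (H : ∀ W : Submodule K U, (∀ w ∈ W, FU w ∈ W) →
      (∀ x ∈ W, ∀ y ∈ W, ∑ k, e (B.pr k x) (B.pr k y) = 0) →
      finrank K U ≤ 2 * finrank K W →
      ∀ d : End K U, (∀ a ∈ A, d * a = a * d) → ∀ w ∈ W, d w ∈ W)
    (α : V →ₗ[K] V) (hα : ∀ v, α (F v) = F (α v)) :
    (B.inj 0 ∘ₗ α ∘ₗ B.pr 0 : End K U) ∈ A := by
  have hneg : ∀ x y, e y x = -e x y := fun x y => (LinearMap.IsAlt.neg he x y).symm
  let e2 : LinearMap.BilinForm K (V × V) :=
    e.compl₁₂ (LinearMap.fst K V V) (LinearMap.fst K V V) +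
      e.compl₁₂ (LinearMap.snd K V V) (LinearMap.snd K V V)
  have he2 : ∀ x y, e2 x y = e x.1 y.1 + e x.2 y.2 := fun _ _ => rfl
  have hr : ∀ x y, e2 x y = 0 → e2 y x = 0 := fun x y h => by
    rw [he2] at h ⊢
    rw [hneg x.1, hneg x.2]
    linear_combination -h
  let P : U →ₗ[K] (V × V) × V × V := ((B.pr 0).prod (B.pr 1)).prod ((B.pr 2).prod (B.pr 3))
  have hP : ∀ u, P u = ((B.pr 0 u, B.pr 1 u), (B.pr 2 u, B.pr 3 u)) := fun _ => rfl
  have hPi : Function.Injective P := fun u u' h => by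
    rw [hP, hP] at h
    simp only [Prod.mk.injEq] at h
    refine B.ext fun k => ?_
    fin_cases k
    exacts [h.1.1, h.1.2, h.2.1, h.2.2]
  have hPs : ∀ a b c d : V, P (∑ m, B.inj m (![a, b, c, d] m)) = ((a, b), (c, d)) := by
    intro a b c d
    rw [hP]
    simp only [B.pr_sum]
    rfl
  let PE : U ≃ₗ[K] (V × V) × V × V :=
    LinearEquiv.ofBijective P ⟨hPi, fun z => ⟨_, hPs z.1.1 z.1.2 z.2.1 z.2.2⟩⟩
  let W : Submodule K U := (iso e2 i α.graph).comap P
  have hW : ∀ u, u ∈ W ↔ P u ∈ iso e2 i α.graph := fun _ => Iff.rfl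
  have hst : ∀ w ∈ W, FU w ∈ W := by
    intro w hw
    have := iso_stable (e := e2) (i := i) (q := q) (F := F.prodMap F) (hF.prodMap hF)
      (fun x y => by simp only [he2, LinearMap.prodMap_apply, hq]; ring) (W := α.graph)
      (fun z hz => by
        rw [LinearMap.mem_graph_iff] at hz ⊢
        simp only [LinearMap.prodMap_apply]
        rw [hz, hα]) ((hW w).1 hw)
    rw [hW, hP]
    simp only [hFU]
    exact this
  have his : ∀ x ∈ W, ∀ y ∈ W, ∑ k, e (B.pr k x) (B.pr k y) = 0 := by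
    intro x hx y hy
    have := iso_zero hr hi ((hW x).1 hx) ((hW y).1 hy)
    rw [Fin.sum_univ_four, add_assoc]
    exact this
  have hdim : finrank K U ≤ 2 * finrank K W := by
    have h1 := le_finrank_iso e2 h2 hi α.graph
    have h3 : finrank K W = finrank K (iso e2 i α.graph) :=
      (PE.ofSubmodule' (iso e2 i α.graph)).finrank_eq
    have h4 := PE.finrank_eq
    rw [Module.finrank_prod] at h4
    omega
  let δ : End K U := ∑ k, B.inj k ∘ₗ α ∘ₗ B.pr k
  have hδ : ∀ k u, B.pr k (δ u) = α (B.pr k u) := fun k u => by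
    simp only [δ, LinearMap.sum_apply, LinearMap.comp_apply]
    exact B.pr_sum k fun m => α (B.pr m u)
  have hmem : δ ∈ A := by
    refine mem_of_comm A δ fun d hd => ?_
    have hc : ∀ k m u, d (B.inj k (B.pr m u)) = B.inj k (B.pr m (d u)) := fun k m u =>
      LinearMap.congr_fun (hd _ (hA k m)) u
    let d0 : V →ₗ[K] V := B.pr 0 ∘ₗ d ∘ₗ B.inj 0
    have hd0 : ∀ m u, B.pr m (d u) = d0 (B.pr m u) := fun m u => by
      change _ = B.pr 0 (d (B.inj 0 (B.pr m u)))
      rw [hc, B.same]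
    have key : ∀ v, α (d0 v) = d0 (α v) := by
      intro v
      have h1 : (∑ m, B.inj m (![v, α v, i • v, i • α v] m)) ∈ W := by
        rw [hW, hPs]
        exact iso_of_mem e2 i (x := (v, α v)) ((LinearMap.mem_graph_iff _ _).2 rfl)
      have h3 := (hW _).1 (H W hst his hdim d hd _ h1)
      rw [hP] at h3
      simp only [hd0, B.pr_sum] at h3
      have h4 : ((d0 v, d0 (α v)), i • (d0 v, d0 (α v))) ∈ iso e2 i α.graph := by
        simpa using h3
      exact ((LinearMap.mem_graph_iff _ _).1 (mem_of_iso h2 hi h4)).symm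
    ext1 u
    refine B.ext fun k => ?_
    rw [End.mul_apply, End.mul_apply, hδ, hd0, hd0, hδ, key]
  have : (B.inj 0 ∘ₗ α ∘ₗ B.pr 0 : End K U) = (B.inj 0 ∘ₗ B.pr 0 : End K U) * δ := by
    ext1 u
    simp only [End.mul_apply, LinearMap.comp_apply, hδ]
  rw [this]
  exact A.mul_mem (hA 0 0) hmem

end Tate

section Stab

variable {K U : Type} [NontriviallyNormedField K] [CompleteSpace K] [NormedAddCommGroup U]
  [NormedSpace K U] [FiniteDimensional K U]

/-- the points of size at most `r` in `W`, up to the unit ball -/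
def near (W : Submodule K U) (r : ℝ) : Set U := {v | ∃ w ∈ W, ‖w‖ ≤ r ∧ ‖v - w‖ ≤ 1}

/-- STAB: if `d` commutes with maps that carry one bounded neighbourhood of zero onto multiples
of `near W r` for unbounded `r`, then `W` is stable under `d` -/
theorem stab (W : Submodule K U) (d : End K U) (Y : Set U) {R : ℝ} (hR : ∀ y ∈ Y, ‖y‖ ≤ R)
    (hY : ∀ y, ‖y‖ ≤ 1 → y ∈ Y)
    (h : ∀ r₀ : ℝ, ∃ r, r₀ ≤ r ∧ ∃ (u : End K U) (c : K), c ≠ 0 ∧ d * u = u * d ∧
      u '' Y = (c • ·) '' near W r) : ∀ w ∈ W, d w ∈ W := by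
  obtain ⟨C, hC0, hC⟩ := (LinearMap.toContinuousLinearMap d).bound
  have hC' : ∀ x, ‖d x‖ ≤ C * ‖x‖ := hC
  have hR1 : 0 < C * (|R| + 1) := by positivity
  obtain ⟨a, ha0, ha⟩ := NormedField.exists_norm_lt K (inv_pos.2 hR1)
  have ha' : a ≠ 0 := norm_pos_iff.1 ha0
  have haY : ∀ y ∈ Y, a • d y ∈ Y := fun y hy => hY _ (by
    rw [norm_smul]
    have h1 : ‖d y‖ ≤ C * (|R| + 1) :=
      (hC' y).trans (mul_le_mul_of_nonneg_left
        ((hR y hy).trans ((le_abs_self R).trans (by linarith))) hC0.le)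
    calc _ ≤ (C * (|R| + 1))⁻¹ * (C * (|R| + 1)) :=
          mul_le_mul ha.le h1 (norm_nonneg _) (inv_pos.2 hR1).le
      _ = 1 := inv_mul_cancel₀ hR1.ne')
  intro w hw
  have hcl : IsClosed (W : Set U) := W.closed_of_finiteDimensional
  suffices hs : a • d w ∈ W by
    have := W.smul_mem a⁻¹ hs
    rwa [smul_smul, inv_mul_cancel₀ ha', one_smul] at this
  rw [← SetLike.mem_coe, ← hcl.closure_eq, Metric.mem_closure_iff]
  intro ε hε
  obtain ⟨b, hb0, hb⟩ := NormedField.exists_norm_lt K hε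
  have hb' : b ≠ 0 := norm_pos_iff.1 hb0
  obtain ⟨r, hr, u, c, hc, hu, hY'⟩ := h ‖b⁻¹ • w‖
  have h1 : c • b⁻¹ • w ∈ u '' Y := by
    rw [hY']
    exact ⟨_, ⟨_, W.smul_mem _ hw, hr, by simp⟩, rfl⟩
  obtain ⟨y, hy, hy'⟩ := h1
  have h2 : u (a • d y) ∈ (c • ·) '' near W r := hY' ▸ ⟨_, haY y hy, rfl⟩
  obtain ⟨z, ⟨w', hw', -, hz⟩, hz'⟩ := h2
  have h3 : u (d y) = d (u y) := (LinearMap.congr_fun hu y).symm
  have h4 : c • z = c • b⁻¹ • a • d w := by
    have : c • z = u (a • d y) := hz'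
    rw [this, map_smul, h3, hy', map_smul, map_smul, smul_comm a, smul_comm a]
  have h5 : z = b⁻¹ • a • d w := smul_right_injective U hc h4
  refine ⟨b • w', W.smul_mem _ hw', ?_⟩
  have h6 : a • d w - b • w' = b • (z - w') := by
    rw [smul_sub, h5, smul_inv_smul₀ hb']
  rw [dist_eq_norm, h6, norm_smul]
  exact lt_of_le_of_lt (mul_le_of_le_one_right hb0.le hz) hb

end Stab

end Pool.Agent.Tav.TA
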