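import Pool.Agent.P.MP_2ce3e7_ag.Tav.TiWeil
import Pool.Agent.P.MP_2ce3e7_ag.Tav.TiTAlg
import Pool.Agent.P.MP_2ce3e7_ag.Tav.TiKey
import Pool.Agent.P.MP_2ce3e7_ag.Tav.TiFib

/-! From similitudes of a power to the isogeny theorem. -/

set_option autoImplicit false

noncomputable section

namespace Pool.Agent.Tav.Ti

open Function Module

theorem exists_smul_mem_range {N : Type} [AddCommGroup N] [Module.Finite ℤ N] (f : N →ₗ[ℤ] N)
    (hf : Injective f) (y : N) : ∃ (m : ℤ) (x : N), m ≠ 0 ∧ f x = m • y := by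
  have h1 := (LinearMap.range f).finrank_quotient_add_finrank
  rw [LinearMap.finrank_range_of_inj hf, add_eq_right, Module.finrank_eq_zero_iff] at h1
  obtain ⟨m, hm, h2⟩ := h1 (Submodule.Quotient.mk y)
  rw [← Submodule.Quotient.mk_smul, Submodule.Quotient.mk_eq_zero] at h2
  obtain ⟨x, hx⟩ := h2
  exact ⟨m, x, hm, hx⟩

section Adj

variable {E : Type} [Ring E] {q : E → ℚ} {κ : Type} [Fintype κ]

/-- the matrix `u` is a similitude of the orthogonal sum -/
def SimM (q : E → ℚ) (u : κ → κ → E) : Prop :=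
  ∃ c : ℚ, c ≠ 0 ∧ ∀ x : κ → E, ∑ a, q (∑ b, u a b * x b) = c * ∑ a, q (x a)

theorem PF.nonneg (h : PF q) (a : E) : 0 ≤ q a := by
  by_cases e : a = 0
  · rw [e, h.zero]
  · exact (h.pos a e).le

/-- the entries of a similitude have adjoints -/
theorem PF.adj_simM [Module.Finite ℤ E] (h : PF q) {u : κ → κ → E} (hu : SimM q u) (a b : κ) :
    h.Adj ⊤ (u a b) := by
  classical
  obtain ⟨c, hc, hu⟩ := hu
  let L : (κ → E) →ₗ[ℤ] (κ → E) :=
    (AddMonoidHom.mk' (fun x a => ∑ b, u a b * x b) fun x y => funext fun a => by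
      simp [mul_add, Finset.sum_add_distrib]).toIntLinearMap
  have hL : ∀ x a, L x a = ∑ b, u a b * x b := fun _ _ => rfl
  have hq : ∀ x, ∑ a, q (L x a) = c * ∑ a, q (x a) := hu
  have hB : ∀ x y, ∑ a, (h.B (L x a) (L y a) : ℚ) = c * ∑ a, (h.B (x a) (y a) : ℚ) := by
    intro x y
    have h1 := hq (x + y)
    simp only [map_add, Pi.add_apply] at h1
    simp only [h.B_eq, Finset.sum_sub_distrib, h1, hq]
    ring
  have hi : Injective L := (injective_iff_map_eq_zero L).2 fun x hx => by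
    have h1 := hq x
    simp only [hx, Pi.zero_apply, h.zero, Finset.sum_const_zero] at h1
    have h2 := (Finset.sum_eq_zero_iff_of_nonneg fun a _ => h.nonneg (x a)).1
      ((mul_eq_zero.1 h1.symm).resolve_left hc)
    funext a
    by_contra e
    exact (h.pos _ e).ne' (h2 a (Finset.mem_univ a))
  obtain ⟨m, w, hm, hw⟩ := exists_smul_mem_range L hi (Pi.single a 1)
  refine ⟨c.num • w b, trivial, m * c.den,
    mul_ne_zero hm (Int.natCast_ne_zero.2 c.den_nz), fun x y => ?_⟩
  have h1 : L (fun k => w k * x) = m • Pi.single a x := by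
    funext k
    have h2 := congrFun hw k
    rw [hL] at h2 ⊢
    simp only [← mul_assoc, ← Finset.sum_mul, h2, Pi.smul_apply, smul_mul_assoc]
    by_cases e : k = a
    · subst e
      simp
    · simp [e]
  have h2 := hB (fun k => w k * x) (Pi.single b y)
  rw [h1, Finset.sum_eq_single a (fun k _ e => by simp [e]) (by simp),
    Finset.sum_eq_single b (fun k _ e => by simp [e]) (by simp), hL,
    Finset.sum_eq_single b (fun k _ e => by simp [e]) (by simp)] at h2
  simp only [Pi.smul_apply, Pi.single_eq_same, map_smul, LinearMap.smul_apply, smul_eq_mul,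
    Int.cast_mul] at h2
  apply Int.cast_injective (α := ℚ)
  rw [smul_mul_assoc, map_smul, LinearMap.smul_apply]
  simp only [smul_eq_mul, Int.cast_mul, Int.cast_natCast]
  rw [← Rat.mul_den_eq_num c]
  linear_combination (-c.den : ℚ) * h2

/-- the adjoint of an element that commutes with a similitude commutes with it -/
theorem PF.adj_comm [Module.Finite ℤ E] (h : PF q) {F : E} (hF : Sim q F) {x y : E} {N : ℤ}
    (e : ∀ a b, h.B (y * a) b = N * h.B a (x * b)) (hx : x * F = F * x) : y * F = F * y := by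
  obtain ⟨Q, m, hm, h1, -⟩ := h.exists_inv hF
  obtain ⟨c, -, h2⟩ := hF
  have h3 : ∀ b, h.B (y * F - F * y) (F * b) = 0 := fun b => by
    have h4 := h.B_sim h2 (y * 1) b
    have h5 := h.B_sim h2 1 (x * b)
    rw [e] at h4
    rw [← mul_assoc, ← hx, mul_assoc, mul_one] at h5
    rw [mul_one] at h4
    apply Int.cast_injective (α := ℚ)
    rw [map_sub, LinearMap.sub_apply, e]
    push_cast at h4 ⊢
    rw [h4, h5]
    ring
  have h4 := h3 (Polynomial.aeval F Q * (y * F - F * y))
  rw [← mul_assoc, h1, ← zsmul_eq_mul, map_smul, smul_eq_mul] at h4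
  exact sub_eq_zero.1 (h.eq_zero ((mul_eq_zero.1 h4).resolve_left hm))

/-- the isogeny theorem over the field of the representation -/
theorem PF.ti_one [Module.Finite ℤ E] (h : PF q) {F : E} (hF : Sim q F) {K U : Type} [Field K]
    [CharZero K] [AddCommGroup U] [Module K U] [FiniteDimensional K U] (ρ : E →+* End K U)
    {Φ : End K U} (key : ∀ c : End K U,
      (∀ x, x * F = F * x → h.Adj ⊤ x → Commute c (ρ x)) → Commute c Φ) :
    Φ ∈ Submodule.span K (ρ '' {a | a * F = F * a}) := by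
  let S : Set E := {x | x * F = F * x ∧ h.Adj ⊤ x}
  have hS : ∀ s ∈ S, h.Adj (Subring.closure S) s := by
    rintro s ⟨h1, y, -, N, hN, e⟩
    refine ⟨y, Subring.subset_closure ⟨h.adj_comm hF e h1, N • s, trivial, 1, one_ne_zero,
      fun a b => ?_⟩, N, hN, e⟩
    rw [one_mul, h.B_symm a, e, smul_mul_assoc, map_smul, LinearMap.smul_apply, h.B_symm b,
      smul_eq_mul]
  have := h.ss_adj hS K ρ
  have h1 := TA.mem_of_comm (Algebra.adjoin K (ρ '' S)) Φ fun d hd =>
    (key d fun x hx hx' => hd _ (Algebra.subset_adjoin ⟨x, ⟨hx, hx'⟩, rfl⟩)).symm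
  rw [← Subalgebra.mem_toSubmodule, Algebra.adjoin_eq_span] at h1
  refine Submodule.span_mono (fun z hz => ?_) h1
  induction hz using Submonoid.closure_induction with
  | mem z hz =>
    obtain ⟨x, hx, rfl⟩ := hz
    exact ⟨x, hx.1, rfl⟩
  | one => exact ⟨1, by simp, map_one ρ⟩
  | mul z z' _ _ hz hz' =>
    obtain ⟨x, hx, rfl⟩ := hz
    obtain ⟨x', hx', rfl⟩ := hz'
    refine ⟨x * x', ?_, map_mul ρ _ _⟩
    change x * x' * F = F * (x * x')
    rw [mul_assoc, show x' * F = F * x' from hx', ← mul_assoc, show x * F = F * x from hx,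
      mul_assoc]

end Adj

section Base

variable {K L d : Type} [Field K] [Field L] [Fintype d]

/-- the commutant of a matrix is compatible with field extension -/
theorem comm_span (j : K →+* L) (A : Matrix d d K) {X : Matrix d d L}
    (hX : X * A.map j = A.map j * X) :
    X ∈ Submodule.span L ((fun Y : Matrix d d K => Y.map j) '' {Y | Y * A = A * Y}) := by
  classical
  let _ := j.toAlgebra
  let b := Basis.ofVectorSpace K L
  have hj : ∀ (c : K) (z : L), j c * z = c • z := fun c z => (Algebra.smul_def c z).symm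
  let s := (Finset.univ : Finset (d × d)).biUnion fun p => (b.repr (X p.1 p.2)).support
  have h1 : X = ∑ k ∈ s, b k • (X.map fun z => b.repr z k).map j := by
    ext a a'
    rw [Matrix.sum_apply]
    simp only [Matrix.smul_apply, Matrix.map_apply, smul_eq_mul, mul_comm (b _), hj]
    conv_lhs => rw [← b.linearCombination_repr (X a a'), Finsupp.linearCombination_apply]
    exact Finsupp.sum_of_support_subset _
      (Finset.subset_biUnion_of_mem (fun p : d × d => (b.repr (X p.1 p.2)).support)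
        (Finset.mem_univ (a, a'))) _ fun _ _ => zero_smul _ _
  rw [h1]
  refine Submodule.sum_mem _ fun k _ => Submodule.smul_mem _ _
    (Submodule.subset_span ⟨_, ?_, rfl⟩)
  ext a a'
  have h2 := congrArg (fun Z : Matrix d d L => b.repr (Z a a') k) hX
  simp only [Matrix.mul_apply, Matrix.map_apply, mul_comm (X _ _), hj, map_sum, map_smul,
    Finsupp.coe_finsetSum, Finset.sum_apply, Finsupp.smul_apply, smul_eq_mul] at h2
  simp only [Matrix.mul_apply, Matrix.map_apply, mul_comm (b.repr _ _)]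
  exact h2

/-- independence is compatible with field extension -/
theorem indep_ext (j : K →+* L) {κ m n : Type} {A : κ → Matrix m n K}
    (h : LinearIndependent K A) : LinearIndependent L fun i => (A i).map j := by
  classical
  let _ := j.toAlgebra
  let b := Basis.ofVectorSpace K L
  have hj : ∀ (c : K) (z : L), j c * z = c • z := fun c z => (Algebra.smul_def c z).symm
  rw [linearIndependent_iff'] at h ⊢
  intro s g hg i hi
  refine b.ext_elem fun k => ?_
  rw [map_zero]
  refine h s (fun i => b.repr (g i) k) ?_ i hi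
  ext a a'
  have h2 := congrArg (fun Z : Matrix m n L => b.repr (Z a a') k) hg
  simp only [Matrix.sum_apply, Matrix.smul_apply, Matrix.map_apply, smul_eq_mul,
    mul_comm (g _), hj, map_sum, map_smul, Finsupp.coe_finsetSum, Finset.sum_apply,
    Finsupp.smul_apply, Matrix.zero_apply, map_zero, Finsupp.coe_zero, Pi.zero_apply] at h2
  simp only [Matrix.sum_apply, Matrix.smul_apply, smul_eq_mul, mul_comm (b.repr _ _),
    Matrix.zero_apply]
  exact h2

variable [DecidableEq d] {E : Type} [Ring E]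

/-- the matrices of a representation along a field extension -/
def matR (j : K →+* L) (ρ : E →+* End K (d → K)) : E →+* Matrix d d L :=
  j.mapMatrix.comp ((LinearMap.toMatrixAlgEquiv' : End K (d → K) ≃ₐ[K] Matrix d d K).toRingEquiv
    |>.toRingHom.comp ρ)

theorem matR_apply (j : K →+* L) (ρ : E →+* End K (d → K)) (a : E) :
    matR j ρ a = (LinearMap.toMatrix' (ρ a)).map j := rfl

theorem matR_indep (j : K →+* L) (ρ : E →+* End K (d → K)) {κ : Type} {α : κ → E}
    (h : LinearIndependent K fun i => ρ (α i)) : LinearIndependent L fun i => matR j ρ (α i) :=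
  indep_ext j (h.map' (LinearMap.toMatrix' : End K (d → K) ≃ₗ[K] Matrix d d K).toLinearMap
    (LinearEquiv.ker _))

theorem matR_ti (j : K →+* L) (ρ : E →+* End K (d → K)) (F : E) (S : Set E)
    (h : ∀ Φ, Commute Φ (ρ F) → Φ ∈ Submodule.span K (ρ '' S)) (X : Matrix d d L)
    (hX : X * matR j ρ F = matR j ρ F * X) : X ∈ Submodule.span L (matR j ρ '' S) := by
  refine Submodule.span_le.2 ?_ (comm_span j _ hX)
  rintro _ ⟨Y, hY, rfl⟩
  obtain ⟨Φ, rfl⟩ := (LinearMap.toMatrix' : End K (d → K) ≃ₗ[K] Matrix d d K).surjective Y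
  have h1 := h Φ ((LinearMap.toMatrix' : End K (d → K) ≃ₗ[K] Matrix d d K).injective (by
    rw [LinearMap.toMatrix'_mul, LinearMap.toMatrix'_mul]
    exact hY))
  clear hY
  change (LinearMap.toMatrix' Φ).map j ∈ Submodule.span L (matR j ρ '' S)
  induction h1 using Submodule.span_induction with
  | mem _ hz =>
    obtain ⟨x, hx, rfl⟩ := hz
    exact Submodule.subset_span ⟨x, hx, rfl⟩
  | zero => simp
  | add x y _ _ hx hy =>
    rw [map_add, Matrix.map_add _ (map_add j)]
    exact add_mem hx hy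
  | smul c x _ hx =>
    have : (LinearMap.toMatrix' (c • x)).map j = j c • (LinearMap.toMatrix' x).map j := by
      ext a a'
      simp
    rw [this]
    exact Submodule.smul_mem _ _ hx

end Base

section Top

open Polynomial

/-- the output of the algebra: finiteness, independence, the Weil polynomial, and the
isogeny theorem -/
structure TIR {E A : Type} (K : Type) [Ring E] [Field K] [Ring A] [Algebra K A] (V : E →+* A)
    (F : E) (n : ℚ) : Prop where
  fin : Module.Finite ℤ E
  inj : Injective V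
  ind : ∀ (κ : Type) (α : κ → E), LinearIndependent ℤ α → LinearIndependent K fun i => V (α i)
  weil : ∃ P : ℤ[X], P.Monic ∧ (P.map (algebraMap ℤ ℚ)).Separable ∧ aeval F P = 0 ∧
    ∀ w : ℂ, aeval w P = 0 → Complex.normSq w = n
  ti : ∀ X, X * V F = V F * X → X ∈ Submodule.span K (V '' {a | a * F = F * a})

variable {E : Type} [Ring E] {q : E → ℚ} {F : E} {n : ℚ}

theorem inj_of_ind {A K : Type} [Field K] [Ring A] [Algebra K A] (h : PF q) (V : E →+* A)
    (ind : ∀ (κ : Type) (α : κ → E), LinearIndependent ℤ α →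
      LinearIndependent K fun i => V (α i)) : Injective V :=
  (injective_iff_map_eq_zero V).2 fun a ha => by
    by_contra e0
    have h1 : LinearIndependent ℤ fun _ : Unit => a :=
      Fintype.linearIndependent_iff.2 fun c hc i => by
        by_contra hi
        exact e0 (h.smul_eq_zero hi (by simpa using hc))
    exact (ind _ _ h1).ne_zero () ha

/-- block ALG for any representation -/
theorem PF.alg [Module.Finite ℤ E] (h : PF q) (hn : n ≠ 0) (hF : ∀ a, q (F * a) = n * q a)
    {K U κ : Type} [Field K] [CharZero K] [AddCommGroup U] [Module K U] [FiniteDimensional K U]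
    [Fintype κ] (ρ : E →+* End K U)
    (ind : ∀ (ι : Type) (α : ι → E), LinearIndependent ℤ α → LinearIndependent K fun i => ρ (α i))
    (key : ∀ Φ : End K U, Commute Φ (ρ F) → ∃ W : Set (κ → κ → E),
      (∀ u ∈ W, SimM q u ∧ ∀ a b, u a b * F = F * u a b) ∧
      ∀ c : End K U, (∀ u ∈ W, ∀ a b, Commute c (ρ (u a b))) → Commute c Φ) :
    TIR K ρ F n where
  fin := inferInstance
  inj := inj_of_ind h ρ ind
  ind := ind
  weil := h.weil hn hF
  ti Φ hΦ := by
    obtain ⟨W, h1, h2⟩ := key Φ hΦ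
    exact h.ti_one ⟨n, hn, hF⟩ ρ fun c hc => h2 c fun u hu a b =>
      hc _ ((h1 u hu).2 a b) (h.adj_simM (h1 u hu).1 a b)

/-- extension of the field -/
theorem TIR.mat {K L d : Type} [Field K] [Field L] [Fintype d] [DecidableEq d]
    {ρ : E →+* End K (d → K)} (h : TIR K ρ F n) (j : K →+* L) : TIR L (matR j ρ) F n where
  fin := h.fin
  inj _ _ e := h.inj ((LinearMap.toMatrix' : End K (d → K) ≃ₗ[K] Matrix d d K).injective
    (Matrix.map_injective j.injective e))
  ind κ α hα := matR_indep j ρ (h.ind κ α hα)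
  weil := h.weil
  ti := matR_ti j ρ F _ h.ti

/-- a separable polynomial over the field of the representation -/
theorem TIR.sep {A K : Type} [Field K] [CharZero K] [Ring A] [Algebra K A] {V : E →+* A}
    (h : TIR K V F n) : ∃ P : K[X], P.Separable ∧ aeval (V F) P = 0 ∧
      ∀ (j : K →+* ℂ) (w : ℂ), P.eval₂ j w = 0 → Complex.normSq w = n := by
  obtain ⟨P, -, h1, h2, h3⟩ := h.weil
  refine ⟨P.map (algebraMap ℤ K), ?_, ?_, fun j w hw => h3 w ?_⟩
  · have := h1.map (f := algebraMap ℚ K)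
    rwa [Polynomial.map_map, RingHom.eq_intCast' ((algebraMap ℚ K).comp _),
      ← RingHom.eq_intCast' (algebraMap ℤ K)] at this
  · rw [aeval_map_algebraMap]
    exact (aeval_algHom_apply V.toIntAlgHom F P).trans (by rw [h2, map_zero])
  · rw [eval₂_map] at hw
    rw [aeval_def, RingHom.eq_intCast' (algebraMap ℤ ℂ),
      ← RingHom.eq_intCast' (j.comp (algebraMap ℤ K))]
    exact hw

/-- Frobenius is diagonalisable, with eigenvalues of the right size -/
theorem TIR.diag {d : Type} [Fintype d] [DecidableEq d] {V : E →+* Matrix d d ℂ}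
    (h : TIR ℂ V F n) : ∃ (P : Matrix d d ℂ) (α : d → ℂ), IsUnit P.det ∧
      V F * P = P * Matrix.diagonal α := by
  obtain ⟨P, h1, h2, -⟩ := h.sep
  exact diag_of_sep _ h1 h2

theorem TIR.norm {d : Type} [Fintype d] [DecidableEq d] {V : E →+* Matrix d d ℂ}
    (h : TIR ℂ V F n) {P : Matrix d d ℂ} {α : d → ℂ} (hP : IsUnit P.det)
    (e : V F * P = P * Matrix.diagonal α) (i : d) : ‖α i‖ ^ 2 = n := by
  obtain ⟨Q, -, h2, h3⟩ := h.sep
  rw [← Complex.normSq_eq_norm_sq]
  refine h3 (RingHom.id ℂ) _ ?_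
  have h4 : ∀ R : ℂ[X], aeval (V F) R * P = P * Matrix.diagonal fun i => R.eval (α i) := by
    intro R
    induction R using Polynomial.induction_on with
    | C a =>
      simp only [aeval_C, eval_C, Algebra.algebraMap_eq_smul_one, smul_mul_assoc, one_mul]
      ext i j
      simp [mul_comm]
    | add R R' hR hR' =>
      simp only [map_add, add_mul, hR, hR', eval_add, ← mul_add, Matrix.diagonal_add]
    | monomial k a hR =>
      rw [pow_succ', ← mul_assoc, mul_comm (C a) X, mul_assoc, map_mul, aeval_X, mul_assoc, hR,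
        ← mul_assoc, e, mul_assoc, Matrix.diagonal_mul_diagonal]
      simp
  have h5 := h4 Q
  rw [h2, zero_mul] at h5
  have h6 := congrArg (fun Z => (P⁻¹ * Z) i i) h5
  simp only [Matrix.mul_zero, ← Matrix.mul_assoc, Matrix.nonsing_inv_mul P hP, Matrix.one_mul,
    Matrix.diagonal_apply_eq, Matrix.zero_apply] at h6
  exact h6.symm

/-- the input of the next block -/
theorem TIR.fib {d : Type} [Fintype d] [DecidableEq d] {V : E →+* Matrix d d ℂ}
    (h : TIR ℂ V F n) :
    ∃ (L : Subring E) (χ : d → L →+* ℂ) (_ : Basis d ℤ L) (P : Matrix d d ℂ) (hF : F ∈ L),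
      Injective χ ∧ (∀ a b : L, a * b = b * a) ∧ IsUnit P.det ∧
      (∀ a : L, V a * P = P * Matrix.diagonal fun ρ => χ ρ a) ∧
      (∀ a : E, (∀ b ∈ L, a * b = b * a) → a ∈ L) ∧ ∀ ρ, ‖χ ρ ⟨F, hF⟩‖ ^ 2 = n := by
  have := h.fin
  obtain ⟨L, χ, b, P, h1, h2, h3, h4, h5, h6⟩ :=
    Ti.fib V h.inj (fun m a => h.ind _ a) F h.diag h.ti
  exact ⟨L, χ, b, P, h1, h2, h3, h4, h5, h6, h.norm h4 (h5 ⟨F, h1⟩)⟩

variable {l : ℕ} [hl : Fact l.Prime] {A Y ι : Type} [AddCommGroup A] [AddCommGroup Y] [Fintype ι]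

/-- the components of `f` are given by `x` -/
def Four.Cmpt (T : Four Y A) (e : E →+* AddMonoid.End A) (f : A →+ Y) (x : Fin 4 → E) : Prop :=
  ∀ a y, e (x a) y = T.pr a (f y)

omit hl in
theorem Four.simM (T : Four Y A) (e : E →+* AddMonoid.End A) {u : Y →+ Y}
    {w : Fin 4 → Fin 4 → E} (hw : ∀ a b, e (w a b) = T.cp u a b) {c : ℚ} (hc : c ≠ 0)
    (hu : ∀ f x x', T.Cmpt e f x → T.Cmpt e (u.comp f) x' →
      ∑ a, q (x' a) = c * ∑ a, q (x a)) : SimM q w := by
  refine ⟨c, hc, fun x => hu (∑ b, (T.inj b).comp (e (x b))) x _ (fun a y => ?_) fun a y => ?_⟩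
  · rw [AddMonoidHom.finsetSum_apply]
    exact (T.pr_sum (fun b => e (x b) y) a).symm
  · rw [AddMonoidHom.comp_apply, AddMonoidHom.finsetSum_apply, map_sum, map_sum, map_sum]
    refine (AddMonoidHom.finsetSum_apply _ _ _).trans (Finset.sum_congr rfl fun b _ => ?_)
    rw [map_mul, hw]
    rfl

omit hl in
theorem Four.cp_comm (T : Four Y A) {F : A →+ A} {FY u : Y →+ Y}
    (hFY : ∀ a y, T.pr a (FY y) = F (T.pr a y)) (hu : ∀ y, u (FY y) = FY (u y)) (a b : Fin 4)
    (x : A) : T.cp u a b (F x) = F (T.cp u a b x) := by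
  have h1 : T.inj b (F x) = FY (T.inj b x) := T.ext fun k => by
    rw [hFY, T.pr_inj, T.pr_inj]
    split_ifs
    · rfl
    · exact (map_zero F).symm
  change T.pr a (u (T.inj b (F x))) = F (T.pr a (u (T.inj b x)))
  rw [h1, hu, hFY]

/-- blocks ISO, KEY and ALG together: what the geometry owes is `core` -/
theorem PF.tate {Ω : Type} [Field Ω] (h : PF q) (T : Four Y A) (M : TM l A ι) (h4 : l % 4 = 1)
    (e : E →+* AddMonoid.End A) (hd : Div l (G := A) (G₂ := A) e.toAddMonoidHom q) (hn : n ≠ 0)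
    (hF : ∀ a, q (F * a) = n * q a) (hi : Injective (e F)) (FY : Y →+ Y)
    (hFY : ∀ a y, T.pr a (FY y) = e F (T.pr a y)) (s : ℕ) (ε : ℕ → A → A → Ω)
    (hε : ∀ j, Pairing (l ^ j) (ε j))
    (hεF : ∀ j a b, l ^ j • a = 0 → l ^ j • b = 0 → ε j (e F a) (e F b) = ε j a b ^ s)
    (core : ∀ K : ℕ → AddSubgroup Y,
      (∀ j, Finite (K j) ∧ (∀ k ∈ K j, l ^ j • k = 0) ∧
        (∀ k ∈ K j, ∀ k' ∈ K j, ∏ a, ε j (T.pr a k) (T.pr a k') = 1) ∧
        (∀ k ∈ K j, FY k ∈ K j) ∧ l ^ (j * (2 * Fintype.card ι)) ≤ Nat.card (K j)) →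
      ∃ (r : ℕ) (J : Set ℕ) (u : ℕ → Y →+ Y), r ≠ 0 ∧ J.Infinite ∧ ∀ j ∈ J,
        (∀ k ∈ K j, u j k = 0) ∧ (∀ y, (∃ m : ℕ, l ^ m • y = 0) → u j y = 0 → r • y ∈ K j) ∧
        (∀ y, u j (FY y) = FY (u j y)) ∧ (∀ a b, ∃ w, e w = T.cp (u j) a b) ∧
        ∃ c : ℚ, c ≠ 0 ∧ ∀ f x x', T.Cmpt e f x → T.Cmpt e ((u j).comp f) x' →
          ∑ a, q (x' a) = c * ∑ a, q (x a)) :
    TIR ℚ_[l] (M.VR.comp e) F n := by
  have := h.finite' M M hd
  have he : Injective e := (injective_iff_map_eq_zero e).2 fun a ha =>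
    h.V_inj' M M hd (by
      change M.VR (e a) = 0
      rw [ha, map_zero])
  refine h.alg (κ := Fin 4) hn hF _ (fun _ α hα => h.indep' M M hd hα) fun Φ hΦ => ?_
  obtain ⟨K, hK, key⟩ := iso_key T M h4 (e F) hi FY hFY s ε hε hεF Φ hΦ
  obtain ⟨r, J, u, hr, hJ, hu⟩ := core K hK
  refine ⟨{w | ∃ j ∈ J, ∀ a b, e (w a b) = T.cp (u j) a b}, ?_, fun c hc => key r J u hr hJ
    (fun j hj => (hu j hj).1) (fun j hj => (hu j hj).2.1) c fun j hj a b => ?_⟩
  · rintro w ⟨j, hj, hw⟩
    obtain ⟨-, -, h1, -, c, hc, h2⟩ := hu j hj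
    refine ⟨T.simM e hw hc h2, fun a b => he ?_⟩
    rw [map_mul, map_mul, hw]
    exact AddMonoidHom.ext (T.cp_comm hFY h1 a b)
  · choose w hw using (hu j hj).2.2.2.1
    rw [← hw]
    exact hc w ⟨j, hj, hw⟩ a b

end Top

end Pool.Agent.Tav.Ti
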