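import Mathlib

/-! A field of characteristic zero with at most continuum many elements embeds into `ℂ`. -/

set_option autoImplicit false

namespace Pool.Agent.Tav.Ti

open Cardinal

theorem emb_of_card (K : Type) [Field K] [CharZero K] (h : #K ≤ 𝔠) : Nonempty (K →+* ℂ) := by
  let A := MvPolynomial ℝ K
  let M := AlgebraicClosure (FractionRing A)
  have hA : #A = 𝔠 := by
    rw [MvPolynomial.cardinalMk_eq_max, mk_real, max_eq_right h, max_eq_left aleph0_le_continuum]
  have hF : #(FractionRing A) = 𝔠 := by rw [← hA]; exact (FractionRing.cardinalMk A)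
  have hM : #M = 𝔠 := by
    refine le_antisymm ((Algebra.IsAlgebraic.cardinalMk_le_max (FractionRing A) M).trans ?_) ?_
    · rw [hF, max_eq_left aleph0_le_continuum]
    · rw [← hF]
      exact mk_le_of_injective (algebraMap (FractionRing A) M).injective
  have : CharZero M := algebraRat.charZero M
  obtain ⟨e⟩ := IsAlgClosed.ringEquiv_of_equiv_of_charZero (K := M) (L := ℂ)
    (hM ▸ aleph0_lt_continuum) (Cardinal.eq.1 (hM.trans mk_complex.symm))
  exact ⟨e.toRingHom.comp (algebraMap K M)⟩

theorem card_padic_le (l : ℕ) [Fact l.Prime] : #ℚ_[l] ≤ 𝔠 := by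
  have h1 : #ℚ_[l] ≤ #(PadicSeq l) := mk_quotient_le
  refine h1.trans ((mk_subtype_le _).trans ?_)
  simp

/-- the `l`-adic numbers embed into `ℂ` -/
theorem padic_emb (l : ℕ) [Fact l.Prime] : Nonempty (ℚ_[l] →+* ℂ) :=
  emb_of_card _ (card_padic_le l)

end Pool.Agent.Tav.Ti
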