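import Pool.Agent.P.MP_2ce3e7_ag.Tav.TiAQuo
import Pool.Agent.P.MP_2ce3e7_ag.Tav.TiASim
import Pool.Agent.P.MP_2ce3e7_ag.Tav.TiAQ
import Pool.Agent.P.MP_2ce3e7_ag.Tav.TiAlg
import Pool.Agent.P.MP_2ce3e7_ag.Tav.TiEmb

/-! The isogeny theorem: from the geometry to the commutant. -/

set_option autoImplicit false

noncomputable section

namespace Pool.Agent.Tav

open MvPolynomial Module Function

variable {Ω : Type} [Field Ω] [IsAlgClosed Ω] {G : Type} [AddCommGroup G] {fr : Ω ≃+* Ω} {Q : ℕ}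
  {l : ℕ} [hl : Fact l.Prime] {ι : Type} [Fintype ι]

namespace Ab

/-- the components of a regular endomorphism of the fourth power -/
def cpM (A : Ab Ω G) (u : (Fin 4 → G) →+ (Fin 4 → G))
    (hu : u ∈ (A.pi (Fin 4)).Hom (A.pi (Fin 4))) : Matrix (Fin 4) (Fin 4) A.End :=
  Matrix.of fun a b => ⟨(Ti.Four.pi G).cp u a b,
    comp_mem (comp_mem (single_mem b) hu) (eval_mem a)⟩

theorem cpM_val (A : Ab Ω G) (u : (Fin 4 → G) →+ (Fin 4 → G))
    (hu : u ∈ (A.pi (Fin 4)).Hom (A.pi (Fin 4))) (a b : Fin 4) (x : G) :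
    (A.cpM u hu a b).1 x = u (Pi.single b x) a := rfl

theorem cpM_mulVec (A : Ab Ω G) (u : (Fin 4 → G) →+ (Fin 4 → G))
    (hu : u ∈ (A.pi (Fin 4)).Hom (A.pi (Fin 4))) (β : Fin 4 → A.End) (a : Fin 4) (x : G) :
    ((A.cpM u hu).mulVec β a).1 x = u (fun b => (β b).1 x) a := by
  have h1 : ((A.cpM u hu).mulVec β a).1 = ∑ b, (A.cpM u hu a b).1 * (β b).1 := by
    simp only [Matrix.mulVec, dotProduct]
    exact map_sum A.End.subtype (fun b => A.cpM u hu a b * β b) Finset.univ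
  rw [h1, ← Finset.univ_sum_single fun b => (β b).1 x, map_sum, Finset.sum_apply]
  exact AddMonoidHom.finsetSum_apply _ _ _

theorem cpM_sim (A : Ab Ω G) {u : (Fin 4 → G) →+ (Fin 4 → G)} (hu : A.Sml (A.pi (Fin 4)) u) :
    ∃ c : ℚ, 0 < c ∧ ∀ β : Fin 4 → A.End,
      ∑ a, A.Q A ((A.cpM u hu.1).mulVec β a).1 = c * ∑ a, A.Q A (β a).1 := by
  obtain ⟨c, hc, h⟩ := hu.2
  refine ⟨c, hc, fun β => ?_⟩
  let b : G →+ (Fin 4 → G) := AddMonoidHom.pi fun a => (β a).1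
  have hb : b ∈ A.Hom (A.pi (Fin 4)) := reg_pi fun a => (β a).2
  have h1 := h b hb
  rw [Q_pi A (comp_mem hb hu.1), Q_pi A hb] at h1
  refine Eq.trans (Finset.sum_congr rfl fun a _ => ?_) h1
  exact congrArg _ (funext (A.cpM_mulVec u hu.1 β a))

/-- TH, ISO, QUOT, the similitudes and KEY -/
theorem keyM (A : Ab Ω G) (hq : IsQ fr Q) {F : A.End} (h : A.Fr fr F.1) (h4 : l % 4 = 1)
    (M : Ti.TM l G ι) (hc : Fintype.card ι = 2 * A.n) (Φ : Module.End ℚ_[l] (ι → ℚ_[l]))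
    (hΦ : Commute Φ (M.VR F)) : ∃ S : Set (Matrix (Fin 4) (Fin 4) A.End),
      (∀ U ∈ S, (∀ a b, U a b * F = F * U a b) ∧ ∃ c : ℚ, 0 < c ∧ ∀ β : Fin 4 → A.End,
        ∑ a, A.Q A (U.mulVec β a).1 = c * ∑ a, A.Q A (β a).1) ∧
      ∀ c : Module.End ℚ_[l] (ι → ℚ_[l]), (∀ U ∈ S, ∀ a b, Commute c (M.VR (U a b))) →
        Commute c Φ := by
  have ho : ∀ j, Odd (l ^ j) := fun j => Odd.pow (Nat.odd_iff.2 (by omega))
  obtain ⟨K, hK, hk⟩ := Ti.iso_key (Ti.Four.pi G) M h4 F.1 h.1.1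
    (AddMonoidHom.compLeft F.1 (Fin 4)) (fun _ _ => rfl) Q (fun j => A.e (l ^ j))
    (fun j => A.pairing (ho j)) (fun j a b _ _ => by rw [A.e_frob h, hq.2]) Φ hΦ
  choose R K' hR hR' using fun j => by
    have := (hK j).1
    exact (A.pi (Fin 4)).quot h.pi (ho j) (K j) (hK j).2.1
      (fun k hk k' hk' => (e_pi _ k k').trans ((hK j).2.2.1 k hk k' hk')) (hK j).2.2.2.1
  obtain ⟨r, J, u, hr, hJ, hu⟩ := A.sims (A.pi (Fin 4)) hq h.pi (a := 4) (by norm_num)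
    (fun j => l ^ j) (fun j => pow_ne_zero _ hl.out.ne_zero) R K K' hR hR' fun j => by
      refine le_of_eq_of_le ?_ (hK j).2.2.2.2
      change (l ^ j) ^ (Fintype.card (Fin 4) * A.n) = _
      rw [← pow_mul, hc, Fintype.card_fin]
      congr 1
      ring
  refine ⟨{U | ∃ j, ∃ hj : j ∈ J, U = A.cpM (u j) (hu j hj).1.1}, ?_, fun c hc => ?_⟩
  · rintro _ ⟨j, hj, rfl⟩
    refine ⟨fun a b => Subtype.ext (AddMonoidHom.ext fun x => ?_), A.cpM_sim (hu j hj).1⟩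
    have h1 := congrFun ((hu j hj).2.1 (Pi.single b x)) a
    have h2 : AddMonoidHom.compLeft F.1 (Fin 4) (Pi.single b x) = Pi.single b (F.1 x) :=
      funext fun i => Pi.apply_single (fun _ => F.1) (fun _ => map_zero _) b x i
    rw [h2] at h1
    exact h1
  · exact hk r J u hr hJ (fun j hj => (hu j hj).2.2.1) (fun j hj y _ => (hu j hj).2.2.2 y) c
      fun j hj a b => hc _ ⟨j, hj, rfl⟩ a b

omit [IsAlgClosed Ω] in
/-- a regular endomorphism as a regular homomorphism -/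
def toHom (A : Ab Ω G) : A.End →+ A.Hom A where
  toFun a := ⟨a.1, a.2⟩
  map_zero' := rfl
  map_add' _ _ := rfl

theorem pf_end (A : Ab Ω G) : Ti.PF fun a : A.End => A.Q A a.1 :=
  (A.pf A).comap A.toHom fun _ _ h => Subtype.ext (congrArg Subtype.val h)

theorem quo_end (A : Ab Ω G) (l : ℕ) (hl : (l : Ω) ≠ 0) :
    Ti.Quo l (G := G) (G₂ := G) A.End.subtype.toAddMonoidHom := fun n a ha => by
  obtain ⟨b, hb⟩ := A.quo A l hl n (A.toHom a) ha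
  exact ⟨⟨b.1, b.2⟩, Subtype.ext (congrArg Subtype.val hb)⟩

omit [IsAlgClosed Ω] in
theorem _root_.Pool.Agent.Tav.IsQ.ne (hq : IsQ fr Q) : Q ≠ 0 := fun h => by
  have := hq.2 0
  rw [h, map_zero, pow_zero] at this
  exact zero_ne_one this

/-- the representation on the Tate module -/
abbrev rho (A : Ab Ω G) (M : Ti.TM l G ι) : A.End →+* Module.End ℚ_[l] (ι → ℚ_[l]) :=
  M.VR.comp A.End.subtype

theorem fin_end (A : Ab Ω G) (hl : (l : Ω) ≠ 0) (M : Ti.TM l G ι) : Module.Finite ℤ A.End :=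
  A.pf_end.finite M M (A.quo_end l hl)

theorem ind_end (A : Ab Ω G) (hl : (l : Ω) ≠ 0) (M : Ti.TM l G ι) (κ : Type) (α : κ → A.End)
    (hα : LinearIndependent ℤ α) : LinearIndependent ℚ_[l] fun i => A.rho M (α i) :=
  A.pf_end.indep M M (A.quo_end l hl) hα

/-- the isogeny theorem on the Tate module -/
theorem tir (A : Ab Ω G) (hq : IsQ fr Q) {F : A.End} (h : A.Fr fr F.1) (hg : GoodL Ω l)
    (M : Ti.TM l G ι) (hc : Fintype.card ι = 2 * A.n) : Ti.TIR ℚ_[l] (A.rho M) F Q := by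
  have := A.fin_end hg.1 M
  refine A.pf_end.alg (κ := Fin 4) (Nat.cast_ne_zero.2 hq.ne) (fun a => A.Q_frob A hq h a.2)
    (A.rho M) (A.ind_end hg.1 M) fun Φ hΦ => ?_
  obtain ⟨S, h1, h2⟩ := A.keyM hq h hg.2 M hc Φ hΦ
  refine ⟨S, fun U hU => ⟨?_, (h1 U hU).1⟩, h2⟩
  obtain ⟨c, hc, h3⟩ := (h1 U hU).2
  exact ⟨c, hc.ne', h3⟩

/-- the isogeny theorem in complex matrices, with all its by-products -/
theorem tir_cx (A : Ab Ω G) (hq : IsQ fr Q) (F : A.End) (h : A.Fr fr F.1) :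
    ∃ V : A.End →+* Matrix (Fin (2 * A.n)) (Fin (2 * A.n)) ℂ, Ti.TIR ℂ V F Q := by
  obtain ⟨l, hl, hg⟩ := exists_goodL Ω
  have := Fact.mk hl
  obtain ⟨M⟩ := A.exists_tm l hg.1
  obtain ⟨j⟩ := Ti.padic_emb l
  exact ⟨_, (A.tir hq h hg M (Fintype.card_fin _)).mat j⟩

/-- the isogeny theorem -/
theorem ti (A : Ab Ω G) (hq : IsQ fr Q) (F : A.End) (h : A.Fr fr F.1) :
    ∃ V : A.End →+* Matrix (Fin (2 * A.n)) (Fin (2 * A.n)) ℂ, A.Rep V ∧
      (∃ (P : Matrix _ _ ℂ) (α : Fin (2 * A.n) → ℂ), IsUnit P.det ∧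
        V F * P = P * Matrix.diagonal α ∧ ∀ i, ‖α i‖ ^ 2 = Q) ∧
      ∀ M, M * V F = V F * M → M ∈ Submodule.span ℂ (V '' {a | a * F = F * a}) := by
  obtain ⟨V, hV⟩ := A.tir_cx hq F h
  obtain ⟨P, α, h1, h2⟩ := hV.diag
  exact ⟨V, ⟨Fintype.card_fin _, hV.fin, hV.inj, fun _ => hV.ind _⟩,
    ⟨P, α, h1, h2, fun i => by exact_mod_cast hV.norm h1 h2 i⟩, hV.ti⟩

end Ab

end Pool.Agent.Tav
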