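import Pool.Agent.P.MP_2ce3e7_ag.Tav.TiIsog
import Pool.Agent.P.MP_2ce3e7_ag.Tav.TiEigB

/-! Equal characters give a pair of quasi-inverse blocks. -/

set_option autoImplicit false

noncomputable section

namespace Pool.Agent.Tav.Ti.Ig

open Module Function

variable {G₁ G₂ : Type} [AddCommGroup G₁] [AddCommGroup G₂]

/-- the product of two actions -/
def prA {Λ₁ Λ₂ : Type} [CommRing Λ₁] [CommRing Λ₂] (a₁ : Λ₁ →+* AddMonoid.End G₁)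
    (a₂ : Λ₂ →+* AddMonoid.End G₂) : Λ₁ × Λ₂ →+* AddMonoid.End (G₁ × G₂) where
  toFun x := prF (a₁ x.1) (a₂ x.2)
  map_one' := by rw [Prod.fst_one, Prod.snd_one, map_one, map_one]; rfl
  map_mul' x y := by rw [Prod.fst_mul, Prod.snd_mul, map_mul, map_mul]; rfl
  map_zero' := by rw [Prod.fst_zero, Prod.snd_zero, map_zero, map_zero]; rfl
  map_add' x y := by rw [Prod.fst_add, Prod.snd_add, map_add, map_add]; rfl

/-- the characters of the product ring -/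
def prX {Λ₁ Λ₂ Γ₁ Γ₂ : Type} [CommRing Λ₁] [CommRing Λ₂] (χ₁ : Γ₁ → Λ₁ →+* ℂ)
    (χ₂ : Γ₂ → Λ₂ →+* ℂ) : Γ₁ ⊕ Γ₂ → Λ₁ × Λ₂ →+* ℂ :=
  Sum.elim (fun ρ => (χ₁ ρ).comp (RingHom.fst _ _)) fun ρ => (χ₂ ρ).comp (RingHom.snd _ _)

theorem prX_inj {Λ₁ Λ₂ Γ₁ Γ₂ : Type} [CommRing Λ₁] [CommRing Λ₂] {χ₁ : Γ₁ → Λ₁ →+* ℂ}
    {χ₂ : Γ₂ → Λ₂ →+* ℂ} (h₁ : Injective χ₁) (h₂ : Injective χ₂) : Injective (prX χ₁ χ₂) := by
  rintro (ρ | ρ) (τ | τ) h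
  · exact congrArg _ (h₁ (RingHom.ext fun c => RingHom.congr_fun h (c, 0)))
  · simpa [prX] using RingHom.congr_fun h (1, 0)
  · simpa [prX] using RingHom.congr_fun h (1, 0)
  · exact congrArg _ (h₂ (RingHom.ext fun c => RingHom.congr_fun h (0, c)))

/-- from a unit that exchanges the factors to its blocks -/
theorem blocks (E : Subring (AddMonoid.End (G₁ × G₂))) {F₁ : AddMonoid.End G₁}
    {F₂ : AddMonoid.End G₂} {e f w z : E} (he : e.1 = prE G₁ G₂) (hf : f.1 = prF F₁ F₂) {m : ℕ}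
    (hwz : w * z = m) (hzw : z * w = m) (fw : f * w = w * f) (fz : f * z = z * f)
    (ew : e * w = w * (1 - e)) (ze : z * e = (1 - e) * z) :
    (∀ y, b21 w.1 (b12 z.1 y) = m • y) ∧ (∀ x, b12 z.1 (b21 w.1 x) = m • x) ∧
      (∀ x, b21 w.1 (F₁ x) = F₂ (b21 w.1 x)) ∧ ∀ y, b12 z.1 (F₂ y) = F₁ (b12 z.1 y) := by
  have ap : ∀ {a b : E}, a = b → ∀ t, a.1 t = b.1 t := fun h t => by rw [h]
  have nc : ∀ t : G₁ × G₂, (m : E).1 t = m • t := fun t => by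
    rw [SubringClass.coe_natCast, AddMonoid.End.natCast_apply]
  have w1 : ∀ x, (w.1 (x, 0)).1 = 0 := fun x => by
    have h : e.1 (w.1 (x, 0)) = w.1 ((x, 0) - e.1 (x, 0)) := ap ew (x, 0)
    rw [he, prE_apply, prE_apply, sub_self, map_zero] at h
    exact congrArg Prod.fst h
  have z2 : ∀ y, (z.1 (0, y)).2 = 0 := fun y => by
    have h : z.1 (e.1 (0, y)) = z.1 (0, y) - e.1 (z.1 (0, y)) := ap ze (0, y)
    rw [he, prE_apply, prE_apply] at h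
    have h' := congrArg Prod.snd h
    rw [show ((0, 0) : G₁ × G₂) = 0 from rfl, map_zero] at h'
    simpa using h'.symm
  have wx : ∀ x, w.1 (x, 0) = (0, b21 w.1 x) := fun x => Prod.ext (w1 x) rfl
  have zy : ∀ y, z.1 (0, y) = (b12 z.1 y, 0) := fun y => Prod.ext rfl (z2 y)
  refine ⟨fun y => ?_, fun x => ?_, fun x => ?_, fun y => ?_⟩
  · have h : w.1 (z.1 (0, y)) = _ := (ap hwz (0, y)).trans (nc _)
    rw [zy] at h
    exact congrArg Prod.snd h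
  · have h : z.1 (w.1 (x, 0)) = _ := (ap hzw (x, 0)).trans (nc _)
    rw [wx] at h
    exact congrArg Prod.fst h
  · have h : f.1 (w.1 (x, 0)) = w.1 (f.1 (x, 0)) := ap fw (x, 0)
    rw [hf, prF_apply, prF_apply, map_zero] at h
    exact (congrArg Prod.snd h).symm
  · have h : f.1 (z.1 (0, y)) = z.1 (f.1 (0, y)) := ap fz (0, y)
    rw [hf, prF_apply, prF_apply, map_zero] at h
    exact (congrArg Prod.fst h).symm

/-- LINK for rings -/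
theorem link_ring {E : Type} [Ring E] [Module.Finite ℤ E] {d : Type}
    [Fintype d] [DecidableEq d] (V : E →+* Matrix d d ℂ) (hV : Injective V)
    (hI : ∀ (m : ℕ) (a : Fin m → E), LinearIndependent ℤ a → LinearIndependent ℂ fun i => V (a i))
    {Λ₁ Λ₂ Γ₁ Γ₂ : Type} [CommRing Λ₁] [CommRing Λ₂] [Fintype Γ₁] [Fintype Γ₂]
    (b₁ : Basis Γ₁ ℤ Λ₁) (b₂ : Basis Γ₂ ℤ Λ₂) {χ₁ : Γ₁ → Λ₁ →+* ℂ} {χ₂ : Γ₂ → Λ₂ →+* ℂ}
    (h₁ : Injective χ₁) (h₂ : Injective χ₂) (A : Λ₁ × Λ₂ →+* E) (hA : Injective A)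
    (hd : Fintype.card d = Fintype.card Γ₁ + Fintype.card Γ₂)
    {π₁ : Λ₁} {π₂ : Λ₂} (e : Γ₁ ≃ Γ₂) (he : ∀ ρ, χ₂ (e ρ) π₂ = χ₁ ρ π₁)
    (hT : ∀ M, M * V (A (π₁, π₂)) = V (A (π₁, π₂)) * M → M ∈ Submodule.span ℂ (Set.range V)) :
    ∃ (w z : E) (m : ℕ), m ≠ 0 ∧ w * z = m ∧ z * w = m ∧ A (π₁, π₂) * w = w * A (π₁, π₂) ∧
      A (π₁, π₂) * z = z * A (π₁, π₂) ∧ A (1, 0) * w = w * (1 - A (1, 0)) ∧
      z * A (1, 0) = (1 - A (1, 0)) * z := by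
  classical
  let T := Matrix.toLinAlgEquiv' (R := ℂ) (n := d)
  obtain ⟨W, eW⟩ : ∃ W : E →+* End ℂ (d → ℂ), ∀ a, W a = T (V a) :=
    ⟨T.toRingEquiv.toRingHom.comp V, fun _ => rfl⟩
  have hW : Injective W := fun a b h => hV (T.injective (by rw [← eW, ← eW, h]))
  have hWI : Ind ℂ W := fun m a h => by
    simp only [eW]
    exact Eg.indep_toLin (hI m a h)
  have hb : LinearIndependent ℂ fun i => (W.comp A) (b₁.prod b₂ i) := by
    let q := Fintype.equivFin (Γ₁ ⊕ Γ₂)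
    have h1 : LinearIndependent ℤ fun i => A (b₁.prod b₂ i) :=
      (b₁.prod b₂).linearIndependent.map' A.toAddMonoidHom.toIntLinearMap
        (LinearMap.ker_eq_bot.2 hA)
    have h2 := hWI _ _ (h1.comp q.symm q.symm.injective)
    have h3 := h2.comp q q.injective
    simpa only [comp_def, Equiv.symm_apply_apply, RingHom.comp_apply] using h3
  obtain ⟨v, hv⟩ := Eg.exists_basis (b₁.prod b₂) (prX_inj h₁ h₂) (W.comp A) hb
    (by rw [finrank_fintype_fun_eq_card, hd, Fintype.card_sum])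
  let s : Γ₁ ⊕ Γ₂ ≃ Γ₁ ⊕ Γ₂ := (Equiv.sumCongr e e.symm).trans (Equiv.sumComm _ _)
  obtain ⟨J, hJ, hu⟩ : ∃ J : End ℂ (d → ℂ), (∀ ρ, J (v ρ) = v (s ρ)) ∧ IsUnit J :=
    ⟨(v.equiv v s).toLinearMap, fun ρ => v.equiv_apply ρ v s,
      (Module.End.isUnit_iff _).2 (v.equiv v s).bijective⟩
  have hv' : ∀ a ρ, W (A a) (v ρ) = prX χ₁ χ₂ ρ a • v ρ := hv
  have hJf : J * W (A (π₁, π₂)) = W (A (π₁, π₂)) * J := v.ext fun ρ => by
    rw [End.mul_apply, End.mul_apply, hv', map_smul, hJ, hv']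
    congr 1
    rcases ρ with ρ | ρ
    · exact (he ρ).symm
    · exact (congrArg (fun τ => χ₂ τ π₂) (e.apply_symm_apply ρ)).symm.trans (he _)
  have hJe : W (A (1, 0)) * J = J * (1 - W (A (1, 0))) := v.ext fun ρ => by
    rw [End.mul_apply, End.mul_apply, hJ, hv', LinearMap.sub_apply, hv', End.one_apply, map_sub,
      map_smul, hJ]
    rcases ρ with ρ | ρ <;> simp [prX, s]
  have hJs : J ∈ Submodule.span ℂ (Set.range W) := by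
    have h1 := hT (T.symm J) (T.injective (by
      rw [map_mul, map_mul, T.apply_symm_apply, ← eW, hJf]))
    have h2 := Submodule.mem_map_of_mem (f := T.toLinearEquiv.toLinearMap) h1
    rw [Submodule.map_span, ← Set.range_comp] at h2
    have h3 : T.toLinearEquiv.toLinearMap (T.symm J) = J := T.apply_symm_apply J
    have h4 : T.toLinearEquiv.toLinearMap ∘ V = W := funext fun a => (eW a).symm
    rwa [h3, h4] at h2
  exact isog_abs W hW hWI (A (1, 0)) (A (π₁, π₂)) hu hJs hJf hJe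

/-- LINK for groups -/
theorem link_grp (E : Subring (AddMonoid.End (G₁ × G₂))) [Module.Finite ℤ E] {d : Type}
    [Fintype d] [DecidableEq d] (V : E →+* Matrix d d ℂ) (hV : Injective V)
    (hI : ∀ (m : ℕ) (a : Fin m → E), LinearIndependent ℤ a → LinearIndependent ℂ fun i => V (a i))
    {Λ₁ Λ₂ Γ₁ Γ₂ : Type} [CommRing Λ₁] [CommRing Λ₂] [Fintype Γ₁] [Fintype Γ₂]
    (b₁ : Basis Γ₁ ℤ Λ₁) (b₂ : Basis Γ₂ ℤ Λ₂) {χ₁ : Γ₁ → Λ₁ →+* ℂ} {χ₂ : Γ₂ → Λ₂ →+* ℂ}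
    (h₁ : Injective χ₁) (h₂ : Injective χ₂) {a₁ : Λ₁ →+* AddMonoid.End G₁}
    {a₂ : Λ₂ →+* AddMonoid.End G₂} (i₁ : Injective a₁) (i₂ : Injective a₂)
    (hE : ∀ x y, prF (a₁ x) (a₂ y) ∈ E) (hd : Fintype.card d = Fintype.card Γ₁ + Fintype.card Γ₂)
    {π₁ : Λ₁} {π₂ : Λ₂} (e : Γ₁ ≃ Γ₂) (he : ∀ ρ, χ₂ (e ρ) π₂ = χ₁ ρ π₁)
    (hT : ∀ M, M * V ⟨_, hE π₁ π₂⟩ = V ⟨_, hE π₁ π₂⟩ * M → M ∈ Submodule.span ℂ (Set.range V)) :
    ∃ w ∈ E, ∃ z ∈ E, ∃ m : ℕ, m ≠ 0 ∧ (∀ y, b21 w (b12 z y) = m • y) ∧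
      (∀ x, b12 z (b21 w x) = m • x) ∧ (∀ x, b21 w (a₁ π₁ x) = a₂ π₂ (b21 w x)) ∧
      ∀ y, b12 z (a₂ π₂ y) = a₁ π₁ (b12 z y) := by
  obtain ⟨A, eA⟩ : ∃ A : Λ₁ × Λ₂ →+* E, ∀ x y, A (x, y) = ⟨_, hE x y⟩ :=
    ⟨(prA a₁ a₂).codRestrict E fun x => hE x.1 x.2, fun _ _ => rfl⟩
  have hA : Injective A := by
    rw [injective_iff_map_eq_zero]
    rintro ⟨x, y⟩ hx
    rw [eA] at hx
    have h0 : prF (a₁ x) (a₂ y) = 0 := congrArg Subtype.val hx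
    have h : ∀ t, prF (a₁ x) (a₂ y) t = 0 := fun t => by rw [h0]; rfl
    refine Prod.ext (i₁ ?_) (i₂ ?_)
    · rw [Prod.fst_zero, map_zero]
      exact AddMonoidHom.ext fun t => congrArg Prod.fst (h (t, 0))
    · rw [Prod.snd_zero, map_zero]
      exact AddMonoidHom.ext fun t => congrArg Prod.snd (h (0, t))
  obtain ⟨w, z, m, hm, hwz, hzw, fw, fz, ew, ze⟩ :=
    link_ring V hV hI b₁ b₂ h₁ h₂ A hA hd e he (by rw [eA]; exact hT)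
  refine ⟨w.1, w.2, z.1, z.2, m, hm, blocks E ?_ ?_ hwz hzw fw fz ew ze⟩
  · rw [eA]
    change prF (a₁ 1) (a₂ 0) = _
    rw [map_one, map_zero]
    rfl
  · rw [eA]

end Pool.Agent.Tav.Ti.Ig
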