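import Pool.Agent.P.MP_2ce3e7_ag.Tav.TiASys
import Pool.Agent.P.MP_2ce3e7_ag.Tav.TiLinkA

/-! Equal Weil numbers give an isogeny. -/

set_option autoImplicit false

noncomputable section

namespace Pool.Agent.Tav

open MvPolynomial Module Function

variable {Ω : Type} [Field Ω] [IsAlgClosed Ω] {G₁ G₂ : Type}
  [AddCommGroup G₁] [AddCommGroup G₂] {fr : Ω ≃+* Ω} {Q : ℕ}

namespace Ab

open Ti.Ig

variable {A : Ab Ω G₁} {B : Ab Ω G₂}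

theorem prF_mem {a : AddMonoid.End G₁} {b : AddMonoid.End G₂} (ha : a ∈ A.End) (hb : b ∈ B.End) :
    prF a b ∈ (A.prod B).End := by
  have h1 : RegM (A.prod B).B A.B (a ∘ AddMonoidHom.fst G₁ G₂) :=
    RegM.comp (A.ab0.mem_homR.1 fst_mem) (A.ab0.mem_endR.1 ha)
  have h2 : RegM (A.prod B).B B.B (b ∘ AddMonoidHom.snd G₁ G₂) :=
    RegM.comp (B.ab0.mem_homR.1 snd_mem) (B.ab0.mem_endR.1 hb)
  have e : (prF a b : G₁ × G₂ → G₁ × G₂) = fun t =>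
      ((a ∘ AddMonoidHom.fst G₁ G₂) t, (b ∘ AddMonoidHom.snd G₁ G₂) t) := rfl
  rw [Ab0.mem_endR, e]
  exact reg_pair h1 h2

omit [IsAlgClosed Ω] in
theorem end_hom {w : AddMonoid.End G₁} (h : w ∈ A.End) : (show G₁ →+ G₁ from w) ∈ A.Hom A :=
  A.ab0.mem_homR.2 (A.ab0.mem_endR.1 h)

theorem b21_mem {w : AddMonoid.End (G₁ × G₂)} (h : w ∈ (A.prod B).End) : b21 w ∈ A.Hom B := by
  unfold b21
  exact comp_mem (comp_mem inl_mem (end_hom h)) snd_mem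

theorem b12_mem {w : AddMonoid.End (G₁ × G₂)} (h : w ∈ (A.prod B).End) : b12 w ∈ B.Hom A := by
  unfold b12
  exact comp_mem (comp_mem inr_mem (end_hom h)) fst_mem

/-- the isogeny -/
theorem isog2 {Λ Γ Λ' Γ' : Type} [CommRing Λ] [Fintype Γ] [CommRing Λ'] [Fintype Γ']
    {act : Λ →+* AddMonoid.End G₁} {χ : Γ → Λ →+* ℂ} {act' : Λ' →+* AddMonoid.End G₂}
    {χ' : Γ' → Λ' →+* ℂ} (h : A.Sys act χ) (h' : B.Sys act' χ') {π : Λ} {π' : Λ'} (e : Γ ≃ Γ')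
    (he : ∀ ρ, χ' (e ρ) π' = χ ρ π) (hq : IsQ fr Q) (hF : A.Fr fr (act π))
    (hF' : B.Fr fr (act' π')) :
    ∃ (ψ : G₁ →+ G₂) (φ : G₂ →+ G₁) (m : ℕ), m ≠ 0 ∧ ψ ∈ A.Hom B ∧ φ ∈ B.Hom A ∧
      (∀ y, ψ (φ y) = m • y) ∧ (∀ x, φ (ψ x) = m • x) ∧ (∀ x, ψ (act π x) = act' π' (ψ x)) ∧
      ∀ y, φ (act' π' y) = act π (φ y) := by
  have hE : ∀ x y, prF (act x) (act' y) ∈ (A.prod B).End := fun x y => prF_mem (h.reg x) (h'.reg y)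
  obtain ⟨V, hV, -, hT⟩ := (A.prod B).ti hq ⟨_, hE π π'⟩ (hF.prod hF')
  obtain ⟨b⟩ := h.bas
  obtain ⟨b'⟩ := h'.bas
  have := hV.fin
  obtain ⟨w, hw, z, hz, m, hm, h1, h2, h3, h4⟩ := link_grp _ V hV.inj hV.ind b b' h.inj h'.inj
    h.faith h'.faith hE (by rw [hV.card, h.card, h'.card, ← mul_add]; rfl) e he fun M hM =>
      Submodule.span_mono (Set.image_subset_range _ _) (hT M hM)
  exact ⟨_, _, m, hm, b21_mem hw, b12_mem hz, h1, h2, h3, h4⟩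

end Ab

end Pool.Agent.Tav
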