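import Pool.Agent.P.MP_2ce3e7_ag.Tav.TiQuoC

/-! The model of the quotient by an isotropic subgroup. -/

set_option autoImplicit false

noncomputable section

namespace Pool.Agent.Tav.Ti.Quo

open Module

variable {Ω : Type} [Field Ω] {β : Type} [Fintype β] {Y : Type} [AddCommGroup Y]

/-- common eigenvectors -/
def Eig (K : AddSubgroup Y) (mu : Y → Y → Ω) (s : Y → Ω) : Prop :=
  ∀ k ∈ K, ∃ c : Ω, ∀ x, mu k x * s (x + k) = c * s x

/-- generators of the first system -/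
def genA (K : AddSubgroup Y) (mu : Y → Y → Ω) (S : Submodule Ω (Y → Ω)) (lam : Y × Y → Ω) :
    Set (Y → Ω) :=
  {f | ∃ s ∈ S, Eig K mu s ∧ ∃ a, f = fun x => lam (a, x) * (s (a + x) * s (a - x))}

/-- generators of the second system -/
def genB (S : Submodule Ω (Y → Ω)) (lam : Y × Y → Ω) : Set (Y → Ω) :=
  {f | ∃ s₁ ∈ S, ∃ s₂ ∈ S, ∃ a, f = fun x => lam (x, a) * (s₁ (x + a) * s₂ (x - a))}

theorem mem_of_eq {S : Submodule Ω (Y → Ω)} {f g : Y → Ω} (h : f ∈ S) (e : f = g) : g ∈ S := e ▸ h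

variable {B : β → LS Ω Y} {L : LS Ω Y} {lam : Y × Y → Ω} {K : AddSubgroup Y} {mu : Y → Y → Ω}
  {fr : Ω ≃+* Ω} {F : Y ≃+ Y} {η : Y → Ω} [IsAlgClosed Ω]

theorem Grp.exists_eig (h : Grp B) {N : ℕ} [Finite K]
    (hm : ∀ k ∈ K, Eqv B (mu k) (((∏ i, B i) ^ N).pb fun x => x + k) ((∏ i, B i) ^ N))
    (hi : ∀ k ∈ K, ∀ k' ∈ K, ∀ x, mu k x * mu k' (x + k) = mu k' x * mu k (x + k')) :
    ∃ d, ∃ s ∈ Gam (∏ i, B i) d N, s ≠ 0 ∧ Eig K mu s := by
  have hL := (reg_all B).pow N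
  obtain ⟨f, hf, hf0⟩ := ((∏ i, B i) ^ N).nv 0
  let T : K → (Y → Ω) →ₗ[Ω] (Y → Ω) := fun k =>
    LinearMap.mulLeft Ω (mu k) ∘ₗ (pbA Ω fun x => x + (k : Y)).toLinearMap
  have hT : ∀ k g x, T k g x = mu k x * g (x + k) := fun _ _ _ => rfl
  choose d hd using fun k : K => (hm k k.2).le_Gam h.cmp
  obtain ⟨D, hD⟩ := (Set.finite_range d).bddAbove
  have h1 : Submodule.span Ω (Set.range fun k => T k f) ≤ Gam (∏ i, B i) D N := by
    rw [Submodule.span_le]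
    rintro _ ⟨k, rfl⟩
    exact Gam_mono _ (hD ⟨k, rfl⟩) N (hd k ⟨_, ⟨f, hf, rfl⟩, rfl⟩)
  have := FiniteDimensional.span_of_finite Ω (Set.finite_range fun k => T k f)
  obtain ⟨s, hs, hs0, h2⟩ := exists_common_eig T (Submodule.span Ω (Set.range fun k => T k f))
    (by
      rw [Submodule.ne_bot_iff]
      refine ⟨_, Submodule.subset_span ⟨0, rfl⟩, fun e => ?_⟩
      have : T 0 f 0 = 0 := congrFun e 0
      rw [hT] at this
      exact mul_ne_zero ((hm _ K.zero_mem).ne 0) (by simpa using hf0) this)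
    (fun k v hv => by
      have : Submodule.span Ω (Set.range fun k => T k f) ≤
          (Submodule.span Ω (Set.range fun k => T k f)).comap (T k) := by
        rw [Submodule.span_le]
        rintro _ ⟨k', rfl⟩
        obtain ⟨c, -, hc⟩ := h.cocycle hL (hm k k.2) (hm k' k'.2) (hm _ (k + k').2)
        have e : T k (T k' f) = c • T (k + k') f := funext fun x => by
          rw [hT, hT, Pi.smul_apply, hT, smul_eq_mul, ← mul_assoc, hc, mul_assoc, add_assoc]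
          rfl
        change T k (T k' f) ∈ Submodule.span Ω _
        rw [e]
        exact Submodule.smul_mem _ _ (Submodule.subset_span ⟨_, rfl⟩)
      exact this hv)
    (fun k k' v => funext fun x => by
      rw [hT, hT, hT, hT, ← mul_assoc, hi k k.2 k' k'.2, mul_assoc, add_right_comm])
  refine ⟨D, s, h1 hs, hs0, fun k hk => ?_⟩
  obtain ⟨c, hc⟩ := h2 ⟨k, hk⟩
  exact ⟨c, fun x => congrFun hc x⟩

theorem Grp.genA_nv (h : Grp B) (hL : Reg B L) (hl : Law B L lam) {S : Submodule Ω (Y → Ω)}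
    (hS : SecS B L S) {s : Y → Ω} (hs : s ∈ S) (h0 : s ≠ 0) (he : Eig K mu s) (x : Y) :
    ∃ f ∈ Submodule.span Ω (genA K mu S lam), f x ≠ 0 := by
  have r1 := h.rtr (RegM.id B) x
  have r2 := h.rsub (RegM.id B) (regM_const B B x)
  obtain ⟨t, ht⟩ := Function.ne_iff.1 h0
  have := (hS.pb r1).nzd h.dom (r1.pull hL) (r2.pull hL) (hS.pb r2) ⟨s, hs, rfl⟩ ⟨s, hs, rfl⟩
    (Function.ne_iff.2 ⟨t - x, by simpa using ht⟩) (Function.ne_iff.2 ⟨t + x, by simpa using ht⟩)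
  obtain ⟨a, ha⟩ := Function.ne_iff.1 this
  exact ⟨_, Submodule.subset_span ⟨s, hs, he, a, rfl⟩, mul_ne_zero (hl.ne _) ha⟩

theorem Grp.genA_inv (h : Grp B) (hL : Reg B L) (hl : Law B L lam) (S : Submodule Ω (Y → Ω))
    (hm : ∀ k ∈ K, Eqv B (mu k) (L.pb fun x => x + k) L) :
    K ≤ stab (Submodule.span Ω (genA K mu S lam)) := by
  intro k hk
  obtain ⟨c, hc, e⟩ := h.unit_b hL hl (hm k hk)
  have h0 := (hm k hk).ne
  refine ⟨fun x => c / mu k x ^ 2, inv_span (fun x => div_ne_zero hc (pow_ne_zero _ (h0 x))) ?_⟩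
  rintro _ ⟨s, -, he, a, rfl⟩ x
  obtain ⟨χ, hχ⟩ := he k hk
  have e1 := hχ (a + x)
  have e2 := hχ (a - (x + k))
  rw [show a - (x + k) + k = a - x by abel] at e2
  rw [add_assoc] at e1
  have e3 := e a x
  have n1 := h0 x
  have n2 := h0 (a + x)
  have n3 := h0 (a - (x + k))
  change lam (a, x + k) * (s (a + (x + k)) * s (a - (x + k))) = _
  field_simp
  apply mul_left_cancel₀ (mul_ne_zero n2 n3)
  linear_combination (mu k x ^ 2 * lam (a, x + k) * mu k (a - (x + k)) * s (a - (x + k))) * e1 -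
    (mu k x ^ 2 * lam (a, x + k) * mu k (a - (x + k)) * s (a + x)) * e2 +
    (mu k (a - (x + k)) * s (a + x) * s (a - x)) * e3

omit [IsAlgClosed Ω] in
theorem genB_nv (R : LS Ω Y) (hl : ∀ t, lam t ≠ 0) (x : Y) :
    ∃ f ∈ Submodule.span Ω (genB R.sp lam), f x ≠ 0 := by
  obtain ⟨s, hs, h0⟩ := R.nv x
  refine ⟨_, Submodule.subset_span ⟨s, hs, s, hs, 0, rfl⟩, mul_ne_zero (hl _) ?_⟩
  simpa using h0

theorem Grp.genB_iff (h : Grp B) (hL : Reg B L) (hl : Law B L lam) {R : LS Ω Y}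
    (hR : Eqv B 1 R L) (x y : Y) :
    (∃ c : Ω, ∀ f ∈ Submodule.span Ω (genB R.sp lam), f y = c * f x) ↔ y - x ∈ stab R.sp := by
  constructor
  · rintro ⟨c, hc⟩
    choose s hs h0 using R.nv
    have key : ∀ t, ∀ f ∈ R.sp, f (t + (y - x)) =
        c * (lam (x, t - x) * s (y - (t - x)) (x - (t - x))) /
          (lam (y, t - x) * s (y - (t - x)) (y - (t - x))) * f t := by
      intro t f hf
      have := hc _ (Submodule.subset_span ⟨f, hf, _, hs (y - (t - x)), t - x, rfl⟩)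
      rw [show y + (t - x) = t + (y - x) by abel, show x + (t - x) = t by abel] at this
      have n1 := hl.ne (y, t - x)
      have n2 := h0 (y - (t - x))
      field_simp
      linear_combination this
    refine ⟨_, fun t e => ?_, fun f hf t => key t f hf⟩
    have := key t _ (hs (t + (y - x)))
    rw [e, zero_mul] at this
    exact h0 _ this
  · rintro ⟨g, g0, hg⟩
    have e1 : Eqv B g⁻¹ (R.pb fun t => t + (y - x)) R := by
      refine (Eqv.of_map B g0 (le_antisymm ?_ ?_)).symm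
      · rintro _ ⟨f, hf, rfl⟩
        exact ⟨f, hf, funext fun t => hg f hf t⟩
      · rintro _ ⟨f, hf, rfl⟩
        exact ⟨f, hf, funext fun t => (hg f hf t).symm⟩
    have e2 := ((hR.pb _ (h.rtr (RegM.id B) (y - x))).symm.trans e1).trans hR
    have e3 : Eqv B g⁻¹ (L.pb fun t => t + (y - x)) L :=
      e2.congr (funext fun t => by simp) rfl rfl
    obtain ⟨c, -, e⟩ := h.unit_c hL hl e3
    refine ⟨c * g x ^ 2, fun f hf => ?_⟩
    induction hf using Submodule.span_induction with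
    | mem f hf =>
      obtain ⟨s₁, h₁, s₂, h₂, a, rfl⟩ := hf
      have a1 := hg s₁ h₁ (x + a)
      have a2 := hg s₂ h₂ (x - a)
      have a3 := e x a
      rw [show x + a + (y - x) = y + a by abel] at a1
      rw [show x - a + (y - x) = y - a by abel] at a2
      rw [show x + (y - x) = y by abel] at a3
      simp only [Pi.inv_apply] at a3
      have n1 := g0 x
      have n2 := g0 (x + a)
      have n3 := g0 (x - a)
      field_simp at a3
      change lam (y, a) * (s₁ (y + a) * s₂ (y - a)) = _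
      rw [a1, a2]
      linear_combination (s₁ (x + a) * s₂ (x - a)) * a3
    | zero => simp
    | add f f' _ _ hf hf' => simp only [Pi.add_apply, hf, hf', mul_add]
    | smul c' f _ hf => simp only [Pi.smul_apply, smul_eq_mul, hf]; ring

theorem Grp.genA_cj (h : Grp B) (hL : Reg B L) (hl : Law B L lam) {S : Submodule Ω (Y → Ω)}
    (hm : ∀ k ∈ K, Eqv B (mu k) (L.pb fun x => x + k) L)
    (hF : ∀ b, Reg B (cjL fr F.toEquiv (B b))) (hη : Sc η (cjL fr F.toEquiv L) L)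
    (hK : ∀ k' ∈ K, ∃ k ∈ K, F k = k') (hS : ∀ s ∈ S, η * cj fr F.toEquiv s ∈ S) :
    ∀ f ∈ Submodule.span Ω (genA K mu S lam),
      η ^ 2 * cj fr F.toEquiv f ∈ Submodule.span Ω (genA K mu S lam) := by
  obtain ⟨c, -, e⟩ := h.law_cj hL hl hF hη
  refine span_cj ?_
  rintro _ ⟨s, hs, he, a, rfl⟩
  have he' : Eig K mu (η * cj fr F.toEquiv s) := by
    intro k' hk'
    obtain ⟨k, hk, rfl⟩ := hK k' hk'
    obtain ⟨c', hc', e'⟩ := h.mu_cj hL (hm k hk) (hm _ hk') hF hη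
    obtain ⟨χ, hχ⟩ := he k hk
    refine ⟨fr χ / c', fun x => ?_⟩
    have a1 := congrArg fr (hχ (F.symm x))
    rw [map_mul, map_mul] at a1
    have a2 := e' x
    change mu (F k) x * (η (x + F k) * fr (s (F.symm (x + F k)))) =
      fr χ / c' * (η x * fr (s (F.symm x)))
    rw [map_add, F.symm_apply_apply]
    field_simp
    linear_combination (η x) * a1 - fr (s (F.symm x + k)) * a2
  have hm' := Submodule.smul_mem _ (c / η (F a) ^ 2)
    (Submodule.subset_span (R := Ω) (s := genA K mu S lam) ⟨_, hS s hs, he', F a, rfl⟩)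
  refine mem_of_eq hm' (funext fun x => ?_)
  have a1 := e (F a) x
  have n1 := hη.1 (F a)
  change c / η (F a) ^ 2 * (lam (F a, x) * (η (F a + x) * fr (s (F.symm (F a + x))) *
      (η (F a - x) * fr (s (F.symm (F a - x)))))) =
    η x ^ 2 * fr (lam (a, F.symm x) * (s (a + F.symm x) * s (a - F.symm x)))
  rw [F.symm_apply_apply] at a1
  rw [map_add, map_sub, F.symm_apply_apply, map_mul, map_mul]
  field_simp
  linear_combination (-(fr (s (a + F.symm x)) * fr (s (a - F.symm x)))) * a1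

theorem Grp.genB_cj (h : Grp B) (hL : Reg B L) (hl : Law B L lam) {S : Submodule Ω (Y → Ω)}
    (hF : ∀ b, Reg B (cjL fr F.toEquiv (B b))) (hη : Sc η (cjL fr F.toEquiv L) L)
    (hS : ∀ s ∈ S, η * cj fr F.toEquiv s ∈ S) :
    ∀ f ∈ Submodule.span Ω (genB S lam),
      η ^ 2 * cj fr F.toEquiv f ∈ Submodule.span Ω (genB S lam) := by
  obtain ⟨c, -, e⟩ := h.law_cj hL hl hF hη
  refine span_cj ?_
  rintro _ ⟨s₁, h₁, s₂, h₂, a, rfl⟩
  have hm' := Submodule.smul_mem _ (c / η (F a) ^ 2)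
    (Submodule.subset_span (R := Ω) (s := genB S lam) ⟨_, hS s₁ h₁, _, hS s₂ h₂, F a, rfl⟩)
  refine mem_of_eq hm' (funext fun x => ?_)
  have a1 := e x (F a)
  have n1 := hη.1 (F a)
  change c / η (F a) ^ 2 * (lam (x, F a) * (η (x + F a) * fr (s₁ (F.symm (x + F a))) *
      (η (x - F a) * fr (s₂ (F.symm (x - F a)))))) =
    η x ^ 2 * fr (lam (F.symm x, a) * (s₁ (F.symm x + a) * s₂ (F.symm x - a)))
  rw [F.symm_apply_apply] at a1
  rw [map_add, map_sub, F.symm_apply_apply, map_mul, map_mul]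
  field_simp
  linear_combination (-(fr (s₁ (F.symm x + a)) * fr (s₂ (F.symm x - a)))) * a1

/-- QUOT, with the factor of the conjugation -/
theorem Grp.quot' (h : Grp B) (hl : Law B (∏ i, B i) lam) (N : ℕ) [Finite K]
    (hm : ∀ k ∈ K, Eqv B (mu k) (((∏ i, B i) ^ N).pb fun x => x + k) ((∏ i, B i) ^ N))
    (hi : ∀ k ∈ K, ∀ k' ∈ K, ∀ x, mu k x * mu k' (x + k) = mu k' x * mu k (x + k'))
    (rF : ∀ b, Reg B (cjL fr F.toEquiv (B b)))
    (hη : Sc η (cjL fr F.toEquiv (∏ i, B i)) (∏ i, B i)) (hK : ∀ k ∈ K, F k ∈ K) :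
    ∃ (R : LS Ω Y) (K₂ : AddSubgroup Y), K ≤ K₂ ∧ Reg B R ∧ Eqv B 1 R ((∏ i, B i) ^ (4 * N)) ∧
      (∃ d, R.sp ≤ Gam (∏ i, B i) d (4 * N)) ∧
      (∀ x y, (∃ c : Ω, ∀ f ∈ R.sp, f y = c * f x) ↔ y - x ∈ K₂) ∧
      (R.pb F).sp = (R.tw fr).sp.map
        (LinearMap.mulLeft Ω fun x => ((η ^ (2 * N)) ^ 2) (F x)) := by
  have hH := reg_all B
  obtain ⟨d, s, hs, s0, he⟩ := h.exists_eig hm hi
  have l1 := hl.pow N
  have l2 := hl.pow (2 * N)
  obtain ⟨d₁, h₁⟩ := h.phi l1 d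
  have g₁ : Submodule.span Ω (genA K mu (Gam (∏ i, B i) d N) (lam ^ N)) ≤
      Gam (∏ i, B i) d₁ (2 * N) := by
    rw [Submodule.span_le]
    rintro _ ⟨t, ht, -, a, rfl⟩
    exact (h₁ t ht t ht a).1
  have := fd_Gam h.dom hH d₁ (2 * N)
  let R₁ : LS Ω Y := ⟨_, Submodule.finiteDimensional_of_le g₁,
    h.genA_nv (hH.pow N) l1 (secS_gam hH d N) hs s0 he⟩
  have q₁ : Eqv B 1 R₁ ((∏ i, B i) ^ (2 * N)) := h.cmp.bpf g₁
  obtain ⟨d₂, h₂⟩ := h.phi l2 d₁
  have g₂ : Submodule.span Ω (genB R₁.sp (lam ^ (2 * N))) ≤ Gam (∏ i, B i) d₂ (4 * N) := by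
    rw [Submodule.span_le, show 4 * N = 2 * (2 * N) by ring]
    rintro _ ⟨t, ht, t', ht', a, rfl⟩
    exact (h₂ t (g₁ ht) t' (g₁ ht') a).2
  have := fd_Gam h.dom hH d₂ (4 * N)
  let R₂ : LS Ω Y := ⟨_, Submodule.finiteDimensional_of_le g₂, genB_nv R₁ l2.ne⟩
  have hη' : ∀ n, Sc (η ^ n) (cjL fr F.toEquiv ((∏ i, B i) ^ n)) ((∏ i, B i) ^ n) := fun n => by
    rw [cjL_pow]; exact hη.pow n
  have hK' : ∀ k' ∈ K, ∃ k ∈ K, F k = k' := by
    intro k' hk'
    have : Function.Injective fun k : K => (⟨F k, hK k k.2⟩ : K) :=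
      fun a b e => Subtype.ext (F.injective (congrArg Subtype.val e))
    obtain ⟨k, hk⟩ := Finite.surjective_of_injective this ⟨k', hk'⟩
    exact ⟨k, k.2, congrArg Subtype.val hk⟩
  have c₁ := h.genA_cj (S := Gam (∏ i, B i) d N) (hH.pow N) l1 hm rF (hη' N) hK' fun t ht => gam_cj hη ht
  rw [← pow_mul, mul_comm N] at c₁
  have c₂ := h.genB_cj (S := R₁.sp) (hH.pow (2 * N)) l2 rF (hη' (2 * N)) c₁
  exact ⟨R₂, stab R₁.sp, h.genA_inv (hH.pow N) l1 _ hm, Reg.of_le_Gam hH g₂, h.cmp.bpf g₂,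
    ⟨d₂, g₂⟩, h.genB_iff (hH.pow _) l2 q₁,
    eq_of_keep fr F.toEquiv R₂ (fun x => pow_ne_zero _ ((hη' _).1 x)) c₂⟩

/-- QUOT -/
theorem Grp.quot (h : Grp B) (hl : Law B (∏ i, B i) lam) (N : ℕ) [Finite K]
    (hm : ∀ k ∈ K, Eqv B (mu k) (((∏ i, B i) ^ N).pb fun x => x + k) ((∏ i, B i) ^ N))
    (hi : ∀ k ∈ K, ∀ k' ∈ K, ∀ x, mu k x * mu k' (x + k) = mu k' x * mu k (x + k'))
    (hF : ∀ b, ((B b).tw fr).Sim ((B b).pb F)) (hK : ∀ k ∈ K, F k ∈ K) :
    ∃ (R : LS Ω Y) (K₂ : AddSubgroup Y), K ≤ K₂ ∧ Reg B R ∧ Eqv B 1 R ((∏ i, B i) ^ (4 * N)) ∧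
      (∃ d, R.sp ≤ Gam (∏ i, B i) d (4 * N)) ∧
      (∀ x y, (∃ c : Ω, ∀ f ∈ R.sp, f y = c * f x) ↔ y - x ∈ K₂) ∧
      (R.tw fr).Sim (R.pb F) := by
  have s1 : ∀ b, (cjL fr F.toEquiv (B b)).Sim (B b) := fun b => sim_cjL (hF b)
  obtain ⟨η, hη⟩ := sim_prod Finset.univ s1
  rw [← cjL_prod] at hη
  obtain ⟨R, K₂, h1, h2, h3, h4, h5, h6⟩ := h.quot' hl N hm hi
    (fun b => (Reg.self B b).sim (s1 b).symm) hη hK
  exact ⟨R, K₂, h1, h2, h3, h4, h5, _, fun x => pow_ne_zero _ (pow_ne_zero _ (hη.1 _)), h6⟩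

end Pool.Agent.Tav.Ti.Quo
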