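import Pool.Agent.P.MP_2ce3e7_ag.Tav.TiATh
import Pool.Agent.P.MP_2ce3e7_ag.Tav.TiQuo

/-! The quotient model for a polarised variety. -/

set_option autoImplicit false

noncomputable section

namespace Pool.Agent.Tav

open MvPolynomial Module Function

variable {Ω : Type} [Field Ω] [IsAlgClosed Ω] {T γ : Type} [Fintype γ] {G G₁ G₂ : Type}
  [AddCommGroup G] [AddCommGroup G₁] [AddCommGroup G₂] {fr : Ω ≃+* Ω} {Q : ℕ}

namespace Ab

/-- QUOT -/
theorem quot (A : Ab Ω G) {F : G →+ G} (h : A.Fr fr F) {N : ℕ} (hN : Odd N) (K : AddSubgroup G)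
    [Finite K] (hK : ∀ k ∈ K, N • k = 0) (iso : ∀ k ∈ K, ∀ k' ∈ K, A.e N k k' = 1)
    (hF : ∀ k ∈ K, F k ∈ K) : ∃ (R : LS Ω G) (K' : AddSubgroup G), K ≤ K' ∧
      A.Quo fr F (4 * N) R K' := by
  have g : Ti.Quo.Grp A.B := ⟨A.cmp, A.src.dom, (A.src.prod A.src).dom, A.sub⟩
  have e : ∏ i, A.B i = A.H := Fintype.prod_unique _
  let F' : G ≃+ G := AddEquiv.ofBijective F h.1
  have e1 : Ti.Quo.cjL fr F'.toEquiv A.H = A.H := by
    rw [Ti.Quo.cjL, ← h.2, LS.pb_pb]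
    exact (congrArg (fun j => A.H.pb j) F'.toEquiv.self_comp_symm).trans (LS.pb_id _)
  obtain ⟨R, K', h1, h2, h3, -, h5, h6⟩ := g.quot' (K := K) (mu := A.mu N) (fr := fr) (F := F')
    (η := 1) (lam := A.lam) (by rw [e]; exact A.law_eqv) N
    (fun k hk => by rw [e]; exact A.mu_eqv hN (hK k hk))
    (fun k hk k' hk' x => by rw [A.mu_comm hN (hK k hk) (hK k' hk'), iso k hk k' hk', one_mul])
    (fun b => e1.symm ▸ Reg.self A.B b)
    (by
      rw [e, e1]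
      exact ⟨fun _ => one_ne_zero, by rw [LinearMap.mulLeft_one, Submodule.map_id]⟩) hF
  refine ⟨R, K', h1, h2, e ▸ h3, LS.ext' ?_, fun x y => ?_⟩
  · rw [one_pow, one_pow] at h6
    refine h6.trans ?_
    exact (congrArg (fun m => (R.tw fr).sp.map m) (LinearMap.mulLeft_one Ω _)).trans
      (Submodule.map_id _)
  · rw [← h5]
    refine ⟨fun ⟨c, _, hc⟩ => ⟨c, hc⟩, fun ⟨c, hc⟩ => ⟨c, fun c0 => ?_, hc⟩⟩
    obtain ⟨u, hu, h0⟩ := R.nv y
    exact h0 (by rw [hc u hu, c0, zero_mul])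

end Ab

end Pool.Agent.Tav
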