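import Pool.Agent.P.MP_2ce3e7_ag.Tav.TiEqv
import Pool.Agent.P.MP_2ce3e7_ag.Tav.TiKey
import Pool.Agent.P.MP_2ce3e7_ag.Tav.AExp
import Pool.Agent.P.MP_2ce3e7_ag.Tav.Defs

/-! The theta group of a system with a parallelogram law, and its commutator pairing. -/

set_option autoImplicit false

noncomputable section

namespace Pool.Agent.Tav.Ti

open MvPolynomial Module

variable {Ω : Type} [Field Ω] {G G' : Type} [AddCommGroup G] [AddCommGroup G'] {β γ : Type}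
  [Fintype β] [Fintype γ] {B : β → LS Ω G} {H H' : LS Ω G}

theorem pb_const {T Y : Type} (V : LS Ω Y) (a : Y) : V.pb (fun _ : T => a) = 1 := by
  refine LS.ext' (le_antisymm ?_ ?_)
  · rintro _ ⟨u, -, rfl⟩
    exact Submodule.mem_one.2 ⟨u a, rfl⟩
  · obtain ⟨u, hu, h⟩ := V.nv a
    exact Submodule.one_le.2 ⟨(u a)⁻¹ • u, V.sp.smul_mem _ hu, funext fun _ => inv_mul_cancel₀ h⟩

/-- the parallelogram law with its multiplier -/
def LawE (B : β → LS Ω G) (H : LS Ω G) (lam : G × G → Ω) : Prop :=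
  Eqv (prodB B B) lam ((H.pb fun t : G × G => t.1 + t.2) * H.pb fun t : G × G => t.1 - t.2)
    (H.pb Prod.fst ^ 2 * H.pb Prod.snd ^ 2)

theorem law_of_parL (hH : Reg B H) (h : ParL H) : ∃ lam, LawE B H lam := by
  obtain ⟨lam, h2, h1⟩ := h
  refine ⟨lam, ((Eqv.of_bpf h1 h2 (U := (H.pb fun t : G × G => t.1 + t.2) *
    H.pb fun t : G × G => t.1 - t.2) rfl).base
      (Fin.forall_fin_two.2 ⟨hH.fst B, Reg.snd B hH⟩)).congr rfl rfl ?_⟩
  simp [pcL]

theorem law_of_parLaw (hH : Reg B H) (h : ParLaw H) : ∃ lam, LawE B H lam := by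
  obtain ⟨U, lam, h1, h2, h3⟩ := h
  refine ⟨lam, ((Eqv.of_bpf h1 h2 (U := (H.pb fun t : G × G => t.1 + t.2) *
    H.pb fun t : G × G => t.1 - t.2) (by rw [h3]; simp [pc])).base
      (Fin.forall_fin_two.2 ⟨hH.fst B, Reg.snd B hH⟩)).congr rfl rfl ?_⟩
  simp [pcL]

theorem LawE.mul {l l' : G × G → Ω} (h : LawE B H l) (h' : LawE B H' l') : LawE B (H * H') (l * l') :=
  (Eqv.mul h h').congr rfl (by simp only [LS.pb_mul]; ac_rfl)
    (by simp only [LS.pb_mul, mul_pow]; ac_rfl)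

theorem LawE.pow {l : G × G → Ω} (h : LawE B H l) (n : ℕ) : LawE B (H ^ n) (l ^ n) :=
  (Eqv.pow h n).congr rfl (by simp only [LS.pb_pow, mul_pow])
    (by simp only [LS.pb_pow, mul_pow, ← pow_mul, mul_comm n])

theorem LawE.prod {ι : Type} {s : Finset ι} {V : ι → LS Ω G} {l : ι → G × G → Ω}
    (h : ∀ i ∈ s, LawE B (V i) (l i)) : LawE B (∏ i ∈ s, V i) (∏ i ∈ s, l i) :=
  (Eqv.prod (s := s) h).congr rfl (by simp only [LS.pb_prod, Finset.prod_mul_distrib])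
    (by simp only [LS.pb_prod, Finset.prod_mul_distrib, Finset.prod_pow])

/-- the law passes to pull-backs along regular additive maps -/
theorem LawE.pb {C : γ → LS Ω G'} {V : LS Ω G'} {l : G' × G' → Ω} (h : LawE C V l) (f : G →+ G')
    (hf : RegM B C f) : LawE B (V.pb f) fun t => l (f t.1, f t.2) :=
  (Eqv.pb h (Prod.map f f) (hf.prodMap hf)).congr rfl
    (by simp only [LS.pb_mul, LS.pb_pb, Function.comp_def, Prod.map_fst, Prod.map_snd, map_add,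
      map_sub])
    (by simp only [LS.pb_mul, LS.pb_pow, LS.pb_pb]; rfl)

/-- the law on a product -/
theorem LawE.box {C : γ → LS Ω G'} {V : LS Ω G'} {l : G × G → Ω} {l' : G' × G' → Ω}
    (h : LawE B H l) (h' : LawE C V l') : LawE (prodB B C) (H.pb Prod.fst * V.pb Prod.snd)
      fun t => l (t.1.1, t.2.1) * l' (t.1.2, t.2.2) :=
  (h.pb (AddMonoidHom.fst G G') (RegM.fst B C)).mul (h'.pb (AddMonoidHom.snd G G') (RegM.snd B C))

/-- the law along two regular maps -/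
theorem LawE.along {T : Type} {C : γ → LS Ω T} {l : G × G → Ω} (h : LawE B H l) {u v : T → G}
    (hu : RegM C B u) (hv : RegM C B v) : Eqv C (fun t => l (u t, v t))
      ((H.pb fun t => u t + v t) * H.pb fun t => u t - v t) (H.pb u ^ 2 * H.pb v ^ 2) :=
  (Eqv.pb h (fun t => (u t, v t)) (hu.pair hv)).congr rfl
    (by simp only [LS.pb_mul, LS.pb_pb]; rfl) (by simp only [LS.pb_mul, LS.pb_pow, LS.pb_pb]; rfl)

/-- an irreducible group with regular translations and a regular system -/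
structure ThB (B : β → LS Ω G) (H : LS Ω G) : Prop where
  dom : Dom B
  reg : Reg B H
  tr : ∀ a, RegM B B (· + a)

theorem ThB.tw (h : ThB B H) (a : Ω ≃+* Ω) : ThB (fun b => (B b).tw a) (H.tw a) :=
  ⟨h.dom.tw a, h.reg.tw a, fun x b => by rw [← LS.tw_pb]; exact (h.tr x b).tw a⟩

theorem ThB.box {C : γ → LS Ω G'} {V : LS Ω G'} (h : ThB B H) (h' : ThB C V) :
    ThB (prodB B C) (H.pb Prod.fst * V.pb Prod.snd) :=
  ⟨h.dom.prod h'.dom, (h.reg.fst C).mul (Reg.snd B h'.reg), fun a => by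
    rw [show (fun x : G × G' => x + a) = Prod.map (· + a.1) (· + a.2) from rfl]
    exact (h.tr a.1).prodMap (h'.tr a.2)⟩

/-- the theorem of the square, in the form given by the law -/
theorem ThB.square (h : ThB B H) {l : G × G → Ω} (hl : LawE B H l) (x a : G) :
    Eqv B (fun t => l (t + x, a)) (H.pb (· + (x + a)) * H.pb (· + (x - a))) (H.pb (· + x) ^ 2) :=
  (hl.along (h.tr x) (regM_const B B a)).congr rfl
    (by simp only [add_assoc, add_sub_assoc]) (by rw [pb_const, one_pow, mul_one])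

theorem ThB.nsmul (h : ThB B H) {l : G × G → Ω} (hl : LawE B H l) (k : G) (n : ℕ) :
    ∃ m, Eqv B m (H.pb (· + k) ^ n * H) (H.pb (· + n • k) * H ^ n) := by
  have e0 : H.pb (· + (0 : G)) = H := by simp only [add_zero]; exact H.pb_id
  induction n using Nat.twoStepInduction with
  | zero => exact ⟨1, (Eqv.refl B H).congr rfl (by simp) (by rw [zero_smul, e0, pow_zero, mul_one])⟩
  | one => exact ⟨1, (Eqv.refl B _).congr rfl rfl (by simp)⟩
  | more n h0 h1 =>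
    obtain ⟨m0, h0⟩ := h0
    obtain ⟨m1, h1⟩ := h1
    have h2 := h.square hl ((n + 1) • k) k
    rw [← succ_nsmul, succ_nsmul k n, add_sub_cancel_right, ← succ_nsmul] at h2
    have e1 : ∀ a : LS Ω G, (a ^ (n + 1) * H) ^ 2 = a ^ (n + 2) * H * (a ^ n * H) := fun a => by
      simp only [pow_succ, pow_zero, one_mul]; ac_rfl
    have e2 : ∀ a : LS Ω G, a ^ 2 * (H ^ (n + 2) * H ^ n) = (a * H ^ (n + 1)) ^ 2 := fun a => by
      simp only [pow_succ, pow_zero, one_mul]; ac_rfl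
    have h3 := ((((Eqv.refl B (H.pb (· + k) ^ (n + 2) * H)).mul h0.symm).trans
      ((h1.pow 2).congr rfl (e1 _) rfl)).trans
        ((h2.symm.mul (Eqv.refl B (H ^ (n + 2) * H ^ n))).congr rfl (e2 _) rfl))
    exact ⟨_, Eqv.cancel (h3.congr rfl rfl (by ac_rfl))
      (((h.tr (n • k)).pull h.reg).mul (h.reg.pow n))⟩

/-- `m` is a theta multiplier of level `N` for the translation by `k` -/
def Mu (B : β → LS Ω G) (H : LS Ω G) (N : ℕ) (k : G) (m : G → Ω) : Prop :=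
  Eqv B m ((H ^ N).pb (· + k)) (H ^ N)

variable {N : ℕ} {k k' k₁ : G} {m m' m₁ : G → Ω} {c c' : Ω}

theorem ThB.exists_mu (h : ThB B H) {l : G × G → Ω} (hl : LawE B H l) (hk : N • k = 0) :
    ∃ m, Mu B H N k m := by
  obtain ⟨m, hm⟩ := h.nsmul hl k N
  have e0 : H.pb (· + (0 : G)) = H := by simp only [add_zero]; exact H.pb_id
  rw [hk, e0, mul_comm H, ← LS.pb_pow] at hm
  exact ⟨m, hm.cancel h.reg⟩

theorem Mu.ne (h : Mu B H N k m) (x : G) : m x ≠ 0 := h.1 x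

theorem mu_zero (B : β → LS Ω G) (H : LS Ω G) (N : ℕ) : Mu B H N 0 1 :=
  (Eqv.refl B _).congr rfl (by simp only [add_zero]; exact (LS.pb_id _).symm) rfl

theorem Mu.add (hB : ThB B H) (h : Mu B H N k m) (h' : Mu B H N k' m') :
    Mu B H N (k + k') fun x => m x * m' (x + k) :=
  ((Eqv.pb h' (· + k) (hB.tr k)).trans h).congr rfl
    (by rw [LS.pb_pb]; simp only [Function.comp_def, add_assoc]) rfl

theorem Mu.unit [IsAlgClosed Ω] (hB : ThB B H) (h : Mu B H N k m) (h' : Mu B H N k m') :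
    ∃ c, c ≠ 0 ∧ ∀ x, m x = c * m' x := by
  obtain ⟨c, h0, e⟩ := Eqv.unit hB.dom ((hB.tr k).pull (hB.reg.pow N)) h h'
  exact ⟨c, h0, congrFun e⟩

theorem Mu.mul (h : Mu B H N k m) (h' : Mu B H' N k m') : Mu B (H * H') N k (m * m') :=
  (Eqv.mul h h').congr rfl (by rw [mul_pow, LS.pb_mul]) (mul_pow _ _ _).symm

theorem Mu.pow (h : Mu B H N k m) (a : ℕ) : Mu B (H ^ a) N k (m ^ a) :=
  (Eqv.pow h a).congr rfl (by rw [← LS.pb_pow, ← pow_mul, ← pow_mul, mul_comm])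
    (by rw [← pow_mul, ← pow_mul, mul_comm])

theorem Mu.level (h : Mu B H N k m) (a : ℕ) : Mu B H (N * a) k (m ^ a) :=
  (Eqv.pow h a).congr rfl (by rw [← LS.pb_pow, ← pow_mul]) (pow_mul _ _ _).symm

theorem Mu.pb {C : γ → LS Ω G'} (f : G' →+ G) (hf : RegM C B f) {a : G'} (h : Mu B H N (f a) m) :
    Mu C (H.pb f) N a fun x => m (f x) :=
  (Eqv.pb h f hf).congr rfl
    (by simp only [← LS.pb_pow, LS.pb_pb, Function.comp_def, map_add]) (LS.pb_pow _ _ _)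

theorem Mu.base {C : γ → LS Ω G} (h : Mu B H N k m) (hC : ∀ b, Reg C (B b)) : Mu C H N k m :=
  Eqv.base h hC

theorem Mu.tw (h : Mu B H N k m) (a : Ω ≃+* Ω) :
    Mu (fun b => (B b).tw a) (H.tw a) N k fun x => a (m x) :=
  (Eqv.tw h a).congr rfl (by rw [LS.tw_pb, LS.tw_pow]) (LS.tw_pow _ _ _)

theorem Mu.eqv (ht : RegM B B (· + k)) {r : G → Ω} (e : Eqv B r H H') (h : Mu B H N k m) :
    Mu B H' N k fun x => r x ^ N * (m x * (r (x + k) ^ N)⁻¹) :=
  (((Eqv.pb (e.pow N) (· + k) ht).symm.trans h).trans (e.pow N)).congr rfl rfl rfl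

/-- the theta operators of `k` and `k₁` commute up to the factor `c` -/
def Cm (B : β → LS Ω G) (H : LS Ω G) (N : ℕ) (k k₁ : G) (c : Ω) : Prop :=
  ∃ m m₁, Mu B H N k m ∧ Mu B H N k₁ m₁ ∧ ∀ x, m x * m₁ (x + k) = c * (m₁ x * m (x + k₁))

theorem Cm.ne (h : Cm B H N k k₁ c) : c ≠ 0 := by
  obtain ⟨n, n₁, g0, g1, e⟩ := h
  exact left_ne_zero_of_mul (e 0 ▸ mul_ne_zero (g0.ne 0) (g1.ne _))

theorem Cm.all [IsAlgClosed Ω] (hB : ThB B H) (h : Cm B H N k k₁ c) (h0 : Mu B H N k m)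
    (h1 : Mu B H N k₁ m₁) (x : G) : m x * m₁ (x + k) = c * (m₁ x * m (x + k₁)) := by
  obtain ⟨n, n₁, g0, g1, e⟩ := h
  obtain ⟨a, -, ha⟩ := h0.unit hB g0
  obtain ⟨b, -, hb⟩ := h1.unit hB g1
  simp only [ha, hb]
  linear_combination a * b * e x

theorem Cm.unique [IsAlgClosed Ω] (hB : ThB B H) (h : Cm B H N k k₁ c) (h' : Cm B H N k k₁ c') :
    c = c' := by
  obtain ⟨n, n₁, g0, g1, e⟩ := h'
  exact mul_right_cancel₀ (mul_ne_zero (g1.ne 0) (g0.ne _)) ((h.all hB g0 g1 0).symm.trans (e 0))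

theorem exists_cm [IsAlgClosed Ω] (hB : ThB B H) (h0 : Mu B H N k m) (h1 : Mu B H N k₁ m₁) :
    ∃ c, Cm B H N k k₁ c := by
  obtain ⟨c, -, e⟩ := (h0.add hB h1).unit hB (add_comm k k₁ ▸ h1.add hB h0)
  exact ⟨c, m, m₁, h0, h1, e⟩

theorem Cm.mul (h : Cm B H N k k₁ c) (h' : Cm B H' N k k₁ c') : Cm B (H * H') N k k₁ (c * c') := by
  obtain ⟨n, n₁, g0, g1, e⟩ := h
  obtain ⟨n', n₁', g0', g1', e'⟩ := h'
  refine ⟨_, _, g0.mul g0', g1.mul g1', fun x => ?_⟩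
  simp only [Pi.mul_apply]
  rw [mul_mul_mul_comm, e, e']; ring

theorem Cm.pow (h : Cm B H N k k₁ c) (a : ℕ) : Cm B (H ^ a) N k k₁ (c ^ a) := by
  obtain ⟨n, n₁, g0, g1, e⟩ := h
  exact ⟨_, _, g0.pow a, g1.pow a, fun x => by simp only [Pi.pow_apply, ← mul_pow, e]⟩

theorem Cm.level (h : Cm B H N k k₁ c) (a : ℕ) : Cm B H (N * a) k k₁ (c ^ a) := by
  obtain ⟨n, n₁, g0, g1, e⟩ := h
  exact ⟨_, _, g0.level a, g1.level a, fun x => by simp only [Pi.pow_apply, ← mul_pow, e]⟩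

theorem Cm.pb {C : γ → LS Ω G'} (f : G' →+ G) (hf : RegM C B f) {a a₁ : G'}
    (h : Cm B H N (f a) (f a₁) c) : Cm C (H.pb f) N a a₁ c := by
  obtain ⟨n, n₁, g0, g1, e⟩ := h
  exact ⟨_, _, g0.pb f hf, g1.pb f hf, fun x => by simp only [map_add, e]⟩

theorem Cm.base {C : γ → LS Ω G} (h : Cm B H N k k₁ c) (hC : ∀ b, Reg C (B b)) :
    Cm C H N k k₁ c := by
  obtain ⟨n, n₁, g0, g1, e⟩ := h
  exact ⟨_, _, g0.base hC, g1.base hC, e⟩

theorem Cm.tw (h : Cm B H N k k₁ c) (a : Ω ≃+* Ω) :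
    Cm (fun b => (B b).tw a) (H.tw a) N k k₁ (a c) := by
  obtain ⟨n, n₁, g0, g1, e⟩ := h
  exact ⟨_, _, g0.tw a, g1.tw a, fun x => by simp only [← map_mul, e]⟩

theorem Cm.eqv (ht : ∀ a, RegM B B (· + a)) {r : G → Ω} (e : Eqv B r H H')
    (h : Cm B H N k k₁ c) : Cm B H' N k k₁ c := by
  obtain ⟨n, n₁, g0, g1, e1⟩ := h
  refine ⟨_, _, g0.eqv (ht k) e, g1.eqv (ht k₁) e, fun x => ?_⟩
  have h1 := pow_ne_zero N (e.ne (x + k))
  have h2 := pow_ne_zero N (e.ne (x + k₁))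
  rw [add_right_comm x k₁ k]
  field_simp
  linear_combination (r x ^ N * (r (x + k + k₁) ^ N)⁻¹) * e1 x

theorem Cm.self (h : Mu B H N k m) : Cm B H N k k 1 := ⟨m, m, h, h, fun _ => (one_mul _).symm⟩

theorem Cm.left [IsAlgClosed Ω] (hB : ThB B H) (h : Cm B H N k k₁ c) (h' : Cm B H N k' k₁ c') :
    Cm B H N (k + k') k₁ (c * c') := by
  obtain ⟨n, n₁, g0, g1, e⟩ := h
  obtain ⟨n', -, g0', -, -⟩ := id h'
  refine ⟨_, n₁, g0.add hB g0', g1, fun x => ?_⟩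
  rw [← add_assoc, mul_assoc, h'.all hB g0' g1, add_right_comm x k₁ k]
  linear_combination c' * n' (x + k + k₁) * e x

theorem Cm.right [IsAlgClosed Ω] (hB : ThB B H) (h : Cm B H N k₁ k c) (h' : Cm B H N k₁ k' c') :
    Cm B H N k₁ (k + k') (c * c') := by
  obtain ⟨n₁, n, g1, g0, e⟩ := h
  obtain ⟨-, n', -, g0', -⟩ := id h'
  refine ⟨n₁, _, g1, g0.add hB g0', fun x => ?_⟩
  have := h'.all hB g1 g0' (x + k)
  rw [← add_assoc, add_right_comm x k₁ k]
  linear_combination n' (x + k + k₁) * e x + c * n x * this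

/-- a chosen theta multiplier -/
def mu (B : β → LS Ω G) (H : LS Ω G) (N : ℕ) (k : G) : G → Ω :=
  Classical.epsilon (Mu B H N k)

/-- the commutator pairing -/
def eP (B : β → LS Ω G) (H : LS Ω G) (N : ℕ) (k k₁ : G) : Ω :=
  Classical.epsilon (Cm B H N k k₁)

variable {l : G × G → Ω}

theorem ThB.mu (h : ThB B H) (hl : LawE B H l) (hk : N • k = 0) : Mu B H N k (mu B H N k) :=
  Classical.epsilon_spec (h.exists_mu hl hk)

variable [IsAlgClosed Ω]

theorem Cm.eP_eq (hB : ThB B H) (h : Cm B H N k k₁ c) : eP B H N k k₁ = c :=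
  Cm.unique hB (Classical.epsilon_spec ⟨c, h⟩) h

theorem ThB.cm (h : ThB B H) (hl : LawE B H l) (hk : N • k = 0) (hk₁ : N • k₁ = 0) :
    Cm B H N k k₁ (eP B H N k k₁) :=
  Classical.epsilon_spec (exists_cm h (h.mu hl hk) (h.mu hl hk₁))

/-- the commutation rule, for any multipliers -/
theorem ThB.comm (h : ThB B H) (h0 : Mu B H N k m) (h1 : Mu B H N k₁ m₁) (x : G) :
    m x * m₁ (x + k) = eP B H N k k₁ * (m₁ x * m (x + k₁)) := by
  obtain ⟨c, hc⟩ := exists_cm h h0 h1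
  rw [hc.eP_eq h]
  exact hc.all h h0 h1 x

theorem ThB.comm_of_iso (h : ThB B H) (h0 : Mu B H N k m) (h1 : Mu B H N k₁ m₁)
    (e : eP B H N k k₁ = 1) (x : G) : m x * m₁ (x + k) = m₁ x * m (x + k₁) := by
  rw [h.comm h0 h1, e, one_mul]

theorem ThB.pairing (h : ThB B H) (hl : LawE B H l) (N : ℕ) : Pairing N (eP B H N) where
  ne _ _ ha hb := (h.cm hl ha hb).ne
  addl _ _ _ ha ha' hb := ((h.cm hl ha hb).left h (h.cm hl ha' hb)).eP_eq h
  addr _ _ _ ha hb hb' := ((h.cm hl ha hb).right h (h.cm hl ha hb')).eP_eq h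
  alt _ ha := (Cm.self (h.mu hl ha)).eP_eq h

/-- the pairing of a product -/
theorem ThB.eP_box {C : γ → LS Ω G'} {V : LS Ω G'} {l' : G' × G' → Ω} (h : ThB B H)
    (hl : LawE B H l) (h' : ThB C V) (hl' : LawE C V l') {z z' : G × G'} (hz : N • z = 0)
    (hz' : N • z' = 0) : eP (prodB B C) (H.pb Prod.fst * V.pb Prod.snd) N z z' =
      eP B H N z.1 z'.1 * eP C V N z.2 z'.2 :=
  ((Cm.pb (AddMonoidHom.fst G G') (RegM.fst B C)
    (h.cm hl (congrArg Prod.fst hz) (congrArg Prod.fst hz'))).mul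
      (Cm.pb (AddMonoidHom.snd G G') (RegM.snd B C)
        (h'.cm hl' (congrArg Prod.snd hz) (congrArg Prod.snd hz')))).eP_eq (h.box h')

/-- Frobenius -/
theorem ThB.eP_frob (h : ThB B H) (hl : LawE B H l) (fr : Ω ≃+* Ω) (F : G →+ G)
    (hB : ∀ b, ((B b).tw fr).Sim ((B b).pb F)) (hH : (H.tw fr).Sim (H.pb F)) (hk : N • k = 0)
    (hk₁ : N • k₁ = 0) : eP B H N (F k) (F k₁) = fr (eP B H N k k₁) := by
  have h1 := ((h.cm hl (k := F k) (k₁ := F k₁) (by rw [← map_nsmul, hk, map_zero])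
    (by rw [← map_nsmul, hk₁, map_zero])).pb F (RegM.restrict B F)).base
      (C := fun b => (B b).tw fr) fun b => (Reg.self (fun b => (B b).tw fr) b).sim (hB b)
  obtain ⟨r, hr⟩ := hH.symm.eqv fun b => (B b).tw fr
  exact (h1.eqv (h.tw fr).tr hr).unique (h.tw fr) ((h.cm hl hk hk₁).tw fr)

omit [IsAlgClosed Ω] [AddCommGroup G] in
theorem sim_prod {fr : Ω ≃+* Ω} {F : G → G} (hB : ∀ b, ((B b).tw fr).Sim ((B b).pb F)) :
    ((∏ b, B b).tw fr).Sim ((∏ b, B b).pb F) := by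
  obtain ⟨r, hr, e⟩ := pc_sim hB fun _ => 1
  refine ⟨r, hr, ?_⟩
  rw [LS.tw_prod, LS.pb_prod]
  simpa only [pc, pow_one, LS.prod_sp] using e

/-- similitudes -/
theorem ThB.eP_sim {C : γ → LS Ω G'} {V : LS Ω G'} {l' : G' × G' → Ω} (h : ThB B H)
    (hl : LawE B H l) (h' : ThB C V) (hl' : LawE C V l') (f : G' →+ G) (hf : RegM C B f) {a b : ℕ}
    {r : G' → Ω} (e : Eqv C r (H.pb f ^ a) (V ^ b)) {z z' : G'} (hz : N • z = 0)
    (hz' : N • z' = 0) : eP B H N (f z) (f z') ^ a = eP C V N z z' ^ b :=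
  ((((h.cm hl (k := f z) (k₁ := f z') (by rw [← map_nsmul, hz, map_zero])
    (by rw [← map_nsmul, hz', map_zero])).pb f hf).pow a).eqv h'.tr e).unique
      ⟨h'.dom, h'.reg.pow b, h'.tr⟩ ((h'.cm hl' hz hz').pow b)

end Pool.Agent.Tav.Ti
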