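import Pool.Agent.P.MP_2ce3e7_ag.Tav.TiDefs
import Pool.Agent.P.MP_2ce3e7_ag.Tav.TiTh

/-! The explicit theta multipliers of a polarised abelian variety. -/

set_option autoImplicit false

noncomputable section

namespace Pool.Agent.Tav

open MvPolynomial Module Function

variable {Ω : Type} [Field Ω] {G : Type} [AddCommGroup G] {fr : Ω ≃+* Ω}

theorem Ti.LawE.tw {β : Type} [Fintype β] {B : β → LS Ω G} {H : LS Ω G} {l : G × G → Ω}
    (h : Ti.LawE B H l) (a : Ω ≃+* Ω) : Ti.LawE (fun b => (B b).tw a) (H.tw a) fun t => a (l t) := by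
  have e : (fun b => (prodB B B b).tw a) = prodB (fun b => (B b).tw a) fun b => (B b).tw a :=
    funext fun b => by cases b <;> exact LS.tw_pb _ _ _
  have h1 := Eqv.tw h a
  rw [e] at h1
  exact h1.congr rfl (by simp only [LS.tw_mul, LS.tw_pb])
    (by simp only [LS.tw_mul, LS.tw_pow, LS.tw_pb])

/-- the symmetric product of translates, shifted by one step -/
theorem Ti.shift_prod (H : LS Ω G) (k : G) (m : ℕ) :
    (H * ∏ i ∈ Finset.Icc 1 m, H.pb (· + i • k) * H.pb (· - i • k)).pb (· + k) * H.pb (· - m • k) =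
      (H * ∏ i ∈ Finset.Icc 1 m, H.pb (· + i • k) * H.pb (· - i • k)) * H.pb (· + (m + 1) • k) := by
  induction m with
  | zero =>
    have e0 : H.pb (fun x => x) = H := H.pb_id
    simp only [zero_smul, sub_zero, e0, zero_add, one_smul, Finset.Icc_eq_empty_of_lt zero_lt_one,
      Finset.prod_empty, mul_one, mul_comm]
  | succ m ih =>
    have e1 : (H.pb (· + (m + 1) • k)).pb (· + k) = H.pb (· + (m + 1 + 1) • k) := by
      rw [LS.pb_pb]; congr 1; funext x; simp only [comp, succ_nsmul]; abel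
    have e2 : (H.pb (· - (m + 1) • k)).pb (· + k) = H.pb (· - m • k) := by
      rw [LS.pb_pb]; congr 1; funext x; simp only [comp, succ_nsmul]; abel
    rw [Finset.prod_Icc_succ_top (Nat.le_add_left 1 m), ← mul_assoc H, LS.pb_mul, LS.pb_mul _ (H.pb _),
      e1, e2]
    generalize (H * ∏ i ∈ Finset.Icc 1 m, H.pb (· + i • k) * H.pb (· - i • k)) = P at ih ⊢
    calc _ = P.pb (· + k) * H.pb (· - m • k) * (H.pb (· + (m + 1 + 1) • k) *
        H.pb (· - (m + 1) • k)) := by ac_rfl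
      _ = _ := by rw [ih]; ac_rfl

namespace Ab

variable (A : Ab Ω G) {N : ℕ} {k k' : G}

theorem law_eqv : Eqv (prodB A.B A.B) A.lam
    ((A.H.pb fun t : G × G => t.1 + t.2) * A.H.pb fun t : G × G => t.1 - t.2)
    (A.H.pb Prod.fst ^ 2 * A.H.pb Prod.snd ^ 2) := by
  have hH : Reg A.B A.H := Reg.self A.B ()
  refine ((Eqv.of_bpf A.law A.lam_ne (U := (A.H.pb fun t : G × G => t.1 + t.2) *
    A.H.pb fun t : G × G => t.1 - t.2) rfl).base
      (Fin.forall_fin_two.2 ⟨hH.fst A.B, Reg.snd A.B hH⟩)).congr rfl rfl ?_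
  simp [pcL]

theorem law_ti : Ti.LawE A.B A.H A.lam := A.law_eqv

theorem thB : Ti.ThB A.B A.H := ⟨A.src.dom, Reg.self A.B (), A.ab0.reg_trans⟩

theorem mu_eqv (hN : Odd N) (hk : N • k = 0) :
    Eqv A.B (A.mu N k) ((A.H ^ N).pb fun x => x + k) (A.H ^ N) := by
  obtain ⟨m, rfl⟩ := hN
  have hm : (2 * m + 1) / 2 = m := by omega
  have h1 : Eqv A.B (A.nu (2 * m + 1) k)
      (A.H * ∏ i ∈ Finset.Icc 1 m, A.H.pb (· + i • k) * A.H.pb (· - i • k))
      (A.H ^ (2 * m + 1)) := by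
    have h0 : ∀ i ∈ Finset.Icc 1 m, Eqv A.B (fun x => A.lam (x, i • k))
        (A.H.pb (· + i • k) * A.H.pb (· - i • k)) (A.H ^ 2) := fun i _ =>
      (A.law_ti.along (RegM.id A.B) (regM_const A.B A.B (i • k))).congr rfl rfl
        (by rw [Ti.pb_const, one_pow, mul_one, LS.pb_id])
    refine ((Eqv.refl A.B A.H).mul (Eqv.prod h0)).congr (funext fun x => ?_) rfl ?_
    · simp only [nu, hm, one_mul, Finset.prod_apply]
    · rw [Finset.prod_const, Nat.card_Icc, Nat.add_sub_cancel, ← pow_mul, pow_succ']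
  have e : (fun x : G => x + (m + 1) • k) = fun x => x - m • k := funext fun x => by
    rw [sub_eq_add_neg, eq_neg_of_add_eq_zero_left (a := (m + 1) • k) (b := m • k)]
    rw [← add_nsmul, ← hk]; congr 1; ring
  have h2 := A.H |> fun H => Ti.shift_prod H k m
  rw [e] at h2
  have h3 := Eqv.cancel ((Eqv.refl A.B _).congr rfl rfl h2)
    (e ▸ (A.thB.tr ((m + 1) • k)).pull A.thB.reg)
  refine (((h1.pb (· + k) (A.thB.tr k)).symm.trans h3).trans h1).congr (funext fun x => ?_) rfl rfl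
  simp only [mu, Pi.mul_apply, Pi.inv_apply, one_mul, div_eq_mul_inv]

theorem mu_ti (hN : Odd N) (hk : N • k = 0) : Ti.Mu A.B A.H N k (A.mu N k) := A.mu_eqv hN hk

variable [IsAlgClosed Ω]

theorem e_eq (hN : Odd N) (hk : N • k = 0) (hk' : N • k' = 0) :
    A.e N k k' = Ti.eP A.B A.H N k k' := by
  have h := A.thB.comm (A.mu_ti hN hk) (A.mu_ti hN hk') 0
  rw [zero_add, zero_add] at h
  rw [e, h, mul_div_cancel_right₀ _ (mul_ne_zero ((A.mu_ti hN hk').ne _) ((A.mu_ti hN hk).ne _))]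

theorem mu_comm (hN : Odd N) (hk : N • k = 0) (hk' : N • k' = 0) (x : G) :
    A.mu N k x * A.mu N k' (x + k) = A.e N k k' * (A.mu N k' x * A.mu N k (x + k')) := by
  rw [A.e_eq hN hk hk']
  exact A.thB.comm (A.mu_ti hN hk) (A.mu_ti hN hk') x

theorem pairing (hN : Odd N) : Ti.Pairing N (A.e N) := by
  have h := A.thB.pairing A.law_ti N
  have s : ∀ {a b : G}, N • a = 0 → N • b = 0 → N • (a + b) = 0 := fun ha hb => by
    rw [smul_add, ha, hb, add_zero]
  refine ⟨fun a b ha hb => ?_, fun a a' b ha ha' hb => ?_, fun a b b' ha hb hb' => ?_,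
    fun a ha => ?_⟩
  · rw [A.e_eq hN ha hb]; exact h.ne a b ha hb
  · rw [A.e_eq hN (s ha ha') hb, A.e_eq hN ha hb, A.e_eq hN ha' hb]; exact h.addl a a' b ha ha' hb
  · rw [A.e_eq hN ha (s hb hb'), A.e_eq hN ha hb, A.e_eq hN ha hb']; exact h.addr a b b' ha hb hb'
  · rw [A.e_eq hN ha ha]; exact h.alt a ha

theorem lam_frob {F : G →+ G} (h : A.Fr fr F) :
    ∃ c : Ω, c ≠ 0 ∧ ∀ x y, A.lam (F x, F y) = c * fr (A.lam (x, y)) := by
  have hH : Reg (fun b => (A.B b).tw fr) (A.H.tw fr) := A.thB.reg.tw fr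
  have h1 := A.law_ti.pb (B := fun b => (A.B b).tw fr) F fun _ => by rw [h.2]; exact hH
  rw [h.2] at h1
  have h2 := A.law_ti.tw fr
  obtain ⟨c, hc, e⟩ := Eqv.unit ((A.src.dom.tw fr).prod (A.src.dom.tw fr))
    ((Eqv.symm h2).reg (((hH.fst _).pow 2).mul ((Reg.snd _ hH).pow 2))) h1 h2
  exact ⟨c, hc, fun x y => congrFun e (x, y)⟩

theorem mu_frob {F : G →+ G} (h : A.Fr fr F) (N : ℕ) (k x : G) :
    A.mu N (F k) (F x) = fr (A.mu N k x) := by
  obtain ⟨c, hc, e⟩ := A.lam_frob h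
  have h1 : ∀ y, A.nu N (F k) (F y) = c ^ (Finset.Icc 1 (N / 2)).card * fr (A.nu N k y) :=
    fun y => by simp only [nu, ← map_nsmul, e, Finset.prod_mul_distrib, Finset.prod_const, map_prod]
  rw [mu, mu, ← map_add, h1, h1, mul_div_mul_left _ _ (pow_ne_zero _ hc), map_div₀]

theorem e_frob {F : G →+ G} (h : A.Fr fr F) (N : ℕ) (k k' : G) :
    A.e N (F k) (F k') = fr (A.e N k k') := by
  have h0 : ∀ a, A.mu N (F a) 0 = fr (A.mu N a 0) := fun a => by
    rw [← A.mu_frob h, map_zero]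
  simp only [e, h0, A.mu_frob h, map_div₀, map_mul]

end Ab

end Pool.Agent.Tav
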