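import Pool.Agent.P.MP_2ce3e7_ag.Tav.AFib

/-! Regular homomorphisms and the degree on the ring of regular endomorphisms. -/

set_option autoImplicit false
set_option linter.unusedSectionVars false

noncomputable section

namespace Pool.Agent.Tav

open MvPolynomial Module Det Function

variable {Ω : Type} [Field Ω] {X X' X'' T : Type} {β β' β'' γ ν ν' ν'' κ : Type}
  [Fintype β] [Fintype β'] [Fintype β''] [Fintype γ] [Fintype ν] [Fintype ν'] [Fintype ν'']
  [Fintype κ] [AddCommGroup X] [AddCommGroup X'] [AddCommGroup X'']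

/-- a group with base `B` and polarising slots `H` -/
structure Ab0 (B : β → LS Ω X) (H : ν → LS Ω X) : Prop where
  src : Src B (Fintype.card ν)
  regH : ∀ i, Reg B (H i)
  sub : RegM (prodB B B) B fun t : X × X => t.1 - t.2
  par : ∀ i, ParL (H i)
  pos : mix B H ≠ 0

theorem ParL.pb {V : LS Ω X} (h : ParL V) (f : X' →+ X) : ParL (V.pb f) := by
  obtain ⟨lam, hl, hb⟩ := h
  refine ⟨lam ∘ Prod.map f f, fun t => hl _, ?_⟩
  have h1 := hb.pb (Prod.map f f)
  rw [map_pb_mul, LS.pb_pb, LS.pb_pb] at h1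
  have e : (fun i => (![V.pb Prod.fst, V.pb Prod.snd] i).pb (Prod.map f f)) =
      ![(V.pb f).pb Prod.fst, (V.pb f).pb Prod.snd] := by
    funext i
    fin_cases i
    · exact (LS.pb_pb _ _ _).trans (LS.pb_pb Prod.fst f V).symm
    · exact (LS.pb_pb _ _ _).trans (LS.pb_pb Prod.snd f V).symm
  have e1 : ((fun t : X × X => t.1 + t.2) ∘ Prod.map f f) = f ∘ fun t : X' × X' => t.1 + t.2 :=
    funext fun t => (map_add f _ _).symm
  have e2 : ((fun t : X × X => t.1 - t.2) ∘ Prod.map f f) = f ∘ fun t : X' × X' => t.1 - t.2 :=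
    funext fun t => (map_sub f _ _).symm
  rwa [e, e1, e2, ← LS.pb_pb, ← LS.pb_pb] at h1

theorem slot_scale {M : Type*} [AddCommGroup M] [DecidableEq κ] (c : (κ → M) → ℂ)
    (hc : ∀ (f : κ → M) (t : κ) (x y : M), c (update f t (x + y)) + c (update f t (x - y)) =
      2 * c (update f t x) + 2 * c (update f t y)) (n : ℤ) (f : κ → M) :
    c (fun k => n • f k) = ((n : ℂ) ^ 2) ^ Fintype.card κ * c f := by
  have one : ∀ (f : κ → M) (t : κ), c (update f t (n • f t)) = (n : ℂ) ^ 2 * c f := by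
    intro f t
    obtain ⟨b, -, hb⟩ := polar (fun x => c (update f t x)) (hc f t)
    have h1 := hb (f t)
    rw [update_eq_self] at h1
    rw [hb, h1, map_zsmul, map_zsmul, AddMonoidHom.zsmul_apply, zsmul_eq_mul, zsmul_eq_mul]
    ring
  have key : ∀ s : Finset κ, c (fun k => if k ∈ s then n • f k else f k) =
      ((n : ℂ) ^ 2) ^ s.card * c f := by
    intro s
    induction s using Finset.induction_on with
    | empty => simp
    | insert i s hi ih =>
      have := one (fun k => if k ∈ s then n • f k else f k) i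
      rw [ih, if_neg hi] at this
      rw [Finset.card_insert_of_notMem hi, pow_succ', mul_assoc, ← this]
      congr 1
      funext k
      by_cases hk : k = i
      · subst hk; simp
      · simp [hk]
  simpa using key Finset.univ

namespace Ab0

variable {B : β → LS Ω X} {H : ν → LS Ω X} {B' : β' → LS Ω X'} {H' : ν' → LS Ω X'}
  {B'' : β'' → LS Ω X''} {H'' : ν'' → LS Ω X''} {C : γ → LS Ω T}

theorem reg_sub (h : Ab0 B H) {u v : T → X} (hu : RegM C B u) (hv : RegM C B v) :
    RegM C B (u - v) := by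
  have := (hu.pair hv).comp h.sub
  have e : ((fun t : X × X => t.1 - t.2) ∘ fun t => (u t, v t)) = u - v := rfl
  rwa [e] at this

theorem reg_neg (h : Ab0 B H) {u : T → X} (hu : RegM C B u) : RegM C B (-u) := by
  have := h.reg_sub (regM_const C B 0) hu
  have e : ((fun _ : T => (0 : X)) - u) = -u := funext fun t => zero_sub _
  rwa [e] at this

theorem reg_add (h : Ab0 B H) {u v : T → X} (hu : RegM C B u) (hv : RegM C B v) :
    RegM C B (u + v) := by
  have := h.reg_sub hu (h.reg_neg hv)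
  rwa [sub_neg_eq_add] at this

/-- the regular maps from a source -/
def rm (h : Ab0 B H) (C : γ → LS Ω T) : AddSubgroup (T → X) where
  carrier := {u | RegM C B u}
  add_mem' := h.reg_add
  zero_mem' := regM_const C B 0
  neg_mem' := h.reg_neg

theorem reg_zsmul (h : Ab0 B H) (n : ℤ) {u : T → X} (hu : RegM C B u) : RegM C B (n • u) :=
  (h.rm C).zsmul_mem hu n

theorem reg_nsmul (h : Ab0 B H) (n : ℕ) {u : T → X} (hu : RegM C B u) : RegM C B (n • u) :=
  (h.rm C).nsmul_mem hu n

theorem add (h : Ab0 B H) : RegM (prodB B B) B fun t : X × X => t.1 + t.2 :=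
  h.reg_add (RegM.fst B B) (RegM.snd B B)

theorem reg_trans (h : Ab0 B H) (a : X) : RegM B B fun x => x + a :=
  h.reg_add (RegM.id B) (regM_const B B a)

/-- the parallelogram law in one slot -/
theorem para (h : Ab0 B H) [DecidableEq κ] {V : LS Ω X} (hV : ParL V) (rV : Reg B V) {n : ℕ}
    (hC : Src C n) {W : κ → LS Ω T} (hW : ∀ k, Reg C (W k)) (hn : n ≤ Fintype.card κ) (k : κ)
    {u v : T → X} (hu : RegM C B u) (hv : RegM C B v) :
    mix C (update W k (V.pb (u + v))) + mix C (update W k (V.pb (u - v))) =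
      2 * mix C (update W k (V.pb u)) + 2 * mix C (update W k (V.pb v)) :=
  hV.mix hC hW hn k (hu.pull rV) (hv.pull rV) ((h.reg_add hu hv).pull rV)
    ((h.reg_sub hu hv).pull rV)

theorem para_rm (h : Ab0 B H) [DecidableEq κ] (s : κ → ν) {n : ℕ} (hC : Src C n)
    (hn : n ≤ Fintype.card κ) (f : κ → h.rm C) (t : κ) (x y : h.rm C) :
    (mix C (fun k => (H (s k)).pb (update f t (x + y) k : T → X)) : ℂ) +
      (mix C (fun k => (H (s k)).pb (update f t (x - y) k : T → X)) : ℂ) =
      2 * (mix C (fun k => (H (s k)).pb (update f t x k : T → X)) : ℂ) +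
        2 * (mix C (fun k => (H (s k)).pb (update f t y k : T → X)) : ℂ) := by
  have e : ∀ z : h.rm C, (fun k => (H (s k)).pb (update f t z k : T → X)) =
      update (fun k => (H (s k)).pb (f k : T → X)) t ((H (s t)).pb (z : T → X)) := by
    intro z
    funext k
    by_cases hk : k = t
    · subst hk; simp
    · simp [hk]
  simp only [e]
  exact_mod_cast h.para (h.par (s t)) (h.regH _) hC
    (fun k => RegM.pull (f k).2 (h.regH _)) hn t x.2 y.2

/-- the mixed degree is polynomial in the maps -/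
theorem isPol (h : Ab0 B H) (s : κ → ν) {n : ℕ} (hC : Src C n) (hn : n ≤ Fintype.card κ)
    {M : Type} [AddCommGroup M] [Module.Free ℤ M] [Module.Finite ℤ M] (g : κ → M →+ h.rm C) :
    IsPol fun x => (mix C (fun k => (H (s k)).pb (g k x : T → X)) : ℂ) := by
  classical
  exact quad (G := fun _ : κ => h.rm C)
    (fun f => (mix C (fun k => (H (s k)).pb (f k : T → X)) : ℂ)) (h.para_rm s hC hn) g

theorem dM_zsmul (h : Ab0 B H) (hC : Src C (Fintype.card ν)) {u : T → X} (hu : RegM C B u)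
    (n : ℤ) : dM C H (n • u) = (n : ℚ) ^ (2 * Fintype.card ν) * dM C H u := by
  classical
  have := slot_scale (fun f : ν → h.rm C => (mix C (fun k => (H k).pb (f k : T → X)) : ℂ))
    (h.para_rm id hC le_rfl) n fun _ => ⟨u, hu⟩
  rw [pow_mul]
  exact_mod_cast this

theorem dM_id (B : β → LS Ω X) (H : ν → LS Ω X) : dM B H id = mix B H := by
  simp only [dM, LS.pb_id]

/-- with operators -/
theorem abS (h : Ab0 B H) {Λ Γ : Type} [CommRing Λ] [Module Λ X] [Fintype Γ] {χ : Γ → Λ →+* ℂ}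
    (hs : ∀ a : Λ, RegM B B fun x => a • x)
    (hd : ∀ a : Λ, nm χ a ≠ 0 → (dM B H (fun x => a • x) : ℂ) = nm χ a * (mix B H : ℚ)) :
    AbS B H χ := ⟨h.src, h.regH, h.add, hs, h.par, h.pos, hd⟩

theorem prod (h : Ab0 B H) (h' : Ab0 B' H') : Ab0 (prodB B B') (prodB H H') where
  src := by rw [Fintype.card_sum]; exact h.src.prod h'.src
  regH := reg_prodB h.regH h'.regH
  sub := (h.reg_sub ((RegM.fst B B').cfst _) ((RegM.fst B B').csnd _)).pair
    (h'.reg_sub ((RegM.snd B B').cfst _) ((RegM.snd B B').csnd _))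
  par i := by
    cases i with
    | inl i => exact (h.par i).pb (AddMonoidHom.fst X X')
    | inr i => exact (h'.par i).pb (AddMonoidHom.snd X X')
  pos := by rw [mix_prod]; exact mul_ne_zero h.pos h'.pos

/-- regular homomorphisms -/
def homR (h' : Ab0 B' H') (B : β → LS Ω X) : AddSubgroup (X →+ X') where
  carrier := {a | RegM B B' a}
  add_mem' := fun ha hb => h'.reg_add ha hb
  zero_mem' := regM_const B B' 0
  neg_mem' := fun ha => h'.reg_neg ha

/-- regular endomorphisms -/
def endR (h : Ab0 B H) : Subring (AddMonoid.End X) where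
  carrier := {a | RegM B B a}
  mul_mem' := fun ha hb => (RegM.comp hb ha :)
  one_mem' := RegM.id B
  add_mem' := fun ha hb => h.reg_add ha hb
  zero_mem' := regM_const B B 0
  neg_mem' := fun ha => h.reg_neg ha

theorem mem_homR (h' : Ab0 B' H') {a : X →+ X'} : a ∈ h'.homR B ↔ RegM B B' a := Iff.rfl

theorem mem_endR (h : Ab0 B H) {a : AddMonoid.End X} : a ∈ h.endR ↔ RegM B B a := Iff.rfl

/-- a regular homomorphism as a regular map -/
def homRm (h' : Ab0 B' H') (B : β → LS Ω X) : h'.homR B →+ h'.rm B where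
  toFun a := ⟨a.1, a.2⟩
  map_zero' := rfl
  map_add' _ _ := rfl

/-- a regular endomorphism as a regular map -/
def endRm (h : Ab0 B H) : h.endR →+ h.rm B where
  toFun a := ⟨a.1, a.2⟩
  map_zero' := rfl
  map_add' _ _ := rfl

/-- the degree of a regular endomorphism -/
def dg (h : Ab0 B H) (a : h.endR) : ℕ := (exists_deg h.src h.src a.2).choose

theorem dg_spec (h : Ab0 B H) (a : h.endR) : Deg B B a.1 (Fintype.card ν) (h.dg a) :=
  (exists_deg h.src h.src a.2).choose_spec

theorem dM_eq (h : Ab0 B H) (a : h.endR) : dM B H a.1 = h.dg a * mix B H :=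
  h.dg_spec a ν H le_rfl h.regH

theorem dg_eq (h : Ab0 B H) (a : h.endR) {r : ℚ} (e : dM B H a.1 = r * mix B H) :
    (h.dg a : ℚ) = r := mul_right_cancel₀ h.pos ((h.dM_eq a).symm.trans e)

theorem dg_of_deg (h : Ab0 B H) (a : h.endR) {r : ℚ} (d : Deg B B a.1 (Fintype.card ν) r) :
    (h.dg a : ℚ) = r := h.dg_eq a (d ν H le_rfl h.regH)

theorem dg_mul (h : Ab0 B H) (a b : h.endR) : h.dg (a * b) = h.dg a * h.dg b := by
  have := h.dg_of_deg (a * b) ((h.dg_spec b).comp (h.dg_spec a) a.2)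
  rw [mul_comm (h.dg a)]
  exact_mod_cast this

theorem dg_one (h : Ab0 B H) : h.dg 1 = 1 := by
  exact_mod_cast h.dg_of_deg 1 (Deg.id B _)

theorem dg_zsmul (h : Ab0 B H) (n : ℤ) (a : h.endR) :
    (h.dg (n • a) : ℤ) = n ^ (2 * Fintype.card ν) * h.dg a := by
  have := h.dg_eq (n • a) (r := (n : ℚ) ^ (2 * Fintype.card ν) * h.dg a) (by
    rw [mul_assoc, ← h.dM_eq, ← h.dM_zsmul h.src a.2]; rfl)
  exact_mod_cast this

theorem dg_intCast (h : Ab0 B H) (n : ℤ) : (h.dg n : ℤ) = n ^ (2 * Fintype.card ν) := by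
  have := h.dg_zsmul n 1
  rwa [dg_one, zsmul_one, Nat.cast_one, mul_one] at this

theorem dg_natCast (h : Ab0 B H) (n : ℕ) : h.dg n = n ^ (2 * Fintype.card ν) := by
  have := h.dg_intCast n
  rw [Int.cast_natCast] at this
  exact_mod_cast this

theorem deg_nsmul (h : Ab0 B H) (n : ℕ) :
    Deg B B (fun x => n • x) (Fintype.card ν) ((n : ℚ) ^ (2 * Fintype.card ν)) := by
  have := h.dg_spec n
  rw [dg_natCast] at this
  push_cast at this
  have e : ((n : AddMonoid.End X) : X → X) = fun x => n • x :=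
    funext fun x => AddMonoid.End.natCast_apply n x
  rwa [e] at this

/-- the degree is polynomial -/
theorem dg_isPol (h : Ab0 B H) {M : Type} [AddCommGroup M] [Module.Free ℤ M] [Module.Finite ℤ M]
    (g : M →+ h.endR) : IsPol fun x => (h.dg (g x) : ℂ) := by
  have h1 := (h.isPol id h.src le_rfl fun _ => h.endRm.comp g).mul
    (IsPol.const ((mix B H : ℚ) : ℂ)⁻¹)
  refine (congrArg IsPol (funext fun x => ?_)).mp h1
  have h2 : (mix B H : ℂ) ≠ 0 := by exact_mod_cast h.pos
  rw [mul_inv_eq_iff_eq_mul₀ h2]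
  exact_mod_cast h.dM_eq (g x)

/-- Frobenius -/
theorem dg_frob (h : Ab0 B H) {fr : Ω ≃+* Ω} {Q : ℕ} (hfr : ∀ c, fr c = c ^ Q) (a : h.endR)
    (ha : IsFr fr B B a.1) : h.dg a = Q ^ Fintype.card ν := by
  exact_mod_cast h.dg_of_deg a (ha.deg hfr h.src)

/-- a commutative ring of regular endomorphisms whose degree is the norm -/
theorem abS_of_hom (h : Ab0 B H) {Λ Γ : Type} [CommRing Λ] [Module Λ X] [Fintype Γ]
    {χ : Γ → Λ →+* ℂ} (φ : Λ → h.endR) (hφ : ∀ a x, a • x = (φ a).1 x)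
    (hd : ∀ a, (h.dg (φ a) : ℂ) = nm χ a) : AbS B H χ := by
  have e : ∀ a : Λ, (fun x : X => a • x) = (φ a).1 := fun a => funext (hφ a)
  refine h.abS (fun a => e a ▸ (φ a).2) fun a _ => ?_
  rw [e, h.dM_eq, Rat.cast_mul, ← hd]
  norm_cast

end Ab0

theorem AbS.ab0 {Λ Γ : Type} [CommRing Λ] [Module Λ X] [Fintype Γ] {χ : Γ → Λ →+* ℂ}
    {B : β → LS Ω X} {H : ν → LS Ω X} (h : AbS B H χ) : Ab0 B H :=
  ⟨h.src, h.regH, h.reg_sub (RegM.fst B B) (RegM.snd B B), h.par, h.pos⟩

theorem Fib.ab0 {s : Sh} (F : Fib Ω s) : Ab0 F.H (F.H ∘ s.sl) :=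
  ⟨F.src, fun _ => Reg.self F.H _, F.sub, fun _ => (F.par _).parL, F.top⟩

/-- the degree on a fibre -/
theorem Fib.deg_of_dg {s : Sh} (F : Fib Ω s) (φ : s.Λ → F.ab0.endR)
    (hφ : ∀ a x, a • x = (φ a).1 x) (hd : ∀ a, (F.ab0.dg (φ a) : ℂ) = nm s.χ a) : F.Deg := by
  intro a
  rw [Fib.DD_eq, F.DD_id, show (fun x : F.G => a • x) = (φ a).1 from funext (hφ a),
    F.ab0.dM_eq, Rat.cast_mul, ← hd]
  norm_cast

end Pool.Agent.Tav
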