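import Pool.Agent.P.MP_2ce3e7_ag.Tav.TiTMod

/-! Positive integral quadratic functions on groups of homomorphisms. -/

set_option autoImplicit false

noncomputable section

namespace Pool.Agent.Tav.Ti

open Function Module

/-- a positive definite quadratic function with integer values -/
structure PF {E : Type} [AddCommGroup E] (q : E → ℚ) : Prop where
  par : ∀ a b, q (a + b) + q (a - b) = 2 * q a + 2 * q b
  pos : ∀ a, a ≠ 0 → 0 < q a
  int : ∀ a, ∃ z : ℤ, q a = z

namespace PF

variable {E : Type} [AddCommGroup E] {q : E → ℚ} (h : PF q)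
include h

theorem zero : q 0 = 0 := by
  have := h.par 0 0
  rw [add_zero, sub_zero] at this
  linarith

theorem three (x y z : E) :
    q (x + y + z) = q (x + z) + q (y + z) + q (x + y) - q x - q y - q z := by
  have h1 := h.par (x + z) y
  have h2 := h.par (y + z) x
  have h3 := h.par z (x - y)
  have h4 := h.par x y
  rw [show x + z + y = x + y + z by abel, show x + z - y = z + (x - y) by abel] at h1
  rw [show y + z + x = x + y + z by abel, show y + z - x = z - (x - y) by abel] at h2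
  linarith

theorem comap {E' : Type} [AddCommGroup E'] (f : E' →+ E) (hf : Injective f) :
    PF fun a => q (f a) where
  par a b := by rw [map_add, map_sub, h.par]
  pos a ha := h.pos _ fun e => ha (hf (e.trans (map_zero f).symm))
  int a := h.int _

/-- the polar form, as a function -/
def b0 (_ : PF q) (a b : E) : ℤ := (q (a + b) - q a - q b).num

theorem b0_eq (a b : E) : (h.b0 a b : ℚ) = q (a + b) - q a - q b := by
  obtain ⟨x, hx⟩ := h.int (a + b)
  obtain ⟨y, hy⟩ := h.int a
  obtain ⟨z, hz⟩ := h.int b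
  rw [b0, hx, hy, hz, ← Int.cast_sub, ← Int.cast_sub, Rat.num_intCast]

theorem b0_symm (a b : E) : h.b0 a b = h.b0 b a := by
  apply Int.cast_injective (α := ℚ)
  rw [b0_eq, b0_eq, add_comm]
  ring

theorem b0_add (a a' b : E) : h.b0 (a + a') b = h.b0 a b + h.b0 a' b := by
  apply Int.cast_injective (α := ℚ)
  rw [Int.cast_add, b0_eq, b0_eq, b0_eq, h.three]
  ring

/-- the polar form -/
def B : LinearMap.BilinForm ℤ E :=
  (AddMonoidHom.mk' (fun a => (AddMonoidHom.mk' (fun b => h.b0 a b) fun b b' => by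
    rw [h.b0_symm, h.b0_add, h.b0_symm b, h.b0_symm b']).toIntLinearMap) fun a a' =>
      LinearMap.ext fun b => h.b0_add a a' b).toIntLinearMap

theorem B_eq (a b : E) : (h.B a b : ℚ) = q (a + b) - q a - q b := h.b0_eq a b

theorem B_symm (a b : E) : h.B a b = h.B b a := h.b0_symm a b

theorem B_self (a : E) : (h.B a a : ℚ) = 2 * q a := by
  have := h.par a a
  rw [sub_self, h.zero] at this
  rw [B_eq]
  linarith

theorem B_pos {a : E} (ha : a ≠ 0) : 0 < h.B a a := by
  have := h.pos a ha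
  have h2 : (0 : ℚ) < h.B a a := by
    rw [B_self]
    linarith
  exact_mod_cast h2

theorem eq_zero {a : E} (ha : h.B a a = 0) : a = 0 := by
  by_contra e
  exact (h.B_pos e).ne' ha

theorem q_smul (m : ℤ) (a : E) : q (m • a) = m ^ 2 * q a := by
  have h1 := h.B_self (m • a)
  have h2 := h.B_self a
  simp only [map_smul, LinearMap.smul_apply, smul_eq_mul, Int.cast_mul] at h1
  rw [h2] at h1
  linarith

theorem smul_eq_zero {m : ℤ} (hm : m ≠ 0) {a : E} (ha : m • a = 0) : a = 0 := by
  apply h.eq_zero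
  have : h.B (m • a) a = 0 := by rw [ha, map_zero, LinearMap.zero_apply]
  rw [map_smul, LinearMap.smul_apply, smul_eq_mul] at this
  exact (mul_eq_zero.1 this).resolve_left hm

theorem torsionFree : IsTorsionFree ℤ E :=
  ⟨fun m hm a b e => sub_eq_zero.1 (h.smul_eq_zero hm.ne_zero (by
    rw [smul_sub]
    exact sub_eq_zero.2 e))⟩

theorem det_ne {κ : Type} [Fintype κ] [DecidableEq κ] {α : κ → E} (hα : LinearIndependent ℤ α) :
    (Matrix.of fun i j => h.B (α i) (α j)).det ≠ 0 := by
  intro e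
  obtain ⟨v, hv, e⟩ := Matrix.exists_vecMul_eq_zero_iff.2 e
  refine hv (funext (Fintype.linearIndependent_iff.1 hα v (h.eq_zero ?_)))
  have : ∀ j, h.B (∑ i, v i • α i) (α j) = 0 := fun j => by
    have := congrFun e j
    simpa [Matrix.vecMul, dotProduct, map_sum, LinearMap.sum_apply] using this
  rw [map_sum (h.B (∑ i, v i • α i))]
  simp only [map_smul, this, smul_zero, Finset.sum_const_zero]

/-- bounded rank gives finite generation -/
theorem finite_of_bdd (D : ℕ) (hD : ∀ n (α : Fin n → E), LinearIndependent ℤ α → n ≤ D) :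
    Module.Finite ℤ E := by
  classical
  let P : ℕ → Prop := fun n => ∃ α : Fin n → E, LinearIndependent ℤ α
  have h0 : P 0 := ⟨Fin.elim0, linearIndependent_empty_type⟩
  obtain ⟨α, hα⟩ : P (Nat.findGreatest P D) := Nat.findGreatest_spec (Nat.zero_le D) h0
  let φ : E →ₗ[ℤ] (Fin (Nat.findGreatest P D) → ℤ) := LinearMap.pi fun j => h.B (α j)
  refine Module.Finite.of_injective φ ((injective_iff_map_eq_zero φ).2 fun a ha => ?_)
  by_contra e
  have h1 : LinearIndependent ℤ (Fin.cons a α : Fin (Nat.findGreatest P D).succ → E) := by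
    refine hα.finCons' a α fun c y hy hc => ?_
    have h2 : h.B y a = 0 := by
      refine Submodule.span_induction (p := fun y _ => h.B y a = 0) ?_ ?_ ?_ ?_ hy
      · rintro _ ⟨j, rfl⟩
        exact congrFun ha j
      · simp
      · intro x y _ _ hx hy
        rw [map_add, LinearMap.add_apply, hx, hy, add_zero]
      · intro c x _ hx
        rw [map_smul, LinearMap.smul_apply, hx, smul_zero]
    have h3 := congrArg (fun x => h.B x a) hc
    simp only [map_add, map_smul, LinearMap.add_apply, LinearMap.smul_apply, h2, add_zero,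
      map_zero, LinearMap.zero_apply, smul_eq_mul] at h3
    exact (mul_eq_zero.1 h3).resolve_right (h.B_pos e).ne'
  exact Nat.findGreatest_is_greatest (Nat.lt_succ_self _) (hD _ _ h1) ⟨_, h1⟩

end PF

variable {l : ℕ} [hl : Fact l.Prime] {G G₂ : Type} [AddCommGroup G] [AddCommGroup G₂]
  {ι ι₂ : Type} [Fintype ι] [Fintype ι₂] {E : Type} [AddCommGroup E] {q : E → ℚ}

/-- a member of `E` that kills the `l ^ n`-torsion is divisible by `l ^ n` in `E` -/
def Quo (l : ℕ) (e : E →+ (G →+ G₂)) : Prop :=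
  ∀ (n : ℕ) (a : E), (∀ x : G, l ^ n • x = 0 → e a x = 0) → ∃ b, a = l ^ n • b

/-- the same for the values of `q` only -/
def Div (l : ℕ) (e : E →+ (G →+ G₂)) (q : E → ℚ) : Prop :=
  ∀ (n : ℕ) (a : E), (∀ x : G, l ^ n • x = 0 → e a x = 0) → ∃ z : ℤ, q a = (l ^ n) ^ 2 * z

omit hl in
theorem Quo.div {e : E →+ (G →+ G₂)} (hq : Quo l e) (h : PF q) : Div l e q := fun n a ha => by
  obtain ⟨b, rfl⟩ := hq n a ha
  obtain ⟨z, hz⟩ := h.int b
  exact ⟨z, by rw [← natCast_zsmul, h.q_smul, hz]; push_cast; rfl⟩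

theorem Div.dvd {e : E →+ (G →+ G₂)} (hq : Div l e q) (h : PF q) {n : ℕ} {a : E}
    (ha : ∀ x : G, l ^ n • x = 0 → e a x = 0) (b : E) : ∃ z : ℤ, h.B a b = l ^ n * z := by
  have hb : ∀ x : G, l ^ n • x = 0 → e (l ^ n • b) x = 0 := fun x hx => by
    rw [map_nsmul, AddMonoidHom.nsmul_apply, ← map_nsmul, hx, map_zero]
  obtain ⟨x, hx⟩ := hq n a ha
  obtain ⟨y, hy⟩ := hq n _ hb
  obtain ⟨z, hz⟩ := hq n (a + l ^ n • b) fun x hx => by
    rw [map_add, AddMonoidHom.add_apply, ha x hx, hb x hx, add_zero]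
  have h1 := h.B_eq a (l ^ n • b)
  rw [hx, hy, hz, map_nsmul, nsmul_eq_mul] at h1
  refine ⟨z - x - y, Int.cast_injective (α := ℚ)
    (mul_left_cancel₀ (pow_ne_zero n (Nat.cast_ne_zero.2 hl.out.ne_zero : (l : ℚ) ≠ 0)) ?_)⟩
  push_cast at h1 ⊢
  linear_combination h1

theorem PF.indep_fin (h : PF q) (M : TM l G ι) (N : TM l G₂ ι₂) {e : E →+ (G →+ G₂)}
    (hq : Div l e q) {κ : Type} [Fintype κ] {α : κ → E} (hα : LinearIndependent ℤ α) :
    LinearIndependent ℚ_[l] fun i => M.V N (e (α i)) := by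
  classical
  rw [Fintype.linearIndependent_iff]
  have key : ∀ c : κ → ℚ_[l], ‖c‖ ≤ 1 → ∑ i, c i • M.V N (e (α i)) = 0 → c = 0 := by
    intro c hc h0
    have hl0 : ∀ n : ℕ, (l : ℚ_[l]) ^ n ≠ 0 := fun n => pow_ne_zero _ l_ne
    refine Matrix.eq_zero_of_vecMul_eq_zero
      (M := (Matrix.of fun i j => h.B (α i) (α j)).map (Int.castRingHom ℚ_[l])) ?_ ?_
    · rw [← RingHom.mapMatrix_apply, ← RingHom.map_det]
      exact Int.cast_ne_zero.2 (h.det_ne hα)
    funext j
    refine eq_zero_of_bdd (l := l) fun n => ?_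
    have : ∀ i, ∃ a : ℤ, ‖((l : ℚ_[l]) ^ n)⁻¹ * c i - a * ((l : ℚ_[l]) ^ n)⁻¹‖ ≤ 1 := fun i =>
      apx_at (by
        rw [mul_inv_cancel_left₀ (hl0 n)]
        exact (norm_le_pi_norm c i).trans hc)
    choose a ha using this
    obtain ⟨b, hb⟩ := hq.dvd h (n := n) (a := ∑ i, a i • α i) (fun x hx => by
      obtain ⟨v, rfl⟩ := M.onto x n hx
      rw [← add_lsmul, M.ker] at hx
      have h1 : ∀ i, e (a i • α i) (M.κ v) = N.κ (c i • M.V N (e (α i)) v) := fun i => by
        rw [← map_smul, M.κ_V, map_zsmul, AddMonoidHom.smul_apply, ← map_zsmul, ← map_zsmul,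
          eq_comm]
        congr 1
        rw [M.eq_iff]
        have : c i • v - a i • v = (((l : ℚ_[l]) ^ n)⁻¹ * c i - a i * ((l : ℚ_[l]) ^ n)⁻¹) •
            ((l : ℚ_[l]) ^ n) • v := by
          rw [smul_smul, ← Int.cast_smul_eq_zsmul ℚ_[l], ← sub_smul]
          congr 1
          have := hl0 n
          field_simp
        rw [this, norm_smul]
        exact mul_le_one₀ (ha i) (norm_nonneg _) hx
      rw [map_sum, AddMonoidHom.finsetSum_apply]
      simp only [h1]
      have h2 := congrArg (fun A => A v) h0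
      simp only [LinearMap.sum_apply, LinearMap.smul_apply, LinearMap.zero_apply] at h2
      rw [← map_sum, h2, map_zero]) (α j)
    have h3 := congrArg (fun x : ℤ => (x : ℚ_[l])) hb
    simp only [map_sum, map_smul, LinearMap.sum_apply, LinearMap.smul_apply, smul_eq_mul,
      Int.cast_sum, Int.cast_mul, Int.cast_natCast, Int.cast_pow] at h3
    have h4 : ((l : ℚ_[l]) ^ n)⁻¹ • Matrix.vecMul c
        ((Matrix.of fun i j => h.B (α i) (α j)).map (Int.castRingHom ℚ_[l])) j =
        ∑ i, (((l : ℚ_[l]) ^ n)⁻¹ * c i - a i * ((l : ℚ_[l]) ^ n)⁻¹) * (h.B (α i) (α j) : ℤ) +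
          (b : ℤ) := by
      rw [(eq_inv_mul_iff_mul_eq₀ (hl0 n)).2 h3.symm, Finset.mul_sum, ← Finset.sum_add_distrib]
      simp only [Matrix.vecMul, dotProduct, smul_eq_mul, Finset.mul_sum, Matrix.map_apply,
        Matrix.of_apply, eq_intCast]
      exact Finset.sum_congr rfl fun i _ => by ring
    rw [h4]
    refine norm_add_le_one (IsUltrametricDist.norm_sum_le_of_forall_le_of_nonneg zero_le_one
      fun i _ => ?_) (Padic.norm_int_le_one _)
    rw [norm_mul]
    exact mul_le_one₀ (ha i) (norm_nonneg _) (Padic.norm_int_le_one _)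
  intro c hc i
  obtain ⟨n, hn⟩ := exists_small (l := l) c
  have := congrFun (key _ hn (by
    simp only [Pi.smul_apply, smul_eq_mul, mul_smul]
    rw [← Finset.smul_sum, hc, smul_zero])) i
  exact (mul_eq_zero.1 this).resolve_left (pow_ne_zero _ l_ne)

/-- independent homomorphisms stay independent on the Tate modules -/
theorem PF.indep' (h : PF q) (M : TM l G ι) (N : TM l G₂ ι₂) {e : E →+ (G →+ G₂)}
    (hq : Div l e q) {κ : Type} {α : κ → E} (hα : LinearIndependent ℤ α) :
    LinearIndependent ℚ_[l] fun i => M.V N (e (α i)) := by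
  rw [linearIndependent_iff_finset_linearIndependent] at hα ⊢
  exact fun s => h.indep_fin M N hq (hα s)

theorem PF.card_le' (h : PF q) (M : TM l G ι) (N : TM l G₂ ι₂) {e : E →+ (G →+ G₂)}
    (hq : Div l e q) {κ : Type} [Fintype κ] {α : κ → E} (hα : LinearIndependent ℤ α) :
    Fintype.card κ ≤ Fintype.card ι * Fintype.card ι₂ := by
  have := (h.indep' M N hq hα).fintype_card_le_finrank
  rwa [finrank_linearMap, finrank_fintype_fun_eq_card, finrank_fintype_fun_eq_card] at this

theorem PF.finite' (h : PF q) (M : TM l G ι) (N : TM l G₂ ι₂) {e : E →+ (G →+ G₂)}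
    (hq : Div l e q) : Module.Finite ℤ E :=
  h.finite_of_bdd _ fun n α hα => by simpa using h.card_le' M N hq hα

theorem PF.free (h : PF q) [Module.Finite ℤ E] : Module.Free ℤ E :=
  have := h.torsionFree
  inferInstance

theorem PF.V_inj' (h : PF q) (M : TM l G ι) (N : TM l G₂ ι₂) {e : E →+ (G →+ G₂)}
    (hq : Div l e q) {a : E} (ha : M.V N (e a) = 0) : a = 0 := by
  by_contra e0
  have h1 : LinearIndependent ℤ fun _ : Unit => a :=
    Fintype.linearIndependent_iff.2 fun c hc i => by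
      by_contra hi
      exact e0 (h.smul_eq_zero hi (by simpa using hc))
  exact (h.indep' M N hq h1).ne_zero () ha

theorem PF.indep (h : PF q) (M : TM l G ι) (N : TM l G₂ ι₂) {e : E →+ (G →+ G₂)}
    (hq : Quo l e) {κ : Type} {α : κ → E} (hα : LinearIndependent ℤ α) :
    LinearIndependent ℚ_[l] fun i => M.V N (e (α i)) := h.indep' M N (hq.div h) hα

theorem PF.card_le (h : PF q) (M : TM l G ι) (N : TM l G₂ ι₂) {e : E →+ (G →+ G₂)}
    (hq : Quo l e) {κ : Type} [Fintype κ] {α : κ → E} (hα : LinearIndependent ℤ α) :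
    Fintype.card κ ≤ Fintype.card ι * Fintype.card ι₂ := h.card_le' M N (hq.div h) hα

theorem PF.finite (h : PF q) (M : TM l G ι) (N : TM l G₂ ι₂) {e : E →+ (G →+ G₂)}
    (hq : Quo l e) : Module.Finite ℤ E := h.finite' M N (hq.div h)

theorem PF.V_inj (h : PF q) (M : TM l G ι) (N : TM l G₂ ι₂) {e : E →+ (G →+ G₂)}
    (hq : Quo l e) {a : E} (ha : M.V N (e a) = 0) : a = 0 := h.V_inj' M N (hq.div h) ha

end Pool.Agent.Tav.Ti
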