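import Pool.Agent.P.MP_2ce3e7_ag.Tav.TiPosA
import Pool.Agent.P.MP_2ce3e7_ag.Tav.TiAb0
import Pool.Agent.P.MP_2ce3e7_ag.Tav.TiWeilA
import Pool.Agent.P.MP_2ce3e7_ag.Tav.TiQuot

/-! The positive quadratic form on regular homomorphisms. -/

set_option autoImplicit false
set_option linter.unusedSectionVars false

noncomputable section

namespace Pool.Agent.Tav

open MvPolynomial Module Function

variable {Ω : Type} [Field Ω] {T X X' X'' : Type} {β β' β'' γ ν ν' κ : Type}
  [Fintype β] [Fintype β'] [Fintype β''] [Fintype γ] [Fintype ν] [Fintype ν'] [Fintype κ]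

/-- mixed degrees are natural numbers -/
theorem mix_nat {B : β → LS Ω T} {W : ν → LS Ω T} {n : ℕ} (h : Src B n) (hW : ∀ k, Reg B (W k))
    (hn : n ≤ Fintype.card ν) : ∃ m : ℕ, mix B W = m := by
  rw [mix_eq_nc]
  exact nc_pf_nat _ _ ((h.ext hW).dg.mono (by rw [degree_slots]; exact_mod_cast hn))

theorem mix_ge {B : β → LS Ω T} {W : ν → LS Ω T} {n : ℕ} (h : Src B n) (hW : ∀ k, Reg B (W k))
    (hn : n ≤ Fintype.card ν) : 0 ≤ mix B W := by
  obtain ⟨m, hm⟩ := mix_nat h hW hn
  exact (Nat.cast_nonneg m).trans_eq hm.symm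

/-- a constant map has degree zero in a slot -/
theorem mix_const [DecidableEq κ] {C : γ → LS Ω T} {n : ℕ} (hC : Src C n)
    (hn : n ≤ Fintype.card κ) {W : κ → LS Ω T} (hW : ∀ k, Reg C (W k)) (k : κ) (V : LS Ω X)
    (x : X) : mix C (update W k (V.pb fun _ => x)) = 0 := by
  have e : V.pb (fun _ : T => x) = LS.one Ω T := by
    refine LS.ext' (le_antisymm ?_ ?_)
    · rintro _ ⟨u, -, rfl⟩
      exact Submodule.mem_one.2 ⟨u x, rfl⟩
    · obtain ⟨u, hu, h0⟩ := V.nv x
      refine Submodule.one_le.2 ⟨(u x)⁻¹ • u, V.sp.smul_mem _ hu, funext fun t => ?_⟩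
      simp [h0]
  rw [e]
  exact mix_one hC hW hn k

/-- on a source of dimension zero every regular system is constant -/
theorem Src.const {B : β → LS Ω T} (h : Src B 0) {W : LS Ω T} (hW : Reg B W) : W.Const := by
  classical
  by_contra hn
  obtain ⟨t⟩ := h.ne
  obtain ⟨f, hf, h0, h1⟩ := LS.exists_zero hn t
  refine not_dg_neg _ (by simp) ((h.ext fun _ : Unit => hW).drop (j := fun _ : Unit => t)
    fun hd => h0 (hd (Pi.single (Sum.inr ()) 1) f (by rwa [pc_single, pow_one]) ?_))
  exact funext fun _ => h1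

/-- along maps that are regular for `B`, the system `V'` counts as `c` times `V` -/
def Num (B : β → LS Ω X) (V : LS Ω X) (c : ℚ) (V' : LS Ω X) : Prop :=
  ∀ (T γ κ : Type) [Fintype γ] [Fintype κ] [DecidableEq κ] (C : γ → LS Ω T) (n : ℕ), Src C n →
    n ≤ Fintype.card κ → ∀ W : κ → LS Ω T, (∀ k, Reg C (W k)) → ∀ k, ∀ j : T → X, RegM C B j →
      mix C (update W k (V'.pb j)) = c * mix C (update W k (V.pb j))

section num

variable {B : β → LS Ω X} {V V' V'' : LS Ω X} {c c' : ℚ}

theorem Num.refl (B : β → LS Ω X) (V : LS Ω X) : Num B V 1 V :=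
  fun _ _ _ _ _ _ _ _ _ _ _ _ _ _ _ => (one_mul _).symm

theorem Num.pb (h : Num B V c V') {B' : β' → LS Ω X'} {i : X' → X} (hi : RegM B' B i) :
    Num B' (V.pb i) c (V'.pb i) := fun T γ κ _ _ _ C n hC hn W hW k j hj => by
  rw [LS.pb_pb, LS.pb_pb]
  exact h T γ κ C n hC hn W hW k _ (hj.comp hi)

theorem Num.symm (h : Num B V c V') (hc : c ≠ 0) : Num B V' c⁻¹ V :=
  fun T γ κ _ _ _ C n hC hn W hW k j hj => by
    rw [h T γ κ C n hC hn W hW k j hj, inv_mul_cancel_left₀ hc]

theorem Num.trans (h : Num B V c V') (h' : Num B V' c' V'') : Num B V (c * c') V'' :=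
  fun T γ κ _ _ _ C n hC hn W hW k j hj => by
    rw [h' T γ κ C n hC hn W hW k j hj, h T γ κ C n hC hn W hW k j hj]
    ring

theorem LS.Mlt.num {q : ℕ} (h : V.Mlt q V') (hV : Reg B V) : Num B V q V' :=
  fun T γ κ _ _ _ C n hC hn W hW k j hj => by
    have := mix_mlt_one hC (fun i => reg_update hW (hj.pull hV) k i) hn k (q := q) (V' := V'.pb j)
      (by rw [update_self]; exact h.pb j)
    rwa [update_idem] at this

theorem LS.Sim.num (h : V.Sim V') (hV : Reg B V) : Num B V 1 V' := by
  simpa using h.mlt.num hV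

/-- Frobenius -/
theorem num_tw {fr : Ω ≃+* Ω} {q : ℕ} (hfr : ∀ x, fr x = x ^ q) (hV : Reg B V)
    (h : (V.tw fr).Sim V') : Num B V q V' := ((V.mlt_tw fr q hfr).sim h).num hV

/-- all slots are replaced -/
theorem mix_num {n : ℕ} (hB : Src B n) (hn : n ≤ Fintype.card κ) {W W' : κ → LS Ω X}
    (hW : ∀ k, Reg B (W k)) (hW' : ∀ k, Reg B (W' k)) {c : κ → ℚ}
    (h : ∀ k, Num B (W k) (c k) (W' k)) : mix B W' = (∏ k, c k) * mix B W := by
  classical
  have key : ∀ S : Finset κ, mix B (fun k => if k ∈ S then W' k else W k) =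
      (∏ k ∈ S, c k) * mix B W := by
    intro S
    induction S using Finset.induction_on with
    | empty => simp
    | insert a S ha ih =>
      have r : ∀ k, Reg B (if k ∈ S then W' k else W k) := fun k => by
        split_ifs
        exacts [hW' k, hW k]
      have := h a X β κ B n hB hn _ r a id (RegM.id B)
      rw [LS.pb_id, LS.pb_id] at this
      have e1 : update (fun k => if k ∈ S then W' k else W k) a (W' a) =
          fun k => if k ∈ insert a S then W' k else W k := by
        funext k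
        by_cases hk : k = a
        · subst hk; simp
        · simp [hk]
      have e2 : update (fun k => if k ∈ S then W' k else W k) a (W a) =
          fun k => if k ∈ S then W' k else W k := by
        funext k
        by_cases hk : k = a
        · subst hk; simp [ha]
        · simp [hk]
      rw [e1, e2, ih] at this
      rw [this, Finset.prod_insert ha, mul_assoc]
  simpa using key Finset.univ

end num

/-- a solution of the parallelogram law is homogeneous of degree two -/
theorem par_zsmul {M : Type} [AddCommGroup M] (q : M → ℚ)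
    (h : ∀ x y, q (x + y) + q (x - y) = 2 * q x + 2 * q y) (m : ℤ) (x : M) :
    q (m • x) = m ^ 2 * q x := by
  obtain ⟨P, -, hP⟩ := Det.polar (fun x => (q x : ℂ)) fun x y => by exact_mod_cast h x y
  have := hP (m • x)
  simp only [map_zsmul, AddMonoidHom.smul_apply, ← hP x, zsmul_eq_mul] at this
  have h2 : ((q (m • x) : ℚ) : ℂ) = ((m ^ 2 * q x : ℚ) : ℂ) := by
    push_cast
    rw [this]
    ring
  exact_mod_cast h2

/-- an isotropic vector of a semidefinite form is in the radical -/
theorem par_add_zero {M : Type} [AddCommGroup M] (q : M → ℚ)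
    (h : ∀ x y, q (x + y) + q (x - y) = 2 * q x + 2 * q y) (h0 : ∀ x, 0 ≤ q x) {y : M}
    (hy : q y = 0) (x : M) : q (x + y) = q x := by
  have key2 : ∀ y, q y = 0 → q x ≤ q (x + y) := by
    intro y hy
    have key : ∀ k : ℕ, q (x + (k + 1) • y) - q (x + k • y) = q (x + y) - q x := by
      intro k
      induction k with
      | zero => simp
      | succ k ih =>
        have := h (x + (k + 1) • y) y
        rw [add_assoc, ← succ_nsmul, show x + (k + 1) • y - y = x + k • y by
          rw [succ_nsmul]; abel, hy] at this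
        linarith
    have h1 : ∀ k : ℕ, q (x + k • y) = q x + k * (q (x + y) - q x) := by
      intro k
      induction k with
      | zero => simp
      | succ k ih =>
        have := key k
        push_cast
        linarith
    by_contra hc
    obtain ⟨k, hk⟩ := exists_nat_gt (q x / (q x - q (x + y)))
    rw [div_lt_iff₀ (by linarith)] at hk
    have := h0 (x + k • y)
    rw [h1] at this
    linarith
  have h1 := key2 y hy
  have h2 := key2 (-y) (by simpa [hy] using par_zsmul q h (-1) y)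
  have h3 := h x y
  rw [← sub_eq_add_neg] at h2
  linarith

theorem Qt.Sep.of_reg {B : β → LS Ω T} {C : γ → LS Ω T} (h : Qt.Sep B) (hB : ∀ i, Reg C (B i)) :
    Qt.Sep C := fun x y hxy => by
  obtain ⟨e, f, hf, h1, h2⟩ := h x y hxy
  obtain ⟨e', lam, hl, H⟩ := reg_pc hB x e
  exact ⟨e', _, H f hf, mul_ne_zero hl h1, by simp [h2]⟩

/-- a separating system is constant only along constant maps -/
theorem Qt.Sep.eq_of_const {V : LS Ω X} (h : Qt.Sep fun _ : Unit => V) {u : T → X}
    (hu : (V.pb u).Const) (t t' : T) : u t = u t' := by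
  by_contra hne
  obtain ⟨e, f, hf, h1, h2⟩ := h _ _ hne
  obtain ⟨v, hv, hv0⟩ := V.nv (u t')
  have key : ∀ d, ∀ g ∈ V.sp ^ d, g (u t) * v (u t') ^ d = g (u t') * v (u t) ^ d := by
    intro d g hg
    induction hg using Submodule.pow_induction_on_left' with
    | algebraMap r => simp
    | add a b i _ _ ha hb => simp only [Pi.add_apply, add_mul, ha, hb]
    | mem_mul m hm i a _ ha =>
      have := hu _ ⟨m, hm, rfl⟩ _ ⟨v, hv, rfl⟩ t t'
      simp only [AlgHom.toLinearMap_apply, pbA_apply] at this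
      simp only [Pi.mul_apply, Nat.succ_eq_add_one, pow_succ]
      linear_combination (a (u t) * v (u t') ^ i) * this + (m (u t') * v (u t)) * ha
  rw [pc_unit_mlt] at hf
  have := key _ f hf
  rw [h2, zero_mul] at this
  exact mul_ne_zero h1 (pow_ne_zero _ hv0) this

/-- the degree of `a` against `V` -/
def Qf (ν : Type) [Fintype ν] [DecidableEq ν] (B : β → LS Ω X) (V : LS Ω X) (V' : LS Ω X')
    (a : X → X') : ℚ := ∑ k : ν, mix B (update (fun _ : ν => V) k (V'.pb a))

section Q

variable [DecidableEq ν] {B : β → LS Ω X} {V : LS Ω X} {B' : β' → LS Ω X'} {V' : LS Ω X'}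
  {B'' : β'' → LS Ω X''} {V'' : LS Ω X''}

theorem Qf_nat (hs : Src B (Fintype.card ν)) (hV : Reg B V) {a : X → X'}
    (ha : Reg B (V'.pb a)) : ∃ m : ℕ, Qf ν B V V' a = m := by
  choose m hm using fun k : ν => mix_nat hs (fun i => reg_update (fun _ => hV) ha k i) le_rfl
  exact ⟨∑ k, m k, by simp only [Qf, hm, Nat.cast_sum]⟩

theorem Qf_pos [IsAlgClosed Ω] (hc : Cmp B) (hs : Src B (Fintype.card ν)) (hV : Reg B V)
    (h0 : mix B (fun _ : ν => V) ≠ 0) {a : X → X'} (ha : Reg B (V'.pb a))
    (hn : ¬ (V'.pb a).Const) : 0 < Qf ν B V V' a := by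
  cases isEmpty_or_nonempty ν
  · exact absurd ((Fintype.card_eq_zero (α := ν) ▸ hs).const ha) hn
  · exact Finset.sum_pos (fun k _ => mix_pos hc hs hV ha hn h0 k) Finset.univ_nonempty

/-- similitudes on the target -/
theorem Qf_comp (hs : Src B (Fintype.card ν)) (hV : Reg B V) {u : X' → X''} {c : ℚ}
    (hu : Num B' V' c (V''.pb u)) {a : X → X'} (ha : RegM B B' a) :
    Qf ν B V V'' (u ∘ a) = c * Qf ν B V V' a := by
  rw [Qf, Qf, Finset.mul_sum]
  refine Finset.sum_congr rfl fun k _ => ?_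
  rw [← LS.pb_pb]
  exact hu X β ν B _ hs le_rfl _ (fun _ => hV) k a ha

theorem Qf_num (hs : Src B (Fintype.card ν)) (hV : Reg B V) {W : LS Ω X'} {c : ℚ}
    (h : Num B' V' c W) {a : X → X'} (ha : RegM B B' a) :
    Qf ν B V W a = c * Qf ν B V V' a :=
  Qf_comp hs hV (u := id) (by rwa [LS.pb_id]) ha

/-- similitudes on the source -/
theorem Qf_comp_right (hs : Src B (Fintype.card ν)) (hV : Reg B V)
    (h0 : mix B (fun _ : ν => V) ≠ 0) {u : X → X} (hu : RegM B B u) {c : ℚ} (hc : c ≠ 0)
    (h : Num B V c (V.pb u)) {a : X → X'} (ha : Reg B (V'.pb a)) :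
    Qf ν B V V' (a ∘ u) = c * Qf ν B V V' a := by
  obtain ⟨r, hr⟩ := exists_deg hs hs hu
  have h1 := hr ν _ le_rfl fun _ => hV
  rw [mix_num hs le_rfl (fun _ => hV) (fun _ => hu.pull hV) fun _ => h] at h1
  have h2 := mul_right_cancel₀ h0 h1
  rw [Qf, Qf, Finset.mul_sum]
  refine Finset.sum_congr rfl fun k _ => ?_
  have h3 := hr ν _ le_rfl fun i => reg_update (fun _ => hV) ha k i
  have ha' : Reg B (V'.pb (a ∘ u)) := LS.pb_pb u a V' ▸ hu.pull ha
  have h4 := mix_num hs le_rfl (fun i => reg_update (fun _ => hV) ha' k i)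
    (fun i => hu.pull (reg_update (fun _ => hV) ha k i)) (c := update (fun _ => c) k 1) fun i => by
      by_cases hi : i = k
      · subst hi
        simp only [update_self, LS.pb_pb]
        exact Num.refl _ _
      · simp only [update_of_ne hi]
        exact h
  rw [h4, ← h2, ← Finset.mul_prod_erase _ _ (Finset.mem_univ k),
    ← Finset.mul_prod_erase _ (fun _ => c) (Finset.mem_univ k), update_self, one_mul,
    Finset.prod_congr rfl fun j hj => update_of_ne (Finset.ne_of_mem_erase hj) _ _] at h3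
  refine mul_left_cancel₀ (Finset.prod_ne_zero_iff.2 fun _ _ => hc) (h3.trans ?_)
  ring

end Q

variable [AddCommGroup X] [AddCommGroup X'] [AddCommGroup X'']

/-- the parallelogram law on mixed degrees -/
def ParN (B : β → LS Ω X) (V : LS Ω X) : Prop :=
  ∀ (T γ κ : Type) [Fintype γ] [Fintype κ] [DecidableEq κ] (C : γ → LS Ω T) (n : ℕ), Src C n →
    n ≤ Fintype.card κ → ∀ W : κ → LS Ω T, (∀ k, Reg C (W k)) → ∀ k, ∀ u v : T → X,
      RegM C B u → RegM C B v →
      mix C (update W k (V.pb (u + v))) + mix C (update W k (V.pb (u - v))) =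
        2 * mix C (update W k (V.pb u)) + 2 * mix C (update W k (V.pb v))

variable {B : β → LS Ω X} {H : ν → LS Ω X} {V : LS Ω X} {B' : β' → LS Ω X'} {H' : ν' → LS Ω X'}
  {V' : LS Ω X'}

theorem Ab0.parN (h : Ab0 B H) (hV : ParL V) (rV : Reg B V) : ParN B V :=
  fun _ _ _ _ _ _ _ _ hC hn _ hW k _ _ hu hv => h.para hV rV hC hW hn k hu hv

theorem ParN.pb (h : ParN B V) (f : X' →+ X) (hf : RegM B' B f) : ParN B' (V.pb f) :=
  fun T γ κ _ _ _ C n hC hn W hW k u v hu hv => by
    have := h T γ κ C n hC hn W hW k _ _ (hu.comp hf) (hv.comp hf)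
    simp only [LS.pb_pb]
    rwa [show f ∘ u + f ∘ v = f ∘ (u + v) from funext fun t => (map_add f _ _).symm,
      show f ∘ u - f ∘ v = f ∘ (u - v) from funext fun t => (map_sub f _ _).symm] at this

/-- multiplication by `m` multiplies the class by `m ^ 2` -/
theorem Ab0.num_zsmul (h : Ab0 B H) (hp : ParN B V) (m : ℤ) :
    Num B V (m ^ 2) (V.pb fun x => m • x) := fun T γ κ _ _ _ C n hC hn W hW k j hj => by
  rw [LS.pb_pb]
  have := par_zsmul (M := h.rm C) (fun u => mix C (update W k (V.pb (u : T → X))))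
    (fun u v => hp T γ κ C n hC hn W hW k u.1 v.1 u.2 v.2) m ⟨j, hj⟩
  exact this

theorem Ab0.num_nsmul (h : Ab0 B H) (hp : ParN B V) (m : ℕ) :
    Num B V (m ^ 2) (V.pb fun x => m • x) := by
  simpa using h.num_zsmul hp m

/-- translations do not change the class -/
theorem Ab0.num_add (h : Ab0 B H) (hp : ParN B V) (rV : Reg B V) (a : X) :
    Num B V 1 (V.pb fun x => x + a) := fun T γ κ _ _ _ C n hC hn W hW k j hj => by
  rw [LS.pb_pb, one_mul]
  have := par_add_zero (M := h.rm C) (fun u => mix C (update W k (V.pb (u : T → X))))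
    (fun u v => hp T γ κ C n hC hn W hW k u.1 v.1 u.2 v.2)
    (fun u => mix_ge hC (fun i => reg_update hW (RegM.pull u.2 rV) k i) hn)
    (y := ⟨fun _ => a, regM_const C B a⟩) (mix_const hC hn hW k V a) ⟨j, hj⟩
  exact this

theorem Qf_par {S : Type} [DecidableEq κ] {C : γ → LS Ω S} {U : LS Ω S}
    (hs : Src C (Fintype.card κ)) (hU : Reg C U) (hp : ParN B V) {a b : S → X} (ha : RegM C B a)
    (hb : RegM C B b) : Qf κ C U V (a + b) + Qf κ C U V (a - b) =
      2 * Qf κ C U V a + 2 * Qf κ C U V b := by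
  simp only [Qf, Finset.mul_sum, ← Finset.sum_add_distrib]
  exact Finset.sum_congr rfl fun k _ => hp S γ κ C _ hs le_rfl _ (fun _ => hU) k a b ha hb

/-- PF: the form on the regular homomorphisms -/
theorem Ab0.pf [IsAlgClosed Ω] [DecidableEq κ] (h' : Ab0 B' H') (hp : ParN B' V')
    (rV' : Reg B' V') (sV' : Qt.Sep fun _ : Unit => V') (hc : Cmp B)
    (hs : Src B (Fintype.card κ)) (hV : Reg B V) (h0 : mix B (fun _ : κ => V) ≠ 0) :
    Ti.PF fun a : h'.homR B => Qf κ B V V' a.1 where
  par a b := Qf_par hs hV hp a.2 b.2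
  pos a ha := Qf_pos hc hs hV h0 (RegM.pull a.2 rV') fun hk =>
    ha (Subtype.ext (AddMonoidHom.ext fun x => (sV'.eq_of_const hk x 0).trans (map_zero a.1)))
  int a := by
    obtain ⟨m, hm⟩ := Qf_nat (V' := V') hs hV (RegM.pull a.2 rV')
    exact ⟨m, hm.trans (Int.cast_natCast m).symm⟩

/-- a regular endomorphism as a regular homomorphism -/
def Ab0.endHom (h : Ab0 B H) : h.endR →+ h.homR B where
  toFun a := ⟨a.1, a.2⟩
  map_zero' := rfl
  map_add' _ _ := rfl

/-- PF on the regular endomorphisms -/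
theorem Ab0.pf_end [IsAlgClosed Ω] [DecidableEq κ] (h : Ab0 B H) (hp : ParN B V) (rV : Reg B V)
    (sV : Qt.Sep fun _ : Unit => V) (hc : Cmp B) (hs : Src B (Fintype.card κ))
    (h0 : mix B (fun _ : κ => V) ≠ 0) : Ti.PF fun a : h.endR => Qf κ B V V a.1 :=
  (h.pf hp rV sV hc hs rV h0).comap h.endHom fun _ _ e => Subtype.ext (congrArg Subtype.val e)

/-- DIV: a regular homomorphism that kills the `m`-torsion is divisible by `m` -/
theorem Ab0.div (h : Ab0 B H) (h' : Ab0 B' H') (sB : Qt.Sep B) {m : ℕ} (hm : m ≠ 0)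
    (hs : Surjective fun x : X => m • x)
    (hk : Nat.card {x : X // m • x = 0} = m ^ (2 * Fintype.card ν)) (a : h'.homR B)
    (ha : ∀ x : X, m • x = 0 → a.1 x = 0) : ∃ b, a = m • b := by
  let u : X →+ X := nsmulAddMonoidHom m
  have hk' : Nat.card u.ker = m ^ (2 * Fintype.card ν) := hk
  have : Finite u.ker := Nat.finite_of_card_ne_zero (hk' ▸ pow_ne_zero _ hm)
  obtain ⟨b, h1, h2⟩ := Qt.quot_fac h.src h.src le_rfl h.regH h.pos (Qt.tr_of_sub h.sub)
    (Qt.tr_of_sub h.sub) (Qt.tr_of_sub h'.sub) sB u hs (h.reg_nsmul m (RegM.id B))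
    (by rw [hk']; push_cast; exact h.deg_nsmul m ν H le_rfl h.regH) a.1 a.2 ha
  exact ⟨⟨b, h2⟩, Subtype.ext (AddMonoidHom.ext fun x => (h1 x).symm.trans (map_nsmul b m x))⟩

theorem surj_pow {l : ℕ} (hs : Surjective fun x : X => l • x) (n : ℕ) :
    Surjective fun x : X => l ^ n • x := by
  induction n with
  | zero => exact fun x => ⟨x, by simp⟩
  | succ n ih =>
    intro x
    obtain ⟨y, rfl⟩ := hs x
    obtain ⟨z, rfl⟩ := ih y
    exact ⟨z, by simp only [pow_succ', mul_smul]⟩

/-- the hypothesis `Quo` for the regular homomorphisms -/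
theorem Ab0.quo (h : Ab0 B H) (h' : Ab0 B' H') (sB : Qt.Sep B) {l : ℕ} (hl : l ≠ 0)
    (hs : Surjective fun x : X => l • x)
    (hk : ∀ n, Nat.card {x : X // l ^ n • x = 0} = (l ^ n) ^ (2 * Fintype.card ν)) :
    Ti.Quo l (h'.homR B).subtype := fun n a ha =>
  h.div h' sB (pow_ne_zero n hl) (surj_pow hs n) (hk n) a ha

end Pool.Agent.Tav
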