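import Pool.Agent.P.MP_2ce3e7_ag.Tav.TiDefs
import Pool.Agent.P.MP_2ce3e7_ag.Tav.TiEqv
import Pool.Agent.P.MP_2ce3e7_ag.Tav.TiPos
import Pool.Agent.P.MP_2ce3e7_ag.Tav.TiFibG
import Pool.Agent.P.MP_2ce3e7_ag.Tav.TiTopD

/-! From coordinates to polarised abelian varieties. -/

set_option autoImplicit false
set_option linter.unusedSectionVars false

noncomputable section

namespace Pool.Agent.Tav

open MvPolynomial Module Function

variable {Ω : Type} [Field Ω] {T G σ β γ ν κ : Type} [AddCommGroup G] [Fintype β] [Fintype γ]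
  [Fintype ν] [Fintype κ]

namespace Br

theorem bpf_prod {V : β → κ → LS Ω T} {e : κ → ℕ} {U : β → Submodule Ω (T → Ω)}
    (h : ∀ b, Bpf (V b) e (U b)) : Bpf (fun i => ∏ b, V b i) e (∏ b, U b) := by
  have key : ∀ d, pc (fun i => ∏ b, V b i) d = ∏ b, pc (V b) d := fun d => by
    simp only [pc, LS.prod_sp, ← Finset.prod_pow]
    exact Finset.prod_comm
  refine (Lg.all h).mono fun d hd => ?_
  rw [key, key, ← Finset.prod_mul_distrib]
  exact Finset.prod_congr rfl fun b _ => hd b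

theorem parL_prod {B : β → LS Ω G} (h : ∀ b, ParL (B b)) : ParL (∏ b, B b) := by
  choose lam hl hb using h
  refine ⟨∏ b, lam b, fun t => by
    rw [Finset.prod_apply]; exact Finset.prod_ne_zero_iff.2 fun b _ => hl b t, ?_⟩
  have h1 := bpf_prod hb
  have e : (fun i => ∏ b, ![(B b).pb Prod.fst, (B b).pb Prod.snd] i) =
      ![(∏ b, B b).pb (Prod.fst : G × G → G), (∏ b, B b).pb Prod.snd] := by
    funext i
    fin_cases i <;> simp [LS.pb_prod]
  rw [e] at h1
  simp only [map_mulLeft_eq, Finset.prod_mul_distrib, Submodule.prod_span_singleton] at h1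
  rw [map_mulLeft_eq, LS.pb_prod fun t : G × G => t.1 + t.2, LS.pb_prod fun t : G × G => t.1 - t.2,
    LS.prod_sp, LS.prod_sp]
  exact h1

theorem bpf_sim {V V' : κ → LS Ω T} {e : κ → ℕ} {U : Submodule Ω (T → Ω)} (h : Bpf V e U)
    {l : κ → T → Ω} (hl : ∀ i, (V' i).sp = Submodule.span Ω {l i} * (V i).sp) :
    Bpf V' e (Submodule.span Ω {∏ i, l i ^ e i} * U) := by
  have key : ∀ d, pc V' d = (∏ i, Submodule.span Ω {l i} ^ d i) * pc V d := fun d => by
    simp only [pc, hl, mul_pow, Finset.prod_mul_distrib]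
  refine h.mono fun d hd => ?_
  rw [key, key, ← hd, ← Submodule.prod_span_singleton]
  simp only [Pi.add_apply, pow_add, Finset.prod_mul_distrib, Set.singleton_pow, Submodule.span_pow]
  ac_rfl

theorem pb_sim {Y : Type} {V V' : LS Ω Y} {m : Y → Ω}
    (h : V'.sp = V.sp.map (LinearMap.mulLeft Ω m)) (j : T → Y) :
    (V'.pb j).sp = Submodule.span Ω {fun t => m (j t)} * (V.pb j).sp := by
  change V'.sp.map _ = _
  rw [h, map_mulLeft_eq, Submodule.map_mul, Submodule.map_span, Set.image_singleton]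
  rfl

theorem parL_sim {V V' : LS Ω G} (h : ParL V) (hs : V.Sim V') : ParL V' := by
  obtain ⟨lam, hl, hb⟩ := h
  obtain ⟨m, hm, e⟩ := hs
  refine ⟨fun t => lam t * (m t.1 ^ 2 * m t.2 ^ 2) / (m (t.1 + t.2) * m (t.1 - t.2)), fun t =>
    div_ne_zero (mul_ne_zero (hl t) (mul_ne_zero (pow_ne_zero _ (hm _)) (pow_ne_zero _ (hm _))))
      (mul_ne_zero (hm _) (hm _)), ?_⟩
  have h1 := bpf_sim hb (V' := ![V'.pb Prod.fst, V'.pb Prod.snd])
    (l := ![fun t => m t.1, fun t => m t.2]) fun i => by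
      fin_cases i
      · exact pb_sim e _
      · exact pb_sim e _
  rw [map_mulLeft_eq, ← mul_assoc, Submodule.span_mul_span, Set.singleton_mul_singleton] at h1
  rw [map_mulLeft_eq, pb_sim e, pb_sim e, mul_mul_mul_comm, ← mul_assoc,
    Submodule.span_mul_span, Submodule.span_mul_span, Set.singleton_mul_singleton,
    Set.singleton_mul_singleton]
  have e2 : ((fun t : G × G => lam t * (m t.1 ^ 2 * m t.2 ^ 2) / (m (t.1 + t.2) * m (t.1 - t.2))) *
      ((fun t : G × G => m (t.1 + t.2)) * fun t : G × G => m (t.1 - t.2))) =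
      (∏ i, ![fun t : G × G => m t.1, fun t => m t.2] i ^ 2) * lam := by
    funext t
    have := hm (t.1 + t.2)
    have := hm (t.1 - t.2)
    simp only [Fin.prod_univ_two, Pi.mul_apply, Pi.pow_apply, Matrix.cons_val_zero,
      Matrix.cons_val_one]
    field_simp
  rw [e2]
  exact h1

theorem reg_left (U V : LS Ω T) : Reg (uB (U * V)) U := fun t => by
  obtain ⟨v, hv, h⟩ := V.nv t
  refine ⟨fun _ => 1, v, h, fun u hu => ?_⟩
  rw [pc_unit_mlt, pow_one, mul_comm v u]
  exact Submodule.mul_mem_mul hu hv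

theorem reg_factor (B : β → LS Ω T) (b : β) : Reg (uB (∏ i, B i)) (B b) := by
  classical
  rw [← Finset.mul_prod_erase _ _ (Finset.mem_univ b)]
  exact reg_left _ _

theorem prp_left {U V : LS Ω T} {x y : T} (h : Prp (U * V) x y) : Prp U x y := by
  obtain ⟨c, hc, h⟩ := h
  obtain ⟨v, hv, h1⟩ := V.nv x
  obtain ⟨u, hu, h2⟩ := U.nv x
  have h3 : v y ≠ 0 := fun e => mul_ne_zero hc (mul_ne_zero h2 h1)
    ((h _ (Submodule.mul_mem_mul hu hv)).symm.trans (by rw [Pi.mul_apply, e, mul_zero]))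
  refine ⟨c * v x / v y, div_ne_zero (mul_ne_zero hc h1) h3, fun u hu => ?_⟩
  have := h _ (Submodule.mul_mem_mul hu hv)
  simp only [Pi.mul_apply] at this
  field_simp
  linear_combination this

theorem prp_factor {B : β → LS Ω T} {x y : T} (h : Prp (∏ i, B i) x y) (b : β) :
    Prp (B b) x y := by
  classical
  rw [← Finset.mul_prod_erase _ _ (Finset.mem_univ b)] at h
  exact prp_left h

theorem mix_le_mul {B : β → LS Ω T} {n : ℕ} (hB : Src B n) (hn : n ≤ Fintype.card ν)
    {W V : ν → LS Ω T} (hW : ∀ k, Reg B (W k)) (hV : ∀ k, Reg B (V k)) :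
    mix B W ≤ mix B fun k => W k * V k := by
  classical
  have key : ∀ s : Finset ν, mix B W ≤ mix B fun k => if k ∈ s then W k * V k else W k := by
    intro s
    induction s using Finset.induction_on with
    | empty => simp
    | insert i s hi ih =>
      have hr : ∀ k, Reg B (if k ∈ s then W k * V k else W k) := fun k => by
        split_ifs
        exacts [(hW k).mul (hV k), hW k]
      have h1 := mix_update_mul hB hr hn i (hW i) (hV i)
      have e1 : update (fun k => if k ∈ s then W k * V k else W k) i (W i) =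
          fun k => if k ∈ s then W k * V k else W k := update_eq_self_iff.2 (by simp [hi])
      have e2 : update (fun k => if k ∈ s then W k * V k else W k) i (W i * V i) =
          fun k => if k ∈ insert i s then W k * V k else W k := by
        funext k
        by_cases hk : k = i
        · subst hk; simp
        · simp [hk]
      rw [e1, e2] at h1
      rw [h1]
      exact ih.trans (le_add_of_nonneg_right (mix_ge hB (reg_update hr (hV i) i) hn))
  simpa using key Finset.univ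

theorem top_prod {B : β → LS Ω T} {sl : ν → β} (hB : Src B (Fintype.card ν))
    (h0 : mix B (B ∘ sl) ≠ 0) :
    mix (uB (∏ i, B i)) (fun _ : Fin (Fintype.card ν) => ∏ i, B i) ≠ 0 := by
  classical
  have hH : Reg B (∏ i, B i) := Reg.prod fun i _ => Reg.self B i
  rw [← mix_base hB (fun _ => hH) (reg_factor B) (fun _ => hH) (by simp)]
  have h1 := mix_le_mul hB le_rfl (W := B ∘ sl)
    (V := fun k => ∏ i ∈ Finset.univ.erase (sl k), B i) (fun k => Reg.self B _)
    fun k => Reg.prod fun i _ => Reg.self B i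
  simp only [comp_apply, Finset.mul_prod_erase _ _ (Finset.mem_univ _)] at h1
  have h2 := mix_equiv B (fun _ : Fin (Fintype.card ν) => ∏ i, B i) (Fintype.equivFin ν)
  rw [← h2]
  exact ((lt_of_le_of_ne (mix_ge hB (fun k => Reg.self B _) le_rfl) h0.symm).trans_le h1).ne'

theorem ab0_sim {B B' : β → LS Ω G} {sl : ν → β} (h : Ab0 B (B ∘ sl)) (par : ∀ b, ParL (B b))
    (hs : ∀ b, (B b).Sim (B' b)) : Ab0 B' (B' ∘ sl) := by
  have h1 : RegM B B' id := fun b => by rw [LS.pb_id]; exact (Reg.self B b).sim (hs b)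
  have h2 : RegM B' B id := fun b => by rw [LS.pb_id]; exact (Reg.self B' b).sim (hs b).symm
  exact ⟨h.src.of_reg fun b => (Reg.self B b).sim (hs b), fun _ => Reg.self B' _,
    (((h2.prodMap h2).comp h.sub).comp h1 :), fun _ => parL_sim (par _) (hs _),
    mix_sim hs (W := B ∘ sl) (W' := B' ∘ sl) (fun _ => hs _) ▸ h.pos⟩

end Br

variable [IsAlgClosed Ω]

/-- the product of the members of a base is a polarisation -/
def Ab.ofBase {B : β → LS Ω G} {sl : ν → β} (hc : Cmp B) (h : Ab0 B (B ∘ sl))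
    (par : ∀ b, ParL (B b)) (sep : ∀ x y, (∀ b, Prp (B b) x y) → x = y) : Ab Ω G where
  H := ∏ i, B i
  n := Fintype.card ν
  cmp := Ti.cmp_of_reg hc fun _ => Reg.prod fun i _ => Reg.self B i
  src := h.src.of_reg fun _ => Reg.prod fun i _ => Reg.self B i
  top := Br.top_prod h.src h.pos
  sep x y e := sep x y (Br.prp_factor e)
  sub := by
    have h1 : RegM B (uB (∏ i, B i)) id := fun _ => by
      rw [LS.pb_id]; exact Reg.prod fun i _ => Reg.self B i
    have h2 : RegM (uB (∏ i, B i)) B id := fun b => by rw [LS.pb_id]; exact Br.reg_factor B b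
    exact (((h2.prodMap h2).comp h.sub).comp h1 :)
  lam := (Br.parL_prod par).choose
  lam_ne := (Br.parL_prod par).choose_spec.1
  law := (Br.parL_prod par).choose_spec.2

theorem Ab.ofBase_like {B : β → LS Ω G} {sl : ν → β} (hc : Cmp B) (h : Ab0 B (B ∘ sl))
    (par : ∀ b, ParL (B b)) (sep : ∀ x y, (∀ b, Prp (B b) x y) → x = y) {C : γ → LS Ω G}
    (h1 : ∀ k, Reg B (C k)) (h2 : ∀ b, Reg C (B b)) : (Ab.ofBase hc h par sep).Like C :=
  ⟨fun k => by rw [LS.pb_id]; exact Reg.trans (Br.reg_factor B) (h1 k),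
    fun _ => by rw [LS.pb_id]; exact Reg.prod fun i _ => h2 i⟩

namespace Ab.Like

variable {A : Ab Ω G} {C : γ → LS Ω G} {D : κ → LS Ω T}

theorem source (h : A.Like C) {u : G → T} : RegM A.B D u ↔ RegM C D u :=
  ⟨fun hu => (h.2.comp hu :), fun hu => (h.1.comp hu :)⟩

theorem target (h : A.Like C) {u : T → G} : RegM D A.B u ↔ RegM D C u :=
  ⟨fun hu => (hu.comp h.1 :), fun hu => (hu.comp h.2 :)⟩

theorem mem_end (h : A.Like C) {a : AddMonoid.End G} : a ∈ A.End ↔ RegM C C a :=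
  h.source.trans h.target

theorem reg (h : A.Like C) (k : γ) : Reg A.B (C k) := by simpa only [LS.pb_id] using h.1 k

theorem reg' (h : A.Like C) : Reg C A.H := by simpa only [LS.pb_id] using h.2 ()

theorem mix_eq (h : A.Like C) {W : ν → LS Ω G} (hW : ∀ k, Reg C (W k))
    (hn : A.n ≤ Fintype.card ν) : mix A.B W = mix C W :=
  mix_base A.src h.reg (fun _ => h.reg') (fun k => Reg.trans h.reg (hW k)) hn

/-- the degree does not depend on the base -/
theorem deg (h : A.Like C) {u : G → G} {r : ℚ} (d : Deg C C u A.n r) (hu : RegM C C u) :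
    A.dd u = r * A.deg := by
  have h1 := d (Fin A.n) (fun _ => A.H) (by simp) fun _ => h.reg'
  rw [← h.mix_eq (fun _ => hu.pull h.reg') (by simp),
    ← h.mix_eq (fun _ => h.reg') (by simp)] at h1
  exact h1

end Ab.Like

variable [Fintype σ] [DecidableEq β] {w : σ → β} {fr : Ω ≃+* Ω} {Q : ℕ}

namespace Br

/-- a nonzero coordinate in each block -/
def piv (w : σ → β) (y : σ → Ω) (b : β) : Ω :=
  open Classical in if h : ∃ v, w v = b ∧ y v ≠ 0 then y h.choose else 1

/-- normalised coordinates -/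
def nrm (w : σ → β) (y : σ → Ω) (l : σ) : Ω := y l / piv w y (w l)

theorem piv_ne (w : σ → β) (y : σ → Ω) (b : β) : piv w y b ≠ 0 := by
  unfold piv
  split_ifs with h
  exacts [h.choose_spec.2, one_ne_zero]

theorem nrm_frob (hQ : Q ≠ 0) {y z : σ → Ω} (h : BPar w z (y ^ Q)) (l : σ) :
    nrm w z l = nrm w y l ^ Q := by
  obtain ⟨c, hc, h⟩ := h
  have e : ∀ b, (fun v => w v = b ∧ z v ≠ 0) = fun v => w v = b ∧ y v ≠ 0 := fun b =>
    funext fun v => by simp [h, hc, hQ]
  by_cases h1 : ∃ v, w v = w l ∧ y v ≠ 0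
  · have h2 : ∃ v, w v = w l ∧ z v ≠ 0 := e (w l) ▸ h1
    have h3 : h2.choose = h1.choose := by congr 1; exact e _
    rw [nrm, nrm, piv, piv, dif_pos h1, dif_pos h2, h3, h, h, h1.choose_spec.1, div_pow,
      mul_div_mul_left _ _ (hc _)]
    rfl
  · have h2 : y l = 0 := by_contra fun h0 => h1 ⟨l, rfl, h0⟩
    simp [nrm, h, h2, hQ]

theorem nrm_bpar (w : σ → β) (y : σ → Ω) : BPar w (nrm w y) y :=
  ⟨fun b => (piv w y b)⁻¹, fun b => inv_ne_zero (piv_ne w y b), fun l => by
    rw [nrm, div_eq_inv_mul]⟩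

theorem bpar_of_nrm {y z : σ → Ω} (h : nrm w y = nrm w z) : BPar w y z :=
  ⟨fun b => piv w y b / piv w z b, fun b => div_ne_zero (piv_ne w y b) (piv_ne w z b), fun l => by
    have h1 := congrFun h l
    have := piv_ne w y (w l)
    have := piv_ne w z (w l)
    simp only [nrm] at h1
    field_simp at h1 ⊢
    linear_combination h1⟩

variable {x : T → σ → Ω} (hx : ∀ t b, ∃ v, w v = b ∧ x t v ≠ 0)
include hx

theorem hx_nrm (t : T) (b : β) : ∃ v, w v = b ∧ nrm w (x t) v ≠ 0 :=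
  (hx t b).imp fun _ h => ⟨h.1, div_ne_zero h.2 (piv_ne _ _ _)⟩

theorem sim_nrm (b : β) :
    (LS.blk w x hx b).Sim (LS.blk w (fun t => nrm w (x t)) (hx_nrm hx) b) := by
  obtain ⟨hp, e⟩ := blk_eq_coA x hx b
  obtain ⟨hp', e'⟩ := blk_eq_coA (fun t => nrm w (x t)) (hx_nrm hx) b
  rw [e, e']
  exact LS.sim_co _ _ fun t => ⟨(piv w (x t) b)⁻¹, funext fun l => by
    rw [Pi.smul_apply, smul_eq_mul, nrm, l.2, div_eq_inv_mul]⟩

theorem pb_eq_tw {F : T → T} (h : ∀ t l, x (F t) l = fr (x t l)) (b : β) :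
    (LS.blk w x hx b).pb F = (LS.blk w x hx b).tw fr := by
  obtain ⟨hp, e⟩ := blk_eq_coA x hx b
  have hq : ∀ y, (fun l : {l // w l = b} => fr (x y l)) ≠ 0 := fun y h0 =>
    hp y (funext fun l => by simpa using congrFun h0 l)
  rw [e, LS.pb_co, LS.tw_co fr _ _ hq]
  simp only [h]

omit hx in
theorem frob_bij (hq : IsQ fr Q) (hi : Injective x) {F : T → T}
    (h : ∀ t l, x (F t) l = fr (x t l)) : Bijective F := by
  refine ⟨fun t t' e => hi (funext fun l => fr.injective (by rw [← h, ← h, e])), fun y => ?_⟩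
  have hit : ∀ m t l, x (F^[m] t) l = fr^[m] (x t l) := fun m => by
    induction m with
    | zero => exact fun _ _ => rfl
    | succ m ih => exact fun t l => by rw [iterate_succ_apply', iterate_succ_apply', h, ih]
  have hp : ∀ (m : ℕ) c, fr^[m] c = c ^ Q ^ m := fun m => by
    induction m with
    | zero => simp
    | succ m ih => exact fun c => by rw [iterate_succ_apply', ih, hq.2, ← pow_mul, pow_succ]
  choose m hm h1 using fun l => hq.1.2.2.2 (x y l)
  have h2 : F^[∏ l, m l] y = y := hi (funext fun l => by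
    rw [hit]
    exact IsPeriodicPt.trans_dvd (f := fr) (m := m l) ((hp _ _).trans (h1 l))
      (Finset.dvd_prod_of_mem _ (Finset.mem_univ l)))
  obtain ⟨n, hn⟩ := Nat.exists_eq_succ_of_ne_zero
    (Finset.prod_ne_zero_iff.2 fun l (_ : l ∈ Finset.univ) => hm l)
  rw [hn, iterate_succ_apply'] at h2
  exact ⟨_, h2⟩

end Br

/-- BRIDGE: one polarisation that serves every Frobenius map -/
theorem Ab.exists_blk {x : G → σ → Ω} {hx : ∀ t b, ∃ v, w v = b ∧ x t v ≠ 0} {sl : ν → β}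
    (cl : Cl w x) (hi : ∀ y y', BPar w (x y) (x y') → y = y')
    (h : Ab0 (LS.blk w x hx) (LS.blk w x hx ∘ sl)) (par : ∀ b, ParL (LS.blk w x hx b)) :
    ∃ A : Ab Ω G, A.n = Fintype.card ν ∧ A.Like (LS.blk w x hx) ∧
      ∀ (fr : Ω ≃+* Ω) (Q : ℕ) (F : G →+ G), IsQ fr Q →
        (∀ t, BPar w (x (F t)) (x t ^ Q)) → A.Fr fr F := by
  have hs := Br.sim_nrm hx
  have h1 : Injective fun t => Br.nrm w (x t) := fun y y' e => hi y y' (Br.bpar_of_nrm e)
  have h2 := fun b => (Reg.self _ b).sim (hs b)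
  refine ⟨Ab.ofBase (Ti.cmp_of_reg (Ti.cmp_of_cl hx cl) h2) (Br.ab0_sim h par hs)
    (fun b => Br.parL_sim (par b) (hs b)) (sep_of_inj fun y y' e => hi y y' ?_), rfl,
    Ab.ofBase_like _ _ _ _ (fun b => (Reg.self _ b).sim (hs b).symm) h2, fun fr Q F hq hF => ?_⟩
  · obtain ⟨c, hc, e⟩ := e
    refine ⟨fun b => Br.piv w (x y) b * c b / Br.piv w (x y') b, fun b => div_ne_zero
      (mul_ne_zero (Br.piv_ne _ _ _) (hc b)) (Br.piv_ne _ _ _), fun l => ?_⟩
    have h3 := e l
    have := Br.piv_ne w (x y) (w l)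
    have := Br.piv_ne w (x y') (w l)
    simp only [Br.nrm] at h3
    field_simp at h3 ⊢
    linear_combination h3
  · have h3 : ∀ t l, Br.nrm w (x (F t)) l = fr (Br.nrm w (x t) l) := fun t l => by
      rw [hq.2, Br.nrm_frob (by have := hq.1.1; omega) (hF t)]
    refine ⟨Br.frob_bij hq h1 h3, ?_⟩
    exact (LS.pb_prod _ _ _).trans ((Finset.prod_congr rfl fun b _ => Br.pb_eq_tw _ h3 b).trans
      (LS.tw_prod _ _ _).symm)

/-- a fibre is a polarised abelian variety -/
theorem Fib.exists_ab {s : Sh} (B : Fib Ω s) (hi : Ti.FInj B) :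
    ∃ A : Ab Ω B.G, A.n = s.n ∧ A.Like B.H ∧
      (∀ (fr : Ω ≃+* Ω) (Q : ℕ) (π : s.Λ), IsQ fr Q → B.Frob π Q →
        A.Fr fr (Module.toAddMonoidEnd s.Λ B.G π)) ∧
      (B.Deg → A.Sys (Module.toAddMonoidEnd s.Λ B.G) s.χ) := by
  obtain ⟨A, h1, h2, h3⟩ := Ab.exists_blk B.cl hi B.ab0 fun b => (B.par b).parL
  refine ⟨A, h1, h2, fun fr Q π hq hπ => h3 fr Q _ hq hπ, fun hd =>
    ⟨fun a => h2.mem_end.2 (B.smul a), ⟨s.bas⟩, s.inj, h1 ▸ s.card, fun a => ?_⟩⟩
  let a' : B.ab0.endR := ⟨Module.toAddMonoidEnd s.Λ B.G a, B.smul a⟩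
  have h4 := h2.deg (h1 ▸ B.ab0.dg_spec a') a'.2
  have h5 := hd a
  rw [Fib.DD_eq, B.DD_id] at h5
  have h6 : (B.ab0.dg a' : ℂ) = Det.nm s.χ a := by
    refine mul_right_cancel₀ (Rat.cast_ne_zero.2 B.top) (Eq.trans ?_ h5)
    exact_mod_cast (B.ab0.dM_eq a').symm
  rw [← h6]
  exact_mod_cast h4

variable {g : ℕ} {p : G → σ → Ω}

omit [IsAlgClosed Ω] in
theorem AV.ab0 (h : AV p g) (hl : ParL (LS.co p h.ne)) :
    Ab0 (LS.blk (fun _ : σ => ()) p (hx_unit h.ne))
      (LS.blk (fun _ : σ => ()) p (hx_unit h.ne) ∘ fun _ : Fin g => ()) := by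
  rw [blk_unit' h.ne]
  exact ⟨by rw [Fintype.card_fin]; exact h.src, fun _ => Reg.self _ (), fun _ => h.sub',
    fun _ => hl, h.top⟩

/-- an embedded abelian variety with the law is a polarised abelian variety -/
theorem AV.exists_ab (h : AV p g) (hi : ∀ y y', Par (p y) (p y') → y = y') (hl : Ti.Law p) :
    ∃ A : Ab Ω G, A.n = g ∧ A.Like (uB (LS.co p h.ne)) ∧
      ∀ (fr : Ω ≃+* Ω) (Q : ℕ) (F : G →+ G), IsQ fr Q →
        (∀ t, Par (p (F t)) (p t ^ Q)) → A.Fr fr F := by
  have hp := (ParLaw.of_law h.ne (h.cl_blk _) hl).parL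
  obtain ⟨A, h1, h2, h3⟩ := Ab.exists_blk (h.cl_blk _) (fun y y' e => hi y y' (Par.bPar.2 e))
    (h.ab0 hp) fun b => by rw [blk_unit]; exact hp
  rw [blk_unit' h.ne] at h2
  exact ⟨A, h1.trans (Fintype.card_fin g), h2, fun fr Q F hq hF =>
    h3 fr Q F hq fun t => Par.bPar.1 (hF t)⟩

end Pool.Agent.Tav
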