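import Pool.Agent.P.MP_2ce3e7_ag.Tav.Fib

/-! Fibres of algebraic extensions of domains in any characteristic. -/

set_option autoImplicit false

namespace Pool.Agent.Tav.Cnt

open Polynomial Module Fib
open scoped nonZeroDivisors IntermediateField

theorem sep_of_rank {F L : Type*} [Field F] [Field L] [Algebra F L] [FiniteDimensional F L]
    (h : (finrank F L : F) ≠ 0) : Algebra.IsSeparable F L := by
  obtain ⟨q, hq⟩ := ExpChar.exists F
  obtain ⟨n, hn⟩ := finInsepDegree_eq_pow F L q
  rw [isSeparable_iff_finInsepDegree_eq_one, hn]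
  cases hq with
  | zero => exact one_pow n
  | prime hp =>
    rcases n with _ | n
    · exact pow_zero q
    · refine absurd ?_ h
      rw [← Field.finSepDegree_mul_finInsepDegree, hn]
      simp [pow_succ]

/-- extension along an integral injective map -/
theorem ext_int {B A K : Type*} [CommRing B] [CommRing A] [Algebra B A] [FaithfulSMul B A]
    [Algebra.IsIntegral B A] [Field K] [IsAlgClosed K] (χ : B →+* K) :
    ∃ ψ : A →+* K, ∀ b, ψ (algebraMap B A b) = χ b := by
  have := RingHom.ker_isPrime χ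
  obtain ⟨Q, -, hQ, e⟩ := Ideal.exists_ideal_over_prime_of_isIntegral (S := A) (RingHom.ker χ) ⊥
    (by rw [← RingHom.ker_eq_comap_bot, (RingHom.injective_iff_ker_eq_bot _).1
      (FaithfulSMul.algebraMap_injective B A)]; exact bot_le)
  have h1 : ∀ b ∈ Q.comap (algebraMap B A), χ b = 0 := fun b hb => by rwa [e] at hb
  let := (Ideal.Quotient.lift _ χ h1).toAlgebra
  have : FaithfulSMul (B ⧸ Q.comap (algebraMap B A)) K :=
    (faithfulSMul_iff_algebraMap_injective _ _).2 ((injective_iff_map_eq_zero _).2 fun b hb => by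
      obtain ⟨b, rfl⟩ := Ideal.Quotient.mk_surjective b
      exact Ideal.Quotient.eq_zero_iff_mem.2 (e ▸ hb))
  have : FaithfulSMul (B ⧸ Q.comap (algebraMap B A)) (A ⧸ Q) :=
    (faithfulSMul_iff_algebraMap_injective _ _).2 Ideal.algebraMap_quotient_injective
  let φ : (A ⧸ Q) →ₐ[B ⧸ Q.comap (algebraMap B A)] K := IsAlgClosed.lift
  exact ⟨φ.toRingHom.comp (Ideal.Quotient.mk Q), fun b => φ.commutes (Ideal.Quotient.mk _ b)⟩

variable {B A : Type*} [CommRing B] [IsDomain B] [CommRing A] [IsDomain A] [Algebra B A]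

attribute [local instance] FractionRing.liftAlgebra

variable [FaithfulSMul B A] [Algebra.FiniteType B A] [Algebra.IsAlgebraic B A]

omit [IsDomain A] in
/-- the general fibre is not empty -/
theorem ne_fibre (K : Type*) [Field K] [IsAlgClosed K] :
    ∃ f : B, f ≠ 0 ∧ ∀ χ : B →+* K, χ f ≠ 0 → ∃ ψ : A →+* K, ∀ b, ψ (algebraMap B A b) = χ b := by
  classical
  obtain ⟨s, hs⟩ := Algebra.FiniteType.out (R := B) (A := A)
  obtain ⟨f, hf, h⟩ := Algebra.IsAlgebraic.exists_integral_multiples B s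
  refine ⟨f, hf, fun χ hχ => ?_⟩
  let A' := Algebra.adjoin B ((fun z => f • z) '' (s : Set A))
  have : Algebra.IsIntegral B A' := Algebra.IsIntegral.adjoin (by
    rintro _ ⟨z, hz, rfl⟩; exact h z hz)
  have : FaithfulSMul B A' := (faithfulSMul_iff_algebraMap_injective _ _).2 fun x y e =>
    FaithfulSMul.algebraMap_injective B A (congrArg Subtype.val e)
  obtain ⟨η, hη⟩ := ext_int (A := A') χ
  obtain ⟨ψ, hψ⟩ := ext_of_pow A'.val.toRingHom (algebraMap B A' f) (fun a => by
    have ha : a ∈ Algebra.adjoin B (s : Set A) := hs ▸ Algebra.mem_top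
    induction ha using Algebra.adjoin_induction with
    | mem a ha =>
      exact ⟨1, ⟨f • a, Algebra.subset_adjoin ⟨a, ha, rfl⟩⟩, by simp [Algebra.smul_def]⟩
    | algebraMap b => exact ⟨0, algebraMap B A' b, by simp⟩
    | add a b _ _ ha hb =>
      obtain ⟨N, r, h1⟩ := ha
      obtain ⟨N', r', h2⟩ := hb
      exact ⟨N + N', r * algebraMap B A' f ^ N' + algebraMap B A' f ^ N * r', by
        simp only [map_add, map_mul, map_pow, ← h1, ← h2]; ring⟩
    | mul a b _ _ ha hb =>
      obtain ⟨N, r, h1⟩ := ha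
      obtain ⟨N', r', h2⟩ := hb
      exact ⟨N + N', r * r', by simp only [map_mul, ← h1, ← h2]; ring⟩) η (by rwa [hη])
    fun r hr => by rw [show r = 0 from Subtype.ext hr, map_zero]
  exact ⟨ψ, fun b => (hψ (algebraMap B A' b)).trans (hη b)⟩

/-- a primitive element with a monic separable equation -/
theorem exists_prim (h0 : (finrank B A : B) ≠ 0) :
    ∃ (ξ : A) (P : B[X]), P.Monic ∧ P.natDegree = finrank B A ∧
    aeval ξ P = 0 ∧ (∀ Q : B[X], aeval ξ Q = 0 → P ∣ Q) ∧
    (∀ a : A, ∃ e : B, e ≠ 0 ∧ ∃ Q : B[X], algebraMap B A e * a = aeval ξ Q) ∧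
    ∃ δ : B, δ ≠ 0 ∧ ∃ U V : B[X], U * P + V * derivative P = C δ := by
  have := fin_frac (B := B) (A := A)
  set F := FractionRing B
  set L := FractionRing A
  have iF : Function.Injective (algebraMap B F) := IsFractionRing.injective _ _
  have : Algebra.IsSeparable F L := sep_of_rank (by
    rw [IsFractionRing.finrank_eq B F A L, ← map_natCast (algebraMap B F)]
    exact (map_ne_zero_iff _ iF).2 h0)
  have iL : Function.Injective (algebraMap A L) := IsFractionRing.injective _ _
  have ev : ∀ (ξ : A) (Q : B[X]), aeval (algebraMap A L ξ) (Q.map (algebraMap B F)) =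
      algebraMap A L (aeval ξ Q) := fun ξ Q => by
    rw [aeval_map_algebraMap, aeval_algebraMap_apply]
  have sc : ∀ (x : L) (c : F), c ≠ 0 → F⟮x⟯ = ⊤ → F⟮c • x⟯ = ⊤ := fun x c hc h => by
    rw [eq_top_iff, ← h, IntermediateField.adjoin_simple_le_iff]
    simpa [hc] using F⟮c • x⟯.smul_mem (IntermediateField.mem_adjoin_simple_self F (c • x)) (x := c⁻¹)
  obtain ⟨α, hα⟩ := Field.exists_primitive_element F L
  obtain ⟨⟨a, _, b, hb, rfl⟩, hab⟩ := IsLocalization.surj (Algebra.algebraMapSubmonoid A B⁰) α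
  have h1 : F⟮algebraMap A L a⟯ = ⊤ := by
    have := sc α (algebraMap B F b) (by simpa using nonZeroDivisors.ne_zero hb) hα
    rwa [Algebra.smul_def, ← IsScalarTower.algebraMap_apply, IsScalarTower.algebraMap_apply B A L,
      mul_comm, hab] at this
  obtain ⟨c, hc, P0, hP0⟩ := clear (minpoly F (algebraMap A L a))
  have hc' : algebraMap B F c ≠ 0 := by simpa using hc
  have hm := minpoly.monic (Algebra.IsIntegral.isIntegral (R := F) (algebraMap A L a))
  have l0 : P0.leadingCoeff = c := iF (by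
    rw [← leadingCoeff_map_of_injective iF, hP0, leadingCoeff_mul, leadingCoeff_C, hm.leadingCoeff,
      mul_one])
  have n0 : P0 ≠ 0 := fun h => hc (by rw [← l0, h, leadingCoeff_zero])
  have d0 : P0.natDegree = finrank F L := by
    rw [← natDegree_map_eq_of_injective iF, hP0, natDegree_C_mul hc',
      (Field.primitive_element_iff_minpoly_natDegree_eq F _).1 h1]
  have a0 : aeval a P0 = 0 := iL (by rw [← ev, hP0]; simp)
  obtain ⟨ξ, hξ⟩ : ∃ ξ, ξ = algebraMap B A c * a := ⟨_, rfl⟩
  have h2 : F⟮algebraMap A L ξ⟯ = ⊤ := by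
    have := sc _ _ hc' h1
    rwa [Algebra.smul_def, ← IsScalarTower.algebraMap_apply, IsScalarTower.algebraMap_apply B A L,
      ← map_mul, ← hξ] at this
  have hi := Algebra.IsIntegral.isIntegral (R := F) (algebraMap A L ξ)
  obtain ⟨P, hP⟩ : ∃ P, P = integralNormalization P0 := ⟨_, rfl⟩
  have m1 : P.Monic := hP ▸ monic_integralNormalization n0
  have d1 : P.natDegree = finrank F L := by rw [hP, natDegree_integralNormalization, d0]
  have a1 : aeval ξ P = 0 := by
    rw [hP, hξ, ← l0]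
    exact integralNormalization_aeval_eq_zero a0 fun x hx =>
      FaithfulSMul.algebraMap_injective B A (by simpa using hx)
  have d2 := (Field.primitive_element_iff_minpoly_natDegree_eq F _).1 h2
  have e1 : P.map (algebraMap B F) = minpoly F (algebraMap A L ξ) :=
    (eq_of_monic_of_dvd_of_natDegree_le (minpoly.monic hi) (m1.map _)
      (minpoly.dvd _ _ (by rw [ev, a1, map_zero]))
      (by rw [m1.natDegree_map, d1, d2]))
  refine ⟨ξ, P, m1, by rw [d1, IsFractionRing.finrank_eq B F A L], a1, fun Q hQ => ?_,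
    fun x => ?_, ?_⟩
  · rw [← map_dvd_map _ iF m1, e1]
    exact minpoly.dvd _ _ (by rw [ev, hQ, map_zero])
  · have : algebraMap A L x ∈ F⟮algebraMap A L ξ⟯.toSubalgebra := by rw [h2]; trivial
    rw [IntermediateField.adjoin_simple_toSubalgebra_of_isAlgebraic hi.isAlgebraic,
      Algebra.adjoin_singleton_eq_range_aeval] at this
    obtain ⟨q, hq⟩ := this
    obtain ⟨e, he, Q, hQ⟩ := clear q
    refine ⟨e, he, Q, iL ?_⟩
    rw [← ev, hQ, map_mul, map_mul, aeval_C, ← IsScalarTower.algebraMap_apply,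
      ← IsScalarTower.algebraMap_apply, ← hq]
    rfl
  · obtain ⟨u, v, huv⟩ : (minpoly F (algebraMap A L ξ)).Separable :=
      Algebra.IsSeparable.isSeparable F _
    obtain ⟨e, he, U, hU⟩ := clear u
    obtain ⟨e', he', V, hV⟩ := clear v
    refine ⟨e * e', mul_ne_zero he he', C e' * U, C e * V, map_injective _ iF ?_⟩
    simp only [Polynomial.map_add, Polynomial.map_mul, map_C, ← derivative_map, e1, map_mul]
    rw [hU, hV]
    linear_combination C (algebraMap B F e) * C (algebraMap B F e') * huv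

/-- if the rank is invertible the general fibre has as many points as the rank -/
theorem card_fibre (hr : (finrank B A : B) ≠ 0) (K : Type*) [Field K] [IsAlgClosed K] :
    ∃ f : B, f ≠ 0 ∧ ∀ χ : B →+* K, χ f ≠ 0 →
      {ψ : A →+* K | ∀ b, ψ (algebraMap B A b) = χ b}.encard = finrank B A := by
  classical
  obtain ⟨ξ, P, hm, hd, h0, hk, hs, δ, hδ, U, V, hUV⟩ := exists_prim hr
  obtain ⟨s, hs'⟩ := Algebra.FiniteType.out (R := B) (A := A)
  choose e he Q hQ using hs
  obtain ⟨f, hf⟩ : ∃ f, f = ∏ a ∈ s, e a := ⟨_, rfl⟩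
  have hp : ∀ a : A, ∃ (N : ℕ) (r : B[X]), (aeval ξ).toRingHom (C f) ^ N * a =
      (aeval ξ).toRingHom r := by
    intro a
    have ha : a ∈ Algebra.adjoin B (s : Set A) := hs' ▸ Algebra.mem_top
    induction ha using Algebra.adjoin_induction with
    | mem a ha =>
      refine ⟨1, C (∏ b ∈ s.erase a, e b) * Q a, ?_⟩
      rw [hf, ← Finset.prod_erase_mul s e ha]
      simp [← hQ, mul_assoc]
    | algebraMap b => exact ⟨0, C b, by simp⟩
    | add a b _ _ ha hb =>
      obtain ⟨N, r, h1⟩ := ha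
      obtain ⟨N', r', h2⟩ := hb
      exact ⟨N + N', r * C f ^ N' + C f ^ N * r', by
        simp only [map_add, map_mul, map_pow, ← h1, ← h2]; ring⟩
    | mul a b _ _ ha hb =>
      obtain ⟨N, r, h1⟩ := ha
      obtain ⟨N', r', h2⟩ := hb
      exact ⟨N + N', r * r', by simp only [map_mul, ← h1, ← h2]; ring⟩
  refine ⟨f * δ, mul_ne_zero (hf ▸ Finset.prod_ne_zero_iff.2 fun a _ => he a) hδ, fun χ hχ => ?_⟩
  rw [map_mul, mul_ne_zero_iff] at hχ
  have ev : ∀ ψ : A →+* K, (∀ b, ψ (algebraMap B A b) = χ b) → ∀ r : B[X],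
      ψ (aeval ξ r) = (r.map χ).eval (ψ ξ) := fun ψ h r => by
    rw [eval_map, aeval_def, hom_eval₂]
    congr 1
    exact RingHom.ext h
  have hsep : (P.map χ).Separable := ⟨C (χ δ)⁻¹ * U.map χ, C (χ δ)⁻¹ * V.map χ, by
    rw [mul_assoc, mul_assoc, ← mul_add, derivative_map, ← Polynomial.map_mul, ← Polynomial.map_mul,
      ← Polynomial.map_add, hUV, map_C, ← C_mul, inv_mul_cancel₀ hχ.2, C_1]⟩
  have hb : Set.BijOn (fun ψ : A →+* K => ψ ξ) {ψ | ∀ b, ψ (algebraMap B A b) = χ b}
      (P.map χ).roots.toFinset := by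
    refine ⟨fun ψ h => ?_, fun ψ h ψ' h' e => RingHom.ext fun a => ?_, fun y hy => ?_⟩
    · simp only [Finset.mem_coe, Multiset.mem_toFinset, mem_roots (hm.map χ).ne_zero, IsRoot.def]
      rw [← ev ψ h, h0, map_zero]
    · obtain ⟨N, r, hr⟩ := hp a
      have e1 := congrArg ψ hr
      have e2 := congrArg ψ' hr
      simp only [AlgHom.toRingHom_eq_coe, RingHom.coe_coe, aeval_C, map_mul, map_pow] at e1 e2
      rw [ev ψ h, h] at e1
      rw [ev ψ' h', h', ← show ψ ξ = ψ' ξ from e, ← e1] at e2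
      exact (mul_left_cancel₀ (pow_ne_zero _ hχ.1) e2).symm
    · simp only [Finset.mem_coe, Multiset.mem_toFinset, mem_roots (hm.map χ).ne_zero,
        IsRoot.def, eval_map] at hy
      obtain ⟨ψ, hψ⟩ := ext_of_pow _ _ hp (eval₂RingHom χ y) (by simpa using hχ.1) fun r hr => by
        obtain ⟨t, rfl⟩ := hk r hr
        simp [hy]
      exact ⟨ψ, fun b => by simpa using hψ (C b), by simpa using hψ X⟩
  rw [← hb.injOn.encard_image, hb.image_eq, Set.encard_coe_eq_coe_finsetCard,
    Multiset.toFinset_card_of_nodup (nodup_roots hsep), ← hd,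
    ← (IsAlgClosed.splits (P.map χ)).natDegree_eq_card_roots, hm.natDegree_map]

end Pool.Agent.Tav.Cnt
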