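import Pool.Agent.P.MP_2ce3e7_ag.Tav.TiCntA
import Pool.Agent.P.MP_2ce3e7_ag.Tav.FibR
import Pool.Agent.P.MP_2ce3e7_ag.Tav.GDefs

/-! The general fibre of a regular map, in any characteristic. -/

set_option autoImplicit false

noncomputable section

namespace Pool.Agent.Tav.Cnt

open MvPolynomial Module Set Fib

variable {K T U Y σ τ : Type} [Field K]

/-- homogenisation -/
theorem adj_hom {M ι : Type} [AddCommMonoid M] (R : M → Submodule K (T → K))
    (hR : ∀ a b, R a * R b ≤ R (a + b)) (s : M → T → K) (hs : ∀ a, s a ∈ R a)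
    (ha : ∀ a b, s (a + b) = s a * s b) (i : U → T) (g : ι → U → K)
    (hg : ∀ l, ∃ d, ∃ u ∈ R d, ∀ t, g l t * s d (i t) = u (i t)) {a : U → K}
    (h : a ∈ Algebra.adjoin K (range g)) :
    ∃ d, ∀ d', ∃ u ∈ R (d + d'), ∀ t, a t * s (d + d') (i t) = u (i t) := by
  suffices h : ∃ d, ∃ u ∈ R d, ∀ t, a t * s d (i t) = u (i t) by
    obtain ⟨d, u, h1, h2⟩ := h
    exact ⟨d, fun d' => ⟨u * s d', hR _ _ (Submodule.mul_mem_mul h1 (hs _)), fun t => by
      rw [ha, Pi.mul_apply, Pi.mul_apply, ← mul_assoc, h2]⟩⟩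
  induction h using Algebra.adjoin_induction with
  | mem a h => obtain ⟨l, rfl⟩ := h; exact hg l
  | algebraMap c => exact ⟨0, c • s 0, Submodule.smul_mem _ _ (hs 0), fun t => rfl⟩
  | add a b _ _ h h' =>
    obtain ⟨d, u, h1, h2⟩ := h
    obtain ⟨d', u', h3, h4⟩ := h'
    refine ⟨d + d', u * s d' + s d * u', add_mem (hR _ _ (Submodule.mul_mem_mul h1 (hs _)))
      (hR _ _ (Submodule.mul_mem_mul (hs _) h3)), fun t => ?_⟩
    simp only [ha, Pi.add_apply, Pi.mul_apply, ← h2, ← h4]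
    ring
  | mul a b _ _ h h' =>
    obtain ⟨d, u, h1, h2⟩ := h
    obtain ⟨d', u', h3, h4⟩ := h'
    refine ⟨d + d', u * u', hR _ _ (Submodule.mul_mem_mul h1 h3), fun t => ?_⟩
    simp only [ha, Pi.mul_apply, ← h2, ← h4]
    ring

theorem coe_aeval (S : Subalgebra K (U → K)) (P : σ → S) (h : MvPolynomial σ K) (t : U) :
    (aeval P h : S).1 t = eval (fun l => (P l).1 t) h := by
  induction h using MvPolynomial.induction_on with
  | C c => simp
  | add a b ha hb => simp [ha, hb]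
  | mul_X a v ha => simp [ha]

/-- dehomogenisation -/
theorem dehom (S : Subalgebra K (U → K)) {x : T → σ → K} (i : U → T) {a : σ}
    (ha : ∀ t, x (i t) a ≠ 0) (P : σ → S) (hP : ∀ l t, (P l).1 t = x (i t) l / x (i t) a) {e : ℕ}
    {u : T → K} (hu : u ∈ crd x ^ e) : ∃ h : MvPolynomial σ K, h.IsHomogeneous e ∧
      (∀ t, eval (x t) h = u t) ∧ ∀ t, (aeval P h : S).1 t * x (i t) a ^ e = u (i t) := by
  obtain ⟨h, h1, h2⟩ := crd_pow x e u hu
  refine ⟨h, h1, h2, fun t => ?_⟩
  rw [coe_aeval, mul_comm, ← eval_smul_hom h1, ← h2]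
  congr 2
  funext l
  rw [Pi.smul_apply, hP, smul_eq_mul, mul_div_cancel₀ _ (ha t)]

theorem rank_eq {B A : Type} [CommRing B] [IsDomain B] [CommRing A] [Algebra B A] {r : ℕ}
    {u : Fin r → A} (hu : LinearIndependent B u)
    (h : ∀ s : Finset A, ∃ v : Fin r → A, ∀ a ∈ s, ∃ b : B, b ≠ 0 ∧
      b • a ∈ Submodule.span B (range v)) : finrank B A = r ∧ Algebra.IsAlgebraic B A := by
  classical
  have key : ∀ (ι : Type) [Fintype ι] (a : ι → A), LinearIndependent B a → Fintype.card ι ≤ r := by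
    intro ι _ a ha
    obtain ⟨v, hv⟩ := h (Finset.univ.image a)
    choose b b0 hb using fun i => hv (a i) (Finset.mem_image_of_mem _ (Finset.mem_univ i))
    have h1 : LinearIndependent B fun i => b i • a i :=
      Fintype.linearIndependent_iff.2 fun c hc i => (mul_eq_zero.1
        (Fintype.linearIndependent_iff.1 ha (fun i => c i * b i) (by simpa [mul_smul] using hc)
          i)).resolve_right (b0 i)
    have h2 := linearIndependent_le_span' _ h1 (range v) (by rintro _ ⟨i, rfl⟩; exact hb i)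
    rw [Cardinal.mk_fintype, Nat.cast_le] at h2
    exact h2.trans ((Fintype.card_range_le v).trans (Fintype.card_fin r).le)
  refine ⟨finrank_eq_of_rank_eq (le_antisymm (rank_le fun s hs => ?_) ?_), ⟨fun a => ?_⟩⟩
  · simpa using key s _ hs
  · simpa using hu.cardinal_le_rank
  · by_contra hn
    have h1 := ((Polynomial.basisMonomials B).linearIndependent.map'
      (Polynomial.aeval a).toLinearMap (LinearMap.ker_eq_bot.2
        (transcendental_iff_injective.1 hn))).comp _ (Fin.val_injective (n := r + 1))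
    simpa using key _ _ h1

/-- the general fibre is not empty, and has at least `r` points if the rank `r` is invertible -/
theorem gen_core [IsAlgClosed K] [Finite σ] [Nonempty T] {p : T → σ → K} (hp : ∀ t, p t ≠ 0)
    {q : Y → τ → K} (hq : ∀ y, q y ≠ 0)
    (cl : ∀ z ∈ zeroLocus K (idl p), z ≠ 0 → ∃ t, Par z (p t)) (j : T → Y)
    (reg : ∀ t, ∃ (e : ℕ) (c : T → K), c t ≠ 0 ∧ ∀ k, (c * fun t => q (j t) k) ∈ crd p ^ e)
    (dom : ∀ a b a' b' : ℕ, ∀ f ∈ crd p ^ a * crd (fun t => q (j t)) ^ b,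
      ∀ g ∈ crd p ^ a' * crd (fun t => q (j t)) ^ b', f * g = 0 → f = 0 ∨ g = 0)
    (den : ∀ e : ℕ, ∀ f ∈ crd q ^ e, (∀ t, f (j t) = 0) → f = 0) {N r : ℕ}
    (rk : ∀ m, N ≤ m → IsRk (fun e : ℕ => crd (fun t => q (j t)) ^ e) (crd p ^ m) r) :
    ∃ e : ℕ, ∃ F ∈ crd q ^ e, F ≠ 0 ∧ ∀ y, F y ≠ 0 → (∃ t, Par (q y) (q (j t))) ∧
      ((r : K) ≠ 0 → (r : ℕ∞) ≤ {t | Par (q y) (q (j t))}.encard) := by
  classical
  obtain ⟨t0⟩ := ‹Nonempty T›
  obtain ⟨a0, ha0⟩ := Function.ne_iff.1 (hp t0)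
  obtain ⟨b0, hb0⟩ := Function.ne_iff.1 (hq (j t0))
  set V := crd p
  set W := crd fun t => q (j t) with hW
  let U := {t // p t a0 ≠ 0 ∧ q (j t) b0 ≠ 0}
  let U' := {y // q y b0 ≠ 0}
  let i : U → U' := fun t => ⟨j t.1, t.2.2⟩
  let P : σ → U → K := fun l t => p t.1 l / p t.1 a0
  let Q : τ → U' → K := fun k y => q y.1 k / q y.1 b0
  let B := Algebra.adjoin K (range Q)
  let A := Algebra.adjoin K (range (Sum.elim P fun k t => Q k (i t)))
  let PA : σ → A := fun l => ⟨P l, Algebra.subset_adjoin ⟨.inl l, rfl⟩⟩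
  let QB : τ → B := fun k => ⟨Q k, Algebra.subset_adjoin ⟨k, rfl⟩⟩
  have hBA : ∀ b : B, (fun t => b.1 (i t)) ∈ A := fun b =>
    (Algebra.adjoin_le (S := A.comap (pbA K i)) (by
      rintro _ ⟨k, rfl⟩; exact Algebra.subset_adjoin ⟨.inr k, rfl⟩)) b.2
  let ρ : B →ₐ[K] A := ((pbA K i).comp B.val).codRestrict A hBA
  let := ρ.toRingHom.toAlgebra
  have hm : ∀ (b : B) t, (algebraMap B A b).1 t = b.1 (i t) := fun _ _ => rfl
  have hsm : ∀ (b : B) (a : A) t, (b • a).1 t = b.1 (i t) * a.1 t := fun _ _ _ => rfl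
  have van : ∀ a b : ℕ, ∀ f ∈ V ^ a * W ^ b, (∀ t : U, f t.1 = 0) → f = 0 := fun a b f hf h =>
    (dom a b 1 1 f hf ((fun t => p t a0) * fun t => q (j t) b0) (by
      rw [pow_one, pow_one]; exact Submodule.mul_mem_mul (mem_crd p a0) (mem_crd _ b0))
      (funext fun t => by
        by_cases e : p t a0 ≠ 0 ∧ q (j t) b0 ≠ 0
        · simp [h ⟨t, e⟩]
        · rcases not_and_or.1 e with e | e <;> simp [not_not.1 e])).resolve_right
      fun e => mul_ne_zero ha0 hb0 (congrFun e t0)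
  have pbW : ∀ e : ℕ, W ^ e = (crd q ^ e).map (pbA K j).toLinearMap := fun e => by
    rw [Submodule.map_pow, crd, Submodule.map_span, ← range_comp]; rfl
  have homB : ∀ b : B, ∃ d : ℕ, ∀ d' : ℕ, ∃ u ∈ crd q ^ (d + d'),
      ∀ y : U', b.1 y * q y.1 b0 ^ (d + d') = u y.1 := fun b =>
    adj_hom (fun e : ℕ => crd q ^ e) (fun a b => (pow_add _ a b).ge)
      (fun e => (fun y => q y b0) ^ e) (fun e => Submodule.pow_mem_pow _ (mem_crd q b0) e)
      (pow_add _) Subtype.val Q (fun k => ⟨1, fun y => q y k,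
        by rw [pow_one]; exact mem_crd q k, fun y => by simp [Q, y.2]⟩) b.2
  have homA : ∀ a : A, ∃ d : ℕ × ℕ, ∀ d' : ℕ × ℕ, ∃ u ∈ V ^ (d + d').1 * W ^ (d + d').2,
      ∀ t : U, a.1 t * (p t.1 a0 ^ (d + d').1 * q (j t.1) b0 ^ (d + d').2) = u t.1 := fun a =>
    adj_hom (fun e : ℕ × ℕ => V ^ e.1 * W ^ e.2)
      (fun a b => by rw [Prod.fst_add, Prod.snd_add, pow_add, pow_add, mul_mul_mul_comm])
      (fun e => (fun t => p t a0) ^ e.1 * (fun t => q (j t) b0) ^ e.2)
      (fun e => Submodule.mul_mem_mul (Submodule.pow_mem_pow _ (mem_crd p a0) _)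
        (Submodule.pow_mem_pow _ (mem_crd _ b0) _))
      (fun a b => by rw [Prod.fst_add, Prod.snd_add, pow_add, pow_add, mul_mul_mul_comm])
      Subtype.val _ (fun l => by
        rcases l with l | k
        · exact ⟨(1, 0), fun t => p t l, by simpa using mem_crd p l, fun t => by simp [P, t.2.1]⟩
        · exact ⟨(0, 1), fun t => q (j t) k, by simpa using mem_crd (fun t => q (j t)) k,
            fun t => by simp [Q, i, t.2.2]⟩) a.2
  have deV : ∀ {e : ℕ} {u}, u ∈ V ^ e → ∃ h : MvPolynomial σ K, h.IsHomogeneous e ∧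
      (∀ t, eval (p t) h = u t) ∧ ∀ t : U, (aeval PA h : A).1 t * p t.1 a0 ^ e = u t.1 :=
    fun hu => dehom A Subtype.val (fun t => t.2.1) PA (fun _ _ => rfl) hu
  have deW : ∀ {e : ℕ} {w}, w ∈ W ^ e → ∃ b : B, ∀ t : U,
      b.1 (i t) * q (j t.1) b0 ^ e = w t.1 := fun {e w} hw => by
    rw [pbW] at hw
    obtain ⟨w, hw, rfl⟩ := hw
    obtain ⟨h, -, -, h2⟩ := dehom B Subtype.val (fun y : U' => y.2) QB (fun _ _ => rfl) hw
    exact ⟨_, fun t => h2 (i t)⟩
  have inj : ∀ (b : B) (e : ℕ), ∀ u ∈ crd q ^ e, (∀ y : U', b.1 y * q y.1 b0 ^ e = u y.1) →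
      (∀ t, u (j t) = 0) → b = 0 := fun b e u hu h h0 => Subtype.ext (funext fun y => by
    have := h y
    rw [den e u hu h0] at this
    exact (mul_eq_zero.1 this).resolve_right (pow_ne_zero _ y.2))
  have : FaithfulSMul B A := (faithfulSMul_iff_algebraMap_injective _ _).2
    ((injective_iff_map_eq_zero _).2 fun b hb => by
      obtain ⟨d, hd⟩ := homB b
      obtain ⟨u, h1, h2⟩ := hd 0
      refine inj b _ u h1 h2 (congrFun (van 0 (d + 0) (pbA K j u) ?_ fun t => ?_))
      · rw [pow_zero, one_mul, pbW]; exact ⟨u, h1, rfl⟩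
      · rw [pbA_apply, ← h2 (i t), ← hm, hb]; simp)
  have : Nonempty U := ⟨⟨t0, ha0, hb0⟩⟩
  have : NoZeroDivisors A := ⟨fun {a b} h => by
    obtain ⟨d, hd⟩ := homA a
    obtain ⟨d', hd'⟩ := homA b
    obtain ⟨u, h1, h2⟩ := hd 0
    obtain ⟨u', h3, h4⟩ := hd' 0
    have h5 : u * u' = 0 := van ((d + 0).1 + (d' + 0).1) ((d + 0).2 + (d' + 0).2) _ (by
      rw [pow_add, pow_add, mul_mul_mul_comm]; exact Submodule.mul_mem_mul h1 h3) fun t => by
        rw [Pi.mul_apply, ← h2, ← h4, mul_mul_mul_comm,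
          show a.1 t * b.1 t = 0 from congrFun (congrArg Subtype.val h) t, zero_mul]
    refine (dom _ _ _ _ u h1 u' h3 h5).imp (fun e => Subtype.ext (funext fun t => ?_))
      fun e => Subtype.ext (funext fun t => ?_)
    · exact (mul_eq_zero.1 ((h2 t).trans (congrFun e _))).resolve_right
        (mul_ne_zero (pow_ne_zero _ t.2.1) (pow_ne_zero _ t.2.2))
    · exact (mul_eq_zero.1 ((h4 t).trans (congrFun e _))).resolve_right
        (mul_ne_zero (pow_ne_zero _ t.2.1) (pow_ne_zero _ t.2.2))⟩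
  have : IsDomain A := NoZeroDivisors.to_isDomain A
  have : IsDomain B := (FaithfulSMul.algebraMap_injective B A).isDomain _
  have : IsScalarTower K B A := .of_algebraMap_eq fun c => (ρ.commutes c).symm
  have hfin : Algebra.adjoin B (range PA) = ⊤ := by
    refine eq_top_iff.2 fun a _ => ?_
    obtain ⟨a, ha⟩ := a
    induction ha using Algebra.adjoin_induction with
    | mem a h =>
      obtain ⟨l | k, rfl⟩ := h
      · exact Algebra.subset_adjoin ⟨l, rfl⟩
      · exact Subalgebra.algebraMap_mem _ (QB k)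
    | algebraMap c => exact Subalgebra.algebraMap_mem _ (algebraMap K B c)
    | add a b _ _ h h' => exact add_mem (h trivial) (h' trivial)
    | mul a b _ _ h h' => exact mul_mem (h trivial) (h' trivial)
  have : Algebra.FiniteType B A := ⟨⟨(finite_range PA).toFinset, by simpa using hfin⟩⟩
  obtain ⟨hrk, halg⟩ : finrank B A = r ∧ Algebra.IsAlgebraic B A := by
    obtain ⟨u, u1, u2, -⟩ := rk N le_rfl
    choose h _ _ h3 using fun k => deV (u1 k)
    refine rank_eq (u := fun k => aeval PA (h k))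
      (Fintype.linearIndependent_iff.2 fun b hb k => ?_) fun s => ?_
    · choose d hd using fun k => homB (b k)
      choose w w1 w2 using fun k => hd k (∑ l ∈ Finset.univ.erase k, d l)
      simp only [Finset.add_sum_erase _ _ (Finset.mem_univ _)] at w1 w2
      have w3 : ∀ k, pbA K j (w k) ∈ W ^ ∑ l, d l := fun k => by rw [pbW]; exact ⟨_, w1 k, rfl⟩
      refine inj _ _ _ (w1 k) (w2 k) (congrFun (u2 _ _ w3 (van N (∑ l, d l) _ ?_ fun t => ?_) k))
      · exact Submodule.sum_mem _ fun l _ => by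
          rw [mul_comm (pbA K j _)]; exact Submodule.mul_mem_mul (u1 l) (w3 l)
      · have := congrFun (congrArg Subtype.val hb) t
        simp only [AddSubmonoidClass.coe_finsetSum, Finset.sum_apply, hsm] at this
        simp only [Finset.sum_apply, Pi.mul_apply, pbA_apply, ← h3]
        refine Eq.trans ?_ (mul_eq_zero_of_left this (q (j t.1) b0 ^ (∑ l, d l) * p t.1 a0 ^ N))
        rw [Finset.sum_mul]
        exact Finset.sum_congr rfl fun l _ => by
          rw [show w l (j t.1) = _ from (w2 l (i t)).symm]; ring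
    · choose d hd using homA
      let D : ℕ × ℕ := (N, 0) + ∑ a ∈ s, d a
      obtain ⟨v, v1, -, v2⟩ := rk D.1 (Nat.le_add_right _ _)
      choose g _ _ g3 using fun k => deV (v1 k)
      refine ⟨fun k => aeval PA (g k), fun a ha => ?_⟩
      set M := Submodule.span B (range fun k => aeval PA (g k))
      have k1 : ∀ e : ℕ, ∀ x ∈ Submodule.span K (range v) * W ^ e, ∃ a ∈ M, ∀ t : U,
          a.1 t * (p t.1 a0 ^ D.1 * q (j t.1) b0 ^ e) = x t.1 := fun e x hx => by
        refine Submodule.mul_induction_on hx (fun y hy w hw => ?_) ?_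
        · obtain ⟨b, hb⟩ := deW hw
          suffices h : ∃ a ∈ M, ∀ t : U, a.1 t * p t.1 a0 ^ D.1 = y t.1 by
            obtain ⟨a, h1, h2⟩ := h
            exact ⟨b • a, M.smul_mem b h1, fun t => by
              rw [hsm, Pi.mul_apply, ← h2, ← hb]; ring⟩
          induction hy using Submodule.span_induction with
          | mem y hy => obtain ⟨k, rfl⟩ := hy; exact ⟨_, Submodule.subset_span ⟨k, rfl⟩, g3 k⟩
          | zero => exact ⟨0, M.zero_mem, fun t => zero_mul _⟩
          | add y z _ _ h h' =>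
            obtain ⟨a, h1, h2⟩ := h
            obtain ⟨a', h3, h4⟩ := h'
            exact ⟨a + a', M.add_mem h1 h3, fun t => by
              rw [Pi.add_apply, ← h2, ← h4, ← add_mul]; rfl⟩
          | smul c y _ h =>
            obtain ⟨a, h1, h2⟩ := h
            exact ⟨algebraMap K B c • a, M.smul_mem _ h1, fun t => by
              rw [hsm, mul_assoc, h2]; rfl⟩
        · rintro y z ⟨a, h1, h2⟩ ⟨a', h3, h4⟩
          exact ⟨a + a', M.add_mem h1 h3, fun t => by
            rw [Pi.add_apply, ← h2, ← h4, ← add_mul]; rfl⟩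
      have k2 : ∀ x ∈ V ^ D.1 * W ^ D.2, ∃ (a : A) (b : B), b ≠ 0 ∧ b • a ∈ M ∧ ∀ t : U,
          a.1 t * (p t.1 a0 ^ D.1 * q (j t.1) b0 ^ D.2) = x t.1 := fun x hx => by
        refine Submodule.mul_induction_on hx (fun y hy w hw => ?_) ?_
        · obtain ⟨c, hc⟩ := deW hw
          obtain ⟨h, -, -, h3⟩ := deV hy
          obtain ⟨e, f, f1, f0, f2⟩ := v2 y hy
          obtain ⟨b, hb⟩ := deW f1
          obtain ⟨a, a1, a2⟩ := k1 e _ f2
          have e1 : b • aeval PA h = a := Subtype.ext (funext fun t => mul_right_cancel₀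
            (mul_ne_zero (pow_ne_zero D.1 t.2.1) (pow_ne_zero e t.2.2)) (by
              rw [a2, hsm, Pi.mul_apply, ← hb, ← h3]; ring))
          refine ⟨c • aeval PA h, b, fun e0 => f0 (van 0 e f (by rwa [pow_zero, one_mul])
            fun t => by rw [← hb, e0]; simp), ?_, fun t => ?_⟩
          · rw [smul_comm, e1]; exact M.smul_mem c a1
          · rw [hsm, Pi.mul_apply, ← hc, ← h3]; ring
        · rintro y z ⟨a, b, h0, h1, h2⟩ ⟨a', b', h0', h3, h4⟩
          refine ⟨a + a', b * b', mul_ne_zero h0 h0', ?_, fun t => ?_⟩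
          · rw [smul_add, mul_smul b b' a', mul_comm, mul_smul]
            exact M.add_mem (M.smul_mem _ h1) (M.smul_mem _ h3)
          · rw [Pi.add_apply, ← h2, ← h4, ← add_mul]; rfl
      obtain ⟨u, h1, h2⟩ := hd a ((N, 0) + ∑ a ∈ s.erase a, d a)
      rw [add_left_comm, Finset.add_sum_erase _ _ ha] at h1 h2
      obtain ⟨a', b, b0', h3, h4⟩ := k2 u h1
      exact ⟨b, b0', (show a' = a from Subtype.ext (funext fun t => mul_right_cancel₀
        (mul_ne_zero (pow_ne_zero D.1 t.2.1) (pow_ne_zero D.2 t.2.2)) (by rw [h4, h2]))) ▸ h3⟩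
  obtain ⟨f, f0, hf⟩ : ∃ f : B, f ≠ 0 ∧ ∀ χ : B →+* K, χ f ≠ 0 →
      {ψ : A →+* K | ∀ b, ψ (algebraMap B A b) = χ b}.Nonempty ∧ ((r : K) ≠ 0 →
        (r : ℕ∞) ≤ {ψ : A →+* K | ∀ b, ψ (algebraMap B A b) = χ b}.encard) := by
    obtain ⟨f, f0, hf⟩ := ne_fibre (B := B) (A := A) K
    by_cases h0 : (r : K) = 0
    · exact ⟨f, f0, fun χ h => ⟨hf χ h, fun h => absurd h0 h⟩⟩
    obtain ⟨f', f0', hf'⟩ := card_fibre (B := B) (A := A) (by
      rw [hrk, ← map_natCast (algebraMap K B)]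
      exact (map_ne_zero_iff _ (algebraMap K B).injective).2 h0) K
    exact ⟨f * f', mul_ne_zero f0 f0', fun χ h => by
      rw [map_mul, mul_ne_zero_iff] at h
      exact ⟨hf χ h.1, fun _ => by rw [hf' χ h.2, hrk]⟩⟩
  obtain ⟨d, hd⟩ := homB f
  obtain ⟨w, w1, w2⟩ := hd 0
  refine ⟨d + 0 + 1, w * fun y => q y b0, ?_, fun e => f0 (Subtype.ext (funext fun y => ?_)),
    fun y hy => ?_⟩
  · rw [pow_succ]; exact Submodule.mul_mem_mul w1 (mem_crd q b0)
  · have := (mul_eq_zero.1 (congrFun e y.1)).resolve_right y.2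
    exact (mul_eq_zero.1 ((w2 y).trans this)).resolve_right (pow_ne_zero _ y.2)
  obtain ⟨y1, y2⟩ := mul_ne_zero_iff.1 hy
  obtain ⟨h1, h2⟩ := hf ((Pi.evalRingHom _ (⟨y, y2⟩ : U')).comp B.val.toRingHom)
    (left_ne_zero_of_mul (w2 ⟨y, y2⟩ ▸ y1 :))
  have ex : ∀ ψ : A →+* K, ∃ t, (∀ b, ψ (algebraMap B A b) = b.1 ⟨y, y2⟩) →
      Par (q y) (q (j t)) ∧ ∀ l, ψ (PA l) = p t l / p t a0 := fun ψ => by
    by_cases hψ : ∀ b, ψ (algebraMap B A b) = b.1 ⟨y, y2⟩
    swap
    · exact ⟨t0, fun h => absurd h hψ⟩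
    have ev : ∀ h : MvPolynomial σ K, ψ (aeval PA h) = eval (fun l => ψ (PA l)) h := fun h => by
      induction h using MvPolynomial.induction_on with
      | C c => rw [aeval_C, eval_C, IsScalarTower.algebraMap_apply K B A, hψ]; rfl
      | add a b ha hb => simp [ha, hb]
      | mul_X a v ha => simp [ha]
    have e0 : ψ (PA a0) = 1 := by
      rw [show PA a0 = 1 from Subtype.ext (funext fun t => div_self t.2.1), map_one]
    obtain ⟨t, c, -, hc⟩ := cl (fun l => ψ (PA l)) (fun h hh => by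
      change eval _ h = 0
      rw [← ev, show aeval PA h = 0 from Subtype.ext (funext fun t => by
        rw [coe_aeval]
        exact hh _ ⟨(p t.1 a0)⁻¹, t.1, funext fun l => div_eq_inv_mul _ _⟩), map_zero])
      fun e => one_ne_zero (e0.symm.trans (congrFun e a0))
    have c1 : c * p t a0 = 1 := (congrFun hc a0).symm.trans e0
    refine ⟨t, fun _ => ⟨?_, fun l => ?_⟩⟩
    · obtain ⟨e, lam, l0, hl⟩ := reg t
      choose G G1 G2 G3 using fun k => deV (hl k)
      have G4 : ∀ k, q (j t) k = q y k / q y b0 * q (j t) b0 := fun k => by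
        have e1 : aeval PA (G k) = algebraMap B A (QB k) * aeval PA (G b0) :=
          Subtype.ext (funext fun s => mul_right_cancel₀ (pow_ne_zero e s.2.1) (by
            change _ = q (j s.1) k / q (j s.1) b0 * (aeval PA (G b0) : A).1 s * _
            rw [mul_assoc, G3, G3, Pi.mul_apply, Pi.mul_apply, mul_left_comm,
              div_mul_cancel₀ _ s.2.2]))
        have e2 := congrArg ψ e1
        rw [map_mul, hψ, ev, ev, hc, eval_smul_hom (G1 k), eval_smul_hom (G1 b0), G2, G2] at e2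
        refine mul_left_cancel₀ (mul_ne_zero (pow_ne_zero e (left_ne_zero_of_mul_eq_one c1)) l0) ?_
        simp only [Pi.mul_apply, QB, Q] at e2
        linear_combination e2
      refine par_of_minors (hq _) (hq _) fun a b => ?_
      rw [G4 a, G4 b]
      ring
    · rw [eq_div_iff (right_ne_zero_of_mul_eq_one c1), show ψ (PA l) = c * p t l from congrFun hc l,
        mul_right_comm, c1, one_mul]
  choose θ hθ using ex
  refine ⟨h1.elim fun ψ hψ => ⟨_, (hθ ψ hψ).1⟩, fun h0 => (h2 h0).trans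
    (encard_le_encard_of_injOn (f := θ) (fun ψ hψ => (hθ ψ hψ).1) fun ψ hψ ψ' hψ' e => ?_)⟩
  refine RingHom.ext fun a => ?_
  have ha : a ∈ Algebra.adjoin B (range PA) := hfin ▸ trivial
  induction ha using Algebra.adjoin_induction with
  | mem a h => obtain ⟨l, rfl⟩ := h; rw [(hθ ψ hψ).2, (hθ ψ' hψ').2, e]
  | algebraMap b => exact (hψ b).trans (hψ' b).symm
  | add a b _ _ h h' => rw [map_add, map_add, h, h']
  | mul a b _ _ h h' => rw [map_mul, map_mul, h, h']

end Pool.Agent.Tav.Cnt
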