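import Pool.Agent.P.MP_2ce3e7_ag.Tav.DetA

/-! Multiplicative polynomial laws: characteristic polynomial, comparison with a determinant. -/

set_option autoImplicit false

noncomputable section

namespace Pool.Agent.Tav.DD

open Polynomial Det Filter Topology

/-- polynomial functions on the space of complex polynomials -/
def PolL (F : ℂ[X] → ℂ) : Prop :=
  F ∈ Algebra.adjoin ℂ (Set.range fun l : ℂ[X] →ₗ[ℂ] ℂ => (l : ℂ[X] → ℂ))

theorem PolL.comp {Γ J : Type} {F : ℂ[X] → ℂ} (h : PolL F) (g : (Γ → J → ℂ) → ℂ[X])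
    (hg : ∀ l : ℂ[X] →ₗ[ℂ] ℂ, PF fun z => l (g z)) : PF fun z => F (g z) := by
  induction h using Algebra.adjoin_induction with
  | mem x hx => obtain ⟨l, rfl⟩ := hx; exact hg l
  | algebraMap r => exact PF.const r
  | add x y _ _ hx hy => exact hx.add hy
  | mul x y _ _ hx hy => exact hx.mul hy

theorem ext_poly {f : ℤ[X] → ℂ} (hf : IsPol f) :
    ∃ F, PolL F ∧ ∀ p : ℤ[X], F (p.map (Int.castRingHom ℂ)) = f p := by
  induction hf using Algebra.adjoin_induction with
  | mem x hx =>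
    obtain ⟨l, rfl⟩ := hx
    refine ⟨(basisMonomials ℂ).constr ℂ fun n => l (monomial n 1), Algebra.subset_adjoin ⟨_, rfl⟩,
      fun p => ?_⟩
    induction p using Polynomial.induction_on' with
    | add p q hp hq => rw [Polynomial.map_add, map_add, hp, hq]; exact (l.map_add p q).symm
    | monomial n a =>
      have e1 : (monomial n a : ℤ[X]).map (Int.castRingHom ℂ) = (a : ℂ) • basisMonomials ℂ n := by
        simp [smul_monomial]
      have e2 : (monomial n a : ℤ[X]) = a • monomial n 1 := by simp [smul_monomial]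
      rw [e1, map_smul, Module.Basis.constr_basis, e2]
      show _ = l _
      rw [map_zsmul, zsmul_eq_mul, smul_eq_mul]
  | algebraMap r => exact ⟨fun _ => r, Subalgebra.algebraMap_mem _ r, fun _ => rfl⟩
  | add x y _ _ hx hy =>
    obtain ⟨F, hF, e⟩ := hx
    obtain ⟨G, hG, e'⟩ := hy
    exact ⟨F + G, Subalgebra.add_mem _ hF hG, fun p => by simp [e, e']⟩
  | mul x y _ _ hx hy =>
    obtain ⟨F, hF, e⟩ := hx
    obtain ⟨G, hG, e'⟩ := hy
    exact ⟨F * G, Subalgebra.mul_mem _ hF hG, fun p => by simp [e, e']⟩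

theorem lin_mon (l : ℂ[X] →ₗ[ℂ] ℂ) (n : ℕ) (c : ℂ) : l (monomial n c) = c * l (monomial n 1) := by
  rw [← smul_eq_mul, ← map_smul, smul_monomial, smul_eq_mul, mul_one]

theorem PolL.mul_eq {F : ℂ[X] → ℂ} (h : PolL F)
    (hm : ∀ p q : ℤ[X], F ((p * q).map (Int.castRingHom ℂ)) =
      F (p.map (Int.castRingHom ℂ)) * F (q.map (Int.castRingHom ℂ))) (f g : ℂ[X]) :
    F (f * g) = F f * F g := by
  let N := f.natDegree + g.natDegree + 1
  let A : Bool → (Bool → ℕ → ℂ) → ℂ[X] := fun b z => ∑ i ∈ Finset.range N, monomial i (z b i)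
  have hA : ∀ b (l : ℂ[X] →ₗ[ℂ] ℂ), PF fun z => l (A b z) := fun b l => by
    simp only [A, map_sum]
    refine PF.sum _ fun i _ => ?_
    simpa only [← lin_mon] using (PF.var b i).mul (PF.const (l (monomial i 1)))
  have hAB : ∀ l : ℂ[X] →ₗ[ℂ] ℂ, PF fun z => l (A false z * A true z) := fun l => by
    simp only [A, Finset.sum_mul_sum, map_sum, monomial_mul_monomial]
    refine PF.sum _ fun i _ => PF.sum _ fun j _ => ?_
    simpa only [← lin_mon] using
      ((PF.var false i).mul (PF.var true j)).mul (PF.const (l (monomial (i + j) 1)))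
  have key := ((h.comp _ hAB).sub ((h.comp _ (hA false)).mul (h.comp _ (hA true)))).zero_of_int
    (fun y => by
      have e : ∀ b, A b (fun i j => (y i j : ℂ)) =
          (∑ i ∈ Finset.range N, monomial i (y b i)).map (Int.castRingHom ℂ) := fun b => by
        simp [A, Polynomial.map_sum]
      rw [e, e, ← Polynomial.map_mul, hm, sub_self])
    (fun b i => if b then g.coeff i else f.coeff i)
  have e1 : A false (fun b i => if b then g.coeff i else f.coeff i) = f :=
    (as_sum_range' f N (by omega)).symm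
  have e2 : A true (fun b i => if b then g.coeff i else f.coeff i) = g :=
    (as_sum_range' g N (by omega)).symm
  rw [e1, e2] at key
  exact sub_eq_zero.1 key

theorem PolL.line {F : ℂ[X] → ℂ} (h : PolL F) (u v : ℂ[X]) :
    ∃ p : ℂ[X], ∀ t : ℂ, p.eval t = F (u + C t * v) := by
  obtain ⟨P, hP⟩ := h.comp (fun z : Unit → Unit → ℂ => u + C (z () ()) * v) fun l => by
    simp only [map_add, ← smul_eq_C_mul, map_smul, smul_eq_mul]
    exact (PF.const _).add ((PF.var () ()).mul (PF.const _))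
  refine ⟨MvPolynomial.aeval (fun _ => (X : ℂ[X])) P, fun t => ?_⟩
  have := hP fun _ _ => t
  simp only at this
  rw [this]
  clear this hP
  induction P using MvPolynomial.induction_on with
  | C a => simp
  | add p q hp hq => simp only [map_add, eval_add, hp, hq]
  | mul_X p x hp => simp only [map_mul, eval_mul, hp, MvPolynomial.aeval_X, eval_X,
      MvPolynomial.eval_X]

theorem prod_of_mul {K : Type} [Field K] [IsAlgClosed K] (Δ : K[X] →* K) (s : Multiset K)
    (hC : ∀ c, Δ (C c) = c ^ s.card) (hX : ∀ b, Δ (X - C b) = (s.map fun a => a - b).prod)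
    (f : K[X]) : Δ f = (s.map fun a => f.eval a).prod := by
  have h1 : ∀ t : Multiset K, Δ (t.map fun b => X - C b).prod =
      (s.map fun a => ((t.map fun b => X - C b).prod).eval a).prod := by
    intro t
    induction t using Multiset.induction_on with
    | empty => simp
    | cons b t ih => simp [ih, hX, Multiset.prod_map_mul]
  conv_lhs => rw [(IsAlgClosed.splits f).eq_prod_roots]
  conv_rhs => rw [(IsAlgClosed.splits f).eq_prod_roots]
  rw [map_mul, hC, h1]
  simp [Multiset.prod_map_mul]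

theorem monic_of_rev {P Q : ℂ[X]} {d : ℕ} (h0 : Q.eval 0 = 1)
    (h : ∀ v : ℂ, v ≠ 0 → Q.eval v = v ^ d * P.eval v⁻¹) : P.Monic ∧ P.natDegree = d := by
  have hQ : Q.coeff 0 = 1 := by rw [coeff_zero_eq_eval_zero, h0]
  have hQ0 : Q ≠ 0 := fun e => by simp [e] at hQ
  have hinf : {v : ℂ | v ≠ 0}.Infinite := (Set.finite_singleton (0 : ℂ)).infinite_compl
  have hP : P ≠ 0 := fun e => hQ0 (eq_of_infinite_eval_eq _ _ (hinf.mono fun v hv => by
    simp [h v hv, e]))
  have e : Q * X ^ P.natDegree = P.reverse * X ^ d := by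
    refine eq_of_infinite_eval_eq _ _ (hinf.mono fun v hv => ?_)
    have hv' : v ≠ 0 := hv
    have := invertibleOfNonzero (inv_ne_zero hv')
    have h1 := eval₂_reverse_mul_pow (RingHom.id ℂ) v⁻¹ P
    rw [invOf_eq_inv, inv_inv, eval₂_id, eval₂_id] at h1
    simp only [Set.mem_ofPred_eq, eval_mul, eval_pow, eval_X, h v hv, ← h1]
    have h3 : v⁻¹ ^ P.natDegree * v ^ P.natDegree = 1 := by
      rw [← mul_pow, inv_mul_cancel₀ hv', one_pow]
    linear_combination (v ^ d * eval v P.reverse) * h3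
  have hr : P.reverse.coeff 0 ≠ 0 := by rw [coeff_zero_reverse]; exact leadingCoeff_ne_zero.2 hP
  have hr0 : P.reverse ≠ 0 := fun e => by simp [e] at hr
  have h2 := congrArg natTrailingDegree e
  rw [natTrailingDegree_mul_X_pow hQ0, natTrailingDegree_mul_X_pow hr0,
    natTrailingDegree_eq_zero.2 (Or.inr (by simp [hQ])),
    natTrailingDegree_eq_zero.2 (Or.inr hr), zero_add, zero_add] at h2
  refine ⟨?_, h2⟩
  rw [h2] at e
  have e' := mul_right_cancel₀ (pow_ne_zero d X_ne_zero) e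
  rw [Monic, ← coeff_zero_reverse, ← e', hQ]

theorem rat_of_int {P : ℂ[X]} {c : ℤ → ℤ} (h : ∀ n : ℤ, P.eval (n : ℂ) = c n) :
    ∃ P0 : ℚ[X], P0.map (algebraMap ℚ ℂ) = P := by
  obtain ⟨l, hl⟩ := (Algebra.linearMap ℚ ℂ).exists_leftInverse_of_injective
    (LinearMap.ker_eq_bot.2 (algebraMap ℚ ℂ).injective)
  have hl' : ∀ x : ℚ, l (algebraMap ℚ ℂ x) = x := fun x => LinearMap.congr_fun hl x
  refine ⟨∑ i ∈ Finset.range (P.natDegree + 1), monomial i (l (P.coeff i)), ?_⟩
  refine eq_of_infinite_eval_eq _ _ ((Set.infinite_range_of_injective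
    (Int.cast_injective (α := ℂ))).mono ?_)
  rintro _ ⟨n, rfl⟩
  have h1 : (∑ i ∈ Finset.range (P.natDegree + 1), monomial i (l (P.coeff i))).eval (n : ℚ) =
      c n := by
    have := congrArg l (h n)
    rw [eval_eq_sum_range, map_sum, show ((c n : ℤ) : ℂ) = algebraMap ℚ ℂ (c n) by simp, hl'] at this
    rw [← this, eval_finsetSum]
    refine Finset.sum_congr rfl fun i _ => ?_
    rw [eval_monomial, mul_comm, ← smul_eq_mul, ← map_smul]
    congr 1
    rw [Algebra.smul_def, mul_comm]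
    simp
  rw [Set.mem_ofPred_eq, h n, show ((n : ℤ) : ℂ) = algebraMap ℚ ℂ n by simp, eval_map_algebraMap,
    aeval_algebraMap_apply, coe_aeval_eq_eval, h1]
  simp

/-- a multiplicative polynomial law of degree `d` -/
structure Law {E : Type} [Ring E] (δ : E → ℤ) (d : ℕ) : Prop where
  pol : IsPol fun x => (δ x : ℂ)
  mul : ∀ x y, δ (x * y) = δ x * δ y
  nat : ∀ n : ℕ, δ n = n ^ d

variable {E : Type} [Ring E] {δ : E → ℤ} {d : ℕ}

theorem Law.cx (h : Law δ d) (a : E) : ∃ P : ℂ[X], P.Monic ∧ P.natDegree = d ∧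
    ∀ f : ℤ[X], (δ (aeval a f) : ℂ) = (P.roots.map fun x => aeval x f).prod := by
  obtain ⟨F, hF, e⟩ := ext_poly (h.pol.comp (aeval a : ℤ[X] →ₐ[ℤ] E).toRingHom.toAddMonoidHom)
  have e' : ∀ p : ℤ[X], F (p.map (Int.castRingHom ℂ)) = δ (aeval a p) := e
  have hm := hF.mul_eq fun p q => by rw [e', e', e', map_mul, h.mul, Int.cast_mul]
  have hC : ∀ c, F (C c) = c ^ d := by
    obtain ⟨p, hp⟩ := hF.line 0 1
    have : p = X ^ d := eq_of_infinite_eval_eq _ _ ((Set.infinite_range_of_injective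
      (Nat.cast_injective (R := ℂ))).mono (by
        rintro _ ⟨n, rfl⟩
        have := e' (n : ℤ[X])
        rw [map_natCast, h.nat, Polynomial.map_natCast] at this
        simp [hp, this]))
    intro c
    have h1 := hp c
    rw [this] at h1
    simpa using h1.symm
  have h1 : F 1 = 1 := by simpa using hC 1
  obtain ⟨P, hP⟩ := hF.line (-X) 1
  obtain ⟨Q, hQ⟩ := hF.line 1 (-X)
  obtain ⟨hmon, hd⟩ := monic_of_rev (P := P) (Q := Q) (d := d) (by simp [hQ, h1]) fun v hv => by
    rw [hQ, hP, ← hC, ← hm]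
    congr 1
    rw [mul_add, mul_one, ← C_mul, mul_inv_cancel₀ hv, C_1, add_comm]
  have hc : P.roots.card = d := by rw [← hd]; exact (IsAlgClosed.splits P).natDegree_eq_card_roots.symm
  refine ⟨P, hmon, hd, fun f => ?_⟩
  let Δ : ℂ[X] →* ℂ := { toFun := F, map_one' := h1, map_mul' := hm }
  have := prod_of_mul Δ P.roots (fun c => by rw [hc]; exact hC c) (fun b => by
    have h2 : (X - C b : ℂ[X]) = C (-1) * (-X + C b * 1) := by simp; ring
    change F _ = _
    rw [h2, hm, hC, ← hP]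
    conv_lhs => rw [(IsAlgClosed.splits P).eq_prod_roots_of_monic hmon]
    rw [eval_multiset_prod, Multiset.map_map, ← hc, ← Multiset.prod_replicate,
      ← Multiset.map_const', ← Multiset.prod_map_mul]
    simp) (f.map (Int.castRingHom ℂ))
  rw [← e']
  refine this.trans (congrArg _ (Multiset.map_congr rfl fun x _ => ?_))
  rw [← algebraMap_int_eq, eval_map_algebraMap]

theorem aroots_lift {K L : Type} [Field K] [Field L] [CharZero K] [CharZero L] [IsAlgClosed K]
    (φ : K →+* L) (P : ℚ[X]) (f : ℤ[X]) :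
    ((P.aroots L).map fun x => aeval x f).prod = φ ((P.aroots K).map fun x => aeval x f).prod := by
  have e : P.map (algebraMap ℚ L) = (P.map (algebraMap ℚ K)).map φ := by
    rw [Polynomial.map_map]
    congr 1
    exact Subsingleton.elim _ _
  rw [aroots_def, e, (IsAlgClosed.splits _).roots_map, map_multiset_prod, Multiset.map_map,
    Multiset.map_map]
  refine congrArg _ (Multiset.map_congr rfl fun x _ => ?_)
  exact (aeval_algHom_apply φ.toIntAlgHom x f)

theorem exists_lift (F K : Type) [Field F] [Field K] [Algebra F K] [IsAlgClosed K] :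
    Nonempty (AlgebraicClosure F →+* K) :=
  ⟨(IsAlgClosed.lift : AlgebraicClosure F →ₐ[F] K).toRingHom⟩

theorem aroots_tr {K K' : Type} [Field K] [Field K'] [CharZero K] [CharZero K'] [IsAlgClosed K]
    [IsAlgClosed K'] (P : ℚ[X]) (f : ℤ[X]) (c : ℤ)
    (h : (c : K) = ((P.aroots K).map fun x => aeval x f).prod) :
    (c : K') = ((P.aroots K').map fun x => aeval x f).prod := by
  obtain ⟨L, _, _, _, ⟨φ⟩, ⟨ψ⟩⟩ : ∃ (L : Type) (_ : Field L) (_ : CharZero L) (_ : IsAlgClosed L),
      Nonempty (L →+* K) ∧ Nonempty (L →+* K') :=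
    ⟨AlgebraicClosure ℚ, inferInstance, inferInstance, inferInstance, exists_lift ℚ K,
      exists_lift ℚ K'⟩
  rw [aroots_lift φ, ← map_intCast φ] at h
  rw [aroots_lift ψ, ← φ.injective h, map_intCast]

/-- the characteristic polynomial of a law -/
theorem Law.cp (h : Law δ d) (a : E) : ∃ P : ℚ[X], P.Monic ∧ P.natDegree = d ∧
    (∀ n : ℤ, P.eval (n : ℚ) = δ (n - a)) ∧
    ∀ (K : Type) [Field K] [CharZero K] [IsAlgClosed K] (f : ℤ[X]),
      (δ (aeval a f) : K) = ((P.aroots K).map fun x => aeval x f).prod := by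
  obtain ⟨P, hm, hd, hf⟩ := h.cx a
  have hv : ∀ n : ℤ, P.eval (n : ℂ) = δ (n - a) := fun n => by
    have := hf (C n - X)
    conv_lhs => rw [(IsAlgClosed.splits P).eq_prod_roots_of_monic hm]
    rw [eval_multiset_prod, Multiset.map_map]
    simpa using this.symm
  obtain ⟨P0, rfl⟩ := rat_of_int hv
  refine ⟨P0, monic_of_injective (algebraMap ℚ ℂ).injective hm, by rw [← hd, natDegree_map],
    fun n => ?_, fun K _ _ _ f => ?_⟩
  · have := hv n
    rw [show ((n : ℤ) : ℂ) = algebraMap ℚ ℂ n by simp, eval_map_algebraMap, aeval_algebraMap_apply,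
      coe_aeval_eq_eval] at this
    exact (algebraMap ℚ ℂ).injective (by simpa using this)
  · exact aroots_tr P0 f _ (hf f)

/-- integrality of the characteristic polynomial -/
theorem Law.cp_int (h : Law δ d) {a : E} (ha : IsIntegral ℤ a) : ∃ P : ℤ[X], P.Monic ∧
    P.natDegree = d ∧ (∀ n : ℤ, P.eval n = δ (n - a)) ∧
    ∀ (K : Type) [Field K] [CharZero K] [IsAlgClosed K] (f : ℤ[X]),
      (δ (aeval a f) : K) = ((P.aroots K).map fun x => aeval x f).prod := by
  obtain ⟨P, hm, hd, hv, hf⟩ := h.cp a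
  obtain ⟨M, hM, hMa⟩ := ha
  have hroot : ∀ x ∈ P.aroots ℂ, aeval x M = 0 := by
    have e : ((P.aroots ℂ).map fun x => (X + C (aeval x M) : ℂ[X])).prod = X ^ d := by
      refine eq_of_infinite_eval_eq _ _ ((Set.infinite_range_of_injective
        (Nat.cast_injective (R := ℂ))).mono ?_)
      rintro _ ⟨n, rfl⟩
      have := hf ℂ ((n : ℤ[X]) + M)
      rw [map_add, map_natCast, show aeval a M = 0 from hMa, add_zero, h.nat] at this
      rw [Set.mem_ofPred_eq, eval_multiset_prod, Multiset.map_map]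
      simpa using this.symm
    intro x hx
    have h1 : (X + C (aeval x M) : ℂ[X]) ∣ X ^ d :=
      e ▸ Multiset.dvd_prod (Multiset.mem_map_of_mem _ hx)
    have h2 := eval_dvd (x := -aeval x M) h1
    rw [eval_add, eval_X, eval_C, neg_add_cancel, zero_dvd_iff, eval_pow, eval_X] at h2
    exact neg_eq_zero.1 (pow_eq_zero_iff'.1 h2).1
  have hl : P ∈ lifts (algebraMap ℤ ℚ) := by
    refine (lifts_iff_coeff_lifts _).2 fun n => ?_
    have h1 : IsIntegral ℤ (algebraMap ℚ ℂ (P.coeff n)) := by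
      rw [← coeff_map, (IsAlgClosed.splits _).eq_prod_roots_of_monic (hm.map (algebraMap ℚ ℂ))]
      have h2 : ((P.map (algebraMap ℚ ℂ)).roots.map fun x => (X - C x : ℂ[X])).prod ∈
          lifts (integralClosure ℤ ℂ).val.toRingHom := by
        refine Subsemiring.multiset_prod_mem _ _ fun q hq => ?_
        obtain ⟨x, hx, rfl⟩ := Multiset.mem_map.1 hq
        exact ⟨X - C ⟨x, M, hM, hroot x hx⟩, by simp⟩
      obtain ⟨y, hy⟩ := (lifts_iff_coeff_lifts _).1 h2 n
      exact hy ▸ y.2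
    exact IsIntegrallyClosed.isIntegral_iff.1
      ((isIntegral_algebraMap_iff (algebraMap ℚ ℂ).injective).1 h1)
  obtain ⟨P0, rfl, hd0, hm0⟩ := lifts_and_natDegree_eq_and_monic hl hm
  refine ⟨P0, hm0, hd0.trans hd, fun n => ?_, fun K _ _ _ f => ?_⟩
  · have := hv n
    rw [show ((n : ℤ) : ℚ) = algebraMap ℤ ℚ n by simp, eval_map_algebraMap, aeval_algebraMap_apply,
      coe_aeval_eq_eval, eq_intCast] at this
    exact_mod_cast this
  · rw [hf K f, aroots_def, aroots_def, Polynomial.map_map]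
    congr 4
    exact Subsingleton.elim _ _

section count
variable {F K : Type} [Field F] [Field K] [Algebra F K]

open Classical in
/-- the number of roots of `P` that are roots of `M` -/
def cnt (K : Type) [Field K] [Algebra F K] (P M : F[X]) : ℕ :=
  ((P.aroots K).filter fun x => aeval x M = 0).card

theorem eq_of_cnt [IsAlgClosed K] [Algebra.IsAlgebraic F K] (n : ℕ) : ∀ P Q : F[X], P.Monic →
    Q.Monic → P.natDegree = n → (∀ M, cnt K P M = cnt K Q M) → P = Q := by
  classical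
  induction n using Nat.strong_induction_on with
  | _ n ih =>
  intro P Q hP hQ hn h
  have hc : ∀ R : F[X], cnt K R 0 = R.natDegree := fun R => by
    rw [cnt, Multiset.filter_eq_self.2 fun _ _ => map_zero _, aroots_def,
      ← (IsAlgClosed.splits _).natDegree_eq_card_roots, natDegree_map]
  by_cases h0 : n = 0
  · rw [hP.natDegree_eq_zero.1 (hn.trans h0),
      hQ.natDegree_eq_zero.1 (by rw [← hc, ← h, hc, hn, h0])]
  have h1 : 0 < (P.aroots K).card := by
    rw [aroots_def, ← (IsAlgClosed.splits _).natDegree_eq_card_roots, natDegree_map]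
    omega
  obtain ⟨x, hx⟩ := Multiset.card_pos_iff_exists_mem.1 h1
  have hi : IsIntegral F x := (Algebra.IsAlgebraic.isAlgebraic x).isIntegral
  have h2 : 0 < cnt K Q (minpoly F x) := by
    rw [← h, cnt]
    exact Multiset.card_pos_iff_exists_mem.2 ⟨x, Multiset.mem_filter.2 ⟨hx, minpoly.aeval F x⟩⟩
  obtain ⟨y, hy⟩ := Multiset.card_pos_iff_exists_mem.1 h2
  obtain ⟨hy1, hy2⟩ := Multiset.mem_filter.1 hy
  obtain ⟨P', rfl⟩ := minpoly.dvd F x (mem_aroots.1 hx).2
  have h3 := minpoly.dvd F y (mem_aroots.1 hy1).2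
  rw [← minpoly.eq_of_irreducible_of_monic (minpoly.irreducible hi) hy2 (minpoly.monic hi)] at h3
  obtain ⟨Q', rfl⟩ := h3
  have hP' := (minpoly.monic hi).of_mul_monic_left hP
  have hQ' := (minpoly.monic hi).of_mul_monic_left hQ
  have hd := minpoly.natDegree_pos hi
  rw [(minpoly.monic hi).natDegree_mul hP'] at hn
  rw [ih P'.natDegree (by omega) P' Q' hP' hQ' rfl fun M => ?_]
  have := h M
  simp only [cnt, aroots_mul hP.ne_zero, aroots_mul hQ.ne_zero, Multiset.filter_add,
    Multiset.card_add] at this ⊢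
  omega

end count

section padic
variable {l : ℕ} [Fact l.Prime]

theorem pow_eq_of_norm {m n : ℕ} {g g' : ℚ_[l] → ℝ} (hg : ContinuousAt g 0)
    (hg' : ContinuousAt g' 0) (h0 : g 0 ≠ 0)
    (h : ∀ᶠ e in 𝓝[≠] (0 : ℚ_[l]), ‖e‖ ^ m * g e = ‖e‖ ^ n * g' e) : n ≤ m := by
  by_contra hlt
  obtain ⟨k, rfl⟩ := Nat.exists_eq_add_of_lt (not_le.1 hlt)
  have h1 : ∀ᶠ e in 𝓝[≠] (0 : ℚ_[l]), g e = ‖e‖ ^ (k + 1) * g' e := by
    filter_upwards [h, self_mem_nhdsWithin] with e he he0
    refine mul_left_cancel₀ (pow_ne_zero m (norm_ne_zero_iff.2 he0)) ?_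
    rw [he]; ring
  have h2 : Tendsto (fun e : ℚ_[l] => ‖e‖ ^ (k + 1) * g' e) (𝓝[≠] 0) (𝓝 0) := by
    have : ContinuousAt (fun e : ℚ_[l] => ‖e‖ ^ (k + 1) * g' e) 0 :=
      (continuous_norm.pow _).continuousAt.mul hg'
    simpa using this.tendsto.mono_left nhdsWithin_le_nhds
  exact h0 (tendsto_nhds_unique ((hg.tendsto.mono_left nhdsWithin_le_nhds).congr' h1) h2)

/-- the norm of the product of the values -/
def nv (s : Multiset (PadicAlgCl l)) (f : ℚ_[l][X]) : ℝ := ‖(s.map fun x => aeval x f).prod‖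

theorem cont_nv {T : Type} [TopologicalSpace T] (s : Multiset (PadicAlgCl l)) (f : T → ℚ_[l][X])
    (hf : ∀ x : PadicAlgCl l, Continuous fun t => aeval x (f t)) : Continuous fun t => nv s (f t) :=
  (continuous_multiset_prod s fun x _ => hf x).norm

theorem nv_ext {s t : Multiset (PadicAlgCl l)} (hc : s.card = t.card)
    (h : ∀ f : ℤ[X], nv s (f.map (Int.castRingHom _)) ≠ 0 →
      nv s (f.map (Int.castRingHom _)) = nv t (f.map (Int.castRingHom _)))
    (f : ℚ_[l][X]) (hf : nv s f ≠ 0) : nv s f = nv t f := by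
  have hsc : ∀ (u : Multiset (PadicAlgCl l)) (c : ℚ_[l]) (f : ℚ_[l][X]),
      nv u (C c * f) = ‖c‖ ^ u.card * nv u f := fun u c f => by
    simp [nv, Multiset.prod_map_mul]
  have hq : ∀ f : ℚ[X], nv s (f.map (algebraMap ℚ _)) ≠ 0 →
      nv s (f.map (algebraMap ℚ _)) = nv t (f.map (algebraMap ℚ _)) := by
    intro f hf
    obtain ⟨b, hb, e⟩ := IsLocalization.integerNormalization_spec (nonZeroDivisors ℤ) f
    have hb0 : ((b : ℤ) : ℚ_[l]) ≠ 0 := by exact_mod_cast nonZeroDivisors.ne_zero hb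
    have e2 : (IsLocalization.integerNormalization (nonZeroDivisors ℤ) f).map (Int.castRingHom ℚ_[l]) =
        C ((b : ℤ) : ℚ_[l]) * f.map (algebraMap ℚ _) := by
      have := congrArg (Polynomial.map (algebraMap ℚ ℚ_[l])) e
      rw [Polynomial.map_map, Subsingleton.elim ((algebraMap ℚ ℚ_[l]).comp (algebraMap ℤ ℚ))
        (Int.castRingHom _)] at this
      rw [this]
      simp
    have hn : ‖((b : ℤ) : ℚ_[l])‖ ^ s.card ≠ 0 := pow_ne_zero _ (norm_ne_zero_iff.2 hb0)
    have := h (IsLocalization.integerNormalization (nonZeroDivisors ℤ) f)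
      (by rw [e2, hsc]; exact mul_ne_zero hn hf)
    rw [e2, hsc, hsc, ← hc] at this
    exact mul_left_cancel₀ hn this
  let N := f.natDegree + 1
  let A : (ℕ → ℚ_[l]) → ℚ_[l][X] := fun c => ∑ i ∈ Finset.range N, monomial i (c i)
  have hA : ∀ x : PadicAlgCl l, Continuous fun c => aeval x (A c) := fun x => by
    simp only [A, map_sum, aeval_monomial]
    exact continuous_finsetSum _ fun i _ =>
      ((continuous_algebraMap _ _).comp (continuous_apply i)).mul continuous_const
  have c1 := cont_nv s A hA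
  have c2 := cont_nv t A hA
  have hd : DenseRange (Pi.map fun (_ : ℕ) (x : ℚ) => (x : ℚ_[l])) :=
    DenseRange.piMap fun _ => Padic.denseRange_ratCast l
  have key : ∀ c, nv s (A c) * (nv s (A c) - nv t (A c)) = 0 := by
    intro c
    refine hd.induction_on (p := fun c => nv s (A c) * (nv s (A c) - nv t (A c)) = 0) c
      (isClosed_eq (c1.mul (c1.sub c2)) continuous_const) fun y => ?_
    have e : A (Pi.map (fun (_ : ℕ) (x : ℚ) => (x : ℚ_[l])) y) =
        (∑ i ∈ Finset.range N, monomial i (y i)).map (algebraMap ℚ _) := by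
      simp [A, Polynomial.map_sum]
    rw [e]
    by_cases h0 : nv s ((∑ i ∈ Finset.range N, monomial i (y i)).map (algebraMap ℚ _)) = 0
    · rw [h0, zero_mul]
    · rw [hq _ h0, sub_self, mul_zero]
  have := key f.coeff
  rw [show A f.coeff = f from (as_sum_range' f N (Nat.lt_succ_self _)).symm] at this
  exact sub_eq_zero.1 ((mul_eq_zero.1 this).resolve_left hf)

open Classical in
theorem nv_shift (s : Multiset (PadicAlgCl l)) (M : ℚ_[l][X]) : ∃ g : ℚ_[l] → ℝ, Continuous g ∧
    g 0 ≠ 0 ∧ ∀ e, nv s (M + C e) = ‖e‖ ^ (s.filter fun x => aeval x M = 0).card * g e := by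
  refine ⟨fun e => nv (s.filter fun x => ¬ aeval x M = 0) (M + C e), cont_nv _ _ fun x => ?_, ?_,
    fun e => ?_⟩
  · simp only [map_add, aeval_C]
    exact continuous_const.add (continuous_algebraMap _ _)
  · simp only [nv, map_zero, add_zero, norm_ne_zero_iff]
    refine Multiset.prod_ne_zero fun h0 => ?_
    obtain ⟨x, hx, e⟩ := Multiset.mem_map.1 h0
    exact (Multiset.mem_filter.1 hx).2 e
  · conv_lhs => rw [← Multiset.filter_add_not (fun x => aeval x M = 0) s]
    simp only [nv, Multiset.map_add, Multiset.prod_add, norm_mul]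
    congr 1
    rw [Multiset.map_congr rfl (g := fun _ => algebraMap ℚ_[l] (PadicAlgCl l) e) fun x hx => by
      rw [map_add, (Multiset.mem_filter.1 hx).2, zero_add, aeval_C]]
    simp

/-- two monic polynomials with the same absolute values of the resultants are equal -/
theorem eq_of_nv {P Q : ℚ_[l][X]} (hP : P.Monic) (hQ : Q.Monic) (hd : P.natDegree = Q.natDegree)
    (h : ∀ f : ℤ[X], nv (P.aroots (PadicAlgCl l)) (f.map (Int.castRingHom _)) ≠ 0 →
      nv (P.aroots (PadicAlgCl l)) (f.map (Int.castRingHom _)) =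
        nv (Q.aroots (PadicAlgCl l)) (f.map (Int.castRingHom _))) :
    P = Q := by
  have hc : ∀ R : ℚ_[l][X], (R.aroots (PadicAlgCl l)).card = R.natDegree := fun R => by
    rw [aroots_def, ← (IsAlgClosed.splits _).natDegree_eq_card_roots, natDegree_map]
  have h1 := nv_ext (by rw [hc, hc, hd]) h
  refine eq_of_cnt (K := PadicAlgCl l) _ P Q hP hQ rfl fun M => ?_
  obtain ⟨g, hg, g0, e⟩ := nv_shift (P.aroots (PadicAlgCl l)) M
  obtain ⟨g', hg', g0', e'⟩ := nv_shift (Q.aroots (PadicAlgCl l)) M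
  have key : ∀ᶠ x in 𝓝[≠] (0 : ℚ_[l]), ‖x‖ ^ cnt (PadicAlgCl l) P M * g x =
      ‖x‖ ^ cnt (PadicAlgCl l) Q M * g' x := by
    filter_upwards [(hg.continuousAt.eventually_ne g0).filter_mono nhdsWithin_le_nhds,
      self_mem_nhdsWithin] with x hx hx0
    have := h1 (M + C x) (by
      rw [e]; exact mul_ne_zero (pow_ne_zero _ (norm_ne_zero_iff.2 hx0)) hx)
    rwa [e, e'] at this
  exact le_antisymm (pow_eq_of_norm hg'.continuousAt hg.continuousAt g0' (key.mono fun _ h => h.symm))
    (pow_eq_of_norm hg.continuousAt hg'.continuousAt g0 key)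

end padic

theorem det_aeval {K ι : Type} [Field K] [IsAlgClosed K] [Fintype ι] [DecidableEq ι]
    (A : Matrix ι ι K) (f : K[X]) :
    (aeval A f).det = (A.charpoly.roots.map fun x => f.eval x).prod := by
  have hc : A.charpoly.roots.card = Fintype.card ι := by
    rw [← (IsAlgClosed.splits _).natDegree_eq_card_roots, Matrix.charpoly_natDegree_eq_dim]
  refine prod_of_mul (Matrix.detMonoidHom.comp (aeval A : K[X] →ₐ[K] _).toRingHom.toMonoidHom) _
    (fun c => ?_) (fun b => ?_) f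
  · change (aeval A (C c)).det = _
    rw [aeval_C, hc, Algebra.algebraMap_eq_smul_one, Matrix.det_smul, Matrix.det_one, mul_one]
  · change (aeval A (X - C b)).det = _
    have e : aeval A (X - C b) = -(Matrix.scalar ι b - A) := by
      rw [map_sub, aeval_X, aeval_C, neg_sub]
      rfl
    rw [e, Matrix.det_neg, ← Matrix.eval_charpoly]
    conv_lhs => rw [(IsAlgClosed.splits A.charpoly).eq_prod_roots_of_monic A.charpoly_monic]
    rw [eval_multiset_prod, Multiset.map_map, ← hc, ← Multiset.prod_replicate,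
      ← Multiset.map_const', ← Multiset.prod_map_mul]
    simp

section main
variable {l : ℕ} [Fact l.Prime] {ι : Type} [Fintype ι] [DecidableEq ι]

/-- degree and determinant, matrix form -/
theorem Law.charpoly_mat (h : Law δ (Fintype.card ι)) (ρ : E →+* Matrix ι ι ℚ_[l])
    (hn : ∀ x, δ x ≠ 0 → ‖(ρ x).det‖ = ‖(δ x : ℚ_[l])‖) (a : E) {P : ℚ[X]} (hm : P.Monic)
    (hd : P.natDegree = Fintype.card ι)
    (hf : ∀ f : ℤ[X], (δ (aeval a f) : PadicAlgCl l) = ((P.aroots _).map fun x => aeval x f).prod) :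
    (ρ a).charpoly = P.map (algebraMap ℚ ℚ_[l]) := by
  symm
  refine eq_of_nv (hm.map _) (ρ a).charpoly_monic
    (by rw [natDegree_map, hd, Matrix.charpoly_natDegree_eq_dim]) fun f hf0 => ?_
  have ea : ∀ x : PadicAlgCl l, aeval x (f.map (Int.castRingHom ℚ_[l])) = aeval x f := fun x => by
    rw [← algebraMap_int_eq, aeval_map_algebraMap]
  have e1 : nv ((P.map (algebraMap ℚ ℚ_[l])).aroots (PadicAlgCl l)) (f.map (Int.castRingHom _)) =
      ‖(δ (aeval a f) : ℚ_[l])‖ := by
    rw [nv, aroots_def, Polynomial.map_map, Subsingleton.elim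
      ((algebraMap ℚ_[l] (PadicAlgCl l)).comp (algebraMap ℚ ℚ_[l])) (algebraMap ℚ _), ← aroots_def]
    simp only [ea]
    rw [← hf, ← PadicAlgCl.norm_extends]
    simp
  rw [e1] at hf0 ⊢
  rw [← hn _ (fun h0 => hf0 (by simp [h0])), nv, aroots_def, ← Matrix.charpoly_map]
  have e2 := det_aeval ((ρ a).map (algebraMap ℚ_[l] (PadicAlgCl l))) (f.map (Int.castRingHom _))
  have e3 : ∀ x : PadicAlgCl l, (f.map (Int.castRingHom _)).eval x = aeval x f := fun x => by
    rw [aeval_def, eval_map]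
    congr 1
  simp only [ea]
  simp only [e3] at e2
  rw [← e2, ← PadicAlgCl.norm_extends]
  congr 1
  rw [show ((ρ (aeval a f)).det : PadicAlgCl l) = algebraMap _ _ (ρ (aeval a f)).det from rfl,
    RingHom.map_det, ← algebraMap_int_eq, aeval_map_algebraMap]
  congr 1
  exact (aeval_algHom_apply
    ((algebraMap ℚ_[l] (PadicAlgCl l)).mapMatrix.comp ρ).toIntAlgHom a f).symm

theorem Law.det_mat (h : Law δ (Fintype.card ι)) (ρ : E →+* Matrix ι ι ℚ_[l])
    (hn : ∀ x, δ x ≠ 0 → ‖(ρ x).det‖ = ‖(δ x : ℚ_[l])‖) (a : E) : (ρ a).det = δ a := by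
  obtain ⟨P, hm, hd, hv, hf⟩ := h.cp (-a)
  have h1 := congrArg (eval 0) (h.charpoly_mat ρ hn (-a) hm hd (hf _))
  have h2 := hv 0
  rw [Matrix.eval_charpoly, ← coeff_zero_eq_eval_zero, coeff_map, coeff_zero_eq_eval_zero] at h1
  simp only [Int.cast_zero, zero_sub, neg_neg] at h2
  simpa [h2] using h1

variable {V : Type} [AddCommGroup V] [Module ℚ_[l] V] [FiniteDimensional ℚ_[l] V]

/-- degree and determinant -/
theorem Law.det (h : Law δ (Module.finrank ℚ_[l] V)) (ρ : E →+* Module.End ℚ_[l] V)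
    (hn : ∀ x, δ x ≠ 0 → ‖LinearMap.det (ρ x)‖ = ‖(δ x : ℚ_[l])‖) (a : E) :
    LinearMap.det (ρ a) = δ a := by
  let b := Module.finBasis ℚ_[l] V
  have := Law.det_mat (ι := Fin (Module.finrank ℚ_[l] V)) (by simpa using h)
    ((LinearMap.toMatrixAlgEquiv b).toRingEquiv.toRingHom.comp ρ) (fun x hx => by
      rw [← hn x hx, ← LinearMap.det_toMatrix b]; rfl) a
  rw [← this, ← LinearMap.det_toMatrix b]
  rfl

/-- the characteristic polynomial on `V` is the one of the law -/
theorem Law.charpoly (h : Law δ (Module.finrank ℚ_[l] V)) (ρ : E →+* Module.End ℚ_[l] V)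
    (hn : ∀ x, δ x ≠ 0 → ‖LinearMap.det (ρ x)‖ = ‖(δ x : ℚ_[l])‖) (a : E) {P : ℚ[X]}
    (hv : ∀ n : ℤ, P.eval (n : ℚ) = δ (n - a)) :
    (ρ a).charpoly = P.map (algebraMap ℚ ℚ_[l]) := by
  refine eq_of_infinite_eval_eq _ _ ((Set.infinite_range_of_injective
    (Int.cast_injective (α := ℚ_[l]))).mono ?_)
  rintro _ ⟨n, rfl⟩
  have h1 := h.det ρ hn (n - a)
  rw [map_sub, map_intCast] at h1
  rw [Set.mem_ofPred_eq, LinearMap.eval_charpoly, map_intCast, h1,
    show ((n : ℤ) : ℚ_[l]) = algebraMap ℚ ℚ_[l] n by simp, eval_map_algebraMap,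
    aeval_algebraMap_apply, coe_aeval_eq_eval, hv]
  simp

theorem Law.charpoly_rat (h : Law δ (Module.finrank ℚ_[l] V)) (ρ : E →+* Module.End ℚ_[l] V)
    (hn : ∀ x, δ x ≠ 0 → ‖LinearMap.det (ρ x)‖ = ‖(δ x : ℚ_[l])‖) (a : E) :
    ∃ P : ℚ[X], P.Monic ∧ (∀ n : ℤ, P.eval (n : ℚ) = δ (n - a)) ∧
      (ρ a).charpoly = P.map (algebraMap ℚ ℚ_[l]) := by
  obtain ⟨P, hm, -, hv, -⟩ := h.cp a
  exact ⟨P, hm, hv, h.charpoly ρ hn a hv⟩

theorem Law.charpoly_int (h : Law δ (Module.finrank ℚ_[l] V)) (ρ : E →+* Module.End ℚ_[l] V)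
    (hn : ∀ x, δ x ≠ 0 → ‖LinearMap.det (ρ x)‖ = ‖(δ x : ℚ_[l])‖) {a : E} (ha : IsIntegral ℤ a) :
    ∃ P : ℤ[X], P.Monic ∧ (∀ n : ℤ, P.eval n = δ (n - a)) ∧
      (ρ a).charpoly = P.map (Int.castRingHom ℚ_[l]) := by
  obtain ⟨P, hm, -, hv, -⟩ := h.cp_int ha
  refine ⟨P, hm, hv, ?_⟩
  rw [h.charpoly ρ hn a (P := P.map (Int.castRingHom ℚ)) fun n => by
    rw [← hv, eval_intCast_map]; simp, Polynomial.map_map]
  congr 1

end main

end Pool.Agent.Tav.DD
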