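import Pool.Agent.P.MP_2ce3e7_ag.Tav.HBase
import Pool.Agent.P.MP_2ce3e7_ag.Tav.Primes

/-! Finitely many Frobenius-stable subvarieties of given dimension and bounded degree. -/

set_option autoImplicit false

noncomputable section

namespace Pool.Agent.Tav.Fn

open MvPolynomial Module

variable {Ω σ ι : Type} [Field Ω] [DecidableEq ι] [Fintype ι] [Finite σ] {β : σ → ι}

omit [Fintype ι] [Finite σ] in
theorem le_of_forms {I J : Ideal (MvPolynomial σ Ω)} (hI : GrJ β I)
    (h : ∀ d, ∀ f ∈ Sd Ω β d, f ∈ I → f ∈ J) : I ≤ J := by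
  intro f hf
  rw [← sum_weightedHomogeneousComponent (wN β) f,
    finsum_eq_sum _ (weightedHomogeneousComponent_finsupp (w := wN β) f)]
  exact Ideal.sum_mem _ fun d _ =>
    h d _ (weightedHomogeneousComponent_isWeightedHomogeneous d f) (hI d f hf)

theorem nc_nonneg {J : Ideal (MvPolynomial σ Ω)} (hJ : GrJ β J) {s : ι →₀ ℕ}
    (h : Dg (pI β J) s.degree) : 0 ≤ nc s (pI β J) := by
  obtain ⟨m, hm⟩ := nc_pI_nat s hJ h
  rw [hm]
  exact Nat.cast_nonneg m

/-- a prime of full dimension above a prime is that prime -/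
theorem eq_of_top {P Q : Ideal (MvPolynomial σ Ω)} (hP : P.IsPrime) (gP : GrJ β P) (gQ : GrJ β Q)
    (hl : P ≤ Q) {s : ι →₀ ℕ} (h : Dg (pI β P) s.degree) (h0 : nc s (pI β Q) ≠ 0) : Q = P := by
  refine le_antisymm (le_of_forms gQ fun d f hf hQ => ?_) hl
  by_contra hc
  have h1 := (h.cut gP hf (lg_prime hP hc)).pI_mono (gP.sup_span hf) gQ
    (sup_le hl ((Ideal.span_singleton_le_iff_mem _).2 hQ))
  exact h0 (nc_eq_zero.2 (h1 s (by omega)))

/-- the number of components of full dimension is at most the degree -/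
theorem card_le (s : ι →₀ ℕ) {J : Ideal (MvPolynomial σ Ω)} (hJ : GrJ β J)
    (h : Dg (pI β J) s.degree) (S : Finset (Ideal (MvPolynomial σ Ω)))
    (hS : ∀ Q ∈ S, Q.IsPrime ∧ GrJ β Q ∧ J ≤ Q ∧ nc s (pI β Q) ≠ 0) :
    (S.card : ℚ) ≤ nc s (pI β J) := by
  classical
  revert h S
  refine Pr.poly_induction (wN β) (fun J => Dg (pI β J) s.degree →
    ∀ S : Finset (Ideal (MvPolynomial σ Ω)),
      (∀ Q ∈ S, Q.IsPrime ∧ GrJ β Q ∧ J ≤ Q ∧ nc s (pI β Q) ≠ 0) →
      (S.card : ℚ) ≤ nc s (pI β J)) ?_ ?_ ?_ J fun f hf d => hJ d f hf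
  · intro _ S hS
    have : S = ∅ := Finset.eq_empty_of_forall_notMem fun Q hQ =>
      (hS Q hQ).1.ne_top (top_le_iff.1 (hS Q hQ).2.2.1)
    simp [this, pI_top]
  · intro P gP hP h S hS
    have gP' : GrJ β P := fun d f hf => gP f hf d
    have e : ∀ Q ∈ S, Q = P := fun Q hQ =>
      eq_of_top hP gP' (hS Q hQ).2.1 (hS Q hQ).2.2.1 h (hS Q hQ).2.2.2
    rcases S.eq_empty_or_nonempty with rfl | ⟨Q, hQ⟩
    · simpa using nc_nonneg gP' h
    · have h1 : S.card ≤ 1 := Finset.card_le_one.2 fun a ha b hb => (e a ha).trans (e b hb).symm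
      obtain ⟨m, hm⟩ := nc_pI_nat s gP' h
      have h2 := (hS Q hQ).2.2.2
      rw [e Q hQ, hm, Nat.cast_ne_zero] at h2
      rw [hm, Nat.cast_le]
      omega
  · intro I d f gI hf _ _ h1 h2 h S hS
    have gI' : GrJ β I := fun d f hf => gI f hf d
    have a := h1 (h.pI_mono gI' (gI'.colon hf) (le_colon1 I f)) (S.filter fun Q => ¬ f ∈ Q)
      fun Q hQ => by
        obtain ⟨hQ, hn⟩ := Finset.mem_filter.1 hQ
        obtain ⟨x1, x2, x3, x4⟩ := hS Q hQ
        exact ⟨x1, x2, fun g hg => (x1.mem_or_mem (x3 (mem_colon1.1 hg))).resolve_right hn, x4⟩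
    have b := h2 (h.pI_mono gI' (gI'.sup_span hf) le_sup_left) (S.filter fun Q => f ∈ Q)
      fun Q hQ => by
        obtain ⟨hQ, hn⟩ := Finset.mem_filter.1 hQ
        obtain ⟨x1, x2, x3, x4⟩ := hS Q hQ
        exact ⟨x1, x2, sup_le x3 ((Ideal.span_singleton_le_iff_mem _).2 hn), x4⟩
    rw [nc_exact gI' hf h le_rfl, ← Finset.card_filter_add_card_filter_not (s := S) (fun Q => f ∈ Q)]
    push_cast
    linarith

/-- a component of full dimension and no larger degrees -/
theorem exists_prime (s : ι →₀ ℕ) {J : Ideal (MvPolynomial σ Ω)} (hJ : GrJ β J)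
    (h : Dg (pI β J) s.degree) (h0 : nc s (pI β J) ≠ 0) :
    ∃ Q : Ideal (MvPolynomial σ Ω), Q.IsPrime ∧ GrJ β Q ∧ J ≤ Q ∧ nc s (pI β Q) ≠ 0 ∧
      ∀ t : ι →₀ ℕ, t.degree = s.degree → nc t (pI β Q) ≤ nc t (pI β J) := by
  revert h h0
  refine Pr.poly_induction (wN β) (fun J => Dg (pI β J) s.degree → nc s (pI β J) ≠ 0 →
    ∃ Q : Ideal (MvPolynomial σ Ω), Q.IsPrime ∧ GrJ β Q ∧ J ≤ Q ∧ nc s (pI β Q) ≠ 0 ∧
      ∀ t : ι →₀ ℕ, t.degree = s.degree → nc t (pI β Q) ≤ nc t (pI β J))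
    ?_ ?_ ?_ J fun f hf d => hJ d f hf
  · intro _ h0
    simp [pI_top] at h0
  · exact fun P gP hP _ h0 => ⟨P, hP, fun d f hf => gP f hf d, le_rfl, h0, fun _ _ => le_rfl⟩
  · intro I d f gI hf _ _ h1 h2 h h0
    have gI' : GrJ β I := fun d f hf => gI f hf d
    have d1 := h.pI_mono gI' (gI'.colon hf) (le_colon1 I f)
    have d2 := h.pI_mono gI' (gI'.sup_span hf) le_sup_left
    by_cases e : nc s (pI β (I.colon {f})) = 0
    · rw [nc_exact gI' hf h le_rfl, e, zero_add] at h0
      obtain ⟨Q, x1, x2, x3, x4, x5⟩ := h2 d2 h0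
      refine ⟨Q, x1, x2, le_sup_left.trans x3, x4, fun t ht => (x5 t ht).trans ?_⟩
      rw [nc_exact gI' hf h (s := t) (by rw [ht])]
      have := nc_nonneg (gI'.colon hf) (s := t) (by rw [ht]; exact d1)
      linarith
    · obtain ⟨Q, x1, x2, x3, x4, x5⟩ := h1 d1 e
      refine ⟨Q, x1, x2, (le_colon1 I f).trans x3, x4, fun t ht => (x5 t ht).trans ?_⟩
      rw [nc_exact gI' hf h (s := t) (by rw [ht])]
      have := nc_nonneg (gI'.sup_span hf) (s := t) (by rw [ht]; exact d2)
      linarith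

omit [Fintype ι] in
theorem relevant {Q : Ideal (MvPolynomial σ Ω)} (h : pI β Q ≠ 0) (i : ι) :
    ∃ v, β v = i ∧ X v ∉ Q := by
  by_contra hc
  push Not at hc
  exact h (pI_eq_zero ⟨1, fun d hd f hf => mem_of_block hc (hd i) hf⟩)

/-- primes of dimension exactly `n` with all degrees at most `c` -/
structure Bd (β : σ → ι) (n c : ℕ) (P : Ideal (MvPolynomial σ Ω)) : Prop where
  prime : P.IsPrime
  gr : GrJ β P
  dg : Dg (pI β P) n
  top : ∃ s : ι →₀ ℕ, s.degree = n ∧ nc s (pI β P) ≠ 0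
  le : ∀ s : ι →₀ ℕ, s.degree = n → nc s (pI β P) ≤ c

theorem hI_mono {P : Ideal (MvPolynomial σ Ω)} (hP : P.IsPrime) (gP : GrJ β P) (h : pI β P ≠ 0)
    (d e : ι → ℕ) : hI β P d ≤ hI β P (d + e) := by
  choose v hv hX using relevant h
  have h1 : (∏ i, X (v i) ^ e i : MvPolynomial σ Ω) ∈ Sd Ω β e := by
    have := IsWeightedHomogeneous.prod Finset.univ (fun i => (X (v i) ^ e i : MvPolynomial σ Ω))
      (fun i => e i • (Pi.single i 1 : ι → ℕ)) (w := wN β) fun i _ => by
        have := IsWeightedHomogeneous.pow (X_mem_Sd (Ω := Ω) (β := β) (v i)) (e i)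
        rwa [hv] at this
    have e2 : ∑ i, e i • (Pi.single i 1 : ι → ℕ) = e := by
      funext j
      simp [Finset.sum_apply, Pi.single_apply]
    rwa [e2] at this
  have h2 : (∏ i, X (v i) ^ e i : MvPolynomial σ Ω) ∉ P := fun hc => by
    obtain ⟨i, -, hi⟩ := Ideal.IsPrime.prod_mem_iff.1 hc
    exact hX i (hP.mem_of_pow_mem _ hi)
  rw [hI_exact gP h1 d, colon_prime hP h2]
  omega

variable [Infinite Ω]

/-- many sections of bounded degree -/
theorem exists_cuts {n c : ℕ} {P : Ideal (MvPolynomial σ Ω)} (h : Bd β (n + 1) c P)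
    {s : ι →₀ ℕ} {i : ι} (hs : s.degree = n) (h0 : nc (s + Finsupp.single i 1) (pI β P) ≠ 0)
    (M : ℕ) : ∃ S : Finset (Ideal (MvPolynomial σ Ω)), S.card = M ∧
      ∀ Q ∈ S, Bd β n c Q ∧ P ≤ Q ∧ nc s (pI β Q) ≠ 0 := by
  classical
  induction M with
  | zero => exact ⟨∅, rfl, by simp⟩
  | succ M ih =>
    obtain ⟨S, hM, hS⟩ := ih
    have nz : ∀ Q ∈ insert P S, pI β Q ≠ 0 := fun Q hQ e => by
      rcases Finset.mem_insert.1 hQ with rfl | hQ
      · exact h0 (by rw [e, map_zero])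
      · exact (hS Q hQ).2.2 (by rw [e, map_zero])
    obtain ⟨l, hl⟩ := Submodule.exists_forall_notMem_of_forall_ne_top
      (fun Q : (insert P S : Finset _) => (Q.1.restrictScalars Ω).comap
        (Sd Ω β (Pi.single i 1)).subtype) fun Q e => by
        obtain ⟨v, rfl, hv⟩ := relevant (nz Q.1 Q.2) i
        exact hv (Submodule.eq_top_iff'.1 e ⟨X v, X_mem_Sd v⟩)
    have hP : l.1 ∉ P := hl ⟨P, Finset.mem_insert_self _ _⟩
    have d1 : Dg (pI β (P ⊔ Ideal.span {l.1})) n := by
      have := h.dg.cut h.gr l.2 (lg_prime h.prime hP)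
      simpa using this
    have c1 : ∀ t : ι →₀ ℕ, t.degree = n →
        nc t (pI β (P ⊔ Ideal.span {l.1})) = nc (t + Finsupp.single i 1) (pI β P) := fun t ht => by
      rw [nc_cut h.gr l.2 (lg_prime h.prime hP) h.dg (by rw [ht]; simp), Finset.sum_eq_single i]
      · simp
      · intro j _ hj
        simp [hj]
      · simp
    obtain ⟨Q, x1, x2, x3, x4, x5⟩ := exists_prime s (h.gr.sup_span l.2) (by rw [hs]; exact d1)
      (by rw [c1 s hs]; exact h0)
    have hQ : Q ∉ S := fun hQ => hl ⟨Q, Finset.mem_insert_of_mem hQ⟩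
      (x3 (Ideal.mem_sup_right (Ideal.mem_span_singleton_self _)))
    refine ⟨insert Q S, by rw [Finset.card_insert_of_notMem hQ, hM], fun Q' hQ' => ?_⟩
    rcases Finset.mem_insert.1 hQ' with rfl | hQ'
    · refine ⟨⟨x1, x2, d1.pI_mono (h.gr.sup_span l.2) x2 x3, ⟨s, hs, x4⟩, fun t ht => ?_⟩,
        le_sup_left.trans x3, x4⟩
      refine (x5 t (ht.trans hs.symm)).trans ?_
      rw [c1 t ht]
      exact h.le _ (by rw [map_add, ht, Finsupp.degree_single])
    · exact hS Q' hQ'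

omit [Fintype ι] [Infinite Ω] in
theorem hI_le_sum {P : Ideal (MvPolynomial σ Ω)} (S : Finset (Ideal (MvPolynomial σ Ω)))
    {d : ι → ℕ} (h : ∀ f ∈ Sd Ω β d, (∀ Q ∈ S, f ∈ Q) → f ∈ P) :
    hI β P d ≤ ∑ Q ∈ S, hI β Q d := by
  classical
  induction S using Finset.induction_on generalizing P with
  | empty => exact (hI_eq_zero fun f hf => h f hf (by simp)).le
  | insert Q S hQ ih =>
    rw [Finset.sum_insert hQ]
    have h1 := ih (P := S.inf id) fun f _ hf => by
      rw [Submodule.mem_finsetInf]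
      exact hf
    have h2 : hI β P d ≤ hI β (Q ⊓ S.inf id) d := hI_anti fun f hf hm => h f hf fun Q' hQ' => by
      rcases Finset.mem_insert.1 hQ' with rfl | hQ'
      · exact hm.1
      · exact (Finset.inf_le hQ' : S.inf id ≤ id Q') hm.2
    have a1 := hI_add (β := β) Q d
    have a2 := hI_add (β := β) (S.inf id) d
    have a3 := hI_add (β := β) (Q ⊓ S.inf id) d
    have a4 := Submodule.finrank_sup_add_finrank_inf_eq (Sd Ω β d ⊓ Q.restrictScalars Ω)
      (Sd Ω β d ⊓ (S.inf id).restrictScalars Ω)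
    have a5 : finrank Ω (Sd Ω β d ⊓ Q.restrictScalars Ω ⊔
        Sd Ω β d ⊓ (S.inf id).restrictScalars Ω : Submodule Ω _) ≤ finrank Ω (Sd Ω β d) :=
      Submodule.finrank_mono (sup_le inf_le_left inf_le_left)
    have a6 : (Sd Ω β d ⊓ Q.restrictScalars Ω) ⊓ (Sd Ω β d ⊓ (S.inf id).restrictScalars Ω) =
        Sd Ω β d ⊓ (Q ⊓ S.inf id).restrictScalars Ω := by
      ext f
      simp only [Submodule.mem_inf, Submodule.restrictScalars_mem]
      tauto
    rw [a6] at a4
    omega

/-- a bound for the Hilbert function in every degree -/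
theorem hI_le (c n : ℕ) {P : Ideal (MvPolynomial σ Ω)} (h : Bd β n c P) (d : ι → ℕ) :
    hI β P d ≤ (c + 1) ^ (n + 1) * (1 + ∑ i, d i) ^ n := by
  induction n generalizing P with
  | zero =>
    obtain ⟨s, hs, h0⟩ := h.top
    have nz : pI β P ≠ 0 := fun e => h0 (by rw [e, map_zero])
    obtain ⟨N, hN⟩ := evP_pI h.gr
    have h1 := hN (d + fun _ => N) fun i => Nat.le_add_left _ _
    have e : pI β P = C (coeff 0 (pI β P)) :=
      totalDegree_eq_zero_iff_eq_C.1 (Nat.le_zero.1 (dg_iff.1 h.dg))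
    have h2 := h.le 0 (map_zero _)
    rw [e, evN_C] at h1
    rw [nc_zero, h1, Nat.cast_le] at h2
    have := hI_mono h.prime h.gr nz d fun _ => N
    simp only [zero_add, pow_one, pow_zero, mul_one]
    omega
  | succ n ih =>
    obtain ⟨t, ht, h0⟩ := h.top
    obtain ⟨i, hi⟩ : ∃ i, t i ≠ 0 := by
      by_contra hc
      push Not at hc
      rw [show t = 0 from Finsupp.ext hc] at ht
      simp at ht
    obtain ⟨s, rfl⟩ : ∃ s, t = s + Finsupp.single i 1 :=
      ⟨_, (Finsupp.sub_add_single_one_cancel hi).symm⟩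
    have hs : s.degree = n := by
      rw [map_add, Finsupp.degree_single] at ht
      omega
    obtain ⟨S, hM, hS⟩ := exists_cuts h hs h0 (c * ∑ i, d i + 1)
    have h1 : hI β P d ≤ ∑ Q ∈ S, hI β Q d := hI_le_sum S fun f hf hQ => by
      by_contra hc
      have d1 : Dg (pI β (P ⊔ Ideal.span {f})) s.degree := by
        have := h.dg.cut h.gr hf (lg_prime h.prime hc)
        rw [hs]
        simpa using this
      have a := card_le s (h.gr.sup_span hf) d1 S fun Q hq => ⟨(hS Q hq).1.prime, (hS Q hq).1.gr,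
        sup_le (hS Q hq).2.1 ((Ideal.span_singleton_le_iff_mem _).2 (hQ Q hq)), (hS Q hq).2.2⟩
      rw [nc_cut h.gr hf (lg_prime h.prime hc) h.dg (by rw [hs]; simp), hM] at a
      have b : ∑ j, (d j : ℚ) * nc (s + Finsupp.single j 1) (pI β P) ≤ ∑ j, (d j : ℚ) * c :=
        Finset.sum_le_sum fun j _ => mul_le_mul_of_nonneg_left
          (h.le _ (by rw [map_add, hs, Finsupp.degree_single])) (Nat.cast_nonneg _)
      rw [← Finset.sum_mul] at b
      push_cast at a
      linarith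
    have h2 := Finset.sum_le_card_nsmul S _ _ fun Q hq => ih (hS Q hq).1
    rw [hM, smul_eq_mul] at h2
    refine (h1.trans h2).trans ?_
    have : c * ∑ i, d i + 1 ≤ (c + 1) * (1 + ∑ i, d i) := by nlinarith [Nat.zero_le (∑ i, d i)]
    calc _ ≤ ((c + 1) * (1 + ∑ i, d i)) * ((c + 1) ^ (n + 1) * (1 + ∑ i, d i) ^ n) :=
          Nat.mul_le_mul_right _ this
      _ = _ := by ring

section Fix
variable (fr : Ω →+* Ω)

omit [Finite σ] [Infinite Ω] in
theorem exists_fix {W : Submodule Ω (MvPolynomial σ Ω)} (hW : ∀ f ∈ W, map fr f ∈ W) (n : ℕ) :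
    ∀ f ∈ W, f ≠ 0 → f.support.card ≤ n →
      ∃ g ∈ W, g ≠ 0 ∧ g.support ⊆ f.support ∧ map fr g = g := by
  classical
  induction n with
  | zero => exact fun f _ h0 h => absurd (support_eq_empty.1 (Finset.card_eq_zero.1 (by omega))) h0
  | succ n ih =>
    intro f hf h0 h
    obtain ⟨s, hs⟩ := support_nonempty.2 h0
    have hc : coeff s f ≠ 0 := mem_support_iff.1 hs
    set g := (coeff s f)⁻¹ • f with hg
    have g1 : coeff s g = 1 := by rw [hg, coeff_smul, smul_eq_mul, inv_mul_cancel₀ hc]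
    have g2 : g.support ⊆ f.support := support_smul
    have gW : g ∈ W := W.smul_mem _ hf
    by_cases e : map fr g - g = 0
    · exact ⟨g, gW, fun e0 => by simp [e0] at g1, g2, sub_eq_zero.1 e⟩
    · have h3 : (map fr g - g).support ⊆ f.support.erase s := fun t ht => by
        rw [MvPolynomial.mem_support_iff, coeff_sub, coeff_map] at ht
        refine Finset.mem_erase.2 ⟨fun e => ht (by rw [e, g1, map_one, sub_self]), g2 ?_⟩
        exact mem_support_iff.2 fun e => ht (by rw [e, map_zero, sub_self])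
      obtain ⟨u, u1, u2, u3, u4⟩ := ih _ (W.sub_mem (hW g gW) gW) e (by
        have := Finset.card_le_card h3
        rw [Finset.card_erase_of_mem hs] at this
        omega)
      exact ⟨u, u1, u2, u3.trans (h3.trans (Finset.erase_subset _ _)), u4⟩

omit [Finite σ] [Infinite Ω] in
/-- a stable subspace is spanned by its fixed members -/
theorem le_of_fix {W W' : Submodule Ω (MvPolynomial σ Ω)} (hW : ∀ f ∈ W, map fr f ∈ W)
    (h : ∀ g ∈ W, map fr g = g → g ∈ W') : W ≤ W' := by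
  classical
  have key : ∀ n, ∀ f ∈ W, f.support.card ≤ n → f ∈ W' := by
    intro n
    induction n with
    | zero =>
      intro f _ h
      rw [support_eq_empty.1 (Finset.card_eq_zero.1 (Nat.le_zero.1 h))]
      exact W'.zero_mem
    | succ n ih =>
      intro f hf hn
      by_cases h0 : f = 0
      · rw [h0]
        exact W'.zero_mem
      obtain ⟨g, g1, g2, g3, g4⟩ := exists_fix fr hW _ f hf h0 le_rfl
      obtain ⟨s, hs⟩ := support_nonempty.2 g2
      have hc : coeff s g ≠ 0 := mem_support_iff.1 hs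
      have h3 : (f - (coeff s f / coeff s g) • g).support ⊆ f.support.erase s := fun t ht => by
        rw [MvPolynomial.mem_support_iff, coeff_sub, coeff_smul, smul_eq_mul] at ht
        refine Finset.mem_erase.2 ⟨fun e => ht (by rw [e, div_mul_cancel₀ _ hc, sub_self]), ?_⟩
        by_contra hn
        rw [notMem_support_iff.1 hn, notMem_support_iff.1 fun x => hn (g3 x)] at ht
        simp at ht
      have h4 := ih _ (W.sub_mem hf (W.smul_mem (coeff s f / coeff s g) g1)) (by
        have := Finset.card_le_card h3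
        rw [Finset.card_erase_of_mem (g3 hs)] at this
        omega)
      simpa using W'.add_mem h4 (W'.smul_mem (coeff s f / coeff s g) (h g g1 g4))
  exact fun f hf => key _ f hf le_rfl

omit [Infinite Ω] in
theorem finite_fix (hfr : {x | fr x = x}.Finite) (d : ι → ℕ) :
    {g : MvPolynomial σ Ω | g ∈ Sd Ω β d ∧ map fr g = g}.Finite := by
  classical
  cases nonempty_fintype σ
  have hfin : {s : σ →₀ ℕ | Finsupp.weight (wN β) s = d}.Finite := by
    refine (Set.finite_Iic (Finsupp.equivFunOnFinite.symm fun v => d (β v))).subset fun s hs v => ?_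
    have h1 : Finsupp.weight (wN β) s = d := hs
    change s v ≤ d (β v)
    rw [← h1, weight_wN]
    exact Finset.single_le_sum (f := fun v => s v) (fun _ _ => Nat.zero_le _) (by simp)
  have := hfin.to_subtype
  refine Set.Finite.of_finite_image (f := fun g (s : {s : σ →₀ ℕ | Finsupp.weight (wN β) s = d}) =>
    coeff s.1 g) ((Set.Finite.pi' fun _ => hfr).subset ?_) ?_
  · rintro _ ⟨g, hg, rfl⟩ s
    change fr _ = _
    rw [← coeff_map, hg.2]
  · intro g hg g' hg' e
    refine MvPolynomial.ext _ _ fun s => ?_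
    by_cases hs : Finsupp.weight (wN β) s = d
    · exact congrFun e ⟨s, hs⟩
    · rw [not_not.1 fun x => hs (hg.1 x), not_not.1 fun x => hs (hg'.1 x)]

/-- FIN -/
theorem finite_bd (hfr : {x | fr x = x}.Finite) (β : σ → ι) (n c : ℕ) :
    {P : Ideal (MvPolynomial σ Ω) | Bd β n c P ∧ ∀ f ∈ P, map fr f ∈ P}.Finite := by
  classical
  by_contra hinf
  set A := {P : Ideal (MvPolynomial σ Ω) | Bd β n c P ∧ ∀ f ∈ P, map fr f ∈ P}
  have : Infinite A := Set.infinite_coe_iff.2 hinf
  let U := Filter.hyperfilter A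
  let J : Ideal (MvPolynomial σ Ω) :=
    { carrier := {f | ∀ᶠ P in (U : Filter A), f ∈ P.1}
      add_mem' := fun ha hb => (ha.and hb).mono fun P h => P.1.add_mem h.1 h.2
      zero_mem' := Filter.Eventually.of_forall fun P => P.1.zero_mem
      smul_mem' := fun a _ h => h.mono fun P h => P.1.smul_mem a h }
  have gJ : GrJ β J := fun d f hf => Filter.Eventually.mono hf fun P h => P.2.1.gr d f h
  have dJ : Dg (pI β J) n := by
    refine (evP_pI gJ).dg_of_growth (c := (c + 1) ^ (n + 1)) (Lg.of_forall fun d => ?_)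
    have h1 : ∀ᶠ P in (U : Filter A), ∀ g ∈ {g : MvPolynomial σ Ω | g ∈ Sd Ω β d ∧ map fr g = g},
        g ∈ P.1 → g ∈ J := (Filter.eventually_all_finite (finite_fix fr hfr d)).2 fun g _ => by
      rcases U.em fun P => g ∈ P.1 with h | h
      · exact Filter.Eventually.of_forall fun _ _ => h
      · exact h.mono fun P h h' => absurd h' h
    obtain ⟨P, hP⟩ := h1.exists
    have h2 := le_of_fix fr (W := Sd Ω β d ⊓ P.1.restrictScalars Ω) (W' := J.restrictScalars Ω)
      (fun f hf => ⟨map_mem_Sd fr hf.1, P.2.2 f hf.2⟩) fun g hg e => hP g ⟨hg.1, e⟩ hg.2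
    have h3 := (hI_anti (J := P.1) (J' := J) fun f hf hm => h2 ⟨hf, hm⟩).trans (hI_le c n P.2.1 d)
    rw [abs_of_nonneg (Nat.cast_nonneg _)]
    exact_mod_cast h3
  obtain ⟨G, hG⟩ := (isNoetherianRing_iff_ideal_fg _).1 inferInstance J
  have h4 : ∀ᶠ P in (U : Filter A), J ≤ P.1 := by
    have : ∀ᶠ P in (U : Filter A), ∀ g ∈ G, g ∈ P.1 := (Filter.eventually_all_finset G).2
      fun g hg => (show g ∈ J from hG ▸ Ideal.subset_span hg)
    exact this.mono fun P h => hG ▸ Ideal.span_le.2 h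
  refine Filter.notMem_hyperfilter_of_finite ?_ h4
  refine Set.Finite.subset (Set.Finite.preimage Subtype.val_injective.injOn
    ((Finsupp.finite_of_degree_eq n).biUnion (t := fun s => {Q : Ideal (MvPolynomial σ Ω) |
      Q.IsPrime ∧ GrJ β Q ∧ J ≤ Q ∧ nc s (pI β Q) ≠ 0}) fun s hs => ?_)) fun P hP => ?_
  · by_contra hi
    obtain ⟨S, hS, hc⟩ := Set.Infinite.exists_subset_card_eq hi (⌈nc s (pI β J)⌉₊ + 1)
    have := card_le s gJ (by rw [show s.degree = n from hs]; exact dJ) S fun Q hQ => hS hQ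
    rw [hc] at this
    push_cast at this
    linarith [Nat.le_ceil (nc s (pI β J))]
  · obtain ⟨s, hs, h0⟩ := P.2.1.top
    exact Set.mem_biUnion (show s ∈ {f : ι →₀ ℕ | f.degree = n} from hs)
      ⟨P.2.1.prime, P.2.1.gr, hP, h0⟩

end Fix

end Pool.Agent.Tav.Fn
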