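import Pool.Agent.P.MP_2ce3e7_ag.Tav.GrPlaceA

/-! Valuations of number fields above a prime: slopes, Frobenius, the theorem of Kronecker. -/

set_option autoImplicit false

noncomputable section

namespace Pool.Agent.Tav.Hon

open Polynomial NumberField Pool.Agent.Tav.Pl
open scoped Pointwise

section
variable {K Γ : Type} [Field K] [LinearOrderedCommGroupWithZero Γ] (w : Valuation K Γ) {p : ℕ}

theorem val_integral {x : K} (hx : IsIntegral ℤ x) : w x ≤ 1 := by
  obtain ⟨y, rfl⟩ := IsIntegrallyClosed.algebraMap_eq_of_integral (R := w.valuationSubring)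
    (hx.tower_top (A := w.valuationSubring))
  exact y.2

theorem val_int (n : ℤ) : w n ≤ 1 := intCast_mem w.valuationSubring n

theorem val_cop (hp : p.Prime) (h : w p < 1) {n : ℤ} (hn : ¬ (p : ℤ) ∣ n) : w n = 1 := by
  obtain ⟨a, b, e⟩ := (Nat.prime_iff_prime_int.1 hp).coprime_iff_not_dvd.2 hn
  by_contra h1
  have h2 : w ((a : K) * p + (b : K) * n) < 1 := by
    refine w.map_add_lt ?_ ?_ <;> rw [map_mul]
    · exact mul_lt_one_of_nonneg_of_lt_one_right (val_int w a) zero_le h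
    · exact mul_lt_one_of_nonneg_of_lt_one_right (val_int w b) zero_le
        ((val_int w n).lt_of_ne h1)
  have h3 : (a : K) * p + (b : K) * n = 1 := by exact_mod_cast congrArg (Int.cast : ℤ → K) e
  rw [h3, map_one] at h2
  exact lt_irrefl _ h2

theorem val_int_pow (hp : p.Prime) (h : w p < 1) {n : ℤ} (hn : n ≠ 0) :
    ∃ k : ℕ, w n = w p ^ k := by
  obtain ⟨k, a, h1, rfl⟩ := WfDvdMonoid.max_power_factor hn
    (Nat.prime_iff_prime_int.1 hp).irreducible
  exact ⟨k, by push_cast; rw [map_mul, map_pow, val_cop w hp h h1, mul_one]⟩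

theorem nonunit_iff (x : K) : x ∈ w.valuationSubring.nonunits ↔ w x < 1 := by
  rw [ValuationSubring.mem_nonunits_iff, w.isEquiv_valuation_valuationSubring.lt_one_iff_lt_one]

theorem int_of_all {x : K} (h : ∀ V : ValuationSubring K, x ∈ V) : IsIntegral ℤ x := by
  have h1 : x ∈ (integralClosure (Subring.closure (∅ : Set K)) K).toSubring := by
    rw [← iInf_valuationSubring_superset, Subring.mem_iInf]
    exact fun V => h V
  have : Algebra.IsIntegral ℤ (Subring.closure (∅ : Set K)) :=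
    Algebra.isIntegral_of_surjective fun y => by
      obtain ⟨n, hn⟩ := Subring.mem_bot.1 ((Subring.closure_empty (R := K)).le y.2)
      exact ⟨n, Subtype.ext (by simpa using hn)⟩
  exact isIntegral_trans (A := Subring.closure (∅ : Set K)) x h1

variable [CharZero K]

theorem val_ne (hp : p.Prime) : w p ≠ 0 := by simpa using hp.ne_zero

theorem val_rat (hp : p.Prime) (h : w p < 1) {a : ℚ} (ha : a ≠ 0) :
    ∃ k : ℤ, w a = w p ^ k := by
  obtain ⟨k, hk⟩ := val_int_pow w hp h (Rat.num_ne_zero.2 ha)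
  obtain ⟨l, hl⟩ := val_int_pow w hp h (n := a.den) (by exact_mod_cast a.den_nz)
  refine ⟨k - l, ?_⟩
  rw [Rat.cast_def, map_div₀, hk, zpow_sub₀ (val_ne w hp), zpow_natCast, zpow_natCast, ← hl,
    Int.cast_natCast]

theorem rat_iff (hp : p.Prime) (h : w p < 1) (a : ℚ) : w a ≤ 1 ↔ ¬ p ∣ a.den := by
  have h0 : w a * w (a.den : ℤ) = w a.num := by
    rw [← map_mul]
    congr 1
    exact_mod_cast Rat.mul_den_eq_num a
  refine ⟨fun h1 h2 => ?_, fun h1 => ?_⟩
  · have h3 : ¬ (p : ℤ) ∣ a.num := fun h3 =>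
      hp.one_lt.ne' (Nat.eq_one_of_dvd_coprimes a.reduced (Int.natCast_dvd.1 h3) h2)
    obtain ⟨b, hb⟩ := h2
    rw [val_cop w hp h h3, hb] at h0
    push_cast at h0
    rw [map_mul] at h0
    exact (mul_lt_one_of_nonneg_of_lt_one_right h1 zero_le
      (mul_lt_one_of_nonneg_of_lt_one_left zero_le h (by simpa using val_int w b))).ne h0
  · rw [val_cop w hp h (fun h2 => h1 (Int.natCast_dvd_natCast.1 h2)), mul_one] at h0
    exact h0 ▸ val_int w _

theorem comap_rat (hp : p.Prime) {V V' : ValuationSubring K} (h : V.valuation p < 1)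
    (h' : V'.valuation p < 1) : V.comap (algebraMap ℚ K) = V'.comap (algebraMap ℚ K) := by
  ext a
  rw [ValuationSubring.mem_comap, ValuationSubring.mem_comap, ← V.valuation_le_one_iff,
    ← V'.valuation_le_one_iff, eq_ratCast, rat_iff _ hp h, rat_iff _ hp h']

/-- slopes are rational -/
theorem val_alg (hp : p.Prime) (h : w p < 1) {x : K} (h0 : x ≠ 0) (hx : IsAlgebraic ℚ x) :
    ∃ n : ℕ, n ≠ 0 ∧ ∃ k : ℤ, w x ^ n = w p ^ k := by
  obtain ⟨q, hq, h1⟩ := hx
  have hw : w x ≠ 0 := by simpa using h0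
  rw [aeval_def, eval₂_eq_sum, Polynomial.sum] at h1
  obtain ⟨j, hj, hm⟩ := q.support.exists_max_image
    (fun i => w (algebraMap ℚ K (q.coeff i) * x ^ i)) (support_nonempty.2 hq)
  obtain ⟨i, hi, h2⟩ : ∃ i ∈ q.support \ {j}, w (algebraMap ℚ K (q.coeff i) * x ^ i) =
      w (algebraMap ℚ K (q.coeff j) * x ^ j) := by
    by_contra h2
    have h3 := w.map_sum_eq_of_lt (f := fun i => algebraMap ℚ K (q.coeff i) * x ^ i) hj
      fun i hi => (hm i (Finset.mem_sdiff.1 hi).1).lt_of_ne fun h3 => h2 ⟨i, hi, h3⟩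
    rw [h1, map_zero, eq_comm] at h3
    simp [h0, mem_support_iff.1 hj] at h3
  rw [Finset.mem_sdiff, Finset.mem_singleton] at hi
  obtain ⟨a, ha⟩ := val_rat w hp h (mem_support_iff.1 hi.1)
  obtain ⟨b, hb⟩ := val_rat w hp h (mem_support_iff.1 hj)
  rw [map_mul, map_mul, eq_ratCast, eq_ratCast, ha, hb, map_pow, map_pow] at h2
  have key : ∀ (i j : ℕ) (a b : ℤ), i < j → w p ^ a * w x ^ i = w p ^ b * w x ^ j →
      ∃ n : ℕ, n ≠ 0 ∧ ∃ k : ℤ, w x ^ n = w p ^ k := by
    intro i j a b hl e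
    obtain ⟨n, rfl⟩ := Nat.exists_eq_add_of_lt hl
    refine ⟨n + 1, n.succ_ne_zero, a - b, ?_⟩
    rw [add_assoc, pow_add, mul_comm (w x ^ i), ← mul_assoc] at e
    rw [zpow_sub₀ (val_ne w hp), eq_div_iff (zpow_ne_zero _ (val_ne w hp)), mul_comm]
    exact (mul_right_cancel₀ (pow_ne_zero _ hw) e).symm
  rcases lt_or_gt_of_ne hi.2 with hl | hl
  · exact key _ _ _ _ hl h2
  · exact key _ _ _ _ hl h2.symm

theorem val_slope (hp : p.Prime) (h : w p < 1) {x : K} (h0 : x ≠ 0) (hx : IsIntegral ℤ x) {a : ℕ}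
    (ha : a ≠ 0) : ∃ n : ℕ, n ≠ 0 ∧ ∃ k : ℕ, w x ^ n = (w p ^ a) ^ k := by
  obtain ⟨n, hn, k, e⟩ := val_alg w hp h h0 (hx.tower_top (A := ℚ)).isAlgebraic
  have h1 : 0 ≤ k := by
    by_contra h1
    have h2 := one_lt_zpow_of_neg₀ (zero_lt_iff.2 (val_ne w hp)) h (not_le.1 h1)
    exact h2.not_ge (e ▸ pow_le_one₀ zero_le (val_integral w hx))
  lift k to ℕ using h1
  refine ⟨n * a, mul_ne_zero hn ha, k, ?_⟩
  rw [pow_mul, e, zpow_natCast, ← pow_mul, ← pow_mul, mul_comm]

theorem cl_int (hp : p.Prime) {V : ValuationSubring K} (h : V.valuation p < 1) {b : K}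
    (hb : b ∈ cl K (V.comap (algebraMap ℚ K))) (ha : IsAlgebraic ℚ b) :
    ∃ n : ℤ, ¬ (p : ℤ) ∣ n ∧ IsIntegral ℤ ((n : K) * b) := by
  obtain ⟨n, hn, h1⟩ := ((IsFractionRing.isAlgebraic_iff ℤ ℚ K).2 ha).exists_integral_multiple
  obtain ⟨k, a, h2, rfl⟩ := WfDvdMonoid.max_power_factor hn
    (Nat.prime_iff_prime_int.1 hp).irreducible
  refine ⟨a, h2, int_of_all fun U => ?_⟩
  by_cases h3 : U.valuation p < 1
  · exact mul_mem (intCast_mem U a) (hb U (comap_rat hp h h3).le)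
  · have h4 : U.valuation p = 1 := le_antisymm (by simp) (not_lt.1 h3)
    have h5 := val_integral U.valuation h1
    rw [zsmul_eq_mul] at h5
    push_cast at h5
    rw [mul_assoc, map_mul, map_pow, h4, one_pow, one_mul] at h5
    exact (U.valuation_le_one_iff _).1 h5

end

variable {K Γ : Type} [Field K] [NumberField K] [LinearOrderedCommGroupWithZero Γ]
  (w : Valuation K Γ) {p : ℕ}

/-- the decomposition group -/
def Dc : Subgroup Gal(K/ℚ) where
  carrier := {s | ∀ z, w (s z) ≤ 1 ↔ w z ≤ 1}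
  mul_mem' ha hb z := (ha _).trans (hb z)
  one_mem' _ := Iff.rfl
  inv_mem' {s} h z := by
    rw [← h]
    exact Iff.of_eq (congrArg (fun y => w y ≤ 1) (s.apply_symm_apply z))

theorem val_Dc {d : Gal(K/ℚ)} (hd : d ∈ Dc w) (z : K) : w (d z) = w z := by
  have le : ∀ s ∈ Dc w, ∀ a b, w (s a) ≤ w (s b) ↔ w a ≤ w b := by
    intro s hs a b
    by_cases hb : b = 0
    · simp [hb]
    have h1 : 0 < w b := zero_lt_iff.2 (by simpa using hb)
    have h2 : 0 < w (s b) := zero_lt_iff.2 (by simpa using hb)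
    rw [← div_le_one₀ h1, ← div_le_one₀ h2, ← map_div₀, ← map_div₀, ← map_div₀]
    exact hs _
  have key : ∀ s ∈ Dc w, ∀ a, ¬ w a < w (s a) := by
    intro s hs a h
    have h1 : ∀ n : ℕ, w a < w ((s ^ (n + 1)) a) := by
      intro n
      induction n with
      | zero => simpa using h
      | succ n ih =>
        refine h.trans ?_
        rw [pow_succ' s (n + 1), AlgEquiv.mul_apply, ← not_le, le s hs, not_le]
        exact ih
    have h2 := h1 (orderOf s - 1)
    rw [Nat.sub_add_cancel (orderOf_pos s), pow_orderOf_eq_one] at h2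
    exact lt_irrefl _ h2
  refine le_antisymm (not_lt.1 (key d hd z)) (not_lt.1 fun h => key d⁻¹ (inv_mem hd) (d z) ?_)
  rwa [← AlgEquiv.mul_apply, inv_mul_cancel]

variable [IsGalois ℚ K]

theorem exists_frob (hp : p.Prime) (h : w p < 1) :
    ∃ s ∈ Dc w, ∀ (z : K) (m : ℕ), z ^ m = 1 → ¬ p ∣ m → s z = z ^ p := by
  let V := w.valuationSubring
  have hV : V.valuation p < 1 := V.mem_nonunits_iff.1 ((nonunit_iff w _).2 h)
  let Q : Ideal (𝓞 K) := (IsLocalRing.maximalIdeal V).comap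
    ((algebraMap (𝓞 K) K).codRestrict V fun x => val_integral w x.isIntegral_coe)
  have hQ : ∀ x : 𝓞 K, x ∈ Q ↔ w x < 1 := fun x =>
    (V.coe_mem_nonunits_iff (a := ⟨x, val_integral w x.isIntegral_coe⟩)).symm.trans
      (nonunit_iff w _)
  have : Q.IsPrime := Ideal.comap_isPrime _ _
  have hZ : Q.under ℤ = Ideal.span {(p : ℤ)} := by
    ext n
    rw [Ideal.mem_span_singleton, Ideal.under, Ideal.mem_comap, hQ]
    have e : ((algebraMap ℤ (𝓞 K) n : 𝓞 K) : K) = n := by simp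
    rw [e]
    refine ⟨fun h1 => by_contra fun h2 => h1.ne (val_cop w hp h h2), ?_⟩
    rintro ⟨b, rfl⟩
    push_cast
    rw [map_mul]
    exact mul_lt_one_of_nonneg_of_lt_one_left zero_le h (val_int w b)
  have : Finite (𝓞 K ⧸ Q) := Ring.HasFiniteQuotients.finiteQuotient fun h0 => by
    have h1 : (p : 𝓞 K) ∈ Q := (hQ _).2 (by simpa using h)
    rw [h0, Ideal.mem_bot] at h1
    exact hp.ne_zero (by exact_mod_cast h1)
  obtain ⟨s, hs⟩ := IsArithFrobAt.exists_of_isInvariant ℤ Gal(K/ℚ) Q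
  refine ⟨s, ?_, fun z m hz hm => ?_⟩
  · have h1 : ∀ b ∈ cl K (V.comap (algebraMap ℚ K)),
        b ∈ V.nonunits ↔ b ∈ (V.comap (s : K →+* K)).nonunits := by
      intro b hb
      obtain ⟨n, hn, h1⟩ := cl_int hp hV hb (Algebra.IsAlgebraic.isAlgebraic b)
      let x : 𝓞 K := ⟨_, h1⟩
      have h2 : w (s (n * b)) < 1 ↔ w (n * b) < 1 := (hQ (s • x)).symm.trans
        ((SetLike.ext_iff.1 (AlgHom.IsArithFrobAt.comap_eq hs) x).trans (hQ x))
      rw [map_mul, map_intCast, map_mul, map_mul, val_cop w hp h hn, one_mul, one_mul] at h2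
      rw [nonunits_comap, nonunit_iff, nonunit_iff]
      exact h2.symm
    have h2 := comap_gal s V
    have h3 := le_antisymm (le_of_center rfl h2 fun b hb => (h1 b hb).2)
      (le_of_center h2 rfl fun b hb => (h1 b hb).1)
    exact fun z => (SetLike.ext_iff.1 h3 z).symm
  · have hm0 : m ≠ 0 := fun h0 => hm (h0 ▸ dvd_zero p)
    have h1 : IsIntegral ℤ z := IsIntegral.of_pow (Nat.pos_of_ne_zero hm0) (hz ▸ isIntegral_one)
    have h2 := AlgHom.IsArithFrobAt.apply_of_pow_eq_one hs (ζ := ⟨z, h1⟩) (m := m)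
      (Subtype.ext hz) (fun h2 => by
        have h3 := (hQ _).1 h2
        have h4 := val_cop w hp h (n := m) fun h4 => hm (Int.natCast_dvd_natCast.1 h4)
        simp only [Int.cast_natCast] at h4
        simp [h4] at h3)
    rw [hZ, Int.card_ideal_quot] at h2
    exact congrArg Subtype.val h2

theorem dvd_card (hp : p.Prime) (h : w p < 1) {N : ℕ} (hN : N ≠ 0) {z : K}
    (hz : IsPrimitiveRoot z (p ^ N - 1)) : N ∣ Nat.card (Dc w) := by
  obtain ⟨s, hs, h1⟩ := exists_frob w hp h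
  have h0 : 1 ≤ p ^ N := Nat.one_le_pow _ _ hp.pos
  have h2 : s z = z ^ p := h1 z _ hz.pow_eq_one fun h2 => by
    have h3 := Nat.dvd_sub (dvd_pow_self p hN) h2
    rw [Nat.sub_sub_self h0] at h3
    exact hp.one_lt.ne' (Nat.dvd_one.1 h3)
  have h3 : ∀ n : ℕ, (s ^ n) z = z ^ p ^ n := by
    intro n
    induction n with
    | zero => simp
    | succ n ih => rw [pow_succ' s, AlgEquiv.mul_apply, ih, map_pow, h2, ← pow_mul, pow_succ']
  have h4 : s ^ Nat.card (Dc w) = 1 := congrArg Subtype.val (pow_card_eq_one' (x := (⟨s, hs⟩ : Dc w)))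
  have h5 := h3 (Nat.card (Dc w))
  generalize Nat.card (Dc w) = n at h4 h5
  have h6 : z ≠ 0 := hz.ne_zero (Nat.sub_ne_zero_of_lt (Nat.one_lt_pow hN hp.one_lt))
  rw [h4, ← Nat.sub_add_cancel (Nat.one_le_pow n _ hp.pos), pow_succ, AlgEquiv.one_apply,
    eq_comm, mul_eq_right₀ h6, hz.pow_eq_one_iff_dvd] at h5
  have h7 := Nat.gcd_eq_left h5
  rw [Nat.pow_sub_one_gcd_pow_sub_one] at h7
  have h8 : p ^ N.gcd n = p ^ N := by
    have := Nat.one_le_pow (N.gcd n) _ hp.pos
    omega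
  exact Nat.pow_right_injective hp.two_le h8 ▸ Nat.gcd_dvd_right N n

/-- KRON -/
theorem kron (hp : p.Prime) (h : w p < 1) {a b b' : K} (ha : IsIntegral ℤ a)
    (hb' : IsIntegral ℤ b') {n : ℕ} (hb : b * b' = p ^ n)
    (hv : ∀ s : Gal(K/ℚ), w (s a) = w (s b)) (ha0 : a ≠ 0)
    (hn : ∀ φ : K →+* ℂ, ‖φ a‖ = ‖φ b‖) : ∃ m : ℕ, m ≠ 0 ∧ a ^ m = b ^ m := by
  have hp0 : (p : K) ^ n ≠ 0 := pow_ne_zero _ (by exact_mod_cast hp.ne_zero)
  have hb0 : b ≠ 0 := left_ne_zero_of_mul (hb ▸ hp0)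
  have h1 : IsIntegral ℤ (a / b) := int_of_all fun U => by
    by_cases h3 : U.valuation p < 1
    · obtain ⟨g, hg⟩ := conj (K := ℚ) U w.valuationSubring (comap_rat hp h3
        (w.valuationSubring.mem_nonunits_iff.1 ((nonunit_iff w _).2 h)))
      rw [← hg, Valuation.mem_valuationSubring_iff, map_div₀, map_div₀, hv,
        div_self (by simpa using hb0)]
    · have h4 : U.valuation p = 1 :=
        le_antisymm (by simp) (not_lt.1 h3)
      have h5 : a / b = a * b' / p ^ n := by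
        rw [← hb, mul_div_mul_right _ _ (right_ne_zero_of_mul (hb ▸ hp0))]
      rw [← U.valuation_le_one_iff, h5, map_div₀, map_pow, h4, one_pow, div_one]
      exact val_integral _ (ha.mul hb')
  obtain ⟨m, hm, e⟩ := Embeddings.pow_eq_one_of_norm_le_one K ℂ (div_ne_zero ha0 hb0) h1
    fun φ => by rw [map_div₀, norm_div, hn, div_self (by simpa using hb0)]
  exact ⟨m, hm.ne', by rwa [div_pow, div_eq_one_iff_eq (pow_ne_zero _ hb0)] at e⟩

end Pool.Agent.Tav.Hon
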