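import Pool.Agent.P.MP_2ce3e7_ag.Tav.TiTMod

/-! From the span of the endomorphisms of a product to an isogeny between the factors. -/

set_option autoImplicit false

noncomputable section

namespace Pool.Agent.Tav.Ti.Ig

open Function Polynomial Module TensorProduct

section lin

variable {K : Type} [Field K] {n : Type} [Fintype n] [DecidableEq n]

theorem int_det [CharZero K] {κ : Type} [Fintype κ] (s : κ → Matrix n n K) (c : κ → K)
    (h : (∑ i, c i • s i).det ≠ 0) : ∃ z : κ → ℤ, (∑ i, (z i : K) • s i).det ≠ 0 := by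
  by_contra hz
  push Not at hz
  let p : MvPolynomial κ K :=
    (∑ i, (MvPolynomial.X i : MvPolynomial κ K) • (s i).map MvPolynomial.C).det
  have ev : ∀ x : κ → K, MvPolynomial.eval x p = (∑ i, x i • s i).det := fun x => by
    rw [RingHom.map_det]
    congr 1
    ext a b
    simp [Matrix.sum_apply]
  have p0 : p = 0 := by
    refine MvPolynomial.funext_set (fun _ => Set.range (Int.cast : ℤ → K))
      (fun _ => Set.infinite_range_of_injective Int.cast_injective) fun x hx => ?_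
    choose z hz' using fun i => hx i trivial
    rw [ev, map_zero, ← hz z]
    simp only [hz']
  exact h (by rw [← ev, p0, map_zero])

variable {U U' : Type} [AddCommGroup U] [Module K U] [FiniteDimensional K U]
  [AddCommGroup U'] [Module K U'] [FiniteDimensional K U']

/-- a subgroup whose span holds a unit holds a unit -/
theorem int_unit [CharZero K] (S : AddSubgroup (End K U)) {J : End K U}
    (hJ : J ∈ Submodule.span K (S : Set (End K U))) (hu : IsUnit J) : ∃ a ∈ S, IsUnit a := by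
  obtain ⟨m, c, g, rfl⟩ := Submodule.mem_span_set'.1 hJ
  let b := Module.finBasis K U
  have key : ∀ x : Fin m → K, (∑ i, x i • LinearMap.toMatrix b b (g i).1).det ≠ 0 ↔
      IsUnit (∑ i, x i • (g i).1) := fun x => by
    rw [LinearMap.isUnit_iff_isUnit_det, isUnit_iff_ne_zero, ← LinearMap.det_toMatrix b, map_sum]
    simp only [map_smul]
  obtain ⟨z, hz⟩ := int_det _ c ((key c).2 hu)
  refine ⟨_, S.sum_mem fun i _ => ?_, (key _).1 hz⟩
  rw [Int.cast_smul_eq_zsmul]
  exact S.zsmul_mem (g i).2 _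

theorem conj_closed [IsAlgClosed K] {f : End K U} {g : End K U'} (hf : f.IsSemisimple)
    (hg : g.IsSemisimple) (h : f.charpoly = g.charpoly) :
    ∃ e : U ≃ₗ[K] U', ∀ x, e (f x) = g (e x) := by
  classical
  have i1 := DirectSum.isInternal_submodule_of_iSupIndep_of_iSup_eq_top
    f.eigenspaces_iSupIndep hf.iSup_eigenspace_eq_top
  have i2 := DirectSum.isInternal_submodule_of_iSupIndep_of_iSup_eq_top
    g.eigenspaces_iSupIndep hg.iSup_eigenspace_eq_top
  have r1 : ∀ μ, finrank K (f.eigenspace μ) = f.charpoly.rootMultiplicity μ := fun μ => by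
    rw [← hf.isFinitelySemisimple.maxGenEigenspace_eq_eigenspace,
      LinearMap.finrank_maxGenEigenspace_eq]
  have r2 : ∀ μ, finrank K (g.eigenspace μ) = f.charpoly.rootMultiplicity μ := fun μ => by
    rw [← hg.isFinitelySemisimple.maxGenEigenspace_eq_eigenspace,
      LinearMap.finrank_maxGenEigenspace_eq, h]
  let b1 := i1.collectedBasis fun μ => Module.finBasisOfFinrankEq K _ (r1 μ)
  let b2 := i2.collectedBasis fun μ => Module.finBasisOfFinrankEq K _ (r2 μ)
  have e1 : ∀ a, f (b1 a) = a.1 • b1 a := fun a =>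
    End.mem_eigenspace_iff.1 (i1.collectedBasis_mem _ a)
  have e2 : ∀ a, g (b2 a) = a.1 • b2 a := fun a =>
    End.mem_eigenspace_iff.1 (i2.collectedBasis_mem _ a)
  refine ⟨b1.equiv b2 (Equiv.refl _), fun x => ?_⟩
  have : (b1.equiv b2 (Equiv.refl _)).toLinearMap ∘ₗ f =
      g ∘ₗ (b1.equiv b2 (Equiv.refl _)).toLinearMap := b1.ext fun a => by
    simp [e1, e2]
  exact LinearMap.congr_fun this x

theorem semis_map {L : Type} [Field L] [Algebra K L] {A : Matrix n n K} {P : K[X]}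
    (hP : P.Separable) (hA : aeval A P = 0) :
    End.IsSemisimple (Matrix.toLin' (A.map (algebraMap K L))) := by
  refine End.isSemisimple_of_squarefree_aeval_eq_zero
    (hP.map (f := algebraMap K L)).squarefree ?_
  have h1 : aeval (A.map (algebraMap K L)) (P.map (algebraMap K L)) = 0 := by
    rw [aeval_map_algebraMap]
    have := aeval_algHom_apply (Algebra.ofId K L).mapMatrix A P
    rw [hA, map_zero] at this
    exact this
  have := aeval_algHom_apply (Matrix.toLinAlgEquiv' (R := L) (n := n)) (A.map (algebraMap K L))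
    (P.map (algebraMap K L))
  rw [h1, map_zero] at this
  exact this

theorem conj_mat [CharZero K] {A B : Matrix n n K} {P Q : K[X]} (hP : P.Separable)
    (hQ : Q.Separable) (hA : aeval A P = 0) (hB : aeval B Q = 0) (h : A.charpoly = B.charpoly) :
    ∃ X : Matrix n n K, X.det ≠ 0 ∧ X * A = B * X := by
  classical
  let L := AlgebraicClosure K
  let φ := algebraMap K L
  obtain ⟨e, he⟩ := conj_closed (semis_map (L := L) hP hA) (semis_map (L := L) hQ hB)
    (by rw [Matrix.charpoly_toLin', Matrix.charpoly_toLin', Matrix.charpoly_map,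
      Matrix.charpoly_map, h])
  let Y := LinearMap.toMatrix' e.toLinearMap
  have hY : Y * A.map φ = B.map φ * Y := by
    apply Matrix.toLin'.injective
    rw [Matrix.toLin'_mul, Matrix.toLin'_mul, Matrix.toLin'_toMatrix']
    exact LinearMap.ext he
  have dY : Y.det ≠ 0 := by
    rw [LinearMap.det_toMatrix']
    exact e.isUnit_det'.ne_zero
  have co : ∀ t : L →ₗ[K] K, Y.map t * A = B * Y.map t := fun t => by
    ext i j
    have := congrArg t (congrFun (congrFun hY i) j)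
    simp only [Matrix.mul_apply, Matrix.map_apply, map_sum] at this ⊢
    calc _ = ∑ x, t (Y i x * φ (A x j)) := Finset.sum_congr rfl fun x _ => by
          rw [mul_comm (Y i x), ← Algebra.smul_def, map_smul, smul_eq_mul, mul_comm]
      _ = _ := this
      _ = _ := Finset.sum_congr rfl fun x _ => by
          rw [← Algebra.smul_def, map_smul, smul_eq_mul]
  let b := Basis.ofVectorSpace K L
  let s := Finset.univ.biUnion fun a : n × n => (b.repr (Y a.1 a.2)).support
  have hs : ∑ k : s, b k • (Y.map (b.coord k)).map φ = Y := by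
    ext i j
    simp only [Matrix.sum_apply, Matrix.smul_apply, Matrix.map_apply, smul_eq_mul]
    rw [Finset.sum_coe_sort s fun k => b k * φ (b.coord k (Y i j))]
    conv_rhs => rw [← b.linearCombination_repr (Y i j), Finsupp.linearCombination_apply]
    refine Eq.trans ?_ (Finsupp.sum_of_support_subset (b.repr (Y i j)) (s := s)
      (fun k hk => Finset.mem_biUnion.2 ⟨(i, j), Finset.mem_univ _, hk⟩) (fun i a => a • b i)
      fun k _ => zero_smul _ _).symm
    exact Finset.sum_congr rfl fun k _ => by rw [mul_comm, Algebra.smul_def]; rfl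
  obtain ⟨z, hz⟩ := int_det _ _ (hs.symm ▸ dY)
  refine ⟨∑ k : s, (z k : K) • Y.map (b.coord k), fun h0 => hz ?_, ?_⟩
  · have := congrArg φ h0
    rw [RingHom.map_det, map_zero] at this
    rw [← this]
    congr 1
    ext i j
    simp [Matrix.sum_apply]
  · rw [Finset.sum_mul, Finset.mul_sum]
    exact Finset.sum_congr rfl fun k _ => by rw [smul_mul_assoc, mul_smul_comm, co]

/-- CONJ -/
theorem conj_end [CharZero K] {f : End K U} {g : End K U'} {P Q : K[X]} (hP : P.Separable)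
    (hQ : Q.Separable) (hf : aeval f P = 0) (hg : aeval g Q = 0) (h : f.charpoly = g.charpoly) :
    ∃ e : U ≃ₗ[K] U', ∀ x, e (f x) = g (e x) := by
  have hd : finrank K U' = finrank K U := by
    rw [← f.charpoly_natDegree, ← g.charpoly_natDegree, h]
  let b := Module.finBasis K U
  let b' := Module.finBasisOfFinrankEq K U' hd
  have a1 := aeval_algHom_apply (LinearMap.toMatrixAlgEquiv b) f P
  have a2 := aeval_algHom_apply (LinearMap.toMatrixAlgEquiv b') g Q
  rw [hf, map_zero] at a1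
  rw [hg, map_zero] at a2
  obtain ⟨X, hX, hXA⟩ := conj_mat hP hQ a1 a2 (by
    change (LinearMap.toMatrix b b f).charpoly = (LinearMap.toMatrix b' b' g).charpoly
    rw [LinearMap.charpoly_toMatrix, LinearMap.charpoly_toMatrix, h])
  have hu : IsUnit (LinearMap.toMatrix b b' (Matrix.toLin b b' X)).det := by
    rw [LinearMap.toMatrix_toLin]
    exact Ne.isUnit hX
  refine ⟨LinearEquiv.ofIsUnitDet hu, fun x => ?_⟩
  have : Matrix.toLin b b' X ∘ₗ f = g ∘ₗ Matrix.toLin b b' X := by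
    apply (LinearMap.toMatrix b b').injective
    rw [LinearMap.toMatrix_comp b b b', LinearMap.toMatrix_comp b b' b', LinearMap.toMatrix_toLin]
    exact hXA
  exact LinearMap.congr_fun this x

end lin

section ker

variable {K : Type} [Field K] [CharZero K]

/-- independence over the integers gives independence over `K` -/
def Ind (K : Type) [Field K] {E W : Type} [AddCommGroup E] [AddCommGroup W] [Module K W]
    (V : E → W) : Prop :=
  ∀ (m : ℕ) (s : Fin m → E), LinearIndependent ℤ s → LinearIndependent K fun i => V (s i)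

variable {E E' W W' : Type} [AddCommGroup E] [AddCommGroup E'] [AddCommGroup W] [AddCommGroup W']
  [Module K W] [Module K W']

theorem free_of_inj [Module.Finite ℤ E] (K : Type) [Field K] [CharZero K] [Module K W]
    {V : E →+ W} (hV : Injective V) : Module.Free ℤ E := by
  have : IsAddTorsionFree W := IsAddTorsionFree.of_isTorsionFree K W
  have : IsAddTorsionFree E := hV.isAddTorsionFree V
  infer_instance

/-- KER: base change of kernels -/
theorem ker_span [Module.Finite ℤ E'] (V : E →+ W) {V' : E' →+ W'} (hinj : Injective V')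
    (hind : Ind K V') (L : E →+ E') (T : W →ₗ[K] W') (hT : ∀ a, T (V a) = V' (L a)) {x : W}
    (hx : x ∈ Submodule.span K (Set.range V)) (h0 : T x = 0) :
    x ∈ Submodule.span K (V '' (L.ker : Set E)) := by
  have := free_of_inj K hinj
  let b := Module.finBasis ℤ E'
  let A := LinearMap.liftBaseChange K V.toIntLinearMap
  let A' := LinearMap.liftBaseChange K V'.toIntLinearMap
  have hA' : Injective A' := by
    refine LinearMap.injective_of_linearIndependent (b.baseChange K).span_eq ?_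
    have e : A' ∘ b.baseChange K = fun i => V' (b i) := funext fun i => by simp [A']
    rw [e]
    exact hind _ _ b.linearIndependent
  have hr : LinearMap.range A = Submodule.span K (Set.range V) := by
    rw [LinearMap.range_liftBaseChange]
    rfl
  obtain ⟨y, rfl⟩ := hr.ge hx
  have hc : ∀ y, T (A y) = A' (L.toIntLinearMap.lTensor K y) := fun y => by
    induction y with
    | zero => simp
    | tmul c a => simp [A, A', hT]
    | add y y' h h' => simp only [map_add, h, h']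
  have h1 : L.toIntLinearMap.lTensor K y = 0 := hA' (by rw [← hc, h0, map_zero])
  obtain ⟨t, rfl⟩ := (Module.Flat.lTensor_exact K
    (LinearMap.exact_subtype_ker_map L.toIntLinearMap) y).1 h1
  clear h0 hx h1
  induction t with
  | zero =>
    rw [map_zero, map_zero]
    exact Submodule.zero_mem _
  | tmul c a =>
    simp only [A, LinearMap.lTensor_tmul, LinearMap.liftBaseChange_tmul]
    exact Submodule.smul_mem _ _ (Submodule.subset_span ⟨a.1, a.2, rfl⟩)
  | add t t' h h' =>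
    rw [map_add, map_add]
    exact Submodule.add_mem _ h h'

end ker

section abs

variable {K : Type} [Field K] [CharZero K] {E U : Type} [Ring E] [Module.Finite ℤ E]
  [AddCommGroup U] [Module K U] [FiniteDimensional K U]

omit [CharZero K] [FiniteDimensional K U] in
/-- an element that acts invertibly divides a nonzero integer -/
theorem exists_quasi (V : E →+* End K U) (hinj : Injective V) {w : E} (hw : IsUnit (V w)) :
    ∃ (z : E) (m : ℕ), m ≠ 0 ∧ w * z = m ∧ z * w = m ∧ ∀ a, a * w = w * a → a * z = z * a := by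
  rcases subsingleton_or_nontrivial E with hE | hE
  · exact ⟨0, 1, one_ne_zero, Subsingleton.elim _ _, Subsingleton.elim _ _,
      fun _ _ => Subsingleton.elim _ _⟩
  have h0 : w ∈ nonZeroDivisors E := by
    rw [mem_nonZeroDivisors_iff]
    constructor
    · intro x hx
      apply hinj
      rw [map_zero, ← hw.mul_right_eq_zero, ← map_mul, hx, map_zero]
    · intro x hx
      apply hinj
      rw [map_zero, ← hw.mul_left_eq_zero, ← map_mul, hx, map_zero]
  obtain ⟨t, ht, r, hr, h⟩ :=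
    (IsIntegral.of_finite ℤ w).isAlgebraic.exists_nonzero_eq_adjoin_mul h0
  have hc : ∀ a, a * w = w * a → a * t = t * a := fun a ha =>
    (Algebra.commute_of_mem_adjoin_singleton_of_commute ht ha).eq
  have hr' : (r : E) * r = ((r.natAbs ^ 2 : ℕ) : E) := by
    rw [← Int.cast_mul, ← Int.cast_natCast]
    congr 1
    push_cast
    rw [sq_abs, sq]
  have h' : w * t = r := h
  refine ⟨t * r, r.natAbs ^ 2, pow_ne_zero _ (Int.natAbs_ne_zero.2 hr), ?_, ?_, fun a ha => ?_⟩
  · rw [← mul_assoc, h', hr']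
  · rw [mul_assoc, Int.cast_comm, ← mul_assoc, ← hc w rfl, h', hr']
  · rw [← mul_assoc, hc a ha, mul_assoc, mul_assoc, Int.cast_comm]

theorem isog_abs (V : E →+* End K U) (hinj : Injective V) (hind : Ind K V) (e f : E)
    {J : End K U} (hJ : IsUnit J) (hJs : J ∈ Submodule.span K (Set.range V))
    (hJf : J * V f = V f * J) (hJe : V e * J = J * (1 - V e)) :
    ∃ (w z : E) (m : ℕ), m ≠ 0 ∧ w * z = m ∧ z * w = m ∧ f * w = w * f ∧ f * z = z * f ∧
      e * w = w * (1 - e) ∧ z * e = (1 - e) * z := by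
  let L₁ : E →+ E := AddMonoidHom.mulLeft f - AddMonoidHom.mulRight f
  have s1 := ker_span (V : E →+ End K U) (V' := (V : E →+ End K U)) hinj hind L₁
    (LinearMap.mulLeft K (V f) - LinearMap.mulRight K (V f)) (fun a => by simp [L₁]) hJs
    (by simp [hJf])
  let L₂ : L₁.ker →+ E :=
    (AddMonoidHom.mulLeft e - AddMonoidHom.mulRight (1 - e)).comp L₁.ker.subtype
  have s2 := ker_span ((V : E →+ End K U).comp L₁.ker.subtype) (V' := (V : E →+ End K U)) hinj
    hind L₂ (LinearMap.mulLeft K (V e) - LinearMap.mulRight K (1 - V e))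
    (fun a => by simp [L₂]) (x := J)
    (Submodule.span_mono (by rintro _ ⟨a, ha, rfl⟩; exact ⟨⟨a, ha⟩, rfl⟩) s1) (by simp [hJe])
  obtain ⟨_, ⟨w, hw, rfl⟩, hu⟩ :=
    int_unit (L₂.ker.map ((V : E →+ End K U).comp L₁.ker.subtype)) s2 hJ
  have h1 : f * w.1 = w.1 * f := sub_eq_zero.1 w.2
  have h2 : e * w.1 = w.1 * (1 - e) := sub_eq_zero.1 hw
  obtain ⟨z, m, hm, hwz, hzw, hc⟩ := exists_quasi V hinj (w := w.1) hu
  refine ⟨w.1, z, m, hm, hwz, hzw, h1, hc f h1, h2, hinj ?_⟩
  have h3 : (m : E) * (z * e) = m * ((1 - e) * z) := by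
    calc (m : E) * (z * e) = z * (e * w.1) * z := by
          rw [mul_assoc z, mul_assoc e, hwz, ← mul_assoc z, Nat.cast_comm]
      _ = _ := by rw [h2, ← mul_assoc z, hzw, mul_assoc]
  have h4 := congrArg V h3
  rw [map_mul, map_mul V (m : E), map_natCast, ← nsmul_eq_mul, ← nsmul_eq_mul,
    ← Nat.cast_smul_eq_nsmul K, ← Nat.cast_smul_eq_nsmul K] at h4
  exact smul_right_injective _ (Nat.cast_ne_zero.2 hm) h4

end abs

section tm

variable {l : ℕ} [Fact l.Prime] {G₁ G₂ ι₁ ι₂ ι : Type} [AddCommGroup G₁] [AddCommGroup G₂]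
  [Fintype ι₁] [Fintype ι₂] [Fintype ι]

/-- the projector on the first factor -/
def prE (G₁ G₂ : Type) [AddCommGroup G₁] [AddCommGroup G₂] : AddMonoid.End (G₁ × G₂) :=
  (AddMonoidHom.inl G₁ G₂).comp (AddMonoidHom.fst G₁ G₂)

/-- the product of two endomorphisms -/
def prF (F₁ : AddMonoid.End G₁) (F₂ : AddMonoid.End G₂) : AddMonoid.End (G₁ × G₂) :=
  AddMonoidHom.prodMap F₁ F₂

/-- the block from the first factor to the second -/
def b21 (w : AddMonoid.End (G₁ × G₂)) : G₁ →+ G₂ :=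
  (AddMonoidHom.snd G₁ G₂).comp (AddMonoidHom.comp w (AddMonoidHom.inl G₁ G₂))

/-- the block from the second factor to the first -/
def b12 (w : AddMonoid.End (G₁ × G₂)) : G₂ →+ G₁ :=
  (AddMonoidHom.fst G₁ G₂).comp (AddMonoidHom.comp w (AddMonoidHom.inr G₁ G₂))

theorem prE_apply (t : G₁ × G₂) : prE G₁ G₂ t = (t.1, 0) := rfl

theorem prF_apply (F₁ : AddMonoid.End G₁) (F₂ : AddMonoid.End G₂) (t : G₁ × G₂) :
    prF F₁ F₂ t = (F₁ t.1, F₂ t.2) := rfl

theorem b21_apply (w : AddMonoid.End (G₁ × G₂)) (x : G₁) : b21 w x = (w (x, 0)).2 := rfl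

theorem b12_apply (w : AddMonoid.End (G₁ × G₂)) (y : G₂) : b12 w y = (w (0, y)).1 := rfl

theorem prF_pow (F₁ : AddMonoid.End G₁) (F₂ : AddMonoid.End G₂) (N : ℕ) :
    prF F₁ F₂ ^ N = prF (F₁ ^ N) (F₂ ^ N) := by
  induction N with
  | zero => rfl
  | succ N ih => rw [pow_succ, pow_succ, pow_succ, ih]; rfl

/-- an integer polynomial that kills `F` kills its lift -/
theorem sep_of_int (M : TM l G₁ ι₁) {F : AddMonoid.End G₁} {P : ℤ[X]}
    (hP : (P.map (Int.castRingHom ℚ)).Separable) (hF : aeval F P = 0) :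
    ∃ Q : ℚ_[l][X], Q.Separable ∧ aeval (M.VR F) Q = 0 := by
  refine ⟨P.map (algebraMap ℤ ℚ_[l]), ?_, ?_⟩
  · have := hP.map (f := algebraMap ℚ ℚ_[l])
    rwa [Polynomial.map_map, RingHom.ext_int ((algebraMap ℚ ℚ_[l]).comp _) (algebraMap ℤ _)]
      at this
  · rw [aeval_map_algebraMap]
    have := aeval_algHom_apply M.VR.toIntAlgHom F P
    rw [hF, map_zero] at this
    exact this

/-- the swap of the two Tate modules -/
theorem exists_swap (M₁ : TM l G₁ ι₁) (M₂ : TM l G₂ ι₂) (M : TM l (G₁ × G₂) ι)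
    {F₁ : AddMonoid.End G₁} {F₂ : AddMonoid.End G₂}
    (ε : (ι₁ → ℚ_[l]) ≃ₗ[ℚ_[l]] (ι₂ → ℚ_[l])) (hε : ∀ x, ε (M₁.VR F₁ x) = M₂.VR F₂ (ε x)) :
    ∃ J : End ℚ_[l] (ι → ℚ_[l]), IsUnit J ∧ J * M.VR (prF F₁ F₂) = M.VR (prF F₁ F₂) * J ∧
      M.VR (prE G₁ G₂) * J = J * (1 - M.VR (prE G₁ G₂)) := by
  let i₁ := M₁.V M (AddMonoidHom.inl G₁ G₂)
  let i₂ := M₂.V M (AddMonoidHom.inr G₁ G₂)
  let p₁ := M.V M₁ (AddMonoidHom.fst G₁ G₂)
  let p₂ := M.V M₂ (AddMonoidHom.snd G₁ G₂)
  have a11 : ∀ x, p₁ (i₁ x) = x := fun x => LinearMap.congr_fun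
    (M₁.lin_ext (A := p₁ ∘ₗ i₁) (B := LinearMap.id) fun v => by simp [p₁, i₁, TM.κ_V]) x
  have a22 : ∀ x, p₂ (i₂ x) = x := fun x => LinearMap.congr_fun
    (M₂.lin_ext (A := p₂ ∘ₗ i₂) (B := LinearMap.id) fun v => by simp [p₂, i₂, TM.κ_V]) x
  have a12 : ∀ x, p₁ (i₂ x) = 0 := fun x => LinearMap.congr_fun
    (M₁.lin_ext (A := p₁ ∘ₗ i₂) (B := 0) fun v => by simp [p₁, i₂, TM.κ_V]) x
  have a21 : ∀ x, p₂ (i₁ x) = 0 := fun x => LinearMap.congr_fun
    (M₂.lin_ext (A := p₂ ∘ₗ i₁) (B := 0) fun v => by simp [p₂, i₁, TM.κ_V]) x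
  have su : ∀ x, i₁ (p₁ x) + i₂ (p₂ x) = x := fun x => LinearMap.congr_fun
    (M.lin_ext (A := i₁ ∘ₗ p₁ + i₂ ∘ₗ p₂) (B := LinearMap.id) fun v => by
      simp [p₁, p₂, i₁, i₂, TM.κ_V]) x
  have ve : ∀ x, M.VR (prE G₁ G₂) x = i₁ (p₁ x) := fun x => LinearMap.congr_fun
    (M.lin_ext (A := M.VR (prE G₁ G₂)) (B := i₁ ∘ₗ p₁) fun v => by
      simp [p₁, i₁, TM.κ_V, TM.κ_VR, prE_apply]) x
  have vf : ∀ x, M.VR (prF F₁ F₂) x = i₁ (M₁.VR F₁ (p₁ x)) + i₂ (M₂.VR F₂ (p₂ x)) := fun x =>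
    LinearMap.congr_fun (M.lin_ext (A := M.VR (prF F₁ F₂))
      (B := i₁ ∘ₗ M₁.VR F₁ ∘ₗ p₁ + i₂ ∘ₗ M₂.VR F₂ ∘ₗ p₂) fun v => by
      simp [p₁, p₂, i₁, i₂, TM.κ_V, TM.κ_VR, prF_apply]) x
  have hε' : ∀ y, ε.symm (M₂.VR F₂ y) = M₁.VR F₁ (ε.symm y) := fun y => by
    rw [ε.symm_apply_eq, hε, ε.apply_symm_apply]
  let J : End ℚ_[l] (ι → ℚ_[l]) := i₁ ∘ₗ ε.symm.toLinearMap ∘ₗ p₂ + i₂ ∘ₗ ε.toLinearMap ∘ₗ p₁
  have hJ : ∀ x, J x = i₁ (ε.symm (p₂ x)) + i₂ (ε (p₁ x)) := fun _ => rfl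
  have JJ : J * J = 1 := LinearMap.ext fun x => by
    simp [hJ, a11, a12, a21, a22, su]
  refine ⟨J, ⟨⟨J, J, JJ, JJ⟩, rfl⟩, LinearMap.ext fun x => ?_, LinearMap.ext fun x => ?_⟩
  · simp [hJ, vf, a11, a12, a21, a22, hε, hε']
  · simp [hJ, ve, a11, a12, a21]

/-- ISOG -/
theorem isog (M₁ : TM l G₁ ι₁) (M₂ : TM l G₂ ι₂) (M : TM l (G₁ × G₂) ι)
    (E : Subring (AddMonoid.End (G₁ × G₂))) [Module.Finite ℤ E]
    (hinj : Injective fun a : E => M.VR a) (hind : Ind ℚ_[l] fun a : E => M.VR a)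
    {F₁ : AddMonoid.End G₁} {F₂ : AddMonoid.End G₂} (he : prE G₁ G₂ ∈ E) (hf : prF F₁ F₂ ∈ E)
    (hTI : ∀ X, X * M.VR (prF F₁ F₂) = M.VR (prF F₁ F₂) * X →
      X ∈ Submodule.span ℚ_[l] (Set.range fun a : E => M.VR a))
    {P Q : ℚ_[l][X]} (hP : P.Separable) (hQ : Q.Separable) (h₁ : aeval (M₁.VR F₁) P = 0)
    (h₂ : aeval (M₂.VR F₂) Q = 0) (hc : (M₁.VR F₁).charpoly = (M₂.VR F₂).charpoly) :
    ∃ w ∈ E, ∃ z ∈ E, ∃ m : ℕ, m ≠ 0 ∧ (∀ y, b21 w (b12 z y) = m • y) ∧
      (∀ x, b12 z (b21 w x) = m • x) ∧ (∀ x, b21 w (F₁ x) = F₂ (b21 w x)) ∧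
      ∀ y, b12 z (F₂ y) = F₁ (b12 z y) := by
  obtain ⟨ε, hε⟩ := conj_end hP hQ h₁ h₂ hc
  obtain ⟨J, hJ, hJf, hJe⟩ := exists_swap M₁ M₂ M ε hε
  obtain ⟨w, z, m, hm, hwz, hzw, fw, fz, ew, ze⟩ :=
    isog_abs (M.VR.comp E.subtype) hinj hind ⟨_, he⟩ ⟨_, hf⟩ hJ (hTI J hJf) hJf hJe
  have ap : ∀ {a b : E}, a = b → ∀ t, a.1 t = b.1 t := fun h t => by rw [h]
  have nc : ∀ t : G₁ × G₂, (m : E).1 t = m • t := fun t => by
    rw [SubringClass.coe_natCast, AddMonoid.End.natCast_apply]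
  have w1 : ∀ x, (w.1 (x, 0)).1 = 0 := fun x => by
    have h : prE G₁ G₂ (w.1 (x, 0)) = w.1 ((x, 0) - prE G₁ G₂ (x, 0)) := ap ew (x, 0)
    rw [prE_apply, prE_apply, sub_self, map_zero] at h
    exact congrArg Prod.fst h
  have z2 : ∀ y, (z.1 (0, y)).2 = 0 := fun y => by
    have h : z.1 (prE G₁ G₂ (0, y)) = z.1 (0, y) - prE G₁ G₂ (z.1 (0, y)) := ap ze (0, y)
    rw [prE_apply, prE_apply] at h
    have h' := congrArg Prod.snd h
    rw [show ((0, 0) : G₁ × G₂) = 0 from rfl, map_zero] at h'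
    simpa using h'.symm
  have wx : ∀ x, w.1 (x, 0) = (0, b21 w.1 x) := fun x => Prod.ext (w1 x) rfl
  have zy : ∀ y, z.1 (0, y) = (b12 z.1 y, 0) := fun y => Prod.ext rfl (z2 y)
  refine ⟨w.1, w.2, z.1, z.2, m, hm, fun y => ?_, fun x => ?_, fun x => ?_, fun y => ?_⟩
  · have h : w.1 (z.1 (0, y)) = _ := (ap hwz (0, y)).trans (nc _)
    rw [zy] at h
    exact congrArg Prod.snd h
  · have h : z.1 (w.1 (x, 0)) = _ := (ap hzw (x, 0)).trans (nc _)
    rw [wx] at h
    exact congrArg Prod.fst h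
  · have h : prF F₁ F₂ (w.1 (x, 0)) = w.1 (prF F₁ F₂ (x, 0)) := ap fw (x, 0)
    rw [prF_apply, prF_apply, map_zero] at h
    exact (congrArg Prod.snd h).symm
  · have h : prF F₁ F₂ (z.1 (0, y)) = z.1 (prF F₁ F₂ (0, y)) := ap fz (0, y)
    rw [prF_apply, prF_apply, map_zero] at h
    exact (congrArg Prod.fst h).symm

/-- the hypothesis `hTI` of `isog` from the same for a power -/
theorem ti_of_pow {A : Type} [Monoid A] {f : A} {N : ℕ} {S : A → Prop}
    (h : ∀ X, X * f ^ N = f ^ N * X → S X) (X : A) (hX : X * f = f * X) : S X :=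
  h X (Commute.pow_right hX N)

end tm

end Pool.Agent.Tav.Ti.Ig
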