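import Pool.Agent.P.MP_2ce3e7_ag.Tav.TiFin
import Pool.Agent.P.MP_2ce3e7_ag.Tav.MAV
import Pool.Agent.P.MP_2ce3e7_ag.Tav.GAll
import Pool.Agent.P.MP_2ce3e7_ag.Tav.SRg

/-! The pigeonhole principle for Frobenius-stable images of bounded degree. -/

set_option autoImplicit false

noncomputable section

namespace Pool.Agent.Tav.Fn

open MvPolynomial Module Function

variable {Ω σ β T : Type} [Field Ω] [DecidableEq β] [Fintype β] [Finite σ]

omit [DecidableEq β] [Fintype β] in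
theorem exists_slots (s : β →₀ ℕ) {ν : Type} [Fintype ν] (h : s.degree = Fintype.card ν) :
    ∃ g : ν → β, ∑ j, Finsupp.single (g j) 1 = s := by
  have key : ∀ s : β →₀ ℕ, ∃ g : Fin s.degree → β, ∑ j, Finsupp.single (g j) 1 = s := by
    intro s
    induction s using deg_induction with
    | h0 => exact ⟨fun j => (Fin.cast (map_zero _) j).elim0, Finset.sum_eq_zero fun j _ =>
        (Fin.cast (map_zero _) j).elim0⟩
    | h1 s i ih =>
      obtain ⟨g, hg⟩ := ih
      rw [map_add, Finsupp.degree_single]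
      exact ⟨Fin.snoc g i, by simp [Fin.sum_univ_castSucc, hg]⟩
  obtain ⟨g, hg⟩ := key s
  let e : ν ≃ Fin s.degree := Fintype.equivFinOfCardEq h.symm
  exact ⟨g ∘ e, (e.sum_comp fun j => Finsupp.single (g j) 1).trans hg⟩

omit [Finite σ] in
theorem aeval_pt (x : T → σ → Ω) (f : MvPolynomial σ Ω) (t : T) :
    aeval (fun v t => x t v) f t = eval (x t) f := by
  induction f using MvPolynomial.induction_on with
  | C a => simp
  | add p q hp hq => simp only [map_add, Pi.add_apply, hp, hq]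
  | mul_X p s hp => simp only [map_mul, Pi.mul_apply, hp, aeval_X, eval_X]

omit [Fintype β] [Finite σ] in
theorem mem_ker {w : σ → β} {x : T → σ → Ω} {f : MvPolynomial σ Ω} {d : β → ℕ}
    (hf : f ∈ Sd Ω w d) : f ∈ kerG Ω w (fun v t => x t v) ↔ ∀ t, eval (x t) f = 0 := by
  rw [mem_kerG hf, funext_iff]
  exact forall_congr' fun t => by rw [aeval_pt, Pi.zero_apply]

theorem bd_ker {w : σ → β} {x : T → σ → Ω} (hx : ∀ t b, ∃ v, w v = b ∧ x t v ≠ 0) {ν : Type}
    [Fintype ν] {c : ℕ} (src : Src (LS.blk w x hx) (Fintype.card ν))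
    (top : ∃ g : ν → β, mix (LS.blk w x hx) (LS.blk w x hx ∘ g) ≠ 0)
    (le : ∀ g : ν → β, mix (LS.blk w x hx) (LS.blk w x hx ∘ g) ≤ c) :
    Bd w (Fintype.card ν) c (kerG Ω w fun v t => x t v) := by
  have e : pI w (kerG Ω w fun v t => x t v) = pL (LS.blk w x hx) := pI_kerG _
  have m : ∀ d, ∀ f ∈ Sd Ω w d, aeval (fun v t => x t v) f ∈ pc (LS.blk w x hx) d := fun d f hf => by
    have := map_Sd (Ω := Ω) (β := w) (fun v t => x t v) d
    exact (this.le : _ ≤ pc (LS.blk w x hx) d) ⟨f, hf, rfl⟩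
  refine ⟨Pr.Hom.isPrime (w := wN w) (fun f hf d => grJ_kerG _ d f hf) (fun h => ?_) ?_,
    grJ_kerG _, e ▸ src.dg, ?_, fun s hs => ?_⟩
  · obtain ⟨t⟩ := src.ne
    have := congrFun (aeval_of_mem_kerG ((Ideal.eq_top_iff_one _).1 h)) t
    simp at this
  · intro d d' f f' hf hf' h
    rw [mem_kerG (d := d) hf, mem_kerG (d := d') hf']
    exact src.dom d d' _ (m d f hf) _ (m d' f' hf') (by rw [← map_mul]; exact aeval_of_mem_kerG h)
  · obtain ⟨g, hg⟩ := top
    exact ⟨∑ j, Finsupp.single (g j) 1, by simp [map_sum], by rwa [e, ← mix_self]⟩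
  · obtain ⟨g, rfl⟩ := exists_slots s hs
    rw [e, ← mix_self]
    exact le g

omit [DecidableEq β] [Fintype β] [Finite σ] in
theorem eval_map_fr (fr : Ω →+* Ω) (x : σ → Ω) (f : MvPolynomial σ Ω) :
    eval (fun i => fr (x i)) (map fr f) = fr (eval x f) := by
  induction f using MvPolynomial.induction_on with
  | C a => simp
  | add f g hf hg => simp [hf, hg]
  | mul_X f i hf => simp [hf]

theorem finite_pow {q : ℕ} (hq : 1 < q) : {c : Ω | c ^ q = c}.Finite := by
  classical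
  refine (Polynomial.X ^ q - Polynomial.X : Polynomial Ω).roots.toFinset.finite_toSet.subset
    fun c hc => ?_
  have : c ^ q = c := hc
  simp [FiniteField.X_pow_card_sub_X_ne_zero Ω hq, this]

/-- PIG -/
theorem pig [Infinite Ω] (fr : Ω ≃+* Ω) {q : ℕ} (hq : 1 < q) (hfr : ∀ c, fr c = c ^ q)
    {J : Type} [Infinite J] {T : J → Type} (w : σ → β) (x : ∀ j, T j → σ → Ω)
    (hx : ∀ j t b, ∃ v, w v = b ∧ x j t v ≠ 0) (ν : Type) [Fintype ν] (c : ℕ)
    (src : ∀ j, Src (LS.blk w (x j) (hx j)) (Fintype.card ν))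
    (top : ∀ j, ∃ g : ν → β, mix (LS.blk w (x j) (hx j)) (LS.blk w (x j) (hx j) ∘ g) ≠ 0)
    (le : ∀ j (g : ν → β), mix (LS.blk w (x j) (hx j)) (LS.blk w (x j) (hx j) ∘ g) ≤ c)
    (frob : ∀ j t, ∃ t', BPar w (x j t') (x j t ^ q)) :
    ∃ S : Set J, S.Infinite ∧ ∀ i ∈ S, ∀ j ∈ S, ∀ d, ∀ f ∈ Sd Ω w d,
      (∀ t, eval (x j t) f = 0) → ∀ t, eval (x i t) f = 0 := by
  have hfin := finite_bd (fr.symm : Ω →+* Ω) ((finite_pow (Ω := Ω) hq).subset fun c hc => by
    have h1 : fr.symm c = c := hc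
    change c ^ q = c
    rw [← hfr]
    exact (fr.symm_apply_eq.1 h1).symm) w (Fintype.card ν) c
  have := hfin.to_subtype
  let φ : J → {P : Ideal (MvPolynomial σ Ω) | Bd w (Fintype.card ν) c P ∧
      ∀ f ∈ P, map (fr.symm : Ω →+* Ω) f ∈ P} := fun j => ⟨kerG Ω w fun v t => x j t v,
    bd_ker (hx j) (src j) (top j) (le j), fun f hf => le_of_forms (J := Ideal.comap
      (map (fr.symm : Ω →+* Ω)) (kerG Ω w fun v t => x j t v)) (grJ_kerG _) (fun d g hg h => by
        rw [Ideal.mem_comap, mem_ker (map_mem_Sd _ hg)]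
        intro t
        obtain ⟨t', ht'⟩ := frob j t
        have h1 := (ht'.eval_ne hg).1 ((mem_ker hg).1 h t')
        have h2 := eval_map_fr (fr.symm : Ω →+* Ω) (x j t ^ q) g
        rw [h1, map_zero] at h2
        rw [← h2]
        congr 2
        funext v
        rw [Pi.pow_apply, ← hfr]
        exact (fr.symm_apply_apply _).symm) hf⟩
  obtain ⟨P, hP⟩ := Finite.exists_infinite_fiber φ
  refine ⟨φ ⁻¹' {P}, Set.infinite_coe_iff.1 hP, fun i hi j hj d f hf h => ?_⟩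
  have e : (φ i).1 = (φ j).1 := congrArg Subtype.val (Eq.trans hi (Eq.symm hj))
  have h1 : f ∈ (φ j).1 := (mem_ker hf).2 h
  rw [← e] at h1
  exact (mem_ker hf).1 h1

section Grp
variable {G G' : Type} [AddCommGroup G] [AddCommGroup G']

/-- the maps `x`, `y`, `x - y` -/
def trm (b : Fin 3) (t : G × G) : G := ![t.1, t.2, t.1 - t.2] b

/-- the coordinates of `x`, `y`, `x - y` -/
def trx (p : G → σ → Ω) (t : G × G) (v : Fin 3 × σ) : Ω := p (trm v.1 t) v.2

omit [Finite σ] in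
theorem trx_ne {p : G → σ → Ω} (hp : ∀ t, p t ≠ 0) (t : G × G) (b : Fin 3) :
    ∃ v : Fin 3 × σ, v.1 = b ∧ trx p t v ≠ 0 := by
  obtain ⟨l, hl⟩ := Function.ne_iff.1 (hp (trm b t))
  exact ⟨(b, l), rfl, hl⟩

theorem blk_trx {p : G → σ → Ω} (hp : ∀ t, p t ≠ 0) :
    LS.blk Prod.fst (trx p) (trx_ne hp) = fun b => (LS.co p hp).pb (trm b) := by
  funext b
  rw [LS.pb_co]
  refine LS.ext' (congrArg (Submodule.span Ω) ?_)
  ext u
  exact ⟨fun ⟨v, hv, h⟩ => ⟨v.2, by rw [← h, ← hv]; rfl⟩, fun ⟨l, h⟩ => ⟨(b, l), rfl, h⟩⟩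

omit [Finite σ] in
theorem par_of_minors {x y : σ → Ω} (hx : x ≠ 0) (hy : y ≠ 0) (h : ∀ l m, x l * y m = x m * y l) :
    Par x y := by
  obtain ⟨m, hm⟩ := Function.ne_iff.1 hy
  have hm' : y m ≠ 0 := hm
  have e : x = (x m / y m) • y := funext fun l => by
    rw [Pi.smul_apply, smul_eq_mul, div_mul_eq_mul_div, ← h l m, mul_div_cancel_right₀ _ hm']
  refine ⟨_, isUnit_iff_ne_zero.2 fun h0 => hx ?_, e⟩
  rw [e, h0, zero_smul]

end Grp

variable {σ : Type} [Fintype σ] {g : ℕ}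

/-- inclusion of the images of `(x, y, x - y)` -/
theorem rel_sub [Infinite Ω] {G G' : Type} [AddCommGroup G] [AddCommGroup G'] {p : G → σ → Ω}
    {p' : G' → σ → Ω} (hp : ∀ t, p t ≠ 0) (hp' : AV p' g)
    (h : ∀ d, ∀ f ∈ Sd Ω Prod.fst d, (∀ t, eval (trx p' t) f = 0) → ∀ t, eval (trx p t) f = 0) :
    (∀ a, ∃ a', Par (p a) (p' a')) ∧ ∀ a b a' b', Par (p a) (p' a') → Par (p b) (p' b') →
      Par (p (a - b)) (p' (a' - b')) := by
  refine ⟨fun a => ?_, fun a b a' b' ha hb => ?_⟩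
  · obtain ⟨a', h1⟩ := hp'.cl'.factor (w' := Prod.fst) (x' := trx p') (fun l => ((0 : Fin 3), l))
      (fun _ => 0) (fun _ => rfl) Prod.fst (fun _ _ => rfl) (y := trx p (a, a))
      (fun b => hx_unit hp a b) fun d f hf h0 => h d f hf h0 _
    exact ⟨a', Par.bPar.2 h1⟩
  · obtain ⟨e, c, A, hc, hA, hv⟩ := Tr.exists_chart (Prod.fst : Fin 2 × σ → Fin 2)
      (fun (t : G' × G') v => p' (![t.1, t.2] v.1) v.2) (fun i => by
        fin_cases i <;> exact Submodule.span_mono fun _ ⟨l, hl⟩ => ⟨(_, l), rfl, hl⟩)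
      hp'.sub (a', b')
    let r : Fin 2 × σ → Fin 3 × σ := fun v => (v.1.castSucc, v.2)
    have hr : ∀ (H : Type) [AddCommGroup H] (y : H → σ → Ω) (t : H × H),
        trx y t ∘ r = fun v => y (![t.1, t.2] v.1) v.2 := fun H _ y t => by
      funext ⟨i, l⟩
      fin_cases i <;> rfl
    obtain ⟨k1, hk1, e1⟩ := ha
    obtain ⟨k2, hk2, e2⟩ := hb
    have h2 : ∀ l, eval (trx p (a, b)) (rename r (A l)) =
        (∏ i, ![k1, k2] i ^ e i) * (c (a', b') * p' (a' - b') l) := fun l => by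
      rw [eval_rename, hr, ← hv (a', b') l, ← eval_bpar (w := Prod.fst) (hA l)]
      congr 2
      funext ⟨i, m⟩
      fin_cases i
      · exact congrFun e1 m
      · exact congrFun e2 m
    have hk : (∏ i, ![k1, k2] i ^ e i) * c (a', b') ≠ 0 := mul_ne_zero
      (Finset.prod_ne_zero_iff.2 fun i _ => pow_ne_zero _ (by
        fin_cases i
        exacts [hk1.ne_zero, hk2.ne_zero])) hc.ne_zero
    refine par_of_minors (hp _) (hp'.ne _) fun l m => mul_left_cancel₀ hk ?_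
    have h3 : ∀ l m : σ, X (2, l) * rename r (A m) ∈ Sd Ω (Prod.fst : Fin 3 × σ → Fin 3)
        (Pi.single 2 1 + ∑ b : Fin 2, Pi.single b.castSucc (e b)) := fun l m =>
      IsWeightedHomogeneous.mul (X_mem_Sd (β := Prod.fst) ((2 : Fin 3), l))
        (rename_mem_Sd (w := Prod.fst) r Fin.castSucc (fun _ => rfl) (hA m))
    have h4 := h _ _ (Submodule.sub_mem _ (h3 l m) (h3 m l)) (fun t => by
      rw [map_sub, map_mul, map_mul, eval_rename, eval_rename, hr, hv, hv, eval_X, eval_X]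
      change p' (t.1 - t.2) l * _ - p' (t.1 - t.2) m * _ = 0
      ring) (a, b)
    rw [map_sub, map_mul, map_mul, h2, h2, eval_X, eval_X] at h4
    change p (a - b) l * _ - p (a - b) m * _ = 0 at h4
    linear_combination h4

/-- PIG for abelian varieties -/
theorem pigAV [Infinite Ω] (fr : Ω ≃+* Ω) {q : ℕ} (hq : 1 < q) (hfr : ∀ c, fr c = c ^ q)
    {J : Type} [Infinite J] {G : J → Type} [∀ j, AddCommGroup (G j)] (p : ∀ j, G j → σ → Ω)
    (hp : ∀ j, AV (p j) g) (F : ∀ j, G j →+ G j) (hF : ∀ j y, Par (p j (F j y)) (p j y ^ q))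
    (c : ℕ) (le : ∀ j (s : Fin g ⊕ Fin g → Fin 3),
      mix (prodB (fun _ : Unit => LS.co (p j) (hp j).ne) fun _ : Unit => LS.co (p j) (hp j).ne)
        (fun k => (LS.co (p j) (hp j).ne).pb (trm (s k))) ≤ c) :
    ∃ S : Set J, S.Infinite ∧ ∀ i ∈ S, ∀ j ∈ S, (∀ a, ∃ a', Par (p i a) (p j a')) ∧
      ∀ a b a' b', Par (p i a) (p j a') → Par (p i b) (p j b') →
        Par (p i (a - b)) (p j (a' - b')) := by
  have cd : Fintype.card (Fin g ⊕ Fin g) = g + g := by simp
  have s0 := fun j => (hp j).src.prod (hp j).src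
  have rg : ∀ j b, Reg (prodB (fun _ : Unit => LS.co (p j) (hp j).ne)
      fun _ : Unit => LS.co (p j) (hp j).ne) ((LS.co (p j) (hp j).ne).pb (trm b)) := fun j b => by
    fin_cases b
    exacts [Reg.self _ (Sum.inl ()), Reg.self _ (Sum.inr ()), (hp j).sub']
  have mb : ∀ j (s : Fin g ⊕ Fin g → Fin 3),
      mix (LS.blk Prod.fst (trx (p j)) (trx_ne (hp j).ne))
        (LS.blk Prod.fst (trx (p j)) (trx_ne (hp j).ne) ∘ s) =
      mix (prodB (fun _ : Unit => LS.co (p j) (hp j).ne) fun _ : Unit => LS.co (p j) (hp j).ne)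
        (fun k => (LS.co (p j) (hp j).ne).pb (trm (s k))) := fun j s => by
    rw [blk_trx (hp j).ne]
    refine (mix_base (s0 j) (rg j) ?_ (fun k => rg j (s k)) cd.ge).symm
    rintro (i | i)
    exacts [Reg.self (fun b => (LS.co (p j) (hp j).ne).pb (trm b)) 0,
      Reg.self (fun b => (LS.co (p j) (hp j).ne).pb (trm b)) 1]
  obtain ⟨S, hS, h⟩ := pig fr hq hfr Prod.fst (fun j => trx (p j)) (fun j => trx_ne (hp j).ne)
    (Fin g ⊕ Fin g) c (fun j => by rw [blk_trx (hp j).ne, cd]; exact (s0 j).of_reg (rg j))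
    (fun j => ⟨Sum.elim (fun _ => 0) fun _ => 1, by
      rw [mb]
      have := mix_prod (fun _ : Unit => LS.co (p j) (hp j).ne)
        (fun _ : Unit => LS.co (p j) (hp j).ne) (fun _ : Fin g => LS.co (p j) (hp j).ne)
        fun _ : Fin g => LS.co (p j) (hp j).ne
      refine fun e => mul_ne_zero (hp j).top (hp j).top (this.symm.trans (Eq.trans ?_ e))
      congr 1
      funext k
      rcases k with k | k <;> rfl⟩)
    (fun j s => by rw [mb]; exact le j s) fun j t => by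
      choose k hk e using hF j
      refine ⟨(F j t.1, F j t.2), fun b => k (trm b t), fun b => (hk _).ne_zero, fun v => ?_⟩
      have : trm v.1 (F j t.1, F j t.2) = F j (trm v.1 t) := by
        obtain ⟨b, l⟩ := v
        fin_cases b
        exacts [rfl, rfl, (map_sub _ _ _).symm]
      rw [trx, this, e]
      rfl
  exact ⟨S, hS, fun i hi j hj => rel_sub (hp i).ne (hp j) (h i hi j hj)⟩

omit [Fintype σ] in
/-- with injective coordinates the relation is an isomorphism of groups -/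
theorem equiv_of_rel {G G' : Type} [AddCommGroup G] [AddCommGroup G'] {p : G → σ → Ω}
    {p' : G' → σ → Ω} (inj : ∀ a b, Par (p a) (p b) → a = b)
    (inj' : ∀ a b, Par (p' a) (p' b) → a = b) (h1 : ∀ a, ∃ a', Par (p a) (p' a'))
    (h2 : ∀ a', ∃ a, Par (p' a') (p a)) (h3 : ∀ a b a' b', Par (p a) (p' a') →
      Par (p b) (p' b') → Par (p (a - b)) (p' (a' - b'))) :
    ∃ e : G ≃+ G', ∀ a, Par (p a) (p' (e a)) := by
  have sy : ∀ {x y : σ → Ω}, Par x y → Par y x := fun ⟨c, hc, e⟩ =>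
    ⟨c⁻¹, hc.inv, by rw [e, smul_smul, inv_mul_cancel₀ hc.ne_zero, one_smul]⟩
  have tr : ∀ {x y z : σ → Ω}, Par x y → Par y z → Par x z := fun ⟨c, hc, e⟩ ⟨c', hc', e'⟩ =>
    ⟨c * c', hc.mul hc', by rw [e, e', smul_smul]⟩
  choose e he using h1
  have hs : ∀ a b, e (a - b) = e a - e b := fun a b =>
    inj' _ _ (tr (sy (he _)) (h3 _ _ _ _ (he a) (he b)))
  refine ⟨AddEquiv.ofBijective (AddMonoidHom.ofMapSub e hs) ⟨fun a b h => inj _ _ ?_, fun a' => ?_⟩,
    he⟩
  · exact tr (he a) (by rw [show e a = e b from h]; exact sy (he b))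
  · obtain ⟨a, ha⟩ := h2 a'
    exact ⟨a, (inj' _ _ (tr ha (he a))).symm⟩

omit [Fintype σ] in
/-- a map that keeps the coordinates is regular -/
theorem mor_of_par {T U : Type} {p : T → σ → Ω} {p' : U → σ → Ω} {e : T → U}
    (h : ∀ a, Par (p a) (p' (e a))) : Mor p p' e := by
  choose c hc h using h
  refine Tr.rg_of_gen fun t => ⟨fun _ => 1, c, hc t, fun l => ?_⟩
  rw [Fin.prod_univ_one, pow_one]
  exact Submodule.subset_span ⟨l, funext fun a => congrFun (h a) l⟩

end Pool.Agent.Tav.Fn
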