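import Pool.Agent.P.MP_2ce3e7_ag.Tav.SliceL
import Pool.Agent.P.MP_2ce3e7_ag.Tav.HBase

/-! A system that is not constant has positive degree against an ample system. -/

set_option autoImplicit false

noncomputable section

namespace Pool.Agent.Tav

open MvPolynomial Module Function

attribute [local instance] MvPolynomial.weightedGradedAlgebra

variable {Ω : Type} [Field Ω] {T U : Type} {β γ ν : Type} [Fintype β] [Fintype γ] [Fintype ν]

/-- top coefficients decrease when the ideal grows -/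
theorem nc_anti {σ : Type} [Finite σ] [DecidableEq β] {w : σ → β} {J : Ideal (MvPolynomial σ Ω)}
    (hJ : GrJ w J) (s : β →₀ ℕ) (I : Ideal (MvPolynomial σ Ω)) : GrJ w I → I ≤ J →
      Dg (pI w I) s.degree → nc s (pI w J) ≤ nc s (pI w I) := by
  induction I using IsNoetherian.induction with
  | _ I ih =>
    intro hI hl hd
    by_cases h : J ≤ I
    · rw [le_antisymm hl h]
    · have : ∃ d, ∃ f ∈ Sd Ω w d, f ∈ J ∧ f ∉ I := by
        by_contra hc
        exact h (Sl.GrJ.le_of_forms hJ fun d f hf h1 => by_contra fun h2 => hc ⟨d, f, hf, h1, h2⟩)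
      obtain ⟨d, f, hf, h1, h2⟩ := this
      have h3 := ih (I ⊔ Ideal.span {f}) (left_lt_sup.2 fun h => h2
        ((Ideal.span_singleton_le_iff_mem I).1 h)) (hI.sup_span hf)
        (sup_le hl ((Ideal.span_singleton_le_iff_mem J).2 h1))
        (hd.pI_mono hI (hI.sup_span hf) le_sup_left)
      obtain ⟨m, hm⟩ := nc_pI_nat s (hI.colon hf) (hd.pI_mono hI (hI.colon hf) (le_colon1 I f))
      rw [nc_exact hI hf hd le_rfl, hm]
      exact h3.trans (le_add_of_nonneg_left (Nat.cast_nonneg m))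

theorem nc_pL_ge (F : β → LS Ω T) (s : β →₀ ℕ) (h : Dg (pL F) s.degree) : 0 ≤ nc s (pL F) := by
  obtain ⟨m, hm⟩ := nc_pf_nat (fun i => (F i).sp) s h
  exact (Nat.cast_nonneg m).trans_eq hm.symm

/-- a subset of the zeros of a member has at most the degree of the section -/
theorem nc_le_cut {F : β → LS Ω T} {n : ℕ} (h : Src F (n + 1)) (i : β) {f : T → Ω}
    (hf : f ∈ (F i).sp) (h0 : f ≠ 0) (j : U → T) (hj : ∀ u, f (j u) = 0) (s : β →₀ ℕ)
    (hs : n ≤ s.degree) :
    nc s (pL fun k => (F k).pb j) ≤ nc (s + Finsupp.single i 1) (pL F) := by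
  classical
  obtain ⟨σ, _, w, x, h1⟩ := Sl.exists_co F
  have := h.ne
  obtain ⟨G, hG, rfl⟩ := (Sl.mem_pc h1 (d := Pi.single i 1)).1 (by rwa [pc_single, pow_one])
  have hP := Sl.prime_of_dom h1 h.dom
  have hc := lg_prime (β := w) hP fun h => h0 ((mem_kerG hG).1 h)
  have hd : Dg (pI w (kerG Ω w x)) (n + 1 : ℕ) := by
    rw [pI_kerG, Sl.pf_eq h1]
    exact h.dg
  have h2 := nc_cut (grJ_kerG x) hG hc hd (s := s) (by push_cast; omega)
  rw [Finset.sum_eq_single i (fun k _ hk => by simp [hk]) (by simp), pI_kerG, Sl.pf_eq h1] at h2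
  simp only [Pi.single_eq_same, Nat.cast_one, one_mul] at h2
  have key : ∀ (G : MvPolynomial σ Ω) t, aeval (fun s t => x s (j t)) G t = aeval x G (j t) :=
    fun G t => by rw [Sl.aeval_apply, Sl.aeval_apply]
  rw [← h2, ← Sl.pf_eq (Sl.blk_pb h1 j), ← pI_kerG]
  refine nc_anti (grJ_kerG _) s _ ((grJ_kerG x).sup_span hG) (sup_le ?_ ?_)
    ((hd.cut (grJ_kerG x) hG hc).mono (by push_cast; omega))
  · refine Sl.GrJ.le_of_forms (grJ_kerG x) fun d f hf h => ?_
    rw [mem_kerG hf] at h ⊢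
    funext t
    rw [key, h]
    rfl
  · rw [Ideal.span_singleton_le_iff_mem, mem_kerG hG]
    exact funext fun t => (key G t).trans (hj t)

theorem pL_point (F : β → LS Ω Unit) : pL F = C 1 := by
  refine (evP_pL F).unique (Lg.of_forall fun d => ?_)
  obtain ⟨u, hu, h0⟩ := pc_nv F d ()
  have h1 : finrank Ω (pc F d) ≤ 1 := (Submodule.finrank_le _).trans (by simp)
  have h2 : finrank Ω (pc F d) ≠ 0 := fun h => by
    rw [Submodule.finrank_eq_zero.1 h, Submodule.mem_bot] at hu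
    exact h0 (congrFun hu ())
  have h3 : finrank Ω (pc F d) = 1 := by omega
  simp only [evN_C, h3, Nat.cast_one]

/-- the map given by `V` is constant -/
def LS.Const (V : LS Ω T) : Prop := ∀ u ∈ V.sp, ∀ v ∈ V.sp, ∀ t t', u t * v t' = u t' * v t

theorem LS.exists_zero {V : LS Ω T} (h : ¬ V.Const) (t₀ : T) :
    ∃ f ∈ V.sp, f ≠ 0 ∧ f t₀ = 0 := by
  by_contra hc
  obtain ⟨v₀, hv₀, h0⟩ := V.nv t₀
  have key : ∀ u ∈ V.sp, ∀ t, v₀ t₀ * u t = u t₀ * v₀ t := fun u hu t => by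
    have : v₀ t₀ • u - u t₀ • v₀ = 0 := by_contra fun h1 => hc ⟨_,
      V.sp.sub_mem (V.sp.smul_mem _ hu) (V.sp.smul_mem _ hv₀), h1, by simp [mul_comm]⟩
    simpa [sub_eq_zero] using congrFun this t
  refine h fun u hu v hv t t' => mul_left_cancel₀ (mul_ne_zero h0 h0) ?_
  linear_combination (v₀ t₀ * v t') * key u hu t + (u t₀ * v₀ t) * key v hv t' -
    (v₀ t₀ * v t) * key u hu t' - (u t₀ * v₀ t') * key v hv t

variable [IsAlgClosed Ω]

/-- the section by a member of the base, all top coefficients -/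
theorem slice_nc {B : β → LS Ω T} {n : ℕ} (hc : Cmp B) (hs : Src B (n + 1)) (i : β) {f : T → Ω}
    (hf : f ∈ (B i).sp) (h0 : f ≠ 0) : ∃ l : List (Set T),
      (∀ U ∈ l, Cmp (fun k => (B k).pb (Subtype.val : U → T)) ∧
        Src (fun k => (B k).pb (Subtype.val : U → T)) n ∧ ∀ t ∈ U, f t = 0) ∧
      ∀ W : ν → LS Ω T, (∀ k, Reg B (W k)) → ∀ s : β ⊕ ν →₀ ℕ, n ≤ s.degree →
        nc (s + Finsupp.single (Sum.inl i) 1) (pL (Sum.elim B W)) =
          (l.map fun U : Set T =>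
            nc s (pL fun k => (Sum.elim B W k).pb (Subtype.val : U → T))).sum := by
  obtain ⟨σ, _, _, w, x, h1, h2⟩ := hc
  have := hs.ne
  obtain ⟨F, hF, rfl⟩ := (Sl.mem_pc h1 (d := Pi.single i 1)).1 (by rwa [pc_single, pow_one])
  obtain ⟨l, a, b⟩ := Sl.slice h2 (Sl.prime_of_dom h1 hs.dom) hF h0
  refine ⟨l, fun U hU => ⟨⟨σ, inferInstance, inferInstance, w, _, Sl.blk_pb h1 _, (a U hU).2.2.1⟩,
    ⟨Sl.nonempty_of_kerG (a U hU).1.ne_top, Sl.dom_of_prime (Sl.blk_pb h1 _) (a U hU).1, ?_⟩,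
    (a U hU).2.1⟩, ?_⟩
  · have := (a U hU).2.2.2 (n + 1 : ℕ) (by rw [Sl.pf_eq h1]; exact hs.dg)
    rw [← Sl.pf_eq (Sl.blk_pb h1 _)]
    exact this.mono (by push_cast; omega)
  · intro W hW s hn
    classical
    obtain ⟨τ, _, v, z, h3⟩ := Sl.exists_co W
    have h4 := Sl.blk_elim h1 h3
    have := b τ ν v z (Sl.rg_of_reg h1 h3 hW) (n + 1 : ℕ)
      (by rw [Sl.pf_eq h4]; exact (hs.ext hW).dg) s (by push_cast; omega)
    rw [Sl.pf_eq h4, Finset.sum_eq_single i (fun k _ hk => by simp [hk]) (by simp)] at this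
    simp only [Pi.single_eq_same, Nat.cast_one, one_mul] at this
    rw [this]
    congr 1
    refine List.map_congr_left fun U _ => ?_
    rw [← Sl.pf_eq (Sl.blk_pb h4 _)]
    rfl

theorem nc_pos (i : β) (n : ℕ) : ∀ {T : Type} {B : β → LS Ω T} {W : LS Ω T}, Cmp B →
    Src B (n + 1) → Reg B W → ¬ W.Const →
    nc (Finsupp.single (Sum.inl i) (n + 1)) (pL (Sum.elim B fun _ : Unit => W)) ≠ 0 →
    0 < nc (Finsupp.single (Sum.inl i) n + Finsupp.single (Sum.inr ()) 1)
      (pL (Sum.elim B fun _ : Unit => W)) := by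
  induction n with
  | zero =>
    intro T B W _ hs hW hn _
    obtain ⟨t⟩ := hs.ne
    obtain ⟨f, hf, h0, h1⟩ := LS.exists_zero hn t
    have := nc_le_cut (hs.ext fun _ : Unit => hW) (Sum.inr ()) hf h0 (fun _ : Unit => t)
      (fun _ => h1) 0 (by simp)
    rw [pL_point, nc_zero, coeff_zero_C] at this
    rw [Finsupp.single_zero]
    exact one_pos.trans_le this
  | succ n ih =>
    intro T B W hc hs hW hn h0
    obtain ⟨t⟩ := hs.ne
    obtain ⟨g, hg, hg0⟩ := (B i).nv t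
    obtain ⟨l, a, b⟩ := slice_nc (ν := Unit) hc hs i hg fun h => hg0 (congrFun h t)
    have h1 := b _ (fun _ => hW) (Finsupp.single (Sum.inl i) (n + 1)) (by simp)
    rw [← Finsupp.single_add] at h1
    have sU : ∀ U ∈ l, Src (fun k => (Sum.elim B (fun _ : Unit => W) k).pb
        (Subtype.val : U → T)) (n + 1) := fun U hU => by
      rw [pb_elim]
      exact (a U hU).2.1.ext fun _ => hW.pb _
    obtain ⟨U, hU, hU0⟩ : ∃ U ∈ l, nc (Finsupp.single (Sum.inl i) (n + 1))
        (pL fun k => (Sum.elim B (fun _ : Unit => W) k).pb (Subtype.val : U → T)) ≠ 0 := by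
      by_contra hc
      refine h0 (h1.trans (List.sum_eq_zero fun c hc' => ?_))
      obtain ⟨U, hU, rfl⟩ := List.mem_map.1 hc'
      exact by_contra fun h => hc ⟨U, hU, h⟩
    by_cases hk : (W.pb (Subtype.val : U → T)).Const
    · obtain ⟨t₀⟩ := (a U hU).2.1.ne
      obtain ⟨f, hf, hf0, hf1⟩ := LS.exists_zero hn t₀.1
      obtain ⟨v, hv, hv0⟩ := W.nv t₀.1
      refine lt_of_lt_of_le (lt_of_le_of_ne (nc_pL_ge _ _ ((sU U hU).dg.mono (by simp))) hU0.symm)
        (nc_le_cut (hs.ext fun _ : Unit => hW) (Sum.inr ()) hf hf0 Subtype.val (fun u => ?_) _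
          (by simp))
      have := hk _ ⟨f, hf, rfl⟩ _ ⟨v, hv, rfl⟩ u t₀
      simp only [AlgHom.toLinearMap_apply, pbA_apply, hf1, zero_mul] at this
      exact (mul_eq_zero.1 this).resolve_right hv0
    · have h2 := ih (a U hU).1 (a U hU).2.1 (hW.pb _) hk (by rwa [pb_elim] at hU0)
      have h3 := b _ (fun _ => hW)
        (Finsupp.single (Sum.inl i) n + Finsupp.single (Sum.inr ()) 1) (by simp)
      rw [add_right_comm, ← Finsupp.single_add] at h3
      rw [h3]
      refine lt_of_lt_of_le h2 ?_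
      rw [← pb_elim]
      refine List.single_le_sum (fun c hc => ?_) _ (List.mem_map.2 ⟨U, hU, rfl⟩)
      obtain ⟨U', hU', rfl⟩ := List.mem_map.1 hc
      exact nc_pL_ge _ _ ((sU U' hU').dg.mono (by simp))

/-- POS -/
theorem mix_pos [DecidableEq ν] {B : β → LS Ω T} {V W : LS Ω T} (hc : Cmp B)
    (hs : Src B (Fintype.card ν)) (hV : Reg B V) (hW : Reg B W) (hn : ¬ W.Const)
    (h0 : mix B (fun _ : ν => V) ≠ 0) (k : ν) : 0 < mix B (update (fun _ : ν => V) k W) := by
  obtain ⟨n, hn'⟩ : ∃ n, Fintype.card ν = n + 1 :=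
    Nat.exists_eq_succ_of_ne_zero (Fintype.card_pos_iff.2 ⟨k⟩).ne'
  have hV' : ∀ _ : Unit, Reg B V := fun _ => hV
  let F := Sum.elim (Sum.elim B fun _ : Unit => V) fun _ : Unit => W
  have hF : ∀ a, Reg B (F a) := reg_elim (reg_elim (Reg.self B) hV') fun _ => hW
  have key : ∀ g : ν → (β ⊕ Unit) ⊕ Unit,
      mix B (F ∘ g) = nc (∑ j, Finsupp.single (g j) 1) (pL F) := fun g => by
    rw [← mix_self]
    exact (mix_ext_base (g := Sum.inl ∘ Sum.inl) hs (Sum.inl_injective.comp Sum.inl_injective) rfl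
      hF (fun j => hF _) le_rfl).symm
  have e1 := key fun _ => Sum.inl (Sum.inr ())
  have e2 := key (update (fun _ => Sum.inl (Sum.inr ())) k (Sum.inr ()))
  rw [comp_update] at e2
  have s1 : ∑ _j : ν, Finsupp.single (Sum.inl (Sum.inr ()) : (β ⊕ Unit) ⊕ Unit) 1 =
      Finsupp.single (Sum.inl (Sum.inr ())) (n + 1) := by
    rw [Finset.sum_const, Finset.card_univ, hn', Finsupp.smul_single, smul_eq_mul, mul_one]
  have s2 : ∑ j : ν, Finsupp.single (update (fun _ => Sum.inl (Sum.inr ())) k (Sum.inr ()) j :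
      (β ⊕ Unit) ⊕ Unit) 1 =
      Finsupp.single (Sum.inl (Sum.inr ())) n + Finsupp.single (Sum.inr ()) 1 := by
    rw [← Finset.add_sum_erase _ _ (Finset.mem_univ k), update_self, add_comm,
      Finset.sum_congr rfl fun j hj => by rw [update_of_ne (Finset.ne_of_mem_erase hj)],
      Finset.sum_const, Finset.card_erase_of_mem (Finset.mem_univ k), Finset.card_univ, hn',
      Finsupp.smul_single, smul_eq_mul, mul_one, Nat.add_sub_cancel]
  rw [s1] at e1
  rw [s2] at e2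
  exact (nc_pos (Sum.inr ()) n (hc.ext hV') (hn' ▸ hs.ext hV') (hW.inl _) hn
    fun h => h0 (e1.trans h)).trans_eq e2.symm

end Pool.Agent.Tav
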