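import Pool.Agent.P.MP_2ce3e7_ag.Tav.GDefs

/-! Linear algebra for the quotient model: common eigenvectors, stabilisers, conjugation. -/

set_option autoImplicit false

noncomputable section

namespace Pool.Agent.Tav.Ti.Quo

open Module

variable {Ω : Type} [Field Ω]

/-- a commuting family on a finite-dimensional space has a common eigenvector -/
theorem exists_common_eig [IsAlgClosed Ω] {V ι : Type} [AddCommGroup V] [Module Ω V] [Finite ι]
    (T : ι → V →ₗ[Ω] V) (S : Submodule Ω V) [FiniteDimensional Ω S] (h0 : S ≠ ⊥)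
    (hS : ∀ k, ∀ v ∈ S, T k v ∈ S) (hc : ∀ k k' v, T k (T k' v) = T k' (T k v)) :
    ∃ s ∈ S, s ≠ 0 ∧ ∀ k, ∃ c : Ω, T k s = c • s := by
  classical
  have key : ∀ A : Finset ι, ∃ S' : Submodule Ω V, S' ≤ S ∧ S' ≠ ⊥ ∧
      (∀ k, ∀ v ∈ S', T k v ∈ S') ∧ ∀ k ∈ A, ∃ c : Ω, ∀ v ∈ S', T k v = c • v := by
    intro A
    induction A using Finset.induction_on with
    | empty => exact ⟨S, le_rfl, h0, hS, by simp⟩
    | insert a A _ ih =>
      obtain ⟨S', h1, h2, h3, h4⟩ := ih
      have : FiniteDimensional Ω S' := Submodule.finiteDimensional_of_le h1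
      have : Nontrivial S' := Submodule.nontrivial_iff_ne_bot.2 h2
      obtain ⟨c, hc'⟩ := Module.End.exists_eigenvalue ((T a).restrict (h3 a))
      obtain ⟨v, hv⟩ := hc'.exists_hasEigenvector
      have hv1 : T a v = c • (v : V) := congrArg Subtype.val hv.apply_eq_smul
      refine ⟨S' ⊓ LinearMap.ker (T a - c • LinearMap.id), inf_le_left.trans h1, ?_, ?_, ?_⟩
      · rw [Submodule.ne_bot_iff]
        refine ⟨v, ⟨v.2, ?_⟩, fun h => hv.2 (Subtype.ext h)⟩
        simp [hv1]
      · rintro k w ⟨hw, hw'⟩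
        refine ⟨h3 k w hw, ?_⟩
        have : T a w = c • w := by simpa [sub_eq_zero] using hw'
        simp [hc a k, this]
      · intro k hk
        rcases Finset.mem_insert.1 hk with rfl | hk
        · exact ⟨c, fun w hw => by simpa [sub_eq_zero] using hw.2⟩
        · obtain ⟨c', h5⟩ := h4 k hk
          exact ⟨c', fun w hw => h5 w hw.1⟩
  have := Fintype.ofFinite ι
  obtain ⟨S', h1, h2, -, h4⟩ := key Finset.univ
  obtain ⟨s, hs, hs0⟩ := (Submodule.ne_bot_iff _).1 h2
  refine ⟨s, h1 hs, hs0, fun k => ?_⟩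
  obtain ⟨c, h5⟩ := h4 k (Finset.mem_univ k)
  exact ⟨c, h5 s hs⟩

/-- an injective semilinear self-map of a finite-dimensional space is onto -/
theorem semi_onto {V : Type} [AddCommGroup V] [Module Ω V] (fr : Ω ≃+* Ω) (S : Submodule Ω V)
    [FiniteDimensional Ω S] (τ : V →+ V) (hτ : ∀ c v, τ (c • v) = fr c • τ v)
    (hi : Function.Injective τ) (hS : ∀ v ∈ S, τ v ∈ S) : ∀ w ∈ S, ∃ v ∈ S, τ v = w := by
  let S' : Submodule Ω V :=
    { carrier := τ '' S
      add_mem' := by
        rintro _ _ ⟨a, ha, rfl⟩ ⟨b, hb, rfl⟩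
        exact ⟨a + b, S.add_mem ha hb, map_add τ a b⟩
      zero_mem' := ⟨0, S.zero_mem, map_zero τ⟩
      smul_mem' := by
        rintro c _ ⟨a, ha, rfl⟩
        exact ⟨fr.symm c • a, S.smul_mem _ ha, by rw [hτ, fr.apply_symm_apply]⟩ }
  have hle : S' ≤ S := by
    rintro _ ⟨a, ha, rfl⟩
    exact hS a ha
  let j : S →+ S' :=
    { toFun := fun v => ⟨τ v, v, v.2, rfl⟩
      map_zero' := Subtype.ext (map_zero τ)
      map_add' := fun a b => Subtype.ext (map_add τ _ _) }
  have hj : Function.Bijective j := by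
    refine ⟨fun a b h => Subtype.ext (hi (congrArg Subtype.val h)), ?_⟩
    rintro ⟨_, a, ha, rfl⟩
    exact ⟨⟨a, ha⟩, rfl⟩
  have hr : Module.rank Ω S = Module.rank Ω S' :=
    rank_eq_of_equiv_equiv fr (AddEquiv.ofBijective j hj) fr.bijective
      fun c v => Subtype.ext (hτ c v)
  have : S' = S := Submodule.eq_of_le_of_finrank_eq hle (by unfold finrank; rw [hr])
  intro w hw
  rw [← this] at hw
  exact hw

variable {Y : Type} [AddCommGroup Y]

/-- translation by `z` multiplies the members of `S` by `h` -/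
def Inv (S : Submodule Ω (Y → Ω)) (z : Y) (h : Y → Ω) : Prop :=
  (∀ x, h x ≠ 0) ∧ ∀ f ∈ S, ∀ x, f (x + z) = h x * f x

/-- the translations that keep the map given by `S` -/
def stab (S : Submodule Ω (Y → Ω)) : AddSubgroup Y where
  carrier := {z | ∃ h, Inv S z h}
  zero_mem' := ⟨1, fun _ => one_ne_zero, fun f _ x => by simp⟩
  add_mem' := by
    rintro z z' ⟨h, h1, h2⟩ ⟨h', h1', h2'⟩
    refine ⟨fun x => h' (x + z) * h x, fun x => mul_ne_zero (h1' _) (h1 _), fun f hf x => ?_⟩
    rw [← add_assoc, h2' f hf, h2 f hf, mul_assoc]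
  neg_mem' := by
    rintro z ⟨h, h1, h2⟩
    refine ⟨fun x => (h (x + -z))⁻¹, fun x => inv_ne_zero (h1 _), fun f hf x => ?_⟩
    have := h2 f hf (x + -z)
    rw [neg_add_cancel_right] at this
    rw [this, inv_mul_cancel_left₀ (h1 _)]

theorem mem_stab {S : Submodule Ω (Y → Ω)} {z : Y} : z ∈ stab S ↔ ∃ h, Inv S z h := Iff.rfl

theorem inv_span {A : Set (Y → Ω)} {z : Y} {h : Y → Ω} (h1 : ∀ x, h x ≠ 0)
    (h2 : ∀ f ∈ A, ∀ x, f (x + z) = h x * f x) : Inv (Submodule.span Ω A) z h := by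
  refine ⟨h1, fun f hf => ?_⟩
  induction hf using Submodule.span_induction with
  | mem f hf => exact h2 f hf
  | zero => simp
  | add f g _ _ hf hg => intro x; simp only [Pi.add_apply, hf x, hg x, mul_add]
  | smul c f _ hf => intro x; simp only [Pi.smul_apply, smul_eq_mul, hf x]; ring

/-- conjugation of functions -/
def cj {T : Type} (fr : Ω ≃+* Ω) (F : T ≃ T) : (T → Ω) →+* (T → Ω) where
  toFun f x := fr (f (F.symm x))
  map_one' := funext fun _ => map_one fr
  map_mul' _ _ := funext fun _ => map_mul fr _ _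
  map_zero' := funext fun _ => map_zero fr
  map_add' _ _ := funext fun _ => map_add fr _ _

theorem cj_apply {T : Type} (fr : Ω ≃+* Ω) (F : T ≃ T) (f : T → Ω) (x : T) :
    cj fr F f x = fr (f (F.symm x)) := rfl

theorem cj_smul {T : Type} (fr : Ω ≃+* Ω) (F : T ≃ T) (c : Ω) (f : T → Ω) :
    cj fr F (c • f) = fr c • cj fr F f := funext fun _ => map_mul fr _ _

theorem cj_inj {T : Type} (fr : Ω ≃+* Ω) (F : T ≃ T) : Function.Injective (cj fr F) := by
  intro f g h
  funext x
  have := congrFun h (F x)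
  simpa [cj_apply] using this

/-- the conjugate system -/
def cjL {T : Type} (fr : Ω ≃+* Ω) (F : T ≃ T) (U : LS Ω T) : LS Ω T := (U.tw fr).pb F.symm

theorem mem_cjL {T : Type} {fr : Ω ≃+* Ω} {F : T ≃ T} {U : LS Ω T} {g : T → Ω} :
    g ∈ (cjL fr F U).sp ↔ ∃ f ∈ U.sp, cj fr F f = g := by
  constructor
  · rintro ⟨u, hu, rfl⟩
    exact ⟨_, hu, funext fun x => by simp [cj_apply]⟩
  · rintro ⟨f, hf, rfl⟩
    refine ⟨fun t => fr (f t), ?_, rfl⟩
    change (fun t => fr.symm (fr (f t))) ∈ U.sp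
    simpa using hf

/-- a system that is kept by the twisted conjugation is a multiple of its conjugate -/
theorem eq_of_keep {T : Type} (fr : Ω ≃+* Ω) (F : T ≃ T) (R : LS Ω T) {η : T → Ω}
    (hη : ∀ x, η x ≠ 0) (h : ∀ f ∈ R.sp, η * cj fr F f ∈ R.sp) :
    (R.pb F).sp = (R.tw fr).sp.map (LinearMap.mulLeft Ω fun x => η (F x)) := by
  let τ : (T → Ω) →+ (T → Ω) :=
    { toFun := fun f => η * cj fr F f
      map_zero' := by simp
      map_add' := fun a b => by simp [mul_add] }
  have hon := semi_onto fr R.sp τ (fun c v => by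
      change η * cj fr F (c • v) = fr c • (η * cj fr F v)
      rw [cj_smul, mul_smul_comm]) (fun a b e => cj_inj fr F (funext fun x =>
      mul_left_cancel₀ (hη x) (congrFun e x))) h
  refine le_antisymm ?_ ?_
  · rintro _ ⟨g, hg, rfl⟩
    obtain ⟨f, hf, rfl⟩ := hon g hg
    refine ⟨fun t => fr (f t), ?_, funext fun x => ?_⟩
    · change (fun t => fr.symm (fr (f t))) ∈ R.sp
      simpa using hf
    · change η (F x) * fr (f x) = η (F x) * fr (f (F.symm (F x)))
      rw [F.symm_apply_apply]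
  · rintro _ ⟨u, hu, rfl⟩
    refine ⟨_, h _ hu, funext fun x => ?_⟩
    change η (F x) * fr (fr.symm (u (F.symm (F x)))) = η (F x) * u x
    rw [F.symm_apply_apply, fr.apply_symm_apply]

end Pool.Agent.Tav.Ti.Quo
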