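import Pool.Agent.P.MP_2ce3e7_ag.Tav.TiQuoA
import Pool.Agent.P.MP_2ce3e7_ag.Tav.TiEqv
import Pool.Agent.P.MP_2ce3e7_ag.Tav.AExp

/-! Sections, the law at regular maps, and the identities between multipliers. -/

set_option autoImplicit false

noncomputable section

namespace Pool.Agent.Tav.Ti.Quo

open Module

variable {Ω : Type} [Field Ω] {T Z : Type} {β γ : Type} [Fintype β] [Fintype γ]

/-- the members of `S` are sections of `L` -/
def SecS (B : β → LS Ω T) (L : LS Ω T) (S : Submodule Ω (T → Ω)) : Prop :=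
  ∃ W : LS Ω T, Reg B W ∧ S * W.sp ≤ (L * W).sp

section sec
variable {B : β → LS Ω T} {L L' H : LS Ω T} {S S' : Submodule Ω (T → Ω)}

theorem secS_gam (hH : Reg B H) (d m : ℕ) : SecS B (H ^ m) (Gam H d m) :=
  ⟨H ^ d, hH.pow d, Submodule.mul_le.2 fun f hf v hv => by
    rw [← pow_add, add_comm]; exact mem_Gam.1 hf v hv⟩

theorem SecS.mul (h : SecS B L S) (h' : SecS B L' S') : SecS B (L * L') (S * S') := by
  obtain ⟨W, h1, h2⟩ := h
  obtain ⟨W', h1', h2'⟩ := h'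
  refine ⟨W * W', h1.mul h1', ?_⟩
  rw [mul_mul_mul_comm L, LS.mul_sp W, mul_mul_mul_comm S, LS.mul_sp (L * W)]
  exact mul_le_mul' h2 h2'

theorem SecS.pb {C : γ → LS Ω Z} (h : SecS B L S) {j : Z → T} (hj : RegM C B j) :
    SecS C (L.pb j) (S.map (pbA Ω j).toLinearMap) := by
  obtain ⟨W, h1, h2⟩ := h
  refine ⟨W.pb j, hj.pull h1, ?_⟩
  rw [← LS.pb_mul]
  change S.map _ * W.sp.map _ ≤ (L * W).sp.map _
  rw [← Submodule.map_mul]
  exact Submodule.map_mono h2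

theorem SecS.eqv {mu : T → Ω} (h : SecS B L S) (e : Eqv B mu L L') :
    SecS B L' (S.map (LinearMap.mulLeft Ω mu)) := by
  obtain ⟨W, h1, h2⟩ := h
  obtain ⟨-, W', h1', h2'⟩ := e
  refine ⟨W * W', h1.mul h1', Submodule.mul_le.2 ?_⟩
  rintro _ ⟨s, hs, rfl⟩ w hw
  have h3 : s * w ∈ ((L * W') * W).sp := by
    have : S * (W * W').sp ≤ ((L * W') * W).sp := by
      rw [mul_right_comm L, LS.mul_sp W, ← mul_assoc, LS.mul_sp (L * W)]
      exact mul_le_mul' h2 le_rfl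
    exact this (Submodule.mul_mem_mul hs hw)
  have h4 : ((L * W') * W).sp.map (LinearMap.mulLeft Ω mu) ≤ (L' * (W * W')).sp := by
    rw [mul_comm W, ← mul_assoc, LS.mul_sp (L' * W'), ← h2', LS.mul_sp (L * W'),
      Submodule.map_le_iff_le_comap]
    refine Submodule.mul_le.2 fun a ha b hb => ?_
    rw [Submodule.mem_comap, LinearMap.mulLeft_apply, ← mul_assoc]
    exact Submodule.mul_mem_mul ⟨a, ha, rfl⟩ hb
  change mu * s * w ∈ _
  rw [mul_assoc]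
  exact h4 ⟨_, h3, rfl⟩

theorem SecS.gam [IsAlgClosed Ω] (hB : Cmp B) {m : ℕ} (h : SecS B ((∏ i, B i) ^ m) S) :
    ∃ d, S ≤ Gam (∏ i, B i) d m := by
  obtain ⟨W, h1, h2⟩ := h
  exact hB.norm h1 h2

theorem sec_ne {W : LS Ω T} (hW : Reg B W) (hL : Reg B L) (h : S * W.sp ≤ (L * W).sp) {f : T → Ω}
    (hf : f ∈ S) (h0 : f ≠ 0) : ∃ (e : β → ℕ) (c : T → Ω), c * f ∈ pc B e ∧ c * f ≠ 0 := by
  obtain ⟨t, ht⟩ := Function.ne_iff.1 h0
  obtain ⟨w, hw, hw0⟩ := W.nv t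
  obtain ⟨e, lam, h1, h2⟩ := (hL.mul hW) t
  refine ⟨e, lam * w, ?_, fun h3 => ?_⟩
  · rw [mul_assoc, mul_comm w]
    exact h2 _ (h (Submodule.mul_mem_mul hf hw))
  · exact mul_ne_zero (mul_ne_zero h1 hw0) ht (congrFun h3 t)

theorem SecS.nzd (hB : Dom B) (hL : Reg B L) (hL' : Reg B L') (h : SecS B L S) (h' : SecS B L' S')
    {f g : T → Ω} (hf : f ∈ S) (hg : g ∈ S') (f0 : f ≠ 0) (g0 : g ≠ 0) : f * g ≠ 0 := by
  obtain ⟨W, h1, h2⟩ := h
  obtain ⟨W', h1', h2'⟩ := h'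
  obtain ⟨e, c, h3, h4⟩ := sec_ne h1 hL h2 hf f0
  obtain ⟨e', c', h3', h4'⟩ := sec_ne h1' hL' h2' hg g0
  intro h5
  rcases hB _ _ _ h3 _ h3' (by rw [mul_mul_mul_comm, h5, mul_zero]) with h6 | h6
  exacts [h4 h6, h4' h6]

theorem gam_pb {d m : ℕ} {f : T → Ω} (hf : f ∈ Gam H d m) (j : Z → T) :
    (fun z => f (j z)) ∈ Gam (H.pb j) d m := by
  rw [mem_Gam] at hf ⊢
  rw [← LS.pb_pow, ← LS.pb_pow]
  rintro _ ⟨v, hv, rfl⟩
  exact ⟨_, hf v hv, rfl⟩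

theorem pb_const (U : LS Ω T) (a : T) : (U.pb fun _ : Z => a) = 1 := by
  refine LS.ext' (le_antisymm ?_ ?_)
  · rintro _ ⟨u, -, rfl⟩
    exact Submodule.mem_one.2 ⟨u a, rfl⟩
  · obtain ⟨u, hu, h0⟩ := U.nv a
    refine Submodule.one_le.2 ⟨(u a)⁻¹ • u, U.sp.smul_mem _ hu, funext fun _ => ?_⟩
    simp [h0]

theorem prod_prodB (B : β → LS Ω T) (C : γ → LS Ω Z) :
    ∏ i, prodB B C i = (∏ i, B i).pb Prod.fst * (∏ i, C i).pb Prod.snd := by
  rw [Fintype.prod_sum_type, LS.pb_prod, LS.pb_prod]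
  rfl

theorem reg_all (B : β → LS Ω T) : Reg B (∏ i, B i) := Reg.prod fun i _ => Reg.self B i

end sec

variable {Y : Type} [AddCommGroup Y]

/-- the law of the parallelogram with factor `lam` -/
def Law (B : β → LS Ω Y) (L : LS Ω Y) (lam : Y × Y → Ω) : Prop :=
  Eqv (prodB B B) lam ((L.pb fun t : Y × Y => t.1 + t.2) * L.pb fun t : Y × Y => t.1 - t.2)
    (L.pb Prod.fst ^ 2 * L.pb Prod.snd ^ 2)

/-- a complete irreducible group -/
structure Grp (B : β → LS Ω Y) : Prop where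
  cmp : Cmp B
  dom : Dom B
  dom2 : Dom (prodB B B)
  sub : RegM (prodB B B) B fun t : Y × Y => t.1 - t.2

variable {B : β → LS Ω Y} {C : γ → LS Ω T} {L : LS Ω Y} {lam : Y × Y → Ω} {u v : T → Y}

theorem Grp.rsub (h : Grp B) (hu : RegM C B u) (hv : RegM C B v) :
    RegM C B fun t => u t - v t := by
  have := (hu.pair hv).comp h.sub
  have e : ((fun t : Y × Y => t.1 - t.2) ∘ fun t => (u t, v t)) = fun t => u t - v t := rfl
  rwa [e] at this

theorem Grp.radd (h : Grp B) (hu : RegM C B u) (hv : RegM C B v) :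
    RegM C B fun t => u t + v t := by
  have := h.rsub hu (h.rsub (regM_const C B 0) hv)
  simpa only [zero_sub, sub_neg_eq_add] using this

theorem Grp.rtr (h : Grp B) (hu : RegM C B u) (k : Y) : RegM C B fun t => u t + k :=
  h.radd hu (regM_const C B k)

theorem Law.pow (h : Law B L lam) (m : ℕ) : Law B (L ^ m) (lam ^ m) := by
  have := Eqv.pow h m
  refine this.congr rfl ?_ ?_
  · rw [mul_pow, LS.pb_pow, LS.pb_pow]
  · rw [mul_pow, LS.pb_pow, LS.pb_pow, pow_right_comm, pow_right_comm (L.pb Prod.snd)]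

theorem Law.at (h : Law B L lam) (hu : RegM C B u) (hv : RegM C B v) :
    Eqv C (fun t => lam (u t, v t)) ((L.pb fun t => u t + v t) * L.pb fun t => u t - v t)
      (L.pb u ^ 2 * L.pb v ^ 2) := by
  refine (Eqv.pb h (fun t => (u t, v t)) (hu.pair hv)).congr rfl ?_ ?_
  · rw [LS.pb_mul, LS.pb_pb, LS.pb_pb]; rfl
  · rw [LS.pb_mul, LS.pb_pow, LS.pb_pow, LS.pb_pb, LS.pb_pb]; rfl

theorem eqv_at {L' : LS Ω Y} {mu : Y → Ω} {k : Y} (h : Eqv B mu (L'.pb fun x => x + k) L)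
    (hu : RegM C B u) : Eqv C (fun t => mu (u t)) (L'.pb fun t => u t + k) (L.pb u) :=
  (Eqv.pb h u hu).congr rfl (by rw [LS.pb_pb]; rfl) rfl

variable [IsAlgClosed Ω]

/-- the products of two translates are sections of bounded level -/
theorem Grp.phi (h : Grp B) {m : ℕ} (hl : Law B ((∏ i, B i) ^ m) lam) (d : ℕ) :
    ∃ d', ∀ s₁ ∈ Gam (∏ i, B i) d m, ∀ s₂ ∈ Gam (∏ i, B i) d m, ∀ a,
      (fun x => lam (a, x) * (s₁ (a + x) * s₂ (a - x))) ∈ Gam (∏ i, B i) d' (2 * m) ∧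
      (fun x => lam (x, a) * (s₁ (x + a) * s₂ (x - a))) ∈ Gam (∏ i, B i) d' (2 * m) := by
  have h1 := secS_gam (reg_all B) d m
  have h2 := ((h1.pb (h.radd (RegM.fst B B) (RegM.snd B B))).mul (h1.pb h.sub)).eqv hl
  have e : ((∏ i, B i) ^ m).pb Prod.fst ^ 2 * ((∏ i, B i) ^ m).pb Prod.snd ^ 2 =
      (∏ i, prodB B B i) ^ (2 * m) := by
    rw [prod_prodB, mul_pow, LS.pb_pow, LS.pb_pow, ← pow_mul, ← pow_mul, mul_comm m]
  rw [e] at h2
  obtain ⟨d', h3⟩ := h2.gam (h.cmp.prod h.cmp)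
  refine ⟨d', fun s₁ h₁ s₂ h₂ a => ?_⟩
  have h4 := h3 ⟨_, Submodule.mul_mem_mul ⟨s₁, h₁, rfl⟩ ⟨s₂, h₂, rfl⟩, rfl⟩
  have e1 : (∏ i, prodB B B i).pb (fun x => (a, x)) = ∏ i, B i := by
    rw [prod_prodB, LS.pb_mul, LS.pb_pb, LS.pb_pb]
    exact (congrArg₂ (· * ·) (pb_const _ a) (LS.pb_id _)).trans (one_mul _)
  have e2 : (∏ i, prodB B B i).pb (fun x => (x, a)) = ∏ i, B i := by
    rw [prod_prodB, LS.pb_mul, LS.pb_pb, LS.pb_pb]
    exact (congrArg₂ (· * ·) (LS.pb_id _) (pb_const _ a)).trans (mul_one _)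
  exact ⟨e1 ▸ gam_pb h4 fun x => (a, x), e2 ▸ gam_pb h4 fun x => (x, a)⟩

theorem Grp.unit_b (h : Grp B) (hL : Reg B L) (hl : Law B L lam) {mu : Y → Ω} {k : Y}
    (hm : Eqv B mu (L.pb fun x => x + k) L) : ∃ c : Ω, c ≠ 0 ∧ ∀ a x,
      mu x ^ 2 * lam (a, x + k) * mu (a - (x + k)) = c * (lam (a, x) * mu (a + x)) := by
  have r1 := RegM.fst B B
  have r2 := RegM.snd B B
  have e1 := (hl.at r1 (h.rtr r2 k)).trans ((Eqv.refl _ _).mul ((eqv_at hm r2).pow 2))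
  have e3 := (eqv_at hm (h.rsub r1 (h.rtr r2 k))).symm
  have e2 := (((eqv_at hm (h.radd r1 r2)).mul e3).congr rfl
    (V := (L.pb fun t : Y × Y => t.1 + (t.2 + k)) * L.pb fun t : Y × Y => t.1 - (t.2 + k))
    (V' := (L.pb fun t : Y × Y => t.1 + t.2) * L.pb fun t : Y × Y => t.1 - t.2)
    (by simp only [add_assoc]) (by simp only [← sub_sub, sub_add_cancel])).trans hl
  obtain ⟨c, hc, e⟩ := Eqv.unit h.dom2 (((h.radd r1 (h.rtr r2 k)).pull hL).mul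
    ((h.rsub r1 (h.rtr r2 k)).pull hL)) e1 e2
  refine ⟨c, hc, fun a x => ?_⟩
  have := congrFun e (a, x)
  simp only [Pi.mul_apply, Pi.one_apply, Pi.pow_apply, Pi.smul_apply, Pi.inv_apply, smul_eq_mul,
    one_mul] at this
  rw [this]
  have h0 := hm.ne (a - (x + k))
  field_simp

theorem Grp.unit_c (h : Grp B) (hL : Reg B L) (hl : Law B L lam) {mu : Y → Ω} {z : Y}
    (hm : Eqv B mu (L.pb fun x => x + z) L) : ∃ c : Ω, c ≠ 0 ∧ ∀ x a,
      mu x ^ 2 * lam (x + z, a) = c * (lam (x, a) * (mu (x + a) * mu (x - a))) := by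
  have r1 := RegM.fst B B
  have r2 := RegM.snd B B
  have e1 := (hl.at (h.rtr r1 z) r2).trans (((eqv_at hm r1).pow 2).mul (Eqv.refl _ _))
  have e2 := (((eqv_at hm (h.radd r1 r2)).mul (eqv_at hm h.sub)).congr rfl
    (V := (L.pb fun t : Y × Y => t.1 + z + t.2) * L.pb fun t : Y × Y => t.1 + z - t.2)
    (by simp only [add_right_comm _ z, add_sub_right_comm]) rfl).trans hl
  obtain ⟨c, hc, e⟩ := Eqv.unit h.dom2 (((h.radd (h.rtr r1 z) r2).pull hL).mul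
    ((h.rsub (h.rtr r1 z) r2).pull hL)) e1 e2
  refine ⟨c, hc, fun x a => ?_⟩
  have := congrFun e (x, a)
  simpa only [Pi.mul_apply, Pi.one_apply, Pi.pow_apply, Pi.smul_apply, smul_eq_mul,
    mul_one] using this

theorem Grp.cocycle (h : Grp B) (hL : Reg B L) {mu mu' mu'' : Y → Ω} {k k' : Y}
    (hm : Eqv B mu (L.pb fun x => x + k) L) (hm' : Eqv B mu' (L.pb fun x => x + k') L)
    (hm'' : Eqv B mu'' (L.pb fun x => x + (k + k')) L) :
    ∃ c : Ω, c ≠ 0 ∧ ∀ x, mu x * mu' (x + k) = c * mu'' x := by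
  have r := h.rtr (RegM.id B) k
  have e1 := ((eqv_at hm' r).congr rfl (V := L.pb fun x => x + (k + k'))
    (V' := L.pb fun x => x + k) (by simp only [id, add_assoc]) rfl).trans hm
  obtain ⟨c, hc, e⟩ := Eqv.unit h.dom ((h.rtr (RegM.id B) (k + k')).pull hL) e1 hm''
  exact ⟨c, hc, fun x => congrFun e x⟩

end Pool.Agent.Tav.Ti.Quo
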