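import Pool.Agent.P.MP_2ce3e7_ag.Tav.TiQuoB

/-! Conjugation of systems, laws and multipliers. -/

set_option autoImplicit false

noncomputable section

namespace Pool.Agent.Tav.Ti.Quo

open Module

variable {Ω : Type} [Field Ω] {T Z : Type} {β γ : Type} [Fintype β] [Fintype γ]

/-- multiplication by `η` carries `U` onto `U'` -/
def Sc (η : T → Ω) (U U' : LS Ω T) : Prop :=
  (∀ t, η t ≠ 0) ∧ U'.sp = U.sp.map (LinearMap.mulLeft Ω η)

section sc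
variable {η η' : T → Ω} {U U' V V' : LS Ω T}

theorem Sc.eqv (B : β → LS Ω T) (h : Sc η U U') : Eqv B η U U' := Eqv.of_map B h.1 h.2.symm

theorem Sc.mul (h : Sc η U U') (h' : Sc η' V V') : Sc (η * η') (U * V) (U' * V') := by
  refine ⟨fun t => mul_ne_zero (h.1 t) (h'.1 t), le_antisymm ?_ ?_⟩
  · rw [LS.mul_sp, h.2, h'.2]
    refine Submodule.mul_le.2 ?_
    rintro _ ⟨a, ha, rfl⟩ _ ⟨b, hb, rfl⟩
    exact ⟨a * b, Submodule.mul_mem_mul ha hb, mul_mul_mul_comm η η' a b⟩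
  · rw [Submodule.map_le_iff_le_comap, LS.mul_sp, LS.mul_sp, h.2, h'.2]
    refine Submodule.mul_le.2 fun a ha b hb => ?_
    rw [Submodule.mem_comap, LinearMap.mulLeft_apply, mul_mul_mul_comm]
    exact Submodule.mul_mem_mul ⟨a, ha, rfl⟩ ⟨b, hb, rfl⟩

theorem Sc.one : Sc (1 : T → Ω) (1 : LS Ω T) 1 :=
  ⟨fun _ => one_ne_zero, by rw [LinearMap.mulLeft_one, Submodule.map_id]⟩

theorem Sc.pow (h : Sc η U U') (n : ℕ) : Sc (η ^ n) (U ^ n) (U' ^ n) := by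
  induction n with
  | zero => simpa only [pow_zero] using Sc.one
  | succ n ih => simpa only [pow_succ] using ih.mul h

theorem sim_prod {ι : Type} (s : Finset ι) {W W' : ι → LS Ω T} (h : ∀ i, (W i).Sim (W' i)) :
    ∃ η, Sc η (∏ i ∈ s, W i) (∏ i ∈ s, W' i) :=
  Finset.prod_hom_rel (r := fun U U' : LS Ω T => ∃ η, Sc η U U') ⟨1, Sc.one⟩
    fun a _ _ ⟨η, h'⟩ => by
      obtain ⟨η', h''⟩ := h a
      exact ⟨_, Sc.mul h'' h'⟩

end sc

variable {fr : Ω ≃+* Ω}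

theorem cjL_mul (F : T ≃ T) (U V : LS Ω T) : cjL fr F (U * V) = cjL fr F U * cjL fr F V := by
  rw [cjL, LS.tw_mul, LS.pb_mul]; rfl

theorem cjL_pow (F : T ≃ T) (U : LS Ω T) (n : ℕ) : cjL fr F (U ^ n) = cjL fr F U ^ n := by
  rw [cjL, LS.tw_pow, LS.pb_pow]; rfl

theorem cjL_prod {ι : Type} (F : T ≃ T) (s : Finset ι) (W : ι → LS Ω T) :
    cjL fr F (∏ i ∈ s, W i) = ∏ i ∈ s, cjL fr F (W i) := by
  rw [cjL, LS.tw_prod, LS.pb_prod]; rfl

theorem cjL_pb (F : T ≃ T) (G : Z ≃ Z) (U : LS Ω T) {j j' : Z → T}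
    (h : ∀ z, j (G.symm z) = F.symm (j' z)) : cjL fr G (U.pb j) = (cjL fr F U).pb j' := by
  rw [cjL, cjL, LS.tw_pb, LS.pb_pb, LS.pb_pb]
  exact congrArg (fun i => (U.tw fr).pb i) (funext h)

theorem eqv_cj {B : β → LS Ω T} {F : T ≃ T} (hF : ∀ b, Reg B (cjL fr F (B b))) {mu : T → Ω}
    {U U' : LS Ω T} (h : Eqv B mu U U') : Eqv B (cj fr F mu) (cjL fr F U) (cjL fr F U') :=
  (h.tw fr).pb F.symm hF

theorem sim_cjL {F : T ≃ T} {U : LS Ω T} (h : (U.tw fr).Sim (U.pb F)) : (cjL fr F U).Sim U := by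
  have := h.pb F.symm
  rwa [LS.pb_pb, F.self_comp_symm, LS.pb_id] at this

theorem gam_cj {F : T ≃ T} {H : LS Ω T} {η : T → Ω} (h : Sc η (cjL fr F H) H) {d m : ℕ}
    {s : T → Ω} (hs : s ∈ Gam H d m) : η ^ m * cj fr F s ∈ Gam H d m := by
  rw [mem_Gam] at hs ⊢
  intro v hv
  have h1 := (h.pow d).2
  have h2 := (h.pow (d + m)).2
  rw [← cjL_pow] at h1 h2
  rw [h1] at hv
  obtain ⟨_, hw, rfl⟩ := hv
  obtain ⟨w, hw', rfl⟩ := mem_cjL.1 hw
  rw [h2]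
  refine ⟨_, mem_cjL.2 ⟨_, hs w hw', rfl⟩, ?_⟩
  simp only [LinearMap.mulLeft_apply, map_mul]
  ring

theorem span_cj {F : T ≃ T} {η : T → Ω} {A : Set (T → Ω)}
    (h : ∀ f ∈ A, η * cj fr F f ∈ Submodule.span Ω A) :
    ∀ f ∈ Submodule.span Ω A, η * cj fr F f ∈ Submodule.span Ω A := by
  intro f hf
  induction hf using Submodule.span_induction with
  | mem f hf => exact h f hf
  | zero => simp
  | add f g _ _ hf hg => rw [map_add, mul_add]; exact Submodule.add_mem _ hf hg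
  | smul c f _ hf => rw [cj_smul, mul_smul_comm]; exact Submodule.smul_mem _ _ hf

variable {Y : Type} [AddCommGroup Y] {B : β → LS Ω Y} {L : LS Ω Y} {lam : Y × Y → Ω}
  {F : Y ≃+ Y} {η : Y → Ω} [IsAlgClosed Ω]

theorem Grp.law_cj (h : Grp B) (hL : Reg B L) (hl : Law B L lam)
    (hF : ∀ b, Reg B (cjL fr F.toEquiv (B b))) (hη : Sc η (cjL fr F.toEquiv L) L) :
    ∃ c : Ω, c ≠ 0 ∧ ∀ x y, η x ^ 2 * η y ^ 2 * fr (lam (F.symm x, F.symm y)) =
      c * (lam (x, y) * (η (x + y) * η (x - y))) := by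
  have r1 := RegM.fst B B
  have r2 := RegM.snd B B
  let G : Y × Y ≃ Y × Y := F.toEquiv.prodCongr F.toEquiv
  have p1 : ∀ U : LS Ω Y, cjL fr G (U.pb Prod.fst) = (cjL fr F.toEquiv U).pb Prod.fst :=
    fun U => cjL_pb _ _ U fun _ => rfl
  have p2 : ∀ U : LS Ω Y, cjL fr G (U.pb Prod.snd) = (cjL fr F.toEquiv U).pb Prod.snd :=
    fun U => cjL_pb _ _ U fun _ => rfl
  have p3 : cjL fr G (L.pb fun t : Y × Y => t.1 + t.2) =
      (cjL fr F.toEquiv L).pb fun t : Y × Y => t.1 + t.2 :=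
    cjL_pb _ _ L fun z => (map_add F.symm z.1 z.2).symm
  have p4 : cjL fr G (L.pb fun t : Y × Y => t.1 - t.2) =
      (cjL fr F.toEquiv L).pb fun t : Y × Y => t.1 - t.2 :=
    cjL_pb _ _ L fun z => (map_sub F.symm z.1 z.2).symm
  have hG : ∀ b, Reg (prodB B B) (cjL fr G (prodB B B b)) := by
    rintro (b | b)
    · exact (p1 (B b)).symm ▸ r1.pull (hF b)
    · exact (p2 (B b)).symm ▸ r2.pull (hF b)
  have e0 := eqv_cj hG hl
  rw [cjL_mul, cjL_mul, cjL_pow, cjL_pow, p1, p2, p3, p4] at e0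
  have q := hη.eqv B
  have e1 := e0.trans (((q.pb _ r1).pow 2).mul ((q.pb _ r2).pow 2))
  have e2 := ((q.pb _ (h.radd r1 r2)).mul (q.pb _ h.sub)).trans hl
  have rL := q.symm.reg hL
  obtain ⟨c, hc, e⟩ := Eqv.unit h.dom2 (((h.radd r1 r2).pull rL).mul (h.sub.pull rL)) e1 e2
  exact ⟨c, hc, fun x y => congrFun e (x, y)⟩

theorem Grp.mu_cj (h : Grp B) (hL : Reg B L) {mu mu' : Y → Ω} {k : Y}
    (hm : Eqv B mu (L.pb fun x => x + k) L) (hm' : Eqv B mu' (L.pb fun x => x + F k) L)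
    (hF : ∀ b, Reg B (cjL fr F.toEquiv (B b))) (hη : Sc η (cjL fr F.toEquiv L) L) :
    ∃ c : Ω, c ≠ 0 ∧ ∀ x, η x * fr (mu (F.symm x)) = c * (mu' x * η (x + F k)) := by
  have p : cjL fr F.toEquiv (L.pb fun x => x + k) =
      (cjL fr F.toEquiv L).pb fun x => x + F k :=
    cjL_pb _ _ L fun z => by
      change F.symm z + k = F.symm (z + F k)
      rw [map_add, F.symm_apply_apply]
  have e0 := eqv_cj hF hm
  rw [p] at e0
  have q := hη.eqv B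
  have r := h.rtr (RegM.id B) (F k)
  have e1 := e0.trans q
  have e2 := (q.pb _ r).trans hm'
  obtain ⟨c, hc, e⟩ := Eqv.unit h.dom (r.pull (q.symm.reg hL)) e1 e2
  exact ⟨c, hc, fun x => congrFun e x⟩

end Pool.Agent.Tav.Ti.Quo
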