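import Pool.Agent.P.MP_2ce3e7_ag.Tav.TiWeilA

/-! Similitudes of a positive form: eigenvalues and semisimplicity. -/

set_option autoImplicit false

noncomputable section

namespace Pool.Agent.Tav.Ti

open Function Module Polynomial TensorProduct

section
variable {V : Type} [AddCommGroup V] [Module ℚ V] [FiniteDimensional ℚ V]
  {B : LinearMap.BilinForm ℚ V} (hs : ∀ x y, B x y = B y x) (hp : ∀ x, x ≠ 0 → 0 < B x x)
include hs hp

theorem exists_ob : ∃ v : Basis (Fin (finrank ℚ V)) ℚ V, (∀ i, 0 < B (v i) (v i)) ∧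
    ∀ x y, B x y = ∑ i, v.repr x i * v.repr y i * B (v i) (v i) := by
  obtain ⟨v, hv⟩ := LinearMap.BilinForm.exists_orthogonal_basis (B := B) ⟨fun x y => hs x y⟩
  refine ⟨v, fun i => hp _ (v.ne_zero i), fun x y => ?_⟩
  conv_lhs => rw [← v.sum_repr x, ← v.sum_repr y]
  simp only [map_sum, map_smul, LinearMap.sum_apply, LinearMap.smul_apply, smul_eq_mul]
  refine Finset.sum_congr rfl fun i _ => ?_
  rw [Finset.sum_eq_single i (fun j _ hj => by rw [hv hj, mul_zero]) (by simp)]
  ring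

theorem eq_zero_of_trace {X Y : End ℚ V} {N : ℚ} (hN : N ≠ 0)
    (h : ∀ a b, B (Y a) b = N * B a (X b)) (ht : LinearMap.trace ℚ V (Y * X) = 0) : X = 0 := by
  obtain ⟨v, h1, h2⟩ := exists_ob hs hp
  have nn : ∀ x, 0 ≤ B x x := fun x => by
    rcases eq_or_ne x 0 with rfl | e
    · simp
    · exact (hp x e).le
  have h3 : ∀ i, v.repr (Y (X (v i))) i = N * (B (X (v i)) (X (v i)) / B (v i) (v i)) := fun i => by
    have h4 := h (X (v i)) (v i)
    rw [h2, Finset.sum_eq_single i (fun j _ hj => by simp [hj.symm]) (by simp)] at h4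
    simp only [Basis.repr_self, Finsupp.single_eq_same, mul_one] at h4
    rw [← mul_div_assoc, eq_div_iff (h1 i).ne', h4]
  rw [LinearMap.trace_eq_matrix_trace ℚ v, Matrix.trace] at ht
  simp only [Matrix.diag_apply, LinearMap.toMatrix_apply, End.mul_apply, h3] at ht
  rw [← Finset.mul_sum, mul_eq_zero, or_iff_right hN, Finset.sum_eq_zero_iff_of_nonneg
    fun i _ => div_nonneg (nn _) (h1 i).le] at ht
  refine v.ext fun i => ?_
  by_contra e
  exact (div_pos (hp _ e) (h1 i)).ne' (ht i (Finset.mem_univ i))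

theorem sim_semisimple {A : End ℚ V} {n : ℚ} (hn : n ≠ 0)
    (h : ∀ x y, B (A x) (A y) = n * B x y) : A.IsSemisimple := by
  have hi : Injective A := (injective_iff_map_eq_zero A).2 fun x hx => by
    by_contra e
    have := h x x
    rw [hx, map_zero] at this
    exact (mul_ne_zero hn (hp x e).ne') this.symm
  refine End.isSemisimple_iff.2 fun W hW => ⟨B.orthogonal W, fun x hx y hy => ?_, ?_⟩
  · have h1 : Surjective (A.restrict hW) :=
      LinearMap.injective_iff_surjective.1 fun a b e => Subtype.ext (hi (congrArg Subtype.val e))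
    obtain ⟨z, hz⟩ := h1 ⟨y, hy⟩
    have h2 : A z = y := congrArg Subtype.val hz
    change B y (A x) = 0
    rw [← h2, h, hx z z.2, mul_zero]
  · refine (LinearMap.BilinForm.isCompl_orthogonal_iff_disjoint fun x y e => (hs y x).trans e).2
      (Submodule.disjoint_def.2 fun x hx hx' => ?_)
    by_contra e
    exact (hp x e).ne' (hx' x hx)

theorem sim_root {A : End ℚ V} {n : ℚ} (h : ∀ x y, B (A x) (A y) = n * B x y) {w : ℂ}
    (hw : aeval w A.charpoly = 0) : Complex.normSq w = n := by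
  obtain ⟨v, h1, h2⟩ := exists_ob hs hp
  obtain ⟨M, hM⟩ : ∃ M, M = LinearMap.toMatrix v v A := ⟨_, rfl⟩
  obtain ⟨d, hd⟩ : ∃ d : Fin (finrank ℚ V) → ℚ, d = fun i => B (v i) (v i) := ⟨_, rfl⟩
  have h3 : ∀ j k, ∑ i, M i j * M i k * d i = if j = k then n * d j else 0 := fun j k => by
    have := h (v j) (v k)
    rw [h2 (A (v j))] at this
    simp only [hM, hd, LinearMap.toMatrix_apply, this]
    split_ifs with e
    · rw [e]
    · rw [h2, Finset.sum_eq_zero fun i _ => ?_, mul_zero]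
      by_cases e1 : j = i
      · simp [← e1, Ne.symm e]
      · simp [e1]
  have h4 : ((M.map (algebraMap ℚ ℂ)).charpoly).eval w = 0 := by
    rw [Matrix.charpoly_map, hM, LinearMap.charpoly_toMatrix, eval_map_algebraMap, hw]
  rw [Matrix.eval_charpoly] at h4
  obtain ⟨x, hx, e⟩ := Matrix.exists_mulVec_eq_zero_iff.2 h4
  have h5 : ∀ i, w * x i = ∑ j, (M i j : ℂ) * x j := fun i => by
    have := congrFun e i
    rw [Matrix.sub_mulVec, Pi.sub_apply, Pi.zero_apply, sub_eq_zero, Matrix.scalar_apply,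
      Matrix.mulVec_diagonal] at this
    rw [this]
    rfl
  have h6 : ∑ i, (d i : ℂ) * ((w * x i) * star (w * x i)) = n * ∑ i, d i * (x i * star (x i)) := by
    have : ∀ i, (d i : ℂ) * ((w * x i) * star (w * x i)) =
        ∑ j, ∑ k, ((M i j * M i k * d i : ℚ) : ℂ) * (x j * star (x k)) := fun i => by
      rw [h5, star_sum, Finset.sum_mul_sum, Finset.mul_sum]
      refine Finset.sum_congr rfl fun j _ => ?_
      rw [Finset.mul_sum]
      refine Finset.sum_congr rfl fun k _ => ?_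
      rw [star_mul', star_ratCast]
      push_cast
      ring
    simp only [this]
    rw [Finset.sum_comm, Finset.mul_sum]
    refine Finset.sum_congr rfl fun j _ => ?_
    rw [Finset.sum_comm, Finset.sum_eq_single j (fun k _ hk => by
      rw [← Finset.sum_mul, ← Rat.cast_sum, h3, if_neg hk.symm, Rat.cast_zero, zero_mul]) (by simp),
      ← Finset.sum_mul, ← Rat.cast_sum, h3, if_pos rfl]
    push_cast
    ring
  have h7 : ∑ i, (d i : ℝ) * (Complex.normSq w * Complex.normSq (x i)) =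
      n * ∑ i, d i * Complex.normSq (x i) := by
    simp only [Complex.star_def, Complex.mul_conj] at h6
    simp only [← Complex.normSq_mul]
    exact_mod_cast h6
  have h8 : 0 < ∑ i, (d i : ℝ) * Complex.normSq (x i) := by
    have hd' : ∀ i, (0 : ℝ) < d i := fun i => by
      rw [hd]
      exact_mod_cast h1 i
    obtain ⟨i, hi⟩ := ne_iff.1 hx
    exact Finset.sum_pos' (fun i _ => mul_nonneg (hd' i).le (Complex.normSq_nonneg _))
      ⟨i, Finset.mem_univ i, mul_pos (hd' i) (Complex.normSq_pos.2 hi)⟩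
  refine mul_right_cancel₀ h8.ne' ?_
  rw [← h7, Finset.mul_sum]
  exact Finset.sum_congr rfl fun i _ => by ring

end

/-- `s` multiplies `q` by a constant -/
def Sim {E : Type} [Ring E] (q : E → ℚ) (s : E) : Prop :=
  ∃ c : ℚ, c ≠ 0 ∧ ∀ a, q (s * a) = c * q a

theorem mul_bc {E : Type} [Ring E] (K : Type) [Field K] (x : E) :
    LinearMap.mulLeft K ((1 : K) ⊗ₜ[ℤ] x) = (LinearMap.mulLeft ℤ x).baseChange K := by
  ext a
  simp

namespace PF

section
variable {E : Type} [AddCommGroup E] {q : E → ℚ} (h : PF q)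
include h

/-- the polar form over the rationals -/
def BQ : LinearMap.BilinForm ℚ (ℚ ⊗[ℤ] E) := LinearMap.BilinForm.baseChange ℚ h.B

theorem BQ_tmul (s t : ℚ) (a b : E) : h.BQ (s ⊗ₜ a) (t ⊗ₜ b) = h.B a b * (s * t) := by
  rw [BQ, LinearMap.BilinForm.baseChange_tmul, zsmul_eq_mul]

theorem BQ_symm (x y : ℚ ⊗[ℤ] E) : h.BQ x y = h.BQ y x :=
  (LinearMap.BilinForm.IsSymm.baseChange ℚ (B₂ := h.B) ⟨fun a b => h.B_symm a b⟩).eq x y

theorem BQ_pos (x : ℚ ⊗[ℤ] E) (hx : x ≠ 0) : 0 < h.BQ x x := by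
  obtain ⟨⟨a, s⟩, e⟩ := IsLocalizedModule.surj (nonZeroDivisors ℤ) (TensorProduct.mk ℤ ℚ E 1) x
  have hs : ((s : ℤ) : ℚ) ≠ 0 := Int.cast_ne_zero.2 (nonZeroDivisors.coe_ne_zero s)
  have e1 : ((s : ℤ) : ℚ) • x = (1 : ℚ) ⊗ₜ a := by
    rw [Int.cast_smul_eq_zsmul]
    exact e
  have ha : a ≠ 0 := by
    rintro rfl
    rw [tmul_zero] at e1
    exact hx ((_root_.smul_eq_zero.1 e1).resolve_left hs)
  have h1 := h.BQ_tmul 1 1 a a
  rw [← e1] at h1
  simp only [map_smul, LinearMap.smul_apply, smul_eq_mul, mul_one] at h1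
  have h2 : (0 : ℚ) < h.B a a := by exact_mod_cast h.B_pos ha
  rw [← h1, ← mul_assoc] at h2
  exact (mul_pos_iff_of_pos_left (mul_self_pos.2 hs)).1 h2

theorem BQ_ext {X Y Z W : End ℤ E} {n : ℚ}
    (e : ∀ a b, (h.B (X a) (Y b) : ℚ) = n * h.B (Z a) (W b)) (x y : ℚ ⊗[ℤ] E) :
    h.BQ (X.baseChange ℚ x) (Y.baseChange ℚ y) =
      n * h.BQ (Z.baseChange ℚ x) (W.baseChange ℚ y) := by
  induction x with
  | zero => simp
  | add x x' hx hx' => simp only [map_add, LinearMap.add_apply, hx, hx', mul_add]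
  | tmul s a =>
    induction y with
    | zero => simp
    | add y y' hy hy' => simp only [map_add, hy, hy', mul_add]
    | tmul t b => simp only [LinearMap.baseChange_tmul, BQ_tmul, e, mul_assoc]

theorem bc_inj {X : End ℤ E} (e : X.baseChange ℚ = 0) : X = 0 := by
  refine LinearMap.ext fun a => h.eq_zero ?_
  have := h.BQ_tmul 1 1 (X a) (X a)
  rw [← LinearMap.baseChange_tmul, e, LinearMap.zero_apply, map_zero, mul_one, mul_one] at this
  exact_mod_cast this.symm

end

variable {E : Type} [Ring E] {q : E → ℚ} (h : PF q)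
include h

theorem B_sim {s : E} {c : ℚ} (hc : ∀ a, q (s * a) = c * q a) (a b : E) :
    (h.B (s * a) (s * b) : ℚ) = c * h.B a b := by
  rw [B_eq, B_eq, ← mul_add, hc, hc, hc]
  ring

variable [Module.Finite ℤ E]

/-- a similitude is semisimple, with eigenvalues of the same absolute value -/
theorem weil {F : E} {n : ℚ} (hn : n ≠ 0) (hF : ∀ a, q (F * a) = n * q a) :
    ∃ P : ℤ[X], P.Monic ∧ (P.map (algebraMap ℤ ℚ)).Separable ∧ aeval F P = 0 ∧
      ∀ w : ℂ, aeval w P = 0 → Complex.normSq w = n := by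
  have := h.free
  obtain ⟨A, hA⟩ : ∃ A : End ℚ (ℚ ⊗[ℤ] E), A = (LinearMap.mulLeft ℤ F).baseChange ℚ := ⟨_, rfl⟩
  have h1 : ∀ x y, h.BQ (A x) (A y) = n * h.BQ x y := fun x y => by
    have := h.BQ_ext (X := LinearMap.mulLeft ℤ F) (Y := LinearMap.mulLeft ℤ F) (Z := LinearMap.id)
      (W := LinearMap.id) (h.B_sim hF) x y
    simpa only [hA, LinearMap.baseChange_id, LinearMap.id_apply] using this
  have h2 : minpoly ℚ A ∣ A.charpoly := LinearMap.minpoly_dvd_charpoly A
  have h3 := h2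
  rw [hA, LinearMap.charpoly_baseChange, ← hA] at h3
  obtain ⟨P, hP⟩ := IsIntegrallyClosed.eq_map_mul_C_of_dvd ℚ (LinearMap.charpoly_monic _) h3
  have h4 : (minpoly ℚ A).Monic := minpoly.monic (LinearMap.isIntegral A)
  rw [h4.leadingCoeff, C_1, mul_one] at hP
  refine ⟨P, monic_of_injective (f := algebraMap ℤ ℚ) Int.cast_injective (hP ▸ h4), ?_, ?_,
    fun w hw => sim_root h.BQ_symm h.BQ_pos h1 (aeval_eq_zero_of_dvd_aeval_eq_zero h2 ?_)⟩
  · rw [hP]
    exact PerfectField.separable_iff_squarefree.2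
      (sim_semisimple h.BQ_symm h.BQ_pos hn h1).minpoly_squarefree
  · let φ : E →+* End ℚ (ℚ ⊗[ℤ] E) :=
      (End.baseChangeHom ℤ ℚ E).toRingHom.comp (Algebra.lmul ℤ E).toRingHom
    have h5 : φ (aeval F P) = 0 := by
      have h6 := minpoly.aeval ℚ A
      rw [← hP, aeval_def, eval₂_map] at h6
      rw [aeval_def, hom_eval₂, ← h6, hA]
      congr 1
      exact RingHom.ext_int _ _
    have h7 : LinearMap.mulLeft ℤ (aeval F P) = 0 := h.bc_inj h5
    simpa using congrArg (fun X => X 1) h7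
  · rw [← hP, aeval_map_algebraMap, hw]

/-- a similitude has a quasi-inverse that is a polynomial in it -/
theorem exists_inv {s : E} (hs : Sim q s) :
    ∃ (Q : ℤ[X]) (m : ℤ), m ≠ 0 ∧ s * aeval s Q = m ∧ aeval s Q * s = m := by
  obtain ⟨c, hc, hs⟩ := hs
  obtain ⟨P, -, -, h1, h2⟩ := h.weil hc hs
  have h3 := congrArg (aeval s) (X_mul_divX_add P)
  have h4 := congrArg (aeval s) (divX_mul_X_add P)
  simp only [map_add, map_mul, aeval_X, h1, eq_intCast, map_intCast] at h3 h4
  refine ⟨-P.divX, P.coeff 0, fun e => hc ?_, ?_, ?_⟩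
  · have := h2 0 (by rw [aeval_def, eval₂_at_zero, e, map_zero])
    rw [map_zero] at this
    exact_mod_cast this.symm
  · rw [map_neg, mul_neg, neg_eq_iff_add_eq_zero, h3]
  · rw [map_neg, neg_mul, neg_eq_iff_add_eq_zero, h4]

theorem ss_core (adj : ∀ x : E, ∃ (y : E) (N : ℤ), N ≠ 0 ∧
    ∀ a b, h.B (y * a) b = N * h.B a (x * b)) (K : Type) [Field K] [CharZero K] :
    IsSemisimpleRing (K ⊗[ℤ] E) := by
  classical
  have := h.free
  have : IsArtinianRing (K ⊗[ℤ] E) := IsArtinianRing.of_finite K _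
  let τ : E →ₗ[ℤ] ℤ := LinearMap.trace ℤ E ∘ₗ LinearMap.mul ℤ E
  have hτ : ∀ (L : Type) [Field L] (x : E),
      LinearMap.trace L _ (LinearMap.mulLeft L ((1 : L) ⊗ₜ[ℤ] x)) = (τ x : ℤ) := by
    intro L _ x
    rw [mul_bc, LinearMap.trace_baseChange]
    rfl
  let b := Module.Free.chooseBasis ℤ E
  have hd : (Matrix.of fun i j => τ (b j * b i)).det ≠ 0 := by
    intro e
    obtain ⟨v, hv, e⟩ := Matrix.exists_vecMul_eq_zero_iff.2 e
    obtain ⟨x, hx⟩ : ∃ x, x = ∑ i, v i • b i := ⟨_, rfl⟩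
    have h1 : ∀ y, τ (y * x) = 0 := fun y => by
      have : τ ∘ₗ LinearMap.mulRight ℤ x = 0 := b.ext fun j => by
        change τ (b j * x) = 0
        rw [hx, Finset.mul_sum, map_sum]
        simp only [mul_smul_comm, map_smul, smul_eq_mul]
        exact congrFun e j
      exact LinearMap.congr_fun this y
    obtain ⟨y, N, hN, hy⟩ := adj x
    have h2 : (LinearMap.mulLeft ℤ x).baseChange ℚ = 0 := by
      refine eq_zero_of_trace h.BQ_symm h.BQ_pos (Y := (LinearMap.mulLeft ℤ y).baseChange ℚ)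
        (N := N) (Int.cast_ne_zero.2 hN) (fun a c => ?_) ?_
      · have := h.BQ_ext (X := LinearMap.mulLeft ℤ y) (Y := LinearMap.id) (Z := LinearMap.id)
          (W := LinearMap.mulLeft ℤ x) (n := N) (fun a c => by exact_mod_cast hy a c) a c
        simpa only [LinearMap.baseChange_id, LinearMap.id_apply] using this
      · rw [← LinearMap.baseChange_mul, End.mul_eq_comp, ← LinearMap.mulLeft_mul, ← mul_bc, hτ, h1,
          Int.cast_zero]
    have h3 : x = 0 := by simpa using congrArg (fun X => X 1) (h.bc_inj h2)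
    exact hv (funext (Fintype.linearIndependent_iff.1 b.linearIndependent v (hx ▸ h3)))
  rw [IsArtinianRing.isSemisimpleRing_iff_jacobson, eq_bot_iff]
  intro z hz
  let b' := Algebra.TensorProduct.basis K b
  have h4 : b'.equivFun z = 0 := by
    refine Matrix.eq_zero_of_vecMul_eq_zero
      (M := (Matrix.of fun i j => τ (b j * b i)).map (Int.castRingHom K)) ?_ (funext fun j => ?_)
    · rw [← RingHom.mapMatrix_apply, ← RingHom.map_det]
      exact Int.cast_ne_zero.2 hd
    obtain ⟨n, hn⟩ : IsNilpotent (Ring.jacobson (K ⊗[ℤ] E)) := IsSemiprimaryRing.isNilpotent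
    have h5 : IsNilpotent (b' j * z) :=
      ⟨n, by simpa [hn] using Ideal.pow_mem_pow (Ideal.mul_mem_left _ (b' j) hz) n⟩
    have h6 := (LinearMap.isNilpotent_trace_of_isNilpotent
      (h5.map (Algebra.lmul K (K ⊗[ℤ] E)))).eq_zero
    rw [← b'.sum_equivFun z, Finset.mul_sum, map_sum, map_sum] at h6
    rw [Pi.zero_apply, ← h6]
    refine Finset.sum_congr rfl fun i _ => ?_
    rw [mul_smul_comm, map_smul, map_smul, smul_eq_mul]
    congr 1
    simp only [b', Algebra.TensorProduct.basis_apply, Algebra.TensorProduct.tmul_mul_tmul, mul_one]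
    exact (hτ K _).symm
  exact b'.equivFun.map_eq_zero_iff.1 h4

omit [Module.Finite ℤ E] in
/-- a multiple of the adjoint of `x` lies in `D` -/
def Adj (D : Subring E) (x : E) : Prop :=
  ∃ y ∈ D, ∃ N : ℤ, N ≠ 0 ∧ ∀ a b, h.B (y * a) b = N * h.B a (x * b)

theorem adj_sim {D : Subring E} {s : E} (hs : Sim q s) (hD : s ∈ D) : h.Adj D s := by
  obtain ⟨Q, m, hm, h1, -⟩ := h.exists_inv hs
  obtain ⟨c, hc, h2⟩ := hs
  refine ⟨c.num • aeval s Q, zsmul_mem ?_ _, m * c.den,
    mul_ne_zero hm (Int.natCast_ne_zero.2 c.den_nz), fun a b => ?_⟩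
  · rw [aeval_eq_sum_range]
    exact sum_mem fun i _ => zsmul_mem (pow_mem hD _) _
  · have h3 := h.B_sim h2 (aeval s Q * a) b
    rw [← mul_assoc, h1, ← zsmul_eq_mul, map_smul, LinearMap.smul_apply] at h3
    apply Int.cast_injective (α := ℚ)
    rw [smul_mul_assoc, map_smul, LinearMap.smul_apply]
    simp only [smul_eq_mul, Int.cast_mul, Int.cast_natCast] at h3 ⊢
    rw [← Rat.mul_den_eq_num c]
    linear_combination (-c.den : ℚ) * h3

omit [Module.Finite ℤ E] in
theorem adj_closure {D : Subring E} {S : Set E} (hS : ∀ s ∈ S, h.Adj D s) :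
    ∀ x ∈ Subring.closure S, h.Adj D x := by
  intro x hx
  induction hx using Subring.closure_induction with
  | mem s hs => exact hS s hs
  | zero => exact ⟨0, zero_mem _, 1, one_ne_zero, fun a b => by simp⟩
  | one => exact ⟨1, one_mem _, 1, one_ne_zero, fun a b => by simp⟩
  | add x x' _ _ hx hx' =>
    obtain ⟨y, hy, N, hN, e⟩ := hx
    obtain ⟨y', hy', N', hN', e'⟩ := hx'
    refine ⟨N' • y + N • y', add_mem (zsmul_mem hy _) (zsmul_mem hy' _), N * N',
      mul_ne_zero hN hN', fun a b => ?_⟩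
    simp only [add_mul, smul_mul_assoc, map_add, map_smul, LinearMap.add_apply,
      LinearMap.smul_apply, smul_eq_mul, e, e']
    ring
  | neg x _ hx =>
    obtain ⟨y, hy, N, hN, e⟩ := hx
    exact ⟨-y, neg_mem hy, N, hN, fun a b => by simp [e]⟩
  | mul x x' _ _ hx hx' =>
    obtain ⟨y, hy, N, hN, e⟩ := hx
    obtain ⟨y', hy', N', hN', e'⟩ := hx'
    refine ⟨y' * y, mul_mem hy' hy, N' * N, mul_ne_zero hN' hN, fun a b => ?_⟩
    rw [mul_assoc, e', e, mul_assoc, mul_assoc]

/-- a set that is closed under the adjoint generates a semisimple algebra -/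
theorem ss_adj {S : Set E} (hS : ∀ s ∈ S, h.Adj (Subring.closure S) s) (K : Type) [Field K]
    [CharZero K] {A : Type} [Ring A] [Algebra K A] (ρ : E →+* A) :
    IsSemisimpleRing (Algebra.adjoin K (ρ '' S)) := by
  have adj := h.adj_closure hS
  obtain ⟨E', hE⟩ : ∃ E', E' = Subring.closure S := ⟨_, rfl⟩
  have h' := h.comap E'.subtype.toAddMonoidHom Subtype.val_injective
  have : Module.Finite ℤ E' :=
    Module.Finite.of_injective E'.subtype.toAddMonoidHom.toIntLinearMap Subtype.val_injective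
  have : IsSemisimpleRing (K ⊗[ℤ] E') := h'.ss_core (fun x => by
    obtain ⟨y, hy, N, hN, e⟩ := adj x (hE ▸ x.2)
    exact ⟨⟨y, hE ▸ hy⟩, N, hN, fun a b => e a b⟩) K
  let g : K ⊗[ℤ] E' →ₐ[K] A := Algebra.TensorProduct.lift (Algebra.ofId K A)
    (ρ.comp E'.subtype).toIntAlgHom fun k x => Algebra.commutes k _
  have hg : ∀ (k : K) (x : E'), g (k ⊗ₜ x) = algebraMap K A k * ρ x := fun k x => rfl
  have : g.range = Algebra.adjoin K (ρ '' S) := by
    refine le_antisymm ?_ (Algebra.adjoin_le ?_)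
    · rintro _ ⟨z, rfl⟩
      change g z ∈ _
      induction z with
      | zero => simp
      | add x y hx hy =>
        rw [map_add]
        exact add_mem hx hy
      | tmul k x =>
        rw [hg]
        refine mul_mem (algebraMap_mem _ k) ?_
        have : E' ≤ (Algebra.adjoin K (ρ '' S)).toSubring.comap ρ :=
          hE ▸ Subring.closure_le.2 fun s hs => Algebra.subset_adjoin ⟨s, hs, rfl⟩
        exact this x.2
    · rintro _ ⟨s, hs, rfl⟩
      exact ⟨1 ⊗ₜ ⟨s, hE ▸ Subring.subset_closure hs⟩, by simp [hg]⟩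
  rw [← this]
  exact g.rangeRestrict.toRingHom.isSemisimpleRing_of_surjective g.rangeRestrict_surjective

/-- similitudes generate a semisimple algebra -/
theorem ss {S : Set E} (hS : ∀ s ∈ S, Sim q s) (K : Type) [Field K] [CharZero K] {A : Type}
    [Ring A] [Algebra K A] (ρ : E →+* A) : IsSemisimpleRing (Algebra.adjoin K (ρ '' S)) :=
  h.ss_adj (fun s hs => h.adj_sim (hS s hs) (Subring.subset_closure hs)) K ρ

end PF

end Pool.Agent.Tav.Ti
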