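import Pool.Agent.P.MP_2ce3e7_ag.Tav.TiCntA

/-! The general fibre of an algebraic extension of domains has as many points as the separable
degree. -/

set_option autoImplicit false

namespace Pool.Agent.Tav.Tt

open Polynomial Module Fib
open scoped nonZeroDivisors IntermediateField

variable {B A : Type*} [CommRing B] [IsDomain B] [CommRing A] [IsDomain A] [Algebra B A]

attribute [local instance] FractionRing.liftAlgebra

variable [FaithfulSMul B A] [Algebra.FiniteType B A] [Algebra.IsAlgebraic B A]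

/-- a primitive element of the separable closure with a monic separable equation -/
theorem prim (p : ℕ) [ExpChar B p] :
    ∃ (s N : ℕ) (ξ : A) (P : B[X]), P.Monic ∧ finrank B A = p ^ s * P.natDegree ∧
    aeval ξ P = 0 ∧ (∀ Q : B[X], aeval ξ Q = 0 → P ∣ Q) ∧
    (∀ a : A, ∃ e : B, e ≠ 0 ∧ ∃ Q : B[X], algebraMap B A e * a ^ p ^ N = aeval ξ Q) ∧
    ∃ δ : B, δ ≠ 0 ∧ ∃ U V : B[X], U * P + V * derivative P = C δ := by
  have := fin_frac (B := B) (A := A)
  set F := FractionRing B
  set L := FractionRing A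
  have iF : Function.Injective (algebraMap B F) := IsFractionRing.injective _ _
  have iL : Function.Injective (algebraMap A L) := IsFractionRing.injective _ _
  have : ExpChar F p := expChar_of_injective_ringHom iF p
  set S := separableClosure F L with hS
  have : ExpChar S p := expChar_of_injective_ringHom (algebraMap F S).injective p
  obtain ⟨s, hs⟩ := finInsepDegree_eq_pow F L p
  have ev : ∀ (ξ : A) (Q : B[X]), aeval (algebraMap A L ξ) (Q.map (algebraMap B F)) =
      algebraMap A L (aeval ξ Q) := fun ξ Q => by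
    rw [aeval_map_algebraMap, aeval_algebraMap_apply]
  have sc : ∀ (x : L) (c : F), c ≠ 0 → F⟮x⟯ = S → F⟮c • x⟯ = S := fun x c hc h => by
    rw [← h]
    refine le_antisymm ?_ ?_ <;> rw [IntermediateField.adjoin_simple_le_iff]
    · exact F⟮x⟯.smul_mem (IntermediateField.mem_adjoin_simple_self F x)
    · simpa [hc] using
        F⟮c • x⟯.smul_mem (IntermediateField.mem_adjoin_simple_self F (c • x)) (x := c⁻¹)
  have dg : ∀ x : L, F⟮x⟯ = S → (minpoly F x).natDegree = finrank F S := fun x h => by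
    rw [← h, IntermediateField.adjoin.finrank (Algebra.IsIntegral.isIntegral x)]
  obtain ⟨α', hα'⟩ := Field.exists_primitive_element F S
  obtain ⟨α, hα⟩ : ∃ α : L, F⟮α⟯ = S :=
    ⟨α', by rw [← IntermediateField.lift_adjoin_simple, hα', IntermediateField.lift_top]⟩
  obtain ⟨⟨a, _, b, hb, rfl⟩, hab⟩ := IsLocalization.surj (Algebra.algebraMapSubmonoid A B⁰) α
  have h1 : F⟮algebraMap A L a⟯ = S := by
    have := sc α (algebraMap B F b) (by simpa using nonZeroDivisors.ne_zero hb) hα
    rwa [Algebra.smul_def, ← IsScalarTower.algebraMap_apply, IsScalarTower.algebraMap_apply B A L,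
      mul_comm, hab] at this
  obtain ⟨c, hc, P0, hP0⟩ := clear (minpoly F (algebraMap A L a))
  have hc' : algebraMap B F c ≠ 0 := by simpa using hc
  have hm := minpoly.monic (Algebra.IsIntegral.isIntegral (R := F) (algebraMap A L a))
  have l0 : P0.leadingCoeff = c := iF (by
    rw [← leadingCoeff_map_of_injective iF, hP0, leadingCoeff_mul, leadingCoeff_C, hm.leadingCoeff,
      mul_one])
  have n0 : P0 ≠ 0 := fun h => hc (by rw [← l0, h, leadingCoeff_zero])
  have d0 : P0.natDegree = finrank F S := by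
    rw [← natDegree_map_eq_of_injective iF, hP0, natDegree_C_mul hc', dg _ h1]
  have a0 : aeval a P0 = 0 := iL (by rw [← ev, hP0]; simp)
  obtain ⟨ξ, hξ⟩ : ∃ ξ, ξ = algebraMap B A c * a := ⟨_, rfl⟩
  have h2 : F⟮algebraMap A L ξ⟯ = S := by
    have := sc _ _ hc' h1
    rwa [Algebra.smul_def, ← IsScalarTower.algebraMap_apply, IsScalarTower.algebraMap_apply B A L,
      ← map_mul, ← hξ] at this
  have hi := Algebra.IsIntegral.isIntegral (R := F) (algebraMap A L ξ)
  obtain ⟨P, hP⟩ : ∃ P, P = integralNormalization P0 := ⟨_, rfl⟩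
  have m1 : P.Monic := hP ▸ monic_integralNormalization n0
  have d1 : P.natDegree = finrank F S := by rw [hP, natDegree_integralNormalization, d0]
  have a1 : aeval ξ P = 0 := by
    rw [hP, hξ, ← l0]
    exact integralNormalization_aeval_eq_zero a0 fun x hx =>
      FaithfulSMul.algebraMap_injective B A (by simpa using hx)
  have e1 : P.map (algebraMap B F) = minpoly F (algebraMap A L ξ) :=
    (eq_of_monic_of_dvd_of_natDegree_le (minpoly.monic hi) (m1.map _)
      (minpoly.dvd _ _ (by rw [ev, a1, map_zero]))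
      (by rw [m1.natDegree_map, d1, dg _ h2]))
  refine ⟨s, IsPurelyInseparable.exponent S L, ξ, P, m1, ?_, a1, fun Q hQ => ?_, fun x => ?_, ?_⟩
  · rw [d1, ← IsFractionRing.finrank_eq B F A L, ← hs, mul_comm]
    exact (finrank_mul_finrank F S L).symm
  · rw [← map_dvd_map _ iF m1, e1]
    exact minpoly.dvd _ _ (by rw [ev, hQ, map_zero])
  · obtain ⟨y, hy⟩ := IsPurelyInseparable.exponent_def' (K := S) p (algebraMap A L x)
    have : algebraMap A L (x ^ p ^ IsPurelyInseparable.exponent S L) ∈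
        F⟮algebraMap A L ξ⟯.toSubalgebra := by
      rw [h2, map_pow, ← hy]; exact y.2
    rw [IntermediateField.adjoin_simple_toSubalgebra_of_isAlgebraic hi.isAlgebraic,
      Algebra.adjoin_singleton_eq_range_aeval] at this
    obtain ⟨q, hq⟩ := this
    obtain ⟨e, he, Q, hQ⟩ := clear q
    refine ⟨e, he, Q, iL ?_⟩
    rw [← ev, hQ, map_mul, map_mul, aeval_C, ← IsScalarTower.algebraMap_apply,
      ← IsScalarTower.algebraMap_apply, ← hq]
    rfl
  · obtain ⟨u, v, huv⟩ : (minpoly F (algebraMap A L ξ)).Separable :=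
      mem_separableClosure_iff.1 (hS ▸ h2 ▸ IntermediateField.mem_adjoin_simple_self F _)
    obtain ⟨e, he, U, hU⟩ := clear u
    obtain ⟨e', he', V, hV⟩ := clear v
    refine ⟨e * e', mul_ne_zero he he', C e' * U, C e * V, map_injective _ iF ?_⟩
    simp only [Polynomial.map_add, Polynomial.map_mul, map_C, ← derivative_map, e1, map_mul]
    rw [hU, hV]
    linear_combination C (algebraMap B F e) * C (algebraMap B F e') * huv

/-- the rank is a power of the characteristic times the number of points of the general fibre -/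
theorem card_fibre (p : ℕ) [ExpChar B p] (K : Type*) [Field K] [IsAlgClosed K] [ExpChar K p] :
    ∃ (s n : ℕ) (f : B), f ≠ 0 ∧ finrank B A = p ^ s * n ∧ ∀ χ : B →+* K, χ f ≠ 0 →
      {ψ : A →+* K | ∀ b, ψ (algebraMap B A b) = χ b}.encard = n := by
  classical
  obtain ⟨k, N, ξ, P, hm, hd, h0, hk, hs, δ, hδ, U, V, hUV⟩ := prim (B := B) (A := A) p
  have : ExpChar A p := expChar_of_injective_ringHom (FaithfulSMul.algebraMap_injective B A) p
  obtain ⟨s, hs'⟩ := Algebra.FiniteType.out (R := B) (A := A)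
  choose e he Q hQ using hs
  obtain ⟨f, hf⟩ : ∃ f, f = ∏ a ∈ s, e a := ⟨_, rfl⟩
  let φ := iterateFrobenius A p N
  have hφ : ∀ a, φ a = a ^ p ^ N := fun _ => rfl
  have hp : ∀ a : A, ∃ (M : ℕ) (r : B[X]), (aeval ξ).toRingHom (C f) ^ M * φ a =
      (aeval ξ).toRingHom r := by
    intro a
    have ha : a ∈ Algebra.adjoin B (s : Set A) := hs' ▸ Algebra.mem_top
    induction ha using Algebra.adjoin_induction with
    | mem a ha =>
      refine ⟨1, C (∏ b ∈ s.erase a, e b) * Q a, ?_⟩
      rw [hf, ← Finset.prod_erase_mul s e ha, hφ]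
      simp [← hQ, mul_assoc]
    | algebraMap b => exact ⟨0, C b ^ p ^ N, by simp [hφ]⟩
    | add a b _ _ ha hb =>
      obtain ⟨N, r, h1⟩ := ha
      obtain ⟨N', r', h2⟩ := hb
      exact ⟨N + N', r * C f ^ N' + C f ^ N * r', by
        simp only [map_add, map_mul, map_pow, ← h1, ← h2]; ring⟩
    | mul a b _ _ ha hb =>
      obtain ⟨N, r, h1⟩ := ha
      obtain ⟨N', r', h2⟩ := hb
      exact ⟨N + N', r * r', by simp only [map_mul, ← h1, ← h2]; ring⟩
  refine ⟨k, P.natDegree, f * δ,
    mul_ne_zero (hf ▸ Finset.prod_ne_zero_iff.2 fun a _ => he a) hδ, hd, fun χ hχ => ?_⟩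
  rw [map_mul, mul_ne_zero_iff] at hχ
  have ev : ∀ ψ : A →+* K, (∀ b, ψ (algebraMap B A b) = χ b) → ∀ r : B[X],
      ψ (aeval ξ r) = (r.map χ).eval (ψ ξ) := fun ψ h r => by
    rw [eval_map, aeval_def, hom_eval₂]
    congr 1
    exact RingHom.ext h
  have hsep : (P.map χ).Separable := ⟨C (χ δ)⁻¹ * U.map χ, C (χ δ)⁻¹ * V.map χ, by
    rw [mul_assoc, mul_assoc, ← mul_add, derivative_map, ← Polynomial.map_mul, ← Polynomial.map_mul,
      ← Polynomial.map_add, hUV, map_C, ← C_mul, inv_mul_cancel₀ hχ.2, C_1]⟩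
  let Φ := iterateFrobeniusEquiv K p N
  have hΦ : ∀ x, Φ x = x ^ p ^ N := fun _ => rfl
  have hb : Set.BijOn (fun ψ : A →+* K => ψ ξ) {ψ | ∀ b, ψ (algebraMap B A b) = χ b}
      (P.map χ).roots.toFinset := by
    refine ⟨fun ψ h => ?_, fun ψ h ψ' h' e => RingHom.ext fun a => ?_, fun y hy => ?_⟩
    · simp only [Finset.mem_coe, Multiset.mem_toFinset, mem_roots (hm.map χ).ne_zero, IsRoot.def]
      rw [← ev ψ h, h0, map_zero]
    · obtain ⟨N, r, hr⟩ := hp a
      have e1 := congrArg ψ hr
      have e2 := congrArg ψ' hr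
      simp only [AlgHom.toRingHom_eq_coe, RingHom.coe_coe, aeval_C, map_mul, map_pow, hφ] at e1 e2
      rw [ev ψ h, h] at e1
      rw [ev ψ' h', h', ← show ψ ξ = ψ' ξ from e, ← e1] at e2
      exact Φ.injective (mul_left_cancel₀ (pow_ne_zero _ hχ.1) e2).symm
    · simp only [Finset.mem_coe, Multiset.mem_toFinset, mem_roots (hm.map χ).ne_zero,
        IsRoot.def, eval_map] at hy
      let ι := (aeval ξ : B[X] →ₐ[B] A).toRingHom
      let R : Subring A :=
        { carrier := {a | ∃ (M : ℕ) (r : B[X]), ι (C f) ^ M * a = ι r}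
          one_mem' := ⟨0, 1, by simp⟩
          zero_mem' := ⟨0, 0, by simp⟩
          mul_mem' := fun ⟨N, r, h1⟩ ⟨N', r', h2⟩ =>
            ⟨N + N', r * r', by simp only [map_mul, ← h1, ← h2]; ring⟩
          add_mem' := fun ⟨N, r, h1⟩ ⟨N', r', h2⟩ => ⟨N + N', r * C f ^ N' + C f ^ N * r', by
            simp only [map_add, map_mul, map_pow, ← h1, ← h2]; ring⟩
          neg_mem' := fun ⟨N, r, h1⟩ => ⟨N, -r, by rw [map_neg, ← h1, mul_neg]⟩ }
      let ι' : B[X] →+* R := ι.codRestrict R fun r => ⟨0, r, by simp⟩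
      obtain ⟨ψ, hψ⟩ := ext_of_pow ι' (C f) (fun a => by
          obtain ⟨M, r, h⟩ := a.2
          exact ⟨M, r, Subtype.ext h⟩) (eval₂RingHom χ y) (by simpa using hχ.1) fun r hr => by
        obtain ⟨t, rfl⟩ := hk r (congrArg Subtype.val hr)
        simp [hy]
      have key : ∀ r, Φ.symm (ψ (φ.codRestrict R hp (ι r))) = eval₂ χ y r := fun r => by
        rw [show φ.codRestrict R hp (ι r) = ι' (r ^ p ^ N) from Subtype.ext (map_pow ι _ _).symm,
          hψ, map_pow, ← hΦ, Φ.symm_apply_apply]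
        rfl
      exact ⟨Φ.symm.toRingHom.comp (ψ.comp (φ.codRestrict R hp)),
        fun b => by simpa [ι] using key (C b), by simpa [ι] using key X⟩
  rw [← hb.injOn.encard_image, hb.image_eq, Set.encard_coe_eq_coe_finsetCard,
    Multiset.toFinset_card_of_nodup (nodup_roots hsep),
    ← (IsAlgClosed.splits (P.map χ)).natDegree_eq_card_roots, hm.natDegree_map]

end Pool.Agent.Tav.Tt
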