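import Pool.Agent.P.MP_2ce3e7_ag.Tav.CvPlane

/-! Elliptic curves, with the group law of Mathlib, are abelian varieties of dimension one. -/

set_option autoImplicit false

noncomputable section

namespace Pool.Agent.Tav.Tt

open WeierstrassCurve

/-- projective coordinates of a point -/
def ec {K : Type} [Field K] {W : Affine K} : W.Point → Fin 3 → K
  | .zero => ![0, 1, 0]
  | .some x y _ => ![x, y, 1]

section
open MvPolynomial

variable {K : Type} [Field K] (W : Affine K)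

theorem ec_eq (P : W.Point) : W.toProjective.Equation (ec P) := by
  cases P with
  | zero => exact Projective.equation_zero
  | some x y h => exact (Projective.equation_some x y).2 h.1

theorem ec_ne (P : W.Point) : ec P ≠ 0 := by
  cases P with
  | zero => exact fun e => one_ne_zero (congrFun e 1)
  | some x y h => exact fun e => one_ne_zero (congrFun e 2)

theorem ec_inj (P Q : W.Point) (h : Par (ec P) (ec Q)) : P = Q := by
  obtain ⟨c, hc, h⟩ := h
  have h0 := congrFun h 0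
  have h1 := congrFun h 1
  have h2 := congrFun h 2
  rcases P with _ | ⟨x, y, _⟩ <;> rcases Q with _ | ⟨x', y', _⟩
  · rfl
  · exact absurd (by simpa [ec] using h2.symm) hc.ne_zero
  · simp [ec] at h2
  · obtain rfl : 1 = c := by simpa [ec] using h2
    obtain rfl : x = x' := by simpa [ec] using h0
    obtain rfl : y = y' := by simpa [ec] using h1
    rfl

theorem ec_hom : W.toProjective.polynomial.IsHomogeneous 3 := by
  have X1 : ∀ i : Fin 3, (X i : MvPolynomial (Fin 3) K).IsHomogeneous 1 := isHomogeneous_X K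
  have C0 : ∀ a : K, (C a : MvPolynomial (Fin 3) K).IsHomogeneous 0 := isHomogeneous_C _
  exact ((((isHomogeneous_X_pow 1 2).mul (X1 2)).add ((((C0 _).mul (X1 0)).mul (X1 1)).mul
    (X1 2))).add (((C0 _).mul (X1 1)).mul (isHomogeneous_X_pow 2 2))).sub
    ((((isHomogeneous_X_pow 0 3).add (((C0 _).mul (isHomogeneous_X_pow 0 2)).mul (X1 2))).add
    (((C0 _).mul (X1 0)).mul (isHomogeneous_X_pow 2 2))).add
    ((C0 _).mul (isHomogeneous_X_pow 2 3)))

theorem ec_pt [W.IsElliptic] {z : Fin 3 → K} (h0 : z ≠ 0) (hz : W.toProjective.Equation z) :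
    ∃ P : W.Point, Par z (ec P) := by
  by_cases h2 : z 2 = 0
  · have h1 := Projective.X_eq_zero_of_Z_eq_zero hz h2
    refine ⟨.zero, z 1, IsUnit.mk0 _ fun h => h0 ?_, ?_⟩ <;> ext l <;> fin_cases l <;>
      simp [ec, *]
  · refine ⟨.some _ _ (Affine.equation_iff_nonsingular.1
      ((Projective.equation_of_Z_ne_zero h2).1 hz)), z 2, IsUnit.mk0 _ h2, ?_⟩
    ext l
    fin_cases l <;> simp [ec, mul_div_cancel₀ _ h2]

theorem ec_prime : Prime W.toProjective.polynomial := by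
  let a0 : MvPolynomial (Fin 2) K := C W.a₆ * X 1 ^ 3 - X 0 ^ 2 * X 1 - C W.a₃ * X 0 * X 1 ^ 2
  let a1 : MvPolynomial (Fin 2) K := C W.a₄ * X 1 ^ 2 - C W.a₁ * X 0 * X 1
  let a2 : MvPolynomial (Fin 2) K := C W.a₂ * X 1
  let P := RingHom.ker (eval (![1, 0] : Fin 2 → K))
  let g : Cubic (MvPolynomial (Fin 2) K) := ⟨1, a2, a1, a0⟩
  have hmon : g.toPoly.Monic := Cubic.monic_of_a_eq_one rfl
  have hdeg : g.toPoly.degree = 3 := Cubic.degree_of_a_ne_zero one_ne_zero
  have h1 : Irreducible g.toPoly := by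
    refine Polynomial.irreducible_of_eisenstein_criterion (P := P) (RingHom.ker_isPrime _) ?_
      (fun n hn => ?_) (by rw [hdeg]; decide) (fun h => ?_) hmon.isPrimitive
    · rw [hmon.leadingCoeff, RingHom.mem_ker]
      simp
    · have hn : n < 3 := by rw [hdeg] at hn; exact_mod_cast hn
      interval_cases n
      · rw [Cubic.coeff_eq_d]; simp [P, g, a0]
      · rw [Cubic.coeff_eq_c]; simp [P, g, a1]
      · rw [Cubic.coeff_eq_b]; simp [P, g, a2]
    · have h2 : ∀ f ∈ P * P, eval (![1, 0] : Fin 2 → K) (pderiv 1 f) = 0 := fun f hf =>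
        Submodule.mul_induction_on hf (fun x hx y hy => by
          simp [RingHom.mem_ker.1 hx, RingHom.mem_ker.1 hy]) fun x y hx hy => by simp [hx, hy]
      have := h2 _ (pow_two P ▸ h)
      rw [Cubic.coeff_eq_d] at this
      simp [g, a0] at this
  have h2 : finSuccEquiv K 2 (-W.toProjective.polynomial) = g.toPoly := by
    have e1 : finSuccEquiv K 2 (X 1) = Polynomial.C (X 0) := finSuccEquiv_X_succ (j := 0)
    have e2 : finSuccEquiv K 2 (X 2) = Polynomial.C (X 1) := finSuccEquiv_X_succ (j := 1)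
    have e3 : ∀ a : K, finSuccEquiv K 2 (C a) = Polynomial.C (C a) := fun a =>
      (finSuccEquiv K 2).commutes a
    simp only [Projective.polynomial, Cubic.toPoly, g, a0, a1, a2, map_neg, map_sub, map_add,
      map_mul, map_pow, map_one, finSuccEquiv_X_zero, e1, e2, e3]
    ring
  exact neg_neg W.toProjective.polynomial ▸
    ((MulEquiv.irreducible_iff (finSuccEquiv K 2)).1 (h2 ▸ h1)).prime.neg

theorem ec_idl [IsAlgClosed K] [W.IsElliptic] :
    idl (ec (W := W)) = Ideal.span {W.toProjective.polynomial} := by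
  have hz : {z | ∃ (a : K) (t : W.Point), z = a • ec t} =
      zeroLocus K (Ideal.span {W.toProjective.polynomial}) := by
    ext z
    rw [zeroLocus_span]
    constructor
    · rintro ⟨a, t, rfl⟩ _ rfl
      exact (Pl.eval_smul (ec_hom W) a _).trans (mul_eq_zero_of_right _ (ec_eq W t))
    · intro h
      by_cases h0 : z = 0
      · exact ⟨0, 0, by simp [h0]⟩
      · obtain ⟨t, a, -, e⟩ := ec_pt W h0 (h _ rfl)
        exact ⟨a, t, e⟩
  rw [idl, hz, vanishingIdeal_zeroLocus_eq_radical,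
    ((Ideal.span_singleton_prime (ec_prime W).ne_zero).2 (ec_prime W)).radical]

end

section
variable {K : Type} [Field K] (W : Affine K)

theorem ec_neg (P : W.Point) : ∃ c : K, c ≠ 0 ∧ W.toProjective.neg (ec P) = c • ec (-P) := by
  cases P with
  | zero =>
    refine ⟨-1, by simp, ?_⟩
    change _ = _ • ![0, 1, 0]
    ext l
    fin_cases l <;> simp [ec, Projective.neg, Projective.negY]
  | some x y h =>
    refine ⟨1, one_ne_zero, ?_⟩
    rw [Affine.Point.neg_some]
    ext l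
    fin_cases l <;> simp [ec, Projective.neg, Projective.negY, Affine.negY]

variable [DecidableEq K]

theorem ec_add (P Q : W.Point) :
    ∃ c : K, (P ≠ Q → c ≠ 0) ∧ W.toProjective.addXYZ (ec P) (ec Q) = c • ec (P + Q) := by
  by_cases hPQ : P = Q
  · refine ⟨0, fun h => absurd hPQ h, ?_⟩
    rw [hPQ, Projective.addXYZ_self]
    ext l
    fin_cases l <;> simp
  have hP := ec_eq W P
  have hQ := ec_eq W Q
  rcases P with _ | ⟨x, y, h⟩ <;> rcases Q with _ | ⟨x', y', h'⟩
  · exact absurd rfl hPQ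
  · exact ⟨_, fun _ => by simp [ec], Projective.addXYZ_of_Z_eq_zero_left hP rfl⟩
  · exact ⟨_, fun _ => by simp [ec], Projective.addXYZ_of_Z_eq_zero_right hQ rfl⟩
  by_cases hx : x = x'
  · have hy : y ≠ y' := fun e => hPQ (by subst hx e; rfl)
    rw [Affine.Point.add_of_Y_eq hx ((Affine.Y_eq_of_X_eq h.1 h'.1 hx).resolve_left hy)]
    exact ⟨_, fun _ => Projective.addU_ne_zero_of_Y_ne one_ne_zero one_ne_zero
      (by simpa [ec] using hy), Projective.addXYZ_of_X_eq hP hQ one_ne_zero one_ne_zero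
      (by simpa [ec] using hx)⟩
  · have hx' : ec (.some x y h) 0 * ec (.some x' y' h') 2 ≠
        ec (.some x' y' h') 0 * ec (.some x y h) 2 := by simpa [ec] using hx
    refine ⟨_, fun _ => Projective.addZ_ne_zero_of_X_ne hP hQ hx',
      (Projective.addXYZ_of_Z_ne_zero hP hQ one_ne_zero one_ne_zero hx').trans ?_⟩
    rw [Affine.Point.add_of_X_ne hx]
    simp [ec]

/-- the subtraction law of bidegree `(2, 2)` -/
def law (u v : Fin 3 → K) : Fin 3 → K := W.toProjective.addXYZ u (W.toProjective.neg v)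

theorem law_ec : ∃ c : W.Point → W.Point → K, ∀ (P Q : W.Point), (P + Q ≠ 0 → c P Q ≠ 0) ∧
    ∀ a b : K, law W (a • ec P) (b • ec Q) = ((a * b) ^ 2 * c P Q) • ec (P - Q) := by
  choose n hn en using ec_neg W
  choose c hc e using ec_add W
  refine ⟨fun P Q => n Q ^ 2 * c P (-Q), fun P Q => ⟨fun h => mul_ne_zero (pow_ne_zero _ (hn Q))
    (hc _ _ fun h' => h (eq_neg_iff_add_eq_zero.1 h')), fun a b => ?_⟩⟩
  rw [law, Projective.neg_smul, en, smul_smul, Projective.addXYZ_smul, e, smul_smul,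
    sub_eq_add_neg]
  congr 1
  ring

omit [DecidableEq K] in
theorem bq_mem {T : Type} {L M : Submodule K (T → K)} {u v : T → Fin 3 → K}
    (hu : ∀ l, (fun t => u t l) ∈ L) (hv : ∀ l, (fun t => v t l) ∈ M)
    (s : List (K × Fin 3 × Fin 3 × Fin 3 × Fin 3)) {f : T → K} (hf : ∀ t, f t = (s.map fun a =>
      a.1 * (u t a.2.1 * u t a.2.2.1 * (v t a.2.2.2.1 * v t a.2.2.2.2))).sum) :
    f ∈ L ^ 2 * M ^ 2 := by
  obtain rfl := funext hf
  clear hf
  rw [pow_two, pow_two]
  induction s with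
  | nil => exact zero_mem _
  | cons a s ih =>
    simp only [List.map_cons, List.sum_cons]
    exact add_mem (Submodule.smul_mem _ a.1 (Submodule.mul_mem_mul
      (Submodule.mul_mem_mul (hu _) (hu _)) (Submodule.mul_mem_mul (hv _) (hv _)))) ih

omit [DecidableEq K] in
theorem neg_mem' {T : Type} {N : Submodule K (T → K)} {w : T → Fin 3 → K}
    (hw : ∀ l, (fun t => w t l) ∈ N) (l : Fin 3) : (fun t => W.toProjective.neg (w t) l) ∈ N := by
  fin_cases l
  exacts [hw 0, N.sub_mem (N.sub_mem (N.neg_mem (hw 1)) (N.smul_mem W.a₁ (hw 0)))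
    (N.smul_mem W.a₃ (hw 2)), hw 2]

omit [DecidableEq K] in
theorem law_mem {T : Type} {L M : Submodule K (T → K)} {u v : T → Fin 3 → K}
    (hu : ∀ l, (fun t => u t l) ∈ L) (hv : ∀ l, (fun t => v t l) ∈ M) (l : Fin 3) :
    (fun t => law W (u t) (v t) l) ∈ L ^ 2 * M ^ 2 := by
  have hv' := neg_mem' W hv
  refine neg_mem' W (w := fun t => ![W.toProjective.addX (u t) (W.toProjective.neg (v t)),
    W.toProjective.negAddY (u t) (W.toProjective.neg (v t)),
    W.toProjective.addZ (u t) (W.toProjective.neg (v t))]) (fun l => ?_) l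
  fin_cases l
  · refine bq_mem hu hv'
      [(-1, 0, 2, 1, 1), (1, 1, 1, 0, 2), (-2, 0, 1, 1, 2), (2, 1, 2, 0, 1), (-W.a₁, 0, 0, 1, 2),
      (W.a₁, 1, 2, 0, 0), (W.a₂, 0, 0, 0, 2), (-W.a₂, 0, 2, 0, 0), (-W.a₃, 0, 1, 2, 2),
      (W.a₃, 2, 2, 0, 1), (-2 * W.a₃, 0, 2, 1, 2), (2 * W.a₃, 1, 2, 0, 2), (W.a₄, 0, 0, 2, 2),
      (-W.a₄, 2, 2, 0, 0), (3 * W.a₆, 0, 2, 2, 2), (-3 * W.a₆, 2, 2, 0, 2)] fun t => ?_
    simp only [List.map_cons, List.sum_cons, List.map_nil, List.sum_nil]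
    exact (show _ = W.toProjective.addX _ _ from rfl).trans (by rw [Projective.addX]; ring)
  · refine bq_mem hu hv'
      [(-3, 0, 0, 0, 1), (3, 0, 1, 0, 0), (-1, 1, 1, 1, 2), (1, 1, 2, 1, 1), (W.a₁, 0, 2, 1, 1),
      (-W.a₁, 1, 1, 0, 2), (-W.a₂, 0, 0, 1, 2), (W.a₂, 1, 2, 0, 0), (2 * W.a₂, 0, 1, 0, 2),
      (-2 * W.a₂, 0, 2, 0, 1), (-W.a₃, 1, 1, 2, 2), (W.a₃, 2, 2, 1, 1), (W.a₄, 0, 1, 2, 2),
      (-2 * W.a₄, 0, 2, 1, 2), (2 * W.a₄, 1, 2, 0, 2), (-W.a₄, 2, 2, 0, 1),
      (3 * W.a₆, 1, 2, 2, 2), (-3 * W.a₆, 2, 2, 1, 2)] fun t => ?_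
    simp only [List.map_cons, List.sum_cons, List.map_nil, List.sum_nil]
    exact (show _ = W.toProjective.negAddY _ _ from rfl).trans (by rw [Projective.negAddY]; ring)
  · refine bq_mem hu hv'
      [(-3, 0, 0, 0, 2), (3, 0, 2, 0, 0), (1, 1, 1, 2, 2), (-1, 2, 2, 1, 1), (W.a₁, 0, 1, 2, 2),
      (-W.a₁, 2, 2, 0, 1), (-W.a₂, 0, 0, 2, 2), (W.a₂, 2, 2, 0, 0), (W.a₃, 1, 2, 2, 2),
      (-W.a₃, 2, 2, 1, 2), (-W.a₄, 0, 2, 2, 2), (W.a₄, 2, 2, 0, 2)] fun t => ?_
    simp only [List.map_cons, List.sum_cons, List.map_nil, List.sum_nil]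
    exact (show _ = W.toProjective.addZ _ _ from rfl).trans (by rw [Projective.addZ]; ring)

open Polynomial in
theorem inf_two [IsAlgClosed K] [W.IsElliptic] : {T : W.Point | T + T ≠ 0}.Infinite := by
  let g : Cubic K := ⟨4, W.b₂, 2 * W.b₄, W.b₆⟩
  have hg : g.toPoly ≠ 0 := fun h => by
    obtain ⟨h4, h2, -, h6⟩ := Cubic.mk.inj ((Cubic.toPoly_eq_zero_iff g).1 h)
    refine (W.coe_Δ' ▸ W.Δ'.ne_zero : W.Δ ≠ 0) ?_
    rw [WeierstrassCurve.Δ, h2, h6]
    linear_combination (-2 * W.b₄ ^ 3) * h4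
  refine Set.Infinite.of_image (fun T => ec T 0)
    ((finite_setOfPred_isRoot hg).infinite_compl.mono fun x hx => ?_)
  obtain ⟨y, hy⟩ := IsAlgClosed.exists_root (W.polynomial.map (evalRingHom x)) (by
    rw [W.monic_polynomial.degree_map, W.degree_polynomial]; decide)
  have h : W.Equation x y := by rwa [IsRoot, map_evalRingHom_eval] at hy
  have h1 : y ≠ W.negY x y := fun e => hx (by
    rw [Affine.equation_iff] at h
    rw [Affine.negY] at e
    simp only [Set.mem_ofPred_eq, IsRoot, Cubic.toPoly, g, eval_add, eval_mul, eval_pow, eval_C,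
      eval_X, b₂, b₄, b₆]
    linear_combination (2 * y + W.a₁ * x + W.a₃) * e - 4 * h)
  refine ⟨.some x y (Affine.equation_iff_nonsingular.1 h), ?_, rfl⟩
  rw [Set.mem_ofPred_eq, Affine.Point.add_self_of_Y_ne h1]
  exact Affine.Point.some_ne_zero _

theorem ex_T [IsAlgClosed K] [W.IsElliptic] (a b s : W.Point) :
    ∃ T : W.Point, T ≠ a ∧ T ≠ b ∧ T + T ≠ s := by
  by_contra! H
  obtain ⟨S, hS, h1⟩ := (inf_two W).exists_notMem_finite (Set.toFinite {a, b})
  obtain ⟨T, -, h2⟩ := (inf_two W).exists_notMem_finite (Set.toFinite {a, b, a - S, b - S})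
  simp only [Set.mem_insert_iff, Set.mem_singleton_iff, not_or, eq_sub_iff_add_eq] at h1 h2
  have e1 := H S h1.1 h1.2
  have e2 := H _ h2.2.2.1 h2.2.2.2
  rw [add_add_add_comm, H T h2.1 h2.2.1, add_eq_left] at e2
  exact hS e2

theorem ec_sub [IsAlgClosed K] [W.IsElliptic] :
    Rg ![crd fun t : W.Point × W.Point => ec t.1, crd fun t => ec t.2]
      (crd fun t => ec (t.1 - t.2)) := by
  rintro ⟨x, y⟩
  obtain ⟨c, hc⟩ := law_ec W
  obtain ⟨T, h1, h2, h3⟩ := ex_T W (-x) (-y) (x + y)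
  refine ⟨![4, 4], fun t => (c t.1 T * c t.2 T) ^ 2 * c (t.1 - T) (t.2 - T), IsUnit.mk0 _
    (mul_ne_zero (pow_ne_zero _ (mul_ne_zero ((hc _ _).1 fun h => h1 ?_)
    ((hc _ _).1 fun h => h2 ?_))) ((hc _ _).1 fun h => h3 ?_)), fun w hw => ?_⟩
  · exact eq_neg_of_add_eq_zero_right h
  · exact eq_neg_of_add_eq_zero_right h
  · rwa [sub_add_sub_comm, sub_eq_zero, eq_comm] at h
  refine Submodule.mem_comap.1 ((Submodule.span_le (p := Submodule.comap (LinearMap.mulLeft K
    fun t => (c t.1 T * c t.2 T) ^ 2 * c (t.1 - T) (t.2 - T)) _)).2 ?_ hw)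
  rintro _ ⟨l, rfl⟩
  have h0 : ∀ l, (fun _ : W.Point × W.Point => ec T l) ∈ (1 : Submodule K (_ → K)) := fun l =>
    Submodule.mem_one.2 ⟨_, rfl⟩
  have h4 := law_mem W
    (law_mem W (L := crd fun t : W.Point × W.Point => ec t.1)
      (fun l => Submodule.subset_span ⟨l, rfl⟩) h0)
    (law_mem W (L := crd fun t : W.Point × W.Point => ec t.2)
      (fun l => Submodule.subset_span ⟨l, rfl⟩) h0) l
  have h5 : ∀ P, law W (ec P) (ec T) = c P T • ec (P - T) := fun P => by
    simpa using (hc P T).2 1 1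
  simp only [one_pow, mul_one, ← pow_mul, h5, (hc _ _).2, sub_sub_sub_cancel_right] at h4
  rw [SetLike.mem_coe, Submodule.mem_comap, Fin.prod_univ_two]
  exact h4

end

theorem ec_av {K : Type} [Field K] [IsAlgClosed K] [DecidableEq K] (W : Affine K) [W.IsElliptic] :
    AV (ec (W := W)) 1 ∧ ∀ P Q : W.Point, Par (ec P) (ec Q) → P = Q := by
  refine ⟨⟨ec_ne W, fun z hz h0 => ec_pt W h0 (hz _ ((ec_idl W).ge
    (Ideal.mem_span_singleton_self _))), ec_idl W ▸ (Ideal.span_singleton_prime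
    (ec_prime W).ne_zero).2 (ec_prime W), Pl.dim_one (ec_hom W) (ec_prime W).ne_zero (by decide)
    ((Ideal.ext fun f => ?_).trans (ec_idl W)), ec_sub W⟩, ec_inj W⟩
  rw [Pl.mem_idl, Pl.mem_idl]
  exact ⟨fun H a t => H a ⟨t, trivial⟩, fun H a t => H a t⟩

theorem ec_frob (k : Type) [Field k] [Fintype k] [DecidableEq (AlgebraicClosure k)]
    (W : Affine k) : ∃ F : (W.baseChange (AlgebraicClosure k)).Point →+
      (W.baseChange (AlgebraicClosure k)).Point, ∀ P, Par (ec (F P)) (ec P ^ Fintype.card k) := by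
  refine ⟨Affine.Point.map (FiniteField.frobeniusAlgHom k _), fun P => ⟨1, isUnit_one, ?_⟩⟩
  have h := Fintype.card_ne_zero (α := k)
  cases P with
  | zero =>
    change ![0, 1, 0] = _
    ext l
    fin_cases l <;> simp [ec, h]
  | some x y h' =>
    rw [Affine.Point.map_some]
    ext l
    fin_cases l <;> simp [ec]

end Pool.Agent.Tav.Tt
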