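import Pool.Agent.P.MP_2ce3e7_ag.Tav.TtC
import Pool.Agent.P.MP_2ce3e7_ag.Tav.Desc

/-! Fixed points are rational points, stable sets are the sets defined over the finite field. -/

set_option autoImplicit false

noncomputable section

namespace Pool.Agent.Tav.Tt

open MvPolynomial Set Function K0

section Desc
variable {k Ω : Type} [Field k] [Finite k] [Field Ω] [Algebra k Ω] [Algebra.IsAlgebraic k Ω]

/-- on a finite set a linear form is a combination of the powers of Frobenius -/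
theorem lin_frob (φ : Ω →ₗ[k] k) (A : Finset Ω) : ∃ (m : ℕ) (b : ℕ → Ω), ∀ x ∈ A,
    algebraMap k Ω (φ x) = ∑ i ∈ Finset.range m, b i * x ^ Nat.card k ^ i := by
  let E := IntermediateField.adjoin k (A : Set Ω)
  have : FiniteDimensional k E := IntermediateField.finiteDimensional_adjoin fun x _ =>
    (Algebra.IsAlgebraic.isAlgebraic x).isIntegral
  have : Finite E := Module.finite_of_finite k
  let y : E := ((Algebra.traceForm k E).toDual (traceForm_nondegenerate k E)).symm
    (φ ∘ₗ E.val.toLinearMap)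
  refine ⟨Module.finrank k E, fun i => (y : Ω) ^ Nat.card k ^ i, fun x hx => ?_⟩
  let x' : E := ⟨x, IntermediateField.subset_adjoin k _ hx⟩
  have h1 : Algebra.trace k E (y * x') = φ x :=
    LinearMap.BilinForm.apply_toDual_symm_apply (hB := traceForm_nondegenerate k E) _ x'
  have h2 := congrArg (fun z : E => (z : Ω))
    (FiniteField.algebraMap_trace_eq_sum_pow k E (y * x'))
  rw [h1] at h2
  refine Eq.trans h2 ?_
  push_cast
  simp only [mul_pow]
  rfl

/-- an ideal that is stable under Frobenius is generated by its members over the finite field -/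
theorem desc_ideal {s : Type} {fr : Ω →+* Ω} (hfr : ∀ x, fr x = x ^ Nat.card k)
    (J : Ideal (MvPolynomial s Ω)) (hJ : ∀ f ∈ J, map fr f ∈ J) :
    (J.comap (map (algebraMap k Ω) : MvPolynomial s k →+* _)).map (map (algebraMap k Ω)) = J := by
  classical
  refine le_antisymm Ideal.map_comap_le fun u hu => mem_map_iff_cfl.2 fun φ => ?_
  obtain ⟨m, b, h⟩ := lin_frob φ (insert 0 u.coeffs)
  have h1 : ∀ i, map (fr ^ i) u ∈ J := by
    intro i
    induction i with
    | zero => simpa [RingHom.one_def, map_id] using hu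
    | succ i ih =>
      have := hJ _ ih
      simpa only [map_map, pow_succ', RingHom.mul_def] using this
  have e : map (algebraMap k Ω) (cfl φ u) = ∑ i ∈ Finset.range m, C (b i) * map (fr ^ i) u := by
    refine MvPolynomial.ext _ _ fun d => ?_
    rw [coeff_map, coeff_cfl, coeff_sum, h]
    · exact Finset.sum_congr rfl fun i _ => by
        rw [coeff_C_mul, coeff_map, De.iter_pow fr _ hfr]
    · by_cases h0 : coeff d u = 0
      · rw [h0]; exact Finset.mem_insert_self _ _
      · exact Finset.mem_insert_of_mem (coeff_mem_coeffs d h0)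
  rw [Ideal.mem_comap, e]
  exact J.sum_mem fun i _ => J.mul_mem_left _ (h1 i)

end Desc

variable {k G τ : Type} [Field k] [Fintype k] [Fintype τ] {p : G → τ → AlgebraicClosure k}
  {F : G → G}

omit [Fintype τ] in
theorem fix_iff (hp : ∀ y, p y ≠ 0) (hi : ∀ y y', Par (p y) (p y') → y = y')
    (hF : ∀ y, Par (p (F y)) (p y ^ Fintype.card k)) (n : ℕ) (y : G) :
    y ∈ fixedPoints F^[n] ↔ ∃ z, Par (p y) z ∧ z ^ Fintype.card k ^ n = z := by
  have h1 := Pp.par_iter hF n y
  refine ⟨fun h => ?_, fun ⟨z, h2, h3⟩ => hi _ _ (Pp.par_trans h1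
    (Pp.par_trans (Pp.par_pow h2 _) (h3.symm ▸ Pp.par_symm h2)))⟩
  obtain ⟨a, ha⟩ := ne_iff.1 (hp y)
  have ha : p y a ≠ 0 := ha
  rw [show F^[n] y = y from h] at h1
  obtain ⟨c, -, hc⟩ := h1
  refine ⟨(p y a)⁻¹ • p y, ⟨p y a, ha.isUnit, by rw [smul_smul, mul_inv_cancel₀ ha, one_smul]⟩,
    funext fun l => ?_⟩
  have e1 : p y l = c * p y l ^ Fintype.card k ^ n := congrFun hc l
  have e2 : p y a = c * p y a ^ Fintype.card k ^ n := congrFun hc a
  have h0 := pow_ne_zero (Fintype.card k ^ n) ha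
  simp only [Pi.pow_apply, Pi.smul_apply, smul_eq_mul, mul_pow, inv_pow]
  rw [inv_mul_eq_div, inv_mul_eq_div, div_eq_div_iff h0 ha]
  linear_combination p y l ^ Fintype.card k ^ n * e2 - p y a ^ Fintype.card k ^ n * e1

theorem fix_finite (hp : ∀ y, p y ≠ 0) (hi : ∀ y y', Par (p y) (p y') → y = y')
    (hF : ∀ y, Par (p (F y)) (p y ^ Fintype.card k)) {n : ℕ} (hn : n ≠ 0) :
    (fixedPoints F^[n]).Finite := by
  have h1 : 1 < Fintype.card k ^ n := one_lt_pow₀ Fintype.one_lt_card hn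
  have h2 : {x : AlgebraicClosure k | x ^ Fintype.card k ^ n = x}.Finite :=
    (Polynomial.finite_setOfPred_isRoot (FiniteField.X_pow_card_sub_X_ne_zero _ h1)).subset
      fun x hx => by simpa [sub_eq_zero] using hx
  choose! z hz using fun y => (fix_iff hp hi hF n y).1
  refine Finite.of_finite_image (f := z) ((Finite.pi' fun _ : τ => h2).subset ?_)
    fun y hy y' hy' e => hi _ _ (Pp.par_trans (hz y hy).1 (e ▸ Pp.par_symm (hz y' hy').1))
  rintro _ ⟨y, hy, rfl⟩ l
  exact congrFun (hz y hy).2 l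

theorem defined_of_stable (hF : ∀ y, Par (p (F y)) (p y ^ Fintype.card k)) {Y : Set G}
    (h : F '' Y = Y) : ∃ S : Set (MvPolynomial τ (AlgebraicClosure k)),
      (∀ f ∈ S, ∀ d, coeff d f ^ Fintype.card k = coeff d f) ∧
      (idl fun y : Y => p y) = Ideal.span S := by
  refine ⟨_, ?_, (desc_ideal (k := k) (fr := (frE k).toRingHom) (fun x => by
    rw [Nat.card_eq_fintype_card]; rfl) _ fun f hf => Ver.mem_idl.2 fun c y => ?_).symm⟩
  · rintro _ ⟨f, -, rfl⟩ d
    rw [coeff_map, ← map_pow, FiniteField.pow_card]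
  obtain ⟨y', hy, e⟩ := h.ge y.2
  obtain ⟨u, -, hu⟩ := hF y'
  obtain ⟨c', hc⟩ := (frE k).surjective (c * u)
  rw [← e, hu, smul_smul, ← hc, frE_apply, ← smul_pow, eval_frE,
    Ver.mem_idl.1 hf c' ⟨y', hy⟩, map_zero]

theorem stable_of_defined (hp : ∀ y, p y ≠ 0) (hi : ∀ y y', Par (p y) (p y') → y = y')
    (hF : ∀ y, Par (p (F y)) (p y ^ Fintype.card k)) {Y : Set G}
    (hc : ∀ y, p y ∈ zeroLocus (AlgebraicClosure k) (idl fun y : Y => p y) → y ∈ Y)
    {S : Set (MvPolynomial τ (AlgebraicClosure k))}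
    (hS : ∀ f ∈ S, ∀ d, coeff d f ^ Fintype.card k = coeff d f)
    (h : (idl fun y : Y => p y) = Ideal.span S) : F '' Y = Y := by
  have key : ∀ z, z ^ Fintype.card k ∈ zeroLocus (AlgebraicClosure k) (idl fun y : Y => p y) ↔
      z ∈ zeroLocus (AlgebraicClosure k) (idl fun y : Y => p y) := fun z => by
    rw [h, zeroLocus_span]
    refine forall₂_congr fun f hf => ?_
    have e : map (frE k).toRingHom f = f :=
      MvPolynomial.ext _ _ fun d => by rw [coeff_map]; exact hS f hf d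
    change MvPolynomial.eval _ _ = 0 ↔ MvPolynomial.eval _ _ = 0
    rw [← e, eval_frE, e, map_eq_zero]
  have mem : ∀ y ∈ Y, p y ∈ zeroLocus (AlgebraicClosure k) (idl fun y : Y => p y) :=
    fun y hy f hf => hf _ ⟨1, ⟨y, hy⟩, (one_smul _ _).symm⟩
  refine Subset.antisymm ?_ fun y hy => ?_
  · rintro _ ⟨y, hy, rfl⟩
    obtain ⟨u, -, hu⟩ := hF y
    exact hc _ (hu ▸ zl_smul ((key _).2 (mem y hy)) u)
  · obtain ⟨y', rfl⟩ := (frS hp hi hF).bij.2 y
    obtain ⟨u, -, hu⟩ := Pp.par_symm (hF y')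
    exact ⟨y', hc _ ((key _).1 (hu ▸ zl_smul (mem _ hy) u)), rfl⟩

end Pool.Agent.Tav.Tt
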