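import Pool.Agent.P.MP_2ce3e7_ag.Tav.TtC
import Pool.Agent.P.MP_2ce3e7_ag.Tav.GrTwS
import Pool.Agent.P.MP_2ce3e7_ag.Tav.TiFin

/-! `dm` is the dimension of the closure. -/

set_option autoImplicit false

noncomputable section

namespace Pool.Agent.Tav.Tt

open MvPolynomial Set Function Order

theorem eq_single {s : Fin 1 →₀ ℕ} {n : ℕ} (h : s.degree = n) : s = Finsupp.single 0 n := by
  ext
  rw [← h, Finsupp.degree_eq_sum, Fin.sum_univ_one]
  simp

theorem nc_top {P : MvPolynomial (Fin 1) ℚ} (h : P ≠ 0) :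
    nc (Finsupp.single 0 P.totalDegree) P ≠ 0 := by
  obtain ⟨s, hs, h1⟩ := exists_top (dg_iff.2 (le_refl P.totalDegree)) fun hd => by
    obtain ⟨s, hs, e⟩ := Finset.exists_mem_eq_sup _ (support_nonempty.2 h)
      fun s : Fin 1 →₀ ℕ => s.sum fun _ e => e
    refine mem_support_iff.1 hs (hd s ?_)
    have : P.totalDegree = s.degree := e
    omega
  rwa [eq_single hs] at h1

theorem deg_eq {P : MvPolynomial (Fin 1) ℚ} {n : ℕ} (h : Dg P n)
    (h0 : nc (Finsupp.single 0 n) P ≠ 0) : P.totalDegree = n :=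
  le_antisymm (dg_iff.1 h) (not_lt.1 fun hc => h0 (nc_eq_zero.2
    (dg_iff.2 (le_refl P.totalDegree) _ (by rw [Finsupp.degree_single]; exact_mod_cast hc))))

variable {K G τ : Type} [Field K] [Fintype τ] {p : G → τ → K}

theorem dm_pI (Z : Set G) :
    dm p Z = (pI (fun _ : τ => (0 : Fin 1)) (idl fun z : Z => p z)).totalDegree := by
  rw [dm, Gn.hp_idl]

theorem pI_ne [Infinite K] (hp : ∀ x, p x ≠ 0) {Z : Set G} (h : Z.Nonempty) :
    pI (fun _ : τ => (0 : Fin 1)) (idl fun z : Z => p z) ≠ 0 := fun e => by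
  obtain ⟨z, hz⟩ := h
  obtain ⟨v, hv⟩ := ne_iff.1 (hp z)
  obtain ⟨N, hN⟩ := lg_of_pI_eq_zero Tw.grJ_idl e
  have h1 := IsWeightedHomogeneous.pow (X_mem_Sd (Ω := K) (β := fun _ : τ => (0 : Fin 1)) v) N
  have h2 := Ver.mem_idl.1 (hN _ (fun i => by simp [Subsingleton.elim i 0]) _ h1) 1 ⟨z, hz⟩
  exact hv (by simpa using pow_eq_zero_iff'.1 (by simpa using h2) |>.1)

theorem idl_zs [IsAlgClosed K] (hc : ∀ z ∈ zeroLocus K (idl p), z ≠ 0 → ∃ x, Par z (p x))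
    {Q : Ideal (MvPolynomial τ K)} (hQ : Q.IsPrime) (gQ : GrJ (fun _ : τ => (0 : Fin 1)) Q)
    (hl : idl p ≤ Q) (h0 : pI (fun _ : τ => (0 : Fin 1)) Q ≠ 0) :
    (idl fun y : {y | p y ∈ zeroLocus K Q} => p y) = Q := by
  refine le_antisymm (fun f hf => ?_)
    (Fn.le_of_forms gQ fun d f hf h => (mem_idl_form hf).2 fun t => t.2 f h)
  obtain ⟨v, -, hv⟩ := Fn.relevant h0 0
  have : X v * f ∈ vanishingIdeal K (zeroLocus K Q) := fun z hz => by
    rw [map_mul]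
    by_cases e : z = 0
    · simp [e]
    obtain ⟨x, c, hc, rfl⟩ := hc z (fun g hg => hz g (hl hg)) e
    refine mul_eq_zero_of_right _ (hf _ ⟨c, ⟨x, ?_⟩, rfl⟩)
    refine Fn.le_of_forms (J := RingHom.ker (aeval (p x))) gQ fun d g hg h => ?_
    have := hz g h
    rw [Tw.aeval_sc hg] at this
    exact (mul_eq_zero.1 this).resolve_left (pow_ne_zero _ hc.ne_zero)
  rw [vanishingIdeal_zeroLocus_eq_radical, hQ.radical] at this
  exact (hQ.mem_or_mem this).resolve_left hv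

omit [Fintype τ] in
theorem idl_le {Y Z : Set G} (h : ∀ z ∈ Z, p z ∈ zeroLocus K (idl fun y : Y => p y)) :
    (idl fun y : Y => p y) ≤ idl fun z : Z => p z :=
  fun f hf => Ver.mem_idl.2 fun c z => zl_smul (h z z.2) c f hf

omit [Fintype τ] in
theorem mem_zl {Y : Set G} {y : G} (h : y ∈ Y) : p y ∈ zeroLocus K (idl fun y : Y => p y) :=
  fun _ hf => hf _ ⟨1, ⟨y, h⟩, (one_smul _ _).symm⟩

theorem dimension [IsAlgClosed K] (hp : ∀ x, p x ≠ 0)
    (hc : ∀ z ∈ zeroLocus K (idl p), z ≠ 0 → ∃ x, Par z (p x)) {Y : Set G} (hY : Y.Nonempty) :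
    krullDim {Z : Set G // (∀ z ∈ Z, p z ∈ zeroLocus K (idl fun y : Y => p y)) ∧
      (idl fun z : Z => p z).IsPrime ∧
      ∀ y, p y ∈ zeroLocus K (idl fun z : Z => p z) → y ∈ Z} = dm p Y := by
  set α := {Z : Set G // (∀ z ∈ Z, p z ∈ zeroLocus K (idl fun y : Y => p y)) ∧
      (idl fun z : Z => p z).IsPrime ∧
      ∀ y, p y ∈ zeroLocus K (idl fun z : Z => p z) → y ∈ Z}
  have ne : ∀ Z : α, Z.1.Nonempty := fun Z =>
    nonempty_coe_sort.1 ((dom_iff fun z : Z.1 => hp z).2 Z.2.2.1).1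
  have mono : StrictMono fun Z : α => dm p Z.1 := fun Z Z' h => not_le.1 fun hn => by
    have e := Fn.eq_of_top Z'.2.2.1 Tw.grJ_idl Tw.grJ_idl (idl_le fun z hz => mem_zl (h.le hz))
      (s := Finsupp.single 0 (dm p Z.1))
      (by rw [Finsupp.degree_single, dg_iff, ← dm_pI]; exact hn)
      (by rw [dm_pI]; exact nc_top (pI_ne hp (ne Z)))
    exact h.not_ge fun z hz => Z.2.2.2 z (e ▸ mem_zl hz)
  have mk : ∀ (Q : Ideal (MvPolynomial τ K)) (n : ℕ), Q.IsPrime →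
      GrJ (fun _ : τ => (0 : Fin 1)) Q → (idl fun y : Y => p y) ≤ Q →
      Dg (pI (fun _ : τ => (0 : Fin 1)) Q) n →
      nc (Finsupp.single 0 n) (pI (fun _ : τ => (0 : Fin 1)) Q) ≠ 0 →
      ∃ Z : α, Z.1 = {y | p y ∈ zeroLocus K Q} ∧ dm p Z.1 = n := fun Q n h1 h2 h3 h4 h5 => by
    have e := idl_zs hc h1 h2 (fun f hf => h3 fun _ ⟨c, t, e⟩ => hf _ ⟨c, t.1, e⟩)
      fun e => h5 (by rw [e, map_zero])
    exact ⟨⟨{y | p y ∈ zeroLocus K Q}, fun z hz f hf => hz f (h3 hf), e.symm ▸ h1,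
      fun y hy => by rwa [e] at hy⟩, rfl, by rw [dm_pI, e, deg_eq h4 h5]⟩
  have low : ∀ (n : ℕ) (Z : α), dm p Z.1 = n → (n : ℕ∞) ≤ height Z := by
    intro n
    induction n with
    | zero => exact fun _ _ => by simp
    | succ n ih =>
      intro Z hZ
      have h1 := nc_top (pI_ne hp (ne Z))
      rw [← dm_pI, hZ] at h1
      obtain ⟨S, hS, h2⟩ := Fn.exists_cuts (β := fun _ : τ => (0 : Fin 1)) (n := n)
        ⟨Z.2.2.1, Tw.grJ_idl, by rw [dg_iff, ← dm_pI, hZ], ⟨_, Finsupp.degree_single _ _, h1⟩,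
          fun s hs => by rw [eq_single hs]; exact Nat.le_ceil _⟩
        (s := Finsupp.single 0 n) (i := 0) (Finsupp.degree_single _ _)
        (by rwa [← Finsupp.single_add]) 1
      obtain ⟨Q, hQ⟩ := Finset.card_pos.1 (hS ▸ one_pos)
      obtain ⟨h3, h4, h5⟩ := h2 Q hQ
      obtain ⟨Z', e, h6⟩ := mk Q n h3.prime h3.gr ((idl_le Z.2.1).trans h4) h3.dg h5
      have h7 : Z' < Z := lt_of_le_of_ne (fun y hy => Z.2.2.2 y fun f hf => (e ▸ hy :) f (h4 hf))
        fun e => by rw [e] at h6; omega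
      rw [Nat.cast_succ]
      exact (add_le_add_left (ih Z' h6) 1).trans (height_add_one_le h7)
  refine le_antisymm ?_ ?_
  · rw [krullDim_eq_iSup_height]
    refine iSup_le fun Z => ?_
    have h1 := height_le_height_apply_of_strictMono _ mono Z
    have h2 : dm p Z.1 ≤ dm p Y := by
      rw [dm_pI, ← dg_iff]
      exact (dg_iff.2 (dm_pI Y).ge).pI_mono Tw.grJ_idl Tw.grJ_idl (idl_le Z.2.1)
    rw [height_nat] at h1
    exact_mod_cast h1.trans (Nat.cast_le.2 h2)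
  · have h0 : Dg (pI (fun _ : τ => (0 : Fin 1)) (idl fun y : Y => p y)) (dm p Y) :=
      dg_iff.2 (dm_pI Y).ge
    obtain ⟨Q, h1, h2, h3, h4, -⟩ := Fn.exists_prime (Finsupp.single 0 (dm p Y)) Tw.grJ_idl
      (by rwa [Finsupp.degree_single]) (by rw [dm_pI]; exact nc_top (pI_ne hp hY))
    obtain ⟨Z, -, h5⟩ := mk Q _ h1 h2 h3 (h0.pI_mono Tw.grJ_idl h2 h3) h4
    exact le_trans (by exact_mod_cast low _ Z h5) (height_le_krullDim Z)

end Pool.Agent.Tav.Tt
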