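import Pool.Agent.P.MP_2ce3e7_ag.Tav.TtC

/-! Products of abelian varieties. -/

set_option autoImplicit false

noncomputable section

namespace Pool.Agent.Tav.Tt

open MvPolynomial Module Set Function Filter K0

variable {K G H σ τ : Type} [Field K] [Fintype σ] [Fintype τ] {p : G → σ → K} {q : H → τ → K}
  {g g' : ℕ}

theorem dm_univ (hp : ∀ t, p t ≠ 0) : dm p univ = (pL (bs p hp)).totalDegree :=
  eq_of_forall_ge_iff fun n => by rw [dm_le_iff hp, pL_univ (bs p hp), dg_iff]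

theorem pL_sg (hp : ∀ t, p t ≠ 0) (hq : ∀ t, q t ≠ 0) :
    pL (bs (sg p q) (sg_ne hp hq)) = pL (bs p hp) * pL (bs q hq) := by
  obtain ⟨N, hN⟩ := evP_pL (prodB (bs p hp) (bs q hq))
  refine (evP_pL _).unique ⟨N, fun d hd => ?_⟩
  have := hN (fun _ => d ()) fun _ => hd ()
  rw [pL_prod, map_mul, evN_rename, evN_rename] at this
  have e : pc (prodB (bs p hp) (bs q hq)) (fun _ => d ()) = pc (bs (sg p q) (sg_ne hp hq)) d := by
    rw [pc_sg, ← mul_pow, ← crd_sg, Pp.pc_unit]; rfl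
  simp only [map_mul]
  rw [← e]
  exact this

variable [AddCommGroup G] [AddCommGroup H]

theorem pL_ne (h : AV p g) : pL (bs p h.ne) ≠ 0 := fun e =>
  h.top ((mix_self (bs p h.ne) fun _ : Fin g => ()).trans (by rw [e, map_zero]))

theorem av_prod [Infinite K] (h : AV p g) (h' : AV q g') : AV (sg p q) (g + g') := by
  have n := sg_ne h.ne h'.ne
  refine ⟨n, sg_cl h.cl h'.cl, (dom_iff n).1
    ⟨⟨0⟩, (h.src.prod h'.src).dom.of_reg fun _ => reg_sg' h.ne h'.ne⟩, ?_, ?_⟩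
  · rw [dm_univ n, pL_sg h.ne h'.ne, totalDegree_mul_of_isDomain (pL_ne h) (pL_ne h'),
      ← dm_univ, ← dm_univ, h.dim, h'.dim]
  · have a1 : RegM (bs _ n) (bs p h.ne) Prod.fst :=
      fun _ => reg_sg h.ne h'.ne (Reg.self (prodB (bs p h.ne) (bs q h'.ne)) (.inl ()))
    have a2 : RegM (bs _ n) (bs q h'.ne) Prod.snd :=
      fun _ => reg_sg h.ne h'.ne (Reg.self (prodB (bs p h.ne) (bs q h'.ne)) (.inr ()))
    have a3 := (((a1.prodMap a1).comp fun _ => h.sub').pair
      ((a2.prodMap a2).comp fun _ => h'.sub')).pull (reg_sg' h.ne h'.ne)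
    let B : Fin 2 → LS K ((G × H) × G × H) :=
      ![(LS.co _ n).pb Prod.fst, (LS.co _ n).pb Prod.snd]
    have a4 := Rg.reg.2 (Reg.trans (B := B) (fun k => by
      rcases k with k | k
      exacts [Reg.self B 0, Reg.self B 1]) a3)
    have e : (fun i => (B i).sp) = ![crd fun t : (G × H) × G × H => sg p q t.1,
        crd fun t => sg p q t.2] := by
      funext i
      fin_cases i <;> simp [B, LS.pb_co] <;> rfl
    rw [e, LS.pb_co] at a4
    exact a4

omit [Fintype σ] [Fintype τ] [AddCommGroup G] [AddCommGroup H] in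
theorem sg_frob {F : G → G} {F' : H → H} {n : ℕ} (h : ∀ y, Par (p (F y)) (p y ^ n))
    (h' : ∀ y, Par (q (F' y)) (q y ^ n)) (t : G × H) :
    Par (sg p q (F t.1, F' t.2)) (sg p q t ^ n) := by
  obtain ⟨c, hc, e⟩ := h t.1
  obtain ⟨c', hc', e'⟩ := h' t.2
  refine ⟨c * c', hc.mul hc', funext fun l => ?_⟩
  simp only [sg, e, e', Pi.smul_apply, Pi.pow_apply, smul_eq_mul, mul_pow]
  ring

/-- the hypotheses of the theorem, in dimension `g` -/
def Hyp (K : Type) [Field K] (n g : ℕ) : Prop :=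
  ∃ (G τ : Type) (_ : AddCommGroup G) (_ : Fintype τ) (p : G → τ → K) (F : G →+ G),
    AV p g ∧ (∀ y y', Par (p y) (p y') → y = y') ∧ ∀ y, Par (p (F y)) (p y ^ n)

theorem Hyp.add [Infinite K] {n : ℕ} (h : Hyp K n g) (h' : Hyp K n g') : Hyp K n (g + g') := by
  obtain ⟨G, σ, _, _, p, F, h1, h2, h3⟩ := h
  obtain ⟨H, τ, _, _, q, F', h4, h5, h6⟩ := h'
  exact ⟨G × H, σ × τ, inferInstance, inferInstance, sg p q, F.prodMap F', av_prod h1 h4,
    sg_inj h1.ne h4.ne h2 h5, sg_frob h3 h6⟩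

theorem Hyp.pow [Infinite K] {n : ℕ} (h : Hyp K n 1) (g : ℕ) : Hyp K n (g + 1) := by
  induction g with
  | zero => exact h
  | succ g ih => exact ih.add h

end Pool.Agent.Tav.Tt
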