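import Pool.Agent.P.MP_2ce3e7_ag.Tav.TtD
import Pool.Agent.P.MP_2ce3e7_ag.Tav.TtE
import Pool.Agent.P.MP_2ce3e7_ag.Tav.TtF
import Pool.Agent.P.MP_2ce3e7_ag.Tav.TtK
import Pool.Agent.P.MP_2ce3e7_ag.Tav.TtP

/-! The same facts in elementary terms, and abelian varieties of every positive dimension over
every finite field. -/

set_option autoImplicit false

namespace Pool.Agent.Tav.Tt

open WeierstrassCurve

theorem elliptic (k : Type) [Field k] [Fintype k] [DecidableEq (AlgebraicClosure k)] (W : Affine k)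
    [W.IsElliptic] : ∃ (p : (W.baseChange (AlgebraicClosure k)).Point → Fin 3 → AlgebraicClosure k)
      (F : (W.baseChange (AlgebraicClosure k)).Point →+ (W.baseChange (AlgebraicClosure k)).Point),
      p 0 = ![0, 1, 0] ∧ (∀ x y h, p (.some x y h) = ![x, y, 1]) ∧ AV p 1 ∧
        (∀ y y', Par (p y) (p y') → y = y') ∧ ∀ y, Par (p (F y)) (p y ^ Fintype.card k) := by
  obtain ⟨F, hF⟩ := ec_frob k W
  have : (W.baseChange (AlgebraicClosure k)).IsElliptic :=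
    inferInstanceAs (W.map (algebraMap k (AlgebraicClosure k))).IsElliptic
  obtain ⟨h1, h2⟩ := ec_av (W.baseChange (AlgebraicClosure k))
  exact ⟨ec, F, rfl, fun _ _ _ => rfl, h1, h2, hF⟩

theorem hyp (k : Type) [Field k] [Fintype k] (g : ℕ) :
    Hyp (AlgebraicClosure k) (Fintype.card k) (g + 1) := by
  classical
  obtain ⟨p, F, -, -, h⟩ := elliptic k (ofJ (0 : k))
  exact Hyp.pow ⟨_, _, inferInstance, inferInstance, p, F, h⟩ g

theorem mem_range {k : Type} [Field k] [Fintype k] {x : AlgebraicClosure k}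
    (h : x ^ Fintype.card k = x) : ∃ c, algebraMap k (AlgebraicClosure k) c = x :=
  Polynomial.Splits.mem_range_of_isRoot (f := Polynomial.X ^ Fintype.card k - Polynomial.X)
    (by simpa using (FiniteField.isSplittingField_sub k k).splits')
    (FiniteField.X_pow_card_sub_X_ne_zero k Fintype.one_lt_card) (by simp [h])

theorem cubic (k : Type) [Field k] [Fintype k] (a b : ℕ → AlgebraicClosure k)
    (ha : a ^ Fintype.card k = a) (h2 : b 2 = a 1 ^ 2 + 4 * a 2) (h4 : b 4 = 2 * a 4 + a 1 * a 3)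
    (h6 : b 6 = a 3 ^ 2 + 4 * a 6)
    (h8 : b 8 = a 1 ^ 2 * a 6 + 4 * a 2 * a 6 - a 1 * a 3 * a 4 + a 2 * a 3 ^ 2 - a 4 ^ 2)
    (hd : -b 2 ^ 2 * b 8 - 8 * b 4 ^ 3 - 27 * b 6 ^ 2 + 9 * b 2 * b 4 * b 6 ≠ 0) :
    ∃ (G : Type) (_ : AddCommGroup G) (p : G → Fin 3 → AlgebraicClosure k) (F : G →+ G),
      (∀ z, z ≠ 0 → ((∃ y, Par z (p y)) ↔
        z 1 ^ 2 * z 2 + a 1 * z 0 * z 1 * z 2 + a 3 * z 1 * z 2 ^ 2 =
          z 0 ^ 3 + a 2 * z 0 ^ 2 * z 2 + a 4 * z 0 * z 2 ^ 2 + a 6 * z 2 ^ 3)) ∧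
      p 0 = ![0, 1, 0] ∧ AV p 1 ∧ (∀ y y', Par (p y) (p y') → y = y') ∧
        ∀ y, Par (p (F y)) (p y ^ Fintype.card k) := by
  classical
  choose c hc using fun i => mem_range (congrFun ha i)
  let W : Affine k := ⟨c 1, c 2, c 3, c 4, c 6⟩
  have e : W.baseChange (AlgebraicClosure k) = ⟨a 1, a 2, a 3, a 4, a 6⟩ :=
    WeierstrassCurve.ext (hc 1) (hc 2) (hc 3) (hc 4) (hc 6)
  have : (W.baseChange (AlgebraicClosure k)).IsElliptic := ⟨IsUnit.mk0 _ (by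
    rw [e]; rwa [h2, h4, h6, h8] at hd)⟩
  obtain ⟨F, hF⟩ := ec_frob k W
  obtain ⟨h1, h3⟩ := ec_av (W.baseChange (AlgebraicClosure k))
  refine ⟨_, inferInstance, ec, F, fun z hz => ?_, rfl, h1, h3, hF⟩
  have h5 := Projective.equation_iff (W' := (W.baseChange (AlgebraicClosure k)).toProjective) z
  rw [sub_eq_zero] at h5
  refine Iff.trans ⟨?_, ec_pt _ hz⟩ (h5.trans (by rw [e]))
  rintro ⟨y, u, hu, rfl⟩
  exact (Projective.equation_smul _ hu).2 (ec_eq _ y)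

open MvPolynomial Set Filter

theorem hp_spec' {K T ι τ : Type} [Field K] [Fintype ι] [Fintype τ] (L : ι → Submodule K (T → K))
    (hL : ∀ i, ∃ x : T → τ → K, L i = crd x) (P : MvPolynomial ι ℚ) :
    P = hp L ↔ ∀ᶠ d : ι → ℕ in atTop, eval (fun i => (d i : ℚ)) P =
      Module.finrank K (∏ i, L i ^ d i : Submodule K (T → K)) :=
  hp_spec L (fun i => by
    obtain ⟨x, h⟩ := hL i
    rw [h]
    exact FiniteDimensional.span_of_finite K (finite_range _)) P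

variable {k G τ : Type} [Field k] [Fintype τ] {p : G → τ → AlgebraicClosure k} {Y W : Set G}

theorem chains (hp : ∀ x, p x ≠ 0)
    (hc : ∀ z ∈ zeroLocus (AlgebraicClosure k) (idl p), z ≠ 0 → ∃ x, Par z (p x)) (hY : Y.Nonempty)
    (n : ℕ) : n ≤ dm p Y ↔ ∃ Z : Fin (n + 1) → Set G, (∀ i i', i < i' → Z i ⊂ Z i') ∧ ∀ i,
      (∀ z ∈ Z i, p z ∈ zeroLocus (AlgebraicClosure k) (idl fun y : Y => p y)) ∧
      (idl fun z : Z i => p z).IsPrime ∧
      ∀ y, p y ∈ zeroLocus (AlgebraicClosure k) (idl fun z : Z i => p z) → y ∈ Z i := by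
  have h := dimension hp hc hY
  rw [← Nat.cast_le (α := WithBot ℕ∞), ← h, Order.le_krullDim_iff]
  refine ⟨?_, fun ⟨Z, h1, h2⟩ => ⟨LTSeries.mk n (fun i => ⟨Z i, h2 i⟩) fun i i' h => h1 i i' h, rfl⟩⟩
  rintro ⟨l, rfl⟩
  exact ⟨fun i => (l i).1, fun i i' h => l.strictMono h, fun i => (l i).2⟩

theorem comps' (hp : ∀ x, p x ≠ 0) (Y : Set G) : ∃ (m : ℕ) (Z : Fin m → Set G),
    range Z = {Z | (Z ⊆ Y ∧ (idl fun z : Z => p z).IsPrime) ∧
      ∀ Z', Z' ⊆ Y ∧ (idl fun z : Z' => p z).IsPrime → Z ⊆ Z' → Z' ⊆ Z} ∧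
    (∀ y ∈ Y, ∃ i, y ∈ Z i) ∧ ∀ i, dm p (Z i) ≤ dm p Y := by
  obtain ⟨h1, h2, h3⟩ := comps hp Y
  obtain ⟨m, Z, -, hZ⟩ := h1.fin_param
  refine ⟨m, Z, hZ, fun y hy => ?_, fun i => h3 _ (hZ.le ⟨i, rfl⟩).1.1⟩
  obtain ⟨_, h4, h5⟩ := h2.ge hy
  obtain ⟨i, rfl⟩ := hZ.ge h4
  exact ⟨i, h5⟩

theorem count [Fintype k] [AddCommGroup G] {j j' : ℕ} (h : AV p (j + j'))
    (hi : ∀ y y', Par (p y) (p y') → y = y')
    (hY : (idl fun y : Y => p y).IsPrime) (hW : (idl fun w : W => p w).IsPrime)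
    (dY : dm p Y ≤ j) (dW : dm p W ≤ j') :
    ∃ μ s n e : ℕ, μ ∣ Fintype.card k ^ s ∧ ∃ f ∈ crd p ^ e, f ≠ 0 ∧
      (∀ a, f a ≠ 0 → Nonempty (Fin n ≃
        {y // p y ∈ zeroLocus (AlgebraicClosure k) (idl fun y : Y => p y) ∧
          p (y - a) ∈ zeroLocus (AlgebraicClosure k) (idl fun w : W => p w)})) ∧
      pair p (j + j') Y W = μ * n * coeff (Finsupp.single 0 (j + j')) (hp ![crd p]) := by
  obtain ⟨s, n, e, f, f1, f0, h1, h2⟩ := pair_count h hi hY hW dY dW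
  obtain ⟨m, hq, hm⟩ := FiniteField.card k (ringChar k)
  have : ExpChar (AlgebraicClosure k) (ringChar k) := .prime hq
  refine ⟨_, s, n, e, ?_, f, f1, f0, fun a ha => ?_, by rw [h2, Nat.cast_pow]⟩
  · rw [ringExpChar.eq _ (ringChar k), hm]
    exact pow_dvd_pow_of_dvd (dvd_pow_self _ m.ne_zero) s
  · have key : ∀ S : Set G, S.encard = n → Nonempty (Fin n ≃ S) := fun S hS => by
      have := (finite_of_encard_eq_coe hS).to_subtype
      exact ⟨(Finite.equivFinOfCardEq (by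
        rw [Nat.card_coe_set_eq, ncard_def, hS, ENat.toNat_coe])).symm⟩
    exact key _ (h1 a ha)

end Pool.Agent.Tav.Tt
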