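import Pool.Agent.P.MP_2ce3e7_ag.Tav.TtB
import Pool.Agent.P.MP_2ce3e7_ag.Tav.TiCnt
import Pool.Agent.P.MP_2ce3e7_ag.Tav.KCore
import Pool.Agent.P.MP_2ce3e7_ag.Tav.CuMain

/-! What `hp` and `pair` are. -/

set_option autoImplicit false

noncomputable section

namespace Pool.Agent.Tav.Tt

open MvPolynomial Module Set Function Filter K0

variable {K T U σ τ : Type} [Field K]

theorem hp_spec {ι : Type} [Fintype ι] (L : ι → Submodule K (T → K))
    (hL : ∀ i, FiniteDimensional K (L i)) (P : MvPolynomial ι ℚ) :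
    P = hp L ↔ ∀ᶠ d : ι → ℕ in atTop, eval (fun i => (d i : ℚ)) P =
      finrank K (∏ i, L i ^ d i : Submodule K (T → K)) := by
  rw [hp_eq_pf, eventually_atTop]
  constructor
  · rintro rfl
    obtain ⟨N, h⟩ := evP_pf L
    exact ⟨fun _ => N, fun d hd => h d hd⟩
  · rintro ⟨a, h⟩
    exact EvP.unique ⟨Finset.univ.sup a, fun d hd => h d fun i =>
      (Finset.le_sup (Finset.mem_univ i)).trans (hd i)⟩ (evP_pf L)

theorem zl_map {q : T → σ → K} {q' : U → τ → K} (φ : σ → MvPolynomial τ K)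
    (h : ∀ (c : K) u, ∃ (c' : K) (t : T), (fun l => eval (c • q' u) (φ l)) = c' • q t) {z : τ → K}
    (hz : z ∈ zeroLocus K (idl q')) : (fun l => eval z (φ l)) ∈ zeroLocus K (idl q) := by
  have e : ∀ (w : τ → K) (F : MvPolynomial σ K),
      eval w (aeval φ F) = eval (fun l => eval w (φ l)) F := fun w F => by
    induction F using MvPolynomial.induction_on with
    | C c => simp
    | add a b ha hb => simp only [map_add, ha, hb]
    | mul_X a v ha => simp only [map_mul, ha, aeval_X, eval_X]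
  intro F hF
  change MvPolynomial.eval _ F = 0
  rw [← e]
  refine hz _ (Ver.mem_idl.2 fun c u => ?_)
  obtain ⟨c', t, ht⟩ := h c u
  rw [e, ht]
  exact Ver.mem_idl.1 hF _ _

theorem zl_smul {q : T → σ → K} {z : σ → K} (hz : z ∈ zeroLocus K (idl q)) (c : K) :
    c • z ∈ zeroLocus K (idl q) := by
  have := zl_map (q := q) (fun l => C c * X l)
    (fun a u => ⟨c * a, u, funext fun l => by simp [mul_assoc]⟩) hz
  simp only [map_mul, eval_C, eval_X] at this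
  exact this

/-- the Segre coordinates -/
def sg (p : T → σ → K) (q : U → τ → K) (t : T × U) (l : σ × τ) : K := p t.1 l.1 * q t.2 l.2

variable {p : T → σ → K} {q : U → τ → K}

theorem sg_ne (hp : ∀ t, p t ≠ 0) (hq : ∀ u, q u ≠ 0) (t : T × U) : sg p q t ≠ 0 := fun h => by
  obtain ⟨a, ha⟩ := ne_iff.1 (hp t.1)
  obtain ⟨b, hb⟩ := ne_iff.1 (hq t.2)
  exact mul_ne_zero ha hb (congrFun h (a, b))

theorem sg_inj (hp : ∀ t, p t ≠ 0) (hq : ∀ u, q u ≠ 0) (hi : ∀ t t', Par (p t) (p t') → t = t')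
    (hi' : ∀ t t', Par (q t) (q t') → t = t') (t t' : T × U) (h : Par (sg p q t) (sg p q t')) :
    t = t' := by
  obtain ⟨c, -, h⟩ := h
  have e : ∀ a b, p t.1 a * q t.2 b = c * (p t'.1 a * q t'.2 b) := fun a b => congrFun h (a, b)
  obtain ⟨a, ha⟩ := ne_iff.1 (hp t.1)
  obtain ⟨b, hb⟩ := ne_iff.1 (hq t.2)
  refine Prod.ext (hi _ _ (Fib.par_of_minors (hp _) (hp _) fun x y => mul_left_cancel₀ hb ?_))
    (hi' _ _ (Fib.par_of_minors (hq _) (hq _) fun x y => mul_left_cancel₀ ha ?_))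
  · linear_combination p t'.1 y * e x b - p t'.1 x * e y b
  · linear_combination q t'.2 y * e a x - q t'.2 x * e a y

theorem sg_cl (hp : ∀ z ∈ zeroLocus K (idl p), z ≠ 0 → ∃ t, Par z (p t))
    (hq : ∀ z ∈ zeroLocus K (idl q), z ≠ 0 → ∃ t, Par z (q t)) :
    ∀ z ∈ zeroLocus K (idl (sg p q)), z ≠ 0 → ∃ t, Par z (sg p q t) := by
  intro z hz h0
  obtain ⟨⟨a, b⟩, h1⟩ := ne_iff.1 h0
  have h1 : z (a, b) ≠ 0 := h1
  obtain ⟨t, c, hc, e⟩ := hp _ (zl_map (fun l => X (l, b)) (fun c u => ⟨c * q u.2 b, u.1,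
    funext fun l => by simp only [eval_X, Pi.smul_apply, smul_eq_mul, sg]; ring⟩) hz)
    fun e => h1 (by simpa using congrFun e a)
  obtain ⟨u, c', hc', e'⟩ := hq _ (zl_map (fun l => X (a, l)) (fun c u => ⟨c * p u.1 a, u.2,
    funext fun l => by simp only [eval_X, Pi.smul_apply, smul_eq_mul, sg]; ring⟩) hz)
    fun e => h1 (by simpa using congrFun e b)
  refine ⟨(t, u), (z (a, b))⁻¹ * (c * c'), (IsUnit.mk0 _ (inv_ne_zero h1)).mul (hc.mul hc'),
    funext fun l => mul_left_cancel₀ h1 ?_⟩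
  have h2 := hz (X (a, b) * X l - X (l.1, b) * X (a, l.2)) (Ver.mem_idl.2 fun c u => by
    simp only [map_sub, map_mul, eval_X, Pi.smul_apply, smul_eq_mul, sg]; ring)
  have h3 := congrFun e l.1
  have h4 := congrFun e' l.2
  simp only [map_sub, map_mul, aeval_X, eval_X, Pi.smul_apply, smul_eq_mul] at h2 h3 h4
  simp only [Pi.smul_apply, smul_eq_mul, sg, mul_assoc, mul_inv_cancel_left₀ h1]
  rw [sub_eq_zero.1 h2, h3, h4]
  ring

theorem crd_sg : crd (sg p q) = crd (fun t : T × U => p t.1) * crd fun t : T × U => q t.2 := by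
  rw [crd, crd, crd, Submodule.span_mul_span]
  congr 1
  ext f
  exact ⟨fun ⟨l, h⟩ => ⟨_, ⟨l.1, rfl⟩, _, ⟨l.2, rfl⟩, h⟩, by
    rintro ⟨_, ⟨a, rfl⟩, _, ⟨b, rfl⟩, rfl⟩
    exact ⟨(a, b), rfl⟩⟩

variable [Fintype σ] [Fintype τ]

theorem pc_sg (hp : ∀ t, p t ≠ 0) (hq : ∀ u, q u ≠ 0) (e : Unit ⊕ Unit → ℕ) :
    pc (prodB (bs p hp) (bs q hq)) e =
      crd (fun t : T × U => p t.1) ^ e (.inl ()) * crd (fun t : T × U => q t.2) ^ e (.inr ()) := by
  rw [pc, Fintype.prod_sum_type, Fintype.prod_unique, Fintype.prod_unique]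
  simp only [prodB, Sum.elim_inl, Sum.elim_inr, LS.pb_co]
  rfl

theorem reg_sg (hp : ∀ t, p t ≠ 0) (hq : ∀ u, q u ≠ 0) {V : LS K (T × U)}
    (h : Reg (prodB (bs p hp) (bs q hq)) V) : Reg (bs (sg p q) (sg_ne hp hq)) V := fun t => by
  obtain ⟨e, c, hc, h⟩ := h t
  obtain ⟨a, ha⟩ := ne_iff.1 (hp t.1)
  obtain ⟨b, hb⟩ := ne_iff.1 (hq t.2)
  refine ⟨fun _ => e (.inr ()) + e (.inl ()), (fun t : T × U => p t.1 a) ^ e (.inr ()) *
    (fun t : T × U => q t.2 b) ^ e (.inl ()) * c,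
    mul_ne_zero (mul_ne_zero (pow_ne_zero _ ha) (pow_ne_zero _ hb)) hc, fun u hu => ?_⟩
  have := Submodule.mul_mem_mul (Submodule.mul_mem_mul
    (Submodule.pow_mem_pow _ (Fib.mem_crd (fun t : T × U => p t.1) a) (e (.inr ())))
    (Submodule.pow_mem_pow _ (Fib.mem_crd (fun t : T × U => q t.2) b) (e (.inl ())))) (h u hu)
  rw [pc_sg, mul_mul_mul_comm (crd _ ^ _), ← pow_add, ← pow_add, add_comm (e (.inl ())),
    ← mul_pow, ← crd_sg, ← mul_assoc] at this
  rw [Pp.pc_unit]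
  exact this

theorem reg_sg' (hp : ∀ t, p t ≠ 0) (hq : ∀ u, q u ≠ 0) :
    Reg (prodB (bs p hp) (bs q hq)) (LS.co (sg p q) (sg_ne hp hq)) := fun _ =>
  ⟨fun _ => 1, 1, one_ne_zero, fun u hu => by
    rw [one_mul, pc_sg, pow_one, pow_one, ← crd_sg]; exact hu⟩

theorem dom_iff [Infinite K] (hp : ∀ t, p t ≠ 0) :
    Nonempty T ∧ Dom (bs p hp) ↔ (idl p).IsPrime := by
  refine ⟨fun ⟨_, h⟩ => Cu.idl_prime fun a b f hf g hg => h (fun _ => a) (fun _ => b) f
    (by rwa [Pp.pc_unit]) g (by rwa [Pp.pc_unit]), fun h => ⟨?_, fun a b f hf f' hf' h0 => ?_⟩⟩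
  · by_contra hn
    exact h.ne_top ((Ideal.eq_top_iff_one _).2 (Ver.mem_idl.2 fun _ t => absurd ⟨t⟩ hn))
  · obtain ⟨F, h1, h2⟩ := form_of_pc hp hf
    obtain ⟨F', h1', h2'⟩ := form_of_pc hp hf'
    have hm : F * F' ∈ idl p := Ver.mem_idl.2 fun c t => by
      have := congrFun h0 t
      rw [Pi.mul_apply, Pi.zero_apply] at this
      rw [map_mul, h2, h2', mul_mul_mul_comm, this, mul_zero]
    refine (h.mem_or_mem hm).imp (fun e => funext fun t => ?_) fun e => funext fun t => ?_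
    · rw [← h1]
      exact e _ ⟨1, t, (one_smul _ _).symm⟩
    · rw [← h1']
      exact e _ ⟨1, t, (one_smul _ _).symm⟩

theorem res_bs (hp : ∀ t, p t ≠ 0) (Z : Set T) :
    res (bs p hp) Z = bs (fun z : Z => p z) fun z => hp z := funext fun _ => LS.pb_co _ _ _

theorem irr_iff' [Infinite K] (hp : ∀ t, p t ≠ 0) (Z : Set T) :
    Irr (bs p hp) Z ↔ (idl fun z : Z => p z).IsPrime := by
  rw [irr_iff, res_bs, dom_iff]

end Pool.Agent.Tav.Tt
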