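import Pool.Agent.P.MP_2ce3e7_ag.Tav.TtC

/-! The pairing is the degree of the difference map, and counts the points of a general translate. -/

set_option autoImplicit false

noncomputable section

namespace Pool.Agent.Tav.Tt

open MvPolynomial Module Set Function Filter K0

variable {K G τ : Type} [Field K] [AddCommGroup G] [Fintype τ] {p : G → τ → K} {j j' g : ℕ}
  {Y W : Set G}

theorem iso (h : AV p g) : Iso (Fin g) (bs p h.ne) (LS.co p h.ne) (bs p h.ne) (AddMonoidHom.id G)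
    (AddMonoidHom.id G) 1 :=
  ⟨by rw [Fintype.card_fin]; exact h.src, Reg.self (bs p h.ne) (), h.top, fun _ => h.sub',
    RegM.id _, RegM.id _, one_ne_zero, fun _ => (one_smul _ _).symm⟩

theorem mix_top (h : AV p g) : mix (bs p h.ne) (fun _ : Fin g => LS.co p h.ne) =
    g.factorial * coeff (Finsupp.single 0 g) (hp ![crd p]) := by
  have e1 := mix_self (bs p h.ne) fun _ : Fin g => ()
  have e2 := nc_pL_comp (fun _ : Fin 1 => LS.co p h.ne) (g := fun _ : Unit => 0)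
    (fun i => ⟨(), Subsingleton.elim _ _⟩) (Finsupp.single () g)
  have e3 : pL (fun _ : Fin 1 => LS.co p h.ne) = hp ![crd p] := by
    rw [hp_eq_pf, pL]
    congr 1
    funext i
    rw [Subsingleton.elim i 0]
    rfl
  rw [Pp.sum_single] at e1
  rw [Finsupp.mapDomain_single, e3, Pp.nc_single g (0 : Fin 1)] at e2
  exact e1.trans e2

theorem deg_pos (h : AV p g) : 0 < coeff (Finsupp.single 0 g) (hp ![crd p]) := by
  have h1 := (Pp.mix_nonneg _ h.src).lt_of_ne h.top.symm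
  rw [mix_top h] at h1
  exact (pos_iff_pos_of_mul_pos h1).1 (Nat.cast_pos.2 g.factorial_pos)

theorem pair_of (h : AV p (j + j')) (sY : Src (res (bs p h.ne) Y) j)
    (sW : Src (res (bs p h.ne) W) j') {r : ℚ}
    (e : mix (prodB (res (bs p h.ne) Y) (res (bs p h.ne) W))
      (fun _ : Fin (j + j') => (LS.co p h.ne).pb fun t : Y × W => t.1.1 - t.2.1) =
      r * mix (bs p h.ne) fun _ : Fin (j + j') => LS.co p h.ne) :
    pair p (j + j') Y W = r * coeff (Finsupp.single 0 (j + j')) (hp ![crd p]) := by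
  rw [pair_eq h.ne, (iso h).pr_mix (Fintype.card_fin _).symm sY sW, e, mix_top h, mul_left_comm,
    inv_mul_cancel_left₀ (Nat.cast_ne_zero.2 (Nat.factorial_ne_zero _))]

theorem src_of [Infinite K] (hp : ∀ x, p x ≠ 0) (hY : (idl fun y : Y => p y).IsPrime)
    (dY : dm p Y ≤ j) : Src (res (bs p hp) Y) j :=
  src_of_irr ((irr_iff' hp Y).2 hY) ((dm_le_iff hp Y j).1 dY)

theorem deg_core (h : AV p (j + j')) (sY : Src (res (bs p h.ne) Y) j)
    (sW : Src (res (bs p h.ne) W) j') : ∃ r : ℕ,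
    pair p (j + j') Y W = r * coeff (Finsupp.single 0 (j + j')) (hp ![crd p]) ∧
    (¬ (∀ e : ℕ, ∀ f ∈ crd p ^ e, (∀ t : Y × W, f (t.1 - t.2) = 0) → f = 0) → r = 0) ∧
    ((∀ e : ℕ, ∀ f ∈ crd p ^ e, (∀ t : Y × W, f (t.1 - t.2) = 0) → f = 0) → ∃ N, ∀ m, N ≤ m →
      IsRk (fun e : ℕ => crd (fun t : Y × W => p (t.1 - t.2)) ^ e)
        (crd (fun t : Y × W => p t.1) ^ m * crd (fun t : Y × W => p t.2) ^ m) r) := by
  obtain ⟨r, h1, h2, h3⟩ := mix_mul' (sY.prod sW) h.src _ ((iso h).regd Y W)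
  have hd : Dense (fun t : Y × W => t.1.1 - t.2.1) (bs p h.ne) ↔
      ∀ e : ℕ, ∀ f ∈ crd p ^ e, (∀ t : Y × W, f (t.1 - t.2) = 0) → f = 0 :=
    ⟨fun hd e f hf h0 => hd (fun _ => e) f (by rwa [Pp.pc_unit]) (funext h0),
      fun hd e f hf h0 => hd (e ()) f (by rwa [Pp.pc_unit] at hf) (congrFun h0)⟩
  refine ⟨r, pair_of h sY sW (h3 _ _ (by simp) fun _ => Reg.self _ ()), fun hn => h1 (hd.not.2 hn),
    fun hn => ?_⟩
  obtain ⟨-, N, hN⟩ := h2 (hd.2 hn) (Cnt.not_dg h.src (by simp) (fun _ => Reg.self _ ()) h.top)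
  refine ⟨N, fun m hm => ?_⟩
  have hW : ((LS.co p h.ne).pb fun t : Y × W => t.1.1 - t.2.1).sp =
      crd fun t : Y × W => p (t.1 - t.2) := by rw [LS.pb_co]; rfl
  obtain ⟨u, u1, u2, u3⟩ := hN (fun _ => m) fun _ => hm
  rw [res_bs, res_bs, pc_sg] at u1 u3
  refine ⟨u, u1, fun a g hg => u2 (fun _ => a) g fun i => by rw [Pp.pc_unit, hW]; exact hg i,
    fun x hx => ?_⟩
  obtain ⟨e, f, f1, f2⟩ := u3 x hx
  rw [Pp.pc_unit, hW] at f1 f2
  exact ⟨e (), f, f1, f2⟩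

theorem count_closed [IsAlgClosed K] (h : AV p (j + j'))
    (hi : ∀ y y', Par (p y) (p y') → y = y') (sY : Src (res (bs p h.ne) Y) j)
    (sW : Src (res (bs p h.ne) W) j')
    (cY : ∀ z ∈ zeroLocus K (idl fun y : Y => p y), z ≠ 0 → ∃ y : Y, Par z (p y))
    (cW : ∀ z ∈ zeroLocus K (idl fun y : W => p y), z ≠ 0 → ∃ y : W, Par z (p y)) :
    ∃ s n e : ℕ, ∃ f ∈ crd p ^ e, f ≠ 0 ∧ (∀ a, f a ≠ 0 → {y | y ∈ Y ∧ y - a ∈ W}.encard = n) ∧
      pair p (j + j') Y W =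
        ringExpChar K ^ s * n * coeff (Finsupp.single 0 (j + j')) (hp ![crd p]) := by
  obtain ⟨r, h1, h2, h3⟩ := deg_core h sY sW
  by_cases hd : ∀ e : ℕ, ∀ f ∈ crd p ^ e, (∀ t : Y × W, f (t.1 - t.2) = 0) → f = 0
  swap
  · rw [h2 hd] at h1
    push Not at hd
    obtain ⟨e, f, f1, f2, f0⟩ := hd
    refine ⟨0, 0, e, f, f1, f0, fun a ha => ?_, by simpa using h1⟩
    rw [Nat.cast_zero, encard_eq_zero, eq_empty_iff_forall_notMem]
    exact fun y hy => ha (by simpa using f2 (⟨y, hy.1⟩, ⟨_, hy.2⟩))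
  obtain ⟨N, hN⟩ := h3 hd
  have n1 : ∀ y : Y, p y ≠ 0 := fun y => h.ne y
  have n2 : ∀ y : W, p y ≠ 0 := fun y => h.ne y
  have hj := (iso h).regd Y W ()
  have hD := (sY.prod sW).dom
  rw [res_bs, res_bs] at hj hD
  have hW : ((LS.co p h.ne).pb fun t : Y × W => t.1.1 - t.2.1).sp =
      crd fun t : Y × W => p (t.1 - t.2) := by rw [LS.pb_co]; rfl
  have : Nonempty (Y × W) := (sY.prod sW).ne
  have e : ∀ a b : ℕ, pc (Sum.elim (fun _ : Unit => LS.co _ (sg_ne n1 n2))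
      fun _ : Unit => (LS.co p h.ne).pb fun t : Y × W => t.1.1 - t.2.1)
        (Sum.elim (fun _ => a) fun _ => b) = crd (sg (fun y : Y => p y) fun y : W => p y) ^ a *
          crd (fun t : Y × W => p (t.1 - t.2)) ^ b := fun a b => by
    rw [pc, Fintype.prod_sum_type, Fintype.prod_unique, Fintype.prod_unique, ← hW]
    rfl
  obtain ⟨s, n, e, hr, f, f1, f0, hf⟩ := gen_cnt (sg_ne n1 n2) (sg_inj n1 n2
    (fun a b e => Subtype.ext (hi _ _ e)) fun a b e => Subtype.ext (hi _ _ e)) h.ne hi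
    (sg_cl cY cW) (fun t : Y × W => t.1.1 - t.2.1) (fun t => by
      obtain ⟨e, c, hc, H⟩ := reg_sg n1 n2 hj t
      refine ⟨e (), c, hc, fun k => ?_⟩
      have := H _ (hW ▸ Fib.mem_crd (fun t : Y × W => p (t.1 - t.2)) k)
      rwa [Pp.pc_unit] at this)
    (fun a b a' b' f hf g hg => hD.of_reg (fun k => by
      rcases k with k | k
      exacts [reg_sg' n1 n2, hj]) _ _ f (e a b ▸ hf) g (e a' b' ▸ hg))
    hd (N := N) (r := r) fun m hm => by rw [crd_sg, mul_pow]; exact hN m hm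
  refine ⟨s, n, e, f, f1, f0, fun a ha => ?_, by rw [h1, hr]; push_cast; rfl⟩
  have hb : BijOn (fun t : Y × W => t.1.1) {t | t.1.1 - t.2.1 = a} {y | y ∈ Y ∧ y - a ∈ W} :=
    ⟨fun t ht => ⟨t.1.2, by simp [← ht.out]⟩, fun t ht t' ht' e => Prod.ext (Subtype.ext e)
      (Subtype.ext (sub_right_injective ((ht.out.trans ht'.out.symm).trans
        (congrArg (· - t'.2.1) e.symm)))),
      fun y hy => ⟨(⟨y, hy.1⟩, ⟨y - a, hy.2⟩), sub_sub_cancel _ _, rfl⟩⟩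
  rw [← hf a ha, ← hb.injOn.encard_image, hb.image_eq]

omit [AddCommGroup G] in
theorem zc_sub (hp : ∀ x, p x ≠ 0) (Y : Set G) :
    Y ⊆ {y | p y ∈ zeroLocus K (idl fun y : Y => p y)} ∧
      {y | p y ∈ zeroLocus K (idl fun y : Y => p y)} ⊆ cl (bs p hp) Y := by
  refine ⟨fun y hy F hF => hF _ ⟨1, ⟨y, hy⟩, (one_smul _ _).symm⟩, fun y hy d f hf h0 => ?_⟩
  obtain ⟨F, h1, h2⟩ := form_of_pc hp hf
  rw [← h1]
  exact hy F (Ver.mem_idl.2 fun c t => by rw [h2, h0 _ t.2, mul_zero])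

omit [Fintype τ] in
theorem zc_cl (h : AV p g) (Y : Set G) : ∀ z ∈ zeroLocus K
    (idl fun y : {y | p y ∈ zeroLocus K (idl fun y : Y => p y)} => p y), z ≠ 0 →
      ∃ y : {y | p y ∈ zeroLocus K (idl fun y : Y => p y)}, Par z (p y) := by
  intro z hz h0
  obtain ⟨x, c, hc, e⟩ := h.cl z (fun F hF => hz F fun _ ⟨c, t, e⟩ => hF _ ⟨c, t.1, e⟩) h0
  refine ⟨⟨x, fun F hF => ?_⟩, c, hc, e⟩
  have h1 := zl_smul hz c⁻¹
  rw [e, smul_smul, inv_mul_cancel₀ hc.ne_zero, one_smul] at h1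
  exact h1 F (Ver.mem_idl.2 fun a t => zl_smul t.2 a F hF)

theorem pair_between (h : AV p g) (n : ℕ) {Y' W' : Set G} (h1 : Y ⊆ Y')
    (h2 : Y' ⊆ cl (bs p h.ne) Y) (h3 : W ⊆ W') (h4 : W' ⊆ cl (bs p h.ne) W) :
    pair p n Y W = pair p n Y' W' := by
  have := (((dense_incl h1 h2).prod (dense_incl h3 h4)).ext
    (W := fam (bs p h.ne) (LS.co p h.ne) Y' W') fun k => by
      rcases k with k | k
      exacts [Reg.self _ k, ((iso h).regd Y' W').pull (iso h).regV]).pL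
  rw [pair_eq h.ne, pair_eq h.ne, pr, pr, ← this, fam_pb]

theorem closure (h : AV p g) (n : ℕ) (Y W : Set G) :
    dm p {y | p y ∈ zeroLocus K (idl fun y : Y => p y)} = dm p Y ∧
    pair p n {y | p y ∈ zeroLocus K (idl fun y : Y => p y)}
      {w | p w ∈ zeroLocus K (idl fun w : W => p w)} = pair p n Y W := by
  obtain ⟨a1, a2⟩ := zc_sub h.ne Y
  obtain ⟨b1, b2⟩ := zc_sub h.ne W
  refine ⟨eq_of_forall_ge_iff fun m => ?_, (pair_between h n a1 a2 b1 b2).symm⟩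
  rw [dm_le_iff h.ne, dm_le_iff h.ne]
  exact (congrArg (Dg · m) (pL_between a1 a2)).symm.to_iff

theorem pair_count [IsAlgClosed K] (h : AV p (j + j')) (hi : ∀ y y', Par (p y) (p y') → y = y')
    (hY : (idl fun y : Y => p y).IsPrime) (hW : (idl fun w : W => p w).IsPrime)
    (dY : dm p Y ≤ j) (dW : dm p W ≤ j') :
    ∃ s n e : ℕ, ∃ f ∈ crd p ^ e, f ≠ 0 ∧
      (∀ a, f a ≠ 0 → {y | p y ∈ zeroLocus K (idl fun y : Y => p y) ∧
        p (y - a) ∈ zeroLocus K (idl fun w : W => p w)}.encard = n) ∧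
      pair p (j + j') Y W =
        ringExpChar K ^ s * n * coeff (Finsupp.single 0 (j + j')) (hp ![crd p]) := by
  have sY := src_of h.ne hY dY
  have sW := src_of h.ne hW dW
  obtain ⟨a1, a2⟩ := zc_sub h.ne Y
  obtain ⟨b1, b2⟩ := zc_sub h.ne W
  rw [pair_between h _ a1 a2 b1 b2]
  exact count_closed h hi (between a1 a2 sY).1 (between b1 b2 sW).1 (zc_cl h Y) (zc_cl h W)

theorem pair_degree [Infinite K] (h : AV p (j + j'))
    (hY : (idl fun y : Y => p y).IsPrime) (hW : (idl fun w : W => p w).IsPrime)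
    (dY : dm p Y ≤ j) (dW : dm p W ≤ j')
    (hd : ∀ e : ℕ, ∀ f ∈ crd p ^ e, (∀ t : Y × W, f (t.1 - t.2) = 0) → f = 0) :
    ∃ r : ℕ, pair p (j + j') Y W = r * coeff (Finsupp.single 0 (j + j')) (hp ![crd p]) ∧
      ∀ᶠ m : ℕ in atTop, ∃ u : Fin r → Y × W → K,
        (∀ i, u i ∈ crd (fun t : Y × W => p t.1) ^ m * crd (fun t : Y × W => p t.2) ^ m) ∧
        (∀ (e : ℕ) (c : Fin r → Y × W → K), (∀ i, c i ∈ crd (fun t : Y × W => p (t.1 - t.2)) ^ e) →
          ∑ i, c i * u i = 0 → ∀ i, c i = 0) ∧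
        ∀ x ∈ crd (fun t : Y × W => p t.1) ^ m * crd (fun t : Y × W => p t.2) ^ m,
          ∃ e : ℕ, ∃ f ∈ crd (fun t : Y × W => p (t.1 - t.2)) ^ e, f ≠ 0 ∧
            f * x ∈ Submodule.span K (range u) * crd (fun t : Y × W => p (t.1 - t.2)) ^ e := by
  obtain ⟨r, h1, -, h3⟩ := deg_core h (src_of h.ne hY dY) (src_of h.ne hW dW)
  exact ⟨r, h1, eventually_atTop.2 (h3 hd)⟩

theorem pair_add [Infinite K] (h : AV p (j + j')) (dY : dm p Y ≤ j) (dW : dm p W ≤ j') :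
    pair p (j + j') Y W =
      ∑ᶠ Z ∈ {Z | Maximal (fun Z => Z ⊆ Y ∧ (idl fun z : Z => p z).IsPrime) Z},
        ∑ᶠ V ∈ {V | Maximal (fun V => V ⊆ W ∧ (idl fun v : V => p v).IsPrime) V},
          pair p (j + j') Z V := by
  have e : ∀ Y : Set G, {Z | Maximal (fun Z => Z ⊆ Y ∧ (idl fun z : Z => p z).IsPrime) Z} =
      Cmp (bs p h.ne) Y := fun Y => by simp only [Cmp, irr_iff']
  rw [e, e, finsum_mem_eq_finite_toFinset_sum _ (cmp_finite _ _), pair_eq h.ne,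
    (iso h).pr_union ((dm_le_iff h.ne Y j).1 dY) ((dm_le_iff h.ne W j').1 dW), Finset.mul_sum]
  refine Finset.sum_congr rfl fun Z _ => ?_
  rw [finsum_mem_eq_finite_toFinset_sum _ (cmp_finite _ _), Finset.mul_sum]
  exact Finset.sum_congr rfl fun V _ => (pair_eq h.ne _ _ _).symm

theorem pair_zero (h : AV p g) (hd : dm p Y + dm p W < g) : pair p g Y W = 0 := by
  obtain ⟨j, rfl⟩ : ∃ j, g = j + dm p W := ⟨g - dm p W, by omega⟩
  have dY := (dm_le_iff h.ne Y _).1 le_rfl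
  have dW := (dm_le_iff h.ne W _).1 le_rfl
  rw [pair_eq h.ne, (iso h).pr_union ((dm_le_iff h.ne Y j).1 (by omega)) dW,
    Finset.sum_eq_zero fun Z hZ => Finset.sum_eq_zero fun V hV => ?_, mul_zero]
  refine nc_eq_zero.2 ((((cmp_src dY ((Set.Finite.mem_toFinset _).1 hZ)).prod
    (cmp_src dW ((Set.Finite.mem_toFinset _).1 hV))).ext
      fun _ => ((iso h).regd Z V).pull (iso h).regV).dg _ ?_)
  rw [Finsupp.degree_single]
  exact_mod_cast hd

omit [AddCommGroup G] in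
theorem comps [Infinite K] (hp : ∀ x, p x ≠ 0) (Y : Set G) :
    {Z | Maximal (fun Z => Z ⊆ Y ∧ (idl fun z : Z => p z).IsPrime) Z}.Finite ∧
    ⋃₀ {Z | Maximal (fun Z => Z ⊆ Y ∧ (idl fun z : Z => p z).IsPrime) Z} = Y ∧
    ∀ Z ⊆ Y, dm p Z ≤ dm p Y := by
  have e : {Z | Maximal (fun Z => Z ⊆ Y ∧ (idl fun z : Z => p z).IsPrime) Z} =
      Cmp (bs p hp) Y := by simp only [Cmp, irr_iff']
  rw [e]
  exact ⟨cmp_finite _ _, Subset.antisymm (sUnion_subset fun Z hZ => hZ.1.1)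
    fun t ht => cmp_cover _ _ ht, fun Z hZ =>
      (dm_le_iff hp Z _).2 (dg_mono (B := bs p hp) hZ ((dm_le_iff hp Y _).1 le_rfl))⟩

end Pool.Agent.Tav.Tt
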