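import Pool.Agent.P.MP_2ce3e7_ag.Tav.Main

set_option autoImplicit false

namespace Pool.Agent.Results.MP_2ce3e7_ag.AbelianTate

open Pool.Agent.Tav Function

/-- Strong Tate conjecture for an abelian variety `(G, p, F)` over the finite field `k` that is
isogenous to the special fibre of a model `X` with complex multiplication. -/
theorem result (k : Type) [Field k] [Fintype k] {G τ σ : Type} [AddCommGroup G] [Fintype τ]
    [Fintype σ] (j j' : ℕ) (p : G → τ → AlgebraicClosure k) (hA : AV p (j + j'))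
    (hi : ∀ y y', Par (p y) (p y') → y = y') (F : G →+ G)
    (hF : ∀ y, Par (p (F y)) (p y ^ Fintype.card k))
    (R : ValuationSubring ℂ) (r : R →+* AlgebraicClosure k) (hr : Surjective r)
    (X : Model r σ (j + j')) (ψ : G →+ X.B) (ψ' : X.B →+ G) (hψ : Mor p X.p ψ)
    (hψ' : Mor X.p p ψ') (ho : Surjective ψ') (m : ℕ) (hm : m ≠ 0) (hψψ : ∀ b, ψ (ψ' b) = m • b)
    (π : Fin (j + j') → ℂ) (hπ : π ∈ En X.Λ) (he : X.Eqv ψ F π)
    (h : (∀ i, R.valuation (star (π i)) = 1) ∨ X.Full (Fintype.card k)) :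
    Tate p F (Fintype.card k) j j' :=
  main k j j' p hA hi F hF R r hr X ψ ψ' hψ hψ' ho m hm hψψ π hπ he h

end Pool.Agent.Results.MP_2ce3e7_ag.AbelianTate
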