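import Pool.Agent.P.MP_2ce3e7_ag.Tav.CvAll
import Pool.Agent.P.MP_2ce3e7_ag.Tav.CvAVCov

set_option autoImplicit false

namespace Pool.Agent.Tav.VariantCurveImages

open Pool.Agent.Tav Pool.Agent

/-- Numerically trivial classes of vector bundles are torsion on every projective variety over a
finite field that is, over the algebraic closure, the image of a product of curves. -/
theorem result (k : Type) [Field k] [Fintype k] {τ : Type} [Fintype τ]
    (J : Ideal (MvPolynomial τ k))
    (h : Cov0 (J.map (MvPolynomial.map (algebraMap k (AlgebraicClosure k))))) :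
    CXD.NumTors k (CXD.hom J) (CXD.crd J) :=
  (Cv.out k J h).2.1

/-- Every abelian variety is the image of a product of curves. -/
theorem abelian {K G σ : Type} [Field K] [IsAlgClosed K] [AddCommGroup G] [Fintype σ]
    {p : G → σ → K} {g : ℕ} (h : AV p g) : Cov0 (idl p) :=
  AC.cov0_of_av h

/-- The case of an abelian variety with its Frobenius map. -/
theorem abelian_case (k : Type) [Field k] [Fintype k] {G τ : Type} [AddCommGroup G] [Fintype τ]
    (g : ℕ) (p : G → τ → AlgebraicClosure k) (hA : AV p g)
    (hi : ∀ y y', Par (p y) (p y') → y = y') (F : G → G)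
    (hF : ∀ y, Par (p (F y)) (p y ^ Fintype.card k)) :
    CXD.NumTors k (CXD.hom (Bav.idk k p)) (CXD.crd (Bav.idk k p)) :=
  result k _ ((Bav.p_Idk k p F hi hA.ne hF).1.symm ▸ abelian hA)

end Pool.Agent.Tav.VariantCurveImages
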