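import Pool.Agent.P.MP_2ce3e7_ag.Tav.CvAll

set_option autoImplicit false

namespace Pool.Agent.Tav.VariantCurveProductsParshin

open Pool.Agent.Tav Pool.Agent

/-- Vector bundles on the product with the boundary of a simplex are torsion modulo the relations,
for every projective variety over a finite field that is, over the algebraic closure, the image
of a product of curves. -/
theorem result (k : Type) [Field k] [Fintype k] {τ : Type} [Fintype τ]
    (J : Ideal (MvPolynomial τ k))
    (h : Cov0 (J.map (MvPolynomial.map (algebraMap k (AlgebraicClosure k))))) (s : ℕ)
    (hs : 0 < s) : CXD.Par k (CXD.Sph k s) (CXD.hom J) (CXD.crd J) :=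
  (Cv.out k J h).2.2 s hs

end Pool.Agent.Tav.VariantCurveProductsParshin
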