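import Pool.Agent.P.MP_2ce3e7_ag.Tav.CvAll

set_option autoImplicit false

namespace Pool.Agent.Tav.VariantCurveProductsTate

open Pool.Agent.Tav Pool.Agent

/-- The strong Tate conjecture for every smooth projective variety over a finite field that is,
over the algebraic closure, the image of a product of curves. -/
theorem result (k : Type) [Field k] [Fintype k] {τ : Type} [Fintype τ]
    (J : Ideal (MvPolynomial τ k))
    (h : Cov0 (J.map (MvPolynomial.map (algebraMap k (AlgebraicClosure k)))))
    (hs : ∀ i, Algebra.Smooth k ((MvPolynomial τ k ⧸ J) ⧸ Ideal.span {CXD.crd J i - 1})) (j : ℕ) :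
    CXD.Tate k (CXD.hom J) (CXD.crd J) j :=
  (Cv.out k J h).1 hs j

end Pool.Agent.Tav.VariantCurveProductsTate
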