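import Mathlib

/-! Multigraded modules on powers of the Fermat curve and their intersection pairing. -/

set_option autoImplicit false

noncomputable section

namespace Pool.Agent.TateX

open MvPolynomial TensorProduct

/-- Homogeneous coordinate ring of a power of the projective plane. -/
abbrev S (k ι : Type) [CommRing k] : Type := MvPolynomial (ι × Fin 3) k

/-- The Fermat equation in the `i`-th factor. -/
def fer (m : ℕ) (k : Type) [CommRing k] {ι : Type} (i : ι) : S k ι :=
  X (i, 0) ^ m + X (i, 1) ^ m - X (i, 2) ^ m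

/-- The multidegree of a variable. -/
def wt {ι : Type} (v : ι × Fin 3) : ι → ℤ := Set.indicator {v.1} 1

/-- The two by two minors that cut out the diagonal of the factors `i` and `j`. -/
def minor (k : Type) [CommRing k] {ι : Type} (i j : ι) (a : Fin 3) : S k ι :=
  X (i, a + 1) * X (j, a + 2) - X (i, a + 2) * X (j, a + 1)

/-- Finitely generated multigraded modules killed by the Fermat equations; the grading is given by
the projections `π d` onto the homogeneous components. -/
structure GM (m : ℕ) (k ι : Type) [Field k] where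
  M : Type
  [acg : AddCommGroup M]
  [modk : Module k M]
  [mod : Module (S k ι) M]
  [tower : IsScalarTower k (S k ι) M]
  fg : Module.Finite (S k ι) M
  π : (ι → ℤ) → M →ₗ[k] M
  π_self : ∀ d x, π d (π d x) = π d x
  π_ne : ∀ d e x, d ≠ e → π d (π e x) = 0
  sum_π : ∀ x, ∃ s : Finset (ι → ℤ), ∑ d ∈ s, π d x = x
  π_X : ∀ v d x, π (d + wt v) ((X v : S k ι) • x) = (X v : S k ι) • π d x
  fer_smul : ∀ (i : ι) (x : M), fer m k i • x = 0

attribute [instance] GM.acg GM.modk GM.mod GM.tower GM.fg

/-- The polynomial that agrees with `h` for all large `n`. -/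
def hp (h : ℕ → ℕ) : Polynomial ℚ :=
  Classical.epsilon fun P : Polynomial ℚ => ∀ᶠ n : ℕ in Filter.atTop, P.eval (n : ℚ) = (h n : ℚ)

variable {m : ℕ} {k ι κ : Type} [Field k]

/-- Action of the coordinate ring of the product on a tensor product. -/
def boxAct {V W : Type} [AddCommGroup V] [Module k V] [AddCommGroup W] [Module k W]
    (ρ : S k ι →ₐ[k] Module.End k V) (σ : S k κ →ₐ[k] Module.End k W) :
    S k (ι ⊕ κ) →ₐ[k] Module.End k (V ⊗[k] W) :=
  Module.endTensorEndAlgHom.comp ((Algebra.TensorProduct.map ρ σ).comp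
    (aeval fun v : (ι ⊕ κ) × Fin 3 => Sum.elim (fun i => (X (i, v.2) : S k ι) ⊗ₜ[k] (1 : S k κ))
      (fun i => (1 : S k ι) ⊗ₜ[k] (X (i, v.2) : S k κ)) v.1))

/-- The action of the coordinate ring on a module. -/
def GM.act (M : GM m k ι) : S k ι →ₐ[k] Module.End k M.M := Algebra.lsmul k k M.M

/-- Action of the coordinate ring of the product on the external tensor product. -/
def boxHom (M : GM m k ι) (N : GM m k κ) : S k (ι ⊕ κ) →ₐ[k] Module.End k (M.M ⊗[k] N.M) :=
  boxAct M.act N.act

/-- The relations presenting `V ⊗ I`, for the ideal `I` generated by the family `g` in the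
coordinate ring of the power of the Fermat curve. -/
def syz (m : ℕ) {A V : Type} [Fintype A] [AddCommGroup V] [Module k V] (g : A → S k ι)
    (ρ : S k ι →ₐ[k] Module.End k V) : Submodule k (A → V) :=
  Submodule.span k {ξ | ∃ (c : A → S k ι) (x : V),
    ∑ a, c a * g a ∈ Ideal.span (Set.range (fer m k)) ∧ ξ = fun a => ρ (c a) x}

/-- The value at `0` of the Hilbert polynomial of `V ⊗ I`, where `p n` projects `V` onto the
component that contributes to the `n`-th component of `V ⊗ I`. -/
def chiL (m : ℕ) {A V : Type} [Fintype A] [AddCommGroup V] [Module k V] (g : A → S k ι)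
    (ρ : S k ι →ₐ[k] Module.End k V) (p : ℕ → V →ₗ[k] V) : ℚ :=
  (hp fun n => Module.finrank k
    ((Submodule.pi Set.univ fun _ => LinearMap.range (p n)).map (syz m g ρ).mkQ)).eval 0

/-- The pairing `χ(M ⊗^L N)`, computed by the Koszul resolution of the diagonal: the alternating
sum over `T` of the Euler characteristics of `(M ⊠ N) ⊗ I_T`, with `I_T` the product of the ideals
of the diagonals of pairs of factors. -/
def pair [Fintype ι] [DecidableEq ι] (M N : GM m k ι) : ℚ :=
  ∑ T : Finset ι, (-1) ^ T.card *
    chiL m (fun α : ι → Fin 3 => ∏ i ∈ T, minor k (Sum.inl i) (Sum.inr i) (α i)) (boxHom M N)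
      fun n => TensorProduct.map (M.π fun i => if i ∈ T then (n : ℤ) - 1 else n)
        (N.π fun i => if i ∈ T then (n : ℤ) - 1 else n)

end Pool.Agent.TateX
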