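import Pool.Agent.P.MP_2ce3e7_ag.Tav.XInd
import Pool.Agent.P.MP_2ce3e7_ag.Tav.XPtsA

/-! Generic smoothness. -/

set_option autoImplicit false

noncomputable section

namespace Pool.Agent.TateX

open MvPolynomial

variable {K σ : Type} [Field K] [Fintype σ] {p : Ideal (MvPolynomial σ K)}

/-- `U` is a set of variables of maximal size that is independent modulo `p` -/
structure MaxInd (p : Ideal (MvPolynomial σ K)) (U : Finset σ) : Prop where
  ind : extc (U : Set σ) p = ⊥
  max : ∀ U' : Finset σ, extc (U' : Set σ) p = ⊥ → U'.card ≤ U.card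

theorem gs_mem {U : Set σ} {f : MvPolynomial σ K} (h : f ∈ p) (h' : f ∈ supported K U) :
    f ∈ extc U p := Ideal.subset_span ⟨h, h'⟩

theorem exists_maxInd (h : p ≠ ⊤) : ∃ U, MaxInd p U := by
  classical
  obtain ⟨U, hU, hm⟩ := Finset.exists_max_image
    (Finset.univ.filter fun U : Finset σ => extc (U : Set σ) p = ⊥) Finset.card
    ⟨∅, by simpa using extc_empty h⟩
  exact ⟨U, (Finset.mem_filter.1 hU).2, fun U' h' =>
    hm U' (Finset.mem_filter.2 ⟨Finset.mem_univ _, h'⟩)⟩

theorem gs_dep {U : Finset σ} (h : MaxInd p U) {t : σ} (ht : t ∉ U) :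
    extc (insert t (U : Set σ)) p ≠ ⊥ := by
  classical
  intro e
  have := h.max (insert t U) (by rwa [Finset.coe_insert])
  rw [Finset.card_insert_of_notMem ht] at this
  omega

theorem gs_poly {U : Set σ} {t : σ} {f : MvPolynomial σ K} (hf : f ∈ supported K (insert t U)) :
    ∃ q : Polynomial (supported K U), Polynomial.aeval (X t : MvPolynomial σ K) q = f := by
  induction hf using Algebra.adjoin_induction with
  | mem x hx =>
    obtain ⟨s, hs, rfl⟩ := hx
    rcases hs with rfl | hs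
    · exact ⟨Polynomial.X, Polynomial.aeval_X _⟩
    · exact ⟨Polynomial.C ⟨X s, Algebra.subset_adjoin ⟨s, hs, rfl⟩⟩, Polynomial.aeval_C _ _⟩
  | algebraMap r =>
    exact ⟨Polynomial.C ⟨_, Subalgebra.algebraMap_mem (supported K U) r⟩, Polynomial.aeval_C _ _⟩
  | add x y _ _ hx hy =>
    obtain ⟨a, rfl⟩ := hx
    obtain ⟨b, rfl⟩ := hy
    exact ⟨a + b, map_add _ _ _⟩
  | mul x y _ _ hx hy =>
    obtain ⟨a, rfl⟩ := hx
    obtain ⟨b, rfl⟩ := hy
    exact ⟨a * b, map_mul _ _ _⟩

theorem gs_alg {U : Finset σ} (h : MaxInd p U) (hp : p.IsPrime) (f : MvPolynomial σ K) :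
    IsAlgebraic (supported K (U : Set σ)) (Ideal.Quotient.mk p f) := by
  have hc : ∀ g ∈ supported K (U : Set σ),
      IsAlgebraic (supported K (U : Set σ)) (Ideal.Quotient.mk p g) := fun g hg =>
    isAlgebraic_algebraMap (A := MvPolynomial σ K ⧸ p) (⟨g, hg⟩ : supported K (U : Set σ))
  induction f using MvPolynomial.induction_on with
  | C a => exact hc _ (Subalgebra.algebraMap_mem _ a)
  | add f g hf hg => rw [map_add]; exact hf.add hg
  | mul_X f t hf =>
    rw [map_mul]
    refine hf.mul ?_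
    by_cases ht : t ∈ U
    · exact hc _ (Algebra.subset_adjoin ⟨t, ht, rfl⟩)
    · obtain ⟨ψ, hψ, h0⟩ : ∃ ψ, (ψ ∈ p ∧ ψ ∈ supported K (insert t (U : Set σ))) ∧ ψ ≠ 0 := by
        by_contra hh
        push Not at hh
        exact gs_dep h ht (Ideal.span_eq_bot.2 hh)
      obtain ⟨q, rfl⟩ := gs_poly hψ.2
      refine ⟨q, fun e => h0 (by rw [e, map_zero]), ?_⟩
      rw [← Ideal.Quotient.mkₐ_eq_mk (supported K (U : Set σ)), Polynomial.aeval_algHom_apply]
      exact Ideal.Quotient.eq_zero_iff_mem.2 hψ.1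

theorem MaxInd.lt {p' : Ideal (MvPolynomial σ K)} (hp : p.IsPrime) {U U' : Finset σ}
    (h : MaxInd p U) (h' : MaxInd p' U') (hl : p < p') : U'.card < U.card := by
  have h1 : extc (U' : Set σ) p = ⊥ := le_bot_iff.1 (h'.ind ▸ extc_mono _ hl.le)
  refine lt_of_le_of_ne (h.max U' h1) fun e => ?_
  have h2 : MaxInd p U' := ⟨h1, fun W hW => e ▸ h.max W hW⟩
  obtain ⟨g, hg, hg'⟩ := SetLike.exists_of_lt hl
  have h3 := Ideal.comap_ne_bot_of_algebraic_mem (I := p'.map (Ideal.Quotient.mk p))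
    (fun e => hg' (Ideal.Quotient.eq_zero_iff_mem.1 e)) (Ideal.mem_map_of_mem _ hg)
    (gs_alg h2 hp g)
  obtain ⟨r, hr, hr0⟩ := Submodule.exists_mem_ne_zero_of_ne_bot h3
  have h4 : (r : MvPolynomial σ K) ∈ p' :=
    (Ideal.mem_quotient_iff_mem hl.le).1 (Ideal.mem_comap.1 hr)
  have h5 := gs_mem h4 r.2
  rw [h'.ind, Ideal.mem_bot] at h5
  exact hr0 (Subtype.ext h5)

theorem gs_pderiv0 {U : Set σ} {t : σ} (ht : t ∉ U) {g : MvPolynomial σ K}
    (hg : g ∈ supported K U) : pderiv t g = 0 :=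
  pderiv_eq_zero_of_notMem_vars fun h => ht (mem_supported.1 hg h)

theorem gs_pderiv {U : Set σ} {t : σ} (ht : t ∉ U) {g : MvPolynomial σ K} (hg : g ∈ extc U p) :
    pderiv t g ∈ p := by
  induction hg using Submodule.span_induction with
  | mem x hx => rw [gs_pderiv0 ht hx.2]; exact zero_mem _
  | zero => simp
  | add x y _ _ hx hy => rw [map_add]; exact add_mem hx hy
  | smul a x hx hx' =>
    rw [smul_eq_mul, pderiv_mul]
    exact add_mem (Ideal.mul_mem_left _ _ (extc_le U p hx)) (Ideal.mul_mem_left _ _ hx')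

theorem gs_uniform {J I : Ideal (MvPolynomial σ K)} {h : MvPolynomial σ K}
    (hJ : ∀ f ∈ J, ∃ N : ℕ, h ^ N * f ∈ I) : ∃ N : ℕ, ∀ f ∈ J, h ^ N * f ∈ I := by
  obtain ⟨S, rfl⟩ := IsNoetherian.noetherian J
  choose! N hN using hJ
  refine ⟨S.sup N, fun f hf => ?_⟩
  induction hf using Submodule.span_induction with
  | mem x hx =>
    obtain ⟨e, he⟩ := Nat.exists_eq_add_of_le' (Finset.le_sup (f := N) hx)
    rw [he, pow_add, mul_assoc]
    exact Ideal.mul_mem_left _ _ (hN x (Submodule.subset_span hx))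
  | zero => simp
  | add x y _ _ hx hy => rw [mul_add]; exact add_mem hx hy
  | smul a x _ hx =>
    rw [smul_eq_mul, mul_left_comm]
    exact Ideal.mul_mem_left _ _ hx

theorem gs_grW : GrW (fun _ : σ => (0 : Empty → ℤ)) p := by
  intro d f hf
  rwa [IsWeightedHomogeneous.weightedHomogeneousComponent_same
    (fun _ _ => Subsingleton.elim _ _ : f.IsWeightedHomogeneous (fun _ : σ => (0 : Empty → ℤ)) d)]

theorem gs_ind [CharZero K] (hp : p.IsPrime) {U : Finset σ} (h : MaxInd p U) (T : Finset σ) :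
    Disjoint T U → ∃ F ∉ p, ∃ ψ : Fin T.card → MvPolynomial σ K,
      (∀ i, ψ i ∈ p ∧ ψ i ∈ supported K ((T : Set σ) ∪ U)) ∧
      (∀ g ∈ extc ((T : Set σ) ∪ U) p, F * g ∈ Ideal.span (Set.range ψ)) ∧
      ∀ x, eval x F ≠ 0 → LinearIndependent K fun i w => eval x (pderiv w (ψ i)) := by
  classical
  induction T using Finset.induction_on with
  | empty =>
    intro _
    refine ⟨1, (Ideal.ne_top_iff_one p).1 hp.ne_top, Fin.elim0, fun i => i.elim0, fun g hg => ?_,
      fun x _ => ?_⟩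
    · rw [Finset.coe_empty, Set.empty_union, h.ind, Ideal.mem_bot] at hg
      simp [hg]
    · have : IsEmpty (Fin (∅ : Finset σ).card) := ⟨fun i => i.elim0⟩
      exact linearIndependent_empty_type
  | insert t T htT ih =>
    intro hd
    rw [Finset.disjoint_insert_left] at hd
    obtain ⟨F, hF, ψ, h1, h2, h3⟩ := ih hd.2
    have ht : t ∉ (T : Set σ) ∪ U := fun k => k.elim htT hd.1
    obtain ⟨ψ₀, -, -, a1, a2, -, -, -, -, -, a3⟩ :=
      exists_step (U := (U : Set σ)) hd.1 hp gs_grW (h.ind ▸ gs_dep h hd.1)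
    obtain ⟨φ, g, -, b1, b2, -, -, -, b3, b4, b5⟩ := exists_step ht hp gs_grW fun e =>
      a3 inferInstance (gs_pderiv ht (e ▸ gs_mem a1
        (supported_mono (Set.insert_subset_insert Set.subset_union_right) a2)))
    obtain ⟨N, hN⟩ := gs_uniform b4
    rw [Finset.card_insert_of_notMem htT, Finset.coe_insert, Set.insert_union]
    refine ⟨pderiv t φ * (F * g ^ N), fun k => ?_, Fin.cons φ ψ, fun i => ?_, fun f hf => ?_,
      fun x hx => ?_⟩
    · rcases hp.mem_or_mem k with k | k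
      · exact b5 inferInstance k
      · exact (hp.mem_or_mem k).elim hF fun k => b3 (hp.mem_of_pow_mem N k)
    · refine Fin.cases ⟨b1, b2⟩ (fun i => ?_) i
      exact ⟨(h1 i).1, supported_mono (Set.subset_insert _ _) (h1 i).2⟩
    · obtain ⟨a, ha, c, hc, e⟩ := Submodule.mem_sup.1 (hN f hf)
      rw [mul_assoc, mul_assoc, ← e, mul_add F, Fin.range_cons]
      refine Ideal.mul_mem_left _ _ (add_mem ?_ (Ideal.mul_mem_left _ _ ?_))
      · exact Ideal.span_mono (Set.subset_insert _ _) (h2 a ha)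
      · exact Ideal.span_mono (Set.singleton_subset_iff.2 (Set.mem_insert _ _)) hc
    · rw [map_mul, map_mul, mul_ne_zero_iff, mul_ne_zero_iff] at hx
      have e : (fun i w => eval x (pderiv w ((Fin.cons φ ψ : Fin (T.card + 1) → _) i))) =
          Fin.cons (fun w => eval x (pderiv w φ)) fun i w => eval x (pderiv w (ψ i)) := by
        funext i
        exact Fin.cases rfl (fun _ => rfl) i
      rw [e]
      refine (h3 x hx.2.1).finCons fun k => hx.1 ?_
      have : Submodule.span K (Set.range fun i w => eval x (pderiv w (ψ i))) ≤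
          LinearMap.ker (LinearMap.proj (R := K) (φ := fun _ : σ => K) t) := by
        rw [Submodule.span_le]
        rintro _ ⟨i, rfl⟩
        simp [gs_pderiv0 ht (h1 i).2]
      exact this k

theorem MaxInd.smo [CharZero K] (hp : p.IsPrime) {U : Finset σ} (h : MaxInd p U) :
    ∃ f ∉ p, ∀ x, eval x f ≠ 0 → Smo p (Fintype.card σ - U.card) x := by
  classical
  obtain ⟨F, hF, ψ, h1, h2, h3⟩ := gs_ind hp h Uᶜ disjoint_compl_left
  rw [Finset.coe_compl, Set.compl_union_self, extc_univ] at h2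
  rw [← Finset.card_compl]
  exact ⟨F, hF, fun x hx => ⟨F, ψ, hx, fun i => (h1 i).1, h2, h3 x hx⟩⟩

end Pool.Agent.TateX
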