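import Pool.Agent.P.MP_2ce3e7_ag.Tav.XPolyA

/-! Graded polynomial rings. -/

set_option autoImplicit false

noncomputable section

namespace Pool.Agent.TateX

open MvPolynomial

variable {m : ℕ} {k ι κ : Type}

section Ring
variable [CommRing k]

theorem wt_apply [DecidableEq ι] (v : ι × Fin 3) (i : ι) : wt v i = if i = v.1 then 1 else 0 := by
  unfold wt
  by_cases h : i = v.1
  · simp [h]
  · simp [h]

theorem wt_eq_single [DecidableEq ι] (v : ι × Fin 3) : wt v = Pi.single v.1 1 := by
  funext i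
  rw [wt_apply, Pi.single_apply]

theorem hg_X (v : ι × Fin 3) : Hg (X v : S k ι) (wt v) :=
  isWeightedHomogeneous_X k wt v

theorem poly_hg_sub {f g : S k ι} {d : ι → ℤ} (hf : Hg f d) (hg : Hg g d) : Hg (f - g) d :=
  (weightedHomogeneousSubmodule k (wt (ι := ι)) d).sub_mem hf hg

theorem hg_fer (i : ι) : Hg (fer m k i) (m • wt (i, 0)) := by
  have h : ∀ j : Fin 3, Hg ((X (i, j) : S k ι) ^ m) (m • wt (i, 0)) := fun j =>
    (hg_X (k := k) (i, j)).pow m
  exact poly_hg_sub ((h 0).add (h 1)) (h 2)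

theorem hg_minor (i j : ι) (a : Fin 3) : Hg (minor k i j a) (dm i j) := by
  have h : ∀ b c : Fin 3, Hg ((X (i, b) : S k ι) * X (j, c)) (dm i j) := fun b c =>
    (hg_X (k := k) (i, b)).mul (hg_X (k := k) (j, c))
  exact poly_hg_sub (h _ _) (h _ _)

theorem fer_mem (i : ι) : fer m k i ∈ Fer m k ι := Ideal.subset_span ⟨i, rfl⟩

theorem rn_X (f : ι → κ) (v : ι × Fin 3) : rn f (X v : S k ι) = X (f v.1, v.2) := by
  unfold rn
  rw [rename_X]
  rfl

theorem rn_fer (f : ι → κ) (i : ι) : rn f (fer m k i) = fer m k (f i) := by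
  simp only [fer, map_sub, map_add, map_pow, rn_X]

theorem rn_minor (f : ι → κ) (i j : ι) (a : Fin 3) :
    rn f (minor k i j a) = minor k (f i) (f j) a := by
  simp only [minor, map_sub, map_mul, rn_X]

theorem rn_mem_Fer (f : ι → κ) {g : S k ι} (h : g ∈ Fer m k ι) : rn f g ∈ Fer m k κ := by
  have : Fer m k ι ≤ (Fer m k κ).comap (rn f) := by
    refine Ideal.span_le.2 ?_
    rintro _ ⟨i, rfl⟩
    change rn f (fer m k i) ∈ Fer m k κ
    rw [rn_fer]
    exact fer_mem _
  exact this h

theorem map_fer {k' : Type} [CommRing k'] (s : k →+* k') (i : ι) :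
    map s (fer m k i) = fer m k' i := by
  simp only [fer, map_sub, map_add, map_pow, map_X]

theorem map_minor {k' : Type} [CommRing k'] (s : k →+* k') (i j : ι) (a : Fin 3) :
    map s (minor k i j a) = minor k' i j a := by
  simp only [minor, map_sub, map_mul, map_X]

theorem map_mem_Fer {k' : Type} [CommRing k'] (s : k →+* k') {g : S k ι} (h : g ∈ Fer m k ι) :
    map s g ∈ Fer m k' ι := by
  have : Fer m k ι ≤ (Fer m k' ι).comap (map s : S k ι →+* S k' ι) := by
    refine Ideal.span_le.2 ?_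
    rintro _ ⟨i, rfl⟩
    change map s (fer m k i) ∈ Fer m k' ι
    rw [map_fer]
    exact fer_mem _
  exact this h

theorem Irr.mono [Fintype ι] {J J' : Ideal (S k ι)} (h : Irr J) (hl : J ≤ J') : Irr J' :=
  fun α => (h α).imp fun _ hN => hl hN

theorem Irr.mul [Fintype ι] {J J' : Ideal (S k ι)} (h : Irr J) (h' : Irr J') : Irr (J * J') := by
  intro α
  obtain ⟨N, hN⟩ := h α
  obtain ⟨N', hN'⟩ := h' α
  exact ⟨N + N', by rw [pow_add]; exact Ideal.mul_mem_mul hN hN'⟩

theorem irr_of_block [Fintype ι] {J : Ideal (S k ι)} (i : ι)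
    (h : ∀ j, ∃ N : ℕ, (X (i, j) : S k ι) ^ N ∈ J) : Irr J := by
  intro α
  obtain ⟨N, hN⟩ := h (α i)
  refine ⟨N, ?_⟩
  have hd : (X (i, α i) : S k ι) ∣ mono k α :=
    Finset.dvd_prod_of_mem (fun i => (X (i, α i) : S k ι)) (Finset.mem_univ i)
  exact Ideal.mem_of_dvd J (pow_dvd_pow_of_dvd hd N) hN

end Ring

variable [Field k]

theorem grI_Fer : GrI (Fer m k ι) := by
  refine grW_span ?_
  rintro _ ⟨i, rfl⟩
  exact ⟨_, hg_fer i⟩

/-- extension by zero as an additive map -/
def polyExt {f : ι → κ} (hf : Function.Injective f) : (ι → ℤ) →+ (κ → ℤ) where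
  toFun d := Function.extend f d 0
  map_zero' := by
    funext j
    by_cases h : ∃ i, f i = j
    · obtain ⟨i, rfl⟩ := h
      rw [hf.extend_apply]
      rfl
    · rw [Function.extend_apply' _ _ _ h]
  map_add' d e := by
    funext j
    by_cases h : ∃ i, f i = j
    · obtain ⟨i, rfl⟩ := h
      simp only [hf.extend_apply, Pi.add_apply]
    · simp only [Function.extend_apply' _ _ _ h, Pi.add_apply, Pi.zero_apply, add_zero]

theorem polyExt_wt {f : ι → κ} (hf : Function.Injective f) (v : ι × Fin 3) :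
    polyExt hf (wt v) = wt (f v.1, v.2) := by
  classical
  funext j
  change Function.extend f (wt v) 0 j = _
  by_cases h : ∃ i, f i = j
  · obtain ⟨i, rfl⟩ := h
    rw [hf.extend_apply, wt_apply, wt_apply]
    simp only [hf.eq_iff]
  · rw [Function.extend_apply' _ _ _ h, wt_apply, if_neg fun e => h ⟨_, e.symm⟩]
    rfl

theorem polyExt_X {f : ι → κ} (hf : Function.Injective f) (v : ι × Fin 3) :
    (rn f (X v : S k ι)).IsWeightedHomogeneous wt (polyExt hf (wt v)) := by
  rw [rn_X, polyExt_wt]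
  exact hg_X _

theorem hg_rn {f : ι → κ} (hf : Function.Injective f) {g : S k ι} {d : ι → ℤ} (h : Hg g d) :
    Hg (rn f g) (Function.extend f d 0) :=
  hom_map (rn f) (polyExt hf) (polyExt_X hf) h

theorem GrI.map_rn {f : ι → κ} (hf : Function.Injective f) {J : Ideal (S k ι)} (h : GrI J) :
    GrI (J.map (rn f)) :=
  GrW.map h (rn f) (polyExt hf) (polyExt_X hf)

theorem poly_sc_X (c : ι × Fin 3 → k) (v : ι × Fin 3) :
    (sc c (X v : S k ι)).IsWeightedHomogeneous wt (AddMonoidHom.id (ι → ℤ) (wt v)) := by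
  rw [sc_X]
  have := (isWeightedHomogeneous_C (wt (ι := ι)) (c v)).mul (hg_X (k := k) v)
  rwa [zero_add] at this

theorem hg_sc (c : ι × Fin 3 → k) {g : S k ι} {d : ι → ℤ} (h : Hg g d) : Hg (sc c g) d :=
  hom_map (sc c) (AddMonoidHom.id _) (poly_sc_X c) h

theorem GrI.map_sc (c : ι × Fin 3 → k) {J : Ideal (S k ι)} (h : GrI J) : GrI (J.map (sc c)) :=
  GrW.map h (sc c) (AddMonoidHom.id _) (poly_sc_X c)

theorem GrI.comap_sc (c : ι × Fin 3 → k) {J : Ideal (S k ι)} (h : GrI J) :
    GrI (J.comap (sc c)) :=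
  GrW.comap h (sc c) (AddMonoidHom.id _) (fun _ _ e => e) (poly_sc_X c)

theorem sc_fer {c : ι × Fin 3 → k} (hc : ∀ v, c v ^ m = 1) (i : ι) :
    sc c (fer m k i) = fer m k i := by
  simp only [fer, map_sub, map_add, map_pow, sc_X, mul_pow, ← C_pow, hc, C_1, one_mul]

theorem GrI.map_map {k' : Type} [Field k'] (s : k →+* k') {J : Ideal (S k ι)} (h : GrI J) :
    GrI (J.map (map s : S k ι →+* S k' ι)) := by
  rw [← h.eq_core, core, Ideal.map_span]
  refine grW_span ?_
  rintro _ ⟨f, ⟨-, d, hd⟩, rfl⟩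
  refine ⟨d, fun e he => hd fun h0 => he ?_⟩
  rw [coeff_map, h0, map_zero]

/-- a prime that is not irrelevant omits one variable of each block -/
theorem exists_var_notMem [Fintype ι] {P : Ideal (S k ι)} (hP : P.IsPrime) (h : ¬ Irr P) :
    ∃ α : ι → Fin 3, ∀ i, (X (i, α i) : S k ι) ∉ P := by
  unfold Irr at h
  push Not at h
  obtain ⟨α, hα⟩ := h
  refine ⟨α, fun i hi => hα 1 ?_⟩
  rw [pow_one]
  exact Ideal.mem_of_dvd P
    (Finset.dvd_prod_of_mem (fun i => (X (i, α i) : S k ι)) (Finset.mem_univ i)) hi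

theorem poly_weight (s : ι × Fin 3 →₀ ℕ) (i : ι) :
    Finsupp.weight (wt (ι := ι)) s i = (∑ j, s (i, j) : ℕ) := by
  classical
  induction s using Finsupp.induction_linear with
  | zero => simp
  | add s t hs ht =>
    rw [map_add, Pi.add_apply, hs, ht]
    simp only [Finsupp.add_apply, Finset.sum_add_distrib, Nat.cast_add]
  | single v n =>
    obtain ⟨a, b⟩ := v
    rw [Finsupp.weight_single, Pi.smul_apply, wt_apply]
    by_cases h : i = a
    · subst h
      simp [Finsupp.single_apply]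
    · simp [Finsupp.single_apply, h, Ne.symm h]

/-- a homogeneous polynomial has nonnegative degree, and the exponents add up to it -/
theorem Hg.deg {g : S k ι} {d : ι → ℤ} (h : Hg g d) {s : ι × Fin 3 →₀ ℕ} (hs : s ∈ g.support)
    (i : ι) : (∑ j, s (i, j) : ℕ) = d i := by
  rw [← h (mem_support_iff.1 hs), poly_weight]

/-- the homogeneous polynomials of a given degree form a finite dimensional space -/
theorem finite_hg [Finite ι] (d : ι → ℤ) :
    Module.Finite k (weightedHomogeneousSubmodule k (wt (ι := ι)) d) := by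
  classical
  cases nonempty_fintype ι
  let b : ι × Fin 3 →₀ ℕ := Finsupp.equivFunOnFinite.symm fun v => (d v.1).toNat
  have hle : weightedHomogeneousSubmodule k (wt (ι := ι)) d ≤
      Submodule.span k ((fun s => (monomial s (1 : k) : S k ι)) '' Set.Iic b) := by
    intro g hg
    rw [g.as_sum]
    refine Submodule.sum_mem _ fun s hs => ?_
    have e : (monomial s (coeff s g) : S k ι) = coeff s g • monomial s (1 : k) := by
      rw [smul_monomial, smul_eq_mul, mul_one]
    rw [e]
    refine Submodule.smul_mem _ _ (Submodule.subset_span ⟨s, fun v => ?_, rfl⟩)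
    have h1 := Hg.deg (k := k) hg hs v.1
    have h2 : s v ≤ ∑ j, s (v.1, j) :=
      Finset.single_le_sum (f := fun j => s (v.1, j)) (fun _ _ => Nat.zero_le _)
        (Finset.mem_univ v.2)
    change s v ≤ (d v.1).toNat
    omega
  haveI : FiniteDimensional k
      (Submodule.span k ((fun s => (monomial s (1 : k) : S k ι)) '' Set.Iic b)) :=
    FiniteDimensional.span_of_finite k ((Set.finite_Iic b).image _)
  exact Submodule.finiteDimensional_of_le hle

end Pool.Agent.TateX
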