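import Pool.Agent.K.MP_e12fcd_ag.C10

/-! Products of chains. -/

set_option autoImplicit false

noncomputable section

namespace Pool.Agent.TateX

open MeasureTheory Set Module Filter Topology Pool.Agent.Weil

variable {V W P P' : Type} [NormedAddCommGroup V] [NormedSpace ℂ V] [FiniteDimensional ℂ V]
  [NormedAddCommGroup W] [NormedSpace ℂ W] [FiniteDimensional ℂ W]
  [NormedAddCommGroup P] [NormedSpace ℂ P] [FiniteDimensional ℂ P]
  [NormedAddCommGroup P'] [NormedSpace ℂ P'] [FiniteDimensional ℂ P']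
  {ρ σ : Type} [Fintype ρ] [DecidableEq ρ] [Fintype σ] [DecidableEq σ]
  {Λ : AddSubgroup V} {Λ' : AddSubgroup W}

/-- the product of two chains -/
def cprod (hΛ : IsLat Λ) (hΛ' : IsLat Λ') (c : Chain V Λ P) (c' : Chain W Λ' P') :
    Chain (V × W) (Λ.prod Λ') (P × P') where
  Z := c.Z × c'.Z
  F z := (PC.exists_pair Λ Λ').choose (c.F z.1, c'.F z.2)
  contF := (PC.exists_pair Λ Λ').choose_spec.1.comp (c.contF.prodMap c'.contF)
  J := c.J × c'.J
  U j := c.U j.1 ×ˢ c'.U j.2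
  ι j := Prod.map (c.ι j.1) (c'.ι j.2)
  φ j := Prod.map (c.φ j.1) (c'.φ j.2)
  chart j := PC.chart_prod (c.chart j.1) (c'.chart j.2)
  an j u hu := ((c.an j.1 u.1 hu.1).comp analyticAt_fst).prod
    ((c'.an j.2 u.2 hu.2).comp analyticAt_snd)
  lift j u hu := ((PC.exists_pair Λ Λ').choose_spec.2 _ _ _ _).2
    ⟨c.lift j.1 u.1 hu.1, c'.lift j.2 u.2 hu.2⟩
  thin := by
    have := hΛ.countable
    have := hΛ'.countable
    rw [finrank_prod]
    refine Thin.mono (((c.thin.prod c'.thin).union (thin_iUnion fun j : c'.J × Λ' =>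
      c.thin.prod_param (φ := fun u => c'.φ j.1 u + j.2) (U := c'.U j.1)
        fun u hu => (c'.an j.1 u hu).add analyticAt_const)).union
      (thin_iUnion fun j : c.J × Λ =>
        c'.thin.param_prod (φ := fun u => c.φ j.1 u + j.2) (U := c.U j.1)
          fun u hu => (c.an j.1 u hu).add analyticAt_const)) ?_ le_rfl
    rintro ⟨v, w⟩ ⟨⟨z, z'⟩, h1, h2⟩
    obtain ⟨h3, h4⟩ := ((PC.exists_pair Λ Λ').choose_spec.2 _ _ _ _).1 h2
    by_cases hz : ∀ j, z ∉ c.ι j '' c.U j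
    · rcases PC.total_subset c' h4 with h5 | h5
      · exact Or.inl (Or.inl ⟨⟨z, hz, h3⟩, h5⟩)
      · obtain ⟨j, h6⟩ := mem_iUnion.1 h5
        exact Or.inl (Or.inr (mem_iUnion.2 ⟨j, ⟨z, hz, h3⟩, h6⟩))
    · push Not at hz
      obtain ⟨j, u, hu, rfl⟩ := hz
      have hz' : ∀ j', z' ∉ c'.ι j' '' c'.U j' := by
        rintro j' ⟨u', hu', rfl⟩
        exact h1 (j, j') ⟨(u, u'), ⟨hu, hu'⟩, rfl⟩
      rw [c.lift j u hu, QuotientAddGroup.eq] at h3
      exact Or.inr (mem_iUnion.2 ⟨(j, ⟨_, h3⟩), ⟨u, hu, by simp⟩, z', hz', h4⟩)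

theorem cprod_F (hΛ : IsLat Λ) (hΛ' : IsLat Λ') (c : Chain V Λ P) (c' : Chain W Λ' P')
    (z : c.Z) (z' : c'.Z) (v : V) (w : W) :
    (cprod hΛ hΛ' c c').F (z, z') = QuotientAddGroup.mk (v, w) ↔
      c.F z = QuotientAddGroup.mk v ∧ c'.F z' = QuotientAddGroup.mk w :=
  (PC.exists_pair Λ Λ').choose_spec.2 _ _ _ _

theorem cprod_class [MeasurableSpace P] [BorelSpace P] [MeasurableSpace P'] [BorelSpace P']
    (μ : Measure P) [μ.IsAddHaarMeasure] (μ' : Measure P') [μ'.IsAddHaarMeasure]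
    (hΛ : IsLat Λ) (hΛ' : IsLat Λ')
    (c : Chain V Λ P) (c' : Chain W Λ' P') (ε : Basis ρ ℝ P) (ε' : Basis σ ℝ P')
    {T : Alt V ρ} {T' : Alt W σ} (hT : c.IsClass μ ε T) (hT' : c'.IsClass μ' ε' T') :
    ∃ S : Alt (V × W) (ρ ⊕ σ),
      (cprod hΛ hΛ' c c').IsClass (μ.prod μ') (ε.prod ε') S ∧ ∀ ξ ζ,
        S (Sum.elim (fun a => pull (ContinuousLinearMap.fst ℂ V W) (ξ a))
          (fun b => pull (ContinuousLinearMap.snd ℂ V W) (ζ b))) = T ξ * T' ζ := by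
  obtain ⟨E, hE, hI⟩ := hT
  obtain ⟨E', hE', hI'⟩ := hT'
  have hP : IsPart (cprod hΛ hΛ' c c').ι (cprod hΛ hΛ' c c').U fun j => E j.1 ×ˢ E' j.2 :=
    { meas := fun j => (hE.meas j.1).prod (hE'.meas j.2)
      sub := fun j => prod_mono (hE.sub j.1) (hE'.sub j.2)
      disj := fun i j u hu v hv h => Prod.ext (hE.disj _ _ _ hu.1 _ hv.1 (congrArg Prod.fst h))
        (hE'.disj _ _ _ hu.2 _ hv.2 (congrArg Prod.snd h))
      cover := fun j u hu => by
        obtain ⟨i, v, h1, h2⟩ := hE.cover j.1 u.1 hu.1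
        obtain ⟨i', v', h1', h2'⟩ := hE'.cover j.2 u.2 hu.2
        exact ⟨(i, i'), (v, v'), ⟨h1, h1'⟩, Prod.ext h2 h2'⟩ }
  obtain ⟨S, hS⟩ := Chain.exists_class (μ.prod μ') _ (hΛ.prod hΛ') (ε.prod ε') hP
  refine ⟨S, ⟨_, hP, hS⟩, fun ξ ζ => ?_⟩
  rw [(hS _).2.2, (hI ξ).2.2, (hI' ζ).2.2, tsum_mul_tsum_of_summable_norm
    ((hI ξ).2.1.of_nonneg_of_le (fun _ => norm_nonneg _) fun _ => norm_integral_le_integral_norm _)
    ((hI' ζ).2.1.of_nonneg_of_le (fun _ => norm_nonneg _)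
      fun _ => norm_integral_le_integral_norm _)]
  refine tsum_congr fun j => ?_
  rw [← setIntegral_prod_mul]
  refine setIntegral_congr_fun (hP.meas j) fun u hu => ?_
  exact PC.dens_prod ε ε' ξ ζ (c.an j.1 u.1 (hE.sub _ hu.1)).differentiableAt
    (c'.an j.2 u.2 (hE'.sub _ hu.2)).differentiableAt

/-- the fibre of the chain over a point of the quotient torus -/
def fib {B : Type} [NormedAddCommGroup B] [NormedSpace ℂ B] (c : Chain V Λ P) (q : V →L[ℂ] B)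
    (ΛB : AddSubgroup B) (a : B) : Set c.Z :=
  {z | ∃ v, c.F z = QuotientAddGroup.mk v ∧ q v - a ∈ ΛB}

/-- immersed chains whose general fibres have `0` or `k` points -/
structure Nice (c : Chain V Λ P) (k : ℕ) : Prop where
  imm : ∀ j, ∀ u ∈ c.U j, Function.Injective (fderiv ℂ (c.φ j) u)
  pos : 0 < k
  fib : ∃ A : Set V, Thin (finrank ℂ P) A ∧ ∀ v ∉ A,
    {z | c.F z = QuotientAddGroup.mk v} = ∅ ∨ {z | c.F z = QuotientAddGroup.mk v}.ncard = k

end Pool.Agent.TateX
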