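import Pool.Agent.P.MP_2ce3e7_ag.Tav.XPoly
import Pool.Agent.P.MP_3c83d0_ag.ElPlace

/-! Reduction of subspaces at a place. -/

set_option autoImplicit false

noncomputable section

namespace Pool.Agent.TateX

open MvPolynomial Pool.Agent.P.MP_3c83d0_ag

variable {L Ω σ A : Type} [Field L] [Field Ω] (P : Place L Ω)

/-- reduction of a space of vectors of polynomials -/
def spM (W : Submodule L (A → MvPolynomial σ L)) : Submodule Ω (A → MvPolynomial σ Ω) :=
  Submodule.span Ω {G | ∃ F ∈ W, ∀ a, P.TP (F a) (G a)}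

/-- reduction of an ideal -/
def spI (J : Ideal (MvPolynomial σ L)) : Ideal (MvPolynomial σ Ω) :=
  Ideal.span {G | ∃ F ∈ J, P.TP F G}

variable {P}

theorem TP_add {F F' : MvPolynomial σ L} {G G' : MvPolynomial σ Ω} (h : P.TP F G)
    (h' : P.TP F' G') : P.TP (F + F') (G + G') := by
  obtain ⟨H, rfl, rfl⟩ := h
  obtain ⟨H', rfl, rfl⟩ := h'
  exact ⟨H + H', map_add _ _ _, map_add _ _ _⟩

theorem TP_mul {F F' : MvPolynomial σ L} {G G' : MvPolynomial σ Ω} (h : P.TP F G)
    (h' : P.TP F' G') : P.TP (F * F') (G * G') := by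
  obtain ⟨H, rfl, rfl⟩ := h
  obtain ⟨H', rfl, rfl⟩ := h'
  exact ⟨H * H', map_mul _ _ _, map_mul _ _ _⟩

theorem TP_int (H : MvPolynomial σ ℤ) :
    P.TP (map (Int.castRingHom L) H) (map (Int.castRingHom Ω) H) := by
  refine ⟨map (Int.castRingHom P.O) H, ?_, ?_⟩
  · rw [map_map, RingHom.ext_int (P.O.subtype.comp (Int.castRingHom P.O)) (Int.castRingHom L)]
  · rw [map_map, RingHom.ext_int (P.ev.comp (Int.castRingHom P.O)) (Int.castRingHom Ω)]

theorem TP_iff {F : MvPolynomial σ L} {G : MvPolynomial σ Ω} :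
    P.TP F G ↔ ∀ s, P.To (coeff s F) (coeff s G) := by
  classical
  constructor
  · rintro ⟨H, rfl, rfl⟩ s
    rw [coeff_map, coeff_map]
    exact Place.to_coe _
  · intro h
    have key : ∀ s, coeff s (∑ t ∈ F.support, monomial t (⟨coeff t F, (h t).mem⟩ : P.O)) =
        ⟨coeff s F, (h s).mem⟩ := by
      intro s
      rw [coeff_sum]
      simp only [coeff_monomial]
      rw [Finset.sum_ite_eq']
      split_ifs with hs
      · rfl
      · exact Subtype.ext (notMem_support_iff.1 hs).symm
    refine ⟨∑ t ∈ F.support, monomial t (⟨coeff t F, (h t).mem⟩ : P.O), ?_, ?_⟩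
    · ext s
      rw [coeff_map, key]
      rfl
    · ext s
      rw [coeff_map, key]
      exact (h s).2

theorem TP_sum {B : Type} (s : Finset B) {F : B → MvPolynomial σ L} {G : B → MvPolynomial σ Ω}
    (h : ∀ b ∈ s, P.TP (F b) (G b)) : P.TP (∑ b ∈ s, F b) (∑ b ∈ s, G b) := by
  classical
  induction s using Finset.induction_on with
  | empty => exact ⟨0, by simp, by simp⟩
  | insert a s ha ih =>
    rw [Finset.sum_insert ha, Finset.sum_insert ha]
    exact TP_add (h a (Finset.mem_insert_self _ _))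
      (ih fun i hi => h i (Finset.mem_insert_of_mem hi))

theorem TP_rename {σ' : Type} (f : σ → σ') {F : MvPolynomial σ L} {G : MvPolynomial σ Ω}
    (h : P.TP F G) : P.TP (rename f F) (rename f G) := by
  obtain ⟨H, rfl, rfl⟩ := h
  exact ⟨rename f H, map_rename _ _ _, map_rename _ _ _⟩

theorem TP_cmp {Γ : Type} [AddCommMonoid Γ] (w : σ → Γ) (d : Γ) {F : MvPolynomial σ L}
    {G : MvPolynomial σ Ω} (h : P.TP F G) :
    P.TP (weightedHomogeneousComponent w d F) (weightedHomogeneousComponent w d G) := by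
  classical
  rw [TP_iff] at h ⊢
  intro s
  rw [coeff_weightedHomogeneousComponent, coeff_weightedHomogeneousComponent]
  split_ifs
  · exact h s
  · exact Place.to_zero

theorem specA_map_sc {R R' : Type} [CommRing R] [CommRing R'] (f : R →+* R') (c : σ → R)
    (H : MvPolynomial σ R) : map f (sc c H) = sc (fun v => f (c v)) (map f H) := by
  induction H using MvPolynomial.induction_on with
  | C a => simp [sc]
  | add p q hp hq => simp only [map_add, hp, hq]
  | mul_X p v hp =>
    rw [map_mul, map_mul, map_mul, map_mul, hp]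
    simp [sc]

theorem TP_sc {c : σ → L} {c' : σ → Ω} (hc : ∀ v, P.To (c v) (c' v)) {F : MvPolynomial σ L}
    {G : MvPolynomial σ Ω} (h : P.TP F G) : P.TP (sc c F) (sc c' G) := by
  obtain ⟨H, rfl, rfl⟩ := h
  refine ⟨sc (fun v => (⟨c v, (hc v).mem⟩ : P.O)) H, ?_, ?_⟩
  · rw [specA_map_sc]
    rfl
  · rw [specA_map_sc]
    congr 2
    funext v
    exact (hc v).2

theorem specA_basis {V I : Type} [AddCommGroup V] [Module L V] (c : I → V →ₗ[L] L)
    (hfin : ∀ v, {i | c i v ≠ 0}.Finite) (hsep : ∀ v, (∀ i, c i v = 0) → v = 0) (N : ℕ) :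
    ∀ W : Submodule L V, FiniteDimensional L W → Module.finrank L W < N →
      ∃ (n : ℕ) (b : Fin n → V) (p : Fin n → I), (∀ i, b i ∈ W) ∧ (∀ i x, c x (b i) ∈ P.O) ∧
        (∀ i j, c (p j) (b i) = if i = j then 1 else 0) ∧
        ∀ v ∈ W, (∀ j, c (p j) v = 0) → v = 0 := by
  induction N with
  | zero => intro W _ h; omega
  | succ N ih =>
    intro W hW hN
    by_cases h0 : W = ⊥
    · refine ⟨0, Fin.elim0, Fin.elim0, fun i => i.elim0, fun i => i.elim0, fun i => i.elim0,
        fun v hv _ => ?_⟩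
      rwa [h0, Submodule.mem_bot] at hv
    · obtain ⟨v, hv, hv0⟩ := Submodule.exists_mem_ne_zero_of_ne_bot h0
      have hex : ∃ i ∈ (hfin v).toFinset, c i v ≠ 0 := by
        by_contra hc
        refine hv0 (hsep v fun i => ?_)
        by_contra hi
        exact hc ⟨i, (hfin v).mem_toFinset.2 hi, hi⟩
      obtain ⟨p0, -, hp0, hmax⟩ := P.exists_max (hfin v).toFinset (fun i => c i v) hex
      obtain ⟨u, huW, hu1, huO⟩ : ∃ u ∈ W, c p0 u = 1 ∧ ∀ x, c x u ∈ P.O := by
        refine ⟨(c p0 v)⁻¹ • v, W.smul_mem _ hv, ?_, fun x => ?_⟩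
        · rw [map_smul, smul_eq_mul, inv_mul_cancel₀ hp0]
        · rw [map_smul, smul_eq_mul, mul_comm, ← div_eq_mul_inv]
          by_cases hx : c x v = 0
          · rw [hx, zero_div]
            exact P.O.zero_mem
          · exact hmax x ((hfin v).mem_toFinset.2 hx)
      have hlt : W ⊓ LinearMap.ker (c p0) < W := by
        refine lt_of_le_of_ne inf_le_left fun e => ?_
        have : u ∈ W ⊓ LinearMap.ker (c p0) := e.symm ▸ huW
        exact one_ne_zero (hu1.symm.trans this.2)
      have hfd : FiniteDimensional L ↥(W ⊓ LinearMap.ker (c p0)) :=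
        Submodule.finiteDimensional_of_le inf_le_left
      obtain ⟨n, b, p, hb, hbO, hd, hz⟩ := ih _ hfd
        (lt_of_lt_of_le (Submodule.finrank_lt_finrank_of_lt hlt) (by omega))
      have hb0 : ∀ i, c p0 (b i) = 0 := fun i => (hb i).2
      refine ⟨n + 1, Fin.cons (u - ∑ j, c (p j) u • b j) b, Fin.cons p0 p, ?_, ?_, ?_, ?_⟩
      · intro i
        refine Fin.cases ?_ (fun i => (hb i).1) i
        exact W.sub_mem huW (W.sum_mem fun j _ => W.smul_mem _ (hb j).1)
      · intro i x
        refine Fin.cases ?_ (fun i => hbO i x) i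
        rw [Fin.cons_zero, map_sub, map_sum]
        refine P.O.sub_mem (huO x) (P.O.sum_mem fun j _ => ?_)
        rw [map_smul, smul_eq_mul]
        exact P.O.mul_mem (huO _) (hbO j x)
      · intro i j
        refine Fin.cases ?_ (fun i => ?_) i
        · refine Fin.cases ?_ (fun j => ?_) j
          · simp [hu1, hb0]
          · simp [hd, (Fin.succ_ne_zero j).symm]
        · refine Fin.cases ?_ (fun j => ?_) j
          · simp [hb0]
          · simp [hd]
      · intro y hy hc
        exact hz y ⟨hy, hc 0⟩ fun j => hc j.succ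

theorem specA_span {K V I : Type} [Field K] [AddCommGroup V] [Module K V] (c : I → V →ₗ[K] K)
    {n : ℕ} (b : Fin n → V) (p : Fin n → I) (hd : ∀ i j, c (p j) (b i) = if i = j then 1 else 0) :
    Module.finrank K (Submodule.span K (Set.range b)) = n := by
  have hli : LinearIndependent K b := by
    rw [Fintype.linearIndependent_iff]
    intro g hg j
    have := congrArg (c (p j)) hg
    simpa [hd] using this
  rw [finrank_span_eq_card hli, Fintype.card_fin]

theorem specA_rank {V V' I : Type} [AddCommGroup V] [Module L V] [AddCommGroup V'] [Module Ω V']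
    (c : I → V →ₗ[L] L) (c' : I → V' →ₗ[Ω] Ω) (hfin : ∀ v, {i | c i v ≠ 0}.Finite)
    (hsep : ∀ v, (∀ i, c i v = 0) → v = 0) (hsep' : ∀ v, (∀ i, c' i v = 0) → v = 0)
    (hlift : ∀ v, (∀ i, c i v ∈ P.O) → ∃ v', ∀ i, P.To (c i v) (c' i v'))
    (W : Submodule L V) [hW : FiniteDimensional L W] :
    FiniteDimensional Ω (Submodule.span Ω {v' | ∃ v ∈ W, ∀ i, P.To (c i v) (c' i v')}) ∧
      Module.finrank Ω (Submodule.span Ω {v' | ∃ v ∈ W, ∀ i, P.To (c i v) (c' i v')}) =
        Module.finrank L W := by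
  obtain ⟨n, b, p, hb, hbO, hd, hz⟩ := specA_basis (P := P) c hfin hsep _ W hW (Nat.lt_succ_self _)
  choose g hg using fun i => hlift (b i) (hbO i)
  have hrep : ∀ v ∈ W, v = ∑ i, c (p i) v • b i := by
    intro v hv
    rw [← sub_eq_zero]
    refine hz _ (W.sub_mem hv (W.sum_mem fun j _ => W.smul_mem _ (hb j))) fun j => ?_
    simp [hd]
  have hd' : ∀ i j, c' (p j) (g i) = if i = j then 1 else 0 := by
    intro i j
    have := hg i (p j)
    rw [hd] at this
    split_ifs at this ⊢
    · exact this.uniq Place.to_one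
    · exact this.uniq Place.to_zero
  have e1 : W = Submodule.span L (Set.range b) := by
    refine le_antisymm (fun v hv => ?_) (Submodule.span_le.2 ?_)
    · rw [hrep v hv]
      exact Submodule.sum_mem _ fun j _ => Submodule.smul_mem _ _ (Submodule.subset_span ⟨j, rfl⟩)
    · rintro _ ⟨j, rfl⟩
      exact hb j
  have e2 : Submodule.span Ω {v' | ∃ v ∈ W, ∀ i, P.To (c i v) (c' i v')} =
      Submodule.span Ω (Set.range g) := by
    refine le_antisymm (Submodule.span_le.2 ?_) (Submodule.span_mono ?_)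
    · rintro v' ⟨v, hv, h⟩
      have : v' = ∑ i, c' (p i) v' • g i := by
        rw [← sub_eq_zero]
        refine hsep' _ fun x => ?_
        rw [map_sub, sub_eq_zero]
        refine (h x).uniq ?_
        have h1 : c x v = ∑ i, c (p i) v * c x (b i) := by
          conv_lhs => rw [hrep v hv]
          simp
        have h2 : c' x (∑ i, c' (p i) v' • g i) = ∑ i, c' (p i) v' * c' x (g i) := by simp
        rw [h1, h2]
        exact Place.to_sum _ fun i _ => (h (p i)).mul (hg i x)
      rw [this]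
      exact Submodule.sum_mem _ fun j _ => Submodule.smul_mem _ _ (Submodule.subset_span ⟨j, rfl⟩)
    · rintro _ ⟨j, rfl⟩
      exact ⟨b j, hb j, hg j⟩
  rw [e2]
  refine ⟨FiniteDimensional.span_of_finite Ω (Set.finite_range g), ?_⟩
  rw [specA_span c' g p hd', e1, specA_span c b p hd]

theorem specA_lift {F : MvPolynomial σ L} (h : ∀ s, coeff s F ∈ P.O) : ∃ G, P.TP F G := by
  classical
  refine ⟨∑ t ∈ F.support, monomial t (P.ev ⟨coeff t F, h t⟩), TP_iff.2 fun s => ?_⟩
  rw [coeff_sum]
  simp only [coeff_monomial]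
  rw [Finset.sum_ite_eq']
  split_ifs with hs
  · exact ⟨h s, rfl⟩
  · rw [notMem_support_iff.1 hs]
    exact Place.to_zero

theorem finrank_spM [Finite A] (W : Submodule L (A → MvPolynomial σ L)) [FiniteDimensional L W] :
    FiniteDimensional Ω (spM P W) ∧ Module.finrank Ω (spM P W) = Module.finrank L W := by
  have hfin : ∀ v : A → MvPolynomial σ L,
      {i : A × (σ →₀ ℕ) | (lcoeff L i.2).comp (LinearMap.proj i.1) v ≠ 0}.Finite := by
    intro v
    refine (Set.finite_iUnion fun a : A =>
      ((v a).support.finite_toSet.image fun s => (a, s))).subset ?_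
    rintro ⟨a, s⟩ hi
    exact Set.mem_iUnion.2 ⟨a, s, Finset.mem_coe.2 (mem_support_iff.2 hi), rfl⟩
  have key := specA_rank (P := P)
    (fun i : A × (σ →₀ ℕ) => (lcoeff L i.2).comp (LinearMap.proj i.1))
    (fun i : A × (σ →₀ ℕ) => (lcoeff Ω i.2).comp
      (LinearMap.proj (φ := fun _ => MvPolynomial σ Ω) i.1)) hfin
    (fun v hv => funext fun a => MvPolynomial.ext _ _ fun s => hv (a, s))
    (fun v hv => funext fun a => MvPolynomial.ext _ _ fun s => hv (a, s))
    (fun v hv => by
      choose G hG using fun a => specA_lift (P := P) (F := v a) fun s => hv (a, s)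
      exact ⟨G, fun i => TP_iff.1 (hG i.1) i.2⟩) W
  have e : {G : A → MvPolynomial σ Ω | ∃ F ∈ W, ∀ a, P.TP (F a) (G a)} =
      {G | ∃ F ∈ W, ∀ i : A × (σ →₀ ℕ), P.To ((lcoeff L i.2).comp (LinearMap.proj i.1) F)
        ((lcoeff Ω i.2).comp (LinearMap.proj (φ := fun _ => MvPolynomial σ Ω) i.1) G)} := by
    ext G
    exact ⟨fun ⟨F, hF, h⟩ => ⟨F, hF, fun i => TP_iff.1 (h i.1) i.2⟩,
      fun ⟨F, hF, h⟩ => ⟨F, hF, fun a => TP_iff.2 fun s => h (a, s)⟩⟩
  unfold spM
  rw [e]
  exact key

theorem mem_spI {J : Ideal (MvPolynomial σ L)} {G : MvPolynomial σ Ω} :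
    G ∈ spI P J ↔ G ∈ Submodule.span Ω {G | ∃ F ∈ J, P.TP F G} := by
  constructor
  · have hX : ∀ (v : σ) (G : MvPolynomial σ Ω), G ∈ Submodule.span Ω {G | ∃ F ∈ J, P.TP F G} →
        X v * G ∈ Submodule.span Ω {G | ∃ F ∈ J, P.TP F G} := by
      intro v G hG
      induction hG using Submodule.span_induction with
      | mem G hG =>
        obtain ⟨F, hF, h⟩ := hG
        exact Submodule.subset_span ⟨X v * F, J.mul_mem_left _ hF,
          TP_mul ⟨X v, map_X _ _, map_X _ _⟩ h⟩
      | zero => simp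
      | add x y _ _ hx hy => rw [mul_add]; exact Submodule.add_mem _ hx hy
      | smul a x _ hx => rw [mul_smul_comm]; exact Submodule.smul_mem _ _ hx
    have hq : ∀ (q G : MvPolynomial σ Ω), G ∈ Submodule.span Ω {G | ∃ F ∈ J, P.TP F G} →
        q * G ∈ Submodule.span Ω {G | ∃ F ∈ J, P.TP F G} := by
      intro q
      induction q using MvPolynomial.induction_on with
      | C a => intro G hG; rw [C_mul']; exact Submodule.smul_mem _ _ hG
      | add p q hp hq => intro G hG; rw [add_mul]; exact Submodule.add_mem _ (hp G hG) (hq G hG)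
      | mul_X p v hp => intro G hG; rw [mul_assoc]; exact hp _ (hX v G hG)
    intro hG
    induction hG using Submodule.span_induction with
    | mem G hG => exact Submodule.subset_span hG
    | zero => simp
    | add x y _ _ hx hy => exact Submodule.add_mem _ hx hy
    | smul a x _ hx => exact hq a x hx
  · intro hG
    induction hG using Submodule.span_induction with
    | mem G hG => exact Ideal.subset_span hG
    | zero => simp
    | add x y _ _ hx hy => exact Ideal.add_mem _ hx hy
    | smul a x _ hx => rw [← C_mul']; exact Ideal.mul_mem_left _ _ hx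

theorem GrW.spI {ι : Type} {w : σ → ι → ℤ} {J : Ideal (MvPolynomial σ L)} (h : GrW w J) :
    GrW w (spI P J) := by
  intro d G hG
  rw [mem_spI] at hG ⊢
  induction hG using Submodule.span_induction with
  | mem G hG =>
    obtain ⟨F, hF, hT⟩ := hG
    exact Submodule.subset_span ⟨_, h d F hF, TP_cmp w d hT⟩
  | zero => simp
  | add x y _ _ hx hy => rw [map_add]; exact Submodule.add_mem _ hx hy
  | smul a x _ hx => rw [map_smul]; exact Submodule.smul_mem _ _ hx

theorem Fer_le_spI {m : ℕ} {ι : Type} {J : Ideal (S L ι)} (h : Fer m L ι ≤ J) :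
    Fer m Ω ι ≤ spI P J := by
  refine Ideal.span_le.2 ?_
  rintro _ ⟨i, rfl⟩
  refine Ideal.subset_span ⟨fer m L i, h (fer_mem i), ?_⟩
  have := TP_int (P := P) (fer m ℤ i)
  rwa [map_fer, map_fer] at this

theorem spI_sc {c : σ → L} {c' : σ → Ω} (hc : ∀ v, P.To (c v) (c' v)) (h0 : ∀ v, c' v ≠ 0)
    (J : Ideal (MvPolynomial σ L)) : spI P (J.map (sc c)) = (spI P J).map (sc c') := by
  have hc0 : ∀ v, c v ≠ 0 := fun v => (hc v).ne_zero (h0 v)
  refine le_antisymm (Ideal.span_le.2 ?_) (Ideal.map_le_iff_le_comap.2 (Ideal.span_le.2 ?_))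
  · rintro G ⟨F, hF, hT⟩
    have e : (fun v => (c v)⁻¹) * c = 1 := funext fun v => inv_mul_cancel₀ (hc0 v)
    have e' : c' * (fun v => (c' v)⁻¹) = 1 := funext fun v => mul_inv_cancel₀ (h0 v)
    rw [← comap_sc e] at hF
    have h1 : sc (fun v => (c' v)⁻¹) G ∈ spI P J :=
      Ideal.subset_span ⟨_, hF, TP_sc (fun v => (hc v).inv (h0 v)) hT⟩
    have h2 := Ideal.mem_map_of_mem (sc c') h1
    rwa [sc_sc, e', sc_one] at h2
  · rintro G ⟨F, hF, hT⟩
    exact Ideal.subset_span ⟨_, Ideal.mem_map_of_mem (sc c) hF, TP_sc hc hT⟩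

theorem finrank_spI {ι : Type} [Finite ι] {J : Ideal (S L ι)} (h : GrI J) (d : ι → ℤ) :
    Module.finrank Ω
      ↥(weightedHomogeneousSubmodule Ω (wt (ι := ι)) d ⊓ (spI P J).restrictScalars Ω) =
    Module.finrank L ↥(weightedHomogeneousSubmodule L (wt (ι := ι)) d ⊓ J.restrictScalars L) := by
  classical
  have := finite_hg (k := L) d
  have hfd : FiniteDimensional L
      ↥(weightedHomogeneousSubmodule L (wt (ι := ι)) d ⊓ J.restrictScalars L) :=
    Submodule.finiteDimensional_of_le inf_le_left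
  have key := specA_rank (P := P) (V := S L ι) (V' := S Ω ι) (lcoeff L) (lcoeff Ω)
    (fun v => v.support.finite_toSet.subset fun s hs => Finset.mem_coe.2 (mem_support_iff.2 hs))
    (fun v hv => MvPolynomial.ext _ _ hv) (fun v hv => MvPolynomial.ext _ _ hv)
    (fun v hv => by
      obtain ⟨G, hG⟩ := specA_lift (P := P) (F := v) hv
      exact ⟨G, TP_iff.1 hG⟩)
    (weightedHomogeneousSubmodule L (wt (ι := ι)) d ⊓ J.restrictScalars L)
  rw [← key.2]
  have e : weightedHomogeneousSubmodule Ω (wt (ι := ι)) d ⊓ (spI P J).restrictScalars Ω =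
      Submodule.span Ω {v' | ∃ v ∈ weightedHomogeneousSubmodule L (wt (ι := ι)) d ⊓
        J.restrictScalars L, ∀ i, P.To (lcoeff L i v) (lcoeff Ω i v')} := by
    refine le_antisymm ?_ (Submodule.span_le.2 ?_)
    · rintro G ⟨hG1, hG2⟩
      have h1 : weightedHomogeneousComponent wt d G = G := by
        rw [weightedHomogeneousComponent_of_mem hG1, if_pos rfl]
      have h2 : G ∈ Submodule.span Ω {G | ∃ F ∈ J, P.TP F G} := mem_spI.1 hG2
      rw [← h1]
      clear h1 hG1 hG2
      induction h2 using Submodule.span_induction with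
      | mem G hG =>
        obtain ⟨F, hF, hT⟩ := hG
        exact Submodule.subset_span ⟨weightedHomogeneousComponent wt d F,
          ⟨weightedHomogeneousComponent_isWeightedHomogeneous d F, h d F hF⟩,
          TP_iff.1 (TP_cmp wt d hT)⟩
      | zero => simp
      | add x y _ _ hx hy => rw [map_add]; exact Submodule.add_mem _ hx hy
      | smul a x _ hx => rw [map_smul]; exact Submodule.smul_mem _ _ hx
    · rintro G ⟨F, ⟨hF1, hF2⟩, hT⟩
      refine ⟨fun s hs => hF1 ((hT s).ne_zero hs), ?_⟩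
      exact Ideal.subset_span ⟨F, hF2, TP_iff.2 hT⟩
  rw [e]

theorem finrank_hg (L Ω : Type) [Field L] [Field Ω] {ι : Type} [Finite ι] (d : ι → ℤ) :
    Module.finrank Ω (weightedHomogeneousSubmodule Ω (wt (ι := ι)) d) =
      Module.finrank L (weightedHomogeneousSubmodule L (wt (ι := ι)) d) := by
  rw [weightedHomogeneousSubmodule_eq_finsupp_supported,
    weightedHomogeneousSubmodule_eq_finsupp_supported]
  exact (Module.finrank_eq_nat_card_basis (basisRestrictSupport Ω _)).trans
    (Module.finrank_eq_nat_card_basis (basisRestrictSupport L _)).symm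

theorem exists_place_rt {m : ℕ} [NeZero m] [CharZero L] [IsAlgClosed Ω] (w : Rt m L)
    (ζ : Rt m Ω) : ∃ P : Place L Ω, P.To w.1 ζ.1 := by
  have hm : 0 < m := Nat.pos_of_ne_zero (NeZero.ne m)
  obtain ⟨P, hP⟩ := exists_place (Polynomial.aeval (R := ℤ) w.1).toRingHom
    (Polynomial.aeval (R := ℤ) ζ.1).toRingHom (fun a ha => by
      have h1 : minpoly ℤ w.1 ∣ a := minpoly.isIntegrallyClosed_dvd (w.2.isIntegral hm) ha
      rw [← Polynomial.cyclotomic_eq_minpoly w.2 hm] at h1
      obtain ⟨r, rfl⟩ := h1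
      have h2 : Polynomial.aeval ζ.1 (Polynomial.cyclotomic m ℤ) = 0 := by
        rw [Polynomial.aeval_def, ← Polynomial.eval_map, Polynomial.map_cyclotomic]
        exact ζ.2.isRoot_cyclotomic hm
      change Polynomial.aeval ζ.1 (Polynomial.cyclotomic m ℤ * r) = 0
      rw [map_mul, h2, zero_mul])
  refine ⟨P, ?_⟩
  have := hP Polynomial.X
  simpa using this

end Pool.Agent.TateX
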